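import Mathlib

/-!
# MP_e0a489: base definitions

Triangulated square grid: the sites are the points of `ℤ × ℤ`, every unit cell has exactly one
diagonal (pattern `ne`), a site is fair (`typ v = none`) or has a fixed state.
A configuration is a function `ℤ × ℤ → Bool` (`true` = open); the state of a site `v` is
`L.st ω v`, the fixed state if there is one and `ω v` otherwise.
Bond percolation on `ℤ²` is the case `Z2` (doubled lattice): even-even points are always open,
odd-odd points are always closed, the other points are the edges.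
-/

set_option autoImplicit false

namespace SC

open Classical

abbrev Pt := ℤ × ℤ

abbrev Cfg := Pt → Bool

/-- a lattice: diagonal pattern and types of the sites -/
structure Lat where
  /-- `true`: the cell with lower left corner `(i, j)` has the diagonal `(i,j) - (i+1,j+1)`;
  `false`: it has the diagonal `(i+1,j) - (i,j+1)` -/
  ne : ℤ → ℤ → Bool
  /-- `none`: fair site, `some b`: the state is always `b` -/
  typ : Pt → Option Bool

namespace Lat

/-- adjacency (one step to the right or up, or along the diagonal of a cell), oriented version -/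
def Adj1 (L : Lat) (u v : Pt) : Prop :=
  (v.1 = u.1 + 1 ∧ v.2 = u.2) ∨ (v.1 = u.1 ∧ v.2 = u.2 + 1) ∨
    (v.1 = u.1 + 1 ∧ v.2 = u.2 + 1 ∧ L.ne u.1 u.2 = true) ∨
    (v.1 = u.1 - 1 ∧ v.2 = u.2 + 1 ∧ L.ne v.1 u.2 = false)

/-- adjacency -/
def Adj (L : Lat) (u v : Pt) : Prop := L.Adj1 u v ∨ L.Adj1 v u

/-- the state of a site -/
def st (L : Lat) (ω : Cfg) (v : Pt) : Bool := (L.typ v).getD (ω v)

/-- the sites of colour `c` -/
def col (L : Lat) (c : Bool) (ω : Cfg) : Set Pt := {v | L.st ω v = c}

/-- `u` and `v` are joined by a path in `A` -/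
def Cn (L : Lat) (A : Set Pt) (u v : Pt) : Prop :=
  u ∈ A ∧ Relation.ReflTransGen (fun a b => L.Adj a b ∧ b ∈ A) u v

/-- `A` is connected (or empty) -/
def Con (L : Lat) (A : Set Pt) : Prop := ∀ u ∈ A, ∀ v ∈ A, L.Cn A u v

/-- sites with a neighbour in `A` -/
def nb (L : Lat) (A : Set Pt) : Set Pt := {v | ∃ u ∈ A, L.Adj u v}

/-- the boundary of `C` in `D`: the sites of `D` with a neighbour in `C` -/
def bd (L : Lat) (D C : Set Pt) : Set Pt := {v | v ∈ D ∧ ∃ u ∈ C, L.Adj u v}

/-- `D` is a connected component of `A` (nonempty) -/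
structure Comp (L : Lat) (A D : Set Pt) : Prop where
  ne : D.Nonempty
  sub : D ⊆ A
  con : L.Con D
  cl : ∀ u ∈ D, ∀ v ∈ A, L.Adj u v → v ∈ D

/-- the translated lattice: the site `v` of `L.shift x` is the site `v + x` of `L` -/
def shift (L : Lat) (x : Pt) : Lat :=
  ⟨fun i j => L.ne (i + x.1) (j + x.2), fun v => L.typ (v + x)⟩

/-- transposition: the site `(i, j)` of `L.tr` is the site `(j, i)` of `L` -/
def tr (L : Lat) : Lat := ⟨fun i j => L.ne j i, fun v => L.typ (v.2, v.1)⟩

/-- reflection: the site `(i, j)` of `L.rx` is the site `(-i, j)` of `L` -/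
def rx (L : Lat) : Lat := ⟨fun i j => ! L.ne (-i - 1) j, fun v => L.typ (-v.1, v.2)⟩

/-- reflection: the site `(i, j)` of `L.ry` is the site `(i, -j)` of `L` -/
def ry (L : Lat) : Lat := ⟨fun i j => ! L.ne i (-j - 1), fun v => L.typ (v.1, -v.2)⟩

/-- exchange of the two colours -/
def sw (L : Lat) : Lat := ⟨L.ne, fun v => (L.typ v).map Bool.not⟩

end Lat

/-- bond percolation on `ℤ²` in the doubled lattice (Union Jack pattern) -/
def Z2 : Lat where
  ne i j := decide ((i + j) % 2 = 0)
  typ v := if v.1 % 2 = 0 ∧ v.2 % 2 = 0 then some true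
    else if v.1 % 2 = 1 ∧ v.2 % 2 = 1 then some false else none

/-- rectangle `[a,b] × [c,d]` -/
def rect (a b c d : ℤ) : Set Pt := {v | (a ≤ v.1 ∧ v.1 ≤ b) ∧ c ≤ v.2 ∧ v.2 ≤ d}

/-- sup norm -/
def nrm (v : Pt) : ℤ := max |v.1| |v.2|

/-- box of radius `r` around the origin -/
def bx (r : ℤ) : Set Pt := {v | nrm v ≤ r}

/-- annulus `bx R \ bx r` -/
def ann (r R : ℤ) : Set Pt := {v | r < nrm v ∧ nrm v ≤ R}

/-- ring of radius `R` -/
def rng (R : ℤ) : Set Pt := {v | nrm v = R}

namespace Lat

/-- crossing of colour `c` of the rectangle `[a,b] × [p,q]` from the left to the right side -/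
def HX (L : Lat) (c : Bool) (a b p q : ℤ) (ω : Cfg) : Prop :=
  ∃ u v, u.1 = a ∧ v.1 = b ∧ L.Cn (rect a b p q ∩ L.col c ω) u v

/-- crossing of colour `c` of the rectangle `[a,b] × [p,q]` from the lower to the upper side -/
def VX (L : Lat) (c : Bool) (a b p q : ℤ) (ω : Cfg) : Prop :=
  ∃ u v, u.2 = p ∧ v.2 = q ∧ L.Cn (rect a b p q ∩ L.col c ω) u v

/-- there is a path of colour `c` in `D` from `X` to `Y` -/
def Arm (L : Lat) (c : Bool) (D X Y : Set Pt) (ω : Cfg) : Prop :=
  ∃ x ∈ X, ∃ y ∈ Y, L.Cn (D ∩ L.col c ω) x y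

/-- two clusters: there are two paths of colour `c` in `D` from `X` to `Y` which are not joined by
a path of colour `c` in `D` -/
def Two (L : Lat) (c : Bool) (D X Y : Set Pt) (ω : Cfg) : Prop :=
  ∃ x ∈ X, ∃ y ∈ Y, ∃ x' ∈ X, ∃ y' ∈ Y, L.Cn (D ∩ L.col c ω) x y ∧
    L.Cn (D ∩ L.col c ω) x' y' ∧ ¬ L.Cn (D ∩ L.col c ω) x x'

/-- four arm event of the annulus `ann r R` (two clusters of colour `c` crossing it) -/
def TwoA (L : Lat) (c : Bool) (r R : ℤ) (ω : Cfg) : Prop :=
  L.Two c (ann r R) (L.nb (bx r)) (rng R) ω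

/-- the clusters of colour `c` in `D` attached to `S`: sites of `D` joined by a path of colour `c`
in `D` to a site with a neighbour in `S` -/
def cl (L : Lat) (c : Bool) (D S : Set Pt) (ω : Cfg) : Set Pt :=
  {v | ∃ u, u ∈ L.nb S ∧ L.Cn (D ∩ L.col c ω) u v}

end Lat

/-! ## Probability -/

/-- `ω` replaced on `G` by the configuration that is open exactly on `S` -/
def ovr (G S : Finset Pt) (ω : Cfg) : Cfg := fun v => if v ∈ G then decide (v ∈ S) else ω v

/-- average ovr the sites of `G` (all other sites fixed) -/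
noncomputable def av (G : Finset Pt) (g : Cfg → ℝ) : Cfg → ℝ :=
  fun ω => (∑ S ∈ G.powerset, g (ovr G S ω)) / 2 ^ G.card

/-- `g` depends only on the sites of `A` -/
def Dep {α : Type} (g : Cfg → α) (A : Set Pt) : Prop :=
  ∀ ω ω' : Cfg, (∀ v ∈ A, ω v = ω' v) → g ω = g ω'

/-- expectation of a function depending on finitely many sites (`0` for other functions) -/
noncomputable def ex (g : Cfg → ℝ) : ℝ :=
  if h : ∃ F : Finset Pt, Dep g (F : Set Pt) then av h.choose g (fun _ => false) else 0

/-- indicator function -/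
noncomputable def ind (A : Cfg → Prop) : Cfg → ℝ := fun ω => if A ω then 1 else 0

/-- probability of a local event -/
noncomputable def pr (A : Cfg → Prop) : ℝ := ex (ind A)

/-- conditional probability of `A` given the configuration outside `G` -/
noncomputable def cpr (G : Finset Pt) (A : Cfg → Prop) : Cfg → ℝ := av G (ind A)

/-- local event: depends on finitely many sites -/
def Loc (A : Cfg → Prop) : Prop := ∃ F : Finset Pt, Dep A (F : Set Pt)

/-- increasing event -/
def Inc (A : Cfg → Prop) : Prop := ∀ ω ω' : Cfg, (∀ v, ω v ≤ ω' v) → A ω → A ω'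

/-- decreasing event -/
def Dec (A : Cfg → Prop) : Prop := ∀ ω ω' : Cfg, (∀ v, ω v ≤ ω' v) → A ω' → A ω

/-! ## Pairs of configurations (noise)

`κ v ∈ [0,1]` is the correlation of the two copies of the site `v`: `κ v = exp (- lag)`. -/

/-- weight of the pair of states `(s, s')` for the correlation `k` -/
noncomputable def wt (k : ℝ) (s s' : Bool) : ℝ := if s = s' then (1 + k) / 4 else (1 - k) / 4

/-- `E[g(ω) h(ω')]` for pairs on the finite set `F` with correlations `κ` -/
noncomputable def ex2F (F : Finset Pt) (κ : Pt → ℝ) (g h : Cfg → ℝ) : ℝ :=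
  ∑ S ∈ F.powerset, ∑ T ∈ F.powerset,
    (∏ v ∈ F, wt (κ v) (decide (v ∈ S)) (decide (v ∈ T))) *
      (g (ovr F S fun _ => false) * h (ovr F T fun _ => false))

/-- `E[g(ω) h(ω')]` for local `g`, `h` (`0` otherwise) -/
noncomputable def ex2 (κ : Pt → ℝ) (g h : Cfg → ℝ) : ℝ :=
  if hh : ∃ F : Finset Pt, Dep g (F : Set Pt) ∧ Dep h (F : Set Pt)
    then ex2F hh.choose κ g h else 0

/-- probability that `A` holds at both times -/
noncomputable def pr2 (κ : Pt → ℝ) (A : Cfg → Prop) : ℝ := ex2 κ (ind A) (ind A)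

/-- character -/
noncomputable def chi (S : Finset Pt) (ω : Cfg) : ℝ := ∏ v ∈ S, (if ω v then (1 : ℝ) else -1)

/-- Fourier coefficient of a local function -/
noncomputable def fc (g : Cfg → ℝ) (S : Finset Pt) : ℝ := ex (fun ω => g ω * chi S ω)

/-! ## The box crossing hypothesis -/

/-- box crossing property with constants `c k` (for rectangles of aspect ratio `k`), for both
colours, both directions, all positions and all widths `n ≥ 4` -/
structure RSW (L : Lat) (c : ℕ → ℝ) : Prop where
  pos : ∀ k, 0 < c k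
  hx : ∀ (k : ℕ) (b : Bool) (n a p : ℤ), 1 ≤ k → 4 ≤ n → c k ≤ pr (L.HX b a (a + k * n) p (p + n))
  vx : ∀ (k : ℕ) (b : Bool) (n a p : ℤ), 1 ≤ k → 4 ≤ n → c k ≤ pr (L.VX b a (a + n) p (p + k * n))

end SC
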