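import Pool.Agent.Lib_MP_e0a489.TE2

/-!
# MP_e0a489: definitions for the percolation part (circuits, exploration, zones, separated events)
-/

set_option autoImplicit false

namespace SC

open Classical

/-! ### Rings, blocks, cells -/

/-- the sites of the ring of radius `m ≥ 1`, counterclockwise, `rc m 0 = (m, 0)`, period `8 m`;
`rc m (2 * m * s + k) = rt s (m, k)` for `|k| ≤ m` -/
def rc (m i : ℤ) : Pt := rt ((i + m) / (2 * m)) (m, i - 2 * m * ((i + m) / (2 * m)))

/-- the block number `z` of side `w` (`w` odd, block `0` is centred at the origin) -/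
def blk (w : ℤ) (z : Pt) : Set Pt :=
  rect (z.1 * w - w / 2) (z.1 * w + w / 2) (z.2 * w - w / 2) (z.2 * w + w / 2)

/-! ### Zones

`J s R`: landing zone outside `bx R` in direction `s` (`s = 0, 1, 2, 3`: right, top, left, bottom), `Je s R` its
far side.  `K s r`: landing zone inside `bx r`, `Ks s r` its inner side.  Open arms use the
directions `0, 2`, closed arms the directions `1, 3`. -/

def J (s R : ℤ) : Set Pt := rt s '' rect (R + 1) (2 * R) (-(R / 4)) (R / 4)

def Je (s R : ℤ) : Set Pt := rt s '' rect (2 * R) (2 * R) (-(R / 4)) (R / 4)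

def K (s r : ℤ) : Set Pt := rt s '' rect (r / 2 + 1) r (-(r / 8)) (r / 8)

def Ks (s r : ℤ) : Set Pt := rt s '' rect (r / 2 + 1) (r / 2 + 1) (-(r / 8)) (r / 8)

/-- first direction of the colour: `0` for open, `1` for closed -/
def dc (c : Bool) : ℤ := if c then 0 else 1

/-- both outer zones of the colour `c` -/
def Jc (c : Bool) (R : ℤ) : Set Pt := J (dc c) R ∪ J (dc c + 2) R

/-- both inner zones of the colour `c` -/
def Kc (c : Bool) (r : ℤ) : Set Pt := K (dc c) r ∪ K (dc c + 2) r

namespace Lat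

/-- circuit of colour `c` in the annulus `ann r R` (crossings of four rectangles) -/
def Circ (L : Lat) (c : Bool) (r R : ℤ) (ω : Cfg) : Prop :=
  L.HX c (-R) R (r + 1) R ω ∧ L.HX c (-R) R (-R) (-r - 1) ω ∧
    L.VX c (-R) (-r - 1) (-R) R ω ∧ L.VX c (r + 1) R (-R) R ω

/-- `σ` is connected, lies in `ann r R` and separates `bx r` from the outside -/
def Sep (L : Lat) (σ : Set Pt) (r R : ℤ) : Prop :=
  L.Con σ ∧ σ ⊆ ann r R ∧ ∀ P : Set Pt, L.Con P → (∃ v ∈ P, v ∈ bx r ∪ L.nb (bx r)) →
    (∃ v ∈ P, R ≤ nrm v) → (σ ∩ P).Nonempty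

/-- half circuit of colour `c` in the half annulus `{r < nrm (v - (x,0)) ≤ R, 0 ≤ v.2}` -/
def HC (L : Lat) (c : Bool) (x r R : ℤ) (ω : Cfg) : Prop :=
  L.VX c (x - R) (x - r - 1) 0 R ω ∧ L.HX c (x - R) (x + R) (r + 1) R ω ∧
    L.VX c (x + r + 1) (x + R) 0 R ω

/-- exploration: the source `S` together with all clusters of colour `c` in `M \ S` attached to it -/
def Cx (L : Lat) (c : Bool) (M S : Set Pt) (ω : Cfg) : Set Pt := S ∪ L.cl c (M \ S) S ω

/-- the explored sites -/
def Rev (L : Lat) (c : Bool) (M S : Set Pt) (ω : Cfg) : Set Pt :=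
  L.Cx c M S ω ∪ L.bd M (L.Cx c M S ω)

/-! ### Separated events -/

/-- four arms from `bx r` to the far sides of the zones `J s R` -/
def Sout (L : Lat) (r R : ℤ) (ω : Cfg) : Prop :=
  ∀ c : Bool, L.Arm c (ann r R ∪ Jc c R) (L.nb (bx r)) (Je (dc c) R) ω ∧
    L.Arm c (ann r R ∪ Jc c R) (L.nb (bx r)) (Je (dc c + 2) R) ω

/-- the two arms of colour `c` from the inner zones to the outer zones (in one of the two possible
pairings) -/
def Pairs (L : Lat) (c : Bool) (r R : ℤ) (ω : Cfg) : Prop :=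
  (L.Arm c (ann r R ∪ Jc c R ∪ Kc c r) (Ks (dc c) r) (Je (dc c) R) ω ∧
    L.Arm c (ann r R ∪ Jc c R ∪ Kc c r) (Ks (dc c + 2) r) (Je (dc c + 2) R) ω) ∨
  (L.Arm c (ann r R ∪ Jc c R ∪ Kc c r) (Ks (dc c) r) (Je (dc c + 2) R) ω ∧
    L.Arm c (ann r R ∪ Jc c R ∪ Kc c r) (Ks (dc c + 2) r) (Je (dc c) R) ω)

/-- separated four arm event -/
def S4 (L : Lat) (r R : ℤ) (ω : Cfg) : Prop := L.Pairs true r R ω ∧ L.Pairs false r R ω

/-- the four arm event around the site `x` -/
def TwoAt (L : Lat) (c : Bool) (x : Pt) (r R : ℤ) (ω : Cfg) : Prop :=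
  (L.shift x).TwoA c r R (via (Equiv.addRight x) ω)

/-- two clusters of colour `c` crossing the half annulus `ann r R ∩ H` (`H` a half plane, see `HalfLike`) -/
def TwoH (L : Lat) (c : Bool) (H : Set Pt) (r R : ℤ) (ω : Cfg) : Prop :=
  L.Two c (ann r R ∩ H) (L.nb (bx r)) (rng R) ω

/-- arms of both colours crossing the quarter annulus `ann r R ∩ H` (`H` a quarter plane, see
`QuartLike`) -/
def TwoQ (L : Lat) (H : Set Pt) (r R : ℤ) (ω : Cfg) : Prop :=
  ∀ c : Bool, L.Arm c (ann r R ∩ H) (L.nb (bx r)) (rng R) ω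

end Lat

/-- upper half plane with arbitrary sites of the boundary row (for the triangular lattice one side of
the square is jagged) -/
def HalfLike (H : Set Pt) : Prop := {v | 1 ≤ v.2} ⊆ H ∧ H ⊆ {v | 0 ≤ v.2}

/-- quarter plane with arbitrary sites of the two boundary lines -/
def QuartLike (H : Set Pt) : Prop :=
  {v | 1 ≤ v.1 ∧ 1 ≤ v.2} ⊆ H ∧ H ⊆ {v | 0 ≤ v.1 ∧ 0 ≤ v.2}

/-- correlation `0` in `bx (8 r)` and outside `bx (R / 4)` -/
noncomputable def kz (k : Pt → ℝ) (r R : ℤ) : Pt → ℝ :=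
  fun v => if nrm v ≤ 8 * r ∨ R / 4 < nrm v then 0 else k v

/-- Symmetries used for the half plane, the corner and the final argument: period 2 in both
directions; the exchange of the colours and the two reflections are translations of the lattice.
(`Z2`: doubled square lattice; also the triangular lattice drawn with alternating rows.) -/
structure Fam (L : Lat) (κ : ℕ → ℝ) : Prop where
  rsw : RSW L κ
  per1 : L.shift (2, 0) = L
  per2 : L.shift (0, 2) = L
  sw : ∃ x, L.sw = L.shift x
  rx : ∃ x, L.rx = L.shift x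
  ry : ∃ x, L.ry = L.shift x

/-- four arm probability (`1` if the annulus is empty) -/
noncomputable def al (L : Lat) (r R : ℤ) : ℝ := if r < R then pr (L.TwoA true r R) else 1

/-- constant correlation `exp (-t)` -/
noncomputable def kt (t : ℝ) : Pt → ℝ := fun _ => Real.exp (-t)

end SC
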