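import Pool.Agent.Lib_MP_e0a489.PA1

/-!
# MP_e0a489, probability toolkit 5a: stopping sets
-/

set_option autoImplicit false

namespace SC

open Classical

/-- `R ω` is a stopping set: it is determined by the configuration on `R ω` -/
def Stop (R : Cfg → Set Pt) : Prop := ∀ ω ω' : Cfg, (∀ v ∈ R ω, ω v = ω' v) → R ω' = R ω

/-- the unexplored sites of `G` are replaced by those of `η` -/
noncomputable def mix (G : Finset Pt) (R : Cfg → Set Pt) (ω η : Cfg) : Cfg :=
  fun v => if v ∈ G ∧ v ∉ R ω then η v else ω v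

theorem mix_R {R : Cfg → Set Pt} (hR : Stop R) (G : Finset Pt) (ω η : Cfg) :
    R (mix G R ω η) = R ω := by
  refine hR ω _ (fun v hv => ?_)
  unfold mix
  rw [if_neg (fun h => h.2 hv)]

/-- the pair of sets of the swapped pair of configurations -/
private noncomputable def swp (G : Finset Pt) (R : Cfg → Set Pt) (ω : Cfg)
    (p : Finset Pt × Finset Pt) : Finset Pt × Finset Pt :=
  (G.filter (fun v => if v ∈ R (ovr G p.1 ω) then v ∈ p.1 else v ∈ p.2),
    G.filter (fun v => if v ∈ R (ovr G p.1 ω) then v ∈ p.2 else v ∈ p.1))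

private theorem ovr_swp (G : Finset Pt) (R : Cfg → Set Pt) (ω : Cfg)
    (p : Finset Pt × Finset Pt) :
    ovr G (swp G R ω p).1 ω = mix G R (ovr G p.1 ω) (ovr G p.2 ω) := by
  funext v
  unfold mix
  by_cases hv : v ∈ G
  · rw [ovr_mem hv]
    by_cases hr : v ∈ R (ovr G p.1 ω)
    · rw [if_neg (fun h => h.2 hr), ovr_mem hv]
      simp [swp, hv, hr]
    · rw [if_pos ⟨hv, hr⟩, ovr_mem hv]
      simp [swp, hv, hr]
  · rw [ovr_not_mem hv, if_neg (fun h => hv h.1), ovr_not_mem hv]

private theorem swp_swp {R : Cfg → Set Pt} (hR : Stop R) (G : Finset Pt) (ω : Cfg)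
    {p : Finset Pt × Finset Pt} (h1 : p.1 ⊆ G) (h2 : p.2 ⊆ G) :
    swp G R ω (swp G R ω p) = p := by
  have hRR : R (ovr G (swp G R ω p).1 ω) = R (ovr G p.1 ω) := by
    rw [ovr_swp, mix_R hR]
  have e1 : (swp G R ω (swp G R ω p)).1 = p.1 := by
    ext v
    show v ∈ G.filter (fun v => if v ∈ R (ovr G (swp G R ω p).1 ω) then v ∈ (swp G R ω p).1
      else v ∈ (swp G R ω p).2) ↔ v ∈ p.1
    rw [hRR, Finset.mem_filter]
    by_cases hr : v ∈ R (ovr G p.1 ω)
    · simp only [hr, if_true]
      simp only [swp, Finset.mem_filter, hr, if_true]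
      exact ⟨fun h => h.2.2, fun h => ⟨h1 h, h1 h, h⟩⟩
    · simp only [hr, if_false]
      simp only [swp, Finset.mem_filter, hr, if_false]
      exact ⟨fun h => h.2.2, fun h => ⟨h1 h, h1 h, h⟩⟩
  have e2 : (swp G R ω (swp G R ω p)).2 = p.2 := by
    ext v
    show v ∈ G.filter (fun v => if v ∈ R (ovr G (swp G R ω p).1 ω) then v ∈ (swp G R ω p).2
      else v ∈ (swp G R ω p).1) ↔ v ∈ p.2
    rw [hRR, Finset.mem_filter]
    by_cases hr : v ∈ R (ovr G p.1 ω)
    · simp only [hr, if_true]
      simp only [swp, Finset.mem_filter, hr, if_true]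
      exact ⟨fun h => h.2.2, fun h => ⟨h2 h, h2 h, h⟩⟩
    · simp only [hr, if_false]
      simp only [swp, Finset.mem_filter, hr, if_false]
      exact ⟨fun h => h.2.2, fun h => ⟨h2 h, h2 h, h⟩⟩
  exact Prod.ext e1 e2

private theorem swp_mem (G : Finset Pt) (R : Cfg → Set Pt) (ω : Cfg)
    (p : Finset Pt × Finset Pt) : swp G R ω p ∈ G.powerset ×ˢ G.powerset := by
  rw [Finset.mem_product, Finset.mem_powerset, Finset.mem_powerset]
  exact ⟨Finset.filter_subset _ _, Finset.filter_subset _ _⟩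

/-- The mixed configuration of two independent configurations has the same law: the map
`(ω₁, ω₂) ↦ (mix ω₁ ω₂, ω₂ with the values of ω₁ on G \ R ω₁)` is an involution of the pairs of
configurations which agree with `ω` off `G` (by `mix_R`). -/
theorem av_mix {R : Cfg → Set Pt} (hR : Stop R) (G : Finset Pt) (g : Cfg → ℝ) (ω : Cfg) :
    av G (fun ω₁ => av G (fun ω₂ => g (mix G R ω₁ ω₂)) ω) ω = av G g ω := by
  have key : ∑ p ∈ G.powerset ×ˢ G.powerset, g (mix G R (ovr G p.1 ω) (ovr G p.2 ω)) =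
      ∑ p ∈ G.powerset ×ˢ G.powerset, g (ovr G p.1 ω) := by
    refine Finset.sum_nbij' (swp G R ω) (swp G R ω) (fun p _ => swp_mem G R ω p)
      (fun p _ => swp_mem G R ω p) (fun p hp => ?_) (fun p hp => ?_) (fun p _ => ?_)
    · rw [Finset.mem_product, Finset.mem_powerset, Finset.mem_powerset] at hp
      exact swp_swp hR G ω hp.1 hp.2
    · rw [Finset.mem_product, Finset.mem_powerset, Finset.mem_powerset] at hp
      exact swp_swp hR G ω hp.1 hp.2
    · rw [ovr_swp]
  rw [Finset.sum_product, Finset.sum_product] at key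
  simp only [av]
  rw [← Finset.sum_div, key]
  simp only [Finset.sum_const, Finset.card_powerset, nsmul_eq_mul]
  rw [← Finset.mul_sum]
  push_cast
  have h2 : (2 : ℝ) ^ G.card ≠ 0 := by positivity
  field_simp

end SC
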