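import Pool.Agent.Lib_MP_e0a489.TA1

/-!
# MP_e0a489, topology 1b: paths, components
-/

set_option autoImplicit false

namespace SC

open Classical

namespace Lat

variable {L : Lat}

/-- a path inside `A` runs through a connected set: finite version -/
theorem Cn.path {A : Set Pt} {u v : Pt} (h : L.Cn A u v) :
    ∃ l : List Pt, l ≠ [] ∧ l.head? = some u ∧ l.getLast? = some v ∧ (∀ w ∈ l, w ∈ A) ∧
      l.IsChain L.Adj := by
  obtain ⟨hu, h⟩ := h
  induction h using Relation.ReflTransGen.head_induction_on with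
  | refl => exact ⟨[v], by simp, by simp, by simp, by simpa using hu, by simp⟩
  | head hac _ ih =>
    obtain ⟨l, h1, h2, h3, h4, h5⟩ := ih hac.2
    cases l with
    | nil => exact absurd rfl h1
    | cons b t =>
      rw [List.head?_cons, Option.some.injEq] at h2
      subst h2
      refine ⟨_ :: b :: t, by simp, rfl, ?_, ?_, ?_⟩
      · rw [List.getLast?_cons_cons]
        exact h3
      · intro w hw
        rw [List.mem_cons] at hw
        rcases hw with rfl | hw
        · exact hu
        · exact h4 w hw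
      · exact List.isChain_cons_cons.2 ⟨hac.1, h5⟩

theorem Cn.of_path {A : Set Pt} {u v : Pt} {l : List Pt} (h1 : l.head? = some u)
    (h2 : l.getLast? = some v) (h3 : ∀ w ∈ l, w ∈ A) (h4 : l.IsChain L.Adj) : L.Cn A u v := by
  induction l generalizing u with
  | nil => simp at h1
  | cons a t ih =>
    rw [List.head?_cons, Option.some.injEq] at h1
    subst h1
    cases t with
    | nil =>
      have h5 : a = v := by simpa using h2
      subst h5
      exact Cn.refl (h3 a (by simp))
    | cons b t =>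
      rw [List.getLast?_cons_cons] at h2
      rw [List.isChain_cons_cons] at h4
      have h6 := ih rfl h2 (fun w hw => h3 w (List.mem_cons_of_mem _ hw)) h4.2
      exact ⟨h3 a (by simp), Relation.ReflTransGen.head ⟨h4.1, h6.1⟩ h6.2⟩

/-- the connected component of a site -/
theorem comp_cluster {A : Set Pt} {u : Pt} (hu : u ∈ A) : L.Comp A {v | L.Cn A u v} where
  ne := ⟨u, Cn.refl hu⟩
  sub := fun _ hv => Cn.right hv
  con := con_cluster A u
  cl := fun _ hw v hv hwv => Cn.trans hw (Cn.of_adj (Cn.right hw) hv hwv)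

private theorem stay {A D P : Set Pt} (h : L.Comp A D) (hPA : P ⊆ A) {u v : Pt} (hu : u ∈ D)
    (huv : L.Cn P u v) : v ∈ D := by
  obtain ⟨_, huv⟩ := huv
  induction huv with
  | refl => exact hu
  | tail _ hbc ih => exact h.cl _ ih _ (hPA hbc.2) hbc.1

theorem Comp.eq {A D D' : Set Pt} (h : L.Comp A D) (h' : L.Comp A D') {v : Pt} (hv : v ∈ D)
    (hv' : v ∈ D') : D = D' := by
  apply subset_antisymm
  · intro w hw
    exact stay h' h.sub hv' (h.con v hv w hw)
  · intro w hw
    exact stay h h'.sub hv (h'.con v hv' w hw)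

/-- a connected subset of `A` that meets the component `D` of `A` lies in it -/
theorem Comp.absorb {A D P : Set Pt} (h : L.Comp A D) (hP : L.Con P) (hPA : P ⊆ A)
    (hPD : (P ∩ D).Nonempty) : P ⊆ D := by
  obtain ⟨p, hp, hpD⟩ := hPD
  intro w hw
  exact stay h hPA hpD (hP p hp w hw)

/-- EXIT LEMMA.  `D` is a component of `M \ C`, `T ⊆ M` is connected, contains a site of `D` that
has no neighbour in `C`, and a site which is not in `D \ bd D C`.  Then there is a path in `T` from
the first site, inside `D \ bd D C` except for its last site, which lies in `bd D C`.  (First exit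
from `D \ bd D C`: the next site `q ∈ T ⊆ M` is not in `C`, otherwise the previous one is in
`bd D C`; so `q ∈ M \ C`, `q ∈ D`, `q ∈ bd D C`.) -/
theorem exit_bd {M C D T : Set Pt} (hD : L.Comp (M \ C) D) (hT : L.Con T) (hTM : T ⊆ M)
    {u v : Pt} (hu : u ∈ T) (huD : u ∈ D \ L.bd D C) (hv : v ∈ T) (hvD : v ∉ D \ L.bd D C) :
    ∃ p q, L.Cn (T ∩ (D \ L.bd D C)) u p ∧ L.Adj p q ∧ q ∈ T ∧ q ∈ L.bd D C := by
  obtain ⟨p, q, h1, h2, h3, h4⟩ := Cn.exit (hT u hu v hv) huD hvD
  refine ⟨p, q, h1, h2, h3, ?_⟩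
  obtain ⟨_, hpD, hpb⟩ := Cn.right h1
  have hqC : q ∉ C := by
    intro hq
    exact hpb ⟨hpD, q, hq, Adj.symm h2⟩
  have hqD : q ∈ D := hD.cl p hpD q ⟨hTM h3, hqC⟩ h2
  by_contra hqb
  exact h4 ⟨hqD, hqb⟩

end Lat

end SC
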