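import Pool.Agent.Lib_MP_e0a489.TA3

/-!
# MP_e0a489, topology 5a: transport of lattices

`Tr L L' e`: the lattice `L'` is the lattice `L` seen through the bijection `e` of the sites (the site
`v` of `L'` is the site `e v` of `L`).
-/

set_option autoImplicit false

namespace SC

open Classical

/-- `L'` is `L` seen through `e` -/
structure Tr (L L' : Lat) (e : Equiv.Perm Pt) : Prop where
  adj : ∀ u v, L'.Adj u v ↔ L.Adj (e u) (e v)
  typ : ∀ v, L'.typ v = L.typ (e v)

/-- rotation by 90 degrees -/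
def rotE : Equiv.Perm Pt where
  toFun v := (-v.2, v.1)
  invFun v := (v.2, -v.1)
  left_inv v := by simp
  right_inv v := by simp

/-- rotation by `90 s` degrees -/
def rt (s : ℤ) : Equiv.Perm Pt := rotE ^ s

namespace Lat

/-- the rotated lattice: the site `v` of `L.rot` is the site `rotE v` of `L` -/
def rot (L : Lat) : Lat := L.rx.tr

/-- the lattice rotated by `90 s` degrees: its site `v` is the site `rt s v` of `L` -/
def rots (L : Lat) (s : ℤ) : Lat :=
  if s % 4 = 0 then L else if s % 4 = 1 then L.rot else if s % 4 = 2 then L.rot.rot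
    else L.rot.rot.rot

end Lat

theorem rt_zero (v : Pt) : rt 0 v = v := by
  rfl

theorem rt_one (v : Pt) : rt 1 v = (-v.2, v.1) := by
  rfl

theorem rt_two (v : Pt) : rt 2 v = (-v.1, -v.2) := by
  have h : rt 2 = rotE * rotE := by
    unfold rt
    rw [show (2 : ℤ) = 1 + 1 by norm_num, zpow_add, zpow_one]
  rw [h]
  rfl

theorem rt_three (v : Pt) : rt 3 v = (v.2, -v.1) := by
  have h : rt 3 = rotE * rotE * rotE := by
    unfold rt
    rw [show (3 : ℤ) = 1 + 1 + 1 by norm_num, zpow_add, zpow_add, zpow_one]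
  rw [h]
  show ((-(-v.2), -v.1) : Pt) = _
  rw [neg_neg]

theorem rt_add (s s' : ℤ) (v : Pt) : rt (s + s') v = rt s (rt s' v) := by
  unfold rt
  rw [zpow_add]
  rfl

theorem rt_four (s : ℤ) (v : Pt) : rt (s + 4) v = rt s v := by
  have h4 : rt 4 = 1 := by
    have h : rt 4 = rotE * rotE * (rotE * rotE) := by
      unfold rt
      rw [show (4 : ℤ) = 1 + 1 + (1 + 1) by norm_num, zpow_add, zpow_add, zpow_one]
    rw [h]
    ext v
    · show -(-v.1) = v.1
      rw [neg_neg]
    · show -(-v.2) = v.2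
      rw [neg_neg]
  rw [rt_add, h4]
  rfl

/-- depends only on `s` modulo 4 -/
theorem rt_mod {s s' : ℤ} (h : s % 4 = s' % 4) : rt s = rt s' := by
  have h1 : ∀ (k : ℤ) (v : Pt), rt (4 * k) v = v := by
    have h2 : rt 4 = 1 := by
      ext v
      · have := rt_four 0 v
        rw [zero_add, rt_zero] at this
        rw [this]
        rfl
      · have := rt_four 0 v
        rw [zero_add, rt_zero] at this
        rw [this]
        rfl
    intro k v
    have h3 : rt (4 * k) = (rt 4) ^ k := by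
      unfold rt
      exact zpow_mul rotE 4 k
    rw [h3, h2, one_zpow]
    rfl
  have h2 : ∀ s : ℤ, rt s = rt (s % 4) := by
    intro s
    apply Equiv.ext
    intro v
    have h3 : rt (s % 4 + 4 * (s / 4)) v = rt (s % 4) v := by
      rw [rt_add, h1]
    rw [Int.emod_add_mul_ediv] at h3
    exact h3
  rw [h2 s, h2 s', h]

theorem nrm_rt (s : ℤ) (v : Pt) : nrm (rt s v) = nrm v := by
  have key : ∀ v : Pt, nrm (rt 1 v) = nrm v := by
    intro v
    rw [rt_one]
    unfold nrm
    simp only [abs_neg]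
    exact max_comm _ _
  have k2 : ∀ v : Pt, nrm (rt 2 v) = nrm v := by
    intro v
    rw [rt_two]
    unfold nrm
    simp only [abs_neg]
  have k3 : ∀ v : Pt, nrm (rt 3 v) = nrm v := by
    intro v
    rw [rt_three]
    unfold nrm
    simp only [abs_neg]
    exact max_comm _ _
  have h : s % 4 = 0 ∨ s % 4 = 1 ∨ s % 4 = 2 ∨ s % 4 = 3 := by omega
  rcases h with h | h | h | h
  · rw [rt_mod (s := s) (s' := 0) (by omega), rt_zero]
  · rw [rt_mod (s := s) (s' := 1) (by omega), key]
  · rw [rt_mod (s := s) (s' := 2) (by omega), k2]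
  · rw [rt_mod (s := s) (s' := 3) (by omega), k3]

theorem Tr.refl (L : Lat) : Tr L L 1 :=
  ⟨fun _ _ => Iff.rfl, fun _ => rfl⟩

theorem Tr.trans {L L' L'' : Lat} {e e' : Equiv.Perm Pt} (h : Tr L L' e) (h' : Tr L' L'' e') :
    Tr L L'' (e * e') :=
  ⟨fun u v => (h'.adj u v).trans (h.adj (e' u) (e' v)),
    fun v => (h'.typ v).trans (h.typ (e' v))⟩

theorem Tr.symm {L L' : Lat} {e : Equiv.Perm Pt} (h : Tr L L' e) : Tr L' L e⁻¹ := by
  refine ⟨fun u v => ?_, fun v => ?_⟩
  · have h1 := h.adj (e⁻¹ u) (e⁻¹ v)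
    have h2 : ∀ w, e (e⁻¹ w) = w := fun w => e.apply_symm_apply w
    rw [h2, h2] at h1
    exact h1.symm
  · have h1 := h.typ (e⁻¹ v)
    have h2 : ∀ w, e (e⁻¹ w) = w := fun w => e.apply_symm_apply w
    rw [h2] at h1
    exact h1.symm

theorem tr_shift (L : Lat) (x : Pt) : Tr L (L.shift x) (Equiv.addRight x) :=
  ⟨fun u v => Lat.shift_adj x u v, fun _ => rfl⟩

theorem tr_tr (L : Lat) : Tr L L.tr (Equiv.prodComm ℤ ℤ) :=
  ⟨fun u v => Lat.tr_adj u v, fun _ => rfl⟩

/-- reflection of the first coordinate -/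
def rxE : Equiv.Perm Pt where
  toFun v := (-v.1, v.2)
  invFun v := (-v.1, v.2)
  left_inv v := by simp
  right_inv v := by simp

/-- reflection of the second coordinate -/
def ryE : Equiv.Perm Pt where
  toFun v := (v.1, -v.2)
  invFun v := (v.1, -v.2)
  left_inv v := by simp
  right_inv v := by simp

theorem tr_rx (L : Lat) : Tr L L.rx rxE :=
  ⟨fun u v => Lat.rx_adj u v, fun _ => rfl⟩

theorem tr_ry (L : Lat) : Tr L L.ry ryE :=
  ⟨fun u v => Lat.ry_adj u v, fun _ => rfl⟩

theorem tr_rot (L : Lat) : Tr L L.rot rotE := by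
  have h := (tr_rx L).trans (tr_tr L.rx)
  have he : rxE * Equiv.prodComm ℤ ℤ = rotE := by
    apply Equiv.ext
    intro v
    rfl
  rw [he] at h
  exact h

theorem tr_rots (L : Lat) (s : ℤ) : Tr L (L.rots s) (rt s) := by
  have h1 := tr_rot L
  have h2 := h1.trans (tr_rot L.rot)
  have h3 := h2.trans (tr_rot L.rot.rot)
  have e2 : rotE * rotE = rt 2 := by
    apply Equiv.ext
    intro v
    rw [rt_two]
    rfl
  have e3 : rotE * rotE * rotE = rt 3 := by
    apply Equiv.ext
    intro v
    rw [rt_three]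
    show ((-(-v.2), -v.1) : Pt) = _
    rw [neg_neg]
  rw [e2] at h2
  rw [e3] at h3
  have e1 : rotE = rt 1 := by
    apply Equiv.ext
    intro v
    rw [rt_one]
    rfl
  rw [e1] at h1
  have e0 : (1 : Equiv.Perm Pt) = rt 0 := by
    apply Equiv.ext
    intro v
    rw [rt_zero]
    rfl
  have h0 := Tr.refl L
  rw [e0] at h0
  have h : s % 4 = 0 ∨ s % 4 = 1 ∨ s % 4 = 2 ∨ s % 4 = 3 := by omega
  unfold Lat.rots
  rcases h with h | h | h | h
  · rw [if_pos h, rt_mod (s := s) (s' := 0) (by omega)]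
    exact h0
  · rw [if_neg (by omega), if_pos h, rt_mod (s := s) (s' := 1) (by omega)]
    exact h1
  · rw [if_neg (by omega), if_neg (by omega), if_pos h, rt_mod (s := s) (s' := 2) (by omega)]
    exact h2
  · rw [if_neg (by omega), if_neg (by omega), if_neg (by omega),
      rt_mod (s := s) (s' := 3) (by omega)]
    exact h3

end SC
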