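import Pool.Agent.Lib_MP_e0a489.PA2b
import Pool.Agent.Lib_MP_e0a489.TE1

/-!
# MP_e0a489, topology 5b: transport of sets and events
-/

set_option autoImplicit false

namespace SC

open Classical

variable {L L' : Lat} {e : Equiv.Perm Pt}

/-- the configuration seen through `e` -/
def via (e : Equiv.Perm Pt) (ω : Cfg) : Cfg := fun v => ω (e v)

private theorem inv_self (e : Equiv.Perm Pt) (v : Pt) : (e⁻¹ : Equiv.Perm Pt) (e v) = v :=
  e.symm_apply_apply v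

private theorem cn_fwd {L L' : Lat} {e : Equiv.Perm Pt} (h : Tr L L' e) {A : Set Pt} {u v : Pt}
    (H : L'.Cn A u v) : L.Cn (e '' A) (e u) (e v) := by
  obtain ⟨hu, hp⟩ := H
  refine ⟨Set.mem_image_of_mem e hu, ?_⟩
  induction hp with
  | refl => exact Relation.ReflTransGen.refl
  | tail _ hab ih => exact ih.tail ⟨(h.adj _ _).1 hab.1, Set.mem_image_of_mem e hab.2⟩

private theorem img_img (e : Equiv.Perm Pt) (A : Set Pt) : (e⁻¹ : Equiv.Perm Pt) '' (e '' A) = A := by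
  ext v
  constructor
  · rintro ⟨_, ⟨w, hw, rfl⟩, rfl⟩
    rwa [inv_self]
  · intro hv
    exact ⟨e v, Set.mem_image_of_mem e hv, inv_self e v⟩

theorem Tr.st (h : Tr L L' e) (ω : Cfg) (v : Pt) : L'.st (via e ω) v = L.st ω (e v) := by
  unfold Lat.st via
  rw [h.typ]

theorem Tr.col (h : Tr L L' e) (c : Bool) (ω : Cfg) :
    e '' L'.col c (via e ω) = L.col c ω := by
  ext v
  constructor
  · rintro ⟨w, hw, rfl⟩
    have h1 : L'.st (via e ω) w = c := hw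
    rw [h.st] at h1
    exact h1
  · intro hv
    have h1 : L.st ω v = c := hv
    refine ⟨e.symm v, ?_, Equiv.apply_symm_apply e v⟩
    show L'.st (via e ω) (e.symm v) = c
    rw [h.st, Equiv.apply_symm_apply]
    exact h1

theorem Tr.cn (h : Tr L L' e) (A : Set Pt) (u v : Pt) :
    L'.Cn A u v ↔ L.Cn (e '' A) (e u) (e v) := by
  constructor
  · exact cn_fwd h
  · intro H
    have h1 := cn_fwd h.symm H
    rwa [img_img, inv_self, inv_self] at h1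

theorem Tr.con (h : Tr L L' e) (A : Set Pt) : L'.Con A ↔ L.Con (e '' A) := by
  constructor
  · rintro H _ ⟨u, hu, rfl⟩ _ ⟨v, hv, rfl⟩
    exact (h.cn A u v).1 (H u hu v hv)
  · intro H u hu v hv
    exact (h.cn A u v).2 (H _ (Set.mem_image_of_mem e hu) _ (Set.mem_image_of_mem e hv))

theorem Tr.nb (h : Tr L L' e) (A : Set Pt) : e '' L'.nb A = L.nb (e '' A) := by
  ext v
  constructor
  · rintro ⟨w, ⟨u, hu, huw⟩, rfl⟩
    exact ⟨e u, Set.mem_image_of_mem e hu, (h.adj _ _).1 huw⟩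
  · rintro ⟨_, ⟨u, hu, rfl⟩, huv⟩
    refine ⟨e.symm v, ⟨u, hu, (h.adj _ _).2 ?_⟩, Equiv.apply_symm_apply e v⟩
    rwa [Equiv.apply_symm_apply]

theorem Tr.bd (h : Tr L L' e) (D C : Set Pt) : e '' L'.bd D C = L.bd (e '' D) (e '' C) := by
  have h1 : L'.bd D C = D ∩ L'.nb C := rfl
  have h2 : L.bd (e '' D) (e '' C) = e '' D ∩ L.nb (e '' C) := rfl
  rw [h1, h2, Set.image_inter e.injective, h.nb]

theorem Tr.arm (h : Tr L L' e) (c : Bool) (D X Y : Set Pt) (ω : Cfg) :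
    L'.Arm c D X Y (via e ω) ↔ L.Arm c (e '' D) (e '' X) (e '' Y) ω := by
  constructor
  · rintro ⟨x, hx, y, hy, hc⟩
    refine ⟨e x, Set.mem_image_of_mem e hx, e y, Set.mem_image_of_mem e hy, ?_⟩
    have h1 := (h.cn _ x y).1 hc
    rwa [Set.image_inter e.injective, h.col] at h1
  · rintro ⟨_, ⟨x, hx, rfl⟩, _, ⟨y, hy, rfl⟩, hc⟩
    refine ⟨x, hx, y, hy, (h.cn _ x y).2 ?_⟩
    rw [Set.image_inter e.injective, h.col]
    exact hc

theorem Tr.two (h : Tr L L' e) (c : Bool) (D X Y : Set Pt) (ω : Cfg) :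
    L'.Two c D X Y (via e ω) ↔ L.Two c (e '' D) (e '' X) (e '' Y) ω := by
  have key : ∀ u v, L'.Cn (D ∩ L'.col c (via e ω)) u v ↔
      L.Cn (e '' D ∩ L.col c ω) (e u) (e v) := by
    intro u v
    rw [h.cn, Set.image_inter e.injective, h.col]
  constructor
  · rintro ⟨x, hx, y, hy, x', hx', y', hy', h1, h2, h3⟩
    exact ⟨e x, Set.mem_image_of_mem e hx, e y, Set.mem_image_of_mem e hy,
      e x', Set.mem_image_of_mem e hx', e y', Set.mem_image_of_mem e hy',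
      (key _ _).1 h1, (key _ _).1 h2, fun h4 => h3 ((key _ _).2 h4)⟩
  · rintro ⟨_, ⟨x, hx, rfl⟩, _, ⟨y, hy, rfl⟩, _, ⟨x', hx', rfl⟩, _, ⟨y', hy', rfl⟩, h1, h2, h3⟩
    exact ⟨x, hx, y, hy, x', hx', y', hy', (key _ _).2 h1, (key _ _).2 h2,
      fun h4 => h3 ((key _ _).1 h4)⟩

theorem Tr.clus (h : Tr L L' e) (c : Bool) (D S : Set Pt) (ω : Cfg) :
    e '' L'.cl c D S (via e ω) = L.cl c (e '' D) (e '' S) ω := by
  have key : ∀ u v, L'.Cn (D ∩ L'.col c (via e ω)) u v ↔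
      L.Cn (e '' D ∩ L.col c ω) (e u) (e v) := by
    intro u v
    rw [h.cn, Set.image_inter e.injective, h.col]
  ext v
  constructor
  · rintro ⟨w, ⟨u, hu, huw⟩, rfl⟩
    refine ⟨e u, ?_, (key _ _).1 huw⟩
    rw [← h.nb]
    exact Set.mem_image_of_mem e hu
  · rintro ⟨u, hu, huv⟩
    rw [← h.nb] at hu
    obtain ⟨w, hw, rfl⟩ := hu
    refine ⟨e.symm v, ⟨w, hw, (key _ _).2 ?_⟩, Equiv.apply_symm_apply e v⟩
    rwa [Equiv.apply_symm_apply]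

theorem pr_via {A : Cfg → Prop} (hA : Loc A) (e : Equiv.Perm Pt) :
    pr (fun ω => A (via e ω)) = pr A := by
  exact pr_equiv hA e

theorem ex_via {g : Cfg → ℝ} (hg : Lf g) (e : Equiv.Perm Pt) :
    ex (fun ω => g (via e ω)) = ex g := by
  exact ex_equiv hg e

private theorem gen {L L' : Lat} {e : Equiv.Perm Pt} (h : Tr L L' e) (c : Bool) (D : Set Pt)
    (P Q : Pt → Prop) (ω : Cfg) :
    (∃ u v, P u ∧ Q v ∧ L'.Cn (D ∩ L'.col c (via e ω)) u v) ↔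
      ∃ u v, P (e.symm u) ∧ Q (e.symm v) ∧ L.Cn (e '' D ∩ L.col c ω) u v := by
  constructor
  · rintro ⟨u, v, hu, hv, hc⟩
    refine ⟨e u, e v, by rwa [Equiv.symm_apply_apply], by rwa [Equiv.symm_apply_apply], ?_⟩
    have h1 := (h.cn _ u v).1 hc
    rwa [Set.image_inter e.injective, h.col] at h1
  · rintro ⟨u, v, hu, hv, hc⟩
    refine ⟨e.symm u, e.symm v, hu, hv, (h.cn _ _ _).2 ?_⟩
    rw [Set.image_inter e.injective, h.col, Equiv.apply_symm_apply, Equiv.apply_symm_apply]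
    exact hc

private theorem img_eq {e : Equiv.Perm Pt} {A B : Set Pt} (h : ∀ v, e v ∈ B ↔ v ∈ A) :
    e '' A = B := by
  ext v
  constructor
  · rintro ⟨w, hw, rfl⟩
    exact (h w).2 hw
  · intro hv
    refine ⟨e.symm v, (h _).1 ?_, Equiv.apply_symm_apply e v⟩
    rwa [Equiv.apply_symm_apply]

/-- the four arm event is invariant under rotations -/
theorem rots_twoA (L : Lat) (s : ℤ) (c : Bool) (r R : ℤ) (ω : Cfg) :
    (L.rots s).TwoA c r R (via (rt s) ω) ↔ L.TwoA c r R ω := by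
  unfold Lat.TwoA
  have e1 : rt s '' ann r R = ann r R := img_eq fun v => by
    show (r < nrm (rt s v) ∧ nrm (rt s v) ≤ R) ↔ (r < nrm v ∧ nrm v ≤ R)
    rw [nrm_rt]
  have e2 : rt s '' bx r = bx r := img_eq fun v => by
    show nrm (rt s v) ≤ r ↔ nrm v ≤ r
    rw [nrm_rt]
  have e3 : rt s '' rng R = rng R := img_eq fun v => by
    show nrm (rt s v) = R ↔ nrm v = R
    rw [nrm_rt]
  rw [(tr_rots L s).two, (tr_rots L s).nb, e1, e2, e3]

/-- exchange of the colours -/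
theorem sw_arm (L : Lat) (c : Bool) (D X Y : Set Pt) (ω : Cfg) :
    L.sw.Arm c D X Y (fun v => ! ω v) ↔ L.Arm (!c) D X Y ω := by
  have h1 : L.sw.col c (fun v => ! ω v) = L.col (!c) ω := by
    rw [Lat.sw_col]
    simp only [Bool.not_not]
  unfold Lat.Arm
  rw [h1]
  exact Iff.rfl

theorem sw_two (L : Lat) (c : Bool) (D X Y : Set Pt) (ω : Cfg) :
    L.sw.Two c D X Y (fun v => ! ω v) ↔ L.Two (!c) D X Y ω := by
  have h1 : L.sw.col c (fun v => ! ω v) = L.col (!c) ω := by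
    rw [Lat.sw_col]
    simp only [Bool.not_not]
  unfold Lat.Two
  rw [h1]
  exact Iff.rfl

theorem tr_hx (L : Lat) (c : Bool) (a b p q : ℤ) (ω : Cfg) :
    L.tr.HX c a b p q (via (Equiv.prodComm ℤ ℤ) ω) ↔ L.VX c p q a b ω := by
  have e1 : (Equiv.prodComm ℤ ℤ) '' rect a b p q = rect p q a b := img_eq fun v => by
    show ((p ≤ v.2 ∧ v.2 ≤ q) ∧ a ≤ v.1 ∧ v.1 ≤ b) ↔ ((a ≤ v.1 ∧ v.1 ≤ b) ∧ p ≤ v.2 ∧ v.2 ≤ q)
    exact and_comm
  unfold Lat.HX Lat.VX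
  rw [gen (tr_tr L) c (rect a b p q) (fun u => u.1 = a) (fun v => v.1 = b) ω, e1]
  exact Iff.rfl

theorem tr_vx (L : Lat) (c : Bool) (a b p q : ℤ) (ω : Cfg) :
    L.tr.VX c a b p q (via (Equiv.prodComm ℤ ℤ) ω) ↔ L.HX c p q a b ω := by
  have e1 : (Equiv.prodComm ℤ ℤ) '' rect a b p q = rect p q a b := img_eq fun v => by
    show ((p ≤ v.2 ∧ v.2 ≤ q) ∧ a ≤ v.1 ∧ v.1 ≤ b) ↔ ((a ≤ v.1 ∧ v.1 ≤ b) ∧ p ≤ v.2 ∧ v.2 ≤ q)
    exact and_comm
  unfold Lat.HX Lat.VX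
  rw [gen (tr_tr L) c (rect a b p q) (fun u => u.2 = p) (fun v => v.2 = q) ω, e1]
  exact Iff.rfl

theorem rx_hx (L : Lat) (c : Bool) (a b p q : ℤ) (ω : Cfg) :
    L.rx.HX c a b p q (via rxE ω) ↔ L.HX c (-b) (-a) p q ω := by
  have e1 : rxE '' rect a b p q = rect (-b) (-a) p q := img_eq fun v => by
    show ((-b ≤ -v.1 ∧ -v.1 ≤ -a) ∧ p ≤ v.2 ∧ v.2 ≤ q) ↔ ((a ≤ v.1 ∧ v.1 ≤ b) ∧ p ≤ v.2 ∧ v.2 ≤ q)
    rw [neg_le_neg_iff, neg_le_neg_iff, and_comm (a := v.1 ≤ b)]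
  unfold Lat.HX
  rw [gen (tr_rx L) c (rect a b p q) (fun u => u.1 = a) (fun v => v.1 = b) ω, e1]
  constructor
  · rintro ⟨u, v, hu, hv, hc⟩
    have hu' : -u.1 = a := hu
    have hv' : -v.1 = b := hv
    exact ⟨v, u, by rw [← hv', neg_neg], by rw [← hu', neg_neg], hc.symm⟩
  · rintro ⟨u, v, hu, hv, hc⟩
    refine ⟨v, u, ?_, ?_, hc.symm⟩
    · show -v.1 = a
      rw [hv, neg_neg]
    · show -u.1 = b
      rw [hu, neg_neg]

theorem rx_vx (L : Lat) (c : Bool) (a b p q : ℤ) (ω : Cfg) :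
    L.rx.VX c a b p q (via rxE ω) ↔ L.VX c (-b) (-a) p q ω := by
  have e1 : rxE '' rect a b p q = rect (-b) (-a) p q := img_eq fun v => by
    show ((-b ≤ -v.1 ∧ -v.1 ≤ -a) ∧ p ≤ v.2 ∧ v.2 ≤ q) ↔ ((a ≤ v.1 ∧ v.1 ≤ b) ∧ p ≤ v.2 ∧ v.2 ≤ q)
    rw [neg_le_neg_iff, neg_le_neg_iff, and_comm (a := v.1 ≤ b)]
  unfold Lat.VX
  rw [gen (tr_rx L) c (rect a b p q) (fun u => u.2 = p) (fun v => v.2 = q) ω, e1]
  exact Iff.rfl

theorem ry_hx (L : Lat) (c : Bool) (a b p q : ℤ) (ω : Cfg) :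
    L.ry.HX c a b p q (via ryE ω) ↔ L.HX c a b (-q) (-p) ω := by
  have e1 : ryE '' rect a b p q = rect a b (-q) (-p) := img_eq fun v => by
    show ((a ≤ v.1 ∧ v.1 ≤ b) ∧ -q ≤ -v.2 ∧ -v.2 ≤ -p) ↔ ((a ≤ v.1 ∧ v.1 ≤ b) ∧ p ≤ v.2 ∧ v.2 ≤ q)
    rw [neg_le_neg_iff, neg_le_neg_iff, and_comm (a := v.2 ≤ q)]
  unfold Lat.HX
  rw [gen (tr_ry L) c (rect a b p q) (fun u => u.1 = a) (fun v => v.1 = b) ω, e1]
  exact Iff.rfl

theorem ry_vx (L : Lat) (c : Bool) (a b p q : ℤ) (ω : Cfg) :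
    L.ry.VX c a b p q (via ryE ω) ↔ L.VX c a b (-q) (-p) ω := by
  have e1 : ryE '' rect a b p q = rect a b (-q) (-p) := img_eq fun v => by
    show ((a ≤ v.1 ∧ v.1 ≤ b) ∧ -q ≤ -v.2 ∧ -v.2 ≤ -p) ↔ ((a ≤ v.1 ∧ v.1 ≤ b) ∧ p ≤ v.2 ∧ v.2 ≤ q)
    rw [neg_le_neg_iff, neg_le_neg_iff, and_comm (a := v.2 ≤ q)]
  unfold Lat.VX
  rw [gen (tr_ry L) c (rect a b p q) (fun u => u.2 = p) (fun v => v.2 = q) ω, e1]
  constructor
  · rintro ⟨u, v, hu, hv, hc⟩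
    have hu' : -u.2 = p := hu
    have hv' : -v.2 = q := hv
    exact ⟨v, u, by rw [← hv', neg_neg], by rw [← hu', neg_neg], hc.symm⟩
  · rintro ⟨u, v, hu, hv, hc⟩
    refine ⟨v, u, ?_, ?_, hc.symm⟩
    · show -v.2 = p
      rw [hv, neg_neg]
    · show -u.2 = q
      rw [hu, neg_neg]

theorem shift_hx (L : Lat) (x : Pt) (c : Bool) (a b p q : ℤ) (ω : Cfg) :
    (L.shift x).HX c a b p q (via (Equiv.addRight x) ω) ↔
      L.HX c (a + x.1) (b + x.1) (p + x.2) (q + x.2) ω := by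
  have e1 : (Equiv.addRight x) '' rect a b p q = rect (a + x.1) (b + x.1) (p + x.2) (q + x.2) :=
    img_eq fun v => by
      show ((a + x.1 ≤ v.1 + x.1 ∧ v.1 + x.1 ≤ b + x.1) ∧ p + x.2 ≤ v.2 + x.2 ∧
        v.2 + x.2 ≤ q + x.2) ↔ ((a ≤ v.1 ∧ v.1 ≤ b) ∧ p ≤ v.2 ∧ v.2 ≤ q)
      simp only [add_le_add_iff_right]
  unfold Lat.HX
  rw [gen (tr_shift L x) c (rect a b p q) (fun u => u.1 = a) (fun v => v.1 = b) ω, e1]
  refine exists_congr fun u => exists_congr fun v => ?_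
  have h1 : ((Equiv.addRight x).symm u).1 = a ↔ u.1 = a + x.1 := by
    show u.1 + (-x).1 = a ↔ u.1 = a + x.1
    rw [Prod.fst_neg]
    constructor <;> intro h <;> linarith
  have h2 : ((Equiv.addRight x).symm v).1 = b ↔ v.1 = b + x.1 := by
    show v.1 + (-x).1 = b ↔ v.1 = b + x.1
    rw [Prod.fst_neg]
    constructor <;> intro h <;> linarith
  rw [h1, h2]

theorem shift_vx (L : Lat) (x : Pt) (c : Bool) (a b p q : ℤ) (ω : Cfg) :
    (L.shift x).VX c a b p q (via (Equiv.addRight x) ω) ↔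
      L.VX c (a + x.1) (b + x.1) (p + x.2) (q + x.2) ω := by
  have e1 : (Equiv.addRight x) '' rect a b p q = rect (a + x.1) (b + x.1) (p + x.2) (q + x.2) :=
    img_eq fun v => by
      show ((a + x.1 ≤ v.1 + x.1 ∧ v.1 + x.1 ≤ b + x.1) ∧ p + x.2 ≤ v.2 + x.2 ∧
        v.2 + x.2 ≤ q + x.2) ↔ ((a ≤ v.1 ∧ v.1 ≤ b) ∧ p ≤ v.2 ∧ v.2 ≤ q)
      simp only [add_le_add_iff_right]
  unfold Lat.VX
  rw [gen (tr_shift L x) c (rect a b p q) (fun u => u.2 = p) (fun v => v.2 = q) ω, e1]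
  refine exists_congr fun u => exists_congr fun v => ?_
  have h1 : ((Equiv.addRight x).symm u).2 = p ↔ u.2 = p + x.2 := by
    show u.2 + (-x).2 = p ↔ u.2 = p + x.2
    rw [Prod.snd_neg]
    constructor <;> intro h <;> linarith
  have h2 : ((Equiv.addRight x).symm v).2 = q ↔ v.2 = q + x.2 := by
    show v.2 + (-x).2 = q ↔ v.2 = q + x.2
    rw [Prod.snd_neg]
    constructor <;> intro h <;> linarith
  rw [h1, h2]

end SC
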