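import Pool.Agent.Lib_MP_e0a489.PB2
import Pool.Agent.Lib_MP_e0a489.TE2

/-!
# MP_e0a489, topology 5c: the box crossing hypothesis, invariance and general rectangles
-/

set_option autoImplicit false

namespace SC

open Classical

variable {L : Lat} {κ : ℕ → ℝ}

namespace Lat

private theorem te3_inter (L : Lat) (c : Bool) (D : Set Pt) {ω ω' : Cfg}
    (h : ∀ v ∈ D, ω v = ω' v) : D ∩ L.col c ω = D ∩ L.col c ω' := by
  ext v
  constructor
  · rintro ⟨h1, h2⟩
    refine ⟨h1, ?_⟩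
    have h3 : L.st ω v = c := h2
    show L.st ω' v = c
    unfold Lat.st at h3 ⊢
    rw [← h v h1]
    exact h3
  · rintro ⟨h1, h2⟩
    refine ⟨h1, ?_⟩
    have h3 : L.st ω' v = c := h2
    show L.st ω v = c
    unfold Lat.st at h3 ⊢
    rw [h v h1]
    exact h3

private theorem te3_rect_finite (a b p q : ℤ) : (rect a b p q).Finite := by
  have h : rect a b p q ⊆ Set.Icc a b ×ˢ Set.Icc p q := by
    rintro v ⟨h1, h2⟩
    exact ⟨h1, h2⟩
  exact ((Set.finite_Icc a b).prod (Set.finite_Icc p q)).subset h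

private theorem te3_loc {A : Cfg → Prop} {D : Set Pt} (h : Dep A D) (hD : D.Finite) : Loc A :=
  ⟨hD.toFinset, h.mono (by rw [Set.Finite.coe_toFinset])⟩

theorem Arm.dep (L : Lat) (c : Bool) (D X Y : Set Pt) : Dep (L.Arm c D X Y) D := by
  intro ω ω' h
  unfold Lat.Arm
  rw [te3_inter L c D h]

theorem Two.dep (L : Lat) (c : Bool) (D X Y : Set Pt) : Dep (L.Two c D X Y) D := by
  intro ω ω' h
  unfold Lat.Two
  rw [te3_inter L c D h]

theorem HX.dep (L : Lat) (c : Bool) (a b p q : ℤ) : Dep (L.HX c a b p q) (rect a b p q) := by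
  intro ω ω' h
  unfold Lat.HX
  rw [te3_inter L c _ h]

theorem VX.dep (L : Lat) (c : Bool) (a b p q : ℤ) : Dep (L.VX c a b p q) (rect a b p q) := by
  intro ω ω' h
  unfold Lat.VX
  rw [te3_inter L c _ h]

theorem Arm.loc (L : Lat) (c : Bool) (D X Y : Set Pt) (hD : D.Finite) : Loc (L.Arm c D X Y) :=
  te3_loc (Arm.dep L c D X Y) hD

theorem Two.loc (L : Lat) (c : Bool) (D X Y : Set Pt) (hD : D.Finite) : Loc (L.Two c D X Y) :=
  te3_loc (Two.dep L c D X Y) hD

theorem HX.loc (L : Lat) (c : Bool) (a b p q : ℤ) : Loc (L.HX c a b p q) :=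
  te3_loc (HX.dep L c a b p q) (te3_rect_finite a b p q)

theorem VX.loc (L : Lat) (c : Bool) (a b p q : ℤ) : Loc (L.VX c a b p q) :=
  te3_loc (VX.dep L c a b p q) (te3_rect_finite a b p q)

private theorem te3_col_true {ω ω' : Cfg} (h : ∀ v, ω v ≤ ω' v) :
    L.col true ω ⊆ L.col true ω' := by
  intro v hv
  have h1 : L.st ω v = true := hv
  show L.st ω' v = true
  have h2 := h v
  unfold Lat.st at h1 ⊢
  cases h3 : L.typ v with
  | none =>
    rw [h3] at h1
    simp only [Option.getD_none] at h1 ⊢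
    rw [h1] at h2
    exact top_le_iff.mp h2
  | some b =>
    rw [h3] at h1
    simpa using h1

private theorem te3_col_false {ω ω' : Cfg} (h : ∀ v, ω v ≤ ω' v) :
    L.col false ω' ⊆ L.col false ω := by
  intro v hv
  have h1 : L.st ω' v = false := hv
  show L.st ω v = false
  have h2 := h v
  unfold Lat.st at h1 ⊢
  cases h3 : L.typ v with
  | none =>
    rw [h3] at h1
    simp only [Option.getD_none] at h1 ⊢
    rw [h1] at h2
    exact le_bot_iff.mp h2
  | some b =>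
    rw [h3] at h1
    simpa using h1

private theorem te3_mon (L : Lat) (c : Bool) {A : Cfg → Prop}
    (H : ∀ ω ω' : Cfg, L.col c ω ⊆ L.col c ω' → A ω → A ω') : MonC c A := by
  cases c with
  | true =>
    show Inc A
    intro ω ω' h1 h2
    exact H ω ω' (te3_col_true h1) h2
  | false =>
    show Dec A
    intro ω ω' h1 h2
    exact H ω' ω (te3_col_false h1) h2

theorem Arm.mono {c : Bool} {D D' X X' Y Y' : Set Pt} {ω : Cfg} (h : L.Arm c D X Y ω)
    (hD : D ⊆ D') (hX : X ⊆ X') (hY : Y ⊆ Y') : L.Arm c D' X' Y' ω := by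
  obtain ⟨x, hx, y, hy, hc⟩ := h
  exact ⟨x, hX hx, y, hY hy, hc.mono (Set.inter_subset_inter_left _ hD)⟩

/-- `MonC true = Inc`, `MonC false = Dec` -/
theorem Arm.mon (L : Lat) (c : Bool) (D X Y : Set Pt) : MonC c (L.Arm c D X Y) := by
  refine te3_mon L c ?_
  rintro ω ω' h ⟨x, hx, y, hy, hc⟩
  exact ⟨x, hx, y, hy, hc.mono (Set.inter_subset_inter_right _ h)⟩

theorem HX.mon (L : Lat) (c : Bool) (a b p q : ℤ) : MonC c (L.HX c a b p q) := by
  refine te3_mon L c ?_
  rintro ω ω' h ⟨x, y, hx, hy, hc⟩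
  exact ⟨x, y, hx, hy, hc.mono (Set.inter_subset_inter_right _ h)⟩

theorem VX.mon (L : Lat) (c : Bool) (a b p q : ℤ) : MonC c (L.VX c a b p q) := by
  refine te3_mon L c ?_
  rintro ω ω' h ⟨x, y, hx, hy, hc⟩
  exact ⟨x, y, hx, hy, hc.mono (Set.inter_subset_inter_right _ h)⟩

/-- the first part of a path up to the level `t` of a Lipschitz function -/
private theorem te3_cut {A : Set Pt} {u v : Pt} (h : L.Cn A u v) (f : Pt → ℤ)
    (hf : ∀ x y, L.Adj x y → |f x - f y| ≤ 1) (t : ℤ) (hu : f u ≤ t) (hv : t ≤ f v) :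
    ∃ w, f w = t ∧ L.Cn (A ∩ {x | f x ≤ t}) u w := by
  by_cases hv' : f v ≤ t
  · -- then `f v = t`, but the path may leave the set: use the exit lemma when it does
    by_cases hA : L.Cn (A ∩ {x | f x ≤ t}) u v
    · exact ⟨v, le_antisymm hv' hv, hA⟩
    · have key : L.Cn (A ∩ {x | f x ≤ t}) u v ∨
          ∃ p q, L.Cn (A ∩ {x | f x ≤ t}) u p ∧ L.Adj p q ∧ q ∈ A ∧ q ∉ {x | f x ≤ t} := by
        obtain ⟨hu', hp⟩ := h
        clear hA hv hv'
        induction hp with
        | refl => exact Or.inl (Cn.refl ⟨hu', hu⟩)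
        | @tail x y _ hxy ih =>
          rcases ih with ih | ih
          · by_cases hS : f y ≤ t
            · refine Or.inl (ih.trans (Cn.of_adj ih.right ⟨hxy.2, hS⟩ hxy.1))
            · exact Or.inr ⟨x, y, ih, hxy.1, hxy.2, hS⟩
          · exact Or.inr ih
      rcases key with key | ⟨p, q, hc, ha, _, hqS⟩
      · exact absurd key hA
      · refine ⟨p, ?_, hc⟩
        have h1 : f p ≤ t := hc.right.2
        have h2 : ¬ f q ≤ t := hqS
        have h3 := abs_le.mp (hf p q ha)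
        omega
  · obtain ⟨p, q, hc, ha, _, hqS⟩ := h.exit (S := {x | f x ≤ t}) hu hv'
    refine ⟨p, ?_, hc⟩
    have h1 : f p ≤ t := hc.right.2
    have h2 : ¬ f q ≤ t := hqS
    have h3 := abs_le.mp (hf p q ha)
    omega

/-- the part of a path between the levels `s` and `t` of a Lipschitz function -/
private theorem te3_cut2 {A : Set Pt} {u v : Pt} (h : L.Cn A u v) (f : Pt → ℤ)
    (hf : ∀ x y, L.Adj x y → |f x - f y| ≤ 1) (s t : ℤ) (hst : s ≤ t) (hu : f u ≤ s)
    (hv : t ≤ f v) :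
    ∃ w z, f w = s ∧ f z = t ∧ L.Cn ((A ∩ {x | f x ≤ t}) ∩ {x | s ≤ f x}) w z := by
  obtain ⟨z, hz, hc⟩ := te3_cut h f hf t (hu.trans hst) hv
  obtain ⟨w, hw, hc'⟩ := te3_cut hc.symm (fun x => - f x)
    (fun x y hxy => by
      have h1 := abs_le.mp (hf x y hxy)
      rw [abs_le]
      constructor <;> omega) (-s) (by show - f z ≤ -s; omega) (by show -s ≤ - f u; omega)
  refine ⟨w, z, by have h1 : - f w = -s := hw; omega, hz, hc'.symm.mono ?_⟩
  rintro x ⟨h1, h2⟩
  refine ⟨h1, ?_⟩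
  have h3 : - f x ≤ - s := h2
  show s ≤ f x
  omega

/-- a crossing contains a crossing of a shorter and higher rectangle (`Cn.last`, `Cn.exit`) -/
theorem HX.mono {c : Bool} {a b p q a' b' p' q' : ℤ} {ω : Cfg} (h : L.HX c a b p q ω)
    (ha : a ≤ a') (hab : a' ≤ b') (hb : b' ≤ b) (hp : p' ≤ p) (hq : q ≤ q') :
    L.HX c a' b' p' q' ω := by
  obtain ⟨u, v, hu, hv, hc⟩ := h
  obtain ⟨w, z, hw, hz, hc'⟩ := te3_cut2 hc (fun x => x.1) (fun x y hxy => hxy.near.1) a' b' hab
    (by show u.1 ≤ a'; omega) (by show b' ≤ v.1; omega)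
  refine ⟨w, z, hw, hz, hc'.mono ?_⟩
  rintro x ⟨⟨⟨⟨h1, h2⟩, h3⟩, h4⟩, h5⟩
  have h6 : x.1 ≤ b' := h4
  have h7 : a' ≤ x.1 := h5
  exact ⟨⟨⟨h7, h6⟩, hp.trans h2.1, h2.2.trans hq⟩, h3⟩

theorem VX.mono {c : Bool} {a b p q a' b' p' q' : ℤ} {ω : Cfg} (h : L.VX c a b p q ω)
    (ha : a' ≤ a) (hb : b ≤ b') (hp : p ≤ p') (hpq : p' ≤ q') (hq : q' ≤ q) :
    L.VX c a' b' p' q' ω := by
  obtain ⟨u, v, hu, hv, hc⟩ := h
  obtain ⟨w, z, hw, hz, hc'⟩ := te3_cut2 hc (fun x => x.2) (fun x y hxy => hxy.near.2) p' q' hpq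
    (by show u.2 ≤ p'; omega) (by show q' ≤ v.2; omega)
  refine ⟨w, z, hw, hz, hc'.mono ?_⟩
  rintro x ⟨⟨⟨⟨h1, h2⟩, h3⟩, h4⟩, h5⟩
  have h6 : x.2 ≤ q' := h4
  have h7 : p' ≤ x.2 := h5
  exact ⟨⟨⟨ha.trans h1.1, h1.2.trans hb⟩, h7, h6⟩, h3⟩

end Lat

theorem RSW.shift (h : RSW L κ) (x : Pt) : RSW (L.shift x) κ where
  pos := h.pos
  hx := by
    intro k b n a p hk hn
    rw [← pr_via (Lat.HX.loc (L.shift x) b a (a + k * n) p (p + n)) (Equiv.addRight x)]
    have h1 := h.hx k b n (a + x.1) (p + x.2) hk hn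
    have h2 : (fun ω => (L.shift x).HX b a (a + k * n) p (p + n) (via (Equiv.addRight x) ω)) =
        L.HX b (a + x.1) (a + x.1 + k * n) (p + x.2) (p + x.2 + n) := by
      funext ω
      rw [shift_hx, show a + k * n + x.1 = a + x.1 + k * n by ring,
        show p + n + x.2 = p + x.2 + n by ring]
    rw [h2]
    exact h1
  vx := by
    intro k b n a p hk hn
    rw [← pr_via (Lat.VX.loc (L.shift x) b a (a + n) p (p + k * n)) (Equiv.addRight x)]
    have h1 := h.vx k b n (a + x.1) (p + x.2) hk hn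
    have h2 : (fun ω => (L.shift x).VX b a (a + n) p (p + k * n) (via (Equiv.addRight x) ω)) =
        L.VX b (a + x.1) (a + x.1 + n) (p + x.2) (p + x.2 + k * n) := by
      funext ω
      rw [shift_vx, show a + n + x.1 = a + x.1 + n by ring,
        show p + k * n + x.2 = p + x.2 + k * n by ring]
    rw [h2]
    exact h1

theorem RSW.tr (h : RSW L κ) : RSW L.tr κ where
  pos := h.pos
  hx := by
    intro k b n a p hk hn
    rw [← pr_via (Lat.HX.loc L.tr b a (a + k * n) p (p + n)) (Equiv.prodComm ℤ ℤ)]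
    have h1 := h.vx k b n p a hk hn
    have h2 : (fun ω => L.tr.HX b a (a + k * n) p (p + n) (via (Equiv.prodComm ℤ ℤ) ω)) =
        L.VX b p (p + n) a (a + k * n) := by
      funext ω
      rw [tr_hx]
    rw [h2]
    exact h1
  vx := by
    intro k b n a p hk hn
    rw [← pr_via (Lat.VX.loc L.tr b a (a + n) p (p + k * n)) (Equiv.prodComm ℤ ℤ)]
    have h1 := h.hx k b n p a hk hn
    have h2 : (fun ω => L.tr.VX b a (a + n) p (p + k * n) (via (Equiv.prodComm ℤ ℤ) ω)) =
        L.HX b p (p + k * n) a (a + n) := by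
      funext ω
      rw [tr_vx]
    rw [h2]
    exact h1

theorem RSW.rx (h : RSW L κ) : RSW L.rx κ where
  pos := h.pos
  hx := by
    intro k b n a p hk hn
    rw [← pr_via (Lat.HX.loc L.rx b a (a + k * n) p (p + n)) rxE]
    have h1 := h.hx k b n (-(a + k * n)) p hk hn
    have h2 : (fun ω => L.rx.HX b a (a + k * n) p (p + n) (via rxE ω)) =
        L.HX b (-(a + k * n)) (-(a + k * n) + k * n) p (p + n) := by
      funext ω
      rw [rx_hx, show -(a + k * n) + k * n = -a by ring]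
    rw [h2]
    exact h1
  vx := by
    intro k b n a p hk hn
    rw [← pr_via (Lat.VX.loc L.rx b a (a + n) p (p + k * n)) rxE]
    have h1 := h.vx k b n (-(a + n)) p hk hn
    have h2 : (fun ω => L.rx.VX b a (a + n) p (p + k * n) (via rxE ω)) =
        L.VX b (-(a + n)) (-(a + n) + n) p (p + k * n) := by
      funext ω
      rw [rx_vx, show -(a + n) + n = -a by ring]
    rw [h2]
    exact h1

theorem RSW.ry (h : RSW L κ) : RSW L.ry κ where
  pos := h.pos
  hx := by
    intro k b n a p hk hn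
    rw [← pr_via (Lat.HX.loc L.ry b a (a + k * n) p (p + n)) ryE]
    have h1 := h.hx k b n a (-(p + n)) hk hn
    have h2 : (fun ω => L.ry.HX b a (a + k * n) p (p + n) (via ryE ω)) =
        L.HX b a (a + k * n) (-(p + n)) (-(p + n) + n) := by
      funext ω
      rw [ry_hx, show -(p + n) + n = -p by ring]
    rw [h2]
    exact h1
  vx := by
    intro k b n a p hk hn
    rw [← pr_via (Lat.VX.loc L.ry b a (a + n) p (p + k * n)) ryE]
    have h1 := h.vx k b n a (-(p + k * n)) hk hn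
    have h2 : (fun ω => L.ry.VX b a (a + n) p (p + k * n) (via ryE ω)) =
        L.VX b a (a + n) (-(p + k * n)) (-(p + k * n) + k * n) := by
      funext ω
      rw [ry_vx, show -(p + k * n) + k * n = -p by ring]
    rw [h2]
    exact h1

theorem RSW.rot (h : RSW L κ) : RSW L.rot κ := by
  unfold Lat.rot
  exact h.rx.tr

theorem RSW.rots (h : RSW L κ) (s : ℤ) : RSW (L.rots s) κ := by
  unfold Lat.rots
  split_ifs
  · exact h
  · exact h.rot
  · exact h.rot.rot
  · exact h.rot.rot.rot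

private theorem te3_hx_arm (L : Lat) (c : Bool) (a b p q : ℤ) (ω : Cfg) :
    L.HX c a b p q ω ↔ L.Arm c (rect a b p q) {u | u.1 = a} {v | v.1 = b} ω := by
  constructor
  · rintro ⟨u, v, hu, hv, hc⟩
    exact ⟨u, hu, v, hv, hc⟩
  · rintro ⟨u, hu, v, hv, hc⟩
    exact ⟨u, v, hu, hv, hc⟩

private theorem te3_vx_arm (L : Lat) (c : Bool) (a b p q : ℤ) (ω : Cfg) :
    L.VX c a b p q ω ↔ L.Arm c (rect a b p q) {u | u.2 = p} {v | v.2 = q} ω := by
  constructor
  · rintro ⟨u, v, hu, hv, hc⟩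
    exact ⟨u, hu, v, hv, hc⟩
  · rintro ⟨u, hu, v, hv, hc⟩
    exact ⟨u, v, hu, hv, hc⟩

theorem RSW.sw (h : RSW L κ) : RSW L.sw κ where
  pos := h.pos
  hx := by
    intro k b n a p hk hn
    rw [← pr_flip (Lat.HX.loc L.sw b a (a + k * n) p (p + n))]
    have h1 := h.hx k (!b) n a p hk hn
    have h2 : (fun ω : Cfg => L.sw.HX b a (a + k * n) p (p + n) (fun v => ! ω v)) =
        L.HX (!b) a (a + k * n) p (p + n) := by
      funext ω
      rw [te3_hx_arm, te3_hx_arm, sw_arm]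
    rw [h2]
    exact h1
  vx := by
    intro k b n a p hk hn
    rw [← pr_flip (Lat.VX.loc L.sw b a (a + n) p (p + k * n))]
    have h1 := h.vx k (!b) n a p hk hn
    have h2 : (fun ω : Cfg => L.sw.VX b a (a + n) p (p + k * n) (fun v => ! ω v)) =
        L.VX (!b) a (a + n) p (p + k * n) := by
      funext ω
      rw [te3_vx_arm, te3_vx_arm, sw_arm]
    rw [h2]
    exact h1

/-- crossing of a rectangle of aspect ratio at most `k` -/
theorem RSW.hx' (h : RSW L κ) {k : ℕ} (hk : 1 ≤ k) (c : Bool) {a b p q : ℤ} (hab : a ≤ b)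
    (h4 : 4 ≤ q - p) (hr : b - a ≤ k * (q - p)) : κ k ≤ pr (L.HX c a b p q) := by
  refine (h.hx k c (q - p) a p hk h4).trans ?_
  refine pr_mono (Lat.HX.loc L c _ _ _ _) (Lat.HX.loc L c _ _ _ _) fun ω hω => ?_
  exact hω.mono le_rfl hab (by linarith) le_rfl (by linarith)

theorem RSW.vx' (h : RSW L κ) {k : ℕ} (hk : 1 ≤ k) (c : Bool) {a b p q : ℤ} (hpq : p ≤ q)
    (h4 : 4 ≤ b - a) (hr : q - p ≤ k * (b - a)) : κ k ≤ pr (L.VX c a b p q) := by
  refine (h.vx k c (b - a) a p hk h4).trans ?_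
  refine pr_mono (Lat.VX.loc L c _ _ _ _) (Lat.VX.loc L c _ _ _ _) fun ω hω => ?_
  exact hω.mono le_rfl (by linarith) le_rfl hpq (by linarith)

end SC
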