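import Pool.Agent.Lib_MP_e0a489.Defs2
import Pool.Agent.Lib_MP_e0a489.PD1
import Pool.Agent.Lib_MP_e0a489.TA2
import Pool.Agent.Lib_MP_e0a489.TE3

/-!
# MP_e0a489, topology 7: exploration of clusters, stopping property, step lemma
-/

set_option autoImplicit false

namespace SC

open Classical

namespace Lat

variable {L : Lat} {c : Bool} {M S : Set Pt} {ω : Cfg}

private theorem ex1_col {ω ω' : Cfg} {v : Pt} (h : ω v = ω' v) (b : Bool) :
    v ∈ L.col b ω ↔ v ∈ L.col b ω' := by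
  show L.st ω v = b ↔ L.st ω' v = b
  unfold Lat.st
  rw [h]

theorem Cx_sup : S ⊆ L.Cx c M S ω := by
  exact Set.subset_union_left

theorem Cx_sub (h : S ⊆ M) : L.Cx c M S ω ⊆ M := by
  rintro v (hv | ⟨u, -, hv⟩)
  · exact h hv
  · exact hv.right.1.1

theorem Cx_col {v : Pt} (h : v ∈ L.Cx c M S ω) (hS : v ∉ S) : v ∈ M ∧ v ∈ L.col c ω := by
  rcases h with hv | ⟨u, -, hv⟩
  · exact absurd hv hS
  · exact ⟨hv.right.1.1, hv.right.2⟩

theorem Cx_con (hS : L.Con S) : L.Con (L.Cx c M S ω) := by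
  refine Con.union_many hS ?_
  rintro v ⟨u, ⟨s, hs, hsu⟩, hv⟩
  refine ⟨s, hs, u, hsu, ?_⟩
  have h1 := con_cluster (L := L) ((M \ S) ∩ L.col c ω) u u (Cn.refl hv.left) v hv
  exact h1.mono (fun w hw => ⟨u, ⟨s, hs, hsu⟩, hw⟩)

/-- a site of colour `c` of `M` with a neighbour in `Cx` belongs to `Cx` -/
theorem Cx_closed {v : Pt} (hM : v ∈ M) (hc : v ∈ L.col c ω) (hn : v ∈ L.nb (L.Cx c M S ω)) :
    v ∈ L.Cx c M S ω := by
  by_cases hS : v ∈ S
  · exact Or.inl hS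
  obtain ⟨w, hw, hwv⟩ := hn
  rcases hw with hw | ⟨u, hu, hw⟩
  · exact Or.inr ⟨v, ⟨w, hw, hwv⟩, Cn.refl ⟨⟨hM, hS⟩, hc⟩⟩
  · exact Or.inr ⟨u, hu, hw.trans (Cn.of_adj hw.right ⟨⟨hM, hS⟩, hc⟩ hwv)⟩

/-- a path of colour `c` in `M \ S` that starts at a site with a neighbour in `S`, or in `Cx`, stays in `Cx` -/
theorem Cx_path {u v : Pt} (h : L.Cn ((M \ S) ∩ L.col c ω) u v)
    (hu : u ∈ L.nb S ∨ u ∈ L.Cx c M S ω) : v ∈ L.Cx c M S ω := by
  rcases hu with hu | hu | ⟨w, hw, hu⟩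
  · exact Or.inr ⟨u, hu, h⟩
  · exact absurd hu h.left.1.2
  · exact Or.inr ⟨w, hw, hu.trans h⟩

/-- the sites of `M` next to `Cx` and not in `Cx` have the other colour -/
theorem bd_col {v : Pt} (hM : v ∈ M) (hn : v ∈ L.nb (L.Cx c M S ω)) (hC : v ∉ L.Cx c M S ω) :
    v ∈ L.col (!c) ω := by
  have h1 : ¬ L.st ω v = c := fun h => hC (Cx_closed hM h hn)
  show L.st ω v = !c
  revert h1
  cases L.st ω v <;> cases c <;> simp

/-- The exploration is determined by the explored sites. -/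
theorem Cx_stop {ω' : Cfg} (h : ∀ v ∈ L.Rev c M S ω, ω v = ω' v) :
    L.Cx c M S ω' = L.Cx c M S ω := by
  have key : ∀ v, v ∈ M → v ∈ L.col c ω' → v ∈ L.nb (L.Cx c M S ω) → v ∈ L.Cx c M S ω := by
    intro v hM hc hn
    by_contra hC
    have hR : v ∈ L.Rev c M S ω := Or.inr ⟨hM, hn⟩
    exact hC (Cx_closed hM ((ex1_col (h v hR) c).2 hc) hn)
  apply Set.Subset.antisymm
  · rintro v (hv | ⟨u, hu, hv⟩)
    · exact Or.inl hv
    · obtain ⟨h0, hv⟩ := hv
      obtain ⟨s, hs, hsu⟩ := hu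
      induction hv with
      | refl => exact key _ h0.1.1 h0.2 ⟨s, Or.inl hs, hsu⟩
      | tail _ hbc ih => exact key _ hbc.2.1.1 hbc.2.2 ⟨_, ih, hbc.1⟩
  · rintro v (hv | ⟨u, hu, hv⟩)
    · exact Or.inl hv
    · refine Or.inr ⟨u, hu, ?_⟩
      have h1 := con_cluster (L := L) ((M \ S) ∩ L.col c ω) u u (Cn.refl hv.left) v hv
      refine h1.mono (fun w hw => ?_)
      have hw' : L.Cn ((M \ S) ∩ L.col c ω) u w := hw
      exact ⟨hw'.right.1, (ex1_col (h w (Or.inl (Or.inr ⟨u, hu, hw'⟩))) c).1 hw'.right.2⟩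

theorem Rev_stop (L : Lat) (c : Bool) (M S : Set Pt) : Stop (L.Rev c M S) := by
  intro ω ω' h
  unfold Lat.Rev
  rw [Cx_stop h]

theorem Cx_mix (G : Finset Pt) (η : Cfg) :
    L.Cx c M S (mix G (L.Rev c M S) ω η) = L.Cx c M S ω := by
  refine Cx_stop (fun v hv => ?_)
  unfold mix
  rw [if_neg (fun h => h.2 hv)]

/-- explored sites keep their colour -/
theorem mix_col_rev {G : Finset Pt} {η : Cfg} {v : Pt} (h : v ∈ L.Rev c M S ω) (b : Bool) :
    v ∈ L.col b (mix G (L.Rev c M S) ω η) ↔ v ∈ L.col b ω := by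
  refine ex1_col ?_ b
  unfold mix
  rw [if_neg (fun h' => h'.2 h)]

/-- unexplored sites of `G` take the fresh colour -/
theorem mix_col_new {G : Finset Pt} {η : Cfg} {v : Pt} (h : v ∉ L.Rev c M S ω) (hG : v ∈ G)
    (b : Bool) : v ∈ L.col b (mix G (L.Rev c M S) ω η) ↔ v ∈ L.col b η := by
  refine ex1_col ?_ b
  unfold mix
  rw [if_pos ⟨hG, h⟩]

/-- STEP LEMMA.  The clusters of colour `!c` attached to `S` in `M` are explored, `C = Cx (!c) M S ω`.  `N` is an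
additional region (a block next to `M`, disjoint from `M` and without neighbours in `C`), `V` a component of
`(M ∪ N) \ C` with connected boundary, `x ∈ V` has a neighbour in `C`; `T ⊆ M ∪ N` is a connected set of
fresh sites of colour `c`, it contains a site `u ∈ N ∩ V` and meets `C`.  Then in the mixed
configuration `x` is joined to `u` in colour `c` in `V`.
Proof: `exit_bd` (for `M ∪ N`) gives `p`, `q` with `Cn (T ∩ (V \ bd V C)) u p`, `Adj p q`, `q ∈ T ∩ bd V C`.  The sites of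
`V \ bd V C` are not explored (a site of `bd M C` in `V` is in `bd V C`), so those of `T` have colour `c` in the
mixed configuration (`mix_col_new`).  The sites of `bd V C` are in `M` (no site of `N` has a neighbour in
`C`), explored, of colour `c` (`bd_col`, `mix_col_rev`).  `bd V C` is connected and contains `x` and `q`. -/
theorem step {N V T : Set Pt} {G : Finset Pt} {η : Cfg} {x u : Pt} (hS : S ⊆ M)
    (hN : ∀ v ∈ N, v ∉ M ∧ v ∉ L.nb (L.Cx (!c) M S ω))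
    (hV : L.Comp ((M ∪ N) \ L.Cx (!c) M S ω) V) (hB : L.Con (L.bd V (L.Cx (!c) M S ω)))
    (hx : x ∈ V) (hx' : x ∈ L.nb (L.Cx (!c) M S ω)) (hT : L.Con T) (hTM : T ⊆ M ∪ N)
    (hTG : T ⊆ (G : Set Pt)) (hTc : T ⊆ L.col c η) (hu : u ∈ T) (huN : u ∈ N) (huV : u ∈ V)
    (hex : (T ∩ L.Cx (!c) M S ω).Nonempty) :
    L.Cn (V ∩ L.col c (mix G (L.Rev (!c) M S) ω η)) x u := by
  obtain ⟨z, hzT, hzC⟩ := hex
  have huD : u ∈ V \ L.bd V (L.Cx (!c) M S ω) := ⟨huV, fun h => (hN u huN).2 h.2⟩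
  have hzD : z ∉ V \ L.bd V (L.Cx (!c) M S ω) := fun h => (hV.sub h.1).2 hzC
  obtain ⟨p, q, h1, h2, h3, h4⟩ := exit_bd hV hT hTM hu huD hzT hzD
  have hA : T ∩ (V \ L.bd V (L.Cx (!c) M S ω)) ⊆
      V ∩ L.col c (mix G (L.Rev (!c) M S) ω η) := by
    rintro w ⟨hwT, hwV, hwb⟩
    have hwR : w ∉ L.Rev (!c) M S ω := by
      rintro (hw | hw)
      · exact (hV.sub hwV).2 hw
      · exact hwb ⟨hwV, hw.2⟩
    exact ⟨hwV, (mix_col_new hwR (hTG hwT) c).2 (hTc hwT)⟩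
  have hBd : L.bd V (L.Cx (!c) M S ω) ⊆ V ∩ L.col c (mix G (L.Rev (!c) M S) ω η) := by
    rintro w ⟨hwV, hwn⟩
    have hwM : w ∈ M := by
      rcases (hV.sub hwV).1 with hw | hw
      · exact hw
      · exact absurd hwn (hN w hw).2
    have hwc : w ∈ L.col c ω := by
      have := bd_col hwM hwn (hV.sub hwV).2
      rwa [Bool.not_not] at this
    have hwR : w ∈ L.Rev (!c) M S ω := Or.inr ⟨hwM, hwn⟩
    exact ⟨hwV, (mix_col_rev hwR c).2 hwc⟩
  have hxq := (hB x ⟨hx, hx'⟩ q h4).mono hBd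
  have hpu := (h1.symm).mono hA
  exact (hxq.trans (Cn.of_adj (hBd h4) hpu.left (Adj.symm h2))).trans hpu

/-- two arms of colour `c` starting at neighbours of `S` which are not joined in `M \ S` lie in different
components of `M \ Cx (!c)`: precisely, `x`, `x'` do not lie in one component with connected boundary -/
theorem step_ne {V : Set Pt} {x x' : Pt} (hS : S ⊆ M) (hV : L.Comp (M \ L.Cx (!c) M S ω) V)
    (hB : L.Con (L.bd V (L.Cx (!c) M S ω))) (hx : x ∈ V) (hx' : x' ∈ V) (hxS : x ∈ L.nb S)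
    (hxS' : x' ∈ L.nb S) : L.Cn ((M \ S) ∩ L.col c ω) x x' := by
  obtain ⟨s, hs, hsx⟩ := hxS
  obtain ⟨s', hs', hsx'⟩ := hxS'
  refine (hB x ⟨hx, s, Or.inl hs, hsx⟩ x' ⟨hx', s', Or.inl hs', hsx'⟩).mono ?_
  rintro w ⟨hwV, hwn⟩
  have hw := hV.sub hwV
  have hwc : w ∈ L.col c ω := by
    have := bd_col hw.1 hwn hw.2
    rwa [Bool.not_not] at this
  exact ⟨⟨hw.1, fun h => hw.2 (Or.inl h)⟩, hwc⟩

end Lat

end SC
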