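import Pool.Agent.Lib_MP_e0a489.TA1

/-!
# MP_e0a489, module FI 1: domain and crossing event (definitions)
-/

set_option autoImplicit false

namespace SC

open Classical

/-- the domain: a rectangle without the set `E` of sites of its right column (`E = ∅` for the square
lattice, every second site for the triangular lattice) -/
def dom (N N' : ℤ) (E : Set Pt) : Set Pt := rect (-N) N (-N') N' \ E

/-- right side of the domain: the sites of the last column and the sites to the left of `E` -/
def rside (N : ℤ) (E : Set Pt) : Set Pt := {v | v.1 = N ∨ (v.1 + 1, v.2) ∈ E}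

/-- crossing of the domain from left to right by an open path -/
def Lat.Crs (L : Lat) (N N' : ℤ) (E : Set Pt) (ω : Cfg) : Prop :=
  L.Arm true (dom N N' E) {v | v.1 = -N} (rside N E) ω

/-- `E` is contained in the last column, and its sites have no diagonal neighbour in the column before -/
def GoodE (L : Lat) (N : ℤ) (E : Set Pt) : Prop :=
  ∀ e ∈ E, e.1 = N ∧ ∀ p, L.Adj p e → p.1 = N - 1 → p.2 = e.2

/-- the crossing depends on the sites of `B`: it can be changed by changing the sites of `B` -/
def Lat.PivS (L : Lat) (N N' : ℤ) (E B : Set Pt) (ω : Cfg) : Prop :=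
  ∃ ω₁ ω₂ : Cfg, (∀ v, v ∉ B → ω₁ v = ω v) ∧ (∀ v, v ∉ B → ω₂ v = ω v) ∧
    L.Crs N N' E ω₁ ∧ ¬ L.Crs N N' E ω₂

/-- the lattice with the sites of `E` open -/
noncomputable def Lat.force (L : Lat) (E : Set Pt) : Lat :=
  ⟨L.ne, fun v => if v ∈ E then some true else L.typ v⟩

end SC
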