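import Mathlib

/-!
# MP_e0a489, module FI, analysis 1: abstract arm probabilities, comparison lemma
-/

set_option autoImplicit false

namespace SC

namespace FI

/-- abstract properties of `al L` (lower exponent `2 γ`) -/
structure AG (f : ℤ → ℤ → ℝ) (C γ : ℝ) (R₀ : ℤ) : Prop where
  C1 : 1 ≤ C
  g0 : 0 ≤ γ
  g1 : γ ≤ 1
  R16 : 16 ≤ R₀
  nn : ∀ r R, 0 ≤ f r R
  le1 : ∀ r R, f r R ≤ 1
  one : ∀ r R, R ≤ r → f r R = 1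
  mono : ∀ r R r' R', 0 ≤ r' → r' ≤ r → r ≤ R → R ≤ R' → f r' R' ≤ f r R
  qm : ∀ r ρ R, R₀ ≤ r → r ≤ ρ → ρ ≤ R → f r ρ * f ρ R ≤ C * f r R
  lo : ∀ r R, R₀ ≤ r → r ≤ R → ((r : ℝ) / R) ^ (2 * γ) ≤ C * f r R

/-- lower bound of `f` for comparable radii -/
private theorem fi10_lo {f : ℤ → ℤ → ℝ} {C γ : ℝ} {R₀ : ℤ} (h : AG f C γ R₀) {K : ℝ}
    (hK : 1 ≤ K) {a b : ℤ} (h1 : R₀ ≤ a) (h2 : a ≤ b) (h3 : (b : ℝ) ≤ K * a) :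
    1 ≤ C * K ^ 2 * f a b := by
  have ha : (0 : ℝ) < a := by
    have := h.R16
    exact_mod_cast (show (0 : ℤ) < a by omega)
  have hb : (0 : ℝ) < b := lt_of_lt_of_le ha (by exact_mod_cast h2)
  have hK0 : 0 < K := lt_of_lt_of_le one_pos hK
  have e1 : K⁻¹ ≤ (a : ℝ) / b := by
    rw [le_div_iff₀ hb, inv_mul_le_iff₀ hK0]
    exact h3
  have e2 : (K⁻¹) ^ (2 : ℝ) ≤ (K⁻¹) ^ (2 * γ) :=
    Real.rpow_le_rpow_of_exponent_ge (inv_pos.2 hK0) (inv_le_one_of_one_le₀ hK)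
      (by have := h.g1; linarith)
  have e3 : (K⁻¹) ^ (2 * γ) ≤ ((a : ℝ) / b) ^ (2 * γ) :=
    Real.rpow_le_rpow (inv_pos.2 hK0).le e1 (by have := h.g0; linarith)
  have e4 : (K⁻¹) ^ (2 : ℝ) = (K ^ 2)⁻¹ := by
    rw [← inv_pow, ← Real.rpow_natCast]
    norm_num
  have e5 : (K ^ 2)⁻¹ ≤ C * f a b := by
    rw [← e4]
    exact le_trans e2 (le_trans e3 (h.lo a b h1 h2))
  have e6 : 0 < K ^ 2 := pow_pos hK0 2
  calc (1 : ℝ) = K ^ 2 * (K ^ 2)⁻¹ := (mul_inv_cancel₀ e6.ne').symm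
    _ ≤ K ^ 2 * (C * f a b) := mul_le_mul_of_nonneg_left e5 e6.le
    _ = C * K ^ 2 * f a b := by ring

/-- COMPARISON of radii changed by bounded factors.
Proof: if `R' ≤ r'` the right side is at least `1 ≥ f r R` (`one`, `le1`).  Let `r' < R'`, `ρ₁ = max r' (min r R')`,
`ρ₂ = max ρ₁ (min R R')`, so `r' ≤ ρ₁ ≤ ρ₂ ≤ R'`.  `ρ₁ ≤ max r' r ≤ K r'`, so `f r' ρ₁ ≥ C⁻¹ (r'/ρ₁)^(2γ) ≥ C⁻¹ K⁻²`
(`2 γ ≤ 2`, `K ≥ 1`).  `ρ₂ ≥ min R R' ≥ R' / K`, so `f ρ₂ R' ≥ C⁻¹ K⁻²`.  `f r R ≤ f ρ₁ ρ₂`: if `ρ₁ = ρ₂` the right side is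
`1`; otherwise `ρ₂ = min R R' > ρ₁`, so `ρ₁ < R'`, `ρ₁ = max r' r ≥ r`, `ρ₂ ≤ R`, use `mono`.  By `qm` twice
`f r' ρ₁ * f ρ₁ ρ₂ * f ρ₂ R' ≤ C² f r' R'`.  Together `f r R ≤ C² (C K²)² f r' R'`. -/
theorem AG.cmp {f : ℤ → ℤ → ℝ} {C γ : ℝ} {R₀ : ℤ} (h : AG f C γ R₀) {K : ℝ} (hK : 1 ≤ K)
    {r R r' R' : ℤ} (h1 : R₀ ≤ r) (h1' : R₀ ≤ r') (h2 : (r : ℝ) ≤ K * r')
    (h3 : (R' : ℝ) ≤ K * R) : f r R ≤ C ^ 4 * K ^ 4 * f r' R' := by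
  have hC := h.C1
  have h16 := h.R16
  have hC0 : (0 : ℝ) ≤ C := by linarith
  have hK0 : (0 : ℝ) ≤ K := by linarith
  have hCK : 1 ≤ C ^ 4 * K ^ 4 := by
    have a1 : 1 ≤ C ^ 4 := one_le_pow₀ hC
    have a2 : 1 ≤ K ^ 4 := one_le_pow₀ hK
    calc (1 : ℝ) = 1 * 1 := (one_mul 1).symm
      _ ≤ C ^ 4 * K ^ 4 := mul_le_mul a1 a2 zero_le_one (by linarith)
  by_cases hc : R' ≤ r'
  · rw [h.one r' R' hc, mul_one]
    exact le_trans (h.le1 r R) hCK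
  · have hr' : r' < R' := not_le.1 hc
    obtain ⟨ρ₁, hρ₁⟩ : ∃ ρ, ρ = max r' (min r R') := ⟨_, rfl⟩
    obtain ⟨ρ₂, hρ₂⟩ : ∃ ρ, ρ = max ρ₁ (min R R') := ⟨_, rfl⟩
    have b1 : r' ≤ ρ₁ := by omega
    have b2 : ρ₁ ≤ ρ₂ := by omega
    have b3 : ρ₂ ≤ R' := by omega
    have b4 : ρ₁ ≤ r' ∨ ρ₁ ≤ r := by omega
    have r'0 : (0 : ℝ) < r' := by exact_mod_cast (show (0 : ℤ) < r' by omega)
    have R'0 : (0 : ℝ) < R' := by exact_mod_cast (show (0 : ℤ) < R' by omega)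
    have c1 : (ρ₁ : ℝ) ≤ K * r' := by
      rcases b4 with b4 | b4
      · have : (ρ₁ : ℝ) ≤ r' := by exact_mod_cast b4
        nlinarith
      · have : (ρ₁ : ℝ) ≤ r := by exact_mod_cast b4
        linarith
    have c2 : (R' : ℝ) ≤ K * ρ₂ := by
      have b5 : R ≤ ρ₂ ∨ R' ≤ ρ₂ := by omega
      rcases b5 with b5 | b5
      · have : (R : ℝ) ≤ ρ₂ := by exact_mod_cast b5
        nlinarith
      · have : (R' : ℝ) ≤ ρ₂ := by exact_mod_cast b5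
        nlinarith
    have d1 := fi10_lo h hK h1' b1 c1
    have d2 := fi10_lo h hK (show R₀ ≤ ρ₂ by omega) b3 c2
    have d3 : f r R ≤ f ρ₁ ρ₂ := by
      by_cases he : ρ₂ ≤ ρ₁
      · rw [h.one ρ₁ ρ₂ he]
        exact h.le1 r R
      · exact h.mono ρ₁ ρ₂ r R (by omega) (by omega) b2 (by omega)
    have q1 := h.qm r' ρ₁ R' h1' b1 (le_trans b2 b3)
    have q2 := h.qm ρ₁ ρ₂ R' (by omega) b2 b3
    have n0 := h.nn r' R'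
    have n1 := h.nn r' ρ₁
    have n2 := h.nn ρ₁ ρ₂
    have n3 := h.nn ρ₂ R'
    have n4 := h.nn ρ₁ R'
    have p1 : f r' ρ₁ * (f ρ₁ ρ₂ * f ρ₂ R') ≤ C ^ 2 * f r' R' := by
      calc f r' ρ₁ * (f ρ₁ ρ₂ * f ρ₂ R') ≤ f r' ρ₁ * (C * f ρ₁ R') :=
            mul_le_mul_of_nonneg_left q2 n1
        _ = C * (f r' ρ₁ * f ρ₁ R') := by ring
        _ ≤ C * (C * f r' R') := mul_le_mul_of_nonneg_left q1 hC0
        _ = C ^ 2 * f r' R' := by ring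
    have p2 : 1 ≤ (C * K ^ 2 * f r' ρ₁) * (C * K ^ 2 * f ρ₂ R') := by
      calc (1 : ℝ) = 1 * 1 := (one_mul 1).symm
        _ ≤ _ := mul_le_mul d1 d2 zero_le_one (by linarith)
    calc f r R ≤ f ρ₁ ρ₂ := d3
      _ = 1 * f ρ₁ ρ₂ := (one_mul _).symm
      _ ≤ ((C * K ^ 2 * f r' ρ₁) * (C * K ^ 2 * f ρ₂ R')) * f ρ₁ ρ₂ :=
          mul_le_mul_of_nonneg_right p2 n2
      _ = (C ^ 2 * K ^ 4) * (f r' ρ₁ * (f ρ₁ ρ₂ * f ρ₂ R')) := by ring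
      _ ≤ (C ^ 2 * K ^ 4) * (C ^ 2 * f r' R') :=
          mul_le_mul_of_nonneg_left p1 (mul_nonneg (pow_nonneg hC0 2) (pow_nonneg hK0 4))
      _ = C ^ 4 * K ^ 4 * f r' R' := by ring

/-- a larger threshold is allowed -/
theorem AG.mono_R {f : ℤ → ℤ → ℝ} {C γ : ℝ} {R₀ R₁ : ℤ} (h : AG f C γ R₀) (h1 : R₀ ≤ R₁) :
    AG f C γ R₁ where
  C1 := h.C1
  g0 := h.g0
  g1 := h.g1
  R16 := le_trans h.R16 h1
  nn := h.nn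
  le1 := h.le1
  one := h.one
  mono := h.mono
  qm := fun r ρ R h2 => h.qm r ρ R (le_trans h1 h2)
  lo := fun r R h2 => h.lo r R (le_trans h1 h2)

/-- abstract properties of `al L` with the upper exponent `1 + c` -/
structure AF (f : ℤ → ℤ → ℝ) (C c γ : ℝ) (R₀ : ℤ) : Prop extends AG f C γ R₀ where
  c0 : 0 < c
  g1' : γ < 1
  sub : ∀ r ρ R, 0 ≤ r → r ≤ ρ → ρ ≤ R → f r R ≤ f r ρ * f ρ R
  up : ∀ r R, R₀ ≤ r → r ≤ R → f r R ≤ C * ((r : ℝ) / R) ^ (1 + c)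

theorem AF.mono_R {f : ℤ → ℤ → ℝ} {C c γ : ℝ} {R₀ R₁ : ℤ} (h : AF f C c γ R₀) (h1 : R₀ ≤ R₁) :
    AF f C c γ R₁ where
  toAG := h.toAG.mono_R h1
  c0 := h.c0
  g1' := h.g1'
  sub := h.sub
  up := fun r R h2 => h.up r R (le_trans h1 h2)

/-- clamp -/
def cl (p a b : ℤ) : ℤ := max a (min p b)

/-- distance of `x` to the nearest side of the rectangle `[-N, N] × [-N', N']` -/
def hm (N N' : ℤ) (x : ℤ × ℤ) : ℤ := min (N - |x.1|) (N' - |x.2|)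

/-- distance to the nearest side of the other direction -/
def hM (N N' : ℤ) (x : ℤ × ℤ) : ℤ := max (N - |x.1|) (N' - |x.2|)

/-- the corner of the block number `z` -/
def sc (w : ℤ) (z : ℤ × ℤ) : ℤ × ℤ := (w * z.1, w * z.2)

/-- sup distance of two blocks -/
def bd2 (w : ℤ) (z z' : ℤ × ℤ) : ℤ := max |w * z.1 - w * z'.1| |w * z.2 - w * z'.2|

/-- the bound for the two-time probability of a pivotal block with centre `x`, radii `a ≤ b` -/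
noncomputable def gg (f : ℤ → ℤ → ℝ) (γ : ℝ) (N N' a b : ℤ) (x : ℤ × ℤ) : ℝ :=
  (f a b) ^ 2 * ((b : ℝ) / cl (N - |x.1|) a b) ^ γ * ((b : ℝ) / cl (N' - |x.2|) a b) ^ γ

end FI

end SC
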