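import Pool.Agent.Lib_MP_e0a489.FI10

/-!
# MP_e0a489, module FI, analysis 2: bulk, half plane and corner factors
-/

set_option autoImplicit false

namespace SC

namespace FI

/-- `y^(3/4)` and `z^(1/2)` through lower bounds -/
private theorem fi11_pow {C y P γ s : ℝ} (hC : 1 ≤ C) (hy : 0 ≤ y) (hP : 1 ≤ P) (hs : 0 ≤ s)
    (hs1 : s ≤ 1) (h : 1 ≤ C * y * P ^ (2 * γ)) :
    y ^ (1 - s) ≤ C * y * P ^ (2 * γ * s) := by
  have hP0 : 0 ≤ P := by linarith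
  have hP1 : 0 ≤ P ^ (2 * γ) := Real.rpow_nonneg hP0 _
  have hC0 : 0 ≤ C := by linarith
  have h1 : 1 ≤ (C * y * P ^ (2 * γ)) ^ s := Real.one_le_rpow h hs
  rw [Real.mul_rpow (mul_nonneg hC0 hy) hP1, Real.mul_rpow hC0 hy, ← Real.rpow_mul hP0] at h1
  have hy0 : 0 < y := by
    rcases hy.eq_or_lt with h0 | h0
    · rw [← h0] at h
      simp only [mul_zero, zero_mul] at h
      linarith
    · exact h0
  have h2 : y ^ (1 - s) * y ^ s = y := by
    rw [← Real.rpow_add hy0]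
    simp
  have h3 : C ^ s ≤ C := by
    calc C ^ s ≤ C ^ (1 : ℝ) := Real.rpow_le_rpow_of_exponent_le hC hs1
      _ = C := Real.rpow_one C
  calc y ^ (1 - s) = y ^ (1 - s) * 1 := (mul_one _).symm
    _ ≤ y ^ (1 - s) * (C ^ s * y ^ s * P ^ (2 * γ * s)) :=
        mul_le_mul_of_nonneg_left h1 (Real.rpow_nonneg hy _)
    _ = C ^ s * (y ^ (1 - s) * y ^ s) * P ^ (2 * γ * s) := by ring
    _ = C ^ s * y * P ^ (2 * γ * s) := by rw [h2]
    _ ≤ C * y * P ^ (2 * γ * s) := by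
        apply mul_le_mul_of_nonneg_right _ (Real.rpow_nonneg hP0 _)
        exact mul_le_mul_of_nonneg_right h3 hy

private theorem fi11_pow2 {C B y s : ℝ} (hC : 1 ≤ C) (hB : 0 ≤ B) (hy : 0 ≤ y) (hs : 0 ≤ s)
    (hs1 : s ≤ 1) (h : B ≤ C * y) : B ^ s ≤ C * y ^ s := by
  have hC0 : 0 ≤ C := by linarith
  calc B ^ s ≤ (C * y) ^ s := Real.rpow_le_rpow hB h hs
    _ = C ^ s * y ^ s := Real.mul_rpow hC0 hy
    _ ≤ C * y ^ s := by
        apply mul_le_mul_of_nonneg_right _ (Real.rpow_nonneg hy _)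
        calc C ^ s ≤ C ^ (1 : ℝ) := Real.rpow_le_rpow_of_exponent_le hC hs1
          _ = C := Real.rpow_one C

/-- the ordered case -/
private theorem AG.three_ord {f : ℤ → ℤ → ℝ} {C γ : ℝ} {R₀ : ℤ} (h : AG f C γ R₀)
    {a b k l : ℤ} (hkl : k ≤ l) (ha : R₀ ≤ a) (hab : a ≤ b) :
      f a (min k b - 1) * f (2 * max a k) (min l b - 1) ^ (3 / 4 : ℝ) *
        f (2 * max a l) b ^ (1 / 2 : ℝ) ≤
      (C ^ 4 * 2 ^ 4) ^ 3 * C ^ 4 *
        (f a b * ((b : ℝ) / cl k a b) ^ (γ / 2) * ((b : ℝ) / cl l a b) ^ (γ / 2)) := by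
  have hC := h.C1
  have hC0 : 0 ≤ C := by linarith
  have h16 := h.R16
  have g0 := h.g0
  obtain ⟨C₁, hC₁⟩ : ∃ C₁, C₁ = C ^ 4 * (2 : ℝ) ^ 4 := ⟨_, rfl⟩
  have hC4 : 1 ≤ C ^ 4 := one_le_pow₀ hC
  have hC11 : 1 ≤ C₁ := by rw [hC₁]; nlinarith
  have hC10 : 0 ≤ C₁ := by linarith
  have K2 : (1 : ℝ) ≤ 2 := by norm_num
  obtain ⟨u, hu⟩ : ∃ u, u = cl k a b := ⟨_, rfl⟩
  obtain ⟨v, hv⟩ : ∃ v, v = cl l a b := ⟨_, rfl⟩
  rw [← hu, ← hv, ← hC₁]
  unfold cl at hu hv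
  have hau : a ≤ u := by omega
  have huv : u ≤ v := by omega
  have hvb : v ≤ b := by omega
  have e1 : f a (min k b - 1) ≤ C₁ * f a u := by
    by_cases h1 : min k b ≤ a
    · have h2 : u = a := by omega
      rw [h2, h.one a a le_rfl, mul_one]
      exact (h.le1 _ _).trans hC11
    · have h2 : u = min k b := by omega
      rw [← h2, hC₁]
      refine h.cmp K2 ha ha ?_ ?_
      · have : (0 : ℝ) ≤ (a : ℝ) := by exact_mod_cast (by omega : (0 : ℤ) ≤ a)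
        linarith
      · have : (2 : ℝ) ≤ (u : ℝ) := by exact_mod_cast (by omega : (2 : ℤ) ≤ u)
        push_cast
        linarith
  have e2 : f (2 * max a k) (min l b - 1) ≤ C₁ * f u v := by
    by_cases h0 : b < k
    · have h1 : u = b := by omega
      have h2 : v = b := by omega
      rw [h1, h2, h.one b b le_rfl, mul_one]
      exact (h.le1 _ _).trans hC11
    · by_cases h1 : min l b ≤ a
      · have h2 : v = a := by omega
        have h3 : u = a := by omega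
        rw [h2, h3, h.one a a le_rfl, mul_one]
        exact (h.le1 _ _).trans hC11
      · have h2 : v = min l b := by omega
        have h3 : u = max a k := by omega
        rw [← h2, ← h3, hC₁]
        refine h.cmp K2 (by omega) (by omega) ?_ ?_
        · push_cast
          linarith
        · have : (2 : ℝ) ≤ (v : ℝ) := by exact_mod_cast (by omega : (2 : ℤ) ≤ v)
          push_cast
          linarith
  have e3 : f (2 * max a l) b ≤ C₁ * f v b := by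
    by_cases h0 : b < l
    · have h1 : v = b := by omega
      rw [h1, h.one b b le_rfl, mul_one]
      exact (h.le1 _ _).trans hC11
    · have h3 : v = max a l := by omega
      rw [← h3, hC₁]
      refine h.cmp K2 (by omega) (by omega) ?_ ?_
      · push_cast
        linarith
      · have : (0 : ℝ) ≤ (b : ℝ) := by exact_mod_cast (by omega : (0 : ℤ) ≤ b)
        linarith
  have e4 : f a u * f u v * f v b ≤ C ^ 2 * f a b := by
    have h1 := h.qm a u v ha hau huv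
    have h2 := h.qm a v b ha (hau.trans huv) hvb
    calc f a u * f u v * f v b ≤ C * f a v * f v b :=
          mul_le_mul_of_nonneg_right h1 (h.nn _ _)
      _ = C * (f a v * f v b) := by ring
      _ ≤ C * (C * f a b) := mul_le_mul_of_nonneg_left h2 hC0
      _ = C ^ 2 * f a b := by ring
  have hu0 : (0 : ℝ) < (u : ℝ) := by exact_mod_cast (by omega : (0 : ℤ) < u)
  have hv0 : (0 : ℝ) < (v : ℝ) := by exact_mod_cast (by omega : (0 : ℤ) < v)
  have hb0 : (0 : ℝ) < (b : ℝ) := by exact_mod_cast (by omega : (0 : ℤ) < b)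
  have huv' : (u : ℝ) ≤ v := by exact_mod_cast huv
  have hvb' : (v : ℝ) ≤ b := by exact_mod_cast hvb
  have P1 : 1 ≤ (v : ℝ) / u := by rw [le_div_iff₀ hu0]; linarith
  have Q1 : 1 ≤ (b : ℝ) / v := by rw [le_div_iff₀ hv0]; linarith
  have lo' : ∀ x y : ℤ, R₀ ≤ x → x ≤ y → 1 ≤ C * f x y * ((y : ℝ) / x) ^ (2 * γ) := by
    intro x y hx hxy
    have h1 := h.lo x y hx hxy
    have hx0 : (0 : ℝ) < (x : ℝ) := by exact_mod_cast (by omega : (0 : ℤ) < x)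
    have hy0 : (0 : ℝ) < (y : ℝ) := by exact_mod_cast (by omega : (0 : ℤ) < y)
    have h2 : ((x : ℝ) / y) ^ (2 * γ) * ((y : ℝ) / x) ^ (2 * γ) = 1 := by
      rw [← Real.mul_rpow (by positivity) (by positivity)]
      have : (x : ℝ) / y * (y / x) = 1 := by field_simp
      rw [this, Real.one_rpow]
    calc (1 : ℝ) = ((x : ℝ) / y) ^ (2 * γ) * ((y : ℝ) / x) ^ (2 * γ) := h2.symm
      _ ≤ C * f x y * ((y : ℝ) / x) ^ (2 * γ) :=
          mul_le_mul_of_nonneg_right h1 (Real.rpow_nonneg (by positivity) _)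
  have e5 : f u v ^ (3 / 4 : ℝ) ≤ C * f u v * ((v : ℝ) / u) ^ (γ / 2) := by
    have h1 := fi11_pow (s := 1 / 4) (γ := γ) hC (h.nn u v) P1 (by norm_num) (by norm_num)
      (lo' u v (by omega) huv)
    have h2 : (1 : ℝ) - 1 / 4 = 3 / 4 := by norm_num
    have h3 : 2 * γ * (1 / 4) = γ / 2 := by ring
    rwa [h2, h3] at h1
  have e6 : f v b ^ (1 / 2 : ℝ) ≤ C * f v b * ((b : ℝ) / v) ^ γ := by
    have h1 := fi11_pow (s := 1 / 2) (γ := γ) hC (h.nn v b) Q1 (by norm_num) (by norm_num)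
      (lo' v b (by omega) hvb)
    have h2 : (1 : ℝ) - 1 / 2 = 1 / 2 := by norm_num
    have h3 : 2 * γ * (1 / 2) = γ := by ring
    rwa [h2, h3] at h1
  have e7 : f (2 * max a k) (min l b - 1) ^ (3 / 4 : ℝ) ≤ C₁ * f u v ^ (3 / 4 : ℝ) :=
    fi11_pow2 hC11 (h.nn _ _) (h.nn _ _) (by norm_num) (by norm_num) e2
  have e8 : f (2 * max a l) b ^ (1 / 2 : ℝ) ≤ C₁ * f v b ^ (1 / 2 : ℝ) :=
    fi11_pow2 hC11 (h.nn _ _) (h.nn _ _) (by norm_num) (by norm_num) e3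
  have n1 : 0 ≤ f a u := h.nn _ _
  have n2 : 0 ≤ f u v ^ (3 / 4 : ℝ) := Real.rpow_nonneg (h.nn _ _) _
  have n3 : 0 ≤ f v b ^ (1 / 2 : ℝ) := Real.rpow_nonneg (h.nn _ _) _
  have n4 : 0 ≤ f (2 * max a k) (min l b - 1) ^ (3 / 4 : ℝ) := Real.rpow_nonneg (h.nn _ _) _
  have n5 : 0 ≤ f (2 * max a l) b ^ (1 / 2 : ℝ) := Real.rpow_nonneg (h.nn _ _) _
  have m1 : 0 ≤ ((v : ℝ) / u) ^ (γ / 2) := Real.rpow_nonneg (by positivity) _
  have m2 : 0 ≤ ((b : ℝ) / v) ^ γ := Real.rpow_nonneg (by positivity) _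
  have pow_id : ((v : ℝ) / u) ^ (γ / 2) * ((b : ℝ) / v) ^ γ =
      ((b : ℝ) / u) ^ (γ / 2) * ((b : ℝ) / v) ^ (γ / 2) := by
    have h1 : ((b : ℝ) / v) ^ γ = ((b : ℝ) / v) ^ (γ / 2) * ((b : ℝ) / v) ^ (γ / 2) := by
      rw [← Real.rpow_add (by positivity)]
      congr 1
      ring
    have h2 : ((b : ℝ) / u) ^ (γ / 2) = ((v : ℝ) / u) ^ (γ / 2) * ((b : ℝ) / v) ^ (γ / 2) := by
      rw [← Real.mul_rpow (by positivity) (by positivity)]
      congr 1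
      field_simp
    rw [h1, h2]
    ring
  calc f a (min k b - 1) * f (2 * max a k) (min l b - 1) ^ (3 / 4 : ℝ) *
        f (2 * max a l) b ^ (1 / 2 : ℝ)
      ≤ (C₁ * f a u) * (C₁ * f u v ^ (3 / 4 : ℝ)) * (C₁ * f v b ^ (1 / 2 : ℝ)) := by
        apply mul_le_mul _ e8 n5 (by positivity)
        exact mul_le_mul e1 e7 n4 (by positivity)
    _ = C₁ ^ 3 * (f a u * (f u v ^ (3 / 4 : ℝ)) * (f v b ^ (1 / 2 : ℝ))) := by ring
    _ ≤ C₁ ^ 3 * (f a u * (C * f u v * ((v : ℝ) / u) ^ (γ / 2)) *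
          (C * f v b * ((b : ℝ) / v) ^ γ)) := by
        apply mul_le_mul_of_nonneg_left _ (by positivity)
        apply mul_le_mul _ e6 n3
        · have := h.nn u v
          positivity
        · exact mul_le_mul_of_nonneg_left e5 n1
    _ = C₁ ^ 3 * C ^ 2 * (f a u * f u v * f v b) *
          (((v : ℝ) / u) ^ (γ / 2) * ((b : ℝ) / v) ^ γ) := by ring
    _ ≤ C₁ ^ 3 * C ^ 2 * (C ^ 2 * f a b) *
          (((v : ℝ) / u) ^ (γ / 2) * ((b : ℝ) / v) ^ γ) := by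
        apply mul_le_mul_of_nonneg_right _ (mul_nonneg m1 m2)
        exact mul_le_mul_of_nonneg_left e4 (by positivity)
    _ = C₁ ^ 3 * C ^ 4 * (f a b * ((b : ℝ) / u) ^ (γ / 2) * ((b : ℝ) / v) ^ (γ / 2)) := by
        rw [pow_id]
        ring

/-- Product of the three factors (bulk, half plane, corner), one configuration.
Let `h = min p q`, `h₂ = max p q`, `u = cl h a b = max a (min h b)`, `u₂ = cl h₂ a b`; `a ≤ u ≤ u₂ ≤ b`, `a ≥ 16`.  With `K = 2` in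
`AG.cmp`, `C₁ = 16 C ^ 4`:
(1) `f a (min h b - 1) ≤ C₁ f a u`: if `min h b ≤ a` then `u = a`, `f a u = 1`; otherwise `u = min h b ≥ 17`, `u ≤ 2 (u - 1)`.
(2) `f (2 max a h) (min h₂ b - 1) ≤ C₁ f u u₂`: if `h > b` then `u = u₂ = b` and the right side is `C₁ ≥ 1`; if `h ≤ b` then
`u = max a h`; if `min h₂ b ≤ a` then `u = u₂ = a`; otherwise `u₂ = min h₂ b ≤ 2 (min h₂ b - 1)`.
(3) `f (2 max a h₂) b ≤ C₁ f u₂ b`: if `h₂ > b` then `u₂ = b`; otherwise `u₂ = max a h₂`.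
(4) `f a u * f u u₂ * f u₂ b ≤ C² f a b` (`qm` twice).
(5) `f u u₂ ≥ C⁻¹ (u/u₂)^(2γ)`, `f u₂ b ≥ C⁻¹ (u₂/b)^(2γ)` (positive), so
`f a u (f u u₂)^(3/4) (f u₂ b)^(1/2) = (f a u f u u₂ f u₂ b) (f u u₂)^(-1/4) (f u₂ b)^(-1/2) ≤
C³ f a b (u₂/u)^(γ/2) (b/u₂)^γ = C³ f a b (b/u)^(γ/2) (b/u₂)^(γ/2)`, and `{u, u₂} = {cl p a b, cl q a b}`. -/
theorem AG.three {f : ℤ → ℤ → ℝ} {C γ : ℝ} {R₀ : ℤ} (h : AG f C γ R₀) : ∃ C' : ℝ, 0 < C' ∧
    ∀ a b p q : ℤ, R₀ ≤ a → a ≤ b →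
      f a (min (min p q) b - 1) * f (2 * max a (min p q)) (min (max p q) b - 1) ^ (3 / 4 : ℝ) *
        f (2 * max a (max p q)) b ^ (1 / 2 : ℝ) ≤
      C' * (f a b * ((b : ℝ) / cl p a b) ^ (γ / 2) * ((b : ℝ) / cl q a b) ^ (γ / 2)) := by
  have hC := h.C1
  refine ⟨(C ^ 4 * 2 ^ 4) ^ 3 * C ^ 4, by positivity, ?_⟩
  intro a b p q ha hab
  rcases le_total p q with hpq | hpq
  · rw [min_eq_left hpq, max_eq_right hpq]
    exact AG.three_ord h hpq ha hab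
  · rw [min_eq_right hpq, max_eq_left hpq]
    refine (AG.three_ord h hpq ha hab).trans (le_of_eq ?_)
    ring

/-- Two-time version: square of `AG.three`. -/
theorem AG.three_sq {f : ℤ → ℤ → ℝ} {C γ : ℝ} {R₀ : ℤ} (h : AG f C γ R₀) : ∃ C' : ℝ, 0 < C' ∧
    ∀ (a b N N' : ℤ) (x : ℤ × ℤ), R₀ ≤ a → a ≤ b →
      f a (min (hm N N' x) b - 1) ^ 2 *
        f (2 * max a (hm N N' x)) (min (hM N N' x) b - 1) ^ (3 / 2 : ℝ) *
        f (2 * max a (hM N N' x)) b ≤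
      C' * gg f γ N N' a b x := by
  obtain ⟨C', hC', H⟩ := h.three
  refine ⟨C' ^ 2, by positivity, ?_⟩
  intro a b N N' x ha hab
  have h1 := H a b (N - |x.1|) (N' - |x.2|) ha hab
  have h16 := h.R16
  unfold hm hM gg
  generalize hp : N - |x.1| = p at h1 ⊢
  generalize hq : N' - |x.2| = q at h1 ⊢
  have n1 : 0 ≤ f a (min (min p q) b - 1) := h.nn _ _
  have n2 : 0 ≤ f (2 * max a (min p q)) (min (max p q) b - 1) := h.nn _ _
  have n3 : 0 ≤ f (2 * max a (max p q)) b := h.nn _ _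
  have hb0 : (0 : ℝ) ≤ (b : ℝ) := by exact_mod_cast (by omega : (0 : ℤ) ≤ b)
  have hp0 : (0 : ℝ) ≤ (cl p a b : ℝ) := by
    exact_mod_cast (by unfold cl; omega : (0 : ℤ) ≤ cl p a b)
  have hq0 : (0 : ℝ) ≤ (cl q a b : ℝ) := by
    exact_mod_cast (by unfold cl; omega : (0 : ℤ) ≤ cl q a b)
  have sq : ∀ t s : ℝ, 0 ≤ t → (t ^ s) ^ 2 = t ^ (s * 2) := by
    intro t s ht
    rw [Real.rpow_mul ht, ← Real.rpow_natCast]
    norm_num
  have h2 : 0 ≤ f a (min (min p q) b - 1) *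
      f (2 * max a (min p q)) (min (max p q) b - 1) ^ (3 / 4 : ℝ) *
      f (2 * max a (max p q)) b ^ (1 / 2 : ℝ) := by positivity
  have h3 := pow_le_pow_left₀ h2 h1 2
  rw [mul_pow, mul_pow, mul_pow, mul_pow, mul_pow, sq _ _ n2, sq _ _ n3,
    sq _ _ (div_nonneg hb0 hp0), sq _ _ (div_nonneg hb0 hq0)] at h3
  have e1 : (3 / 4 : ℝ) * 2 = 3 / 2 := by norm_num
  have e2 : (1 / 2 : ℝ) * 2 = 1 := by norm_num
  have e3 : γ / 2 * 2 = γ := by ring
  rw [e1, e2, e3, Real.rpow_one] at h3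
  exact h3

end FI

end SC
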