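import Pool.Agent.Lib_MP_e0a489.FI10

/-!
# MP_e0a489, module FI, analysis 3: sums over blocks near the boundary
-/

set_option autoImplicit false

namespace SC

namespace FI

/-- one step of the telescoping sum -/
private theorem fi12_step {δ : ℝ} (h0 : 0 ≤ δ) (h1 : δ < 1) (n : ℕ) :
    (1 - δ) * ((n : ℝ) + 1) ^ (-δ) ≤ ((n : ℝ) + 1) ^ (1 - δ) - (n : ℝ) ^ (1 - δ) := by
  have hn : (0 : ℝ) ≤ n := Nat.cast_nonneg n
  set x : ℝ := (n : ℝ) + 1 with hx
  have hx1 : (1 : ℝ) ≤ x := by rw [hx]; linarith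
  have hx0 : (0 : ℝ) < x := by linarith
  have e1 : (n : ℝ) = x * (1 + -(1 / x)) := by
    have hne : x ≠ 0 := hx0.ne'
    field_simp
    rw [hx]; ring
  have hle : (1 : ℝ) / x ≤ 1 := by rw [div_le_one hx0]; exact hx1
  have hb : (1 + -(1 / x)) ^ (1 - δ) ≤ 1 + (1 - δ) * -(1 / x) :=
    rpow_one_add_le_one_add_mul_self (by linarith) (by linarith) (by linarith)
  have hxp : (0 : ℝ) < x ^ (1 - δ) := Real.rpow_pos_of_pos hx0 _
  have e2 : (n : ℝ) ^ (1 - δ) ≤ x ^ (1 - δ) * (1 + (1 - δ) * -(1 / x)) := by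
    conv_lhs => rw [e1]
    rw [Real.mul_rpow hx0.le (by linarith)]
    exact mul_le_mul_of_nonneg_left hb hxp.le
  have e3 : x ^ (1 - δ) * (1 / x) = x ^ (-δ) := by
    rw [show (1 : ℝ) - δ = 1 + -δ by ring, Real.rpow_add hx0, Real.rpow_one]
    field_simp
  have e5 : x ^ (1 - δ) * (1 + (1 - δ) * -(1 / x)) = x ^ (1 - δ) - (1 - δ) * x ^ (-δ) := by
    rw [← e3]; ring
  rw [e5] at e2
  linarith

/-- a sum over fibres with at most two elements -/
private theorem fi12_fib {s : Finset ℤ} {h : ℤ → ℕ} {g : ℕ → ℝ} (hg : ∀ j, 0 ≤ g j) {N : ℕ}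
    (hN : ∀ k ∈ s, h k < N) (hf : ∀ j, (s.filter (fun k => h k = j)).card ≤ 2) :
    ∑ k ∈ s, g (h k) ≤ 2 * ∑ j ∈ Finset.range N, g j := by
  rw [← Finset.sum_fiberwise_of_maps_to (s := s) (t := Finset.range N) (g := h)
    (fun k hk => Finset.mem_range.2 (hN k hk)), Finset.mul_sum]
  refine Finset.sum_le_sum fun j _ => ?_
  have e : ∑ k ∈ s.filter (fun k => h k = j), g (h k) =
      ∑ k ∈ s.filter (fun k => h k = j), g j :=
    Finset.sum_congr rfl fun k hk => by rw [(Finset.mem_filter.1 hk).2]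
  rw [e, Finset.sum_const, nsmul_eq_mul]
  have h2 : (((s.filter (fun k => h k = j)).card : ℕ) : ℝ) ≤ 2 := by exact_mod_cast hf j
  exact mul_le_mul_of_nonneg_right h2 (hg j)

/-- `∑_{k=1}^{n} k^(-δ) ≤ C n^(1-δ)`, `0 ≤ δ < 1` (for instance `C = 1 / (1 - δ)`; induction with
`(n+1)^(1-δ) - n^(1-δ) ≥ (1-δ) (n+1)^(-δ)`, mean value theorem or `Real.one_add_mul_self_le_rpow..`). -/
theorem sum_rpow {δ : ℝ} (h0 : 0 ≤ δ) (h1 : δ < 1) : ∃ C : ℝ, 0 < C ∧ ∀ n : ℕ,
    ∑ k ∈ Finset.range n, ((k : ℝ) + 1) ^ (-δ) ≤ C * (n : ℝ) ^ (1 - δ) := by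
  have hc : 0 < 1 - δ := by linarith
  refine ⟨1 / (1 - δ), by positivity, fun n => ?_⟩
  induction n with
  | zero =>
    simp only [Finset.range_zero, Finset.sum_empty]
    positivity
  | succ n ih =>
    rw [Finset.sum_range_succ]
    have h := fi12_step h0 h1 n
    have h2 : ((n : ℝ) + 1) ^ (-δ) ≤
        1 / (1 - δ) * (((n : ℝ) + 1) ^ (1 - δ) - (n : ℝ) ^ (1 - δ)) := by
      rw [one_div, ← div_eq_inv_mul, le_div_iff₀ hc]
      linarith
    push_cast
    have h3 : 1 / (1 - δ) * (((n : ℝ) + 1) ^ (1 - δ) - (n : ℝ) ^ (1 - δ)) =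
        1 / (1 - δ) * ((n : ℝ) + 1) ^ (1 - δ) - 1 / (1 - δ) * (n : ℝ) ^ (1 - δ) := by ring
    linarith

/-- One dimensional sum.  Put `φ k = (b / max w (min (w k) b)) ^ δ` for `k : ℤ`.  If `i ≥ 0`, then with `n = N / w`:
`N - w i ≥ w (n - i)`, so the term is at most `φ (n - i)`; if `i < 0` it is at most `φ (n + i)`; in both cases
the argument is `≥ -2`, because `|w i| ≤ N + w` gives `|i| ≤ n + 2`.  For a finite set `K` of integers
`≥ -2` contained in an interval of length `m`: `∑_{k ∈ K} φ k ≤ m + ∑_{k ∈ K, k < b/w} φ k`, (`φ k = 1` if `w k ≥ b`)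
`≤ m + 3 (b/w)^δ + ∑_{1 ≤ k, w k < b} (b / (w k))^δ ≤ m + 3 b/w + C (b/w)` by `sum_rpow`
(number of `k` with `1 ≤ k`, `w k < b` is at most `b / w`; `(b/w)^δ ≤ b/w`).  The maps `i ↦ n - i`, `i ↦ n + i` are injective. -/
theorem sum1 {δ : ℝ} (h0 : 0 ≤ δ) (h1 : δ < 1) : ∃ C : ℝ, 0 < C ∧
    ∀ (w N b m i₀ : ℤ) (I : Finset ℤ), 1 ≤ w → w ≤ b → 0 ≤ m →
      (∀ i ∈ I, i₀ ≤ i ∧ i < i₀ + m ∧ |w * i| ≤ N + w) →
      ∑ i ∈ I, ((b : ℝ) / cl (N - |w * i|) w b) ^ δ ≤ C * (m + (b : ℝ) / w) := by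
  obtain ⟨C₀, hC₀, H₀⟩ := sum_rpow h0 h1
  refine ⟨1 + 2 * (2 + C₀), by positivity, ?_⟩
  intro w N b m i₀ I hw hwb hm hI
  have hw0 : (0 : ℝ) < w := by
    have : (0 : ℤ) < w := by omega
    exact_mod_cast this
  have hb0 : (0 : ℝ) < b := by
    have : (0 : ℤ) < b := by omega
    exact_mod_cast this
  have hbw : (1 : ℝ) ≤ (b : ℝ) / w := by
    rw [le_div_iff₀ hw0, one_mul]
    exact_mod_cast hwb
  have hbw0 : (0 : ℝ) < (b : ℝ) / w := by linarith
  have hm0 : (0 : ℝ) ≤ m := by exact_mod_cast hm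
  -- properties of the clamp
  have hclw : ∀ p : ℤ, w ≤ cl p w b := fun p => le_max_left _ _
  have hclb : ∀ p : ℤ, b ≤ p → cl p w b = b := by
    intro p hp
    unfold cl
    rw [min_eq_right hp, max_eq_right hwb]
  have hclp : ∀ p : ℤ, p < b → p ≤ cl p w b := by
    intro p hp
    unfold cl
    rw [min_eq_left hp.le]
    exact le_max_right _ _
  have hcl0 : ∀ p : ℤ, (0 : ℝ) < (cl p w b : ℤ) := by
    intro p
    have : (0 : ℤ) < cl p w b := lt_of_lt_of_le (by omega) (hclw p)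
    exact_mod_cast this
  set G : ℕ → ℝ := fun j => ((b : ℝ) / w) ^ δ * (if j ≤ 1 then 1 else ((j : ℝ) - 1) ^ (-δ)) with hG
  have hG0 : ∀ j, 0 ≤ G j := by
    intro j
    simp only [hG]
    split_ifs with hj
    · positivity
    · have : (1 : ℝ) ≤ j := by
        have h2 : 1 ≤ j := by omega
        exact_mod_cast h2
      have h3 : (0 : ℝ) ≤ (j : ℝ) - 1 := by linarith
      positivity
  set hh : ℤ → ℕ := fun i => ((N - |w * i|) / w + 1).toNat with hhh
  have hq : ∀ i ∈ I, -1 ≤ (N - |w * i|) / w := by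
    intro i hi
    have h2 := (hI i hi).2.2
    rw [Int.le_ediv_iff_mul_le (by omega)]
    omega
  -- split the sum
  have hsplit : ∀ i ∈ I, ((b : ℝ) / cl (N - |w * i|) w b) ^ δ ≤
      1 + (if N - |w * i| < b then G (hh i) else 0) := by
    intro i hi
    by_cases hd : N - |w * i| < b
    · rw [if_pos hd]
      have hterm : ((b : ℝ) / cl (N - |w * i|) w b) ^ δ ≤ G (hh i) := by
        set q : ℤ := (N - |w * i|) / w with hqdef
        have hq1 : -1 ≤ q := hq i hi
        have hhi : hh i = (q + 1).toNat := rfl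
        by_cases hq0 : q ≤ 0
        · have hj : hh i ≤ 1 := by rw [hhi]; omega
          simp only [hG]
          rw [if_pos hj, mul_one]
          refine Real.rpow_le_rpow (by have := hcl0 (N - |w * i|); positivity) ?_ h0
          refine div_le_div_of_nonneg_left hb0.le hw0 ?_
          exact_mod_cast hclw _
        · have hq2 : 1 ≤ q := by omega
          have hj : ¬ hh i ≤ 1 := by rw [hhi]; omega
          have hjq : ((hh i : ℕ) : ℝ) - 1 = q := by
            have h3 : ((hh i : ℕ) : ℤ) = q + 1 := by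
              rw [hhi]
              exact Int.toNat_of_nonneg (by omega)
            have h4 : (((hh i : ℕ) : ℤ) : ℝ) = ((q + 1 : ℤ) : ℝ) := by rw [h3]
            push_cast at h4
            rw [h4]
            ring
          have hqr : (0 : ℝ) < q := by
            have : (0 : ℤ) < q := by omega
            exact_mod_cast this
          simp only [hG]
          rw [if_neg hj, hjq]
          have h5 : w * q ≤ N - |w * i| := by
            rw [hqdef]
            exact Int.mul_ediv_self_le (by omega)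
          have h6 : w * q ≤ cl (N - |w * i|) w b := le_trans h5 (hclp _ hd)
          have h7 : (w : ℝ) * q ≤ (cl (N - |w * i|) w b : ℤ) := by exact_mod_cast h6
          have h8 : (b : ℝ) / (cl (N - |w * i|) w b : ℤ) ≤ (b : ℝ) / (w * q) :=
            div_le_div_of_nonneg_left hb0.le (by positivity) h7
          calc ((b : ℝ) / cl (N - |w * i|) w b) ^ δ ≤ ((b : ℝ) / (w * q)) ^ δ :=
                Real.rpow_le_rpow (by have := hcl0 (N - |w * i|); positivity) h8 h0
            _ = ((b : ℝ) / w * (q : ℝ)⁻¹) ^ δ := by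
                congr 1
                field_simp
            _ = ((b : ℝ) / w) ^ δ * ((q : ℝ)⁻¹) ^ δ := Real.mul_rpow hbw0.le (by positivity)
            _ = ((b : ℝ) / w) ^ δ * (q : ℝ) ^ (-δ) := by
                rw [Real.inv_rpow hqr.le, Real.rpow_neg hqr.le]
      linarith
    · rw [if_neg hd, hclb _ (by omega), div_self hb0.ne', Real.one_rpow]
      linarith
  have hcard : ((I.card : ℕ) : ℝ) ≤ m := by
    have h2 : I ⊆ Finset.Ico i₀ (i₀ + m) := by
      intro i hi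
      have h3 := hI i hi
      rw [Finset.mem_Ico]
      exact ⟨h3.1, h3.2.1⟩
    have h3 := Finset.card_le_card h2
    rw [Int.card_Ico] at h3
    have h4 : ((i₀ + m - i₀).toNat : ℤ) = m := by
      rw [show i₀ + m - i₀ = m by ring]
      exact Int.toNat_of_nonneg hm
    have h5 : (I.card : ℤ) ≤ m := by
      rw [← h4]
      exact_mod_cast h3
    exact_mod_cast h5
  set J : Finset ℤ := I.filter (fun i => N - |w * i| < b) with hJ
  set n : ℕ := (b / w).toNat with hn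
  have hbw1 : 0 ≤ b / w := Int.ediv_nonneg (by omega) (by omega)
  have hnr : (n : ℝ) ≤ (b : ℝ) / w := by
    have h2 : ((n : ℕ) : ℤ) = b / w := Int.toNat_of_nonneg hbw1
    rw [le_div_iff₀ hw0]
    have h3 : b / w * w ≤ b := Int.ediv_mul_le _ (by omega)
    rw [← h2] at h3
    exact_mod_cast h3
  have hfib := fi12_fib (s := J) (h := hh) (g := G) hG0 (N := n + 2) (fun i hi => by
      have h2 : N - |w * i| < b := (Finset.mem_filter.1 hi).2
      have h3 : (N - |w * i|) / w ≤ b / w := Int.ediv_le_ediv (by omega) h2.le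
      show ((N - |w * i|) / w + 1).toNat < n + 2
      omega)
    (fun j => by
      have hs : J.filter (fun i => hh i = j) ⊆
          ({(N - w * ((j : ℤ) - 1)) / w, -((N - w * ((j : ℤ) - 1)) / w)} : Finset ℤ) := by
        intro i hi
        have hi2 : hh i = j := (Finset.mem_filter.1 hi).2
        have hi1 : i ∈ I := (Finset.mem_filter.1 (Finset.mem_filter.1 hi).1).1
        have h2 := hq i hi1
        have h3 : (N - |w * i|) / w = (j : ℤ) - 1 := by
          have h4 : ((N - |w * i|) / w + 1).toNat = j := hi2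
          omega
        have h5 : |w * i| = w * |i| := by
          rw [abs_mul, abs_of_pos (show (0 : ℤ) < w by omega)]
        rw [h5] at h3
        have h6 : (N - w * ((j : ℤ) - 1)) / w = |i| := by
          have h7 : N - w * |i| - w * ((j : ℤ) - 1) < w := by
            have h8 := Int.lt_ediv_add_one_mul_self (N - w * |i|) (show (0 : ℤ) < w by omega)
            rw [h3] at h8
            linarith
          have h9 : 0 ≤ N - w * |i| - w * ((j : ℤ) - 1) := by
            have h10 := Int.ediv_mul_le (N - w * |i|) (show w ≠ 0 by omega)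
            rw [h3] at h10
            linarith
          have h11 : N - w * ((j : ℤ) - 1) = (N - w * |i| - w * ((j : ℤ) - 1)) + w * |i| := by ring
          rw [h11, Int.add_mul_ediv_left _ _ (show w ≠ 0 by omega),
            Int.ediv_eq_zero_of_lt h9 h7, zero_add]
        rw [h6, Finset.mem_insert, Finset.mem_singleton]
        rcases abs_cases i with h | h <;> omega
      exact (Finset.card_le_card hs).trans Finset.card_le_two)
  have hsumG : ∑ j ∈ Finset.range (n + 2), G j ≤ (2 + C₀) * ((b : ℝ) / w) := by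
    rw [Finset.sum_range_succ', Finset.sum_range_succ']
    have e0 : G 0 = ((b : ℝ) / w) ^ δ := by simp [hG]
    have e1 : G (0 + 1) = ((b : ℝ) / w) ^ δ := by simp [hG]
    have e2 : ∀ k ∈ Finset.range n, G (k + 1 + 1) = ((b : ℝ) / w) ^ δ * ((k : ℝ) + 1) ^ (-δ) := by
      intro k _
      simp only [hG]
      rw [if_neg (by omega)]
      push_cast
      congr 2
      ring
    rw [Finset.sum_congr rfl e2, e0, e1, ← Finset.mul_sum]
    have h2 := H₀ n
    have h3 : (n : ℝ) ^ (1 - δ) ≤ ((b : ℝ) / w) ^ (1 - δ) :=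
      Real.rpow_le_rpow (Nat.cast_nonneg n) hnr (by linarith)
    have h4 : ((b : ℝ) / w) ^ δ * ((b : ℝ) / w) ^ (1 - δ) = (b : ℝ) / w := by
      rw [← Real.rpow_add hbw0]
      norm_num
    have h5 : ((b : ℝ) / w) ^ δ ≤ (b : ℝ) / w := by
      calc ((b : ℝ) / w) ^ δ ≤ ((b : ℝ) / w) ^ (1 : ℝ) :=
            Real.rpow_le_rpow_of_exponent_le hbw h1.le
        _ = _ := Real.rpow_one _
    have h6 : ((b : ℝ) / w) ^ δ * ∑ k ∈ Finset.range n, ((k : ℝ) + 1) ^ (-δ) ≤
        C₀ * ((b : ℝ) / w) := by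
      calc ((b : ℝ) / w) ^ δ * ∑ k ∈ Finset.range n, ((k : ℝ) + 1) ^ (-δ)
          ≤ ((b : ℝ) / w) ^ δ * (C₀ * ((b : ℝ) / w) ^ (1 - δ)) := by
            refine mul_le_mul_of_nonneg_left (le_trans h2 ?_) (by positivity)
            exact mul_le_mul_of_nonneg_left h3 hC₀.le
        _ = C₀ * (((b : ℝ) / w) ^ δ * ((b : ℝ) / w) ^ (1 - δ)) := by ring
        _ = _ := by rw [h4]
    linarith
  calc ∑ i ∈ I, ((b : ℝ) / cl (N - |w * i|) w b) ^ δ
      ≤ ∑ i ∈ I, (1 + (if N - |w * i| < b then G (hh i) else 0)) := Finset.sum_le_sum hsplit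
    _ = (I.card : ℝ) + ∑ i ∈ J, G (hh i) := by
        rw [Finset.sum_add_distrib, Finset.sum_const, nsmul_eq_mul, mul_one, hJ,
          Finset.sum_filter]
    _ ≤ m + 2 * ((2 + C₀) * ((b : ℝ) / w)) := by
        have h2 := hfib
        have h3 := mul_le_mul_of_nonneg_left hsumG (show (0 : ℝ) ≤ 2 by norm_num)
        linarith
    _ ≤ (1 + 2 * (2 + C₀)) * (m + (b : ℝ) / w) := by
        have h2 : 0 ≤ 2 * (2 + C₀) * (m : ℝ) := by positivity
        nlinarith

/-- Two dimensional sum (`Z ⊆ I ×ˢ I'`, product of two one dimensional sums, all terms are nonnegative). -/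
theorem sum2 {δ : ℝ} (h0 : 0 ≤ δ) (h1 : δ < 1) : ∃ C : ℝ, 0 < C ∧
    ∀ (w N N' b m : ℤ) (z₀ : ℤ × ℤ) (Z : Finset (ℤ × ℤ)), 1 ≤ w → w ≤ b → 0 ≤ m →
      (∀ z ∈ Z, (z₀.1 ≤ z.1 ∧ z.1 < z₀.1 + m ∧ |w * z.1| ≤ N + w) ∧
        (z₀.2 ≤ z.2 ∧ z.2 < z₀.2 + m ∧ |w * z.2| ≤ N' + w)) →
      ∑ z ∈ Z, ((b : ℝ) / cl (N - |w * z.1|) w b) ^ δ * ((b : ℝ) / cl (N' - |w * z.2|) w b) ^ δ ≤
        C * (m + (b : ℝ) / w) ^ 2 := by
  obtain ⟨C, hC, H⟩ := sum1 h0 h1
  refine ⟨C ^ 2, by positivity, ?_⟩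
  intro w N N' b m z₀ Z hw hwb hm hZ
  have hb0 : (0 : ℝ) ≤ b := by
    have : (0 : ℤ) ≤ b := by omega
    exact_mod_cast this
  have hcl0 : ∀ p : ℤ, (0 : ℝ) ≤ (cl p w b : ℤ) := by
    intro p
    have : (0 : ℤ) ≤ cl p w b := le_trans (by omega) (le_max_left _ _)
    exact_mod_cast this
  set f : ℤ → ℝ := fun i => ((b : ℝ) / cl (N - |w * i|) w b) ^ δ with hf
  set g : ℤ → ℝ := fun i => ((b : ℝ) / cl (N' - |w * i|) w b) ^ δ with hg
  have hf0 : ∀ i, 0 ≤ f i := fun i => Real.rpow_nonneg (div_nonneg hb0 (hcl0 _)) _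
  have hg0 : ∀ i, 0 ≤ g i := fun i => Real.rpow_nonneg (div_nonneg hb0 (hcl0 _)) _
  have h2 : ∑ i ∈ Z.image Prod.fst, f i ≤ C * (m + (b : ℝ) / w) := by
    refine H w N b m z₀.1 _ hw hwb hm ?_
    intro i hi
    obtain ⟨z, hz, rfl⟩ := Finset.mem_image.1 hi
    exact (hZ z hz).1
  have h3 : ∑ i ∈ Z.image Prod.snd, g i ≤ C * (m + (b : ℝ) / w) := by
    refine H w N' b m z₀.2 _ hw hwb hm ?_
    intro i hi
    obtain ⟨z, hz, rfl⟩ := Finset.mem_image.1 hi
    exact (hZ z hz).2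
  have h4 : ∑ z ∈ Z, f z.1 * g z.2 ≤
      ∑ z ∈ Z.image Prod.fst ×ˢ Z.image Prod.snd, f z.1 * g z.2 := by
    refine Finset.sum_le_sum_of_subset_of_nonneg ?_ ?_
    · intro z hz
      rw [Finset.mem_product]
      exact ⟨Finset.mem_image_of_mem _ hz, Finset.mem_image_of_mem _ hz⟩
    · intro z _ _
      exact mul_nonneg (hf0 _) (hg0 _)
  have h5 : ∑ z ∈ Z.image Prod.fst ×ˢ Z.image Prod.snd, f z.1 * g z.2 =
      (∑ i ∈ Z.image Prod.fst, f i) * ∑ i ∈ Z.image Prod.snd, g i := by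
    rw [Finset.sum_product, Finset.sum_mul_sum]
  have h6 : 0 ≤ ∑ i ∈ Z.image Prod.snd, g i := Finset.sum_nonneg fun i _ => hg0 i
  have h7 : 0 ≤ ∑ i ∈ Z.image Prod.fst, f i := Finset.sum_nonneg fun i _ => hf0 i
  calc _ ≤ _ := h4
    _ = _ := h5
    _ ≤ (C * (m + (b : ℝ) / w)) * (C * (m + (b : ℝ) / w)) :=
        mul_le_mul h2 h3 h6 (le_trans h7 h2)
    _ = _ := by ring

end FI

end SC
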