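import Pool.Agent.Lib_MP_e0a489.FI12

/-!
# MP_e0a489, module FI, analysis 4: sums of `gg` over blocks
-/

set_option autoImplicit false

namespace SC

namespace FI

private theorem fi13_abs {w a M : ℤ} (hw : 1 ≤ w) (h : |w * a| ≤ M) : |a| ≤ M / w := by
  rw [Int.le_ediv_iff_mul_le (by omega)]
  rw [abs_mul, abs_of_nonneg (by omega : (0 : ℤ) ≤ w)] at h
  linarith [mul_comm w |a|]

private theorem fi13_div {w M : ℤ} (hw : 1 ≤ w) : ((M / w : ℤ) : ℝ) ≤ (M : ℝ) / w := by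
  have h1 : (M / w) * w ≤ M := Int.ediv_mul_le M (by omega)
  have hw0 : (0 : ℝ) < (w : ℝ) := by exact_mod_cast (by omega : (0 : ℤ) < w)
  rw [le_div_iff₀ hw0]
  exact_mod_cast h1

private theorem fi13_gg (f : ℤ → ℤ → ℝ) (γ : ℝ) (N N' w b : ℤ) (Z : Finset (ℤ × ℤ)) :
    ∑ z ∈ Z, gg f γ N N' w b (sc w z) = (f w b) ^ 2 *
      ∑ z ∈ Z, ((b : ℝ) / cl (N - |w * z.1|) w b) ^ γ *
        ((b : ℝ) / cl (N' - |w * z.2|) w b) ^ γ := by
  rw [Finset.mul_sum]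
  refine Finset.sum_congr rfl fun z _ => ?_
  unfold gg sc
  ring

/-- Sum over all blocks: `sum2` with `b = n`, `m` = length of an interval of integers `i` with `|w i| ≤ N + w` or `|w i| ≤ N' + w`,
`N, N' ≤ 2 n`: `i₀ = -(2 n / w + 2)`, `m = 2 (2 n / w + 2) + 1 ≤ 9 n / w` (as a real number).  `δ = γ`. -/
theorem AF.sum_all {f : ℤ → ℤ → ℝ} {C c γ : ℝ} {R₀ : ℤ} (h : AF f C c γ R₀) : ∃ C' : ℝ, 0 < C' ∧
    ∀ (w N N' n : ℤ) (Z : Finset (ℤ × ℤ)), 1 ≤ w → w ≤ n → N ≤ 2 * n → N' ≤ 2 * n →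
      (∀ z ∈ Z, |w * z.1| ≤ N + w ∧ |w * z.2| ≤ N' + w) →
      ∑ z ∈ Z, gg f γ N N' w n (sc w z) ≤ C' * ((n : ℝ) / w * f w n) ^ 2 := by
  obtain ⟨C₂, hC₂, H⟩ := sum2 h.g0 h.g1'
  refine ⟨100 * C₂, by positivity, ?_⟩
  intro w N N' n Z hw hwn hN hN' hZ
  have hw0 : (0 : ℝ) < (w : ℝ) := by exact_mod_cast (by omega : (0 : ℤ) < w)
  have hn0 : (0 : ℝ) < (n : ℝ) := by exact_mod_cast (by omega : (0 : ℤ) < n)
  have hwn' : (w : ℝ) ≤ n := by exact_mod_cast hwn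
  have hnw : 1 ≤ (n : ℝ) / w := by rw [le_div_iff₀ hw0]; linarith
  obtain ⟨M, hM⟩ : ∃ M : ℤ, M = 2 * n / w := ⟨_, rfl⟩
  have hM0 : 0 ≤ M := by rw [hM]; exact Int.ediv_nonneg (by omega) (by omega)
  have key : ∀ x : ℤ, |w * x| ≤ 2 * n + w → |x| ≤ M + 1 := by
    intro x hx
    have h1 := fi13_abs hw hx
    have h2 : (2 * n + w) / w = M + 1 := by
      rw [hM]
      have := Int.add_mul_ediv_right (2 * n) 1 (c := w) (by omega)
      rw [one_mul] at this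
      exact this
    rwa [h2] at h1
  have hs := H w N N' n (2 * (M + 2) + 1) (-(M + 2), -(M + 2)) Z hw hwn (by omega) (by
    intro z hz
    obtain ⟨h1, h2⟩ := hZ z hz
    have h3 := abs_le.1 (key z.1 (h1.trans (by omega)))
    have h4 := abs_le.1 (key z.2 (h2.trans (by omega)))
    dsimp only
    refine ⟨⟨by omega, by omega, h1⟩, ⟨by omega, by omega, h2⟩⟩)
  rw [fi13_gg]
  have hMr : (M : ℝ) ≤ 2 * ((n : ℝ) / w) := by
    have h1 : ((2 * n / w : ℤ) : ℝ) ≤ ((2 * n : ℤ) : ℝ) / w := fi13_div hw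
    rw [← hM] at h1
    push_cast at h1
    calc (M : ℝ) ≤ 2 * n / w := h1
      _ = 2 * ((n : ℝ) / w) := by ring
  have hM0' : (0 : ℝ) ≤ (M : ℝ) := by exact_mod_cast hM0
  have h5 : (((2 * (M + 2) + 1 : ℤ) : ℝ) + (n : ℝ) / w) ^ 2 ≤ (10 * ((n : ℝ) / w)) ^ 2 := by
    apply pow_le_pow_left₀
    · push_cast
      positivity
    · push_cast
      linarith
  calc (f w n) ^ 2 * ∑ z ∈ Z, ((n : ℝ) / cl (N - |w * z.1|) w n) ^ γ *
        ((n : ℝ) / cl (N' - |w * z.2|) w n) ^ γ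
      ≤ (f w n) ^ 2 * (C₂ * (((2 * (M + 2) + 1 : ℤ) : ℝ) + (n : ℝ) / w) ^ 2) :=
        mul_le_mul_of_nonneg_left hs (by positivity)
    _ ≤ (f w n) ^ 2 * (C₂ * (10 * ((n : ℝ) / w)) ^ 2) := by
        apply mul_le_mul_of_nonneg_left _ (by positivity)
        exact mul_le_mul_of_nonneg_left h5 hC₂.le
    _ = 100 * C₂ * ((n : ℝ) / w * f w n) ^ 2 := by ring

/-- Sum over the blocks at distance at most `2 D` from the block `z`: `sum2` with `b = D / 16`, `i₀ = z.1 - (2 D / w + 1)`,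
`m = 2 (2 D / w + 1) + 1 ≤ 7 D / w` (real number). -/
theorem AF.sum_near {f : ℤ → ℤ → ℝ} {C c γ : ℝ} {R₀ : ℤ} (h : AF f C c γ R₀) : ∃ C' : ℝ, 0 < C' ∧
    ∀ (w N N' D : ℤ) (z : ℤ × ℤ) (Z : Finset (ℤ × ℤ)), 1 ≤ w → 16 * w ≤ D →
      (∀ z' ∈ Z, |w * z'.1| ≤ N + w ∧ |w * z'.2| ≤ N' + w) → (∀ z' ∈ Z, bd2 w z z' ≤ 2 * D) →
      ∑ z' ∈ Z, gg f γ N N' w (D / 16) (sc w z') ≤ C' * ((D : ℝ) / w * f w (D / 16)) ^ 2 := by
  obtain ⟨C₂, hC₂, H⟩ := sum2 h.g0 h.g1'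
  refine ⟨64 * C₂, by positivity, ?_⟩
  intro w N N' D z Z hw hwD hZ hZ'
  have hw0 : (0 : ℝ) < (w : ℝ) := by exact_mod_cast (by omega : (0 : ℤ) < w)
  have hD0 : (0 : ℝ) < (D : ℝ) := by exact_mod_cast (by omega : (0 : ℤ) < D)
  have hwD' : (w : ℝ) ≤ D := by exact_mod_cast (by omega : w ≤ D)
  have hDw : 1 ≤ (D : ℝ) / w := by rw [le_div_iff₀ hw0]; linarith
  obtain ⟨M, hM⟩ : ∃ M : ℤ, M = 2 * D / w := ⟨_, rfl⟩
  have hM0 : 0 ≤ M := by rw [hM]; exact Int.ediv_nonneg (by omega) (by omega)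
  have key : ∀ x y : ℤ, |w * x - w * y| ≤ 2 * D → |x - y| ≤ M := by
    intro x y hxy
    rw [← mul_sub] at hxy
    have h1 := fi13_abs hw hxy
    rwa [← hM] at h1
  have hwb : w ≤ D / 16 := by omega
  have hs := H w N N' (D / 16) (2 * (M + 1) + 1) (z.1 - (M + 1), z.2 - (M + 1)) Z hw hwb
    (by omega) (by
    intro z' hz'
    obtain ⟨h1, h2⟩ := hZ z' hz'
    have h5 := hZ' z' hz'
    unfold bd2 at h5
    have h3 := abs_le.1 (key z.1 z'.1 ((le_max_left _ _).trans h5))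
    have h4 := abs_le.1 (key z.2 z'.2 ((le_max_right _ _).trans h5))
    dsimp only
    refine ⟨⟨by omega, by omega, h1⟩, ⟨by omega, by omega, h2⟩⟩)
  rw [fi13_gg]
  have hMr : (M : ℝ) ≤ 2 * ((D : ℝ) / w) := by
    have h1 : ((2 * D / w : ℤ) : ℝ) ≤ ((2 * D : ℤ) : ℝ) / w := fi13_div hw
    rw [← hM] at h1
    push_cast at h1
    calc (M : ℝ) ≤ 2 * D / w := h1
      _ = 2 * ((D : ℝ) / w) := by ring
  have hb : ((D / 16 : ℤ) : ℝ) / w ≤ (D : ℝ) / w := by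
    apply div_le_div_of_nonneg_right _ hw0.le
    exact_mod_cast (by omega : D / 16 ≤ D)
  have hb0 : (0 : ℝ) ≤ ((D / 16 : ℤ) : ℝ) / w := by
    apply div_nonneg _ hw0.le
    exact_mod_cast (by omega : 0 ≤ D / 16)
  have hM0' : (0 : ℝ) ≤ (M : ℝ) := by exact_mod_cast hM0
  have h5 : (((2 * (M + 1) + 1 : ℤ) : ℝ) + ((D / 16 : ℤ) : ℝ) / w) ^ 2 ≤
      (8 * ((D : ℝ) / w)) ^ 2 := by
    apply pow_le_pow_left₀
    · push_cast at hb0 ⊢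
      positivity
    · push_cast at hb ⊢
      linarith
  calc (f w (D / 16)) ^ 2 * ∑ z' ∈ Z,
        (((D / 16 : ℤ) : ℝ) / cl (N - |w * z'.1|) w (D / 16)) ^ γ *
        (((D / 16 : ℤ) : ℝ) / cl (N' - |w * z'.2|) w (D / 16)) ^ γ
      ≤ (f w (D / 16)) ^ 2 *
        (C₂ * (((2 * (M + 1) + 1 : ℤ) : ℝ) + ((D / 16 : ℤ) : ℝ) / w) ^ 2) :=
        mul_le_mul_of_nonneg_left hs (by positivity)
    _ ≤ (f w (D / 16)) ^ 2 * (C₂ * (8 * ((D : ℝ) / w)) ^ 2) := by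
        apply mul_le_mul_of_nonneg_left _ (by positivity)
        exact mul_le_mul_of_nonneg_left h5 hC₂.le
    _ = 64 * C₂ * ((D : ℝ) / w * f w (D / 16)) ^ 2 := by ring

end FI

end SC
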