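import Pool.Agent.Lib_MP_e0a489.FI10

/-!
# MP_e0a489, module FI, analysis 5: multiplicativity of `gg`, dyadic sum
-/

set_option autoImplicit false

namespace SC

namespace FI

private theorem ratio_mono {p w b b' : ℤ} (hw : 0 < w) (h1 : w ≤ b) (h2 : b ≤ b') :
    ((b : ℝ) / cl p w b) ≤ (b' : ℝ) / cl p w b' := by
  have e1 : 0 < cl p w b := lt_of_lt_of_le hw (le_max_left _ _)
  have e2 : 0 < cl p w b' := lt_of_lt_of_le hw (le_max_left _ _)
  have e1' : (0 : ℝ) < cl p w b := by exact_mod_cast e1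
  have e2' : (0 : ℝ) < cl p w b' := by exact_mod_cast e2
  rw [div_le_div_iff₀ e1' e2']
  have key : b * cl p w b' ≤ b' * cl p w b := by
    unfold cl
    rcases le_total p w with hp | hp
    · have a1 : max w (min p b) = w := max_eq_left (le_trans (min_le_left _ _) hp)
      have a2 : max w (min p b') = w := max_eq_left (le_trans (min_le_left _ _) hp)
      rw [a1, a2]
      nlinarith
    · rcases le_total p b with hb | hb
      · have a1 : max w (min p b) = p := by rw [min_eq_left hb, max_eq_right hp]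
        have a2 : max w (min p b') = p := by rw [min_eq_left (le_trans hb h2), max_eq_right hp]
        rw [a1, a2]
        nlinarith
      · have a1 : max w (min p b) = b := by rw [min_eq_right hb, max_eq_right h1]
        have a2 : max w (min p b') ≤ b' := max_le (le_trans h1 h2) (min_le_right _ _)
        rw [a1]
        nlinarith
  exact_mod_cast key

private theorem ratio_mul {p w r n : ℤ} (hw : 0 < w) (h1 : w ≤ r) (h2 : r ≤ n) :
    ((r : ℝ) / cl p w r) * ((n : ℝ) / cl p r n) = (n : ℝ) / cl p w n := by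
  have hr : (0 : ℝ) < r := by exact_mod_cast lt_of_lt_of_le hw h1
  have hn : (0 : ℝ) < n := by exact_mod_cast lt_of_lt_of_le hw (le_trans h1 h2)
  unfold cl
  rcases le_total p w with hp | hp
  · have a1 : max w (min p r) = w := max_eq_left (le_trans (min_le_left _ _) hp)
    have a2 : max w (min p n) = w := max_eq_left (le_trans (min_le_left _ _) hp)
    have a3 : max r (min p n) = r := max_eq_left (le_trans (min_le_left _ _) (le_trans hp h1))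
    rw [a1, a2, a3]
    field_simp
  · rcases le_total p r with hb | hb
    · have a1 : max w (min p r) = p := by rw [min_eq_left hb, max_eq_right hp]
      have a2 : max w (min p n) = p := by rw [min_eq_left (le_trans hb h2), max_eq_right hp]
      have a3 : max r (min p n) = r := by rw [min_eq_left (le_trans hb h2), max_eq_left hb]
      rw [a1, a2, a3]
      have hp0 : (0 : ℝ) < p := by exact_mod_cast lt_of_lt_of_le hw hp
      field_simp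
    · have a1 : max w (min p r) = r := by rw [min_eq_right hb, max_eq_right h1]
      have a2 : max w (min p n) = min p n := max_eq_right (le_min hp (le_trans h1 h2))
      have a3 : max r (min p n) = min p n := max_eq_right (le_min hb h2)
      rw [a1, a2, a3]
      field_simp

private theorem ratio_nonneg {p w b : ℤ} (hw : 0 < w) (h1 : w ≤ b) :
    0 ≤ ((b : ℝ) / cl p w b) := by
  have e1 : 0 < cl p w b := lt_of_lt_of_le hw (le_max_left _ _)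
  have e1' : (0 : ℝ) < cl p w b := by exact_mod_cast e1
  have hb : (0 : ℝ) < b := by exact_mod_cast lt_of_lt_of_le hw h1
  positivity

/-- Multiplicativity.  Put `ρ = min (4 D) n`, `w ≤ D / 16 ≤ ρ ≤ n`.
(1) `gg w (D/16) ≤ C₁ gg w ρ`: `f w (D/16) ≤ C^4 128^4 f w ρ` by `AG.cmp` with `K = 128` (`ρ ≤ 4 D ≤ 128 (D/16)`), and `b ↦ b / cl p w b` is
nondecreasing for `b ≥ w` (if `p ≤ w` it is `b / w`; if `w < p ≤ b` it is `b / p`; if `b < p` it is `1`; always at least `1`).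
(2) `(ρ / cl p w ρ) * (n / cl p ρ n) = n / cl p w n` (cases `p ≤ w`, `w < p ≤ ρ`, `ρ < p`).
(3) `f w ρ * f ρ n ≤ C f w n` (`qm`). -/
theorem AG.gg_mul {f : ℤ → ℤ → ℝ} {C γ : ℝ} {R₀ : ℤ} (h : AG f C γ R₀) : ∃ C' : ℝ, 0 < C' ∧
    ∀ (N N' w D n : ℤ) (x : ℤ × ℤ), R₀ ≤ w → 16 * w ≤ D → w ≤ n → D ≤ 16 * n →
      gg f γ N N' w (D / 16) x * gg f γ N N' (min (4 * D) n) n x ≤ C' * gg f γ N N' w n x := by
  have hC := h.C1
  have hg := h.g0
  refine ⟨(C ^ 4 * 128 ^ 4) ^ 2 * C ^ 2, by positivity, ?_⟩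
  intro N N' w D n x h1 h2 h3 h4
  have hw : 0 < w := by have := h.R16; omega
  set r : ℤ := min (4 * D) n with hr
  have r1 : D / 16 ≤ r := by
    refine le_min ?_ ?_ <;> omega
  have r2 : w ≤ D / 16 := by omega
  have r3 : r ≤ n := min_le_right _ _
  have r4 : w ≤ r := le_trans r2 r1
  have r5 : r ≤ 128 * (D / 16) := by
    have : r ≤ 4 * D := min_le_left _ _
    have := h.R16
    omega
  have c1 : f w (D / 16) ≤ C ^ 4 * 128 ^ 4 * f w r := by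
    refine h.cmp (K := 128) (by norm_num) h1 h1 ?_ ?_
    · have : (0 : ℝ) < w := by exact_mod_cast hw
      linarith
    · exact_mod_cast r5
  have c2 : f w r * f r n ≤ C * f w n := h.qm w r n h1 r4 r3
  have n1 := h.nn w (D / 16)
  have n2 := h.nn w r
  have n3 := h.nn r n
  have n4 := h.nn w n
  unfold gg
  have m1 : ((((D / 16 : ℤ) : ℝ)) / cl (N - |x.1|) w (D / 16)) ^ γ ≤ ((r : ℝ) / cl (N - |x.1|) w r) ^ γ :=
    Real.rpow_le_rpow (ratio_nonneg hw r2) (ratio_mono hw r2 r1) hg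
  have m2 : ((((D / 16 : ℤ) : ℝ)) / cl (N' - |x.2|) w (D / 16)) ^ γ ≤ ((r : ℝ) / cl (N' - |x.2|) w r) ^ γ :=
    Real.rpow_le_rpow (ratio_nonneg hw r2) (ratio_mono hw r2 r1) hg
  have k1 : ((r : ℝ) / cl (N - |x.1|) w r) ^ γ * ((n : ℝ) / cl (N - |x.1|) r n) ^ γ =
      ((n : ℝ) / cl (N - |x.1|) w n) ^ γ := by
    rw [← Real.mul_rpow (ratio_nonneg hw r4) (ratio_nonneg (lt_of_lt_of_le hw r4) r3), ratio_mul hw r4 r3]
  have k2 : ((r : ℝ) / cl (N' - |x.2|) w r) ^ γ * ((n : ℝ) / cl (N' - |x.2|) r n) ^ γ =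
      ((n : ℝ) / cl (N' - |x.2|) w n) ^ γ := by
    rw [← Real.mul_rpow (ratio_nonneg hw r4) (ratio_nonneg (lt_of_lt_of_le hw r4) r3), ratio_mul hw r4 r3]
  have q1 : 0 ≤ ((((D / 16 : ℤ) : ℝ)) / cl (N - |x.1|) w (D / 16)) ^ γ :=
    Real.rpow_nonneg (ratio_nonneg hw r2) _
  have q2 : 0 ≤ ((((D / 16 : ℤ) : ℝ)) / cl (N' - |x.2|) w (D / 16)) ^ γ :=
    Real.rpow_nonneg (ratio_nonneg hw r2) _
  have q3 : 0 ≤ ((r : ℝ) / cl (N - |x.1|) w r) ^ γ := Real.rpow_nonneg (ratio_nonneg hw r4) _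
  have q4 : 0 ≤ ((r : ℝ) / cl (N' - |x.2|) w r) ^ γ := Real.rpow_nonneg (ratio_nonneg hw r4) _
  have q5 : 0 ≤ ((n : ℝ) / cl (N - |x.1|) r n) ^ γ :=
    Real.rpow_nonneg (ratio_nonneg (lt_of_lt_of_le hw r4) r3) _
  have q6 : 0 ≤ ((n : ℝ) / cl (N' - |x.2|) r n) ^ γ :=
    Real.rpow_nonneg (ratio_nonneg (lt_of_lt_of_le hw r4) r3) _
  rw [← k1, ← k2]
  generalize ((((D / 16 : ℤ) : ℝ)) / cl (N - |x.1|) w (D / 16)) ^ γ = A1 at *
  generalize ((((D / 16 : ℤ) : ℝ)) / cl (N' - |x.2|) w (D / 16)) ^ γ = A2 at *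
  generalize ((r : ℝ) / cl (N - |x.1|) w r) ^ γ = B1 at *
  generalize ((r : ℝ) / cl (N' - |x.2|) w r) ^ γ = B2 at *
  generalize ((n : ℝ) / cl (N - |x.1|) r n) ^ γ = E1 at *
  generalize ((n : ℝ) / cl (N' - |x.2|) r n) ^ γ = E2 at *
  calc (f w (D / 16)) ^ 2 * A1 * A2 * ((f r n) ^ 2 * E1 * E2)
      ≤ (C ^ 4 * 128 ^ 4 * f w r) ^ 2 * B1 * B2 * ((f r n) ^ 2 * E1 * E2) := by gcongr
    _ = (C ^ 4 * 128 ^ 4) ^ 2 * (f w r * f r n) ^ 2 * (B1 * E1) * (B2 * E2) := by ring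
    _ ≤ (C ^ 4 * 128 ^ 4) ^ 2 * (C * f w n) ^ 2 * (B1 * E1) * (B2 * E2) := by gcongr
    _ = (C ^ 4 * 128 ^ 4) ^ 2 * C ^ 2 * ((f w n) ^ 2 * (B1 * E1) * (B2 * E2)) := by ring

/-- Dyadic sum.  With `D = 2 ^ j * d₀`: `f w (D/16) ≤ C^4 32^4 f w D` (`AG.cmp`, `K = 32`, `D ≤ 32 (D/16)`),
`f w D ≤ f w d₀ * f d₀ D ≤ f w d₀ * C (d₀ / D)^(1+c)` (`sub`, `up`), so the term is at most
`(C₁ (d₀/w) f w d₀ 2^(-j c))²`; geometric series `∑ 4^(-j c) ≤ 1 / (1 - 4^(-c))`; finally `d₀ ≤ d` and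
`f w d₀ ≤ C^4 4^4 f w d` (`AG.cmp`, `K = 4`). -/
theorem AF.dyadic {f : ℤ → ℤ → ℝ} {C c γ : ℝ} {R₀ : ℤ} (h : AF f C c γ R₀) : ∃ C' : ℝ, 0 < C' ∧
    ∀ (w d d₀ : ℤ) (J : ℕ), R₀ ≤ w → 16 * w ≤ d₀ → d₀ ≤ d → d ≤ 4 * d₀ →
      ∑ j ∈ Finset.range J, (((2 ^ j * d₀ : ℤ) : ℝ) / w * f w (2 ^ j * d₀ / 16)) ^ 2 ≤
        C' * ((d : ℝ) / w * f w d) ^ 2 := by
  have hC := h.C1
  have hc := h.c0
  set q : ℝ := (4 : ℝ) ^ (-c) with hq
  have q0 : 0 < q := Real.rpow_pos_of_pos (by norm_num) _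
  have q1 : q < 1 := Real.rpow_lt_one_of_one_lt_of_neg (by norm_num) (by linarith)
  refine ⟨(C ^ 4 * 32 ^ 4 * C) ^ 2 * (C ^ 4 * 4 ^ 4) ^ 2 * (1 - q)⁻¹, by
    have : 0 < 1 - q := by linarith
    positivity, ?_⟩
  intro w d d₀ J h1 h2 h3 h4
  have hw : 0 < w := by have := h.R16; omega
  have hwR : (0 : ℝ) < w := by exact_mod_cast hw
  have hd₀ : (0 : ℝ) < d₀ := by
    have : 0 < d₀ := by omega
    exact_mod_cast this
  have c4 : f w d₀ ≤ C ^ 4 * 4 ^ 4 * f w d := by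
    refine h.toAG.cmp (K := 4) (by norm_num) h1 h1 ?_ ?_
    · linarith
    · exact_mod_cast h4
  have n0 := h.nn w d₀
  have nd := h.nn w d
  have hdd : ((d₀ : ℝ) / w) ≤ (d : ℝ) / w := by
    have : (d₀ : ℝ) ≤ d := by exact_mod_cast h3
    gcongr
  have term : ∀ j : ℕ, (((2 ^ j * d₀ : ℤ) : ℝ) / w * f w (2 ^ j * d₀ / 16)) ^ 2 ≤
      ((C ^ 4 * 32 ^ 4 * C) ^ 2 * (C ^ 4 * 4 ^ 4) ^ 2 * ((d : ℝ) / w * f w d) ^ 2) * q ^ j := by
    intro j
    set D : ℤ := 2 ^ j * d₀ with hD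
    have p2 : (1 : ℤ) ≤ 2 ^ j := one_le_pow₀ (by norm_num)
    have hDd : d₀ ≤ D := by
      have : 0 < d₀ := by omega
      nlinarith
    have hD0 : (0 : ℝ) < D := lt_of_lt_of_le hd₀ (by exact_mod_cast hDd)
    have a1 : f w (D / 16) ≤ C ^ 4 * 32 ^ 4 * f w D := by
      refine h.toAG.cmp (K := 32) (by norm_num) h1 h1 ?_ ?_
      · linarith
      · have : D ≤ 32 * (D / 16) := by
          have := h.R16
          omega
        exact_mod_cast this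
    have a2 : f w D ≤ f w d₀ * f d₀ D := h.sub w d₀ D hw.le (by omega) hDd
    have a3 : f d₀ D ≤ C * ((d₀ : ℝ) / D) ^ (1 + c) := h.up d₀ D (by have := h.R16; omega) hDd
    have e1 : ((d₀ : ℝ) / D) = (2 : ℝ) ^ (-(j : ℝ)) := by
      rw [hD]
      push_cast
      rw [Real.rpow_neg (by norm_num), Real.rpow_natCast]
      field_simp
    have e2 : ((d₀ : ℝ) / D) ^ (1 + c) = ((d₀ : ℝ) / D) * ((2 : ℝ) ^ (-(c : ℝ))) ^ j := by
      rw [Real.rpow_add (by positivity), Real.rpow_one]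
      congr 1
      rw [e1, ← Real.rpow_mul (by norm_num), ← Real.rpow_natCast, ← Real.rpow_mul (by norm_num)]
      congr 1
      ring
    have e3 : (((2 : ℝ) ^ (-(c : ℝ))) ^ j) ^ 2 = q ^ j := by
      rw [← pow_mul, mul_comm j 2, pow_mul, hq]
      congr 1
      rw [← Real.rpow_natCast, ← Real.rpow_mul (by norm_num)]
      have : (4 : ℝ) = (2 : ℝ) ^ (2 : ℝ) := by norm_num
      rw [this, ← Real.rpow_mul (by norm_num)]
      congr 1
      push_cast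
      ring
    have nD := h.nn w (D / 16)
    have b1 : ((D : ℝ) / w) * f w (D / 16) ≤
        (C ^ 4 * 32 ^ 4 * C) * (C ^ 4 * 4 ^ 4) * ((d : ℝ) / w * f w d) * ((2 : ℝ) ^ (-(c : ℝ))) ^ j := by
      have u0 : 0 ≤ ((2 : ℝ) ^ (-(c : ℝ))) ^ j := by positivity
      calc ((D : ℝ) / w) * f w (D / 16) ≤ ((D : ℝ) / w) * (C ^ 4 * 32 ^ 4 * (f w d₀ * (C * ((d₀ : ℝ) / D) ^ (1 + c)))) := by
            gcongr
            refine le_trans a1 ?_
            gcongr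
            refine le_trans a2 ?_
            gcongr
        _ = (C ^ 4 * 32 ^ 4 * C) * ((d₀ : ℝ) / w) * f w d₀ * ((2 : ℝ) ^ (-(c : ℝ))) ^ j := by
            rw [e2]
            field_simp
        _ ≤ (C ^ 4 * 32 ^ 4 * C) * ((d : ℝ) / w) * (C ^ 4 * 4 ^ 4 * f w d) * ((2 : ℝ) ^ (-(c : ℝ))) ^ j := by
            have dd : (0 : ℝ) ≤ (d : ℝ) / w := le_trans (by positivity) hdd
            have : 0 ≤ C ^ 4 * 32 ^ 4 * C * ((d : ℝ) / w) := mul_nonneg (by positivity) dd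
            gcongr
        _ = (C ^ 4 * 32 ^ 4 * C) * (C ^ 4 * 4 ^ 4) * ((d : ℝ) / w * f w d) * ((2 : ℝ) ^ (-(c : ℝ))) ^ j := by
            ring
    calc (((D : ℤ) : ℝ) / w * f w (D / 16)) ^ 2 ≤
        ((C ^ 4 * 32 ^ 4 * C) * (C ^ 4 * 4 ^ 4) * ((d : ℝ) / w * f w d) * ((2 : ℝ) ^ (-(c : ℝ))) ^ j) ^ 2 := by
          gcongr
      _ = ((C ^ 4 * 32 ^ 4 * C) ^ 2 * (C ^ 4 * 4 ^ 4) ^ 2 * ((d : ℝ) / w * f w d) ^ 2) * q ^ j := by
          rw [← e3]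
          ring
  calc ∑ j ∈ Finset.range J, (((2 ^ j * d₀ : ℤ) : ℝ) / w * f w (2 ^ j * d₀ / 16)) ^ 2 ≤
      ∑ j ∈ Finset.range J, ((C ^ 4 * 32 ^ 4 * C) ^ 2 * (C ^ 4 * 4 ^ 4) ^ 2 * ((d : ℝ) / w * f w d) ^ 2) * q ^ j :=
        Finset.sum_le_sum (fun j _ => term j)
    _ = ((C ^ 4 * 32 ^ 4 * C) ^ 2 * (C ^ 4 * 4 ^ 4) ^ 2 * ((d : ℝ) / w * f w d) ^ 2) * ∑ j ∈ Finset.range J, q ^ j := by
        rw [Finset.mul_sum]
    _ ≤ ((C ^ 4 * 32 ^ 4 * C) ^ 2 * (C ^ 4 * 4 ^ 4) ^ 2 * ((d : ℝ) / w * f w d) ^ 2) * (1 - q)⁻¹ := by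
        gcongr
        rw [← tsum_geometric_of_lt_one q0.le q1]
        exact (summable_geometric_of_lt_one q0.le q1).sum_le_tsum _ (fun i _ => by positivity)
    _ = (C ^ 4 * 32 ^ 4 * C) ^ 2 * (C ^ 4 * 4 ^ 4) ^ 2 * (1 - q)⁻¹ * ((d : ℝ) / w * f w d) ^ 2 := by ring

end FI

end SC
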