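import Pool.Agent.Lib_MP_e0a489.FI10

/-!
# MP_e0a489, module FI, analysis 5b: `(R / r) f r R`, growth
-/

set_option autoImplicit false

namespace SC

namespace FI

/-- Change of both radii by bounded factors: `f r' R' ≥ C⁻⁴ K⁻⁴ f r R` (`AG.cmp`), `R / r ≤ K² R' / r'`. -/
theorem AG.phi {f : ℤ → ℤ → ℝ} {C γ : ℝ} {R₀ : ℤ} (h : AG f C γ R₀) {K : ℝ} (hK : 1 ≤ K)
    {r R r' R' : ℤ} (h1 : R₀ ≤ r) (h1' : R₀ ≤ r') (h2 : (r : ℝ) ≤ K * r') (h4 : (r' : ℝ) ≤ K * r)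
    (h3 : (R' : ℝ) ≤ K * R) (h5 : (R : ℝ) ≤ K * R') (h0 : 0 ≤ R) :
    (R : ℝ) / r * f r R ≤ C ^ 4 * K ^ 6 * ((R' : ℝ) / r' * f r' R') := by
  have hc := h.cmp hK h1 h1' h2 h3
  have hr : (0 : ℝ) < r := by exact_mod_cast (show 0 < r by have := h.R16; omega)
  have hr' : (0 : ℝ) < r' := by exact_mod_cast (show 0 < r' by have := h.R16; omega)
  have hR : (0 : ℝ) ≤ R := by exact_mod_cast h0
  have hKp : 0 < K := by linarith
  have hR' : (0 : ℝ) ≤ R' := by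
    by_contra hcon
    push Not at hcon
    have := mul_neg_of_pos_of_neg hKp hcon
    linarith
  have hf := h.nn r' R'
  have hf1 := h.nn r R
  have e1 : (R : ℝ) / r ≤ K ^ 2 * ((R' : ℝ) / r') := by
    rw [← mul_div_assoc, div_le_div_iff₀ hr hr']
    calc (R : ℝ) * r' ≤ (K * R') * (K * r) := mul_le_mul h5 h4 hr'.le (by positivity)
      _ = K ^ 2 * R' * r := by ring
  calc (R : ℝ) / r * f r R ≤ (K ^ 2 * ((R' : ℝ) / r')) * (C ^ 4 * K ^ 4 * f r' R') :=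
        mul_le_mul e1 hc hf1 (by positivity)
    _ = C ^ 4 * K ^ 6 * ((R' : ℝ) / r' * f r' R') := by ring

/-- Growth of `r² f R₀ r`: `f R₀ r * f r (K r) ≤ C f R₀ (K r)` (`qm`), `f r (K r) ≥ C⁻¹ K^(-2γ)` (`lo`), so
`(K r)² f R₀ (K r) ≥ K^(2-2γ) C⁻² r² f R₀ r`; choose `K` with `K^(2-2γ) ≥ A C²` (`γ < 1`). -/
theorem AF.growth {f : ℤ → ℤ → ℝ} {C c γ : ℝ} {R₀ : ℤ} (h : AF f C c γ R₀) (A : ℝ) :
    ∃ K : ℤ, 1 ≤ K ∧ ∀ r : ℤ, R₀ ≤ r →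
      A * ((r : ℝ) ^ 2 * f R₀ r) ≤ ((K * r : ℤ) : ℝ) ^ 2 * f R₀ (K * r) := by
  have hC0 : 0 < C := by linarith [h.C1]
  have hg : 0 < 2 - 2 * γ := by linarith [h.g1']
  have ht := (tendsto_rpow_atTop hg).comp (tendsto_natCast_atTop_atTop (R := ℝ))
  obtain ⟨n, hn1, hn2⟩ := ((ht.eventually_ge_atTop (A * C ^ 2)).and
    (Filter.eventually_ge_atTop 1)).exists
  simp only [Function.comp_apply] at hn1
  refine ⟨(n : ℤ), by exact_mod_cast hn2, ?_⟩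
  intro r hr
  have hr0 : 0 < r := by have := h.R16; omega
  have hr0' : (0 : ℝ) < r := by exact_mod_cast hr0
  have hn0 : (1 : ℝ) ≤ (n : ℝ) := by exact_mod_cast hn2
  have hnp : (0 : ℝ) < (n : ℝ) := by linarith
  have hle : r ≤ (n : ℤ) * r := by
    have : (1 : ℤ) ≤ n := by exact_mod_cast hn2
    nlinarith
  have hq := h.qm (R₀) r ((n : ℤ) * r) le_rfl hr hle
  have hl := h.lo r ((n : ℤ) * r) hr hle
  have hf := h.nn R₀ r
  have e0 : (r : ℝ) / (((n : ℤ) * r : ℤ) : ℝ) = ((n : ℝ))⁻¹ := by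
    push_cast
    field_simp
  rw [e0, Real.inv_rpow hnp.le] at hl
  have e1 : (n : ℝ) ^ (2 - 2 * γ) = (n : ℝ) ^ 2 * ((n : ℝ) ^ (2 * γ))⁻¹ := by
    rw [Real.rpow_sub hnp, div_eq_mul_inv]
    norm_num
  set g : ℝ := ((n : ℝ) ^ (2 * γ))⁻¹ with hgd
  have hg0 : 0 < g := inv_pos.2 (Real.rpow_pos_of_pos hnp _)
  have e2 : f R₀ r * g ≤ C ^ 2 * f R₀ ((n : ℤ) * r) := by
    have h3 : f R₀ r * g ≤ f R₀ r * (C * f r ((n : ℤ) * r)) := mul_le_mul_of_nonneg_left hl hf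
    nlinarith
  have e3 : A * C ^ 2 ≤ (n : ℝ) ^ 2 * g := by rw [← e1]; exact hn1
  have e4 : A * f R₀ r ≤ (n : ℝ) ^ 2 * f R₀ ((n : ℤ) * r) := by
    have h5 : C ^ 2 * (A * f R₀ r) ≤ C ^ 2 * ((n : ℝ) ^ 2 * f R₀ ((n : ℤ) * r)) := by
      calc C ^ 2 * (A * f R₀ r) = (A * C ^ 2) * f R₀ r := by ring
        _ ≤ ((n : ℝ) ^ 2 * g) * f R₀ r := mul_le_mul_of_nonneg_right e3 hf
        _ = (n : ℝ) ^ 2 * (f R₀ r * g) := by ring
        _ ≤ (n : ℝ) ^ 2 * (C ^ 2 * f R₀ ((n : ℤ) * r)) :=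
            mul_le_mul_of_nonneg_left e2 (by positivity)
        _ = C ^ 2 * ((n : ℝ) ^ 2 * f R₀ ((n : ℤ) * r)) := by ring
    exact le_of_mul_le_mul_left h5 (by positivity)
  calc A * ((r : ℝ) ^ 2 * f R₀ r) = (r : ℝ) ^ 2 * (A * f R₀ r) := by ring
    _ ≤ (r : ℝ) ^ 2 * ((n : ℝ) ^ 2 * f R₀ ((n : ℤ) * r)) :=
        mul_le_mul_of_nonneg_left e4 (by positivity)
    _ = ((((n : ℤ) * r : ℤ) : ℝ)) ^ 2 * f R₀ ((n : ℤ) * r) := by push_cast; ring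

/-- `(d / r) f r d ≥ c' > 0` if `d ≤ K r` (`lo`). -/
theorem AG.phi_low {f : ℤ → ℤ → ℝ} {C γ : ℝ} {R₀ : ℤ} (h : AG f C γ R₀) {K : ℝ} (hK : 1 ≤ K) :
    ∃ c' : ℝ, 0 < c' ∧ ∀ r d : ℤ, R₀ ≤ r → r ≤ d → (d : ℝ) ≤ K * r →
      c' ≤ ((d : ℝ) / r * f r d) ^ 2 := by
  have hC0 : 0 < C := by linarith [h.C1]
  have hKp : 0 < K := by linarith
  refine ⟨(1 / (C * K ^ 2)) ^ 2, by positivity, ?_⟩
  intro r d hr hrd hd
  have hr0 : (0 : ℝ) < r := by exact_mod_cast (show 0 < r by have := h.R16; omega)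
  have hrd' : (r : ℝ) ≤ d := by exact_mod_cast hrd
  have hd0 : (0 : ℝ) < d := by linarith
  have hl := h.lo r d hr hrd
  have e1 : 1 / K ≤ (r : ℝ) / d := by
    rw [div_le_div_iff₀ hKp hd0]
    linarith
  have e2 : (1 / K) ^ 2 ≤ ((r : ℝ) / d) ^ (2 * γ) := by
    calc (1 / K) ^ 2 ≤ ((r : ℝ) / d) ^ 2 := pow_le_pow_left₀ (by positivity) e1 2
      _ = ((r : ℝ) / d) ^ (2 : ℝ) := by norm_num
      _ ≤ ((r : ℝ) / d) ^ (2 * γ) :=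
          Real.rpow_le_rpow_of_exponent_ge (by positivity) ((div_le_one hd0).2 hrd')
            (by linarith [h.g1])
  have e3 : 1 / (C * K ^ 2) ≤ f r d := by
    rw [div_le_iff₀ (by positivity)]
    have h4 : (1 / K) ^ 2 ≤ C * f r d := e2.trans hl
    rw [div_pow, one_pow, div_le_iff₀ (by positivity)] at h4
    linarith
  have e4 : 1 / (C * K ^ 2) ≤ (d : ℝ) / r * f r d := by
    have h5 : 1 ≤ (d : ℝ) / r := by rw [le_div_iff₀ hr0]; linarith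
    have h6 := h.nn r d
    nlinarith
  exact pow_le_pow_left₀ (by positivity) e4 2

end FI

end SC
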