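import Pool.Agent.Lib_MP_e0a489.FI13
import Pool.Agent.Lib_MP_e0a489.FI14

/-!
# MP_e0a489, module FI, analysis 6: sum over pairs of blocks
-/

set_option autoImplicit false

namespace SC

namespace FI

/-- every integer `m > d₀ ≥ 1` lies in exactly one dyadic interval `(2 ^ j d₀, 2 ^ (j+1) d₀]` -/
theorem exists_dyadic {d₀ m : ℤ} (h0 : 1 ≤ d₀) (h : d₀ < m) :
    ∃ j : ℕ, 2 ^ j * d₀ < m ∧ m ≤ 2 * (2 ^ j * d₀) := by
  have hex : ∃ j : ℕ, m ≤ 2 ^ j * d₀ := by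
    refine ⟨m.toNat, ?_⟩
    have h1 : (m.toNat : ℤ) < 2 ^ m.toNat := by exact_mod_cast Nat.lt_two_pow_self
    have h2 : m ≤ (m.toNat : ℤ) := Int.self_le_toNat m
    have h3 : (2 : ℤ) ^ m.toNat * 1 ≤ 2 ^ m.toNat * d₀ :=
      mul_le_mul_of_nonneg_left h0 (by positivity)
    linarith
  classical
  have hs := Nat.find_spec hex
  have hm : ∀ i : ℕ, i < Nat.find hex → ¬ m ≤ 2 ^ i * d₀ := fun i hi => Nat.find_min hex hi
  generalize Nat.find hex = k at hs hm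
  cases k with
  | zero =>
    rw [pow_zero, one_mul] at hs
    omega
  | succ k =>
    refine ⟨k, ?_, ?_⟩
    · exact not_le.1 (hm k (Nat.lt_succ_self k))
    · calc m ≤ 2 ^ (k + 1) * d₀ := hs
        _ = 2 * (2 ^ k * d₀) := by ring

private theorem fi15_gg_nonneg (f : ℤ → ℤ → ℝ) (γ : ℝ) (N N' : ℤ) {a b : ℤ} (ha : 0 < a)
    (hb : 0 ≤ b) (x : ℤ × ℤ) : 0 ≤ gg f γ N N' a b x := by
  have hb' : (0 : ℝ) ≤ (b : ℝ) := by exact_mod_cast hb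
  have key : ∀ p : ℤ, 0 ≤ ((b : ℝ) / cl p a b) := by
    intro p
    have h1 : 0 < cl p a b := lt_of_lt_of_le ha (le_max_left _ _)
    have h2 : (0 : ℝ) < cl p a b := by exact_mod_cast h1
    positivity
  unfold gg
  exact mul_nonneg (mul_nonneg (sq_nonneg _) (Real.rpow_nonneg (key _) _))
    (Real.rpow_nonneg (key _) _)

/-- One dyadic shell: for `D` with `16 w ≤ D ≤ 16 n` the sum over the pairs with `D < dist ≤ 2 D` of the bound.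
Fix `z`; `gg w (D/16) (z) * gg (min (4D) n) n (z) ≤ C gg w n (z)` (`gg_mul`); the sum over `z'` of `gg w (D/16) (z')` is at most
`C ((D/w) f w (D/16))²` (`sum_near`); sum over `z` by `sum_all`. -/
theorem AF.shell {f : ℤ → ℤ → ℝ} {C c γ : ℝ} {R₀ : ℤ} (h : AF f C c γ R₀) : ∃ C' : ℝ, 0 < C' ∧
    ∀ (w N N' n D : ℤ) (Z : Finset (ℤ × ℤ)), R₀ ≤ w → w ≤ n → N ≤ 2 * n → N' ≤ 2 * n →
      16 * w ≤ D → D ≤ 16 * n → (∀ z ∈ Z, |w * z.1| ≤ N + w ∧ |w * z.2| ≤ N' + w) →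
      ∑ p ∈ (Z ×ˢ Z).filter (fun p => D < bd2 w p.1 p.2 ∧ bd2 w p.1 p.2 ≤ 2 * D),
        (gg f γ N N' w (D / 16) (sc w p.1) * gg f γ N N' w (D / 16) (sc w p.2) *
          gg f γ N N' (min (4 * D) n) n (sc w p.1)) ≤
      C' * ((n : ℝ) / w * f w n) ^ 2 * ((D : ℝ) / w * f w (D / 16)) ^ 2 := by
  obtain ⟨Cg, hCg, Hg⟩ := h.toAG.gg_mul
  obtain ⟨Cn, hCn, Hn⟩ := h.sum_near
  obtain ⟨Ca, hCa, Ha⟩ := h.sum_all
  refine ⟨Cg * Cn * Ca, by positivity, ?_⟩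
  intro w N N' n D Z h1 h2 h3 h4 h5 h6 hZ
  have h16 := h.R16
  have hw : 1 ≤ w := by omega
  have hD : 0 < D := by omega
  have hr : 0 < min (4 * D) n := lt_min (by omega) (by omega)
  have n1 : ∀ x, 0 ≤ gg f γ N N' w (D / 16) x := fun x =>
    fi15_gg_nonneg f γ N N' (by omega) (by omega) x
  have n2 : ∀ x, 0 ≤ gg f γ N N' (min (4 * D) n) n x := fun x =>
    fi15_gg_nonneg f γ N N' hr (by omega) x
  have n3 : 0 ≤ ((D : ℝ) / w * f w (D / 16)) ^ 2 := sq_nonneg _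
  have step : ∀ z ∈ Z, ∑ z' ∈ Z, (if D < bd2 w z z' ∧ bd2 w z z' ≤ 2 * D then
        gg f γ N N' w (D / 16) (sc w z) * gg f γ N N' w (D / 16) (sc w z') *
          gg f γ N N' (min (4 * D) n) n (sc w z) else 0) ≤
      (Cg * gg f γ N N' w n (sc w z)) * (Cn * ((D : ℝ) / w * f w (D / 16)) ^ 2) := by
    intro z hz
    have hsum : ∑ z' ∈ Z.filter (fun z' => bd2 w z z' ≤ 2 * D), gg f γ N N' w (D / 16) (sc w z') ≤
        Cn * ((D : ℝ) / w * f w (D / 16)) ^ 2 := by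
      refine Hn w N N' D z (Z.filter (fun z' => bd2 w z z' ≤ 2 * D)) hw h5 ?_ ?_
      · intro z' hz'
        exact hZ z' (Finset.mem_filter.1 hz').1
      · intro z' hz'
        exact (Finset.mem_filter.1 hz').2
    have hle : ∑ z' ∈ Z, (if D < bd2 w z z' ∧ bd2 w z z' ≤ 2 * D then
        gg f γ N N' w (D / 16) (sc w z) * gg f γ N N' w (D / 16) (sc w z') *
          gg f γ N N' (min (4 * D) n) n (sc w z) else 0) ≤
        ∑ z' ∈ Z, (if bd2 w z z' ≤ 2 * D then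
          (gg f γ N N' w (D / 16) (sc w z) * gg f γ N N' (min (4 * D) n) n (sc w z)) *
            gg f γ N N' w (D / 16) (sc w z') else 0) := by
      refine Finset.sum_le_sum fun z' _ => ?_
      have hnn : 0 ≤ (gg f γ N N' w (D / 16) (sc w z) *
          gg f γ N N' (min (4 * D) n) n (sc w z)) * gg f γ N N' w (D / 16) (sc w z') :=
        mul_nonneg (mul_nonneg (n1 _) (n2 _)) (n1 _)
      by_cases hc : bd2 w z z' ≤ 2 * D
      · rw [if_pos hc]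
        by_cases hc' : D < bd2 w z z' ∧ bd2 w z z' ≤ 2 * D
        · rw [if_pos hc']
          exact le_of_eq (by ring)
        · rw [if_neg hc']
          exact hnn
      · rw [if_neg hc, if_neg (fun hh => hc hh.2)]
    refine hle.trans ?_
    rw [← Finset.sum_filter, ← Finset.mul_sum]
    have hg := Hg N N' w D n (sc w z) h1 h5 h2 h6
    have hs0 : 0 ≤ ∑ z' ∈ Z.filter (fun z' => bd2 w z z' ≤ 2 * D),
        gg f γ N N' w (D / 16) (sc w z') := Finset.sum_nonneg fun z' _ => n1 _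
    have hg0 : 0 ≤ Cg * gg f γ N N' w n (sc w z) :=
      le_trans (mul_nonneg (n1 _) (n2 _)) hg
    exact mul_le_mul hg hsum hs0 hg0
  have hsum2 : ∑ p ∈ (Z ×ˢ Z).filter (fun p => D < bd2 w p.1 p.2 ∧ bd2 w p.1 p.2 ≤ 2 * D),
        (gg f γ N N' w (D / 16) (sc w p.1) * gg f γ N N' w (D / 16) (sc w p.2) *
          gg f γ N N' (min (4 * D) n) n (sc w p.1)) =
      ∑ z ∈ Z, ∑ z' ∈ Z, (if D < bd2 w z z' ∧ bd2 w z z' ≤ 2 * D then
        gg f γ N N' w (D / 16) (sc w z) * gg f γ N N' w (D / 16) (sc w z') *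
          gg f γ N N' (min (4 * D) n) n (sc w z) else 0) := by
    rw [Finset.sum_filter, Finset.sum_product]
  rw [hsum2]
  have hall := Ha w N N' n Z hw h2 h3 h4 hZ
  calc ∑ z ∈ Z, ∑ z' ∈ Z, (if D < bd2 w z z' ∧ bd2 w z z' ≤ 2 * D then
        gg f γ N N' w (D / 16) (sc w z) * gg f γ N N' w (D / 16) (sc w z') *
          gg f γ N N' (min (4 * D) n) n (sc w z) else 0)
      ≤ ∑ z ∈ Z, (Cg * gg f γ N N' w n (sc w z)) * (Cn * ((D : ℝ) / w * f w (D / 16)) ^ 2) :=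
        Finset.sum_le_sum step
    _ = (Cg * (Cn * ((D : ℝ) / w * f w (D / 16)) ^ 2)) * ∑ z ∈ Z, gg f γ N N' w n (sc w z) := by
        rw [Finset.mul_sum]
        refine Finset.sum_congr rfl fun z _ => ?_
        ring
    _ ≤ (Cg * (Cn * ((D : ℝ) / w * f w (D / 16)) ^ 2)) * (Ca * ((n : ℝ) / w * f w n) ^ 2) :=
        mul_le_mul_of_nonneg_left hall (by positivity)
    _ = Cg * Cn * Ca * ((n : ℝ) / w * f w n) ^ 2 * ((D : ℝ) / w * f w (D / 16)) ^ 2 := by ring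

/-- SUM OVER PAIRS.  `d₀ = d / 2` (floor): `16 w ≤ d₀`, `d₀ < d - w`, `d ≤ 4 d₀`.  Every pair with `d - w ≤ dist` has a number `j` with
`D < dist ≤ 2 D`, `D = 2 ^ j d₀` (`exists_dyadic`); as `dist ≤ 2 (max N N' + w) ≤ 6 n`, `D ≤ 16 n` and `j < J := (6 n).toNat + 1`.  So the sum is at
most the sum over `j < J` (with `2 ^ j d₀ ≤ 16 n`) of `M` times the shell sums; `AF.shell`, `AF.dyadic`. -/
theorem AF.pairs {f : ℤ → ℤ → ℝ} {C c γ : ℝ} {R₀ : ℤ} (h : AF f C c γ R₀) : ∃ C' : ℝ, 0 < C' ∧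
    ∀ (w N N' n d : ℤ) (Z : Finset (ℤ × ℤ)) (J : ℤ × ℤ → ℤ × ℤ → ℝ) (M : ℝ), 0 ≤ M → R₀ ≤ w →
      64 * w ≤ d → w ≤ n → N ≤ 2 * n → N' ≤ 2 * n →
      (∀ z ∈ Z, |w * z.1| ≤ N + w ∧ |w * z.2| ≤ N' + w) →
      (∀ z ∈ Z, ∀ z' ∈ Z, ∀ D : ℤ, 16 * w ≤ D → D ≤ 16 * n → D < bd2 w z z' →
        bd2 w z z' ≤ 2 * D →
        J z z' ≤ M * (gg f γ N N' w (D / 16) (sc w z) * gg f γ N N' w (D / 16) (sc w z') *
          gg f γ N N' (min (4 * D) n) n (sc w z))) →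
      ∑ p ∈ (Z ×ˢ Z).filter (fun p => d - w ≤ bd2 w p.1 p.2), J p.1 p.2 ≤
        C' * M * (((n : ℝ) / w * f w n) ^ 2 * ((d : ℝ) / w * f w d) ^ 2) := by
  obtain ⟨Cs, hCs, Hs⟩ := h.shell
  obtain ⟨Cd, hCd, Hd⟩ := h.dyadic
  refine ⟨Cs * Cd, by positivity, ?_⟩
  intro w N N' n d Z J M hM h1 h2 h3 h4 h5 hZ hJ
  have h16 := h.R16
  have hw : 16 ≤ w := by omega
  obtain ⟨d₀, hd₀⟩ : ∃ d₀ : ℤ, d₀ = d / 2 := ⟨_, rfl⟩
  have a1 : 16 * w ≤ d₀ := by omega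
  have a2 : d₀ < d - w := by omega
  have a3 : d ≤ 4 * d₀ := by omega
  have a4 : d₀ ≤ d := by omega
  have a5 : 1 ≤ d₀ := by omega
  obtain ⟨K, hK⟩ : ∃ K : ℕ, K = (6 * n).toNat + 1 := ⟨_, rfl⟩
  have hDj : ∀ j : ℕ, 16 * w ≤ 2 ^ j * d₀ := by
    intro j
    have : (1 : ℤ) ≤ 2 ^ j := one_le_pow₀ (by norm_num)
    nlinarith
  have hB : ∀ (j : ℕ) (p : (ℤ × ℤ) × (ℤ × ℤ)), 0 ≤
      gg f γ N N' w ((2 ^ j * d₀) / 16) (sc w p.1) * gg f γ N N' w ((2 ^ j * d₀) / 16) (sc w p.2) *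
        gg f γ N N' (min (4 * (2 ^ j * d₀)) n) n (sc w p.1) := by
    intro j p
    have := hDj j
    have hr : 0 < min (4 * (2 ^ j * d₀)) n := lt_min (by omega) (by omega)
    exact mul_nonneg (mul_nonneg (fi15_gg_nonneg f γ N N' (by omega) (by omega) _)
      (fi15_gg_nonneg f γ N N' (by omega) (by omega) _))
      (fi15_gg_nonneg f γ N N' hr (by omega) _)
  have hbd : ∀ z ∈ Z, ∀ z' ∈ Z, bd2 w z z' ≤ 6 * n := by
    intro z hz z' hz'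
    obtain ⟨b1, b2⟩ := hZ z hz
    obtain ⟨b3, b4⟩ := hZ z' hz'
    unfold bd2
    refine max_le ?_ ?_
    · have := abs_sub (w * z.1) (w * z'.1)
      omega
    · have := abs_sub (w * z.2) (w * z'.2)
      omega
  have hpt : ∀ p ∈ (Z ×ˢ Z).filter (fun p => d - w ≤ bd2 w p.1 p.2), J p.1 p.2 ≤
      ∑ j ∈ Finset.range K, (if (2 ^ j * d₀ ≤ 16 * n) ∧
          (2 ^ j * d₀ < bd2 w p.1 p.2 ∧ bd2 w p.1 p.2 ≤ 2 * (2 ^ j * d₀)) then
        M * (gg f γ N N' w ((2 ^ j * d₀) / 16) (sc w p.1) *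
          gg f γ N N' w ((2 ^ j * d₀) / 16) (sc w p.2) *
          gg f γ N N' (min (4 * (2 ^ j * d₀)) n) n (sc w p.1)) else 0) := by
    intro p hp
    obtain ⟨hp1, hp2⟩ := Finset.mem_filter.1 hp
    obtain ⟨hz, hz'⟩ := Finset.mem_product.1 hp1
    obtain ⟨j, c1, c2⟩ := exists_dyadic a5 (lt_of_lt_of_le a2 hp2)
    have c3 := hbd p.1 hz p.2 hz'
    have c4 : 2 ^ j * d₀ ≤ 16 * n := by omega
    have c5 : j < K := by
      have e1 : (j : ℤ) < 2 ^ j := by exact_mod_cast Nat.lt_two_pow_self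
      have e2 : (2 : ℤ) ^ j * 1 ≤ 2 ^ j * d₀ := mul_le_mul_of_nonneg_left a5 (by positivity)
      have e3 : (j : ℤ) < 6 * n := by linarith
      omega
    have c6 := hJ p.1 hz p.2 hz' (2 ^ j * d₀) (hDj j) c4 c1 c2
    refine le_trans c6 ?_
    have c7 := Finset.single_le_sum (f := fun j => (if (2 ^ j * d₀ ≤ 16 * n) ∧
          (2 ^ j * d₀ < bd2 w p.1 p.2 ∧ bd2 w p.1 p.2 ≤ 2 * (2 ^ j * d₀)) then
        M * (gg f γ N N' w ((2 ^ j * d₀) / 16) (sc w p.1) *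
          gg f γ N N' w ((2 ^ j * d₀) / 16) (sc w p.2) *
          gg f γ N N' (min (4 * (2 ^ j * d₀)) n) n (sc w p.1)) else 0))
      (fun i _ => by
        split_ifs
        · exact mul_nonneg hM (hB i p)
        · exact le_rfl) (Finset.mem_range.2 c5)
    rw [if_pos ⟨c4, c1, c2⟩] at c7
    exact c7
  have hin : ∀ j : ℕ, ∑ p ∈ Z ×ˢ Z, (if (2 ^ j * d₀ ≤ 16 * n) ∧
          (2 ^ j * d₀ < bd2 w p.1 p.2 ∧ bd2 w p.1 p.2 ≤ 2 * (2 ^ j * d₀)) then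
        M * (gg f γ N N' w ((2 ^ j * d₀) / 16) (sc w p.1) *
          gg f γ N N' w ((2 ^ j * d₀) / 16) (sc w p.2) *
          gg f γ N N' (min (4 * (2 ^ j * d₀)) n) n (sc w p.1)) else 0) ≤
      M * (Cs * ((n : ℝ) / w * f w n) ^ 2 *
        (((2 ^ j * d₀ : ℤ) : ℝ) / w * f w (2 ^ j * d₀ / 16)) ^ 2) := by
    intro j
    by_cases hc : 2 ^ j * d₀ ≤ 16 * n
    · have e1 := Hs w N N' n (2 ^ j * d₀) Z h1 h3 h4 h5 (hDj j) hc hZ
      refine le_trans (le_of_eq ?_) (mul_le_mul_of_nonneg_left e1 hM)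
      rw [Finset.mul_sum, Finset.sum_filter]
      refine Finset.sum_congr rfl fun p _ => ?_
      by_cases hc' : 2 ^ j * d₀ < bd2 w p.1 p.2 ∧ bd2 w p.1 p.2 ≤ 2 * (2 ^ j * d₀)
      · rw [if_pos hc', if_pos ⟨hc, hc'⟩]
      · rw [if_neg hc', if_neg (fun hh => hc' hh.2)]
    · have e1 : ∑ p ∈ Z ×ˢ Z, (if (2 ^ j * d₀ ≤ 16 * n) ∧
          (2 ^ j * d₀ < bd2 w p.1 p.2 ∧ bd2 w p.1 p.2 ≤ 2 * (2 ^ j * d₀)) then
        M * (gg f γ N N' w ((2 ^ j * d₀) / 16) (sc w p.1) *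
          gg f γ N N' w ((2 ^ j * d₀) / 16) (sc w p.2) *
          gg f γ N N' (min (4 * (2 ^ j * d₀)) n) n (sc w p.1)) else 0) = 0 :=
        Finset.sum_eq_zero fun p _ => if_neg (fun hh => hc hh.1)
      rw [e1]
      positivity
  have hdy := Hd w d d₀ K h1 a1 a4 a3
  calc ∑ p ∈ (Z ×ˢ Z).filter (fun p => d - w ≤ bd2 w p.1 p.2), J p.1 p.2
      ≤ ∑ p ∈ (Z ×ˢ Z).filter (fun p => d - w ≤ bd2 w p.1 p.2),
        ∑ j ∈ Finset.range K, (if (2 ^ j * d₀ ≤ 16 * n) ∧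
          (2 ^ j * d₀ < bd2 w p.1 p.2 ∧ bd2 w p.1 p.2 ≤ 2 * (2 ^ j * d₀)) then
        M * (gg f γ N N' w ((2 ^ j * d₀) / 16) (sc w p.1) *
          gg f γ N N' w ((2 ^ j * d₀) / 16) (sc w p.2) *
          gg f γ N N' (min (4 * (2 ^ j * d₀)) n) n (sc w p.1)) else 0) :=
        Finset.sum_le_sum hpt
    _ ≤ ∑ p ∈ Z ×ˢ Z,
        ∑ j ∈ Finset.range K, (if (2 ^ j * d₀ ≤ 16 * n) ∧
          (2 ^ j * d₀ < bd2 w p.1 p.2 ∧ bd2 w p.1 p.2 ≤ 2 * (2 ^ j * d₀)) then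
        M * (gg f γ N N' w ((2 ^ j * d₀) / 16) (sc w p.1) *
          gg f γ N N' w ((2 ^ j * d₀) / 16) (sc w p.2) *
          gg f γ N N' (min (4 * (2 ^ j * d₀)) n) n (sc w p.1)) else 0) := by
        refine Finset.sum_le_sum_of_subset_of_nonneg (Finset.filter_subset _ _) fun p _ _ => ?_
        refine Finset.sum_nonneg fun j _ => ?_
        split_ifs
        · exact mul_nonneg hM (hB j p)
        · exact le_rfl
    _ = ∑ j ∈ Finset.range K, ∑ p ∈ Z ×ˢ Z, (if (2 ^ j * d₀ ≤ 16 * n) ∧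
          (2 ^ j * d₀ < bd2 w p.1 p.2 ∧ bd2 w p.1 p.2 ≤ 2 * (2 ^ j * d₀)) then
        M * (gg f γ N N' w ((2 ^ j * d₀) / 16) (sc w p.1) *
          gg f γ N N' w ((2 ^ j * d₀) / 16) (sc w p.2) *
          gg f γ N N' (min (4 * (2 ^ j * d₀)) n) n (sc w p.1)) else 0) := Finset.sum_comm
    _ ≤ ∑ j ∈ Finset.range K, M * (Cs * ((n : ℝ) / w * f w n) ^ 2 *
        (((2 ^ j * d₀ : ℤ) : ℝ) / w * f w (2 ^ j * d₀ / 16)) ^ 2) :=
        Finset.sum_le_sum fun j _ => hin j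
    _ = M * (Cs * ((n : ℝ) / w * f w n) ^ 2) * ∑ j ∈ Finset.range K,
        (((2 ^ j * d₀ : ℤ) : ℝ) / w * f w (2 ^ j * d₀ / 16)) ^ 2 := by
        rw [Finset.mul_sum]
        refine Finset.sum_congr rfl fun j _ => ?_
        ring
    _ ≤ M * (Cs * ((n : ℝ) / w * f w n) ^ 2) * (Cd * ((d : ℝ) / w * f w d) ^ 2) :=
        mul_le_mul_of_nonneg_left hdy (by positivity)
    _ = Cs * Cd * M * (((n : ℝ) / w * f w n) ^ 2 * ((d : ℝ) / w * f w d) ^ 2) := by ring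

end FI

end SC
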