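import Pool.Agent.Lib_MP_e0a489.PE3

/-!
# MP_e0a489, probability toolkit 8a: block influences
-/

set_option autoImplicit false

namespace SC

open Classical

/-- number of blocks of the family `𝓑` met by `S` -/
noncomputable def cnt (𝓑 : Finset (Finset Pt)) (S : Finset Pt) : ℕ :=
  (𝓑.filter fun B => ¬ Disjoint S B).card

private theorem pg1_av_congr {G : Finset Pt} {g h : Cfg → ℝ} {ω : Cfg}
    (H : ∀ ω', (∀ v, v ∉ G → ω' v = ω v) → g ω' = h ω') : av G g ω = av G h ω :=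
  le_antisymm (av_mono fun ω' h' => (H ω' h').le) (av_mono fun ω' h' => (H ω' h').ge)

private theorem pg1_av_eq {G : Finset Pt} {g : Cfg → ℝ} {ω : Cfg} (a : ℝ)
    (H : ∀ ω', (∀ v, v ∉ G → ω' v = ω v) → g ω' = a) : av G g ω = a := by
  have h1 : av G g ω = av G (fun _ => a) ω := pg1_av_congr H
  rw [h1, av_const]

private theorem pg1_dep_av {g : Cfg → ℝ} {F : Finset Pt} (hg : Dep g (F : Set Pt))
    (G : Finset Pt) : Dep (av G g) (F : Set Pt) :=
  (hg.av G).mono Set.diff_subset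

private theorem pg1_dep_sub {g h : Cfg → ℝ} {F : Finset Pt} (hg : Dep g (F : Set Pt))
    (hh : Dep h (F : Set Pt)) : Dep (fun ω => g ω - h ω) (F : Set Pt) := by
  intro ω ω' hw
  show g ω - h ω = g ω' - h ω'
  rw [hg ω ω' hw, hh ω ω' hw]

private theorem pg1_dep_add {g h : Cfg → ℝ} {F : Finset Pt} (hg : Dep g (F : Set Pt))
    (hh : Dep h (F : Set Pt)) : Dep (fun ω => g ω + h ω) (F : Set Pt) := by
  intro ω ω' hw
  show g ω + h ω = g ω' + h ω'
  rw [hg ω ω' hw, hh ω ω' hw]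

private theorem pg1_fc1 {g : Cfg → ℝ} (hg : Lf g) (B S : Finset Pt) :
    fc (fun ω => g ω - av B g ω) S = if ¬ Disjoint S B then fc g S else 0 := by
  rw [fc_sub hg (Lf.av hg B), fc_av hg]
  by_cases h : Disjoint S B
  · rw [if_pos h, if_neg (not_not.2 h), sub_self]
  · rw [if_neg h, if_pos h, sub_zero]

/-- the positivity argument -/
private theorem pg1_key {h : Cfg → ℝ} (lh : Lf h) {J : Cfg → Prop} (lJ : Loc J) (c : ℝ)
    (hc : ∀ ω, |h ω| ≤ c * ind J ω) {κ : Pt → ℝ} (hκ : ∀ v, 0 ≤ κ v ∧ κ v ≤ 1) :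
    ex2 κ h h ≤ c ^ 2 * pr2 κ J := by
  have lI : Lf (ind J) := lJ.lf
  have la : Lf (fun ω => c * ind J ω) := lI.smul c
  have ln : Lf (fun ω => (-1) * h ω) := lh.smul (-1)
  have lm : Lf (fun ω => c * ind J ω + (-1) * h ω) := la.add ln
  have lp : Lf (fun ω => c * ind J ω + h ω) := la.add lh
  have h0 : 0 ≤ ex2 κ (fun ω => c * ind J ω + (-1) * h ω) (fun ω => c * ind J ω + h ω) := by
    refine ex2_nonneg κ hκ (fun ω => ?_) (fun ω => ?_)
    · have := (abs_le.1 (hc ω)).2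
      linarith
    · have := (abs_le.1 (hc ω)).1
      linarith
  have e1 : ex2 κ (fun ω => c * ind J ω + (-1) * h ω) (fun ω => c * ind J ω + h ω) =
      ex2 κ (fun ω => c * ind J ω) (fun ω => c * ind J ω + h ω) +
        ex2 κ (fun ω => (-1) * h ω) (fun ω => c * ind J ω + h ω) :=
    ex2_add_left la ln lp κ
  have e2 : ex2 κ (fun ω => (-1) * h ω) (fun ω => c * ind J ω + h ω) =
      (-1) * ex2 κ h (fun ω => c * ind J ω + h ω) := ex2_smul_left lh lp κ (-1)
  have e3 : ex2 κ (fun ω => c * ind J ω) (fun ω => c * ind J ω + h ω) =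
      c * ex2 κ (ind J) (fun ω => c * ind J ω + h ω) := ex2_smul_left lI lp κ c
  have e4 : ex2 κ h (fun ω => c * ind J ω + h ω) =
      c * ex2 κ (ind J) h + ex2 κ h h := by
    rw [ex2_comm lh lp, ex2_add_left la lh lh, ex2_smul_left lI lh]
  have e5 : ex2 κ (ind J) (fun ω => c * ind J ω + h ω) =
      c * ex2 κ (ind J) (ind J) + ex2 κ (ind J) h := by
    rw [ex2_comm lI lp, ex2_add_left la lh lI, ex2_smul_left lI lI, ex2_comm lh lI]
  rw [e1, e2, e3, e4, e5] at h0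
  have e6 : pr2 κ J = ex2 κ (ind J) (ind J) := rfl
  rw [e6]
  nlinarith [h0]

private theorem pg1_ind_nonneg (J : Cfg → Prop) (ω : Cfg) : 0 ≤ ind J ω := by
  unfold ind
  split_ifs <;> norm_num

private theorem pg1_ind_le (J : Cfg → Prop) (ω : Cfg) : ind J ω ≤ 1 := by
  unfold ind
  split_ifs <;> norm_num

private theorem pg1_av_le_one {G : Finset Pt} {g : Cfg → ℝ} (g1 : ∀ ω, g ω ≤ 1) (ω : Cfg) :
    av G g ω ≤ 1 := by
  have h1 : av G g ω ≤ av G (fun _ => (1 : ℝ)) ω := av_mono fun ω' _ => g1 ω'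
  rwa [av_const] at h1

/-- Influence of the block `B`. -/
theorem infl {g : Cfg → ℝ} {F : Finset Pt} (hg : Dep g (F : Set Pt)) (B : Finset Pt) :
    ∑ S ∈ F.powerset.filter (fun S => ¬ Disjoint S B), fc g S ^ 2 =
      ex (fun ω => (g ω - av B g ω) ^ 2) := by
  have hL : Lf g := ⟨F, hg⟩
  have hd : Dep (fun ω => g ω - av B g ω) (F : Set Pt) := pg1_dep_sub hg (pg1_dep_av hg B)
  have h1 : ex (fun ω => (g ω - av B g ω) ^ 2) =
      ex (fun ω => (g ω - av B g ω) * (g ω - av B g ω)) := by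
    congr 1
    funext ω
    ring
  rw [h1, parseval hd hd, Finset.sum_filter]
  refine Finset.sum_congr rfl (fun S _ => ?_)
  rw [pg1_fc1 hL]
  by_cases h : Disjoint S B
  · rw [if_neg (not_not.2 h), if_neg (not_not.2 h), mul_zero]
  · rw [if_pos h, if_pos h, sq]

/-- If `A` can be changed by changing the sites of `B` only on the event `J` (which does not depend
on the sites of `B`), the influence of `B` on `1_A` is at most `P(J)`. -/
theorem infl_le {A J : Cfg → Prop} {F : Finset Pt} (hA : Dep A (F : Set Pt)) (hJ : Loc J)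
    (B : Finset Pt) (h : ∀ ω ω' : Cfg, (∀ v, v ∉ B → ω v = ω' v) → ¬ J ω → (A ω ↔ A ω')) :
    ∑ S ∈ F.powerset.filter (fun S => ¬ Disjoint S B), fc (ind A) S ^ 2 ≤ pr J := by
  have hI : Dep (ind A) (F : Set Pt) := hA.ind
  have lI : Lf (ind A) := ⟨F, hI⟩
  rw [infl hI B]
  have lJ : Lf (ind J) := hJ.lf
  have ls : Lf (fun ω => (ind A ω - av B (ind A) ω) ^ 2) := by
    refine ⟨F, ?_⟩
    exact (pg1_dep_sub hI (pg1_dep_av hI B)).comp (fun x => x ^ 2)
  refine ex_mono ls lJ (fun ω => ?_)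
  by_cases hj : J ω
  · have e1 : ind J ω = 1 := by
      unfold ind
      rw [if_pos hj]
    have a1 := pg1_ind_nonneg A ω
    have a2 := pg1_ind_le A ω
    have a3 : 0 ≤ av B (ind A) ω := av_nonneg (pg1_ind_nonneg A) ω
    have a4 : av B (ind A) ω ≤ 1 := pg1_av_le_one (pg1_ind_le A) ω
    rw [e1]
    have a5 : |ind A ω - av B (ind A) ω| ≤ 1 := by
      rw [abs_le]
      constructor <;> linarith
    have a6 : (ind A ω - av B (ind A) ω) ^ 2 ≤ 1 ^ 2 := by
      rw [← sq_abs]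
      exact pow_le_pow_left₀ (abs_nonneg _) a5 2
    linarith
  · have e1 : av B (ind A) ω = ind A ω := by
      refine pg1_av_eq _ (fun ω' h' => ?_)
      have h3 : A ω ↔ A ω' := h ω ω' (fun v hv => (h' v hv).symm) hj
      unfold ind
      simp only [h3]
    rw [e1, sub_self]
    have := pg1_ind_nonneg J ω
    simpa using this

/-- Double influence with noise.  `h = g - av B g - av B' g + av (B ∪ B') g` has the Fourier
coefficients of `g` at the sets meeting both blocks, and `|h| ≤ 4 * 1_J` if on the complement of `J`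
the function `g` is, for the given configuration off `B ∪ B'`, independent of one of the blocks
(for each value of the other one). -/
theorem infl2 {g : Cfg → ℝ} {F : Finset Pt} (hg : Dep g (F : Set Pt)) (B B' : Finset Pt)
    {J : Cfg → Prop} (lJ : Loc J) (g0 : ∀ ω, 0 ≤ g ω) (g1 : ∀ ω, g ω ≤ 1)
    (h : ∀ ω, ¬ J ω → (∀ ω' ω'' : Cfg, (∀ v, v ∉ B → v ∉ B' → ω' v = ω v) →
        (∀ v, v ∉ B → ω'' v = ω' v) → g ω'' = g ω') ∨
      (∀ ω' ω'' : Cfg, (∀ v, v ∉ B → v ∉ B' → ω' v = ω v) →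
        (∀ v, v ∉ B' → ω'' v = ω' v) → g ω'' = g ω'))
    {κ : Pt → ℝ} (hκ : ∀ v, 0 ≤ κ v ∧ κ v ≤ 1) :
    ∑ S ∈ F.powerset.filter (fun S => ¬ Disjoint S B ∧ ¬ Disjoint S B'),
      (∏ v ∈ S, κ v) * fc g S ^ 2 ≤ 16 * pr2 κ J := by
  set h2 : Cfg → ℝ := fun ω => (g ω - av B g ω) - (av B' g ω - av (B ∪ B') g ω) with hh2
  have hL : Lf g := ⟨F, hg⟩
  have d1 : Dep (fun ω => g ω - av B g ω) (F : Set Pt) := pg1_dep_sub hg (pg1_dep_av hg B)
  have d2 : Dep (fun ω => av B' g ω - av (B ∪ B') g ω) (F : Set Pt) :=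
    pg1_dep_sub (pg1_dep_av hg B') (pg1_dep_av hg (B ∪ B'))
  have d3 : Dep h2 (F : Set Pt) := pg1_dep_sub d1 d2
  have l1 : Lf (fun ω => g ω - av B g ω) := ⟨F, d1⟩
  have l2 : Lf (fun ω => av B' g ω - av (B ∪ B') g ω) := ⟨F, d2⟩
  have l3 : Lf h2 := ⟨F, d3⟩
  have hf : ∀ S : Finset Pt, fc h2 S = if ¬ Disjoint S B ∧ ¬ Disjoint S B' then fc g S else 0 := by
    intro S
    have e1 : fc h2 S = fc (fun ω => g ω - av B g ω) S -
        fc (fun ω => av B' g ω - av (B ∪ B') g ω) S := fc_sub l1 l2 S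
    rw [e1, pg1_fc1 hL, fc_sub (Lf.av hL B') (Lf.av hL (B ∪ B')), fc_av hL, fc_av hL]
    have e2 : Disjoint S (B ∪ B') ↔ Disjoint S B ∧ Disjoint S B' := Finset.disjoint_union_right
    by_cases hB : Disjoint S B <;> by_cases hB' : Disjoint S B' <;> simp [hB, hB', e2]
  have hs : ∑ S ∈ F.powerset.filter (fun S => ¬ Disjoint S B ∧ ¬ Disjoint S B'),
      (∏ v ∈ S, κ v) * fc g S ^ 2 = ex2 κ h2 h2 := by
    rw [ex2_fourier d3 d3, Finset.sum_filter]
    refine Finset.sum_congr rfl (fun S _ => ?_)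
    rw [hf S]
    by_cases hS : ¬ Disjoint S B ∧ ¬ Disjoint S B'
    · rw [if_pos hS, if_pos hS, sq]
    · rw [if_neg hS, if_neg hS, mul_zero, mul_zero]
  rw [hs]
  have hb : ∀ ω, |h2 ω| ≤ 4 * ind J ω := by
    intro ω
    by_cases hj : J ω
    · have e1 : ind J ω = 1 := by
        unfold ind
        rw [if_pos hj]
      rw [e1, abs_le]
      have a1 := g0 ω
      have a2 := g1 ω
      have a3 : 0 ≤ av B g ω := av_nonneg g0 ω
      have a4 : av B g ω ≤ 1 := pg1_av_le_one g1 ω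
      have a5 : 0 ≤ av B' g ω := av_nonneg g0 ω
      have a6 : av B' g ω ≤ 1 := pg1_av_le_one g1 ω
      have a7 : 0 ≤ av (B ∪ B') g ω := av_nonneg g0 ω
      have a8 : av (B ∪ B') g ω ≤ 1 := pg1_av_le_one g1 ω
      constructor <;> simp only [hh2] <;> linarith
    · have e0 : h2 ω = 0 := by
        rcases h ω hj with hc | hc
        · have f1 : ∀ ω' : Cfg, (∀ v, v ∉ B → v ∉ B' → ω' v = ω v) → av B g ω' = g ω' := by
            intro ω' hw
            exact pg1_av_eq _ (fun ω'' h'' => hc ω' ω'' hw h'')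
          have f2 : av B g ω = g ω := f1 ω (fun _ _ _ => rfl)
          have f3 : av (B ∪ B') g ω = av B' g ω := by
            rw [Finset.union_comm, ← av_av]
            exact pg1_av_congr (fun ω' h' => f1 ω' (fun v _ hv' => h' v hv'))
          simp only [hh2]
          rw [f2, f3]
          ring
        · have f1 : ∀ ω' : Cfg, (∀ v, v ∉ B → v ∉ B' → ω' v = ω v) → av B' g ω' = g ω' := by
            intro ω' hw
            exact pg1_av_eq _ (fun ω'' h'' => hc ω' ω'' hw h'')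
          have f2 : av B' g ω = g ω := f1 ω (fun _ _ _ => rfl)
          have f3 : av (B ∪ B') g ω = av B g ω := by
            rw [← av_av]
            exact pg1_av_congr (fun ω' h' => f1 ω' (fun v hv _ => h' v hv))
          simp only [hh2]
          rw [f2, f3]
          ring
      rw [e0, abs_zero]
      have := pg1_ind_nonneg J ω
      linarith
  have hk := pg1_key l3 lJ 4 hb hκ
  have e16 : (4 : ℝ) ^ 2 = 16 := by norm_num
  rwa [e16] at hk

/-- Single influence with noise (same proof). -/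
theorem infl1 {g : Cfg → ℝ} {F : Finset Pt} (hg : Dep g (F : Set Pt)) (B : Finset Pt)
    {J : Cfg → Prop} (lJ : Loc J) (g0 : ∀ ω, 0 ≤ g ω) (g1 : ∀ ω, g ω ≤ 1)
    (h : ∀ ω, ¬ J ω → ∀ ω' ω'' : Cfg, (∀ v, v ∉ B → ω' v = ω v) →
        (∀ v, v ∉ B → ω'' v = ω v) → g ω'' = g ω')
    {κ : Pt → ℝ} (hκ : ∀ v, 0 ≤ κ v ∧ κ v ≤ 1) :
    ∑ S ∈ F.powerset.filter (fun S => ¬ Disjoint S B),
      (∏ v ∈ S, κ v) * fc g S ^ 2 ≤ 4 * pr2 κ J := by
  set h2 : Cfg → ℝ := fun ω => g ω - av B g ω with hh2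
  have hL : Lf g := ⟨F, hg⟩
  have d3 : Dep h2 (F : Set Pt) := pg1_dep_sub hg (pg1_dep_av hg B)
  have l3 : Lf h2 := ⟨F, d3⟩
  have hf : ∀ S : Finset Pt, fc h2 S = if ¬ Disjoint S B then fc g S else 0 :=
    fun S => pg1_fc1 hL B S
  have hs : ∑ S ∈ F.powerset.filter (fun S => ¬ Disjoint S B),
      (∏ v ∈ S, κ v) * fc g S ^ 2 = ex2 κ h2 h2 := by
    rw [ex2_fourier d3 d3, Finset.sum_filter]
    refine Finset.sum_congr rfl (fun S _ => ?_)
    rw [hf S]
    by_cases hS : ¬ Disjoint S B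
    · rw [if_pos hS, if_pos hS, sq]
    · rw [if_neg hS, if_neg hS, mul_zero, mul_zero]
  rw [hs]
  have hb : ∀ ω, |h2 ω| ≤ 2 * ind J ω := by
    intro ω
    by_cases hj : J ω
    · have e1 : ind J ω = 1 := by
        unfold ind
        rw [if_pos hj]
      rw [e1, abs_le]
      have a1 := g0 ω
      have a2 := g1 ω
      have a3 : 0 ≤ av B g ω := av_nonneg g0 ω
      have a4 : av B g ω ≤ 1 := pg1_av_le_one g1 ω
      constructor <;> simp only [hh2] <;> linarith
    · have f2 : av B g ω = g ω :=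
        pg1_av_eq _ (fun ω'' h'' => h ω hj ω ω'' (fun _ _ => rfl) h'')
      have e0 : h2 ω = 0 := by
        simp only [hh2]
        rw [f2, sub_self]
      rw [e0, abs_zero]
      have := pg1_ind_nonneg J ω
      linarith
  have hk := pg1_key l3 lJ 2 hb hκ
  have e16 : (2 : ℝ) ^ 2 = 4 := by norm_num
  rwa [e16] at hk

end SC
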