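import Pool.Agent.Lib_MP_e0a489.PE4
import Pool.Agent.Lib_MP_e0a489.TE2

/-!
# MP_e0a489, module SE 1: two-time calculus
-/

set_option autoImplicit false

namespace SC

open Classical

/-- admissible correlations -/
def Kap (k : Pt → ℝ) : Prop := ∀ v, 0 ≤ k v ∧ k v ≤ 1

private theorem se1_ind_nonneg (A : Cfg → Prop) (ω : Cfg) : 0 ≤ ind A ω := by
  unfold ind
  split_ifs
  · exact zero_le_one
  · exact le_rfl

private theorem se1_ind_sq (A : Cfg → Prop) : (fun ω => ind A ω ^ 2) = ind A := by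
  funext ω
  unfold ind
  split_ifs <;> norm_num

private theorem se1_ind_mul (A : Cfg → Prop) : (fun ω => ind A ω * ind A ω) = ind A := by
  funext ω
  unfold ind
  split_ifs <;> norm_num

private theorem se1_ind_and (A B : Cfg → Prop) :
    ind (fun ω => A ω ∧ B ω) = fun ω => ind A ω * ind B ω := by
  funext ω
  unfold ind
  by_cases h : A ω <;> by_cases h' : B ω <;> simp [h, h']

private theorem se1_dep_univ {g : Cfg → ℝ} (h : Lf g) : Dep g Set.univ := by
  obtain ⟨F, hF⟩ := h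
  exact hF.mono (Set.subset_univ _)

/-- `ex2_nonneg` for indicators. -/
theorem pr2_nonneg (A : Cfg → Prop) {k : Pt → ℝ} (hk : Kap k) : 0 ≤ pr2 k A := by
  exact ex2_nonneg k hk (se1_ind_nonneg A) (se1_ind_nonneg A)

/-- `ex2_le_sq` and `ind A ω ^ 2 = ind A ω`. -/
theorem pr2_le_pr {A : Cfg → Prop} (hA : Loc A) {k : Pt → ℝ} (hk : Kap k) : pr2 k A ≤ pr A := by
  have h := ex2_le_sq hA.lf k hk
  rw [se1_ind_sq] at h
  exact h

theorem pr2_le_one {A : Cfg → Prop} (hA : Loc A) {k : Pt → ℝ} (hk : Kap k) : pr2 k A ≤ 1 := by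
  exact (pr2_le_pr hA hk).trans (pr_le_one A)

/-- `ex2_mono`. -/
theorem pr2_mono {A B : Cfg → Prop} (hA : Loc A) (hB : Loc B) {k : Pt → ℝ} (hk : Kap k)
    (H : ∀ ω, A ω → B ω) : pr2 k A ≤ pr2 k B := by
  have hAB : ∀ ω, ind A ω ≤ ind B ω := by
    intro ω
    unfold ind
    by_cases h : A ω
    · rw [if_pos h, if_pos (H ω h)]
    · rw [if_neg h]
      split_ifs
      · exact zero_le_one
      · exact le_rfl
  exact ex2_mono hA.lf hA.lf hB.lf hB.lf k hk (se1_ind_nonneg A) (se1_ind_nonneg A) hAB hAB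

/-- `ex2_mono_kappa`. -/
theorem pr2_mono_k {A : Cfg → Prop} (hA : Loc A) {k k' : Pt → ℝ} (h0 : ∀ v, 0 ≤ k v)
    (h : ∀ v, k v ≤ k' v) : pr2 k A ≤ pr2 k' A := by
  exact ex2_mono_kappa hA.lf h0 h

/-- Correlation `0` gives `pr A ^ 2` (`ex2_zero` with the set of all sites), and `pr2_mono_k`. -/
theorem pr2_ge_sq {A : Cfg → Prop} (hA : Loc A) {k : Pt → ℝ} (hk : Kap k) :
    pr A ^ 2 ≤ pr2 k A := by
  have h1 : pr2 (fun _ => 0) A ≤ pr2 k A := pr2_mono_k hA (fun _ => le_rfl) (fun v => (hk v).1)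
  have h2 : pr2 (fun _ => 0) A = ex (ind A) * ex (ind A) :=
    ex2_zero hA.lf hA.lf (se1_dep_univ hA.lf) _ (fun _ _ => rfl)
  rw [h2] at h1
  rw [pow_two]
  exact h1

/-- Full correlation, `ex2_one` with the set of all sites. -/
theorem pr2_one {A : Cfg → Prop} (hA : Loc A) : pr2 (fun _ => 1) A = pr A := by
  have h2 : pr2 (fun _ => 1) A = ex (fun ω => ind A ω * ind A ω) :=
    ex2_one hA.lf hA.lf (se1_dep_univ hA.lf) _ (fun _ _ => rfl)
  rw [h2, se1_ind_mul]
  rfl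

/-- `ex2_congr`: only the correlations of the sites on which `A` depends matter. -/
theorem pr2_congr {A : Cfg → Prop} (hA : Loc A) {D : Set Pt} (hD : Dep A D) {k k' : Pt → ℝ}
    (h : ∀ v ∈ D, k v = k' v) : pr2 k A = pr2 k' A := by
  exact ex2_congr hA.lf hA.lf hD.ind h

/-- Independence, `ex2_mul` (`ind (A ∧ B) = ind A * ind B`). -/
theorem pr2_and {A B : Cfg → Prop} (lA : Loc A) (lB : Loc B) {D D' : Set Pt} (hA : Dep A D)
    (hB : Dep B D') (hDD : ∀ v ∈ D, v ∉ D') (k : Pt → ℝ) :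
    pr2 k (fun ω => A ω ∧ B ω) = pr2 k A * pr2 k B := by
  unfold pr2
  rw [se1_ind_and]
  exact ex2_mul lA.lf lA.lf lB.lf lB.lf hA.ind hA.ind hB.ind hB.ind hDD k

/-- If the correlation vanishes on `G`, a pointwise bound for the conditional probabilities given the
configuration off `G` can be squared: `pr2 k A = ex2 k (cpr G A) (cpr G A)` by `ex2_av`, `ex2_mono` (the functions are
nonnegative), `ex2_smul_left`, `ex2_comm`. -/
theorem pr2_of_cpr {A B : Cfg → Prop} (hA : Loc A) (hB : Loc B) {G : Finset Pt} {k : Pt → ℝ}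
    (hk : Kap k) (hG : ∀ v ∈ G, k v = 0) {C : ℝ} (hC : 0 ≤ C)
    (h : ∀ ω, cpr G A ω ≤ C * cpr G B ω) : pr2 k A ≤ C ^ 2 * pr2 k B := by
  have lA : Lf (cpr G A) := hA.lf.av G
  have lB : Lf (cpr G B) := hB.lf.av G
  have lB' : Lf (fun ω => C * cpr G B ω) := lB.smul C
  have e1 : pr2 k A = ex2 k (cpr G A) (cpr G A) := ex2_av hA.lf hA.lf G k hG
  have e2 : pr2 k B = ex2 k (cpr G B) (cpr G B) := ex2_av hB.lf hB.lf G k hG
  have h1 : ex2 k (cpr G A) (cpr G A) ≤ ex2 k (fun ω => C * cpr G B ω) (fun ω => C * cpr G B ω) :=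
    ex2_mono lA lA lB' lB' k hk (cpr_nonneg G A) (cpr_nonneg G A) h h
  have h2 : ex2 k (fun ω => C * cpr G B ω) (fun ω => C * cpr G B ω) =
      C ^ 2 * ex2 k (cpr G B) (cpr G B) := by
    rw [ex2_smul_left lB lB' k C, ex2_comm lB lB' k, ex2_smul_left lB lB k C]
    ring
  rw [e1, e2]
  exact h1.trans (le_of_eq h2)

/-- If `h` does not depend on `G` then `g` may be averaged over `G`.  Let `k' = k` off `G` and `0` on `G`.
`ex2 k g h = ex2 k' g h` (`ex2_comm`, `ex2_congr` for `h`), `= ex2 k' (av G g) (av G h)` (`ex2_av`), `av G h = h`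
(`av_of_dep`), `= ex2 k (av G g) h` (again `ex2_congr` for `h`). -/
theorem ex2_av_left {g h : Cfg → ℝ} (lg : Lf g) (lh : Lf h) {G : Finset Pt} {D : Set Pt}
    (hh : Dep h D) (hD : ∀ v ∈ G, v ∉ D) (k : Pt → ℝ) : ex2 k g h = ex2 k (av G g) h := by
  have key : ∀ f : Cfg → ℝ, Lf f → ex2 k f h = ex2 (fun v => if v ∈ G then 0 else k v) f h := by
    intro f lf
    rw [ex2_comm lf lh, ex2_comm lf lh (fun v => if v ∈ G then 0 else k v)]
    refine ex2_congr lh lf hh (fun v hv => ?_)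
    have hvG : v ∉ G := fun hv' => hD v hv' hv
    rw [if_neg hvG]
  have hav : av G h = h := by
    funext ω
    exact av_of_dep hh hD ω
  rw [key g lg, key (av G g) (lg.av G)]
  rw [ex2_av lg lh G _ (fun v hv => if_pos hv), hav]

/-- transport by a permutation of the sites, `ex2_equiv` -/
theorem pr2_via {A : Cfg → Prop} (hA : Loc A) (e : Equiv.Perm Pt) (k : Pt → ℝ) :
    pr2 k (fun ω => A (via e ω)) = pr2 (fun v => k (e v)) A := by
  exact ex2_equiv hA.lf hA.lf e k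

/-- exchange of the states, `ex2_flip` -/
theorem pr2_flip {A : Cfg → Prop} (hA : Loc A) (k : Pt → ℝ) :
    pr2 k (fun ω => A (fun v => ! ω v)) = pr2 k A := by
  exact ex2_flip hA.lf hA.lf k

end SC
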