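import Pool.Agent.Lib_MP_e0a489.FI6
import Pool.Agent.Lib_MP_e0a489.PG1
import Pool.Agent.Lib_MP_e0a489.SE1

/-!
# MP_e0a489, module FI 16: two pivotal blocks
-/

set_option autoImplicit false

namespace SC

open Classical FI

/-- the three local events of a pair of blocks at distance between `D` and `2 D` -/
def Lat.JJ (L : Lat) (N N' : ℤ) (E : Set Pt) (w n : ℤ) (z z' : Pt) (D : ℤ) (ω : Cfg) : Prop :=
  (L.Ev N N' E (sc w z) w (D / 16) ω ∧ L.Ev N N' E (sc w z') w (D / 16) ω) ∧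
    L.Ev N N' E (sc w z) (4 * D) n ω

namespace FI

/-- the part of the block number `z` in `F` -/
noncomputable def fb (F : Finset Pt) (w : ℤ) (z : Pt) : Finset Pt :=
  F.filter fun v => v.1 / w = z.1 ∧ v.2 / w = z.2

/-- sizes and positions of two blocks -/
structure Cnd (N N' w n : ℤ) (z z' : Pt) (D : ℤ) : Prop where
  w1 : 1 ≤ w
  wn : w ≤ n
  nN : n ≤ N
  nN' : n ≤ N'
  wD : 16 * w ≤ D
  Dn : D ≤ 16 * n
  d1 : D < bd2 w z z'
  d2 : bd2 w z z' ≤ 2 * D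
  z1 : |w * z.1| ≤ N + w
  z2 : |w * z.2| ≤ N' + w
  z1' : |w * z'.1| ≤ N + w
  z2' : |w * z'.2| ≤ N' + w

private theorem fi16_comm (u v : Pt) : nrm (u - v) = nrm (v - u) := by
  show max |u.1 - v.1| |u.2 - v.2| = max |v.1 - u.1| |v.2 - u.2|
  rw [abs_sub_comm u.1 v.1, abs_sub_comm u.2 v.2]

private theorem fi16_nn (u : Pt) : 0 ≤ nrm u := le_trans (abs_nonneg u.1) (le_max_left _ _)

private theorem fi16_crs (L : Lat) (N N' : ℤ) (E : Set Pt) : Dep (L.Crs N N' E) (dom N N' E) :=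
  Lat.Arm.dep L true _ _ _

private theorem fi16_ind {L : Lat} {N N' : ℤ} {E : Set Pt} {F : Finset Pt}
    (hF : ∀ v, v ∈ F ↔ v ∈ dom N N' E) : Dep (ind (L.Crs N N' E)) (F : Set Pt) := by
  intro ω ω' h
  have h1 := fi16_crs L N N' E ω ω' (fun v hv => h v (Finset.mem_coe.2 ((hF v).2 hv)))
  unfold ind
  rw [h1]

private theorem fi16_piv {L : Lat} {N N' : ℤ} {E B : Set Pt} {ω ω' ω'' : Cfg}
    (h1 : ∀ v, v ∉ B → ω' v = ω v) (h2 : ∀ v, v ∉ B → ω'' v = ω v)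
    (hne : ind (L.Crs N N' E) ω'' ≠ ind (L.Crs N N' E) ω') : L.PivS N N' E B ω := by
  unfold ind at hne
  by_cases c1 : L.Crs N N' E ω''
  · by_cases c2 : L.Crs N N' E ω'
    · rw [if_pos c1, if_pos c2] at hne
      exact absurd rfl hne
    · exact ⟨ω'', ω', h2, h1, c1, c2⟩
  · by_cases c2 : L.Crs N N' E ω'
    · exact ⟨ω', ω'', h1, h2, c2, c1⟩
    · rw [if_neg c1, if_neg c2] at hne
      exact absurd rfl hne

private theorem fi16_ind01 (A : Cfg → Prop) (ω : Cfg) : 0 ≤ ind A ω ∧ ind A ω ≤ 1 := by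
  unfold ind
  split_ifs
  · exact ⟨zero_le_one, le_refl _⟩
  · exact ⟨le_refl _, zero_le_one⟩

/-- `0 ≤ v.1 - w z.1 < w` -/
theorem fb_sub {F : Finset Pt} {w : ℤ} (hw : 1 ≤ w) (z : Pt) :
    ((fb F w z : Finset Pt) : Set Pt) ⊆ bxAt (sc w z) w := by
  intro v hv
  have hv' := Finset.mem_coe.1 hv
  unfold fb at hv'
  obtain ⟨-, h1, h2⟩ := Finset.mem_filter.1 hv'
  have a1 := Int.emod_add_mul_ediv v.1 w
  have a2 := Int.emod_add_mul_ediv v.2 w
  have a3 := Int.emod_nonneg v.1 (show w ≠ 0 by omega)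
  have a4 := Int.emod_nonneg v.2 (show w ≠ 0 by omega)
  have a5 := Int.emod_lt_of_pos v.1 (show 0 < w by omega)
  have a6 := Int.emod_lt_of_pos v.2 (show 0 < w by omega)
  rw [h1] at a1
  rw [h2] at a2
  show max |v.1 - w * z.1| |v.2 - w * z.2| ≤ w
  refine max_le ?_ ?_
  · rw [abs_le]
    constructor <;> linarith
  · rw [abs_le]
    constructor <;> linarith

theorem bd2_nrm (w : ℤ) (z z' : Pt) : bd2 w z z' = nrm (sc w z - sc w z') := rfl

/-- If the block `B` is pivotal for `ω₁` and `B'` is pivotal for `ω₂`, where `ω₁ = ω₂ = ω` off `B ∪ B'`, then the three local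
events hold for `ω`.  (1) `PivS.ev` for `ω₁`, `x = sc w z`, radii `w`, `D / 16` (`≤ n`); the event depends on `annAt x w (2 (D/16))`
(`Ev.dep`), where `ω₁ = ω`: such a site is not in `B`, and not in `B'`, because its distance to `sc w z'` is more than
`D - 2 (D / 16) ≥ w`.  (2) the same for `ω₂`.  (3) `PivS (B ∪ B') ω` (the two configurations for `ω₁` agree with `ω` off `B ∪ B'`),
`B ∪ B' ⊆ bxAt x (2 D + w) ⊆ bxAt x (4 D)`; `PivS.ev` with radii `4 D`, `n`. -/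
theorem JJ_of_piv {L : Lat} {N N' : ℤ} {E : Set Pt} {w n D : ℤ} {z z' : Pt}
    (h : Cnd N N' w n z z' D) (hE : GoodE L N E) {B B' : Set Pt} (hB : B ⊆ bxAt (sc w z) w)
    (hB' : B' ⊆ bxAt (sc w z') w) {ω ω₁ ω₂ : Cfg} (h1 : ∀ v, v ∉ B → v ∉ B' → ω₁ v = ω v)
    (h2 : ∀ v, v ∉ B → v ∉ B' → ω₂ v = ω v) (p1 : L.PivS N N' E B ω₁)
    (p2 : L.PivS N N' E B' ω₂) : L.JJ N N' E w n z z' D ω := by
  obtain ⟨w1, wn, nN, nN', wD, Dn, d1, d2, z1, z2, z1', z2'⟩ := h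
  rw [bd2_nrm] at d1 d2
  have c0 := fi16_comm (sc w z) (sc w z')
  refine ⟨⟨?_, ?_⟩, ?_⟩
  · have e := p1.ev (x := sc w z) (a := w) (b := D / 16) (by omega) (by omega) hE (by omega)
      (by omega) (by omega) z1 z2 hB
    rw [← Lat.Ev.dep L E (by omega) z1 z2 ω₁ ω (fun v hv => ?_)]
    · exact e
    · obtain ⟨k1, k2⟩ := hv
      refine h1 v (fun hv' => ?_) (fun hv' => ?_)
      · have k3 : nrm (v - sc w z) ≤ w := hB hv'
        omega
      · have k3 : nrm (v - sc w z') ≤ w := hB' hv'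
        have k4 := XP.nrm_tri (sc w z) v (sc w z')
        have k5 := fi16_comm (sc w z) v
        omega
  · have e := p2.ev (x := sc w z') (a := w) (b := D / 16) (by omega) (by omega) hE (by omega)
      (by omega) (by omega) z1' z2' hB'
    rw [← Lat.Ev.dep L E (by omega) z1' z2' ω₂ ω (fun v hv => ?_)]
    · exact e
    · obtain ⟨k1, k2⟩ := hv
      refine h2 v (fun hv' => ?_) (fun hv' => ?_)
      · have k3 : nrm (v - sc w z) ≤ w := hB hv'
        have k4 := XP.nrm_tri (sc w z) v (sc w z')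
        have k5 := fi16_comm (sc w z) v
        omega
      · have k3 : nrm (v - sc w z') ≤ w := hB' hv'
        omega
  · have hp : L.PivS N N' E (B ∪ B') ω := by
      obtain ⟨ω₃, ω₄, h3, h4, c3, c4⟩ := p1
      refine ⟨ω₃, ω₄, fun v hv => ?_, fun v hv => ?_, c3, c4⟩
      · have hv1 : v ∉ B := fun h => hv (Or.inl h)
        have hv2 : v ∉ B' := fun h => hv (Or.inr h)
        rw [h3 v hv1, h1 v hv1 hv2]
      · have hv1 : v ∉ B := fun h => hv (Or.inl h)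
        have hv2 : v ∉ B' := fun h => hv (Or.inr h)
        rw [h4 v hv1, h1 v hv1 hv2]
    refine hp.ev (by omega) (by omega) hE (by omega) (by omega) (by omega) ?_ ?_ ?_
    · exact z1.trans (by omega)
    · exact z2.trans (by omega)
    · intro v hv
      show nrm (v - sc w z) ≤ 4 * D
      rcases hv with hv | hv
      · have k3 : nrm (v - sc w z) ≤ w := hB hv
        omega
      · have k3 : nrm (v - sc w z') ≤ w := hB' hv
        have k4 := XP.nrm_tri v (sc w z') (sc w z)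
        omega

/-- `Ev.dep` (the supports are finite, `annAt_finite`) -/
theorem Ev_loc (L : Lat) {N N' : ℤ} (E : Set Pt) {x : Pt} {a b : ℤ} (ha : 0 ≤ a)
    (h1 : |x.1| ≤ N + a) (h2 : |x.2| ≤ N' + a) : Loc (L.Ev N N' E x a b) :=
  XP.loc_of_dep (XP.annAt_finite _ _ _) (Lat.Ev.dep L E ha h1 h2)

private theorem fi16_and {A B : Cfg → Prop} {D D' : Set Pt} (hA : Dep A D) (hB : Dep B D') :
    Dep (fun ω => A ω ∧ B ω) (D ∪ D') := by
  intro ω ω' h
  have e1 := hA ω ω' fun v hv => h v (Or.inl hv)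
  have e2 := hB ω ω' fun v hv => h v (Or.inr hv)
  show (A ω ∧ B ω) = (A ω' ∧ B ω')
  rw [e1, e2]

private theorem fi16_JJ_dep {L : Lat} {N N' : ℤ} {E : Set Pt} {w n D : ℤ} {z z' : Pt}
    (h : Cnd N N' w n z z' D) :
    Dep (fun ω => L.Ev N N' E (sc w z) w (D / 16) ω ∧ L.Ev N N' E (sc w z') w (D / 16) ω)
      (annAt (sc w z) w (2 * (D / 16)) ∪ annAt (sc w z') w (2 * (D / 16))) ∧
    Dep (L.Ev N N' E (sc w z) (4 * D) n) (annAt (sc w z) (4 * D) (2 * n)) := by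
  obtain ⟨w1, wn, nN, nN', wD, Dn, d1, d2, z1, z2, z1', z2'⟩ := h
  exact ⟨fi16_and (Lat.Ev.dep L E (by omega) z1 z2) (Lat.Ev.dep L E (by omega) z1' z2'),
    Lat.Ev.dep L E (by omega) (z1.trans (by omega)) (z2.trans (by omega))⟩

/-- independence: the supports `annAt (sc w z) w (2 (D/16))`, `annAt (sc w z') w (2 (D/16))`, `annAt (sc w z) (4 D) (2 n)` are disjoint
(`D < nrm (sc w z - sc w z') ≤ 2 D`), `pr2_and` twice -/
theorem JJ_pr2 {L : Lat} {N N' : ℤ} {E : Set Pt} {w n D : ℤ} {z z' : Pt}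
    (h : Cnd N N' w n z z' D) (κ : Pt → ℝ) :
    pr2 κ (L.JJ N N' E w n z z' D) = pr2 κ (L.Ev N N' E (sc w z) w (D / 16)) *
      pr2 κ (L.Ev N N' E (sc w z') w (D / 16)) * pr2 κ (L.Ev N N' E (sc w z) (4 * D) n) := by
  obtain ⟨dAB, dC⟩ := fi16_JJ_dep (L := L) (E := E) h
  obtain ⟨w1, wn, nN, nN', wD, Dn, d1, d2, z1, z2, z1', z2'⟩ := h
  rw [bd2_nrm] at d1 d2
  have dA := Lat.Ev.dep L E (x := sc w z) (a := w) (b := D / 16) (by omega) z1 z2
  have dB := Lat.Ev.dep L E (x := sc w z') (a := w) (b := D / 16) (by omega) z1' z2'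
  have lA := Ev_loc L E (x := sc w z) (a := w) (b := D / 16) (by omega) z1 z2
  have lB := Ev_loc L E (x := sc w z') (a := w) (b := D / 16) (by omega) z1' z2'
  have lC := XP.loc_of_dep (XP.annAt_finite _ _ _) dC
  have lAB : Loc (fun ω => L.Ev N N' E (sc w z) w (D / 16) ω ∧
      L.Ev N N' E (sc w z') w (D / 16) ω) :=
    XP.loc_of_dep ((XP.annAt_finite _ _ _).union (XP.annAt_finite _ _ _)) dAB
  have c0 := fi16_comm (sc w z) (sc w z')
  have e1 : pr2 κ (L.JJ N N' E w n z z' D) =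
      pr2 κ (fun ω => L.Ev N N' E (sc w z) w (D / 16) ω ∧ L.Ev N N' E (sc w z') w (D / 16) ω) *
        pr2 κ (L.Ev N N' E (sc w z) (4 * D) n) := by
    refine pr2_and lAB lC dAB dC (fun v hv hv' => ?_) κ
    obtain ⟨k1, k2⟩ := hv'
    rcases hv with ⟨k3, k4⟩ | ⟨k3, k4⟩
    · omega
    · have k5 := XP.nrm_tri v (sc w z') (sc w z)
      omega
  have e2 : pr2 κ (fun ω => L.Ev N N' E (sc w z) w (D / 16) ω ∧
      L.Ev N N' E (sc w z') w (D / 16) ω) =
      pr2 κ (L.Ev N N' E (sc w z) w (D / 16)) * pr2 κ (L.Ev N N' E (sc w z') w (D / 16)) := by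
    refine pr2_and lA lB dA dB (fun v hv hv' => ?_) κ
    obtain ⟨k1, k2⟩ := hv
    obtain ⟨k3, k4⟩ := hv'
    have k5 := XP.nrm_tri (sc w z) v (sc w z')
    have k6 := fi16_comm (sc w z) v
    omega
  rw [e1, e2]

/-- `infl2` for `g = ind (Crs)`, `B = fb F w z`, `B' = fb F w z'`, `J = JJ`.  If `¬ J ω`, then by `JJ_of_piv` either no configuration that
agrees with `ω` off `B ∪ B'` has `B` pivotal, or none has `B'` pivotal; `ind Crs ω'' ≠ ind Crs ω'` with `ω'' = ω'` off `B` gives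
`PivS B ω'`. -/
theorem JJ_sum {L : Lat} {N N' : ℤ} {E : Set Pt} {w n D : ℤ} {z z' : Pt}
    (h : Cnd N N' w n z z' D) (hE : GoodE L N E) {F : Finset Pt}
    (hF : ∀ v, v ∈ F ↔ v ∈ dom N N' E) {κ : Pt → ℝ} (hκ : Kap κ) :
    ∑ S ∈ F.powerset.filter (fun S => ¬ Disjoint S (fb F w z) ∧ ¬ Disjoint S (fb F w z')),
      (∏ v ∈ S, κ v) * fc (ind (L.Crs N N' E)) S ^ 2 ≤
      16 * pr2 κ (L.JJ N N' E w n z z' D) := by
  obtain ⟨dAB, dC⟩ := fi16_JJ_dep (L := L) (E := E) h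
  have lJ : Loc (L.JJ N N' E w n z z' D) :=
    XP.loc_of_dep (((XP.annAt_finite _ _ _).union (XP.annAt_finite _ _ _)).union
      (XP.annAt_finite _ _ _)) (fi16_and dAB dC)
  refine infl2 (fi16_ind hF) (fb F w z) (fb F w z') lJ (fun ω => (fi16_ind01 _ ω).1)
    (fun ω => (fi16_ind01 _ ω).2) (fun ω hJ => ?_) hκ
  by_contra hcon
  push Not at hcon
  obtain ⟨⟨ω₁, ω₁', a1, a2, a3⟩, ω₂, ω₂', b1, b2, b3⟩ := hcon
  refine hJ (JJ_of_piv h hE (fb_sub h.w1 z) (fb_sub h.w1 z') (ω₁ := ω₁) (ω₂ := ω₂)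
    (fun v hv hv' => a1 v (fun k => hv (Finset.mem_coe.2 k)) (fun k => hv' (Finset.mem_coe.2 k)))
    (fun v hv hv' => b1 v (fun k => hv (Finset.mem_coe.2 k)) (fun k => hv' (Finset.mem_coe.2 k)))
    ?_ ?_)
  · exact fi16_piv (fun v _ => rfl) (fun v hv => a2 v (fun k => hv (Finset.mem_coe.2 k))) a3
  · exact fi16_piv (fun v _ => rfl) (fun v hv => b2 v (fun k => hv (Finset.mem_coe.2 k))) b3

/-- single block, `infl1`, `PivS.ev` with radii `w`, `n` -/
theorem Ev_sum {L : Lat} {N N' : ℤ} {E : Set Pt} {w n : ℤ} {z : Pt} (hw : 1 ≤ w) (hn : 0 < n)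
    (hnN : n ≤ N) (hnN' : n ≤ N') (h1 : |w * z.1| ≤ N + w) (h2 : |w * z.2| ≤ N' + w)
    (hE : GoodE L N E) {F : Finset Pt} (hF : ∀ v, v ∈ F ↔ v ∈ dom N N' E) {κ : Pt → ℝ}
    (hκ : Kap κ) :
    ∑ S ∈ F.powerset.filter (fun S => ¬ Disjoint S (fb F w z)),
      (∏ v ∈ S, κ v) * fc (ind (L.Crs N N' E)) S ^ 2 ≤
      4 * pr2 κ (L.Ev N N' E (sc w z) w n) := by
  have lJ : Loc (L.Ev N N' E (sc w z) w n) := Ev_loc L E (x := sc w z) (by omega) h1 h2
  refine infl1 (fi16_ind hF) (fb F w z) lJ (fun ω => (fi16_ind01 _ ω).1)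
    (fun ω => (fi16_ind01 _ ω).2) (fun ω hJ ω' ω'' a1 a2 => ?_) hκ
  by_contra hne
  refine hJ ?_
  have hp : L.PivS N N' E ((fb F w z : Finset Pt) : Set Pt) ω :=
    fi16_piv (fun v hv => a1 v (fun k => hv (Finset.mem_coe.2 k)))
      (fun v hv => a2 v (fun k => hv (Finset.mem_coe.2 k))) hne
  exact hp.ev (x := sc w z) (by omega) (by omega) hE (by omega) hnN hnN' h1 h2 (fb_sub hw z)

end FI

end SC
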