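import Pool.Agent.Lib_MP_e0a489.FI5

/-!
# MP_e0a489, module FI 5b: the local event, distances and supports
-/

set_option autoImplicit false

namespace SC

open Classical FI

namespace FI

private theorem tri5b (u v y : Pt) : nrm (u - y) ≤ nrm (u - v) + nrm (v - y) := by
  unfold nrm
  simp only [Prod.fst_sub, Prod.snd_sub]
  have h1 := abs_sub_le u.1 v.1 y.1
  have h2 := abs_sub_le u.2 v.2 y.2
  omega

private theorem comm5b (u v : Pt) : nrm (u - v) = nrm (v - u) := by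
  unfold nrm
  rw [Prod.fst_sub, Prod.snd_sub, Prod.fst_sub, Prod.snd_sub, abs_sub_comm u.1, abs_sub_comm u.2]

private theorem nn5b (v : Pt) : 0 ≤ nrm v := le_max_of_le_left (abs_nonneg _)

/-- distance of the nearest boundary point: `nrm (x - yH) = |hm N N' x|` -/
theorem nrm_yH (N N' : ℤ) (x : Pt) : nrm (x - yH N N' x) = |hm N N' x| := by
  obtain ⟨x1, x2⟩ := x
  simp only [nrm, yH, hm, Prod.fst_sub, Prod.snd_sub]
  split_ifs <;> simp only [abs_eq_max_neg] at * <;> omega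

/-- `nrm (x - yQ) = max |N - |x.1|| |N' - |x.2|| ≤ max a (hM N N' x)` -/
theorem nrm_yQ {N N' a : ℤ} {x : Pt} (h1 : |x.1| ≤ N + a) (h2 : |x.2| ≤ N' + a) :
    nrm (x - yQ N N' x) ≤ max a (hM N N' x) := by
  obtain ⟨x1, x2⟩ := x
  simp only [nrm, yQ, hM, Prod.fst_sub, Prod.snd_sub] at *
  split_ifs <;> simp only [abs_eq_max_neg] at * <;> omega

/-- `nrm (yH - yQ) = |hM N N' x|` -/
theorem nrm_yHQ (N N' : ℤ) (x : Pt) : nrm (yH N N' x - yQ N N' x) = |hM N N' x| := by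
  obtain ⟨x1, x2⟩ := x
  simp only [nrm, yH, yQ, hM, Prod.fst_sub, Prod.snd_sub]
  split_ifs <;> simp only [abs_eq_max_neg] at * <;> omega

/-- The three annuli are disjoint.  Let `h = hm`, `h₂ = hM`.  `v ∈ annAt x a (min h b - 1)`: `0 ≤ a < h`,
`nrm (v - yH) ≤ (h - 1) + h < 2 h`. -/
theorem disj_BH {N N' a b : ℤ} {x : Pt} (ha : 0 ≤ a) (v : Pt)
    (hv : v ∈ annAt x a (min (hm N N' x) b - 1)) :
    v ∉ annAt (yH N N' x) (2 * max a (hm N N' x)) (min (hM N N' x) b - 1) := by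
  rintro ⟨h3, -⟩
  obtain ⟨h1, h2⟩ := hv
  have t1 := tri5b v x (yH N N' x)
  rw [nrm_yH] at t1
  simp only [abs_eq_max_neg] at t1
  omega

/-- `nrm (v - yQ) ≤ (h - 1) + h₂ < 2 h₂` (here `N - |x.1|`, `N' - |x.2| ≥ h > 0`) -/
theorem disj_BQ {N N' a b : ℤ} {x : Pt} (ha : 0 ≤ a) (v : Pt)
    (hv : v ∈ annAt x a (min (hm N N' x) b - 1)) :
    v ∉ annAt (yQ N N' x) (2 * max a (hM N N' x)) b := by
  rintro ⟨h3, -⟩
  obtain ⟨h1, h2⟩ := hv
  have t1 := tri5b v x (yQ N N' x)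
  have t3 : hm N N' x ≤ hM N N' x := by
    simp only [hm, hM]
    omega
  have t4 : 0 < hm N N' x := by
    have := nn5b (v - x)
    omega
  have t2 := nrm_yQ (N := N) (N' := N') (a := 0) (x := x) (by simp only [hm] at t4; omega)
    (by simp only [hm] at t4; omega)
  omega

/-- `v ∈ annAt yH (2 max a h) (min h₂ b - 1)`: `0 < h₂`, `nrm (v - yQ) ≤ (h₂ - 1) + h₂ < 2 h₂` -/
theorem disj_HQ {N N' a b : ℤ} {x : Pt} (ha : 0 ≤ a) (v : Pt)
    (hv : v ∈ annAt (yH N N' x) (2 * max a (hm N N' x)) (min (hM N N' x) b - 1)) :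
    v ∉ annAt (yQ N N' x) (2 * max a (hM N N' x)) b := by
  rintro ⟨h3, -⟩
  obtain ⟨h1, h2⟩ := hv
  have t1 := tri5b v (yH N N' x) (yQ N N' x)
  rw [nrm_yHQ] at t1
  simp only [abs_eq_max_neg] at t1
  have t0 := nn5b (v - yH N N' x)
  omega

end FI

/-- Support of the local event.  Lower bound: `nrm (v - x) ≥ nrm (v - yH) - |h| > 2 max a h - |h| ≥ a` (`-a ≤ h`), similarly for `yQ`
(`nrm_yQ`).  Upper bound: `nrm (v - x) ≤ (b - 1) + |h| ≤ 2 b` because `2 max a h < b` if the annulus is not empty,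
and `|h| ≤ max a h`; similarly for `yQ`. -/
theorem Lat.Ev.dep (L : Lat) {N N' : ℤ} (E : Set Pt) {x : Pt} {a b : ℤ} (ha : 0 ≤ a)
    (h1 : |x.1| ≤ N + a) (h2 : |x.2| ≤ N' + a) :
    Dep (L.Ev N N' E x a b) (annAt x a (2 * b)) := by
  intro ω ω' h
  have hmM : -a ≤ hm N N' x := by
    simp only [hm]
    omega
  have hMM : hm N N' x ≤ hM N N' x := by
    simp only [hm, hM]
    omega
  have e1 : L.EvB x a (min (hm N N' x) b - 1) ω = L.EvB x a (min (hm N N' x) b - 1) ω' := by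
    by_cases hab : a < min (hm N N' x) b - 1
    · refine EvB.dep L x a _ ω ω' fun v hv => h v ?_
      obtain ⟨k1, k2⟩ := hv
      exact ⟨k1, by omega⟩
    · exact propext ⟨fun _ k => absurd k hab, fun _ k => absurd k hab⟩
  have e2 : L.EvH N N' E x (2 * max a (hm N N' x)) (min (hM N N' x) b - 1) ω =
      L.EvH N N' E x (2 * max a (hm N N' x)) (min (hM N N' x) b - 1) ω' := by
    by_cases hab : 2 * max a (hm N N' x) < min (hM N N' x) b - 1
    · refine EvH.dep L N N' E x _ _ ω ω' fun v hv => h v ?_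
      obtain ⟨k1, k2⟩ := hv
      have t1 := tri5b v x (yH N N' x)
      have t2 := tri5b v (yH N N' x) x
      rw [comm5b (yH N N' x) x] at t2
      rw [nrm_yH] at t1 t2
      simp only [abs_eq_max_neg] at t1 t2
      exact ⟨by omega, by omega⟩
    · exact propext ⟨fun _ k => absurd k hab, fun _ k => absurd k hab⟩
  have e3 : L.EvQ N N' E x (2 * max a (hM N N' x)) b ω =
      L.EvQ N N' E x (2 * max a (hM N N' x)) b ω' := by
    by_cases hab : 2 * max a (hM N N' x) < b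
    · refine EvQ.dep L N N' E x _ _ ω ω' fun v hv => h v ?_
      obtain ⟨k1, k2⟩ := hv
      have t1 := tri5b v x (yQ N N' x)
      have t2 := tri5b v (yQ N N' x) x
      rw [comm5b (yQ N N' x) x] at t2
      have t3 := nrm_yQ h1 h2
      exact ⟨by omega, by omega⟩
    · exact propext ⟨fun _ k => absurd k hab, fun _ k => absurd k hab⟩
  show (_ ∧ _ ∧ _) = (_ ∧ _ ∧ _)
  rw [e1, e2, e3]

end SC
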