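import Pool.Agent.Lib_MP_e0a489.FI4
import Pool.Agent.Lib_MP_e0a489.FI5b
import Pool.Agent.Lib_MP_e0a489.SE1

/-!
# MP_e0a489, module FI 7: two-time probability of the local event, products
-/

set_option autoImplicit false

namespace SC

open Classical

namespace FI

private theorem fi7_locB (L : Lat) (x : Pt) (a b : ℤ) : Loc (L.EvB x a b) :=
  XP.loc_of_dep (XP.annAt_finite x a b) (Lat.EvB.dep L x a b)

private theorem fi7_locH (L : Lat) (N N' : ℤ) (E : Set Pt) (x : Pt) (a b : ℤ) :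
    Loc (L.EvH N N' E x a b) :=
  XP.loc_of_dep (XP.annAt_finite _ a b) (Lat.EvH.dep L N N' E x a b)

private theorem fi7_locQ (L : Lat) (N N' : ℤ) (E : Set Pt) (x : Pt) (a b : ℤ) :
    Loc (L.EvQ N N' E x a b) :=
  XP.loc_of_dep (XP.annAt_finite _ a b) (Lat.EvQ.dep L N N' E x a b)

private theorem fi7_and {A B : Cfg → Prop} {D D' : Set Pt} (hA : Dep A D) (hB : Dep B D') :
    Dep (fun ω => A ω ∧ B ω) (D ∪ D') := by
  intro ω ω' h
  have e1 := hA ω ω' fun v hv => h v (Or.inl hv)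
  have e2 := hB ω ω' fun v hv => h v (Or.inr hv)
  show (A ω ∧ B ω) = (A ω' ∧ B ω')
  rw [e1, e2]

private theorem fi7_annf (r R : ℤ) (H : Set Pt) : (ann r R ∩ H).Finite := by
  refine (XP.annAt_finite (0 : Pt) r R).subset ?_
  rintro v ⟨hv, -⟩
  show r < nrm (v - 0) ∧ nrm (v - 0) ≤ R
  rw [sub_zero]
  exact hv


theorem kt_kap {t : ℝ} (ht : 0 ≤ t) : Kap (kt t) := by
  intro v
  exact ⟨(Real.exp_pos _).le, Real.exp_le_one_iff.2 (by linarith)⟩

/-- the three parts are independent: `EvB.dep`, `EvH.dep`, `EvQ.dep`, `disj_BH`, `disj_BQ`, `disj_HQ`, `pr2_and`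
(local by `XP` lemma `loc_of_dep`, `annAt_finite`) -/
theorem Ev_pr2 (L : Lat) (N N' : ℤ) (E : Set Pt) (x : Pt) {a b : ℤ} (ha : 0 ≤ a) (κ : Pt → ℝ) :
    pr2 κ (L.Ev N N' E x a b) =
      pr2 κ (L.EvB x a (min (hm N N' x) b - 1)) *
        pr2 κ (L.EvH N N' E x (2 * max a (hm N N' x)) (min (hM N N' x) b - 1)) *
        pr2 κ (L.EvQ N N' E x (2 * max a (hM N N' x)) b) := by
  have hBQ := disj_BQ (N := N) (N' := N') (a := a) (b := b) (x := x) ha
  have hBH := disj_BH (N := N) (N' := N') (a := a) (b := b) (x := x) ha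
  have hHQ := disj_HQ (N := N) (N' := N') (a := a) (b := b) (x := x) ha
  have lB := fi7_locB L x a (min (hm N N' x) b - 1)
  have lH := fi7_locH L N N' E x (2 * max a (hm N N' x)) (min (hM N N' x) b - 1)
  have lQ := fi7_locQ L N N' E x (2 * max a (hM N N' x)) b
  have dB := Lat.EvB.dep L x a (min (hm N N' x) b - 1)
  have dH := Lat.EvH.dep L N N' E x (2 * max a (hm N N' x)) (min (hM N N' x) b - 1)
  have dQ := Lat.EvQ.dep L N N' E x (2 * max a (hM N N' x)) b
  have dHQ := fi7_and dH dQ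
  have lHQ : Loc (fun ω => L.EvH N N' E x (2 * max a (hm N N' x)) (min (hM N N' x) b - 1) ω ∧
      L.EvQ N N' E x (2 * max a (hM N N' x)) b ω) :=
    XP.loc_of_dep ((XP.annAt_finite _ _ _).union (XP.annAt_finite _ _ _)) dHQ
  have e1 := pr2_and lB lHQ dB dHQ (fun v hv hv' => hv'.elim (hBH v hv) (hBQ v hv)) κ
  have e2 := pr2_and lH lQ dH dQ (fun v hv => hHQ v hv) κ
  rw [e2] at e1
  rw [mul_assoc]
  exact e1

/-- the same for one configuration -/
theorem Ev_pr (L : Lat) (N N' : ℤ) (E : Set Pt) (x : Pt) {a b : ℤ} (ha : 0 ≤ a) :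
    pr (L.Ev N N' E x a b) =
      pr (L.EvB x a (min (hm N N' x) b - 1)) *
        pr (L.EvH N N' E x (2 * max a (hm N N' x)) (min (hM N N' x) b - 1)) *
        pr (L.EvQ N N' E x (2 * max a (hM N N' x)) b) := by
  have h := Ev_pr2 L N N' E x (a := a) (b := b) ha (fun _ => 1)
  have lB := fi7_locB L x a (min (hm N N' x) b - 1)
  have lH := fi7_locH L N N' E x (2 * max a (hm N N' x)) (min (hM N N' x) b - 1)
  have lQ := fi7_locQ L N N' E x (2 * max a (hM N N' x)) b
  have dB := Lat.EvB.dep L x a (min (hm N N' x) b - 1)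
  have dH := Lat.EvH.dep L N N' E x (2 * max a (hm N N' x)) (min (hM N N' x) b - 1)
  have dQ := Lat.EvQ.dep L N N' E x (2 * max a (hM N N' x)) b
  have lE : Loc (L.Ev N N' E x a b) :=
    XP.loc_of_dep ((XP.annAt_finite _ _ _).union
      ((XP.annAt_finite _ _ _).union (XP.annAt_finite _ _ _))) (fi7_and dB (fi7_and dH dQ))
  rw [pr2_one lE, pr2_one lB, pr2_one lH, pr2_one lQ] at h
  exact h

/-- If `a < b` the half plane part is (up to a permutation of the sites) an event `TwoH`: `dom_half`, `half_shape`, `pr2_via`.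
Here `b ≤ hM - 1`, `b ≤ N`, `b ≤ N'`. -/
theorem EvH_pr2 {L : Lat} {N N' : ℤ} {E : Set Pt} (hE : GoodE L N E) (hN : 0 < N) {x : Pt}
    {a b : ℤ} (ha : 0 ≤ a) (hab : a < b) (hb : b ≤ N) (hb' : b ≤ N') (h : b ≤ hM N N' x - 1)
    (t : ℝ) : ∃ (s : ℤ) (z : Pt) (H : Set Pt), HalfLike H ∧
      pr2 (kt t) (L.EvH N N' E x a b) =
        pr2 (kt t) (((L.rots s).shift z).TwoH (cH N N' x) H a b) := by
  have hy : ((yH N N' x).2 = -N' ∨ (yH N N' x).2 = N') ∧ |(yH N N' x).1| + b ≤ N - 1 ∨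
      ((yH N N' x).1 = -N ∨ (yH N N' x).1 = N) ∧ |(yH N N' x).2| + b ≤ N' := by
    by_cases hc : N - |x.1| < N' - |x.2|
    · right
      have hMe : hM N N' x = N' - |x.2| := by
        unfold hM
        exact max_eq_right hc.le
      unfold yH
      rw [if_pos hc]
      refine ⟨?_, by show |x.2| + b ≤ N'; omega⟩
      by_cases hx : x.1 ≤ 0
      · left
        simp only [if_pos hx]
      · right
        simp only [if_neg hx]
    · left
      have hMe : hM N N' x = N - |x.1| := by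
        unfold hM
        exact max_eq_left (not_lt.1 hc)
      unfold yH
      rw [if_neg hc]
      refine ⟨?_, by show |x.1| + b ≤ N - 1; omega⟩
      by_cases hx : x.2 ≤ 0
      · left
        simp only [if_pos hx]
      · right
        simp only [if_neg hx]
  obtain ⟨s, h1, h2⟩ := dom_half hE (R := b) (by omega) hN hb hb' hy
  obtain ⟨z, H, hH, hiff⟩ := half_shape L (cH N N' x) (dom N N' E) s (yH N N' x) a b h1 h2
  refine ⟨s, z, H, hH, ?_⟩
  have e1 : L.EvH N N' E x a b = fun ω =>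
      ((L.rots s).shift z).TwoH (cH N N' x) H a b (via (rt s * Equiv.addRight z) ω) := by
    funext ω
    apply propext
    constructor
    · intro h'
      exact (hiff ω).1 (h' hab)
    · intro h' _
      exact (hiff ω).2 h'
  have lT : Loc (((L.rots s).shift z).TwoH (cH N N' x) H a b) :=
    Lat.Two.loc _ _ _ _ _ (fi7_annf a b H)
  rw [e1, pr2_via lT]
  rfl

/-- Corner part: `dom_quart`, `quart_shape`, `pr2_via`. -/
theorem EvQ_pr2 {L : Lat} {N N' : ℤ} {E : Set Pt} (hE : GoodE L N E) (hN : 0 < N) {x : Pt}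
    {a b : ℤ} (ha : 0 ≤ a) (hab : a < b) (hb : b ≤ N) (hb' : b ≤ N') (t : ℝ) :
    ∃ (s : ℤ) (z : Pt) (H : Set Pt), QuartLike H ∧
      pr2 (kt t) (L.EvQ N N' E x a b) = pr2 (kt t) (((L.rots s).shift z).TwoQ H a b) := by
  have hy1 : (yQ N N' x).1 = -N ∨ (yQ N N' x).1 = N := by
    unfold yQ
    by_cases hx : x.1 ≤ 0
    · left
      simp only [if_pos hx]
    · right
      simp only [if_neg hx]
  have hy2 : (yQ N N' x).2 = -N' ∨ (yQ N N' x).2 = N' := by
    unfold yQ
    by_cases hx : x.2 ≤ 0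
    · left
      simp only [if_pos hx]
    · right
      simp only [if_neg hx]
  obtain ⟨s, h1, h2⟩ := dom_quart hE (R := b) (by omega) hN hb hb' hy1 hy2
  obtain ⟨z, H, hH, hiff⟩ := quart_shape L (dom N N' E) s (yQ N N' x) a b h1 h2
  refine ⟨s, z, H, hH, ?_⟩
  have e1 : L.EvQ N N' E x a b = fun ω =>
      ((L.rots s).shift z).TwoQ H a b (via (rt s * Equiv.addRight z) ω) := by
    funext ω
    apply propext
    constructor
    · intro h'
      exact (hiff ω).1 (h' hab)
    · intro h' _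
      exact (hiff ω).2 h'
  have lT : Loc (((L.rots s).shift z).TwoQ H a b) := by
    refine XP.loc_of_dep (fi7_annf a b H) ?_
    intro ω ω' h
    apply propext
    constructor
    · intro h' c
      have h3 := Lat.Arm.dep ((L.rots s).shift z) c (ann a b ∩ H)
        (((L.rots s).shift z).nb (bx a)) (rng b) ω ω' h
      rw [← h3]
      exact h' c
    · intro h' c
      have h3 := Lat.Arm.dep ((L.rots s).shift z) c (ann a b ∩ H)
        (((L.rots s).shift z).nb (bx a)) (rng b) ω ω' h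
      rw [h3]
      exact h' c
  rw [e1, pr2_via lT]
  rfl

end FI

end SC
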