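import Pool.Agent.Lib_MP_e0a489.FI11
import Pool.Agent.Lib_MP_e0a489.FI7

/-!
# MP_e0a489, module FI 8: two-time probability of the local event, bound by `gg`
-/

set_option autoImplicit false

namespace SC

open Classical

namespace FI

/-- the two-time bounds at time `t` for inner radii at least `r₀` -/
structure TB (L : Lat) (M : ℝ) (r₀ : ℤ) (t : ℝ) : Prop where
  t0 : 0 ≤ t
  M1 : 1 ≤ M
  bulk : ∀ (c : Bool) (x : Pt) (r R : ℤ), r₀ ≤ r → r ≤ R →
    pr2 (kt t) (L.TwoAt c x r R) ≤ M * (al L r R) ^ 2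
  half : ∀ (s : ℤ) (c : Bool) (x : Pt) (H : Set Pt) (r R : ℤ), HalfLike H → r₀ ≤ r → r ≤ R →
    pr2 (kt t) (((L.rots s).shift x).TwoH c H r R) ≤ M * (al L r R) ^ ((3 : ℝ) / 2)
  quart : ∀ (s : ℤ) (x : Pt) (H : Set Pt) (r R : ℤ), QuartLike H → r₀ ≤ r → r ≤ R →
    pr2 (kt t) (((L.rots s).shift x).TwoQ H r R) ≤ M * al L r R

private theorem fi8_al_one (L : Lat) {a b : ℤ} (h : ¬ a < b) : al L a b = 1 := by
  unfold al
  rw [if_neg h]

/-- If `a < b` the event is `TwoAt`; otherwise it is always true, `al L a b = 1` and `pr2 ≤ 1 ≤ M`. -/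
theorem EvB_le {L : Lat} {M t : ℝ} {r₀ : ℤ} (hT : TB L M r₀ t) {x : Pt} {a b : ℤ}
    (ha : r₀ ≤ a) : pr2 (kt t) (L.EvB x a b) ≤ M * al L a b ^ 2 := by
  by_cases hab : a < b
  · have e : L.EvB x a b = L.TwoAt true x a b := by
      funext ω
      apply propext
      constructor
      · intro h
        exact h hab
      · intro h _
        exact h
    rw [e]
    exact hT.bulk true x a b ha hab.le
  · rw [fi8_al_one L hab, one_pow, mul_one]
    have hloc : Loc (L.EvB x a b) := XP.loc_of_dep (XP.annAt_finite x a b) (Lat.EvB.dep L x a b)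
    exact (pr2_le_one hloc (kt_kap hT.t0)).trans hT.M1

/-- `EvH_pr2`, `TB.half`. -/
theorem EvH_le {L : Lat} {M t : ℝ} {r₀ : ℤ} (hT : TB L M r₀ t) {N N' : ℤ} {E : Set Pt}
    (hE : GoodE L N E) (hN : 0 < N) {x : Pt} {a b : ℤ} (h0 : 0 ≤ a) (ha : r₀ ≤ a) (hb : b ≤ N)
    (hb' : b ≤ N') (h : b ≤ hM N N' x - 1) :
    pr2 (kt t) (L.EvH N N' E x a b) ≤ M * al L a b ^ ((3 : ℝ) / 2) := by
  by_cases hab : a < b
  · obtain ⟨s, z, H, hH, e⟩ := EvH_pr2 hE hN h0 hab hb hb' h t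
    rw [e]
    exact hT.half s (cH N N' x) z H a b hH ha hab.le
  · rw [fi8_al_one L hab, Real.one_rpow, mul_one]
    have hloc : Loc (L.EvH N N' E x a b) :=
      XP.loc_of_dep (XP.annAt_finite _ a b) (Lat.EvH.dep L N N' E x a b)
    exact (pr2_le_one hloc (kt_kap hT.t0)).trans hT.M1

/-- `EvQ_pr2`, `TB.quart`. -/
theorem EvQ_le {L : Lat} {M t : ℝ} {r₀ : ℤ} (hT : TB L M r₀ t) {N N' : ℤ} {E : Set Pt}
    (hE : GoodE L N E) (hN : 0 < N) {x : Pt} {a b : ℤ} (h0 : 0 ≤ a) (ha : r₀ ≤ a) (hb : b ≤ N)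
    (hb' : b ≤ N') : pr2 (kt t) (L.EvQ N N' E x a b) ≤ M * al L a b := by
  by_cases hab : a < b
  · obtain ⟨s, z, H, hH, e⟩ := EvQ_pr2 hE hN h0 hab hb hb' t
    rw [e]
    exact hT.quart s z H a b hH ha hab.le
  · rw [fi8_al_one L hab, mul_one]
    have hloc : Loc (L.EvQ N N' E x a b) :=
      XP.loc_of_dep (XP.annAt_finite _ a b) (Lat.EvQ.dep L N N' E x a b)
    exact (pr2_le_one hloc (kt_kap hT.t0)).trans hT.M1

/-- `Ev_pr2`, the three bounds, `AG.three_sq` for `f = al L`; `C' = max 1 (M ^ 3 * C'')`. -/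
theorem Ev_le {L : Lat} {C γ M : ℝ} {R₀ : ℤ} (hG : AG (al L) C γ R₀) (hM : 1 ≤ M) :
    ∃ C' : ℝ, 1 ≤ C' ∧
    ∀ (t : ℝ) (r₀ : ℤ), R₀ ≤ r₀ → TB L M r₀ t → ∀ (N N' : ℤ) (E : Set Pt) (x : Pt) (a b : ℤ),
      GoodE L N E → 0 < N → r₀ ≤ a → a ≤ b → b ≤ N → b ≤ N' →
      pr2 (kt t) (L.Ev N N' E x a b) ≤ C' * gg (al L) γ N N' a b x := by
  have hM0 : 0 ≤ M := by linarith
  clear hM
  obtain ⟨C₂, hC₂, H⟩ := hG.three_sq
  refine ⟨max 1 (M ^ 3 * C₂), le_max_left _ _, ?_⟩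
  intro t r₀ hr hT N N' E x a b hE hN ha hab hb hb'
  have h16 := hG.R16
  have ha0 : 0 ≤ a := by omega
  have hm0 : a ≤ max a (hm N N' x) := le_max_left _ _
  have hM0' : a ≤ max a (hM N N' x) := le_max_left _ _
  have hk := kt_kap hT.t0
  have b1 : pr2 (kt t) (L.EvB x a (min (hm N N' x) b - 1)) ≤
      M * al L a (min (hm N N' x) b - 1) ^ 2 := EvB_le hT ha
  have b2 : pr2 (kt t) (L.EvH N N' E x (2 * max a (hm N N' x)) (min (hM N N' x) b - 1)) ≤
      M * al L (2 * max a (hm N N' x)) (min (hM N N' x) b - 1) ^ ((3 : ℝ) / 2) :=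
    EvH_le hT hE hN (by omega) (by omega) (by omega) (by omega) (by omega)
  have b3 : pr2 (kt t) (L.EvQ N N' E x (2 * max a (hM N N' x)) b) ≤
      M * al L (2 * max a (hM N N' x)) b :=
    EvQ_le hT hE hN (by omega) (by omega) hb hb'
  have n1 := pr2_nonneg (L.EvB x a (min (hm N N' x) b - 1)) hk
  have n2 := pr2_nonneg (L.EvH N N' E x (2 * max a (hm N N' x)) (min (hM N N' x) b - 1)) hk
  have n3 := pr2_nonneg (L.EvQ N N' E x (2 * max a (hM N N' x)) b) hk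
  have k1 : 0 ≤ al L a (min (hm N N' x) b - 1) := hG.nn _ _
  have k2 : 0 ≤ al L (2 * max a (hm N N' x)) (min (hM N N' x) b - 1) := hG.nn _ _
  have k3 : 0 ≤ al L (2 * max a (hM N N' x)) b := hG.nn _ _
  have h3 := H a b N N' x (by omega) hab
  have hp : 0 ≤ al L a (min (hm N N' x) b - 1) ^ 2 *
      al L (2 * max a (hm N N' x)) (min (hM N N' x) b - 1) ^ (3 / 2 : ℝ) *
      al L (2 * max a (hM N N' x)) b := by positivity
  have hg : 0 ≤ gg (al L) γ N N' a b x := by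
    by_contra hneg
    have := mul_neg_of_pos_of_neg hC₂ (not_le.1 hneg)
    linarith
  rw [Ev_pr2 L N N' E x ha0]
  calc pr2 (kt t) (L.EvB x a (min (hm N N' x) b - 1)) *
        pr2 (kt t) (L.EvH N N' E x (2 * max a (hm N N' x)) (min (hM N N' x) b - 1)) *
        pr2 (kt t) (L.EvQ N N' E x (2 * max a (hM N N' x)) b)
      ≤ (M * al L a (min (hm N N' x) b - 1) ^ 2) *
        (M * al L (2 * max a (hm N N' x)) (min (hM N N' x) b - 1) ^ ((3 : ℝ) / 2)) *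
        (M * al L (2 * max a (hM N N' x)) b) := by
        apply mul_le_mul _ b3 n3 (by positivity)
        exact mul_le_mul b1 b2 n2 (by positivity)
    _ = M ^ 3 * (al L a (min (hm N N' x) b - 1) ^ 2 *
        al L (2 * max a (hm N N' x)) (min (hM N N' x) b - 1) ^ (3 / 2 : ℝ) *
        al L (2 * max a (hM N N' x)) b) := by ring
    _ ≤ M ^ 3 * (C₂ * gg (al L) γ N N' a b x) :=
        mul_le_mul_of_nonneg_left h3 (pow_nonneg hM0 3)
    _ = (M ^ 3 * C₂) * gg (al L) γ N N' a b x := by ring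
    _ ≤ max 1 (M ^ 3 * C₂) * gg (al L) γ N N' a b x :=
        mul_le_mul_of_nonneg_right (le_max_right _ _) hg

/-- `cl p n n = n`, `al L n n = 1` -/
theorem gg_self {f : ℤ → ℤ → ℝ} {γ : ℝ} (hf : ∀ n, f n n = 1) (N N' : ℤ) {n : ℤ} (hn : 0 < n)
    (x : ℤ × ℤ) : gg f γ N N' n n x = 1 := by
  have hcl : ∀ p : ℤ, cl p n n = n := by
    intro p
    unfold cl
    omega
  have hn' : (n : ℝ) ≠ 0 := by exact_mod_cast hn.ne'
  unfold gg
  rw [hcl, hcl, hf, div_self hn', Real.one_rpow]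
  norm_num

end FI

end SC
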