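import Pool.Agent.Lib_MP_e0a489.FI16
import Pool.Agent.Lib_MP_e0a489.FI8

/-!
# MP_e0a489, module FI 17: bounds for one and two blocks
-/

set_option autoImplicit false

namespace SC

open Classical

namespace FI

/-- Two blocks: `JJ_sum`, `JJ_pr2`, `Ev_le` for the radii `(w, D / 16)` twice and `(4 D, n)`; if `4 D > n` then `min (4 D) n = n`, `gg = 1`
(`gg_self`) and `pr2 ≤ 1`. -/
theorem pair_le {L : Lat} {C γ M : ℝ} {R₀ : ℤ} (hG : AG (al L) C γ R₀) (hM : 1 ≤ M) :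
    ∃ C' : ℝ, 0 < C' ∧ ∀ (t : ℝ) (w : ℤ), R₀ ≤ w → TB L M w t → ∀ (N N' n D : ℤ) (z z' : Pt)
      (E : Set Pt), Cnd N N' w n z z' D → GoodE L N E →
      ∀ F : Finset Pt, (∀ v, v ∈ F ↔ v ∈ dom N N' E) →
      ∑ S ∈ F.powerset.filter (fun S => ¬ Disjoint S (fb F w z) ∧ ¬ Disjoint S (fb F w z')),
        (∏ v ∈ S, kt t v) * fc (ind (L.Crs N N' E)) S ^ 2 ≤
      C' * (gg (al L) γ N N' w (D / 16) (sc w z) * gg (al L) γ N N' w (D / 16) (sc w z') *
        gg (al L) γ N N' (min (4 * D) n) n (sc w z)) := by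
  obtain ⟨C₁, hC₁, hEv⟩ := Ev_le hG hM
  refine ⟨16 * C₁ ^ 3, by positivity, ?_⟩
  intro t w hw hT N N' n D z z' E hc hE F hF
  have hκ : Kap (kt t) := kt_kap hT.t0
  have w1 := hc.w1
  have wn := hc.wn
  have nN := hc.nN
  have nN' := hc.nN'
  have wD := hc.wD
  have Dn := hc.Dn
  refine (JJ_sum hc hE hF hκ).trans ?_
  rw [JJ_pr2 hc]
  have e1 := hEv t w hw hT N N' E (sc w z) w (D / 16) hE (by omega) le_rfl (by omega) (by omega)
    (by omega)
  have e2 := hEv t w hw hT N N' E (sc w z') w (D / 16) hE (by omega) le_rfl (by omega) (by omega)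
    (by omega)
  have e3 : pr2 (kt t) (L.Ev N N' E (sc w z) (4 * D) n) ≤
      C₁ * gg (al L) γ N N' (min (4 * D) n) n (sc w z) := by
    by_cases h4 : 4 * D ≤ n
    · rw [min_eq_left h4]
      exact hEv t w hw hT N N' E (sc w z) (4 * D) n hE (by omega) (by omega) h4 nN nN'
    · rw [min_eq_right (by omega), gg_self (fun m => hG.one m m le_rfl) N N' (by omega), mul_one]
      have z1 : |(sc w z).1| ≤ N + 4 * D := hc.z1.trans (by omega)
      have z2 : |(sc w z).2| ≤ N' + 4 * D := hc.z2.trans (by omega)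
      exact (pr2_le_one (Ev_loc L E (by omega) z1 z2) hκ).trans hC₁
  have p1 := pr2_nonneg (L.Ev N N' E (sc w z) w (D / 16)) hκ
  have p2 := pr2_nonneg (L.Ev N N' E (sc w z') w (D / 16)) hκ
  have p3 := pr2_nonneg (L.Ev N N' E (sc w z) (4 * D) n) hκ
  have m1 := mul_le_mul e1 e2 p2 (p1.trans e1)
  have m2 := mul_le_mul m1 e3 p3 (mul_nonneg (p1.trans e1) (p2.trans e2))
  refine (mul_le_mul_of_nonneg_left m2 (by norm_num : (0 : ℝ) ≤ 16)).trans (le_of_eq ?_)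
  ring

/-- One block: `Ev_sum`, `Ev_le`. -/
theorem single_le {L : Lat} {C γ M : ℝ} {R₀ : ℤ} (hG : AG (al L) C γ R₀) (hM : 1 ≤ M) :
    ∃ C' : ℝ, 0 < C' ∧ ∀ (t : ℝ) (w : ℤ), R₀ ≤ w → TB L M w t → ∀ (N N' n : ℤ) (z : Pt)
      (E : Set Pt), w ≤ n → n ≤ N → n ≤ N' → |w * z.1| ≤ N + w → |w * z.2| ≤ N' + w →
      GoodE L N E → ∀ F : Finset Pt, (∀ v, v ∈ F ↔ v ∈ dom N N' E) →
      ∑ S ∈ F.powerset.filter (fun S => ¬ Disjoint S (fb F w z)),
        (∏ v ∈ S, kt t v) * fc (ind (L.Crs N N' E)) S ^ 2 ≤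
      C' * gg (al L) γ N N' w n (sc w z) := by
  obtain ⟨C₁, hC₁, hEv⟩ := Ev_le hG hM
  refine ⟨4 * C₁, by positivity, ?_⟩
  intro t w hw hT N N' n z E hwn hnN hnN' h1 h2 hE F hF
  have hκ : Kap (kt t) := kt_kap hT.t0
  have h16 := hG.R16
  refine (Ev_sum (by omega) (by omega) hnN hnN' h1 h2 hE hF hκ).trans ?_
  have e1 := hEv t w hw hT N N' E (sc w z) w n hE (by omega) le_rfl hwn hnN hnN'
  refine (mul_le_mul_of_nonneg_left e1 (by norm_num : (0 : ℝ) ≤ 4)).trans (le_of_eq ?_)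
  ring

end FI

end SC
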