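import Pool.Agent.Lib_MP_e0a489.FI16

/-!
# MP_e0a489, module FI 18: from small sets to blocks
-/

set_option autoImplicit false

namespace SC

open Classical

namespace FI

/-- numbers of the blocks that meet `F` -/
noncomputable def fz (F : Finset Pt) (w : ℤ) : Finset Pt := F.image fun v => (v.1 / w, v.2 / w)

private theorem fi18_div {w x : ℤ} (hw : 1 ≤ w) : w * (x / w) ≤ x ∧ x - w < w * (x / w) := by
  have h1 := Int.mul_ediv_add_emod x w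
  have h2 := Int.emod_nonneg x (show w ≠ 0 by omega)
  have h3 := Int.emod_lt_of_pos x (show 0 < w by omega)
  constructor
  · omega
  · omega

private theorem fi18_abs {w x y : ℤ} (hw : 1 ≤ w) :
    |x - y| - w ≤ |w * (x / w) - w * (y / w)| := by
  obtain ⟨a1, a2⟩ := fi18_div (x := x) hw
  obtain ⟨b1, b2⟩ := fi18_div (x := y) hw
  rcases abs_cases (x - y) with ⟨h, _⟩ | ⟨h, _⟩ <;>
    rcases abs_cases (w * (x / w) - w * (y / w)) with ⟨h', _⟩ | ⟨h', _⟩ <;> rw [h, h'] <;> linarith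

private theorem fi18_bd2 {w d : ℤ} {u v : Pt} (hw : 1 ≤ w) (h : d ≤ nrm (u - v)) :
    d - w ≤ bd2 w (u.1 / w, u.2 / w) (v.1 / w, v.2 / w) := by
  have h1 : |u.1 - v.1| - w ≤ |w * (u.1 / w) - w * (v.1 / w)| := fi18_abs hw
  have h2 : |u.2 - v.2| - w ≤ |w * (u.2 / w) - w * (v.2 / w)| := fi18_abs hw
  have h3 : nrm (u - v) = max |u.1 - v.1| |u.2 - v.2| := rfl
  rw [h3] at h
  show d - w ≤ max |w * (u.1 / w) - w * (v.1 / w)| |w * (u.2 / w) - w * (v.2 / w)|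
  rcases le_max_iff.1 h with h | h
  · exact le_trans (by linarith) (le_max_left _ _)
  · exact le_trans (by linarith) (le_max_right _ _)

private theorem fi18_kt {t a : ℝ} (ht : 0 ≤ t) (hta : t * a ≤ 1) {S : Finset Pt}
    (hS : (S.card : ℝ) ≤ a) : 1 ≤ 3 * ∏ v ∈ S, kt t v := by
  have h1 : ∏ v ∈ S, kt t v = Real.exp (-(t * S.card)) := by
    unfold kt
    rw [Finset.prod_const, ← Real.exp_nat_mul]
    congr 1
    ring
  have h2 : t * S.card ≤ 1 := le_trans (mul_le_mul_of_nonneg_left hS ht) hta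
  have h3 : Real.exp (-1) ≤ Real.exp (-(t * S.card)) := Real.exp_le_exp.2 (by linarith)
  have h4 : (1 : ℝ) ≤ 3 * Real.exp (-1) := by
    rw [Real.exp_neg]
    have h5 : Real.exp 1 < 3 := Real.exp_one_lt_three
    have h6 : 0 < Real.exp 1 := Real.exp_pos 1
    rw [← div_eq_mul_inv, le_div_iff₀ h6]
    linarith
  rw [h1]
  linarith

private theorem fi18_nn {t : ℝ} (g : Cfg → ℝ) (S : Finset Pt) :
    0 ≤ (∏ v ∈ S, kt t v) * fc g S ^ 2 :=
  mul_nonneg (Finset.prod_nonneg fun _ _ => (Real.exp_pos _).le) (sq_nonneg _)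

private theorem fi18_sub {ι : Type} (I : Finset ι) (B : ι → Finset (Finset Pt))
    {h : Finset Pt → ℝ} (h0 : ∀ S, 0 ≤ h S) :
    ∑ S ∈ I.biUnion B, h S ≤ ∑ i ∈ I, ∑ S ∈ B i, h S := by
  induction I using Finset.induction_on with
  | empty => simp
  | insert a s ha ih =>
    rw [Finset.biUnion_insert, Finset.sum_insert ha]
    have h4 := Finset.sum_union_inter (s₁ := B a) (s₂ := s.biUnion B) (f := h)
    have h5 : 0 ≤ ∑ S ∈ B a ∩ s.biUnion B, h S := Finset.sum_nonneg fun S _ => h0 S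
    linarith

private theorem fi18_cover {ι : Type} {A : Finset (Finset Pt)} {I : Finset ι}
    {B : ι → Finset (Finset Pt)} {f h : Finset Pt → ℝ} (hf : ∀ S ∈ A, f S ≤ 3 * h S)
    (h0 : ∀ S, 0 ≤ h S) (hc : ∀ S ∈ A, ∃ i ∈ I, S ∈ B i) :
    ∑ S ∈ A, f S ≤ 3 * ∑ i ∈ I, ∑ S ∈ B i, h S := by
  have h1 : ∑ S ∈ A, f S ≤ 3 * ∑ S ∈ A, h S := by
    rw [Finset.mul_sum]
    exact Finset.sum_le_sum hf
  have h2 : ∑ S ∈ A, h S ≤ ∑ S ∈ I.biUnion B, h S := by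
    refine Finset.sum_le_sum_of_subset_of_nonneg ?_ (fun S _ _ => h0 S)
    intro S hS
    obtain ⟨i, hi, hS'⟩ := hc S hS
    exact Finset.mem_biUnion.2 ⟨i, hi, hS'⟩
  have h3 : ∑ S ∈ I.biUnion B, h S ≤ ∑ i ∈ I, ∑ S ∈ B i, h S := fi18_sub I B h0
  linarith

/-- positions of the blocks: `v.1 - w < w (v.1 / w) ≤ v.1` -/
theorem fz_pos {N N' w : ℤ} {E : Set Pt} {F : Finset Pt} (hw : 1 ≤ w)
    (hF : ∀ v, v ∈ F ↔ v ∈ dom N N' E) :
    ∀ z ∈ fz F w, |w * z.1| ≤ N + w ∧ |w * z.2| ≤ N' + w := by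
  intro z hz
  obtain ⟨v, hv, rfl⟩ := Finset.mem_image.1 hz
  have hd : v ∈ dom N N' E := (hF v).1 hv
  obtain ⟨⟨⟨a1, a2⟩, a3, a4⟩, _⟩ := hd
  obtain ⟨b1, b2⟩ := fi18_div (x := v.1) hw
  obtain ⟨c1, c2⟩ := fi18_div (x := v.2) hw
  constructor
  · show |w * (v.1 / w)| ≤ N + w
    rw [abs_le]
    constructor <;> linarith
  · show |w * (v.2 / w)| ≤ N' + w
    rw [abs_le]
    constructor <;> linarith

/-- Pairs of blocks.  For a set `S` of the left side, with `u, v ∈ S`, `d ≤ nrm (u - v)`, let `z = (u.1 / w, u.2 / w)`, `z'` the same for `v`; then `S` meets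
`fb F w z` and `fb F w z'` and `bd2 w z z' ≥ d - w` (`|u.1 - w z.1| < w` with the same sign, so `|w z.1 - w z'.1| > |u.1 - v.1| - w`).  Moreover
`∏ kt t = exp (- t |S|) ≥ exp (-1) ≥ 1/3`.  So `fc g S ^ 2 ≤ 3 (∏ kt t) fc g S ^ 2`, and the left side is at most `3` times
the sum over the pairs of blocks of the sums over the sets which meet both. -/
theorem small_pairs {g : Cfg → ℝ} {F : Finset Pt} {t a : ℝ} {w d : ℤ} (ht : 0 ≤ t)
    (hta : t * a ≤ 1) (hw : 1 ≤ w) :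
    ∑ S ∈ F.powerset.filter (fun S => (S.card : ℝ) ≤ a ∧ ∃ u ∈ S, ∃ v ∈ S, d ≤ nrm (u - v)),
      fc g S ^ 2 ≤
    3 * ∑ p ∈ (fz F w ×ˢ fz F w).filter (fun p => d - w ≤ bd2 w p.1 p.2),
      ∑ S ∈ F.powerset.filter
        (fun S => ¬ Disjoint S (fb F w p.1) ∧ ¬ Disjoint S (fb F w p.2)),
        (∏ v ∈ S, kt t v) * fc g S ^ 2 := by
  refine fi18_cover (fun S hS => ?_) (fun S => fi18_nn g S) (fun S hS => ?_)
  · obtain ⟨_, h1, _⟩ := Finset.mem_filter.1 hS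
    have h2 := fi18_kt ht hta h1
    have h3 := mul_le_mul_of_nonneg_right h2 (sq_nonneg (fc g S))
    calc fc g S ^ 2 = 1 * fc g S ^ 2 := (one_mul _).symm
      _ ≤ 3 * (∏ v ∈ S, kt t v) * fc g S ^ 2 := h3
      _ = 3 * ((∏ v ∈ S, kt t v) * fc g S ^ 2) := by ring
  · obtain ⟨h0, _, u, hu, v, hv, hd⟩ := Finset.mem_filter.1 hS
    have h1 := Finset.mem_powerset.1 h0
    refine ⟨((u.1 / w, u.2 / w), (v.1 / w, v.2 / w)), ?_, ?_⟩
    · refine Finset.mem_filter.2 ⟨Finset.mem_product.2 ⟨?_, ?_⟩, fi18_bd2 hw hd⟩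
      · exact Finset.mem_image.2 ⟨u, h1 hu, rfl⟩
      · exact Finset.mem_image.2 ⟨v, h1 hv, rfl⟩
    · refine Finset.mem_filter.2 ⟨h0, ?_, ?_⟩
      · exact Finset.not_disjoint_iff.2 ⟨u, hu, Finset.mem_filter.2 ⟨h1 hu, rfl, rfl⟩⟩
      · exact Finset.not_disjoint_iff.2 ⟨v, hv, Finset.mem_filter.2 ⟨h1 hv, rfl, rfl⟩⟩

/-- The same with one block (`u ∈ S`). -/
theorem small_single {g : Cfg → ℝ} {F : Finset Pt} {t a : ℝ} {w d : ℤ} (ht : 0 ≤ t)
    (hta : t * a ≤ 1) (hw : 1 ≤ w) :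
    ∑ S ∈ F.powerset.filter (fun S => (S.card : ℝ) ≤ a ∧ ∃ u ∈ S, ∃ v ∈ S, d ≤ nrm (u - v)),
      fc g S ^ 2 ≤
    3 * ∑ z ∈ fz F w, ∑ S ∈ F.powerset.filter (fun S => ¬ Disjoint S (fb F w z)),
        (∏ v ∈ S, kt t v) * fc g S ^ 2 := by
  refine fi18_cover (fun S hS => ?_) (fun S => fi18_nn g S) (fun S hS => ?_)
  · obtain ⟨_, h1, _⟩ := Finset.mem_filter.1 hS
    have h2 := fi18_kt ht hta h1
    have h3 := mul_le_mul_of_nonneg_right h2 (sq_nonneg (fc g S))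
    calc fc g S ^ 2 = 1 * fc g S ^ 2 := (one_mul _).symm
      _ ≤ 3 * (∏ v ∈ S, kt t v) * fc g S ^ 2 := h3
      _ = 3 * ((∏ v ∈ S, kt t v) * fc g S ^ 2) := by ring
  · obtain ⟨h0, _, u, hu, _⟩ := Finset.mem_filter.1 hS
    have h1 := Finset.mem_powerset.1 h0
    refine ⟨(u.1 / w, u.2 / w), Finset.mem_image.2 ⟨u, h1 hu, rfl⟩, ?_⟩
    refine Finset.mem_filter.2 ⟨h0, ?_⟩
    exact Finset.not_disjoint_iff.2 ⟨u, hu, Finset.mem_filter.2 ⟨h1 hu, rfl, rfl⟩⟩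

/-- Trivial bound: Parseval, `ind ^ 2 = ind`, `pr_le_one`. -/
theorem small_one {L : Lat} {N N' : ℤ} {E : Set Pt} {F : Finset Pt}
    (hF : ∀ v, v ∈ F ↔ v ∈ dom N N' E) (P : Finset Pt → Prop) :
    ∑ S ∈ F.powerset.filter P, fc (ind (L.Crs N N' E)) S ^ 2 ≤ 1 := by
  have hset : (F : Set Pt) = dom N N' E := Set.ext fun v => by
    rw [Finset.mem_coe]
    exact hF v
  have hd : Dep (ind (L.Crs N N' E)) (F : Set Pt) := by
    rw [hset]
    exact (Lat.Crs.dep L N N' E).ind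
  have h1 := parseval hd hd
  have h2 : ex (fun ω => ind (L.Crs N N' E) ω * ind (L.Crs N N' E) ω) = pr (L.Crs N N' E) := by
    unfold pr
    congr 1
    funext ω
    unfold ind
    split_ifs <;> norm_num
  have h3 : ∑ S ∈ F.powerset, fc (ind (L.Crs N N' E)) S * fc (ind (L.Crs N N' E)) S =
      ∑ S ∈ F.powerset, fc (ind (L.Crs N N' E)) S ^ 2 :=
    Finset.sum_congr rfl fun S _ => (sq _).symm
  have h4 : ∑ S ∈ F.powerset.filter P, fc (ind (L.Crs N N' E)) S ^ 2 ≤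
      ∑ S ∈ F.powerset, fc (ind (L.Crs N N' E)) S ^ 2 :=
    Finset.sum_le_sum_of_subset_of_nonneg (Finset.filter_subset _ _) fun S _ _ => sq_nonneg _
  have h5 : pr (L.Crs N N' E) ≤ 1 := pr_le_one _
  rw [h2, h3] at h1
  linarith

end FI

end SC
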