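import Pool.Agent.Lib_MP_e0a489.SE5

/-!
# MP_e0a489, module FI 19: `al L` is submultiplicative
-/

set_option autoImplicit false

namespace SC

open Classical

namespace FI

private theorem fi19_fin (r R : ℤ) : (ann r R).Finite := by
  have h : ann r R ⊆ Set.Icc (-R) R ×ˢ Set.Icc (-R) R := by
    rintro v ⟨-, h1⟩
    have h2 : max |v.1| |v.2| ≤ R := h1
    rw [max_le_iff, abs_le, abs_le] at h2
    exact ⟨h2.1, h2.2⟩
  exact ((Set.finite_Icc _ _).prod (Set.finite_Icc _ _)).subset h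

/-- Submultiplicativity: if `r = ρ` or `ρ = R` one factor is `1`; otherwise `TwoA r R` implies `TwoA r ρ` and `TwoA ρ R`
(`Lat.TwoA.mono`), which depend on the disjoint sets `ann r ρ`, `ann ρ R` (`Two.dep`); `pr_and`, `pr_mono`. -/
theorem al_sub (L : Lat) {r ρ R : ℤ} (h0 : 0 ≤ r) (h1 : r ≤ ρ) (h2 : ρ ≤ R) :
    al L r R ≤ al L r ρ * al L ρ R := by
  rcases eq_or_lt_of_le h1 with e1 | e1
  · subst e1
    have h3 : al L r r = 1 := if_neg (lt_irrefl r)
    rw [h3, one_mul]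
  · rcases eq_or_lt_of_le h2 with e2 | e2
    · subst e2
      have h3 : al L ρ ρ = 1 := if_neg (lt_irrefl ρ)
      rw [h3, mul_one]
    · have a1 : al L r R = pr (L.TwoA true r R) := if_pos (e1.trans e2)
      have a2 : al L r ρ = pr (L.TwoA true r ρ) := if_pos e1
      have a3 : al L ρ R = pr (L.TwoA true ρ R) := if_pos e2
      have l1 : Loc (L.TwoA true r R) := Lat.Two.loc L true _ _ _ (fi19_fin r R)
      have l2 : Loc (L.TwoA true r ρ) := Lat.Two.loc L true _ _ _ (fi19_fin r ρ)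
      have l3 : Loc (L.TwoA true ρ R) := Lat.Two.loc L true _ _ _ (fi19_fin ρ R)
      have d2 : Dep (L.TwoA true r ρ) (ann r ρ) := Lat.Two.dep L true _ _ _
      have d3 : Dep (L.TwoA true ρ R) (ann ρ R) := Lat.Two.dep L true _ _ _
      rw [a1, a2, a3, ← pr_and l2 l3 d2 d3 (fun v hv hv' => absurd hv'.1 (not_lt.2 hv.2))]
      exact pr_mono l1 (l2.and l3) fun ω hω =>
        ⟨hω.mono h0 le_rfl e1 e2.le, hω.mono h0 e1.le e2 le_rfl⟩

end FI

end SC
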