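import Pool.Agent.Lib_MP_e0a489.TC1

/-!
# MP_e0a489, topology 3c: boundaries are connected
-/

set_option autoImplicit false

namespace SC

open Classical

namespace Lat

variable {L : Lat}

private theorem TC3_const {A : Set Pt} {f : Pt → ZMod 2}
    (hf : ∀ u ∈ A, ∀ v ∈ A, L.Adj u v → f u = f v) {u v : Pt} (h : L.Cn A u v) : f u = f v := by
  obtain ⟨hu, h⟩ := h
  have key : v ∈ A ∧ f u = f v := by
    induction h with
    | refl => exact ⟨hu, rfl⟩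
    | tail _ h2 ih => exact ⟨h2.2, ih.2.trans (hf _ ih.1 _ h2.2 h2.1)⟩
  exact key.2

private theorem TC3_z1 : ∀ a b : ZMod 2, a + b = 0 → a = b := by decide

private theorem TC3_z2 : ∀ a b c d : ZMod 2, a = b → c = d → a + c = 1 → b + d = 0 → False := by
  decide

private theorem TC3_z3 : (1 : ZMod 2) + 1 = 0 := by decide

private theorem TC3_core {M C P Q X : Set Pt} (hM : L.Exact M C) (hP : P ⊆ M) (hQ : Q ⊆ M)
    (hPQ : ∀ v ∈ P, v ∉ Q) (hPc : L.Con P) (hQc : L.Con Q) (hX : X ⊆ P)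
    (hC : ∀ u ∈ C, ∀ v ∈ C, u ∈ X → v ∉ Q)
    (tri : ∀ x ∈ X, ∀ q ∈ Q, ∀ w ∈ M, L.Adj x q → L.Adj x w → L.Adj q w → w ∈ X ∨ w ∈ Q)
    {u₀ v₀ q₀ q₁ : Pt} (hu₀ : u₀ ∈ X) (hv₀ : v₀ ∈ P) (hv₀' : v₀ ∉ X) (hq₀ : q₀ ∈ Q)
    (hq₁ : q₁ ∈ Q) (h₀ : L.Adj q₀ u₀) (h₁ : L.Adj q₁ v₀) : False := by
  have hXQ : ∀ v ∈ X, v ∉ Q := fun v hv => hPQ v (hX hv)
  let φ : Pt → Pt → ZMod 2 := fun a b => if (a ∈ X ∧ b ∈ Q) ∨ (b ∈ X ∧ a ∈ Q) then 1 else 0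
  have hφ : ∀ a b, φ a b = if (a ∈ X ∧ b ∈ Q) ∨ (b ∈ X ∧ a ∈ Q) then 1 else 0 := fun _ _ => rfl
  obtain ⟨ψ, hψ⟩ := hM φ
    (fun u v => by
      rw [hφ, hφ]
      congr 1
      exact propext or_comm)
    (by
      intro u hu v hv w hw huv hvw huw
      have t1 : u ∈ X → v ∈ Q → w ∈ X ∨ w ∈ Q := fun a b => tri u a v b w hw huv huw hvw
      have t2 : v ∈ X → u ∈ Q → w ∈ X ∨ w ∈ Q := fun a b => tri v a u b w hw huv.symm hvw huw
      have t3 : u ∈ X → w ∈ Q → v ∈ X ∨ v ∈ Q := fun a b => tri u a w b v hv huw huv hvw.symm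
      have t4 : w ∈ X → u ∈ Q → v ∈ X ∨ v ∈ Q := fun a b => tri w a u b v hv huw.symm hvw.symm huv
      have t5 : v ∈ X → w ∈ Q → u ∈ X ∨ u ∈ Q := fun a b => tri v a w b u hu hvw huv.symm huw.symm
      have t6 : w ∈ X → v ∈ Q → u ∈ X ∨ u ∈ Q := fun a b => tri w a v b u hu hvw.symm huw.symm huv.symm
      rw [hφ, hφ, hφ]
      have a1 := hXQ u
      have a2 := hXQ v
      have a3 := hXQ w
      by_cases u1 : u ∈ X <;> by_cases u2 : u ∈ Q <;> by_cases v1 : v ∈ X <;>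
        by_cases v2 : v ∈ Q <;> by_cases w1 : w ∈ X <;> by_cases w2 : w ∈ Q <;>
        simp_all [TC3_z3])
    (by
      intro u _ v _ huC hvC _
      rw [hφ, if_neg]
      rintro (⟨a, b⟩ | ⟨a, b⟩)
      · exact hC u huC v hvC a b
      · exact hC v hvC u huC a b)
  have hcP : ψ u₀ = ψ v₀ := by
    refine TC3_const (A := P) (fun a ha b hb hab => TC3_z1 _ _ ?_) (hPc u₀ (hX hu₀) v₀ hv₀)
    rw [← hψ a (hP ha) b (hP hb) hab, hφ, if_neg]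
    rintro (⟨-, h⟩ | ⟨-, h⟩)
    · exact hPQ b hb h
    · exact hPQ a ha h
  have hcQ : ψ q₀ = ψ q₁ := by
    refine TC3_const (A := Q) (fun a ha b hb hab => TC3_z1 _ _ ?_) (hQc q₀ hq₀ q₁ hq₁)
    rw [← hψ a (hQ ha) b (hQ hb) hab, hφ, if_neg]
    rintro (⟨h, -⟩ | ⟨h, -⟩)
    · exact hXQ a h ha
    · exact hXQ b h hb
  refine TC3_z2 _ _ _ _ hcQ hcP ?_ (?_ : ψ q₁ + ψ v₀ = 0)
  · rw [← hψ q₀ (hQ hq₀) u₀ (hP (hX hu₀)) h₀, hφ, if_pos (Or.inr ⟨hu₀, hq₀⟩)]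
  · rw [← hψ q₁ (hQ hq₁) v₀ (hP hv₀) h₁, hφ, if_neg]
    rintro (⟨h, -⟩ | ⟨h, -⟩)
    · exact hXQ q₁ h hq₁
    · exact hv₀' h

/-- BOUNDARIES ARE CONNECTED (Timár), outer version.  `C ⊆ M` connected, `D` a component of
`M \ C`.  If `bd D C = X ⊔ Y` without edges between `X` and `Y`, both nonempty, the cochain
`φ(e) = 1` iff `e` joins `X` and `C` is closed: a triangle with a vertex in `X`, one in `C` and a
third vertex `w` outside `X` and `C`: `w` is adjacent to a site of `D`, so `w ∈ D`, and adjacent to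
a site of `C`, so `w ∈ bd D C = X ⊔ Y`, `w ∉ Y` because it is adjacent to `X`.  `φ` vanishes inside
`C`.  So `φ = δψ`, `ψ` is constant on `C` and on `D` (both connected, `φ = 0` inside), but an edge
between `X` and `C` and one between `Y` and `C` exist: contradiction. -/
theorem con_bd {M C D : Set Pt} (hM : L.Exact M C) (hC : L.Con C) (hCM : C ⊆ M)
    (hD : L.Comp (M \ C) D) : L.Con (L.bd D C) := by
  intro u₀ hu₀ v₀ hv₀
  by_contra hno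
  obtain ⟨hu₀D, q₀, hq₀, h₀⟩ := hu₀
  obtain ⟨hv₀D, q₁, hq₁, h₁⟩ := hv₀
  have hB : ∀ w, L.Cn (L.bd D C) u₀ w → w ∈ L.bd D C := fun w hw => hw.right
  refine TC3_core (M := M) (C := C) (P := D) (Q := C) (X := {w | L.Cn (L.bd D C) u₀ w}) hM
    (fun v hv => (hD.sub hv).1) hCM (fun v hv => (hD.sub hv).2) hD.con hC
    (fun w hw => (hB w hw).1) ?_ ?_ (u₀ := u₀) (v₀ := v₀) (q₀ := q₀) (q₁ := q₁)
    (Cn.refl ⟨hu₀D, q₀, hq₀, h₀⟩) hv₀D hno hq₀ hq₁ h₀ h₁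
  · intro u huC v _ hu _
    exact (hD.sub (hB u hu).1).2 huC
  · intro x hx q hq w hw hxq hxw hqw
    by_cases hwC : w ∈ C
    · exact Or.inr hwC
    · have hwD : w ∈ D := hD.cl x (hB x hx).1 w ⟨hw, hwC⟩ hxw
      exact Or.inl ⟨hx.1, hx.2.tail ⟨hxw, hwD, q, hq, hqw⟩⟩

/-- Inner version: the sites of `C` with a neighbour in the component `D`.  Same proof with
`φ(e) = 1` iff `e` joins `X ⊆ bd C D` and `D`. -/
theorem con_bd' {M C D : Set Pt} (hM : L.Exact M C) (hC : L.Con C) (hCM : C ⊆ M)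
    (hD : L.Comp (M \ C) D) : L.Con (L.bd C D) := by
  intro u₀ hu₀ v₀ hv₀
  by_contra hno
  obtain ⟨hu₀C, q₀, hq₀, h₀⟩ := hu₀
  obtain ⟨hv₀C, q₁, hq₁, h₁⟩ := hv₀
  have hB : ∀ w, L.Cn (L.bd C D) u₀ w → w ∈ L.bd C D := fun w hw => hw.right
  refine TC3_core (M := M) (C := C) (P := C) (Q := D) (X := {w | L.Cn (L.bd C D) u₀ w}) hM
    hCM (fun v hv => (hD.sub hv).1) (fun v hv hv' => (hD.sub hv').2 hv) hC hD.con
    (fun w hw => (hB w hw).1) ?_ ?_ (u₀ := u₀) (v₀ := v₀) (q₀ := q₀) (q₁ := q₁)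
    (Cn.refl ⟨hu₀C, q₀, hq₀, h₀⟩) hv₀C hno hq₀ hq₁ h₀ h₁
  · intro u _ v hvC _ hv
    exact (hD.sub hv).2 hvC
  · intro x hx q hq w hw hxq hxw hqw
    by_cases hwC : w ∈ C
    · exact Or.inl ⟨hx.1, hx.2.tail ⟨hxw, hwC, q, hq, hqw⟩⟩
    · exact Or.inr (hD.cl q hq w ⟨hw, hwC⟩ hqw)

end Lat

end SC
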