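import Pool.Agent.Lib_MP_e0a489.TB2
import Pool.Agent.Lib_MP_e0a489.TC3

/-!
# MP_e0a489, topology 6a: planar duality in a rectangle
-/

set_option autoImplicit false

namespace SC

open Classical

namespace Lat

variable {L : Lat}

private theorem TD1_con {S D : Set Pt} {c : Bool} {ω : Cfg} (hS : L.Con S) :
    L.Con (S ∪ L.cl c D S ω) := by
  refine Con.union_many hS ?_
  rintro v ⟨u, ⟨w, hw, hwu⟩, huv⟩
  refine ⟨w, hw, u, hwu, ?_⟩
  refine ((con_cluster (D ∩ L.col c ω) u) u (Cn.refl huv.left) v huv).mono ?_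
  intro z hz
  exact ⟨u, ⟨w, hw, hwu⟩, hz⟩

private theorem TD1_grow {S D : Set Pt} {c : Bool} {ω : Cfg} {u v : Pt}
    (hu : u ∈ S ∪ L.cl c D S ω) (huv : L.Adj u v) (hv : v ∈ D) (hc : L.st ω v = c) :
    v ∈ L.cl c D S ω := by
  rcases hu with hu | ⟨w, hw, hwu⟩
  · exact ⟨v, ⟨u, hu, huv⟩, Cn.refl ⟨hv, hc⟩⟩
  · exact ⟨w, hw, hwu.trans (Cn.of_adj hwu.right ⟨hv, hc⟩ huv)⟩

private theorem TD1_cl_sub {S D : Set Pt} {c : Bool} {ω : Cfg} :
    L.cl c D S ω ⊆ D ∩ L.col c ω := by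
  rintro v ⟨u, -, hv⟩
  exact hv.right

private theorem TD1_bool {x c : Bool} (h : x ≠ c) : x = !c := by
  revert x c
  decide

/-- DUALITY IN A RECTANGLE.  Suppose there is no crossing `HX c`.  Let `M = rect (a-1) (b+1) p q`,
`L₀ = rect (a-1) (a-1) p q`, `C = L₀ ∪ cl c (rect a b p q) L₀ ω`.  `C` is connected, contained in `M`
and has no site with first coordinate `≥ b` (such a site is joined in colour `c` to a site of
the column `a`).  Let `W` be the component of `M \ C` that contains the column `b+1`.  By `con_bd` and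
`exact_rect` the set `bd W C` is connected.  Its sites lie in `rect a b p q` (neighbours of `C`, not in `L₀`),
and have colour `!c` (a site of colour `c` in the rectangle with a neighbour in `C` belongs to `C`).
Row `p`: let `i` be the largest number with `(i, p) ∈ C` (`a - 1 ≤ i < b`); then `(i+1, p), ..., (b+1, p)` are
not in `C`, so they are in `W`, and `(i+1, p) ∈ bd W C`.  The same for the row `q`.  So `bd W C`
contains a crossing `VX (!c)`. -/
theorem hex_or {a b p q : ℤ} (hab : a ≤ b) (hpq : p ≤ q) (c : Bool) (ω : Cfg) :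
    L.HX c a b p q ω ∨ L.VX (!c) a b p q ω := by
  by_cases hX : L.HX c a b p q ω
  · exact Or.inl hX
  right
  set S : Set Pt := rect (a - 1) (a - 1) p q with hS
  set M : Set Pt := rect (a - 1) (b + 1) p q with hM
  set C : Set Pt := S ∪ L.cl c (rect a b p q) S ω with hC
  have hSm : ∀ v : Pt, v ∈ S ↔ (a - 1 ≤ v.1 ∧ v.1 ≤ a - 1) ∧ p ≤ v.2 ∧ v.2 ≤ q :=
    fun _ => Iff.rfl
  have hMm : ∀ v : Pt, v ∈ M ↔ (a - 1 ≤ v.1 ∧ v.1 ≤ b + 1) ∧ p ≤ v.2 ∧ v.2 ≤ q :=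
    fun _ => Iff.rfl
  have hRm : ∀ v : Pt, v ∈ rect a b p q ↔ (a ≤ v.1 ∧ v.1 ≤ b) ∧ p ≤ v.2 ∧ v.2 ≤ q :=
    fun _ => Iff.rfl
  have hCc : L.Con C := TD1_con (con_rect _ _ _ _)
  have hCM : C ⊆ M := by
    rintro v (hv | hv)
    · rw [hSm] at hv
      rw [hMm]
      omega
    · have h1 := (TD1_cl_sub hv).1
      rw [hRm] at h1
      rw [hMm]
      omega
  have hCb : ∀ v ∈ C, v.1 < b := by
    rintro v (hv | hv)
    · rw [hSm] at hv
      omega
    · have h1 := (TD1_cl_sub hv).1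
      obtain ⟨u, ⟨w, hw, hwu⟩, huv⟩ := hv
      have h2 := huv.left.1
      rw [hRm] at h1 h2
      rw [hSm] at hw
      have h3 := hwu.near
      rw [abs_le, abs_le] at h3
      by_contra hcon
      exact hX ⟨u, v, by omega, by omega, huv⟩
  have hcol : rect (b + 1) (b + 1) p q ⊆ M \ C := by
    intro v hv
    have h1 : (b + 1 ≤ v.1 ∧ v.1 ≤ b + 1) ∧ p ≤ v.2 ∧ v.2 ≤ q := hv
    refine ⟨?_, fun hvC => ?_⟩
    · rw [hMm]
      omega
    · have h2 := hCb v hvC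
      omega
  have hm : ∀ y, p ≤ y → y ≤ q → ((b + 1, y) : Pt) ∈ rect (b + 1) (b + 1) p q :=
    fun y h1 h2 => ⟨⟨le_refl _, le_refl _⟩, h1, h2⟩
  set W : Set Pt := {v | L.Cn (M \ C) (b + 1, p) v} with hW
  have hWc : L.Comp (M \ C) W := comp_cluster (hcol (hm p (le_refl _) hpq))
  have hB : L.Con (L.bd W C) := con_bd (exact_rect _ _ _ _ _) hCc hCM hWc
  have hBsub : L.bd W C ⊆ rect a b p q ∩ L.col (!c) ω := by
    rintro v ⟨hv, u, hu, huv⟩
    have h1 := hWc.sub hv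
    have h2 := hCb u hu
    have h3 := huv.near
    rw [abs_le, abs_le] at h3
    have h4 : v ∉ S := fun h => h1.2 (Or.inl h)
    have h5 := h1.1
    rw [hSm] at h4
    rw [hMm] at h5
    have h6 : v ∈ rect a b p q := by
      rw [hRm]
      omega
    refine ⟨h6, TD1_bool fun hc => h1.2 (Or.inr (TD1_grow hu huv h6 hc))⟩
  have hrow : ∀ y, p ≤ y → y ≤ q → ∃ v ∈ L.bd W C, v.2 = y := by
    intro y hy1 hy2
    have hT : L.Con (rect (a - 1) (b + 1) y y) := con_rect _ _ _ _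
    have m1 : ((a - 1, y) : Pt) ∈ rect (a - 1) (b + 1) y y :=
      ⟨⟨le_refl _, by simp only []; omega⟩, le_refl _, le_refl _⟩
    have m2 : ((b + 1, y) : Pt) ∈ rect (a - 1) (b + 1) y y :=
      ⟨⟨by simp only []; omega, le_refl _⟩, le_refl _, le_refl _⟩
    have m3 : ((a - 1, y) : Pt) ∈ C := Or.inl ⟨⟨le_refl _, le_refl _⟩, hy1, hy2⟩
    have m4 : ((b + 1, y) : Pt) ∉ C := (hcol (hm y hy1 hy2)).2
    obtain ⟨z, w, hz, hzC, hzw, hw⟩ := (hT _ m1 _ m2).last m3 m4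
    have hTM : rect (a - 1) (b + 1) y y \ C ⊆ M \ C := by
      rintro v ⟨hv, hvC⟩
      have h1 : (a - 1 ≤ v.1 ∧ v.1 ≤ b + 1) ∧ y ≤ v.2 ∧ v.2 ≤ y := hv
      refine ⟨?_, hvC⟩
      rw [hMm]
      omega
    have h2 : L.Cn (M \ C) (b + 1, p) (b + 1, y) :=
      (con_rect _ _ _ _ _ (hm p (le_refl _) hpq) _ (hm y hy1 hy2)).mono hcol
    refine ⟨w, ⟨h2.trans (hw.mono hTM).symm, z, hzC, hzw⟩, ?_⟩
    have h3 : (a - 1 ≤ w.1 ∧ w.1 ≤ b + 1) ∧ y ≤ w.2 ∧ w.2 ≤ y := hw.left.1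
    omega
  obtain ⟨u, hu, hup⟩ := hrow p (le_refl _) hpq
  obtain ⟨v, hv, hvq⟩ := hrow q hpq (le_refl _)
  exact ⟨u, v, hup, hvq, (hB u hu v hv).mono hBsub⟩

/-- From `cross`: the two connected sets would meet, but a site has only one colour. -/
theorem hex_not {a b p q : ℤ} {c : Bool} {ω : Cfg} (h : L.HX c a b p q ω)
    (h' : L.VX (!c) a b p q ω) : False := by
  obtain ⟨u, v, hu, hv, huv⟩ := h
  obtain ⟨u', v', hu', hv', huv'⟩ := h'
  obtain ⟨z, hz, hz'⟩ := cross (con_cluster (rect a b p q ∩ L.col c ω) u)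
    (con_cluster (rect a b p q ∩ L.col (!c) ω) u') (fun w hw => (Cn.right hw).1)
    (fun w hw => (Cn.right hw).1) ⟨u, Cn.refl huv.left, hu⟩ ⟨v, huv, hv⟩
    ⟨u', Cn.refl huv'.left, hu'⟩ ⟨v', huv', hv'⟩
  have h1 : L.st ω z = c := (Cn.right hz).2
  have h2 : L.st ω z = !c := (Cn.right hz').2
  rw [h1] at h2
  revert h2
  cases c <;> decide

theorem not_hx {a b p q : ℤ} (hab : a ≤ b) (hpq : p ≤ q) (c : Bool) (ω : Cfg) :
    ¬ L.HX c a b p q ω ↔ L.VX (!c) a b p q ω := by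
  exact ⟨fun h => (hex_or hab hpq c ω).resolve_left h, fun h h' => hex_not h' h⟩

theorem not_vx {a b p q : ℤ} (hab : a ≤ b) (hpq : p ≤ q) (c : Bool) (ω : Cfg) :
    ¬ L.VX c a b p q ω ↔ L.HX (!c) a b p q ω := by
  constructor
  · intro h
    have h1 := hex_or (L := L) hab hpq (!c) ω
    rw [Bool.not_not] at h1
    exact h1.resolve_right h
  · intro h h'
    refine hex_not h ?_
    rw [Bool.not_not]
    exact h'

/-- GENERAL DUALITY (used for the four arm events).  `M` exact, `In ⊆ M` connected; `x`, `x'` are sites of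
colour `c` of `M \ In` with a neighbour in `In`, joined in colour `c` in `M \ In` to `y`, `y'`, and `x` is not
joined to `x'` in colour `c` in `M \ In`.  Then every connected `Γ ⊆ M` with `y, y' ∈ Γ` meets
`In ∪ cl (!c) (M \ In) In ω`.  Proof: let `C = In ∪ cl (!c) (M \ In) In ω`, connected.  If `Γ` does not meet `C` it lies
in a component `V` of `M \ C`.  The path from `x` to `y` has colour `c`, lies in `M \ In`, so it does not
meet `C`; it belongs to `V`, `x ∈ bd V C`; the same for `x'`.  `bd V C` is connected (`con_bd`) and all its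
sites have colour `c` and lie in `M \ In`.  So `x` and `x'` are joined, contradiction. -/
theorem dual_sep {M In Γ : Set Pt} (hM : ∀ C, In ⊆ C → L.Exact M C) (hIn : L.Con In)
    (hne : In.Nonempty) (hInM : In ⊆ M) {c : Bool} {ω : Cfg} {x x' y y' : Pt} (hx : x ∈ L.nb In)
    (hx' : x' ∈ L.nb In) (hxy : L.Cn ((M \ In) ∩ L.col c ω) x y)
    (hxy' : L.Cn ((M \ In) ∩ L.col c ω) x' y') (hn : ¬ L.Cn ((M \ In) ∩ L.col c ω) x x')
    (hΓ : L.Con Γ) (hΓM : Γ ⊆ M) (hy : y ∈ Γ) (hy' : y' ∈ Γ) :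
    (Γ ∩ (In ∪ L.cl (!c) (M \ In) In ω)).Nonempty := by
  by_contra hcon
  set C : Set Pt := In ∪ L.cl (!c) (M \ In) In ω with hC
  have hΓC : Γ ⊆ M \ C := fun v hv => ⟨hΓM hv, fun hvC => hcon ⟨v, hv, hvC⟩⟩
  have hCc : L.Con C := TD1_con hIn
  have hCM : C ⊆ M := by
    rintro v (hv | hv)
    · exact hInM hv
    · exact (TD1_cl_sub hv).1.1
  have hcol : (M \ In) ∩ L.col c ω ⊆ M \ C := by
    rintro v ⟨⟨hvM, hvI⟩, hvc⟩
    refine ⟨hvM, ?_⟩
    rintro (h | h)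
    · exact hvI h
    · have h1 : L.st ω v = c := hvc
      have h2 : L.st ω v = !c := (TD1_cl_sub h).2
      rw [h1] at h2
      revert h2
      cases c <;> decide
  set V : Set Pt := {v | L.Cn (M \ C) y v} with hV
  have hVc : L.Comp (M \ C) V := comp_cluster (hΓC hy)
  have hΓV : Γ ⊆ V := hVc.absorb hΓ hΓC ⟨y, hy, Cn.refl (hΓC hy)⟩
  have hxV : x ∈ V := (hxy.mono hcol).symm
  have hxV' : x' ∈ V := Cn.trans (hΓV hy') (hxy'.mono hcol).symm
  have hB : L.Con (L.bd V C) := con_bd (hM C Set.subset_union_left) hCc hCM hVc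
  have hBsub : L.bd V C ⊆ (M \ In) ∩ L.col c ω := by
    rintro v ⟨hv, u, hu, huv⟩
    have h1 := hVc.sub hv
    have h2 : v ∈ M \ In := ⟨h1.1, fun h => h1.2 (Or.inl h)⟩
    refine ⟨h2, ?_⟩
    by_contra hc
    exact h1.2 (Or.inr (TD1_grow hu huv h2 (TD1_bool hc)))
  obtain ⟨w, hw, hwx⟩ := hx
  obtain ⟨w', hw', hwx'⟩ := hx'
  exact hn ((hB x ⟨hxV, w, Or.inl hw, hwx⟩ x' ⟨hxV', w', Or.inl hw', hwx'⟩).mono hBsub)

end Lat

end SC
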