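import Pool.Agent.Lib_MP_e0a489.FI1
import Pool.Agent.Lib_MP_e0a489.TD1
import Pool.Agent.Lib_MP_e0a489.TE3

/-!
# MP_e0a489, module FI 2: duality for the crossing of the domain
-/

set_option autoImplicit false

namespace SC

open Classical

namespace Lat

variable {L : Lat} {N N' : ℤ} {E : Set Pt} {ω : Cfg}

theorem force_adj (L : Lat) (E : Set Pt) (u v : Pt) : (L.force E).Adj u v ↔ L.Adj u v := Iff.rfl

theorem force_cn (L : Lat) (E A : Set Pt) (u v : Pt) : (L.force E).Cn A u v ↔ L.Cn A u v := Iff.rfl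

/-- sites of `E` are open for `force`, the other sites keep their colour -/
theorem force_col (L : Lat) (E : Set Pt) (ω : Cfg) (v : Pt) :
    (v ∈ (L.force E).col true ω ↔ v ∈ E ∨ v ∈ L.col true ω) ∧
      (v ∈ (L.force E).col false ω ↔ v ∉ E ∧ v ∈ L.col false ω) := by
  have e : (L.force E).st ω v = if v ∈ E then true else L.st ω v := by
    unfold Lat.st Lat.force
    by_cases hv : v ∈ E
    · simp [hv]
    · simp [hv]
  have h1 : ∀ c : Bool, v ∈ (L.force E).col c ω ↔ (if v ∈ E then true else L.st ω v) = c := by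
    intro c
    show (L.force E).st ω v = c ↔ _
    rw [e]
  have h2 : ∀ c : Bool, v ∈ L.col c ω ↔ L.st ω v = c := fun c => Iff.rfl
  rw [h1, h1, h2, h2]
  by_cases hv : v ∈ E
  · simp [hv]
  · simp [hv]

/-- `Crs` is a crossing of the full rectangle in the lattice where the sites of `E` are open.
From left to right: the end `v` of the path has `v.1 = N`, or `(v.1 + 1, v.2) ∈ E`, then `v.1 + 1 = N` (`GoodE`) and we add the step
to the open site `(N, v.2)` of the rectangle (`v ∈ rect`).  The path is in `dom ∩ col true ⊆ rect ∩ (force E).col true`.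
From right to left: let `Cn (rect ∩ (force E).col true) u v`, `u.1 = -N`, `v.1 = N`; `u ∉ E` as `-N < N`.  If `v` is reached
in `S = Eᶜ` (that is `Cn (.. ∩ Eᶜ) u v`) we are done (`v ∈ rside`).  Otherwise consider the set `S = {z | Cn (.. ∩ Eᶜ) u z}`, `u ∈ S`, `v ∉ S`, and use
`Cn.exit`: `p ∈ S`, `Adj p q`, `q ∈ rect ∩ (force E).col true`, `q ∉ S`, so `q ∈ E`, `q.1 = N`, `p ∉ E`.  `|p.1 - N| ≤ 1` (`Adj.near`) and `p.1 ≤ N`: if `p.1 = N` then
`p ∈ rside`; if `p.1 = N - 1` then `p.2 = q.2` (`GoodE`), `(p.1 + 1, p.2) = q ∈ E`, so `p ∈ rside`.  The path from `u` to `p`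
is in `dom ∩ col true`. -/
theorem crs_iff (hN : 0 < N) (hE : GoodE L N E) (ω : Cfg) :
    L.Crs N N' E ω ↔ (L.force E).HX true (-N) N (-N') N' ω := by
  have hsub : dom N N' E ∩ L.col true ω ⊆ rect (-N) N (-N') N' ∩ (L.force E).col true ω := by
    rintro z ⟨⟨h1, h2⟩, h3⟩
    exact ⟨h1, (force_col L E ω z).1.2 (Or.inr h3)⟩
  constructor
  · rintro ⟨u, hu, v, hv, huv⟩
    have h1 := huv.mono hsub
    rcases hv with hv | hv
    · exact ⟨u, v, hu, hv, h1⟩
    · have h2 : v.1 + 1 = N := (hE _ hv).1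
      have hw : ((v.1 + 1, v.2) : Pt) ∈ rect (-N) N (-N') N' ∩ (L.force E).col true ω := by
        refine ⟨⟨⟨?_, ?_⟩, h1.right.1.2⟩, (force_col L E ω _).1.2 (Or.inl hv)⟩
        · show -N ≤ v.1 + 1
          linarith
        · show v.1 + 1 ≤ N
          linarith
      refine ⟨u, (v.1 + 1, v.2), hu, h2, ?_⟩
      have h3 : L.Adj v (v.1 + 1, v.2) := Or.inl (Or.inl ⟨rfl, rfl⟩)
      exact h1.trans (Cn.of_adj h1.right hw h3)
  · rintro ⟨u, v, hu, hv, huv⟩
    have huv' : L.Cn (rect (-N) N (-N') N' ∩ (L.force E).col true ω) u v := huv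
    have huE : u ∉ E := by
      intro h
      have := (hE u h).1
      linarith
    have hdom : (rect (-N) N (-N') N' ∩ (L.force E).col true ω) ∩ Eᶜ ⊆
        dom N N' E ∩ L.col true ω := by
      rintro z ⟨⟨h1, h2⟩, h3⟩
      refine ⟨⟨h1, h3⟩, ?_⟩
      rcases (force_col L E ω z).1.1 h2 with h4 | h4
      · exact absurd h4 h3
      · exact h4
    by_cases hvS : L.Cn ((rect (-N) N (-N') N' ∩ (L.force E).col true ω) ∩ Eᶜ) u v
    · exact ⟨u, hu, v, Or.inl hv, hvS.mono hdom⟩
    · obtain ⟨p, q, hp, hpq, hq, hqS⟩ := huv'.exit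
        (S := {z | L.Cn ((rect (-N) N (-N') N' ∩ (L.force E).col true ω) ∩ Eᶜ) u z})
        (Cn.refl ⟨huv'.left, huE⟩) hvS
      have hpS : L.Cn ((rect (-N) N (-N') N' ∩ (L.force E).col true ω) ∩ Eᶜ) u p := hp.right.2
      have hqE : q ∈ E := by
        by_contra hqE
        exact hqS (hpS.trans (Cn.of_adj hpS.right ⟨hq, hqE⟩ hpq))
      obtain ⟨hqN, hq2⟩ := hE q hqE
      have hpN : p.1 ≤ N := hpS.right.1.1.1.2
      have hnear := (Adj.near hpq).1
      rw [abs_le] at hnear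
      refine ⟨u, hu, p, ?_, hpS.mono hdom⟩
      rcases (by omega : p.1 = N ∨ p.1 = N - 1) with h | h
      · exact Or.inl h
      · right
        have h2 := hq2 p hpq h
        have h3 : ((p.1 + 1, p.2) : Pt) = q := by
          apply Prod.ext
          · show p.1 + 1 = q.1
            linarith
          · exact h2
        rw [h3]
        exact hqE

/-- no crossing: closed path in the domain from the bottom to the top (`not_hx` for `force`, `crs_iff`; `rect ∩ (force E).col false = dom ∩ col false`) -/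
theorem closed_of_not_crs (hN : 0 < N) (hN' : 0 < N') (hE : GoodE L N E) (h : ¬ L.Crs N N' E ω) :
    ∃ u ∈ {v : Pt | v.2 = -N'}, ∃ v ∈ {v : Pt | v.2 = N'},
      L.Cn (dom N N' E ∩ L.col false ω) u v := by
  rw [crs_iff hN hE ω] at h
  have h1 := (not_hx (L := L.force E) (by linarith) (by linarith) true ω).1 h
  obtain ⟨u, v, hu, hv, huv⟩ := h1
  refine ⟨u, hu, v, hv, ?_⟩
  have huv' : L.Cn (rect (-N) N (-N') N' ∩ (L.force E).col false ω) u v := huv
  refine huv'.mono ?_
  rintro z ⟨h2, h3⟩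
  obtain ⟨h4, h5⟩ := (force_col L E ω z).2.1 h3
  exact ⟨⟨h2, h4⟩, h5⟩

/-- `hex_not` for `force` -/
theorem not_closed_of_crs (hN : 0 < N) (hE : GoodE L N E) (h : L.Crs N N' E ω) :
    ∀ u ∈ {v : Pt | v.2 = -N'}, ∀ v ∈ {v : Pt | v.2 = N'},
      ¬ L.Cn (dom N N' E ∩ L.col false ω) u v := by
  intro u hu v hv hc
  have h1 := (crs_iff hN hE ω).1 h
  refine hex_not (c := true) h1 ?_
  refine ⟨u, v, hu, hv, ?_⟩
  show L.Cn (rect (-N) N (-N') N' ∩ (L.force E).col false ω) u v
  refine hc.mono ?_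
  rintro z ⟨⟨h2, h3⟩, h4⟩
  exact ⟨h2, (force_col L E ω z).2.2 ⟨h3, h4⟩⟩

/-- the crossing depends only on the domain (`Arm.dep`) -/
theorem Crs.dep (L : Lat) (N N' : ℤ) (E : Set Pt) : Dep (L.Crs N N' E) (dom N N' E) := by
  exact Arm.dep L true (dom N N' E) {v | v.1 = -N} (rside N E)

end Lat

end SC
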