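import Pool.Agent.Lib_MP_e0a489.FI10

/-!
# MP_e0a489, module FI 20: construction of `AF`
-/

set_option autoImplicit false

namespace SC

namespace FI

/-- `C` = maximum of the three constants, `R₀` = maximum of the thresholds, `γ = 1 - c₃ / 2` (so `2 γ = 2 - c₃`), `c = c₂`.  `C f r R` increases with `C`
because `f ≥ 0`, and `C (r/R)^(1+c)` increases with `C`.  (For `r = R` in `up`: `(r / R) = 1`, fine.) -/
theorem AF_of {f : ℤ → ℤ → ℝ} {C₁ C₂ C₃ c₂ c₃ : ℝ} {R₁ R₂ R₃ : ℤ} (h1 : 1 ≤ C₁)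
    (h2 : 0 < c₂) (h3 : 0 < c₃) (h4 : c₃ ≤ 1 / 2) (h16 : 16 ≤ R₁) (nn : ∀ r R, 0 ≤ f r R)
    (le1 : ∀ r R, f r R ≤ 1) (one : ∀ r R, R ≤ r → f r R = 1)
    (mono : ∀ r R r' R', 0 ≤ r' → r' ≤ r → r ≤ R → R ≤ R' → f r' R' ≤ f r R)
    (sub : ∀ r ρ R, 0 ≤ r → r ≤ ρ → ρ ≤ R → f r R ≤ f r ρ * f ρ R)
    (qm : ∀ r ρ R, R₁ ≤ r → r ≤ ρ → ρ ≤ R → f r ρ * f ρ R ≤ C₁ * f r R)
    (up : ∀ r R, R₂ ≤ r → r ≤ R → f r R ≤ C₂ * ((r : ℝ) / R) ^ (1 + c₂))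
    (lo : ∀ r R, R₃ ≤ r → r ≤ R → ((r : ℝ) / R) ^ (2 - c₃) ≤ C₃ * f r R) :
    AF f (max C₁ (max C₂ C₃)) c₂ (1 - c₃ / 2) (max R₁ (max R₂ R₃)) := by
  have e1 : C₁ ≤ max C₁ (max C₂ C₃) := le_max_left _ _
  have e2 : C₂ ≤ max C₁ (max C₂ C₃) := (le_max_left _ _).trans (le_max_right _ _)
  have e3 : C₃ ≤ max C₁ (max C₂ C₃) := (le_max_right _ _).trans (le_max_right _ _)
  have r1 : R₁ ≤ max R₁ (max R₂ R₃) := le_max_left _ _
  have r2 : R₂ ≤ max R₁ (max R₂ R₃) := (le_max_left _ _).trans (le_max_right _ _)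
  have r3 : R₃ ≤ max R₁ (max R₂ R₃) := (le_max_right _ _).trans (le_max_right _ _)
  have r0 : ∀ {r R : ℤ}, max R₁ (max R₂ R₃) ≤ r → r ≤ R → (0 : ℝ) ≤ (r : ℝ) / R := by
    intro r R hr hrR
    have h5 : (0 : ℤ) ≤ r := by omega
    have h6 : (0 : ℤ) ≤ R := by omega
    exact div_nonneg (by exact_mod_cast h5) (by exact_mod_cast h6)
  refine ⟨⟨h1.trans e1, by linarith, by linarith, h16.trans r1, nn, le1, one, mono, ?_, ?_⟩,
    h2, by linarith, sub, ?_⟩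
  · intro r ρ R hr hρ hR
    exact (qm r ρ R (r1.trans hr) hρ hR).trans (mul_le_mul_of_nonneg_right e1 (nn r R))
  · intro r R hr hrR
    have h7 : 2 * (1 - c₃ / 2) = 2 - c₃ := by ring
    rw [h7]
    exact (lo r R (r3.trans hr) hrR).trans (mul_le_mul_of_nonneg_right e3 (nn r R))
  · intro r R hr hrR
    exact (up r R (r2.trans hr) hrR).trans
      (mul_le_mul_of_nonneg_right e2 (Real.rpow_nonneg (r0 hr hrR) _))

end FI

end SC
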