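import Pool.Agent.Lib_MP_e0a489.FI14b
import Pool.Agent.Lib_MP_e0a489.FI15
import Pool.Agent.Lib_MP_e0a489.FI17
import Pool.Agent.Lib_MP_e0a489.FI18

/-!
# MP_e0a489, module FI 21: the spectral estimate from the abstract properties
-/

set_option autoImplicit false

namespace SC

open Classical

namespace FI

private theorem nrm_le {N N' : ℤ} {E : Set Pt} {u v : Pt} (h2 : N' ≤ 2 * N)
    (hu : u ∈ dom N N' E) (hv : v ∈ dom N N' E) : nrm (u - v) ≤ 4 * N := by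
  obtain ⟨⟨⟨a1, a2⟩, a3, a4⟩, -⟩ := hu
  obtain ⟨⟨⟨b1, b2⟩, b3, b4⟩, -⟩ := hv
  unfold nrm
  rw [Prod.fst_sub, Prod.snd_sub]
  refine max_le (abs_le.2 ⟨by omega, by omega⟩) (abs_le.2 ⟨by omega, by omega⟩)

private theorem num1 {S₁ Cs Ca D c₁ x y T : ℝ} (hCs : 0 < Cs) (hCa : 0 < Ca) (hc : 0 < c₁)
    (hx : 0 ≤ x) (h1 : S₁ ≤ Cs * T) (h2 : T ≤ Ca * (D ^ 2 * x)) (h3 : c₁ ≤ y) :
    3 * S₁ ≤ 3 * Cs * Ca * D ^ 2 / c₁ * x * y := by
  have h4 : Cs * T ≤ Cs * (Ca * (D ^ 2 * x)) := mul_le_mul_of_nonneg_left h2 hCs.le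
  have h5 : 3 * Cs * Ca * D ^ 2 / c₁ * x * y = 3 * (Cs * (Ca * (D ^ 2 * x))) * (y / c₁) := by
    ring
  have h6 : 1 ≤ y / c₁ := by
    rw [le_div_iff₀ hc, one_mul]
    exact h3
  have h7 : 0 ≤ 3 * (Cs * (Ca * (D ^ 2 * x))) := by positivity
  rw [h5]
  calc 3 * S₁ ≤ 3 * (Cs * (Ca * (D ^ 2 * x))) * 1 := by linarith
    _ ≤ _ := mul_le_mul_of_nonneg_left h6 h7

private theorem num2 {S₂ Cq Cp D x y X Y : ℝ} (hCq : 0 < Cq) (hCp : 0 < Cp)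
    (hx : 0 ≤ x) (hY : 0 ≤ Y) (h1 : S₂ ≤ Cq * Cp * (X * Y)) (h2 : X ≤ D ^ 2 * x)
    (h3 : Y ≤ D ^ 2 * y) : 3 * S₂ ≤ 3 * Cq * Cp * D ^ 4 * x * y := by
  have h4 : X * Y ≤ D ^ 2 * x * (D ^ 2 * y) := mul_le_mul h2 h3 hY (by positivity)
  have h5 : Cq * Cp * (X * Y) ≤ Cq * Cp * (D ^ 2 * x * (D ^ 2 * y)) :=
    mul_le_mul_of_nonneg_left h4 (by positivity)
  have h6 : 3 * Cq * Cp * D ^ 4 * x * y = 3 * (Cq * Cp * (D ^ 2 * x * (D ^ 2 * y))) := by ring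
  rw [h6]
  linarith

private theorem num3 {a₁ a₂ a₃ x y s : ℝ} (h1 : 0 ≤ a₁) (h2 : 0 ≤ a₂) (h3 : 0 ≤ a₃)
    (hx : 0 ≤ x) (hy : 0 ≤ y)
    (h : s ≤ a₁ * x * y ∨ s ≤ a₂ * x * y ∨ s ≤ a₃ * x * y) : s ≤ (a₁ + a₂ + a₃) * x * y := by
  have e1 : 0 ≤ a₁ * x * y := by positivity
  have e2 : 0 ≤ a₂ * x * y := by positivity
  have e3 : 0 ≤ a₃ * x * y := by positivity
  have e4 : (a₁ + a₂ + a₃) * x * y = a₁ * x * y + a₂ * x * y + a₃ * x * y := by ring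
  rcases h with h | h | h <;> linarith

theorem spectral_of {L : Lat} {C c γ M : ℝ} {Λ R₀ : ℤ} (hF : AF (al L) C c γ R₀) (hM : 1 ≤ M)
    (hΛ : 1 ≤ Λ)
    (hT : ∀ (ℓ : ℤ) (t : ℝ), R₀ ≤ ℓ → 1 ≤ t * ((ℓ : ℝ) ^ 2 * al L R₀ ℓ) → TB L M (Λ * ℓ) t)
    {A : ℝ} (hA : 0 < A) :
    ∃ C' : ℝ, 0 < C' ∧ ∀ (r d N N' : ℤ) (E : Set Pt),
      R₀ ≤ r → r ≤ N → N ≤ 2 * N' → N' ≤ 2 * N → GoodE L N E →
      ∀ F : Finset Pt, (∀ v, v ∈ F ↔ v ∈ dom N N' E) →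
      ∑ S ∈ F.powerset.filter (fun S => ((S.card : ℝ) ≤ A * ((r : ℝ) ^ 2 * al L R₀ r)) ∧
          ∃ u ∈ S, ∃ v ∈ S, d ≤ nrm (u - v)),
        fc (ind (L.Crs N N' E)) S ^ 2 ≤
      C' * (((N : ℝ) / r) * al L r N) ^ 2 *
        ((((max d r : ℤ) : ℝ) / r) * al L r (max d r)) ^ 2 := by
  obtain ⟨K, hK1, hK⟩ := hF.growth A
  obtain ⟨Cp, hCp, hp⟩ := pair_le hF.toAG hM
  obtain ⟨Cs, hCs, hs⟩ := single_le hF.toAG hM
  obtain ⟨Cq, hCq, hq⟩ := hF.pairs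
  obtain ⟨Ca, hCa, ha⟩ := hF.sum_all
  have hΛK : 1 ≤ Λ * K := by nlinarith
  have hΛKr : (1 : ℝ) ≤ ((Λ * K : ℤ) : ℝ) := by exact_mod_cast hΛK
  obtain ⟨B, hB⟩ : ∃ B : ℝ, B = 1024 * ((Λ * K : ℤ) : ℝ) := ⟨_, rfl⟩
  have hB2 : 1024 ≤ B := by rw [hB]; linarith
  have hB1 : 1 ≤ B := by linarith
  obtain ⟨c₁, hc₁, hl⟩ := hF.toAG.phi_low hB1
  have hC1 := hF.C1
  have h16 := hF.R16
  obtain ⟨D, hD⟩ : ∃ D : ℝ, D = C ^ 4 * B ^ 6 := ⟨_, rfl⟩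
  have hD0 : 0 < D := by
    rw [hD]
    have : 0 < C := by linarith
    have : 0 < B := by linarith
    positivity
  refine ⟨1 / c₁ ^ 2 + 3 * Cs * Ca * D ^ 2 / c₁ + 3 * Cq * Cp * D ^ 4, by positivity, ?_⟩
  intro r d N N' E hr hrN hNN hNN' hE F hFd
  have hr0 : (0 : ℝ) < r := by exact_mod_cast (show (0 : ℤ) < r by omega)
  obtain ⟨e, he⟩ : ∃ e : ℤ, e = max d r := ⟨_, rfl⟩
  rw [← he]
  have hre : r ≤ e := by rw [he]; exact le_max_right _ _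
  obtain ⟨x, hx⟩ : ∃ x : ℝ, x = (((N : ℝ) / r) * al L r N) ^ 2 := ⟨_, rfl⟩
  obtain ⟨y, hy⟩ : ∃ y : ℝ, y = (((e : ℝ) / r) * al L r e) ^ 2 := ⟨_, rfl⟩
  rw [← hx, ← hy]
  have hx0 : 0 ≤ x := by rw [hx]; positivity
  have hy0 : 0 ≤ y := by rw [hy]; positivity
  refine num3 (by positivity) (by positivity) (by positivity) hx0 hy0 ?_
  by_cases h4N : 4 * N < d
  · -- no set
    have he : F.powerset.filter (fun S => ((S.card : ℝ) ≤ A * ((r : ℝ) ^ 2 * al L R₀ r)) ∧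
        ∃ u ∈ S, ∃ v ∈ S, d ≤ nrm (u - v)) = ∅ := by
      refine Finset.filter_eq_empty_iff.2 ?_
      rintro S hS ⟨-, u, hu, v, hv, huv⟩
      have hSF := Finset.mem_powerset.1 hS
      have := nrm_le hNN' ((hFd u).1 (hSF hu)) ((hFd v).1 (hSF hv))
      omega
    rw [he, Finset.sum_empty]
    left
    positivity
  push Not at h4N
  obtain ⟨n, hn⟩ : ∃ n : ℤ, n = min N N' := ⟨_, rfl⟩
  have hnN : n ≤ N := by omega
  have hnN' : n ≤ N' := by omega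
  have hN2n : N ≤ 2 * n := by omega
  have hN'2n : N' ≤ 2 * n := by omega
  have he4 : e ≤ 4 * N := by omega
  obtain ⟨w, hw⟩ : ∃ w : ℤ, w = Λ * (K * r) := ⟨_, rfl⟩
  have hKr : r ≤ K * r := by nlinarith
  have hwr : r ≤ w := by rw [hw]; nlinarith
  have hwreal : (w : ℝ) = ((Λ * K : ℤ) : ℝ) * r := by rw [hw]; push_cast; ring
  have hBr : B * r = 1024 * w := by rw [hB, hwreal]; ring
  have hNreal : (N : ℝ) ≤ 2 * (n : ℝ) := by exact_mod_cast hN2n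
  have hnreal : (n : ℝ) ≤ (N : ℝ) := by exact_mod_cast hnN
  have hereal : (e : ℝ) ≤ 4 * (N : ℝ) := by exact_mod_cast he4
  have hrNr : (r : ℝ) ≤ N := by exact_mod_cast hrN
  have hrer : (r : ℝ) ≤ e := by exact_mod_cast hre
  by_cases hwn : n < w
  · -- everything of order one
    have hnw : (n : ℝ) ≤ w := by exact_mod_cast hwn.le
    have e1 : (N : ℝ) ≤ B * r := by rw [hBr]; linarith
    have e2 : (e : ℝ) ≤ B * r := by rw [hBr]; linarith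
    have f1 : c₁ ≤ x := hx ▸ hl r N hr hrN e1
    have f2 : c₁ ≤ y := hy ▸ hl r e hr hre e2
    have f3 : c₁ * c₁ ≤ x * y := mul_le_mul f1 f2 hc₁.le hx0
    have f4 : (1 : ℝ) ≤ 1 / c₁ ^ 2 * x * y := by
      rw [mul_assoc, one_div, ← div_eq_inv_mul, le_div_iff₀ (by positivity)]
      nlinarith
    have f5 : ∑ S ∈ F.powerset.filter (fun S => ((S.card : ℝ) ≤ A * ((r : ℝ) ^ 2 * al L R₀ r)) ∧
        ∃ u ∈ S, ∃ v ∈ S, d ≤ nrm (u - v)), fc (ind (L.Crs N N' E)) S ^ 2 ≤ 1 := by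
      have f6 := small_one (L := L) hFd (fun S => ((S.card : ℝ) ≤ A * ((r : ℝ) ^ 2 * al L R₀ r)) ∧
        ∃ u ∈ S, ∃ v ∈ S, d ≤ nrm (u - v))
      convert f6
    exact Or.inl (f5.trans f4)
  push Not at hwn
  have hw1 : 1 ≤ w := by omega
  have hR0w : R₀ ≤ w := by omega
  -- the time
  have hal : 0 < al L R₀ r := by
    have h1 := hF.lo R₀ r le_rfl hr
    have h2 : (0 : ℝ) < ((R₀ : ℝ) / r) ^ (2 * γ) := by
      apply Real.rpow_pos_of_pos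
      have : (0 : ℝ) < R₀ := by exact_mod_cast (show (0 : ℤ) < R₀ by omega)
      positivity
    have h3 : 0 < C * al L R₀ r := lt_of_lt_of_le h2 h1
    exact (mul_pos_iff_of_pos_left (by linarith)).1 h3
  have ha0 : 0 < A * ((r : ℝ) ^ 2 * al L R₀ r) := by positivity
  obtain ⟨t, ht⟩ : ∃ t : ℝ, t = 1 / (A * ((r : ℝ) ^ 2 * al L R₀ r)) := ⟨_, rfl⟩
  have ht0 : 0 < t := by rw [ht]; positivity
  have hta : t * (A * ((r : ℝ) ^ 2 * al L R₀ r)) ≤ 1 := by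
    rw [ht, one_div, inv_mul_cancel₀ ha0.ne']
  have hTB : TB L M w t := by
    rw [hw]
    refine hT (K * r) t (by omega) ?_
    have h1 := hK r hr
    rw [ht, one_div, ← div_eq_inv_mul, le_div_iff₀ ha0, one_mul]
    exact h1
  have hw0 : (0 : ℝ) < w := by exact_mod_cast (show (0 : ℤ) < w by omega)
  have hn0 : (0 : ℝ) < n := by exact_mod_cast (show (0 : ℤ) < n by omega)
  have hrw : (r : ℝ) ≤ w := by exact_mod_cast hwr
  have g1 : (w : ℝ) ≤ B * r := by rw [hBr]; linarith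
  have g2 : (r : ℝ) ≤ B * w := by nlinarith
  have g3 : (N : ℝ) ≤ B * n := by nlinarith
  have g4 : (n : ℝ) ≤ B * N := by nlinarith
  have hΦw : (n : ℝ) / w * al L w n ≤ D * ((N : ℝ) / r * al L r N) := by
    rw [hD]
    exact hF.toAG.phi (r := w) (R := n) (r' := r) (R' := N) hB1 hR0w hr g1 g2 g3 g4 (by omega)
  have hΦw0 : 0 ≤ (n : ℝ) / w * al L w n := by
    have := hF.nn w n
    positivity
  have hΦw2 : ((n : ℝ) / w * al L w n) ^ 2 ≤ D ^ 2 * x := by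
    rw [hx, ← mul_pow]
    exact pow_le_pow_left₀ hΦw0 hΦw 2
  by_cases hd : d < 64 * w
  · -- one block
    right; left
    refine (small_single (g := ind (L.Crs N N' E)) (F := F) (d := d) ht0.le hta hw1).trans ?_
    have h2 : ∑ z ∈ fz F w, ∑ S ∈ F.powerset.filter (fun S => ¬ Disjoint S (fb F w z)),
        (∏ v ∈ S, kt t v) * fc (ind (L.Crs N N' E)) S ^ 2 ≤
        Cs * ∑ z ∈ fz F w, gg (al L) γ N N' w n (sc w z) := by
      rw [Finset.mul_sum]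
      refine Finset.sum_le_sum fun z hz => ?_
      have hz2 := fz_pos hw1 hFd z hz
      exact hs t w hR0w hTB N N' n z E hwn hnN hnN' hz2.1 hz2.2 hE F hFd
    have h3 := ha w N N' n (fz F w) hw1 hwn hN2n hN'2n (fz_pos hw1 hFd)
    have e2 : (e : ℝ) ≤ B * r := by
      have h4 : e ≤ 64 * w := by omega
      have : (e : ℝ) ≤ 64 * w := by exact_mod_cast h4
      rw [hBr]; linarith
    have f2 : c₁ ≤ y := hy ▸ hl r e hr hre e2
    exact num1 hCs hCa hc₁ hx0 h2 (h3.trans (mul_le_mul_of_nonneg_left hΦw2 hCa.le)) f2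
  push Not at hd
  -- two blocks
  right; right
  have hed : e = d := by omega
  refine (small_pairs (g := ind (L.Crs N N' E)) (F := F) (d := d) ht0.le hta hw1).trans ?_
  have h2 := hq w N N' n d (fz F w) (fun z z' => ∑ S ∈ F.powerset.filter
        (fun S => ¬ Disjoint S (fb F w z) ∧ ¬ Disjoint S (fb F w z')),
        (∏ v ∈ S, kt t v) * fc (ind (L.Crs N N' E)) S ^ 2) Cp hCp.le hR0w hd hwn hN2n hN'2n
        (fz_pos hw1 hFd) (by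
      intro z hz z' hz' D' hD1 hD2 hD3 hD4
      have hz2 := fz_pos hw1 hFd z hz
      have hz2' := fz_pos hw1 hFd z' hz'
      exact hp t w hR0w hTB N N' n D' z z' E
        ⟨hw1, hwn, hnN, hnN', hD1, hD2, hD3, hD4, hz2.1, hz2.2, hz2'.1, hz2'.2⟩ hE F hFd)
  have hΦwd : (d : ℝ) / w * al L w d ≤ D * ((e : ℝ) / r * al L r e) := by
    rw [hD, hed]
    have hwd : (w : ℝ) ≤ d := by exact_mod_cast (show w ≤ d by omega)
    exact hF.toAG.phi (r := w) (R := d) (r' := r) (R' := d) hB1 hR0w hr g1 g2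
      (by nlinarith) (by nlinarith) (by omega)
  have hΦwd0 : 0 ≤ (d : ℝ) / w * al L w d := by
    have : (0 : ℝ) ≤ d := by rw [hed] at hrer; linarith
    have := hF.nn w d
    positivity
  have hΦwd2 : ((d : ℝ) / w * al L w d) ^ 2 ≤ D ^ 2 * y := by
    rw [hy, ← mul_pow]
    exact pow_le_pow_left₀ hΦwd0 hΦwd 2
  exact num2 hCq hCp hx0 (sq_nonneg _) h2 hΦw2 hΦwd2

end FI

end SC
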