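import Pool.Agent.Lib_MP_e0a489.Defs2

/-!
# MP_e0a489, module XP: definitions (box events, core events, blocks, annuli around a site)
-/

set_option autoImplicit false

namespace SC

open Classical

/-! ### Annuli around a site -/

/-- box of radius `r` around `y` -/
def bxAt (y : Pt) (r : ℤ) : Set Pt := {v | nrm (v - y) ≤ r}

/-- annulus around `y` -/
def annAt (y : Pt) (r R : ℤ) : Set Pt := {v | r < nrm (v - y) ∧ nrm (v - y) ≤ R}

/-- ring around `y` -/
def rngAt (y : Pt) (R : ℤ) : Set Pt := {v | nrm (v - y) = R}

/-! ### Rectangles and blocks as finite sets -/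

/-- rectangle as a finite set -/
noncomputable def rectF (a b p q : ℤ) : Finset Pt := Finset.Icc a b ×ˢ Finset.Icc p q

/-- block as a finite set -/
noncomputable def blkF (w : ℤ) (z : Pt) : Finset Pt :=
  rectF (z.1 * w - w / 2) (z.1 * w + w / 2) (z.2 * w - w / 2) (z.2 * w + w / 2)

/-- the blocks number `z`, `|z| ≤ M`; their union is `bx (M w + w / 2)` -/
noncomputable def blks (M w : ℤ) : Finset (Finset Pt) := (rectF (-M) M (-M) M).image (blkF w)

/-! ### Box events and core events -/

/-- right side for open, upper side for closed -/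
def sdp (c : Bool) (b q : ℤ) : Set Pt := if c then {v | v.1 = b} else {v | v.2 = q}

/-- left side for open, lower side for closed -/
def sdm (c : Bool) (a p : ℤ) : Set Pt := if c then {v | v.1 = a} else {v | v.2 = p}

namespace Lat

/-- crossing of the rectangle `rect a b p q` in the direction of the colour: from left to right for open, from
bottom to top for closed -/
def DX (L : Lat) (c : Bool) (a b p q : ℤ) (ω : Cfg) : Prop :=
  if c then L.HX true a b p q ω else L.VX false a b p q ω

/-- Box event: arms of colour `c` from the inner zones of `bx r` to the two sides of the rectangle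
`rect a b p q` (in one of the two possible pairings). -/
def SQ (L : Lat) (c : Bool) (r a b p q : ℤ) (ω : Cfg) : Prop :=
  (L.Arm c (rect a b p q \ bx r ∪ Kc c r) (Ks (dc c) r) (sdp c b q) ω ∧
    L.Arm c (rect a b p q \ bx r ∪ Kc c r) (Ks (dc c + 2) r) (sdm c a p) ω) ∨
  (L.Arm c (rect a b p q \ bx r ∪ Kc c r) (Ks (dc c) r) (sdm c a p) ω ∧
    L.Arm c (rect a b p q \ bx r ∪ Kc c r) (Ks (dc c + 2) r) (sdp c b q) ω)

/-- Core event: crossing of the middle strip of `bx r` in the direction of the colour and crossings of
the two inner zones parallel to the sides. -/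
def Co (L : Lat) (c : Bool) (r : ℤ) (ω : Cfg) : Prop :=
  if c then L.HX true (-r) r (-(r / 8)) (r / 8) ω ∧
      L.VX true (r / 2 + 1) r (-(r / 8)) (r / 8) ω ∧
      L.VX true (-r) (-(r / 2) - 1) (-(r / 8)) (r / 8) ω
    else L.VX false (-(r / 8)) (r / 8) (-r) r ω ∧
      L.HX false (-(r / 8)) (r / 8) (r / 2 + 1) r ω ∧
      L.HX false (-(r / 8)) (r / 8) (-r) (-(r / 2) - 1) ω

/-- the blocks met by the exploration of the open clusters of `bx (M w + w / 2)` attached to the column
`x` -/
noncomputable def Rb (L : Lat) (M w x : ℤ) (ω : Cfg) : Finset (Finset Pt) :=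
  (blks M w).filter (fun B => ∃ v ∈ B, v ∈ L.Rev true (bx (M * w + w / 2))
    (rect x x (-(M * w + w / 2)) (M * w + w / 2)) ω)

end Lat

end SC
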