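import Pool.Agent.Lib_MP_e0a489.TE3
import Pool.Agent.Lib_MP_e0a489.XPD

/-!
# MP_e0a489, exponents 1: two configurations which agree off a box (deterministic)
-/

set_option autoImplicit false

namespace SC

namespace XP

open Classical

variable {L : Lat}

/-- `nrm` is a norm. -/
theorem nrm_comm (u v : Pt) : nrm (u - v) = nrm (v - u) := by
  unfold nrm
  rw [Prod.fst_sub, Prod.snd_sub, Prod.fst_sub, Prod.snd_sub, abs_sub_comm u.1, abs_sub_comm u.2]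

theorem nrm_add (u v : Pt) : nrm (u + v) ≤ nrm u + nrm v := by
  unfold nrm
  rw [Prod.fst_add, Prod.snd_add]
  exact max_le ((abs_add_le _ _).trans (add_le_add (le_max_left _ _) (le_max_left _ _)))
    ((abs_add_le _ _).trans (add_le_add (le_max_right _ _) (le_max_right _ _)))

/-- triangle inequality: `u - y = (u - v) + (v - y)` -/
theorem nrm_tri (u v y : Pt) : nrm (u - y) ≤ nrm (u - v) + nrm (v - y) := by
  have h := nrm_add (u - v) (v - y)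
  rwa [sub_add_sub_cancel] at h

theorem abs_nrm (v : Pt) : |v.1| ≤ nrm v ∧ |v.2| ≤ nrm v := by
  exact ⟨le_max_left _ _, le_max_right _ _⟩

theorem nrm_nonneg' (v : Pt) : 0 ≤ nrm v := by
  exact le_max_of_le_left (abs_nonneg _)

/-- `Adj.near`: adjacent sites have `nrm (u - v) ≤ 1`; triangle inequality -/
theorem adj_nrm {u v : Pt} (h : L.Adj u v) (y : Pt) : |nrm (u - y) - nrm (v - y)| ≤ 1 := by
  have h1 : nrm (u - v) ≤ 1 := max_le h.near.1 h.near.2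
  have h2 := nrm_tri u v y
  have h3 := nrm_tri v u y
  rw [nrm_comm v u] at h3
  rw [abs_le]
  constructor <;> omega

/-- The first part of a path, up to the first site at distance `R` from `y`.  If `nrm (u - y) = R` take `w = u`.
Otherwise use `Cn.exit` with `S = {z | nrm (z - y) < R}`: `Cn (A ∩ S) u p`, `Adj p q`, `q ∈ A`, `q ∉ S`, so
`nrm (q - y) = R` by `adj_nrm`; append the step `p → q`. -/
theorem to_rngAt {A : Set Pt} {u v y : Pt} {R : ℤ} (h : L.Cn A u v) (hu : nrm (u - y) ≤ R)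
    (hv : R ≤ nrm (v - y)) : ∃ w, w ∈ rngAt y R ∧ L.Cn (A ∩ {z | nrm (z - y) ≤ R}) u w := by
  by_cases hR : nrm (u - y) = R
  · exact ⟨u, hR, Lat.Cn.refl ⟨h.left, hu⟩⟩
  · obtain ⟨p, q, h1, h2, h3, h4⟩ := h.exit (S := {z | nrm (z - y) < R})
      (lt_of_le_of_ne hu hR) (fun hc => absurd hv (not_le.2 hc))
    have h5 : nrm (p - y) < R := h1.right.2
    have h6 := abs_le.1 (adj_nrm h2 y)
    have h7 : ¬ nrm (q - y) < R := h4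
    have h8 : nrm (q - y) = R := by omega
    have h9 : L.Cn (A ∩ {z | nrm (z - y) ≤ R}) u p :=
      h1.mono fun z hz => ⟨hz.1, le_of_lt (show nrm (z - y) < R from hz.2)⟩
    exact ⟨q, h8, h9.trans (Lat.Cn.of_adj h9.right ⟨h3, h8.le⟩ h2)⟩

/-- sites where the configurations agree have the same colour -/
theorem col_agree {c : Bool} {ω₁ ω₂ : Cfg} {v : Pt} (h : ω₁ v = ω₂ v) :
    v ∈ L.col c ω₁ ↔ v ∈ L.col c ω₂ := by
  show L.st ω₁ v = c ↔ L.st ω₂ v = c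
  unfold Lat.st
  rw [h]

/-- Auxiliary statement.  Let `B = {z | r < nrm (z - y)}`, `A = Q ∩ col c ω₁`.
(a) The path from `u` to `v` is not contained in `B`: otherwise `A ∩ B ⊆ Q ∩ col c ω₂` (`col_agree`) and
`Cn (Q ∩ col c ω₂) u v`.
(b) Let `S = {z | Cn (A ∩ B) u z}`; `u ∈ S` because `R ≤ nrm (u - y)`, and `v ∉ S` by (a).  `Cn.exit`:
`Cn (A ∩ S) u p`, `Adj p q`, `q ∈ A`, `q ∉ S`; so `p ∈ S`, that is `Cn (A ∩ B) u p`, and `q ∉ B` (otherwise `q ∈ S`), that is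
`q ∈ bxAt y r`, `p ∈ L.nb (bxAt y r)`.
(c) `nrm (p - y) ≤ r + 1 ≤ R`.  Apply `to_rngAt` to the reversed path `Cn (A ∩ B) p u`. -/
theorem piv_aux {c : Bool} {Q S₁ S₂ : Set Pt} {ω₁ ω₂ : Cfg} {y : Pt} {r R : ℤ} (hrR : r < R)
    (hag : ∀ v, r < nrm (v - y) → ω₁ v = ω₂ v)
    {u v : Pt} (hu : u ∈ S₁) (hv : v ∈ S₂) (h1 : L.Cn (Q ∩ L.col c ω₁) u v)
    (h2 : ∀ u ∈ S₁, ∀ v ∈ S₂, ¬ L.Cn (Q ∩ L.col c ω₂) u v)
    (hS₁ : ∀ v ∈ S₁, R ≤ nrm (v - y)) :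
    ∃ p ∈ L.nb (bxAt y r), ∃ w ∈ rngAt y R, L.Cn (Q ∩ L.col c ω₁ ∩ {z | r < nrm (z - y)}) u p ∧
      L.Cn (Q ∩ annAt y r R ∩ L.col c ω₁) p w := by
  have hna : ¬ L.Cn (Q ∩ L.col c ω₁ ∩ {z | r < nrm (z - y)}) u v := by
    intro h
    exact h2 u hu v hv (h.mono fun z hz => ⟨hz.1.1, (col_agree (hag z hz.2)).1 hz.1.2⟩)
  have huR := hS₁ u hu
  have huB : u ∈ Q ∩ L.col c ω₁ ∩ {z | r < nrm (z - y)} := ⟨h1.left, lt_of_lt_of_le hrR huR⟩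
  obtain ⟨p, q, h3, h4, h5, h6⟩ := h1.exit
    (S := {z | L.Cn (Q ∩ L.col c ω₁ ∩ {z | r < nrm (z - y)}) u z}) (Lat.Cn.refl huB) hna
  have hp : L.Cn (Q ∩ L.col c ω₁ ∩ {z | r < nrm (z - y)}) u p := h3.right.2
  have hq : ¬ r < nrm (q - y) := fun h => h6 (hp.trans (Lat.Cn.of_adj hp.right ⟨h5, h⟩ h4))
  have hpq := abs_le.1 (adj_nrm h4 y)
  obtain ⟨w, hw, hpw⟩ := to_rngAt (y := y) (R := R) hp.symm (by omega) huR
  exact ⟨p, ⟨q, not_lt.1 hq, h4.symm⟩, w, hw, hp,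
    hpw.mono fun z hz => ⟨⟨hz.1.1.1, hz.1.2, hz.2⟩, hz.1.1.2⟩⟩

/-- ONE ARM: the two configurations agree off the box of radius `r` around `y`, the sets `S₁` and `S₂` are joined
for `ω₁` and not for `ω₂`, `S₁` is at distance `≥ R`.  Immediate from `piv_aux`. -/
theorem piv_arm {c : Bool} {Q S₁ S₂ : Set Pt} {ω₁ ω₂ : Cfg} {y : Pt} {r R : ℤ} (hrR : r < R)
    (hag : ∀ v, r < nrm (v - y) → ω₁ v = ω₂ v)
    (h1 : ∃ u ∈ S₁, ∃ v ∈ S₂, L.Cn (Q ∩ L.col c ω₁) u v)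
    (h2 : ∀ u ∈ S₁, ∀ v ∈ S₂, ¬ L.Cn (Q ∩ L.col c ω₂) u v)
    (hS₁ : ∀ v ∈ S₁, R ≤ nrm (v - y)) :
    L.Arm c (Q ∩ annAt y r R) (L.nb (bxAt y r)) (rngAt y R) ω₁ := by
  obtain ⟨u, hu, v, hv, h⟩ := h1
  obtain ⟨p, hp, w, hw, -, h3⟩ := piv_aux hrR hag hu hv h h2 hS₁
  exact ⟨p, hp, w, hw, h3⟩

/-- TWO CLUSTERS.  `piv_aux` for the path from `u` to `v` and for the reversed path from `v` to `u` gives `p, w` and
`p', w'`.  If `p` and `p'` were joined in `Q ∩ annAt y r R ∩ col c ω₁`, then `u` and `v` would be joined in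
`Q ∩ col c ω₁ ∩ {z | r < nrm (z - y)} ⊆ Q ∩ col c ω₂` (`col_agree`). -/
theorem piv_two {c : Bool} {Q S₁ S₂ : Set Pt} {ω₁ ω₂ : Cfg} {y : Pt} {r R : ℤ} (hrR : r < R)
    (hag : ∀ v, r < nrm (v - y) → ω₁ v = ω₂ v)
    (h1 : ∃ u ∈ S₁, ∃ v ∈ S₂, L.Cn (Q ∩ L.col c ω₁) u v)
    (h2 : ∀ u ∈ S₁, ∀ v ∈ S₂, ¬ L.Cn (Q ∩ L.col c ω₂) u v)
    (hS₁ : ∀ v ∈ S₁, R ≤ nrm (v - y)) (hS₂ : ∀ v ∈ S₂, R ≤ nrm (v - y)) :
    L.Two c (Q ∩ annAt y r R) (L.nb (bxAt y r)) (rngAt y R) ω₁ := by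
  obtain ⟨u, hu, v, hv, h⟩ := h1
  obtain ⟨p, hp, w, hw, h3, h4⟩ := piv_aux hrR hag hu hv h h2 hS₁
  obtain ⟨p', hp', w', hw', h3', h4'⟩ := piv_aux hrR hag hv hu h.symm
    (fun a ha b hb hab => h2 b hb a ha hab.symm) hS₂
  refine ⟨p, hp, w, hw, p', hp', w', hw', h4, h4', fun h5 => ?_⟩
  have h6 : L.Cn (Q ∩ L.col c ω₁ ∩ {z | r < nrm (z - y)}) p p' :=
    h5.mono fun z hz => ⟨⟨hz.1.1, hz.2⟩, hz.1.2.1⟩
  exact h2 u hu v hv (((h3.trans h6).trans h3'.symm).mono fun z hz =>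
    ⟨hz.1.1, (col_agree (hag z hz.2)).1 hz.1.2⟩)

/-- Domains of `Two` and `Arm` on which the configurations agree: `Two.dep`, `Arm.dep`. -/
theorem two_agree {c : Bool} {D X Y : Set Pt} {ω₁ ω₂ : Cfg} (hag : ∀ v ∈ D, ω₁ v = ω₂ v) :
    L.Two c D X Y ω₁ ↔ L.Two c D X Y ω₂ := by
  exact iff_of_eq (Lat.Two.dep L c D X Y ω₁ ω₂ hag)

theorem arm_agree {c : Bool} {D X Y : Set Pt} {ω₁ ω₂ : Cfg} (hag : ∀ v ∈ D, ω₁ v = ω₂ v) :
    L.Arm c D X Y ω₁ ↔ L.Arm c D X Y ω₂ := by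
  exact iff_of_eq (Lat.Arm.dep L c D X Y ω₁ ω₂ hag)

end XP

end SC
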