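import Pool.Agent.Lib_MP_e0a489.FI2
import Pool.Agent.Lib_MP_e0a489.XP1

/-!
# MP_e0a489, module FI 3: arms around a pivotal set of sites
-/

set_option autoImplicit false

namespace SC

open Classical

namespace Lat

variable {L : Lat} {N N' : ℤ} {E B : Set Pt} {ω : Cfg}

private theorem fi3_agree {B : Set Pt} {ω ω₁ ω₂ : Cfg} {y : Pt} {r : ℤ} (hB : B ⊆ bxAt y r)
    (h1 : ∀ v, v ∉ B → ω₁ v = ω v) (h2 : ∀ v, v ∉ B → ω₂ v = ω v) :
    ∀ v, r < nrm (v - y) → ω₁ v = ω₂ v := by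
  intro v hv
  have h3 : v ∉ B := fun h => absurd (hB h) (not_le.2 hv)
  rw [h1 v h3, h2 v h3]

private theorem fi3_dom {B : Set Pt} {ω ω₁ : Cfg} {y : Pt} {r R : ℤ} {D : Set Pt}
    (hB : B ⊆ bxAt y r) (h1 : ∀ v, v ∉ B → ω₁ v = ω v) : ∀ v ∈ D ∩ annAt y r R, ω₁ v = ω v := by
  intro v hv
  refine h1 v fun h => ?_
  have h2 : nrm (v - y) ≤ r := hB h
  have h3 : r < nrm (v - y) := hv.2.1
  omega

private theorem fi3_left {y v : Pt} {N R : ℤ} (h1 : -N + R ≤ y.1) (hv : v.1 = -N) :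
    R ≤ nrm (v - y) := by
  have h := (XP.abs_nrm (v - y)).1
  rw [Prod.fst_sub] at h
  have := neg_abs_le (v.1 - y.1)
  omega

private theorem fi3_right {y v : Pt} {R : ℤ} (hE : GoodE L N E) (h2 : y.1 + R ≤ N - 1)
    (hv : v ∈ rside N E) : R ≤ nrm (v - y) := by
  have h := (XP.abs_nrm (v - y)).1
  rw [Prod.fst_sub] at h
  have h3 := le_abs_self (v.1 - y.1)
  rcases hv with hv | hv
  · omega
  · have h4 : v.1 + 1 = N := (hE _ hv).1
    omega

private theorem fi3_bot {y v : Pt} {N' R : ℤ} (h1 : -N' + R ≤ y.2) (hv : v.2 = -N') :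
    R ≤ nrm (v - y) := by
  have h := (XP.abs_nrm (v - y)).2
  rw [Prod.snd_sub] at h
  have := neg_abs_le (v.2 - y.2)
  omega

private theorem fi3_top {y v : Pt} {N' R : ℤ} (h1 : y.2 + R ≤ N') (hv : v.2 = N') :
    R ≤ nrm (v - y) := by
  have h := (XP.abs_nrm (v - y)).2
  rw [Prod.snd_sub] at h
  have := le_abs_self (v.2 - y.2)
  omega

/-- Two open clusters, if both vertical sides are far.  `PivS` gives `ω₁`, `ω₂`; `XP.piv_two` with `c = true`, `Q = dom`,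
`S₁ = {v ∈ dom | v.1 = -N}`, `S₂ = dom ∩ rside` (the ends of a path in `dom` are in `dom`).  Distances: `v.1 = -N` gives `|v.1 - y.1| ≥ R`;
a site of `rside` has `v.1 ≥ N - 1` (`GoodE`).  `XP.two_agree`: `ω₁ = ω` on `annAt y r R`, because `B ⊆ bxAt y r`. -/
theorem PivS.two_open (hp : L.PivS N N' E B ω) (hE : GoodE L N E) {y : Pt} {r R : ℤ} (hr : r < R)
    (hB : B ⊆ bxAt y r) (h1 : -N + R ≤ y.1) (h2 : y.1 + R ≤ N - 1) :
    L.Two true (dom N N' E ∩ annAt y r R) (L.nb (bxAt y r)) (rngAt y R) ω := by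
  obtain ⟨ω₁, ω₂, a1, a2, ⟨p, hp, q, hq, hc⟩, b2⟩ := hp
  refine (XP.two_agree (fi3_dom hB a1)).1 ?_
  refine XP.piv_two (S₁ := {v | v.1 = -N}) (S₂ := rside N E) hr (fi3_agree hB a1 a2)
    ⟨p, hp, q, hq, hc⟩ (fun u hu v hv h => b2 ⟨u, hu, v, hv, h⟩) ?_ ?_
  · exact fun v hv => fi3_left h1 hv
  · exact fun v hv => fi3_right hE h2 hv

/-- Two closed clusters, if both horizontal sides are far (`closed_of_not_crs` for `ω₂`, `not_closed_of_crs` for `ω₁`; `XP.piv_two` with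
`c = false` and the configurations exchanged). -/
theorem PivS.two_closed (hp : L.PivS N N' E B ω) (hN : 0 < N) (hN' : 0 < N') (hE : GoodE L N E)
    {y : Pt} {r R : ℤ} (hr : r < R) (hB : B ⊆ bxAt y r) (h1 : -N' + R ≤ y.2)
    (h2 : y.2 + R ≤ N') :
    L.Two false (dom N N' E ∩ annAt y r R) (L.nb (bxAt y r)) (rngAt y R) ω := by
  obtain ⟨ω₁, ω₂, a1, a2, b1, b2⟩ := hp
  refine (XP.two_agree (fi3_dom hB a2)).1 ?_
  refine XP.piv_two (S₁ := {v | v.2 = -N'}) (S₂ := {v | v.2 = N'}) hr (fi3_agree hB a2 a1)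
    (closed_of_not_crs hN hN' hE b2) (not_closed_of_crs hN hE b1) ?_ ?_
  · exact fun v hv => fi3_bot h1 hv
  · exact fun v hv => fi3_top h2 hv

/-- One open arm, if one of the vertical sides is far (`XP.piv_arm`, `S₁` = the far side). -/
theorem PivS.arm_open (hp : L.PivS N N' E B ω) (hE : GoodE L N E) {y : Pt} {r R : ℤ} (hr : r < R)
    (hB : B ⊆ bxAt y r) (h : -N + R ≤ y.1 ∨ y.1 + R ≤ N - 1) :
    L.Arm true (dom N N' E ∩ annAt y r R) (L.nb (bxAt y r)) (rngAt y R) ω := by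
  obtain ⟨ω₁, ω₂, a1, a2, ⟨p, hp, q, hq, hc⟩, b2⟩ := hp
  refine (XP.arm_agree (fi3_dom hB a1)).1 ?_
  rcases h with h | h
  · exact XP.piv_arm (S₁ := {v | v.1 = -N}) (S₂ := rside N E) hr (fi3_agree hB a1 a2)
      ⟨p, hp, q, hq, hc⟩ (fun u hu v hv h => b2 ⟨u, hu, v, hv, h⟩) (fun v hv => fi3_left h hv)
  · exact XP.piv_arm (S₁ := rside N E) (S₂ := {v | v.1 = -N}) hr (fi3_agree hB a1 a2)
      ⟨q, hq, p, hp, hc.symm⟩ (fun u hu v hv h => b2 ⟨v, hv, u, hu, h.symm⟩)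
      (fun v hv => fi3_right hE h hv)

/-- One closed arm, if one of the horizontal sides is far. -/
theorem PivS.arm_closed (hp : L.PivS N N' E B ω) (hN : 0 < N) (hN' : 0 < N') (hE : GoodE L N E)
    {y : Pt} {r R : ℤ} (hr : r < R) (hB : B ⊆ bxAt y r) (h : -N' + R ≤ y.2 ∨ y.2 + R ≤ N') :
    L.Arm false (dom N N' E ∩ annAt y r R) (L.nb (bxAt y r)) (rngAt y R) ω := by
  obtain ⟨ω₁, ω₂, a1, a2, b1, b2⟩ := hp
  refine (XP.arm_agree (fi3_dom hB a2)).1 ?_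
  obtain ⟨p, hp, q, hq, hc⟩ := closed_of_not_crs hN hN' hE b2
  have hnc := not_closed_of_crs hN hE b1 (N' := N')
  rcases h with h | h
  · exact XP.piv_arm (S₁ := {v | v.2 = -N'}) (S₂ := {v | v.2 = N'}) hr (fi3_agree hB a2 a1)
      ⟨p, hp, q, hq, hc⟩ hnc (fun v hv => fi3_bot h hv)
  · exact XP.piv_arm (S₁ := {v | v.2 = N'}) (S₂ := {v | v.2 = -N'}) hr (fi3_agree hB a2 a1)
      ⟨q, hq, p, hp, hc.symm⟩ (fun u hu v hv h => hnc v hv u hu h.symm)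
      (fun v hv => fi3_top h hv)

end Lat

end SC
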