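import Pool.Agent.Lib_MP_e0a489.XPD

/-!
# MP_e0a489, exponents 2: transport of the events around a site, in a half plane, in a quarter plane
-/

set_option autoImplicit false

namespace SC

namespace XP

open Classical

/-- `rt s` is additive: `rt s = rt (s % 4)` (`rt_mod`) and the four cases `rt_zero`, `rt_one`, `rt_two`, `rt_three` -/
theorem rt_lin (s : ℤ) (u v : Pt) : rt s (u + v) = rt s u + rt s v := by
  have h : ∀ n : ℤ, (n = 0 ∨ n = 1 ∨ n = 2 ∨ n = 3) → rt n (u + v) = rt n u + rt n v := by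
    rintro n (rfl | rfl | rfl | rfl)
    · rw [rt_zero, rt_zero, rt_zero]
    · rw [rt_one, rt_one, rt_one]
      ext
      · show -(u.2 + v.2) = -u.2 + -v.2
        ring
      · rfl
    · rw [rt_two, rt_two, rt_two]
      ext
      · show -(u.1 + v.1) = -u.1 + -v.1
        ring
      · show -(u.2 + v.2) = -u.2 + -v.2
        ring
    · rw [rt_three, rt_three, rt_three]
      ext
      · rfl
      · show -(u.1 + v.1) = -u.1 + -v.1
        ring
  have e : rt s = rt (s % 4) := rt_mod (by omega)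
  rw [e]
  exact h _ (by omega)

theorem rt_lin_sub (s : ℤ) (u v : Pt) : rt s (u - v) = rt s u - rt s v := by
  have h := rt_lin s (u - v) v
  rw [sub_add_cancel] at h
  rw [h, add_sub_cancel_right]

/-- the composition: `(rt s * Equiv.addRight z) v = rt s (v + z)` -/
theorem rtz_apply (s : ℤ) (z v : Pt) : (rt s * Equiv.addRight z : Equiv.Perm Pt) v = rt s (v + z) := by
  rfl

/-- `Tr.trans (tr_rots L s) (tr_shift (L.rots s) z)` -/
theorem tr_rotshift (L : Lat) (s : ℤ) (z : Pt) :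
    Tr L ((L.rots s).shift z) (rt s * Equiv.addRight z) := by
  exact Tr.trans (tr_rots L s) (tr_shift (L.rots s) z)

/-- image of a set defined by the norm -/
theorem image_nrm (P : ℤ → Prop) (s : ℤ) (z : Pt) :
    (rt s * Equiv.addRight z : Equiv.Perm Pt) '' {v | P (nrm v)} =
      {v | P (nrm (v - rt s z))} := by
  ext u
  constructor
  · rintro ⟨v, hv, rfl⟩
    show P (nrm (rt s (v + z) - rt s z))
    rw [← rt_lin_sub, add_sub_cancel_right, nrm_rt]
    exact hv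
  · intro hu
    refine ⟨(rt s).symm u - z, ?_, ?_⟩
    · show P (nrm ((rt s).symm u - z))
      rw [← nrm_rt s, rt_lin_sub, Equiv.apply_symm_apply]
      exact hu
    · rw [rtz_apply, sub_add_cancel, Equiv.apply_symm_apply]

theorem image_nrm0 (P : ℤ → Prop) (z : Pt) :
    (Equiv.addRight z : Equiv.Perm Pt) '' {v | P (nrm v)} = {v | P (nrm (v - z))} := by
  ext u
  constructor
  · rintro ⟨v, hv, rfl⟩
    show P (nrm (v + z - z))
    rw [add_sub_cancel_right]
    exact hv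
  · intro hu
    exact ⟨u - z, hu, sub_add_cancel u z⟩

/-- image of the box: `nrm (rt s (v + z) - rt s z) = nrm (rt s v) = nrm v` (`rt_lin`, `nrm_rt`); surjectivity: `v = (rt s).symm u - z` -/
theorem image_bx (s : ℤ) (z : Pt) (r : ℤ) :
    (rt s * Equiv.addRight z : Equiv.Perm Pt) '' bx r = bxAt (rt s z) r := by
  exact image_nrm (fun k => k ≤ r) s z

theorem image_ann (s : ℤ) (z : Pt) (r R : ℤ) :
    (rt s * Equiv.addRight z : Equiv.Perm Pt) '' ann r R = annAt (rt s z) r R := by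
  exact image_nrm (fun k => r < k ∧ k ≤ R) s z

theorem image_rng (s : ℤ) (z : Pt) (R : ℤ) :
    (rt s * Equiv.addRight z : Equiv.Perm Pt) '' rng R = rngAt (rt s z) R := by
  exact image_nrm (fun k => k = R) s z

/-- the same without rotation -/
theorem image_bx0 (z : Pt) (r : ℤ) : (Equiv.addRight z : Equiv.Perm Pt) '' bx r = bxAt z r := by
  exact image_nrm0 (fun k => k ≤ r) z

theorem image_ann0 (z : Pt) (r R : ℤ) :
    (Equiv.addRight z : Equiv.Perm Pt) '' ann r R = annAt z r R := by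
  exact image_nrm0 (fun k => r < k ∧ k ≤ R) z

theorem image_rng0 (z : Pt) (R : ℤ) : (Equiv.addRight z : Equiv.Perm Pt) '' rng R = rngAt z R := by
  exact image_nrm0 (fun k => k = R) z

/-- `|t| + R ≤ N`: in the annulus around `rt s (t, -N)` the half plane above the side number `s` (`s = 0`: lower side) is the
box.  `v ∈ ann r R`, `0 ≤ v.2`: `v + (t, -N)` has coordinates `|v.1 + t| ≤ R + |t| ≤ N` and `-N ≤ v.2 - N ≤ R - N ≤ N`; the box is invariant
under `rt s` (`nrm_rt`). -/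
theorem image_half {N r R s t : ℤ} (ht : |t| + R ≤ N) :
    annAt (rt s (t, -N)) r R ∩ (rt s * Equiv.addRight (t, -N) : Equiv.Perm Pt) '' {v | 0 ≤ v.2} =
      bx N ∩ annAt (rt s (t, -N)) r R := by
  ext v
  obtain ⟨u, rfl⟩ : ∃ u, v = rt s (u + (t, -N)) :=
    ⟨(rt s).symm v - (t, -N), by rw [sub_add_cancel, Equiv.apply_symm_apply]⟩
  have e1 : rt s (u + (t, -N)) ∈ annAt (rt s (t, -N)) r R ↔ r < nrm u ∧ nrm u ≤ R := by
    show r < nrm (rt s (u + (t, -N)) - rt s (t, -N)) ∧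
      nrm (rt s (u + (t, -N)) - rt s (t, -N)) ≤ R ↔ _
    rw [← rt_lin_sub, add_sub_cancel_right, nrm_rt]
  have e2 : rt s (u + (t, -N)) ∈
      (rt s * Equiv.addRight (t, -N) : Equiv.Perm Pt) '' {v | 0 ≤ v.2} ↔ 0 ≤ u.2 := by
    constructor
    · rintro ⟨w, hw, he⟩
      have : w = u := (rt s * Equiv.addRight (t, -N) : Equiv.Perm Pt).injective he
      rw [this] at hw
      exact hw
    · intro hu
      exact ⟨u, hu, rfl⟩
  have e3 : rt s (u + (t, -N)) ∈ bx N ↔ |u.1 + t| ≤ N ∧ |u.2 + -N| ≤ N := by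
    show nrm (rt s (u + (t, -N))) ≤ N ↔ _
    rw [nrm_rt]
    exact max_le_iff
  rw [Set.mem_inter_iff, Set.mem_inter_iff, e1, e2, e3]
  constructor
  · rintro ⟨⟨h1, h2⟩, h3⟩
    obtain ⟨h4, h5⟩ := max_le_iff.1 h2
    have h6 := abs_le.1 h4
    have h7 := abs_le.1 h5
    have h8 := le_abs_self t
    have h9 := neg_abs_le t
    exact ⟨⟨abs_le.2 ⟨by omega, by omega⟩, abs_le.2 ⟨by omega, by omega⟩⟩, h1, h2⟩
  · rintro ⟨⟨h3, h4⟩, h1, h2⟩
    have h5 := abs_le.1 h4
    exact ⟨⟨h1, h2⟩, by omega⟩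

/-- the same for the corner number `s` (`s = 0`: lower left) and `R ≤ 2 N` -/
theorem image_quart {N r R s : ℤ} (hR : R ≤ 2 * N) :
    annAt (rt s (-N, -N)) r R ∩
        (rt s * Equiv.addRight (-N, -N) : Equiv.Perm Pt) '' {v | 0 ≤ v.1 ∧ 0 ≤ v.2} =
      bx N ∩ annAt (rt s (-N, -N)) r R := by
  ext v
  obtain ⟨u, rfl⟩ : ∃ u, v = rt s (u + (-N, -N)) :=
    ⟨(rt s).symm v - (-N, -N), by rw [sub_add_cancel, Equiv.apply_symm_apply]⟩
  have e1 : rt s (u + (-N, -N)) ∈ annAt (rt s (-N, -N)) r R ↔ r < nrm u ∧ nrm u ≤ R := by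
    show r < nrm (rt s (u + (-N, -N)) - rt s (-N, -N)) ∧
      nrm (rt s (u + (-N, -N)) - rt s (-N, -N)) ≤ R ↔ _
    rw [← rt_lin_sub, add_sub_cancel_right, nrm_rt]
  have e2 : rt s (u + (-N, -N)) ∈
      (rt s * Equiv.addRight (-N, -N) : Equiv.Perm Pt) '' {v | 0 ≤ v.1 ∧ 0 ≤ v.2} ↔
        0 ≤ u.1 ∧ 0 ≤ u.2 := by
    constructor
    · rintro ⟨w, hw, he⟩
      have : w = u := (rt s * Equiv.addRight (-N, -N) : Equiv.Perm Pt).injective he
      rw [this] at hw
      exact hw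
    · intro hu
      exact ⟨u, hu, rfl⟩
  have e3 : rt s (u + (-N, -N)) ∈ bx N ↔ |u.1 + -N| ≤ N ∧ |u.2 + -N| ≤ N := by
    show nrm (rt s (u + (-N, -N))) ≤ N ↔ _
    rw [nrm_rt]
    exact max_le_iff
  rw [Set.mem_inter_iff, Set.mem_inter_iff, e1, e2, e3]
  constructor
  · rintro ⟨⟨h1, h2⟩, h3, h3'⟩
    obtain ⟨h4, h5⟩ := max_le_iff.1 h2
    have h6 := abs_le.1 h4
    have h7 := abs_le.1 h5
    exact ⟨⟨abs_le.2 ⟨by omega, by omega⟩, abs_le.2 ⟨by omega, by omega⟩⟩, h1, h2⟩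
  · rintro ⟨⟨h3, h4⟩, h1, h2⟩
    have h5 := abs_le.1 h4
    have h6 := abs_le.1 h3
    exact ⟨⟨h1, h2⟩, by omega, by omega⟩

end XP

end SC
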