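import Pool.Agent.Lib_MP_e0a489.TE3
import Pool.Agent.Lib_MP_e0a489.XP2

/-!
# MP_e0a489, exponents 2b: the events in the coordinates of `L`
-/

set_option autoImplicit false

namespace SC

namespace XP

open Classical

/-- a finite set that contains the annulus -/
private theorem annAt_finite' (y : Pt) (r R : ℤ) : (annAt y r R).Finite := by
  refine (Finset.finite_toSet
    (Finset.Icc (y.1 - R) (y.1 + R) ×ˢ Finset.Icc (y.2 - R) (y.2 + R))).subset ?_
  rintro v ⟨_, h⟩
  have h1 : |v.1 - y.1| ≤ R := (le_max_left _ _).trans h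
  have h2 : |v.2 - y.2| ≤ R := (le_max_right _ _).trans h
  have h3 := abs_le.1 h1
  have h4 := abs_le.1 h2
  simp only [Finset.coe_product, Finset.coe_Icc, Set.mem_prod, Set.mem_Icc]
  omega

private theorem ann_finite' (r R : ℤ) : (ann r R).Finite := by
  refine (annAt_finite' 0 r R).subset (fun v hv => ?_)
  show r < nrm (v - 0) ∧ nrm (v - 0) ≤ R
  rw [sub_zero]
  exact hv

private theorem loc_of_dep' {A : Cfg → Prop} {D : Set Pt} (hD : D.Finite) (h : Dep A D) :
    Loc A := by
  refine ⟨hD.toFinset, ?_⟩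
  rw [Set.Finite.coe_toFinset]
  exact h

/-- `Tr.two`, `Tr.nb` for `tr_shift`, `image_ann0`, `image_bx0`, `image_rng0` -/
theorem twoAt_iff (L : Lat) (c : Bool) (x : Pt) (r R : ℤ) (ω : Cfg) :
    L.TwoAt c x r R ω ↔ L.Two c (annAt x r R) (L.nb (bxAt x r)) (rngAt x R) ω := by
  have h := (tr_shift L x).two c (ann r R) ((L.shift x).nb (bx r)) (rng R) ω
  rw [(tr_shift L x).nb, image_ann0, image_bx0, image_rng0] at h
  exact h

/-- The event `TwoH` of the rotated and shifted lattice in the coordinates of `L` (`Tr.two`, `Tr.nb` for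
`tr_rotshift`; the image of an intersection under a bijection is the intersection of the images). -/
theorem twoH_iff (L : Lat) (s : ℤ) (z : Pt) (c : Bool) (H : Set Pt) (r R : ℤ) (ω : Cfg) :
    ((L.rots s).shift z).TwoH c H r R (via (rt s * Equiv.addRight z) ω) ↔
      L.Two c (annAt (rt s z) r R ∩ (rt s * Equiv.addRight z : Equiv.Perm Pt) '' H)
        (L.nb (bxAt (rt s z) r)) (rngAt (rt s z) R) ω := by
  have h := (tr_rotshift L s z).two c (ann r R ∩ H) (((L.rots s).shift z).nb (bx r)) (rng R) ω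
  rw [(tr_rotshift L s z).nb, Set.image_inter (rt s * Equiv.addRight z : Equiv.Perm Pt).injective,
    image_ann, image_bx, image_rng] at h
  exact h

theorem twoQ_iff (L : Lat) (s : ℤ) (z : Pt) (H : Set Pt) (r R : ℤ) (ω : Cfg) :
    ((L.rots s).shift z).TwoQ H r R (via (rt s * Equiv.addRight z) ω) ↔
      ∀ c : Bool, L.Arm c (annAt (rt s z) r R ∩ (rt s * Equiv.addRight z : Equiv.Perm Pt) '' H)
        (L.nb (bxAt (rt s z) r)) (rngAt (rt s z) R) ω := by
  refine forall_congr' fun c => ?_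
  have h := (tr_rotshift L s z).arm c (ann r R ∩ H) (((L.rots s).shift z).nb (bx r)) (rng R) ω
  rw [(tr_rotshift L s z).nb, Set.image_inter (rt s * Equiv.addRight z : Equiv.Perm Pt).injective,
    image_ann, image_bx, image_rng] at h
  exact h

/-- `Two.dep` -/
theorem twoAt_dep (L : Lat) (c : Bool) (x : Pt) (r R : ℤ) : Dep (L.TwoAt c x r R) (annAt x r R) := by
  intro ω ω' hw
  refine propext ?_
  rw [twoAt_iff, twoAt_iff]
  exact Eq.to_iff (Lat.Two.dep L c (annAt x r R) (L.nb (bxAt x r)) (rngAt x R) ω ω' hw)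

/-- `annAt x r R` is finite -/
theorem twoAt_loc (L : Lat) (c : Bool) (x : Pt) (r R : ℤ) : Loc (L.TwoAt c x r R) := by
  exact loc_of_dep' (annAt_finite' x r R) (twoAt_dep L c x r R)

/-- the set `{v | 0 ≤ v.2}` is a half plane, and the quarter plane -/
theorem halfLike_std : HalfLike {v | 0 ≤ v.2} := by
  refine ⟨fun v hv => ?_, fun v hv => hv⟩
  have h : (1 : ℤ) ≤ v.2 := hv
  show (0 : ℤ) ≤ v.2
  omega

theorem quartLike_std : QuartLike {v | 0 ≤ v.1 ∧ 0 ≤ v.2} := by
  refine ⟨fun v hv => ?_, fun v hv => hv⟩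
  have h : (1 : ℤ) ≤ v.1 ∧ (1 : ℤ) ≤ v.2 := hv
  show (0 : ℤ) ≤ v.1 ∧ (0 : ℤ) ≤ v.2
  omega

/-- `annAt (rt s z) r R` is finite -/
theorem twoH_dep (L : Lat) (s : ℤ) (z : Pt) (c : Bool) (H : Set Pt) (r R : ℤ) :
    Dep (fun ω => ((L.rots s).shift z).TwoH c H r R (via (rt s * Equiv.addRight z) ω))
      (annAt (rt s z) r R) := by
  intro ω ω' hw
  refine propext ?_
  show ((L.rots s).shift z).TwoH c H r R (via (rt s * Equiv.addRight z) ω) ↔
    ((L.rots s).shift z).TwoH c H r R (via (rt s * Equiv.addRight z) ω')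
  rw [twoH_iff, twoH_iff]
  exact Eq.to_iff (Lat.Two.dep L c _ _ _ ω ω' (fun v hv => hw v hv.1))

theorem twoQ_dep (L : Lat) (s : ℤ) (z : Pt) (H : Set Pt) (r R : ℤ) :
    Dep (fun ω => ((L.rots s).shift z).TwoQ H r R (via (rt s * Equiv.addRight z) ω))
      (annAt (rt s z) r R) := by
  intro ω ω' hw
  refine propext ?_
  show ((L.rots s).shift z).TwoQ H r R (via (rt s * Equiv.addRight z) ω) ↔
    ((L.rots s).shift z).TwoQ H r R (via (rt s * Equiv.addRight z) ω')
  rw [twoQ_iff, twoQ_iff]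
  exact forall_congr' fun c => Eq.to_iff (Lat.Arm.dep L c _ _ _ ω ω' (fun v hv => hw v hv.1))

/-- a finite set that contains the annulus -/
theorem annAt_finite (y : Pt) (r R : ℤ) : (annAt y r R).Finite := by
  exact annAt_finite' y r R

/-- an event that depends on a finite set of sites is local -/
theorem loc_of_dep {A : Cfg → Prop} {D : Set Pt} (hD : D.Finite) (h : Dep A D) : Loc A := by
  exact loc_of_dep' hD h

/-- `pr_via` -/
theorem pr_twoH (L : Lat) (s : ℤ) (z : Pt) (c : Bool) (H : Set Pt) (r R : ℤ) :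
    pr (fun ω => ((L.rots s).shift z).TwoH c H r R (via (rt s * Equiv.addRight z) ω)) =
      pr (((L.rots s).shift z).TwoH c H r R) := by
  refine pr_via (A := ((L.rots s).shift z).TwoH c H r R) ?_ (rt s * Equiv.addRight z)
  exact Lat.Two.loc _ c _ _ _ ((ann_finite' r R).subset Set.inter_subset_left)

theorem pr_twoQ (L : Lat) (s : ℤ) (z : Pt) (H : Set Pt) (r R : ℤ) :
    pr (fun ω => ((L.rots s).shift z).TwoQ H r R (via (rt s * Equiv.addRight z) ω)) =
      pr (((L.rots s).shift z).TwoQ H r R) := by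
  refine pr_via (A := ((L.rots s).shift z).TwoQ H r R) ?_ (rt s * Equiv.addRight z)
  refine loc_of_dep' (ann_finite' r R) (fun ω ω' hw => propext ?_)
  exact forall_congr' fun c => Eq.to_iff
    (Lat.Arm.dep ((L.rots s).shift z) c _ _ _ ω ω' (fun v hv => hw v hv.1))

/-- `L.shift 0 = L`, `via (Equiv.addRight 0) ω = ω` -/
theorem twoAt_zero (L : Lat) (c : Bool) (r R : ℤ) : L.TwoAt c 0 r R = L.TwoA c r R := by
  have h1 : L.shift 0 = L := by
    cases L with
    | mk ne typ =>
      unfold Lat.shift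
      simp
  have h2 : ∀ ω : Cfg, via (Equiv.addRight (0 : Pt)) ω = ω := by
    intro ω
    funext v
    show ω (v + 0) = ω v
    rw [add_zero]
  funext ω
  unfold Lat.TwoAt
  rw [h1, h2]

end XP

end SC
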