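import Pool.Agent.Lib_MP_e0a489.FI1
import Pool.Agent.Lib_MP_e0a489.XP2b

/-!
# MP_e0a489, module FI 4: local shape of a domain: half planes and quarter planes
-/

set_option autoImplicit false

namespace SC

open Classical

/-- the set `annAt y r R ∩ image of H` for a shape `H` given by `D` on its boundary -/
private theorem fi4_image (D H : Set Pt) (s : ℤ) (z y : Pt) (r R : ℤ) (hz : rt s z = y)
    (hH : ∀ v, nrm v ≤ R → (v ∈ H ↔ rt s v + y ∈ D)) :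
    annAt y r R ∩ (rt s * Equiv.addRight z : Equiv.Perm Pt) '' H = D ∩ annAt y r R := by
  have hap : ∀ v, (rt s * Equiv.addRight z : Equiv.Perm Pt) v = rt s v + y := by
    intro v
    rw [XP.rtz_apply, XP.rt_lin, hz]
  ext u
  constructor
  · rintro ⟨hu, v, hv, rfl⟩
    refine ⟨?_, hu⟩
    rw [hap] at hu ⊢
    have h1 : nrm (rt s v + y - y) ≤ R := hu.2
    rw [add_sub_cancel_right, nrm_rt] at h1
    exact (hH v h1).1 hv
  · rintro ⟨hD, hu⟩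
    refine ⟨hu, (rt s * Equiv.addRight z : Equiv.Perm Pt).symm u, ?_, Equiv.apply_symm_apply _ u⟩
    obtain ⟨v, rfl⟩ : ∃ v, u = (rt s * Equiv.addRight z : Equiv.Perm Pt) v :=
      ⟨_, (Equiv.apply_symm_apply _ u).symm⟩
    rw [Equiv.symm_apply_apply]
    rw [hap] at hu hD
    have h1 : nrm (rt s v + y - y) ≤ R := hu.2
    rw [add_sub_cancel_right, nrm_rt] at h1
    exact (hH v h1).2 hD

/-- Near `y` the domain `D` is a half plane (seen through `v ↦ rt s v + y`), with arbitrary sites of the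
boundary row.  Take `z = rt (-s) y` (so `rt s z = y`, `(rt s * addRight z) v = rt s v + y`) and
`H = {v | 0 ≤ v.2 ∧ (v.2 = 0 → rt s v + y ∈ D)}`.  `twoH_iff`; the set `annAt y r R ∩ image of H` is `D ∩ annAt y r R`: for `u = rt s v + y` in
the annulus `nrm v = nrm (u - y) ≤ R`, and `u ∈ D ↔ v ∈ H` by the two hypotheses. -/
theorem half_shape (L : Lat) (c : Bool) (D : Set Pt) (s : ℤ) (y : Pt) (r R : ℤ)
    (h1 : ∀ v, nrm v ≤ R → v.2 < 0 → rt s v + y ∉ D)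
    (h2 : ∀ v, nrm v ≤ R → 1 ≤ v.2 → rt s v + y ∈ D) :
    ∃ (z : Pt) (H : Set Pt), HalfLike H ∧
      ∀ ω, L.Two c (D ∩ annAt y r R) (L.nb (bxAt y r)) (rngAt y R) ω ↔
        ((L.rots s).shift z).TwoH c H r R (via (rt s * Equiv.addRight z) ω) := by
  have hz : rt s ((rt s).symm y) = y := Equiv.apply_symm_apply _ y
  refine ⟨(rt s).symm y, {v | 0 ≤ v.2 ∧ (v.2 = 0 → rt s v + y ∈ D)}, ⟨?_, ?_⟩, ?_⟩
  · intro v hv
    have h : (1 : ℤ) ≤ v.2 := hv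
    exact ⟨by omega, fun h0 => by omega⟩
  · intro v hv
    exact hv.1
  · intro ω
    rw [XP.twoH_iff, hz, fi4_image D _ s _ y r R hz]
    intro v hv
    constructor
    · rintro ⟨h3, h4⟩
      by_cases h0 : v.2 = 0
      · exact h4 h0
      · exact h2 v hv (by omega)
    · intro h3
      refine ⟨?_, fun _ => h3⟩
      by_contra h0
      exact h1 v hv (by omega) h3

/-- The same for a corner, `H = {v | 0 ≤ v.1 ∧ 0 ≤ v.2 ∧ (v.1 = 0 ∨ v.2 = 0 → rt s v + y ∈ D)}` (`twoQ_iff`). -/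
theorem quart_shape (L : Lat) (D : Set Pt) (s : ℤ) (y : Pt) (r R : ℤ)
    (h1 : ∀ v, nrm v ≤ R → v.1 < 0 ∨ v.2 < 0 → rt s v + y ∉ D)
    (h2 : ∀ v, nrm v ≤ R → 1 ≤ v.1 → 1 ≤ v.2 → rt s v + y ∈ D) :
    ∃ (z : Pt) (H : Set Pt), QuartLike H ∧
      ∀ ω, (∀ c : Bool, L.Arm c (D ∩ annAt y r R) (L.nb (bxAt y r)) (rngAt y R) ω) ↔
        ((L.rots s).shift z).TwoQ H r R (via (rt s * Equiv.addRight z) ω) := by
  have hz : rt s ((rt s).symm y) = y := Equiv.apply_symm_apply _ y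
  refine ⟨(rt s).symm y, {v | (0 ≤ v.1 ∧ 0 ≤ v.2) ∧ (v.1 = 0 ∨ v.2 = 0 → rt s v + y ∈ D)},
    ⟨?_, ?_⟩, ?_⟩
  · rintro v ⟨h3, h4⟩
    exact ⟨⟨by omega, by omega⟩, fun h0 => by omega⟩
  · intro v hv
    exact hv.1
  · intro ω
    rw [XP.twoQ_iff, hz, fi4_image D _ s _ y r R hz]
    intro v hv
    constructor
    · rintro ⟨⟨h3, h3'⟩, h4⟩
      by_cases h0 : v.1 = 0 ∨ v.2 = 0
      · exact h4 h0
      · exact h2 v hv (by omega) (by omega)
    · intro h3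
      refine ⟨?_, fun _ => h3⟩
      by_contra h0
      exact h1 v hv (by omega) h3

private theorem fi4_in {L : Lat} {N N' : ℤ} {E : Set Pt} (hE : GoodE L N E) {u : Pt}
    (h1 : -N ≤ u.1) (h2 : u.1 < N) (h3 : -N' ≤ u.2) (h4 : u.2 ≤ N') : u ∈ dom N N' E := by
  refine ⟨⟨⟨h1, by omega⟩, h3, h4⟩, fun hu => ?_⟩
  have := (hE u hu).1
  omega

private theorem fi4_out {N N' : ℤ} {E : Set Pt} {u : Pt}
    (h : u.1 < -N ∨ N < u.1 ∨ u.2 < -N' ∨ N' < u.2) : u ∉ dom N N' E := by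
  rintro ⟨⟨⟨h1, h2⟩, h3, h4⟩, -⟩
  omega

private theorem fi4_nrm {v : Pt} {R : ℤ} (h : nrm v ≤ R) :
    -R ≤ v.1 ∧ v.1 ≤ R ∧ -R ≤ v.2 ∧ v.2 ≤ R := by
  have h2 : max |v.1| |v.2| ≤ R := h
  rw [max_le_iff, abs_le, abs_le] at h2
  exact ⟨h2.1.1, h2.1.2, h2.2.1, h2.2.2⟩

private theorem fi4_c0 (v y : Pt) : (rt 0 v + y).1 = v.1 + y.1 ∧ (rt 0 v + y).2 = v.2 + y.2 := by
  rw [rt_zero]
  exact ⟨rfl, rfl⟩

private theorem fi4_c1 (v y : Pt) : (rt 1 v + y).1 = -v.2 + y.1 ∧ (rt 1 v + y).2 = v.1 + y.2 := by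
  rw [rt_one]
  exact ⟨rfl, rfl⟩

private theorem fi4_c2 (v y : Pt) :
    (rt 2 v + y).1 = -v.1 + y.1 ∧ (rt 2 v + y).2 = -v.2 + y.2 := by
  rw [rt_two]
  exact ⟨rfl, rfl⟩

private theorem fi4_c3 (v y : Pt) : (rt 3 v + y).1 = v.2 + y.1 ∧ (rt 3 v + y).2 = -v.1 + y.2 := by
  rw [rt_three]
  exact ⟨rfl, rfl⟩

/-- Sides of the domain: `s = 0` lower, `1` right, `2` upper, `3` left; `y` on the side, far from the two neighbouring
sides and the opposite side (`R ≤ N`, `R ≤ N'`).  `rt 0 v = v`, `rt 1 v = (-v.2, v.1)`, `rt 2 v = -v`, `rt 3 v = (v.2, -v.1)`.  A site `rt s v + y` with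
`1 ≤ v.2 ≤ R` is in the rectangle and not in the last column (for `s` even `|y.1| + R ≤ N - 1`; for `s = 1` the first coordinate is
`N - v.2 ≤ N - 1`; for `s = 3` it is `-N + v.2 ≤ 0 < N`), so it is not in `E`. -/
theorem dom_half {L : Lat} {N N' : ℤ} {E : Set Pt} (hE : GoodE L N E) {y : Pt} {R : ℤ}
    (hR0 : 0 ≤ R) (hN : 0 < N) (hR : R ≤ N) (hR' : R ≤ N')
    (h : ((y.2 = -N' ∨ y.2 = N') ∧ |y.1| + R ≤ N - 1) ∨
      ((y.1 = -N ∨ y.1 = N) ∧ |y.2| + R ≤ N')) :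
    ∃ s : ℤ, (∀ v, nrm v ≤ R → v.2 < 0 → rt s v + y ∉ dom N N' E) ∧
      (∀ v, nrm v ≤ R → 1 ≤ v.2 → rt s v + y ∈ dom N N' E) := by
  rcases h with ⟨h, hy⟩ | ⟨h, hy⟩
  · have g1 := le_abs_self y.1
    have g2 := neg_abs_le y.1
    rcases h with h | h
    · refine ⟨0, fun v hv h0 => fi4_out ?_, fun v hv h0 => ?_⟩
      · obtain ⟨e1, e2⟩ := fi4_c0 v y
        omega
      · obtain ⟨e1, e2⟩ := fi4_c0 v y
        obtain ⟨n1, n2, n3, n4⟩ := fi4_nrm hv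
        exact fi4_in hE (by omega) (by omega) (by omega) (by omega)
    · refine ⟨2, fun v hv h0 => fi4_out ?_, fun v hv h0 => ?_⟩
      · obtain ⟨e1, e2⟩ := fi4_c2 v y
        omega
      · obtain ⟨e1, e2⟩ := fi4_c2 v y
        obtain ⟨n1, n2, n3, n4⟩ := fi4_nrm hv
        exact fi4_in hE (by omega) (by omega) (by omega) (by omega)
  · have g1 := le_abs_self y.2
    have g2 := neg_abs_le y.2
    rcases h with h | h
    · refine ⟨3, fun v hv h0 => fi4_out ?_, fun v hv h0 => ?_⟩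
      · obtain ⟨e1, e2⟩ := fi4_c3 v y
        omega
      · obtain ⟨e1, e2⟩ := fi4_c3 v y
        obtain ⟨n1, n2, n3, n4⟩ := fi4_nrm hv
        exact fi4_in hE (by omega) (by omega) (by omega) (by omega)
    · refine ⟨1, fun v hv h0 => fi4_out ?_, fun v hv h0 => ?_⟩
      · obtain ⟨e1, e2⟩ := fi4_c1 v y
        omega
      · obtain ⟨e1, e2⟩ := fi4_c1 v y
        obtain ⟨n1, n2, n3, n4⟩ := fi4_nrm hv
        exact fi4_in hE (by omega) (by omega) (by omega) (by omega)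

/-- Corners: `s = 0` lower left, `1` lower right, `2` upper right, `3` upper left. -/
theorem dom_quart {L : Lat} {N N' : ℤ} {E : Set Pt} (hE : GoodE L N E) {y : Pt} {R : ℤ}
    (hR0 : 0 ≤ R) (hN : 0 < N) (hR : R ≤ N) (hR' : R ≤ N') (h1 : y.1 = -N ∨ y.1 = N)
    (h2 : y.2 = -N' ∨ y.2 = N') :
    ∃ s : ℤ, (∀ v, nrm v ≤ R → v.1 < 0 ∨ v.2 < 0 → rt s v + y ∉ dom N N' E) ∧
      (∀ v, nrm v ≤ R → 1 ≤ v.1 → 1 ≤ v.2 → rt s v + y ∈ dom N N' E) := by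
  rcases h1 with h1 | h1 <;> rcases h2 with h2 | h2
  · refine ⟨0, fun v hv h0 => fi4_out ?_, fun v hv h0 h0' => ?_⟩
    · obtain ⟨e1, e2⟩ := fi4_c0 v y
      omega
    · obtain ⟨e1, e2⟩ := fi4_c0 v y
      obtain ⟨n1, n2, n3, n4⟩ := fi4_nrm hv
      exact fi4_in hE (by omega) (by omega) (by omega) (by omega)
  · refine ⟨3, fun v hv h0 => fi4_out ?_, fun v hv h0 h0' => ?_⟩
    · obtain ⟨e1, e2⟩ := fi4_c3 v y
      omega
    · obtain ⟨e1, e2⟩ := fi4_c3 v y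
      obtain ⟨n1, n2, n3, n4⟩ := fi4_nrm hv
      exact fi4_in hE (by omega) (by omega) (by omega) (by omega)
  · refine ⟨1, fun v hv h0 => fi4_out ?_, fun v hv h0 h0' => ?_⟩
    · obtain ⟨e1, e2⟩ := fi4_c1 v y
      omega
    · obtain ⟨e1, e2⟩ := fi4_c1 v y
      obtain ⟨n1, n2, n3, n4⟩ := fi4_nrm hv
      exact fi4_in hE (by omega) (by omega) (by omega) (by omega)
  · refine ⟨2, fun v hv h0 => fi4_out ?_, fun v hv h0 h0' => ?_⟩
    · obtain ⟨e1, e2⟩ := fi4_c2 v y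
      omega
    · obtain ⟨e1, e2⟩ := fi4_c2 v y
      obtain ⟨n1, n2, n3, n4⟩ := fi4_nrm hv
      exact fi4_in hE (by omega) (by omega) (by omega) (by omega)

end SC
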