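import Pool.Agent.Lib_MP_e0a489.FI1
import Pool.Agent.Lib_MP_e0a489.FI10
import Pool.Agent.Lib_MP_e0a489.XP2b

/-!
# MP_e0a489, module FI 5: the local event around a pivotal block
-/

set_option autoImplicit false

namespace SC

open Classical

namespace FI

/-- the nearest point of the nearest side -/
noncomputable def yH (N N' : ℤ) (x : Pt) : Pt :=
  if N - |x.1| < N' - |x.2| then (if x.1 ≤ 0 then -N else N, x.2)
  else (x.1, if x.2 ≤ 0 then -N' else N')

/-- colour of the two clusters near the nearest side: open near the horizontal sides -/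
noncomputable def cH (N N' : ℤ) (x : Pt) : Bool := decide (N' - |x.2| ≤ N - |x.1|)

/-- the nearest corner -/
noncomputable def yQ (N N' : ℤ) (x : Pt) : Pt :=
  (if x.1 ≤ 0 then -N else N, if x.2 ≤ 0 then -N' else N')

end FI

open FI

namespace Lat

/-- bulk part, radii `a < b` -/
def EvB (L : Lat) (x : Pt) (a b : ℤ) (ω : Cfg) : Prop := a < b → L.TwoAt true x a b ω

/-- half plane part -/
def EvH (L : Lat) (N N' : ℤ) (E : Set Pt) (x : Pt) (a b : ℤ) (ω : Cfg) : Prop :=
  a < b → L.Two (cH N N' x) (dom N N' E ∩ annAt (yH N N' x) a b) (L.nb (bxAt (yH N N' x) a))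
    (rngAt (yH N N' x) b) ω

/-- corner part -/
def EvQ (L : Lat) (N N' : ℤ) (E : Set Pt) (x : Pt) (a b : ℤ) (ω : Cfg) : Prop :=
  a < b → ∀ c : Bool, L.Arm c (dom N N' E ∩ annAt (yQ N N' x) a b) (L.nb (bxAt (yQ N N' x) a))
    (rngAt (yQ N N' x) b) ω

/-- local event around `x` between the radii `a` and `b` -/
def Ev (L : Lat) (N N' : ℤ) (E : Set Pt) (x : Pt) (a b : ℤ) (ω : Cfg) : Prop :=
  L.EvB x a (min (hm N N' x) b - 1) ω ∧
    L.EvH N N' E x (2 * max a (hm N N' x)) (min (hM N N' x) b - 1) ω ∧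
    L.EvQ N N' E x (2 * max a (hM N N' x)) b ω

/-- if `b ≤ a` the annulus is empty and the event is always true -/
theorem EvB.dep (L : Lat) (x : Pt) (a b : ℤ) : Dep (L.EvB x a b) (annAt x a b) := by
  intro ω ω' h
  have h1 : L.TwoAt true x a b ω = L.TwoAt true x a b ω' := XP.twoAt_dep L true x a b ω ω' h
  show (a < b → L.TwoAt true x a b ω) = (a < b → L.TwoAt true x a b ω')
  rw [h1]

theorem EvH.dep (L : Lat) (N N' : ℤ) (E : Set Pt) (x : Pt) (a b : ℤ) :
    Dep (L.EvH N N' E x a b) (annAt (yH N N' x) a b) := by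
  intro ω ω' h
  have h1 := Two.dep L (cH N N' x) (dom N N' E ∩ annAt (yH N N' x) a b)
    (L.nb (bxAt (yH N N' x) a)) (rngAt (yH N N' x) b) ω ω' (fun v hv => h v hv.2)
  show (a < b → _) = (a < b → _)
  rw [h1]

theorem EvQ.dep (L : Lat) (N N' : ℤ) (E : Set Pt) (x : Pt) (a b : ℤ) :
    Dep (L.EvQ N N' E x a b) (annAt (yQ N N' x) a b) := by
  intro ω ω' h
  have h1 : ∀ c : Bool, L.Arm c (dom N N' E ∩ annAt (yQ N N' x) a b)
      (L.nb (bxAt (yQ N N' x) a)) (rngAt (yQ N N' x) b) ω =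
      L.Arm c (dom N N' E ∩ annAt (yQ N N' x) a b)
      (L.nb (bxAt (yQ N N' x) a)) (rngAt (yQ N N' x) b) ω' := fun c =>
    Arm.dep L c _ _ _ ω ω' (fun v hv => h v hv.2)
  show (a < b → ∀ c : Bool, _) = (a < b → ∀ c : Bool, _)
  simp only [h1]

end Lat

end SC
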