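import Pool.Agent.Lib_MP_e0a489.FI3
import Pool.Agent.Lib_MP_e0a489.FI5b

/-!
# MP_e0a489, module FI 6: the local event holds around a pivotal block
-/

set_option autoImplicit false

namespace SC

open Classical FI

private theorem fi6_nrm {v : Pt} {R : ℤ} (h : nrm v ≤ R) :
    -R ≤ v.1 ∧ v.1 ≤ R ∧ -R ≤ v.2 ∧ v.2 ≤ R := by
  have h1 := (XP.abs_nrm v).1.trans h
  have h2 := (XP.abs_nrm v).2.trans h
  rw [abs_le] at h1 h2
  exact ⟨h1.1, h1.2, h2.1, h2.2⟩

private theorem fi6_hm (N N' : ℤ) (x : Pt) :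
    hm N N' x ≤ N - |x.1| ∧ hm N N' x ≤ N' - |x.2| := ⟨min_le_left _ _, min_le_right _ _⟩


/-- Bulk part: with `R = min h b - 1`, `h = hm N N' x`, the box `bxAt x R` is contained in the domain (its sites have
`|v.1| ≤ N - 1`, `|v.2| ≤ N' - 1`), so `dom ∩ annAt x a R = annAt x a R`, `PivS.two_open`, `twoAt_iff`. -/
theorem Lat.PivS.evB {L : Lat} {N N' : ℤ} {E B : Set Pt} {ω : Cfg} (hp : L.PivS N N' E B ω)
    (hE : GoodE L N E) {x : Pt} {a b : ℤ} (ha : 0 ≤ a) (hB : B ⊆ bxAt x a) :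
    L.EvB x a (min (hm N N' x) b - 1) ω := by
  intro hlt
  have hh := fi6_hm N N' x
  have hm1 : min (hm N N' x) b ≤ hm N N' x := min_le_left _ _
  have e1 := abs_le.1 (le_refl |x.1|)
  have e2 := abs_le.1 (le_refl |x.2|)
  have h := hp.two_open hE hlt hB (by omega) (by omega)
  rw [XP.twoAt_iff]
  have hs : dom N N' E ∩ annAt x a (min (hm N N' x) b - 1) =
      annAt x a (min (hm N N' x) b - 1) := by
    apply Set.inter_eq_right.2
    intro v hv
    have h3 := fi6_nrm hv.2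
    have h4 : (v - x).1 = v.1 - x.1 := rfl
    have h5 : (v - x).2 = v.2 - x.2 := rfl
    rw [h4, h5] at h3
    refine ⟨⟨⟨?_, ?_⟩, ?_, ?_⟩, fun he => ?_⟩
    · omega
    · omega
    · omega
    · omega
    · have h6 := (hE v he).1
      omega
  rw [hs] at h
  exact h

/-- Half plane part.  `B ⊆ bxAt yH (2 max a h)`: `nrm (v - yH) ≤ a + |h|` (`nrm_yH`), `|h| ≤ max a h`.  If `N - |x.1| < N' - |x.2|`: colour `false`,
`yH.2 = x.2`, `PivS.two_closed` with `R = min h₂ b - 1`, `h₂ = N' - |x.2|`.  Otherwise colour `true`, `yH.1 = x.1`,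
`PivS.two_open`, `h₂ = N - |x.1|`. -/
theorem Lat.PivS.evH {L : Lat} {N N' : ℤ} {E B : Set Pt} {ω : Cfg} (hp : L.PivS N N' E B ω)
    (hN : 0 < N) (hN' : 0 < N') (hE : GoodE L N E) {x : Pt} {a b : ℤ} (ha : 0 ≤ a)
    (h1 : |x.1| ≤ N + a) (h2 : |x.2| ≤ N' + a) (hB : B ⊆ bxAt x a) :
    L.EvH N N' E x (2 * max a (hm N N' x)) (min (hM N N' x) b - 1) ω := by
  intro hlt
  have hh := fi6_hm N N' x
  have hmin : hm N N' x = N - |x.1| ∨ hm N N' x = N' - |x.2| := min_choice _ _
  have hm1 : min (hM N N' x) b ≤ hM N N' x := min_le_left _ _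
  have hm2 : min (hM N N' x) b ≤ b := min_le_right _ _
  have e1 := abs_le.1 (le_refl |x.1|)
  have e2 := abs_le.1 (le_refl |x.2|)
  have a1 : a ≤ max a (hm N N' x) := le_max_left _ _
  have a2 : hm N N' x ≤ max a (hm N N' x) := le_max_right _ _
  have hB' : B ⊆ bxAt (yH N N' x) (2 * max a (hm N N' x)) := by
    intro v hv
    have h3 : nrm (v - x) ≤ a := hB hv
    have h4 := XP.nrm_tri v x (yH N N' x)
    have h5 := nrm_yH N N' x
    have h6 : |hm N N' x| ≤ max a (hm N N' x) := by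
      rw [abs_le]
      constructor
      · rcases hmin with h | h <;> omega
      · omega
    show nrm (v - yH N N' x) ≤ _
    omega
  by_cases hc : N - |x.1| < N' - |x.2|
  · have hcH : cH N N' x = false := by
      unfold cH
      rw [decide_eq_false_iff_not]
      omega
    have hy : (yH N N' x).2 = x.2 := by
      unfold yH
      rw [if_pos hc]
    have hMe : hM N N' x = N' - |x.2| := by
      unfold hM
      exact max_eq_right hc.le
    rw [hcH]
    exact hp.two_closed hN hN' hE hlt hB' (by rw [hy]; omega) (by rw [hy]; omega)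
  · have hcH : cH N N' x = true := by
      unfold cH
      rw [decide_eq_true_iff]
      omega
    have hy : (yH N N' x).1 = x.1 := by
      unfold yH
      rw [if_neg hc]
    have hMe : hM N N' x = N - |x.1| := by
      unfold hM
      exact max_eq_left (not_lt.1 hc)
    rw [hcH]
    exact hp.two_open hE hlt hB' (by rw [hy]; omega) (by rw [hy]; omega)

/-- Corner part.  `B ⊆ bxAt yQ (2 max a h₂)` (`nrm_yQ`).  `yQ.1 = -N`: `yQ.1 + b ≤ N - 1`; `yQ.1 = N`: `-N + b ≤ yQ.1`; `PivS.arm_open`;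
the same for the second coordinate, `PivS.arm_closed`. -/
theorem Lat.PivS.evQ {L : Lat} {N N' : ℤ} {E B : Set Pt} {ω : Cfg} (hp : L.PivS N N' E B ω)
    (hN : 0 < N) (hN' : 0 < N') (hE : GoodE L N E) {x : Pt} {a b : ℤ} (ha : 0 ≤ a) (hb : b ≤ N)
    (hb' : b ≤ N') (h1 : |x.1| ≤ N + a) (h2 : |x.2| ≤ N' + a) (hB : B ⊆ bxAt x a) :
    L.EvQ N N' E x (2 * max a (hM N N' x)) b ω := by
  intro hlt c
  have a1 : a ≤ max a (hM N N' x) := le_max_left _ _
  have hB' : B ⊆ bxAt (yQ N N' x) (2 * max a (hM N N' x)) := by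
    intro v hv
    have h3 : nrm (v - x) ≤ a := hB hv
    have h4 := XP.nrm_tri v x (yQ N N' x)
    have h5 := nrm_yQ h1 h2
    show nrm (v - yQ N N' x) ≤ _
    omega
  cases c with
  | true =>
    refine hp.arm_open hE hlt hB' ?_
    have hy : (yQ N N' x).1 = -N ∨ (yQ N N' x).1 = N := by
      unfold yQ
      by_cases hx : x.1 ≤ 0
      · left
        simp only [if_pos hx]
      · right
        simp only [if_neg hx]
    rcases hy with hy | hy
    · right
      omega
    · left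
      omega
  | false =>
    refine hp.arm_closed hN hN' hE hlt hB' ?_
    have hy : (yQ N N' x).2 = -N' ∨ (yQ N N' x).2 = N' := by
      unfold yQ
      by_cases hx : x.2 ≤ 0
      · left
        simp only [if_pos hx]
      · right
        simp only [if_neg hx]
    rcases hy with hy | hy
    · right
      omega
    · left
      omega

/-- LOCAL EVENT. -/
theorem Lat.PivS.ev {L : Lat} {N N' : ℤ} {E B : Set Pt} {ω : Cfg} (hp : L.PivS N N' E B ω)
    (hN : 0 < N) (hN' : 0 < N') (hE : GoodE L N E) {x : Pt} {a b : ℤ} (ha : 0 ≤ a) (hb : b ≤ N)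
    (hb' : b ≤ N') (h1 : |x.1| ≤ N + a) (h2 : |x.2| ≤ N' + a) (hB : B ⊆ bxAt x a) :
    L.Ev N N' E x a b ω :=
  ⟨hp.evB hE ha hB, hp.evH hN hN' hE ha h1 h2 hB, hp.evQ hN hN' hE ha hb hb' h1 h2 hB⟩

end SC
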