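import Pool.Agent.Lib_MP_e0a489.TTD

/-!
# MP_e0a489: interface IfT (two-time bounds)
-/

set_option autoImplicit false

namespace SC

open Classical

/-- two-time bounds -/
class IfT : Prop where
  two_time : ∀ {L : Lat} {κ : ℕ → ℝ} (h : Fam L κ) {x₀ : Pt}
    (hc : ∀ m : ℤ, 8 ≤ m → CoreOK (L.shift x₀) m) (R₁ : ℤ),
    ∃ (M : ℝ) (Λ R₀ : ℤ), 0 < M ∧ 1 ≤ Λ ∧ 16 ≤ R₀ ∧ R₁ ≤ R₀ ∧ TTProps L M Λ R₀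

theorem two_time [IfT] {L : Lat} {κ : ℕ → ℝ} (h : Fam L κ) {x₀ : Pt}
    (hc : ∀ m : ℤ, 8 ≤ m → CoreOK (L.shift x₀) m) (R₁ : ℤ) :
    ∃ (M : ℝ) (Λ R₀ : ℤ), 0 < M ∧ 1 ≤ Λ ∧ 16 ≤ R₀ ∧ R₁ ≤ R₀ ∧ TTProps L M Λ R₀ :=
  IfT.two_time h hc R₁

end SC
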