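import Pool.Agent.Lib_MP_e0a489.Defs2

/-!
# MP_e0a489: interface IfX (bounds for the four arm exponents)
-/

set_option autoImplicit false

namespace SC

open Classical

/-- bounds for the four arm exponents -/
class IfX : Prop where
  al_upper : ∀ {L : Lat} {κ : ℕ → ℝ} (h : Fam L κ),
    ∃ (C c : ℝ) (R₀ : ℤ), 0 < C ∧ 0 < c ∧
    c ≤ 1 / 2 ∧ 16 ≤ R₀ ∧ ∀ r R : ℤ, R₀ ≤ r → r ≤ R → al L r R ≤ C * ((r : ℝ) / R) ^ (1 + c)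
  al_lower : ∀ {L : Lat} {κ : ℕ → ℝ} (h : Fam L κ),
    ∃ (C c : ℝ) (R₀ : ℤ), 0 < C ∧ 0 < c ∧
    c ≤ 1 / 2 ∧ 16 ≤ R₀ ∧ ∀ r R : ℤ, R₀ ≤ r → r ≤ R → ((r : ℝ) / R) ^ (2 - c) ≤ C * al L r R

theorem al_upper [IfX] {L : Lat} {κ : ℕ → ℝ} (h : Fam L κ) :
    ∃ (C c : ℝ) (R₀ : ℤ), 0 < C ∧ 0 < c ∧
    c ≤ 1 / 2 ∧ 16 ≤ R₀ ∧ ∀ r R : ℤ, R₀ ≤ r → r ≤ R → al L r R ≤ C * ((r : ℝ) / R) ^ (1 + c) :=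
  IfX.al_upper h

theorem al_lower [IfX] {L : Lat} {κ : ℕ → ℝ} (h : Fam L κ) :
    ∃ (C c : ℝ) (R₀ : ℤ), 0 < C ∧ 0 < c ∧
    c ≤ 1 / 2 ∧ 16 ≤ R₀ ∧ ∀ r R : ℤ, R₀ ≤ r → r ≤ R → ((r : ℝ) / R) ^ (2 - c) ≤ C * al L r R :=
  IfX.al_lower h

end SC
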