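import Pool.Agent.Lib_MP_e0a489.SE24

/-!
# MP_e0a489, module SE: two-time separation theorem, quasi-multiplicativity (interface)
-/

set_option autoImplicit false

namespace SC

variable [IfL]

open Classical

/-- TWO-TIME SEPARATION.  (`k` arbitrary correlations; with `k = 1` this is the separation lemma for one
configuration.) -/
theorem sep2 (κ : ℕ → ℝ) : ∃ (C : ℝ) (R₀ : ℤ), 0 < C ∧ 16 ≤ R₀ ∧ ∀ L : Lat, RSW L κ →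
    ∀ k : Pt → ℝ, (∀ v, 0 ≤ k v ∧ k v ≤ 1) → ∀ (c : Bool) (r R : ℤ), R₀ ≤ r → r ≤ R →
      pr2 k (L.TwoA c r R) ≤ C * pr2 (kz k r R) (L.S4 r R) :=
  sep2_x κ

/-- extension on both sides -/
theorem ext2 (κ : ℕ → ℝ) : ∃ (C : ℝ) (R₀ : ℤ), 0 < C ∧ 16 ≤ R₀ ∧ ∀ L : Lat, RSW L κ →
    ∀ k : Pt → ℝ, (∀ v, 0 ≤ k v ∧ k v ≤ 1) → ∀ r R r' R' : ℤ, R₀ ≤ r' → r' ≤ r → r ≤ 64 * r' →
      r ≤ R → R ≤ R' → R' ≤ 64 * R →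
      pr2 (kz k r R) (L.S4 r R) ≤ C * pr2 (kz k r' R') (L.S4 r' R') :=
  ext2_x κ

/-- gluing -/
theorem glue2 (κ : ℕ → ℝ) : ∃ (C : ℝ) (R₀ : ℤ), 0 < C ∧ 16 ≤ R₀ ∧ ∀ L : Lat, RSW L κ →
    ∀ k : Pt → ℝ, (∀ v, 0 ≤ k v ∧ k v ≤ 1) → ∀ r ρ ρ' R : ℤ, R₀ ≤ r → r ≤ ρ → 8 * ρ ≤ ρ' →
      ρ' ≤ 64 * ρ → ρ' ≤ R →
      pr2 (kz k r ρ) (L.S4 r ρ) * pr2 (kz k ρ' R) (L.S4 ρ' R) ≤
        C * pr2 (kz k r R) (L.S4 r R) :=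
  glue2_x κ

/-- the separated event implies the four arm event of both colours around every near centre -/
theorem S4_twoAt {L : Lat} {c : Bool} {r R r₁ R₁ d : ℤ} {x : Pt} {ω : Cfg} (h : L.S4 r R ω)
    (hr : 16 ≤ r) (hd : nrm x ≤ d) (h1 : r + d ≤ r₁) (h2 : r₁ < R₁) (h3 : R₁ + d ≤ R) :
    L.TwoAt c x r₁ R₁ ω :=
  S4_twoAt_x h hr hd h1 h2 h3

/-- comparison of colours, centres and radii -/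
theorem cmp2 (κ : ℕ → ℝ) : ∃ (C : ℝ) (R₀ : ℤ), 0 < C ∧ 16 ≤ R₀ ∧ ∀ L : Lat, RSW L κ →
    ∀ k : Pt → ℝ, (∀ v, 0 ≤ k v ∧ k v ≤ 1) → ∀ (c c' : Bool) (x : Pt) (r R r' R' : ℤ),
      R₀ ≤ r → R₀ ≤ r' → r ≤ R → 4 * nrm x ≤ r → r ≤ 2 * r' → r' < R' → R' ≤ 4 * R →
      pr2 k (L.TwoA c r R) ≤ C * pr2 k (L.TwoAt c' x r' R') :=
  cmp2_x κ

/-- quasi-multiplicativity for pairs of configurations -/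
theorem qmult2 (κ : ℕ → ℝ) : ∃ (C : ℝ) (R₀ : ℤ), 0 < C ∧ 16 ≤ R₀ ∧ ∀ L : Lat, RSW L κ →
    ∀ k : Pt → ℝ, (∀ v, 0 ≤ k v ∧ k v ≤ 1) → ∀ (c : Bool) (r ρ R : ℤ),
      R₀ ≤ r → r ≤ ρ → ρ ≤ R →
      pr2 k (L.TwoA c r ρ) * pr2 k (L.TwoA c ρ R) ≤ C * pr2 k (L.TwoA c r R) :=
  qmult2_x κ

/-! ### One configuration -/

theorem al_props (κ : ℕ → ℝ) : ∃ (C : ℝ) (R₀ : ℤ), ∀ L : Lat, Fam L κ → AlProps L C R₀ :=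
  al_props_x κ

end SC
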