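import Pool.Agent.Lib_MP_e0a489.FI19
import Pool.Agent.Lib_MP_e0a489.FI20
import Pool.Agent.Lib_MP_e0a489.FI21
import Pool.Agent.Lib_MP_e0a489.IfT
import Pool.Agent.Lib_MP_e0a489.IfX
import Pool.Agent.Lib_MP_e0a489.SE9

/-!
# MP_e0a489, module FI: the spectral sample of a box crossing (interface)
-/

set_option autoImplicit false

namespace SC

variable [IfL] [IfX] [IfT]

open Classical

/-- `al L` satisfies the abstract properties -/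
theorem FI.al_AF {L : Lat} {κ : ℕ → ℝ} (h : Fam L κ) :
    ∃ (C c γ : ℝ) (R₀ : ℤ), FI.AF (al L) C c γ R₀ := by
  obtain ⟨C₁, R₁, hA⟩ := al_props κ
  obtain ⟨C₂, c₂, R₂, h1, h2, h3, h4, hU⟩ := al_upper h
  obtain ⟨C₃, c₃, R₃, h5, h6, h7, h8, hL⟩ := al_lower h
  have hP := hA L h
  have nn : ∀ r R, 0 ≤ al L r R := by
    intro r R
    unfold al
    split_ifs
    · exact pr_nonneg _
    · exact zero_le_one
  refine ⟨_, _, _, _, FI.AF_of (C₃ := C₃) (c₃ := c₃) (R₁ := R₁) (R₂ := R₂) (R₃ := R₃)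
    hP.C1 h2 h6 h7 hP.R16 nn hP.le1 ?_ hP.mono ?_ hP.qmult hU hL⟩
  · intro r R hrR
    unfold al
    rw [if_neg (by omega)]
  · intro r ρ R h0 h1 h2
    exact FI.al_sub L h0 h1 h2

/-- FINAL ESTIMATE for the crossing of the domain `dom N N' E`, `N ≤ 2 N'`, `N' ≤ 2 N`. -/
theorem spectral_box {L : Lat} {κ : ℕ → ℝ} (h : Fam L κ) {x₀ : Pt}
    (hc : ∀ m : ℤ, 8 ≤ m → CoreOK (L.shift x₀) m) (R₁ : ℤ) :
    ∃ R₀ : ℤ, 16 ≤ R₀ ∧ R₁ ≤ R₀ ∧ ∀ A : ℝ, 0 < A → ∃ C : ℝ, 0 < C ∧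
      ∀ (r d N N' : ℤ) (E : Set Pt),
      R₀ ≤ r → r ≤ N → N ≤ 2 * N' → N' ≤ 2 * N → GoodE L N E →
      ∀ F : Finset Pt, (∀ v, v ∈ F ↔ v ∈ dom N N' E) →
      ∑ S ∈ F.powerset.filter (fun S => ((S.card : ℝ) ≤ A * ((r : ℝ) ^ 2 * al L R₀ r)) ∧
          ∃ u ∈ S, ∃ v ∈ S, d ≤ nrm (u - v)),
        fc (ind (L.Crs N N' E)) S ^ 2 ≤
      C * (((N : ℝ) / r) * al L r N) ^ 2 *
        ((((max d r : ℤ) : ℝ) / r) * al L r (max d r)) ^ 2 := by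
  obtain ⟨C, c, γ, R₂, hF⟩ := FI.al_AF h
  obtain ⟨M, Λ, R₀, hM, hΛ, h16, hR, hT⟩ := two_time h hc (max R₁ R₂)
  have hF0 : FI.AF (al L) C c γ R₀ := hF.mono_R (le_trans (le_max_right _ _) hR)
  refine ⟨R₀, h16, le_trans (le_max_left _ _) hR, fun A hA => ?_⟩
  refine FI.spectral_of (M := max M 1) (Λ := Λ) hF0 (le_max_right _ _) hΛ ?_ hA
  intro ℓ t hℓ ht
  have hal0 : 0 ≤ al L R₀ ℓ := hF0.nn _ _
  have ht0 : 0 ≤ t := by
    by_contra hneg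
    push Not at hneg
    have : t * ((ℓ : ℝ) ^ 2 * al L R₀ ℓ) ≤ 0 :=
      mul_nonpos_of_nonpos_of_nonneg hneg.le (by positivity)
    linarith
  have hMle : M ≤ max M 1 := le_max_left _ _
  refine ⟨ht0, le_max_right _ _, fun c' x r R h1 h2 => ?_, fun s c' x H r R hH h1 h2 => ?_,
    fun s x H r R hH h1 h2 => ?_⟩
  · exact (hT.bulk ℓ t hℓ ht c' x r R h1 h2).trans
      (mul_le_mul_of_nonneg_right hMle (by positivity))
  · exact (hT.half ℓ t hℓ ht s c' x H r R hH h1 h2).trans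
      (mul_le_mul_of_nonneg_right hMle (Real.rpow_nonneg (hF0.nn _ _) _))
  · exact (hT.quart ℓ t hℓ ht s x H r R hH h1 h2).trans
      (mul_le_mul_of_nonneg_right hMle (hF0.nn _ _))

end SC
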