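import Pool.Agent.Lib_MP_e0a489.EX1

/-!
# MP_e0a489, foot lemma 1: first passage sets

Half box `Hb β = rect (-2β) (2β) 0 (2β)`, source `A0 β` = the row just below the left quarter of it.
`fs (i+1)` is the exploration of the clusters of colour `cc i` attached to `fs i`.  `Rf i` = explored
sites (`∅` for `i = 0`).
-/

set_option autoImplicit false

namespace SC

open Classical

/-- the other three sides of the half box -/
def hbo (β : ℤ) : Set Pt :=
  {v | v ∈ rect (-(2 * β)) (2 * β) 0 (2 * β) ∧ (v.1 = -(2 * β) ∨ v.1 = 2 * β ∨ v.2 = 2 * β)}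

/-- the half box -/
def Hb (β : ℤ) : Set Pt := rect (-(2 * β)) (2 * β) 0 (2 * β)

/-- the source -/
def A0 (β : ℤ) : Set Pt := rect (-(2 * β)) (-β) (-1) (-1)

/-- the half box as a finite set -/
noncomputable def HbF (β : ℤ) : Finset Pt := Finset.Icc (-(2 * β)) (2 * β) ×ˢ Finset.Icc 0 (2 * β)

/-- colours of the exploration -/
def cc (i : ℕ) : Bool := decide (i % 2 = 0)

namespace Lat

/-- alternate triple within distance `a` -/
def Alt3 (L : Lat) (β a : ℤ) (ω : Cfg) : Prop :=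
  ∃ c : Bool, ∃ x₁ x₂ x₃ : ℤ, -β < x₁ ∧ x₁ < x₂ ∧ x₂ < x₃ ∧ x₃ < β ∧ x₃ - x₁ ≤ a ∧
    L.Arm c (rect (-(2 * β)) (2 * β) 0 (2 * β)) {(x₁, 0)} (hbo β) ω ∧
    L.Arm (!c) (rect (-(2 * β)) (2 * β) 0 (2 * β)) {(x₂, 0)} (hbo β) ω ∧
    L.Arm c (rect (-(2 * β)) (2 * β) 0 (2 * β)) {(x₃, 0)} (hbo β) ω

/-- first passage sets -/
def fs (L : Lat) (β : ℤ) (ω : Cfg) : ℕ → Set Pt
  | 0 => A0 β
  | i + 1 => L.Cx (cc i) (Hb β ∪ A0 β) (L.fs β ω i) ω

/-- explored sites -/
def Rf (L : Lat) (β : ℤ) (i : ℕ) (ω : Cfg) : Set Pt :=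
  if i = 0 then ∅ else L.fs β ω i ∪ L.bd (Hb β ∪ A0 β) (L.fs β ω i)

/-- `fs i` has no site `(x', 0)` with `x' ≥ β` -/
def Ef (L : Lat) (β : ℤ) (i : ℕ) (ω : Cfg) : Prop := ∀ x', β ≤ x' → (x', 0) ∉ L.fs β ω i

/-- the rightmost site of the bottom row in `fs i` is `x ∈ (-β, β)` and `fs (i+1)` does not reach
`x + a` -/
def Bad (L : Lat) (β a : ℤ) (i : ℕ) (ω : Cfg) : Prop :=
  ∃ x : ℤ, -β < x ∧ x < β ∧ (x, 0) ∈ L.fs β ω i ∧ (∀ x', x < x' → (x', 0) ∉ L.fs β ω i) ∧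
    ∀ x', x + a ≤ x' → (x', 0) ∉ L.fs β ω (i + 1)

end Lat

/-! ### general facts -/

theorem coe_HbF (β : ℤ) : ((HbF β : Finset Pt) : Set Pt) = Hb β := by
  ext v
  rw [Finset.mem_coe]
  unfold HbF
  rw [Finset.mem_product, Finset.mem_Icc, Finset.mem_Icc]
  exact Iff.rfl

theorem cc_succ (i : ℕ) : cc (i + 1) = !cc i := by
  unfold cc
  rcases Nat.mod_two_eq_zero_or_one i with h | h
  · have h' : (i + 1) % 2 = 1 := by omega
    rw [h, h']
    rfl
  · have h' : (i + 1) % 2 = 0 := by omega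
    rw [h, h']
    rfl

theorem A0_disj {β : ℤ} {v : Pt} (h : v ∈ Hb β) : v ∉ A0 β := by
  intro h'
  have h1 : 0 ≤ v.2 := h.2.1
  have h2 : v.2 ≤ -1 := h'.2.2
  omega

namespace Lat

variable {L : Lat} {β : ℤ} {ω : Cfg}

/-- explored sites keep their colour (any set `R`) -/
theorem mix_col_in {R : Cfg → Set Pt} {G : Finset Pt} {η : Cfg} {v : Pt} (h : v ∈ R ω) (b : Bool) :
    v ∈ L.col b (mix G R ω η) ↔ v ∈ L.col b ω := by
  have e : mix G R ω η v = ω v := by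
    unfold mix
    rw [if_neg (fun h' => h'.2 h)]
  show L.st (mix G R ω η) v = b ↔ L.st ω v = b
  unfold Lat.st
  rw [e]

/-- unexplored sites of `G` take the fresh colour -/
theorem mix_col_out {R : Cfg → Set Pt} {G : Finset Pt} {η : Cfg} {v : Pt} (h : v ∉ R ω)
    (hG : v ∈ G) (b : Bool) : v ∈ L.col b (mix G R ω η) ↔ v ∈ L.col b η := by
  have e : mix G R ω η v = η v := by
    unfold mix
    rw [if_pos ⟨hG, h⟩]
  show L.st (mix G R ω η) v = b ↔ L.st η v = b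
  unfold Lat.st
  rw [e]

theorem col_unique {b b' : Bool} {v : Pt} (h : v ∈ L.col b ω) (h' : v ∈ L.col b' ω) : b = b' :=
  Eq.trans (Eq.symm h) h'

/-! ### first passage sets -/

theorem fs_sub (i : ℕ) : L.fs β ω i ⊆ Hb β ∪ A0 β := by
  induction i with
  | zero => exact Set.subset_union_right
  | succ i ih => exact Cx_sub ih

theorem fs_le {i j : ℕ} (h : i ≤ j) : L.fs β ω i ⊆ L.fs β ω j := by
  induction h with
  | refl => exact subset_rfl
  | step _ ih => exact ih.trans Cx_sup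

theorem A0_sub (i : ℕ) : A0 β ⊆ L.fs β ω i := fs_le (Nat.zero_le i)

/-- `con_rect`, `Cx_con` -/
theorem fs_con (i : ℕ) : L.Con (L.fs β ω i) := by
  induction i with
  | zero => exact con_rect _ _ _ _
  | succ i ih => exact Cx_con ih

/-- a new site lies in the half box and has the right colour (`Cx_col`) -/
theorem fs_new {i : ℕ} {v : Pt} (h : v ∈ L.fs β ω (i + 1)) (h' : v ∉ L.fs β ω i) :
    v ∈ Hb β ∧ v ∈ L.col (cc i) ω := by
  obtain ⟨h1, h2⟩ := Cx_col h h'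
  rcases h1 with h1 | h1
  · exact ⟨h1, h2⟩
  · exact absurd (A0_sub i h1) h'

/-- sites of the half box next to `fs (i+1)`, not in it (`bd_col`) -/
theorem fs_col {i : ℕ} {v : Pt} (h : v ∈ Hb β) (hn : v ∈ L.nb (L.fs β ω (i + 1)))
    (hC : v ∉ L.fs β ω (i + 1)) : v ∈ L.col (cc (i + 1)) ω := by
  rw [cc_succ]
  exact bd_col (Or.inl h) hn hC

/-- A connected set of colour `cc i` in the half box off `fs i` which contains a site of
`fs (i+1)` or a site next to `fs i` lies in `fs (i+1)` (`Cx_path`). -/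
theorem fs_absorb {i : ℕ} {P : Set Pt} (hP : L.Con P) (hH : P ⊆ Hb β) (hc : P ⊆ L.col (cc i) ω)
    (hd : ∀ v ∈ P, v ∉ L.fs β ω i)
    (hm : ∃ v ∈ P, v ∈ L.fs β ω (i + 1) ∨ v ∈ L.nb (L.fs β ω i)) : P ⊆ L.fs β ω (i + 1) := by
  obtain ⟨v, hv, hm⟩ := hm
  intro w hw
  refine Cx_path (u := v) ((hP v hv w hw).mono ?_) hm.symm
  intro z hz
  exact ⟨⟨Or.inl (hH hz), hd z hz⟩, hc hz⟩

/-- The set `fs i` is determined by the configuration on the explored sites.  Induction on `i`: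
`Rf i ⊆ Rf (i+1)` because `fs` and `bd M ·` are monotone, so `fs i ω' = fs i ω`, and
`L.Rev (cc i) M (fs i ω) ω = Rf (i+1) ω`: `Cx_stop`. -/
theorem fs_stop {i : ℕ} {ω' : Cfg} (h : ∀ v ∈ L.Rf β i ω, ω v = ω' v) :
    L.fs β ω' i = L.fs β ω i := by
  induction i with
  | zero => rfl
  | succ i ih =>
    have h1 : L.Rf β i ω ⊆ L.Rf β (i + 1) ω := by
      unfold Rf
      rw [if_neg (Nat.succ_ne_zero i)]
      split_ifs with h0
      · exact Set.empty_subset _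
      · rintro v (hv | ⟨hv, u, hu, hw⟩)
        · exact Or.inl (fs_le (Nat.le_succ i) hv)
        · exact Or.inr ⟨hv, u, fs_le (Nat.le_succ i) hu, hw⟩
    have h2 := ih (fun v hv => h v (h1 hv))
    show L.Cx (cc i) (Hb β ∪ A0 β) (L.fs β ω' i) ω' = L.Cx (cc i) (Hb β ∪ A0 β) (L.fs β ω i) ω
    rw [h2]
    apply Cx_stop
    intro v hv
    apply h v
    unfold Rf
    rw [if_neg (Nat.succ_ne_zero i)]
    exact hv

theorem Rf_stop (L : Lat) (β : ℤ) (i : ℕ) : Stop (L.Rf β i) := by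
  intro ω ω' h
  unfold Rf
  rw [fs_stop h]

theorem fs_mix (i : ℕ) (G : Finset Pt) (η : Cfg) :
    L.fs β (mix G (L.Rf β i) ω η) i = L.fs β ω i := by
  apply fs_stop
  intro v hv
  unfold mix
  rw [if_neg (fun h' => h'.2 hv)]

/-- `fs i` depends only on the half box (induction; `Cx c M S ω` with `M \ S ⊆ Hb`) -/
theorem fs_dep (L : Lat) (β : ℤ) (i : ℕ) : Dep (fun ω => L.fs β ω i) (Hb β) := by
  intro ω ω' h
  induction i with
  | zero => rfl
  | succ i ih =>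
    have h2 : L.fs β ω i = L.fs β ω' i := ih
    show L.Cx (cc i) (Hb β ∪ A0 β) (L.fs β ω i) ω = L.Cx (cc i) (Hb β ∪ A0 β) (L.fs β ω' i) ω'
    rw [← h2]
    have h3 : ((Hb β ∪ A0 β) \ L.fs β ω i) ∩ L.col (cc i) ω =
        ((Hb β ∪ A0 β) \ L.fs β ω i) ∩ L.col (cc i) ω' := by
      ext v
      constructor
      · rintro ⟨⟨hv, hf⟩, hc⟩
        refine ⟨⟨hv, hf⟩, ?_⟩
        have hv' : v ∈ Hb β := hv.resolve_right (fun h0 => hf (A0_sub i h0))
        show L.st ω' v = cc i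
        have hc' : L.st ω v = cc i := hc
        unfold Lat.st at hc' ⊢
        rw [← h v hv']
        exact hc'
      · rintro ⟨⟨hv, hf⟩, hc⟩
        refine ⟨⟨hv, hf⟩, ?_⟩
        have hv' : v ∈ Hb β := hv.resolve_right (fun h0 => hf (A0_sub i h0))
        show L.st ω v = cc i
        have hc' : L.st ω' v = cc i := hc
        unfold Lat.st at hc' ⊢
        rw [h v hv']
        exact hc'
    unfold Cx cl
    rw [h3]

theorem Ef_dep (L : Lat) (β : ℤ) (i : ℕ) : Dep (L.Ef β i) (Hb β) := by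
  intro ω ω' h
  have h1 : L.fs β ω i = L.fs β ω' i := fs_dep L β i ω ω' h
  unfold Ef
  rw [h1]

theorem Bad_dep (L : Lat) (β a : ℤ) (i : ℕ) : Dep (L.Bad β a i) (Hb β) := by
  intro ω ω' h
  have h1 : L.fs β ω i = L.fs β ω' i := fs_dep L β i ω ω' h
  have h2 : L.fs β ω (i + 1) = L.fs β ω' (i + 1) := fs_dep L β (i + 1) ω ω' h
  unfold Bad
  rw [h1, h2]

theorem Alt3_dep (L : Lat) (β a : ℤ) : Dep (L.Alt3 β a) (Hb β) := by
  intro ω ω' h
  have h1 : ∀ b, rect (-(2 * β)) (2 * β) 0 (2 * β) ∩ L.col b ω =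
      rect (-(2 * β)) (2 * β) 0 (2 * β) ∩ L.col b ω' := by
    intro b
    ext v
    constructor
    · rintro ⟨hv, hc⟩
      refine ⟨hv, ?_⟩
      have hc' : L.st ω v = b := hc
      show L.st ω' v = b
      unfold Lat.st at hc' ⊢
      rw [← h v hv]
      exact hc'
    · rintro ⟨hv, hc⟩
      refine ⟨hv, ?_⟩
      have hc' : L.st ω' v = b := hc
      show L.st ω v = b
      unfold Lat.st at hc' ⊢
      rw [h v hv]
      exact hc'
  unfold Alt3 Arm
  simp only [h1]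

end Lat

end SC
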