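import Pool.Agent.Lib_MP_e0a489.FT1

/-!
# MP_e0a489, foot lemma 2: the first passage sets fill the half box
-/

set_option autoImplicit false

namespace SC

open Classical

namespace Lat

variable {L : Lat} {β : ℤ} {ω : Cfg}

private theorem ft2_con (hβ : 0 ≤ β) : L.Con (A0 β ∪ Hb β) := by
  refine Con.union_adj (u := (-β, -1)) (v := (-β, 0)) (con_rect _ _ _ _) (con_rect _ _ _ _)
    ?_ ?_ ?_
  · refine ⟨⟨?_, ?_⟩, ?_, ?_⟩
    · show -(2 * β) ≤ -β
      linarith
    · show -β ≤ -β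
      exact le_refl _
    · show (-1 : ℤ) ≤ -1
      exact le_refl _
    · show (-1 : ℤ) ≤ -1
      exact le_refl _
  · refine ⟨⟨?_, ?_⟩, ?_, ?_⟩
    · show -(2 * β) ≤ -β
      linarith
    · show -β ≤ 2 * β
      linarith
    · show (0 : ℤ) ≤ 0
      exact le_refl _
    · show (0 : ℤ) ≤ 2 * β
      linarith
  · have h := adj_up (L := L) (-β, -1)
    simpa using h

private theorem ft2_mem (hβ : 0 ≤ β) : ((-β, -1) : Pt) ∈ A0 β := by
  refine ⟨⟨?_, ?_⟩, ?_, ?_⟩
  · show -(2 * β) ≤ -β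
    linarith
  · show -β ≤ -β
    exact le_refl _
  · show (-1 : ℤ) ≤ -1
    exact le_refl _
  · show (-1 : ℤ) ≤ -1
    exact le_refl _

private theorem ft2_cc (i : ℕ) (q : Pt) : q ∈ L.col (cc i) ω ∨ q ∈ L.col (cc (i + 1)) ω := by
  rw [cc_succ]
  show L.st ω q = cc i ∨ L.st ω q = !cc i
  cases L.st ω q <;> cases cc i <;> simp

/-- If `fs i` is not everything, a new site is added in two steps.
Proof.  `Hb β ∪ A0 β` is connected: `Con.union_many` or `Con.union_adj` with `con_rect` for `Hb β` and `A0 β` and the edge from `(-β, -1)` to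
`(-β, 0)` (`adj_up`).  Path in `Hb β ∪ A0 β` from `(-β, -1) ∈ A0 β ⊆ fs i` (`A0_sub`) to a site `w ∈ Hb β`, `w ∉ fs i`; first exit (`Cn.exit`)
from `S = fs i`: `Adj p q`, `p ∈ fs i`, `q ∉ fs i`, `q ∈ Hb β ∪ A0 β`, so `q ∈ Hb β` and `q ∈ L.nb (fs i)`.  The colour `L.st ω q` of `q` is `cc i` or
`cc (i+1)` (`cc_succ`).  If it is `cc i`, then `{q} ⊆ fs (i+1)` by `fs_absorb` (`con_singleton`), and `fs (i+1) ⊆ fs (i+2)` (`fs_le`).  If it is
`cc (i+1)`: either `q ∈ fs (i+1) ⊆ fs (i+2)` or `q ∉ fs (i+1)`, and then `q ∈ L.nb (fs (i+1))` (monotone in the set) and `fs_absorb` with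
`i+1` gives `q ∈ fs (i+2)`. -/
theorem fs_two (hβ : 0 ≤ β) {i : ℕ} (h : ¬ Hb β ⊆ L.fs β ω i) :
    ∃ q ∈ Hb β, q ∉ L.fs β ω i ∧ q ∈ L.fs β ω (i + 2) := by
  obtain ⟨w, hw, hwf⟩ := Set.not_subset.1 h
  obtain ⟨p, q, h1, h2, h3, h4⟩ := (ft2_con (L := L) hβ (-β, -1) (Or.inl (ft2_mem hβ)) w
    (Or.inr hw)).exit (S := L.fs β ω i) (A0_sub i (ft2_mem hβ)) hwf
  have hp : p ∈ L.fs β ω i := h1.right.2
  have hq : q ∈ Hb β := h3.resolve_left (fun h0 => h4 (A0_sub i h0))
  refine ⟨q, hq, h4, ?_⟩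
  by_cases h5 : q ∈ L.fs β ω (i + 1)
  · exact fs_le (Nat.le_succ (i + 1)) h5
  · rcases ft2_cc (L := L) (ω := ω) i q with hc | hc
    · refine absurd ?_ h5
      refine fs_absorb (P := {q}) (con_singleton q) ?_ ?_ ?_ ?_ (Set.mem_singleton q)
      · rintro v rfl
        exact hq
      · rintro v rfl
        exact hc
      · rintro v rfl
        exact h4
      · exact ⟨q, Set.mem_singleton q, Or.inr ⟨p, hp, h2⟩⟩
    · refine fs_absorb (i := i + 1) (P := {q}) (con_singleton q) ?_ ?_ ?_ ?_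
        (Set.mem_singleton q)
      · rintro v rfl
        exact hq
      · rintro v rfl
        exact hc
      · rintro v rfl
        exact h5
      · exact ⟨q, Set.mem_singleton q, Or.inr ⟨p, fs_le (Nat.le_succ i) hp, h2⟩⟩

/-- Proof.  By induction on `k`: `Hb β ⊆ fs (2k)` or `k ≤ ((HbF β).filter (· ∈ fs (2k))).card`.  Step: if `Hb β ⊆ fs (2k)` use `fs_le`; otherwise
`fs_two` gives a new site in `fs (2k+2)`, so the filter for `2(k+1)` strictly contains the one for `2k` (`fs_le`, `Finset.card_lt_card`).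
For `k = (HbF β).card` the second alternative says that the filter is everything (`Finset.eq_of_subset_of_card_le`), i.e.
`Hb β ⊆ fs (2k)` as well (`coe_HbF`). -/
theorem fs_fill (hβ : 0 ≤ β) : Hb β ⊆ L.fs β ω (2 * (HbF β).card) := by
  have hmem : ∀ v, v ∈ HbF β ↔ v ∈ Hb β := by
    intro v
    rw [← coe_HbF β, Finset.mem_coe]
  have key : ∀ k : ℕ, Hb β ⊆ L.fs β ω (2 * k) ∨
      k ≤ ((HbF β).filter (fun v => v ∈ L.fs β ω (2 * k))).card := by
    intro k
    induction k with
    | zero => exact Or.inr (Nat.zero_le _)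
    | succ k ih =>
      by_cases hk : Hb β ⊆ L.fs β ω (2 * k)
      · exact Or.inl (hk.trans (fs_le (by omega)))
      · refine Or.inr ?_
        have h1 := ih.resolve_left hk
        obtain ⟨q, hq, hq1, hq2⟩ := fs_two hβ hk
        have h2 : ((HbF β).filter (fun v => v ∈ L.fs β ω (2 * k))).card <
            ((HbF β).filter (fun v => v ∈ L.fs β ω (2 * (k + 1)))).card := by
          refine Finset.card_lt_card ?_
          rw [Finset.ssubset_iff_of_subset]
          · refine ⟨q, ?_, ?_⟩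
            · rw [Finset.mem_filter]
              exact ⟨(hmem q).2 hq, hq2⟩
            · rw [Finset.mem_filter]
              exact fun h0 => hq1 h0.2
          · intro v hv
            rw [Finset.mem_filter] at hv ⊢
            exact ⟨hv.1, fs_le (by omega) hv.2⟩
        omega
  rcases key (HbF β).card with h | h
  · exact h
  · have h1 : (HbF β).filter (fun v => v ∈ L.fs β ω (2 * (HbF β).card)) = HbF β :=
      Finset.eq_of_subset_of_card_le (Finset.filter_subset _ _) h
    intro v hv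
    have h2 : v ∈ (HbF β).filter (fun v => v ∈ L.fs β ω (2 * (HbF β).card)) := by
      rw [h1]
      exact (hmem v).2 hv
    exact (Finset.mem_filter.1 h2).2

end Lat

end SC
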