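import Pool.Agent.Lib_MP_e0a489.TB5

/-!
# MP_e0a489, topology 2f: arches
-/

set_option autoImplicit false

namespace SC

open Classical

namespace Lat

variable {L : Lat}

private theorem bp_bot {a b c d x : ℤ} (h : x ≤ b) : bp a b c d (x - a) = (x, c) := by
  unfold bp
  rw [if_pos (by linarith)]
  simp

/-- Special case: arch over a point of the bottom side against a path from this point to one of the
other three sides. -/
theorem arch {a b c d : ℤ} (hab : a < b) (hcd : c < d) {P P' : Set Pt} (hP : L.Con P)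
    (hP' : L.Con P') (hPr : P ⊆ rect a b c d) (hPr' : P' ⊆ rect a b c d) {x1 x2 x3 : ℤ}
    (h12 : x1 ≤ x2) (h23 : x2 ≤ x3) (m1 : (x1, c) ∈ P) (m3 : (x3, c) ∈ P) (m2 : (x2, c) ∈ P')
    (m4 : ∃ v ∈ P', v.1 = a ∨ v.1 = b ∨ v.2 = d) : (P ∩ P').Nonempty := by
  rcases h12.eq_or_lt with h | h12
  · subst h; exact ⟨_, m1, m2⟩
  rcases h23.eq_or_lt with h | h23
  · subst h; exact ⟨_, m3, m2⟩
  obtain ⟨v, hv, hvb⟩ := m4
  obtain ⟨⟨r1, _⟩, _, _⟩ := hPr m1
  obtain ⟨⟨_, r3⟩, _, _⟩ := hPr m3
  simp only at r1 r3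
  obtain ⟨i, hi0, hi1, hiv⟩ := bp_surj (a := a) (b := b) (c := c) (d := d) hab hcd (hPr' hv)
    (by tauto)
  rcases lt_or_ge (x3 - a) i with hlt | hle
  · exact interlace hab hcd hP hP' hPr hPr' (i1 := x1 - a) (i2 := x2 - a) (i3 := x3 - a) (i4 := i)
      (by linarith) (by linarith) (by linarith) hlt hi1 (by rwa [bp_bot (by linarith)])
      (by rwa [bp_bot (by linarith)]) (by rwa [bp_bot (by linarith)]) (by rwa [hiv])
  · have hv2 : v = (a + i, c) := by
      rw [← hiv]
      unfold bp
      rw [if_pos (by linarith)]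
    have hc1 : v.1 = a + i := by rw [hv2]
    have hc2 : v.2 = c := by rw [hv2]
    rcases hvb with h | h | h
    · have h0 : i = 0 := by linarith
      rcases r1.eq_or_lt with hx | hx
      · refine ⟨_, m1, ?_⟩
        rw [← hx]
        rw [hv2, h0, add_zero] at hv
        exact hv
      · have := interlace hab hcd hP' hP hPr' hPr (i1 := i) (i2 := x1 - a) (i3 := x2 - a)
          (i4 := x3 - a) (by linarith) (by linarith) (by linarith) (by linarith) (by linarith)
          (by rwa [hiv]) (by rwa [bp_bot (by linarith)]) (by rwa [bp_bot (by linarith)])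
          (by rwa [bp_bot (by linarith)])
        rwa [Set.inter_comm] at this
    · refine ⟨_, m3, ?_⟩
      have : v = (x3, c) := by
        rw [hv2]
        congr 1
        linarith
      rwa [this] at hv
    · exfalso; linarith

end Lat

end SC
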