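import Pool.Agent.Lib_MP_e0a489.FT2
import Pool.Agent.Lib_MP_e0a489.TB6

/-!
# MP_e0a489, foot lemma 3: first passage index of a foot; an alternate triple gives a bad index
-/

set_option autoImplicit false

namespace SC

open Classical

namespace Lat

variable {L : Lat} {β : ℤ} {ω : Cfg}

/-- Let `(x, 0)`, `-β < x < β`, have an arm of colour `c` in the half box to one of its three other sides.  Let `i` be the last index
such that no site `(x', 0)` with `x' ≥ x` is in `fs i`.  Then `cc i = c`.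
Proof.  `n = 2 * (HbF β).card`.  `(x, 0) ∈ Hb β ⊆ fs n` (`fs_fill`), and `fs 0 = A0 β` contains no site `(x', 0)`.  With `Nat.find` let `j` be the
least index with `∃ x' ≥ x, (x', 0) ∈ fs j`; `1 ≤ j ≤ n`, `j = i + 1`.  Let `x'` be such a site for `j`.
Let `y` be the end of the arm (`y ∈ hbo β`) and `P = {v | L.Cn (Hb β ∩ L.col c ω) (x, 0) v}`: connected (`con_cluster`), `P ⊆ Hb β ∩ L.col c ω`
(`Cn.right`), `(x, 0) ∈ P`, `y ∈ P`.
CLAIM: `fs (i+1)` meets `P`.  Apply `arch` in `rect (-(2β)) (2β) (-1) (2β)` to `P₁ = fs (i+1) ∪ {(x', -1)}` (connected: `fs_con`, `Con.union_adj`, `adj_up`;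
inside the rectangle: `fs_sub`; it contains `(-β, -1)` by `A0_sub`) and `P₂ = P ∪ {(x, -1)}` (connected in the same way), with the points
`-β ≤ x ≤ x'` of the bottom row; `m4`: the site `y`.  A common site: if `x = x'`, then `(x, 0)` is in `fs (i+1)` and in `P`.  Otherwise
it is not `(x', -1)` (`P₂` has only the site `(x, -1)` with second coordinate `-1`) and not `(x, -1)` (`x ≠ x'`, and `fs (i+1)` contains only sites
of `Hb β` and `A0 β`, where `A0 β` has first coordinates `≤ -β < x`).  So it is in `fs (i+1)` and in `P`.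
Let `k + 1` be the least index such that `fs (k+1)` meets `P` (`Nat.find`; `fs 0 = A0 β` does not meet `P ⊆ Hb β`); `k ≤ i`.  A common site `v` of
`fs (k+1)` and `P` is not in `fs k`, so it has colour `cc k` (`fs_new`) and colour `c`: `cc k = c` (`col_unique`).  By `fs_absorb` (`P` is
disjoint from `fs k`) `P ⊆ fs (k+1)`, so `(x, 0) ∈ fs (k+1)`, so `i + 1 ≤ k + 1` by minimality of `j`.  Hence `k = i`. -/
theorem first_idx {c : Bool} {x : ℤ} (h1 : -β < x) (h2 : x < β)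
    (h : L.Arm c (Hb β) {(x, 0)} (hbo β) ω) :
    ∃ i, i < 2 * (HbF β).card ∧ cc i = c ∧ (∃ x', x ≤ x' ∧ (x', 0) ∈ L.fs β ω (i + 1)) ∧
      ∀ x', x ≤ x' → (x', 0) ∉ L.fs β ω i := by
  obtain ⟨x₀, hx₀, y, hy, hcn⟩ := h
  rw [Set.mem_singleton_iff] at hx₀
  subst hx₀
  have hβ : 0 ≤ β := by omega
  have hxH : ((x, 0) : Pt) ∈ Hb β := ⟨⟨by simp only; omega, by simp only; omega⟩, le_refl _,
    by simp only; omega⟩
  have hQn : ∃ j, ∃ x', x ≤ x' ∧ (x', 0) ∈ L.fs β ω j :=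
    ⟨2 * (HbF β).card, x, le_refl _, fs_fill hβ hxH⟩
  have hQ0 : ¬ ∃ x', x ≤ x' ∧ (x', 0) ∈ L.fs β ω 0 := by
    rintro ⟨x', _, h3⟩
    have h4 : (0 : ℤ) ≤ -1 := h3.2.2
    omega
  have hle : Nat.find hQn ≤ 2 * (HbF β).card := Nat.find_le ⟨x, le_refl _, fs_fill hβ hxH⟩
  have hne : Nat.find hQn ≠ 0 := by
    intro h0
    have h3 := Nat.find_spec hQn
    rw [h0] at h3
    exact hQ0 h3
  obtain ⟨i, hi⟩ := Nat.exists_eq_succ_of_ne_zero hne
  have hspec := Nat.find_spec hQn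
  have hmin := fun m (hm : m < Nat.find hQn) => Nat.find_min hQn hm
  rw [hi] at hspec hmin hle
  refine ⟨i, by omega, ?_, hspec, fun x' hx' hm => hmin i (Nat.lt_succ_self i) ⟨x', hx', hm⟩⟩
  -- the cluster
  have hPc : L.Con {v | L.Cn (Hb β ∩ L.col c ω) (x, 0) v} := con_cluster _ _
  have hPs : ∀ v ∈ {v | L.Cn (Hb β ∩ L.col c ω) (x, 0) v}, v ∈ Hb β ∧ v ∈ L.col c ω :=
    fun v hv => Cn.right hv
  have hxP : ((x, 0) : Pt) ∈ {v | L.Cn (Hb β ∩ L.col c ω) (x, 0) v} := Cn.refl (Cn.left hcn)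
  have hyP : y ∈ {v | L.Cn (Hb β ∩ L.col c ω) (x, 0) v} := hcn
  generalize {v | L.Cn (Hb β ∩ L.col c ω) (x, 0) v} = P at hPc hPs hxP hyP
  have hfr : ∀ m, L.fs β ω m ⊆ rect (-(2 * β)) (2 * β) (-1) (2 * β) := by
    intro m v hv
    rcases fs_sub m hv with ⟨⟨u1, u2⟩, u3, u4⟩ | ⟨⟨u1, u2⟩, u3, u4⟩
    · exact ⟨⟨u1, u2⟩, by omega, u4⟩
    · exact ⟨⟨u1, by omega⟩, u3, by omega⟩
  have claim : (L.fs β ω (i + 1) ∩ P).Nonempty := by
    obtain ⟨x', hx', hm⟩ := hspec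
    by_cases hxx : x = x'
    · subst hxx
      exact ⟨_, hm, hxP⟩
    have hm' : ((x', 0) : Pt) ∈ L.fs β ω (i + 1) := hm
    obtain ⟨⟨r1, r2⟩, r3, r4⟩ := hfr _ hm'
    simp only at r1 r2 r3 r4
    have c1 : L.Con (L.fs β ω (i + 1) ∪ {(x', -1)}) := by
      refine (fs_con _).union_adj (con_singleton _) hm' (Set.mem_singleton _) ?_
      have := (adj_up (L := L) (x', -1)).symm
      simpa using this
    have c2 : L.Con (P ∪ {(x, -1)}) := by
      refine hPc.union_adj (con_singleton _) hxP (Set.mem_singleton _) ?_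
      have := (adj_up (L := L) (x, -1)).symm
      simpa using this
    obtain ⟨z, hz1, hz2⟩ := arch (a := -(2 * β)) (b := 2 * β) (c := -1) (d := 2 * β)
      (P := L.fs β ω (i + 1) ∪ {(x', -1)}) (P' := P ∪ {(x, -1)}) (x1 := -β) (x2 := x) (x3 := x')
      (by omega) (by omega) c1 c2
      (by
        rintro v (hv | hv)
        · exact hfr _ hv
        · rw [Set.mem_singleton_iff] at hv
          subst hv
          exact ⟨⟨r1, r2⟩, le_refl _, by simp only; omega⟩)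
      (by
        rintro v (hv | hv)
        · obtain ⟨⟨⟨u1, u2⟩, u3, u4⟩, _⟩ := hPs v hv
          exact ⟨⟨u1, u2⟩, by omega, u4⟩
        · rw [Set.mem_singleton_iff] at hv
          subst hv
          exact ⟨⟨by simp only; omega, by simp only; omega⟩, le_refl _, by simp only; omega⟩)
      (by omega) hx'
      (Or.inl (A0_sub _ ⟨⟨by simp only; omega, le_refl _⟩, le_refl _, le_refl _⟩))
      (Or.inr (Set.mem_singleton _)) (Or.inr (Set.mem_singleton _)) ⟨y, Or.inl hyP, hy.2⟩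
    rcases hz1 with hz1 | hz1
    · rcases hz2 with hz2 | hz2
      · exact ⟨z, hz1, hz2⟩
      · exfalso
        rw [Set.mem_singleton_iff] at hz2
        subst hz2
        rcases fs_sub _ hz1 with ⟨_, u3, _⟩ | ⟨⟨_, u2⟩, _⟩
        · simp only at u3
          omega
        · simp only at u2
          omega
    · exfalso
      rw [Set.mem_singleton_iff] at hz1
      subst hz1
      rcases hz2 with hz2 | hz2
      · obtain ⟨⟨_, u3, _⟩, _⟩ := hPs _ hz2
        simp only at u3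
        omega
      · rw [Set.mem_singleton_iff] at hz2
        exact hxx (congrArg Prod.fst hz2).symm
  have hK : ∃ m, (L.fs β ω m ∩ P).Nonempty := ⟨i + 1, claim⟩
  have hKne : Nat.find hK ≠ 0 := by
    intro h0
    have h3 := Nat.find_spec hK
    rw [h0] at h3
    obtain ⟨z, hz1, hz2⟩ := h3
    exact A0_disj (hPs z hz2).1 hz1
  obtain ⟨k, hk⟩ := Nat.exists_eq_succ_of_ne_zero hKne
  have kspec := Nat.find_spec hK
  have kmin := fun m (hm : m < Nat.find hK) => Nat.find_min hK hm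
  have kle : Nat.find hK ≤ i + 1 := Nat.find_le claim
  rw [hk] at kspec kmin kle
  obtain ⟨v, hv1, hv2⟩ := kspec
  have hdis : ∀ v ∈ P, v ∉ L.fs β ω k := fun v hv hf => kmin k (Nat.lt_succ_self k) ⟨v, hf, hv⟩
  have hck : cc k = c := col_unique (fs_new hv1 (hdis v hv2)).2 (hPs v hv2).2
  have habs : P ⊆ L.fs β ω (k + 1) := by
    refine fs_absorb hPc (fun v hv => (hPs v hv).1) (fun v hv => ?_) hdis ⟨v, hv2, Or.inl hv1⟩
    rw [hck]
    exact (hPs v hv).2
  have hki : ¬ k + 1 < i + 1 := fun hlt => hmin (k + 1) hlt ⟨x, le_refl _, habs hxP⟩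
  have : k = i := by omega
  rw [← this]
  exact hck

/-- Proof.  Let `c`, `x₁ < x₂ < x₃` be the alternate triple (note that `Hb β` is the rectangle of `Alt3`, by definition) and `i₁`, `i₂`, `i₃` the
indices of `first_idx`; `cc i₁ = c`, `cc i₂ = !c`, `cc i₃ = c`.  `i₁ ≤ i₂`: otherwise `i₂ + 1 ≤ i₁`, the site `(x', 0) ∈ fs (i₂+1) ⊆ fs i₁` (`fs_le`) has
`x' ≥ x₂ ≥ x₁`, a contradiction.  Similarly `i₂ ≤ i₃`.  The colours differ, so `i₁ < i₂ < i₃`.  Then `Bad i₂`: the set of the `z` with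
`(z, 0) ∈ fs i₂` is bounded (`fs_sub`: `z ≤ 2β`), and there is one with `z ≥ x₁` (`i₁ + 1 ≤ i₂`), so there is a largest `x` (for instance
`Int.exists_greatest_of_bdd`); `x₁ ≤ x < x₂` because no `(x', 0)`, `x' ≥ x₂`, is in `fs i₂`.  And `fs (i₂+1) ⊆ fs i₃` has no site `(x', 0)` with `x' ≥ x₃`, in
particular none with `x' ≥ x + a ≥ x₁ + a ≥ x₃`. -/
theorem alt_bad {a : ℤ} (h : L.Alt3 β a ω) :
    ∃ i ∈ Finset.range (2 * (HbF β).card), L.Bad β a i ω := by
  obtain ⟨c, x₁, x₂, x₃, h1, h12, h23, h3, ha, a1, a2, a3⟩ := h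
  obtain ⟨i₁, hi₁, c₁, ⟨y₁, hy₁, m₁⟩, n₁⟩ := first_idx (L := L) (ω := ω) h1 (by omega) a1
  obtain ⟨i₂, hi₂, c₂, ⟨y₂, hy₂, m₂⟩, n₂⟩ :=
    first_idx (L := L) (ω := ω) (x := x₂) (by omega) (by omega) a2
  obtain ⟨i₃, hi₃, c₃, ⟨y₃, hy₃, m₃⟩, n₃⟩ :=
    first_idx (L := L) (ω := ω) (x := x₃) (by omega) h3 a3
  have e12 : i₁ ≤ i₂ := by
    by_contra hc
    exact n₁ y₂ (by omega) (fs_le (show i₂ + 1 ≤ i₁ by omega) m₂)
  have e23 : i₂ ≤ i₃ := by
    by_contra hc
    exact n₂ y₃ (by omega) (fs_le (show i₃ + 1 ≤ i₂ by omega) m₃)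
  have ne12 : i₁ ≠ i₂ := by
    intro he
    rw [he, c₂] at c₁
    cases c <;> simp at c₁
  have ne23 : i₂ ≠ i₃ := by
    intro he
    rw [he, c₃] at c₂
    cases c <;> simp at c₂
  obtain ⟨x, hx, hmax⟩ := Int.exists_greatest_of_bdd (P := fun z => ((z, 0) : Pt) ∈ L.fs β ω i₂)
    ⟨2 * β, fun z hz => by
      rcases fs_sub _ hz with ⟨⟨_, u2⟩, _⟩ | ⟨_, _, u4⟩
      · exact u2
      · simp only at u4
        omega⟩
    ⟨y₁, fs_le (show i₁ + 1 ≤ i₂ by omega) m₁⟩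
  have k1 : y₁ ≤ x := hmax y₁ (fs_le (show i₁ + 1 ≤ i₂ by omega) m₁)
  have k2 : x < x₂ := by
    by_contra hc
    exact n₂ x (by omega) hx
  refine ⟨i₂, Finset.mem_range.mpr hi₂, x, by omega, by omega, hx, ?_, ?_⟩
  · intro x' hx' hm
    have := hmax x' hm
    omega
  · intro x' hx' hm
    exact n₃ x' (by omega) (fs_le (show i₂ + 1 ≤ i₃ by omega) hm)

end Lat

end SC
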