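import Pool.Agent.Lib_MP_e0a489.FT1

/-!
# MP_e0a489, foot lemma 4: the deterministic step
-/

set_option autoImplicit false

namespace SC

open Classical

namespace Lat

variable {L : Lat} {β : ℤ} {ω : Cfg}

/-- DETERMINISTIC STEP.  `σ` is a connected set in the half box, of colour `cc i` in the fresh configuration `η`, with a
site `s` in `fs i` or next to it.  Then every site `u ∈ σ`, `u ∉ fs i`, belongs to `fs (i+1)` of the mixed configuration.
Proof.  `ω' = mix (HbF β) (L.Rf β i) ω η`, `F = fs i ω = fs i ω'` (`fs_mix`), `X = F ∪ L.nb F`.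
(a) If `q ∈ σ`, `q ∉ F`, `q ∈ L.nb F`, then `q ∈ L.col (cc i) ω'`: for `i = 0` we have `L.Rf β 0 ω = ∅`, so `q` is fresh (`mix_col_out`; `q ∈ HbF β` by
`coe_HbF`); for `i = j + 1` `q ∈ L.bd (Hb β ∪ A0 β) F ⊆ L.Rf β i ω` is explored and has colour `cc (j+1)` in `ω` (`fs_col`), so also in `ω'`
(`mix_col_in`).
(b) If `q ∈ σ`, `q ∉ X`, then `q ∉ L.Rf β i ω` (`Rf` is `∅` or `F ∪ bd (Hb β ∪ A0 β) F ⊆ X`), so `q` is fresh and has colour `cc i` in `ω'` (`mix_col_out`).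
Case `u ∈ L.nb F`: `fs_absorb` for `ω'` and `P = {u}` (`con_singleton`, (a)).
Case `u ∉ L.nb F`: `u ∉ X`, `s ∈ X`.  `Cn.exit` for the path in `σ` from `u` to `s` and the set `Xᶜ`: `p`, `q` with `L.Cn (σ ∩ Xᶜ) u p`, `L.Adj p q`, `q ∈ σ`,
`q ∈ X`.  `q ∉ F`, otherwise `p ∈ L.nb F` (`Adj.symm`), but `p ∉ X` (`Cn.right`).  So `q ∈ L.nb F`.  Let `P = {v | L.Cn (σ ∩ Xᶜ) u v} ∪ {q}`: connected
(`con_cluster`, `con_singleton`, `Con.union_adj`), contained in `Hb β`, disjoint from `F`, of colour `cc i` in `ω'` by (a), (b), and it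
contains `q ∈ L.nb F`.  `fs_absorb` gives `u ∈ P ⊆ fs (i+1) ω'`. -/
theorem fs_step {i : ℕ} {σ : Set Pt} {η : Cfg} {u : Pt} (hσ : L.Con σ) (hH : σ ⊆ Hb β)
    (hc : σ ⊆ L.col (cc i) η) (hu : u ∈ σ) (hu' : u ∉ L.fs β ω i)
    (hm : ∃ s ∈ σ, s ∈ L.fs β ω i ∨ s ∈ L.nb (L.fs β ω i)) :
    u ∈ L.fs β (mix (HbF β) (L.Rf β i) ω η) (i + 1) := by
  have hfs : L.fs β (mix (HbF β) (L.Rf β i) ω η) i = L.fs β ω i := fs_mix i (HbF β) η
  have hG : ∀ q ∈ σ, q ∈ HbF β := by
    intro q hq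
    rw [← Finset.mem_coe, coe_HbF]
    exact hH hq
  -- (b)
  have hb : ∀ q ∈ σ, q ∉ L.Rf β i ω → q ∈ L.col (cc i) (mix (HbF β) (L.Rf β i) ω η) := by
    intro q hq hR
    exact (mix_col_out hR (hG q hq) (cc i)).2 (hc hq)
  -- (a)
  have ha : ∀ q ∈ σ, q ∉ L.fs β ω i → q ∈ L.nb (L.fs β ω i) →
      q ∈ L.col (cc i) (mix (HbF β) (L.Rf β i) ω η) := by
    intro q hq hqf hqn
    cases i with
    | zero =>
      refine hb q hq ?_
      unfold Rf
      rw [if_pos rfl]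
      exact Set.notMem_empty q
    | succ j =>
      have hR : q ∈ L.Rf β (j + 1) ω := by
        unfold Rf
        rw [if_neg (Nat.succ_ne_zero j)]
        exact Or.inr ⟨Or.inl (hH hq), hqn⟩
      exact (mix_col_in hR (cc (j + 1))).2 (fs_col (hH hq) hqn hqf)
  have hX : ∀ q, q ∉ L.fs β ω i → q ∉ L.nb (L.fs β ω i) → q ∉ L.Rf β i ω := by
    intro q h1 h2 h3
    unfold Rf at h3
    split_ifs at h3 with h0
    · exact h3
    · rcases h3 with h3 | h3
      · exact h1 h3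
      · exact h2 h3.2
  by_cases hun : u ∈ L.nb (L.fs β ω i)
  · have h1 : ({u} : Set Pt) ⊆ L.fs β (mix (HbF β) (L.Rf β i) ω η) (i + 1) := by
      refine fs_absorb (con_singleton u) ?_ ?_ ?_ ?_
      · rintro v rfl
        exact hH hu
      · rintro v rfl
        exact ha _ hu hu' hun
      · rintro v rfl
        rw [hfs]
        exact hu'
      · refine ⟨u, rfl, Or.inr ?_⟩
        rw [hfs]
        exact hun
    exact h1 rfl
  · obtain ⟨s, hs, hsX⟩ := hm
    set X : Set Pt := L.fs β ω i ∪ L.nb (L.fs β ω i) with hXdef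
    have huX : u ∈ Xᶜ := by
      rintro (h | h)
      · exact hu' h
      · exact hun h
    have hsX' : s ∉ Xᶜ := by
      intro h
      exact h (by rcases hsX with h1 | h1; exacts [Or.inl h1, Or.inr h1])
    obtain ⟨p, q, hup, hpq, hq, hqX⟩ := Cn.exit (hσ u hu s hs) huX hsX'
    have hqX' : q ∈ X := by
      by_contra h
      exact hqX h
    have hpX : p ∈ Xᶜ := hup.right.2
    have hqf : q ∉ L.fs β ω i := by
      intro h
      exact hpX (Or.inr ⟨q, h, Adj.symm hpq⟩)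
    have hqn : q ∈ L.nb (L.fs β ω i) := hqX'.resolve_left hqf
    have hcon : L.Con ({v | L.Cn (σ ∩ Xᶜ) u v} ∪ {q}) :=
      Con.union_adj (con_cluster _ u) (con_singleton q) (u := p) (v := q) hup rfl hpq
    have h1 : ({v | L.Cn (σ ∩ Xᶜ) u v} ∪ {q}) ⊆ L.fs β (mix (HbF β) (L.Rf β i) ω η) (i + 1) := by
      refine fs_absorb hcon ?_ ?_ ?_ ?_
      · rintro v (hv | rfl)
        · exact hH (Cn.right hv).1
        · exact hH hq
      · rintro v (hv | rfl)
        · have hv' := Cn.right hv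
          exact hb v hv'.1 (hX v (fun h => hv'.2 (Or.inl h)) (fun h => hv'.2 (Or.inr h)))
        · exact ha _ hq hqf hqn
      · rintro v (hv | rfl)
        · rw [hfs]
          exact fun h => (Cn.right hv).2 (Or.inl h)
        · rw [hfs]
          exact hqf
      · refine ⟨q, Or.inr rfl, Or.inr ?_⟩
        rw [hfs]
        exact hqn
    exact h1 (Or.inl (Cn.refl ⟨hu, huX⟩))

end Lat

end SC
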