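import Pool.Agent.Lib_MP_e0a489.PA2b
import Pool.Agent.Lib_MP_e0a489.PD1

/-!
# MP_e0a489, probability toolkit 5b: resampling of the unexplored sites
-/

set_option autoImplicit false

namespace SC

open Classical

private theorem PD2_ind_le {A B : Cfg → Prop} {ω ω' : Cfg} (h : A ω → B ω') : ind A ω ≤ ind B ω' := by
  unfold ind
  by_cases hA : A ω
  · rw [if_pos hA, if_pos (h hA)]
  · rw [if_neg hA]
    split_ifs <;> norm_num

private theorem PD2_ind_nonneg (A : Cfg → Prop) (ω : Cfg) : 0 ≤ ind A ω := by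
  unfold ind
  split_ifs <;> norm_num

/-- RESAMPLING LEMMA.  If for every `ω ∈ E` a fresh configuration `η` on `G` satisfies `F ω` with
probability at least `p`, and then one of the events `E' i` holds for the mixed configuration, then
`p P(E | off G) ≤ ∑ P(E' i | off G)`. -/
theorem resample {R : Cfg → Set Pt} (hR : Stop R) {G : Finset Pt} {ι : Type} {I : Finset ι}
    {E : Cfg → Prop} {F : Cfg → Cfg → Prop} {E' : ι → Cfg → Prop} {p : ℝ}
    (hp : ∀ ω, E ω → p ≤ pr (F ω)) (hF : ∀ ω, E ω → Dep (F ω) (G : Set Pt))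
    (h : ∀ ω η, E ω → F ω η → ∃ i ∈ I, E' i (mix G R ω η)) (ω : Cfg) :
    p * cpr G E ω ≤ ∑ i ∈ I, cpr G (E' i) ω := by
  have h1 : ∑ i ∈ I, cpr G (E' i) ω =
      av G (fun ω₁ => av G (fun ω₂ => ∑ i ∈ I, ind (E' i) (mix G R ω₁ ω₂)) ω) ω := by
    have h2 : ∀ ω₁, av G (fun ω₂ => ∑ i ∈ I, ind (E' i) (mix G R ω₁ ω₂)) ω =
        ∑ i ∈ I, av G (fun ω₂ => ind (E' i) (mix G R ω₁ ω₂)) ω := fun ω₁ =>
      av_sum G I (fun i ω₂ => ind (E' i) (mix G R ω₁ ω₂)) ω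
    rw [show (fun ω₁ => av G (fun ω₂ => ∑ i ∈ I, ind (E' i) (mix G R ω₁ ω₂)) ω) =
        fun ω₁ => ∑ i ∈ I, av G (fun ω₂ => ind (E' i) (mix G R ω₁ ω₂)) ω from funext h2,
      av_sum G I (fun i ω₁ => av G (fun ω₂ => ind (E' i) (mix G R ω₁ ω₂)) ω) ω]
    refine Finset.sum_congr rfl fun i _ => ?_
    exact (av_mix hR G (ind (E' i)) ω).symm
  have h3 : p * cpr G E ω = av G (fun ω₁ => p * ind E ω₁) ω := (av_smul G p (ind E) ω).symm
  rw [h1, h3]
  refine av_mono fun ω₁ _ => ?_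
  by_cases hE : E ω₁
  · have h4 : ind E ω₁ = 1 := if_pos hE
    rw [h4, mul_one]
    refine le_trans (hp ω₁ hE) ?_
    rw [← cpr_eq_pr (hF ω₁ hE) ω]
    refine av_mono fun ω₂ _ => ?_
    by_cases hFF : F ω₁ ω₂
    · obtain ⟨i, hi, hi2⟩ := h ω₁ ω₂ hE hFF
      have h5 : ind (F ω₁) ω₂ ≤ ind (E' i) (mix G R ω₁ ω₂) := PD2_ind_le fun _ => hi2
      refine le_trans h5 ?_
      exact Finset.single_le_sum (f := fun i => ind (E' i) (mix G R ω₁ ω₂))
        (fun j _ => PD2_ind_nonneg _ _) hi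
    · have h5 : ind (F ω₁) ω₂ = 0 := if_neg hFF
      rw [h5]
      exact Finset.sum_nonneg fun j _ => PD2_ind_nonneg _ _
  · have h4 : ind E ω₁ = 0 := if_neg hE
    rw [h4, mul_zero]
    exact av_nonneg (fun ω₂ => Finset.sum_nonneg fun j _ => PD2_ind_nonneg _ _) ω

/-- Upper bound version: `E` is determined by the explored sites, and if the fresh configuration
satisfies `F ω` (probability at least `q`) then `Bad` fails for the mixed configuration. -/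
theorem resample_le {R : Cfg → Set Pt} (hR : Stop R) {G : Finset Pt}
    {E Bad : Cfg → Prop} {F : Cfg → Cfg → Prop} {q : ℝ}
    (hE : ∀ ω η, E (mix G R ω η) → E ω)
    (hq : ∀ ω, E ω → q ≤ pr (F ω)) (hF : ∀ ω, E ω → Dep (F ω) (G : Set Pt))
    (h : ∀ ω η, E ω → F ω η → ¬ Bad (mix G R ω η)) (ω : Cfg) :
    cpr G (fun ω => E ω ∧ Bad ω) ω ≤ (1 - q) * cpr G E ω := by
  have h1 : cpr G (fun ω => E ω ∧ Bad ω) ω =
      av G (fun ω₁ => av G (fun ω₂ => ind (fun ω => E ω ∧ Bad ω) (mix G R ω₁ ω₂)) ω) ω :=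
    (av_mix hR G (ind fun ω => E ω ∧ Bad ω) ω).symm
  have h3 : (1 - q) * cpr G E ω = av G (fun ω₁ => (1 - q) * ind E ω₁) ω :=
    (av_smul G (1 - q) (ind E) ω).symm
  rw [h1, h3]
  refine av_mono fun ω₁ _ => ?_
  by_cases hE1 : E ω₁
  · have h4 : ind E ω₁ = 1 := if_pos hE1
    rw [h4, mul_one]
    have h5 : av G (fun ω₂ => ind (fun ω => E ω ∧ Bad ω) (mix G R ω₁ ω₂)) ω ≤
        av G (fun ω₂ => (fun _ => (1 : ℝ)) ω₂ - ind (F ω₁) ω₂) ω := by
      refine av_mono fun ω₂ _ => ?_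
      by_cases hFF : F ω₁ ω₂
      · have h6 : ind (fun ω => E ω ∧ Bad ω) (mix G R ω₁ ω₂) = 0 :=
          if_neg fun hc => h ω₁ ω₂ hE1 hFF hc.2
        have h7 : ind (F ω₁) ω₂ = 1 := if_pos hFF
        rw [h6, h7]
        norm_num
      · have h7 : ind (F ω₁) ω₂ = 0 := if_neg hFF
        rw [h7]
        unfold ind
        split_ifs <;> norm_num
    refine le_trans h5 ?_
    rw [av_sub G (fun _ => (1 : ℝ)) (ind (F ω₁)) ω, av_const]
    have h8 : av G (ind (F ω₁)) ω = pr (F ω₁) := cpr_eq_pr (hF ω₁ hE1) ω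
    rw [h8]
    have h9 := hq ω₁ hE1
    linarith
  · have h4 : ind E ω₁ = 0 := if_neg hE1
    rw [h4, mul_zero]
    have h5 : av G (fun ω₂ => ind (fun ω => E ω ∧ Bad ω) (mix G R ω₁ ω₂)) ω ≤
        av G (fun _ => (0 : ℝ)) ω := by
      refine av_mono fun ω₂ _ => ?_
      have h6 : ind (fun ω => E ω ∧ Bad ω) (mix G R ω₁ ω₂) = 0 :=
        if_neg fun hc => hE1 (hE ω₁ ω₂ hc.1)
      rw [h6]
    rw [av_const] at h5
    exact h5

/-- The same without conditioning (take `G` large enough to support everything). -/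
theorem pr_resample_le {R : Cfg → Set Pt} (hR : Stop R) {G : Finset Pt}
    {E Bad : Cfg → Prop} {F : Cfg → Cfg → Prop} {q : ℝ}
    (dE : Dep E (G : Set Pt)) (dB : Dep Bad (G : Set Pt))
    (hE : ∀ ω η, E (mix G R ω η) → E ω)
    (hq : ∀ ω, E ω → q ≤ pr (F ω)) (hF : ∀ ω, E ω → Dep (F ω) (G : Set Pt))
    (h : ∀ ω η, E ω → F ω η → ¬ Bad (mix G R ω η)) :
    pr (fun ω => E ω ∧ Bad ω) ≤ (1 - q) * pr E := by
  have h1 : Dep (fun ω => E ω ∧ Bad ω) (G : Set Pt) := by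
    intro ω ω' hω
    show (E ω ∧ Bad ω) = (E ω' ∧ Bad ω')
    rw [dE ω ω' hω, dB ω ω' hω]
  have h2 := resample_le hR hE hq hF h (fun _ => false)
  rw [cpr_eq_pr h1, cpr_eq_pr dE] at h2
  exact h2

end SC
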