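import Pool.Agent.Lib_MP_e0a489.FT7
import Pool.Agent.Lib_MP_e0a489.PD2

/-!
# MP_e0a489, foot lemma 7: probabilities
-/

set_option autoImplicit false

namespace SC

open Classical

/-- Proof.  `pr_resample_le` with `R = L.Rf β i` (`Rf_stop`), `G = HbF β`, `E = L.Ef β i`, `Bad = L.Ef β (i+1)`, `F ω = L.HC (cc i) 0 (β-1) (2β)`,
`q = κ 4 ^ 3`.  `dE`, `dB`: `Ef_dep`, `coe_HbF`.  `hE`: `Ef β i` of the mixed configuration is `Ef β i ω` by `fs_mix`.  `hq`: `hc_pr` with `k = 4`: `4 ≤ 2β - (β-1) - 1 = β`,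
`2 (2β) ≤ 4 β`.  `hF`: `HC.dep` and `Dep.mono` (`rect (0-2β) (0+2β) 0 (2β) = Hb β`).  `h`: `not_ef`.  The result is
`pr (Ef i ∧ Ef (i+1)) ≤ (1 - q) pr (Ef i)`, and `Ef (i+1) → Ef i` (`fs_le`), so the two events `Ef (i+1)` and `Ef i ∧ Ef (i+1)` are equal. -/
theorem ef_step {κ : ℕ → ℝ} {L : Lat} (h : RSW L κ) {β : ℤ} (hβ : 4 ≤ β) (i : ℕ) :
    pr (L.Ef β (i + 1)) ≤ (1 - κ 4 ^ 3) * pr (L.Ef β i) := by
  have key := pr_resample_le (R := L.Rf β i) (Lat.Rf_stop L β i) (G := HbF β) (E := L.Ef β i)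
    (Bad := L.Ef β (i + 1)) (F := fun _ => L.HC (cc i) 0 (β - 1) (2 * β)) (q := κ 4 ^ 3)
    (by rw [coe_HbF]; exact Lat.Ef_dep L β i) (by rw [coe_HbF]; exact Lat.Ef_dep L β (i + 1))
    (by
      intro ω η hE
      unfold Lat.Ef at hE ⊢
      rw [Lat.fs_mix] at hE
      exact hE)
    (by
      intro ω _
      refine hc_pr h (by norm_num) (cc i) (by omega) (by omega) ?_
      have e : (2 * β - (β - 1) - 1 : ℤ) = β := by ring
      rw [e]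
      push_cast
      omega)
    (by
      intro ω _
      rw [coe_HbF]
      refine (Lat.HC.dep L (cc i) 0 (β - 1) (2 * β) (by omega)).mono ?_
      rintro v ⟨⟨⟨a1, a2⟩, a3, a4⟩, -⟩
      exact ⟨⟨by omega, by omega⟩, a3, a4⟩)
    (fun ω η hE h' => Lat.not_ef (by omega) hE h')
  have e : L.Ef β (i + 1) = fun ω => L.Ef β i ω ∧ L.Ef β (i + 1) ω := by
    funext ω
    apply propext
    constructor
    · intro hE
      exact ⟨fun x' hx' hm => hE x' hx' (Lat.fs_le (Nat.le_succ i) hm), hE⟩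
    · exact fun hE => hE.2
  rw [e]
  exact key

/-- Proof.  Induction on `i` with `ef_step`; `0 ≤ 1 - κ 4 ^ 3` because `κ 4 ^ 3 ≤ pr (HC ..) ≤ 1` (`hc_pr`, `pr_le_one`); `pr (Ef 0) ≤ 1`. -/
theorem ef_le {κ : ℕ → ℝ} {L : Lat} (h : RSW L κ) {β : ℤ} (hβ : 4 ≤ β) (i : ℕ) :
    pr (L.Ef β i) ≤ (1 - κ 4 ^ 3) ^ i := by
  have hq : κ 4 ^ 3 ≤ 1 := by
    have h1 : κ 4 ^ 3 ≤ pr (L.HC (cc i) 0 (β - 1) (2 * β)) := by
      refine hc_pr h (by norm_num) (cc i) (by omega) (by omega) ?_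
      have e : (2 * β - (β - 1) - 1 : ℤ) = β := by ring
      rw [e]
      push_cast
      omega
    exact h1.trans (pr_le_one _)
  have h0 : 0 ≤ 1 - κ 4 ^ 3 := by linarith
  induction i with
  | zero =>
    rw [pow_zero]
    exact pr_le_one _
  | succ i ih =>
    refine (ef_step h hβ i).trans ?_
    rw [pow_succ, mul_comm]
    exact mul_le_mul_of_nonneg_right ih h0

/-- Proof.  Let `C`, `c` be the constants of `hc_many`.  `pr_resample_le` with `R = L.Rf β i` (`Rf_stop`), `G = HbF β`, `E = L.Ef β i`,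
`Bad = L.Bad β a i`, `q = 1 - C (a/β)^c`, and `F ω η = ∃ ρ, a ≤ ρ ∧ 2 * ρ ≤ β ∧ L.HC (cc i) (z ω) ρ (2 * ρ) η`, where `z ω = x` if there is an `x` with
`-β < x < β`, `(x, 0) ∈ fs i ω` and `(x', 0) ∉ fs i ω` for all `x' > x`, and `z ω = 0` otherwise (`if h : ∃ x, .. then h.choose else 0`).  In all cases `-β < z ω < β`.
`dE`, `dB`: `Ef_dep`, `Bad_dep`, `coe_HbF`.  `hE`: `fs_mix`.  `hq`: `hc_many`.  `hF`: for each `ρ` with `2ρ ≤ β` (and `0 ≤ ρ`) `HC.dep` and `Dep.mono`: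
`rect (z-2ρ) (z+2ρ) 0 (2ρ) ⊆ Hb β`.  `h`: if the site `x` exists use `not_bad`; otherwise `Bad β a i` of the mixed configuration would give such a site
(`fs_mix`).  Result: `pr (Ef i ∧ Bad i) ≤ C (a/β)^c pr (Ef i)`; and `Bad i → Ef i` (`x < β ≤ x'`), so `pr (Bad i) = pr (Ef i ∧ Bad i)`. -/
theorem bad_le (κ : ℕ → ℝ) : ∃ C c : ℝ, 0 < C ∧ 0 < c ∧ c ≤ 1 / 2 ∧ ∀ L : Lat, RSW L κ →
    ∀ (β a : ℤ) (i : ℕ), 1 ≤ a → a ≤ β →
      pr (L.Bad β a i) ≤ C * ((a : ℝ) / β) ^ c * pr (L.Ef β i) := by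
  obtain ⟨C, c, hC, hc, hc2, hmany⟩ := hc_many κ
  refine ⟨C, c, hC, hc, hc2, ?_⟩
  intro L hL β a i ha haβ
  obtain ⟨Pz, hPz⟩ : ∃ Pz : Cfg → ℤ → Prop, Pz = fun ω x => -β < x ∧ x < β ∧ (x, 0) ∈ L.fs β ω i ∧
    ∀ x', x < x' → (x', 0) ∉ L.fs β ω i := ⟨_, rfl⟩
  obtain ⟨z, hz⟩ : ∃ z : Cfg → ℤ, z = fun ω => if h : ∃ x, Pz ω x then h.choose else 0 := ⟨_, rfl⟩
  have hz1 : ∀ ω, (∃ x, Pz ω x) → Pz ω (z ω) := by
    intro ω h
    rw [hz]
    show Pz ω (if h : ∃ x, Pz ω x then h.choose else 0)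
    rw [dif_pos h]
    exact h.choose_spec
  have hz2 : ∀ ω, -β < z ω ∧ z ω < β := by
    intro ω
    by_cases h : ∃ x, Pz ω x
    · have h1 := hz1 ω h
      rw [hPz] at h1
      exact ⟨h1.1, h1.2.1⟩
    · have h1 : z ω = 0 := by
        rw [hz]
        exact dif_neg h
      rw [h1]
      exact ⟨by omega, by omega⟩
  have key := pr_resample_le (R := L.Rf β i) (Lat.Rf_stop L β i) (G := HbF β) (E := L.Ef β i)
    (Bad := L.Bad β a i)
    (F := fun ω η => ∃ ρ, a ≤ ρ ∧ 2 * ρ ≤ β ∧ L.HC (cc i) (z ω) ρ (2 * ρ) η)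
    (q := 1 - C * ((a : ℝ) / β) ^ c)
    (by rw [coe_HbF]; exact Lat.Ef_dep L β i) (by rw [coe_HbF]; exact Lat.Bad_dep L β a i)
    (by
      intro ω η hE
      unfold Lat.Ef at hE ⊢
      rw [Lat.fs_mix] at hE
      exact hE)
    (fun ω _ => hmany L hL (cc i) (z ω) a β ha haβ)
    (by
      intro ω _
      rw [coe_HbF]
      intro η η' hη
      obtain ⟨hz3, hz4⟩ := hz2 ω
      have h1 : ∀ ρ, a ≤ ρ → 2 * ρ ≤ β →
          L.HC (cc i) (z ω) ρ (2 * ρ) η = L.HC (cc i) (z ω) ρ (2 * ρ) η' := by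
        intro ρ h2 h3
        refine ((Lat.HC.dep L (cc i) (z ω) ρ (2 * ρ) (by omega)).mono ?_) η η' hη
        rintro v ⟨⟨⟨a1, a2⟩, a3, a4⟩, -⟩
        exact ⟨⟨by omega, by omega⟩, a3, by omega⟩
      apply propext
      constructor
      · rintro ⟨ρ, h2, h3, h4⟩
        exact ⟨ρ, h2, h3, by rw [← h1 ρ h2 h3]; exact h4⟩
      · rintro ⟨ρ, h2, h3, h4⟩
        exact ⟨ρ, h2, h3, by rw [h1 ρ h2 h3]; exact h4⟩)
    (by
      rintro ω η - ⟨ρ, h2, h3, h4⟩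
      by_cases h : ∃ x, Pz ω x
      · have h5 := hz1 ω h
        rw [hPz] at h5
        exact Lat.not_bad ha h5.1 h5.2.1 h5.2.2.1 h5.2.2.2 h2 h3 h4
      · rintro ⟨x, b1, b2, b3, b4, -⟩
        rw [Lat.fs_mix] at b3 b4
        apply h
        rw [hPz]
        exact ⟨x, b1, b2, b3, b4⟩)
  have e : L.Bad β a i = fun ω => L.Ef β i ω ∧ L.Bad β a i ω := by
    funext ω
    apply propext
    constructor
    · intro hB
      refine ⟨?_, hB⟩
      obtain ⟨x, b1, b2, b3, b4, -⟩ := hB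
      intro x' hx'
      exact b4 x' (by omega)
    · exact fun hE => hE.2
  rw [← e] at key
  have e2 : 1 - (1 - C * ((a : ℝ) / β) ^ c) = C * ((a : ℝ) / β) ^ c := by ring
  rw [e2] at key
  exact key

end SC
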