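import Pool.Agent.Lib_MP_e0a489.FT3
import Pool.Agent.Lib_MP_e0a489.FT8

/-!
# MP_e0a489, foot lemma, final statement

The half box `rect (-2β) (2β) 0 (2β)`; an alternate triple: three sites `x₁ < x₂ < x₃` of the bottom row within
distance `a`, in the middle half, with arms of colours `c, !c, c` to the other three sides
(definitions `hbo` and `Lat.Alt3` in `FT1.lean`).
-/

set_option autoImplicit false

namespace SC

open Classical

/-- FOOT LEMMA.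
Proof.  If `κ 4 ≤ 0` there is no `L` with `RSW L κ` (`RSW.pos`); take `C = 1`, `c = 1/2`.  Let `0 < κ 4`, `q = κ 4 ^ 3`, `C₀`, `c` the constants of `bad_le`, and
`C = max 2 (C₀ / q)`.  For `β < 4`: `a/β ≥ 1/3`, `(a/β)^c ≥ (1/3)^(1/2) ≥ 1/2`, so the right side is `≥ 1 ≥ pr` (`pr_le_one`; for `0 < y ≤ 1`, `c ≤ 1/2`:
`y^c ≥ y^(1/2) = sqrt y`).  For `β ≥ 4`: `Alt3 → ∃ i ∈ range n, Bad i` (`alt_bad`, `n = 2 * (HbF β).card`), so by `pr_mono`, `pr_ex_le`, `bad_le`, `ef_le`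
`pr Alt3 ≤ ∑_{i<n} C₀ (a/β)^c (1-q)^i ≤ C₀ (a/β)^c / q` (`geom_sum`, `0 < q ≤ 1`).  `Loc`: `Bad_dep`, `coe_HbF`; `Alt3` depends on `HbF β` (the three arms are `Cn` in
`Hb β ∩ col`). -/
theorem foot (κ : ℕ → ℝ) : ∃ C c : ℝ, 0 < C ∧ 0 < c ∧ c ≤ 1 / 2 ∧ ∀ L : Lat, RSW L κ →
    ∀ β a : ℤ, 1 ≤ a → a ≤ β → pr (L.Alt3 β a) ≤ C * ((a : ℝ) / β) ^ c := by
  by_cases hκ : 0 < κ 4
  · obtain ⟨C₀, c, hC₀, hc, hc2, hb⟩ := bad_le κ
    have hq0 : 0 < κ 4 ^ 3 := by positivity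
    refine ⟨max 2 (C₀ / κ 4 ^ 3), c, lt_max_of_lt_left (by norm_num), hc, hc2,
      fun L h β a ha haβ => ?_⟩
    have ha0 : (1 : ℝ) ≤ a := by exact_mod_cast ha
    have hβ0 : (1 : ℝ) ≤ β := by exact_mod_cast ha.trans haβ
    have hab : (a : ℝ) ≤ β := by exact_mod_cast haβ
    have hy0 : (0 : ℝ) < (a : ℝ) / β := by positivity
    have hpos : 0 ≤ ((a : ℝ) / β) ^ c := by positivity
    by_cases h4 : 4 ≤ β
    · have hlocB : ∀ i, Loc (L.Bad β a i) := fun i =>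
        ⟨HbF β, by rw [coe_HbF]; exact Lat.Bad_dep L β a i⟩
      have hlocA : Loc (L.Alt3 β a) := ⟨HbF β, by rw [coe_HbF]; exact Lat.Alt3_dep L β a⟩
      have hloc : Loc (fun ω => ∃ i ∈ Finset.range (2 * (HbF β).card), L.Bad β a i ω) := by
        refine ⟨HbF β, fun ω ω' hω => ?_⟩
        have h5 : ∀ i, L.Bad β a i ω = L.Bad β a i ω' := fun i =>
          Lat.Bad_dep L β a i ω ω' (by rw [← coe_HbF]; exact hω)
        simp only [h5]
      have h1 : pr (L.Alt3 β a) ≤ ∑ i ∈ Finset.range (2 * (HbF β).card), pr (L.Bad β a i) :=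
        (pr_mono hlocA hloc fun ω hω => Lat.alt_bad hω).trans (pr_ex_le fun i _ => hlocB i)
      have h2 : ∑ i ∈ Finset.range (2 * (HbF β).card), pr (L.Bad β a i) ≤
          ∑ i ∈ Finset.range (2 * (HbF β).card), C₀ * ((a : ℝ) / β) ^ c * (1 - κ 4 ^ 3) ^ i := by
        refine Finset.sum_le_sum fun i _ => (hb L h β a i ha haβ).trans ?_
        exact mul_le_mul_of_nonneg_left (ef_le h h4 i) (by positivity)
      rw [← Finset.mul_sum] at h2
      have h3 : (∑ i ∈ Finset.range (2 * (HbF β).card), (1 - κ 4 ^ 3) ^ i) ≤ 1 / κ 4 ^ 3 := by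
        have h6 := geom_sum_mul (1 - κ 4 ^ 3) (2 * (HbF β).card)
        have h7 : 0 ≤ 1 - κ 4 ^ 3 := by
          have := (pr_nonneg _).trans (ef_le h h4 1)
          simpa using this
        have h8 := pow_nonneg h7 (2 * (HbF β).card)
        rw [le_div_iff₀ hq0]
        linarith
      calc pr (L.Alt3 β a) ≤ C₀ * ((a : ℝ) / β) ^ c *
            ∑ i ∈ Finset.range (2 * (HbF β).card), (1 - κ 4 ^ 3) ^ i := h1.trans h2
        _ ≤ C₀ * ((a : ℝ) / β) ^ c * (1 / κ 4 ^ 3) :=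
            mul_le_mul_of_nonneg_left h3 (by positivity)
        _ = C₀ / κ 4 ^ 3 * ((a : ℝ) / β) ^ c := by ring
        _ ≤ _ := mul_le_mul_of_nonneg_right (le_max_right _ _) hpos
    · have hβ3 : (β : ℝ) ≤ 3 := by exact_mod_cast (by omega : β ≤ 3)
      have h5 : (1 / 4 : ℝ) ≤ (a : ℝ) / β := by
        rw [div_le_div_iff₀ (by norm_num) (by linarith)]
        linarith
      have h6 : (a : ℝ) / β ≤ 1 := by
        rw [div_le_one (by linarith)]
        exact hab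
      have h7 : ((a : ℝ) / β) ^ (1 / 2 : ℝ) ≤ ((a : ℝ) / β) ^ c :=
        Real.rpow_le_rpow_of_exponent_ge hy0 h6 hc2
      have h8 : ((1 / 4 : ℝ)) ^ (1 / 2 : ℝ) ≤ ((a : ℝ) / β) ^ (1 / 2 : ℝ) :=
        Real.rpow_le_rpow (by norm_num) h5 (by norm_num)
      have h9 : ((1 / 4 : ℝ)) ^ (1 / 2 : ℝ) = 1 / 2 := by
        rw [show (1 / 4 : ℝ) = (1 / 2) ^ (2 : ℝ) by norm_num, ← Real.rpow_mul (by norm_num)]
        norm_num
      have h10 : (1 : ℝ) ≤ 2 * ((a : ℝ) / β) ^ c := by linarith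
      exact (pr_le_one _).trans (h10.trans (mul_le_mul_of_nonneg_right (le_max_left _ _) hpos))
  · exact ⟨1, 1 / 2, by norm_num, by norm_num, le_rfl, fun L h => absurd (h.pos 4) hκ⟩

end SC
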