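import Pool.Agent.Lib_MP_e0a489.FT1

/-!
# MP_e0a489, foot lemma 5: a half circuit around the rightmost site meets the explored region
-/

set_option autoImplicit false

namespace SC

open Classical

namespace Lat

variable {L : Lat} {β : ℤ} {ω : Cfg}

/-- Proof.  `A = rect (-(2β)) (-β) 0 0` is connected (`con_rect`), `B = fs i ∩ Hb β`; `Con.union_many`: let `v ∈ B`.  `fs i` is connected (`fs_con`) and
contains `(-β, -1) ∈ A0 β` (`A0_sub`), `v ∉ A0 β` (second coordinate), so `Cn.last` for `S = A0 β` gives `p ∈ A0 β`, `L.Adj p q`,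
`L.Cn (fs i \ A0 β) q v`, and `fs i \ A0 β ⊆ B` (`fs_sub`).  `q ∈ Hb β`, `p.2 = -1`, `p.1 ≤ -β`, so `q.2 = 0` and `q.1 ≤ -β + 1`
(`Adj.near`, `abs_le`).  If `q.1 = -(2β)` take `u = (-(2β) + 1, 0) ∈ A` (as `1 ≤ β`), otherwise `u = (q.1 - 1, 0) ∈ A`; it is a horizontal neighbour of
`q` (`adj_of_nn` or `adj_right`). -/
theorem fs_base (hβ : 1 ≤ β) (i : ℕ) :
    L.Con (rect (-(2 * β)) (-β) 0 0 ∪ (L.fs β ω i ∩ Hb β)) := by
  refine Con.union_many (con_rect _ _ _ _) ?_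
  rintro v ⟨hvf, hvH⟩
  have h0 : ((-β, -1) : Pt) ∈ A0 β := by
    refine ⟨⟨?_, ?_⟩, ?_, ?_⟩ <;> dsimp only <;> omega
  have hc : L.Cn (L.fs β ω i) (-β, -1) v := fs_con i _ (A0_sub i h0) v hvf
  obtain ⟨p, q, -, hpA, hpq, hqv⟩ := hc.last h0 (A0_disj hvH)
  have hsub : L.fs β ω i \ A0 β ⊆ L.fs β ω i ∩ Hb β :=
    fun z hz => ⟨hz.1, (fs_sub i hz.1).resolve_right hz.2⟩
  have hqB : q ∈ L.fs β ω i ∩ Hb β := hsub hqv.1
  obtain ⟨n1, n2⟩ := hpq.near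
  rw [abs_le] at n1 n2
  obtain ⟨⟨p1, p2⟩, p3, p4⟩ := hpA
  obtain ⟨⟨q1, q2⟩, q3, q4⟩ := hqB.2
  by_cases e : q.1 = -(2 * β)
  · refine ⟨(-(2 * β) + 1, 0), ⟨⟨?_, ?_⟩, ?_, ?_⟩, q, adj_of_nn ?_, hqv.mono hsub⟩
    · dsimp only; omega
    · dsimp only; omega
    · exact le_refl _
    · exact le_refl _
    · have e1 : (-(2 * β) + 1 : ℤ) - q.1 = 1 := by omega
      have e2 : (0 : ℤ) - q.2 = 0 := by omega
      show |(-(2 * β) + 1 : ℤ) - q.1| + |(0 : ℤ) - q.2| = 1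
      rw [e1, e2]
      norm_num
  · refine ⟨(q.1 - 1, 0), ⟨⟨?_, ?_⟩, ?_, ?_⟩, q, adj_of_nn ?_, hqv.mono hsub⟩
    · dsimp only; omega
    · dsimp only; omega
    · exact le_refl _
    · exact le_refl _
    · have e1 : (q.1 - 1 : ℤ) - q.1 = -1 := by omega
      have e2 : (0 : ℤ) - q.2 = 0 := by omega
      show |(q.1 - 1 : ℤ) - q.1| + |(0 : ℤ) - q.2| = 1
      rw [e1, e2]
      norm_num

/-- `(x, 0) ∈ fs i` and `σ` separates the half box of radius `ρ` around `(x, 0)` from the outside of the one of radius `R ≤ β`.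
Then `σ` has a site in or next to `fs i`.
Proof.  Apply `hs` to `P = rect (-(2β)) (-β) 0 0 ∪ (fs i ∩ Hb β)` (`fs_base`), which lies in `{0 ≤ v.2}` and contains `(x, 0)` (in `Hb β` because it is
not in `A0 β`, `fs_sub`) with `nrm ((x,0) - (x,0)) = 0 ≤ ρ` and `(-(2β), 0)`, `nrm ((-(2β), 0) - (x, 0)) ≥ x + 2β > β ≥ R`.  A common site `s`
of `σ` and `P` is in `fs i`, or it is `(y, 0)` with `-(2β) ≤ y ≤ -β`, next to `(y, -1) ∈ A0 β ⊆ fs i` (`adj_up`). -/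
theorem fs_meet (hβ : 1 ≤ β) {i : ℕ} {σ : Set Pt} {x ρ R : ℤ} (hρ : 0 ≤ ρ) (hR : R ≤ β)
    (hx : -β < x) (hx' : (x, 0) ∈ L.fs β ω i)
    (hs : ∀ P : Set Pt, L.Con P → P ⊆ {v | 0 ≤ v.2} → (∃ v ∈ P, nrm (v - (x, 0)) ≤ ρ) →
        (∃ v ∈ P, R ≤ nrm (v - (x, 0))) → (σ ∩ P).Nonempty) :
    ∃ s ∈ σ, s ∈ L.fs β ω i ∨ s ∈ L.nb (L.fs β ω i) := by
  have hxA : ((x, 0) : Pt) ∉ A0 β := by
    intro h
    have h2 : (0 : ℤ) ≤ -1 := h.2.2
    omega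
  have hxH : ((x, 0) : Pt) ∈ Hb β := (fs_sub i hx').resolve_right hxA
  obtain ⟨s, hsσ, hsP⟩ := hs (rect (-(2 * β)) (-β) 0 0 ∪ (L.fs β ω i ∩ Hb β)) (fs_base hβ i)
    (by
      rintro v (hv | hv)
      · exact hv.2.1
      · exact hv.2.2.1)
    ⟨(x, 0), Or.inr ⟨hx', hxH⟩, by
      rw [sub_self]
      show max |(0 : ℤ)| |(0 : ℤ)| ≤ ρ
      rw [abs_zero, max_self]
      exact hρ⟩
    ⟨(-(2 * β), 0), Or.inl (by
      refine ⟨⟨?_, ?_⟩, ?_, ?_⟩ <;> dsimp only <;> omega), by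
      show R ≤ max |(-(2 * β) : ℤ) - x| |(0 : ℤ) - 0|
      refine le_trans ?_ (le_max_left _ _)
      rw [abs_sub_comm]
      refine le_trans ?_ (le_abs_self _)
      omega⟩
  refine ⟨s, hsσ, ?_⟩
  rcases hsP with h | h
  · right
    obtain ⟨⟨s1, s2⟩, s3, s4⟩ := h
    refine ⟨(s.1, -1), A0_sub i ⟨⟨s1, s2⟩, le_refl _, le_refl _⟩, ?_⟩
    have e : s = (((s.1, -1) : Pt).1, ((s.1, -1) : Pt).2 + 1) := by
      refine Prod.ext rfl ?_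
      show s.2 = -1 + 1
      omega
    rw [e]
    exact adj_up _
  · exact Or.inl h.1

end Lat

end SC
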