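import Pool.Agent.Lib_MP_e0a489.TB2

/-!
# MP_e0a489, topology 2c: crossing paths, corner free form
-/

set_option autoImplicit false

namespace SC

open Classical

namespace Lat

variable {L : Lat}

/-- a connected set contains a crossing of a strip -/
private theorem TB3_strip {A : Set Pt} (hA : L.Con A) (f : Pt → ℤ)
    (hf : ∀ u v, L.Adj u v → |f u - f v| ≤ 1) {al be : ℤ} (hab : al ≤ be) {u v : Pt} (hu : u ∈ A)
    (hv : v ∈ A) (hu1 : f u ≤ al) (hv1 : be ≤ f v) :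
    ∃ Q ⊆ A, L.Con Q ∧ (∀ w ∈ Q, al ≤ f w ∧ f w ≤ be) ∧ (∃ w ∈ Q, f w = al) ∧
      ∃ w ∈ Q, f w = be := by
  -- a path in `A ∩ {al ≤ f}` from `p` with `f p = al` to `v`
  obtain ⟨p, hpA, hp, hpv⟩ : ∃ p ∈ A, f p = al ∧ L.Cn (A ∩ {w | al ≤ f w}) p v := by
    by_cases hv2 : f v ≤ al
    · exact ⟨v, hv, by omega, Cn.refl ⟨hv, show al ≤ f v by omega⟩⟩
    · obtain ⟨p, q, hpA, hpS, hpq, hqv⟩ :=
        (hA u hu v hv).last (S := {w | f w ≤ al}) hu1 hv2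
      have hq : ¬ f q ≤ al := hqv.left.2
      have hp1 : f p ≤ al := hpS
      have h1 := abs_le.1 (hf p q hpq)
      have hp2 : f p = al := by omega
      refine ⟨p, hpA, hp2, ?_⟩
      have hmono : L.Cn (A ∩ {w | al ≤ f w}) q v := by
        apply hqv.mono
        rintro w ⟨hwA, hwS⟩
        have hw : ¬ f w ≤ al := hwS
        exact ⟨hwA, show al ≤ f w by omega⟩
      have hpm : p ∈ A ∩ {w | al ≤ f w} := ⟨hpA, show al ≤ f p by omega⟩
      exact (Cn.of_adj hpm hmono.left hpq).trans hmono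
  by_cases hlt : al < be
  · obtain ⟨p', q', hpp, hpq, hqB, hqS⟩ := hpv.exit (S := {w | f w < be})
      (show f p < be by omega) (show ¬ f v < be by omega)
    have hq1 : ¬ f q' < be := hqS
    have hp1 : f p' < be := hpp.right.2
    have h1 := abs_le.1 (hf p' q' hpq)
    have hq2 : f q' = be := by omega
    have hin : ∀ w ∈ {w | L.Cn (A ∩ {w | al ≤ f w} ∩ {w | f w < be}) p w},
        w ∈ A ∧ al ≤ f w ∧ f w < be := by
      intro w hw
      have h2 : L.Cn (A ∩ {w | al ≤ f w} ∩ {w | f w < be}) p w := hw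
      exact ⟨h2.right.1.1, h2.right.1.2, h2.right.2⟩
    refine ⟨{w | L.Cn (A ∩ {w | al ≤ f w} ∩ {w | f w < be}) p w} ∪ {q'}, ?_, ?_, ?_, ?_, ?_⟩
    · rintro w (hw | hw)
      · exact (hin w hw).1
      · rw [Set.mem_singleton_iff.1 hw]
        exact hqB.1
    · exact (con_cluster _ p).union_adj (con_singleton q') (u := p') hpp rfl hpq
    · rintro w (hw | hw)
      · have h2 := hin w hw
        exact ⟨h2.2.1, h2.2.2.le⟩
      · rw [Set.mem_singleton_iff.1 hw]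
        exact ⟨hqB.2, hq2.le⟩
    · exact ⟨p, Or.inl (Cn.refl hpp.left), hp⟩
    · exact ⟨q', Or.inr rfl, hq2⟩
  · refine ⟨{p}, ?_, con_singleton p, ?_, ⟨p, rfl, hp⟩, ⟨p, rfl, by omega⟩⟩
    · intro w hw
      rw [Set.mem_singleton_iff.1 hw]
      exact hpA
    · intro w hw
      rw [Set.mem_singleton_iff.1 hw]
      omega

/-- Crossing paths in a corner free form (rule X): `P` is a path in `[a,b] × [c,d]` from left to
right, `P'` a path in `[a',b'] × [c',d']` from bottom to top, `a ≤ a'`, `b' ≤ b`, `c' ≤ c`,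
`d ≤ d'`.  Both contain crossings of `[a',b'] × [c,d]` (`Cn.last`, `Cn.exit`). -/
theorem crossX {a b c d a' b' c' d' : ℤ} {P P' : Set Pt} (hP : L.Con P) (hP' : L.Con P')
    (hPr : P ⊆ rect a b c d) (hPr' : P' ⊆ rect a' b' c' d')
    (h1 : ∃ v ∈ P, v.1 = a) (h2 : ∃ v ∈ P, v.1 = b)
    (h3 : ∃ v ∈ P', v.2 = c') (h4 : ∃ v ∈ P', v.2 = d')
    (ha : a ≤ a') (hb : b' ≤ b) (hc : c' ≤ c) (hd : d ≤ d') (hab : a' ≤ b') (hcd : c ≤ d) :
    (P ∩ P' ∩ rect a' b' c d).Nonempty := by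
  obtain ⟨u1, hu1, hu1'⟩ := h1
  obtain ⟨u2, hu2, hu2'⟩ := h2
  obtain ⟨u3, hu3, hu3'⟩ := h3
  obtain ⟨u4, hu4, hu4'⟩ := h4
  obtain ⟨Q, hQ, hQc, hQr, hQ1, hQ2⟩ := TB3_strip hP (fun v => v.1) (fun u v h => h.near.1) hab
    hu1 hu2 (by show u1.1 ≤ a'; omega) (by show b' ≤ u2.1; omega)
  obtain ⟨Q', hQ', hQc', hQr', hQ1', hQ2'⟩ := TB3_strip hP' (fun v => v.2) (fun u v h => h.near.2)
    hcd hu3 hu4 (by show u3.2 ≤ c; omega) (by show d ≤ u4.2; omega)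
  obtain ⟨w, hw, hw'⟩ := cross hQc hQc' (a := a') (b := b') (c := c) (d := d)
    (fun v hv => ⟨hQr v hv, (hPr (hQ hv)).2⟩) (fun v hv => ⟨(hPr' (hQ' hv)).1, hQr' v hv⟩)
    hQ1 hQ2 hQ1' hQ2'
  exact ⟨w, ⟨hQ hw, hQ' hw'⟩, hQr w hw, (hPr (hQ hw)).2⟩

end Lat

end SC
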