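import Pool.Agent.Lib_MP_e0a489.Defs2
import Pool.Agent.Lib_MP_e0a489.TB3
import Pool.Agent.Lib_MP_e0a489.TE3

/-!
# MP_e0a489, topology 6c: half circuits
-/

set_option autoImplicit false

namespace SC

open Classical

variable {L : Lat} {κ : ℕ → ℝ}

private theorem TD3_nrm (v : Pt) (x k : ℤ) :
    nrm (v - (x, 0)) ≤ k ↔ (-k ≤ v.1 - x ∧ v.1 - x ≤ k) ∧ -k ≤ v.2 ∧ v.2 ≤ k := by
  unfold nrm
  rw [max_le_iff, abs_le, abs_le]
  simp only [Prod.fst_sub, Prod.snd_sub, sub_zero]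

namespace Lat

theorem HC.dep (L : Lat) (c : Bool) (x r R : ℤ) (hr : 0 ≤ r) :
    Dep (L.HC c x r R) (rect (x - R) (x + R) 0 R ∩ {v | r < nrm (v - (x, 0))}) := by
  intro ω ω' h
  have h1 : L.VX c (x - R) (x - r - 1) 0 R ω = L.VX c (x - R) (x - r - 1) 0 R ω' := by
    refine VX.dep L c _ _ _ _ ω ω' (fun v hv => h v ?_)
    obtain ⟨⟨a1, a2⟩, a3, a4⟩ := hv
    refine ⟨⟨⟨a1, by omega⟩, a3, a4⟩, ?_⟩
    show r < nrm (v - (x, 0))
    by_contra hc
    have := (TD3_nrm v x r).1 (not_lt.1 hc)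
    omega
  have h2 : L.HX c (x - R) (x + R) (r + 1) R ω = L.HX c (x - R) (x + R) (r + 1) R ω' := by
    refine HX.dep L c _ _ _ _ ω ω' (fun v hv => h v ?_)
    obtain ⟨⟨a1, a2⟩, a3, a4⟩ := hv
    refine ⟨⟨⟨a1, a2⟩, by omega, a4⟩, ?_⟩
    show r < nrm (v - (x, 0))
    by_contra hc
    have := (TD3_nrm v x r).1 (not_lt.1 hc)
    omega
  have h3 : L.VX c (x + r + 1) (x + R) 0 R ω = L.VX c (x + r + 1) (x + R) 0 R ω' := by
    refine VX.dep L c _ _ _ _ ω ω' (fun v hv => h v ?_)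
    obtain ⟨⟨a1, a2⟩, a3, a4⟩ := hv
    refine ⟨⟨⟨by omega, a2⟩, a3, a4⟩, ?_⟩
    show r < nrm (v - (x, 0))
    by_contra hc
    have := (TD3_nrm v x r).1 (not_lt.1 hc)
    omega
  show (L.VX c (x - R) (x - r - 1) 0 R ω ∧ L.HX c (x - R) (x + R) (r + 1) R ω ∧
    L.VX c (x + r + 1) (x + R) 0 R ω) = _
  rw [h1, h2, h3]
  rfl

theorem HC.loc (L : Lat) (c : Bool) (x r R : ℤ) : Loc (L.HC c x r R) :=
  (VX.loc L c _ _ _ _).and ((HX.loc L c _ _ _ _).and (VX.loc L c _ _ _ _))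

private theorem TD3_mon_and {c : Bool} {A B : Cfg → Prop} (hA : MonC c A) (hB : MonC c B) :
    MonC c (fun ω => A ω ∧ B ω) := by
  cases c with
  | true =>
    intro ω ω' h hAB
    exact ⟨hA ω ω' h hAB.1, hB ω ω' h hAB.2⟩
  | false =>
    intro ω ω' h hAB
    exact ⟨hA ω ω' h hAB.1, hB ω ω' h hAB.2⟩

theorem HC.mon (L : Lat) (c : Bool) (x r R : ℤ) : MonC c (L.HC c x r R) :=
  TD3_mon_and (VX.mon L c _ _ _ _) (TD3_mon_and (HX.mon L c _ _ _ _) (VX.mon L c _ _ _ _))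

/-- Half circuits separate in the half plane and have a left and a right foot.  Same proof as
`Circ.sep`: `σ` is the union of the three crossing sets.  Let `P ⊆ {0 ≤ v.2}` be connected with a site of
`{nrm (v - (x,0)) ≤ r}` and one with `R ≤ nrm (v - (x,0))`; stop it at norm `R` and add the half box
`rect (x-r) (x+r) 0 r`.  If the last site is on the top side, `P` joins the bottom row to the top
row and meets the top crossing (`cross` in `rect (x-R) (x+R) 0 R`).  If it is on the right side, add the row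
`rect (x-R) x 0 0`: the union joins the left side to the right side, so it meets the right
crossing `VX` of `rect (x+r+1) (x+R) 0 R`, at a site with first coordinate `> x + r`, which is in `P`. -/
theorem HC.sep {c : Bool} {x r R : ℤ} (hr : 0 ≤ r) (hR : r < R) {ω : Cfg} (h : L.HC c x r R ω) :
    ∃ σ, σ ⊆ L.col c ω ∧ L.Con σ ∧
      σ ⊆ rect (x - R) (x + R) 0 R ∩ {v | r < nrm (v - (x, 0))} ∧
      (∃ f, x + r + 1 ≤ f ∧ f ≤ x + R ∧ (f, 0) ∈ σ) ∧
      (∃ f, x - R ≤ f ∧ f ≤ x - r - 1 ∧ (f, 0) ∈ σ) ∧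
      ∀ P : Set Pt, L.Con P → P ⊆ {v | 0 ≤ v.2} → (∃ v ∈ P, nrm (v - (x, 0)) ≤ r) →
        (∃ v ∈ P, R ≤ nrm (v - (x, 0))) → (σ ∩ P).Nonempty := by
  obtain ⟨⟨u1, v1, hu1, hv1, c1⟩, ⟨u2, v2, hu2, hv2, c2⟩, ⟨u3, v3, hu3, hv3, c3⟩⟩ := h
  -- the three crossing sets
  obtain ⟨A1, hA1⟩ : ∃ A, A = {w | L.Cn (rect (x - R) (x - r - 1) 0 R ∩ L.col c ω) u1 w} :=
    ⟨_, rfl⟩
  obtain ⟨A2, hA2⟩ : ∃ A, A = {w | L.Cn (rect (x - R) (x + R) (r + 1) R ∩ L.col c ω) u2 w} :=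
    ⟨_, rfl⟩
  obtain ⟨A3, hA3⟩ : ∃ A, A = {w | L.Cn (rect (x + r + 1) (x + R) 0 R ∩ L.col c ω) u3 w} :=
    ⟨_, rfl⟩
  have k1 : L.Con A1 := by rw [hA1]; exact con_cluster _ _
  have k2 : L.Con A2 := by rw [hA2]; exact con_cluster _ _
  have k3 : L.Con A3 := by rw [hA3]; exact con_cluster _ _
  have s1 : A1 ⊆ rect (x - R) (x - r - 1) 0 R ∩ L.col c ω := by
    rw [hA1]
    intro w hw
    exact Cn.right hw
  have s2 : A2 ⊆ rect (x - R) (x + R) (r + 1) R ∩ L.col c ω := by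
    rw [hA2]
    intro w hw
    exact Cn.right hw
  have s3 : A3 ⊆ rect (x + r + 1) (x + R) 0 R ∩ L.col c ω := by
    rw [hA3]
    intro w hw
    exact Cn.right hw
  have m1 : u1 ∈ A1 := by rw [hA1]; exact Cn.refl c1.left
  have n1 : v1 ∈ A1 := by rw [hA1]; exact c1
  have m2 : u2 ∈ A2 := by rw [hA2]; exact Cn.refl c2.left
  have n2 : v2 ∈ A2 := by rw [hA2]; exact c2
  have m3 : u3 ∈ A3 := by rw [hA3]; exact Cn.refl c3.left
  have n3 : v3 ∈ A3 := by rw [hA3]; exact c3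
  have i12 : (A2 ∩ A1).Nonempty := by
    obtain ⟨w, hw, -⟩ := crossX k2 k1 (fun v hv => (s2 hv).1) (fun v hv => (s1 hv).1)
      ⟨u2, m2, hu2⟩ ⟨v2, n2, hv2⟩ ⟨u1, m1, hu1⟩ ⟨v1, n1, hv1⟩ le_rfl (by omega) (by omega)
      le_rfl (by omega) (by omega)
    exact ⟨w, hw⟩
  have i23 : (A2 ∩ A3).Nonempty := by
    obtain ⟨w, hw, -⟩ := crossX k2 k3 (fun v hv => (s2 hv).1) (fun v hv => (s3 hv).1)
      ⟨u2, m2, hu2⟩ ⟨v2, n2, hv2⟩ ⟨u3, m3, hu3⟩ ⟨v3, n3, hv3⟩ (by omega) le_rfl (by omega)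
      le_rfl (by omega) (by omega)
    exact ⟨w, hw⟩
  have kσ : L.Con ((A2 ∪ A1) ∪ A3) := by
    refine (k2.union k1 i12).union k3 ?_
    obtain ⟨w, hw2, hw3⟩ := i23
    exact ⟨w, Or.inl hw2, hw3⟩
  refine ⟨(A2 ∪ A1) ∪ A3, ?_, kσ, ?_, ?_, ?_, ?_⟩
  · rintro w ((hw | hw) | hw)
    · exact (s2 hw).2
    · exact (s1 hw).2
    · exact (s3 hw).2
  · rintro w ((hw | hw) | hw)
    · obtain ⟨⟨a1, a2⟩, a3, a4⟩ := (s2 hw).1
      refine ⟨⟨⟨a1, a2⟩, by omega, a4⟩, ?_⟩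
      show r < nrm (w - (x, 0))
      by_contra hc
      have := (TD3_nrm w x r).1 (not_lt.1 hc)
      omega
    · obtain ⟨⟨a1, a2⟩, a3, a4⟩ := (s1 hw).1
      refine ⟨⟨⟨a1, by omega⟩, a3, a4⟩, ?_⟩
      show r < nrm (w - (x, 0))
      by_contra hc
      have := (TD3_nrm w x r).1 (not_lt.1 hc)
      omega
    · obtain ⟨⟨a1, a2⟩, a3, a4⟩ := (s3 hw).1
      refine ⟨⟨⟨by omega, a2⟩, a3, a4⟩, ?_⟩
      show r < nrm (w - (x, 0))
      by_contra hc
      have := (TD3_nrm w x r).1 (not_lt.1 hc)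
      omega
  · obtain ⟨⟨a1, a2⟩, a3, a4⟩ := (s3 m3).1
    refine ⟨u3.1, a1, a2, Or.inr ?_⟩
    have : (u3.1, (0 : ℤ)) = u3 := Prod.ext rfl hu3.symm
    rw [this]
    exact m3
  · obtain ⟨⟨a1, a2⟩, a3, a4⟩ := (s1 m1).1
    refine ⟨u1.1, a1, a2, Or.inl (Or.inr ?_)⟩
    have : (u1.1, (0 : ℤ)) = u1 := Prod.ext rfl hu1.symm
    rw [this]
    exact m1
  · intro P hP hP0 hin hout
    obtain ⟨p0, hp0, hp0r⟩ := hin
    obtain ⟨p1, hp1, hp1R⟩ := hout
    obtain ⟨p, q, hpp, hpq, hqP, hqS⟩ := (hP p0 hp0 p1 hp1).exit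
      (S := {v | nrm (v - (x, 0)) ≤ R - 1}) (show nrm (p0 - (x, 0)) ≤ R - 1 by omega)
      (show ¬ nrm (p1 - (x, 0)) ≤ R - 1 by omega)
    obtain ⟨P', hP'⟩ : ∃ A, A = {w | L.Cn (P ∩ {v | nrm (v - (x, 0)) ≤ R - 1}) p0 w} ∪ {q} :=
      ⟨_, rfl⟩
    have hp0' : p0 ∈ P' := by rw [hP']; exact Or.inl (Cn.refl hpp.left)
    have hq' : q ∈ P' := by rw [hP']; exact Or.inr rfl
    have hP'c : L.Con P' := by
      rw [hP']
      exact (con_cluster _ p0).union_adj (con_singleton q) (u := p) hpp rfl hpq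
    have hP'P : P' ⊆ P := by
      rw [hP']
      rintro w (hw | hw)
      · exact (Cn.right hw).1
      · rw [Set.mem_singleton_iff.1 hw]
        exact hqP
    have hpR := (TD3_nrm p x (R - 1)).1 hpp.right.2
    have hnear := hpq.near
    rw [abs_le, abs_le] at hnear
    have hq0 : 0 ≤ q.2 := hP0 hqP
    have hqR : nrm (q - (x, 0)) ≤ R := (TD3_nrm q x R).2 (by omega)
    have hqR' : ¬ nrm (q - (x, 0)) ≤ R - 1 := hqS
    rw [TD3_nrm] at hqR hqR'
    have hP'r : P' ⊆ rect (x - R) (x + R) 0 R := by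
      intro w hw
      have h0 : 0 ≤ w.2 := hP0 (hP'P hw)
      have h1 : nrm (w - (x, 0)) ≤ R := by
        rw [hP'] at hw
        rcases hw with hw | hw
        · have h2 : nrm (w - (x, 0)) ≤ R - 1 := (Cn.right hw).2
          omega
        · rw [Set.mem_singleton_iff.1 hw, TD3_nrm]
          exact hqR
      rw [TD3_nrm] at h1
      exact ⟨⟨by omega, by omega⟩, h0, h1.2.2⟩
    -- the half box
    have hp00 : 0 ≤ p0.2 := hP0 hp0
    rw [TD3_nrm] at hp0r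
    have hH : L.Con (P' ∪ rect (x - r) (x + r) 0 r) :=
      hP'c.union (con_rect _ _ _ _) ⟨p0, hp0', ⟨⟨by omega, by omega⟩, hp00, hp0r.2.2⟩⟩
    have hHr : P' ∪ rect (x - r) (x + r) 0 r ⊆ rect (x - R) (x + R) 0 R := by
      rintro w (hw | ⟨⟨a1, a2⟩, a3, a4⟩)
      · exact hP'r hw
      · exact ⟨⟨by omega, by omega⟩, a3, by omega⟩
    have hx0 : (x, (0 : ℤ)) ∈ rect (x - r) (x + r) 0 r :=
      ⟨⟨by show x - r ≤ x; omega, by show x ≤ x + r; omega⟩, le_rfl, hr⟩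
    have hcase : q.2 = R ∨ q.1 = x + R ∨ q.1 = x - R := by omega
    rcases hcase with hq1 | hq1 | hq1
    · obtain ⟨w, hw2, hwP⟩ := cross k2 hH (a := x - R) (b := x + R) (c := 0) (d := R)
        (fun v hv => by
          obtain ⟨⟨a1, a2⟩, a3, a4⟩ := (s2 hv).1
          exact ⟨⟨a1, a2⟩, by omega, a4⟩) hHr ⟨u2, m2, hu2⟩ ⟨v2, n2, hv2⟩
        ⟨(x, 0), Or.inr hx0, rfl⟩ ⟨q, Or.inl hq', hq1⟩
      refine ⟨w, Or.inl (Or.inl hw2), ?_⟩
      rcases hwP with hw | hw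
      · exact hP'P hw
      · exfalso
        have h1 := (s2 hw2).1.2.1
        have h2 := hw.2.2
        omega
    · have hT : L.Con ((P' ∪ rect (x - r) (x + r) 0 r) ∪ rect (x - R) x 0 0) :=
        hH.union (con_rect _ _ _ _) ⟨(x, 0), Or.inr hx0,
          ⟨⟨by show x - R ≤ x; omega, le_rfl⟩, le_rfl, le_rfl⟩⟩
      obtain ⟨w, hwP, hw3⟩ := cross hT k3 (a := x - R) (b := x + R) (c := 0) (d := R)
        (by
          rintro v (hv | ⟨⟨a1, a2⟩, a3, a4⟩)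
          · exact hHr hv
          · exact ⟨⟨a1, by omega⟩, a3, by omega⟩)
        (fun v hv => by
          obtain ⟨⟨a1, a2⟩, a3, a4⟩ := (s3 hv).1
          exact ⟨⟨by omega, a2⟩, a3, a4⟩)
        ⟨(x - R, 0), Or.inr ⟨⟨le_rfl, by show x - R ≤ x; omega⟩, le_rfl, le_rfl⟩, rfl⟩
        ⟨q, Or.inl (Or.inl hq'), hq1⟩ ⟨u3, m3, hu3⟩ ⟨v3, n3, hv3⟩
      refine ⟨w, Or.inr hw3, ?_⟩
      have h1 := (s3 hw3).1.1.1
      rcases hwP with (hw | hw) | hw
      · exact hP'P hw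
      · exfalso
        have h2 := hw.1.2
        omega
      · exfalso
        have h2 := hw.1.2
        omega
    · have hT : L.Con ((P' ∪ rect (x - r) (x + r) 0 r) ∪ rect x (x + R) 0 0) :=
        hH.union (con_rect _ _ _ _) ⟨(x, 0), Or.inr hx0,
          ⟨⟨le_rfl, by show x ≤ x + R; omega⟩, le_rfl, le_rfl⟩⟩
      obtain ⟨w, hwP, hw3⟩ := cross hT k1 (a := x - R) (b := x + R) (c := 0) (d := R)
        (by
          rintro v (hv | ⟨⟨a1, a2⟩, a3, a4⟩)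
          · exact hHr hv
          · exact ⟨⟨by omega, a2⟩, a3, by omega⟩)
        (fun v hv => by
          obtain ⟨⟨a1, a2⟩, a3, a4⟩ := (s1 hv).1
          exact ⟨⟨a1, by omega⟩, a3, a4⟩)
        ⟨q, Or.inl (Or.inl hq'), hq1⟩
        ⟨(x + R, 0), Or.inr ⟨⟨by show x ≤ x + R; omega, le_rfl⟩, le_rfl, le_rfl⟩, rfl⟩
        ⟨u1, m1, hu1⟩ ⟨v1, n1, hv1⟩
      refine ⟨w, Or.inl (Or.inr hw3), ?_⟩
      have h1 := (s1 hw3).1.1.2
      rcases hwP with (hw | hw) | hw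
      · exact hP'P hw
      · exfalso
        have h2 := hw.1.1
        omega
      · exfalso
        have h2 := hw.1.1
        omega

end Lat

theorem hc_pr (h : RSW L κ) {k : ℕ} (hk : 1 ≤ k) (c : Bool) {x r R : ℤ} (hr : 0 ≤ r)
    (h4 : 4 ≤ R - r - 1) (hR : 2 * R ≤ k * (R - r - 1)) : κ k ^ 3 ≤ pr (L.HC c x r R) := by
  have hκ : 0 ≤ κ k := (h.pos k).le
  have e1 : κ k ≤ pr (L.VX c (x - R) (x - r - 1) 0 R) :=
    h.vx' hk c (by omega) (by omega) (by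
      have : (x - r - 1) - (x - R) = R - r - 1 := by ring
      rw [this]; omega)
  have e2 : κ k ≤ pr (L.HX c (x - R) (x + R) (r + 1) R) :=
    h.hx' hk c (by omega) (by omega) (by
      have : R - (r + 1) = R - r - 1 := by ring
      rw [this]; omega)
  have e3 : κ k ≤ pr (L.VX c (x + r + 1) (x + R) 0 R) :=
    h.vx' hk c (by omega) (by omega) (by
      have : (x + R) - (x + r + 1) = R - r - 1 := by ring
      rw [this]; omega)
  let A : Fin 3 → Cfg → Prop :=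
    ![L.VX c (x - R) (x - r - 1) 0 R, L.HX c (x - R) (x + R) (r + 1) R,
      L.VX c (x + r + 1) (x + R) 0 R]
  have hH := pr_harris_mon (I := (Finset.univ : Finset (Fin 3))) (A := A) c
    (fun i _ => by
      fin_cases i
      · exact Lat.VX.loc L c _ _ _ _
      · exact Lat.HX.loc L c _ _ _ _
      · exact Lat.VX.loc L c _ _ _ _)
    (fun i _ => by
      fin_cases i
      · exact Lat.VX.mon L c _ _ _ _
      · exact Lat.HX.mon L c _ _ _ _
      · exact Lat.VX.mon L c _ _ _ _)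
  rw [Fin.prod_univ_three] at hH
  have hA : (fun ω => ∀ i ∈ (Finset.univ : Finset (Fin 3)), A i ω) = L.HC c x r R := by
    funext ω
    apply propext
    constructor
    · intro hi
      exact ⟨hi 0 (Finset.mem_univ _), hi 1 (Finset.mem_univ _), hi 2 (Finset.mem_univ _)⟩
    · rintro ⟨a1, a2, a3⟩ i _
      fin_cases i
      · exact a1
      · exact a2
      · exact a3
  rw [hA] at hH
  refine le_trans ?_ hH
  show κ k ^ 3 ≤ pr (L.VX c (x - R) (x - r - 1) 0 R) * pr (L.HX c (x - R) (x + R) (r + 1) R) *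
    pr (L.VX c (x + r + 1) (x + R) 0 R)
  calc κ k ^ 3 = κ k * κ k * κ k := by ring
    _ ≤ _ := by
      apply mul_le_mul (mul_le_mul e1 e2 hκ (hκ.trans e1)) e3 hκ
      exact mul_nonneg (hκ.trans e1) (hκ.trans e2)

/-- no half circuit in the first `N` dyadic half annuli -/
private theorem TD3_none (h : RSW L κ) (b' : Bool) (x a' : ℤ) (ha : 8 ≤ a') {q : ℝ}
    (hq : q ≤ κ 5 ^ 3) (hq1 : q ≤ 1) (N : ℕ) :
    pr (fun ω => ∀ j < N, ¬ L.HC b' x (2 ^ j * a') (2 * (2 ^ j * a')) ω) ≤ (1 - q) ^ N ∧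
    Loc (fun ω => ∀ j < N, ¬ L.HC b' x (2 ^ j * a') (2 * (2 ^ j * a')) ω) ∧
    Dep (fun ω => ∀ j < N, ¬ L.HC b' x (2 ^ j * a') (2 * (2 ^ j * a')) ω)
      {v | nrm (v - (x, 0)) ≤ 2 ^ N * a'} := by
  induction N with
  | zero =>
    refine ⟨?_, ⟨∅, ?_⟩, ?_⟩
    · rw [pow_zero]
      exact pr_le_one _
    · intro ω ω' _
      simp
    · intro ω ω' _
      simp
  | succ N ih =>
    obtain ⟨ih1, ih2, ih3⟩ := ih
    have hpow : (1 : ℤ) ≤ 2 ^ N := one_le_pow₀ (by norm_num)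
    have hρ : (8 : ℤ) ≤ 2 ^ N * a' := by nlinarith
    have heq : (fun ω => ∀ j < N + 1, ¬ L.HC b' x (2 ^ j * a') (2 * (2 ^ j * a')) ω) =
        fun ω => (∀ j < N, ¬ L.HC b' x (2 ^ j * a') (2 * (2 ^ j * a')) ω) ∧
          ¬ L.HC b' x (2 ^ N * a') (2 * (2 ^ N * a')) ω := by
      funext ω
      apply propext
      constructor
      · intro H
        exact ⟨fun j hj => H j (by omega), H N (by omega)⟩
      · rintro ⟨H1, H2⟩ j hj
        rcases Nat.lt_succ_iff_lt_or_eq.1 hj with hj | hj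
        · exact H1 j hj
        · subst hj
          exact H2
    have hlocH := Lat.HC.loc L b' x (2 ^ N * a') (2 * (2 ^ N * a'))
    have hdepH := Lat.HC.dep L b' x (2 ^ N * a') (2 * (2 ^ N * a')) (by omega)
    rw [heq]
    refine ⟨?_, ih2.and hlocH.not, ?_⟩
    · rw [pr_and ih2 hlocH.not ih3 (hdepH.comp (fun p => ¬ p)) ?_, pow_succ]
      · have hp : q ≤ pr (L.HC b' x (2 ^ N * a') (2 * (2 ^ N * a'))) := by
          refine hq.trans (hc_pr h (by norm_num) b' (by omega) (by omega) ?_)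
          push_cast
          omega
        have hn : pr (fun ω => ¬ L.HC b' x (2 ^ N * a') (2 * (2 ^ N * a')) ω) ≤ 1 - q := by
          rw [pr_not hlocH]
          linarith
        exact mul_le_mul ih1 hn (pr_nonneg _) (pow_nonneg (by linarith) _)
      · rintro v hv ⟨-, hv2⟩
        have h1 : nrm (v - (x, 0)) ≤ 2 ^ N * a' := hv
        have h2 : 2 ^ N * a' < nrm (v - (x, 0)) := hv2
        omega
    · intro ω ω' H
      have h1 := ih3 ω ω' (fun v hv => H v (by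
        have h1 : nrm (v - (x, 0)) ≤ 2 ^ N * a' := hv
        show nrm (v - (x, 0)) ≤ 2 ^ (N + 1) * a'
        rw [pow_succ]
        linarith))
      have h2 := hdepH ω ω' (fun v hv => H v (by
        obtain ⟨⟨⟨b1, b2⟩, b3, b4⟩, -⟩ := hv
        show nrm (v - (x, 0)) ≤ 2 ^ (N + 1) * a'
        rw [TD3_nrm, pow_succ]
        have e : (2 : ℤ) ^ N * 2 * a' = 2 * (2 ^ N * a') := by ring
        rw [e]
        omega))
      show (_ ∧ _) = (_ ∧ _)
      rw [h2]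
      congr 1

/-- At least one half circuit in the dyadic half annuli between radius `a` and `b`: probability at
least `1 - C (a / b) ^ c`.  (Half annuli `(ρ, 2ρ]` for `ρ = 2 ^ j a'`, `a' = max a 8`, `2 ρ ≤ b`, use
disjoint sets of sites, so the events are independent; each has probability at least `κ 5 ^ 3`;
if `b < 16 max(a,8)` take `C` so large that the right side is negative or trivial.)  The event below depends only
on the sites of `rect (x - b) (x + b) 0 b`. -/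
theorem hc_many (κ : ℕ → ℝ) : ∃ C c : ℝ, 0 < C ∧ 0 < c ∧ c ≤ 1 / 2 ∧ ∀ L : Lat, RSW L κ →
    ∀ (b' : Bool) (x a b : ℤ), 1 ≤ a → a ≤ b →
      1 - C * ((a : ℝ) / b) ^ c ≤ pr (fun ω => ∃ ρ, a ≤ ρ ∧ 2 * ρ ≤ b ∧ L.HC b' x ρ (2 * ρ) ω) := by
  by_cases hκ : 0 < κ 5
  swap
  · exact ⟨1, 1 / 2, one_pos, by norm_num, le_rfl, fun L h => absurd (h.pos 5) hκ⟩
  obtain ⟨q, hq0, hq1, hq2⟩ : ∃ q : ℝ, 0 < q ∧ q ≤ 1 / 4 ∧ q ≤ κ 5 ^ 3 :=
    ⟨min (1 / 4) (κ 5 ^ 3), lt_min (by norm_num) (by positivity), min_le_left _ _,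
      min_le_right _ _⟩
  have hq34 : (3 : ℝ) / 4 ≤ 1 - q := by linarith
  have hq11 : 1 - q < 1 := by linarith
  have hqpos : 0 < 1 - q := by linarith
  obtain ⟨c, hc⟩ : ∃ c : ℝ, c = - Real.logb 2 (1 - q) := ⟨_, rfl⟩
  have hc0 : 0 < c := by
    rw [hc]
    have := Real.logb_neg (b := 2) (by norm_num) hqpos hq11
    linarith
  have h2c : (2 : ℝ) ^ (-c) = 1 - q := by
    rw [hc, neg_neg]
    exact Real.rpow_logb (by norm_num) (by norm_num) hqpos
  have hc1 : c ≤ 1 / 2 := by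
    by_contra hcon
    push Not at hcon
    have h1 : (2 : ℝ) ^ (-c) < (2 : ℝ) ^ (-(1 / 2) : ℝ) :=
      Real.rpow_lt_rpow_of_exponent_lt (by norm_num) (by linarith)
    have h2 : (2 : ℝ) ^ (-(1 / 2) : ℝ) * (2 : ℝ) ^ (-(1 / 2) : ℝ) = 1 / 2 := by
      rw [← Real.rpow_add (by norm_num)]
      norm_num [Real.rpow_neg_one]
    have h3 : (0 : ℝ) < (2 : ℝ) ^ (-(1 / 2) : ℝ) := by positivity
    nlinarith
  refine ⟨16, c, by norm_num, hc0, hc1, ?_⟩
  intro L h b' x a b ha hab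
  obtain ⟨a', ha'⟩ : ∃ a' : ℤ, a' = max a 8 := ⟨_, rfl⟩
  have ha8 : 8 ≤ a' := by rw [ha']; exact le_max_right _ _
  have haa : a ≤ a' := by rw [ha']; exact le_max_left _ _
  have ha8a : a' ≤ 8 * a := by rw [ha']; exact max_le (by omega) (by omega)
  -- number of annuli
  have hex : ∃ N : ℕ, b < 2 ^ (N + 1) * a' := by
    refine ⟨b.toNat, ?_⟩
    have h1 : (b.toNat : ℤ) < 2 ^ b.toNat := by exact_mod_cast Nat.lt_two_pow_self
    have h2 : (b.toNat : ℤ) = b := Int.toNat_of_nonneg (by omega)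
    rw [pow_succ]
    nlinarith
  obtain ⟨N, hN1, hN2⟩ : ∃ N : ℕ, b < 2 ^ (N + 1) * a' ∧ (N = 0 ∨ 2 ^ N * a' ≤ b) := by
    refine ⟨Nat.find hex, Nat.find_spec hex, ?_⟩
    rcases Nat.eq_zero_or_pos (Nat.find hex) with h0 | h0
    · exact Or.inl h0
    · right
      have h1 := Nat.find_min hex (m := Nat.find hex - 1) (by omega)
      rw [show Nat.find hex - 1 + 1 = Nat.find hex by omega] at h1
      exact not_lt.1 h1
  obtain ⟨t1, t2, -⟩ := TD3_none h b' x a' ha8 hq2 (by linarith) N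
  -- the event is local
  have hloc : Loc (fun ω => ∃ ρ, a ≤ ρ ∧ 2 * ρ ≤ b ∧ L.HC b' x ρ (2 * ρ) ω) := by
    refine Loc.ex (F := Finset.Icc (x - b) (x + b) ×ˢ Finset.Icc 0 b) (fun ρ => ?_)
    intro ω ω' H
    by_cases hρ : a ≤ ρ ∧ 2 * ρ ≤ b
    · have h1 := Lat.HC.dep L b' x ρ (2 * ρ) (by omega) ω ω' (fun v hv => H v (by
        obtain ⟨⟨⟨b1, b2⟩, b3, b4⟩, -⟩ := hv
        rw [Finset.mem_coe, Finset.mem_product, Finset.mem_Icc, Finset.mem_Icc]
        exact ⟨⟨by omega, by omega⟩, b3, by omega⟩))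
      show (a ≤ ρ ∧ 2 * ρ ≤ b ∧ L.HC b' x ρ (2 * ρ) ω) =
        (a ≤ ρ ∧ 2 * ρ ≤ b ∧ L.HC b' x ρ (2 * ρ) ω')
      rw [h1]
    · apply propext
      constructor
      · rintro ⟨a1, a2, -⟩
        exact absurd ⟨a1, a2⟩ hρ
      · rintro ⟨a1, a2, -⟩
        exact absurd ⟨a1, a2⟩ hρ
  -- the complement
  have hle : 1 - (1 - q) ^ N ≤
      pr (fun ω => ∃ ρ, a ≤ ρ ∧ 2 * ρ ≤ b ∧ L.HC b' x ρ (2 * ρ) ω) := by
    have h1 := pr_mono hloc.not t2 (fun ω hω j hj => by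
      intro hHC
      apply hω
      have hN : N ≠ 0 := by omega
      have hNb := hN2.resolve_left hN
      have hpow : (1 : ℤ) ≤ 2 ^ j := one_le_pow₀ (by norm_num)
      have hpow2 : (2 : ℤ) ^ (j + 1) ≤ 2 ^ N := pow_le_pow_right₀ (by norm_num) (by omega)
      refine ⟨2 ^ j * a', by nlinarith, ?_, hHC⟩
      rw [pow_succ] at hpow2
      nlinarith)
    rw [pr_not hloc] at h1
    linarith
  refine le_trans ?_ hle
  have hb0 : (0 : ℝ) < b := by
    have : 0 < b := by omega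
    exact_mod_cast this
  have ha0 : (0 : ℝ) < a := by
    have : 0 < a := by omega
    exact_mod_cast this
  -- `(1 - q) ^ N ≤ 16 (a / b) ^ c`
  have hkey : (1 - q) ^ N ≤ 16 * ((a : ℝ) / b) ^ c := by
    have h1 : (1 - q) ^ N = ((2 : ℝ) ^ (-(N : ℝ))) ^ c := by
      rw [← h2c, ← Real.rpow_natCast, ← Real.rpow_mul (by norm_num), ← Real.rpow_mul (by norm_num)]
      congr 1
      ring
    have h2 : (2 : ℝ) ^ (-(N : ℝ)) ≤ 16 * ((a : ℝ) / b) := by
      rw [Real.rpow_neg (by norm_num), Real.rpow_natCast]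
      have h3 : (b : ℝ) < 2 ^ (N + 1) * a' := by exact_mod_cast hN1
      have h4 : (a' : ℝ) ≤ 8 * a := by exact_mod_cast ha8a
      have h5 : (0 : ℝ) < 2 ^ N := by positivity
      rw [inv_eq_one_div, div_le_iff₀ h5]
      rw [← mul_div_assoc, div_mul_eq_mul_div, le_div_iff₀ hb0]
      rw [pow_succ] at h3
      nlinarith
    rw [h1]
    calc ((2 : ℝ) ^ (-(N : ℝ))) ^ c ≤ (16 * ((a : ℝ) / b)) ^ c :=
          Real.rpow_le_rpow (by positivity) h2 hc0.le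
      _ = (16 : ℝ) ^ c * ((a : ℝ) / b) ^ c := Real.mul_rpow (by norm_num) (by positivity)
      _ ≤ 16 * ((a : ℝ) / b) ^ c := by
          apply mul_le_mul_of_nonneg_right _ (by positivity)
          calc (16 : ℝ) ^ c ≤ (16 : ℝ) ^ (1 : ℝ) :=
                Real.rpow_le_rpow_of_exponent_le (by norm_num) (by linarith)
            _ = 16 := Real.rpow_one _
  linarith

end SC
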