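import Pool.Agent.Lib_MP_e0a489.FT4
import Pool.Agent.Lib_MP_e0a489.FT6
import Pool.Agent.Lib_MP_e0a489.TD3

/-!
# MP_e0a489, foot lemma 6: effect of a fresh half circuit
-/

set_option autoImplicit false

namespace SC

open Classical

namespace Lat

variable {L : Lat} {β : ℤ} {ω : Cfg}

/-- Let `x` be the largest first coordinate of the sites of `fs i` in the bottom row, `-β < x < β`.  If the fresh configuration has a
half circuit of colour `cc i` around `(x, 0)` of radii `ρ`, `2ρ`, with `a ≤ ρ`, `2ρ ≤ β`, then `Bad i` does not hold in the mixed configuration.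
Proof.  `1 ≤ ρ`.  `HC.sep` (with `r = ρ`, `R = 2ρ`) gives `σ`, contained in `rect (x-2ρ) (x+2ρ) 0 (2ρ) ⊆ Hb β`, with a right foot `(f, 0)`,
`x + ρ + 1 ≤ f`.  `(f, 0) ∉ fs i` by `hmax`.  `fs_meet` (`R = 2ρ ≤ β`) and `fs_step` (`u = (f, 0)`) give `(f, 0) ∈ fs (i+1)` of the mixed configuration `ω'`.  If
`Bad β a i ω'` holds with the site `x₀`: `fs i ω' = fs i ω` (`fs_mix`), so `x₀ = x` (both are the largest), and `(f, 0) ∉ fs (i+1) ω'` because
`f ≥ x + ρ + 1 ≥ x + a`, a contradiction. -/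
theorem not_bad {a : ℤ} {i : ℕ} {x ρ : ℤ} {η : Cfg} (ha : 1 ≤ a) (hx : -β < x) (hx2 : x < β)
    (hx' : (x, 0) ∈ L.fs β ω i) (hmax : ∀ x', x < x' → (x', 0) ∉ L.fs β ω i) (haρ : a ≤ ρ)
    (hρ : 2 * ρ ≤ β) (h : L.HC (cc i) x ρ (2 * ρ) η) :
    ¬ L.Bad β a i (mix (HbF β) (L.Rf β i) ω η) := by
  have hβ : 1 ≤ β := by omega
  obtain ⟨σ, h1, h2, h3, ⟨f, hf1, hf2, hf3⟩, _, hsep⟩ :=
    HC.sep (show (0 : ℤ) ≤ ρ by omega) (show ρ < 2 * ρ by omega) h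
  have hH : σ ⊆ Hb β := by
    intro v hv
    obtain ⟨⟨⟨a1, a2⟩, a3, a4⟩, _⟩ := h3 hv
    exact ⟨⟨by omega, by omega⟩, a3, by omega⟩
  have hm := fs_meet (L := L) (ω := ω) hβ (show (0 : ℤ) ≤ ρ by omega) hρ hx hx' hsep
  have hfn : (f, 0) ∉ L.fs β ω i := hmax f (by omega)
  have key := fs_step (ω := ω) h2 hH h1 hf3 hfn hm
  rintro ⟨x₀, _, _, e3, e4, e5⟩
  rw [fs_mix] at e3 e4
  have e : x₀ = x := by
    rcases lt_trichotomy x₀ x with e | e | e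
    · exact absurd hx' (e4 x e)
    · exact e
    · exact absurd e3 (hmax x₀ e)
  subst e
  exact e5 f (by omega) key

/-- If `fs i` has no site `(x', 0)` with `x' ≥ β` and the fresh configuration has a half circuit of colour `cc i` around `(0, 0)` of radii
`β - 1`, `2β`, then `fs (i+1)` of the mixed configuration has such a site.
Proof.  `HC.sep` (`x = 0`, `r = β - 1`, `R = 2β`) gives `σ ⊆ rect (0-2β) (0+2β) 0 (2β) = Hb β` with a right foot `(f, 0)`, `β ≤ f`, and a left foot `(g, 0)`,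
`-(2β) ≤ g ≤ -β`.  `(g, 0)` is next to `(g, -1) ∈ A0 β ⊆ fs i` (`adj_up`, `A0_sub`), so `fs_step` with `s = (g, 0)`, `u = (f, 0)` (not in `fs i` by
`h`) gives `(f, 0) ∈ fs (i+1)` of the mixed configuration. -/
theorem not_ef {i : ℕ} {η : Cfg} (hβ : 1 ≤ β) (h : L.Ef β i ω)
    (h' : L.HC (cc i) 0 (β - 1) (2 * β) η) :
    ¬ L.Ef β (i + 1) (mix (HbF β) (L.Rf β i) ω η) := by
  obtain ⟨σ, h1, h2, h3, ⟨f, hf1, hf2, hf3⟩, ⟨g, hg1, hg2, hg3⟩, _⟩ :=
    HC.sep (show (0 : ℤ) ≤ β - 1 by omega) (show β - 1 < 2 * β by omega) h'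
  have hH : σ ⊆ Hb β := by
    intro v hv
    obtain ⟨⟨⟨a1, a2⟩, a3, a4⟩, _⟩ := h3 hv
    exact ⟨⟨by omega, by omega⟩, a3, a4⟩
  have hfn : (f, 0) ∉ L.fs β ω i := h f (by omega)
  have hA : ((g, -1) : Pt) ∈ A0 β := by
    refine ⟨⟨?_, ?_⟩, ?_, ?_⟩
    · show -(2 * β) ≤ g
      omega
    · show g ≤ -β
      omega
    · exact le_refl _
    · exact le_refl _
  have hadj : L.Adj ((g, -1) : Pt) (g, 0) := adj_up (g, -1)
  have key := fs_step (ω := ω) h2 hH h1 hf3 hfn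
    ⟨(g, 0), hg3, Or.inr ⟨(g, -1), A0_sub i hA, hadj⟩⟩
  intro hE
  exact hE f (by omega) key

end Lat

end SC
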