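import Pool.Agent.Lib_MP_e0a489.EX1
import Pool.Agent.Lib_MP_e0a489.TC3

/-!
# MP_e0a489, half plane 1: a change of colour on the boundary gives two arms of different colours

`fr a b h`: the left, right and upper side of the rectangle `rect a b 0 h`.
-/

set_option autoImplicit false

namespace SC

open Classical

/-- left, right and upper side -/
def fr (a b h : ℤ) : Set Pt := {v | v ∈ rect a b 0 h ∧ (v.1 = a ∨ v.1 = b ∨ v.2 = h)}

namespace Lat

variable {L : Lat}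

/-- the frame around the left, upper and right side -/
private theorem hl1_frame {a b h : ℤ} (hab : a ≤ b) (hh : 0 ≤ h) :
    L.Con (rect (a - 1) (b + 1) 0 (h + 1) \ rect a b 0 h) := by
  have e : rect (a - 1) (b + 1) 0 (h + 1) \ rect a b 0 h =
      (rect (a - 1) (a - 1) 0 (h + 1) ∪ rect (a - 1) (b + 1) (h + 1) (h + 1)) ∪
        rect (b + 1) (b + 1) 0 (h + 1) := by
    ext v
    simp only [rect, Set.mem_diff, Set.mem_union, Set.mem_setOf_eq]
    omega
  rw [e]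
  refine Con.union (Con.union (con_rect _ _ _ _) (con_rect _ _ _ _) ⟨(a - 1, h + 1), ?_, ?_⟩)
    (con_rect _ _ _ _) ⟨(b + 1, h + 1), Or.inr ?_, ?_⟩ <;>
    simp only [rect, Set.mem_setOf_eq] <;> omega

private theorem hl1_nb {a b h : ℤ} {y : Pt} (hy : y ∈ fr a b h) :
    y ∈ L.nb (rect (a - 1) (b + 1) 0 (h + 1) \ rect a b 0 h) := by
  obtain ⟨x, z⟩ := y
  obtain ⟨⟨⟨h1, h2⟩, h3, h4⟩, h5⟩ := hy
  simp only at h1 h2 h3 h4 h5
  rcases h5 with h5 | h5 | h5
  · refine ⟨(x - 1, z), ?_, ?_⟩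
    · simp only [rect, Set.mem_diff, Set.mem_setOf_eq]
      omega
    · have := L.adj_right (x - 1, z)
      simpa using this
  · refine ⟨(x + 1, z), ?_, ?_⟩
    · simp only [rect, Set.mem_diff, Set.mem_setOf_eq]
      omega
    · have := (L.adj_right (x, z)).symm
      simpa using this
  · refine ⟨(x, z + 1), ?_, ?_⟩
    · simp only [rect, Set.mem_diff, Set.mem_setOf_eq]
      omega
    · have := (L.adj_up (x, z)).symm
      simpa using this

private theorem hl1_fr {a b h : ℤ} {y : Pt} (hy : y ∈ rect a b 0 h)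
    (hn : y ∈ L.nb (rect (a - 1) (b + 1) 0 (h + 1) \ rect a b 0 h)) : y ∈ fr a b h := by
  obtain ⟨s, ⟨hs1, hs2⟩, hs⟩ := hn
  obtain ⟨h1, h2⟩ := hs.near
  rw [abs_le] at h1 h2
  refine ⟨hy, ?_⟩
  simp only [rect, Set.mem_setOf_eq] at hy hs1 hs2
  omega

/-- CHANGE OF COLOUR.  If a site of the bottom row has an arm of colour `c` and a site further to the right
an arm of colour `!c`, then there are two neighbouring sites between them with such arms.
Proof.  Let `x` be the largest number in `[x₁, x₂]` such that `(x, 0)` has an arm of colour `c`.  Explore the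
clusters of colour `c` attached to the frame `S` around the three sides: `(x, 0)` is in `C = Cx c M S`, the sites
`(x+1, 0), ..., (x₂, 0)` are not.  The component `V` of `M \ C` containing them contains the arm of `(x₂, 0)`;
its boundary is connected, of colour `!c`, and contains `(x+1, 0)` and the end of this arm. -/
theorem switch {a b h x₁ x₂ : ℤ} {c : Bool} {ω : Cfg} (ha : a ≤ x₁) (hx : x₁ < x₂) (hb : x₂ ≤ b)
    (hh : 0 ≤ h) (h1 : L.Arm c (rect a b 0 h) {(x₁, 0)} (fr a b h) ω)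
    (h2 : L.Arm (!c) (rect a b 0 h) {(x₂, 0)} (fr a b h) ω) :
    ∃ x, x₁ ≤ x ∧ x < x₂ ∧ L.Arm c (rect a b 0 h) {(x, 0)} (fr a b h) ω ∧
      L.Arm (!c) (rect a b 0 h) {(x + 1, 0)} (fr a b h) ω := by
  -- the largest `x`
  obtain ⟨x, ⟨hx1, hx2, hxA⟩, hmax⟩ := Int.exists_greatest_of_bdd
    (P := fun x => x₁ ≤ x ∧ x ≤ x₂ ∧ L.Arm c (rect a b 0 h) {(x, 0)} (fr a b h) ω)
    ⟨x₂, fun z hz => hz.2.1⟩ ⟨x₁, le_refl _, hx.le, h1⟩
  obtain ⟨u₂, hu₂, y₂, hy₂, hc₂⟩ := h2
  rw [Set.mem_singleton_iff] at hu₂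
  subst hu₂
  have hxlt : x < x₂ := by
    rcases hx2.lt_or_eq with h | h
    · exact h
    · exfalso
      obtain ⟨u, hu, y, hy, hc⟩ := hxA
      rw [Set.mem_singleton_iff] at hu
      subst hu
      rw [h] at hc
      have e1 : L.st ω (x₂, 0) = c := hc.left.2
      have e2 : L.st ω (x₂, 0) = !c := hc₂.left.2
      rw [e1] at e2
      cases c <;> simp at e2
  have hno : ∀ z, x < z → z ≤ x₂ → ¬ L.Arm c (rect a b 0 h) {(z, 0)} (fr a b h) ω := by
    intro z hz1 hz2 hz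
    have := hmax z ⟨by omega, hz2, hz⟩
    omega
  refine ⟨x, hx1, hxlt, hxA, ?_⟩
  set M : Set Pt := rect (a - 1) (b + 1) 0 (h + 1) with hM
  set D : Set Pt := rect a b 0 h with hD
  have hDM : D ⊆ M := by
    intro v hv
    simp only [hD, hM, rect, Set.mem_setOf_eq] at hv ⊢
    omega
  have hMS : M \ (M \ D) = D := Set.sdiff_sdiff_cancel_left hDM
  set C : Set Pt := L.Cx c M (M \ D) ω with hC
  have hSC : M \ D ⊆ C := Cx_sup
  have hScon : L.Con (M \ D) := hl1_frame (by omega) hh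
  have hxC : (x, 0) ∈ C := by
    obtain ⟨u, hu, y, hy, hc⟩ := hxA
    rw [Set.mem_singleton_iff] at hu
    subst hu
    exact Cx_path (by rw [hMS]; exact hc.symm) (Or.inl (hl1_nb hy))
  have hzC : ∀ z, x < z → z ≤ x₂ → (z, (0 : ℤ)) ∉ C := by
    intro z hz1 hz2 hz
    rcases hz with hz | ⟨u, hu, hc⟩
    · exact hz.2 (by simp only [hD, rect, Set.mem_setOf_eq]; omega)
    · rw [hMS] at hc
      exact hno z hz1 hz2 ⟨(z, 0), rfl, u, hl1_fr hc.left.1 hu, hc.symm⟩
  have hrow : rect (x + 1) x₂ 0 0 ⊆ M \ C := by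
    rintro ⟨p, q⟩ hv
    simp only [rect, Set.mem_setOf_eq] at hv
    have hq : q = 0 := by omega
    subst hq
    refine ⟨?_, hzC p (by omega) (by omega)⟩
    simp only [hM, rect, Set.mem_setOf_eq]
    omega
  have h0 : ((x + 1, 0) : Pt) ∈ rect (x + 1) x₂ 0 0 := by
    simp only [rect, Set.mem_setOf_eq]
    omega
  have h0' : ((x₂, 0) : Pt) ∈ rect (x + 1) x₂ 0 0 := by
    simp only [rect, Set.mem_setOf_eq]
    omega
  have hV : L.Comp (M \ C) {v | L.Cn (M \ C) (x + 1, 0) v} := comp_cluster (hrow h0)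
  set V : Set Pt := {v | L.Cn (M \ C) (x + 1, 0) v} with hVdef
  have hxV : ((x + 1, 0) : Pt) ∈ V := Cn.refl (hrow h0)
  have hx₂V : ((x₂, 0) : Pt) ∈ V := (con_rect (L := L) _ _ _ _ _ h0 _ h0').mono hrow
  have hy₂V : y₂ ∈ V := by
    refine Cn.trans hx₂V (hc₂.mono ?_)
    rintro w ⟨hwD, hwc⟩
    refine ⟨hDM hwD, fun hwC => ?_⟩
    have e1 : L.st ω w = c := (Cx_col hwC (fun h => h.2 hwD)).2
    have e2 : L.st ω w = !c := hwc
    rw [e1] at e2
    cases c <;> simp at e2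
  have hB : L.Con (L.bd V C) :=
    con_bd (exact_rect _ _ _ _ _) (Cx_con hScon) (Cx_sub Set.sdiff_subset) hV
  have hsub : L.bd V C ⊆ D ∩ L.col (!c) ω := by
    rintro v ⟨hvV, hvn⟩
    have hv := hV.sub hvV
    have hvD : v ∈ D := by
      by_contra hno'
      exact hv.2 (hSC ⟨hv.1, hno'⟩)
    exact ⟨hvD, bd_col hv.1 hvn hv.2⟩
  refine ⟨(x + 1, 0), rfl, y₂, hy₂, (hB _ ⟨hxV, ?_⟩ _ ⟨hy₂V, ?_⟩).mono hsub⟩
  · exact ⟨(x, 0), hxC, L.adj_right (x, 0)⟩
  · obtain ⟨s, hs, hs'⟩ := hl1_nb (L := L) hy₂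
    exact ⟨s, hSC hs, hs'⟩

end Lat

end SC
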