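import Pool.Agent.Lib_MP_e0a489.HP10

/-!
# MP_e0a489, module HP 11: reflections; the one arm probability of the half plane
-/

set_option autoImplicit false

namespace SC

variable [IfL]

open Classical

private theorem hp11_img {e : Equiv.Perm Pt} (hn : ∀ v, nrm (e v) = nrm v) (P : ℤ → Prop) :
    e '' {v | P (nrm v)} = {v | P (nrm v)} := by
  ext v
  constructor
  · rintro ⟨w, hw, rfl⟩
    show P _
    rw [hn]
    exact hw
  · intro hv
    refine ⟨e.symm v, ?_, Equiv.apply_symm_apply e v⟩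
    show P _
    rw [← hn, Equiv.apply_symm_apply]
    exact hv

private theorem hp11_rx (v : Pt) : nrm (rxE v) = nrm v := by
  show max |-v.1| |v.2| = max |v.1| |v.2|
  rw [abs_neg]

private theorem hp11_ry (v : Pt) : nrm (ryE v) = nrm v := by
  show max |v.1| |-v.2| = max |v.1| |v.2|
  rw [abs_neg]

private theorem hp11_rxry {L : Lat} {κ : ℕ → ℝ} (h : Fam L κ) : ∃ x, L.rx.ry = L.shift x := by
  obtain ⟨a, ha⟩ := h.rx
  obtain ⟨b, hb⟩ := h.ry
  refine ⟨b + (a.1, -a.2), ?_⟩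
  rw [ha, ry_shift, hb, shift_shift]

/-- `Tr.arm` with `D = ann r R ∩ S`: `e '' D = ann r R ∩ e '' S` and `e '' rng R = rng R` (`e` preserves the norm), `e '' L'.nb (bx r) = L.nb (e '' bx r) = L.nb (bx r)` (`Tr.nb`); `pr_via`. -/
theorem pr_arm_tr {L L' : Lat} {e : Equiv.Perm Pt} (h : Tr L L' e) (hn : ∀ v, nrm (e v) = nrm v)
    (c : Bool) (S : Set Pt) (r R : ℤ) :
    pr (L.Arm c (ann r R ∩ e '' S) (L.nb (bx r)) (rng R)) =
      pr (L'.Arm c (ann r R ∩ S) (L'.nb (bx r)) (rng R)) := by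
  have hloc : Loc (L'.Arm c (ann r R ∩ S) (L'.nb (bx r)) (rng R)) :=
    Lat.Arm.loc L' c _ _ _ ((ann_finite r R).subset Set.inter_subset_left)
  rw [← pr_via hloc e]
  congr 1
  funext ω
  refine propext ?_
  rw [h.arm, h.nb, Set.image_inter e.injective]
  have e1 : e '' ann r R = ann r R := hp11_img hn (fun a => r < a ∧ a ≤ R)
  have e2 : e '' bx r = bx r := hp11_img hn (fun a => a ≤ r)
  have e3 : e '' rng R = rng R := hp11_img hn (fun a => a = R)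
  rw [e1, e2, e3]

/-- Let `L' = L, L.rx, L.ry, L.rx.ry`, which is `L` seen through `e` (`Tr.refl`, `tr_rx`, `tr_ry`, `Tr.trans`).  `Fam L' κ` (`Fam.toRx`, `Fam.toRy`) and `L' = L.shift x₀` for some `x₀` (`Fam.rx`, `Fam.ry`, `ry_shift`,
`shift_shift`), so `L = L'.shift (-x₀)` and `L.shift x = L'.shift (x - x₀)`.  `cmpU` for `L'`, and `pr_arm_tr`. -/
theorem aU_all (κ : ℕ → ℝ) : ∃ (C : ℝ) (R₀ : ℤ), 1 ≤ C ∧ 32 ≤ R₀ ∧ ∀ L : Lat, Fam L κ →
    ∀ (q c c' : Bool) (x u : Pt) (e : Equiv.Perm Pt) (r R : ℤ),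
      (e = 1 ∨ e = rxE ∨ e = ryE ∨ e = rxE * ryE) →
      0 ≤ u.1 → u.1 ≤ 1 → 0 ≤ u.2 → u.2 ≤ 1 → R₀ ≤ r → r < R → aU (L.shift x) q c r R ≤
        C * pr (L.Arm c' (ann r R ∩ e '' {v | v - u ∈ Uq q}) (L.nb (bx r)) (rng R)) := by
  obtain ⟨C, R₀, hC, hR₀, hcmp⟩ := cmpU κ
  refine ⟨C, R₀, hC, hR₀, ?_⟩
  intro L hL q c c' x u e r R he hu1 hu2 hu3 hu4 hr hrR
  have key : ∃ (L' : Lat) (x₀ : Pt), Tr L L' e ∧ Fam L' κ ∧ L' = L.shift x₀ ∧
      ∀ v, nrm (e v) = nrm v := by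
    rcases he with rfl | rfl | rfl | rfl
    · exact ⟨L, 0, Tr.refl L, hL, (shift_zero L).symm, fun v => rfl⟩
    · obtain ⟨x₀, h₀⟩ := hL.rx
      exact ⟨L.rx, x₀, tr_rx L, hL.toRx, h₀, hp11_rx⟩
    · obtain ⟨x₀, h₀⟩ := hL.ry
      exact ⟨L.ry, x₀, tr_ry L, hL.toRy, h₀, hp11_ry⟩
    · obtain ⟨x₀, h₀⟩ := hp11_rxry hL
      refine ⟨L.rx.ry, x₀, (tr_rx L).trans (tr_ry L.rx), hL.toRx.toRy, h₀, fun v => ?_⟩
      show nrm (rxE (ryE v)) = nrm v
      rw [hp11_rx, hp11_ry]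
  obtain ⟨L', x₀, hT, hL', hx₀, hn⟩ := key
  have h1 := hcmp L' hL' q c c' (x - x₀) u r R hu1 hu2 hu3 hu4 hr hrR
  have h2 : L'.shift (x - x₀) = L.shift x := by
    rw [hx₀, shift_shift, add_sub_cancel]
  rw [h2] at h1
  rw [pr_arm_tr hT hn]
  exact h1

/-- `s` and `s'` of the same parity: the rotated lattices are shifts of each other.  If `s % 4 = s' % 4` they are equal.  Otherwise `rt s' = rt (s + 2) = rt s * rxE * ryE` (`rt_mod`, `rt_add`, `rt_two`), so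
`L.rots s' = (L.rots s).rx.ry` (`Tr.unique`, `tr_rots`, `tr_rx`, `tr_ry`), a shift of `L.rots s` (`Fam.toRots`). -/
theorem rots_par {L : Lat} {κ : ℕ → ℝ} (h : Fam L κ) {s s' : ℤ} (hs : s % 2 = s' % 2) :
    ∃ x, L.rots s = (L.rots s').shift x := by
  by_cases h4 : s % 4 = s' % 4
  · refine ⟨0, ?_⟩
    rw [shift_zero]
    have e1 : rt s = rt s' := rt_mod h4
    have h1 := tr_rots L s
    rw [e1] at h1
    exact Tr.unique h1 (tr_rots L s')
  · have h5 : s % 4 = (s' + 2) % 4 := by omega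
    have e1 : rt s = rt s' * (rxE * ryE) := by
      rw [rt_mod h5]
      apply Equiv.ext
      intro v
      rw [rt_add, rt_two]
      rfl
    have h1 := tr_rots L s
    rw [e1] at h1
    have h2 : Tr L (L.rots s').rx.ry (rt s' * (rxE * ryE)) :=
      (tr_rots L s').trans ((tr_rx (L.rots s')).trans (tr_ry (L.rots s').rx))
    obtain ⟨x, hx⟩ := hp11_rxry (h.toRots s')
    exact ⟨x, (Tr.unique h1 h2).trans hx⟩

/-- one arm probability of the half plane -/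
noncomputable def Lat.oneH (L : Lat) (c : Bool) (r R : ℤ) : ℝ :=
  pr (L.Arm c (ann r R ∩ {v | 0 ≤ v.2}) (L.nb (bx r)) (rng R))

private theorem hp11_uq : Uq false = {v : Pt | 0 ≤ v.2} := by
  ext v
  constructor
  · intro h
    exact h.1
  · intro h
    refine ⟨h, fun h' => ?_⟩
    exact absurd h' (by decide)

private theorem hp11_shift {L : Lat} {κ : ℕ → ℝ} (h : Fam L κ) {s s' : ℤ} (hs : s % 2 = s' % 2)
    (x x' : Pt) : ∃ x₂, (L.rots s).shift x = ((L.rots s').shift x').shift x₂ := by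
  obtain ⟨a, ha⟩ := rots_par h hs
  refine ⟨a + x - x', ?_⟩
  rw [ha, shift_shift, shift_shift]
  congr 1
  abel

/-- `Uq false = {0 ≤ v.2}` -/
theorem oneH_eq (L : Lat) (c : Bool) (r R : ℤ) : L.oneH c r R = aU L false c r R := by
  unfold Lat.oneH aU
  rw [hp11_uq]

/-- Let `L₂ = (L.rots s').shift x'`, `Fam L₂ κ` (`Fam.toRots`, `Fam.toShift`).  `(L.rots s).shift x = L₂.shift x₂` for some `x₂` (`rots_par`, `shift_shift`, `L.rots s' = L₂.shift (-x')`).  `aU_all` with `e = 1`, `u = 0`. -/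
theorem oneH_cmp (κ : ℕ → ℝ) : ∃ (C : ℝ) (R₀ : ℤ), 0 < C ∧ 16 ≤ R₀ ∧ ∀ L : Lat, Fam L κ →
    ∀ (s s' : ℤ) (x x' : Pt) (c c' : Bool) (r R : ℤ), s % 2 = s' % 2 → R₀ ≤ r → r < R →
      ((L.rots s).shift x).oneH c r R ≤ C * ((L.rots s').shift x').oneH c' r R := by
  obtain ⟨C, R₀, hC, hR₀, hall⟩ := aU_all κ
  refine ⟨C, R₀, by linarith, by omega, ?_⟩
  intro L hL s s' x x' c c' r R hs hr hrR
  have hL₂ : Fam ((L.rots s').shift x') κ := (hL.toRots s').toShift x'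
  obtain ⟨x₂, hx₂⟩ := hp11_shift hL hs x x'
  have h1 := hall ((L.rots s').shift x') hL₂ false c c' x₂ 0 1 r R (Or.inl rfl) le_rfl
    zero_le_one le_rfl zero_le_one hr hrR
  rw [← hx₂, ← oneH_eq] at h1
  have e1 : ((1 : Equiv.Perm Pt) '' {v : Pt | v - 0 ∈ Uq false}) = {v : Pt | 0 ≤ v.2} := by
    rw [Equiv.Perm.coe_one, Set.image_id, ← hp11_uq]
    ext v
    show v - 0 ∈ Uq false ↔ v ∈ Uq false
    rw [sub_zero]
  rw [e1] at h1
  exact h1

/-- the same with `e = ryE`, `u = (0, 1)`: `ryE '' {v | v - (0, 1) ∈ Uq false} = {v | v.2 ≤ -1}` -/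
theorem oneH_low (κ : ℕ → ℝ) : ∃ (C : ℝ) (R₀ : ℤ), 0 < C ∧ 16 ≤ R₀ ∧ ∀ L : Lat, Fam L κ →
    ∀ (s s' : ℤ) (x x' : Pt) (c c' : Bool) (r R : ℤ), s % 2 = s' % 2 → R₀ ≤ r → r < R →
      ((L.rots s).shift x).oneH c r R ≤
        C * pr (((L.rots s').shift x').Arm c' (ann r R ∩ {v | v.2 ≤ -1})
          (((L.rots s').shift x').nb (bx r)) (rng R)) := by
  obtain ⟨C, R₀, hC, hR₀, hall⟩ := aU_all κ
  refine ⟨C, R₀, by linarith, by omega, ?_⟩
  intro L hL s s' x x' c c' r R hs hr hrR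
  have hL₂ : Fam ((L.rots s').shift x') κ := (hL.toRots s').toShift x'
  obtain ⟨x₂, hx₂⟩ := hp11_shift hL hs x x'
  have h1 := hall ((L.rots s').shift x') hL₂ false c c' x₂ (0, 1) ryE r R
    (Or.inr (Or.inr (Or.inl rfl))) le_rfl zero_le_one zero_le_one le_rfl hr hrR
  rw [← hx₂, ← oneH_eq] at h1
  have e1 : (ryE '' {v : Pt | v - (0, 1) ∈ Uq false}) = {v : Pt | v.2 ≤ -1} := by
    rw [hp11_uq]
    ext v
    constructor
    · rintro ⟨w, hw, rfl⟩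
      have h2 : 0 ≤ w.2 - 1 := hw
      show -w.2 ≤ -1
      omega
    · intro hv
      have h2 : v.2 ≤ -1 := hv
      refine ⟨(v.1, -v.2), ?_, ?_⟩
      · show 0 ≤ -v.2 - 1
        omega
      · show (v.1, - -v.2) = v
        rw [neg_neg]
  rw [e1] at h1
  exact h1

end SC
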