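import Pool.Agent.Lib_MP_e0a489.PA2a

/-!
# MP_e0a489, probability toolkit 4: van den Berg - Kesten inequality
-/

set_option autoImplicit false

namespace SC

open Classical

/-- the configuration open exactly on `K` -/
def cfgOf (K : Finset Pt) : Cfg := fun v => decide (v ∈ K)

/-- disjoint occurrence of increasing events -/
def DO (A B : Cfg → Prop) (ω : Cfg) : Prop :=
  ∃ K L : Finset Pt, Disjoint K L ∧ (∀ v ∈ K, ω v = true) ∧ (∀ v ∈ L, ω v = true) ∧
    A (cfgOf K) ∧ B (cfgOf L)

private theorem pc_inter {A : Cfg → Prop} {F : Finset Pt} (hA : Dep A (F : Set Pt))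
    (K : Finset Pt) : A (cfgOf (K ∩ F)) = A (cfgOf K) := by
  refine hA _ _ fun v hv => ?_
  have hv' : v ∈ F := Finset.mem_coe.1 hv
  unfold cfgOf
  simp [hv']

private theorem pc_dep_aux {A B : Cfg → Prop} {F : Finset Pt} (hA : Dep A (F : Set Pt))
    (hB : Dep B (F : Set Pt)) {ω ω' : Cfg} (h : ∀ v ∈ (F : Set Pt), ω v = ω' v)
    (hD : DO A B ω) : DO A B ω' := by
  obtain ⟨K, L, hKL, hK, hL, hAK, hBL⟩ := hD
  refine ⟨K ∩ F, L ∩ F, ?_, ?_, ?_, ?_, ?_⟩
  · exact hKL.mono Finset.inter_subset_left Finset.inter_subset_left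
  · intro v hv
    rw [Finset.mem_inter] at hv
    rw [← h v (Finset.mem_coe.2 hv.2)]
    exact hK v hv.1
  · intro v hv
    rw [Finset.mem_inter] at hv
    rw [← h v (Finset.mem_coe.2 hv.2)]
    exact hL v hv.1
  · rw [pc_inter hA]; exact hAK
  · rw [pc_inter hB]; exact hBL

private theorem pc_dep {A B : Cfg → Prop} {F : Finset Pt} (hA : Dep A (F : Set Pt))
    (hB : Dep B (F : Set Pt)) : Dep (DO A B) (F : Set Pt) := by
  intro ω ω' h
  exact propext ⟨pc_dep_aux hA hB h, pc_dep_aux hA hB fun v hv => (h v hv).symm⟩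

theorem DO.loc {A B : Cfg → Prop} (hA : Inc A) (hB : Inc B) (lA : Loc A) (lB : Loc B) :
    Loc (DO A B) := by
  obtain ⟨F, hF⟩ := lA
  obtain ⟨F', hF'⟩ := lB
  refine ⟨F ∪ F', pc_dep (hF.mono ?_) (hF'.mono ?_)⟩
  · rw [Finset.coe_union]; exact Set.subset_union_left
  · rw [Finset.coe_union]; exact Set.subset_union_right

/-- number of the subsets of `F` with `A` -/
private noncomputable def pcN (F : Finset Pt) (A : Finset Pt → Prop) : ℕ :=
  (F.powerset.filter A).card

/-- disjoint occurrence for families of finite sets -/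
private def pcB (A B : Finset Pt → Prop) (S : Finset Pt) : Prop :=
  ∃ K L : Finset Pt, K ⊆ S ∧ L ⊆ S ∧ Disjoint K L ∧ A K ∧ B L

private theorem pcN_mono {F : Finset Pt} {A B : Finset Pt → Prop}
    (h : ∀ S ⊆ F, A S → B S) : pcN F A ≤ pcN F B := by
  refine Finset.card_le_card fun S hS => ?_
  rw [Finset.mem_filter, Finset.mem_powerset] at hS ⊢
  exact ⟨hS.1, h S hS.1 hS.2⟩

private theorem pcN_insert {x : Pt} {F : Finset Pt} (hx : x ∉ F) (A : Finset Pt → Prop) :
    pcN (insert x F) A = pcN F A + pcN F fun S => A (insert x S) := by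
  unfold pcN
  rw [Finset.card_filter, Finset.card_filter, Finset.card_filter,
    Finset.sum_powerset_insert hx]

private theorem pcN_or (F : Finset Pt) (A B : Finset Pt → Prop) :
    pcN F (fun S => A S ∨ B S) + pcN F (fun S => A S ∧ B S) = pcN F A + pcN F B := by
  have e1 : pcN F (fun S => A S ∨ B S) =
      (F.powerset.filter A ∪ F.powerset.filter B).card := by
    unfold pcN
    congr 1
    ext S
    simp only [Finset.mem_filter, Finset.mem_union]
    tauto
  have e2 : pcN F (fun S => A S ∧ B S) =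
      (F.powerset.filter A ∩ F.powerset.filter B).card := by
    unfold pcN
    congr 1
    ext S
    simp only [Finset.mem_filter, Finset.mem_inter]
    tauto
  rw [e1, e2, Finset.card_union_add_card_inter]
  rfl

private theorem pc_insert_erase {x : Pt} {K S : Finset Pt} (h : K ⊆ insert x S) :
    K.erase x ⊆ S := by
  intro v hv
  rw [Finset.mem_erase] at hv
  rcases Finset.mem_insert.1 (h hv.2) with h1 | h1
  · exact absurd h1 hv.1
  · exact h1

private theorem pc_sub {x : Pt} {K S : Finset Pt} (h : K ⊆ insert x S) (hx : x ∉ K) :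
    K ⊆ S := by
  intro v hv
  rcases Finset.mem_insert.1 (h hv) with h1 | h1
  · subst h1; exact absurd hv hx
  · exact h1

private theorem pc_key (F : Finset Pt) : ∀ A B : Finset Pt → Prop,
    (∀ S T, S ⊆ T → A S → A T) → (∀ S T, S ⊆ T → B S → B T) →
    pcN F (pcB A B) * 2 ^ F.card ≤ pcN F A * pcN F B := by
  induction F using Finset.induction_on with
  | empty =>
    intro A B hA hB
    have h1 : ∀ C : Finset Pt → Prop, pcN ∅ C = if C ∅ then 1 else 0 := by
      intro C
      unfold pcN
      rw [Finset.card_filter, Finset.powerset_empty, Finset.sum_singleton]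
    rw [h1, h1, h1]
    by_cases h : pcB A B ∅
    · obtain ⟨K, L, hK, hL, -, hAK, hBL⟩ := h
      rw [if_pos (hA K ∅ hK hAK), if_pos (hB L ∅ hL hBL)]
      split_ifs <;> simp
    · rw [if_neg h]
      simp
  | insert x F hx ih =>
    intro A B hA hB
    have hA1 : ∀ S T : Finset Pt, S ⊆ T → A (insert x S) → A (insert x T) := fun S T h =>
      hA _ _ (Finset.insert_subset_insert _ h)
    have hB1 : ∀ S T : Finset Pt, S ⊆ T → B (insert x S) → B (insert x T) := fun S T h =>
      hB _ _ (Finset.insert_subset_insert _ h)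
    have h1 := ih (fun S => A (insert x S)) B hA1 hB
    have h2 := ih A (fun S => B (insert x S)) hA hB1
    have h3 := pcN_or F (pcB (fun S => A (insert x S)) B) (pcB A fun S => B (insert x S))
    have h4 : pcN F (fun S => pcB A B (insert x S)) ≤
        pcN F (fun S => pcB (fun S => A (insert x S)) B S ∨
          pcB A (fun S => B (insert x S)) S) := by
      refine pcN_mono fun S hS => ?_
      rintro ⟨K, L, hK, hL, hKL, hAK, hBL⟩
      by_cases hxK : x ∈ K
      · have hxL : x ∉ L := fun h => (Finset.disjoint_left.1 hKL hxK) h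
        refine Or.inl ⟨K.erase x, L, pc_insert_erase hK, pc_sub hL hxL,
          hKL.mono_left (Finset.erase_subset _ _), ?_, hBL⟩
        show A (insert x (K.erase x))
        rw [Finset.insert_erase hxK]
        exact hAK
      · by_cases hxL : x ∈ L
        · refine Or.inr ⟨K, L.erase x, pc_sub hK hxK, pc_insert_erase hL,
            hKL.mono_right (Finset.erase_subset _ _), hAK, ?_⟩
          show B (insert x (L.erase x))
          rw [Finset.insert_erase hxL]
          exact hBL
        · exact Or.inl ⟨K, L, pc_sub hK hxK, pc_sub hL hxL, hKL,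
            hA _ _ (Finset.subset_insert _ _) hAK, hBL⟩
    have h5 : pcN F (pcB A B) ≤
        pcN F (fun S => pcB (fun S => A (insert x S)) B S ∧
          pcB A (fun S => B (insert x S)) S) := by
      refine pcN_mono fun S hS => ?_
      rintro ⟨K, L, hK, hL, hKL, hAK, hBL⟩
      exact ⟨⟨K, L, hK, hL, hKL, hA _ _ (Finset.subset_insert _ _) hAK, hBL⟩,
        ⟨K, L, hK, hL, hKL, hAK, hB _ _ (Finset.subset_insert _ _) hBL⟩⟩
    have h6 : pcN F A ≤ pcN F (fun S => A (insert x S)) :=
      pcN_mono fun S _ h => hA _ _ (Finset.subset_insert _ _) h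
    have h7 : pcN F B ≤ pcN F (fun S => B (insert x S)) :=
      pcN_mono fun S _ h => hB _ _ (Finset.subset_insert _ _) h
    rw [pcN_insert hx, pcN_insert hx, pcN_insert hx, Finset.card_insert_of_notMem hx, pow_succ]
    generalize pcN F (fun S => A (insert x S)) = a1 at *
    generalize pcN F (fun S => B (insert x S)) = b1 at *
    generalize pcN F A = a0 at *
    generalize pcN F B = b0 at *
    generalize (2 : ℕ) ^ F.card = n at *
    obtain ⟨a, rfl⟩ := Nat.exists_eq_add_of_le h6
    obtain ⟨b, rfl⟩ := Nat.exists_eq_add_of_le h7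
    have h8 : pcN F (pcB A B) + pcN F (fun S => pcB A B (insert x S)) ≤
        pcN F (pcB (fun S => A (insert x S)) B) + pcN F (pcB A fun S => B (insert x S)) := by
      omega
    have h9 := Nat.mul_le_mul_right n h8
    nlinarith [h9, h1, h2, Nat.zero_le (a * b)]

private theorem pc_ovr {F S : Finset Pt} (h : S ⊆ F) : ovr F S (fun _ => false) = cfgOf S := by
  funext v
  unfold ovr cfgOf
  by_cases hv : v ∈ F
  · rw [if_pos hv]
  · rw [if_neg hv]
    have : v ∉ S := fun h' => hv (h h')
    simp [this]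

private theorem pc_pr {A : Cfg → Prop} {F : Finset Pt} (hA : Dep A (F : Set Pt)) :
    pr A = (pcN F fun S => A (cfgOf S) : ℕ) / 2 ^ F.card := by
  unfold pr
  rw [ex_eq hA.ind (fun _ => false)]
  unfold av pcN
  congr 1
  rw [Finset.card_filter]
  push_cast
  refine Finset.sum_congr rfl fun S hS => ?_
  rw [pc_ovr (Finset.mem_powerset.1 hS)]
  unfold ind
  rfl

/-- BK inequality.  Let `F` support `A` and `B` (witnesses `K, L` can be intersected with `F`).  For
`V ⊆ F` let `E_V` be the event for two independent configurations `ω, ω'` on `F`: there are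
`K, L ⊆ F` with `K ∩ L ⊆ V`, `ω = 1` on `K`, `ω' = 1` on `L ∩ V`, `ω = 1` on `L \ V`, `A (cfgOf K)`,
`B (cfgOf L)`.  `E_∅` is `DO A B` (a condition on `ω` only) and `E_F` is `A(ω) and B(ω')` (monotone),
of probability `P(A) P(B)`.  Step: `P(E_V) ≤ P(E_{V + x})` for `x ∈ F \ V`.  Fix `ω, ω'` off `x`.
If there are witnesses with `x ∉ K ∪ L`, both events hold for all values at `x`.  Otherwise let `a`:
there are witnesses (for `ω_x = 1`) with `x ∈ K, x ∉ L`, and `b`: with `x ∉ K, x ∈ L`.  `E_V` holds
iff `ω_x = 1` and (`a` or `b`): probability `1/2` or `0`.  `E_{V+x}` holds at least if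
(`ω_x = 1` and `a`) or (`ω'_x = 1` and `b`): probability at least `1/2` if `a` or `b`. -/
theorem bk {A B : Cfg → Prop} (lA : Loc A) (lB : Loc B) (hA : Inc A) (hB : Inc B) :
    pr (DO A B) ≤ pr A * pr B := by
  obtain ⟨F1, hF1⟩ := lA
  obtain ⟨F2, hF2⟩ := lB
  have dA : Dep A ((F1 ∪ F2 : Finset Pt) : Set Pt) := hF1.mono (by
    rw [Finset.coe_union]; exact Set.subset_union_left)
  have dB : Dep B ((F1 ∪ F2 : Finset Pt) : Set Pt) := hF2.mono (by
    rw [Finset.coe_union]; exact Set.subset_union_right)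
  generalize F1 ∪ F2 = F at dA dB
  have hcfg : ∀ S T : Finset Pt, S ⊆ T → ∀ v, cfgOf S v ≤ cfgOf T v := by
    intro S T h v
    unfold cfgOf
    by_cases hv : v ∈ S
    · simp [hv, h hv]
    · simp [hv]
  have key := pc_key F (fun S => A (cfgOf S)) (fun S => B (cfgOf S))
    (fun S T h => hA _ _ (hcfg S T h)) (fun S T h => hB _ _ (hcfg S T h))
  have hD : pcN F (fun S => DO A B (cfgOf S)) ≤
      pcN F (pcB (fun S => A (cfgOf S)) fun S => B (cfgOf S)) := by
    refine pcN_mono fun S _ => ?_
    rintro ⟨K, L, hKL, hK, hL, hAK, hBL⟩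
    refine ⟨K, L, fun v hv => ?_, fun v hv => ?_, hKL, hAK, hBL⟩
    · have := hK v hv
      unfold cfgOf at this
      exact of_decide_eq_true this
    · have := hL v hv
      unfold cfgOf at this
      exact of_decide_eq_true this
  have key2 := (Nat.mul_le_mul_right (2 ^ F.card) hD).trans key
  rw [pc_pr (pc_dep dA dB), pc_pr dA, pc_pr dB, div_mul_div_comm, div_le_div_iff₀ (by positivity)
    (by positivity)]
  have key3 : ((pcN F fun S => DO A B (cfgOf S) : ℕ) : ℝ) * 2 ^ F.card ≤
      (pcN F fun S => A (cfgOf S) : ℕ) * (pcN F fun S => B (cfgOf S) : ℕ) := by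
    exact_mod_cast key2
  have h2 : (0 : ℝ) ≤ 2 ^ F.card := by positivity
  nlinarith [mul_le_mul_of_nonneg_right key3 h2]

end SC
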