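import Pool.Agent.Lib_MP_e0a489.HP2
import Pool.Agent.Lib_MP_e0a489.PC

/-!
# MP_e0a489, module HP 3: probability of the half plane event, upper bound by three arms
-/

set_option autoImplicit false

namespace SC

open Classical

/-- monotone configurations: the same witnesses -/
theorem DO.inc (A B : Cfg → Prop) : Inc (DO A B) := by
  rintro ω ω' h ⟨K, K', h1, h2, h3, h4, h5⟩
  have key : ∀ v, ω v = true → ω' v = true := by
    intro v hv
    have h6 := h v
    rw [hv] at h6
    exact top_le_iff.mp h6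
  exact ⟨K, K', h1, fun v hv => key v (h2 v hv), fun v hv => key v (h3 v hv), h4, h5⟩

private theorem hp3_open {L : Lat} {D : Set Pt} (hD : D.Finite) {ω : Cfg} {x : Pt} :
    {v | L.Cn (D ∩ L.col true ω) x v} ⊆ D ∩ L.col true (cfgOf (hD.toFinset.filter
      (fun v => L.typ v = none ∧ L.Cn (D ∩ L.col true ω) x v))) := by
  intro v hv
  have hv' : L.Cn (D ∩ L.col true ω) x v := hv
  have h1 := hv'.right
  refine ⟨h1.1, ?_⟩
  have h2 : L.st ω v = true := h1.2
  show L.st (cfgOf _) v = true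
  unfold Lat.st at h2 ⊢
  cases h3 : L.typ v with
  | none =>
    show cfgOf _ v = true
    unfold cfgOf
    rw [decide_eq_true_eq, Finset.mem_filter, Set.Finite.mem_toFinset]
    exact ⟨h1.1, h3, hv'⟩
  | some b =>
    rw [h3] at h2
    exact h2

private theorem hp3_true {L : Lat} {D : Set Pt} (hD : D.Finite) {ω : Cfg} {x v : Pt}
    (hv : v ∈ hD.toFinset.filter (fun v => L.typ v = none ∧ L.Cn (D ∩ L.col true ω) x v)) :
    ω v = true := by
  rw [Finset.mem_filter] at hv
  have h2 : L.st ω v = true := hv.2.2.right.2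
  unfold Lat.st at h2
  rw [hv.2.1] at h2
  exact h2

private theorem hp3_fin (H : Set Pt) (r R : ℤ) : (ann r R ∩ H).Finite := by
  have h : ann r R ∩ H ⊆ Set.Icc (-R) R ×ˢ Set.Icc (-R) R := by
    rintro v ⟨⟨-, h1⟩, -⟩
    have h2 : max |v.1| |v.2| ≤ R := h1
    rw [max_le_iff, abs_le, abs_le] at h2
    exact ⟨h2.1, h2.2⟩
  exact ((Set.finite_Icc _ _).prod (Set.finite_Icc _ _)).subset h

namespace Lat

/-- DISJOINT ARMS.  Let `x, y, x', y'` be as in `Two` (colour `true`), `A = D ∩ col true ω`, `P = {v | Cn A x v}`, `P' = {v | Cn A x' v}`: disjoint because `x`, `x'` are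
not joined.  `K` = the fair sites (`L.typ v = none`) of `P`, `K'` = the fair sites of `P'` (finite, subsets of `D`), disjoint.  A fair site of colour `true` has
`ω v = true`.  Every site of `P` has colour `true` for the configuration `cfgOf K`: a fair one is in `K`, for another one the state is the fixed one, as in `ω`.
So `P ⊆ D ∩ col true (cfgOf K)` and `x` is joined to `y` in `P` (`con_cluster`), that is `Arm true D X Y (cfgOf K)`; the same for `K'`. -/
theorem two_do (L : Lat) {D X Y : Set Pt} (hD : D.Finite) {ω : Cfg} (h : L.Two true D X Y ω) :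
    DO (L.Arm true D X Y) (L.Arm true D X Y) ω := by
  obtain ⟨x, hx, y, hy, x', hx', y', hy', h1, h2, h3⟩ := h
  refine ⟨hD.toFinset.filter (fun v => L.typ v = none ∧ L.Cn (D ∩ L.col true ω) x v),
    hD.toFinset.filter (fun v => L.typ v = none ∧ L.Cn (D ∩ L.col true ω) x' v), ?_,
    fun v hv => hp3_true hD hv, fun v hv => hp3_true hD hv, ?_, ?_⟩
  · rw [Finset.disjoint_left]
    intro v hv hv'
    exact h3 ((Finset.mem_filter.1 hv).2.2.trans (Finset.mem_filter.1 hv').2.2.symm)
  · exact ⟨x, hx, y, hy, (con_cluster (D ∩ L.col true ω) x x (Cn.refl h1.left) y h1).mono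
      (hp3_open hD)⟩
  · exact ⟨x', hx', y', hy', (con_cluster (D ∩ L.col true ω) x' x' (Cn.refl h2.left) y' h2).mono
      (hp3_open hD)⟩

/-- `Two.loc`; `ann r R` is contained in a finite rectangle -/
theorem TwoH.loc (L : Lat) (c : Bool) (H : Set Pt) (r R : ℤ) : Loc (L.TwoH c H r R) :=
  Two.loc L c _ _ _ (hp3_fin H r R)

private theorem hp3_aux (L : Lat) {H : Set Pt} {r R : ℤ} (hr : 1 ≤ r) (hR : r < R)
    (hH : HalfLike H) :
    pr (L.TwoH true H r R) ≤ pr (L.Arm true (ann r R ∩ H) (L.nb (bx r)) (rng R)) ^ 2 *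
      pr (L.Arm false (ann r R ∩ H) (L.nb (bx r)) (rng R)) := by
  have hf := hp3_fin H r R
  have lA := Arm.loc L true (ann r R ∩ H) (L.nb (bx r)) (rng R) hf
  have lB := Arm.loc L false (ann r R ∩ H) (L.nb (bx r)) (rng R) hf
  have mA : Inc (L.Arm true (ann r R ∩ H) (L.nb (bx r)) (rng R)) := Arm.mon L true _ _ _
  have mB : Dec (L.Arm false (ann r R ∩ H) (L.nb (bx r)) (rng R)) := Arm.mon L false _ _ _
  have lD := DO.loc mA mA lA lA
  have h1 : pr (L.TwoH true H r R) ≤ pr (fun ω =>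
      DO (L.Arm true (ann r R ∩ H) (L.nb (bx r)) (rng R))
        (L.Arm true (ann r R ∩ H) (L.nb (bx r)) (rng R)) ω ∧
      L.Arm false (ann r R ∩ H) (L.nb (bx r)) (rng R) ω) := by
    refine pr_mono (TwoH.loc L true H r R) (lD.and lB) fun ω hω => ⟨two_do L hf hω, ?_⟩
    obtain ⟨i₁, i₂, i₃, x₁, hx₁, x₂, hx₂, x₃, hx₃, -, -, -, -, -, h2, -⟩ :=
      TwoH_three hr hR hH hω
    exact ⟨x₂, hx₂, rc R i₂, rc_nrm (by omega), h2⟩
  have h2 := pr_harris_neg lD lB (DO.inc _ _) mB
  have h3 := bk lA lA mA mA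
  have h4 := mul_le_mul_of_nonneg_right h3
    (pr_nonneg (L.Arm false (ann r R ∩ H) (L.nb (bx r)) (rng R)))
  rw [sq]
  exact h1.trans (h2.trans h4)

private theorem hp3_sw (L : Lat) (c : Bool) {D : Set Pt} (hD : D.Finite) (X Y : Set Pt) :
    pr (L.sw.Arm c D X Y) = pr (L.Arm (!c) D X Y) := by
  rw [← pr_flip (Arm.loc L.sw c D X Y hD)]
  congr 1
  funext ω
  exact propext (sw_arm L c D X Y ω)

/-- Colour `true`: `TwoH ω` implies `DO (Arm true) (Arm true) ω` (`two_do`) and `Arm false` in the same domain (`TwoH_three`); `DO` is increasing, `Arm false` decreasing: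
`pr_harris_neg` and `bk`.
Colour `false`: `L.Two false D X Y ω ↔ L.sw.Two true D X Y (fun v => ! ω v)` (`sw_two`), `L.sw.nb = L.nb`, so `pr (L.TwoH false ..) = pr (L.sw.TwoH true ..)`
(`pr_flip`), and in the same way (`sw_arm`) `pr (L.sw.Arm c D X Y) = pr (L.Arm (!c) D X Y)`. -/
theorem pr_twoH_le (L : Lat) (c : Bool) {H : Set Pt} {r R : ℤ} (hr : 1 ≤ r) (hR : r < R)
    (hH : HalfLike H) :
    pr (L.TwoH c H r R) ≤ pr (L.Arm c (ann r R ∩ H) (L.nb (bx r)) (rng R)) ^ 2 *
      pr (L.Arm (!c) (ann r R ∩ H) (L.nb (bx r)) (rng R)) := by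
  cases c with
  | true => exact hp3_aux L hr hR hH
  | false =>
    have hf := hp3_fin H r R
    have h1 := hp3_aux L.sw hr hR hH
    have h2 : pr (L.sw.TwoH true H r R) = pr (L.TwoH false H r R) := by
      rw [← pr_flip (TwoH.loc L.sw true H r R)]
      congr 1
      funext ω
      exact propext (sw_two L true (ann r R ∩ H) (L.nb (bx r)) (rng R) ω)
    have h3 := hp3_sw L true hf (L.nb (bx r)) (rng R)
    have h4 := hp3_sw L false hf (L.nb (bx r)) (rng R)
    rw [h2] at h1
    have h5 : L.sw.nb (bx r) = L.nb (bx r) := rfl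
    rw [h5, h3, h4] at h1
    exact h1

end Lat

end SC
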