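import Pool.Agent.Lib_MP_e0a489.HP2
import Pool.Agent.Lib_MP_e0a489.SE1

/-!
# MP_e0a489, module HP 5: half plane event and one arm below the line give the four arm event
-/

set_option autoImplicit false

namespace SC

open Classical

namespace Lat

variable {L : Lat}

/-- DETERMINISTIC INCLUSION.  `TwoH_three`: `i₁ < i₂ < i₃` in `[0, 4 R]`, `x₁, x₂, x₃`.  The arm below the line ends at `rc R i₄`, `4 R < i₄ < 8 R` (`rc_of_low`), and starts at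
`x₄ ∈ nb (bx r)`.  The two arms for `TwoA` are `x₁, rc R i₁` and `x₃, rc R i₃` (`Cn.mono`).  Suppose `Cn (ann r R ∩ col c ω) x₁ x₃`.  Then
`P = {v | Cn (ann r R ∩ col c ω) x₁ v}` is connected (`con_cluster`) and contains `rc R i₁`, `rc R i₃`.  Let
`P' = bx r ∪ {v | Cn (ann r R ∩ H ∩ col (!c) ω) x₂ v} ∪ {v | Cn (ann r R ∩ {v.2 ≤ -1} ∩ col (!c) ω) x₄ v}`, connected (`con_bx`, `Con.union_adj` twice), containing `rc R i₂`,
`rc R i₄`.  Both are in `bx R`.  `interlace_rc` (`i₄ < 8 R ≤ i₁ + 8 R`): a common site.  But the sites of `P` have colour `c` and norm `> r`, those of `P'` have colour `!c`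
or norm `≤ r`. -/
theorem TwoH_low {c : Bool} {H : Set Pt} {r R : ℤ} {ω : Cfg} (hr : 1 ≤ r) (hR : r < R)
    (hH : HalfLike H) (h : L.TwoH c H r R ω)
    (h' : L.Arm (!c) (ann r R ∩ {v | v.2 ≤ -1}) (L.nb (bx r)) (rng R) ω) :
    L.TwoA c r R ω := by
  have hR1 : 1 ≤ R := by omega
  obtain ⟨i₁, i₂, i₃, x₁, hx₁, x₂, hx₂, x₃, hx₃, h0, h12, h23, h34, c1, c2, c3, hn⟩ :=
    TwoH_three hr hR hH h
  obtain ⟨x₄, hx₄, y₄, hy₄, c4⟩ := h'
  obtain ⟨i₄, h41, h42, rfl⟩ := rc_of_low hR1 hy₄ c4.right.1.2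
  have hsub : ann r R ∩ H ∩ L.col c ω ⊆ ann r R ∩ L.col c ω := fun v hv => ⟨hv.1.1, hv.2⟩
  refine ⟨x₁, hx₁, rc R i₁, rc_nrm hR1, x₃, hx₃, rc R i₃, rc_nrm hR1, c1.mono hsub, c3.mono hsub,
    fun hcon => ?_⟩
  obtain ⟨u₂, hu₂, a₂⟩ := hx₂
  obtain ⟨u₄, hu₄, a₄⟩ := hx₄
  have hP' : L.Con ((bx r ∪ {v | L.Cn (ann r R ∩ H ∩ L.col (!c) ω) x₂ v}) ∪
      {v | L.Cn (ann r R ∩ {v | v.2 ≤ -1} ∩ L.col (!c) ω) x₄ v}) :=
    Con.union_adj (Con.union_adj (con_bx r) (con_cluster _ _) hu₂ (Cn.refl c2.left) a₂)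
      (con_cluster _ _) (Or.inl hu₄) (Cn.refl c4.left) a₄
  have hbx : bx r ⊆ bx R := fun v hv => le_trans hv hR.le
  obtain ⟨z, hz, hz'⟩ := interlace_rc (L := L) hR1
    (P := {v | L.Cn (ann r R ∩ L.col c ω) x₁ v}) (con_cluster _ _) hP'
    (fun v hv => (Cn.right hv).1.2) (by
      rintro v ((hv | hv) | hv)
      · exact hbx hv
      · exact (Cn.right hv).1.1.2
      · exact (Cn.right hv).1.1.2)
    h12 h23 (by omega : i₃ < i₄) (by omega) (c1.mono hsub) (hcon.trans (c3.mono hsub))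
    (Or.inl (Or.inr c2)) (Or.inr c4)
  have hzr := Cn.right hz
  have hcol : z ∈ L.col (!c) ω → False := by
    intro h1
    have h3 : L.st ω z = !c := h1
    have h4 : L.st ω z = c := hzr.2
    rw [h4] at h3
    revert h3
    cases c <;> decide
  rcases hz' with (h5 | h5) | h5
  · have h6 : nrm z ≤ r := h5
    have h7 : r < nrm z := hzr.1.1
    omega
  · exact hcol (Cn.right h5).2
  · exact hcol (Cn.right h5).2

private theorem hp5_fin (H : Set Pt) (r R : ℤ) : (ann r R ∩ H).Finite := by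
  have h : ann r R ∩ H ⊆ Set.Icc (-R) R ×ˢ Set.Icc (-R) R := by
    rintro v ⟨⟨-, h1⟩, -⟩
    have h2 : max |v.1| |v.2| ≤ R := h1
    rw [max_le_iff, abs_le, abs_le] at h2
    exact ⟨h2.1, h2.2⟩
  exact ((Set.finite_Icc _ _).prod (Set.finite_Icc _ _)).subset h

private theorem hp5_loc (L : Lat) (c : Bool) (r R : ℤ) : Loc (L.TwoA c r R) := by
  have h := hp5_fin Set.univ r R
  rw [Set.inter_univ] at h
  exact Two.loc L c _ _ _ h

private theorem hp5_disj {H : Set Pt} {r R : ℤ} (hH : HalfLike H) :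
    ∀ v ∈ ann r R ∩ H, v ∉ ann r R ∩ {v : Pt | v.2 ≤ -1} := by
  rintro v ⟨-, h1⟩ ⟨-, h2⟩
  have h3 : 0 ≤ v.2 := hH.2 h1
  have h4 : v.2 ≤ -1 := h2
  omega

/-- `pr_and` (the two events depend on `ann r R ∩ H ⊆ {0 ≤ v.2}` and on `{v.2 ≤ -1}`), `TwoH_low`, `pr_mono` -/
theorem pr_half_low (L : Lat) (c : Bool) {H : Set Pt} {r R : ℤ} (hr : 1 ≤ r) (hR : r < R)
    (hH : HalfLike H) :
    pr (L.TwoH c H r R) *
      pr (L.Arm (!c) (ann r R ∩ {v | v.2 ≤ -1}) (L.nb (bx r)) (rng R)) ≤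
      pr (L.TwoA c r R) := by
  have dA : Dep (L.TwoH c H r R) (ann r R ∩ H) := Two.dep L c _ _ _
  have dB : Dep (L.Arm (!c) (ann r R ∩ {v | v.2 ≤ -1}) (L.nb (bx r)) (rng R))
      (ann r R ∩ {v | v.2 ≤ -1}) := Arm.dep L (!c) _ _ _
  have lA : Loc (L.TwoH c H r R) := Two.loc L c _ _ _ (hp5_fin H r R)
  have lB : Loc (L.Arm (!c) (ann r R ∩ {v | v.2 ≤ -1}) (L.nb (bx r)) (rng R)) :=
    Arm.loc L (!c) _ _ _ (hp5_fin _ r R)
  rw [← pr_and lA lB dA dB (hp5_disj hH)]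
  exact pr_mono (lA.and lB) (hp5_loc L c r R) fun ω hω => TwoH_low hr hR hH hω.1 hω.2

/-- the same for pairs of configurations: `pr2_and`, `pr2_mono` -/
theorem pr2_half_low (L : Lat) (c : Bool) {H : Set Pt} {r R : ℤ} (hr : 1 ≤ r) (hR : r < R)
    (hH : HalfLike H) {k : Pt → ℝ} (hk : Kap k) :
    pr2 k (L.TwoH c H r R) *
      pr2 k (L.Arm (!c) (ann r R ∩ {v | v.2 ≤ -1}) (L.nb (bx r)) (rng R)) ≤
      pr2 k (L.TwoA c r R) := by
  have dA : Dep (L.TwoH c H r R) (ann r R ∩ H) := Two.dep L c _ _ _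
  have dB : Dep (L.Arm (!c) (ann r R ∩ {v | v.2 ≤ -1}) (L.nb (bx r)) (rng R))
      (ann r R ∩ {v | v.2 ≤ -1}) := Arm.dep L (!c) _ _ _
  have lA : Loc (L.TwoH c H r R) := Two.loc L c _ _ _ (hp5_fin H r R)
  have lB : Loc (L.Arm (!c) (ann r R ∩ {v | v.2 ≤ -1}) (L.nb (bx r)) (rng R)) :=
    Arm.loc L (!c) _ _ _ (hp5_fin _ r R)
  rw [← pr2_and lA lB dA dB (hp5_disj hH) k]
  exact pr2_mono (lA.and lB) (hp5_loc L c r R) hk fun ω hω => TwoH_low hr hR hH hω.1 hω.2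

end Lat

end SC
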