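import Pool.Agent.Lib_MP_e0a489.Defs2

/-!
# MP_e0a489, module TT: definitions
-/

set_option autoImplicit false

namespace SC

open Classical

/-- The lattice `L` can be made pivotal at the origin by a fixed configuration `ξ` of the other sites of
`bx m`: every site of colour `cs s` (open for `s` even, closed for `s` odd) in the middle part of side
`s` of the ring `m + 1` is joined in this colour, in `bx (m+1)` minus the origin, to a neighbour of the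
origin. -/
def CoreOK (L : Lat) (m : ℤ) : Prop :=
  L.typ 0 = none ∧ ∃ ξ : Cfg, ∀ ω : Cfg, (∀ v ∈ bx m, v ≠ 0 → ω v = ξ v) →
    ∀ (c : Bool) (s y : ℤ), (s = dc c ∨ s = dc c + 2) → 2 * |y| ≤ m →
      rt s (m + 1, y) ∈ L.col c ω →
      ∃ z, L.Adj 0 z ∧ L.Cn ((bx (m + 1) \ {0}) ∩ L.col c ω) (rt s (m + 1, y)) z

/-- `t ≥ 1 / (ℓ² α(ℓ))` (`al` from radius `R₀`) -/
def Beyond (L : Lat) (R₀ ℓ : ℤ) (t : ℝ) : Prop := 1 ≤ t * ((ℓ : ℝ) ^ 2 * al L R₀ ℓ)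

/-- two-time four arm probability (`1` if the annulus is empty) -/
noncomputable def be (L : Lat) (t : ℝ) (r R : ℤ) : ℝ :=
  if r < R then pr2 (kt t) (L.TwoA true r R) else 1

/-- two-time bound beyond the correlation length, bulk -/
def BulkOK (L : Lat) (M : ℝ) (Λ R₀ : ℤ) : Prop :=
  ∀ (ℓ : ℤ) (t : ℝ), R₀ ≤ ℓ → Beyond L R₀ ℓ t → ∀ (c : Bool) (x : Pt) (r R : ℤ),
    Λ * ℓ ≤ r → r ≤ R → pr2 (kt t) (L.TwoAt c x r R) ≤ M * (al L r R) ^ 2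

/-- half plane -/
def HalfOK (L : Lat) (M : ℝ) (Λ R₀ : ℤ) : Prop :=
  ∀ (ℓ : ℤ) (t : ℝ), R₀ ≤ ℓ → Beyond L R₀ ℓ t → ∀ (s : ℤ) (c : Bool) (x : Pt)
    (H : Set Pt) (r R : ℤ), HalfLike H → Λ * ℓ ≤ r → r ≤ R →
      pr2 (kt t) (((L.rots s).shift x).TwoH c H r R) ≤ M * (al L r R) ^ ((3 : ℝ) / 2)

/-- corner -/
def QuartOK (L : Lat) (M : ℝ) (Λ R₀ : ℤ) : Prop :=
  ∀ (ℓ : ℤ) (t : ℝ), R₀ ≤ ℓ → Beyond L R₀ ℓ t → ∀ (s : ℤ) (x : Pt) (H : Set Pt)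
    (r R : ℤ), QuartLike H → Λ * ℓ ≤ r → r ≤ R →
      pr2 (kt t) (((L.rots s).shift x).TwoQ H r R) ≤ M * al L r R

/-- TWO-TIME BOUNDS.  `M`, `Λ`, `R₀` depend on `L`. -/
structure TTProps (L : Lat) (M : ℝ) (Λ R₀ : ℤ) : Prop where
  bulk : ∀ (ℓ : ℤ) (t : ℝ), R₀ ≤ ℓ → Beyond L R₀ ℓ t → ∀ (c : Bool) (x : Pt) (r R : ℤ),
    Λ * ℓ ≤ r → r ≤ R → pr2 (kt t) (L.TwoAt c x r R) ≤ M * (al L r R) ^ 2
  half : ∀ (ℓ : ℤ) (t : ℝ), R₀ ≤ ℓ → Beyond L R₀ ℓ t → ∀ (s : ℤ) (c : Bool) (x : Pt)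
    (H : Set Pt) (r R : ℤ), HalfLike H → Λ * ℓ ≤ r → r ≤ R →
      pr2 (kt t) (((L.rots s).shift x).TwoH c H r R) ≤ M * (al L r R) ^ ((3 : ℝ) / 2)
  quart : ∀ (ℓ : ℤ) (t : ℝ), R₀ ≤ ℓ → Beyond L R₀ ℓ t → ∀ (s : ℤ) (x : Pt) (H : Set Pt)
    (r R : ℤ), QuartLike H → Λ * ℓ ≤ r → r ≤ R →
      pr2 (kt t) (((L.rots s).shift x).TwoQ H r R) ≤ M * al L r R

/-- BEYOND THE CORRELATION LENGTH the four arm event at both times has an exponent larger than two, uniformly: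
`C`, `c` do not depend on `ℓ`, `t`. -/
def KBOK (L : Lat) (C c : ℝ) (R₀ : ℤ) : Prop :=
  ∀ (ℓ : ℤ) (t : ℝ), R₀ ≤ ℓ → Beyond L R₀ ℓ t → ∀ (b : Bool) (x : Pt) (r R : ℤ),
    ℓ ≤ r → r ≤ R → pr2 (kt t) (L.TwoAt b x r R) ≤ C * ((r : ℝ) / R) ^ (2 + c)

end SC
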