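import Pool.Agent.Lib_MP_e0a489.PF1
import Pool.Agent.Lib_MP_e0a489.TE3
import Pool.Agent.Lib_MP_e0a489.TTD
import Pool.Agent.Lib_MP_e0a489.XPD

/-!
# MP_e0a489, module TTH: definitions (half plane and corner, two times)
-/

set_option autoImplicit false

namespace SC

open Classical

/-- BEYOND THE CORRELATION LENGTH, half plane: the exponent is larger than one, uniformly (`C`, `c` do not
depend on `ℓ`, `t`). -/
def KBHOK (L : Lat) (C c : ℝ) (R₀ : ℤ) : Prop :=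
  ∀ (ℓ : ℤ) (t : ℝ), R₀ ≤ ℓ → Beyond L R₀ ℓ t → ∀ (s : ℤ) (b : Bool) (x : Pt) (H : Set Pt)
    (r R : ℤ), HalfLike H → ℓ ≤ r → r ≤ R →
      pr2 (kt t) (((L.rots s).shift x).TwoH b H r R) ≤ C * ((r : ℝ) / R) ^ (1 + c)

/-- CHANGE OF THE SCALE: for a larger lag `s` there is a suitable smaller length `ℓ'` (the least one with
`Beyond`, and `R₀` if `s` is large). -/
def ScaleOK (L : Lat) (C : ℝ) (R₀ : ℤ) : Prop :=
  ∀ (ℓ : ℤ) (t s : ℝ), R₀ ≤ ℓ → Beyond L R₀ ℓ t → t ≤ s → ∃ ℓ' : ℤ, R₀ ≤ ℓ' ∧ ℓ' ≤ ℓ ∧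
    Beyond L R₀ ℓ' s ∧ s * Real.exp (-(s / 2)) * ((ℓ' : ℝ) ^ 2 * al L R₀ ℓ') ≤ C ∧
    Real.exp (-(s / 2)) * ℓ' ≤ C * (ℓ * (t / s) ^ ((1 : ℝ) / 2)) ∧
    (ℓ' = R₀ ∨ (ℓ' : ℝ) ≤ 2 * (ℓ * (t / s) ^ ((1 : ℝ) / 2)))

namespace Lat

/-- two clusters of colour `c` crossing the annulus around `y` in the domain `Q` -/
def TwoD (L : Lat) (Q : Set Pt) (c : Bool) (y : Pt) (r R : ℤ) (ω : Cfg) : Prop :=
  L.Two c (annAt y r R ∩ Q) (L.nb (bxAt y r)) (rngAt y R) ω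

/-- the local event: two clusters of colour `c` in `Q` around the site `v`, up to distance `D` (always true if
`D ≤ 0`) -/
def LocE (L : Lat) (Q : Set Pt) (c : Bool) (v : Pt) (D : ℤ) (ω : Cfg) : Prop :=
  1 ≤ D → L.TwoD Q c v 0 D ω

end Lat

/-- Abstract form of the crossing events of annuli in a domain `Q` (half plane: `TwoH`; corner: `TwoQ`) and of
the local events around a pivotal site (`W b v D`: `LocE`). -/
structure CrE (Q : Set Pt) (E : ℤ → ℤ → Cfg → Prop) (W : Bool → Pt → ℤ → Cfg → Prop) : Prop where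
  dep : ∀ r R, Dep (E r R) (ann r R ∩ Q)
  mono : ∀ r R r' R' ω, 0 ≤ r → r ≤ r' → r' < R' → R' ≤ R → E r R ω → E r' R' ω
  depW : ∀ b v D, Dep (W b v D) (bxAt v D ∩ Q)
  piv : ∀ r R v D ω, 0 ≤ r → v ∈ Q → r + 1 + D ≤ nrm v → nrm v + D ≤ R → 8 * D ≤ nrm v →
    Piv v (E r R) ω → ∃ b, W b v D ω

/-- graded sets: `2 r (2 - q ^ j) < nrm v ≤ (R / 4) (1 + q ^ j)` -/
noncomputable def ttV (Q : Set Pt) (q : ℝ) (r R : ℤ) (j : ℕ) : Finset Pt :=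
  (rectF (-R) R (-R) R).filter (fun v => v ∈ Q ∧ 2 * (r : ℝ) * (2 - q ^ j) < (nrm v : ℝ) ∧
    (nrm v : ℝ) ≤ (R : ℝ) / 4 * (1 + q ^ j))

/-- shell: `ρ < nrm v ≤ 2 ρ` -/
noncomputable def ttSh (Q : Set Pt) (ρ : ℤ) : Finset Pt :=
  (rectF (-(2 * ρ)) (2 * ρ) (-(2 * ρ)) (2 * ρ)).filter (fun v => v ∈ Q ∧ ρ < nrm v ∧ nrm v ≤ 2 * ρ)

/-- the ratio of the graded sets -/
noncomputable def ttq (ε : ℝ) : ℝ := (2 : ℝ) ^ (-(ε / 8))

/-- radius of the local events in the shell `ρ` at the step `j` -/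
noncomputable def ttR (q : ℝ) (ρ : ℤ) (j : ℕ) : ℤ := ⌊(1 - q) / 8 * q ^ j * ρ⌋

/-- height function (distance from the boundary of the domain `Q`): on each shell there are at most `C ρ` sites of
a given height -/
structure HtOK (Q : Set Pt) (ht : Pt → ℤ) : Prop where
  nonneg : ∀ v ∈ Q, 0 ≤ ht v
  le : ∀ v ∈ Q, ht v ≤ nrm v
  card : ∀ ρ h : ℤ, 1 ≤ ρ → (((ttSh Q ρ).filter (fun v => ht v = h)).card : ℝ) ≤ 10 * ρ

/-- LOCAL BOUND: `s e^{-s} P_s(W b v D) ≤ C₁ e^{-s/2} (ℓ / D) ^ ε (1 / (D d)) (d / D) ^ ε`, `d` = distance from the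
boundary (at most `D`), where `s ≈ 1 / (ℓ² α(ℓ))`. -/
def LocB (L : Lat) (R₀ : ℤ) (Q : Set Pt) (W : Bool → Pt → ℤ → Cfg → Prop) (ht : Pt → ℤ)
    (C₁ C₃ ε : ℝ) : Prop :=
  ∀ (ℓ : ℤ) (s : ℝ), R₀ ≤ ℓ → Beyond L R₀ ℓ s →
    s * Real.exp (-(s / 2)) * ((ℓ : ℝ) ^ 2 * al L R₀ ℓ) ≤ C₃ → ∀ (b : Bool) (v : Pt) (D : ℤ),
    v ∈ Q → 16 * ℓ ≤ D → 8 * D ≤ nrm v →
      s * Real.exp (-s) * pr2 (kt s) (W b v D) ≤ C₁ * (Real.exp (-(s / 2)) * (((ℓ : ℝ) / D) ^ ε *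
        ((D : ℝ) ^ (-1 - ε) * ((min (ht v + 1) D : ℤ) : ℝ) ^ (ε - 1))))

/-- `pr2 κ (E r R)`, and `1` if the annulus is empty -/
noncomputable def crF (E : ℤ → ℤ → Cfg → Prop) (κ : Pt → ℝ) (r R : ℤ) : ℝ :=
  if r < R then pr2 κ (E r R) else 1

/-- two-time probability of the four arm event, `1` if the annulus is empty -/
noncomputable def atF (L : Lat) (t : ℝ) (b : Bool) (y : Pt) (r R : ℤ) : ℝ :=
  if r < R then pr2 (kt t) (L.TwoAt b y r R) else 1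

/-- two-time probability of the half plane event, `1` if the annulus is empty -/
noncomputable def hfF (L : Lat) (t : ℝ) (b : Bool) (H : Set Pt) (r R : ℤ) : ℝ :=
  if r < R then pr2 (kt t) (L.TwoH b H r R) else 1

/-- BEYOND THE CORRELATION LENGTH, probability from the radius `R₀` (consequence of `KBOK`) -/
def LBKOK (L : Lat) (C c : ℝ) (R₀ : ℤ) : Prop :=
  ∀ (ℓ : ℤ) (s : ℝ), R₀ ≤ ℓ → Beyond L R₀ ℓ s → ∀ (b : Bool) (y : Pt) (d : ℤ), ℓ ≤ d →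
    pr2 (kt s) (L.TwoAt b y R₀ d) ≤ C * (al L R₀ ℓ * ((ℓ : ℝ) / d) ^ (2 + c))

end SC
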