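import Pool.Agent.Lib_MP_e0a489.RC1

/-!
# MP_e0a489, module TT, sums over sites and power sums
-/

set_option autoImplicit false

namespace SC

namespace TT

open Classical

/-- The ring of radius `m ≥ 1` has at most `8 m` sites: `rc_surj` (with `a = 0`): it is contained in the image of `rc m` on `[0, 8m)`. -/
theorem ring_card {m : ℤ} (hm : 1 ≤ m) {F : Finset Pt} (hF : ∀ v ∈ F, nrm v = m) :
    (F.card : ℝ) ≤ 8 * (m : ℝ) := by
  have h1 : F ⊆ (Finset.Ico (0 : ℤ) (8 * m)).image (rc m) := by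
    intro v hv
    obtain ⟨i, h0, h8, hi⟩ := rc_surj hm (hF v hv) 0
    exact Finset.mem_image.2 ⟨i, Finset.mem_Ico.2 ⟨h0, by linarith⟩, hi⟩
  have h2 : F.card ≤ (8 * m).toNat := by
    refine (Finset.card_le_card h1).trans (Finset.card_image_le.trans ?_)
    rw [Int.card_Ico]
    simp
  have h3 : ((8 * m).toNat : ℤ) = 8 * m := Int.toNat_of_nonneg (by omega)
  have h4 : (F.card : ℤ) ≤ 8 * m := by
    rw [← h3]
    exact_mod_cast h2
  exact_mod_cast h4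

/-- Sum of a function of the norm over a finite set of sites with norms in `[a, b]`, `1 ≤ a`: fiberwise over the norm
(`Finset.sum_fiberwise_of_maps_to`), `ring_card`. -/
theorem sum_nrm {F : Finset Pt} {a b : ℤ} (ha : 1 ≤ a) (hF : ∀ v ∈ F, a ≤ nrm v ∧ nrm v ≤ b)
    {g : ℤ → ℝ} (hg : ∀ m, a ≤ m → m ≤ b → 0 ≤ g m) :
    ∑ v ∈ F, g (nrm v) ≤ ∑ m ∈ Finset.Icc a b, 8 * (m : ℝ) * g m := by
  have hmap : ∀ v ∈ F, nrm v ∈ Finset.Icc a b := fun v hv => Finset.mem_Icc.2 (hF v hv)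
  rw [← Finset.sum_fiberwise_of_maps_to hmap]
  refine Finset.sum_le_sum (fun m hm => ?_)
  rw [Finset.mem_Icc] at hm
  have h1 : ∑ v ∈ F.filter (fun v => nrm v = m), g (nrm v) =
      ((F.filter (fun v => nrm v = m)).card : ℝ) * g m := by
    rw [Finset.sum_congr rfl (fun v hv => by rw [(Finset.mem_filter.1 hv).2])]
    rw [Finset.sum_const, nsmul_eq_mul]
  rw [h1]
  refine mul_le_mul_of_nonneg_right ?_ (hg m hm.1 hm.2)
  exact ring_card (by linarith [hm.1]) (fun v hv => (Finset.mem_filter.1 hv).2)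

/-- One step, `0 < c ≤ 1`, `m ≥ 1`: `c m ^ (c - 1) ≤ m ^ c - (m - 1) ^ c`, because `(m-1) ^ c = m ^ c (1 - 1/m) ^ c ≤ m ^ c (1 - c / m)`
(`Real.rpow_one_add_le_one_add_mul_self` with `s = -1/m ≥ -1`, `0 ≤ c ≤ 1`). -/
theorem pow_step_up {c : ℝ} (h0 : 0 < c) (h1 : c ≤ 1) {m : ℤ} (hm : 1 ≤ m) :
    c * (m : ℝ) ^ (c - 1) ≤ (m : ℝ) ^ c - ((m : ℝ) - 1) ^ c := by
  have hm' : (1 : ℝ) ≤ (m : ℝ) := by exact_mod_cast hm
  have hm0 : (0 : ℝ) < (m : ℝ) := by linarith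
  have e1 : (m : ℝ) - 1 = (m : ℝ) * (1 + -(1 / (m : ℝ))) := by field_simp; ring
  have h2 : (0 : ℝ) ≤ 1 + -(1 / (m : ℝ)) := by
    have : 1 / (m : ℝ) ≤ 1 := by rw [div_le_one hm0]; exact hm'
    linarith
  have h3 : (1 + -(1 / (m : ℝ))) ^ c ≤ 1 + c * -(1 / (m : ℝ)) :=
    rpow_one_add_le_one_add_mul_self (by linarith) h0.le h1
  have h4 : 0 < (m : ℝ) ^ c := Real.rpow_pos_of_pos hm0 c
  have e2 : ((m : ℝ) - 1) ^ c = (m : ℝ) ^ c * (1 + -(1 / (m : ℝ))) ^ c := by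
    rw [e1, Real.mul_rpow hm0.le h2]
  have e3 : (m : ℝ) ^ (c - 1) = (m : ℝ) ^ c / (m : ℝ) := Real.rpow_sub_one hm0.ne' c
  rw [e2, e3]
  have h5 := mul_le_mul_of_nonneg_left h3 h4.le
  have e4 : (m : ℝ) ^ c * (1 + c * -(1 / (m : ℝ))) =
      (m : ℝ) ^ c - c * ((m : ℝ) ^ c / (m : ℝ)) := by field_simp; ring
  linarith

/-- telescoping sum of `pow_step_up` -/
theorem sum_pow_up {c : ℝ} (h0 : 0 < c) (h1 : c ≤ 1) {n : ℤ} (hn : 0 ≤ n) :
    ∑ m ∈ Finset.Icc 1 n, (m : ℝ) ^ (c - 1) ≤ (n : ℝ) ^ c / c := by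
  have key : ∀ k : ℕ, c * ∑ m ∈ Finset.Icc (1 : ℤ) (k : ℤ), (m : ℝ) ^ (c - 1) ≤ ((k : ℤ) : ℝ) ^ c := by
    intro k
    induction k with
    | zero =>
      simp only [Nat.cast_zero]
      rw [Finset.Icc_eq_empty (by norm_num), Finset.sum_empty, mul_zero]
      exact Real.rpow_nonneg (by norm_num) c
    | succ k ih =>
      have e : Finset.Icc (1 : ℤ) ((k + 1 : ℕ) : ℤ) =
          insert (((k + 1 : ℕ) : ℤ)) (Finset.Icc (1 : ℤ) (k : ℤ)) := by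
        ext i
        simp only [Finset.mem_Icc, Finset.mem_insert]
        push_cast
        omega
      have hn : (((k + 1 : ℕ) : ℤ)) ∉ Finset.Icc (1 : ℤ) (k : ℤ) := by
        simp only [Finset.mem_Icc]
        push_cast
        omega
      rw [e, Finset.sum_insert hn, mul_add]
      have h2 := pow_step_up h0 h1 (m := ((k + 1 : ℕ) : ℤ)) (by push_cast; omega)
      have e2 : ((((k + 1 : ℕ) : ℤ)) : ℝ) - 1 = ((k : ℤ) : ℝ) := by push_cast; ring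
      rw [e2] at h2
      linarith
  obtain ⟨k, rfl⟩ := Int.eq_ofNat_of_zero_le hn
  rw [le_div_iff₀ h0, mul_comm]
  exact key k

/-- One step, `0 < c ≤ 1`, `m ≥ 2`: `c m ^ (-1 - c) ≤ (m - 1) ^ (-c) - m ^ (-c)`: `(m - 1) ^ (-c) = m ^ (-c) (1 - 1/m) ^ (-c) ≥ m ^ (-c) (1 + c / m)`
(Bernoulli for the exponent `-c`: `one_add_mul_self_le_rpow_one_add` needs exponent `≥ 1`; instead `(1 - 1/m) ^ c ≤ 1 - c/m` as above and
`1 / (1 - c/m) ≥ 1 + c/m`). -/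
theorem pow_step_down {c : ℝ} (h0 : 0 < c) (h1 : c ≤ 1) {m : ℤ} (hm : 2 ≤ m) :
    c * (m : ℝ) ^ (-1 - c) ≤ ((m : ℝ) - 1) ^ (-c) - (m : ℝ) ^ (-c) := by
  have hm' : (2 : ℝ) ≤ (m : ℝ) := by exact_mod_cast hm
  have hm0 : (0 : ℝ) < (m : ℝ) := by linarith
  have e1 : (m : ℝ) - 1 = (m : ℝ) * (1 + -(1 / (m : ℝ))) := by field_simp; ring
  have h1m : 1 / (m : ℝ) ≤ 1 / 2 := one_div_le_one_div_of_le (by norm_num) hm'
  have h1m0 : 0 < 1 / (m : ℝ) := by positivity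
  have h2 : (0 : ℝ) < 1 + -(1 / (m : ℝ)) := by linarith
  have h3 : (1 + -(1 / (m : ℝ))) ^ c ≤ 1 + c * -(1 / (m : ℝ)) :=
    rpow_one_add_le_one_add_mul_self (by linarith) h0.le h1
  have h4 : 0 < (m : ℝ) ^ (-c) := Real.rpow_pos_of_pos hm0 _
  have h5 : 0 < (1 + -(1 / (m : ℝ))) ^ c := Real.rpow_pos_of_pos h2 c
  have hcm : c * (1 / (m : ℝ)) ≤ 1 / 2 := by nlinarith
  have h6 : 1 + c * (1 / (m : ℝ)) ≤ ((1 + -(1 / (m : ℝ))) ^ c)⁻¹ := by
    rw [← one_div, le_div_iff₀ h5]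
    have h7 : (1 + c * (1 / (m : ℝ))) * (1 + -(1 / (m : ℝ))) ^ c ≤
        (1 + c * (1 / (m : ℝ))) * (1 + c * -(1 / (m : ℝ))) :=
      mul_le_mul_of_nonneg_left h3 (by positivity)
    nlinarith [sq_nonneg (c * (1 / (m : ℝ)))]
  have e2 : ((m : ℝ) - 1) ^ (-c) = (m : ℝ) ^ (-c) * ((1 + -(1 / (m : ℝ))) ^ c)⁻¹ := by
    rw [e1, Real.mul_rpow hm0.le h2.le, Real.rpow_neg h2.le]
  have e3 : (m : ℝ) ^ (-1 - c) = (m : ℝ) ^ (-c) / (m : ℝ) := by
    have : (-1 - c) = -c - 1 := by ring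
    rw [this, Real.rpow_sub_one hm0.ne']
  rw [e2, e3]
  have h8 := mul_le_mul_of_nonneg_left h6 h4.le
  have e4 : (m : ℝ) ^ (-c) * (1 + c * (1 / (m : ℝ))) =
      (m : ℝ) ^ (-c) + c * ((m : ℝ) ^ (-c) / (m : ℝ)) := by field_simp
  linarith

/-- telescoping sum of `pow_step_down`: for `a ≥ 2`, the sum over `m ≥ a` is at most `(a - 1) ^ (-c) / c` -/
theorem sum_pow_down {c : ℝ} (h0 : 0 < c) (h1 : c ≤ 1) {a n : ℤ} (ha : 2 ≤ a) :
    ∑ m ∈ Finset.Icc a n, (m : ℝ) ^ (-1 - c) ≤ ((a : ℝ) - 1) ^ (-c) / c := by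
  have ha' : (1 : ℝ) ≤ (a : ℝ) - 1 := by
    have : (2 : ℝ) ≤ (a : ℝ) := by exact_mod_cast ha
    linarith
  have key : ∀ k : ℕ, c * ∑ m ∈ Finset.Icc a (a - 1 + (k : ℤ)), (m : ℝ) ^ (-1 - c) ≤
      ((a : ℝ) - 1) ^ (-c) - ((a : ℝ) - 1 + (k : ℝ)) ^ (-c) := by
    intro k
    induction k with
    | zero =>
      simp only [Nat.cast_zero, add_zero]
      rw [Finset.Icc_eq_empty (by omega), Finset.sum_empty]
      simp
    | succ k ih =>
      have e : Finset.Icc a (a - 1 + ((k + 1 : ℕ) : ℤ)) =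
          insert (a - 1 + ((k + 1 : ℕ) : ℤ)) (Finset.Icc a (a - 1 + (k : ℤ))) := by
        ext i
        simp only [Finset.mem_Icc, Finset.mem_insert]
        push_cast
        omega
      have hn : (a - 1 + ((k + 1 : ℕ) : ℤ)) ∉ Finset.Icc a (a - 1 + (k : ℤ)) := by
        simp only [Finset.mem_Icc]
        push_cast
        omega
      rw [e, Finset.sum_insert hn, mul_add]
      have h2 := pow_step_down h0 h1 (m := a - 1 + ((k + 1 : ℕ) : ℤ)) (by push_cast; omega)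
      have e2 : ((a - 1 + ((k + 1 : ℕ) : ℤ) : ℤ) : ℝ) - 1 = (a : ℝ) - 1 + (k : ℝ) := by
        push_cast; ring
      have e3 : ((a - 1 + ((k + 1 : ℕ) : ℤ) : ℤ) : ℝ) = (a : ℝ) - 1 + ((k + 1 : ℕ) : ℝ) := by
        push_cast; ring
      rw [e2] at h2
      rw [e3] at h2 ⊢
      linarith
  rw [le_div_iff₀ h0, mul_comm]
  by_cases hn : a - 1 ≤ n
  · obtain ⟨k, hk⟩ := Int.eq_ofNat_of_zero_le (by linarith : 0 ≤ n - (a - 1))
    have hk' : n = a - 1 + (k : ℤ) := by linarith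
    rw [hk']
    refine (key k).trans ?_
    have : 0 ≤ ((a : ℝ) - 1 + (k : ℝ)) ^ (-c) := Real.rpow_nonneg (by positivity) _
    linarith
  · rw [Finset.Icc_eq_empty (by omega), Finset.sum_empty, mul_zero]
    exact Real.rpow_nonneg (by linarith) _

/-- Number of sites `v ≡ x₀` modulo 2 with `2 nrm v ≤ n`: in each coordinate the integers `u ≡ x` modulo 2 with `|u| ≤ n / 2`, at least
`n / 4` of them (`n ≥ 16`).  So there is a finite set `V` of such sites with at least `n ^ 2 / 16` elements. -/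
theorem class_card (x₀ : Pt) {n : ℤ} (hn : 16 ≤ n) : ∃ V : Finset Pt,
    (∀ v ∈ V, 2 * nrm v ≤ n ∧ ∃ z : Pt, v = (x₀.1 + 2 * z.1, x₀.2 + 2 * z.2)) ∧
      (n : ℝ) ^ 2 / 16 ≤ (V.card : ℝ) := by
  obtain ⟨x, y⟩ := x₀
  obtain ⟨h, hh⟩ : ∃ h, h = n / 2 := ⟨_, rfl⟩
  have inj : Function.Injective (fun z : ℤ × ℤ => ((x + 2 * z.1, y + 2 * z.2) : Pt)) := by
    rintro ⟨a, b⟩ ⟨a', b'⟩ hab
    simp only [Prod.mk.injEq] at hab ⊢
    omega
  refine ⟨((Finset.Icc (-((h + x) / 2)) ((h - x) / 2)) ×ˢ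
    (Finset.Icc (-((h + y) / 2)) ((h - y) / 2))).image
      (fun z : ℤ × ℤ => ((x + 2 * z.1, y + 2 * z.2) : Pt)), ?_, ?_⟩
  · intro v hv
    obtain ⟨⟨i, j⟩, hz, rfl⟩ := Finset.mem_image.1 hv
    rw [Finset.mem_product, Finset.mem_Icc, Finset.mem_Icc] at hz
    obtain ⟨⟨h1, h2⟩, h3, h4⟩ := hz
    simp only at h1 h2 h3 h4
    refine ⟨?_, (i, j), rfl⟩
    have h5 : nrm ((x + 2 * i, y + 2 * j) : Pt) ≤ h := by
      refine max_le (abs_le.2 ⟨?_, ?_⟩) (abs_le.2 ⟨?_, ?_⟩) <;> simp only <;> omega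
    show 2 * nrm ((x + 2 * i, y + 2 * j) : Pt) ≤ n
    omega
  · rw [Finset.card_image_of_injective _ inj, Finset.card_product, Int.card_Icc, Int.card_Icc]
    have h1 : h ≤ ((((h - x) / 2 + 1 - -((h + x) / 2)).toNat : ℕ) : ℤ) := by omega
    have h2 : h ≤ ((((h - y) / 2 + 1 - -((h + y) / 2)).toNat : ℕ) : ℤ) := by omega
    have h3 : (h : ℝ) ≤ ((((h - x) / 2 + 1 - -((h + x) / 2)).toNat : ℕ) : ℝ) := by
      exact_mod_cast h1
    have h4 : (h : ℝ) ≤ ((((h - y) / 2 + 1 - -((h + y) / 2)).toNat : ℕ) : ℝ) := by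
      exact_mod_cast h2
    have h5 : n ≤ 2 * h + 1 := by omega
    have h6 : (n : ℝ) ≤ 2 * (h : ℝ) + 1 := by exact_mod_cast h5
    have h7 : (16 : ℝ) ≤ (n : ℝ) := by exact_mod_cast hn
    have h8 : (n : ℝ) / 4 ≤ (h : ℝ) := by linarith
    push_cast
    have h9 : (0 : ℝ) ≤ (h : ℝ) := by linarith
    calc (n : ℝ) ^ 2 / 16 = ((n : ℝ) / 4) * ((n : ℝ) / 4) := by ring
      _ ≤ (h : ℝ) * (h : ℝ) := mul_le_mul h8 h8 (by linarith) h9
      _ ≤ _ := mul_le_mul h3 h4 h9 (le_trans h9 h3)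

end TT

end SC
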