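import Pool.Agent.Lib_MP_e0a489.Defs2

/-!
# MP_e0a489, module SE 3: rotated rectangles (zones)
-/

set_option autoImplicit false

namespace SC

open Classical

/-- rectangle `[a,b] × [-h,h]` rotated by `90 s` degrees -/
def Zn (s a b h : ℤ) : Set Pt := rt s '' rect a b (-h) h

/-- its two long sides -/
def Zlo (s a b h : ℤ) : Set Pt := rt s '' rect a b (-h) (-h)

def Zhi (s a b h : ℤ) : Set Pt := rt s '' rect a b h h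

theorem J_eq (s R : ℤ) : J s R = Zn s (R + 1) (2 * R) (R / 4) := rfl

theorem Je_eq (s R : ℤ) : Je s R = Zn s (2 * R) (2 * R) (R / 4) := rfl

theorem K_eq (s r : ℤ) : K s r = Zn s (r / 2 + 1) r (r / 8) := rfl

theorem Ks_eq (s r : ℤ) : Ks s r = Zn s (r / 2 + 1) (r / 2 + 1) (r / 8) := rfl

/-- depends only on `s` modulo 4 (`rt_mod`) -/
theorem Zn_mod {s s' : ℤ} (h : s % 4 = s' % 4) (a b w : ℤ) : Zn s a b w = Zn s' a b w := by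
  unfold Zn
  rw [rt_mod h]

/-- membership, direction 0 (`rt_zero`) -/
theorem mem_Zn0 {a b h : ℤ} {v : Pt} :
    v ∈ Zn 0 a b h ↔ a ≤ v.1 ∧ v.1 ≤ b ∧ -h ≤ v.2 ∧ v.2 ≤ h := by
  constructor
  · rintro ⟨p, ⟨⟨h1, h2⟩, h3, h4⟩, rfl⟩
    rw [rt_zero]
    exact ⟨h1, h2, h3, h4⟩
  · rintro ⟨h1, h2, h3, h4⟩
    exact ⟨v, ⟨⟨h1, h2⟩, h3, h4⟩, rt_zero v⟩

/-- direction 1: `rt 1 (x, y) = (-y, x)` -/
theorem mem_Zn1 {a b h : ℤ} {v : Pt} :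
    v ∈ Zn 1 a b h ↔ a ≤ v.2 ∧ v.2 ≤ b ∧ -h ≤ v.1 ∧ v.1 ≤ h := by
  constructor
  · rintro ⟨p, ⟨⟨h1, h2⟩, h3, h4⟩, rfl⟩
    rw [rt_one]
    refine ⟨h1, h2, ?_, ?_⟩ <;> simp only <;> omega
  · rintro ⟨h1, h2, h3, h4⟩
    refine ⟨(v.2, -v.1), ⟨⟨h1, h2⟩, ?_, ?_⟩, ?_⟩
    · simp only; omega
    · simp only; omega
    · rw [rt_one]
      simp only [neg_neg]

theorem mem_Zn2 {a b h : ℤ} {v : Pt} :
    v ∈ Zn 2 a b h ↔ a ≤ -v.1 ∧ -v.1 ≤ b ∧ -h ≤ v.2 ∧ v.2 ≤ h := by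
  constructor
  · rintro ⟨p, ⟨⟨h1, h2⟩, h3, h4⟩, rfl⟩
    rw [rt_two]
    refine ⟨?_, ?_, ?_, ?_⟩ <;> simp only <;> omega
  · rintro ⟨h1, h2, h3, h4⟩
    refine ⟨(-v.1, -v.2), ⟨⟨h1, h2⟩, ?_, ?_⟩, ?_⟩
    · simp only; omega
    · simp only; omega
    · rw [rt_two]
      simp only [neg_neg]

theorem mem_Zn3 {a b h : ℤ} {v : Pt} :
    v ∈ Zn 3 a b h ↔ a ≤ -v.2 ∧ -v.2 ≤ b ∧ -h ≤ v.1 ∧ v.1 ≤ h := by
  constructor
  · rintro ⟨p, ⟨⟨h1, h2⟩, h3, h4⟩, rfl⟩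
    rw [rt_three]
    refine ⟨?_, ?_, ?_, ?_⟩ <;> simp only <;> omega
  · rintro ⟨h1, h2, h3, h4⟩
    refine ⟨(-v.2, v.1), ⟨⟨h1, h2⟩, h3, h4⟩, ?_⟩
    rw [rt_three]
    simp only [neg_neg]

private theorem Zn_cases (s a b h : ℤ) :
    (s % 4 = 0 ∧ Zn s a b h = Zn 0 a b h) ∨ (s % 4 = 1 ∧ Zn s a b h = Zn 1 a b h) ∨
      (s % 4 = 2 ∧ Zn s a b h = Zn 2 a b h) ∨ (s % 4 = 3 ∧ Zn s a b h = Zn 3 a b h) := by
  have h4 : s % 4 = 0 ∨ s % 4 = 1 ∨ s % 4 = 2 ∨ s % 4 = 3 := by omega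
  rcases h4 with h4 | h4 | h4 | h4
  · exact Or.inl ⟨h4, Zn_mod (by omega) _ _ _⟩
  · exact Or.inr (Or.inl ⟨h4, Zn_mod (by omega) _ _ _⟩)
  · exact Or.inr (Or.inr (Or.inl ⟨h4, Zn_mod (by omega) _ _ _⟩))
  · exact Or.inr (Or.inr (Or.inr ⟨h4, Zn_mod (by omega) _ _ _⟩))

theorem Zn_mono {s a b h a' b' h' : ℤ} (ha : a' ≤ a) (hb : b ≤ b') (hh : h ≤ h') :
    Zn s a b h ⊆ Zn s a' b' h' := by
  rintro v ⟨p, ⟨⟨h1, h2⟩, h3, h4⟩, rfl⟩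
  exact ⟨p, ⟨⟨by omega, by omega⟩, by omega, by omega⟩, rfl⟩

/-- If `h ≤ a` the sup norm of `rt s (x, y)` is `x` (`nrm_rt`). -/
theorem Zn_nrm {s a b h : ℤ} (ha : h ≤ a) (hh : 0 ≤ h) {v : Pt} (hv : v ∈ Zn s a b h) :
    a ≤ nrm v ∧ nrm v ≤ b := by
  obtain ⟨p, ⟨⟨h1, h2⟩, h3, h4⟩, rfl⟩ := hv
  rw [nrm_rt]
  unfold nrm
  have h5 : |p.2| ≤ h := abs_le.2 ⟨h3, h4⟩
  have h6 : |p.1| = p.1 := abs_of_nonneg (by omega)
  rw [h6, max_eq_left (by omega)]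
  exact ⟨h1, h2⟩

theorem Zn_finite (s a b h : ℤ) : (Zn s a b h).Finite := by
  refine Set.Finite.image _ ?_
  refine Set.Finite.subset (Finset.finite_toSet (Finset.Icc a b ×ˢ Finset.Icc (-h) h)) ?_
  rintro v ⟨h1, h2⟩
  rw [Finset.mem_coe, Finset.mem_product, Finset.mem_Icc, Finset.mem_Icc]
  exact ⟨h1, h2⟩

/-- Rotated rectangles in different directions are disjoint: reduce `s`, `s'` to `0, 1, 2, 3` (`Zn_mod`), `mem_Zn0` ...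
`mem_Zn3`, `omega`.  (Perpendicular directions: the third hypothesis; opposite directions: `a, a' > 0`.) -/
theorem Zn_disj {s s' a b h a' b' h' : ℤ} (hs : s % 4 ≠ s' % 4) (h1 : h < a) (h2 : h' < a')
    (h3 : h < a' ∨ h' < a) {v : Pt} (hv : v ∈ Zn s a b h) : v ∉ Zn s' a' b' h' := by
  intro hv'
  rcases Zn_cases s a b h with ⟨e1, e2⟩ | ⟨e1, e2⟩ | ⟨e1, e2⟩ | ⟨e1, e2⟩ <;>
  rcases Zn_cases s' a' b' h' with ⟨f1, f2⟩ | ⟨f1, f2⟩ | ⟨f1, f2⟩ | ⟨f1, f2⟩ <;>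
  rw [e2] at hv <;> rw [f2] at hv' <;>
  simp only [mem_Zn0, mem_Zn1, mem_Zn2, mem_Zn3] at hv hv' <;> omega

/-- The parts `{v : 1 ≤ radial coordinate}` of two opposite directions are not adjacent (`Adj.near`). -/
theorem Zn_not_adj {L : Lat} {s a b h a' b' h' : ℤ} (ha : 1 ≤ a) (ha' : 1 ≤ a') {u v : Pt}
    (hu : u ∈ Zn s a b h) (hv : v ∈ Zn (s + 2) a' b' h') : ¬ L.Adj u v := by
  intro hadj
  obtain ⟨n1, n2⟩ := hadj.near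
  rw [abs_le] at n1 n2
  rcases Zn_cases s a b h with ⟨e1, e2⟩ | ⟨e1, e2⟩ | ⟨e1, e2⟩ | ⟨e1, e2⟩ <;>
  rcases Zn_cases (s + 2) a' b' h' with ⟨f1, f2⟩ | ⟨f1, f2⟩ | ⟨f1, f2⟩ | ⟨f1, f2⟩ <;>
  first
  | (exfalso; omega)
  | (rw [e2] at hu
     rw [f2] at hv
     simp only [mem_Zn0, mem_Zn1, mem_Zn2, mem_Zn3] at hu hv
     omega)

/-- transposition maps the direction `s` to the direction `1 - s` -/
theorem Zn_tr (s a b h : ℤ) : (Equiv.prodComm ℤ ℤ) '' Zn s a b h = Zn (1 - s) a b h := by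
  ext v
  rw [Equiv.image_eq_preimage_symm, Set.mem_preimage]
  have hsym : (Equiv.prodComm ℤ ℤ).symm v = (v.2, v.1) := rfl
  rw [hsym]
  rcases Zn_cases s a b h with ⟨e1, e2⟩ | ⟨e1, e2⟩ | ⟨e1, e2⟩ | ⟨e1, e2⟩ <;>
  rcases Zn_cases (1 - s) a b h with ⟨f1, f2⟩ | ⟨f1, f2⟩ | ⟨f1, f2⟩ | ⟨f1, f2⟩ <;>
  first
  | (exfalso; omega)
  | (rw [e2, f2]
     simp only [mem_Zn0, mem_Zn1, mem_Zn2, mem_Zn3])

theorem Jc_tr (c : Bool) (R : ℤ) : (Equiv.prodComm ℤ ℤ) '' Jc c R = Jc (!c) R := by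
  unfold Jc
  rw [Set.image_union, J_eq, J_eq, J_eq, J_eq, Zn_tr, Zn_tr]
  cases c
  · have e1 : Zn (1 - dc false) (R + 1) (2 * R) (R / 4) = Zn (dc (!false)) (R + 1) (2 * R) (R / 4) := Zn_mod (by decide) _ _ _
    have e2 : Zn (1 - (dc false + 2)) (R + 1) (2 * R) (R / 4) = Zn (dc (!false) + 2) (R + 1) (2 * R) (R / 4) := Zn_mod (by decide) _ _ _
    rw [e1, e2]
  · have e1 : Zn (1 - dc true) (R + 1) (2 * R) (R / 4) = Zn (dc (!true)) (R + 1) (2 * R) (R / 4) := Zn_mod (by decide) _ _ _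
    have e2 : Zn (1 - (dc true + 2)) (R + 1) (2 * R) (R / 4) = Zn (dc (!true) + 2) (R + 1) (2 * R) (R / 4) := Zn_mod (by decide) _ _ _
    rw [e1, e2]

theorem Kc_tr (c : Bool) (r : ℤ) : (Equiv.prodComm ℤ ℤ) '' Kc c r = Kc (!c) r := by
  unfold Kc
  rw [Set.image_union, K_eq, K_eq, K_eq, K_eq, Zn_tr, Zn_tr]
  cases c
  · have e1 : Zn (1 - dc false) (r / 2 + 1) r (r / 8) = Zn (dc (!false)) (r / 2 + 1) r (r / 8) := Zn_mod (by decide) _ _ _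
    have e2 : Zn (1 - (dc false + 2)) (r / 2 + 1) r (r / 8) = Zn (dc (!false) + 2) (r / 2 + 1) r (r / 8) := Zn_mod (by decide) _ _ _
    rw [e1, e2]
  · have e1 : Zn (1 - dc true) (r / 2 + 1) r (r / 8) = Zn (dc (!true)) (r / 2 + 1) r (r / 8) := Zn_mod (by decide) _ _ _
    have e2 : Zn (1 - (dc true + 2)) (r / 2 + 1) r (r / 8) = Zn (dc (!true) + 2) (r / 2 + 1) r (r / 8) := Zn_mod (by decide) _ _ _
    rw [e1, e2]

/-- the zones in terms of the norm: `v ∈ Jc c R → R < nrm v ∧ nrm v ≤ 2 R` -/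
theorem Jc_nrm {c : Bool} {R : ℤ} (hR : 0 ≤ R) {v : Pt} (hv : v ∈ Jc c R) :
    R < nrm v ∧ nrm v ≤ 2 * R := by
  rcases hv with hv | hv
  · have := Zn_nrm (s := dc c) (a := R + 1) (b := 2 * R) (h := R / 4) (by omega) (by omega) hv
    omega
  · have := Zn_nrm (s := dc c + 2) (a := R + 1) (b := 2 * R) (h := R / 4) (by omega) (by omega) hv
    omega

theorem Kc_nrm {c : Bool} {r : ℤ} (hr : 0 ≤ r) {v : Pt} (hv : v ∈ Kc c r) :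
    r / 2 < nrm v ∧ nrm v ≤ r := by
  rcases hv with hv | hv
  · have := Zn_nrm (s := dc c) (a := r / 2 + 1) (b := r) (h := r / 8) (by omega) (by omega) hv
    omega
  · have := Zn_nrm (s := dc c + 2) (a := r / 2 + 1) (b := r) (h := r / 8) (by omega) (by omega) hv
    omega

theorem Jc_disj {c : Bool} {R : ℤ} (hR : 0 ≤ R) {v : Pt} (hv : v ∈ Jc c R) : v ∉ Jc (!c) R := by
  have key : ∀ s s' : ℤ, s % 4 ≠ s' % 4 → v ∈ J s R → v ∉ J s' R := fun s s' hs h1 =>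
    Zn_disj hs (by omega) (by omega) (by omega) h1
  rintro (h2 | h2) <;> rcases hv with h1 | h1 <;>
  exact key _ _ (by cases c <;> decide) h1 h2

theorem Kc_disj {c : Bool} {r : ℤ} (hr : 0 ≤ r) {v : Pt} (hv : v ∈ Kc c r) : v ∉ Kc (!c) r := by
  have key : ∀ s s' : ℤ, s % 4 ≠ s' % 4 → v ∈ K s r → v ∉ K s' r := fun s s' hs h1 =>
    Zn_disj hs (by omega) (by omega) (by omega) h1
  rintro (h2 | h2) <;> rcases hv with h1 | h1 <;>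
  exact key _ _ (by cases c <;> decide) h1 h2

/-- finite annulus as a `Finset` -/
theorem exists_annF (a b : ℤ) : ∃ G : Finset Pt, ∀ v, v ∈ G ↔ a < nrm v ∧ nrm v ≤ b := by
  refine ⟨(Finset.Icc (-b) b ×ˢ Finset.Icc (-b) b).filter fun v => a < nrm v ∧ nrm v ≤ b, ?_⟩
  intro v
  rw [Finset.mem_filter, Finset.mem_product, Finset.mem_Icc, Finset.mem_Icc]
  constructor
  · exact fun h => h.2
  · intro h
    have h2 : max |v.1| |v.2| ≤ b := h.2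
    rw [max_le_iff, abs_le, abs_le] at h2
    exact ⟨h2, h⟩

end SC
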