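import Pool.Agent.Lib_MP_e0a489.RC1
import Pool.Agent.Lib_MP_e0a489.SE3
import Pool.Agent.Lib_MP_e0a489.TE3

/-!
# MP_e0a489, module SE 21: the separated event implies the four arm events
-/

set_option autoImplicit false

namespace SC

open Classical

/-- `cross` for two connected sets in `bx m`: one joins the left and the right side, the other one the bottom and the
top. -/
theorem cross_bx {L : Lat} {m : ℤ} {P P' : Set Pt} (hP : L.Con P) (hP' : L.Con P')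
    (hPm : P ⊆ bx m) (hPm' : P' ⊆ bx m) (h1 : ∃ v ∈ P, v.1 = -m) (h2 : ∃ v ∈ P, v.1 = m)
    (h3 : ∃ v ∈ P', v.2 = -m) (h4 : ∃ v ∈ P', v.2 = m) : (P ∩ P').Nonempty := by
  have hb : bx m ⊆ rect (-m) m (-m) m := by
    intro v hv
    have h5 : max |v.1| |v.2| ≤ m := hv
    have h6 := abs_le.1 ((le_max_left _ _).trans h5)
    have h7 := abs_le.1 ((le_max_right _ _).trans h5)
    exact ⟨h6, h7⟩
  exact Lat.cross hP hP' (hPm.trans hb) (hPm'.trans hb) h1 h2 h3 h4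

/-- Sites of `Je s R` are at the end `2 R` of the direction `s`. -/
theorem Je_end {R : ℤ} {v : Pt} : (v ∈ Je 0 R → v.1 = 2 * R) ∧ (v ∈ Je 1 R → v.2 = 2 * R) ∧
    (v ∈ Je 2 R → v.1 = -(2 * R)) ∧ (v ∈ Je 3 R → v.2 = -(2 * R)) := by
  rw [Je_eq, Je_eq, Je_eq, Je_eq, mem_Zn0, mem_Zn1, mem_Zn2, mem_Zn3]
  refine ⟨?_, ?_, ?_, ?_⟩ <;> rintro ⟨h1, h2, -, -⟩ <;> omega

private theorem se21_nrm_tri (u v : Pt) : nrm u ≤ nrm v + nrm (u - v) := by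
  have h1 : |u.1| ≤ |v.1| + |u.1 - v.1| := by
    have h := abs_add_le v.1 (u.1 - v.1)
    rwa [add_sub_cancel] at h
  have h2 : |u.2| ≤ |v.2| + |u.2 - v.2| := by
    have h := abs_add_le v.2 (u.2 - v.2)
    rwa [add_sub_cancel] at h
  show max |u.1| |u.2| ≤ max |v.1| |v.2| + max |u.1 - v.1| |u.2 - v.2|
  have h3 := le_max_left |v.1| |v.2|
  have h4 := le_max_right |v.1| |v.2|
  have h5 := le_max_left |u.1 - v.1| |u.2 - v.2|
  have h6 := le_max_right |u.1 - v.1| |u.2 - v.2|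
  exact max_le (by omega) (by omega)

private theorem se21_nrm_sub_comm (u v : Pt) : nrm (u - v) = nrm (v - u) := by
  show max |u.1 - v.1| |u.2 - v.2| = max |v.1 - u.1| |v.2 - u.2|
  rw [abs_sub_comm u.1, abs_sub_comm u.2]

private theorem se21_nrm_sub_le (u v : Pt) : nrm (u - v) ≤ nrm u + nrm v := by
  have h := se21_nrm_tri (u - v) (-v)
  have e1 : u - v - -v = u := by rw [sub_neg_eq_add, sub_add_cancel]
  have e2 : nrm (-v) = nrm v := by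
    show max |-v.1| |-v.2| = max |v.1| |v.2|
    rw [abs_neg, abs_neg]
  rw [e1, e2] at h
  omega

/-- a site of the inner side of an inner zone is next to `bx (r / 2)` -/
private theorem se21_Ks_adj {L : Lat} {s r : ℤ} (hr : 16 ≤ r) {v : Pt} (hv : v ∈ Ks s r) :
    ∃ u ∈ bx (r / 2), L.Adj u v := by
  have hs : s % 4 = 0 ∨ s % 4 = 1 ∨ s % 4 = 2 ∨ s % 4 = 3 := by omega
  rw [Ks_eq] at hv
  rcases hs with hs | hs | hs | hs
  · rw [Zn_mod (s' := 0) (by omega), mem_Zn0] at hv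
    obtain ⟨h1, h2, h3, h4⟩ := hv
    refine ⟨(v.1 - 1, v.2), ?_, Lat.adj_of_nn ?_⟩
    · show max |v.1 - 1| |v.2| ≤ r / 2
      exact max_le (abs_le.2 ⟨by omega, by omega⟩) (abs_le.2 ⟨by omega, by omega⟩)
    · show |v.1 - 1 - v.1| + |v.2 - v.2| = 1
      have e1 : v.1 - 1 - v.1 = -1 := by omega
      have e2 : v.2 - v.2 = 0 := by omega
      rw [e1, e2]
      norm_num
  · rw [Zn_mod (s' := 1) (by omega), mem_Zn1] at hv
    obtain ⟨h1, h2, h3, h4⟩ := hv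
    refine ⟨(v.1, v.2 - 1), ?_, Lat.adj_of_nn ?_⟩
    · show max |v.1| |v.2 - 1| ≤ r / 2
      exact max_le (abs_le.2 ⟨by omega, by omega⟩) (abs_le.2 ⟨by omega, by omega⟩)
    · show |v.1 - v.1| + |v.2 - 1 - v.2| = 1
      have e1 : v.2 - 1 - v.2 = -1 := by omega
      have e2 : v.1 - v.1 = 0 := by omega
      rw [e1, e2]
      norm_num
  · rw [Zn_mod (s' := 2) (by omega), mem_Zn2] at hv
    obtain ⟨h1, h2, h3, h4⟩ := hv
    refine ⟨(v.1 + 1, v.2), ?_, Lat.adj_of_nn ?_⟩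
    · show max |v.1 + 1| |v.2| ≤ r / 2
      exact max_le (abs_le.2 ⟨by omega, by omega⟩) (abs_le.2 ⟨by omega, by omega⟩)
    · show |v.1 + 1 - v.1| + |v.2 - v.2| = 1
      have e1 : v.1 + 1 - v.1 = 1 := by omega
      have e2 : v.2 - v.2 = 0 := by omega
      rw [e1, e2]
      norm_num
  · rw [Zn_mod (s' := 3) (by omega), mem_Zn3] at hv
    obtain ⟨h1, h2, h3, h4⟩ := hv
    refine ⟨(v.1, v.2 + 1), ?_, Lat.adj_of_nn ?_⟩
    · show max |v.1| |v.2 + 1| ≤ r / 2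
      exact max_le (abs_le.2 ⟨by omega, by omega⟩) (abs_le.2 ⟨by omega, by omega⟩)
    · show |v.1 - v.1| + |v.2 + 1 - v.2| = 1
      have e1 : v.2 + 1 - v.2 = 1 := by omega
      have e2 : v.1 - v.1 = 0 := by omega
      rw [e1, e2]
      norm_num

/-- the domain of the arms of colour `c` lies in `bx (2 R) \ bx (r / 2)` -/
private theorem se21_dom {c : Bool} {r R : ℤ} (hr : 16 ≤ r) (hR : r ≤ R) {v : Pt}
    (hv : v ∈ ann r R ∪ Jc c R ∪ Kc c r) : r / 2 < nrm v ∧ nrm v ≤ 2 * R := by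
  rcases hv with (hv | hv) | hv
  · obtain ⟨h1, h2⟩ := hv
    omega
  · have := Jc_nrm (by omega) hv
    omega
  · have := Kc_nrm (by omega) hv
    omega

/-- the other colour: `bx (r / 2)` together with the two arms is connected and joins the two sides -/
private theorem se21_other {L : Lat} {c : Bool} {r R : ℤ} {ω : Cfg} (hr : 16 ≤ r) (hR : r ≤ R)
    (h : L.Pairs c r R ω) : ∃ P : Set Pt, L.Con P ∧ P ⊆ bx (2 * R) ∧
      (∀ v ∈ P, v ∈ L.col c ω ∨ nrm v ≤ r / 2) ∧ (∃ v ∈ P, v ∈ Je (dc c) R) ∧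
      ∃ v ∈ P, v ∈ Je (dc c + 2) R := by
  obtain ⟨x₁, hx₁, x₂, hx₂, y₁, y₂, hc₁, hc₂, hy⟩ : ∃ x₁ ∈ Ks (dc c) r, ∃ x₂ ∈ Ks (dc c + 2) r,
      ∃ y₁ y₂, L.Cn ((ann r R ∪ Jc c R ∪ Kc c r) ∩ L.col c ω) x₁ y₁ ∧
        L.Cn ((ann r R ∪ Jc c R ∪ Kc c r) ∩ L.col c ω) x₂ y₂ ∧
        ((y₁ ∈ Je (dc c) R ∧ y₂ ∈ Je (dc c + 2) R) ∨
          (y₁ ∈ Je (dc c + 2) R ∧ y₂ ∈ Je (dc c) R)) := by
    rcases h with ⟨⟨x₁, h1, y₁, h2, h3⟩, x₂, h4, y₂, h5, h6⟩ | ⟨⟨x₁, h1, y₁, h2, h3⟩, x₂, h4, y₂, h5, h6⟩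
    · exact ⟨x₁, h1, x₂, h4, y₁, y₂, h3, h6, Or.inl ⟨h2, h5⟩⟩
    · exact ⟨x₁, h1, x₂, h4, y₁, y₂, h3, h6, Or.inr ⟨h2, h5⟩⟩
  obtain ⟨u₁, hu₁, ha₁⟩ := se21_Ks_adj (L := L) hr hx₁
  obtain ⟨u₂, hu₂, ha₂⟩ := se21_Ks_adj (L := L) hr hx₂
  have hcon1 : L.Con (bx (r / 2) ∪
      {z | L.Cn ((ann r R ∪ Jc c R ∪ Kc c r) ∩ L.col c ω) x₁ z}) :=
    (Lat.con_bx _).union_adj (Lat.con_cluster _ _) hu₁ (Lat.Cn.refl hc₁.left) ha₁
  have hcon2 : L.Con (bx (r / 2) ∪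
      {z | L.Cn ((ann r R ∪ Jc c R ∪ Kc c r) ∩ L.col c ω) x₁ z} ∪
      {z | L.Cn ((ann r R ∪ Jc c R ∪ Kc c r) ∩ L.col c ω) x₂ z}) :=
    hcon1.union_adj (Lat.con_cluster _ _) (Or.inl hu₂) (Lat.Cn.refl hc₂.left) ha₂
  refine ⟨_, hcon2, ?_, ?_, ?_, ?_⟩
  · rintro v ((hv | hv) | hv)
    · have h1 : nrm v ≤ r / 2 := hv
      show nrm v ≤ 2 * R
      omega
    · exact (se21_dom hr hR (Lat.Cn.right hv).1).2
    · exact (se21_dom hr hR (Lat.Cn.right hv).1).2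
  · rintro v ((hv | hv) | hv)
    · exact Or.inr hv
    · exact Or.inl (Lat.Cn.right hv).2
    · exact Or.inl (Lat.Cn.right hv).2
  · rcases hy with ⟨h1, -⟩ | ⟨-, h2⟩
    · exact ⟨y₁, Or.inl (Or.inr hc₁), h1⟩
    · exact ⟨y₂, Or.inr hc₂, h2⟩
  · rcases hy with ⟨-, h2⟩ | ⟨h1, -⟩
    · exact ⟨y₂, Or.inr hc₂, h2⟩
    · exact ⟨y₁, Or.inl (Or.inr hc₁), h1⟩

/-- The two arms of colour `c` of `Pairs c r R`, together with a connected subset of the annulus `{r < nrm v ≤ R}` of colour `c` that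
meets both of them, would form a connected set `P` of colour `c` in `bx (2R)` which joins the two sides of the directions
`dc c`, `dc c + 2`, and avoids `bx (r/2)`; the arms of the other colour and `bx (r / 2)` form a connected set `P'` (the first sites
of the arms are in `Ks`, next to `bx (r/2)`) that joins the other two sides.  `cross_bx`: they meet, impossible (a site of
`P ∩ P'` is not in `bx (r/2)`, because `Kc c r` and the annulus are outside, so it has both colours).  Stated for arbitrary connected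
`S ⊆ {v : r < nrm v ≤ R}` of colour `c`. -/
theorem Pairs_not {L : Lat} {c : Bool} {r R : ℤ} {ω : Cfg} (hr : 16 ≤ r) (hR : r ≤ R)
    (h' : L.Pairs (!c) r R ω) {x₁ y₁ x₂ y₂ : Pt} (hx₁ : x₁ ∈ Ks (dc c) r)
    (hx₂ : x₂ ∈ Ks (dc c + 2) r)
    (hy : (y₁ ∈ Je (dc c) R ∧ y₂ ∈ Je (dc c + 2) R) ∨ (y₁ ∈ Je (dc c + 2) R ∧ y₂ ∈ Je (dc c) R))
    (h₁ : L.Cn ((ann r R ∪ Jc c R ∪ Kc c r) ∩ L.col c ω) x₁ y₁)
    (h₂ : L.Cn ((ann r R ∪ Jc c R ∪ Kc c r) ∩ L.col c ω) x₂ y₂) :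
    ¬ L.Cn ((ann r R ∪ Jc c R ∪ Kc c r) ∩ L.col c ω) x₁ x₂ := by
  intro h
  obtain ⟨P', hP', hPm', hPc', hJ1, hJ2⟩ := se21_other hr hR h'
  have hP : L.Con {z | L.Cn ((ann r R ∪ Jc c R ∪ Kc c r) ∩ L.col c ω) x₁ z} := Lat.con_cluster _ _
  have hPm : {z | L.Cn ((ann r R ∪ Jc c R ∪ Kc c r) ∩ L.col c ω) x₁ z} ⊆ bx (2 * R) :=
    fun v hv => (se21_dom hr hR (Lat.Cn.right hv).1).2
  have hI1 : ∃ v ∈ {z | L.Cn ((ann r R ∪ Jc c R ∪ Kc c r) ∩ L.col c ω) x₁ z},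
      v ∈ Je (dc c) R := by
    rcases hy with ⟨h1, -⟩ | ⟨-, h2⟩
    · exact ⟨y₁, h₁, h1⟩
    · exact ⟨y₂, h.trans h₂, h2⟩
  have hI2 : ∃ v ∈ {z | L.Cn ((ann r R ∪ Jc c R ∪ Kc c r) ∩ L.col c ω) x₁ z},
      v ∈ Je (dc c + 2) R := by
    rcases hy with ⟨-, h2⟩ | ⟨h1, -⟩
    · exact ⟨y₂, h.trans h₂, h2⟩
    · exact ⟨y₁, h₁, h1⟩
  have hmeet : ({z | L.Cn ((ann r R ∪ Jc c R ∪ Kc c r) ∩ L.col c ω) x₁ z} ∩ P').Nonempty := by
    cases c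
    · obtain ⟨a1, m1, b1⟩ := hI1
      obtain ⟨a2, m2, b2⟩ := hI2
      obtain ⟨a3, m3, b3⟩ := hJ1
      obtain ⟨a4, m4, b4⟩ := hJ2
      have h5 := cross_bx hP' hP hPm' hPm ⟨a4, m4, Je_end.2.2.1 b4⟩ ⟨a3, m3, Je_end.1 b3⟩
        ⟨a2, m2, Je_end.2.2.2 b2⟩ ⟨a1, m1, Je_end.2.1 b1⟩
      obtain ⟨z, hz1, hz2⟩ := h5
      exact ⟨z, hz2, hz1⟩
    · obtain ⟨a1, m1, b1⟩ := hI1
      obtain ⟨a2, m2, b2⟩ := hI2
      obtain ⟨a3, m3, b3⟩ := hJ1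
      obtain ⟨a4, m4, b4⟩ := hJ2
      exact cross_bx hP hP' hPm hPm' ⟨a2, m2, Je_end.2.2.1 b2⟩ ⟨a1, m1, Je_end.1 b1⟩
        ⟨a4, m4, Je_end.2.2.2 b4⟩ ⟨a3, m3, Je_end.2.1 b3⟩
  obtain ⟨z, hz1, hz2⟩ := hmeet
  have hz3 := Lat.Cn.right hz1
  rcases hPc' z hz2 with h5 | h5
  · have h6 : L.st ω z = c := hz3.2
    have h7 : L.st ω z = !c := h5
    rw [h6] at h7
    cases c <;> exact absurd h7 (by decide)
  · have := (se21_dom hr hR hz3.1).1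
    omega

/-- `TwoAt` in terms of `L` (unfold `TwoAt`, `TwoA`; `shift_cn`, `Tr.two` for `tr_shift`): two paths in the annulus around `x`. -/
theorem TwoAt_iff (L : Lat) (c : Bool) (x : Pt) (r R : ℤ) (ω : Cfg) :
    L.TwoAt c x r R ω ↔ L.Two c {v | r < nrm (v - x) ∧ nrm (v - x) ≤ R}
      (L.nb {v | nrm (v - x) ≤ r}) {v | nrm (v - x) = R} ω := by
  have key : ∀ B : Set Pt, (Equiv.addRight x : Equiv.Perm Pt) '' B = {v | v - x ∈ B} := by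
    intro B
    ext v
    constructor
    · rintro ⟨w, hw, rfl⟩
      show w + x - x ∈ B
      rw [add_sub_cancel_right]
      exact hw
    · intro hv
      exact ⟨v - x, hv, sub_add_cancel v x⟩
  unfold Lat.TwoAt Lat.TwoA
  rw [(tr_shift L x).two, (tr_shift L x).nb, key, key, key]
  exact Iff.rfl

/-- The two arms of colour `c` of `S4 r R` (`x_i` to `y_i`).  Let `Q_i` be the cluster `{z : x_i is joined to z in the domain}`
(`con_cluster`).  `x_i` is in `bx r ⊆ {nrm (v - x) ≤ r₁}` and `y_i` is outside `{nrm (v - x) ≤ R₁} ⊆ bx R`.  So `Q_i` contains a path from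
`p_i ∈ nb {nrm (v - x) ≤ r₁}` to `w_i`, `nrm (w_i - x) = R₁`, in the annulus around `x` (`Cn.crossing` for `L.shift x`, or `Cn.last` and the
first site with `nrm (v - x) = R₁`).  If `p₁`, `p₂` were joined in the annulus around `x` in colour `c`, then `x₁` and `x₂` would be joined in
`ann r R ∪ Jc c R ∪ Kc c r` (the annulus around `x` is contained in `ann r R`), contradiction to `Pairs_not`. -/
theorem S4_twoAt_x {L : Lat} {c : Bool} {r R r₁ R₁ d : ℤ} {x : Pt} {ω : Cfg} (h : L.S4 r R ω)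
    (hr : 16 ≤ r) (hd : nrm x ≤ d) (h1 : r + d ≤ r₁) (h2 : r₁ < R₁) (h3 : R₁ + d ≤ R) :
    L.TwoAt c x r₁ R₁ ω := by
  have hx0 : 0 ≤ nrm x := (abs_nonneg x.1).trans (le_max_left _ _)
  have hP : L.Pairs c r R ω := by
    cases c
    · exact h.2
    · exact h.1
  have hP' : L.Pairs (!c) r R ω := by
    cases c
    · exact h.1
    · exact h.2
  have hKs : ∀ s u, u ∈ Ks s r → nrm u ≤ r := by
    intro s u hu
    have h5 := Zn_nrm (s := s) (a := r / 2 + 1) (b := r / 2 + 1) (h := r / 8) (by omega)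
      (by omega) hu
    omega
  have hJe : ∀ s u, u ∈ Je s R → 2 * R ≤ nrm u := by
    intro s u hu
    exact (Zn_nrm (s := s) (a := 2 * R) (b := 2 * R) (h := R / 4) (by omega) (by omega) hu).1
  have key : ∀ u v, nrm u ≤ r → 2 * R ≤ nrm v →
      L.Cn ((ann r R ∪ Jc c R ∪ Kc c r) ∩ L.col c ω) u v →
      ∃ p w, p ∈ L.nb {z | nrm (z - x) ≤ r₁} ∧ nrm (w - x) = R₁ ∧
        L.Cn ({z | r₁ < nrm (z - x) ∧ nrm (z - x) ≤ R₁} ∩ L.col c ω) p w ∧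
        L.Cn ((ann r R ∪ Jc c R ∪ Kc c r) ∩ L.col c ω) u p := by
    intro u v hu hv hc
    have hQ : L.Cn {z | L.Cn ((ann r R ∪ Jc c R ∪ Kc c r) ∩ L.col c ω) u z} u v :=
      Lat.con_cluster _ _ u (Lat.Cn.refl hc.left) v hc
    have T := tr_shift L x
    have h5 : (L.shift x).Cn ((Equiv.addRight x : Equiv.Perm Pt) ⁻¹'
        {z | L.Cn ((ann r R ∪ Jc c R ∪ Kc c r) ∩ L.col c ω) u z}) (u - x) (v - x) := by
      rw [T.cn, Equiv.image_preimage]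
      have e1 : (Equiv.addRight x : Equiv.Perm Pt) (u - x) = u := sub_add_cancel u x
      have e2 : (Equiv.addRight x : Equiv.Perm Pt) (v - x) = v := sub_add_cancel v x
      rw [e1, e2]
      exact hQ
    have h6 := se21_nrm_sub_le u x
    have h7 := se21_nrm_tri v x
    obtain ⟨p, w, hp, hw, hpw⟩ := Lat.Cn.crossing (r := r₁) (m := R₁) (by omega) h2 h5
      (Or.inl (by omega)) (by omega)
    have hpx : (Equiv.addRight x : Equiv.Perm Pt) p = p + x := rfl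
    have hwx : (Equiv.addRight x : Equiv.Perm Pt) w = w + x := rfl
    refine ⟨p + x, w + x, ?_, ?_, ?_, ?_⟩
    · have h8 : (Equiv.addRight x : Equiv.Perm Pt) p ∈
          L.nb ((Equiv.addRight x : Equiv.Perm Pt) '' bx r₁) := by
        rw [← T.nb]
        exact Set.mem_image_of_mem _ hp
      obtain ⟨z, ⟨z', hz', rfl⟩, hadj⟩ := h8
      refine ⟨_, ?_, hadj⟩
      show nrm (z' + x - x) ≤ r₁
      rw [add_sub_cancel_right]
      exact hz'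
    · rw [add_sub_cancel_right]
      exact hw
    · rw [T.cn, hpx, hwx] at hpw
      refine hpw.mono ?_
      rintro _ ⟨z, ⟨hz1, hz2⟩, rfl⟩
      have hz3 : L.Cn ((ann r R ∪ Jc c R ∪ Kc c r) ∩ L.col c ω) u (z + x) := hz1
      refine ⟨?_, (Lat.Cn.right hz3).2⟩
      show r₁ < nrm (z + x - x) ∧ nrm (z + x - x) ≤ R₁
      rw [add_sub_cancel_right]
      exact hz2
    · exact hpw.left.1
  obtain ⟨x₁, hx₁, x₂, hx₂, y₁, y₂, hc₁, hc₂, hy⟩ : ∃ x₁ ∈ Ks (dc c) r, ∃ x₂ ∈ Ks (dc c + 2) r,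
      ∃ y₁ y₂, L.Cn ((ann r R ∪ Jc c R ∪ Kc c r) ∩ L.col c ω) x₁ y₁ ∧
        L.Cn ((ann r R ∪ Jc c R ∪ Kc c r) ∩ L.col c ω) x₂ y₂ ∧
        ((y₁ ∈ Je (dc c) R ∧ y₂ ∈ Je (dc c + 2) R) ∨
          (y₁ ∈ Je (dc c + 2) R ∧ y₂ ∈ Je (dc c) R)) := by
    rcases hP with ⟨⟨x₁, g1, y₁, g2, g3⟩, x₂, g4, y₂, g5, g6⟩ | ⟨⟨x₁, g1, y₁, g2, g3⟩, x₂, g4, y₂, g5, g6⟩
    · exact ⟨x₁, g1, x₂, g4, y₁, y₂, g3, g6, Or.inl ⟨g2, g5⟩⟩
    · exact ⟨x₁, g1, x₂, g4, y₁, y₂, g3, g6, Or.inr ⟨g2, g5⟩⟩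
  have hy₁ : 2 * R ≤ nrm y₁ := by
    rcases hy with ⟨g, -⟩ | ⟨g, -⟩
    · exact hJe _ _ g
    · exact hJe _ _ g
  have hy₂ : 2 * R ≤ nrm y₂ := by
    rcases hy with ⟨-, g⟩ | ⟨-, g⟩
    · exact hJe _ _ g
    · exact hJe _ _ g
  obtain ⟨p₁, w₁, hp₁, hw₁, hpw₁, hxp₁⟩ := key x₁ y₁ (hKs _ _ hx₁) hy₁ hc₁
  obtain ⟨p₂, w₂, hp₂, hw₂, hpw₂, hxp₂⟩ := key x₂ y₂ (hKs _ _ hx₂) hy₂ hc₂
  rw [TwoAt_iff]
  refine ⟨p₁, hp₁, w₁, hw₁, p₂, hp₂, w₂, hw₂, hpw₁, hpw₂, fun hpp => ?_⟩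
  refine Pairs_not hr (by omega) hP' hx₁ hx₂ hy hc₁ hc₂ ?_
  refine (hxp₁.trans (hpp.mono ?_)).trans hxp₂.symm
  rintro z ⟨⟨hz1, hz2⟩, hz3⟩
  refine ⟨Or.inl (Or.inl ⟨?_, ?_⟩), hz3⟩
  · have h8 := se21_nrm_sub_le z x
    omega
  · have h8 := se21_nrm_tri z x
    omega

/-- `TwoAt` for the origin -/
theorem TwoAt_zero (L : Lat) (c : Bool) (r R : ℤ) (ω : Cfg) :
    L.TwoAt c 0 r R ω ↔ L.TwoA c r R ω := by
  rw [TwoAt_iff]
  simp only [sub_zero]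
  exact Iff.rfl

theorem TwoAt_loc (L : Lat) (c : Bool) (x : Pt) (r R : ℤ) : Loc (L.TwoAt c x r R) := by
  have h1 : L.TwoAt c x r R = L.Two c {v | r < nrm (v - x) ∧ nrm (v - x) ≤ R}
      (L.nb {v | nrm (v - x) ≤ r}) {v | nrm (v - x) = R} :=
    funext fun ω => propext (TwoAt_iff L c x r R ω)
  rw [h1]
  refine Lat.Two.loc L c _ _ _ ?_
  obtain ⟨G, hG⟩ := exists_annF r R
  have h2 : {v : Pt | r < nrm (v - x) ∧ nrm (v - x) ≤ R} = (fun v => v - x) ⁻¹' (G : Set Pt) := by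
    ext v
    rw [Set.mem_preimage, Finset.mem_coe, hG]
    exact Iff.rfl
  rw [h2]
  exact G.finite_toSet.preimage (sub_left_injective.injOn)

/-- the annulus `ann r R` is empty for `R ≤ r` -/
theorem TwoA_false (L : Lat) (c : Bool) {r R : ℤ} (h : R ≤ r) (ω : Cfg) :
    ¬ L.TwoA c r R ω := by
  rintro ⟨u, -, v, -, -, -, -, -, h1, -, -⟩
  obtain ⟨⟨h2, h3⟩, -⟩ := h1.left
  omega

end SC
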