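import Pool.Agent.Lib_MP_e0a489.SE3
import Pool.Agent.Lib_MP_e0a489.TE3

/-!
# MP_e0a489, module SE 4: the separated events, their supports and monotonicity
-/

set_option autoImplicit false

namespace SC

open Classical

namespace Lat

private theorem se4_dep_and {A B : Cfg → Prop} {D : Set Pt} (hA : Dep A D) (hB : Dep B D) :
    Dep (fun ω => A ω ∧ B ω) D := by
  intro ω ω' h
  show (A ω ∧ B ω) = (A ω' ∧ B ω')
  rw [hA ω ω' h, hB ω ω' h]

private theorem se4_dep_or {A B : Cfg → Prop} {D : Set Pt} (hA : Dep A D) (hB : Dep B D) :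
    Dep (fun ω => A ω ∨ B ω) D := by
  intro ω ω' h
  show (A ω ∨ B ω) = (A ω' ∨ B ω')
  rw [hA ω ω' h, hB ω ω' h]

private theorem se4_mon_and {c : Bool} {A B : Cfg → Prop} (hA : MonC c A) (hB : MonC c B) :
    MonC c (fun ω => A ω ∧ B ω) := by
  cases c with
  | true =>
    intro ω ω' h hAB
    exact ⟨hA ω ω' h hAB.1, hB ω ω' h hAB.2⟩
  | false =>
    intro ω ω' h hAB
    exact ⟨hA ω ω' h hAB.1, hB ω ω' h hAB.2⟩

private theorem se4_mon_or {c : Bool} {A B : Cfg → Prop} (hA : MonC c A) (hB : MonC c B) :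
    MonC c (fun ω => A ω ∨ B ω) := by
  cases c with
  | true =>
    intro ω ω' h hAB
    exact hAB.imp (hA ω ω' h) (hB ω ω' h)
  | false =>
    intro ω ω' h hAB
    exact hAB.imp (hA ω ω' h) (hB ω ω' h)

private theorem se4_ann_finite (r R : ℤ) : (ann r R).Finite := by
  obtain ⟨G, hG⟩ := exists_annF r R
  exact G.finite_toSet.subset fun v hv => (hG v).2 hv

private theorem se4_Jc_finite (c : Bool) (R : ℤ) : (Jc c R).Finite := by
  unfold Jc
  rw [J_eq, J_eq]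
  exact (Zn_finite _ _ _ _).union (Zn_finite _ _ _ _)

private theorem se4_Kc_finite (c : Bool) (r : ℤ) : (Kc c r).Finite := by
  unfold Kc
  rw [K_eq, K_eq]
  exact (Zn_finite _ _ _ _).union (Zn_finite _ _ _ _)

/-- the part of `Sout` that concerns the colour `c` -/
def So (L : Lat) (c : Bool) (r R : ℤ) (ω : Cfg) : Prop :=
  L.Arm c (ann r R ∪ Jc c R) (L.nb (bx r)) (Je (dc c) R) ω ∧
    L.Arm c (ann r R ∪ Jc c R) (L.nb (bx r)) (Je (dc c + 2) R) ω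

theorem Sout_iff (L : Lat) (r R : ℤ) (ω : Cfg) :
    L.Sout r R ω ↔ L.So true r R ω ∧ L.So false r R ω := by
  constructor
  · intro h
    exact ⟨h true, h false⟩
  · rintro ⟨h1, h2⟩ c
    cases c with
    | true => exact h1
    | false => exact h2

/-- `Arm.dep` -/
theorem So.dep (L : Lat) (c : Bool) (r R : ℤ) : Dep (L.So c r R) (ann r R ∪ Jc c R) :=
  se4_dep_and (Arm.dep L c _ _ _) (Arm.dep L c _ _ _)

theorem So.loc (L : Lat) (c : Bool) (r R : ℤ) : Loc (L.So c r R) := by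
  have hD : (ann r R ∪ Jc c R).Finite := (se4_ann_finite r R).union (se4_Jc_finite c R)
  exact (Arm.loc L c _ _ _ hD).and (Arm.loc L c _ _ _ hD)

/-- `Arm.mon` -/
theorem So.mon (L : Lat) (c : Bool) (r R : ℤ) : MonC c (L.So c r R) :=
  se4_mon_and (Arm.mon L c _ _ _) (Arm.mon L c _ _ _)

theorem Pairs.dep (L : Lat) (c : Bool) (r R : ℤ) :
    Dep (L.Pairs c r R) (ann r R ∪ Jc c R ∪ Kc c r) :=
  se4_dep_or (se4_dep_and (Arm.dep L c _ _ _) (Arm.dep L c _ _ _))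
    (se4_dep_and (Arm.dep L c _ _ _) (Arm.dep L c _ _ _))

theorem Pairs.loc (L : Lat) (c : Bool) (r R : ℤ) : Loc (L.Pairs c r R) := by
  have hD : (ann r R ∪ Jc c R ∪ Kc c r).Finite :=
    ((se4_ann_finite r R).union (se4_Jc_finite c R)).union (se4_Kc_finite c r)
  exact ((Arm.loc L c _ _ _ hD).and (Arm.loc L c _ _ _ hD)).or
    ((Arm.loc L c _ _ _ hD).and (Arm.loc L c _ _ _ hD))

theorem Pairs.mon (L : Lat) (c : Bool) (r R : ℤ) : MonC c (L.Pairs c r R) :=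
  se4_mon_or (se4_mon_and (Arm.mon L c _ _ _) (Arm.mon L c _ _ _))
    (se4_mon_and (Arm.mon L c _ _ _) (Arm.mon L c _ _ _))

private theorem se4_Sout_eq (L : Lat) (r R : ℤ) :
    L.Sout r R = fun ω => L.So true r R ω ∧ L.So false r R ω :=
  funext fun ω => propext (Sout_iff L r R ω)

theorem Sout.loc (L : Lat) (r R : ℤ) : Loc (L.Sout r R) := by
  rw [se4_Sout_eq]
  exact (So.loc L true r R).and (So.loc L false r R)

theorem S4.loc (L : Lat) (r R : ℤ) : Loc (L.S4 r R) :=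
  (Pairs.loc L true r R).and (Pairs.loc L false r R)

theorem TwoA.dep (L : Lat) (c : Bool) (r R : ℤ) : Dep (L.TwoA c r R) (ann r R) :=
  Two.dep L c _ _ _

theorem TwoA.loc (L : Lat) (c : Bool) (r R : ℤ) : Loc (L.TwoA c r R) :=
  Two.loc L c _ _ _ (se4_ann_finite r R)

/-- From `So.dep` and `Jc_nrm`. -/
theorem Sout.dep (L : Lat) {r R : ℤ} (hr : 0 ≤ r) (hR : r ≤ R) :
    Dep (L.Sout r R) {v | r < nrm v ∧ nrm v ≤ 2 * R} := by
  rw [se4_Sout_eq]
  have key : ∀ c : Bool, ann r R ∪ Jc c R ⊆ {v | r < nrm v ∧ nrm v ≤ 2 * R} := by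
    intro c v hv
    rcases hv with hv | hv
    · have h1 : r < nrm v := hv.1
      have h2 : nrm v ≤ R := hv.2
      exact ⟨h1, by omega⟩
    · have h1 := Jc_nrm (by omega) hv
      exact ⟨by omega, h1.2⟩
  exact se4_dep_and ((So.dep L true r R).mono (key true)) ((So.dep L false r R).mono (key false))

theorem S4.dep (L : Lat) {r R : ℤ} (hr : 0 ≤ r) (hR : r ≤ R) :
    Dep (L.S4 r R) {v | r / 2 < nrm v ∧ nrm v ≤ 2 * R} := by
  have key : ∀ c : Bool, ann r R ∪ Jc c R ∪ Kc c r ⊆ {v | r / 2 < nrm v ∧ nrm v ≤ 2 * R} := by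
    intro c v hv
    rcases hv with (hv | hv) | hv
    · have h1 : r < nrm v := hv.1
      have h2 : nrm v ≤ R := hv.2
      exact ⟨by omega, by omega⟩
    · have h1 := Jc_nrm (by omega) hv
      exact ⟨by omega, h1.2⟩
    · have h1 := Kc_nrm hr hv
      exact ⟨h1.1, by omega⟩
  exact se4_dep_and ((Pairs.dep L true r R).mono (key true))
    ((Pairs.dep L false r R).mono (key false))

private theorem se4_nrm_swap (v : Pt) : nrm ((Equiv.prodComm ℤ ℤ) v) = nrm v := by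
  show max |v.2| |v.1| = max |v.1| |v.2|
  exact max_comm _ _

private theorem se4_img {A : Set Pt} (h : ∀ v, (Equiv.prodComm ℤ ℤ) v ∈ A ↔ v ∈ A) :
    (Equiv.prodComm ℤ ℤ) '' A = A := by
  ext v
  constructor
  · rintro ⟨w, hw, rfl⟩
    exact (h w).2 hw
  · intro hv
    exact ⟨(Equiv.prodComm ℤ ℤ) v, (h v).2 hv, rfl⟩

private theorem se4_ann (r R : ℤ) : (Equiv.prodComm ℤ ℤ) '' ann r R = ann r R :=
  se4_img fun v => by
    show (r < nrm ((Equiv.prodComm ℤ ℤ) v) ∧ nrm ((Equiv.prodComm ℤ ℤ) v) ≤ R) ↔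
      (r < nrm v ∧ nrm v ≤ R)
    rw [se4_nrm_swap]

private theorem se4_bx (r : ℤ) : (Equiv.prodComm ℤ ℤ) '' bx r = bx r :=
  se4_img fun v => by
    show nrm ((Equiv.prodComm ℤ ℤ) v) ≤ r ↔ nrm v ≤ r
    rw [se4_nrm_swap]

private theorem se4_rng (r : ℤ) : (Equiv.prodComm ℤ ℤ) '' rng r = rng r :=
  se4_img fun v => by
    show nrm ((Equiv.prodComm ℤ ℤ) v) = r ↔ nrm v = r
    rw [se4_nrm_swap]

private theorem se4_arm (L : Lat) (c : Bool) (D X Y : Set Pt) (ω : Cfg) :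
    L.sw.tr.Arm c D X Y (via (Equiv.prodComm ℤ ℤ) fun v => ! ω v) ↔
      L.Arm (!c) ((Equiv.prodComm ℤ ℤ) '' D) ((Equiv.prodComm ℤ ℤ) '' X)
        ((Equiv.prodComm ℤ ℤ) '' Y) ω := by
  rw [(tr_tr L.sw).arm, sw_arm]

private theorem se4_D (c : Bool) (r R : ℤ) :
    (Equiv.prodComm ℤ ℤ) '' (ann r R ∪ Jc c R ∪ Kc c r) = ann r R ∪ Jc (!c) R ∪ Kc (!c) r := by
  rw [Set.image_union, Set.image_union, se4_ann, Jc_tr, Kc_tr]

private theorem se4_dc1 (c : Bool) : (1 - dc c) % 4 = dc (!c) % 4 := by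
  cases c <;> decide

private theorem se4_dc2 (c : Bool) : (1 - (dc c + 2)) % 4 = (dc (!c) + 2) % 4 := by
  cases c <;> decide

private theorem se4_Ks1 (c : Bool) (r : ℤ) :
    (Equiv.prodComm ℤ ℤ) '' Ks (dc c) r = Ks (dc (!c)) r := by
  rw [Ks_eq, Ks_eq, Zn_tr]
  exact Zn_mod (se4_dc1 c) _ _ _

private theorem se4_Ks2 (c : Bool) (r : ℤ) :
    (Equiv.prodComm ℤ ℤ) '' Ks (dc c + 2) r = Ks (dc (!c) + 2) r := by
  rw [Ks_eq, Ks_eq, Zn_tr]
  exact Zn_mod (se4_dc2 c) _ _ _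

private theorem se4_Je1 (c : Bool) (r : ℤ) :
    (Equiv.prodComm ℤ ℤ) '' Je (dc c) r = Je (dc (!c)) r := by
  rw [Je_eq, Je_eq, Zn_tr]
  exact Zn_mod (se4_dc1 c) _ _ _

private theorem se4_Je2 (c : Bool) (r : ℤ) :
    (Equiv.prodComm ℤ ℤ) '' Je (dc c + 2) r = Je (dc (!c) + 2) r := by
  rw [Je_eq, Je_eq, Zn_tr]
  exact Zn_mod (se4_dc2 c) _ _ _

/-- Colour exchange and transposition: `L.sw.tr` seen through `ω ↦ (v ↦ ! ω (v.2, v.1))`.  `sw_arm`, `Tr.arm` for `tr_tr`,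
`Jc_tr`, `Kc_tr`, `Zn_tr` (for `Je`, `Ks`: direction `dc c` goes to `1 - dc c = dc (!c)`, and `dc c + 2` to `-1 - dc c`, which is
`dc (!c) + 2` modulo 4, `Zn_mod`); norms are preserved. -/
theorem Pairs_swtr (L : Lat) (c : Bool) (r R : ℤ) (ω : Cfg) :
    L.sw.tr.Pairs c r R (via (Equiv.prodComm ℤ ℤ) fun v => ! ω v) ↔ L.Pairs (!c) r R ω := by
  unfold Pairs
  rw [se4_arm, se4_arm, se4_arm, se4_arm, se4_D, se4_Ks1, se4_Ks2, se4_Je1, se4_Je2]

theorem S4_swtr (L : Lat) (r R : ℤ) (ω : Cfg) :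
    L.sw.tr.S4 r R (via (Equiv.prodComm ℤ ℤ) fun v => ! ω v) ↔ L.S4 r R ω := by
  unfold S4
  rw [Pairs_swtr, Pairs_swtr]
  exact and_comm

/-- `sw_two`, `Tr.two` -/
theorem TwoA_swtr (L : Lat) (c : Bool) (r R : ℤ) (ω : Cfg) :
    L.sw.tr.TwoA c r R (via (Equiv.prodComm ℤ ℤ) fun v => ! ω v) ↔ L.TwoA (!c) r R ω := by
  unfold TwoA
  rw [(tr_tr L.sw).two, sw_two, (tr_tr L.sw).nb, se4_ann, se4_bx, se4_rng]
  exact Iff.rfl

end Lat

end SC
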