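import Pool.Agent.Lib_MP_e0a489.RC1
import Pool.Agent.Lib_MP_e0a489.SE3
import Pool.Agent.Lib_MP_e0a489.TE3

/-!
# MP_e0a489, module SE 5: inclusions between the events for different radii
-/

set_option autoImplicit false

namespace SC

open Classical

namespace Lat

variable {L : Lat} {c : Bool} {ω : Cfg}

private theorem se5_nrm_nb {r : ℤ} {x : Pt} (hx : x ∈ L.nb (bx r)) : nrm x ≤ r + 1 := by
  obtain ⟨u, hu, ha⟩ := hx
  obtain ⟨n1, n2⟩ := ha.near
  have hu' : max |u.1| |u.2| ≤ r := hu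
  rw [max_le_iff, abs_le, abs_le] at hu'
  rw [abs_le] at n1 n2
  obtain ⟨⟨a1, a2⟩, a3, a4⟩ := hu'
  unfold nrm
  rw [max_le_iff, abs_le, abs_le]
  refine ⟨⟨?_, ?_⟩, ?_, ?_⟩ <;> omega

private theorem se5_start {r r' : ℤ} {x : Pt} (hx : x ∈ L.nb (bx r)) (h1 : r ≤ r') :
    nrm x ≤ r' ∨ x ∈ L.nb (bx r') := by
  rcases eq_or_lt_of_le h1 with e | e
  · subst e
    exact Or.inr hx
  · have := se5_nrm_nb hx
    exact Or.inl (by omega)

private theorem se5_ann {r R r' R' : ℤ} (h1 : r ≤ r') (h3 : R' ≤ R) : ann r' R' ⊆ ann r R := by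
  rintro v ⟨h4, h5⟩
  exact ⟨by omega, by omega⟩

private theorem se5_cross {r R r' R' : ℤ} {x y : Pt}
    (h : L.Cn (ann r R ∩ L.col c ω) x y) (hx : x ∈ L.nb (bx r)) (hy : y ∈ rng R)
    (hr : 0 ≤ r) (h1 : r ≤ r') (h2 : r' < R') (h3 : R' ≤ R) :
    ∃ p ∈ L.nb (bx r'), ∃ w ∈ rng R', L.Cn (ann r' R' ∩ L.col c ω) p w ∧
      L.Cn (ann r R ∩ L.col c ω) x p := by
  have hQ : L.Cn {v | L.Cn (ann r R ∩ L.col c ω) x v} x y :=
    con_cluster (L := L) (ann r R ∩ L.col c ω) x x (Cn.refl h.left) y h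
  have hy' : nrm y = R := hy
  obtain ⟨p, w, hp, hw, hpw⟩ := Cn.crossing (r := r') (m := R') (by omega) h2 hQ (se5_start hx h1)
    (by omega)
  refine ⟨p, hp, w, hw, hpw.mono ?_, hpw.left.1⟩
  rintro v ⟨hv1, hv2⟩
  exact ⟨hv2, (Cn.right hv1).2⟩

/-- Let `Q = {z : x is joined to z in ann r R}` (connected, `con_cluster`), `Q'` the same for `x'`.  `Cn.crossing` for the set `Q` (radii
`r'`, `R'`; if `r < r'` the site `x ∈ nb (bx r)` has norm `≤ r + 1 ≤ r'`, if `r = r'` it is in `nb (bx r')`) gives `p ∈ nb (bx r')`, `w ∈ rng R'`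
joined in `Q ∩ ann r' R'`; similarly `p'`, `w'`.  If `p` and `p'` were joined in `ann r' R'` in colour `c`, then `x` and `x'` would be joined in
`ann r R ⊇ ann r' R'`. -/
theorem TwoA.mono {r R r' R' : ℤ} (h : L.TwoA c r R ω) (hr : 0 ≤ r) (h1 : r ≤ r') (h2 : r' < R')
    (h3 : R' ≤ R) : L.TwoA c r' R' ω := by
  obtain ⟨x, hx, y, hy, x', hx', y', hy', hxy, hxy', hn⟩ := h
  obtain ⟨p, hp, w, hw, hpw, hxp⟩ := se5_cross hxy hx hy hr h1 h2 h3
  obtain ⟨p', hp', w', hw', hpw', hxp'⟩ := se5_cross hxy' hx' hy' hr h1 h2 h3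
  refine ⟨p, hp, w, hw, p', hp', w', hw', hpw, hpw', fun hc => hn ?_⟩
  have hc' : L.Cn (ann r R ∩ L.col c ω) p p' :=
    hc.mono (Set.inter_subset_inter_left _ (se5_ann h1 h3))
  exact (hxp.trans hc').trans hxp'.symm

/-- An arm that starts next to `bx r` in a domain outside `bx r` and ends outside `bx r'`, `r ≤ r'`: if `r = r'` then
`D \ bx r' = D`; otherwise its first site has norm `≤ r + 1 ≤ r'`; take the part after the last visit of `bx r'`
(`Cn.last` with `S = bx r'`). -/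
theorem Arm.last_bx {D Y : Set Pt} {r r' : ℤ} (h : L.Arm c D (L.nb (bx r)) Y ω) (hr : 0 ≤ r)
    (h1 : r ≤ r') (hD : ∀ v ∈ D, r < nrm v) (hY : ∀ v ∈ Y, r' < nrm v) :
    L.Arm c (D \ bx r') (L.nb (bx r')) Y ω := by
  have _ := hr
  obtain ⟨x, hx, y, hy, hxy⟩ := h
  rcases eq_or_lt_of_le h1 with e | e
  · subst e
    refine ⟨x, hx, y, hy, hxy.mono ?_⟩
    rintro v ⟨hv1, hv2⟩
    refine ⟨⟨hv1, fun hb => ?_⟩, hv2⟩
    have hb' : nrm v ≤ r := hb
    have := hD v hv1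
    omega
  · have hx1 := se5_nrm_nb hx
    have hxS : x ∈ bx r' := by
      change nrm x ≤ r'
      omega
    have hyS : y ∉ bx r' := by
      intro hb
      have hb' : nrm y ≤ r' := hb
      have := hY y hy
      omega
    obtain ⟨p, q, -, hpS, ha, hc⟩ := hxy.last hxS hyS
    refine ⟨q, ⟨p, hpS, ha⟩, y, hy, hc.mono ?_⟩
    rintro v ⟨⟨hv1, hv2⟩, hv3⟩
    exact ⟨⟨hv1, hv3⟩, hv2⟩

/-- Both arms of each colour: `Arm.last_bx`, `(ann r R ∪ Jc c R) \ bx r' ⊆ ann r' R ∪ Jc c R`. -/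
theorem Sout.mono {r R r' : ℤ} (h : L.Sout r R ω) (hr : 0 ≤ r) (h1 : r ≤ r') (h2 : r' ≤ R) :
    L.Sout r' R ω := by
  rcases eq_or_lt_of_le h1 with e | e
  · subst e
    exact h
  · have key : ∀ (b : Bool) (s : ℤ), L.Arm b (ann r R ∪ Jc b R) (L.nb (bx r)) (Je s R) ω →
        L.Arm b (ann r' R ∪ Jc b R) (L.nb (bx r')) (Je s R) ω := by
      intro b s hb
      have h3 := Arm.last_bx hb hr h1 (r' := r') ?_ ?_
      · refine h3.mono ?_ (Set.Subset.refl _) (Set.Subset.refl _)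
        rintro v ⟨hv1 | hv1, hv2⟩
        · refine Or.inl ⟨?_, hv1.2⟩
          by_contra hlt
          exact hv2 (show nrm v ≤ r' by omega)
        · exact Or.inr hv1
      · rintro v (hv | hv)
        · exact hv.1
        · have := Jc_nrm (by omega) hv
          omega
      · intro v hv
        have := Zn_nrm (s := s) (a := 2 * R) (b := 2 * R) (h := R / 4) (by omega) (by omega) hv
        omega
    intro b
    exact ⟨key b _ (h b).1, key b _ (h b).2⟩

end Lat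

end SC
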