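import Pool.Agent.Lib_MP_e0a489.SE1
import Pool.Agent.Lib_MP_e0a489.SE21
import Pool.Agent.Lib_MP_e0a489.SE4
import Pool.Agent.Lib_MP_e0a489.SE5
import Pool.Agent.Lib_MP_e0a489.TTD

/-!
# MP_e0a489, module TT 1: the two-time four arm probability `be`
-/

set_option autoImplicit false

namespace SC

namespace TT

open Classical

theorem kt_kap {t : ℝ} (ht : 0 ≤ t) : Kap (kt t) := by
  intro v
  exact ⟨(Real.exp_pos _).le, Real.exp_le_one_iff.2 (by linarith)⟩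

/-- `exp` is increasing -/
theorem kt_anti {t s : ℝ} (h : t ≤ s) (v : Pt) : kt s v ≤ kt t v := by
  exact Real.exp_le_exp.2 (by linarith)

private theorem tt1_ind_nonneg (A : Cfg → Prop) (ω : Cfg) : 0 ≤ ind A ω := by
  unfold ind
  split_ifs
  · exact zero_le_one
  · exact le_rfl

private theorem tt1_ind_or (A B : Cfg → Prop) (ω : Cfg) :
    ind (fun ω => A ω ∨ B ω) ω ≤ ind A ω + ind B ω := by
  unfold ind
  by_cases h : A ω <;> by_cases h' : B ω <;> simp [h, h']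

/-- Union: `ind (A ∨ B) ≤ ind A + ind B` (`ex2_mono`), `ex2_add_le`. -/
theorem pr2_or_le {A B : Cfg → Prop} (hA : Loc A) (hB : Loc B) {k : Pt → ℝ} (hk : Kap k) :
    pr2 k (fun ω => A ω ∨ B ω) ≤ 2 * pr2 k A + 2 * pr2 k B := by
  have lAB : Lf (ind fun ω => A ω ∨ B ω) := (hA.or hB).lf
  have lS : Lf (fun ω => ind A ω + ind B ω) := hA.lf.add hB.lf
  have h1 : ex2 k (ind fun ω => A ω ∨ B ω) (ind fun ω => A ω ∨ B ω) ≤
      ex2 k (fun ω => ind A ω + ind B ω) (fun ω => ind A ω + ind B ω) :=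
    ex2_mono lAB lAB lS lS k hk (tt1_ind_nonneg _) (tt1_ind_nonneg _) (tt1_ind_or A B)
      (tt1_ind_or A B)
  exact h1.trans (ex2_add_le hA.lf hB.lf k fun v => (hk v).1)

/-- Three independent parts, `pr2_and` twice. -/
theorem pr2_and3 {A B E : Cfg → Prop} (lA : Loc A) (lB : Loc B) (lE : Loc E)
    {D₁ D₂ D₃ : Set Pt} (hA : Dep A D₁) (hB : Dep B D₂) (hE : Dep E D₃) (h12 : ∀ v ∈ D₁, v ∉ D₂)
    (h13 : ∀ v ∈ D₁, v ∉ D₃) (h23 : ∀ v ∈ D₂, v ∉ D₃) (k : Pt → ℝ) :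
    pr2 k (fun ω => A ω ∧ B ω ∧ E ω) = pr2 k A * (pr2 k B * pr2 k E) := by
  have hBE : Dep (fun ω => B ω ∧ E ω) (D₂ ∪ D₃) := Dep.comp2 hB hE (fun p q => p ∧ q)
  rw [← pr2_and lB lE hB hE h23 k]
  refine pr2_and lA (lB.and lE) hA hBE (fun v hv hv' => ?_) k
  rcases hv' with hv' | hv'
  · exact h12 v hv hv'
  · exact h13 v hv hv'

/-- An event that never occurs (`ind A = 0`). -/
theorem pr2_false {A : Cfg → Prop} (h : ∀ ω, ¬ A ω) (k : Pt → ℝ) : pr2 k A = 0 := by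
  have h1 : ∀ ω, ind A ω = 0 := by
    intro ω
    unfold ind
    rw [if_neg (h ω)]
  unfold pr2 ex2
  split_ifs
  · unfold ex2F
    refine Finset.sum_eq_zero fun S _ => Finset.sum_eq_zero fun T _ => ?_
    rw [h1, zero_mul, mul_zero]
  · rfl

theorem be_nonneg (L : Lat) {t : ℝ} (ht : 0 ≤ t) (r R : ℤ) : 0 ≤ be L t r R := by
  unfold be
  split_ifs
  · exact pr2_nonneg _ (kt_kap ht)
  · exact zero_le_one

theorem be_le_one (L : Lat) {t : ℝ} (ht : 0 ≤ t) (r R : ℤ) : be L t r R ≤ 1 := by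
  unfold be
  split_ifs
  · exact pr2_le_one (Lat.TwoA.loc L true r R) (kt_kap ht)
  · exact le_rfl

/-- `pr2_le_pr` -/
theorem be_le_al (L : Lat) {t : ℝ} (ht : 0 ≤ t) (r R : ℤ) : be L t r R ≤ al L r R := by
  unfold be al
  split_ifs
  · exact pr2_le_pr (Lat.TwoA.loc L true r R) (kt_kap ht)
  · exact le_rfl

/-- smaller correlations (`pr2_mono_k`, `kt_anti`) -/
theorem be_anti (L : Lat) {t s : ℝ} (ht : 0 ≤ t) (h : t ≤ s) (r R : ℤ) :
    be L s r R ≤ be L t r R := by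
  unfold be
  split_ifs
  · exact pr2_mono_k (Lat.TwoA.loc L true r R) (fun v => (kt_kap (ht.trans h) v).1) (kt_anti h)
  · exact le_rfl

/-- `TwoA.mono`; if `r = R` the right side is `1` -/
theorem be_mono (L : Lat) {t : ℝ} (ht : 0 ≤ t) {r R r' R' : ℤ} (h0 : 0 ≤ r') (h1 : r' ≤ r)
    (h2 : r ≤ R) (h3 : R ≤ R') : be L t r' R' ≤ be L t r R := by
  by_cases h4 : r < R
  · unfold be
    rw [if_pos h4, if_pos (by omega)]
    exact pr2_mono (Lat.TwoA.loc L true r' R') (Lat.TwoA.loc L true r R) (kt_kap ht)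
      fun ω hω => Lat.TwoA.mono hω h0 h1 h4 h3
  · have h5 : be L t r R = 1 := by
      unfold be
      rw [if_neg h4]
    rw [h5]
    exact be_le_one L ht r' R'

/-- Submultiplicative: for `r < ρ < R`, `TwoA r R ⊆ TwoA r ρ ∧ TwoA ρ R` (`TwoA.mono`), which depend on the disjoint annuli (`TwoA.dep`,
`pr2_and`). -/
theorem be_submul (L : Lat) {t : ℝ} (ht : 0 ≤ t) {r ρ R : ℤ} (h0 : 0 ≤ r) (h1 : r ≤ ρ)
    (h2 : ρ ≤ R) : be L t r R ≤ be L t r ρ * be L t ρ R := by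
  have hself : ∀ a : ℤ, be L t a a = 1 := by
    intro a
    unfold be
    rw [if_neg (lt_irrefl a)]
  rcases h1.eq_or_lt with rfl | h1'
  · rw [hself, one_mul]
  rcases h2.eq_or_lt with rfl | h2'
  · rw [hself, mul_one]
  have e1 : be L t r R = pr2 (kt t) (L.TwoA true r R) := by
    unfold be
    rw [if_pos (h1'.trans h2')]
  have e2 : be L t r ρ = pr2 (kt t) (L.TwoA true r ρ) := by
    unfold be
    rw [if_pos h1']
  have e3 : be L t ρ R = pr2 (kt t) (L.TwoA true ρ R) := by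
    unfold be
    rw [if_pos h2']
  have l1 := Lat.TwoA.loc L true r ρ
  have l2 := Lat.TwoA.loc L true ρ R
  rw [e1, e2, e3, ← pr2_and l1 l2 (Lat.TwoA.dep L true r ρ) (Lat.TwoA.dep L true ρ R)
    (fun v hv hv' => absurd hv.2 (not_le.2 hv'.1)) (kt t)]
  exact pr2_mono (Lat.TwoA.loc L true r R) (l1.and l2) (kt_kap ht) fun ω hω =>
    ⟨Lat.TwoA.mono hω h0 le_rfl h1' h2, Lat.TwoA.mono hω h0 h1 h2' le_rfl⟩

/-- arbitrary correlations below `kt t` (if `R ≤ r` the event is impossible: `TwoA_false`, `pr2_false`) -/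
theorem pr2_twoA_le (L : Lat) {t : ℝ} {k : Pt → ℝ} (hk : Kap k) (h : ∀ v, k v ≤ kt t v)
    (ht : 0 ≤ t) (r R : ℤ) : pr2 k (L.TwoA true r R) ≤ be L t r R := by
  by_cases h4 : r < R
  · have e1 : be L t r R = pr2 (kt t) (L.TwoA true r R) := by
      unfold be
      rw [if_pos h4]
    rw [e1]
    exact pr2_mono_k (Lat.TwoA.loc L true r R) (fun v => (hk v).1) h
  · rw [pr2_false (fun ω => TwoA_false L true (not_lt.1 h4) ω) k]
    exact be_nonneg L ht r R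

/-- `via` and `shift`: the two-time probability of the event around `x` is the one of the shifted lattice
(`pr2_via` for `Equiv.addRight x`, `kt t` is constant) -/
theorem pr2_twoAt (L : Lat) (t : ℝ) (c : Bool) (x : Pt) (r R : ℤ) :
    pr2 (kt t) (L.TwoAt c x r R) = pr2 (kt t) ((L.shift x).TwoA c r R) := by
  exact pr2_via (Lat.TwoA.loc (L.shift x) c r R) (Equiv.addRight x) (kt t)

/-- `TwoAt_iff`, `Two.dep` -/
theorem TwoAt_dep (L : Lat) (c : Bool) (x : Pt) (r R : ℤ) :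
    Dep (L.TwoAt c x r R) {v | r < nrm (v - x) ∧ nrm (v - x) ≤ R} := by
  have h1 : L.TwoAt c x r R = L.Two c {v | r < nrm (v - x) ∧ nrm (v - x) ≤ R}
      (L.nb {v | nrm (v - x) ≤ r}) {v | nrm (v - x) = R} :=
    funext fun ω => propext (TwoAt_iff L c x r R ω)
  rw [h1]
  exact Lat.Two.dep L c _ _ _

/-- `TwoA.mono` for `L.shift x` -/
theorem TwoAt_mono {L : Lat} {c : Bool} {x : Pt} {r R r' R' : ℤ} {ω : Cfg}
    (h : L.TwoAt c x r R ω) (hr : 0 ≤ r) (h1 : r ≤ r') (h2 : r' < R') (h3 : R' ≤ R) :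
    L.TwoAt c x r' R' ω := by
  exact Lat.TwoA.mono (L := L.shift x) h hr h1 h2 h3

/-- `TwoAt_false` -/
theorem TwoAt_false (L : Lat) (c : Bool) (x : Pt) {r R : ℤ} (h : R ≤ r) (ω : Cfg) :
    ¬ L.TwoAt c x r R ω := by
  exact TwoA_false (L.shift x) c h (via (Equiv.addRight x) ω)

end TT

end SC
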