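import Pool.Agent.Lib_MP_e0a489.PF1
import Pool.Agent.Lib_MP_e0a489.TT1
import Pool.Agent.Lib_MP_e0a489.XP1
import Pool.Agent.Lib_MP_e0a489.XP2b

/-!
# MP_e0a489, module TT, pivotal sites of the separated event
-/

set_option autoImplicit false

namespace SC

namespace TT

open Classical

variable {L : Lat} {r R : ℤ} {v : Pt} {ω : Cfg}

/-- the definition of `Piv`: the event holds for one state `b` of the site and fails for the other one -/
theorem piv_cases {A : Cfg → Prop} (h : Piv v A ω) :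
    ∃ b : Bool, A (Function.update ω v b) ∧ ¬ A (Function.update ω v (!b)) := by
  by_cases h1 : A (Function.update ω v true)
  · by_cases h2 : A (Function.update ω v false)
    · exact absurd (iff_of_true h1 h2) h
    · exact ⟨true, h1, h2⟩
  · by_cases h2 : A (Function.update ω v false)
    · exact ⟨false, h2, h1⟩
    · exact absurd (iff_of_false h1 h2) h

/-- an event that does not depend on `v` -/
theorem dep_update {A : Cfg → Prop} {D : Set Pt} (hA : Dep A D) (hv : v ∉ D) (b : Bool) :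
    A (Function.update ω v b) ↔ A ω := by
  refine iff_of_eq (hA _ _ fun u hu => ?_)
  have hne : u ≠ v := fun he => hv (he ▸ hu)
  exact Function.update_of_ne hne _ _

/-- If `Pairs` holds for `ω₁` and fails for `ω₂`, one of the arms (from an inner zone to an outer zone) exists in `ω₁` and not in
`ω₂` (in the pairing that holds for `ω₁` one of the two arms is missing in `ω₂`). -/
theorem Pairs_arm {c : Bool} {ω₁ ω₂ : Cfg} (h1 : L.Pairs c r R ω₁) (h2 : ¬ L.Pairs c r R ω₂) :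
    ∃ i j : ℤ, L.Arm c (ann r R ∪ Jc c R ∪ Kc c r) (Ks i r) (Je j R) ω₁ ∧
      ¬ L.Arm c (ann r R ∪ Jc c R ∪ Kc c r) (Ks i r) (Je j R) ω₂ := by
  rcases h1 with ⟨h3, h4⟩ | ⟨h3, h4⟩
  · by_cases h5 : L.Arm c (ann r R ∪ Jc c R ∪ Kc c r) (Ks (dc c) r) (Je (dc c) R) ω₂
    · refine ⟨_, _, h4, fun h6 => h2 (Or.inl ⟨h5, h6⟩)⟩
    · exact ⟨_, _, h3, h5⟩
  · by_cases h5 : L.Arm c (ann r R ∪ Jc c R ∪ Kc c r) (Ks (dc c) r) (Je (dc c + 2) R) ω₂
    · refine ⟨_, _, h4, fun h6 => h2 (Or.inr ⟨h5, h6⟩)⟩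
    · exact ⟨_, _, h3, h5⟩

/-- The sites of `Ks i r` have norm `≤ r`, those of `Je j R` have norm `2 R` (`Ks_eq`, `Je_eq`, `Zn_nrm`; `Ks` at norm `r / 2 + 1`). -/
theorem Ks_nrm {i : ℤ} (hr : 16 ≤ r) {u : Pt} (h : u ∈ Ks i r) : nrm u ≤ r := by
  rw [Ks_eq] at h
  have h5 := Zn_nrm (show r / 8 ≤ r / 2 + 1 by omega) (show 0 ≤ r / 8 by omega) h
  omega

theorem Je_nrm' {j : ℤ} (hR : 0 ≤ R) {u : Pt} (h : u ∈ Je j R) : nrm u = 2 * R := by
  rw [Je_eq] at h
  have h5 := Zn_nrm (show R / 4 ≤ 2 * R by omega) (show 0 ≤ R / 4 by omega) h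
  omega

/-- LOCAL PART.  Let `v` be pivotal for `S4 r R = Pairs true ∧ Pairs false` (`piv_cases`: `S4 ω₁`, `¬ S4 ω₂`, the configurations agree off `v`), so some
`Pairs c` holds for `ω₁` and not for `ω₂`.  `Pairs_arm` and `XP.piv_two` with `Q` = the domain, `S₁ = Ks i r`, `S₂ = Je j R`, both at distance `≥ b` from `v`
(`nrm v - r ≥ b`, `2 R - nrm v ≥ b`; triangle inequality `XP.nrm_tri`), radii `a < b`: `Two c (Q ∩ annAt v a b) ..` for `ω₁`.  `Q ∩ annAt v a b = annAt v a b`, because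
`annAt v a b ⊆ ann r R` (`nrm v - b > r`, `nrm v + b ≤ R`).  `XP.twoAt_iff`, and the event does not depend on `v` (`TwoAt_dep`, `dep_update`,
`nrm 0 = 0 ≤ a`). -/
theorem S4_piv_loc (hr : 16 ≤ r) (h8 : 8 * r < nrm v) (h4 : 4 * nrm v ≤ R) {a b : ℤ} (ha : 0 ≤ a)
    (hab : a < b) (hb : 4 * b ≤ nrm v) (h : Piv v (L.S4 r R) ω) :
    L.TwoAt true v a b ω ∨ L.TwoAt false v a b ω := by
  obtain ⟨s, h1, h2⟩ := piv_cases h
  have hag : ∀ u, a < nrm (u - v) →
      Function.update ω v s u = Function.update ω v (!s) u := by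
    intro u hu
    have hne : u ≠ v := by
      rintro rfl
      rw [sub_self] at hu
      have h0 : nrm (0 : Pt) = 0 := rfl
      omega
    rw [Function.update_of_ne hne, Function.update_of_ne hne]
  have tri : ∀ u : Pt, nrm u ≤ nrm (u - v) + nrm v ∧ nrm v ≤ nrm (u - v) + nrm u := by
    intro u
    have t1 := XP.nrm_tri u v 0
    have t2 := XP.nrm_tri v u 0
    rw [sub_zero, sub_zero] at t1 t2
    rw [XP.nrm_comm v u] at t2
    exact ⟨t1, t2⟩
  have key : ∀ c : Bool, L.Pairs c r R (Function.update ω v s) →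
      ¬ L.Pairs c r R (Function.update ω v (!s)) → L.TwoAt c v a b ω := by
    intro c h3 h4
    obtain ⟨i, j, h5, h6⟩ := Pairs_arm h3 h4
    have h7 := XP.piv_two (L := L) (c := c) (Q := ann r R ∪ Jc c R ∪ Kc c r)
      (S₁ := Ks i r) (S₂ := Je j R) (y := v) hab hag h5
      (fun u hu w hw huw => h6 ⟨u, hu, w, hw, huw⟩)
      (fun u hu => by
        have e1 := Ks_nrm hr hu
        have e2 := (tri u).2
        omega)
      (fun u hu => by
        have e1 := Je_nrm' (show (0 : ℤ) ≤ R by omega) hu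
        have e2 := (tri u).1
        omega)
    have e3 : (ann r R ∪ Jc c R ∪ Kc c r) ∩ annAt v a b = annAt v a b := by
      refine Set.inter_eq_right.2 fun u hu => Or.inl (Or.inl ?_)
      have e1 : nrm (u - v) ≤ b := hu.2
      have e2 := tri u
      exact ⟨by omega, by omega⟩
    rw [e3] at h7
    have h8 : L.TwoAt c v a b (Function.update ω v s) := (XP.twoAt_iff L c v a b _).2 h7
    refine (dep_update (TwoAt_dep L c v a b) ?_ s).1 h8
    intro hv
    have e4 : a < nrm (v - v) := hv.1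
    rw [sub_self] at e4
    have h0 : nrm (0 : Pt) = 0 := rfl
    omega
  by_cases h3 : L.Pairs true r R (Function.update ω v (!s))
  · right
    exact key false h1.2 fun h4 => h2 ⟨h3, h4⟩
  · left
    exact key true h1.1 h3

/-- INNER AND OUTER PART.  `S4 r R` holds for `update ω v b`, so `TwoAt true 0 r₁ R₁ = TwoA true r₁ R₁` holds (`S4_twoAt_x`, `d = 0`,
`TwoAt_zero`); it does not depend on `v`. -/
theorem S4_piv_out (hr : 16 ≤ r) {r₁ R₁ : ℤ} (h1 : r ≤ r₁) (h2 : r₁ < R₁) (h3 : R₁ ≤ R)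
    (hv : nrm v ≤ r₁ ∨ R₁ < nrm v) (h : Piv v (L.S4 r R) ω) : L.TwoA true r₁ R₁ ω := by
  obtain ⟨s, h4, -⟩ := piv_cases h
  have h0 : nrm (0 : Pt) ≤ 0 := le_of_eq rfl
  have h5 : L.TwoAt true 0 r₁ R₁ (Function.update ω v s) :=
    S4_twoAt_x (d := 0) h4 hr h0 (by omega) h2 (by omega)
  rw [TwoAt_zero] at h5
  refine (dep_update (Lat.TwoA.dep L true r₁ R₁) ?_ s).1 h5
  rintro ⟨h6, h7⟩
  rcases hv with hv | hv
  · omega
  · omega

/-- Two-time probability of the pivotal event: inclusion in the intersection of three events with disjoint supports `ann r ρ₁`,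
`annAt v a b`, `ann ρ₂ R` (`pr2_mono`, `pr2_and3`; `nrm v - b > ρ₁`, `nrm v + b ≤ ρ₂`), `pr2_or_le`. -/
theorem S4_piv_pr2 {k : Pt → ℝ} (hk : Kap k) (hr : 16 ≤ r) (h8 : 8 * r < nrm v)
    (h4 : 4 * nrm v ≤ R) {a b ρ₁ ρ₂ : ℤ} (ha : 0 ≤ a) (hab : a < b) (hb : 4 * b ≤ nrm v)
    (hρ : r < ρ₁) (hρ₁ : ρ₁ + b < nrm v) (hρ₂ : nrm v + b ≤ ρ₂) (hρR : ρ₂ < R) :
    pr2 k (Piv v (L.S4 r R)) ≤ pr2 k (L.TwoA true r ρ₁) *
      ((2 * pr2 k (L.TwoAt true v a b) + 2 * pr2 k (L.TwoAt false v a b)) *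
        pr2 k (L.TwoA true ρ₂ R)) := by
  have tri : ∀ u : Pt, nrm u ≤ nrm (u - v) + nrm v ∧ nrm v ≤ nrm (u - v) + nrm u := by
    intro u
    have t1 := XP.nrm_tri u v 0
    have t2 := XP.nrm_tri v u 0
    rw [sub_zero, sub_zero] at t1 t2
    rw [XP.nrm_comm v u] at t2
    exact ⟨t1, t2⟩
  have l1 : Loc (L.TwoA true r ρ₁) := Lat.TwoA.loc L true r ρ₁
  have l3 : Loc (L.TwoA true ρ₂ R) := Lat.TwoA.loc L true ρ₂ R
  have la : Loc (L.TwoAt true v a b) := TwoAt_loc L true v a b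
  have lb : Loc (L.TwoAt false v a b) := TwoAt_loc L false v a b
  have l2 : Loc (fun ω => L.TwoAt true v a b ω ∨ L.TwoAt false v a b ω) := la.or lb
  have lP : Loc (Piv v (L.S4 r R)) := by
    obtain ⟨F, hF⟩ := Lat.S4.loc L r R
    exact ⟨F, (hF.piv v).mono Set.sdiff_subset⟩
  have d2 : Dep (fun ω => L.TwoAt true v a b ω ∨ L.TwoAt false v a b ω)
      {u | a < nrm (u - v) ∧ nrm (u - v) ≤ b} := by
    intro ω ω' hw
    have e1 := TwoAt_dep L true v a b ω ω' hw
    have e2 := TwoAt_dep L false v a b ω ω' hw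
    show (L.TwoAt true v a b ω ∨ L.TwoAt false v a b ω) =
      (L.TwoAt true v a b ω' ∨ L.TwoAt false v a b ω')
    rw [e1, e2]
  have h1 : pr2 k (Piv v (L.S4 r R)) ≤ pr2 k (fun ω => L.TwoA true r ρ₁ ω ∧
      (L.TwoAt true v a b ω ∨ L.TwoAt false v a b ω) ∧ L.TwoA true ρ₂ R ω) := by
    refine pr2_mono lP (l1.and (l2.and l3)) hk fun ω h => ⟨?_, ?_, ?_⟩
    · exact S4_piv_out hr le_rfl hρ (by omega) (Or.inr (by omega)) h
    · exact S4_piv_loc hr h8 h4 ha hab hb h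
    · exact S4_piv_out hr (by omega) hρR le_rfl (Or.inl (by omega)) h
  have h2 := pr2_and3 l1 l2 l3 (Lat.TwoA.dep L true r ρ₁) d2 (Lat.TwoA.dep L true ρ₂ R)
    (fun u hu hu' => by
      have e1 : nrm u ≤ ρ₁ := hu.2
      have e2 : nrm (u - v) ≤ b := hu'.2
      have e3 := (tri u).2
      omega)
    (fun u hu hu' => by
      have e1 : nrm u ≤ ρ₁ := hu.2
      have e2 : ρ₂ < nrm u := hu'.1
      omega)
    (fun u hu hu' => by
      have e1 : nrm (u - v) ≤ b := hu.2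
      have e2 : ρ₂ < nrm u := hu'.1
      have e3 := (tri u).1
      omega) k
  rw [h2] at h1
  refine h1.trans (mul_le_mul_of_nonneg_left (mul_le_mul_of_nonneg_right ?_ ?_) ?_)
  · exact pr2_or_le la lb hk
  · exact pr2_nonneg _ hk
  · exact pr2_nonneg _ hk

end TT

end SC
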