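import Pool.Agent.Lib_MP_e0a489.TT2
import Pool.Agent.Lib_MP_e0a489.TTI1
import Pool.Agent.Lib_MP_e0a489.TTP1

/-!
# MP_e0a489, module TT (9a), sum over the pivotal sites of the separated event (one configuration)
-/

set_option autoImplicit false

namespace SC

variable [IfL] [IfX]

namespace TT

open Classical

variable {L : Lat} {C c : ℝ} {R₀ : ℤ}

/-- `pr ((L.shift x).TwoAt b v r R) = pr (L.TwoAt b (v + x) r R)`: `XP.twoAt_iff` for both lattices (`(L.shift x).Two` through `tr_shift`), or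
`(L.shift x).shift v = L.shift (x + v)` (`shift_shift`) and `pr_TwoAt`. -/
theorem pr_shift_twoAt (L : Lat) (x v : Pt) (b : Bool) (r R : ℤ) :
    pr ((L.shift x).TwoAt b v r R) = pr (L.TwoAt b (x + v) r R) := by
  rw [pr_TwoAt, pr_TwoAt, shift_shift]

/-- Pivotal site of norm `ρ = nrm v`.  `S4_piv_pr2` for `L.shift x`, `k = 1` (`pr2_one`), `r = a = R₀`, `b = ρ / 4`, `ρ₁ = ρ - ρ / 4 - 1`, `ρ₂ = ρ + ρ / 4`.
With `AlProps.cmp` (`pr_TwoAt`, `pr_shift_twoAt`): `pr (TwoA true R₀ ρ₁) ≤ C al L R₀ ρ` (`ρ ≤ 4 ρ₁`), `pr (TwoAt b v R₀ (ρ / 4)) ≤ C al L R₀ (4 (ρ/4))` and `al_cmp` to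
`al L R₀ ρ`, `pr (TwoA true ρ₂ R) ≤ C al L ρ R` (`ρ₂ ≤ 2 ρ`); `qmult`: `al L R₀ ρ * al L ρ R ≤ C al L R₀ R`. -/
theorem piv_one (hp : TP L C c R₀) (x : Pt) {R : ℤ} {v : Pt} (h8 : 8 * R₀ < nrm v)
    (h4 : nrm v ≤ R / 4) :
    pr (Piv v ((L.shift x).S4 R₀ R)) ≤ 256 * C ^ 5 * (al L R₀ (nrm v) * al L R₀ R) := by
  have h16 := hp.ap.R16
  have hC := hp.ap.C1
  have hk1 : Kap (fun _ : Pt => (1 : ℝ)) := fun v => ⟨zero_le_one, le_rfl⟩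
  have lP : Loc (Piv v ((L.shift x).S4 R₀ R)) := by
    obtain ⟨F, hF⟩ := Lat.S4.loc (L.shift x) R₀ R
    exact ⟨F, (hF.piv v).mono Set.sdiff_subset⟩
  obtain ⟨ρ, hρ⟩ : ∃ ρ, ρ = nrm v := ⟨_, rfl⟩
  rw [← hρ] at h8 h4 ⊢
  have key := S4_piv_pr2 (L := L.shift x) (v := v) (r := R₀) (R := R) hk1 h16
    (by rw [← hρ]; exact h8) (by rw [← hρ]; omega) (a := R₀) (b := ρ / 4)
    (ρ₁ := ρ - ρ / 4 - 1) (ρ₂ := ρ + ρ / 4) (by omega) (by omega) (by rw [← hρ]; omega)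
    (by omega) (by rw [← hρ]; omega) (by rw [← hρ]) (by omega)
  rw [pr2_one lP, pr2_one (Lat.TwoA.loc _ _ _ _), pr2_one (Lat.TwoA.loc _ _ _ _),
    pr2_one (TwoAt_loc _ _ _ _ _), pr2_one (TwoAt_loc _ _ _ _ _), pr_shift_twoAt,
    pr_shift_twoAt, ← pr_TwoAt, ← pr_TwoAt] at key
  have pA : 0 ≤ al L R₀ ρ := (hp.ap.pos R₀ ρ le_rfl (by omega)).le
  have pB : 0 ≤ al L ρ R := (hp.ap.pos ρ R (by omega) (by omega)).le
  have a1 : pr (L.TwoAt true x R₀ (ρ - ρ / 4 - 1)) ≤ C * al L R₀ ρ :=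
    hp.ap.cmp true x _ _ _ _ le_rfl le_rfl (by omega) (by omega) (by omega) (by omega)
  have a2 : ∀ b : Bool, pr (L.TwoAt b (x + v) R₀ (ρ / 4)) ≤ 64 * C ^ 2 * al L R₀ ρ := by
    intro b
    have e1 : pr (L.TwoAt b (x + v) R₀ (ρ / 4)) ≤ C * al L R₀ (4 * (ρ / 4)) :=
      hp.ap.cmp b (x + v) _ _ _ _ le_rfl le_rfl (by omega) (by omega) (by omega) (by omega)
    have e2 : al L R₀ (4 * (ρ / 4)) ≤ 64 * C * al L R₀ ρ :=
      hp.al_cmp le_rfl le_rfl (by omega) (by omega) (by omega) (by omega)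
    calc pr (L.TwoAt b (x + v) R₀ (ρ / 4)) ≤ C * al L R₀ (4 * (ρ / 4)) := e1
      _ ≤ C * (64 * C * al L R₀ ρ) := mul_le_mul_of_nonneg_left e2 (by linarith)
      _ = 64 * C ^ 2 * al L R₀ ρ := by ring
  have a3 : pr (L.TwoAt true x (ρ + ρ / 4) R) ≤ C * al L ρ R :=
    hp.ap.cmp true x _ _ _ _ (by omega) (by omega) (by omega) (by omega) (by omega) (by omega)
  have a4 := hp.ap.qmult R₀ ρ R le_rfl (by omega) (by omega)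
  have n0 : ∀ (b : Bool) (y : Pt) (r R : ℤ), 0 ≤ pr (L.TwoAt b y r R) := by
    intro b y r R
    rw [← pr2_one (TwoAt_loc _ _ _ _ _)]
    exact pr2_nonneg _ hk1
  have b1 : 2 * pr (L.TwoAt true (x + v) R₀ (ρ / 4)) + 2 * pr (L.TwoAt false (x + v) R₀ (ρ / 4)) ≤
      256 * C ^ 2 * al L R₀ ρ := by
    have e1 := a2 true
    have e2 := a2 false
    nlinarith
  have b2 : 0 ≤ 256 * C ^ 2 * al L R₀ ρ := by positivity
  have b3 : (2 * pr (L.TwoAt true (x + v) R₀ (ρ / 4)) +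
      2 * pr (L.TwoAt false (x + v) R₀ (ρ / 4))) * pr (L.TwoAt true x (ρ + ρ / 4) R) ≤
      256 * C ^ 2 * al L R₀ ρ * (C * al L ρ R) :=
    mul_le_mul b1 a3 (n0 _ _ _ _) b2
  have b4 : 0 ≤ C * al L R₀ ρ := mul_nonneg (by linarith) pA
  have b5 : 0 ≤ (2 * pr (L.TwoAt true (x + v) R₀ (ρ / 4)) +
      2 * pr (L.TwoAt false (x + v) R₀ (ρ / 4))) * pr (L.TwoAt true x (ρ + ρ / 4) R) := by
    have e1 := n0 true (x + v) R₀ (ρ / 4)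
    have e2 := n0 false (x + v) R₀ (ρ / 4)
    exact mul_nonneg (by linarith) (n0 _ _ _ _)
  calc pr (Piv v ((L.shift x).S4 R₀ R)) ≤ _ := key
    _ ≤ (C * al L R₀ ρ) * (256 * C ^ 2 * al L R₀ ρ * (C * al L ρ R)) :=
        mul_le_mul a1 b3 b5 b4
    _ = 256 * C ^ 4 * al L R₀ ρ * (al L R₀ ρ * al L ρ R) := by ring
    _ ≤ 256 * C ^ 4 * al L R₀ ρ * (C * al L R₀ R) :=
        mul_le_mul_of_nonneg_left a4 (by positivity)
    _ = 256 * C ^ 5 * (al L R₀ ρ * al L R₀ R) := by ring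

/-- `al L R₀ ρ ≤ C ^ 2 al L R₀ R (R / ρ) ^ (2 - c)` (`qmult`, `low`) -/
theorem al_back (hp : TP L C c R₀) {ρ R : ℤ} (h1 : R₀ ≤ ρ) (h2 : ρ ≤ R) :
    al L R₀ ρ ≤ C ^ 2 * (al L R₀ R * ((R : ℝ) / ρ) ^ (2 - c)) := by
  have h16 := hp.ap.R16
  have hC := hp.ap.C1
  have hm : (0 : ℝ) < ρ := by exact_mod_cast (by omega : (0 : ℤ) < ρ)
  have hn : (0 : ℝ) < R := by exact_mod_cast (by omega : (0 : ℤ) < R)
  have a1 := hp.ap.qmult R₀ ρ R le_rfl h1 h2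
  have a2 := hp.low ρ R h1 h2
  have a3 : 0 ≤ al L R₀ ρ := (hp.ap.pos R₀ ρ le_rfl h1).le
  have a4 : al L R₀ ρ * ((ρ : ℝ) / R) ^ (2 - c) ≤ C ^ 2 * al L R₀ R := by
    calc al L R₀ ρ * ((ρ : ℝ) / R) ^ (2 - c) ≤ al L R₀ ρ * (C * al L ρ R) :=
          mul_le_mul_of_nonneg_left a2 a3
      _ = C * (al L R₀ ρ * al L ρ R) := by ring
      _ ≤ C * (C * al L R₀ R) := mul_le_mul_of_nonneg_left a1 (by linarith)
      _ = C ^ 2 * al L R₀ R := by ring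
  have a5 : ((ρ : ℝ) / R) ^ (2 - c) * ((R : ℝ) / ρ) ^ (2 - c) = 1 := by
    rw [← Real.mul_rpow (div_pos hm hn).le (div_pos hn hm).le]
    rw [div_mul_div_cancel₀ hn.ne', div_self hm.ne', Real.one_rpow]
  have a6 : 0 ≤ ((R : ℝ) / ρ) ^ (2 - c) := Real.rpow_nonneg (div_pos hn hm).le _
  calc al L R₀ ρ = al L R₀ ρ * ((ρ : ℝ) / R) ^ (2 - c) * ((R : ℝ) / ρ) ^ (2 - c) := by
        rw [mul_assoc, a5, mul_one]
    _ ≤ C ^ 2 * al L R₀ R * ((R : ℝ) / ρ) ^ (2 - c) := mul_le_mul_of_nonneg_right a4 a6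
    _ = C ^ 2 * (al L R₀ R * ((R : ℝ) / ρ) ^ (2 - c)) := by ring

/-- `∑_v al L R₀ (nrm v) ≤ C ^ 2 al L R₀ R ∑_v (R / nrm v) ^ (2 - c)`; `sum_nrm` with `g m = (R / m) ^ (2 - c)`: `8 m (R / m) ^ (2 - c) = 8 R ^ (2 - c) m ^ (c - 1)`, `sum_pow_up`:
at most `8 R ^ (2 - c) (R ^ c / c) = 8 R ^ 2 / c`. -/
theorem al_sum (hp : TP L C c R₀) {R : ℤ} {W : Finset Pt} (hW : ∀ v ∈ W, R₀ ≤ nrm v ∧ nrm v ≤ R) :
    ∑ v ∈ W, al L R₀ (nrm v) ≤ 8 * C ^ 2 / c * ((R : ℝ) ^ 2 * al L R₀ R) := by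
  have h16 := hp.ap.R16
  have hC := hp.ap.C1
  have hc0 := hp.c0
  have hc1 := hp.c1
  rcases W.eq_empty_or_nonempty with rfl | ⟨w, hw⟩
  · rw [Finset.sum_empty]
    have h0 : 0 ≤ al L R₀ R := by
      by_cases h : R₀ ≤ R
      · exact (hp.ap.pos R₀ R le_rfl h).le
      · unfold al
        rw [if_neg (by omega)]
        exact zero_le_one
    positivity
  have hR : R₀ ≤ R := (hW w hw).1.trans (hW w hw).2
  have hn : (0 : ℝ) < R := by exact_mod_cast (by omega : (0 : ℤ) < R)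
  have hpos : 0 ≤ al L R₀ R := (hp.ap.pos R₀ R le_rfl hR).le
  have e1 : ∑ v ∈ W, al L R₀ (nrm v) ≤
      ∑ v ∈ W, C ^ 2 * al L R₀ R * ((R : ℝ) / (nrm v : ℝ)) ^ (2 - c) := by
    refine Finset.sum_le_sum fun v hv => ?_
    refine (al_back hp (hW v hv).1 (hW v hv).2).trans (le_of_eq ?_)
    ring
  rw [← Finset.mul_sum] at e1
  have e2 : ∑ v ∈ W, ((R : ℝ) / (nrm v : ℝ)) ^ (2 - c) ≤
      ∑ m ∈ Finset.Icc R₀ R, 8 * (m : ℝ) * ((R : ℝ) / (m : ℝ)) ^ (2 - c) :=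
    sum_nrm (g := fun m : ℤ => ((R : ℝ) / (m : ℝ)) ^ (2 - c)) (by omega) hW
      (fun m hm _ => Real.rpow_nonneg (div_nonneg hn.le
        (by exact_mod_cast (by omega : (0 : ℤ) ≤ m))) _)
  have e3 : ∑ m ∈ Finset.Icc R₀ R, 8 * (m : ℝ) * ((R : ℝ) / (m : ℝ)) ^ (2 - c) ≤
      ∑ m ∈ Finset.Icc 1 R, 8 * (R : ℝ) ^ (2 - c) * (m : ℝ) ^ (c - 1) := by
    have f1 : ∑ m ∈ Finset.Icc R₀ R, 8 * (m : ℝ) * ((R : ℝ) / (m : ℝ)) ^ (2 - c) =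
        ∑ m ∈ Finset.Icc R₀ R, 8 * (R : ℝ) ^ (2 - c) * (m : ℝ) ^ (c - 1) := by
      refine Finset.sum_congr rfl fun m hm => ?_
      rw [Finset.mem_Icc] at hm
      have hm0 : (0 : ℝ) < m := by exact_mod_cast (by omega : (0 : ℤ) < m)
      have g1 : (m : ℝ) * ((R : ℝ) / (m : ℝ)) ^ (2 - c) = (R : ℝ) ^ (2 - c) * (m : ℝ) ^ (c - 1) := by
        rw [Real.div_rpow hn.le hm0.le, mul_div_assoc', mul_comm, mul_div_assoc]
        congr 1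
        rw [show c - 1 = 1 - (2 - c) by ring, Real.rpow_sub hm0 1 (2 - c), Real.rpow_one]
      rw [mul_assoc, g1, mul_assoc]
    rw [f1]
    refine Finset.sum_le_sum_of_subset_of_nonneg ?_ ?_
    · exact Finset.Icc_subset_Icc_left (by omega)
    · intro m hm _
      rw [Finset.mem_Icc] at hm
      have hm0 : (0 : ℝ) ≤ m := by exact_mod_cast (by omega : (0 : ℤ) ≤ m)
      positivity
  have e4 : ∑ m ∈ Finset.Icc 1 R, 8 * (R : ℝ) ^ (2 - c) * (m : ℝ) ^ (c - 1) ≤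
      8 * (R : ℝ) ^ 2 / c := by
    rw [← Finset.mul_sum]
    have f1 := sum_pow_up hc0 (by linarith : c ≤ 1) (n := R) (by omega)
    have f2 : (R : ℝ) ^ (2 - c) * (R : ℝ) ^ c = (R : ℝ) ^ 2 := by
      rw [← Real.rpow_add hn, sub_add_cancel, Real.rpow_two]
    have f3 : 0 ≤ 8 * (R : ℝ) ^ (2 - c) := by positivity
    calc 8 * (R : ℝ) ^ (2 - c) * ∑ m ∈ Finset.Icc 1 R, (m : ℝ) ^ (c - 1)
        ≤ 8 * (R : ℝ) ^ (2 - c) * ((R : ℝ) ^ c / c) := mul_le_mul_of_nonneg_left f1 f3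
      _ = 8 * ((R : ℝ) ^ (2 - c) * (R : ℝ) ^ c) / c := by ring
      _ = 8 * (R : ℝ) ^ 2 / c := by rw [f2]
  have e5 : 0 ≤ C ^ 2 * al L R₀ R := by positivity
  calc ∑ v ∈ W, al L R₀ (nrm v)
      ≤ C ^ 2 * al L R₀ R * ∑ v ∈ W, ((R : ℝ) / (nrm v : ℝ)) ^ (2 - c) := e1
    _ ≤ C ^ 2 * al L R₀ R * (8 * (R : ℝ) ^ 2 / c) :=
        mul_le_mul_of_nonneg_left (e2.trans (e3.trans e4)) e5
    _ = 8 * C ^ 2 / c * ((R : ℝ) ^ 2 * al L R₀ R) := by ring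

/-- `piv_one` and `al_sum` -/
theorem piv_sum (hp : TP L C c R₀) : ∃ C₄ : ℝ, 0 < C₄ ∧ ∀ (x : Pt) (R : ℤ) (W : Finset Pt),
    R₀ ≤ R → (∀ v ∈ W, 8 * R₀ < nrm v ∧ nrm v ≤ R / 4) →
      ∑ v ∈ W, pr (Piv v ((L.shift x).S4 R₀ R)) ≤ C₄ * ((R : ℝ) * al L R₀ R) ^ 2 := by
  have h16 := hp.ap.R16
  have hC := hp.ap.C1
  have hc0 := hp.c0
  refine ⟨256 * C ^ 5 * (8 * C ^ 2 / c), by positivity, ?_⟩
  intro x R W hR hW
  have hpos : 0 ≤ al L R₀ R := (hp.ap.pos R₀ R le_rfl hR).le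
  have e1 : ∑ v ∈ W, pr (Piv v ((L.shift x).S4 R₀ R)) ≤
      ∑ v ∈ W, 256 * C ^ 5 * al L R₀ R * al L R₀ (nrm v) := by
    refine Finset.sum_le_sum fun v hv => ?_
    refine (piv_one hp x (hW v hv).1 (hW v hv).2).trans (le_of_eq ?_)
    ring
  rw [← Finset.mul_sum] at e1
  have e2 := al_sum hp (R := R) (W := W) (fun v hv => by
    have h := hW v hv
    constructor <;> omega)
  have e3 : 0 ≤ 256 * C ^ 5 * al L R₀ R := by positivity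
  calc ∑ v ∈ W, pr (Piv v ((L.shift x).S4 R₀ R))
      ≤ 256 * C ^ 5 * al L R₀ R * ∑ v ∈ W, al L R₀ (nrm v) := e1
    _ ≤ 256 * C ^ 5 * al L R₀ R * (8 * C ^ 2 / c * ((R : ℝ) ^ 2 * al L R₀ R)) :=
        mul_le_mul_of_nonneg_left e2 e3
    _ = 256 * C ^ 5 * (8 * C ^ 2 / c) * ((R : ℝ) * al L R₀ R) ^ 2 := by ring

end TT

end SC
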