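import Pool.Agent.Lib_MP_e0a489.SE25

/-!
# MP_e0a489: the separated event in a rectangle (interface; part of module SE)
-/

set_option autoImplicit false

namespace SC

open Classical

/-- From the separated event to the box event: the arms are extended from the zones `J s R` to the sides of
the rectangle by strips (territory lemma). -/
theorem sq2 (κ : ℕ → ℝ) : ∃ (C : ℝ) (R₀ : ℤ), 0 < C ∧ 16 ≤ R₀ ∧ ∀ L : Lat, RSW L κ →
    ∀ k : Pt → ℝ, (∀ v, 0 ≤ k v ∧ k v ≤ 1) → ∀ r R a b p q : ℤ, R₀ ≤ r → r ≤ R →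
      2 * R ≤ -a → -a ≤ 64 * R → 2 * R ≤ b → b ≤ 64 * R → 2 * R ≤ -p → -p ≤ 64 * R →
      2 * R ≤ q → q ≤ 64 * R →
      pr2 (kz k r R) (L.S4 r R) ≤
        C * pr2 (kz k r R) (fun ω => L.SQ true r a b p q ω ∧ L.SQ false r a b p q ω) :=
  sq2_x κ

end SC
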