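import Pool.Agent.Lib_MP_e0a489.SE9
import Pool.Agent.Lib_MP_e0a489.SQ9
import Pool.Agent.Lib_MP_e0a489.XP2b

/-!
# MP_e0a489, exponents 12: lower bound of the box event by the four arm probability
-/

set_option autoImplicit false

namespace SC

variable [IfL]

namespace XP

open Classical

private theorem xp12_shsh (L : Lat) (x y : Pt) : (L.shift x).shift y = L.shift (x + y) := by
  unfold Lat.shift
  congr 1
  · funext i j
    show L.ne (i + y.1 + x.1) (j + y.2 + x.2) = L.ne (i + (x + y).1) (j + (x + y).2)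
    have h1 : i + y.1 + x.1 = i + (x + y).1 := by
      rw [Prod.fst_add]; ring
    have h2 : j + y.2 + x.2 = j + (x + y).2 := by
      rw [Prod.snd_add]; ring
    rw [h1, h2]
  · funext v
    show L.typ (v + y + x) = L.typ (v + (x + y))
    have h1 : v + y + x = v + (x + y) := by rw [add_assoc, add_comm y x]
    rw [h1]

private theorem xp12_sw (L : Lat) (x : Pt) : (L.shift x).sw = L.sw.shift x := rfl

private theorem xp12_rx (L : Lat) (x : Pt) : (L.shift x).rx = L.rx.shift (-x.1, x.2) := by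
  unfold Lat.shift Lat.rx
  congr 1
  · funext i j
    show (! L.ne (-i - 1 + x.1) (j + x.2)) = ! L.ne (-(i + -x.1) - 1) (j + x.2)
    have h1 : -i - 1 + x.1 = -(i + -x.1) - 1 := by ring
    rw [h1]
  · funext v
    show L.typ ((-v.1, v.2) + x) = L.typ (-(v + (-x.1, x.2)).1, (v + (-x.1, x.2)).2)
    have h1 : ((-v.1, v.2) + x : Pt) = (-(v + (-x.1, x.2)).1, (v + (-x.1, x.2)).2) := by
      refine Prod.ext ?_ ?_
      · show -v.1 + x.1 = -(v.1 + -x.1)
        ring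
      · rfl
    rw [h1]

private theorem xp12_ry (L : Lat) (x : Pt) : (L.shift x).ry = L.ry.shift (x.1, -x.2) := by
  unfold Lat.shift Lat.ry
  congr 1
  · funext i j
    show (! L.ne (i + x.1) (-j - 1 + x.2)) = ! L.ne (i + x.1) (-(j + -x.2) - 1)
    have h1 : -j - 1 + x.2 = -(j + -x.2) - 1 := by ring
    rw [h1]
  · funext v
    show L.typ ((v.1, -v.2) + x) = L.typ ((v + (x.1, -x.2)).1, -(v + (x.1, -x.2)).2)
    have h1 : ((v.1, -v.2) + x : Pt) = ((v + (x.1, -x.2)).1, -(v + (x.1, -x.2)).2) := by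
      refine Prod.ext ?_ ?_
      · rfl
      · show -v.2 + x.2 = -(v.2 + -x.2)
        ring
    rw [h1]

private theorem xp12_shift0 (L : Lat) : L.shift 0 = L := by
  unfold Lat.shift
  cases L with
  | mk ne typ => simp

private theorem xp12_finite (r R : ℤ) : (ann r R).Finite := by
  refine (annAt_finite 0 r R).subset (fun v hv => ?_)
  show r < nrm (v - 0) ∧ nrm (v - 0) ≤ R
  rw [sub_zero]
  exact hv

private theorem xp12_loc (L : Lat) (c : Bool) (r R : ℤ) : Loc (L.TwoA c r R) :=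
  Lat.Two.loc L c (ann r R) (L.nb (bx r)) (rng R) (xp12_finite r R)

private theorem xp12_al_nonneg (L : Lat) (r R : ℤ) : 0 ≤ al L r R := by
  unfold al
  split_ifs
  · exact pr_nonneg _
  · exact zero_le_one

private theorem xp12_kap (r R : ℤ) : Kap (kz (fun _ => 1) r R) := by
  intro v
  unfold kz
  split_ifs
  · exact ⟨le_rfl, zero_le_one⟩
  · exact ⟨zero_le_one, le_rfl⟩

/-- `RSW.shift`; `(L.shift x).shift y = L.shift (x + y)` up to the order of the summands, `(L.shift x).sw = L.sw.shift x`,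
`(L.shift x).rx = L.rx.shift (-x.1, x.2)`, `(L.shift x).ry = L.ry.shift (x.1, -x.2)` (definitions; for `rx` the pattern is
`! L.ne (-i - 1 + x.1) (j + x.2)` on both sides). -/
theorem fam_shift {L : Lat} {κ : ℕ → ℝ} (h : Fam L κ) (x : Pt) : Fam (L.shift x) κ := by
  refine ⟨h.rsw.shift x, ?_, ?_, ?_, ?_, ?_⟩
  · rw [xp12_shsh, add_comm, ← xp12_shsh, h.per1]
  · rw [xp12_shsh, add_comm, ← xp12_shsh, h.per2]
  · obtain ⟨x₀, hx⟩ := h.sw
    refine ⟨x₀, ?_⟩
    rw [xp12_sw, hx, xp12_shsh, xp12_shsh, add_comm]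
  · obtain ⟨x₀, hx⟩ := h.rx
    refine ⟨x₀ + (-x.1, x.2) - x, ?_⟩
    rw [xp12_rx, hx, xp12_shsh, xp12_shsh, add_sub_cancel]
  · obtain ⟨x₀, hx⟩ := h.ry
    refine ⟨x₀ + (x.1, -x.2) - x, ?_⟩
    rw [xp12_ry, hx, xp12_shsh, xp12_shsh, add_sub_cancel]

theorem al_lt {L : Lat} {r R : ℤ} (h : r < R) : al L r R = pr (L.TwoA true r R) := by
  unfold al
  rw [if_pos h]

/-- `(L.shift x).TwoAt true (-x) r R (via (Equiv.addRight x) ω) ↔ L.TwoA true r R ω` -/
theorem twoAt_neg (L : Lat) (x : Pt) (c : Bool) (r R : ℤ) (ω : Cfg) :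
    (L.shift x).TwoAt c (-x) r R (via (Equiv.addRight x) ω) ↔ L.TwoA c r R ω := by
  have h1 : (L.shift x).shift (-x) = L := by
    rw [xp12_shsh, add_neg_cancel, xp12_shift0]
  have h2 : via (Equiv.addRight (-x)) (via (Equiv.addRight x) ω) = ω := by
    funext v
    show ω (v + -x + x) = ω v
    rw [neg_add_cancel_right]
  unfold Lat.TwoAt
  rw [h1, h2]

/-- `twoAt_neg`, `pr_via` and `AlProps.cmp` for the lattice `L.shift x` (`fam_shift`, `al_props κ`) with `r' = r`, `R' = R`; for `r = R` both sides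
are trivial (`al = 1`, `C ≥ 1`). -/
theorem al_shift_le (κ : ℕ → ℝ) : ∃ (C : ℝ) (R₀ : ℤ), 1 ≤ C ∧ 16 ≤ R₀ ∧ ∀ L : Lat, Fam L κ →
    ∀ (x : Pt) (r R : ℤ), R₀ ≤ r → r ≤ R → al L r R ≤ C * al (L.shift x) r R := by
  obtain ⟨C, R₀, hA⟩ := al_props κ
  refine ⟨max C 1, max R₀ 16, le_max_right _ _, le_max_right _ _, ?_⟩
  intro L h x r R hr hrR
  have P := hA (L.shift x) (fam_shift h x)
  have hr0 : R₀ ≤ r := (le_max_left _ _).trans hr
  have hr16 : 16 ≤ r := (le_max_right _ _).trans hr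
  rcases lt_or_eq_of_le hrR with hlt | heq
  · have h1 : al L r R = pr ((L.shift x).TwoAt true (-x) r R) := by
      rw [al_lt hlt, ← pr_via (twoAt_loc (L.shift x) true (-x) r R) (Equiv.addRight x)]
      congr 1
      funext ω
      exact propext (twoAt_neg L x true r R ω).symm
    rw [h1]
    refine (P.cmp true (-x) r R r R hr0 hr0 hrR (by omega) hrR (by omega)).trans ?_
    exact mul_le_mul_of_nonneg_right (le_max_left _ _) (xp12_al_nonneg _ _ _)
  · subst heq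
    have h1 : al L r r = 1 := by unfold al; rw [if_neg (lt_irrefl r)]
    have h2 : al (L.shift x) r r = 1 := by unfold al; rw [if_neg (lt_irrefl r)]
    rw [h1, h2, mul_one]
    exact le_max_right _ _

/-- One configuration: `sep2` and `sq2` with `k = 1`: `pr (L.TwoA true r R) = pr2 1 (..)` (`ex2_one`), and `pr2 (kz 1 r R) A ≤ pr A` (`ex2_le_sq`,
`ind A ^ 2 = ind A`). -/
theorem sq_low (κ : ℕ → ℝ) : ∃ (C : ℝ) (R₀ : ℤ), 0 < C ∧ 16 ≤ R₀ ∧ ∀ L : Lat, RSW L κ →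
    ∀ r R a b p q : ℤ, R₀ ≤ r → r < R →
      2 * R ≤ -a → -a ≤ 64 * R → 2 * R ≤ b → b ≤ 64 * R → 2 * R ≤ -p → -p ≤ 64 * R →
      2 * R ≤ q → q ≤ 64 * R →
      al L r R ≤ C * pr (fun ω => L.SQ true r a b p q ω ∧ L.SQ false r a b p q ω) := by
  obtain ⟨C₁, R₁, hC₁, hR₁, h1⟩ := sep2 κ
  obtain ⟨C₂, R₂, hC₂, hR₂, h2⟩ := sq2 κ
  refine ⟨C₁ * C₂, max R₁ R₂, mul_pos hC₁ hC₂, hR₁.trans (le_max_left _ _), ?_⟩
  intro L hL r R a b p q hr hrR ha ha' hb hb' hp hp' hq hq'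
  have hr1 : R₁ ≤ r := (le_max_left _ _).trans hr
  have hr2 : R₂ ≤ r := (le_max_right _ _).trans hr
  have hk : ∀ v : Pt, (0 : ℝ) ≤ (fun _ : Pt => (1 : ℝ)) v ∧ (fun _ : Pt => (1 : ℝ)) v ≤ 1 :=
    fun v => ⟨zero_le_one, le_rfl⟩
  have e1 : al L r R = pr2 (fun _ => 1) (L.TwoA true r R) := by
    rw [al_lt hrR, pr2_one (xp12_loc L true r R)]
  have e2 := h1 L hL (fun _ => 1) hk true r R hr1 hrR.le
  have e3 := h2 L hL (fun _ => 1) hk r R a b p q hr2 hrR.le ha ha' hb hb' hp hp' hq hq'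
  have hloc : Loc (fun ω => L.SQ true r a b p q ω ∧ L.SQ false r a b p q ω) :=
    Loc.and (Lat.SQ.loc L true r a b p q) (Lat.SQ.loc L false r a b p q)
  have e4 := pr2_le_pr hloc (xp12_kap r R)
  rw [e1, mul_assoc]
  refine e2.trans (mul_le_mul_of_nonneg_left ?_ hC₁.le)
  exact e3.trans (mul_le_mul_of_nonneg_left e4 hC₂.le)

/-- BOX EVENT AT A SITE `x` of the middle part of the box `bx N`.  `R = N / 4`: `r < R ≤ N`; `al L r N ≤ al L r R` (`AlProps.mono`),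
`al_shift_le`, `sq_low` for `L.shift x`: the distances `N ± x.1`, `N ± x.2` are between `N / 2 ≥ 2 R` and `3 N / 2 ≤ 64 R`. -/
theorem box_low (κ : ℕ → ℝ) : ∃ (C : ℝ) (R₀ : ℤ), 0 < C ∧ 64 ≤ R₀ ∧ ∀ L : Lat, Fam L κ →
    ∀ (x : Pt) (r N : ℤ), R₀ ≤ r → 32 * r ≤ N → 2 * nrm x ≤ N →
      al L r N ≤ C * pr (fun ω =>
        (L.shift x).SQ true r (-N - x.1) (N - x.1) (-N - x.2) (N - x.2) ω ∧
          (L.shift x).SQ false r (-N - x.1) (N - x.1) (-N - x.2) (N - x.2) ω) := by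
  obtain ⟨C₀, R₀, hA⟩ := al_props κ
  obtain ⟨C₁, R₁, hC₁, hR₁, h1⟩ := al_shift_le κ
  obtain ⟨C₂, R₂, hC₂, hR₂, h2⟩ := sq_low κ
  refine ⟨C₁ * C₂, max 64 (max R₀ (max R₁ R₂)), mul_pos (by linarith) hC₂, le_max_left _ _, ?_⟩
  intro L hL x r N hr hN hx
  have g64 : 64 ≤ r := (le_max_left _ _).trans hr
  have g' : max R₀ (max R₁ R₂) ≤ r := (le_max_right _ _).trans hr
  have g0 : R₀ ≤ r := (le_max_left _ _).trans g'
  have g'' : max R₁ R₂ ≤ r := (le_max_right _ _).trans g'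
  have g1 : R₁ ≤ r := (le_max_left _ _).trans g''
  have g2 : R₂ ≤ r := (le_max_right _ _).trans g''
  have P := hA L hL
  have hx1 : -nrm x ≤ x.1 ∧ x.1 ≤ nrm x := abs_le.1 (le_max_left |x.1| |x.2|)
  have hx2 : -nrm x ≤ x.2 ∧ x.2 ≤ nrm x := abs_le.1 (le_max_right |x.1| |x.2|)
  have hrR : r < N / 4 := by omega
  have e1 : al L r N ≤ al L r (N / 4) := P.mono r (N / 4) r N (by omega) le_rfl hrR.le (by omega)
  have e2 : al L r (N / 4) ≤ C₁ * al (L.shift x) r (N / 4) := h1 L hL x r (N / 4) g1 hrR.le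
  have e3 := h2 (L.shift x) (fam_shift hL x).rsw r (N / 4) (-N - x.1) (N - x.1) (-N - x.2)
    (N - x.2) g2 hrR (by omega) (by omega) (by omega) (by omega) (by omega) (by omega) (by omega)
    (by omega)
  rw [mul_assoc]
  refine e1.trans (e2.trans (mul_le_mul_of_nonneg_left e3 (by linarith)))

end XP

end SC
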