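import Pool.Agent.Lib_MP_e0a489.TTI2
import Pool.Agent.Lib_MP_e0a489.TTI3
import Pool.Agent.Lib_MP_e0a489.XP12

/-!
# MP_e0a489, module TT (9a), the inner part at two times
-/

set_option autoImplicit false

namespace SC

variable [IfL] [IfX]

namespace TT

open Classical

/-- INNER PART.  Let `L' = L.shift x` (`XP.fam_shift`).  `sep2` for `k = 1`: `pr (L'.TwoA true R₀ m) ≤ C₁ pr2 (kz 1 R₀ m) (L'.S4 R₀ m)` (`pr2_one`), and for `R₀ < m`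
`al L R₀ m ≤ C₂ al L' R₀ m = C₂ pr (L'.TwoA true R₀ m)` (`XP.al_shift_le`).  `S4_loss` (with `W` from `exists_annF`) and `piv_sum`:
`al L R₀ m / (C₁ C₂) ≤ pr2 (kz (kt s) R₀ m) (L'.S4 R₀ m) + s (C₄ / 4) (m al L R₀ m) ^ 2`, and the last term is at most `(C₄ / 4) c' al L R₀ m`.  Choose
`c' = 2 / (C₁ C₂ C₄)` and `c₁ = 1 / (2 C₁ C₂)`.  For `m = R₀` (then `al L R₀ R₀ = 1`): `pr2 (kz (kt s) R₀ R₀) (L'.S4 R₀ R₀) ≥ (pr (L'.S4 R₀ R₀)) ^ 2 ≥ (κ 20000) ^ 8`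
(`pr2_ge_sq`, `S4_base'`); take `c₁` also at most this number.  `R₁` = maximum of the radii of `sep2`, `al_shift_le`, `tp_ex`. -/
theorem inner_low {L : Lat} {κ : ℕ → ℝ} (h : Fam L κ) : ∃ R₁ : ℤ, 16 ≤ R₁ ∧ ∀ R₀, R₁ ≤ R₀ →
    ∃ c' c₁ : ℝ, 0 < c' ∧ 0 < c₁ ∧ ∀ (x : Pt) (m : ℤ) (s : ℝ), R₀ ≤ m → 0 ≤ s →
      s * ((m : ℝ) ^ 2 * al L R₀ m) ≤ c' →
      c₁ * al L R₀ m ≤ pr2 (kz (kt s) R₀ m) ((L.shift x).S4 R₀ m) := by
  obtain ⟨C₁, Ra, hC₁, hRa, hsep⟩ := sep2 κ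
  obtain ⟨C₂, Rb, hC₂, hRb, hsh⟩ := XP.al_shift_le κ
  obtain ⟨C, c, Rc, hTP⟩ := tp_ex h
  refine ⟨max Ra (max Rb Rc), hRa.trans (le_max_left _ _), fun R₀ hR₀ => ?_⟩
  have hra : Ra ≤ R₀ := (le_max_left _ _).trans hR₀
  have hrb : Rb ≤ R₀ := ((le_max_left _ _).trans (le_max_right _ _)).trans hR₀
  have hrc : Rc ≤ R₀ := ((le_max_right _ _).trans (le_max_right _ _)).trans hR₀
  have h16 : 16 ≤ R₀ := hRa.trans hra
  have hp : TP L C c R₀ := hTP R₀ hrc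
  obtain ⟨C₄, hC₄, hpiv⟩ := piv_sum hp
  have hC₂' : 0 < C₂ := by linarith
  have hκ : 0 < κ 20000 := h.rsw.pos _
  refine ⟨2 / (C₁ * C₂ * C₄), min (1 / (2 * (C₁ * C₂))) (κ 20000 ^ 8), by positivity,
    lt_min (by positivity) (by positivity), ?_⟩
  intro x m s hm hs hsm
  have hL' : RSW (L.shift x) κ := (XP.fam_shift h x).rsw
  have hk1 : Kap (fun _ : Pt => (1 : ℝ)) := fun v => ⟨zero_le_one, le_rfl⟩
  have hks : Kap (kt s) := fun v => ⟨(Real.exp_pos _).le, by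
    show Real.exp (-s) ≤ 1
    rw [Real.exp_le_one_iff]
    linarith⟩
  have hap : 0 < al L R₀ m := hp.ap.pos R₀ m le_rfl hm
  rcases lt_or_eq_of_le hm with hlt | heq
  · have e0 : Loc ((L.shift x).TwoA true R₀ m) := by
      refine Lat.Two.loc _ _ _ _ _ ((XP.annAt_finite 0 R₀ m).subset (fun v hv => ?_))
      show R₀ < nrm (v - 0) ∧ nrm (v - 0) ≤ m
      rw [sub_zero]
      exact hv
    have e1 : al L R₀ m ≤ C₂ * al (L.shift x) R₀ m := hsh L h x R₀ m hrb hm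
    have e2 : al (L.shift x) R₀ m = pr2 (fun _ => 1) ((L.shift x).TwoA true R₀ m) := by
      rw [XP.al_lt hlt, pr2_one e0]
    have e3 := hsep (L.shift x) hL' (fun _ => 1) hk1 true R₀ m hra hm
    obtain ⟨W, hW⟩ := exists_annF (8 * R₀) (m / 4)
    have e4 := S4_loss (L := L.shift x) (by omega : 0 ≤ R₀) hm hs hW
    have e5 := hpiv x m W hm (fun v hv => (hW v).1 hv)
    rw [← Finset.mul_sum] at e4
    rw [e2] at e1
    set X := pr2 (kz (kt s) R₀ m) ((L.shift x).S4 R₀ m) with hX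
    set Y := pr2 (kz (fun _ => 1) R₀ m) ((L.shift x).S4 R₀ m) with hY
    set a := al L R₀ m with ha
    set Sp := ∑ v ∈ W, pr (Piv v ((L.shift x).S4 R₀ m)) with hSp
    have f1 : a ≤ C₂ * (C₁ * Y) := e1.trans (mul_le_mul_of_nonneg_left e3 hC₂'.le)
    have f2 : s * (1 / 4 * Sp) ≤ a / (2 * (C₁ * C₂)) := by
      have g1 : s * (1 / 4 * Sp) ≤ s * (1 / 4 * (C₄ * ((m : ℝ) * a) ^ 2)) :=
        mul_le_mul_of_nonneg_left (by linarith) hs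
      have g2 : s * (1 / 4 * (C₄ * ((m : ℝ) * a) ^ 2)) =
          (s * ((m : ℝ) ^ 2 * a)) * (C₄ / 4 * a) := by ring
      have g3 : (s * ((m : ℝ) ^ 2 * a)) * (C₄ / 4 * a) ≤
          2 / (C₁ * C₂ * C₄) * (C₄ / 4 * a) :=
        mul_le_mul_of_nonneg_right hsm (by positivity)
      have g4 : 2 / (C₁ * C₂ * C₄) * (C₄ / 4 * a) = a / (2 * (C₁ * C₂)) := by
        field_simp
        ring
      linarith
    have f3 : a / (C₁ * C₂) ≤ Y := by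
      rw [div_le_iff₀ (by positivity)]
      linarith
    have f4 : a / (C₁ * C₂) = 2 * (a / (2 * (C₁ * C₂))) := by
      field_simp
    have f5 : a / (2 * (C₁ * C₂)) ≤ X := by linarith
    calc min (1 / (2 * (C₁ * C₂))) (κ 20000 ^ 8) * a ≤ 1 / (2 * (C₁ * C₂)) * a :=
          mul_le_mul_of_nonneg_right (min_le_left _ _) hap.le
      _ = a / (2 * (C₁ * C₂)) := by ring
      _ ≤ X := f5
  · subst heq
    have e1 : al L R₀ R₀ = 1 := by unfold al; rw [if_neg (lt_irrefl _)]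
    have e2 : κ 20000 ^ 4 ≤ pr ((L.shift x).S4 R₀ R₀) := S4_base' hL' h16 le_rfl (by omega)
    have e3 := pr2_ge_sq (Lat.S4.loc (L.shift x) R₀ R₀) (kz_kap hks R₀ R₀)
    rw [e1, mul_one]
    refine (min_le_right _ _).trans (le_trans ?_ e3)
    calc κ 20000 ^ 8 = (κ 20000 ^ 4) ^ 2 := by ring
      _ ≤ pr ((L.shift x).S4 R₀ R₀) ^ 2 := pow_le_pow_left₀ (by positivity) e2 2

end TT

end SC
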