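import Pool.Agent.Lib_MP_e0a489.TTK1

/-!
# MP_e0a489, module TT (9c), exponent larger than two beyond the correlation length
-/

set_option autoImplicit false

namespace SC

variable [IfL] [IfX]

namespace TT

open Classical

variable {L : Lat} {C c : ℝ} {R₀ : ℤ}

/-- `t` beyond `ℓ`, `m ≥ ℓ`, `a C ^ 2 ≤ 1`: then `tm L R₀ a m ≤ t` (`TP.beyond_up`: `1 ≤ C ^ 2 t m ^ 2 al`). -/
theorem tm_le_t (hp : TP L C c R₀) {a : ℝ} (ha : 0 < a) (haC : a * C ^ 2 ≤ 1) {ℓ m : ℤ} {t : ℝ}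
    (h1 : R₀ ≤ ℓ) (h2 : ℓ ≤ m) (hb : Beyond L R₀ ℓ t) : tm L R₀ a m ≤ t ∧ 0 ≤ tm L R₀ a m := by
  have h3 : R₀ ≤ m := h1.trans h2
  have hR : (16 : ℤ) ≤ R₀ := hp.ap.R16
  have hal : 0 < al L R₀ m := hp.ap.pos _ _ le_rfl h3
  have hm : (0 : ℝ) < m := by
    have : (0 : ℤ) < m := by omega
    exact_mod_cast this
  have hX : 0 < (m : ℝ) ^ 2 * al L R₀ m := by positivity
  have ht := (hp.beyond_pos h1 hb).1
  have hu := hp.beyond_up h1 h2 hb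
  unfold tm
  refine ⟨?_, by positivity⟩
  rw [div_le_iff₀ hX]
  have hY : 0 < t * ((m : ℝ) ^ 2 * al L R₀ m) := by positivity
  calc a = a * 1 := by ring
    _ ≤ a * (C ^ 2 * (t * ((m : ℝ) ^ 2 * al L R₀ m))) := by gcongr
    _ = (a * C ^ 2) * (t * ((m : ℝ) ^ 2 * al L R₀ m)) := by ring
    _ ≤ 1 * (t * ((m : ℝ) ^ 2 * al L R₀ m)) := by gcongr
    _ = _ := by ring

/-- Pure induction.  `f n = be L t r n` for fixed `r ≥ 1`, `Q ≥ 64`: `0 ≤ f ≤ 1`, and for `n ≥ 2 Q r` there is `m` with `r ≤ m`, `64 m ≤ n`, `n ≤ 2 Q m`,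
`f n ≤ f m * (1/2 (m / n) ^ 2)`.  Then `f n ≤ (2 Q) ^ 3 (r / n) ^ (2 + e)` for all `n ≥ r`, if `(2 Q) ^ e ≤ 2`, `0 ≤ e ≤ 1`.  Strong induction on `n`: for `n < 2 Q r` the right
side is at least `(2 Q) ^ 3 (2 Q) ^ (-3) = 1`; otherwise `f n ≤ (2Q) ^ 3 (r/m) ^ (2+e) (1/2) (m/n) ^ 2 = (2Q) ^ 3 (r/n) ^ (2+e) (1/2) (n/m) ^ e` and
`(n/m) ^ e ≤ (2Q) ^ e ≤ 2`. -/
theorem kb_ind {f : ℤ → ℝ} {r Q : ℤ} {e : ℝ} (hr : 1 ≤ r) (hQ : 64 ≤ Q) (he : 0 ≤ e)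
    (he1 : e ≤ 1) (hQe : (2 * (Q : ℝ)) ^ e ≤ 2) (h0 : ∀ n, 0 ≤ f n) (h1 : ∀ n, f n ≤ 1)
    (hf : ∀ n, 2 * Q * r ≤ n → ∃ m, r ≤ m ∧ 64 * m ≤ n ∧ n ≤ 2 * Q * m ∧
      f n ≤ f m * (1 / 2 * ((m : ℝ) / n) ^ 2)) {n : ℤ} (hn : r ≤ n) :
    f n ≤ (2 * (Q : ℝ)) ^ 3 * ((r : ℝ) / n) ^ (2 + e) := by
  have hQr : (0 : ℝ) < 2 * (Q : ℝ) := by
    have : (0 : ℤ) < 2 * Q := by omega
    exact_mod_cast this
  have hQ1 : (1 : ℝ) ≤ 2 * (Q : ℝ) := by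
    have : (1 : ℤ) ≤ 2 * Q := by omega
    exact_mod_cast this
  have hrr : (0 : ℝ) < r := by
    have : (0 : ℤ) < r := by omega
    exact_mod_cast this
  have key : ∀ k : ℕ, ∀ n : ℤ, r ≤ n → n.toNat = k →
      f n ≤ (2 * (Q : ℝ)) ^ 3 * ((r : ℝ) / n) ^ (2 + e) := by
    intro k
    induction k using Nat.strong_induction_on with
    | _ k ih =>
      intro n hn hk
      have hnr : (0 : ℝ) < n := by
        have : (0 : ℤ) < n := by omega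
        exact_mod_cast this
      rcases lt_or_ge n (2 * Q * r) with hlt | hge
      · have h2 : (n : ℝ) ≤ 2 * Q * r := by exact_mod_cast hlt.le
        have h3 : 1 / (2 * (Q : ℝ)) ≤ (r : ℝ) / n := by
          rw [div_le_div_iff₀ hQr hnr]
          linarith
        have h4 : (1 / (2 * (Q : ℝ))) ^ (3 : ℝ) ≤ (1 / (2 * (Q : ℝ))) ^ (2 + e) := by
          apply Real.rpow_le_rpow_of_exponent_ge (by positivity)
          · rw [div_le_one hQr]; exact hQ1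
          · linarith
        have h5 : (1 / (2 * (Q : ℝ))) ^ (2 + e) ≤ ((r : ℝ) / n) ^ (2 + e) :=
          Real.rpow_le_rpow (by positivity) h3 (by linarith)
        have h6 : (1 / (2 * (Q : ℝ))) ^ (3 : ℝ) = (1 / (2 * (Q : ℝ))) ^ 3 := by
          rw [show (3 : ℝ) = ((3 : ℕ) : ℝ) by norm_num, Real.rpow_natCast]
        calc f n ≤ 1 := h1 n
          _ = (2 * (Q : ℝ)) ^ 3 * (1 / (2 * (Q : ℝ))) ^ 3 := by
              field_simp
          _ ≤ (2 * (Q : ℝ)) ^ 3 * ((r : ℝ) / n) ^ (2 + e) := by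
              rw [← h6]
              gcongr
              exact h4.trans h5
      · obtain ⟨m, hm1, hm2, hm3, hm4⟩ := hf n hge
        have hmr : (0 : ℝ) < m := by
          have : (0 : ℤ) < m := by omega
          exact_mod_cast this
        have hI := ih m.toNat (by omega) m hm1 rfl
        have h2 : (n : ℝ) ≤ 2 * Q * m := by exact_mod_cast hm3
        have h3 : 1 / (2 * (Q : ℝ)) ≤ (m : ℝ) / n := by
          rw [div_le_div_iff₀ hQr hnr]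
          linarith
        have h4 : (1 / (2 * (Q : ℝ))) ^ e ≤ ((m : ℝ) / n) ^ e :=
          Real.rpow_le_rpow (by positivity) h3 he
        have h5 : 1 / 2 ≤ (1 / (2 * (Q : ℝ))) ^ e := by
          rw [Real.div_rpow (by norm_num) hQr.le, Real.one_rpow]
          apply one_div_le_one_div_of_le
          · positivity
          · exact hQe
        have h6 : ((r : ℝ) / n) ^ (2 + e) =
            ((r : ℝ) / m) ^ (2 + e) * (((m : ℝ) / n) ^ 2 * ((m : ℝ) / n) ^ e) := by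
          have h7 : ((m : ℝ) / n) ^ 2 * ((m : ℝ) / n) ^ e = ((m : ℝ) / n) ^ (2 + e) := by
            rw [Real.rpow_add (by positivity)]
            norm_num
          rw [h7, ← Real.mul_rpow (by positivity) (by positivity)]
          congr 1
          field_simp
        calc f n ≤ f m * (1 / 2 * ((m : ℝ) / n) ^ 2) := hm4
          _ ≤ ((2 * (Q : ℝ)) ^ 3 * ((r : ℝ) / m) ^ (2 + e)) * (1 / 2 * ((m : ℝ) / n) ^ 2) := by
              gcongr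
          _ ≤ ((2 * (Q : ℝ)) ^ 3 * ((r : ℝ) / m) ^ (2 + e)) *
                (((m : ℝ) / n) ^ e * ((m : ℝ) / n) ^ 2) := by
              gcongr
              exact h5.trans h4
          _ = (2 * (Q : ℝ)) ^ 3 * ((r : ℝ) / n) ^ (2 + e) := by
              rw [h6]; ring
  exact key _ n hn rfl

/-- KB for the event `TwoA` at the origin.  `a C ^ 2 ≤ 1`.  Choose `B ≥ 64` with `B ^ c ≥ 2 C ^ 2`, `K ≥ 1` with `128 exp (a C ^ 2) / (a c₃) ≤ K / 2`, `Q = B ^ K`, `e ≤ 1/2` with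
`(2 Q) ^ e ≤ 2` (`e = min (1/2) (log 2 / log (2 Q))`).  For `t` beyond `ℓ`, `r ≥ ℓ` and `n ≥ 2 Q r`: `good_scale` (`R₀ Q ≤ r Q ≤ n`) gives `m`, `n ≤ 2 Q m`, so
`m ≥ r` (`2 Q r ≤ n ≤ 2 Q m`), `be L t r n ≤ be L t r m * be L t m n` (`be_submul`), `be L t m n ≤ be L (tm L R₀ a m) m n` (`be_anti`, `tm_le_t`).  `kb_ind`. -/
theorem kb_zero (hp : TP L C c R₀) {x₀ : Pt} {a c₃ : ℝ} (ha : 0 < a) (haC : a * C ^ 2 ≤ 1)
    (hc₃ : 0 < c₃) (hlow : PivLow L R₀ x₀ a c₃) (hen : Energy L) :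
    ∃ C₁ e : ℝ, 1 ≤ C₁ ∧ 0 < e ∧ e ≤ 1 / 2 ∧ ∀ (ℓ : ℤ) (t : ℝ), R₀ ≤ ℓ → Beyond L R₀ ℓ t →
      ∀ r n : ℤ, ℓ ≤ r → r ≤ n → be L t r n ≤ C₁ * ((r : ℝ) / n) ^ (2 + e) := by
  have hR : (16 : ℤ) ≤ R₀ := hp.ap.R16
  have hC1 : 1 ≤ C := hp.ap.C1
  obtain ⟨b₀, hb₀⟩ := exists_nat_ge ((2 * C ^ 2) ^ (1 / c))
  have hc := hp.c0
  set B : ℤ := max 64 (b₀ : ℤ) with hBdef
  have hB : 64 ≤ B := le_max_left _ _
  have hBb : ((2 * C ^ 2) ^ (1 / c) : ℝ) ≤ (B : ℝ) := by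
    refine hb₀.trans ?_
    have : (b₀ : ℤ) ≤ B := le_max_right _ _
    exact_mod_cast this
  have hBc : 2 * C ^ 2 ≤ (B : ℝ) ^ c := by
    have h1 : ((2 * C ^ 2) ^ (1 / c) : ℝ) ^ c ≤ (B : ℝ) ^ c :=
      Real.rpow_le_rpow (by positivity) hBb hc.le
    rwa [← Real.rpow_mul (by positivity), one_div, inv_mul_cancel₀ hc.ne', Real.rpow_one] at h1
  obtain ⟨k₀, hk₀⟩ := exists_nat_ge (2 * (128 * Real.exp (a * C ^ 2) / (a * c₃)))
  set K : ℕ := max 1 k₀ with hKdef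
  have hK1 : 1 ≤ K := le_max_left _ _
  have hK : 128 * Real.exp (a * C ^ 2) / (a * c₃) ≤ (K : ℝ) / 2 := by
    have : (k₀ : ℝ) ≤ (K : ℝ) := by
      have : k₀ ≤ K := le_max_right _ _
      exact_mod_cast this
    linarith
  have hB0 : (0 : ℤ) < B := by omega
  have hQ : 64 ≤ B ^ K := by
    calc (64 : ℤ) ≤ B := hB
      _ = B ^ 1 := by ring
      _ ≤ B ^ K := pow_le_pow_right₀ (by omega) hK1
  have hQr : (128 : ℝ) ≤ 2 * ((B ^ K : ℤ) : ℝ) := by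
    have : (64 : ℝ) ≤ ((B ^ K : ℤ) : ℝ) := by exact_mod_cast hQ
    linarith
  have hlog : 0 < Real.log (2 * ((B ^ K : ℤ) : ℝ)) := Real.log_pos (by linarith)
  have hlog2 : 0 < Real.log 2 := Real.log_pos (by norm_num)
  set e : ℝ := min (1 / 2) (Real.log 2 / Real.log (2 * ((B ^ K : ℤ) : ℝ))) with hedef
  have he0 : 0 < e := lt_min (by norm_num) (div_pos hlog2 hlog)
  have he1 : e ≤ 1 / 2 := min_le_left _ _
  have hQe : (2 * ((B ^ K : ℤ) : ℝ)) ^ e ≤ 2 := by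
    have h1 : (2 * ((B ^ K : ℤ) : ℝ)) ^ e ≤
        (2 * ((B ^ K : ℤ) : ℝ)) ^ (Real.log 2 / Real.log (2 * ((B ^ K : ℤ) : ℝ))) :=
      Real.rpow_le_rpow_of_exponent_le (by linarith) (min_le_right _ _)
    refine h1.trans ?_
    rw [Real.rpow_def_of_pos (by linarith), mul_div_cancel₀ _ hlog.ne']
    exact (Real.exp_log (by norm_num)).le
  refine ⟨(2 * ((B ^ K : ℤ) : ℝ)) ^ 3, e, ?_, he0, he1, ?_⟩
  · exact one_le_pow₀ (by linarith)
  intro ℓ t hℓ hb r n hr hn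
  have ht : 0 ≤ t := (hp.beyond_pos hℓ hb).1.le
  have hQ' : (64 : ℤ) ≤ B ^ K := hQ
  refine kb_ind (f := fun n => be L t r n) (by omega) hQ' he0.le (by linarith) hQe
    (fun n => be_nonneg L ht r n) (fun n => be_le_one L ht r n) ?_ hn
  intro n hn2
  have hrR : R₀ ≤ r := hℓ.trans hr
  have hn3 : R₀ * B ^ K ≤ n := by
    have h1 : R₀ * B ^ K ≤ r * B ^ K := mul_le_mul_of_nonneg_right hrR (by omega)
    have h2 : r * B ^ K ≤ 2 * B ^ K * r := by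
      have : 0 ≤ r * B ^ K := mul_nonneg (by omega) (by omega)
      nlinarith
    linarith
  obtain ⟨m, hm1, hm2, hm3, hm4⟩ := good_scale hp ha hc₃ hlow hen hB hBc hK hK1 hn3
  have hrm : r ≤ m := by
    by_contra hcon
    have hlt : m + 1 ≤ r := by omega
    have h1 : (m + 1) * B ^ K ≤ r * B ^ K := mul_le_mul_of_nonneg_right hlt (by omega)
    nlinarith
  have htm := tm_le_t hp ha haC hℓ (hr.trans hrm) hb
  refine ⟨m, hrm, hm2, by linarith, ?_⟩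
  have hmn : m ≤ n := by omega
  calc be L t r n ≤ be L t r m * be L t m n := be_submul L ht (by omega) hrm hmn
    _ ≤ be L t r m * be L (tm L R₀ a m) m n :=
        mul_le_mul_of_nonneg_left (be_anti L htm.2 htm.1 m n) (be_nonneg L ht _ _)
    _ ≤ be L t r m * (1 / 2 * ((m : ℝ) / n) ^ 2) :=
        mul_le_mul_of_nonneg_left hm4 (be_nonneg L ht _ _)

/-- all centres and colours: `TP.cmpt` with `r' = r`, `R' = R` -/
theorem kb_of_zero (hp : TP L C c R₀) {C₁ e : ℝ}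
    (h : ∀ (ℓ : ℤ) (t : ℝ), R₀ ≤ ℓ → Beyond L R₀ ℓ t →
      ∀ r n : ℤ, ℓ ≤ r → r ≤ n → be L t r n ≤ C₁ * ((r : ℝ) / n) ^ (2 + e)) :
    KBOK L (C * C₁) e R₀ := by
  intro ℓ t hℓ hb b x r R hr hR
  have ht : 0 ≤ t := (hp.beyond_pos hℓ hb).1.le
  have h16 : (16 : ℤ) ≤ R₀ := hp.ap.R16
  have hC0 : 0 ≤ C := by have := hp.ap.C1; linarith
  have h1 := hp.cmpt t ht b x r R r R (hℓ.trans hr) (hℓ.trans hr) hR (by omega) hR (by omega)
  calc pr2 (kt t) (L.TwoAt b x r R) ≤ C * be L t r R := h1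
    _ ≤ C * (C₁ * ((r : ℝ) / R) ^ (2 + e)) := mul_le_mul_of_nonneg_left (h ℓ t hℓ hb r R hr hR) hC0
    _ = C * C₁ * ((r : ℝ) / R) ^ (2 + e) := by ring

end TT

end SC
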