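import Pool.Agent.Lib_MP_e0a489.TTE9
import Pool.Agent.Lib_MP_e0a489.TTI9
import Pool.Agent.Lib_MP_e0a489.TTK2

/-!
# MP_e0a489, module TT (9c): exponent larger than two beyond the correlation length
-/

set_option autoImplicit false

namespace SC

variable [IfL] [IfX]

open Classical

open TT

/-- `inner_low` and `piv_low` -/
theorem TT.pivLow_ex {L : Lat} {κ : ℕ → ℝ} (h : Fam L κ) {x₀ : Pt}
    (hc : ∀ m : ℤ, 8 ≤ m → CoreOK (L.shift x₀) m) :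
    ∃ R₁ : ℤ, 16 ≤ R₁ ∧ ∀ R₀ : ℤ, R₁ ≤ R₀ → ∃ c' c₃ : ℝ, 0 < c' ∧ 0 < c₃ ∧
      ∀ a : ℝ, a ≤ c' → PivLow L R₀ x₀ a c₃ := by
  obtain ⟨R1, hR1, h1⟩ := inner_low h
  obtain ⟨R2, hR2, h2⟩ := piv_low h hc
  refine ⟨max R1 R2, hR1.trans (le_max_left _ _), fun R₀ hR₀ => ?_⟩
  obtain ⟨c', c₁, hc', hc₁, h3⟩ := h1 R₀ ((le_max_left _ _).trans hR₀)
  obtain ⟨c₂, hc₂, h4⟩ := h2 R₀ ((le_max_right _ _).trans hR₀)
  refine ⟨c', c₂ * c₁, hc', mul_pos hc₂ hc₁, ?_⟩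
  intro a ha m N s z hm hN hs hsm hz
  have e1 := h3 (x₀.1 + 2 * z.1, x₀.2 + 2 * z.2) m s hm hs (hsm.trans ha)
  have e2 := h4 m N s z hm hN hs hz
  refine le_trans ?_ e2
  have hb : 0 ≤ be L s m N := be_nonneg L hs m N
  calc c₂ * c₁ * (al L R₀ m * be L s m N) = c₂ * ((c₁ * al L R₀ m) * be L s m N) := by ring
    _ ≤ _ := mul_le_mul_of_nonneg_left (mul_le_mul_of_nonneg_right e1 hb) hc₂.le

/-- BEYOND THE CORRELATION LENGTH. -/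
theorem tt_kb {L : Lat} {κ : ℕ → ℝ} (h : Fam L κ) {x₀ : Pt}
    (hc : ∀ m : ℤ, 8 ≤ m → CoreOK (L.shift x₀) m) :
    ∃ R₁ : ℤ, 16 ≤ R₁ ∧ ∀ R₀ : ℤ, R₁ ≤ R₀ → ∃ C c : ℝ, 1 ≤ C ∧ 0 < c ∧ c ≤ 1 / 2 ∧
      KBOK L C c R₀ := by
  obtain ⟨R1, hR1, h1⟩ := TT.pivLow_ex h hc
  obtain ⟨C, c, R2, h2⟩ := tp_ex h
  refine ⟨max R1 R2, hR1.trans (le_max_left _ _), fun R₀ hR₀ => ?_⟩
  obtain ⟨c', c₃, hc', hc₃, h3⟩ := h1 R₀ ((le_max_left _ _).trans hR₀)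
  have hp : TP L C c R₀ := h2 R₀ ((le_max_right _ _).trans hR₀)
  have hC : 1 ≤ C := hp.ap.C1
  have hC2 : 0 < C ^ 2 := by positivity
  have ha : 0 < min c' (1 / C ^ 2) := lt_min hc' (by positivity)
  have haC : min c' (1 / C ^ 2) * C ^ 2 ≤ 1 := by
    calc min c' (1 / C ^ 2) * C ^ 2 ≤ 1 / C ^ 2 * C ^ 2 :=
          mul_le_mul_of_nonneg_right (min_le_right _ _) hC2.le
      _ = 1 := by field_simp
  have hE : Energy L := by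
    intro N V τ n _ h0 h2
    have e := energy_hx L N V h0 h2 n
    refine le_of_eq_of_le (Finset.sum_congr rfl fun i _ => ?_) e
    ring
  obtain ⟨C₁, e, hC₁, he, he1, h4⟩ := kb_zero hp ha haC hc₃ (h3 _ (min_le_left _ _)) hE
  refine ⟨C * C₁, e, ?_, he, he1, kb_of_zero hp h4⟩
  nlinarith

end SC
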