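import Pool.Agent.Lib_MP_e0a489.HL3
import Pool.Agent.Lib_MP_e0a489.HP11
import Pool.Agent.Lib_MP_e0a489.HP3
import Pool.Agent.Lib_MP_e0a489.HP5
import Pool.Agent.Lib_MP_e0a489.TTHD
import Pool.Agent.Lib_MP_e0a489.TTK9

/-!
# MP_e0a489, half plane 2: the one arm probability and the two-time bound beyond the correlation length

`half_one`: the square of the one arm probability of the half plane is at least `c r / R`.
`kbh_of`: the bound `KBOK` for the four arm event gives the bound `KBHOK` for the half plane.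
-/

set_option autoImplicit false

namespace SC

variable [IfL] [IfX]

open Classical

/-- ONE ARM OF THE LOWER HALF PLANE: `half_two` and `oneH_low`. -/
theorem half_one (κ : ℕ → ℝ) : ∃ (c₀ : ℝ) (R₁ : ℤ), 16 ≤ R₁ ∧ ∀ L : Lat, Fam L κ → 0 < c₀ ∧
    ∀ (s : ℤ) (x : Pt) (c : Bool) (r R : ℤ), R₁ ≤ r → r < R →
      c₀ * ((r : ℝ) / R) ≤ pr (((L.rots s).shift x).Arm c (ann r R ∩ {v | v.2 ≤ -1})
        (((L.rots s).shift x).nb (bx r)) (rng R)) ^ 2 := by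
  obtain ⟨c₁, hc₁, h1⟩ := HL.half_two κ
  obtain ⟨C, R₁, hC, hR₁, h2⟩ := oneH_low κ
  refine ⟨c₁ / C ^ 2, R₁, hR₁, ?_⟩
  intro L hL
  have hp := hc₁ (hL.rsw.pos 5)
  refine ⟨by positivity, ?_⟩
  intro s x c r R hr hrR
  obtain ⟨z, hz⟩ := h1 (L.rots s) (hL.toRots s).rsw r R (by omega) hrR
  have k1 := h2 L hL s s (z, 0) x true c r R rfl hr hrR
  have k2 := h2 L hL s s (z, 0) x false c r R rfl hr hrR
  set p := pr (((L.rots s).shift x).Arm c (ann r R ∩ {v | v.2 ≤ -1})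
        (((L.rots s).shift x).nb (bx r)) (rng R)) with hp'
  have n1 : 0 ≤ ((L.rots s).shift (z, 0)).oneH true r R := pr_nonneg _
  have n2 : 0 ≤ ((L.rots s).shift (z, 0)).oneH false r R := pr_nonneg _
  have n3 : 0 ≤ p := pr_nonneg _
  have e1 : HL.a1 ((L.rots s).shift (z, 0)) true r R =
      ((L.rots s).shift (z, 0)).oneH true r R := rfl
  have e2 : HL.a1 ((L.rots s).shift (z, 0)) false r R =
      ((L.rots s).shift (z, 0)).oneH false r R := rfl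
  rw [e1, e2] at hz
  have k3 := mul_le_mul k1 k2 n2 (mul_nonneg hC.le n3)
  rw [div_mul_eq_mul_div, div_le_iff₀ (by positivity)]
  nlinarith

/-- BEYOND THE CORRELATION LENGTH.  `pr2_half_low`, `pr2_rots`, `pr2_ge_sq`, `half_one`. -/
theorem kbh_of (κ : ℕ → ℝ) : ∃ R₁ : ℤ, 16 ≤ R₁ ∧ ∀ C : ℝ, 0 < C → ∃ C' : ℝ, 0 < C' ∧
    ∀ L : Lat, Fam L κ → ∀ (c : ℝ) (R₀ : ℤ), R₁ ≤ R₀ → KBOK L C c R₀ → KBHOK L C' c R₀ := by
  obtain ⟨c₀, R₁, hR₁, h1⟩ := half_one κ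
  refine ⟨R₁, hR₁, fun C hC => ⟨1 + C / |c₀|, by positivity, ?_⟩⟩
  intro L hL c R₀ hR₀ hK
  obtain ⟨hc₀, h2⟩ := h1 L hL
  rw [abs_of_pos hc₀]
  intro ℓ t hℓ hB s b x H r R hH hr hrR
  have hal : 0 ≤ al L R₀ ℓ := by
    unfold al
    split_ifs
    · exact pr_nonneg _
    · exact zero_le_one
  have ht : 0 ≤ t := by
    by_contra hcon
    push Not at hcon
    have h0 : 0 ≤ (ℓ : ℝ) ^ 2 * al L R₀ ℓ := by positivity
    have h1 : 1 ≤ t * ((ℓ : ℝ) ^ 2 * al L R₀ ℓ) := hB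
    nlinarith
  have hkt : Kap (kt t) := by
    intro v
    refine ⟨(Real.exp_pos _).le, ?_⟩
    show Real.exp (-t) ≤ 1
    rw [← Real.exp_zero]
    exact Real.exp_le_exp.2 (by linarith)
  have hr0 : (0 : ℝ) < r := by
    have : (1 : ℤ) ≤ r := by omega
    exact_mod_cast this
  have hR0 : (0 : ℝ) < R := by
    have : (1 : ℤ) ≤ R := by omega
    exact_mod_cast this
  have hq : 0 < (r : ℝ) / R := by positivity
  rcases hrR.eq_or_lt with he | hlt
  · subst he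
    have h3 : pr2 (kt t) (((L.rots s).shift x).TwoH b H r r) ≤ 1 :=
      pr2_le_one (Lat.TwoH.loc _ _ _ _ _) hkt
    rw [div_self hr0.ne', Real.one_rpow, mul_one]
    have : 0 < C / c₀ := by positivity
    linarith
  · have h3 := Lat.pr2_half_low ((L.rots s).shift x) b (by omega) hlt hH hkt
    rw [pr2_rots] at h3
    have h4 := hK ℓ t hℓ hB b (rt s x) r R hr hrR
    have h5 := h2 s x (!b) r R (by omega) hlt
    have hloc : Loc (((L.rots s).shift x).Arm (!b) (ann r R ∩ {v | v.2 ≤ -1})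
        (((L.rots s).shift x).nb (bx r)) (rng R)) := by
      refine XP.loc_of_dep (D := ann r R) ?_
        ((Lat.Arm.dep _ _ _ _ _).mono Set.inter_subset_left)
      refine (XP.annAt_finite 0 r R).subset (fun v hv => ?_)
      show r < nrm (v - 0) ∧ nrm (v - 0) ≤ R
      rw [sub_zero]
      exact hv
    have h6 := pr2_ge_sq hloc hkt
    have n1 : 0 ≤ pr2 (kt t) (((L.rots s).shift x).TwoH b H r R) := pr2_nonneg _ hkt
    have h7 : ((r : ℝ) / R) ^ (2 + c) = ((r : ℝ) / R) * ((r : ℝ) / R) ^ (1 + c) := by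
      have e : (2 + c : ℝ) = 1 + (1 + c) := by ring
      rw [e, Real.rpow_add hq, Real.rpow_one]
    set β := pr2 (kt t) (((L.rots s).shift x).TwoH b H r R) with hβ
    set w := ((r : ℝ) / R) ^ (1 + c) with hw
    have hw0 : 0 < w := Real.rpow_pos_of_pos hq _
    have h8 : β * (c₀ * ((r : ℝ) / R)) ≤ C * (((r : ℝ) / R) * w) := by
      rw [← h7]
      exact (mul_le_mul_of_nonneg_left (h5.trans h6) n1).trans (h3.trans h4)
    have h9 : β * c₀ ≤ C * w := by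
      have : (β * c₀) * ((r : ℝ) / R) ≤ (C * w) * ((r : ℝ) / R) := by
        calc (β * c₀) * ((r : ℝ) / R) = β * (c₀ * ((r : ℝ) / R)) := by ring
          _ ≤ C * (((r : ℝ) / R) * w) := h8
          _ = (C * w) * ((r : ℝ) / R) := by ring
      exact le_of_mul_le_mul_right this hq
    have h10 : β ≤ C / c₀ * w := by
      rw [div_mul_eq_mul_div, le_div_iff₀ hc₀]
      exact h9
    nlinarith

/-- BEYOND THE CORRELATION LENGTH, half plane: `tt_kb` and `kbh_of`. -/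
theorem kbh {L : Lat} {κ : ℕ → ℝ} (h : Fam L κ) {x₀ : Pt}
    (hc : ∀ m : ℤ, 8 ≤ m → CoreOK (L.shift x₀) m) :
    ∃ R₁ : ℤ, 16 ≤ R₁ ∧ ∀ R₀ : ℤ, R₁ ≤ R₀ → ∃ C c : ℝ, 0 < C ∧ 0 < c ∧ c ≤ 1 / 2 ∧
      KBHOK L C c R₀ := by
  obtain ⟨R1, hR1, h1⟩ := tt_kb h hc
  obtain ⟨R2, hR2, h2⟩ := kbh_of κ
  refine ⟨max R1 R2, hR1.trans (le_max_left _ _), fun R₀ hR₀ => ?_⟩
  obtain ⟨C, c, hC, hc0, hc1, hK⟩ := h1 R₀ ((le_max_left _ _).trans hR₀)
  obtain ⟨C', hC', h3⟩ := h2 C (by linarith)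
  exact ⟨C', c, hC', hc0, hc1, h3 L h c R₀ ((le_max_right _ _).trans hR₀) hK⟩

end SC
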