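import Pool.Agent.Lib_MP_e0a489.HL1
import Pool.Agent.Lib_MP_e0a489.XP1
import Pool.Agent.Lib_MP_e0a489.XP2b

/-!
# MP_e0a489, half plane 3: lower bound for the product of the one arm probabilities of the half plane

The two arm exponent of the half plane is one: `half_two`.
-/

set_option autoImplicit false

namespace SC

open Classical

namespace HL

open XP

/-- one arm of the half annulus -/
noncomputable def a1 (L : Lat) (c : Bool) (r R : ℤ) : ℝ :=
  pr (L.Arm c (ann r R ∩ {v | 0 ≤ v.2}) (L.nb (bx r)) (rng R))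

/-- the arm around the site `z` of the line -/
def Az (L : Lat) (z : ℤ) (c : Bool) (r R : ℤ) (ω : Cfg) : Prop :=
  L.Arm c (annAt (z, 0) r R ∩ {v | 0 ≤ v.2}) (L.nb (bxAt (z, 0) r)) (rngAt (z, 0) R) ω

private theorem loc_exI {ι : Type} {A : ι → Cfg → Prop} (I : Finset ι)
    (h : ∀ i ∈ I, Loc (A i)) : Loc (fun ω => ∃ i ∈ I, A i ω) := by
  induction I using Finset.induction_on with
  | empty =>
    refine ⟨∅, fun ω ω' _ => ?_⟩
    simp
  | insert a s _ ih =>
    have e : (fun ω => ∃ i ∈ insert a s, A i ω) = fun ω => A a ω ∨ ∃ i ∈ s, A i ω := by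
      funext ω
      simp
    rw [e]
    exact (h a (Finset.mem_insert_self a s)).or
      (ih fun i hi => h i (Finset.mem_insert_of_mem hi))

theorem Az_loc (L : Lat) (z : ℤ) (c : Bool) (r R : ℤ) : Loc (Az L z c r R) :=
  loc_of_dep ((annAt_finite (z, 0) r R).subset Set.inter_subset_left) (Lat.Arm.dep L c _ _ _)

theorem Az_pr (L : Lat) (z : ℤ) (c : Bool) (r R : ℤ) :
    pr (Az L z c r R) = a1 (L.shift (z, 0)) c r R := by
  have hloc : Loc ((L.shift (z, 0)).Arm c (ann r R ∩ {v | 0 ≤ v.2})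
      ((L.shift (z, 0)).nb (bx r)) (rng R)) := by
    refine loc_of_dep (D := ann r R) ?_ ((Lat.Arm.dep _ c _ _ _).mono Set.inter_subset_left)
    refine (annAt_finite 0 r R).subset (fun v hv => ?_)
    show r < nrm (v - 0) ∧ nrm (v - 0) ≤ R
    rw [sub_zero]
    exact hv
  unfold a1
  rw [← pr_via hloc (Equiv.addRight (z, 0))]
  congr 1
  funext ω
  apply propext
  rw [(tr_shift L (z, 0)).arm, (tr_shift L (z, 0)).nb,
    Set.image_inter (Equiv.addRight ((z, 0) : Pt)).injective, image_ann0, image_bx0, image_rng0]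
  have e : (Equiv.addRight ((z, 0) : Pt) : Equiv.Perm Pt) '' {v | 0 ≤ v.2} = {v | 0 ≤ v.2} := by
    ext v
    constructor
    · rintro ⟨u, hu, rfl⟩
      show 0 ≤ u.2 + 0
      rw [add_zero]
      exact hu
    · intro hv
      refine ⟨v - (z, 0), ?_, ?_⟩
      · show 0 ≤ v.2 - 0
        rw [sub_zero]
        exact hv
      · show v - (z, 0) + (z, 0) = v
        rw [sub_add_cancel]
  rw [e]
  rfl

/-- an arm from a site near `(z, 0)` to the far sides gives an arm in the half annulus -/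
theorem to_arm {L : Lat} {a b h x z r R : ℤ} {c : Bool} {ω : Cfg} (hrR : r < R)
    (hx : |x - z| ≤ r) (hfr : ∀ y ∈ fr a b h, R ≤ nrm (y - (z, 0)))
    (hA : L.Arm c (rect a b 0 h) {(x, 0)} (fr a b h) ω) : Az L z c r R ω := by
  obtain ⟨u, hu, y, hy, hc⟩ := hA
  rw [Set.mem_singleton_iff] at hu
  subst hu
  have hu' : ((x, 0) : Pt) ∈ bxAt (z, 0) r := by
    show nrm ((x, 0) - (z, 0)) ≤ r
    unfold nrm
    simp only [Prod.mk_sub_mk, sub_zero, abs_zero]
    exact max_le hx (le_trans (abs_nonneg _) hx)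
  have hy' : y ∉ bxAt (z, 0) r := by
    intro h1
    have h2 : nrm (y - (z, 0)) ≤ r := h1
    have h3 := hfr y hy
    omega
  obtain ⟨p, q, hpA, hpS, hpq, hqy⟩ := hc.last hu' hy'
  have hpS' : nrm (p - (z, 0)) ≤ r := hpS
  have hq : nrm (q - (z, 0)) ≤ R := by
    have := abs_le.1 (adj_nrm hpq ((z, 0) : Pt))
    omega
  obtain ⟨w, hw, hqw⟩ := to_rngAt hqy hq (hfr y hy)
  refine ⟨q, ⟨p, hpS, hpq⟩, w, hw, hqw.mono ?_⟩
  rintro v ⟨⟨⟨hv1, hv2⟩, hv3⟩, hv4⟩
  refine ⟨⟨⟨?_, hv4⟩, hv1.2.1⟩, hv2⟩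
  by_contra h1
  exact hv3 (not_lt.1 h1)

/-- On the event of an open crossing in the left part and a closed crossing in the right part there is a block
of the line with arms of both colours. -/
theorem exists_block {L : Lat} {r R : ℤ} {ω : Cfg} (hr : 1 ≤ r) (hrR : r < R)
    (h1 : L.VX true (-(R + r)) (-(R + r) + (R + r) / 2) 0 (2 * (R + r)) ω)
    (h2 : L.VX false ((R + r) - (R + r) / 2) (R + r) 0 (2 * (R + r)) ω) :
    ∃ i ∈ Finset.Icc (-((R + r) / r + 1)) ((R + r) / r + 1),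
      Az L (i * r) true r R ω ∧ Az L (i * r) false r R ω := by
  set N : ℤ := R + r with hN
  obtain ⟨u, v, hu, hv, hc⟩ := h1
  obtain ⟨u', v', hu', hv', hc'⟩ := h2
  have hlu := hc.left.1
  have hrv := hc.right.1
  have hlu' := hc'.left.1
  have hrv' := hc'.right.1
  obtain ⟨x₁, y₁⟩ := u
  obtain ⟨x₂, y₂⟩ := u'
  simp only at hu hu'
  subst hu
  subst hu'
  simp only [rect, Set.mem_ofPred_eq] at hlu hrv hlu' hrv'
  have hD : ∀ a b : ℤ, -N ≤ a → b ≤ N → rect a b 0 (2 * N) ⊆ rect (-(2 * N)) (2 * N) 0 (2 * N) := by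
    intro a b ha hb w hw
    simp only [rect, Set.mem_ofPred_eq] at hw ⊢
    omega
  have hA1 : L.Arm true (rect (-(2 * N)) (2 * N) 0 (2 * N)) {(x₁, 0)}
      (fr (-(2 * N)) (2 * N) (2 * N)) ω := by
    refine ⟨(x₁, 0), rfl, v, ⟨?_, Or.inr (Or.inr hv)⟩, hc.mono ?_⟩
    · simp only [rect, Set.mem_ofPred_eq]
      omega
    · exact Set.inter_subset_inter_left _ (hD _ _ (by omega) (by omega))
  have hA2 : L.Arm (!true) (rect (-(2 * N)) (2 * N) 0 (2 * N)) {(x₂, 0)}
      (fr (-(2 * N)) (2 * N) (2 * N)) ω := by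
    refine ⟨(x₂, 0), rfl, v', ⟨?_, Or.inr (Or.inr hv')⟩, hc'.mono ?_⟩
    · simp only [rect, Set.mem_ofPred_eq]
      omega
    · exact Set.inter_subset_inter_left _ (hD _ _ (by omega) (by omega))
  obtain ⟨x, hx1, hx2, hxA, hxB⟩ := Lat.switch (by omega) (by omega) (by omega) (by omega) hA1 hA2
  have hr0 : 0 < r := by omega
  have hm1 := Int.emod_nonneg x hr0.ne'
  have hm2 := Int.emod_lt_of_pos x hr0
  have hm3 : x / r * r = x - x % r := by
    have := Int.emod_add_mul_ediv x r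
    linarith
  have hfr : ∀ y ∈ fr (-(2 * N)) (2 * N) (2 * N), R ≤ nrm (y - (x / r * r, 0)) := by
    rintro ⟨p, q⟩ ⟨-, hy⟩
    simp only at hy
    have e1 : |p - x / r * r| ≤ nrm ((p, q) - (x / r * r, 0)) := le_max_left _ _
    have e2 : |q - 0| ≤ nrm ((p, q) - (x / r * r, 0)) := le_max_right _ _
    have e3 := le_abs_self (p - x / r * r)
    have e4 := neg_abs_le (p - x / r * r)
    have e5 := le_abs_self (q - 0)
    rcases hy with h | h | h <;> omega
  refine ⟨x / r, ?_, ?_, ?_⟩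
  · rw [Finset.mem_Icc]
    constructor
    · have h3 : -(x / r) - 1 ≤ N / r := by
        rw [Int.le_ediv_iff_mul_le hr0]
        linarith
      linarith
    · have h3 : x / r ≤ N / r := by
        rw [Int.le_ediv_iff_mul_le hr0]
        linarith
      linarith
  · refine to_arm hrR ?_ hfr hxA
    rw [abs_le]
    constructor <;> linarith
  · refine to_arm hrR ?_ hfr hxB
    rw [abs_le]
    constructor <;> linarith

/-- TWO ARMS OF THE HALF PLANE.  `P(E) ≥ κ 5 ^ 2` for the two crossings (disjoint rectangles); by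
`exists_block` and Harris (`pr_harris_neg`) the sum over the at most `7 R / r` blocks of the products is at
least `κ 5 ^ 2`. -/
theorem half_two (κ : ℕ → ℝ) : ∃ c₀ : ℝ, (0 < κ 5 → 0 < c₀) ∧ ∀ L : Lat, RSW L κ →
    ∀ r R : ℤ, 8 ≤ r → r < R → ∃ z : ℤ,
      c₀ * ((r : ℝ) / R) ≤ a1 (L.shift (z, 0)) true r R * a1 (L.shift (z, 0)) false r R := by
  refine ⟨κ 5 ^ 2 / 7, fun h => by positivity, ?_⟩
  intro L hL r R hr hrR
  by_contra hno
  push Not at hno
  set N : ℤ := R + r with hN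
  have hk := hL.pos 5
  have h1 : κ 5 ≤ pr (L.VX true (-N) (-N + N / 2) 0 (2 * N)) :=
    hL.vx' (by norm_num) true (by omega) (by omega) (by push_cast; omega)
  have h2 : κ 5 ≤ pr (L.VX false (N - N / 2) N 0 (2 * N)) :=
    hL.vx' (by norm_num) false (by omega) (by omega) (by push_cast; omega)
  have h3 : pr (fun ω => L.VX true (-N) (-N + N / 2) 0 (2 * N) ω ∧
      L.VX false (N - N / 2) N 0 (2 * N) ω) = pr (L.VX true (-N) (-N + N / 2) 0 (2 * N)) *
        pr (L.VX false (N - N / 2) N 0 (2 * N)) := by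
    refine pr_and (Lat.VX.loc L _ _ _ _ _) (Lat.VX.loc L _ _ _ _ _) (Lat.VX.dep L _ _ _ _ _)
      (Lat.VX.dep L _ _ _ _ _) (fun v hv hv' => ?_)
    simp only [rect, Set.mem_ofPred_eq] at hv hv'
    omega
  have hB : ∀ i : ℤ, Loc (fun ω => Az L (i * r) true r R ω ∧ Az L (i * r) false r R ω) :=
    fun i => (Az_loc _ _ _ _ _).and (Az_loc _ _ _ _ _)
  set I : Finset ℤ := Finset.Icc (-(N / r + 1)) (N / r + 1) with hI
  have h4 : pr (fun ω => L.VX true (-N) (-N + N / 2) 0 (2 * N) ω ∧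
      L.VX false (N - N / 2) N 0 (2 * N) ω) ≤
      pr (fun ω => ∃ i ∈ I, Az L (i * r) true r R ω ∧ Az L (i * r) false r R ω) := by
    refine pr_mono ((Lat.VX.loc L _ _ _ _ _).and (Lat.VX.loc L _ _ _ _ _)) ?_ (fun ω hω => ?_)
    · exact loc_exI I (fun i _ => hB i)
    · exact exists_block (by omega) hrR hω.1 hω.2
  have h5 := pr_ex_le (I := I) (A := fun i ω => Az L (i * r) true r R ω ∧ Az L (i * r) false r R ω)
    (fun i _ => hB i)
  have hr0 : (0 : ℝ) < r := by exact_mod_cast (by omega : 0 < r)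
  have hR0 : (0 : ℝ) < R := by exact_mod_cast (by omega : 0 < R)
  have h6 : ∀ i ∈ I, pr (fun ω => Az L (i * r) true r R ω ∧ Az L (i * r) false r R ω) ≤
      κ 5 ^ 2 / 7 * ((r : ℝ) / R) := by
    intro i _
    have hm1 := Lat.Arm.mon L true (annAt (i * r, 0) r R ∩ {v | 0 ≤ v.2}) (L.nb (bxAt (i * r, 0) r))
      (rngAt (i * r, 0) R)
    have hm2 := Lat.Arm.mon L false (annAt (i * r, 0) r R ∩ {v | 0 ≤ v.2})
      (L.nb (bxAt (i * r, 0) r)) (rngAt (i * r, 0) R)
    refine le_trans (pr_harris_neg (Az_loc _ _ _ _ _) (Az_loc _ _ _ _ _) hm1 hm2) ?_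
    rw [Az_pr, Az_pr]
    exact (hno (i * r)).le
  have h7 : ∑ i ∈ I, pr (fun ω => Az L (i * r) true r R ω ∧ Az L (i * r) false r R ω) ≤
      I.card * (κ 5 ^ 2 / 7 * ((r : ℝ) / R)) := by
    refine le_trans (Finset.sum_le_sum h6) ?_
    rw [Finset.sum_const, nsmul_eq_mul]
  have hcard : (I.card : ℝ) < 7 * ((R : ℝ) / r) := by
    have e1 : I.card = (N / r + 1 + 1 - -(N / r + 1)).toNat := Int.card_Icc _ _
    have e0 : 0 ≤ N / r := Int.ediv_nonneg (by omega) (by omega)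
    have e2 : ((I.card : ℕ) : ℤ) = 2 * (N / r) + 3 := by
      rw [e1, Int.toNat_of_nonneg (by omega)]
      ring
    have e3 : (I.card : ℝ) = 2 * ((N / r : ℤ) : ℝ) + 3 := by
      have : (((I.card : ℕ) : ℤ) : ℝ) = ((2 * (N / r) + 3 : ℤ) : ℝ) := by rw [e2]
      push_cast at this
      push_cast
      exact this
    have e4 : ((N / r : ℤ) : ℝ) ≤ (R : ℝ) / r + 1 := by
      have h8 : (N / r) * r ≤ N := Int.ediv_mul_le N (by omega)
      have h9 : ((N / r : ℤ) : ℝ) * r ≤ (R : ℝ) + r := by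
        have : (((N / r) * r : ℤ) : ℝ) ≤ ((N : ℤ) : ℝ) := by exact_mod_cast h8
        rw [hN] at this
        push_cast at this
        rw [hN]
        push_cast
        exact this
      have h10 : ((N / r : ℤ) : ℝ) ≤ ((R : ℝ) + r) / r := by
        rw [le_div_iff₀ hr0]
        exact h9
      rw [add_div, div_self hr0.ne'] at h10
      exact h10
    have e5 : (1 : ℝ) < (R : ℝ) / r := by
      rw [one_lt_div hr0]
      exact_mod_cast hrR
    rw [e3]
    linarith
  have h8 : κ 5 * κ 5 ≤ pr (L.VX true (-N) (-N + N / 2) 0 (2 * N)) *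
        pr (L.VX false (N - N / 2) N 0 (2 * N)) := mul_le_mul h1 h2 hk.le (hk.le.trans h1)
  have h9 : (I.card : ℝ) * (κ 5 ^ 2 / 7 * ((r : ℝ) / R)) <
      7 * ((R : ℝ) / r) * (κ 5 ^ 2 / 7 * ((r : ℝ) / R)) :=
    mul_lt_mul_of_pos_right hcard (by positivity)
  have h10 : 7 * ((R : ℝ) / r) * (κ 5 ^ 2 / 7 * ((r : ℝ) / R)) = κ 5 * κ 5 := by
    field_simp
  linarith

end HL

end SC
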