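import Pool.Agent.Lib_MP_e0a489.TC1

/-!
# MP_e0a489, module HP 1: exactness of a rectangle with some sites of one more row
-/

set_option autoImplicit false

namespace SC

open Classical

namespace Lat

variable {L : Lat}

private theorem hp1_a : ∀ x y : ZMod 2, y = x + y + x := by decide

private theorem hp1_b : ∀ vw w u vu : ZMod 2, vw + (w + u) = vu → vu = w + vw + u := by decide

private theorem hp1_c : ∀ x y w uv : ZMod 2, x + w + (y + w) = uv → uv = x + y := by decide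

/-- RECTANGLE WITH SOME SITES OF THE ROW BELOW IT.  Let `φ` be a cochain of `M = rect a b 1 d ∪ U` as in `Exact`.  `exact_rect a b 1 d C`
(restrict the hypotheses) gives `ψ₀` with `φ u v = ψ₀ u + ψ₀ v` for adjacent `u, v ∈ rect a b 1 d`.  Put `ψ v = ψ₀ v` if `1 ≤ v.2` and
`ψ v = ψ₀ (v.1, 1) + φ v (v.1, 1)` if `v.2 ≤ 0`; for `v = (x, 0) ∈ U` the site `(x, 1)` is in `rect a b 1 d` (`a ≤ x ≤ b`, `1 ≤ d`).
Adjacent `u, v ∈ M` (`φ` is symmetric, so up to exchange):
(1) both in rows `≥ 1`: `ψ₀`.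
(2) `v = (x, 0)`, `u` in row `1` (`Adj.near`: `u.1 ∈ {x - 1, x, x + 1}`): if `u = (x, 1)` by definition (characteristic 2); otherwise the triangle
`v, (x, 1), u` gives `φ v u = φ v (x, 1) + φ (x, 1) u = ψ v + ψ₀ (x, 1) + ψ₀ (x, 1) + ψ₀ u` (`(x,1)` and `u` are nearest neighbours).
(3) both in row `0`: `u = (x, 0)`, `v = (x + 1, 0)` (or exchanged); the cell with lower left corner `(x, 0)` has a diagonal: if `L.ne x 0 = true` the site `w = (x + 1, 1)`,
otherwise the site `w = (x, 1)` is adjacent to both; `w ∈ rect a b 1 d`, and `φ u v = φ u w + φ w v`, both terms by (2).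
(There is no other case: adjacent sites differ by at most one in the second coordinate.) -/
theorem exact_row {a b d : ℤ} (hd : 1 ≤ d) {U : Set Pt} (hU : U ⊆ rect a b 0 0) (C : Set Pt) :
    L.Exact (rect a b 1 d ∪ U) C := by
  intro φ hs hc h0
  obtain ⟨ψ₀, h₀⟩ := exact_rect (L := L) a b 1 d C φ hs
    (fun u hu v hv w hw => hc u (Or.inl hu) v (Or.inl hv) w (Or.inl hw))
    (fun u hu v hv => h0 u (Or.inl hu) v (Or.inl hv))
  obtain ⟨ψ, hψ⟩ : ∃ ψ : Pt → ZMod 2, ∀ v, ψ v = if 1 ≤ v.2 then ψ₀ v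
      else ψ₀ (v.1, 1) + φ v (v.1, 1) := ⟨_, fun _ => rfl⟩
  have hψ1 : ∀ v ∈ rect a b 1 d, ψ v = ψ₀ v := fun v hv => by
    rw [hψ, if_pos hv.2.1]
  have hU0 : ∀ v ∈ U, v.2 = 0 := fun v hv => le_antisymm (hU hv).2.2 (hU hv).2.1
  have hψ0 : ∀ v ∈ U, ψ v = ψ₀ (v.1, 1) + φ v (v.1, 1) := fun v hv => by
    rw [hψ, if_neg (by rw [hU0 v hv]; norm_num)]
  have hup : ∀ v ∈ U, ((v.1, 1) : Pt) ∈ rect a b 1 d := fun v hv =>
    ⟨(hU hv).1, le_rfl, hd⟩
  have adj01 : ∀ v ∈ U, L.Adj v (v.1, 1) := fun v hv => by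
    have h := adj_up (L := L) v
    rw [hU0 v hv] at h
    exact h
  have B : ∀ v ∈ U, ∀ u ∈ rect a b 1 d, L.Adj v u → φ v u = ψ v + ψ u := by
    intro v hv u hu hvu
    have hn := hvu.near
    have hv2 := hU0 v hv
    have hu2 := hu.2.1
    have hn2 := abs_le.1 hn.2
    have hu1 : u.2 = 1 := by omega
    rw [hψ0 v hv, hψ1 u hu]
    by_cases he : u.1 = v.1
    · have hue : u = (v.1, 1) := Prod.ext he hu1
      rw [hue]
      exact hp1_a _ _
    · have hn1 := abs_le.1 hn.1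
      have hwu : L.Adj (v.1, 1) u := by
        refine adj_of_nn ?_
        have e1 : |(1 : ℤ) - u.2| = 0 := by rw [hu1]; norm_num
        have e2 : |v.1 - u.1| = 1 := by
          rcases abs_cases (v.1 - u.1) with ⟨e, _⟩ | ⟨e, _⟩ <;> omega
        show |v.1 - u.1| + |(1 : ℤ) - u.2| = 1
        rw [e1, e2]
        norm_num
      have h1 := hc v (Or.inr hv) (v.1, 1) (Or.inl (hup v hv)) u (Or.inl hu) (adj01 v hv) hwu hvu
      rw [h₀ _ (hup v hv) u hu hwu] at h1
      exact hp1_b _ _ _ _ h1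
  have Cc : ∀ u ∈ U, ∀ v ∈ U, v.1 = u.1 + 1 → L.Adj u v → φ u v = ψ u + ψ v := by
    intro u hu v hv he huv
    have hu0 := hU0 u hu
    have hv0 := hU0 v hv
    have hue : u = (u.1, 0) := Prod.ext rfl hu0
    have hve : v = (u.1 + 1, 0) := Prod.ext he hv0
    obtain ⟨w, hw, huw, hvw⟩ : ∃ w ∈ rect a b 1 d, L.Adj u w ∧ L.Adj v w := by
      cases hne : L.ne u.1 0 with
      | true =>
        refine ⟨(v.1, 1), hup v hv, ?_, adj01 v hv⟩
        rw [he, hue]
        exact Or.inl (Or.inr (Or.inr (Or.inl ⟨rfl, rfl, hne⟩)))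
      | false =>
        refine ⟨(u.1, 1), hup u hu, adj01 u hu, ?_⟩
        rw [hve]
        exact Or.inl (Or.inr (Or.inr (Or.inr ⟨by simp, rfl, hne⟩)))
    have h1 := hc u (Or.inr hu) w (Or.inl hw) v (Or.inr hv) huw hvw.symm huv
    rw [hs w v, B u hu w hw huw, B v hv w hw hvw] at h1
    exact hp1_c _ _ _ _ h1
  refine ⟨ψ, ?_⟩
  rintro u (hu | hu) v (hv | hv) huv
  · rw [hψ1 u hu, hψ1 v hv]
    exact h₀ u hu v hv huv
  · rw [hs, B v hv u hu huv.symm, add_comm]
  · exact B u hu v hv huv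
  · have hn := abs_le.1 huv.near.1
    have hne := huv.ne
    have hu0 := hU0 u hu
    have hv0 := hU0 v hv
    rcases lt_trichotomy u.1 v.1 with h | h | h
    · exact Cc u hu v hv (by omega) huv
    · exact absurd (Prod.ext h (hu0.trans hv0.symm)) hne
    · rw [hs, Cc v hv u hu (by omega) huv.symm, add_comm]

end Lat

end SC
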