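import Pool.Agent.Lib_MP_e0a489.HP7

/-!
# MP_e0a489, module HP 8: probability of an arm in the half plane or the quarter plane, radial extension
-/

set_option autoImplicit false

namespace SC

open Classical

/-- probability of an arm of colour `c` in the half plane (`q = false`) or the quarter plane (`q = true`) -/
noncomputable def aU (L : Lat) (q c : Bool) (r R : ℤ) : ℝ :=
  pr (L.Arm c (ann r R ∩ Uq q) (L.nb (bx r)) (rng R))

private theorem hp8_finite (r R : ℤ) : (ann r R).Finite := by
  refine (Finset.finite_toSet (Finset.Icc (-R) R ×ˢ Finset.Icc (-R) R)).subset ?_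
  intro v hv
  have h1 : max |v.1| |v.2| ≤ R := hv.2
  rw [max_le_iff, abs_le, abs_le] at h1
  simp only [Finset.coe_product, Finset.coe_Icc, Set.mem_prod, Set.mem_Icc]
  exact h1

private theorem hp8_loc (L : Lat) (q c : Bool) (r R : ℤ) :
    Loc (L.Arm c (ann r R ∩ Uq q) (L.nb (bx r)) (rng R)) :=
  Lat.Arm.loc L c _ _ _ ((hp8_finite r R).subset Set.inter_subset_left)

private theorem hp8_zero {A : Cfg → Prop} (h : ∀ ω, ¬ A ω) : pr A = 0 := by
  have e : ind A = fun _ => (0 : ℝ) := by
    funext ω
    unfold ind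
    rw [if_neg (h ω)]
  unfold pr
  rw [e]
  exact ex_const 0

theorem aU_nonneg (L : Lat) (q c : Bool) (r R : ℤ) : 0 ≤ aU L q c r R :=
  pr_nonneg _

/-- `strip_arm` with `w = r / 2`, `RSW.vx'` with `k = 200`: `R - (r + 1) ≤ 63 r ≤ 200 (r / 2)`. -/
theorem aU_low {L : Lat} {κ : ℕ → ℝ} (h : RSW L κ) (q c : Bool) {r R : ℤ} (hr : 16 ≤ r)
    (hR : r < R) (hR' : R ≤ 64 * r) : κ 200 ≤ aU L q c r R := by
  have h1 : κ 200 ≤ pr (L.VX c 0 (r / 2) (r + 1) R) := by
    refine h.vx' (by norm_num) c (by omega) (by omega) ?_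
    push_cast
    omega
  exact h1.trans (pr_mono (Lat.VX.loc L c _ _ _ _) (hp8_loc L q c r R)
    fun ω hω => Lat.strip_arm (by omega) (by omega) hω)

/-- RADIAL EXTENSION.  `R ≤ r`: the annulus `ann r R` is empty, the left side is `0` (`pr` of the impossible event).  `r < R < 4 r`: then `r' < R' ≤ 16 r ≤ 64 r'`, the left side is at most `1` and
`aU_low` bounds the right side.  `4 r ≤ R`: `armU_ext` and Harris (`pr_harris_mon`) for the five events `Arm`, `Ci q c (r+1) (2r)`, `Ci q c (R/2) R` (`ci_pr` with `k = 5`), and the two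
vertical crossings (`RSW.vx'` with `k = 200`: `2 r - r' - 1 ≤ 7 r' ≤ 200 (r'/2)` and `R' - R/2 ≤ 4 R ≤ 200 (R / 4)`): `aU L q c r R * (κ 5 ^ 3 * κ 5 ^ 3 * κ 200 * κ 200) ≤ aU L q c r' R'`.
`C = 1 / κ 200 + 1 / (κ 5 ^ 6 * κ 200 ^ 2)`; if no lattice has `RSW L κ` there is nothing to prove, otherwise `κ k > 0` (`RSW.pos`). -/
theorem aU_ext (κ : ℕ → ℝ) : ∃ C : ℝ, 0 < C ∧ ∀ L : Lat, RSW L κ →
    ∀ (q c : Bool) (r R r' R' : ℤ), 16 ≤ r' → r' ≤ r → r ≤ 4 * r' → R ≤ R' → R' ≤ 4 * R →
      aU L q c r R ≤ C * aU L q c r' R' := by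
  by_cases hκ : 0 < κ 200 ∧ 0 < κ 5
  · obtain ⟨k2, k5⟩ := hκ
    refine ⟨1 / κ 200 + 1 / (κ 5 ^ 6 * κ 200 ^ 2), by positivity, ?_⟩
    intro L h q c r R r' R' h16 hr hr' hR hR'
    have hn := aU_nonneg L q c r' R'
    have hp1 : 0 ≤ 1 / κ 200 := by positivity
    have hp2 : 0 ≤ 1 / (κ 5 ^ 6 * κ 200 ^ 2) := by positivity
    by_cases hRr : R ≤ r
    · have e : aU L q c r R = 0 := by
        refine hp8_zero ?_
        rintro ω ⟨x, -, y, -, hc⟩
        have h1 : r < nrm x := hc.left.1.1.1
        have h2 : nrm x ≤ R := hc.left.1.1.2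
        omega
      rw [e]
      positivity
    · by_cases h4 : R < 4 * r
      · have h1 := aU_low h q c h16 (show r' < R' by omega) (by omega)
        have h2 : aU L q c r R ≤ 1 := pr_le_one _
        have h3 : 1 ≤ 1 / κ 200 * aU L q c r' R' := by
          rw [one_div, inv_mul_eq_div, le_div_iff₀ k2]
          linarith
        have h4 := mul_nonneg hp2 hn
        linarith
      · have b1 : κ 5 ^ 3 ≤ pr (L.Ci q c (r + 1) (2 * r)) :=
          ci_pr h (by norm_num) q c (by omega) (by omega) (by push_cast; omega)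
        have b2 : κ 5 ^ 3 ≤ pr (L.Ci q c (R / 2) R) :=
          ci_pr h (by norm_num) q c (by omega) (by omega) (by push_cast; omega)
        have b3 : κ 200 ≤ pr (L.VX c 0 (r' / 2) (r' + 1) (2 * r)) := by
          refine h.vx' (by norm_num) c (by omega) (by omega) ?_
          push_cast
          omega
        have b4 : κ 200 ≤ pr (L.VX c 0 (R / 4) (R / 2) R') := by
          refine h.vx' (by norm_num) c (by omega) (by omega) ?_
          push_cast
          omega
        let A : Fin 5 → Cfg → Prop :=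
          ![L.Arm c (ann r R ∩ Uq q) (L.nb (bx r)) (rng R), L.Ci q c (r + 1) (2 * r),
            L.Ci q c (R / 2) R, L.VX c 0 (r' / 2) (r' + 1) (2 * r), L.VX c 0 (R / 4) (R / 2) R']
        have hl : ∀ i ∈ (Finset.univ : Finset (Fin 5)), Loc (A i) := by
          intro i _
          fin_cases i
          · exact hp8_loc L q c r R
          · exact Lat.Ci.loc L q c _ _
          · exact Lat.Ci.loc L q c _ _
          · exact Lat.VX.loc L c _ _ _ _
          · exact Lat.VX.loc L c _ _ _ _
        have hm : ∀ i ∈ (Finset.univ : Finset (Fin 5)), MonC c (A i) := by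
          intro i _
          fin_cases i
          · exact Lat.Arm.mon L c _ _ _
          · exact Lat.Ci.mon L q c _ _
          · exact Lat.Ci.mon L q c _ _
          · exact Lat.VX.mon L c _ _ _ _
          · exact Lat.VX.mon L c _ _ _ _
        have hH := pr_harris_mon (I := (Finset.univ : Finset (Fin 5))) (A := A) c hl hm
        rw [Fin.prod_univ_five] at hH
        have hall : Loc (fun ω => ∀ i ∈ (Finset.univ : Finset (Fin 5)), A i ω) := by
          have e : (fun ω => ∀ i ∈ (Finset.univ : Finset (Fin 5)), A i ω) =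
              fun ω => A 0 ω ∧ A 1 ω ∧ A 2 ω ∧ A 3 ω ∧ A 4 ω := by
            funext ω
            apply propext
            constructor
            · intro hi
              exact ⟨hi 0 (Finset.mem_univ _), hi 1 (Finset.mem_univ _),
                hi 2 (Finset.mem_univ _), hi 3 (Finset.mem_univ _), hi 4 (Finset.mem_univ _)⟩
            · rintro ⟨a0, a1, a2, a3, a4⟩ i _
              fin_cases i
              · exact a0
              · exact a1
              · exact a2
              · exact a3
              · exact a4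
          rw [e]
          exact (hl 0 (Finset.mem_univ _)).and ((hl 1 (Finset.mem_univ _)).and
            ((hl 2 (Finset.mem_univ _)).and ((hl 3 (Finset.mem_univ _)).and
              (hl 4 (Finset.mem_univ _)))))
        have hfin : pr (fun ω => ∀ i ∈ (Finset.univ : Finset (Fin 5)), A i ω) ≤
            aU L q c r' R' := by
          refine pr_mono hall (hp8_loc L q c r' R') fun ω hω => ?_
          exact Lat.armU_ext (by omega) hr (by omega) hR (hω 0 (Finset.mem_univ _))
            (hω 1 (Finset.mem_univ _)) (hω 2 (Finset.mem_univ _)) (hω 3 (Finset.mem_univ _))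
            (hω 4 (Finset.mem_univ _))
        have hn0 := aU_nonneg L q c r R
        have hprod : aU L q c r R * (κ 5 ^ 6 * κ 200 ^ 2) ≤ aU L q c r' R' := by
          refine le_trans ?_ (hH.trans hfin)
          show aU L q c r R * (κ 5 ^ 6 * κ 200 ^ 2) ≤ aU L q c r R *
            pr (L.Ci q c (r + 1) (2 * r)) * pr (L.Ci q c (R / 2) R) *
            pr (L.VX c 0 (r' / 2) (r' + 1) (2 * r)) * pr (L.VX c 0 (R / 4) (R / 2) R')
          calc aU L q c r R * (κ 5 ^ 6 * κ 200 ^ 2) =
                aU L q c r R * κ 5 ^ 3 * κ 5 ^ 3 * κ 200 * κ 200 := by ring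
            _ ≤ _ := by
                have p5 : 0 ≤ κ 5 ^ 3 := by positivity
                have m1 := mul_le_mul_of_nonneg_left b1 hn0
                have n1 : 0 ≤ aU L q c r R * pr (L.Ci q c (r + 1) (2 * r)) :=
                  mul_nonneg hn0 (pr_nonneg _)
                have m2 := mul_le_mul m1 b2 p5 n1
                have n2 := mul_nonneg n1 (pr_nonneg (L.Ci q c (R / 2) R))
                have m3 := mul_le_mul m2 b3 k2.le n2
                have n3 := mul_nonneg n2 (pr_nonneg (L.VX c 0 (r' / 2) (r' + 1) (2 * r)))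
                exact mul_le_mul m3 b4 k2.le n3
        have h5 : aU L q c r R ≤ 1 / (κ 5 ^ 6 * κ 200 ^ 2) * aU L q c r' R' := by
          rw [one_div, inv_mul_eq_div, le_div_iff₀ (by positivity)]
          exact hprod
        have h6 := mul_nonneg hp1 hn
        linarith
  · refine ⟨1, one_pos, fun L h => absurd ⟨h.pos 200, h.pos 5⟩ hκ⟩

end SC
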