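import Pool.Agent.Lib_MP_e0a489.HP4
import Pool.Agent.Lib_MP_e0a489.HP8

/-!
# MP_e0a489, module HP 10: comparison of the arm probabilities for all positions and colours
-/

set_option autoImplicit false

namespace SC

variable [IfL]

open Classical

theorem ann_finite (r R : ℤ) : (ann r R).Finite := by
  refine (Finset.finite_toSet (Finset.Icc (-R) R ×ˢ Finset.Icc (-R) R)).subset ?_
  intro v hv
  have h1 : max |v.1| |v.2| ≤ R := hv.2
  rw [max_le_iff, abs_le, abs_le] at h1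
  simp only [Finset.coe_product, Finset.coe_Icc, Set.mem_prod, Set.mem_Icc]
  exact h1

private theorem hp10_nrm (v : Pt) (k : ℤ) :
    nrm v ≤ k ↔ (-k ≤ v.1 ∧ v.1 ≤ k) ∧ -k ≤ v.2 ∧ v.2 ≤ k := by
  unfold nrm
  rw [max_le_iff, abs_le, abs_le]

private theorem hp10_tri (x u : Pt) : nrm (x - u) ≤ nrm x + nrm u := by
  obtain ⟨⟨a1, a2⟩, a3, a4⟩ := (hp10_nrm x (nrm x)).1 le_rfl
  obtain ⟨⟨b1, b2⟩, b3, b4⟩ := (hp10_nrm u (nrm u)).1 le_rfl
  refine (hp10_nrm _ _).2 ⟨⟨?_, ?_⟩, ?_, ?_⟩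
  · show -(nrm x + nrm u) ≤ x.1 - u.1
    omega
  · show x.1 - u.1 ≤ nrm x + nrm u
    omega
  · show -(nrm x + nrm u) ≤ x.2 - u.2
    omega
  · show x.2 - u.2 ≤ nrm x + nrm u
    omega

private theorem hp10_adj {L : Lat} {u v : Pt} (h : L.Adj u v) :
    (u.1 - 1 ≤ v.1 ∧ v.1 ≤ u.1 + 1) ∧ u.2 - 1 ≤ v.2 ∧ v.2 ≤ u.2 + 1 := by
  rcases h with (⟨h1, h2⟩ | ⟨h1, h2⟩ | ⟨h1, h2, h3⟩ | ⟨h1, h2, h3⟩) | (⟨h1, h2⟩ | ⟨h1, h2⟩ |
      ⟨h1, h2, h3⟩ | ⟨h1, h2, h3⟩) <;> omega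

private theorem hp10_nb {L : Lat} {r : ℤ} {x : Pt} (h : x ∈ L.nb (bx r)) : nrm x ≤ r + 1 := by
  obtain ⟨z, hz, ha⟩ := h
  obtain ⟨⟨a1, a2⟩, a3, a4⟩ := (hp10_nrm z r).1 hz
  obtain ⟨⟨b1, b2⟩, b3, b4⟩ := hp10_adj ha
  refine (hp10_nrm _ _).2 ⟨⟨?_, ?_⟩, ?_, ?_⟩ <;> omega

/-- SHIFT OF AN ARM.  `Arm`: `x ∈ nb (bx r)`, `y ∈ rng R`, joined in `ann r R ∩ S ∩ col c ω`.  The lattice `L.shift u` is `L` seen through `e v = v + u` (`tr_shift`).  Let
`A' = {v | v + u ∈ ann r R ∩ S ∩ L.col c ω}`; `Tr.cn` gives `(L.shift u).Cn A' (x - u) (y - u)`, and `A' ⊆ S' ∩ (L.shift u).col c (via e ω)` (`hS`, `Tr.st`).  `nrm (x - u) ≤ r + 2 ≤ r₁` (a site next to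
`bx r` has norm `≤ r + 1`) and `R₁ ≤ R - 1 ≤ nrm (y - u)`, so `Cn.crossing` gives the arm in `ann r₁ R₁ ∩ S'`. -/
theorem arm_shift {L : Lat} {c : Bool} {S S' : Set Pt} {u : Pt} {r R r₁ R₁ : ℤ} {ω : Cfg}
    (hu : nrm u ≤ 1) (hS : ∀ v ∈ S, v - u ∈ S') (hr : 0 ≤ r) (h1 : r + 2 ≤ r₁) (h2 : r₁ < R₁)
    (h3 : R₁ + 1 ≤ R) (h : L.Arm c (ann r R ∩ S) (L.nb (bx r)) (rng R) ω) :
    (L.shift u).Arm c (ann r₁ R₁ ∩ S') ((L.shift u).nb (bx r₁)) (rng R₁)
      (via (Equiv.addRight u) ω) := by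
  obtain ⟨x, hx, y, hy, hc⟩ := h
  have hT := tr_shift L u
  have he : ∀ v : Pt, (Equiv.addRight u) (v - u) = v := fun v => by
    show v - u + u = v
    exact sub_add_cancel v u
  have hc1 : (L.shift u).Cn {v : Pt | v + u ∈ ann r R ∩ S ∩ L.col c ω} (x - u) (y - u) := by
    refine (hT.cn _ _ _).2 ?_
    rw [he, he]
    refine hc.mono ?_
    intro v hv
    refine ⟨v - u, ?_, he v⟩
    show v - u + u ∈ ann r R ∩ S ∩ L.col c ω
    rw [sub_add_cancel]
    exact hv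
  have hxn := hp10_nb hx
  have hyn : nrm y = R := hy
  have t1 := hp10_tri x u
  have t2 : nrm y ≤ nrm (y - u) + nrm u := by
    have h5 := hp10_tri (y - u) (-u)
    have h6 : y - u - -u = y := by
      rw [sub_neg_eq_add, sub_add_cancel]
    have h7 : nrm (-u) = nrm u := by
      show max |(-u).1| |(-u).2| = max |u.1| |u.2|
      rw [Prod.fst_neg, Prod.snd_neg, abs_neg, abs_neg]
    rw [h6, h7] at h5
    exact h5
  obtain ⟨p, w, hp, hw, hcw⟩ := Lat.Cn.crossing (r := r₁) (m := R₁) (by omega) h2 hc1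
    (Or.inl (by omega)) (by omega)
  refine ⟨p, hp, w, hw, hcw.mono ?_⟩
  rintro v ⟨hv, hva⟩
  obtain ⟨⟨hv1, hv2⟩, hv3⟩ := hv
  refine ⟨⟨hva, ?_⟩, ?_⟩
  · have h5 := hS _ hv2
    rw [add_sub_cancel_right] at h5
    exact h5
  · show (L.shift u).st (via (Equiv.addRight u) ω) v = c
    rw [hT.st]
    exact hv3

/-- `arm_shift`, `pr_mono`, `pr_via` -/
theorem pr_arm_shift {L : Lat} {c : Bool} {S S' : Set Pt} {u : Pt} {r R r₁ R₁ : ℤ}
    (hu : nrm u ≤ 1) (hS : ∀ v ∈ S, v - u ∈ S') (hr : 0 ≤ r) (h1 : r + 2 ≤ r₁) (h2 : r₁ < R₁)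
    (h3 : R₁ + 1 ≤ R) : pr (L.Arm c (ann r R ∩ S) (L.nb (bx r)) (rng R)) ≤
      pr ((L.shift u).Arm c (ann r₁ R₁ ∩ S') ((L.shift u).nb (bx r₁)) (rng R₁)) := by
  have hfin : (ann r₁ R₁ ∩ S').Finite := (ann_finite r₁ R₁).subset Set.inter_subset_left
  have hfin' : (ann r R ∩ S).Finite := (ann_finite r R).subset Set.inter_subset_left
  have hl := Lat.Arm.loc (L.shift u) c (ann r₁ R₁ ∩ S') ((L.shift u).nb (bx r₁)) (rng R₁) hfin
  rw [← pr_via hl (Equiv.addRight u)]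
  refine pr_mono (Lat.Arm.loc L c _ _ _ hfin') ?_
    fun ω hω => arm_shift hu hS hr h1 h2 h3 hω
  obtain ⟨F, hF⟩ := hl
  refine ⟨F.image (Equiv.addRight u), ?_⟩
  intro ω ω' h
  refine hF _ _ fun v hv => ?_
  exact h _ (Finset.mem_coe.2 (Finset.mem_image_of_mem _ (Finset.mem_coe.1 hv)))

/-- `sw_arm`, `pr_flip` -/
theorem pr_arm_sw (L : Lat) (c : Bool) {D : Set Pt} (hD : D.Finite) (X Y : Set Pt) :
    pr (L.sw.Arm c D X Y) = pr (L.Arm (!c) D X Y) := by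
  rw [← pr_flip (Lat.Arm.loc L.sw c D X Y hD)]
  congr 1
  funext ω
  exact propext (sw_arm L c D X Y ω)

private theorem hp10_vx {L : Lat} {c : Bool} {S : Set Pt} {r R : ℤ} {ω : Cfg} (hr : 2 ≤ r)
    (hR : r < R) (hS : ∀ v : Pt, 1 ≤ v.1 → 1 ≤ v.2 → v ∈ S) (h : L.VX c 1 (r / 2) (r + 1) R ω) :
    L.Arm c (ann r R ∩ S) (L.nb (bx r)) (rng R) ω := by
  obtain ⟨u, v, hu, hv, hc⟩ := h
  obtain ⟨⟨⟨a1, a2⟩, a3, a4⟩, -⟩ := hc.left
  obtain ⟨⟨⟨b1, b2⟩, b3, b4⟩, -⟩ := hc.right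
  have key : ∀ z : Pt, 1 ≤ z.1 → z.1 ≤ r / 2 → r + 1 ≤ z.2 → nrm z = z.2 := by
    intro z z1 z2 z3
    refine le_antisymm ((hp10_nrm z _).2 ⟨⟨by omega, by omega⟩, by omega, le_rfl⟩) ?_
    exact ((hp10_nrm z (nrm z)).1 le_rfl).2.2
  refine ⟨u, ⟨(u.1, u.2 - 1), ?_, ?_⟩, v, ?_, hc.mono ?_⟩
  · refine (hp10_nrm _ _).2 ⟨⟨?_, ?_⟩, ?_, ?_⟩
    · show -r ≤ u.1
      omega
    · show u.1 ≤ r
      omega
    · show -r ≤ u.2 - 1
      omega
    · show u.2 - 1 ≤ r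
      omega
  · refine Or.inl (Or.inr (Or.inl ⟨rfl, ?_⟩))
    show u.2 = u.2 - 1 + 1
    omega
  · show nrm v = R
    rw [key v b1 b2 b3]
    exact hv
  · rintro z ⟨⟨⟨z1, z2⟩, z3, z4⟩, hz⟩
    refine ⟨⟨⟨?_, ?_⟩, hS z z1 (by omega)⟩, hz⟩
    · rw [key z z1 z2 z3]
      omega
    · rw [key z z1 z2 z3]
      exact z4

/-- COMPARISON.  `R < 4 r`: the left side is `≤ 1`; a vertical crossing of `rect 1 (r/2) (r+1) R` of colour `c'` is an arm in `{v | v - u ∈ Uq q}` (see `strip_arm`), probability `≥ κ 200` (`RSW.vx'`).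
`4 r ≤ R`.  Step A (colour): if `c' = !c` then `L.sw = L.shift x₀` (`Fam.sw`) gives `aU (L.shift x) q c r R = aU (L.shift x).sw q c' r R = aU (L.shift (x₀ + x)) q c' r R` (`pr_arm_sw`, `sw_shift`,
`shift_shift`); so there is `x₁` with `aU (L.shift x) q c r R = aU (L.shift x₁) q c' r R`.  Step B: choose `z ∈ {-1, 0} × {-1, 0}` with `x₁ + z ≡ u` modulo 2: `(L.shift x₁).shift z = L.shift (x₁ + z) = L.shift u`
(`shift_shift`, `shift_eq`).  `pr_arm_shift` with `S = S' = Uq q` (`v - z ∈ Uq q` because `-z` has nonnegative coordinates): `aU (L.shift x₁) q c' r R ≤ aU (L.shift u) q c' (r + 2) (R - 2)`.  Step C: `aU_ext` with `r' = r - 2 ≥ 16`, `R' = R + 1`: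
`≤ C aU (L.shift u) q c' (r - 2) (R + 1)`.  Step D: `pr_arm_shift` for the lattice `L.shift u` and the vector `-u` (`(L.shift u).shift (-u) = L`, `shift_zero`), `S = Uq q`, `S' = {v | v - u ∈ Uq q}`, radii `(r - 2, R + 1)` and
`(r, R)`. -/
theorem cmpU (κ : ℕ → ℝ) : ∃ (C : ℝ) (R₀ : ℤ), 1 ≤ C ∧ 32 ≤ R₀ ∧ ∀ L : Lat, Fam L κ →
    ∀ (q c c' : Bool) (x u : Pt) (r R : ℤ), 0 ≤ u.1 → u.1 ≤ 1 → 0 ≤ u.2 → u.2 ≤ 1 → R₀ ≤ r →
      r < R → aU (L.shift x) q c r R ≤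
        C * pr (L.Arm c' (ann r R ∩ {v | v - u ∈ Uq q}) (L.nb (bx r)) (rng R)) := by
  by_cases hκ : 0 < κ 200
  · obtain ⟨C₀, hC₀, hext⟩ := aU_ext κ
    have hi : 0 < 1 / κ 200 := by positivity
    refine ⟨1 + 1 / κ 200 + C₀, 32, by linarith, le_rfl, ?_⟩
    intro L hL q c c' x u r R hu1 hu2 hu3 hu4 hr hR
    have hfin : (ann r R ∩ {v : Pt | v - u ∈ Uq q}).Finite :=
      (ann_finite r R).subset Set.inter_subset_left
    have hp0 := pr_nonneg (L.Arm c' (ann r R ∩ {v : Pt | v - u ∈ Uq q}) (L.nb (bx r)) (rng R))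
    by_cases h4 : R < 4 * r
    · have h1 : κ 200 ≤ pr (L.VX c' 1 (r / 2) (r + 1) R) := by
        refine hL.rsw.vx' (by norm_num) c' (by omega) (by omega) ?_
        push_cast
        omega
      have h2 : pr (L.VX c' 1 (r / 2) (r + 1) R) ≤
          pr (L.Arm c' (ann r R ∩ {v : Pt | v - u ∈ Uq q}) (L.nb (bx r)) (rng R)) := by
        refine pr_mono (Lat.VX.loc L c' _ _ _ _) (Lat.Arm.loc L c' _ _ _ hfin)
          fun ω hω => hp10_vx (by omega) hR ?_ hω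
        intro v h5 h6
        show 0 ≤ v.2 - u.2 ∧ (q = true → 0 ≤ v.1 - u.1)
        exact ⟨by omega, fun _ => by omega⟩
      have h3 : aU (L.shift x) q c r R ≤ 1 := pr_le_one _
      have h5 := h1.trans h2
      calc aU (L.shift x) q c r R ≤ 1 := h3
        _ = (1 / κ 200) * κ 200 := by field_simp
        _ ≤ (1 + 1 / κ 200 + C₀) * κ 200 := by
          apply mul_le_mul_of_nonneg_right _ hκ.le
          linarith
        _ ≤ _ := mul_le_mul_of_nonneg_left h5 (by linarith)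
    · -- step A
      obtain ⟨x₁, hx₁⟩ : ∃ x₁ : Pt, aU (L.shift x) q c r R = aU (L.shift x₁) q c' r R := by
        by_cases hcc : c' = c
        · exact ⟨x, by rw [hcc]⟩
        · obtain ⟨x₀, hx₀⟩ := hL.sw
          refine ⟨x₀ + x, ?_⟩
          have hc : c = !c' := by
            cases c <;> cases c' <;> simp_all
          have h1 : pr ((L.shift x).sw.Arm c' (ann r R ∩ Uq q) ((L.shift x).nb (bx r)) (rng R)) =
              pr ((L.shift x).Arm (!c') (ann r R ∩ Uq q) ((L.shift x).nb (bx r)) (rng R)) :=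
            pr_arm_sw (L.shift x) c' ((ann_finite r R).subset Set.inter_subset_left) _ _
          have h2 : (L.shift x).sw = L.shift (x₀ + x) := by
            rw [sw_shift, hx₀, shift_shift]
          have h3 : (L.shift x).nb (bx r) = (L.shift (x₀ + x)).nb (bx r) := by
            rw [← h2]
            rfl
          rw [hc]
          unfold aU
          rw [← h1, h2, h3]
      -- step B
      obtain ⟨z, hz, hz1, hz2, hz3⟩ : ∃ z : Pt, nrm z ≤ 1 ∧ z.1 ≤ 0 ∧ z.2 ≤ 0 ∧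
          L.shift (x₁ + z) = L.shift u := by
        refine ⟨(-((x₁.1 - u.1) % 2), -((x₁.2 - u.2) % 2)), ?_, ?_, ?_, ?_⟩
        · refine (hp10_nrm _ _).2 ⟨⟨?_, ?_⟩, ?_, ?_⟩
          · show -1 ≤ -((x₁.1 - u.1) % 2)
            omega
          · show -((x₁.1 - u.1) % 2) ≤ 1
            omega
          · show -1 ≤ -((x₁.2 - u.2) % 2)
            omega
          · show -((x₁.2 - u.2) % 2) ≤ 1
            omega
        · show -((x₁.1 - u.1) % 2) ≤ 0
          omega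
        · show -((x₁.2 - u.2) % 2) ≤ 0
          omega
        · refine shift_eq hL ?_ ?_
          · show (x₁.1 + -((x₁.1 - u.1) % 2) - u.1) % 2 = 0
            omega
          · show (x₁.2 + -((x₁.2 - u.2) % 2) - u.2) % 2 = 0
            omega
      have hB : aU (L.shift x₁) q c' r R ≤ aU (L.shift u) q c' (r + 2) (R - 2) := by
        have h1 := pr_arm_shift (L := L.shift x₁) (c := c') (S := Uq q) (S' := Uq q) (u := z)
          (r := r) (R := R) (r₁ := r + 2) (R₁ := R - 2) hz (by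
            rintro v ⟨v1, v2⟩
            refine ⟨?_, fun hq => ?_⟩
            · show 0 ≤ v.2 - z.2
              omega
            · show 0 ≤ v.1 - z.1
              have := v2 hq
              omega) (by omega) le_rfl (by omega) (by omega)
        rw [shift_shift, hz3] at h1
        exact h1
      -- step C
      have hC := hext (L.shift u) (hL.toShift u).rsw q c' (r + 2) (R - 2) (r - 2) (R + 1)
        (by omega) (by omega) (by omega) (by omega) (by omega)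
      -- step D
      have hD : aU (L.shift u) q c' (r - 2) (R + 1) ≤
          pr (L.Arm c' (ann r R ∩ {v : Pt | v - u ∈ Uq q}) (L.nb (bx r)) (rng R)) := by
        have h1 := pr_arm_shift (L := L.shift u) (c := c') (S := Uq q)
          (S' := {v : Pt | v - u ∈ Uq q}) (u := -u)
          (r := r - 2) (R := R + 1) (r₁ := r) (R₁ := R) (by
            refine (hp10_nrm _ _).2 ⟨⟨?_, ?_⟩, ?_, ?_⟩
            · show -1 ≤ -u.1
              omega
            · show -u.1 ≤ 1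
              omega
            · show -1 ≤ -u.2
              omega
            · show -u.2 ≤ 1
              omega) (by
            intro v hv
            show v - -u - u ∈ Uq q
            rw [sub_neg_eq_add, add_sub_cancel_right]
            exact hv) (by omega) (by omega) hR le_rfl
        rw [shift_shift, add_neg_cancel, shift_zero] at h1
        exact h1
      calc aU (L.shift x) q c r R = aU (L.shift x₁) q c' r R := hx₁
        _ ≤ aU (L.shift u) q c' (r + 2) (R - 2) := hB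
        _ ≤ C₀ * aU (L.shift u) q c' (r - 2) (R + 1) := hC
        _ ≤ C₀ * pr (L.Arm c' (ann r R ∩ {v : Pt | v - u ∈ Uq q}) (L.nb (bx r)) (rng R)) :=
          mul_le_mul_of_nonneg_left hD hC₀.le
        _ ≤ _ := by
          apply mul_le_mul_of_nonneg_right _ hp0
          linarith
  · refine ⟨1, 32, le_rfl, le_rfl, ?_⟩
    intro L hL
    exact absurd (hL.rsw.pos 200) hκ

end SC
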