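import Pool.Agent.Lib_MP_e0a489.RC1
import Pool.Agent.Lib_MP_e0a489.TE3

/-!
# MP_e0a489, module HP 12: arms in the four quarter planes give the four arm event
-/

set_option autoImplicit false

namespace SC

open Classical

private theorem hp12_a {m i : ℤ} (hm : 1 ≤ m) (h0 : 0 ≤ i) (h1 : i ≤ m) : rc m i = (m, i) := by
  have := rc_side (m := m) (s := 0) (k := i) hm (abs_le.mpr ⟨by omega, h1⟩)
  rw [show 2 * m * 0 + i = i by ring, rt_zero] at this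
  exact this

private theorem hp12_b {m i : ℤ} (hm : 1 ≤ m) (h0 : m ≤ i) (h1 : i ≤ 3 * m) :
    rc m i = (2 * m - i, m) := by
  have := rc_side (m := m) (s := 1) (k := i - 2 * m) hm (abs_le.mpr ⟨by omega, by omega⟩)
  rw [show 2 * m * 1 + (i - 2 * m) = i by ring, rt_one] at this
  rw [this]
  refine Prod.ext ?_ rfl
  dsimp only
  ring

private theorem hp12_c {m i : ℤ} (hm : 1 ≤ m) (h0 : 3 * m ≤ i) (h1 : i ≤ 5 * m) :
    rc m i = (-m, 4 * m - i) := by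
  have := rc_side (m := m) (s := 2) (k := i - 4 * m) hm (abs_le.mpr ⟨by omega, by omega⟩)
  rw [show 2 * m * 2 + (i - 4 * m) = i by ring, rt_two] at this
  rw [this]
  refine Prod.ext rfl ?_
  dsimp only
  ring

private theorem hp12_d {m i : ℤ} (hm : 1 ≤ m) (h0 : 5 * m ≤ i) (h1 : i ≤ 7 * m) :
    rc m i = (i - 6 * m, -m) := by
  have := rc_side (m := m) (s := 3) (k := i - 6 * m) hm (abs_le.mpr ⟨by omega, by omega⟩)
  rw [show 2 * m * 3 + (i - 6 * m) = i by ring, rt_three] at this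
  exact this

private theorem hp12_e {m i : ℤ} (hm : 1 ≤ m) (h0 : 7 * m ≤ i) (h1 : i < 8 * m) :
    rc m i = (m, i - 8 * m) := by
  have := rc_side (m := m) (s := 4) (k := i - 8 * m) hm (abs_le.mpr ⟨by omega, by omega⟩)
  rw [show 2 * m * 4 + (i - 8 * m) = i by ring, rt_mod (s' := 0) (by norm_num), rt_zero] at this
  exact this

/-- `idx_side`: `i = 2 m s + k`, `|k| ≤ m`, `rc m i = rt s (m, k)` (`rc_side`), `rt_zero`, ..., `rt_three`, `rt_four`: `s = 0` gives `(m, k)`, `s = 1` gives `(-k, m)`, `s = 2` gives `(-m, -k)`, `s = 3` gives `(k, -m)`,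
`s = 4` gives `(m, k)`. -/
theorem rc_quad {m i : ℤ} (hm : 1 ≤ m) (h0 : 0 ≤ i) (h8 : i < 8 * m) :
    (i < 2 * m → 1 ≤ (rc m i).1 ∧ 0 ≤ (rc m i).2) ∧
    (2 * m ≤ i → i < 4 * m → (rc m i).1 ≤ 0 ∧ 1 ≤ (rc m i).2) ∧
    (4 * m ≤ i → i < 6 * m → (rc m i).1 ≤ -1 ∧ (rc m i).2 ≤ 0) ∧
    (6 * m ≤ i → 0 ≤ (rc m i).1 ∧ (rc m i).2 ≤ -1) := by
  by_cases c1 : i ≤ m
  · rw [hp12_a hm h0 c1]
    dsimp only
    omega
  by_cases c2 : i ≤ 3 * m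
  · rw [hp12_b hm (by omega) c2]
    dsimp only
    omega
  by_cases c3 : i ≤ 5 * m
  · rw [hp12_c hm (by omega) c3]
    dsimp only
    omega
  by_cases c4 : i ≤ 7 * m
  · rw [hp12_d hm (by omega) c4]
    dsimp only
    omega
  · rw [hp12_e hm (by omega) h8]
    dsimp only
    omega

private theorem hp12_fin (r R : ℤ) (Q : Set Pt) : (ann r R ∩ Q).Finite := by
  refine ((Set.finite_Icc (-R) R).prod (Set.finite_Icc (-R) R)).subset ?_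
  rintro v ⟨⟨_, hv⟩, _⟩
  have h1 : |v.1| ≤ R := (le_max_left _ _).trans hv
  have h2 : |v.2| ≤ R := (le_max_right _ _).trans hv
  rw [abs_le] at h1 h2
  exact ⟨h1, h2⟩

namespace Lat

variable {L : Lat}

/-- Let `x_j`, `y_j` (`j = 0, 1, 2, 3`) be the ends of the four arms, `y_j = rc R i_j` with `0 ≤ i_j < 8 R` (`rc_surj`); by `rc_quad` `i₀ < 2 R ≤ i₁ < 4 R ≤ i₂ < 6 R ≤ i₃`.  The arms for `TwoA` are `x₀, y₀` and `x₂, y₂`
(`Cn.mono`).  Suppose `Cn (ann r R ∩ col true ω) x₀ x₂`; `P = {v | Cn (ann r R ∩ col true ω) x₀ v}` is connected and contains `y₀`, `y₂`.  `P'` = `bx r` together with the sites joined to `x₁` or to `x₃` in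
`ann r R ∩ col false ω`: connected (`con_bx`, `con_cluster`, `Con.union_adj`), contains `y₁`, `y₃`.  `interlace_rc`: a common site, impossible (colours, norms). -/
theorem quad_twoA {r R : ℤ} {ω : Cfg} (hr : 1 ≤ r) (hR : r < R)
    (h0 : L.Arm true (ann r R ∩ {v | 1 ≤ v.1 ∧ 0 ≤ v.2}) (L.nb (bx r)) (rng R) ω)
    (h1 : L.Arm false (ann r R ∩ {v | v.1 ≤ 0 ∧ 1 ≤ v.2}) (L.nb (bx r)) (rng R) ω)
    (h2 : L.Arm true (ann r R ∩ {v | v.1 ≤ -1 ∧ v.2 ≤ 0}) (L.nb (bx r)) (rng R) ω)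
    (h3 : L.Arm false (ann r R ∩ {v | 0 ≤ v.1 ∧ v.2 ≤ -1}) (L.nb (bx r)) (rng R) ω) :
    L.TwoA true r R ω := by
  obtain ⟨x0, hx0, y0, hy0, c0⟩ := h0
  obtain ⟨x1, hx1, y1, hy1, c1⟩ := h1
  obtain ⟨x2, hx2, y2, hy2, c2⟩ := h2
  obtain ⟨x3, hx3, y3, hy3, c3⟩ := h3
  have hm : (1 : ℤ) ≤ R := by omega
  have sub : ∀ (b : Bool) (Q : Set Pt), ann r R ∩ Q ∩ L.col b ω ⊆ ann r R ∩ L.col b ω :=
    fun b Q v hv => ⟨hv.1.1, hv.2⟩
  have q0 : 1 ≤ y0.1 ∧ 0 ≤ y0.2 := c0.right.1.2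
  have q1 : y1.1 ≤ 0 ∧ 1 ≤ y1.2 := c1.right.1.2
  have q2 : y2.1 ≤ -1 ∧ y2.2 ≤ 0 := c2.right.1.2
  have q3 : 0 ≤ y3.1 ∧ y3.2 ≤ -1 := c3.right.1.2
  obtain ⟨i0, a0, b0, e0⟩ := rc_surj hm (show nrm y0 = R from hy0) 0
  obtain ⟨i1, a1, b1, e1⟩ := rc_surj hm (show nrm y1 = R from hy1) 0
  obtain ⟨i2, a2, b2, e2⟩ := rc_surj hm (show nrm y2 = R from hy2) 0
  obtain ⟨i3, a3, b3, e3⟩ := rc_surj hm (show nrm y3 = R from hy3) 0
  have k0 := rc_quad hm a0 (by omega)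
  have k1 := rc_quad hm a1 (by omega)
  have k2 := rc_quad hm a2 (by omega)
  have k3 := rc_quad hm a3 (by omega)
  rw [e0] at k0
  rw [e1] at k1
  rw [e2] at k2
  rw [e3] at k3
  have l0 : i0 < 2 * R := by omega
  have l1 : 2 * R ≤ i1 ∧ i1 < 4 * R := by omega
  have l2 : 4 * R ≤ i2 ∧ i2 < 6 * R := by omega
  have l3 : 6 * R ≤ i3 := by omega
  refine ⟨x0, hx0, y0, hy0, x2, hx2, y2, hy2, c0.mono (sub _ _), c2.mono (sub _ _), ?_⟩
  intro hc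
  have hP : L.Con {v | L.Cn (ann r R ∩ L.col true ω) x0 v} := con_cluster _ _
  have hC1 : L.Con {v | L.Cn (ann r R ∩ L.col false ω) x1 v} := con_cluster _ _
  have hC3 : L.Con {v | L.Cn (ann r R ∩ L.col false ω) x3 v} := con_cluster _ _
  have m0 : y0 ∈ {v | L.Cn (ann r R ∩ L.col true ω) x0 v} := c0.mono (sub _ _)
  have m2 : y2 ∈ {v | L.Cn (ann r R ∩ L.col true ω) x0 v} := hc.trans (c2.mono (sub _ _))
  have m1 : y1 ∈ {v | L.Cn (ann r R ∩ L.col false ω) x1 v} := c1.mono (sub _ _)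
  have m3 : y3 ∈ {v | L.Cn (ann r R ∩ L.col false ω) x3 v} := c3.mono (sub _ _)
  have n1 : x1 ∈ {v | L.Cn (ann r R ∩ L.col false ω) x1 v} :=
    Cn.refl (c1.mono (sub _ _)).left
  have n3 : x3 ∈ {v | L.Cn (ann r R ∩ L.col false ω) x3 v} :=
    Cn.refl (c3.mono (sub _ _)).left
  obtain ⟨u1, hu1, au1⟩ := hx1
  obtain ⟨u3, hu3, au3⟩ := hx3
  have hB : L.Con (bx r ∪ {v | L.Cn (ann r R ∩ L.col false ω) x1 v}) :=
    (con_bx r).union_adj hC1 hu1 n1 au1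
  have hP' : L.Con (bx r ∪ {v | L.Cn (ann r R ∩ L.col false ω) x1 v} ∪
      {v | L.Cn (ann r R ∩ L.col false ω) x3 v}) :=
    hB.union_adj hC3 (Or.inl hu3) n3 au3
  have sP : {v | L.Cn (ann r R ∩ L.col true ω) x0 v} ⊆ bx R := by
    intro v hv
    exact (Cn.right hv).1.2
  have sP' : bx r ∪ {v | L.Cn (ann r R ∩ L.col false ω) x1 v} ∪
      {v | L.Cn (ann r R ∩ L.col false ω) x3 v} ⊆ bx R := by
    rintro v ((hv | hv) | hv)
    · have : nrm v ≤ r := hv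
      show nrm v ≤ R
      omega
    · exact (Cn.right hv).1.2
    · exact (Cn.right hv).1.2
  obtain ⟨v, hv, hv'⟩ := interlace_rc hm hP hP' sP sP' (i1 := i0) (i2 := i1) (i3 := i2) (i4 := i3)
    (by omega) (by omega) (by omega) (by omega) (by rw [e0]; exact m0) (by rw [e2]; exact m2)
    (by rw [e1]; exact Or.inl (Or.inr m1)) (by rw [e3]; exact Or.inr m3)
  have hv1 := Cn.right hv
  have s1 : L.st ω v = true := hv1.2
  rcases hv' with (hv' | hv') | hv'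
  · have t1 : nrm v ≤ r := hv'
    have t2 : r < nrm v := hv1.1.1
    omega
  · have s2 : L.st ω v = false := (Cn.right hv').2
    rw [s1] at s2
    exact absurd s2 (by decide)
  · have s2 : L.st ω v = false := (Cn.right hv').2
    rw [s1] at s2
    exact absurd s2 (by decide)

/-- `quad_twoA`, `pr_mono`, `pr_and` three times (`Arm.dep`; the four sets are disjoint) -/
theorem pr_quad (L : Lat) {r R : ℤ} (hr : 1 ≤ r) (hR : r < R) :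
    pr (L.Arm true (ann r R ∩ {v | 1 ≤ v.1 ∧ 0 ≤ v.2}) (L.nb (bx r)) (rng R)) *
      pr (L.Arm false (ann r R ∩ {v | v.1 ≤ 0 ∧ 1 ≤ v.2}) (L.nb (bx r)) (rng R)) *
      (pr (L.Arm true (ann r R ∩ {v | v.1 ≤ -1 ∧ v.2 ≤ 0}) (L.nb (bx r)) (rng R)) *
      pr (L.Arm false (ann r R ∩ {v | 0 ≤ v.1 ∧ v.2 ≤ -1}) (L.nb (bx r)) (rng R))) ≤
      pr (L.TwoA true r R) := by
  have l0 := Arm.loc L true (ann r R ∩ {v | 1 ≤ v.1 ∧ 0 ≤ v.2}) (L.nb (bx r)) (rng R)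
    (hp12_fin _ _ _)
  have l1 := Arm.loc L false (ann r R ∩ {v | v.1 ≤ 0 ∧ 1 ≤ v.2}) (L.nb (bx r)) (rng R)
    (hp12_fin _ _ _)
  have l2 := Arm.loc L true (ann r R ∩ {v | v.1 ≤ -1 ∧ v.2 ≤ 0}) (L.nb (bx r)) (rng R)
    (hp12_fin _ _ _)
  have l3 := Arm.loc L false (ann r R ∩ {v | 0 ≤ v.1 ∧ v.2 ≤ -1}) (L.nb (bx r)) (rng R)
    (hp12_fin _ _ _)
  have d0 := Arm.dep L true (ann r R ∩ {v | 1 ≤ v.1 ∧ 0 ≤ v.2}) (L.nb (bx r)) (rng R)
  have d1 := Arm.dep L false (ann r R ∩ {v | v.1 ≤ 0 ∧ 1 ≤ v.2}) (L.nb (bx r)) (rng R)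
  have d2 := Arm.dep L true (ann r R ∩ {v | v.1 ≤ -1 ∧ v.2 ≤ 0}) (L.nb (bx r)) (rng R)
  have d3 := Arm.dep L false (ann r R ∩ {v | 0 ≤ v.1 ∧ v.2 ≤ -1}) (L.nb (bx r)) (rng R)
  have d01 := d0.comp2 d1 (fun p q => p ∧ q)
  have d23 := d2.comp2 d3 (fun p q => p ∧ q)
  rw [← pr_and l0 l1 d0 d1 ?_, ← pr_and l2 l3 d2 d3 ?_, ← pr_and (l0.and l1) (l2.and l3) d01 d23 ?_]
  · refine pr_mono ((l0.and l1).and (l2.and l3)) ?_ ?_
    · have hf := hp12_fin r R Set.univ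
      rw [Set.inter_univ] at hf
      exact Two.loc L true (ann r R) (L.nb (bx r)) (rng R) hf
    · rintro ω ⟨⟨h0, h1⟩, h2, h3⟩
      exact quad_twoA hr hR h0 h1 h2 h3
  · rintro v (⟨_, h, h'⟩ | ⟨_, h, h'⟩) (⟨_, g, g'⟩ | ⟨_, g, g'⟩) <;> omega
  · rintro v ⟨_, h, h'⟩ ⟨_, g, g'⟩
    omega
  · rintro v ⟨_, h, h'⟩ ⟨_, g, g'⟩
    omega

end Lat

end SC
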