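import Pool.Agent.Lib_MP_e0a489.HP11
import Pool.Agent.Lib_MP_e0a489.HP12
import Pool.Agent.Lib_MP_e0a489.HP3
import Pool.Agent.Lib_MP_e0a489.HP5

/-!
# MP_e0a489, module HP 13: half plane and corner bounds for one lattice
-/

set_option autoImplicit false

namespace SC

variable [IfL]

open Classical

/-- `P ^ 4 = P * P ^ 3 ≤ C₁ (a P) ^ 3 ≤ C₁ C₂ ^ 3 α ^ 3`; take the fourth root (`Real.mul_rpow`, `Real.rpow_le_rpow`). -/
theorem rpow34 {P a α C₁ C₂ : ℝ} (hP : 0 ≤ P) (ha : 0 ≤ a) (hα : 0 ≤ α) (hC₁ : 0 ≤ C₁)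
    (hC₂ : 0 ≤ C₂) (h1 : P ≤ C₁ * a ^ 3) (h2 : P * a ≤ C₂ * α) :
    P ≤ (C₁ * C₂ ^ 3) ^ ((1 : ℝ) / 4) * α ^ ((3 : ℝ) / 4) := by
  have h3 : 0 ≤ C₁ * C₂ ^ 3 := mul_nonneg hC₁ (pow_nonneg hC₂ 3)
  have h4 : P ^ 4 ≤ (C₁ * C₂ ^ 3) * α ^ 3 := by
    calc P ^ 4 = P * P ^ 3 := by ring
      _ ≤ (C₁ * a ^ 3) * P ^ 3 := mul_le_mul_of_nonneg_right h1 (pow_nonneg hP 3)
      _ = C₁ * (P * a) ^ 3 := by ring
      _ ≤ C₁ * (C₂ * α) ^ 3 :=
          mul_le_mul_of_nonneg_left (pow_le_pow_left₀ (mul_nonneg hP ha) h2 3) hC₁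
      _ = (C₁ * C₂ ^ 3) * α ^ 3 := by ring
  have h5 : P = (P ^ 4) ^ ((1 : ℝ) / 4) := by
    rw [← Real.rpow_natCast, ← Real.rpow_mul hP]
    norm_num
  have h6 : (α ^ 3) ^ ((1 : ℝ) / 4) = α ^ ((3 : ℝ) / 4) := by
    rw [← Real.rpow_natCast, ← Real.rpow_mul hα]
    norm_num
  rw [← h6, ← Real.mul_rpow h3 (pow_nonneg hα 3)]
  calc P = (P ^ 4) ^ ((1 : ℝ) / 4) := h5
    _ ≤ _ := Real.rpow_le_rpow (pow_nonneg hP 4) h4 (by norm_num)

theorem rpow12 {P α C : ℝ} (hP : 0 ≤ P) (hα : 0 ≤ α) (hC : 0 ≤ C) (h : P ^ 2 ≤ C ^ 2 * α) :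
    P ≤ C * α ^ ((1 : ℝ) / 2) := by
  have h1 : (α ^ ((1 : ℝ) / 2)) ^ 2 = α := by
    rw [← Real.rpow_natCast, ← Real.rpow_mul hα]
    norm_num
  have h2 : 0 ≤ α ^ ((1 : ℝ) / 2) := Real.rpow_nonneg hα _
  have h3 : P ^ 2 ≤ (C * α ^ ((1 : ℝ) / 2)) ^ 2 := by
    rw [mul_pow, h1]
    exact h
  exact (pow_le_pow_iff_left₀ hP (mul_nonneg hC h2) two_ne_zero).1 h3

private theorem hp13_fin (r R : ℤ) (Q : Set Pt) : (ann r R ∩ Q).Finite :=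
  (ann_finite r R).subset Set.inter_subset_left

private theorem hp13_loc (L : Lat) (c : Bool) (r R : ℤ) (Q : Set Pt) :
    Loc (L.Arm c (ann r R ∩ Q) (L.nb (bx r)) (rng R)) :=
  Lat.Arm.loc L c _ _ _ (hp13_fin r R Q)

private theorem hp13_mono (L : Lat) (c : Bool) (r R : ℤ) {Q Q' : Set Pt} (h : Q ⊆ Q') :
    pr (L.Arm c (ann r R ∩ Q) (L.nb (bx r)) (rng R)) ≤
      pr (L.Arm c (ann r R ∩ Q') (L.nb (bx r)) (rng R)) :=
  pr_mono (hp13_loc L c r R Q) (hp13_loc L c r R Q')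
    fun _ hω => hω.mono (Set.inter_subset_inter_right _ h) subset_rfl subset_rfl

private theorem hp13_rots (L : Lat) : L.rots 0 = L := by
  unfold Lat.rots
  rw [if_pos (by norm_num)]

private theorem hp13_low : (ryE '' {v : Pt | v - (0, 1) ∈ Uq false} : Set Pt) =
    {v | v.2 ≤ -1} := by
  ext v
  simp only [Set.mem_image, Set.mem_ofPred_eq]
  constructor
  · rintro ⟨w, hw, rfl⟩
    have h1 : 0 ≤ w.2 - 1 := hw.1
    show -w.2 ≤ -1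
    omega
  · intro hv
    refine ⟨(v.1, -v.2), ⟨?_, fun h => absurd h (by decide)⟩, ?_⟩
    · show 0 ≤ -v.2 - 1
      omega
    · show ((v.1, - -v.2) : Pt) = v
      rw [neg_neg]

private theorem hp13_q0 : (((1 : Equiv.Perm Pt) '' {v : Pt | v - (1, 0) ∈ Uq true}) : Set Pt) =
    {v | 1 ≤ v.1 ∧ 0 ≤ v.2} := by
  ext v
  simp only [Set.mem_image, Set.mem_ofPred_eq]
  constructor
  · rintro ⟨w, hw, rfl⟩
    have h1 : 0 ≤ w.2 - 0 := hw.1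
    have h2 : 0 ≤ w.1 - 1 := hw.2 rfl
    show 1 ≤ w.1 ∧ 0 ≤ w.2
    omega
  · rintro ⟨h1, h2⟩
    refine ⟨v, ⟨?_, fun _ => ?_⟩, rfl⟩
    · show 0 ≤ v.2 - 0
      omega
    · show 0 ≤ v.1 - 1
      omega

private theorem hp13_q1 : (rxE '' {v : Pt | v - (0, 1) ∈ Uq true} : Set Pt) =
    {v | v.1 ≤ 0 ∧ 1 ≤ v.2} := by
  ext v
  simp only [Set.mem_image, Set.mem_ofPred_eq]
  constructor
  · rintro ⟨w, hw, rfl⟩
    have h1 : 0 ≤ w.2 - 1 := hw.1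
    have h2 : 0 ≤ w.1 - 0 := hw.2 rfl
    show -w.1 ≤ 0 ∧ 1 ≤ w.2
    omega
  · rintro ⟨h1, h2⟩
    refine ⟨(-v.1, v.2), ⟨?_, fun _ => ?_⟩, ?_⟩
    · show 0 ≤ v.2 - 1
      omega
    · show 0 ≤ -v.1 - 0
      omega
    · show ((- -v.1, v.2) : Pt) = v
      rw [neg_neg]

private theorem hp13_q2 : ((rxE * ryE : Equiv.Perm Pt) '' {v : Pt | v - (1, 0) ∈ Uq true} : Set Pt) =
    {v | v.1 ≤ -1 ∧ v.2 ≤ 0} := by
  ext v
  simp only [Set.mem_image, Set.mem_ofPred_eq]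
  constructor
  · rintro ⟨w, hw, rfl⟩
    have h1 : 0 ≤ w.2 - 0 := hw.1
    have h2 : 0 ≤ w.1 - 1 := hw.2 rfl
    show -w.1 ≤ -1 ∧ -w.2 ≤ 0
    omega
  · rintro ⟨h1, h2⟩
    refine ⟨(-v.1, -v.2), ⟨?_, fun _ => ?_⟩, ?_⟩
    · show 0 ≤ -v.2 - 0
      omega
    · show 0 ≤ -v.1 - 1
      omega
    · show ((- -v.1, - -v.2) : Pt) = v
      rw [neg_neg, neg_neg]

private theorem hp13_q3 : (ryE '' {v : Pt | v - (0, 1) ∈ Uq true} : Set Pt) =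
    {v | 0 ≤ v.1 ∧ v.2 ≤ -1} := by
  ext v
  simp only [Set.mem_image, Set.mem_ofPred_eq]
  constructor
  · rintro ⟨w, hw, rfl⟩
    have h1 : 0 ≤ w.2 - 1 := hw.1
    have h2 : 0 ≤ w.1 - 0 := hw.2 rfl
    show 0 ≤ w.1 ∧ -w.2 ≤ -1
    omega
  · rintro ⟨h1, h2⟩
    refine ⟨(v.1, -v.2), ⟨?_, fun _ => ?_⟩, ?_⟩
    · show 0 ≤ -v.2 - 1
      omega
    · show 0 ≤ v.1 - 0
      omega
    · show ((v.1, - -v.2) : Pt) = v
      rw [neg_neg]

private theorem hp13_one (q : Bool) : (((1 : Equiv.Perm Pt) '' {v : Pt | v - 0 ∈ Uq q}) : Set Pt) =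
    Uq q := by
  ext v
  simp only [Set.mem_image, Set.mem_ofPred_eq, sub_zero]
  constructor
  · rintro ⟨w, hw, rfl⟩
    exact hw
  · intro hv
    exact ⟨v, hv, rfl⟩

/-- HALF PLANE.  `P = pr (L.TwoH c H r R)`, `a = aU L false c r R`.  `ann r R ∩ H ⊆ ann r R ∩ Uq false`, so `pr_twoH_le` and `Arm.mono` give `P ≤ aU L false c r R ^ 2 * aU L false (!c) r R ≤ C a ^ 3`
(`aU_all` with `e = 1`, `u = 0`, `x = 0`; `shift_zero`).  `aU_all` with `e = ryE`, `u = (0, 1)`: `a ≤ C pr (Arm (!c) (ann r R ∩ {v.2 ≤ -1}) ..)`, so `pr_half_low` gives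
`P a ≤ C pr (L.TwoA c r R) ≤ C C' al L r R` (`al_all` with `s = 0`, `x = 0`; `L.rots 0 = L`).  `rpow34`. -/
theorem half_core (κ : ℕ → ℝ) : ∃ (C : ℝ) (R₀ : ℤ), 1 ≤ C ∧ 32 ≤ R₀ ∧ ∀ L : Lat, Fam L κ →
    ∀ (c : Bool) (H : Set Pt) (r R : ℤ), HalfLike H → R₀ ≤ r → r < R →
      pr (L.TwoH c H r R) ≤ C * (al L r R) ^ ((3 : ℝ) / 4) := by
  obtain ⟨C, R₁, hC, hR₁, H1⟩ := aU_all κ
  obtain ⟨C', R₂, hC', hR₂, H2⟩ := al_all κ
  have hC0 : (0 : ℝ) ≤ C := by linarith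
  have hC'0 : (0 : ℝ) ≤ C' := by linarith
  refine ⟨max 1 ((C * (C * C') ^ 3) ^ ((1 : ℝ) / 4)), max R₁ R₂, le_max_left _ _,
    le_trans hR₁ (le_max_left _ _), ?_⟩
  intro L hL c H r R hH hr hR
  have r1 : R₁ ≤ r := le_trans (le_max_left _ _) hr
  have r2 : R₂ ≤ r := le_trans (le_max_right _ _) hr
  have r0 : 1 ≤ r := by omega
  have hU : H ⊆ Uq false := fun v hv => ⟨hH.2 hv, fun h => absurd h (by decide)⟩
  have hP : 0 ≤ pr (L.TwoH c H r R) := pr_nonneg _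
  have ha : 0 ≤ aU L false c r R := aU_nonneg L false c r R
  have hal : 0 ≤ al L r R := by
    unfold al
    rw [if_pos hR]
    exact pr_nonneg _
  have a1 : pr (L.Arm c (ann r R ∩ H) (L.nb (bx r)) (rng R)) ≤ aU L false c r R :=
    hp13_mono L c r R hU
  have a2 : pr (L.Arm (!c) (ann r R ∩ H) (L.nb (bx r)) (rng R)) ≤ C * aU L false c r R := by
    refine le_trans (hp13_mono L (!c) r R hU) ?_
    have h := H1 L hL false (!c) c 0 0 1 r R (Or.inl rfl) le_rfl (by norm_num) le_rfl (by norm_num)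
      r1 hR
    rw [hp13_one, shift_zero] at h
    exact h
  have h1 : pr (L.TwoH c H r R) ≤ C * aU L false c r R ^ 3 := by
    calc pr (L.TwoH c H r R) ≤ pr (L.Arm c (ann r R ∩ H) (L.nb (bx r)) (rng R)) ^ 2 *
          pr (L.Arm (!c) (ann r R ∩ H) (L.nb (bx r)) (rng R)) := Lat.pr_twoH_le L c r0 hR hH
      _ ≤ aU L false c r R ^ 2 * (C * aU L false c r R) :=
          mul_le_mul (pow_le_pow_left₀ (pr_nonneg _) a1 2) a2 (pr_nonneg _) (pow_nonneg ha 2)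
      _ = C * aU L false c r R ^ 3 := by ring
  have h2 : pr (L.TwoH c H r R) * aU L false c r R ≤ (C * C') * al L r R := by
    have h := H1 L hL false c (!c) 0 (0, 1) ryE r R (Or.inr (Or.inr (Or.inl rfl))) le_rfl
      (by norm_num) (by norm_num) le_rfl r1 hR
    rw [hp13_low, shift_zero] at h
    have h3 := Lat.pr_half_low L c r0 hR hH
    have h4 := H2 L hL 0 0 c r R r2 hR
    rw [hp13_rots, shift_zero] at h4
    calc pr (L.TwoH c H r R) * aU L false c r R ≤ pr (L.TwoH c H r R) *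
          (C * pr (L.Arm (!c) (ann r R ∩ {v | v.2 ≤ -1}) (L.nb (bx r)) (rng R))) :=
          mul_le_mul_of_nonneg_left h hP
      _ = C * (pr (L.TwoH c H r R) *
          pr (L.Arm (!c) (ann r R ∩ {v | v.2 ≤ -1}) (L.nb (bx r)) (rng R))) := by ring
      _ ≤ C * (C' * al L r R) := mul_le_mul_of_nonneg_left (le_trans h3 h4) hC0
      _ = (C * C') * al L r R := by ring
  have h5 := rpow34 hP ha hal hC0 (mul_nonneg hC0 hC'0) h1 h2
  exact le_trans h5 (mul_le_mul_of_nonneg_right (le_max_right _ _) (Real.rpow_nonneg hal _))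

/-- CORNER.  `ann r R ∩ H ⊆ ann r R ∩ Uq true`, so `P = pr (L.TwoQ H r R) ≤ q₁ q₀`, `q₁ = aU L true true r R`, `q₀ = aU L true false r R` (`Arm.mono`, `pr_harris_neg`).  `aU_all` four times (`x = 0`, `q = true`):
`e = 1`, `u = (1, 0)`: `{v | v - (1,0) ∈ Uq true} = {1 ≤ v.1, 0 ≤ v.2}`, colour `true`; `e = rxE`, `u = (0, 1)`: `rxE '' {0 ≤ v.1, 1 ≤ v.2} = {v.1 ≤ 0, 1 ≤ v.2}`, colour `false`; `e = rxE * ryE`, `u = (1, 0)`:
`{v.1 ≤ -1, v.2 ≤ 0}`, colour `true`; `e = ryE`, `u = (0, 1)`: `{0 ≤ v.1, v.2 ≤ -1}`, colour `false`.  So `(q₁ q₀) ^ 2 ≤ C ^ 4 * (product of the four probabilities) ≤ C ^ 4 pr (L.TwoA true r R) = C ^ 4 al L r R`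
(`pr_quad`; `al` for `r < R`).  `rpow12`. -/
theorem quart_core (κ : ℕ → ℝ) : ∃ (C : ℝ) (R₀ : ℤ), 1 ≤ C ∧ 32 ≤ R₀ ∧ ∀ L : Lat, Fam L κ →
    ∀ (H : Set Pt) (r R : ℤ), QuartLike H → R₀ ≤ r → r < R →
      pr (L.TwoQ H r R) ≤ C * (al L r R) ^ ((1 : ℝ) / 2) := by
  obtain ⟨C, R₁, hC, hR₁, H1⟩ := aU_all κ
  have hC0 : (0 : ℝ) ≤ C := by linarith
  refine ⟨C ^ 2, R₁, one_le_pow₀ hC, hR₁, ?_⟩
  intro L hL H r R hH hr hR
  have r0 : 1 ≤ r := by omega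
  have hU : H ⊆ Uq true := fun v hv => ⟨(hH.2 hv).2, fun _ => (hH.2 hv).1⟩
  have hP : 0 ≤ pr (L.TwoQ H r R) := pr_nonneg _
  have q1 : 0 ≤ aU L true true r R := aU_nonneg L true true r R
  have q0 : 0 ≤ aU L true false r R := aU_nonneg L true false r R
  have hal : al L r R = pr (L.TwoA true r R) := by
    unfold al
    rw [if_pos hR]
  have hal0 : 0 ≤ al L r R := by
    rw [hal]
    exact pr_nonneg _
  have hle : pr (L.TwoQ H r R) ≤ aU L true true r R * aU L true false r R := by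
    have e : L.TwoQ H r R = fun ω => L.Arm true (ann r R ∩ H) (L.nb (bx r)) (rng R) ω ∧
        L.Arm false (ann r R ∩ H) (L.nb (bx r)) (rng R) ω := by
      funext ω
      refine propext ⟨fun h => ⟨h true, h false⟩, fun h c => ?_⟩
      cases c with
      | true => exact h.1
      | false => exact h.2
    rw [e]
    refine le_trans (pr_harris_neg (hp13_loc L true r R H) (hp13_loc L false r R H)
      (Lat.Arm.mon L true _ _ _) (Lat.Arm.mon L false _ _ _)) ?_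
    exact mul_le_mul (hp13_mono L true r R hU) (hp13_mono L false r R hU) (pr_nonneg _) q1
  have b0 := H1 L hL true true true 0 (1, 0) 1 r R (Or.inl rfl) (by norm_num) le_rfl le_rfl
    (by norm_num) hr hR
  have b1 := H1 L hL true false false 0 (0, 1) rxE r R (Or.inr (Or.inl rfl)) le_rfl
    (by norm_num) (by norm_num) le_rfl hr hR
  have b2 := H1 L hL true true true 0 (1, 0) (rxE * ryE) r R (Or.inr (Or.inr (Or.inr rfl)))
    (by norm_num) le_rfl le_rfl (by norm_num) hr hR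
  have b3 := H1 L hL true false false 0 (0, 1) ryE r R (Or.inr (Or.inr (Or.inl rfl))) le_rfl
    (by norm_num) (by norm_num) le_rfl hr hR
  rw [hp13_q0, shift_zero] at b0
  rw [hp13_q1, shift_zero] at b1
  rw [hp13_q2, shift_zero] at b2
  rw [hp13_q3, shift_zero] at b3
  have hq := Lat.pr_quad L r0 hR
  obtain ⟨p0, e0⟩ : ∃ p, p = pr (L.Arm true (ann r R ∩ {v | 1 ≤ v.1 ∧ 0 ≤ v.2})
    (L.nb (bx r)) (rng R)) := ⟨_, rfl⟩
  obtain ⟨p1, e1⟩ : ∃ p, p = pr (L.Arm false (ann r R ∩ {v | v.1 ≤ 0 ∧ 1 ≤ v.2})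
    (L.nb (bx r)) (rng R)) := ⟨_, rfl⟩
  obtain ⟨p2, e2⟩ : ∃ p, p = pr (L.Arm true (ann r R ∩ {v | v.1 ≤ -1 ∧ v.2 ≤ 0})
    (L.nb (bx r)) (rng R)) := ⟨_, rfl⟩
  obtain ⟨p3, e3⟩ : ∃ p, p = pr (L.Arm false (ann r R ∩ {v | 0 ≤ v.1 ∧ v.2 ≤ -1})
    (L.nb (bx r)) (rng R)) := ⟨_, rfl⟩
  rw [← e0] at b0
  rw [← e1] at b1
  rw [← e2] at b2
  rw [← e3] at b3
  rw [← e0, ← e1, ← e2, ← e3, ← hal] at hq
  have n0 : 0 ≤ p0 := by rw [e0]; exact pr_nonneg _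
  have n1 : 0 ≤ p1 := by rw [e1]; exact pr_nonneg _
  have n2 : 0 ≤ p2 := by rw [e2]; exact pr_nonneg _
  have n3 : 0 ≤ p3 := by rw [e3]; exact pr_nonneg _
  refine rpow12 hP hal0 (pow_nonneg hC0 2) ?_
  calc pr (L.TwoQ H r R) ^ 2 ≤ (aU L true true r R * aU L true false r R) ^ 2 :=
        pow_le_pow_left₀ hP hle 2
    _ = (aU L true true r R * aU L true false r R) *
        (aU L true true r R * aU L true false r R) := sq _
    _ ≤ ((C * p0) * (C * p1)) * ((C * p2) * (C * p3)) :=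
        mul_le_mul (mul_le_mul b0 b1 q0 (mul_nonneg hC0 n0))
          (mul_le_mul b2 b3 q0 (mul_nonneg hC0 n2)) (mul_nonneg q1 q0)
          (mul_nonneg (mul_nonneg hC0 n0) (mul_nonneg hC0 n1))
    _ = (C ^ 2) ^ 2 * (p0 * p1 * (p2 * p3)) := by ring
    _ ≤ (C ^ 2) ^ 2 * al L r R := mul_le_mul_of_nonneg_left hq (by positivity)

end SC
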