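import Pool.Agent.Lib_MP_e0a489.TA1

/-!
# MP_e0a489, topology 2d: the boundary of a rectangle
-/

set_option autoImplicit false

namespace SC

open Classical

/-- the sites of the boundary of `[a,b] × [c,d]`, counterclockwise from the lower left corner
(`0 ≤ i < 2(b-a) + 2(d-c)`) -/
def bp (a b c d i : ℤ) : Pt :=
  if i ≤ b - a then (a + i, c)
  else if i ≤ (b - a) + (d - c) then (b, c + (i - (b - a)))
  else if i ≤ 2 * (b - a) + (d - c) then (b - (i - (b - a) - (d - c)), d)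
  else (a, d - (i - 2 * (b - a) - (d - c)))

private theorem habs (x y : ℤ) (h : (x = 0 ∧ (y = 1 ∨ y = -1)) ∨ ((x = 1 ∨ x = -1) ∧ y = 0)) :
    |x| + |y| = 1 := by
  rcases h with ⟨rfl, rfl | rfl⟩ | ⟨rfl | rfl, rfl⟩ <;> simp

namespace Lat

variable {L : Lat}

theorem bp_adj {a b c d i : ℤ} (hab : a < b) (hcd : c < d) (h0 : 0 ≤ i)
    (h : i + 1 < 2 * (b - a) + 2 * (d - c)) : L.Adj (bp a b c d i) (bp a b c d (i + 1)) := by
  apply adj_of_nn
  apply habs
  unfold bp
  split_ifs <;> dsimp only <;> omega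

theorem bp_adj_last {a b c d : ℤ} (hab : a < b) (hcd : c < d) :
    L.Adj (bp a b c d (2 * (b - a) + 2 * (d - c) - 1)) (bp a b c d 0) := by
  apply adj_of_nn
  apply habs
  unfold bp
  split_ifs <;> dsimp only <;> omega

theorem bp_inj {a b c d i j : ℤ} (hab : a < b) (hcd : c < d) (hi : 0 ≤ i) (hj : 0 ≤ j)
    (hi' : i < 2 * (b - a) + 2 * (d - c)) (hj' : j < 2 * (b - a) + 2 * (d - c))
    (h : bp a b c d i = bp a b c d j) : i = j := by
  have h1 := congrArg Prod.fst h
  have h2 := congrArg Prod.snd h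
  unfold bp at h1 h2
  split_ifs at h1 h2 <;> dsimp only at h1 h2 <;> omega

theorem bp_surj {a b c d : ℤ} (hab : a < b) (hcd : c < d) {v : Pt} (hv : v ∈ rect a b c d)
    (hb : v.1 = a ∨ v.1 = b ∨ v.2 = c ∨ v.2 = d) :
    ∃ i, 0 ≤ i ∧ i < 2 * (b - a) + 2 * (d - c) ∧ bp a b c d i = v := by
  obtain ⟨x, y⟩ := v
  obtain ⟨⟨h1, h2⟩, h3, h4⟩ := hv
  dsimp only at h1 h2 h3 h4 hb
  by_cases e1 : y = c
  · refine ⟨x - a, by omega, by omega, ?_⟩
    unfold bp
    rw [if_pos (by omega)]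
    exact Prod.ext (by dsimp only; omega) (by dsimp only; omega)
  by_cases e2 : x = b
  · refine ⟨(b - a) + (y - c), by omega, by omega, ?_⟩
    unfold bp
    rw [if_neg (by omega), if_pos (by omega)]
    exact Prod.ext (by dsimp only; omega) (by dsimp only; omega)
  by_cases e3 : y = d
  · refine ⟨(b - a) + (d - c) + (b - x), by omega, by omega, ?_⟩
    unfold bp
    rw [if_neg (by omega), if_neg (by omega), if_pos (by omega)]
    exact Prod.ext (by dsimp only; omega) (by dsimp only; omega)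
  · refine ⟨2 * (b - a) + (d - c) + (d - y), by omega, by omega, ?_⟩
    unfold bp
    rw [if_neg (by omega), if_neg (by omega), if_neg (by omega)]
    exact Prod.ext (by dsimp only; omega) (by dsimp only; omega)

theorem bp_mem {a b c d i : ℤ} (hab : a < b) (hcd : c < d) (hi : 0 ≤ i)
    (hi' : i < 2 * (b - a) + 2 * (d - c)) : bp a b c d i ∈ rect a b c d ∧
      ((bp a b c d i).1 = a ∨ (bp a b c d i).1 = b ∨ (bp a b c d i).2 = c ∨
        (bp a b c d i).2 = d) := by
  refine ⟨⟨⟨?_, ?_⟩, ?_, ?_⟩, ?_⟩ <;> unfold bp <;> split_ifs <;> dsimp only <;> omega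

end Lat

end SC
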