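import Pool.Agent.Lib_MP_e0a489.TB2
import Pool.Agent.Lib_MP_e0a489.TB4

/-!
# MP_e0a489, topology 2e: interlaced boundary points
-/

set_option autoImplicit false

namespace SC

open Classical

namespace Lat

variable {L : Lat}

/-- the path outside the rectangle which joins the boundary point number `i` to the row `c - 10` -/
private def TB5E (a b c d k i : ℤ) : Set Pt :=
  if i ≤ b - a then rect (a + i) (a + i) (c - 10) c
  else if i ≤ (b - a) + (d - c) then
    rect b (b + k) (c + (i - (b - a))) (c + (i - (b - a))) ∪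
      rect (b + k) (b + k) (c - 10) (c + (i - (b - a)))
  else if i ≤ 2 * (b - a) + (d - c) then
    rect (b - (i - (b - a) - (d - c))) (b - (i - (b - a) - (d - c))) d (d + k) ∪
      (rect (b - (i - (b - a) - (d - c))) (b + k) (d + k) (d + k) ∪
        rect (b + k) (b + k) (c - 10) (d + k))
  else
    rect (a - k) a (d - (i - 2 * (b - a) - (d - c))) (d - (i - 2 * (b - a) - (d - c))) ∪
      (rect (a - k) (a - k) (d - (i - 2 * (b - a) - (d - c))) (d + k) ∪
        (rect (a - k) (b + k) (d + k) (d + k) ∪ rect (b + k) (b + k) (c - 10) (d + k)))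

/-- its column in the row `c - 10` -/
private def TB5X (a b k i : ℤ) : ℤ := if i ≤ b - a then a + i else b + k

private theorem TB5_mem {a b c d k i : ℤ} {v : Pt} (h : v ∈ TB5E a b c d k i) :
    (i ≤ b - a ∧ v.1 = a + i ∧ c - 10 ≤ v.2 ∧ v.2 ≤ c) ∨
    (b - a < i ∧ i ≤ (b - a) + (d - c) ∧
      ((b ≤ v.1 ∧ v.1 ≤ b + k ∧ v.2 = c + (i - (b - a))) ∨
       (v.1 = b + k ∧ c - 10 ≤ v.2 ∧ v.2 ≤ c + (i - (b - a))))) ∨
    ((b - a) + (d - c) < i ∧ i ≤ 2 * (b - a) + (d - c) ∧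
      ((v.1 = b - (i - (b - a) - (d - c)) ∧ d ≤ v.2 ∧ v.2 ≤ d + k) ∨
       (b - (i - (b - a) - (d - c)) ≤ v.1 ∧ v.1 ≤ b + k ∧ v.2 = d + k) ∨
       (v.1 = b + k ∧ c - 10 ≤ v.2 ∧ v.2 ≤ d + k))) ∨
    (2 * (b - a) + (d - c) < i ∧
      ((a - k ≤ v.1 ∧ v.1 ≤ a ∧ v.2 = d - (i - 2 * (b - a) - (d - c))) ∨
       (v.1 = a - k ∧ d - (i - 2 * (b - a) - (d - c)) ≤ v.2 ∧ v.2 ≤ d + k) ∨
       (a - k ≤ v.1 ∧ v.1 ≤ b + k ∧ v.2 = d + k) ∨
       (v.1 = b + k ∧ c - 10 ≤ v.2 ∧ v.2 ≤ d + k))) := by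
  unfold TB5E at h
  split_ifs at h with h1 h2 h3
  · left
    obtain ⟨⟨h4, h5⟩, h6, h7⟩ := h
    exact ⟨h1, by omega, h6, h7⟩
  · right; left
    refine ⟨by omega, h2, ?_⟩
    rcases h with ⟨⟨h4, h5⟩, h6, h7⟩ | ⟨⟨h4, h5⟩, h6, h7⟩
    · left; omega
    · right; omega
  · right; right; left
    refine ⟨by omega, h3, ?_⟩
    rcases h with ⟨⟨h4, h5⟩, h6, h7⟩ | ⟨⟨h4, h5⟩, h6, h7⟩ | ⟨⟨h4, h5⟩, h6, h7⟩
    · left; omega
    · right; left; omega
    · right; right; omega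
  · right; right; right
    refine ⟨by omega, ?_⟩
    rcases h with ⟨⟨h4, h5⟩, h6, h7⟩ | ⟨⟨h4, h5⟩, h6, h7⟩ | ⟨⟨h4, h5⟩, h6, h7⟩ | ⟨⟨h4, h5⟩, h6, h7⟩
    · left; omega
    · right; left; omega
    · right; right; left; omega
    · right; right; right; omega

private theorem TB5_bound {a b c d k i : ℤ} (hab : a < b) (hcd : c < d) (hk : 1 ≤ k) (h0 : 0 ≤ i)
    (hi : i < 2 * (b - a) + 2 * (d - c)) {v : Pt} (h : v ∈ TB5E a b c d k i) :
    a - k ≤ v.1 ∧ v.1 ≤ b + k ∧ c - 10 ≤ v.2 ∧ v.2 ≤ d + k := by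
  rcases TB5_mem h with h1 | ⟨h1, h2, h3 | h3⟩ | ⟨h1, h2, h3 | h3 | h3⟩ | ⟨h1, h3 | h3 | h3 | h3⟩ <;>
    omega

private theorem TB5_low {a b c d k i : ℤ} (hab : a < b) (hcd : c < d) (hk : 1 ≤ k) (h0 : 0 ≤ i)
    (hi : i < 2 * (b - a) + 2 * (d - c)) {v : Pt} (h : v ∈ TB5E a b c d k i) (hv : v.2 ≤ c - 10) :
    v.1 = TB5X a b k i := by
  unfold TB5X
  rcases TB5_mem h with h1 | ⟨h1, h2, h3 | h3⟩ | ⟨h1, h2, h3 | h3 | h3⟩ | ⟨h1, h3 | h3 | h3 | h3⟩ <;>
    split_ifs <;> omega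

private theorem TB5_rect {a b c d k i : ℤ} (hab : a < b) (hcd : c < d) (hk : 1 ≤ k) (h0 : 0 ≤ i)
    (hi : i < 2 * (b - a) + 2 * (d - c)) {v : Pt} (h : v ∈ TB5E a b c d k i)
    (hv : v ∈ rect a b c d) : v = bp a b c d i := by
  obtain ⟨⟨v1, v2⟩, v3, v4⟩ := hv
  have key : v.1 = (bp a b c d i).1 ∧ v.2 = (bp a b c d i).2 := by
    unfold bp
    rcases TB5_mem h with h1 | ⟨h1, h2, h3 | h3⟩ | ⟨h1, h2, h3 | h3 | h3⟩ | ⟨h1, h3 | h3 | h3 | h3⟩ <;>
      split_ifs <;> simp only <;> omega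
  exact Prod.ext key.1 key.2

private theorem TB5_disj {a b c d k i k' i' : ℤ} (hab : a < b) (hcd : c < d) (hk : 1 ≤ k)
    (hkk : k < k') (hk' : k' ≤ 4) (h0 : 0 ≤ i) (hii : i < i')
    (hi : i' < 2 * (b - a) + 2 * (d - c)) {v : Pt} (h : v ∈ TB5E a b c d k i)
    (h' : v ∈ TB5E a b c d k' i') : False := by
  rcases TB5_mem h with h1 | ⟨h1, h2, h3 | h3⟩ | ⟨h1, h2, h3 | h3 | h3⟩ | ⟨h1, h3 | h3 | h3 | h3⟩ <;>
    rcases TB5_mem h' with g1 | ⟨g1, g2, g3 | g3⟩ | ⟨g1, g2, g3 | g3 | g3⟩ | ⟨g1, g3 | g3 | g3 | g3⟩ <;>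
    omega

private theorem TB5_bp {a b c d k i : ℤ} (hab : a < b) (hcd : c < d) (hk : 1 ≤ k) (h0 : 0 ≤ i)
    (hi : i < 2 * (b - a) + 2 * (d - c)) : bp a b c d i ∈ TB5E a b c d k i := by
  unfold TB5E bp
  split_ifs
  · exact ⟨⟨by simp only; omega, by simp only; omega⟩, by simp only; omega, by simp only; omega⟩
  · left
    exact ⟨⟨by simp only; omega, by simp only; omega⟩, by simp only; omega, by simp only; omega⟩
  · left
    exact ⟨⟨by simp only; omega, by simp only; omega⟩, by simp only; omega, by simp only; omega⟩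
  · left
    exact ⟨⟨by simp only; omega, by simp only; omega⟩, by simp only; omega, by simp only; omega⟩

private theorem TB5_Xmem {a b c d k i : ℤ} (hab : a < b) (hcd : c < d) (hk : 1 ≤ k) (h0 : 0 ≤ i)
    (hi : i < 2 * (b - a) + 2 * (d - c)) : ((TB5X a b k i, c - 10) : Pt) ∈ TB5E a b c d k i := by
  unfold TB5E TB5X
  split_ifs
  · exact ⟨⟨by simp only; omega, by simp only; omega⟩, by simp only; omega, by simp only; omega⟩
  · right
    exact ⟨⟨by simp only; omega, by simp only; omega⟩, by simp only; omega, by simp only; omega⟩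
  · right; right
    exact ⟨⟨by simp only; omega, by simp only; omega⟩, by simp only; omega, by simp only; omega⟩
  · right; right; right
    exact ⟨⟨by simp only; omega, by simp only; omega⟩, by simp only; omega, by simp only; omega⟩

private theorem TB5_rmem {a b c d x y : ℤ} (h1 : a ≤ x) (h2 : x ≤ b) (h3 : c ≤ y) (h4 : y ≤ d) :
    ((x, y) : Pt) ∈ rect a b c d := ⟨⟨h1, h2⟩, h3, h4⟩

private theorem TB5_con {a b c d k i : ℤ} (hab : a < b) (hcd : c < d) (hk : 1 ≤ k) (h0 : 0 ≤ i)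
    (hi : i < 2 * (b - a) + 2 * (d - c)) : L.Con (TB5E a b c d k i) := by
  unfold TB5E
  split_ifs
  · exact con_rect _ _ _ _
  · refine Con.union (con_rect _ _ _ _) (con_rect _ _ _ _) ⟨(b + k, c + (i - (b - a))), ?_, ?_⟩
    · exact TB5_rmem (by omega) (by omega) (by omega) (by omega)
    · exact TB5_rmem (by omega) (by omega) (by omega) (by omega)
  · refine Con.union (con_rect _ _ _ _) (Con.union (con_rect _ _ _ _) (con_rect _ _ _ _)
      ⟨(b + k, d + k), ?_, ?_⟩) ⟨(b - (i - (b - a) - (d - c)), d + k), ?_, Or.inl ?_⟩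
    · exact TB5_rmem (by omega) (by omega) (by omega) (by omega)
    · exact TB5_rmem (by omega) (by omega) (by omega) (by omega)
    · exact TB5_rmem (by omega) (by omega) (by omega) (by omega)
    · exact TB5_rmem (by omega) (by omega) (by omega) (by omega)
  · refine Con.union (con_rect _ _ _ _) (Con.union (con_rect _ _ _ _) (Con.union (con_rect _ _ _ _)
      (con_rect _ _ _ _) ⟨(b + k, d + k), ?_, ?_⟩) ⟨(a - k, d + k), ?_, Or.inl ?_⟩)
      ⟨(a - k, d - (i - 2 * (b - a) - (d - c))), ?_, Or.inl ?_⟩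
    · exact TB5_rmem (by omega) (by omega) (by omega) (by omega)
    · exact TB5_rmem (by omega) (by omega) (by omega) (by omega)
    · exact TB5_rmem (by omega) (by omega) (by omega) (by omega)
    · exact TB5_rmem (by omega) (by omega) (by omega) (by omega)
    · exact TB5_rmem (by omega) (by omega) (by omega) (by omega)
    · exact TB5_rmem (by omega) (by omega) (by omega) (by omega)

private theorem TB5_X {a b k i k' i' : ℤ} (hkk : k < k') (hk : 1 ≤ k) (hii : i < i') :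
    TB5X a b k i < TB5X a b k' i' := by
  unfold TB5X
  split_ifs <;> omega

private theorem TB5_Xa {a b k i : ℤ} (hab : a < b) (hk : 1 ≤ k) (h0 : 0 ≤ i) :
    a ≤ TB5X a b k i ∧ TB5X a b k i ≤ b + k := by
  unfold TB5X
  split_ifs <;> omega

/-- INTERLACED BOUNDARY POINTS: two connected sets in a rectangle which contain interlaced pairs of
boundary points meet.  Proof from `cross` by extending the sets outside the rectangle.  The point
number `j = 1, 2, 3, 4` (index `i_j`) is joined to a point `(X_j, c - 10)` by the path `E_j`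
(with `k = j`): from a point `(x,c)` of the bottom side straight down; from a point `(b,y)` of the
right side right to column `b + k`, then down; from a point `(x,d)` of the top side up to row
`d + k`, right to column `b + k`, down; from a point `(a,y)` of the left side left to column
`a - k`, up to row `d + k`, right to column `b + k`, down.  These four paths are disjoint, meet the
rectangle only at their first points, and `X_1 < X_2 < X_3 < X_4`.  Now extend once more: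
`P` by `(X_1, c-11)` and the row `c - 11` to the left up to column `a - 7`, and `(X_3, c-11)` and
the row `c - 11` to the right up to column `b + 7`; `P'` by `(X_2, c-11), (X_2, c-12)` and by the
row `c - 10` from `X_4` to column `b + 6` and this column up to row `d + 7`.  Then `cross` in
`[a-7,b+7] × [c-12,d+7]`. -/
theorem interlace {a b c d : ℤ} (hab : a < b) (hcd : c < d) {P P' : Set Pt} (hP : L.Con P)
    (hP' : L.Con P') (hPr : P ⊆ rect a b c d) (hPr' : P' ⊆ rect a b c d) {i1 i2 i3 i4 : ℤ}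
    (h0 : 0 ≤ i1) (h12 : i1 < i2) (h23 : i2 < i3) (h34 : i3 < i4)
    (h4 : i4 < 2 * (b - a) + 2 * (d - c)) (m1 : bp a b c d i1 ∈ P) (m3 : bp a b c d i3 ∈ P)
    (m2 : bp a b c d i2 ∈ P') (m4 : bp a b c d i4 ∈ P') : (P ∩ P').Nonempty := by
  obtain ⟨X1, hX1⟩ : ∃ X1, X1 = TB5X a b 1 i1 := ⟨_, rfl⟩
  obtain ⟨X2, hX2⟩ : ∃ X2, X2 = TB5X a b 2 i2 := ⟨_, rfl⟩
  obtain ⟨X3, hX3⟩ : ∃ X3, X3 = TB5X a b 3 i3 := ⟨_, rfl⟩
  obtain ⟨X4, hX4⟩ : ∃ X4, X4 = TB5X a b 4 i4 := ⟨_, rfl⟩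
  have x12 : X1 < X2 := by rw [hX1, hX2]; exact TB5_X (by omega) (by omega) h12
  have x23 : X2 < X3 := by rw [hX2, hX3]; exact TB5_X (by omega) (by omega) h23
  have x34 : X3 < X4 := by rw [hX3, hX4]; exact TB5_X (by omega) (by omega) h34
  have x1a : a ≤ X1 := by rw [hX1]; exact (TB5_Xa hab (by omega) h0).1
  have x4b : X4 ≤ b + 4 := by rw [hX4]; exact (TB5_Xa hab (by omega) (by omega)).2
  set E1 := TB5E a b c d 1 i1 with hE1
  set E2 := TB5E a b c d 2 i2 with hE2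
  set E3 := TB5E a b c d 3 i3 with hE3
  set E4 := TB5E a b c d 4 i4 with hE4
  have c1 : L.Con E1 := TB5_con hab hcd (by omega) (by omega) (by omega)
  have c2 : L.Con E2 := TB5_con hab hcd (by omega) (by omega) (by omega)
  have c3 : L.Con E3 := TB5_con hab hcd (by omega) (by omega) (by omega)
  have c4 : L.Con E4 := TB5_con hab hcd (by omega) (by omega) (by omega)
  have b1 : bp a b c d i1 ∈ E1 := TB5_bp hab hcd (by omega) (by omega) (by omega)
  have b2 : bp a b c d i2 ∈ E2 := TB5_bp hab hcd (by omega) (by omega) (by omega)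
  have b3 : bp a b c d i3 ∈ E3 := TB5_bp hab hcd (by omega) (by omega) (by omega)
  have b4 : bp a b c d i4 ∈ E4 := TB5_bp hab hcd (by omega) (by omega) (by omega)
  have e1 : ((X1, c - 10) : Pt) ∈ E1 := by
    rw [hX1]; exact TB5_Xmem hab hcd (by omega) (by omega) (by omega)
  have e2 : ((X2, c - 10) : Pt) ∈ E2 := by
    rw [hX2]; exact TB5_Xmem hab hcd (by omega) (by omega) (by omega)
  have e3 : ((X3, c - 10) : Pt) ∈ E3 := by
    rw [hX3]; exact TB5_Xmem hab hcd (by omega) (by omega) (by omega)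
  have e4 : ((X4, c - 10) : Pt) ∈ E4 := by
    rw [hX4]; exact TB5_Xmem hab hcd (by omega) (by omega) (by omega)
  -- the two extensions of `P`
  have q1 : L.Con (E1 ∪ (rect X1 X1 (c - 11) (c - 10) ∪ rect (a - 7) X1 (c - 11) (c - 11))) :=
    Con.union c1 (Con.union (con_rect _ _ _ _) (con_rect _ _ _ _)
      ⟨(X1, c - 11), TB5_rmem (by omega) (by omega) (by omega) (by omega),
        TB5_rmem (by omega) (by omega) (by omega) (by omega)⟩)
      ⟨(X1, c - 10), e1, Or.inl (TB5_rmem (by omega) (by omega) (by omega) (by omega))⟩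
  have q3 : L.Con (E3 ∪ (rect X3 X3 (c - 11) (c - 10) ∪ rect X3 (b + 7) (c - 11) (c - 11))) :=
    Con.union c3 (Con.union (con_rect _ _ _ _) (con_rect _ _ _ _)
      ⟨(X3, c - 11), TB5_rmem (by omega) (by omega) (by omega) (by omega),
        TB5_rmem (by omega) (by omega) (by omega) (by omega)⟩)
      ⟨(X3, c - 10), e3, Or.inl (TB5_rmem (by omega) (by omega) (by omega) (by omega))⟩
  have q2 : L.Con (E2 ∪ rect X2 X2 (c - 12) (c - 10)) :=
    Con.union c2 (con_rect _ _ _ _)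
      ⟨(X2, c - 10), e2, TB5_rmem (by omega) (by omega) (by omega) (by omega)⟩
  have q4 : L.Con (E4 ∪ (rect X4 (b + 6) (c - 10) (c - 10) ∪ rect (b + 6) (b + 6) (c - 10) (d + 7))) :=
    Con.union c4 (Con.union (con_rect _ _ _ _) (con_rect _ _ _ _)
      ⟨(b + 6, c - 10), TB5_rmem (by omega) (by omega) (by omega) (by omega),
        TB5_rmem (by omega) (by omega) (by omega) (by omega)⟩)
      ⟨(X4, c - 10), e4, Or.inl (TB5_rmem (by omega) (by omega) (by omega) (by omega))⟩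
  have hQ : L.Con ((P ∪ (E1 ∪ (rect X1 X1 (c - 11) (c - 10) ∪ rect (a - 7) X1 (c - 11) (c - 11)))) ∪
      (E3 ∪ (rect X3 X3 (c - 11) (c - 10) ∪ rect X3 (b + 7) (c - 11) (c - 11)))) :=
    Con.union (Con.union hP q1 ⟨_, m1, Or.inl b1⟩) q3 ⟨_, Or.inl m3, Or.inl b3⟩
  have hQ' : L.Con ((P' ∪ (E2 ∪ rect X2 X2 (c - 12) (c - 10))) ∪
      (E4 ∪ (rect X4 (b + 6) (c - 10) (c - 10) ∪ rect (b + 6) (b + 6) (c - 10) (d + 7)))) :=
    Con.union (Con.union hP' q2 ⟨_, m2, Or.inl b2⟩) q4 ⟨_, Or.inl m4, Or.inl b4⟩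
  have bd1 : ∀ v ∈ E1, a - 1 ≤ v.1 ∧ v.1 ≤ b + 1 ∧ c - 10 ≤ v.2 ∧ v.2 ≤ d + 1 := fun v hv =>
    TB5_bound hab hcd (by omega) (by omega) (by omega) hv
  have bd2 : ∀ v ∈ E2, a - 2 ≤ v.1 ∧ v.1 ≤ b + 2 ∧ c - 10 ≤ v.2 ∧ v.2 ≤ d + 2 := fun v hv =>
    TB5_bound hab hcd (by omega) (by omega) (by omega) hv
  have bd3 : ∀ v ∈ E3, a - 3 ≤ v.1 ∧ v.1 ≤ b + 3 ∧ c - 10 ≤ v.2 ∧ v.2 ≤ d + 3 := fun v hv =>
    TB5_bound hab hcd (by omega) (by omega) (by omega) hv
  have bd4 : ∀ v ∈ E4, a - 4 ≤ v.1 ∧ v.1 ≤ b + 4 ∧ c - 10 ≤ v.2 ∧ v.2 ≤ d + 4 := fun v hv =>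
    TB5_bound hab hcd (by omega) (by omega) (by omega) hv
  have lo1 : ∀ v ∈ E1, v.2 ≤ c - 10 → v.1 = X1 := fun v hv h => by
    rw [hX1]; exact TB5_low hab hcd (by omega) (by omega) (by omega) hv h
  have lo2 : ∀ v ∈ E2, v.2 ≤ c - 10 → v.1 = X2 := fun v hv h => by
    rw [hX2]; exact TB5_low hab hcd (by omega) (by omega) (by omega) hv h
  have lo3 : ∀ v ∈ E3, v.2 ≤ c - 10 → v.1 = X3 := fun v hv h => by
    rw [hX3]; exact TB5_low hab hcd (by omega) (by omega) (by omega) hv h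
  have lo4 : ∀ v ∈ E4, v.2 ≤ c - 10 → v.1 = X4 := fun v hv h => by
    rw [hX4]; exact TB5_low hab hcd (by omega) (by omega) (by omega) hv h
  have hcr := cross (a := a - 7) (b := b + 7) (c := c - 12) (d := d + 7) hQ hQ' ?_ ?_
    ⟨(a - 7, c - 11), Or.inl (Or.inr (Or.inr (Or.inr
      (TB5_rmem (by omega) (by omega) (by omega) (by omega))))), rfl⟩
    ⟨(b + 7, c - 11), Or.inr (Or.inr (Or.inr
      (TB5_rmem (by omega) (by omega) (by omega) (by omega)))), rfl⟩
    ⟨(X2, c - 12), Or.inl (Or.inr (Or.inr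
      (TB5_rmem (by omega) (by omega) (by omega) (by omega)))), rfl⟩
    ⟨(b + 6, d + 7), Or.inr (Or.inr (Or.inr
      (TB5_rmem (by omega) (by omega) (by omega) (by omega)))), rfl⟩
  · obtain ⟨v, hv, hv'⟩ := hcr
    rcases hv with (hv | hv | hv | hv) | hv | hv | hv
    · rcases hv' with (hv' | hv' | hv') | hv' | hv' | hv'
      · exact ⟨v, hv, hv'⟩
      · have hb := TB5_rect hab hcd (by omega) (by omega) (by omega) hv' (hPr hv)
        exact ⟨v, hv, by rw [hb]; exact m2⟩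
      · exfalso
        obtain ⟨⟨g1, g2⟩, g3, g4⟩ := hPr hv
        obtain ⟨⟨g1', g2'⟩, g3', g4'⟩ := hv'
        omega
      · have hb := TB5_rect hab hcd (by omega) (by omega) (by omega) hv' (hPr hv)
        exact ⟨v, hv, by rw [hb]; exact m4⟩
      · exfalso
        obtain ⟨⟨g1, g2⟩, g3, g4⟩ := hPr hv
        obtain ⟨⟨g1', g2'⟩, g3', g4'⟩ := hv'
        omega
      · exfalso
        obtain ⟨⟨g1, g2⟩, g3, g4⟩ := hPr hv
        obtain ⟨⟨g1', g2'⟩, g3', g4'⟩ := hv'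
        omega
    · rcases hv' with (hv' | hv' | hv') | hv' | hv' | hv'
      · have hb := TB5_rect hab hcd (by omega) (by omega) (by omega) hv (hPr' hv')
        exact ⟨v, by rw [hb]; exact m1, hv'⟩
      · exact (TB5_disj hab hcd (by omega) (by omega) (by omega) (by omega) (by omega) (by omega) hv hv').elim
      · exfalso
        obtain ⟨g1, g2, g3, g4⟩ := bd1 v hv
        have g5 := lo1 v hv
        obtain ⟨⟨g1', g2'⟩, g3', g4'⟩ := hv'
        omega
      · exact (TB5_disj hab hcd (by omega) (by omega) (by omega) (by omega) (by omega) (by omega) hv hv').elim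
      · exfalso
        obtain ⟨g1, g2, g3, g4⟩ := bd1 v hv
        have g5 := lo1 v hv
        obtain ⟨⟨g1', g2'⟩, g3', g4'⟩ := hv'
        omega
      · exfalso
        obtain ⟨g1, g2, g3, g4⟩ := bd1 v hv
        have g5 := lo1 v hv
        obtain ⟨⟨g1', g2'⟩, g3', g4'⟩ := hv'
        omega
    · rcases hv' with (hv' | hv' | hv') | hv' | hv' | hv'
      · exfalso
        obtain ⟨⟨g1, g2⟩, g3, g4⟩ := hv
        obtain ⟨⟨g1', g2'⟩, g3', g4'⟩ := hPr' hv'
        omega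
      · exfalso
        obtain ⟨⟨g1, g2⟩, g3, g4⟩ := hv
        obtain ⟨g1', g2', g3', g4'⟩ := bd2 v hv'
        have g5' := lo2 v hv'
        omega
      · exfalso
        obtain ⟨⟨g1, g2⟩, g3, g4⟩ := hv
        obtain ⟨⟨g1', g2'⟩, g3', g4'⟩ := hv'
        omega
      · exfalso
        obtain ⟨⟨g1, g2⟩, g3, g4⟩ := hv
        obtain ⟨g1', g2', g3', g4'⟩ := bd4 v hv'
        have g5' := lo4 v hv'
        omega
      · exfalso
        obtain ⟨⟨g1, g2⟩, g3, g4⟩ := hv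
        obtain ⟨⟨g1', g2'⟩, g3', g4'⟩ := hv'
        omega
      · exfalso
        obtain ⟨⟨g1, g2⟩, g3, g4⟩ := hv
        obtain ⟨⟨g1', g2'⟩, g3', g4'⟩ := hv'
        omega
    · rcases hv' with (hv' | hv' | hv') | hv' | hv' | hv'
      · exfalso
        obtain ⟨⟨g1, g2⟩, g3, g4⟩ := hv
        obtain ⟨⟨g1', g2'⟩, g3', g4'⟩ := hPr' hv'
        omega
      · exfalso
        obtain ⟨⟨g1, g2⟩, g3, g4⟩ := hv
        obtain ⟨g1', g2', g3', g4'⟩ := bd2 v hv'
        have g5' := lo2 v hv'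
        omega
      · exfalso
        obtain ⟨⟨g1, g2⟩, g3, g4⟩ := hv
        obtain ⟨⟨g1', g2'⟩, g3', g4'⟩ := hv'
        omega
      · exfalso
        obtain ⟨⟨g1, g2⟩, g3, g4⟩ := hv
        obtain ⟨g1', g2', g3', g4'⟩ := bd4 v hv'
        have g5' := lo4 v hv'
        omega
      · exfalso
        obtain ⟨⟨g1, g2⟩, g3, g4⟩ := hv
        obtain ⟨⟨g1', g2'⟩, g3', g4'⟩ := hv'
        omega
      · exfalso
        obtain ⟨⟨g1, g2⟩, g3, g4⟩ := hv
        obtain ⟨⟨g1', g2'⟩, g3', g4'⟩ := hv'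
        omega
    · rcases hv' with (hv' | hv' | hv') | hv' | hv' | hv'
      · have hb := TB5_rect hab hcd (by omega) (by omega) (by omega) hv (hPr' hv')
        exact ⟨v, by rw [hb]; exact m3, hv'⟩
      · exact (TB5_disj hab hcd (by omega) (by omega) (by omega) (by omega) h23 (by omega) hv' hv).elim
      · exfalso
        obtain ⟨g1, g2, g3, g4⟩ := bd3 v hv
        have g5 := lo3 v hv
        obtain ⟨⟨g1', g2'⟩, g3', g4'⟩ := hv'
        omega
      · exact (TB5_disj hab hcd (by omega) (by omega) (by omega) (by omega) (by omega) (by omega) hv hv').elim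
      · exfalso
        obtain ⟨g1, g2, g3, g4⟩ := bd3 v hv
        have g5 := lo3 v hv
        obtain ⟨⟨g1', g2'⟩, g3', g4'⟩ := hv'
        omega
      · exfalso
        obtain ⟨g1, g2, g3, g4⟩ := bd3 v hv
        have g5 := lo3 v hv
        obtain ⟨⟨g1', g2'⟩, g3', g4'⟩ := hv'
        omega
    · rcases hv' with (hv' | hv' | hv') | hv' | hv' | hv'
      · exfalso
        obtain ⟨⟨g1, g2⟩, g3, g4⟩ := hv
        obtain ⟨⟨g1', g2'⟩, g3', g4'⟩ := hPr' hv'
        omega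
      · exfalso
        obtain ⟨⟨g1, g2⟩, g3, g4⟩ := hv
        obtain ⟨g1', g2', g3', g4'⟩ := bd2 v hv'
        have g5' := lo2 v hv'
        omega
      · exfalso
        obtain ⟨⟨g1, g2⟩, g3, g4⟩ := hv
        obtain ⟨⟨g1', g2'⟩, g3', g4'⟩ := hv'
        omega
      · exfalso
        obtain ⟨⟨g1, g2⟩, g3, g4⟩ := hv
        obtain ⟨g1', g2', g3', g4'⟩ := bd4 v hv'
        have g5' := lo4 v hv'
        omega
      · exfalso
        obtain ⟨⟨g1, g2⟩, g3, g4⟩ := hv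
        obtain ⟨⟨g1', g2'⟩, g3', g4'⟩ := hv'
        omega
      · exfalso
        obtain ⟨⟨g1, g2⟩, g3, g4⟩ := hv
        obtain ⟨⟨g1', g2'⟩, g3', g4'⟩ := hv'
        omega
    · rcases hv' with (hv' | hv' | hv') | hv' | hv' | hv'
      · exfalso
        obtain ⟨⟨g1, g2⟩, g3, g4⟩ := hv
        obtain ⟨⟨g1', g2'⟩, g3', g4'⟩ := hPr' hv'
        omega
      · exfalso
        obtain ⟨⟨g1, g2⟩, g3, g4⟩ := hv
        obtain ⟨g1', g2', g3', g4'⟩ := bd2 v hv'
        have g5' := lo2 v hv'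
        omega
      · exfalso
        obtain ⟨⟨g1, g2⟩, g3, g4⟩ := hv
        obtain ⟨⟨g1', g2'⟩, g3', g4'⟩ := hv'
        omega
      · exfalso
        obtain ⟨⟨g1, g2⟩, g3, g4⟩ := hv
        obtain ⟨g1', g2', g3', g4'⟩ := bd4 v hv'
        have g5' := lo4 v hv'
        omega
      · exfalso
        obtain ⟨⟨g1, g2⟩, g3, g4⟩ := hv
        obtain ⟨⟨g1', g2'⟩, g3', g4'⟩ := hv'
        omega
      · exfalso
        obtain ⟨⟨g1, g2⟩, g3, g4⟩ := hv
        obtain ⟨⟨g1', g2'⟩, g3', g4'⟩ := hv'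
        omega
  · intro v hv
    rcases hv with (hv | hv | hv | hv) | hv | hv | hv
    · obtain ⟨⟨g1, g2⟩, g3, g4⟩ := hPr hv
      exact ⟨⟨by omega, by omega⟩, by omega, by omega⟩
    · obtain ⟨g1, g2, g3, g4⟩ := bd1 v hv
      exact ⟨⟨by omega, by omega⟩, by omega, by omega⟩
    · obtain ⟨⟨g1, g2⟩, g3, g4⟩ := hv
      exact ⟨⟨by omega, by omega⟩, by omega, by omega⟩
    · obtain ⟨⟨g1, g2⟩, g3, g4⟩ := hv
      exact ⟨⟨by omega, by omega⟩, by omega, by omega⟩
    · obtain ⟨g1, g2, g3, g4⟩ := bd3 v hv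
      exact ⟨⟨by omega, by omega⟩, by omega, by omega⟩
    · obtain ⟨⟨g1, g2⟩, g3, g4⟩ := hv
      exact ⟨⟨by omega, by omega⟩, by omega, by omega⟩
    · obtain ⟨⟨g1, g2⟩, g3, g4⟩ := hv
      exact ⟨⟨by omega, by omega⟩, by omega, by omega⟩
  · intro v hv
    rcases hv with (hv | hv | hv) | hv | hv | hv
    · obtain ⟨⟨g1, g2⟩, g3, g4⟩ := hPr' hv
      exact ⟨⟨by omega, by omega⟩, by omega, by omega⟩
    · obtain ⟨g1, g2, g3, g4⟩ := bd2 v hv
      exact ⟨⟨by omega, by omega⟩, by omega, by omega⟩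
    · obtain ⟨⟨g1, g2⟩, g3, g4⟩ := hv
      exact ⟨⟨by omega, by omega⟩, by omega, by omega⟩
    · obtain ⟨g1, g2, g3, g4⟩ := bd4 v hv
      exact ⟨⟨by omega, by omega⟩, by omega, by omega⟩
    · obtain ⟨⟨g1, g2⟩, g3, g4⟩ := hv
      exact ⟨⟨by omega, by omega⟩, by omega, by omega⟩
    · obtain ⟨⟨g1, g2⟩, g3, g4⟩ := hv
      exact ⟨⟨by omega, by omega⟩, by omega, by omega⟩

end Lat

end SC
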