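import Pool.Agent.Lib_MP_e0a489.Defs2
import Pool.Agent.Lib_MP_e0a489.TB5

/-!
# MP_e0a489, rings 1: parametrisation of the rings, arcs, interlaced points

`rc m i` (file Defs2) runs counterclockwise around the ring of radius `m`; `rc m (2 m s + k) = rt s (m, k)`
for `|k| ≤ m`: side `s` (`0` right, `1` top, `2` left, `3` bottom), coordinate `k` along the side.
-/

set_option autoImplicit false

namespace SC

open Classical

private theorem rc1_rt4 (s : ℤ) : (rt s = rt 0) ∨ (rt s = rt 1) ∨ (rt s = rt 2) ∨ (rt s = rt 3) := by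
  have h : s % 4 = 0 ∨ s % 4 = 1 ∨ s % 4 = 2 ∨ s % 4 = 3 := by omega
  rcases h with h | h | h | h
  · left; exact rt_mod (by omega)
  · right; left; exact rt_mod (by omega)
  · right; right; left; exact rt_mod (by omega)
  · right; right; right; exact rt_mod (by omega)

/-- For `|k| < m` the quotient is `s`; for `k = m` it is `s + 1` and `rt (s+1) (m,-m) = rt s (m,m)`; for
`k = -m` it is `s`. -/
theorem rc_side {m s k : ℤ} (hm : 1 ≤ m) (hk : |k| ≤ m) : rc m (2 * m * s + k) = rt s (m, k) := by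
  obtain ⟨h1, h2⟩ := abs_le.mp hk
  unfold rc
  have e : (2 * m * s + k + m) / (2 * m) = s + (k + m) / (2 * m) := by
    rw [show 2 * m * s + k + m = (k + m) + 2 * m * s by ring,
      Int.add_mul_ediv_left _ _ (by omega)]
    ring
  rw [e]
  rcases lt_or_eq_of_le h2 with h3 | h3
  · rw [Int.ediv_eq_zero_of_lt (by omega) (by omega)]
    rw [show s + 0 = s by ring, show 2 * m * s + k - 2 * m * s = k by ring]
  · rw [h3]
    rw [show (m + m) / (2 * m) = 1 by
      rw [show m + m = 2 * m by ring]; exact Int.ediv_self (by omega)]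
    rw [rt_add, rt_one]
    congr 1
    refine Prod.ext ?_ ?_ <;> dsimp only <;> ring

theorem rc_period {m i : ℤ} (hm : 1 ≤ m) : rc m (i + 8 * m) = rc m i := by
  unfold rc
  have e : (i + 8 * m + m) / (2 * m) = (i + m) / (2 * m) + 4 := by
    rw [show i + 8 * m + m = (i + m) + 2 * m * 4 by ring,
      Int.add_mul_ediv_left _ _ (by omega)]
  rw [e, rt_four]
  congr 1
  refine Prod.ext ?_ ?_
  · rfl
  · dsimp only; ring

private theorem rc1_per {m : ℤ} (hm : 1 ≤ m) (i t : ℤ) : rc m (i + 8 * m * t) = rc m i := by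
  unfold rc
  have e : (i + 8 * m * t + m) / (2 * m) = (i + m) / (2 * m) + 4 * t := by
    rw [show i + 8 * m * t + m = (i + m) + 2 * m * (4 * t) by ring,
      Int.add_mul_ediv_left _ _ (by omega)]
  rw [e, rt_mod (s := (i + m) / (2 * m) + 4 * t) (s' := (i + m) / (2 * m)) (by omega)]
  congr 1
  refine Prod.ext ?_ ?_
  · rfl
  · dsimp only; ring

private theorem rc1_idx {m : ℤ} (hm : 1 ≤ m) (i : ℤ) : ∃ s k, -m ≤ k ∧ k < m ∧ i = 2 * m * s + k := by
  refine ⟨(i + m) / (2 * m), i - 2 * m * ((i + m) / (2 * m)), ?_, ?_, by ring⟩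
  · have := Int.mul_ediv_self_le (x := i + m) (k := 2 * m) (by omega)
    linarith
  · have := Int.lt_mul_ediv_self_add (x := i + m) (k := 2 * m) (by omega)
    linarith

private theorem rc1_form {m : ℤ} (hm : 1 ≤ m) (i : ℤ) : ∃ t k, -m ≤ k ∧ k < m ∧
    ((i = 8 * m * t + k ∧ rc m i = (m, k)) ∨ (i = 8 * m * t + 2 * m + k ∧ rc m i = (-k, m)) ∨
      (i = 8 * m * t + 4 * m + k ∧ rc m i = (-m, -k)) ∨
      (i = 8 * m * t + 6 * m + k ∧ rc m i = (k, -m))) := by
  obtain ⟨s, k, h1, h2, h3⟩ := rc1_idx hm i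
  have hr : rc m i = rt s (m, k) := by
    rw [h3]; exact rc_side hm (abs_le.mpr ⟨h1, h2.le⟩)
  refine ⟨s / 4, k, h1, h2, ?_⟩
  have h : s % 4 = 0 ∨ s % 4 = 1 ∨ s % 4 = 2 ∨ s % 4 = 3 := by omega
  rcases h with h | h | h | h
  · left
    refine ⟨?_, ?_⟩
    · have : s = 4 * (s / 4) := by omega
      rw [h3]
      nth_rewrite 1 [this]
      ring
    · rw [hr, rt_mod (s' := 0) (by omega), rt_zero]
  · right; left
    refine ⟨?_, ?_⟩
    · have : s = 4 * (s / 4) + 1 := by omega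
      rw [h3]
      nth_rewrite 1 [this]
      ring
    · rw [hr, rt_mod (s' := 1) (by omega), rt_one]
  · right; right; left
    refine ⟨?_, ?_⟩
    · have : s = 4 * (s / 4) + 2 := by omega
      rw [h3]
      nth_rewrite 1 [this]
      ring
    · rw [hr, rt_mod (s' := 2) (by omega), rt_two]
  · right; right; right
    refine ⟨?_, ?_⟩
    · have : s = 4 * (s / 4) + 3 := by omega
      rw [h3]
      nth_rewrite 1 [this]
      ring
    · rw [hr, rt_mod (s' := 3) (by omega), rt_three]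

theorem rc_nrm {m i : ℤ} (hm : 1 ≤ m) : nrm (rc m i) = m := by
  obtain ⟨s, k, h1, h2, h3⟩ := rc1_idx hm i
  have hk : |k| ≤ m := abs_le.mpr ⟨h1, h2.le⟩
  rw [h3, rc_side hm hk, nrm_rt]
  unfold nrm
  dsimp only
  rw [abs_of_nonneg (by omega : (0 : ℤ) ≤ m)]
  exact max_eq_left hk

theorem rc_surj {m : ℤ} (hm : 1 ≤ m) {v : Pt} (hv : nrm v = m) (a : ℤ) :
    ∃ i, a ≤ i ∧ i < a + 8 * m ∧ rc m i = v := by
  have key : ∃ i0, rc m i0 = v := by
    obtain ⟨x, y⟩ := v
    have hx : |x| ≤ m := by rw [← hv]; exact le_max_left _ _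
    have hy : |y| ≤ m := by rw [← hv]; exact le_max_right _ _
    have hor : |x| = m ∨ |y| = m := by
      rcases max_choice |x| |y| with h | h
      · left; rw [← h]; exact hv
      · right; rw [← h]; exact hv
    rcases hor with h | h
    · rcases abs_eq (by omega : (0 : ℤ) ≤ m) |>.mp h with h' | h'
      · refine ⟨2 * m * 0 + y, ?_⟩
        rw [rc_side hm hy, rt_zero, h']
      · refine ⟨2 * m * 2 + (-y), ?_⟩
        rw [rc_side hm (by rwa [abs_neg]), rt_two, h']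
        exact Prod.ext rfl (neg_neg _)
    · rcases abs_eq (by omega : (0 : ℤ) ≤ m) |>.mp h with h' | h'
      · refine ⟨2 * m * 1 + (-x), ?_⟩
        rw [rc_side hm (by rwa [abs_neg]), rt_one, h']
        exact Prod.ext (neg_neg _) rfl
      · refine ⟨2 * m * 3 + x, ?_⟩
        rw [rc_side hm hx, rt_three, h']
  obtain ⟨i0, hi0⟩ := key
  refine ⟨a + (i0 - a) % (8 * m), ?_, ?_, ?_⟩
  · have := Int.emod_nonneg (i0 - a) (by omega : 8 * m ≠ 0)
    linarith
  · have := Int.emod_lt_of_pos (i0 - a) (by omega : 0 < 8 * m)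
    linarith
  · rw [← rc1_per hm _ ((i0 - a) / (8 * m)), ← hi0]
    congr 1
    have := Int.emod_add_mul_ediv (i0 - a) (8 * m)
    linarith

theorem rc_inj {m i j : ℤ} (hm : 1 ≤ m) (h : rc m i = rc m j) : 8 * m ∣ i - j := by
  obtain ⟨t, k, h1, h2, h3⟩ := rc1_form hm i
  obtain ⟨t', k', h1', h2', h3'⟩ := rc1_form hm j
  rcases h3 with ⟨e, f⟩ | ⟨e, f⟩ | ⟨e, f⟩ | ⟨e, f⟩ <;>
    rcases h3' with ⟨e', f'⟩ | ⟨e', f'⟩ | ⟨e', f'⟩ | ⟨e', f'⟩ <;>
    rw [f, f', Prod.mk.injEq] at h <;> obtain ⟨g1, g2⟩ := h <;>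
    first
      | (exfalso; omega)
      | (refine ⟨t - t', ?_⟩
         have hk : k = k' := by omega
         rw [e, e', hk]; ring)

/-- every index is `2 m s + k` with `|k| ≤ m` -/
theorem idx_side {m : ℤ} (hm : 1 ≤ m) (i : ℤ) : ∃ s k, |k| ≤ m ∧ i = 2 * m * s + k := by
  obtain ⟨s, k, h1, h2, h3⟩ := rc1_idx hm i
  exact ⟨s, k, abs_le.mpr ⟨h1, h2.le⟩, h3⟩

/-- the sites of the ring with indices in `[i, j]` -/
def arc (m i j : ℤ) : Set Pt := {v | ∃ k, i ≤ k ∧ k ≤ j ∧ rc m k = v}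

namespace Lat

variable {L : Lat}

/-- consecutive sites are nearest neighbours -/
theorem rc_adj {m : ℤ} (hm : 1 ≤ m) (i : ℤ) : L.Adj (rc m i) (rc m (i + 1)) := by
  obtain ⟨s, k, h1, h2, h3⟩ := rc1_idx hm i
  have e1 : rc m i = rt s (m, k) := by
    rw [h3]; exact rc_side hm (abs_le.mpr ⟨h1, h2.le⟩)
  have e2 : rc m (i + 1) = rt s (m, k + 1) := by
    rw [h3, show 2 * m * s + k + 1 = 2 * m * s + (k + 1) by ring]
    exact rc_side hm (abs_le.mpr ⟨by omega, by omega⟩)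
  rw [e1, e2]
  apply adj_of_nn
  rcases rc1_rt4 s with h | h | h | h <;> rw [h]
  · rw [rt_zero, rt_zero]
    show |m - m| + |k - (k + 1)| = 1
    rw [show m - m = 0 by ring, show k - (k + 1) = -1 by ring]; rfl
  · rw [rt_one, rt_one]
    show |-k - -(k + 1)| + |m - m| = 1
    rw [show m - m = 0 by ring, show -k - -(k + 1) = 1 by ring]; rfl
  · rw [rt_two, rt_two]
    show |-m - -m| + |-k - -(k + 1)| = 1
    rw [show -m - -m = 0 by ring, show -k - -(k + 1) = 1 by ring]; rfl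
  · rw [rt_three, rt_three]
    show |k - (k + 1)| + |-m - -m| = 1
    rw [show -m - -m = 0 by ring, show k - (k + 1) = -1 by ring]; rfl

theorem con_arc {m : ℤ} (hm : 1 ≤ m) (i j : ℤ) : L.Con (arc m i j) := by
  have key : ∀ n : ℕ, ∀ k : ℤ, i ≤ k → k + n ≤ j → L.Cn (arc m i j) (rc m k) (rc m (k + n)) := by
    intro n
    induction n with
    | zero =>
      intro k h1 h2
      rw [Nat.cast_zero, add_zero] at h2 ⊢
      exact Cn.refl ⟨k, h1, h2, rfl⟩
    | succ n ih =>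
      intro k h1 h2
      rw [Nat.cast_succ, ← add_assoc] at h2 ⊢
      refine (ih k h1 (by omega)).trans ?_
      exact Cn.of_adj ⟨k + n, by omega, by omega, rfl⟩ ⟨k + n + 1, by omega, by omega, rfl⟩
        (rc_adj hm _)
  rintro u ⟨k, h1, h2, rfl⟩ v ⟨k', h1', h2', rfl⟩
  rcases le_total k k' with h | h
  · obtain ⟨n, hn⟩ := Int.eq_ofNat_of_zero_le (sub_nonneg.mpr h)
    have := key n k h1 (by omega)
    rwa [show k + (n : ℤ) = k' by omega] at this
  · obtain ⟨n, hn⟩ := Int.eq_ofNat_of_zero_le (sub_nonneg.mpr h)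
    have := key n k' h1' (by omega)
    rw [show k' + (n : ℤ) = k by omega] at this
    exact this.symm

theorem con_rng {m : ℤ} (hm : 1 ≤ m) : L.Con (rng m) := by
  have e : rng m = arc m 0 (8 * m) := by
    ext v
    constructor
    · intro hv
      obtain ⟨i, h1, h2, h3⟩ := rc_surj hm hv 0
      exact ⟨i, h1, by omega, h3⟩
    · rintro ⟨i, _, _, rfl⟩
      exact rc_nrm hm
  rw [e]
  exact con_arc hm _ _

private theorem rc1_bp {m : ℤ} (hm : 1 ≤ m) {j : ℤ} (h0 : 0 ≤ j) (h1 : j < 8 * m) :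
    bp (-m) m (-m) m j = rc m (5 * m + j) := by
  unfold bp
  split_ifs with a1 a2 a3
  · rw [show 5 * m + j = 2 * m * 3 + (j - m) by ring,
      rc_side hm (abs_le.mpr ⟨by omega, by omega⟩), rt_three]
    refine Prod.ext ?_ ?_ <;> dsimp only <;> omega
  · rw [show 5 * m + j = 2 * m * 4 + (j - 3 * m) by ring,
      rc_side hm (abs_le.mpr ⟨by omega, by omega⟩), rt_mod (s' := 0) (by norm_num), rt_zero]
    refine Prod.ext ?_ ?_ <;> dsimp only <;> omega
  · rw [show 5 * m + j = 2 * m * 5 + (j - 5 * m) by ring,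
      rc_side hm (abs_le.mpr ⟨by omega, by omega⟩), rt_mod (s' := 1) (by norm_num), rt_one]
    refine Prod.ext ?_ ?_ <;> dsimp only <;> omega
  · rw [show 5 * m + j = 2 * m * 6 + (j - 7 * m) by ring,
      rc_side hm (abs_le.mpr ⟨by omega, by omega⟩), rt_mod (s' := 2) (by norm_num), rt_two]
    refine Prod.ext ?_ ?_ <;> dsimp only <;> omega

private theorem rc1_rect {m : ℤ} {P : Set Pt} (hP : P ⊆ bx m) : P ⊆ rect (-m) m (-m) m := by
  intro v hv
  have h := hP hv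
  have h1 : |v.1| ≤ m := (le_max_left _ _).trans h
  have h2 : |v.2| ≤ m := (le_max_right _ _).trans h
  rw [abs_le] at h1 h2
  exact ⟨h1, h2⟩

private theorem rc1_lace {m : ℤ} (hm : 1 ≤ m) {P P' : Set Pt} (hP : L.Con P) (hP' : L.Con P')
    (hPm : P ⊆ bx m) (hPm' : P' ⊆ bx m) {j1 j2 j3 j4 : ℤ} (h0 : 0 ≤ j1) (h12 : j1 < j2)
    (h23 : j2 < j3) (h34 : j3 < j4) (h4 : j4 < 8 * m) (m1 : rc m (5 * m + j1) ∈ P)
    (m3 : rc m (5 * m + j3) ∈ P) (m2 : rc m (5 * m + j2) ∈ P') (m4 : rc m (5 * m + j4) ∈ P') :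
    (P ∩ P').Nonempty := by
  rw [← rc1_bp hm (by omega) (by omega)] at m1 m2 m3 m4
  exact interlace (by omega) (by omega) hP hP' (rc1_rect hPm) (rc1_rect hPm') h0 h12 h23 h34
    (by omega) m1 m3 m2 m4

/-- INTERLACED POINTS of the ring.  `rc m` and `bp (-m) m (-m) m` differ by a shift of the index
(`bp (-m) m (-m) m j = rc m (5 m + j)` for `0 ≤ j < 8 m`), and the cyclic order is what matters: reduce the four
indices modulo `8 m` to the window of `bp`, they are still interlaced up to a cyclic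
permutation of the four points; apply `interlace` to `(P, P')` or `(P', P)`. -/
theorem interlace_rc {m : ℤ} (hm : 1 ≤ m) {P P' : Set Pt} (hP : L.Con P) (hP' : L.Con P')
    (hPm : P ⊆ bx m) (hPm' : P' ⊆ bx m) {i1 i2 i3 i4 : ℤ} (h12 : i1 < i2) (h23 : i2 < i3)
    (h34 : i3 < i4) (h41 : i4 < i1 + 8 * m) (m1 : rc m i1 ∈ P) (m3 : rc m i3 ∈ P)
    (m2 : rc m i2 ∈ P') (m4 : rc m i4 ∈ P') : (P ∩ P').Nonempty := by
  obtain ⟨t, ht⟩ : ∃ t, t = (i1 - 5 * m) / (8 * m) := ⟨_, rfl⟩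
  obtain ⟨T, hT⟩ : ∃ T, T = 8 * m * t := ⟨_, rfl⟩
  have b0 : 0 ≤ i1 - 5 * m - T := by
    have := Int.mul_ediv_self_le (x := i1 - 5 * m) (k := 8 * m) (by omega)
    rw [hT, ht]; linarith
  have b1 : i1 - 5 * m - T < 8 * m := by
    have := Int.lt_mul_ediv_self_add (x := i1 - 5 * m) (k := 8 * m) (by omega)
    rw [hT, ht]; linarith
  have sh : ∀ i, rc m (5 * m + (i - 5 * m - T)) = rc m i := by
    intro i
    rw [← rc1_per hm _ t, ← hT]
    congr 1
    ring
  have sh' : ∀ i, rc m (5 * m + (i - 5 * m - T - 8 * m)) = rc m i := by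
    intro i
    rw [← rc_period hm, ← sh i]
    congr 1
    ring
  by_cases c4 : i4 - 5 * m - T < 8 * m
  · exact rc1_lace hm hP hP' hPm hPm' (j1 := i1 - 5 * m - T) (j2 := i2 - 5 * m - T)
      (j3 := i3 - 5 * m - T) (j4 := i4 - 5 * m - T) b0 (by omega) (by omega) (by omega) c4
      (by rw [sh]; exact m1) (by rw [sh]; exact m3) (by rw [sh]; exact m2) (by rw [sh]; exact m4)
  by_cases c3 : i3 - 5 * m - T < 8 * m
  · rw [Set.inter_comm]
    exact rc1_lace hm hP' hP hPm' hPm (j1 := i4 - 5 * m - T - 8 * m) (j2 := i1 - 5 * m - T)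
      (j3 := i2 - 5 * m - T) (j4 := i3 - 5 * m - T) (by omega) (by omega) (by omega) (by omega) c3
      (by rw [sh']; exact m4) (by rw [sh]; exact m2) (by rw [sh]; exact m1) (by rw [sh]; exact m3)
  by_cases c2 : i2 - 5 * m - T < 8 * m
  · exact rc1_lace hm hP hP' hPm hPm' (j1 := i3 - 5 * m - T - 8 * m)
      (j2 := i4 - 5 * m - T - 8 * m) (j3 := i1 - 5 * m - T) (j4 := i2 - 5 * m - T) (by omega)
      (by omega) (by omega) (by omega) c2
      (by rw [sh']; exact m3) (by rw [sh]; exact m1) (by rw [sh']; exact m4) (by rw [sh]; exact m2)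
  · rw [Set.inter_comm]
    exact rc1_lace hm hP' hP hPm' hPm (j1 := i2 - 5 * m - T - 8 * m)
      (j2 := i3 - 5 * m - T - 8 * m) (j3 := i4 - 5 * m - T - 8 * m) (j4 := i1 - 5 * m - T)
      (by omega) (by omega) (by omega) (by omega) b1
      (by rw [sh']; exact m2) (by rw [sh']; exact m4) (by rw [sh']; exact m3) (by rw [sh]; exact m1)

private theorem rc1_lip {u v : Pt} (h : L.Adj u v) : |nrm u - nrm v| ≤ 1 := by
  obtain ⟨h1, h2⟩ := h.near
  refine (abs_max_sub_max_le_max _ _ _ _).trans ?_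
  refine max_le ((abs_abs_sub_abs_le _ _).trans h1) ((abs_abs_sub_abs_le _ _).trans h2)

private theorem rc1_exit {A S : Set Pt} {u v : Pt} (h : L.Cn A u v) (hu : u ∈ S) :
    L.Cn (A ∩ S) u v ∨ ∃ p q, L.Cn (A ∩ S) u p ∧ L.Adj p q ∧ q ∈ A ∧ q ∉ S := by
  obtain ⟨hu', hp⟩ := h
  induction hp with
  | refl => exact Or.inl (Cn.refl ⟨hu', hu⟩)
  | @tail x y _ hxy ih =>
    rcases ih with ih | ih
    · by_cases hS : y ∈ S
      · exact Or.inl (ih.trans (Cn.of_adj ih.right ⟨hxy.2, hS⟩ hxy.1))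
      · exact Or.inr ⟨x, y, ih, hxy.1, hxy.2, hS⟩
    · exact Or.inr ih

/-- a connected set that leaves a box contains a connected subset of the box with the same starting
site that reaches the ring: version of `Cn.exit` for boxes -/
theorem Cn.to_rng {A : Set Pt} {u v : Pt} {m : ℤ} (h : L.Cn A u v) (hu : nrm u ≤ m)
    (hv : m ≤ nrm v) : ∃ w, nrm w = m ∧ L.Cn (A ∩ bx m) u w := by
  rcases rc1_exit (S := bx m) h hu with key | ⟨p, q, hc, ha, _, hqS⟩
  · exact ⟨v, le_antisymm key.right.2 hv, key⟩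
  · refine ⟨p, ?_, hc⟩
    have h1 : nrm p ≤ m := hc.right.2
    have h2 : ¬ nrm q ≤ m := hqS
    have h3 := abs_le.mp (rc1_lip ha)
    omega

/-- last exit: the part of a path in the annulus `ann r m` -/
theorem Cn.crossing {A : Set Pt} {u v : Pt} {r m : ℤ} (hr : 0 ≤ r) (hrm : r < m) (h : L.Cn A u v)
    (hu : nrm u ≤ r ∨ u ∈ L.nb (bx r)) (hv : m ≤ nrm v) :
    ∃ p w, p ∈ L.nb (bx r) ∧ nrm w = m ∧ L.Cn (A ∩ ann r m) p w := by
  have hum : nrm u ≤ m := by
    rcases hu with hu | ⟨x, hx, hxu⟩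
    · omega
    · have h1 : nrm x ≤ r := hx
      have h2 := abs_le.mp (rc1_lip hxu)
      omega
  obtain ⟨w, hw, hc⟩ := h.to_rng hum hv
  have hwS : w ∈ (bx r)ᶜ := by
    intro hw'
    have : nrm w ≤ r := hw'
    omega
  rcases rc1_exit (S := (bx r)ᶜ) hc.symm hwS with key | ⟨p, q, hc', ha, _, hqS⟩
  · have huS : u ∉ bx r := key.right.2
    refine ⟨u, w, ?_, hw, key.symm.mono ?_⟩
    · rcases hu with hu | hu
      · exact absurd hu huS
      · exact hu
    · rintro x ⟨⟨x1, x2⟩, x3⟩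
      exact ⟨x1, not_le.mp x3, x2⟩
  · refine ⟨p, w, ⟨q, not_not.mp hqS, ha.symm⟩, hw, hc'.symm.mono ?_⟩
    rintro x ⟨⟨x1, x2⟩, x3⟩
    exact ⟨x1, not_le.mp x3, x2⟩

end Lat

end SC
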