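import Pool.Agent.Lib_MP_e0a489.HP1
import Pool.Agent.Lib_MP_e0a489.RC1
import Pool.Agent.Lib_MP_e0a489.TD1
import Pool.Agent.Lib_MP_e0a489.TE3

/-!
# MP_e0a489, module HP 2: the three arms of the half plane event
-/

set_option autoImplicit false

namespace SC

open Classical

/-- Upper half of the ring, without its two lowest sites.  `idx_side`: `i = 2 m s + k`, `|k| ≤ m`, and `rc m i = rt s (m, k)` (`rc_side`).  `0 < i < 4 m` leaves
`s = 0` (`k > 0`, second coordinate `k`), `s = 1` (second coordinate `m`), `s = 2` (`k < 0`, second coordinate `-k`); `rt_zero`, `rt_one`,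
`rt_two`. -/
theorem rc_up {m i : ℤ} (hm : 1 ≤ m) (h0 : 0 < i) (h1 : i < 4 * m) : 1 ≤ (rc m i).2 := by
  obtain ⟨s, k, hk, rfl⟩ := idx_side hm i
  rw [abs_le] at hk
  rw [rc_side hm (abs_le.2 hk)]
  have hs0 : 0 ≤ s := by
    by_contra hs
    have h2 : m * s ≤ m * (-1) := mul_le_mul_of_nonneg_left (by omega) (by omega)
    nlinarith
  have hs2 : s ≤ 2 := by
    by_contra hs
    have h2 : m * 3 ≤ m * s := mul_le_mul_of_nonneg_left (by omega) (by omega)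
    nlinarith
  obtain rfl | rfl | rfl : s = 0 ∨ s = 1 ∨ s = 2 := by omega
  · rw [rt_zero]
    show 1 ≤ k
    omega
  · rw [rt_one]
    exact hm
  · rw [rt_two]
    show 1 ≤ -k
    omega

/-- Lower half: `s = 2` (`k > 0`, second coordinate `-k`), `s = 3` (second coordinate `-m`), `s = 4` (`k < 0`, `rt 4 = rt 0`, second coordinate `k`). -/
theorem rc_low {m i : ℤ} (hm : 1 ≤ m) (h0 : 4 * m < i) (h1 : i < 8 * m) : (rc m i).2 ≤ -1 := by
  obtain ⟨s, k, hk, rfl⟩ := idx_side hm i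
  rw [abs_le] at hk
  rw [rc_side hm (abs_le.2 hk)]
  have hs0 : 2 ≤ s := by
    by_contra hs
    have h2 : m * s ≤ m * 1 := mul_le_mul_of_nonneg_left (by omega) (by omega)
    nlinarith
  have hs2 : s ≤ 4 := by
    by_contra hs
    have h2 : m * 5 ≤ m * s := mul_le_mul_of_nonneg_left (by omega) (by omega)
    nlinarith
  obtain rfl | rfl | rfl : s = 2 ∨ s = 3 ∨ s = 4 := by omega
  · rw [rt_two]
    show -k ≤ -1
    omega
  · rw [rt_three]
    show -m ≤ -1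
    omega
  · rw [show (4 : ℤ) = 0 + 4 by norm_num, rt_four, rt_zero]
    show k ≤ -1
    omega

/-- `rc_surj` with `a = 0` and `rc_low` -/
theorem rc_of_up {m : ℤ} (hm : 1 ≤ m) {v : Pt} (hv : nrm v = m) (h : 0 ≤ v.2) :
    ∃ i, 0 ≤ i ∧ i ≤ 4 * m ∧ rc m i = v := by
  obtain ⟨i, hi0, hi1, hi⟩ := rc_surj hm hv 0
  refine ⟨i, hi0, ?_, hi⟩
  by_contra hcon
  have h1 := rc_low hm (i := i) (by omega) (by omega)
  rw [hi] at h1
  omega

/-- `rc_surj` with `a = 0`, `rc_up`; `rc m 0 = (m, 0)`, `rc m (4 m) = (-m, 0)` (`rc_side`). -/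
theorem rc_of_low {m : ℤ} (hm : 1 ≤ m) {v : Pt} (hv : nrm v = m) (h : v.2 ≤ -1) :
    ∃ i, 4 * m < i ∧ i < 8 * m ∧ rc m i = v := by
  obtain ⟨i, hi0, hi1, hi⟩ := rc_surj hm hv 0
  refine ⟨i, ?_, by omega, hi⟩
  by_contra hcon
  rcases (show i = 0 ∨ i = 4 * m ∨ (0 < i ∧ i < 4 * m) by omega) with h1 | h1 | h1
  · have h2 : rc m (2 * m * 0 + 0) = rt 0 (m, 0) := rc_side hm (by rw [abs_zero]; omega)
    rw [rt_zero, show 2 * m * 0 + 0 = i by omega, hi] at h2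
    rw [h2] at h
    exact absurd h (by norm_num)
  · have h2 : rc m (2 * m * 2 + 0) = rt 2 (m, 0) := rc_side hm (by rw [abs_zero]; omega)
    rw [rt_two, show 2 * m * 2 + 0 = i by omega, hi] at h2
    rw [h2] at h
    exact absurd h (by norm_num)
  · have h2 := rc_up hm h1.1 h1.2
    rw [hi] at h2
    omega

namespace Lat

variable {L : Lat}

private theorem hp2_mem_ann {r R : ℤ} {v : Pt} : v ∈ ann r R ↔
    (r < v.1 ∨ v.1 < -r ∨ r < v.2 ∨ v.2 < -r) ∧ (-R ≤ v.1 ∧ v.1 ≤ R) ∧ -R ≤ v.2 ∧ v.2 ≤ R := by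
  show (r < max |v.1| |v.2| ∧ max |v.1| |v.2| ≤ R) ↔ _
  rw [lt_max_iff, max_le_iff, abs_le, abs_le, lt_abs, lt_abs]
  omega

private theorem hp2_mem_bx {r : ℤ} {v : Pt} : v ∈ bx r ↔
    (-r ≤ v.1 ∧ v.1 ≤ r) ∧ -r ≤ v.2 ∧ v.2 ≤ r := by
  show max |v.1| |v.2| ≤ r ↔ _
  rw [max_le_iff, abs_le, abs_le]

private theorem hp2_middle {L : Lat} {c : Bool} {H : Set Pt} {r R : ℤ} {ω : Cfg} (hr : 1 ≤ r)
    (hR : r < R) (hH : HalfLike H) {x x' : Pt} {i i' : ℤ} (hx : x ∈ L.nb (bx r))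
    (hx' : x' ∈ L.nb (bx r)) (h0 : 0 ≤ i) (hii : i < i') (h4 : i' ≤ 4 * R)
    (hxy : L.Cn (ann r R ∩ H ∩ L.col c ω) x (rc R i))
    (hxy' : L.Cn (ann r R ∩ H ∩ L.col c ω) x' (rc R i'))
    (hn : ¬ L.Cn (ann r R ∩ H ∩ L.col c ω) x x') :
    ∃ k, i < k ∧ k < i' ∧ ∃ x₂ ∈ L.nb (bx r),
      L.Cn (ann r R ∩ H ∩ L.col (!c) ω) x₂ (rc R k) := by
  obtain ⟨hH1, hH2⟩ := hH
  set I₀ : Set Pt := rect (-r) r 0 r with hI₀
  set U : Set Pt := {v | v.2 = 0 ∧ (-R ≤ v.1 ∧ v.1 ≤ R) ∧ ((-r ≤ v.1 ∧ v.1 ≤ r) ∨ v ∈ H)} with hUdef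
  set M : Set Pt := rect (-R) R 1 R ∪ U with hMdef
  have hIm : ∀ v : Pt, v ∈ I₀ ↔ (-r ≤ v.1 ∧ v.1 ≤ r) ∧ 0 ≤ v.2 ∧ v.2 ≤ r := fun _ => Iff.rfl
  have hRm : ∀ v : Pt, v ∈ rect (-R) R 1 R ↔ (-R ≤ v.1 ∧ v.1 ≤ R) ∧ 1 ≤ v.2 ∧ v.2 ≤ R :=
    fun _ => Iff.rfl
  have hUm : ∀ v : Pt, v ∈ U ↔
      v.2 = 0 ∧ (-R ≤ v.1 ∧ v.1 ≤ R) ∧ ((-r ≤ v.1 ∧ v.1 ≤ r) ∨ v ∈ H) := fun _ => Iff.rfl
  have hH0 : ∀ v : Pt, v ∈ H → 0 ≤ v.2 := fun v hv => hH2 hv
  have hHH : ∀ v : Pt, 1 ≤ v.2 → v ∈ H := fun v hv => hH1 hv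
  have hUr : U ⊆ rect (-R) R 0 0 := by
    intro v hv
    rw [hUm] at hv
    exact ⟨hv.2.1, by omega, by omega⟩
  have hIM : I₀ ⊆ M := by
    intro v hv
    rw [hIm] at hv
    by_cases h2 : 1 ≤ v.2
    · left
      rw [hRm]
      omega
    · right
      rw [hUm]
      exact ⟨by omega, by omega, Or.inl hv.1⟩
  have hMI : M \ I₀ = ann r R ∩ H := by
    ext v
    constructor
    · rintro ⟨hv | hv, hvI⟩
      · rw [hRm] at hv
        rw [hIm] at hvI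
        refine ⟨?_, hHH v hv.2.1⟩
        rw [hp2_mem_ann]
        omega
      · rw [hUm] at hv
        rw [hIm] at hvI
        refine ⟨?_, ?_⟩
        · rw [hp2_mem_ann]
          have := hv.1
          have := hv.2.1
          omega
        · rcases hv.2.2 with h | h
          · exact absurd ⟨h, by omega, by omega⟩ hvI
          · exact h
    · rintro ⟨hv, hvH⟩
      rw [hp2_mem_ann] at hv
      have h2 := hH0 v hvH
      refine ⟨?_, ?_⟩
      · by_cases h3 : 1 ≤ v.2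
        · left
          rw [hRm]
          omega
        · right
          rw [hUm]
          exact ⟨by omega, by omega, Or.inr hvH⟩
      · rw [hIm]
        omega
  have hnb : ∀ z ∈ L.nb (bx r), z ∈ ann r R ∩ H → z ∈ L.nb I₀ := by
    rintro z ⟨u, hu, huz⟩ ⟨hz, hzH⟩
    have h1 := huz.near
    have h2 := hH0 z hzH
    rw [abs_le, abs_le] at h1
    rw [hp2_mem_bx] at hu
    rw [hp2_mem_ann] at hz
    by_cases h3 : 0 ≤ u.2
    · refine ⟨u, ?_, huz⟩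
      rw [hIm]
      omega
    · by_cases h4 : r < z.1
      · refine ⟨(r, 0), ⟨⟨by simp only []; omega, le_refl _⟩, le_refl _, by simp only []; omega⟩, ?_⟩
        refine adj_of_nn ?_
        have e1 : r - z.1 = -1 := by omega
        have e2 : 0 - z.2 = 0 := by omega
        show |r - z.1| + |0 - z.2| = 1
        rw [e1, e2]
        norm_num
      · refine ⟨(-r, 0), ⟨⟨le_refl _, by simp only []; omega⟩, le_refl _, by simp only []; omega⟩, ?_⟩
        refine adj_of_nn ?_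
        have e1 : -r - z.1 = 1 := by omega
        have e2 : 0 - z.2 = 0 := by omega
        show |-r - z.1| + |0 - z.2| = 1
        rw [e1, e2]
        norm_num
  have hR1 : 1 ≤ R := by omega
  have hΓM : arc R i i' ⊆ M := by
    rintro v ⟨k, hk1, hk2, rfl⟩
    rcases (show k = i ∨ k = i' ∨ (0 < k ∧ k < 4 * R) by omega) with h | h | h
    · rw [h]
      have h1 : rc R i ∈ M \ I₀ := by
        rw [hMI]
        exact hxy.right.1
      exact h1.1
    · rw [h]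
      have h1 : rc R i' ∈ M \ I₀ := by
        rw [hMI]
        exact hxy'.right.1
      exact h1.1
    · left
      have h1 := rc_up hR1 h.1 h.2
      have h2 : nrm (rc R k) = R := rc_nrm hR1
      have h3 : max |(rc R k).1| |(rc R k).2| ≤ R := h2.le
      rw [max_le_iff, abs_le, abs_le] at h3
      rw [hRm]
      omega
  have hne : I₀.Nonempty :=
    ⟨(0, 0), ⟨by simp only []; omega, by simp only []; omega⟩, le_refl _, by simp only []; omega⟩
  have hcol : ∀ z, z ∈ L.col (!c) ω → z ∈ L.col c ω → False := by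
    intro z h1 h2
    have h3 : L.st ω z = !c := h1
    have h4 : L.st ω z = c := h2
    rw [h4] at h3
    revert h3
    cases c <;> decide
  obtain ⟨z, ⟨k, hk1, hk2, rfl⟩, hz⟩ := dual_sep (L := L) (M := M) (In := I₀) (Γ := arc R i i')
    (c := c) (ω := ω) (fun C _ => exact_row hR1 hUr C) (con_rect _ _ _ _) hne hIM
    (hnb x hx hxy.left.1) (hnb x' hx' hxy'.left.1) (by rw [hMI]; exact hxy)
    (by rw [hMI]; exact hxy') (by rw [hMI]; exact hn) (con_arc hR1 i i') hΓM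
    ⟨i, le_refl _, hii.le, rfl⟩ ⟨i', hii.le, le_refl _, rfl⟩
  rcases hz with hz | ⟨u, ⟨w, hw, hwu⟩, huz⟩
  · exfalso
    rw [hIm] at hz
    have h2 : nrm (rc R k) = R := rc_nrm hR1
    have h3 : max |(rc R k).1| |(rc R k).2| ≤ r := by
      rw [max_le_iff, abs_le, abs_le]
      omega
    have h4 : nrm (rc R k) ≤ r := h3
    omega
  · rw [hMI] at huz
    refine ⟨k, ?_, ?_, u, ⟨w, ?_, hwu⟩, huz⟩
    · refine lt_of_le_of_ne hk1 ?_
      rintro rfl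
      exact hcol _ huz.right.2 hxy.right.2
    · refine lt_of_le_of_ne hk2 ?_
      rintro rfl
      exact hcol _ huz.right.2 hxy'.right.2
    · rw [hIm] at hw
      rw [hp2_mem_bx]
      omega

/-- THREE ARMS.  `Two` gives `x, x' ∈ nb (bx r)`, `y, y' ∈ rng R` with `Cn (ann r R ∩ H ∩ col c ω) x y`, the same for `x', y'`, and `x`, `x'` are not
joined.  `y, y' ∈ H` have second coordinate `≥ 0`, so `y = rc R i`, `y' = rc R i'` with `0 ≤ i, i' ≤ 4 R` (`rc_of_up`), `i ≠ i'` (otherwise `x` and `x'` would be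
joined); exchange the two arms if necessary so that `i < i'`.
Let `In = rect (-r) r 0 r` (connected, nonempty) and `M = rect (-R) R 1 R ∪ U` with `U = {v | v.2 = 0 ∧ |v.1| ≤ R ∧ (|v.1| ≤ r ∨ v ∈ H)}`.  `M` is exact for every
`C` (`exact_row`).  Because of `{1 ≤ v.2} ⊆ H ⊆ {0 ≤ v.2}` we have `In ⊆ M` and `M \ In = ann r R ∩ H`.  A site of `{0 ≤ v.2}` that is in `nb (bx r)` and not in `bx r` is in
`nb In` (if its neighbour in `bx r` has second coordinate `-1`, the site is `(r + 1, 0)` or `(-r - 1, 0)` and has the neighbour `(r, 0)` or `(-r, 0)` in `In`); and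
`nb In ⊆ nb (bx r)`.
`Γ = arc R i i'` is connected (`con_arc`), contains `y` and `y'`, and lies in `M \ In`: its sites have norm `R > r` and, for indices strictly between `0` and
`4 R`, second coordinate `≥ 1` (`rc_up`), so they are in `H`; index `0` or `4 R` occurs only for the ends `y`, `y' ∈ H`.
`dual_sep` gives `z ∈ Γ` in `In ∪ cl (!c) (M \ In) In ω`; `z ∉ In`.  So `z = rc R k`, `i ≤ k ≤ i'`, is joined in `ann r R ∩ H ∩ col (!c) ω` to a site `x₂ ∈ nb In ⊆ nb (bx r)`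
(reverse the path).  `z` has colour `!c`, so `k ≠ i`, `k ≠ i'`. -/
theorem TwoH_three {c : Bool} {H : Set Pt} {r R : ℤ} {ω : Cfg} (hr : 1 ≤ r) (hR : r < R)
    (hH : HalfLike H) (h : L.TwoH c H r R ω) :
    ∃ i₁ i₂ i₃ : ℤ, ∃ x₁ ∈ L.nb (bx r), ∃ x₂ ∈ L.nb (bx r), ∃ x₃ ∈ L.nb (bx r),
      0 ≤ i₁ ∧ i₁ < i₂ ∧ i₂ < i₃ ∧ i₃ ≤ 4 * R ∧
      L.Cn (ann r R ∩ H ∩ L.col c ω) x₁ (rc R i₁) ∧
      L.Cn (ann r R ∩ H ∩ L.col (!c) ω) x₂ (rc R i₂) ∧
      L.Cn (ann r R ∩ H ∩ L.col c ω) x₃ (rc R i₃) ∧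
      ¬ L.Cn (ann r R ∩ H ∩ L.col c ω) x₁ x₃ := by
  have hR1 : 1 ≤ R := by omega
  obtain ⟨x, hx, y, hy, x', hx', y', hy', hxy, hxy', hn⟩ := h
  obtain ⟨i, hi0, hi4, rfl⟩ := rc_of_up hR1 hy (hH.2 hxy.right.1.2)
  obtain ⟨i', hi0', hi4', rfl⟩ := rc_of_up hR1 hy' (hH.2 hxy'.right.1.2)
  rcases lt_trichotomy i i' with hii | hii | hii
  · obtain ⟨k, hk1, hk2, x₂, hx₂, h2⟩ := hp2_middle hr hR hH hx hx' hi0 hii hi4' hxy hxy' hn
    exact ⟨i, k, i', x, hx, x₂, hx₂, x', hx', hi0, hk1, hk2, hi4', hxy, h2, hxy', hn⟩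
  · rw [← hii] at hxy'
    exact absurd (hxy.trans hxy'.symm) hn
  · have hn' : ¬ L.Cn (ann r R ∩ H ∩ L.col c ω) x' x := fun h => hn h.symm
    obtain ⟨k, hk1, hk2, x₂, hx₂, h2⟩ := hp2_middle hr hR hH hx' hx hi0' hii hi4 hxy' hxy hn'
    exact ⟨i', k, i, x', hx', x₂, hx₂, x, hx, hi0', hk1, hk2, hi4, hxy', h2, hxy, hn'⟩

end Lat

end SC
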