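import Pool.Agent.Lib_MP_e0a489.SE24

/-!
# MP_e0a489, module HP 4: symmetries of the family `Fam`
-/

set_option autoImplicit false

namespace SC

variable [IfL]

open Classical

variable {L : Lat} {κ : ℕ → ℝ}

private theorem hp4_ext {L L' : Lat} (h1 : ∀ i j, L.ne i j = L'.ne i j)
    (h2 : ∀ v, L.typ v = L'.typ v) : L = L' := by
  cases L
  cases L'
  have e1 := funext fun i => funext fun j => h1 i j
  have e2 := funext h2
  simp only at e1 e2
  subst e1
  subst e2
  rfl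

private theorem hp4_ne (L : Lat) (i j : ℤ) : L.ne i j = true ↔ L.Adj (i, j) (i + 1, j + 1) := by
  constructor
  · intro h
    exact Or.inl (Or.inr (Or.inr (Or.inl ⟨rfl, rfl, h⟩)))
  · rintro ((⟨h1, h2⟩ | ⟨h1, h2⟩ | ⟨h1, h2, h3⟩ | ⟨h1, h2, h3⟩) | (⟨h1, h2⟩ | ⟨h1, h2⟩ |
      ⟨h1, h2, h3⟩ | ⟨h1, h2, h3⟩))
    · simp only at h1 h2
      omega
    · simp only at h1 h2
      omega
    · exact h3
    · simp only at h1 h2
      omega
    · simp only at h1 h2
      omega
    · simp only at h1 h2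
      omega
    · simp only at h1 h2
      omega
    · simp only at h1 h2
      omega

/-- A lattice is determined by its adjacency and its types: `L.ne i j = true ↔ L.Adj (i, j) (i + 1, j + 1)`. -/
theorem lat_ext {L L' : Lat} (h : ∀ u v, L.Adj u v ↔ L'.Adj u v)
    (ht : ∀ v, L.typ v = L'.typ v) : L = L' := by
  refine hp4_ext (fun i j => ?_) ht
  have h1 := h (i, j) (i + 1, j + 1)
  rw [← hp4_ne, ← hp4_ne] at h1
  exact Bool.eq_iff_iff.mpr h1

/-- `lat_ext` -/
theorem Tr.unique {L L₁ L₂ : Lat} {e : Equiv.Perm Pt} (h₁ : Tr L L₁ e) (h₂ : Tr L L₂ e) :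
    L₁ = L₂ := by
  exact lat_ext (fun u v => (h₁.adj u v).trans (h₂.adj u v).symm)
    (fun v => (h₁.typ v).trans (h₂.typ v).symm)

theorem Tr.sw {L L' : Lat} {e : Equiv.Perm Pt} (h : Tr L L' e) : Tr L.sw L'.sw e := by
  refine ⟨fun u v => h.adj u v, fun v => ?_⟩
  show (L'.typ v).map Bool.not = (L.typ (e v)).map Bool.not
  rw [h.typ]

/-- `rt_mod`, `rt_zero`, ..., `rt_three` -/
theorem rt_vadd (s : ℤ) (u v : Pt) : rt s (u + v) = rt s u + rt s v := by
  have h : ∀ n : ℤ, (n = 0 ∨ n = 1 ∨ n = 2 ∨ n = 3) → rt n (u + v) = rt n u + rt n v := by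
    rintro n (rfl | rfl | rfl | rfl)
    · rw [rt_zero, rt_zero, rt_zero]
    · rw [rt_one, rt_one, rt_one]
      ext
      · show -(u.2 + v.2) = -u.2 + -v.2
        ring
      · rfl
    · rw [rt_two, rt_two, rt_two]
      ext
      · show -(u.1 + v.1) = -u.1 + -v.1
        ring
      · show -(u.2 + v.2) = -u.2 + -v.2
        ring
    · rw [rt_three, rt_three, rt_three]
      ext
      · rfl
      · show -(u.1 + v.1) = -u.1 + -v.1
        ring
  have e : rt s = rt (s % 4) := rt_mod (by omega)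
  rw [e]
  exact h _ (by omega)

/-- `Tr.unique`: both sides are `L` seen through `v ↦ rt s (v + x) = rt s v + rt s x` (`tr_rots`, `tr_shift`, `Tr.trans`). -/
theorem rots_shift (L : Lat) (s : ℤ) (x : Pt) :
    (L.rots s).shift x = (L.shift (rt s x)).rots s := by
  have h₁ : Tr L ((L.rots s).shift x) (rt s * Equiv.addRight x) :=
    (tr_rots L s).trans (tr_shift (L.rots s) x)
  have h₂ : Tr L ((L.shift (rt s x)).rots s) (Equiv.addRight (rt s x) * rt s) :=
    (tr_shift L (rt s x)).trans (tr_rots (L.shift (rt s x)) s)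
  have e : (rt s * Equiv.addRight x : Equiv.Perm Pt) = Equiv.addRight (rt s x) * rt s := by
    apply Equiv.ext
    intro v
    show rt s (v + x) = rt s v + rt s x
    exact rt_vadd s v x
  rw [e] at h₁
  exact Tr.unique h₁ h₂

/-- `rots_shift` for `x = rt (-s) y` (`rt_add`, `rt_zero`) -/
theorem shift_rots (L : Lat) (s : ℤ) (y : Pt) :
    (L.shift y).rots s = (L.rots s).shift (rt (-s) y) := by
  have h := rots_shift L s (rt (-s) y)
  rw [← rt_add, add_neg_cancel, rt_zero] at h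
  exact h.symm

theorem rx_shift (L : Lat) (x : Pt) : (L.shift x).rx = L.rx.shift (-x.1, x.2) := by
  refine hp4_ext (fun i j => ?_) (fun v => ?_)
  · show (! L.ne (-i - 1 + x.1) (j + x.2)) = ! L.ne (-(i + -x.1) - 1) (j + x.2)
    have e : -i - 1 + x.1 = -(i + -x.1) - 1 := by ring
    rw [e]
  · show L.typ (-v.1 + x.1, v.2 + x.2) = L.typ (-(v.1 + -x.1), v.2 + x.2)
    have e : -v.1 + x.1 = -(v.1 + -x.1) := by ring
    rw [e]

theorem ry_shift (L : Lat) (x : Pt) : (L.shift x).ry = L.ry.shift (x.1, -x.2) := by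
  refine hp4_ext (fun i j => ?_) (fun v => ?_)
  · show (! L.ne (i + x.1) (-j - 1 + x.2)) = ! L.ne (i + x.1) (-(j + -x.2) - 1)
    have e : -j - 1 + x.2 = -(j + -x.2) - 1 := by ring
    rw [e]
  · show L.typ (v.1 + x.1, -v.2 + x.2) = L.typ (v.1 + x.1, -(v.2 + -x.2))
    have e : -v.2 + x.2 = -(v.2 + -x.2) := by ring
    rw [e]

theorem sw_shift (L : Lat) (x : Pt) : (L.shift x).sw = L.sw.shift x := by
  rfl

theorem rx_ry (L : Lat) : L.rx.ry = L.ry.rx := by
  rfl

/-- `(L.shift x).sw = L.sw.shift x = (L.shift x₀).shift x = (L.shift x).shift x₀` (`sw_shift`, `shift_shift`); for the reflections `rx_shift`, `ry_shift` in the same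
way: `(L.shift x).rx = L.rx.shift x' = L.shift (x₀ + x') = (L.shift x).shift (x₀ + x' - x)`. -/
theorem Fam.toShift (h : Fam L κ) (x : Pt) : Fam (L.shift x) κ := by
  have hc : ∀ y : Pt, (L.shift x).shift y = (L.shift y).shift x := by
    intro y
    rw [shift_shift, shift_shift, add_comm]
  have hz : ∀ y : Pt, L.shift y = (L.shift x).shift (y - x) := by
    intro y
    rw [shift_shift, add_sub_cancel]
  refine ⟨h.rsw.shift x, ?_, ?_, ?_, ?_, ?_⟩
  · rw [hc, h.per1]
  · rw [hc, h.per2]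
  · obtain ⟨x₀, h₀⟩ := h.sw
    refine ⟨x₀, ?_⟩
    rw [sw_shift, h₀, hc]
  · obtain ⟨x₀, h₀⟩ := h.rx
    refine ⟨x₀ + (-x.1, x.2) - x, ?_⟩
    rw [rx_shift, h₀, shift_shift]
    exact hz _
  · obtain ⟨x₀, h₀⟩ := h.ry
    refine ⟨x₀ + (x.1, -x.2) - x, ?_⟩
    rw [ry_shift, h₀, shift_shift]
    exact hz _

/-- `L.rx = L.shift x₀`, `Fam.toShift` -/
theorem Fam.toRx (h : Fam L κ) : Fam L.rx κ := by
  obtain ⟨x₀, h₀⟩ := h.rx
  rw [h₀]
  exact h.toShift x₀

theorem Fam.toRy (h : Fam L κ) : Fam L.ry κ := by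
  obtain ⟨x₀, h₀⟩ := h.ry
  rw [h₀]
  exact h.toShift x₀

private theorem hp4_rt (s : ℤ) (v : Pt) :
    (s % 2 = 0 → rt s (rxE v) = rxE (rt s v) ∧ rt s (ryE v) = ryE (rt s v)) ∧
      (s % 2 = 1 → rt s (rxE v) = ryE (rt s v) ∧ rt s (ryE v) = rxE (rt s v)) := by
  have ex : ∀ v : Pt, rxE v = (-v.1, v.2) := fun _ => rfl
  have ey : ∀ v : Pt, ryE v = (v.1, -v.2) := fun _ => rfl
  have e : rt s = rt (s % 4) := rt_mod (by omega)
  rw [e]
  have h4 : s % 4 = 0 ∨ s % 4 = 1 ∨ s % 4 = 2 ∨ s % 4 = 3 := by omega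
  constructor
  · intro hs
    rcases h4 with h | h | h | h
    · rw [h, rt_zero, rt_zero, rt_zero]
      exact ⟨rfl, rfl⟩
    · omega
    · rw [h, rt_two, rt_two, rt_two, ex, ey, ex, ey]
      simp
    · omega
  · intro hs
    rcases h4 with h | h | h | h
    · omega
    · rw [h, rt_one, rt_one, rt_one, ex, ey, ex, ey]
      simp
    · omega
    · rw [h, rt_three, rt_three, rt_three, ex, ey, ex, ey]
      simp

/-- `rsw`: `RSW.rots`.  `per1`, `per2`: `rots_shift` and `shift_even` (`rt s (2, 0)` and `rt s (0, 2)` have even coordinates).  `sw`: `(L.rots s).sw = L.sw.rots s` (`Tr.unique` for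
`L.sw`: `tr_rots L.sw s` and `(tr_rots L s).sw`), `= (L.shift x₀).rots s = (L.rots s).shift (rt (-s) x₀)` (`shift_rots`).  `rx`: the lattice `(L.rots s).rx` is `L` seen through
`rt s * rxE`, which is `rxE * rt s` for even `s` and `ryE * rt s` for odd `s`, so it is `L.rx.rots s` or `L.ry.rots s`; continue as for `sw`.  `ry` in the same way. -/
theorem Fam.toRots (h : Fam L κ) (s : ℤ) : Fam (L.rots s) κ := by
  have hper : ∀ z : Pt, L.shift (z + z) = L := by
    intro z
    have e : z + z = (2 * z.1, 2 * z.2) := by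
      ext
      · show z.1 + z.1 = 2 * z.1
        ring
      · show z.2 + z.2 = 2 * z.2
        ring
    rw [e]
    exact shift_even h z
  have hr : ∀ L' : Lat, (∃ x₀, L' = L.shift x₀) → ∃ x₁, L'.rots s = (L.rots s).shift x₁ := by
    rintro L' ⟨x₀, rfl⟩
    exact ⟨_, shift_rots L s x₀⟩
  refine ⟨h.rsw.rots s, ?_, ?_, ?_, ?_, ?_⟩
  · rw [rots_shift, show ((2, 0) : Pt) = (1, 0) + (1, 0) from rfl, rt_vadd, hper]
  · rw [rots_shift, show ((0, 2) : Pt) = (0, 1) + (0, 1) from rfl, rt_vadd, hper]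
  · have e : (L.rots s).sw = L.sw.rots s := Tr.unique (tr_rots L s).sw (tr_rots L.sw s)
    rw [e]
    exact hr _ h.sw
  · rcases Int.emod_two_eq_zero_or_one s with hs | hs
    · have h₁ : Tr L (L.rots s).rx (rt s * rxE) := (tr_rots L s).trans (tr_rx (L.rots s))
      have h₂ : Tr L (L.rx.rots s) (rxE * rt s) := (tr_rx L).trans (tr_rots L.rx s)
      have e : (rt s * rxE : Equiv.Perm Pt) = rxE * rt s :=
        Equiv.ext fun v => ((hp4_rt s v).1 hs).1
      rw [e] at h₁
      rw [Tr.unique h₁ h₂]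
      exact hr _ h.rx
    · have h₁ : Tr L (L.rots s).rx (rt s * rxE) := (tr_rots L s).trans (tr_rx (L.rots s))
      have h₂ : Tr L (L.ry.rots s) (ryE * rt s) := (tr_ry L).trans (tr_rots L.ry s)
      have e : (rt s * rxE : Equiv.Perm Pt) = ryE * rt s :=
        Equiv.ext fun v => ((hp4_rt s v).2 hs).1
      rw [e] at h₁
      rw [Tr.unique h₁ h₂]
      exact hr _ h.ry
  · rcases Int.emod_two_eq_zero_or_one s with hs | hs
    · have h₁ : Tr L (L.rots s).ry (rt s * ryE) := (tr_rots L s).trans (tr_ry (L.rots s))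
      have h₂ : Tr L (L.ry.rots s) (ryE * rt s) := (tr_ry L).trans (tr_rots L.ry s)
      have e : (rt s * ryE : Equiv.Perm Pt) = ryE * rt s :=
        Equiv.ext fun v => ((hp4_rt s v).1 hs).2
      rw [e] at h₁
      rw [Tr.unique h₁ h₂]
      exact hr _ h.ry
    · have h₁ : Tr L (L.rots s).ry (rt s * ryE) := (tr_rots L s).trans (tr_ry (L.rots s))
      have h₂ : Tr L (L.rx.rots s) (rxE * rt s) := (tr_rx L).trans (tr_rots L.rx s)
      have e : (rt s * ryE : Equiv.Perm Pt) = rxE * rt s :=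
        Equiv.ext fun v => ((hp4_rt s v).2 hs).2
      rw [e] at h₁
      rw [Tr.unique h₁ h₂]
      exact hr _ h.rx

/-- every lattice of the family is a shift of every other one (with period `2`) -/
theorem shift_eq {L : Lat} (h : Fam L κ) {x y : Pt} (h1 : (x.1 - y.1) % 2 = 0)
    (h2 : (x.2 - y.2) % 2 = 0) : L.shift x = L.shift y := by
  have e : x = (2 * ((x.1 - y.1) / 2), 2 * ((x.2 - y.2) / 2)) + y := by
    ext
    · show x.1 = 2 * ((x.1 - y.1) / 2) + y.1
      omega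
    · show x.2 = 2 * ((x.2 - y.2) / 2) + y.2
      omega
  rw [e, ← shift_shift]
  have h3 := shift_even h ((x.1 - y.1) / 2, (x.2 - y.2) / 2)
  simp only at h3
  rw [h3]

/-- `rots_twoA`, `pr_via` (`Two.loc`) -/
theorem al_rots (L : Lat) (s r R : ℤ) : al (L.rots s) r R = al L r R := by
  have e : pr ((L.rots s).TwoA true r R) = pr (L.TwoA true r R) := by
    rw [← pr_via (Lat.TwoA.loc (L.rots s) true r R) (rt s)]
    congr 1
    funext ω
    exact propext (rots_twoA L s true r R ω)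
  unfold al
  rw [e]

/-- `pr (((L.rots s).shift x).TwoA c r R) = pr ((L.rots s).TwoAt c x r R)` (`pr_TwoAt`); `AlProps.cmp` for `L.rots s` (`al_props_x`, `Fam.toRots`) with `r' = r`, `R' = R`;
`al_rots`.  `R₀ ≥ 16` is part of `AlProps`; take `max`. -/
theorem al_all (κ : ℕ → ℝ) : ∃ (C : ℝ) (R₀ : ℤ), 1 ≤ C ∧ 16 ≤ R₀ ∧ ∀ L : Lat, Fam L κ →
    ∀ (s : ℤ) (x : Pt) (c : Bool) (r R : ℤ), R₀ ≤ r → r < R →
      pr (((L.rots s).shift x).TwoA c r R) ≤ C * al L r R := by
  obtain ⟨C, R₀, H⟩ := al_props_x κ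
  refine ⟨max C 1, max R₀ 16, le_max_right _ _, le_max_right _ _, ?_⟩
  intro L hL s x c r R hr hrR
  have h0 : R₀ ≤ r := le_trans (le_max_left _ _) hr
  have h16 : 16 ≤ r := le_trans (le_max_right _ _) hr
  have h1 := (H (L.rots s) (hL.toRots s)).cmp c x r R r R h0 h0 hrR.le (by omega) hrR.le
    (by omega)
  rw [pr_TwoAt, al_rots] at h1
  have h2 : 0 < al L r R := (H L hL).pos r R h0 hrR.le
  exact le_trans h1 (mul_le_mul_of_nonneg_right (le_max_left _ _) h2.le)

/-- Constant correlation: `rots_shift`, `pr2_via` for `rt s` (`rots_twoA`) and for `Equiv.addRight (rt s x)`; `kt t` is constant. -/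
theorem pr2_rots (L : Lat) (t : ℝ) (s : ℤ) (x : Pt) (c : Bool) (r R : ℤ) :
    pr2 (kt t) (((L.rots s).shift x).TwoA c r R) = pr2 (kt t) (L.TwoAt c (rt s x) r R) := by
  have h1 : pr2 (kt t) (L.TwoAt c (rt s x) r R) = pr2 (kt t) ((L.shift (rt s x)).TwoA c r R) :=
    pr2_via (Lat.TwoA.loc (L.shift (rt s x)) c r R) (Equiv.addRight (rt s x)) (kt t)
  have h2 : pr2 (kt t) (fun ω => ((L.shift (rt s x)).rots s).TwoA c r R (via (rt s) ω)) =
      pr2 (kt t) (((L.shift (rt s x)).rots s).TwoA c r R) :=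
    pr2_via (Lat.TwoA.loc ((L.shift (rt s x)).rots s) c r R) (rt s) (kt t)
  have h3 : (fun ω => ((L.shift (rt s x)).rots s).TwoA c r R (via (rt s) ω)) =
      (L.shift (rt s x)).TwoA c r R :=
    funext fun ω => propext (rots_twoA (L.shift (rt s x)) s c r R ω)
  rw [rots_shift, h1, ← h2, h3]

end SC
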