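import Pool.Agent.Lib_MP_e0a489.TD3

/-!
# MP_e0a489, module HP 6: circuits in the half plane and in the quarter plane
-/

set_option autoImplicit false

namespace SC

open Classical

/-- half plane (`q = false`) or quarter plane (`q = true`) -/
def Uq (q : Bool) : Set Pt := {v | 0 ≤ v.2 ∧ (q = true → 0 ≤ v.1)}

private theorem HP6_nrm (v : Pt) (k : ℤ) :
    nrm v ≤ k ↔ (-k ≤ v.1 ∧ v.1 ≤ k) ∧ -k ≤ v.2 ∧ v.2 ≤ k := by
  unfold nrm
  rw [max_le_iff, abs_le, abs_le]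

private theorem HP6_sub (v : Pt) : v - (0, 0) = v := by
  have h : ((0 : ℤ), (0 : ℤ)) = (0 : Pt) := rfl
  rw [h, sub_zero]

private theorem HP6_dep_and {A B : Cfg → Prop} {D : Set Pt} (hA : Dep A D) (hB : Dep B D) :
    Dep (fun ω => A ω ∧ B ω) D := by
  intro ω ω' H
  show (A ω ∧ B ω) = (A ω' ∧ B ω')
  rw [hA ω ω' H, hB ω ω' H]

private theorem HP6_mon_and {c : Bool} {A B : Cfg → Prop} (hA : MonC c A) (hB : MonC c B) :
    MonC c (fun ω => A ω ∧ B ω) := by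
  cases c with
  | true =>
    intro ω ω' h hAB
    exact ⟨hA ω ω' h hAB.1, hB ω ω' h hAB.2⟩
  | false =>
    intro ω ω' h hAB
    exact ⟨hA ω ω' h hAB.1, hB ω ω' h hAB.2⟩

private theorem HP6_s1 {r R : ℤ} (hr : 0 ≤ r) : rect (r + 1) R 0 R ⊆ ann r R ∩ Uq true := by
  rintro v ⟨⟨a1, a2⟩, a3, a4⟩
  refine ⟨⟨?_, (HP6_nrm v R).2 ⟨⟨by omega, by omega⟩, by omega, by omega⟩⟩, a3, fun _ => by omega⟩
  by_contra hc
  have := (HP6_nrm v r).1 (not_lt.1 hc)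
  omega

private theorem HP6_s2 {r R : ℤ} (hr : 0 ≤ r) : rect 0 R (r + 1) R ⊆ ann r R ∩ Uq true := by
  rintro v ⟨⟨a1, a2⟩, a3, a4⟩
  refine ⟨⟨?_, (HP6_nrm v R).2 ⟨⟨by omega, by omega⟩, by omega, by omega⟩⟩, by omega,
    fun _ => a1⟩
  by_contra hc
  have := (HP6_nrm v r).1 (not_lt.1 hc)
  omega

namespace Lat

variable {L : Lat}

/-- Half circuit (`q = false`) or quarter circuit (`q = true`) of colour `c` in `ann r R`. -/
def Ci (L : Lat) (q c : Bool) (r R : ℤ) (ω : Cfg) : Prop :=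
  if q then L.VX c (r + 1) R 0 R ω ∧ L.HX c 0 R (r + 1) R ω else L.HC c 0 r R ω

private theorem HP6_f (L : Lat) (c : Bool) (r R : ℤ) : L.Ci false c r R = L.HC c 0 r R := by
  funext ω
  simp [Ci]

private theorem HP6_t (L : Lat) (c : Bool) (r R : ℤ) :
    L.Ci true c r R = fun ω => L.VX c (r + 1) R 0 R ω ∧ L.HX c 0 R (r + 1) R ω := by
  funext ω
  simp [Ci]

/-- `HC.dep` with `x = 0`; `VX.dep`, `HX.dep` -/
theorem Ci.dep (L : Lat) (q c : Bool) {r R : ℤ} (hr : 0 ≤ r) :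
    Dep (L.Ci q c r R) (ann r R ∩ Uq q) := by
  cases q with
  | false =>
    rw [HP6_f]
    refine (HC.dep L c 0 r R hr).mono ?_
    rintro v ⟨⟨⟨a1, a2⟩, a3, a4⟩, a5⟩
    have a6 : r < nrm (v - (0, 0)) := a5
    rw [HP6_sub] at a6
    exact ⟨⟨a6, (HP6_nrm v R).2 ⟨⟨by omega, by omega⟩, by omega, by omega⟩⟩, a3,
      fun h => by simp at h⟩
  | true =>
    rw [HP6_t]
    exact HP6_dep_and ((VX.dep L c _ _ _ _).mono (HP6_s1 hr))
      ((HX.dep L c _ _ _ _).mono (HP6_s2 hr))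

theorem Ci.loc (L : Lat) (q c : Bool) (r R : ℤ) : Loc (L.Ci q c r R) := by
  cases q with
  | false =>
    rw [HP6_f]
    exact HC.loc L c 0 r R
  | true =>
    rw [HP6_t]
    exact (VX.loc L c _ _ _ _).and (HX.loc L c _ _ _ _)

theorem Ci.mon (L : Lat) (q c : Bool) (r R : ℤ) : MonC c (L.Ci q c r R) := by
  cases q with
  | false =>
    rw [HP6_f]
    exact HC.mon L c 0 r R
  | true =>
    rw [HP6_t]
    exact HP6_mon_and (VX.mon L c _ _ _ _) (HX.mon L c _ _ _ _)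

private theorem HP6_quart {c : Bool} {r R : ℤ} (hr : 0 ≤ r) (hR : r < R) {ω : Cfg}
    (h1 : L.VX c (r + 1) R 0 R ω) (h2 : L.HX c 0 R (r + 1) R ω) :
    ∃ σ, σ ⊆ L.col c ω ∧ L.Con σ ∧ σ ⊆ ann r R ∩ Uq true ∧
      ∀ P : Set Pt, L.Con P → P ⊆ Uq true → (∃ v ∈ P, nrm v ≤ r) → (∃ v ∈ P, R ≤ nrm v) →
        (σ ∩ P).Nonempty := by
  obtain ⟨u1, v1, hu1, hv1, c1⟩ := h1
  obtain ⟨u2, v2, hu2, hv2, c2⟩ := h2
  obtain ⟨A1, hA1⟩ : ∃ A, A = {w | L.Cn (rect (r + 1) R 0 R ∩ L.col c ω) u1 w} := ⟨_, rfl⟩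
  obtain ⟨A2, hA2⟩ : ∃ A, A = {w | L.Cn (rect 0 R (r + 1) R ∩ L.col c ω) u2 w} := ⟨_, rfl⟩
  have k1 : L.Con A1 := by rw [hA1]; exact con_cluster _ _
  have k2 : L.Con A2 := by rw [hA2]; exact con_cluster _ _
  have s1 : A1 ⊆ rect (r + 1) R 0 R ∩ L.col c ω := by
    rw [hA1]
    intro w hw
    exact Cn.right hw
  have s2 : A2 ⊆ rect 0 R (r + 1) R ∩ L.col c ω := by
    rw [hA2]
    intro w hw
    exact Cn.right hw
  have m1 : u1 ∈ A1 := by rw [hA1]; exact Cn.refl c1.left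
  have n1 : v1 ∈ A1 := by rw [hA1]; exact c1
  have m2 : u2 ∈ A2 := by rw [hA2]; exact Cn.refl c2.left
  have n2 : v2 ∈ A2 := by rw [hA2]; exact c2
  have i12 : (A2 ∩ A1).Nonempty := by
    obtain ⟨w, hw, -⟩ := crossX k2 k1 (fun v hv => (s2 hv).1) (fun v hv => (s1 hv).1)
      ⟨u2, m2, hu2⟩ ⟨v2, n2, hv2⟩ ⟨u1, m1, hu1⟩ ⟨v1, n1, hv1⟩ (by omega) le_rfl (by omega)
      le_rfl (by omega) (by omega)
    exact ⟨w, hw⟩
  refine ⟨A2 ∪ A1, ?_, k2.union k1 i12, ?_, ?_⟩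
  · rintro w (hw | hw)
    · exact (s2 hw).2
    · exact (s1 hw).2
  · rintro w (hw | hw)
    · exact HP6_s2 hr (s2 hw).1
    · exact HP6_s1 hr (s1 hw).1
  · intro P hP hP0 hin hout
    obtain ⟨p0, hp0, hp0r⟩ := hin
    obtain ⟨p1, hp1, hp1R⟩ := hout
    obtain ⟨p, q, hpp, hpq, hqP, hqS⟩ := (hP p0 hp0 p1 hp1).exit
      (S := {v | nrm v ≤ R - 1}) (show nrm p0 ≤ R - 1 by omega)
      (show ¬ nrm p1 ≤ R - 1 by omega)
    obtain ⟨P', hP'⟩ : ∃ A, A = {w | L.Cn (P ∩ {v | nrm v ≤ R - 1}) p0 w} ∪ {q} :=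
      ⟨_, rfl⟩
    have hp0' : p0 ∈ P' := by rw [hP']; exact Or.inl (Cn.refl hpp.left)
    have hq' : q ∈ P' := by rw [hP']; exact Or.inr rfl
    have hP'c : L.Con P' := by
      rw [hP']
      exact (con_cluster _ p0).union_adj (con_singleton q) (u := p) hpp rfl hpq
    have hP'P : P' ⊆ P := by
      rw [hP']
      rintro w (hw | hw)
      · exact (Cn.right hw).1
      · rw [Set.mem_singleton_iff.1 hw]
        exact hqP
    have hpR := (HP6_nrm p (R - 1)).1 hpp.right.2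
    have hnear := hpq.near
    rw [abs_le, abs_le] at hnear
    have hq0 : 0 ≤ q.2 := (hP0 hqP).1
    have hq1 : 0 ≤ q.1 := (hP0 hqP).2 rfl
    have hqR : nrm q ≤ R := (HP6_nrm q R).2 (by omega)
    have hqR' : ¬ nrm q ≤ R - 1 := hqS
    rw [HP6_nrm] at hqR hqR'
    have hP'r : P' ⊆ rect 0 R 0 R := by
      intro w hw
      have h0 : 0 ≤ w.2 := (hP0 (hP'P hw)).1
      have h0' : 0 ≤ w.1 := (hP0 (hP'P hw)).2 rfl
      have h1 : nrm w ≤ R := by
        rw [hP'] at hw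
        rcases hw with hw | hw
        · have h2 : nrm w ≤ R - 1 := (Cn.right hw).2
          omega
        · rw [Set.mem_singleton_iff.1 hw, HP6_nrm]
          exact hqR
      rw [HP6_nrm] at h1
      exact ⟨⟨h0', h1.1.2⟩, h0, h1.2.2⟩
    have hp00 : 0 ≤ p0.2 := (hP0 hp0).1
    have hp01 : 0 ≤ p0.1 := (hP0 hp0).2 rfl
    rw [HP6_nrm] at hp0r
    have hH : L.Con (P' ∪ rect 0 r 0 r) :=
      hP'c.union (con_rect _ _ _ _) ⟨p0, hp0', ⟨⟨hp01, hp0r.1.2⟩, hp00, hp0r.2.2⟩⟩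
    have hHr : P' ∪ rect 0 r 0 r ⊆ rect 0 R 0 R := by
      rintro w (hw | ⟨⟨a1, a2⟩, a3, a4⟩)
      · exact hP'r hw
      · exact ⟨⟨a1, by omega⟩, a3, by omega⟩
    have hx0 : ((0 : ℤ), (0 : ℤ)) ∈ rect 0 r 0 r := ⟨⟨le_rfl, hr⟩, le_rfl, hr⟩
    have hcase : q.2 = R ∨ q.1 = R := by omega
    rcases hcase with hq1 | hq1
    · obtain ⟨w, hw2, hwP⟩ := cross k2 hH (a := 0) (b := R) (c := 0) (d := R)
        (fun v hv => by
          obtain ⟨⟨a1, a2⟩, a3, a4⟩ := (s2 hv).1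
          exact ⟨⟨a1, a2⟩, by omega, a4⟩) hHr ⟨u2, m2, hu2⟩ ⟨v2, n2, hv2⟩
        ⟨(0, 0), Or.inr hx0, rfl⟩ ⟨q, Or.inl hq', hq1⟩
      refine ⟨w, Or.inl hw2, ?_⟩
      rcases hwP with hw | hw
      · exact hP'P hw
      · exfalso
        have h1 := (s2 hw2).1.2.1
        have h2 := hw.2.2
        omega
    · obtain ⟨w, hwP, hw1⟩ := cross hH k1 (a := 0) (b := R) (c := 0) (d := R) hHr
        (fun v hv => by
          obtain ⟨⟨a1, a2⟩, a3, a4⟩ := (s1 hv).1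
          exact ⟨⟨by omega, a2⟩, a3, a4⟩)
        ⟨(0, 0), Or.inr hx0, rfl⟩ ⟨q, Or.inl hq', hq1⟩ ⟨u1, m1, hu1⟩ ⟨v1, n1, hv1⟩
      refine ⟨w, Or.inr hw1, ?_⟩
      have h1 := (s1 hw1).1.1.1
      rcases hwP with hw | hw
      · exact hP'P hw
      · exfalso
        have h2 := hw.1.2
        omega

/-- `q = false`: `HC.sep` with `x = 0`.  `q = true`: `σ` = union of the two crossing sets `σ₁` (in `rect (r+1) R 0 R`, from row `0` to row `R`) and `σ₂` (in `rect 0 R (r+1) R`, from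
column `0` to column `R`); they meet (`crossX` with `a = 0`, `b = R`, `c = r + 1`, `d = R`, `a' = r + 1`, `b' = R`, `c' = 0`, `d' = R`), so `σ` is connected.  Let `P ⊆ {0 ≤ v.1, 0 ≤ v.2}` be connected with a
site of norm `≤ r` and one of norm `≥ R`; by `Cn.exit` (first exit from `{nrm v < R}`; norms of adjacent sites differ by at most one) we may assume `P ⊆ bx R` and that `P` has a site `v` of norm `R`.
`P ∪ rect 0 r 0 r` is connected (common site).  If `v.2 = R`: `P ∪ rect 0 r 0 r ⊆ rect 0 R 0 R` joins the rows `0` and `R`, so it meets `σ₂`, which joins the columns `0` and `R`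
(`cross` in `rect 0 R 0 R`), at a site with second coordinate `≥ r + 1`, hence in `P`.  If `v.1 = R`: it joins the columns `0` and `R`, so it meets `σ₁` at a site with first coordinate
`≥ r + 1`, hence in `P`. -/
theorem Ci.sep {q c : Bool} {r R : ℤ} (hr : 0 ≤ r) (hR : r < R) {ω : Cfg}
    (h : L.Ci q c r R ω) : ∃ σ, σ ⊆ L.col c ω ∧ L.Con σ ∧ σ ⊆ ann r R ∩ Uq q ∧
      ∀ P : Set Pt, L.Con P → P ⊆ Uq q → (∃ v ∈ P, nrm v ≤ r) → (∃ v ∈ P, R ≤ nrm v) →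
        (σ ∩ P).Nonempty := by
  cases q with
  | false =>
    rw [HP6_f] at h
    obtain ⟨σ, h1, h2, h3, -, -, h4⟩ := HC.sep hr hR h
    refine ⟨σ, h1, h2, ?_, ?_⟩
    · intro v hv
      obtain ⟨⟨⟨a1, a2⟩, a3, a4⟩, a5⟩ := h3 hv
      have a6 : r < nrm (v - (0, 0)) := a5
      rw [HP6_sub] at a6
      exact ⟨⟨a6, (HP6_nrm v R).2 ⟨⟨by omega, by omega⟩, by omega, by omega⟩⟩, a3,
        fun h => by simp at h⟩
    · rintro P hP hP0 ⟨v, hv, hv'⟩ ⟨w, hw, hw'⟩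
      refine h4 P hP (fun u hu => (hP0 hu).1) ⟨v, hv, ?_⟩ ⟨w, hw, ?_⟩
      · rw [HP6_sub]
        exact hv'
      · rw [HP6_sub]
        exact hw'
  | true =>
    rw [HP6_t] at h
    exact HP6_quart hr hR h.1 h.2

end Lat

/-- `q = false`: `hc_pr`.  `q = true`: `RSW.vx'`, `RSW.hx'` and the Harris inequality (`pr_harris_mon`) give `κ k ^ 2`, and `κ k ≤ 1` (it is at most a probability). -/
theorem ci_pr {L : Lat} {κ : ℕ → ℝ} (h : RSW L κ) {k : ℕ} (hk : 1 ≤ k) (q c : Bool) {r R : ℤ}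
    (hr : 0 ≤ r) (h4 : 4 ≤ R - r - 1) (hR : 2 * R ≤ k * (R - r - 1)) :
    κ k ^ 3 ≤ pr (L.Ci q c r R) := by
  cases q with
  | false =>
    rw [Lat.HP6_f]
    exact hc_pr h hk c hr h4 hR
  | true =>
    rw [Lat.HP6_t]
    have hκ : 0 ≤ κ k := (h.pos k).le
    have e1 : κ k ≤ pr (L.VX c (r + 1) R 0 R) :=
      h.vx' hk c (by omega) (by omega) (by
        have : R - (r + 1) = R - r - 1 := by ring
        rw [this]; omega)
    have e2 : κ k ≤ pr (L.HX c 0 R (r + 1) R) :=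
      h.hx' hk c (by omega) (by omega) (by
        have : R - (r + 1) = R - r - 1 := by ring
        rw [this]; omega)
    have e3 : κ k ≤ 1 := e1.trans (pr_le_one _)
    let A : Fin 2 → Cfg → Prop := ![L.VX c (r + 1) R 0 R, L.HX c 0 R (r + 1) R]
    have hH := pr_harris_mon (I := (Finset.univ : Finset (Fin 2))) (A := A) c
      (fun i _ => by
        fin_cases i
        · exact Lat.VX.loc L c _ _ _ _
        · exact Lat.HX.loc L c _ _ _ _)
      (fun i _ => by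
        fin_cases i
        · exact Lat.VX.mon L c _ _ _ _
        · exact Lat.HX.mon L c _ _ _ _)
    rw [Fin.prod_univ_two] at hH
    have hA : (fun ω => ∀ i ∈ (Finset.univ : Finset (Fin 2)), A i ω) =
        fun ω => L.VX c (r + 1) R 0 R ω ∧ L.HX c 0 R (r + 1) R ω := by
      funext ω
      apply propext
      constructor
      · intro hi
        exact ⟨hi 0 (Finset.mem_univ _), hi 1 (Finset.mem_univ _)⟩
      · rintro ⟨a1, a2⟩ i _
        fin_cases i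
        · exact a1
        · exact a2
    rw [hA] at hH
    refine le_trans ?_ hH
    show κ k ^ 3 ≤ pr (L.VX c (r + 1) R 0 R) * pr (L.HX c 0 R (r + 1) R)
    calc κ k ^ 3 = κ k * κ k * κ k := by ring
      _ ≤ κ k * κ k * 1 := mul_le_mul_of_nonneg_left e3 (mul_nonneg hκ hκ)
      _ = κ k * κ k := mul_one _
      _ ≤ _ := mul_le_mul e1 e2 hκ (hκ.trans e1)

end SC
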