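import Pool.Agent.Lib_MP_e0a489.HP6

/-!
# MP_e0a489, module HP 7: extension of an arm in the half plane or the quarter plane
-/

set_option autoImplicit false

namespace SC

open Classical

private theorem HP7_nrm (v : Pt) (k : ℤ) :
    nrm v ≤ k ↔ (-k ≤ v.1 ∧ v.1 ≤ k) ∧ -k ≤ v.2 ∧ v.2 ≤ k := by
  unfold nrm
  rw [max_le_iff, abs_le, abs_le]

private theorem HP7_lt {v : Pt} {k : ℤ} (h : k < v.2) : k < nrm v := by
  by_contra hc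
  have := (HP7_nrm v k).1 (not_lt.1 hc)
  omega

private theorem HP7_le {v : Pt} {k : ℤ} (h : k ≤ v.2) : k ≤ nrm v := by
  have := HP7_lt (v := v) (k := k - 1) (by omega)
  omega

private theorem HP7_rect {q : Bool} {r R a b w : ℤ} (ha : r + 1 ≤ a) (hr : 0 ≤ r) (hb : b ≤ R)
    (hw : w ≤ R) : rect 0 w a b ⊆ ann r R ∩ Uq q := by
  rintro v ⟨⟨a1, a2⟩, a3, a4⟩
  exact ⟨⟨HP7_lt (by omega), (HP7_nrm v R).2 ⟨⟨by omega, by omega⟩, by omega, by omega⟩⟩,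
    by omega, fun _ => a1⟩

namespace Lat

variable {L : Lat}

private theorem HP7_low {r w : ℤ} (hr : 0 ≤ r) (hw : w ≤ r) {u : Pt} (h1 : 0 ≤ u.1)
    (h2 : u.1 ≤ w) (h3 : u.2 = r + 1) : u ∈ L.nb (bx r) := by
  refine ⟨(u.1, u.2 - 1), (HP7_nrm _ r).2 ?_, Or.inl (Or.inr (Or.inl ⟨rfl, ?_⟩))⟩
  · show (-r ≤ u.1 ∧ u.1 ≤ r) ∧ -r ≤ u.2 - 1 ∧ u.2 - 1 ≤ r
    omega
  · show u.2 = u.2 - 1 + 1
    omega

private theorem HP7_top {R w : ℤ} (hw : w ≤ R) {u : Pt} (h1 : 0 ≤ u.1)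
    (h2 : u.1 ≤ w) (h3 : u.2 = R) : u ∈ rng R := by
  show nrm u = R
  refine le_antisymm ((HP7_nrm _ R).2 ?_) (HP7_le (by omega))
  omega

/-- a vertical crossing of a strip above the box is an arm of the half plane and of the quarter plane: the sites of `rect 0 w (r+1) R`, `w ≤ r`, have norm `v.2`; the lower end
`(x, r+1)` has the neighbour `(x, r) ∈ bx r` -/
theorem strip_arm {q c : Bool} {r R w : ℤ} {ω : Cfg} (hr : 0 ≤ r) (hw : w ≤ r)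
    (h : L.VX c 0 w (r + 1) R ω) : L.Arm c (ann r R ∩ Uq q) (L.nb (bx r)) (rng R) ω := by
  obtain ⟨u, v, hu, hv, hc⟩ := h
  obtain ⟨⟨⟨a1, a2⟩, a3, a4⟩, -⟩ := hc.left
  obtain ⟨⟨⟨b1, b2⟩, b3, b4⟩, -⟩ := hc.right
  refine ⟨u, HP7_low hr hw a1 a2 hu, v, HP7_top (by omega) b1 b2 hv, hc.mono ?_⟩
  rintro z ⟨hz, hz'⟩
  exact ⟨HP7_rect le_rfl hr le_rfl (by omega) hz, hz'⟩

/-- EXTENSION.  `Arm`: `x ∈ nb (bx r)`, `y ∈ rng R`, joined in `ann r R ∩ Uq q ∩ col c ω`; let `γ = {v | Cn (ann r R ∩ Uq q ∩ col c ω) x v}` (connected), it contains `x` of norm `r + 1` (it is in `ann r R` and next to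
`bx r`) and `y` of norm `R`.  `σ₁` from `Ci.sep` for `hc1` (in `ann (r+1) (2r)`), `σ₂` for `hc2` (in `ann (R/2) R`).  `γ` meets `σ₁` (`nrm x ≤ r + 1`, `nrm y ≥ 2 r`) and `σ₂`
(`nrm x = r + 1 ≤ R / 2`).  `τ₁` = crossing set of `hv1`, in `rect 0 (r'/2) (r'+1) (2r)`, its sites have norm `v.2`; it has a site `u` in row `r' + 1 ≤ r + 1` (so `u ∈ nb (bx r')`, its neighbour
below is in `bx r'`) and a site in row `2 r`; so it meets `σ₁`.  `τ₂` = crossing set of `hv2`, in `rect 0 (R/4) (R/2) R'`, its sites have norm `v.2` (`R / 4 ≤ R / 2`); it has a site in row `R / 2` and a site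
`w` in row `R'`, so `w ∈ rng R'`, and it meets `σ₂`.  All five sets have colour `c`, lie in `ann r' R' ∩ Uq q`, and the union is connected: `u` is joined to `w`. -/
theorem armU_ext {q c : Bool} {r R r' R' : ℤ} {ω : Cfg} (h0 : 2 ≤ r') (h1 : r' ≤ r)
    (h2 : 4 * r ≤ R) (h3 : R ≤ R')
    (hA : L.Arm c (ann r R ∩ Uq q) (L.nb (bx r)) (rng R) ω)
    (hc1 : L.Ci q c (r + 1) (2 * r) ω) (hc2 : L.Ci q c (R / 2) R ω)
    (hv1 : L.VX c 0 (r' / 2) (r' + 1) (2 * r) ω) (hv2 : L.VX c 0 (R / 4) (R / 2) R' ω) :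
    L.Arm c (ann r' R' ∩ Uq q) (L.nb (bx r')) (rng R') ω := by
  obtain ⟨x, hx, y, hy, hxy⟩ := hA
  obtain ⟨σ₁, s1c, s1k, s1s, s1m⟩ := Ci.sep (by omega) (by omega) hc1
  obtain ⟨σ₂, s2c, s2k, s2s, s2m⟩ := Ci.sep (by omega) (by omega) hc2
  obtain ⟨u1, v1, hu1, hv1', k1⟩ := hv1
  obtain ⟨u2, v2, hu2, hv2', k2⟩ := hv2
  obtain ⟨γ, hγ⟩ : ∃ A, A = {w | L.Cn (ann r R ∩ Uq q ∩ L.col c ω) x w} := ⟨_, rfl⟩
  obtain ⟨τ₁, hτ₁⟩ : ∃ A, A = {w | L.Cn (rect 0 (r' / 2) (r' + 1) (2 * r) ∩ L.col c ω) u1 w} :=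
    ⟨_, rfl⟩
  obtain ⟨τ₂, hτ₂⟩ : ∃ A, A = {w | L.Cn (rect 0 (R / 4) (R / 2) R' ∩ L.col c ω) u2 w} :=
    ⟨_, rfl⟩
  have gk : L.Con γ := by rw [hγ]; exact con_cluster _ _
  have t1k : L.Con τ₁ := by rw [hτ₁]; exact con_cluster _ _
  have t2k : L.Con τ₂ := by rw [hτ₂]; exact con_cluster _ _
  have gs : γ ⊆ ann r R ∩ Uq q ∩ L.col c ω := by
    rw [hγ]
    intro w hw
    exact Cn.right hw
  have t1s : τ₁ ⊆ rect 0 (r' / 2) (r' + 1) (2 * r) ∩ L.col c ω := by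
    rw [hτ₁]
    intro w hw
    exact Cn.right hw
  have t2s : τ₂ ⊆ rect 0 (R / 4) (R / 2) R' ∩ L.col c ω := by
    rw [hτ₂]
    intro w hw
    exact Cn.right hw
  have gx : x ∈ γ := by rw [hγ]; exact Cn.refl hxy.left
  have gy : y ∈ γ := by rw [hγ]; exact hxy
  have t1u : u1 ∈ τ₁ := by rw [hτ₁]; exact Cn.refl k1.left
  have t1v : v1 ∈ τ₁ := by rw [hτ₁]; exact k1
  have t2u : u2 ∈ τ₂ := by rw [hτ₂]; exact Cn.refl k2.left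
  have t2v : v2 ∈ τ₂ := by rw [hτ₂]; exact k2
  obtain ⟨⟨u1a, u1b⟩, u1c, u1d⟩ := k1.left.1
  obtain ⟨⟨u2a, u2b⟩, u2c, u2d⟩ := k2.left.1
  obtain ⟨⟨v2a, v2b⟩, v2c, v2d⟩ := k2.right.1
  -- norms of the end points
  have nx : nrm x ≤ r + 1 := by
    obtain ⟨z, hz, ha⟩ := hx
    have hz' := (HP7_nrm z r).1 hz
    have hn := ha.near
    rw [abs_le, abs_le] at hn
    exact (HP7_nrm x (r + 1)).2 (by omega)
  have ny : nrm y = R := hy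
  have nu1 : nrm u1 ≤ r + 1 := (HP7_nrm u1 (r + 1)).2 (by omega)
  have nv1 : 2 * r ≤ nrm v1 := HP7_le (by omega)
  have nu2 : nrm u2 ≤ R / 2 := (HP7_nrm u2 (R / 2)).2 (by omega)
  have nv2 : R ≤ nrm v2 := HP7_le (by omega)
  -- the four meetings
  have gU : γ ⊆ Uq q := fun w hw => (gs hw).1.2
  have t1U : τ₁ ⊆ Uq q := fun w hw =>
    (HP7_rect (r := r') (R := R') le_rfl (by omega) (by omega) (by omega) (t1s hw).1).2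
  have t2U : τ₂ ⊆ Uq q := fun w hw =>
    (HP7_rect (r := r') (R := R') (by omega) (by omega) le_rfl (by omega) (t2s hw).1).2
  have m1 : (σ₁ ∩ γ).Nonempty := s1m γ gk gU ⟨x, gx, nx⟩ ⟨y, gy, by omega⟩
  have m2 : (σ₂ ∩ γ).Nonempty := s2m γ gk gU ⟨x, gx, by omega⟩ ⟨y, gy, by omega⟩
  have m3 : (σ₁ ∩ τ₁).Nonempty := s1m τ₁ t1k t1U ⟨u1, t1u, nu1⟩ ⟨v1, t1v, nv1⟩
  have m4 : (σ₂ ∩ τ₂).Nonempty := s2m τ₂ t2k t2U ⟨u2, t2u, nu2⟩ ⟨v2, t2v, nv2⟩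
  -- the union
  have q1 : L.Con (σ₁ ∪ τ₁) := s1k.union t1k m3
  have q2 : L.Con (σ₂ ∪ τ₂) := s2k.union t2k m4
  have q3 : L.Con (γ ∪ (σ₁ ∪ τ₁)) := by
    obtain ⟨z, hz1, hz2⟩ := m1
    exact gk.union q1 ⟨z, hz2, Or.inl hz1⟩
  have q4 : L.Con (γ ∪ (σ₁ ∪ τ₁) ∪ (σ₂ ∪ τ₂)) := by
    obtain ⟨z, hz1, hz2⟩ := m2
    exact q3.union q2 ⟨z, Or.inl hz2, Or.inl hz1⟩
  refine ⟨u1, HP7_low (w := r' / 2) (by omega) (by omega) u1a u1b hu1, v2,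
    HP7_top (w := R / 4) (by omega) v2a v2b hv2', ?_⟩
  refine (q4 u1 (Or.inl (Or.inr (Or.inr t1u))) v2 (Or.inr (Or.inr t2v))).mono ?_
  rintro w ((hw | hw | hw) | hw | hw)
  · obtain ⟨⟨⟨a1, a2⟩, a3⟩, a4⟩ := gs hw
    exact ⟨⟨⟨by omega, by omega⟩, a3⟩, a4⟩
  · obtain ⟨⟨a1, a2⟩, a3⟩ := s1s hw
    exact ⟨⟨⟨by omega, by omega⟩, a3⟩, s1c hw⟩
  · exact ⟨HP7_rect le_rfl (by omega) (by omega) (by omega) (t1s hw).1, (t1s hw).2⟩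
  · obtain ⟨⟨a1, a2⟩, a3⟩ := s2s hw
    exact ⟨⟨⟨by omega, by omega⟩, a3⟩, s2c hw⟩
  · exact ⟨HP7_rect (by omega) (by omega) le_rfl (by omega) (t2s hw).1, (t2s hw).2⟩

end Lat

end SC
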