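import Pool.Agent.Lib_MP_e0a489.HP13

/-!
# MP_e0a489, module HP: half plane and corner events (interface)
-/

set_option autoImplicit false

namespace SC

variable [IfL]

open Classical

private theorem hp9_al (L : Lat) (r : ℤ) : al L r r = 1 := by
  unfold al
  rw [if_neg (lt_irrefl r)]

private theorem hp9_nonneg (L : Lat) (r R : ℤ) : 0 ≤ al L r R := by
  unfold al
  split_ifs
  · exact pr_nonneg _
  · exact zero_le_one

private theorem hp9_al_le {L : Lat} {C : ℝ} {s : ℤ} {x : Pt} {r R : ℤ} (h : r < R)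
    (H : pr (((L.rots s).shift x).TwoA true r R) ≤ C * al L r R) :
    al ((L.rots s).shift x) r R ≤ C * al L r R := by
  have : al ((L.rots s).shift x) r R = pr (((L.rots s).shift x).TwoA true r R) := by
    unfold al
    rw [if_pos h]
  rw [this]
  exact H

/-- half plane: two clusters of one colour -/
theorem half_le (κ : ℕ → ℝ) : ∃ (C : ℝ) (R₀ : ℤ), 0 < C ∧ 16 ≤ R₀ ∧ ∀ L : Lat, Fam L κ →
    ∀ (s : ℤ) (x : Pt) (c : Bool) (H : Set Pt) (r R : ℤ), HalfLike H → R₀ ≤ r → r ≤ R →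
      pr (((L.rots s).shift x).TwoH c H r R) ≤ C * (al L r R) ^ ((3 : ℝ) / 4) := by
  obtain ⟨C₁, R₁, hC₁, hR₁, h₁⟩ := half_core κ
  obtain ⟨C₂, R₂, hC₂, hR₂, h₂⟩ := al_all κ
  have hC₂' : (1 : ℝ) ≤ C₂ ^ ((3 : ℝ) / 4) := Real.one_le_rpow hC₂ (by norm_num)
  have hC : (1 : ℝ) ≤ C₁ * C₂ ^ ((3 : ℝ) / 4) := by nlinarith
  refine ⟨C₁ * C₂ ^ ((3 : ℝ) / 4), max R₁ R₂, by linarith, le_trans hR₂ (le_max_right _ _), ?_⟩
  intro L hL s x c H r R hH hr hrR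
  rcases eq_or_lt_of_le hrR with rfl | hlt
  · rw [hp9_al, Real.one_rpow, mul_one]
    exact le_trans (pr_le_one _) hC
  · have hF : Fam ((L.rots s).shift x) κ := (hL.toRots s).toShift x
    have e1 := h₁ _ hF c H r R hH (le_trans (le_max_left _ _) hr) hlt
    have e2 := hp9_al_le hlt (h₂ L hL s x true r R (le_trans (le_max_right _ _) hr) hlt)
    have e3 : (al ((L.rots s).shift x) r R) ^ ((3 : ℝ) / 4) ≤
        C₂ ^ ((3 : ℝ) / 4) * (al L r R) ^ ((3 : ℝ) / 4) := by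
      rw [← Real.mul_rpow (by linarith) (hp9_nonneg L r R)]
      exact Real.rpow_le_rpow (hp9_nonneg _ r R) e2 (by norm_num)
    calc _ ≤ C₁ * (al ((L.rots s).shift x) r R) ^ ((3 : ℝ) / 4) := e1
      _ ≤ C₁ * (C₂ ^ ((3 : ℝ) / 4) * (al L r R) ^ ((3 : ℝ) / 4)) :=
          mul_le_mul_of_nonneg_left e3 (by linarith)
      _ = _ := by ring

/-- corner: two arms of different colours -/
theorem quart_le (κ : ℕ → ℝ) : ∃ (C : ℝ) (R₀ : ℤ), 0 < C ∧ 16 ≤ R₀ ∧ ∀ L : Lat, Fam L κ →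
    ∀ (s : ℤ) (x : Pt) (H : Set Pt) (r R : ℤ), QuartLike H → R₀ ≤ r → r ≤ R →
      pr (((L.rots s).shift x).TwoQ H r R) ≤ C * (al L r R) ^ ((1 : ℝ) / 2) := by
  obtain ⟨C₁, R₁, hC₁, hR₁, h₁⟩ := quart_core κ
  obtain ⟨C₂, R₂, hC₂, hR₂, h₂⟩ := al_all κ
  have hC₂' : (1 : ℝ) ≤ C₂ ^ ((1 : ℝ) / 2) := Real.one_le_rpow hC₂ (by norm_num)
  have hC : (1 : ℝ) ≤ C₁ * C₂ ^ ((1 : ℝ) / 2) := by nlinarith
  refine ⟨C₁ * C₂ ^ ((1 : ℝ) / 2), max R₁ R₂, by linarith, le_trans hR₂ (le_max_right _ _), ?_⟩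
  intro L hL s x H r R hH hr hrR
  rcases eq_or_lt_of_le hrR with rfl | hlt
  · rw [hp9_al, Real.one_rpow, mul_one]
    exact le_trans (pr_le_one _) hC
  · have hF : Fam ((L.rots s).shift x) κ := (hL.toRots s).toShift x
    have e1 := h₁ _ hF H r R hH (le_trans (le_max_left _ _) hr) hlt
    have e2 := hp9_al_le hlt (h₂ L hL s x true r R (le_trans (le_max_right _ _) hr) hlt)
    have e3 : (al ((L.rots s).shift x) r R) ^ ((1 : ℝ) / 2) ≤
        C₂ ^ ((1 : ℝ) / 2) * (al L r R) ^ ((1 : ℝ) / 2) := by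
      rw [← Real.mul_rpow (by linarith) (hp9_nonneg L r R)]
      exact Real.rpow_le_rpow (hp9_nonneg _ r R) e2 (by norm_num)
    calc _ ≤ C₁ * (al ((L.rots s).shift x) r R) ^ ((1 : ℝ) / 2) := e1
      _ ≤ C₁ * (C₂ ^ ((1 : ℝ) / 2) * (al L r R) ^ ((1 : ℝ) / 2)) :=
          mul_le_mul_of_nonneg_left e3 (by linarith)
      _ = _ := by ring

end SC
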