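import Pool.Agent.Lib_MP_e0a489.RC1

/-!
# MP_e0a489, inner separation 1: the outer zones
-/

set_option autoImplicit false

namespace SC

open Classical

/-- the outer region for the arms of colour `c`: everything in `bx (2R+1) \ bx R` except the zones of colour `c` -/
def Outc (c : Bool) (R : ℤ) : Set Pt := bx (2 * R + 1) \ (bx R ∪ Jc c R)

private theorem is1_le {v : Pt} {r : ℤ} :
    nrm v ≤ r ↔ (-r ≤ v.1 ∧ v.1 ≤ r) ∧ (-r ≤ v.2 ∧ v.2 ≤ r) := by
  unfold nrm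
  rw [max_le_iff, abs_le, abs_le]

private theorem is1_nrm {a y : ℤ} (h : |y| ≤ a) : nrm (a, y) = a := by
  have h0 : 0 ≤ a := le_trans (abs_nonneg y) h
  show max |a| |y| = a
  rw [abs_of_nonneg h0]
  exact max_eq_left h

private theorem is1_J0 {R : ℤ} {a b : ℤ} {v : Pt} : v ∈ rt 0 '' rect a b (-(R / 4)) (R / 4) ↔
    (a ≤ v.1 ∧ v.1 ≤ b) ∧ -(R / 4) ≤ v.2 ∧ v.2 ≤ R / 4 := by
  constructor
  · rintro ⟨u, hu, rfl⟩
    rw [rt_zero]
    exact hu
  · intro h
    exact ⟨v, h, rt_zero v⟩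

private theorem is1_J1 {R : ℤ} {a b : ℤ} {v : Pt} : v ∈ rt 1 '' rect a b (-(R / 4)) (R / 4) ↔
    (a ≤ v.2 ∧ v.2 ≤ b) ∧ -(R / 4) ≤ v.1 ∧ v.1 ≤ R / 4 := by
  constructor
  · rintro ⟨u, ⟨h1, h2⟩, rfl⟩
    rw [rt_one]
    refine ⟨h1, ?_, ?_⟩
    · show -(R / 4) ≤ -u.2
      omega
    · show -u.2 ≤ R / 4
      omega
  · rintro ⟨h1, h2⟩
    refine ⟨(v.2, -v.1), ⟨h1, ?_, ?_⟩, ?_⟩
    · show -(R / 4) ≤ -v.1
      omega
    · show -v.1 ≤ R / 4
      omega
    · rw [rt_one]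
      simp

private theorem is1_J2 {R : ℤ} {a b : ℤ} {v : Pt} : v ∈ rt 2 '' rect a b (-(R / 4)) (R / 4) ↔
    (-b ≤ v.1 ∧ v.1 ≤ -a) ∧ -(R / 4) ≤ v.2 ∧ v.2 ≤ R / 4 := by
  constructor
  · rintro ⟨u, ⟨h1, h2⟩, rfl⟩
    rw [rt_two]
    refine ⟨⟨?_, ?_⟩, ?_, ?_⟩
    · show -b ≤ -u.1
      omega
    · show -u.1 ≤ -a
      omega
    · show -(R / 4) ≤ -u.2
      omega
    · show -u.2 ≤ R / 4
      omega
  · rintro ⟨h1, h2⟩
    refine ⟨(-v.1, -v.2), ⟨⟨?_, ?_⟩, ?_, ?_⟩, ?_⟩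
    · show a ≤ -v.1
      omega
    · show -v.1 ≤ b
      omega
    · show -(R / 4) ≤ -v.2
      omega
    · show -v.2 ≤ R / 4
      omega
    · rw [rt_two]
      simp

private theorem is1_J3 {R : ℤ} {a b : ℤ} {v : Pt} : v ∈ rt 3 '' rect a b (-(R / 4)) (R / 4) ↔
    (-b ≤ v.2 ∧ v.2 ≤ -a) ∧ -(R / 4) ≤ v.1 ∧ v.1 ≤ R / 4 := by
  constructor
  · rintro ⟨u, ⟨h1, h2⟩, rfl⟩
    rw [rt_three]
    refine ⟨⟨?_, ?_⟩, ?_, ?_⟩
    · show -b ≤ -u.1
      omega
    · show -u.1 ≤ -a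
      omega
    · show -(R / 4) ≤ u.2
      omega
    · show u.2 ≤ R / 4
      omega
  · rintro ⟨h1, h2⟩
    refine ⟨(-v.2, v.1), ⟨⟨?_, ?_⟩, ?_, ?_⟩, ?_⟩
    · show a ≤ -v.2
      omega
    · show -v.2 ≤ b
      omega
    · show -(R / 4) ≤ v.1
      omega
    · show v.1 ≤ R / 4
      omega
    · rw [rt_three]
      simp

private theorem is1_JT {R : ℤ} {v : Pt} : v ∈ Jc true R ↔
    ((R + 1 ≤ v.1 ∧ v.1 ≤ 2 * R) ∧ -(R / 4) ≤ v.2 ∧ v.2 ≤ R / 4) ∨
    ((-(2 * R) ≤ v.1 ∧ v.1 ≤ -(R + 1)) ∧ -(R / 4) ≤ v.2 ∧ v.2 ≤ R / 4) := by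
  have e : Jc true R = (rt 0 '' rect (R + 1) (2 * R) (-(R / 4)) (R / 4)) ∪
      (rt 2 '' rect (R + 1) (2 * R) (-(R / 4)) (R / 4)) := by
    simp [Jc, J, dc]
  rw [e, Set.mem_union, is1_J0, is1_J2]

private theorem is1_JF {R : ℤ} {v : Pt} : v ∈ Jc false R ↔
    ((R + 1 ≤ v.2 ∧ v.2 ≤ 2 * R) ∧ -(R / 4) ≤ v.1 ∧ v.1 ≤ R / 4) ∨
    ((-(2 * R) ≤ v.2 ∧ v.2 ≤ -(R + 1)) ∧ -(R / 4) ≤ v.1 ∧ v.1 ≤ R / 4) := by
  have e : Jc false R = (rt 1 '' rect (R + 1) (2 * R) (-(R / 4)) (R / 4)) ∪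
      (rt 3 '' rect (R + 1) (2 * R) (-(R / 4)) (R / 4)) := by
    simp [Jc, J, dc]
  rw [e, Set.mem_union, is1_J1, is1_J3]

private theorem is1_out {c : Bool} {R : ℤ} {v : Pt} : v ∈ Outc c R ↔
    nrm v ≤ 2 * R + 1 ∧ R < nrm v ∧ v ∉ Jc c R := by
  constructor
  · rintro ⟨h1, h2⟩
    refine ⟨h1, ?_, fun h => h2 (Or.inr h)⟩
    by_contra h
    exact h2 (Or.inl (not_lt.1 h))
  · rintro ⟨h1, h2, h3⟩
    refine ⟨h1, ?_⟩
    rintro (h | h)
    · exact absurd (show nrm v ≤ R from h) (not_le.2 h2)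
    · exact h3 h

/-- norms of the sites of `J s R` (`nrm_rt`) -/
theorem J_nrm {s R : ℤ} (hR : 0 ≤ R) {v : Pt} (hv : v ∈ J s R) : R < nrm v ∧ nrm v ≤ 2 * R := by
  obtain ⟨u, ⟨h1, h2⟩, rfl⟩ := hv
  rw [nrm_rt]
  obtain ⟨x, y⟩ := u
  simp only at h1 h2
  rw [is1_nrm (by rw [abs_le]; omega)]
  omega

theorem Jc_sub_ann {c : Bool} {R : ℤ} (hR : 0 ≤ R) : Jc c R ⊆ ann R (2 * R) := by
  rintro v (h | h)
  · exact J_nrm hR h
  · exact J_nrm hR h

theorem Je_nrm {s R : ℤ} (hR : 1 ≤ R) {v : Pt} (hv : v ∈ Je s R) : nrm v = 2 * R := by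
  obtain ⟨u, ⟨h1, h2⟩, rfl⟩ := hv
  rw [nrm_rt]
  obtain ⟨x, y⟩ := u
  simp only at h1 h2
  rw [is1_nrm (by rw [abs_le]; omega)]
  omega

/-- `Je d R ⊆ J d R ⊆ Jc c R` for the two directions of the colour `c` -/
theorem Je_sub_Jc {c : Bool} {d R : ℤ} (hR : 1 ≤ R) (hd : d = dc c ∨ d = dc c + 2) :
    Je d R ⊆ Jc c R := by
  have h : Je d R ⊆ J d R := by
    rintro v ⟨u, ⟨h1, h2⟩, rfl⟩
    exact ⟨u, ⟨⟨by omega, by omega⟩, h2⟩, rfl⟩
  rcases hd with rfl | rfl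
  · exact fun v hv => Or.inl (h hv)
  · exact fun v hv => Or.inr (h hv)

/-- the zones of the two colours are disjoint -/
theorem Jc_sub_Outc {c : Bool} {R : ℤ} (hR : 0 ≤ R) : Jc (!c) R ⊆ Outc c R := by
  intro v hv
  have h1 := Jc_sub_ann hR hv
  have h2 : R < nrm v := h1.1
  have h3 : nrm v ≤ 2 * R := h1.2
  rw [is1_out]
  refine ⟨by omega, h2, ?_⟩
  cases c
  · have hv' : v ∈ Jc true R := hv
    rw [is1_JT] at hv'
    rw [is1_JF]
    omega
  · have hv' : v ∈ Jc false R := hv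
    rw [is1_JF] at hv'
    rw [is1_JT]
    omega

theorem rng_sub_Outc {c : Bool} {R : ℤ} (hR : 0 ≤ R) : rng (2 * R + 1) ⊆ Outc c R := by
  intro v hv
  have h1 : nrm v = 2 * R + 1 := hv
  rw [is1_out]
  refine ⟨by omega, by omega, fun h => ?_⟩
  have h2 : nrm v ≤ 2 * R := (Jc_sub_ann hR h).2
  omega

theorem Outc_sub {c : Bool} {r R : ℤ} (hrR : r ≤ R) : Outc c R ⊆ ann r (2 * R + 1) := by
  intro v hv
  rw [is1_out] at hv
  exact ⟨by omega, hv.1⟩

/-- the part of the annulus `ann r (2R+1)` that is not in `Outc c R` -/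
theorem ann_diff_Outc {c : Bool} {r R : ℤ} (hR : 0 ≤ R) (hrR : r ≤ R) :
    ann r (2 * R + 1) \ Outc c R = ann r R ∪ Jc c R := by
  ext v
  constructor
  · rintro ⟨⟨h1, h2⟩, h3⟩
    rw [is1_out] at h3
    by_cases h4 : nrm v ≤ R
    · exact Or.inl ⟨h1, h4⟩
    · right
      by_contra h5
      exact h3 ⟨h2, by omega, h5⟩
  · rintro (⟨h1, h2⟩ | h)
    · refine ⟨⟨h1, by omega⟩, ?_⟩
      rw [is1_out]
      omega
    · have h1 := Jc_sub_ann hR h
      have h2 : R < nrm v := h1.1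
      have h3 : nrm v ≤ 2 * R := h1.2
      refine ⟨⟨by omega, by omega⟩, ?_⟩
      rw [is1_out]
      exact fun h4 => h4.2.2 h

/-- coordinates and directions of the ends -/
theorem Je_coord {R : ℤ} {v : Pt} : (v ∈ Je 0 R → v.1 = 2 * R) ∧ (v ∈ Je 1 R → v.2 = 2 * R) ∧
    (v ∈ Je 2 R → v.1 = -(2 * R)) ∧ (v ∈ Je 3 R → v.2 = -(2 * R)) := by
  refine ⟨?_, ?_, ?_, ?_⟩
  · intro h
    have h' := (is1_J0 (R := R) (a := 2 * R) (b := 2 * R)).1 h
    omega
  · intro h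
    have h' := (is1_J1 (R := R) (a := 2 * R) (b := 2 * R)).1 h
    omega
  · intro h
    have h' := (is1_J2 (R := R) (a := 2 * R) (b := 2 * R)).1 h
    omega
  · intro h
    have h' := (is1_J3 (R := R) (a := 2 * R) (b := 2 * R)).1 h
    omega

namespace Lat

variable {L : Lat}

/-- the ends of the zones are next to the ring `2R+1` -/
theorem Je_nb {s R : ℤ} (hR : 1 ≤ R) {v : Pt} (hv : v ∈ Je s R) :
    v ∈ L.nb (rng (2 * R + 1)) := by
  obtain ⟨⟨x, y⟩, ⟨h1, h2⟩, rfl⟩ := hv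
  simp only at h1 h2
  have hx : x = 2 * R := by omega
  subst hx
  refine ⟨rt s (2 * R + 1, y), ?_, ?_⟩
  · show nrm (rt s (2 * R + 1, y)) = 2 * R + 1
    rw [nrm_rt, is1_nrm (by rw [abs_le]; omega)]
  · exact (((tr_rots L s).adj (2 * R, y) (2 * R + 1, y)).1 (adj_right (2 * R, y))).symm

/-- `Outc c R` is connected: a site `rt s (x, y)` with `|y| ≤ x`, `R < x ≤ 2R+1` is joined to the ring `2R+1` by the path
`rt s (x', y)`, `x ≤ x' ≤ 2R+1`, which does not meet the zones (a zone `J s' R` contains `rt s (x', y)` with `|y| ≤ x'`,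
`x' > R`, only if `s' = s` modulo 4 and `|y| ≤ R/4`, `x' ≤ 2R`; but then it would contain `rt s (x, y)`); the ring is
connected (`con_rng`). -/
theorem con_Outc {c : Bool} {R : ℤ} (hR : 1 ≤ R) : L.Con (Outc c R) := by
  have step : ∀ v ∈ Outc c R, nrm v < 2 * R + 1 →
      ∃ w ∈ Outc c R, L.Adj v w ∧ nrm w = nrm v + 1 := by
    intro v hv hlt
    rw [is1_out] at hv
    obtain ⟨h1, h2, h3⟩ := hv
    obtain ⟨x, y⟩ := v
    have key : ∀ w : Pt, |w.1 - x| + |w.2 - y| = 1 → nrm w = nrm (x, y) + 1 →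
        w ∉ Jc c R → ∃ w ∈ Outc c R, L.Adj (x, y) w ∧ nrm w = nrm (x, y) + 1 := by
      intro w ha hn hj
      refine ⟨w, ?_, adj_of_nn ?_, hn⟩
      · rw [is1_out]
        exact ⟨by omega, by omega, hj⟩
      · show |x - w.1| + |y - w.2| = 1
        rw [abs_sub_comm x, abs_sub_comm y]
        exact ha
    have hxy : nrm (x, y) = max |x| |y| := rfl
    rcases le_total |y| |x| with hyx | hxy'
    · have e : nrm (x, y) = |x| := by rw [hxy, max_eq_left hyx]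
      rcases abs_cases x with ⟨ex, hx0⟩ | ⟨ex, hx0⟩
      · refine key (x + 1, y) (by simp) ?_ ?_
        · show max |x + 1| |y| = _
          rw [e, max_eq_left (by rw [abs_of_nonneg (by omega : 0 ≤ x + 1)]; omega),
            abs_of_nonneg (by omega : 0 ≤ x + 1), ex]
        · cases c
          · rw [is1_JF] at h3 ⊢
            simp only at h3 ⊢
            have := abs_le.1 (hyx.trans_eq ex)
            omega
          · rw [is1_JT] at h3 ⊢
            simp only at h3 ⊢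
            omega
      · refine key (x - 1, y) (by simp) ?_ ?_
        · show max |x - 1| |y| = _
          rw [e, max_eq_left (by rw [abs_of_nonpos (by omega : x - 1 ≤ 0)]; omega),
            abs_of_nonpos (by omega : x - 1 ≤ 0), ex]
          ring
        · cases c
          · rw [is1_JF] at h3 ⊢
            simp only at h3 ⊢
            have := abs_le.1 (hyx.trans_eq ex)
            omega
          · rw [is1_JT] at h3 ⊢
            simp only at h3 ⊢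
            omega
    · have e : nrm (x, y) = |y| := by rw [hxy, max_eq_right hxy']
      rcases abs_cases y with ⟨ey, hy0⟩ | ⟨ey, hy0⟩
      · refine key (x, y + 1) (by simp) ?_ ?_
        · show max |x| |y + 1| = _
          rw [e, max_eq_right (by rw [abs_of_nonneg (by omega : 0 ≤ y + 1)]; omega),
            abs_of_nonneg (by omega : 0 ≤ y + 1), ey]
        · cases c
          · rw [is1_JF] at h3 ⊢
            simp only at h3 ⊢
            omega
          · rw [is1_JT] at h3 ⊢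
            simp only at h3 ⊢
            have := abs_le.1 (hxy'.trans_eq ey)
            omega
      · refine key (x, y - 1) (by simp) ?_ ?_
        · show max |x| |y - 1| = _
          rw [e, max_eq_right (by rw [abs_of_nonpos (by omega : y - 1 ≤ 0)]; omega),
            abs_of_nonpos (by omega : y - 1 ≤ 0), ey]
          ring
        · cases c
          · rw [is1_JF] at h3 ⊢
            simp only at h3 ⊢
            omega
          · rw [is1_JT] at h3 ⊢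
            simp only at h3 ⊢
            have := abs_le.1 (hxy'.trans_eq ey)
            omega
  have up : ∀ (n : ℕ) (v : Pt), v ∈ Outc c R → nrm v + n = 2 * R + 1 →
      ∃ w ∈ rng (2 * R + 1), L.Cn (Outc c R) v w := by
    intro n
    induction n with
    | zero =>
      intro v hv hn
      refine ⟨v, ?_, Cn.refl hv⟩
      show nrm v = 2 * R + 1
      simpa using hn
    | succ n ih =>
      intro v hv hn
      push_cast at hn
      obtain ⟨w, hw, hadj, hnw⟩ := step v hv (by omega)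
      obtain ⟨z, hz, hc⟩ := ih w hw (by omega)
      exact ⟨z, hz, (Cn.of_adj hv hw hadj).trans hc⟩
  have ring : L.Con (rng (2 * R + 1)) := con_rng (by omega)
  intro u hu v hv
  have hu' := is1_out.1 hu
  have hv' := is1_out.1 hv
  obtain ⟨w, hw, hc⟩ := up (2 * R + 1 - nrm u).toNat u hu (by omega)
  obtain ⟨w', hw', hc'⟩ := up (2 * R + 1 - nrm v).toNat v hv (by omega)
  exact (hc.trans ((ring w hw w' hw').mono (rng_sub_Outc (by omega)))).trans hc'.symm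

end Lat

end SC
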