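import Pool.Agent.Lib_MP_e0a489.IS8

/-!
# MP_e0a489, inner separation 10: second step, deterministic part
-/

set_option autoImplicit false

namespace SC

open Classical

namespace Lat

variable {L : Lat}

private theorem is10_ib {w M s s' k : ℤ} (h : s % 4 = s' % 4) : ib w M s k = ib w M s' k := by
  unfold ib
  rw [rt_mod h]

private theorem is10_odd {a b : ℤ} (ha : a % 2 = 1) (hb : b % 2 = 1) : (a * b) % 2 = 1 := by
  rw [Int.mul_emod, ha, hb]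
  rfl

private theorem is10_half {μ w : ℤ} (hμ : μ % 2 = 1) (hw : w % 2 = 1) :
    (μ * w) / 2 = (μ / 2) * w + w / 2 := by
  obtain ⟨a, rfl⟩ : ∃ a, μ = 2 * a + 1 := ⟨μ / 2, by omega⟩
  have h1 : (2 * a + 1) / 2 = a := by omega
  have h2 : (2 * a + 1) * w = 2 * (a * w) + w := by ring
  rw [h1, h2]
  omega

private theorem is10_abs {w k y r : ℤ} (hw0 : 0 < w) (hk : |y - k * w| ≤ 5 * w) (hy : |y| ≤ r) :
    |k| * w ≤ r + 5 * w := by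
  have e1 : |k| * w = |k * w| := by rw [abs_mul, abs_of_pos hw0]
  rw [e1]
  have h1 := abs_le.1 hk
  have h2 := abs_le.1 hy
  rw [abs_le]
  omega

private theorem is10_far {u v : Pt} (h : 2 ≤ nrm (u - v)) : u ≠ v ∧ ∀ L : Lat, ¬ L.Adj u v := by
  constructor
  · rintro rfl
    rw [sub_self] at h
    have : nrm (0 : Pt) = 0 := by
      show max |(0 : ℤ)| |(0 : ℤ)| = 0
      simp
    omega
  · intro L hadj
    have h1 := hadj.near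
    have h2 : nrm (u - v) ≤ 1 := max_le h1.1 h1.2
    omega

/-- one coarse block -/
private theorem fine_far1 {W M w M' μ B r s₁ k₁ a s k y : ℤ} (hw : w % 2 = 1)
    (hw5 : 5 ≤ w) (hB : 48 ≤ B) (hμ : μ = 4 * B + 1) (hW : W = μ * w) (hr : r = M * W + W / 2)
    (hr' : r = M' * w + w / 2)
    (hk₁ : CellI W (r + 1) k₁)
    (hy : |y| + 100 * W ≤ r + 1) (ha : a % 4 = s₁ % 4)
    (g1 : 2 * (r + 1) * a + ((k₁ + 1) * W + W / 2) < 2 * (r + 1) * s + y)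
    (g2 : 2 * (r + 1) * s + y < 2 * (r + 1) * (a + 4) + ((k₁ - 1) * W - W / 2))
    (hk : |y - k * w| ≤ 5 * w) {u v : Pt} (hu : u ∈ ib W M s₁ k₁) (hv : v ∈ ib w M' s k) :
    2 ≤ nrm (u - v) := by
  have hμ2 : μ % 2 = 1 := by omega
  have hWo : W % 2 = 1 := by rw [hW]; exact is10_odd hμ2 hw
  have hW9 : 100 * w ≤ W := by
    rw [hW]
    exact mul_le_mul_of_nonneg_right (by omega) (by omega)
  have hk' := is10_abs (by omega) hk (show |y| ≤ r + 1 - 100 * W by omega)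
  have h1 := abs_le.1 hk
  have e1 : (k₁ + 1) * W = k₁ * W + W := by ring
  have e2 : (k₁ - 1) * W = k₁ * W - W := by ring
  rw [e1] at g1
  rw [e2] at g2
  rw [← is10_ib ha] at hu
  obtain ⟨-, hc⟩ := hk₁
  exact ib_far (w := W) (w' := w) (M := M) (M' := M') (r := r) (s := a) (k := k₁) (s' := s)
    (k' := k) hWo (by omega) hw (by omega) (by omega) hr hr' (by omega) (by omega) (by omega)
    (by omega) hu hv

/-- THE FINE BLOCK IS FAR FROM THE COARSE BLOCKS: not in them and not adjacent to them.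
Proof.  `ib_far` with the coarse block first (`w := W`, `w' := w`), for `(a, k₁)` and `(b, k₃)` (`ib W M a k₁ = ib W M s₁ k₁`, `rt_mod`).
The index inequalities: `2 m s + k w ≥ 2 m s + y - 5 w > 2 m a + k₁ W + W + W/2 - 5 w` and `W - 5 w > w/2 + 1`; similarly on the
other side.  `|k| w ≤ |y| + 5 w`. -/
theorem fine_far {W M w M' μ B r s₁ k₁ s₃ k₃ a b s k y : ℤ} (hw : w % 2 = 1)
    (hw5 : 5 ≤ w) (hB : 48 ≤ B) (hμ : μ = 4 * B + 1) (hW : W = μ * w) (hr : r = M * W + W / 2)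
    (hr' : r = M' * w + w / 2)
    (hk₁ : CellI W (r + 1) k₁) (hk₃ : CellI W (r + 1) k₃)
    (hy : |y| + 100 * W ≤ r + 1) (ha : a % 4 = s₁ % 4) (hb : b % 4 = s₃ % 4)
    (g1 : 2 * (r + 1) * a + ((k₁ + 1) * W + W / 2) < 2 * (r + 1) * s + y)
    (g2 : 2 * (r + 1) * s + y < 2 * (r + 1) * (a + 4) + ((k₁ - 1) * W - W / 2))
    (g3 : 2 * (r + 1) * b + ((k₃ + 1) * W + W / 2) < 2 * (r + 1) * s + y)
    (g4 : 2 * (r + 1) * s + y < 2 * (r + 1) * (b + 4) + ((k₃ - 1) * W - W / 2))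
    (hk : |y - k * w| ≤ 5 * w) :
    ∀ v ∈ ib w M' s k, v ∉ B2 W M s₁ k₁ s₃ k₃ ∧ v ∉ L.nb (B2 W M s₁ k₁ s₃ k₃) := by
  intro v hv
  have key : ∀ u ∈ B2 W M s₁ k₁ s₃ k₃, 2 ≤ nrm (u - v) := by
    rintro u (hu | hu)
    · exact fine_far1 hw hw5 hB hμ hW hr hr' hk₁ hy ha g1 g2 hk hu hv
    · exact fine_far1 hw hw5 hB hμ hW hr hr' hk₃ hy hb g3 g4 hk hu hv
  refine ⟨fun h => (is10_far (key v h)).1 rfl, ?_⟩
  rintro ⟨u, hu, huv⟩
  exact (is10_far (key u hu)).2 L huv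

/-- THE LANDING EVENT FROM FOUR ARMS.  Two open arms from coarse blocks, two closed arms from fine blocks, in cyclic order.
Proof.  `land_of` with `s = ![s₁, s₂, s₃, s₄]`, `k = ![k₁, k₂, k₃, k₄]` (`fpos`: `μ k₁, k₂, μ k₃, k₄`; `hwd`: `μ/2, 0, μ/2, 0`).  The conditions
`cor`: `|k₁| W + 100 W ≤ r + 1 < (M' + 1) w` (`W = μ w`) gives `|μ k₁| + 100 μ ≤ M'`; `|k₂| w + 90 W ≤ r + 1` gives
`|k₂| + 90 μ ≤ M'`.  The order: `lex_of_idx` for the coordinates of the cells (all smaller than `m = r + 1`) and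
`(μ w) / 2 = (μ / 2) w + w / 2`.  Directions: `d = ![0, e₂, 2, e₄]`, `q = (c₀, s', k', i ↦ d (i + j))`.  The blocks depend on `s`
modulo 4 only (`rt_mod`); `lbi`, `lw` are the coarse block and `W` for `true`, the fine block and `w` for `false`; the four values of `i` (and
`j`) by cases. -/
theorem E2i_of {μ Mc w r R s₁ k₁ s₂ k₂ s₃ k₃ s₄ k₄ e₂ e₄ : ℤ} {ω : Cfg} (hμ : μ % 2 = 1)
    (hμ1 : 100 ≤ μ) (hMc : 0 < Mc) (hw : w % 2 = 1) (hw5 : 5 ≤ w)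
    (hr : r = (μ * Mc + μ / 2) * w + w / 2)
    (hk₁ : CellI (μ * w) (r + 1) k₁) (hk₃ : CellI (μ * w) (r + 1) k₃)
    (hk₂ : k₂ ≠ 0 ∧ |k₂| * w + 90 * (μ * w) ≤ r + 1)
    (hk₄ : k₄ ≠ 0 ∧ |k₄| * w + 90 * (μ * w) ≤ r + 1)
    (he : (e₂ = 1 ∧ e₄ = 3) ∨ (e₂ = 3 ∧ e₄ = 1))
    (h12 : 2 * (r + 1) * s₁ + k₁ * (μ * w) + (μ * w) / 2 + w < 2 * (r + 1) * s₂ + k₂ * w)
    (h23 : 2 * (r + 1) * s₂ + k₂ * w < 2 * (r + 1) * s₃ + k₃ * (μ * w) - (μ * w) / 2 - w)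
    (h34 : 2 * (r + 1) * s₃ + k₃ * (μ * w) + (μ * w) / 2 + w < 2 * (r + 1) * s₄ + k₄ * w)
    (h41 : 2 * (r + 1) * s₄ + k₄ * w <
      2 * (r + 1) * (s₁ + 4) + k₁ * (μ * w) - (μ * w) / 2 - w)
    (a1 : L.Arm true (ann r R ∪ Jc true R ∪ ib (μ * w) Mc s₁ k₁)
      (ib (μ * w) Mc s₁ k₁ ∩ rng (r - μ * w + 1)) (Je 0 R) ω)
    (a3 : L.Arm true (ann r R ∪ Jc true R ∪ ib (μ * w) Mc s₃ k₃)
      (ib (μ * w) Mc s₃ k₃ ∩ rng (r - μ * w + 1)) (Je 2 R) ω)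
    (b2 : L.Arm false (ann r R ∪ Jc false R ∪ ib w (μ * Mc + μ / 2) s₂ k₂)
      (ib w (μ * Mc + μ / 2) s₂ k₂ ∩ rng (r - w + 1)) (Je e₂ R) ω)
    (b4 : L.Arm false (ann r R ∪ Jc false R ∪ ib w (μ * Mc + μ / 2) s₄ k₄)
      (ib w (μ * Mc + μ / 2) s₄ k₄ ∩ rng (r - w + 1)) (Je e₄ R) ω) :
    ∃ q ∈ LamI μ Mc, L.E2i w μ Mc R q.1 q.2.1 q.2.2.1 q.2.2.2 ω := by
  have hw0 : 0 < w := by omega
  have hμ0 : 0 < μ := by omega
  have hWh := is10_half hμ hw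
  have hrw : r + 1 < (μ * Mc + μ / 2 + 1) * w := by
    have : (μ * Mc + μ / 2 + 1) * w = (μ * Mc + μ / 2) * w + w := by ring
    omega
  have hr1 : 0 < r + 1 := by
    have : 0 ≤ (μ * Mc + μ / 2) * w := by positivity
    omega
  have hMpos : 0 < μ * Mc := mul_pos hμ0 hMc
  -- coordinates of the middle of the cells
  have cor1 : ∀ k, CellI (μ * w) (r + 1) k → |μ * k| + 2 * μ + 20 ≤ μ * Mc + μ / 2 := by
    intro k hk
    have h1 : (|μ * k| + 100 * μ) * w < (μ * Mc + μ / 2 + 1) * w := by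
      refine lt_of_le_of_lt (le_of_eq ?_) (lt_of_le_of_lt hk.2 hrw)
      rw [abs_mul, abs_of_pos hμ0]
      ring
    have h2 := lt_of_mul_lt_mul_right h1 hw0.le
    omega
  have cor2 : ∀ k, |k| * w + 90 * (μ * w) ≤ r + 1 → |k| + 2 * μ + 20 ≤ μ * Mc + μ / 2 := by
    intro k hk
    have h1 : (|k| + 90 * μ) * w < (μ * Mc + μ / 2 + 1) * w := by
      refine lt_of_le_of_lt (le_of_eq ?_) (lt_of_le_of_lt hk hrw)
      ring
    have h2 := lt_of_mul_lt_mul_right h1 hw0.le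
    omega
  have ab1 : ∀ k, CellI (μ * w) (r + 1) k → |k * (μ * w)| + 100 * (μ * w) ≤ r + 1 := by
    intro k hk
    rw [abs_mul, abs_of_pos (mul_pos hμ0 hw0)]
    exact hk.2
  have ab2 : ∀ k, |k| * w + 90 * (μ * w) ≤ r + 1 → |k * w| + 90 * (μ * w) ≤ r + 1 := by
    intro k hk
    rw [abs_mul, abs_of_pos hw0]
    exact hk
  have hμw : 100 * w ≤ μ * w := mul_le_mul_of_nonneg_right hμ1 hw0.le
  have A1 := abs_le.1 (show |k₁ * (μ * w)| ≤ r + 1 - 100 * (μ * w) by have := ab1 _ hk₁; omega)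
  have A3 := abs_le.1 (show |k₃ * (μ * w)| ≤ r + 1 - 100 * (μ * w) by have := ab1 _ hk₃; omega)
  have A2 := abs_le.1 (show |k₂ * w| ≤ r + 1 - 90 * (μ * w) by have := ab2 _ hk₂.2; omega)
  have A4 := abs_le.1 (show |k₄ * w| ≤ r + 1 - 90 * (μ * w) by have := ab2 _ hk₄.2; omega)
  -- comparison of the fine cells
  have cmp1 : ∀ k k', k * (μ * w) + (μ * w) / 2 + w < k' * w → μ * k + μ / 2 < k' := by
    intro k k' h
    have h1 : (μ * k + μ / 2) * w < k' * w := by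
      have : (μ * k + μ / 2) * w = k * (μ * w) + (μ / 2) * w := by ring
      omega
    exact lt_of_mul_lt_mul_right h1 hw0.le
  have cmp2 : ∀ k k', k' * w < k * (μ * w) - (μ * w) / 2 - w → k' < μ * k - μ / 2 := by
    intro k k' h
    have h1 : k' * w < (μ * k - μ / 2) * w := by
      have : (μ * k - μ / 2) * w = k * (μ * w) - (μ / 2) * w := by ring
      omega
    exact lt_of_mul_lt_mul_right h1 hw0.le
  have l12 : s₁ < s₂ ∨ (s₁ = s₂ ∧ μ * k₁ + μ / 2 < k₂) := by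
    rcases lex_of_idx (m := r + 1) (s := s₁) (s' := s₂) (y := k₁ * (μ * w) + (μ * w) / 2 + w)
      (y' := k₂ * w) (by rw [abs_lt]; omega) (by rw [abs_lt]; omega) (by omega) with h | ⟨h, h'⟩
    · exact Or.inl h
    · exact Or.inr ⟨h, cmp1 _ _ h'⟩
  have l23 : s₂ < s₃ ∨ (s₂ = s₃ ∧ k₂ < μ * k₃ - μ / 2) := by
    rcases lex_of_idx (m := r + 1) (s := s₂) (s' := s₃) (y := k₂ * w)
      (y' := k₃ * (μ * w) - (μ * w) / 2 - w) (by rw [abs_lt]; omega) (by rw [abs_lt]; omega)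
      (by omega) with h | ⟨h, h'⟩
    · exact Or.inl h
    · exact Or.inr ⟨h, cmp2 _ _ h'⟩
  have l34 : s₃ < s₄ ∨ (s₃ = s₄ ∧ μ * k₃ + μ / 2 < k₄) := by
    rcases lex_of_idx (m := r + 1) (s := s₃) (s' := s₄) (y := k₃ * (μ * w) + (μ * w) / 2 + w)
      (y' := k₄ * w) (by rw [abs_lt]; omega) (by rw [abs_lt]; omega) (by omega) with h | ⟨h, h'⟩
    · exact Or.inl h
    · exact Or.inr ⟨h, cmp1 _ _ h'⟩
  have l41 : s₄ < s₁ + 4 ∨ (s₄ = s₁ + 4 ∧ k₄ < μ * k₁ - μ / 2) := by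
    rcases lex_of_idx (m := r + 1) (s := s₄) (s' := s₁ + 4) (y := k₄ * w)
      (y' := k₁ * (μ * w) - (μ * w) / 2 - w) (by rw [abs_lt]; omega) (by rw [abs_lt]; omega)
      (by omega) with h | ⟨h, h'⟩
    · exact Or.inl h
    · exact Or.inr ⟨h, cmp2 _ _ h'⟩
  obtain ⟨c₀, s', k', j, hL, hj⟩ := land_of (μ := μ) (M := μ * Mc + μ / 2) hμ0
    (s := ![s₁, s₂, s₃, s₄]) (k := ![k₁, k₂, k₃, k₄]) (by
      intro i
      fin_cases i
      · exact cor1 _ hk₁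
      · exact cor2 _ hk₂.2
      · exact cor1 _ hk₃
      · exact cor2 _ hk₄.2) (by
      intro i
      fin_cases i
      · exact hk₁.1
      · exact hk₂.1
      · exact hk₃.1
      · exact hk₄.1) (by
      show s₁ < s₂ ∨ (s₁ = s₂ ∧ μ * k₁ + μ / 2 < k₂ - 0)
      omega) (by
      show s₂ < s₃ ∨ (s₂ = s₃ ∧ k₂ + 0 < μ * k₃ - μ / 2)
      omega) (by
      show s₃ < s₄ ∨ (s₃ = s₄ ∧ μ * k₃ + μ / 2 < k₄ - 0)
      omega) (by
      show s₄ < s₁ + 4 ∨ (s₄ = s₁ + 4 ∧ k₄ + 0 < μ * k₁ - μ / 2)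
      omega)
  refine ⟨(c₀, s', k', fun i => ![0, e₂, 2, e₄] (i + j)), (mem_LamI hμ0 _).2 ⟨hL, ?_, ?_, ?_⟩, ?_⟩
  · intro i
    have hd : ∀ t : Fin 4, (![0, e₂, 2, e₄] : Fin 4 → ℤ) t = dc (colr true t) ∨
        (![0, e₂, 2, e₄] : Fin 4 → ℤ) t = dc (colr true t) + 2 := by
      intro t
      fin_cases t
      · exact Or.inl rfl
      · show e₂ = 1 ∨ e₂ = 1 + 2
        omega
      · exact Or.inr rfl
      · show e₄ = 1 ∨ e₄ = 1 + 2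
        omega
    show ![0, e₂, 2, e₄] (i + j) = dc (colr c₀ i) ∨ ![0, e₂, 2, e₄] (i + j) = dc (colr c₀ i) + 2
    rw [(hj i).2.2]
    exact hd _
  · show (![0, e₂, 2, e₄] : Fin 4 → ℤ) (0 + j) ≠ ![0, e₂, 2, e₄] (2 + j)
    have : ∀ t : Fin 4, (![0, e₂, 2, e₄] : Fin 4 → ℤ) (0 + t) ≠ ![0, e₂, 2, e₄] (2 + t) := by
      intro t
      fin_cases t
      · show (0 : ℤ) ≠ 2
        omega
      · show e₂ ≠ e₄
        omega
      · show (2 : ℤ) ≠ 0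
        omega
      · show e₄ ≠ e₂
        omega
    exact this j
  · show (![0, e₂, 2, e₄] : Fin 4 → ℤ) (1 + j) ≠ ![0, e₂, 2, e₄] (3 + j)
    have : ∀ t : Fin 4, (![0, e₂, 2, e₄] : Fin 4 → ℤ) (1 + t) ≠ ![0, e₂, 2, e₄] (3 + t) := by
      intro t
      fin_cases t
      · show e₂ ≠ e₄
        omega
      · show (2 : ℤ) ≠ 0
        omega
      · show e₄ ≠ e₂
        omega
      · show (0 : ℤ) ≠ 2
        omega
    exact this j
  · intro i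
    have hs : lbi w μ Mc (colr c₀ i) (s' i) (k' i) =
        lbi w μ Mc (colr true (i + j)) ((![s₁, s₂, s₃, s₄] : Fin 4 → ℤ) (i + j))
          ((![k₁, k₂, k₃, k₄] : Fin 4 → ℤ) (i + j)) := by
      rw [(hj i).2.2, (hj i).2.1]
      unfold lbi
      rw [is10_ib (hj i).1, is10_ib (hj i).1]
    show L.Arm (colr c₀ i) (ann ((μ * Mc + μ / 2) * w + w / 2) R ∪ Jc (colr c₀ i) R ∪
        lbi w μ Mc (colr c₀ i) (s' i) (k' i)) (lbi w μ Mc (colr c₀ i) (s' i) (k' i) ∩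
        rng ((μ * Mc + μ / 2) * w + w / 2 - lw w μ (colr c₀ i) + 1))
        (Je ((![0, e₂, 2, e₄] : Fin 4 → ℤ) (i + j)) R) ω
    rw [hs, (hj i).2.2, ← hr]
    have all : ∀ t : Fin 4, L.Arm (colr true t) (ann r R ∪ Jc (colr true t) R ∪
        lbi w μ Mc (colr true t) ((![s₁, s₂, s₃, s₄] : Fin 4 → ℤ) t)
          ((![k₁, k₂, k₃, k₄] : Fin 4 → ℤ) t))
        (lbi w μ Mc (colr true t) ((![s₁, s₂, s₃, s₄] : Fin 4 → ℤ) t)
          ((![k₁, k₂, k₃, k₄] : Fin 4 → ℤ) t) ∩ rng (r - lw w μ (colr true t) + 1))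
        (Je ((![0, e₂, 2, e₄] : Fin 4 → ℤ) t) R) ω := by
      intro t
      fin_cases t
      · exact a1
      · exact b2
      · exact a3
      · exact b4
    exact all _

/-- SECOND STEP, deterministic part (`W = μ w`).
Proof.  `E1i` gives the ring sites with indices `2 m s₂ + y₂`, `2 m s₄ + y₄`.  `fine_cell` for both (for the first one `a = s₁`, `b = s₃ - 4`,
for the second one `a = s₁`, `b = s₃`; the missing inequalities follow from those of `E1i`).  For `η` with the fresh event: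
`land_in` with `c = false`, `B = B2 ..` (`C2_con`, `C2_inner`, `C2_exact`, `end_nb`, `fine_far`) lands both closed arms; the open arms survive
(`arm_keep` with `c = false`, `B' =` block).  Then `E2i_of` (`M W - W/2 = r - W + 1`). -/
theorem step2_in {μ Mc w B r R s₁ k₁ s₃ k₃ ℓ : ℤ} {ω : Cfg} {G : Finset Pt} (hw : w % 2 = 1)
    (hw5 : 5 ≤ w) (hB : 48 ≤ B) (hμ : μ = 4 * B + 1) (hMc : 0 < Mc)
    (hr : r = (μ * Mc + μ / 2) * w + w / 2) (hR : 8 * r ≤ R)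
    (hG : ∀ v, r - w < nrm v → nrm v ≤ r + w → v ∈ G)
    (hbad : ¬ L.BadW true ∅ (r + 1) 1 ℓ (B * w) (12 * w) ω)
    (h : L.E1i r (μ * w) Mc R s₁ k₁ s₃ k₃ ω) :
    ∃ s k s' k' : ℤ, (|k| + 1 < μ * Mc + μ / 2 ∧ |k'| + 1 < μ * Mc + μ / 2) ∧
      ∀ η, L.Fre false r (r + w) w (μ * Mc + μ / 2) s k s' k' η → ∃ q ∈ LamI μ Mc,
        L.E2i w μ Mc R q.1 q.2.1 q.2.2.1 q.2.2.2
          (mix G (L.Rev true (Di r R (B2 (μ * w) Mc s₁ k₁ s₃ k₃))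
            (Si false R (B2 (μ * w) Mc s₁ k₁ s₃ k₃))) ω η) := by
  have hw0 : 0 < w := by omega
  have hμ2 : μ % 2 = 1 := by omega
  have hμ0 : 0 < μ := by omega
  have hμ1 : 100 ≤ μ := by omega
  have hWh := is10_half hμ2 hw
  have hWo : (μ * w) % 2 = 1 := is10_odd hμ2 hw
  have hμw : 190 * w ≤ μ * w := mul_le_mul_of_nonneg_right (by omega) hw0.le
  have hrW : r = Mc * (μ * w) + (μ * w) / 2 := by
    rw [hr, hWh]
    ring
  have hMpos : 0 < μ * Mc := mul_pos hμ0 hMc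
  have hrw : r + 1 < (μ * Mc + μ / 2 + 1) * w := by
    have : (μ * Mc + μ / 2 + 1) * w = (μ * Mc + μ / 2) * w + w := by ring
    omega
  have hC2c := C2_con hWo (by omega) hrW hR h
  have hC2e := C2_exact hWo (by omega) hrW hR h
  have hh := h
  obtain ⟨⟨hk₁, hk₃⟩, a1, a3, s₂, y₂, s₄, y₄, e₂, e₄, he, hy₂, hy₄, i12, i23, i34, i41, b2, b4⟩ := hh
  have hC2i := C2_inner (L := L) (R := R) (s₁ := s₁) (s₃ := s₃) (ω := ω) hWo (by omega) hrW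
    hk₁ hk₃
  have hB2 := B2_sub (s₁ := s₁) (s₃ := s₃) hWo (by omega) hrW hk₁ hk₃
  have p1 : (k₁ + 1) * (μ * w) = k₁ * (μ * w) + μ * w := by ring
  have p2 : (k₁ - 1) * (μ * w) = k₁ * (μ * w) - μ * w := by ring
  have p3 : (k₃ + 1) * (μ * w) = k₃ * (μ * w) + μ * w := by ring
  have p4 : (k₃ - 1) * (μ * w) = k₃ * (μ * w) - μ * w := by ring
  have p5 : 2 * (r + 1) * (s₁ + 4) = 2 * (r + 1) * s₁ + 8 * (r + 1) := by ring
  have p6 : 2 * (r + 1) * (s₃ + 4) = 2 * (r + 1) * s₃ + 8 * (r + 1) := by ring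
  have p7 : 2 * (r + 1) * (s₃ - 4) = 2 * (r + 1) * s₃ - 8 * (r + 1) := by ring
  -- first closed arm
  have g1 := i12
  have g2 : 2 * (r + 1) * s₂ + y₂ <
      2 * (r + 1) * (s₁ + 4) + ((k₁ - 1) * (μ * w) - (μ * w) / 2) := by omega
  have g3 : 2 * (r + 1) * (s₃ - 4) + ((k₃ + 1) * (μ * w) + (μ * w) / 2) <
      2 * (r + 1) * s₂ + y₂ := by omega
  have g4 : 2 * (r + 1) * s₂ + y₂ <
      2 * (r + 1) * (s₃ - 4 + 4) + ((k₃ - 1) * (μ * w) - (μ * w) / 2) := by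
    rw [sub_add_cancel]
    exact i23
  -- second closed arm
  have q1 : 2 * (r + 1) * s₁ + ((k₁ + 1) * (μ * w) + (μ * w) / 2) <
      2 * (r + 1) * s₄ + y₄ := by omega
  have q2 := i41
  have q3 := i34
  have q4 : 2 * (r + 1) * s₄ + y₄ <
      2 * (r + 1) * (s₃ + 4) + ((k₃ - 1) * (μ * w) - (μ * w) / 2) := by omega
  have hb4 : (s₃ - 4) % 4 = s₃ % 4 := by omega
  obtain ⟨v₂, hv₂, V₂, hV₂, hvV₂, k₂, hk₂0, hk₂, ht₂⟩ := fine_cell (a := s₁) (b := s₃ - 4)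
    hw hw5 hB hμ rfl hrW hR hk₁ hk₃ hy₂ (by omega) rfl hb4 g1 g2 g3 g4 hbad b2
  obtain ⟨v₄, hv₄, V₄, hV₄, hvV₄, k₄, hk₄0, hk₄, ht₄⟩ := fine_cell (a := s₁) (b := s₃)
    hw hw5 hB hμ rfl hrW hR hk₁ hk₃ hy₄ (by omega) rfl rfl q1 q2 q3 q4 hbad b4
  have f₂ := fine_far (L := L) hw hw5 hB hμ rfl hrW hr hk₁ hk₃ hy₂ rfl hb4 g1 g2 g3 g4 hk₂
  have f₄ := fine_far (L := L) hw hw5 hB hμ rfl hrW hr hk₁ hk₃ hy₄ rfl rfl q1 q2 q3 q4 hk₄
  have c₂ := is10_abs hw0 hk₂ (show |y₂| ≤ r + 1 - 100 * (μ * w) by omega)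
  have c₄ := is10_abs hw0 hk₄ (show |y₄| ≤ r + 1 - 100 * (μ * w) by omega)
  have n₂ : |k₂| + 1 < μ * Mc + μ / 2 := by
    have h1 : (|k₂| + 2) * w < (μ * Mc + μ / 2 + 1) * w := by
      have : (|k₂| + 2) * w = |k₂| * w + 2 * w := by ring
      omega
    have h2 := lt_of_mul_lt_mul_right h1 hw0.le
    omega
  have n₄ : |k₄| + 1 < μ * Mc + μ / 2 := by
    have h1 : (|k₄| + 2) * w < (μ * Mc + μ / 2 + 1) * w := by
      have : (|k₄| + 2) * w = |k₄| * w + 2 * w := by ring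
      omega
    have h2 := lt_of_mul_lt_mul_right h1 hw0.le
    omega
  refine ⟨s₂, k₂, s₄, k₄, ⟨n₂, n₄⟩, ?_⟩
  rintro η ⟨hcirc, hcor₂, hcor₄⟩
  obtain ⟨u₂, hu₂, hc₂⟩ := land_in (c := false) hw hw5 hr hR n₂ hB2 f₂ hC2c hC2i hC2e hV₂ ht₂ hvV₂
    (end_nb (by omega) hv₂) hG hcirc hcor₂
  obtain ⟨u₄, hu₄, hc₄⟩ := land_in (c := false) hw hw5 hr hR n₄ hB2 f₄ hC2c hC2i hC2e hV₄ ht₄ hvV₄
    (end_nb (by omega) hv₄) hG hcirc hcor₄
  obtain ⟨x₁, hx₁, -, z₁, hz₁, -, m₁⟩ := arm_keep (c := false) (B := B2 (μ * w) Mc s₁ k₁ s₃ k₃)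
    (G := G) (η := η) (by omega) (by omega) (by omega) (Or.inl rfl)
    (show ib (μ * w) Mc s₁ k₁ ⊆ B2 (μ * w) Mc s₁ k₁ s₃ k₃ from Set.subset_union_left) a1
  obtain ⟨x₃, hx₃, -, z₃, hz₃, -, m₃⟩ := arm_keep (c := false) (B := B2 (μ * w) Mc s₁ k₁ s₃ k₃)
    (G := G) (η := η) (by omega) (by omega) (by omega) (Or.inr rfl)
    (show ib (μ * w) Mc s₃ k₃ ⊆ B2 (μ * w) Mc s₁ k₁ s₃ k₃ from Set.subset_union_right) a3
  have r1 : Mc * (μ * w) - (μ * w) / 2 = r - μ * w + 1 := by omega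
  have r2 : (μ * Mc + μ / 2) * w - w / 2 = r - w + 1 := by omega
  rw [r1] at hx₁ hx₃
  rw [r2] at hu₂ hu₄
  have d₂ := abs_le.1 hk₂
  have d₄ := abs_le.1 hk₄
  exact E2i_of (e₂ := e₂) (e₄ := e₄) hμ2 hμ1 hMc hw hw5 hr hk₁ hk₃ ⟨hk₂0, by omega⟩
    ⟨hk₄0, by omega⟩ he
    (by omega) (by omega) (by omega) (by omega)
    ⟨x₁, hx₁, z₁, hz₁, m₁⟩ ⟨x₃, hx₃, z₃, hz₃, m₃⟩ ⟨u₂, hu₂, v₂, hv₂, hc₂⟩ ⟨u₄, hu₄, v₄, hv₄, hc₄⟩

end Lat

end SC
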