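import Pool.Agent.Lib_MP_e0a489.IS7

/-!
# MP_e0a489, inner separation 11: inclusions, dependence, independence
-/

set_option autoImplicit false

namespace SC

open Classical

/-- `A` does not depend on `G`, `B` depends only on `G`: conditional probability of `A ∧ B` (`av_mul_left`, `cpr_eq_pr`;
`ind (A ∧ B) = ind A * ind B`). -/
theorem cpr_and_indep {G : Finset Pt} {A B : Cfg → Prop} {F : Set Pt} (hA : Dep A F)
    (hF : ∀ v ∈ G, v ∉ F) (hB : Dep B (G : Set Pt)) (ω : Cfg) :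
    cpr G (fun ω => A ω ∧ B ω) ω = ind A ω * pr B := by
  have h1 : ind (fun ω => A ω ∧ B ω) = fun ω => ind A ω * ind B ω := by
    funext ω
    unfold ind
    by_cases h2 : A ω <;> by_cases h3 : B ω <;> simp [h2, h3]
  have h4 := av_mul_left (G := G) (g := ind B) (Dep.ind hA) hF ω
  have h5 : av G (ind B) ω = pr B := cpr_eq_pr hB ω
  unfold cpr
  rw [h1, h4, h5]

/-- splitting according to `B` -/
theorem cpr_split (G : Finset Pt) (A B : Cfg → Prop) (ω : Cfg) :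
    cpr G A ω ≤ cpr G (fun ω => A ω ∧ B ω) ω + cpr G (fun ω => A ω ∧ ¬ B ω) ω := by
  refine le_trans (cpr_mono (B := fun ω => (A ω ∧ B ω) ∨ (A ω ∧ ¬ B ω)) fun ω' _ hA => ?_)
    (cpr_or_le G (fun ω => A ω ∧ B ω) (fun ω => A ω ∧ ¬ B ω) ω)
  by_cases hB : B ω'
  · exact Or.inl ⟨hA, hB⟩
  · exact Or.inr ⟨hA, hB⟩

namespace Lat

variable {L : Lat}

/-- THE LAST PART OF AN ARM.  An arm in `ann r R ∪ Jc c R ∪ B` (`B ⊆ bx r`) from sites of norm `≤ r'` to `Je d R`, `r ≤ r' < R`,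
contains an arm in `ann r' R ∪ Jc c R` from `nb (bx r')` to `Je d R`.  (`Cn.last` with `S = bx r'`: all sites after the last
visit have norm `> r'`.) -/
theorem arm_last {c : Bool} {r r' R d : ℤ} {B X : Set Pt} {ω : Cfg} (hr : 0 ≤ r) (hrr : r ≤ r')
    (hrR : r' < R) (hB : B ⊆ bx r) (hX : X ⊆ bx r')
    (h : L.Arm c (ann r R ∪ Jc c R ∪ B) X (Je d R) ω) :
    L.Arm c (ann r' R ∪ Jc c R) (L.nb (bx r')) (Je d R) ω := by
  obtain ⟨x, hx, y, hy, hxy⟩ := h
  have hyS : y ∉ bx r' := by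
    intro hb
    have hb' : nrm y ≤ r' := hb
    have h1 := Je_nrm (by omega) hy
    omega
  obtain ⟨p, q, -, hpS, ha, hc⟩ := hxy.last (hX hx) hyS
  refine ⟨q, ⟨p, hpS, ha⟩, y, hy, hc.mono ?_⟩
  rintro v ⟨⟨hv1, hv2⟩, hv3⟩
  have hv3' : r' < nrm v := not_le.1 hv3
  refine ⟨?_, hv2⟩
  rcases hv1 with (hv1 | hv1) | hv1
  · exact Or.inl ⟨hv3', hv1.2⟩
  · exact Or.inr hv1
  · have hv4 : nrm v ≤ r := hB hv1
    omega

private theorem is11_empty {c : Bool} {r r' R d : ℤ} {X : Set Pt} {ω : Cfg} (hr : 0 ≤ r)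
    (hrr : r ≤ r') (hrR : r' < R) (hX : X ⊆ bx r')
    (h : L.Arm c (ann r R ∪ Jc c R) X (Je d R) ω) :
    L.Arm c (ann r' R ∪ Jc c R) (L.nb (bx r')) (Je d R) ω := by
  refine arm_last (B := ∅) hr hrr hrR (Set.empty_subset _) hX ?_
  rw [Set.union_empty]
  exact h

/-- `arm_last` for the four arms (the sites of `nb (bx r)` have norm `≤ r + 1 ≤ r'`) -/
theorem Sout_mono {r r' R : ℤ} {ω : Cfg} (hr : 0 ≤ r) (hrr : r + 1 ≤ r') (hrR : r' < R)
    (h : L.Sout r R ω) : L.Sout r' R ω := by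
  have hX : L.nb (bx r) ⊆ bx r' := by
    rintro v ⟨u, hu, ha⟩
    have hu' : nrm u ≤ r := hu
    have h1 := (nrm_adj4 ha).2
    show nrm v ≤ r'
    omega
  intro c
  exact ⟨is11_empty hr (by omega) hrR hX (h c).1, is11_empty hr (by omega) hrR hX (h c).2⟩

/-- `arm_last` for the four arms; the ring sites have norm `r + 1 ≤ 2 r` (`rc_nrm`), the blocks are in `bx r` -/
theorem E1i_Sout {r w M R s₁ k₁ s₃ k₃ : ℤ} {ω : Cfg} (hw : w % 2 = 1) (hw5 : 5 ≤ w)
    (hr : r = M * w + w / 2) (hr1 : 1 ≤ r) (hR : 8 * r ≤ R)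
    (h : L.E1i r w M R s₁ k₁ s₃ k₃ ω) : L.Sout (2 * r) R ω := by
  obtain ⟨⟨c1, c3⟩, a1, a3, s₂, y₂, s₄, y₄, e₂, e₄, he, -, -, -, -, -, -, b2, b4⟩ := h
  have hib : ∀ s k : ℤ, CellI w (r + 1) k → ib w M s k ⊆ bx r := by
    intro s k hk v hv
    rw [hr]
    refine (bx_blk hw (by omega) v).2 ⟨rt s (M, k), ?_, hv⟩
    rw [nrm_rt]
    have hkM : |k| ≤ M := by
      by_contra hcon
      have h5 : M + 1 ≤ |k| := by omega
      have h6 : (M + 1) * w ≤ |k| * w := mul_le_mul_of_nonneg_right h5 (by omega)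
      have h7 : (M + 1) * w = M * w + w := by ring
      have h8 := hk.2
      omega
    have hM : 0 ≤ M := le_trans (abs_nonneg k) hkM
    unfold nrm
    rw [abs_of_nonneg hM]
    exact max_le le_rfl hkM
  have hb2 : bx r ⊆ bx (2 * r) := by
    intro v hv
    have hv' : nrm v ≤ r := hv
    show nrm v ≤ 2 * r
    omega
  have hrc : ∀ i : ℤ, ({rc (r + 1) i} : Set Pt) ⊆ bx (2 * r) := by
    rintro i v rfl
    show nrm (rc (r + 1) i) ≤ 2 * r
    rw [rc_nrm (by omega)]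
    omega
  have A : ∀ d s k : ℤ, CellI w (r + 1) k →
      L.Arm true (ann r R ∪ Jc true R ∪ ib w M s k) (ib w M s k ∩ rng (M * w - w / 2))
        (Je d R) ω →
      L.Arm true (ann (2 * r) R ∪ Jc true R) (L.nb (bx (2 * r))) (Je d R) ω := by
    intro d s k hk ha
    exact arm_last (by omega) (by omega) (by omega) (hib s k hk)
      (fun v hv => hb2 (hib s k hk hv.1)) ha
  have B : ∀ d i : ℤ, L.Arm false (ann r R ∪ Jc false R) {rc (r + 1) i} (Je d R) ω →
      L.Arm false (ann (2 * r) R ∪ Jc false R) (L.nb (bx (2 * r))) (Je d R) ω := by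
    intro d i hb
    exact is11_empty (by omega) (by omega) (by omega) (hrc i) hb
  intro c
  cases c with
  | true => exact ⟨A 0 _ _ c1 a1, A 2 _ _ c3 a3⟩
  | false =>
    rcases he with ⟨h2, h4⟩ | ⟨h2, h4⟩
    · rw [h2] at b2
      rw [h4] at b4
      exact ⟨B 1 _ b2, B 3 _ b4⟩
    · rw [h2] at b2
      rw [h4] at b4
      exact ⟨B 1 _ b4, B 3 _ b2⟩

/-- `Arm.dep`; `J_nrm` -/
theorem Sout.dep_ring (L : Lat) {r R : ℤ} (hR : 0 ≤ R) (hrR : r ≤ R) :
    Dep (L.Sout r R) {v | r < nrm v} := by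
  have key : ∀ (c : Bool) (d : ℤ),
      Dep (L.Arm c (ann r R ∪ Jc c R) (L.nb (bx r)) (Je d R)) {v | r < nrm v} := by
    intro c d
    refine (Arm.dep L c _ _ _).mono ?_
    rintro v (hv | hv)
    · exact hv.1
    · have h1 : R < nrm v := by
        rcases hv with hv | hv
        · exact (J_nrm hR hv).1
        · exact (J_nrm hR hv).1
      show r < nrm v
      omega
  intro ω ω' hw
  refine propext ⟨fun H c => ?_, fun H c => ?_⟩
  · have h1 := key c (dc c) ω ω' hw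
    have h2 := key c (dc c + 2) ω ω' hw
    rw [← h1, ← h2]
    exact H c
  · have h1 := key c (dc c) ω ω' hw
    have h2 := key c (dc c + 2) ω ω' hw
    rw [h1, h2]
    exact H c

end Lat

end SC
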