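import Pool.Agent.Lib_MP_e0a489.SH3

/-!
# MP_e0a489, shared by OS and IS, 10: choice of the parameters, resampling with a choice
-/

set_option autoImplicit false

namespace SC

open Classical

private theorem sh10_small (A t c δ : ℝ) (hc : 0 < c) (hδ : 0 < δ) (n₀ : ℤ) :
    ∃ n : ℤ, n₀ ≤ n ∧ A * (t / n) ^ c ≤ δ := by
  have h1 : Filter.Tendsto (fun n : ℕ => t / (n : ℝ)) Filter.atTop (nhds 0) :=
    tendsto_const_div_atTop_nhds_zero_nat t
  have h2 : Filter.Tendsto (fun n : ℕ => A * (t / (n : ℝ)) ^ c) Filter.atTop (nhds (A * 0 ^ c)) :=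
    (((Real.continuousAt_rpow_const 0 c (Or.inr hc.le)).tendsto).comp h1).const_mul A
  rw [Real.zero_rpow hc.ne', mul_zero] at h2
  have h3 : ∀ᶠ n : ℕ in Filter.atTop, A * (t / (n : ℝ)) ^ c < δ := h2.eventually_lt_const hδ
  obtain ⟨n, hn1, hn2⟩ := (h3.and (Filter.eventually_ge_atTop n₀.toNat)).exists
  refine ⟨(n : ℤ), by omega, ?_⟩
  have h4 : (((n : ℤ) : ℝ)) = (n : ℝ) := by push_cast; rfl
  rw [h4]
  exact hn1.le

/-- COARSE SCALE.  `bad_pr` with `ρ = 4 B w`, `ℓ = K B w`, `β = B w`, `a = 12 w`: `ρ / ℓ = 4 / K`, `m / β ≤ 2 K + 1 ≤ 3 K`,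
`a / β = 12 / B`.  So the probability is at most `C (4 / K) ^ c + 3 C K (12 / B) ^ c`: choose first `K`, then `B`
(`Real.rpow` tends to zero: e.g. `tendsto_rpow_neg_atTop`). -/
theorem bad_small1 (κ : ℕ → ℝ) (ε : ℝ) (hε : 0 < ε) : ∃ K B : ℤ, 4 ≤ K ∧ 48 ≤ B ∧
    ∀ L : Lat, RSW L κ → ∀ (o : Bool) (D : Set Pt) (m w : ℤ), D.Finite → 1 ≤ w → B * w ≤ m →
      m ≤ (2 * K * B + 1) * w →
      pr (L.BadW o D m (4 * B * w) (K * B * w) (B * w) (12 * w)) ≤ ε := by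
  obtain ⟨C, c, hC, hc, -, H⟩ := bad_pr κ
  obtain ⟨K, hK, hK'⟩ := sh10_small C 4 c (ε / 2) hc (by positivity) 4
  obtain ⟨B, hB, hB'⟩ := sh10_small (C * (2 * K + 1)) 12 c (ε / 2) hc (by positivity) 48
  refine ⟨K, B, hK, hB, fun L hL o D m w hD hw h1 h2 => ?_⟩
  have hBw : 48 * 1 ≤ B * w := mul_le_mul hB hw (by norm_num) (by omega)
  have hw' : (0 : ℝ) < w := by exact_mod_cast (by omega : 0 < w)
  have hBp : (0 : ℝ) < B := by exact_mod_cast (by omega : 0 < B)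
  have hKp : (0 : ℝ) < K := by exact_mod_cast (by omega : 0 < K)
  refine (H L hL o D m (4 * B * w) (K * B * w) (B * w) (12 * w) hD (by nlinarith) ?_ (by omega)
    ?_ h1).trans ?_
  · have : 4 * (B * w) ≤ K * (B * w) := mul_le_mul_of_nonneg_right hK (by omega)
    calc 4 * B * w = 4 * (B * w) := by ring
      _ ≤ K * (B * w) := this
      _ = K * B * w := by ring
  · exact mul_le_mul_of_nonneg_right (by omega) (by omega)
  · have e1 : (((4 * B * w : ℤ) : ℝ) / ((K * B * w : ℤ) : ℝ)) = 4 / K := by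
      push_cast
      field_simp
    have e2 : (((12 * w : ℤ) : ℝ) / ((B * w : ℤ) : ℝ)) = 12 / B := by
      push_cast
      field_simp
    have e3 : ((m : ℝ) / ((B * w : ℤ) : ℝ)) ≤ 2 * K + 1 := by
      have h3 : (m : ℝ) ≤ (2 * K * B + 1) * w := by exact_mod_cast h2
      have h4 : (1 : ℝ) ≤ B := by exact_mod_cast (by omega : 1 ≤ B)
      push_cast
      rw [div_le_iff₀ (by positivity)]
      nlinarith [mul_le_mul_of_nonneg_right h4 hw'.le]
    rw [e1, e2]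
    have e4 : (0 : ℝ) ≤ (12 / (B : ℝ)) ^ c := by positivity
    have e5 : C * ((m : ℝ) / ((B * w : ℤ) : ℝ)) * (12 / (B : ℝ)) ^ c ≤
        C * (2 * K + 1) * (12 / (B : ℝ)) ^ c :=
      mul_le_mul_of_nonneg_right (mul_le_mul_of_nonneg_left e3 hC.le) e4
    linarith

/-- FINE SCALE (no corner events: `D = ∅`).  `bad_pr` with `ρ = 1`, `ℓ`, `β = B w`, `a = 12 w`: the probability is at most
`C (1 / ℓ) ^ c + 5 C (N + 1) (12 / B) ^ c` (`m / β ≤ (N + 1) (4 B + 1) / B ≤ 5 (N + 1)`): choose `ℓ` and `B` large. -/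
theorem bad_small2 (κ : ℕ → ℝ) (ε : ℝ) (hε : 0 < ε) (N : ℤ) (hN : 1 ≤ N) : ∃ ℓ B : ℤ, 1 ≤ ℓ ∧
    48 ≤ B ∧ ∀ L : Lat, RSW L κ → ∀ (o : Bool) (m w : ℤ), 1 ≤ w → B * w ≤ m →
      m ≤ (N + 1) * (4 * B + 1) * w →
      pr (L.BadW o ∅ m 1 ℓ (B * w) (12 * w)) ≤ ε := by
  obtain ⟨C, c, hC, hc, -, H⟩ := bad_pr κ
  obtain ⟨K, hK, hK'⟩ := sh10_small C 1 c (ε / 2) hc (by positivity) 1
  obtain ⟨B, hB, hB'⟩ := sh10_small (C * (5 * (N + 1))) 12 c (ε / 2) hc (by positivity) 48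
  refine ⟨K, B, hK, hB, fun L hL o m w hw h1 h2 => ?_⟩
  have hBw : 48 * 1 ≤ B * w := mul_le_mul hB hw (by norm_num) (by omega)
  have hw' : (0 : ℝ) < w := by exact_mod_cast (by omega : 0 < w)
  have hBp : (0 : ℝ) < B := by exact_mod_cast (by omega : 0 < B)
  have hNp : (0 : ℝ) < N := by exact_mod_cast (by omega : 0 < N)
  refine (H L hL o ∅ m 1 K (B * w) (12 * w) Set.finite_empty le_rfl hK (by omega) ?_ h1).trans ?_
  · exact mul_le_mul_of_nonneg_right (by omega) (by omega)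
  · have e1 : (((1 : ℤ) : ℝ) / (K : ℝ)) = 1 / K := by
      push_cast
      rfl
    have e2 : (((12 * w : ℤ) : ℝ) / ((B * w : ℤ) : ℝ)) = 12 / B := by
      push_cast
      field_simp
    have e3 : ((m : ℝ) / ((B * w : ℤ) : ℝ)) ≤ 5 * (N + 1) := by
      have h3 : (m : ℝ) ≤ (N + 1) * (4 * B + 1) * w := by exact_mod_cast h2
      have h4 : (1 : ℝ) ≤ B := by exact_mod_cast (by omega : 1 ≤ B)
      push_cast
      rw [div_le_iff₀ (by positivity)]
      have h5 : ((N : ℝ) + 1) * (4 * B + 1) * w ≤ (N + 1) * (5 * B) * w := by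
        refine mul_le_mul_of_nonneg_right (mul_le_mul_of_nonneg_left ?_ (by positivity)) hw'.le
        linarith
      calc (m : ℝ) ≤ (N + 1) * (4 * B + 1) * w := h3
        _ ≤ (N + 1) * (5 * B) * w := h5
        _ = 5 * (N + 1) * (B * w) := by ring
    rw [e1, e2]
    have e4 : (0 : ℝ) ≤ (12 / (B : ℝ)) ^ c := by positivity
    have e5 : C * ((m : ℝ) / ((B * w : ℤ) : ℝ)) * (12 / (B : ℝ)) ^ c ≤
        C * (5 * (N + 1)) * (12 / (B : ℝ)) ^ c :=
      mul_le_mul_of_nonneg_right (mul_le_mul_of_nonneg_left e3 hC.le) e4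
    linarith

/-- RESAMPLING WITH A CHOICE.  `resample` with `F ω = F (t ω)`, where `t ω` is chosen for `ω ∈ E`. -/
theorem resample_ex {R : Cfg → Set Pt} (hR : Stop R) {G : Finset Pt} {ι τ : Type} {I : Finset ι}
    {E : Cfg → Prop} {F : τ → Cfg → Prop} {P : τ → Prop} {E' : ι → Cfg → Prop} {p : ℝ}
    (hp : ∀ t, P t → p ≤ pr (F t)) (hF : ∀ t, P t → Dep (F t) (G : Set Pt))
    (h : ∀ ω, E ω → ∃ t, P t ∧ ∀ η, F t η → ∃ i ∈ I, E' i (mix G R ω η)) (ω : Cfg) :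
    p * cpr G E ω ≤ ∑ i ∈ I, cpr G (E' i) ω := by
  by_cases hne : ∃ ω, E ω
  · obtain ⟨ω₀, hω₀⟩ := hne
    obtain ⟨t₀, -⟩ := h ω₀ hω₀
    haveI : Nonempty τ := ⟨t₀⟩
    choose! t ht1 ht2 using h
    exact resample hR (F := fun ω => F (t ω)) (fun ω hE => hp _ (ht1 ω hE))
      (fun ω hE => hF _ (ht1 ω hE)) (fun ω η hE hη => ht2 ω hE η hη) ω
  · push_neg at hne
    exact resample hR (F := fun _ _ => False) (fun ω hE => absurd hE (hne ω))
      (fun ω hE => absurd hE (hne ω)) (fun ω η hE _ => absurd hE (hne ω)) ω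

end SC
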