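import Pool.Agent.Lib_MP_e0a489.IS10
import Pool.Agent.Lib_MP_e0a489.IS11
import Pool.Agent.Lib_MP_e0a489.SH10

/-!
# MP_e0a489, inner separation 12: the two resampling inequalities
-/

set_option autoImplicit false

namespace SC

open Classical

variable {L : Lat} {κ : ℕ → ℝ}

private theorem is12_sub {w M k s r : ℤ} {G : Finset Pt} (hw : w % 2 = 1) (hw0 : 0 < w)
    (hr : r = M * w + w / 2) (hk : |k| < M)
    (hG : ∀ v, r - w < nrm v → nrm v ≤ r + w → v ∈ G) :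
    ib w M s k ∪ ob w M s k ⊆ (G : Set Pt) := by
  rintro v (hv | hv)
  · have h1 := ib_nrm hw hw0 hr hk hv
    exact Finset.mem_coe.2 (hG v h1.1 (by omega))
  · have h1 := ob_nrm hw hw0 hr hk hv
    exact Finset.mem_coe.2 (hG v (by omega) h1.2)

private theorem is12_ann {w r : ℤ} {G : Finset Pt} (hw0 : 0 < w)
    (hG : ∀ v, r - w < nrm v → nrm v ≤ r + w → v ∈ G) : ann r (r + w) ⊆ (G : Set Pt) := by
  rintro v ⟨h1, h2⟩
  exact Finset.mem_coe.2 (hG v (by omega) h2)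

private theorem is12_cell {w M k r : ℤ} (hw0 : 0 < w) (hr : r = M * w + w / 2)
    (h : CellI w (r + 1) k) : |k| < M := by
  have h1 := h.2
  by_contra hcon
  have h2 : M * w ≤ |k| * w := mul_le_mul_of_nonneg_right (by omega) hw0.le
  omega

/-- FIRST STEP.  `resample_ex` with the stopping set `Rev false (Di r R ∅) (Si true R ∅)` (`Rev_stop`), `τ = ℤ × ℤ × ℤ × ℤ`,
`F t = Fre true r (r + w) w M ..`, `P t` = both cells admissible; `fre_pr`, `Fre.dep` (`ib_nrm`, `ob_nrm`), `step1_in`. -/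
theorem prob1_in (h : RSW L κ) {w M K B r R : ℤ} {G : Finset Pt} (hw : w % 2 = 1)
    (hw5 : 5 ≤ w) (hK : 4 ≤ K) (hB : 48 ≤ B) (hM : M = 2 * K * B) (hr : r = M * w + w / 2)
    (hR : 8 * r ≤ R) (hG : ∀ v, r - w < nrm v → nrm v ≤ r + w → v ∈ G) (ω : Cfg) :
    κ (4 * (M.toNat + 3)) ^ 4 * κ 3 ^ 2 *
      cpr G (fun ω => L.Sout r R ω ∧
        ¬ L.BadW true (ann r (2 * r)) (r + 1) (4 * B * w) (K * B * w) (B * w) (12 * w) ω) ω ≤
      ∑ q ∈ Lat.cellsI M, cpr G (L.E1i r w M R q.1 q.2.1 q.2.2.1 q.2.2.2) ω := by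
  have hw0 : 0 < w := by omega
  have hM1 : 1 ≤ M := by
    rw [hM]
    nlinarith
  have hr0 : 0 ≤ r := by
    have h1 : 0 ≤ M * w := mul_nonneg (by omega) hw0.le
    omega
  exact resample_ex (L.Rev_stop false (Di r R ∅) (Si true R ∅)) (τ := ℤ × ℤ × ℤ × ℤ)
    (F := fun t => L.Fre true r (r + w) w M t.1 t.2.1 t.2.2.1 t.2.2.2)
    (P := fun t => CellI w (r + 1) t.2.1 ∧ CellI w (r + 1) t.2.2.2)
    (E' := fun q : ℤ × ℤ × ℤ × ℤ => L.E1i r w M R q.1 q.2.1 q.2.2.1 q.2.2.2)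
    (fun t _ => fre_pr h true hw hw5 hM1 hr0 rfl (by omega))
    (fun t ht => Lat.Fre.dep L true hr0 hw hw0 (is12_ann hw0 hG)
      (is12_sub hw hw0 hr (is12_cell hw0 hr ht.1) hG)
      (is12_sub hw hw0 hr (is12_cell hw0 hr ht.2) hG))
    (fun ω hω => by
      obtain ⟨s, k, s', k', hP, hη⟩ := Lat.step1_in hw hw5 hK hB hM hr hR hG hω.2 hω.1
      exact ⟨(s, k, s', k'), hP, hη⟩) ω

/-- SECOND STEP.  The same with `step2_in`. -/
theorem prob2_in (h : RSW L κ) {μ Mc w B r R s₁ k₁ s₃ k₃ ℓ : ℤ} {G : Finset Pt}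
    (hw : w % 2 = 1) (hw5 : 5 ≤ w) (hB : 48 ≤ B) (hμ : μ = 4 * B + 1) (hMc : 0 < Mc)
    (hr : r = (μ * Mc + μ / 2) * w + w / 2) (hR : 8 * r ≤ R)
    (hG : ∀ v, r - w < nrm v → nrm v ≤ r + w → v ∈ G) (ω : Cfg) :
    κ (4 * ((μ * Mc + μ / 2).toNat + 3)) ^ 4 * κ 3 ^ 2 *
      cpr G (fun ω => L.E1i r (μ * w) Mc R s₁ k₁ s₃ k₃ ω ∧
        ¬ L.BadW true ∅ (r + 1) 1 ℓ (B * w) (12 * w) ω) ω ≤
      ∑ q ∈ LamI μ Mc, cpr G (L.E2i w μ Mc R q.1 q.2.1 q.2.2.1 q.2.2.2) ω := by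
  have hw0 : 0 < w := by omega
  have hM1 : 1 ≤ μ * Mc + μ / 2 := by
    have h1 : 0 ≤ μ * Mc := mul_nonneg (by omega) hMc.le
    omega
  have hr0 : 0 ≤ r := by
    have h1 : 0 ≤ (μ * Mc + μ / 2) * w := mul_nonneg (by omega) hw0.le
    omega
  exact resample_ex (L.Rev_stop true (Di r R (Lat.B2 (μ * w) Mc s₁ k₁ s₃ k₃))
      (Si false R (Lat.B2 (μ * w) Mc s₁ k₁ s₃ k₃))) (τ := ℤ × ℤ × ℤ × ℤ)
    (F := fun t => L.Fre false r (r + w) w (μ * Mc + μ / 2) t.1 t.2.1 t.2.2.1 t.2.2.2)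
    (P := fun t => |t.2.1| + 1 < μ * Mc + μ / 2 ∧ |t.2.2.2| + 1 < μ * Mc + μ / 2)
    (E' := fun q : Bool × (Fin 4 → ℤ) × (Fin 4 → ℤ) × (Fin 4 → ℤ) =>
      L.E2i w μ Mc R q.1 q.2.1 q.2.2.1 q.2.2.2)
    (fun t _ => fre_pr h false hw hw5 hM1 hr0 rfl (by omega))
    (fun t ht => Lat.Fre.dep L false hr0 hw hw0 (is12_ann hw0 hG)
      (is12_sub hw hw0 hr (by have := ht.1; omega) hG)
      (is12_sub hw hw0 hr (by have := ht.2; omega) hG))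
    (fun ω hω => by
      obtain ⟨s, k, s', k', hP, hη⟩ := Lat.step2_in hw hw5 hB hμ hMc hr hR hG hω.2 hω.1
      exact ⟨(s, k, s', k'), hP, hη⟩) ω

/-- ONE STEP with the bad event: `E ⊆ A`, `A` does not depend on `G`, the bad event depends only on `G`.
(`cpr_split`, `cpr_mono`, `cpr_and_indep`, divide by `p`.) -/
theorem one_step {G : Finset Pt} {ι : Type} {I : Finset ι} {E A Bad : Cfg → Prop}
    {E' : ι → Cfg → Prop} {F : Set Pt} {p δ : ℝ} (hp : 0 < p) (hEA : ∀ ω, E ω → A ω)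
    (hA : Dep A F) (hF : ∀ v ∈ G, v ∉ F) (hB : Dep Bad (G : Set Pt)) (hδ : pr Bad ≤ δ)
    (ω : Cfg) (h : p * cpr G (fun ω => E ω ∧ ¬ Bad ω) ω ≤ ∑ i ∈ I, cpr G (E' i) ω) :
    cpr G E ω ≤ δ * ind A ω + p⁻¹ * ∑ i ∈ I, cpr G (E' i) ω := by
  have h1 := cpr_split G E Bad ω
  have h2 : cpr G (fun ω => E ω ∧ Bad ω) ω ≤ cpr G (fun ω => A ω ∧ Bad ω) ω :=
    cpr_mono fun ω' _ h3 => ⟨hEA ω' h3.1, h3.2⟩
  rw [cpr_and_indep hA hF hB ω] at h2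
  have h3 : 0 ≤ ind A ω := by
    unfold ind
    split_ifs <;> norm_num
  have h4 : ind A ω * pr Bad ≤ δ * ind A ω := by
    rw [mul_comm δ]
    exact mul_le_mul_of_nonneg_left hδ h3
  have h5 : cpr G (fun ω => E ω ∧ ¬ Bad ω) ω ≤ p⁻¹ * ∑ i ∈ I, cpr G (E' i) ω := by
    rw [inv_mul_eq_div, le_div_iff₀ hp, mul_comm]
    exact h
  linarith

end SC
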