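import Pool.Agent.Lib_MP_e0a489.RC2
import Pool.Agent.Lib_MP_e0a489.TE3

/-!
# MP_e0a489, inner separation 2: inner blocks, exactness

`m = r + 1`; the blocks `ib w M s k` with `r = M w + w / 2` are inside `bx r`, next to the ring `m`.
-/

set_option autoImplicit false

namespace SC

open Classical

private theorem is2_lin (s : ℤ) (u v : Pt) : rt s (u + v) = rt s u + rt s v := by
  have h : ∀ n : ℤ, (n = 0 ∨ n = 1 ∨ n = 2 ∨ n = 3) → rt n (u + v) = rt n u + rt n v := by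
    rintro n (rfl | rfl | rfl | rfl)
    · rw [rt_zero, rt_zero, rt_zero]
    · rw [rt_one, rt_one, rt_one]
      ext
      · show -(u.2 + v.2) = -u.2 + -v.2
        ring
      · rfl
    · rw [rt_two, rt_two, rt_two]
      ext
      · show -(u.1 + v.1) = -u.1 + -v.1
        ring
      · show -(u.2 + v.2) = -u.2 + -v.2
        ring
    · rw [rt_three, rt_three, rt_three]
      ext
      · rfl
      · show -(u.1 + v.1) = -u.1 + -v.1
        ring
  have e : rt s = rt (s % 4) := rt_mod (by omega)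
  rw [e]
  exact h _ (by omega)

private theorem is2_sub (s : ℤ) (u v : Pt) : rt s u - rt s v = rt s (u - v) := by
  have h := is2_lin s (u - v) v
  rw [sub_add_cancel] at h
  rw [h, add_sub_cancel_right]

private theorem is2_y {w M k y : ℤ} (hw : w % 2 = 1) (hw0 : 0 < w) (hk : |k| < M)
    (h1 : k * w - w / 2 ≤ y) (h2 : y ≤ k * w + w / 2) : |y| + 1 ≤ M * w - w / 2 := by
  have h3 := abs_lt.1 hk
  have h4 : k * w ≤ (M - 1) * w := mul_le_mul_of_nonneg_right (by omega) hw0.le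
  have h5 : -(M - 1) * w ≤ k * w := mul_le_mul_of_nonneg_right (by omega) hw0.le
  have h6 : (M - 1) * w = M * w - w := by ring
  have h7 : -(M - 1) * w = w - M * w := by ring
  rw [h6] at h4
  rw [h7] at h5
  rcases abs_cases y with ⟨a, _⟩ | ⟨a, _⟩ <;> rw [a] <;> omega

private theorem is2_nrm {a y : ℤ} (h : |y| ≤ a) : nrm (a, y) = a := by
  have h0 : 0 ≤ a := le_trans (abs_nonneg y) h
  show max |a| |y| = a
  rw [abs_of_nonneg h0]
  exact max_eq_left h

/-- sites of an inner block: `rt s (x, y)` with `r - w < x ≤ r`, `|y - k w| ≤ w / 2` -/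
theorem ib_mem {w M s k r : ℤ} (hw : w % 2 = 1) (hw0 : 0 < w) (hr : r = M * w + w / 2) {v : Pt} :
    v ∈ ib w M s k ↔ ∃ x y : ℤ, r - w < x ∧ x ≤ r ∧ k * w - w / 2 ≤ y ∧ y ≤ k * w + w / 2 ∧
      v = rt s (x, y) := by
  rw [ib_eq hw hw0]
  constructor
  · rintro ⟨⟨x, y⟩, ⟨⟨h1, h2⟩, h3, h4⟩, rfl⟩
    simp only at h1 h2 h3 h4
    exact ⟨x, y, by omega, by omega, h3, h4, rfl⟩
  · rintro ⟨x, y, h1, h2, h3, h4, rfl⟩
    exact ⟨(x, y), ⟨⟨by show M * w - w / 2 ≤ x; omega, by show x ≤ M * w + w / 2; omega⟩,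
      h3, h4⟩, rfl⟩

theorem ob_mem {w M s k r : ℤ} (hw : w % 2 = 1) (hw0 : 0 < w) (hr : r = M * w + w / 2) {v : Pt} :
    v ∈ ob w M s k ↔ ∃ x y : ℤ, r < x ∧ x ≤ r + w ∧ k * w - w / 2 ≤ y ∧ y ≤ k * w + w / 2 ∧
      v = rt s (x, y) := by
  rw [ob_eq hw hw0]
  constructor
  · rintro ⟨⟨x, y⟩, ⟨⟨h1, h2⟩, h3, h4⟩, rfl⟩
    simp only at h1 h2 h3 h4
    exact ⟨x, y, by omega, by omega, h3, h4, rfl⟩
  · rintro ⟨x, y, h1, h2, h3, h4, rfl⟩
    exact ⟨(x, y), ⟨⟨by show M * w + w / 2 + 1 ≤ x; omega,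
      by show x ≤ M * w + w / 2 + w; omega⟩, h3, h4⟩, rfl⟩

/-- norms: `r - w < nrm v ≤ r` in an inner block with `|k| < M` -/
theorem ib_nrm {w M s k r : ℤ} (hw : w % 2 = 1) (hw0 : 0 < w) (hr : r = M * w + w / 2)
    (hk : |k| < M) {v : Pt} (hv : v ∈ ib w M s k) : r - w < nrm v ∧ nrm v ≤ r := by
  obtain ⟨x, y, h1, h2, h3, h4, rfl⟩ := (ib_mem hw hw0 hr).1 hv
  have h5 := is2_y hw hw0 hk h3 h4
  rw [nrm_rt, is2_nrm (by omega)]
  exact ⟨h1, h2⟩

theorem ob_nrm {w M s k r : ℤ} (hw : w % 2 = 1) (hw0 : 0 < w) (hr : r = M * w + w / 2)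
    (hk : |k| < M) {v : Pt} (hv : v ∈ ob w M s k) : r < nrm v ∧ nrm v ≤ r + w := by
  obtain ⟨x, y, h1, h2, h3, h4, rfl⟩ := (ob_mem hw hw0 hr).1 hv
  have h5 := is2_y hw hw0 hk h3 h4
  rw [nrm_rt, is2_nrm (by omega)]
  exact ⟨h1, h2⟩

/-- DISTANCE ON THE SIDES.  Two sites `rt s (x, y)`, `rt s' (x', y')` near the ring `m` (`m - g ≤ x, x' ≤ m`), far from the
corners (`|y|, |y'| ≤ m - 2 g`), on different sides: at distance at least `g`.  (Opposite sides: the first rotated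
coordinates differ by `x + x' ≥ g`.  Adjacent sides, say `s' = s + 1`: in the coordinates of `s` the sites are
`(x, y)` and `(-y', x')`, `x + y' ≥ (m - g) - (m - 2 g)`.) -/
theorem side_far {m g s s' x y x' y' : ℤ} (hg : 0 ≤ g) (hgm : 2 * g ≤ m) (hs : s % 4 ≠ s' % 4)
    (hx : m - g ≤ x) (hx' : m - g ≤ x') (hy : |y| ≤ m - 2 * g) (hy' : |y'| ≤ m - 2 * g) :
    g ≤ nrm (rt s (x, y) - rt s' (x', y')) := by
  have e : rt s' (x', y') = rt s (rt (s' - s) (x', y')) := by
    rw [← rt_add, add_sub_cancel]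
  rw [e, is2_sub, nrm_rt]
  have hy1 := abs_le.1 hy
  have hy1' := abs_le.1 hy'
  have hd : (s' - s) % 4 = 1 ∨ (s' - s) % 4 = 2 ∨ (s' - s) % 4 = 3 := by omega
  rcases hd with h | h | h
  · rw [show rt (s' - s) = rt 1 from rt_mod (by omega), rt_one]
    show g ≤ max |x - -y'| |y - x'|
    exact le_max_of_le_left (le_trans (by omega) (le_abs_self _))
  · rw [show rt (s' - s) = rt 2 from rt_mod (by omega), rt_two]
    show g ≤ max |x - -x'| |y - -y'|
    exact le_max_of_le_left (le_trans (by omega) (le_abs_self _))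
  · rw [show rt (s' - s) = rt 3 from rt_mod (by omega), rt_three]
    show g ≤ max |x - y'| |y - -x'|
    exact le_max_of_le_left (le_trans (by omega) (le_abs_self _))

/-- on the same side the distance is at least the difference of the second coordinates -/
theorem side_near {s s' x y x' y' : ℤ} (hs : s % 4 = s' % 4) :
    |y - y'| ≤ nrm (rt s (x, y) - rt s' (x', y')) := by
  rw [← rt_mod hs, is2_sub, nrm_rt]
  show |y - y'| ≤ max |x - x'| |y - y'|
  exact le_max_right _ _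

namespace Lat

variable {L : Lat}

theorem con_ib {w M s k : ℤ} (hw : w % 2 = 1) (hw0 : 0 < w) : L.Con (ib w M s k) := by
  exact con_rect _ _ _ _

/-- ADDING AN INNER BLOCK to a domain: `exact_add_in` (`ib_eq`, `a = M w - w/2`, `p = k w - w/2`, `q = k w + w/2`).  All neighbours
of the block in `D` are on the ring `r + 1`. -/
theorem exact_ib {w M s k r : ℤ} {D C : Set Pt} (hw : w % 2 = 1) (hw0 : 0 < w)
    (hr : r = M * w + w / 2) (hk : |k| < M) (h : L.Exact D C) (hring : rng (r + 1) ⊆ D)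
    (h1 : ∀ v ∈ ib w M s k, ∀ u ∈ D, L.Adj u v → u ∈ rng (r + 1))
    (h2 : ∀ v ∈ ib w M s k, v ∉ D) : L.Exact (D ∪ ib w M s k) C := by
  have h3 := is2_y (y := k * w - w / 2) hw hw0 hk le_rfl (by omega)
  have h4 := is2_y (y := k * w + w / 2) hw hw0 hk (by omega) le_rfl
  have h3' := abs_nonneg (k * w - w / 2)
  have h5 := neg_abs_le (k * w - w / 2)
  have h6 := le_abs_self (k * w + w / 2)
  have e : ib w M s k = rt s '' rect (M * w - w / 2) (r + 1 - 1) (k * w - w / 2)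
      (k * w + w / 2) := by
    rw [ib_eq hw hw0, hr, add_sub_cancel_right]
  rw [e] at h1 h2 ⊢
  exact exact_add_in h (m := r + 1) (by omega) (by omega) (by omega) (by omega) (by omega) (by omega)
    hring h1 h2

/-- neighbours of an inner block outside `bx r` are on the ring `r + 1`, in the middle cell enlarged by one: they are
`rt s (r + 1, y)` with `k w - w/2 - 1 ≤ y ≤ k w + w/2 + 1` -/
theorem ib_nbr {w M s k r : ℤ} {u v : Pt} (hw : w % 2 = 1) (hw0 : 0 < w)
    (hr : r = M * w + w / 2) (hk : |k| < M) (hv : v ∈ ib w M s k) (hu : u ∉ bx r)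
    (h : L.Adj u v) : ∃ y, k * w - w / 2 - 1 ≤ y ∧ y ≤ k * w + w / 2 + 1 ∧
      u = rt s (r + 1, y) := by
  obtain ⟨x, y, h1, h2, h3, h4, rfl⟩ := (ib_mem hw hw0 hr).1 hv
  have h5 := is2_y hw hw0 hk h3 h4
  have h5' := abs_nonneg y
  obtain ⟨⟨a, b⟩, rfl⟩ : ∃ p, u = rt s p := ⟨(rt s).symm u, by rw [Equiv.apply_symm_apply]⟩
  have h6 := ((tr_rots L s).adj (a, b) (x, y)).2 h
  obtain ⟨h7, h8⟩ := h6.near
  simp only at h7 h8
  have h7' := abs_le.1 h7
  have h8' := abs_le.1 h8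
  have h9 : r < nrm (rt s (a, b)) := not_le.1 hu
  rw [nrm_rt] at h9
  have h10 : r < max |a| |b| := h9
  have hb : |b| ≤ |y| + 1 := by
    rcases abs_cases b with ⟨c1, _⟩ | ⟨c1, _⟩ <;> rcases abs_cases y with ⟨c2, _⟩ | ⟨c2, _⟩ <;>
      omega
  have ha : r < |a| := by
    rcases lt_max_iff.1 h10 with h | h
    · exact h
    · omega
  have ha0 : 0 ≤ a := by omega
  rw [abs_of_nonneg ha0] at ha
  have ha1 : a = r + 1 := by omega
  subst ha1
  exact ⟨b, by omega, by omega, rfl⟩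

/-- every site of the inner side `rng (r + 1) ∩` middle cell has a neighbour in the block; in particular the block is next
to its triple: `rt s (r, k w)` and `rt s (r + 1, k w)` -/
theorem ib_touch {w M s k r : ℤ} (hw : w % 2 = 1) (hw0 : 0 < w) (hr : r = M * w + w / 2)
    (hk : |k| < M) : ∃ v ∈ ib w M s k, ∃ u ∈ trip w (r + 1) s k, L.Adj u v := by
  have h5 := is2_y (y := k * w) hw hw0 hk (by omega) (by omega)
  have h5' := abs_nonneg (k * w)
  refine ⟨rt s (r, k * w), (ib_mem hw hw0 hr).2 ⟨r, k * w, by omega, le_rfl, by omega, by omega,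
    rfl⟩, rt s (r + 1, k * w), ⟨2 * (r + 1) * s + k * w, ?_, ?_, ?_⟩, ?_⟩
  · have : (k - 1) * w = k * w - w := by ring
    omega
  · have : (k + 1) * w = k * w + w := by ring
    omega
  · exact rc_side (by omega) (by omega)
  · exact (((tr_rots L s).adj (r, k * w) (r + 1, k * w)).1 (adj_right (r, k * w))).symm

end Lat

end SC
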