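import Pool.Agent.Lib_MP_e0a489.IS1
import Pool.Agent.Lib_MP_e0a489.IS2

/-!
# MP_e0a489, inner separation 3: order of the arms
-/

set_option autoImplicit false

namespace SC

open Classical

private theorem is3_y {w M k y : ℤ} (hw : w % 2 = 1) (hw0 : 0 < w) (hk : |k| < M)
    (h1 : k * w - w / 2 ≤ y) (h2 : y ≤ k * w + w / 2) : |y| + 1 ≤ M * w - w / 2 := by
  have h3 := abs_lt.1 hk
  have h4 : k * w ≤ (M - 1) * w := mul_le_mul_of_nonneg_right (by omega) hw0.le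
  have h5 : -(M - 1) * w ≤ k * w := mul_le_mul_of_nonneg_right (by omega) hw0.le
  have h6 : (M - 1) * w = M * w - w := by ring
  have h7 : -(M - 1) * w = w - M * w := by ring
  rw [h6] at h4
  rw [h7] at h5
  rcases abs_cases y with ⟨a, _⟩ | ⟨a, _⟩ <;> rw [a] <;> omega

private theorem is3_nrm {a y : ℤ} (h : |y| ≤ a) : nrm (a, y) = a := by
  have h0 : 0 ≤ a := le_trans (abs_nonneg y) h
  show max |a| |y| = a
  rw [abs_of_nonneg h0]
  exact max_eq_left h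

/-- a site of the ring `r` in an inner block -/
private theorem is3_ring {w M s k r t : ℤ} (hw : w % 2 = 1) (hw0 : 0 < w)
    (hr : r = M * w + w / 2) (hr1 : 1 ≤ r) (hk : |k| < M) (h : rc r t ∈ ib w M s k) :
    ∃ y, k * w - w / 2 ≤ y ∧ y ≤ k * w + w / 2 ∧ 8 * r ∣ t - (2 * r * s + y) := by
  obtain ⟨x, y, h1, h2, h3, h4, h5⟩ := (ib_mem hw hw0 hr).1 h
  have hy := is3_y hw hw0 hk h3 h4
  have h6 : nrm (rc r t) = r := rc_nrm hr1
  rw [h5, nrm_rt, is3_nrm (by omega)] at h6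
  subst h6
  refine ⟨y, h3, h4, rc_inj hr1 ?_⟩
  rw [h5, rc_side hr1 (by omega)]

namespace Lat

variable {L : Lat}

/-- FROM THE RING `r + 1` TO THE RING `r`.  A site `rc (r+1) i` with a neighbour in `bx r` and `i` between two given
(side, coordinate) bounds has a neighbour `rc r t` with `t` between the corresponding bounds.
Proof.  `i = 2 (r+1) s + k`, `|k| ≤ r + 1` (`idx_side`), `t = 2 r s + max (-r) (min r k)`.  Lower bound: if `s₁ < s` then
`t ≥ 2 r s - r ≥ 2 r s₁ + r`; if `s₁ = s` then `a ≤ k`; `s₁ > s` is impossible since `2 (r+1) ≤ k - a ≤ 2 r + 1` is false.  The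
same for the upper bound.  Adjacency: if `|k| ≤ r` the sites are `rt s (r+1, k)` and `rt s (r, k)` (`rc_side`), nearest
neighbours.  If `k = ± (r+1)` the site is the corner `rt s (r+1, ± (r+1))`; its neighbour in `bx r` can only be
`rt s (r, ± r)`. -/
theorem ring_down {r s₁ a s₃ b i : ℤ} (hr : 1 ≤ r) (ha : |a| ≤ r) (hb : |b| ≤ r)
    (h1 : 2 * (r + 1) * s₁ + a ≤ i) (h3 : i ≤ 2 * (r + 1) * s₃ + b)
    (hi : rc (r + 1) i ∈ L.nb (bx r)) :
    ∃ t, 2 * r * s₁ + a ≤ t ∧ t ≤ 2 * r * s₃ + b ∧ L.Adj (rc (r + 1) i) (rc r t) := by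
  obtain ⟨s, k, hk, rfl⟩ := idx_side (m := r + 1) (by omega) i
  have ha' := abs_le.1 ha
  have hb' := abs_le.1 hb
  have hk' := abs_le.1 hk
  rw [rc_side (by omega) hk] at hi ⊢
  -- the coordinate on the ring `r`
  obtain ⟨k', hk1, hka, hkb, hadj⟩ : ∃ k', |k'| ≤ r ∧ (a ≤ k → a ≤ k') ∧ (k ≤ b → k' ≤ b) ∧
      L.Adj (rt s (r + 1, k)) (rt s (r, k')) := by
    by_cases h : |k| ≤ r
    · refine ⟨k, h, fun h => h, fun h => h, ?_⟩
      exact (((tr_rots L s).adj (r, k) (r + 1, k)).1 (adj_right (r, k))).symm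
    · obtain ⟨u, hu, hadj⟩ := hi
      obtain ⟨⟨x, y⟩, rfl⟩ : ∃ p, u = rt s p := ⟨(rt s).symm u, by rw [Equiv.apply_symm_apply]⟩
      have h6 := ((tr_rots L s).adj (x, y) (r + 1, k)).2 hadj
      obtain ⟨h7, h8⟩ := h6.near
      simp only at h7 h8
      have h7' := abs_le.1 h7
      have h8' := abs_le.1 h8
      have h9 : nrm (rt s (x, y)) ≤ r := hu
      rw [nrm_rt] at h9
      have h10 : max |x| |y| ≤ r := h9
      have h11 := abs_le.1 (le_trans (le_max_left _ _) h10)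
      have h12 := abs_le.1 (le_trans (le_max_right _ _) h10)
      have hx : x = r := by omega
      subst hx
      refine ⟨y, abs_le.2 h12, ?_, ?_, hadj.symm⟩
      · intro h
        rcases abs_cases k with ⟨c1, _⟩ | ⟨c1, _⟩ <;> omega
      · intro h
        rcases abs_cases k with ⟨c1, _⟩ | ⟨c1, _⟩ <;> omega
  have hk1' := abs_le.1 hk1
  refine ⟨2 * r * s + k', ?_, ?_, ?_⟩
  · rcases lt_trichotomy s₁ s with h | h | h
    · have h2 : 2 * r * (s₁ + 1) ≤ 2 * r * s := mul_le_mul_of_nonneg_left (by omega) (by omega)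
      have h3 : 2 * r * (s₁ + 1) = 2 * r * s₁ + 2 * r := by ring
      omega
    · subst h
      have := hka (by omega)
      omega
    · exfalso
      have h2 : 2 * (r + 1) * (s + 1) ≤ 2 * (r + 1) * s₁ :=
        mul_le_mul_of_nonneg_left (by omega) (by omega)
      have h3' : 2 * (r + 1) * (s + 1) = 2 * (r + 1) * s + 2 * (r + 1) := by ring
      omega
  · rcases lt_trichotomy s s₃ with h | h | h
    · have h2 : 2 * r * (s + 1) ≤ 2 * r * s₃ := mul_le_mul_of_nonneg_left (by omega) (by omega)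
      have h3 : 2 * r * (s + 1) = 2 * r * s + 2 * r := by ring
      omega
    · subst h
      have := hkb (by omega)
      omega
    · exfalso
      have h2 : 2 * (r + 1) * (s₃ + 1) ≤ 2 * (r + 1) * s :=
        mul_le_mul_of_nonneg_left (by omega) (by omega)
      have h3' : 2 * (r + 1) * (s₃ + 1) = 2 * (r + 1) * s₃ + 2 * (r + 1) := by ring
      omega
  · rw [rc_side hr hk1]
    exact hadj

/-- The site `rc r t` with `t` between the blocks is in none of the two inner blocks.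
(A site of `ib w M s k` of norm `r` is `rt s (r, y) = rc r (2 r s + y)`, `|y - k w| ≤ w/2`, by `ib_mem`; `rc_inj`: the
indices are equal modulo `8 r`; but `t` is strictly between `2 r s₁ + k₁ w + w/2` and `2 r s₃ + k₃ w - w/2`, and
these are at distance less than `8 r` from each other and from the other ends, by `h31`.) -/
theorem between_blocks {w M r s₁ k₁ s₃ k₃ t : ℤ} (hw : w % 2 = 1) (hw0 : 0 < w)
    (hr : r = M * w + w / 2) (hk₁ : |k₁| + 1 < M) (hk₃ : |k₃| + 1 < M)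
    (h1 : 2 * r * s₁ + ((k₁ + 1) * w + w / 2) ≤ t)
    (h3 : t ≤ 2 * r * s₃ + ((k₃ - 1) * w - w / 2))
    (h31 : 2 * (r + 1) * s₃ + k₃ * w < 2 * (r + 1) * (s₁ + 4) + k₁ * w) :
    rc r t ∉ ib w M s₁ k₁ ∧ rc r t ∉ ib w M s₃ k₃ := by
  have ha1 := abs_nonneg k₁
  have hM2 : 2 * w ≤ M * w := mul_le_mul_of_nonneg_right (by omega) hw0.le
  have hr1 : 1 ≤ r := by omega
  have hk1 := abs_lt.1 (show |k₁| < M - 1 by omega)
  have hk3 := abs_lt.1 (show |k₃| < M - 1 by omega)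
  have e1 : (k₁ + 1) * w = k₁ * w + w := by ring
  have e3 : (k₃ - 1) * w = k₃ * w - w := by ring
  rw [e1] at h1
  rw [e3] at h3
  have key : 2 * r * s₃ + k₃ * w < 2 * r * s₁ + 8 * r + k₁ * w + w := by
    rcases le_or_gt (s₁ + 4) s₃ with h | h
    · obtain ⟨d, hd, rfl⟩ : ∃ d, 0 ≤ d ∧ s₃ = s₁ + 4 + d := ⟨s₃ - (s₁ + 4), by omega, by ring⟩
      have q1 : 2 * (r + 1) * (s₁ + 4 + d) = 2 * (r + 1) * (s₁ + 4) + 2 * r * d + 2 * d := by ring
      have q2 : 2 * r * (s₁ + 4 + d) = 2 * r * s₁ + 8 * r + 2 * r * d := by ring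
      rw [q1] at h31
      rw [q2]
      omega
    · have q1 : 2 * r * s₃ ≤ 2 * r * (s₁ + 3) := mul_le_mul_of_nonneg_left (by omega) (by omega)
      have q2 : 2 * r * (s₁ + 3) = 2 * r * s₁ + 6 * r := by ring
      have q3 : k₃ * w ≤ (M - 1) * w := mul_le_mul_of_nonneg_right (by omega) hw0.le
      have q4 : -(M - 1) * w ≤ k₁ * w := mul_le_mul_of_nonneg_right (by omega) hw0.le
      have q5 : (M - 1) * w = M * w - w := by ring
      have q6 : -(M - 1) * w = w - M * w := by ring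
      rw [q5] at q3
      rw [q6] at q4
      omega
  constructor
  · intro h
    obtain ⟨y, hy1, hy2, hdvd⟩ := is3_ring hw hw0 hr hr1 (by omega) h
    have := Int.le_of_dvd (by omega) hdvd
    omega
  · intro h
    obtain ⟨y, hy1, hy2, hdvd⟩ := is3_ring hw hw0 hr hr1 (by omega) h
    have h5 : 8 * r ∣ (2 * r * s₃ + y) - t := by
      have := (dvd_neg (a := 8 * r)).2 hdvd
      rwa [neg_sub] at this
    have := Int.le_of_dvd (by omega) h5
    omega

/-- ORDER LEMMA.  Open arms from the inner blocks `θ₁`, `θ₃` to the opposite directions `d₁`, `d₃` (`0` and `2`), closed arms from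
the ring sites `i`, `j` to the directions `e`, `e'` (`1` and `3`).  The sites `i`, `j` are not both in the arc from `θ₁` to
`θ₃`.
Proof.  `P` = open arms together with `bx (M w - w/2 - 1)`: connected (the end `u` of an open arm is `rt s (M w - w/2, y)` with
`|y| ≤ M w - w/2 - 1`, next to `rt s (M w - w/2 - 1, y)`), in `bx (2R)`, contains sites with first coordinate `2R` and
`-2R` (`Je_coord`).  `t`, `t'` from `ring_down` for `i` and `j` (`a = (k₁+1) w + w/2`, `b = (k₃-1) w - w/2`).  `P'` = closed arms together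
with the arc of the ring `r` between `t` and `t'`: connected (`con_arc`), in `bx (2R)`, contains sites with second
coordinate `2R` and `-2R`.  By `cross` in `rect (-2R) (2R) (-2R) (2R)` there is a common site.  Open and closed arms have no
common site; the box `bx (M w - w/2 - 1)` meets neither the closed arms nor the ring `r`; a site of an open arm on the
ring `r` is in one of the blocks (`J_nrm`), which is excluded by `between_blocks`. -/
theorem order_in {w M r R s₁ k₁ s₃ k₃ d₁ d₃ e e' i j : ℤ} {ω : Cfg} (hw : w % 2 = 1)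
    (hw0 : 0 < w) (hr : r = M * w + w / 2) (hR : 8 * r ≤ R) (hk₁ : |k₁| + 1 < M)
    (hk₃ : |k₃| + 1 < M) (hd : (d₁ = 0 ∧ d₃ = 2) ∨ (d₁ = 2 ∧ d₃ = 0))
    (he : (e = 1 ∧ e' = 3) ∨ (e = 3 ∧ e' = 1))
    (a1 : L.Arm true (ann r R ∪ Jc true R ∪ ib w M s₁ k₁) (ib w M s₁ k₁ ∩ rng (M * w - w / 2))
      (Je d₁ R) ω)
    (a3 : L.Arm true (ann r R ∪ Jc true R ∪ ib w M s₃ k₃) (ib w M s₃ k₃ ∩ rng (M * w - w / 2))
      (Je d₃ R) ω)
    (bi : L.Arm false (ann r R ∪ Jc false R) {rc (r + 1) i} (Je e R) ω)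
    (bj : L.Arm false (ann r R ∪ Jc false R) {rc (r + 1) j} (Je e' R) ω)
    (hi : rc (r + 1) i ∈ L.nb (bx r)) (hj : rc (r + 1) j ∈ L.nb (bx r))
    (h1i : 2 * (r + 1) * s₁ + ((k₁ + 1) * w + w / 2) < i)
    (hi3 : i < 2 * (r + 1) * s₃ + ((k₃ - 1) * w - w / 2))
    (h1j : 2 * (r + 1) * s₁ + ((k₁ + 1) * w + w / 2) < j)
    (hj3 : j < 2 * (r + 1) * s₃ + ((k₃ - 1) * w - w / 2))
    (h31 : 2 * (r + 1) * s₃ + k₃ * w < 2 * (r + 1) * (s₁ + 4) + k₁ * w) : False := by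
  have hab1 := abs_nonneg k₁
  have hM2 : 2 * w ≤ M * w := mul_le_mul_of_nonneg_right (by omega) hw0.le
  have hr1 : 1 ≤ r := by omega
  have hk1 := abs_lt.1 (show |k₁| < M - 1 by omega)
  have hk3 := abs_lt.1 (show |k₃| < M - 1 by omega)
  obtain ⟨q, hq⟩ : ∃ q, q = M * w - w / 2 - 1 := ⟨_, rfl⟩
  have hqr : q < r := by omega
  have bnd : ∀ k : ℤ, -M < k → k < M → |k * w| + w ≤ M * w := by
    intro k h1 h2
    have h4 : k * w ≤ (M - 1) * w := mul_le_mul_of_nonneg_right (by omega) hw0.le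
    have h5 : -(M - 1) * w ≤ k * w := mul_le_mul_of_nonneg_right (by omega) hw0.le
    have h6 : (M - 1) * w = M * w - w := by ring
    have h7 : -(M - 1) * w = w - M * w := by ring
    rw [h6] at h4
    rw [h7] at h5
    rcases abs_cases (k * w) with ⟨a, _⟩ | ⟨a, _⟩ <;> rw [a] <;> omega
  have haa : |(k₁ + 1) * w + w / 2| ≤ r := by
    have h1 := bnd (k₁ + 1) (by omega) (by omega)
    have h2 := abs_le.1 (show |(k₁ + 1) * w| ≤ M * w - w by omega)
    exact abs_le.2 ⟨by omega, by omega⟩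
  have hbb : |(k₃ - 1) * w - w / 2| ≤ r := by
    have h1 := bnd (k₃ - 1) (by omega) (by omega)
    have h2 := abs_le.1 (show |(k₃ - 1) * w| ≤ M * w - w by omega)
    exact abs_le.2 ⟨by omega, by omega⟩
  -- the ends on the ring `r`
  obtain ⟨t, ht1, ht2, hta⟩ := ring_down (L := L) hr1 haa hbb h1i.le hi3.le hi
  obtain ⟨t', ht1', ht2', hta'⟩ := ring_down (L := L) hr1 haa hbb h1j.le hj3.le hj
  obtain ⟨x₁, ⟨hx₁, hx₁'⟩, y₁, hy₁, hc₁⟩ := a1
  obtain ⟨x₃, ⟨hx₃, hx₃'⟩, y₃, hy₃, hc₃⟩ := a3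
  obtain ⟨_, rfl, z, hz, hcz⟩ := bi
  obtain ⟨_, rfl, z', hz', hcz'⟩ := bj
  -- the box next to the inner blocks
  have hbox : ∀ (s k : ℤ) (x : Pt), |k| < M → x ∈ ib w M s k → x ∈ rng (M * w - w / 2) →
      ∃ b ∈ bx q, L.Adj x b := by
    intro s k x hk hx hx'
    obtain ⟨x₀, y₀, h1, h2, h3, h4, rfl⟩ := (ib_mem hw hw0 hr).1 hx
    have hy := is3_y hw hw0 hk h3 h4
    have hy0 := abs_nonneg y₀
    have h5 : nrm (rt s (x₀, y₀)) = M * w - w / 2 := hx'
    rw [nrm_rt, is3_nrm (by omega)] at h5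
    refine ⟨rt s (q, y₀), ?_, ?_⟩
    · show nrm (rt s (q, y₀)) ≤ q
      rw [nrm_rt, is3_nrm (by omega)]
    · have h6 : x₀ = q + 1 := by omega
      rw [h6]
      exact (((tr_rots L s).adj (q, y₀) (q + 1, y₀)).1 (adj_right (q, y₀))).symm
  obtain ⟨b₁, hb₁, hab₁⟩ := hbox s₁ k₁ x₁ (by omega) hx₁ hx₁'
  obtain ⟨b₃, hb₃, hab₃⟩ := hbox s₃ k₃ x₃ (by omega) hx₃ hx₃'
  have hJ : ∀ (c : Bool) (v : Pt), v ∈ Jc c R → R < nrm v ∧ nrm v ≤ 2 * R :=
    fun c v hv => Jc_sub_ann (by omega) hv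
  -- the two sets
  obtain ⟨P₁, hP₁⟩ : ∃ P : Set Pt, P = {v | L.Cn ((ann r R ∪ Jc true R ∪ ib w M s₁ k₁) ∩
    L.col true ω) x₁ v} := ⟨_, rfl⟩
  obtain ⟨P₃, hP₃⟩ : ∃ P : Set Pt, P = {v | L.Cn ((ann r R ∪ Jc true R ∪ ib w M s₃ k₃) ∩
    L.col true ω) x₃ v} := ⟨_, rfl⟩
  obtain ⟨Q₁, hQ₁⟩ : ∃ Q : Set Pt, Q = {v | L.Cn ((ann r R ∪ Jc false R) ∩ L.col false ω)
    (rc (r + 1) i) v} := ⟨_, rfl⟩
  obtain ⟨Q₃, hQ₃⟩ : ∃ Q : Set Pt, Q = {v | L.Cn ((ann r R ∪ Jc false R) ∩ L.col false ω)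
    (rc (r + 1) j) v} := ⟨_, rfl⟩
  have cP₁ : L.Con P₁ := by rw [hP₁]; exact con_cluster _ _
  have cP₃ : L.Con P₃ := by rw [hP₃]; exact con_cluster _ _
  have cQ₁ : L.Con Q₁ := by rw [hQ₁]; exact con_cluster _ _
  have cQ₃ : L.Con Q₃ := by rw [hQ₃]; exact con_cluster _ _
  have x1P : x₁ ∈ P₁ := by rw [hP₁]; exact Cn.refl hc₁.left
  have x3P : x₃ ∈ P₃ := by rw [hP₃]; exact Cn.refl hc₃.left
  have y1P : y₁ ∈ P₁ := by rw [hP₁]; exact hc₁
  have y3P : y₃ ∈ P₃ := by rw [hP₃]; exact hc₃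
  have iQ : rc (r + 1) i ∈ Q₁ := by rw [hQ₁]; exact Cn.refl hcz.left
  have jQ : rc (r + 1) j ∈ Q₃ := by rw [hQ₃]; exact Cn.refl hcz'.left
  have zQ : z ∈ Q₁ := by rw [hQ₁]; exact hcz
  have zQ' : z' ∈ Q₃ := by rw [hQ₃]; exact hcz'
  have sP₁ : ∀ v ∈ P₁, v ∈ (ann r R ∪ Jc true R ∪ ib w M s₁ k₁) ∩ L.col true ω := by
    intro v hv
    rw [hP₁] at hv
    exact Cn.right hv
  have sP₃ : ∀ v ∈ P₃, v ∈ (ann r R ∪ Jc true R ∪ ib w M s₃ k₃) ∩ L.col true ω := by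
    intro v hv
    rw [hP₃] at hv
    exact Cn.right hv
  have sQ₁ : ∀ v ∈ Q₁, v ∈ (ann r R ∪ Jc false R) ∩ L.col false ω := by
    intro v hv
    rw [hQ₁] at hv
    exact Cn.right hv
  have sQ₃ : ∀ v ∈ Q₃, v ∈ (ann r R ∪ Jc false R) ∩ L.col false ω := by
    intro v hv
    rw [hQ₃] at hv
    exact Cn.right hv
  obtain ⟨A, hA⟩ : ∃ A : Set Pt, A = arc r (min t t') (max t t') := ⟨_, rfl⟩
  have cA : L.Con A := by rw [hA]; exact con_arc hr1 _ _
  have tA : rc r t ∈ A := by rw [hA]; exact ⟨t, min_le_left _ _, le_max_left _ _, rfl⟩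
  have tA' : rc r t' ∈ A := by rw [hA]; exact ⟨t', min_le_right _ _, le_max_right _ _, rfl⟩
  have sA : ∀ v ∈ A, nrm v = r ∧ v ∉ ib w M s₁ k₁ ∧ v ∉ ib w M s₃ k₃ := by
    intro v hv
    rw [hA] at hv
    obtain ⟨n, hn1, hn2, rfl⟩ := hv
    refine ⟨rc_nrm hr1, ?_⟩
    refine between_blocks hw hw0 hr hk₁ hk₃ (le_trans ?_ hn1) (le_trans hn2 ?_) h31
    · exact le_min ht1 ht1'
    · exact max_le ht2 ht2'
  have cP : L.Con (P₁ ∪ bx q ∪ P₃) := by
    have h1 : L.Con (P₁ ∪ bx q) := Con.union_adj cP₁ (con_bx q) x1P hb₁ hab₁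
    exact Con.union_adj h1 cP₃ (Or.inr hb₃) x3P hab₃.symm
  have cP' : L.Con (Q₁ ∪ A ∪ Q₃) := by
    have h1 : L.Con (Q₁ ∪ A) := Con.union_adj cQ₁ cA iQ tA hta
    exact Con.union_adj h1 cQ₃ (Or.inr tA') jQ hta'.symm
  have rct : ∀ v : Pt, nrm v ≤ 2 * R → v ∈ rect (-(2 * R)) (2 * R) (-(2 * R)) (2 * R) := by
    intro v hv
    have h1 : max |v.1| |v.2| ≤ 2 * R := hv
    have h2 := abs_le.1 (le_trans (le_max_left _ _) h1)
    have h3 := abs_le.1 (le_trans (le_max_right _ _) h1)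
    exact ⟨h2, h3⟩
  have nib : ∀ s k v, |k| < M → v ∈ ib w M s k → nrm v ≤ r :=
    fun s k v hk hv => (ib_nrm hw hw0 hr hk hv).2
  have rP : P₁ ∪ bx q ∪ P₃ ⊆ rect (-(2 * R)) (2 * R) (-(2 * R)) (2 * R) := by
    rintro v ((hv | hv) | hv)
    · apply rct
      rcases (sP₁ v hv).1 with (h | h) | h
      · have := h.2; omega
      · exact (hJ _ _ h).2
      · have := nib _ _ _ (by omega) h; omega
    · apply rct
      have : nrm v ≤ q := hv
      omega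
    · apply rct
      rcases (sP₃ v hv).1 with (h | h) | h
      · have := h.2; omega
      · exact (hJ _ _ h).2
      · have := nib _ _ _ (by omega) h; omega
  have rP' : Q₁ ∪ A ∪ Q₃ ⊆ rect (-(2 * R)) (2 * R) (-(2 * R)) (2 * R) := by
    rintro v ((hv | hv) | hv)
    · apply rct
      rcases (sQ₁ v hv).1 with h | h
      · have := h.2; omega
      · exact (hJ _ _ h).2
    · apply rct
      have := (sA v hv).1
      omega
    · apply rct
      rcases (sQ₃ v hv).1 with h | h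
      · have := h.2; omega
      · exact (hJ _ _ h).2
  have e1 : ∃ v ∈ P₁ ∪ bx q ∪ P₃, v.1 = -(2 * R) := by
    rcases hd with ⟨rfl, rfl⟩ | ⟨rfl, rfl⟩
    · exact ⟨y₃, Or.inr y3P, Je_coord.2.2.1 hy₃⟩
    · exact ⟨y₁, Or.inl (Or.inl y1P), Je_coord.2.2.1 hy₁⟩
  have e2 : ∃ v ∈ P₁ ∪ bx q ∪ P₃, v.1 = 2 * R := by
    rcases hd with ⟨rfl, rfl⟩ | ⟨rfl, rfl⟩
    · exact ⟨y₁, Or.inl (Or.inl y1P), Je_coord.1 hy₁⟩
    · exact ⟨y₃, Or.inr y3P, Je_coord.1 hy₃⟩
  have e3 : ∃ v ∈ Q₁ ∪ A ∪ Q₃, v.2 = -(2 * R) := by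
    rcases he with ⟨rfl, rfl⟩ | ⟨rfl, rfl⟩
    · exact ⟨z', Or.inr zQ', Je_coord.2.2.2 hz'⟩
    · exact ⟨z, Or.inl (Or.inl zQ), Je_coord.2.2.2 hz⟩
  have e4 : ∃ v ∈ Q₁ ∪ A ∪ Q₃, v.2 = 2 * R := by
    rcases he with ⟨rfl, rfl⟩ | ⟨rfl, rfl⟩
    · exact ⟨z, Or.inl (Or.inl zQ), Je_coord.2.1 hz⟩
    · exact ⟨z', Or.inr zQ', Je_coord.2.1 hz'⟩
  obtain ⟨v, hv, hv'⟩ := cross cP cP' rP rP' e1 e2 e3 e4
  -- norms and colours on the second set
  have nQ : ∀ u, u ∈ Q₁ ∨ u ∈ Q₃ → r < nrm u ∧ L.st ω u = false := by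
    intro u hu
    have h1 : u ∈ (ann r R ∪ Jc false R) ∩ L.col false ω := hu.elim (sQ₁ u) (sQ₃ u)
    refine ⟨?_, h1.2⟩
    rcases h1.1 with h | h
    · exact h.1
    · have := (hJ _ _ h).1; omega
  have nP : ∀ u, u ∈ P₁ ∨ u ∈ P₃ → L.st ω u = true ∧ u ∉ A := by
    rintro u (hu | hu)
    · refine ⟨(sP₁ u hu).2, fun h => ?_⟩
      have h2 := sA u h
      rcases (sP₁ u hu).1 with (h | h) | h
      · have := h.1; omega
      · have := (hJ _ _ h).1; omega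
      · exact h2.2.1 h
    · refine ⟨(sP₃ u hu).2, fun h => ?_⟩
      have h2 := sA u h
      rcases (sP₃ u hu).1 with (h | h) | h
      · have := h.1; omega
      · have := (hJ _ _ h).1; omega
      · exact h2.2.2 h
  have fin : ∀ u, u ∈ P₁ ∨ u ∈ P₃ → u ∈ Q₁ ∪ A ∪ Q₃ → False := by
    rintro u hu ((h | h) | h)
    · have h1 := (nP u hu).1
      rw [(nQ u (Or.inl h)).2] at h1
      exact Bool.noConfusion h1
    · exact (nP u hu).2 h
    · have h1 := (nP u hu).1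
      rw [(nQ u (Or.inr h)).2] at h1
      exact Bool.noConfusion h1
  rcases hv with (hv | hv) | hv
  · exact fin v (Or.inl hv) hv'
  · have h1 : nrm v ≤ q := hv
    rcases hv' with (h | h) | h
    · have := (nQ v (Or.inl h)).1; omega
    · have := (sA v h).1; omega
    · have := (nQ v (Or.inr h)).1; omega
  · exact fin v (Or.inr hv) hv'

end Lat

end SC
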