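import Pool.Agent.Lib_MP_e0a489.Defs2
import Pool.Agent.Lib_MP_e0a489.TB3
import Pool.Agent.Lib_MP_e0a489.TE3

/-!
# MP_e0a489, topology 6b: circuits
-/

set_option autoImplicit false

namespace SC

open Classical

variable {L : Lat} {κ : ℕ → ℝ}

namespace Lat

private theorem td2_top {r R : ℤ} (hr : 0 ≤ r) : rect (-R) R (r + 1) R ⊆ ann r R := by
  intro v hv
  obtain ⟨⟨h1, h2⟩, h3, h4⟩ := hv
  simp only [ann, nrm, Set.mem_ofPred_eq, lt_max_iff, max_le_iff, abs_le, lt_abs]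
  omega

private theorem td2_bot {r R : ℤ} (hr : 0 ≤ r) : rect (-R) R (-R) (-r - 1) ⊆ ann r R := by
  intro v hv
  obtain ⟨⟨h1, h2⟩, h3, h4⟩ := hv
  simp only [ann, nrm, Set.mem_ofPred_eq, lt_max_iff, max_le_iff, abs_le, lt_abs]
  omega

private theorem td2_left {r R : ℤ} (hr : 0 ≤ r) : rect (-R) (-r - 1) (-R) R ⊆ ann r R := by
  intro v hv
  obtain ⟨⟨h1, h2⟩, h3, h4⟩ := hv
  simp only [ann, nrm, Set.mem_ofPred_eq, lt_max_iff, max_le_iff, abs_le, lt_abs]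
  omega

private theorem td2_right {r R : ℤ} (hr : 0 ≤ r) : rect (r + 1) R (-R) R ⊆ ann r R := by
  intro v hv
  obtain ⟨⟨h1, h2⟩, h3, h4⟩ := hv
  simp only [ann, nrm, Set.mem_ofPred_eq, lt_max_iff, max_le_iff, abs_le, lt_abs]
  omega

theorem Circ.dep (L : Lat) (c : Bool) (r R : ℤ) (hr : 0 ≤ r) : Dep (L.Circ c r R) (ann r R) := by
  intro ω ω' h
  unfold Circ
  rw [((HX.dep L c (-R) R (r + 1) R).mono (td2_top hr)) ω ω' h,
    ((HX.dep L c (-R) R (-R) (-r - 1)).mono (td2_bot hr)) ω ω' h,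
    ((VX.dep L c (-R) (-r - 1) (-R) R).mono (td2_left hr)) ω ω' h,
    ((VX.dep L c (r + 1) R (-R) R).mono (td2_right hr)) ω ω' h]

theorem Circ.loc (L : Lat) (c : Bool) (r R : ℤ) : Loc (L.Circ c r R) :=
  (HX.loc L c _ _ _ _).and ((HX.loc L c _ _ _ _).and ((VX.loc L c _ _ _ _).and (VX.loc L c _ _ _ _)))

theorem Circ.mon (L : Lat) (c : Bool) (r R : ℤ) : MonC c (L.Circ c r R) := by
  have h1 := HX.mon L c (-R) R (r + 1) R
  have h2 := HX.mon L c (-R) R (-R) (-r - 1)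
  have h3 := VX.mon L c (-R) (-r - 1) (-R) R
  have h4 := VX.mon L c (r + 1) R (-R) R
  cases c with
  | true =>
    unfold MonC at *
    rw [if_pos rfl] at *
    intro ω ω' h hC
    exact ⟨h1 ω ω' h hC.1, h2 ω ω' h hC.2.1, h3 ω ω' h hC.2.2.1, h4 ω ω' h hC.2.2.2⟩
  | false =>
    unfold MonC at *
    rw [if_neg (by decide)] at *
    intro ω ω' h hC
    exact ⟨h1 ω ω' h hC.1, h2 ω ω' h hC.2.1, h3 ω ω' h hC.2.2.1, h4 ω ω' h hC.2.2.2⟩

/-- Monotonicity of the separation property. -/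
theorem Sep.mono {σ : Set Pt} {r R r' R' : ℤ} (h : L.Sep σ r R) (hr : 0 ≤ r') (hr' : r' ≤ r)
    (hR : R ≤ R') : L.Sep σ r' R' := by
  obtain ⟨h1, h2, h3⟩ := h
  have hb : bx r' ⊆ bx r := fun v hv => le_trans (show nrm v ≤ r' from hv) hr'
  refine ⟨h1, fun v hv => ?_, fun P hP hi ho => h3 P hP ?_ ?_⟩
  · obtain ⟨h4, h5⟩ := h2 hv
    exact ⟨lt_of_le_of_lt hr' h4, le_trans h5 hR⟩
  · obtain ⟨v, hv, hv'⟩ := hi
    refine ⟨v, hv, ?_⟩
    rcases hv' with hv' | ⟨u, hu, hu'⟩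
    · exact Or.inl (hb hv')
    · exact Or.inr ⟨u, hb hu, hu'⟩
  · obtain ⟨v, hv, hv'⟩ := ho
    exact ⟨v, hv, le_trans hR hv'⟩

private theorem td2_hx {c : Bool} {a b p q : ℤ} {ω : Cfg} (h : L.HX c a b p q ω) :
    ∃ T : Set Pt, L.Con T ∧ T ⊆ rect a b p q ∩ L.col c ω ∧ (∃ v ∈ T, v.1 = a) ∧ ∃ v ∈ T, v.1 = b := by
  obtain ⟨u, v, hu, hv, hc⟩ := h
  exact ⟨{x | L.Cn (rect a b p q ∩ L.col c ω) u x}, con_cluster _ _, fun x hx => hx.right,
    ⟨u, Cn.refl hc.left, hu⟩, ⟨v, hc, hv⟩⟩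

private theorem td2_vx {c : Bool} {a b p q : ℤ} {ω : Cfg} (h : L.VX c a b p q ω) :
    ∃ T : Set Pt, L.Con T ∧ T ⊆ rect a b p q ∩ L.col c ω ∧ (∃ v ∈ T, v.2 = p) ∧ ∃ v ∈ T, v.2 = q := by
  obtain ⟨u, v, hu, hv, hc⟩ := h
  exact ⟨{x | L.Cn (rect a b p q ∩ L.col c ω) u x}, con_cluster _ _, fun x hx => hx.right,
    ⟨u, Cn.refl hc.left, hu⟩, ⟨v, hc, hv⟩⟩

private theorem td2_nrm_adj {u v : Pt} (h : L.Adj u v) : nrm v ≤ nrm u + 1 := by
  obtain ⟨h1, h2⟩ := h.near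
  unfold nrm
  rw [abs_le] at h1 h2
  have e1 : |v.1| ≤ |u.1| + 1 := by
    rcases abs_cases v.1 with ⟨a, _⟩ | ⟨a, _⟩ <;> rcases abs_cases u.1 with ⟨b, _⟩ | ⟨b, _⟩ <;>
      rw [a, b] <;> omega
  have e2 : |v.2| ≤ |u.2| + 1 := by
    rcases abs_cases v.2 with ⟨a, _⟩ | ⟨a, _⟩ <;> rcases abs_cases u.2 with ⟨b, _⟩ | ⟨b, _⟩ <;>
      rw [a, b] <;> omega
  exact max_le (e1.trans (by have := le_max_left |u.1| |u.2|; omega))
    (e2.trans (by have := le_max_right |u.1| |u.2|; omega))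

/-- the set `P` stopped at norm `R` together with the box -/
private theorem td2_stop {r R : ℤ} (hR : r < R) {P : Set Pt} (hP : L.Con P)
    (hi : ∃ v ∈ P, v ∈ bx r ∪ L.nb (bx r)) (ho : ∃ v ∈ P, R ≤ nrm v) :
    ∃ Q : Set Pt, Q ⊆ P ∧ Q ⊆ bx R ∧ L.Con (Q ∪ bx r) ∧ ∃ q ∈ Q, nrm q = R := by
  obtain ⟨v0, hv0, hv0'⟩ := hi
  obtain ⟨v1, hv1, hv1'⟩ := ho
  have hn0 : nrm v0 ≤ r + 1 := by
    rcases hv0' with h | ⟨u, hu, hu'⟩
    · have : nrm v0 ≤ r := h
      omega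
    · have h1 := td2_nrm_adj hu'
      have h2 : nrm u ≤ r := hu
      omega
  have hv0R : v0 ∈ bx R := by
    show nrm v0 ≤ R
    omega
  set Q : Set Pt := {x | L.Cn (P ∩ bx R) v0 x} with hQ
  have hQc : L.Con Q := con_cluster _ _
  have hv0Q : v0 ∈ Q := Cn.refl ⟨hv0, hv0R⟩
  refine ⟨Q, fun x hx => (Cn.right hx).1, fun x hx => (Cn.right hx).2, ?_, ?_⟩
  · rcases hv0' with h | ⟨u, hu, hu'⟩
    · exact hQc.union (con_bx r) ⟨v0, hv0Q, h⟩
    · exact hQc.union_adj (con_bx r) hv0Q hu hu'.symm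
  · by_cases hlt : nrm v0 < R
    · obtain ⟨p, q, h1, h2, h3, h4⟩ := (hP v0 hv0 v1 hv1).exit (S := {v | nrm v < R}) hlt
        (fun h => absurd (show nrm v1 < R from h) (by omega))
      have h5 : nrm p < R := h1.right.2
      have h6 := td2_nrm_adj h2
      have h7 : R ≤ nrm q := by
        by_contra hcon
        exact h4 (show nrm q < R by omega)
      have h8 : nrm q = R := by omega
      refine ⟨q, ?_, h8⟩
      have h9 : L.Cn (P ∩ bx R) v0 p := h1.mono fun x hx => ⟨hx.1, le_of_lt (show nrm x < R from hx.2)⟩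
      exact h9.trans (Cn.of_adj h9.right ⟨h3, le_of_eq h8⟩ h2)
    · exact ⟨v0, hv0Q, le_antisymm hv0R (not_lt.1 hlt)⟩

private theorem td2_mem {r : ℤ} {X Q C : Set Pt} (hX : ∀ x ∈ X, r < nrm x ∧ x ∉ C)
    (h : (X ∩ (Q ∪ bx r ∪ C)).Nonempty) : (X ∩ Q).Nonempty := by
  obtain ⟨x, hx, hx'⟩ := h
  rcases hx' with (h1 | h1) | h1
  · exact ⟨x, hx, h1⟩
  · exact absurd (show nrm x ≤ r from h1) (not_le.2 (hX x hx).1)
  · exact absurd h1 (hX x hx).2

/-- A circuit separates.  `σ` = union of the four crossing sets: connected, because each of the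
horizontal crossings meets each of the vertical crossings of the full rows and columns (`crossX` in
the corner squares, or `cross` in `[-R,R] × [r+1,R]`: the left crossing contains a crossing of the
corner square from bottom to top).  Separation: by `Cn.exit` we may assume that `P ⊆ bx R` (stop `P` at the first
site of norm `R`), and adding `bx r` (connected; a site of `nb (bx r)` has a neighbour in it) that
`bx r ⊆ P`, `P` still connected, and it suffices that `σ` meets `P` (`σ` does not meet `bx r`).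
If the last site `v` of `P` has `v.2 = R`: add the column `{0} × [-R, 0]` to `P`; this is connected and crosses
`[-R,R]²` from bottom to top, so it meets the top crossing `HX` of `[-R,R] × [r+1,R]` (`cross`), at a site
with second coordinate `≥ r + 1`, which is not in the column nor in `bx r`: it is in `P`.  The other
three sides are similar. -/
theorem Circ.sep {c : Bool} {r R : ℤ} (hr : 0 ≤ r) (hR : r < R) {ω : Cfg} (h : L.Circ c r R ω) :
    ∃ σ, σ ⊆ L.col c ω ∧ L.Sep σ r R := by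
  obtain ⟨hT, hB, hL, hE⟩ := h
  obtain ⟨T, hT1, hT2, hT3, hT4⟩ := td2_hx hT
  obtain ⟨B, hB1, hB2, hB3, hB4⟩ := td2_hx hB
  obtain ⟨W, hW1, hW2, hW3, hW4⟩ := td2_vx hL
  obtain ⟨E, hE1, hE2, hE3, hE4⟩ := td2_vx hE
  have hTW : (T ∩ W).Nonempty := by
    obtain ⟨x, hx, -⟩ := crossX hT1 hW1 (fun x hx => (hT2 hx).1) (fun x hx => (hW2 hx).1) hT3 hT4 hW3 hW4
      (by omega) (by omega) (by omega) (by omega) (by omega) (by omega)
    exact ⟨x, hx⟩
  have hTE : (T ∩ E).Nonempty := by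
    obtain ⟨x, hx, -⟩ := crossX hT1 hE1 (fun x hx => (hT2 hx).1) (fun x hx => (hE2 hx).1) hT3 hT4 hE3 hE4
      (by omega) (by omega) (by omega) (by omega) (by omega) (by omega)
    exact ⟨x, hx⟩
  have hBW : (B ∩ W).Nonempty := by
    obtain ⟨x, hx, -⟩ := crossX hB1 hW1 (fun x hx => (hB2 hx).1) (fun x hx => (hW2 hx).1) hB3 hB4 hW3 hW4
      (by omega) (by omega) (by omega) (by omega) (by omega) (by omega)
    exact ⟨x, hx⟩
  have hc1 : L.Con (T ∪ W) := hT1.union hW1 hTW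
  have hc2 : L.Con (T ∪ W ∪ E) := by
    obtain ⟨x, hx, hx'⟩ := hTE
    exact hc1.union hE1 ⟨x, Or.inl hx, hx'⟩
  have hc3 : L.Con (T ∪ W ∪ E ∪ B) := by
    obtain ⟨x, hx, hx'⟩ := hBW
    exact hc2.union hB1 ⟨x, Or.inl (Or.inr hx'), hx⟩
  refine ⟨T ∪ W ∪ E ∪ B, ?_, hc3, ?_, ?_⟩
  · rintro x (((hx | hx) | hx) | hx)
    · exact (hT2 hx).2
    · exact (hW2 hx).2
    · exact (hE2 hx).2
    · exact (hB2 hx).2
  · rintro x (((hx | hx) | hx) | hx)
    · exact td2_top hr (hT2 hx).1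
    · exact td2_left hr (hW2 hx).1
    · exact td2_right hr (hE2 hx).1
    · exact td2_bot hr (hB2 hx).1
  · intro P hP hi ho
    obtain ⟨Q, hQ1, hQ2, hQ3, q, hq, hqR⟩ := td2_stop hR hP hi ho
    have h0 : ((0 : ℤ), (0 : ℤ)) ∈ Q ∪ bx r := Or.inr (by
      show nrm (0, 0) ≤ r
      simpa [nrm] using hr)
    have hbR : ∀ v : Pt, nrm v ≤ R → v ∈ rect (-R) R (-R) R := by
      intro v hv
      simp only [nrm, max_le_iff, abs_le] at hv
      exact ⟨⟨hv.1.1, hv.1.2⟩, hv.2.1, hv.2.2⟩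
    have hQR : ∀ v ∈ Q ∪ bx r, v ∈ rect (-R) R (-R) R := by
      rintro v (hv | hv)
      · exact hbR v (hQ2 hv)
      · exact hbR v (le_trans (show nrm v ≤ r from hv) hR.le)
    have hq4 : q.2 = R ∨ q.2 = -R ∨ q.1 = R ∨ q.1 = -R := by
      unfold nrm at hqR
      rcases abs_cases q.1 with ⟨a, _⟩ | ⟨a, _⟩ <;> rcases abs_cases q.2 with ⟨b, _⟩ | ⟨b, _⟩ <;>
        rw [a, b] at hqR <;> omega
    have fin : ∀ X : Set Pt, X ⊆ T ∪ W ∪ E ∪ B → (X ∩ Q).Nonempty →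
        ((T ∪ W ∪ E ∪ B) ∩ P).Nonempty := by
      rintro X hX ⟨x, hx, hx'⟩
      exact ⟨x, hX hx, hQ1 hx'⟩
    rcases hq4 with h | h | h | h
    · -- top
      have hcol : L.Con (Q ∪ bx r ∪ rect 0 0 (-R) 0) :=
        hQ3.union (con_rect _ _ _ _) ⟨(0, 0), h0, by simp [rect]; omega⟩
      have h1 := cross hT1 hcol (a := -R) (b := R) (c := -R) (d := R)
        (fun x hx => by
          obtain ⟨⟨a1, a2⟩, a3, a4⟩ := (hT2 hx).1
          exact ⟨⟨a1, a2⟩, by omega, a4⟩)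
        (by
          rintro x (hx | hx)
          · exact hQR x hx
          · obtain ⟨⟨a1, a2⟩, a3, a4⟩ := hx
            exact ⟨⟨by omega, by omega⟩, a3, by omega⟩)
        hT3 hT4 ⟨(0, -R), Or.inr ⟨⟨le_rfl, le_rfl⟩, le_rfl, by show -R ≤ 0; omega⟩, rfl⟩
        ⟨q, Or.inl (Or.inl hq), h⟩
      refine fin T (fun x hx => Or.inl (Or.inl (Or.inl hx))) (td2_mem (fun x hx => ?_) h1)
      refine ⟨(td2_top hr (hT2 hx).1).1, fun hx' => ?_⟩
      have a1 := (hT2 hx).1.2.1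
      have a2 := hx'.2.2
      omega
    · -- bottom
      have hcol : L.Con (Q ∪ bx r ∪ rect 0 0 0 R) :=
        hQ3.union (con_rect _ _ _ _) ⟨(0, 0), h0, by simp [rect]; omega⟩
      have h1 := cross hB1 hcol (a := -R) (b := R) (c := -R) (d := R)
        (fun x hx => by
          obtain ⟨⟨a1, a2⟩, a3, a4⟩ := (hB2 hx).1
          exact ⟨⟨a1, a2⟩, a3, by omega⟩)
        (by
          rintro x (hx | hx)
          · exact hQR x hx
          · obtain ⟨⟨a1, a2⟩, a3, a4⟩ := hx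
            exact ⟨⟨by omega, by omega⟩, by omega, a4⟩)
        hB3 hB4 ⟨q, Or.inl (Or.inl hq), h⟩
        ⟨(0, R), Or.inr ⟨⟨le_rfl, le_rfl⟩, by show 0 ≤ R; omega, le_rfl⟩, rfl⟩
      refine fin B (fun x hx => Or.inr hx) (td2_mem (fun x hx => ?_) h1)
      refine ⟨(td2_bot hr (hB2 hx).1).1, fun hx' => ?_⟩
      have a1 := (hB2 hx).1.2.2
      have a2 := hx'.2.1
      omega
    · -- right
      have hcol : L.Con (Q ∪ bx r ∪ rect (-R) 0 0 0) :=
        hQ3.union (con_rect _ _ _ _) ⟨(0, 0), h0, by simp [rect]; omega⟩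
      have h1 := cross hcol hE1 (a := -R) (b := R) (c := -R) (d := R)
        (by
          rintro x (hx | hx)
          · exact hQR x hx
          · obtain ⟨⟨a1, a2⟩, a3, a4⟩ := hx
            exact ⟨⟨a1, by omega⟩, by omega, by omega⟩)
        (fun x hx => by
          obtain ⟨⟨a1, a2⟩, a3, a4⟩ := (hE2 hx).1
          exact ⟨⟨by omega, a2⟩, a3, a4⟩)
        ⟨(-R, 0), Or.inr ⟨⟨le_rfl, by show -R ≤ 0; omega⟩, le_rfl, le_rfl⟩, rfl⟩
        ⟨q, Or.inl (Or.inl hq), h⟩ hE3 hE4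
      rw [Set.inter_comm] at h1
      refine fin E (fun x hx => Or.inl (Or.inr hx)) (td2_mem (fun x hx => ?_) h1)
      refine ⟨(td2_right hr (hE2 hx).1).1, fun hx' => ?_⟩
      have a1 := (hE2 hx).1.1.1
      have a2 := hx'.1.2
      omega
    · -- left
      have hcol : L.Con (Q ∪ bx r ∪ rect 0 R 0 0) :=
        hQ3.union (con_rect _ _ _ _) ⟨(0, 0), h0, by simp [rect]; omega⟩
      have h1 := cross hcol hW1 (a := -R) (b := R) (c := -R) (d := R)
        (by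
          rintro x (hx | hx)
          · exact hQR x hx
          · obtain ⟨⟨a1, a2⟩, a3, a4⟩ := hx
            exact ⟨⟨by omega, a2⟩, by omega, by omega⟩)
        (fun x hx => by
          obtain ⟨⟨a1, a2⟩, a3, a4⟩ := (hW2 hx).1
          exact ⟨⟨a1, by omega⟩, a3, a4⟩)
        ⟨q, Or.inl (Or.inl hq), h⟩
        ⟨(R, 0), Or.inr ⟨⟨by show 0 ≤ R; omega, le_rfl⟩, le_rfl, le_rfl⟩, rfl⟩ hW3 hW4
      rw [Set.inter_comm] at h1
      refine fin W (fun x hx => Or.inl (Or.inl (Or.inr hx))) (td2_mem (fun x hx => ?_) h1)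
      refine ⟨(td2_left hr (hW2 hx).1).1, fun hx' => ?_⟩
      have a1 := (hW2 hx).1.1.2
      have a2 := hx'.1.1
      omega

end Lat

/-- Probability of a circuit (Harris inequality for the four crossings). -/
theorem circ_pr (h : RSW L κ) {k : ℕ} (hk : 1 ≤ k) (c : Bool) {r R : ℤ} (hr : 0 ≤ r)
    (h4 : 4 ≤ R - r - 1) (hR : 2 * R ≤ k * (R - r - 1)) : κ k ^ 4 ≤ pr (L.Circ c r R) := by
  have hk0 := (h.pos k).le
  have h1 : κ k ≤ pr (L.HX c (-R) R (r + 1) R) := h.hx' hk c (by omega) (by omega) (by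
    have e : R - (r + 1) = R - r - 1 := by ring
    rw [e]; linarith)
  have h2 : κ k ≤ pr (L.HX c (-R) R (-R) (-r - 1)) := h.hx' hk c (by omega) (by omega) (by
    have e : -r - 1 - -R = R - r - 1 := by ring
    rw [e]; linarith)
  have h3 : κ k ≤ pr (L.VX c (-R) (-r - 1) (-R) R) := h.vx' hk c (by omega) (by omega) (by
    have e : -r - 1 - -R = R - r - 1 := by ring
    rw [e]; linarith)
  have h5 : κ k ≤ pr (L.VX c (r + 1) R (-R) R) := h.vx' hk c (by omega) (by omega) (by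
    have e : R - (r + 1) = R - r - 1 := by ring
    rw [e]; linarith)
  let A : Fin 4 → Cfg → Prop := ![L.HX c (-R) R (r + 1) R, L.HX c (-R) R (-R) (-r - 1),
    L.VX c (-R) (-r - 1) (-R) R, L.VX c (r + 1) R (-R) R]
  have hA : ∏ i ∈ (Finset.univ : Finset (Fin 4)), pr (A i) ≤ pr (fun ω => ∀ i ∈ (Finset.univ : Finset (Fin 4)), A i ω) := by
    refine pr_harris_mon c (fun i _ => ?_) (fun i _ => ?_)
    · fin_cases i
      · exact Lat.HX.loc L c _ _ _ _
      · exact Lat.HX.loc L c _ _ _ _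
      · exact Lat.VX.loc L c _ _ _ _
      · exact Lat.VX.loc L c _ _ _ _
    · fin_cases i
      · exact Lat.HX.mon L c _ _ _ _
      · exact Lat.HX.mon L c _ _ _ _
      · exact Lat.VX.mon L c _ _ _ _
      · exact Lat.VX.mon L c _ _ _ _
  have he : (fun ω => ∀ i ∈ (Finset.univ : Finset (Fin 4)), A i ω) = L.Circ c r R := by
    funext ω
    apply propext
    constructor
    · intro hh
      exact ⟨hh 0 (Finset.mem_univ _), hh 1 (Finset.mem_univ _), hh 2 (Finset.mem_univ _),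
        hh 3 (Finset.mem_univ _)⟩
    · rintro ⟨a1, a2, a3, a4⟩ i -
      fin_cases i
      · exact a1
      · exact a2
      · exact a3
      · exact a4
  rw [he, Fin.prod_univ_four] at hA
  refine le_trans ?_ hA
  have e : κ k ^ 4 = κ k * κ k * κ k * κ k := by ring
  rw [e]
  exact mul_le_mul (mul_le_mul (mul_le_mul h1 h2 hk0 (pr_nonneg _)) h3 hk0
    (mul_nonneg (pr_nonneg _) (pr_nonneg _))) h5 hk0
    (mul_nonneg (mul_nonneg (pr_nonneg _) (pr_nonneg _)) (pr_nonneg _))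

end SC
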