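import Pool.Agent.Lib_MP_e0a489.RC2
import Pool.Agent.Lib_MP_e0a489.TD2

/-!
# MP_e0a489, shared by OS and IS, 6: the fresh configuration, circuit and corridors
-/

set_option autoImplicit false

namespace SC

open Classical

variable {L : Lat} {κ : ℕ → ℝ}

namespace Lat

/-- crossing of colour `c` of the corridor `ib w M s k ∪ ob w M s k` in the radial direction -/
def Cor (L : Lat) (c : Bool) (w M s k : ℤ) (ω : Cfg) : Prop :=
  (L.rots s).HX c (M * w - w / 2) (M * w + w / 2 + w) (k * w - w / 2) (k * w + w / 2)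
    (via (rt s) ω)

/-- the fresh configuration: a circuit and the crossings of two corridors -/
def Fre (L : Lat) (c : Bool) (r R w M s k s' k' : ℤ) (ω : Cfg) : Prop :=
  L.Circ c r R ω ∧ L.Cor c w M s k ω ∧ L.Cor c w M s' k' ω

private theorem sh6_rect {w M s k : ℤ} (hw : w % 2 = 1) (hw0 : 0 < w) :
    rt s '' rect (M * w - w / 2) (M * w + w / 2 + w) (k * w - w / 2) (k * w + w / 2) =
      ib w M s k ∪ ob w M s k := by
  rw [ib_eq hw hw0, ob_eq hw hw0, ← Set.image_union]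
  congr 1
  ext v
  simp only [rect, Set.mem_union, Set.mem_ofPred_eq]
  have h1 : 0 ≤ w / 2 := by omega
  constructor
  · rintro ⟨⟨a1, a2⟩, a3⟩
    by_cases h : v.1 ≤ M * w + w / 2
    · exact Or.inl ⟨⟨a1, h⟩, a3⟩
    · exact Or.inr ⟨⟨by omega, a2⟩, a3⟩
  · rintro (⟨⟨a1, a2⟩, a3⟩ | ⟨⟨a1, a2⟩, a3⟩)
    · exact ⟨⟨a1, by omega⟩, a3⟩
    · exact ⟨⟨by omega, a2⟩, a3⟩

private theorem sh6_y {w M k y : ℤ} (hw : w % 2 = 1) (hw0 : 0 < w) (hk : |k| < M)
    (h1 : k * w - w / 2 ≤ y) (h2 : y ≤ k * w + w / 2) : |y| + 1 ≤ M * w - w / 2 := by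
  have h3 := abs_lt.1 hk
  have h4 : k * w ≤ (M - 1) * w := mul_le_mul_of_nonneg_right (by omega) hw0.le
  have h5 : -(M - 1) * w ≤ k * w := mul_le_mul_of_nonneg_right (by omega) hw0.le
  have h6 : (M - 1) * w = M * w - w := by ring
  have h7 : -(M - 1) * w = w - M * w := by ring
  rw [h6] at h4
  rw [h7] at h5
  rcases abs_cases y with ⟨a, _⟩ | ⟨a, _⟩ <;> rw [a] <;> omega

private theorem sh6_nrm {a y : ℤ} (h : |y| ≤ a) : nrm (a, y) = a := by
  have h0 : 0 ≤ a := le_trans (abs_nonneg y) h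
  show max |a| |y| = a
  rw [abs_of_nonneg h0]
  exact max_eq_left h

/-- transport of the crossing (`tr_rots`, `Tr.cn`, `Tr.col`): the image under `rt s` of the rectangle is
`ib w M s k ∪ ob w M s k` (`ib_eq`, `ob_eq`) -/
theorem Cor.set {c : Bool} {w M s k : ℤ} {ω : Cfg} (hw : w % 2 = 1) (hw0 : 0 < w) (hk : |k| < M)
    (h : L.Cor c w M s k ω) : ∃ τ, L.Con τ ∧ τ ⊆ L.col c ω ∧ τ ⊆ ib w M s k ∪ ob w M s k ∧
      (∃ u ∈ τ, u ∈ ib w M s k ∧ u ∈ rng (M * w - w / 2)) ∧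
      (∃ u ∈ τ, u ∈ ob w M s k ∧ u ∈ rng (M * w + w / 2 + w)) := by
  obtain ⟨u, v, hu, hv, hc⟩ := h
  have hc' := ((tr_rots L s).cn _ u v).1 hc
  rw [Set.image_inter (rt s).injective, (tr_rots L s).col, sh6_rect hw hw0] at hc'
  have huR := hc.left.1
  have hvR := hc.right.1
  refine ⟨{x | L.Cn ((ib w M s k ∪ ob w M s k) ∩ L.col c ω) (rt s u) x}, con_cluster _ _,
    fun x hx => (Cn.right hx).2, fun x hx => (Cn.right hx).1,
    ⟨rt s u, Cn.refl hc'.left, ?_, ?_⟩, ⟨rt s v, hc', ?_, ?_⟩⟩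
  · rw [ib_eq hw hw0]
    exact ⟨u, ⟨⟨by omega, by omega⟩, huR.2⟩, rfl⟩
  · show nrm (rt s u) = M * w - w / 2
    have h1 := sh6_y hw hw0 hk huR.2.1 huR.2.2
    rw [nrm_rt, show u = (M * w - w / 2, u.2) from Prod.ext hu rfl]
    exact sh6_nrm (by show |u.2| ≤ M * w - w / 2; omega)
  · rw [ob_eq hw hw0]
    exact ⟨v, ⟨⟨by omega, by omega⟩, hvR.2⟩, rfl⟩
  · show nrm (rt s v) = M * w + w / 2 + w
    have h1 := sh6_y hw hw0 hk hvR.2.1 hvR.2.2
    rw [nrm_rt, show v = (M * w + w / 2 + w, v.2) from Prod.ext hv rfl]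
    exact sh6_nrm (by show |v.2| ≤ M * w + w / 2 + w; omega)

theorem Cor.dep (L : Lat) (c : Bool) {w M s k : ℤ} (hw : w % 2 = 1) (hw0 : 0 < w) :
    Dep (L.Cor c w M s k) (ib w M s k ∪ ob w M s k) := by
  intro ω ω' h
  unfold Cor
  refine HX.dep (L.rots s) c _ _ _ _ (via (rt s) ω) (via (rt s) ω') fun v hv => ?_
  show ω (rt s v) = ω' (rt s v)
  refine h _ ?_
  rw [← sh6_rect hw hw0]
  exact Set.mem_image_of_mem _ hv

theorem Cor.mon (L : Lat) (c : Bool) (w M s k : ℤ) : MonC c (L.Cor c w M s k) := by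
  have h1 := HX.mon (L.rots s) c (M * w - w / 2) (M * w + w / 2 + w) (k * w - w / 2)
    (k * w + w / 2)
  cases c with
  | true =>
    unfold MonC at *
    rw [if_pos rfl] at *
    intro ω ω' h hC
    exact h1 (via (rt s) ω) (via (rt s) ω') (fun v => h _) hC
  | false =>
    unfold MonC at *
    rw [if_neg (by decide)] at *
    intro ω ω' h hC
    exact h1 (via (rt s) ω) (via (rt s) ω') (fun v => h _) hC

/-- `Circ.dep`, `Cor.dep` -/
theorem Fre.dep (L : Lat) (c : Bool) {r R w M s k s' k' : ℤ} {A : Set Pt} (hr : 0 ≤ r)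
    (hw : w % 2 = 1) (hw0 : 0 < w) (h1 : ann r R ⊆ A) (h2 : ib w M s k ∪ ob w M s k ⊆ A)
    (h3 : ib w M s' k' ∪ ob w M s' k' ⊆ A) : Dep (L.Fre c r R w M s k s' k') A := by
  intro ω ω' h
  unfold Fre
  rw [((Circ.dep L c r R hr).mono h1) ω ω' h, ((Cor.dep L c hw hw0).mono h2) ω ω' h,
    ((Cor.dep L c hw hw0).mono h3) ω ω' h]

/-- THE SET `T`.  `σ` from `Circ.sep`, `τ` from `Cor.set`; `τ` has a site of norm `M w - w/2 ≤ r + 1`, which is in
`bx r ∪ nb (bx r)` (it is `rt s (r + 1, y)` with `|y| ≤ r`, next to `rt s (r, y)`, in the case `M w - w/2 = r + 1`), and a site of norm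
`M w + w/2 + w ≥ R`; so `Sep` gives a common site of `σ` and `τ` and `T = σ ∪ τ` is connected. -/
theorem fresh_set {c : Bool} {r R w M s k : ℤ} {ω : Cfg} (hw : w % 2 = 1) (hw0 : 0 < w)
    (hk : |k| < M) (hr : 0 ≤ r) (hrR : r < R) (h1 : M * w - w / 2 ≤ r + 1)
    (h2 : R ≤ M * w + w / 2 + w) (hc : L.Circ c r R ω) (ht : L.Cor c w M s k ω) :
    ∃ T, L.Con T ∧ T ⊆ L.col c ω ∧ T ⊆ ann r R ∪ (ib w M s k ∪ ob w M s k) ∧
      (∃ u ∈ T, u ∈ ib w M s k ∧ u ∈ rng (M * w - w / 2)) ∧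
      (∃ u ∈ T, u ∈ ob w M s k ∧ u ∈ rng (M * w + w / 2 + w)) ∧
      ∀ P : Set Pt, L.Con P → (∃ v ∈ P, v ∈ bx r ∪ L.nb (bx r)) → (∃ v ∈ P, R ≤ nrm v) →
        (T ∩ P).Nonempty := by
  obtain ⟨σ, hσc, hσ1, hσ2, hσ3⟩ := Circ.sep hr hrR hc
  obtain ⟨τ, hτ1, hτc, hτ2, ⟨u, hu, hui, hur⟩, ⟨v, hv, hvi, hvr⟩⟩ := Cor.set hw hw0 hk ht
  have hur' : nrm u = M * w - w / 2 := hur
  have hvr' : nrm v = M * w + w / 2 + w := hvr
  have hin : u ∈ bx r ∪ L.nb (bx r) := by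
    by_cases hle : M * w - w / 2 ≤ r
    · exact Or.inl (show nrm u ≤ r by omega)
    · have he : M * w - w / 2 = r + 1 := by omega
      rw [ib_eq hw hw0] at hui
      obtain ⟨z, ⟨⟨a1, a2⟩, a3, a4⟩, rfl⟩ := hui
      rw [nrm_rt] at hur'
      have hz : |z.2| + 1 ≤ M * w - w / 2 := sh6_y hw hw0 hk a3 a4
      have hz1 : z.1 = r + 1 := by
        have h5 : |z.1| ≤ nrm z := le_max_left _ _
        have h6 := le_abs_self z.1
        omega
      refine Or.inr ⟨rt s (r, z.2), ?_, ?_⟩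
      · show nrm (rt s (r, z.2)) ≤ r
        rw [nrm_rt, sh6_nrm (by omega)]
      · refine ((tr_rots L s).adj _ _).1 ?_
        have h7 := adj_right (L := L.rots s) (r, z.2)
        rwa [show ((r, z.2).1 + 1, (r, z.2).2) = z from Prod.ext hz1.symm rfl] at h7
  have hint : (σ ∩ τ).Nonempty := hσ3 τ hτ1 ⟨u, hu, hin⟩ ⟨v, hv, by omega⟩
  refine ⟨σ ∪ τ, hσ1.union hτ1 hint, Set.union_subset hσc hτc,
    Set.union_subset_union hσ2 hτ2, ⟨u, Or.inr hu, hui, hur⟩, ⟨v, Or.inr hv, hvi, hvr⟩,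
    fun P hP hi ho => ?_⟩
  obtain ⟨x, hx, hx'⟩ := hσ3 P hP hi ho
  exact ⟨x, Or.inl hx, hx'⟩

end Lat

/-- `circ_pr` with `k = 4 (M + 3)` (`2 R ≤ 2 (M + 2) w ≤ 4 (M + 2) (w - 1)` and `R - r - 1 = w - 1 ≥ 4`), `RSW.hx'` for the lattice `L.rots s` with
`k = 3` (`pr_via`), Harris (`pr_harris_mon`, three events). -/
theorem fre_pr (h : RSW L κ) (c : Bool) {r R w M s k s' k' : ℤ} (hw : w % 2 = 1) (hw5 : 5 ≤ w)
    (hM : 1 ≤ M) (hr : 0 ≤ r) (hR : R = r + w) (hR' : R ≤ M * w + w / 2 + w) :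
    κ (4 * (M.toNat + 3)) ^ 4 * κ 3 ^ 2 ≤ pr (L.Fre c r R w M s k s' k') := by
  have hMn : (M.toNat : ℤ) = M := Int.toNat_of_nonneg (by omega)
  have h1 : κ (4 * (M.toNat + 3)) ^ 4 ≤ pr (L.Circ c r R) := by
    refine circ_pr h (by omega) c hr (by omega) ?_
    push_cast
    rw [hMn]
    have h2 : R - r - 1 = w - 1 := by omega
    rw [h2]
    have h3 : 2 * R ≤ 2 * (M * w + w / 2 + w) := by omega
    have h4 : 2 * (w / 2) ≤ w := by omega
    nlinarith [mul_nonneg (show 0 ≤ M - 1 by omega) (show 0 ≤ w - 5 by omega)]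
  have hcor : ∀ s₀ k₀ : ℤ, κ 3 ≤ pr (L.Cor c w M s₀ k₀) := by
    intro s₀ k₀
    unfold Lat.Cor
    rw [pr_via (Lat.HX.loc (L.rots s₀) c _ _ _ _) (rt s₀)]
    refine (h.rots s₀).hx' (by omega) c (by omega) (by omega) ?_
    push_cast
    omega
  have hcl : ∀ s₀ k₀ : ℤ, Loc (L.Cor c w M s₀ k₀) := by
    intro s₀ k₀
    obtain ⟨F, hF⟩ := Lat.HX.loc (L.rots s₀) c (M * w - w / 2) (M * w + w / 2 + w)
      (k₀ * w - w / 2) (k₀ * w + w / 2)
    refine ⟨F.image (rt s₀), ?_⟩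
    intro ω ω' hω
    refine hF (via (rt s₀) ω) (via (rt s₀) ω') fun v hv => ?_
    exact hω _ (by rw [Finset.coe_image]; exact Set.mem_image_of_mem _ hv)
  let A : Fin 3 → Cfg → Prop := ![L.Circ c r R, L.Cor c w M s k, L.Cor c w M s' k']
  have hA : ∏ i ∈ (Finset.univ : Finset (Fin 3)), pr (A i) ≤
      pr (fun ω => ∀ i ∈ (Finset.univ : Finset (Fin 3)), A i ω) := by
    refine pr_harris_mon c (fun i _ => ?_) (fun i _ => ?_)
    · fin_cases i
      · exact Lat.Circ.loc L c r R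
      · exact hcl s k
      · exact hcl s' k'
    · fin_cases i
      · exact Lat.Circ.mon L c r R
      · exact Lat.Cor.mon L c w M s k
      · exact Lat.Cor.mon L c w M s' k'
  have he : (fun ω => ∀ i ∈ (Finset.univ : Finset (Fin 3)), A i ω) =
      L.Fre c r R w M s k s' k' := by
    funext ω
    apply propext
    constructor
    · intro hh
      exact ⟨hh 0 (Finset.mem_univ _), hh 1 (Finset.mem_univ _), hh 2 (Finset.mem_univ _)⟩
    · rintro ⟨a1, a2, a3⟩ i -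
      fin_cases i
      · exact a1
      · exact a2
      · exact a3
  rw [he, Fin.prod_univ_three] at hA
  refine le_trans ?_ hA
  have hk3 := (h.pos 3).le
  have e : κ (4 * (M.toNat + 3)) ^ 4 * κ 3 ^ 2 = κ (4 * (M.toNat + 3)) ^ 4 * κ 3 * κ 3 := by ring
  rw [e]
  exact mul_le_mul (mul_le_mul h1 (hcor s k) hk3 (pr_nonneg _)) (hcor s' k') hk3
    (mul_nonneg (pr_nonneg _) (pr_nonneg _))

end SC
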