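import Pool.Agent.Lib_MP_e0a489.EX1
import Pool.Agent.Lib_MP_e0a489.TC3

/-!
# MP_e0a489, shared by OS and IS, 7: supplements to the exploration, landing step
-/

set_option autoImplicit false

namespace SC

open Classical

namespace Lat

variable {L : Lat} {c : Bool} {M S : Set Pt} {ω : Cfg}

private theorem sh7_col {ω ω' : Cfg} {v : Pt} (h : ω v = ω' v) (b : Bool) :
    v ∈ L.col b ω ↔ v ∈ L.col b ω' := by
  show L.st ω v = b ↔ L.st ω' v = b
  unfold Lat.st
  rw [h]

/-- The source need not be connected: it is enough that its sites are joined in the explored set.  (Every site of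
`cl c (M \ S) S ω` is joined inside `cl c (M \ S) S ω` to a site with a neighbour in `S`, see `Cx_con`.) -/
theorem Cx_con' (h : ∀ u ∈ S, ∀ v ∈ S, L.Cn (L.Cx c M S ω) u v) : L.Con (L.Cx c M S ω) := by
  have key : ∀ w ∈ L.Cx c M S ω, ∃ s ∈ S, L.Cn (L.Cx c M S ω) s w := by
    rintro w (hw | ⟨u, ⟨s, hs, hsu⟩, hw⟩)
    · exact ⟨w, hw, Cn.refl (Or.inl hw)⟩
    · refine ⟨s, hs, ?_⟩
      have h1 := con_cluster (L := L) ((M \ S) ∩ L.col c ω) u u (Cn.refl hw.left) w hw
      have h2 : L.Cn (L.Cx c M S ω) u w := h1.mono (fun x hx => Or.inr ⟨u, ⟨s, hs, hsu⟩, hx⟩)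
      exact (Cn.of_adj (Or.inl hs) h2.left hsu).trans h2
  intro u hu v hv
  obtain ⟨s, hs, h1⟩ := key u hu
  obtain ⟨t, ht, h2⟩ := key v hv
  exact (h1.symm.trans (h s hs t ht)).trans h2

/-- A path in `M` all of whose sites have colour `c` or belong to `S`, and which contains a site of the explored set, is
contained in it.  (Induction along the path from `v`, `Cx_closed`.) -/
theorem Cx_of_cn {A : Set Pt} {u v : Pt} (hA : A ⊆ M) (hc : A ⊆ S ∪ L.col c ω) (h : L.Cn A u v)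
    (hv : v ∈ L.Cx c M S ω) : u ∈ L.Cx c M S ω := by
  have key : ∀ w, L.Cn A v w → w ∈ L.Cx c M S ω := by
    rintro w ⟨_, hw⟩
    induction hw with
    | refl => exact hv
    | tail _ hbc ih =>
      rcases hc hbc.2 with hs | hs
      · exact Cx_sup hs
      · exact Cx_closed (hA hbc.2) hs ⟨_, ih, hbc.1⟩
  exact key u h.symm

/-- A path all of whose sites are explored or outside `G` survives in the mixed configuration.  (Induction along the path;
`mix` does not change the sites of `Rev` and the sites outside `G`.) -/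
theorem cn_mix {G : Finset Pt} {η : Cfg} {A : Set Pt} {b : Bool} {u v : Pt}
    (h : L.Cn (A ∩ L.col b ω) u v)
    (hA : ∀ x, L.Cn (A ∩ L.col b ω) u x → x ∈ L.Rev c M S ω ∨ x ∉ G) :
    L.Cn (A ∩ L.col b (mix G (L.Rev c M S) ω η)) u v := by
  have h1 := con_cluster (L := L) (A ∩ L.col b ω) u u (Cn.refl h.left) v h
  refine h1.mono (fun x hx => ?_)
  have hx' : L.Cn (A ∩ L.col b ω) u x := hx
  refine ⟨hx'.right.1, ?_⟩
  rcases hA x hx' with hr | hg
  · exact (mix_col_rev hr b).2 hx'.right.2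
  · refine (sh7_col ?_ b).2 hx'.right.2
    unfold mix
    rw [if_neg (fun h' => hg h'.1)]

/-- An arm of the explored colour `c` in `A ⊆ M` that contains a site of `S` (or of the explored set) survives: all its
sites are explored (`Cx_of_cn`, `cn_mix`). -/
theorem cn_mix_Cx {G : Finset Pt} {η : Cfg} {A : Set Pt} {u v : Pt} (hA : A ⊆ M)
    (h : L.Cn (A ∩ L.col c ω) u v) (hv : v ∈ L.Cx c M S ω) :
    L.Cn (A ∩ L.col c (mix G (L.Rev c M S) ω η)) u v ∧ u ∈ L.Cx c M S ω := by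
  have hM : A ∩ L.col c ω ⊆ M := fun x hx => hA hx.1
  have hc : A ∩ L.col c ω ⊆ S ∪ L.col c ω := fun x hx => Or.inr hx.2
  have hu : u ∈ L.Cx c M S ω := Cx_of_cn hM hc h hv
  refine ⟨cn_mix h (fun x hx => Or.inl (Or.inl (Cx_of_cn hM hc hx.symm hu))), hu⟩

/-- Adding a region `N` next to a component: `N` is connected, disjoint from `M`, all its neighbours in `M` lie in the component
`V` of `M \ C`, and there is such a neighbour.  Then `V ∪ N` is a component of `(M ∪ N) \ C` (`C ⊆ M`). -/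
theorem comp_add {C V N : Set Pt} (hCM : C ⊆ M) (hV : L.Comp (M \ C) V) (hN : L.Con N)
    (hNM : ∀ v ∈ N, v ∉ M) (hNV : ∀ v ∈ N, ∀ u ∈ M, L.Adj u v → u ∈ V)
    (hadj : ∃ v ∈ N, ∃ u ∈ V, L.Adj u v) : L.Comp ((M ∪ N) \ C) (V ∪ N) := by
  obtain ⟨v, hv, u, hu, huv⟩ := hadj
  refine ⟨⟨u, Or.inl hu⟩, ?_, Con.union_adj hV.con hN hu hv huv, ?_⟩
  · rintro w (hw | hw)
    · exact ⟨Or.inl (hV.sub hw).1, (hV.sub hw).2⟩
    · exact ⟨Or.inr hw, fun h => hNM w hw (hCM h)⟩
  · rintro a ha b ⟨hb | hb, hbC⟩ hab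
    · rcases ha with ha | ha
      · exact Or.inl (hV.cl a ha b ⟨hb, hbC⟩ hab)
      · exact Or.inl (hNV a ha b hb hab.symm)
    · exact Or.inr hb

/-- LANDING STEP.  The clusters of colour `!c` attached to `S` in `M` are explored; `V` is a component of the rest, `N` a new
block next to it, `y ∈ V` has a neighbour in the explored set, `T ⊆ M ∪ N` is a connected set of fresh sites of colour `c`
which contains a site `u ∈ N` and meets the explored set.  Then in the mixed configuration `y` is joined to `u` in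
colour `c` in `V ∪ N`.  Proof: `step` with the component `V ∪ N` (`comp_add`), whose boundary is connected by
`con_bd` (`M ∪ N` exact). -/
theorem land_step {N V T : Set Pt} {G : Finset Pt} {η : Cfg} {y u : Pt} (hS : S ⊆ M)
    (hC : L.Con (L.Cx (!c) M S ω)) (hex : L.Exact (M ∪ N) (L.Cx (!c) M S ω))
    (hV : L.Comp (M \ L.Cx (!c) M S ω) V) (hN : L.Con N) (hNM : ∀ v ∈ N, v ∉ M)
    (hNV : ∀ v ∈ N, ∀ u ∈ M, L.Adj u v → u ∈ V) (hadj : ∃ v ∈ N, ∃ u ∈ V, L.Adj u v)
    (hy : y ∈ V) (hy' : y ∈ L.nb (L.Cx (!c) M S ω)) (hT : L.Con T) (hTM : T ⊆ M ∪ N)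
    (hTG : T ⊆ (G : Set Pt)) (hTc : T ⊆ L.col c η) (hu : u ∈ T) (huN : u ∈ N)
    (hTC : (T ∩ L.Cx (!c) M S ω).Nonempty) :
    L.Cn ((V ∪ N) ∩ L.col c (mix G (L.Rev (!c) M S) ω η)) y u := by
  have hCM : L.Cx (!c) M S ω ⊆ M := Cx_sub hS
  have hV' : L.Comp ((M ∪ N) \ L.Cx (!c) M S ω) (V ∪ N) := comp_add hCM hV hN hNM hNV hadj
  refine step hS (fun v hv => ⟨hNM v hv, ?_⟩) hV'
    (con_bd hex hC (fun x hx => Or.inl (hCM hx)) hV') (Or.inl hy) hy' hT hTM hTG hTc hu huN
    (Or.inr huN) hTC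
  rintro ⟨w, hw, hwv⟩
  exact (hV.sub (hNV v hv w (hCM hw) hwv)).2 hw

/-- The component of `M \ C` that contains the end `y` of a path of colour `c` in `M \ S` contains the whole path. -/
theorem comp_path {V : Set Pt} {x y : Pt} (hV : L.Comp (M \ L.Cx (!c) M S ω) V)
    (h : L.Cn ((M \ S) ∩ L.col c ω) x y) (hy : y ∈ V) : x ∈ V := by
  have hsub : (M \ S) ∩ L.col c ω ⊆ M \ L.Cx (!c) M S ω := by
    rintro w ⟨⟨hwM, hwS⟩, hwc⟩
    refine ⟨hwM, fun hC => ?_⟩
    have h1 : L.st ω w = !c := (Cx_col hC hwS).2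
    have h2 : L.st ω w = c := hwc
    rw [h2] at h1
    cases c <;> simp at h1
  have key : ∀ w, L.Cn ((M \ S) ∩ L.col c ω) y w → w ∈ V := by
    rintro w ⟨_, hw⟩
    induction hw with
    | refl => exact hy
    | tail _ hbc ih => exact hV.cl _ ih _ (hsub hbc.2) hbc.1
  exact key x h.symm

end Lat

end SC
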