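import Pool.Agent.Lib_MP_e0a489.IS1
import Pool.Agent.Lib_MP_e0a489.IS2
import Pool.Agent.Lib_MP_e0a489.SH6
import Pool.Agent.Lib_MP_e0a489.SH7

/-!
# MP_e0a489, inner separation 4: exploration domain, landing of one arm

`B` = union of the blocks that have already been landed (`∅` in the first step, two coarse blocks in the second step).  The
arms of colour `c` are landed, the clusters of colour `!c` are explored.
-/

set_option autoImplicit false

namespace SC

open Classical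

/-- domain of the exploration -/
def Di (r R : ℤ) (B : Set Pt) : Set Pt := ann r (2 * R + 1) ∪ B

/-- source of the exploration -/
def Si (c : Bool) (R : ℤ) (B : Set Pt) : Set Pt := Outc c R ∪ B

theorem Si_sub {c : Bool} {r R : ℤ} {B : Set Pt} (hrR : r ≤ R) : Si c R B ⊆ Di r R B := by
  exact Set.union_subset_union_left _ (Outc_sub hrR)

theorem Di_diff {c : Bool} {r R : ℤ} {B : Set Pt} (hR : 0 ≤ R) (hrR : r ≤ R) (hB : B ⊆ bx r) :
    Di r R B \ Si c R B = ann r R ∪ Jc c R := by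
  have h := ann_diff_Outc (c := c) hR hrR
  ext v
  constructor
  · rintro ⟨hv | hv, hS⟩
    · rw [← h]
      exact ⟨hv, fun hc => hS (Or.inl hc)⟩
    · exact absurd (Or.inr hv) hS
  · intro hv
    rw [← h] at hv
    refine ⟨Or.inl hv.1, ?_⟩
    rintro (hc | hc)
    · exact hv.2 hc
    · have h1 : nrm v ≤ r := hB hc
      have h2 : r < nrm v := hv.1.1
      omega

theorem nrm_le_add (u v : Pt) : nrm u ≤ nrm (u - v) + nrm v := by
  have h1 : |(u - v).1| ≤ nrm (u - v) := le_max_left _ _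
  have h2 : |(u - v).2| ≤ nrm (u - v) := le_max_right _ _
  have h3 : |v.1| ≤ nrm v := le_max_left _ _
  have h4 : |v.2| ≤ nrm v := le_max_right _ _
  have h5 : |u.1| ≤ |(u - v).1| + |v.1| := by
    have := abs_add_le (u.1 - v.1) v.1
    rw [sub_add_cancel] at this
    exact this
  have h6 : |u.2| ≤ |(u - v).2| + |v.2| := by
    have := abs_add_le (u.2 - v.2) v.2
    rw [sub_add_cancel] at this
    exact this
  exact max_le (by omega) (by omega)

namespace Lat

variable {L : Lat}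

/-- norms of adjacent sites differ by at most one -/
theorem nrm_adj4 {u v : Pt} (h : L.Adj u v) : nrm u ≤ nrm v + 1 ∧ nrm v ≤ nrm u + 1 := by
  have h1 := h.near
  have h2 : nrm (u - v) ≤ 1 := max_le h1.1 h1.2
  have h3 : nrm (v - u) ≤ 1 := by
    have h4 := h.symm.near
    exact max_le h4.1 h4.2
  have h5 := nrm_le_add u v
  have h6 := nrm_le_add v u
  exact ⟨by omega, by omega⟩

theorem nrm_ax4 {a : ℤ} (h : 0 ≤ a) : nrm ((a, 0) : Pt) = a := by
  show max |a| |(0 : ℤ)| = a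
  rw [abs_zero, abs_of_nonneg h]
  exact max_eq_left h

/-- sites next to `Outc c R` -/
theorem nb_Outc_nrm {c : Bool} {R : ℤ} {v : Pt} (hv : v ∈ L.nb (Outc c R)) : R ≤ nrm v := by
  obtain ⟨u, hu, huv⟩ := hv
  have h1 : R < nrm u := not_le.1 (fun hc => hu.2 (Or.inl hc))
  have h2 := nrm_adj4 huv
  omega

/-- A ring site in the explored set has a path of the explored colour to a site next to the source.  (It is not in the source:
its norm is `r + 1 ≤ R` and `B ⊆ bx r`; definition of `cl`, `Di_diff`.) -/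
theorem attached {c : Bool} {r R : ℤ} {B : Set Pt} {ω : Cfg} {x : Pt} (hr : 0 ≤ r)
    (hrR : r + 1 ≤ R) (hB : B ⊆ bx r) (hx : nrm x = r + 1)
    (h : x ∈ L.Cx (!c) (Di r R B) (Si c R B) ω) :
    ∃ v, v ∈ L.nb (Si c R B) ∧ L.Cn ((ann r R ∪ Jc c R) ∩ L.col (!c) ω) x v := by
  rcases h with h | ⟨u, hu, hc⟩
  · exfalso
    rcases h with h | h
    · exact h.2 (Or.inl (show nrm x ≤ R by omega))
    · have h1 : nrm x ≤ r := hB h
      omega
  · rw [Di_diff (by omega) (by omega) hB] at hc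
    exact ⟨u, hu, hc.symm⟩

/-- The end of an arm of the landed colour has a neighbour in the explored set, and the arm lies outside the
explored set. -/
theorem end_nb {c : Bool} {r R d : ℤ} {B : Set Pt} {ω : Cfg} {y : Pt} (hR : 1 ≤ R)
    (hy : y ∈ Je d R) : y ∈ L.nb (L.Cx (!c) (Di r R B) (Si c R B) ω) := by
  obtain ⟨u, hu, huy⟩ := Je_nb (L := L) hR hy
  exact ⟨u, Cx_sup (Or.inl (rng_sub_Outc (by omega) hu)), huy⟩

/-- An arm of the explored colour `!c` that ends in a zone of the colour `!c` (a subset of the source) is contained in the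
explored set and survives in the mixed configuration.  (`cn_mix_Cx` with `A = ann r R ∪ Jc (!c) R ∪ B'`.) -/
theorem arm_keep {c : Bool} {r R d : ℤ} {B B' X : Set Pt} {ω η : Cfg} {G : Finset Pt} (hr : 0 ≤ r)
    (hR : 1 ≤ R) (hrR : r ≤ R) (hd : d = dc (!c) ∨ d = dc (!c) + 2) (hB : B' ⊆ B)
    (h : L.Arm (!c) (ann r R ∪ Jc (!c) R ∪ B') X (Je d R) ω) :
    ∃ x ∈ X, x ∈ L.Cx (!c) (Di r R B) (Si c R B) ω ∧ ∃ y ∈ Je d R,
      L.Cn ((ann r R ∪ Jc (!c) R ∪ B') ∩ L.col (!c) ω) x y ∧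
      L.Cn ((ann r R ∪ Jc (!c) R ∪ B') ∩
        L.col (!c) (mix G (L.Rev (!c) (Di r R B) (Si c R B)) ω η)) x y := by
  obtain ⟨x, hx, y, hy, hc⟩ := h
  have hA : ann r R ∪ Jc (!c) R ∪ B' ⊆ Di r R B := by
    rintro v ((hv | hv) | hv)
    · exact Or.inl ⟨hv.1, hv.2.trans (by omega)⟩
    · exact Or.inl (Outc_sub hrR (Jc_sub_Outc (by omega) hv))
    · exact Or.inr (hB hv)
  have hyC : y ∈ L.Cx (!c) (Di r R B) (Si c R B) ω :=
    Cx_sup (Or.inl (Jc_sub_Outc (by omega) (Je_sub_Jc hR hd hy)))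
  obtain ⟨h1, h2⟩ := cn_mix_Cx (G := G) (η := η) hA hc hyC
  exact ⟨x, hx, h2, y, hy, hc, h1⟩

/-- LANDING OF ONE ARM.
Proof.  `N = ib w M s k`, `C` the explored set.  `fresh_set` (radii `r`, `r + w`) gives `T`.  `T ⊆ Di ∪ N`: `ann r (r+w)` and
`ob w M s k` (`ob_nrm`) are in `ann r (2R+1)`.  `T ⊆ G` (`ib_nrm`, `ob_nrm`).  `T` meets `C`: `C` is connected, contains a site of
`bx r ∪ nb (bx r)` (hypothesis) and the ring `2R+1` (`rng_sub_Outc`).  `Di ∪ N` is exact: `exact_ib` (a neighbour of `N` in `Di` is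
not in `B`, so outside `bx r`, so on the ring `r + 1` by `ib_nbr`).  These neighbours are in the triple (`ib_adj`), hence
in `V`; `ib_touch`.  `land_step` gives the path in `V ∪ N ⊆ (Di \ Si) ∪ N = ann r R ∪ Jc c R ∪ N`. -/
theorem land_in {c : Bool} {w M r R s k : ℤ} {B V : Set Pt} {ω η : Cfg} {G : Finset Pt} {y : Pt}
    (hw : w % 2 = 1) (hw5 : 5 ≤ w) (hr : r = M * w + w / 2) (hR : 8 * r ≤ R)
    (hk : |k| + 1 < M) (hB : B ⊆ bx r)
    (hBN : ∀ v ∈ ib w M s k, v ∉ B ∧ v ∉ L.nb B)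
    (hC : L.Con (L.Cx (!c) (Di r R B) (Si c R B) ω))
    (hCi : ∃ v ∈ L.Cx (!c) (Di r R B) (Si c R B) ω, v ∈ bx r ∪ L.nb (bx r))
    (hex : L.Exact (Di r R B) (L.Cx (!c) (Di r R B) (Si c R B) ω))
    (hV : L.Comp (Di r R B \ L.Cx (!c) (Di r R B) (Si c R B) ω) V)
    (ht : trip w (r + 1) s k ⊆ V) (hy : y ∈ V)
    (hy' : y ∈ L.nb (L.Cx (!c) (Di r R B) (Si c R B) ω))
    (hG : ∀ v, r - w < nrm v → nrm v ≤ r + w → v ∈ G)
    (hc : L.Circ c r (r + w) η) (hcor : L.Cor c w M s k η) :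
    ∃ u, u ∈ ib w M s k ∩ rng (M * w - w / 2) ∧
      L.Cn ((ann r R ∪ Jc c R ∪ ib w M s k) ∩
        L.col c (mix G (L.Rev (!c) (Di r R B) (Si c R B)) ω η)) u y := by
  have hw0 : 0 < w := by omega
  have hk0 := abs_nonneg k
  have hM : 2 ≤ M := by omega
  have hMw : 2 * w ≤ M * w := mul_le_mul_of_nonneg_right hM hw0.le
  have hww : 0 ≤ w / 2 := by omega
  have hr2 : 2 * w ≤ r := by omega
  obtain ⟨T, hT, hTc, hTs, ⟨u, huT, hui, hur⟩, -, hsep⟩ := fresh_set hw hw0 (by omega)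
    (show 0 ≤ r by omega) (show r < r + w by omega) (by omega) (by omega) hc hcor
  have hSC : Si c R B ⊆ L.Cx (!c) (Di r R B) (Si c R B) ω := Cx_sup
  have hnb : ∀ v ∈ ib w M s k, ∀ u ∈ Di r R B, L.Adj u v → u ∉ bx r := by
    rintro v hv u (hu | hu) huv
    · exact not_le.2 hu.1
    · exact absurd ⟨u, hu, huv⟩ (hBN v hv).2
  have hNM : ∀ v ∈ ib w M s k, v ∉ Di r R B := by
    rintro v hv (hc | hc)
    · have h1 := (ib_nrm hw hw0 hr (by omega) hv).2
      have h2 : r < nrm v := hc.1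
      omega
    · exact (hBN v hv).1 hc
  have hex' : L.Exact (Di r R B ∪ ib w M s k) (L.Cx (!c) (Di r R B) (Si c R B) ω) := by
    refine exact_ib hw hw0 hr (by omega) hex ?_ ?_ hNM
    · intro v hv
      have h1 : nrm v = r + 1 := hv
      exact Or.inl ⟨by omega, by omega⟩
    · intro v hv u hu huv
      have h1 : r < nrm u := not_le.1 (hnb v hv u hu huv)
      have h2 := (ib_nrm hw hw0 hr (by omega) hv).2
      have h3 := nrm_adj4 huv
      show nrm u = r + 1
      omega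
  have hNV : ∀ v ∈ ib w M s k, ∀ u ∈ Di r R B, L.Adj u v → u ∈ V := by
    intro v hv u hu huv
    have h1 := hnb v hv u hu huv
    refine ht ?_
    rw [hr] at h1 ⊢
    exact ib_adj hw hw0 (by omega) hk hv h1 huv.symm
  have hadj : ∃ v ∈ ib w M s k, ∃ u ∈ V, L.Adj u v := by
    obtain ⟨v, hv, u, hu, huv⟩ := ib_touch (L := L) (s := s) hw hw0 hr (show |k| < M by omega)
    exact ⟨v, hv, u, ht hu, huv⟩
  have hTM : T ⊆ Di r R B ∪ ib w M s k := by
    intro v hv
    rcases hTs hv with h1 | h1 | h1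
    · exact Or.inl (Or.inl ⟨h1.1, h1.2.trans (by omega)⟩)
    · exact Or.inr h1
    · have h2 := ob_nrm hw hw0 hr (by omega) h1
      exact Or.inl (Or.inl ⟨h2.1, h2.2.trans (by omega)⟩)
  have hTG : T ⊆ (G : Set Pt) := by
    intro v hv
    rcases hTs hv with h1 | h1 | h1
    · have h2 : r < nrm v := h1.1
      exact hG v (by omega) h1.2
    · have h2 := ib_nrm hw hw0 hr (by omega) h1
      exact hG v h2.1 (by omega)
    · have h2 := ob_nrm hw hw0 hr (by omega) h1
      exact hG v (by omega) h2.2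
  have hTC : (T ∩ L.Cx (!c) (Di r R B) (Si c R B) ω).Nonempty := by
    refine hsep _ hC hCi ⟨(2 * R + 1, 0), hSC (Or.inl (rng_sub_Outc (by omega) ?_)), ?_⟩
    · exact nrm_ax4 (by omega)
    · rw [nrm_ax4 (by omega)]
      omega
  have h1 := land_step (Si_sub (by omega)) hC hex' hV (con_ib hw hw0) hNM hNV hadj hy hy' hT
    hTM hTG hTc huT hui hTC
  refine ⟨u, ⟨hui, hur⟩, h1.symm.mono ?_⟩
  rintro v ⟨hv | hv, hvc⟩
  · refine ⟨Or.inl ?_, hvc⟩
    rw [← Di_diff (c := c) (by omega) (by omega) hB]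
    exact ⟨(hV.sub hv).1, fun h2 => (hV.sub hv).2 (hSC h2)⟩
  · exact ⟨Or.inr hv, hvc⟩

end Lat

end SC
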