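import Pool.Agent.Lib_MP_e0a489.IS2

/-!
# MP_e0a489, inner separation 5: arithmetic of the cells
-/

set_option autoImplicit false

namespace SC

open Classical

/-- two disjoint windows on a cycle of length `N`: choose the representative of the second one in the period after
the first one -/
theorem arcs_rep {N h a b : ℤ} (hh : 0 ≤ h) (hN : 0 < N)
    (hd : ∀ i j, |i - a| ≤ h → |j - b| ≤ h → ¬ N ∣ i - j) :
    ∃ n, a + h < b + N * n - h ∧ b + N * n + h < a + N - h := by
  have hq := Int.mul_ediv_add_emod (b - a) N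
  have h0 := Int.emod_nonneg (b - a) (ne_of_gt hN)
  have h1 := Int.emod_lt_of_pos (b - a) hN
  set ρ := (b - a) % N with hρ
  set q := (b - a) / N with hq'
  have e : N * -q = -(N * q) := by ring
  refine ⟨-q, ?_, ?_⟩
  · by_contra hc
    rw [e] at hc
    by_cases h2 : ρ ≤ h
    · refine hd (a + ρ) b (by rw [add_sub_cancel_left, abs_of_nonneg h0]; exact h2)
        (by rw [sub_self, abs_zero]; exact hh) ⟨-q, ?_⟩
      rw [e]
      omega
    · refine hd (a + h) (b - (ρ - h)) (by rw [add_sub_cancel_left, abs_of_nonneg hh])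
        (by rw [abs_le]; omega) ⟨-q, ?_⟩
      rw [e]
      omega
  · by_contra hc
    rw [e] at hc
    have e' : N * (-q - 1) = -(N * q) - N := by ring
    by_cases h2 : N - ρ ≤ h
    · refine hd (a - (N - ρ)) b (by rw [abs_le]; omega)
        (by rw [sub_self, abs_zero]; exact hh) ⟨-q - 1, ?_⟩
      rw [e']
      omega
    · refine hd (a - h) (b + (N - ρ - h)) (by rw [abs_le]; omega)
        (by rw [abs_le]; omega) ⟨-q - 1, ?_⟩
      rw [e']
      omega

/-- a point outside both windows lies in one of the two arcs -/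
theorem arcs_pt {N h a b i : ℤ} (hh : 0 ≤ h) (hN : 0 < N) (hab : a + h < b - h)
    (hba : b + h < a + N - h) (ha : ∀ j, |j - a| ≤ h → ¬ N ∣ i - j)
    (hb : ∀ j, |j - b| ≤ h → ¬ N ∣ i - j) :
    ∃ n, (a + h < i + N * n ∧ i + N * n < b - h) ∨
      (b + h < i + N * n ∧ i + N * n < a + N - h) := by
  have hq := Int.mul_ediv_add_emod (i - a) N
  have h0 := Int.emod_nonneg (i - a) (ne_of_gt hN)
  have h1 := Int.emod_lt_of_pos (i - a) hN
  set ρ := (i - a) % N with hρ
  set q := (i - a) / N with hq'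
  have e : N * -q = -(N * q) := by ring
  have e' : N * (q + 1) = N * q + N := by ring
  have h2 : h < ρ := by
    by_contra hc
    refine ha (a + ρ) (by rw [add_sub_cancel_left, abs_of_nonneg h0]; omega) ⟨q, ?_⟩
    omega
  have h3 : h < N - ρ := by
    by_contra hc
    refine ha (a - (N - ρ)) (by rw [abs_le]; omega) ⟨q + 1, ?_⟩
    rw [e']
    omega
  refine ⟨-q, ?_⟩
  rw [e]
  by_contra hc
  refine hb (a + ρ) ?_ ⟨q, by omega⟩
  rw [abs_le]
  omega

/-- the triple of a cell as a set of ring sites -/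
theorem mem_trip {w m s k : ℤ} {v : Pt} :
    v ∈ trip w m s k ↔ ∃ i, |i - (2 * m * s + k * w)| ≤ w + w / 2 ∧ rc m i = v := by
  unfold trip arc
  rw [Set.mem_setOf_eq]
  have e1 : (k - 1) * w = k * w - w := by ring
  have e2 : (k + 1) * w = k * w + w := by ring
  rw [e1, e2]
  constructor
  · rintro ⟨i, h1, h2, h3⟩
    refine ⟨i, ?_, h3⟩
    rw [abs_le]
    omega
  · rintro ⟨i, h1, h3⟩
    rw [abs_le] at h1
    exact ⟨i, by omega, by omega, h3⟩

/-- BLOCKS ARE FAR.  Two inner blocks of sizes `w' ≤ w` with the same `r`, far from the corners (in terms of `w`), whose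
middle cells are separated by at least two: all distances are at least `2`.
Proof.  `ib_mem`: `u = rt s (x, y)`, `v = rt s' (x', y')`, `r - w < x, x' ≤ r`, `|y - k w| ≤ w/2`, `|y' - k' w'| ≤ w'/2`.  Different sides
(modulo 4): `side_far` with `m = r + 1`, `g = w`.  Same side, `s' = s + 4 n`: the two index inequalities give `n = 0` and
`k' w' - k w > w/2 + w'/2 + 1`, or `n = 1` and `k w - k' w' > w/2 + w'/2 + 1` (all coordinates are smaller than `m`); `side_near`. -/
theorem ib_far {w M w' M' r s k s' k' : ℤ} (hw : w % 2 = 1) (hw0 : 2 ≤ w) (hw' : w' % 2 = 1)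
    (hw0' : 0 < w') (hww : w' ≤ w) (hr : r = M * w + w / 2) (hr' : r = M' * w' + w' / 2)
    (hk : |k| * w + 4 * w ≤ r + 1) (hk' : |k'| * w' + 4 * w ≤ r + 1)
    (h1 : 2 * (r + 1) * s + k * w + w / 2 + w' / 2 + 1 < 2 * (r + 1) * s' + k' * w')
    (h2 : 2 * (r + 1) * s' + k' * w' + w / 2 + w' / 2 + 1 < 2 * (r + 1) * (s + 4) + k * w)
    {u v : Pt} (hu : u ∈ ib w M s k) (hv : v ∈ ib w' M' s' k') : 2 ≤ nrm (u - v) := by
  obtain ⟨x, y, a1, a2, a3, a4, rfl⟩ := (ib_mem hw (by omega) hr).1 hu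
  obtain ⟨x', y', b1, b2, b3, b4, rfl⟩ := (ib_mem hw' hw0' hr').1 hv
  have e1 : |k| * w = |k * w| := by rw [abs_mul, abs_of_pos (show 0 < w by omega)]
  have e2 : |k'| * w' = |k' * w'| := by rw [abs_mul, abs_of_pos hw0']
  rw [e1] at hk
  rw [e2] at hk'
  obtain ⟨A, hA⟩ : ∃ A, A = k * w := ⟨_, rfl⟩
  obtain ⟨B, hB⟩ : ∃ B, B = k' * w' := ⟨_, rfl⟩
  rw [← hA] at hk h1 h2 a3 a4
  rw [← hB] at hk' h1 h2 b3 b4
  have hk1 := abs_le.1 (show |A| ≤ r + 1 - 4 * w by omega)
  have hk2 := abs_le.1 (show |B| ≤ r + 1 - 4 * w by omega)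
  by_cases hs : s % 4 = s' % 4
  · refine le_trans ?_ (side_near hs)
    obtain ⟨n, hn⟩ : ∃ n, s' = s + 4 * n := ⟨s' / 4 - s / 4, by omega⟩
    subst hn
    have e3 : 2 * (r + 1) * (s + 4 * n) = 2 * (r + 1) * s + 8 * ((r + 1) * n) := by ring
    have e4 : 2 * (r + 1) * (s + 4) = 2 * (r + 1) * s + 8 * (r + 1) := by ring
    rw [e3] at h1 h2
    rw [e4] at h2
    have hr1 : 0 < r + 1 := by omega
    have hn0 : 0 ≤ n := by
      by_contra hc
      have : (r + 1) * n ≤ (r + 1) * (-1) := mul_le_mul_of_nonneg_left (by omega) hr1.le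
      omega
    have hn1 : n ≤ 1 := by
      by_contra hc
      have : (r + 1) * 2 ≤ (r + 1) * n := mul_le_mul_of_nonneg_left (by omega) hr1.le
      omega
    have hn2 : n = 0 ∨ n = 1 := by omega
    rcases hn2 with rfl | rfl
    · rw [mul_zero] at h1 h2
      rw [abs_sub_comm]
      exact le_trans (by omega) (le_abs_self _)
    · rw [mul_one] at h1 h2
      exact le_trans (by omega) (le_abs_self _)
  · refine le_trans hw0 (side_far (m := r + 1) (by omega) (by omega) hs (by omega) (by omega)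
      ?_ ?_)
    · rw [abs_le]
      omega
    · rw [abs_le]
      omega

/-- RING SITES ARE FAR from the neighbours of a coarse block: `u = rt s (r + 1, y')`, `|y' - k w| ≤ w/2 + 1`, the other site is
`rc (r + 1) (2 (r+1) s₂ + y₂)`, outside the triple of `(s, k)`.  Same proof (`rc_side`). -/
theorem ring_far {w r s k s₂ y₂ y' : ℤ} (hw : w % 2 = 1) (hw0 : 2 ≤ w)
    (hk : |k| * w + 4 * w ≤ r + 1) (hy : |y₂| + 4 * w ≤ r + 1)
    (h1 : 2 * (r + 1) * s + ((k + 1) * w + w / 2) < 2 * (r + 1) * s₂ + y₂)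
    (h2 : 2 * (r + 1) * s₂ + y₂ < 2 * (r + 1) * (s + 4) + ((k - 1) * w - w / 2))
    (hy' : |y' - k * w| ≤ w / 2 + 1) :
    w - 1 ≤ nrm (rt s (r + 1, y') - rc (r + 1) (2 * (r + 1) * s₂ + y₂)) := by
  have e1 : |k| * w = |k * w| := by rw [abs_mul, abs_of_pos (show 0 < w by omega)]
  rw [e1] at hk
  have e5 : (k + 1) * w = k * w + w := by ring
  have e6 : (k - 1) * w = k * w - w := by ring
  rw [e5] at h1
  rw [e6] at h2
  obtain ⟨A, hA⟩ : ∃ A, A = k * w := ⟨_, rfl⟩
  rw [← hA] at hk h1 h2 hy'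
  have hk1 := abs_le.1 (show |A| ≤ r + 1 - 4 * w by omega)
  have hy1 := abs_le.1 (show |y₂| ≤ r + 1 - 4 * w by omega)
  have hy2 := abs_le.1 hy'
  have hr1 : 0 < r + 1 := by have := abs_nonneg A; omega
  rw [rc_side (m := r + 1) (by omega) (by omega)]
  by_cases hs : s % 4 = s₂ % 4
  · refine le_trans ?_ (side_near hs)
    obtain ⟨n, hn⟩ : ∃ n, s₂ = s + 4 * n := ⟨s₂ / 4 - s / 4, by omega⟩
    subst hn
    have e3 : 2 * (r + 1) * (s + 4 * n) = 2 * (r + 1) * s + 8 * ((r + 1) * n) := by ring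
    have e4 : 2 * (r + 1) * (s + 4) = 2 * (r + 1) * s + 8 * (r + 1) := by ring
    rw [e3] at h1 h2
    rw [e4] at h2
    have hn0 : 0 ≤ n := by
      by_contra hc
      have : (r + 1) * n ≤ (r + 1) * (-1) := mul_le_mul_of_nonneg_left (by omega) hr1.le
      omega
    have hn1 : n ≤ 1 := by
      by_contra hc
      have : (r + 1) * 2 ≤ (r + 1) * n := mul_le_mul_of_nonneg_left (by omega) hr1.le
      omega
    have hn2 : n = 0 ∨ n = 1 := by omega
    rcases hn2 with rfl | rfl
    · rw [mul_zero] at h1 h2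
      rw [abs_sub_comm]
      exact le_trans (by omega) (le_abs_self _)
    · rw [mul_one] at h1 h2
      exact le_trans (by omega) (le_abs_self _)
  · refine le_trans (show w - 1 ≤ w by omega) (side_far (m := r + 1) (by omega) (by omega) hs
      (by omega) (by omega) ?_ ?_)
    · rw [abs_le]
      omega
    · rw [abs_le]
      omega

end SC
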