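import Pool.Agent.Lib_MP_e0a489.FT1

/-!
# MP_e0a489, shared by OS and IS, 1: windows on a ring, bad event

`o = true`: inner separation, the half boxes of the ring `m` (`m = r + 1`) go outward; `o = false`: outer
separation, the half boxes of the ring `m` (`m = R`) go inward.  The site `(x, y)` of the standard half box
`rect (-2β) (2β) 0 (2β)` of the window `(s, y₀)` is the site `rt s (m ± y, y₀ + x)`.
-/

set_option autoImplicit false

namespace SC

open Classical

/-- the window map -/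
def we (o : Bool) (m s y₀ : ℤ) : Equiv.Perm Pt :=
  rt s * Equiv.addRight ((m, y₀) : Pt) * (if o then Equiv.prodComm ℤ ℤ else rotE)

/-- the lattice seen through the window map -/
def wl (L : Lat) (o : Bool) (m s y₀ : ℤ) : Lat :=
  if o then ((L.rots s).shift (m, y₀)).tr else ((L.rots s).shift (m, y₀)).rot

theorem we_true (m s y₀ x y : ℤ) : we true m s y₀ (x, y) = rt s (m + y, y₀ + x) := by
  have h : we true m s y₀ (x, y) = rt s ((y, x) + (m, y₀)) := rfl
  rw [h, Prod.mk_add_mk, add_comm y m, add_comm x y₀]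

theorem we_false (m s y₀ x y : ℤ) : we false m s y₀ (x, y) = rt s (m - y, y₀ + x) := by
  have h : we false m s y₀ (x, y) = rt s ((-y, x) + (m, y₀)) := rfl
  rw [h, Prod.mk_add_mk, add_comm x y₀, neg_add_eq_sub]

theorem tr_wl (L : Lat) (o : Bool) (m s y₀ : ℤ) : Tr L (wl L o m s y₀) (we o m s y₀) := by
  cases o with
  | true =>
    exact ((tr_rots L s).trans (tr_shift (L.rots s) (m, y₀))).trans (tr_tr ((L.rots s).shift (m, y₀)))
  | false =>
    exact ((tr_rots L s).trans (tr_shift (L.rots s) (m, y₀))).trans (tr_rot ((L.rots s).shift (m, y₀)))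

theorem rsw_wl {L : Lat} {κ : ℕ → ℝ} (h : RSW L κ) (o : Bool) (m s y₀ : ℤ) :
    RSW (wl L o m s y₀) κ := by
  cases o with
  | true => exact ((h.rots s).shift (m, y₀)).tr
  | false => exact ((h.rots s).shift (m, y₀)).rot

/-- the half box of a window with `|y₀| + 2β < m`, outward case: norms between `m` and `m + 2β` -/
theorem we_true_nrm {m s y₀ β : ℤ} (hβ : 0 ≤ β) (h : |y₀| + 2 * β < m) {v : Pt}
    (hv : v ∈ rect (-(2 * β)) (2 * β) 0 (2 * β)) :
    m ≤ nrm (we true m s y₀ v) ∧ nrm (we true m s y₀ v) ≤ m + 2 * β := by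
  obtain ⟨x, y⟩ := v
  obtain ⟨⟨h1, h2⟩, h3, h4⟩ := hv
  simp only at h1 h2 h3 h4
  rw [we_true, nrm_rt]
  have h0 := abs_nonneg y₀
  have h5 : |m + y| = m + y := abs_of_nonneg (by omega)
  have h6 : |y₀ + x| ≤ |y₀| + 2 * β := (abs_add_le _ _).trans (by
    have : |x| ≤ 2 * β := abs_le.2 ⟨h1, h2⟩
    omega)
  unfold nrm
  simp only
  rw [h5]
  exact ⟨le_max_of_le_left (by omega), max_le (by omega) (by omega)⟩

/-- inward case: norms between `m - 2β` and `m` -/
theorem we_false_nrm {m s y₀ β : ℤ} (hβ : 0 ≤ β) (h : |y₀| + 2 * β < m) {v : Pt}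
    (hv : v ∈ rect (-(2 * β)) (2 * β) 0 (2 * β)) :
    m - 2 * β ≤ nrm (we false m s y₀ v) ∧ nrm (we false m s y₀ v) ≤ m := by
  obtain ⟨x, y⟩ := v
  obtain ⟨⟨h1, h2⟩, h3, h4⟩ := hv
  simp only at h1 h2 h3 h4
  rw [we_false, nrm_rt]
  have h0 := abs_nonneg y₀
  have h5 : |m - y| = m - y := abs_of_nonneg (by omega)
  have h6 : |y₀ + x| ≤ |y₀| + 2 * β := (abs_add_le _ _).trans (by
    have : |x| ≤ 2 * β := abs_le.2 ⟨h1, h2⟩
    omega)
  unfold nrm
  simp only
  rw [h5]
  exact ⟨le_max_of_le_left (by omega), max_le (by omega) (by omega)⟩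

namespace Lat

/-- alternate triple within distance `a` in the window `(s, y₀)` of the ring `m`, half box of size `β` -/
def Tri (L : Lat) (o : Bool) (m s y₀ β a : ℤ) (ω : Cfg) : Prop :=
  (wl L o m s y₀).Alt3 β a (via (we o m s y₀) ω)

/-- arm of colour `b` in `D` from distance `ρ` to distance `ℓ` of the corner number `s` of the ring `m` -/
def Crn (L : Lat) (b : Bool) (D : Set Pt) (m s ρ ℓ : ℤ) (ω : Cfg) : Prop :=
  L.Arm b (D ∩ {v | nrm (v - rt s (m, m)) ≤ ℓ}) {v | nrm (v - rt s (m, m)) ≤ ρ}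
    {v | ℓ ≤ nrm (v - rt s (m, m))} ω

/-- bad event: an arm near one of the four corners, or an alternate triple in one of the windows
`y₀ = β j`, `|β j| + 2 β < m` -/
def BadW (L : Lat) (o : Bool) (D : Set Pt) (m ρ ℓ β a : ℤ) (ω : Cfg) : Prop :=
  (∃ b : Bool, ∃ s ∈ Finset.Icc (0 : ℤ) 3, L.Crn b D m s ρ ℓ ω) ∨
    ∃ s ∈ Finset.Icc (0 : ℤ) 3, ∃ j ∈ Finset.Icc (-(m / β)) (m / β),
      |β * j| + 2 * β < m ∧ L.Tri o m s (β * j) β a ω

end Lat

end SC
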