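import Pool.Agent.Lib_MP_e0a489.RC1
import Pool.Agent.Lib_MP_e0a489.SH1

/-!
# MP_e0a489, shared by OS and IS, 4: paths near a ring produce the bad event
-/

set_option autoImplicit false

namespace SC

open Classical

/-- the region outside (`o = true`) or inside (`o = false`) the ring `m`, with the ring -/
def reg (o : Bool) (m : ℤ) : Set Pt := if o then {v | m ≤ nrm v} else {v | nrm v ≤ m}


private theorem sh4_lin (s : ℤ) (u v : Pt) : rt s (u + v) = rt s u + rt s v := by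
  have h0 : rt s = rt (s % 4) := rt_mod (by omega)
  rw [h0]
  have h1 : s % 4 = 0 ∨ s % 4 = 1 ∨ s % 4 = 2 ∨ s % 4 = 3 := by omega
  obtain ⟨a, b⟩ := u
  obtain ⟨c, d⟩ := v
  rcases h1 with h | h | h | h
  · rw [h, rt_zero, rt_zero, rt_zero]
  · rw [h, rt_one, rt_one, rt_one]
    show ((-(b + d), a + c) : Pt) = (-b + -d, a + c)
    rw [neg_add]
  · rw [h, rt_two, rt_two, rt_two]
    show ((-(a + c), -(b + d)) : Pt) = (-a + -c, -b + -d)
    rw [neg_add, neg_add]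
  · rw [h, rt_three, rt_three, rt_three]
    show ((b + d, -(a + c)) : Pt) = (b + d, -a + -c)
    rw [neg_add]

private theorem sh4_sub (s : ℤ) (u v : Pt) : rt s u - rt s v = rt s (u - v) := by
  have h := sh4_lin s (u - v) v
  rw [sub_add_cancel] at h
  rw [h, add_sub_cancel_right]

private theorem sh4_nrm_sub (s a b c d : ℤ) :
    nrm (rt s (a, b) - rt s (c, d)) = max |a - c| |b - d| := by
  rw [sh4_sub, nrm_rt]
  rfl

private theorem sh4_adj {L : Lat} {p q c : Pt} (h : L.Adj p q) : nrm (q - c) ≤ nrm (p - c) + 1 := by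
  obtain ⟨h1, h2⟩ := h.near
  have h3 : nrm (p - c) = max |p.1 - c.1| |p.2 - c.2| := rfl
  have h4 : nrm (q - c) = max |q.1 - c.1| |q.2 - c.2| := rfl
  rw [h3, h4]
  have e1 : |q.1 - c.1| ≤ |p.1 - c.1| + |p.1 - q.1| := by
    have := abs_sub_le q.1 p.1 c.1
    rw [abs_sub_comm q.1 p.1] at this
    linarith
  have e2 : |q.2 - c.2| ≤ |p.2 - c.2| + |p.2 - q.2| := by
    have := abs_sub_le q.2 p.2 c.2
    rw [abs_sub_comm q.2 p.2] at this
    linarith
  have m1 := le_max_left |p.1 - c.1| |p.2 - c.2|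
  have m2 := le_max_right |p.1 - c.1| |p.2 - c.2|
  apply max_le <;> linarith

namespace Lat

variable {L : Lat}

/-- A path of colour `b` in the region, from the site `rt s (m, y₀ + x)` of the ring to a site outside the half box
of the window, contains an arm of the half box.
Proof.  `Tr.arm` for `tr_wl`: it is enough to find the arm in `L` for the images under `e = we o m s y₀`;
`e (x, 0) = rt s (m, y₀ + x)`.  `Cn.exit` for the set `e '' rect ..`: `p = e p'`, `q = e q'`, `p'` in the half box, `q'`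
not, `p'` and `q'` adjacent in `wl L o m s y₀` (`(tr_wl ..).adj`), so `Adj.near`.  If `p'` is not in `hbo β` then
`|q'.1| ≤ 2β` and `q'.2 = -1`; so `q = rt s (m - 1, y₀ + q'.1)` (`o = true`, norm `< m` because
`|y₀ + q'.1| ≤ |y₀| + 2β < m`; `m ≥ 1`), or `q = rt s (m + 1, y₀ + q'.1)` (`o = false`, norm `> m`), contradiction to
`q ∈ D ⊆ reg o m`. -/
theorem arm_win {o b : Bool} {m s y₀ β x : ℤ} {D : Set Pt} {ω : Cfg} {v : Pt} (hβ : 1 ≤ β)
    (hy : |y₀| + 2 * β < m) (hx : |x| ≤ β) (hD : D ⊆ reg o m)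
    (h : L.Cn (D ∩ L.col b ω) (rt s (m, y₀ + x)) v)
    (hv : v ∉ we o m s y₀ '' rect (-(2 * β)) (2 * β) 0 (2 * β)) :
    (wl L o m s y₀).Arm b (rect (-(2 * β)) (2 * β) 0 (2 * β)) {(x, 0)} (hbo β)
      (via (we o m s y₀) ω) := by
  have T := tr_wl L o m s y₀
  have he : we o m s y₀ (x, 0) = rt s (m, y₀ + x) := by
    cases o with
    | true => rw [we_true, add_zero]
    | false => rw [we_false, sub_zero]
  obtain ⟨v', rfl⟩ := (we o m s y₀).surjective v
  have hv' : v' ∉ rect (-(2 * β)) (2 * β) 0 (2 * β) := fun hh => hv (Set.mem_image_of_mem _ hh)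
  have himg : we o m s y₀ '' ((we o m s y₀ ⁻¹' D) ∩ (wl L o m s y₀).col b (via (we o m s y₀) ω)) =
      D ∩ L.col b ω := by
    rw [Set.image_inter (we o m s y₀).injective, T.col,
      Set.image_preimage_eq _ (we o m s y₀).surjective]
  have h' : (wl L o m s y₀).Cn ((we o m s y₀ ⁻¹' D) ∩ (wl L o m s y₀).col b (via (we o m s y₀) ω))
      (x, 0) v' := by
    rw [T.cn, himg, he]
    exact h
  have hx1 := abs_le.1 hx
  have hin : ((x, 0) : Pt) ∈ rect (-(2 * β)) (2 * β) 0 (2 * β) := by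
    refine ⟨⟨?_, ?_⟩, ?_, ?_⟩ <;> simp only <;> omega
  obtain ⟨p, q, hc, ha, hq, hqS⟩ := h'.exit hin hv'
  refine ⟨(x, 0), rfl, p, ?_, hc.mono fun z hz => ⟨hz.2, hz.1.2⟩⟩
  have hp : p ∈ rect (-(2 * β)) (2 * β) 0 (2 * β) := hc.right.2
  by_contra hcon
  have hp1 : ¬ (p.1 = -(2 * β) ∨ p.1 = 2 * β ∨ p.2 = 2 * β) := fun hh => hcon ⟨hp, hh⟩
  obtain ⟨n1, n2⟩ := ha.near
  rw [abs_le] at n1 n2
  obtain ⟨⟨a1, a2⟩, a3, a4⟩ := hp
  have hq2 : q.2 = -1 := by
    by_contra hne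
    apply hqS
    refine ⟨⟨?_, ?_⟩, ?_, ?_⟩ <;> omega
  have hq1 : |q.1| ≤ 2 * β := abs_le.2 ⟨by omega, by omega⟩
  have hqy : |y₀ + q.1| < m := by
    have := abs_add_le y₀ q.1
    omega
  have hqD : we o m s y₀ q ∈ reg o m := hD hq.1
  have hqe : q = (q.1, -1) := by rw [← hq2]
  have hy0 := abs_nonneg y₀
  rw [hqe] at hqD
  cases o with
  | true =>
    rw [we_true] at hqD
    have h1 : m ≤ nrm (rt s (m + -1, y₀ + q.1)) := hqD
    rw [nrm_rt] at h1
    have h2 : nrm ((m + -1, y₀ + q.1) : Pt) = max |m + -1| |y₀ + q.1| := rfl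
    rw [h2] at h1
    have h3 : |m + -1| = m + -1 := abs_of_nonneg (by omega)
    rw [h3] at h1
    rcases le_max_iff.1 h1 with h4 | h4 <;> omega
  | false =>
    rw [we_false] at hqD
    have h1 : nrm (rt s (m - -1, y₀ + q.1)) ≤ m := hqD
    rw [nrm_rt] at h1
    have h2 : nrm ((m - -1, y₀ + q.1) : Pt) = max |m - -1| |y₀ + q.1| := rfl
    rw [h2] at h1
    have h3 : |m - -1| = m - -1 := abs_of_nonneg (by omega)
    rw [h3] at h1
    have h4 := (le_max_left _ _).trans h1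
    omega

/-- ALTERNATE TRIPLE.  Three sites of the ring with indices `i₁ < z = 2 m s + y < i₃`, `i₃ - i₁ ≤ a`, far from the
corners, with paths of colours `c, !c, c` in the region to sites at distance `≥ 3β` from `rc m z`.
Proof.  Replace `s` by `s % 4` (`rt_mod`).  `j = (y + β / 2) / β`, `y₀ = β j`, `|y - y₀| ≤ β / 2 + 1`, so `|y₀| + 2β < m` and
`|j| ≤ m / β`.  The sites are `rt s (m, y₀ + x_i)` (`rc_side`) with `-β < x₁ < x₂ < x₃ < β`.  Every site of the half box of the window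
is at distance `≤ 2β + β / 2 + 1 < 3β` from `rc m z` (`nrm_rt`, `rt s` is additive).  So `arm_win` applies to the
three paths. -/
theorem tri_of {o c : Bool} {m s y β a ρ ℓ i₁ i₃ : ℤ} {D D' : Set Pt} {ω : Cfg} {v₁ v₂ v₃ : Pt}
    (hβ : 8 ≤ β) (ha : 4 * a ≤ β) (hy : |y| + 3 * β ≤ m) (hD : D ⊆ reg o m)
    (h1 : i₁ < 2 * m * s + y) (h3 : 2 * m * s + y < i₃) (h13 : i₃ - i₁ ≤ a)
    (p₁ : L.Cn (D ∩ L.col c ω) (rc m i₁) v₁)
    (p₂ : L.Cn (D ∩ L.col (!c) ω) (rc m (2 * m * s + y)) v₂)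
    (p₃ : L.Cn (D ∩ L.col c ω) (rc m i₃) v₃)
    (f₁ : 3 * β ≤ nrm (v₁ - rc m (2 * m * s + y)))
    (f₂ : 3 * β ≤ nrm (v₂ - rc m (2 * m * s + y)))
    (f₃ : 3 * β ≤ nrm (v₃ - rc m (2 * m * s + y))) : L.BadW o D' m ρ ℓ β a ω := by
  have hβ0 : 0 < β := by omega
  have hy0 := abs_nonneg y
  have hm : 1 ≤ m := by omega
  set j : ℤ := (y + β / 2) / β with hj
  have hj1 : β * j ≤ y + β / 2 := Int.mul_ediv_self_le hβ0.ne'
  have hj2 : y + β / 2 < β * j + β := Int.lt_mul_ediv_self_add hβ0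
  have hyy : |y - β * j| ≤ β / 2 + 1 := abs_le.2 ⟨by omega, by omega⟩
  have hy00 : |β * j| ≤ |y| + (β / 2 + 1) := by
    have := abs_sub_abs_le_abs_sub (β * j) y
    rw [abs_sub_comm (β * j) y] at this
    omega
  have hlt : |β * j| + 2 * β < m := by omega
  have hjm : |j| ≤ m / β := by
    rw [Int.le_ediv_iff_mul_le hβ0]
    have h1 : |j| * β = |β * j| := by rw [abs_mul, abs_of_pos hβ0, mul_comm]
    rw [h1]
    omega
  have hjm' := abs_le.1 hjm
  have hyy' := abs_le.1 hyy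
  have hrs : rt s = rt (s % 4) := rt_mod (by omega)
  have hrc : rc m (2 * m * s + y) = rt s (m, y) := rc_side hm (by omega)
  have hfar : ∀ v : Pt, 3 * β ≤ nrm (v - rc m (2 * m * s + y)) →
      v ∉ we o m (s % 4) (β * j) '' rect (-(2 * β)) (2 * β) 0 (2 * β) := by
    rintro v hv ⟨⟨x', y'⟩, ⟨⟨b1, b2⟩, b3, b4⟩, rfl⟩
    simp only at b1 b2 b3 b4
    rw [hrc, hrs] at hv
    cases o with
    | true =>
      rw [we_true, sh4_nrm_sub] at hv
      have c1 : |m + y' - m| ≤ 2 * β := abs_le.2 ⟨by omega, by omega⟩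
      have c2 : |β * j + x' - y| < 3 * β := abs_lt.2 ⟨by omega, by omega⟩
      rcases le_max_iff.1 hv with h4 | h4 <;> omega
    | false =>
      rw [we_false, sh4_nrm_sub] at hv
      have c1 : |m - y' - m| ≤ 2 * β := abs_le.2 ⟨by omega, by omega⟩
      have c2 : |β * j + x' - y| < 3 * β := abs_lt.2 ⟨by omega, by omega⟩
      rcases le_max_iff.1 hv with h4 | h4 <;> omega
  have harm : ∀ (b : Bool) (i : ℤ) (v : Pt), |i - 2 * m * s - β * j| ≤ β →
      L.Cn (D ∩ L.col b ω) (rc m i) v → 3 * β ≤ nrm (v - rc m (2 * m * s + y)) →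
      (wl L o m (s % 4) (β * j)).Arm b (rect (-(2 * β)) (2 * β) 0 (2 * β))
        {(i - 2 * m * s - β * j, 0)} (hbo β) (via (we o m (s % 4) (β * j)) ω) := by
    intro b i v hi hc hv
    refine arm_win (D := D) (v := v) (by omega) hlt hi hD ?_ (hfar v hv)
    have e1 : i = 2 * m * s + (β * j + (i - 2 * m * s - β * j)) := by ring
    have e2 : rc m i = rt (s % 4) (m, β * j + (i - 2 * m * s - β * j)) := by
      rw [← hrs]
      conv_lhs => rw [e1]
      refine rc_side hm ?_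
      have := abs_add_le (β * j) (i - 2 * m * s - β * j)
      omega
    rw [← e2]
    exact hc
  set M : ℤ := 2 * m * s with hM
  refine Or.inr ⟨s % 4, Finset.mem_Icc.2 ⟨by omega, by omega⟩, j,
    Finset.mem_Icc.2 ⟨hjm'.1, hjm'.2⟩, hlt, ?_⟩
  have q2 : M + y - M - β * j = y - β * j := by ring
  have g2 := harm (!c) (M + y) v₂ (by rw [q2]; omega) p₂ f₂
  have g1 := harm c i₁ v₁ (abs_le.2 ⟨by omega, by omega⟩) p₁ f₁
  have g3 := harm c i₃ v₃ (abs_le.2 ⟨by omega, by omega⟩) p₃ f₃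
  exact ⟨c, i₁ - M - β * j, M + y - M - β * j, i₃ - M - β * j, by omega, by omega, by omega,
    by omega, by omega, g1, g2, g3⟩

/-- CORNER.  A site of the ring at distance `≤ ρ` from a corner with a path of colour `b` to a site at distance `≥ ℓ` from
all corners.  Proof.  `rc m (2 m s + y) = rt s (m, y)` (`rc_side`), the nearest corner is `rt s (m, m)` if `y ≥ 0` and
`rt (s + 3) (m, m) = rt s (m, -m)` if `y < 0`, at distance `m - |y| ≤ ρ`; reduce the number of the corner modulo 4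
(`rt_mod`).  The distance `nrm (v - corner)` changes by at most one along a step (`Adj.near`): if the start has distance
`≥ ℓ` take it alone when the distance is `ℓ`, in general use `Cn.exit` for the set `{distance < ℓ}`, the exit site has distance `ℓ`; if
the start has distance `> ℓ` the hypothesis `ρ ≤ ℓ` is violated. -/
theorem crn_of {o b : Bool} {m s y ρ ℓ β a : ℤ} {D D' : Set Pt} {ω : Cfg} {v : Pt} (hm : 1 ≤ m)
    (hρ : ρ ≤ ℓ) (hy : |y| ≤ m) (hy' : m ≤ |y| + ρ)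
    (h : L.Cn (D ∩ L.col b ω) (rc m (2 * m * s + y)) v)
    (hD : ∀ s, ∀ v ∈ D, nrm (v - rt s (m, m)) ≤ ℓ → v ∈ D')
    (hv : ∀ s, ℓ ≤ nrm (v - rt s (m, m))) : L.BadW o D' m ρ ℓ β a ω := by
  have hu : rc m (2 * m * s + y) = rt s (m, y) := rc_side hm hy
  have key : ∃ s₀ : ℤ, nrm (rc m (2 * m * s + y) - rt s₀ (m, m)) ≤ ρ := by
    rcases le_or_gt 0 y with h0 | h0
    · refine ⟨s, ?_⟩
      rw [hu, sh4_nrm_sub]
      have c1 : |m - m| = 0 := by rw [sub_self, abs_zero]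
      have hya : |y| = y := abs_of_nonneg h0
      have c2 : |y - m| ≤ ρ := abs_le.2 ⟨by omega, by omega⟩
      rw [c1]
      exact max_le (by omega) c2
    · refine ⟨s + 3, ?_⟩
      rw [hu, rt_add, rt_three]
      rw [show (((m, m) : Pt).2, -((m, m) : Pt).1) = (m, -m) from rfl, sh4_nrm_sub]
      have c1 : |m - m| = 0 := by rw [sub_self, abs_zero]
      have hya : |y| = -y := abs_of_neg h0
      have c2 : |y - -m| ≤ ρ := abs_le.2 ⟨by omega, by omega⟩
      rw [c1]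
      exact max_le (by omega) c2
  obtain ⟨s₀, hs₀⟩ := key
  have hrs : rt s₀ = rt (s₀ % 4) := rt_mod (by omega)
  refine Or.inl ⟨b, s₀ % 4, Finset.mem_Icc.2 ⟨by omega, by omega⟩, ?_⟩
  unfold Crn
  rw [← hrs]
  by_cases hin : nrm (rc m (2 * m * s + y) - rt s₀ (m, m)) < ℓ
  · obtain ⟨p, q, hc, ha, hq, hqS⟩ := h.exit
      (S := {z | nrm (z - rt s₀ (m, m)) < ℓ}) hin (fun hh => absurd (hv s₀) (not_le.2 hh))
    have hq1 : ℓ ≤ nrm (q - rt s₀ (m, m)) := not_lt.1 hqS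
    have hp1 : nrm (p - rt s₀ (m, m)) < ℓ := hc.right.2
    have hq2 : nrm (q - rt s₀ (m, m)) ≤ ℓ := by
      have := sh4_adj (c := rt s₀ (m, m)) ha
      omega
    refine ⟨_, hs₀, q, hq1, ?_⟩
    have hc' : L.Cn (D' ∩ {v | nrm (v - rt s₀ (m, m)) ≤ ℓ} ∩ L.col b ω)
        (rc m (2 * m * s + y)) p := hc.mono fun z hz => by
      have hz2 : nrm (z - rt s₀ (m, m)) < ℓ := hz.2
      have hz3 : nrm (z - rt s₀ (m, m)) ≤ ℓ := le_of_lt hz2
      exact ⟨⟨hD s₀ z hz.1.1 hz3, hz3⟩, hz.1.2⟩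
    have hfin : q ∈ D' ∩ {v | nrm (v - rt s₀ (m, m)) ≤ ℓ} ∩ L.col b ω :=
      ⟨⟨hD s₀ q hq.1 hq2, hq2⟩, hq.2⟩
    exact ⟨hc'.1, hc'.2.tail ⟨ha, hfin⟩⟩
  · have hge : ℓ ≤ nrm (rc m (2 * m * s + y) - rt s₀ (m, m)) := not_lt.1 hin
    have hle : nrm (rc m (2 * m * s + y) - rt s₀ (m, m)) ≤ ℓ := hs₀.trans hρ
    refine ⟨_, hs₀, _, hge, ?_⟩
    exact Cn.refl ⟨⟨hD s₀ _ h.1.1 hle, hle⟩, h.1.2⟩

end Lat

end SC
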