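import Pool.Agent.Lib_MP_e0a489.RC2
import Pool.Agent.Lib_MP_e0a489.SH4

/-!
# MP_e0a489, shared by OS and IS, 5: a good landing position
-/

set_option autoImplicit false

namespace SC

open Classical

namespace Lat

variable {L : Lat}

/-- GOOD POSITION.  `V` is a component of `D \ C`, `x = rc m z ∈ V` a site of the ring with a path of colour `c` in the
region to a far site; the sites of `C` on the ring near `x` have paths of colour `!c` to far sites.  If the bad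
event does not occur then `x` is far from the corners and there is a cell of size `w` near `x` whose triple
lies in `V`.
Proof.  `idx_side`: `z = 2 m s + y`, `|y| ≤ m`; `crn_of` gives `|y| + ρ < m`.  `Z = {i | rc m i ∈ C}`, `z ∉ Z`.  If `Z` had
elements on both sides of `z` within `6 w`, `tri_of` (with `c` replaced by `!c`, `a = 12 w`) would give the bad event.
So `good_cell` gives `k`.  The arc between `z` and the triple, `arc m (min ..) (max ..)`, is connected (`con_arc`), lies in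
`rng m \ C ⊆ D \ C` (`rc_nrm`) and contains `x ∈ V`, so it is contained in `V` (`Comp.absorb`); it contains `trip w m s k`. -/
theorem good_pos {o c : Bool} {m w ρ ℓ β z : ℤ} {D D' E C V : Set Pt} {ω : Cfg} {v : Pt}
    (hw : w % 2 = 1) (hw0 : 0 < w) (hβ : 8 ≤ β) (hwβ : 48 * w ≤ β) (hρ : 4 * β ≤ ρ) (hρℓ : ρ ≤ ℓ)
    (hm : 1 ≤ m) (hbad : ¬ L.BadW o D' m ρ ℓ β (12 * w) ω) (hE : E ⊆ reg o m)
    (hED : ∀ s, ∀ v ∈ E, nrm (v - rt s (m, m)) ≤ ℓ → v ∈ D')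
    (hring : rng m ⊆ D) (hV : L.Comp (D \ C) V) (hz : rc m z ∈ V)
    (hp : L.Cn (E ∩ L.col c ω) (rc m z) v) (hv : 3 * β ≤ nrm (v - rc m z))
    (hv' : ∀ s, ℓ ≤ nrm (v - rt s (m, m)))
    (hC : ∀ i, |i - z| ≤ 6 * w → rc m i ∈ C →
      ∃ v, L.Cn (E ∩ L.col (!c) ω) (rc m i) v ∧ 3 * β ≤ nrm (v - rc m z)) :
    ∃ s k y : ℤ, z = 2 * m * s + y ∧ |y| + ρ < m ∧ k ≠ 0 ∧ y - 6 * w ≤ (k - 1) * w - w / 2 ∧
      (k + 1) * w + w / 2 ≤ y + 6 * w ∧ trip w m s k ⊆ V := by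
  obtain ⟨s, y, hy, hzy⟩ := idx_side hm z
  have hyρ : |y| + ρ < m := by
    by_contra hcon
    push Not at hcon
    apply hbad
    rw [hzy] at hp
    exact crn_of hm hρℓ hy hcon hp hED hv'
  have hzC : rc m z ∉ C := (hV.sub hz).2
  have hzZ : 2 * m * s + y ∉ {i : ℤ | rc m i ∈ C} := by
    rw [← hzy]
    exact hzC
  have hns : ¬ ((∃ i ∈ {i : ℤ | rc m i ∈ C}, 2 * m * s + y - 6 * w ≤ i ∧ i < 2 * m * s + y) ∧
      ∃ j ∈ {i : ℤ | rc m i ∈ C}, 2 * m * s + y < j ∧ j ≤ 2 * m * s + y + 6 * w) := by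
    rintro ⟨⟨i, hi, hi1, hi2⟩, ⟨j, hj, hj1, hj2⟩⟩
    have hi' : rc m i ∈ C := hi
    have hj' : rc m j ∈ C := hj
    obtain ⟨v₁, q₁, f₁⟩ := hC i (abs_le.2 ⟨by omega, by omega⟩) hi'
    obtain ⟨v₃, q₃, f₃⟩ := hC j (abs_le.2 ⟨by omega, by omega⟩) hj'
    apply hbad
    rw [hzy] at hp hv f₁ f₃
    refine tri_of (c := !c) (i₁ := i) (i₃ := j) hβ (by omega) (by omega) hE hi2 hj1 (by omega)
      q₁ ?_ q₃ f₁ hv f₃
    rw [Bool.not_not]
    exact hp
  obtain ⟨k, hk0, hk1, hk2, hk3⟩ := good_cell hw hw0 (by omega) hzZ hns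
  refine ⟨s, k, y, hzy, hyρ, hk0, hk1, hk2, ?_⟩
  have hww : 0 ≤ w / 2 := by omega
  have hsub : arc m (min (2 * m * s + y) (2 * m * s + (k - 1) * w - w / 2))
      (max (2 * m * s + y) (2 * m * s + (k + 1) * w + w / 2)) ⊆ V := by
    refine hV.absorb (con_arc hm _ _) ?_ ⟨rc m z, ?_, hz⟩
    · rintro v ⟨i, hi1, hi2, rfl⟩
      refine ⟨hring (rc_nrm hm), ?_⟩
      intro hiC
      exact hk3 i hiC ⟨hi1, hi2⟩
    · refine ⟨2 * m * s + y, min_le_left _ _, le_max_left _ _, ?_⟩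
      rw [hzy]
  intro v hvt
  obtain ⟨i, hi1, hi2, rfl⟩ := hvt
  exact hsub ⟨i, (min_le_right _ _).trans hi1, hi2.trans (le_max_right _ _), rfl⟩

end Lat

end SC
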