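import Pool.Agent.Lib_MP_e0a489.TC2

/-!
# MP_e0a489, topology 3d: annuli
-/

set_option autoImplicit false

namespace SC

open Classical

namespace Lat

variable {L : Lat}

/-- an annulus in coordinates -/
private theorem mem_ann_iff' {r R : ℤ} (v : Pt) : v ∈ ann r R ↔
    ((r < v.1 ∨ r < -v.1) ∨ (r < v.2 ∨ r < -v.2)) ∧ (-R ≤ v.1 ∧ v.1 ≤ R) ∧
      (-R ≤ v.2 ∧ v.2 ≤ R) := by
  simp only [ann, nrm, Set.mem_setOf_eq, lt_max_iff, lt_abs, max_le_iff, abs_le]

/-- a ring in coordinates -/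
private theorem mem_rng_iff' {R : ℤ} (v : Pt) : v ∈ rng R ↔
    ((R ≤ v.1 ∨ R ≤ -v.1) ∨ (R ≤ v.2 ∨ R ≤ -v.2)) ∧ (-R ≤ v.1 ∧ v.1 ≤ R) ∧
      (-R ≤ v.2 ∧ v.2 ≤ R) := by
  simp only [rng, nrm, Set.mem_setOf_eq]
  rw [le_antisymm_iff]
  simp only [le_max_iff, le_abs, max_le_iff, abs_le]
  exact and_comm

/-- edge condition of the gluing lemmas, corner between two pieces -/
private theorem edge_help {M₁ M₂ : Set Pt}
    (H : ∀ u ∈ M₁, ∀ v ∈ M₂, u ∉ M₂ → v ∉ M₁ → (-1 ≤ u.1 - v.1 ∧ u.1 - v.1 ≤ 1) →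
      (-1 ≤ u.2 - v.2 ∧ u.2 - v.2 ≤ 1) →
      u.1 ≠ v.1 ∧ u.2 ≠ v.2 ∧ ((u.1, v.2) : Pt) ∈ M₁ ∧ ((u.1, v.2) : Pt) ∈ M₂) :
    ∀ u ∈ M₁ ∪ M₂, ∀ v ∈ M₁ ∪ M₂, L.Adj u v → (u ∈ M₁ ∧ v ∈ M₁) ∨ (u ∈ M₂ ∧ v ∈ M₂) ∨
      ∃ w ∈ M₁ ∩ M₂, L.Adj u w ∧ L.Adj w v := by
  have key : ∀ u ∈ M₁, ∀ v ∈ M₂, L.Adj u v → (u ∈ M₁ ∧ v ∈ M₁) ∨ (u ∈ M₂ ∧ v ∈ M₂) ∨
      ∃ w ∈ M₁ ∩ M₂, L.Adj u w ∧ L.Adj w v := by
    intro u hu v hv h
    by_cases h1 : v ∈ M₁
    · exact Or.inl ⟨hu, h1⟩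
    by_cases h2 : u ∈ M₂
    · exact Or.inr (Or.inl ⟨h2, hv⟩)
    have hn := h.near
    obtain ⟨a, b, c, d⟩ := H u hu v hv h2 h1 (abs_le.mp hn.1) (abs_le.mp hn.2)
    have e1 := abs_le.mp hn.1
    have e2 := abs_le.mp hn.2
    refine Or.inr (Or.inr ⟨(u.1, v.2), ⟨c, d⟩, adj_of_nn ?_, adj_of_nn ?_⟩)
    · have : |u.2 - v.2| = 1 := by
        rcases (show u.2 - v.2 = 1 ∨ u.2 - v.2 = -1 by omega) with h | h <;> simp [h]
      simp [this]
    · have : |u.1 - v.1| = 1 := by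
        rcases (show u.1 - v.1 = 1 ∨ u.1 - v.1 = -1 by omega) with h | h <;> simp [h]
      simp [this]
  rintro u (hu | hu) v (hv | hv) h
  · exact Or.inl ⟨hu, hv⟩
  · exact key u hu v hv h
  · rcases key v hv u hu h.symm with ⟨a, b⟩ | ⟨a, b⟩ | ⟨w, hw, a, b⟩
    · exact Or.inl ⟨b, a⟩
    · exact Or.inr (Or.inl ⟨b, a⟩)
    · exact Or.inr (Or.inr ⟨w, hw, b.symm, a.symm⟩)
  · exact Or.inr (Or.inl ⟨hu, hv⟩)

/-- three rectangles glued to a U-shaped region -/
private theorem exact_U {r R m : ℤ} (hr : 0 ≤ r) (hR : r < R) (hm : m ≤ 0) (C : Set Pt) :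
    L.Exact (rect (r + 1) R m R ∪ (rect (-R) (-r - 1) m R ∪ rect (-R) R (r + 1) R)) C := by
  have h1 : L.Exact (rect (-R) (-r - 1) m R ∪ rect (-R) R (r + 1) R) C := by
    refine (exact_rect _ _ _ _ C).glue (exact_rect _ _ _ _ C) ?_ (edge_help ?_)
    · have : rect (-R) (-r - 1) m R ∩ rect (-R) R (r + 1) R = rect (-R) (-r - 1) (r + 1) R := by
        ext v
        simp only [rect, Set.mem_inter_iff, Set.mem_setOf_eq]
        omega
      rw [this]
      exact con_rect _ _ _ _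
    · intro u hu v hv hu' hv' ha hb
      simp only [rect, Set.mem_setOf_eq] at hu hv hu' hv' ⊢
      omega
  refine (exact_rect _ _ _ _ C).glue h1 ?_ (edge_help ?_)
  · have : rect (r + 1) R m R ∩ (rect (-R) (-r - 1) m R ∪ rect (-R) R (r + 1) R) =
        rect (r + 1) R (r + 1) R := by
      ext v
      simp only [rect, Set.mem_inter_iff, Set.mem_union, Set.mem_setOf_eq]
      omega
    rw [this]
    exact con_rect _ _ _ _
  · intro u hu v hv hu' hv' ha hb
    simp only [rect, Set.mem_union, Set.mem_setOf_eq] at hu hv hu' hv' ⊢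
    omega

/-- U-shaped region (half annulus) -/
theorem exact_half {r R : ℤ} (hr : 0 ≤ r) (hR : r < R) (C : Set Pt) :
    L.Exact (ann r R ∩ {v | 0 ≤ v.2}) C := by
  have h := exact_U (L := L) hr hR le_rfl C
  have : ann r R ∩ {v | 0 ≤ v.2} =
      rect (r + 1) R 0 R ∪ (rect (-R) (-r - 1) 0 R ∪ rect (-R) R (r + 1) R) := by
    ext v
    simp only [rect, Set.mem_inter_iff, Set.mem_union, Set.mem_setOf_eq, mem_ann_iff']
    omega
  rw [this]
  exact h

/-- quarter annulus -/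
theorem exact_quarter {r R : ℤ} (hr : 0 ≤ r) (hR : r < R) (C : Set Pt) :
    L.Exact (ann r R ∩ {v | 0 ≤ v.1 ∧ 0 ≤ v.2}) C := by
  have h : L.Exact (rect (r + 1) R 0 R ∪ rect 0 R (r + 1) R) C := by
    refine (exact_rect _ _ _ _ C).glue (exact_rect _ _ _ _ C) ?_ (edge_help ?_)
    · have : rect (r + 1) R 0 R ∩ rect 0 R (r + 1) R = rect (r + 1) R (r + 1) R := by
        ext v
        simp only [rect, Set.mem_inter_iff, Set.mem_setOf_eq]
        omega
      rw [this]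
      exact con_rect _ _ _ _
    · intro u hu v hv hu' hv' ha hb
      simp only [rect, Set.mem_setOf_eq] at hu hv hu' hv' ⊢
      omega
  have : ann r R ∩ {v | 0 ≤ v.1 ∧ 0 ≤ v.2} = rect (r + 1) R 0 R ∪ rect 0 R (r + 1) R := by
    ext v
    simp only [rect, Set.mem_inter_iff, Set.mem_union, Set.mem_setOf_eq, mem_ann_iff']
    omega
  rw [this]
  exact h

/-- the part of the outer ring in the annulus without the bottom rectangle is connected -/
private theorem con_ring1 {r R : ℤ} (hr : 0 ≤ r) (hR : r < R) :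
    L.Con (rng R ∩ (rect (r + 1) R (-R) R ∪
      (rect (-R) (-r - 1) (-R) R ∪ rect (-R) R (r + 1) R))) := by
  have : rng R ∩ (rect (r + 1) R (-R) R ∪
      (rect (-R) (-r - 1) (-R) R ∪ rect (-R) R (r + 1) R)) =
      (((rect (-R) R R R ∪ rect (-R) (-R) (-R) R) ∪ rect R R (-R) R) ∪
        rect (-R) (-r - 1) (-R) (-R)) ∪ rect (r + 1) R (-R) (-R) := by
    ext v
    simp only [rect, Set.mem_inter_iff, Set.mem_union, Set.mem_setOf_eq, mem_rng_iff']
    omega
  rw [this]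
  refine ((((con_rect _ _ _ _).union (con_rect _ _ _ _) ⟨(-R, R), ?_⟩).union
    (con_rect _ _ _ _) ⟨(R, R), ?_⟩).union (con_rect _ _ _ _) ⟨(-R, -R), ?_⟩).union
    (con_rect _ _ _ _) ⟨(R, -R), ?_⟩ <;>
  · simp only [rect, Set.mem_inter_iff, Set.mem_union, Set.mem_setOf_eq]
    omega

/-- the part of the outer ring in the bottom rectangle is connected -/
private theorem con_ring2 {r R : ℤ} (hr : 0 ≤ r) (hR : r < R) :
    L.Con (rng R ∩ rect (-R) R (-R) (-r - 1)) := by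
  have : rng R ∩ rect (-R) R (-R) (-r - 1) =
      (rect (-R) R (-R) (-R) ∪ rect (-R) (-R) (-R) (-r - 1)) ∪ rect R R (-R) (-r - 1) := by
    ext v
    simp only [rect, Set.mem_inter_iff, Set.mem_union, Set.mem_setOf_eq, mem_rng_iff']
    omega
  rw [this]
  refine ((con_rect _ _ _ _).union (con_rect _ _ _ _) ⟨(-R, -R), ?_⟩).union
    (con_rect _ _ _ _) ⟨(R, -R), ?_⟩ <;>
  · simp only [rect, Set.mem_inter_iff, Set.mem_union, Set.mem_setOf_eq]
    omega

/-- Annulus relative to a set that contains the outer ring: `glue_rel` for `M₁` = annulus minus the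
open bottom rectangle (three rectangles glued), `M₂` = bottom rectangle `[-R,R] × [-R,-r-1]`,
`Z` = outer ring. -/
theorem exact_ann {r R : ℤ} (hr : 0 ≤ r) (hR : r < R) {C : Set Pt} (hC : rng R ⊆ C) :
    L.Exact (ann r R) C := by
  have hU := exact_U (L := L) hr hR (show -R ≤ 0 by omega) C
  have hB := exact_rect (L := L) (-R) R (-R) (-r - 1) C
  have h : ann r R = (rect (r + 1) R (-R) R ∪
      (rect (-R) (-r - 1) (-R) R ∪ rect (-R) R (r + 1) R)) ∪ rect (-R) R (-R) (-r - 1) := by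
    ext v
    simp only [rect, Set.mem_union, Set.mem_setOf_eq, mem_ann_iff']
    omega
  rw [h]
  refine hU.glue_rel hB hC (con_ring1 hr hR) (con_ring2 hr hR) ?_ (edge_help ?_)
  · intro v hv
    refine ⟨(v.1, -R), ?_, ?_⟩
    · simp only [rect, Set.mem_inter_iff, Set.mem_union, Set.mem_setOf_eq, mem_rng_iff'] at hv ⊢
      omega
    · by_cases hs : v.1 ≤ -r - 1
      · have h1 : v ∈ rect (-R) (-r - 1) (-R) (-r - 1) := by
          simp only [rect, Set.mem_inter_iff, Set.mem_union, Set.mem_setOf_eq] at hv ⊢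
          omega
        have h2 : ((v.1, -R) : Pt) ∈ rect (-R) (-r - 1) (-R) (-r - 1) := by
          simp only [rect, Set.mem_setOf_eq] at h1 ⊢
          omega
        refine (con_rect (-R) (-r - 1) (-R) (-r - 1) v h1 _ h2).mono ?_
        intro w hw
        simp only [rect, Set.mem_inter_iff, Set.mem_union, Set.mem_setOf_eq] at hw ⊢
        omega
      · have h1 : v ∈ rect (r + 1) R (-R) (-r - 1) := by
          simp only [rect, Set.mem_inter_iff, Set.mem_union, Set.mem_setOf_eq] at hv ⊢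
          omega
        have h2 : ((v.1, -R) : Pt) ∈ rect (r + 1) R (-R) (-r - 1) := by
          simp only [rect, Set.mem_setOf_eq] at h1 ⊢
          omega
        refine (con_rect (r + 1) R (-R) (-r - 1) v h1 _ h2).mono ?_
        intro w hw
        simp only [rect, Set.mem_inter_iff, Set.mem_union, Set.mem_setOf_eq] at hw ⊢
        omega
  · intro u hu v hv hu' hv' ha hb
    simp only [rect, Set.mem_union, Set.mem_setOf_eq] at hu hv hu' hv' ⊢
    omega

end Lat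

end SC
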