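import Pool.Agent.Lib_MP_e0a489.IS4
import Pool.Agent.Lib_MP_e0a489.SH5
import Pool.Agent.Lib_MP_e0a489.TC4

/-!
# MP_e0a489, inner separation 6: first step, the two components, the coarse cells

Step 1: nothing is landed (`B = ∅`), the closed clusters attached to `Outc true R` are explored.
-/

set_option autoImplicit false

namespace SC

open Classical

/-- admissible cell: far from the corners, not the middle cell -/
def CellI (w m k : ℤ) : Prop := k ≠ 0 ∧ |k| * w + 100 * w ≤ m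

namespace Lat

variable {L : Lat}

private theorem is6_adj {u v : Pt} (h : L.Adj u v) : nrm v ≤ nrm u + 1 := by
  have h1 := nrm_le_add v u
  have h2 := h.symm.near
  have h3 : nrm (v - u) ≤ 1 := max_le h2.1 h2.2
  omega

private theorem is6_nb {r : ℤ} {v : Pt} (h : v ∈ L.nb (bx r)) : nrm v ≤ r + 1 := by
  obtain ⟨u, hu, huv⟩ := h
  have h1 := is6_adj huv
  have h2 : nrm u ≤ r := hu
  omega

private theorem is6_crn (s m : ℤ) (hm : 0 ≤ m) : nrm (rt s (m, m)) = m := by
  rw [nrm_rt]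
  show max |m| |m| = m
  rw [max_self, abs_of_nonneg hm]

private theorem is6_dom {c : Bool} {r R : ℤ} (hr : 0 ≤ r) (hrR : r ≤ R) {v : Pt}
    (h : v ∈ ann r R ∪ Jc c R) : r < nrm v ∧ nrm v ≤ 2 * R := by
  rcases h with h | h
  · obtain ⟨h1, h2⟩ := h
    exact ⟨h1, by omega⟩
  · obtain ⟨h1, h2⟩ := Jc_sub_ann (by omega) h
    exact ⟨by omega, h2⟩

private theorem is6_rect {R : ℤ} {v : Pt} (h : nrm v ≤ 2 * R) :
    v ∈ rect (-(2 * R)) (2 * R) (-(2 * R)) (2 * R) := by
  simp only [nrm, max_le_iff, abs_le] at h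
  exact ⟨⟨h.1.1, h.1.2⟩, h.2.1, h.2.2⟩

private theorem is6_S (c : Bool) (R : ℤ) : Si c R ∅ = Outc c R := Set.union_empty _

private theorem is6_nbS {R : ℤ} (hR : 1 ≤ R) {s : ℤ} {v : Pt} (hv : v ∈ Je s R) (c : Bool) :
    v ∈ L.nb (Si c R ∅) := by
  obtain ⟨u, hu, huv⟩ := Je_nb (L := L) hR hv
  exact ⟨u, by rw [is6_S]; exact rng_sub_Outc (by omega) hu, huv⟩

/-- connected explored set (`Cx_con`, `con_Outc`), exact domain (`exact_ann`, `rng_sub_Outc`) -/
theorem C1_con {r R : ℤ} {ω : Cfg} (hR : 1 ≤ R) :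
    L.Con (L.Cx false (Di r R ∅) (Si true R ∅) ω) := by
  refine Cx_con ?_
  rw [is6_S]
  exact con_Outc hR

theorem C1_exact {r R : ℤ} {ω : Cfg} (hr : 0 ≤ r) (hrR : r ≤ R) :
    L.Exact (Di r R ∅) (L.Cx false (Di r R ∅) (Si true R ∅) ω) := by
  have h1 : Di r R ∅ = ann r (2 * R + 1) := Set.union_empty _
  have h2 : rng (2 * R + 1) ⊆ L.Cx false (Di r R ∅) (Si true R ∅) ω := by
    refine Set.Subset.trans ?_ Cx_sup
    rw [is6_S]
    exact rng_sub_Outc (by omega)
  rw [h1] at h2 ⊢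
  exact exact_ann hr (by omega) h2

/-- A closed arm of `Sout` starts in the explored set, at a site of the ring `r + 1` next to `bx r` (`arm_keep` with
`c = true`, `B = B' = ∅`). -/
theorem C1_inner {r R : ℤ} {ω : Cfg} (hr : 0 ≤ r) (hrR : r + 1 ≤ R) (h : L.Sout r R ω) :
    ∃ v ∈ L.Cx false (Di r R ∅) (Si true R ∅) ω, v ∈ bx r ∪ L.nb (bx r) := by
  have h1 := (h false).1
  rw [← Set.union_empty (ann r R ∪ Jc false R)] at h1
  obtain ⟨x, hx, hx', -⟩ := arm_keep (c := true) (B := ∅) (B' := ∅) (η := ω) (G := ∅) hr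
    (by omega) (by omega) (Or.inl rfl) (Set.Subset.refl _) h1
  exact ⟨x, hx', Or.inr hx⟩

/-- THE TWO COMPONENTS ARE DIFFERENT.  If one component `V` of the complement of the explored set contained ends in
`Je 0 R` and in `Je 2 R`, these ends would be joined by an open path in `ann r R ∪ Jc true R` (`step_ne`: `V` has
connected boundary by `con_bd`, the ends have neighbours in the source by `Je_nb`, `Di_diff`).  The cluster of this path
and the set (closed arms of `Sout`) `∪ bx r` (connected: the arms start at neighbours of `bx r`) contradict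
`cross` in `rect (-2R) (2R) (-2R) (2R)`: no common site (colours; `ann r R ∪ Jc true R` does not meet `bx r`); `Je_coord`. -/
theorem V_ne {r R : ℤ} {ω : Cfg} {V : Set Pt} {y y' : Pt} (hr : 0 ≤ r) (hrR : r + 1 ≤ R)
    (h : L.Sout r R ω)
    (hV : L.Comp (Di r R ∅ \ L.Cx false (Di r R ∅) (Si true R ∅) ω) V) (hy : y ∈ V)
    (hy' : y' ∈ V) (h0 : y ∈ Je 0 R) (h2 : y' ∈ Je 2 R) : False := by
  have hR : 1 ≤ R := by omega
  have hB : L.Con (L.bd V (L.Cx false (Di r R ∅) (Si true R ∅) ω)) :=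
    con_bd (C1_exact hr (by omega)) (C1_con hR) (Cx_sub (Si_sub (by omega))) hV
  have h3 : L.Cn ((Di r R ∅ \ Si true R ∅) ∩ L.col true ω) y y' :=
    step_ne (c := true) (Si_sub (by omega)) hV hB hy hy' (is6_nbS hR h0 true)
      (is6_nbS hR h2 true)
  rw [Di_diff (by omega) (by omega) (Set.empty_subset _)] at h3
  obtain ⟨x₁, hx₁, y₁, hy₁, h4⟩ := (h false).1
  obtain ⟨x₃, hx₃, y₃, hy₃, h5⟩ := (h false).2
  have hd1 : dc false = 1 := rfl
  have hd3 : dc false + 2 = 3 := rfl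
  rw [hd1] at hy₁
  rw [hd3] at hy₃
  have hP1 : L.Con {z | L.Cn ((ann r R ∪ Jc false R) ∩ L.col false ω) x₁ z} := con_cluster _ _
  have hP3 : L.Con {z | L.Cn ((ann r R ∪ Jc false R) ∩ L.col false ω) x₃ z} := con_cluster _ _
  obtain ⟨u₁, hu₁, hu₁'⟩ := hx₁
  obtain ⟨u₃, hu₃, hu₃'⟩ := hx₃
  have hQ1 : L.Con ({z | L.Cn ((ann r R ∪ Jc false R) ∩ L.col false ω) x₁ z} ∪ bx r) :=
    hP1.union_adj (con_bx r) (Cn.refl h4.left) hu₁ hu₁'.symm
  have hQ3 : L.Con ({z | L.Cn ((ann r R ∪ Jc false R) ∩ L.col false ω) x₁ z} ∪ bx r ∪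
      {z | L.Cn ((ann r R ∪ Jc false R) ∩ L.col false ω) x₃ z}) :=
    hQ1.union_adj hP3 (Or.inr hu₃) (Cn.refl h5.left) hu₃'
  have hbx : bx r ⊆ rect (-(2 * R)) (2 * R) (-(2 * R)) (2 * R) := fun v hv =>
    is6_rect (le_trans (show nrm v ≤ r from hv) (by omega))
  obtain ⟨z, hz, hz'⟩ := cross (L := L) (a := -(2 * R)) (b := 2 * R) (c := -(2 * R)) (d := 2 * R)
    (P := {z | L.Cn ((ann r R ∪ Jc true R) ∩ L.col true ω) y z})
    (con_cluster _ _) hQ3
    (fun v hv => is6_rect (is6_dom hr (by omega) hv.right.1).2)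
    (by
      rintro v ((hv | hv) | hv)
      · exact is6_rect (is6_dom hr (by omega) hv.right.1).2
      · exact hbx hv
      · exact is6_rect (is6_dom hr (by omega) hv.right.1).2)
    ⟨y', h3, Je_coord.2.2.1 h2⟩ ⟨y, Cn.refl h3.left, Je_coord.1 h0⟩
    ⟨y₃, Or.inr h5, Je_coord.2.2.2 hy₃⟩ ⟨y₁, Or.inl (Or.inl h4), Je_coord.2.1 hy₁⟩
  have hz1 : L.Cn ((ann r R ∪ Jc true R) ∩ L.col true ω) y z := hz
  have e1 : L.st ω z = true := hz1.right.2
  rcases hz' with (hz' | hz') | hz'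
  · have e2 : L.st ω z = false := (Cn.right hz').2
    rw [e1] at e2
    exact Bool.noConfusion e2
  · have e3 := (is6_dom hr (by omega) hz1.right.1).1
    exact absurd (show nrm z ≤ r from hz') (not_le.2 e3)
  · have e2 : L.st ω z = false := (Cn.right hz').2
    rw [e1] at e2
    exact Bool.noConfusion e2

/-- THE COARSE CELL of an open arm.  `m = r + 1`; `r = M w + w/2`, `M = 2 K B`.
Proof.  The arm goes from `x ∈ nb (bx r)` to `y ∈ Je d R`, `x` is on the ring `m` (its norm is at most `r + 1`, and `x` is in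
`ann r R ∪ Jc true R`), `x = rc m z` (`rc_surj`).  `y` is not explored (it is open and not in the source; `Cx_col`), let `V` be
its component (`comp_cluster`); `x ∈ V` (`comp_path`).  `good_pos` with `o = true`, `c = true`, `D = Di r R ∅`,
`E = ann r R ∪ Jc true R`, `D' = ann r (2r)`, `ρ = 4 B w`, `ℓ = K B w`, `β = B w`: `hED`: a site at distance `≤ ℓ` from a corner has
norm `≤ r + 1 + K B w ≤ 2 r < R`; the far site is `y`, of norm `2R ≥ 16 r`; `hC`: `attached` (with `c = true`) and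
`nb_Outc_nrm` give a path to a site of norm `≥ R ≥ 8 r`, distance `≥ R - (r+1) ≥ 3β` (`nrm_le_add`).  The cell satisfies
`|k w - y₀| ≤ 6 w`, `|y₀| + 4 B w < m`, `B ≥ 48`, so `|k| w + 100 w ≤ m`. -/
theorem cell1 {w M K B r R d : ℤ} {ω : Cfg} (hw : w % 2 = 1) (hw5 : 5 ≤ w) (hK : 4 ≤ K)
    (hB : 48 ≤ B) (hM : M = 2 * K * B) (hr : r = M * w + w / 2) (hR : 8 * r ≤ R)
    (hd : d = 0 ∨ d = 2)
    (hbad : ¬ L.BadW true (ann r (2 * r)) (r + 1) (4 * B * w) (K * B * w) (B * w) (12 * w) ω)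
    (h : L.Arm true (ann r R ∪ Jc true R) (L.nb (bx r)) (Je d R) ω) :
    ∃ y ∈ Je d R, ∃ V, L.Comp (Di r R ∅ \ L.Cx false (Di r R ∅) (Si true R ∅) ω) V ∧ y ∈ V ∧
      ∃ s k, CellI w (r + 1) k ∧ trip w (r + 1) s k ⊆ V := by
  have hw0 : 0 < w := by omega
  have hBw : 48 * w ≤ B * w := mul_le_mul_of_nonneg_right hB hw0.le
  have hKB : 4 * (B * w) ≤ K * (B * w) := mul_le_mul_of_nonneg_right hK (by omega)
  have eK : K * B * w = K * (B * w) := by ring
  have e4 : 4 * B * w = 4 * (B * w) := by ring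
  have eM : M * w = 2 * (K * (B * w)) := by rw [hM]; ring
  have hw2 : 0 ≤ w / 2 := by omega
  have hr0 : 0 ≤ r := by omega
  have hR1 : 1 ≤ R := by omega
  have hrR : r + 1 ≤ R := by omega
  obtain ⟨x, hx, y, hy, hxy⟩ := h
  have hxn : nrm x = r + 1 := by
    have h1 := is6_nb hx
    have h2 := (is6_dom hr0 (by omega) hxy.left.1).1
    omega
  obtain ⟨z, -, -, hz⟩ := rc_surj (m := r + 1) (by omega) hxn 0
  have hyn : nrm y = 2 * R := Je_nrm hR1 hy
  have hdd : d = dc true ∨ d = dc true + 2 := by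
    rcases hd with rfl | rfl
    · exact Or.inl rfl
    · exact Or.inr rfl
  have hyJ : y ∈ Jc true R := Je_sub_Jc hR1 hdd hy
  have hyC : y ∉ L.Cx false (Di r R ∅) (Si true R ∅) ω := by
    intro hc
    have h1 : y ∉ Si true R ∅ := by
      rw [is6_S]
      exact fun h2 => h2.2 (Or.inr hyJ)
    have e2 : L.st ω y = false := (Cx_col hc h1).2
    have e1 : L.st ω y = true := hxy.right.2
    rw [e1] at e2
    exact Bool.noConfusion e2
  have hyD : y ∈ Di r R ∅ := Or.inl ⟨by omega, by omega⟩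
  have hV : L.Comp (Di r R ∅ \ L.Cx false (Di r R ∅) (Si true R ∅) ω)
      {v | L.Cn (Di r R ∅ \ L.Cx false (Di r R ∅) (Si true R ∅) ω) y v} :=
    comp_cluster ⟨hyD, hyC⟩
  have hyV : y ∈ {v | L.Cn (Di r R ∅ \ L.Cx false (Di r R ∅) (Si true R ∅) ω) y v} :=
    Cn.refl ⟨hyD, hyC⟩
  have hxV : x ∈ {v | L.Cn (Di r R ∅ \ L.Cx false (Di r R ∅) (Si true R ∅) ω) y v} := by
    refine comp_path (c := true) hV ?_ hyV
    rw [Di_diff (by omega) (by omega) (Set.empty_subset _)]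
    exact hxy
  rw [← hz] at hxV hxy
  obtain ⟨s, k, y₀, g1, g2, g3, g4, g5, g6⟩ := good_pos (o := true) (c := true) (m := r + 1)
    (w := w) (ρ := 4 * B * w) (ℓ := K * B * w) (β := B * w) (z := z) (D := Di r R ∅)
    (D' := ann r (2 * r)) (E := ann r R ∪ Jc true R)
    (C := L.Cx false (Di r R ∅) (Si true R ∅) ω) (ω := ω) (v := y) hw hw0 (by omega) hBw
    (by omega) (by omega) (by omega) hbad
    (by
      intro v hv
      have h1 := (is6_dom hr0 (by omega) hv).1
      show r + 1 ≤ nrm v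
      omega)
    (by
      intro s v hv h1
      have h2 := (is6_dom hr0 (by omega) hv).1
      have h3 := nrm_le_add v (rt s (r + 1, r + 1))
      rw [is6_crn s (r + 1) (by omega)] at h3
      exact ⟨h2, by omega⟩)
    (by
      intro v hv
      have h1 : nrm v = r + 1 := hv
      exact Or.inl ⟨by omega, by omega⟩)
    hV hxV hxy
    (by
      have h3 := nrm_le_add y (rc (r + 1) z)
      rw [hyn, rc_nrm (by omega)] at h3
      omega)
    (by
      intro s
      have h3 := nrm_le_add y (rt s (r + 1, r + 1))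
      rw [hyn, is6_crn s (r + 1) (by omega)] at h3
      omega)
    (by
      intro i _ hi
      obtain ⟨v, hv, hv'⟩ := attached (c := true) (B := ∅) hr0 hrR (Set.empty_subset _)
        (rc_nrm (by omega)) hi
      refine ⟨v, hv', ?_⟩
      rw [is6_S] at hv
      have h1 := nb_Outc_nrm hv
      have h3 := nrm_le_add v (rc (r + 1) z)
      rw [rc_nrm (by omega)] at h3
      omega)
  refine ⟨y, hy, _, hV, hyV, s, k, ⟨g3, ?_⟩, g6⟩
  have e5 : (k - 1) * w = k * w - w := by ring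
  have e6 : (k + 1) * w = k * w + w := by ring
  have e7 : |k| * w = |k * w| := by rw [abs_mul, abs_of_pos hw0]
  rw [e7]
  rcases abs_cases (k * w) with ⟨c1, _⟩ | ⟨c1, _⟩ <;> rcases abs_cases y₀ with ⟨c2, _⟩ | ⟨c2, _⟩ <;>
    omega

/-- THE START OF A CLOSED ARM is far from the corners: it is `rc m (2 m s + y)` with `|y| + 100 w ≤ m`; it is explored, and
the arm survives (`arm_keep`).  Proof: `rc_surj`, `idx_side`, `crn_of` (`ρ = 4 B w ≥ 192 w`). -/
theorem start1 {w M K B r R d : ℤ} {ω : Cfg} (hw : w % 2 = 1) (hw5 : 5 ≤ w) (hK : 4 ≤ K)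
    (hB : 48 ≤ B) (hM : M = 2 * K * B) (hr : r = M * w + w / 2) (hR : 8 * r ≤ R)
    (hd : d = 1 ∨ d = 3)
    (hbad : ¬ L.BadW true (ann r (2 * r)) (r + 1) (4 * B * w) (K * B * w) (B * w) (12 * w) ω)
    (h : L.Arm false (ann r R ∪ Jc false R) (L.nb (bx r)) (Je d R) ω) :
    ∃ s y, |y| + 100 * w ≤ r + 1 ∧ rc (r + 1) (2 * (r + 1) * s + y) ∈ L.nb (bx r) ∧
      rc (r + 1) (2 * (r + 1) * s + y) ∈ L.Cx false (Di r R ∅) (Si true R ∅) ω ∧
      ∀ (G : Finset Pt) (η : Cfg), L.Arm false (ann r R ∪ Jc false R)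
        {rc (r + 1) (2 * (r + 1) * s + y)} (Je d R)
        (mix G (L.Rev false (Di r R ∅) (Si true R ∅)) ω η) := by
  have hw0 : 0 < w := by omega
  have hBw : 48 * w ≤ B * w := mul_le_mul_of_nonneg_right hB hw0.le
  have hKB : 4 * (B * w) ≤ K * (B * w) := mul_le_mul_of_nonneg_right hK (by omega)
  have eK : K * B * w = K * (B * w) := by ring
  have e4 : 4 * B * w = 4 * (B * w) := by ring
  have eM : M * w = 2 * (K * (B * w)) := by rw [hM]; ring
  have hw2 : 0 ≤ w / 2 := by omega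
  have hr0 : 0 ≤ r := by omega
  have hR1 : 1 ≤ R := by omega
  have hrR : r + 1 ≤ R := by omega
  obtain ⟨x, hx, y, hy, hxy⟩ := h
  have hxn : nrm x = r + 1 := by
    have h1 := is6_nb hx
    have h2 := (is6_dom hr0 (by omega) hxy.left.1).1
    omega
  obtain ⟨i, -, -, hi⟩ := rc_surj (m := r + 1) (by omega) hxn 0
  obtain ⟨s, y₀, hy₀, hiy⟩ := idx_side (m := r + 1) (by omega) i
  have hyn : nrm y = 2 * R := Je_nrm hR1 hy
  rw [hiy] at hi
  have hdd : d = dc (!true) ∨ d = dc (!true) + 2 := by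
    rcases hd with rfl | rfl
    · exact Or.inl rfl
    · exact Or.inr rfl
  have key : ∀ (G : Finset Pt) (η : Cfg), x ∈ L.Cx false (Di r R ∅) (Si true R ∅) ω ∧
      L.Arm false (ann r R ∪ Jc false R) {x} (Je d R)
        (mix G (L.Rev false (Di r R ∅) (Si true R ∅)) ω η) := by
    intro G η
    have h1 : L.Arm (!true) (ann r R ∪ Jc (!true) R ∪ ∅) {x} (Je d R) ω := by
      rw [Set.union_empty]
      exact ⟨x, rfl, y, hy, hxy⟩
    obtain ⟨x', hx', h2, y', hy', -, h3⟩ := arm_keep (c := true) (B := ∅) (B' := ∅) (η := η)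
      (G := G) hr0 hR1 (by omega) hdd (Set.Subset.refl _) h1
    rw [Set.union_empty] at h3
    have e : x' = x := hx'
    subst e
    exact ⟨h2, x', rfl, y', hy', h3⟩
  rw [← hi] at hxy hx key
  refine ⟨s, y₀, ?_, hx, (key ∅ ω).1, fun G η => (key G η).2⟩
  by_contra hcon
  apply hbad
  refine crn_of (o := true) (b := false) (m := r + 1) (s := s) (y := y₀) (ρ := 4 * B * w)
    (ℓ := K * B * w) (D := ann r R ∪ Jc false R) (v := y) (by omega) (by omega) hy₀ (by omega)
    hxy ?_ ?_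
  · intro s v hv h1
    have h2 := (is6_dom hr0 (by omega) hv).1
    have h3 := nrm_le_add v (rt s (r + 1, r + 1))
    rw [is6_crn s (r + 1) (by omega)] at h3
    exact ⟨h2, by omega⟩
  · intro s
    have h3 := nrm_le_add y (rt s (r + 1, r + 1))
    rw [hyn, is6_crn s (r + 1) (by omega)] at h3
    omega

end Lat

end SC
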