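import Pool.Agent.Lib_MP_e0a489.LD

/-!
# MP_e0a489, shared by OS and IS, 8: arithmetic of the landing positions
-/

set_option autoImplicit false

namespace SC

open Classical

/-- comparison of ring indices is the lexicographic comparison of (side, coordinate) -/
theorem lex_of_idx {m s s' y y' : ℤ} (hy : |y| < m) (hy' : |y'| < m)
    (h : 2 * m * s + y < 2 * m * s' + y') : s < s' ∨ (s = s' ∧ y < y') := by
  rw [abs_lt] at hy hy'
  have hm : 0 < m := by omega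
  rcases lt_trichotomy s s' with h1 | h1 | h1
  · exact Or.inl h1
  · refine Or.inr ⟨h1, ?_⟩
    rw [h1] at h
    omega
  · exfalso
    have h2 : s' + 1 ≤ s := h1
    have h3 : 2 * m * (s' + 1) ≤ 2 * m * s := mul_le_mul_of_nonneg_left h2 (by omega)
    have h4 : 2 * m * (s' + 1) = 2 * m * s' + 2 * m := by ring
    omega

theorem idx_of_lex {m s s' y y' : ℤ} (hy : |y| < m) (hy' : |y'| < m)
    (h : s < s' ∨ (s = s' ∧ y < y')) : 2 * m * s + y < 2 * m * s' + y' := by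
  rw [abs_lt] at hy hy'
  have hm : 0 < m := by omega
  rcases h with h1 | ⟨h1, h2⟩
  · have h2 : s + 1 ≤ s' := h1
    have h3 : 2 * m * (s + 1) ≤ 2 * m * s' := mul_le_mul_of_nonneg_left h2 (by omega)
    have h4 : 2 * m * (s + 1) = 2 * m * s + 2 * m := by ring
    omega
  · rw [h1]
    omega

private theorem sh8_hwd_nonneg {μ : ℤ} (hμ : 0 < μ) (c : Bool) (i : Fin 4) : 0 ≤ hwd μ c i := by
  unfold hwd
  split_ifs
  · omega
  · exact le_refl _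

private theorem sh8_mk {μ M : ℤ} (hμ : 0 < μ) {c₀ : Bool} {s k : Fin 4 → ℤ}
    (hcor : ∀ i, |fpos μ c₀ k i| + 2 * μ + 20 ≤ M) (hk : ∀ i, k i ≠ 0)
    (hf : 0 < s 0 ∨ (s 0 = 0 ∧ 0 < k 0))
    (hl : s 3 < 4 ∨ (s 3 = 4 ∧ k 3 < 0))
    (h01 : s 0 < s 1 ∨ (s 0 = s 1 ∧ fpos μ c₀ k 0 + hwd μ c₀ 0 < fpos μ c₀ k 1 - hwd μ c₀ 1))
    (h12 : s 1 < s 2 ∨ (s 1 = s 2 ∧ fpos μ c₀ k 1 + hwd μ c₀ 1 < fpos μ c₀ k 2 - hwd μ c₀ 2))
    (h23 : s 2 < s 3 ∨ (s 2 = s 3 ∧ fpos μ c₀ k 2 + hwd μ c₀ 2 < fpos μ c₀ k 3 - hwd μ c₀ 3)) :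
    Land μ M c₀ s k := by
  have w0 := sh8_hwd_nonneg hμ c₀ 0
  have w1 := sh8_hwd_nonneg hμ c₀ 1
  have w2 := sh8_hwd_nonneg hμ c₀ 2
  have w3 := sh8_hwd_nonneg hμ c₀ 3
  refine ⟨?_, hcor, hk, hf, hl, ?_⟩
  · rw [Fin.forall_fin_succ]
    refine ⟨⟨by omega, by omega⟩, ?_⟩
    rw [Fin.forall_fin_succ]
    refine ⟨⟨?_, ?_⟩, ?_⟩
    · show 0 ≤ s 1
      omega
    · show s 1 ≤ 4
      omega
    rw [Fin.forall_fin_succ]
    refine ⟨⟨?_, ?_⟩, ?_⟩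
    · show 0 ≤ s 2
      omega
    · show s 2 ≤ 4
      omega
    rw [Fin.forall_fin_succ]
    refine ⟨⟨?_, ?_⟩, fun i => i.elim0⟩
    · show 0 ≤ s 3
      omega
    · show s 3 ≤ 4
      omega
  · have h02 : s 0 < s 2 ∨ (s 0 = s 2 ∧
        fpos μ c₀ k 0 + hwd μ c₀ 0 < fpos μ c₀ k 2 - hwd μ c₀ 2) := by omega
    have h13 : s 1 < s 3 ∨ (s 1 = s 3 ∧
        fpos μ c₀ k 1 + hwd μ c₀ 1 < fpos μ c₀ k 3 - hwd μ c₀ 3) := by omega
    have h03 : s 0 < s 3 ∨ (s 0 = s 3 ∧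
        fpos μ c₀ k 0 + hwd μ c₀ 0 < fpos μ c₀ k 3 - hwd μ c₀ 3) := by omega
    intro i j hij
    fin_cases i <;> fin_cases j <;>
      first
      | exact absurd hij (by decide)
      | exact h01
      | exact h12
      | exact h23
      | exact h02
      | exact h13
      | exact h03

private theorem sh8_fpos {μ : ℤ} {c₀ : Bool} {k : Fin 4 → ℤ} {j : Fin 4}
    (hc : ∀ i, colr c₀ i = colr true (i + j)) (i : Fin 4) :
    fpos μ c₀ (fun i => k (i + j)) i = fpos μ true k (i + j) := by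
  unfold fpos
  rw [hc i]

private theorem sh8_hwd {μ : ℤ} {c₀ : Bool} {j : Fin 4}
    (hc : ∀ i, colr c₀ i = colr true (i + j)) (i : Fin 4) :
    hwd μ c₀ i = hwd μ true (i + j) := by
  unfold hwd
  rw [hc i]

private theorem sh8_abs_le {μ Mc : ℤ} (hμ : 0 < μ) {c₀ : Bool} {s k : Fin 4 → ℤ}
    (h : Land μ (μ * Mc + μ / 2) c₀ s k) (i : Fin 4) :
    -(μ * Mc + μ) ≤ k i ∧ k i ≤ μ * Mc + μ := by
  have h1 : |k i| ≤ |fpos μ c₀ k i| := by
    unfold fpos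
    split_ifs
    · rw [abs_mul, abs_of_pos hμ]
      have h2 := abs_nonneg (k i)
      have h3 : (1 : ℤ) ≤ μ := hμ
      nlinarith
    · exact le_refl _
  have h2 := h.cor i
  have h3 : |k i| ≤ μ * Mc + μ := by omega
  rw [abs_le] at h3
  exact h3

/-- LANDING POSITIONS.  Four positions in cyclic order (colours `true, false, true, false`; the order is
lexicographic, the last one is before the first one shifted by one turn, `s 0 + 4`).  They can be rotated and shifted by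
multiples of 4 so that they are admissible.
Proof.  Choose `q` with `(s 0 - 4 q, k 0)` lexicographically between `(0, 0)` and `(4, 0)`: `q = s 0 / 4` if `k 0 > 0`, `q = (s 0 - 1) / 4` if
`k 0 < 0`.  Let `P i`: `s i - 4 q < 4 ∨ (s i - 4 q = 4 ∧ k i < 0)`; `P 0` holds and `P` is decreasing in `i`.  If `P 3`: `j = 0`,
`s' i = s i - 4 q`.  If `P 2`, not `P 3`: `j = 3`, `s' 0 = s 3 - 4 q - 4`, `s' 1 = s 0 - 4 q`, `s' 2 = s 1 - 4 q`, `s' 3 = s 2 - 4 q`.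
If `P 1`, not `P 2`: `j = 2`.  If not `P 1`: `j = 1`.  In all cases `k' i = k (i + j)`, `c₀ = colr true j`.  All conditions are linear
(`hwd ≥ 0`, the sign of `fpos` is the sign of `k`). -/
theorem land_of {μ M : ℤ} (hμ : 0 < μ) {s k : Fin 4 → ℤ}
    (hcor : ∀ i, |fpos μ true k i| + 2 * μ + 20 ≤ M) (hk : ∀ i, k i ≠ 0)
    (h01 : s 0 < s 1 ∨ (s 0 = s 1 ∧
      fpos μ true k 0 + hwd μ true 0 < fpos μ true k 1 - hwd μ true 1))
    (h12 : s 1 < s 2 ∨ (s 1 = s 2 ∧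
      fpos μ true k 1 + hwd μ true 1 < fpos μ true k 2 - hwd μ true 2))
    (h23 : s 2 < s 3 ∨ (s 2 = s 3 ∧
      fpos μ true k 2 + hwd μ true 2 < fpos μ true k 3 - hwd μ true 3))
    (h30 : s 3 < s 0 + 4 ∨ (s 3 = s 0 + 4 ∧
      fpos μ true k 3 + hwd μ true 3 < fpos μ true k 0 - hwd μ true 0)) :
    ∃ (c₀ : Bool) (s' k' : Fin 4 → ℤ) (j : Fin 4), Land μ M c₀ s' k' ∧
      ∀ i, s' i % 4 = s (i + j) % 4 ∧ k' i = k (i + j) ∧ colr c₀ i = colr true (i + j) := by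
  obtain ⟨q, hq1, hq2⟩ : ∃ q : ℤ, (0 < s 0 - 4 * q ∨ (s 0 - 4 * q = 0 ∧ 0 < k 0)) ∧
      (s 0 - 4 * q < 4 ∨ (s 0 - 4 * q = 4 ∧ k 0 < 0)) := by
    rcases lt_or_gt_of_ne (hk 0) with h | h
    · exact ⟨(s 0 - 1) / 4, by omega, by omega⟩
    · exact ⟨s 0 / 4, by omega, by omega⟩
  have k1 := hk 1
  have k2 := hk 2
  have k3 := hk 3
  by_cases P3 : s 3 - 4 * q < 4 ∨ (s 3 - 4 * q = 4 ∧ k 3 < 0)
  · have hc : ∀ i, colr true i = colr true (i + 0) := by decide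
    refine ⟨true, fun i => s (i + 0) - 4 * q, fun i => k (i + 0), 0, sh8_mk hμ ?_ ?_ ?_ ?_ ?_ ?_ ?_,
      fun i => ⟨by dsimp only; omega, rfl, hc i⟩⟩
    · intro i
      rw [sh8_fpos hc]
      exact hcor _
    · exact fun i => hk _
    · exact hq1
    · exact P3
    · rw [sh8_fpos hc, sh8_fpos hc, sh8_hwd hc, sh8_hwd hc]
      show s 0 - 4 * q < s 1 - 4 * q ∨ (s 0 - 4 * q = s 1 - 4 * q ∧
        fpos μ true k 0 + hwd μ true 0 < fpos μ true k 1 - hwd μ true 1)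
      omega
    · rw [sh8_fpos hc, sh8_fpos hc, sh8_hwd hc, sh8_hwd hc]
      show s 1 - 4 * q < s 2 - 4 * q ∨ (s 1 - 4 * q = s 2 - 4 * q ∧
        fpos μ true k 1 + hwd μ true 1 < fpos μ true k 2 - hwd μ true 2)
      omega
    · rw [sh8_fpos hc, sh8_fpos hc, sh8_hwd hc, sh8_hwd hc]
      show s 2 - 4 * q < s 3 - 4 * q ∨ (s 2 - 4 * q = s 3 - 4 * q ∧
        fpos μ true k 2 + hwd μ true 2 < fpos μ true k 3 - hwd μ true 3)
      omega
  by_cases P2 : s 2 - 4 * q < 4 ∨ (s 2 - 4 * q = 4 ∧ k 2 < 0)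
  · have hc : ∀ i, colr false i = colr true (i + 3) := by decide
    refine ⟨false, fun i => s (i + 3) - 4 * q - (if i = 0 then 4 else 0), fun i => k (i + 3), 3,
      sh8_mk hμ ?_ ?_ ?_ ?_ ?_ ?_ ?_, fun i => ⟨by dsimp only; split_ifs <;> omega, rfl, hc i⟩⟩
    · intro i
      rw [sh8_fpos hc]
      exact hcor _
    · exact fun i => hk _
    · show 0 < s 3 - 4 * q - 4 ∨ (s 3 - 4 * q - 4 = 0 ∧ 0 < k 3)
      omega
    · show s 2 - 4 * q - 0 < 4 ∨ (s 2 - 4 * q - 0 = 4 ∧ k 2 < 0)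
      omega
    · rw [sh8_fpos hc, sh8_fpos hc, sh8_hwd hc, sh8_hwd hc]
      show s 3 - 4 * q - 4 < s 0 - 4 * q - 0 ∨ (s 3 - 4 * q - 4 = s 0 - 4 * q - 0 ∧
        fpos μ true k 3 + hwd μ true 3 < fpos μ true k 0 - hwd μ true 0)
      omega
    · rw [sh8_fpos hc, sh8_fpos hc, sh8_hwd hc, sh8_hwd hc]
      show s 0 - 4 * q - 0 < s 1 - 4 * q - 0 ∨ (s 0 - 4 * q - 0 = s 1 - 4 * q - 0 ∧
        fpos μ true k 0 + hwd μ true 0 < fpos μ true k 1 - hwd μ true 1)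
      omega
    · rw [sh8_fpos hc, sh8_fpos hc, sh8_hwd hc, sh8_hwd hc]
      show s 1 - 4 * q - 0 < s 2 - 4 * q - 0 ∨ (s 1 - 4 * q - 0 = s 2 - 4 * q - 0 ∧
        fpos μ true k 1 + hwd μ true 1 < fpos μ true k 2 - hwd μ true 2)
      omega
  by_cases P1 : s 1 - 4 * q < 4 ∨ (s 1 - 4 * q = 4 ∧ k 1 < 0)
  · have hc : ∀ i, colr true i = colr true (i + 2) := by decide
    refine ⟨true, fun i => s (i + 2) - 4 * q - (if i = 0 ∨ i = 1 then 4 else 0),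
      fun i => k (i + 2), 2, sh8_mk hμ ?_ ?_ ?_ ?_ ?_ ?_ ?_,
      fun i => ⟨by dsimp only; split_ifs <;> omega, rfl, hc i⟩⟩
    · intro i
      rw [sh8_fpos hc]
      exact hcor _
    · exact fun i => hk _
    · show 0 < s 2 - 4 * q - 4 ∨ (s 2 - 4 * q - 4 = 0 ∧ 0 < k 2)
      omega
    · show s 1 - 4 * q - 0 < 4 ∨ (s 1 - 4 * q - 0 = 4 ∧ k 1 < 0)
      omega
    · rw [sh8_fpos hc, sh8_fpos hc, sh8_hwd hc, sh8_hwd hc]
      show s 2 - 4 * q - 4 < s 3 - 4 * q - 4 ∨ (s 2 - 4 * q - 4 = s 3 - 4 * q - 4 ∧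
        fpos μ true k 2 + hwd μ true 2 < fpos μ true k 3 - hwd μ true 3)
      omega
    · rw [sh8_fpos hc, sh8_fpos hc, sh8_hwd hc, sh8_hwd hc]
      show s 3 - 4 * q - 4 < s 0 - 4 * q - 0 ∨ (s 3 - 4 * q - 4 = s 0 - 4 * q - 0 ∧
        fpos μ true k 3 + hwd μ true 3 < fpos μ true k 0 - hwd μ true 0)
      omega
    · rw [sh8_fpos hc, sh8_fpos hc, sh8_hwd hc, sh8_hwd hc]
      show s 0 - 4 * q - 0 < s 1 - 4 * q - 0 ∨ (s 0 - 4 * q - 0 = s 1 - 4 * q - 0 ∧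
        fpos μ true k 0 + hwd μ true 0 < fpos μ true k 1 - hwd μ true 1)
      omega
  · have hc : ∀ i, colr false i = colr true (i + 1) := by decide
    refine ⟨false, fun i => s (i + 1) - 4 * q - (if i = 3 then 0 else 4),
      fun i => k (i + 1), 1, sh8_mk hμ ?_ ?_ ?_ ?_ ?_ ?_ ?_,
      fun i => ⟨by dsimp only; split_ifs <;> omega, rfl, hc i⟩⟩
    · intro i
      rw [sh8_fpos hc]
      exact hcor _
    · exact fun i => hk _
    · show 0 < s 1 - 4 * q - 4 ∨ (s 1 - 4 * q - 4 = 0 ∧ 0 < k 1)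
      omega
    · show s 0 - 4 * q - 0 < 4 ∨ (s 0 - 4 * q - 0 = 4 ∧ k 0 < 0)
      omega
    · rw [sh8_fpos hc, sh8_fpos hc, sh8_hwd hc, sh8_hwd hc]
      show s 1 - 4 * q - 4 < s 2 - 4 * q - 4 ∨ (s 1 - 4 * q - 4 = s 2 - 4 * q - 4 ∧
        fpos μ true k 1 + hwd μ true 1 < fpos μ true k 2 - hwd μ true 2)
      omega
    · rw [sh8_fpos hc, sh8_fpos hc, sh8_hwd hc, sh8_hwd hc]
      show s 2 - 4 * q - 4 < s 3 - 4 * q - 4 ∨ (s 2 - 4 * q - 4 = s 3 - 4 * q - 4 ∧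
        fpos μ true k 2 + hwd μ true 2 < fpos μ true k 3 - hwd μ true 3)
      omega
    · rw [sh8_fpos hc, sh8_fpos hc, sh8_hwd hc, sh8_hwd hc]
      show s 3 - 4 * q - 4 < s 0 - 4 * q - 0 ∨ (s 3 - 4 * q - 4 = s 0 - 4 * q - 0 ∧
        fpos μ true k 3 + hwd μ true 3 < fpos μ true k 0 - hwd μ true 0)
      omega

/-- all admissible outer landing positions -/
noncomputable def LamO (μ Mc : ℤ) : Finset (Bool × (Fin 4 → ℤ) × (Fin 4 → ℤ)) :=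
  ((Finset.univ : Finset Bool) ×ˢ (Fintype.piFinset fun _ => Finset.Icc (0 : ℤ) 4) ×ˢ
    (Fintype.piFinset fun _ => Finset.Icc (-(μ * Mc + μ)) (μ * Mc + μ))).filter
      fun q => Land μ (μ * Mc + μ / 2) q.1 q.2.1 q.2.2

/-- all admissible inner landing positions with the directions of the outer zones -/
noncomputable def LamI (μ Mc : ℤ) :
    Finset (Bool × (Fin 4 → ℤ) × (Fin 4 → ℤ) × (Fin 4 → ℤ)) :=
  ((Finset.univ : Finset Bool) ×ˢ (Fintype.piFinset fun _ => Finset.Icc (0 : ℤ) 4) ×ˢ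
    (Fintype.piFinset fun _ => Finset.Icc (-(μ * Mc + μ)) (μ * Mc + μ)) ×ˢ
      (Fintype.piFinset fun _ => Finset.Icc (0 : ℤ) 3)).filter
      fun q => Land μ (μ * Mc + μ / 2) q.1 q.2.1 q.2.2.1 ∧ Dirs q.1 q.2.2.2

/-- `|k i| ≤ |fpos μ c₀ k i| ≤ μ Mc + μ / 2` -/
theorem mem_LamO {μ Mc : ℤ} (hμ : 0 < μ) (q : Bool × (Fin 4 → ℤ) × (Fin 4 → ℤ)) :
    q ∈ LamO μ Mc ↔ Land μ (μ * Mc + μ / 2) q.1 q.2.1 q.2.2 := by
  unfold LamO
  rw [Finset.mem_filter]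
  constructor
  · exact fun h => h.2
  · intro h
    refine ⟨?_, h⟩
    rw [Finset.mem_product, Finset.mem_product, Fintype.mem_piFinset, Fintype.mem_piFinset]
    refine ⟨Finset.mem_univ _, fun i => ?_, fun i => ?_⟩
    · exact Finset.mem_Icc.2 (h.side i)
    · exact Finset.mem_Icc.2 (sh8_abs_le hμ h i)

theorem mem_LamI {μ Mc : ℤ} (hμ : 0 < μ)
    (q : Bool × (Fin 4 → ℤ) × (Fin 4 → ℤ) × (Fin 4 → ℤ)) :
    q ∈ LamI μ Mc ↔ Land μ (μ * Mc + μ / 2) q.1 q.2.1 q.2.2.1 ∧ Dirs q.1 q.2.2.2 := by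
  unfold LamI
  rw [Finset.mem_filter]
  constructor
  · exact fun h => h.2
  · rintro ⟨h, hd⟩
    refine ⟨?_, h, hd⟩
    rw [Finset.mem_product, Finset.mem_product, Finset.mem_product, Fintype.mem_piFinset,
      Fintype.mem_piFinset, Fintype.mem_piFinset]
    refine ⟨Finset.mem_univ _, fun i => ?_, fun i => ?_, fun i => ?_⟩
    · exact Finset.mem_Icc.2 (h.side i)
    · exact Finset.mem_Icc.2 (sh8_abs_le hμ h i)
    · have h1 := hd.1 i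
      have h2 : ∀ b : Bool, 0 ≤ dc b ∧ dc b ≤ 1 := by
        intro b
        cases b <;> decide
      have h3 := h2 (colr q.1 i)
      rw [Finset.mem_Icc]
      omega

end SC
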