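import Pool.Agent.Lib_MP_e0a489.IS3
import Pool.Agent.Lib_MP_e0a489.IS5
import Pool.Agent.Lib_MP_e0a489.IS6
import Pool.Agent.Lib_MP_e0a489.SH8

/-!
# MP_e0a489, inner separation 7: the event after the first step
-/

set_option autoImplicit false

namespace SC

open Classical

namespace Lat

variable {L : Lat}

/-- Event after the first step (`r = M w + w / 2`, `w` the coarse size): open arms from `Je 0 R`, `Je 2 R` to the far sides of the
inner blocks `(s₁, k₁)`, `(s₃, k₃)`; closed arms from two ring sites in the two arcs between the triples of these blocks,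
far from the corners, to `Je 1 R`, `Je 3 R` (in some order). -/
def E1i (L : Lat) (r w M R s₁ k₁ s₃ k₃ : ℤ) (ω : Cfg) : Prop :=
  (CellI w (r + 1) k₁ ∧ CellI w (r + 1) k₃) ∧
  L.Arm true (ann r R ∪ Jc true R ∪ ib w M s₁ k₁) (ib w M s₁ k₁ ∩ rng (M * w - w / 2))
    (Je 0 R) ω ∧
  L.Arm true (ann r R ∪ Jc true R ∪ ib w M s₃ k₃) (ib w M s₃ k₃ ∩ rng (M * w - w / 2))
    (Je 2 R) ω ∧
  ∃ s₂ y₂ s₄ y₄ e₂ e₄ : ℤ, ((e₂ = 1 ∧ e₄ = 3) ∨ (e₂ = 3 ∧ e₄ = 1)) ∧
    |y₂| + 100 * w ≤ r + 1 ∧ |y₄| + 100 * w ≤ r + 1 ∧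
    2 * (r + 1) * s₁ + ((k₁ + 1) * w + w / 2) < 2 * (r + 1) * s₂ + y₂ ∧
    2 * (r + 1) * s₂ + y₂ < 2 * (r + 1) * s₃ + ((k₃ - 1) * w - w / 2) ∧
    2 * (r + 1) * s₃ + ((k₃ + 1) * w + w / 2) < 2 * (r + 1) * s₄ + y₄ ∧
    2 * (r + 1) * s₄ + y₄ < 2 * (r + 1) * (s₁ + 4) + ((k₁ - 1) * w - w / 2) ∧
    L.Arm false (ann r R ∪ Jc false R) {rc (r + 1) (2 * (r + 1) * s₂ + y₂)} (Je e₂ R) ω ∧
    L.Arm false (ann r R ∪ Jc false R) {rc (r + 1) (2 * (r + 1) * s₄ + y₄)} (Je e₄ R) ω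

/-- the positions of the coarse cells: a finite set -/
noncomputable def cellsI (M : ℤ) : Finset (ℤ × ℤ × ℤ × ℤ) :=
  Finset.Icc 0 3 ×ˢ Finset.Icc (-M) M ×ˢ Finset.Icc 0 8 ×ˢ Finset.Icc (-M) M

private theorem is7_per {m : ℤ} (hm : 1 ≤ m) (i n : ℤ) : rc m (i + 8 * m * n) = rc m i := by
  induction n using Int.induction_on with
  | zero => simp
  | succ n ih =>
    have e : i + 8 * m * ((n : ℤ) + 1) = (i + 8 * m * n) + 8 * m := by ring
    rw [e, rc_period hm, ih]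
  | pred n ih =>
    have e : i + 8 * m * (-(n : ℤ)) = (i + 8 * m * (-(n : ℤ) - 1)) + 8 * m := by ring
    rw [e, rc_period hm] at ih
    exact ih

private theorem is7_ib {w M s s' k : ℤ} (h : s % 4 = s' % 4) : ib w M s k = ib w M s' k := by
  unfold ib
  rw [rt_mod h]

/-- ORDER IN THE MIXED CONFIGURATION.  Open arms to the blocks `(s, k)`, `(s', k')` (directions `0`, `2`), closed arms from the
ring sites number `2 m t + y`, `2 m t' + y'` (directions `1`, `3`), all sites of the triples different from each other and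
from the two ring sites (`m = r + 1`).  Then `E1i` holds for suitable representatives.
Proof.  `N = 8 m`, `h = w + w/2`, `a = 2 m s + k w`, `b = 2 m s' + k' w`; choose `s₁ = s - 4 (s / 4) ∈ [0, 3]` (so replace `s` by `s₁`,
the block and the sites do not change: `rt_four`, `rc_period`).  `arcs_rep` (the hypotheses `hd` say that there is no common
site; `mem_trip`, `rc_period`) gives `s₃ = s' + 4 n` with `a + h < b' - h`, `b' + h < a + 8 m - h`; since `|k| w, |k'| w < m` we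
have `s₁ ≤ s₃ ≤ s₁ + 4`, so `s₃ ∈ [0, 8]`.  `arcs_pt` puts (representatives of) the two ring sites into the two arcs.  If
both were in the arc from `a` to `b'`: `order_in` with `d₁ = 0`, `d₃ = 2`; if both were in the arc from `b'` to `a + 8 m`: `order_in`
with the blocks `(s₃, k')`, `(s₁ + 4, k)` and `d₁ = 2`, `d₃ = 0`.  So exactly one is in each arc; name them accordingly. -/
theorem order_mix {w M r R s k s' k' t y t' y' : ℤ} {ω : Cfg} (hw : w % 2 = 1) (hw5 : 5 ≤ w)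
    (hr : r = M * w + w / 2) (hR : 8 * r ≤ R) (hk : CellI w (r + 1) k)
    (hk' : CellI w (r + 1) k')
    (a1 : L.Arm true (ann r R ∪ Jc true R ∪ ib w M s k) (ib w M s k ∩ rng (M * w - w / 2))
      (Je 0 R) ω)
    (a3 : L.Arm true (ann r R ∪ Jc true R ∪ ib w M s' k') (ib w M s' k' ∩ rng (M * w - w / 2))
      (Je 2 R) ω)
    (hd : ∀ v ∈ trip w (r + 1) s k, v ∉ trip w (r + 1) s' k')
    (hy : |y| + 100 * w ≤ r + 1) (hy' : |y'| + 100 * w ≤ r + 1)
    (hn : rc (r + 1) (2 * (r + 1) * t + y) ∈ L.nb (bx r))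
    (hn' : rc (r + 1) (2 * (r + 1) * t' + y') ∈ L.nb (bx r))
    (b1 : L.Arm false (ann r R ∪ Jc false R) {rc (r + 1) (2 * (r + 1) * t + y)} (Je 1 R) ω)
    (b3 : L.Arm false (ann r R ∪ Jc false R) {rc (r + 1) (2 * (r + 1) * t' + y')} (Je 3 R) ω)
    (h1 : rc (r + 1) (2 * (r + 1) * t + y) ∉ trip w (r + 1) s k ∪ trip w (r + 1) s' k')
    (h3 : rc (r + 1) (2 * (r + 1) * t' + y') ∉ trip w (r + 1) s k ∪ trip w (r + 1) s' k') :
    ∃ q ∈ cellsI M, L.E1i r w M R q.1 q.2.1 q.2.2.1 q.2.2.2 ω := by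
  obtain ⟨hk0, hk1⟩ := hk
  obtain ⟨hk0', hk1'⟩ := hk'
  have hm : 1 ≤ r + 1 := by
    have := abs_nonneg k
    nlinarith
  have habs : |k * w| = |k| * w := by rw [abs_mul, abs_of_pos (by omega : (0 : ℤ) < w)]
  have habs' : |k' * w| = |k'| * w := by rw [abs_mul, abs_of_pos (by omega : (0 : ℤ) < w)]
  have hkm : |k * w| < r + 1 := by omega
  have hkm' : |k' * w| < r + 1 := by omega
  have hMk : ∀ l : ℤ, |l| * w + 100 * w ≤ r + 1 → |l| + 1 < M := by
    intro l hl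
    by_contra hcon
    have h5 : M ≤ |l| + 1 := not_lt.mp hcon
    have h6 : M * w ≤ (|l| + 1) * w := mul_le_mul_of_nonneg_right h5 (by omega)
    have h7 : (|l| + 1) * w = |l| * w + w := by ring
    omega
  have hkM := hMk k hk1
  have hkM' := hMk k' hk1'
  -- representative of the first side
  obtain ⟨s₁, n₀, hs0, hs3, hs₁⟩ : ∃ s₁ n₀ : ℤ, 0 ≤ s₁ ∧ s₁ ≤ 3 ∧ s₁ = s + 4 * n₀ :=
    ⟨s % 4, -(s / 4), by omega, by omega, by omega⟩
  have a1' : L.Arm true (ann r R ∪ Jc true R ∪ ib w M s₁ k)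
      (ib w M s₁ k ∩ rng (M * w - w / 2)) (Je 0 R) ω := by
    rw [is7_ib (show s₁ % 4 = s % 4 by omega)]
    exact a1
  have ha : ∀ i, |i - (2 * (r + 1) * s₁ + k * w)| ≤ w + w / 2 →
      rc (r + 1) i ∈ trip w (r + 1) s k := by
    intro i hi
    rw [mem_trip]
    refine ⟨i + 8 * (r + 1) * (-n₀), ?_, is7_per hm _ _⟩
    have e : i + 8 * (r + 1) * (-n₀) - (2 * (r + 1) * s + k * w) =
        i - (2 * (r + 1) * s₁ + k * w) := by
      rw [hs₁]
      ring
    rw [e]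
    exact hi
  have hb : ∀ i, |i - (2 * (r + 1) * s' + k' * w)| ≤ w + w / 2 →
      rc (r + 1) i ∈ trip w (r + 1) s' k' := by
    intro i hi
    rw [mem_trip]
    exact ⟨i, hi, rfl⟩
  have hN : 0 < 8 * (r + 1) := by omega
  have hh : 0 ≤ w + w / 2 := by omega
  obtain ⟨n, hn1, hn2⟩ := arcs_rep (N := 8 * (r + 1)) (h := w + w / 2)
    (a := 2 * (r + 1) * s₁ + k * w) (b := 2 * (r + 1) * s' + k' * w) hh hN (by
      rintro i j hi hj ⟨q, hq⟩
      have e : i = j + 8 * (r + 1) * q := by omega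
      have h5 : rc (r + 1) i = rc (r + 1) j := by
        rw [e]
        exact is7_per hm j q
      have h6 := ha i hi
      rw [h5] at h6
      exact hd _ h6 (hb j hj))
  obtain ⟨s₃, hs₃⟩ : ∃ s₃ : ℤ, s₃ = s' + 4 * n := ⟨_, rfl⟩
  have hb3 : 2 * (r + 1) * s' + k' * w + 8 * (r + 1) * n = 2 * (r + 1) * s₃ + k' * w := by
    rw [hs₃]
    ring
  rw [hb3] at hn1 hn2
  have a3' : L.Arm true (ann r R ∪ Jc true R ∪ ib w M s₃ k')
      (ib w M s₃ k' ∩ rng (M * w - w / 2)) (Je 2 R) ω := by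
    rw [is7_ib (show s₃ % 4 = s' % 4 by omega)]
    exact a3
  have hb' : ∀ i, |i - (2 * (r + 1) * s₃ + k' * w)| ≤ w + w / 2 →
      rc (r + 1) i ∈ trip w (r + 1) s' k' := by
    intro i hi
    rw [mem_trip]
    refine ⟨i + 8 * (r + 1) * (-n), ?_, is7_per hm _ _⟩
    have e : i + 8 * (r + 1) * (-n) - (2 * (r + 1) * s' + k' * w) =
        i - (2 * (r + 1) * s₃ + k' * w) := by
      rw [hs₃]
      ring
    rw [e]
    exact hi
  have e4 : 2 * (r + 1) * (s₁ + 4) + k * w = 2 * (r + 1) * s₁ + k * w + 8 * (r + 1) := by ring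
  have e4' : 2 * (r + 1) * (s₃ + 4) + k' * w = 2 * (r + 1) * s₃ + k' * w + 8 * (r + 1) := by ring
  have l1 := lex_of_idx hkm hkm' (s := s₁) (s' := s₃) (by omega)
  have l2 := lex_of_idx hkm' hkm (s := s₃) (s' := s₁ + 4) (by omega)
  have hs3lo : s₁ ≤ s₃ := by omega
  have hs3hi : s₃ ≤ s₁ + 4 := by omega
  have pt : ∀ t y : ℤ, rc (r + 1) (2 * (r + 1) * t + y) ∉
      trip w (r + 1) s k ∪ trip w (r + 1) s' k' → ∃ n, ∃ t₂, t₂ = t + 4 * n ∧
        rc (r + 1) (2 * (r + 1) * t₂ + y) = rc (r + 1) (2 * (r + 1) * t + y) ∧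
        ((2 * (r + 1) * s₁ + k * w + (w + w / 2) < 2 * (r + 1) * t₂ + y ∧
          2 * (r + 1) * t₂ + y < 2 * (r + 1) * s₃ + k' * w - (w + w / 2)) ∨
        (2 * (r + 1) * s₃ + k' * w + (w + w / 2) < 2 * (r + 1) * t₂ + y ∧
          2 * (r + 1) * t₂ + y < 2 * (r + 1) * s₁ + k * w + 8 * (r + 1) - (w + w / 2))) := by
    intro t y h5
    obtain ⟨n', hn'⟩ := arcs_pt (N := 8 * (r + 1)) (h := w + w / 2)
      (a := 2 * (r + 1) * s₁ + k * w) (b := 2 * (r + 1) * s₃ + k' * w)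
      (i := 2 * (r + 1) * t + y) hh hN hn1 hn2
      (by
        rintro j hj ⟨q, hq⟩
        apply h5
        left
        have e : 2 * (r + 1) * t + y = j + 8 * (r + 1) * q := by omega
        rw [e, is7_per hm]
        exact ha j hj)
      (by
        rintro j hj ⟨q, hq⟩
        apply h5
        right
        have e : 2 * (r + 1) * t + y = j + 8 * (r + 1) * q := by omega
        rw [e, is7_per hm]
        exact hb' j hj)
    have e : 2 * (r + 1) * (t + 4 * n') + y = 2 * (r + 1) * t + y + 8 * (r + 1) * n' := by ring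
    refine ⟨n', t + 4 * n', rfl, ?_, ?_⟩
    · rw [e]
      exact is7_per hm _ _
    · rw [e]
      exact hn'
  obtain ⟨-, t₂, -, er, hpt⟩ := pt t y h1
  obtain ⟨-, t₄, -, er', hpt'⟩ := pt t' y' h3
  have b1' : L.Arm false (ann r R ∪ Jc false R) {rc (r + 1) (2 * (r + 1) * t₂ + y)}
      (Je 1 R) ω := by
    rw [er]
    exact b1
  have b3' : L.Arm false (ann r R ∪ Jc false R) {rc (r + 1) (2 * (r + 1) * t₄ + y')}
      (Je 3 R) ω := by
    rw [er']
    exact b3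
  have hn₂ : rc (r + 1) (2 * (r + 1) * t₂ + y) ∈ L.nb (bx r) := by
    rw [er]
    exact hn
  have hn₄ : rc (r + 1) (2 * (r + 1) * t₄ + y') ∈ L.nb (bx r) := by
    rw [er']
    exact hn'
  have ek1 : (k + 1) * w + w / 2 = k * w + (w + w / 2) := by ring
  have ek2 : (k - 1) * w - w / 2 = k * w - (w + w / 2) := by ring
  have ek3 : (k' + 1) * w + w / 2 = k' * w + (w + w / 2) := by ring
  have ek4 : (k' - 1) * w - w / 2 = k' * w - (w + w / 2) := by ring
  have hmem : ((s₁, k, s₃, k') : ℤ × ℤ × ℤ × ℤ) ∈ cellsI M := by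
    have h5 := abs_lt.mp (lt_trans (lt_add_one |k|) hkM)
    have h6 := abs_lt.mp (lt_trans (lt_add_one |k'|) hkM')
    unfold cellsI
    simp only [Finset.mem_product, Finset.mem_Icc]
    omega
  rcases hpt with hpt | hpt <;> rcases hpt' with hpt' | hpt'
  · exfalso
    exact order_in hw (by omega) hr hR hkM hkM' (Or.inl ⟨rfl, rfl⟩) (Or.inl ⟨rfl, rfl⟩) a1' a3'
      b1' b3' hn₂ hn₄ (by rw [ek1]; omega) (by rw [ek4]; omega) (by rw [ek1]; omega)
      (by rw [ek4]; omega) (by omega)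
  · refine ⟨(s₁, k, s₃, k'), hmem, ⟨⟨hk0, hk1⟩, ⟨hk0', hk1'⟩⟩, a1', a3', t₂, y, t₄, y', 1, 3,
      Or.inl ⟨rfl, rfl⟩, hy, hy', ?_, ?_, ?_, ?_, b1', b3'⟩
    · show 2 * (r + 1) * s₁ + ((k + 1) * w + w / 2) < 2 * (r + 1) * t₂ + y
      rw [ek1]
      omega
    · show 2 * (r + 1) * t₂ + y < 2 * (r + 1) * s₃ + ((k' - 1) * w - w / 2)
      rw [ek4]
      omega
    · show 2 * (r + 1) * s₃ + ((k' + 1) * w + w / 2) < 2 * (r + 1) * t₄ + y'
      rw [ek3]
      omega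
    · show 2 * (r + 1) * t₄ + y' < 2 * (r + 1) * (s₁ + 4) + ((k - 1) * w - w / 2)
      rw [ek2]
      omega
  · refine ⟨(s₁, k, s₃, k'), hmem, ⟨⟨hk0, hk1⟩, ⟨hk0', hk1'⟩⟩, a1', a3', t₄, y', t₂, y, 3, 1,
      Or.inr ⟨rfl, rfl⟩, hy', hy, ?_, ?_, ?_, ?_, b3', b1'⟩
    · show 2 * (r + 1) * s₁ + ((k + 1) * w + w / 2) < 2 * (r + 1) * t₄ + y'
      rw [ek1]
      omega
    · show 2 * (r + 1) * t₄ + y' < 2 * (r + 1) * s₃ + ((k' - 1) * w - w / 2)
      rw [ek4]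
      omega
    · show 2 * (r + 1) * s₃ + ((k' + 1) * w + w / 2) < 2 * (r + 1) * t₂ + y
      rw [ek3]
      omega
    · show 2 * (r + 1) * t₂ + y < 2 * (r + 1) * (s₁ + 4) + ((k - 1) * w - w / 2)
      rw [ek2]
      omega
  · exfalso
    have a1'' : L.Arm true (ann r R ∪ Jc true R ∪ ib w M (s₁ + 4) k)
        (ib w M (s₁ + 4) k ∩ rng (M * w - w / 2)) (Je 0 R) ω := by
      rw [is7_ib (show (s₁ + 4) % 4 = s₁ % 4 by omega)]
      exact a1'
    exact order_in hw (by omega) hr hR hkM' hkM (Or.inr ⟨rfl, rfl⟩) (Or.inl ⟨rfl, rfl⟩) a3' a1''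
      b1' b3' hn₂ hn₄ (by rw [ek3]; omega) (by rw [ek2]; omega) (by rw [ek3]; omega)
      (by rw [ek2]; omega) (by omega)

/-- FIRST STEP, deterministic part.
Proof.  `cell1` for the two open arms gives components `V`, `V'` and cells; `V ∩ V' = ∅` (`Comp.eq`, `V_ne`), so the triples are
disjoint.  `start1` for the two closed arms; their first sites are explored, hence not in the triples (`V ⊆ Di \ C`).
Given `η` with the fresh event, `land_in` (`c = true`, `B = ∅`; `C1_con`, `C1_inner`, `C1_exact`, `end_nb`) lands both open arms; then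
`order_mix`.  (`|k| + 1 < M` follows from `CellI`.) -/
theorem step1_in {w M K B r R : ℤ} {ω : Cfg} {G : Finset Pt} (hw : w % 2 = 1) (hw5 : 5 ≤ w)
    (hK : 4 ≤ K) (hB : 48 ≤ B) (hM : M = 2 * K * B) (hr : r = M * w + w / 2) (hR : 8 * r ≤ R)
    (hG : ∀ v, r - w < nrm v → nrm v ≤ r + w → v ∈ G)
    (hbad : ¬ L.BadW true (ann r (2 * r)) (r + 1) (4 * B * w) (K * B * w) (B * w) (12 * w) ω)
    (h : L.Sout r R ω) :
    ∃ s k s' k' : ℤ, (CellI w (r + 1) k ∧ CellI w (r + 1) k') ∧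
      ∀ η, L.Fre true r (r + w) w M s k s' k' η → ∃ q ∈ cellsI M,
        L.E1i r w M R q.1 q.2.1 q.2.2.1 q.2.2.2
          (mix G (L.Rev false (Di r R ∅) (Si true R ∅)) ω η) := by
  have hM0 : 384 ≤ M := by
    rw [hM]
    nlinarith
  have hMw : 384 * 5 ≤ M * w := mul_le_mul hM0 hw5 (by norm_num) (by omega)
  have hr0 : 1920 ≤ r := by omega
  have hR1 : 1 ≤ R := by omega
  have ht := h true
  have hf := h false
  have e1 : dc true = 0 := if_pos rfl
  have e2 : dc false = 1 := if_neg Bool.false_ne_true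
  have e3 : (0 : ℤ) + 2 = 2 := by norm_num
  have e4 : (1 : ℤ) + 2 = 3 := by norm_num
  rw [e1, e3] at ht
  rw [e2, e4] at hf
  obtain ⟨y₀, hy₀, V, hV, hyV, s, k, hk, hsk⟩ := cell1 hw hw5 hK hB hM hr hR (Or.inl rfl) hbad ht.1
  obtain ⟨y₂, hy₂, V', hV', hyV', s', k', hk', hsk'⟩ :=
    cell1 hw hw5 hK hB hM hr hR (Or.inr rfl) hbad ht.2
  obtain ⟨t, y, hy, hn, hx, harm⟩ := start1 hw hw5 hK hB hM hr hR (Or.inl rfl) hbad hf.1
  obtain ⟨t', y', hy', hn', hx', harm'⟩ := start1 hw hw5 hK hB hM hr hR (Or.inr rfl) hbad hf.2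
  have hdis : ∀ v ∈ V, v ∉ V' := by
    intro v hv hv'
    have e : V = V' := Comp.eq hV hV' hv hv'
    rw [← e] at hyV'
    exact V_ne (by omega) (by omega) h hV hyV hyV' hy₀ hy₂
  have hout : ∀ v, v ∈ L.Cx false (Di r R ∅) (Si true R ∅) ω →
      v ∉ trip w (r + 1) s k ∪ trip w (r + 1) s' k' := by
    rintro v hv (h5 | h5)
    · exact (hV.sub (hsk h5)).2 hv
    · exact (hV'.sub (hsk' h5)).2 hv
  have hkM : ∀ l : ℤ, CellI w (r + 1) l → |l| + 1 < M := by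
    rintro l ⟨-, hl⟩
    by_contra hcon
    have h5 : M ≤ |l| + 1 := not_lt.mp hcon
    have h6 : M * w ≤ (|l| + 1) * w := mul_le_mul_of_nonneg_right h5 (by omega)
    have h7 : (|l| + 1) * w = |l| * w + w := by ring
    omega
  refine ⟨s, k, s', k', ⟨hk, hk'⟩, fun η hF => ?_⟩
  obtain ⟨hc, hcor, hcor'⟩ := hF
  have hnbe : ∀ v : Pt, v ∉ (∅ : Set Pt) ∧ v ∉ L.nb (∅ : Set Pt) := by
    intro v
    refine ⟨Set.notMem_empty v, ?_⟩
    rintro ⟨u, hu, -⟩
    exact Set.notMem_empty u hu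
  obtain ⟨u, hu, hcu⟩ := land_in (c := true) (B := ∅) (V := V) (G := G) (y := y₀) hw hw5 hr hR
    (hkM k hk) (Set.empty_subset _) (fun v _ => hnbe v) (C1_con hR1)
    (C1_inner (by omega) (by omega) h) (C1_exact (by omega) (by omega)) hV hsk hyV
    (end_nb hR1 hy₀) hG hc hcor
  obtain ⟨u', hu', hcu'⟩ := land_in (c := true) (B := ∅) (V := V') (G := G) (y := y₂) hw hw5 hr hR
    (hkM k' hk') (Set.empty_subset _) (fun v _ => hnbe v) (C1_con hR1)
    (C1_inner (by omega) (by omega) h) (C1_exact (by omega) (by omega)) hV' hsk' hyV'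
    (end_nb hR1 hy₂) hG hc hcor'
  exact order_mix hw hw5 hr hR hk hk' ⟨u, hu, y₀, hy₀, hcu⟩ ⟨u', hu', y₂, hy₂, hcu'⟩
    (fun v hv hv' => hdis v (hsk hv) (hsk' hv')) hy hy' hn hn' (harm G η) (harm' G η)
    (hout _ hx) (hout _ hx')

end Lat

end SC
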