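import Pool.Agent.Lib_MP_e0a489.RC2
import Pool.Agent.Lib_MP_e0a489.SH4

/-!
# MP_e0a489, shared by OS and IS, 9: a good landing position, version without corner events
-/

set_option autoImplicit false

namespace SC

open Classical

namespace Lat

variable {L : Lat}

/-- GOOD POSITION, the site being far from the corners by hypothesis.  `V` is a component of `D \ C`,
`x = rc m (2 m s + y) ∈ V` a site of the ring with a path of colour `c` in the region to a far site; the sites of `C` on the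
ring near `x` have paths of colour `!c` to far sites.  If the bad event (its part with the alternate triples) does
not occur there is a cell of size `w` near `x` whose triple lies in `V`.
Proof.  `z = 2 m s + y`, `Z = {i | rc m i ∈ C}`, `z ∉ Z`.  If `Z` had elements on both sides of `z` within `6 w`, `tri_of`
(with `c` replaced by `!c`, `a = 12 w`) would give the bad event.  So `good_cell` gives `k`.  The arc between `z` and the
triple, `arc m (min ..) (max ..)`, is connected (`con_arc`), lies in `rng m \ C ⊆ D \ C` (`rc_nrm`) and contains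
`x ∈ V`, so it is contained in `V` (`Comp.absorb`); it contains `trip w m s k`. -/
theorem good_pos' {o c : Bool} {m w ρ ℓ β s y : ℤ} {D D' E C V : Set Pt} {ω : Cfg} {v : Pt}
    (hw : w % 2 = 1) (hw0 : 0 < w) (hβ : 8 ≤ β) (hwβ : 48 * w ≤ β) (hy : |y| + 4 * β ≤ m)
    (hm : 1 ≤ m) (hbad : ¬ L.BadW o D' m ρ ℓ β (12 * w) ω) (hE : E ⊆ reg o m)
    (hring : rng m ⊆ D) (hV : L.Comp (D \ C) V) (hz : rc m (2 * m * s + y) ∈ V)
    (hp : L.Cn (E ∩ L.col c ω) (rc m (2 * m * s + y)) v)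
    (hv : 3 * β ≤ nrm (v - rc m (2 * m * s + y)))
    (hC : ∀ i, |i - (2 * m * s + y)| ≤ 6 * w → rc m i ∈ C →
      ∃ v, L.Cn (E ∩ L.col (!c) ω) (rc m i) v ∧ 3 * β ≤ nrm (v - rc m (2 * m * s + y))) :
    ∃ k : ℤ, k ≠ 0 ∧ y - 6 * w ≤ (k - 1) * w - w / 2 ∧
      (k + 1) * w + w / 2 ≤ y + 6 * w ∧ trip w m s k ⊆ V := by
  have hzZ : 2 * m * s + y ∉ {i : ℤ | rc m i ∈ C} := (hV.sub hz).2
  have hns : ¬ ((∃ i ∈ {i : ℤ | rc m i ∈ C}, 2 * m * s + y - 6 * w ≤ i ∧ i < 2 * m * s + y) ∧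
      ∃ j ∈ {i : ℤ | rc m i ∈ C}, 2 * m * s + y < j ∧ j ≤ 2 * m * s + y + 6 * w) := by
    rintro ⟨⟨i, hi, hi1, hi2⟩, ⟨j, hj, hj1, hj2⟩⟩
    have hi' : rc m i ∈ C := hi
    have hj' : rc m j ∈ C := hj
    obtain ⟨v₁, q₁, f₁⟩ := hC i (abs_le.2 ⟨by omega, by omega⟩) hi'
    obtain ⟨v₃, q₃, f₃⟩ := hC j (abs_le.2 ⟨by omega, by omega⟩) hj'
    apply hbad
    refine tri_of (c := !c) (i₁ := i) (i₃ := j) hβ (by omega) (by omega) hE hi2 hj1 (by omega)
      q₁ ?_ q₃ f₁ hv f₃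
    rw [Bool.not_not]
    exact hp
  obtain ⟨k, hk0, hk1, hk2, hk3⟩ := good_cell hw hw0 (by omega) hzZ hns
  refine ⟨k, hk0, hk1, hk2, ?_⟩
  have hww : 0 ≤ w / 2 := by omega
  have hsub : arc m (min (2 * m * s + y) (2 * m * s + (k - 1) * w - w / 2))
      (max (2 * m * s + y) (2 * m * s + (k + 1) * w + w / 2)) ⊆ V := by
    refine hV.absorb (con_arc hm _ _) ?_ ⟨rc m (2 * m * s + y), ?_, hz⟩
    · rintro v ⟨i, hi1, hi2, rfl⟩
      refine ⟨hring (rc_nrm hm), ?_⟩
      intro hiC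
      exact hk3 i hiC ⟨hi1, hi2⟩
    · exact ⟨2 * m * s + y, min_le_left _ _, le_max_left _ _, rfl⟩
  intro v hvt
  obtain ⟨i, hi1, hi2, rfl⟩ := hvt
  exact hsub ⟨i, (min_le_right _ _).trans hi1, hi2.trans (le_max_right _ _), rfl⟩

end Lat

end SC
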