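import Pool.Agent.Lib_MP_e0a489.IS7
import Pool.Agent.Lib_MP_e0a489.SH9

/-!
# MP_e0a489, inner separation 8: second step

Step 2: the two coarse blocks `(s₁, k₁)`, `(s₃, k₃)` of size `W = μ w` are landed, `B = ib W M' s₁ k₁ ∪ ib W M' s₃ k₃`
(`r = M' W + W / 2`); the open clusters attached to `Outc false R ∪ B` are explored; the closed arms are landed in
fine blocks of size `w` (`r = M w + w / 2`).
-/

set_option autoImplicit false

namespace SC

open Classical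

namespace Lat

variable {L : Lat}

/-- the two coarse blocks -/
def B2 (W M s₁ k₁ s₃ k₃ : ℤ) : Set Pt := ib W M s₁ k₁ ∪ ib W M s₃ k₃

private theorem is8_kM {W M r k : ℤ} (hW0 : 0 < W) (hr : r = M * W + W / 2)
    (hk : CellI W (r + 1) k) : |k| < M := by
  obtain ⟨-, hk⟩ := hk
  by_contra h
  have h1 : M * W ≤ |k| * W := mul_le_mul_of_nonneg_right (not_lt.1 h) (le_of_lt hW0)
  have h2 : W / 2 ≤ W := by omega
  have h3 : W / 2 + 1 ≤ W + 1 := by omega
  nlinarith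

private theorem is8_r {W M r k : ℤ} (hW0 : 0 < W) (hr : r = M * W + W / 2)
    (hk : CellI W (r + 1) k) : 99 * W ≤ r := by
  obtain ⟨-, hk⟩ := hk
  have h1 : 0 ≤ |k| * W := mul_nonneg (abs_nonneg k) (le_of_lt hW0)
  linarith

/-- the blocks are in `bx r` (`ib_nrm`) -/
theorem B2_sub {W M r s₁ k₁ s₃ k₃ : ℤ} (hW : W % 2 = 1) (hW0 : 0 < W) (hr : r = M * W + W / 2)
    (hk₁ : CellI W (r + 1) k₁) (hk₃ : CellI W (r + 1) k₃) : B2 W M s₁ k₁ s₃ k₃ ⊆ bx r := by
  have hM₁ := is8_kM hW0 hr hk₁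
  have hM₃ := is8_kM hW0 hr hk₃
  rintro v (hv | hv)
  · exact (ib_nrm hW hW0 hr hM₁ hv).2
  · exact (ib_nrm hW hW0 hr hM₃ hv).2

/-- CONNECTED.  `Cx_con'`: `Outc false R` is connected (`con_Outc`), each block is connected (`con_ib`), and the open arm of `E1i`
that starts in the block is contained in the explored set (`arm_keep` with `c = false`; all its sites, by
`Cx_of_cn`), and ends in `Je d R ⊆ Jc true R ⊆ Outc false R`. -/
theorem C2_con {W M r R s₁ k₁ s₃ k₃ : ℤ} {ω : Cfg} (hW : W % 2 = 1) (hW0 : 5 ≤ W)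
    (hr : r = M * W + W / 2) (hR : 8 * r ≤ R) (h : L.E1i r W M R s₁ k₁ s₃ k₃ ω) :
    L.Con (L.Cx true (Di r R (B2 W M s₁ k₁ s₃ k₃)) (Si false R (B2 W M s₁ k₁ s₃ k₃)) ω) := by
  have hW0' : 0 < W := by linarith
  obtain ⟨⟨hk₁, hk₃⟩, a1, a3, -⟩ := h
  have hr99 := is8_r hW0' hr hk₁
  have hr0 : 0 ≤ r := by linarith
  have hR1 : 1 ≤ R := by linarith
  have hrR : r ≤ R := by linarith
  have hSC : Si false R (B2 W M s₁ k₁ s₃ k₃) ⊆
      L.Cx true (Di r R (B2 W M s₁ k₁ s₃ k₃)) (Si false R (B2 W M s₁ k₁ s₃ k₃)) ω := Cx_sup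
  have hOC : Outc false R ⊆
      L.Cx true (Di r R (B2 W M s₁ k₁ s₃ k₃)) (Si false R (B2 W M s₁ k₁ s₃ k₃)) ω :=
    fun v hv => hSC (Or.inl hv)
  -- the arm from a block
  have key : ∀ (s k d : ℤ), (d = 0 ∨ d = 2) → ib W M s k ⊆ B2 W M s₁ k₁ s₃ k₃ →
      L.Arm true (ann r R ∪ Jc true R ∪ ib W M s k) (ib W M s k ∩ rng (M * W - W / 2))
        (Je d R) ω →
      ∃ x ∈ ib W M s k, ∃ y ∈ Outc false R,
        L.Cn (L.Cx true (Di r R (B2 W M s₁ k₁ s₃ k₃)) (Si false R (B2 W M s₁ k₁ s₃ k₃)) ω)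
          x y := by
    intro s k d hd hsub ha
    have hd' : d = dc (!false) ∨ d = dc (!false) + 2 := by
      rcases hd with h | h
      · exact Or.inl (by rw [h]; rfl)
      · exact Or.inr (by rw [h]; rfl)
    obtain ⟨x, hx, hxC, y, hy, hxy, -⟩ :=
      arm_keep (L := L) (c := false) (r := r) (R := R) (d := d) (B := B2 W M s₁ k₁ s₃ k₃)
        (B' := ib W M s k) (X := ib W M s k ∩ rng (M * W - W / 2)) (ω := ω) (η := ω)
        (G := ∅) hr0 hR1 hrR hd' hsub ha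
    have hyO : y ∈ Outc false R :=
      Jc_sub_Outc (c := false) (by linarith) (Je_sub_Jc (c := true) hR1 hd' hy)
    refine ⟨x, hx.1, y, hyO, ?_⟩
    have hA : (ann r R ∪ Jc (!false) R ∪ ib W M s k) ∩ L.col (!false) ω ⊆
        Di r R (B2 W M s₁ k₁ s₃ k₃) := by
      rintro z ⟨(hz | hz) | hz, -⟩
      · exact Or.inl ⟨hz.1, by have := hz.2; linarith⟩
      · have h1 := Jc_sub_ann (c := !false) (by linarith : (0 : ℤ) ≤ R) hz
        exact Or.inl ⟨lt_of_le_of_lt hrR h1.1, by have := h1.2; linarith⟩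
      · exact Or.inr (hsub hz)
    have hsubC : {z | L.Cn ((ann r R ∪ Jc (!false) R ∪ ib W M s k) ∩ L.col (!false) ω) x z} ⊆
        L.Cx true (Di r R (B2 W M s₁ k₁ s₃ k₃)) (Si false R (B2 W M s₁ k₁ s₃ k₃)) ω := by
      intro z hz
      exact Cx_of_cn hA (fun w hw => Or.inr hw.2) (Cn.symm hz) hxC
    have hcon := con_cluster (L := L)
      ((ann r R ∪ Jc (!false) R ∪ ib W M s k) ∩ L.col (!false) ω) x
    exact (hcon x (Cn.refl hxy.left) y hxy).mono hsubC
  obtain ⟨x₁, hx₁, z₁, hz₁, c₁⟩ := key s₁ k₁ 0 (Or.inl rfl) Set.subset_union_left a1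
  obtain ⟨x₃, hx₃, z₃, hz₃, c₃⟩ := key s₃ k₃ 2 (Or.inr rfl) Set.subset_union_right a3
  have toO : ∀ u ∈ Si false R (B2 W M s₁ k₁ s₃ k₃),
      L.Cn (L.Cx true (Di r R (B2 W M s₁ k₁ s₃ k₃)) (Si false R (B2 W M s₁ k₁ s₃ k₃)) ω)
        u z₁ := by
    rintro u (hu | hu | hu)
    · exact (con_Outc (L := L) hR1 u hu z₁ hz₁).mono hOC
    · exact ((con_ib (L := L) hW hW0' u hu x₁ hx₁).mono
        (fun w hw => hSC (Or.inr (Or.inl hw)))).trans c₁
    · exact (((con_ib (L := L) hW hW0' u hu x₃ hx₃).mono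
        (fun w hw => hSC (Or.inr (Or.inr hw)))).trans c₃).trans
          ((con_Outc (L := L) hR1 z₃ hz₃ z₁ hz₁).mono hOC)
  exact Cx_con' (fun u hu v hv => (toO u hu).trans (toO v hv).symm)

/-- EXACT.  `exact_ann` (the ring `2R+1` is in the source) and `exact_ib` twice; the blocks are not adjacent to each other
(`ib_far` with `w = w' = W`; the index inequalities follow from those of `E1i`: the distance of the middle indices is more than
`2 (W + W/2)`), and their neighbours outside `bx r` are on the ring `r + 1` (`ib_nbr`). -/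
theorem C2_exact {W M r R s₁ k₁ s₃ k₃ : ℤ} {ω : Cfg} (hW : W % 2 = 1) (hW0 : 5 ≤ W)
    (hr : r = M * W + W / 2) (hR : 8 * r ≤ R) (h : L.E1i r W M R s₁ k₁ s₃ k₃ ω) :
    L.Exact (Di r R (B2 W M s₁ k₁ s₃ k₃))
      (L.Cx true (Di r R (B2 W M s₁ k₁ s₃ k₃)) (Si false R (B2 W M s₁ k₁ s₃ k₃)) ω) := by
  have hW0' : 0 < W := by linarith
  obtain ⟨⟨hk₁, hk₃⟩, -, -, s₂, y₂, s₄, y₄, e₂, e₄, -, -, -, i1, i2, i3, i4, -⟩ := h
  have hr99 := is8_r hW0' hr hk₁
  have hr0 : 0 ≤ r := by linarith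
  have hM₁ := is8_kM hW0' hr hk₁
  have hM₃ := is8_kM hW0' hr hk₃
  have hC : rng (2 * R + 1) ⊆
      L.Cx true (Di r R (B2 W M s₁ k₁ s₃ k₃)) (Si false R (B2 W M s₁ k₁ s₃ k₃)) ω :=
    fun v hv => Cx_sup (Or.inl (rng_sub_Outc (by linarith) hv))
  have e0 := exact_ann (L := L) hr0 (by linarith : r < 2 * R + 1) hC
  have hring : rng (r + 1) ⊆ ann r (2 * R + 1) := by
    intro v hv
    have hv' : nrm v = r + 1 := hv
    exact ⟨by linarith, by linarith⟩
  have nbr : ∀ s k : ℤ, CellI W (r + 1) k → |k| < M → ∀ v ∈ ib W M s k,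
      ∀ u ∈ ann r (2 * R + 1), L.Adj u v → u ∈ rng (r + 1) := by
    intro s k hkc hk v hv u hu hadj
    have hub : u ∉ bx r := fun h => absurd hu.1 (not_lt.2 h)
    have h2 : u.1 - v.1 ≤ 1 ∧ u.2 - v.2 ≤ 1 ∧ v.1 - u.1 ≤ 1 ∧ v.2 - u.2 ≤ 1 := by
      obtain ⟨h1, h2⟩ := Adj.near hadj
      rw [abs_le] at h1 h2
      exact ⟨by linarith, by linarith, by linarith, by linarith⟩
    have h3 := (ib_nrm hW hW0' hr hk hv).2
    show nrm u = r + 1
    have h4 : nrm u ≤ nrm v + 1 := (nrm_adj4 hadj).1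
    have h5 := hu.1
    omega
  have e1 := exact_ib hW hW0' hr hM₁ e0 hring (nbr s₁ k₁ hk₁ hM₁)
    (fun v hv h => absurd h.1 (not_lt.2 (ib_nrm hW hW0' hr hM₁ hv).2))
  have hfar : ∀ u ∈ ib W M s₁ k₁, ∀ v ∈ ib W M s₃ k₃, 2 ≤ nrm (u - v) := by
    intro u hu v hv
    have h4 : 4 * W ≤ 100 * W := by linarith
    have hWd : W / 2 ≤ W := by omega
    have hWd0 : 0 ≤ W / 2 := by omega
    refine ib_far hW (by linarith) hW hW0' (le_refl _) hr hr ?_ ?_ ?_ ?_ hu hv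
    · have := hk₁.2
      linarith
    · have := hk₃.2
      linarith
    · have e1 : (k₁ + 1) * W = k₁ * W + W := by ring
      have e2 : (k₃ - 1) * W = k₃ * W - W := by ring
      rw [e1] at i1
      rw [e2] at i2
      linarith
    · have e1 : (k₃ + 1) * W = k₃ * W + W := by ring
      have e2 : (k₁ - 1) * W = k₁ * W - W := by ring
      rw [e1] at i3
      rw [e2] at i4
      linarith
  have n3 : ∀ v ∈ ib W M s₃ k₃, ∀ u ∈ ann r (2 * R + 1) ∪ ib W M s₁ k₁,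
      L.Adj u v → u ∈ rng (r + 1) := by
    rintro v hv u (hu | hu) hadj
    · exact nbr s₃ k₃ hk₃ hM₃ v hv u hu hadj
    · exfalso
      have h1 := hfar u hu v hv
      obtain ⟨h2, h3⟩ := Adj.near hadj
      have h4 : nrm (u - v) ≤ 1 := max_le h2 h3
      linarith
  have d3 : ∀ v ∈ ib W M s₃ k₃, v ∉ ann r (2 * R + 1) ∪ ib W M s₁ k₁ := by
    rintro v hv (h | h)
    · exact absurd h.1 (not_lt.2 (ib_nrm hW hW0' hr hM₃ hv).2)
    · have h1 := hfar v h v hv
      rw [sub_self] at h1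
      have h2 : nrm (0 : Pt) = 0 := by
        show max |(0 : ℤ)| |(0 : ℤ)| = 0
        simp
      rw [h2] at h1
      exact absurd h1 (by norm_num)
  have e2 := exact_ib hW hW0' hr hM₃ e1 (hring.trans Set.subset_union_left) n3 d3
  rw [Set.union_assoc] at e2
  exact e2

/-- a site of the explored set in `bx r`: any site of a block -/
theorem C2_inner {W M r R s₁ k₁ s₃ k₃ : ℤ} {ω : Cfg} (hW : W % 2 = 1) (hW0 : 5 ≤ W)
    (hr : r = M * W + W / 2) (hk₁ : CellI W (r + 1) k₁) (hk₃ : CellI W (r + 1) k₃) :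
    ∃ v ∈ L.Cx true (Di r R (B2 W M s₁ k₁ s₃ k₃)) (Si false R (B2 W M s₁ k₁ s₃ k₃)) ω,
      v ∈ bx r ∪ L.nb (bx r) := by
  have hW0' : 0 < W := by linarith
  have hM₁ := is8_kM hW0' hr hk₁
  have hv : (((rt s₁ (M, k₁)).1 * W, (rt s₁ (M, k₁)).2 * W) : Pt) ∈ ib W M s₁ k₁ := by
    have hWd0 : 0 ≤ W / 2 := by omega
    refine ⟨⟨?_, ?_⟩, ?_, ?_⟩
    · show (rt s₁ (M, k₁)).1 * W - W / 2 ≤ (rt s₁ (M, k₁)).1 * W
      linarith
    · show (rt s₁ (M, k₁)).1 * W ≤ (rt s₁ (M, k₁)).1 * W + W / 2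
      linarith
    · show (rt s₁ (M, k₁)).2 * W - W / 2 ≤ (rt s₁ (M, k₁)).2 * W
      linarith
    · show (rt s₁ (M, k₁)).2 * W ≤ (rt s₁ (M, k₁)).2 * W + W / 2
      linarith
  exact ⟨_, Cx_sup (Or.inr (Or.inl hv)), Or.inl (ib_nrm hW hW0' hr hM₁ hv).2⟩

/-- THE FINE CELL of a closed arm.  `2 (r+1) s + y` is the index of its first site; it is outside the triples of the two
coarse blocks: `g1`-`g4` say that it is between the triples of `(a, k₁)` and `(a + 4, k₁)`, and between those of `(b, k₃)` and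
`(b + 4, k₃)`, where `a`, `b` are `s₁`, `s₃` up to multiples of 4.
Proof.  `v` = last site of the arm, in `Je e R`; it is closed and not in the source, so not explored; `V` = its component;
the first site is in `V` (`comp_path`, `Di_diff`).  `good_pos'` with `o = true`, `c = false`, `m = r + 1`, `D = Di`, `E = ann r R ∪ Jc false R`,
`β = B w`: `|y| + 4 B w ≤ m` because `4 B w ≤ W`; the far site is `v` (norm `2R`).  `hC`: for an explored ring site `attached`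
(`c = false`) gives an open path to a site `u` next to the source; if `u` is next to `Outc false R` its norm is `≥ R`
(`nb_Outc_nrm`); otherwise `u` is next to a block, `ib_nbr` and `ring_far` give distance `≥ W - 1 ≥ 3 B w` from `rc (r+1) (2 (r+1) s + y)`. -/
theorem fine_cell {W M w μ B r R s₁ k₁ s₃ k₃ a b s y e : ℤ} {ω : Cfg} (hw : w % 2 = 1)
    (hw5 : 5 ≤ w) (hB : 48 ≤ B) (hμ : μ = 4 * B + 1) (hW : W = μ * w) (hr : r = M * W + W / 2)
    (hR : 8 * r ≤ R) (hk₁ : CellI W (r + 1) k₁) (hk₃ : CellI W (r + 1) k₃)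
    (hy : |y| + 100 * W ≤ r + 1) (he : e = 1 ∨ e = 3) (ha : a % 4 = s₁ % 4)
    (hb : b % 4 = s₃ % 4)
    (g1 : 2 * (r + 1) * a + ((k₁ + 1) * W + W / 2) < 2 * (r + 1) * s + y)
    (g2 : 2 * (r + 1) * s + y < 2 * (r + 1) * (a + 4) + ((k₁ - 1) * W - W / 2))
    (g3 : 2 * (r + 1) * b + ((k₃ + 1) * W + W / 2) < 2 * (r + 1) * s + y)
    (g4 : 2 * (r + 1) * s + y < 2 * (r + 1) * (b + 4) + ((k₃ - 1) * W - W / 2))
    {ℓ : ℤ} (hbad : ¬ L.BadW true ∅ (r + 1) 1 ℓ (B * w) (12 * w) ω)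
    (h : L.Arm false (ann r R ∪ Jc false R) {rc (r + 1) (2 * (r + 1) * s + y)} (Je e R) ω) :
    ∃ v ∈ Je e R, ∃ V, L.Comp (Di r R (B2 W M s₁ k₁ s₃ k₃) \
        L.Cx true (Di r R (B2 W M s₁ k₁ s₃ k₃)) (Si false R (B2 W M s₁ k₁ s₃ k₃)) ω) V ∧ v ∈ V ∧
      ∃ k, k ≠ 0 ∧ |y - k * w| ≤ 5 * w ∧ trip w (r + 1) s k ⊆ V := by
  have hB0 : 0 < B := by linarith
  have hBw : 48 * w ≤ B * w := by nlinarith
  have hBw0 : 240 ≤ B * w := by nlinarith
  have hWe : W = 4 * (B * w) + w := by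
    rw [hW, hμ]
    ring
  have hW2 : W % 2 = 1 := by omega
  have hW0 : 5 ≤ W := by linarith
  have hW0' : 0 < W := by linarith
  have hM₁ := is8_kM hW0' hr hk₁
  have hM₃ := is8_kM hW0' hr hk₃
  have hr99 := is8_r hW0' hr hk₁
  have hr0 : 0 ≤ r := by linarith
  have hR1 : 1 ≤ R := by linarith
  have hrR : r + 1 ≤ R := by linarith
  have hBs : B2 W M s₁ k₁ s₃ k₃ ⊆ bx r := B2_sub hW2 hW0' hr hk₁ hk₃
  obtain ⟨x, hx, v, hv, hxv⟩ := h
  have hx' : x = rc (r + 1) (2 * (r + 1) * s + y) := hx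
  subst hx'
  have hnx : nrm (rc (r + 1) (2 * (r + 1) * s + y)) = r + 1 := rc_nrm (by linarith)
  have hnv : nrm v = 2 * R := Je_nrm hR1 hv
  have hvJ : v ∈ Jc false R := by
    refine Je_sub_Jc (c := false) (d := e) hR1 ?_ hv
    rcases he with h | h
    · exact Or.inl (by rw [h]; rfl)
    · exact Or.inr (by rw [h]; rfl)
  have hdiff : Di r R (B2 W M s₁ k₁ s₃ k₃) \ Si false R (B2 W M s₁ k₁ s₃ k₃) =
      ann r R ∪ Jc false R := Di_diff (by linarith) (by linarith) hBs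
  have hvDS : v ∈ Di r R (B2 W M s₁ k₁ s₃ k₃) \ Si false R (B2 W M s₁ k₁ s₃ k₃) := by
    rw [hdiff]
    exact Or.inr hvJ
  have hvC : v ∉ L.Cx true (Di r R (B2 W M s₁ k₁ s₃ k₃))
      (Si false R (B2 W M s₁ k₁ s₃ k₃)) ω := by
    intro h
    have h1 := (Cx_col h hvDS.2).2
    have h2 : v ∈ L.col false ω := hxv.right.2
    have h3 : L.st ω v = true := h1
    have h4 : L.st ω v = false := h2
    rw [h3] at h4
    exact absurd h4 (by decide)
  have hvm : v ∈ Di r R (B2 W M s₁ k₁ s₃ k₃) \ L.Cx true (Di r R (B2 W M s₁ k₁ s₃ k₃))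
      (Si false R (B2 W M s₁ k₁ s₃ k₃)) ω := ⟨hvDS.1, hvC⟩
  have hV := comp_cluster (L := L) hvm
  have hvV : v ∈ {z | L.Cn (Di r R (B2 W M s₁ k₁ s₃ k₃) \
      L.Cx true (Di r R (B2 W M s₁ k₁ s₃ k₃)) (Si false R (B2 W M s₁ k₁ s₃ k₃)) ω) v z} :=
    Cn.refl hvm
  refine ⟨v, hv, _, hV, hvV, ?_⟩
  have hxV := comp_path (c := false) (S := Si false R (B2 W M s₁ k₁ s₃ k₃))
    (M := Di r R (B2 W M s₁ k₁ s₃ k₃)) (x := rc (r + 1) (2 * (r + 1) * s + y)) hV
    (by rw [hdiff]; exact hxv) hvV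
  obtain ⟨k, hk0, hk1, hk2, hk3⟩ := good_pos' (L := L) (o := true) (c := false) (m := r + 1)
    (w := w) (ρ := 1) (ℓ := ℓ) (β := B * w) (s := s) (y := y)
    (D := Di r R (B2 W M s₁ k₁ s₃ k₃)) (D' := ∅) (E := ann r R ∪ Jc false R)
    (v := v) hw (by linarith) (by linarith) hBw (by linarith) (by linarith) hbad
    (by
      rintro z (hz | hz)
      · show r + 1 ≤ nrm z
        have := hz.1
        linarith
      · show r + 1 ≤ nrm z
        have h1 := (Jc_sub_ann (by linarith : (0 : ℤ) ≤ R) hz).1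
        linarith)
    (by
      intro z hz
      have hz' : nrm z = r + 1 := hz
      exact Or.inl ⟨by linarith, by linarith⟩)
    hV hxV hxv
    (by
      have h1 := nrm_le_add v (rc (r + 1) (2 * (r + 1) * s + y))
      rw [hnx, hnv] at h1
      linarith)
    (by
      intro i _ hiC
      have hni : nrm (rc (r + 1) i) = r + 1 := rc_nrm (by linarith)
      obtain ⟨u, hu, hiu⟩ := attached (c := false) hr0 hrR hBs hni hiC
      refine ⟨u, hiu, ?_⟩
      have hur : u ∉ bx r := by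
        intro hb
        have hb' : nrm u ≤ r := hb
        rcases hiu.right.1 with h1 | h1
        · have := h1.1
          linarith
        · have := (Jc_sub_ann (by linarith : (0 : ℤ) ≤ R) h1).1
          linarith
      have hcase : ∀ (s' k' a' : ℤ), CellI W (r + 1) k' → |k'| < M → a' % 4 = s' % 4 →
          2 * (r + 1) * a' + ((k' + 1) * W + W / 2) < 2 * (r + 1) * s + y →
          2 * (r + 1) * s + y < 2 * (r + 1) * (a' + 4) + ((k' - 1) * W - W / 2) →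
          ∀ b' ∈ ib W M s' k', L.Adj b' u →
            3 * (B * w) ≤ nrm (u - rc (r + 1) (2 * (r + 1) * s + y)) := by
        intro s' k' a' hkc hkM hmod q1 q2 b' hb' hadj
        obtain ⟨y', h1, h2, h3⟩ := ib_nbr hW2 hW0' hr hkM hb' hur (Adj.symm hadj)
        have h4 := ring_far (w := W) (r := r) (s := a') (k := k') (s₂ := s) (y₂ := y) (y' := y')
          hW2 (by linarith) (by have := hkc.2; linarith) (by linarith) q1 q2
          (by rw [abs_le]; constructor <;> linarith)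
        rw [h3, ← rt_mod hmod]
        linarith
      obtain ⟨z, hz, hzu⟩ := hu
      rcases hz with hz | hz | hz
      · have h1 : R ≤ nrm u := nb_Outc_nrm (c := false) ⟨z, hz, hzu⟩
        have h2 := nrm_le_add u (rc (r + 1) (2 * (r + 1) * s + y))
        rw [hnx] at h2
        linarith
      · exact hcase s₁ k₁ a hk₁ hM₁ ha g1 g2 z hz hzu
      · exact hcase s₃ k₃ b hk₃ hM₃ hb g3 g4 z hz hzu)
  refine ⟨k, hk0, ?_, hk3⟩
  have hwd : 0 ≤ w / 2 := by omega
  have e1 : (k - 1) * w = k * w - w := by ring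
  have e2 : (k + 1) * w = k * w + w := by ring
  rw [e1] at hk1
  rw [e2] at hk2
  rw [abs_le]
  constructor <;> linarith

end Lat

end SC
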