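import Pool.Agent.Lib_MP_e0a489.IS12

/-!
# MP_e0a489, module IS: separation of arms inward (interface and final derivation)
-/

set_option autoImplicit false

namespace SC

open Classical

private theorem is9_ann_finite (r R : ℤ) : (ann r R).Finite := by
  refine (Set.finite_Icc ((-R, -R) : Pt) (R, R)).subset ?_
  rintro v ⟨-, hv⟩
  have h1 : |v.1| ≤ R := le_trans (le_max_left _ _) hv
  have h2 : |v.2| ≤ R := le_trans (le_max_right _ _) hv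
  rw [abs_le] at h1 h2
  exact ⟨⟨h1.1, h2.1⟩, ⟨h1.2, h2.2⟩⟩

/-- INNER SEPARATION.  For every `ε` there are `μ`, `Mc` and a finite set of admissible landing positions such
that, for every odd `w ≥ w₀` and `r = (μ Mc + μ/2) w + w/2`, `8 r ≤ R`, conditionally on the
configuration off `G = {r - μ w < nrm v ≤ 2 r}`. -/
theorem inner_land_pf (κ : ℕ → ℝ) (ε : ℝ) (hε : 0 < ε) : ∃ (μ Mc w₀ : ℤ) (C : ℝ)
    (Λ : Finset (Bool × (Fin 4 → ℤ) × (Fin 4 → ℤ) × (Fin 4 → ℤ))), μ % 2 = 1 ∧ 0 < μ ∧ 0 < Mc ∧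
    0 < w₀ ∧ 0 < C ∧
    (∀ q ∈ Λ, Land μ (μ * Mc + μ / 2) q.1 q.2.1 q.2.2.1 ∧ Dirs q.1 q.2.2.2) ∧
    ∀ L : Lat, RSW L κ → ∀ w R : ℤ, w % 2 = 1 → w₀ ≤ w →
      8 * ((μ * Mc + μ / 2) * w + w / 2) ≤ R → ∀ G : Finset Pt,
      (∀ v, v ∈ G ↔ (μ * Mc + μ / 2) * w + w / 2 - μ * w < nrm v ∧
        nrm v ≤ 2 * ((μ * Mc + μ / 2) * w + w / 2)) → ∀ ω : Cfg,
      cpr G (L.Sout ((μ * Mc + μ / 2) * w + w / 2) R) ω ≤
        ε * ind (L.Sout (2 * ((μ * Mc + μ / 2) * w + w / 2)) R) ω +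
          C * ∑ q ∈ Λ, cpr G (L.E2i w μ Mc R q.1 q.2.1 q.2.2.1 q.2.2.2) ω := by
  by_cases hκ : ∀ k, 0 < κ k
  swap
  · refine ⟨1, 1, 1, 1, ∅, by norm_num, by norm_num, by norm_num, by norm_num, by norm_num,
      by simp, ?_⟩
    intro L hL
    exact absurd hL.pos hκ
  obtain ⟨K, B₁, hK, hB₁, hbad1⟩ := bad_small1 κ (ε / 2) (by positivity)
  obtain ⟨Mc, hMcdef⟩ : ∃ Mc : ℤ, Mc = 2 * K * B₁ := ⟨_, rfl⟩
  have hMc1 : 384 ≤ Mc := by nlinarith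
  obtain ⟨p₁, hp₁def⟩ : ∃ p : ℝ, p = κ (4 * (Mc.toNat + 3)) ^ 4 * κ 3 ^ 2 := ⟨_, rfl⟩
  have hp₁ : 0 < p₁ := by
    rw [hp₁def]
    exact mul_pos (pow_pos (hκ _) _) (pow_pos (hκ _) _)
  obtain ⟨N₁, hN₁⟩ : ∃ n : ℝ, n = ((Lat.cellsI Mc).card : ℝ) := ⟨_, rfl⟩
  have hN₁0 : 0 ≤ N₁ := by rw [hN₁]; positivity
  have hδ : 0 < ε / 2 * p₁ / (N₁ + 1) := by positivity
  obtain ⟨ℓ, B₂, hℓ, hB₂, hbad2⟩ := bad_small2 κ _ hδ Mc (by linarith)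
  obtain ⟨μ, hμ⟩ : ∃ μ : ℤ, μ = 4 * B₂ + 1 := ⟨_, rfl⟩
  obtain ⟨p₂, hp₂def⟩ : ∃ p : ℝ, p = κ (4 * ((μ * Mc + μ / 2).toNat + 3)) ^ 4 * κ 3 ^ 2 :=
    ⟨_, rfl⟩
  have hp₂ : 0 < p₂ := by
    rw [hp₂def]
    exact mul_pos (pow_pos (hκ _) _) (pow_pos (hκ _) _)
  refine ⟨μ, Mc, 5, p₁⁻¹ * (N₁ + 1) * p₂⁻¹, LamI μ Mc, by omega, by omega, by omega, by norm_num,
    by positivity, fun q hq => (mem_LamI (by omega) q).1 hq, ?_⟩
  intro L hL w R hw hw5 hR G hG ω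
  obtain ⟨r, hr⟩ : ∃ r, r = (μ * Mc + μ / 2) * w + w / 2 := ⟨_, rfl⟩
  rw [← hr] at hR hG ⊢
  have hμodd : μ % 2 = 1 := by omega
  have hμ1 : 193 ≤ μ := by omega
  -- the coarse scale
  obtain ⟨W, hW⟩ : ∃ W, W = μ * w := ⟨_, rfl⟩
  have hWodd : W % 2 = 1 := by
    rw [hW, Int.mul_emod, hμodd, hw]; norm_num
  have hW2 : W / 2 = (μ / 2) * w + w / 2 := by
    have h1 : μ = 2 * (μ / 2) + 1 := by omega
    have h2 : w = 2 * (w / 2) + 1 := by omega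
    have h3 : W = 2 * ((μ / 2) * w + w / 2) + 1 := by
      rw [hW]
      calc μ * w = (2 * (μ / 2) + 1) * w := by rw [← h1]
        _ = 2 * ((μ / 2) * w) + w := by ring
        _ = 2 * ((μ / 2) * w) + (2 * (w / 2) + 1) := by rw [← h2]
        _ = 2 * ((μ / 2) * w + w / 2) + 1 := by ring
    omega
  have hrW : r = Mc * W + W / 2 := by
    rw [hW2, hr, hW]; ring
  have hWw : 193 * w ≤ W := by rw [hW]; nlinarith
  have hW5 : 5 ≤ W := by linarith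
  have hMW : 384 * W ≤ Mc * W := by nlinarith
  have hr1 : 384 * W ≤ r := by rw [hrW]; omega
  rw [← hW] at hG
  have hGW : ∀ v, r - W < nrm v → nrm v ≤ r + W → v ∈ G := by
    intro v h1 h2
    exact (hG v).2 ⟨h1, by linarith⟩
  have hGw : ∀ v, r - w < nrm v → nrm v ≤ r + w → v ∈ G := by
    intro v h1 h2
    exact (hG v).2 ⟨by linarith, by linarith⟩
  have hAdep : Dep (L.Sout (2 * r) R) {v | 2 * r < nrm v} :=
    Lat.Sout.dep_ring L (by linarith) (by linarith)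
  have hF : ∀ v ∈ G, v ∉ {v : Pt | 2 * r < nrm v} := by
    intro v hv h
    have h1 := ((hG v).1 hv).2
    have h2 : 2 * r < nrm v := h
    linarith
  have hB₁W : 2 * (B₁ * W) + r + 1 ≤ 2 * r := by
    have h1 : 2 * B₁ ≤ Mc - 1 := by nlinarith
    have h2 : 2 * B₁ * W ≤ (Mc - 1) * W := mul_le_mul_of_nonneg_right h1 (by linarith)
    have h3 : (Mc - 1) * W = Mc * W - W := by ring
    have h4 : 0 ≤ W / 2 := by omega
    rw [hrW]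
    linarith
  have hB₂w : 2 * (B₂ * w) + r + 1 ≤ 2 * r := by
    have h1 : B₂ * w * 4 ≤ W := by rw [hW, hμ]; nlinarith
    linarith
  -- first step
  have s1 := one_step (G := G) (I := Lat.cellsI Mc) (E := L.Sout r R) (A := L.Sout (2 * r) R)
    (Bad := L.BadW true (ann r (2 * r)) (r + 1) (4 * B₁ * W) (K * B₁ * W) (B₁ * W) (12 * W))
    (E' := fun q => L.E1i r W Mc R q.1 q.2.1 q.2.2.1 q.2.2.2) (δ := ε / 2) hp₁
    (fun ω h => Lat.Sout_mono (by linarith) (by linarith) (by linarith) h) hAdep hF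
    (Lat.BadW.dep L (by nlinarith)
      (fun v hv => (hG v).2 ⟨by have := hv.1; linarith, hv.2⟩)
      (fun _ v h1 h2 => (hG v).2 ⟨by linarith, by linarith⟩)
      (fun h => absurd h (by decide)))
    (hbad1 L hL true (ann r (2 * r)) (r + 1) W (is9_ann_finite _ _) (by linarith)
      (by linarith) (by
        have h1 : (2 * K * B₁ + 1) * W = Mc * W + W := by rw [hMcdef]; ring
        have h2 : W / 2 + 1 ≤ W := by omega
        rw [h1, hrW]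
        linarith)) ω (by
      rw [hp₁def]
      exact prob1_in hL hWodd hW5 hK hB₁ hMcdef hrW hR hGW ω)
  -- second step
  have s2 : ∀ q ∈ Lat.cellsI Mc,
      cpr G (L.E1i r W Mc R q.1 q.2.1 q.2.2.1 q.2.2.2) ω ≤
        ε / 2 * p₁ / (N₁ + 1) * ind (L.Sout (2 * r) R) ω +
          p₂⁻¹ * ∑ q ∈ LamI μ Mc, cpr G (L.E2i w μ Mc R q.1 q.2.1 q.2.2.1 q.2.2.2) ω := by
    intro q _
    refine one_step (G := G) (I := LamI μ Mc) (E := L.E1i r W Mc R q.1 q.2.1 q.2.2.1 q.2.2.2)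
      (A := L.Sout (2 * r) R) (Bad := L.BadW true ∅ (r + 1) 1 ℓ (B₂ * w) (12 * w))
      (E' := fun q => L.E2i w μ Mc R q.1 q.2.1 q.2.2.1 q.2.2.2)
      (δ := ε / 2 * p₁ / (N₁ + 1)) hp₂
      (fun ω h => Lat.E1i_Sout hWodd hW5 hrW (by linarith) hR h) hAdep hF
      (Lat.BadW.dep L (by nlinarith) (Set.empty_subset _)
        (fun _ v h1 h2 => (hG v).2 ⟨by linarith, by linarith⟩)
        (fun h => absurd h (by decide)))
      (hbad2 L hL true (r + 1) w (by linarith) (by linarith) ?_) ω ?_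
    · have h1 : (Mc + 1) * (4 * B₂ + 1) * w = Mc * W + W := by rw [hW, hμ]; ring
      have h2 : W / 2 + 1 ≤ W := by omega
      rw [h1, hrW]
      linarith
    · rw [hp₂def, hW]
      exact prob2_in hL hw hw5 hB₂ hμ (by linarith) hr hR hGw ω
  have hs : ∑ q ∈ Lat.cellsI Mc, cpr G (L.E1i r W Mc R q.1 q.2.1 q.2.2.1 q.2.2.2) ω ≤
      N₁ * (ε / 2 * p₁ / (N₁ + 1) * ind (L.Sout (2 * r) R) ω +
          p₂⁻¹ * ∑ q ∈ LamI μ Mc, cpr G (L.E2i w μ Mc R q.1 q.2.1 q.2.2.1 q.2.2.2) ω) := by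
    refine le_trans (Finset.sum_le_sum s2) ?_
    rw [Finset.sum_const, nsmul_eq_mul, hN₁]
  obtain ⟨a, ha⟩ : ∃ a, a = ind (L.Sout (2 * r) R) ω := ⟨_, rfl⟩
  obtain ⟨T, hT⟩ : ∃ a, a = ∑ q ∈ LamI μ Mc,
    cpr G (L.E2i w μ Mc R q.1 q.2.1 q.2.2.1 q.2.2.2) ω := ⟨_, rfl⟩
  have ha0 : 0 ≤ a := by rw [ha]; unfold ind; split <;> norm_num
  have hT0 : 0 ≤ T := by
    rw [hT]
    exact Finset.sum_nonneg (fun q _ => cpr_nonneg _ _ _)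
  rw [← ha, ← hT] at hs ⊢
  rw [← ha] at s1
  have hp1i : 0 < p₁⁻¹ := inv_pos.2 hp₁
  have hp2i : 0 < p₂⁻¹ := inv_pos.2 hp₂
  have h5 : p₁⁻¹ * (N₁ * (ε / 2 * p₁ / (N₁ + 1) * a + p₂⁻¹ * T)) ≤
      ε / 2 * a + p₁⁻¹ * (N₁ + 1) * p₂⁻¹ * T := by
    have e1 : p₁⁻¹ * (N₁ * (ε / 2 * p₁ / (N₁ + 1) * a + p₂⁻¹ * T)) =
        (N₁ / (N₁ + 1)) * (ε / 2 * a) + p₁⁻¹ * N₁ * p₂⁻¹ * T := by
      field_simp
    rw [e1]
    have e2 : N₁ / (N₁ + 1) ≤ 1 := by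
      rw [div_le_one (by positivity)]; linarith
    have e3 : (N₁ / (N₁ + 1)) * (ε / 2 * a) ≤ 1 * (ε / 2 * a) :=
      mul_le_mul_of_nonneg_right e2 (by positivity)
    have e4 : p₁⁻¹ * N₁ * p₂⁻¹ * T ≤ p₁⁻¹ * (N₁ + 1) * p₂⁻¹ * T := by
      have : 0 ≤ p₁⁻¹ * p₂⁻¹ * T := by positivity
      nlinarith
    linarith
  calc cpr G (L.Sout r R) ω ≤ ε / 2 * a + p₁⁻¹ *
        ∑ q ∈ Lat.cellsI Mc, cpr G (L.E1i r W Mc R q.1 q.2.1 q.2.2.1 q.2.2.2) ω := s1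
    _ ≤ ε / 2 * a + (ε / 2 * a + p₁⁻¹ * (N₁ + 1) * p₂⁻¹ * T) := by
        have := mul_le_mul_of_nonneg_left hs hp1i.le
        linarith
    _ = ε * a + p₁⁻¹ * (N₁ + 1) * p₂⁻¹ * T := by ring

end SC
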