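import Pool.Agent.Lib_MP_e0a489.RC2

/-!
# MP_e0a489, outer separation 1: definitions and arithmetic of the two scales

Both scales, the coarse one (blocks of side `μ w`, number `Mc`) and the fine one (blocks of side `w`, number
`M = μ Mc + μ / 2`), satisfy `OPar`.  The outer blocks `ob w M s k` are outside `bx R`, next to the ring `R`.
-/

set_option autoImplicit false

namespace SC

open Classical

/-- the parameters of one scale: block size `w`, `R = M w + w / 2` -/
structure OPar (r R w M : ℤ) : Prop where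
  od : w % 2 = 1
  w5 : 5 ≤ w
  M2 : 384 ≤ M
  eR : R = M * w + w / 2
  r1 : 1 ≤ r
  r8 : 8 * r ≤ R

/-- first index of the triple of cells `k - 1, k, k + 1` of the side `s` of the ring `R` -/
def osi (R w s k : ℤ) : ℤ := 2 * R * s + (k - 1) * w - w / 2

/-- last index of the triple -/
def oei (R w s k : ℤ) : ℤ := 2 * R * s + (k + 1) * w + w / 2

theorem os_trip_eq (w R s k : ℤ) : trip w R s k = arc R (osi R w s k) (oei R w s k) := rfl

/-- two coarse positions: distance from the corners and from the middle of the sides, cyclic order of the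
triples -/
structure OPos (R w M s₁ k₁ s₃ k₃ : ℤ) : Prop where
  a₁ : |k₁| + 100 ≤ M
  a₃ : |k₃| + 100 ≤ M
  n₁ : k₁ ≠ 0
  n₃ : k₃ ≠ 0
  o₁ : oei R w s₁ k₁ < osi R w s₃ k₃
  o₃ : oei R w s₃ k₃ < osi R w s₁ k₁ + 8 * R

/-- a finite set of positions, independent of `w` -/
noncomputable def OPosF (M : ℤ) : Finset (ℤ × ℤ × ℤ × ℤ) :=
  Finset.Icc 0 3 ×ˢ Finset.Icc (-M) M ×ˢ Finset.Icc 0 8 ×ˢ Finset.Icc (-M) M

/-- the coarse positions -/
noncomputable def OTht (R w M : ℤ) : Finset (ℤ × ℤ × ℤ × ℤ) :=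
  (OPosF M).filter fun q => OPos R w M q.1 q.2.1 q.2.2.1 q.2.2.2

/-- the index `i` of the ring `R` is not in the triple of the cell `(s, k)` (modulo `8 R`) -/
def OFar (R w s k i : ℤ) : Prop :=
  ∃ t : ℤ, oei R w (s + 4 * t) k < i ∧ i < osi R w (s + 4 * t) k + 8 * R

/-- domain of the second exploration -/
def OD2 (R w M s₁ k₁ s₃ k₃ : ℤ) : Set Pt := bx R ∪ (ob w M s₁ k₁ ∪ ob w M s₃ k₃)

/-- source of the second exploration -/
def OS2 (r w M s₁ k₁ s₃ k₃ : ℤ) : Set Pt := bx r ∪ (ob w M s₁ k₁ ∪ ob w M s₃ k₃)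

namespace Lat

/-- `A` and `B` are disjoint and no site of `A` has a neighbour in `B` -/
def OApart (L : Lat) (A B : Set Pt) : Prop := ∀ u ∈ A, ∀ v ∈ B, u ≠ v ∧ ¬ L.Adj u v

/-- arm of colour `c` from `bx r` to the far side of the outer block `(s, k)` -/
def Oarm (L : Lat) (c : Bool) (r R w M s k : ℤ) (ω : Cfg) : Prop :=
  L.Arm c (ann r R ∪ ob w M s k) (L.nb (bx r)) (ob w M s k ∩ rng (R + w)) ω

/-- closed path in `ann r R` from `bx r` to a site of the ring `R` with index strictly between `a` and `b`, at distance at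
least `100 w` from the corners -/
def OMid (L : Lat) (r R w a b : ℤ) (ω : Cfg) : Prop :=
  ∃ s y, |y| + 100 * w ≤ R ∧ a < 2 * R * s + y ∧ 2 * R * s + y < b ∧
    L.Arm false (ann r R) (L.nb (bx r)) {rc R (2 * R * s + y)} ω

/-- result of step 1: two open arms to coarse blocks, closed paths to the ring on both sides between the
triples of the two blocks -/
def E1o (L : Lat) (r R w M s₁ k₁ s₃ k₃ : ℤ) (ω : Cfg) : Prop :=
  L.Oarm true r R w M s₁ k₁ ω ∧ L.Oarm true r R w M s₃ k₃ ω ∧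
    L.OMid r R w (oei R w s₁ k₁) (osi R w s₃ k₃) ω ∧
      L.OMid r R w (oei R w s₃ k₃) (osi R w s₁ k₁ + 8 * R) ω

end Lat

/-- the two descriptions of `R` (`μ = 2 a + 1`, `w = 2 b + 1`) -/
theorem os_two_scales {μ w Mc : ℤ} (hμ : μ % 2 = 1) (hw : w % 2 = 1) :
    (μ * Mc + μ / 2) * w + w / 2 = Mc * (μ * w) + μ * w / 2 := by
  obtain ⟨a, ha⟩ : ∃ a, μ = 2 * a + 1 := ⟨μ / 2, by omega⟩
  obtain ⟨b, hb⟩ : ∃ b, w = 2 * b + 1 := ⟨w / 2, by omega⟩
  subst ha hb
  have h1 : (2 * a + 1) / 2 = a := by omega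
  have h2 : (2 * b + 1) / 2 = b := by omega
  have h3 : (2 * a + 1) * (2 * b + 1) / 2 = 2 * a * b + a + b := by
    have : (2 * a + 1) * (2 * b + 1) = 2 * (2 * a * b + a + b) + 1 := by ring
    rw [this]
    omega
  rw [h1, h2, h3]
  ring

theorem os_odd_mul' {μ w : ℤ} (hμ : μ % 2 = 1) (hw : w % 2 = 1) : μ * w % 2 = 1 := by
  rw [Int.mul_emod, hμ, hw]
  norm_num

/-- `OPar` for the coarse scale gives `OPar` for the fine scale -/
theorem OPar.fine {r R w μ Mc : ℤ} (hμ : μ % 2 = 1) (hμ1 : 1 ≤ μ) (hw : w % 2 = 1) (hw5 : 5 ≤ w)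
    (h : OPar r R (μ * w) Mc) : OPar r R w (μ * Mc + μ / 2) where
  od := hw
  w5 := hw5
  M2 := by
    have h1 := h.M2
    have h2 : 0 ≤ μ / 2 := by omega
    nlinarith
  eR := by rw [os_two_scales hμ hw]; exact h.eR
  r1 := h.r1
  r8 := h.r8

namespace OPar

variable {r R w M : ℤ}

theorem w0 (h : OPar r R w M) : 0 < w := by have := h.w5; omega

/-- `R` is large -/
theorem Rw (h : OPar r R w M) : 384 * w ≤ R := by
  have h1 := h.M2
  have h2 := h.w5
  have h3 := h.eR
  have h4 : 0 ≤ w / 2 := by omega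
  nlinarith

end OPar

/-- the card of the set of positions is bounded independently of `w` -/
theorem card_OTht (R w M : ℤ) : (OTht R w M).card ≤ (OPosF M).card := Finset.card_filter_le _ _

theorem mem_OTht {R w M : ℤ} {q : ℤ × ℤ × ℤ × ℤ} (h : q ∈ OTht R w M) :
    OPos R w M q.1 q.2.1 q.2.2.1 q.2.2.2 := (Finset.mem_filter.1 h).2

end SC
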