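import Pool.Agent.Lib_MP_e0a489.IS2
import Pool.Agent.Lib_MP_e0a489.OS1

/-!
# MP_e0a489, outer separation 8: `E1o` implies the four arm event
-/

set_option autoImplicit false

namespace SC

open Classical

namespace Lat

variable {L : Lat}

private theorem os8_nb_nrm {r : ℤ} {x : Pt} (hx : x ∈ L.nb (bx r)) : nrm x ≤ r + 1 := by
  obtain ⟨u, hu, hux⟩ := hx
  have hu' : max |u.1| |u.2| ≤ r := hu
  have h1 := hux.near
  have a1 := le_trans (le_max_left _ _) hu'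
  have a2 := le_trans (le_max_right _ _) hu'
  show max |x.1| |x.2| ≤ r + 1
  rw [abs_le] at a1 a2
  obtain ⟨h2, h3⟩ := h1
  rw [abs_le] at h2 h3
  refine max_le (abs_le.2 ⟨by linarith, by linarith⟩) (abs_le.2 ⟨by linarith, by linarith⟩)

/-- The part of an open arm to an outer block inside `bx R`: it contains a site of the triple.
Proof.  The arm goes from `x` (norm `≤ r + 1 ≤ R`) to a site of norm `R + w`; first exit from `bx R` (`Cn.exit`): the exit site is in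
`ob w M s k`, the last site `p` in `bx R` is next to it, so `p ∈ trip w R s k` (`ob_adj`). -/
theorem Oarm.inner {r R w M s k : ℤ} {ω : Cfg} (h : OPar r R w M) (hk : |k| + 2 ≤ M)
    (hA : L.Oarm true r R w M s k ω) :
    ∃ x ∈ L.nb (bx r), ∃ i, osi R w s k ≤ i ∧ i ≤ oei R w s k ∧
      L.Cn (ann r R ∩ L.col true ω) x (rc R i) := by
  obtain ⟨x, hx, y, ⟨-, hyR⟩, hxy⟩ := hA
  have hxr := os8_nb_nrm hx
  have h8 := h.r8
  have h1 := h.r1
  have hw0 := h.w0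
  have hxR : x ∈ bx R := by
    show nrm x ≤ R
    linarith
  have hyR' : y ∉ bx R := by
    intro hy
    have h2 : nrm y ≤ R := hy
    have h3 : nrm y = R + w := hyR
    linarith
  obtain ⟨p, q, hxp, hpq, hqA, hqR⟩ := hxy.exit hxR hyR'
  have hq : q ∈ ob w M s k := by
    rcases hqA.1 with hq | hq
    · exact absurd hq.2 hqR
    · exact hq
  have hpR : p ∈ bx (M * w + w / 2) := by
    rw [← h.eR]
    exact hxp.right.2
  have hp := ob_adj h.od hw0 (by have := h.M2; linarith) (by linarith) hq hpR hpq.symm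
  rw [← h.eR, os_trip_eq] at hp
  obtain ⟨i, hi1, hi2, hi3⟩ := hp
  refine ⟨x, hx, i, hi1, hi2, ?_⟩
  rw [hi3]
  refine hxp.mono ?_
  rintro v ⟨⟨hv | hv, hvc⟩, hvR⟩
  · exact ⟨hv, hvc⟩
  · have h2 := (ob_nrm h.od hw0 h.eR (by linarith) hv).1
    have h3 : nrm v ≤ R := hvR
    exact absurd h3 (by linarith)

/-- `E1o` IMPLIES FOUR ARMS in every smaller annulus.
Proof.  `Oarm.inner` gives `x₁`, `j₁`, `x₃`, `j₃`.  `Cn.to_rng` cuts the arms at the ring `R'`: `y₁`, `y₃` with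
`Cn (ann r R' ∩ col true ω) x_i y_i`.  If `x₁`, `x₃` were joined in `ann r R' ∩ col true ω`, then `P = {v | Cn (ann r R ∩ col true ω) x₁ v}` is connected,
contained in `bx R`, contains `rc R j₁` and `rc R j₃`.  `P' = bx r ∪` closed path to `rc R i₂` `∪` closed path to `rc R i₄` (clusters in
`ann r R ∩ col false ω`) is connected and contained in `bx R`.  `j₁ < i₂ < j₃ < i₄ < j₁ + 8 R`, so by `interlace_rc` `P` and `P'` meet: a
common site is open and in `ann r R`, so it is not in `bx r` and not closed, contradiction. -/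
theorem E1o.two {r R w M s₁ k₁ s₃ k₃ R' : ℤ} {ω : Cfg} (h : OPar r R w M)
    (hP : OPos R w M s₁ k₁ s₃ k₃) (hE : L.E1o r R w M s₁ k₁ s₃ k₃ ω) (hR' : r < R')
    (hR'R : R' ≤ R) : L.TwoA true r R' ω := by
  obtain ⟨hA₁, hA₃, ⟨s₂, y₂, -, h2a, h2b, z₂, hz₂, v₂, hv₂, hc₂⟩,
    ⟨s₄, y₄, -, h4a, h4b, z₄, hz₄, v₄, hv₄, hc₄⟩⟩ := hE
  rw [Set.mem_singleton_iff] at hv₂ hv₄
  subst hv₂ hv₄
  obtain ⟨x₁, hx₁, j₁, a₁, b₁, c₁⟩ := Oarm.inner h (by have := hP.a₁; linarith) hA₁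
  obtain ⟨x₃, hx₃, j₃, a₃, b₃, c₃⟩ := Oarm.inner h (by have := hP.a₃; linarith) hA₃
  have hR1 : 1 ≤ R := by have := h.r8; have := h.r1; linarith
  have n₁ : nrm (rc R j₁) = R := rc_nrm hR1
  have n₃ : nrm (rc R j₃) = R := rc_nrm hR1
  have m₁ := os8_nb_nrm hx₁
  have m₃ := os8_nb_nrm hx₃
  obtain ⟨y₁, hy₁, d₁⟩ := c₁.to_rng (m := R') (by linarith) (by linarith)
  obtain ⟨y₃, hy₃, d₃⟩ := c₃.to_rng (m := R') (by linarith) (by linarith)
  have hsub : (ann r R ∩ L.col true ω) ∩ bx R' ⊆ ann r R' ∩ L.col true ω := by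
    rintro v ⟨⟨⟨hv1, -⟩, hvc⟩, hv2⟩
    exact ⟨⟨hv1, hv2⟩, hvc⟩
  refine ⟨x₁, hx₁, y₁, hy₁, x₃, hx₃, y₃, hy₃, d₁.mono hsub, d₃.mono hsub, ?_⟩
  intro hc
  have hc' : L.Cn (ann r R ∩ L.col true ω) x₁ x₃ := by
    refine hc.mono ?_
    rintro v ⟨⟨hv1, hv2⟩, hvc⟩
    exact ⟨⟨hv1, by linarith⟩, hvc⟩
  -- the open cluster
  have hPcon := con_cluster (L := L) (ann r R ∩ L.col true ω) x₁
  -- the closed set
  obtain ⟨u₂, hu₂, hu₂z⟩ := hz₂
  obtain ⟨u₄, hu₄, hu₄z⟩ := hz₄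
  have hQ2 := Con.union_adj (con_bx (L := L) r)
    (con_cluster (L := L) (ann r R ∩ L.col false ω) z₂) hu₂ (Cn.refl hc₂.left) hu₂z
  have hQ4 := Con.union_adj hQ2 (con_cluster (L := L) (ann r R ∩ L.col false ω) z₄)
    (Or.inl hu₄) (Cn.refl hc₄.left) hu₄z
  have hrR : r ≤ R := by linarith
  obtain ⟨v, hvP, hvQ⟩ := interlace_rc (L := L) hR1 hPcon hQ4
    (fun v hv => (Cn.right hv).1.2)
    (by
      rintro v ((hv | hv) | hv)
      · exact le_trans hv hrR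
      · exact (Cn.right hv).1.2
      · exact (Cn.right hv).1.2)
    (i1 := j₁) (i2 := 2 * R * s₂ + y₂) (i3 := j₃) (i4 := 2 * R * s₄ + y₄)
    (by linarith) (by linarith) (by linarith) (by linarith) c₁ (hc'.trans c₃)
    (Or.inl (Or.inr hc₂)) (Or.inr hc₄)
  have hv := Cn.right hvP
  have hno : ∀ u : Pt, L.Cn (ann r R ∩ L.col false ω) u v → False := by
    intro u hu
    have h1 : L.st ω v = false := (Cn.right hu).2
    have h2 : L.st ω v = true := hv.2
    rw [h1] at h2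
    exact absurd h2 (by decide)
  rcases hvQ with (hvQ | hvQ) | hvQ
  · have h1 : nrm v ≤ r := hvQ
    have h2 : r < nrm v := hv.1.1
    linarith
  · exact hno _ hvQ
  · exact hno _ hvQ

end Lat

end SC
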