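import Pool.Agent.Lib_MP_e0a489.OS14
import Pool.Agent.Lib_MP_e0a489.OS8
import Pool.Agent.Lib_MP_e0a489.SE4
import Pool.Agent.Lib_MP_e0a489.SE5

/-!
# MP_e0a489, module OS: separation of arms outward (interface and assembly)
-/

set_option autoImplicit false

namespace SC

open Classical

private theorem os9_ind_nonneg (A : Cfg → Prop) (ω : Cfg) : 0 ≤ ind A ω := by
  unfold ind
  split_ifs <;> norm_num

private theorem os9_ann_finite (r R : ℤ) : (ann r R).Finite := by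
  refine (Set.Finite.subset (Set.Finite.prod (Set.finite_Icc (-R) R) (Set.finite_Icc (-R) R)) ?_)
  rintro v ⟨-, hv⟩
  simp only [nrm, max_le_iff, abs_le] at hv
  exact ⟨⟨hv.1.1, hv.1.2⟩, hv.2.1, hv.2.2⟩

/-- the arithmetic of the assembly -/
private theorem os9_arith {x a b s d S ε ε₂ p₁ p₂ N n : ℝ} (hp₁ : 0 < p₁) (hp₂ : 0 < p₂)
    (hd : 0 ≤ d) (hS : 0 ≤ S) (hN : 0 ≤ N) (hn0 : 0 ≤ n) (hnN : n ≤ N) (hε : 0 < ε)
    (hε₂ : ε₂ = ε * p₁ / (2 * (N + 1))) (h1 : x ≤ a + b) (ha : a ≤ ε / 2 * d)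
    (hb : p₁ * b ≤ s) (hs : s ≤ n * (ε₂ * d + S / p₂)) :
    x ≤ ε * d + (N / (p₁ * p₂) + 1) * S := by
  have hε₂0 : 0 < ε₂ := by rw [hε₂]; positivity
  have h2 : s ≤ N * (ε₂ * d + S / p₂) := by
    refine hs.trans (mul_le_mul_of_nonneg_right hnN ?_)
    positivity
  have h3 : b ≤ N * (ε₂ * d + S / p₂) / p₁ := by
    rw [le_div_iff₀ hp₁]
    linarith
  have h4 : N * ε₂ / p₁ ≤ ε / 2 := by
    rw [hε₂]
    have : N * (ε * p₁ / (2 * (N + 1))) / p₁ = ε / 2 * (N / (N + 1)) := by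
      field_simp
    rw [this]
    have h5 : N / (N + 1) ≤ 1 := by
      rw [div_le_one (by linarith)]
      linarith
    nlinarith
  have h5 : N * (ε₂ * d + S / p₂) / p₁ = N * ε₂ / p₁ * d + N / (p₁ * p₂) * S := by
    field_simp
  rw [h5] at h3
  nlinarith

/-- OUTER SEPARATION.  For every `ε` there are `μ`, `Mc` and a finite set of admissible landing positions such
that, for every odd `w ≥ w₀` and `R = (μ Mc + μ/2) w + w/2`, `8 r ≤ R`, conditionally on the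
configuration off `G = {R/2 < nrm v ≤ R + μ w}`. -/
theorem outer_land_pf (κ : ℕ → ℝ) (ε : ℝ) (hε : 0 < ε) : ∃ (μ Mc w₀ : ℤ) (C : ℝ)
    (Λ : Finset (Bool × (Fin 4 → ℤ) × (Fin 4 → ℤ))), μ % 2 = 1 ∧ 0 < μ ∧ 0 < Mc ∧ 0 < w₀ ∧ 0 < C ∧
    (∀ q ∈ Λ, Land μ (μ * Mc + μ / 2) q.1 q.2.1 q.2.2) ∧
    ∀ L : Lat, RSW L κ → ∀ w r : ℤ, w % 2 = 1 → w₀ ≤ w → 1 ≤ r →
      8 * r ≤ (μ * Mc + μ / 2) * w + w / 2 → ∀ G : Finset Pt,
      (∀ v, v ∈ G ↔ ((μ * Mc + μ / 2) * w + w / 2) / 2 < nrm v ∧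
        nrm v ≤ (μ * Mc + μ / 2) * w + w / 2 + μ * w) → ∀ ω : Cfg,
      cpr G (L.TwoA true r ((μ * Mc + μ / 2) * w + w / 2)) ω ≤
        ε * ind (L.TwoA true r (((μ * Mc + μ / 2) * w + w / 2) / 2)) ω +
          C * ∑ q ∈ Λ, cpr G (L.E2o r w μ Mc q.1 q.2.1 q.2.2) ω := by
  by_cases hκ : ∀ k, 0 < κ k
  swap
  · refine ⟨1, 1, 1, 1, ∅, by norm_num, by norm_num, by norm_num, by norm_num, by norm_num,
      fun q hq => absurd hq (Finset.notMem_empty q), fun L hL => absurd hL.pos hκ⟩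
  obtain ⟨K, B₁, hK, hB₁, hbad1⟩ := bad_small1 κ (ε / 2) (by linarith)
  have hMc : 384 ≤ 2 * K * B₁ := by nlinarith
  set Mc : ℤ := 2 * K * B₁ with hMcdef
  set p₁ : ℝ := κ (4 * (Mc.toNat + 3)) ^ 4 * κ 3 ^ 2 with hp₁def
  have hp₁ : 0 < p₁ := by
    have h1 := hκ (4 * (Mc.toNat + 3))
    have h2 := hκ 3
    positivity
  set N : ℝ := ((OPosF Mc).card : ℝ) with hNdef
  have hN : 0 ≤ N := Nat.cast_nonneg _
  obtain ⟨ℓ, B, hℓ, hB, hbad2⟩ := bad_small2 κ (ε * p₁ / (2 * (N + 1))) (by positivity) Mc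
    (by omega)
  set μ : ℤ := 4 * B + 1 with hμdef
  have hμodd : μ % 2 = 1 := by omega
  have hμ0 : 0 < μ := by omega
  set p₂ : ℝ := κ (4 * ((μ * Mc + μ / 2).toNat + 3)) ^ 4 * κ 3 ^ 2 with hp₂def
  have hp₂ : 0 < p₂ := by
    have h1 := hκ (4 * ((μ * Mc + μ / 2).toNat + 3))
    have h2 := hκ 3
    positivity
  refine ⟨μ, Mc, 5, N / (p₁ * p₂) + 1, LamO μ Mc, hμodd, hμ0, by omega, by norm_num,
    by positivity, fun q hq => (mem_LamO hμ0 q).1 hq, ?_⟩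
  intro L hL w r hw hw5 hr h8 G hG ω
  set R : ℤ := (μ * Mc + μ / 2) * w + w / 2 with hRdef
  have hμw : 5 ≤ μ * w := by nlinarith
  have h' : OPar r R (μ * w) Mc :=
    { od := os_odd_mul' hμodd hw
      w5 := hμw
      M2 := hMc
      eR := os_two_scales hμodd hw
      r1 := hr
      r8 := h8 }
  have h : OPar r R w (μ * Mc + μ / 2) := h'.fine hμodd (by omega) hw hw5
  have hRw := h'.Rw
  have hwμ : w ≤ μ * w := by nlinarith
  have hGc : ∀ v, R - μ * w < nrm v → nrm v ≤ R + μ * w → v ∈ G := by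
    intro v h1 h2
    rw [hG]
    exact ⟨by omega, h2⟩
  have hGf : ∀ v, R - w < nrm v → nrm v ≤ R + w → v ∈ G := by
    intro v h1 h2
    rw [hG]
    exact ⟨by omega, by omega⟩
  have hRe : R = Mc * (μ * w) + μ * w / 2 := h'.eR
  -- the event `D`
  have hDdep : Dep (L.TwoA true r (R / 2)) (ann r (R / 2)) := Lat.TwoA.dep L true r (R / 2)
  have hDG : ∀ v ∈ ann r (R / 2), v ∉ G := by
    intro v hv hvG
    rw [hG] at hvG
    have := hv.2
    omega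
  have hr2 : r < R / 2 := by omega
  -- the coarse bad event
  have hβR : 8 * (B₁ * (μ * w)) ≤ R := by
    have h1 : 8 * B₁ ≤ Mc := by nlinarith
    have h2 : 0 ≤ μ * w / 2 := by omega
    nlinarith
  have hBw : 48 * (μ * w) ≤ B₁ * (μ * w) := by nlinarith
  have hlR : R / 2 + K * (B₁ * (μ * w)) < R := by
    have h1 : R = 2 * (K * (B₁ * (μ * w))) + μ * w / 2 := by
      rw [hRe, hMcdef]
      ring
    have h2 : 2 ≤ μ * w / 2 := by omega
    omega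
  set Bad₁ : Cfg → Prop :=
    L.BadW false (ann (R / 2) R) R (4 * (B₁ * (μ * w))) (K * (B₁ * (μ * w))) (B₁ * (μ * w))
      (12 * (μ * w)) with hBad₁
  have hB1dep : Dep Bad₁ (G : Set Pt) := by
    refine Lat.BadW.dep L (by omega) ?_ (fun h => by simp at h) ?_
    · intro v hv
      rw [Finset.mem_coe, hG]
      exact ⟨hv.1, by have := hv.2; omega⟩
    · intro _ v h1 h2
      rw [Finset.mem_coe, hG]
      exact ⟨by omega, by omega⟩
  have hB1pr : pr Bad₁ ≤ ε / 2 := by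
    have h1 := hbad1 L hL false (ann (R / 2) R) R (μ * w) (os9_ann_finite _ _) (by omega)
      (by omega) (by
        rw [hRe, hMcdef]
        have h2 : μ * w / 2 ≤ μ * w := by omega
        nlinarith)
    rw [hBad₁]
    have e1 : 4 * (B₁ * (μ * w)) = 4 * B₁ * (μ * w) := by ring
    have e2 : K * (B₁ * (μ * w)) = K * B₁ * (μ * w) := by ring
    rw [e1, e2]
    exact h1
  -- the fine bad event
  set Bad₂ : Cfg → Prop := L.BadW false ∅ R 1 ℓ (B * w) (12 * w) with hBad₂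
  have hBwR : 8 * (B * w) ≤ R := by nlinarith
  have hBw1 : 1 ≤ B * w := by nlinarith
  have hB2dep : Dep Bad₂ (G : Set Pt) := by
    refine Lat.BadW.dep L hBw1 (Set.empty_subset _) (fun h => by simp at h) ?_
    intro _ v h1 h2
    rw [Finset.mem_coe, hG]
    exact ⟨by omega, by omega⟩
  have hB2pr : pr Bad₂ ≤ ε * p₁ / (2 * (N + 1)) := by
    refine hbad2 L hL false R w (by omega) (by omega) ?_
    rw [hRe]
    have h2 : μ * w / 2 ≤ μ * w := by omega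
    have h3 : (Mc + 1) * (4 * B + 1) * w = Mc * (μ * w) + μ * w := by rw [hμdef]; ring
    rw [h3]
    omega
  -- the sums
  have hS0 : 0 ≤ ∑ q ∈ LamO μ Mc, cpr G (L.E2o r w μ Mc q.1 q.2.1 q.2.2) ω :=
    Finset.sum_nonneg fun q _ => cpr_nonneg _ _ _
  have hstep : ∀ q ∈ OTht R (μ * w) Mc,
      cpr G (L.E1o r R (μ * w) Mc q.1 q.2.1 q.2.2.1 q.2.2.2) ω ≤
        ε * p₁ / (2 * (N + 1)) * ind (L.TwoA true r (R / 2)) ω +
          (∑ q ∈ LamO μ Mc, cpr G (L.E2o r w μ Mc q.1 q.2.1 q.2.2) ω) / p₂ := by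
    intro q hq
    have hP := mem_OTht hq
    have h1 := os_cpr_split G (L.E1o r R (μ * w) Mc q.1 q.2.1 q.2.2.1 q.2.2.2) Bad₂ ω
    have h2 := os_cpr_bad (E := L.E1o r R (μ * w) Mc q.1 q.2.1 q.2.2.1 q.2.2.2) hDdep hDG hB2dep
      (fun ω' hE => Lat.E1o.two h' hP hE hr2 (by omega)) ω
    have h3 := os_ineq2 hL h h' hμdef hB hP hGf ω (ℓ := ℓ)
    have h4 : pr Bad₂ * ind (L.TwoA true r (R / 2)) ω ≤
        ε * p₁ / (2 * (N + 1)) * ind (L.TwoA true r (R / 2)) ω :=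
      mul_le_mul_of_nonneg_right hB2pr (os9_ind_nonneg _ _)
    have h5 : cpr G (fun ω => L.E1o r R (μ * w) Mc q.1 q.2.1 q.2.2.1 q.2.2.2 ω ∧ ¬ Bad₂ ω) ω ≤
        (∑ q ∈ LamO μ Mc, cpr G (L.E2o r w μ Mc q.1 q.2.1 q.2.2) ω) / p₂ := by
      rw [le_div_iff₀ hp₂, mul_comm]
      exact h3
    linarith
  have hsum := Finset.sum_le_sum hstep
  rw [Finset.sum_const, nsmul_eq_mul] at hsum
  refine os9_arith hp₁ hp₂ (os9_ind_nonneg _ _) hS0 hN (Nat.cast_nonneg _)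
    (Nat.cast_le.2 (card_OTht R (μ * w) Mc)) hε rfl
    (os_cpr_split G (L.TwoA true r R) Bad₁ ω) ?_
    (os_ineq1 hL h' hBw (by nlinarith) hlR hGc ω) hsum
  refine (os_cpr_bad hDdep hDG hB1dep (fun ω' hT => hT.mono (by omega) le_rfl hr2 (by omega)) ω).trans
    (mul_le_mul_of_nonneg_right hB1pr (os9_ind_nonneg _ _))

end SC
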