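import Pool.Agent.Lib_MP_e0a489.LD

/-!
# MP_e0a489, RO 15: landing blocks in fine coordinates
-/

set_option autoImplicit false

namespace SC

open Classical

/-- `lw = (2 h + 1) w` -/
theorem lw_eq {μ : ℤ} (w : ℤ) (hμ : μ % 2 = 1) (c₀ : Bool) (i : Fin 4) :
    lw w μ (colr c₀ i) = (2 * hwd μ c₀ i + 1) * w := by
  unfold lw hwd
  cases colr c₀ i with
  | true =>
    simp only [if_true]
    rw [show 2 * (μ / 2) + 1 = μ by omega]
  | false =>
    simp only [Bool.false_eq_true, if_false]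
    ring

private theorem ro15_half {w μ : ℤ} (hw : w % 2 = 1) (hμ : μ % 2 = 1) :
    (μ * w) / 2 = (μ / 2) * w + w / 2 := by
  have h1 : μ * w = 2 * ((μ / 2) * w + w / 2) + 1 := by
    have h2 : μ = 2 * (μ / 2) + 1 := by omega
    have h3 : w = 2 * (w / 2) + 1 := by omega
    calc μ * w = (2 * (μ / 2) + 1) * w := by rw [← h2]
      _ = 2 * ((μ / 2) * w) + w := by ring
      _ = 2 * ((μ / 2) * w) + (2 * (w / 2) + 1) := by rw [← h3]
      _ = 2 * ((μ / 2) * w + w / 2) + 1 := by ring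
  omega

private theorem ro15_odd {w μ : ℤ} (hw : w % 2 = 1) (hμ : μ % 2 = 1) : (μ * w) % 2 = 1 := by
  rw [Int.mul_emod, hw, hμ]
  rfl

/-- `ob_eq` for `μ w` (odd) or `w`.  Write `μ = 2 a + 1`, `w = 2 b + 1`: `(μ w) / 2 = a w + b`, `μ / 2 = a`, `w / 2 = b`, so
`Mc (μ w) + (μ w) / 2 = (μ Mc + a) w + b = M w + w/2`, `M w + w/2 + 1 = (M + 1) w - w/2`, `k (μ w) ± (μ w)/2 = (μ k ± a) w ± b`. -/
theorem lbo_eq {w μ Mc : ℤ} (hw : w % 2 = 1) (hw0 : 0 < w) (hμ : μ % 2 = 1) (hμ0 : 0 < μ)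
    (c₀ : Bool) (s : ℤ) (k : Fin 4 → ℤ) (i : Fin 4) :
    lbo w μ Mc (colr c₀ i) s (k i) = rt s ''
      rect ((μ * Mc + μ / 2 + 1) * w - w / 2) ((μ * Mc + μ / 2 + 2 * hwd μ c₀ i + 1) * w + w / 2)
        ((fpos μ c₀ k i - hwd μ c₀ i) * w - w / 2) ((fpos μ c₀ k i + hwd μ c₀ i) * w + w / 2) := by
  have hh := ro15_half hw hμ
  have h3 : w = 2 * (w / 2) + 1 := by omega
  have h2 : μ = 2 * (μ / 2) + 1 := by omega
  have h4 : μ * w = 2 * ((μ / 2) * w) + w := by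
    calc μ * w = (2 * (μ / 2) + 1) * w := by rw [← h2]
      _ = _ := by ring
  unfold lbo fpos hwd
  cases colr c₀ i with
  | true =>
    simp only [if_true]
    rw [ob_eq (ro15_odd hw hμ) (mul_pos hμ0 hw0), hh]
    congr 2
    · linear_combination -h3
    · linear_combination h4
    · ring
    · ring
  | false =>
    simp only [Bool.false_eq_true, if_false]
    rw [ob_eq hw hw0]
    congr 2
    · linear_combination -h3
    · ring
    · ring
    · ring

/-- `ib_eq` in the same way: `Mc (μ w) - (μ w) / 2 = (M - 2 a) w - w/2`. -/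
theorem lbi_eq {w μ Mc : ℤ} (hw : w % 2 = 1) (hw0 : 0 < w) (hμ : μ % 2 = 1) (hμ0 : 0 < μ)
    (c₀ : Bool) (s : ℤ) (k : Fin 4 → ℤ) (i : Fin 4) :
    lbi w μ Mc (colr c₀ i) s (k i) = rt s ''
      rect ((μ * Mc + μ / 2 - 2 * hwd μ c₀ i) * w - w / 2) ((μ * Mc + μ / 2) * w + w / 2)
        ((fpos μ c₀ k i - hwd μ c₀ i) * w - w / 2) ((fpos μ c₀ k i + hwd μ c₀ i) * w + w / 2) := by
  have hh := ro15_half hw hμ
  unfold lbi fpos hwd
  cases colr c₀ i with
  | true =>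
    simp only [if_true]
    rw [ib_eq (ro15_odd hw hμ) (mul_pos hμ0 hw0), hh]
    congr 2
    all_goals ring
  | false =>
    simp only [Bool.false_eq_true, if_false]
    rw [ib_eq hw hw0]
    congr 2
    all_goals ring

end SC
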