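import Pool.Agent.Lib_MP_e0a489.RO11

/-!
# MP_e0a489, RO 16: the outward paths: conditions, location
-/

set_option autoImplicit false

namespace SC

open Classical

/-- Arithmetic: `1 ≤ ρ ≤ 8` (`rki_bd`), `hwd_bd`, `tgt_bd`, `Land.side`, `Land.cor`, `M ≥ 2 μ + 20`, `2 (w/2) = w - 1`.
`b1 - a1 = 2 h w + 2 (w/2) = (2 h + 1) w - 1`.  `b4m`: `(M + μ + 8) w + w/2 ≤ R' ≤ 2 R'`.  Sizes, with `w ≤ 2 (w - 1)`:
`b2 - a2 ≤ (μ + 8) w`, `(2 m + 1) w ≤ (2 (M + μ + 8) + 1) w`, `b4 - a4 ≤ 2 R' ≤ 8 (M + 1) w ≤ 16 (M + 1) (w - 1)`. -/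
theorem outP_ok {w μ M R' : ℤ} (hw : w % 2 = 1) (hw5 : 5 ≤ w) (hμ : μ % 2 = 1) (hμ0 : 0 < μ)
    {c₀ : Bool} {s k : Fin 4 → ℤ} (hl : Land μ M c₀ s k) (h1 : M * w + w / 2 + (μ + 10) * w ≤ R')
    (h2 : R' ≤ 4 * (M * w + w / 2)) (i : Fin 4) :
    (outP w μ M R' c₀ s k i).Ok w (16 * (M + μ + 10)).toNat := by
  have hρ := rki_bd μ c₀ s k i
  have hh := hwd_bd hμ hμ0 c₀ i
  have hd := tgt_bd c₀ i
  have hs := hl.side i
  have hc := hl.cor i
  have hf0 := abs_nonneg (fpos μ c₀ k i)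
  have hw2 : 2 * (w / 2) = w - 1 := by omega
  have hM : 0 < M := by omega
  have hN : (((16 * (M + μ + 10)).toNat : ℕ) : ℤ) = 16 * (M + μ + 10) := Int.toNat_of_nonneg (by omega)
  obtain ⟨hρ1, hρ2⟩ := hρ
  obtain ⟨hh1, hh2⟩ := hh
  generalize hρe : rki μ c₀ s k i = ρ at *
  generalize hhe : hwd μ c₀ i = h at *
  have hww : 0 < w := by omega
  have e1 : ρ * w ≤ 8 * w := by nlinarith
  have e2 : w ≤ ρ * w := by nlinarith
  have e3 : (2 * h + 1) * w ≤ μ * w := by nlinarith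
  have e4 : 0 ≤ h * w := by positivity
  have e5 : w ≤ μ * w := by nlinarith
  have e6 : 0 ≤ M * w := by positivity
  have e7 : M * w ≤ 2 * (M * (w - 1)) := by nlinarith
  have e8 : μ * w ≤ 2 * (μ * (w - 1)) := by nlinarith
  refine ⟨hs.1, hs.2, hd.1, hd.2, ?_, ?_, ?_, ?_, ?_, ?_, ?_, ?_, ?_, ?_, ?_, ?_, ?_, ?_⟩
  · simpa only [outP, hhe] using hh1
  · simp only [outP, hρe]; omega
  · simp only [outP, hρe]; omega
  · simp only [outP, hhe]; linarith [hw2]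
  · simp only [outP]; exact le_refl _
  · simp only [outP, hhe, hρe]; linarith
  · simp only [outP, hρe]; linarith
  · simp only [outP, hρe]; exact le_refl _
  · simp only [outP, hρe]; exact le_refl _
  · simp only [outP, hρe]; linarith
  · omega
  · simp only [outP, hρe]; rw [hN]; linarith
  · simp only [outP, hρe]; rw [hN]; linarith
  · simp only [outP, hρe]; rw [hN]; linarith

private theorem out_loc {w μ M R' : ℤ} (hw : w % 2 = 1) (hw5 : 5 ≤ w) (hM : 0 < M)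
    (h1 : M * w + w / 2 + (μ + 10) * w ≤ R') {u x y : ℤ}
    (hx1 : (M + 1) * w - w / 2 ≤ x) (hx2 : x ≤ (M + μ + 8) * w + w / 2)
    (hy : |y| ≤ (M + μ + 8) * w + w / 2) :
    M * w + w / 2 < nrm (rt u (x, y)) ∧ nrm (rt u (x, y)) ≤ R' := by
  have hw2 : 2 * (w / 2) = w - 1 := by omega
  have e6 : 0 ≤ M * w := by positivity
  rw [nrm_rt]
  simp only [nrm]
  have hxp : |x| = x := abs_of_nonneg (by linarith)
  rw [hxp]
  constructor
  · apply lt_max_of_lt_left; linarith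
  · apply max_le <;> linarith

/-- LOCATION.  Landing block, strip, arc: `v = rt u (x, y)` with `(M + 1) w - w/2 ≤ x ≤ (M + μ + 8) w + w/2 ≤ R'` and
`|y| ≤ m w + w/2` (`≤ R'` as well), `(M + 1) w - w/2 = M w + w/2 + 1`; `nrm v = max |x| |y|` (`nrm_rt`).  Final strip: `|y| ≤ w/2`,
`m w - w/2 ≤ x ≤ 2 R'`, `nrm v = x`; if `x > R'` then `v ∈ J d R'` because `w/2 ≤ R'/4` (`11 w ≤ R'`). -/
theorem out_reg {w μ M R' : ℤ} (hw : w % 2 = 1) (hw5 : 5 ≤ w) (hμ : μ % 2 = 1) (hμ0 : 0 < μ)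
    {c₀ : Bool} {s k : Fin 4 → ℤ} (hl : Land μ M c₀ s k) (h1 : M * w + w / 2 + (μ + 10) * w ≤ R')
    (i : Fin 4) {v : Pt} (hv : v ∈ (outP w μ M R' c₀ s k i).reg w) :
    M * w + w / 2 < nrm v ∧ nrm v ≤ 2 * R' ∧ (nrm v ≤ R' ∨ v ∈ J (tgt c₀ i) R') := by
  have hρ := rki_bd μ c₀ s k i
  have hh := hwd_bd hμ hμ0 c₀ i
  have hc := hl.cor i
  have hf0 := abs_nonneg (fpos μ c₀ k i)
  have hf1 := neg_abs_le (fpos μ c₀ k i)
  have hf2 := le_abs_self (fpos μ c₀ k i)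
  have hw2 : 2 * (w / 2) = w - 1 := by omega
  have hM : 0 < M := by omega
  obtain ⟨hρ1, hρ2⟩ := hρ
  obtain ⟨hh1, hh2⟩ := hh
  simp only [Pth.reg, outP] at hv
  generalize hρe : rki μ c₀ s k i = ρ at *
  generalize hhe : hwd μ c₀ i = h at *
  generalize hfe : fpos μ c₀ k i = f at *
  have hww : 0 < w := by omega
  have e1 : ρ * w ≤ 8 * w := by nlinarith
  have e2 : w ≤ ρ * w := by nlinarith
  have e3 : (2 * h + 1) * w ≤ μ * w := by nlinarith
  have e4 : 0 ≤ h * w := by positivity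
  have e5 : w ≤ μ * w := by nlinarith
  have e6 : 0 ≤ M * w := by positivity
  have e7 : f * w ≤ (M - 2 * μ - 20) * w := by nlinarith
  have e8 : -((M - 2 * μ - 20) * w) ≤ f * w := by nlinarith
  have hR0 : 0 ≤ R' := by linarith
  have e9 : 11 * w ≤ R' := by linarith
  have key : ∀ u x y : ℤ, (M + 1) * w - w / 2 ≤ x → x ≤ (M + μ + 8) * w + w / 2 →
      |y| ≤ (M + μ + 8) * w + w / 2 →
      M * w + w / 2 < nrm (rt u (x, y)) ∧ nrm (rt u (x, y)) ≤ 2 * R' ∧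
        (nrm (rt u (x, y)) ≤ R' ∨ rt u (x, y) ∈ J (tgt c₀ i) R') := by
    intro u x y hx1 hx2 hy
    have := out_loc hw hw5 hM h1 hx1 hx2 hy (u := u)
    exact ⟨this.1, by linarith [this.2], Or.inl this.2⟩
  rcases hv with ((hv | hv) | hv) | hv
  · obtain ⟨⟨x, y⟩, ⟨⟨hx1, hx2⟩, hy1, hy2⟩, rfl⟩ := hv
    simp only at hx1 hx2 hy1 hy2
    refine key _ _ _ hx1 (by linarith) (abs_le.2 ⟨by linarith, by linarith⟩)
  · obtain ⟨⟨x, y⟩, ⟨⟨hx1, hx2⟩, hy1, hy2⟩, rfl⟩ := hv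
    simp only at hx1 hx2 hy1 hy2
    refine key _ _ _ hx1 (by linarith) (abs_le.2 ⟨by linarith, by linarith⟩)
  · obtain ⟨t, -, -, hv⟩ := hv
    obtain ⟨⟨x, y⟩, ⟨⟨hx1, hx2⟩, hy1, hy2⟩, rfl⟩ := hv
    simp only at hx1 hx2 hy1 hy2
    have hlo : ∀ b q : ℤ, (q = f ∨ q = 0) → -((M + μ + ρ) * w) ≤ sgl (M + μ + ρ) b q t * w := by
      intro b q hq
      simp only [sgl]
      split_ifs
      · rcases hq with rfl | rfl <;> linarith
      · linarith
    have hup : ∀ b q : ℤ, (q = f ∨ q = 0) → sgu (M + μ + ρ) b q t * w ≤ (M + μ + ρ) * w := by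
      intro b q hq
      simp only [sgu]
      split_ifs
      · rcases hq with rfl | rfl <;> linarith
      · linarith
    have hy3 : -((M + μ + ρ) * w) - w / 2 ≤ y := by
      refine le_trans ?_ hy1
      have := hlo (Pth.ls (outP w μ M R' c₀ s k i)) (Pth.lk (outP w μ M R' c₀ s k i)) (by
        simp only [Pth.lk, outP, hfe]; split_ifs <;> simp)
      simp only [outP, hρe, hhe, hfe] at this
      linarith
    have hy4 : y ≤ (M + μ + ρ) * w + w / 2 := by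
      refine le_trans hy2 ?_
      have := hup (Pth.us (outP w μ M R' c₀ s k i)) (Pth.uk (outP w μ M R' c₀ s k i)) (by
        simp only [Pth.uk, outP, hfe]; split_ifs <;> simp)
      simp only [outP, hρe, hhe, hfe] at this
      linarith
    refine key _ _ _ (by linarith) (by linarith) (abs_le.2 ⟨by linarith, by linarith⟩)
  · obtain ⟨⟨x, y⟩, ⟨⟨hx1, hx2⟩, hy1, hy2⟩, rfl⟩ := hv
    simp only at hx1 hx2 hy1 hy2
    by_cases hxR : x ≤ R'
    · have hxn : nrm (rt (tgt c₀ i) (x, y)) ≤ R' := by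
        rw [nrm_rt]; simp only [nrm]
        apply max_le
        · rw [abs_of_nonneg (by linarith)]; exact hxR
        · rw [abs_le]; constructor <;> linarith
      refine ⟨?_, by linarith, Or.inl hxn⟩
      rw [nrm_rt]; simp only [nrm]
      apply lt_max_of_lt_left
      rw [abs_of_nonneg (by linarith)]; linarith
    · push Not at hxR
      refine ⟨?_, ?_, Or.inr ?_⟩
      · rw [nrm_rt]; simp only [nrm]
        apply lt_max_of_lt_left
        rw [abs_of_nonneg (by linarith)]; linarith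
      · rw [nrm_rt]; simp only [nrm]
        apply max_le
        · rw [abs_of_nonneg (by linarith)]; exact hx2
        · rw [abs_le]; constructor <;> linarith
      · refine ⟨(x, y), ⟨⟨by show R' + 1 ≤ x; omega, hx2⟩, ?_, ?_⟩, rfl⟩
        · show -(R' / 4) ≤ y
          have : w / 2 ≤ R' / 4 := by clear e1 e2 e3 e4 e5 e6 e7 e8 hx1; omega
          linarith
        · show y ≤ R' / 4
          have : w / 2 ≤ R' / 4 := by clear e1 e2 e3 e4 e5 e6 e7 e8 hx1; omega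
          linarith

/-- the outer end of the final strip -/
theorem out_end {w R' d y : ℤ} (hw5 : 5 ≤ w) (hR : 11 * w ≤ R') (hy : |y| ≤ w / 2) :
    rt d (2 * R', y) ∈ Je d R' := by
  have h := abs_le.1 hy
  have : w / 2 ≤ R' / 4 := by omega
  exact ⟨(2 * R', y), ⟨⟨le_refl _, le_refl _⟩, by show -(R' / 4) ≤ y; linarith [h.1],
    by show y ≤ R' / 4; linarith [h.2]⟩, rfl⟩

end SC
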