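import Pool.Agent.Lib_MP_e0a489.ROD

/-!
# MP_e0a489, RO 18: the four targets are the four zones
-/

set_option autoImplicit false

namespace SC

open Classical

/-- `J`, `Je`, `K`, `Ks` depend only on the direction modulo 4 (`rt_mod`) -/
theorem J_mod {s s' : ℤ} (h : s % 4 = s' % 4) (R : ℤ) : J s R = J s' R ∧ Je s R = Je s' R := by
  unfold J Je
  rw [rt_mod h]
  exact ⟨rfl, rfl⟩

theorem K_mod {s s' : ℤ} (h : s % 4 = s' % 4) (r : ℤ) : K s r = K s' r ∧ Ks s r = Ks s' r := by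
  unfold K Ks
  rw [rt_mod h]
  exact ⟨rfl, rfl⟩

/-- modulo 4 the target of the arm `i` is one of the two directions of its colour (four values of `i`, two of `c₀`) -/
theorem tgt_col (c₀ : Bool) (i : Fin 4) : tgt c₀ i % 4 = dc (colr c₀ i) % 4 ∨
    tgt c₀ i % 4 = (dc (colr c₀ i) + 2) % 4 := by
  unfold tgt colr dc
  fin_cases i <;> cases c₀ <;> simp

theorem J_tgt (c₀ : Bool) (i : Fin 4) (R : ℤ) : J (tgt c₀ i) R ⊆ Jc (colr c₀ i) R := by
  unfold Jc
  rcases tgt_col c₀ i with h | h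
  · rw [(J_mod h R).1]
    exact Set.subset_union_left
  · rw [(J_mod h R).1]
    exact Set.subset_union_right

theorem K_tgt (c₀ : Bool) (i : Fin 4) (r : ℤ) : K (tgt c₀ i) r ⊆ Kc (colr c₀ i) r := by
  unfold Kc
  rcases tgt_col c₀ i with h | h
  · rw [(K_mod h r).1]
    exact Set.subset_union_left
  · rw [(K_mod h r).1]
    exact Set.subset_union_right

private theorem ro18_pick (c₀ c : Bool) : ∃ i j : Fin 4, colr c₀ i = c ∧ colr c₀ j = c ∧
    tgt c₀ i % 4 = dc c % 4 ∧ tgt c₀ j % 4 = (dc c + 2) % 4 ∧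
    ((i = 0 ∧ j = 2) ∨ (i = 2 ∧ j = 0) ∨ (i = 1 ∧ j = 3) ∨ (i = 3 ∧ j = 1)) := by
  cases c₀ <;> cases c
  · exact ⟨0, 2, by simp [colr], by simp [colr], by simp [tgt, dc], by simp [tgt, dc], by simp⟩
  · exact ⟨3, 1, by simp [colr], by simp [colr], by simp [tgt, dc], by simp [tgt, dc], by simp⟩
  · exact ⟨1, 3, by simp [colr], by simp [colr], by simp [tgt, dc], by simp [tgt, dc], by simp⟩
  · exact ⟨0, 2, by simp [colr], by simp [colr], by simp [tgt, dc], by simp [tgt, dc], by simp⟩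

/-- For the colour `c` and the direction `dc c` (or `dc c + 2`) there is an `i` with `colr c₀ i = c` and
`tgt c₀ i` congruent to it modulo 4 (cases on `c`, `c₀`): `c = c₀`: `i = 0`, `i = 2`; `c₀ = true`, `c = false`: `i = 1`, `i = 3`; `c₀ = false`,
`c = true`: `i = 3` (`tgt = 4`), `i = 1`. -/
theorem sout_of {L : Lat} {r R : ℤ} {c₀ : Bool} {ω : Cfg}
    (h : ∀ i, L.Arm (colr c₀ i) (ann r R ∪ Jc (colr c₀ i) R) (L.nb (bx r)) (Je (tgt c₀ i) R) ω) :
    L.Sout r R ω := by
  intro c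
  obtain ⟨i, j, hi, hj, hti, htj, -⟩ := ro18_pick c₀ c
  have h1 := h i
  have h2 := h j
  rw [hi, (J_mod hti R).2] at h1
  rw [hj, (J_mod htj R).2] at h2
  exact ⟨h1, h2⟩

/-- The arms `i` and `i + 2` (`i = 0` or `1`) have the same colour `c`; the inner directions `tgt` of the two arms are `dc c`,
`dc c + 2` modulo 4 in some order, the outer directions `d i`, `d (i + 2)` are `dc c`, `dc c + 2` in some order (`Dirs`: each is one of
the two, and they are different).  So one of the two pairings of `Pairs` holds. -/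
theorem s4_of {L : Lat} {r R : ℤ} {c₀ : Bool} {d : Fin 4 → ℤ} (hd : Dirs c₀ d) {ω : Cfg}
    (h : ∀ i, L.Arm (colr c₀ i) (ann r R ∪ Jc (colr c₀ i) R ∪ Kc (colr c₀ i) r)
      (Ks (tgt c₀ i) r) (Je (d i) R) ω) : L.S4 r R ω := by
  have key : ∀ c, L.Pairs c r R ω := by
    intro c
    obtain ⟨i, j, hi, hj, hti, htj, hij⟩ := ro18_pick c₀ c
    have h1 := h i
    have h2 := h j
    have hdi := hd.1 i
    have hdj := hd.1 j
    rw [hi, (K_mod hti r).2] at h1
    rw [hj, (K_mod htj r).2] at h2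
    rw [hi] at hdi
    rw [hj] at hdj
    have hne : d i ≠ d j := by
      rcases hij with ⟨rfl, rfl⟩ | ⟨rfl, rfl⟩ | ⟨rfl, rfl⟩ | ⟨rfl, rfl⟩
      · exact hd.2.1
      · exact hd.2.1.symm
      · exact hd.2.2
      · exact hd.2.2.symm
    rcases hdi with e1 | e1
    · rcases hdj with e2 | e2
      · exact absurd (e1.trans e2.symm) hne
      · rw [e1] at h1
        rw [e2] at h2
        exact Or.inl ⟨h1, h2⟩
    · rcases hdj with e2 | e2
      · rw [e1] at h1
        rw [e2] at h2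
        exact Or.inr ⟨h1, h2⟩
      · exact absurd (e1.trans e2.symm) hne
  exact ⟨key true, key false⟩

end SC
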