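import Pool.Agent.Lib_MP_e0a489.RO3

/-!
# MP_e0a489, RO 5: the path event, dependence, monotonicity, gluing
-/

set_option autoImplicit false

namespace SC

open Classical

private theorem ro5_rect_finite (a b p q : ℤ) : (rect a b p q).Finite := by
  refine ((Set.finite_Icc a b).prod (Set.finite_Icc p q)).subset ?_
  rintro v ⟨⟨h1, h2⟩, h3, h4⟩
  exact ⟨⟨h1, h2⟩, h3, h4⟩

private theorem ro5_bd (P : Pth) (hm : 1 ≤ P.m) (hf : |P.f| ≤ P.m) :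
    |P.lk| ≤ P.m ∧ |P.uk| ≤ P.m ∧ P.ls ≤ P.us := by
  unfold Pth.ls Pth.us Pth.lk Pth.uk
  by_cases h : rmv P.s P.f P.d
  · rw [if_pos h, if_pos h, if_pos h, if_pos h]
    unfold rmv at h
    exact ⟨hf, by simp; omega, by omega⟩
  · rw [if_neg h, if_neg h, if_neg h, if_neg h]
    unfold rmv at h
    exact ⟨by simp; omega, hf, by omega⟩

private theorem ro5_s (P : Pth) (hf : |P.f| ≤ P.m) :
    P.ls ≤ P.s ∧ P.s ≤ P.us ∧ sgl P.m P.ls P.lk P.s ≤ P.f ∧ P.f ≤ sgu P.m P.us P.uk P.s := by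
  rw [abs_le] at hf
  unfold Pth.ls Pth.us Pth.lk Pth.uk
  by_cases h : rmv P.s P.f P.d
  · rw [if_pos h, if_pos h, if_pos h, if_pos h]
    unfold rmv at h
    unfold sgl sgu
    refine ⟨le_rfl, by omega, ?_, ?_⟩
    · rw [if_pos rfl]
    · split_ifs <;> omega
  · rw [if_neg h, if_neg h, if_neg h, if_neg h]
    unfold rmv at h
    unfold sgl sgu
    refine ⟨by omega, le_rfl, ?_, ?_⟩
    · split_ifs <;> omega
    · rw [if_pos rfl]

private theorem ro5_d (P : Pth) (hm : 1 ≤ P.m) :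
    P.ls ≤ P.d ∧ P.d ≤ P.us ∧ sgl P.m P.ls P.lk P.d ≤ 0 ∧ 0 ≤ sgu P.m P.us P.uk P.d := by
  unfold Pth.ls Pth.us Pth.lk Pth.uk
  by_cases h : rmv P.s P.f P.d
  · rw [if_pos h, if_pos h, if_pos h, if_pos h]
    unfold rmv at h
    unfold sgl sgu
    refine ⟨by omega, le_rfl, ?_, ?_⟩
    · split_ifs <;> omega
    · rw [if_pos rfl]
  · rw [if_neg h, if_neg h, if_neg h, if_neg h]
    unfold rmv at h
    unfold sgl sgu
    refine ⟨le_rfl, by omega, ?_, ?_⟩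
    · rw [if_pos rfl]
    · split_ifs <;> omega

theorem Pth.reg_finite (P : Pth) (w : ℤ) : (P.reg w).Finite := by
  unfold Pth.reg
  exact ((((ro5_rect_finite _ _ _ _).image _).union ((ro5_rect_finite _ _ _ _).image _)).union
    (arcReg_finite _ _ _ _ _ _)).union ((ro5_rect_finite _ _ _ _).image _)

/-- order of the two ends of the arc -/
theorem Pth.arc_ord (P : Pth) : P.ls < P.us ∨ (P.ls = P.us ∧ P.lk ≤ P.uk) := by
  unfold Pth.ls Pth.us Pth.lk Pth.uk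
  by_cases h : rmv P.s P.f P.d
  · rw [if_pos h, if_pos h, if_pos h, if_pos h]
    unfold rmv at h
    omega
  · rw [if_neg h, if_neg h, if_neg h, if_neg h]
    unfold rmv at h
    omega

namespace Lat

/-- `RX.dep`, `PX.dep`, `ArcE.dep`, `Dep.mono` -/
theorem PathE.dep (L : Lat) (c : Bool) (w : ℤ) (P : Pth) : Dep (L.PathE c w P) (P.reg w) := by
  intro ω ω' h
  unfold Pth.reg at h
  show (_ ∧ _ ∧ _ ∧ _) = (_ ∧ _ ∧ _ ∧ _)
  rw [PX.dep L c P.s P.a1 P.b1 _ _ ω ω' (fun v hv => h v (Or.inl (Or.inl (Or.inl hv)))),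
    RX.dep L c P.s P.a2 P.b2 _ _ ω ω' (fun v hv => h v (Or.inl (Or.inl (Or.inr hv)))),
    ArcE.dep L c w P.m P.ls P.lk P.us P.uk ω ω' (fun v hv => h v (Or.inl (Or.inr hv))),
    RX.dep L c P.d P.a4 P.b4 _ _ ω ω' (fun v hv => h v (Or.inr hv))]

theorem PathE.loc (L : Lat) (c : Bool) (w : ℤ) (P : Pth) : Loc (L.PathE c w P) := by
  refine ⟨(P.reg_finite w).toFinset, ?_⟩
  rw [Set.Finite.coe_toFinset]
  exact PathE.dep L c w P

theorem PathE.mon (L : Lat) (c : Bool) (w : ℤ) (P : Pth) : MonC c (L.PathE c w P) := by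
  have h1 := PX.mon L c P.s P.a1 P.b1 ((P.f - P.h) * w - w / 2) ((P.f + P.h) * w + w / 2)
  have h2 := RX.mon L c P.s P.a2 P.b2 (P.f * w - w / 2) (P.f * w + w / 2)
  have h3 := ArcE.mon L c w P.m P.ls P.lk P.us P.uk
  have h4 := RX.mon L c P.d P.a4 P.b4 (-(w / 2)) (w / 2)
  unfold MonC at h1 h2 h3 h4 ⊢
  cases c
  · rw [if_neg (by simp)] at h1 h2 h3 h4 ⊢
    intro ω ω' hle h
    exact ⟨h1 ω ω' hle h.1, h2 ω ω' hle h.2.1, h3 ω ω' hle h.2.2.1, h4 ω ω' hle h.2.2.2⟩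
  · rw [if_pos rfl] at h1 h2 h3 h4 ⊢
    intro ω ω' hle h
    exact ⟨h1 ω ω' hle h.1, h2 ω ω' hle h.2.1, h3 ω ω' hle h.2.2.1, h4 ω ω' hle h.2.2.2⟩

/-- THE PATH IS CONNECTED.  Crossing sets `Q₁` (landing block, parallel), `Q₂` (first strip, radial), `T₃` (arc), `Q₄` (final
strip, radial).  `Q₂` meets `Q₁` (`Rad.meet`, `a2 ≤ a1`, `b1 ≤ b2`, `h ≥ 0`).  `Q₂` meets the crossing of `T₃` on the side `s`:
`ls ≤ s ≤ us`, and the segment on the side `s` contains the cell `f` (right mover: `sgl m s f s = f`, `sgu m d 0 s` is `0 > f` if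
`s = d` and `m` otherwise; left mover: `sgl m d 0 s` is `0 ≤ f` if `s = d` and `-m` otherwise, `sgu m s f s = f`).  In the same way
`Q₄` meets the crossing of `T₃` on the side `d`, its segment contains the cell `0`.  `T = Q₁ ∪ Q₂ ∪ T₃ ∪ Q₄`.  The last two sites are
the end sites of `Q₄ ⊆ rt d '' rect a4 b4 (-(w/2)) (w/2)` (`rt d` is injective). -/
theorem PathE.glue {L : Lat} {c : Bool} {w : ℤ} {N : ℕ} {P : Pth} {ω : Cfg} (hw : 0 < w)
    (hP : P.Ok w N) (h : L.PathE c w P ω) :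
    ∃ T, L.Con T ∧ T ⊆ L.col c ω ∧ T ⊆ P.reg w ∧
      (∃ Q, Q ⊆ T ∧ L.Par P.s P.a1 P.b1 ((P.f - P.h) * w - w / 2) ((P.f + P.h) * w + w / 2) Q) ∧
      (∃ y, |y| ≤ w / 2 ∧ rt P.d (P.a4, y) ∈ T) ∧ ∃ y, |y| ≤ w / 2 ∧ rt P.d (P.b4, y) ∈ T := by
  obtain ⟨hQ1, hQ2, hA, hQ4⟩ := h
  obtain ⟨Q1, c1, p1⟩ := PX.set hQ1
  obtain ⟨Q2, c2, r2⟩ := RX.set hQ2
  obtain ⟨Q4, c4, r4⟩ := RX.set hQ4
  have hm1 := hP.m1
  have hfm := hP.fm
  rw [abs_le] at hfm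
  obtain ⟨b1, b2, b3⟩ := ro5_bd P hP.m1 hP.fm
  obtain ⟨s1, s2, s3, s4⟩ := ro5_s P hP.fm
  obtain ⟨d1, d2, d3, d4⟩ := ro5_d P hP.m1
  obtain ⟨T3, hc3, k3, t3, hq3⟩ := ArcE.glue hw (by omega) b1 b2 b3 hA
  obtain ⟨Qs, qs1, qs2⟩ := hq3 P.s s1 s2
  obtain ⟨Qd, qd1, qd2⟩ := hq3 P.d d1 d2
  have hw2 : 0 ≤ w / 2 := by omega
  have m12 : (Q2 ∩ Q1).Nonempty := by
    refine Rad.meet r2 p1 hP.a21 hP.b12 ?_ ?_ ?_ (by omega)
    · have := mul_nonneg hP.h0 hw.le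
      nlinarith
    · have := mul_nonneg hP.h0 hw.le
      nlinarith
    · have h1 := hP.ab1
      have := mul_nonneg hP.h0 hw.le
      nlinarith
  have m23 : (Q2 ∩ Qs).Nonempty := by
    refine Rad.meet r2 qs2 hP.a2m hP.b2m ?_ ?_ (by omega) (by omega)
    · have := mul_le_mul_of_nonneg_right s3 hw.le
      linarith
    · have := mul_le_mul_of_nonneg_right s4 hw.le
      linarith
  have m43 : (Q4 ∩ Qd).Nonempty := by
    refine Rad.meet r4 qd2 hP.a4m hP.b4m ?_ ?_ (by omega) (by omega)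
    · have := mul_le_mul_of_nonneg_right d3 hw.le
      linarith
    · have := mul_le_mul_of_nonneg_right d4 hw.le
      linarith
  have u1 : L.Con (Q1 ∪ Q2) := by
    refine Con.union p1.1 r2.1 ?_
    rwa [Set.inter_comm] at m12
  have u2 : L.Con (Q1 ∪ Q2 ∪ T3) := by
    refine Con.union u1 hc3 ?_
    obtain ⟨z, z1, z2⟩ := m23
    exact ⟨z, Or.inr z1, qs1 z2⟩
  have u3 : L.Con (Q1 ∪ Q2 ∪ T3 ∪ Q4) := by
    refine Con.union u2 r4.1 ?_
    obtain ⟨z, z1, z2⟩ := m43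
    exact ⟨z, Or.inr (qd1 z2), z1⟩
  have hyb : ∀ x y : ℤ, rt P.d (x, y) ∈ Q4 → |y| ≤ w / 2 := by
    intro x y hxy
    obtain ⟨z, hz, hzz⟩ := r4.2.1 hxy
    have h1 := (rt P.d).injective hzz
    subst h1
    rw [abs_le]
    exact hz.2
  refine ⟨Q1 ∪ Q2 ∪ T3 ∪ Q4, u3, ?_, ?_, ?_, ?_, ?_⟩
  · exact Set.union_subset (Set.union_subset (Set.union_subset c1 c2) k3) c4
  · unfold Pth.reg
    exact Set.union_subset_union (Set.union_subset_union (Set.union_subset_union p1.2.1 r2.2.1) t3)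
      r4.2.1
  · exact ⟨Q1, fun x hx => Or.inl (Or.inl (Or.inl hx)), p1⟩
  · obtain ⟨y, hy⟩ := r4.2.2.1
    exact ⟨y, hyb _ _ hy, Or.inr hy⟩
  · obtain ⟨y, hy⟩ := r4.2.2.2
    exact ⟨y, hyb _ _ hy, Or.inr hy⟩

end Lat

end SC
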