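import Pool.Agent.Lib_MP_e0a489.RO14
import Pool.Agent.Lib_MP_e0a489.RO15
import Pool.Agent.Lib_MP_e0a489.RO16
import Pool.Agent.Lib_MP_e0a489.RO18
import Pool.Agent.Lib_MP_e0a489.RO5

/-!
# MP_e0a489, RO 19: gluing of an arm and its path, outward
-/

set_option autoImplicit false

namespace SC

open Classical

/-- Let `R = M w + w/2`, `M = μ Mc + μ / 2`.  `lbo_eq` and `lw_eq`: the landing block is `rt s '' rect (R + 1) (R + ℓ) p q`, `ℓ = (2h+1) w`,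
`p = (f - h) w - w/2`, `q = (f + h) w + w/2`, `-R < p`, `q < R` (`Land.cor`).  `ro_arm_out` gives `K` and a radial crossing set `Q ⊆ K` of the block
(`r < R` because `2 r ≤ R`, `1 ≤ r`), `PathE.glue` (with `outP_ok`) gives `T` and a parallel crossing set of the same
rectangle (`a1 = R + 1`, `b1 = R + ℓ`); they meet (`Rad.meet`), so `K ∪ T` is connected (`Con.union`).  `K ∪ T ⊆ ann r R' ∪ Jc c R'`: `K ⊆ ann r R ∪` block, `T ⊆ reg`,
the block is part of `reg`, `out_reg`, `J_tgt`.  It contains a site of `nb (bx r)` and the site `rt d (2 R', y)` of `T`, `|y| ≤ w/2`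
(`PathE.glue`), which is in `Je d R'` (`out_end`; `11 w ≤ R'` because `M ≥ 20`, `Land.cor`). -/
theorem glue_out {L : Lat} {w μ Mc r R' : ℤ} (hw : w % 2 = 1) (hw5 : 5 ≤ w) (hμ : μ % 2 = 1)
    (hμ0 : 0 < μ) {c₀ : Bool} {s k : Fin 4 → ℤ} (hl : Land μ (μ * Mc + μ / 2) c₀ s k)
    (hr : 1 ≤ r) (hrR : 2 * r ≤ (μ * Mc + μ / 2) * w + w / 2)
    (h1 : (μ * Mc + μ / 2) * w + w / 2 + (μ + 10) * w ≤ R')
    (h2 : R' ≤ 4 * ((μ * Mc + μ / 2) * w + w / 2)) (i : Fin 4) {ω : Cfg}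
    (hF : L.Arm (colr c₀ i)
      (ann r ((μ * Mc + μ / 2) * w + w / 2) ∪ lbo w μ Mc (colr c₀ i) (s i) (k i)) (L.nb (bx r))
      (lbo w μ Mc (colr c₀ i) (s i) (k i) ∩
        rng ((μ * Mc + μ / 2) * w + w / 2 + lw w μ (colr c₀ i))) ω)
    (hV : L.PathE (colr c₀ i) w (outP w μ (μ * Mc + μ / 2) R' c₀ s k i) ω) :
    L.Arm (colr c₀ i) (ann r R' ∪ Jc (colr c₀ i) R') (L.nb (bx r)) (Je (tgt c₀ i) R') ω := by
  rw [lbo_eq hw (by omega) hμ hμ0, lw_eq w hμ] at hF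
  obtain ⟨M, hM⟩ : ∃ M, M = μ * Mc + μ / 2 := ⟨_, rfl⟩
  rw [← hM] at hl hrR h1 h2 hF hV
  obtain ⟨h, hh⟩ : ∃ h, h = hwd μ c₀ i := ⟨_, rfl⟩
  obtain ⟨f, hf⟩ : ∃ f, f = fpos μ c₀ k i := ⟨_, rfl⟩
  rw [← hh, ← hf] at hF
  have hb := hwd_bd hμ hμ0 c₀ i
  rw [← hh] at hb
  have hcor := hl.cor i
  rw [← hf] at hcor
  have hw2 : w = 2 * (w / 2) + 1 := by omega
  have hw0 : 0 < w := by omega
  have ea : (M + 1) * w - w / 2 = M * w + w / 2 + 1 := by
    have e1 : (M + 1) * w = M * w + w := by ring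
    omega
  have eb : (M + 2 * h + 1) * w + w / 2 = M * w + w / 2 + (2 * h + 1) * w := by ring
  have hlw : 1 ≤ (2 * h + 1) * w := by
    have e2 : 1 * w ≤ (2 * h + 1) * w := mul_le_mul_of_nonneg_right (by omega) hw0.le
    omega
  have hp : -(M * w + w / 2) < (f - h) * w - w / 2 := by
    have e3 : (1 - M) * w ≤ (f - h) * w := by
      refine mul_le_mul_of_nonneg_right ?_ hw0.le
      have := neg_abs_le f
      omega
    have e4 : (1 - M) * w = w - M * w := by ring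
    omega
  have hq : (f + h) * w + w / 2 < M * w + w / 2 := by
    have e3 : (f + h) * w ≤ (M - 1) * w := by
      refine mul_le_mul_of_nonneg_right ?_ hw0.le
      have := le_abs_self f
      omega
    have e4 : (M - 1) * w = M * w - w := by ring
    omega
  have hblk : rt (s i) '' rect ((M + 1) * w - w / 2) ((M + 2 * h + 1) * w + w / 2)
      ((f - h) * w - w / 2) ((f + h) * w + w / 2) ⊆
      (outP w μ M R' c₀ s k i).reg w := by
    intro v hv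
    rw [hh, hf] at hv
    exact Or.inl (Or.inl (Or.inl hv))
  have hreg : ∀ v ∈ (outP w μ M R' c₀ s k i).reg w, v ∈ ann r R' ∪ Jc (colr c₀ i) R' := by
    intro v hv
    obtain ⟨g1, g2, g3⟩ := out_reg hw hw5 hμ hμ0 hl h1 i hv
    rcases g3 with g3 | g3
    · exact Or.inl ⟨by omega, g3⟩
    · exact Or.inr (J_tgt c₀ i R' g3)
  have hmw : 0 ≤ (μ + 10) * w := mul_nonneg (by omega) hw0.le
  rw [ea, eb] at hF
  obtain ⟨K, hK1, hK2, ⟨x, hxK, hx⟩, Q, hQK, hQ⟩ := Lat.ro_arm_out (by omega) hlw hp hq (by omega) hF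
  obtain ⟨T, hT1, hT2, hT3, ⟨Q', hQT, hQ'⟩, -, ⟨y, -, hy⟩⟩ := Lat.PathE.glue hw0
    (outP_ok hw hw5 hμ hμ0 hl h1 h2 i) hV
  have hQ'' : L.Par (s i) ((M + 1) * w - w / 2) ((M + 2 * h + 1) * w + w / 2)
      ((f - h) * w - w / 2) ((f + h) * w + w / 2) Q' := by
    rw [hh, hf]
    exact hQ'
  rw [← ea, ← eb] at hQ
  have hpq : (f - h) * w - w / 2 ≤ (f + h) * w + w / 2 := by
    have e3 : (f - h) * w ≤ (f + h) * w := mul_le_mul_of_nonneg_right (by omega) hw0.le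
    omega
  have hmeet : (K ∩ T).Nonempty := by
    obtain ⟨z, z1, z2⟩ := Lat.Rad.meet hQ hQ'' le_rfl le_rfl le_rfl le_rfl (by omega) hpq
    exact ⟨z, hQK z1, hQT z2⟩
  have hcon : L.Con (K ∪ T) := Lat.Con.union hK1 hT1 hmeet
  have hsub : K ∪ T ⊆ (ann r R' ∪ Jc (colr c₀ i) R') ∩ L.col (colr c₀ i) ω := by
    rintro v (hv | hv)
    · obtain ⟨g1, g2⟩ := hK2 hv
      refine ⟨?_, g2⟩
      rcases g1 with g1 | g1
      · exact Or.inl ⟨g1.1, by have := g1.2; omega⟩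
      · rw [← ea, ← eb] at g1
        exact hreg v (hblk g1)
    · exact ⟨hreg v (hT3 hv), hT2 hv⟩
  have hyT : rt (tgt c₀ i) (2 * R', y) ∈ T := hy
  have hyJ : rt (tgt c₀ i) (2 * R', y) ∈ Je (tgt c₀ i) R' := by
    obtain ⟨g1, g2, g3⟩ := out_reg hw hw5 hμ hμ0 hl h1 i (hT3 hyT)
    have g4 : 2 * R' ≤ nrm (rt (tgt c₀ i) (2 * R', y)) := by
      rw [nrm_rt]
      exact (le_abs_self (2 * R')).trans (le_max_left _ _)
    rcases g3 with g3 | ⟨z, hz, hz'⟩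
    · omega
    · have hz2 : z = (2 * R', y) := (rt (tgt c₀ i)).injective hz'
      rw [hz2] at hz
      exact ⟨(2 * R', y), ⟨⟨le_rfl, le_rfl⟩, hz.2⟩, rfl⟩
  exact ⟨x, hx, _, hyJ, (hcon x (Or.inl hxK) _ (Or.inr hyT)).mono hsub⟩

end SC
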