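import Pool.Agent.Lib_MP_e0a489.RO11

/-!
# MP_e0a489, RO 17: the inward paths: conditions, location
-/

set_option autoImplicit false

namespace SC

open Classical

private theorem ro17_mulw {X N w : ℤ} (hX : 0 ≤ X) (hw : 5 ≤ w) (hN : 2 * X ≤ N) :
    X * w ≤ N * (w - 1) := by
  have h1 : 0 ≤ X * (w - 2) := mul_nonneg hX (by omega)
  have h2 : 0 ≤ (N - 2 * X) * (w - 1) := mul_nonneg (by omega) (by omega)
  nlinarith

/-- Arithmetic as in `outP_ok`: `m = M + 1 - μ - ρ ≥ M - μ - 7 ≥ 1`, `|f| ≤ M - 2 μ - 20 ≤ m`;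
`a2 ≤ a1`: `M + 1 - μ - ρ ≤ M - 2 h` (`2 h + 1 ≤ μ`, `ρ ≥ 1`); `a4m`: `r' / 2 + 1 ≤ m w - w/2`, because
`r' ≤ (M - μ - 10) w + w/2`; `b4 - a4 ≤ (M + 1) w`. -/
theorem inP_ok {w μ M r' : ℤ} (hw : w % 2 = 1) (hw5 : 5 ≤ w) (hμ : μ % 2 = 1) (hμ0 : 0 < μ)
    {c₀ : Bool} {s k : Fin 4 → ℤ} (hl : Land μ M c₀ s k) (h1 : r' + (μ + 10) * w ≤ M * w + w / 2)
    (h2 : M * w + w / 2 ≤ 4 * r') (i : Fin 4) :
    (inP w μ M r' c₀ s k i).Ok w (16 * (M + μ + 10)).toNat := by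
  have hc := hl.cor i
  have hsd := hl.side i
  have hr := rki_bd μ c₀ s k i
  have hh := hwd_bd hμ hμ0 c₀ i
  have ht := tgt_bd c₀ i
  have hf0 := abs_nonneg (fpos μ c₀ k i)
  have hf1 := le_abs_self (fpos μ c₀ k i)
  set f := fpos μ c₀ k i with hf
  set h := hwd μ c₀ i with hhd
  set ρ := rki μ c₀ s k i with hρ
  have hM : 22 ≤ M := by omega
  have hMw : 22 * w ≤ M * w := mul_le_mul_of_nonneg_right hM (by omega)
  have e1 : (μ + 10) * w = μ * w + 10 * w := by ring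
  have hρw1 : 1 * w ≤ ρ * w := mul_le_mul_of_nonneg_right hr.1 (by omega)
  have hρw2 : ρ * w ≤ 8 * w := mul_le_mul_of_nonneg_right hr.2 (by omega)
  have hhw : (2 * h + 1) * w ≤ μ * w := mul_le_mul_of_nonneg_right hh.2 (by omega)
  have hhw0 : 0 ≤ h * w := mul_nonneg hh.1 (by omega)
  have e2 : (2 * h + 1) * w = 2 * (h * w) + w := by ring
  have e3 : (M + 1 - μ - ρ) * w = M * w + w - μ * w - ρ * w := by ring
  have e4 : (M - 2 * h) * w = M * w - 2 * (h * w) := by ring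
  have hN : (((16 * (M + μ + 10)).toNat : ℕ) : ℤ) = 16 * (M + μ + 10) :=
    Int.toNat_of_nonneg (by omega)
  have hq : w / 2 + w / 2 = w - 1 := by omega
  refine
    { s0 := hsd.1, s4 := hsd.2, d0 := ht.1, d4 := ht.2, h0 := hh.1, m1 := ?_, fm := ?_,
      ab1 := ?_, a21 := ?_, b12 := le_rfl, a2m := le_rfl, b2m := ?_, a4m := ?_, b4m := le_rfl,
      n1 := ?_, n2 := ?_, n3 := ?_, n4 := ?_ }
  · show 1 ≤ M + 1 - μ - ρ
    omega
  · show |f| ≤ M + 1 - μ - ρ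
    omega
  · show (M * w + w / 2) - ((M - 2 * h) * w - w / 2) = (2 * h + 1) * w - 1
    rw [e4, e2]
    omega
  · show (M + 1 - μ - ρ) * w - w / 2 ≤ (M - 2 * h) * w - w / 2
    rw [e3, e4]
    omega
  · show (M + 1 - μ - ρ) * w + w / 2 ≤ M * w + w / 2
    rw [e3]
    omega
  · show r' / 2 + 1 ≤ (M + 1 - μ - ρ) * w - w / 2
    rw [e3]
    rw [e1] at h1
    omega
  · have : (1 : ℤ) ≤ (((16 * (M + μ + 10)).toNat : ℕ) : ℤ) := by rw [hN]; omega
    exact_mod_cast this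
  · show (M * w + w / 2) - ((M + 1 - μ - ρ) * w - w / 2) ≤
      (((16 * (M + μ + 10)).toNat : ℕ) : ℤ) * (w - 1)
    rw [hN]
    have h5 := ro17_mulw (X := μ + ρ) (N := 16 * (M + μ + 10)) (w := w) (by omega) hw5 (by omega)
    have e5 : (μ + ρ) * w = μ * w + ρ * w := by ring
    rw [e5] at h5
    rw [e3]
    omega
  · show (2 * (M + 1 - μ - ρ) + 1) * w ≤ (((16 * (M + μ + 10)).toNat : ℕ) : ℤ) * (w - 1)
    rw [hN]
    exact ro17_mulw (by omega) hw5 (by omega)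
  · show ((M + 1 - μ - ρ) * w + w / 2) - (r' / 2 + 1) ≤
      (((16 * (M + μ + 10)).toNat : ℕ) : ℤ) * (w - 1)
    rw [hN]
    have h5 := ro17_mulw (X := M + 1) (N := 16 * (M + μ + 10)) (w := w) (by omega) hw5 (by omega)
    have e5 : (M + 1) * w = M * w + w := by ring
    rw [e5] at h5
    rw [e3]
    omega

/-- `4 w ≤ r'` -/
theorem in_rw {w μ M r' : ℤ} (hw5 : 5 ≤ w) (hμ0 : 0 < μ) {c₀ : Bool} {s k : Fin 4 → ℤ}
    (hl : Land μ M c₀ s k) (h2 : M * w + w / 2 ≤ 4 * r') : 4 * w ≤ r' := by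
  have hc := hl.cor 0
  have hf0 := abs_nonneg (fpos μ c₀ k 0)
  have hM : 22 ≤ M := by omega
  have hMw : 22 * w ≤ M * w := mul_le_mul_of_nonneg_right hM (by omega)
  omega

private theorem ro17_nrm {u x y : ℤ} : nrm (rt u (x, y)) = max |x| |y| := by
  rw [nrm_rt]
  rfl

/-- LOCATION.  Landing block, strip, arc: `v = rt u (x, y)` with `(M - μ - 7) w - w/2 ≤ x ≤ M w + w/2`, `|y| ≤ M w + w/2`, and
`(M - μ - 7) w - w/2 > (M - μ - 10) w + w/2 ≥ r'`.  Final strip: `r'/2 + 1 ≤ x ≤ m w + w/2`, `|y| ≤ w/2 ≤ r'/8` (`4 r' ≥ M w ≥ 22 w`, so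
`8 (w/2) ≤ 4 w ≤ r'`), `nrm v = x`; if `x ≤ r'` then `v ∈ K d r'`. -/
theorem in_reg {w μ M r' : ℤ} (hw : w % 2 = 1) (hw5 : 5 ≤ w) (hμ : μ % 2 = 1) (hμ0 : 0 < μ)
    {c₀ : Bool} {s k : Fin 4 → ℤ} (hl : Land μ M c₀ s k) (h1 : r' + (μ + 10) * w ≤ M * w + w / 2)
    (h2 : M * w + w / 2 ≤ 4 * r') (i : Fin 4) {v : Pt}
    (hv : v ∈ (inP w μ M r' c₀ s k i).reg w) :
    r' / 2 < nrm v ∧ nrm v ≤ M * w + w / 2 ∧ (r' < nrm v ∨ v ∈ K (tgt c₀ i) r') := by
  have h4 := in_rw hw5 hμ0 hl h2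
  have hc := hl.cor i
  have hr := rki_bd μ c₀ s k i
  have hh := hwd_bd hμ hμ0 c₀ i
  have hf0 := abs_nonneg (fpos μ c₀ k i)
  unfold Pth.reg at hv
  have hls : (inP w μ M r' c₀ s k i).lk = fpos μ c₀ k i ∨ (inP w μ M r' c₀ s k i).lk = 0 := by
    unfold Pth.lk
    split_ifs
    · exact Or.inl rfl
    · exact Or.inr rfl
  have hus : (inP w μ M r' c₀ s k i).uk = fpos μ c₀ k i ∨ (inP w μ M r' c₀ s k i).uk = 0 := by
    unfold Pth.uk
    split_ifs
    · exact Or.inr rfl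
    · exact Or.inl rfl
  have em : (inP w μ M r' c₀ s k i).m = M + 1 - μ - rki μ c₀ s k i := rfl
  rw [em] at hv
  simp only [inP] at hv
  set f := fpos μ c₀ k i with hf
  set h := hwd μ c₀ i with hhd
  set ρ := rki μ c₀ s k i with hρ
  have hf1 := le_abs_self f
  have hf2 := neg_abs_le f
  have hM : 22 ≤ M := by omega
  have hMw : 22 * w ≤ M * w := mul_le_mul_of_nonneg_right hM (by omega)
  have e1 : (μ + 10) * w = μ * w + 10 * w := by ring
  rw [e1] at h1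
  have hρw1 : 1 * w ≤ ρ * w := mul_le_mul_of_nonneg_right hr.1 (by omega)
  have hρw2 : ρ * w ≤ 8 * w := mul_le_mul_of_nonneg_right hr.2 (by omega)
  have hhw : (2 * h + 1) * w ≤ μ * w := mul_le_mul_of_nonneg_right hh.2 (by omega)
  have hhw0 : 0 ≤ h * w := mul_nonneg hh.1 (by omega)
  have hμw : 1 * w ≤ μ * w := mul_le_mul_of_nonneg_right (by omega) (by omega)
  have e2 : (2 * h + 1) * w = 2 * (h * w) + w := by ring
  rw [e2] at hhw
  have e3 : (M + 1 - μ - ρ) * w = M * w + w - μ * w - ρ * w := by ring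
  have e4 : (M - 2 * h) * w = M * w - 2 * (h * w) := by ring
  have hcw : (|f| + 2 * μ + 20) * w ≤ M * w := mul_le_mul_of_nonneg_right hc (by omega)
  have e5 : (|f| + 2 * μ + 20) * w = |f| * w + 2 * (μ * w) + 20 * w := by ring
  rw [e5] at hcw
  have hfw1 : f * w ≤ |f| * w := mul_le_mul_of_nonneg_right hf1 (by omega)
  have hfw2 : (-|f|) * w ≤ f * w := mul_le_mul_of_nonneg_right hf2 (by omega)
  have hfw0 : 0 ≤ |f| * w := mul_nonneg hf0 (by omega)
  have e6 : (-|f|) * w = -(|f| * w) := by ring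
  rw [e6] at hfw2
  -- the common conclusion
  have key : ∀ (u x y : ℤ), M * w - μ * w - 7 * w - w / 2 ≤ x → x ≤ M * w + w / 2 →
      -(M * w + w / 2) ≤ y → y ≤ M * w + w / 2 →
      r' / 2 < nrm (rt u (x, y)) ∧ nrm (rt u (x, y)) ≤ M * w + w / 2 ∧
        (r' < nrm (rt u (x, y)) ∨ rt u (x, y) ∈ K (tgt c₀ i) r') := by
    intro u x y hx1 hx2 hy1 hy2
    rw [ro17_nrm]
    have hx3 : r' < x := by omega
    have hx4 : |x| = x := abs_of_nonneg (by omega)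
    have hy3 : |y| ≤ M * w + w / 2 := abs_le.2 ⟨hy1, hy2⟩
    have h5 : x ≤ max |x| |y| := by rw [hx4]; exact le_max_left _ _
    refine ⟨by omega, max_le (by rw [hx4]; exact hx2) hy3, Or.inl (by omega)⟩
  rcases hv with ((hv | hv) | hv) | hv
  · obtain ⟨⟨x, y⟩, ⟨⟨hx1, hx2⟩, hy1, hy2⟩, rfl⟩ := hv
    simp only at hx1 hx2 hy1 hy2
    have e7 : (f - h) * w = f * w - h * w := by ring
    have e8 : (f + h) * w = f * w + h * w := by ring
    rw [e4] at hx1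
    rw [e7] at hy1
    rw [e8] at hy2
    exact key _ x y (by omega) (by omega) (by omega) (by omega)
  · obtain ⟨⟨x, y⟩, ⟨⟨hx1, hx2⟩, hy1, hy2⟩, rfl⟩ := hv
    simp only at hx1 hx2 hy1 hy2
    rw [e3] at hx1
    exact key _ x y (by omega) (by omega) (by omega) (by omega)
  · obtain ⟨t, ht1, ht2, ⟨x, y⟩, ⟨⟨hx1, hx2⟩, hy1, hy2⟩, rfl⟩ := hv
    simp only at hx1 hx2 hy1 hy2
    have e9 : ∀ z : ℤ, (z = f ∨ z = 0 ∨ z = M + 1 - μ - ρ ∨ z = -(M + 1 - μ - ρ)) →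
        -(M * w) ≤ z * w ∧ z * w ≤ M * w := by
      intro z hz
      rcases hz with rfl | rfl | rfl | rfl
      · constructor <;> omega
      · rw [zero_mul]; constructor <;> omega
      · rw [e3]; constructor <;> omega
      · have e10 : -(M + 1 - μ - ρ) * w = -(M * w + w - μ * w - ρ * w) := by ring
        rw [e10]; constructor <;> omega
    have hg1 := (e9 (sgl (M + 1 - μ - ρ) (inP w μ M r' c₀ s k i).ls
      (inP w μ M r' c₀ s k i).lk t) (by
        unfold sgl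
        split_ifs
        · rcases hls with h | h
          · exact Or.inl h
          · exact Or.inr (Or.inl h)
        · exact Or.inr (Or.inr (Or.inr rfl)))).1
    have hg2 := (e9 (sgu (M + 1 - μ - ρ) (inP w μ M r' c₀ s k i).us
      (inP w μ M r' c₀ s k i).uk t) (by
        unfold sgu
        split_ifs
        · rcases hus with h | h
          · exact Or.inl h
          · exact Or.inr (Or.inl h)
        · exact Or.inr (Or.inr (Or.inl rfl)))).2
    rw [e3] at hx1 hx2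
    refine key _ x y (by omega) (by omega) ?_ ?_
    · have hb : -(M * w + w / 2) ≤ sgl (M + 1 - μ - ρ) (inP w μ M r' c₀ s k i).ls
        (inP w μ M r' c₀ s k i).lk t * w - w / 2 := by omega
      exact le_trans hb hy1
    · have hb : sgu (M + 1 - μ - ρ) (inP w μ M r' c₀ s k i).us
        (inP w μ M r' c₀ s k i).uk t * w + w / 2 ≤ M * w + w / 2 := by omega
      exact le_trans hy2 hb
  · obtain ⟨⟨x, y⟩, ⟨⟨hx1, hx2⟩, hy1, hy2⟩, rfl⟩ := hv
    simp only at hx1 hx2 hy1 hy2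
    rw [e3] at hx2
    have hx4 : |x| = x := abs_of_nonneg (by omega)
    have hy3 : |y| ≤ x := abs_le.2 ⟨by omega, by omega⟩
    have hn : nrm (rt (tgt c₀ i) (x, y)) = x := by
      rw [ro17_nrm, hx4]
      exact max_eq_left hy3
    rw [hn]
    refine ⟨by omega, by omega, ?_⟩
    rcases lt_or_ge r' x with h5 | h5
    · exact Or.inl h5
    · refine Or.inr ⟨(x, y), ⟨⟨hx1, h5⟩, ?_, ?_⟩, rfl⟩
      · show -(r' / 8) ≤ y
        omega
      · show y ≤ r' / 8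
        omega

/-- the inner end of the final strip -/
theorem in_end {w r' d y : ℤ} (hw5 : 5 ≤ w) (hr : 4 * w ≤ r') (hy : |y| ≤ w / 2) :
    rt d (r' / 2 + 1, y) ∈ Ks d r' := by
  have h := abs_le.1 hy
  refine ⟨(r' / 2 + 1, y), ⟨⟨le_rfl, le_rfl⟩, ?_, ?_⟩, rfl⟩
  · show -(r' / 8) ≤ y
    omega
  · show y ≤ r' / 8
    omega

end SC
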