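import Pool.Agent.Lib_MP_e0a489.ROD
import Pool.Agent.Lib_MP_e0a489.TB3

/-!
# MP_e0a489, RO 2: crossing sets of rotated rectangles meet
-/

set_option autoImplicit false

namespace SC

open Classical

namespace Lat

variable {L : Lat}

private theorem RO2_img {s : ℤ} (Q : Set Pt) : rt s '' {v | rt s v ∈ Q} = Q := by
  ext v
  constructor
  · rintro ⟨u, hu, rfl⟩
    exact hu
  · intro hv
    refine ⟨(rt s).symm v, ?_, (rt s).apply_symm_apply v⟩
    show rt s ((rt s).symm v) ∈ Q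
    rw [(rt s).apply_symm_apply]
    exact hv

private theorem RO2_pre {s : ℤ} {Q R : Set Pt} (h : Q ⊆ rt s '' R) {v : Pt}
    (hv : rt s v ∈ Q) : v ∈ R := by
  obtain ⟨u, hu, he⟩ := h hv
  have h1 : u = v := (rt s).injective he
  rw [h1] at hu
  exact hu

/-- `crossX` in the lattice `L.rots s` for the preimages `{v | rt s v ∈ Q}`, `{v | rt s v ∈ Q'}`: they are connected
by `Tr.con` for `tr_rots L s` (the image of the preimage is the set itself, because `rt s` is bijective) and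
contained in `rect a b p q`, `rect a' b' p' q'`. -/
theorem Rad.meet {s a b p q a' b' p' q' : ℤ} {Q Q' : Set Pt} (h : L.Rad s a b p q Q)
    (h' : L.Par s a' b' p' q' Q') (ha : a ≤ a') (hb : b' ≤ b) (hp : p' ≤ p) (hq : q ≤ q')
    (hab : a' ≤ b') (hpq : p ≤ q) : (Q ∩ Q').Nonempty := by
  obtain ⟨hc, hr, ⟨y1, hy1⟩, ⟨y2, hy2⟩⟩ := h
  obtain ⟨hc', hr', ⟨x1, hx1⟩, ⟨x2, hx2⟩⟩ := h'
  have hC : (L.rots s).Con {v | rt s v ∈ Q} := by
    rw [(tr_rots L s).con, RO2_img]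
    exact hc
  have hC' : (L.rots s).Con {v | rt s v ∈ Q'} := by
    rw [(tr_rots L s).con, RO2_img]
    exact hc'
  have hR : {v | rt s v ∈ Q} ⊆ rect a b p q := fun v hv => RO2_pre hr hv
  have hR' : {v | rt s v ∈ Q'} ⊆ rect a' b' p' q' := fun v hv => RO2_pre hr' hv
  obtain ⟨w, hw, _⟩ := crossX hC hC' hR hR' ⟨(a, y1), hy1, rfl⟩ ⟨(b, y2), hy2, rfl⟩
    ⟨(x1, p'), hx1, rfl⟩ ⟨(x2, q'), hx2, rfl⟩ ha hb hp hq hab hpq
  exact ⟨rt s w, hw.1, hw.2⟩

/-- Change of the frame at a corner: `rt (s+1) (x, y) = rt s (-y, x)` (`rt_add`, `rt_one`).  The sites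
`rt (s+1) (x, p) = rt s (-p, x)` and `rt (s+1) (x, q) = rt s (-q, x)` are on the two radial sides. -/
theorem Par.rot {s a b p q : ℤ} {Q : Set Pt} (h : L.Par (s + 1) a b p q Q) :
    L.Rad s (-q) (-p) a b Q := by
  obtain ⟨hc, hr, ⟨x1, hx1⟩, ⟨x2, hx2⟩⟩ := h
  refine ⟨hc, fun v hv => ?_, ⟨x2, ?_⟩, ⟨x1, ?_⟩⟩
  · obtain ⟨u, hu, rfl⟩ := hr hv
    refine ⟨(-u.2, u.1), ?_, ?_⟩
    · obtain ⟨⟨h1, h2⟩, h3, h4⟩ := hu
      exact ⟨⟨neg_le_neg h4, neg_le_neg h3⟩, h1, h2⟩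
    · rw [rt_add, rt_one]
  · have h1 := hx2
    rw [rt_add, rt_one] at h1
    exact h1
  · have h1 := hx1
    rw [rt_add, rt_one] at h1
    exact h1

/-- A chain of connected sets, consecutive ones meet.  Induction on `b ≥ a` (`Int.le_induction`): the union up to
`b + 1` is the union up to `b` together with `Q (b + 1)`, `Con.union`. -/
theorem Con.chain {Q : ℤ → Set Pt} {a b : ℤ} (hab : a ≤ b)
    (hc : ∀ t, a ≤ t → t ≤ b → L.Con (Q t))
    (hi : ∀ t, a ≤ t → t < b → (Q t ∩ Q (t + 1)).Nonempty) :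
    L.Con {v | ∃ t, a ≤ t ∧ t ≤ b ∧ v ∈ Q t} := by
  have key : ∀ n : ℤ, a ≤ n → n ≤ b → L.Con {v | ∃ t, a ≤ t ∧ t ≤ n ∧ v ∈ Q t} := by
    intro n hn
    induction n, hn using Int.leInduction with
    | base =>
      intro hb
      have e : {v | ∃ t, a ≤ t ∧ t ≤ a ∧ v ∈ Q t} = Q a := by
        ext v
        constructor
        · rintro ⟨t, h1, h2, h3⟩
          have h4 : t = a := le_antisymm h2 h1
          rw [h4] at h3
          exact h3
        · intro h3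
          exact ⟨a, le_refl a, le_refl a, h3⟩
      rw [e]
      exact hc a (le_refl a) hb
    | succ n hn ih =>
      intro hb
      have hnb : n ≤ b := by omega
      have e : {v | ∃ t, a ≤ t ∧ t ≤ n + 1 ∧ v ∈ Q t} =
          {v | ∃ t, a ≤ t ∧ t ≤ n ∧ v ∈ Q t} ∪ Q (n + 1) := by
        ext v
        constructor
        · rintro ⟨t, h1, h2, h3⟩
          rcases eq_or_ne t (n + 1) with h4 | h4
          · rw [h4] at h3
            exact Or.inr h3
          · exact Or.inl ⟨t, h1, by omega, h3⟩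
        · rintro (⟨t, h1, h2, h3⟩ | h3)
          · exact ⟨t, h1, by omega, h3⟩
          · exact ⟨n + 1, by omega, le_refl _, h3⟩
      rw [e]
      obtain ⟨z, hz1, hz2⟩ := hi n hn (by omega)
      exact Con.union (ih hnb) (hc (n + 1) (by omega) hb) ⟨z, ⟨n, hn, le_refl n, hz1⟩, hz2⟩
  exact key b hab (le_refl b)

end Lat

end SC
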