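import Pool.Agent.Lib_MP_e0a489.RO1
import Pool.Agent.Lib_MP_e0a489.RO2

/-!
# MP_e0a489, RO 3: arcs of a ring of cells
-/

set_option autoImplicit false

namespace SC

open Classical

private theorem ro3_rect_finite (a b p q : ℤ) : (rect a b p q).Finite := by
  refine Set.Finite.subset (Set.Finite.prod (Set.finite_Icc a b) (Set.finite_Icc p q)) ?_
  rintro v ⟨⟨h1, h2⟩, h3, h4⟩
  exact ⟨⟨h1, h2⟩, h3, h4⟩

theorem arcReg_finite (w m s k s' k' : ℤ) : (arcReg w m s k s' k').Finite := by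
  refine Set.Finite.subset (Set.Finite.biUnion (Set.finite_Icc s s')
    (t := fun t => rt t '' rect (m * w - w / 2) (m * w + w / 2)
      (sgl m s k t * w - w / 2) (sgu m s' k' t * w + w / 2))
    fun t _ => (ro3_rect_finite _ _ _ _).image _) ?_
  rintro v ⟨t, h1, h2, h3⟩
  exact Set.mem_biUnion (show t ∈ Set.Icc s s' from ⟨h1, h2⟩) h3

namespace Lat

/-- `PX.dep` for each side -/
theorem ArcE.dep (L : Lat) (c : Bool) (w m s k s' k' : ℤ) :
    Dep (L.ArcE c w m s k s' k') (arcReg w m s k s' k') := by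
  intro ω ω' h
  have key : ∀ t, s ≤ t → t ≤ s' → L.PX c t (m * w - w / 2) (m * w + w / 2)
      (sgl m s k t * w - w / 2) (sgu m s' k' t * w + w / 2) ω =
      L.PX c t (m * w - w / 2) (m * w + w / 2)
      (sgl m s k t * w - w / 2) (sgu m s' k' t * w + w / 2) ω' := fun t h1 h2 =>
    PX.dep L c t _ _ _ _ ω ω' fun v hv => h v ⟨t, h1, h2, hv⟩
  apply propext
  constructor
  · intro H t h1 h2
    rw [← key t h1 h2]
    exact H t h1 h2
  · intro H t h1 h2
    rw [key t h1 h2]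
    exact H t h1 h2

theorem ArcE.loc (L : Lat) (c : Bool) (w m s k s' k' : ℤ) : Loc (L.ArcE c w m s k s' k') := by
  refine ⟨(arcReg_finite w m s k s' k').toFinset, ?_⟩
  rw [Set.Finite.coe_toFinset]
  exact ArcE.dep L c w m s k s' k'

/-- `PX.mon` -/
theorem ArcE.mon (L : Lat) (c : Bool) (w m s k s' k' : ℤ) : MonC c (L.ArcE c w m s k s' k') := by
  have h := fun t : ℤ => PX.mon L c t (m * w - w / 2) (m * w + w / 2)
    (sgl m s k t * w - w / 2) (sgu m s' k' t * w + w / 2)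
  cases c with
  | true =>
    unfold MonC at *
    simp only [if_true] at *
    exact fun ω ω' hω H t h1 h2 => h t ω ω' hω (H t h1 h2)
  | false =>
    unfold MonC at *
    simp only [Bool.false_eq_true, if_false] at *
    exact fun ω ω' hω H t h1 h2 => h t ω ω' hω (H t h1 h2)

/-- THE ARC IS CONNECTED.  For `s ≤ t ≤ s'` choose the crossing set `Q t` of the side `t` (`PX.set`, with
`Q t = ∅` for the other `t`); `T = ⋃ Q t` is connected by `Con.chain`: let `s ≤ t < s'`.  Then `sgu m s' k' t = m` and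
`sgl m s k (t + 1) = -m`, so `Q (t + 1)` is a crossing set `Par (t + 1) (m w - w/2) (m w + w/2) (-m w - w/2) (e w + w/2)`,
`e = sgu m s' k' (t + 1) ≥ -m`; by `Par.rot` it is `Rad t (-(e w + w/2)) (m w + w/2) (m w - w/2) (m w + w/2)` and it meets
`Q t`, which is `Par t (m w - w/2) (m w + w/2) (l w - w/2) (m w + w/2)`, `l = sgl m s k t ≤ m` (`Rad.meet`). -/
theorem ArcE.glue {L : Lat} {c : Bool} {w m s k s' k' : ℤ} {ω : Cfg} (hw : 0 < w) (hm : 0 ≤ m)
    (hk : |k| ≤ m) (hk' : |k'| ≤ m) (hss : s ≤ s') (h : L.ArcE c w m s k s' k' ω) :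
    ∃ T, L.Con T ∧ T ⊆ L.col c ω ∧ T ⊆ arcReg w m s k s' k' ∧ ∀ t, s ≤ t → t ≤ s' →
      ∃ Q, Q ⊆ T ∧ L.Par t (m * w - w / 2) (m * w + w / 2)
        (sgl m s k t * w - w / 2) (sgu m s' k' t * w + w / 2) Q := by
  have hx : ∀ t, ∃ Q : Set Pt, s ≤ t → t ≤ s' → Q ⊆ L.col c ω ∧
      L.Par t (m * w - w / 2) (m * w + w / 2)
        (sgl m s k t * w - w / 2) (sgu m s' k' t * w + w / 2) Q := by
    intro t
    by_cases ht : s ≤ t ∧ t ≤ s'
    · obtain ⟨Q, hQ⟩ := PX.set (h t ht.1 ht.2)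
      exact ⟨Q, fun _ _ => hQ⟩
    · exact ⟨∅, fun h1 h2 => absurd ⟨h1, h2⟩ ht⟩
  choose Q hQ using hx
  have hk1 := abs_le.1 hk
  have hk2 := abs_le.1 hk'
  have hw2 : 0 ≤ w / 2 := by omega
  refine ⟨{v | ∃ t, s ≤ t ∧ t ≤ s' ∧ v ∈ Q t}, ?_, ?_, ?_, ?_⟩
  · refine Con.chain hss (fun t h1 h2 => (hQ t h1 h2).2.1) fun t h1 h2 => ?_
    have hA := (hQ t h1 (by omega)).2
    have hB := (hQ (t + 1) (by omega) (by omega)).2.rot
    have e1 : sgl m s k (t + 1) = -m := if_neg (by omega)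
    have e2 : sgu m s' k' t = m := if_neg (by omega)
    have e3 : -m ≤ sgu m s' k' (t + 1) := by
      unfold sgu
      split_ifs <;> omega
    have e4 : sgl m s k t ≤ m := by
      unfold sgl
      split_ifs <;> omega
    have e5 : -m * w ≤ sgu m s' k' (t + 1) * w := mul_le_mul_of_nonneg_right e3 hw.le
    have e6 : sgl m s k t * w ≤ m * w := mul_le_mul_of_nonneg_right e4 hw.le
    have e7 : -m * w = -(m * w) := by ring
    rw [e1] at hB
    rw [e2] at hA
    rw [Set.inter_comm]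
    exact hB.meet hA (by omega) (by omega) (by omega) le_rfl (by omega) (by omega)
  · rintro v ⟨t, h1, h2, hv⟩
    exact (hQ t h1 h2).1 hv
  · rintro v ⟨t, h1, h2, hv⟩
    exact ⟨t, h1, h2, (hQ t h1 h2).2.2.1 hv⟩
  · intro t h1 h2
    exact ⟨Q t, fun v hv => ⟨t, h1, h2, hv⟩, (hQ t h1 h2).2⟩

end Lat

end SC
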