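import Pool.Agent.Lib_MP_e0a489.RO14
import Pool.Agent.Lib_MP_e0a489.RO15
import Pool.Agent.Lib_MP_e0a489.RO17
import Pool.Agent.Lib_MP_e0a489.RO18
import Pool.Agent.Lib_MP_e0a489.RO3

/-!
# MP_e0a489, RO 20: gluing of an arm and its path, inward
-/

set_option autoImplicit false

namespace SC

open Classical

/-- sites of the outer zones are outside `bx R` -/
theorem ro_J_nrm {s R : ℤ} (hR : 0 ≤ R) {v : Pt} (hv : v ∈ J s R) : R < nrm v := by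
  obtain ⟨⟨x, y⟩, ⟨⟨h1, h2⟩, h3, h4⟩, rfl⟩ := hv
  simp only at h1
  rw [nrm_rt]
  show R < max |x| |y|
  exact lt_of_lt_of_le (by omega) (le_trans (le_abs_self x) (le_max_left _ _))

theorem ro_Je_nrm {s R : ℤ} (hR : 0 < R) {v : Pt} (hv : v ∈ Je s R) : R < nrm v := by
  obtain ⟨⟨x, y⟩, ⟨⟨h1, h2⟩, h3, h4⟩, rfl⟩ := hv
  simp only at h1
  rw [nrm_rt]
  show R < max |x| |y|
  exact lt_of_lt_of_le (by omega) (le_trans (le_abs_self x) (le_max_left _ _))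

private theorem ro20_bd (P : Pth) (hm : 1 ≤ P.m) (hf : |P.f| ≤ P.m) :
    |P.lk| ≤ P.m ∧ |P.uk| ≤ P.m ∧ P.ls ≤ P.us := by
  unfold Pth.ls Pth.us Pth.lk Pth.uk
  by_cases h : rmv P.s P.f P.d
  · rw [if_pos h, if_pos h, if_pos h, if_pos h]
    unfold rmv at h
    exact ⟨hf, by simp; omega, by omega⟩
  · rw [if_neg h, if_neg h, if_neg h, if_neg h]
    unfold rmv at h
    exact ⟨by simp; omega, hf, by omega⟩

private theorem ro20_s (P : Pth) (hf : |P.f| ≤ P.m) :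
    P.ls ≤ P.s ∧ P.s ≤ P.us ∧ sgl P.m P.ls P.lk P.s ≤ P.f ∧ P.f ≤ sgu P.m P.us P.uk P.s := by
  rw [abs_le] at hf
  unfold Pth.ls Pth.us Pth.lk Pth.uk
  by_cases h : rmv P.s P.f P.d
  · rw [if_pos h, if_pos h, if_pos h, if_pos h]
    unfold rmv at h
    unfold sgl sgu
    refine ⟨le_rfl, by omega, ?_, ?_⟩
    · rw [if_pos rfl]
    · split_ifs <;> omega
  · rw [if_neg h, if_neg h, if_neg h, if_neg h]
    unfold rmv at h
    unfold sgl sgu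
    refine ⟨by omega, le_rfl, ?_, ?_⟩
    · split_ifs <;> omega
    · rw [if_pos rfl]

private theorem ro20_d (P : Pth) (hm : 1 ≤ P.m) :
    P.ls ≤ P.d ∧ P.d ≤ P.us ∧ sgl P.m P.ls P.lk P.d ≤ 0 ∧ 0 ≤ sgu P.m P.us P.uk P.d := by
  unfold Pth.ls Pth.us Pth.lk Pth.uk
  by_cases h : rmv P.s P.f P.d
  · rw [if_pos h, if_pos h, if_pos h, if_pos h]
    unfold rmv at h
    unfold sgl sgu
    refine ⟨by omega, le_rfl, ?_, ?_⟩
    · split_ifs <;> omega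
    · rw [if_pos rfl]
  · rw [if_neg h, if_neg h, if_neg h, if_neg h]
    unfold rmv at h
    unfold sgl sgu
    refine ⟨le_rfl, by omega, ?_, ?_⟩
    · rw [if_pos rfl]
    · split_ifs <;> omega

/-- `PathE.glue` with the bound for the inner end of the final strip (same proof) -/
private theorem ro20_glue {L : Lat} {c : Bool} {w : ℤ} {N : ℕ} {P : Pth} {ω : Cfg} (hw : 0 < w)
    (hP : P.Ok w N) (h : L.PathE c w P ω) :
    ∃ T, L.Con T ∧ T ⊆ L.col c ω ∧ T ⊆ P.reg w ∧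
      (∃ Q, Q ⊆ T ∧ L.Par P.s P.a1 P.b1 ((P.f - P.h) * w - w / 2) ((P.f + P.h) * w + w / 2) Q) ∧
      ∃ y, |y| ≤ w / 2 ∧ rt P.d (P.a4, y) ∈ T := by
  obtain ⟨hQ1, hQ2, hA, hQ4⟩ := h
  obtain ⟨Q1, c1, p1⟩ := Lat.PX.set hQ1
  obtain ⟨Q2, c2, r2⟩ := Lat.RX.set hQ2
  obtain ⟨Q4, c4, r4⟩ := Lat.RX.set hQ4
  have hm1 := hP.m1
  have hfm := hP.fm
  rw [abs_le] at hfm
  obtain ⟨b1, b2, b3⟩ := ro20_bd P hP.m1 hP.fm
  obtain ⟨s1, s2, s3, s4⟩ := ro20_s P hP.fm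
  obtain ⟨d1, d2, d3, d4⟩ := ro20_d P hP.m1
  obtain ⟨T3, hc3, k3, t3, hq3⟩ := Lat.ArcE.glue hw (by omega) b1 b2 b3 hA
  obtain ⟨Qs, qs1, qs2⟩ := hq3 P.s s1 s2
  obtain ⟨Qd, qd1, qd2⟩ := hq3 P.d d1 d2
  have hw2 : 0 ≤ w / 2 := by omega
  have m12 : (Q2 ∩ Q1).Nonempty := by
    refine Lat.Rad.meet r2 p1 hP.a21 hP.b12 ?_ ?_ ?_ (by omega)
    · have := mul_nonneg hP.h0 hw.le
      nlinarith
    · have := mul_nonneg hP.h0 hw.le
      nlinarith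
    · have h1 := hP.ab1
      have := mul_nonneg hP.h0 hw.le
      nlinarith
  have m23 : (Q2 ∩ Qs).Nonempty := by
    refine Lat.Rad.meet r2 qs2 hP.a2m hP.b2m ?_ ?_ (by omega) (by omega)
    · have := mul_le_mul_of_nonneg_right s3 hw.le
      linarith
    · have := mul_le_mul_of_nonneg_right s4 hw.le
      linarith
  have m43 : (Q4 ∩ Qd).Nonempty := by
    refine Lat.Rad.meet r4 qd2 hP.a4m hP.b4m ?_ ?_ (by omega) (by omega)
    · have := mul_le_mul_of_nonneg_right d3 hw.le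
      linarith
    · have := mul_le_mul_of_nonneg_right d4 hw.le
      linarith
  have u1 : L.Con (Q1 ∪ Q2) := by
    refine Lat.Con.union p1.1 r2.1 ?_
    rwa [Set.inter_comm] at m12
  have u2 : L.Con (Q1 ∪ Q2 ∪ T3) := by
    refine Lat.Con.union u1 hc3 ?_
    obtain ⟨z, z1, z2⟩ := m23
    exact ⟨z, Or.inr z1, qs1 z2⟩
  have u3 : L.Con (Q1 ∪ Q2 ∪ T3 ∪ Q4) := by
    refine Lat.Con.union u2 r4.1 ?_
    obtain ⟨z, z1, z2⟩ := m43
    exact ⟨z, Or.inr (qd1 z2), z1⟩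
  refine ⟨Q1 ∪ Q2 ∪ T3 ∪ Q4, u3, ?_, ?_, ?_, ?_⟩
  · exact Set.union_subset (Set.union_subset (Set.union_subset c1 c2) k3) c4
  · unfold Pth.reg
    exact Set.union_subset_union (Set.union_subset_union (Set.union_subset_union p1.2.1 r2.2.1) t3)
      r4.2.1
  · exact ⟨Q1, fun x hx => Or.inl (Or.inl (Or.inl hx)), p1⟩
  · obtain ⟨y, hy⟩ := r4.2.2.1
    obtain ⟨z, hz, hze⟩ := r4.2.1 hy
    have e : z = (P.a4, y) := (rt P.d).injective hze
    subst e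
    have h3 : -(w / 2) ≤ y := hz.2.1
    have h4 : y ≤ w / 2 := hz.2.2
    exact ⟨y, abs_le.2 ⟨h3, h4⟩, Or.inr hy⟩

/-- Let `ρ = M w + w/2`, `M = μ Mc + μ / 2`.  `lbi_eq` and `lw_eq`: the landing block is `rt s '' rect (ρ - ℓ + 1) ρ p q`, `ℓ = (2h+1) w`
(`(M - 2h) w - w/2 = ρ - ℓ + 1`).  `ro_arm_in` with `J = Jc c R`, `Y = Je (d i) R` gives `K` and a radial crossing set `Q ⊆ K` of
the block, `PathE.glue` (with `inP_ok`) gives `T` and a parallel crossing set of the same rectangle; they meet, `K ∪ T`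
is connected.  `K ∪ T ⊆ ann r' R ∪ Jc c R ∪ Kc c r'`: `K ⊆ ann ρ R ∪ Jc c R ∪` block, the block is part of `reg`, `in_reg` (`ρ ≤ R`,
`r' ≤ ρ`), `K_tgt`.  It contains a site of `Je (d i) R` and the site `rt d (r'/2 + 1, y)` of `T`, `|y| ≤ w/2`
(`PathE.glue`), which is in `Ks d r'` (`in_end`, `in_rw`). -/
theorem glue_in {L : Lat} {w μ Mc R r' : ℤ} (hw : w % 2 = 1) (hw5 : 5 ≤ w) (hμ : μ % 2 = 1)
    (hμ0 : 0 < μ) {c₀ : Bool} {s k d : Fin 4 → ℤ} (hl : Land μ (μ * Mc + μ / 2) c₀ s k)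
    (hR : 2 * ((μ * Mc + μ / 2) * w + w / 2) ≤ R)
    (h1 : r' + (μ + 10) * w ≤ (μ * Mc + μ / 2) * w + w / 2)
    (h2 : (μ * Mc + μ / 2) * w + w / 2 ≤ 4 * r') (i : Fin 4) {ω : Cfg}
    (hF : L.Arm (colr c₀ i)
      (ann ((μ * Mc + μ / 2) * w + w / 2) R ∪ Jc (colr c₀ i) R ∪
        lbi w μ Mc (colr c₀ i) (s i) (k i))
      (lbi w μ Mc (colr c₀ i) (s i) (k i) ∩
        rng ((μ * Mc + μ / 2) * w + w / 2 - lw w μ (colr c₀ i) + 1)) (Je (d i) R) ω)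
    (hV : L.PathE (colr c₀ i) w (inP w μ (μ * Mc + μ / 2) r' c₀ s k i) ω) :
    L.Arm (colr c₀ i) (ann r' R ∪ Jc (colr c₀ i) R ∪ Kc (colr c₀ i) r')
      (Ks (tgt c₀ i) r') (Je (d i) R) ω := by
  have hw0 : 0 < w := by omega
  obtain ⟨hb0, hb1⟩ := hwd_bd hμ hμ0 c₀ i
  have hcor := hl.cor i
  have hok := inP_ok hw hw5 hμ hμ0 hl h1 h2 i
  have hrw := in_rw hw5 hμ0 hl h2
  have hreg : ∀ v ∈ (inP w μ (μ * Mc + μ / 2) r' c₀ s k i).reg w,
      r' / 2 < nrm v ∧ nrm v ≤ (μ * Mc + μ / 2) * w + w / 2 ∧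
        (r' < nrm v ∨ v ∈ K (tgt c₀ i) r') :=
    fun v hv => in_reg hw hw5 hμ hμ0 hl h1 h2 i hv
  obtain ⟨T, hT, Tc, Tr, ⟨Q', hQ'T, hPar⟩, y', hy', hy'T⟩ := ro20_glue hw0 hok hV
  rw [lw_eq w hμ c₀ i, lbi_eq hw hw0 hμ hμ0 c₀ (s i) k i] at hF
  set M := μ * Mc + μ / 2 with hM
  set h := hwd μ c₀ i with hh
  set f := fpos μ c₀ k i with hf
  have hblk : ∀ v ∈ rt (s i) '' rect ((M - 2 * h) * w - w / 2) (M * w + w / 2)
      ((f - h) * w - w / 2) ((f + h) * w + w / 2), v ∈ (inP w μ M r' c₀ s k i).reg w :=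
    fun v hv => Or.inl (Or.inl (Or.inl hv))
  have e1 : (M - 2 * h) * w - w / 2 = M * w + w / 2 - (2 * h + 1) * w + 1 := by
    have h3 : w = 2 * (w / 2) + 1 := by omega
    linear_combination h3
  rw [e1] at hF hblk
  have hcor' := abs_le.1 (show |f| ≤ M - 2 * μ - 20 by omega)
  have hhw : 0 ≤ h * w := mul_nonneg hb0 hw0.le
  have hℓw : w ≤ (2 * h + 1) * w := by nlinarith
  have hMw : (2 * μ + 20) * w ≤ M * w := by
    refine mul_le_mul_of_nonneg_right ?_ hw0.le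
    have := abs_nonneg f
    omega
  have hμw : 0 < μ * w := mul_pos hμ0 hw0
  have hℓM : (2 * h + 1) * w ≤ μ * w := mul_le_mul_of_nonneg_right hb1 hw0.le
  have hp : -(M * w + w / 2) < (f - h) * w - w / 2 := by
    have h3 : (-M + 20) * w ≤ (f - h) * w := mul_le_mul_of_nonneg_right (by omega) hw0.le
    have h4 : (-M + 20) * w = -(M * w) + 20 * w := by ring
    omega
  have hq : (f + h) * w + w / 2 < M * w + w / 2 := by
    have h3 : (f + h) * w ≤ (M - 20) * w := mul_le_mul_of_nonneg_right (by omega) hw0.le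
    have h4 : (M - 20) * w = M * w - 20 * w := by ring
    omega
  have hMw' : (2 * μ + 20) * w = 2 * (μ * w) + 20 * w := by ring
  have hR0 : 0 ≤ R := by omega
  obtain ⟨K', hK', hK'sub, ⟨y, hyK, hyY⟩, Q, hQK, hRad⟩ := Lat.ro_arm_in (by omega) (by omega) hp hq
    (fun v hv => by
      rcases hv with hv | hv <;> have := ro_J_nrm hR0 hv <;> omega)
    (fun v hv => by
      have := ro_Je_nrm (by omega : 0 < R) hv
      omega) hF
  have hPar' : L.Par (s i) ((M - 2 * h) * w - w / 2) (M * w + w / 2)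
    ((f - h) * w - w / 2) ((f + h) * w + w / 2) Q' := hPar
  rw [e1] at hPar'
  obtain ⟨z, hz1, hz2⟩ := Lat.Rad.meet hRad hPar' le_rfl le_rfl le_rfl le_rfl (by omega)
    (by
      have h3 : (f - h) * w ≤ (f + h) * w := mul_le_mul_of_nonneg_right (by omega) hw0.le
      omega)
  have hcon : L.Con (K' ∪ T) := Lat.Con.union hK' hT ⟨z, hQK hz1, hQ'T hz2⟩
  have hr'ρ : r' ≤ M * w + w / 2 := by
    have h3 : (μ + 10) * w = μ * w + 10 * w := by ring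
    omega
  have hreg' : ∀ v ∈ (inP w μ M r' c₀ s k i).reg w,
      v ∈ ann r' R ∪ Jc (colr c₀ i) R ∪ Kc (colr c₀ i) r' := by
    intro v hv
    obtain ⟨h3, h4, h5⟩ := hreg v hv
    rcases h5 with h5 | h5
    · exact Or.inl (Or.inl ⟨h5, by omega⟩)
    · exact Or.inr (K_tgt c₀ i r' h5)
  have hsub : K' ∪ T ⊆ (ann r' R ∪ Jc (colr c₀ i) R ∪ Kc (colr c₀ i) r') ∩ L.col (colr c₀ i) ω := by
    rintro v (hv | hv)
    · obtain ⟨h3, h4⟩ := hK'sub hv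
      refine ⟨?_, h4⟩
      rcases h3 with (h3 | h3) | h3
      · have h5 : M * w + w / 2 < nrm v := h3.1
        exact Or.inl (Or.inl ⟨by omega, h3.2⟩)
      · exact Or.inl (Or.inr h3)
      · exact hreg' v (hblk v h3)
    · exact ⟨hreg' v (Tr hv), Tc hv⟩
  exact ⟨rt (tgt c₀ i) (r' / 2 + 1, y'), in_end hw5 hrw hy', y, hyY,
    (hcon _ (Or.inr hy'T) _ (Or.inl hyK)).mono hsub⟩

end SC
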