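import Pool.Agent.Lib_MP_e0a489.RO4
import Pool.Agent.Lib_MP_e0a489.RO5

/-!
# MP_e0a489, RO 6: probability of the path event
-/

set_option autoImplicit false

namespace SC

open Classical

/-- `pr_harris_mon` for the four events (for example indexed by `Fin 4` or `Bool × Bool`; or three times the two event
version).  Landing block: `RSW.prPX`, width `b1 - a1 = (2h+1) w - 1 ≥ 4`, length `2 h w + 2 (w/2) = (2h+1) w - 1` (`w` odd).
First strip: `RSW.prRX`, width `2 (w/2) = w - 1 ≥ 4`, length `b2 - a2 ≤ N (w - 1)`.  Arc: `arc_pr` (`Pth.arc_ord`; `|lk|, |uk| ≤ m`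
from `Ok.fm`).  Final strip: `RSW.prRX`.  Altogether `κ N · κ N · (κ N)^5 · κ N`, and `κ N > 0`. -/
theorem path_pr {L : Lat} {κ : ℕ → ℝ} (h : RSW L κ) (c : Bool) {w : ℤ} {N : ℕ} {P : Pth}
    (hw : w % 2 = 1) (hw5 : 5 ≤ w) (hP : P.Ok w N) : κ N ^ 8 ≤ pr (L.PathE c w P) := by
  have hκ : 0 < κ N := h.pos N
  have hw2 : 2 * (w / 2) = w - 1 := by omega
  have hh := hP.h0
  have hhw : 0 ≤ P.h * w := mul_nonneg hh (by omega)
  have hN1 : (1 : ℤ) ≤ (N : ℤ) := by exact_mod_cast hP.n1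
  have hf : |P.f| ≤ P.m := hP.fm
  have h0m : |(0 : ℤ)| ≤ P.m := by rw [abs_zero]; linarith [hP.m1]
  -- landing block
  have e1 : κ N ≤ pr (L.PX c P.s P.a1 P.b1 ((P.f - P.h) * w - w / 2)
      ((P.f + P.h) * w + w / 2)) := by
    have hba : P.b1 - P.a1 = 2 * (P.h * w) + w - 1 := by rw [hP.ab1]; ring
    have hlen : (P.f + P.h) * w + w / 2 - ((P.f - P.h) * w - w / 2) = P.b1 - P.a1 := by
      rw [hba]; linear_combination hw2
    refine h.prPX hP.n1 c ?_ ?_ ?_
    · have : 0 ≤ P.b1 - P.a1 := by rw [hba]; omega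
      linarith [hlen]
    · rw [hba]; omega
    · rw [hlen]
      have : 0 ≤ P.b1 - P.a1 := by rw [hba]; omega
      nlinarith
  -- first strip
  have e2 : κ N ≤ pr (L.RX c P.s P.a2 P.b2 (P.f * w - w / 2) (P.f * w + w / 2)) := by
    have hlen : P.f * w + w / 2 - (P.f * w - w / 2) = w - 1 := by linear_combination hw2
    refine h.prRX hP.n1 c ?_ ?_ ?_
    · have h1 := hP.a2m
      have h2 := hP.b2m
      omega
    · rw [hlen]; omega
    · rw [hlen]; exact hP.n2
  -- arc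
  have e3 : κ N ^ 5 ≤ pr (L.ArcE c w P.m P.ls P.lk P.us P.uk) := by
    have hlk : |P.lk| ≤ P.m := by
      unfold Pth.lk
      split_ifs
      · exact hf
      · exact h0m
    have huk : |P.uk| ≤ P.m := by
      unfold Pth.uk
      split_ifs
      · exact h0m
      · exact hf
    have hls : 0 ≤ P.ls := by
      unfold Pth.ls
      split_ifs
      · exact hP.s0
      · exact hP.d0
    have hus : P.us ≤ 4 := by
      unfold Pth.us
      split_ifs
      · exact hP.d4
      · exact hP.s4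
    exact arc_pr h c hw hw5 (by linarith [hP.m1]) hlk huk hls hus P.arc_ord hP.n1 hP.n3
  -- final strip
  have e4 : κ N ≤ pr (L.RX c P.d P.a4 P.b4 (-(w / 2)) (w / 2)) := by
    have hlen : w / 2 - -(w / 2) = w - 1 := by linear_combination hw2
    refine h.prRX hP.n1 c ?_ ?_ ?_
    · have h1 := hP.a4m
      have h2 := hP.b4m
      omega
    · rw [hlen]; omega
    · rw [hlen]; exact hP.n4
  let A : Fin 4 → Cfg → Prop := ![L.PX c P.s P.a1 P.b1 ((P.f - P.h) * w - w / 2)
      ((P.f + P.h) * w + w / 2), L.RX c P.s P.a2 P.b2 (P.f * w - w / 2) (P.f * w + w / 2),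
      L.ArcE c w P.m P.ls P.lk P.us P.uk, L.RX c P.d P.a4 P.b4 (-(w / 2)) (w / 2)]
  have hloc : ∀ i ∈ (Finset.univ : Finset (Fin 4)), Loc (A i) := by
    intro i _
    fin_cases i
    · exact Lat.PX.loc L c _ _ _ _ _
    · exact Lat.RX.loc L c _ _ _ _ _
    · exact Lat.ArcE.loc L c _ _ _ _ _ _
    · exact Lat.RX.loc L c _ _ _ _ _
  have hmon : ∀ i ∈ (Finset.univ : Finset (Fin 4)), MonC c (A i) := by
    intro i _
    fin_cases i
    · exact Lat.PX.mon L c _ _ _ _ _
    · exact Lat.RX.mon L c _ _ _ _ _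
    · exact Lat.ArcE.mon L c _ _ _ _ _ _
    · exact Lat.RX.mon L c _ _ _ _ _
  have key := pr_harris_mon c hloc hmon
  have hev : (fun ω => ∀ i ∈ (Finset.univ : Finset (Fin 4)), A i ω) = L.PathE c w P := by
    funext ω
    refine propext ⟨fun hA => ?_, fun hA i _ => ?_⟩
    · exact ⟨hA 0 (Finset.mem_univ _), hA 1 (Finset.mem_univ _), hA 2 (Finset.mem_univ _),
        hA 3 (Finset.mem_univ _)⟩
    · obtain ⟨h1, h2, h3, h4⟩ := hA
      fin_cases i
      · exact h1
      · exact h2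
      · exact h3
      · exact h4
  rw [hev] at key
  refine le_trans ?_ key
  have hprod : ∏ i ∈ (Finset.univ : Finset (Fin 4)), pr (A i) =
      pr (A 0) * pr (A 1) * pr (A 2) * pr (A 3) := Fin.prod_univ_four _
  rw [hprod]
  have g1 : κ N ≤ pr (A 0) := e1
  have g2 : κ N ≤ pr (A 1) := e2
  have g3 : κ N ^ 5 ≤ pr (A 2) := e3
  have g4 : κ N ≤ pr (A 3) := e4
  have hk5 : 0 ≤ κ N ^ 5 := by positivity
  calc κ N ^ 8 = κ N * κ N * κ N ^ 5 * κ N := by ring
    _ ≤ pr (A 0) * pr (A 1) * pr (A 2) * pr (A 3) := by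
        refine mul_le_mul (mul_le_mul (mul_le_mul g1 g2 hκ.le (hκ.le.trans g1)) g3 hk5 ?_) g4
          hκ.le ?_
        · exact mul_nonneg (hκ.le.trans g1) (hκ.le.trans g2)
        · exact mul_nonneg (mul_nonneg (hκ.le.trans g1) (hκ.le.trans g2)) (hk5.trans g3)

end SC
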