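import Pool.Agent.Lib_MP_e0a489.Base

/-!
# MP_e0a489, probability toolkit 3a: Harris inequality
-/

set_option autoImplicit false

namespace SC

open Classical

/-- `g` is increasing in the sites of `G` -/
def IncOn (g : Cfg → ℝ) (G : Set Pt) : Prop :=
  ∀ ω ω' : Cfg, (∀ v ∈ G, ω v ≤ ω' v) → (∀ v, v ∉ G → ω v = ω' v) → g ω ≤ g ω'

/-- `g` is decreasing in the sites of `G` -/
def DecOn (g : Cfg → ℝ) (G : Set Pt) : Prop :=
  ∀ ω ω' : Cfg, (∀ v ∈ G, ω v ≤ ω' v) → (∀ v, v ∉ G → ω v = ω' v) → g ω' ≤ g ω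

private theorem ovr_upd_f {v : Pt} {G S : Finset Pt} (hv : v ∉ G) (hS : S ⊆ G) (ω : Cfg) :
    ovr (insert v G) S ω = ovr G S (Function.update ω v false) := by
  funext x
  unfold ovr
  by_cases hx : x = v
  · subst hx
    have h1 : x ∉ S := fun h => hv (hS h)
    simp [hv, h1]
  · simp [hx]

private theorem ovr_upd_t {v : Pt} {G S : Finset Pt} (hv : v ∉ G) (ω : Cfg) :
    ovr (insert v G) (insert v S) ω = ovr G S (Function.update ω v true) := by
  funext x
  unfold ovr
  by_cases hx : x = v
  · subst hx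
    simp [hv]
  · simp [hx]

private theorem av_ins {v : Pt} {G : Finset Pt} (hv : v ∉ G) (g : Cfg → ℝ) (ω : Cfg) :
    av (insert v G) g ω =
      (av G g (Function.update ω v false) + av G g (Function.update ω v true)) / 2 := by
  unfold av
  rw [Finset.sum_powerset_insert hv, Finset.card_insert_of_notMem hv]
  have h1 : ∑ S ∈ G.powerset, g (ovr (insert v G) S ω) =
      ∑ S ∈ G.powerset, g (ovr G S (Function.update ω v false)) := by
    refine Finset.sum_congr rfl fun S hS => ?_
    rw [ovr_upd_f hv (Finset.mem_powerset.1 hS)]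
  have h2 : ∑ S ∈ G.powerset, g (ovr (insert v G) (insert v S) ω) =
      ∑ S ∈ G.powerset, g (ovr G S (Function.update ω v true)) := by
    refine Finset.sum_congr rfl fun S _ => ?_
    rw [ovr_upd_t hv]
  rw [h1, h2, pow_succ]
  field_simp

private theorem incOn_ins {v : Pt} {G : Finset Pt} {g : Cfg → ℝ}
    (hg : IncOn g ((insert v G : Finset Pt) : Set Pt)) :
    IncOn g (G : Set Pt) := by
  intro ω ω' h1 h2
  refine hg ω ω' (fun x hx => ?_) (fun x hx => h2 x fun h => hx ?_)
  · by_cases hxG : x ∈ (G : Set Pt)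
    · exact h1 x hxG
    · exact le_of_eq (h2 x hxG)
  · exact Finset.mem_coe.2 (Finset.mem_insert_of_mem (Finset.mem_coe.1 h))

private theorem av_upd_le {v : Pt} {G : Finset Pt} (hv : v ∉ G) {g : Cfg → ℝ}
    (hg : IncOn g ((insert v G : Finset Pt) : Set Pt)) (ω : Cfg) :
    av G g (Function.update ω v false) ≤ av G g (Function.update ω v true) := by
  unfold av
  refine div_le_div_of_nonneg_right (Finset.sum_le_sum fun S _ => ?_) (by positivity)
  refine hg _ _ (fun x _ => ?_) (fun x hx => ?_)
  · unfold ovr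
    by_cases hxG : x ∈ G
    · simp [hxG]
    · by_cases hx : x = v
      · subst hx; simp [hxG]
      · simp [hxG, Function.update_of_ne hx]
  · have hxv : x ≠ v := fun h => hx (by subst h; simp)
    unfold ovr
    simp [Function.update_of_ne hxv]

private theorem av_neg' (G : Finset Pt) (g : Cfg → ℝ) (ω : Cfg) :
    av G (fun ω => - g ω) ω = - av G g ω := by
  unfold av
  rw [Finset.sum_neg_distrib, neg_div]

private theorem dec_neg {G : Set Pt} {g : Cfg → ℝ} (hg : DecOn g G) :
    IncOn (fun ω => - g ω) G := fun ω ω' h1 h2 => neg_le_neg (hg ω ω' h1 h2)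

private theorem harris_aux (G : Finset Pt) {g h : Cfg → ℝ} :
    IncOn g (G : Set Pt) → IncOn h (G : Set Pt) → ∀ ω : Cfg,
    av G g ω * av G h ω ≤ av G (fun ω => g ω * h ω) ω := by
  induction G using Finset.induction_on with
  | empty =>
    intro _ _ ω
    simp [av]
  | insert v G hv ih =>
    intro hg hh ω
    rw [av_ins hv, av_ins hv, av_ins hv]
    have h0 := ih (incOn_ins hg) (incOn_ins hh) (Function.update ω v false)
    have h1 := ih (incOn_ins hg) (incOn_ins hh) (Function.update ω v true)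
    have h2 := av_upd_le hv hg ω
    have h3 := av_upd_le hv hh ω
    nlinarith [mul_nonneg (sub_nonneg.2 h2) (sub_nonneg.2 h3)]

/-- Harris inequality for the average over `G` (the configuration off `G` is fixed).  Induction on
`G`: for `G = insert v G'`, `av G = av {v} ∘ av G'`, the two functions `av G' g`, `av G' h` are
increasing in `v`, and for one site `(a+b)/2 * (c+d)/2 ≤ (ac+bd)/2` if `a ≤ b`, `c ≤ d`. -/
theorem harris {G : Finset Pt} {g h : Cfg → ℝ} (hg : IncOn g (G : Set Pt))
    (hh : IncOn h (G : Set Pt)) (ω : Cfg) :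
    av G g ω * av G h ω ≤ av G (fun ω => g ω * h ω) ω :=
  harris_aux G hg hh ω

theorem harris_dec {G : Finset Pt} {g h : Cfg → ℝ} (hg : DecOn g (G : Set Pt))
    (hh : DecOn h (G : Set Pt)) (ω : Cfg) :
    av G g ω * av G h ω ≤ av G (fun ω => g ω * h ω) ω := by
  have h1 := harris_aux G (dec_neg hg) (dec_neg hh) ω
  rw [av_neg', av_neg'] at h1
  simpa using h1

theorem harris_neg {G : Finset Pt} {g h : Cfg → ℝ} (hg : IncOn g (G : Set Pt))
    (hh : DecOn h (G : Set Pt)) (ω : Cfg) :
    av G (fun ω => g ω * h ω) ω ≤ av G g ω * av G h ω := by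
  have h1 := harris_aux G hg (dec_neg hh) ω
  rw [av_neg'] at h1
  have h2 : av G (fun ω => g ω * - h ω) ω = - av G (fun ω => g ω * h ω) ω := by
    rw [← av_neg']
    congr 1
    funext ω
    ring
  rw [h2] at h1
  nlinarith [h1]

end SC
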