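import Pool.Agent.Lib_MP_e0a489.PA2b
import Pool.Agent.Lib_MP_e0a489.PB1

/-!
# MP_e0a489, probability toolkit 3b: Harris inequality for events
-/

set_option autoImplicit false

namespace SC

open Classical

private theorem pb2_ind_and (A B : Cfg → Prop) :
    (fun ω => ind A ω * ind B ω) = ind (fun ω => A ω ∧ B ω) := by
  funext ω
  unfold ind
  by_cases h1 : A ω <;> by_cases h2 : B ω <;> simp [h1, h2]

private theorem pb2_le {G : Finset Pt} {ω ω' : Cfg} (h1 : ∀ v ∈ (G : Set Pt), ω v ≤ ω' v)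
    (h2 : ∀ v, v ∉ (G : Set Pt) → ω v = ω' v) (v : Pt) : ω v ≤ ω' v := by
  by_cases hv : v ∈ (G : Set Pt)
  · exact h1 v hv
  · exact le_of_eq (h2 v hv)

private theorem pb2_inc {A : Cfg → Prop} (hA : Inc A) (G : Finset Pt) :
    IncOn (ind A) (G : Set Pt) := by
  intro ω ω' h1 h2
  unfold ind
  by_cases h3 : A ω
  · rw [if_pos h3, if_pos (hA ω ω' (pb2_le h1 h2) h3)]
  · rw [if_neg h3]
    split_ifs <;> norm_num

private theorem pb2_dec {A : Cfg → Prop} (hA : Dec A) (G : Finset Pt) :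
    DecOn (ind A) (G : Set Pt) := by
  intro ω ω' h1 h2
  unfold ind
  by_cases h3 : A ω'
  · rw [if_pos h3, if_pos (hA ω ω' (pb2_le h1 h2) h3)]
  · rw [if_neg h3]
    split_ifs <;> norm_num

/-- the three probabilities as averages over a common finite set -/
private theorem pb2_common {A B : Cfg → Prop} (lA : Loc A) (lB : Loc B) :
    ∃ F : Finset Pt, pr A = av F (ind A) (fun _ => false) ∧
      pr B = av F (ind B) (fun _ => false) ∧
      pr (fun ω => A ω ∧ B ω) = av F (fun ω => ind A ω * ind B ω) (fun _ => false) := by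
  obtain ⟨FA, hFA⟩ := lA
  obtain ⟨FB, hFB⟩ := lB
  have hA : Dep (ind A) ((FA ∪ FB : Finset Pt) : Set Pt) :=
    (Dep.ind hFA).mono (by rw [Finset.coe_union]; exact Set.subset_union_left)
  have hB : Dep (ind B) ((FA ∪ FB : Finset Pt) : Set Pt) :=
    (Dep.ind hFB).mono (by rw [Finset.coe_union]; exact Set.subset_union_right)
  refine ⟨FA ∪ FB, ex_eq hA _, ex_eq hB _, ?_⟩
  have hAB : Dep (fun ω => ind A ω * ind B ω) ((FA ∪ FB : Finset Pt) : Set Pt) := by
    intro ω ω' h
    show ind A ω * ind B ω = ind A ω' * ind B ω'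
    rw [hA ω ω' h, hB ω ω' h]
  unfold pr
  rw [← pb2_ind_and]
  exact ex_eq hAB _

theorem pr_harris {A B : Cfg → Prop} (lA : Loc A) (lB : Loc B) (hA : Inc A) (hB : Inc B) :
    pr A * pr B ≤ pr (fun ω => A ω ∧ B ω) := by
  obtain ⟨F, h1, h2, h3⟩ := pb2_common lA lB
  rw [h1, h2, h3]
  exact harris (pb2_inc hA F) (pb2_inc hB F) _

theorem pr_harris_dec {A B : Cfg → Prop} (lA : Loc A) (lB : Loc B) (hA : Dec A) (hB : Dec B) :
    pr A * pr B ≤ pr (fun ω => A ω ∧ B ω) := by
  obtain ⟨F, h1, h2, h3⟩ := pb2_common lA lB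
  rw [h1, h2, h3]
  exact harris_dec (pb2_dec hA F) (pb2_dec hB F) _

/-- An increasing and a decreasing event are negatively correlated. -/
theorem pr_harris_neg {A B : Cfg → Prop} (lA : Loc A) (lB : Loc B) (hA : Inc A) (hB : Dec B) :
    pr (fun ω => A ω ∧ B ω) ≤ pr A * pr B := by
  obtain ⟨F, h1, h2, h3⟩ := pb2_common lA lB
  rw [h1, h2, h3]
  exact harris_neg (pb2_inc hA F) (pb2_dec hB F) _

private theorem pb2_ins {ι : Type} (a : ι) (s : Finset ι) (A : ι → Cfg → Prop) :
    (fun ω => ∀ i ∈ insert a s, A i ω) = fun ω => A a ω ∧ ∀ i ∈ s, A i ω := by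
  funext ω
  simp only [Finset.mem_insert, forall_eq_or_imp]

private theorem pb2_loc {ι : Type} {I : Finset ι} {A : ι → Cfg → Prop}
    (lA : ∀ i ∈ I, Loc (A i)) : Loc (fun ω => ∀ i ∈ I, A i ω) := by
  induction I using Finset.induction_on with
  | empty =>
    refine ⟨∅, ?_⟩
    intro ω ω' _
    simp
  | insert a s ha ih =>
    rw [pb2_ins]
    exact Loc.and (lA a (Finset.mem_insert_self a s))
      (ih fun i hi => lA i (Finset.mem_insert_of_mem hi))

private theorem pb2_one {ι : Type} (A : ι → Cfg → Prop) :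
    pr (fun ω => ∀ i ∈ (∅ : Finset ι), A i ω) = 1 := by
  have h : ind (fun ω => ∀ i ∈ (∅ : Finset ι), A i ω) = fun _ => 1 := by
    funext ω
    unfold ind
    rw [if_pos]
    intro i hi
    exact absurd hi (Finset.notMem_empty i)
  unfold pr
  rw [h]
  exact ex_const 1

/-- Finitely many increasing events. -/
theorem pr_harris_list {ι : Type} {I : Finset ι} {A : ι → Cfg → Prop} (lA : ∀ i ∈ I, Loc (A i))
    (hA : ∀ i ∈ I, Inc (A i)) : ∏ i ∈ I, pr (A i) ≤ pr (fun ω => ∀ i ∈ I, A i ω) := by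
  induction I using Finset.induction_on with
  | empty => rw [pb2_one, Finset.prod_empty]
  | insert a s ha ih =>
    rw [pb2_ins, Finset.prod_insert ha]
    have h1 : ∀ i ∈ s, Loc (A i) := fun i hi => lA i (Finset.mem_insert_of_mem hi)
    have h2 : ∀ i ∈ s, Inc (A i) := fun i hi => hA i (Finset.mem_insert_of_mem hi)
    refine le_trans (mul_le_mul_of_nonneg_left (ih h1 h2) (pr_nonneg _)) ?_
    refine pr_harris (lA a (Finset.mem_insert_self a s)) (pb2_loc h1)
      (hA a (Finset.mem_insert_self a s)) ?_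
    intro ω ω' h h3 i hi
    exact h2 i hi ω ω' h (h3 i hi)

theorem pr_harris_list_dec {ι : Type} {I : Finset ι} {A : ι → Cfg → Prop}
    (lA : ∀ i ∈ I, Loc (A i)) (hA : ∀ i ∈ I, Dec (A i)) :
    ∏ i ∈ I, pr (A i) ≤ pr (fun ω => ∀ i ∈ I, A i ω) := by
  induction I using Finset.induction_on with
  | empty => rw [pb2_one, Finset.prod_empty]
  | insert a s ha ih =>
    rw [pb2_ins, Finset.prod_insert ha]
    have h1 : ∀ i ∈ s, Loc (A i) := fun i hi => lA i (Finset.mem_insert_of_mem hi)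
    have h2 : ∀ i ∈ s, Dec (A i) := fun i hi => hA i (Finset.mem_insert_of_mem hi)
    refine le_trans (mul_le_mul_of_nonneg_left (ih h1 h2) (pr_nonneg _)) ?_
    refine pr_harris_dec (lA a (Finset.mem_insert_self a s)) (pb2_loc h1)
      (hA a (Finset.mem_insert_self a s)) ?_
    intro ω ω' h h3 i hi
    exact h2 i hi ω ω' h (h3 i hi)

/-- monotone in the direction of the colour `c` -/
def MonC (c : Bool) (A : Cfg → Prop) : Prop := if c then Inc A else Dec A

theorem pr_harris_mon {ι : Type} {I : Finset ι} {A : ι → Cfg → Prop} (c : Bool)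
    (lA : ∀ i ∈ I, Loc (A i)) (hA : ∀ i ∈ I, MonC c (A i)) :
    ∏ i ∈ I, pr (A i) ≤ pr (fun ω => ∀ i ∈ I, A i ω) := by
  cases c with
  | true =>
    refine pr_harris_list lA fun i hi => ?_
    have h := hA i hi
    unfold MonC at h
    rwa [if_pos rfl] at h
  | false =>
    refine pr_harris_list_dec lA fun i hi => ?_
    have h := hA i hi
    unfold MonC at h
    rwa [if_neg (by decide)] at h

end SC
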