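import Pool.Agent.Lib_MP_e0a489.PA2b
import Pool.Agent.Lib_MP_e0a489.PB1

/-!
# MP_e0a489, probability toolkit 3c: territory lemma
-/

set_option autoImplicit false

namespace SC

open Classical

private theorem pb3_dec_av {T U : Finset Pt} (hTU : Disjoint T U) {g : Cfg → ℝ}
    (hg : DecOn g (U : Set Pt)) : DecOn (av T g) (U : Set Pt) := by
  intro ω ω' h1 h2
  unfold av
  refine div_le_div_of_nonneg_right (Finset.sum_le_sum fun S _ => ?_) (by positivity)
  refine hg _ _ (fun v hv => ?_) (fun v hv => ?_)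
  · have hvT : v ∉ T := fun h => Finset.disjoint_left.1 hTU h (Finset.mem_coe.1 hv)
    rw [ovr_not_mem hvT, ovr_not_mem hvT]
    exact h1 v hv
  · by_cases hvT : v ∈ T
    · rw [ovr_mem hvT, ovr_mem hvT]
    · rw [ovr_not_mem hvT, ovr_not_mem hvT]
      exact h2 v hv

private theorem pb3_ind_nonneg (A : Cfg → Prop) (ω : Cfg) : 0 ≤ ind A ω := by
  unfold ind
  split_ifs <;> norm_num

private theorem pb3_ind3 (E A B : Cfg → Prop) :
    ind (fun ω => E ω ∧ A ω ∧ B ω) = fun ω => ind B ω * (ind E ω * ind A ω) := by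
  funext ω
  unfold ind
  by_cases h1 : E ω <;> by_cases h2 : A ω <;> by_cases h3 : B ω <;> simp [h1, h2, h3]

private theorem pb3_inc {A : Cfg → Prop} (hA : Inc A) (G : Finset Pt) :
    IncOn (ind A) (G : Set Pt) := by
  intro ω ω' h1 h2
  have hle : ∀ v, ω v ≤ ω' v := by
    intro v
    by_cases hv : v ∈ (G : Set Pt)
    · exact h1 v hv
    · exact le_of_eq (h2 v hv)
  unfold ind
  by_cases h3 : A ω
  · rw [if_pos h3, if_pos (hA ω ω' hle h3)]
  · rw [if_neg h3]
    split_ifs <;> norm_num

private theorem pb3_dec {A : Cfg → Prop} (hA : Dec A) (G : Finset Pt) :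
    DecOn (ind A) (G : Set Pt) := by
  intro ω ω' h1 h2
  have hle : ∀ v, ω v ≤ ω' v := by
    intro v
    by_cases hv : v ∈ (G : Set Pt)
    · exact h1 v hv
    · exact le_of_eq (h2 v hv)
  unfold ind
  by_cases h3 : A ω'
  · rw [if_pos h3, if_pos (hA ω ω' hle h3)]
  · rw [if_neg h3]
    split_ifs <;> norm_num

/-- TERRITORY LEMMA (generalised Harris inequality of Kesten), conditional form: `E` is increasing
in the sites of `T` and decreasing in those of `U` (`T`, `U` disjoint); `A` is increasing and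
depends only on `T`, `B` is decreasing and depends only on `U`; `T, U ⊆ G`.  Then
`P(E ∧ A ∧ B | off G) ≥ P(E | off G) P(A) P(B)`.  Proof: average first over `T` (other sites fixed):
`av T (1_E 1_A) ≥ av T 1_E * P(A)` by `harris`; multiply by `1_B`, which does not depend on `T`;
`av T 1_E` is decreasing in `U`, so average over `U` and apply `harris_dec`; then over the rest. -/
theorem territory {G T U : Finset Pt} {E A B : Cfg → Prop} (hT : T ⊆ G) (hU : U ⊆ G)
    (hTU : Disjoint T U) (hET : IncOn (ind E) (T : Set Pt)) (hEU : DecOn (ind E) (U : Set Pt))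
    (hA : Inc A) (hAT : Dep A (T : Set Pt)) (hB : Dec B) (hBU : Dep B (U : Set Pt)) (ω : Cfg) :
    cpr G E ω * (pr A * pr B) ≤ cpr G (fun ω => E ω ∧ A ω ∧ B ω) ω := by
  have hAe : ∀ ω, av T (ind A) ω = pr A := fun ω => cpr_eq_pr hAT ω
  have hBe : ∀ ω, av U (ind B) ω = pr B := fun ω => cpr_eq_pr hBU ω
  have hTB : ∀ v ∈ T, v ∉ (U : Set Pt) := fun v hv hvU =>
    Finset.disjoint_left.1 hTU hv (Finset.mem_coe.1 hvU)
  -- first average: over `T`
  have h1 : ∀ ω, pr A * (ind B ω * av T (ind E) ω) ≤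
      av T (ind (fun ω => E ω ∧ A ω ∧ B ω)) ω := by
    intro ω
    rw [pb3_ind3, av_mul_left (G := T) (g := fun ω => ind E ω * ind A ω) (Dep.ind hBU) hTB ω]
    have h := harris hET (pb3_inc hA T) ω
    rw [hAe] at h
    have h' := mul_le_mul_of_nonneg_left h (pb3_ind_nonneg B ω)
    calc pr A * (ind B ω * av T (ind E) ω) = ind B ω * (av T (ind E) ω * pr A) := by ring
      _ ≤ _ := h'
  -- second average: over `U`
  have h2 : ∀ ω, pr A * (pr B * av U (av T (ind E)) ω) ≤
      av U (av T (ind (fun ω => E ω ∧ A ω ∧ B ω))) ω := by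
    intro ω
    have h := harris_dec (pb3_dec hB U) (pb3_dec_av hTU hEU) ω
    rw [hBe] at h
    calc pr A * (pr B * av U (av T (ind E)) ω)
        ≤ pr A * av U (fun ω => ind B ω * av T (ind E) ω) ω :=
          mul_le_mul_of_nonneg_left h (pr_nonneg A)
      _ = av U (fun ω => pr A * (ind B ω * av T (ind E) ω)) ω := (av_smul _ _ _ _).symm
      _ ≤ _ := av_mono fun ω' _ => h1 ω'
  have h3 : ∀ g : Cfg → ℝ, av G (av U (av T g)) ω = av G g ω := by
    intro g
    have hUT : (av U (av T g)) = av (U ∪ T) g := by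
      funext ω'
      exact av_av U T g ω'
    rw [hUT, av_av]
    congr 1
    exact Finset.union_eq_left.2 (Finset.union_subset hU hT)
  unfold cpr
  rw [← h3 (ind E), ← h3 (ind (fun ω => E ω ∧ A ω ∧ B ω))]
  calc av G (av U (av T (ind E))) ω * (pr A * pr B)
      = av G (fun ω => pr A * (pr B * av U (av T (ind E)) ω)) ω := by
        rw [av_smul, av_smul]
        ring
    _ ≤ _ := av_mono fun ω' _ => h2 ω'

end SC
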