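import Pool.Agent.Lib_MP_e0a489.LD
import Pool.Agent.Lib_MP_e0a489.PB2
import Pool.Agent.Lib_MP_e0a489.PB3

/-!
# MP_e0a489, RO 7: the probabilistic engine
-/

set_option autoImplicit false

namespace SC

open Classical

private theorem ro7_ind_mono {A : Cfg → Prop} {ω ω' : Cfg} (h : A ω → A ω') :
    ind A ω ≤ ind A ω' := by
  unfold ind
  by_cases h3 : A ω
  · rw [if_pos h3, if_pos (h h3)]
  · rw [if_neg h3]
    split_ifs <;> norm_num

private theorem ro7_le {T : Set Pt} {ω ω' : Cfg} (h1 : ∀ v ∈ T, ω v ≤ ω' v)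
    (h2 : ∀ v, v ∉ T → ω v = ω' v) (v : Pt) : ω v ≤ ω' v := by
  by_cases hv : v ∈ T
  · exact h1 v hv
  · exact le_of_eq (h2 v hv)

private theorem ro7_pow {A : Fin 4 → Cfg → Prop} {q : ℝ} (hq0 : 0 ≤ q) (c : Bool)
    (I : Finset (Fin 4)) (lA : ∀ i ∈ I, Loc (A i)) (hA : ∀ i ∈ I, MonC c (A i))
    (hq : ∀ i, q ≤ pr (A i)) : q ^ 4 ≤ pr (fun ω => ∀ i ∈ I, A i ω) := by
  refine le_trans ?_ (pr_harris_mon c lA hA)
  have hq1 : q ≤ 1 := (hq 0).trans (pr_le_one _)
  have h1 : q ^ 4 ≤ q ^ I.card := by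
    refine pow_le_pow_of_le_one hq0 hq1 ?_
    calc I.card ≤ (Finset.univ : Finset (Fin 4)).card := Finset.card_le_univ I
      _ = 4 := by simp
  refine h1.trans ?_
  rw [← Finset.prod_const]
  exact Finset.prod_le_prod (fun i _ => hq0) fun i _ => hq i

/-- ENGINE.  `E` is the conjunction of the four arm events `F i` (colour `colr c₀ i`, sites `S i`), `V i` is the path
event of the arm `i` (same colour, sites `D i ⊆ G`), the sites of a path are disjoint from the sites of the arms and of the paths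
of the other colour.  `territory` with `T = G.filter (fun v => ∃ i, colr c₀ i = true ∧ v ∈ D i)`,
`U = G.filter (fun v => ∃ i, colr c₀ i = false ∧ v ∈ D i)` (disjoint by `hDD`),
`A = fun ω => ∀ i, colr c₀ i = true → V i ω`, `B = fun ω => ∀ i, colr c₀ i = false → V i ω`.  `E` is increasing in `T`: if `ω ≤ ω'`
on `T` and `ω = ω'` off `T`, then `ω ≤ ω'`, so the open arms (`Inc`) survive, and the sites `S i` of the closed arms do not meet `T`
(`hSD`), so the closed arm events are the same (`Dep`).  Symmetric for `U`.  `A` is `Inc`, depends on `T` (`D i ⊆ G`); `pr A ≥ q^4`: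
`pr_harris_mon true` for the index set `{i | colr c₀ i = true}` of at most four elements, `0 ≤ q ≤ 1` (`pr_le_one`).
Same for `B`.  Finally `cpr_mono`: `E ∧ A ∧ B` implies `Z`, and `cpr G E ω * (q^4 * q^4) ≤ cpr G E ω * (pr A * pr B)` (`cpr_nonneg`). -/
theorem ro_engine {c₀ : Bool} {G : Finset Pt} {F V : Fin 4 → Cfg → Prop} {S D : Fin 4 → Set Pt}
    {E Z : Cfg → Prop} {q : ℝ} (hq0 : 0 ≤ q) (hE : ∀ ω, E ω ↔ ∀ i, F i ω)
    (hF : ∀ i, MonC (colr c₀ i) (F i)) (hFS : ∀ i, Dep (F i) (S i))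
    (hV : ∀ i, MonC (colr c₀ i) (V i)) (hVD : ∀ i, Dep (V i) (D i))
    (hDG : ∀ i, ∀ v ∈ D i, v ∈ G) (hq : ∀ i, q ≤ pr (V i))
    (hSD : ∀ i j, colr c₀ i ≠ colr c₀ j → Disjoint (S i) (D j))
    (hDD : ∀ i j, colr c₀ i ≠ colr c₀ j → Disjoint (D i) (D j))
    (hZ : ∀ ω, (∀ i, F i ω) → (∀ i, V i ω) → Z ω) (ω : Cfg) :
    q ^ 8 * cpr G E ω ≤ cpr G Z ω := by
  have hFi : ∀ i, colr c₀ i = true → Inc (F i) := by
    intro i hi
    have h := hF i
    unfold MonC at h
    rwa [if_pos hi] at h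
  have hFd : ∀ i, colr c₀ i = false → Dec (F i) := by
    intro i hi
    have h := hF i
    unfold MonC at h
    rwa [if_neg (by rw [hi]; decide)] at h
  have hVi : ∀ i, colr c₀ i = true → Inc (V i) := by
    intro i hi
    have h := hV i
    unfold MonC at h
    rwa [if_pos hi] at h
  have hVd : ∀ i, colr c₀ i = false → Dec (V i) := by
    intro i hi
    have h := hV i
    unfold MonC at h
    rwa [if_neg (by rw [hi]; decide)] at h
  have hne : ∀ i j, colr c₀ i = true → colr c₀ j = false → colr c₀ i ≠ colr c₀ j := by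
    intro i j hi hj h
    rw [hi, hj] at h
    exact absurd h (by decide)
  have hne' : ∀ i j, colr c₀ i = false → colr c₀ j = true → colr c₀ i ≠ colr c₀ j := by
    intro i j hi hj h
    rw [hi, hj] at h
    exact absurd h (by decide)
  have lV : ∀ i, Loc (V i) := fun i => ⟨G, (hVD i).mono fun v hv => hDG i v hv⟩
  set T : Finset Pt := G.filter (fun v => ∃ i, colr c₀ i = true ∧ v ∈ D i) with hTdef
  set U : Finset Pt := G.filter (fun v => ∃ i, colr c₀ i = false ∧ v ∈ D i) with hUdef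
  have hT : T ⊆ G := Finset.filter_subset _ _
  have hU : U ⊆ G := Finset.filter_subset _ _
  have hmT : ∀ v, v ∈ (T : Set Pt) ↔ v ∈ G ∧ ∃ i, colr c₀ i = true ∧ v ∈ D i := by
    intro v
    rw [Finset.mem_coe, hTdef, Finset.mem_filter]
  have hmU : ∀ v, v ∈ (U : Set Pt) ↔ v ∈ G ∧ ∃ i, colr c₀ i = false ∧ v ∈ D i := by
    intro v
    rw [Finset.mem_coe, hUdef, Finset.mem_filter]
  have hTU : Disjoint T U := by
    rw [Finset.disjoint_left]
    intro v hv hv'
    obtain ⟨_, i, hi, hvi⟩ := (hmT v).1 (Finset.mem_coe.2 hv)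
    obtain ⟨_, j, hj, hvj⟩ := (hmU v).1 (Finset.mem_coe.2 hv')
    exact Set.disjoint_left.1 (hDD i j (hne i j hi hj)) hvi hvj
  have hET : IncOn (ind E) (T : Set Pt) := by
    intro ω ω' h1 h2
    refine ro7_ind_mono fun h => ?_
    rw [hE] at h ⊢
    intro i
    cases hc : colr c₀ i with
    | true => exact hFi i hc ω ω' (ro7_le h1 h2) (h i)
    | false =>
      have h3 : F i ω = F i ω' := by
        refine hFS i ω ω' fun v hv => h2 v fun hvT => ?_
        obtain ⟨_, j, hj, hvj⟩ := (hmT v).1 hvT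
        exact Set.disjoint_left.1 (hSD i j (hne' i j hc hj)) hv hvj
      rw [← h3]
      exact h i
  have hEU : DecOn (ind E) (U : Set Pt) := by
    intro ω ω' h1 h2
    refine ro7_ind_mono fun h => ?_
    rw [hE] at h ⊢
    intro i
    cases hc : colr c₀ i with
    | false => exact hFd i hc ω ω' (ro7_le h1 h2) (h i)
    | true =>
      have h3 : F i ω = F i ω' := by
        refine hFS i ω ω' fun v hv => h2 v fun hvT => ?_
        obtain ⟨_, j, hj, hvj⟩ := (hmU v).1 hvT
        exact Set.disjoint_left.1 (hSD i j (hne i j hc hj)) hv hvj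
      rw [h3]
      exact h i
  set I : Finset (Fin 4) := Finset.univ.filter (fun i => colr c₀ i = true) with hI
  set J : Finset (Fin 4) := Finset.univ.filter (fun i => colr c₀ i = false) with hJ
  have hmI : ∀ i, i ∈ I ↔ colr c₀ i = true := by
    intro i
    rw [hI, Finset.mem_filter]
    simp
  have hmJ : ∀ i, i ∈ J ↔ colr c₀ i = false := by
    intro i
    rw [hJ, Finset.mem_filter]
    simp
  have hA4 : q ^ 4 ≤ pr (fun ω => ∀ i ∈ I, V i ω) := by
    refine ro7_pow hq0 true I (fun i _ => lV i) (fun i hi => ?_) hq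
    have h := hV i
    rwa [(hmI i).1 hi] at h
  have hB4 : q ^ 4 ≤ pr (fun ω => ∀ i ∈ J, V i ω) := by
    refine ro7_pow hq0 false J (fun i _ => lV i) (fun i hi => ?_) hq
    have h := hV i
    rwa [(hmJ i).1 hi] at h
  have hAinc : Inc (fun ω => ∀ i ∈ I, V i ω) := by
    intro ω ω' h h3 i hi
    exact hVi i ((hmI i).1 hi) ω ω' h (h3 i hi)
  have hBdec : Dec (fun ω => ∀ i ∈ J, V i ω) := by
    intro ω ω' h h3 i hi
    exact hVd i ((hmJ i).1 hi) ω ω' h (h3 i hi)
  have hAT : Dep (fun ω => ∀ i ∈ I, V i ω) (T : Set Pt) := by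
    intro ω ω' h
    refine propext (forall_congr' fun i => forall_congr' fun hi => ?_)
    have h3 : V i ω = V i ω' := by
      refine hVD i ω ω' fun v hv => h v ?_
      exact (hmT v).2 ⟨hDG i v hv, i, (hmI i).1 hi, hv⟩
    rw [h3]
  have hBU : Dep (fun ω => ∀ i ∈ J, V i ω) (U : Set Pt) := by
    intro ω ω' h
    refine propext (forall_congr' fun i => forall_congr' fun hi => ?_)
    have h3 : V i ω = V i ω' := by
      refine hVD i ω ω' fun v hv => h v ?_
      exact (hmU v).2 ⟨hDG i v hv, i, (hmJ i).1 hi, hv⟩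
    rw [h3]
  have hmain := territory hT hU hTU hET hEU hAinc hAT hBdec hBU ω
  have h8 : q ^ 8 * cpr G E ω ≤
      cpr G E ω * (pr (fun ω => ∀ i ∈ I, V i ω) * pr (fun ω => ∀ i ∈ J, V i ω)) := by
    have h5 : q ^ 8 ≤ pr (fun ω => ∀ i ∈ I, V i ω) * pr (fun ω => ∀ i ∈ J, V i ω) := by
      calc q ^ 8 = q ^ 4 * q ^ 4 := by ring
        _ ≤ _ := mul_le_mul hA4 hB4 (by positivity) (pr_nonneg _)
    rw [mul_comm]
    exact mul_le_mul_of_nonneg_left h5 (cpr_nonneg _ _ _)
  refine h8.trans (hmain.trans (cpr_mono ?_))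
  intro ω' _ h
  obtain ⟨h1, h2, h3⟩ := h
  refine hZ ω' ((hE ω').1 h1) fun i => ?_
  cases hc : colr c₀ i with
  | true => exact h2 i ((hmI i).2 hc)
  | false => exact h3 i ((hmJ i).2 hc)

end SC
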