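import Pool.Agent.Lib_MP_e0a489.RO13
import Pool.Agent.Lib_MP_e0a489.RO19
import Pool.Agent.Lib_MP_e0a489.RO20
import Pool.Agent.Lib_MP_e0a489.RO6
import Pool.Agent.Lib_MP_e0a489.RO7

/-!
# MP_e0a489, module RO: tubes, routing from the landing positions to the zones (interface)
-/

set_option autoImplicit false

namespace SC

open Classical

private theorem ro9_M {μ M : ℤ} (hμ0 : 0 < μ) {c₀ : Bool} {s k : Fin 4 → ℤ}
    (hl : Land μ M c₀ s k) : 22 ≤ M := by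
  have h := hl.cor 0
  have h1 := abs_nonneg (fpos μ c₀ k 0)
  omega

private theorem ro9_ne {c₀ : Bool} {i j : Fin 4} (h : colr c₀ i ≠ colr c₀ j) : i ≠ j := by
  rintro rfl
  exact h rfl

private theorem ro9_lbo {w μ Mc R' : ℤ} (hw : w % 2 = 1) (hw0 : 0 < w) (hμ : μ % 2 = 1)
    (hμ0 : 0 < μ) (c₀ : Bool) (s k : Fin 4 → ℤ) (i : Fin 4) :
    lbo w μ Mc (colr c₀ i) (s i) (k i) ⊆
      (outP w μ (μ * Mc + μ / 2) R' c₀ s k i).reg w := by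
  rw [lbo_eq hw hw0 hμ hμ0]
  intro v hv
  exact Or.inl (Or.inl (Or.inl hv))

private theorem ro9_lbi {w μ Mc r' : ℤ} (hw : w % 2 = 1) (hw0 : 0 < w) (hμ : μ % 2 = 1)
    (hμ0 : 0 < μ) (c₀ : Bool) (s k : Fin 4 → ℤ) (i : Fin 4) :
    lbi w μ Mc (colr c₀ i) (s i) (k i) ⊆
      (inP w μ (μ * Mc + μ / 2) r' c₀ s k i).reg w := by
  rw [lbi_eq hw hw0 hμ hμ0]
  intro v hv
  exact Or.inl (Or.inl (Or.inl hv))

/-- ROUTING OUTWARD.  From the landing positions outside `bx R`, `R = (μ Mc + μ/2) w + w/2`, to the zones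
`J s R'`, `R + (μ + 10) w ≤ R' ≤ 4 R`; `G` contains all sites with `R < nrm v ≤ 2 R'`. -/
theorem route_out_pf (κ : ℕ → ℝ) (μ Mc : ℤ) (hμ : μ % 2 = 1) (hμ0 : 0 < μ) (hM : 0 < Mc) (c₀ : Bool)
    (s k : Fin 4 → ℤ) (hl : Land μ (μ * Mc + μ / 2) c₀ s k) :
    ∃ (p : ℝ) (w₀ : ℤ), 0 < p ∧ 0 < w₀ ∧ ∀ L : Lat, RSW L κ → ∀ w r R' : ℤ, w % 2 = 1 → w₀ ≤ w →
      1 ≤ r → 2 * r ≤ (μ * Mc + μ / 2) * w + w / 2 →
      (μ * Mc + μ / 2) * w + w / 2 + (μ + 10) * w ≤ R' →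
      R' ≤ 4 * ((μ * Mc + μ / 2) * w + w / 2) → ∀ G : Finset Pt,
      (∀ v, (μ * Mc + μ / 2) * w + w / 2 < nrm v → nrm v ≤ 2 * R' → v ∈ G) → ∀ ω : Cfg,
      p * cpr G (L.E2o r w μ Mc c₀ s k) ω ≤ cpr G (L.Sout r R') ω := by
  by_cases hκ : 0 < κ (16 * (μ * Mc + μ / 2 + μ + 10)).toNat
  swap
  · exact ⟨1, 1, one_pos, one_pos, fun L hL => absurd (hL.pos _) hκ⟩
  refine ⟨(κ (16 * (μ * Mc + μ / 2 + μ + 10)).toNat ^ 8) ^ 8, 5, by positivity, by norm_num, ?_⟩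
  intro L hL w r R' hw hw5 hr hrR h1 h2 G hG ω
  have hw0 : 0 < w := by omega
  have hM := ro9_M hμ0 hl
  have hw2 : 0 ≤ w / 2 := by omega
  have hMw : 0 ≤ (μ * Mc + μ / 2) * w := by positivity
  have hμw : 0 < (μ + 10) * w := by positivity
  have hR' : 0 ≤ R' := by omega
  have hok := fun i => outP_ok hw hw5 hμ hμ0 hl h1 h2 i
  refine ro_engine (c₀ := c₀)
    (F := fun i => L.Arm (colr c₀ i)
      (ann r ((μ * Mc + μ / 2) * w + w / 2) ∪ lbo w μ Mc (colr c₀ i) (s i) (k i)) (L.nb (bx r))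
      (lbo w μ Mc (colr c₀ i) (s i) (k i) ∩
        rng ((μ * Mc + μ / 2) * w + w / 2 + lw w μ (colr c₀ i))))
    (V := fun i => L.PathE (colr c₀ i) w (outP w μ (μ * Mc + μ / 2) R' c₀ s k i))
    (S := fun i => ann r ((μ * Mc + μ / 2) * w + w / 2) ∪ lbo w μ Mc (colr c₀ i) (s i) (k i))
    (D := fun i => (outP w μ (μ * Mc + μ / 2) R' c₀ s k i).reg w)
    (by positivity) (fun _ => Iff.rfl) (fun i => Lat.Arm.mon L _ _ _ _)
    (fun i => Lat.Arm.dep L _ _ _ _) (fun i => Lat.PathE.mon L _ _ _)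
    (fun i => Lat.PathE.dep L _ _ _) ?_ (fun i => path_pr hL _ hw hw5 (hok i)) ?_ ?_ ?_ ω
  · intro i v hv
    obtain ⟨a1, a2, -⟩ := out_reg hw hw5 hμ hμ0 hl h1 i hv
    exact hG v a1 a2
  · intro i j hij
    rw [Set.disjoint_left]
    rintro v (hv | hv) hv'
    · have h3 : nrm v ≤ (μ * Mc + μ / 2) * w + w / 2 := hv.2
      have h4 := (out_reg hw hw5 hμ hμ0 hl h1 j hv').1
      omega
    · exact Set.disjoint_left.1 (out_disj hw hw0 hμ hμ0 hl hR' (ro9_ne hij))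
        (ro9_lbo hw hw0 hμ hμ0 c₀ s k i hv) hv'
  · intro i j hij
    exact out_disj hw hw0 hμ hμ0 hl hR' (ro9_ne hij)
  · intro ω' hF hV
    exact sout_of fun i => glue_out hw hw5 hμ hμ0 hl hr hrR h1 h2 i (hF i) (hV i)

/-- ROUTING INWARD.  From the landing positions inside `bx r`, `r = (μ Mc + μ/2) w + w/2`, to the zones
`K s r'`, `r ≤ 4 r'`, `r' + (μ + 10) w ≤ r`; `G` contains all sites with `r' / 2 < nrm v ≤ r`. -/
theorem route_in_pf (κ : ℕ → ℝ) (μ Mc : ℤ) (hμ : μ % 2 = 1) (hμ0 : 0 < μ) (hM : 0 < Mc) (c₀ : Bool)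
    (s k d : Fin 4 → ℤ) (hl : Land μ (μ * Mc + μ / 2) c₀ s k) (hd : Dirs c₀ d) :
    ∃ (p : ℝ) (w₀ : ℤ), 0 < p ∧ 0 < w₀ ∧ ∀ L : Lat, RSW L κ → ∀ w R r' : ℤ, w % 2 = 1 → w₀ ≤ w →
      2 * ((μ * Mc + μ / 2) * w + w / 2) ≤ R →
      r' + (μ + 10) * w ≤ (μ * Mc + μ / 2) * w + w / 2 →
      (μ * Mc + μ / 2) * w + w / 2 ≤ 4 * r' → ∀ G : Finset Pt,
      (∀ v, r' / 2 < nrm v → nrm v ≤ (μ * Mc + μ / 2) * w + w / 2 → v ∈ G) → ∀ ω : Cfg,
      p * cpr G (L.E2i w μ Mc R c₀ s k d) ω ≤ cpr G (L.S4 r' R) ω := by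
  by_cases hκ : 0 < κ (16 * (μ * Mc + μ / 2 + μ + 10)).toNat
  swap
  · exact ⟨1, 1, one_pos, one_pos, fun L hL => absurd (hL.pos _) hκ⟩
  refine ⟨(κ (16 * (μ * Mc + μ / 2 + μ + 10)).toNat ^ 8) ^ 8, 5, by positivity, by norm_num, ?_⟩
  intro L hL w R r' hw hw5 hR h1 h2 G hG ω
  have hw0 : 0 < w := by omega
  have hM := ro9_M hμ0 hl
  have hw2 : 0 ≤ w / 2 := by omega
  have hMw : 0 < (μ * Mc + μ / 2) * w := by positivity
  have h2w : 2 * w ≤ r' := by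
    have := in_rw hw5 hμ0 hl h2
    omega
  have hok := fun i => inP_ok hw hw5 hμ hμ0 hl h1 h2 i
  refine ro_engine (c₀ := c₀)
    (F := fun i => L.Arm (colr c₀ i)
      (ann ((μ * Mc + μ / 2) * w + w / 2) R ∪ Jc (colr c₀ i) R ∪
        lbi w μ Mc (colr c₀ i) (s i) (k i))
      (lbi w μ Mc (colr c₀ i) (s i) (k i) ∩
        rng ((μ * Mc + μ / 2) * w + w / 2 - lw w μ (colr c₀ i) + 1)) (Je (d i) R))
    (V := fun i => L.PathE (colr c₀ i) w (inP w μ (μ * Mc + μ / 2) r' c₀ s k i))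
    (S := fun i => ann ((μ * Mc + μ / 2) * w + w / 2) R ∪ Jc (colr c₀ i) R ∪
        lbi w μ Mc (colr c₀ i) (s i) (k i))
    (D := fun i => (inP w μ (μ * Mc + μ / 2) r' c₀ s k i).reg w)
    (by positivity) (fun _ => Iff.rfl) (fun i => Lat.Arm.mon L _ _ _ _)
    (fun i => Lat.Arm.dep L _ _ _ _) (fun i => Lat.PathE.mon L _ _ _)
    (fun i => Lat.PathE.dep L _ _ _) ?_ (fun i => path_pr hL _ hw hw5 (hok i)) ?_ ?_ ?_ ω
  · intro i v hv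
    obtain ⟨a1, a2, -⟩ := in_reg hw hw5 hμ hμ0 hl h1 h2 i hv
    exact hG v a1 a2
  · intro i j hij
    rw [Set.disjoint_left]
    rintro v ((hv | hv) | hv) hv'
    · have h3 : (μ * Mc + μ / 2) * w + w / 2 < nrm v := hv.1
      have h4 := (in_reg hw hw5 hμ hμ0 hl h1 h2 j hv').2.1
      omega
    · have h3 : R < nrm v := by
        rcases hv with hv | hv
        · exact ro_J_nrm (by omega) hv
        · exact ro_J_nrm (by omega) hv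
      have h4 := (in_reg hw hw5 hμ hμ0 hl h1 h2 j hv').2.1
      omega
    · exact Set.disjoint_left.1 (in_disj hw hw0 hμ hμ0 hl h2w (ro9_ne hij))
        (ro9_lbi hw hw0 hμ hμ0 c₀ s k i hv) hv'
  · intro i j hij
    exact in_disj hw hw0 hμ hμ0 hl h2w (ro9_ne hij)
  · intro ω' hF hV
    exact s4_of hd fun i => glue_in hw hw5 hμ hμ0 hl hR h1 h2 i (hF i) (hV i)

end SC
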