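import Pool.Agent.Lib_MP_e0a489.TTH9

/-!
# MP_e0a489, module TTQ (9g): two-time bound beyond the correlation length, corner
-/

set_option autoImplicit false

namespace SC

variable [IfL] [IfX]

open Classical

theorem tt_quart {L : Lat} {κ : ℕ → ℝ} (h : Fam L κ) {x₀ : Pt}
    (hc : ∀ m : ℤ, 8 ≤ m → CoreOK (L.shift x₀) m) :
    ∃ R₁ : ℤ, 16 ≤ R₁ ∧ ∀ R₀ : ℤ, R₁ ≤ R₀ → ∃ (M : ℝ) (Λ : ℤ), 0 < M ∧ 1 ≤ Λ ∧
      QuartOK L M Λ R₀ :=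
  tt_quart_of h hc (kbh_one h hc)

end SC
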