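import Pool.Agent.Lib_MP_e0a489.TTB9
import Pool.Agent.Lib_MP_e0a489.TTQ9

/-!
# MP_e0a489, module TT: two-time bounds beyond the correlation length (interface)
-/

set_option autoImplicit false

namespace SC

variable [IfL] [IfX]

open Classical

/-- maximum of the constants of the three theorems -/
theorem two_time_pf {L : Lat} {κ : ℕ → ℝ} (h : Fam L κ) {x₀ : Pt}
    (hc : ∀ m : ℤ, 8 ≤ m → CoreOK (L.shift x₀) m) (R₁ : ℤ) :
    ∃ (M : ℝ) (Λ R₀ : ℤ), 0 < M ∧ 1 ≤ Λ ∧ 16 ≤ R₀ ∧ R₁ ≤ R₀ ∧ TTProps L M Λ R₀ := by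
  obtain ⟨r1, hr1, h1⟩ := tt_bulk h hc
  obtain ⟨r2, hr2, h2⟩ := tt_half h hc
  obtain ⟨r3, hr3, h3⟩ := tt_quart h hc
  have e1 : r1 ≤ max (max r1 r2) (max r3 R₁) := (le_max_left _ _).trans (le_max_left _ _)
  have e2 : r2 ≤ max (max r1 r2) (max r3 R₁) := (le_max_right _ _).trans (le_max_left _ _)
  have e3 : r3 ≤ max (max r1 r2) (max r3 R₁) := (le_max_left _ _).trans (le_max_right _ _)
  have e4 : R₁ ≤ max (max r1 r2) (max r3 R₁) := (le_max_right _ _).trans (le_max_right _ _)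
  generalize max (max r1 r2) (max r3 R₁) = R₀ at e1 e2 e3 e4
  obtain ⟨M1, Λ1, hM1, hΛ1, k1⟩ := h1 R₀ e1
  obtain ⟨M2, Λ2, hM2, hΛ2, k2⟩ := h2 R₀ e2
  obtain ⟨M3, Λ3, hM3, hΛ3, k3⟩ := h3 R₀ e3
  have m1 : M1 ≤ max M1 (max M2 M3) := le_max_left _ _
  have m2 : M2 ≤ max M1 (max M2 M3) := (le_max_left _ _).trans (le_max_right _ _)
  have m3 : M3 ≤ max M1 (max M2 M3) := (le_max_right _ _).trans (le_max_right _ _)
  have l1 : Λ1 ≤ max Λ1 (max Λ2 Λ3) := le_max_left _ _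
  have l2 : Λ2 ≤ max Λ1 (max Λ2 Λ3) := (le_max_left _ _).trans (le_max_right _ _)
  have l3 : Λ3 ≤ max Λ1 (max Λ2 Λ3) := (le_max_right _ _).trans (le_max_right _ _)
  generalize max M1 (max M2 M3) = M at m1 m2 m3
  generalize max Λ1 (max Λ2 Λ3) = Λ at l1 l2 l3
  have ha : ∀ r R : ℤ, 0 ≤ al L r R := by
    intro r R
    unfold al
    split_ifs
    · exact pr_nonneg _
    · exact zero_le_one
  have hl : ∀ {Λ' ℓ r : ℤ}, Λ' ≤ Λ → R₀ ≤ ℓ → Λ * ℓ ≤ r → Λ' * ℓ ≤ r := by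
    intro Λ' ℓ r a b c
    have : 0 ≤ ℓ := by linarith
    nlinarith
  refine ⟨M, Λ, R₀, by linarith, by linarith, by linarith, e4, ⟨?_, ?_, ?_⟩⟩
  · intro ℓ t hℓ hb c x r R hr hrR
    exact (k1 ℓ t hℓ hb c x r R (hl l1 hℓ hr) hrR).trans
      (mul_le_mul_of_nonneg_right m1 (sq_nonneg _))
  · intro ℓ t hℓ hb s c x H r R hH hr hrR
    exact (k2 ℓ t hℓ hb s c x H r R hH (hl l2 hℓ hr) hrR).trans
      (mul_le_mul_of_nonneg_right m2 (Real.rpow_nonneg (ha r R) _))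
  · intro ℓ t hℓ hb s x H r R hH hr hrR
    exact (k3 ℓ t hℓ hb s x H r R hH (hl l3 hℓ hr) hrR).trans
      (mul_le_mul_of_nonneg_right m3 (ha r R))

end SC
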