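import Pool.Agent.Lib_MP_e0a489.XP19

/-!
# MP_e0a489, exponents 20: lower bound
-/

set_option autoImplicit false

namespace SC

variable [IfL]

namespace XP

open Classical

/-- Choice of `K`.  Let `v = κ 1 ^ 2 ∈ (0, 1]`, `δ = C' (2 M + 1) ^ (-c)`, `Y = (v / (2 δ)) ^ (1/2)`, `K = ⌊Y⌋`.  `K ^ 2 δ ≤ v / 2`, so the left side of the hypothesis is at least
`K v / 2`.  If `Y ≥ 1` then `K ≥ Y / 2`, so `C T ≥ Y v / 4 = v / 4 (v / (2 C')) ^ (1/2) (2 M + 1) ^ (c/2)`, and `(2 M + 1) ^ (c/2) ≥ (M + 1) ^ (c/2)`.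
If `Y < 1` then `(2 M + 1) ^ c < 2 C' / v`, and the bound follows from `T ≥ t₀` if the constant is large.  `T` stands for
`(M + 1) ^ 2 al`. -/
theorem choose_K {v C C' c t₀ : ℝ} (hv : 0 < v) (hv1 : v ≤ 1) (hC : 1 ≤ C) (hC' : 0 < C') (hc : 0 < c)
    (hc1 : c ≤ 1 / 2) (ht : 0 < t₀) : ∃ A : ℝ, 0 < A ∧ ∀ (M T : ℝ), 0 ≤ M → t₀ ≤ T →
      (∀ K : ℕ, K * (v - (K : ℝ) ^ 2 * (C' * (2 * M + 1) ^ (-c))) ≤ C * T) →
      (M + 1) ^ (c / 2) ≤ A * T := by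
  set s : ℝ := Real.sqrt (v / (2 * C')) with hs
  have hs0 : 0 < s := Real.sqrt_pos.2 (by positivity)
  have hs2 : s ^ 2 = v / (2 * C') := Real.sq_sqrt (by positivity)
  have hCp : 0 < C := by linarith
  refine ⟨4 * C / (v * s) + 1 / (s * t₀), by positivity, ?_⟩
  intro M T hM hT h
  have hT0 : 0 < T := lt_of_lt_of_le ht hT
  have hb : (0 : ℝ) < 2 * M + 1 := by linarith
  set X : ℝ := (2 * M + 1) ^ (c / 2) with hX
  have hX0 : 0 < X := Real.rpow_pos_of_pos hb _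
  have hXM : (M + 1) ^ (c / 2) ≤ X :=
    Real.rpow_le_rpow (by linarith) (by linarith) (by positivity)
  have hX2 : (2 * M + 1) ^ (-c) = (X ^ 2)⁻¹ := by
    rw [Real.rpow_neg hb.le, hX, ← Real.rpow_natCast, ← Real.rpow_mul hb.le]
    congr 2
    push_cast
    ring
  rcases le_or_gt 1 (s * X) with h1 | h1
  · have hK1 : 1 ≤ ⌊s * X⌋₊ := Nat.le_floor (by simpa using h1)
    have hK1' : (1 : ℝ) ≤ (⌊s * X⌋₊ : ℝ) := by exact_mod_cast hK1
    have hK2 : (⌊s * X⌋₊ : ℝ) ≤ s * X := Nat.floor_le (by positivity)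
    have hK3 : s * X < (⌊s * X⌋₊ : ℝ) + 1 := Nat.lt_floor_add_one _
    have hh := h ⌊s * X⌋₊
    rw [hX2] at hh
    set K : ℝ := (⌊s * X⌋₊ : ℝ) with hK
    have hKd : K ^ 2 * (C' * (X ^ 2)⁻¹) ≤ v / 2 := by
      have e1 : (s * X) ^ 2 * (C' * (X ^ 2)⁻¹) = v / 2 := by
        rw [mul_pow, hs2]
        field_simp
      rw [← e1]
      refine mul_le_mul_of_nonneg_right ?_ (by positivity)
      exact pow_le_pow_left₀ (by linarith) hK2 2
    have h3 : K * (v / 2) ≤ C * T := by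
      refine le_trans ?_ hh
      exact mul_le_mul_of_nonneg_left (by linarith) (by linarith)
    have h4 : s * X / 2 * (v / 2) ≤ C * T := by
      refine le_trans ?_ h3
      exact mul_le_mul_of_nonneg_right (by linarith) (by positivity)
    have h5 : X ≤ 4 * C / (v * s) * T := by
      rw [div_mul_eq_mul_div, le_div_iff₀ (by positivity)]
      nlinarith
    have h6 : 0 ≤ 1 / (s * t₀) * T := by positivity
    nlinarith
  · have h5 : X ≤ 1 / (s * t₀) * T := by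
      have h7 : X ≤ 1 / s := by
        rw [le_div_iff₀ hs0]
        linarith [mul_comm s X]
      have h8 : 1 / s ≤ 1 / (s * t₀) * T := by
        rw [div_mul_eq_mul_div, div_le_div_iff₀ hs0 (by positivity)]
        nlinarith
      exact h7.trans h8
    have h6 : 0 ≤ 4 * C / (v * s) * T := by positivity
    nlinarith

/-- LOWER BOUND at the radii `r`, `(M + 1) w`: `many`, `choose_K` with `T = (M + 1) ^ 2 al L r ((M + 1) w)`; `T ≥ t₀` by `apriori`: `(r / ((M + 1) w)) ^ 2 ≤ C al` and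
`w ≤ 3 r`.  So `1 / (M + 1) ^ (2 - c') ≤ A al`, `c' = c / 2`. -/
theorem al_low_M (κ : ℕ → ℝ) (h1 : 0 < κ 1) (h2 : κ 1 ≤ 1) : ∃ (C c : ℝ) (R₀ : ℤ), 0 < C ∧ 0 < c ∧ c ≤ 1 / 4 ∧ 16 ≤ R₀ ∧
    ∀ L : Lat, Fam L κ → ∀ r M : ℤ, R₀ ≤ r → 0 ≤ M →
      (1 / ((M : ℝ) + 1)) ^ (2 - c) ≤ C * al L r ((M + 1) * (2 * r + 1)) := by
  obtain ⟨C₁, C', c, R₁, hC₁, hC', hc, hc2, hR₁, hmany⟩ := many κ
  obtain ⟨C₂, R₂, hC₂, hR₂, hap⟩ := apriori κ
  obtain ⟨A, hA, hch⟩ := choose_K (v := κ 1 ^ 2) (t₀ := 1 / (9 * C₂)) (by positivity)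
    (pow_le_one₀ h1.le h2) hC₁ hC' hc hc2 (by positivity)
  refine ⟨A, c / 2, max R₁ R₂, hA, by positivity, by linarith, le_trans hR₁ (le_max_left _ _), ?_⟩
  intro L hL r M hr hM
  have hr1 : R₁ ≤ r := le_trans (le_max_left _ _) hr
  have hr2 : R₂ ≤ r := le_trans (le_max_right _ _) hr
  have hr0 : 16 ≤ r := le_trans hR₁ hr1
  have hM0 : (0 : ℝ) ≤ (M : ℝ) := by exact_mod_cast hM
  have hrr : (16 : ℝ) ≤ (r : ℝ) := by exact_mod_cast hr0
  have hle : r ≤ (M + 1) * (2 * r + 1) := by nlinarith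
  have hap' := hap L hL r ((M + 1) * (2 * r + 1)) hr2 hle
  have hmany' := hmany L hL r M hr1 hM
  set a : ℝ := al L r ((M + 1) * (2 * r + 1)) with ha
  have hT : 1 / (9 * C₂) ≤ ((M : ℝ) + 1) ^ 2 * a := by
    have e1 : (1 / (3 * ((M : ℝ) + 1))) ^ 2 ≤ C₂ * a := by
      refine le_trans (pow_le_pow_left₀ (by positivity) ?_ 2) hap'
      push_cast
      rw [div_le_div_iff₀ (by positivity) (by positivity)]
      nlinarith
    rw [div_pow, one_pow, div_le_iff₀ (by positivity)] at e1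
    rw [div_le_iff₀ (by positivity)]
    nlinarith
  have hfin := hch (M : ℝ) _ hM0 hT hmany'
  have hM1 : (0 : ℝ) < (M : ℝ) + 1 := by linarith
  have e2 : (1 / ((M : ℝ) + 1)) ^ (2 - c / 2) = ((M : ℝ) + 1) ^ (c / 2) / ((M : ℝ) + 1) ^ 2 := by
    rw [one_div, Real.inv_rpow hM1.le, ← Real.rpow_neg hM1.le, ← Real.rpow_natCast,
      ← Real.rpow_sub hM1]
    congr 1
    push_cast
    ring
  rw [e2, div_le_iff₀ (by positivity)]
  linarith

/-- LOWER BOUND.  `M = R / (2 r + 1)` (integer part): `R ≤ (M + 1) w`, so `al L r ((M + 1) w) ≤ al L r R` (`AlProps.mono`), and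
`M + 1 ≤ R / (2 r + 1) + 1 ≤ 2 R / r`, so `(r / R) ^ (2 - c) ≤ 4 (1 / (M + 1)) ^ (2 - c)`.  If `κ 1 ≤ 0` or `κ 1 > 1` there is no lattice with `RSW L κ`
(`RSW.pos`, `RSW.hx'` and `pr_le_one`). -/
theorem al_low (κ : ℕ → ℝ) : ∃ (C c : ℝ) (R₀ : ℤ), 0 < C ∧ 0 < c ∧ c ≤ 1 / 4 ∧ 16 ≤ R₀ ∧
    ∀ L : Lat, Fam L κ → ∀ r R : ℤ, R₀ ≤ r → r ≤ R →
      ((r : ℝ) / R) ^ (2 - c) ≤ C * al L r R := by
  by_cases hκ : 0 < κ 1 ∧ κ 1 ≤ 1
  · obtain ⟨C, c, R₁, hC, hc, hc4, hR₁, h⟩ := al_low_M κ hκ.1 hκ.2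
    obtain ⟨CA, RA, hAl⟩ := al_props κ
    refine ⟨4 * C, c, R₁, by positivity, hc, hc4, hR₁, ?_⟩
    intro L hL r R hr hrR
    have hr0 : 16 ≤ r := le_trans hR₁ hr
    have hrr : (16 : ℝ) ≤ (r : ℝ) := by exact_mod_cast hr0
    have hRr : (r : ℝ) ≤ (R : ℝ) := by exact_mod_cast hrR
    have hw0 : 0 < 2 * r + 1 := by omega
    have hM0 : 0 ≤ R / (2 * r + 1) := Int.ediv_nonneg (by omega) hw0.le
    have hup : R ≤ (R / (2 * r + 1) + 1) * (2 * r + 1) := by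
      have := Int.lt_ediv_add_one_mul_self R hw0
      exact this.le
    have hlo : R / (2 * r + 1) * (2 * r + 1) ≤ R := Int.ediv_mul_le R hw0.ne'
    have h1 := h L hL r (R / (2 * r + 1)) hr hM0
    have hmono := (hAl L hL).mono r R r ((R / (2 * r + 1) + 1) * (2 * r + 1)) (by omega) le_rfl
      hrR hup
    generalize R / (2 * r + 1) = M at hM0 hup hlo h1 hmono
    have hM0' : (0 : ℝ) ≤ (M : ℝ) := by exact_mod_cast hM0
    have hlo' : (M : ℝ) * (2 * r + 1) ≤ R := by exact_mod_cast hlo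
    have hR0 : (0 : ℝ) < (R : ℝ) := by linarith
    have hr0' : (0 : ℝ) < (r : ℝ) := by linarith
    have e1 : (r : ℝ) / R ≤ 2 * (1 / ((M : ℝ) + 1)) := by
      rw [mul_one_div, div_le_div_iff₀ hR0 (by positivity)]
      nlinarith
    have e2 : ((r : ℝ) / R) ^ (2 - c) ≤ (2 * (1 / ((M : ℝ) + 1))) ^ (2 - c) :=
      Real.rpow_le_rpow (by positivity) e1 (by linarith)
    rw [Real.mul_rpow (by norm_num) (by positivity)] at e2
    have e3 : (2 : ℝ) ^ (2 - c) ≤ 4 := by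
      calc (2 : ℝ) ^ (2 - c) ≤ (2 : ℝ) ^ (2 : ℝ) :=
            Real.rpow_le_rpow_of_exponent_le (by norm_num) (by linarith)
        _ = 4 := by norm_num
    have e4 : 0 ≤ (1 / ((M : ℝ) + 1)) ^ (2 - c) := by positivity
    have e5 : (2 : ℝ) ^ (2 - c) * (1 / ((M : ℝ) + 1)) ^ (2 - c) ≤
        4 * (C * al L r ((M + 1) * (2 * r + 1))) := by
      refine le_trans (mul_le_mul_of_nonneg_right e3 e4) ?_
      exact mul_le_mul_of_nonneg_left h1 (by norm_num)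
    have e6 : C * al L r ((M + 1) * (2 * r + 1)) ≤ C * al L r R :=
      mul_le_mul_of_nonneg_left hmono hC.le
    linarith
  · refine ⟨1, 1 / 4, 16, one_pos, by norm_num, le_rfl, le_rfl, ?_⟩
    intro L hL r R _ _
    exfalso
    refine hκ ⟨hL.rsw.pos 1, ?_⟩
    exact (hL.rsw.hx 1 true 4 0 0 le_rfl le_rfl).trans (pr_le_one _)

end XP

end SC
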