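import Pool.Agent.Lib_MP_e0a489.XP13
import Pool.Agent.Lib_MP_e0a489.XP20

/-!
# MP_e0a489, module XP: exponents
-/

set_option autoImplicit false

namespace SC

variable [IfL]

open Classical

/-- upper bound `(r / R) ^ (1 + c)` -/
theorem al_upper_pf {L : Lat} {κ : ℕ → ℝ} (h : Fam L κ) : ∃ (C c : ℝ) (R₀ : ℤ), 0 < C ∧ 0 < c ∧
    c ≤ 1 / 2 ∧ 16 ≤ R₀ ∧ ∀ r R : ℤ, R₀ ≤ r → r ≤ R → al L r R ≤ C * ((r : ℝ) / R) ^ (1 + c) := by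
  obtain ⟨C, c, R₀, h1, h2, h3, h4, h5⟩ := XP.al_up κ
  exact ⟨C, c, R₀, h1, h2, by linarith, by omega, h5 L h⟩

/-- lower bound `(r / R) ^ (2 - c)` -/
theorem al_lower_pf {L : Lat} {κ : ℕ → ℝ} (h : Fam L κ) : ∃ (C c : ℝ) (R₀ : ℤ), 0 < C ∧ 0 < c ∧
    c ≤ 1 / 2 ∧ 16 ≤ R₀ ∧ ∀ r R : ℤ, R₀ ≤ r → r ≤ R → ((r : ℝ) / R) ^ (2 - c) ≤ C * al L r R := by
  obtain ⟨C, c, R₀, h1, h2, h3, h4, h5⟩ := XP.al_low κ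
  exact ⟨C, c, R₀, h1, h2, by linarith, h4, h5 L h⟩

end SC
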