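import Pool.Agent.Lib_MP_e0a489.IS9
import Pool.Agent.Lib_MP_e0a489.IfT
import Pool.Agent.Lib_MP_e0a489.OS9
import Pool.Agent.Lib_MP_e0a489.RO9
import Pool.Agent.Lib_MP_e0a489.TT9
import Pool.Agent.Lib_MP_e0a489.XP9

/-!
# MP_e0a489: the interfaces hold
-/

set_option autoImplicit false

namespace SC

instance ifL : IfL := ⟨outer_land_pf, inner_land_pf, route_out_pf, route_in_pf⟩

instance ifX : IfX := ⟨al_upper_pf, al_lower_pf⟩

instance ifT : IfT := ⟨two_time_pf⟩

end SC
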