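import Pool.Agent.Lib_MP_e0a489.LD

/-!
# MP_e0a489: interface IfL (landing and routing statements)
-/

set_option autoImplicit false

namespace SC

open Classical

/-- landing and routing statements -/
class IfL : Prop where
  outer_land : ∀ (κ : ℕ → ℝ) (ε : ℝ) (hε : 0 < ε),
    ∃ (μ Mc w₀ : ℤ) (C : ℝ)
    (Λ : Finset (Bool × (Fin 4 → ℤ) × (Fin 4 → ℤ))), μ % 2 = 1 ∧ 0 < μ ∧ 0 < Mc ∧ 0 < w₀ ∧ 0 < C ∧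
    (∀ q ∈ Λ, Land μ (μ * Mc + μ / 2) q.1 q.2.1 q.2.2) ∧
    ∀ L : Lat, RSW L κ → ∀ w r : ℤ, w % 2 = 1 → w₀ ≤ w → 1 ≤ r →
      8 * r ≤ (μ * Mc + μ / 2) * w + w / 2 → ∀ G : Finset Pt,
      (∀ v, v ∈ G ↔ ((μ * Mc + μ / 2) * w + w / 2) / 2 < nrm v ∧
        nrm v ≤ (μ * Mc + μ / 2) * w + w / 2 + μ * w) → ∀ ω : Cfg,
      cpr G (L.TwoA true r ((μ * Mc + μ / 2) * w + w / 2)) ω ≤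
        ε * ind (L.TwoA true r (((μ * Mc + μ / 2) * w + w / 2) / 2)) ω +
          C * ∑ q ∈ Λ, cpr G (L.E2o r w μ Mc q.1 q.2.1 q.2.2) ω
  inner_land : ∀ (κ : ℕ → ℝ) (ε : ℝ) (hε : 0 < ε),
    ∃ (μ Mc w₀ : ℤ) (C : ℝ)
    (Λ : Finset (Bool × (Fin 4 → ℤ) × (Fin 4 → ℤ) × (Fin 4 → ℤ))), μ % 2 = 1 ∧ 0 < μ ∧ 0 < Mc ∧
    0 < w₀ ∧ 0 < C ∧
    (∀ q ∈ Λ, Land μ (μ * Mc + μ / 2) q.1 q.2.1 q.2.2.1 ∧ Dirs q.1 q.2.2.2) ∧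
    ∀ L : Lat, RSW L κ → ∀ w R : ℤ, w % 2 = 1 → w₀ ≤ w →
      8 * ((μ * Mc + μ / 2) * w + w / 2) ≤ R → ∀ G : Finset Pt,
      (∀ v, v ∈ G ↔ (μ * Mc + μ / 2) * w + w / 2 - μ * w < nrm v ∧
        nrm v ≤ 2 * ((μ * Mc + μ / 2) * w + w / 2)) → ∀ ω : Cfg,
      cpr G (L.Sout ((μ * Mc + μ / 2) * w + w / 2) R) ω ≤
        ε * ind (L.Sout (2 * ((μ * Mc + μ / 2) * w + w / 2)) R) ω +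
          C * ∑ q ∈ Λ, cpr G (L.E2i w μ Mc R q.1 q.2.1 q.2.2.1 q.2.2.2) ω
  route_out : ∀ (κ : ℕ → ℝ) (μ Mc : ℤ) (hμ : μ % 2 = 1) (hμ0 : 0 < μ) (hM : 0 < Mc) (c₀ : Bool)
    (s k : Fin 4 → ℤ) (hl : Land μ (μ * Mc + μ / 2) c₀ s k),
    ∃ (p : ℝ) (w₀ : ℤ), 0 < p ∧ 0 < w₀ ∧ ∀ L : Lat, RSW L κ → ∀ w r R' : ℤ, w % 2 = 1 → w₀ ≤ w →
      1 ≤ r → 2 * r ≤ (μ * Mc + μ / 2) * w + w / 2 →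
      (μ * Mc + μ / 2) * w + w / 2 + (μ + 10) * w ≤ R' →
      R' ≤ 4 * ((μ * Mc + μ / 2) * w + w / 2) → ∀ G : Finset Pt,
      (∀ v, (μ * Mc + μ / 2) * w + w / 2 < nrm v → nrm v ≤ 2 * R' → v ∈ G) → ∀ ω : Cfg,
      p * cpr G (L.E2o r w μ Mc c₀ s k) ω ≤ cpr G (L.Sout r R') ω
  route_in : ∀ (κ : ℕ → ℝ) (μ Mc : ℤ) (hμ : μ % 2 = 1) (hμ0 : 0 < μ) (hM : 0 < Mc) (c₀ : Bool)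
    (s k d : Fin 4 → ℤ) (hl : Land μ (μ * Mc + μ / 2) c₀ s k) (hd : Dirs c₀ d),
    ∃ (p : ℝ) (w₀ : ℤ), 0 < p ∧ 0 < w₀ ∧ ∀ L : Lat, RSW L κ → ∀ w R r' : ℤ, w % 2 = 1 → w₀ ≤ w →
      2 * ((μ * Mc + μ / 2) * w + w / 2) ≤ R →
      r' + (μ + 10) * w ≤ (μ * Mc + μ / 2) * w + w / 2 →
      (μ * Mc + μ / 2) * w + w / 2 ≤ 4 * r' → ∀ G : Finset Pt,
      (∀ v, r' / 2 < nrm v → nrm v ≤ (μ * Mc + μ / 2) * w + w / 2 → v ∈ G) → ∀ ω : Cfg,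
      p * cpr G (L.E2i w μ Mc R c₀ s k d) ω ≤ cpr G (L.S4 r' R) ω

theorem outer_land [IfL] (κ : ℕ → ℝ) (ε : ℝ) (hε : 0 < ε) :
    ∃ (μ Mc w₀ : ℤ) (C : ℝ)
    (Λ : Finset (Bool × (Fin 4 → ℤ) × (Fin 4 → ℤ))), μ % 2 = 1 ∧ 0 < μ ∧ 0 < Mc ∧ 0 < w₀ ∧ 0 < C ∧
    (∀ q ∈ Λ, Land μ (μ * Mc + μ / 2) q.1 q.2.1 q.2.2) ∧
    ∀ L : Lat, RSW L κ → ∀ w r : ℤ, w % 2 = 1 → w₀ ≤ w → 1 ≤ r →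
      8 * r ≤ (μ * Mc + μ / 2) * w + w / 2 → ∀ G : Finset Pt,
      (∀ v, v ∈ G ↔ ((μ * Mc + μ / 2) * w + w / 2) / 2 < nrm v ∧
        nrm v ≤ (μ * Mc + μ / 2) * w + w / 2 + μ * w) → ∀ ω : Cfg,
      cpr G (L.TwoA true r ((μ * Mc + μ / 2) * w + w / 2)) ω ≤
        ε * ind (L.TwoA true r (((μ * Mc + μ / 2) * w + w / 2) / 2)) ω +
          C * ∑ q ∈ Λ, cpr G (L.E2o r w μ Mc q.1 q.2.1 q.2.2) ω :=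
  IfL.outer_land κ ε hε

theorem inner_land [IfL] (κ : ℕ → ℝ) (ε : ℝ) (hε : 0 < ε) :
    ∃ (μ Mc w₀ : ℤ) (C : ℝ)
    (Λ : Finset (Bool × (Fin 4 → ℤ) × (Fin 4 → ℤ) × (Fin 4 → ℤ))), μ % 2 = 1 ∧ 0 < μ ∧ 0 < Mc ∧
    0 < w₀ ∧ 0 < C ∧
    (∀ q ∈ Λ, Land μ (μ * Mc + μ / 2) q.1 q.2.1 q.2.2.1 ∧ Dirs q.1 q.2.2.2) ∧
    ∀ L : Lat, RSW L κ → ∀ w R : ℤ, w % 2 = 1 → w₀ ≤ w →
      8 * ((μ * Mc + μ / 2) * w + w / 2) ≤ R → ∀ G : Finset Pt,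
      (∀ v, v ∈ G ↔ (μ * Mc + μ / 2) * w + w / 2 - μ * w < nrm v ∧
        nrm v ≤ 2 * ((μ * Mc + μ / 2) * w + w / 2)) → ∀ ω : Cfg,
      cpr G (L.Sout ((μ * Mc + μ / 2) * w + w / 2) R) ω ≤
        ε * ind (L.Sout (2 * ((μ * Mc + μ / 2) * w + w / 2)) R) ω +
          C * ∑ q ∈ Λ, cpr G (L.E2i w μ Mc R q.1 q.2.1 q.2.2.1 q.2.2.2) ω :=
  IfL.inner_land κ ε hε

theorem route_out [IfL] (κ : ℕ → ℝ) (μ Mc : ℤ) (hμ : μ % 2 = 1) (hμ0 : 0 < μ) (hM : 0 < Mc) (c₀ : Bool)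
    (s k : Fin 4 → ℤ) (hl : Land μ (μ * Mc + μ / 2) c₀ s k) :
    ∃ (p : ℝ) (w₀ : ℤ), 0 < p ∧ 0 < w₀ ∧ ∀ L : Lat, RSW L κ → ∀ w r R' : ℤ, w % 2 = 1 → w₀ ≤ w →
      1 ≤ r → 2 * r ≤ (μ * Mc + μ / 2) * w + w / 2 →
      (μ * Mc + μ / 2) * w + w / 2 + (μ + 10) * w ≤ R' →
      R' ≤ 4 * ((μ * Mc + μ / 2) * w + w / 2) → ∀ G : Finset Pt,
      (∀ v, (μ * Mc + μ / 2) * w + w / 2 < nrm v → nrm v ≤ 2 * R' → v ∈ G) → ∀ ω : Cfg,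
      p * cpr G (L.E2o r w μ Mc c₀ s k) ω ≤ cpr G (L.Sout r R') ω :=
  IfL.route_out κ μ Mc hμ hμ0 hM c₀ s k hl

theorem route_in [IfL] (κ : ℕ → ℝ) (μ Mc : ℤ) (hμ : μ % 2 = 1) (hμ0 : 0 < μ) (hM : 0 < Mc) (c₀ : Bool)
    (s k d : Fin 4 → ℤ) (hl : Land μ (μ * Mc + μ / 2) c₀ s k) (hd : Dirs c₀ d) :
    ∃ (p : ℝ) (w₀ : ℤ), 0 < p ∧ 0 < w₀ ∧ ∀ L : Lat, RSW L κ → ∀ w R r' : ℤ, w % 2 = 1 → w₀ ≤ w →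
      2 * ((μ * Mc + μ / 2) * w + w / 2) ≤ R →
      r' + (μ + 10) * w ≤ (μ * Mc + μ / 2) * w + w / 2 →
      (μ * Mc + μ / 2) * w + w / 2 ≤ 4 * r' → ∀ G : Finset Pt,
      (∀ v, r' / 2 < nrm v → nrm v ≤ (μ * Mc + μ / 2) * w + w / 2 → v ∈ G) → ∀ ω : Cfg,
      p * cpr G (L.E2i w μ Mc R c₀ s k d) ω ≤ cpr G (L.S4 r' R) ω :=
  IfL.route_in κ μ Mc hμ hμ0 hM c₀ s k d hl hd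

end SC
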