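import Pool.Agent.Lib_MP_e0a489.RC2

/-!
# MP_e0a489: landing positions and the events `E2o`, `E2i` (result of the two separation steps)

`w` odd: fine block size, `μ` odd, coarse block size `μ w`; `Mc`: number of coarse blocks, `M = μ Mc + μ / 2`
number of fine blocks, `R = M w + w / 2 = Mc (μ w) + (μ w) / 2`.  Four landing positions in counterclockwise order,
cut at the middle of the right side: position `i` is on side `s i` (`0 ≤ s i ≤ 4`, side `4` is the lower half of the
right side), open positions are coarse cells `k i`, closed positions are fine cells `k i`.  The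
colours alternate, `c₀` is the colour of position `0`.
-/

set_option autoImplicit false

namespace SC

open Classical

/-- colour of the position `i` -/
def colr (c₀ : Bool) (i : Fin 4) : Bool := if i.val % 2 = 0 then c₀ else !c₀

/-- number of the fine cell in the middle of the position -/
def fpos (μ : ℤ) (c₀ : Bool) (k : Fin 4 → ℤ) (i : Fin 4) : ℤ :=
  if colr c₀ i then μ * k i else k i

/-- half width in fine cells -/
def hwd (μ : ℤ) (c₀ : Bool) (i : Fin 4) : ℤ := if colr c₀ i then μ / 2 else 0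

/-- admissible landing positions -/
structure Land (μ M : ℤ) (c₀ : Bool) (s k : Fin 4 → ℤ) : Prop where
  side : ∀ i, 0 ≤ s i ∧ s i ≤ 4
  cor : ∀ i, |fpos μ c₀ k i| + 2 * μ + 20 ≤ M
  nz : ∀ i, k i ≠ 0
  first : 0 < s 0 ∨ (s 0 = 0 ∧ 0 < k 0)
  last : s 3 < 4 ∨ (s 3 = 4 ∧ k 3 < 0)
  ord : ∀ i j, i < j → s i < s j ∨
    (s i = s j ∧ fpos μ c₀ k i + hwd μ c₀ i < fpos μ c₀ k j - hwd μ c₀ j)

/-- size of the landing block -/
def lw (w μ : ℤ) (c : Bool) : ℤ := if c then μ * w else w

/-- outer landing block: coarse for open arms, fine for closed arms -/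
def lbo (w μ Mc : ℤ) (c : Bool) (s k : ℤ) : Set Pt :=
  if c then ob (μ * w) Mc s k else ob w (μ * Mc + μ / 2) s k

/-- inner landing block -/
def lbi (w μ Mc : ℤ) (c : Bool) (s k : ℤ) : Set Pt :=
  if c then ib (μ * w) Mc s k else ib w (μ * Mc + μ / 2) s k

namespace Lat

/-- outer landing event: four arms from `bx r` to the far sides of the landing blocks outside `bx R`,
`R = (μ Mc + μ/2) w + w/2` -/
def E2o (L : Lat) (r w μ Mc : ℤ) (c₀ : Bool) (s k : Fin 4 → ℤ) (ω : Cfg) : Prop :=
  ∀ i, L.Arm (colr c₀ i)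
    (ann r ((μ * Mc + μ / 2) * w + w / 2) ∪ lbo w μ Mc (colr c₀ i) (s i) (k i)) (L.nb (bx r))
    (lbo w μ Mc (colr c₀ i) (s i) (k i) ∩
      rng ((μ * Mc + μ / 2) * w + w / 2 + lw w μ (colr c₀ i))) ω

/-- inner landing event: four arms from the far (inner) sides of the landing blocks inside `bx r`,
`r = (μ Mc + μ/2) w + w/2`, to the ends of the zones `J (d i) R` -/
def E2i (L : Lat) (w μ Mc R : ℤ) (c₀ : Bool) (s k d : Fin 4 → ℤ) (ω : Cfg) : Prop :=
  ∀ i, L.Arm (colr c₀ i)
    (ann ((μ * Mc + μ / 2) * w + w / 2) R ∪ Jc (colr c₀ i) R ∪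
      lbi w μ Mc (colr c₀ i) (s i) (k i))
    (lbi w μ Mc (colr c₀ i) (s i) (k i) ∩
      rng ((μ * Mc + μ / 2) * w + w / 2 - lw w μ (colr c₀ i) + 1)) (Je (d i) R) ω

end Lat

/-- the directions of the outer zones: a bijection for each colour -/
def Dirs (c₀ : Bool) (d : Fin 4 → ℤ) : Prop :=
  (∀ i, d i = dc (colr c₀ i) ∨ d i = dc (colr c₀ i) + 2) ∧ d 0 ≠ d 2 ∧ d 1 ≠ d 3

end SC
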