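import Pool.Agent.Lib_MP_e0a489.OS5
import Pool.Agent.Lib_MP_e0a489.SH5

/-!
# MP_e0a489, outer separation 6: first exploration, good coarse position

The bad event of the coarse scale: `BadW false (ann (R / 2) R) R (4 * β) ℓ β (12 * w)`, `48 w ≤ β`, `4 β ≤ ℓ`,
`R / 2 + ℓ < R`.
-/

set_option autoImplicit false

namespace SC

open Classical

/-- triangle inequality for `nrm` -/
theorem os_nrm_sub_ge (u v : Pt) : nrm v - nrm u ≤ nrm (u - v) := by
  have e1 : nrm v = max |v.1| |v.2| := rfl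
  have e2 : nrm u = max |u.1| |u.2| := rfl
  have e3 : nrm (u - v) = max |u.1 - v.1| |u.2 - v.2| := rfl
  rw [e1, e2, e3]
  have a1 := abs_sub_abs_le_abs_sub v.1 u.1
  have a2 := abs_sub_abs_le_abs_sub v.2 u.2
  rw [abs_sub_comm] at a1 a2
  have b1 := le_max_left |u.1| |u.2|
  have b2 := le_max_right |u.1| |u.2|
  have b3 := le_max_left |u.1 - v.1| |u.2 - v.2|
  have b4 := le_max_right |u.1 - v.1| |u.2 - v.2|
  rcases max_cases |v.1| |v.2| with ⟨h, _⟩ | ⟨h, _⟩ <;> rw [h] <;> omega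

/-- neighbours of `bx r` have norm at most `r + 1` (`Adj.near`) -/
theorem os_nb_bx_nrm {L : Lat} {r : ℤ} {v : Pt} (h : v ∈ L.nb (bx r)) : nrm v ≤ r + 1 := by
  obtain ⟨u, hu, ha⟩ := h
  have hu' : max |u.1| |u.2| ≤ r := hu
  obtain ⟨h1, h2⟩ := ha.near
  show max |v.1| |v.2| ≤ r + 1
  have a1 := abs_sub_abs_le_abs_sub v.1 u.1
  have a2 := abs_sub_abs_le_abs_sub v.2 u.2
  rw [abs_sub_comm] at a1 a2
  have b1 := (le_max_left _ _).trans hu'
  have b2 := (le_max_right _ _).trans hu'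
  exact max_le (by omega) (by omega)

private theorem os6_crn (s R : ℤ) (hR : 0 ≤ R) : nrm (rt s (R, R)) = R := by
  rw [nrm_rt]
  show max |R| |R| = R
  rw [max_self, abs_of_nonneg hR]

namespace Lat

variable {L : Lat}

/-- THE COARSE CELL of one open arm.  `V` is a component of `bx R \ C`, `y ∈ V` a site of the ring with an open path in
`ann r R` to a neighbour `x` of `bx r`.  Off the bad event there is a cell `(s, k)` with its triple in `V`.
Proof.  `y = rc R z` (`rc_surj`).  `good_pos` with `o = false`, `c = true`, `m = R`, `ρ = 4 β`, `D = bx R`, `D' = ann (R/2) R`,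
`E = ann r R`, `v = x`.  Distances: `nrm x ≤ r + 1`, `nrm (rc R z) = R = nrm (rt s (R, R))`, so
`nrm (x - ..) ≥ R - r - 1 ≥ ℓ ≥ 3 β` (`os_nrm_sub_ge`; `8 r ≤ R`, `R / 2 + ℓ < R`).  `hED`: `nrm v ≥ R - ℓ > R / 2`.  `hC`: a site of `C` on the ring
is outside `bx r`, so `os_C1_path`.  Conclusion: `z = 2 R s + y'`, `|y'| + 4 β < R`, `|k| w ≤ |y'| + 6 w`, `4 β ≥ 192 w`,
`R = M w + w / 2`: `|k| + 100 ≤ M`. -/
theorem os_coarse_cell {r R w M β ℓ : ℤ} {V : Set Pt} {x y : Pt} {ω : Cfg} (h : OPar r R w M)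
    (hβ : 48 * w ≤ β) (hℓ : 4 * β ≤ ℓ) (hℓR : R / 2 + ℓ < R)
    (hbad : ¬ L.BadW false (ann (R / 2) R) R (4 * β) ℓ β (12 * w) ω)
    (hV : L.Comp (bx R \ L.Cx false (bx R) (bx r) ω) V) (hy : y ∈ V) (hyR : nrm y = R)
    (hx : x ∈ L.nb (bx r)) (hp : L.Cn (ann r R ∩ L.col true ω) y x) :
    ∃ s k : ℤ, |k| + 100 ≤ M ∧ k ≠ 0 ∧ trip w R s k ⊆ V := by
  have hw0 := h.w0
  have hw5 := h.w5
  have hr1 := h.r1
  have hr8 := h.r8
  have hRw := h.Rw
  have hR1 : 1 ≤ R := by omega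
  have far : ∀ u ∈ L.nb (bx r), ∀ v : Pt, nrm v = R → ℓ ≤ nrm (u - v) := by
    intro u hu v hv
    have h1 := os_nb_bx_nrm hu
    have h2 := os_nrm_sub_ge u v
    omega
  obtain ⟨z, -, -, rfl⟩ := rc_surj hR1 hyR 0
  obtain ⟨s, k, y', hz, hy', hk0, hk1, hk2, htr⟩ := good_pos (o := false) (c := true) (m := R)
    (w := w) (ρ := 4 * β) (ℓ := ℓ) (β := β) (z := z) (D := bx R) (D' := ann (R / 2) R)
    (E := ann r R) (C := L.Cx false (bx R) (bx r) ω) (V := V) (ω := ω) (v := x)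
    h.od hw0 (by omega) hβ le_rfl hℓ hR1 hbad
    (fun v hv => by
      show nrm v ≤ R
      exact hv.2)
    (fun s v hv hd => by
      have h1 := os_nrm_sub_ge v (rt s (R, R))
      rw [os6_crn s R (by omega)] at h1
      exact ⟨by omega, hv.2⟩)
    (fun v hv => by
      show nrm v ≤ R
      exact le_of_eq hv)
    hV hy hp
    (by have := far x hx _ hyR; omega)
    (fun s => far x hx _ (os6_crn s R (by omega)))
    (fun i hi hiC => by
      have h1 : nrm (rc R i) = R := rc_nrm hR1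
      obtain ⟨u, hu, hc⟩ := os_C1_path hiC (by rw [h1]; omega)
      exact ⟨u, hc, by have := far u hu _ hyR; omega⟩)
  refine ⟨s, k, ?_, hk0, htr⟩
  have hy1 := neg_abs_le y'
  have hy2 := le_abs_self y'
  have hRe := h.eR
  have e1 : (k - 1) * w = k * w - w := by ring
  have e2 : (k + 1) * w = k * w + w := by ring
  rw [e1] at hk1
  rw [e2] at hk2
  have c1 : k * w < (M - 100) * w := by
    have : (M - 100) * w = M * w - 100 * w := by ring
    omega
  have c2 : (-(M - 100)) * w < k * w := by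
    have : (-(M - 100)) * w = 100 * w - M * w := by ring
    omega
  have d1 := lt_of_mul_lt_mul_right c1 hw0.le
  have d2 := lt_of_mul_lt_mul_right c2 hw0.le
  have d3 : |k| ≤ M - 100 := abs_le.2 ⟨by omega, by omega⟩
  omega

/-- CORNERS.  Off the bad event the explored sites of the ring are far from the corners.
Proof.  `i = 2 R s + y`, `|y| ≤ R` (`idx_side`).  If `R ≤ |y| + 4 β` then `crn_of` (`b = false`, `D = ann r R`, `D' = ann (R/2) R`, path from
`os_C1_path`) gives the bad event (distances as in `os_coarse_cell`).  So `|y| + 4 β < R`, `4 β ≥ 192 w`. -/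
theorem os_corner_C {r R w M β ℓ i : ℤ} {ω : Cfg} (h : OPar r R w M)
    (hβ : 48 * w ≤ β) (hℓ : 4 * β ≤ ℓ) (hℓR : R / 2 + ℓ < R)
    (hbad : ¬ L.BadW false (ann (R / 2) R) R (4 * β) ℓ β (12 * w) ω)
    (hi : rc R i ∈ L.Cx false (bx R) (bx r) ω) :
    ∃ s y : ℤ, i = 2 * R * s + y ∧ |y| + 100 * w ≤ R := by
  have hw0 := h.w0
  have hr1 := h.r1
  have hr8 := h.r8
  have hRw := h.Rw
  have hR1 : 1 ≤ R := by omega
  obtain ⟨s, y, hy, rfl⟩ := idx_side hR1 i
  refine ⟨s, y, rfl, ?_⟩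
  by_contra hcon
  apply hbad
  have h1 : nrm (rc R (2 * R * s + y)) = R := rc_nrm hR1
  obtain ⟨u, hu, hc⟩ := os_C1_path hi (by rw [h1]; omega)
  have h2 := os_nb_bx_nrm hu
  exact crn_of (b := false) hR1 hℓ hy (by omega) hc
    (fun s v hv hd => by
      have h1 := os_nrm_sub_ge v (rt s (R, R))
      rw [os6_crn s R (by omega)] at h1
      exact ⟨by omega, hv.2⟩)
    (fun s => by
      have h3 := os_nrm_sub_ge u (rt s (R, R))
      rw [os6_crn s R (by omega)] at h3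
      omega)

end Lat

end SC
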