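import Pool.Agent.Lib_MP_e0a489.OS2
import Pool.Agent.Lib_MP_e0a489.OS6
import Pool.Agent.Lib_MP_e0a489.SH7
import Pool.Agent.Lib_MP_e0a489.SH9

/-!
# MP_e0a489, outer separation 10: second exploration (open clusters attached to `bx r` and the coarse blocks)

`D₂ = OD2 R w M s₁ k₁ s₃ k₃ = bx R ∪` two coarse blocks, `S₂ = OS2 r w M s₁ k₁ s₃ k₃ = bx r ∪` two coarse blocks,
`C₂ = Cx true D₂ S₂ ω`, `D₂ \ S₂ = ann r R` (`os_D2_diff`).
-/

set_option autoImplicit false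

namespace SC

open Classical

namespace Lat

variable {L : Lat}

private theorem os10_comm (u v : Pt) : nrm (u - v) = nrm (v - u) := by
  show max |u.1 - v.1| |u.2 - v.2| = max |v.1 - u.1| |v.2 - u.2|
  rw [abs_sub_comm u.1, abs_sub_comm u.2]

private theorem os10_zero {r : ℤ} (hr : 1 ≤ r) : (0 : Pt) ∈ bx r := by
  show max |(0 : ℤ)| |(0 : ℤ)| ≤ r
  simp only [abs_zero, max_self]
  linarith

/-- An open arm to a coarse block is contained in the explored set: its last site is in the block, so in `S₂`, and all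
its sites are in `D₂` and open (`Cx_of_cn`).  In particular its first site is in `C₂`. -/
theorem Oarm.sub {r R w M s₁ k₁ s₃ k₃ s k : ℤ} {ω : Cfg} (h : OPar r R w M)
    (hsk : (s = s₁ ∧ k = k₁) ∨ (s = s₃ ∧ k = k₃)) (hA : L.Oarm true r R w M s k ω) :
    ∃ x ∈ L.nb (bx r), ∃ y ∈ ob w M s k,
      L.Cn (L.Cx true (OD2 R w M s₁ k₁ s₃ k₃) (OS2 r w M s₁ k₁ s₃ k₃) ω) x y := by
  obtain ⟨x, hx, y, hy, hxy⟩ := hA
  have hyo : y ∈ OS2 r w M s₁ k₁ s₃ k₃ := by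
    rcases hsk with ⟨rfl, rfl⟩ | ⟨rfl, rfl⟩
    · exact Or.inr (Or.inl hy.1)
    · exact Or.inr (Or.inr hy.1)
  have hob : ob w M s k ⊆ OD2 R w M s₁ k₁ s₃ k₃ := by
    rcases hsk with ⟨rfl, rfl⟩ | ⟨rfl, rfl⟩
    · exact fun z hz => Or.inr (Or.inl hz)
    · exact fun z hz => Or.inr (Or.inr hz)
  have hAD : (ann r R ∪ ob w M s k) ∩ L.col true ω ⊆ OD2 R w M s₁ k₁ s₃ k₃ := by
    rintro z ⟨hz | hz, -⟩
    · exact Or.inl hz.2
    · exact hob hz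
  have hsub : {z | L.Cn ((ann r R ∪ ob w M s k) ∩ L.col true ω) x z} ⊆
      L.Cx true (OD2 R w M s₁ k₁ s₃ k₃) (OS2 r w M s₁ k₁ s₃ k₃) ω := by
    intro z hz
    have hz' : L.Cn ((ann r R ∪ ob w M s k) ∩ L.col true ω) x z := hz
    exact Cx_of_cn hAD (fun v hv => Or.inr hv.2) (hz'.symm.trans hxy) (Cx_sup hyo)
  have hcon := con_cluster (L := L) ((ann r R ∪ ob w M s k) ∩ L.col true ω) x
  exact ⟨x, hx, y, hy.1, (hcon x (Cn.refl hxy.left) y hxy).mono hsub⟩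

/-- `C₂` is connected: `Cx_con'`.  Sites of `bx r` are joined in `bx r` (`con_bx`), sites of a block are joined in the block
(`os_con_ob`), and the arms join `bx r` to the two blocks in `C₂` (`Oarm.sub`). -/
theorem os_C2_con {r R w M s₁ k₁ s₃ k₃ : ℤ} {ω : Cfg} (h : OPar r R w M)
    (h1 : L.Oarm true r R w M s₁ k₁ ω) (h3 : L.Oarm true r R w M s₃ k₃ ω) :
    L.Con (L.Cx true (OD2 R w M s₁ k₁ s₃ k₃) (OS2 r w M s₁ k₁ s₃ k₃) ω) := by
  obtain ⟨x₁, hx₁, y₁, hy₁, c₁⟩ := Oarm.sub (s₁ := s₁) (k₁ := k₁) (s₃ := s₃) (k₃ := k₃) h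
    (Or.inl ⟨rfl, rfl⟩) h1
  obtain ⟨x₃, hx₃, y₃, hy₃, c₃⟩ := Oarm.sub (s₁ := s₁) (k₁ := k₁) (s₃ := s₃) (k₃ := k₃) h
    (Or.inr ⟨rfl, rfl⟩) h3
  have hSC : OS2 r w M s₁ k₁ s₃ k₃ ⊆
      L.Cx true (OD2 R w M s₁ k₁ s₃ k₃) (OS2 r w M s₁ k₁ s₃ k₃) ω := Cx_sup
  have hbx : ∀ u ∈ bx r, L.Cn (L.Cx true (OD2 R w M s₁ k₁ s₃ k₃)
      (OS2 r w M s₁ k₁ s₃ k₃) ω) u 0 := by
    intro u hu
    exact (con_bx (L := L) r u hu 0 (os10_zero h.r1)).mono (fun z hz => hSC (Or.inl hz))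
  have hnb : ∀ x ∈ L.nb (bx r), x ∈ L.Cx true (OD2 R w M s₁ k₁ s₃ k₃)
      (OS2 r w M s₁ k₁ s₃ k₃) ω → L.Cn (L.Cx true (OD2 R w M s₁ k₁ s₃ k₃)
      (OS2 r w M s₁ k₁ s₃ k₃) ω) x 0 := by
    rintro x ⟨b, hb, hbx'⟩ hx
    exact (Cn.of_adj hx (hSC (Or.inl hb)) hbx'.symm).trans (hbx b hb)
  have toO : ∀ u ∈ OS2 r w M s₁ k₁ s₃ k₃, L.Cn (L.Cx true (OD2 R w M s₁ k₁ s₃ k₃)
      (OS2 r w M s₁ k₁ s₃ k₃) ω) u 0 := by
    rintro u (hu | hu | hu)
    · exact hbx u hu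
    · exact (((os_con_ob (L := L) w M s₁ k₁ u hu y₁ hy₁).mono
        (fun z hz => hSC (Or.inr (Or.inl hz)))).trans c₁.symm).trans (hnb x₁ hx₁ c₁.left)
    · exact (((os_con_ob (L := L) w M s₃ k₃ u hu y₃ hy₃).mono
        (fun z hz => hSC (Or.inr (Or.inr hz)))).trans c₃.symm).trans (hnb x₃ hx₃ c₃.left)
  exact Cx_con' (fun u hu v hv => (toO u hu).trans (toO v hv).symm)

/-- An explored site of the ring has an open path in `ann r R` to a site `u` next to the source.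
Proof.  It is not in `S₂` (norm `R`), so it is in `cl true (D₂ \ S₂) S₂ ω`; `os_D2_diff`; `u` has a neighbour in `bx r` or in a block; in the
second case `os_ob_nbr`. -/
theorem os_C2_path {r R w M s₁ k₁ s₃ k₃ : ℤ} {ω : Cfg} {v : Pt} (h : OPar r R w M)
    (hk₁ : |k₁| + 2 ≤ M) (hk₃ : |k₃| + 2 ≤ M)
    (hv : v ∈ L.Cx true (OD2 R w M s₁ k₁ s₃ k₃) (OS2 r w M s₁ k₁ s₃ k₃) ω) (hvR : nrm v = R) :
    ∃ u, L.Cn (ann r R ∩ L.col true ω) v u ∧ (u ∈ L.nb (bx r) ∨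
      (∃ y, k₁ * w - w / 2 - 1 ≤ y ∧ y ≤ k₁ * w + w / 2 + 1 ∧ u = rt s₁ (R, y)) ∨
        ∃ y, k₃ * w - w / 2 - 1 ≤ y ∧ y ≤ k₃ * w + w / 2 + 1 ∧ u = rt s₃ (R, y)) := by
  have hrR : r < R := by
    have := h.r1
    have := h.r8
    omega
  have hvS : v ∉ OS2 r w M s₁ k₁ s₃ k₃ := by
    rintro (hv' | hv' | hv')
    · have h1 : nrm v ≤ r := hv'
      linarith
    · have h1 := (ob_nrm h.od h.w0 h.eR (by linarith) hv').1
      linarith
    · have h1 := (ob_nrm h.od h.w0 h.eR (by linarith) hv').1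
      linarith
  rcases hv with hv' | ⟨u, ⟨z, hz, hzu⟩, huv⟩
  · exact absurd hv' hvS
  · rw [os_D2_diff h hk₁ hk₃] at huv
    refine ⟨u, huv.symm, ?_⟩
    have huR : u ∈ bx R := huv.left.1.2
    rcases hz with hz | hz | hz
    · exact Or.inl ⟨z, hz, hzu⟩
    · obtain ⟨y, e1, e2, e3⟩ := os_ob_nbr h.od h.w0 h.eR hz huR hzu.symm
      exact Or.inr (Or.inl ⟨y, e1, e2, e3⟩)
    · obtain ⟨y, e1, e2, e3⟩ := os_ob_nbr h.od h.w0 h.eR hz huR hzu.symm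
      exact Or.inr (Or.inr ⟨y, e1, e2, e3⟩)

/-- THE FINE CELL of one closed path.  `w` fine, `μ w` coarse block size, `μ = 4 B + 1`.  `i = 2 R s + y` is the index of the
end of a closed path in `ann r R` from a neighbour `x` of `bx r`, outside the triples of the coarse blocks.
Proof.  The path is closed and in `D₂ \ S₂ = ann r R`, so it does not meet `C₂` (`Cx_col`).  `V` = cluster of `rc R i` in `D₂ \ C₂`
(`comp_cluster`), `x ∈ V`.  `good_pos'` with `o = false`, `c = false`, `m = R`, `β = B w`, `D = D₂`, `C = C₂`, `E = ann r R`, `v = x`: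
`|y| + 4 B w ≤ R`; `nrm (x - rc R i) ≥ R - r - 1 ≥ 3 B w` (`os_nrm_sub_ge`, `os_nb_bx_nrm`).  `hC`: for a site of `C₂` on the ring `os_C2_path` gives
`u`; if `u ∈ nb (bx r)` as before; otherwise `os_mid_far` at the coarse scale: distance `≥ μ w ≥ 3 B w` (`rc_side`).
Conclusion: `|k w - y| ≤ 6 w` and `|k| w ≤ |y| + 6 w ≤ R - 100 μ w + 6 w`, `R = M w + w / 2`. -/
theorem os_fine_cell {r R w M μ Mc B s₁ k₁ s₃ k₃ s y ℓ : ℤ} {ω : Cfg} {x : Pt}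
    (h : OPar r R w M) (h' : OPar r R (μ * w) Mc) (hμ : μ = 4 * B + 1) (hB : 48 ≤ B)
    (hP : OPos R (μ * w) Mc s₁ k₁ s₃ k₃) (hy : |y| + 100 * (μ * w) ≤ R)
    (hF₁ : OFar R (μ * w) s₁ k₁ (2 * R * s + y)) (hF₃ : OFar R (μ * w) s₃ k₃ (2 * R * s + y))
    (hx : x ∈ L.nb (bx r)) (hp : L.Cn (ann r R ∩ L.col false ω) (rc R (2 * R * s + y)) x)
    (hbad : ¬ L.BadW false ∅ R 1 ℓ (B * w) (12 * w) ω) :
    ∃ V k, L.Comp (OD2 R (μ * w) Mc s₁ k₁ s₃ k₃ \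
        L.Cx true (OD2 R (μ * w) Mc s₁ k₁ s₃ k₃) (OS2 r (μ * w) Mc s₁ k₁ s₃ k₃) ω) V ∧
      x ∈ V ∧ trip w R s k ⊆ V ∧ k ≠ 0 ∧ |k * w - y| ≤ 6 * w ∧ |k| + 2 * μ + 20 ≤ M := by
  have hw0 := h.w0
  have hw5 := h.w5
  have hr1 := h.r1
  have hr8 := h.r8
  have hRw := h'.Rw
  have hBw : 48 * w ≤ B * w := by nlinarith
  have hWe : μ * w = 4 * (B * w) + w := by
    rw [hμ]
    ring
  have hR1 : 1 ≤ R := by linarith
  have hrR : r < R := by omega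
  have hk₁ : |k₁| + 2 ≤ Mc := by have := hP.a₁; linarith
  have hk₃ : |k₃| + 2 ≤ Mc := by have := hP.a₃; linarith
  have hdiff := os_D2_diff (r := r) (s₁ := s₁) (s₃ := s₃) h' hk₁ hk₃
  have hnx : nrm (rc R (2 * R * s + y)) = R := rc_nrm hR1
  have hzDS : rc R (2 * R * s + y) ∈ OD2 R (μ * w) Mc s₁ k₁ s₃ k₃ \
      OS2 r (μ * w) Mc s₁ k₁ s₃ k₃ := by
    rw [hdiff]
    exact ⟨by linarith, by linarith⟩
  have hzC : rc R (2 * R * s + y) ∉ L.Cx true (OD2 R (μ * w) Mc s₁ k₁ s₃ k₃)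
      (OS2 r (μ * w) Mc s₁ k₁ s₃ k₃) ω := by
    intro hc
    have h1 := (Cx_col hc hzDS.2).2
    have h2 : rc R (2 * R * s + y) ∈ L.col false ω := hp.left.2
    have h3 : L.st ω (rc R (2 * R * s + y)) = true := h1
    have h4 : L.st ω (rc R (2 * R * s + y)) = false := h2
    rw [h3] at h4
    exact absurd h4 (by decide)
  have hzm : rc R (2 * R * s + y) ∈ OD2 R (μ * w) Mc s₁ k₁ s₃ k₃ \
      L.Cx true (OD2 R (μ * w) Mc s₁ k₁ s₃ k₃) (OS2 r (μ * w) Mc s₁ k₁ s₃ k₃) ω :=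
    ⟨hzDS.1, hzC⟩
  have hV := comp_cluster (L := L) hzm
  have hzV : rc R (2 * R * s + y) ∈ {z | L.Cn (OD2 R (μ * w) Mc s₁ k₁ s₃ k₃ \
      L.Cx true (OD2 R (μ * w) Mc s₁ k₁ s₃ k₃) (OS2 r (μ * w) Mc s₁ k₁ s₃ k₃) ω)
      (rc R (2 * R * s + y)) z} := Cn.refl hzm
  have hxV := comp_path (c := false) (S := OS2 r (μ * w) Mc s₁ k₁ s₃ k₃)
    (M := OD2 R (μ * w) Mc s₁ k₁ s₃ k₃) (x := x) hV
    (by rw [hdiff]; exact hp.symm) hzV
  have hxd : 3 * (B * w) ≤ nrm (x - rc R (2 * R * s + y)) := by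
    have h1 := os_nrm_sub_ge x (rc R (2 * R * s + y))
    have h2 := os_nb_bx_nrm hx
    rw [hnx] at h1
    omega
  obtain ⟨k, hk0, hk1, hk2, hk3⟩ := good_pos' (L := L) (o := false) (c := false) (m := R)
    (w := w) (ρ := 1) (ℓ := ℓ) (β := B * w) (s := s) (y := y)
    (D := OD2 R (μ * w) Mc s₁ k₁ s₃ k₃) (D' := ∅) (E := ann r R)
    (v := x) h.od hw0 (by linarith) hBw (by linarith) hR1 hbad
    (by
      intro z hz
      show nrm z ≤ R
      exact hz.2)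
    (by
      intro z hz
      have hz' : nrm z = R := hz
      exact Or.inl (show nrm z ≤ R by linarith))
    hV hzV hp hxd
    (by
      intro i _ hiC
      have hni : nrm (rc R i) = R := rc_nrm hR1
      obtain ⟨u, hiu, hu⟩ := os_C2_path (r := r) h' hk₁ hk₃ hiC hni
      refine ⟨u, hiu, ?_⟩
      have hyR : |y| ≤ R := by
        have : 0 ≤ 100 * (μ * w) := by linarith
        linarith
      rcases hu with hu | ⟨y', e1, e2, rfl⟩ | ⟨y', e1, e2, rfl⟩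
      · have h1 := os_nrm_sub_ge u (rc R (2 * R * s + y))
        have h2 := os_nb_bx_nrm hu
        rw [hnx] at h1
        omega
      · have h1 := os_mid_far h' hP.a₁ hy hF₁ e1 e2
        rw [rc_side hR1 hyR, os10_comm]
        linarith
      · have h1 := os_mid_far h' hP.a₃ hy hF₃ e1 e2
        rw [rc_side hR1 hyR, os10_comm]
        linarith)
  have hwd : 0 ≤ w / 2 := by omega
  have e1 : (k - 1) * w = k * w - w := by ring
  have e2 : (k + 1) * w = k * w + w := by ring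
  rw [e1] at hk1
  rw [e2] at hk2
  have hkw : |k * w - y| ≤ 6 * w := by
    rw [abs_le]
    constructor <;> linarith
  refine ⟨_, k, hV, hxV, hk3, hk0, hkw, ?_⟩
  by_contra hn
  have hn' : M - 2 * μ - 19 ≤ |k| := by omega
  have f1 : (M - 2 * μ - 19) * w ≤ |k| * w := mul_le_mul_of_nonneg_right hn' hw0.le
  have f2 : |k| * w = |k * w| := by rw [abs_mul, abs_of_pos hw0]
  have f3 : |k * w| ≤ |k * w - y| + |y| := by
    have := abs_add_le (k * w - y) y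
    rwa [sub_add_cancel] at this
  have f4 : (M - 2 * μ - 19) * w = M * w - 2 * (μ * w) - 19 * w := by ring
  have hμw : 193 * w ≤ μ * w := mul_le_mul_of_nonneg_right (by linarith) hw0.le
  have hw2 : w / 2 ≤ w := by omega
  have heR := h.eR
  linarith

end Lat

end SC
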