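import Pool.Agent.Lib_MP_e0a489.OS3
import Pool.Agent.Lib_MP_e0a489.SH6
import Pool.Agent.Lib_MP_e0a489.SH7

/-!
# MP_e0a489, outer separation 4: landing of an arm in an outer block
-/

set_option autoImplicit false

namespace SC

open Classical

namespace Lat

variable {L : Lat}

/-- LANDING IN AN OUTER BLOCK.  `D` is the domain of the exploration (`bx R`, or `bx R` with two coarse blocks), `S` its
source, `C = Cx (!c) D S ω`; `V` is a component of `D \ C` which contains the triple of the block and a site `x` next to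
`bx r`.  If the fresh configuration has a circuit and a crossing of the corridor then in the mixed configuration there
is an arm of colour `c` to the far side of the block.
Proof.  `fresh_set` with `r := R - w` (`M w - w/2 = R - w + 1`, `R ≤ M w + w/2 + w = R + w`) gives `T` and `u ∈ T ∩ ob ∩ rng (R + w)`; `C` is connected,
contains `bx r` (`hS`, `Cx_sup`) and a site of norm `≥ R` (`hCR`), so `T` meets `C`.  `T ⊆ D ∪ ob`: `ann (R-w) R ⊆ bx R ⊆ D`,
`ib ⊆ bx R` (`ib_nrm`); `T ⊆ G` by `hG`, `ib_nrm`, `ob_nrm`.  `land_step` with `M := D`, `N := ob w M s k` (`os_con_ob`): the neighbours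
of `N` in `D` are in `bx R` (`hDN`), so in the triple (`ob_adj`), so in `V`; `os_ob_touch`; `x ∈ nb (bx r) ⊆ nb C`.  So `x` is
joined to `u` in `(V ∪ ob) ∩ col c (mix ..)`, and `V ⊆ ann r R`. -/
theorem os_land_arm {c : Bool} {r R w M s k : ℤ} (h : OPar r R w M) (hk : |k| + 2 ≤ M)
    {D S V : Set Pt} {ω η : Cfg} {G : Finset Pt} {x : Pt} (hRD : bx R ⊆ D) (hS : bx r ⊆ S)
    (hSD : S ⊆ D) (hDN : ∀ v ∈ ob w M s k, v ∉ D ∧ ∀ u ∈ D, L.Adj u v → u ∈ bx R)
    (hC : L.Con (L.Cx (!c) D S ω)) (hex : L.Exact (D ∪ ob w M s k) (L.Cx (!c) D S ω))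
    (hCR : ∃ v ∈ L.Cx (!c) D S ω, R ≤ nrm v) (hV : L.Comp (D \ L.Cx (!c) D S ω) V)
    (htr : trip w R s k ⊆ V) (hVr : V ⊆ ann r R) (hx : x ∈ V) (hx' : x ∈ L.nb (bx r))
    (hG : ∀ v, R - w < nrm v → nrm v ≤ R + w → v ∈ G) (h1 : L.Circ c (R - w) R η)
    (h2 : L.Cor c w M s k η) : L.Oarm c r R w M s k (mix G (L.Rev (!c) D S) ω η) := by
  have hw0 := h.w0
  have hkM : |k| < M := by omega
  have hR := h.eR
  have hRw := h.Rw
  have hw5 := h.w5
  have hM := h.M2
  have hod := h.od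
  obtain ⟨T, hTc, hTcol, hTsub, -, ⟨u, hu, huo, hur⟩, hTP⟩ :=
    fresh_set (r := R - w) (R := R) hod hw0 hkM (by omega) (by omega) (by omega) (by omega) h1 h2
  have h0 : (0 : Pt) ∈ bx r := by
    show max |(0 : ℤ)| |(0 : ℤ)| ≤ r
    rw [abs_zero, max_self]
    have := h.r1
    omega
  have h0' : (0 : Pt) ∈ bx (R - w) := by
    show max |(0 : ℤ)| |(0 : ℤ)| ≤ R - w
    rw [abs_zero, max_self]
    omega
  have hTC : (T ∩ L.Cx (!c) D S ω).Nonempty :=
    hTP _ hC ⟨0, Cx_sup (hS h0), Or.inl h0'⟩ hCR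
  have hNV : ∀ v ∈ ob w M s k, ∀ u ∈ D, L.Adj u v → u ∈ V := by
    intro v hv u' hu' huv
    apply htr
    have h3 := (hDN v hv).2 u' hu' huv
    rw [hR] at h3
    have h4 := ob_adj (L := L) hod hw0 (by omega) hkM hv h3 huv.symm
    rwa [← hR] at h4
  have hadj : ∃ v ∈ ob w M s k, ∃ u ∈ V, L.Adj u v := by
    obtain ⟨v, hv, u', hu', huv⟩ := os_ob_touch (L := L) hod hw0 hR (by omega) hkM
    exact ⟨v, hv, u', htr hu', huv⟩
  have hxC : x ∈ L.nb (L.Cx (!c) D S ω) := by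
    obtain ⟨v, hv, hvx⟩ := hx'
    exact ⟨v, Cx_sup (hS hv), hvx⟩
  have hTM : T ⊆ D ∪ ob w M s k := by
    intro v hv
    rcases hTsub hv with h3 | h3 | h3
    · exact Or.inl (hRD h3.2)
    · exact Or.inl (hRD (ib_nrm hod hw0 hR hkM h3).2)
    · exact Or.inr h3
  have hTG : T ⊆ (G : Set Pt) := by
    intro v hv
    rcases hTsub hv with h3 | h3 | h3
    · exact hG v h3.1 (by have := h3.2; omega)
    · have h4 := ib_nrm hod hw0 hR hkM h3
      exact hG v h4.1 (by omega)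
    · have h4 := ob_nrm hod hw0 hR hkM h3
      exact hG v (by omega) h4.2
  have key := land_step (G := G) (η := η) hSD hC hex hV (os_con_ob w M s k)
    (fun v hv => (hDN v hv).1) hNV hadj hx hxC hTc hTM hTG hTcol hu huo hTC
  refine ⟨x, hx', u, ⟨huo, ?_⟩, key.mono ?_⟩
  · rw [hR]
    exact hur
  · rintro v ⟨hv | hv, hvc⟩
    · exact ⟨Or.inl (hVr hv), hvc⟩
    · exact ⟨Or.inr hv, hvc⟩

end Lat

end SC
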