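import Pool.Agent.Lib_MP_e0a489.OS10
import Pool.Agent.Lib_MP_e0a489.OS4

/-!
# MP_e0a489, outer separation 11: second step, landing of the closed arms, the open arms survive
-/

set_option autoImplicit false

namespace SC

open Classical

namespace Lat

variable {L : Lat}

/-- THE OPEN ARMS SURVIVE.  The arm is contained in `D₂`, its last site is in the block, so in `S₂ ⊆ C₂`: `cn_mix_Cx`. -/
theorem Oarm.stay {r R w M s₁ k₁ s₃ k₃ s k : ℤ} {ω η : Cfg} (G : Finset Pt) (h : OPar r R w M)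
    (hsk : (s = s₁ ∧ k = k₁) ∨ (s = s₃ ∧ k = k₃)) (hA : L.Oarm true r R w M s k ω) :
    L.Oarm true r R w M s k
      (mix G (L.Rev true (OD2 R w M s₁ k₁ s₃ k₃) (OS2 r w M s₁ k₁ s₃ k₃)) ω η) := by
  obtain ⟨x, hx, y, hy, hxy⟩ := hA
  have hobD : ob w M s k ⊆ ob w M s₁ k₁ ∪ ob w M s₃ k₃ := by
    rcases hsk with ⟨rfl, rfl⟩ | ⟨rfl, rfl⟩
    · exact Set.subset_union_left
    · exact Set.subset_union_right
  have hA : ann r R ∪ ob w M s k ⊆ OD2 R w M s₁ k₁ s₃ k₃ := by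
    rintro v (hv | hv)
    · exact Or.inl hv.2
    · exact Or.inr (hobD hv)
  have hyC : y ∈ L.Cx true (OD2 R w M s₁ k₁ s₃ k₃) (OS2 r w M s₁ k₁ s₃ k₃) ω :=
    Cx_sup (Or.inr (hobD hy.1))
  exact ⟨x, hx, y, hy, (cn_mix_Cx hA hxy hyC).1⟩

/-- THE CLOSED ARMS LAND.  `os_land_arm` with `c = false`, `D = D₂`, `S = S₂` (`!false = true`).  `C₂` connected: `os_C2_con`; exactness:
`os_exact_D2_ob` with `os_pos_apart`, `os_fine_apart`; `hDN`: a neighbour in `D₂` of the fine block is in `bx R` because the coarse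
blocks are apart from it, and the fine block does not meet `D₂` (`ob_nrm`, `os_fine_apart`); the site of norm `≥ R` is any site of a
coarse block; `V ⊆ D₂ \ C₂ ⊆ D₂ \ S₂ = ann r R`. -/
theorem os_closed_land {r R w M μ Mc s₁ k₁ s₃ k₃ s k y : ℤ} {ω η : Cfg} {G : Finset Pt} {x : Pt}
    {V : Set Pt} (h : OPar r R w M) (h' : OPar r R (μ * w) Mc) (hμ : 10 ≤ μ)
    (hP : OPos R (μ * w) Mc s₁ k₁ s₃ k₃) (hE : L.E1o r R (μ * w) Mc s₁ k₁ s₃ k₃ ω)
    (hy : |y| + 100 * (μ * w) ≤ R)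
    (hF₁ : OFar R (μ * w) s₁ k₁ (2 * R * s + y)) (hF₃ : OFar R (μ * w) s₃ k₃ (2 * R * s + y))
    (hV : L.Comp (OD2 R (μ * w) Mc s₁ k₁ s₃ k₃ \
        L.Cx true (OD2 R (μ * w) Mc s₁ k₁ s₃ k₃) (OS2 r (μ * w) Mc s₁ k₁ s₃ k₃) ω) V)
    (hx : x ∈ V) (hx' : x ∈ L.nb (bx r)) (htr : trip w R s k ⊆ V) (hky : |k * w - y| ≤ 6 * w)
    (hk : |k| + 2 ≤ M) (hG : ∀ v, R - w < nrm v → nrm v ≤ R + w → v ∈ G)
    (h1 : L.Circ false (R - w) R η) (h2 : L.Cor false w M s k η) :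
    L.Oarm false r R w M s k
      (mix G (L.Rev true (OD2 R (μ * w) Mc s₁ k₁ s₃ k₃) (OS2 r (μ * w) Mc s₁ k₁ s₃ k₃)) ω η) := by
  have hw0 := h'.w0
  have hk₁ : |k₁| + 2 ≤ Mc := by have := hP.a₁; omega
  have hk₃ : |k₃| + 2 ≤ Mc := by have := hP.a₃; omega
  have ha := os_pos_apart (L := L) h' hP
  have ha₁ := os_fine_apart (L := L) h h' hμ hP.a₁ hk hy hF₁ hky
  have ha₃ := os_fine_apart (L := L) h h' hμ hP.a₃ hk hy hF₃ hky
  have hC := os_C2_con h' hE.1 hE.2.1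
  obtain ⟨z, -, u, hu, -⟩ := hE.1
  have huR : nrm u = R + μ * w := hu.2
  refine os_land_arm (c := false) (D := OD2 R (μ * w) Mc s₁ k₁ s₃ k₃)
    (S := OS2 r (μ * w) Mc s₁ k₁ s₃ k₃) (V := V) h hk Set.subset_union_left
    Set.subset_union_left (os_S2_sub h') ?_ hC
    (os_exact_D2_ob h' h hk₁ hk₃ hk ha ha₁ ha₃ _)
    ⟨u, Cx_sup (Or.inr (Or.inl hu.1)), by omega⟩ hV htr ?_ hx hx' hG h1 h2
  · intro v hv
    have hvn := (ob_nrm h.od h.w0 h.eR (by omega) hv).1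
    refine ⟨?_, ?_⟩
    · rintro (hv' | hv' | hv')
      · exact absurd (show nrm v ≤ R from hv') (not_le.2 hvn)
      · exact (ha₁ v hv' v hv).1 rfl
      · exact (ha₃ v hv' v hv).1 rfl
    · rintro u' (hu' | hu' | hu') hadj
      · exact hu'
      · exact absurd hadj (ha₁ u' hu' v hv).2
      · exact absurd hadj (ha₃ u' hu' v hv).2
  · rw [← os_D2_diff (s₁ := s₁) (s₃ := s₃) h' hk₁ hk₃]
    intro v hv
    have h3 := hV.sub hv
    exact ⟨h3.1, fun h4 => h3.2 (Cx_sup h4)⟩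

end Lat

end SC
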