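import Pool.Agent.Lib_MP_e0a489.OS1
import Pool.Agent.Lib_MP_e0a489.SH8

/-!
# MP_e0a489, outer separation 12: four arms to landing blocks give `E2o`
-/

set_option autoImplicit false

namespace SC

open Classical

/-- ORDER, a fine position after a coarse position.  `lex_of_idx` (`|(k + 1) μ w + μ w / 2| < R` because `|k| + 100 ≤ Mc`; `|y| < R`):
`s < s'` or (`s = s'` and `(k + 1) μ w + μ w / 2 < y ≤ k' w + 6 w`, so `k' + 6 > (k + 1) μ`, `k' > μ k + μ / 2` because `μ ≥ 100`). -/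
theorem os_ord_up {r R w M μ Mc s k s' k' y : ℤ} (h : OPar r R w M) (h' : OPar r R (μ * w) Mc)
    (hμ : 100 ≤ μ) (hk : |k| + 100 ≤ Mc) (hy : |y| + 100 * (μ * w) ≤ R)
    (hky : |k' * w - y| ≤ 6 * w) (hi : oei R (μ * w) s k < 2 * R * s' + y) :
    s < s' ∨ (s = s' ∧ μ * k + μ / 2 < k') := by
  have hw5 := h.w5
  have hW5 := h'.w5
  have hR := h'.eR
  have hW0 : 0 < μ * w := by omega
  have hw0 : 0 < w := by omega
  have hk1 := abs_le.1 (show |k| ≤ Mc - 100 by omega)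
  have e0 : (Mc - 100) * (μ * w) = Mc * (μ * w) - 100 * (μ * w) := by ring
  have e1 : k * (μ * w) ≤ (Mc - 100) * (μ * w) := mul_le_mul_of_nonneg_right hk1.2 hW0.le
  have e2 : -(Mc - 100) * (μ * w) ≤ k * (μ * w) := mul_le_mul_of_nonneg_right hk1.1 hW0.le
  have e3 : -(Mc - 100) * (μ * w) = -(Mc * (μ * w)) + 100 * (μ * w) := by ring
  have e4 : (k + 1) * (μ * w) = k * (μ * w) + μ * w := by ring
  have hy1 : |y| < R := by omega
  have hc : |(k + 1) * (μ * w) + μ * w / 2| < R := by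
    rw [abs_lt]
    constructor <;> omega
  unfold oei at hi
  have hi' : 2 * R * s + ((k + 1) * (μ * w) + μ * w / 2) < 2 * R * s' + y := by omega
  rcases lex_of_idx hc hy1 hi' with h1 | ⟨h1, h2⟩
  · exact Or.inl h1
  · refine Or.inr ⟨h1, ?_⟩
    have h3 := abs_le.1 hky
    have h4 : (k + 1) * μ * w < (k' + 6) * w := by
      have e5 : (k + 1) * μ * w = (k + 1) * (μ * w) := by ring
      have e6 : (k' + 6) * w = k' * w + 6 * w := by ring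
      omega
    have h5 : (k + 1) * μ < k' + 6 := lt_of_mul_lt_mul_right h4 hw0.le
    have e7 : (k + 1) * μ = μ * k + μ := by ring
    omega

/-- ORDER, a fine position before a coarse position -/
theorem os_ord_dn {r R w M μ Mc s k s' k' y : ℤ} (h : OPar r R w M) (h' : OPar r R (μ * w) Mc)
    (hμ : 100 ≤ μ) (hk : |k| + 100 ≤ Mc) (hy : |y| + 100 * (μ * w) ≤ R)
    (hky : |k' * w - y| ≤ 6 * w) (hi : 2 * R * s' + y < osi R (μ * w) s k) :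
    s' < s ∨ (s' = s ∧ k' < μ * k - μ / 2) := by
  have hw5 := h.w5
  have hW5 := h'.w5
  have hR := h'.eR
  have hW0 : 0 < μ * w := by omega
  have hw0 : 0 < w := by omega
  have hk1 := abs_le.1 (show |k| ≤ Mc - 100 by omega)
  have e0 : (Mc - 100) * (μ * w) = Mc * (μ * w) - 100 * (μ * w) := by ring
  have e1 : k * (μ * w) ≤ (Mc - 100) * (μ * w) := mul_le_mul_of_nonneg_right hk1.2 hW0.le
  have e2 : -(Mc - 100) * (μ * w) ≤ k * (μ * w) := mul_le_mul_of_nonneg_right hk1.1 hW0.le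
  have e3 : -(Mc - 100) * (μ * w) = -(Mc * (μ * w)) + 100 * (μ * w) := by ring
  have e4 : (k - 1) * (μ * w) = k * (μ * w) - μ * w := by ring
  have hy1 : |y| < R := by omega
  have hc : |(k - 1) * (μ * w) - μ * w / 2| < R := by
    rw [abs_lt]
    constructor <;> omega
  unfold osi at hi
  have hi' : 2 * R * s' + y < 2 * R * s + ((k - 1) * (μ * w) - μ * w / 2) := by omega
  rcases lex_of_idx hy1 hc hi' with h1 | ⟨h1, h2⟩
  · exact Or.inl h1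
  · refine Or.inr ⟨h1, ?_⟩
    have h3 := abs_le.1 hky
    have h4 : (k' - 6) * w < (k - 1) * μ * w := by
      have e5 : (k - 1) * μ * w = (k - 1) * (μ * w) := by ring
      have e6 : (k' - 6) * w = k' * w - 6 * w := by ring
      omega
    have h5 : k' - 6 < (k - 1) * μ := lt_of_mul_lt_mul_right h4 hw0.le
    have e7 : (k - 1) * μ = μ * k - μ := by ring
    omega

/-- the outer block depends on the side modulo 4 (`rt_mod`) -/
theorem os_ob_mod {w M s s' k : ℤ} (h : s % 4 = s' % 4) : ob w M s k = ob w M s' k := by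
  unfold ob
  rw [rt_mod h]

private theorem OS12_lbo_mod {w μ Mc : ℤ} {c : Bool} {s s' k : ℤ} (h : s % 4 = s' % 4) :
    lbo w μ Mc c s k = lbo w μ Mc c s' k := by
  unfold lbo
  split_ifs
  · exact os_ob_mod h
  · exact os_ob_mod h

private theorem OS12_abs_mul {μ Mc k : ℤ} (hμ : 100 ≤ μ) (hk : |k| + 100 ≤ Mc) :
    |μ * k| + 2 * μ + 20 ≤ μ * Mc + μ / 2 := by
  have h1 : |μ * k| = μ * |k| := by
    rw [abs_mul, abs_of_pos (by omega : (0 : ℤ) < μ)]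
  rw [h1]
  have h2 : μ * |k| ≤ μ * (Mc - 100) := mul_le_mul_of_nonneg_left (by omega) (by omega)
  have h3 : μ * (Mc - 100) = μ * Mc - 100 * μ := by ring
  omega

/-- FOUR ARMS GIVE `E2o`.  `land_of` for `s = ![s₁, s₂, s₃, s₄]`, `k = ![k₁, k₂, k₃, k₄]` (`fpos μ true k i` is `μ k i` for `i` even and `k i` for
`i` odd, `hwd` is `μ / 2`, `0`; `|μ k₁| + 2 μ + 20 ≤ M` because `|k₁| + 100 ≤ Mc`) gives `c₀, s', k', j`; `q = (c₀, s', k')`, `mem_LamO`.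
`E2o` for `i` is the arm number `i + j`: `lbo w μ Mc (colr c₀ i) (s' i) (k' i)` is the block of the arm number `i + j`
(`os_ob_mod`; case distinction on `i + j`), `lw w μ true = μ w`, `lw w μ false = w`. -/
theorem E2o_of {L : Lat} {r w μ Mc R s₁ k₁ s₂ k₂ s₃ k₃ s₄ k₄ : ℤ} {ω : Cfg} (hμ : 100 ≤ μ)
    (hR : R = (μ * Mc + μ / 2) * w + w / 2) (hk₁ : |k₁| + 100 ≤ Mc) (hk₃ : |k₃| + 100 ≤ Mc)
    (hk₂ : |k₂| + 2 * μ + 20 ≤ μ * Mc + μ / 2) (hk₄ : |k₄| + 2 * μ + 20 ≤ μ * Mc + μ / 2)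
    (n₁ : k₁ ≠ 0) (n₂ : k₂ ≠ 0) (n₃ : k₃ ≠ 0) (n₄ : k₄ ≠ 0)
    (h12 : s₁ < s₂ ∨ (s₁ = s₂ ∧ μ * k₁ + μ / 2 < k₂))
    (h23 : s₂ < s₃ ∨ (s₂ = s₃ ∧ k₂ < μ * k₃ - μ / 2))
    (h34 : s₃ < s₄ ∨ (s₃ = s₄ ∧ μ * k₃ + μ / 2 < k₄))
    (h41 : s₄ < s₁ + 4 ∨ (s₄ = s₁ + 4 ∧ k₄ < μ * k₁ - μ / 2))
    (a₁ : L.Oarm true r R (μ * w) Mc s₁ k₁ ω) (a₂ : L.Oarm false r R w (μ * Mc + μ / 2) s₂ k₂ ω)
    (a₃ : L.Oarm true r R (μ * w) Mc s₃ k₃ ω) (a₄ : L.Oarm false r R w (μ * Mc + μ / 2) s₄ k₄ ω) :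
    ∃ q ∈ LamO μ Mc, L.E2o r w μ Mc q.1 q.2.1 q.2.2 ω := by
  have hμ0 : 0 < μ := by omega
  obtain ⟨c₀, s', k', j, hL, hj⟩ := land_of (μ := μ) (M := μ * Mc + μ / 2) hμ0
    (s := ![s₁, s₂, s₃, s₄]) (k := ![k₁, k₂, k₃, k₄]) (by
      intro i
      fin_cases i
      · exact OS12_abs_mul hμ hk₁
      · exact hk₂
      · exact OS12_abs_mul hμ hk₃
      · exact hk₄) (by
      intro i
      fin_cases i
      · exact n₁
      · exact n₂
      · exact n₃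
      · exact n₄)
    (by
      show s₁ < s₂ ∨ (s₁ = s₂ ∧ μ * k₁ + μ / 2 < k₂ - 0)
      omega)
    (by
      show s₂ < s₃ ∨ (s₂ = s₃ ∧ k₂ + 0 < μ * k₃ - μ / 2)
      omega)
    (by
      show s₃ < s₄ ∨ (s₃ = s₄ ∧ μ * k₃ + μ / 2 < k₄ - 0)
      omega)
    (by
      show s₄ < s₁ + 4 ∨ (s₄ = s₁ + 4 ∧ k₄ + 0 < μ * k₁ - μ / 2)
      omega)
  refine ⟨(c₀, s', k'), (mem_LamO hμ0 _).2 hL, ?_⟩
  have harm : ∀ m : Fin 4, L.Arm (colr true m)
      (ann r ((μ * Mc + μ / 2) * w + w / 2) ∪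
        lbo w μ Mc (colr true m) ((![s₁, s₂, s₃, s₄] : Fin 4 → ℤ) m)
          ((![k₁, k₂, k₃, k₄] : Fin 4 → ℤ) m)) (L.nb (bx r))
      (lbo w μ Mc (colr true m) ((![s₁, s₂, s₃, s₄] : Fin 4 → ℤ) m)
          ((![k₁, k₂, k₃, k₄] : Fin 4 → ℤ) m) ∩
        rng ((μ * Mc + μ / 2) * w + w / 2 + lw w μ (colr true m))) ω := by
    rw [← hR]
    intro m
    fin_cases m
    · exact a₁
    · exact a₂
    · exact a₃
    · exact a₄
  intro i
  obtain ⟨h1, h2, h3⟩ := hj i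
  have h4 := harm (i + j)
  show L.Arm (colr c₀ i)
    (ann r ((μ * Mc + μ / 2) * w + w / 2) ∪ lbo w μ Mc (colr c₀ i) (s' i) (k' i)) (L.nb (bx r))
    (lbo w μ Mc (colr c₀ i) (s' i) (k' i) ∩
      rng ((μ * Mc + μ / 2) * w + w / 2 + lw w μ (colr c₀ i))) ω
  rw [OS12_lbo_mod h1, h2, h3]
  exact h4

end SC
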