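import Pool.Agent.Lib_MP_e0a489.OS11
import Pool.Agent.Lib_MP_e0a489.OS12

/-!
# MP_e0a489, outer separation 13: step 2, deterministic part
-/

set_option autoImplicit false

namespace SC

open Classical

namespace Lat

variable {L : Lat}

/-- STEP 2.  On `E1o`, off the fine bad event, there are two fine positions such that for every good fresh
configuration one of the events `E2o` holds in the mixed configuration.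
Proof.  The two `OMid` events give `s₂, y₂`, `s₄, y₄` and closed paths; `os_fari_mid` (both indices are outside both triples);
`os_fine_cell` gives `V₂, k₂` and `V₄, k₄`; `t = ((s₂, k₂), (s₄, k₄))`.  For `η`: `os_closed_land` twice, `Oarm.stay` twice, `E2o_of`; the order from
`os_ord_up` (`s₁ - s₂`, `s₃ - s₄`) and `os_ord_dn` (`s₂ - s₃`; for `s₄ - s₁` use `osi R w s₁ k₁ + 8 R = osi R w (s₁ + 4) k₁`). -/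
theorem os_step2_det {r R w μ Mc B s₁ k₁ s₃ k₃ ℓ : ℤ} {ω : Cfg}
    (h : OPar r R w (μ * Mc + μ / 2)) (h' : OPar r R (μ * w) Mc) (hμ : μ = 4 * B + 1)
    (hB : 48 ≤ B) (hP : OPos R (μ * w) Mc s₁ k₁ s₃ k₃)
    (hE : L.E1o r R (μ * w) Mc s₁ k₁ s₃ k₃ ω)
    (hbad : ¬ L.BadW false ∅ R 1 ℓ (B * w) (12 * w) ω) :
    ∃ t : (ℤ × ℤ) × (ℤ × ℤ), (|t.1.2| + 2 ≤ μ * Mc + μ / 2 ∧ |t.2.2| + 2 ≤ μ * Mc + μ / 2) ∧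
      ∀ G : Finset Pt, (∀ v, R - w < nrm v → nrm v ≤ R + w → v ∈ G) → ∀ η,
        L.Fre false (R - w) R w (μ * Mc + μ / 2) t.1.1 t.1.2 t.2.1 t.2.2 η →
          ∃ q ∈ LamO μ Mc, L.E2o r w μ Mc q.1 q.2.1 q.2.2 (mix G (L.Rev true
            (OD2 R (μ * w) Mc s₁ k₁ s₃ k₃) (OS2 r (μ * w) Mc s₁ k₁ s₃ k₃)) ω η) := by
  obtain ⟨hA₁, hA₃, ⟨s₂, y₂, hy₂, ha₂, hb₂, x₂, hx₂, z₂, hz₂, hp₂⟩,
    ⟨s₄, y₄, hy₄, ha₄, hb₄, x₄, hx₄, z₄, hz₄, hp₄⟩⟩ := id hE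
  rw [Set.mem_singleton_iff] at hz₂ hz₄
  subst hz₂ hz₄
  have hw0 := h'.w0
  have hRw := h'.Rw
  have hR0 : 0 < R := by omega
  have hμ100 : 100 ≤ μ := by omega
  obtain ⟨hF₂₁, hF₂₃⟩ := os_fari_mid hw0 hR0 hP (Or.inl ⟨ha₂, hb₂⟩)
  obtain ⟨hF₄₁, hF₄₃⟩ := os_fari_mid hw0 hR0 hP (Or.inr ⟨ha₄, hb₄⟩)
  obtain ⟨V₂, k₂, hV₂, hxV₂, htr₂, n₂, hky₂, hk₂⟩ :=
    os_fine_cell h h' hμ hB hP hy₂ hF₂₁ hF₂₃ hx₂ (Cn.symm hp₂) hbad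
  obtain ⟨V₄, k₄, hV₄, hxV₄, htr₄, n₄, hky₄, hk₄⟩ :=
    os_fine_cell h h' hμ hB hP hy₄ hF₄₁ hF₄₃ hx₄ (Cn.symm hp₄) hbad
  have hk₂' : |k₂| + 2 ≤ μ * Mc + μ / 2 := by omega
  have hk₄' : |k₄| + 2 ≤ μ * Mc + μ / 2 := by omega
  refine ⟨((s₂, k₂), (s₄, k₄)), ⟨hk₂', hk₄'⟩, ?_⟩
  intro G hG η hη
  obtain ⟨hc, hcor₂, hcor₄⟩ := hη
  have a₂ := os_closed_land (G := G) (η := η) h h' (by omega) hP hE hy₂ hF₂₁ hF₂₃ hV₂ hxV₂ hx₂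
    htr₂ hky₂ hk₂' hG hc hcor₂
  have a₄ := os_closed_land (G := G) (η := η) h h' (by omega) hP hE hy₄ hF₄₁ hF₄₃ hV₄ hxV₄ hx₄
    htr₄ hky₄ hk₄' hG hc hcor₄
  have a₁ := Oarm.stay (η := η) G h' (s₁ := s₁) (k₁ := k₁) (s₃ := s₃) (k₃ := k₃)
    (Or.inl ⟨rfl, rfl⟩) hA₁
  have a₃ := Oarm.stay (η := η) G h' (s₁ := s₁) (k₁ := k₁) (s₃ := s₃) (k₃ := k₃)
    (Or.inr ⟨rfl, rfl⟩) hA₃
  have hb₄' : 2 * R * s₄ + y₄ < osi R (μ * w) (s₁ + 4) k₁ := by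
    have e : osi R (μ * w) (s₁ + 4) k₁ = osi R (μ * w) s₁ k₁ + 8 * R := by
      unfold osi
      ring
    rw [e]
    exact hb₄
  exact E2o_of hμ100 h.eR hP.a₁ hP.a₃ hk₂ hk₄ hP.n₁ n₂ hP.n₃ n₄
    (os_ord_up h h' hμ100 hP.a₁ hy₂ hky₂ ha₂)
    (os_ord_dn h h' hμ100 hP.a₃ hy₂ hky₂ hb₂)
    (os_ord_up h h' hμ100 hP.a₃ hy₄ hky₄ ha₄)
    (os_ord_dn h h' hμ100 hP.a₁ hy₄ hky₄ hb₄') a₁ a₂ a₃ a₄

end Lat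

end SC
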