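import Pool.Agent.Lib_MP_e0a489.OS4
import Pool.Agent.Lib_MP_e0a489.OS6

/-!
# MP_e0a489, outer separation 7: step 1, deterministic part and inequality
-/

set_option autoImplicit false

namespace SC

open Classical

namespace Lat

variable {L : Lat}

/-- STEP 1.  On the four arm event, off the bad event, there is a coarse position such that for every good fresh
configuration the event `E1o` holds in the mixed configuration.
Proof.  `os_two_comps`, `os_coarse_cell` for both arms, `os_arcs_order` give `q = (s, k₁, s', k₃)` and `i₂`, `i₄`.  Let `ω' = mix G (Rev ..) ω η`;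
`Cx false (bx R) (bx r) ω' = Cx false (bx R) (bx r) ω` (`Cx_mix`).  Open arms: `os_land_arm` with `c = true`, `D = bx R`, `S = bx r`, `V = V_i`,
`x = x_i` (`os_C1_con`, `os_exact_bx_ob`, `os_comp_ann`, `ob_nrm` for `v ∉ bx R`; the site of `C` with norm `≥ R` is `rc R i₂`).
Closed paths: `os_corner_C` for `i₂`, `i₄`, then `os_mid_of` for `ω'`. -/
theorem os_step1_det {r R w M β ℓ : ℤ} {ω : Cfg} (h : OPar r R w M)
    (hβ : 48 * w ≤ β) (hℓ : 4 * β ≤ ℓ) (hℓR : R / 2 + ℓ < R) (hT : L.TwoA true r R ω)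
    (hbad : ¬ L.BadW false (ann (R / 2) R) R (4 * β) ℓ β (12 * w) ω) :
    ∃ q ∈ OTht R w M, ∀ G : Finset Pt, (∀ v, R - w < nrm v → nrm v ≤ R + w → v ∈ G) →
      ∀ η, L.Fre true (R - w) R w M q.1 q.2.1 q.2.2.1 q.2.2.2 η →
        L.E1o r R w M q.1 q.2.1 q.2.2.1 q.2.2.2 (mix G (L.Rev false (bx R) (bx r)) ω η) := by
  have hr1 := h.r1
  have hr8 := h.r8
  have hRw := h.Rw
  have hw0 := h.w0
  have hM := h.M2
  have hrR : r < R := by omega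
  have hR1 : 1 ≤ R := by omega
  obtain ⟨V₁, V₃, x₁, y₁, x₃, y₃, hV₁, hV₃, hne, hx₁, hy₁, hx₃, hy₃, hnx₁, hnx₃, hR₁, hR₃, hc₁,
    hc₃⟩ := os_two_comps (by omega) hrR hT
  obtain ⟨s₁, k₁, hk₁, n₁, ht₁⟩ := os_coarse_cell h hβ hℓ hℓR hbad hV₁ hy₁ hR₁ hnx₁ hc₁
  obtain ⟨s₃, k₃, hk₃, n₃, ht₃⟩ := os_coarse_cell h hβ hℓ hℓR hbad hV₃ hy₃ hR₃ hnx₃ hc₃
  obtain ⟨s, s', hq, ht, ht', ⟨i₂, h2a, h2b, h2c⟩, i₄, h4a, h4b, h4c⟩ :=
    os_arcs_order h hV₁ hV₃ hne ht₁ ht₃ hk₁ hk₃ n₁ n₃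
  refine ⟨(s, k₁, s', k₃), hq, fun G hG η hF => ?_⟩
  obtain ⟨hcon, hsub, hsup⟩ := os_C1_con (L := L) ω hrR.le
  have hbx : bx r ⊆ bx R := fun v hv => le_trans (show nrm v ≤ r from hv) hrR.le
  have hDN : ∀ (s k : ℤ), |k| + 2 ≤ M → ∀ v ∈ ob w M s k, v ∉ bx R ∧
      ∀ u ∈ bx R, L.Adj u v → u ∈ bx R := by
    intro s k hk v hv
    refine ⟨fun hb => ?_, fun u hu _ => hu⟩
    have h1 := (ob_nrm h.od hw0 h.eR (by omega) hv).1
    have h2 : nrm v ≤ R := hb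
    omega
  have hmid : ∀ i a b : ℤ, a < i → i < b → rc R i ∈ L.Cx false (bx R) (bx r) ω →
      L.OMid r R w a b (mix G (L.Rev false (bx R) (bx r)) ω η) := by
    intro i a b ha hb hi
    obtain ⟨t, y, rfl, hy⟩ := os_corner_C h hβ hℓ hℓR hbad hi
    refine os_mid_of (by omega) hrR hy ha hb ?_
    rw [Cx_mix]
    exact hi
  have hCR : ∃ v ∈ L.Cx false (bx R) (bx r) ω, R ≤ nrm v := ⟨rc R i₂, h2c, (rc_nrm hR1).ge⟩
  have harm : ∀ (s k : ℤ) (V : Set Pt) (x : Pt), |k| + 100 ≤ M →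
      L.Comp (bx R \ L.Cx false (bx R) (bx r) ω) V → trip w R s k ⊆ V → x ∈ V →
      x ∈ L.nb (bx r) → L.Cor true w M s k η →
      L.Oarm true r R w M s k (mix G (L.Rev false (bx R) (bx r)) ω η) := by
    intro s k V x hk hV htr hx hx' hcor
    exact os_land_arm (c := true) h (by omega) (Set.Subset.refl (bx R)) (Set.Subset.refl (bx r))
      hbx (hDN s k (by omega)) hcon (os_exact_bx_ob h (by omega) _) hCR hV htr (os_comp_ann hV) hx
      hx' hG hF.1 hcor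
  exact ⟨harm s k₁ V₁ x₁ hk₁ hV₁ ht hx₁ hnx₁ hF.2.1, harm s' k₃ V₃ x₃ hk₃ hV₃ ht' hx₃ hnx₃ hF.2.2,
    hmid i₂ _ _ h2a h2b h2c, hmid i₄ _ _ h4a h4b h4c⟩

end Lat

end SC
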