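import Pool.Agent.Lib_MP_e0a489.OS13
import Pool.Agent.Lib_MP_e0a489.OS7
import Pool.Agent.Lib_MP_e0a489.SH10

/-!
# MP_e0a489, outer separation 14: the two inequalities
-/

set_option autoImplicit false

namespace SC

open Classical

variable {L : Lat} {κ : ℕ → ℝ}

/-- the sets used by the fresh configuration are in `G` (`ib_nrm`, `ob_nrm`, `Fre.dep` with `r := R - w`) -/
theorem os_fre_dep_G (L : Lat) (c : Bool) {r R w M s k s' k' : ℤ} {G : Finset Pt}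
    (h : OPar r R w M) (hk : |k| + 2 ≤ M) (hk' : |k'| + 2 ≤ M)
    (hG : ∀ v, R - w < nrm v → nrm v ≤ R + w → v ∈ G) :
    Dep (L.Fre c (R - w) R w M s k s' k') (G : Set Pt) := by
  have hw0 := h.w0
  have hRw := h.Rw
  refine Lat.Fre.dep L c (by omega) h.od hw0 ?_ ?_ ?_
  · intro v hv
    exact Finset.mem_coe.2 (hG v hv.1 (by have := hv.2; omega))
  · rintro v (hv | hv)
    · have h1 := ib_nrm h.od hw0 h.eR (by omega) hv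
      exact Finset.mem_coe.2 (hG v h1.1 (by omega))
    · have h1 := ob_nrm h.od hw0 h.eR (by omega) hv
      exact Finset.mem_coe.2 (hG v (by omega) h1.2)
  · rintro v (hv | hv)
    · have h1 := ib_nrm h.od hw0 h.eR (by omega) hv
      exact Finset.mem_coe.2 (hG v h1.1 (by omega))
    · have h1 := ob_nrm h.od hw0 h.eR (by omega) hv
      exact Finset.mem_coe.2 (hG v (by omega) h1.2)

/-- `fre_pr` with `r := R - w` -/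
theorem os_fre_pr_G (h : RSW L κ) (c : Bool) {r R w M s k s' k' : ℤ} (hP : OPar r R w M) :
    κ (4 * (M.toNat + 3)) ^ 4 * κ 3 ^ 2 ≤ pr (L.Fre c (R - w) R w M s k s' k') := by
  have hw0 := hP.w0
  have hRw := hP.Rw
  have hM := hP.M2
  have hR := hP.eR
  exact fre_pr h c hP.od hP.w5 (by omega) (by omega) (by omega) (by omega)

/-- STEP 1: `resample_ex` with `R := Rev false (bx R) (bx r)` (`Rev_stop`), `τ = ι = ℤ × ℤ × ℤ × ℤ`, `P t = (t ∈ OTht R w M)`,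
`F t = Fre true (R - w) R w M ..`; `os_step1_det`, `os_fre_pr_G`, `os_fre_dep_G`. -/
theorem os_ineq1 (hL : RSW L κ) {r R w M β ℓ : ℤ} (h : OPar r R w M) (hβ : 48 * w ≤ β)
    (hℓ : 4 * β ≤ ℓ) (hℓR : R / 2 + ℓ < R) {G : Finset Pt}
    (hG : ∀ v, R - w < nrm v → nrm v ≤ R + w → v ∈ G) (ω : Cfg) :
    κ (4 * (M.toNat + 3)) ^ 4 * κ 3 ^ 2 * cpr G (fun ω => L.TwoA true r R ω ∧
        ¬ L.BadW false (ann (R / 2) R) R (4 * β) ℓ β (12 * w) ω) ω ≤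
      ∑ q ∈ OTht R w M, cpr G (L.E1o r R w M q.1 q.2.1 q.2.2.1 q.2.2.2) ω := by
  have c1 : ∀ t : ℤ × ℤ × ℤ × ℤ, t ∈ OTht R w M → κ (4 * (M.toNat + 3)) ^ 4 * κ 3 ^ 2 ≤
      pr (L.Fre true (R - w) R w M t.1 t.2.1 t.2.2.1 t.2.2.2) := fun t _ => os_fre_pr_G hL true h
  have c2 : ∀ t : ℤ × ℤ × ℤ × ℤ, t ∈ OTht R w M →
      Dep (L.Fre true (R - w) R w M t.1 t.2.1 t.2.2.1 t.2.2.2) (G : Set Pt) := by
    intro t ht
    have hp := mem_OTht ht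
    have h1 := hp.a₁
    have h3 := hp.a₃
    exact os_fre_dep_G L true h (by omega) (by omega) hG
  have c3 : ∀ ω, (L.TwoA true r R ω ∧
      ¬ L.BadW false (ann (R / 2) R) R (4 * β) ℓ β (12 * w) ω) →
      ∃ t : ℤ × ℤ × ℤ × ℤ, t ∈ OTht R w M ∧
        ∀ η, L.Fre true (R - w) R w M t.1 t.2.1 t.2.2.1 t.2.2.2 η → ∃ q ∈ OTht R w M,
          L.E1o r R w M q.1 q.2.1 q.2.2.1 q.2.2.2
            (mix G (L.Rev false (bx R) (bx r)) ω η) := by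
    rintro ω ⟨hT, hb⟩
    obtain ⟨q, hq, H⟩ := Lat.os_step1_det h hβ hℓ hℓR hT hb
    exact ⟨q, hq, fun η hη => ⟨q, hq, H G hG η hη⟩⟩
  exact resample_ex (R := L.Rev false (bx R) (bx r)) (Lat.Rev_stop L false (bx R) (bx r))
    (G := G) (ι := ℤ × ℤ × ℤ × ℤ) (τ := ℤ × ℤ × ℤ × ℤ) (I := OTht R w M)
    (E := fun ω => L.TwoA true r R ω ∧ ¬ L.BadW false (ann (R / 2) R) R (4 * β) ℓ β (12 * w) ω)
    (F := fun t => L.Fre true (R - w) R w M t.1 t.2.1 t.2.2.1 t.2.2.2)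
    (P := fun t => t ∈ OTht R w M)
    (E' := fun q => L.E1o r R w M q.1 q.2.1 q.2.2.1 q.2.2.2)
    (p := κ (4 * (M.toNat + 3)) ^ 4 * κ 3 ^ 2) c1 c2 c3 ω

/-- STEP 2: `resample_ex` with `R := Rev true D₂ S₂`, `τ = (ℤ × ℤ) × (ℤ × ℤ)`, `I = LamO μ Mc`; `os_step2_det`, `os_fre_pr_G`,
`os_fre_dep_G`. -/
theorem os_ineq2 (hL : RSW L κ) {r R w μ Mc B s₁ k₁ s₃ k₃ ℓ : ℤ}
    (h : OPar r R w (μ * Mc + μ / 2)) (h' : OPar r R (μ * w) Mc) (hμ : μ = 4 * B + 1)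
    (hB : 48 ≤ B) (hP : OPos R (μ * w) Mc s₁ k₁ s₃ k₃) {G : Finset Pt}
    (hG : ∀ v, R - w < nrm v → nrm v ≤ R + w → v ∈ G) (ω : Cfg) :
    κ (4 * ((μ * Mc + μ / 2).toNat + 3)) ^ 4 * κ 3 ^ 2 *
        cpr G (fun ω => L.E1o r R (μ * w) Mc s₁ k₁ s₃ k₃ ω ∧
          ¬ L.BadW false ∅ R 1 ℓ (B * w) (12 * w) ω) ω ≤
      ∑ q ∈ LamO μ Mc, cpr G (L.E2o r w μ Mc q.1 q.2.1 q.2.2) ω := by
  have c1 : ∀ t : (ℤ × ℤ) × (ℤ × ℤ), (|t.1.2| + 2 ≤ μ * Mc + μ / 2 ∧ |t.2.2| + 2 ≤ μ * Mc + μ / 2) →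
      κ (4 * ((μ * Mc + μ / 2).toNat + 3)) ^ 4 * κ 3 ^ 2 ≤
      pr (L.Fre false (R - w) R w (μ * Mc + μ / 2) t.1.1 t.1.2 t.2.1 t.2.2) :=
    fun t _ => os_fre_pr_G hL false h
  have c2 : ∀ t : (ℤ × ℤ) × (ℤ × ℤ), (|t.1.2| + 2 ≤ μ * Mc + μ / 2 ∧ |t.2.2| + 2 ≤ μ * Mc + μ / 2) →
      Dep (L.Fre false (R - w) R w (μ * Mc + μ / 2) t.1.1 t.1.2 t.2.1 t.2.2) (G : Set Pt) :=
    fun t ht => os_fre_dep_G L false h ht.1 ht.2 hG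
  have c3 : ∀ ω, (L.E1o r R (μ * w) Mc s₁ k₁ s₃ k₃ ω ∧
      ¬ L.BadW false ∅ R 1 ℓ (B * w) (12 * w) ω) →
      ∃ t : (ℤ × ℤ) × (ℤ × ℤ), (|t.1.2| + 2 ≤ μ * Mc + μ / 2 ∧ |t.2.2| + 2 ≤ μ * Mc + μ / 2) ∧
        ∀ η, L.Fre false (R - w) R w (μ * Mc + μ / 2) t.1.1 t.1.2 t.2.1 t.2.2 η →
          ∃ q ∈ LamO μ Mc, L.E2o r w μ Mc q.1 q.2.1 q.2.2 (mix G (L.Rev true
            (OD2 R (μ * w) Mc s₁ k₁ s₃ k₃) (OS2 r (μ * w) Mc s₁ k₁ s₃ k₃)) ω η) := by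
    rintro ω ⟨hE, hb⟩
    obtain ⟨t, ht, H⟩ := Lat.os_step2_det h h' hμ hB hP hE hb
    exact ⟨t, ht, fun η hη => H G hG η hη⟩
  exact resample_ex
    (R := L.Rev true (OD2 R (μ * w) Mc s₁ k₁ s₃ k₃) (OS2 r (μ * w) Mc s₁ k₁ s₃ k₃))
    (Lat.Rev_stop L true _ _) (G := G) (τ := (ℤ × ℤ) × (ℤ × ℤ)) (I := LamO μ Mc)
    (E := fun ω => L.E1o r R (μ * w) Mc s₁ k₁ s₃ k₃ ω ∧
      ¬ L.BadW false ∅ R 1 ℓ (B * w) (12 * w) ω)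
    (F := fun t => L.Fre false (R - w) R w (μ * Mc + μ / 2) t.1.1 t.1.2 t.2.1 t.2.2)
    (P := fun t => |t.1.2| + 2 ≤ μ * Mc + μ / 2 ∧ |t.2.2| + 2 ≤ μ * Mc + μ / 2)
    (E' := fun q => L.E2o r w μ Mc q.1 q.2.1 q.2.2)
    (p := κ (4 * ((μ * Mc + μ / 2).toNat + 3)) ^ 4 * κ 3 ^ 2) c1 c2 c3 ω

/-- THE BAD PART.  `E ⊆ D`, `D` does not depend on `G`, `B` depends only on `G`:
`cpr G (E ∧ B) ≤ cpr G (B ∧ D) = av G (ind B * ind D) = ind D * av G (ind B) = ind D * pr B` (`cpr_mono`, `av_mul_left`,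
`cpr_eq_pr`). -/
theorem os_cpr_bad {G : Finset Pt} {E B D : Cfg → Prop} {A : Set Pt} (hD : Dep D A)
    (hA : ∀ v ∈ A, v ∉ G) (hB : Dep B (G : Set Pt)) (hED : ∀ ω, E ω → D ω) (ω : Cfg) :
    cpr G (fun ω => E ω ∧ B ω) ω ≤ pr B * ind D ω := by
  have h1 : cpr G (fun ω => E ω ∧ B ω) ω ≤ cpr G (fun ω => D ω ∧ B ω) ω :=
    cpr_mono fun ω' _ hh => ⟨hED ω' hh.1, hh.2⟩
  have h2 : ind (fun ω => D ω ∧ B ω) = fun ω => ind D ω * ind B ω := by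
    funext ω'
    unfold ind
    by_cases hd : D ω'
    · by_cases hb : B ω'
      · rw [if_pos hd, if_pos hb, if_pos ⟨hd, hb⟩, mul_one]
      · rw [if_pos hd, if_neg hb, if_neg fun hh => hb hh.2, mul_zero]
    · rw [if_neg hd, if_neg fun hh => hd hh.1, zero_mul]
  have h3 : cpr G (fun ω => D ω ∧ B ω) ω = ind D ω * pr B := by
    have h4 : cpr G (fun ω => D ω ∧ B ω) ω = ind D ω * av G (ind B) ω := by
      unfold cpr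
      rw [h2]
      exact av_mul_left (g := ind B) hD.ind (fun v hv hA' => hA v hA' hv) ω
    rw [h4]
    congr 1
    exact cpr_eq_pr hB ω
  rw [h3, mul_comm] at h1
  exact h1

/-- `cpr_mono`, `cpr_or_le` -/
theorem os_cpr_split (G : Finset Pt) (E B : Cfg → Prop) (ω : Cfg) :
    cpr G E ω ≤ cpr G (fun ω => E ω ∧ B ω) ω + cpr G (fun ω => E ω ∧ ¬ B ω) ω := by
  refine le_trans (cpr_mono (B := fun ω => (E ω ∧ B ω) ∨ (E ω ∧ ¬ B ω)) fun ω' _ hE => ?_)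
    (cpr_or_le G (fun ω => E ω ∧ B ω) (fun ω => E ω ∧ ¬ B ω) ω)
  by_cases hb : B ω'
  · exact Or.inl ⟨hE, hb⟩
  · exact Or.inr ⟨hE, hb⟩

end SC
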