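import Pool.Agent.Lib_MP_e0a489.IS2
import Pool.Agent.Lib_MP_e0a489.OS1
import Pool.Agent.Lib_MP_e0a489.SH8

/-!
# MP_e0a489, outer separation 2: distances between outer blocks and sites of the ring
-/

set_option autoImplicit false

namespace SC

open Classical

private theorem os2_kw {R w M k c : ℤ} (hw : 0 < w) (hR : R = M * w + w / 2)
    (hk : |k| + c ≤ M) : |k * w| + c * w + w / 2 ≤ R := by
  rw [abs_mul, abs_of_pos hw]
  have h1 : (|k| + c) * w ≤ M * w := mul_le_mul_of_nonneg_right hk hw.le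
  rw [add_mul] at h1
  omega

/-- A site of the side `s'` that is not in the triple of the cell `(s, k)`, `s ≡ s'` modulo 4: its coordinate is
outside the triple.  Proof: `s' = s + 4 t'`, let `t` be as in `OFar`.  `|(k ± 1) w ± w / 2| < R` (because
`|k| + 100 ≤ M`) and `|y| < R`.  `lex_of_idx` for `oei R w (s + 4 t) k < 2 R s' + y` gives `s + 4 t < s'` or
(`s + 4 t = s'` and `(k + 1) w + w / 2 < y`, done); `lex_of_idx` for `2 R s' + y < osi R w (s + 4 t) k + 8 R`
`= 2 R (s + 4 t + 4) + ..` gives `s' < s + 4 t + 4` or (`=` and `y < ..`, done); `4 t < 4 t' < 4 t + 4` is impossible. -/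
theorem os_fari_side {r R w M s k s' y : ℤ} (h : OPar r R w M) (hk : |k| + 100 ≤ M)
    (hs : s % 4 = s' % 4) (hy : |y| + 100 * w ≤ R) (hF : OFar R w s k (2 * R * s' + y)) :
    (k + 1) * w + w / 2 < y ∨ y < (k - 1) * w - w / 2 := by
  obtain ⟨t, h1, h2⟩ := hF
  have hw := h.w0
  have hkw := os2_kw (c := 100) hw h.eR hk
  have e1 : (k + 1) * w = k * w + w := by ring
  have e2 : (k - 1) * w = k * w - w := by ring
  have a1 := neg_abs_le (k * w)
  have a2 := le_abs_self (k * w)
  have a3 := neg_abs_le y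
  have a4 := le_abs_self y
  have l1 := lex_of_idx (m := R) (s := s + 4 * t) (s' := s') (y := (k + 1) * w + w / 2) (y' := y)
    (by rw [abs_lt]; omega) (by omega) (by
      unfold oei at h1
      omega)
  have l2 := lex_of_idx (m := R) (s := s') (s' := s + 4 * t + 4) (y := y)
    (y' := (k - 1) * w - w / 2) (by omega) (by rw [abs_lt]; omega) (by
      unfold osi at h2
      have e3 : 2 * R * (s + 4 * t + 4) = 2 * R * (s + 4 * t) + 8 * R := by ring
      omega)
  omega

/-- DISTANCE.  The sites of the ring next to the block `(s, k)` have distance at least `w` from a site of the ring which is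
not in the triple.  Proof: `s ≡ s'` modulo 4: `os_fari_side`, `side_near`.  Otherwise `side_far` with `m = R`, `g = w`
(`|y'| ≤ |k| w + w / 2 + 1 ≤ R - 2 w`). -/
theorem os_mid_far {r R w M s k s' y y' : ℤ} (h : OPar r R w M) (hk : |k| + 100 ≤ M)
    (hy : |y| + 100 * w ≤ R) (hF : OFar R w s k (2 * R * s' + y))
    (h1 : k * w - w / 2 - 1 ≤ y') (h2 : y' ≤ k * w + w / 2 + 1) :
    w ≤ nrm (rt s' (R, y) - rt s (R, y')) := by
  have hw := h.w0
  have hw5 := h.w5
  have hkw := os2_kw (c := 100) hw h.eR hk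
  have a1 := neg_abs_le (k * w)
  have a2 := le_abs_self (k * w)
  by_cases hs : s % 4 = s' % 4
  · refine le_trans ?_ (side_near hs.symm)
    have h3 := os_fari_side h hk hs hy hF
    have e1 : (k + 1) * w = k * w + w := by ring
    have e2 : (k - 1) * w = k * w - w := by ring
    rw [e1, e2] at h3
    have a5 := neg_abs_le (y - y')
    have a6 := le_abs_self (y - y')
    omega
  · refine side_far (m := R) (g := w) hw.le ?_ (fun e => hs e.symm) ?_ ?_ ?_ ?_
    · have := h.Rw
      omega
    · omega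
    · omega
    · omega
    · rw [abs_le]
      omega

/-- In step 2 both ring sites are outside both triples: the positions `(s₁, k₁)`, `(s₃, k₃)` and an index `i` between the
triples.  Proof: for `(s₁, k₁)` take `t = 0`; for `(s₃, k₃)` take `t = -1` in the first case and `t = 0` in the
second case (`oei R w (s + 4 t) k = oei R w s k + 8 R t`; `osi ≤ oei`). -/
theorem os_fari_mid {R w M s₁ k₁ s₃ k₃ i : ℤ} (hw : 0 < w) (hR : 0 < R)
    (h : OPos R w M s₁ k₁ s₃ k₃)
    (hi : (oei R w s₁ k₁ < i ∧ i < osi R w s₃ k₃) ∨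
      (oei R w s₃ k₃ < i ∧ i < osi R w s₁ k₁ + 8 * R)) :
    OFar R w s₁ k₁ i ∧ OFar R w s₃ k₃ i := by
  have e1 : ∀ s t k : ℤ, oei R w (s + 4 * t) k = oei R w s k + 8 * R * t := by
    intro s t k
    unfold oei
    ring
  have e2 : ∀ s t k : ℤ, osi R w (s + 4 * t) k = osi R w s k + 8 * R * t := by
    intro s t k
    unfold osi
    ring
  have e3 : ∀ s k : ℤ, osi R w s k ≤ oei R w s k := by
    intro s k
    unfold osi oei
    have e4 : (k + 1) * w = (k - 1) * w + 2 * w := by ring
    omega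
  have o1 := h.o₁
  have o3 := h.o₃
  have m1 := e3 s₁ k₁
  have m3 := e3 s₃ k₃
  rcases hi with ⟨h1, h2⟩ | ⟨h1, h2⟩
  · refine ⟨⟨0, ?_, ?_⟩, ⟨-1, ?_, ?_⟩⟩
    · rw [e1]
      omega
    · rw [e2]
      omega
    · rw [e1]
      omega
    · rw [e2]
      omega
  · refine ⟨⟨0, ?_, ?_⟩, ⟨0, ?_, ?_⟩⟩
    · rw [e1]
      omega
    · rw [e2]
      omega
    · rw [e1]
      omega
    · rw [e2]
      omega

namespace Lat

variable {L : Lat}

/-- sites that are equal or adjacent have distance at most one (`Adj.near`) -/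
theorem os_apart_of {A B : Set Pt} (h : ∀ u ∈ A, ∀ v ∈ B, 2 ≤ nrm (u - v)) : L.OApart A B := by
  intro u hu v hv
  have h1 := h u hu v hv
  refine ⟨?_, ?_⟩
  · rintro rfl
    rw [sub_self] at h1
    have h2 : nrm (0 : Pt) = 0 := by
      show max |(0 : ℤ)| |(0 : ℤ)| = 0
      rw [abs_zero, max_self]
    omega
  · intro hadj
    obtain ⟨n1, n2⟩ := hadj.near
    have h2 : nrm (u - v) ≤ 1 := max_le n1 n2
    omega

/-- Two outer blocks, possibly of different sizes.  Proof: `ob_mem`, `os_apart_of`; on the same side (modulo 4) `side_near`;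
on different sides `side_far` with `m = R`, `g = 2` (`|y| ≤ |k| w + w / 2 ≤ R - 4`). -/
theorem os_ob_apart {r R w M s k w' M' s' k' : ℤ} (h : OPar r R w M) (h' : OPar r R w' M')
    (hk : |k| + 2 ≤ M) (hk' : |k'| + 2 ≤ M')
    (hs : s % 4 = s' % 4 → k * w + w / 2 + 1 < k' * w' - w' / 2 ∨
      k' * w' + w' / 2 + 1 < k * w - w / 2) :
    L.OApart (ob w M s k) (ob w' M' s' k') := by
  refine os_apart_of fun u hu v hv => ?_
  obtain ⟨x, y, a1, a2, a3, a4, rfl⟩ := (ob_mem h.od h.w0 h.eR).1 hu
  obtain ⟨x', y', b1, b2, b3, b4, rfl⟩ := (ob_mem h'.od h'.w0 h'.eR).1 hv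
  by_cases hss : s % 4 = s' % 4
  · refine le_trans ?_ (side_near hss)
    have h3 := hs hss
    have a5 := neg_abs_le (y - y')
    have a6 := le_abs_self (y - y')
    omega
  · have hkw := os2_kw (c := 2) h.w0 h.eR hk
    have hkw' := os2_kw (c := 2) h'.w0 h'.eR hk'
    have c1 := neg_abs_le (k * w)
    have c2 := le_abs_self (k * w)
    have c3 := neg_abs_le (k' * w')
    have c4 := le_abs_self (k' * w')
    have w5 := h.w5
    have w5' := h'.w5
    have hRw := h.Rw
    refine side_far (m := R) (g := 2) (by omega) (by omega) hss (by omega) (by omega) ?_ ?_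
    · rw [abs_le]
      omega
    · rw [abs_le]
      omega

/-- the two coarse blocks of a position (`os_ob_apart`; the order of the triples gives the separation: if
`s₁ ≡ s₃` modulo 4 use `os_fari_side` for the index `2 R s₃ + k₃ w`, which is not in the triple of `(s₁, k₁)`) -/
theorem os_pos_apart {r R w M s₁ k₁ s₃ k₃ : ℤ} (h : OPar r R w M) (hP : OPos R w M s₁ k₁ s₃ k₃) :
    L.OApart (ob w M s₁ k₁) (ob w M s₃ k₃) := by
  have hw := h.w0
  have w5 := h.w5
  have ha1 := hP.a₁
  have ha3 := hP.a₃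
  have o1 := hP.o₁
  have o3 := hP.o₃
  have hkw3 := os2_kw (c := 100) hw h.eR ha3
  refine os_ob_apart h h (by omega) (by omega) fun hs => ?_
  have e1 : (k₁ + 1) * w = k₁ * w + w := by ring
  have e2 : (k₁ - 1) * w = k₁ * w - w := by ring
  have e3 : (k₃ + 1) * w = k₃ * w + w := by ring
  have e4 : (k₃ - 1) * w = k₃ * w - w := by ring
  have e5 : 2 * R * (s₁ + 4 * 0) = 2 * R * s₁ := by ring
  unfold oei osi at o1 o3
  have h3 := os_fari_side (s' := s₃) (y := k₃ * w) h ha1 hs (by omega) ⟨0, by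
    unfold oei
    omega, by
    unfold osi
    omega⟩
  omega

/-- A fine block near a ring site which is not in the triple of a coarse block (`os_ob_apart`; on the same side by
`os_fari_side` the coordinate `y` is at distance `> μ w + μ w / 2` from `k μ w`, and the fine block is within `7 w` of `y`). -/
theorem os_fine_apart {r R w M μ Mc s k s' k' y : ℤ} (h : OPar r R w M) (h' : OPar r R (μ * w) Mc)
    (hμ : 10 ≤ μ) (hk : |k| + 100 ≤ Mc) (hk' : |k'| + 2 ≤ M)
    (hy : |y| + 100 * (μ * w) ≤ R) (hF : OFar R (μ * w) s k (2 * R * s' + y))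
    (hky : |k' * w - y| ≤ 6 * w) : L.OApart (ob (μ * w) Mc s k) (ob w M s' k') := by
  have hw := h.w0
  have w5 := h.w5
  have hμw : 10 * w ≤ μ * w := mul_le_mul_of_nonneg_right hμ hw.le
  refine os_ob_apart h' h (by omega) hk' fun hs => ?_
  have h3 := os_fari_side h' hk hs hy hF
  have e1 : (k + 1) * (μ * w) = k * (μ * w) + μ * w := by ring
  have e2 : (k - 1) * (μ * w) = k * (μ * w) - μ * w := by ring
  rw [abs_le] at hky
  omega

end Lat

end SC
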