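import Pool.Agent.Lib_MP_e0a489.IS2
import Pool.Agent.Lib_MP_e0a489.OS1

/-!
# MP_e0a489, outer separation 3: outer blocks, neighbours, exactness
-/

set_option autoImplicit false

namespace SC

open Classical

private theorem os3_y {w M k y : ℤ} (hw : w % 2 = 1) (hw0 : 0 < w) (hk : |k| < M)
    (h1 : k * w - w / 2 ≤ y) (h2 : y ≤ k * w + w / 2) : |y| + 1 ≤ M * w - w / 2 := by
  have h3 := abs_lt.1 hk
  have h4 : k * w ≤ (M - 1) * w := mul_le_mul_of_nonneg_right (by omega) hw0.le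
  have h5 : -(M - 1) * w ≤ k * w := mul_le_mul_of_nonneg_right (by omega) hw0.le
  have h6 : (M - 1) * w = M * w - w := by ring
  have h7 : -(M - 1) * w = w - M * w := by ring
  rw [h6] at h4
  rw [h7] at h5
  rcases abs_cases y with ⟨a, _⟩ | ⟨a, _⟩ <;> rw [a] <;> omega

private theorem os3_lip {L : Lat} {u v : Pt} (h : L.Adj u v) : nrm v ≤ nrm u + 1 := by
  obtain ⟨h1, h2⟩ := h.near
  have h1' := abs_le.1 h1
  have h2' := abs_le.1 h2
  have a1 : |u.1| ≤ nrm u := le_max_left _ _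
  have a2 : |u.2| ≤ nrm u := le_max_right _ _
  have b1 := abs_le.1 a1
  have b2 := abs_le.1 a2
  refine max_le ?_ ?_
  · rw [abs_le]
    constructor <;> omega
  · rw [abs_le]
    constructor <;> omega

private theorem os3_ring {L : Lat} {w M s k R : ℤ} (hw : w % 2 = 1) (hw0 : 0 < w)
    (hR : R = M * w + w / 2) (hk : |k| < M) {u v : Pt} (hv : v ∈ ob w M s k) (hu : u ∈ bx R)
    (h : L.Adj u v) : u ∈ rng R := by
  have h1 := (ob_nrm hw hw0 hR hk hv).1
  have h2 := os3_lip h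
  have h3 : nrm u ≤ R := hu
  show nrm u = R
  omega

private theorem os3_out {w M s k R : ℤ} (hw : w % 2 = 1) (hw0 : 0 < w)
    (hR : R = M * w + w / 2) (hk : |k| < M) {v : Pt} (hv : v ∈ ob w M s k) : v ∉ bx R :=
  not_le.2 (ob_nrm hw hw0 hR hk hv).1

private theorem os3_rng (R : ℤ) : rng R ⊆ bx R := fun _ hv => le_of_eq hv


namespace Lat

variable {L : Lat}

/-- a block is a rectangle -/
theorem os_con_ob (w M s k : ℤ) : L.Con (ob w M s k) := con_rect _ _ _ _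

/-- ADDING AN OUTER BLOCK to a domain: `exact_add_out` with `m = R` (`ob_eq`, `b = R + w`, `p = k w - w/2`,
`q = k w + w/2`). -/
theorem os_exact_ob {w M s k R : ℤ} {D C : Set Pt} (hw : w % 2 = 1) (hw0 : 0 < w)
    (hR : R = M * w + w / 2) (hM : 1 ≤ M) (hk : |k| < M) (h : L.Exact D C) (hring : rng R ⊆ D)
    (h1 : ∀ v ∈ ob w M s k, ∀ u ∈ D, L.Adj u v → u ∈ rng R)
    (h2 : ∀ v ∈ ob w M s k, v ∉ D) : L.Exact (D ∪ ob w M s k) C := by
  have h3 := os3_y (y := k * w - w / 2) hw hw0 hk le_rfl (by omega)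
  have h4 := os3_y (y := k * w + w / 2) hw hw0 hk (by omega) le_rfl
  have h3' := abs_nonneg (k * w - w / 2)
  have h5 := neg_abs_le (k * w - w / 2)
  have h6 := le_abs_self (k * w + w / 2)
  have e : ob w M s k = rt s '' rect (R + 1) (R + w) (k * w - w / 2) (k * w + w / 2) := by
    rw [ob_eq hw hw0, hR]
  rw [e] at h1 h2 ⊢
  exact exact_add_out h (m := R) (by omega) (by omega) (by omega) (by omega) (by omega)
    hring h1 h2

/-- neighbours of an outer block inside `bx R` are on the ring `R`, in the middle cell enlarged by one -/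
theorem os_ob_nbr {w M s k R : ℤ} {u v : Pt} (hw : w % 2 = 1) (hw0 : 0 < w)
    (hR : R = M * w + w / 2) (hv : v ∈ ob w M s k) (hu : u ∈ bx R) (h : L.Adj u v) :
    ∃ y, k * w - w / 2 - 1 ≤ y ∧ y ≤ k * w + w / 2 + 1 ∧ u = rt s (R, y) := by
  obtain ⟨x, y, h1, h2, h3, h4, rfl⟩ := (ob_mem hw hw0 hR).1 hv
  obtain ⟨⟨a, b⟩, rfl⟩ : ∃ p, u = rt s p := ⟨(rt s).symm u, by rw [Equiv.apply_symm_apply]⟩
  have h6 := ((tr_rots L s).adj (a, b) (x, y)).2 h
  obtain ⟨h7, h8⟩ := h6.near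
  simp only at h7 h8
  have h7' := abs_le.1 h7
  have h8' := abs_le.1 h8
  have h9 : nrm (rt s (a, b)) ≤ R := hu
  rw [nrm_rt] at h9
  have h10 : |a| ≤ R := (le_max_left |a| |b|).trans h9
  have h11 := abs_le.1 h10
  have ha1 : a = R := by omega
  subst ha1
  exact ⟨b, by omega, by omega, rfl⟩

/-- the block is next to its triple: `rt s (R + 1, k w)` and `rt s (R, k w)` -/
theorem os_ob_touch {w M s k R : ℤ} (hw : w % 2 = 1) (hw0 : 0 < w) (hR : R = M * w + w / 2)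
    (hM : 1 ≤ M) (hk : |k| < M) : ∃ v ∈ ob w M s k, ∃ u ∈ trip w R s k, L.Adj u v := by
  have h5 := os3_y (y := k * w) hw hw0 hk (by omega) (by omega)
  have h5' := abs_nonneg (k * w)
  refine ⟨rt s (R + 1, k * w), (ob_mem hw hw0 hR).2 ⟨R + 1, k * w, by omega, by omega, by omega,
    by omega, rfl⟩, rt s (R, k * w), ⟨2 * R * s + k * w, ?_, ?_, ?_⟩, ?_⟩
  · have : (k - 1) * w = k * w - w := by ring
    omega
  · have : (k + 1) * w = k * w + w := by ring
    omega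
  · exact rc_side (by omega) (by omega)
  · exact ((tr_rots L s).adj (R, k * w) (R + 1, k * w)).1 (adj_right (R, k * w))

/-- `bx R = rect (-R) R (-R) R`, `exact_rect` -/
theorem os_exact_bx (R : ℤ) (C : Set Pt) : L.Exact (bx R) C := by
  have e : bx R = rect (-R) R (-R) R := by
    ext v
    show max |v.1| |v.2| ≤ R ↔ (-R ≤ v.1 ∧ v.1 ≤ R) ∧ -R ≤ v.2 ∧ v.2 ≤ R
    rw [max_le_iff, abs_le, abs_le]
  rw [e]
  exact exact_rect _ _ _ _ _

/-- `bx R` with one outer block -/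
theorem os_exact_bx_ob {r R w M s k : ℤ} (h : OPar r R w M) (hk : |k| + 2 ≤ M) (C : Set Pt) :
    L.Exact (bx R ∪ ob w M s k) C := by
  have hM := h.M2
  have h0 := abs_nonneg k
  exact os_exact_ob h.od h.w0 h.eR (by omega) (by omega) (os_exact_bx R C) (os3_rng R)
    (fun v hv u hu ha => os3_ring h.od h.w0 h.eR (by omega) hv hu ha)
    (fun v hv => os3_out h.od h.w0 h.eR (by omega) hv)

/-- `bx R` with two blocks which are apart: `os_exact_ob` twice (`os_ob_nbr`, `ob_nrm`) -/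
theorem os_exact_D2 {r R w M s₁ k₁ s₃ k₃ : ℤ} (h : OPar r R w M) (hk₁ : |k₁| + 2 ≤ M)
    (hk₃ : |k₃| + 2 ≤ M) (ha : L.OApart (ob w M s₁ k₁) (ob w M s₃ k₃)) (C : Set Pt) :
    L.Exact (OD2 R w M s₁ k₁ s₃ k₃) C := by
  have hM := h.M2
  have e : OD2 R w M s₁ k₁ s₃ k₃ = (bx R ∪ ob w M s₁ k₁) ∪ ob w M s₃ k₃ :=
    (Set.union_assoc _ _ _).symm
  rw [e]
  refine os_exact_ob h.od h.w0 h.eR (by omega) (by omega) (os_exact_bx_ob h hk₁ C)
    ((os3_rng R).trans Set.subset_union_left) ?_ ?_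
  · rintro v hv u (hu | hu) had
    · exact os3_ring h.od h.w0 h.eR (by omega) hv hu had
    · exact absurd had (ha u hu v hv).2
  · rintro v hv (hu | hu)
    · exact os3_out h.od h.w0 h.eR (by omega) hv hu
    · exact (ha v hu v hv).1 rfl

/-- `bx R` with two coarse blocks and a fine block -/
theorem os_exact_D2_ob {r R w M s₁ k₁ s₃ k₃ w' M' s' k' : ℤ} (h : OPar r R w M)
    (h' : OPar r R w' M') (hk₁ : |k₁| + 2 ≤ M) (hk₃ : |k₃| + 2 ≤ M) (hk' : |k'| + 2 ≤ M')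
    (ha : L.OApart (ob w M s₁ k₁) (ob w M s₃ k₃)) (ha₁ : L.OApart (ob w M s₁ k₁) (ob w' M' s' k'))
    (ha₃ : L.OApart (ob w M s₃ k₃) (ob w' M' s' k')) (C : Set Pt) :
    L.Exact (OD2 R w M s₁ k₁ s₃ k₃ ∪ ob w' M' s' k') C := by
  have hM := h.M2
  have hM' := h'.M2
  refine os_exact_ob h'.od h'.w0 h'.eR (by omega) (by omega) (os_exact_D2 h hk₁ hk₃ ha C)
    ((os3_rng R).trans Set.subset_union_left) ?_ ?_
  · rintro v hv u (hu | hu | hu) had
    · exact os3_ring h'.od h'.w0 h'.eR (by omega) hv hu had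
    · exact absurd had (ha₁ u hu v hv).2
    · exact absurd had (ha₃ u hu v hv).2
  · rintro v hv (hu | hu | hu)
    · exact os3_out h'.od h'.w0 h'.eR (by omega) hv hu
    · exact (ha₁ v hu v hv).1 rfl
    · exact (ha₃ v hu v hv).1 rfl

/-- the sites of `OD2` which are not in the source `OS2` -/
theorem os_D2_diff {r R w M s₁ k₁ s₃ k₃ : ℤ} (h : OPar r R w M) (hk₁ : |k₁| + 2 ≤ M)
    (hk₃ : |k₃| + 2 ≤ M) : OD2 R w M s₁ k₁ s₃ k₃ \ OS2 r w M s₁ k₁ s₃ k₃ = ann r R := by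
  have hM := h.M2
  ext v
  constructor
  · rintro ⟨h1, h2⟩
    have h3 : v ∉ bx r := fun hh => h2 (Or.inl hh)
    rcases h1 with h1 | h1
    · exact ⟨not_le.1 h3, h1⟩
    · exact absurd (Or.inr h1) h2
  · rintro ⟨h1, h2⟩
    refine ⟨Or.inl h2, ?_⟩
    rintro (h3 | h3 | h3)
    · exact absurd h3 (not_le.2 h1)
    · exact os3_out h.od h.w0 h.eR (by omega) h3 h2
    · exact os3_out h.od h.w0 h.eR (by omega) h3 h2

theorem os_S2_sub {r R w M s₁ k₁ s₃ k₃ : ℤ} (h : OPar r R w M) :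
    OS2 r w M s₁ k₁ s₃ k₃ ⊆ OD2 R w M s₁ k₁ s₃ k₃ := by
  have h1 := h.r1
  have h2 := h.r8
  refine Set.union_subset_union_left _ ?_
  intro v hv
  have h3 : nrm v ≤ r := hv
  show nrm v ≤ R
  omega

end Lat

end SC
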