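import Pool.Agent.Lib_MP_e0a489.EX1
import Pool.Agent.Lib_MP_e0a489.OS3
import Pool.Agent.Lib_MP_e0a489.TC3

/-!
# MP_e0a489, outer separation 5: first exploration, the two components

`C = Cx false (bx R) (bx r) ω`: `bx r` and all closed clusters of `ann r R` attached to it.
-/

set_option autoImplicit false

namespace SC

open Classical

private theorem os5_per {R : ℤ} (hR : 1 ≤ R) (i t : ℤ) : rc R (i + 8 * R * t) = rc R i := by
  have h1 : Function.Periodic (rc R) (8 * R) := fun i => rc_period hR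
  have h2 := h1.int_mul t i
  rw [Int.cast_id, mul_comm t] at h2
  exact h2

private theorem os5_arc {R : ℤ} (hR : 1 ≤ R) (a b t : ℤ) :
    arc R (a + 8 * R * t) (b + 8 * R * t) = arc R a b := by
  ext v
  constructor
  · rintro ⟨k, h1, h2, rfl⟩
    refine ⟨k - 8 * R * t, by omega, by omega, ?_⟩
    have h3 := os5_per hR (k - 8 * R * t) t
    rw [sub_add_cancel] at h3
    exact h3.symm
  · rintro ⟨k, h1, h2, rfl⟩
    exact ⟨k + 8 * R * t, by omega, by omega, os5_per hR k t⟩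

private theorem os5_trip {R : ℤ} (hR : 1 ≤ R) (w s k t : ℤ) :
    trip w R (s + 4 * t) k = trip w R s k := by
  have h := os5_arc hR (osi R w s k) (oei R w s k) t
  have e1 : osi R w (s + 4 * t) k = osi R w s k + 8 * R * t := by
    unfold osi
    ring
  have e2 : oei R w (s + 4 * t) k = oei R w s k + 8 * R * t := by
    unfold oei
    ring
  rw [os_trip_eq, os_trip_eq, e1, e2]
  exact h

private theorem os5_y {R w M k : ℤ} (hw : 5 ≤ w) (hR : R = M * w + w / 2) (hk : |k| + 100 ≤ M) :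
    -R < (k - 1) * w - w / 2 ∧ (k + 1) * w + w / 2 < R := by
  have h1 := abs_le.1 (show |k| ≤ M - 100 by omega)
  have h2 : -(M - 100) * w ≤ k * w := mul_le_mul_of_nonneg_right h1.1 (by omega)
  have h3 : k * w ≤ (M - 100) * w := mul_le_mul_of_nonneg_right h1.2 (by omega)
  have e1 : -(M - 100) * w = 100 * w - M * w := by ring
  have e2 : (M - 100) * w = M * w - 100 * w := by ring
  have e3 : (k - 1) * w = k * w - w := by ring
  have e4 : (k + 1) * w = k * w + w := by ring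
  rw [e1] at h2
  rw [e2] at h3
  rw [e3, e4]
  constructor <;> omega

namespace Lat

variable {L : Lat}

private theorem os5_ne {R : ℤ} {C V V' : Set Pt} (hV : L.Comp (bx R \ C) V)
    (hV' : L.Comp (bx R \ C) V') (hne : V ≠ V') {v : Pt} (h : v ∈ V) (h' : v ∈ V') : False :=
  hne (Comp.eq hV hV' h h')

private theorem os5_gap {R : ℤ} (hR : 1 ≤ R) {C V V' : Set Pt} (hV : L.Comp (bx R \ C) V)
    (hV' : L.Comp (bx R \ C) V') (hne : V ≠ V') {a b c d : ℤ} (hab : a ≤ b) (hbc : b < c)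
    (hcd : c ≤ d) (h1 : arc R a b ⊆ V) (h2 : arc R c d ⊆ V') :
    ∃ i, b < i ∧ i < c ∧ rc R i ∈ C := by
  by_contra hno
  have h3 : arc R a d ⊆ bx R \ C := by
    rintro v ⟨i, hi1, hi2, rfl⟩
    rcases le_or_gt i b with h4 | h4
    · exact hV.sub (h1 ⟨i, hi1, h4, rfl⟩)
    rcases lt_or_ge i c with h5 | h5
    · refine ⟨le_of_eq (rc_nrm hR), fun h6 => hno ⟨i, h4, h5, h6⟩⟩
    · exact hV'.sub (h2 ⟨i, h5, hi2, rfl⟩)
  have h4 := hV.absorb (con_arc hR a d) h3 ⟨rc R a, ⟨a, le_rfl, by omega, rfl⟩,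
    h1 ⟨a, le_rfl, hab, rfl⟩⟩
  exact os5_ne hV hV' hne (h4 ⟨c, by omega, hcd, rfl⟩) (h2 ⟨c, le_rfl, hcd, rfl⟩)

/-- `bx R \ bx r = ann r R` -/
theorem os_bx_diff (r R : ℤ) : bx R \ bx r = ann r R := by
  ext v
  constructor
  · rintro ⟨h1, h2⟩
    exact ⟨not_le.1 h2, h1⟩
  · rintro ⟨h1, h2⟩
    exact ⟨h2, not_le.2 h1⟩

/-- the explored set is connected (`Cx_con`, `con_bx`) and contained in `bx R` (`Cx_sub`) -/
theorem os_C1_con {r R : ℤ} (ω : Cfg) (hrR : r ≤ R) :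
    L.Con (L.Cx false (bx R) (bx r) ω) ∧ L.Cx false (bx R) (bx r) ω ⊆ bx R ∧
      bx r ⊆ L.Cx false (bx R) (bx r) ω :=
  ⟨Cx_con (con_bx r), Cx_sub (fun _ hv => le_trans hv hrR), Cx_sup⟩

private theorem os5_open {r R : ℤ} {ω : Cfg} {v : Pt} (hv : v ∈ ann r R ∩ L.col true ω) :
    v ∈ bx R \ L.Cx false (bx R) (bx r) ω := by
  refine ⟨hv.1.2, fun h => ?_⟩
  have h1 : v ∈ L.col false ω := (Cx_col h (fun h' => absurd h' (not_le.2 hv.1.1))).2
  have h2 : L.st ω v = true := hv.2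
  have h3 : L.st ω v = false := h1
  rw [h2] at h3
  exact Bool.noConfusion h3

/-- THE TWO COMPONENTS.  `x₁ - y₁`, `x₃ - y₃` the two open arms.  The sites of the arms are open and in `ann r R`, so they are
not in `C` (`Cx_col`).  `V_i` = cluster of `y_i` in `bx R \ C` (`comp_cluster`); the arm is contained in `bx R \ C`, so
`x_i ∈ V_i` (`Cn.mono`, `Cn.symm`).  If `V₁ = V₃` then `x₁`, `x₃` would be joined by `step_ne` (`c = true`, `M = bx R`, `S = bx r`; `bd V C` is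
connected by `con_bd`, `os_exact_bx`).  `V ⊆ bx R \ C ⊆ ann r R`. -/
theorem os_two_comps {r R : ℤ} {ω : Cfg} (hr : 0 ≤ r) (hrR : r < R) (h : L.TwoA true r R ω) :
    ∃ V₁ V₃ x₁ y₁ x₃ y₃, L.Comp (bx R \ L.Cx false (bx R) (bx r) ω) V₁ ∧
      L.Comp (bx R \ L.Cx false (bx R) (bx r) ω) V₃ ∧ V₁ ≠ V₃ ∧ x₁ ∈ V₁ ∧ y₁ ∈ V₁ ∧ x₃ ∈ V₃ ∧
      y₃ ∈ V₃ ∧ x₁ ∈ L.nb (bx r) ∧ x₃ ∈ L.nb (bx r) ∧ nrm y₁ = R ∧ nrm y₃ = R ∧
      L.Cn (ann r R ∩ L.col true ω) y₁ x₁ ∧ L.Cn (ann r R ∩ L.col true ω) y₃ x₃ := by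
  obtain ⟨x₁, hx₁, y₁, hy₁, x₃, hx₃, y₃, hy₃, h1, h3, hno⟩ := h
  have c1 := h1.symm
  have c3 := h3.symm
  have g1 := c1.mono (fun v hv => os5_open hv)
  have g3 := c3.mono (fun v hv => os5_open hv)
  have hV₁ := comp_cluster (L := L) g1.left
  have hV₃ := comp_cluster (L := L) g3.left
  refine ⟨_, _, x₁, y₁, x₃, y₃, hV₁, hV₃, ?_, g1, Cn.refl g1.left, g3, Cn.refl g3.left, hx₁, hx₃,
    hy₁, hy₃, c1, c3⟩
  intro he
  apply hno
  obtain ⟨hC, hCR, hrC⟩ := os_C1_con (L := L) ω hrR.le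
  have hB := con_bd (os_exact_bx R (L.Cx false (bx R) (bx r) ω)) hC hCR hV₁
  have h5 : x₃ ∈ {v | L.Cn (bx R \ L.Cx false (bx R) (bx r) ω) y₁ v} := by
    rw [he]
    exact g3
  have h4 := step_ne (c := true) (M := bx R) (S := bx r) (ω := ω)
    (fun _ hv => le_trans hv hrR.le) hV₁ hB g1 h5 hx₁ hx₃
  rw [os_bx_diff] at h4
  exact h4

/-- a component of `bx R \ C` is contained in the annulus -/
theorem os_comp_ann {r R : ℤ} {ω : Cfg} {V : Set Pt}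
    (hV : L.Comp (bx R \ L.Cx false (bx R) (bx r) ω) V) : V ⊆ ann r R := by
  intro v hv
  obtain ⟨h1, h2⟩ := hV.sub hv
  rw [← os_bx_diff]
  exact ⟨h1, fun h => h2 (Cx_sup h)⟩

/-- sites of `C` outside `bx r` have a closed path to a neighbour of `bx r` (definition of `cl`) -/
theorem os_C1_path {r R : ℤ} {ω : Cfg} {v : Pt} (hv : v ∈ L.Cx false (bx R) (bx r) ω)
    (hv' : r < nrm v) : ∃ u ∈ L.nb (bx r), L.Cn (ann r R ∩ L.col false ω) v u := by
  rcases hv with hv | ⟨u, hu, hv⟩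
  · exact absurd hv (not_le.2 hv')
  · rw [os_bx_diff] at hv
    exact ⟨u, hu, hv.symm⟩

/-- a site of the ring with index strictly between `a` and `b`, in the explored set, gives `OMid` (`os_C1_path`) -/
theorem os_mid_of {r R w a b s y : ℤ} {ω : Cfg} (hr : 0 ≤ r) (hrR : r < R)
    (hy : |y| + 100 * w ≤ R) (ha : a < 2 * R * s + y) (hb : 2 * R * s + y < b)
    (hv : rc R (2 * R * s + y) ∈ L.Cx false (bx R) (bx r) ω) : L.OMid r R w a b ω := by
  obtain ⟨u, hu, h1⟩ := os_C1_path hv (by rw [rc_nrm (by omega)]; exact hrR)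
  exact ⟨s, y, hy, ha, hb, u, hu, _, rfl, h1.symm⟩

/-- ORDER OF THE TRIPLES.  Two triples in different components of `bx R \ C`.  Up to multiples of 4 in the number of the side the
positions are ordered, `s₁ ∈ [0, 3]`, and there are sites of `C` on the ring strictly between the triples, on both sides.
Proof.  Replace `s₁` by `s₁ % 4` (`rc_period`: `arc R (i + 8 R) (j + 8 R) = arc R i j`, so the triples do not change), and
`s₃` by `s₃ + 4 t` such that `osi R w s₁ k₁ ≤ osi R w s₃ k₃ < osi R w s₁ k₁ + 8 R`.  `V₁ ∩ V₃ = ∅` (`Comp.eq`).  `oei R w s₁ k₁ < osi R w s₃ k₃`: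
otherwise `rc R (osi R w s₃ k₃)` is in both triples.  `oei R w s₃ k₃ < osi R w s₁ k₁ + 8 R`: otherwise
`rc R (osi R w s₁ k₁ + 8 R) = rc R (osi R w s₁ k₁)` is in both.  So `OPos` holds; `0 ≤ s₃ ≤ 8` by `lex_of_idx` (file SH8) or
directly.  If no `rc R i ∈ C` with `oei R w s₁ k₁ < i < osi R w s₃ k₃`, then `arc R (osi R w s₁ k₁) (oei R w s₃ k₃) ⊆ bx R \ C` is connected
(`con_arc`, `rc_nrm`), meets `V₁`, so it is contained in `V₁` (`Comp.absorb`) and meets `V₃`, so `V₁ = V₃`.  The same for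
the other side with `arc R (osi R w s₃ k₃) (oei R w s₁ k₁ + 8 R)`. -/
theorem os_arcs_order {r R w M s₁ k₁ s₃ k₃ : ℤ} {C V₁ V₃ : Set Pt} (h : OPar r R w M)
    (hV₁ : L.Comp (bx R \ C) V₁) (hV₃ : L.Comp (bx R \ C) V₃) (hne : V₁ ≠ V₃)
    (h1 : trip w R s₁ k₁ ⊆ V₁) (h3 : trip w R s₃ k₃ ⊆ V₃) (hk₁ : |k₁| + 100 ≤ M)
    (hk₃ : |k₃| + 100 ≤ M) (n₁ : k₁ ≠ 0) (n₃ : k₃ ≠ 0) :
    ∃ s s' : ℤ, (s, k₁, s', k₃) ∈ OTht R w M ∧ trip w R s k₁ ⊆ V₁ ∧ trip w R s' k₃ ⊆ V₃ ∧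
      (∃ i, oei R w s k₁ < i ∧ i < osi R w s' k₃ ∧ rc R i ∈ C) ∧
      ∃ i, oei R w s' k₃ < i ∧ i < osi R w s k₁ + 8 * R ∧ rc R i ∈ C := by
  have hw := h.w5
  have hM := h.M2
  have hRw := h.Rw
  have hR : 1 ≤ R := by omega
  obtain ⟨s, ⟨hs0, hs3⟩, hst⟩ : ∃ s, (0 ≤ s ∧ s ≤ 3) ∧ trip w R s k₁ = trip w R s₁ k₁ := by
    refine ⟨s₁ % 4, by omega, ?_⟩
    have h4 := os5_trip hR w (s₁ % 4) k₁ (s₁ / 4)
    rw [← h4]
    congr 1
    omega
  obtain ⟨s', ⟨hl, hu⟩, hst'⟩ : ∃ s', (osi R w s k₁ ≤ osi R w s' k₃ ∧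
      osi R w s' k₃ < osi R w s k₁ + 8 * R) ∧ trip w R s' k₃ = trip w R s₃ k₃ := by
    refine ⟨s₃ + 4 * -((osi R w s₃ k₃ - osi R w s k₁) / (8 * R)), ?_, os5_trip hR w s₃ k₃ _⟩
    have e : osi R w (s₃ + 4 * -((osi R w s₃ k₃ - osi R w s k₁) / (8 * R))) k₃ =
        osi R w s₃ k₃ - 8 * R * ((osi R w s₃ k₃ - osi R w s k₁) / (8 * R)) := by
      unfold osi
      ring
    rw [e]
    have h5 := Int.mul_ediv_add_emod (osi R w s₃ k₃ - osi R w s k₁) (8 * R)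
    have h6 := Int.emod_nonneg (osi R w s₃ k₃ - osi R w s k₁) (show 8 * R ≠ 0 by omega)
    have h7 := Int.emod_lt_of_pos (osi R w s₃ k₃ - osi R w s k₁) (show 0 < 8 * R by omega)
    constructor <;> omega
  rw [← hst] at h1
  rw [← hst'] at h3
  have a1 := os5_y hw h.eR hk₁
  have a3 := os5_y hw h.eR hk₃
  have le1 : osi R w s k₁ ≤ oei R w s k₁ := by
    unfold osi oei
    have e1 : (k₁ - 1) * w = k₁ * w - w := by ring
    have e2 : (k₁ + 1) * w = k₁ * w + w := by ring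
    omega
  have le3 : osi R w s' k₃ ≤ oei R w s' k₃ := by
    unfold osi oei
    have e1 : (k₃ - 1) * w = k₃ * w - w := by ring
    have e2 : (k₃ + 1) * w = k₃ * w + w := by ring
    omega
  have h1' : arc R (osi R w s k₁) (oei R w s k₁) ⊆ V₁ := h1
  have h3' : arc R (osi R w s' k₃) (oei R w s' k₃) ⊆ V₃ := h3
  have h1'' : arc R (osi R w s k₁ + 8 * R) (oei R w s k₁ + 8 * R) ⊆ V₁ := by
    have e := os5_arc hR (osi R w s k₁) (oei R w s k₁) 1
    rw [mul_one] at e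
    rw [e]
    exact h1'
  have o1 : oei R w s k₁ < osi R w s' k₃ := by
    by_contra hcon
    exact os5_ne hV₁ hV₃ hne (h1' ⟨_, hl, not_lt.1 hcon, rfl⟩) (h3' ⟨_, le_rfl, le3, rfl⟩)
  have o3 : oei R w s' k₃ < osi R w s k₁ + 8 * R := by
    by_contra hcon
    exact os5_ne hV₁ hV₃ hne (h1'' ⟨_, le_rfl, by omega, rfl⟩) (h3' ⟨_, hu.le, not_lt.1 hcon, rfl⟩)
  have hs'0 : 0 ≤ s' := by
    by_contra hcon
    have h4 : s' ≤ s - 1 := by omega
    have h5 : 2 * R * s' ≤ 2 * R * (s - 1) := mul_le_mul_of_nonneg_left h4 (by omega)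
    have e : 2 * R * (s - 1) = 2 * R * s - 2 * R := by ring
    unfold osi at hl
    have e1 : (k₃ - 1) * w = k₃ * w - w := by ring
    have e2 : (k₃ + 1) * w = k₃ * w + w := by ring
    omega
  have hs'8 : s' ≤ 8 := by
    by_contra hcon
    have h4 : s + 5 ≤ s' := by omega
    have h5 : 2 * R * (s + 5) ≤ 2 * R * s' := mul_le_mul_of_nonneg_left h4 (by omega)
    have e : 2 * R * (s + 5) = 2 * R * s + 10 * R := by ring
    unfold osi at hu
    have e1 : (k₁ - 1) * w = k₁ * w - w := by ring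
    have e2 : (k₁ + 1) * w = k₁ * w + w := by ring
    omega
  refine ⟨s, s', ?_, h1, h3, os5_gap hR hV₁ hV₃ hne le1 o1 le3 h1' h3',
    os5_gap hR hV₃ hV₁ hne.symm le3 o3 (by omega) h3' h1''⟩
  have b1 := abs_le.1 (show |k₁| ≤ M by omega)
  have b3 := abs_le.1 (show |k₃| ≤ M by omega)
  refine Finset.mem_filter.2 ⟨?_, ⟨hk₁, hk₃, n₁, n₃, o1, o3⟩⟩
  unfold OPosF
  rw [Finset.mem_product, Finset.mem_product, Finset.mem_product]
  exact ⟨Finset.mem_Icc.2 ⟨hs0, hs3⟩, Finset.mem_Icc.2 b1, Finset.mem_Icc.2 ⟨hs'0, hs'8⟩,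
    Finset.mem_Icc.2 b3⟩

end Lat

end SC
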