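import Pool.Agent.Lib_MP_e0a489.Base

/-!
# MP_e0a489, probability toolkit 1: averages over finite sets of sites
-/

set_option autoImplicit false

namespace SC

open Classical

variable {α β γ : Type}

theorem Dep.mono {g : Cfg → α} {A B : Set Pt} (h : Dep g A) (hAB : A ⊆ B) : Dep g B := by
  intro ω ω' hw
  exact h ω ω' (fun v hv => hw v (hAB hv))

theorem Dep.comp {g : Cfg → α} {A : Set Pt} (h : Dep g A) (f : α → β) :
    Dep (fun ω => f (g ω)) A := by
  intro ω ω' hw
  show f (g ω) = f (g ω')
  rw [h ω ω' hw]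

theorem Dep.comp2 {g : Cfg → α} {h : Cfg → β} {A B : Set Pt} (hg : Dep g A) (hh : Dep h B)
    (f : α → β → γ) : Dep (fun ω => f (g ω) (h ω)) (A ∪ B) := by
  intro ω ω' hw
  show f (g ω) (h ω) = f (g ω') (h ω')
  rw [hg ω ω' (fun v hv => hw v (Or.inl hv)), hh ω ω' (fun v hv => hw v (Or.inr hv))]

theorem Dep.ind {A : Cfg → Prop} {F : Set Pt} (h : Dep A F) : Dep (SC.ind A) F := by
  intro ω ω' hw
  have h1 : A ω = A ω' := h ω ω' hw
  unfold SC.ind
  simp only [h1]

theorem ovr_mem {G S : Finset Pt} {ω : Cfg} {v : Pt} (h : v ∈ G) :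
    ovr G S ω v = decide (v ∈ S) := by
  unfold ovr
  rw [if_pos h]

theorem ovr_not_mem {G S : Finset Pt} {ω : Cfg} {v : Pt} (h : v ∉ G) : ovr G S ω v = ω v := by
  unfold ovr
  rw [if_neg h]

theorem av_empty (g : Cfg → ℝ) (ω : Cfg) : av ∅ g ω = g ω := by
  have h : ovr ∅ ∅ ω = ω := by
    funext v
    exact ovr_not_mem (Finset.notMem_empty v)
  simp [av, h]

theorem av_add (G : Finset Pt) (g h : Cfg → ℝ) (ω : Cfg) :
    av G (fun ω => g ω + h ω) ω = av G g ω + av G h ω := by
  simp only [av]
  rw [Finset.sum_add_distrib, add_div]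

theorem av_sub (G : Finset Pt) (g h : Cfg → ℝ) (ω : Cfg) :
    av G (fun ω => g ω - h ω) ω = av G g ω - av G h ω := by
  simp only [av]
  rw [Finset.sum_sub_distrib, sub_div]

theorem av_smul (G : Finset Pt) (a : ℝ) (g : Cfg → ℝ) (ω : Cfg) :
    av G (fun ω => a * g ω) ω = a * av G g ω := by
  simp only [av]
  rw [← Finset.mul_sum, mul_div_assoc]

theorem av_const (G : Finset Pt) (a : ℝ) (ω : Cfg) : av G (fun _ => a) ω = a := by
  simp only [av]
  rw [Finset.sum_const, Finset.card_powerset, nsmul_eq_mul]
  push_cast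
  field_simp

theorem av_sum {ι : Type} (G : Finset Pt) (I : Finset ι) (g : ι → Cfg → ℝ) (ω : Cfg) :
    av G (fun ω => ∑ i ∈ I, g i ω) ω = ∑ i ∈ I, av G (g i) ω := by
  simp only [av]
  rw [Finset.sum_comm, Finset.sum_div]

/-- It is enough to compare on the configurations which agree with `ω` outside `G`. -/
theorem av_mono {G : Finset Pt} {g h : Cfg → ℝ} {ω : Cfg}
    (H : ∀ ω', (∀ v, v ∉ G → ω' v = ω v) → g ω' ≤ h ω') : av G g ω ≤ av G h ω := by
  simp only [av]
  refine div_le_div_of_nonneg_right ?_ (by positivity)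
  exact Finset.sum_le_sum (fun S _ => H _ (fun v hv => ovr_not_mem hv))

theorem av_nonneg {G : Finset Pt} {g : Cfg → ℝ} (H : ∀ ω, 0 ≤ g ω) (ω : Cfg) :
    0 ≤ av G g ω := by
  simp only [av]
  exact div_nonneg (Finset.sum_nonneg (fun S _ => H _)) (by positivity)

/-- The average does not depend on the configuration in `G`. -/
theorem Dep.av {g : Cfg → ℝ} {A : Set Pt} (h : Dep g A) (G : Finset Pt) :
    Dep (SC.av G g) (A \ (G : Set Pt)) := by
  intro ω ω' hw
  simp only [SC.av]
  congr 1
  refine Finset.sum_congr rfl (fun S _ => h _ _ (fun v hv => ?_))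
  by_cases hG : v ∈ G
  · rw [ovr_mem hG, ovr_mem hG]
  · rw [ovr_not_mem hG, ovr_not_mem hG]
    exact hw v ⟨hv, fun h' => hG (by exact_mod_cast h')⟩

theorem av_congr_out {G : Finset Pt} {g : Cfg → ℝ} {ω ω' : Cfg} (h : ∀ v, v ∉ G → ω v = ω' v) :
    av G g ω = av G g ω' := by
  simp only [av]
  congr 1
  refine Finset.sum_congr rfl (fun S _ => ?_)
  congr 1
  funext v
  by_cases hG : v ∈ G
  · rw [ovr_mem hG, ovr_mem hG]
  · rw [ovr_not_mem hG, ovr_not_mem hG]
    exact h v hG

/-- Factors that do not depend on `G` can be taken out. -/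
theorem av_mul_left {G : Finset Pt} {g h : Cfg → ℝ} {A : Set Pt} (hh : Dep h A)
    (hA : ∀ v ∈ G, v ∉ A) (ω : Cfg) : av G (fun ω => h ω * g ω) ω = h ω * av G g ω := by
  simp only [av]
  rw [← mul_div_assoc, Finset.mul_sum]
  congr 1
  refine Finset.sum_congr rfl (fun S _ => ?_)
  have h1 : h (ovr G S ω) = h ω := hh _ _ (fun v hv => ovr_not_mem (fun hG => hA v hG hv))
  rw [h1]

theorem av_of_dep {G : Finset Pt} {h : Cfg → ℝ} {A : Set Pt} (hh : Dep h A)
    (hA : ∀ v ∈ G, v ∉ A) (ω : Cfg) : av G h ω = h ω := by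
  have h1 := av_mul_left (G := G) (g := fun _ => (1 : ℝ)) hh hA ω
  simp only [mul_one] at h1
  rw [av_const, mul_one] at h1
  exact h1

/-- auxiliary: adding one site -/
private theorem av_insert_aux {G : Finset Pt} {v : Pt} (hv : v ∉ G) (g : Cfg → ℝ) (ω : Cfg) :
    av (insert v G) g ω =
      (av G g (Function.update ω v false) + av G g (Function.update ω v true)) / 2 := by
  have h0 : ∀ S ∈ G.powerset, ovr (insert v G) S ω = ovr G S (Function.update ω v false) := by
    intro S hS
    have hvS : v ∉ S := fun h => hv (Finset.mem_powerset.1 hS h)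
    funext u
    by_cases huv : u = v
    · subst huv
      rw [ovr_mem (Finset.mem_insert_self _ _), ovr_not_mem hv, Function.update_self]
      simp [hvS]
    · by_cases hu : u ∈ G
      · rw [ovr_mem (Finset.mem_insert_of_mem hu), ovr_mem hu]
      · rw [ovr_not_mem (by simp [huv, hu]), ovr_not_mem hu, Function.update_of_ne huv]
  have h1 : ∀ S ∈ G.powerset,
      ovr (insert v G) (insert v S) ω = ovr G S (Function.update ω v true) := by
    intro S hS
    funext u
    by_cases huv : u = v
    · subst huv
      rw [ovr_mem (Finset.mem_insert_self _ _), ovr_not_mem hv, Function.update_self]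
      simp
    · by_cases hu : u ∈ G
      · rw [ovr_mem (Finset.mem_insert_of_mem hu), ovr_mem hu]
        simp [huv]
      · rw [ovr_not_mem (by simp [huv, hu]), ovr_not_mem hu, Function.update_of_ne huv]
  have hs : ∑ S ∈ (insert v G).powerset, g (ovr (insert v G) S ω) =
      ∑ S ∈ G.powerset, g (ovr G S (Function.update ω v false)) +
        ∑ S ∈ G.powerset, g (ovr G S (Function.update ω v true)) := by
    rw [Finset.sum_powerset_insert hv]
    congr 1
    · exact Finset.sum_congr rfl (fun S hS => by rw [h0 S hS])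
    · exact Finset.sum_congr rfl (fun S hS => by rw [h1 S hS])
  simp only [av]
  rw [hs, Finset.card_insert_of_notMem hv, pow_succ]
  field_simp

private theorem av_av_aux (G' : Finset Pt) (g : Cfg → ℝ) (G : Finset Pt) :
    ∀ ω : Cfg, av G (av G' g) ω = av (G ∪ G') g ω := by
  induction G using Finset.induction_on with
  | empty =>
    intro ω
    rw [av_empty, Finset.empty_union]
  | insert v G hv ih =>
    intro ω
    rw [av_insert_aux hv, ih, ih]
    by_cases hv' : v ∈ G'
    · have hU : insert v G ∪ G' = G ∪ G' := by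
        ext u
        simp only [Finset.mem_union, Finset.mem_insert]
        constructor
        · rintro ((h | h) | h)
          · subst h; exact Or.inr hv'
          · exact Or.inl h
          · exact Or.inr h
        · rintro (h | h)
          · exact Or.inl (Or.inr h)
          · exact Or.inr h
      have hc : ∀ b : Bool, av (G ∪ G') g (Function.update ω v b) = av (G ∪ G') g ω := by
        intro b
        refine av_congr_out (fun u hu => ?_)
        have huv : u ≠ v := by
          rintro rfl
          exact hu (Finset.mem_union_right _ hv')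
        exact Function.update_of_ne huv b ω
      rw [hU, hc, hc]
      ring
    · have hv2 : v ∉ G ∪ G' := by
        simp [hv, hv']
      rw [Finset.insert_union, av_insert_aux hv2]

/-- Adding sites on which the function does not depend. -/
theorem av_union_of_dep {G H : Finset Pt} {g : Cfg → ℝ} {A : Set Pt} (hg : Dep g A)
    (hA : ∀ v ∈ H, v ∈ A → v ∈ G) (ω : Cfg) : av (G ∪ H) g ω = av G g ω := by
  rw [Finset.union_comm, ← av_av_aux G g H ω]
  exact av_of_dep (hg.av G) (fun v hv hvA => hvA.2 (by exact_mod_cast hA v hv hvA.1)) ω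

/-- Two averages: the average over the union.  (Disjoint sets: bijection of subsets; general case:
`av G' g` does not depend on `G'`, so `av G (av G' g) = av (G \ G') (av G' g)`.) -/
theorem av_av (G G' : Finset Pt) (g : Cfg → ℝ) (ω : Cfg) :
    av G (av G' g) ω = av (G ∪ G') g ω := by
  exact av_av_aux G' g G ω

/-- Independence. -/
theorem av_mul {G : Finset Pt} {g h : Cfg → ℝ} {A B : Set Pt} (hg : Dep g A) (hh : Dep h B)
    (hAB : ∀ v ∈ G, v ∈ A → v ∉ B) (ω : Cfg) :
    av G (fun ω => g ω * h ω) ω = av G g ω * av G h ω := by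
  set P : Finset Pt := G.filter (fun v => v ∈ A) with hP
  set Q : Finset Pt := G.filter (fun v => v ∉ A) with hQ
  have hPQ : Q ∪ P = G := by
    ext v
    simp only [hP, hQ, Finset.mem_union, Finset.mem_filter]
    tauto
  have h1 : av G (fun ω => g ω * h ω) ω = av Q (av P (fun ω => g ω * h ω)) ω := by
    rw [av_av, hPQ]
  have h2 : av P (fun ω => g ω * h ω) = fun ω => av P g ω * h ω := by
    funext ω
    have := av_mul_left (G := P) (g := g) hh
      (fun v hv hvB => hAB v (Finset.mem_filter.1 hv).1 (Finset.mem_filter.1 hv).2 hvB) ω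
    have hc : (fun ω => g ω * h ω) = fun ω => h ω * g ω := by
      funext ω
      ring
    rw [hc, this]
    ring
  have h3 : av Q (fun ω => av P g ω * h ω) ω = av P g ω * av Q h ω :=
    av_mul_left (A := A \ (P : Set Pt)) (hg.av P) (by
      intro v hv hvA
      rw [hQ, Finset.mem_filter] at hv
      exact hv.2 hvA.1) ω
  have h4 : av G g ω = av P g ω := by
    rw [← hPQ, Finset.union_comm]
    exact av_union_of_dep hg (fun v hv hvA => absurd hvA (Finset.mem_filter.1 hv).2) ω
  have h5 : av G h ω = av Q h ω := by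
    rw [← hPQ]
    exact av_union_of_dep hh (fun v hv hvB => absurd hvB
      (hAB v (Finset.mem_filter.1 hv).1 (Finset.mem_filter.1 hv).2)) ω
  rw [h1, h2, h3, h4, h5]

/-- If a property of configurations holds for none of those agreeing with `ω` off `G` the average
of its indicator is `0`; strict positivity otherwise. -/
theorem av_ind_pos {G : Finset Pt} {A : Cfg → Prop} {ω ω' : Cfg} (h : ∀ v, v ∉ G → ω' v = ω v)
    (hA : A ω') : (1 / 2 : ℝ) ^ G.card ≤ av G (ind A) ω := by
  have h0 : ovr G (G.filter (fun v => ω' v = true)) ω = ω' := by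
    funext v
    by_cases hv : v ∈ G
    · rw [ovr_mem hv]
      cases hb : ω' v <;> simp [hv, hb]
    · rw [ovr_not_mem hv, h v hv]
  have hmem : G.filter (fun v => ω' v = true) ∈ G.powerset :=
    Finset.mem_powerset.2 (Finset.filter_subset _ _)
  have h1 : (1 : ℝ) ≤ ∑ S ∈ G.powerset, ind A (ovr G S ω) := by
    have h2 : ind A (ovr G (G.filter (fun v => ω' v = true)) ω) = 1 := by
      rw [h0]
      unfold ind
      rw [if_pos hA]
    rw [← h2]
    refine Finset.single_le_sum (f := fun S => ind A (ovr G S ω)) (fun S _ => ?_) hmem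
    show 0 ≤ ind A (ovr G S ω)
    unfold ind
    split_ifs <;> norm_num
  simp only [av]
  rw [one_div, inv_pow, ← one_div]
  exact div_le_div_of_nonneg_right h1 (by positivity)

end SC
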