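import Pool.Agent.Lib_MP_e0a489.PA1

/-!
# MP_e0a489, probability toolkit 2a: expectations of local functions
-/

set_option autoImplicit false

namespace SC

open Classical

/-- local function -/
def Lf (g : Cfg → ℝ) : Prop := ∃ F : Finset Pt, Dep g (F : Set Pt)

theorem Loc.lf {A : Cfg → Prop} (h : Loc A) : Lf (ind A) := by
  obtain ⟨F, hF⟩ := h
  exact ⟨F, Dep.ind hF⟩

theorem Loc.and {A B : Cfg → Prop} (hA : Loc A) (hB : Loc B) : Loc fun ω => A ω ∧ B ω := by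
  obtain ⟨F, hF⟩ := hA
  obtain ⟨G, hG⟩ := hB
  refine ⟨F ∪ G, ?_⟩
  rw [Finset.coe_union]
  exact Dep.comp2 hF hG (fun p q => p ∧ q)

theorem Loc.or {A B : Cfg → Prop} (hA : Loc A) (hB : Loc B) : Loc fun ω => A ω ∨ B ω := by
  obtain ⟨F, hF⟩ := hA
  obtain ⟨G, hG⟩ := hB
  refine ⟨F ∪ G, ?_⟩
  rw [Finset.coe_union]
  exact Dep.comp2 hF hG (fun p q => p ∨ q)

theorem Loc.not {A : Cfg → Prop} (hA : Loc A) : Loc fun ω => ¬ A ω := by
  obtain ⟨F, hF⟩ := hA
  exact ⟨F, Dep.comp hF (fun p => ¬ p)⟩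

theorem Loc.ex {ι : Type} {A : ι → Cfg → Prop} {F : Finset Pt}
    (hA : ∀ i, Dep (A i) (F : Set Pt)) : Loc fun ω => ∃ i, A i ω := by
  refine ⟨F, fun ω ω' h => ?_⟩
  have h1 : ∀ i, A i ω = A i ω' := fun i => hA i ω ω' h
  simp only [h1]

theorem Lf.mul {g h : Cfg → ℝ} (hg : Lf g) (hh : Lf h) : Lf fun ω => g ω * h ω := by
  obtain ⟨F, hF⟩ := hg
  obtain ⟨G, hG⟩ := hh
  refine ⟨F ∪ G, ?_⟩
  rw [Finset.coe_union]
  exact Dep.comp2 hF hG (fun p q => p * q)

theorem Lf.add {g h : Cfg → ℝ} (hg : Lf g) (hh : Lf h) : Lf fun ω => g ω + h ω := by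
  obtain ⟨F, hF⟩ := hg
  obtain ⟨G, hG⟩ := hh
  refine ⟨F ∪ G, ?_⟩
  rw [Finset.coe_union]
  exact Dep.comp2 hF hG (fun p q => p + q)

theorem Lf.sub {g h : Cfg → ℝ} (hg : Lf g) (hh : Lf h) : Lf fun ω => g ω - h ω := by
  obtain ⟨F, hF⟩ := hg
  obtain ⟨G, hG⟩ := hh
  refine ⟨F ∪ G, ?_⟩
  rw [Finset.coe_union]
  exact Dep.comp2 hF hG (fun p q => p - q)

theorem Lf.smul {g : Cfg → ℝ} (hg : Lf g) (a : ℝ) : Lf fun ω => a * g ω := by
  obtain ⟨F, hF⟩ := hg
  exact ⟨F, Dep.comp hF (fun p => a * p)⟩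

theorem Lf.const (a : ℝ) : Lf fun _ => a := ⟨∅, fun _ _ _ => rfl⟩

theorem Lf.sum {ι : Type} {I : Finset ι} {g : ι → Cfg → ℝ} (hg : ∀ i ∈ I, Lf (g i)) :
    Lf fun ω => ∑ i ∈ I, g i ω := by
  induction I using Finset.induction_on with
  | empty => simpa using Lf.const 0
  | insert a s ha ih =>
    have h1 := Lf.add (hg a (Finset.mem_insert_self a s))
      (ih fun i hi => hg i (Finset.mem_insert_of_mem hi))
    have h2 : (fun ω => ∑ i ∈ insert a s, g i ω) = fun ω => g a ω + ∑ i ∈ s, g i ω := by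
      funext ω
      rw [Finset.sum_insert ha]
    rw [h2]
    exact h1

theorem Lf.av {g : Cfg → ℝ} (hg : Lf g) (G : Finset Pt) : Lf (SC.av G g) := by
  obtain ⟨F, hF⟩ := hg
  exact ⟨F, Dep.mono (Dep.av hF G) Set.sdiff_subset⟩

/-- The expectation is the average over any finite set that supports the function. -/
theorem ex_eq {g : Cfg → ℝ} {F : Finset Pt} (h : Dep g (F : Set Pt)) (ω : Cfg) :
    ex g = av F g ω := by
  have hex : ∃ F : Finset Pt, Dep g (F : Set Pt) := ⟨F, h⟩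
  unfold ex
  rw [dif_pos hex]
  have h' := hex.choose_spec
  generalize hex.choose = F' at h' ⊢
  have h1 : av F' g (fun _ => false) = av F' g ω := by
    refine Dep.av h' F' _ _ ?_
    intro v hv
    exact absurd hv.1 hv.2
  rw [h1, ← av_union_of_dep (G := F') (H := F) h' (fun v _ hv => hv) ω,
    ← av_union_of_dep (G := F) (H := F') h (fun v _ hv => hv) ω, Finset.union_comm]

private theorem common {g h : Cfg → ℝ} (hg : Lf g) (hh : Lf h) :
    ∃ F : Finset Pt, Dep g (F : Set Pt) ∧ Dep h (F : Set Pt) := by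
  obtain ⟨F, hF⟩ := hg
  obtain ⟨G, hG⟩ := hh
  refine ⟨F ∪ G, ?_, ?_⟩
  · rw [Finset.coe_union]
    exact Dep.mono hF Set.subset_union_left
  · rw [Finset.coe_union]
    exact Dep.mono hG Set.subset_union_right

private theorem dep2 {g h : Cfg → ℝ} {A : Set Pt} (hg : Dep g A) (hh : Dep h A)
    (f : ℝ → ℝ → ℝ) : Dep (fun ω => f (g ω) (h ω)) A := by
  have := Dep.comp2 hg hh f
  rwa [Set.union_self] at this

theorem ex_add {g h : Cfg → ℝ} (hg : Lf g) (hh : Lf h) :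
    ex (fun ω => g ω + h ω) = ex g + ex h := by
  obtain ⟨F, h1, h2⟩ := common hg hh
  rw [ex_eq h1 fun _ => false, ex_eq h2 fun _ => false,
    ex_eq (dep2 h1 h2 (fun x y => x + y)) fun _ => false, av_add]

theorem ex_sub {g h : Cfg → ℝ} (hg : Lf g) (hh : Lf h) :
    ex (fun ω => g ω - h ω) = ex g - ex h := by
  obtain ⟨F, h1, h2⟩ := common hg hh
  rw [ex_eq h1 fun _ => false, ex_eq h2 fun _ => false,
    ex_eq (dep2 h1 h2 (fun x y => x - y)) fun _ => false, av_sub]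

theorem ex_smul {g : Cfg → ℝ} (hg : Lf g) (a : ℝ) : ex (fun ω => a * g ω) = a * ex g := by
  obtain ⟨F, hF⟩ := hg
  rw [ex_eq hF fun _ => false, ex_eq (Dep.comp hF (fun x => a * x)) fun _ => false, av_smul]

theorem ex_const (a : ℝ) : ex (fun _ => a) = a := by
  have h : Dep (fun _ : Cfg => a) ((∅ : Finset Pt) : Set Pt) := fun _ _ _ => rfl
  rw [ex_eq h fun _ => false, av_const]

theorem ex_sum {ι : Type} {I : Finset ι} {g : ι → Cfg → ℝ} (hg : ∀ i ∈ I, Lf (g i)) :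
    ex (fun ω => ∑ i ∈ I, g i ω) = ∑ i ∈ I, ex (g i) := by
  induction I using Finset.induction_on with
  | empty => simpa using ex_const 0
  | insert a s ha ih =>
    have h2 : (fun ω => ∑ i ∈ insert a s, g i ω) = fun ω => g a ω + ∑ i ∈ s, g i ω := by
      funext ω
      rw [Finset.sum_insert ha]
    have h3 : ∀ i ∈ s, Lf (g i) := fun i hi => hg i (Finset.mem_insert_of_mem hi)
    rw [h2, ex_add (hg a (Finset.mem_insert_self a s)) (Lf.sum h3), ih h3,
      Finset.sum_insert ha]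

theorem ex_mono {g h : Cfg → ℝ} (hg : Lf g) (hh : Lf h) (H : ∀ ω, g ω ≤ h ω) : ex g ≤ ex h := by
  obtain ⟨F, h1, h2⟩ := common hg hh
  rw [ex_eq h1 fun _ => false, ex_eq h2 fun _ => false]
  exact av_mono fun ω' _ => H ω'

theorem ex_nonneg {g : Cfg → ℝ} (H : ∀ ω, 0 ≤ g ω) : 0 ≤ ex g := by
  unfold ex
  split_ifs with h
  · exact av_nonneg H _
  · exact le_rfl

theorem ex_av {g : Cfg → ℝ} (hg : Lf g) (G : Finset Pt) : ex (av G g) = ex g := by
  obtain ⟨F, hF⟩ := hg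
  have h1 : Dep (av G g) (F : Set Pt) := Dep.mono (Dep.av hF G) Set.sdiff_subset
  rw [ex_eq h1 fun _ => false, ex_eq hF fun _ => false, av_av,
    av_union_of_dep hF (fun v _ hv => hv)]

theorem ex_mul {g h : Cfg → ℝ} {A B : Set Pt} (lg : Lf g) (lh : Lf h) (hg : Dep g A)
    (hh : Dep h B) (hAB : ∀ v ∈ A, v ∉ B) : ex (fun ω => g ω * h ω) = ex g * ex h := by
  obtain ⟨F, h1, h2⟩ := common lg lh
  rw [ex_eq h1 fun _ => false, ex_eq h2 fun _ => false,
    ex_eq (dep2 h1 h2 (fun x y => x * y)) fun _ => false]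
  exact av_mul hg hh (fun v _ hv => hAB v hv) _

end SC
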