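import Pool.Agent.Lib_MP_e0a489.PA2a

/-!
# MP_e0a489, probability toolkit 2b: probabilities of local events
-/

set_option autoImplicit false

namespace SC

open Classical

private theorem PA2b_ind_nonneg (A : Cfg → Prop) (ω : Cfg) : 0 ≤ ind A ω := by
  unfold ind
  split_ifs
  · exact zero_le_one
  · exact le_refl _

private theorem PA2b_ind_le_one (A : Cfg → Prop) (ω : Cfg) : ind A ω ≤ 1 := by
  unfold ind
  split_ifs
  · exact le_refl _
  · exact zero_le_one

private theorem PA2b_ind_pos {A : Cfg → Prop} {ω : Cfg} (h : A ω) : ind A ω = 1 := by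
  unfold ind
  exact if_pos h

private theorem PA2b_ind_neg {A : Cfg → Prop} {ω : Cfg} (h : ¬ A ω) : ind A ω = 0 := by
  unfold ind
  exact if_neg h

private theorem PA2b_ind_mono {A B : Cfg → Prop} {ω ω' : Cfg} (h : A ω → B ω') :
    ind A ω ≤ ind B ω' := by
  by_cases hA : A ω
  · rw [PA2b_ind_pos hA, PA2b_ind_pos (h hA)]
  · rw [PA2b_ind_neg hA]
    exact PA2b_ind_nonneg B ω'

private theorem PA2b_ind_or (A B : Cfg → Prop) (ω : Cfg) :
    ind (fun ω => A ω ∨ B ω) ω ≤ ind A ω + ind B ω := by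
  by_cases hA : A ω
  · rw [PA2b_ind_pos hA]
    have h1 := PA2b_ind_le_one (fun ω => A ω ∨ B ω) ω
    have h2 := PA2b_ind_nonneg B ω
    linarith
  · have h1 : ind (fun ω => A ω ∨ B ω) ω ≤ ind B ω := PA2b_ind_mono fun h => h.resolve_left hA
    have h2 := PA2b_ind_nonneg A ω
    linarith

/-- Cauchy-Schwarz -/
theorem ex_mul_sq_le {g h : Cfg → ℝ} (hg : Lf g) (hh : Lf h) :
    (ex fun ω => g ω * h ω) ^ 2 ≤ (ex fun ω => g ω ^ 2) * (ex fun ω => h ω ^ 2) := by
  obtain ⟨F, hF⟩ := hg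
  obtain ⟨F', hF'⟩ := hh
  have hg1 : Dep g ((F ∪ F' : Finset Pt) : Set Pt) := hF.mono (by simp)
  have hh1 : Dep h ((F ∪ F' : Finset Pt) : Set Pt) := hF'.mono (by simp)
  have h1 : Dep (fun ω => g ω * h ω) ((F ∪ F' : Finset Pt) : Set Pt) := by
    intro ω ω' H
    show g ω * h ω = g ω' * h ω'
    rw [hg1 ω ω' H, hh1 ω ω' H]
  have h2 : Dep (fun ω => g ω ^ 2) ((F ∪ F' : Finset Pt) : Set Pt) := hg1.comp fun x => x ^ 2
  have h3 : Dep (fun ω => h ω ^ 2) ((F ∪ F' : Finset Pt) : Set Pt) := hh1.comp fun x => x ^ 2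
  rw [ex_eq h1 (fun _ => false), ex_eq h2 (fun _ => false), ex_eq h3 (fun _ => false)]
  unfold av
  rw [div_pow, div_mul_div_comm, ← sq]
  apply div_le_div_of_nonneg_right _ (by positivity)
  exact Finset.sum_mul_sq_le_sq_mul_sq _ _ _

theorem pr_nonneg (A : Cfg → Prop) : 0 ≤ pr A := by
  exact ex_nonneg (PA2b_ind_nonneg A)

theorem pr_le_one (A : Cfg → Prop) : pr A ≤ 1 := by
  by_cases h : Lf (ind A)
  · have h1 := ex_mono h (Lf.const 1) (PA2b_ind_le_one A)
    rw [ex_const] at h1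
    exact h1
  · have h1 : pr A = 0 := by
      unfold pr ex
      exact dif_neg h
    rw [h1]
    exact zero_le_one

theorem pr_mono {A B : Cfg → Prop} (hA : Loc A) (hB : Loc B) (H : ∀ ω, A ω → B ω) :
    pr A ≤ pr B := by
  exact ex_mono hA.lf hB.lf fun ω => PA2b_ind_mono (H ω)

theorem pr_not {A : Cfg → Prop} (hA : Loc A) : pr (fun ω => ¬ A ω) = 1 - pr A := by
  have h1 : ind (fun ω => ¬ A ω) = fun ω => (1 : ℝ) - ind A ω := by
    funext ω
    by_cases h : A ω
    · rw [PA2b_ind_pos h, PA2b_ind_neg (A := fun ω => ¬ A ω) (not_not.2 h), sub_self]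
    · rw [PA2b_ind_neg h, PA2b_ind_pos (A := fun ω => ¬ A ω) h, sub_zero]
  unfold pr
  rw [h1, ex_sub (Lf.const 1) hA.lf, ex_const]

theorem pr_or_le {A B : Cfg → Prop} (hA : Loc A) (hB : Loc B) :
    pr (fun ω => A ω ∨ B ω) ≤ pr A + pr B := by
  unfold pr
  rw [← ex_add hA.lf hB.lf]
  exact ex_mono (hA.or hB).lf (hA.lf.add hB.lf) (PA2b_ind_or A B)

theorem pr_ex_le {ι : Type} {I : Finset ι} {A : ι → Cfg → Prop} (hA : ∀ i ∈ I, Loc (A i)) :
    pr (fun ω => ∃ i ∈ I, A i ω) ≤ ∑ i ∈ I, pr (A i) := by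
  have hloc : Loc (fun ω => ∃ i ∈ I, A i ω) := by
    choose F hF using hA
    refine ⟨I.attach.biUnion fun i => F i.1 i.2, ?_⟩
    intro ω ω' H
    have h1 : ∀ i (hi : i ∈ I), A i ω = A i ω' := by
      intro i hi
      refine hF i hi ω ω' fun v hv => H v ?_
      rw [Finset.mem_coe, Finset.mem_biUnion]
      exact ⟨⟨i, hi⟩, Finset.mem_attach _ _, hv⟩
    apply propext
    constructor
    · rintro ⟨i, hi, h⟩
      exact ⟨i, hi, (h1 i hi) ▸ h⟩
    · rintro ⟨i, hi, h⟩
      exact ⟨i, hi, (h1 i hi).symm ▸ h⟩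
  unfold pr
  rw [← ex_sum fun i hi => (hA i hi).lf]
  refine ex_mono hloc.lf (Lf.sum fun i hi => (hA i hi).lf) fun ω => ?_
  by_cases h : ∃ i ∈ I, A i ω
  · rw [PA2b_ind_pos (A := fun ω => ∃ i ∈ I, A i ω) h]
    obtain ⟨i, hi, h2⟩ := h
    have h3 := Finset.single_le_sum (f := fun i => ind (A i) ω) (fun j _ => PA2b_ind_nonneg (A j) ω) hi
    simp only [PA2b_ind_pos h2] at h3
    exact h3
  · rw [PA2b_ind_neg (A := fun ω => ∃ i ∈ I, A i ω) h]
    exact Finset.sum_nonneg fun j _ => PA2b_ind_nonneg (A j) ω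

theorem pr_and {A B : Cfg → Prop} {F G : Set Pt} (lA : Loc A) (lB : Loc B) (hA : Dep A F)
    (hB : Dep B G) (hFG : ∀ v ∈ F, v ∉ G) : pr (fun ω => A ω ∧ B ω) = pr A * pr B := by
  have h1 : ind (fun ω => A ω ∧ B ω) = fun ω => ind A ω * ind B ω := by
    funext ω
    by_cases hA : A ω
    · by_cases hB : B ω
      · rw [PA2b_ind_pos hA, PA2b_ind_pos hB, PA2b_ind_pos (A := fun ω => A ω ∧ B ω) ⟨hA, hB⟩, mul_one]
      · rw [PA2b_ind_neg hB, PA2b_ind_neg (A := fun ω => A ω ∧ B ω) (fun h => hB h.2), mul_zero]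
    · rw [PA2b_ind_neg hA, PA2b_ind_neg (A := fun ω => A ω ∧ B ω) (fun h => hA h.1), zero_mul]
  unfold pr
  rw [h1]
  exact ex_mul lA.lf lB.lf hA.ind hB.ind hFG

theorem ex_cpr {A : Cfg → Prop} (hA : Loc A) (G : Finset Pt) : ex (cpr G A) = pr A := by
  exact ex_av hA.lf G

theorem cpr_nonneg (G : Finset Pt) (A : Cfg → Prop) (ω : Cfg) : 0 ≤ cpr G A ω := by
  exact av_nonneg (PA2b_ind_nonneg A) ω

theorem cpr_le_one (G : Finset Pt) (A : Cfg → Prop) (ω : Cfg) : cpr G A ω ≤ 1 := by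
  have h1 := av_mono (G := G) (g := ind A) (h := fun _ => 1) (ω := ω)
    fun ω' _ => PA2b_ind_le_one A ω'
  rw [av_const] at h1
  exact h1

theorem cpr_mono {G : Finset Pt} {A B : Cfg → Prop} {ω : Cfg}
    (H : ∀ ω', (∀ v, v ∉ G → ω' v = ω v) → A ω' → B ω') : cpr G A ω ≤ cpr G B ω := by
  exact av_mono fun ω' h => PA2b_ind_mono (H ω' h)

theorem cpr_or_le (G : Finset Pt) (A B : Cfg → Prop) (ω : Cfg) :
    cpr G (fun ω => A ω ∨ B ω) ω ≤ cpr G A ω + cpr G B ω := by
  unfold cpr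
  rw [← av_add]
  exact av_mono fun ω' _ => PA2b_ind_or A B ω'

/-- an event that does not depend on the sites outside `G` has constant conditional probability -/
theorem cpr_eq_pr {G : Finset Pt} {A : Cfg → Prop} (hA : Dep A (G : Set Pt)) (ω : Cfg) :
    cpr G A ω = pr A := by
  exact (ex_eq hA.ind ω).symm

/-- Invariance under permutations of the sites. -/
theorem ex_equiv {g : Cfg → ℝ} (hg : Lf g) (e : Pt ≃ Pt) :
    ex (fun ω => g (fun v => ω (e v))) = ex g := by
  obtain ⟨F, hF⟩ := hg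
  have h1 : Dep (fun ω : Cfg => g (fun v => ω (e v))) ((F.map e.toEmbedding : Finset Pt) : Set Pt) := by
    intro ω ω' H
    refine hF _ _ fun v hv => H (e v) ?_
    rw [Finset.mem_coe, Finset.mem_map_equiv, Equiv.symm_apply_apply]
    exact hv
  rw [ex_eq h1 (fun _ => false), ex_eq hF (fun _ => false)]
  unfold av
  rw [Finset.card_map]
  congr 1
  symm
  refine Finset.sum_nbij' (fun S => S.map e.toEmbedding) (fun S => S.map e.symm.toEmbedding)
    ?_ ?_ ?_ ?_ ?_
  · intro S hS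
    rw [Finset.mem_powerset] at hS ⊢
    exact Finset.map_subset_map.2 hS
  · intro S hS
    rw [Finset.mem_powerset] at hS ⊢
    intro v hv
    rw [Finset.mem_map_equiv, Equiv.symm_symm] at hv
    have h2 := hS hv
    rwa [Finset.mem_map_equiv, Equiv.symm_apply_apply] at h2
  · intro S _
    ext v
    rw [Finset.mem_map_equiv, Finset.mem_map_equiv, Equiv.symm_symm, Equiv.symm_apply_apply]
  · intro S _
    ext v
    rw [Finset.mem_map_equiv, Finset.mem_map_equiv, Equiv.symm_symm, Equiv.apply_symm_apply]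
  · intro S _
    congr 1
    funext v
    by_cases hv : v ∈ F
    · have hv' : e v ∈ F.map e.toEmbedding := by
        rw [Finset.mem_map_equiv, Equiv.symm_apply_apply]
        exact hv
      rw [ovr_mem hv, ovr_mem hv']
      congr 1
      rw [Finset.mem_map_equiv, Equiv.symm_apply_apply]
    · have hv' : e v ∉ F.map e.toEmbedding := by
        rw [Finset.mem_map_equiv, Equiv.symm_apply_apply]
        exact hv
      rw [ovr_not_mem hv, ovr_not_mem hv']

theorem pr_equiv {A : Cfg → Prop} (hA : Loc A) (e : Pt ≃ Pt) :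
    pr (fun ω => A (fun v => ω (e v))) = pr A := by
  exact ex_equiv hA.lf e

/-- Invariance under the exchange of the two states. -/
theorem pr_flip {A : Cfg → Prop} (hA : Loc A) : pr (fun ω => A (fun v => ! ω v)) = pr A := by
  obtain ⟨F, hF⟩ := hA
  have h1 : Dep (fun ω : Cfg => A (fun v => ! ω v)) (F : Set Pt) := by
    intro ω ω' H
    refine hF _ _ fun v hv => ?_
    rw [H v hv]
  unfold pr
  rw [ex_eq h1.ind (fun _ => false), ex_eq hF.ind (fun _ => false)]
  unfold av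
  congr 1
  refine Finset.sum_nbij' (fun S => F \ S) (fun S => F \ S) ?_ ?_ ?_ ?_ ?_
  · intro S _
    rw [Finset.mem_powerset]
    exact Finset.sdiff_subset
  · intro S _
    rw [Finset.mem_powerset]
    exact Finset.sdiff_subset
  · intro S hS
    rw [Finset.mem_powerset] at hS
    exact Finset.sdiff_sdiff_eq_self hS
  · intro S hS
    rw [Finset.mem_powerset] at hS
    exact Finset.sdiff_sdiff_eq_self hS
  · intro S _
    have h2 : A (fun v => ! ovr F S (fun _ => false) v) = A (ovr F (F \ S) fun _ => false) := by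
      refine hF _ _ fun v hv => ?_
      rw [Finset.mem_coe] at hv
      rw [ovr_mem hv, ovr_mem hv]
      by_cases hS : v ∈ S
      · simp [hS]
      · simp [hS, hv]
    unfold ind
    simp only [h2]

theorem pr_pos {A : Cfg → Prop} {F : Finset Pt} (hA : Dep A (F : Set Pt)) {ω : Cfg} (h : A ω) :
    (1 / 2 : ℝ) ^ F.card ≤ pr A := by
  rw [← cpr_eq_pr hA ω]
  exact av_ind_pos (fun _ _ => rfl) h

end SC
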