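import Pool.Agent.Lib_MP_e0a489.PA2a

/-!
# MP_e0a489, probability toolkit 6a: Fourier coefficients
-/

set_option autoImplicit false

namespace SC

open Classical

private theorem PE1_sq (b : Bool) :
    (if b then (1 : ℝ) else -1) * (if b then (1 : ℝ) else -1) = 1 := by
  cases b <;> norm_num

private theorem PE1_ext (S T : Finset Pt) (ω : Cfg) (h : S ⊆ T) :
    chi S ω = ∏ v ∈ T, (if v ∈ S then (if ω v then (1 : ℝ) else -1) else 1) := by
  unfold chi
  rw [← Finset.prod_filter]
  congr 1
  ext v
  rw [Finset.mem_filter]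
  exact ⟨fun hv => ⟨h hv, hv⟩, fun hv => hv.2⟩

theorem chi_mul (S T : Finset Pt) (ω : Cfg) :
    chi S ω * chi T ω = chi (symmDiff S T) ω := by
  have h3 : symmDiff S T ⊆ S ∪ T := by
    intro v hv
    rw [Finset.mem_symmDiff] at hv
    rw [Finset.mem_union]
    tauto
  rw [PE1_ext S (S ∪ T) ω Finset.subset_union_left,
    PE1_ext T (S ∪ T) ω Finset.subset_union_right, PE1_ext _ (S ∪ T) ω h3,
    ← Finset.prod_mul_distrib]
  refine Finset.prod_congr rfl fun v _ => ?_
  have hq := PE1_sq (ω v)
  by_cases h1 : v ∈ S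
  · by_cases h2 : v ∈ T
    · have h4 : v ∉ symmDiff S T := by
        rw [Finset.mem_symmDiff]
        tauto
      rw [if_pos h1, if_pos h2, if_neg h4, hq]
    · have h4 : v ∈ symmDiff S T := by
        rw [Finset.mem_symmDiff]
        tauto
      rw [if_pos h1, if_neg h2, if_pos h4, mul_one]
  · by_cases h2 : v ∈ T
    · have h4 : v ∈ symmDiff S T := by
        rw [Finset.mem_symmDiff]
        tauto
      rw [if_neg h1, if_pos h2, if_pos h4, one_mul]
    · have h4 : v ∉ symmDiff S T := by
        rw [Finset.mem_symmDiff]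
        tauto
      rw [if_neg h1, if_neg h2, if_neg h4, mul_one]

private theorem PE1_dep (S : Finset Pt) : Dep (chi S) (S : Set Pt) := by
  intro ω ω' h
  unfold chi
  refine Finset.prod_congr rfl fun v hv => ?_
  rw [h v (by exact_mod_cast hv)]

private theorem PE1_lf (S : Finset Pt) : Lf (chi S) := ⟨S, PE1_dep S⟩

theorem ex_chi (S : Finset Pt) : ex (chi S) = if S = ∅ then 1 else 0 := by
  by_cases h : S = ∅
  · rw [if_pos h, h]
    have h1 : chi ∅ = fun _ => (1 : ℝ) := by
      funext ω
      unfold chi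
      exact Finset.prod_empty
    rw [h1, ex_const]
  · rw [if_neg h, ex_eq (PE1_dep S) fun _ => false]
    unfold av
    have h1 : ∑ T ∈ S.powerset, chi S (ovr S T fun _ => false) = 0 := by
      have h2 : ∀ T ∈ S.powerset, chi S (ovr S T fun _ => false) =
          (∏ v ∈ T, (1 : ℝ)) * ∏ v ∈ S \ T, (-1 : ℝ) := by
        intro T hT
        rw [Finset.mem_powerset] at hT
        unfold chi
        rw [← Finset.prod_sdiff hT, mul_comm]
        congr 1
        · refine Finset.prod_congr rfl fun v hv => ?_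
          rw [ovr_mem (hT hv)]
          simp [hv]
        · refine Finset.prod_congr rfl fun v hv => ?_
          rw [Finset.mem_sdiff] at hv
          rw [ovr_mem hv.1]
          simp [hv.2]
      rw [Finset.sum_congr rfl h2, ← Finset.prod_add]
      obtain ⟨v, hv⟩ := Finset.nonempty_iff_ne_empty.2 h
      exact Finset.prod_eq_zero hv (by norm_num)
    rw [h1, zero_div]

theorem fc_add {g h : Cfg → ℝ} (hg : Lf g) (hh : Lf h) (S : Finset Pt) :
    fc (fun ω => g ω + h ω) S = fc g S + fc h S := by
  unfold fc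
  rw [← ex_add (hg.mul (PE1_lf S)) (hh.mul (PE1_lf S))]
  congr 1
  funext ω
  ring

theorem fc_sub {g h : Cfg → ℝ} (hg : Lf g) (hh : Lf h) (S : Finset Pt) :
    fc (fun ω => g ω - h ω) S = fc g S - fc h S := by
  unfold fc
  rw [← ex_sub (hg.mul (PE1_lf S)) (hh.mul (PE1_lf S))]
  congr 1
  funext ω
  ring

theorem fc_eq_zero {g : Cfg → ℝ} {F : Finset Pt} (hg : Dep g (F : Set Pt)) {S : Finset Pt}
    (hS : ¬ S ⊆ F) : fc g S = 0 := by
  obtain ⟨v, hvS, hvF⟩ := Finset.not_subset.1 hS
  have h1 : (fun ω => g ω * chi S ω) = fun ω => (g ω * chi (S.erase v) ω) * chi {v} ω := by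
    funext ω
    have h2 : chi S ω = chi {v} ω * chi (S.erase v) ω := by
      unfold chi
      rw [Finset.prod_singleton]
      exact (Finset.mul_prod_erase S (fun v => if ω v = true then (1 : ℝ) else -1) hvS).symm
    rw [h2]
    ring
  have hd1 : Dep (fun ω => g ω * chi (S.erase v) ω)
      ((F : Set Pt) ∪ ((S.erase v : Finset Pt) : Set Pt)) :=
    Dep.comp2 hg (PE1_dep (S.erase v)) fun x y => x * y
  unfold fc
  rw [h1, ex_mul (Lf.mul ⟨F, hg⟩ (PE1_lf _)) (PE1_lf {v}) hd1 (PE1_dep {v}), ex_chi,
    if_neg (Finset.singleton_ne_empty v), mul_zero]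
  intro u hu hu2
  have hu3 : u = v := by simpa using hu2
  subst hu3
  rcases hu with hu | hu
  · exact hvF (by exact_mod_cast hu)
  · have hu4 : u ∈ S.erase u := by exact_mod_cast hu
    exact (Finset.mem_erase.1 hu4).1 rfl

/-- Fourier inversion -/
theorem fourier_inv {g : Cfg → ℝ} {F : Finset Pt} (hg : Dep g (F : Set Pt)) (ω : Cfg) :
    g ω = ∑ S ∈ F.powerset, fc g S * chi S ω := by
  have h1 : ∀ S ∈ F.powerset, fc g S * chi S ω =
      ∑ T ∈ F.powerset, g (ovr F T ω) * (chi S (ovr F T ω) * chi S ω) / 2 ^ F.card := by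
    intro S hS
    rw [Finset.mem_powerset] at hS
    have hd : Dep (fun ω => g ω * chi S ω) (F : Set Pt) := by
      have := Dep.comp2 hg ((PE1_dep S).mono (by exact_mod_cast hS : (S : Set Pt) ⊆ (F : Set Pt)))
        (fun x y => x * y)
      rwa [Set.union_self] at this
    unfold fc
    rw [ex_eq hd ω]
    unfold av
    rw [div_mul_eq_mul_div, Finset.sum_mul, Finset.sum_div]
    refine Finset.sum_congr rfl fun T _ => ?_
    ring
  rw [Finset.sum_congr rfl h1, Finset.sum_comm]
  set T0 : Finset Pt := F.filter (fun v => ω v = true) with hT0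
  have hT0F : T0 ∈ F.powerset := Finset.mem_powerset.2 (Finset.filter_subset _ _)
  have h2 : ∀ T ∈ F.powerset, (∑ S ∈ F.powerset,
      g (ovr F T ω) * (chi S (ovr F T ω) * chi S ω) / 2 ^ F.card) =
      g (ovr F T ω) * (∏ v ∈ F, (1 + (if ovr F T ω v then (1 : ℝ) else -1) *
        (if ω v then (1 : ℝ) else -1))) / 2 ^ F.card := by
    intro T _
    rw [Finset.prod_one_add, Finset.mul_sum, Finset.sum_div]
    refine Finset.sum_congr rfl fun S _ => ?_
    unfold chi
    rw [Finset.prod_mul_distrib]
  rw [Finset.sum_congr rfl h2, Finset.sum_eq_single T0]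
  · have h3 : ovr F T0 ω = ω := by
      funext v
      by_cases hv : v ∈ F
      · rw [ovr_mem hv, hT0]
        cases hb : ω v <;> simp [hv, hb]
      · rw [ovr_not_mem hv]
    rw [h3]
    have h4 : ∏ v ∈ F, (1 + (if ω v then (1 : ℝ) else -1) * (if ω v then (1 : ℝ) else -1)) =
        2 ^ F.card := by
      rw [Finset.prod_congr rfl fun v _ => by rw [PE1_sq], Finset.prod_const]
      norm_num
    rw [h4, mul_div_assoc, div_self (by positivity), mul_one]
  · intro T hT hne
    rw [Finset.mem_powerset] at hT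
    have h5 : ∃ v ∈ F, ovr F T ω v ≠ ω v := by
      by_contra hcon
      push Not at hcon
      apply hne
      ext v
      constructor
      · intro hv
        have h6 := hcon v (hT hv)
        rw [ovr_mem (hT hv)] at h6
        rw [hT0, Finset.mem_filter]
        exact ⟨hT hv, by rw [← h6]; simpa using hv⟩
      · intro hv
        rw [hT0, Finset.mem_filter] at hv
        have h6 := hcon v hv.1
        rw [ovr_mem hv.1, hv.2] at h6
        simpa using h6
    obtain ⟨v, hvF, hv⟩ := h5
    rw [Finset.prod_eq_zero hvF]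
    · rw [mul_zero, zero_div]
    · cases h7 : ovr F T ω v <;> cases h8 : ω v
      · exact absurd (h7.trans h8.symm) hv
      · norm_num
      · norm_num
      · exact absurd (h7.trans h8.symm) hv
  · intro h
    exact absurd hT0F h

/-- Parseval -/
theorem parseval {g h : Cfg → ℝ} {F : Finset Pt} (hg : Dep g (F : Set Pt))
    (hh : Dep h (F : Set Pt)) : ex (fun ω => g ω * h ω) = ∑ S ∈ F.powerset, fc g S * fc h S := by
  have h1 : (fun ω => g ω * h ω) = fun ω => ∑ S ∈ F.powerset, fc g S * (h ω * chi S ω) := by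
    funext ω
    conv_lhs => rw [fourier_inv hg ω]
    rw [Finset.sum_mul]
    refine Finset.sum_congr rfl fun S _ => ?_
    ring
  have hl : Lf h := ⟨F, hh⟩
  rw [h1, ex_sum (fun S _ => (hl.mul (PE1_lf S)).smul _)]
  refine Finset.sum_congr rfl fun S _ => ?_
  rw [ex_smul (hl.mul (PE1_lf S))]
  rfl

/-- Averaging over `G` kills the coefficients of the sets that meet `G`. -/
theorem fc_av {g : Cfg → ℝ} (hg : Lf g) (G S : Finset Pt) :
    fc (av G g) S = if Disjoint S G then fc g S else 0 := by
  by_cases h : Disjoint S G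
  · rw [if_pos h]
    unfold fc
    rw [← ex_av (hg.mul (PE1_lf S)) G]
    congr 1
    funext ω
    have h1 : (fun ω => g ω * chi S ω) = fun ω => chi S ω * g ω := by
      funext ω
      ring
    rw [h1, av_mul_left (PE1_dep S)
      (fun v hv hvS => Finset.disjoint_left.1 h (by exact_mod_cast hvS) hv) ω, mul_comm]
  · rw [if_neg h]
    obtain ⟨F, hF⟩ := hg
    have hd : Dep (av G g) ((F \ G : Finset Pt) : Set Pt) := by
      rw [Finset.coe_sdiff]
      exact hF.av G
    refine fc_eq_zero hd fun hsub => h ?_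
    rw [Finset.disjoint_left]
    intro v hv hvG
    exact (Finset.mem_sdiff.1 (hsub hv)).2 hvG

end SC
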