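import Pool.Agent.Lib_MP_e0a489.PE1

/-!
# MP_e0a489, probability toolkit 6b: pairs of configurations
-/

set_option autoImplicit false

namespace SC

open Classical

/-- double sum over the subsets of `insert a F` -/
private theorem dsum_insert {F : Finset Pt} {a : Pt} (ha : a ∉ F)
    (φ : Finset Pt → Finset Pt → ℝ) :
    ∑ S ∈ (insert a F).powerset, ∑ T ∈ (insert a F).powerset, φ S T =
      ∑ S ∈ F.powerset, ∑ T ∈ F.powerset,
        (φ S T + φ S (insert a T) + φ (insert a S) T + φ (insert a S) (insert a T)) := by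
  rw [Finset.sum_powerset_insert ha, ← Finset.sum_add_distrib]
  refine Finset.sum_congr rfl (fun S _ => ?_)
  rw [Finset.sum_powerset_insert ha, Finset.sum_powerset_insert ha, ← Finset.sum_add_distrib,
    ← Finset.sum_add_distrib, ← Finset.sum_add_distrib]
  refine Finset.sum_congr rfl (fun T _ => ?_)
  ring

private theorem dec_insert {S : Finset Pt} {a v : Pt} (h : v ≠ a) :
    decide (v ∈ insert a S) = decide (v ∈ S) := by
  simp [h]

/-- Fubini for products of functions of one site -/
private theorem prod_dsum (F : Finset Pt) (f : Pt → Bool → Bool → ℝ) :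
    ∑ S ∈ F.powerset, ∑ T ∈ F.powerset, ∏ v ∈ F, f v (decide (v ∈ S)) (decide (v ∈ T)) =
      ∏ v ∈ F, (f v false false + f v false true + f v true false + f v true true) := by
  induction F using Finset.induction_on with
  | empty => simp
  | insert a F ha ih =>
    rw [Finset.prod_insert ha, ← ih, dsum_insert ha, Finset.mul_sum]
    refine Finset.sum_congr rfl (fun S hS => ?_)
    rw [Finset.mul_sum]
    refine Finset.sum_congr rfl (fun T hT => ?_)
    have haS : a ∉ S := fun h => ha (Finset.mem_powerset.1 hS h)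
    have haT : a ∉ T := fun h => ha (Finset.mem_powerset.1 hT h)
    have hne : ∀ v ∈ F, v ≠ a := fun v hv h => ha (h ▸ hv)
    have h1 : ∏ v ∈ F, f v (decide (v ∈ S)) (decide (v ∈ insert a T)) =
        ∏ v ∈ F, f v (decide (v ∈ S)) (decide (v ∈ T)) :=
      Finset.prod_congr rfl (fun v hv => by rw [dec_insert (hne v hv)])
    have h2 : ∏ v ∈ F, f v (decide (v ∈ insert a S)) (decide (v ∈ T)) =
        ∏ v ∈ F, f v (decide (v ∈ S)) (decide (v ∈ T)) :=
      Finset.prod_congr rfl (fun v hv => by rw [dec_insert (hne v hv)])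
    have h3 : ∏ v ∈ F, f v (decide (v ∈ insert a S)) (decide (v ∈ insert a T)) =
        ∏ v ∈ F, f v (decide (v ∈ S)) (decide (v ∈ T)) :=
      Finset.prod_congr rfl (fun v hv => by rw [dec_insert (hne v hv), dec_insert (hne v hv)])
    have hS0 : decide (a ∈ S) = false := by simp [haS]
    have hT0 : decide (a ∈ T) = false := by simp [haT]
    have hS1 : decide (a ∈ insert a S) = true := by simp
    have hT1 : decide (a ∈ insert a T) = true := by simp
    rw [Finset.prod_insert ha, Finset.prod_insert ha, Finset.prod_insert ha,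
      Finset.prod_insert ha, h1, h2, h3, hS0, hT0, hS1, hT1]
    ring

/-- one superfluous site -/
private theorem ex2F_insert {g h : Cfg → ℝ} {F : Finset Pt} {a : Pt} (ha : a ∉ F)
    (hg : Dep g (F : Set Pt)) (hh : Dep h (F : Set Pt)) (κ : Pt → ℝ) :
    ex2F (insert a F) κ g h = ex2F F κ g h := by
  unfold ex2F
  rw [dsum_insert ha]
  refine Finset.sum_congr rfl (fun S hS => Finset.sum_congr rfl (fun T hT => ?_))
  have haS : a ∉ S := fun h => ha (Finset.mem_powerset.1 hS h)
  have haT : a ∉ T := fun h => ha (Finset.mem_powerset.1 hT h)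
  have hne : ∀ v ∈ F, v ≠ a := fun v hv h => ha (h ▸ hv)
  have h1 : ∏ v ∈ F, wt (κ v) (decide (v ∈ S)) (decide (v ∈ insert a T)) =
      ∏ v ∈ F, wt (κ v) (decide (v ∈ S)) (decide (v ∈ T)) :=
    Finset.prod_congr rfl (fun v hv => by rw [dec_insert (hne v hv)])
  have h2 : ∏ v ∈ F, wt (κ v) (decide (v ∈ insert a S)) (decide (v ∈ T)) =
      ∏ v ∈ F, wt (κ v) (decide (v ∈ S)) (decide (v ∈ T)) :=
    Finset.prod_congr rfl (fun v hv => by rw [dec_insert (hne v hv)])
  have h3 : ∏ v ∈ F, wt (κ v) (decide (v ∈ insert a S)) (decide (v ∈ insert a T)) =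
      ∏ v ∈ F, wt (κ v) (decide (v ∈ S)) (decide (v ∈ T)) :=
    Finset.prod_congr rfl (fun v hv => by rw [dec_insert (hne v hv), dec_insert (hne v hv)])
  have hS0 : decide (a ∈ S) = false := by simp [haS]
  have hT0 : decide (a ∈ T) = false := by simp [haT]
  have hS1 : decide (a ∈ insert a S) = true := by simp
  have hT1 : decide (a ∈ insert a T) = true := by simp
  have ho0 : ∀ (k : Cfg → ℝ), Dep k (F : Set Pt) → ∀ U : Finset Pt,
      k (ovr (insert a F) U fun _ => false) = k (ovr F U fun _ => false) := by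
    intro k hk U
    refine hk _ _ (fun v hv => ?_)
    have hv' : v ∈ F := by exact_mod_cast hv
    rw [ovr_mem (Finset.mem_insert_of_mem hv'), ovr_mem hv']
  have ho1 : ∀ (k : Cfg → ℝ), Dep k (F : Set Pt) → ∀ U : Finset Pt,
      k (ovr F (insert a U) fun _ => false) = k (ovr F U fun _ => false) := by
    intro k hk U
    refine hk _ _ (fun v hv => ?_)
    have hv' : v ∈ F := by exact_mod_cast hv
    rw [ovr_mem hv', ovr_mem hv', dec_insert (hne v hv')]
  rw [Finset.prod_insert ha, Finset.prod_insert ha, Finset.prod_insert ha,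
    Finset.prod_insert ha, h1, h2, h3, hS0, hT0, hS1, hT1, ho0 g hg, ho0 g hg, ho0 h hh,
    ho0 h hh, ho1 g hg, ho1 h hh]
  simp only [wt]
  norm_num
  ring

private theorem ex2F_union {g h : Cfg → ℝ} {F : Finset Pt} (hg : Dep g (F : Set Pt))
    (hh : Dep h (F : Set Pt)) (κ : Pt → ℝ) (H : Finset Pt) :
    ex2F (H ∪ F) κ g h = ex2F F κ g h := by
  induction H using Finset.induction_on with
  | empty => rw [Finset.empty_union]
  | insert a H ha ih =>
    rw [Finset.insert_union]
    by_cases h1 : a ∈ H ∪ F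
    · rw [Finset.insert_eq_of_mem h1, ih]
    · have hsub : (F : Set Pt) ⊆ ((H ∪ F : Finset Pt) : Set Pt) := by
        intro v hv
        have hv' : v ∈ F := by exact_mod_cast hv
        exact_mod_cast Finset.mem_union_right H hv'
      rw [ex2F_insert h1 (hg.mono hsub) (hh.mono hsub), ih]

/-- `ex2` can be computed on any finite set that supports both functions (the weights `wt` of the
superfluous sites sum to one in each of the two variables separately given ... : for a site `v`
outside the supports sum over both states: `∑ wt = 1`). -/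
theorem ex2_eq {g h : Cfg → ℝ} {F : Finset Pt} (hg : Dep g (F : Set Pt)) (hh : Dep h (F : Set Pt))
    (κ : Pt → ℝ) : ex2 κ g h = ex2F F κ g h := by
  have hex : ∃ F : Finset Pt, Dep g (F : Set Pt) ∧ Dep h (F : Set Pt) := ⟨F, hg, hh⟩
  unfold ex2
  rw [dif_pos hex]
  rw [← ex2F_union hg hh κ hex.choose,
    ← ex2F_union hex.choose_spec.1 hex.choose_spec.2 κ F, Finset.union_comm]

private theorem chi_ovr {F A : Finset Pt} (hA : A ⊆ F) (S : Finset Pt) :
    chi A (ovr F S fun _ => false) =
      ∏ v ∈ F, (if v ∈ A then (if decide (v ∈ S) = true then (1 : ℝ) else -1) else 1) := by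
  unfold chi
  rw [Finset.prod_ite_mem, Finset.inter_eq_right.2 hA]
  refine Finset.prod_congr rfl (fun v hv => ?_)
  rw [ovr_mem (hA hv)]

private theorem ex2F_chi {F A B : Finset Pt} (hA : A ⊆ F) (hB : B ⊆ F) (κ : Pt → ℝ) :
    ex2F F κ (chi A) (chi B) = if A = B then ∏ v ∈ A, κ v else 0 := by
  have h1 : ex2F F κ (chi A) (chi B) = ∏ v ∈ F,
      ((if v ∈ A then (if v ∈ B then κ v else 0) else (if v ∈ B then 0 else 1)) : ℝ) := by
    unfold ex2F
    rw [show (∏ v ∈ F, ((if v ∈ A then (if v ∈ B then κ v else 0) else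
        (if v ∈ B then 0 else 1)) : ℝ)) = ∏ v ∈ F, (
      (wt (κ v) false false * ((if v ∈ A then (if (false : Bool) = true then (1 : ℝ) else -1) else 1) *
        (if v ∈ B then (if (false : Bool) = true then (1 : ℝ) else -1) else 1))) +
      (wt (κ v) false true * ((if v ∈ A then (if (false : Bool) = true then (1 : ℝ) else -1) else 1) *
        (if v ∈ B then (if (true : Bool) = true then (1 : ℝ) else -1) else 1))) +
      (wt (κ v) true false * ((if v ∈ A then (if (true : Bool) = true then (1 : ℝ) else -1) else 1) *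
        (if v ∈ B then (if (false : Bool) = true then (1 : ℝ) else -1) else 1))) +
      (wt (κ v) true true * ((if v ∈ A then (if (true : Bool) = true then (1 : ℝ) else -1) else 1) *
        (if v ∈ B then (if (true : Bool) = true then (1 : ℝ) else -1) else 1)))) from ?_]
    · rw [← prod_dsum F (fun v s t => wt (κ v) s t *
        ((if v ∈ A then (if s = true then (1 : ℝ) else -1) else 1) *
          (if v ∈ B then (if t = true then (1 : ℝ) else -1) else 1)))]
      refine Finset.sum_congr rfl (fun S _ => Finset.sum_congr rfl (fun T _ => ?_))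
      rw [chi_ovr hA, chi_ovr hB, ← Finset.prod_mul_distrib, ← Finset.prod_mul_distrib]
    · refine Finset.prod_congr rfl (fun v _ => ?_)
      by_cases h1 : v ∈ A <;> by_cases h2 : v ∈ B <;> simp [h1, h2, wt] <;> ring
  rw [h1]
  split_ifs with hAB
  · subst hAB
    rw [← Finset.inter_eq_right.2 hA, ← Finset.prod_ite_mem, Finset.inter_eq_right.2 hA]
    refine Finset.prod_congr rfl (fun v _ => ?_)
    by_cases h1 : v ∈ A <;> simp [h1]
  · have hex : ∃ v ∈ F, ¬ (v ∈ A ↔ v ∈ B) := by
      by_contra hcon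
      push_neg at hcon
      refine hAB (Finset.ext (fun v => ⟨fun hv => (hcon v (hA hv)).1 hv,
        fun hv => (hcon v (hB hv)).2 hv⟩))
    obtain ⟨v, hv, hne⟩ := hex
    refine Finset.prod_eq_zero hv ?_
    by_cases h1 : v ∈ A <;> by_cases h2 : v ∈ B <;> simp_all

/-- Fourier formula.  Both sides are bilinear; for `g = chi S`, `h = chi T` (`fourier_inv`) the
sum factorises over the sites: `∑ wt k s s' = 1`, `∑ wt k s s' χ(s) = 0`,
`∑ wt k s s' χ(s) χ(s') = k`. -/
theorem ex2_fourier {g h : Cfg → ℝ} {F : Finset Pt} (hg : Dep g (F : Set Pt))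
    (hh : Dep h (F : Set Pt)) (κ : Pt → ℝ) :
    ex2 κ g h = ∑ S ∈ F.powerset, (∏ v ∈ S, κ v) * (fc g S * fc h S) := by
  rw [ex2_eq hg hh]
  have hexp : ex2F F κ g h = ∑ A ∈ F.powerset, ∑ B ∈ F.powerset,
      (fc g A * fc h B) * ex2F F κ (chi A) (chi B) := by
    have h1 : ∀ S T : Finset Pt, g (ovr F S fun _ => false) * h (ovr F T fun _ => false) =
        ∑ A ∈ F.powerset, ∑ B ∈ F.powerset, (fc g A * fc h B) *
          (chi A (ovr F S fun _ => false) * chi B (ovr F T fun _ => false)) := by
      intro S T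
      rw [fourier_inv hg (ovr F S fun _ => false), fourier_inv hh (ovr F T fun _ => false),
        Finset.sum_mul_sum]
      refine Finset.sum_congr rfl (fun A _ => Finset.sum_congr rfl (fun B _ => ?_))
      ring
    unfold ex2F
    simp only [h1, Finset.mul_sum]
    have h2 : ∀ S ∈ F.powerset, (∑ T ∈ F.powerset, ∑ A ∈ F.powerset, ∑ B ∈ F.powerset,
        (∏ v ∈ F, wt (κ v) (decide (v ∈ S)) (decide (v ∈ T))) * ((fc g A * fc h B) *
          (chi A (ovr F S fun _ => false) * chi B (ovr F T fun _ => false)))) =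
        ∑ A ∈ F.powerset, ∑ B ∈ F.powerset, ∑ T ∈ F.powerset, (fc g A * fc h B) *
        ((∏ v ∈ F, wt (κ v) (decide (v ∈ S)) (decide (v ∈ T))) *
          (chi A (ovr F S fun _ => false) * chi B (ovr F T fun _ => false))) := by
      intro S _
      rw [Finset.sum_comm]
      refine Finset.sum_congr rfl (fun A _ => ?_)
      rw [Finset.sum_comm]
      refine Finset.sum_congr rfl (fun B _ => Finset.sum_congr rfl (fun T _ => ?_))
      ring
    rw [Finset.sum_congr rfl h2, Finset.sum_comm]
    refine Finset.sum_congr rfl (fun A _ => ?_)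
    rw [Finset.sum_comm]
  rw [hexp]
  refine Finset.sum_congr rfl (fun A hA => ?_)
  rw [Finset.sum_eq_single A]
  · rw [ex2F_chi (Finset.mem_powerset.1 hA) (Finset.mem_powerset.1 hA), if_pos rfl]
    ring
  · intro B hB hBA
    rw [ex2F_chi (Finset.mem_powerset.1 hA) (Finset.mem_powerset.1 hB), if_neg (Ne.symm hBA),
      mul_zero]
  · intro h
    exact absurd hA h

end SC
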