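import Pool.Agent.Lib_MP_e0a489.PE2

/-!
# MP_e0a489, probability toolkit 6c: pairs of configurations, basic properties
-/

set_option autoImplicit false

namespace SC

open Classical

private theorem pe3_common {g h : Cfg → ℝ} (hg : Lf g) (hh : Lf h) :
    ∃ F : Finset Pt, Dep g (F : Set Pt) ∧ Dep h (F : Set Pt) := by
  obtain ⟨F, hF⟩ := hg
  obtain ⟨G, hG⟩ := hh
  refine ⟨F ∪ G, ?_, ?_⟩
  · rw [Finset.coe_union]
    exact Dep.mono hF Set.subset_union_left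
  · rw [Finset.coe_union]
    exact Dep.mono hG Set.subset_union_right

private theorem pe3_wt_comm (k : ℝ) (s s' : Bool) : wt k s s' = wt k s' s := by
  cases s <;> cases s' <;> rfl

private theorem pe3_wt_nonneg {k : ℝ} (hk : 0 ≤ k ∧ k ≤ 1) (s s' : Bool) : 0 ≤ wt k s s' := by
  unfold wt
  split_ifs <;> linarith [hk.1, hk.2]

theorem ex2_comm {g h : Cfg → ℝ} (hg : Lf g) (hh : Lf h) (κ : Pt → ℝ) :
    ex2 κ g h = ex2 κ h g := by
  obtain ⟨F, h1, h2⟩ := pe3_common hg hh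
  rw [ex2_eq h1 h2, ex2_eq h2 h1]
  unfold ex2F
  rw [Finset.sum_comm]
  refine Finset.sum_congr rfl (fun S _ => Finset.sum_congr rfl (fun T _ => ?_))
  rw [mul_comm (g _) (h _)]
  congr 1
  exact Finset.prod_congr rfl (fun v _ => pe3_wt_comm _ _ _)

theorem ex2_add_left {g g' h : Cfg → ℝ} (hg : Lf g) (hg' : Lf g') (hh : Lf h) (κ : Pt → ℝ) :
    ex2 κ (fun ω => g ω + g' ω) h = ex2 κ g h + ex2 κ g' h := by
  obtain ⟨F1, a1, a2⟩ := pe3_common hg hg'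
  obtain ⟨F2, a3⟩ := hh
  have b1 : Dep g ((F1 ∪ F2 : Finset Pt) : Set Pt) :=
    a1.mono (by rw [Finset.coe_union]; exact Set.subset_union_left)
  have b2 : Dep g' ((F1 ∪ F2 : Finset Pt) : Set Pt) :=
    a2.mono (by rw [Finset.coe_union]; exact Set.subset_union_left)
  have b3 : Dep h ((F1 ∪ F2 : Finset Pt) : Set Pt) :=
    a3.mono (by rw [Finset.coe_union]; exact Set.subset_union_right)
  have b4 : Dep (fun ω => g ω + g' ω) ((F1 ∪ F2 : Finset Pt) : Set Pt) := by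
    intro ω ω' H
    show g ω + g' ω = g ω' + g' ω'
    rw [b1 ω ω' H, b2 ω ω' H]
  rw [ex2_eq b4 b3, ex2_eq b1 b3, ex2_eq b2 b3]
  unfold ex2F
  rw [← Finset.sum_add_distrib]
  refine Finset.sum_congr rfl (fun S _ => ?_)
  rw [← Finset.sum_add_distrib]
  refine Finset.sum_congr rfl (fun T _ => ?_)
  ring

theorem ex2_smul_left {g h : Cfg → ℝ} (hg : Lf g) (hh : Lf h) (κ : Pt → ℝ) (a : ℝ) :
    ex2 κ (fun ω => a * g ω) h = a * ex2 κ g h := by
  obtain ⟨F, h1, h2⟩ := pe3_common hg hh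
  rw [ex2_eq (h1.comp fun x => a * x) h2, ex2_eq h1 h2]
  unfold ex2F
  rw [Finset.mul_sum]
  refine Finset.sum_congr rfl (fun S _ => ?_)
  rw [Finset.mul_sum]
  refine Finset.sum_congr rfl (fun T _ => ?_)
  ring

theorem ex2_nonneg {g h : Cfg → ℝ} (κ : Pt → ℝ) (hκ : ∀ v, 0 ≤ κ v ∧ κ v ≤ 1)
    (hg : ∀ ω, 0 ≤ g ω) (hh : ∀ ω, 0 ≤ h ω) : 0 ≤ ex2 κ g h := by
  unfold ex2
  split_ifs with hex
  · unfold ex2F
    refine Finset.sum_nonneg (fun S _ => Finset.sum_nonneg (fun T _ => ?_))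
    exact mul_nonneg (Finset.prod_nonneg (fun v _ => pe3_wt_nonneg (hκ v) _ _))
      (mul_nonneg (hg _) (hh _))
  · exact le_refl _

/-- monotone in both functions (nonnegative functions) -/
theorem ex2_mono {g h g' h' : Cfg → ℝ} (lg : Lf g) (lh : Lf h) (lg' : Lf g') (lh' : Lf h')
    (κ : Pt → ℝ) (hκ : ∀ v, 0 ≤ κ v ∧ κ v ≤ 1) (hg : ∀ ω, 0 ≤ g ω) (hh : ∀ ω, 0 ≤ h ω)
    (hgg : ∀ ω, g ω ≤ g' ω) (hhh : ∀ ω, h ω ≤ h' ω) : ex2 κ g h ≤ ex2 κ g' h' := by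
  obtain ⟨F1, a1, a2⟩ := pe3_common lg lh
  obtain ⟨F2, a3, a4⟩ := pe3_common lg' lh'
  have s1 : (F1 : Set Pt) ⊆ ((F1 ∪ F2 : Finset Pt) : Set Pt) := by
    rw [Finset.coe_union]; exact Set.subset_union_left
  have s2 : (F2 : Set Pt) ⊆ ((F1 ∪ F2 : Finset Pt) : Set Pt) := by
    rw [Finset.coe_union]; exact Set.subset_union_right
  rw [ex2_eq (a1.mono s1) (a2.mono s1), ex2_eq (a3.mono s2) (a4.mono s2)]
  unfold ex2F
  refine Finset.sum_le_sum (fun S _ => Finset.sum_le_sum (fun T _ => ?_))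
  refine mul_le_mul_of_nonneg_left ?_ (Finset.prod_nonneg (fun v _ => pe3_wt_nonneg (hκ v) _ _))
  exact mul_le_mul (hgg _) (hhh _) (hh _) (le_trans (hg _) (hgg _))

theorem ex2_self_nonneg {g : Cfg → ℝ} (hg : Lf g) (κ : Pt → ℝ) (hκ : ∀ v, 0 ≤ κ v) :
    0 ≤ ex2 κ g g := by
  obtain ⟨F, hF⟩ := hg
  rw [ex2_fourier hF hF]
  exact Finset.sum_nonneg (fun S _ =>
    mul_nonneg (Finset.prod_nonneg (fun v _ => hκ v)) (mul_self_nonneg _))

/-- `E[g(ω) g(ω')]` is increasing in the correlations -/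
theorem ex2_mono_kappa {g : Cfg → ℝ} (hg : Lf g) {κ κ' : Pt → ℝ} (h0 : ∀ v, 0 ≤ κ v)
    (h : ∀ v, κ v ≤ κ' v) : ex2 κ g g ≤ ex2 κ' g g := by
  obtain ⟨F, hF⟩ := hg
  rw [ex2_fourier hF hF, ex2_fourier hF hF]
  exact Finset.sum_le_sum (fun S _ => mul_le_mul_of_nonneg_right
    (Finset.prod_le_prod (fun v _ => h0 v) (fun v _ => h v)) (mul_self_nonneg _))

/-- `(a + b)` version of Cauchy-Schwarz for the positive form `ex2 κ` -/
theorem ex2_add_le {g h : Cfg → ℝ} (hg : Lf g) (hh : Lf h) (κ : Pt → ℝ) (hκ : ∀ v, 0 ≤ κ v) :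
    ex2 κ (fun ω => g ω + h ω) (fun ω => g ω + h ω) ≤ 2 * ex2 κ g g + 2 * ex2 κ h h := by
  obtain ⟨F, h1, h2⟩ := pe3_common hg hh
  have h3 : Dep (fun ω => g ω + h ω) (F : Set Pt) := by
    intro ω ω' H
    show g ω + h ω = g ω' + h ω'
    rw [h1 ω ω' H, h2 ω ω' H]
  rw [ex2_fourier h3 h3, ex2_fourier h1 h1, ex2_fourier h2 h2, Finset.mul_sum, Finset.mul_sum,
    ← Finset.sum_add_distrib]
  refine Finset.sum_le_sum (fun S _ => ?_)
  rw [fc_add hg hh]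
  have h4 : 0 ≤ ∏ v ∈ S, κ v := Finset.prod_nonneg (fun v _ => hκ v)
  nlinarith [mul_nonneg h4 (mul_self_nonneg (fc g S - fc h S))]

/-- only the correlations of the sites on which `g` or `h` depends matter -/
theorem ex2_congr {g h : Cfg → ℝ} {A : Set Pt} (lg : Lf g) (lh : Lf h) (hg : Dep g A)
    {κ κ' : Pt → ℝ} (hκ : ∀ v ∈ A, κ v = κ' v) : ex2 κ g h = ex2 κ' g h := by
  obtain ⟨F, h1, h2⟩ := pe3_common lg lh
  rw [ex2_fourier h1 h2, ex2_fourier h1 h2]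
  have h3 : Dep g ((F.filter (fun v => v ∈ A) : Finset Pt) : Set Pt) := by
    intro ω ω' H
    have e1 : g ω = g (fun v => if v ∈ A then ω v else ω' v) := by
      refine hg _ _ (fun v hv => ?_)
      show ω v = if v ∈ A then ω v else ω' v
      rw [if_pos hv]
    have e2 : g (fun v => if v ∈ A then ω v else ω' v) = g ω' := by
      refine h1 _ _ (fun v hv => ?_)
      show (if v ∈ A then ω v else ω' v) = ω' v
      by_cases hA : v ∈ A
      · rw [if_pos hA]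
        refine H v ?_
        rw [Finset.mem_coe, Finset.mem_filter]
        exact ⟨Finset.mem_coe.1 hv, hA⟩
      · rw [if_neg hA]
    rw [e1, e2]
  refine Finset.sum_congr rfl (fun S _ => ?_)
  by_cases hS : S ⊆ F.filter (fun v => v ∈ A)
  · congr 1
    exact Finset.prod_congr rfl (fun v hv => hκ v (Finset.mem_filter.1 (hS hv)).2)
  · rw [fc_eq_zero h3 hS]
    ring

end SC
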