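import Pool.Agent.Lib_MP_e0a489.PA2b
import Pool.Agent.Lib_MP_e0a489.PE3

/-!
# MP_e0a489, probability toolkit 6d: pairs of configurations, further properties
-/

set_option autoImplicit false

namespace SC

open Classical

private theorem pe4_common {g h : Cfg → ℝ} (hg : Lf g) (hh : Lf h) :
    ∃ F : Finset Pt, Dep g (F : Set Pt) ∧ Dep h (F : Set Pt) := by
  obtain ⟨F, hF⟩ := hg
  obtain ⟨G, hG⟩ := hh
  refine ⟨F ∪ G, ?_, ?_⟩
  · rw [Finset.coe_union]
    exact Dep.mono hF Set.subset_union_left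
  · rw [Finset.coe_union]
    exact Dep.mono hG Set.subset_union_right

private theorem pe4_chi_dep (S : Finset Pt) : Dep (chi S) (S : Set Pt) := by
  intro ω ω' h
  unfold chi
  refine Finset.prod_congr rfl fun v hv => ?_
  rw [h v (by exact_mod_cast hv)]

private theorem pe4_chi_lf (S : Finset Pt) : Lf (chi S) := ⟨S, pe4_chi_dep S⟩

private theorem pe4_chi_empty (ω : Cfg) : chi ∅ ω = 1 := by
  unfold chi
  exact Finset.prod_empty

private theorem pe4_chi_union {S T : Finset Pt} (h : Disjoint S T) (ω : Cfg) :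
    chi (S ∪ T) ω = chi S ω * chi T ω := by
  unfold chi
  exact Finset.prod_union h

/-- restriction of the support -/
private theorem pe4_filter {g : Cfg → ℝ} {F : Finset Pt} {A : Set Pt} (h1 : Dep g (F : Set Pt))
    (hg : Dep g A) : Dep g ((F.filter (fun v => v ∈ A) : Finset Pt) : Set Pt) := by
  intro ω ω' H
  have e1 : g ω = g (fun v => if v ∈ A then ω v else ω' v) := by
    refine hg _ _ (fun v hv => ?_)
    show ω v = if v ∈ A then ω v else ω' v
    rw [if_pos hv]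
  have e2 : g (fun v => if v ∈ A then ω v else ω' v) = g ω' := by
    refine h1 _ _ (fun v hv => ?_)
    show (if v ∈ A then ω v else ω' v) = ω' v
    by_cases hA : v ∈ A
    · rw [if_pos hA]
      refine H v ?_
      rw [Finset.mem_coe, Finset.mem_filter]
      exact ⟨Finset.mem_coe.1 hv, hA⟩
    · rw [if_neg hA]
  rw [e1, e2]

/-- sums over the subsets of a disjoint union -/
private theorem pe4_sum_union (F1 : Finset Pt) (F2 : Finset Pt) :
    Disjoint F1 F2 → ∀ φ : Finset Pt → ℝ, ∑ S ∈ (F1 ∪ F2).powerset, φ S =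
      ∑ S ∈ F1.powerset, ∑ T ∈ F2.powerset, φ (S ∪ T) := by
  induction F2 using Finset.induction_on with
  | empty =>
    intro _ φ
    simp
  | insert a F2 ha ih =>
    intro hd φ
    have hd2 : Disjoint F1 F2 := Finset.disjoint_of_subset_right (Finset.subset_insert a F2) hd
    have ha1 : a ∉ F1 := fun h => Finset.disjoint_left.1 hd h (Finset.mem_insert_self a F2)
    have ha2 : a ∉ F1 ∪ F2 := by
      rw [Finset.mem_union]
      rintro (h | h)
      · exact ha1 h
      · exact ha h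
    rw [Finset.union_insert, Finset.sum_powerset_insert ha2, ih hd2 φ,
      ih hd2 (fun S => φ (insert a S)), ← Finset.sum_add_distrib]
    refine Finset.sum_congr rfl (fun S _ => ?_)
    rw [Finset.sum_powerset_insert ha]
    congr 1
    refine Finset.sum_congr rfl (fun T _ => ?_)
    rw [Finset.union_insert]

/-- Fourier coefficients of a product of functions of disjoint sets of sites -/
private theorem pe4_fc_mul {g g' : Cfg → ℝ} {F1 F2 S T : Finset Pt} (hg : Dep g (F1 : Set Pt))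
    (hg' : Dep g' (F2 : Set Pt)) (hd : Disjoint F1 F2) (hS : S ⊆ F1) (hT : T ⊆ F2) :
    fc (fun ω => g ω * g' ω) (S ∪ T) = fc g S * fc g' T := by
  have hST : Disjoint S T := Finset.disjoint_of_subset_left hS
    (Finset.disjoint_of_subset_right hT hd)
  have h1 : (fun ω => g ω * g' ω * chi (S ∪ T) ω) =
      fun ω => (g ω * chi S ω) * (g' ω * chi T ω) := by
    funext ω
    rw [pe4_chi_union hST]
    ring
  have d1 : Dep (fun ω => g ω * chi S ω) (F1 : Set Pt) := by
    intro ω ω' H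
    show g ω * chi S ω = g ω' * chi S ω'
    rw [hg ω ω' H, pe4_chi_dep S ω ω' (fun v hv => H v (by exact_mod_cast hS (by exact_mod_cast hv)))]
  have d2 : Dep (fun ω => g' ω * chi T ω) (F2 : Set Pt) := by
    intro ω ω' H
    show g' ω * chi T ω = g' ω' * chi T ω'
    rw [hg' ω ω' H, pe4_chi_dep T ω ω' (fun v hv => H v (by exact_mod_cast hT (by exact_mod_cast hv)))]
  unfold fc
  rw [h1, ex_mul ⟨F1, d1⟩ ⟨F2, d2⟩ d1 d2]
  intro v hv hv2
  exact Finset.disjoint_left.1 hd (by exact_mod_cast hv) (by exact_mod_cast hv2)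

/-- independence of disjoint regions -/
theorem ex2_mul {g h g' h' : Cfg → ℝ} {A B : Set Pt} (lg : Lf g) (lh : Lf h) (lg' : Lf g')
    (lh' : Lf h') (dg : Dep g A) (dh : Dep h A) (dg' : Dep g' B) (dh' : Dep h' B)
    (hAB : ∀ v ∈ A, v ∉ B) (κ : Pt → ℝ) :
    ex2 κ (fun ω => g ω * g' ω) (fun ω => h ω * h' ω) = ex2 κ g h * ex2 κ g' h' := by
  obtain ⟨E1, a1, a2⟩ := pe4_common lg lh
  obtain ⟨E2, a3, a4⟩ := pe4_common lg' lh'
  obtain ⟨F1, hF1, b1, b2⟩ : ∃ F1 : Finset Pt, (∀ v ∈ F1, v ∈ A) ∧ Dep g (F1 : Set Pt) ∧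
      Dep h (F1 : Set Pt) := ⟨E1.filter (fun v => v ∈ A), fun v hv => (Finset.mem_filter.1 hv).2,
    pe4_filter a1 dg, pe4_filter a2 dh⟩
  obtain ⟨F2, hF2, b3, b4⟩ : ∃ F2 : Finset Pt, (∀ v ∈ F2, v ∈ B) ∧ Dep g' (F2 : Set Pt) ∧
      Dep h' (F2 : Set Pt) := ⟨E2.filter (fun v => v ∈ B), fun v hv => (Finset.mem_filter.1 hv).2,
    pe4_filter a3 dg', pe4_filter a4 dh'⟩
  have hd : Disjoint F1 F2 := by
    rw [Finset.disjoint_left]
    intro v hv hv2
    exact hAB v (hF1 v hv) (hF2 v hv2)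
  have c1 : Dep (fun ω => g ω * g' ω) ((F1 ∪ F2 : Finset Pt) : Set Pt) := by
    rw [Finset.coe_union]
    exact Dep.comp2 b1 b3 fun x y => x * y
  have c2 : Dep (fun ω => h ω * h' ω) ((F1 ∪ F2 : Finset Pt) : Set Pt) := by
    rw [Finset.coe_union]
    exact Dep.comp2 b2 b4 fun x y => x * y
  rw [ex2_fourier c1 c2, ex2_fourier b1 b2, ex2_fourier b3 b4, pe4_sum_union F1 F2 hd,
    Finset.sum_mul_sum]
  refine Finset.sum_congr rfl (fun S hS => Finset.sum_congr rfl (fun T hT => ?_))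
  rw [Finset.mem_powerset] at hS hT
  have hST : Disjoint S T := Finset.disjoint_of_subset_left hS
    (Finset.disjoint_of_subset_right hT hd)
  rw [pe4_fc_mul b1 b3 hd hS hT, pe4_fc_mul b2 b4 hd hS hT, Finset.prod_union hST]
  ring

/-- full correlation -/
theorem ex2_one {g h : Cfg → ℝ} {A : Set Pt} (lg : Lf g) (lh : Lf h) (dg : Dep g A)
    (κ : Pt → ℝ) (hκ : ∀ v ∈ A, κ v = 1) : ex2 κ g h = ex (fun ω => g ω * h ω) := by
  obtain ⟨F, h1, h2⟩ := pe4_common lg lh
  rw [ex2_congr lg lh dg (κ' := fun _ => 1) hκ, ex2_fourier h1 h2, parseval h1 h2]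
  refine Finset.sum_congr rfl (fun S _ => ?_)
  rw [Finset.prod_const_one, one_mul]

/-- no correlation -/
theorem ex2_zero {g h : Cfg → ℝ} {A : Set Pt} (lg : Lf g) (lh : Lf h) (dg : Dep g A)
    (κ : Pt → ℝ) (hκ : ∀ v ∈ A, κ v = 0) : ex2 κ g h = ex g * ex h := by
  obtain ⟨F, h1, h2⟩ := pe4_common lg lh
  rw [ex2_congr lg lh dg (κ' := fun _ => 0) hκ, ex2_fourier h1 h2,
    Finset.sum_eq_single (∅ : Finset Pt)]
  · unfold fc
    simp only [pe4_chi_empty, mul_one, Finset.prod_empty, one_mul]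
  · intro S _ hS
    obtain ⟨v, hv⟩ := Finset.nonempty_iff_ne_empty.2 hS
    rw [Finset.prod_eq_zero hv rfl, zero_mul]
  · intro h
    exact absurd (Finset.empty_mem_powerset F) h

/-- if the correlation vanishes on `G` both functions may be averaged over `G` -/
theorem ex2_av {g h : Cfg → ℝ} (lg : Lf g) (lh : Lf h) (G : Finset Pt) (κ : Pt → ℝ)
    (hκ : ∀ v ∈ G, κ v = 0) : ex2 κ g h = ex2 κ (av G g) (av G h) := by
  obtain ⟨F, h1, h2⟩ := pe4_common lg lh
  have h3 : Dep (av G g) (F : Set Pt) := Dep.mono (Dep.av h1 G) Set.sdiff_subset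
  have h4 : Dep (av G h) (F : Set Pt) := Dep.mono (Dep.av h2 G) Set.sdiff_subset
  rw [ex2_fourier h1 h2, ex2_fourier h3 h4]
  refine Finset.sum_congr rfl (fun S _ => ?_)
  rw [fc_av lg, fc_av lh]
  by_cases hS : Disjoint S G
  · rw [if_pos hS, if_pos hS]
  · rw [if_neg hS, if_neg hS]
    obtain ⟨v, hv, hvG⟩ := Finset.not_disjoint_iff.1 hS
    rw [Finset.prod_eq_zero hv (hκ v hvG)]
    ring

/-- `E[g(ω) g(ω')] ≤ E[g²]` -/
theorem ex2_le_sq {g : Cfg → ℝ} (lg : Lf g) (κ : Pt → ℝ) (hκ : ∀ v, 0 ≤ κ v ∧ κ v ≤ 1) :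
    ex2 κ g g ≤ ex (fun ω => g ω ^ 2) := by
  obtain ⟨F, hF⟩ := lg
  have h1 := ex2_mono_kappa (g := g) ⟨F, hF⟩ (κ := κ) (κ' := fun _ => 1) (fun v => (hκ v).1)
    (fun v => (hκ v).2)
  rw [ex2_one (κ := fun _ => 1) ⟨F, hF⟩ ⟨F, hF⟩ hF (fun _ _ => rfl)] at h1
  refine le_trans h1 (le_of_eq ?_)
  congr 1
  funext ω
  ring

theorem ex2_equiv {g h : Cfg → ℝ} (hg : Lf g) (hh : Lf h) (e : Pt ≃ Pt) (κ : Pt → ℝ) :
    ex2 κ (fun ω => g (fun v => ω (e v))) (fun ω => h (fun v => ω (e v))) =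
      ex2 (fun v => κ (e v)) g h := by
  obtain ⟨F, h1, h2⟩ := pe4_common hg hh
  have dep : ∀ k : Cfg → ℝ, Dep k (F : Set Pt) →
      Dep (fun ω : Cfg => k (fun v => ω (e v))) ((F.map e.toEmbedding : Finset Pt) : Set Pt) := by
    intro k hk ω ω' H
    refine hk _ _ fun v hv => H (e v) ?_
    rw [Finset.mem_coe, Finset.mem_map_equiv, Equiv.symm_apply_apply]
    exact hv
  have hfc : ∀ k : Cfg → ℝ, Lf k → ∀ S : Finset Pt,
      fc (fun ω : Cfg => k (fun v => ω (e v))) (S.map e.toEmbedding) = fc k S := by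
    intro k hk S
    unfold fc
    rw [← ex_equiv (hk.mul (pe4_chi_lf S)) e]
    congr 1
    funext ω
    congr 1
    unfold chi
    rw [Finset.prod_map]
    rfl
  rw [ex2_fourier (dep g h1) (dep h h2), ex2_fourier h1 h2]
  symm
  refine Finset.sum_nbij' (fun S => S.map e.toEmbedding) (fun S => S.map e.symm.toEmbedding)
    ?_ ?_ ?_ ?_ ?_
  · intro S hS
    rw [Finset.mem_powerset] at hS ⊢
    exact Finset.map_subset_map.2 hS
  · intro S hS
    rw [Finset.mem_powerset] at hS ⊢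
    intro v hv
    rw [Finset.mem_map_equiv, Equiv.symm_symm] at hv
    have h2 := hS hv
    rwa [Finset.mem_map_equiv, Equiv.symm_apply_apply] at h2
  · intro S _
    ext v
    rw [Finset.mem_map_equiv, Finset.mem_map_equiv, Equiv.symm_symm, Equiv.symm_apply_apply]
  · intro S _
    ext v
    rw [Finset.mem_map_equiv, Finset.mem_map_equiv, Equiv.symm_symm, Equiv.apply_symm_apply]
  · intro S _
    rw [hfc g hg, hfc h hh, Finset.prod_map]
    rfl

private theorem pe4_ex_flip {g : Cfg → ℝ} (hg : Lf g) :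
    ex (fun ω => g (fun v => ! ω v)) = ex g := by
  obtain ⟨F, hF⟩ := hg
  have h1 : Dep (fun ω : Cfg => g (fun v => ! ω v)) (F : Set Pt) := by
    intro ω ω' H
    refine hF _ _ fun v hv => ?_
    rw [H v hv]
  rw [ex_eq h1 (fun _ => false), ex_eq hF (fun _ => false)]
  unfold av
  congr 1
  refine Finset.sum_nbij' (fun S => F \ S) (fun S => F \ S) ?_ ?_ ?_ ?_ ?_
  · intro S _
    rw [Finset.mem_powerset]
    exact Finset.sdiff_subset
  · intro S _
    rw [Finset.mem_powerset]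
    exact Finset.sdiff_subset
  · intro S hS
    rw [Finset.mem_powerset] at hS
    exact Finset.sdiff_sdiff_eq_self hS
  · intro S hS
    rw [Finset.mem_powerset] at hS
    exact Finset.sdiff_sdiff_eq_self hS
  · intro S _
    refine hF _ _ fun v hv => ?_
    rw [Finset.mem_coe] at hv
    rw [ovr_mem hv, ovr_mem hv]
    by_cases hS : v ∈ S
    · simp [hS]
    · simp [hS, hv]

theorem ex2_flip {g h : Cfg → ℝ} (hg : Lf g) (hh : Lf h) (κ : Pt → ℝ) :
    ex2 κ (fun ω => g (fun v => ! ω v)) (fun ω => h (fun v => ! ω v)) = ex2 κ g h := by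
  obtain ⟨F, h1, h2⟩ := pe4_common hg hh
  have dep : ∀ k : Cfg → ℝ, Dep k (F : Set Pt) →
      Dep (fun ω : Cfg => k (fun v => ! ω v)) (F : Set Pt) := by
    intro k hk ω ω' H
    refine hk _ _ fun v hv => ?_
    rw [H v hv]
  have hfc : ∀ k : Cfg → ℝ, Lf k → ∀ S : Finset Pt,
      fc (fun ω : Cfg => k (fun v => ! ω v)) S = (-1) ^ S.card * fc k S := by
    intro k hk S
    unfold fc
    rw [← ex_smul (hk.mul (pe4_chi_lf S)), ← pe4_ex_flip ((hk.mul (pe4_chi_lf S)).smul _)]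
    congr 1
    funext ω
    have h5 : chi S ω = (-1) ^ S.card * chi S (fun v => ! ω v) := by
      unfold chi
      rw [← Finset.prod_const, ← Finset.prod_mul_distrib]
      refine Finset.prod_congr rfl (fun v _ => ?_)
      cases hb : ω v <;> simp [hb]
    rw [h5]
    ring
  rw [ex2_fourier (dep g h1) (dep h h2), ex2_fourier h1 h2]
  refine Finset.sum_congr rfl (fun S _ => ?_)
  rw [hfc g hg, hfc h hh]
  have h6 : ((-1 : ℝ) ^ S.card) * (-1) ^ S.card = 1 := by
    rw [← mul_pow]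
    norm_num
  calc (∏ v ∈ S, κ v) * ((-1) ^ S.card * fc g S * ((-1) ^ S.card * fc h S))
      = (((-1 : ℝ) ^ S.card) * (-1) ^ S.card) * ((∏ v ∈ S, κ v) * (fc g S * fc h S)) := by ring
    _ = (∏ v ∈ S, κ v) * (fc g S * fc h S) := by rw [h6, one_mul]

end SC
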