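import Pool.Agent.Lib_MP_e0a489.PE2

/-!
# MP_e0a489, probability toolkit 7a: discrete derivatives
-/

set_option autoImplicit false

namespace SC

open Classical

/-- discrete derivative at the site `v` -/
noncomputable def dv (v : Pt) (g : Cfg → ℝ) : Cfg → ℝ := fun ω =>
  (g (Function.update ω v true) - g (Function.update ω v false)) / 2

/-- `v` is pivotal for `A` -/
def Piv (v : Pt) (A : Cfg → Prop) (ω : Cfg) : Prop :=
  ¬ (A (Function.update ω v true) ↔ A (Function.update ω v false))

private theorem PF1_upd {α : Type} {g : Cfg → α} {A : Set Pt} (h : Dep g A) (v : Pt) (b : Bool)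
    {ω ω' : Cfg} (H : ∀ u ∈ A \ {v}, ω u = ω' u) :
    g (Function.update ω v b) = g (Function.update ω' v b) := by
  apply h
  intro u hu
  by_cases hv : u = v
  · subst hv; simp
  · rw [Function.update_of_ne hv, Function.update_of_ne hv]
    exact H u ⟨hu, hv⟩

theorem Dep.dv {g : Cfg → ℝ} {A : Set Pt} (h : Dep g A) (v : Pt) : Dep (SC.dv v g) (A \ {v}) := by
  intro ω ω' H
  unfold SC.dv
  rw [PF1_upd h v true H, PF1_upd h v false H]

theorem Dep.piv {E : Cfg → Prop} {A : Set Pt} (h : Dep E A) (v : Pt) : Dep (Piv v E) (A \ {v}) := by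
  intro ω ω' H
  unfold Piv
  rw [PF1_upd h v true H, PF1_upd h v false H]

theorem abs_dv_ind (v : Pt) (A : Cfg → Prop) (ω : Cfg) :
    |dv v (ind A) ω| = (1 / 2) * ind (Piv v A) ω := by
  unfold dv ind Piv
  by_cases h1 : A (Function.update ω v true) <;> by_cases h2 : A (Function.update ω v false)
  · simp [h1, h2]
  · simp [h1, h2]
  · simp only [h1, h2, if_true, if_false]
    norm_num
  · simp [h1, h2]

theorem dv_of_dep {g : Cfg → ℝ} {A : Set Pt} (h : Dep g A) {v : Pt} (hv : v ∉ A) (ω : Cfg) :
    dv v g ω = 0 := by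
  unfold dv
  have e : g (Function.update ω v true) = g (Function.update ω v false) := by
    apply h
    intro u hu
    have hne : u ≠ v := fun he => hv (he ▸ hu)
    rw [Function.update_of_ne hne, Function.update_of_ne hne]
  rw [e, sub_self, zero_div]

private theorem PF1_single (v : Pt) (f : Cfg → ℝ) (ω : Cfg) :
    av {v} f ω = (f (Function.update ω v true) + f (Function.update ω v false)) / 2 := by
  have e1 : ovr {v} ∅ ω = Function.update ω v false := by
    funext u
    unfold ovr
    by_cases hu : u = v
    · subst hu; simp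
    · rw [Function.update_of_ne hu, if_neg (by simpa using hu)]
  have e2 : ovr {v} {v} ω = Function.update ω v true := by
    funext u
    unfold ovr
    by_cases hu : u = v
    · subst hu; simp
    · rw [Function.update_of_ne hu, if_neg (by simpa using hu)]
  unfold av
  rw [Finset.card_singleton, pow_one]
  congr 1
  have hp : ({v} : Finset Pt).powerset = {∅, {v}} := by
    ext s
    rw [Finset.mem_powerset, Finset.subset_singleton_iff]
    simp
  rw [hp, Finset.sum_pair (by
    intro h
    have := Finset.mem_singleton_self v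
    rw [← h] at this
    simp at this), e1, e2]
  ring

private theorem PF1_chi_ins {v : Pt} {S : Finset Pt} (hv : v ∉ S) (ω : Cfg) (b : Bool) :
    chi (insert v S) (Function.update ω v b) = (if b then (1 : ℝ) else -1) * chi S ω := by
  unfold chi
  rw [Finset.prod_insert hv, Function.update_self]
  congr 1
  apply Finset.prod_congr rfl
  intro u hu
  have hne : u ≠ v := fun he => hv (he ▸ hu)
  rw [Function.update_of_ne hne]

private theorem PF1_chi_dep (S : Finset Pt) : Dep (chi S) (S : Set Pt) := by
  intro ω ω' H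
  unfold chi
  apply Finset.prod_congr rfl
  intro u hu
  rw [H u hu]

private theorem PF1_lf_chi (S : Finset Pt) : Lf (chi S) := ⟨S, PF1_chi_dep S⟩

private theorem PF1_lf_dv {g : Cfg → ℝ} (hg : Lf g) (v : Pt) : Lf (dv v g) := by
  obtain ⟨F, hF⟩ := hg
  refine ⟨F, ?_⟩
  intro ω ω' H
  exact (hF.dv v) ω ω' fun u hu => H u hu.1

theorem fc_dv {g : Cfg → ℝ} (hg : Lf g) (v : Pt) (S : Finset Pt) :
    fc (dv v g) S = if v ∈ S then 0 else fc g (insert v S) := by
  by_cases hv : v ∈ S
  · rw [if_pos hv]
    unfold fc
    rw [← ex_av ((PF1_lf_dv hg v).mul (PF1_lf_chi S)) {v}]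
    have e : av {v} (fun ω => dv v g ω * chi S ω) = fun _ => (0 : ℝ) := by
      funext ω
      rw [PF1_single]
      have hS : S = insert v (S.erase v) := (Finset.insert_erase hv).symm
      have h1 := PF1_chi_ins (Finset.notMem_erase v S) ω true
      have h2 := PF1_chi_ins (Finset.notMem_erase v S) ω false
      rw [← hS] at h1 h2
      rw [h1, h2]
      have h3 : ∀ b : Bool, dv v g (Function.update ω v b) = dv v g ω := by
        intro b
        unfold dv
        rw [Function.update_idem, Function.update_idem]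
      rw [h3, h3]
      simp
    rw [e]
    exact ex_const 0
  · rw [if_neg hv]
    unfold fc
    rw [← ex_av (hg.mul (PF1_lf_chi (insert v S))) {v}]
    congr 1
    funext ω
    rw [PF1_single, PF1_chi_ins hv, PF1_chi_ins hv]
    unfold dv
    simp only [if_true, Bool.false_eq_true, if_false]
    ring

/-- the derivative commutes with averages over sets that do not contain the site -/
theorem dv_av {g : Cfg → ℝ} (hg : Lf g) {G : Finset Pt} {v : Pt} (hv : v ∉ G) (ω : Cfg) :
    dv v (av G g) ω = av G (dv v g) ω := by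
  have e : ∀ (S : Finset Pt) (b : Bool),
      ovr G S (Function.update ω v b) = Function.update (ovr G S ω) v b := by
    intro S b
    funext u
    by_cases hu : u = v
    · subst hu
      rw [Function.update_self]
      unfold ovr
      rw [if_neg hv, Function.update_self]
    · rw [Function.update_of_ne hu]
      unfold ovr
      rw [Function.update_of_ne hu]
  unfold av dv
  simp only [e]
  rw [← sub_div, ← Finset.sum_sub_distrib, ← Finset.sum_div]
  ring

/-- correlation `e` on `W`, `κ` elsewhere -/
noncomputable def kon (W : Finset Pt) (e : ℝ) (κ : Pt → ℝ) : Pt → ℝ :=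
  fun v => if v ∈ W then e else κ v

private theorem PF1_wt_nonneg {k : ℝ} (h : 0 ≤ k ∧ k ≤ 1) (s s' : Bool) : 0 ≤ wt k s s' := by
  unfold wt
  split_ifs
  · linarith [h.1]
  · linarith [h.2]

/-- `E[g g']` with the cross terms `|g|`: for `±` valued derivatives of indicators. -/
theorem ex2_dv_le {A : Cfg → Prop} (hA : Loc A) (v : Pt) {κ : Pt → ℝ}
    (hκ : ∀ v, 0 ≤ κ v ∧ κ v ≤ 1) :
    ex2 κ (dv v (ind A)) (dv v (ind A)) ≤ (1 / 4) * pr2 κ (Piv v A) := by
  obtain ⟨F, hF⟩ := hA
  have d1 : Dep (dv v (ind A)) (F : Set Pt) := by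
    intro ω ω' H
    exact (hF.ind.dv v) ω ω' fun u hu => H u hu.1
  have d2 : Dep (ind (Piv v A)) (F : Set Pt) := by
    apply Dep.ind
    intro ω ω' H
    exact (hF.piv v) ω ω' fun u hu => H u hu.1
  unfold pr2
  rw [ex2_eq d1 d1, ex2_eq d2 d2]
  unfold ex2F
  rw [Finset.mul_sum]
  apply Finset.sum_le_sum
  intro S _
  rw [Finset.mul_sum]
  apply Finset.sum_le_sum
  intro T _
  have hw : 0 ≤ ∏ u ∈ F, wt (κ u) (decide (u ∈ S)) (decide (u ∈ T)) :=
    Finset.prod_nonneg fun u _ => PF1_wt_nonneg (hκ u) _ _
  have hm : dv v (ind A) (ovr F S fun _ => false) * dv v (ind A) (ovr F T fun _ => false) ≤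
      (1 / 4) * (ind (Piv v A) (ovr F S fun _ => false) *
        ind (Piv v A) (ovr F T fun _ => false)) := by
    calc dv v (ind A) (ovr F S fun _ => false) * dv v (ind A) (ovr F T fun _ => false)
        ≤ |dv v (ind A) (ovr F S fun _ => false) * dv v (ind A) (ovr F T fun _ => false)| :=
          le_abs_self _
      _ = (1 / 4) * (ind (Piv v A) (ovr F S fun _ => false) *
        ind (Piv v A) (ovr F T fun _ => false)) := by
          rw [abs_mul, abs_dv_ind, abs_dv_ind]
          ring
  calc _ ≤ (∏ u ∈ F, wt (κ u) (decide (u ∈ S)) (decide (u ∈ T))) *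
        ((1 / 4) * (ind (Piv v A) (ovr F S fun _ => false) *
        ind (Piv v A) (ovr F T fun _ => false))) := mul_le_mul_of_nonneg_left hm hw
    _ = _ := by ring

end SC
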