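import Pool.Agent.Lib_MP_e0a489.PE4
import Pool.Agent.Lib_MP_e0a489.PF1

/-!
# MP_e0a489, probability toolkit 7b: changing the noise, energy
-/

set_option autoImplicit false

namespace SC

open Classical

private theorem PF2_lf_dv {g : Cfg → ℝ} {F : Finset Pt} (hF : Dep g (F : Set Pt)) (v : Pt) :
    Dep (dv v g) (F : Set Pt) := by
  intro ω ω' H
  exact (hF.dv v) ω ω' fun u hu => H u hu.1

private theorem PF2_prod (W : Finset Pt) (e : ℝ) (κ : Pt → ℝ) (T : Finset Pt) :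
    ∏ v ∈ T, kon W e κ v = e ^ (T ∩ W).card * ∏ v ∈ T \ W, κ v := by
  have h1 : ∏ v ∈ T, kon W e κ v =
      (∏ v ∈ T ∩ W, kon W e κ v) * ∏ v ∈ T \ W, kon W e κ v := by
    rw [← Finset.prod_union]
    · congr 1
      ext v
      simp only [Finset.mem_union, Finset.mem_inter, Finset.mem_sdiff]
      tauto
    · rw [Finset.disjoint_left]
      intro v hv hv'
      exact (Finset.mem_sdiff.1 hv').2 (Finset.mem_inter.1 hv).2
  rw [h1]
  congr 1
  · rw [Finset.prod_congr rfl (g := fun _ => e)]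
    · rw [Finset.prod_const]
    · intro v hv
      unfold kon
      rw [if_pos (Finset.mem_inter.1 hv).2]
  · apply Finset.prod_congr rfl
    intro v hv
    unfold kon
    rw [if_neg (Finset.mem_sdiff.1 hv).2]

private theorem PF2_key1 {g : Cfg → ℝ} {F : Finset Pt} (hF : Dep g (F : Set Pt)) (W : Finset Pt)
    (e : ℝ) (κ : Pt → ℝ) {v : Pt} (hv : v ∈ W) :
    e * ex2 (kon W e κ) (dv v g) (dv v g) =
      ∑ T ∈ F.powerset, (if v ∈ T then
        (e ^ (T ∩ W).card * ∏ u ∈ T \ W, κ u) * (fc g T * fc g T) else 0) := by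
  have hLf : Lf g := ⟨F, hF⟩
  rw [ex2_fourier (PF2_lf_dv hF v) (PF2_lf_dv hF v), Finset.mul_sum]
  have e1 : ∀ S ∈ F.powerset, e * ((∏ u ∈ S, kon W e κ u) * (fc (dv v g) S * fc (dv v g) S)) =
      if v ∉ S ∧ v ∈ F then (∏ u ∈ insert v S, kon W e κ u) *
        (fc g (insert v S) * fc g (insert v S)) else 0 := by
    intro S hS
    rw [fc_dv hLf]
    by_cases h1 : v ∈ S
    · rw [if_pos h1, if_neg (fun h => h.1 h1)]
      ring
    · rw [if_neg h1]
      by_cases h2 : v ∈ F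
      · rw [if_pos ⟨h1, h2⟩, Finset.prod_insert h1]
        have : kon W e κ v = e := by unfold kon; rw [if_pos hv]
        rw [this]
        ring
      · rw [if_neg (fun h => h2 h.2), fc_eq_zero hF]
        · ring
        · intro h
          exact h2 (h (Finset.mem_insert_self v S))
  rw [Finset.sum_congr rfl e1, ← Finset.sum_filter, ← Finset.sum_filter]
  refine Finset.sum_bij' (fun S _ => insert v S) (fun T _ => T.erase v) ?_ ?_ ?_ ?_ ?_
  · intro S hS
    rw [Finset.mem_filter, Finset.mem_powerset] at hS ⊢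
    exact ⟨Finset.insert_subset hS.2.2 hS.1, Finset.mem_insert_self v S⟩
  · intro T hT
    rw [Finset.mem_filter, Finset.mem_powerset] at hT ⊢
    exact ⟨(Finset.erase_subset v T).trans hT.1, Finset.notMem_erase v T, hT.1 hT.2⟩
  · intro S hS
    rw [Finset.mem_filter] at hS
    exact Finset.erase_insert hS.2.1
  · intro T hT
    rw [Finset.mem_filter] at hT
    exact Finset.insert_erase hT.2
  · intro S hS
    rw [PF2_prod]

private theorem PF2_key {g : Cfg → ℝ} {F : Finset Pt} (hF : Dep g (F : Set Pt)) (W : Finset Pt)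
    (e : ℝ) (κ : Pt → ℝ) :
    ∑ v ∈ W, e * ex2 (kon W e κ) (dv v g) (dv v g) =
      ∑ T ∈ F.powerset, ((T ∩ W).card : ℝ) *
        ((e ^ (T ∩ W).card * ∏ u ∈ T \ W, κ u) * (fc g T * fc g T)) := by
  rw [Finset.sum_congr rfl fun v hv => PF2_key1 hF W e κ hv, Finset.sum_comm]
  apply Finset.sum_congr rfl
  intro T _
  rw [← Finset.sum_filter, Finset.sum_const, nsmul_eq_mul]
  congr 2
  rw [Finset.inter_comm, Finset.filter_mem_eq_inter]

private theorem PF2_ex2 {g : Cfg → ℝ} {F : Finset Pt} (hF : Dep g (F : Set Pt)) (W : Finset Pt)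
    (e : ℝ) (κ : Pt → ℝ) :
    ex2 (kon W e κ) g g =
      ∑ T ∈ F.powerset, (e ^ (T ∩ W).card * ∏ u ∈ T \ W, κ u) * (fc g T * fc g T) := by
  rw [ex2_fourier hF hF]
  apply Finset.sum_congr rfl
  intro T _
  rw [PF2_prod]

private theorem PF2_sq {g : Cfg → ℝ} {F : Finset Pt} (hF : Dep g (F : Set Pt)) :
    ex (fun ω => g ω ^ 2) = ∑ T ∈ F.powerset, fc g T * fc g T := by
  rw [← parseval hF hF]
  congr 1
  funext ω
  ring

private theorem PF2_exp1 {s : ℝ} (k : ℕ) :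
    Real.exp (-s) ^ k ≤ Real.exp (-(2 * s)) ^ k + s * (k * Real.exp (-s) ^ k) := by
  have e1 : Real.exp (-s) ^ k = Real.exp (-(s * k)) := by
    rw [← Real.exp_nat_mul]; congr 1; ring
  have e2 : Real.exp (-(2 * s)) ^ k = Real.exp (-(s * k)) * Real.exp (-(s * k)) := by
    rw [← Real.exp_nat_mul, ← Real.exp_add]; congr 1; ring
  rw [e1, e2]
  have h := Real.add_one_le_exp (-(s * k))
  have hp := Real.exp_pos (-(s * k))
  nlinarith

private theorem PF2_exp2 {s : ℝ} (k : ℕ) :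
    Real.exp (-(2 * s)) ^ k + s * (k * Real.exp (-(2 * s)) ^ k) ≤ Real.exp (-s) ^ k := by
  have e1 : Real.exp (-s) ^ k = Real.exp (-(2 * (s * k))) * Real.exp (s * k) := by
    rw [← Real.exp_nat_mul, ← Real.exp_add]; congr 1; ring
  have e2 : Real.exp (-(2 * s)) ^ k = Real.exp (-(2 * (s * k))) := by
    rw [← Real.exp_nat_mul]; congr 1; ring
  rw [e1, e2]
  have h := Real.add_one_le_exp (s * k)
  have hp := Real.exp_pos (-(2 * (s * k)))
  nlinarith

private theorem PF2_exp3 {s : ℝ} (k : ℕ) : 1 ≤ Real.exp (-s) ^ k + s * k := by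
  have e1 : Real.exp (-s) ^ k = Real.exp (-(s * k)) := by
    rw [← Real.exp_nat_mul]; congr 1; ring
  rw [e1]
  have h := Real.add_one_le_exp (-(s * k))
  linarith

private theorem PF2_exp4 {t P : ℝ} (ht : 0 ≤ t) (h0 : 0 ≤ P) (h1 : P ≤ 1) (k : ℕ) :
    Real.exp (-t) ^ k * P ≤ 0 ^ k * P + Real.exp (-t) := by
  have hp := Real.exp_pos (-t)
  have hle : Real.exp (-t) ≤ 1 := Real.exp_le_one_iff.2 (by linarith)
  cases k with
  | zero => simp; linarith
  | succ k =>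
    have h2 : Real.exp (-t) ^ k ≤ 1 := pow_le_one₀ hp.le hle
    have h3 : 0 ≤ Real.exp (-t) ^ k := by positivity
    have h4 : Real.exp (-t) ^ (k + 1) * P ≤ Real.exp (-t) := by
      calc Real.exp (-t) ^ (k + 1) * P = Real.exp (-t) * (Real.exp (-t) ^ k * P) := by ring
        _ ≤ Real.exp (-t) * 1 := by
          apply mul_le_mul_of_nonneg_left _ hp.le
          nlinarith
        _ = Real.exp (-t) := mul_one _
    simp only [pow_succ, mul_zero, zero_mul, zero_add]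
    rw [← pow_succ]
    exact h4

private theorem PF2_tail {g : Cfg → ℝ} (hg : Lf g) (W : Finset Pt) {κ : Pt → ℝ}
    (hκ : ∀ v, 0 ≤ κ v ∧ κ v ≤ 1) {t : ℝ} (ht : 0 ≤ t) :
    ex2 (kon W (Real.exp (-t)) κ) g g ≤ ex2 (kon W 0 κ) g g +
      Real.exp (-t) * ex (fun ω => g ω ^ 2) := by
  obtain ⟨F, hF⟩ := hg
  rw [PF2_ex2 hF, PF2_ex2 hF, PF2_sq hF, Finset.mul_sum, ← Finset.sum_add_distrib]
  apply Finset.sum_le_sum
  intro T _
  have hP0 : 0 ≤ ∏ u ∈ T \ W, κ u := Finset.prod_nonneg fun u _ => (hκ u).1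
  have hP1 : ∏ u ∈ T \ W, κ u ≤ 1 := Finset.prod_le_one (fun u _ => (hκ u).1) fun u _ => (hκ u).2
  have h := PF2_exp4 ht hP0 hP1 (T ∩ W).card
  have hf : 0 ≤ fc g T * fc g T := mul_self_nonneg _
  nlinarith [mul_le_mul_of_nonneg_right h hf]

/-- Increasing the lag from `s` to `2 s` on `W`, upper bound.  With `k = |S ∩ W|` the difference of
the coefficients of `fc g S ^ 2 ∏_{S \ W} κ` is `exp (-s k) - exp (-2 s k) ≤ s k exp (-s k)`, and
`∑_{v ∈ W} exp (-s) ex2 (..) (dv v g) (dv v g) = ∑ fc g S ^ 2 k exp (-s k) ∏ κ` by `fc_dv`. -/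
theorem lag_up {g : Cfg → ℝ} (hg : Lf g) (W : Finset Pt) {κ : Pt → ℝ} (hκ : ∀ v, 0 ≤ κ v)
    {s : ℝ} (hs : 0 ≤ s) :
    ex2 (kon W (Real.exp (-s)) κ) g g ≤ ex2 (kon W (Real.exp (-(2 * s))) κ) g g +
      s * ∑ v ∈ W, Real.exp (-s) * ex2 (kon W (Real.exp (-s)) κ) (dv v g) (dv v g) := by
  obtain ⟨F, hF⟩ := hg
  rw [PF2_key hF, PF2_ex2 hF, PF2_ex2 hF, Finset.mul_sum, ← Finset.sum_add_distrib]
  apply Finset.sum_le_sum
  intro T _
  have hP0 : 0 ≤ ∏ u ∈ T \ W, κ u := Finset.prod_nonneg fun u _ => hκ u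
  have hf : 0 ≤ fc g T * fc g T := mul_self_nonneg _
  have h := PF2_exp1 (s := s) (T ∩ W).card
  have h2 := mul_le_mul_of_nonneg_right h (mul_nonneg hP0 hf)
  calc _ = Real.exp (-s) ^ (T ∩ W).card * ((∏ u ∈ T \ W, κ u) * (fc g T * fc g T)) := by ring
    _ ≤ _ := h2
    _ = _ := by ring

/-- Lower bound: `exp (-s k) - exp (-2 s k) ≥ s k exp (-2 s k)`. -/
theorem lag_low {g : Cfg → ℝ} (hg : Lf g) (W : Finset Pt) {κ : Pt → ℝ} (hκ : ∀ v, 0 ≤ κ v)
    {s : ℝ} (hs : 0 ≤ s) :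
    ex2 (kon W (Real.exp (-(2 * s))) κ) g g +
      s * ∑ v ∈ W, Real.exp (-(2 * s)) *
        ex2 (kon W (Real.exp (-(2 * s))) κ) (dv v g) (dv v g) ≤
      ex2 (kon W (Real.exp (-s)) κ) g g := by
  obtain ⟨F, hF⟩ := hg
  rw [PF2_key hF, PF2_ex2 hF, PF2_ex2 hF, Finset.mul_sum, ← Finset.sum_add_distrib]
  apply Finset.sum_le_sum
  intro T _
  have hP0 : 0 ≤ ∏ u ∈ T \ W, κ u := Finset.prod_nonneg fun u _ => hκ u
  have hf : 0 ≤ fc g T * fc g T := mul_self_nonneg _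
  have h := PF2_exp2 (s := s) (T ∩ W).card
  have h2 := mul_le_mul_of_nonneg_right h (mul_nonneg hP0 hf)
  calc _ = (Real.exp (-(2 * s)) ^ (T ∩ W).card +
        s * ((T ∩ W).card * Real.exp (-(2 * s)) ^ (T ∩ W).card)) *
        ((∏ u ∈ T \ W, κ u) * (fc g T * fc g T)) := by ring
    _ ≤ _ := h2
    _ = _ := by ring

/-- Iteration of `lag_up` (times `2 ^ j t`, `j < n`) and the tail:
`ex2 (kon W (exp (-s)) κ) g g ≤ ex2 (kon W 0 κ) g g + exp (-s) E[g²]` (`s = 2 ^ n t`, `κ ≤ 1`). -/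
theorem lag_sum {g : Cfg → ℝ} (hg : Lf g) (W : Finset Pt) {κ : Pt → ℝ}
    (hκ : ∀ v, 0 ≤ κ v ∧ κ v ≤ 1) {t : ℝ} (ht : 0 ≤ t) (n : ℕ) :
    ex2 (kon W (Real.exp (-t)) κ) g g ≤ ex2 (kon W 0 κ) g g +
      ∑ j ∈ Finset.range n, (2 ^ j * t) * ∑ v ∈ W, Real.exp (-(2 ^ j * t)) *
        ex2 (kon W (Real.exp (-(2 ^ j * t))) κ) (dv v g) (dv v g) +
      Real.exp (-(2 ^ n * t)) * ex (fun ω => g ω ^ 2) := by
  have hA : ex2 (kon W (Real.exp (-t)) κ) g g ≤
      ex2 (kon W (Real.exp (-(2 ^ n * t))) κ) g g +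
      ∑ j ∈ Finset.range n, (2 ^ j * t) * ∑ v ∈ W, Real.exp (-(2 ^ j * t)) *
        ex2 (kon W (Real.exp (-(2 ^ j * t))) κ) (dv v g) (dv v g) := by
    induction n with
    | zero => simp
    | succ n ih =>
      rw [Finset.sum_range_succ]
      have h := lag_up hg W (fun v => (hκ v).1) (s := 2 ^ n * t) (by positivity)
      have e : 2 * (2 ^ n * t) = 2 ^ (n + 1) * t := by ring
      rw [e] at h
      linarith
  have hB := PF2_tail hg W hκ (t := 2 ^ n * t) (by positivity)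
  linarith

/-- ENERGY: telescoping sum of `lag_low` over the times `s = 2 ^ j t`, `j < n` (`W` = all sites of a
finite set, `κ = 1` elsewhere): the total is at most `ex2 1 g g = E[g²]`. -/
theorem energy {g : Cfg → ℝ} (hg : Lf g) (W : Finset Pt) {t : ℝ} (ht : 0 ≤ t) (n : ℕ) :
    ∑ j ∈ Finset.range n, (2 ^ j * t) * ∑ v ∈ W, Real.exp (-(2 * (2 ^ j * t))) *
      ex2 (kon W (Real.exp (-(2 * (2 ^ j * t)))) fun _ => 1) (dv v g) (dv v g) ≤
      ex (fun ω => g ω ^ 2) := by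
  have hA : ex2 (kon W (Real.exp (-(2 ^ n * t))) fun _ => 1) g g +
      ∑ j ∈ Finset.range n, (2 ^ j * t) * ∑ v ∈ W, Real.exp (-(2 * (2 ^ j * t))) *
      ex2 (kon W (Real.exp (-(2 * (2 ^ j * t)))) fun _ => 1) (dv v g) (dv v g) ≤
      ex2 (kon W (Real.exp (-t)) fun _ => 1) g g := by
    induction n with
    | zero => simp
    | succ n ih =>
      rw [Finset.sum_range_succ]
      have h := lag_low hg W (κ := fun _ => 1) (fun _ => zero_le_one) (s := 2 ^ n * t)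
        (by positivity)
      have e : 2 * (2 ^ n * t) = 2 ^ (n + 1) * t := by ring
      rw [e] at h
      rw [e]
      linarith
  have hB : 0 ≤ ex2 (kon W (Real.exp (-(2 ^ n * t))) fun _ => 1) g g := by
    apply ex2_self_nonneg hg
    intro v
    unfold kon
    split_ifs
    · exact (Real.exp_pos _).le
    · exact zero_le_one
  have hC : ex2 (kon W (Real.exp (-t)) fun _ => 1) g g ≤ ex (fun ω => g ω ^ 2) := by
    apply ex2_le_sq hg
    intro v
    unfold kon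
    split_ifs
    · exact ⟨(Real.exp_pos _).le, Real.exp_le_one_iff.2 (by linarith)⟩
    · exact ⟨zero_le_one, le_refl _⟩
  linarith

/-- Loss of a small lag: `1 - exp (-s k) ≤ s k`. -/
theorem lag_loss {g : Cfg → ℝ} (hg : Lf g) (W : Finset Pt) {s : ℝ} (hs : 0 ≤ s) :
    ex (fun ω => g ω ^ 2) ≤ ex2 (kon W (Real.exp (-s)) fun _ => 1) g g +
      s * ∑ v ∈ W, ex (fun ω => dv v g ω ^ 2) := by
  obtain ⟨F, hF⟩ := hg
  have e1 : ∀ v ∈ W, ex (fun ω => dv v g ω ^ 2) =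
      1 * ex2 (kon W 1 fun _ => 1) (dv v g) (dv v g) := by
    intro v _
    rw [ex2_one ⟨F, PF2_lf_dv hF v⟩ ⟨F, PF2_lf_dv hF v⟩ (PF2_lf_dv hF v) _ (fun u _ => by
      unfold kon; split_ifs <;> rfl), one_mul]
    congr 1
    funext ω
    ring
  rw [Finset.sum_congr rfl e1, PF2_key hF, PF2_ex2 hF, PF2_sq hF, Finset.mul_sum,
    ← Finset.sum_add_distrib]
  apply Finset.sum_le_sum
  intro T _
  have hf : 0 ≤ fc g T * fc g T := mul_self_nonneg _
  have h := PF2_exp3 (s := s) (T ∩ W).card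
  have h2 := mul_le_mul_of_nonneg_right h hf
  simp only [Finset.prod_const_one, one_pow, mul_one, one_mul] at h2 ⊢
  calc _ ≤ _ := h2
    _ = _ := by ring

end SC
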