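import Pool.Agent.Lib_MP_e0a489.PA2b

/-!
# MP_e0a489, probability toolkit 8b: first level inequality for stopping sets
-/

set_option autoImplicit false

namespace SC

open Classical

/-- `R` is a stopping set made of blocks of `𝓑` (a family of disjoint blocks) -/
structure BStop (𝓑 : Finset (Finset Pt)) (R : Cfg → Finset (Finset Pt)) : Prop where
  sub : ∀ ω, R ω ⊆ 𝓑
  stop : ∀ ω ω' : Cfg, (∀ B ∈ R ω, ∀ v ∈ B, ω v = ω' v) → R ω' = R ω

private theorem PG2_ind_congr {A : Cfg → Prop} {ω ω' : Cfg} (h : A ω = A ω') :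
    ind A ω = ind A ω' := by
  unfold ind
  by_cases h1 : A ω
  · rw [if_pos h1, if_pos (h ▸ h1)]
  · rw [if_neg h1, if_neg (h ▸ h1)]

private theorem PG2_ind_mem (A : Cfg → Prop) (ω : Cfg) : ind A ω = 0 ∨ ind A ω = 1 := by
  unfold ind
  split_ifs
  · exact Or.inr rfl
  · exact Or.inl rfl

/-- `ω` and `ω'` agree off a block which is not in `R ω` -/
private theorem PG2_R {𝓑 : Finset (Finset Pt)}
    (hd : ∀ B ∈ 𝓑, ∀ B' ∈ 𝓑, B ≠ B' → Disjoint B B')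
    {R : Cfg → Finset (Finset Pt)} (hR : BStop 𝓑 R) {B : Finset Pt} (hB : B ∈ 𝓑) {ω ω' : Cfg}
    (h : ∀ v, v ∉ B → ω v = ω' v) (hn : B ∉ R ω) :
    (∀ C ∈ R ω, ∀ v ∈ C, ω v = ω' v) ∧ R ω' = R ω := by
  have h1 : ∀ C ∈ R ω, ∀ v ∈ C, ω v = ω' v := by
    intro C hC v hv
    apply h
    have hne : C ≠ B := by
      rintro rfl
      exact hn hC
    exact Finset.disjoint_left.1 (hd C (hR.sub ω hC) B hB hne) hv
  exact ⟨h1, hR.stop ω ω' h1⟩

private theorem PG2_mem {𝓑 : Finset (Finset Pt)}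
    (hd : ∀ B ∈ 𝓑, ∀ B' ∈ 𝓑, B ≠ B' → Disjoint B B')
    {R : Cfg → Finset (Finset Pt)} (hR : BStop 𝓑 R) {B : Finset Pt} (hB : B ∈ 𝓑) {ω ω' : Cfg}
    (h : ∀ v, v ∉ B → ω v = ω' v) : (B ∈ R ω) = (B ∈ R ω') := by
  by_cases h1 : B ∈ R ω
  · by_cases h2 : B ∈ R ω'
    · exact propext ⟨fun _ => h2, fun _ => h1⟩
    · exfalso
      have h3 := (PG2_R hd hR hB (fun v hv => (h v hv).symm) h2).2
      rw [h3] at h1
      exact h2 h1
  · have h3 := (PG2_R hd hR hB h h1).2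
    rw [h3]

private theorem PG2_zero {B : Finset Pt} {h X : Cfg → ℝ} (lh : Lf h)
    (hh : ∀ ω ω' : Cfg, (∀ v, v ∉ B → ω v = ω' v) → h ω = h ω') (hX : Dep X (B : Set Pt)) :
    ex (fun ω => h ω * X ω) = ex h * ex X := by
  refine ex_mul (A := (B : Set Pt)ᶜ) (B := (B : Set Pt)) lh ⟨B, hX⟩ ?_ hX ?_
  · intro ω ω' hw
    apply hh
    intro v hv
    exact hw v (by simpa using hv)
  · intro v hv
    exact hv

/-- FIRST LEVEL.  `𝓑` disjoint blocks, `R` a stopping set of blocks which determines `f`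
(`f ω' = f ω` if `ω = ω'` on the blocks of `R ω`), `0 ≤ f ≤ 1`, `X B` depends only on the block `B`,
`E X = 0`, `E X² ≤ V`.  Then
`∑ E[f X_B] ≤ (V ∑ P(B ∈ R)) ^ (1/2)`.
Proof: given the blocks of `R ω`, the other blocks are fresh, so `E[f ∑ X_B] = E[f ∑_{B ∈ R} X_B]
≤ (E (∑_{B ∈ R} X_B)²)^(1/2)`, and `E (∑_{all} X_B)² = ∑ E X_B² = E (∑_{B ∈ R} X_B)² +
E ∑_{B ∉ R} E X_B²`, whence `E (∑_{B ∈ R} X_B)² = E ∑_{B ∈ R} E X_B² ≤ V ∑ P(B ∈ R)`. -/
theorem level_one {𝓑 : Finset (Finset Pt)} (hd : ∀ B ∈ 𝓑, ∀ B' ∈ 𝓑, B ≠ B' → Disjoint B B')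
    {R : Cfg → Finset (Finset Pt)} (hR : BStop 𝓑 R) {f : Cfg → ℝ} (lf : Lf f)
    (f0 : ∀ ω, 0 ≤ f ω) (f1 : ∀ ω, f ω ≤ 1)
    (hf : ∀ ω ω' : Cfg, (∀ B ∈ R ω, ∀ v ∈ B, ω v = ω' v) → f ω' = f ω)
    {X : Finset Pt → Cfg → ℝ} (hX : ∀ B ∈ 𝓑, Dep (X B) (B : Set Pt))
    (hX0 : ∀ B ∈ 𝓑, ex (X B) = 0) {V : ℝ} (hV : ∀ B ∈ 𝓑, ex (fun ω => X B ω ^ 2) ≤ V) :
    ∑ B ∈ 𝓑, ex (fun ω => f ω * X B ω) ≤
      Real.sqrt (V * ∑ B ∈ 𝓑, pr (fun ω => B ∈ R ω)) := by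
  have lR : ∀ B, Loc (fun ω => B ∈ R ω) := by
    intro B
    refine ⟨𝓑.biUnion id, ?_⟩
    intro ω ω' hw
    have h1 : R ω' = R ω := hR.stop ω ω' (fun C hC v hv => hw v (by
      have : v ∈ 𝓑.biUnion id := Finset.mem_biUnion.2 ⟨C, hR.sub ω hC, hv⟩
      exact_mod_cast this))
    show (B ∈ R ω) = (B ∈ R ω')
    rw [h1]
  let r : Finset Pt → Cfg → ℝ := fun B => ind (fun ω => B ∈ R ω)
  have lr : ∀ B, Lf (r B) := fun B => (lR B).lf
  have lX : ∀ B ∈ 𝓑, Lf (X B) := fun B hB => ⟨B, hX B hB⟩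
  have l1 : Lf (fun _ : Cfg => (1 : ℝ)) := Lf.const 1
  have hr : ∀ B ∈ 𝓑, ∀ ω ω' : Cfg, (∀ v, v ∉ B → ω v = ω' v) → r B ω = r B ω' := by
    intro B hB ω ω' h
    have h1 := PG2_mem hd hR hB h
    exact PG2_ind_congr h1
  have hXB : ∀ B ∈ 𝓑, ∀ B' ∈ 𝓑, B ≠ B' → ∀ ω ω' : Cfg, (∀ v, v ∉ B' → ω v = ω' v) →
      X B ω = X B ω' := by
    intro B hB B' hB' hne ω ω' h
    exact hX B hB ω ω' (fun v hv => h v (Finset.disjoint_left.1 (hd B hB B' hB' hne)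
      (by exact_mod_cast hv)))
  -- cross terms
  have cross : ∀ B ∈ 𝓑, ∀ B' ∈ 𝓑, B ≠ B' →
      ex (fun ω => (r B ω * X B ω) * (r B' ω * X B' ω)) = 0 := by
    intro B hB B' hB' hne
    have e1 : ex (fun ω => (r B ω * X B' ω) * X B ω) = 0 := by
      rw [PG2_zero ((lr B).mul (lX B' hB')) ?_ (hX B hB), hX0 B hB, mul_zero]
      intro ω ω' h
      show r B ω * X B' ω = r B ω' * X B' ω'
      rw [hr B hB ω ω' h, hXB B' hB' B hB hne.symm ω ω' h]
    have e2 : ex (fun ω => ((r B ω * (1 - r B' ω)) * X B ω) * X B' ω) = 0 := by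
      rw [PG2_zero (((lr B).mul (l1.sub (lr B'))).mul (lX B hB)) ?_ (hX B' hB'), hX0 B' hB',
        mul_zero]
      intro ω ω' h
      show (r B ω * (1 - r B' ω)) * X B ω = (r B ω' * (1 - r B' ω')) * X B ω'
      rw [hXB B hB B' hB' hne ω ω' h, hr B' hB' ω ω' h]
      by_cases h1 : B' ∈ R ω'
      · have h2 : r B' ω' = 1 := if_pos h1
        rw [h2]
        ring
      · have h2 := (PG2_R hd hR hB' (fun v hv => (h v hv).symm) h1).2
        have h3 : r B ω = r B ω' := by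
          apply PG2_ind_congr
          show (B ∈ R ω) = (B ∈ R ω')
          rw [h2]
        rw [h3]
    have e3 : ex (fun ω => (r B ω * X B ω) * (r B' ω * X B' ω)) =
        ex (fun ω => (r B ω * X B' ω) * X B ω - ((r B ω * (1 - r B' ω)) * X B ω) * X B' ω) := by
      congr 1
      funext ω
      ring
    rw [e3, ex_sub (((lr B).mul (lX B' hB')).mul (lX B hB))
      ((((lr B).mul (l1.sub (lr B'))).mul (lX B hB)).mul (lX B' hB')), e1, e2, sub_zero]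
  -- diagonal terms
  have diag : ∀ B ∈ 𝓑, ex (fun ω => (r B ω * X B ω) * (r B ω * X B ω)) ≤
      V * pr (fun ω => B ∈ R ω) := by
    intro B hB
    have e1 : ex (fun ω => (r B ω * X B ω) * (r B ω * X B ω)) =
        ex (fun ω => r B ω * X B ω ^ 2) := by
      congr 1
      funext ω
      rcases PG2_ind_mem (fun ω => B ∈ R ω) ω with h | h
      · have h' : r B ω = 0 := h
        rw [h']
        ring
      · have h' : r B ω = 1 := h
        rw [h']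
        ring
    have e2 : ex (fun ω => r B ω * X B ω ^ 2) = ex (r B) * ex (fun ω => X B ω ^ 2) :=
      PG2_zero (X := fun ω => X B ω ^ 2) (lr B) (hr B hB) (by
        intro ω ω' hw
        show X B ω ^ 2 = X B ω' ^ 2
        rw [hX B hB ω ω' hw])
    rw [e1, e2, mul_comm]
    exact mul_le_mul_of_nonneg_right (hV B hB) (pr_nonneg _)
  let Y : Cfg → ℝ := fun ω => ∑ B ∈ 𝓑, r B ω * X B ω
  have lt : ∀ B ∈ 𝓑, Lf (fun ω => r B ω * X B ω) := fun B hB => (lr B).mul (lX B hB)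
  have lY : Lf Y := Lf.sum lt
  have hY : ex (fun ω => Y ω ^ 2) ≤ V * ∑ B ∈ 𝓑, pr (fun ω => B ∈ R ω) := by
    have e1 : (fun ω => Y ω ^ 2) =
        fun ω => ∑ B ∈ 𝓑, ∑ B' ∈ 𝓑, (r B ω * X B ω) * (r B' ω * X B' ω) := by
      funext ω
      show (∑ B ∈ 𝓑, r B ω * X B ω) ^ 2 = _
      rw [pow_two, Finset.sum_mul_sum]
    rw [e1, ex_sum (fun B hB => Lf.sum (fun B' hB' => (lt B hB).mul (lt B' hB'))), Finset.mul_sum]
    refine Finset.sum_le_sum fun B hB => ?_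
    rw [ex_sum (fun B' hB' => (lt B hB).mul (lt B' hB')), Finset.sum_eq_single_of_mem B hB]
    · exact diag B hB
    · intro B' hB' hne
      exact cross B hB B' hB' hne.symm
  -- the sum
  have hsum : ∑ B ∈ 𝓑, ex (fun ω => f ω * X B ω) = ex (fun ω => f ω * Y ω) := by
    have e1 : (fun ω => f ω * Y ω) = fun ω => ∑ B ∈ 𝓑, f ω * (r B ω * X B ω) := by
      funext ω
      show f ω * ∑ B ∈ 𝓑, r B ω * X B ω = _
      rw [Finset.mul_sum]
    rw [e1, ex_sum (fun B hB => lf.mul (lt B hB))]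
    refine Finset.sum_congr rfl fun B hB => ?_
    have e2 : ex (fun ω => (f ω * (1 - r B ω)) * X B ω) = 0 := by
      rw [PG2_zero (lf.mul (l1.sub (lr B))) ?_ (hX B hB), hX0 B hB, mul_zero]
      intro ω ω' h
      show f ω * (1 - r B ω) = f ω' * (1 - r B ω')
      rw [hr B hB ω ω' h]
      by_cases h1 : B ∈ R ω'
      · have h2 : r B ω' = 1 := if_pos h1
        rw [h2]
        ring
      · have h2 := (PG2_R hd hR hB (fun v hv => (h v hv).symm) h1).1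
        rw [hf ω' ω h2]
    have e3 : ex (fun ω => f ω * X B ω) =
        ex (fun ω => f ω * (r B ω * X B ω) + (f ω * (1 - r B ω)) * X B ω) := by
      congr 1
      funext ω
      ring
    rw [e3, ex_add (lf.mul (lt B hB)) ((lf.mul (l1.sub (lr B))).mul (lX B hB)), e2, add_zero]
  rw [hsum]
  refine Real.le_sqrt_of_sq_le ?_
  refine le_trans (ex_mul_sq_le lf lY) ?_
  have hf2 : ex (fun ω => f ω ^ 2) ≤ 1 := by
    rw [← ex_const (1 : ℝ)]
    refine ex_mono ?_ l1 fun ω => ?_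
    · have := lf.mul lf
      simpa only [pow_two] using this
    · have h0 := f0 ω
      have h1 := f1 ω
      nlinarith
  have hY0 : 0 ≤ ex (fun ω => Y ω ^ 2) := ex_nonneg fun ω => sq_nonneg _
  calc (ex fun ω => f ω ^ 2) * (ex fun ω => Y ω ^ 2) ≤ 1 * (ex fun ω => Y ω ^ 2) :=
        mul_le_mul_of_nonneg_right hf2 hY0
    _ = ex (fun ω => Y ω ^ 2) := one_mul _
    _ ≤ _ := hY

end SC
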