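import Pool.Agent.Lib_MP_e0a489.SE1

/-!
# MP_e0a489, module SE 2: the min trick
-/

set_option autoImplicit false

namespace SC

open Classical

private theorem se2_ind_nonneg (A : Cfg → Prop) (ω : Cfg) : 0 ≤ ind A ω := by
  unfold ind
  split_ifs
  · exact zero_le_one
  · exact le_rfl

private theorem se2_ind_le_one (A : Cfg → Prop) (ω : Cfg) : ind A ω ≤ 1 := by
  unfold ind
  split_ifs
  · exact le_rfl
  · exact zero_le_one

private theorem se2_dep_univ {α : Type} (g : Cfg → α) : Dep g Set.univ := by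
  intro ω ω' H
  have : ω = ω' := funext (fun v => H v trivial)
  rw [this]

/-- MIN TRICK.  Let `b = cpr G B` and `X = {b ≤ l}` (does not depend on `G`: `Dep.av`).  `ind A = a₁ + a₂`, `a₁ = ind A` on `X` and `0` off
`X`, `a₂ = ind A` off `X`; `ex2_add_le`: `pr2 k A ≤ 2 ex2 k a₁ a₁ + 2 ex2 k a₂ a₂`.
First term: `a₁ ≤ ind D`, so `ex2 k a₁ a₁ ≤ ex2 k a₁ (ind D) = ex2 k (av G a₁) (ind D)` (`ex2_mono`, `ex2_av_left`).
`av G a₁ = 1_X * cpr G A` (`av_mul_left`), and `cpr G A ≤ cpr G D = ind D`; so on `X ∩ D` we have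
`av G a₁ ≤ e + C l`, off `X ∩ D` it is `0` (≤ `0`): `av G a₁ ≤ (e + C l) ind D`.  Hence `ex2 k a₁ a₁ ≤ (e + C l) pr2 k D`.
Second term: `a₂ ≤ b / l` pointwise (off `X`, `b > l`), so `ex2 k a₂ a₂ ≤ l⁻² ex2 k b b`; `b` does not depend on `G`, so
`ex2 k b b = ex2 k' b b` (`ex2_congr`) with `k' = k` off `G`, `0` on `G`, and `ex2 k' b b = ex2 k' (ind B) (ind B)` (`ex2_av`). -/
theorem min_trick {A B D : Cfg → Prop} (lA : Loc A) (lB : Loc B) (lD : Loc D) {G : Finset Pt}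
    {V : Set Pt} (hD : Dep D V) (hV : ∀ v ∈ G, v ∉ V) (hAD : ∀ ω, A ω → D ω) {e C l : ℝ}
    (he : 0 ≤ e) (hC : 0 ≤ C) (hl : 0 < l)
    (h : ∀ ω, cpr G A ω ≤ e * ind D ω + C * cpr G B ω) {k : Pt → ℝ} (hk : Kap k) :
    pr2 k A ≤ 2 * (e + C * l) * pr2 k D +
      2 / l ^ 2 * pr2 (fun v => if v ∈ G then 0 else k v) B := by
  have lb : Lf (cpr G B) := lB.lf.av G
  have hbG : Dep (cpr G B) (Set.univ \ (G : Set Pt)) := (se2_dep_univ (ind B)).av G
  have hGu : ∀ v ∈ G, v ∉ Set.univ \ (G : Set Pt) := fun v hv hv' => hv'.2 (by exact_mod_cast hv)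
  have hXG : Dep (fun ω => cpr G B ω ≤ l) (Set.univ \ (G : Set Pt)) := by
    intro ω ω' H
    show (cpr G B ω ≤ l) = (cpr G B ω' ≤ l)
    rw [hbG ω ω' H]
  have lX : Loc (fun ω => cpr G B ω ≤ l) := by
    obtain ⟨F, hF⟩ := lb
    refine ⟨F, ?_⟩
    intro ω ω' H
    show (cpr G B ω ≤ l) = (cpr G B ω' ≤ l)
    rw [hF ω ω' H]
  have lY : Loc (fun ω => ¬ cpr G B ω ≤ l) := by
    obtain ⟨F, hF⟩ := lb
    refine ⟨F, ?_⟩
    intro ω ω' H
    show (¬ cpr G B ω ≤ l) = (¬ cpr G B ω' ≤ l)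
    rw [hF ω ω' H]
  have la1 : Lf (fun ω => ind (fun ω => cpr G B ω ≤ l) ω * ind A ω) := lX.lf.mul lA.lf
  have la2 : Lf (fun ω => ind (fun ω => ¬ cpr G B ω ≤ l) ω * ind A ω) := lY.lf.mul lA.lf
  have hsum : ind A = fun ω => ind (fun ω => cpr G B ω ≤ l) ω * ind A ω +
      ind (fun ω => ¬ cpr G B ω ≤ l) ω * ind A ω := by
    funext ω
    by_cases h1 : cpr G B ω ≤ l
    · simp [ind, h1]
    · simp [ind, h1]
  have n1 : ∀ ω, 0 ≤ ind (fun ω => cpr G B ω ≤ l) ω * ind A ω := fun ω =>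
    mul_nonneg (se2_ind_nonneg _ ω) (se2_ind_nonneg _ ω)
  have n2 : ∀ ω, 0 ≤ ind (fun ω => ¬ cpr G B ω ≤ l) ω * ind A ω := fun ω =>
    mul_nonneg (se2_ind_nonneg _ ω) (se2_ind_nonneg _ ω)
  -- first term
  have hle : ∀ ω, ind (fun ω => cpr G B ω ≤ l) ω * ind A ω ≤ ind D ω := by
    intro ω
    by_cases hA : A ω
    · have hd : ind D ω = 1 := by simp [ind, hAD ω hA]
      rw [hd]
      have h1 : ind (fun ω => cpr G B ω ≤ l) ω ≤ 1 := se2_ind_le_one _ ω
      have h2 : ind A ω ≤ 1 := se2_ind_le_one _ ω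
      exact mul_le_one₀ h1 (se2_ind_nonneg _ ω) h2
    · have : ind A ω = 0 := by simp [ind, hA]
      rw [this, mul_zero]
      exact se2_ind_nonneg _ ω
  have hav1 : ∀ ω, av G (fun ω => ind (fun ω => cpr G B ω ≤ l) ω * ind A ω) ω =
      ind (fun ω => cpr G B ω ≤ l) ω * cpr G A ω := fun ω =>
    av_mul_left (g := ind A) hXG.ind hGu ω
  have hcAD : ∀ ω, cpr G A ω ≤ ind D ω := by
    intro ω
    have h1 : cpr G A ω ≤ av G (ind D) ω := by
      refine av_mono (fun ω' _ => ?_)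
      by_cases hA : A ω'
      · simp [ind, hA, hAD ω' hA]
      · have : ind A ω' = 0 := by simp [ind, hA]
        rw [this]
        exact se2_ind_nonneg _ ω'
    rw [av_of_dep hD.ind hV ω] at h1
    exact h1
  have hb1 : ∀ ω, av G (fun ω => ind (fun ω => cpr G B ω ≤ l) ω * ind A ω) ω ≤
      (e + C * l) * ind D ω := by
    intro ω
    rw [hav1 ω]
    by_cases h1 : cpr G B ω ≤ l
    · have hx : ind (fun ω => cpr G B ω ≤ l) ω = 1 := by simp [ind, h1]
      rw [hx, one_mul]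
      by_cases hD1 : D ω
      · have hd : ind D ω = 1 := by simp [ind, hD1]
        have h2 := h ω
        rw [hd, mul_one] at h2 ⊢
        have h3 : C * cpr G B ω ≤ C * l := mul_le_mul_of_nonneg_left h1 hC
        linarith
      · have hd : ind D ω = 0 := by simp [ind, hD1]
        have h2 := hcAD ω
        rw [hd] at h2 ⊢
        rw [mul_zero]
        exact h2
    · have hx : ind (fun ω => cpr G B ω ≤ l) ω = 0 := by simp [ind, h1]
      rw [hx, zero_mul]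
      exact mul_nonneg (add_nonneg he (mul_nonneg hC hl.le)) (se2_ind_nonneg _ ω)
  have t1 : ex2 k (fun ω => ind (fun ω => cpr G B ω ≤ l) ω * ind A ω)
      (fun ω => ind (fun ω => cpr G B ω ≤ l) ω * ind A ω) ≤ (e + C * l) * pr2 k D := by
    have s1 : ex2 k (fun ω => ind (fun ω => cpr G B ω ≤ l) ω * ind A ω)
        (fun ω => ind (fun ω => cpr G B ω ≤ l) ω * ind A ω) ≤
        ex2 k (fun ω => ind (fun ω => cpr G B ω ≤ l) ω * ind A ω) (ind D) :=
      ex2_mono la1 la1 la1 lD.lf k hk n1 n1 (fun ω => le_rfl) hle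
    rw [ex2_av_left la1 lD.lf hD.ind hV k] at s1
    have s2 : ex2 k (av G (fun ω => ind (fun ω => cpr G B ω ≤ l) ω * ind A ω)) (ind D) ≤
        ex2 k (fun ω => (e + C * l) * ind D ω) (ind D) :=
      ex2_mono (la1.av G) lD.lf (lD.lf.smul _) lD.lf k hk (av_nonneg n1)
        (se2_ind_nonneg D) hb1 (fun ω => le_rfl)
    rw [ex2_smul_left lD.lf lD.lf k] at s2
    exact s1.trans s2
  -- second term
  have hb2 : ∀ ω, ind (fun ω => ¬ cpr G B ω ≤ l) ω * ind A ω ≤ (1 / l) * cpr G B ω := by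
    intro ω
    have hb0 : 0 ≤ cpr G B ω := cpr_nonneg G B ω
    by_cases h1 : cpr G B ω ≤ l
    · have hx : ind (fun ω => ¬ cpr G B ω ≤ l) ω = 0 := by simp [ind, h1]
      rw [hx, zero_mul]
      exact mul_nonneg (by positivity) hb0
    · have h2 : 1 ≤ (1 / l) * cpr G B ω := by
        rw [one_div, inv_mul_eq_div, le_div_iff₀ hl, one_mul]
        exact (not_le.1 h1).le
      have h3 : ind (fun ω => ¬ cpr G B ω ≤ l) ω * ind A ω ≤ 1 :=
        mul_le_one₀ (se2_ind_le_one _ ω) (se2_ind_nonneg _ ω) (se2_ind_le_one _ ω)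
      exact h3.trans h2
  have t2 : ex2 k (fun ω => ind (fun ω => ¬ cpr G B ω ≤ l) ω * ind A ω)
      (fun ω => ind (fun ω => ¬ cpr G B ω ≤ l) ω * ind A ω) ≤
      1 / l ^ 2 * pr2 (fun v => if v ∈ G then 0 else k v) B := by
    have s1 : ex2 k (fun ω => ind (fun ω => ¬ cpr G B ω ≤ l) ω * ind A ω)
        (fun ω => ind (fun ω => ¬ cpr G B ω ≤ l) ω * ind A ω) ≤
        ex2 k (fun ω => (1 / l) * cpr G B ω) (fun ω => (1 / l) * cpr G B ω) :=
      ex2_mono la2 la2 (lb.smul _) (lb.smul _) k hk n2 n2 hb2 hb2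
    have s2 : ex2 k (fun ω => (1 / l) * cpr G B ω) (fun ω => (1 / l) * cpr G B ω) =
        1 / l ^ 2 * ex2 k (cpr G B) (cpr G B) := by
      rw [ex2_smul_left lb (lb.smul _) k, ex2_comm lb (lb.smul _) k, ex2_smul_left lb lb k]
      field_simp
    have s3 : ex2 k (cpr G B) (cpr G B) =
        ex2 (fun v => if v ∈ G then 0 else k v) (cpr G B) (cpr G B) := by
      refine ex2_congr lb lb hbG (fun v hv => ?_)
      have hvG : v ∉ G := fun hv' => hv.2 (by exact_mod_cast hv')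
      rw [if_neg hvG]
    have s4 : pr2 (fun v => if v ∈ G then 0 else k v) B =
        ex2 (fun v => if v ∈ G then 0 else k v) (cpr G B) (cpr G B) :=
      ex2_av lB.lf lB.lf G _ (fun v hv => if_pos hv)
    rw [s2, s3, ← s4] at s1
    exact s1
  have t0 : pr2 k A ≤ 2 * ex2 k (fun ω => ind (fun ω => cpr G B ω ≤ l) ω * ind A ω)
      (fun ω => ind (fun ω => cpr G B ω ≤ l) ω * ind A ω) +
      2 * ex2 k (fun ω => ind (fun ω => ¬ cpr G B ω ≤ l) ω * ind A ω)
      (fun ω => ind (fun ω => ¬ cpr G B ω ≤ l) ω * ind A ω) := by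
    have s := ex2_add_le la1 la2 k (fun v => (hk v).1)
    rw [← hsum] at s
    exact s
  have t3 : 2 / l ^ 2 * pr2 (fun v => if v ∈ G then 0 else k v) B =
      2 * (1 / l ^ 2 * pr2 (fun v => if v ∈ G then 0 else k v) B) := by ring
  rw [t3]
  linarith

end SC
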