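import Pool.Agent.Lib_MP_e0a489.PG1
import Pool.Agent.Lib_MP_e0a489.PG2
import Pool.Agent.Lib_MP_e0a489.SE2

/-!
# MP_e0a489, probability toolkit 8c: level inequality of Schramm and Steif
-/

set_option autoImplicit false

namespace SC

open Classical

private theorem lk_dep_chi (S : Finset Pt) : Dep (chi S) (S : Set Pt) := by
  intro ω ω' h
  unfold chi
  exact Finset.prod_congr rfl fun v hv => by rw [h v (Finset.mem_coe.2 hv)]

private theorem lk_lf_chi (S : Finset Pt) : Lf (chi S) := ⟨S, lk_dep_chi S⟩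

private theorem lk_lf_lin (a : Finset Pt → ℝ) (P : Finset (Finset Pt)) :
    Lf (fun ω => ∑ S ∈ P, a S * chi S ω) := Lf.sum fun S _ => (lk_lf_chi S).smul (a S)

private theorem lk_lin {m : Cfg → ℝ} (hm : Lf m) (a : Finset Pt → ℝ) (P : Finset (Finset Pt)) :
    ex (fun ω => m ω * ∑ S ∈ P, a S * chi S ω) = ∑ S ∈ P, a S * fc m S := by
  have e : (fun ω => m ω * ∑ S ∈ P, a S * chi S ω) = fun ω => ∑ S ∈ P, a S * (m ω * chi S ω) := by
    funext ω
    rw [Finset.mul_sum]
    exact Finset.sum_congr rfl fun S _ => by ring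
  rw [e, ex_sum (fun S _ => (hm.mul (lk_lf_chi S)).smul (a S))]
  exact Finset.sum_congr rfl fun S _ => by rw [ex_smul (hm.mul (lk_lf_chi S))]; rfl

private theorem lk_bil {m : Cfg → ℝ} (hm : Lf m) (a : Finset Pt → ℝ) (P Q : Finset (Finset Pt)) :
    ex (fun ω => m ω * ((∑ S ∈ P, a S * chi S ω) * (∑ T ∈ Q, a T * chi T ω))) =
      ∑ S ∈ P, ∑ T ∈ Q, a S * a T * fc m (symmDiff S T) := by
  have e : (fun ω => m ω * ((∑ S ∈ P, a S * chi S ω) * (∑ T ∈ Q, a T * chi T ω))) =
      fun ω => ∑ S ∈ P, ∑ T ∈ Q, (a S * a T) * (m ω * chi (symmDiff S T) ω) := by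
    funext ω
    rw [Finset.sum_mul_sum, Finset.mul_sum]
    refine Finset.sum_congr rfl fun S _ => ?_
    rw [Finset.mul_sum]
    refine Finset.sum_congr rfl fun T _ => ?_
    rw [← chi_mul]
    ring
  rw [e, ex_sum (fun S _ => Lf.sum fun T _ => (hm.mul (lk_lf_chi _)).smul _)]
  refine Finset.sum_congr rfl fun S _ => ?_
  rw [ex_sum (fun T _ => (hm.mul (lk_lf_chi _)).smul _)]
  exact Finset.sum_congr rfl fun T _ => by rw [ex_smul (hm.mul (lk_lf_chi _))]; rfl

private theorem lk_depR {𝓑 : Finset (Finset Pt)} {R : Cfg → Finset (Finset Pt)}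
    (hR : BStop 𝓑 R) {ω ω' : Cfg} (h : ∀ v ∈ 𝓑.biUnion id, ω v = ω' v) : R ω' = R ω :=
  hR.stop ω ω' fun B hB v hv =>
    h v (Finset.mem_biUnion.2 ⟨B, hR.sub ω hB, hv⟩)

private theorem lk_stopA {𝓑 : Finset (Finset Pt)} {R : Cfg → Finset (Finset Pt)}
    (hR : BStop 𝓑 R) {A : Finset (Finset Pt)} {ω ω' : Cfg}
    (h : ∀ v ∈ A.biUnion id, ω v = ω' v) (hA : R ω = A) : R ω' = A := by
  rw [hR.stop ω ω' ?_, hA]
  intro B hB v hv
  rw [hA] at hB
  exact h v (Finset.mem_biUnion.2 ⟨B, hB, hv⟩)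

private theorem lk_depA {𝓑 : Finset (Finset Pt)} {R : Cfg → Finset (Finset Pt)}
    (hR : BStop 𝓑 R) (A : Finset (Finset Pt)) :
    Dep (fun ω => R ω = A) ((A.biUnion id : Finset Pt) : Set Pt) := by
  intro ω ω' h
  apply propext
  exact ⟨lk_stopA hR fun v hv => h v (Finset.mem_coe.2 hv),
    lk_stopA hR fun v hv => (h v (Finset.mem_coe.2 hv)).symm⟩

private theorem lk_depfA {𝓑 : Finset (Finset Pt)} {R : Cfg → Finset (Finset Pt)}
    (hR : BStop 𝓑 R) {f : Cfg → ℝ}
    (hf : ∀ ω ω' : Cfg, (∀ B ∈ R ω, ∀ v ∈ B, ω v = ω' v) → f ω' = f ω)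
    (A : Finset (Finset Pt)) :
    Dep (fun ω => f ω * ind (fun ω => R ω = A) ω) ((A.biUnion id : Finset Pt) : Set Pt) := by
  intro ω ω' h
  have h' : ∀ v ∈ A.biUnion id, ω v = ω' v := fun v hv => h v (Finset.mem_coe.2 hv)
  by_cases hA : R ω = A
  · have hA' := lk_stopA hR h' hA
    have hff : f ω' = f ω := hf ω ω' fun B hB v hv => by
      rw [hA] at hB
      exact h' v (Finset.mem_biUnion.2 ⟨B, hB, hv⟩)
    simp only [ind, hA, hA', hff]
  · have hA' : ¬ R ω' = A := fun hc => hA (lk_stopA hR (fun v hv => (h' v hv).symm) hc)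
    simp only [ind, hA, hA', if_false, mul_zero]

/-- blocks: the count increases strictly if a set disjoint from a block is enlarged in it -/
private theorem lk_cnt {𝓑 : Finset (Finset Pt)} {A : Finset (Finset Pt)} (hA : A ⊆ 𝓑)
    {S T : Finset Pt} (hST : cnt 𝓑 S = cnt 𝓑 T) (hS : Disjoint S (A.biUnion id))
    (h : symmDiff S T ⊆ A.biUnion id) : S = T := by
  have h1 : S ⊆ T := by
    intro v hv
    by_contra hvT
    have : v ∈ symmDiff S T := Finset.mem_symmDiff.2 (Or.inl ⟨hv, hvT⟩)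
    exact (Finset.disjoint_left.1 hS hv) (h this)
  by_contra hne
  obtain ⟨v, hvT, hvS⟩ : ∃ v ∈ T, v ∉ S := by
    by_contra hc
    push Not at hc
    exact hne (Finset.Subset.antisymm h1 hc)
  have hv : v ∈ A.biUnion id := h (Finset.mem_symmDiff.2 (Or.inr ⟨hvT, hvS⟩))
  obtain ⟨B, hB, hvB⟩ := Finset.mem_biUnion.1 hv
  have hlt : cnt 𝓑 S < cnt 𝓑 T := by
    unfold cnt
    apply Finset.card_lt_card
    rw [Finset.ssubset_iff_of_subset]
    · refine ⟨B, Finset.mem_filter.2 ⟨hA hB, ?_⟩, ?_⟩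
      · intro hd
        exact Finset.disjoint_left.1 hd hvT hvB
      · intro hm
        apply (Finset.mem_filter.1 hm).2
        rw [Finset.disjoint_left]
        intro w hwS hwB
        exact Finset.disjoint_left.1 hS hwS (Finset.mem_biUnion.2 ⟨B, hB, hwB⟩)
    · intro C hC
      rw [Finset.mem_filter] at hC ⊢
      exact ⟨hC.1, fun hd => hC.2 (Finset.disjoint_of_subset_left h1 hd)⟩
  omega

/-- conditional Parseval inequality, integrated over the event `R ω = A` -/
private theorem lk_key {𝓑 : Finset (Finset Pt)} {R : Cfg → Finset (Finset Pt)}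
    (hR : BStop 𝓑 R) {A : Finset (Finset Pt)} (hA : A ⊆ 𝓑) (a : Finset Pt → ℝ)
    {L : Finset (Finset Pt)} {k : ℕ} (hk : 1 ≤ k) (hL : ∀ S ∈ L, cnt 𝓑 S = k) :
    ex (fun ω => ind (fun ω => R ω = A) ω *
        ((∑ S ∈ L.filter (fun S => S ⊆ A.biUnion id), a S * chi S ω) *
          (∑ S ∈ L.filter (fun S => S ⊆ A.biUnion id), a S * chi S ω))) +
      pr (fun ω => R ω = A) * ∑ T ∈ L.filter (fun T => Disjoint T (A.biUnion id)), a T ^ 2 ≤
    ex (fun ω => ind (fun ω => R ω = A) ω *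
        ((∑ S ∈ L, a S * chi S ω) * (∑ S ∈ L, a S * chi S ω))) := by
  set X := A.biUnion id with hX
  set m : Cfg → ℝ := ind (fun ω => R ω = A) with hm
  have dm : Dep m (X : Set Pt) := (lk_depA hR A).ind
  have lm : Lf m := ⟨X, dm⟩
  set P1 := L.filter (fun S => S ⊆ X) with hP1
  set P3 := (L.filter (fun S => ¬ S ⊆ X)).filter (fun S => ¬ Disjoint S X) with hP3
  have hempty : ∀ S ∈ L, S ≠ ∅ := by
    intro S hS he
    have := hL S hS
    rw [he] at this
    unfold cnt at this
    rw [Finset.filter_false_of_mem (fun B _ => by simp)] at this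
    simp at this
    omega
  have hP2 : (L.filter (fun S => ¬ S ⊆ X)).filter (fun S => Disjoint S X) =
      L.filter (fun T => Disjoint T X) := by
    ext S
    simp only [Finset.mem_filter]
    constructor
    · rintro ⟨⟨h1, -⟩, h3⟩
      exact ⟨h1, h3⟩
    · rintro ⟨h1, h3⟩
      refine ⟨⟨h1, fun h2 => ?_⟩, h3⟩
      apply hempty S h1
      rw [← Finset.disjoint_self_iff_empty]
      exact Finset.disjoint_of_subset_right h2 h3
  rw [lk_bil lm, lk_bil lm]
  -- vanishing
  have z1 : ∀ S T : Finset Pt, S ⊆ X → ¬ T ⊆ X → fc m (symmDiff S T) = 0 := by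
    intro S T hS hT
    apply fc_eq_zero dm
    intro h
    apply hT
    intro v hv
    by_cases hvS : v ∈ S
    · exact hS hvS
    · exact h (Finset.mem_symmDiff.2 (Or.inr ⟨hv, hvS⟩))
  have z2 : ∀ S ∈ L, ∀ T ∈ L, Disjoint S X → S ≠ T → fc m (symmDiff S T) = 0 := by
    intro S hS T hT hd hne
    apply fc_eq_zero dm
    intro h
    exact hne (lk_cnt hA ((hL S hS).trans (hL T hT).symm) hd h)
  have hpos : 0 ≤ ∑ S ∈ P3, ∑ T ∈ P3, a S * a T * fc m (symmDiff S T) := by
    rw [← lk_bil lm]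
    apply ex_nonneg
    intro ω
    apply mul_nonneg
    · simp only [hm, ind]
      split_ifs <;> norm_num
    · exact mul_self_nonneg _
  have e1 : ∑ S ∈ P1, ∑ T ∈ L, a S * a T * fc m (symmDiff S T) =
      ∑ S ∈ P1, ∑ T ∈ P1, a S * a T * fc m (symmDiff S T) := by
    refine Finset.sum_congr rfl fun S hS => ?_
    symm
    apply Finset.sum_subset (Finset.filter_subset _ _)
    intro T hT hT1
    rw [z1 S T (Finset.mem_filter.1 hS).2 (fun h => hT1 (Finset.mem_filter.2 ⟨hT, h⟩)), mul_zero]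
  have e2 : ∑ S ∈ L.filter (fun T => Disjoint T X), ∑ T ∈ L, a S * a T * fc m (symmDiff S T) =
      pr (fun ω => R ω = A) * ∑ T ∈ L.filter (fun T => Disjoint T X), a T ^ 2 := by
    rw [Finset.mul_sum]
    refine Finset.sum_congr rfl fun S hS => ?_
    obtain ⟨hSL, hSX⟩ := Finset.mem_filter.1 hS
    rw [Finset.sum_eq_single S]
    · have : fc m (symmDiff S S) = pr (fun ω => R ω = A) := by
        rw [symmDiff_self]
        unfold fc pr
        congr 1
        funext ω
        simp [chi, hm]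
      rw [this]
      ring
    · intro T hT hne
      rw [z2 S hSL T hT hSX (Ne.symm hne), mul_zero]
    · intro h
      exact absurd hSL h
  have e3 : ∑ S ∈ P3, ∑ T ∈ L, a S * a T * fc m (symmDiff S T) =
      ∑ S ∈ P3, ∑ T ∈ P3, a S * a T * fc m (symmDiff S T) := by
    refine Finset.sum_congr rfl fun S hS => ?_
    symm
    apply Finset.sum_subset ((Finset.filter_subset _ _).trans (Finset.filter_subset _ _))
    intro T hT hT3
    obtain ⟨hS1, hS2⟩ := Finset.mem_filter.1 hS
    obtain ⟨hSL, hSX⟩ := Finset.mem_filter.1 hS1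
    by_cases hTX : T ⊆ X
    · rw [symmDiff_comm, z1 T S hTX hSX, mul_zero]
    · by_cases hTd : Disjoint T X
      · rw [symmDiff_comm, z2 T hT S hSL hTd (fun he => hS2 (he ▸ hTd)), mul_zero]
      · exact absurd (Finset.mem_filter.2 ⟨Finset.mem_filter.2 ⟨hT, hTX⟩, hTd⟩) hT3
  have hsplit : ∑ S ∈ L, ∑ T ∈ L, a S * a T * fc m (symmDiff S T) =
      ∑ S ∈ P1, ∑ T ∈ L, a S * a T * fc m (symmDiff S T) +
      (∑ S ∈ L.filter (fun T => Disjoint T X), ∑ T ∈ L, a S * a T * fc m (symmDiff S T) +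
      ∑ S ∈ P3, ∑ T ∈ L, a S * a T * fc m (symmDiff S T)) := by
    rw [← hP2, hP3, Finset.sum_filter_add_sum_filter_not, hP1, Finset.sum_filter_add_sum_filter_not]
  rw [hsplit, e1, e2, e3]
  linarith

/-- LEVEL `k` (Schramm - Steif).  All sites of `f` are in the blocks.  Then
`∑_{cnt S = k} fc f S ^ 2 ≤ k * max P(B ∈ R)` in the following averaged form: for a finite family
`R u`, `u ∈ U`, of such stopping sets, with `∑_{u ∈ U} P(B ∈ R u) ≤ δ |U|` for every block.
Proof: `g = ∑_{cnt S = k} fc f S χ_S`.  `‖g‖² = E[f g] = E[f E(g | R_u)] ≤ ‖E(g | R_u)‖`.  For a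
subset `T` of the unexplored region with `cnt T = k` the coefficient of `χ_T` in `g` (the explored
sites being fixed) is `fc g T`, because `S \ explored = T`, `cnt S = k` force `S = T`.  So
`‖E(g | R_u)‖² ≤ ‖g‖² - ∑_T fc g T ^ 2 P(no block of T in R_u) ≤ ∑_T fc g T ^ 2 ∑_{B meets T}
P(B ∈ R_u)`; average over `u` and use `(average of ‖·‖)² ≤ average of ‖·‖²`:
`‖g‖⁴ ≤ k δ ‖g‖²`. -/
theorem level_k {𝓑 : Finset (Finset Pt)} (hd : ∀ B ∈ 𝓑, ∀ B' ∈ 𝓑, B ≠ B' → Disjoint B B')
    {ι : Type} {U : Finset ι} (hU : U.Nonempty) {R : ι → Cfg → Finset (Finset Pt)}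
    (hR : ∀ u ∈ U, BStop 𝓑 (R u)) {f : Cfg → ℝ} (f0 : ∀ ω, 0 ≤ f ω) (f1 : ∀ ω, f ω ≤ 1)
    (dF : Dep f ((𝓑.biUnion id : Finset Pt) : Set Pt))
    (hf : ∀ u ∈ U, ∀ ω ω' : Cfg, (∀ B ∈ R u ω, ∀ v ∈ B, ω v = ω' v) → f ω' = f ω)
    {δ : ℝ} (h0 : 0 ≤ δ) (hδ : ∀ B ∈ 𝓑, ∑ u ∈ U, pr (fun ω => B ∈ R u ω) ≤ δ * U.card) {k : ℕ}
    (hk : 1 ≤ k) :
    ∑ S ∈ (𝓑.biUnion id).powerset.filter (fun S => cnt 𝓑 S = k), fc f S ^ 2 ≤ k * δ := by
  set W := 𝓑.biUnion id with hW
  set L := W.powerset.filter (fun S => cnt 𝓑 S = k) with hL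
  set a : Finset Pt → ℝ := fc f with ha
  set Sg := ∑ S ∈ L, a S ^ 2 with hSg
  have hLk : ∀ S ∈ L, cnt 𝓑 S = k := fun S hS => (Finset.mem_filter.1 hS).2
  have lf : Lf f := ⟨W, dF⟩
  have hSg0 : 0 ≤ Sg := Finset.sum_nonneg fun S _ => sq_nonneg _
  -- the estimate for one stopping set
  have main : ∀ u ∈ U, Sg ^ 2 ≤ ∑ T ∈ L, a T ^ 2 *
      ∑ B ∈ 𝓑.filter (fun B => ¬ Disjoint T B), pr (fun ω => B ∈ R u ω) := by
    intro u hu
    have hRu := hR u hu
    have lA : ∀ A : Finset (Finset Pt), Lf (ind (fun ω => R u ω = A)) :=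
      fun A => ⟨_, (lk_depA hRu A).ind⟩
    -- sum of the indicators
    have hone : ∀ ω, ∑ A ∈ 𝓑.powerset, ind (fun ω => R u ω = A) ω = 1 := by
      intro ω
      rw [Finset.sum_eq_single (R u ω)]
      · simp [ind]
      · intro A _ hne
        simp only [ind]
        rw [if_neg (Ne.symm hne)]
      · intro h
        exact absurd (Finset.mem_powerset.2 (hRu.sub ω)) h
    -- Σ = ∑_A E[f 1_A g_A]
    have hS1 : Sg = ∑ A ∈ 𝓑.powerset, ex (fun ω => (f ω * ind (fun ω => R u ω = A) ω) *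
        ∑ S ∈ L.filter (fun S => S ⊆ A.biUnion id), a S * chi S ω) := by
      have e1 : Sg = ex (fun ω => f ω * ∑ S ∈ L, a S * chi S ω) := by
        rw [lk_lin lf, hSg]
        exact Finset.sum_congr rfl fun S _ => by rw [ha]; ring
      have e2 : (fun ω => f ω * ∑ S ∈ L, a S * chi S ω) = fun ω => ∑ A ∈ 𝓑.powerset,
          (f ω * ind (fun ω => R u ω = A) ω) * ∑ S ∈ L, a S * chi S ω := by
        funext ω
        rw [← Finset.sum_mul, ← Finset.mul_sum, hone ω, mul_one]
      rw [e1, e2, ex_sum (fun A _ => (lf.mul (lA A)).mul (lk_lf_lin a L))]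
      refine Finset.sum_congr rfl fun A _ => ?_
      rw [lk_lin (lf.mul (lA A)), lk_lin (lf.mul (lA A))]
      symm
      apply Finset.sum_subset (Finset.filter_subset _ _)
      intro S hS hS1
      rw [fc_eq_zero (lk_depfA hRu (hf u hu) A)
        (fun h => hS1 (Finset.mem_filter.2 ⟨hS, h⟩)), mul_zero]
    -- 2 Sg² ≤ Sg² + ∑ E[1_A g_A²]
    have hS2 : Sg ^ 2 ≤ ∑ A ∈ 𝓑.powerset, ex (fun ω => ind (fun ω => R u ω = A) ω *
        ((∑ S ∈ L.filter (fun S => S ⊆ A.biUnion id), a S * chi S ω) *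
          (∑ S ∈ L.filter (fun S => S ⊆ A.biUnion id), a S * chi S ω))) := by
      have h1 : ∀ A ∈ 𝓑.powerset, 2 * Sg * ex (fun ω => (f ω * ind (fun ω => R u ω = A) ω) *
            ∑ S ∈ L.filter (fun S => S ⊆ A.biUnion id), a S * chi S ω) ≤
          Sg ^ 2 * ex (ind (fun ω => R u ω = A)) +
          ex (fun ω => ind (fun ω => R u ω = A) ω *
        ((∑ S ∈ L.filter (fun S => S ⊆ A.biUnion id), a S * chi S ω) *
          (∑ S ∈ L.filter (fun S => S ⊆ A.biUnion id), a S * chi S ω))) := by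
        intro A _
        rw [← ex_smul ((lf.mul (lA A)).mul (lk_lf_lin a _)), ← ex_smul (lA A),
          ← ex_add ((lA A).smul _) ((lA A).mul ((lk_lf_lin a _).mul (lk_lf_lin a _)))]
        apply ex_mono (((lf.mul (lA A)).mul (lk_lf_lin a _)).smul _)
          (((lA A).smul _).add ((lA A).mul ((lk_lf_lin a _).mul (lk_lf_lin a _))))
        intro ω
        set x := ∑ S ∈ L.filter (fun S => S ⊆ A.biUnion id), a S * chi S ω with hx
        by_cases hc : R u ω = A
        · simp only [ind, hc, if_true]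
          nlinarith [sq_nonneg (Sg * f ω - x), f0 ω, f1 ω, sq_nonneg Sg,
            mul_nonneg (sq_nonneg Sg) (mul_nonneg (sub_nonneg.2 (f1 ω)) (add_nonneg zero_le_one (f0 ω)))]
        · simp only [ind, hc, if_false]
          simp
      have h2 := Finset.sum_le_sum h1
      rw [← Finset.mul_sum, ← hS1, Finset.sum_add_distrib, ← Finset.mul_sum] at h2
      have h3 : ∑ A ∈ 𝓑.powerset, ex (ind (fun ω => R u ω = A)) = 1 := by
        rw [← ex_sum (fun A _ => lA A)]
        rw [show (fun ω => ∑ A ∈ 𝓑.powerset, ind (fun ω => R u ω = A) ω) = fun _ => (1 : ℝ) from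
          funext hone]
        exact ex_const 1
      rw [h3] at h2
      nlinarith [h2]
    -- E[g²]
    have hS3 : ∑ A ∈ 𝓑.powerset, ex (fun ω => ind (fun ω => R u ω = A) ω *
        ((∑ S ∈ L, a S * chi S ω) * (∑ S ∈ L, a S * chi S ω))) = Sg := by
      rw [← ex_sum (fun A _ => (lA A).mul ((lk_lf_lin a _).mul (lk_lf_lin a _)))]
      have e2 : (fun ω => ∑ A ∈ 𝓑.powerset, ind (fun ω => R u ω = A) ω *
          ((∑ S ∈ L, a S * chi S ω) * (∑ S ∈ L, a S * chi S ω))) = fun ω =>
          (fun _ => (1 : ℝ)) ω * ((∑ S ∈ L, a S * chi S ω) * (∑ S ∈ L, a S * chi S ω)) := by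
        funext ω
        rw [← Finset.sum_mul, hone ω]
      rw [e2, lk_bil (Lf.const 1), hSg]
      refine Finset.sum_congr rfl fun S hS => ?_
      have e3 : ∀ T : Finset Pt, fc (fun _ => (1 : ℝ)) (symmDiff S T) = if S = T then 1 else 0 := by
        intro T
        unfold fc
        rw [show (fun ω => (1 : ℝ) * chi (symmDiff S T) ω) = chi (symmDiff S T) from
          funext fun ω => one_mul _, ex_chi]
        by_cases h : S = T
        · subst h
          simp
        · rw [if_neg h, if_neg (fun h' : symmDiff S T = ∅ => h (symmDiff_eq_bot.1 h'))]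
      rw [Finset.sum_eq_single S]
      · rw [e3, if_pos rfl]
        ring
      · intro T _ hne
        rw [e3, if_neg (Ne.symm hne), mul_zero]
      · intro h
        exact absurd hS h
    -- probability of meeting T
    have hP : ∀ T : Finset Pt, 1 - ∑ A ∈ 𝓑.powerset.filter (fun A => Disjoint T (A.biUnion id)),
        pr (fun ω => R u ω = A) ≤
        ∑ B ∈ 𝓑.filter (fun B => ¬ Disjoint T B), pr (fun ω => B ∈ R u ω) := by
      intro T
      have lB : ∀ B : Finset Pt, Lf (ind (fun ω => B ∈ R u ω)) := by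
        intro B
        refine ⟨W, ?_⟩
        intro ω ω' h
        have hRR := lk_depR hRu (fun v hv => h v (Finset.mem_coe.2 hv))
        by_cases hB : B ∈ R u ω
        · have hB' : B ∈ R u ω' := by rw [hRR]; exact hB
          simp only [ind, hB, hB', if_true]
        · have hB' : ¬ B ∈ R u ω' := by rw [hRR]; exact hB
          simp only [ind, hB, hB', if_false]
      have h1 : ex (fun _ => (1 : ℝ)) ≤ ex (fun ω =>
          ∑ A ∈ 𝓑.powerset.filter (fun A => Disjoint T (A.biUnion id)),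
            ind (fun ω => R u ω = A) ω +
          ∑ B ∈ 𝓑.filter (fun B => ¬ Disjoint T B), ind (fun ω => B ∈ R u ω) ω) := by
        apply ex_mono (Lf.const 1) ((Lf.sum fun A _ => lA A).add (Lf.sum fun B _ => lB B))
        intro ω
        have n1 : 0 ≤ ∑ A ∈ 𝓑.powerset.filter (fun A => Disjoint T (A.biUnion id)),
            ind (fun ω => R u ω = A) ω := Finset.sum_nonneg fun A _ => by
          simp only [ind]; split_ifs <;> norm_num
        have n2 : 0 ≤ ∑ B ∈ 𝓑.filter (fun B => ¬ Disjoint T B), ind (fun ω => B ∈ R u ω) ω :=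
          Finset.sum_nonneg fun A _ => by
            simp only [ind]; split_ifs <;> norm_num
        by_cases hc : Disjoint T ((R u ω).biUnion id)
        · have : (1 : ℝ) ≤ ∑ A ∈ 𝓑.powerset.filter (fun A => Disjoint T (A.biUnion id)),
              ind (fun ω => R u ω = A) ω := by
            have h3 := Finset.single_le_sum (f := fun A => ind (fun ω => R u ω = A) ω)
              (s := 𝓑.powerset.filter (fun A => Disjoint T (A.biUnion id)))
              (fun A _ => by simp only [ind]; split_ifs <;> norm_num)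
              (Finset.mem_filter.2 ⟨Finset.mem_powerset.2 (hRu.sub ω), hc⟩)
            simpa [ind] using h3
          linarith
        · rw [Finset.not_disjoint_iff] at hc
          obtain ⟨v, hvT, hv⟩ := hc
          obtain ⟨B, hB, hvB⟩ := Finset.mem_biUnion.1 hv
          have : (1 : ℝ) ≤ ∑ B ∈ 𝓑.filter (fun B => ¬ Disjoint T B),
              ind (fun ω => B ∈ R u ω) ω := by
            have h3 := Finset.single_le_sum (f := fun B => ind (fun ω => B ∈ R u ω) ω)
              (s := 𝓑.filter (fun B => ¬ Disjoint T B))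
              (fun A _ => by simp only [ind]; split_ifs <;> norm_num)
              (Finset.mem_filter.2 ⟨hRu.sub ω hB, fun hd' => Finset.disjoint_left.1 hd' hvT hvB⟩)
            simpa [ind, hB] using h3
          linarith
      rw [ex_const, ex_add (Lf.sum fun A _ => lA A) (Lf.sum fun B _ => lB B),
        ex_sum (fun A _ => lA A), ex_sum (fun B _ => lB B)] at h1
      unfold pr
      linarith
    -- summation of the key inequality
    have hS4 : ∑ A ∈ 𝓑.powerset, ex (fun ω => ind (fun ω => R u ω = A) ω *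
        ((∑ S ∈ L.filter (fun S => S ⊆ A.biUnion id), a S * chi S ω) *
          (∑ S ∈ L.filter (fun S => S ⊆ A.biUnion id), a S * chi S ω))) +
        ∑ A ∈ 𝓑.powerset, pr (fun ω => R u ω = A) *
          ∑ T ∈ L.filter (fun T => Disjoint T (A.biUnion id)), a T ^ 2 ≤ Sg := by
      rw [← Finset.sum_add_distrib, ← hS3]
      exact Finset.sum_le_sum fun A hA =>
        lk_key hRu (Finset.mem_powerset.1 hA) a hk hLk
    have hS5 : ∑ A ∈ 𝓑.powerset, pr (fun ω => R u ω = A) *
          ∑ T ∈ L.filter (fun T => Disjoint T (A.biUnion id)), a T ^ 2 =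
        ∑ T ∈ L, a T ^ 2 * ∑ A ∈ 𝓑.powerset.filter (fun A => Disjoint T (A.biUnion id)),
          pr (fun ω => R u ω = A) := by
      simp_rw [Finset.sum_filter, Finset.mul_sum]
      rw [Finset.sum_comm]
      refine Finset.sum_congr rfl fun T _ => Finset.sum_congr rfl fun A _ => ?_
      split_ifs
      · ring
      · ring
    rw [hS5] at hS4
    calc Sg ^ 2 ≤ Sg - ∑ T ∈ L, a T ^ 2 *
          ∑ A ∈ 𝓑.powerset.filter (fun A => Disjoint T (A.biUnion id)),
            pr (fun ω => R u ω = A) := by linarith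
      _ = ∑ T ∈ L, a T ^ 2 * (1 -
          ∑ A ∈ 𝓑.powerset.filter (fun A => Disjoint T (A.biUnion id)),
            pr (fun ω => R u ω = A)) := by
          rw [hSg, ← Finset.sum_sub_distrib]
          exact Finset.sum_congr rfl fun T _ => by ring
      _ ≤ _ := Finset.sum_le_sum fun T _ => mul_le_mul_of_nonneg_left (hP T) (sq_nonneg _)
  -- average over u
  have hsum : (U.card : ℝ) * Sg ^ 2 ≤ U.card * (k * δ * Sg) := by
    calc (U.card : ℝ) * Sg ^ 2 = ∑ u ∈ U, Sg ^ 2 := by rw [Finset.sum_const, nsmul_eq_mul]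
      _ ≤ ∑ u ∈ U, ∑ T ∈ L, a T ^ 2 *
          ∑ B ∈ 𝓑.filter (fun B => ¬ Disjoint T B), pr (fun ω => B ∈ R u ω) :=
          Finset.sum_le_sum main
      _ = ∑ T ∈ L, a T ^ 2 *
          ∑ B ∈ 𝓑.filter (fun B => ¬ Disjoint T B), ∑ u ∈ U, pr (fun ω => B ∈ R u ω) := by
          rw [Finset.sum_comm]
          refine Finset.sum_congr rfl fun T _ => ?_
          rw [← Finset.mul_sum, Finset.sum_comm]
      _ ≤ ∑ T ∈ L, a T ^ 2 * ∑ B ∈ 𝓑.filter (fun B => ¬ Disjoint T B), δ * U.card :=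
          Finset.sum_le_sum fun T _ => mul_le_mul_of_nonneg_left
            (Finset.sum_le_sum fun B hB => hδ B (Finset.mem_filter.1 hB).1) (sq_nonneg _)
      _ = U.card * (k * δ * Sg) := by
          rw [hSg, Finset.mul_sum, Finset.mul_sum]
          refine Finset.sum_congr rfl fun T hT => ?_
          rw [Finset.sum_const, nsmul_eq_mul]
          have : ((𝓑.filter (fun B => ¬ Disjoint T B)).card : ℝ) = k := by
            have := hLk T hT
            unfold cnt at this
            exact_mod_cast this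
          rw [this]
          ring
  have hUc : (0 : ℝ) < U.card := by exact_mod_cast hU.card_pos
  have h4 : Sg ^ 2 ≤ k * δ * Sg := le_of_mul_le_mul_left hsum hUc
  rcases hSg0.eq_or_lt with h | h
  · rw [← h]
    positivity
  · nlinarith [h4]

end SC
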