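import Pool.Agent.Lib_MP_e0a489.PG3

/-!
# MP_e0a489, probability toolkit 8d: many pivotal blocks
-/

set_option autoImplicit false

namespace SC

open Classical

/-- Consequence: `∑_B influence(B) ≥ K (Var f - K² δ)`. -/
theorem many_pivotal {𝓑 : Finset (Finset Pt)}
    (hd : ∀ B ∈ 𝓑, ∀ B' ∈ 𝓑, B ≠ B' → Disjoint B B')
    {ι : Type} {U : Finset ι} (hU : U.Nonempty) {R : ι → Cfg → Finset (Finset Pt)}
    (hR : ∀ u ∈ U, BStop 𝓑 (R u)) {f : Cfg → ℝ} (f0 : ∀ ω, 0 ≤ f ω) (f1 : ∀ ω, f ω ≤ 1)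
    (dF : Dep f ((𝓑.biUnion id : Finset Pt) : Set Pt))
    (hf : ∀ u ∈ U, ∀ ω ω' : Cfg, (∀ B ∈ R u ω, ∀ v ∈ B, ω v = ω' v) → f ω' = f ω)
    {δ : ℝ} (h0 : 0 ≤ δ) (hδ : ∀ B ∈ 𝓑, ∑ u ∈ U, pr (fun ω => B ∈ R u ω) ≤ δ * U.card) (K : ℕ) :
    K * (ex (fun ω => f ω ^ 2) - ex f ^ 2 - K ^ 2 * δ) ≤
      ∑ B ∈ 𝓑, ∑ S ∈ (𝓑.biUnion id).powerset.filter (fun S => ¬ Disjoint S B), fc f S ^ 2 := by
  set W := 𝓑.biUnion id with hW
  have lf : Lf f := ⟨W, dF⟩
  -- the right side is the sum of `cnt S * fc f S ^ 2`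
  have e1 : ∑ B ∈ 𝓑, ∑ S ∈ W.powerset.filter (fun S => ¬ Disjoint S B), fc f S ^ 2 =
      ∑ S ∈ W.powerset, (cnt 𝓑 S : ℝ) * fc f S ^ 2 := by
    have h1 : ∀ B ∈ 𝓑, ∑ S ∈ W.powerset.filter (fun S => ¬ Disjoint S B), fc f S ^ 2 =
        ∑ S ∈ W.powerset, if ¬ Disjoint S B then fc f S ^ 2 else 0 := fun B _ =>
      Finset.sum_filter _ _
    rw [Finset.sum_congr rfl h1, Finset.sum_comm]
    refine Finset.sum_congr rfl fun S _ => ?_
    rw [← Finset.sum_filter, Finset.sum_const, nsmul_eq_mul]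
    rfl
  -- Parseval
  have e2 : ∑ S ∈ W.powerset, fc f S ^ 2 = ex (fun ω => f ω ^ 2) := by
    have h := parseval dF dF
    have h2 : (fun ω => f ω ^ 2) = fun ω => f ω * f ω := by
      funext ω
      ring
    rw [h2, h]
    exact Finset.sum_congr rfl fun S _ => by ring
  have e3 : fc f ∅ = ex f := by
    unfold fc
    congr 1
    funext ω
    simp [chi]
  -- split by the value of cnt
  have hcnt0 : ∀ S ∈ W.powerset, cnt 𝓑 S = 0 → S = ∅ := by
    intro S hS h0
    rw [Finset.eq_empty_iff_forall_notMem]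
    intro v hv
    have hvW := (Finset.mem_powerset.1 hS) hv
    rw [hW] at hvW
    obtain ⟨B, hB, hvB⟩ := Finset.mem_biUnion.1 hvW
    have hne : B ∈ 𝓑.filter fun B => ¬ Disjoint S B :=
      Finset.mem_filter.2 ⟨hB, fun hd => Finset.disjoint_left.1 hd hv hvB⟩
    have : 0 < cnt 𝓑 S := Finset.card_pos.2 ⟨B, hne⟩
    omega
  have hlow : ∑ S ∈ W.powerset.filter (fun S => cnt 𝓑 S < K), fc f S ^ 2 ≤
      ex f ^ 2 + K ^ 2 * δ := by
    have h1 : ∑ S ∈ W.powerset.filter (fun S => cnt 𝓑 S < K), fc f S ^ 2 =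
        ∑ k ∈ Finset.range K, ∑ S ∈ (W.powerset.filter (fun S => cnt 𝓑 S < K)).filter
          (fun S => cnt 𝓑 S = k), fc f S ^ 2 := by
      symm
      apply Finset.sum_fiberwise_of_maps_to
      intro S hS
      exact Finset.mem_range.2 (Finset.mem_filter.1 hS).2
    rw [h1]
    have h2 : ∀ k ∈ Finset.range K, ∑ S ∈ (W.powerset.filter (fun S => cnt 𝓑 S < K)).filter
          (fun S => cnt 𝓑 S = k), fc f S ^ 2 ≤ (if k = 0 then ex f ^ 2 else 0) + K * δ := by
      intro k hk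
      have hk' := Finset.mem_range.1 hk
      have e : (W.powerset.filter (fun S => cnt 𝓑 S < K)).filter (fun S => cnt 𝓑 S = k) =
          W.powerset.filter (fun S => cnt 𝓑 S = k) := by
        rw [Finset.filter_filter]
        apply Finset.filter_congr
        intro S _
        constructor
        · rintro ⟨_, h⟩
          exact h
        · intro h
          exact ⟨h ▸ hk', h⟩
      rw [e]
      by_cases k0 : k = 0
      · rw [if_pos k0]
        have h3 : ∑ S ∈ W.powerset.filter (fun S => cnt 𝓑 S = k), fc f S ^ 2 ≤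
            ∑ S ∈ ({∅} : Finset (Finset Pt)), fc f S ^ 2 := by
          apply Finset.sum_le_sum_of_subset_of_nonneg
          · intro S hS
            obtain ⟨h4, h5⟩ := Finset.mem_filter.1 hS
            rw [Finset.mem_singleton]
            exact hcnt0 S h4 (h5.trans k0)
          · intro S _ _
            exact sq_nonneg _
        rw [Finset.sum_singleton, e3] at h3
        have h6 : 0 ≤ (K : ℝ) * δ := mul_nonneg (Nat.cast_nonneg _) h0
        linarith
      · rw [if_neg k0, zero_add]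
        have h3 := level_k hd hU hR f0 f1 dF hf h0 hδ (Nat.one_le_iff_ne_zero.2 k0)
        refine le_trans h3 ?_
        have h7 : (k : ℝ) ≤ K := by exact_mod_cast hk'.le
        exact mul_le_mul_of_nonneg_right h7 h0
    refine le_trans (Finset.sum_le_sum h2) ?_
    rw [Finset.sum_add_distrib, Finset.sum_const, Finset.card_range, nsmul_eq_mul]
    have h8 : ∑ k ∈ Finset.range K, (if k = 0 then ex f ^ 2 else 0) ≤ ex f ^ 2 := by
      rw [Finset.sum_ite_eq']
      split_ifs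
      · exact le_rfl
      · exact sq_nonneg _
    have h9 : (K : ℝ) * (K * δ) = K ^ 2 * δ := by ring
    linarith
  have hsplit : ∑ S ∈ W.powerset, fc f S ^ 2 =
      ∑ S ∈ W.powerset.filter (fun S => cnt 𝓑 S < K), fc f S ^ 2 +
      ∑ S ∈ W.powerset.filter (fun S => ¬ cnt 𝓑 S < K), fc f S ^ 2 :=
    (Finset.sum_filter_add_sum_filter_not _ _ _).symm
  have hhigh : (K : ℝ) * ∑ S ∈ W.powerset.filter (fun S => ¬ cnt 𝓑 S < K), fc f S ^ 2 ≤
      ∑ S ∈ W.powerset, (cnt 𝓑 S : ℝ) * fc f S ^ 2 := by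
    rw [Finset.mul_sum]
    refine le_trans ?_ (Finset.sum_le_sum_of_subset_of_nonneg (Finset.filter_subset
      (fun S => ¬ cnt 𝓑 S < K) _) (fun S _ _ => mul_nonneg (Nat.cast_nonneg _) (sq_nonneg _)))
    refine Finset.sum_le_sum fun S hS => ?_
    have h1 : K ≤ cnt 𝓑 S := not_lt.1 (Finset.mem_filter.1 hS).2
    have h2 : (K : ℝ) ≤ cnt 𝓑 S := by exact_mod_cast h1
    exact mul_le_mul_of_nonneg_right h2 (sq_nonneg _)
  rw [e1]
  refine le_trans ?_ hhigh
  apply mul_le_mul_of_nonneg_left _ (Nat.cast_nonneg _)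
  rw [e2] at hsplit
  linarith

end SC
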