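import Pool.Agent.Lib_MP_e0a489.TC1

/-!
# MP_e0a489, topology 3b: gluing
-/

set_option autoImplicit false

namespace SC

open Classical

namespace Lat

variable {L : Lat}

private theorem TC2_const {A : Set Pt} {f : Pt → ZMod 2}
    (hf : ∀ u ∈ A, ∀ v ∈ A, L.Adj u v → f u = f v) {u v : Pt} (h : L.Cn A u v) : f u = f v := by
  obtain ⟨hu, h⟩ := h
  have key : v ∈ A ∧ f u = f v := by
    induction h with
    | refl => exact ⟨hu, rfl⟩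
    | tail _ h2 ih => exact ⟨h2.2, ih.2.trans (hf _ ih.1 _ h2.2 h2.1)⟩
  exact key.2

private theorem TC2_z1 : ∀ a b : ZMod 2, a + b = 0 → a = b := by decide

private theorem TC2_z2 : ∀ a b c d : ZMod 2, a + b = c + d → a + c = b + d := by decide

private theorem TC2_z3 : ∀ a b k : ZMod 2, a + b = k → a = b + k := by decide

private theorem TC2_z4 : ∀ a b k : ZMod 2, a + b = (a + k) + (b + k) := by decide

private theorem TC2_z5 : ∀ a b c : ZMod 2, (a + b) + (b + c) = a + c := by decide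

private theorem TC2_core {M₁ M₂ C : Set Pt} (h₁ : L.Exact M₁ C) (h₂ : L.Exact M₂ C)
    (hk : ∀ f g : Pt → ZMod 2,
      (∀ u ∈ M₁, ∀ v ∈ M₁, u ∈ C → v ∈ C → L.Adj u v → f u = f v) →
      (∀ u ∈ M₂, ∀ v ∈ M₂, u ∈ C → v ∈ C → L.Adj u v → g u = g v) →
      (∀ u ∈ M₁ ∩ M₂, ∀ v ∈ M₁ ∩ M₂, L.Adj u v → f u + g u = f v + g v) →
      ∃ k, ∀ v ∈ M₁ ∩ M₂, f v + g v = k)
    (he : ∀ u ∈ M₁ ∪ M₂, ∀ v ∈ M₁ ∪ M₂, L.Adj u v → (u ∈ M₁ ∧ v ∈ M₁) ∨ (u ∈ M₂ ∧ v ∈ M₂) ∨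
      ∃ w ∈ M₁ ∩ M₂, L.Adj u w ∧ L.Adj w v) : L.Exact (M₁ ∪ M₂) C := by
  intro φ hs ht hC
  obtain ⟨f, hf⟩ := h₁ φ hs
    (fun u hu v hv w hw => ht u (Or.inl hu) v (Or.inl hv) w (Or.inl hw))
    (fun u hu v hv => hC u (Or.inl hu) v (Or.inl hv))
  obtain ⟨g, hg⟩ := h₂ φ hs
    (fun u hu v hv w hw => ht u (Or.inr hu) v (Or.inr hv) w (Or.inr hw))
    (fun u hu v hv => hC u (Or.inr hu) v (Or.inr hv))
  obtain ⟨k, hk'⟩ := hk f g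
    (fun u hu v hv huC hvC huv => TC2_z1 _ _ (by
      rw [← hf u hu v hv huv]
      exact hC u (Or.inl hu) v (Or.inl hv) huC hvC huv))
    (fun u hu v hv huC hvC huv => TC2_z1 _ _ (by
      rw [← hg u hu v hv huv]
      exact hC u (Or.inr hu) v (Or.inr hv) huC hvC huv))
    (fun u hu v hv huv => TC2_z2 _ _ _ _ (by
      rw [← hf u hu.1 v hv.1 huv, ← hg u hu.2 v hv.2 huv]))
  let ψ : Pt → ZMod 2 := fun u => if u ∈ M₁ then f u else g u + k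
  have h1 : ∀ u ∈ M₁, ψ u = f u := fun u hu => if_pos hu
  have h2 : ∀ u ∈ M₂, ψ u = g u + k := by
    intro u hu
    by_cases h : u ∈ M₁
    · rw [h1 u h]
      exact TC2_z3 _ _ _ (hk' u ⟨h, hu⟩)
    · exact if_neg h
  have e1 : ∀ u ∈ M₁, ∀ v ∈ M₁, L.Adj u v → φ u v = ψ u + ψ v := by
    intro u hu v hv huv
    rw [h1 u hu, h1 v hv]
    exact hf u hu v hv huv
  have e2 : ∀ u ∈ M₂, ∀ v ∈ M₂, L.Adj u v → φ u v = ψ u + ψ v := by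
    intro u hu v hv huv
    rw [h2 u hu, h2 v hv, ← TC2_z4]
    exact hg u hu v hv huv
  have e3 : ∀ u ∈ M₁ ∪ M₂, ∀ w ∈ M₁ ∩ M₂, L.Adj u w → φ u w = ψ u + ψ w := by
    rintro u (hu | hu) w hw huw
    · exact e1 u hu w hw.1 huw
    · exact e2 u hu w hw.2 huw
  have e4 : ∀ v ∈ M₁ ∪ M₂, ∀ w ∈ M₁ ∩ M₂, L.Adj w v → φ w v = ψ w + ψ v := by
    rintro v (hv | hv) w hw hwv
    · exact e1 w hw.1 v hv hwv
    · exact e2 w hw.2 v hv hwv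
  refine ⟨ψ, fun u hu v hv huv => ?_⟩
  rcases he u hu v hv huv with h | h | ⟨w, hw, huw, hwv⟩
  · exact e1 u h.1 v h.2 huv
  · exact e2 u h.1 v h.2 huv
  · rw [← ht u hu w (Or.inl hw.1) v hv huw hwv huv, e3 u hu w hw huw, e4 v hv w hw hwv]
    exact TC2_z5 _ _ _

/-- Gluing along a connected intersection (`ψ₁ + ψ₂` is constant on `M₁ ∩ M₂`). -/
theorem Exact.glue {M₁ M₂ C : Set Pt} (h₁ : L.Exact M₁ C) (h₂ : L.Exact M₂ C)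
    (hc : L.Con (M₁ ∩ M₂))
    (he : ∀ u ∈ M₁ ∪ M₂, ∀ v ∈ M₁ ∪ M₂, L.Adj u v → (u ∈ M₁ ∧ v ∈ M₁) ∨ (u ∈ M₂ ∧ v ∈ M₂) ∨
      ∃ w ∈ M₁ ∩ M₂, L.Adj u w ∧ L.Adj w v) : L.Exact (M₁ ∪ M₂) C := by
  refine TC2_core h₁ h₂ (fun f g _ _ h => ?_) he
  by_cases hne : (M₁ ∩ M₂).Nonempty
  · obtain ⟨u, hu⟩ := hne
    refine ⟨f u + g u, fun v hv => ?_⟩
    exact (TC2_const (f := fun x => f x + g x) h (hc u hu v hv)).symm
  · exact ⟨0, fun v hv => absurd ⟨v, hv⟩ hne⟩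

/-- Relative gluing: `Z ⊆ C`, `Z ∩ M₁` and `Z ∩ M₂` are connected, and every site of `M₁ ∩ M₂` is
joined in `M₁ ∩ M₂` to a site of `Z`.  (`ψ_i` is constant on `Z ∩ M_i`.) -/
theorem Exact.glue_rel {M₁ M₂ C Z : Set Pt} (h₁ : L.Exact M₁ C) (h₂ : L.Exact M₂ C) (hZ : Z ⊆ C)
    (hZ1 : L.Con (Z ∩ M₁)) (hZ2 : L.Con (Z ∩ M₂))
    (hc : ∀ v ∈ M₁ ∩ M₂, ∃ z ∈ Z, L.Cn (M₁ ∩ M₂) v z)
    (he : ∀ u ∈ M₁ ∪ M₂, ∀ v ∈ M₁ ∪ M₂, L.Adj u v → (u ∈ M₁ ∧ v ∈ M₁) ∨ (u ∈ M₂ ∧ v ∈ M₂) ∨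
      ∃ w ∈ M₁ ∩ M₂, L.Adj u w ∧ L.Adj w v) : L.Exact (M₁ ∪ M₂) C := by
  have hmem : ∀ {A : Set Pt} {u v : Pt}, L.Cn A u v → v ∈ A := by
    intro A u v h
    obtain ⟨hu, h⟩ := h
    induction h with
    | refl => exact hu
    | tail _ h2 _ => exact h2.2
  refine TC2_core h₁ h₂ (fun f g hf hg h => ?_) he
  by_cases hne : (M₁ ∩ M₂).Nonempty
  · obtain ⟨u, hu⟩ := hne
    obtain ⟨z, hz, huz⟩ := hc u hu
    have hzM := hmem huz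
    refine ⟨f z + g z, fun v hv => ?_⟩
    obtain ⟨y, hy, hvy⟩ := hc v hv
    have hyM := hmem hvy
    have h1 : f v + g v = f y + g y := TC2_const (f := fun x => f x + g x) h hvy
    have h2 : f y = f z :=
      TC2_const (fun a ha b hb hab => hf a ha.2 b hb.2 (hZ ha.1) (hZ hb.1) hab)
        (hZ1 y ⟨hy, hyM.1⟩ z ⟨hz, hzM.1⟩)
    have h3 : g y = g z :=
      TC2_const (fun a ha b hb hab => hg a ha.2 b hb.2 (hZ ha.1) (hZ hb.1) hab)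
        (hZ2 y ⟨hy, hyM.2⟩ z ⟨hz, hzM.2⟩)
    rw [h1, h2, h3]
  · exact ⟨0, fun v hv => absurd ⟨v, hv⟩ hne⟩

end Lat

end SC
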