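import Pool.Agent.Lib_MP_e0a489.RC1
import Pool.Agent.Lib_MP_e0a489.TC2

/-!
# MP_e0a489, rings 2: blocks next to a ring, cells, exactness of domains with blocks

`w` is odd, `h = w / 2`, `R = M w + h`, so `bx R` is the union of the blocks `blk w z`, `|z| ≤ M`.  The outer block
`ob w M s k` (`|k| ≤ M`) touches the ring `R` in the cell `k` of the side `s`, the inner block
`ib w M s k` (`|k| < M`) is in `bx R` and touches the ring `R + 1` there.  `trip w m s k`: the three cells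
`k-1, k, k+1` of the side `s` of the ring `m` (`m = R` or `m = R + 1`).
-/

set_option autoImplicit false

namespace SC

open Classical

def ob (w M s k : ℤ) : Set Pt := blk w (rt s (M + 1, k))

def ib (w M s k : ℤ) : Set Pt := blk w (rt s (M, k))

def trip (w m s k : ℤ) : Set Pt :=
  arc m (2 * m * s + (k - 1) * w - w / 2) (2 * m * s + (k + 1) * w + w / 2)


/-- the four rotations -/
private theorem RC2_rt4 (s : ℤ) :
    (∀ v, rt s v = v ∧ (rt s).symm v = v) ∨
    (∀ v, rt s v = (-v.2, v.1) ∧ (rt s).symm v = (v.2, -v.1)) ∨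
    (∀ v, rt s v = (-v.1, -v.2) ∧ (rt s).symm v = (-v.1, -v.2)) ∨
    (∀ v, rt s v = (v.2, -v.1) ∧ (rt s).symm v = (-v.2, v.1)) := by
  have h : s % 4 = 0 ∨ s % 4 = 1 ∨ s % 4 = 2 ∨ s % 4 = 3 := by omega
  rcases h with h | h | h | h
  · left
    intro v
    have e : rt s = rt 0 := rt_mod (by omega)
    rw [e]
    refine ⟨rt_zero v, ?_⟩
    rw [Equiv.symm_apply_eq, rt_zero]
  · right; left
    intro v
    have e : rt s = rt 1 := rt_mod (by omega)
    rw [e]
    refine ⟨rt_one v, ?_⟩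
    rw [Equiv.symm_apply_eq, rt_one]
    simp
  · right; right; left
    intro v
    have e : rt s = rt 2 := rt_mod (by omega)
    rw [e]
    refine ⟨rt_two v, ?_⟩
    rw [Equiv.symm_apply_eq, rt_two]
    simp
  · right; right; right
    intro v
    have e : rt s = rt 3 := rt_mod (by omega)
    rw [e]
    refine ⟨rt_three v, ?_⟩
    rw [Equiv.symm_apply_eq, rt_three]
    simp

private theorem RC2_mem (s : ℤ) (A : Set Pt) (v : Pt) : v ∈ rt s '' A ↔ (rt s).symm v ∈ A :=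
  Set.mem_image_equiv

/-- the image of a rectangle is a rectangle -/
private theorem RC2_img (s a b c d : ℤ) : ∃ a' b' c' d', rt s '' rect a b c d = rect a' b' c' d' := by
  rcases RC2_rt4 s with h | h | h | h
  · refine ⟨a, b, c, d, ?_⟩
    ext v
    rw [RC2_mem, (h v).2]
  · refine ⟨-d, -c, a, b, ?_⟩
    ext v
    rw [RC2_mem, (h v).2]
    simp only [rect, Set.mem_setOf_eq]
    omega
  · refine ⟨-b, -a, -d, -c, ?_⟩
    ext v
    rw [RC2_mem, (h v).2]
    simp only [rect, Set.mem_setOf_eq]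
    omega
  · refine ⟨c, d, -b, -a, ?_⟩
    ext v
    rw [RC2_mem, (h v).2]
    simp only [rect, Set.mem_setOf_eq]
    omega

/-- rotations preserve nearness -/
private theorem RC2_near {s : ℤ} {u v : Pt} (h : |(rt s u).1 - (rt s v).1| ≤ 1 ∧
    |(rt s u).2 - (rt s v).2| ≤ 1) : |u.1 - v.1| ≤ 1 ∧ |u.2 - v.2| ≤ 1 := by
  rcases RC2_rt4 s with k | k | k | k
  · rw [(k u).1, (k v).1] at h
    exact h
  all_goals
    rw [(k u).1, (k v).1] at h
    obtain ⟨h1, h2⟩ := h
    rw [abs_le] at h1 h2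
    constructor <;> rw [abs_le] <;> constructor <;> simp only at h1 h2 <;> omega

/-- rotations preserve nearest neighbours -/
private theorem RC2_nn {s : ℤ} {u v : Pt} (h : |u.1 - v.1| + |u.2 - v.2| = 1) :
    |(rt s u).1 - (rt s v).1| + |(rt s u).2 - (rt s v).2| = 1 := by
  rcases RC2_rt4 s with k | k | k | k
  · rw [(k u).1, (k v).1]
    exact h
  · rw [(k u).1, (k v).1]
    simp only
    rw [show -u.2 - -v.2 = -(u.2 - v.2) by ring, abs_neg, add_comm]
    exact h
  · rw [(k u).1, (k v).1]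
    simp only
    rw [show -u.1 - -v.1 = -(u.1 - v.1) by ring, show -u.2 - -v.2 = -(u.2 - v.2) by ring, abs_neg,
      abs_neg]
    exact h
  · rw [(k u).1, (k v).1]
    simp only
    rw [show -u.1 - -v.1 = -(u.1 - v.1) by ring, abs_neg, add_comm]
    exact h

theorem rt_rect_blk {w : ℤ} (hw : w % 2 = 1) (hw0 : 0 < w) (s : ℤ) (z : Pt) :
    rt s '' blk w z = blk w (rt s z) := by
  ext v
  rw [RC2_mem]
  rcases RC2_rt4 s with h | h | h | h
  · rw [(h v).2, (h z).1]
  all_goals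
    rw [(h v).2, (h z).1]
    simp only [blk, rect, Set.mem_setOf_eq, neg_mul]
    omega

theorem ob_eq {w : ℤ} (hw : w % 2 = 1) (hw0 : 0 < w) (M s k : ℤ) :
    ob w M s k = rt s '' rect (M * w + w / 2 + 1) (M * w + w / 2 + w) (k * w - w / 2)
      (k * w + w / 2) := by
  have e : rect (M * w + w / 2 + 1) (M * w + w / 2 + w) (k * w - w / 2) (k * w + w / 2) =
      blk w (M + 1, k) := by
    ext v
    simp only [blk, rect, Set.mem_setOf_eq, add_mul, one_mul]
    omega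
  rw [e, rt_rect_blk hw hw0]
  rfl

theorem ib_eq {w : ℤ} (hw : w % 2 = 1) (hw0 : 0 < w) (M s k : ℤ) :
    ib w M s k = rt s '' rect (M * w - w / 2) (M * w + w / 2) (k * w - w / 2)
      (k * w + w / 2) := by
  have e : rect (M * w - w / 2) (M * w + w / 2) (k * w - w / 2) (k * w + w / 2) =
      blk w (M, k) := rfl
  rw [e, rt_rect_blk hw hw0]
  rfl

private theorem RC2_div {w x y v : ℤ} (hw0 : 0 < w) (h1 : x * w - w / 2 ≤ v) (h2 : v ≤ x * w + w / 2)
    (h3 : y * w - w / 2 ≤ v) (h4 : v ≤ y * w + w / 2) (hw : w % 2 = 1) : x = y := by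
  have hh : 2 * (w / 2) + 1 = w := by omega
  rcases lt_trichotomy x y with h | h | h
  · exfalso
    have : (x + 1) * w ≤ y * w := mul_le_mul_of_nonneg_right (by omega) hw0.le
    rw [add_mul, one_mul] at this
    omega
  · exact h
  · exfalso
    have : (y + 1) * w ≤ x * w := mul_le_mul_of_nonneg_right (by omega) hw0.le
    rw [add_mul, one_mul] at this
    omega

theorem blk_disj {w : ℤ} (hw : w % 2 = 1) (hw0 : 0 < w) {z z' : Pt} (h : z ≠ z') :
    Disjoint (blk w z) (blk w z') := by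
  rw [Set.disjoint_left]
  rintro v ⟨⟨a1, a2⟩, a3, a4⟩ ⟨⟨b1, b2⟩, b3, b4⟩
  exact h (Prod.ext (RC2_div hw0 a1 a2 b1 b2 hw) (RC2_div hw0 a3 a4 b3 b4 hw))

theorem bx_blk {w : ℤ} (hw : w % 2 = 1) (hw0 : 0 < w) {M : ℤ} (v : Pt) :
    v ∈ bx (M * w + w / 2) ↔ ∃ z, nrm z ≤ M ∧ v ∈ blk w z := by
  have hh : 2 * (w / 2) + 1 = w := by omega
  have key : ∀ x : ℤ, |x| ≤ M * w + w / 2 → |(x + w / 2) / w| ≤ M ∧
      (x + w / 2) / w * w - w / 2 ≤ x ∧ x ≤ (x + w / 2) / w * w + w / 2 := by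
    intro x hx
    rw [abs_le] at hx
    have h1 := Int.mul_ediv_add_emod (x + w / 2) w
    have h2 := Int.emod_nonneg (x + w / 2) hw0.ne'
    have h3 := Int.emod_lt_of_pos (x + w / 2) hw0
    rw [mul_comm] at h1
    generalize (x + w / 2) / w = q at *
    refine ⟨?_, by omega, by omega⟩
    rw [abs_le]
    constructor
    · by_contra hc
      have : (q + 1) * w ≤ (-M) * w := mul_le_mul_of_nonneg_right (by omega) hw0.le
      rw [add_mul, one_mul, neg_mul] at this
      omega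
    · by_contra hc
      have : (M + 1) * w ≤ q * w := mul_le_mul_of_nonneg_right (by omega) hw0.le
      rw [add_mul, one_mul] at this
      omega
  have key2 : ∀ x q : ℤ, |q| ≤ M → q * w - w / 2 ≤ x → x ≤ q * w + w / 2 →
      |x| ≤ M * w + w / 2 := by
    intro x q hq h1 h2
    rw [abs_le] at hq ⊢
    have h3 : q * w ≤ M * w := mul_le_mul_of_nonneg_right hq.2 hw0.le
    have h4 : (-M) * w ≤ q * w := mul_le_mul_of_nonneg_right hq.1 hw0.le
    rw [neg_mul] at h4
    omega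
  constructor
  · intro hv
    have hv' : max |v.1| |v.2| ≤ M * w + w / 2 := hv
    rw [max_le_iff] at hv'
    obtain ⟨a1, a2, a3⟩ := key v.1 hv'.1
    obtain ⟨b1, b2, b3⟩ := key v.2 hv'.2
    exact ⟨((v.1 + w / 2) / w, (v.2 + w / 2) / w), max_le a1 b1, ⟨a2, a3⟩, b2, b3⟩
  · rintro ⟨z, hz, ⟨a2, a3⟩, b2, b3⟩
    have hz' : max |z.1| |z.2| ≤ M := hz
    rw [max_le_iff] at hz'
    exact max_le (key2 _ _ hz'.1 a2 a3) (key2 _ _ hz'.2 b2 b3)

/-- GOOD CELL LEMMA (arithmetic).  `Z` is a set of indices of the ring `m`, `z = 2 m s + y` an index not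
in `Z`, far from the corners.  If `Z` does not have elements on both sides of `z` within distance `6 w`,
there are three consecutive cells of the side `s` without element of `Z`, connected to `z` by an interval
without element of `Z`, contained in `[z - 6w, z + 6w]`; moreover the middle cell is not the cell `0`.
(If there is no element in `[z, z + 6w]`: let `k₁` be the smallest number with `k₁ w - w/2 ≥ y`; the cells
`k₁, ..., k₁ + 4` are contained in `[y, y + 6w]`; choose `k ∈ {k₁ + 1, k₁ + 2}`, `k ≠ 0`.) -/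
theorem good_cell {w m : ℤ} (hw : w % 2 = 1) (hw0 : 0 < w) {Z : Set ℤ} {s y : ℤ}
    (hy : |y| + 8 * w ≤ m) (hz : 2 * m * s + y ∉ Z)
    (h : ¬ ((∃ i ∈ Z, 2 * m * s + y - 6 * w ≤ i ∧ i < 2 * m * s + y) ∧
      ∃ j ∈ Z, 2 * m * s + y < j ∧ j ≤ 2 * m * s + y + 6 * w)) :
    ∃ k, k ≠ 0 ∧ y - 6 * w ≤ (k - 1) * w - w / 2 ∧ (k + 1) * w + w / 2 ≤ y + 6 * w ∧
      ∀ i ∈ Z, ¬ (min (2 * m * s + y) (2 * m * s + (k - 1) * w - w / 2) ≤ i ∧
        i ≤ max (2 * m * s + y) (2 * m * s + (k + 1) * w + w / 2)) := by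
  have hh : 2 * (w / 2) + 1 = w := by omega
  by_cases hr : ∃ j ∈ Z, 2 * m * s + y < j ∧ j ≤ 2 * m * s + y + 6 * w
  · -- nothing on the left
    have hl : ∀ i ∈ Z, 2 * m * s + y - 6 * w ≤ i → i < 2 * m * s + y → False := by
      intro i hi h1 h2
      exact h ⟨⟨i, hi, h1, h2⟩, hr⟩
    -- largest `q` with `q w + w/2 ≤ y`
    have h1 := Int.mul_ediv_add_emod (y - w / 2) w
    have h2 := Int.emod_nonneg (y - w / 2) hw0.ne'
    have h3 := Int.emod_lt_of_pos (y - w / 2) hw0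
    rw [mul_comm] at h1
    generalize (y - w / 2) / w = q at *
    obtain ⟨k, hk0, hk⟩ : ∃ k : ℤ, k ≠ 0 ∧ (k = q - 1 ∨ k = q - 2) := by
      by_cases hq : q = 1
      · exact ⟨q - 2, by omega, Or.inr rfl⟩
      · exact ⟨q - 1, by omega, Or.inl rfl⟩
    have e1 : (k - 1) * w = k * w - w := by ring
    have e2 : (k + 1) * w = k * w + w := by ring
    have e3 : k * w = q * w - w ∨ k * w = q * w - 2 * w := by
      rcases hk with hk | hk
      · left
        rw [hk]
        ring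
      · right
        rw [hk]
        ring
    refine ⟨k, hk0, by rw [e1]; omega, by rw [e2]; omega, ?_⟩
    rintro i hi ⟨i1, i2⟩
    rw [e1] at i1
    rw [e2] at i2
    have i3 : i ≠ 2 * m * s + y := fun hne => hz (hne ▸ hi)
    rw [min_le_iff] at i1
    rw [le_max_iff] at i2
    generalize 2 * m * s = b at *
    exact hl i hi (by omega) (by omega)
  · have hl : ∀ j ∈ Z, 2 * m * s + y < j → j ≤ 2 * m * s + y + 6 * w → False := by
      intro j hj h1 h2
      exact hr ⟨j, hj, h1, h2⟩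
    -- smallest `q + 1` with `(q + 1) w - w/2 ≥ y`
    have h1 := Int.mul_ediv_add_emod (y + w / 2 - 1) w
    have h2 := Int.emod_nonneg (y + w / 2 - 1) hw0.ne'
    have h3 := Int.emod_lt_of_pos (y + w / 2 - 1) hw0
    rw [mul_comm] at h1
    generalize (y + w / 2 - 1) / w = q at *
    obtain ⟨k, hk0, hk⟩ : ∃ k : ℤ, k ≠ 0 ∧ (k = q + 2 ∨ k = q + 3) := by
      by_cases hq : q = -2
      · exact ⟨q + 3, by omega, Or.inr rfl⟩
      · exact ⟨q + 2, by omega, Or.inl rfl⟩
    have e1 : (k - 1) * w = k * w - w := by ring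
    have e2 : (k + 1) * w = k * w + w := by ring
    have e3 : k * w = q * w + 2 * w ∨ k * w = q * w + 3 * w := by
      rcases hk with hk | hk
      · left
        rw [hk]
        ring
      · right
        rw [hk]
        ring
    refine ⟨k, hk0, by rw [e1]; omega, by rw [e2]; omega, ?_⟩
    rintro i hi ⟨i1, i2⟩
    rw [e1] at i1
    rw [e2] at i2
    have i3 : i ≠ 2 * m * s + y := fun hne => hz (hne ▸ hi)
    rw [min_le_iff] at i1
    rw [le_max_iff] at i2
    generalize 2 * m * s = b at *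
    exact hl i hi (by omega) (by omega)

namespace Lat

variable {L : Lat}

/-- neighbours in `bx R` of an outer block lie in the three cells -/
theorem ob_adj {w : ℤ} (hw : w % 2 = 1) (hw0 : 0 < w) {M s k : ℤ} (hM : 1 ≤ M) (hk : |k| < M)
    {u v : Pt} (hu : u ∈ ob w M s k) (hv : v ∈ bx (M * w + w / 2)) (h : L.Adj u v) :
    v ∈ trip w (M * w + w / 2) s k := by
  have hh : 2 * (w / 2) + 1 = w := by omega
  rw [ob_eq hw hw0] at hu
  obtain ⟨u', ⟨⟨a1, a2⟩, a3, a4⟩, rfl⟩ := hu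
  obtain ⟨v', rfl⟩ := (rt s).surjective v
  have hn := RC2_near h.near
  rw [abs_le, abs_le] at hn
  obtain ⟨⟨n1, n2⟩, n3, n4⟩ := hn
  have hv' : nrm v' ≤ M * w + w / 2 := by
    have : nrm (rt s v') ≤ M * w + w / 2 := hv
    rwa [nrm_rt] at this
  have hv2 : max |v'.1| |v'.2| ≤ M * w + w / 2 := hv'
  rw [max_le_iff, abs_le, abs_le] at hv2
  have e1 : (k - 1) * w = k * w - w := by ring
  have e2 : (k + 1) * w = k * w + w := by ring
  have e3 : 1 * w ≤ M * w := mul_le_mul_of_nonneg_right hM hw0.le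
  have hx : v' = (M * w + w / 2, v'.2) := Prod.ext (by simp only; omega) rfl
  refine ⟨2 * (M * w + w / 2) * s + v'.2, ?_, ?_, ?_⟩
  · rw [e1]
    generalize 2 * (M * w + w / 2) * s = b
    omega
  · rw [e2]
    generalize 2 * (M * w + w / 2) * s = b
    omega
  · rw [rc_side (by omega) (abs_le.mpr hv2.2)]
    rw [← hx]

/-- neighbours outside `bx R` of an inner block lie in the three cells of the ring `R + 1` -/
theorem ib_adj {w : ℤ} (hw : w % 2 = 1) (hw0 : 0 < w) {M s k : ℤ} (hM : 1 ≤ M) (hk : |k| + 1 < M)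
    {u v : Pt} (hu : u ∈ ib w M s k) (hv : v ∉ bx (M * w + w / 2)) (h : L.Adj u v) :
    v ∈ trip w (M * w + w / 2 + 1) s k := by
  have hh : 2 * (w / 2) + 1 = w := by omega
  rw [ib_eq hw hw0] at hu
  obtain ⟨u', ⟨⟨a1, a2⟩, a3, a4⟩, rfl⟩ := hu
  obtain ⟨v', rfl⟩ := (rt s).surjective v
  have hn := RC2_near h.near
  rw [abs_le, abs_le] at hn
  obtain ⟨⟨n1, n2⟩, n3, n4⟩ := hn
  have hv' : ¬ max |v'.1| |v'.2| ≤ M * w + w / 2 := by
    intro hc
    apply hv
    change nrm (rt s v') ≤ M * w + w / 2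
    rw [nrm_rt]
    exact hc
  rw [max_le_iff, abs_le, abs_le] at hv'
  have e1 : (k - 1) * w = k * w - w := by ring
  have e2 : (k + 1) * w = k * w + w := by ring
  have e3 : 1 * w ≤ M * w := mul_le_mul_of_nonneg_right hM hw0.le
  rw [← lt_sub_iff_add_lt, abs_lt] at hk
  have e4 : (k + 2) * w ≤ M * w := mul_le_mul_of_nonneg_right (by omega) hw0.le
  have e5 : (-k + 2) * w ≤ M * w := mul_le_mul_of_nonneg_right (by omega) hw0.le
  rw [add_mul] at e4 e5
  rw [neg_mul] at e5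
  have hx : v' = (M * w + w / 2 + 1, v'.2) := Prod.ext (by simp only; omega) rfl
  refine ⟨2 * (M * w + w / 2 + 1) * s + v'.2, ?_, ?_, ?_⟩
  · rw [e1]
    generalize 2 * (M * w + w / 2 + 1) * s = b
    omega
  · rw [e2]
    generalize 2 * (M * w + w / 2 + 1) * s = b
    omega
  · rw [rc_side (by omega) (abs_le.mpr (by omega))]
    rw [← hx]

/-- a site of the ring in the coordinates of the side `s` -/
private theorem RC2_rng {s m : ℤ} {u : Pt} (h : rt s u ∈ rng m) :
    (-m ≤ u.1 ∧ u.1 ≤ m) ∧ (-m ≤ u.2 ∧ u.2 ≤ m) ∧ (u.1 = m ∨ u.1 = -m ∨ u.2 = m ∨ u.2 = -m) := by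
  have h1 : nrm (rt s u) = m := h
  rw [nrm_rt] at h1
  have h2 : max |u.1| |u.2| = m := h1
  have h3 := max_le_iff.mp h2.le
  rw [abs_le, abs_le] at h3
  refine ⟨h3.1, h3.2, ?_⟩
  rcases max_choice |u.1| |u.2| with h4 | h4
  · rw [h4] at h2
    rcases abs_choice u.1 with h5 | h5 <;> omega
  · rw [h4] at h2
    rcases abs_choice u.2 with h5 | h5 <;> omega

private theorem RC2_rng' {s m y : ℤ} (hm : 1 ≤ m) (hy : -m ≤ y ∧ y ≤ m) : rt s (m, y) ∈ rng m := by
  change nrm (rt s (m, y)) = m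
  rw [nrm_rt]
  change max |m| |y| = m
  rw [abs_of_nonneg (by omega), max_eq_left (abs_le.mpr hy)]

/-- common part of the two exactness lemmas -/
private theorem RC2_exact {M C : Set Pt} (h : L.Exact M C) {m s a b p q : ℤ} (hm : 1 ≤ m)
    (hp : -m ≤ p) (hpq : p ≤ q) (hq : q ≤ m) (ham : a ≤ m) (hbm : m ≤ b) (hrng : rng m ⊆ M)
    (hM : ∀ x y, (a ≤ x ∧ x ≤ b) → (p ≤ y ∧ y ≤ q) → x ≠ m → rt s (x, y) ∉ M)
    (hE : ∀ x y, (a ≤ x ∧ x ≤ b) → (p ≤ y ∧ y ≤ q) → x ≠ m → ∀ u, rt s u ∈ M →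
      L.Adj (rt s u) (rt s (x, y)) → u.1 = m ∧ |x - m| = 1) :
    L.Exact (M ∪ rt s '' rect a b p q) C := by
  have h2 : L.Exact (rt s '' rect a b p q) C := by
    obtain ⟨a', b', c', d', e⟩ := RC2_img s a b p q
    rw [e]
    exact exact_rect _ _ _ _ C
  have hint : M ∩ rt s '' rect a b p q = rt s '' rect m m p q := by
    ext v
    obtain ⟨v', rfl⟩ := (rt s).surjective v
    rw [Set.mem_inter_iff, RC2_mem, RC2_mem, Equiv.symm_apply_apply]
    constructor
    · rintro ⟨h1, ⟨h3, h4⟩, h5, h6⟩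
      have hx : v'.1 = m := by
        by_contra hne
        exact hM v'.1 v'.2 ⟨h3, h4⟩ ⟨h5, h6⟩ hne h1
      exact ⟨⟨by omega, by omega⟩, h5, h6⟩
    · rintro ⟨⟨h3, h4⟩, h5, h6⟩
      have hx : v' = (m, v'.2) := Prod.ext (by simp only; omega) rfl
      refine ⟨?_, ⟨by omega, by omega⟩, h5, h6⟩
      rw [hx]
      exact hrng (RC2_rng' hm ⟨by omega, by omega⟩)
  have key : ∀ u ∈ M, ∀ v ∈ rt s '' rect a b p q, L.Adj u v → (u ∈ M ∧ v ∈ M) ∨
      (u ∈ rt s '' rect a b p q ∧ v ∈ rt s '' rect a b p q) ∨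
      ∃ w ∈ M ∩ rt s '' rect a b p q, L.Adj u w ∧ L.Adj w v := by
    intro u hu v hv huv
    obtain ⟨u', rfl⟩ := (rt s).surjective u
    obtain ⟨⟨x, y⟩, ⟨⟨v1, v2⟩, v3, v4⟩, rfl⟩ := hv
    simp only at v1 v2 v3 v4
    by_cases hx : x = m
    · left
      refine ⟨hu, ?_⟩
      rw [hx]
      exact hrng (RC2_rng' hm ⟨by omega, by omega⟩)
    obtain ⟨e1, e2⟩ := hE x y ⟨v1, v2⟩ ⟨v3, v4⟩ hx u' hu huv
    by_cases hu2 : p ≤ u'.2 ∧ u'.2 ≤ q
    · right; left
      exact ⟨⟨u', ⟨⟨by omega, by omega⟩, hu2⟩, rfl⟩, ⟨(x, y), ⟨⟨v1, v2⟩, v3, v4⟩, rfl⟩⟩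
    right; right
    have hn := RC2_near huv.near
    rw [abs_le, abs_le] at hn
    simp only at hn
    refine ⟨rt s (m, y), ?_, ?_, ?_⟩
    · rw [hint]
      exact ⟨(m, y), ⟨⟨le_refl _, le_refl _⟩, v3, v4⟩, rfl⟩
    · apply adj_of_nn
      apply RC2_nn
      simp only
      rw [e1, sub_self, abs_zero, zero_add]
      have : u'.2 - y = 1 ∨ u'.2 - y = -1 := by omega
      rcases this with h5 | h5 <;> rw [h5] <;> norm_num
    · apply adj_of_nn
      apply RC2_nn
      simp only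
      rw [sub_self, abs_zero, add_zero, abs_sub_comm]
      exact e2
  refine h.glue h2 ?_ ?_
  · rw [hint]
    obtain ⟨a', b', c', d', e⟩ := RC2_img s m m p q
    rw [e]
    exact con_rect _ _ _ _
  · rintro u (hu | hu) v (hv | hv) huv
    · exact Or.inl ⟨hu, hv⟩
    · exact key u hu v hv huv
    · rcases key v hv u hu huv.symm with ⟨c1, c2⟩ | ⟨c1, c2⟩ | ⟨w, hw, c1, c2⟩
      · exact Or.inl ⟨c2, c1⟩
      · exact Or.inr (Or.inl ⟨c2, c1⟩)
      · exact Or.inr (Or.inr ⟨w, hw, c2.symm, c1.symm⟩)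
    · exact Or.inr (Or.inl ⟨hu, hv⟩)

/-- the ring segment added to the rectangle does not change the union -/
private theorem RC2_union {M : Set Pt} {m s a b a' b' p q : ℤ} (hm : 1 ≤ m) (hp : -m ≤ p)
    (hq : q ≤ m) (hrng : rng m ⊆ M) (h1 : a' ≤ a) (h2 : b ≤ b')
    (h3 : ∀ x, a' ≤ x → x ≤ b' → (a ≤ x ∧ x ≤ b) ∨ x = m) :
    M ∪ rt s '' rect a b p q = M ∪ rt s '' rect a' b' p q := by
  apply Set.Subset.antisymm
  · apply Set.union_subset_union_right
    apply Set.image_mono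
    rintro v ⟨⟨v1, v2⟩, v3⟩
    exact ⟨⟨by omega, by omega⟩, v3⟩
  · rintro v (hv | ⟨v', ⟨⟨v1, v2⟩, v3, v4⟩, rfl⟩)
    · exact Or.inl hv
    rcases h3 v'.1 v1 v2 with h4 | h4
    · exact Or.inr ⟨v', ⟨h4, v3, v4⟩, rfl⟩
    · left
      have hx : v' = (m, v'.2) := Prod.ext h4 rfl
      rw [hx]
      exact hrng (RC2_rng' hm ⟨by omega, by omega⟩)

/-- Exactness of `M ∪ B` for a rectangle `B` (a rotated rectangle) next to the side `s` of the ring
`m`: `Exact.glue` with `M₂ = B` together with the adjacent cells of the ring, a rectangle; the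
intersection of `M₂` with `M` is a segment of the ring.  `M` contains the ring `m` (all of it) and no other
site of `B ∪ nb B` than sites of the ring `m`.  Here `B = rt s '' rect (m+1) b p q` (outer case) with
`-m ≤ p ≤ q ≤ m`. -/
theorem exact_add_out {M C : Set Pt} (h : L.Exact M C) {m s b p q : ℤ} (hm : 1 ≤ m)
    (hp : -m ≤ p) (hpq : p ≤ q) (hq : q ≤ m) (hb : m + 1 ≤ b) (hrng : rng m ⊆ M)
    (hdis : ∀ v ∈ rt s '' rect (m + 1) b p q, ∀ u ∈ M, L.Adj u v → u ∈ rng m)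
    (hdis' : ∀ v ∈ rt s '' rect (m + 1) b p q, v ∉ M) :
    L.Exact (M ∪ rt s '' rect (m + 1) b p q) C := by
  rw [RC2_union (a' := m) (b' := b) hm hp hq hrng (by omega) le_rfl (by intro x h1 h2; omega)]
  refine RC2_exact h hm hp hpq hq le_rfl (by omega) hrng ?_ ?_
  · intro x y hx hy hne
    exact hdis' _ ⟨(x, y), ⟨⟨by simp only; omega, by simp only; omega⟩, hy⟩, rfl⟩
  · intro x y hx hy hne u hu huv
    have h1 := RC2_rng (hdis _ ⟨(x, y), ⟨⟨by simp only; omega, by simp only; omega⟩, hy⟩, rfl⟩ _ hu huv)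
    have hn := RC2_near huv.near
    rw [abs_le, abs_le] at hn
    simp only at hn
    have h2 : u.1 = m := by omega
    refine ⟨h2, ?_⟩
    rw [show x - m = 1 by omega]
    rfl

/-- The inner case: `B = rt s '' rect a (m-1) p q`, `-m + 1 < a`, `-m + 1 < p ≤ q < m - 1` (`B` touches
only the side `s` of the ring). -/
theorem exact_add_in {M C : Set Pt} (h : L.Exact M C) {m s a p q : ℤ} (hm : 1 ≤ m)
    (hp : -m + 1 < p) (hpq : p ≤ q) (hq : q < m - 1) (ha : a ≤ m - 1) (ha' : -m + 1 < a)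
    (hrng : rng m ⊆ M)
    (hdis : ∀ v ∈ rt s '' rect a (m - 1) p q, ∀ u ∈ M, L.Adj u v → u ∈ rng m)
    (hdis' : ∀ v ∈ rt s '' rect a (m - 1) p q, v ∉ M) :
    L.Exact (M ∪ rt s '' rect a (m - 1) p q) C := by
  rw [RC2_union (a' := a) (b' := m) hm (by omega) (by omega) hrng le_rfl (by omega)
    (by intro x h1 h2; omega)]
  refine RC2_exact h hm (by omega) hpq (by omega) (by omega) le_rfl hrng ?_ ?_
  · intro x y hx hy hne
    exact hdis' _ ⟨(x, y), ⟨⟨by simp only; omega, by simp only; omega⟩, hy⟩, rfl⟩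
  · intro x y hx hy hne u hu huv
    have h1 := RC2_rng (hdis _ ⟨(x, y), ⟨⟨by simp only; omega, by simp only; omega⟩, hy⟩, rfl⟩ _ hu huv)
    have hn := RC2_near huv.near
    rw [abs_le, abs_le] at hn
    simp only at hn
    have h2 : u.1 = m := by omega
    refine ⟨h2, ?_⟩
    rw [show x - m = -1 by omega]
    rfl

end Lat

end SC
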