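import Pool.Agent.Lib_MP_e0a489.ROD
import Pool.Agent.Lib_MP_e0a489.TE3

/-!
# MP_e0a489, RO 1: crossings of rotated rectangles
-/

set_option autoImplicit false

namespace SC

open Classical

namespace Lat

private theorem ro1_finite (s a b p q : ℤ) : (rt s '' rect a b p q).Finite := by
  have h : rect a b p q ⊆ Set.Icc a b ×ˢ Set.Icc p q := by
    rintro v ⟨h1, h2⟩
    exact ⟨h1, h2⟩
  exact (((Set.finite_Icc a b).prod (Set.finite_Icc p q)).subset h).image _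

private theorem ro1_dep {A : Cfg → Prop} {D : Set Pt} (h : Dep A D) (s : ℤ) :
    Dep (fun ω => A (via (rt s) ω)) (rt s '' D) := by
  intro ω ω' H
  exact h _ _ fun v hv => H (rt s v) (Set.mem_image_of_mem _ hv)

private theorem ro1_loc {A : Cfg → Prop} {s a b p q : ℤ} (h : Dep A (rt s '' rect a b p q)) :
    Loc A :=
  ⟨(ro1_finite s a b p q).toFinset, h.mono (by rw [Set.Finite.coe_toFinset])⟩

private theorem ro1_mon {A : Cfg → Prop} {c : Bool} (h : MonC c A) (s : ℤ) :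
    MonC c (fun ω => A (via (rt s) ω)) := by
  cases c with
  | true =>
    have h0 : Inc A := h
    intro ω ω' hle h1
    exact h0 _ _ (fun v => hle (rt s v)) h1
  | false =>
    have h0 : Dec A := h
    intro ω ω' hle h1
    exact h0 _ _ (fun v => hle (rt s v)) h1

private theorem ro1_set {L : Lat} {c : Bool} {s a b p q : ℤ} {ω : Cfg} {u v : Pt}
    (h : (L.rots s).Cn (rect a b p q ∩ (L.rots s).col c (via (rt s) ω)) u v) :
    ∃ Q, Q ⊆ L.col c ω ∧ L.Con Q ∧ Q ⊆ rt s '' rect a b p q ∧ rt s u ∈ Q ∧ rt s v ∈ Q := by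
  refine ⟨rt s '' {x | (L.rots s).Cn (rect a b p q ∩ (L.rots s).col c (via (rt s) ω)) u x},
    ?_, ?_, ?_, ?_, ?_⟩
  · rw [← (tr_rots L s).col c ω]
    rintro _ ⟨x, hx, rfl⟩
    have hx' : (L.rots s).Cn (rect a b p q ∩ (L.rots s).col c (via (rt s) ω)) u x := hx
    exact Set.mem_image_of_mem _ hx'.right.2
  · exact ((tr_rots L s).con _).1 (con_cluster _ _)
  · rintro _ ⟨x, hx, rfl⟩
    have hx' : (L.rots s).Cn (rect a b p q ∩ (L.rots s).col c (via (rt s) ω)) u x := hx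
    exact Set.mem_image_of_mem _ hx'.right.1
  · exact Set.mem_image_of_mem _ (Cn.refl h.left)
  · exact Set.mem_image_of_mem _ h

/-- `HX.dep` for `L.rots s`: if `ω = ω'` on `rt s '' rect a b p q` then `via (rt s) ω = via (rt s) ω'` on
`rect a b p q` (`via (rt s) ω v = ω (rt s v)`). -/
theorem RX.dep (L : Lat) (c : Bool) (s a b p q : ℤ) :
    Dep (L.RX c s a b p q) (rt s '' rect a b p q) := by
  exact ro1_dep (HX.dep (L.rots s) c a b p q) s

theorem PX.dep (L : Lat) (c : Bool) (s a b p q : ℤ) :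
    Dep (L.PX c s a b p q) (rt s '' rect a b p q) := by
  exact ro1_dep (VX.dep (L.rots s) c a b p q) s

/-- `RX.dep`, the rectangle is finite (subset of a product of two intervals), its image is finite. -/
theorem RX.loc (L : Lat) (c : Bool) (s a b p q : ℤ) : Loc (L.RX c s a b p q) := by
  exact ro1_loc (RX.dep L c s a b p q)

theorem PX.loc (L : Lat) (c : Bool) (s a b p q : ℤ) : Loc (L.PX c s a b p q) := by
  exact ro1_loc (PX.dep L c s a b p q)

/-- `HX.mon` for `L.rots s`, case distinction on `c`; `ω ≤ ω'` implies `via (rt s) ω ≤ via (rt s) ω'`. -/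
theorem RX.mon (L : Lat) (c : Bool) (s a b p q : ℤ) : MonC c (L.RX c s a b p q) := by
  exact ro1_mon (HX.mon (L.rots s) c a b p q) s

theorem PX.mon (L : Lat) (c : Bool) (s a b p q : ℤ) : MonC c (L.PX c s a b p q) := by
  exact ro1_mon (VX.mon (L.rots s) c a b p q) s

/-- `HX` gives `u`, `v` with `Cn (rect a b p q ∩ col) u v` in `L' = L.rots s`; take the image under `rt s` of the
cluster `{x | L'.Cn (rect a b p q ∩ L'.col c (via (rt s) ω)) u x}` (`con_cluster`, `Tr.con`, `Tr.col` for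
`tr_rots L s`). -/
theorem RX.set {L : Lat} {c : Bool} {s a b p q : ℤ} {ω : Cfg} (h : L.RX c s a b p q ω) :
    ∃ Q, Q ⊆ L.col c ω ∧ L.Rad s a b p q Q := by
  obtain ⟨⟨u1, u2⟩, ⟨v1, v2⟩, hu, hv, hc⟩ := h
  have hu' : u1 = a := hu
  have hv' : v1 = b := hv
  subst hu' hv'
  obtain ⟨Q, h1, h2, h3, h4, h5⟩ := ro1_set hc
  exact ⟨Q, h1, h2, h3, ⟨u2, h4⟩, v2, h5⟩

theorem PX.set {L : Lat} {c : Bool} {s a b p q : ℤ} {ω : Cfg} (h : L.PX c s a b p q ω) :
    ∃ Q, Q ⊆ L.col c ω ∧ L.Par s a b p q Q := by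
  obtain ⟨⟨u1, u2⟩, ⟨v1, v2⟩, hu, hv, hc⟩ := h
  have hu' : u2 = p := hu
  have hv' : v2 = q := hv
  subst hu' hv'
  obtain ⟨Q, h1, h2, h3, h4, h5⟩ := ro1_set hc
  exact ⟨Q, h1, h2, h3, ⟨u1, h4⟩, v1, h5⟩

end Lat

/-- `pr_via` (with `HX.loc`), `RSW.rots`, `RSW.hx'` -/
theorem RSW.prRX {L : Lat} {κ : ℕ → ℝ} (h : RSW L κ) {k : ℕ} (hk : 1 ≤ k) (c : Bool)
    {s a b p q : ℤ} (hab : a ≤ b) (h4 : 4 ≤ q - p) (hr : b - a ≤ k * (q - p)) :
    κ k ≤ pr (L.RX c s a b p q) := by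
  have h1 : pr (L.RX c s a b p q) = pr ((L.rots s).HX c a b p q) :=
    pr_via (Lat.HX.loc (L.rots s) c a b p q) (rt s)
  rw [h1]
  exact (h.rots s).hx' hk c hab h4 hr

theorem RSW.prPX {L : Lat} {κ : ℕ → ℝ} (h : RSW L κ) {k : ℕ} (hk : 1 ≤ k) (c : Bool)
    {s a b p q : ℤ} (hpq : p ≤ q) (h4 : 4 ≤ b - a) (hr : q - p ≤ k * (b - a)) :
    κ k ≤ pr (L.PX c s a b p q) := by
  have h1 : pr (L.PX c s a b p q) = pr ((L.rots s).VX c a b p q) :=
    pr_via (Lat.VX.loc (L.rots s) c a b p q) (rt s)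
  rw [h1]
  exact (h.rots s).vx' hk c hpq h4 hr

end SC
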