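import Pool.Agent.Lib_MP_e0a489.ROD

/-!
# MP_e0a489, RO 10: the index intervals of the four paths are disjoint
-/

set_option autoImplicit false

namespace SC

open Classical

/-- Level of the arc of a path: `b` says right mover. -/
def rkb (b : Bool) (i : ℤ) : ℤ := if b then 4 - i else 5 + i

/-- ORDER LEMMA (abstract).  `x`, `x'`: indices of two positions (half widths `h`, `h'`), `y`, `y'`: indices of the targets,
`i < j` numbers of the paths.  Unfold everything, `split_ifs`, `omega`.  (Both right movers: `ρ' < ρ`; up to level `ρ'` the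
intervals are around `x`, `x'`, at the level `ρ'` we have `x < x' ≤ y'`, between the levels `x < x' ≤ y'`, at the level `ρ` it is
`max x y = y < y'`.  Both left movers: `ρ < ρ'`; at the level `ρ` we have `max x y = x < x'`, between `y ≤ x < x'`, at the level `ρ'`
`y < y' = min x' y'`.  Different movers: `max x y < min x' y'`, because a right and a left mover satisfy
`x ≤ y < y' ≤ x'` and a left and a right mover `y ≤ x < x' ≤ y'`.) -/
theorem ord_abs {x x' y y' h h' t i j : ℤ} {b b' : Bool} (hi : 0 ≤ i) (hij : i < j) (hj : j ≤ 3)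
    (h0 : 0 ≤ h) (h0' : 0 ≤ h') (hy : y < y') (hx : t ≤ 8 → x + h < x' - h')
    (h1 : b = true → t ≤ 8 → x ≤ y) (h2 : b = false → t ≤ 8 → y ≤ x)
    (h1' : b' = true → t ≤ 8 → x' ≤ y') (h2' : b' = false → t ≤ 8 → y' ≤ x') :
    hif x y h (rkb b i) t < lof x' y' h' (rkb b' j) t := by
  unfold hif lof rkb
  rcases le_or_gt t 8 with ht | ht
  · have hx := hx ht
    cases b <;> cases b' <;>
      simp only [Bool.false_eq_true, if_false, if_true] <;>
      simp only [forall_true_left, reduceCtorEq, false_implies, ht] at h1 h2 h1' h2' <;>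
      split_ifs <;> omega
  · cases b <;> cases b' <;>
      simp only [Bool.false_eq_true, if_false, if_true] <;>
      split_ifs <;> omega

/-- BOUNDS (abstract).  `0 < x - h` and `x + h < n` at the levels `t ≤ 8`, `0 ≤ y ≤ n`: the interval lies in `[0, n]`, contains
`0` only if `y = 0` and `n` only if `y = n`. -/
theorem bnd_abs {x y h t i n : ℤ} {b : Bool} (hi : 0 ≤ i) (hi3 : i ≤ 3) (h0 : 0 ≤ h) (hy0 : 0 ≤ y)
    (hy1 : y ≤ n) (hx0 : t ≤ 8 → 0 < x - h) (hx1 : t ≤ 8 → x + h < n) :
    0 ≤ lof x y h (rkb b i) t ∧ hif x y h (rkb b i) t ≤ n ∧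
      (lof x y h (rkb b i) t = 0 → y = 0) ∧ (hif x y h (rkb b i) t = n → y = n) := by
  unfold hif lof rkb
  rcases le_or_gt t 8 with ht | ht
  · have hx0 := hx0 ht
    have hx1 := hx1 ht
    cases b <;> simp only [Bool.false_eq_true, if_false, if_true] <;>
      refine ⟨?_, ?_, ?_, ?_⟩ <;> (try intro hh) <;> split_ifs at * <;> omega
  · cases b <;> simp only [Bool.false_eq_true, if_false, if_true] <;>
      refine ⟨?_, ?_, ?_, ?_⟩ <;> (try intro hh) <;> split_ifs at * <;> omega

end SC
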