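import Pool.Agent.Lib_MP_e0a489.RO10

/-!
# MP_e0a489, RO 11: the four paths use different cells of each ring
-/

set_option autoImplicit false

namespace SC

open Classical

/-- `4 - i` and `5 + i` for `i = 0, 1, 2, 3` -/
theorem rki_bd (μ : ℤ) (c₀ : Bool) (s k : Fin 4 → ℤ) (i : Fin 4) :
    1 ≤ rki μ c₀ s k i ∧ rki μ c₀ s k i ≤ 8 := by
  have h := i.isLt
  unfold rki
  split_ifs <;> omega

theorem hwd_bd {μ : ℤ} (hμ : μ % 2 = 1) (hμ0 : 0 < μ) (c₀ : Bool) (i : Fin 4) :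
    0 ≤ hwd μ c₀ i ∧ 2 * hwd μ c₀ i + 1 ≤ μ := by
  unfold hwd
  split_ifs <;> omega

/-- `dc c₀` is `0` or `1` -/
theorem tgt_bd (c₀ : Bool) (i : Fin 4) : 0 ≤ tgt c₀ i ∧ tgt c₀ i ≤ 4 := by
  have h := i.isLt
  unfold tgt dc
  split_ifs <;> omega

private theorem ro11_rki (μ : ℤ) (c₀ : Bool) (s k : Fin 4 → ℤ) (i : Fin 4) :
    rki μ c₀ s k i = rkb (decide (rmv (s i) (fpos μ c₀ k i) (tgt c₀ i))) (i.val : ℤ) := by
  unfold rki rkb
  by_cases h : rmv (s i) (fpos μ c₀ k i) (tgt c₀ i)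
  · rw [if_pos h, if_pos (decide_eq_true h)]
  · rw [if_neg h, if_neg (by rw [decide_eq_false h]; decide)]

/-- the position is far from the corners -/
private theorem ro11_cor {μ M : ℤ} (hμ : μ % 2 = 1) (hμ0 : 0 < μ) {c₀ : Bool} {s k : Fin 4 → ℤ}
    (hl : Land μ M c₀ s k) {m : ℤ} (ht : M - μ - 10 ≤ m) (i : Fin 4) :
    -m < fpos μ c₀ k i - hwd μ c₀ i ∧ fpos μ c₀ k i + hwd μ c₀ i < m := by
  have h1 := hl.cor i
  have h2 := hwd_bd hμ hμ0 c₀ i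
  have h3 := neg_abs_le (fpos μ c₀ k i)
  have h4 := le_abs_self (fpos μ c₀ k i)
  constructor <;> omega

private theorem ro11_ord {μ M : ℤ} (hμ : μ % 2 = 1) (hμ0 : 0 < μ) {c₀ : Bool} {s k : Fin 4 → ℤ}
    (hl : Land μ M c₀ s k) {m : ℤ} (hm : 1 ≤ m) (ht : M - μ - 10 ≤ m) {i j : Fin 4} (hij : i < j) :
    2 * m * s i + fpos μ c₀ k i + hwd μ c₀ i < 2 * m * s j + fpos μ c₀ k j - hwd μ c₀ j := by
  have h1 := ro11_cor hμ hμ0 hl ht i
  have h2 := ro11_cor hμ hμ0 hl ht j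
  rcases hl.ord i j hij with h | ⟨h, h'⟩
  · have h3 : 2 * m * (s i + 1) ≤ 2 * m * s j := mul_le_mul_of_nonneg_left (by omega) (by omega)
    have h4 : 2 * m * (s i + 1) = 2 * m * s i + 2 * m := by ring
    linarith [h1.1, h1.2, h2.1, h2.2]
  · rw [h]
    linarith

private theorem ro11_first {μ M : ℤ} (hμ : μ % 2 = 1) (hμ0 : 0 < μ) {c₀ : Bool} {s k : Fin 4 → ℤ}
    (hl : Land μ M c₀ s k) {m : ℤ} (hm : 1 ≤ m) (ht : M - μ - 10 ≤ m) (i : Fin 4) :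
    0 < 2 * m * s i + fpos μ c₀ k i - hwd μ c₀ i := by
  have h0 : 0 < 2 * m * s 0 + fpos μ c₀ k 0 - hwd μ c₀ 0 := by
    rcases hl.first with h | ⟨h, h'⟩
    · have h1 := ro11_cor hμ hμ0 hl ht 0
      have h3 : 2 * m * 1 ≤ 2 * m * s 0 := mul_le_mul_of_nonneg_left (by omega) (by omega)
      linarith [h1.1, h1.2]
    · rw [h]
      unfold fpos hwd
      split_ifs with hc
      · have h2 : μ * 1 ≤ μ * k 0 := mul_le_mul_of_nonneg_left (by omega) (by omega)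
        omega
      · omega
  by_cases hi : i = 0
  · rw [hi]
    exact h0
  · have h1 := ro11_ord hμ hμ0 hl hm ht (Fin.pos_of_ne_zero hi)
    have h2 := (hwd_bd hμ hμ0 c₀ 0).1
    linarith

private theorem ro11_last {μ M : ℤ} (hμ : μ % 2 = 1) (hμ0 : 0 < μ) {c₀ : Bool} {s k : Fin 4 → ℤ}
    (hl : Land μ M c₀ s k) {m : ℤ} (hm : 1 ≤ m) (ht : M - μ - 10 ≤ m) (i : Fin 4) :
    2 * m * s i + fpos μ c₀ k i + hwd μ c₀ i < 8 * m := by
  have h0 : 2 * m * s 3 + fpos μ c₀ k 3 + hwd μ c₀ 3 < 8 * m := by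
    rcases hl.last with h | ⟨h, h'⟩
    · have h1 := ro11_cor hμ hμ0 hl ht 3
      have h3 : 2 * m * s 3 ≤ 2 * m * 3 := mul_le_mul_of_nonneg_left (by omega) (by omega)
      linarith [h1.1, h1.2]
    · rw [h]
      unfold fpos hwd
      split_ifs with hc
      · have h2 : μ * k 3 ≤ μ * (-1) := mul_le_mul_of_nonneg_left (by omega) (by omega)
        omega
      · omega
  by_cases hi : i = 3
  · rw [hi]
    exact h0
  · have hlt : i < 3 := by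
      have h5 := i.isLt
      have h6 : i.val ≠ 3 := fun h7 => hi (Fin.ext h7)
      show i.val < 3
      omega
    have h1 := ro11_ord hμ hμ0 hl hm ht hlt
    have h2 := (hwd_bd hμ hμ0 c₀ 3).1
    linarith

private theorem ro11_rm {μ M : ℤ} (hμ : μ % 2 = 1) (hμ0 : 0 < μ) {c₀ : Bool} {s k : Fin 4 → ℤ}
    (hl : Land μ M c₀ s k) {m : ℤ} (hm : 1 ≤ m) (ht : M - μ - 10 ≤ m) (i : Fin 4)
    (h : rmv (s i) (fpos μ c₀ k i) (tgt c₀ i)) :
    2 * m * s i + fpos μ c₀ k i ≤ 2 * m * tgt c₀ i := by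
  have h1 := ro11_cor hμ hμ0 hl ht i
  have h2 := (hwd_bd hμ hμ0 c₀ i).1
  rcases h with h | ⟨h, h'⟩
  · have h3 : 2 * m * (s i + 1) ≤ 2 * m * tgt c₀ i := mul_le_mul_of_nonneg_left (by omega) (by omega)
    have h4 : 2 * m * (s i + 1) = 2 * m * s i + 2 * m := by ring
    linarith [h1.1, h1.2]
  · rw [h]
    linarith

private theorem ro11_lm {μ M : ℤ} (hμ : μ % 2 = 1) (hμ0 : 0 < μ) {c₀ : Bool} {s k : Fin 4 → ℤ}
    (hl : Land μ M c₀ s k) {m : ℤ} (hm : 1 ≤ m) (ht : M - μ - 10 ≤ m) (i : Fin 4)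
    (h : ¬ rmv (s i) (fpos μ c₀ k i) (tgt c₀ i)) :
    2 * m * tgt c₀ i ≤ 2 * m * s i + fpos μ c₀ k i := by
  have h1 := ro11_cor hμ hμ0 hl ht i
  have h2 := (hwd_bd hμ hμ0 c₀ i).1
  unfold rmv at h
  push Not at h
  obtain ⟨h5, h6⟩ := h
  rcases lt_or_eq_of_le h5 with h7 | h7
  · have h3 : 2 * m * (tgt c₀ i + 1) ≤ 2 * m * s i := mul_le_mul_of_nonneg_left (by omega) (by omega)
    have h4 : 2 * m * (tgt c₀ i + 1) = 2 * m * tgt c₀ i + 2 * m := by ring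
    linarith [h1.1, h1.2]
  · have h8 := h6 h7.symm
    rw [← h7]
    linarith

private theorem ro11_lt {μ M : ℤ} (hμ : μ % 2 = 1) (hμ0 : 0 < μ) {c₀ : Bool} {s k : Fin 4 → ℤ}
    (hl : Land μ M c₀ s k) {m t : ℤ} (hm : 1 ≤ m) (ht : t ≤ 8 → M - μ - 10 ≤ m) {i j : Fin 4}
    (hij : i < j) {x y : ℤ} (hx1 : loi μ c₀ s k i m t ≤ x) (hx2 : x ≤ hii μ c₀ s k i m t)
    (hy1 : loi μ c₀ s k j m t ≤ y) (hy2 : y ≤ hii μ c₀ s k j m t) : rc m x ≠ rc m y := by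
  intro heq
  have hij' : i.val < j.val := hij
  have hj := j.isLt
  have hti : tgt c₀ i = dc c₀ + (i.val : ℤ) := rfl
  have htj : tgt c₀ j = dc c₀ + (j.val : ℤ) := rfl
  have bi := tgt_bd c₀ i
  have bj := tgt_bd c₀ j
  have hyy : 2 * m * tgt c₀ i < 2 * m * tgt c₀ j := by
    have h3 : 2 * m * (tgt c₀ i + 1) ≤ 2 * m * tgt c₀ j := mul_le_mul_of_nonneg_left (by omega) (by omega)
    have h4 : 2 * m * (tgt c₀ i + 1) = 2 * m * tgt c₀ i + 2 * m := by ring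
    linarith
  have hy0 : ∀ l : Fin 4, 0 ≤ 2 * m * tgt c₀ l := fun l =>
    mul_nonneg (by omega) (tgt_bd c₀ l).1
  have hy8 : ∀ l : Fin 4, 2 * m * tgt c₀ l ≤ 8 * m := fun l => by
    have h3 : 2 * m * tgt c₀ l ≤ 2 * m * 4 := mul_le_mul_of_nonneg_left (tgt_bd c₀ l).2 (by omega)
    linarith
  unfold loi at hx1 hy1
  unfold hii at hx2 hy2
  rw [ro11_rki] at hx1 hx2 hy1 hy2
  have key := ord_abs (t := t) (i := (i.val : ℤ)) (j := (j.val : ℤ))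
    (b := decide (rmv (s i) (fpos μ c₀ k i) (tgt c₀ i)))
    (b' := decide (rmv (s j) (fpos μ c₀ k j) (tgt c₀ j)))
    (by omega) (by omega) (by omega) (hwd_bd hμ hμ0 c₀ i).1 (hwd_bd hμ hμ0 c₀ j).1 hyy
    (fun h8 => ro11_ord hμ hμ0 hl hm (ht h8) hij)
    (fun hb h8 => ro11_rm hμ hμ0 hl hm (ht h8) i (of_decide_eq_true hb))
    (fun hb h8 => ro11_lm hμ hμ0 hl hm (ht h8) i (of_decide_eq_false hb))
    (fun hb h8 => ro11_rm hμ hμ0 hl hm (ht h8) j (of_decide_eq_true hb))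
    (fun hb h8 => ro11_lm hμ hμ0 hl hm (ht h8) j (of_decide_eq_false hb))
  have bdi := bnd_abs (t := t) (i := (i.val : ℤ)) (n := 8 * m)
    (b := decide (rmv (s i) (fpos μ c₀ k i) (tgt c₀ i)))
    (by omega) (by omega) (hwd_bd hμ hμ0 c₀ i).1 (hy0 i) (hy8 i)
    (fun h8 => ro11_first hμ hμ0 hl hm (ht h8) i) (fun h8 => ro11_last hμ hμ0 hl hm (ht h8) i)
  have bdj := bnd_abs (t := t) (i := (j.val : ℤ)) (n := 8 * m)
    (b := decide (rmv (s j) (fpos μ c₀ k j) (tgt c₀ j)))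
    (by omega) (by omega) (hwd_bd hμ hμ0 c₀ j).1 (hy0 j) (hy8 j)
    (fun h8 => ro11_first hμ hμ0 hl hm (ht h8) j) (fun h8 => ro11_last hμ hμ0 hl hm (ht h8) j)
  obtain ⟨p1, p2, p3, p4⟩ := bdi
  obtain ⟨q1, q2, q3, q4⟩ := bdj
  have hxy : x < y := lt_of_le_of_lt hx2 (lt_of_lt_of_le key hy1)
  have hx0 : 0 ≤ x := le_trans p1 hx1
  have hy8' : y ≤ 8 * m := le_trans hy2 q2
  obtain ⟨z, hz⟩ := rc_inj hm heq.symm
  have hz1 : 0 < z := by
    by_contra hcon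
    have h5 : 8 * m * z ≤ 0 := mul_nonpos_of_nonneg_of_nonpos (by omega) (by omega)
    omega
  have hz2 : 8 * m * 1 ≤ 8 * m * z := mul_le_mul_of_nonneg_left (by omega) (by omega)
  have hxz : x = 0 := by omega
  have hyz : y = 8 * m := by omega
  have e1 := p3 (le_antisymm (by rw [← hxz]; exact hx1) p1)
  have e2 := q4 (le_antisymm q2 (by rw [← hyz]; exact hy2))
  have e3 : tgt c₀ i = 0 := by
    rcases mul_eq_zero.1 e1 with h | h
    · omega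
    · exact h
  have e4 : tgt c₀ j = 4 := by
    have h5 : 2 * m * (tgt c₀ j - 4) = 0 := by linarith
    rcases mul_eq_zero.1 h5 with h | h
    · omega
    · omega
  omega

/-- THE PATHS USE DIFFERENT CELLS.  `m`: ring of cells, `t`: level (small levels only on large rings).  Let
`x i = 2 m s i + fpos i`, `h i = hwd i`, `y i = 2 m tgt i`.  For `t ≤ 8` we have `|fpos i| + h i < m` (`Land.cor`,
`μ ≥ 1`).  (a) `x i + h i < x j - h j` for `i < j`: `Land.ord`; if `s i < s j` then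
`2 m s i + 2 m ≤ 2 m s j`.  (b) `rmv (s i) (fpos i) (tgt i)` implies `x i ≤ y i`, its negation `y i ≤ x i` (`2 m s ≤ 2 m d - 2 m` if `s < d`).
(c) `0 < x i - h i`: enough for `i = 0` by (a), `Land.first` (`fpos = μ k` with `μ k - μ / 2 > 0` for an open position with `k > 0`).
(d) `x i + h i < 8 m`: enough for `i = 3`, `Land.last`.  By symmetry let `i < j`.  By `ord_abs` `x < y`.  By `bnd_abs` (with
`n = 8 m`) both are in `[0, 8 m]`.  If `rc m x = rc m y` then `8 m` divides `x - y` (`rc_inj`), so `x = 0`, `y = 8 m`, hence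
`tgt c₀ i = 0` and `tgt c₀ j = 4`, but `tgt c₀ j - tgt c₀ i = j - i ≤ 3`.  (`rki` is `rkb (decide (rmv ..)) i`.) -/
theorem idx_disj {μ M : ℤ} (hμ : μ % 2 = 1) (hμ0 : 0 < μ) {c₀ : Bool} {s k : Fin 4 → ℤ}
    (hl : Land μ M c₀ s k) {m t : ℤ} (hm : 1 ≤ m) (ht : t ≤ 8 → M - μ - 10 ≤ m) {i j : Fin 4}
    (hij : i ≠ j) {x y : ℤ} (hx1 : loi μ c₀ s k i m t ≤ x) (hx2 : x ≤ hii μ c₀ s k i m t)
    (hy1 : loi μ c₀ s k j m t ≤ y) (hy2 : y ≤ hii μ c₀ s k j m t) : rc m x ≠ rc m y := by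
  rcases lt_or_gt_of_ne hij with h | h
  · exact ro11_lt hμ hμ0 hl hm ht h hx1 hx2 hy1 hy2
  · exact (ro11_lt hμ hμ0 hl hm ht h hy1 hy2 hx1 hx2).symm

end SC
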