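import Pool.Agent.Lib_MP_e0a489.ROD

/-!
# MP_e0a489, RO 8: cells
-/

set_option autoImplicit false

namespace SC

open Classical

private theorem ro8_ge {w : ℤ} (hw0 : 0 < w) (a x : ℤ) :
    a * w - w / 2 ≤ x ↔ a ≤ (x + w / 2) / w := by
  rw [Int.le_ediv_iff_mul_le hw0]
  constructor <;> intro h <;> linarith

private theorem ro8_le {w : ℤ} (hw : w % 2 = 1) (hw0 : 0 < w) (b x : ℤ) :
    x ≤ b * w + w / 2 ↔ (x + w / 2) / w ≤ b := by
  rw [← Int.lt_add_one_iff (a := (x + w / 2) / w), Int.ediv_lt_iff_lt_mul hw0]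
  have e : (b + 1) * w = b * w + w := by ring
  rw [e]
  generalize b * w = t
  omega

private theorem ro8_neg {w : ℤ} (hw : w % 2 = 1) (hw0 : 0 < w) (y : ℤ) :
    (-y + w / 2) / w = -((y + w / 2) / w) := by
  symm
  apply le_antisymm
  · rw [← ro8_ge hw0, neg_mul]
    have h : y + w / 2 - w + 1 ≤ (y + w / 2) / w * w := by
      have h1 := Int.lt_ediv_add_one_mul_self (y + w / 2) hw0
      have e : ((y + w / 2) / w + 1) * w = (y + w / 2) / w * w + w := by ring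
      rw [e] at h1
      omega
    generalize (y + w / 2) / w * w = t at *
    omega
  · rw [← ro8_le hw hw0, neg_mul]
    have h1 := Int.ediv_mul_le (y + w / 2) (ne_of_gt hw0)
    generalize (y + w / 2) / w * w = t at *
    omega

/-- Division with remainder, `w` odd: `a w - w/2 ≤ x` iff `a ≤ (x + w/2) / w` (`Int.le_ediv_iff_mul_le`), and
`x ≤ b w + w/2` iff `x + w/2 < (b + 1) w` iff `(x + w/2) / w ≤ b` (`Int.ediv_lt_iff_lt_mul`), as `2 (w/2) = w - 1`. -/
theorem cel_rect {w : ℤ} (hw : w % 2 = 1) (hw0 : 0 < w) {a b p q : ℤ} (v : Pt) :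
    v ∈ rect (a * w - w / 2) (b * w + w / 2) (p * w - w / 2) (q * w + w / 2) ↔
      cel w v ∈ rect a b p q := by
  unfold rect cel
  simp only [Set.mem_ofPred_eq]
  rw [ro8_ge hw0, ro8_le hw hw0, ro8_ge hw0, ro8_le hw hw0]

/-- It is enough to treat `s = 1` (`rt_add`, `rt_mod`: cases `s % 4 = 0, 1, 2, 3` with `rt_zero`, `rt_one`, `rt_two`, `rt_three`): `(-y + w/2) / w = -((y + w/2) / w)`
for `w` odd. -/
theorem cel_rt {w : ℤ} (hw : w % 2 = 1) (hw0 : 0 < w) (s : ℤ) (v : Pt) :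
    cel w (rt s v) = rt s (cel w v) := by
  have h1 : ∀ u : Pt, cel w (rt 1 u) = rt 1 (cel w u) := by
    intro u
    rw [rt_one, rt_one]
    unfold cel
    simp only
    rw [ro8_neg hw hw0]
  have h : s % 4 = 0 ∨ s % 4 = 1 ∨ s % 4 = 2 ∨ s % 4 = 3 := by omega
  rcases h with h | h | h | h
  · rw [show rt s = rt 0 from rt_mod (by omega), rt_zero, rt_zero]
  · rw [show rt s = rt 1 from rt_mod (by omega), h1]
  · rw [show rt s = rt (1 + 1) from rt_mod (by omega), rt_add, h1, h1, ← rt_add]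
  · rw [show rt s = rt (1 + (1 + 1)) from rt_mod (by omega), rt_add, rt_add, h1, h1, h1]
    rw [rt_add, rt_add]

/-- `cel_rect`, `cel_rt` -/
theorem cel_rot {w : ℤ} (hw : w % 2 = 1) (hw0 : 0 < w) {s a b p q : ℤ} {v : Pt} :
    v ∈ rt s '' rect (a * w - w / 2) (b * w + w / 2) (p * w - w / 2) (q * w + w / 2) ↔
      cel w v ∈ rt s '' rect a b p q := by
  constructor
  · rintro ⟨u, hu, rfl⟩
    exact ⟨cel w u, (cel_rect hw hw0 u).1 hu, (cel_rt hw hw0 s u).symm⟩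
  · rintro ⟨z, hz, he⟩
    refine ⟨(rt s).symm v, ?_, (rt s).apply_symm_apply v⟩
    rw [cel_rect hw hw0]
    have e : cel w v = rt s (cel w ((rt s).symm v)) := by
      rw [← cel_rt hw hw0, (rt s).apply_symm_apply]
    rw [e] at he
    rw [← (rt s).injective he]
    exact hz

/-- `cel_rect` with `a = p = -M`, `b = q = M` -/
theorem cel_nrm {w : ℤ} (hw : w % 2 = 1) (hw0 : 0 < w) {M : ℤ} {v : Pt} :
    nrm (cel w v) ≤ M ↔ nrm v ≤ M * w + w / 2 := by
  have h := cel_rect hw hw0 (a := -M) (b := M) (p := -M) (q := M) v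
  unfold rect at h
  simp only [Set.mem_ofPred_eq] at h
  unfold nrm
  rw [max_le_iff, max_le_iff, abs_le, abs_le, abs_le, abs_le, ← h]
  rw [show -M * w - w / 2 = -(M * w + w / 2) by ring]

/-- A cell `rt s (m, k)`, `|k| ≤ m`, `1 ≤ m`, is on the ring `m` and has the index `2 m s + k` (`rc_side`, `nrm_rt`). -/
theorem cel_idx {z : Pt} {s a b p q : ℤ} (ha : 1 ≤ a) (hp : -a ≤ p) (hq : q ≤ a)
    (hz : z ∈ rt s '' rect a b p q) : a ≤ nrm z ∧ nrm z ≤ b ∧
      ∃ k, p ≤ k ∧ k ≤ q ∧ rc (nrm z) (2 * nrm z * s + k) = z := by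
  obtain ⟨⟨m, k⟩, hu, rfl⟩ := hz
  obtain ⟨⟨h1, h2⟩, h3, h4⟩ := hu
  simp only at h1 h2 h3 h4
  have hk : |k| ≤ m := abs_le.2 ⟨by omega, by omega⟩
  have hn : nrm (rt s (m, k)) = m := by
    rw [nrm_rt]
    unfold nrm
    simp only
    rw [abs_of_nonneg (by omega : (0 : ℤ) ≤ m)]
    exact max_eq_left hk
  rw [hn]
  exact ⟨h1, h2, k, h3, h4, rc_side (by omega) hk⟩

end SC
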