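import Pool.Agent.Lib_MP_e0a489.RO11
import Pool.Agent.Lib_MP_e0a489.RO8

/-!
# MP_e0a489, RO 12: the cells of the outward paths
-/

set_option autoImplicit false

namespace SC

open Classical

/-- Cells of the first three pieces and of the last piece, general form.  `z` is the cell of a site of the piece, `m = nrm z`.
The four cases are: (1) `z = rt s (m, k)` with `f - h ≤ k ≤ f + h` at a level `t ≤ 0`; (2) `z = rt s (m, f)` at a level `t ≤ ρ`;
(3) `z = rt u (m, k)` on the side `u` of the arc at the level `t = ρ`; (4) `z = rt d (m, 0)` at a level `t ≥ ρ`.  Index `2 m u + k`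
(`cel_idx`).  (1), (2), (4): unfold `lof`, `hif` (`1 ≤ ρ`, `0 ≤ h`).  (3): `lof = min x y`, `hif = max x y` with `x = 2 m s + f`,
`y = 2 m d`; right mover: `ls = s`, `lk = f`, `us = d`, `uk = 0`, and `x ≤ 2 m u + k ≤ y` for `s ≤ u ≤ d`, `sgl ≤ k ≤ sgu`: if `u = s` then `k ≥ f`,
if `u > s` then `2 m u + k ≥ 2 m s + 2 m - m ≥ x`; the upper end is similar; left mover: the roles are exchanged. -/
theorem arc_idx {s f d m u k x : ℤ} (hm : 1 ≤ m) (hf : |f| ≤ m)
    (h1 : (if rmv s f d then s else d) ≤ u) (h2 : u ≤ if rmv s f d then d else s)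
    (h3 : sgl m (if rmv s f d then s else d) (if rmv s f d then f else 0) u ≤ k)
    (h4 : k ≤ sgu m (if rmv s f d then d else s) (if rmv s f d then 0 else f) u)
    (hx : x = 2 * m * u + k) :
    min (2 * m * s + f) (2 * m * d) ≤ x ∧ x ≤ max (2 * m * s + f) (2 * m * d) := by
  have hf1 : -m ≤ f := (abs_le.1 hf).1
  have hf2 : f ≤ m := (abs_le.1 hf).2
  subst hx
  unfold sgl at h3
  unfold sgu at h4
  by_cases hr : rmv s f d
  · rw [if_pos hr] at h1 h2
    rw [if_pos hr, if_pos hr] at h3 h4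
    constructor
    · refine (min_le_left _ _).trans ?_
      by_cases hu : u = s
      · rw [if_pos hu] at h3
        subst hu
        linarith
      · rw [if_neg hu] at h3
        have h5 : s + 1 ≤ u := by omega
        nlinarith [mul_nonneg (sub_nonneg.2 h5) (sub_nonneg.2 hm)]
    · refine le_trans ?_ (le_max_right _ _)
      by_cases hu : u = d
      · rw [if_pos hu] at h4
        subst hu
        linarith
      · rw [if_neg hu] at h4
        have h5 : u + 1 ≤ d := by omega
        nlinarith [mul_nonneg (sub_nonneg.2 h5) (sub_nonneg.2 hm)]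
  · rw [if_neg hr] at h1 h2
    rw [if_neg hr, if_neg hr] at h3 h4
    constructor
    · refine (min_le_right _ _).trans ?_
      by_cases hu : u = d
      · rw [if_pos hu] at h3
        subst hu
        linarith
      · rw [if_neg hu] at h3
        have h5 : d + 1 ≤ u := by omega
        nlinarith [mul_nonneg (sub_nonneg.2 h5) (sub_nonneg.2 hm)]
    · refine le_trans ?_ (le_max_left _ _)
      by_cases hu : u = s
      · rw [if_pos hu] at h4
        subst hu
        linarith
      · rw [if_neg hu] at h4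
        have h5 : u + 1 ≤ s := by omega
        nlinarith [mul_nonneg (sub_nonneg.2 h5) (sub_nonneg.2 hm)]

/-- CELLS OF THE OUTWARD PATHS.  The level of the ring `m` is `m - M - μ`.  Every piece of `(outP ..).reg w` is a rotated
rectangle `rt u '' rect (a w - w/2) (b w + w/2) (p w - w/2) (q w + w/2)` or contained in one (final strip: `b = 2 R'`, as
`2 R' ≤ 2 R' w + w/2`; `-(w/2) = 0 w - w/2`), so the cell of `v` is in `rt u '' rect a b p q` (`cel_rot`) and `cel_idx` gives its ring and index.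
Landing block: rings `M + 1, ..., M + 2h + 1 ≤ M + μ`, levels `≤ 0`; strip: rings `M + 1, ..., M + μ + ρ`, levels `≤ ρ`; arc: ring
`M + μ + ρ`, `arc_idx`; final strip: rings `≥ M + μ + ρ`.  The hypotheses `-a ≤ p`, `q ≤ a` of `cel_idx` follow from `Land.cor`. -/
theorem out_cells {w μ M R' : ℤ} (hw : w % 2 = 1) (hw0 : 0 < w) (hμ : μ % 2 = 1) (hμ0 : 0 < μ)
    {c₀ : Bool} {s k : Fin 4 → ℤ} (hl : Land μ M c₀ s k) (hR' : 0 ≤ R') (i : Fin 4) {v : Pt}
    (hv : v ∈ (outP w μ M R' c₀ s k i).reg w) :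
    M + 1 ≤ nrm (cel w v) ∧
      ∃ x, loi μ c₀ s k i (nrm (cel w v)) (nrm (cel w v) - M - μ) ≤ x ∧
        x ≤ hii μ c₀ s k i (nrm (cel w v)) (nrm (cel w v) - M - μ) ∧
        rc (nrm (cel w v)) x = cel w v := by
  have hcor := hl.cor i
  obtain ⟨hh0, hh1⟩ := hwd_bd hμ hμ0 c₀ i
  obtain ⟨hr1, hr8⟩ := rki_bd μ c₀ s k i
  unfold loi hii
  obtain ⟨f, hf⟩ : ∃ f, f = fpos μ c₀ k i := ⟨_, rfl⟩
  obtain ⟨h, hh⟩ : ∃ h, h = hwd μ c₀ i := ⟨_, rfl⟩
  obtain ⟨ρ, hρ⟩ : ∃ ρ, ρ = rki μ c₀ s k i := ⟨_, rfl⟩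
  obtain ⟨d, hd⟩ : ∃ d, d = tgt c₀ i := ⟨_, rfl⟩
  have hreg : (outP w μ M R' c₀ s k i).reg w =
      rt (s i) '' rect ((M + 1) * w - w / 2) ((M + 2 * h + 1) * w + w / 2)
        ((f - h) * w - w / 2) ((f + h) * w + w / 2) ∪
      rt (s i) '' rect ((M + 1) * w - w / 2) ((M + μ + ρ) * w + w / 2)
        (f * w - w / 2) (f * w + w / 2) ∪
      arcReg w (M + μ + ρ) (if rmv (s i) f d then s i else d) (if rmv (s i) f d then f else 0)
        (if rmv (s i) f d then d else s i) (if rmv (s i) f d then 0 else f) ∪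
      rt d '' rect ((M + μ + ρ) * w - w / 2) (2 * R') (-(w / 2)) (w / 2) := by
    rw [hf, hh, hρ, hd]
    rfl
  rw [hreg] at hv
  rw [← hf] at hcor
  rw [← hh] at hh0 hh1
  rw [← hρ] at hr1 hr8
  rw [← hf, ← hh, ← hρ, ← hd]
  have hf1 : -|f| ≤ f := neg_abs_le f
  have hf2 : f ≤ |f| := le_abs_self f
  clear hreg
  rcases hv with ((hv | hv) | hv) | hv
  · rw [cel_rot hw hw0] at hv
    obtain ⟨h1, h2, κ, h3, h4, h5⟩ := cel_idx (by omega) (by omega) (by omega) hv
    refine ⟨h1, 2 * nrm (cel w v) * s i + κ, ?_, ?_, h5⟩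
    · unfold lof
      rw [if_pos (by omega)]
      linarith
    · unfold hif
      rw [if_pos (by omega)]
      linarith
  · rw [cel_rot hw hw0] at hv
    obtain ⟨h1, h2, κ, h3, h4, h5⟩ := cel_idx (by omega) (by omega) (by omega) hv
    have hκ : κ = f := le_antisymm h4 h3
    subst hκ
    refine ⟨h1, 2 * nrm (cel w v) * s i + κ, ?_, ?_, h5⟩
    · unfold lof
      split_ifs with h6 h7 h8
      · linarith
      · exact le_refl _
      · exact min_le_left _ _
      · omega
    · unfold hif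
      split_ifs with h6 h7 h8
      · linarith
      · exact le_refl _
      · exact le_max_left _ _
      · omega
  · obtain ⟨u, hu1, hu2, hv⟩ := hv
    rw [cel_rot hw hw0] at hv
    have hlk : -(M + μ + ρ) ≤ sgl (M + μ + ρ) (if rmv (s i) f d then s i else d)
        (if rmv (s i) f d then f else 0) u := by
      unfold sgl
      split_ifs <;> omega
    have huk : sgu (M + μ + ρ) (if rmv (s i) f d then d else s i)
        (if rmv (s i) f d then 0 else f) u ≤ M + μ + ρ := by
      unfold sgu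
      split_ifs <;> omega
    obtain ⟨h1, h2, κ, h3, h4, h5⟩ := cel_idx (by omega) hlk huk hv
    have hm : nrm (cel w v) = M + μ + ρ := le_antisymm h2 h1
    have hidx := arc_idx (s := s i) (f := f) (d := d) (m := M + μ + ρ) (u := u) (k := κ)
      (x := 2 * (M + μ + ρ) * u + κ) (by omega) (abs_le.2 ⟨by omega, by omega⟩) hu1 hu2 h3 h4 rfl
    rw [hm] at h5 ⊢
    refine ⟨by omega, 2 * (M + μ + ρ) * u + κ, ?_, ?_, h5⟩
    · unfold lof
      rw [if_neg (by omega), if_neg (by omega), if_pos (by omega)]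
      exact hidx.1
    · unfold hif
      rw [if_neg (by omega), if_neg (by omega), if_pos (by omega)]
      exact hidx.2
  · have hv' : v ∈ rt d '' rect ((M + μ + ρ) * w - w / 2) ((2 * R') * w + w / 2)
        (0 * w - w / 2) (0 * w + w / 2) := by
      refine Set.image_mono ?_ hv
      intro z hz
      obtain ⟨⟨h1, h2⟩, h3, h4⟩ := hz
      have h5 : 2 * R' ≤ 2 * R' * w := by nlinarith
      have h6 : 0 ≤ w / 2 := by omega
      exact ⟨⟨h1, by linarith⟩, by linarith, by linarith⟩
    rw [cel_rot hw hw0] at hv'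
    obtain ⟨h1, h2, κ, h3, h4, h5⟩ := cel_idx (by omega) (by omega) (by omega) hv'
    have hκ : κ = 0 := le_antisymm h4 h3
    subst hκ
    rw [add_zero] at h5
    refine ⟨by omega, 2 * nrm (cel w v) * d, ?_, ?_, h5⟩
    · unfold lof
      rw [if_neg (by omega), if_neg (by omega)]
      split_ifs with h8
      · exact min_le_right _ _
      · exact le_refl _
    · unfold hif
      rw [if_neg (by omega), if_neg (by omega)]
      split_ifs with h8
      · exact le_max_right _ _
      · exact le_refl _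

/-- `out_cells` for `i` and `j`, `idx_disj` with `t = m - M - μ` (`m ≥ M + 1`; `M ≥ 20` by `Land.cor`). -/
theorem out_disj {w μ M R' : ℤ} (hw : w % 2 = 1) (hw0 : 0 < w) (hμ : μ % 2 = 1) (hμ0 : 0 < μ)
    {c₀ : Bool} {s k : Fin 4 → ℤ} (hl : Land μ M c₀ s k) (hR' : 0 ≤ R') {i j : Fin 4}
    (hij : i ≠ j) :
    Disjoint ((outP w μ M R' c₀ s k i).reg w) ((outP w μ M R' c₀ s k j).reg w) := by
  rw [Set.disjoint_left]
  intro v hvi hvj
  obtain ⟨h1, x, hx1, hx2, hx3⟩ := out_cells hw hw0 hμ hμ0 hl hR' i hvi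
  obtain ⟨_, y, hy1, hy2, hy3⟩ := out_cells hw hw0 hμ hμ0 hl hR' j hvj
  have hcor := hl.cor i
  have habs := abs_nonneg (fpos μ c₀ k i)
  exact idx_disj hμ hμ0 hl (by omega) (fun _ => by omega) hij hx1 hx2 hy1 hy2 (hx3.trans hy3.symm)

end SC
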