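import Pool.Agent.Lib_MP_e0a489.RO12

/-!
# MP_e0a489, RO 13: the cells of the inward paths
-/

set_option autoImplicit false

namespace SC

open Classical

private theorem ro13_A {x y h ρ t z : ℤ} (ht : t ≤ 0) (h1 : x - h ≤ z) (h2 : z ≤ x + h) :
    lof x y h ρ t ≤ z ∧ z ≤ hif x y h ρ t := by
  unfold lof hif
  rw [if_pos ht, if_pos ht]
  exact ⟨h1, h2⟩

private theorem ro13_B {x y h ρ t : ℤ} (ht : t ≤ ρ) (hh : 0 ≤ h) :
    lof x y h ρ t ≤ x ∧ x ≤ hif x y h ρ t := by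
  unfold lof hif
  split_ifs
  · omega
  · omega
  · exact ⟨min_le_left _ _, le_max_left _ _⟩
  · omega

private theorem ro13_C {x y h ρ z : ℤ} (hρ : 1 ≤ ρ) (h1 : min x y ≤ z) (h2 : z ≤ max x y) :
    lof x y h ρ ρ ≤ z ∧ z ≤ hif x y h ρ ρ := by
  unfold lof hif
  rw [if_neg (by omega), if_neg (by omega), if_pos rfl, if_neg (by omega), if_neg (by omega),
    if_pos rfl]
  exact ⟨h1, h2⟩

private theorem ro13_D {x y h ρ t : ℤ} (ht : ρ ≤ t) (hρ : 1 ≤ ρ) :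
    lof x y h ρ t ≤ y ∧ y ≤ hif x y h ρ t := by
  unfold lof hif
  split_ifs
  · omega
  · omega
  · exact ⟨min_le_right _ _, le_max_right _ _⟩
  · omega

/-- CELLS OF THE INWARD PATHS.  The level of the ring `m` is `M + 1 - μ - m`.  Same proof as `out_cells`: landing block: rings
`M - 2h ≥ M - μ + 1, ..., M`, levels `≤ 0`; strip: rings `M + 1 - μ - ρ, ..., M`, levels `≤ ρ`; arc: ring `M + 1 - μ - ρ` (`arc_idx`);
final strip: contained in `rt d '' rect (1 w - w/2) (m w + w/2) (0 w - w/2) (0 w + w/2)`, because `r' / 2 + 1 ≥ w - w/2`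
(`2 w ≤ r'`), rings between `1` and `M + 1 - μ - ρ`, levels `≥ ρ`. -/
theorem in_cells {w μ M r' : ℤ} (hw : w % 2 = 1) (hw0 : 0 < w) (hμ : μ % 2 = 1) (hμ0 : 0 < μ)
    {c₀ : Bool} {s k : Fin 4 → ℤ} (hl : Land μ M c₀ s k) (hr' : 2 * w ≤ r') (i : Fin 4) {v : Pt}
    (hv : v ∈ (inP w μ M r' c₀ s k i).reg w) :
    1 ≤ nrm (cel w v) ∧ nrm (cel w v) ≤ M ∧
      ∃ x, loi μ c₀ s k i (nrm (cel w v)) (M + 1 - μ - nrm (cel w v)) ≤ x ∧
        x ≤ hii μ c₀ s k i (nrm (cel w v)) (M + 1 - μ - nrm (cel w v)) ∧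
        rc (nrm (cel w v)) x = cel w v := by
  have hcor := hl.cor i
  obtain ⟨hh0, hh1⟩ := hwd_bd hμ hμ0 c₀ i
  obtain ⟨hr1, hr8⟩ := rki_bd μ c₀ s k i
  have hf := abs_le.1 (le_refl |fpos μ c₀ k i|)
  unfold loi hii
  unfold Pth.reg at hv
  simp only [inP] at hv
  rcases hv with ((hv | hv) | hv) | hv
  · -- landing block
    have hz := (cel_rot hw hw0).1 hv
    obtain ⟨z1, z2, k', k1, k2, hk⟩ := cel_idx (by omega) (by omega) (by omega) hz
    refine ⟨by omega, z2, _, ?_, ?_, hk⟩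
    · exact (ro13_A (by omega) (by linarith) (by linarith)).1
    · exact (ro13_A (by omega) (by linarith) (by linarith)).2
  · -- first strip
    have hz := (cel_rot hw hw0).1 hv
    obtain ⟨z1, z2, k', k1, k2, hk⟩ := cel_idx (by omega) (by omega) (by omega) hz
    have hk' : k' = fpos μ c₀ k i := by omega
    subst hk'
    exact ⟨by omega, z2, _, (ro13_B (by omega) hh0).1, (ro13_B (by omega) hh0).2, hk⟩
  · -- arc
    obtain ⟨u, hu1, hu2, hv⟩ := hv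
    have hz := (cel_rot hw hw0).1 hv
    unfold Pth.ls at hu1 hz
    unfold Pth.us at hu2 hz
    unfold Pth.lk Pth.uk at hz
    simp only at hu1 hu2 hz
    have hm0 : 1 ≤ M + 1 - μ - rki μ c₀ s k i := by omega
    have hfm : |fpos μ c₀ k i| ≤ M + 1 - μ - rki μ c₀ s k i := by omega
    have hfm' := abs_le.1 hfm
    obtain ⟨z1, z2, k', k1, k2, hk⟩ := cel_idx hm0
      (by unfold sgl; split_ifs <;> omega) (by unfold sgu; split_ifs <;> omega) hz
    have hm : nrm (cel w v) = M + 1 - μ - rki μ c₀ s k i := le_antisymm z2 z1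
    have ht : M + 1 - μ - nrm (cel w v) = rki μ c₀ s k i := by omega
    rw [ht]
    have ha := arc_idx (x := 2 * nrm (cel w v) * u + k') hm0 hfm hu1 hu2 k1 k2 (by rw [hm])
    rw [← hm] at ha
    exact ⟨by omega, by omega, _, (ro13_C hr1 ha.1 ha.2).1, (ro13_C hr1 ha.1 ha.2).2, hk⟩
  · -- final strip
    have hv' : v ∈ rt (tgt c₀ i) '' rect (1 * w - w / 2)
        ((M + 1 - μ - rki μ c₀ s k i) * w + w / 2) (0 * w - w / 2) (0 * w + w / 2) := by
      obtain ⟨x, ⟨⟨x1, x2⟩, x3, x4⟩, rfl⟩ := hv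
      exact ⟨x, ⟨⟨by omega, x2⟩, by omega, by omega⟩, rfl⟩
    have hz := (cel_rot hw hw0).1 hv'
    obtain ⟨z1, z2, k', k1, k2, hk⟩ := cel_idx (le_refl 1) (by omega) (by omega) hz
    have hk' : k' = 0 := by omega
    subst hk'
    rw [add_zero] at hk
    refine ⟨z1, by omega, _, (ro13_D (by omega) hr1).1, (ro13_D (by omega) hr1).2, hk⟩

/-- `in_cells` for `i` and `j`, `idx_disj` with `t = M + 1 - μ - m`: `t ≤ 8` means `m ≥ M - μ - 7`. -/
theorem in_disj {w μ M r' : ℤ} (hw : w % 2 = 1) (hw0 : 0 < w) (hμ : μ % 2 = 1) (hμ0 : 0 < μ)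
    {c₀ : Bool} {s k : Fin 4 → ℤ} (hl : Land μ M c₀ s k) (hr' : 2 * w ≤ r') {i j : Fin 4}
    (hij : i ≠ j) :
    Disjoint ((inP w μ M r' c₀ s k i).reg w) ((inP w μ M r' c₀ s k j).reg w) := by
  rw [Set.disjoint_left]
  intro v hi hj
  obtain ⟨a1, a2, x, x1, x2, hx⟩ := in_cells hw hw0 hμ hμ0 hl hr' i hi
  obtain ⟨b1, b2, y, y1, y2, hy⟩ := in_cells hw hw0 hμ hμ0 hl hr' j hj
  exact idx_disj hμ hμ0 hl a1 (by omega) hij x1 x2 y1 y2 (hx.trans hy.symm)

end SC
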