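import Pool.Agent.Lib_MP_e0a489.ROD

/-!
# MP_e0a489, RO 14: the arms cross their landing blocks radially
-/

set_option autoImplicit false

namespace SC

open Classical

namespace Lat

variable {L : Lat}

private theorem nrm_step14 {u v : Pt} (h : L.Adj u v) : nrm v ≤ nrm u + 1 := by
  obtain ⟨h1, h2⟩ := h.near
  have e1 : |v.1| ≤ |u.1| + 1 := by
    have h3 := abs_sub_abs_le_abs_sub v.1 u.1
    rw [abs_sub_comm v.1] at h3
    omega
  have e2 : |v.2| ≤ |u.2| + 1 := by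
    have h3 := abs_sub_abs_le_abs_sub v.2 u.2
    rw [abs_sub_comm v.2] at h3
    omega
  unfold nrm
  refine max_le ?_ ?_
  · exact e1.trans (add_le_add_left (le_max_left _ _) _)
  · exact e2.trans (add_le_add_left (le_max_right _ _) _)

/-- bounds for the radial coordinate of a site with a small coordinate along the side -/
private theorem nrm_cases14 {w : Pt} {a N : ℤ} (ha : 0 < a) (h1 : a ≤ w.1) (h2 : -N < w.2)
    (h3 : w.2 < N) : w.1 ≤ nrm w ∧ (N ≤ nrm w → nrm w = w.1) := by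
  unfold nrm
  rw [abs_of_nonneg (by omega : (0 : ℤ) ≤ w.1)]
  have h4 : |w.2| < N := abs_lt.2 ⟨h2, h3⟩
  refine ⟨le_max_left _ _, fun h => ?_⟩
  rcases le_total |w.2| w.1 with h5 | h5
  · exact max_eq_left h5
  · rw [max_eq_right h5] at h
    omega

/-- OUTWARD.  Let `x`, `y` be the ends of the arm, `A` its domain (of colour `c`), `K = {v | Cn A x v}` (`con_cluster`).
`nrm x ≤ r + 1 ≤ R` (`x` has a neighbour in `bx r`, `Adj.near`), `nrm y = R + ℓ > R`.  `Cn.last` with `S = bx R`: `p ∈ bx R`,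
`Adj p q`, `Cn (A \ bx R) q y`, and `A \ bx R ⊆ B := rt s '' rect (R + 1) (R + ℓ) p q`.  `Q = {v | Cn (A \ bx R) q v} ⊆ K` (`p` is joined to `x`?
not needed: `q` is joined to `y`, and `y` to `x`).  `q ∈ B` has a neighbour in `bx R`, so `nrm q ≤ R + 1` and its radial coordinate
is `R + 1`; `y ∈ B` has norm `R + ℓ`, its coordinate along the side is smaller than `R` in absolute value, so its radial
coordinate is `R + ℓ` (`nrm_rt`). -/
theorem ro_arm_out {c : Bool} {r R ℓ s p q : ℤ} (hrR : r < R) (hℓ : 1 ≤ ℓ) (hp : -R < p)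
    (hq : q < R) (hR : 0 < R) {ω : Cfg}
    (h : L.Arm c (ann r R ∪ rt s '' rect (R + 1) (R + ℓ) p q) (L.nb (bx r))
      (rt s '' rect (R + 1) (R + ℓ) p q ∩ rng (R + ℓ)) ω) :
    ∃ K, L.Con K ∧ K ⊆ (ann r R ∪ rt s '' rect (R + 1) (R + ℓ) p q) ∩ L.col c ω ∧
      (∃ x ∈ K, x ∈ L.nb (bx r)) ∧ ∃ Q, Q ⊆ K ∧ L.Rad s (R + 1) (R + ℓ) p q Q := by
  obtain ⟨x, hx, y, hy, hxy⟩ := h
  obtain ⟨u, hu, hux⟩ := hx
  have hxr : nrm x ≤ r + 1 := (nrm_step14 hux).trans (add_le_add_left hu _)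
  have hyB := hy.1
  have hyR : nrm y = R + ℓ := hy.2
  obtain ⟨a, b, -, haS, hab, hby⟩ := hxy.last (S := bx R)
    (show nrm x ≤ R by omega) (show ¬ nrm y ≤ R by omega)
  have haR : nrm a ≤ R := haS
  have hbR : nrm b ≤ R + 1 := (nrm_step14 hab).trans (add_le_add_left haR _)
  set A : Set Pt := (ann r R ∪ rt s '' rect (R + 1) (R + ℓ) p q) ∩ L.col c ω with hA
  have hsub : ∀ v, v ∈ A \ bx R → v ∈ rt s '' rect (R + 1) (R + ℓ) p q := by
    intro v hv
    rcases hv.1.1 with h | h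
    · exact absurd h.2 hv.2
    · exact h
  refine ⟨{v | L.Cn A x v}, con_cluster A x, fun v hv => Cn.right hv,
    ⟨x, Cn.refl hxy.left, u, hu, hux⟩, {v | L.Cn (A \ bx R) b v}, ?_, con_cluster _ b,
    fun v hv => hsub v (Cn.right hv), ?_, ?_⟩
  · intro v hv
    exact hxy.trans ((hby.symm.trans hv).mono Set.sdiff_subset)
  · obtain ⟨w, hw, hwb⟩ := hsub b hby.left
    have hn : nrm b = nrm w := by rw [← hwb, nrm_rt]
    have h1 := nrm_cases14 (N := R) (by omega : (0 : ℤ) < R + 1) hw.1.1 (hp.trans_le hw.2.1)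
      (hw.2.2.trans_lt hq)
    have h2 := hw.1.1
    refine ⟨w.2, ?_⟩
    have e : w = (R + 1, w.2) := by
      refine Prod.ext ?_ rfl
      show w.1 = R + 1
      omega
    rw [← e, hwb]
    exact Cn.refl hby.left
  · obtain ⟨w, hw, hwy⟩ := hyB
    have hn : nrm y = nrm w := by rw [← hwy, nrm_rt]
    have h1 := nrm_cases14 (N := R) (by omega : (0 : ℤ) < R + 1) hw.1.1 (hp.trans_le hw.2.1)
      (hw.2.2.trans_lt hq)
    refine ⟨w.2, ?_⟩
    have h3 := h1.2 (by omega)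
    have e : w = (R + ℓ, w.2) := by
      refine Prod.ext ?_ rfl
      show w.1 = R + ℓ
      omega
    rw [← e, hwy]
    exact hby

/-- INWARD.  `x ∈ B := rt s '' rect (r - ℓ + 1) r p q` has norm `r - ℓ + 1`, so its radial coordinate is `r - ℓ + 1`.  `y ∈ Y` has norm
`> r`.  `Cn.exit` with `S = bx r`: `Cn (A ∩ bx r) x p`, `Adj p q`, `q ∉ bx r`; `A ∩ bx r ⊆ B` (the sites of `ann r R` and `J`
have norm `> r`), so `p ∈ B`, `nrm p ≥ r` (`Adj.near`), its coordinate along the side is smaller than `r` in absolute value and its radial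
coordinate is between `r - ℓ + 1 ≥ 1` and `r`, so it is `r`.  `Q = {v | Cn (A ∩ bx r) x v}`, `K = {v | Cn A x v}`. -/
theorem ro_arm_in {c : Bool} {r R ℓ s p q : ℤ} {J Y : Set Pt} (hℓ : 1 ≤ ℓ) (hℓr : ℓ ≤ r)
    (hp : -r < p) (hq : q < r) (hJ : ∀ v ∈ J, r < nrm v) (hY : ∀ v ∈ Y, r < nrm v) {ω : Cfg}
    (h : L.Arm c (ann r R ∪ J ∪ rt s '' rect (r - ℓ + 1) r p q)
      (rt s '' rect (r - ℓ + 1) r p q ∩ rng (r - ℓ + 1)) Y ω) :
    ∃ K, L.Con K ∧ K ⊆ (ann r R ∪ J ∪ rt s '' rect (r - ℓ + 1) r p q) ∩ L.col c ω ∧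
      (∃ y ∈ K, y ∈ Y) ∧ ∃ Q, Q ⊆ K ∧ L.Rad s (r - ℓ + 1) r p q Q := by
  obtain ⟨x, hx, y, hy, hxy⟩ := h
  have hxB := hx.1
  have hxr : nrm x = r - ℓ + 1 := hx.2
  have hyr := hY y hy
  obtain ⟨a, b, hxa, hab, -, hbS⟩ := hxy.exit (S := bx r)
    (show nrm x ≤ r by omega) (show ¬ nrm y ≤ r by omega)
  have hbr : r < nrm b := not_le.1 hbS
  have har : r ≤ nrm a := by
    have := nrm_step14 hab
    omega
  set A : Set Pt := (ann r R ∪ J ∪ rt s '' rect (r - ℓ + 1) r p q) ∩ L.col c ω with hA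
  have hsub : ∀ v, v ∈ A ∩ bx r → v ∈ rt s '' rect (r - ℓ + 1) r p q := by
    intro v hv
    have hv2 : nrm v ≤ r := hv.2
    rcases hv.1.1 with (h | h) | h
    · exact absurd h.1 (not_lt.2 hv2)
    · exact absurd (hJ v h) (not_lt.2 hv2)
    · exact h
  refine ⟨{v | L.Cn A x v}, con_cluster A x, fun v hv => Cn.right hv,
    ⟨y, hxy, hy⟩, {v | L.Cn (A ∩ bx r) x v}, ?_, con_cluster _ x,
    fun v hv => hsub v (Cn.right hv), ?_, ?_⟩
  · intro v hv
    exact Cn.mono hv Set.inter_subset_left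
  · obtain ⟨w, hw, hwx⟩ := hxB
    have hn : nrm x = nrm w := by rw [← hwx, nrm_rt]
    have h1 := nrm_cases14 (N := r) (by omega : (0 : ℤ) < r - ℓ + 1) hw.1.1 (hp.trans_le hw.2.1)
      (hw.2.2.trans_lt hq)
    have h2 := hw.1.1
    refine ⟨w.2, ?_⟩
    have e : w = (r - ℓ + 1, w.2) := by
      refine Prod.ext ?_ rfl
      show w.1 = r - ℓ + 1
      omega
    rw [← e, hwx]
    exact Cn.refl hxa.left
  · obtain ⟨w, hw, hwa⟩ := hsub a hxa.right
    have hn : nrm a = nrm w := by rw [← hwa, nrm_rt]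
    have h1 := nrm_cases14 (N := r) (by omega : (0 : ℤ) < r - ℓ + 1) hw.1.1 (hp.trans_le hw.2.1)
      (hw.2.2.trans_lt hq)
    have h3 := h1.2 (by omega)
    have h4 := hw.1.2
    refine ⟨w.2, ?_⟩
    have e : w = (r, w.2) := by
      refine Prod.ext ?_ rfl
      show w.1 = r
      omega
    rw [← e, hwa]
    exact hxa

end Lat

end SC
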