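import Pool.Agent.Lib_MP_e0a489.RO1

/-!
# MP_e0a489, RO 4: probability of the crossings along an arc
-/

set_option autoImplicit false

namespace SC

open Classical

/-- `ArcE` is the conjunction over `t ∈ Finset.Icc s s'` (at most `5` sides) of the events `PX`; each has probability
at least `κ N` (`RSW.prPX`: width `(m w + w/2) - (m w - w/2) = w - 1 ≥ 4`, `w` odd; length
`(sgu - sgl) w + 2 (w/2) ≤ 2 m w + w - 1 ≤ N (w - 1)`; it is `≥ 0` because `sgl ≤ sgu` on every side, for `s < s'` as well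
as for `s = s'`).  `pr_harris_mon`, and `0 < κ N ≤ 1`, so the product of at most five factors `≥ κ N` is at least `(κ N)^5`. -/
theorem arc_pr {L : Lat} {κ : ℕ → ℝ} (h : RSW L κ) (c : Bool) {w m s k s' k' : ℤ} {N : ℕ}
    (hw : w % 2 = 1) (hw5 : 5 ≤ w) (hm : 0 ≤ m) (hk : |k| ≤ m) (hk' : |k'| ≤ m) (hs : 0 ≤ s)
    (hs' : s' ≤ 4) (hss : s < s' ∨ (s = s' ∧ k ≤ k')) (hN : 1 ≤ N)
    (hn : (2 * m + 1) * w ≤ N * (w - 1)) : κ N ^ 5 ≤ pr (L.ArcE c w m s k s' k') := by
  have hk1 := abs_le.1 hk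
  have hk2 := abs_le.1 hk'
  have hκ : 0 < κ N := h.pos N
  have hev : (fun ω => ∀ t ∈ Finset.Icc s s', L.PX c t (m * w - w / 2) (m * w + w / 2)
      (sgl m s k t * w - w / 2) (sgu m s' k' t * w + w / 2) ω) = L.ArcE c w m s k s' k' := by
    funext ω
    refine propext ⟨fun H t h1 h2 => H t (Finset.mem_Icc.2 ⟨h1, h2⟩), fun H t ht => ?_⟩
    exact H t (Finset.mem_Icc.1 ht).1 (Finset.mem_Icc.1 ht).2
  have hfac : ∀ t ∈ Finset.Icc s s', κ N ≤ pr (L.PX c t (m * w - w / 2) (m * w + w / 2)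
      (sgl m s k t * w - w / 2) (sgu m s' k' t * w + w / 2)) := by
    intro t ht
    obtain ⟨h1, h2⟩ := Finset.mem_Icc.1 ht
    have hle : sgl m s k t ≤ sgu m s' k' t := by
      unfold sgl sgu
      split_ifs <;> omega
    have hlen : sgu m s' k' t - sgl m s k t ≤ 2 * m := by
      unfold sgl sgu
      split_ifs <;> omega
    have hw0 : 0 < w := by omega
    have e1 : sgl m s k t * w ≤ sgu m s' k' t * w := mul_le_mul_of_nonneg_right hle hw0.le
    have e2 : (sgu m s' k' t - sgl m s k t) * w ≤ 2 * m * w :=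
      mul_le_mul_of_nonneg_right hlen hw0.le
    have e3 : m * w + w / 2 - (m * w - w / 2) = w - 1 := by omega
    refine h.prPX hN c (by omega) (by omega) ?_
    rw [e3]
    refine le_trans ?_ hn
    have e4 : (sgu m s' k' t - sgl m s k t) * w = sgu m s' k' t * w - sgl m s k t * w := by ring
    have e5 : (2 * m + 1) * w = 2 * m * w + w := by ring
    rw [e4] at e2
    rw [e5]
    omega
  have hss' : s ≤ s' := by omega
  have hκ1 : κ N ≤ 1 := (hfac s (Finset.mem_Icc.2 ⟨le_rfl, hss'⟩)).trans (pr_le_one _)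
  have hcard : (Finset.Icc s s').card ≤ 5 := by
    rw [Int.card_Icc]
    omega
  have key := pr_harris_mon (I := Finset.Icc s s') c
    (fun t _ => Lat.PX.loc L c t (m * w - w / 2) (m * w + w / 2)
      (sgl m s k t * w - w / 2) (sgu m s' k' t * w + w / 2))
    (fun t _ => Lat.PX.mon L c t (m * w - w / 2) (m * w + w / 2)
      (sgl m s k t * w - w / 2) (sgu m s' k' t * w + w / 2))
  rw [hev] at key
  refine le_trans ?_ key
  calc κ N ^ 5 ≤ κ N ^ (Finset.Icc s s').card := pow_le_pow_of_le_one hκ.le hκ1 hcard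
    _ = ∏ _t ∈ Finset.Icc s s', κ N := by rw [Finset.prod_const]
    _ ≤ _ := Finset.prod_le_prod (fun _ _ => hκ.le) hfac

end SC
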