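import Pool.Agent.Lib_MP_e0a489.LD

/-!
# MP_e0a489, module RO, definitions

A ROUTED PATH (for one arm) consists of four pieces: a crossing of the landing block parallel to the side, a radial
strip above (outward case) or below (inward case) the landing block, an arc of the ring of cells number
`m`, and a final radial strip on the line in the middle of the side `d`.
The radial strips and the landing block are rotated rectangles `rt s '' rect a b p q`; first coordinate =
radial coordinate, second coordinate = coordinate along the side.  `RX`: crossing in the radial direction,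
`PX`: crossing parallel to the side.  The arc is a union of at most five long rectangles, one for each side.
-/

set_option autoImplicit false

namespace SC

open Classical

namespace Lat

/-- radial crossing of colour `c` of the rotated rectangle `rt s '' rect a b p q` -/
def RX (L : Lat) (c : Bool) (s a b p q : ℤ) (ω : Cfg) : Prop :=
  (L.rots s).HX c a b p q (via (rt s) ω)

/-- crossing of colour `c` of the rotated rectangle `rt s '' rect a b p q` parallel to the side -/
def PX (L : Lat) (c : Bool) (s a b p q : ℤ) (ω : Cfg) : Prop :=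
  (L.rots s).VX c a b p q (via (rt s) ω)

/-- `Q` is a radial crossing set of `rt s '' rect a b p q` -/
def Rad (L : Lat) (s a b p q : ℤ) (Q : Set Pt) : Prop :=
  L.Con Q ∧ Q ⊆ rt s '' rect a b p q ∧ (∃ y, rt s (a, y) ∈ Q) ∧ ∃ y, rt s (b, y) ∈ Q

/-- `Q` is a crossing set of `rt s '' rect a b p q` parallel to the side -/
def Par (L : Lat) (s a b p q : ℤ) (Q : Set Pt) : Prop :=
  L.Con Q ∧ Q ⊆ rt s '' rect a b p q ∧ (∃ x, rt s (x, p) ∈ Q) ∧ ∃ x, rt s (x, q) ∈ Q

end Lat

/-! ### Arcs of a ring of cells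

The arc from the position `(s, k)` (side, cell number) to the position `(s', k')` on the ring of cells `m`:
on the side `t`, `s ≤ t ≤ s'`, the cells number `sgl m s k t, ..., sgu m s' k' t`. -/

/-- lowest cell on the side `t` -/
def sgl (m s k t : ℤ) : ℤ := if t = s then k else -m

/-- highest cell on the side `t` -/
def sgu (m s' k' t : ℤ) : ℤ := if t = s' then k' else m

/-- the sites of the arc -/
def arcReg (w m s k s' k' : ℤ) : Set Pt :=
  {v | ∃ t, s ≤ t ∧ t ≤ s' ∧ v ∈ rt t '' rect (m * w - w / 2) (m * w + w / 2)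
    (sgl m s k t * w - w / 2) (sgu m s' k' t * w + w / 2)}

/-- crossings along the arc -/
def Lat.ArcE (L : Lat) (c : Bool) (w m s k s' k' : ℤ) (ω : Cfg) : Prop :=
  ∀ t, s ≤ t → t ≤ s' → L.PX c t (m * w - w / 2) (m * w + w / 2)
    (sgl m s k t * w - w / 2) (sgu m s' k' t * w + w / 2) ω

/-! ### Routed paths -/

/-- right mover: the target `(d, 0)` comes after the position `(s, f)` -/
def rmv (s f d : ℤ) : Prop := s < d ∨ (s = d ∧ f < 0)

/-- parameters of a routed path: side `s`, fine cell `f` and half width `h` of the landing block, target side `d`,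
ring `m` of the arc, radial ranges `[a1, b1]` of the landing block, `[a2, b2]` of the first strip, `[a4, b4]` of
the final strip -/
structure Pth where
  s : ℤ
  f : ℤ
  h : ℤ
  d : ℤ
  m : ℤ
  a1 : ℤ
  b1 : ℤ
  a2 : ℤ
  b2 : ℤ
  a4 : ℤ
  b4 : ℤ

namespace Pth

/-- lower end of the arc: side -/
noncomputable def ls (P : Pth) : ℤ := if rmv P.s P.f P.d then P.s else P.d

/-- lower end of the arc: cell -/
noncomputable def lk (P : Pth) : ℤ := if rmv P.s P.f P.d then P.f else 0

/-- upper end of the arc: side -/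
noncomputable def us (P : Pth) : ℤ := if rmv P.s P.f P.d then P.d else P.s

/-- upper end of the arc: cell -/
noncomputable def uk (P : Pth) : ℤ := if rmv P.s P.f P.d then 0 else P.f

/-- the sites used by the path -/
noncomputable def reg (P : Pth) (w : ℤ) : Set Pt :=
  rt P.s '' rect P.a1 P.b1 ((P.f - P.h) * w - w / 2) ((P.f + P.h) * w + w / 2) ∪
    rt P.s '' rect P.a2 P.b2 (P.f * w - w / 2) (P.f * w + w / 2) ∪
    arcReg w P.m P.ls P.lk P.us P.uk ∪ rt P.d '' rect P.a4 P.b4 (-(w / 2)) (w / 2)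

/-- conditions: the pieces of the path overlap, the aspect ratios are at most `N` -/
structure Ok (P : Pth) (w : ℤ) (N : ℕ) : Prop where
  s0 : 0 ≤ P.s
  s4 : P.s ≤ 4
  d0 : 0 ≤ P.d
  d4 : P.d ≤ 4
  h0 : 0 ≤ P.h
  m1 : 1 ≤ P.m
  fm : |P.f| ≤ P.m
  ab1 : P.b1 - P.a1 = (2 * P.h + 1) * w - 1
  a21 : P.a2 ≤ P.a1
  b12 : P.b1 ≤ P.b2
  a2m : P.a2 ≤ P.m * w - w / 2
  b2m : P.m * w + w / 2 ≤ P.b2
  a4m : P.a4 ≤ P.m * w - w / 2
  b4m : P.m * w + w / 2 ≤ P.b4
  n1 : 1 ≤ N
  n2 : P.b2 - P.a2 ≤ N * (w - 1)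
  n3 : (2 * P.m + 1) * w ≤ N * (w - 1)
  n4 : P.b4 - P.a4 ≤ N * (w - 1)

end Pth

/-- the path event -/
def Lat.PathE (L : Lat) (c : Bool) (w : ℤ) (P : Pth) (ω : Cfg) : Prop :=
  L.PX c P.s P.a1 P.b1 ((P.f - P.h) * w - w / 2) ((P.f + P.h) * w + w / 2) ω ∧
    L.RX c P.s P.a2 P.b2 (P.f * w - w / 2) (P.f * w + w / 2) ω ∧
    L.ArcE c w P.m P.ls P.lk P.us P.uk ω ∧ L.RX c P.d P.a4 P.b4 (-(w / 2)) (w / 2) ω

/-! ### The four paths -/

/-- target side of the arm `i` -/
def tgt (c₀ : Bool) (i : Fin 4) : ℤ := dc c₀ + (i.val : ℤ)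

/-- level of the arc of the arm `i`: right movers `4 - i`, left movers `5 + i` -/
noncomputable def rki (μ : ℤ) (c₀ : Bool) (s k : Fin 4 → ℤ) (i : Fin 4) : ℤ :=
  if rmv (s i) (fpos μ c₀ k i) (tgt c₀ i) then 4 - (i.val : ℤ) else 5 + (i.val : ℤ)

/-- path of the arm `i` outward; `M` = number of fine rings in `bx R` -/
noncomputable def outP (w μ M R' : ℤ) (c₀ : Bool) (s k : Fin 4 → ℤ) (i : Fin 4) : Pth where
  s := s i
  f := fpos μ c₀ k i
  h := hwd μ c₀ i
  d := tgt c₀ i
  m := M + μ + rki μ c₀ s k i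
  a1 := (M + 1) * w - w / 2
  b1 := (M + 2 * hwd μ c₀ i + 1) * w + w / 2
  a2 := (M + 1) * w - w / 2
  b2 := (M + μ + rki μ c₀ s k i) * w + w / 2
  a4 := (M + μ + rki μ c₀ s k i) * w - w / 2
  b4 := 2 * R'

/-- path of the arm `i` inward -/
noncomputable def inP (w μ M r' : ℤ) (c₀ : Bool) (s k : Fin 4 → ℤ) (i : Fin 4) : Pth where
  s := s i
  f := fpos μ c₀ k i
  h := hwd μ c₀ i
  d := tgt c₀ i
  m := M + 1 - μ - rki μ c₀ s k i
  a1 := (M - 2 * hwd μ c₀ i) * w - w / 2
  b1 := M * w + w / 2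
  a2 := (M + 1 - μ - rki μ c₀ s k i) * w - w / 2
  b2 := M * w + w / 2
  a4 := r' / 2 + 1
  b4 := (M + 1 - μ - rki μ c₀ s k i) * w + w / 2

/-! ### Cells and indices

`cel w v`: number of the fine block that contains `v`.  On the ring of cells `m` at the level `t` the path
of the arm `i` uses the cells with indices in `[loi, hii]`. -/

/-- the cell of a site -/
def cel (w : ℤ) (v : Pt) : Pt := ((v.1 + w / 2) / w, (v.2 + w / 2) / w)

/-- lowest index, `x` = index of the position, `y` = index of the target, `ρ` = level of the arc -/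
def lof (x y h ρ t : ℤ) : ℤ :=
  if t ≤ 0 then x - h else if t < ρ then x else if t = ρ then min x y else y

/-- highest index -/
def hif (x y h ρ t : ℤ) : ℤ :=
  if t ≤ 0 then x + h else if t < ρ then x else if t = ρ then max x y else y

noncomputable def loi (μ : ℤ) (c₀ : Bool) (s k : Fin 4 → ℤ) (i : Fin 4) (m t : ℤ) : ℤ :=
  lof (2 * m * s i + fpos μ c₀ k i) (2 * m * tgt c₀ i) (hwd μ c₀ i) (rki μ c₀ s k i) t

noncomputable def hii (μ : ℤ) (c₀ : Bool) (s k : Fin 4 → ℤ) (i : Fin 4) (m t : ℤ) : ℤ :=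
  hif (2 * m * s i + fpos μ c₀ k i) (2 * m * tgt c₀ i) (hwd μ c₀ i) (rki μ c₀ s k i) t

end SC
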