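import Pool.Agent.Lib_MP_e0a489.SE8

/-!
# MP_e0a489, module SE 10: extension of arms through strips, all directions

Rotated versions of SE 8: apply them to the lattice `L.rots s`, the configuration `via (rt s) ω` and the sets
`(rt s).symm '' D` etc.  `Tr.arm (tr_rots L s)`; `rt s '' Zn t a b h = Zn (s + t) a b h` (`rt_add`), `Tr.nb`, `nrm_rt`; for the strip
events `SX_iff`, `SY_iff` (or `Tr.arm` again).
-/

set_option autoImplicit false

namespace SC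

open Classical

private theorem rt_img10 (s t : ℤ) (A : Set Pt) : rt s '' (rt t '' A) = rt (s + t) '' A := by
  rw [Set.image_image]
  exact Set.image_congr fun v _ => (rt_add s t v).symm

theorem rt_Zn (s t a b h : ℤ) : rt s '' Zn t a b h = Zn (s + t) a b h :=
  rt_img10 s t _

theorem Jc_of {c : Bool} {s : ℤ} (hs : s = dc c ∨ s = dc c + 2) (R : ℤ) :
    J s R ∪ J (s + 2) R = Jc c R := by
  rcases hs with rfl | rfl
  · rfl
  · have h4 : J (dc c + 2 + 2) R = J (dc c) R := by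
      rw [J_eq, J_eq]
      exact Zn_mod (by omega) _ _ _
    rw [h4, Set.union_comm]
    rfl

theorem Kc_of {c : Bool} {s : ℤ} (hs : s = dc c ∨ s = dc c + 2) (r : ℤ) :
    K s r ∪ K (s + 2) r = Kc c r := by
  rcases hs with rfl | rfl
  · rfl
  · have h4 : K (dc c + 2 + 2) r = K (dc c) r := by
      rw [K_eq, K_eq]
      exact Zn_mod (by omega) _ _ _
    rw [h4, Set.union_comm]
    rfl

private theorem symm_img10 (s : ℤ) (D : Set Pt) : rt s '' ((rt s).symm '' D) = D := by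
  rw [Set.image_image]
  simp only [Equiv.apply_symm_apply, Set.image_id']

private theorem nrm_symm10 (s : ℤ) (v : Pt) : nrm ((rt s).symm v) = nrm v := by
  rw [← nrm_rt s, Equiv.apply_symm_apply]

private theorem img_J10 (s R : ℤ) : rt s '' (J 0 R ∪ J 2 R) = J s R ∪ J (s + 2) R := by
  rw [Set.image_union, J_eq, J_eq, J_eq, J_eq, rt_Zn, rt_Zn, add_zero]

private theorem img_K10 (s r : ℤ) : rt s '' (K 0 r ∪ K 2 r) = K s r ∪ K (s + 2) r := by
  rw [Set.image_union, K_eq, K_eq, K_eq, K_eq, rt_Zn, rt_Zn, add_zero]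

private theorem img_Zn10 (s a b h : ℤ) : rt s '' Zn 0 a b h = Zn s a b h := by
  rw [rt_Zn, add_zero]

private theorem img_Zlo10 (s a b h : ℤ) : rt s '' Zlo 0 a b h = Zlo s a b h := by
  unfold Zlo
  rw [rt_img10, add_zero]

private theorem img_Zhi10 (s a b h : ℤ) : rt s '' Zhi 0 a b h = Zhi s a b h := by
  unfold Zhi
  rw [rt_img10, add_zero]

namespace Lat

variable {L : Lat} {c : Bool} {ω : Cfg}

private theorem SX_tr10 (s a b h : ℤ) :
    (L.rots s).SX c 0 a b h (via (rt s) ω) ↔ L.SX c s a b h ω := by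
  unfold SX
  rw [(tr_rots L s).arm, img_Zn10, img_Zn10, img_Zn10]

private theorem SY_tr10 (s a b h : ℤ) :
    (L.rots s).SY c 0 a b h (via (rt s) ω) ↔ L.SY c s a b h ω := by
  unfold SY
  rw [(tr_rots L s).arm, img_Zn10, img_Zlo10, img_Zhi10]

private theorem bx_symm10 {s R : ℤ} {D : Set Pt} (hD : D ⊆ bx R) : (rt s).symm '' D ⊆ bx R := by
  rintro _ ⟨v, hv, rfl⟩
  show nrm ((rt s).symm v) ≤ R
  rw [nrm_symm10]
  exact hD hv

private theorem nrm_symm_lt10 {s r : ℤ} {D : Set Pt} (hD : ∀ v ∈ D, r < nrm v) :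
    ∀ v ∈ (rt s).symm '' D, r < nrm v := by
  rintro _ ⟨v, hv, rfl⟩
  rw [nrm_symm10]
  exact hD v hv

private theorem img_bx10 (s R : ℤ) : rt s '' bx R = bx R := by
  ext v
  constructor
  · rintro ⟨w, hw, rfl⟩
    show nrm (rt s w) ≤ R
    rw [nrm_rt]
    exact hw
  · intro hv
    refine ⟨(rt s).symm v, ?_, Equiv.apply_symm_apply _ v⟩
    show nrm ((rt s).symm v) ≤ R
    rw [nrm_symm10]
    exact hv

private theorem nb_symm10 {s R : ℤ} {X : Set Pt} (hX : X ⊆ bx R ∪ L.nb (bx R)) :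
    (rt s).symm '' X ⊆ bx R ∪ (L.rots s).nb (bx R) := by
  rintro _ ⟨v, hv, rfl⟩
  have h1 : rt s '' (bx R ∪ (L.rots s).nb (bx R)) = bx R ∪ L.nb (bx R) := by
    rw [Set.image_union, (tr_rots L s).nb, img_bx10]
  have h2 := hX hv
  rw [← h1] at h2
  obtain ⟨w, hw, rfl⟩ := h2
  rw [Equiv.symm_apply_apply]
  exact hw

theorem arm_out {s : ℤ} (hs : s = dc c ∨ s = dc c + 2) {D X : Set Pt} {R b : ℤ} (hR : 16 ≤ R)
    (hb : 2 * R ≤ b) (hD : D ⊆ bx R) (hX : X ⊆ bx R ∪ L.nb (bx R))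
    (h : L.Arm c (D ∪ Jc c R) X (Je s R) ω) (h1 : L.SY c s (R + 1) (2 * R) (R / 4) ω)
    (h2 : L.SX c s (R + 1) b (R / 4) ω) :
    L.Arm c (D ∪ Jc c R ∪ Zn s (R + 1) b (R / 4)) X (Zn s b b (R / 4)) ω := by
  have h' : (L.rots s).Arm c ((rt s).symm '' D ∪ (J 0 R ∪ J 2 R)) ((rt s).symm '' X) (Je 0 R)
      (via (rt s) ω) := by
    rw [(tr_rots L s).arm, Set.image_union, symm_img10, symm_img10, img_J10, Je_eq, img_Zn10,
      Jc_of hs, ← Je_eq]
    exact h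
  have key := arm_out0 hR hb (bx_symm10 (s := s) hD) (nb_symm10 (s := s) hX) h'
    ((SY_tr10 s _ _ _).2 h1) ((SX_tr10 s _ _ _).2 h2)
  rw [(tr_rots L s).arm, Set.image_union, Set.image_union, symm_img10, symm_img10, img_J10,
    img_Zn10, img_Zn10, Jc_of hs] at key
  exact key

theorem arm_in {s : ℤ} (hs : s = dc c ∨ s = dc c + 2) {D Y : Set Pt} {r a w : ℤ} (hr : 16 ≤ r)
    (ha : a ≤ r / 2 + 1) (hw : 0 ≤ w) (hw' : w ≤ r / 8) (hD : ∀ v ∈ D, r < nrm v)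
    (hY : ∀ v ∈ Y, r < nrm v) (h : L.Arm c (D ∪ Kc c r) (Ks s r) Y ω)
    (h1 : L.SY c s (r / 2 + 1) r (r / 8) ω) (h2 : L.SX c s a r w ω) :
    L.Arm c (D ∪ Kc c r ∪ Zn s a r w) (Zn s a a w) Y ω := by
  have h' : (L.rots s).Arm c ((rt s).symm '' D ∪ (K 0 r ∪ K 2 r)) (Ks 0 r) ((rt s).symm '' Y)
      (via (rt s) ω) := by
    rw [(tr_rots L s).arm, Set.image_union, symm_img10, symm_img10, img_K10, Ks_eq, img_Zn10,
      Kc_of hs, ← Ks_eq]
    exact h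
  have key := arm_in0 hr ha hw hw' (nrm_symm_lt10 (s := s) hD) (nrm_symm_lt10 (s := s) hY) h'
    ((SY_tr10 s _ _ _).2 h1) ((SX_tr10 s _ _ _).2 h2)
  rw [(tr_rots L s).arm, Set.image_union, Set.image_union, symm_img10, symm_img10, img_K10,
    img_Zn10, img_Zn10, Kc_of hs] at key
  exact key

theorem arm_glue {s : ℤ} (hs : s = dc c ∨ s = dc c + 2) {D X D' Y : Set Pt} {ρ ρ' : ℤ}
    (hρ : 16 ≤ ρ) (h8 : 8 * ρ ≤ ρ') (hD : D ⊆ bx ρ) (hX : X ⊆ bx ρ ∪ L.nb (bx ρ))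
    (hD' : ∀ v ∈ D', ρ' < nrm v) (hY : ∀ v ∈ Y, ρ' < nrm v)
    (h : L.Arm c (D ∪ Jc c ρ) X (Je s ρ) ω) (h' : L.Arm c (D' ∪ Kc c ρ') (Ks s ρ') Y ω)
    (h1 : L.SY c s (ρ + 1) (2 * ρ) (ρ / 4) ω) (h2 : L.SY c s (ρ' / 2 + 1) ρ' (ρ' / 8) ω)
    (h3 : L.SX c s (ρ + 1) ρ' (ρ / 4) ω) :
    L.Arm c (D ∪ Jc c ρ ∪ (D' ∪ Kc c ρ') ∪ Zn s (ρ + 1) ρ' (ρ / 4)) X Y ω := by
  have k : (L.rots s).Arm c ((rt s).symm '' D ∪ (J 0 ρ ∪ J 2 ρ)) ((rt s).symm '' X) (Je 0 ρ)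
      (via (rt s) ω) := by
    rw [(tr_rots L s).arm, Set.image_union, symm_img10, symm_img10, img_J10, Je_eq, img_Zn10,
      Jc_of hs, ← Je_eq]
    exact h
  have k' : (L.rots s).Arm c ((rt s).symm '' D' ∪ (K 0 ρ' ∪ K 2 ρ')) (Ks 0 ρ')
      ((rt s).symm '' Y) (via (rt s) ω) := by
    rw [(tr_rots L s).arm, Set.image_union, symm_img10, symm_img10, img_K10, Ks_eq, img_Zn10,
      Kc_of hs, ← Ks_eq]
    exact h'
  have key := arm_glue0 hρ h8 (bx_symm10 (s := s) hD) (nb_symm10 (s := s) hX)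
    (nrm_symm_lt10 (s := s) hD') (nrm_symm_lt10 (s := s) hY) k k'
    ((SY_tr10 s _ _ _).2 h1) ((SY_tr10 s _ _ _).2 h2) ((SX_tr10 s _ _ _).2 h3)
  rw [(tr_rots L s).arm, Set.image_union, Set.image_union,
    Set.image_union _ ((rt s).symm '' D) (J 0 ρ ∪ J 2 ρ),
    Set.image_union _ ((rt s).symm '' D') (K 0 ρ' ∪ K 2 ρ'),
    symm_img10, symm_img10, symm_img10, symm_img10, img_J10, img_K10, img_Zn10, Jc_of hs,
    Kc_of hs] at key
  exact key

end Lat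

end SC
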