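import Pool.Agent.Lib_MP_e0a489.SE3
import Pool.Agent.Lib_MP_e0a489.TE3

/-!
# MP_e0a489, module SE 7: extension of arms through strips, direction 0 and general direction

Strip events: `SX c s a b h` radial crossing, `SY c s a b h` perpendicular crossing of the rotated rectangle `Zn s a b h`.
-/

set_option autoImplicit false

namespace SC

open Classical

namespace Lat

/-- radial crossing of colour `c` of `Zn s a b h` -/
def SX (L : Lat) (c : Bool) (s a b h : ℤ) (ω : Cfg) : Prop :=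
  L.Arm c (Zn s a b h) (Zn s a a h) (Zn s b b h) ω

/-- perpendicular crossing of colour `c` of `Zn s a b h` -/
def SY (L : Lat) (c : Bool) (s a b h : ℤ) (ω : Cfg) : Prop :=
  L.Arm c (Zn s a b h) (Zlo s a b h) (Zhi s a b h) ω

variable {L : Lat} {c : Bool} {ω : Cfg}

/-- `Tr.arm` for `tr_rots`: in the rotated lattice the events are `HX`, `VX` of `rect a b (-h) h`. -/
theorem SX_iff (s a b h : ℤ) :
    L.SX c s a b h ω ↔ (L.rots s).HX c a b (-h) h (via (rt s) ω) := by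
  have h1 := (tr_rots L s).arm c (rect a b (-h) h) (rect a a (-h) h) (rect b b (-h) h) ω
  refine Iff.trans (Iff.symm h1) ?_
  constructor
  · rintro ⟨u, hu, v, hv, hc⟩
    exact ⟨u, v, le_antisymm hu.1.2 hu.1.1, le_antisymm hv.1.2 hv.1.1, hc⟩
  · rintro ⟨u, v, hu, hv, hc⟩
    have hu' : u ∈ rect a b (-h) h := hc.left.1
    have hv' : v ∈ rect a b (-h) h := hc.right.1
    exact ⟨u, ⟨⟨hu'.1.1, hu.le⟩, hu'.2⟩, v, ⟨⟨hv.ge, hv'.1.2⟩, hv'.2⟩, hc⟩

theorem SY_iff (s a b h : ℤ) :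
    L.SY c s a b h ω ↔ (L.rots s).VX c a b (-h) h (via (rt s) ω) := by
  have h1 := (tr_rots L s).arm c (rect a b (-h) h) (rect a b (-h) (-h)) (rect a b h h) ω
  refine Iff.trans (Iff.symm h1) ?_
  constructor
  · rintro ⟨u, hu, v, hv, hc⟩
    exact ⟨u, v, le_antisymm hu.2.2 hu.2.1, le_antisymm hv.2.2 hv.2.1, hc⟩
  · rintro ⟨u, v, hu, hv, hc⟩
    have hu' : u ∈ rect a b (-h) h := hc.left.1
    have hv' : v ∈ rect a b (-h) h := hc.right.1
    exact ⟨u, ⟨hu'.1, hu'.2.1, hu.le⟩, v, ⟨hv'.1, hv.ge, hv'.2.2⟩, hc⟩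

theorem SX_dep (L : Lat) (c : Bool) (s a b h : ℤ) : Dep (L.SX c s a b h) (Zn s a b h) := by
  exact Arm.dep L c _ _ _

theorem SY_dep (L : Lat) (c : Bool) (s a b h : ℤ) : Dep (L.SY c s a b h) (Zn s a b h) := by
  exact Arm.dep L c _ _ _

theorem SX_loc (L : Lat) (c : Bool) (s a b h : ℤ) : Loc (L.SX c s a b h) := by
  exact Arm.loc L c _ _ _ (Zn_finite s a b h)

theorem SY_loc (L : Lat) (c : Bool) (s a b h : ℤ) : Loc (L.SY c s a b h) := by
  exact Arm.loc L c _ _ _ (Zn_finite s a b h)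

theorem SX_mon (L : Lat) (c : Bool) (s a b h : ℤ) : MonC c (L.SX c s a b h) := by
  exact Arm.mon L c _ _ _

theorem SY_mon (L : Lat) (c : Bool) (s a b h : ℤ) : MonC c (L.SY c s a b h) := by
  exact Arm.mon L c _ _ _

/-- `RSW.rots`, `RSW.hx'`, `pr_via` -/
theorem SX_pr {κ : ℕ → ℝ} (hL : RSW L κ) {k : ℕ} (hk : 1 ≤ k) (c : Bool) (s : ℤ) {a b h : ℤ}
    (hab : a ≤ b) (hh : 2 ≤ h) (hr : b - a ≤ k * (2 * h)) : κ k ≤ pr (L.SX c s a b h) := by
  have h1 := (hL.rots s).hx' hk c (a := a) (b := b) (p := -h) (q := h) hab (by linarith)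
    (by have h2 : h - -h = 2 * h := by ring
        rw [h2]
        exact hr)
  have h2 : L.SX c s a b h = fun ω => (L.rots s).HX c a b (-h) h (via (rt s) ω) := by
    funext ω
    exact propext (SX_iff s a b h)
  rw [h2, pr_via (Lat.HX.loc (L.rots s) c a b (-h) h) (rt s)]
  exact h1

theorem SY_pr {κ : ℕ → ℝ} (hL : RSW L κ) {k : ℕ} (hk : 1 ≤ k) (c : Bool) (s : ℤ) {a b h : ℤ}
    (hab : 4 ≤ b - a) (hh : 0 ≤ h) (hr : 2 * h ≤ k * (b - a)) : κ k ≤ pr (L.SY c s a b h) := by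
  have h1 := (hL.rots s).vx' hk c (a := a) (b := b) (p := -h) (q := h) (by linarith) hab
    (by have h2 : h - -h = 2 * h := by ring
        rw [h2]
        exact hr)
  have h2 : L.SY c s a b h = fun ω => (L.rots s).VX c a b (-h) h (via (rt s) ω) := by
    funext ω
    exact propext (SY_iff s a b h)
  rw [h2, pr_via (Lat.VX.loc (L.rots s) c a b (-h) h) (rt s)]
  exact h1

end Lat

end SC
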