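import Pool.Agent.Lib_MP_e0a489.PB3
import Pool.Agent.Lib_MP_e0a489.SE7

/-!
# MP_e0a489, module SE 11: strips events and their probability, territory
-/

set_option autoImplicit false

namespace SC

open Classical

namespace Lat

/-- outward strips of colour `c` from `J s R` to the distance `b s` -/
def HkO (L : Lat) (c : Bool) (R : ℤ) (b : ℤ → ℤ) (ω : Cfg) : Prop :=
  ∀ s, (s = dc c ∨ s = dc c + 2) →
    L.SY c s (R + 1) (2 * R) (R / 4) ω ∧ L.SX c s (R + 1) (b s) (R / 4) ω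

/-- inward strips of colour `c` from `K s r` to the distance `a`, half width `w` -/
def HkI (L : Lat) (c : Bool) (r a w : ℤ) (ω : Cfg) : Prop :=
  ∀ s, (s = dc c ∨ s = dc c + 2) →
    L.SY c s (r / 2 + 1) r (r / 8) ω ∧ L.SX c s a r w ω

/-- strips for gluing -/
def HkG (L : Lat) (c : Bool) (ρ ρ' : ℤ) (ω : Cfg) : Prop :=
  ∀ s, (s = dc c ∨ s = dc c + 2) →
    L.SY c s (ρ + 1) (2 * ρ) (ρ / 4) ω ∧ L.SY c s (ρ' / 2 + 1) ρ' (ρ' / 8) ω ∧
      L.SX c s (ρ + 1) ρ' (ρ / 4) ω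

end Lat

/-! ### private helpers -/

private theorem se11_mon_and {c : Bool} {A B : Cfg → Prop} (hA : MonC c A) (hB : MonC c B) :
    MonC c (fun ω => A ω ∧ B ω) := by
  cases c with
  | true =>
    have hA' : Inc A := hA
    have hB' : Inc B := hB
    have h : Inc (fun ω => A ω ∧ B ω) := fun ω ω' h hh => ⟨hA' ω ω' h hh.1, hB' ω ω' h hh.2⟩
    exact h
  | false =>
    have hA' : Dec A := by
      unfold MonC at hA
      rwa [if_neg (by decide)] at hA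
    have hB' : Dec B := by
      unfold MonC at hB
      rwa [if_neg (by decide)] at hB
    have h : Dec (fun ω => A ω ∧ B ω) := fun ω ω' h hh => ⟨hA' ω ω' h hh.1, hB' ω ω' h hh.2⟩
    unfold MonC
    rwa [if_neg (by decide)]

private theorem se11_harris {c : Bool} {A B : Cfg → Prop} (lA : Loc A) (lB : Loc B)
    (hA : MonC c A) (hB : MonC c B) : pr A * pr B ≤ pr (fun ω => A ω ∧ B ω) := by
  cases c with
  | true =>
    have hA' : Inc A := hA
    have hB' : Inc B := hB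
    exact pr_harris lA lB hA' hB'
  | false =>
    have hA' : Dec A := by
      unfold MonC at hA
      rwa [if_neg (by decide)] at hA
    have hB' : Dec B := by
      unfold MonC at hB
      rwa [if_neg (by decide)] at hB
    exact pr_harris_dec lA lB hA' hB'

private theorem se11_forall (P : ℤ → Cfg → Prop) (c : Bool) :
    (fun ω => ∀ s, (s = dc c ∨ s = dc c + 2) → P s ω) =
      fun ω => P (dc c) ω ∧ P (dc c + 2) ω := by
  funext ω
  refine propext ⟨fun h => ⟨h _ (Or.inl rfl), h _ (Or.inr rfl)⟩, ?_⟩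
  rintro ⟨h1, h2⟩ s (rfl | rfl)
  · exact h1
  · exact h2

private theorem se11_dep {P : ℤ → Cfg → Prop} {c : Bool} {D : Set Pt}
    (h : ∀ s, (s = dc c ∨ s = dc c + 2) → Dep (P s) D) :
    Dep (fun ω => ∀ s, (s = dc c ∨ s = dc c + 2) → P s ω) D := by
  intro ω ω' hw
  refine propext ⟨fun H s hs => ?_, fun H s hs => ?_⟩
  · have h1 : P s ω = P s ω' := h s hs ω ω' hw
    rw [← h1]
    exact H s hs
  · have h1 : P s ω = P s ω' := h s hs ω ω' hw
    rw [h1]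
    exact H s hs

private theorem se11_dep_and {A B : Cfg → Prop} {D : Set Pt} (hA : Dep A D) (hB : Dep B D) :
    Dep (fun ω => A ω ∧ B ω) D := by
  intro ω ω' hw
  have h1 : A ω = A ω' := hA ω ω' hw
  have h2 : B ω = B ω' := hB ω ω' hw
  show (A ω ∧ B ω) = (A ω' ∧ B ω')
  rw [h1, h2]

private theorem se11_mon {P : ℤ → Cfg → Prop} {c : Bool} (h : ∀ s, MonC c (P s)) :
    MonC c (fun ω => ∀ s, (s = dc c ∨ s = dc c + 2) → P s ω) := by
  rw [se11_forall P c]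
  exact se11_mon_and (h _) (h _)

private theorem se11_pr {P : ℤ → Cfg → Prop} {c : Bool} {q : ℝ} (hq : 0 ≤ q)
    (lP : ∀ s, Loc (P s)) (mP : ∀ s, MonC c (P s)) (hP : ∀ s, q ≤ pr (P s)) :
    q * q ≤ pr (fun ω => ∀ s, (s = dc c ∨ s = dc c + 2) → P s ω) := by
  rw [se11_forall P c]
  exact le_trans (mul_le_mul (hP _) (hP _) hq (pr_nonneg _))
    (se11_harris (lP _) (lP _) (mP _) (mP _))

/-- territories of the strips -/
def tO (c : Bool) (R : ℤ) (b : ℤ → ℤ) : Set Pt :=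
  {v | ∃ s, (s = dc c ∨ s = dc c + 2) ∧ v ∈ Zn s (R + 1) (b s) (R / 4)}

def tI (c : Bool) (r a w : ℤ) : Set Pt :=
  {v | ∃ s, (s = dc c ∨ s = dc c + 2) ∧ (v ∈ Zn s (r / 2 + 1) r (r / 8) ∨ v ∈ Zn s a r w)}

def tG (c : Bool) (ρ ρ' : ℤ) : Set Pt :=
  {v | ∃ s, (s = dc c ∨ s = dc c + 2) ∧
    (v ∈ Zn s (ρ + 1) ρ' (ρ / 4) ∨ v ∈ Zn s (ρ' / 2 + 1) ρ' (ρ' / 8))}

namespace Lat

theorem HkO_dep (L : Lat) (c : Bool) {R : ℤ} {b : ℤ → ℤ} (hb : ∀ s, 2 * R ≤ b s) :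
    Dep (L.HkO c R b) (tO c R b) := by
  refine se11_dep (P := fun s ω =>
    L.SY c s (R + 1) (2 * R) (R / 4) ω ∧ L.SX c s (R + 1) (b s) (R / 4) ω) fun s hs => ?_
  refine se11_dep_and ?_ ?_
  · exact (SY_dep L c s _ _ _).mono fun v hv =>
      ⟨s, hs, Zn_mono le_rfl (hb s) le_rfl hv⟩
  · exact (SX_dep L c s _ _ _).mono fun v hv => ⟨s, hs, hv⟩

theorem HkI_dep (L : Lat) (c : Bool) (r a w : ℤ) : Dep (L.HkI c r a w) (tI c r a w) := by
  refine se11_dep (P := fun s ω =>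
    L.SY c s (r / 2 + 1) r (r / 8) ω ∧ L.SX c s a r w ω) fun s hs => ?_
  refine se11_dep_and ?_ ?_
  · exact (SY_dep L c s _ _ _).mono fun v hv => ⟨s, hs, Or.inl hv⟩
  · exact (SX_dep L c s _ _ _).mono fun v hv => ⟨s, hs, Or.inr hv⟩

theorem HkG_dep (L : Lat) (c : Bool) {ρ ρ' : ℤ} (h : 2 * ρ ≤ ρ') :
    Dep (L.HkG c ρ ρ') (tG c ρ ρ') := by
  refine se11_dep (P := fun s ω =>
    L.SY c s (ρ + 1) (2 * ρ) (ρ / 4) ω ∧ L.SY c s (ρ' / 2 + 1) ρ' (ρ' / 8) ω ∧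
      L.SX c s (ρ + 1) ρ' (ρ / 4) ω) fun s hs => ?_
  refine se11_dep_and ?_ (se11_dep_and ?_ ?_)
  · exact (SY_dep L c s _ _ _).mono fun v hv => ⟨s, hs, Or.inl (Zn_mono le_rfl h le_rfl hv)⟩
  · exact (SY_dep L c s _ _ _).mono fun v hv => ⟨s, hs, Or.inr hv⟩
  · exact (SX_dep L c s _ _ _).mono fun v hv => ⟨s, hs, Or.inl hv⟩

theorem HkO_mon (L : Lat) (c : Bool) (R : ℤ) (b : ℤ → ℤ) : MonC c (L.HkO c R b) :=
  se11_mon (P := fun s ω =>
    L.SY c s (R + 1) (2 * R) (R / 4) ω ∧ L.SX c s (R + 1) (b s) (R / 4) ω)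
    fun s => se11_mon_and (SY_mon L c s _ _ _) (SX_mon L c s _ _ _)

theorem HkI_mon (L : Lat) (c : Bool) (r a w : ℤ) : MonC c (L.HkI c r a w) :=
  se11_mon (P := fun s ω => L.SY c s (r / 2 + 1) r (r / 8) ω ∧ L.SX c s a r w ω)
    fun s => se11_mon_and (SY_mon L c s _ _ _) (SX_mon L c s _ _ _)

theorem HkG_mon (L : Lat) (c : Bool) (ρ ρ' : ℤ) : MonC c (L.HkG c ρ ρ') :=
  se11_mon (P := fun s ω =>
    L.SY c s (ρ + 1) (2 * ρ) (ρ / 4) ω ∧ L.SY c s (ρ' / 2 + 1) ρ' (ρ' / 8) ω ∧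
      L.SX c s (ρ + 1) ρ' (ρ / 4) ω)
    fun s => se11_mon_and (SY_mon L c s _ _ _)
      (se11_mon_and (SY_mon L c s _ _ _) (SX_mon L c s _ _ _))

/-- Harris (`pr_harris_mon`) for the four events, `SY_pr`, `SX_pr` with `k = 2000`. -/
theorem HkO_pr {L : Lat} {κ : ℕ → ℝ} (hL : RSW L κ) (c : Bool) {R : ℤ} {b : ℤ → ℤ} (hR : 16 ≤ R)
    (hb : ∀ s, 2 * R ≤ b s) (hb' : ∀ s, b s ≤ 128 * R) : κ 2000 ^ 4 ≤ pr (L.HkO c R b) := by
  have hκ := hL.pos 2000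
  have h := se11_pr (c := c) (q := κ 2000 * κ 2000) (P := fun s ω =>
    L.SY c s (R + 1) (2 * R) (R / 4) ω ∧ L.SX c s (R + 1) (b s) (R / 4) ω) (by positivity)
    (fun s => Loc.and (SY_loc L c s _ _ _) (SX_loc L c s _ _ _))
    (fun s => se11_mon_and (SY_mon L c s _ _ _) (SX_mon L c s _ _ _)) (fun s => by
      refine le_trans ?_ (se11_harris (SY_loc L c s _ _ _) (SX_loc L c s _ _ _)
        (SY_mon L c s _ _ _) (SX_mon L c s _ _ _))
      have hb1 := hb s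
      have hb2 := hb' s
      exact mul_le_mul
        (SY_pr hL (by norm_num) c s (by omega) (by omega) (by push_cast; omega))
        (SX_pr hL (by norm_num) c s (by omega) (by omega) (by push_cast; omega)) hκ.le
        (pr_nonneg _))
  calc κ 2000 ^ 4 = κ 2000 * κ 2000 * (κ 2000 * κ 2000) := by ring
    _ ≤ _ := h

theorem HkI_pr {L : Lat} {κ : ℕ → ℝ} (hL : RSW L κ) (c : Bool) {r a w : ℤ} (hr : 16 ≤ r)
    (ha : a ≤ r) (hw : 2 ≤ w) (hw' : r - a ≤ 4000 * w) : κ 2000 ^ 4 ≤ pr (L.HkI c r a w) := by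
  have hκ := hL.pos 2000
  have h := se11_pr (c := c) (q := κ 2000 * κ 2000) (P := fun s ω =>
    L.SY c s (r / 2 + 1) r (r / 8) ω ∧ L.SX c s a r w ω) (by positivity)
    (fun s => Loc.and (SY_loc L c s _ _ _) (SX_loc L c s _ _ _))
    (fun s => se11_mon_and (SY_mon L c s _ _ _) (SX_mon L c s _ _ _)) (fun s => by
      refine le_trans ?_ (se11_harris (SY_loc L c s _ _ _) (SX_loc L c s _ _ _)
        (SY_mon L c s _ _ _) (SX_mon L c s _ _ _))
      exact mul_le_mul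
        (SY_pr hL (by norm_num) c s (by omega) (by omega) (by push_cast; omega))
        (SX_pr hL (by norm_num) c s (by omega) (by omega) (by push_cast; omega)) hκ.le
        (pr_nonneg _))
  calc κ 2000 ^ 4 = κ 2000 * κ 2000 * (κ 2000 * κ 2000) := by ring
    _ ≤ _ := h

theorem HkG_pr {L : Lat} {κ : ℕ → ℝ} (hL : RSW L κ) (c : Bool) {ρ ρ' : ℤ} (hρ : 16 ≤ ρ)
    (h1 : 8 * ρ ≤ ρ') (h2 : ρ' ≤ 64 * ρ) : κ 2000 ^ 6 ≤ pr (L.HkG c ρ ρ') := by
  have hκ := hL.pos 2000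
  have h := se11_pr (c := c) (q := κ 2000 * (κ 2000 * κ 2000)) (P := fun s ω =>
    L.SY c s (ρ + 1) (2 * ρ) (ρ / 4) ω ∧ L.SY c s (ρ' / 2 + 1) ρ' (ρ' / 8) ω ∧
      L.SX c s (ρ + 1) ρ' (ρ / 4) ω) (by positivity)
    (fun s => Loc.and (SY_loc L c s _ _ _)
      (Loc.and (SY_loc L c s _ _ _) (SX_loc L c s _ _ _)))
    (fun s => se11_mon_and (SY_mon L c s _ _ _)
      (se11_mon_and (SY_mon L c s _ _ _) (SX_mon L c s _ _ _))) (fun s => by
      refine le_trans ?_ (se11_harris (SY_loc L c s _ _ _)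
        (Loc.and (SY_loc L c s _ _ _) (SX_loc L c s _ _ _))
        (SY_mon L c s _ _ _) (se11_mon_and (SY_mon L c s _ _ _) (SX_mon L c s _ _ _)))
      refine mul_le_mul
        (SY_pr hL (by norm_num) c s (by omega) (by omega) (by push_cast; omega)) ?_
        (by positivity) (pr_nonneg _)
      refine le_trans ?_ (se11_harris (SY_loc L c s _ _ _) (SX_loc L c s _ _ _)
        (SY_mon L c s _ _ _) (SX_mon L c s _ _ _))
      exact mul_le_mul
        (SY_pr hL (by norm_num) c s (by omega) (by omega) (by push_cast; omega))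
        (SX_pr hL (by norm_num) c s (by omega) (by omega) (by push_cast; omega)) hκ.le
        (pr_nonneg _))
  calc κ 2000 ^ 6 = κ 2000 * (κ 2000 * κ 2000) * (κ 2000 * (κ 2000 * κ 2000)) := by ring
    _ ≤ _ := h

end Lat

/-- Territory lemma in the form used here.  `E₁ ∧ E₀` is increasing in the sites of `T` (`E₁` is increasing, `E₀` does not depend on
`T`), decreasing in the sites of `U`.  `territory` (PB3) and `cpr_mono`.  The case `p = 0` or negative powers do not occur: `0 ≤ p`. -/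
theorem cpr_terr {G T U : Finset Pt} {E₁ E₀ E' A B : Cfg → Prop} {D₁ D₀ : Set Pt} (hT : T ⊆ G)
    (hU : U ⊆ G) (hTU : Disjoint T U) (h1 : MonC true E₁) (h0 : MonC false E₀) (d1 : Dep E₁ D₁)
    (d0 : Dep E₀ D₀) (hT0 : ∀ v ∈ T, v ∉ D₀) (hU1 : ∀ v ∈ U, v ∉ D₁) (hA : MonC true A)
    (hAT : Dep A (T : Set Pt)) (hB : MonC false B) (hBU : Dep B (U : Set Pt)) {p : ℝ} (hp : 0 ≤ p)
    (hpA : p ≤ pr A) (hpB : p ≤ pr B) (h : ∀ ω, E₁ ω → E₀ ω → A ω → B ω → E' ω) (ω : Cfg) :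
    p ^ 2 * cpr G (fun ω => E₁ ω ∧ E₀ ω) ω ≤ cpr G E' ω := by
  have h1' : Inc E₁ := h1
  have h0' : Dec E₀ := by
    unfold MonC at h0
    rwa [if_neg (by decide)] at h0
  have hA' : Inc A := hA
  have hB' : Dec B := by
    unfold MonC at hB
    rwa [if_neg (by decide)] at hB
  have hle : ∀ (S : Finset Pt) (ω ω' : Cfg), (∀ v ∈ (S : Set Pt), ω v ≤ ω' v) →
      (∀ v, v ∉ (S : Set Pt) → ω v = ω' v) → ∀ v, ω v ≤ ω' v := by
    intro S ω ω' ha hb v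
    by_cases hv : v ∈ (S : Set Pt)
    · exact ha v hv
    · exact le_of_eq (hb v hv)
  have hET : IncOn (ind fun ω => E₁ ω ∧ E₀ ω) (T : Set Pt) := by
    intro ω ω' ha hb
    have hd : E₀ ω = E₀ ω' := d0 ω ω' fun v hv => hb v fun hvT =>
      hT0 v (Finset.mem_coe.1 hvT) hv
    unfold ind
    by_cases h3 : E₁ ω ∧ E₀ ω
    · have h4 : E₁ ω' ∧ E₀ ω' := ⟨h1' ω ω' (hle T ω ω' ha hb) h3.1, by rw [← hd]; exact h3.2⟩
      rw [if_pos h3, if_pos h4]
    · rw [if_neg h3]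
      split_ifs <;> norm_num
  have hEU : DecOn (ind fun ω => E₁ ω ∧ E₀ ω) (U : Set Pt) := by
    intro ω ω' ha hb
    have hd : E₁ ω = E₁ ω' := d1 ω ω' fun v hv => hb v fun hvU =>
      hU1 v (Finset.mem_coe.1 hvU) hv
    unfold ind
    by_cases h3 : E₁ ω' ∧ E₀ ω'
    · have h4 : E₁ ω ∧ E₀ ω := ⟨by rw [hd]; exact h3.1, h0' ω ω' (hle U ω ω' ha hb) h3.2⟩
      rw [if_pos h3, if_pos h4]
    · rw [if_neg h3]
      split_ifs <;> norm_num
  have ht := territory hT hU hTU hET hEU hA' hAT hB' hBU ω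
  have hm : cpr G (fun ω => (E₁ ω ∧ E₀ ω) ∧ A ω ∧ B ω) ω ≤ cpr G E' ω :=
    cpr_mono fun ω' _ h3 => h ω' h3.1.1 h3.1.2 h3.2.1 h3.2.2
  have hp2 : p ^ 2 ≤ pr A * pr B := by
    rw [pow_two]
    exact mul_le_mul hpA hpB hp (pr_nonneg _)
  calc p ^ 2 * cpr G (fun ω => E₁ ω ∧ E₀ ω) ω
      ≤ (pr A * pr B) * cpr G (fun ω => E₁ ω ∧ E₀ ω) ω :=
        mul_le_mul_of_nonneg_right hp2 (cpr_nonneg _ _ _)
    _ = cpr G (fun ω => E₁ ω ∧ E₀ ω) ω * (pr A * pr B) := mul_comm _ _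
    _ ≤ _ := ht
    _ ≤ _ := hm

end SC
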