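import Pool.Agent.Lib_MP_e0a489.SE10
import Pool.Agent.Lib_MP_e0a489.SE11
import Pool.Agent.Lib_MP_e0a489.SE4

/-!
# MP_e0a489, module SE 12: deterministic extension and gluing of the separated events
-/

set_option autoImplicit false

namespace SC

open Classical

namespace Lat

variable {L : Lat} {c : Bool} {ω : Cfg}

/-- a site of a rotated rectangle is the image of a site with the same norm, the radial coordinate -/
private theorem se12_nrm {s a b h : ℤ} (ha : h ≤ a) (hh : 0 ≤ h) {w : Pt}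
    (hw : w ∈ rect a b (-h) h) : nrm (rt s w) = w.1 := by
  rw [nrm_rt]
  obtain ⟨⟨h1, h2⟩, h3, h4⟩ := hw
  unfold nrm
  have e1 : |w.1| = w.1 := abs_of_nonneg (by omega)
  have e2 : |w.2| ≤ w.1 := abs_le.2 ⟨by omega, by omega⟩
  rw [e1]
  exact max_eq_left e2

private theorem se12_J {s R R' b : ℤ} (hR : 0 ≤ R) (h1 : R ≤ R') (hb : b ≤ 2 * R') {v : Pt}
    (hv : v ∈ Zn s (R + 1) b (R / 4)) : (R < nrm v ∧ nrm v ≤ R') ∨ v ∈ J s R' := by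
  obtain ⟨w, hw, rfl⟩ := hv
  have e := se12_nrm (s := s) (show R / 4 ≤ R + 1 by omega) (show 0 ≤ R / 4 by omega) hw
  obtain ⟨⟨a1, a2⟩, a3, a4⟩ := hw
  rw [e]
  by_cases hc : w.1 ≤ R'
  · exact Or.inl ⟨by omega, hc⟩
  · refine Or.inr ⟨w, ⟨⟨by omega, by omega⟩, by omega, by omega⟩, rfl⟩

private theorem se12_K {s r r' : ℤ} (hr' : 0 ≤ r') {v : Pt}
    (hv : v ∈ Zn s (r' / 2 + 1) r (r' / 8)) : (r' < nrm v ∧ nrm v ≤ r) ∨ v ∈ K s r' := by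
  obtain ⟨w, hw, rfl⟩ := hv
  have e := se12_nrm (s := s) (show r' / 8 ≤ r' / 2 + 1 by omega) (show 0 ≤ r' / 8 by omega) hw
  obtain ⟨⟨a1, a2⟩, a3, a4⟩ := hw
  rw [e]
  by_cases hc : w.1 ≤ r'
  · refine Or.inr ⟨w, ⟨⟨a1, hc⟩, a3, a4⟩, rfl⟩
  · exact Or.inl ⟨by omega, a2⟩

private theorem se12_Jc {s R : ℤ} (hs : s = dc c ∨ s = dc c + 2) : J s R ⊆ Jc c R := by
  rcases hs with rfl | rfl
  · exact Set.subset_union_left
  · exact Set.subset_union_right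

private theorem se12_Kc {s r : ℤ} (hs : s = dc c ∨ s = dc c + 2) : K s r ⊆ Kc c r := by
  rcases hs with rfl | rfl
  · exact Set.subset_union_left
  · exact Set.subset_union_right

/-- a site of `Jc c R` is in the annulus up to `R'` or in `Jc c R'` -/
private theorem se12_Jc' {R R' : ℤ} (hR : 0 ≤ R) (h1 : R ≤ R') {v : Pt} (hv : v ∈ Jc c R) :
    (R < nrm v ∧ nrm v ≤ R') ∨ v ∈ Jc c R' := by
  rcases hv with hv | hv
  · exact (se12_J hR h1 (by omega) hv).imp_right (fun h => Or.inl h)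
  · exact (se12_J hR h1 (by omega) hv).imp_right (fun h => Or.inr h)

private theorem se12_Ks {s r R : ℤ} (hr : 0 ≤ r) (hrR : r ≤ R) (hR : 16 ≤ R) :
    Ks s r ⊆ bx R ∪ L.nb (bx R) := by
  intro v hv
  have h := Zn_nrm (show r / 8 ≤ r / 2 + 1 by omega) (show 0 ≤ r / 8 by omega) hv
  left
  show nrm v ≤ R
  omega

private theorem se12_Je {s r R : ℤ} (hR : 16 ≤ R) (hrR : r ≤ R) : ∀ v ∈ Je s R, r < nrm v := by
  intro v hv
  have h := Zn_nrm (show R / 4 ≤ 2 * R by omega) (show 0 ≤ R / 4 by omega) hv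
  omega

private theorem se12_out {s r R R' : ℤ} {E X : Set Pt} (hs : s = dc c ∨ s = dc c + 2)
    (hR : 16 ≤ R) (hrR : r ≤ R) (h1 : R ≤ R') (hE : E ⊆ bx R)
    (hX : X ⊆ bx R ∪ L.nb (bx R)) (h : L.Arm c (ann r R ∪ Jc c R ∪ E) X (Je s R) ω)
    (hk : L.HkO c R (fun _ => 2 * R') ω) : L.Arm c (ann r R' ∪ Jc c R' ∪ E) X (Je s R') ω := by
  obtain ⟨k1, k2⟩ := hk s hs
  have hD : ann r R ∪ E ⊆ bx R := by
    rintro v (hv | hv)
    · exact hv.2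
    · exact hE hv
  have h' : L.Arm c (ann r R ∪ E ∪ Jc c R) X (Je s R) ω := by
    refine h.mono ?_ subset_rfl subset_rfl
    rintro v ((hv | hv) | hv)
    · exact Or.inl (Or.inl hv)
    · exact Or.inr hv
    · exact Or.inl (Or.inr hv)
  have key := arm_out hs hR (show 2 * R ≤ 2 * R' by omega) hD hX h' k1 k2
  refine key.mono ?_ subset_rfl ?_
  · rintro v (((hv | hv) | hv) | hv)
    · exact Or.inl (Or.inl ⟨hv.1, le_trans hv.2 h1⟩)
    · exact Or.inr hv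
    · rcases se12_Jc' (by omega) h1 hv with h3 | h3
      · exact Or.inl (Or.inl ⟨by omega, h3.2⟩)
      · exact Or.inl (Or.inr h3)
    · rcases se12_J (show (0 : ℤ) ≤ R by omega) h1 (le_refl _) hv with h3 | h3
      · exact Or.inl (Or.inl ⟨by omega, h3.2⟩)
      · exact Or.inl (Or.inr (se12_Jc hs h3))
  · rw [Je_eq]
    exact Zn_mono (le_refl _) (le_refl _) (by omega)

private theorem se12_nb {r R : ℤ} (hrR : r ≤ R) : L.nb (bx r) ⊆ bx R ∪ L.nb (bx R) := by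
  rintro v ⟨u, hu, hv⟩
  exact Or.inr ⟨u, le_trans (show nrm u ≤ r from hu) hrR, hv⟩

private theorem se12_KcR {r R : ℤ} (hr : 0 ≤ r) (hrR : r ≤ R) : Kc c r ⊆ bx R := by
  intro v hv
  exact le_trans (Kc_nrm hr hv).2 hrR

private theorem se12_in {s r R r' : ℤ} {Y : Set Pt} (hs : s = dc c ∨ s = dc c + 2)
    (hr' : 16 ≤ r') (h1 : 2 * r' ≤ r) (hrR : r ≤ R) (hY : ∀ v ∈ Y, r < nrm v)
    (h : L.Arm c (ann r R ∪ Jc c R ∪ Kc c r) (Ks s r) Y ω)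
    (hk : L.HkI c r (r' / 2 + 1) (r' / 8) ω) :
    L.Arm c (ann r' R ∪ Jc c R ∪ Kc c r') (Ks s r') Y ω := by
  obtain ⟨k1, k2⟩ := hk s hs
  have hD : ∀ v ∈ ann r R ∪ Jc c R, r < nrm v := by
    rintro v (hv | hv)
    · exact hv.1
    · have := (Jc_nrm (show (0 : ℤ) ≤ R by omega) hv).1
      omega
  have key := arm_in hs (show (16 : ℤ) ≤ r by omega) (show r' / 2 + 1 ≤ r / 2 + 1 by omega)
    (show 0 ≤ r' / 8 by omega) (show r' / 8 ≤ r / 8 by omega) hD hY h k1 k2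
  refine key.mono ?_ subset_rfl subset_rfl
  rintro v (((hv | hv) | hv) | hv)
  · exact Or.inl (Or.inl ⟨by have := hv.1; omega, hv.2⟩)
  · exact Or.inl (Or.inr hv)
  · have h3 := Kc_nrm (show (0 : ℤ) ≤ r by omega) hv
    exact Or.inl (Or.inl ⟨by omega, by omega⟩)
  · rcases se12_K (show (0 : ℤ) ≤ r' by omega) hv with h3 | h3
    · exact Or.inl (Or.inl ⟨h3.1, by omega⟩)
    · exact Or.inr (se12_Kc hs h3)

private theorem se12_glue {s s₀ s₁ r ρ ρ' R : ℤ} (hs : s = dc c ∨ s = dc c + 2)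
    (hρ : 16 ≤ ρ) (hr : 0 ≤ r) (h0 : r ≤ ρ) (h1 : 8 * ρ ≤ ρ') (h2 : ρ' ≤ R)
    (h : L.Arm c (ann r ρ ∪ Jc c ρ ∪ Kc c r) (Ks s₀ r) (Je s ρ) ω)
    (h' : L.Arm c (ann ρ' R ∪ Jc c R ∪ Kc c ρ') (Ks s ρ') (Je s₁ R) ω)
    (hk : L.HkG c ρ ρ' ω) :
    L.Arm c (ann r R ∪ Jc c R ∪ Kc c r) (Ks s₀ r) (Je s₁ R) ω := by
  obtain ⟨k1, k2, k3⟩ := hk s hs
  have hD : ann r ρ ∪ Kc c r ⊆ bx ρ := by
    rintro v (hv | hv)
    · exact hv.2
    · exact se12_KcR hr h0 hv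
  have hD' : ∀ v ∈ ann ρ' R ∪ Jc c R, ρ' < nrm v := by
    rintro v (hv | hv)
    · exact hv.1
    · have := (Jc_nrm (show (0 : ℤ) ≤ R by omega) hv).1
      omega
  have g : L.Arm c (ann r ρ ∪ Kc c r ∪ Jc c ρ) (Ks s₀ r) (Je s ρ) ω := by
    refine h.mono ?_ subset_rfl subset_rfl
    rintro v ((hv | hv) | hv)
    · exact Or.inl (Or.inl hv)
    · exact Or.inr hv
    · exact Or.inl (Or.inr hv)
  have key := arm_glue hs hρ h1 hD (se12_Ks hr h0 hρ) hD' (se12_Je (by omega) h2) g h' k1 k2 k3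
  refine key.mono ?_ subset_rfl subset_rfl
  rintro v ((((hv | hv) | hv) | ((hv | hv) | hv)) | hv)
  · exact Or.inl (Or.inl ⟨hv.1, by have := hv.2; omega⟩)
  · exact Or.inr hv
  · have h3 := Jc_nrm (show (0 : ℤ) ≤ ρ by omega) hv
    exact Or.inl (Or.inl ⟨by omega, by omega⟩)
  · exact Or.inl (Or.inl ⟨by have := hv.1; omega, hv.2⟩)
  · exact Or.inl (Or.inr hv)
  · have h3 := Kc_nrm (show (0 : ℤ) ≤ ρ' by omega) hv
    exact Or.inl (Or.inl ⟨by omega, by omega⟩)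
  · have h3 := Zn_nrm (show ρ / 4 ≤ ρ + 1 by omega) (show 0 ≤ ρ / 4 by omega) hv
    exact Or.inl (Or.inl ⟨by omega, by omega⟩)

/-- `arm_out` with `D = ann r R`, `b = 2 R'`, for both directions; the result is in `ann r R' ∪ Jc c R'` and ends at `Je s R'` (`Arm.mono`): a
site of `Zn s (R+1) (2R') (R/4)` or of `J s R` with norm `≤ R'` is in `ann r R'`, and one with norm `> R'` is in `J s R'`
(`R / 4 ≤ R' / 4`, `mem_Zn0` ... or `Zn_nrm`). -/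
theorem So_out {r R R' : ℤ} (hR : 16 ≤ R) (hr : 0 ≤ r) (hrR : r ≤ R) (h1 : R ≤ R')
    (h : L.So c r R ω) (hk : L.HkO c R (fun _ => 2 * R') ω) : L.So c r R' ω := by
  have _ := hr
  have key : ∀ s, (s = dc c ∨ s = dc c + 2) →
      L.Arm c (ann r R ∪ Jc c R) (L.nb (bx r)) (Je s R) ω →
      L.Arm c (ann r R' ∪ Jc c R') (L.nb (bx r)) (Je s R') ω := by
    intro s hs h3
    have h4 := se12_out (E := ∅) hs hR hrR h1 (Set.empty_subset _) (se12_nb hrR)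
      (h3.mono Set.subset_union_left subset_rfl subset_rfl) hk
    rwa [Set.union_empty] at h4
  exact ⟨key _ (Or.inl rfl) h.1, key _ (Or.inr rfl) h.2⟩

/-- The same for `Pairs`, `D = ann r R ∪ Kc c r`, the pairing is kept. -/
theorem Pairs_out {r R R' : ℤ} (hR : 16 ≤ R) (hr : 0 ≤ r) (hrR : r ≤ R) (h1 : R ≤ R')
    (h : L.Pairs c r R ω) (hk : L.HkO c R (fun _ => 2 * R') ω) : L.Pairs c r R' ω := by
  have key : ∀ s s₀, (s = dc c ∨ s = dc c + 2) →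
      L.Arm c (ann r R ∪ Jc c R ∪ Kc c r) (Ks s₀ r) (Je s R) ω →
      L.Arm c (ann r R' ∪ Jc c R' ∪ Kc c r) (Ks s₀ r) (Je s R') ω := fun s s₀ hs h3 =>
    se12_out hs hR hrR h1 (se12_KcR hr hrR) (se12_Ks hr hrR hR) h3 hk
  rcases h with ⟨h3, h4⟩ | ⟨h3, h4⟩
  · exact Or.inl ⟨key _ _ (Or.inl rfl) h3, key _ _ (Or.inr rfl) h4⟩
  · exact Or.inr ⟨key _ _ (Or.inr rfl) h3, key _ _ (Or.inl rfl) h4⟩

/-- `arm_in` with `D = ann r R ∪ Jc c R`, `a = r' / 2 + 1`, `w = r' / 8`; a site of the strip or of `K s r` has norm `> r'` (then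
it is in `ann r' R`, because it is in `bx r`) or it is in the strip and in `K s r'`.  Here `2 r' ≤ r` is used: the
sites of `K s r` have norm `≥ r / 2 + 1 > r'`. -/
theorem Pairs_in {r R r' : ℤ} (hr' : 16 ≤ r') (h1 : 2 * r' ≤ r) (hrR : r ≤ R)
    (h : L.Pairs c r R ω) (hk : L.HkI c r (r' / 2 + 1) (r' / 8) ω) : L.Pairs c r' R ω := by
  have key : ∀ s s₁, (s = dc c ∨ s = dc c + 2) →
      L.Arm c (ann r R ∪ Jc c R ∪ Kc c r) (Ks s r) (Je s₁ R) ω →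
      L.Arm c (ann r' R ∪ Jc c R ∪ Kc c r') (Ks s r') (Je s₁ R) ω := fun s s₁ hs h3 =>
    se12_in hs hr' h1 hrR (se12_Je (by omega) hrR) h3 hk
  rcases h with ⟨h3, h4⟩ | ⟨h3, h4⟩
  · exact Or.inl ⟨key _ _ (Or.inl rfl) h3, key _ _ (Or.inr rfl) h4⟩
  · exact Or.inr ⟨key _ _ (Or.inl rfl) h3, key _ _ (Or.inr rfl) h4⟩

/-- `arm_glue` for both directions; the two pairings are composed: if the inner event joins `Ks s` to `Je (σ s)` and the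
outer event joins `Ks s` to `Je (τ s)`, the result joins `Ks s` to `Je (τ (σ s))` (`σ`, `τ` are the identity or the exchange of the two
directions). -/
theorem Pairs_glue {r ρ ρ' R : ℤ} (hρ : 16 ≤ ρ) (hr : 0 ≤ r) (h0 : r ≤ ρ) (h1 : 8 * ρ ≤ ρ')
    (h2 : ρ' ≤ R) (h : L.Pairs c r ρ ω) (h' : L.Pairs c ρ' R ω) (hk : L.HkG c ρ ρ' ω) :
    L.Pairs c r R ω := by
  have g : ∀ s s₀ s₁, (s = dc c ∨ s = dc c + 2) →
      L.Arm c (ann r ρ ∪ Jc c ρ ∪ Kc c r) (Ks s₀ r) (Je s ρ) ω →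
      L.Arm c (ann ρ' R ∪ Jc c R ∪ Kc c ρ') (Ks s ρ') (Je s₁ R) ω →
      L.Arm c (ann r R ∪ Jc c R ∪ Kc c r) (Ks s₀ r) (Je s₁ R) ω := fun s s₀ s₁ hs h3 h4 =>
    se12_glue hs hρ hr h0 h1 h2 h3 h4 hk
  rcases h with ⟨a1, a2⟩ | ⟨a1, a2⟩
  · rcases h' with ⟨b1, b2⟩ | ⟨b1, b2⟩
    · exact Or.inl ⟨g _ _ _ (Or.inl rfl) a1 b1, g _ _ _ (Or.inr rfl) a2 b2⟩
    · exact Or.inr ⟨g _ _ _ (Or.inl rfl) a1 b1, g _ _ _ (Or.inr rfl) a2 b2⟩
  · rcases h' with ⟨b1, b2⟩ | ⟨b1, b2⟩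
    · exact Or.inr ⟨g _ _ _ (Or.inr rfl) a1 b2, g _ _ _ (Or.inl rfl) a2 b1⟩
    · exact Or.inl ⟨g _ _ _ (Or.inr rfl) a1 b2, g _ _ _ (Or.inl rfl) a2 b1⟩

end Lat

end SC
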