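import Pool.Agent.Lib_MP_e0a489.SE12

/-!
# MP_e0a489, module SE 13: pointwise extension and gluing

All four statements are applications of `cpr_terr` with the strips events (`p = κ 2000 ^ 4` or `κ 2000 ^ 6`), `T` and `U` the (finite)
territories of the two colours.
-/

set_option autoImplicit false

namespace SC

open Classical

private theorem SE13_mon_and {c : Bool} {A B : Cfg → Prop} (hA : MonC c A) (hB : MonC c B) :
    MonC c (fun ω => A ω ∧ B ω) := by
  cases c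
  · have hA' : Dec A := by simpa [MonC] using hA
    have hB' : Dec B := by simpa [MonC] using hB
    have : Dec (fun ω => A ω ∧ B ω) := fun ω ω' h hh => ⟨hA' ω ω' h hh.1, hB' ω ω' h hh.2⟩
    simpa [MonC] using this
  · have hA' : Inc A := by simpa [MonC] using hA
    have hB' : Inc B := by simpa [MonC] using hB
    have : Inc (fun ω => A ω ∧ B ω) := fun ω ω' h hh => ⟨hA' ω ω' h hh.1, hB' ω ω' h hh.2⟩
    simpa [MonC] using this

private theorem SE13_dep_and {A B : Cfg → Prop} {D E : Set Pt} (hA : Dep A D) (hB : Dep B E) :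
    Dep (fun ω => A ω ∧ B ω) (D ∪ E) := by
  intro ω ω' h
  have h1 := hA ω ω' fun v hv => h v (Or.inl hv)
  have h2 := hB ω ω' fun v hv => h v (Or.inr hv)
  show (A ω ∧ B ω) = (A ω' ∧ B ω')
  rw [h1, h2]

private theorem SE13_tO_finite (c : Bool) (R : ℤ) (b : ℤ → ℤ) : (tO c R b).Finite := by
  refine ((Zn_finite (dc c) (R + 1) (b (dc c)) (R / 4)).union
    (Zn_finite (dc c + 2) (R + 1) (b (dc c + 2)) (R / 4))).subset ?_
  rintro v ⟨s, hs | hs, hv⟩
  · subst hs; exact Or.inl hv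
  · subst hs; exact Or.inr hv

private theorem SE13_tI_finite (c : Bool) (r a w : ℤ) : (tI c r a w).Finite := by
  refine (((Zn_finite (dc c) (r / 2 + 1) r (r / 8)).union (Zn_finite (dc c) a r w)).union
    ((Zn_finite (dc c + 2) (r / 2 + 1) r (r / 8)).union (Zn_finite (dc c + 2) a r w))).subset ?_
  rintro v ⟨s, hs | hs, hv⟩
  · subst hs; exact Or.inl hv
  · subst hs; exact Or.inr hv

private theorem SE13_tG_finite (c : Bool) (ρ ρ' : ℤ) : (tG c ρ ρ').Finite := by
  refine (((Zn_finite (dc c) (ρ + 1) ρ' (ρ / 4)).union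
    (Zn_finite (dc c) (ρ' / 2 + 1) ρ' (ρ' / 8))).union
    ((Zn_finite (dc c + 2) (ρ + 1) ρ' (ρ / 4)).union
      (Zn_finite (dc c + 2) (ρ' / 2 + 1) ρ' (ρ' / 8)))).subset ?_
  rintro v ⟨s, hs | hs, hv⟩
  · subst hs; exact Or.inl hv
  · subst hs; exact Or.inr hv

private theorem SE13_dir {c c' : Bool} (hc : c ≠ c') {s s' : ℤ} (hs : s = dc c ∨ s = dc c + 2)
    (hs' : s' = dc c' ∨ s' = dc c' + 2) : s % 4 ≠ s' % 4 := by
  cases c <;> cases c' <;> simp_all [dc] <;> omega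

private theorem SE13_Jc {c : Bool} {R : ℤ} {v : Pt} (hv : v ∈ Jc c R) :
    ∃ s, (s = dc c ∨ s = dc c + 2) ∧ v ∈ Zn s (R + 1) (2 * R) (R / 4) := by
  rcases hv with hv | hv
  · exact ⟨dc c, Or.inl rfl, hv⟩
  · exact ⟨dc c + 2, Or.inr rfl, hv⟩

private theorem SE13_Kc {c : Bool} {r : ℤ} {v : Pt} (hv : v ∈ Kc c r) :
    ∃ s, (s = dc c ∨ s = dc c + 2) ∧ v ∈ Zn s (r / 2 + 1) r (r / 8) := by
  rcases hv with hv | hv
  · exact ⟨dc c, Or.inl rfl, hv⟩
  · exact ⟨dc c + 2, Or.inr rfl, hv⟩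

/-- sites of the outer territory -/
private theorem SE13_tO_mem {c : Bool} {R R' : ℤ} (hR : 16 ≤ R) {v : Pt}
    (hv : v ∈ tO c R (fun _ => 2 * R')) :
    R < nrm v ∧ nrm v ≤ 2 * R' ∧ v ∉ Jc (!c) R ∧ v ∉ tO (!c) R (fun _ => 2 * R') := by
  obtain ⟨s, hs, hv⟩ := hv
  have h := Zn_nrm (by omega) (by omega) hv
  refine ⟨by omega, h.2, fun hJ => ?_, fun hJ => ?_⟩
  · obtain ⟨s', hs', hJ⟩ := SE13_Jc hJ
    exact Zn_disj (SE13_dir (by cases c <;> simp) hs hs') (by omega) (by omega)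
      (Or.inl (by omega)) hv hJ
  · obtain ⟨s', hs', hJ⟩ := hJ
    exact Zn_disj (SE13_dir (by cases c <;> simp) hs hs') (by omega) (by omega)
      (Or.inl (by omega)) hv hJ

/-- `E₁ = So true r R`, `E₀ = So false r R`, `T = tO true R (2R')`, `U = tO false R (2R')`, strips `HkO c R (2R')`, `So_out`.  A site of `T` has
norm in `(R, 2R']` (`Zn_nrm`), so it is in `G`, not in `ann r R`, and it is not in `Jc false R` (`Zn_disj`, `J_eq`). -/
theorem out_pt {L : Lat} {κ : ℕ → ℝ} (hL : RSW L κ) {r R R' : ℤ} (hR : 16 ≤ R) (hr : 0 ≤ r)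
    (hrR : r ≤ R) (h1 : R ≤ R') (h2 : R' ≤ 64 * R) {G : Finset Pt}
    (hG : ∀ v, R < nrm v → nrm v ≤ 2 * R' → v ∈ G) (ω : Cfg) :
    κ 2000 ^ 8 * cpr G (L.Sout r R) ω ≤ cpr G (L.Sout r R') ω := by
  have hT := SE13_tO_finite true R (fun _ => 2 * R')
  have hU := SE13_tO_finite false R (fun _ => 2 * R')
  have hp : (0 : ℝ) ≤ κ 2000 ^ 4 := pow_nonneg (hL.pos _).le _
  have e1 : L.Sout r R = fun ω => L.So true r R ω ∧ L.So false r R ω := by
    funext ω; exact propext (Lat.Sout_iff L r R ω)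
  have key := cpr_terr (G := G) (T := hT.toFinset) (U := hU.toFinset)
    (E₁ := L.So true r R) (E₀ := L.So false r R) (E' := L.Sout r R')
    (A := L.HkO true R (fun _ => 2 * R')) (B := L.HkO false R (fun _ => 2 * R'))
    (D₁ := ann r R ∪ Jc true R) (D₀ := ann r R ∪ Jc false R)
    (by
      intro v hv
      have hm := SE13_tO_mem hR ((Set.Finite.mem_toFinset hT).1 hv)
      exact hG v hm.1 hm.2.1)
    (by
      intro v hv
      have hm := SE13_tO_mem hR ((Set.Finite.mem_toFinset hU).1 hv)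
      exact hG v hm.1 hm.2.1)
    (by
      rw [Finset.disjoint_left]
      intro v hv hv'
      exact (SE13_tO_mem hR ((Set.Finite.mem_toFinset hT).1 hv)).2.2.2
        ((Set.Finite.mem_toFinset hU).1 hv'))
    (Lat.So.mon L true r R) (Lat.So.mon L false r R) (Lat.So.dep L true r R)
    (Lat.So.dep L false r R)
    (by
      intro v hv hh
      have hm := SE13_tO_mem hR ((Set.Finite.mem_toFinset hT).1 hv)
      rcases hh with hh | hh
      · have := hh.2
        have := hm.1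
        omega
      · exact hm.2.2.1 hh)
    (by
      intro v hv hh
      have hm := SE13_tO_mem hR ((Set.Finite.mem_toFinset hU).1 hv)
      rcases hh with hh | hh
      · have := hh.2
        have := hm.1
        omega
      · exact hm.2.2.1 hh)
    (Lat.HkO_mon L true R _)
    (by rw [Set.Finite.coe_toFinset]; exact Lat.HkO_dep L true (fun _ => by omega))
    (Lat.HkO_mon L false R _)
    (by rw [Set.Finite.coe_toFinset]; exact Lat.HkO_dep L false (fun _ => by omega))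
    hp (Lat.HkO_pr hL true hR (fun _ => by omega) (fun _ => by omega))
    (Lat.HkO_pr hL false hR (fun _ => by omega) (fun _ => by omega))
    (by
      intro ω a b c d
      exact (Lat.Sout_iff L r R' ω).2 ⟨Lat.So_out hR hr hrR h1 a c, Lat.So_out hR hr hrR h1 b d⟩)
    ω
  rw [e1]
  calc κ 2000 ^ 8 * cpr G (fun ω => L.So true r R ω ∧ L.So false r R ω) ω
      = (κ 2000 ^ 4) ^ 2 * cpr G (fun ω => L.So true r R ω ∧ L.So false r R ω) ω := by
        rw [← pow_mul]
    _ ≤ _ := key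

/-- `E₁ = Pairs true r R`, `E₀ = Pairs false r R`, `Pairs_out`; a site of `T` is not in `Kc false r` (norm `≤ r ≤ R`). -/
theorem outS_pt {L : Lat} {κ : ℕ → ℝ} (hL : RSW L κ) {r R R' : ℤ} (hR : 16 ≤ R) (hr : 0 ≤ r)
    (hrR : r ≤ R) (h1 : R ≤ R') (h2 : R' ≤ 64 * R) {G : Finset Pt}
    (hG : ∀ v, R < nrm v → nrm v ≤ 2 * R' → v ∈ G) (ω : Cfg) :
    κ 2000 ^ 8 * cpr G (L.S4 r R) ω ≤ cpr G (L.S4 r R') ω := by
  have hT := SE13_tO_finite true R (fun _ => 2 * R')
  have hU := SE13_tO_finite false R (fun _ => 2 * R')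
  have hp : (0 : ℝ) ≤ κ 2000 ^ 4 := pow_nonneg (hL.pos _).le _
  have key := cpr_terr (G := G) (T := hT.toFinset) (U := hU.toFinset)
    (E₁ := L.Pairs true r R) (E₀ := L.Pairs false r R) (E' := L.S4 r R')
    (A := L.HkO true R (fun _ => 2 * R')) (B := L.HkO false R (fun _ => 2 * R'))
    (D₁ := ann r R ∪ Jc true R ∪ Kc true r) (D₀ := ann r R ∪ Jc false R ∪ Kc false r)
    (by
      intro v hv
      have hm := SE13_tO_mem hR ((Set.Finite.mem_toFinset hT).1 hv)
      exact hG v hm.1 hm.2.1)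
    (by
      intro v hv
      have hm := SE13_tO_mem hR ((Set.Finite.mem_toFinset hU).1 hv)
      exact hG v hm.1 hm.2.1)
    (by
      rw [Finset.disjoint_left]
      intro v hv hv'
      exact (SE13_tO_mem hR ((Set.Finite.mem_toFinset hT).1 hv)).2.2.2
        ((Set.Finite.mem_toFinset hU).1 hv'))
    (Lat.Pairs.mon L true r R) (Lat.Pairs.mon L false r R) (Lat.Pairs.dep L true r R)
    (Lat.Pairs.dep L false r R)
    (by
      intro v hv hh
      have hm := SE13_tO_mem hR ((Set.Finite.mem_toFinset hT).1 hv)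
      have hm1 := hm.1
      rcases hh with (hh | hh) | hh
      · have := hh.2
        omega
      · exact hm.2.2.1 hh
      · have := (Kc_nrm hr hh).2
        omega)
    (by
      intro v hv hh
      have hm := SE13_tO_mem hR ((Set.Finite.mem_toFinset hU).1 hv)
      have hm1 := hm.1
      rcases hh with (hh | hh) | hh
      · have := hh.2
        omega
      · exact hm.2.2.1 hh
      · have := (Kc_nrm hr hh).2
        omega)
    (Lat.HkO_mon L true R _)
    (by rw [Set.Finite.coe_toFinset]; exact Lat.HkO_dep L true (fun _ => by omega))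
    (Lat.HkO_mon L false R _)
    (by rw [Set.Finite.coe_toFinset]; exact Lat.HkO_dep L false (fun _ => by omega))
    hp (Lat.HkO_pr hL true hR (fun _ => by omega) (fun _ => by omega))
    (Lat.HkO_pr hL false hR (fun _ => by omega) (fun _ => by omega))
    (by
      intro ω a b c d
      exact ⟨Lat.Pairs_out hR hr hrR h1 a c, Lat.Pairs_out hR hr hrR h1 b d⟩)
    ω
  calc κ 2000 ^ 8 * cpr G (L.S4 r R) ω
      = (κ 2000 ^ 4) ^ 2 * cpr G (fun ω => L.Pairs true r R ω ∧ L.Pairs false r R ω) ω := by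
        rw [← pow_mul]; rfl
    _ ≤ _ := key

/-- sites of the inner territory -/
private theorem SE13_tI_mem {c : Bool} {r r' : ℤ} (hr' : 16 ≤ r') (h1 : 2 * r' ≤ r) {v : Pt}
    (hv : v ∈ tI c r (r' / 2 + 1) (r' / 8)) :
    r' / 2 < nrm v ∧ nrm v ≤ r ∧ v ∉ Kc (!c) r ∧ v ∉ tI (!c) r (r' / 2 + 1) (r' / 8) := by
  obtain ⟨s, hs, hv⟩ := hv
  have hn : r' / 2 < nrm v ∧ nrm v ≤ r := by
    rcases hv with hv | hv
    · have h := Zn_nrm (by omega) (by omega) hv
      exact ⟨by omega, h.2⟩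
    · have h := Zn_nrm (by omega) (by omega) hv
      exact ⟨by omega, h.2⟩
  refine ⟨hn.1, hn.2, fun hJ => ?_, fun hJ => ?_⟩
  · obtain ⟨s', hs', hJ⟩ := SE13_Kc hJ
    rcases hv with hv | hv
    · exact Zn_disj (SE13_dir (by cases c <;> simp) hs hs') (by omega) (by omega)
        (Or.inl (by omega)) hv hJ
    · exact Zn_disj (SE13_dir (by cases c <;> simp) hs hs') (by omega) (by omega)
        (Or.inl (by omega)) hv hJ
  · obtain ⟨s', hs', hJ⟩ := hJ
    rcases hv with hv | hv <;> rcases hJ with hJ | hJ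
    · exact Zn_disj (SE13_dir (by cases c <;> simp) hs hs') (by omega) (by omega)
        (Or.inl (by omega)) hv hJ
    · exact Zn_disj (SE13_dir (by cases c <;> simp) hs hs') (by omega) (by omega)
        (Or.inr (by omega)) hv hJ
    · exact Zn_disj (SE13_dir (by cases c <;> simp) hs hs') (by omega) (by omega)
        (Or.inl (by omega)) hv hJ
    · exact Zn_disj (SE13_dir (by cases c <;> simp) hs hs') (by omega) (by omega)
        (Or.inl (by omega)) hv hJ

/-- `T = tI true r (r'/2+1) (r'/8)`, strips `HkI c r (r'/2+1) (r'/8)`, `Pairs_in`.  A site of `T` has norm in `(r'/2, r]`, so it is not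
in `ann r R` nor in `Jc false R`; not in `Kc false r` by `Zn_disj`. -/
theorem inS_pt {L : Lat} {κ : ℕ → ℝ} (hL : RSW L κ) {r R r' : ℤ} (hr' : 16 ≤ r')
    (h1 : 2 * r' ≤ r) (h2 : r ≤ 64 * r') (hrR : r ≤ R) {G : Finset Pt}
    (hG : ∀ v, r' / 2 < nrm v → nrm v ≤ r → v ∈ G) (ω : Cfg) :
    κ 2000 ^ 8 * cpr G (L.S4 r R) ω ≤ cpr G (L.S4 r' R) ω := by
  have hT := SE13_tI_finite true r (r' / 2 + 1) (r' / 8)
  have hU := SE13_tI_finite false r (r' / 2 + 1) (r' / 8)
  have hp : (0 : ℝ) ≤ κ 2000 ^ 4 := pow_nonneg (hL.pos _).le _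
  have hR0 : (0 : ℤ) ≤ R := by omega
  have key := cpr_terr (G := G) (T := hT.toFinset) (U := hU.toFinset)
    (E₁ := L.Pairs true r R) (E₀ := L.Pairs false r R) (E' := L.S4 r' R)
    (A := L.HkI true r (r' / 2 + 1) (r' / 8)) (B := L.HkI false r (r' / 2 + 1) (r' / 8))
    (D₁ := ann r R ∪ Jc true R ∪ Kc true r) (D₀ := ann r R ∪ Jc false R ∪ Kc false r)
    (by
      intro v hv
      have hm := SE13_tI_mem hr' h1 ((Set.Finite.mem_toFinset hT).1 hv)
      exact hG v hm.1 hm.2.1)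
    (by
      intro v hv
      have hm := SE13_tI_mem hr' h1 ((Set.Finite.mem_toFinset hU).1 hv)
      exact hG v hm.1 hm.2.1)
    (by
      rw [Finset.disjoint_left]
      intro v hv hv'
      exact (SE13_tI_mem hr' h1 ((Set.Finite.mem_toFinset hT).1 hv)).2.2.2
        ((Set.Finite.mem_toFinset hU).1 hv'))
    (Lat.Pairs.mon L true r R) (Lat.Pairs.mon L false r R) (Lat.Pairs.dep L true r R)
    (Lat.Pairs.dep L false r R)
    (by
      intro v hv hh
      have hm := SE13_tI_mem hr' h1 ((Set.Finite.mem_toFinset hT).1 hv)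
      have hm1 := hm.2.1
      rcases hh with (hh | hh) | hh
      · have := hh.1
        omega
      · have := (Jc_nrm hR0 hh).1
        omega
      · exact hm.2.2.1 hh)
    (by
      intro v hv hh
      have hm := SE13_tI_mem hr' h1 ((Set.Finite.mem_toFinset hU).1 hv)
      have hm1 := hm.2.1
      rcases hh with (hh | hh) | hh
      · have := hh.1
        omega
      · have := (Jc_nrm hR0 hh).1
        omega
      · exact hm.2.2.1 hh)
    (Lat.HkI_mon L true r _ _)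
    (by rw [Set.Finite.coe_toFinset]; exact Lat.HkI_dep L true _ _ _)
    (Lat.HkI_mon L false r _ _)
    (by rw [Set.Finite.coe_toFinset]; exact Lat.HkI_dep L false _ _ _)
    hp (Lat.HkI_pr hL true (by omega) (by omega) (by omega) (by omega))
    (Lat.HkI_pr hL false (by omega) (by omega) (by omega) (by omega))
    (by
      intro ω a b c d
      exact ⟨Lat.Pairs_in hr' h1 hrR a c, Lat.Pairs_in hr' h1 hrR b d⟩)
    ω
  calc κ 2000 ^ 8 * cpr G (L.S4 r R) ω
      = (κ 2000 ^ 4) ^ 2 * cpr G (fun ω => L.Pairs true r R ω ∧ L.Pairs false r R ω) ω := by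
        rw [← pow_mul]; rfl
    _ ≤ _ := key

/-- sites of the territory for gluing -/
private theorem SE13_tG_mem {c : Bool} {ρ ρ' : ℤ} (hρ : 16 ≤ ρ) (h1 : 8 * ρ ≤ ρ') {v : Pt}
    (hv : v ∈ tG c ρ ρ') :
    ρ < nrm v ∧ nrm v ≤ ρ' ∧ v ∉ Jc (!c) ρ ∧ v ∉ Kc (!c) ρ' ∧ v ∉ tG (!c) ρ ρ' := by
  obtain ⟨s, hs, hv⟩ := hv
  have hn : ρ < nrm v ∧ nrm v ≤ ρ' := by
    rcases hv with hv | hv
    · have h := Zn_nrm (by omega) (by omega) hv
      exact ⟨by omega, h.2⟩
    · have h := Zn_nrm (by omega) (by omega) hv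
      exact ⟨by omega, h.2⟩
  refine ⟨hn.1, hn.2, fun hJ => ?_, fun hJ => ?_, fun hJ => ?_⟩
  · obtain ⟨s', hs', hJ⟩ := SE13_Jc hJ
    rcases hv with hv | hv
    · exact Zn_disj (SE13_dir (by cases c <;> simp) hs hs') (by omega) (by omega)
        (Or.inl (by omega)) hv hJ
    · exact Zn_disj (SE13_dir (by cases c <;> simp) hs hs') (by omega) (by omega)
        (Or.inr (by omega)) hv hJ
  · obtain ⟨s', hs', hJ⟩ := SE13_Kc hJ
    rcases hv with hv | hv
    · exact Zn_disj (SE13_dir (by cases c <;> simp) hs hs') (by omega) (by omega)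
        (Or.inl (by omega)) hv hJ
    · exact Zn_disj (SE13_dir (by cases c <;> simp) hs hs') (by omega) (by omega)
        (Or.inl (by omega)) hv hJ
  · obtain ⟨s', hs', hJ⟩ := hJ
    rcases hv with hv | hv <;> rcases hJ with hJ | hJ
    · exact Zn_disj (SE13_dir (by cases c <;> simp) hs hs') (by omega) (by omega)
        (Or.inl (by omega)) hv hJ
    · exact Zn_disj (SE13_dir (by cases c <;> simp) hs hs') (by omega) (by omega)
        (Or.inl (by omega)) hv hJ
    · exact Zn_disj (SE13_dir (by cases c <;> simp) hs hs') (by omega) (by omega)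
        (Or.inr (by omega)) hv hJ
    · exact Zn_disj (SE13_dir (by cases c <;> simp) hs hs') (by omega) (by omega)
        (Or.inl (by omega)) hv hJ

/-- `E₁ = Pairs true r ρ ∧ Pairs true ρ' R`, `E₀` the same for `false`, `T = tG true ρ ρ'`, strips `HkG c ρ ρ'`, `Pairs_glue`.  A site of `T`
has norm in `(ρ, ρ']`; it is not in `Jc false ρ`, `Kc false ρ'` by `Zn_disj` (third hypothesis: for the zone `Zn s (ρ'/2+1) ρ' (ρ'/8)` and
`Jc false ρ` use `ρ / 4 < ρ' / 2 + 1`; for the strip and `Kc false ρ'` the same). -/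
theorem glue_pt {L : Lat} {κ : ℕ → ℝ} (hL : RSW L κ) {r ρ ρ' R : ℤ} (hρ : 16 ≤ ρ) (hr : 0 ≤ r)
    (h0 : r ≤ ρ) (h1 : 8 * ρ ≤ ρ') (h2 : ρ' ≤ 64 * ρ) (h3 : ρ' ≤ R) {G : Finset Pt}
    (hG : ∀ v, ρ < nrm v → nrm v ≤ ρ' → v ∈ G) (ω : Cfg) :
    κ 2000 ^ 12 * cpr G (fun ω => L.S4 r ρ ω ∧ L.S4 ρ' R ω) ω ≤ cpr G (L.S4 r R) ω := by
  have hT := SE13_tG_finite true ρ ρ'
  have hU := SE13_tG_finite false ρ ρ'
  have hp : (0 : ℝ) ≤ κ 2000 ^ 6 := pow_nonneg (hL.pos _).le _
  have hR0 : (0 : ℤ) ≤ R := by omega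
  have hkey : ∀ (c : Bool) (v : Pt), v ∈ tG c ρ ρ' →
      v ∉ (ann r ρ ∪ Jc (!c) ρ ∪ Kc (!c) r) ∪ (ann ρ' R ∪ Jc (!c) R ∪ Kc (!c) ρ') := by
    intro c v hv hh
    have hm := SE13_tG_mem hρ h1 hv
    have hm1 := hm.1
    have hm2 := hm.2.1
    rcases hh with ((hh | hh) | hh) | ((hh | hh) | hh)
    · have := hh.2
      omega
    · exact hm.2.2.1 hh
    · have := (Kc_nrm hr hh).2
      omega
    · have := hh.1
      omega
    · have := (Jc_nrm hR0 hh).1
      omega
    · exact hm.2.2.2.1 hh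
  have key := cpr_terr (G := G) (T := hT.toFinset) (U := hU.toFinset)
    (E₁ := fun ω => L.Pairs true r ρ ω ∧ L.Pairs true ρ' R ω)
    (E₀ := fun ω => L.Pairs false r ρ ω ∧ L.Pairs false ρ' R ω) (E' := L.S4 r R)
    (A := L.HkG true ρ ρ') (B := L.HkG false ρ ρ')
    (D₁ := (ann r ρ ∪ Jc true ρ ∪ Kc true r) ∪ (ann ρ' R ∪ Jc true R ∪ Kc true ρ'))
    (D₀ := (ann r ρ ∪ Jc false ρ ∪ Kc false r) ∪ (ann ρ' R ∪ Jc false R ∪ Kc false ρ'))
    (by
      intro v hv
      have hm := SE13_tG_mem hρ h1 ((Set.Finite.mem_toFinset hT).1 hv)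
      exact hG v hm.1 hm.2.1)
    (by
      intro v hv
      have hm := SE13_tG_mem hρ h1 ((Set.Finite.mem_toFinset hU).1 hv)
      exact hG v hm.1 hm.2.1)
    (by
      rw [Finset.disjoint_left]
      intro v hv hv'
      exact (SE13_tG_mem hρ h1 ((Set.Finite.mem_toFinset hT).1 hv)).2.2.2.2
        ((Set.Finite.mem_toFinset hU).1 hv'))
    (SE13_mon_and (Lat.Pairs.mon L true r ρ) (Lat.Pairs.mon L true ρ' R))
    (SE13_mon_and (Lat.Pairs.mon L false r ρ) (Lat.Pairs.mon L false ρ' R))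
    (SE13_dep_and (Lat.Pairs.dep L true r ρ) (Lat.Pairs.dep L true ρ' R))
    (SE13_dep_and (Lat.Pairs.dep L false r ρ) (Lat.Pairs.dep L false ρ' R))
    (by
      intro v hv
      exact hkey true v ((Set.Finite.mem_toFinset hT).1 hv))
    (by
      intro v hv
      exact hkey false v ((Set.Finite.mem_toFinset hU).1 hv))
    (Lat.HkG_mon L true ρ ρ')
    (by rw [Set.Finite.coe_toFinset]; exact Lat.HkG_dep L true (by omega))
    (Lat.HkG_mon L false ρ ρ')
    (by rw [Set.Finite.coe_toFinset]; exact Lat.HkG_dep L false (by omega))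
    hp (Lat.HkG_pr hL true hρ h1 h2) (Lat.HkG_pr hL false hρ h1 h2)
    (by
      intro ω a b c d
      exact ⟨Lat.Pairs_glue hρ hr h0 h1 h3 a.1 a.2 c, Lat.Pairs_glue hρ hr h0 h1 h3 b.1 b.2 d⟩)
    ω
  have e1 : (fun ω => L.S4 r ρ ω ∧ L.S4 ρ' R ω) = fun ω =>
      (L.Pairs true r ρ ω ∧ L.Pairs true ρ' R ω) ∧ (L.Pairs false r ρ ω ∧ L.Pairs false ρ' R ω) := by
    funext ω
    exact propext ⟨fun h => ⟨⟨h.1.1, h.2.1⟩, ⟨h.1.2, h.2.2⟩⟩,
      fun h => ⟨⟨h.1.1, h.2.1⟩, ⟨h.1.2, h.2.2⟩⟩⟩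
  rw [e1]
  calc κ 2000 ^ 12 * cpr G (fun ω => (L.Pairs true r ρ ω ∧ L.Pairs true ρ' R ω) ∧
        (L.Pairs false r ρ ω ∧ L.Pairs false ρ' R ω)) ω
      = (κ 2000 ^ 6) ^ 2 * cpr G (fun ω => (L.Pairs true r ρ ω ∧ L.Pairs true ρ' R ω) ∧
        (L.Pairs false r ρ ω ∧ L.Pairs false ρ' R ω)) ω := by rw [← pow_mul]
    _ ≤ _ := key

end SC
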