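import Pool.Agent.Lib_MP_e0a489.SE1
import Pool.Agent.Lib_MP_e0a489.SE13

/-!
# MP_e0a489, module SE 14: two-time extension and gluing

`pr2_of_cpr` turns the pointwise inequalities of SE 13 into inequalities for `pr2`, if the correlation vanishes on `G`;
then `pr2_mono_k`.
-/

set_option autoImplicit false

namespace SC

open Classical

/-- correlation `0` outside `bx (R / 4)` -/
noncomputable def ko (k : Pt → ℝ) (R : ℤ) : Pt → ℝ := fun v => if R / 4 < nrm v then 0 else k v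

theorem ko_kap {k : Pt → ℝ} (hk : Kap k) (R : ℤ) : Kap (ko k R) := by
  intro v
  unfold ko
  split_ifs
  · exact ⟨le_refl _, zero_le_one⟩
  · exact hk v

theorem kz_kap {k : Pt → ℝ} (hk : Kap k) (r R : ℤ) : Kap (kz k r R) := by
  intro v
  unfold kz
  split_ifs
  · exact ⟨le_refl _, zero_le_one⟩
  · exact hk v

theorem ko_le {k : Pt → ℝ} (hk : Kap k) {R R' : ℤ} (h : R ≤ R') (v : Pt) :
    ko k R v ≤ ko k R' v := by
  unfold ko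
  split_ifs with h1 h2
  · exact le_refl _
  · exact (hk v).1
  · exfalso
    apply h1
    omega
  · exact le_refl _

theorem kz_le {k : Pt → ℝ} (hk : Kap k) {r R r' R' : ℤ} (h : r' ≤ r) (h' : R ≤ R') (v : Pt) :
    kz k r R v ≤ kz k r' R' v := by
  unfold kz
  split_ifs with h1 h2
  · exact le_refl _
  · exact (hk v).1
  · exfalso
    apply h1
    omega
  · exact le_refl _

theorem kz_le_self {k : Pt → ℝ} (hk : Kap k) (r R : ℤ) (v : Pt) : kz k r R v ≤ k v := by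
  unfold kz
  split_ifs
  · exact (hk v).1
  · exact le_refl _

/-- `kz (kz k r R) r' R' ≤ kz k r' R'` -/
theorem kz_kz_le {k : Pt → ℝ} (hk : Kap k) (r R r' R' : ℤ) (v : Pt) :
    kz (kz k r R) r' R' v ≤ kz k r' R' v := by
  by_cases h : nrm v ≤ 8 * r' ∨ R' / 4 < nrm v
  · have e1 : kz (kz k r R) r' R' v = 0 := if_pos h
    have e2 : kz k r' R' v = 0 := if_pos h
    rw [e1, e2]
  · have e1 : kz (kz k r R) r' R' v = kz k r R v := if_neg h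
    have e2 : kz k r' R' v = k v := if_neg h
    rw [e1, e2]
    exact kz_le_self hk r R v

private theorem pr2_lift {A B : Cfg → Prop} (hA : Loc A) (hB : Loc B) {G : Finset Pt}
    {k k' : Pt → ℝ} (hk : Kap k) (hG : ∀ v ∈ G, k v = 0) (hkk : ∀ v, k v ≤ k' v) {c : ℝ}
    (hc : 0 < c) (h : ∀ ω, c * cpr G A ω ≤ cpr G B ω) : c ^ 2 * pr2 k A ≤ pr2 k' B := by
  have h1 : pr2 k A ≤ c⁻¹ ^ 2 * pr2 k B := by
    refine pr2_of_cpr hA hB hk hG (le_of_lt (inv_pos.mpr hc)) fun ω => ?_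
    rw [inv_mul_eq_div, le_div_iff₀ hc, mul_comm]
    exact h ω
  have h2 : pr2 k B ≤ pr2 k' B := pr2_mono_k hB (fun v => (hk v).1) hkk
  have h3 : c ^ 2 * pr2 k A ≤ c ^ 2 * (c⁻¹ ^ 2 * pr2 k B) :=
    mul_le_mul_of_nonneg_left h1 (le_of_lt (pow_pos hc 2))
  have h4 : c ^ 2 * (c⁻¹ ^ 2 * pr2 k B) = pr2 k B := by
    rw [← mul_assoc, ← mul_pow, mul_inv_cancel₀ (ne_of_gt hc), one_pow, one_mul]
  rw [h4] at h3
  exact le_trans h3 h2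

/-- `out_pt` with `G = {R < nrm v ≤ 2 R'}` (`exists_annF`), where `ko k R = 0`; `ko k R ≤ ko k R'`. -/
theorem out2 {L : Lat} {κ : ℕ → ℝ} (hL : RSW L κ) {k : Pt → ℝ} (hk : Kap k) {r R R' : ℤ}
    (hR : 16 ≤ R) (hr : 0 ≤ r) (hrR : r ≤ R) (h1 : R ≤ R') (h2 : R' ≤ 64 * R) :
    κ 2000 ^ 16 * pr2 (ko k R) (L.Sout r R) ≤ pr2 (ko k R') (L.Sout r R') := by
  obtain ⟨G, hG⟩ := exists_annF R (2 * R')
  have hc : 0 < κ 2000 ^ 8 := pow_pos (hL.pos 2000) 8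
  have h := pr2_lift (A := L.Sout r R) (B := L.Sout r R') (G := G) (k := ko k R)
    (k' := ko k R') (Lat.Sout.loc L r R) (Lat.Sout.loc L r R') (ko_kap hk R)
    (fun v hv => by
      have h0 := (hG v).1 hv
      have h3 : R / 4 < nrm v := by omega
      exact if_pos h3)
    (fun v => ko_le hk h1 v) hc
    (fun ω => out_pt hL hR hr hrR h1 h2 (fun v ha hb => (hG v).2 ⟨ha, hb⟩) ω)
  have e : (κ 2000 ^ 8) ^ 2 = κ 2000 ^ 16 := by rw [← pow_mul]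
  rw [e] at h
  exact h

/-- `outS_pt`, same proof with `kz k r R ≤ kz k r R'`. -/
theorem outS2 {L : Lat} {κ : ℕ → ℝ} (hL : RSW L κ) {k : Pt → ℝ} (hk : Kap k) {r R R' : ℤ}
    (hR : 16 ≤ R) (hr : 0 ≤ r) (hrR : r ≤ R) (h1 : R ≤ R') (h2 : R' ≤ 64 * R) :
    κ 2000 ^ 16 * pr2 (kz k r R) (L.S4 r R) ≤ pr2 (kz k r R') (L.S4 r R') := by
  obtain ⟨G, hG⟩ := exists_annF R (2 * R')
  have hc : 0 < κ 2000 ^ 8 := pow_pos (hL.pos 2000) 8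
  have h := pr2_lift (A := L.S4 r R) (B := L.S4 r R') (G := G) (k := kz k r R)
    (k' := kz k r R') (Lat.S4.loc L r R) (Lat.S4.loc L r R') (kz_kap hk r R)
    (fun v hv => by
      have h0 := (hG v).1 hv
      have h3 : nrm v ≤ 8 * r ∨ R / 4 < nrm v := Or.inr (by omega)
      exact if_pos h3)
    (fun v => kz_le hk (le_refl r) h1 v) hc
    (fun ω => outS_pt hL hR hr hrR h1 h2 (fun v ha hb => (hG v).2 ⟨ha, hb⟩) ω)
  have e : (κ 2000 ^ 8) ^ 2 = κ 2000 ^ 16 := by rw [← pow_mul]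
  rw [e] at h
  exact h

/-- `inS_pt` with `G = {r'/2 < nrm v ≤ r}`, where `kz k r R = 0`; `kz k r R ≤ kz k r' R`. -/
theorem inS2 {L : Lat} {κ : ℕ → ℝ} (hL : RSW L κ) {k : Pt → ℝ} (hk : Kap k) {r R r' : ℤ}
    (hr' : 16 ≤ r') (h1 : 2 * r' ≤ r) (h2 : r ≤ 64 * r') (hrR : r ≤ R) :
    κ 2000 ^ 16 * pr2 (kz k r R) (L.S4 r R) ≤ pr2 (kz k r' R) (L.S4 r' R) := by
  obtain ⟨G, hG⟩ := exists_annF (r' / 2) r
  have hc : 0 < κ 2000 ^ 8 := pow_pos (hL.pos 2000) 8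
  have h := pr2_lift (A := L.S4 r R) (B := L.S4 r' R) (G := G) (k := kz k r R)
    (k' := kz k r' R) (Lat.S4.loc L r R) (Lat.S4.loc L r' R) (kz_kap hk r R)
    (fun v hv => by
      have h0 := (hG v).1 hv
      have h3 : nrm v ≤ 8 * r ∨ R / 4 < nrm v := Or.inl (by omega)
      exact if_pos h3)
    (fun v => kz_le hk (by omega) (le_refl R) v) hc
    (fun ω => inS_pt hL hr' h1 h2 hrR (fun v ha hb => (hG v).2 ⟨ha, hb⟩) ω)
  have e : (κ 2000 ^ 8) ^ 2 = κ 2000 ^ 16 := by rw [← pow_mul]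
  rw [e] at h
  exact h

/-- Let `k₁ v = kz k r ρ v` if `nrm v ≤ 2 ρ` and `kz k ρ' R v` otherwise.  `S4 r ρ` depends on `{r/2 < nrm v ≤ 2ρ}`, `S4 ρ' R` on
`{ρ'/2 < nrm v ≤ 2R}` (`S4.dep`), `2ρ ≤ ρ'/2`; so (`pr2_congr`, `pr2_and`) the left side is `κ 2000 ^ 24 * pr2 k₁ (S4 r ρ ∧ S4 ρ' R)`.  `k₁ = 0` on
`G = {ρ < nrm v ≤ ρ'}`: for `nrm v ≤ 2ρ` because `nrm v > ρ / 4`, for `nrm v > 2ρ` because `nrm v ≤ 8 ρ'`.  `glue_pt`, `pr2_of_cpr`, and `k₁ ≤ kz k r R`. -/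
theorem glueS2 {L : Lat} {κ : ℕ → ℝ} (hL : RSW L κ) {k : Pt → ℝ} (hk : Kap k) {r ρ ρ' R : ℤ}
    (hρ : 16 ≤ ρ) (hr : 0 ≤ r) (h0 : r ≤ ρ) (h1 : 8 * ρ ≤ ρ') (h2 : ρ' ≤ 64 * ρ) (h3 : ρ' ≤ R) :
    κ 2000 ^ 24 * (pr2 (kz k r ρ) (L.S4 r ρ) * pr2 (kz k ρ' R) (L.S4 ρ' R)) ≤
      pr2 (kz k r R) (L.S4 r R) := by
  obtain ⟨G, hG⟩ := exists_annF ρ ρ'
  have hc : 0 < κ 2000 ^ 12 := pow_pos (hL.pos 2000) 12
  obtain ⟨k₁, hk₁⟩ : ∃ k₁ : Pt → ℝ, ∀ v, k₁ v = if nrm v ≤ 2 * ρ then kz k r ρ v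
      else kz k ρ' R v := ⟨_, fun _ => rfl⟩
  have hk1 : Kap k₁ := by
    intro v
    rw [hk₁ v]
    split_ifs
    · exact kz_kap hk r ρ v
    · exact kz_kap hk ρ' R v
  have d1 : Dep (L.S4 r ρ) {v | r / 2 < nrm v ∧ nrm v ≤ 2 * ρ} := Lat.S4.dep L hr h0
  have d2 : Dep (L.S4 ρ' R) {v | ρ' / 2 < nrm v ∧ nrm v ≤ 2 * R} :=
    Lat.S4.dep L (by omega) h3
  have e1 : pr2 (kz k r ρ) (L.S4 r ρ) = pr2 k₁ (L.S4 r ρ) := by
    refine pr2_congr (Lat.S4.loc L r ρ) d1 fun v hv => ?_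
    rw [hk₁ v, if_pos hv.2]
  have e2 : pr2 (kz k ρ' R) (L.S4 ρ' R) = pr2 k₁ (L.S4 ρ' R) := by
    refine pr2_congr (Lat.S4.loc L ρ' R) d2 fun v hv => ?_
    have hv1 : ρ' / 2 < nrm v := hv.1
    have h5 : ¬ nrm v ≤ 2 * ρ := by omega
    rw [hk₁ v, if_neg h5]
  have e3 : pr2 k₁ (fun ω => L.S4 r ρ ω ∧ L.S4 ρ' R ω) =
      pr2 k₁ (L.S4 r ρ) * pr2 k₁ (L.S4 ρ' R) := by
    refine pr2_and (Lat.S4.loc L r ρ) (Lat.S4.loc L ρ' R) d1 d2 (fun v hv hv' => ?_) k₁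
    have hv1 : nrm v ≤ 2 * ρ := hv.2
    have hv2 : ρ' / 2 < nrm v := hv'.1
    omega
  have hloc : Loc (fun ω => L.S4 r ρ ω ∧ L.S4 ρ' R ω) := by
    obtain ⟨F₁, hF₁⟩ := Lat.S4.loc L r ρ
    obtain ⟨F₂, hF₂⟩ := Lat.S4.loc L ρ' R
    refine ⟨F₁ ∪ F₂, fun ω ω' h => ?_⟩
    have a1 := hF₁ ω ω' fun v hv => h v (by
      rw [Finset.mem_coe] at hv ⊢
      exact Finset.mem_union_left _ hv)
    have a2 := hF₂ ω ω' fun v hv => h v (by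
      rw [Finset.mem_coe] at hv ⊢
      exact Finset.mem_union_right _ hv)
    show (L.S4 r ρ ω ∧ L.S4 ρ' R ω) = (L.S4 r ρ ω' ∧ L.S4 ρ' R ω')
    rw [a1, a2]
  have h := pr2_lift (A := fun ω => L.S4 r ρ ω ∧ L.S4 ρ' R ω) (B := L.S4 r R) (G := G)
    (k := k₁) (k' := kz k r R) hloc (Lat.S4.loc L r R) hk1
    (fun v hv => by
      have h4 := (hG v).1 hv
      rw [hk₁ v]
      split_ifs with h5
      · have h6 : nrm v ≤ 8 * r ∨ ρ / 4 < nrm v := Or.inr (by omega)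
        exact if_pos h6
      · have h6 : nrm v ≤ 8 * ρ' ∨ R / 4 < nrm v := Or.inl (by omega)
        exact if_pos h6)
    (fun v => by
      rw [hk₁ v]
      split_ifs with h5
      · exact kz_le hk (le_refl r) (by omega) v
      · exact kz_le hk (by omega) (le_refl R) v) hc
    (fun ω => glue_pt hL hρ hr h0 h1 h2 h3 (fun v ha hb => (hG v).2 ⟨ha, hb⟩) ω)
  have e : (κ 2000 ^ 12) ^ 2 = κ 2000 ^ 24 := by rw [← pow_mul]
  rw [e, e3, ← e1, ← e2] at h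
  exact h

end SC
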