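import Pool.Agent.Lib_MP_e0a489.SE4
import Pool.Agent.Lib_MP_e0a489.SE7

/-!
# MP_e0a489, module SE 15: lower bounds for the separated events (bounded ratio of the radii)
-/

set_option autoImplicit false

namespace SC

open Classical

private theorem se15_dc (c : Bool) : dc c % 4 = 0 ∨ dc c % 4 = 1 := by
  cases c
  · exact Or.inr (by decide)
  · exact Or.inl (by decide)

/-- the sites of the inner side of a strip around `bx r` have a neighbour in `bx r` -/
private theorem se15_nb {L : Lat} {s r h : ℤ} (hr : 0 ≤ r) (hh : h ≤ r) {v : Pt}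
    (hv : v ∈ Zn s (r + 1) (r + 1) h) : v ∈ L.nb (bx r) := by
  have h4 : s % 4 = 0 ∨ s % 4 = 1 ∨ s % 4 = 2 ∨ s % 4 = 3 := by omega
  have key : ∀ u : Pt, |u.1 - v.1| + |u.2 - v.2| = 1 → |u.1| ≤ r → |u.2| ≤ r →
      v ∈ L.nb (bx r) := fun u h1 h2 h3 => ⟨u, max_le h2 h3, Lat.adj_of_nn h1⟩
  rcases h4 with h4 | h4 | h4 | h4
  · rw [Zn_mod (s := s) (s' := 0) (by omega)] at hv
    have h1 := mem_Zn0.1 hv
    refine key (v.1 - 1, v.2) ?_ ?_ ?_
    · simp only [sub_self, abs_zero, add_zero]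
      rw [show v.1 - 1 - v.1 = -1 by ring]
      norm_num
    · exact abs_le.2 ⟨by simp only; omega, by simp only; omega⟩
    · exact abs_le.2 ⟨by simp only; omega, by simp only; omega⟩
  · rw [Zn_mod (s := s) (s' := 1) (by omega)] at hv
    have h1 := mem_Zn1.1 hv
    refine key (v.1, v.2 - 1) ?_ ?_ ?_
    · simp only [sub_self, abs_zero, zero_add]
      rw [show v.2 - 1 - v.2 = -1 by ring]
      norm_num
    · exact abs_le.2 ⟨by simp only; omega, by simp only; omega⟩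
    · exact abs_le.2 ⟨by simp only; omega, by simp only; omega⟩
  · rw [Zn_mod (s := s) (s' := 2) (by omega)] at hv
    have h1 := mem_Zn2.1 hv
    refine key (v.1 + 1, v.2) ?_ ?_ ?_
    · simp only [sub_self, abs_zero, add_zero]
      rw [show v.1 + 1 - v.1 = 1 by ring]
      norm_num
    · exact abs_le.2 ⟨by simp only; omega, by simp only; omega⟩
    · exact abs_le.2 ⟨by simp only; omega, by simp only; omega⟩
  · rw [Zn_mod (s := s) (s' := 3) (by omega)] at hv
    have h1 := mem_Zn3.1 hv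
    refine key (v.1, v.2 + 1) ?_ ?_ ?_
    · simp only [sub_self, abs_zero, zero_add]
      rw [show v.2 + 1 - v.2 = 1 by ring]
      norm_num
    · exact abs_le.2 ⟨by simp only; omega, by simp only; omega⟩
    · exact abs_le.2 ⟨by simp only; omega, by simp only; omega⟩

/-- two opposite radial strips of colour `c` -/
private def B15 (L : Lat) (c : Bool) (a b h : ℤ) (ω : Cfg) : Prop :=
  L.SX c (dc c) a b h ω ∧ L.SX c (dc c + 2) a b h ω

private theorem B15_loc (L : Lat) (c : Bool) (a b h : ℤ) : Loc (B15 L c a b h) :=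
  (Lat.SX_loc L c _ a b h).and (Lat.SX_loc L c _ a b h)

private theorem B15_dep (L : Lat) (c : Bool) (a b h : ℤ) :
    Dep (B15 L c a b h) (Zn (dc c) a b h ∪ Zn (dc c + 2) a b h) := by
  intro ω ω' hw
  have h1 := Lat.SX_dep L c (dc c) a b h ω ω' (fun v hv => hw v (Or.inl hv))
  have h2 := Lat.SX_dep L c (dc c + 2) a b h ω ω' (fun v hv => hw v (Or.inr hv))
  show (_ ∧ _) = (_ ∧ _)
  rw [h1, h2]

private theorem B15_pr {L : Lat} {κ : ℕ → ℝ} (hL : RSW L κ) {k : ℕ} (hk : 1 ≤ k) (c : Bool)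
    {a b h : ℤ} (hab : a ≤ b) (hh : 2 ≤ h) (hr : b - a ≤ k * (2 * h)) :
    κ k ^ 2 ≤ pr (B15 L c a b h) := by
  have hκ : 0 ≤ κ k := (hL.pos k).le
  have e1 := Lat.SX_pr hL hk c (dc c) hab hh hr
  have e2 := Lat.SX_pr hL hk c (dc c + 2) hab hh hr
  let A : Fin 2 → Cfg → Prop := ![L.SX c (dc c) a b h, L.SX c (dc c + 2) a b h]
  have hH := pr_harris_mon (I := (Finset.univ : Finset (Fin 2))) (A := A) c
    (fun i _ => by
      fin_cases i
      · exact Lat.SX_loc L c _ _ _ _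
      · exact Lat.SX_loc L c _ _ _ _)
    (fun i _ => by
      fin_cases i
      · exact Lat.SX_mon L c _ _ _ _
      · exact Lat.SX_mon L c _ _ _ _)
  rw [Fin.prod_univ_two] at hH
  have hA : (fun ω => ∀ i ∈ (Finset.univ : Finset (Fin 2)), A i ω) = B15 L c a b h := by
    funext ω
    apply propext
    constructor
    · intro hi
      exact ⟨hi 0 (Finset.mem_univ _), hi 1 (Finset.mem_univ _)⟩
    · rintro ⟨a1, a2⟩ i _
      fin_cases i
      · exact a1
      · exact a2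
  rw [hA] at hH
  refine le_trans ?_ hH
  show κ k ^ 2 ≤ pr (L.SX c (dc c) a b h) * pr (L.SX c (dc c + 2) a b h)
  calc κ k ^ 2 = κ k * κ k := by ring
    _ ≤ _ := mul_le_mul e1 e2 hκ (hκ.trans e1)

/-- both colours together -/
private theorem B15_pr4 {L : Lat} {κ : ℕ → ℝ} (hL : RSW L κ) {k : ℕ} (hk : 1 ≤ k)
    {a b h : ℤ} (hab : a ≤ b) (hh : 2 ≤ h) (ha : h < a) (hr : b - a ≤ k * (2 * h)) :
    κ k ^ 4 ≤ pr (fun ω => B15 L true a b h ω ∧ B15 L false a b h ω) := by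
  have hκ : 0 ≤ κ k := (hL.pos k).le
  have e1 := B15_pr hL hk true hab hh hr
  have e2 := B15_pr hL hk false hab hh hr
  have e3 := pr_and (B15_loc L true a b h) (B15_loc L false a b h) (B15_dep L true a b h)
    (B15_dep L false a b h) (by
      rintro v (hv | hv) (hv' | hv')
      · exact Zn_disj (by decide) ha ha (Or.inl ha) hv hv'
      · exact Zn_disj (by decide) ha ha (Or.inl ha) hv hv'
      · exact Zn_disj (by decide) ha ha (Or.inl ha) hv hv'
      · exact Zn_disj (by decide) ha ha (Or.inl ha) hv hv')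
  rw [e3]
  calc κ k ^ 4 = κ k ^ 2 * κ k ^ 2 := by ring
    _ ≤ _ := mul_le_mul e1 e2 (by positivity) ((by positivity : (0:ℝ) ≤ κ k ^ 2).trans e1)

/-- a strip from `bx r` to the far side of the zone -/
private theorem se15_arm {L : Lat} {c : Bool} {s r R : ℤ} {ω : Cfg} (hr : 16 ≤ r) (hrR : r ≤ R)
    (hs : J s R ⊆ Jc c R) (h : L.SX c s (r + 1) (2 * R) (r / 4) ω) :
    L.Arm c (ann r R ∪ Jc c R) (L.nb (bx r)) (Je s R) ω := by
  refine Lat.Arm.mono h ?_ ?_ ?_
  · intro v hv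
    have h1 := Zn_nrm (by omega) (by omega) hv
    by_cases h2 : nrm v ≤ R
    · exact Or.inl ⟨by omega, h2⟩
    · refine Or.inr (hs ?_)
      rw [J_eq]
      obtain ⟨p, ⟨⟨h3, h4⟩, h5, h6⟩, rfl⟩ := hv
      rw [nrm_rt] at h2
      unfold nrm at h2
      have h7 : |p.2| ≤ r / 4 := abs_le.2 ⟨h5, h6⟩
      have h8 : |p.1| = p.1 := abs_of_nonneg (by omega)
      rw [h8, max_eq_left (by omega)] at h2
      exact ⟨p, ⟨⟨by omega, h4⟩, by omega, by omega⟩, rfl⟩
  · intro v hv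
    exact se15_nb (by omega) (by omega) hv
  · rw [Je_eq]
    exact Zn_mono le_rfl le_rfl (by omega)

/-- a strip from the inner side of `K s r` to the far side of the zone -/
private theorem se15_arm2 {L : Lat} {c : Bool} {s r R : ℤ} {ω : Cfg} (hr : 16 ≤ r) (hrR : r ≤ R)
    (hs : J s R ⊆ Jc c R) (hs' : K s r ⊆ Kc c r)
    (h : L.SX c s (r / 2 + 1) (2 * R) (r / 8) ω) :
    L.Arm c (ann r R ∪ Jc c R ∪ Kc c r) (Ks s r) (Je s R) ω := by
  refine Lat.Arm.mono h ?_ ?_ ?_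
  · intro v hv
    have h1 := Zn_nrm (by omega) (by omega) hv
    obtain ⟨p, ⟨⟨h3, h4⟩, h5, h6⟩, rfl⟩ := hv
    have h7 : |p.2| ≤ r / 8 := abs_le.2 ⟨h5, h6⟩
    have h8 : |p.1| = p.1 := abs_of_nonneg (by omega)
    have h9 : nrm (rt s p) = p.1 := by
      rw [nrm_rt]
      unfold nrm
      rw [h8, max_eq_left (by omega)]
    by_cases h2 : nrm (rt s p) ≤ r
    · refine Or.inr (hs' ?_)
      rw [K_eq]
      exact ⟨p, ⟨⟨h3, by omega⟩, h5, h6⟩, rfl⟩
    · by_cases h10 : nrm (rt s p) ≤ R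
      · exact Or.inl (Or.inl ⟨by omega, h10⟩)
      · refine Or.inl (Or.inr (hs ?_))
        rw [J_eq]
        exact ⟨p, ⟨⟨by omega, h4⟩, by omega, by omega⟩, rfl⟩
  · rw [Ks_eq]
  · rw [Je_eq]
    exact Zn_mono le_rfl le_rfl (by omega)

/-- Four radial strips `Zn s (r+1) (2R) (r/4)`, `s = 0, 2` open and `s = 1, 3` closed (`SX`): a site of the strip of norm `≤ R` is in `ann r R`,
one of norm `> R` is in `J s R` (`r / 4 ≤ R / 4`); the first site `(r+1, y)` is next to `(r, y) ∈ bx r`.  Harris for the two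
strips of one colour, independence (`pr_and`) of the two colours (`Zn_disj`). -/
theorem Sout_base {L : Lat} {κ : ℕ → ℝ} (hL : RSW L κ) {k : ℕ} (hk : 1 ≤ k) {r R : ℤ}
    (hr : 16 ≤ r) (hrR : r ≤ R) (h : 2 * R ≤ k * (2 * (r / 4))) :
    κ k ^ 4 ≤ pr (L.Sout r R) := by
  refine le_trans (B15_pr4 (L := L) hL hk (a := r + 1) (b := 2 * R) (h := r / 4) (by omega)
    (by omega) (by omega) (by omega)) ?_
  refine pr_mono ((B15_loc L true _ _ _).and (B15_loc L false _ _ _)) (Lat.Sout.loc L r R) ?_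
  rintro ω ⟨⟨h1, h2⟩, h3, h4⟩ c
  cases c
  · exact ⟨se15_arm hr hrR Set.subset_union_left h3, se15_arm hr hrR Set.subset_union_right h4⟩
  · exact ⟨se15_arm hr hrR Set.subset_union_left h1, se15_arm hr hrR Set.subset_union_right h2⟩

/-- Four strips `Zn s (r/2+1) (2R) (r/8)`: norm `≤ r`: in `K s r`; norm in `(r, R]`: in `ann r R`; norm `> R`: in `J s R`. -/
theorem S4_base {L : Lat} {κ : ℕ → ℝ} (hL : RSW L κ) {k : ℕ} (hk : 1 ≤ k) {r R : ℤ}
    (hr : 16 ≤ r) (hrR : r ≤ R) (h : 2 * R ≤ k * (2 * (r / 8))) :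
    κ k ^ 4 ≤ pr (L.S4 r R) := by
  refine le_trans (B15_pr4 (L := L) hL hk (a := r / 2 + 1) (b := 2 * R) (h := r / 8) (by omega)
    (by omega) (by omega) (by omega)) ?_
  refine pr_mono ((B15_loc L true _ _ _).and (B15_loc L false _ _ _)) (Lat.S4.loc L r R) ?_
  rintro ω ⟨⟨h1, h2⟩, h3, h4⟩
  exact ⟨Or.inl ⟨se15_arm2 hr hrR Set.subset_union_left Set.subset_union_left h1,
      se15_arm2 hr hrR Set.subset_union_right Set.subset_union_right h2⟩,
    Or.inl ⟨se15_arm2 hr hrR Set.subset_union_left Set.subset_union_left h3,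
      se15_arm2 hr hrR Set.subset_union_right Set.subset_union_right h4⟩⟩

/-- `k = 20000`. -/
theorem Sout_base' {L : Lat} {κ : ℕ → ℝ} (hL : RSW L κ) {r R : ℤ} (hr : 16 ≤ r) (hrR : r ≤ R)
    (h : R ≤ 1000 * r) : κ 20000 ^ 4 ≤ pr (L.Sout r R) := by
  refine Sout_base hL (by norm_num) hr hrR ?_
  push_cast
  omega

theorem S4_base' {L : Lat} {κ : ℕ → ℝ} (hL : RSW L κ) {r R : ℤ} (hr : 16 ≤ r) (hrR : r ≤ R)
    (h : R ≤ 1000 * r) : κ 20000 ^ 4 ≤ pr (L.S4 r R) := by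
  refine S4_base hL (by norm_num) hr hrR ?_
  push_cast
  omega

/-- `k` large. -/
theorem S4_pos {L : Lat} {κ : ℕ → ℝ} (hL : RSW L κ) {r R : ℤ} (hr : 16 ≤ r) (hrR : r ≤ R) :
    0 < pr (L.S4 r R) := by
  have hk : (1 : ℕ) ≤ R.toNat := by omega
  have hk' : ((R.toNat : ℕ) : ℤ) = R := Int.toNat_of_nonneg (by omega)
  refine lt_of_lt_of_le ?_ (S4_base hL hk hr hrR ?_)
  · exact pow_pos (hL.pos _) 4
  · rw [hk']
    have h1 : 2 ≤ r / 8 := by omega
    nlinarith

end SC
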