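import Pool.Agent.Lib_MP_e0a489.IfL
import Pool.Agent.Lib_MP_e0a489.SE4
import Pool.Agent.Lib_MP_e0a489.SE5

/-!
# MP_e0a489, module SE 16: pointwise outer separation for all radii
-/

set_option autoImplicit false

namespace SC

variable [IfL]

open Classical

/-- the smallest odd `w` with `m ≤ D w` -/
theorem choose_w {D : ℤ} (hD : 0 < D) (m : ℤ) : ∃ w : ℤ, w % 2 = 1 ∧ m ≤ D * w ∧
    D * w < m + 2 * D := by
  obtain ⟨q, hq1, hq2⟩ : ∃ q : ℤ, m ≤ D * q ∧ D * q < m + D := by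
    refine ⟨-((-m) / D), ?_, ?_⟩
    · have h1 := Int.mul_ediv_add_emod (-m) D
      have h2 := Int.emod_nonneg (-m) hD.ne'
      have h3 : D * -((-m) / D) = -(D * ((-m) / D)) := by ring
      omega
    · have h1 := Int.mul_ediv_add_emod (-m) D
      have h2 := Int.emod_lt_of_pos (-m) hD
      have h3 : D * -((-m) / D) = -(D * ((-m) / D)) := by ring
      omega
  by_cases h : q % 2 = 1
  · exact ⟨q, h, hq1, by omega⟩
  · refine ⟨q + 1, by omega, ?_, ?_⟩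
    · rw [mul_add, mul_one]; omega
    · rw [mul_add, mul_one]; omega

/-- Arithmetic of the choice of the block size, outer case.  `μ` odd, `M = μ Mc + μ / 2`, `D = 2 M + 1 = μ (2 Mc + 1)`, `w` from `choose_w` with
`m = R`, `R₁ = M w + w / 2`, so `2 R₁ + 1 = D w ∈ [R, R + 2 D)`.  (`w ≥ w₀` because `D w ≥ R ≥ D w₀`; `μ w ≤ D w / 3`;
`R / 4 ≤ R₁ / 2` because `(2 R₁ + 1) / 4 = R₁ / 2`.)  The last conclusion: if `2 μ + 20 ≤ M` then `D ≥ 4 μ + 41` and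
`(μ + 10) w ≤ D w / 4`. -/
theorem outer_arith {μ Mc w₀ R : ℤ} (hμ : μ % 2 = 1) (hμ0 : 0 < μ) (hMc : 0 < Mc) (hw₀ : 0 < w₀)
    (hR : (2 * (μ * Mc + μ / 2) + 1) * (w₀ + 6) ≤ R) (hR' : 16 ≤ R) :
    ∃ w R₁ : ℤ, w % 2 = 1 ∧ w₀ ≤ w ∧ R₁ = (μ * Mc + μ / 2) * w + w / 2 ∧ R₁ ≤ R ∧
      R ≤ 2 * R₁ + 1 ∧ R / 4 ≤ R₁ / 2 ∧ R₁ + μ * w ≤ 2 * R ∧ R ≤ 4 * R₁ ∧
      (2 * μ + 20 ≤ μ * Mc + μ / 2 → R₁ + (μ + 10) * w ≤ R) := by
  obtain ⟨M, hM⟩ : ∃ M, M = μ * Mc + μ / 2 := ⟨_, rfl⟩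
  rw [← hM] at hR
  rw [← hM]
  have hD3 : 3 * μ ≤ 2 * M + 1 := by
    have h1 : μ * 1 ≤ μ * Mc := mul_le_mul_of_nonneg_left (by omega) hμ0.le
    omega
  obtain ⟨w, hw1, hw2, hw3⟩ := choose_w (D := 2 * M + 1) (by omega) R
  obtain ⟨R₁, hR₁⟩ : ∃ R₁, R₁ = M * w + w / 2 := ⟨_, rfl⟩
  have hDw : (2 * M + 1) * w = 2 * R₁ + 1 := by
    have h2 : (2 * M + 1) * w = 2 * (M * w) + w := by ring
    omega
  have h7 : (2 * M + 1) * 7 ≤ (2 * M + 1) * (w₀ + 6) :=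
    mul_le_mul_of_nonneg_left (by omega) (by omega)
  have hww : w₀ + 6 ≤ w := by
    by_contra hcon
    have h8 : (2 * M + 1) * w < (2 * M + 1) * (w₀ + 6) :=
      mul_lt_mul_of_pos_left (by omega) (by omega)
    omega
  have hw0 : 0 ≤ w := by omega
  have h3w : 3 * (μ * w) ≤ 2 * R₁ + 1 := by
    have h9 : (3 * μ) * w ≤ (2 * M + 1) * w := mul_le_mul_of_nonneg_right hD3 hw0
    have h10 : 3 * μ * w = 3 * (μ * w) := by ring
    omega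
  rw [hDw] at hw2 hw3
  refine ⟨w, R₁, hw1, by omega, hR₁, by omega, by omega, by omega, by omega, by omega, ?_⟩
  intro h11
  have h12 : (4 * (μ + 10)) * w ≤ (2 * M + 1) * w := mul_le_mul_of_nonneg_right (by omega) hw0
  have h13 : 4 * (μ + 10) * w = 4 * ((μ + 10) * w) := by ring
  omega

/-- POINTWISE OUTER SEPARATION.  Take `μ, Mc, w₀, C₁, Λ` from `outer_land κ e`, for every `q ∈ Λ` the constants `p q`, `w₀ q` of
`route_out` (`choose`; use `Land` from the statement of `outer_land`), `C = C₁ ∑_{q ∈ Λ} 1 / p q + 1`, `R₀` so large that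
`outer_arith` applies with `max w₀ (w₀ q)`.  Given `r, R, G, ω`: `w, R₁` from `outer_arith`; `G₁ = {R₁/2 < nrm v ≤ R₁ + μ w} ⊆ G` (`exists_annF`).
`TwoA true r R ⊆ TwoA true r R₁` (`TwoA.mono`), so `cpr G (TwoA r R) ≤ cpr G (TwoA r R₁) = av G (cpr G₁ (TwoA r R₁))` (`av_av`, `G ∪ G₁ = G`)
`≤ e av G (ind (TwoA r (R₁/2))) + C₁ ∑ av G (cpr G₁ E2o)`.  First: `TwoA r (R₁/2) ⊆ TwoA r (R/4)`, which does not depend on `G`
(`TwoA.dep`, `av_of_dep`).  Second: `av G (cpr G₁ E2o) = cpr G E2o ≤ (1 / p q) cpr G (Sout r R)` by `route_out` with `R' = R` (if `Λ` is not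
empty, `Land` gives `2 μ + 20 ≤ M`, so `R₁ + (μ + 10) w ≤ R`). -/
theorem outer_pt (κ : ℕ → ℝ) (e : ℝ) (he : 0 < e) : ∃ (C : ℝ) (R₀ : ℤ), 0 < C ∧ 16 ≤ R₀ ∧
    ∀ L : Lat, RSW L κ → ∀ r R : ℤ, 1 ≤ r → R₀ ≤ R → 16 * r ≤ R → ∀ G : Finset Pt,
      (∀ v, v ∈ G ↔ R / 4 < nrm v ∧ nrm v ≤ 2 * R) → ∀ ω : Cfg,
      cpr G (L.TwoA true r R) ω ≤ e * ind (L.TwoA true r (R / 4)) ω +
        C * cpr G (L.Sout r R) ω := by
  obtain ⟨μ, Mc, w₀, C₁, Λ, hμ, hμ0, hMc, hw₀, hC₁, hLand, H⟩ := outer_land κ e he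
  have hch : ∀ q : Bool × (Fin 4 → ℤ) × (Fin 4 → ℤ), ∃ (p : ℝ) (w₀' : ℤ), 0 < p ∧ 0 < w₀' ∧
      (q ∈ Λ → ∀ L : Lat, RSW L κ → ∀ w r R' : ℤ, w % 2 = 1 → w₀' ≤ w →
      1 ≤ r → 2 * r ≤ (μ * Mc + μ / 2) * w + w / 2 →
      (μ * Mc + μ / 2) * w + w / 2 + (μ + 10) * w ≤ R' →
      R' ≤ 4 * ((μ * Mc + μ / 2) * w + w / 2) → ∀ G : Finset Pt,
      (∀ v, (μ * Mc + μ / 2) * w + w / 2 < nrm v → nrm v ≤ 2 * R' → v ∈ G) → ∀ ω : Cfg,
      p * cpr G (L.E2o r w μ Mc q.1 q.2.1 q.2.2) ω ≤ cpr G (L.Sout r R') ω) := by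
    intro q
    by_cases hq : q ∈ Λ
    · obtain ⟨p, w₁, h1, h2, h3⟩ := route_out κ μ Mc hμ hμ0 hMc q.1 q.2.1 q.2.2 (hLand q hq)
      exact ⟨p, w₁, h1, h2, fun _ => h3⟩
    · exact ⟨1, 1, one_pos, one_pos, fun h => absurd h hq⟩
  choose p w₁ hp hw₁ hroute using hch
  have hsum : 0 ≤ ∑ q ∈ Λ, w₁ q := Finset.sum_nonneg fun q _ => (hw₁ q).le
  have hsumC : 0 ≤ ∑ q ∈ Λ, 1 / p q := Finset.sum_nonneg fun q _ => (one_div_pos.2 (hp q)).le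
  refine ⟨C₁ * ∑ q ∈ Λ, 1 / p q + 1,
    max 16 ((2 * (μ * Mc + μ / 2) + 1) * ((w₀ + ∑ q ∈ Λ, w₁ q) + 6)), by positivity,
    le_max_left _ _, ?_⟩
  intro L hL r R hr hR hrR G hG ω
  obtain ⟨w, R₁, hw1, hww, hR₁, hR1, hR2, hR3, hR4, hR5, hR6⟩ := outer_arith (R := R) hμ hμ0 hMc
    (w₀ := w₀ + ∑ q ∈ Λ, w₁ q) (by omega) (le_trans (le_max_right _ _) hR)
    (le_trans (le_max_left _ _) hR)
  obtain ⟨G₁, hG₁⟩ := exists_annF (R₁ / 2) (R₁ + μ * w)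
  have hGG : G ∪ G₁ = G := by
    refine Finset.union_eq_left.2 fun v hv => ?_
    have h1 := (hG₁ v).1 hv
    exact (hG v).2 ⟨by omega, by omega⟩
  have hpt : ∀ ω' : Cfg, cpr G₁ (L.TwoA true r R₁) ω' ≤
      e * ind (L.TwoA true r (R₁ / 2)) ω' +
        C₁ * ∑ q ∈ Λ, cpr G₁ (L.E2o r w μ Mc q.1 q.2.1 q.2.2) ω' := by
    intro ω'
    have h1 := H L hL w r hw1 (by omega) hr (by rw [← hR₁]; omega) G₁
      (fun v => by rw [← hR₁]; exact hG₁ v) ω'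
    rw [← hR₁] at h1
    exact h1
  have hav : ∀ A : Cfg → Prop, av G (cpr G₁ A) ω = cpr G A ω := by
    intro A
    show av G (av G₁ (ind A)) ω = av G (ind A) ω
    rw [av_av, hGG]
  have step1 : cpr G (L.TwoA true r R) ω ≤ cpr G (L.TwoA true r R₁) ω :=
    cpr_mono fun ω' _ h => Lat.TwoA.mono h (by omega) le_rfl (by omega) hR1
  have step2 : cpr G (L.TwoA true r R₁) ω ≤
      e * av G (ind (L.TwoA true r (R₁ / 2))) ω +
        C₁ * ∑ q ∈ Λ, cpr G (L.E2o r w μ Mc q.1 q.2.1 q.2.2) ω := by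
    rw [← hav]
    refine (av_mono fun ω' _ => hpt ω').trans (le_of_eq ?_)
    rw [av_add, av_smul, av_smul, av_sum]
    congr 2
    refine Finset.sum_congr rfl fun q _ => ?_
    exact hav _
  have step3 : av G (ind (L.TwoA true r (R₁ / 2))) ω ≤ ind (L.TwoA true r (R / 4)) ω := by
    have h1 : av G (ind (L.TwoA true r (R₁ / 2))) ω ≤ av G (ind (L.TwoA true r (R / 4))) ω :=
      cpr_mono fun ω' _ h => Lat.TwoA.mono h (by omega) le_rfl (by omega) hR3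
    refine h1.trans (le_of_eq ?_)
    refine av_of_dep (Dep.ind (Lat.TwoA.dep L true r (R / 4))) (fun v hv hv' => ?_) ω
    have h2 := (hG v).1 hv
    have h3 : r < nrm v ∧ nrm v ≤ R / 4 := hv'
    omega
  have step4 : ∀ q ∈ Λ, cpr G (L.E2o r w μ Mc q.1 q.2.1 q.2.2) ω ≤
      1 / p q * cpr G (L.Sout r R) ω := by
    intro q hq
    have hl := hLand q hq
    have hcor := hl.cor 0
    have habs := abs_nonneg (fpos μ q.1 q.2.2 0)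
    have h1 := hroute q hq L hL w r R hw1 ?_ hr (by rw [← hR₁]; omega)
      (by rw [← hR₁]; exact hR6 (by omega)) (by rw [← hR₁]; exact hR5) G
      (fun v h2 h3 => (hG v).2 ⟨by rw [← hR₁] at h2; omega, h3⟩) ω
    · rw [one_div, ← div_eq_inv_mul, le_div_iff₀ (hp q), mul_comm]
      exact h1
    · have h4 : w₁ q ≤ ∑ q ∈ Λ, w₁ q :=
        Finset.single_le_sum (f := w₁) (fun q _ => (hw₁ q).le) hq
      omega
  have hS0 : 0 ≤ cpr G (L.Sout r R) ω := cpr_nonneg _ _ _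
  have step5 : ∑ q ∈ Λ, cpr G (L.E2o r w μ Mc q.1 q.2.1 q.2.2) ω ≤
      (∑ q ∈ Λ, 1 / p q) * cpr G (L.Sout r R) ω := by
    rw [Finset.sum_mul]
    exact Finset.sum_le_sum step4
  calc cpr G (L.TwoA true r R) ω ≤ cpr G (L.TwoA true r R₁) ω := step1
    _ ≤ e * av G (ind (L.TwoA true r (R₁ / 2))) ω +
        C₁ * ∑ q ∈ Λ, cpr G (L.E2o r w μ Mc q.1 q.2.1 q.2.2) ω := step2
    _ ≤ e * ind (L.TwoA true r (R / 4)) ω +
        C₁ * ((∑ q ∈ Λ, 1 / p q) * cpr G (L.Sout r R) ω) :=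
        add_le_add (mul_le_mul_of_nonneg_left step3 he.le)
          (mul_le_mul_of_nonneg_left step5 hC₁.le)
    _ ≤ e * ind (L.TwoA true r (R / 4)) ω +
        (C₁ * ∑ q ∈ Λ, 1 / p q + 1) * cpr G (L.Sout r R) ω := by
        have h6 : (C₁ * ∑ q ∈ Λ, 1 / p q + 1) * cpr G (L.Sout r R) ω =
          C₁ * ((∑ q ∈ Λ, 1 / p q) * cpr G (L.Sout r R) ω) + cpr G (L.Sout r R) ω := by ring
        rw [h6]
        linarith

end SC
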