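import Pool.Agent.Lib_MP_e0a489.IfL
import Pool.Agent.Lib_MP_e0a489.SE4
import Pool.Agent.Lib_MP_e0a489.SE5

/-!
# MP_e0a489, module SE 17: pointwise inner separation for all radii
-/

set_option autoImplicit false

namespace SC

variable [IfL]

open Classical

private theorem choose_w17 {D : ℤ} (hD : 0 < D) (m : ℤ) : ∃ w : ℤ, w % 2 = 1 ∧ m ≤ D * w ∧
    D * w < m + 2 * D := by
  obtain ⟨q, hq1, hq2⟩ : ∃ q : ℤ, m ≤ D * q ∧ D * q < m + D := by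
    refine ⟨-((-m) / D), ?_, ?_⟩
    · have h1 := Int.mul_ediv_add_emod (-m) D
      have h2 := Int.emod_nonneg (-m) hD.ne'
      have h3 : D * -((-m) / D) = -(D * ((-m) / D)) := by ring
      omega
    · have h1 := Int.mul_ediv_add_emod (-m) D
      have h2 := Int.emod_lt_of_pos (-m) hD
      have h3 : D * -((-m) / D) = -(D * ((-m) / D)) := by ring
      omega
  by_cases h : q % 2 = 1
  · exact ⟨q, h, hq1, by omega⟩
  · refine ⟨q + 1, by omega, ?_, ?_⟩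
    · rw [mul_add, mul_one]; omega
    · rw [mul_add, mul_one]; omega

/-- Arithmetic of the choice of the block size, inner case.  `D = 2 (μ Mc + μ/2) + 1 = μ (2 Mc + 1)`, `w` the smallest odd number with
`5 r ≤ D w`, so `D w < 5 r + 2 D`, `r₁ = M w + w / 2`, `2 r₁ + 1 = D w`.  `μ w ≤ D w / 3`; if `2 μ + 20 ≤ M` then `(μ + 10) w ≤ D w / 4`. -/
theorem inner_arith {μ Mc w₀ r : ℤ} (hμ : μ % 2 = 1) (hμ0 : 0 < μ) (hMc : 0 < Mc) (hw₀ : 0 < w₀)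
    (hr : (2 * (μ * Mc + μ / 2) + 1) * (w₀ + 6) ≤ r) (hr' : 16 ≤ r) :
    ∃ w r₁ : ℤ, w % 2 = 1 ∧ w₀ ≤ w ∧ r₁ = (μ * Mc + μ / 2) * w + w / 2 ∧ r ≤ r₁ ∧
      8 * r₁ ≤ 64 * r ∧ r / 2 ≤ r₁ - μ * w ∧ 2 * r₁ ≤ 8 * r ∧ r₁ ≤ 4 * r ∧
      (2 * μ + 20 ≤ μ * Mc + μ / 2 → r + (μ + 10) * w ≤ r₁) := by
  obtain ⟨M, hM⟩ : ∃ M, M = μ * Mc + μ / 2 := ⟨_, rfl⟩
  rw [← hM] at hr
  rw [← hM]
  have hD3 : 3 * μ ≤ 2 * M + 1 := by
    have h1 : μ * 1 ≤ μ * Mc := mul_le_mul_of_nonneg_left (by omega) hμ0.le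
    omega
  obtain ⟨w, hw1, hw2, hw3⟩ := choose_w17 (D := 2 * M + 1) (by omega) (5 * r)
  obtain ⟨r₁, hr₁⟩ : ∃ r₁, r₁ = M * w + w / 2 := ⟨_, rfl⟩
  have hDw : (2 * M + 1) * w = 2 * r₁ + 1 := by
    have h2 : (2 * M + 1) * w = 2 * (M * w) + w := by ring
    omega
  have h7 : (2 * M + 1) * 7 ≤ (2 * M + 1) * (w₀ + 6) :=
    mul_le_mul_of_nonneg_left (by omega) (by omega)
  have hww : w₀ + 6 ≤ w := by
    by_contra hcon
    have h8 : (2 * M + 1) * w < (2 * M + 1) * (w₀ + 6) :=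
      mul_lt_mul_of_pos_left (by omega) (by omega)
    omega
  have hw0 : 0 ≤ w := by omega
  have h3w : 3 * (μ * w) ≤ 2 * r₁ + 1 := by
    have h9 : (3 * μ) * w ≤ (2 * M + 1) * w := mul_le_mul_of_nonneg_right hD3 hw0
    have h10 : 3 * μ * w = 3 * (μ * w) := by ring
    omega
  rw [hDw] at hw2 hw3
  refine ⟨w, r₁, hw1, by omega, hr₁, by omega, by omega, by omega, by omega, by omega, ?_⟩
  intro h11
  have h12 : (4 * (μ + 10)) * w ≤ (2 * M + 1) * w := mul_le_mul_of_nonneg_right (by omega) hw0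
  have h13 : 4 * (μ + 10) * w = 4 * ((μ + 10) * w) := by ring
  omega

/-- POINTWISE INNER SEPARATION.  As `outer_pt`, from `inner_land κ e` and `route_in` with `r' = r`.  `G₁ = {r₁ - μ w < nrm v ≤ 2 r₁} ⊆ G`,
`Sout r R ⊆ Sout r₁ R` (`Sout.mono`), `Sout (2 r₁) R ⊆ Sout (8 r) R`, which does not depend on `G` (`Sout.dep`). -/
theorem inner_pt (κ : ℕ → ℝ) (e : ℝ) (he : 0 < e) : ∃ (C : ℝ) (R₀ : ℤ), 0 < C ∧ 16 ≤ R₀ ∧
    ∀ L : Lat, RSW L κ → ∀ r R : ℤ, R₀ ≤ r → 64 * r ≤ R → ∀ G : Finset Pt,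
      (∀ v, v ∈ G ↔ r / 2 < nrm v ∧ nrm v ≤ 8 * r) → ∀ ω : Cfg,
      cpr G (L.Sout r R) ω ≤ e * ind (L.Sout (8 * r) R) ω + C * cpr G (L.S4 r R) ω := by
  obtain ⟨μ, Mc, w₀, C₁, Λ, hμ, hμ0, hMc, hw₀, hC₁, hLand, H⟩ := inner_land κ e he
  have hch : ∀ q : Bool × (Fin 4 → ℤ) × (Fin 4 → ℤ) × (Fin 4 → ℤ), ∃ (p : ℝ) (w₀' : ℤ),
      0 < p ∧ 0 < w₀' ∧
      (q ∈ Λ → ∀ L : Lat, RSW L κ → ∀ w R r' : ℤ, w % 2 = 1 → w₀' ≤ w →
      2 * ((μ * Mc + μ / 2) * w + w / 2) ≤ R →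
      r' + (μ + 10) * w ≤ (μ * Mc + μ / 2) * w + w / 2 →
      (μ * Mc + μ / 2) * w + w / 2 ≤ 4 * r' → ∀ G : Finset Pt,
      (∀ v, r' / 2 < nrm v → nrm v ≤ (μ * Mc + μ / 2) * w + w / 2 → v ∈ G) → ∀ ω : Cfg,
      p * cpr G (L.E2i w μ Mc R q.1 q.2.1 q.2.2.1 q.2.2.2) ω ≤ cpr G (L.S4 r' R) ω) := by
    intro q
    by_cases hq : q ∈ Λ
    · obtain ⟨p, w₁, h1, h2, h3⟩ := route_in κ μ Mc hμ hμ0 hMc q.1 q.2.1 q.2.2.1 q.2.2.2
        (hLand q hq).1 (hLand q hq).2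
      exact ⟨p, w₁, h1, h2, fun _ => h3⟩
    · exact ⟨1, 1, one_pos, one_pos, fun h => absurd h hq⟩
  choose p w₁ hp hw₁ hroute using hch
  have hsum : 0 ≤ ∑ q ∈ Λ, w₁ q := Finset.sum_nonneg fun q _ => (hw₁ q).le
  have hsumC : 0 ≤ ∑ q ∈ Λ, 1 / p q := Finset.sum_nonneg fun q _ => (one_div_pos.2 (hp q)).le
  refine ⟨C₁ * ∑ q ∈ Λ, 1 / p q + 1,
    max 16 ((2 * (μ * Mc + μ / 2) + 1) * ((w₀ + ∑ q ∈ Λ, w₁ q) + 6)), by positivity,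
    le_max_left _ _, ?_⟩
  intro L hL r R hr hrR G hG ω
  have hr16 : 16 ≤ r := le_trans (le_max_left _ _) hr
  obtain ⟨w, r₁, hw1, hww, hr₁, hr1, hr2, hr3, hr4, hr5, hr6⟩ := inner_arith (r := r) hμ hμ0 hMc
    (w₀ := w₀ + ∑ q ∈ Λ, w₁ q) (by omega) (le_trans (le_max_right _ _) hr) hr16
  obtain ⟨G₁, hG₁⟩ := exists_annF (r₁ - μ * w) (2 * r₁)
  have hGG : G ∪ G₁ = G := by
    refine Finset.union_eq_left.2 fun v hv => ?_
    have h1 := (hG₁ v).1 hv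
    exact (hG v).2 ⟨by omega, by omega⟩
  have hpt : ∀ ω' : Cfg, cpr G₁ (L.Sout r₁ R) ω' ≤
      e * ind (L.Sout (2 * r₁) R) ω' +
        C₁ * ∑ q ∈ Λ, cpr G₁ (L.E2i w μ Mc R q.1 q.2.1 q.2.2.1 q.2.2.2) ω' := by
    intro ω'
    have h1 := H L hL w R hw1 (by omega) (by rw [← hr₁]; omega) G₁
      (fun v => by rw [← hr₁]; exact hG₁ v) ω'
    rw [← hr₁] at h1
    exact h1
  have hav : ∀ A : Cfg → Prop, av G (cpr G₁ A) ω = cpr G A ω := by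
    intro A
    show av G (av G₁ (ind A)) ω = av G (ind A) ω
    rw [av_av, hGG]
  have step1 : cpr G (L.Sout r R) ω ≤ cpr G (L.Sout r₁ R) ω :=
    cpr_mono fun ω' _ h => Lat.Sout.mono h (by omega) hr1 (by omega)
  have step2 : cpr G (L.Sout r₁ R) ω ≤
      e * av G (ind (L.Sout (2 * r₁) R)) ω +
        C₁ * ∑ q ∈ Λ, cpr G (L.E2i w μ Mc R q.1 q.2.1 q.2.2.1 q.2.2.2) ω := by
    rw [← hav]
    refine (av_mono fun ω' _ => hpt ω').trans (le_of_eq ?_)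
    rw [av_add, av_smul, av_smul, av_sum]
    congr 2
    refine Finset.sum_congr rfl fun q _ => ?_
    exact hav _
  have step3 : av G (ind (L.Sout (2 * r₁) R)) ω ≤ ind (L.Sout (8 * r) R) ω := by
    have h1 : av G (ind (L.Sout (2 * r₁) R)) ω ≤ av G (ind (L.Sout (8 * r) R)) ω :=
      cpr_mono fun ω' _ h => Lat.Sout.mono h (by omega) (by omega) (by omega)
    refine h1.trans (le_of_eq ?_)
    refine av_of_dep (Dep.ind (Lat.Sout.dep L (r := 8 * r) (R := R) (by omega) (by omega)))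
      (fun v hv hv' => ?_) ω
    have h2 := (hG v).1 hv
    have h3 : 8 * r < nrm v ∧ nrm v ≤ 2 * R := hv'
    omega
  have step4 : ∀ q ∈ Λ, cpr G (L.E2i w μ Mc R q.1 q.2.1 q.2.2.1 q.2.2.2) ω ≤
      1 / p q * cpr G (L.S4 r R) ω := by
    intro q hq
    have hl := (hLand q hq).1
    have hcor := hl.cor 0
    have habs := abs_nonneg (fpos μ q.1 q.2.2.1 0)
    have h1 := hroute q hq L hL w R r hw1 ?_ (by rw [← hr₁]; omega)
      (by rw [← hr₁]; exact hr6 (by omega)) (by rw [← hr₁]; exact hr5) G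
      (fun v h2 h3 => (hG v).2 ⟨h2, by rw [← hr₁] at h3; omega⟩) ω
    · rw [one_div, ← div_eq_inv_mul, le_div_iff₀ (hp q), mul_comm]
      exact h1
    · have h4 : w₁ q ≤ ∑ q ∈ Λ, w₁ q :=
        Finset.single_le_sum (f := w₁) (fun q _ => (hw₁ q).le) hq
      omega
  have hS0 : 0 ≤ cpr G (L.S4 r R) ω := cpr_nonneg _ _ _
  have step5 : ∑ q ∈ Λ, cpr G (L.E2i w μ Mc R q.1 q.2.1 q.2.2.1 q.2.2.2) ω ≤
      (∑ q ∈ Λ, 1 / p q) * cpr G (L.S4 r R) ω := by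
    rw [Finset.sum_mul]
    exact Finset.sum_le_sum step4
  calc cpr G (L.Sout r R) ω ≤ cpr G (L.Sout r₁ R) ω := step1
    _ ≤ e * av G (ind (L.Sout (2 * r₁) R)) ω +
        C₁ * ∑ q ∈ Λ, cpr G (L.E2i w μ Mc R q.1 q.2.1 q.2.2.1 q.2.2.2) ω := step2
    _ ≤ e * ind (L.Sout (8 * r) R) ω +
        C₁ * ((∑ q ∈ Λ, 1 / p q) * cpr G (L.S4 r R) ω) :=
        add_le_add (mul_le_mul_of_nonneg_left step3 he.le)
          (mul_le_mul_of_nonneg_left step5 hC₁.le)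
    _ ≤ e * ind (L.Sout (8 * r) R) ω +
        (C₁ * ∑ q ∈ Λ, 1 / p q + 1) * cpr G (L.S4 r R) ω := by
        have h6 : (C₁ * ∑ q ∈ Λ, 1 / p q + 1) * cpr G (L.S4 r R) ω =
          C₁ * ((∑ q ∈ Λ, 1 / p q) * cpr G (L.S4 r R) ω) + cpr G (L.S4 r R) ω := by ring
        rw [h6]
        linarith

end SC
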