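import Pool.Agent.Lib_MP_e0a489.SE14
import Pool.Agent.Lib_MP_e0a489.SE15
import Pool.Agent.Lib_MP_e0a489.SE16
import Pool.Agent.Lib_MP_e0a489.SE2

/-!
# MP_e0a489, module SE 18: two-time outer separation
-/

set_option autoImplicit false

namespace SC

variable [IfL]

open Classical

/-- `outer_pt κ (e / 4)` gives `C₁`; `min_trick` with `A = TwoA true r R`, `B = Sout r R`, `D = TwoA true r (R/4)` (`A ⊆ D`: `TwoA.mono`; `D` depends on
`ann r (R/4)`), `l = min 1 (e / (4 C₁))`: `2 (e / 4 + C₁ l) ≤ e`.  On `{r < nrm v ≤ 2R}` the correlation `0` on `G`, `k` off `G` is `ko k R`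
(`pr2_congr`, `Sout.dep`). -/
theorem step_out (κ : ℕ → ℝ) (e : ℝ) (he : 0 < e) : ∃ (C : ℝ) (R₀ : ℤ), 0 < C ∧ 16 ≤ R₀ ∧
    ∀ L : Lat, RSW L κ → ∀ k : Pt → ℝ, Kap k → ∀ r R : ℤ, 1 ≤ r → R₀ ≤ R → 16 * r ≤ R →
      pr2 k (L.TwoA true r R) ≤ e * pr2 k (L.TwoA true r (R / 4)) +
        C * pr2 (ko k R) (L.Sout r R) := by
  obtain ⟨C₁, R₀, hC₁, hR₀, H⟩ := outer_pt κ (e / 4) (by positivity)
  have hl0 : 0 < min 1 (e / (4 * C₁)) := lt_min one_pos (by positivity)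
  obtain ⟨l, hl⟩ : ∃ l, l = min 1 (e / (4 * C₁)) := ⟨_, rfl⟩
  rw [← hl] at hl0
  have hl1 : C₁ * l ≤ e / 4 := by
    have h1 : l ≤ e / (4 * C₁) := hl ▸ min_le_right _ _
    have h2 : C₁ * l ≤ C₁ * (e / (4 * C₁)) := mul_le_mul_of_nonneg_left h1 hC₁.le
    have h3 : C₁ * (e / (4 * C₁)) = e / 4 := by field_simp
    linarith
  refine ⟨2 / l ^ 2, R₀, by positivity, hR₀, fun L hL k hk r R hr hR hrR => ?_⟩
  obtain ⟨G, hG⟩ := exists_annF (R / 4) (2 * R)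
  have h1 := min_trick (A := L.TwoA true r R) (B := L.Sout r R) (D := L.TwoA true r (R / 4))
    (Lat.TwoA.loc L true r R) (Lat.Sout.loc L r R) (Lat.TwoA.loc L true r (R / 4)) (G := G)
    (Lat.TwoA.dep L true r (R / 4))
    (fun v hv hv' => by
      have h2 := (hG v).1 hv
      have h3 : r < nrm v ∧ nrm v ≤ R / 4 := hv'
      omega)
    (fun ω hω => Lat.TwoA.mono hω (by omega) (le_refl r) (by omega) (by omega))
    (e := e / 4) (C := C₁) (l := l) (by positivity) hC₁.le hl0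
    (fun ω => H L hL r R hr hR hrR G hG ω) hk
  have h2 : pr2 (fun v => if v ∈ G then 0 else k v) (L.Sout r R) =
      pr2 (ko k R) (L.Sout r R) := by
    refine pr2_congr (Lat.Sout.loc L r R) (Lat.Sout.dep L (by omega) (by omega)) fun v hv => ?_
    have hv1 : r < nrm v ∧ nrm v ≤ 2 * R := hv
    by_cases h3 : R / 4 < nrm v
    · have e1 : ko k R v = 0 := if_pos h3
      rw [e1]
      exact if_pos ((hG v).2 ⟨h3, hv1.2⟩)
    · have e1 : ko k R v = k v := if_neg h3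
      rw [e1]
      exact if_neg fun h4 => h3 ((hG v).1 h4).1
  rw [h2] at h1
  refine h1.trans (add_le_add ?_ (le_refl _))
  exact mul_le_mul_of_nonneg_right (by linarith) (pr2_nonneg _ hk)

/-- TWO-TIME OUTER SEPARATION.  `q = κ 2000 ^ 16` (`> 0` if some `RSW L κ` holds: do `by_cases h : 0 < κ 2000`; if not, no `L`
satisfies `RSW L κ`, and the statement is void), `e = q / 2` in `step_out` (constants `C₁, R₁`), `C = max (2 C₁) ((κ 20000 ^ 8)⁻¹)`,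
`R₀ = max R₁ 64`.  Induction on `R` (`Int.toNat R`, strong).  If `R ≤ 64 r`: `pr2 (ko k R) (Sout r R) ≥ (pr (Sout r R))² ≥ κ 20000 ^ 8`
(`Sout_base'`, `pr2_ge_sq`) and the left side is `≤ 1`.  If `R > 64 r`: `step_out`, the induction hypothesis for `R / 4 ≥ r`, and
`q * pr2 (ko k (R/4)) (Sout r (R/4)) ≤ pr2 (ko k R) (Sout r R)` (`out2`), so the left side is
`≤ (e C / q + C₁) pr2 (ko k R) (Sout r R) ≤ C pr2 (ko k R) (Sout r R)`. -/
theorem sep_out (κ : ℕ → ℝ) : ∃ (C : ℝ) (R₀ : ℤ), 0 < C ∧ 16 ≤ R₀ ∧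
    ∀ L : Lat, RSW L κ → ∀ k : Pt → ℝ, Kap k → ∀ r R : ℤ, R₀ ≤ r → r ≤ R →
      pr2 k (L.TwoA true r R) ≤ C * pr2 (ko k R) (L.Sout r R) := by
  by_cases hκ : 0 < κ 2000
  swap
  · exact ⟨1, 16, one_pos, le_refl _, fun L hL => absurd (hL.pos 2000) hκ⟩
  have hq : 0 < κ 2000 ^ 16 := pow_pos hκ 16
  obtain ⟨C₁, R₁, hC₁, hR₁, H⟩ := step_out κ (κ 2000 ^ 16 / 2) (by positivity)
  have hC : 0 < max (2 * C₁) ((κ 20000 ^ 8)⁻¹) := lt_max_of_lt_left (by positivity)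
  refine ⟨max (2 * C₁) ((κ 20000 ^ 8)⁻¹), max R₁ 64, hC, by omega, fun L hL k hk r R hr => ?_⟩
  have hr1 : R₁ ≤ r := (le_max_left _ _).trans hr
  have hr2 : 64 ≤ r := (le_max_right _ _).trans hr
  obtain ⟨C, hCe⟩ : ∃ C, C = max (2 * C₁) ((κ 20000 ^ 8)⁻¹) := ⟨_, rfl⟩
  rw [← hCe] at hC ⊢
  have hC1 : 2 * C₁ ≤ C := hCe ▸ le_max_left _ _
  have hC2 : (κ 20000 ^ 8)⁻¹ ≤ C := hCe ▸ le_max_right _ _
  suffices hmain : ∀ n : ℕ, ∀ R : ℤ, R.toNat ≤ n → r ≤ R →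
      pr2 k (L.TwoA true r R) ≤ C * pr2 (ko k R) (L.Sout r R) from hmain R.toNat R (le_refl _)
  intro n
  induction n with
  | zero =>
    intro R hn hrR
    exfalso
    omega
  | succ n ih =>
    intro R hn hrR
    by_cases hR : R ≤ 64 * r
    · have h1 : κ 20000 ^ 4 ≤ pr (L.Sout r R) := Sout_base' hL (by omega) hrR (by omega)
      have h2 : pr (L.Sout r R) ^ 2 ≤ pr2 (ko k R) (L.Sout r R) :=
        pr2_ge_sq (Lat.Sout.loc L r R) (ko_kap hk R)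
      have hp : 0 < κ 20000 := hL.pos 20000
      have h3 : κ 20000 ^ 8 ≤ pr2 (ko k R) (L.Sout r R) := by
        have h4 : (κ 20000 ^ 4) ^ 2 ≤ pr (L.Sout r R) ^ 2 :=
          pow_le_pow_left₀ (by positivity) h1 2
        have h5 : (κ 20000 ^ 4) ^ 2 = κ 20000 ^ 8 := by ring
        linarith
      have h6 : pr2 k (L.TwoA true r R) ≤ 1 := pr2_le_one (Lat.TwoA.loc L true r R) hk
      have h7 : (1 : ℝ) = (κ 20000 ^ 8)⁻¹ * κ 20000 ^ 8 :=
        (inv_mul_cancel₀ (ne_of_gt (pow_pos hp 8))).symm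
      have h8 : (κ 20000 ^ 8)⁻¹ * κ 20000 ^ 8 ≤ C * pr2 (ko k R) (L.Sout r R) :=
        mul_le_mul hC2 h3 (by positivity) hC.le
      linarith
    · have h1 := H L hL k hk r R (by omega) (by omega) (by omega)
      have h2 := ih (R / 4) (by omega) (by omega)
      have h3 := out2 hL hk (r := r) (R := R / 4) (R' := R) (by omega) (by omega) (by omega)
        (by omega) (by omega)
      have h4 : κ 2000 ^ 16 / 2 * pr2 k (L.TwoA true r (R / 4)) ≤
          κ 2000 ^ 16 / 2 * (C * pr2 (ko k (R / 4)) (L.Sout r (R / 4))) :=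
        mul_le_mul_of_nonneg_left h2 (by positivity)
      have h5 : κ 2000 ^ 16 / 2 * (C * pr2 (ko k (R / 4)) (L.Sout r (R / 4))) =
          C / 2 * (κ 2000 ^ 16 * pr2 (ko k (R / 4)) (L.Sout r (R / 4))) := by ring
      have h6 : C / 2 * (κ 2000 ^ 16 * pr2 (ko k (R / 4)) (L.Sout r (R / 4))) ≤
          C / 2 * pr2 (ko k R) (L.Sout r R) := mul_le_mul_of_nonneg_left h3 (by positivity)
      have h7 : 0 ≤ pr2 (ko k R) (L.Sout r R) := pr2_nonneg _ (ko_kap hk R)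
      have h8 : 2 * C₁ * pr2 (ko k R) (L.Sout r R) ≤ C * pr2 (ko k R) (L.Sout r R) :=
        mul_le_mul_of_nonneg_right hC1 h7
      linarith

end SC
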