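import Pool.Agent.Lib_MP_e0a489.SE14
import Pool.Agent.Lib_MP_e0a489.SE15
import Pool.Agent.Lib_MP_e0a489.SE17
import Pool.Agent.Lib_MP_e0a489.SE2

/-!
# MP_e0a489, module SE 19: two-time inner separation
-/

set_option autoImplicit false

namespace SC

variable [IfL]

open Classical

/-- `inner_pt κ (e / 4)` and `min_trick` for the correlation `ko k R`, `A = Sout r R`, `B = S4 r R`, `D = Sout (8 r) R` (`A ⊆ D`: `Sout.mono`; `Sout.dep`),
`l = min 1 (e / (4 C₁))`.  On `{r/2 < nrm v ≤ 2R}` (`S4.dep`) the new correlation is `kz k r R`. -/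
theorem step_in (κ : ℕ → ℝ) (e : ℝ) (he : 0 < e) : ∃ (C : ℝ) (R₀ : ℤ), 0 < C ∧ 16 ≤ R₀ ∧
    ∀ L : Lat, RSW L κ → ∀ k : Pt → ℝ, Kap k → ∀ r R : ℤ, R₀ ≤ r → 64 * r ≤ R →
      pr2 (ko k R) (L.Sout r R) ≤ e * pr2 (ko k R) (L.Sout (8 * r) R) +
        C * pr2 (kz k r R) (L.S4 r R) := by
  obtain ⟨C₁, R₁, hC₁, hR₁, H⟩ := inner_pt κ (e / 4) (by positivity)
  have hl : 0 < min 1 (e / (4 * C₁)) := lt_min one_pos (by positivity)
  refine ⟨2 / (min 1 (e / (4 * C₁))) ^ 2, R₁, by positivity, hR₁, ?_⟩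
  intro L hL k hk r R hr hR
  obtain ⟨G, hG⟩ := exists_annF (r / 2) (8 * r)
  have hD : Dep (L.Sout (8 * r) R) {v | 8 * r < nrm v ∧ nrm v ≤ 2 * R} :=
    Lat.Sout.dep L (by omega) (by omega)
  have h1 := min_trick (A := L.Sout r R) (B := L.S4 r R) (D := L.Sout (8 * r) R)
    (Lat.Sout.loc L r R) (Lat.S4.loc L r R) (Lat.Sout.loc L (8 * r) R) (G := G) hD
    (fun v hv hv' => by
      have h2 := ((hG v).1 hv).2
      have h3 : 8 * r < nrm v := hv'.1
      omega)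
    (fun ω h => Lat.Sout.mono h (by omega) (by omega) (by omega))
    (e := e / 4) (C := C₁) (l := min 1 (e / (4 * C₁))) (by positivity) hC₁.le hl
    (fun ω => H L hL r R hr hR G hG ω) (ko_kap hk R)
  have h2 : pr2 (fun v => if v ∈ G then 0 else ko k R v) (L.S4 r R) =
      pr2 (kz k r R) (L.S4 r R) := by
    refine pr2_congr (Lat.S4.loc L r R) (Lat.S4.dep L (by omega) (by omega)) fun v hv => ?_
    have hv1 : r / 2 < nrm v := hv.1
    show (if v ∈ G then 0 else ko k R v) = kz k r R v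
    unfold kz ko
    by_cases h8 : nrm v ≤ 8 * r
    · rw [if_pos ((hG v).2 ⟨hv1, h8⟩), if_pos (Or.inl h8)]
    · have h9 : v ∉ G := fun hc => h8 ((hG v).1 hc).2
      rw [if_neg h9]
      by_cases h10 : R / 4 < nrm v
      · rw [if_pos h10, if_pos (Or.inr h10)]
      · rw [if_neg h10, if_neg (fun hc => hc.elim h8 h10)]
  rw [h2] at h1
  have h3 : C₁ * min 1 (e / (4 * C₁)) ≤ e / 4 := by
    have h4 : C₁ * min 1 (e / (4 * C₁)) ≤ C₁ * (e / (4 * C₁)) :=
      mul_le_mul_of_nonneg_left (min_le_right _ _) hC₁.le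
    have h5 : C₁ * (e / (4 * C₁)) = e / 4 := by
      field_simp
    rw [h5] at h4
    exact h4
  have h6 := pr2_nonneg (L.Sout (8 * r) R) (ko_kap hk R)
  have h7 : 2 * (e / 4 + C₁ * min 1 (e / (4 * C₁))) * pr2 (ko k R) (L.Sout (8 * r) R) ≤
      e * pr2 (ko k R) (L.Sout (8 * r) R) :=
    mul_le_mul_of_nonneg_right (by linarith) h6
  linarith

/-- bounded ratio of the radii -/
theorem sep_in_base {L : Lat} {κ : ℕ → ℝ} (hL : RSW L κ) {k : Pt → ℝ} (hk : Kap k) {r R : ℤ}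
    (hr : 16 ≤ r) (hrR : r ≤ R) (h : R ≤ 1000 * r) {C : ℝ} (hC : (κ 20000 ^ 8)⁻¹ ≤ C) :
    pr2 (ko k R) (L.Sout r R) ≤ C * pr2 (kz k r R) (L.S4 r R) := by
  have hq : 0 < κ 20000 ^ 8 := pow_pos (hL.pos 20000) 8
  have h1 := pr2_le_one (Lat.Sout.loc L r R) (ko_kap hk R)
  have h2 := S4_base' hL hr hrR h
  have h3 := pr2_ge_sq (Lat.S4.loc L r R) (kz_kap hk r R)
  have h4 : κ 20000 ^ 8 ≤ pr2 (kz k r R) (L.S4 r R) := by
    refine le_trans ?_ h3
    have h5 : κ 20000 ^ 8 = (κ 20000 ^ 4) ^ 2 := by rw [← pow_mul]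
    rw [h5]
    exact pow_le_pow_left₀ (pow_pos (hL.pos 20000) 4).le h2 2
  have h6 : (1 : ℝ) = (κ 20000 ^ 8)⁻¹ * κ 20000 ^ 8 := (inv_mul_cancel₀ hq.ne').symm
  calc pr2 (ko k R) (L.Sout r R) ≤ 1 := h1
    _ = (κ 20000 ^ 8)⁻¹ * κ 20000 ^ 8 := h6
    _ ≤ C * pr2 (kz k r R) (L.S4 r R) :=
      mul_le_mul hC h4 hq.le (le_trans (inv_pos.2 hq).le hC)

/-- TWO-TIME INNER SEPARATION.  As `sep_out`: `q = κ 2000 ^ 16`, `e = q / 2`, `C = max (2 C₁) ((κ 20000 ^ 8)⁻¹)`.  Induction on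
`Int.toNat (R - r)`.  If `R ≤ 512 r`: `S4_base'`.  Otherwise `step_in`, the induction hypothesis for `8 r`, and `inS2` (from the
inner radius `8 r` to `r`): `q * pr2 (kz k (8r) R) (S4 (8r) R) ≤ pr2 (kz k r R) (S4 r R)`. -/
theorem sep_in (κ : ℕ → ℝ) : ∃ (C : ℝ) (R₀ : ℤ), 0 < C ∧ 16 ≤ R₀ ∧
    ∀ L : Lat, RSW L κ → ∀ k : Pt → ℝ, Kap k → ∀ r R : ℤ, R₀ ≤ r → r ≤ R →
      pr2 (ko k R) (L.Sout r R) ≤ C * pr2 (kz k r R) (L.S4 r R) := by
  by_cases hκ : 0 < κ 2000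
  · have hq : 0 < κ 2000 ^ 16 := pow_pos hκ 16
    obtain ⟨C₁, R₁, hC₁, hR₁, H⟩ := step_in κ (κ 2000 ^ 16 / 2) (by positivity)
    refine ⟨max (2 * C₁) ((κ 20000 ^ 8)⁻¹), R₁, lt_max_of_lt_left (by positivity), hR₁, ?_⟩
    intro L hL k hk
    have hC : 0 < max (2 * C₁) ((κ 20000 ^ 8)⁻¹) := lt_max_of_lt_left (by positivity)
    have key : ∀ n : ℕ, ∀ r R : ℤ, R₁ ≤ r → r ≤ R → (R - r).toNat ≤ n →
        pr2 (ko k R) (L.Sout r R) ≤
          max (2 * C₁) ((κ 20000 ^ 8)⁻¹) * pr2 (kz k r R) (L.S4 r R) := by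
      intro n
      induction n with
      | zero =>
        intro r R hr hrR hn
        exact sep_in_base hL hk (by omega) hrR (by omega) (le_max_right _ _)
      | succ n ih =>
        intro r R hr hrR hn
        by_cases h512 : R ≤ 512 * r
        · exact sep_in_base hL hk (by omega) hrR (by omega) (le_max_right _ _)
        · have h1 := H L hL k hk r R hr (by omega)
          have h2 := ih (8 * r) R (by omega) (by omega) (by omega)
          have h3 := inS2 hL hk (r := 8 * r) (R := R) (r' := r) (by omega) (by omega)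
            (by omega) (by omega)
          have h4 := pr2_nonneg (L.S4 r R) (kz_kap hk r R)
          have h5 : κ 2000 ^ 16 / 2 * pr2 (ko k R) (L.Sout (8 * r) R) ≤
              κ 2000 ^ 16 / 2 * (max (2 * C₁) ((κ 20000 ^ 8)⁻¹) *
                pr2 (kz k (8 * r) R) (L.S4 (8 * r) R)) :=
            mul_le_mul_of_nonneg_left h2 (by positivity)
          have h6 : κ 2000 ^ 16 / 2 * (max (2 * C₁) ((κ 20000 ^ 8)⁻¹) *
                pr2 (kz k (8 * r) R) (L.S4 (8 * r) R)) ≤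
              max (2 * C₁) ((κ 20000 ^ 8)⁻¹) / 2 * pr2 (kz k r R) (L.S4 r R) := by
            have h7 := mul_le_mul_of_nonneg_left h3
              (show 0 ≤ max (2 * C₁) ((κ 20000 ^ 8)⁻¹) / 2 by positivity)
            calc κ 2000 ^ 16 / 2 * (max (2 * C₁) ((κ 20000 ^ 8)⁻¹) *
                pr2 (kz k (8 * r) R) (L.S4 (8 * r) R))
                = max (2 * C₁) ((κ 20000 ^ 8)⁻¹) / 2 *
                  (κ 2000 ^ 16 * pr2 (kz k (8 * r) R) (L.S4 (8 * r) R)) := by ring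
              _ ≤ _ := h7
          have h8 : C₁ * pr2 (kz k r R) (L.S4 r R) ≤
              max (2 * C₁) ((κ 20000 ^ 8)⁻¹) / 2 * pr2 (kz k r R) (L.S4 r R) := by
            refine mul_le_mul_of_nonneg_right ?_ h4
            have h9 := le_max_left (2 * C₁) ((κ 20000 ^ 8)⁻¹)
            linarith
          linarith
    intro r R hr hrR
    exact key _ r R hr hrR le_rfl
  · exact ⟨1, 16, one_pos, le_rfl, fun L hL => absurd (hL.pos 2000) hκ⟩

end SC
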