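import Pool.Agent.Lib_MP_e0a489.SE18
import Pool.Agent.Lib_MP_e0a489.SE19

/-!
# MP_e0a489, module SE 20: the two-time separation theorem
-/

set_option autoImplicit false

namespace SC

variable [IfL]

open Classical

theorem Loc.via {A : Cfg → Prop} (hA : Loc A) (e : Equiv.Perm Pt) :
    Loc fun ω => A (SC.via e ω) := by
  obtain ⟨F, hF⟩ := hA
  refine ⟨F.image e, fun ω ω' h => ?_⟩
  refine hF _ _ fun v hv => ?_
  have h1 : e v ∈ ((F.image e : Finset Pt) : Set Pt) := by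
    rw [Finset.mem_coe, Finset.mem_image]
    exact ⟨v, hv, rfl⟩
  exact h (e v) h1

theorem Loc.flip {A : Cfg → Prop} (hA : Loc A) : Loc fun ω => A fun v => ! ω v := by
  obtain ⟨F, hF⟩ := hA
  refine ⟨F, fun ω ω' h => ?_⟩
  refine hF _ _ fun v hv => ?_
  have h1 := h v hv
  simp only [h1]

/-- colour exchange and transposition, in law: `pr2_flip` and `pr2_via` -/
theorem pr2_swtr {A : Cfg → Prop} (hA : Loc A) (k : Pt → ℝ) :
    pr2 k (fun ω => A (via (Equiv.prodComm ℤ ℤ) fun v => ! ω v)) =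
      pr2 (fun v => k (v.2, v.1)) A := by
  have h1 := pr2_via hA.flip (Equiv.prodComm ℤ ℤ) k
  have h2 := pr2_flip hA (fun v => k ((Equiv.prodComm ℤ ℤ) v))
  exact h1.trans h2

/-- `sep_out` and `sep_in`. -/
theorem sep2_true (κ : ℕ → ℝ) : ∃ (C : ℝ) (R₀ : ℤ), 0 < C ∧ 16 ≤ R₀ ∧ ∀ L : Lat, RSW L κ →
    ∀ k : Pt → ℝ, Kap k → ∀ r R : ℤ, R₀ ≤ r → r ≤ R →
      pr2 k (L.TwoA true r R) ≤ C * pr2 (kz k r R) (L.S4 r R) := by
  obtain ⟨C₁, R₁, hC₁, hR₁, H₁⟩ := sep_out κ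
  obtain ⟨C₂, R₂, hC₂, hR₂, H₂⟩ := sep_in κ
  refine ⟨C₁ * C₂, max R₁ R₂, mul_pos hC₁ hC₂, le_max_of_le_left hR₁, ?_⟩
  intro L hL k hk r R hr hrR
  have h1 := H₁ L hL k hk r R ((le_max_left _ _).trans hr) hrR
  have h2 := H₂ L hL k hk r R ((le_max_right _ _).trans hr) hrR
  have h3 := mul_le_mul_of_nonneg_left h2 hC₁.le
  rw [mul_assoc]
  exact h1.trans h3

/-- For `c = false` apply `sep2_true` to the lattice `L.sw.tr` (`RSW.sw`, `RSW.tr`) and the correlation `k (v.2, v.1)`; `TwoA_swtr`, `S4_swtr`,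
`pr2_swtr`; `kz` commutes with the transposition because the norm is invariant. -/
theorem sep2_x (κ : ℕ → ℝ) : ∃ (C : ℝ) (R₀ : ℤ), 0 < C ∧ 16 ≤ R₀ ∧ ∀ L : Lat, RSW L κ →
    ∀ k : Pt → ℝ, (∀ v, 0 ≤ k v ∧ k v ≤ 1) → ∀ (c : Bool) (r R : ℤ), R₀ ≤ r → r ≤ R →
      pr2 k (L.TwoA c r R) ≤ C * pr2 (kz k r R) (L.S4 r R) := by
  obtain ⟨C, R₀, hC, hR₀, H⟩ := sep2_true κ
  refine ⟨C, R₀, hC, hR₀, ?_⟩
  intro L hL k hk c r R hr hrR
  cases c with
  | true => exact H L hL k hk r R hr hrR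
  | false =>
    have h1 := H L.sw.tr hL.sw.tr (fun v => k (v.2, v.1)) (fun v => hk _) r R hr hrR
    have e1 : pr2 k (L.TwoA false r R) =
        pr2 (fun v => k (v.2, v.1)) (L.sw.tr.TwoA true r R) := by
      rw [← pr2_swtr (Lat.TwoA.loc L.sw.tr true r R) k]
      congr 1
      funext ω
      exact propext (Lat.TwoA_swtr L true r R ω).symm
    have e2 : pr2 (kz k r R) (L.S4 r R) =
        pr2 (kz (fun v => k (v.2, v.1)) r R) (L.sw.tr.S4 r R) := by
      have e3 : kz (fun v => k (v.2, v.1)) r R = fun v => kz k r R (v.2, v.1) := by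
        funext v
        have hn : nrm (v.2, v.1) = nrm v := max_comm _ _
        unfold kz
        rw [hn]
      rw [e3, ← pr2_swtr (Lat.S4.loc L.sw.tr r R) (kz k r R)]
      congr 1
      funext ω
      exact propext (Lat.S4_swtr L r R ω).symm
    rw [e1, e2]
    exact h1

end SC
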