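import Pool.Agent.Lib_MP_e0a489.SE20
import Pool.Agent.Lib_MP_e0a489.SE21

/-!
# MP_e0a489, module SE 22: two-time extension (all ratios) and gluing
-/

set_option autoImplicit false

namespace SC

variable [IfL]

open Classical

/-- TWO-TIME EXTENSION.  Constants: `q = κ 2000 ^ 16` (if `κ 2000 ≤ 0` there is no `L` with `RSW L κ`), `C₁, R₁` from `sep2_x`,
`C = q⁻¹ * q⁻¹ * max 1 C₁ + (κ 20000 ^ 8)⁻¹`, `R₀ = 8 R₁ + 200`.
If `R' ≤ 1000 r'`: the right side is at least `1` (`S4_base'`, `pr2_ge_sq`) and the left side at most `1`.  Otherwise `r' < R'`.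
Outward: `outS2`: `pr2 (kz k r R) (S4 r R) ≤ q⁻¹ pr2 (kz k r R') (S4 r R')`.
Inward, case `2 r' ≤ r`: `inS2` from `r` to `r'`.
Inward, case `r < 2 r'`: with `r'' = r / 4` (`2 r'' ≤ r ≤ 64 r''`, `16 ≤ r''`, `r'' ≤ r'`), `inS2` from `r` to `r''` and
`S4 r'' R' ⊆ TwoAt true 0 r' R' = TwoA true r' R'` (`S4_twoAt_x` with `d = 0`, `TwoAt_zero`), then `sep2_x` for the correlation
`kz k r'' R'`: `≤ C₁ pr2 (kz (kz k r'' R') r' R') (S4 r' R') ≤ C₁ pr2 (kz k r' R') (S4 r' R')` (`kz_kz_le`). -/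
theorem ext2_x (κ : ℕ → ℝ) : ∃ (C : ℝ) (R₀ : ℤ), 0 < C ∧ 16 ≤ R₀ ∧ ∀ L : Lat, RSW L κ →
    ∀ k : Pt → ℝ, (∀ v, 0 ≤ k v ∧ k v ≤ 1) → ∀ r R r' R' : ℤ, R₀ ≤ r' → r' ≤ r → r ≤ 64 * r' →
      r ≤ R → R ≤ R' → R' ≤ 64 * R →
      pr2 (kz k r R) (L.S4 r R) ≤ C * pr2 (kz k r' R') (L.S4 r' R') := by
  by_cases hpos : 0 < κ 2000 ∧ 0 < κ 20000
  swap
  · refine ⟨1, 16, one_pos, le_refl _, fun L hL => ?_⟩
    exact absurd ⟨hL.pos 2000, hL.pos 20000⟩ hpos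
  obtain ⟨hp1, hp2⟩ := hpos
  obtain ⟨C₁, R₁, hC₁, hR₁, hsep⟩ := sep2_x κ
  have hq : 0 < κ 2000 ^ 16 := pow_pos hp1 16
  have hs : 0 < κ 20000 ^ 8 := pow_pos hp2 8
  have hm : (0 : ℝ) < max 1 C₁ := lt_of_lt_of_le one_pos (le_max_left _ _)
  refine ⟨(κ 2000 ^ 16)⁻¹ * (κ 2000 ^ 16)⁻¹ * max 1 C₁ + (κ 20000 ^ 8)⁻¹, 8 * R₁ + 200, by positivity,
    by omega, ?_⟩
  intro L hL k hk' r R r' R' h0 h1 h2 h3 h4 h5
  have hk : Kap k := hk'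
  have hQ : 0 ≤ pr2 (kz k r' R') (L.S4 r' R') := pr2_nonneg _ (kz_kap hk r' R')
  by_cases hA : R' ≤ 1000 * r'
  · have e1 : κ 20000 ^ 4 ≤ pr (L.S4 r' R') := S4_base' hL (by omega) (by omega) hA
    have e2 : pr (L.S4 r' R') ^ 2 ≤ pr2 (kz k r' R') (L.S4 r' R') :=
      pr2_ge_sq (Lat.S4.loc L r' R') (kz_kap hk r' R')
    have e3 : (κ 20000 ^ 4) ^ 2 ≤ pr (L.S4 r' R') ^ 2 :=
      pow_le_pow_left₀ (le_of_lt (pow_pos hp2 4)) e1 2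
    have e4 : (κ 20000 ^ 4) ^ 2 = κ 20000 ^ 8 := by rw [← pow_mul]
    have e5 : κ 20000 ^ 8 ≤ pr2 (kz k r' R') (L.S4 r' R') := by
      rw [← e4]
      exact le_trans e3 e2
    have e6 : pr2 (kz k r R) (L.S4 r R) ≤ 1 := pr2_le_one (Lat.S4.loc L r R) (kz_kap hk r R)
    have e7 : 1 ≤ (κ 20000 ^ 8)⁻¹ * pr2 (kz k r' R') (L.S4 r' R') := by
      rw [inv_mul_eq_div, le_div_iff₀ hs, one_mul]
      exact e5
    have e8 : 0 ≤ (κ 2000 ^ 16)⁻¹ * (κ 2000 ^ 16)⁻¹ * max 1 C₁ *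
        pr2 (kz k r' R') (L.S4 r' R') := mul_nonneg (by positivity) hQ
    rw [add_mul]
    linarith
  · have hA' : 1000 * r' < R' := not_le.1 hA
    have f1 : κ 2000 ^ 16 * pr2 (kz k r R) (L.S4 r R) ≤ pr2 (kz k r R') (L.S4 r R') :=
      outS2 hL hk (by omega) (by omega) h3 h4 h5
    have f2 : κ 2000 ^ 16 * pr2 (kz k r R') (L.S4 r R') ≤
        max 1 C₁ * pr2 (kz k r' R') (L.S4 r' R') := by
      by_cases hB : 2 * r' ≤ r
      · refine le_trans (inS2 hL hk (by omega) hB h2 (by omega)) ?_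
        exact le_mul_of_one_le_left hQ (le_max_left _ _)
      · have g1 : κ 2000 ^ 16 * pr2 (kz k r R') (L.S4 r R') ≤
            pr2 (kz k (r / 4) R') (L.S4 (r / 4) R') :=
          inS2 hL hk (by omega) (by omega) (by omega) (by omega)
        have g2 : pr2 (kz k (r / 4) R') (L.S4 (r / 4) R') ≤
            pr2 (kz k (r / 4) R') (L.TwoA true r' R') := by
          refine pr2_mono (Lat.S4.loc L (r / 4) R') (Lat.TwoA.loc L true r' R')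
            (kz_kap hk (r / 4) R') fun ω hω => ?_
          rw [← TwoAt_zero]
          refine S4_twoAt_x (d := 0) hω (by omega) ?_ (by omega) (by omega) (by omega)
          simp [nrm]
        have g3 : pr2 (kz k (r / 4) R') (L.TwoA true r' R') ≤
            C₁ * pr2 (kz (kz k (r / 4) R') r' R') (L.S4 r' R') :=
          hsep L hL (kz k (r / 4) R') (kz_kap hk (r / 4) R') true r' R' (by omega) (by omega)
        have g4 : pr2 (kz (kz k (r / 4) R') r' R') (L.S4 r' R') ≤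
            pr2 (kz k r' R') (L.S4 r' R') :=
          pr2_mono_k (Lat.S4.loc L r' R') (fun v => (kz_kap (kz_kap hk (r / 4) R') r' R' v).1)
            fun v => kz_kz_le hk (r / 4) R' r' R' v
        have g5 : C₁ * pr2 (kz (kz k (r / 4) R') r' R') (L.S4 r' R') ≤
            max 1 C₁ * pr2 (kz k r' R') (L.S4 r' R') :=
          le_trans (mul_le_mul_of_nonneg_left g4 (le_of_lt hC₁))
            (mul_le_mul_of_nonneg_right (le_max_right _ _) hQ)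
        exact le_trans g1 (le_trans g2 (le_trans g3 g5))
    have f3 : pr2 (kz k r R) (L.S4 r R) ≤
        (κ 2000 ^ 16)⁻¹ * ((κ 2000 ^ 16)⁻¹ * (max 1 C₁ * pr2 (kz k r' R') (L.S4 r' R'))) := by
      rw [inv_mul_eq_div, le_div_iff₀ hq, mul_comm]
      refine le_trans f1 ?_
      rw [inv_mul_eq_div, le_div_iff₀ hq, mul_comm]
      exact f2
    have f4 : 0 ≤ (κ 20000 ^ 8)⁻¹ * pr2 (kz k r' R') (L.S4 r' R') :=
      mul_nonneg (le_of_lt (inv_pos.mpr hs)) hQ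
    have f5 : (κ 2000 ^ 16)⁻¹ * ((κ 2000 ^ 16)⁻¹ * (max 1 C₁ * pr2 (kz k r' R') (L.S4 r' R'))) =
        (κ 2000 ^ 16)⁻¹ * (κ 2000 ^ 16)⁻¹ * max 1 C₁ * pr2 (kz k r' R') (L.S4 r' R') := by ring
    rw [add_mul]
    linarith

/-- `glueS2`, `C = (κ 2000 ^ 24)⁻¹` (if `κ 2000 ≤ 0` there is no `L`; take `C = 1`). -/
theorem glue2_x (κ : ℕ → ℝ) : ∃ (C : ℝ) (R₀ : ℤ), 0 < C ∧ 16 ≤ R₀ ∧ ∀ L : Lat, RSW L κ →
    ∀ k : Pt → ℝ, (∀ v, 0 ≤ k v ∧ k v ≤ 1) → ∀ r ρ ρ' R : ℤ, R₀ ≤ r → r ≤ ρ → 8 * ρ ≤ ρ' →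
      ρ' ≤ 64 * ρ → ρ' ≤ R →
      pr2 (kz k r ρ) (L.S4 r ρ) * pr2 (kz k ρ' R) (L.S4 ρ' R) ≤
        C * pr2 (kz k r R) (L.S4 r R) := by
  by_cases hpos : 0 < κ 2000
  swap
  · refine ⟨1, 16, one_pos, le_refl _, fun L hL => ?_⟩
    exact absurd (hL.pos 2000) hpos
  have hq : 0 < κ 2000 ^ 24 := pow_pos hpos 24
  refine ⟨(κ 2000 ^ 24)⁻¹, 16, inv_pos.mpr hq, le_refl _, ?_⟩
  intro L hL k hk r ρ ρ' R h0 h1 h2 h3 h4
  rw [inv_mul_eq_div, le_div_iff₀ hq, mul_comm]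
  exact glueS2 hL hk (by omega) (by omega) h1 h2 h3 h4

end SC
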