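import Pool.Agent.Lib_MP_e0a489.SE22

/-!
# MP_e0a489, module SE 23: comparison and quasi-multiplicativity for pairs of configurations
-/

set_option autoImplicit false

namespace SC

variable [IfL]

open Classical

private theorem SE23_S4_le {L : Lat} {k : Pt → ℝ} (hk : Kap k) {a b : ℤ} {r R r₁ R₁ : ℤ} {x : Pt}
    (c : Bool) (hr : 16 ≤ r) (h1 : r + nrm x ≤ r₁) (h2 : r₁ < R₁) (h3 : R₁ + nrm x ≤ R) :
    pr2 (kz k a b) (L.S4 r R) ≤ pr2 k (L.TwoAt c x r₁ R₁) := by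
  have hkz : Kap (kz k a b) := kz_kap hk a b
  calc pr2 (kz k a b) (L.S4 r R) ≤ pr2 (kz k a b) (L.TwoAt c x r₁ R₁) :=
        pr2_mono (Lat.S4.loc L r R) (TwoAt_loc L c x r₁ R₁) hkz
          fun ω h => S4_twoAt_x h hr le_rfl h1 h2 h3
    _ ≤ pr2 k (L.TwoAt c x r₁ R₁) :=
        pr2_mono_k (TwoAt_loc L c x r₁ R₁) (fun v => (hkz v).1) (kz_le_self hk a b)

private theorem SE23_zero {A : Cfg → Prop} (h : ∀ ω, ¬ A ω) (k : Pt → ℝ) : pr2 k A = 0 := by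
  have h0 : ∀ ω, ind A ω = 0 := fun ω => if_neg (h ω)
  unfold pr2 ex2
  split_ifs
  · unfold ex2F
    simp [h0]
  · rfl

/-- Radii changed by bounded factors, first the separated event.  `sep2_x` for `(r, R)`, `ext2_x` from `(r, R)` to `(r / 4, 5 R)`,
`S4_twoAt_x` with `d = nrm x` (`r / 4 + nrm x ≤ r / 2 ≤ r'`, `R' + nrm x ≤ 4 R + R / 4 ≤ 5 R`), `pr2_mono` (`TwoAt_loc`), `pr2_mono_k` (`kz_le_self`).
`R₀` = four times the constants of the two theorems plus `64`. -/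
theorem cmp2_x (κ : ℕ → ℝ) : ∃ (C : ℝ) (R₀ : ℤ), 0 < C ∧ 16 ≤ R₀ ∧ ∀ L : Lat, RSW L κ →
    ∀ k : Pt → ℝ, (∀ v, 0 ≤ k v ∧ k v ≤ 1) → ∀ (c c' : Bool) (x : Pt) (r R r' R' : ℤ),
      R₀ ≤ r → R₀ ≤ r' → r ≤ R → 4 * nrm x ≤ r → r ≤ 2 * r' → r' < R' → R' ≤ 4 * R →
      pr2 k (L.TwoA c r R) ≤ C * pr2 k (L.TwoAt c' x r' R') := by
  obtain ⟨C₁, R₁, hC₁, hR₁, H1⟩ := sep2_x κ
  obtain ⟨C₂, R₂, hC₂, hR₂, H2⟩ := ext2_x κ
  refine ⟨C₁ * C₂, 4 * (R₁ + R₂) + 64, mul_pos hC₁ hC₂, by omega, ?_⟩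
  intro L hL k hk c c' x r R r' R' hr hr' hrR hx h2 h3 h4
  have a1 := H1 L hL k hk c r R (by omega) hrR
  have a2 := H2 L hL k hk r R (r / 4) (5 * R) (by omega) (by omega) (by omega) hrR (by omega)
    (by omega)
  have a3 : pr2 (kz k (r / 4) (5 * R)) (L.S4 (r / 4) (5 * R)) ≤ pr2 k (L.TwoAt c' x r' R') :=
    SE23_S4_le hk c' (by omega) (by omega) h3 (by omega)
  calc pr2 k (L.TwoA c r R) ≤ C₁ * pr2 (kz k r R) (L.S4 r R) := a1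
    _ ≤ C₁ * (C₂ * pr2 (kz k (r / 4) (5 * R)) (L.S4 (r / 4) (5 * R))) :=
        mul_le_mul_of_nonneg_left a2 hC₁.le
    _ ≤ C₁ * (C₂ * pr2 k (L.TwoAt c' x r' R')) :=
        mul_le_mul_of_nonneg_left (mul_le_mul_of_nonneg_left a3 hC₂.le) hC₁.le
    _ = C₁ * C₂ * pr2 k (L.TwoAt c' x r' R') := by ring

private theorem SE23_S4_le0 {L : Lat} {k : Pt → ℝ} (hk : Kap k) {a b : ℤ} {r R : ℤ}
    (c : Bool) (hr : 16 ≤ r) (h2 : r < R) :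
    pr2 (kz k a b) (L.S4 r R) ≤ pr2 k (L.TwoA c r R) := by
  have hn : nrm (0 : Pt) = 0 := by simp [nrm]
  have h := SE23_S4_le (L := L) (k := k) hk (a := a) (b := b) (r := r) (R := R) (r₁ := r)
    (R₁ := R) (x := 0) c hr (by omega) h2 (by omega)
  have e : L.TwoAt c 0 r R = L.TwoA c r R := by
    funext ω
    exact propext (TwoAt_zero L c r R ω)
  rwa [e] at h

/-- QUASI-MULTIPLICATIVITY.  If `r = ρ` or `ρ = R` the left side is `0` (`TwoA_false`: `pr2 k False = 0`, e.g. `pr2_mono` with an event of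
probability `0`, or `ind` is the zero function) and the right side is `≥ 0`.  So `r < ρ < R`.
Case `8 ρ < R`: `TwoA c ρ R ⊆ TwoA c (8ρ) R` (`TwoA.mono`); `sep2_x` for both factors; `glue2_x` with `ρ' = 8 ρ`; `S4 r R ⊆ TwoA c r R` (`S4_twoAt_x`,
`x = 0`, `d = 0`, `TwoAt_zero`); `kz k r R ≤ k`.
Case `R ≤ 8 ρ`: the second factor is `≤ 1`; `sep2_x` for `(r, ρ)`, `ext2_x` from `(r, ρ)` to `(r, R)` (`R ≤ 64 ρ`), and again
`S4 r R ⊆ TwoA c r R`. -/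
theorem qmult2_x (κ : ℕ → ℝ) : ∃ (C : ℝ) (R₀ : ℤ), 0 < C ∧ 16 ≤ R₀ ∧ ∀ L : Lat, RSW L κ →
    ∀ k : Pt → ℝ, (∀ v, 0 ≤ k v ∧ k v ≤ 1) → ∀ (c : Bool) (r ρ R : ℤ),
      R₀ ≤ r → r ≤ ρ → ρ ≤ R →
      pr2 k (L.TwoA c r ρ) * pr2 k (L.TwoA c ρ R) ≤ C * pr2 k (L.TwoA c r R) := by
  obtain ⟨C₁, R₁, hC₁, hR₁, H1⟩ := sep2_x κ
  obtain ⟨C₂, R₂, hC₂, hR₂, H2⟩ := ext2_x κ
  obtain ⟨C₃, R₃, hC₃, hR₃, H3⟩ := glue2_x κ
  refine ⟨C₁ * C₁ * C₃ + C₁ * C₂, R₁ + R₂ + R₃, by positivity, by omega, ?_⟩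
  intro L hL k hk c r ρ R hr hrρ hρR
  have hk' : Kap k := hk
  have hT0 : 0 ≤ pr2 k (L.TwoA c r R) := pr2_nonneg _ hk'
  have hrhs : 0 ≤ (C₁ * C₁ * C₃ + C₁ * C₂) * pr2 k (L.TwoA c r R) := by positivity
  rcases eq_or_lt_of_le hrρ with hre | hrl
  · rw [SE23_zero (TwoA_false L c (by omega : ρ ≤ r)) k, zero_mul]
    exact hrhs
  rcases eq_or_lt_of_le hρR with hRe | hRl
  · rw [SE23_zero (TwoA_false L c (by omega : R ≤ ρ)) k, mul_zero]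
    exact hrhs
  have a1 := H1 L hL k hk c r ρ (by omega) hrρ
  have hX0 : 0 ≤ pr2 (kz k r ρ) (L.S4 r ρ) := pr2_nonneg _ (kz_kap hk' r ρ)
  have hZ : pr2 (kz k r R) (L.S4 r R) ≤ pr2 k (L.TwoA c r R) :=
    SE23_S4_le0 hk' c (by omega) (by omega)
  rcases lt_or_ge (8 * ρ) R with h8 | h8
  · have a2 : pr2 k (L.TwoA c ρ R) ≤ pr2 k (L.TwoA c (8 * ρ) R) :=
      pr2_mono (Lat.TwoA.loc L c ρ R) (Lat.TwoA.loc L c (8 * ρ) R) hk'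
        fun ω h => Lat.TwoA.mono h (by omega) (by omega) h8 le_rfl
    have a3 := H1 L hL k hk c (8 * ρ) R (by omega) (by omega)
    have a4 := H3 L hL k hk r ρ (8 * ρ) R (by omega) hrρ le_rfl (by omega) (by omega)
    calc pr2 k (L.TwoA c r ρ) * pr2 k (L.TwoA c ρ R)
        ≤ (C₁ * pr2 (kz k r ρ) (L.S4 r ρ)) *
            (C₁ * pr2 (kz k (8 * ρ) R) (L.S4 (8 * ρ) R)) :=
          mul_le_mul a1 (a2.trans a3) (pr2_nonneg _ hk') (mul_nonneg hC₁.le hX0)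
      _ = C₁ * C₁ * (pr2 (kz k r ρ) (L.S4 r ρ) *
            pr2 (kz k (8 * ρ) R) (L.S4 (8 * ρ) R)) := by ring
      _ ≤ C₁ * C₁ * (C₃ * pr2 (kz k r R) (L.S4 r R)) :=
          mul_le_mul_of_nonneg_left a4 (by positivity)
      _ ≤ C₁ * C₁ * (C₃ * pr2 k (L.TwoA c r R)) :=
          mul_le_mul_of_nonneg_left (mul_le_mul_of_nonneg_left hZ hC₃.le) (by positivity)
      _ ≤ (C₁ * C₁ * C₃ + C₁ * C₂) * pr2 k (L.TwoA c r R) := by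
          have : 0 ≤ C₁ * C₂ * pr2 k (L.TwoA c r R) := by positivity
          nlinarith [this]
  · have a2 : pr2 k (L.TwoA c ρ R) ≤ 1 := pr2_le_one (Lat.TwoA.loc L c ρ R) hk'
    have a3 := H2 L hL k hk r ρ r R (by omega) le_rfl (by omega) hrρ hρR (by omega)
    calc pr2 k (L.TwoA c r ρ) * pr2 k (L.TwoA c ρ R)
        ≤ pr2 k (L.TwoA c r ρ) * 1 :=
          mul_le_mul_of_nonneg_left a2 (pr2_nonneg _ hk')
      _ = pr2 k (L.TwoA c r ρ) := mul_one _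
      _ ≤ C₁ * pr2 (kz k r ρ) (L.S4 r ρ) := a1
      _ ≤ C₁ * (C₂ * pr2 (kz k r R) (L.S4 r R)) := mul_le_mul_of_nonneg_left a3 hC₁.le
      _ ≤ C₁ * (C₂ * pr2 k (L.TwoA c r R)) :=
          mul_le_mul_of_nonneg_left (mul_le_mul_of_nonneg_left hZ hC₂.le) hC₁.le
      _ ≤ (C₁ * C₁ * C₃ + C₁ * C₂) * pr2 k (L.TwoA c r R) := by
          have : 0 ≤ C₁ * C₁ * C₃ * pr2 k (L.TwoA c r R) := by positivity
          nlinarith [this]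

end SC
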