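import Pool.Agent.Lib_MP_e0a489.Defs2

/-!
# MP_e0a489, module SE: the structure `AlProps` (basic properties of the four arm probability)
-/

set_option autoImplicit false

namespace SC

open Classical

/-- Basic properties of the four arm probability of a lattice of the family `Fam`: `R₀`, `C` depend only on
`κ`. -/
structure AlProps (L : Lat) (C : ℝ) (R₀ : ℤ) : Prop where
  C1 : 1 ≤ C
  R16 : 16 ≤ R₀
  pos : ∀ r R, R₀ ≤ r → r ≤ R → 0 < al L r R
  le1 : ∀ r R, al L r R ≤ 1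
  /-- monotone (inclusion of events) -/
  mono : ∀ r R r' R', 0 ≤ r' → r' ≤ r → r ≤ R → R ≤ R' → al L r' R' ≤ al L r R
  /-- all centres, all colours, radii changed by bounded factors -/
  cmp : ∀ (c : Bool) (x : Pt) (r R r' R' : ℤ), R₀ ≤ r → R₀ ≤ r' → r ≤ R → r ≤ 2 * r' → r' ≤ R' →
    R' ≤ 4 * R → pr (L.TwoAt c x r R) ≤ C * al L r' R'
  /-- quasi-multiplicativity -/
  qmult : ∀ r ρ R, R₀ ≤ r → r ≤ ρ → ρ ≤ R → al L r ρ * al L ρ R ≤ C * al L r R

end SC
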