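import Pool.Agent.Lib_MP_e0a489.SE23
import Pool.Agent.Lib_MP_e0a489.SED

/-!
# MP_e0a489, module SE 24: basic properties of the four arm probability
-/

set_option autoImplicit false

namespace SC

variable [IfL]

open Classical

theorem shift_shift (L : Lat) (x y : Pt) : (L.shift x).shift y = L.shift (x + y) := by
  unfold Lat.shift
  congr 1
  · funext i j
    show L.ne (i + y.1 + x.1) (j + y.2 + x.2) = L.ne (i + (x + y).1) (j + (x + y).2)
    rw [Prod.fst_add, Prod.snd_add, add_assoc, add_assoc, add_comm y.1 x.1, add_comm y.2 x.2]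
  · funext v
    show L.typ (v + y + x) = L.typ (v + (x + y))
    rw [add_assoc, add_comm y x]

theorem shift_zero (L : Lat) : L.shift 0 = L := by
  unfold Lat.shift
  cases L
  simp

/-- `pr_via` for `Equiv.addRight x`. -/
theorem pr_TwoAt (L : Lat) (c : Bool) (x : Pt) (r R : ℤ) :
    pr (L.TwoAt c x r R) = pr ((L.shift x).TwoA c r R) := by
  exact pr_via (Lat.TwoA.loc (L.shift x) c r R) (Equiv.addRight x)

/-- Period 2: induction on the integers in both directions (`shift_shift`). -/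
theorem shift_even {L : Lat} {κ : ℕ → ℝ} (h : Fam L κ) (z : Pt) :
    L.shift (2 * z.1, 2 * z.2) = L := by
  have h1 : ∀ n : ℤ, L.shift (2 * n, 0) = L := by
    intro n
    induction n using Int.induction_on with
    | zero => exact shift_zero L
    | succ n ih =>
      have e := shift_shift L (2 * (n : ℤ), 0) (2, 0)
      rw [ih, h.per1] at e
      rw [show ((2 * ((n : ℤ) + 1), 0) : Pt) = (2 * (n : ℤ), 0) + (2, 0) by
        simp only [Prod.mk_add_mk, add_zero, Prod.mk.injEq, and_true]; ring]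
      exact e.symm
    | pred n ih =>
      have e := shift_shift L (2, 0) (2 * (-(n : ℤ) - 1), 0)
      rw [h.per1] at e
      rw [e, show ((2, 0) : Pt) + (2 * (-(n : ℤ) - 1), 0) = (2 * (-(n : ℤ)), 0) by
        simp only [Prod.mk_add_mk, add_zero, Prod.mk.injEq, and_true]; ring]
      exact ih
  have h2 : ∀ n : ℤ, L.shift (0, 2 * n) = L := by
    intro n
    induction n using Int.induction_on with
    | zero => exact shift_zero L
    | succ n ih =>
      have e := shift_shift L (0, 2 * (n : ℤ)) (0, 2)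
      rw [ih, h.per2] at e
      rw [show ((0, 2 * ((n : ℤ) + 1)) : Pt) = (0, 2 * (n : ℤ)) + (0, 2) by
        simp only [Prod.mk_add_mk, add_zero, Prod.mk.injEq, true_and]; ring]
      exact e.symm
    | pred n ih =>
      have e := shift_shift L (0, 2) (0, 2 * (-(n : ℤ) - 1))
      rw [h.per2] at e
      rw [e, show ((0, 2) : Pt) + (0, 2 * (-(n : ℤ) - 1)) = (0, 2 * (-(n : ℤ))) by
        simp only [Prod.mk_add_mk, add_zero, Prod.mk.injEq, true_and]; ring]
      exact ih
  have e := shift_shift L (2 * z.1, 0) (0, 2 * z.2)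
  rw [h1, h2] at e
  rw [show ((2 * z.1, 2 * z.2) : Pt) = (2 * z.1, 0) + (0, 2 * z.2) by simp]
  exact e.symm

/-- Every shift of `L` is a shift by a site `x'` of norm `≤ 1` (`x' = x mod 2`). -/
theorem shift_small {L : Lat} {κ : ℕ → ℝ} (h : Fam L κ) (x : Pt) :
    ∃ x' : Pt, nrm x' ≤ 1 ∧ L.shift x = L.shift x' := by
  refine ⟨(x.1 % 2, x.2 % 2), ?_, ?_⟩
  · unfold nrm
    simp only [max_le_iff, abs_le]
    omega
  · have e := shift_shift L (2 * (x.1 / 2), 2 * (x.2 / 2)) (x.1 % 2, x.2 % 2)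
    rw [shift_even h (x.1 / 2, x.2 / 2)] at e
    rw [e]
    congr 1
    ext
    · show x.1 = 2 * (x.1 / 2) + x.1 % 2
      omega
    · show x.2 = 2 * (x.2 / 2) + x.2 % 2
      omega

/-- `cmp2_x` for `k = 1` (`pr2_one`) and all centres, `r' < R'`.  `pr (TwoAt c x r R) = pr (L'.TwoA c r R)` with `L' = L.shift x'`, `nrm x' ≤ 1`
(`pr_TwoAt`, `shift_small`); `cmp2_x` for `L'` (`RSW.shift`), colours `c`, `true` and the centre `-x'` (`nrm (-x') ≤ 1`, `4 ≤ r`):
`≤ C pr (L'.TwoAt true (-x') r' R') = C pr ((L'.shift (-x')).TwoA true r' R') = C pr (L.TwoA true r' R')`. -/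
theorem cmp_all (κ : ℕ → ℝ) : ∃ (C : ℝ) (R₀ : ℤ), 0 < C ∧ 16 ≤ R₀ ∧ ∀ L : Lat, Fam L κ →
    ∀ (c : Bool) (x : Pt) (r R r' R' : ℤ), R₀ ≤ r → R₀ ≤ r' → r ≤ R → r ≤ 2 * r' → r' < R' →
      R' ≤ 4 * R → pr (L.TwoAt c x r R) ≤ C * pr (L.TwoA true r' R') := by
  obtain ⟨C, R₀, hC, hR₀, H⟩ := cmp2_x κ
  refine ⟨C, R₀, hC, hR₀, ?_⟩
  intro L hL c x r R r' R' h1 h2 h3 h4 h5 h6
  obtain ⟨x', hx', hs⟩ := shift_small hL x
  have hn : nrm (-x') = nrm x' := by
    unfold nrm
    rw [Prod.fst_neg, Prod.snd_neg, abs_neg, abs_neg]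
  have key := H (L.shift x') (hL.rsw.shift x') (fun _ => 1) (fun _ => ⟨zero_le_one, le_refl _⟩) c
    true (-x') r R r' R' h1 h2 h3 (by rw [hn]; omega) h4 h5 h6
  rw [pr2_one (Lat.TwoA.loc _ _ _ _)] at key
  rw [pr_TwoAt, hs]
  have e : (L.shift x').shift (-x') = L := by
    rw [shift_shift, add_neg_cancel, shift_zero]
  have e2 : pr2 (fun _ => 1) ((L.shift x').TwoAt true (-x') r' R') = pr (L.TwoA true r' R') := by
    rw [pr2_one (TwoAt_loc _ _ _ _ _), pr_TwoAt, e]
  rw [e2] at key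
  exact key

/-- `C` = maximum of `1` and the constants of `cmp_all`, `qmult2_x`; `R₀` the maximum of the radii.  `pos`: `al L r r = 1`; for `r < R`,
`S4 r R ⊆ TwoA true r R` (`S4_twoAt_x`, `TwoAt_zero`) and `S4_pos`.  `mono`: if `r = R` then `al L r R = 1`; otherwise `TwoA.mono`.  `cmp`: if
`r' = R'` the right side is `C ≥ 1`.  `qmult`: if `r = ρ` or `ρ = R` one factor is `1` and the other one is `al L r R` (or both are `1`);
otherwise `qmult2_x` with `k = 1`, `pr2_one`. -/
theorem al_props_x (κ : ℕ → ℝ) : ∃ (C : ℝ) (R₀ : ℤ), ∀ L : Lat, Fam L κ → AlProps L C R₀ := by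
  obtain ⟨C₁, R₁, hC₁, hR₁, H₁⟩ := cmp_all κ
  obtain ⟨C₂, R₂, hC₂, hR₂, H₂⟩ := qmult2_x κ
  refine ⟨max 1 (max C₁ C₂), max R₁ R₂, fun L hL => ?_⟩
  have hnn : ∀ r R, 0 ≤ al L r R := by
    intro r R
    unfold al
    split_ifs
    · exact pr_nonneg _
    · exact zero_le_one
  have hle : ∀ r R, al L r R ≤ 1 := by
    intro r R
    unfold al
    split_ifs
    · exact pr_le_one _
    · exact le_refl _
  have hlt : ∀ {r R : ℤ}, r < R → al L r R = pr (L.TwoA true r R) := by
    intro r R h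
    unfold al
    rw [if_pos h]
  have heq : ∀ {r R : ℤ}, ¬ r < R → al L r R = 1 := by
    intro r R h
    unfold al
    rw [if_neg h]
  have hC1 : (1 : ℝ) ≤ max 1 (max C₁ C₂) := le_max_left _ _
  refine ⟨hC1, le_trans hR₁ (le_max_left _ _), ?_, hle, ?_, ?_, ?_⟩
  · intro r R h1 h2
    rcases h2.lt_or_eq with h | h
    · rw [hlt h]
      have h16 : 16 ≤ r := le_trans hR₁ (le_trans (le_max_left _ _) h1)
      refine lt_of_lt_of_le (S4_pos hL.rsw h16 h2) ?_
      refine pr_mono (Lat.S4.loc L r R) (Lat.TwoA.loc L true r R) (fun ω hω => ?_)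
      exact (TwoAt_zero L true r R ω).1 (S4_twoAt_x (x := 0) (d := 0) hω h16
        (by simp [nrm]) (by omega) h (by omega))
    · rw [heq (by omega)]
      exact zero_lt_one
  · intro r R r' R' h0 h1 h2 h3
    by_cases h : r < R
    · rw [hlt h, hlt (by omega)]
      exact pr_mono (Lat.TwoA.loc _ _ _ _) (Lat.TwoA.loc _ _ _ _)
        (fun ω hω => Lat.TwoA.mono hω h0 h1 h h3)
    · rw [heq h]
      exact hle _ _
  · intro c x r R r' R' h1 h2 h3 h4 h5 h6
    by_cases h : r' < R'
    · rw [hlt h]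
      refine le_trans (H₁ L hL c x r R r' R' (le_trans (le_max_left _ _) h1)
        (le_trans (le_max_left _ _) h2) h3 h4 h h6) ?_
      exact mul_le_mul_of_nonneg_right (le_trans (le_max_left _ _) (le_max_right _ _)) (pr_nonneg _)
    · rw [heq h, mul_one]
      exact le_trans (pr_le_one _) hC1
  · intro r ρ R h1 h2 h3
    by_cases h : r < ρ
    · by_cases h' : ρ < R
      · rw [hlt h, hlt h', hlt (by omega)]
        have key := H₂ L hL.rsw (fun _ => 1) (fun _ => ⟨zero_le_one, le_refl _⟩) true r ρ R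
          (le_trans (le_max_right _ _) h1) h2 h3
        rw [pr2_one (Lat.TwoA.loc _ _ _ _), pr2_one (Lat.TwoA.loc _ _ _ _),
          pr2_one (Lat.TwoA.loc _ _ _ _)] at key
        refine le_trans key ?_
        exact mul_le_mul_of_nonneg_right (le_trans (le_max_right _ _) (le_max_right _ _))
          (pr_nonneg _)
      · have e : ρ = R := by omega
        subst e
        rw [heq h', mul_one]
        exact le_mul_of_one_le_left (hnn _ _) hC1
    · have e : r = ρ := by omega
      subst e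
      rw [heq h, one_mul]
      exact le_mul_of_one_le_left (hnn _ _) hC1

end SC
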