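import Pool.Agent.Lib_MP_e0a489.SE14
import Pool.Agent.Lib_MP_e0a489.XPD

/-!
# MP_e0a489, module SE 25: from the separated event to the box event
-/

set_option autoImplicit false

namespace SC

open Classical

/-- distance of the side number `s` of `rect a b p q` from the origin (right, top, left, bottom) -/
def sdist (a b p q s : ℤ) : ℤ :=
  if s % 4 = 0 then b else if s % 4 = 1 then q else if s % 4 = 2 then -a else -p

private theorem se25_mon_and {c : Bool} {A B : Cfg → Prop} (hA : MonC c A) (hB : MonC c B) :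
    MonC c (fun ω => A ω ∧ B ω) := by
  cases c
  · have hA' : Dec A := by simpa [MonC] using hA
    have hB' : Dec B := by simpa [MonC] using hB
    have : Dec (fun ω => A ω ∧ B ω) := fun ω ω' h hh => ⟨hA' ω ω' h hh.1, hB' ω ω' h hh.2⟩
    simpa [MonC] using this
  · have hA' : Inc A := by simpa [MonC] using hA
    have hB' : Inc B := by simpa [MonC] using hB
    have : Inc (fun ω => A ω ∧ B ω) := fun ω ω' h hh => ⟨hA' ω ω' h hh.1, hB' ω ω' h hh.2⟩
    simpa [MonC] using this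

private theorem se25_mon_or {c : Bool} {A B : Cfg → Prop} (hA : MonC c A) (hB : MonC c B) :
    MonC c (fun ω => A ω ∨ B ω) := by
  cases c
  · have hA' : Dec A := by simpa [MonC] using hA
    have hB' : Dec B := by simpa [MonC] using hB
    have : Dec (fun ω => A ω ∨ B ω) := fun ω ω' h hh =>
      hh.elim (fun k => Or.inl (hA' ω ω' h k)) (fun k => Or.inr (hB' ω ω' h k))
    simpa [MonC] using this
  · have hA' : Inc A := by simpa [MonC] using hA
    have hB' : Inc B := by simpa [MonC] using hB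
    have : Inc (fun ω => A ω ∨ B ω) := fun ω ω' h hh =>
      hh.elim (fun k => Or.inl (hA' ω ω' h k)) (fun k => Or.inr (hB' ω ω' h k))
    simpa [MonC] using this

private theorem se25_tO_finite (c : Bool) (R : ℤ) (b : ℤ → ℤ) : (tO c R b).Finite := by
  refine ((Zn_finite (dc c) (R + 1) (b (dc c)) (R / 4)).union
    (Zn_finite (dc c + 2) (R + 1) (b (dc c + 2)) (R / 4))).subset ?_
  rintro v ⟨s, hs | hs, hv⟩
  · subst hs; exact Or.inl hv
  · subst hs; exact Or.inr hv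

private theorem se25_dir {c c' : Bool} (hc : c ≠ c') {s s' : ℤ} (hs : s = dc c ∨ s = dc c + 2)
    (hs' : s' = dc c' ∨ s' = dc c' + 2) : s % 4 ≠ s' % 4 := by
  cases c <;> cases c' <;> simp_all [dc] <;> omega

private theorem se25_Jc {c : Bool} {R : ℤ} {v : Pt} (hv : v ∈ Jc c R) :
    ∃ s, (s = dc c ∨ s = dc c + 2) ∧ v ∈ Zn s (R + 1) (2 * R) (R / 4) := by
  rcases hv with hv | hv
  · exact ⟨dc c, Or.inl rfl, hv⟩
  · exact ⟨dc c + 2, Or.inr rfl, hv⟩

/-- sites of the territory -/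
private theorem se25_tO_mem {c : Bool} {R : ℤ} {b : ℤ → ℤ} (hR : 16 ≤ R)
    (hb : ∀ s, b s ≤ 64 * R) {v : Pt} (hv : v ∈ tO c R b) :
    R < nrm v ∧ nrm v ≤ 64 * R ∧ v ∉ Jc (!c) R ∧ v ∉ tO (!c) R b := by
  obtain ⟨s, hs, hv⟩ := hv
  have h := Zn_nrm (by omega) (by omega) hv
  have h' := hb s
  refine ⟨by omega, by omega, fun hJ => ?_, fun hJ => ?_⟩
  · obtain ⟨s', hs', hJ⟩ := se25_Jc hJ
    exact Zn_disj (se25_dir (by cases c <;> simp) hs hs') (by omega) (by omega)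
      (Or.inl (by omega)) hv hJ
  · obtain ⟨s', hs', hJ⟩ := hJ
    exact Zn_disj (se25_dir (by cases c <;> simp) hs hs') (by omega) (by omega)
      (Or.inl (by omega)) hv hJ

private theorem se25_sdist_ge {R a b p q : ℤ} (ha : 2 * R ≤ -a) (hb : 2 * R ≤ b)
    (hp : 2 * R ≤ -p) (hq : 2 * R ≤ q) (s : ℤ) : 2 * R ≤ sdist a b p q s := by
  unfold sdist
  split_ifs <;> assumption

private theorem se25_sdist_le {R a b p q : ℤ} (ha : -a ≤ 64 * R) (hb : b ≤ 64 * R)
    (hp : -p ≤ 64 * R) (hq : q ≤ 64 * R) (s : ℤ) : sdist a b p q s ≤ 64 * R := by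
  unfold sdist
  split_ifs <;> assumption

private theorem se25_nrm_le {v : Pt} {R : ℤ} : nrm v ≤ R ↔ (-R ≤ v.1 ∧ v.1 ≤ R) ∧ -R ≤ v.2 ∧ v.2 ≤ R := by
  unfold nrm
  rw [max_le_iff, abs_le, abs_le]

/-- a site of norm `≤ 2R` is in the rectangle -/
private theorem se25_rect {R a b p q : ℤ} (ha : 2 * R ≤ -a) (hb : 2 * R ≤ b)
    (hp : 2 * R ≤ -p) (hq : 2 * R ≤ q) {v : Pt} (hv : nrm v ≤ 2 * R) : v ∈ rect a b p q := by
  rw [se25_nrm_le] at hv
  obtain ⟨⟨h1, h2⟩, h3, h4⟩ := hv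
  exact ⟨⟨by omega, by omega⟩, by omega, by omega⟩

/-- the strips are in the rectangle and outside `bx R` -/
private theorem se25_strip {c : Bool} {s R a b p q : ℤ} (hs : s = dc c ∨ s = dc c + 2)
    (hR : 16 ≤ R) (ha : 2 * R ≤ -a) (hb : 2 * R ≤ b) (hp : 2 * R ≤ -p) (hq : 2 * R ≤ q)
    {v : Pt} (hv : v ∈ Zn s (R + 1) (sdist a b p q s) (R / 4)) : v ∈ rect a b p q := by
  have key : ∀ s' : ℤ, s = s' → v ∈ Zn s' (R + 1) (sdist a b p q s') (R / 4) := by
    intro s' h; subst h; exact hv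
  rcases hs with hs | hs <;> cases c
  · have h := mem_Zn1.1 (key 1 hs)
    simp only [sdist] at h
    norm_num at h
    exact ⟨⟨by omega, by omega⟩, by omega, by omega⟩
  · have h := mem_Zn0.1 (key 0 hs)
    simp only [sdist] at h
    norm_num at h
    exact ⟨⟨by omega, by omega⟩, by omega, by omega⟩
  · have h := mem_Zn3.1 (key 3 hs)
    simp only [sdist] at h
    norm_num at h
    exact ⟨⟨by omega, by omega⟩, by omega, by omega⟩
  · have h := mem_Zn2.1 (key 2 hs)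
    simp only [sdist] at h
    norm_num at h
    exact ⟨⟨by omega, by omega⟩, by omega, by omega⟩

/-- the far side of the strip in the direction `dc c` -/
private theorem se25_sdp {c : Bool} {a b p q w : ℤ} :
    Zn (dc c) (sdist a b p q (dc c)) (sdist a b p q (dc c)) w ⊆ sdp c b q := by
  intro v hv
  cases c
  · have h := mem_Zn1.1 (show v ∈ Zn 1 (sdist a b p q 1) (sdist a b p q 1) w from hv)
    simp only [sdist] at h
    norm_num at h
    show v.2 = q
    omega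
  · have h := mem_Zn0.1 (show v ∈ Zn 0 (sdist a b p q 0) (sdist a b p q 0) w from hv)
    simp only [sdist] at h
    norm_num at h
    show v.1 = b
    omega

private theorem se25_sdm {c : Bool} {a b p q w : ℤ} :
    Zn (dc c + 2) (sdist a b p q (dc c + 2)) (sdist a b p q (dc c + 2)) w ⊆ sdm c a p := by
  intro v hv
  cases c
  · have h := mem_Zn3.1 (show v ∈ Zn 3 (sdist a b p q 3) (sdist a b p q 3) w from hv)
    simp only [sdist] at h
    norm_num at h
    show v.2 = p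
    omega
  · have h := mem_Zn2.1 (show v ∈ Zn 2 (sdist a b p q 2) (sdist a b p q 2) w from hv)
    simp only [sdist] at h
    norm_num at h
    show v.1 = a
    omega

private theorem se25_KcR {c : Bool} {r R : ℤ} (hr : 0 ≤ r) (hrR : r ≤ R) : Kc c r ⊆ bx R := by
  intro v hv
  exact le_trans (Kc_nrm hr hv).2 hrR

namespace Lat

theorem SQ.dep (L : Lat) (c : Bool) (r a b p q : ℤ) :
    Dep (L.SQ c r a b p q) (rect a b p q \ bx r ∪ Kc c r) := by
  intro ω ω' h
  have h1 := Arm.dep L c (rect a b p q \ bx r ∪ Kc c r) (Ks (dc c) r) (sdp c b q) ω ω' h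
  have h2 := Arm.dep L c (rect a b p q \ bx r ∪ Kc c r) (Ks (dc c + 2) r) (sdm c a p) ω ω' h
  have h3 := Arm.dep L c (rect a b p q \ bx r ∪ Kc c r) (Ks (dc c) r) (sdm c a p) ω ω' h
  have h4 := Arm.dep L c (rect a b p q \ bx r ∪ Kc c r) (Ks (dc c + 2) r) (sdp c b q) ω ω' h
  unfold SQ
  rw [h1, h2, h3, h4]

theorem SQ.loc (L : Lat) (c : Bool) (r a b p q : ℤ) : Loc (L.SQ c r a b p q) := by
  have hfin : (rect a b p q \ bx r ∪ Kc c r).Finite := by
    refine Set.Finite.union ?_ ?_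
    · refine Set.Finite.subset
        (Finset.finite_toSet (Finset.Icc a b ×ˢ Finset.Icc p q)) ?_
      rintro v ⟨⟨h1, h2⟩, -⟩
      rw [Finset.mem_coe, Finset.mem_product, Finset.mem_Icc, Finset.mem_Icc]
      exact ⟨h1, h2⟩
    · exact (Zn_finite (dc c) (r / 2 + 1) r (r / 8)).union
        (Zn_finite (dc c + 2) (r / 2 + 1) r (r / 8))
  refine ⟨hfin.toFinset, ?_⟩
  rw [Set.Finite.coe_toFinset]
  exact SQ.dep L c r a b p q

theorem SQ.mon (L : Lat) (c : Bool) (r a b p q : ℤ) : MonC c (L.SQ c r a b p q) :=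
  se25_mon_or (se25_mon_and (Arm.mon L c _ _ _) (Arm.mon L c _ _ _))
    (se25_mon_and (Arm.mon L c _ _ _) (Arm.mon L c _ _ _))

private theorem se25_Ks {L : Lat} {s r R : ℤ} (hr : 0 ≤ r) (hrR : r ≤ R) (hR : 16 ≤ R) :
    Ks s r ⊆ bx R ∪ L.nb (bx R) := by
  intro v hv
  have h := Zn_nrm (show r / 8 ≤ r / 2 + 1 by omega) (show 0 ≤ r / 8 by omega) hv
  left
  show nrm v ≤ R
  omega

private theorem se25_out {L : Lat} {c : Bool} {ω : Cfg} {s s₀ r R a b p q : ℤ}
    (hs : s = dc c ∨ s = dc c + 2) (hR : 16 ≤ R) (hr : 16 ≤ r) (hrR : r ≤ R)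
    (ha : 2 * R ≤ -a) (hb : 2 * R ≤ b) (hp : 2 * R ≤ -p) (hq : 2 * R ≤ q)
    (h : L.Arm c (ann r R ∪ Jc c R ∪ Kc c r) (Ks s₀ r) (Je s R) ω)
    (hk : L.HkO c R (sdist a b p q) ω) :
    L.Arm c (rect a b p q \ bx r ∪ Kc c r) (Ks s₀ r)
      (Zn s (sdist a b p q s) (sdist a b p q s) (R / 4)) ω := by
  obtain ⟨k1, k2⟩ := hk s hs
  have hD : ann r R ∪ Kc c r ⊆ bx R := by
    rintro v (hv | hv)
    · exact hv.2
    · exact se25_KcR (by omega) hrR hv
  have h' : L.Arm c (ann r R ∪ Kc c r ∪ Jc c R) (Ks s₀ r) (Je s R) ω := by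
    refine h.mono ?_ subset_rfl subset_rfl
    rintro v ((hv | hv) | hv)
    · exact Or.inl (Or.inl hv)
    · exact Or.inr hv
    · exact Or.inl (Or.inr hv)
  have key := arm_out hs hR (se25_sdist_ge ha hb hp hq s) hD (se25_Ks (by omega) hrR hR) h' k1 k2
  refine key.mono ?_ subset_rfl subset_rfl
  rintro v (((hv | hv) | hv) | hv)
  · refine Or.inl ⟨se25_rect ha hb hp hq (by have := hv.2; omega), fun hh => ?_⟩
    have h1 : nrm v ≤ r := hh
    have h2 := hv.1
    omega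
  · exact Or.inr hv
  · have h3 := Jc_nrm (show (0 : ℤ) ≤ R by omega) hv
    refine Or.inl ⟨se25_rect ha hb hp hq h3.2, fun hh => ?_⟩
    have h1 : nrm v ≤ r := hh
    omega
  · have h3 := Zn_nrm (show R / 4 ≤ R + 1 by omega) (show 0 ≤ R / 4 by omega) hv
    refine Or.inl ⟨se25_strip hs hR ha hb hp hq hv, fun hh => ?_⟩
    have h1 : nrm v ≤ r := hh
    omega

/-- `arm_out` (with `D = ann r R ∪ Kc c r`) for both directions; `ann r R ∪ Jc c R` and the strips are contained in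
`rect a b p q \ bx r`; the far side of the strip in direction `s` is contained in the side `s` of the rectangle.  The
pairing is kept. -/
theorem Pairs_SQ {L : Lat} {c : Bool} {ω : Cfg} {r R a b p q : ℤ} (hR : 16 ≤ R) (hr : 16 ≤ r)
    (hrR : r ≤ R) (ha : 2 * R ≤ -a) (hb : 2 * R ≤ b) (hp : 2 * R ≤ -p) (hq : 2 * R ≤ q)
    (h : L.Pairs c r R ω) (hk : L.HkO c R (sdist a b p q) ω) : L.SQ c r a b p q ω := by
  have kp : ∀ s₀, L.Arm c (ann r R ∪ Jc c R ∪ Kc c r) (Ks s₀ r) (Je (dc c) R) ω →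
      L.Arm c (rect a b p q \ bx r ∪ Kc c r) (Ks s₀ r) (sdp c b q) ω := fun s₀ h3 =>
    (se25_out (Or.inl rfl) hR hr hrR ha hb hp hq h3 hk).mono subset_rfl subset_rfl se25_sdp
  have km : ∀ s₀, L.Arm c (ann r R ∪ Jc c R ∪ Kc c r) (Ks s₀ r) (Je (dc c + 2) R) ω →
      L.Arm c (rect a b p q \ bx r ∪ Kc c r) (Ks s₀ r) (sdm c a p) ω := fun s₀ h3 =>
    (se25_out (Or.inr rfl) hR hr hrR ha hb hp hq h3 hk).mono subset_rfl subset_rfl se25_sdm
  rcases h with ⟨h3, h4⟩ | ⟨h3, h4⟩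
  · exact Or.inl ⟨kp _ h3, km _ h4⟩
  · exact Or.inr ⟨km _ h3, kp _ h4⟩

end Lat

/-- `cpr_terr` with the strips `HkO c R (sdist a b p q)`; as `outS_pt`. -/
theorem sq_pt {L : Lat} {κ : ℕ → ℝ} (hL : RSW L κ) {r R a b p q : ℤ} (hr : 16 ≤ r) (hrR : r ≤ R)
    (ha : 2 * R ≤ -a) (ha' : -a ≤ 64 * R) (hb : 2 * R ≤ b) (hb' : b ≤ 64 * R) (hp : 2 * R ≤ -p)
    (hp' : -p ≤ 64 * R) (hq : 2 * R ≤ q) (hq' : q ≤ 64 * R) {G : Finset Pt}
    (hG : ∀ v, R < nrm v → nrm v ≤ 64 * R → v ∈ G) (ω : Cfg) :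
    κ 2000 ^ 8 * cpr G (L.S4 r R) ω ≤
      cpr G (fun ω => L.SQ true r a b p q ω ∧ L.SQ false r a b p q ω) ω := by
  have hR : 16 ≤ R := by omega
  have hr0 : 0 ≤ r := by omega
  have hge := se25_sdist_ge ha hb hp hq
  have hle := se25_sdist_le ha' hb' hp' hq'
  have hle' : ∀ s, sdist a b p q s ≤ 128 * R := fun s => by have := hle s; omega
  have hT := se25_tO_finite true R (sdist a b p q)
  have hU := se25_tO_finite false R (sdist a b p q)
  have hp0 : (0 : ℝ) ≤ κ 2000 ^ 4 := pow_nonneg (hL.pos _).le _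
  have key := cpr_terr (G := G) (T := hT.toFinset) (U := hU.toFinset)
    (E₁ := L.Pairs true r R) (E₀ := L.Pairs false r R)
    (E' := fun ω => L.SQ true r a b p q ω ∧ L.SQ false r a b p q ω)
    (A := L.HkO true R (sdist a b p q)) (B := L.HkO false R (sdist a b p q))
    (D₁ := ann r R ∪ Jc true R ∪ Kc true r) (D₀ := ann r R ∪ Jc false R ∪ Kc false r)
    (by
      intro v hv
      have hm := se25_tO_mem hR hle ((Set.Finite.mem_toFinset hT).1 hv)
      exact hG v hm.1 hm.2.1)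
    (by
      intro v hv
      have hm := se25_tO_mem hR hle ((Set.Finite.mem_toFinset hU).1 hv)
      exact hG v hm.1 hm.2.1)
    (by
      rw [Finset.disjoint_left]
      intro v hv hv'
      exact (se25_tO_mem hR hle ((Set.Finite.mem_toFinset hT).1 hv)).2.2.2
        ((Set.Finite.mem_toFinset hU).1 hv'))
    (Lat.Pairs.mon L true r R) (Lat.Pairs.mon L false r R) (Lat.Pairs.dep L true r R)
    (Lat.Pairs.dep L false r R)
    (by
      intro v hv hh
      have hm := se25_tO_mem hR hle ((Set.Finite.mem_toFinset hT).1 hv)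
      have hm1 := hm.1
      rcases hh with (hh | hh) | hh
      · have := hh.2
        omega
      · exact hm.2.2.1 hh
      · have := (Kc_nrm hr0 hh).2
        omega)
    (by
      intro v hv hh
      have hm := se25_tO_mem hR hle ((Set.Finite.mem_toFinset hU).1 hv)
      have hm1 := hm.1
      rcases hh with (hh | hh) | hh
      · have := hh.2
        omega
      · exact hm.2.2.1 hh
      · have := (Kc_nrm hr0 hh).2
        omega)
    (Lat.HkO_mon L true R _)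
    (by rw [Set.Finite.coe_toFinset]; exact Lat.HkO_dep L true hge)
    (Lat.HkO_mon L false R _)
    (by rw [Set.Finite.coe_toFinset]; exact Lat.HkO_dep L false hge)
    hp0 (Lat.HkO_pr hL true hR hge hle') (Lat.HkO_pr hL false hR hge hle')
    (by
      intro ω a1 b1 c1 d1
      exact ⟨Lat.Pairs_SQ hR hr hrR ha hb hp hq a1 c1, Lat.Pairs_SQ hR hr hrR ha hb hp hq b1 d1⟩)
    ω
  calc κ 2000 ^ 8 * cpr G (L.S4 r R) ω
      = (κ 2000 ^ 4) ^ 2 * cpr G (fun ω => L.Pairs true r R ω ∧ L.Pairs false r R ω) ω := by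
        rw [← pow_mul]; rfl
    _ ≤ _ := key

/-- `sq_pt` with `G = {R < nrm v ≤ 64 R}` and `pr2_of_cpr` (`kz k r R = 0` on `G`); `C = (κ 2000 ^ 16)⁻¹` (if `κ 2000 ≤ 0` there is no `L`),
`R₀ = 16`. -/
theorem sq2_x (κ : ℕ → ℝ) : ∃ (C : ℝ) (R₀ : ℤ), 0 < C ∧ 16 ≤ R₀ ∧ ∀ L : Lat, RSW L κ →
    ∀ k : Pt → ℝ, (∀ v, 0 ≤ k v ∧ k v ≤ 1) → ∀ r R a b p q : ℤ, R₀ ≤ r → r ≤ R →
      2 * R ≤ -a → -a ≤ 64 * R → 2 * R ≤ b → b ≤ 64 * R → 2 * R ≤ -p → -p ≤ 64 * R →
      2 * R ≤ q → q ≤ 64 * R →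
      pr2 (kz k r R) (L.S4 r R) ≤
        C * pr2 (kz k r R) (fun ω => L.SQ true r a b p q ω ∧ L.SQ false r a b p q ω) := by
  by_cases hκ : 0 < κ 2000
  · have hc : 0 < κ 2000 ^ 8 := pow_pos hκ 8
    refine ⟨(κ 2000 ^ 8)⁻¹ ^ 2, 16, pow_pos (inv_pos.mpr hc) 2, le_refl _, ?_⟩
    intro L hL k hk r R a b p q hr hrR ha ha' hb hb' hp hp' hq hq'
    obtain ⟨G, hG⟩ := exists_annF R (64 * R)
    have hloc : Loc (fun ω => L.SQ true r a b p q ω ∧ L.SQ false r a b p q ω) := by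
      obtain ⟨F₁, hF₁⟩ := Lat.SQ.loc L true r a b p q
      obtain ⟨F₂, hF₂⟩ := Lat.SQ.loc L false r a b p q
      refine ⟨F₁ ∪ F₂, fun ω ω' h => ?_⟩
      have a1 := hF₁ ω ω' fun v hv => h v (by
        rw [Finset.mem_coe] at hv ⊢
        exact Finset.mem_union_left _ hv)
      have a2 := hF₂ ω ω' fun v hv => h v (by
        rw [Finset.mem_coe] at hv ⊢
        exact Finset.mem_union_right _ hv)
      show (L.SQ true r a b p q ω ∧ L.SQ false r a b p q ω) =
        (L.SQ true r a b p q ω' ∧ L.SQ false r a b p q ω')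
      rw [a1, a2]
    refine pr2_of_cpr (Lat.S4.loc L r R) hloc (kz_kap hk r R) (G := G) (fun v hv => ?_)
      (le_of_lt (inv_pos.mpr hc)) fun ω => ?_
    · have h0 := (hG v).1 hv
      have h3 : nrm v ≤ 8 * r ∨ R / 4 < nrm v := Or.inr (by omega)
      exact if_pos h3
    · rw [inv_mul_eq_div, le_div_iff₀ hc, mul_comm]
      exact sq_pt hL hr hrR ha ha' hb hb' hp hp' hq hq' (fun v h1 h2 => (hG v).2 ⟨h1, h2⟩) ω
  · refine ⟨1, 16, one_pos, le_refl _, ?_⟩
    intro L hL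
    exact absurd (hL.pos 2000) hκ

end SC
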