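import Pool.Agent.Lib_MP_e0a489.SE3
import Pool.Agent.Lib_MP_e0a489.TB3

/-!
# MP_e0a489, module SE 6: arms that cross a zone, direction 0

The perpendicular crossing of the zone and the radial crossing of a long strip meet, and the arm crosses the zone
radially, so the arm is joined to the radial crossing.
-/

set_option autoImplicit false

namespace SC

open Classical

namespace Lat

variable {L : Lat} {c : Bool} {ω : Cfg}

/-- a cluster of a part that is not adjacent to the rest of the zones can only be left into `D` -/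
private theorem SE6_leave {D X Y B : Set Pt} {u v : Pt} (hu : u ∈ X) (hv : ¬ L.Cn (X ∩ B) u v)
    (hXY : ∀ s ∈ X, ∀ t ∈ Y, ¬ L.Adj s t) (h : L.Cn ((D ∪ (X ∪ Y)) ∩ B) u v) :
    ∃ p q, L.Cn (X ∩ B) u p ∧ L.Cn ((D ∪ (X ∪ Y)) ∩ B) u p ∧ L.Adj p q ∧ q ∈ D := by
  have huB : u ∈ X ∩ B := ⟨hu, h.left.2⟩
  obtain ⟨p, q, h1, h2, h3, h4⟩ := h.exit (S := {w | L.Cn (X ∩ B) u w}) (Cn.refl huB) hv
  have hp : L.Cn (X ∩ B) u p := h1.right.2
  refine ⟨p, q, hp, h1.mono Set.inter_subset_left, h2, ?_⟩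
  rcases h3.1 with h5 | h5 | h5
  · exact h5
  · exact absurd (hp.trans (Cn.of_adj hp.right ⟨h5, h3.2⟩ h2)) h4
  · exact absurd h2 (hXY p hp.right.1 q h5)

private theorem SE6_J0 {R : ℤ} {v : Pt} :
    v ∈ J 0 R ↔ R + 1 ≤ v.1 ∧ v.1 ≤ 2 * R ∧ -(R / 4) ≤ v.2 ∧ v.2 ≤ R / 4 := by
  rw [J_eq]
  exact mem_Zn0

private theorem SE6_K0 {r : ℤ} {v : Pt} :
    v ∈ K 0 r ↔ r / 2 + 1 ≤ v.1 ∧ v.1 ≤ r ∧ -(r / 8) ≤ v.2 ∧ v.2 ≤ r / 8 := by
  rw [K_eq]
  exact mem_Zn0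

private theorem SE6_Jadj {R : ℤ} (hR : 1 ≤ R) : ∀ s ∈ J 0 R, ∀ t ∈ J 2 R, ¬ L.Adj s t := by
  intro s hs t ht
  rw [J_eq] at hs ht
  exact Zn_not_adj (s := 0) (by omega) (by omega) hs ht

private theorem SE6_Kadj {r : ℤ} (hr : 1 ≤ r) : ∀ s ∈ K 0 r, ∀ t ∈ K 2 r, ¬ L.Adj s t := by
  intro s hs t ht
  rw [K_eq] at hs ht
  exact Zn_not_adj (s := 0) (by omega) (by omega) hs ht

/-- a site of the zone next to the box is on the inner side of the zone -/
private theorem SE6_near {R : ℤ} {u v : Pt} (hv : v ∈ J 0 R) (hu : u ∈ bx R) (h : L.Adj u v) :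
    v.1 = R + 1 := by
  have h1 := SE6_J0.1 hv
  have h2 : nrm u ≤ R := hu
  have h3 : |u.1| ≤ R := le_trans (le_max_left _ _) h2
  have h4 := abs_le.1 h3
  have h5 := abs_le.1 h.near.1
  omega


/-- An arm that ends at the far side of `J 0 R` crosses `J 0 R` radially.  `D ⊆ bx R`.  If the first site `x` of the arm is in
`bx R`: `Cn.last` with `S = bx R` gives `p ∈ bx R`, `Adj p q` and `q` joined to `y` in `(J 0 R ∪ J 2 R)`, hence in `J 0 R` (`J 0 R`, `J 2 R`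
are not adjacent, `Zn_not_adj`; use induction along the path), `q.1 = R + 1` because `q` is next to `bx R` (`Adj.near`) .  If `x` is not in
`bx R` it is next to `bx R` and in `J 0 R ∪ J 2 R`; if the arm visits `bx R` use the same argument, otherwise it stays in
`J 0 R ∪ J 2 R`, so in `J 0 R`, and `q = x`.  `q` is joined to `x` because both are joined to `y`. -/
theorem zone_out {D : Set Pt} {R : ℤ} (hR : 1 ≤ R) (hD : D ⊆ bx R) {x y : Pt}
    (hx : x ∈ bx R ∪ L.nb (bx R)) (hy : y ∈ Je 0 R)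
    (h : L.Cn ((D ∪ (J 0 R ∪ J 2 R)) ∩ L.col c ω) x y) :
    ∃ q, q.1 = R + 1 ∧ L.Cn (J 0 R ∩ L.col c ω) q y ∧
      L.Cn ((D ∪ (J 0 R ∪ J 2 R)) ∩ L.col c ω) x q := by
  have hy0 : y ∈ J 0 R := by
    rw [Je_eq] at hy
    have h1 := mem_Zn0.1 hy
    rw [SE6_J0]
    omega
  by_cases hc : L.Cn (J 0 R ∩ L.col c ω) y x
  · have hxJ : x ∈ J 0 R := hc.right.1
    refine ⟨x, ?_, hc.symm, Cn.refl h.left⟩
    rcases hx with hx | hx
    · have h1 := SE6_J0.1 hxJ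
      have h2 : nrm x ≤ R := hx
      have h3 : |x.1| ≤ R := le_trans (le_max_left _ _) h2
      have h4 := abs_le.1 h3
      omega
    · obtain ⟨u, hu, hux⟩ := hx
      exact SE6_near hxJ hu hux
  · obtain ⟨p, q, hp, hp', hpq, hq⟩ := SE6_leave hy0 hc (SE6_Jadj hR) h.symm
    exact ⟨p, SE6_near hp.right.1 (hD hq) hpq.symm, hp.symm, h.trans hp'⟩

/-- An arm that starts at the inner side of `K 0 r` and leaves `bx r` crosses `K 0 r` radially: `Cn.exit` with `S = bx r`; the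
part before the exit is in `K 0 r ∪ K 2 r`, so in `K 0 r`, and its last site `q` has `q.1 = r` (`|q.2| ≤ r / 8 < r` and `q` has a
neighbour outside `bx r`). -/
theorem zone_in {D : Set Pt} {r : ℤ} (hr : 8 ≤ r) (hD : ∀ v ∈ D, r < nrm v) {x y : Pt}
    (hx : x ∈ Ks 0 r) (hy : r < nrm y) (h : L.Cn ((D ∪ (K 0 r ∪ K 2 r)) ∩ L.col c ω) x y) :
    ∃ q, q.1 = r ∧ L.Cn (K 0 r ∩ L.col c ω) x q ∧
      L.Cn ((D ∪ (K 0 r ∪ K 2 r)) ∩ L.col c ω) q y := by
  have hx0 : x ∈ K 0 r := by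
    rw [Ks_eq] at hx
    have h1 := mem_Zn0.1 hx
    rw [SE6_K0]
    omega
  have hc : ¬ L.Cn (K 0 r ∩ L.col c ω) x y := by
    intro hc
    have h1 := SE6_K0.1 hc.right.1
    have h2 : |y.1| ≤ r := abs_le.2 ⟨by omega, by omega⟩
    have h3 : |y.2| ≤ r := abs_le.2 ⟨by omega, by omega⟩
    have h4 : nrm y ≤ r := max_le h2 h3
    omega
  obtain ⟨p, q, hp, hp', hpq, hq⟩ := SE6_leave hx0 hc (SE6_Kadj (by omega)) h
  refine ⟨p, ?_, hp, hp'.symm.trans h⟩
  have h1 := SE6_K0.1 hp.right.1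
  have h2 : r < nrm q := hD q hq
  have h5 := abs_le.1 hpq.near.1
  have h6 := abs_le.1 hpq.near.2
  by_contra hne
  have h7 : |q.1| ≤ r := abs_le.2 ⟨by omega, by omega⟩
  have h8 : |q.2| ≤ r := abs_le.2 ⟨by omega, by omega⟩
  have h9 : nrm q ≤ r := max_le h7 h8
  omega

/-- Link: `x`, `y` joined in the zone `[a,b] × [-h,h]` with `x.1 = a`, `y.1 = b`; a perpendicular crossing of the zone; a radial crossing of
the strip `[a',b'] × [-h',h']`, `a' ≤ a`, `b ≤ b'`, `h' ≤ h`.  The perpendicular crossing (a connected set) meets the first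
path (`cross`) and the radial crossing (`crossX`).  So there are sites `p`, `q` at the two ends of the strip joined to
`x`. -/
theorem link {a b h a' b' h' : ℤ} (hab : a ≤ b) (hh' : 0 ≤ h') (hh : h' ≤ h) (ha : a' ≤ a)
    (hb : b ≤ b') {x y : Pt} (hx : x.1 = a) (hy : y.1 = b)
    (h1 : L.Cn (rect a b (-h) h ∩ L.col c ω) x y) (h2 : L.VX c a b (-h) h ω)
    {p q : Pt} (hp : p.1 = a') (hq : q.1 = b') (h3 : L.Cn (rect a' b' (-h') h' ∩ L.col c ω) p q) :
    L.Cn ((rect a b (-h) h ∪ rect a' b' (-h') h') ∩ L.col c ω) x p := by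
  obtain ⟨u, v, hu, hv, huv⟩ := h2
  have sub1 : ∀ s : Pt, {w | L.Cn (rect a b (-h) h ∩ L.col c ω) s w} ⊆ rect a b (-h) h := by
    intro s w hw
    have hw' : L.Cn (rect a b (-h) h ∩ L.col c ω) s w := hw
    exact hw'.right.1
  have sub2 : {w | L.Cn (rect a' b' (-h') h' ∩ L.col c ω) p w} ⊆ rect a' b' (-h') h' := by
    intro w hw
    have hw' : L.Cn (rect a' b' (-h') h' ∩ L.col c ω) p w := hw
    exact hw'.right.1
  obtain ⟨z, hz1, hz2⟩ := cross (con_cluster _ x) (con_cluster _ u) (sub1 x) (sub1 u)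
    ⟨x, Cn.refl h1.left, hx⟩ ⟨y, h1, hy⟩ ⟨u, Cn.refl huv.left, hu⟩ ⟨v, huv, hv⟩
  obtain ⟨z', ⟨hz3, hz4⟩, -⟩ := crossX (con_cluster _ p) (con_cluster _ u) sub2 (sub1 u)
    ⟨p, Cn.refl h3.left, hp⟩ ⟨q, h3, hq⟩ ⟨u, Cn.refl huv.left, hu⟩ ⟨v, huv, hv⟩
    ha hb (by omega) hh hab (by omega)
  have k1 : L.Cn (rect a b (-h) h ∩ L.col c ω) x z := hz1
  have k2 : L.Cn (rect a b (-h) h ∩ L.col c ω) u z := hz2
  have k3 : L.Cn (rect a' b' (-h') h' ∩ L.col c ω) p z' := hz3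
  have k4 : L.Cn (rect a b (-h) h ∩ L.col c ω) u z' := hz4
  have e1 : rect a b (-h) h ∩ L.col c ω ⊆
      (rect a b (-h) h ∪ rect a' b' (-h') h') ∩ L.col c ω :=
    Set.inter_subset_inter_left _ Set.subset_union_left
  have e2 : rect a' b' (-h') h' ∩ L.col c ω ⊆
      (rect a b (-h) h ∪ rect a' b' (-h') h') ∩ L.col c ω :=
    Set.inter_subset_inter_left _ Set.subset_union_right
  exact (((k1.trans k2.symm).trans k4).mono e1).trans (k3.symm.mono e2)

end Lat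

end SC
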