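import Pool.Agent.Lib_MP_e0a489.SE6
import Pool.Agent.Lib_MP_e0a489.SE7

/-!
# MP_e0a489, module SE 8: extension of arms through strips
-/

set_option autoImplicit false

namespace SC

open Classical

namespace Lat

variable {L : Lat} {c : Bool} {ω : Cfg}

theorem Zn0_rect8 (a b h : ℤ) : Zn 0 a b h = rect a b (-h) h := by
  ext v
  rw [mem_Zn0]
  exact ⟨fun H => ⟨⟨H.1, H.2.1⟩, H.2.2.1, H.2.2.2⟩, fun H => ⟨H.1.1, H.1.2, H.2.1, H.2.2⟩⟩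

theorem VX_of_SY0 {a b h : ℤ} (H : L.SY c 0 a b h ω) : L.VX c a b (-h) h ω := by
  obtain ⟨x, ⟨x', hx', rfl⟩, y, ⟨y', hy', rfl⟩, hc⟩ := H
  rw [rt_zero, rt_zero, Zn0_rect8] at hc
  exact ⟨x', y', le_antisymm hx'.2.2 hx'.2.1, le_antisymm hy'.2.2 hy'.2.1, hc⟩

theorem fst_of_Zn0 {a h : ℤ} {v : Pt} (hv : v ∈ Zn 0 a a h) : v.1 = a := by
  rw [mem_Zn0] at hv
  omega

/-- Direction 0, outward: `zone_out`, `link` (zone `J 0 R`, strip `Zn 0 (R+1) b (R/4)`). -/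
theorem arm_out0 {D X : Set Pt} {R b : ℤ} (hR : 16 ≤ R) (hb : 2 * R ≤ b) (hD : D ⊆ bx R)
    (hX : X ⊆ bx R ∪ L.nb (bx R)) (h : L.Arm c (D ∪ (J 0 R ∪ J 2 R)) X (Je 0 R) ω)
    (h1 : L.SY c 0 (R + 1) (2 * R) (R / 4) ω) (h2 : L.SX c 0 (R + 1) b (R / 4) ω) :
    L.Arm c (D ∪ (J 0 R ∪ J 2 R) ∪ Zn 0 (R + 1) b (R / 4)) X (Zn 0 b b (R / 4)) ω := by
  obtain ⟨x, hx, y, hy, hc⟩ := h
  obtain ⟨p, hp, p', hp', hs⟩ := h2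
  obtain ⟨q, hq, hqy, hxq⟩ := zone_out (by omega) hD (hX hx) hy hc
  have hy1 : y.1 = 2 * R := by
    rw [Je_eq] at hy
    exact fst_of_Zn0 hy
  have hl := link (a := R + 1) (b := 2 * R) (h := R / 4) (a' := R + 1) (b' := b) (h' := R / 4)
    (by omega) (by omega) le_rfl le_rfl hb hq hy1 (by rw [J_eq, Zn0_rect8] at hqy; exact hqy)
    (VX_of_SY0 h1) (fst_of_Zn0 hp) (fst_of_Zn0 hp') (by rw [Zn0_rect8] at hs; exact hs)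
  rw [← Zn0_rect8, ← Zn0_rect8, ← J_eq] at hl
  refine ⟨x, hx, p', hp', ?_⟩
  have e1 : L.Cn ((D ∪ (J 0 R ∪ J 2 R) ∪ Zn 0 (R + 1) b (R / 4)) ∩ L.col c ω) x q :=
    hxq.mono (Set.inter_subset_inter_left _ Set.subset_union_left)
  have e2 : L.Cn ((D ∪ (J 0 R ∪ J 2 R) ∪ Zn 0 (R + 1) b (R / 4)) ∩ L.col c ω) q p :=
    hl.mono (Set.inter_subset_inter_left _ (Set.union_subset_union_left _
      (Set.subset_union_left.trans Set.subset_union_right)))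
  have e3 : L.Cn ((D ∪ (J 0 R ∪ J 2 R) ∪ Zn 0 (R + 1) b (R / 4)) ∩ L.col c ω) p p' :=
    hs.mono (Set.inter_subset_inter_left _ Set.subset_union_right)
  exact (e1.trans e2).trans e3

/-- Direction 0, inward: `zone_in`, `link` (zone `K 0 r`, strip `Zn 0 a r w`). -/
theorem arm_in0 {D Y : Set Pt} {r a w : ℤ} (hr : 16 ≤ r) (ha : a ≤ r / 2 + 1) (hw : 0 ≤ w)
    (hw' : w ≤ r / 8) (hD : ∀ v ∈ D, r < nrm v) (hY : ∀ v ∈ Y, r < nrm v)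
    (h : L.Arm c (D ∪ (K 0 r ∪ K 2 r)) (Ks 0 r) Y ω)
    (h1 : L.SY c 0 (r / 2 + 1) r (r / 8) ω) (h2 : L.SX c 0 a r w ω) :
    L.Arm c (D ∪ (K 0 r ∪ K 2 r) ∪ Zn 0 a r w) (Zn 0 a a w) Y ω := by
  obtain ⟨x, hx, y, hy, hc⟩ := h
  obtain ⟨p, hp, p', hp', hs⟩ := h2
  obtain ⟨q, hq, hxq, -⟩ := zone_in (by omega) hD hx (hY y hy) hc
  have hx1 : x.1 = r / 2 + 1 := by
    rw [Ks_eq] at hx
    exact fst_of_Zn0 hx
  have hl := link (a := r / 2 + 1) (b := r) (h := r / 8) (a' := a) (b' := r) (h' := w)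
    (by omega) hw hw' ha le_rfl hx1 hq (by rw [K_eq, Zn0_rect8] at hxq; exact hxq)
    (VX_of_SY0 h1) (fst_of_Zn0 hp) (fst_of_Zn0 hp') (by rw [Zn0_rect8] at hs; exact hs)
  rw [← Zn0_rect8, ← Zn0_rect8, ← K_eq] at hl
  refine ⟨p, hp, y, hy, ?_⟩
  have e1 : L.Cn ((D ∪ (K 0 r ∪ K 2 r) ∪ Zn 0 a r w) ∩ L.col c ω) x y :=
    hc.mono (Set.inter_subset_inter_left _ Set.subset_union_left)
  have e2 : L.Cn ((D ∪ (K 0 r ∪ K 2 r) ∪ Zn 0 a r w) ∩ L.col c ω) x p :=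
    hl.mono (Set.inter_subset_inter_left _ (Set.union_subset_union_left _
      (Set.subset_union_left.trans Set.subset_union_right)))
  exact e2.symm.trans e1

/-- Direction 0, gluing: `zone_out` for the first arm, `zone_in` for the second, `link` twice with the same radial
crossing of the strip `Zn 0 (ρ+1) ρ' (ρ/4)`. -/
theorem arm_glue0 {D X D' Y : Set Pt} {ρ ρ' : ℤ} (hρ : 16 ≤ ρ) (h8 : 8 * ρ ≤ ρ') (hD : D ⊆ bx ρ)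
    (hX : X ⊆ bx ρ ∪ L.nb (bx ρ)) (hD' : ∀ v ∈ D', ρ' < nrm v) (hY : ∀ v ∈ Y, ρ' < nrm v)
    (h : L.Arm c (D ∪ (J 0 ρ ∪ J 2 ρ)) X (Je 0 ρ) ω)
    (h' : L.Arm c (D' ∪ (K 0 ρ' ∪ K 2 ρ')) (Ks 0 ρ') Y ω)
    (h1 : L.SY c 0 (ρ + 1) (2 * ρ) (ρ / 4) ω) (h2 : L.SY c 0 (ρ' / 2 + 1) ρ' (ρ' / 8) ω)
    (h3 : L.SX c 0 (ρ + 1) ρ' (ρ / 4) ω) :
    L.Arm c (D ∪ (J 0 ρ ∪ J 2 ρ) ∪ (D' ∪ (K 0 ρ' ∪ K 2 ρ')) ∪ Zn 0 (ρ + 1) ρ' (ρ / 4)) X Y ω := by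
  obtain ⟨x, hx, y, hy, hc⟩ := h
  obtain ⟨x', hx', y', hy', hc'⟩ := h'
  obtain ⟨p, hp, p', hp', hs⟩ := h3
  obtain ⟨q, hq, hqy, hxq⟩ := zone_out (by omega) hD (hX hx) hy hc
  obtain ⟨q', hq', hxq', -⟩ := zone_in (by omega) hD' hx' (hY y' hy') hc'
  have hy1 : y.1 = 2 * ρ := by
    rw [Je_eq] at hy
    exact fst_of_Zn0 hy
  have hx1 : x'.1 = ρ' / 2 + 1 := by
    rw [Ks_eq] at hx'
    exact fst_of_Zn0 hx'
  have hl := link (a := ρ + 1) (b := 2 * ρ) (h := ρ / 4) (a' := ρ + 1) (b' := ρ') (h' := ρ / 4)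
    (by omega) (by omega) le_rfl le_rfl (by omega) hq hy1
    (by rw [J_eq, Zn0_rect8] at hqy; exact hqy)
    (VX_of_SY0 h1) (fst_of_Zn0 hp) (fst_of_Zn0 hp') (by rw [Zn0_rect8] at hs; exact hs)
  have hl' := link (a := ρ' / 2 + 1) (b := ρ') (h := ρ' / 8) (a' := ρ + 1) (b' := ρ')
    (h' := ρ / 4) (by omega) (by omega) (by omega) (by omega) le_rfl hx1 hq'
    (by rw [K_eq, Zn0_rect8] at hxq'; exact hxq')
    (VX_of_SY0 h2) (fst_of_Zn0 hp) (fst_of_Zn0 hp') (by rw [Zn0_rect8] at hs; exact hs)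
  rw [← Zn0_rect8, ← Zn0_rect8, ← J_eq] at hl
  rw [← Zn0_rect8, ← Zn0_rect8, ← K_eq] at hl'
  refine ⟨x, hx, y', hy', ?_⟩
  have e1 : L.Cn ((D ∪ (J 0 ρ ∪ J 2 ρ) ∪ (D' ∪ (K 0 ρ' ∪ K 2 ρ')) ∪ Zn 0 (ρ + 1) ρ' (ρ / 4)) ∩
      L.col c ω) x q :=
    hxq.mono (Set.inter_subset_inter_left _ (Set.subset_union_left.trans Set.subset_union_left))
  have e2 : L.Cn ((D ∪ (J 0 ρ ∪ J 2 ρ) ∪ (D' ∪ (K 0 ρ' ∪ K 2 ρ')) ∪ Zn 0 (ρ + 1) ρ' (ρ / 4)) ∩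
      L.col c ω) q p := by
    refine hl.mono (Set.inter_subset_inter_left _ ?_)
    rintro v (hv | hv)
    · exact Or.inl (Or.inl (Or.inr (Or.inl hv)))
    · exact Or.inr hv
  have e3 : L.Cn ((D ∪ (J 0 ρ ∪ J 2 ρ) ∪ (D' ∪ (K 0 ρ' ∪ K 2 ρ')) ∪ Zn 0 (ρ + 1) ρ' (ρ / 4)) ∩
      L.col c ω) x' p := by
    refine hl'.mono (Set.inter_subset_inter_left _ ?_)
    rintro v (hv | hv)
    · exact Or.inl (Or.inr (Or.inr (Or.inl hv)))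
    · exact Or.inr hv
  have e4 : L.Cn ((D ∪ (J 0 ρ ∪ J 2 ρ) ∪ (D' ∪ (K 0 ρ' ∪ K 2 ρ')) ∪ Zn 0 (ρ + 1) ρ' (ρ / 4)) ∩
      L.col c ω) x' y' :=
    hc'.mono (Set.inter_subset_inter_left _ (Set.subset_union_right.trans Set.subset_union_left))
  exact ((e1.trans e2).trans e3.symm).trans e4

end Lat

end SC
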