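import Pool.Agent.Lib_MP_e0a489.FT5
import Pool.Agent.Lib_MP_e0a489.SH1

/-!
# MP_e0a489, shared by OS and IS, 2: the bad event, dependence and probability
-/

set_option autoImplicit false

namespace SC

open Classical

namespace Lat

private theorem sh2_alt3 (L : Lat) (β a : ℤ) :
    Dep (L.Alt3 β a) (rect (-(2 * β)) (2 * β) 0 (2 * β)) := by
  intro ω ω' h
  have h1 : ∀ (c : Bool) (x : ℤ), L.Arm c (rect (-(2 * β)) (2 * β) 0 (2 * β)) {(x, 0)} (hbo β) ω =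
      L.Arm c (rect (-(2 * β)) (2 * β) 0 (2 * β)) {(x, 0)} (hbo β) ω' :=
    fun c x => Arm.dep L c _ _ _ ω ω' h
  unfold Lat.Alt3
  simp only [h1]

/-- `Arm.dep` in the transported lattice: if `ω` and `ω'` agree on the image of the half box under `we`, then
`via (we ..) ω` and `via (we ..) ω'` agree on the half box. -/
theorem Tri.dep (L : Lat) (o : Bool) (m s y₀ β a : ℤ) :
    Dep (L.Tri o m s y₀ β a) (we o m s y₀ '' rect (-(2 * β)) (2 * β) 0 (2 * β)) := by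
  intro ω ω' h
  unfold Lat.Tri
  refine sh2_alt3 _ β a _ _ (fun v hv => ?_)
  exact h _ ⟨v, hv, rfl⟩

/-- `Arm.dep`, `Tri.dep`, `we_true_nrm`, `we_false_nrm` -/
theorem BadW.dep (L : Lat) {o : Bool} {D A : Set Pt} {m ρ ℓ β a : ℤ} (hβ : 1 ≤ β) (hD : D ⊆ A)
    (h1 : o = true → ∀ v, m ≤ nrm v → nrm v ≤ m + 2 * β → v ∈ A)
    (h2 : o = false → ∀ v, m - 2 * β ≤ nrm v → nrm v ≤ m → v ∈ A) :
    Dep (L.BadW o D m ρ ℓ β a) A := by
  have key : ∀ ω ω' : Cfg, (∀ v ∈ A, ω v = ω' v) → L.BadW o D m ρ ℓ β a ω →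
      L.BadW o D m ρ ℓ β a ω' := by
    intro ω ω' h hb
    rcases hb with ⟨b, s, hs, hc⟩ | ⟨s, hs, j, hj, hlt, ht⟩
    · refine Or.inl ⟨b, s, hs, ?_⟩
      unfold Lat.Crn at hc ⊢
      have e := Arm.dep L b (D ∩ {v | nrm (v - rt s (m, m)) ≤ ℓ})
        {v | nrm (v - rt s (m, m)) ≤ ρ} {v | ℓ ≤ nrm (v - rt s (m, m))} ω ω'
        (fun v hv => h v (hD hv.1))
      rw [← e]
      exact hc
    · refine Or.inr ⟨s, hs, j, hj, hlt, ?_⟩
      have e := Tri.dep L o m s (β * j) β a ω ω' (by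
        rintro u ⟨v, hv, rfl⟩
        apply h
        cases o with
        | true =>
          obtain ⟨e1, e2⟩ := we_true_nrm (s := s) (by linarith) hlt hv
          exact h1 rfl _ e1 e2
        | false =>
          obtain ⟨e1, e2⟩ := we_false_nrm (s := s) (by linarith) hlt hv
          exact h2 rfl _ e1 e2)
      rw [← e]
      exact ht
  intro ω ω' h
  exact propext ⟨key ω ω' h, key ω' ω (fun v hv => (h v hv).symm)⟩

end Lat

/-- `foot` for the transported lattice `wl L o m s y₀` (`rsw_wl`, `pr_via`; `Alt3` is local: `Arm.dep`, the half box is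
finite). -/
theorem tri_pr (κ : ℕ → ℝ) : ∃ C c : ℝ, 0 < C ∧ 0 < c ∧ c ≤ 1 / 2 ∧ ∀ L : Lat, RSW L κ →
    ∀ (o : Bool) (m s y₀ β a : ℤ), 1 ≤ a → a ≤ β →
      pr (L.Tri o m s y₀ β a) ≤ C * ((a : ℝ) / β) ^ c := by
  obtain ⟨C, c, hC, hc, hc2, h⟩ := foot κ
  refine ⟨C, c, hC, hc, hc2, ?_⟩
  intro L hL o m s y₀ β a h1 h2
  have hf : (rect (-(2 * β)) (2 * β) 0 (2 * β)).Finite := by
    have hs : rect (-(2 * β)) (2 * β) 0 (2 * β) ⊆
        Set.Icc (-(2 * β)) (2 * β) ×ˢ Set.Icc 0 (2 * β) := by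
      rintro v ⟨e1, e2⟩
      exact ⟨e1, e2⟩
    exact ((Set.finite_Icc _ _).prod (Set.finite_Icc _ _)).subset hs
  have hl : Loc ((wl L o m s y₀).Alt3 β a) :=
    ⟨hf.toFinset, (Lat.sh2_alt3 _ β a).mono (by rw [Set.Finite.coe_toFinset])⟩
  have e : pr (L.Tri o m s y₀ β a) = pr ((wl L o m s y₀).Alt3 β a) :=
    pr_via hl (we o m s y₀)
  rw [e]
  exact h (wl L o m s y₀) (rsw_wl hL o m s y₀) β a h1 h2

end SC
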