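import Pool.Agent.Lib_MP_e0a489.TD2

/-!
# MP_e0a489, topology 6d: one arm bound
-/

set_option autoImplicit false

namespace SC

open Classical

/-- no circuit of colour `b` in the annuli number `j < J` -/
private def td4_ev (L : Lat) (b : Bool) (m : ℤ) (J : ℕ) (ω : Cfg) : Prop :=
  ∀ j < J, ¬ L.Circ b (4 ^ j * m) (2 * (4 ^ j * m)) ω

private theorem td4_ev_zero (L : Lat) (b : Bool) (m : ℤ) :
    td4_ev L b m 0 = fun _ => True := by
  funext ω
  exact propext ⟨fun _ => trivial, fun _ j hj => absurd hj (Nat.not_lt_zero j)⟩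

private theorem td4_ev_succ (L : Lat) (b : Bool) (m : ℤ) (J : ℕ) :
    td4_ev L b m (J + 1) =
      fun ω => td4_ev L b m J ω ∧ ¬ L.Circ b (4 ^ J * m) (2 * (4 ^ J * m)) ω := by
  funext ω
  refine propext ⟨fun h => ⟨fun j hj => h j (by omega), h J (by omega)⟩, fun h j hj => ?_⟩
  by_cases h1 : j = J
  · subst h1
    exact h.2
  · exact h.1 j (by omega)

private theorem td4_indep {L : Lat} {κ : ℕ → ℝ} (h : RSW L κ) (b : Bool) {m : ℤ} (hm : 8 ≤ m)
    (J : ℕ) : Loc (td4_ev L b m J) ∧ Dep (td4_ev L b m J) (bx (4 ^ J * m)) ∧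
      pr (td4_ev L b m J) ≤ (1 - κ 5 ^ 4) ^ J := by
  induction J with
  | zero =>
    rw [td4_ev_zero]
    refine ⟨⟨∅, fun _ _ _ => rfl⟩, fun _ _ _ => rfl, ?_⟩
    rw [pow_zero]
    exact pr_le_one _
  | succ J ih =>
    obtain ⟨h1, h2, h3⟩ := ih
    have hρ : 8 ≤ 4 ^ J * m := by
      have : (1 : ℤ) ≤ 4 ^ J := one_le_pow₀ (by norm_num)
      nlinarith
    have hρ' : (4 : ℤ) ^ (J + 1) * m = 4 * (4 ^ J * m) := by
      rw [pow_succ]
      ring
    have hcd : Dep (fun ω => ¬ L.Circ b (4 ^ J * m) (2 * (4 ^ J * m)) ω)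
        (ann (4 ^ J * m) (2 * (4 ^ J * m))) :=
      (Lat.Circ.dep L b _ _ (by omega)).comp Not
    have hcl : Loc (fun ω => ¬ L.Circ b (4 ^ J * m) (2 * (4 ^ J * m)) ω) :=
      (Lat.Circ.loc L b _ _).not
    rw [td4_ev_succ]
    refine ⟨h1.and hcl, ?_, ?_⟩
    · refine (h2.comp2 hcd And).mono ?_
      rintro v (hv | hv)
      · have h4 : nrm v ≤ 4 ^ J * m := hv
        show nrm v ≤ 4 ^ (J + 1) * m
        omega
      · have h4 : nrm v ≤ 2 * (4 ^ J * m) := hv.2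
        show nrm v ≤ 4 ^ (J + 1) * m
        omega
    · rw [pr_and h1 hcl h2 hcd (fun v hv hv' => absurd hv'.1 (not_lt.2 hv)), pow_succ]
      have h4 : κ 5 ^ 4 ≤ pr (L.Circ b (4 ^ J * m) (2 * (4 ^ J * m))) :=
        circ_pr h (by norm_num) b (by omega) (by omega) (by push_cast; omega)
      have h5 := pr_not (Lat.Circ.loc L b (4 ^ J * m) (2 * (4 ^ J * m)))
      refine mul_le_mul h3 (by rw [h5]; linarith) (pr_nonneg _) (le_trans (pr_nonneg _) h3)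

/-- the exponent -/
private noncomputable def td4_c (κ : ℕ → ℝ) : ℝ :=
  -Real.log (max (1 / 2) (1 - κ 5 ^ 4)) / Real.log 4

private theorem td4_log4 : Real.log 4 = 2 * Real.log 2 := by
  have : (4 : ℝ) = 2 ^ (2 : ℕ) := by norm_num
  rw [this, Real.log_pow]
  norm_num

private theorem td4_c_pos {κ : ℕ → ℝ} (hκ : 0 < κ 5) : 0 < td4_c κ := by
  have h1 : max (1 / 2 : ℝ) (1 - κ 5 ^ 4) < 1 := by
    refine max_lt (by norm_num) ?_
    have : 0 < κ 5 ^ 4 := by positivity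
    linarith
  have h0 : (0 : ℝ) < max (1 / 2 : ℝ) (1 - κ 5 ^ 4) := lt_max_of_lt_left (by norm_num)
  unfold td4_c
  exact div_pos (neg_pos.2 (Real.log_neg h0 h1)) (Real.log_pos (by norm_num))

private theorem td4_c_le (κ : ℕ → ℝ) : td4_c κ ≤ 1 / 2 := by
  have h1 : Real.log (1 / 2) ≤ Real.log (max (1 / 2 : ℝ) (1 - κ 5 ^ 4)) :=
    Real.log_le_log (by norm_num) (le_max_left _ _)
  have h2 : Real.log (1 / 2) = -Real.log 2 := by
    rw [one_div, Real.log_inv]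
  have h3 : 0 < Real.log 2 := Real.log_pos (by norm_num)
  unfold td4_c
  rw [div_le_iff₀ (Real.log_pos (by norm_num)), td4_log4]
  linarith

private theorem td4_q (κ : ℕ → ℝ) : (4 : ℝ) ^ (-td4_c κ) = max (1 / 2) (1 - κ 5 ^ 4) := by
  have h0 : (0 : ℝ) < max (1 / 2 : ℝ) (1 - κ 5 ^ 4) := lt_max_of_lt_left (by norm_num)
  have h1 : Real.log 4 ≠ 0 := (Real.log_pos (by norm_num)).ne'
  rw [Real.rpow_def_of_pos (by norm_num)]
  have h2 : Real.log 4 * -td4_c κ = Real.log (max (1 / 2) (1 - κ 5 ^ 4)) := by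
    unfold td4_c
    field_simp
  rw [h2, Real.exp_log h0]

private theorem td4_key {L : Lat} {κ : ℕ → ℝ} (h : RSW L κ) (b : Bool)
    {r R : ℤ} (hr : 1 ≤ r) (hR : r ≤ R) {A : Cfg → Prop} (lA : Loc A)
    (hA : ∀ ω, A ω → ∃ P : Set Pt, L.Con P ∧ P ⊆ L.col b ω ∧
      (∃ v ∈ P, v ∈ bx r ∪ L.nb (bx r)) ∧ ∃ v ∈ P, R ≤ nrm v) :
    pr A ≤ 4 * ((r : ℝ) / R) ^ td4_c κ := by
  set m : ℤ := max r 8 with hm
  have hm8 : 8 ≤ m := le_max_right _ _
  have hmr : r ≤ m := le_max_left _ _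
  have hm8r : m ≤ 8 * r := max_le (by omega) (by omega)
  have hex : ∃ n : ℕ, R < 2 * (4 ^ n * m) := by
    obtain ⟨n, hn⟩ := pow_unbounded_of_one_lt R (show (1 : ℤ) < 4 by norm_num)
    refine ⟨n, lt_of_lt_of_le hn ?_⟩
    have : (0 : ℤ) < 4 ^ n := by positivity
    nlinarith
  have hJ := Nat.find_spec hex
  have hJ' : ∀ j < Nat.find hex, 2 * (4 ^ j * m) ≤ R := fun j hj => not_lt.1 (Nat.find_min hex hj)
  set J : ℕ := Nat.find hex with hJdef
  obtain ⟨h1, h2, h3⟩ := td4_indep h (!b) hm8 J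
  have hp1 : κ 5 ^ 4 ≤ 1 :=
    (circ_pr (r := 8) (R := 16) h (by norm_num : 1 ≤ 5) b (by norm_num) (by norm_num)
      (by norm_num)).trans (pr_le_one _)
  have h4 : pr A ≤ pr (td4_ev L (!b) m J) := by
    refine pr_mono lA h1 fun ω hω j hj hC => ?_
    obtain ⟨P, hP1, hP2, hP3, hP4⟩ := hA ω hω
    have hρ : 1 * m ≤ 4 ^ j * m :=
      mul_le_mul_of_nonneg_right (one_le_pow₀ (by norm_num)) (by omega)
    obtain ⟨σ, hσ, hs⟩ := Lat.Circ.sep (by omega) (by omega) hC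
    have hs' : L.Sep σ r R := hs.mono (by omega) (by omega) (hJ' j hj)
    obtain ⟨x, hx, hx'⟩ := hs'.2.2 P hP1 hP3 hP4
    have e1 : L.st ω x = !b := hσ hx
    have e2 : L.st ω x = b := hP2 hx'
    rw [e2] at e1
    exact absurd e1 (by cases b <;> decide)
  have h5 : (1 - κ 5 ^ 4) ^ J ≤ ((4 : ℝ) ^ J) ^ (-td4_c κ) := by
    have e : ((4 : ℝ) ^ J) ^ (-td4_c κ) = ((4 : ℝ) ^ (-td4_c κ)) ^ J := by
      rw [← Real.rpow_natCast, ← Real.rpow_mul (by norm_num), mul_comm, Real.rpow_mul (by norm_num),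
        Real.rpow_natCast]
    rw [e, td4_q]
    exact pow_le_pow_left₀ (by linarith) (le_max_right _ _) J
  have h6 : ((4 : ℝ) ^ J) ^ (-td4_c κ) ≤ 4 * ((r : ℝ) / R) ^ td4_c κ := by
    have hc0 : 0 ≤ td4_c κ := by
      have hκ : 0 < κ 5 := h.pos 5
      exact (td4_c_pos hκ).le
    have hr0 : (0 : ℝ) < r := by exact_mod_cast (by omega : 0 < r)
    have hR0 : (0 : ℝ) < R := by exact_mod_cast (by omega : 0 < R)
    have hx0 : (0 : ℝ) < (4 : ℝ) ^ J := by positivity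
    have h7 : (R : ℝ) ≤ 16 * r * 4 ^ J := by
      have : R ≤ 16 * r * 4 ^ J := by
        have h9 : (0 : ℤ) < 4 ^ J := by positivity
        nlinarith
      exact_mod_cast this
    have h8 : ((4 : ℝ) ^ J)⁻¹ ≤ 16 * ((r : ℝ) / R) := by
      rw [inv_le_iff_one_le_mul₀ hx0]
      have : 16 * ((r : ℝ) / R) * 4 ^ J = (16 * r * 4 ^ J) / R := by ring
      rw [this, le_div_iff₀ hR0]
      linarith
    have h9 : ((4 : ℝ) ^ J) ^ (-td4_c κ) = (((4 : ℝ) ^ J)⁻¹) ^ td4_c κ := by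
      rw [Real.rpow_neg hx0.le, Real.inv_rpow hx0.le]
    rw [h9]
    refine (Real.rpow_le_rpow (by positivity) h8 hc0).trans ?_
    rw [Real.mul_rpow (by norm_num) (by positivity)]
    refine mul_le_mul_of_nonneg_right ?_ (by positivity)
    have h10 : (16 : ℝ) ^ td4_c κ ≤ (16 : ℝ) ^ (1 / 2 : ℝ) :=
      Real.rpow_le_rpow_of_exponent_le (by norm_num) (td4_c_le κ)
    have h11 : (16 : ℝ) ^ (1 / 2 : ℝ) = 4 := by
      rw [show (16 : ℝ) = 4 ^ (2 : ℝ) by norm_num, ← Real.rpow_mul (by norm_num)]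
      norm_num
    linarith
  exact h4.trans (h3.trans (h5.trans h6))

/-- ONE ARM BOUND.  Circuits of the other colour in the annuli `ann ρ (2ρ)`, `ρ = 4 ^ j r'`, `r' = max r 8`,
`2 ρ ≤ R`, are independent and each has probability at least `κ 5 ^ 4` (`circ_pr`); if one of them
occurs there is no arm (`Circ.sep`, the arm is a connected set of colour `b` from `nb (bx r)` to `rng R`).  So the
probability is at most `(1 - κ 5 ^ 4) ^ J` with `J ≥ log_4 (R / r') - 2`. -/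
theorem one_arm (κ : ℕ → ℝ) : ∃ C c : ℝ, 0 < C ∧ 0 < c ∧ c ≤ 1 / 2 ∧ ∀ L : Lat, RSW L κ →
    ∀ (b : Bool) (r R : ℤ), 1 ≤ r → r ≤ R →
      pr (L.Arm b (ann r R) (L.nb (bx r)) (rng R)) ≤ C * ((r : ℝ) / R) ^ c := by
  by_cases hκ : 0 < κ 5
  · refine ⟨4, td4_c κ, by norm_num, td4_c_pos hκ, td4_c_le κ, fun L h b r R hr hR => ?_⟩
    have hfin : (ann r R).Finite := by
      refine (Set.Finite.subset (Set.Finite.prod (Set.finite_Icc (-R) R) (Set.finite_Icc (-R) R)) ?_)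
      rintro v ⟨-, hv⟩
      simp only [nrm, max_le_iff, abs_le] at hv
      exact ⟨⟨hv.1.1, hv.1.2⟩, hv.2.1, hv.2.2⟩
    refine td4_key h b hr hR (Lat.Arm.loc L b _ _ _ hfin) ?_
    rintro ω ⟨x, hx, y, hy, hxy⟩
    refine ⟨{z | L.Cn (ann r R ∩ L.col b ω) x z}, Lat.con_cluster _ _, fun z hz => (Lat.Cn.right hz).2,
      ⟨x, Lat.Cn.refl hxy.left, Or.inr hx⟩, ⟨y, hxy, ge_of_eq hy⟩⟩
  · exact ⟨1, 1 / 2, by norm_num, by norm_num, le_rfl, fun L h => absurd (h.pos 5) hκ⟩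

/-- The same for an arm between two sets at distance: `X ⊆ {nrm (v - x) ≤ r}`, `Y ⊆ {nrm (v - x) ≥ R}` and any
finite domain.  (The arm contains a crossing of the annulus around `x`; `RSW (L.shift x)`.) -/
theorem one_arm' (κ : ℕ → ℝ) : ∃ C c : ℝ, 0 < C ∧ 0 < c ∧ c ≤ 1 / 2 ∧ ∀ L : Lat, RSW L κ →
    ∀ (b : Bool) (x : Pt) (r R : ℤ) (D X Y : Set Pt), 1 ≤ r → r ≤ R → D.Finite →
      X ⊆ {v | nrm (v - x) ≤ r} → Y ⊆ {v | R ≤ nrm (v - x)} →
      pr (L.Arm b D X Y) ≤ C * ((r : ℝ) / R) ^ c := by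
  by_cases hκ : 0 < κ 5
  · refine ⟨4, td4_c κ, by norm_num, td4_c_pos hκ, td4_c_le κ,
      fun L h b x r R D X Y hr hR hD hX hY => ?_⟩
    set e : Equiv.Perm Pt := Equiv.addRight x with he
    have hT : Tr L (L.shift x) e := tr_shift L x
    have hi : ∀ S : Set Pt, e '' (e ⁻¹' S) = S := fun S => Set.image_preimage_eq S e.surjective
    have hev : (fun ω => (L.shift x).Arm b (e ⁻¹' D) (e ⁻¹' X) (e ⁻¹' Y) (via e ω)) =
        L.Arm b D X Y := by
      funext ω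
      rw [hT.arm, hi, hi, hi]
    have hfin : (e ⁻¹' D).Finite := hD.preimage e.injective.injOn
    have hloc : Loc ((L.shift x).Arm b (e ⁻¹' D) (e ⁻¹' X) (e ⁻¹' Y)) :=
      Lat.Arm.loc _ b _ _ _ hfin
    rw [← hev, pr_via hloc e]
    refine td4_key (h.shift x) b hr hR hloc ?_
    rintro ω ⟨u, hu, v, hv, huv⟩
    refine ⟨{z | (L.shift x).Cn (e ⁻¹' D ∩ (L.shift x).col b ω) u z}, Lat.con_cluster _ _,
      fun z hz => (Lat.Cn.right hz).2, ⟨u, Lat.Cn.refl huv.left, Or.inl ?_⟩, ⟨v, huv, ?_⟩⟩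
    · have h1 := hX hu
      have h2 : e u - x = u := by simp [he]
      simp only [Set.mem_ofPred_eq, h2] at h1
      exact h1
    · have h1 := hY hv
      have h2 : e v - x = v := by simp [he]
      simp only [Set.mem_ofPred_eq, h2] at h1
      exact h1
  · exact ⟨1, 1 / 2, by norm_num, by norm_num, le_rfl, fun L h => absurd (h.pos 5) hκ⟩

end SC
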