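import Pool.Agent.Lib_MP_e0a489.SH2
import Pool.Agent.Lib_MP_e0a489.TD4

/-!
# MP_e0a489, shared by OS and IS, 3: probability of the bad event
-/

set_option autoImplicit false

namespace SC

open Classical

private theorem sh3_loc_of_dep {A : Cfg → Prop} {D : Set Pt} (h : Dep A D) (hD : D.Finite) :
    Loc A := by
  refine ⟨hD.toFinset, ?_⟩
  rw [hD.coe_toFinset]
  exact h

private theorem sh3_rect_finite (a b p q : ℤ) : (rect a b p q).Finite := by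
  refine ((Set.finite_Icc a b).prod (Set.finite_Icc p q)).subset ?_
  rintro v ⟨⟨h1, h2⟩, h3, h4⟩
  exact ⟨⟨h1, h2⟩, h3, h4⟩

private theorem sh3_loc_ex {ι : Type} {I : Finset ι} {A : ι → Cfg → Prop}
    (h : ∀ i ∈ I, Loc (A i)) : Loc (fun ω => ∃ i ∈ I, A i ω) := by
  choose F hF using h
  refine ⟨I.attach.biUnion fun i => F i.1 i.2, ?_⟩
  intro ω ω' H
  refine propext ⟨?_, ?_⟩
  · rintro ⟨i, hi, h⟩
    refine ⟨i, hi, ?_⟩
    rw [← hF i hi ω ω' fun v hv => H v (Finset.mem_coe.2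
      (Finset.mem_biUnion.2 ⟨⟨i, hi⟩, Finset.mem_attach _ _, Finset.mem_coe.1 hv⟩))]
    exact h
  · rintro ⟨i, hi, h⟩
    refine ⟨i, hi, ?_⟩
    rw [hF i hi ω ω' fun v hv => H v (Finset.mem_coe.2
      (Finset.mem_biUnion.2 ⟨⟨i, hi⟩, Finset.mem_attach _ _, Finset.mem_coe.1 hv⟩))]
    exact h

private theorem sh3_rpow {x y : ℤ} {c c' : ℝ} (hx : 1 ≤ x) (hxy : x ≤ y) (hc : c ≤ c') :
    ((x : ℝ) / y) ^ c' ≤ ((x : ℝ) / y) ^ c := by
  have hx' : (0 : ℝ) < x := by exact_mod_cast (by omega : 0 < x)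
  have hy' : (0 : ℝ) < y := by exact_mod_cast (by omega : 0 < y)
  refine Real.rpow_le_rpow_of_exponent_ge (by positivity) ?_ hc
  rw [div_le_one hy']
  exact_mod_cast hxy

/-- Union bound (`pr_or_le`, `pr_ex_le`): `8` corner events (`one_arm'` for the centre `rt s (m, m)`), `4` sides times
at most `2 (m / β) + 1 ≤ 3 m / β` windows (`tri_pr`).  If `C₁, c₁` are the constants of `one_arm'` and `C₂, c₂` those of
`tri_pr` take `C = max (8 C₁) (12 C₂)`, `c = min c₁ c₂` (the ratios are at most one, so the powers with the smaller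
exponent are larger: `Real.rpow_le_rpow_of_exponent_ge`).  All events are local (`Arm.loc`, `Tri.dep`). -/
theorem bad_pr (κ : ℕ → ℝ) : ∃ C c : ℝ, 0 < C ∧ 0 < c ∧ c ≤ 1 / 2 ∧ ∀ L : Lat, RSW L κ →
    ∀ (o : Bool) (D : Set Pt) (m ρ ℓ β a : ℤ), D.Finite → 1 ≤ ρ → ρ ≤ ℓ → 1 ≤ a → a ≤ β → β ≤ m →
      pr (L.BadW o D m ρ ℓ β a) ≤
        C * ((ρ : ℝ) / ℓ) ^ c + C * ((m : ℝ) / β) * ((a : ℝ) / β) ^ c := by
  obtain ⟨C₁, c₁, hC₁, hc₁, hc₁', H₁⟩ := one_arm' κ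
  obtain ⟨C₂, c₂, hC₂, hc₂, hc₂', H₂⟩ := tri_pr κ
  refine ⟨max (8 * C₁) (12 * C₂), min c₁ c₂, lt_max_of_lt_left (by positivity), lt_min hc₁ hc₂,
    (min_le_left _ _).trans hc₁', fun L hL o D m ρ ℓ β a hD hρ hρℓ ha haβ hβm => ?_⟩
  have hβ : 1 ≤ β := ha.trans haβ
  have locC : ∀ b s, Loc (L.Crn b D m s ρ ℓ) := fun b s =>
    Lat.Arm.loc L b _ _ _ (hD.subset Set.inter_subset_left)
  have prC : ∀ b s, pr (L.Crn b D m s ρ ℓ) ≤ C₁ * ((ρ : ℝ) / ℓ) ^ c₁ := fun b s =>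
    H₁ L hL b (rt s (m, m)) ρ ℓ _ _ _ hρ hρℓ (hD.subset Set.inter_subset_left)
      (fun v hv => hv) (fun v hv => hv)
  have locT : ∀ s y, Loc (L.Tri o m s y β a) := fun s y =>
    sh3_loc_of_dep (Lat.Tri.dep L o m s y β a) ((sh3_rect_finite _ _ _ _).image _)
  have prT : ∀ s y, pr (L.Tri o m s y β a) ≤ C₂ * ((a : ℝ) / β) ^ c₂ := fun s y =>
    H₂ L hL o m s y β a ha haβ
  -- the events
  let E₁ : Cfg → Prop := fun ω => ∃ i ∈ (Finset.univ : Finset Bool) ×ˢ Finset.Icc (0 : ℤ) 3,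
    L.Crn i.1 D m i.2 ρ ℓ ω
  let E₂ : Cfg → Prop := fun ω => ∃ i ∈ Finset.Icc (0 : ℤ) 3 ×ˢ Finset.Icc (-(m / β)) (m / β),
    L.Tri o m i.1 (β * i.2) β a ω
  have lE₁ : Loc E₁ := sh3_loc_ex fun i _ => locC i.1 i.2
  have lE₂ : Loc E₂ := sh3_loc_ex fun i _ => locT i.1 (β * i.2)
  have p₁ : pr E₁ ≤ 8 * (C₁ * ((ρ : ℝ) / ℓ) ^ c₁) := by
    refine (pr_ex_le fun i _ => locC i.1 i.2).trans ?_
    refine (Finset.sum_le_sum fun i _ => prC i.1 i.2).trans ?_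
    rw [Finset.sum_const, Finset.card_product]
    simp
  have hq : 1 ≤ m / β := by
    rw [Int.le_ediv_iff_mul_le (by omega)]
    omega
  have hq' : ((m / β : ℤ) : ℝ) ≤ (m : ℝ) / β := by
    have hβ0 : (0 : ℝ) < β := by exact_mod_cast (by omega : 0 < β)
    rw [le_div_iff₀ hβ0]
    exact_mod_cast Int.ediv_mul_le m (by omega)
  have p₂ : pr E₂ ≤ 12 * ((m : ℝ) / β) * (C₂ * ((a : ℝ) / β) ^ c₂) := by
    refine (pr_ex_le fun i _ => locT i.1 (β * i.2)).trans ?_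
    refine (Finset.sum_le_sum fun i _ => prT i.1 (β * i.2)).trans ?_
    rw [Finset.sum_const, Finset.card_product, nsmul_eq_mul]
    have h0 : 0 ≤ C₂ * ((a : ℝ) / β) ^ c₂ := (pr_nonneg _).trans (prT 0 0)
    refine mul_le_mul_of_nonneg_right ?_ h0
    have h1 : ((Finset.Icc (0 : ℤ) 3).card : ℝ) = 4 := by simp
    have h2 : ((Finset.Icc (-(m / β)) (m / β)).card : ℝ) = 2 * ((m / β : ℤ) : ℝ) + 1 := by
      have h3 : ((Finset.Icc (-(m / β)) (m / β)).card : ℤ) = 2 * (m / β) + 1 := by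
        rw [Int.card_Icc, Int.toNat_of_nonneg (by omega)]
        ring
      exact_mod_cast h3
    rw [Nat.cast_mul, h1, h2]
    have h4 : (1 : ℝ) ≤ ((m / β : ℤ) : ℝ) := by exact_mod_cast hq
    nlinarith
  have lB : Loc (L.BadW o D m ρ ℓ β a) := by
    have e : L.BadW o D m ρ ℓ β a = fun ω => E₁ ω ∨
        ∃ i ∈ Finset.Icc (0 : ℤ) 3 ×ˢ Finset.Icc (-(m / β)) (m / β),
          |β * i.2| + 2 * β < m ∧ L.Tri o m i.1 (β * i.2) β a ω := by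
      funext ω
      refine propext ⟨?_, ?_⟩
      · rintro (⟨b, s, hs, h⟩ | ⟨s, hs, j, hj, h⟩)
        · exact Or.inl ⟨(b, s), Finset.mem_product.2 ⟨Finset.mem_univ _, hs⟩, h⟩
        · exact Or.inr ⟨(s, j), Finset.mem_product.2 ⟨hs, hj⟩, h⟩
      · rintro (⟨⟨b, s⟩, hs, h⟩ | ⟨⟨s, j⟩, hs, h⟩)
        · exact Or.inl ⟨b, s, (Finset.mem_product.1 hs).2, h⟩
        · exact Or.inr ⟨s, (Finset.mem_product.1 hs).1, j, (Finset.mem_product.1 hs).2, h⟩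
    rw [e]
    refine lE₁.or (sh3_loc_ex fun i _ => ?_)
    exact Loc.and ⟨∅, fun _ _ _ => rfl⟩ (locT i.1 (β * i.2))
  have hle : pr (L.BadW o D m ρ ℓ β a) ≤ pr E₁ + pr E₂ := by
    refine (pr_mono lB (lE₁.or lE₂) fun ω hω => ?_).trans (pr_or_le lE₁ lE₂)
    rcases hω with ⟨b, s, hs, h⟩ | ⟨s, hs, j, hj, -, h⟩
    · exact Or.inl ⟨(b, s), Finset.mem_product.2 ⟨Finset.mem_univ _, hs⟩, h⟩
    · exact Or.inr ⟨(s, j), Finset.mem_product.2 ⟨hs, hj⟩, h⟩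
  have hm0 : (0 : ℝ) < m := by exact_mod_cast (by omega : 0 < m)
  have hβ0 : (0 : ℝ) < β := by exact_mod_cast (by omega : 0 < β)
  have hρ0 : (0 : ℝ) < ρ := by exact_mod_cast (by omega : 0 < ρ)
  have hℓ0 : (0 : ℝ) < ℓ := by exact_mod_cast (by omega : 0 < ℓ)
  have ha0 : (0 : ℝ) < a := by exact_mod_cast (by omega : 0 < a)
  have r₁ : ((ρ : ℝ) / ℓ) ^ c₁ ≤ ((ρ : ℝ) / ℓ) ^ min c₁ c₂ := sh3_rpow hρ hρℓ (min_le_left _ _)
  have r₂ : ((a : ℝ) / β) ^ c₂ ≤ ((a : ℝ) / β) ^ min c₁ c₂ := sh3_rpow ha haβ (min_le_right _ _)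
  refine hle.trans (add_le_add (p₁.trans ?_) (p₂.trans ?_))
  · calc 8 * (C₁ * ((ρ : ℝ) / ℓ) ^ c₁) = (8 * C₁) * ((ρ : ℝ) / ℓ) ^ c₁ := by ring
      _ ≤ max (8 * C₁) (12 * C₂) * ((ρ : ℝ) / ℓ) ^ min c₁ c₂ :=
        mul_le_mul (le_max_left _ _) r₁ (by positivity) (le_max_of_le_left (by positivity))
  · calc 12 * ((m : ℝ) / β) * (C₂ * ((a : ℝ) / β) ^ c₂)
        = (12 * C₂) * ((m : ℝ) / β) * ((a : ℝ) / β) ^ c₂ := by ring
      _ ≤ max (8 * C₁) (12 * C₂) * ((m : ℝ) / β) * ((a : ℝ) / β) ^ min c₁ c₂ := by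
        refine mul_le_mul (mul_le_mul_of_nonneg_right (le_max_right _ _) (by positivity)) r₂
          (by positivity) ?_
        exact mul_nonneg (le_max_of_le_left (by positivity)) (by positivity)

end SC
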