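import Pool.Agent.Lib_MP_e0a489.Base

/-!
# MP_e0a489, topology 1a: connectivity
-/

set_option autoImplicit false

namespace SC

open Classical

namespace Lat

variable {L : Lat}

theorem Adj.symm {u v : Pt} (h : L.Adj u v) : L.Adj v u := Or.symm h

private theorem Adj1.near {u v : Pt} (h : L.Adj1 u v) : |u.1 - v.1| ≤ 1 ∧ |u.2 - v.2| ≤ 1 := by
  rcases h with ⟨h1, h2⟩ | ⟨h1, h2⟩ | ⟨h1, h2, -⟩ | ⟨h1, h2, -⟩ <;>
    constructor <;> rw [abs_le] <;> constructor <;> omega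

private theorem Adj1.ne {u v : Pt} (h : L.Adj1 u v) : u ≠ v := by
  rintro rfl
  rcases h with ⟨h1, h2⟩ | ⟨h1, h2⟩ | ⟨h1, h2, -⟩ | ⟨h1, h2, -⟩ <;> omega

theorem Adj.ne {u v : Pt} (h : L.Adj u v) : u ≠ v := by
  rcases h with h | h
  · exact h.ne
  · exact h.ne.symm

/-- adjacent sites differ by at most one in each coordinate -/
theorem Adj.near {u v : Pt} (h : L.Adj u v) : |u.1 - v.1| ≤ 1 ∧ |u.2 - v.2| ≤ 1 := by
  rcases h with h | h
  · exact h.near
  · have := h.near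
    rw [abs_sub_comm u.1, abs_sub_comm u.2]
    exact this

theorem adj_right (u : Pt) : L.Adj u (u.1 + 1, u.2) := Or.inl (Or.inl ⟨rfl, rfl⟩)

theorem adj_up (u : Pt) : L.Adj u (u.1, u.2 + 1) := Or.inl (Or.inr (Or.inl ⟨rfl, rfl⟩))

/-- nearest neighbours are adjacent -/
theorem adj_of_nn {u v : Pt} (h : |u.1 - v.1| + |u.2 - v.2| = 1) : L.Adj u v := by
  have h1 := abs_nonneg (u.1 - v.1)
  have h2 := abs_nonneg (u.2 - v.2)
  rcases abs_cases (u.1 - v.1) with ⟨e1, s1⟩ | ⟨e1, s1⟩ <;>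
    rcases abs_cases (u.2 - v.2) with ⟨e2, s2⟩ | ⟨e2, s2⟩
  · by_cases c : v.1 = u.1
    · exact Or.inr (Or.inr (Or.inl ⟨by omega, by omega⟩))
    · exact Or.inr (Or.inl ⟨by omega, by omega⟩)
  · by_cases c : v.1 = u.1
    · exact Or.inl (Or.inr (Or.inl ⟨by omega, by omega⟩))
    · exact Or.inr (Or.inl ⟨by omega, by omega⟩)
  · by_cases c : v.1 = u.1
    · exact Or.inr (Or.inr (Or.inl ⟨by omega, by omega⟩))
    · exact Or.inl (Or.inl ⟨by omega, by omega⟩)
  · by_cases c : v.1 = u.1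
    · exact Or.inl (Or.inr (Or.inl ⟨by omega, by omega⟩))
    · exact Or.inl (Or.inl ⟨by omega, by omega⟩)

theorem Cn.refl {A : Set Pt} {u : Pt} (h : u ∈ A) : L.Cn A u u :=
  ⟨h, Relation.ReflTransGen.refl⟩

theorem Cn.left {A : Set Pt} {u v : Pt} (h : L.Cn A u v) : u ∈ A := h.1

theorem Cn.right {A : Set Pt} {u v : Pt} (h : L.Cn A u v) : v ∈ A := by
  obtain ⟨hu, h⟩ := h
  rcases Relation.ReflTransGen.cases_tail h with e | ⟨w, -, hw⟩
  · rw [e]; exact hu
  · exact hw.2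

theorem Cn.trans {A : Set Pt} {u v w : Pt} (h : L.Cn A u v) (h' : L.Cn A v w) : L.Cn A u w :=
  ⟨h.1, h.2.trans h'.2⟩

/-- one more step -/
private theorem Cn.step {A : Set Pt} {u v w : Pt} (h : L.Cn A u v) (hvw : L.Adj v w)
    (hw : w ∈ A) : L.Cn A u w := ⟨h.1, h.2.tail ⟨hvw, hw⟩⟩

private theorem Cn.head {A : Set Pt} {u v w : Pt} (hu : u ∈ A) (huv : L.Adj u v)
    (h : L.Cn A v w) : L.Cn A u w := ⟨hu, h.2.head ⟨huv, h.1⟩⟩

/-- induction along a path, starting from the first point -/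
private theorem Cn.rec_tail {A : Set Pt} {u : Pt} (P : Pt → Prop) (h0 : u ∈ A → P u)
    (hs : ∀ v w, L.Cn A u v → P v → L.Adj v w → w ∈ A → P w) {v : Pt} (h : L.Cn A u v) : P v := by
  obtain ⟨hu, h⟩ := h
  induction h with
  | refl => exact h0 hu
  | tail hab hbc ih => exact hs _ _ ⟨hu, hab⟩ ih hbc.1 hbc.2

theorem Cn.symm {A : Set Pt} {u v : Pt} (h : L.Cn A u v) : L.Cn A v u :=
  h.rec_tail (fun v => L.Cn A v u) (fun hu => Cn.refl hu)
    (fun _ _ _ hP ha hw => Cn.head hw ha.symm hP)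

theorem Cn.mono {A B : Set Pt} {u v : Pt} (h : L.Cn A u v) (hAB : A ⊆ B) : L.Cn B u v :=
  h.rec_tail (fun v => L.Cn B u v) (fun hu => Cn.refl (hAB hu))
    (fun _ _ _ hP ha hw => hP.step ha (hAB hw))

theorem Cn.of_adj {A : Set Pt} {u v : Pt} (hu : u ∈ A) (hv : v ∈ A) (h : L.Adj u v) :
    L.Cn A u v := (Cn.refl hu).step h hv

/-- first exit from the set `S` -/
theorem Cn.exit {A S : Set Pt} {u v : Pt} (h : L.Cn A u v) (hu : u ∈ S) (hv : v ∉ S) :
    ∃ p q, L.Cn (A ∩ S) u p ∧ L.Adj p q ∧ q ∈ A ∧ q ∉ S := by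
  have key : L.Cn (A ∩ S) u v ∨ ∃ p q, L.Cn (A ∩ S) u p ∧ L.Adj p q ∧ q ∈ A ∧ q ∉ S := by
    refine h.rec_tail (fun v => L.Cn (A ∩ S) u v ∨ ∃ p q, L.Cn (A ∩ S) u p ∧ L.Adj p q ∧ q ∈ A ∧ q ∉ S)
      (fun hA => Or.inl (Cn.refl ⟨hA, hu⟩)) ?_
    intro v w _ hP ha hw
    rcases hP with hP | hP
    · by_cases hS : w ∈ S
      · exact Or.inl (hP.step ha ⟨hw, hS⟩)
      · exact Or.inr ⟨v, w, hP, ha, hw, hS⟩
    · exact Or.inr hP
  rcases key with key | key
  · exact absurd key.right.2 hv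
  · exact key

/-- last entrance: the part of the path after the last visit of `S` -/
theorem Cn.last {A S : Set Pt} {u v : Pt} (h : L.Cn A u v) (hu : u ∈ S) (hv : v ∉ S) :
    ∃ p q, p ∈ A ∧ p ∈ S ∧ L.Adj p q ∧ L.Cn (A \ S) q v := by
  obtain ⟨p, q, hc, ha, hq, hqS⟩ := (h.symm).exit (S := Sᶜ) hv (fun hc => hc hu)
  refine ⟨q, p, hq, by simpa using hqS, ha.symm, ?_⟩
  exact hc.symm.mono (fun x hx => ⟨hx.1, hx.2⟩)

/-- the set of the sites joined to `u` in `A` is connected -/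
theorem con_cluster (A : Set Pt) (u : Pt) : L.Con {v | L.Cn A u v} := by
  have key : ∀ v, L.Cn A u v → L.Cn {v | L.Cn A u v} u v := by
    intro v h
    refine h.rec_tail (fun v => L.Cn {v | L.Cn A u v} u v) (fun hu => Cn.refl (Cn.refl hu)) ?_
    intro v w hv hP ha hw
    exact hP.step ha (hv.step ha hw)
  intro v hv w hw
  exact (key v hv).symm.trans (key w hw)

theorem Con.union {A B : Set Pt} (hA : L.Con A) (hB : L.Con B) (h : (A ∩ B).Nonempty) :
    L.Con (A ∪ B) := by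
  obtain ⟨z, hzA, hzB⟩ := h
  have key : ∀ v ∈ A ∪ B, L.Cn (A ∪ B) v z := by
    rintro v (hv | hv)
    · exact (hA v hv z hzA).mono Set.subset_union_left
    · exact (hB v hv z hzB).mono Set.subset_union_right
  intro v hv w hw
  exact (key v hv).trans (key w hw).symm

/-- union of two connected sets with an edge between them -/
theorem Con.union_adj {A B : Set Pt} (hA : L.Con A) (hB : L.Con B) {u v : Pt} (hu : u ∈ A)
    (hv : v ∈ B) (h : L.Adj u v) : L.Con (A ∪ B) := by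
  have key : ∀ w ∈ A ∪ B, L.Cn (A ∪ B) w u := by
    rintro w (hw | hw)
    · exact (hA w hw u hu).mono Set.subset_union_left
    · exact ((hB w hw v hv).mono Set.subset_union_right).step h.symm (Or.inl hu)
  intro v hv w hw
  exact (key v hv).trans (key w hw).symm

/-- a connected set together with connected sets attached to it -/
theorem Con.union_many {A B : Set Pt} (hA : L.Con A)
    (hB : ∀ v ∈ B, ∃ u ∈ A, ∃ w, L.Adj u w ∧ L.Cn B w v) : L.Con (A ∪ B) := by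
  have key : ∀ v ∈ A ∪ B, ∃ u ∈ A, L.Cn (A ∪ B) v u := by
    rintro v (hv | hv)
    · exact ⟨v, hv, Cn.refl (Or.inl hv)⟩
    · obtain ⟨u, hu, w, ha, hc⟩ := hB v hv
      exact ⟨u, hu, ((hc.symm).mono Set.subset_union_right).step ha.symm (Or.inl hu)⟩
  intro v hv w hw
  obtain ⟨a, ha, hva⟩ := key v hv
  obtain ⟨b, hb, hwb⟩ := key w hw
  exact (hva.trans ((hA a ha b hb).mono Set.subset_union_left)).trans hwb.symm

theorem con_empty : L.Con ∅ := fun _ hu => absurd hu (Set.notMem_empty _)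

theorem con_singleton (u : Pt) : L.Con {u} := by
  intro v hv w hw
  rw [Set.mem_singleton_iff] at hv hw
  subst hv
  subst hw
  exact Cn.refl rfl

/-- horizontal path in a rectangle -/
private theorem cn_hor (a b c d : ℤ) (y x : ℤ) (hy : c ≤ y ∧ y ≤ d) (hx : a ≤ x) (n : ℕ)
    (hn : x + n ≤ b) : L.Cn (rect a b c d) (x, y) (x + n, y) := by
  induction n with
  | zero =>
    have : (x + ((0 : ℕ) : ℤ), y) = (x, y) := by simp
    rw [this]
    exact Cn.refl ⟨⟨hx, by push_cast at hn; simpa using hn⟩, hy⟩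
  | succ n ih =>
    have h1 := ih (by push_cast at hn; omega)
    have h2 : L.Adj (x + (n : ℤ), y) (x + ((n + 1 : ℕ) : ℤ), y) := by
      refine Or.inl (Or.inl ⟨?_, rfl⟩)
      push_cast
      ring
    exact h1.step h2 ⟨⟨by push_cast; omega, hn⟩, hy⟩

/-- vertical path in a rectangle -/
private theorem cn_ver (a b c d : ℤ) (x y : ℤ) (hx : a ≤ x ∧ x ≤ b) (hy : c ≤ y) (n : ℕ)
    (hn : y + n ≤ d) : L.Cn (rect a b c d) (x, y) (x, y + n) := by
  induction n with
  | zero =>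
    have : (x, y + ((0 : ℕ) : ℤ)) = (x, y) := by simp
    rw [this]
    exact Cn.refl ⟨hx, ⟨hy, by push_cast at hn; simpa using hn⟩⟩
  | succ n ih =>
    have h1 := ih (by push_cast at hn; omega)
    have h2 : L.Adj (x, y + (n : ℤ)) (x, y + ((n + 1 : ℕ) : ℤ)) := by
      refine Or.inl (Or.inr (Or.inl ⟨rfl, ?_⟩))
      push_cast
      ring
    exact h1.step h2 ⟨hx, ⟨by push_cast; omega, hn⟩⟩

theorem con_rect (a b c d : ℤ) : L.Con (rect a b c d) := by
  intro u hu v hv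
  have hor : ∀ x y z : ℤ, (x, y) ∈ rect a b c d → (z, y) ∈ rect a b c d →
      L.Cn (rect a b c d) (x, y) (z, y) := by
    intro x y z hx hz
    obtain ⟨⟨hx1, hx2⟩, hy⟩ := hx
    obtain ⟨⟨hz1, hz2⟩, -⟩ := hz
    simp only at hx1 hx2 hz1 hz2 hy
    rcases le_total x z with hxz | hxz
    · obtain ⟨n, hn⟩ := Int.eq_ofNat_of_zero_le (sub_nonneg.2 hxz)
      have e : z = x + n := by omega
      rw [e]
      exact cn_hor a b c d y x hy hx1 n (by omega)
    · obtain ⟨n, hn⟩ := Int.eq_ofNat_of_zero_le (sub_nonneg.2 hxz)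
      have e : x = z + n := by omega
      rw [e]
      exact (cn_hor a b c d y z hy hz1 n (by omega)).symm
  have ver : ∀ x y z : ℤ, (x, y) ∈ rect a b c d → (x, z) ∈ rect a b c d →
      L.Cn (rect a b c d) (x, y) (x, z) := by
    intro x y z hx hz
    obtain ⟨hx0, hy1, hy2⟩ := hx
    obtain ⟨-, hz1, hz2⟩ := hz
    simp only at hy1 hy2 hz1 hz2 hx0
    rcases le_total y z with hyz | hyz
    · obtain ⟨n, hn⟩ := Int.eq_ofNat_of_zero_le (sub_nonneg.2 hyz)
      have e : z = y + n := by omega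
      rw [e]
      exact cn_ver a b c d x y hx0 hy1 n (by omega)
    · obtain ⟨n, hn⟩ := Int.eq_ofNat_of_zero_le (sub_nonneg.2 hyz)
      have e : y = z + n := by omega
      rw [e]
      exact (cn_ver a b c d x z hx0 hz1 n (by omega)).symm
  obtain ⟨u1, u2⟩ := u
  obtain ⟨v1, v2⟩ := v
  have hm : (v1, u2) ∈ rect a b c d := ⟨hv.1, hu.2⟩
  exact (hor u1 u2 v1 hu hm).trans (ver v1 u2 v2 hm hv)

theorem con_bx (r : ℤ) : L.Con (bx r) := by
  have e : bx r = rect (-r) r (-r) r := by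
    ext v
    simp only [bx, rect, nrm, Set.mem_ofPred_eq, max_le_iff, abs_le]
  rw [e]
  exact con_rect _ _ _ _

end Lat

end SC
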