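import Pool.Agent.Lib_MP_e0a489.TA1

/-!
# MP_e0a489, topology 1c: symmetries of the lattice
-/

set_option autoImplicit false

namespace SC

open Classical

namespace Lat

variable {L : Lat}

private theorem cn_equiv {L L' : Lat} (e : Pt ≃ Pt)
    (h : ∀ u v, L'.Adj u v ↔ L.Adj (e u) (e v)) (A : Set Pt) (u v : Pt) :
    L'.Cn A u v ↔ L.Cn {w | e.symm w ∈ A} (e u) (e v) := by
  constructor
  · rintro ⟨hu, hp⟩
    refine ⟨by simpa using hu, ?_⟩
    refine Relation.ReflTransGen.lift e ?_ _ _ hp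
    rintro a b ⟨h1, h2⟩
    exact ⟨(h a b).1 h1, by simpa using h2⟩
  · rintro ⟨hu, hp⟩
    refine ⟨by simpa using hu, ?_⟩
    have h1 : Relation.ReflTransGen (fun a b => L'.Adj a b ∧ b ∈ A) (e.symm (e u))
        (e.symm (e v)) := by
      refine Relation.ReflTransGen.lift e.symm ?_ _ _ hp
      rintro a b ⟨h1, h2⟩
      refine ⟨(h _ _).2 (by simpa using h1), h2⟩
    simpa using h1

theorem shift_adj (x u v : Pt) : (L.shift x).Adj u v ↔ L.Adj (u + x) (v + x) := by
  have key : ∀ u v : Pt, (L.shift x).Adj1 u v ↔ L.Adj1 (u + x) (v + x) := by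
    intro u v
    unfold Adj1 shift
    simp only [Prod.fst_add, Prod.snd_add]
    refine or_congr ⟨fun h => ⟨by omega, by omega⟩, fun h => ⟨by omega, by omega⟩⟩
      (or_congr ⟨fun h => ⟨by omega, by omega⟩, fun h => ⟨by omega, by omega⟩⟩
      (or_congr ⟨fun h => ⟨by omega, by omega, h.2.2⟩, fun h => ⟨by omega, by omega, h.2.2⟩⟩
        ⟨fun h => ⟨by omega, by omega, h.2.2⟩, fun h => ⟨by omega, by omega, h.2.2⟩⟩))
  exact or_congr (key u v) (key v u)

theorem shift_cn (x : Pt) (A : Set Pt) (u v : Pt) :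
    (L.shift x).Cn A u v ↔ L.Cn {w | w - x ∈ A} (u + x) (v + x) := by
  have h := cn_equiv (L := L) (L' := L.shift x) (Equiv.addRight x) (fun u v => shift_adj x u v) A u v
  simpa [sub_eq_add_neg] using h

/-- transposition as an equivalence -/
private def eT : Pt ≃ Pt := ⟨fun v => (v.2, v.1), fun v => (v.2, v.1), fun _ => rfl, fun _ => rfl⟩

private def eX : Pt ≃ Pt := ⟨fun v => (-v.1, v.2), fun v => (-v.1, v.2), fun v => by simp, fun v => by simp⟩

private def eY : Pt ≃ Pt := ⟨fun v => (v.1, -v.2), fun v => (v.1, -v.2), fun v => by simp, fun v => by simp⟩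

theorem tr_adj (u v : Pt) : L.tr.Adj u v ↔ L.Adj (u.2, u.1) (v.2, v.1) := by
  unfold Adj Adj1 tr
  simp only
  constructor
  · rintro ((h | h | h | h) | (h | h | h | h))
    · exact Or.inl (Or.inr (Or.inl ⟨h.2, h.1⟩))
    · exact Or.inl (Or.inl ⟨h.2, h.1⟩)
    · exact Or.inl (Or.inr (Or.inr (Or.inl ⟨h.2.1, h.1, h.2.2⟩)))
    · refine Or.inr (Or.inr (Or.inr (Or.inr ⟨by omega, by omega, ?_⟩)))
      exact h.2.2
    · exact Or.inr (Or.inr (Or.inl ⟨h.2, h.1⟩))
    · exact Or.inr (Or.inl ⟨h.2, h.1⟩)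
    · exact Or.inr (Or.inr (Or.inr (Or.inl ⟨h.2.1, h.1, h.2.2⟩)))
    · refine Or.inl (Or.inr (Or.inr (Or.inr ⟨by omega, by omega, ?_⟩)))
      exact h.2.2
  · rintro ((h | h | h | h) | (h | h | h | h))
    · exact Or.inl (Or.inr (Or.inl ⟨h.2, h.1⟩))
    · exact Or.inl (Or.inl ⟨h.2, h.1⟩)
    · exact Or.inl (Or.inr (Or.inr (Or.inl ⟨h.2.1, h.1, h.2.2⟩)))
    · refine Or.inr (Or.inr (Or.inr (Or.inr ⟨by omega, by omega, ?_⟩)))
      exact h.2.2
    · exact Or.inr (Or.inr (Or.inl ⟨h.2, h.1⟩))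
    · exact Or.inr (Or.inl ⟨h.2, h.1⟩)
    · exact Or.inr (Or.inr (Or.inr (Or.inl ⟨h.2.1, h.1, h.2.2⟩)))
    · refine Or.inl (Or.inr (Or.inr (Or.inr ⟨by omega, by omega, ?_⟩)))
      exact h.2.2

theorem tr_cn (A : Set Pt) (u v : Pt) :
    L.tr.Cn A u v ↔ L.Cn {w | (w.2, w.1) ∈ A} (u.2, u.1) (v.2, v.1) :=
  cn_equiv (L := L) (L' := L.tr) eT (fun u v => tr_adj u v) A u v

theorem rx_adj (u v : Pt) : L.rx.Adj u v ↔ L.Adj (-u.1, u.2) (-v.1, v.2) := by
  unfold Adj Adj1 rx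
  simp only [Bool.not_eq_eq_eq_not, Bool.not_true, Bool.not_false]
  constructor
  · rintro ((h | h | h | h) | (h | h | h | h))
    · exact Or.inr (Or.inl ⟨by omega, by omega⟩)
    · exact Or.inl (Or.inr (Or.inl ⟨by omega, by omega⟩))
    · refine Or.inl (Or.inr (Or.inr (Or.inr ⟨by omega, by omega, ?_⟩)))
      have h1 : -v.1 = -u.1 - 1 := by omega
      rw [h1]
      exact h.2.2
    · refine Or.inl (Or.inr (Or.inr (Or.inl ⟨by omega, by omega, ?_⟩)))
      have h1 : -u.1 = -v.1 - 1 := by omega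
      rw [h1]
      exact h.2.2
    · exact Or.inl (Or.inl ⟨by omega, by omega⟩)
    · exact Or.inr (Or.inr (Or.inl ⟨by omega, by omega⟩))
    · refine Or.inr (Or.inr (Or.inr (Or.inr ⟨by omega, by omega, ?_⟩)))
      have h1 : -u.1 = -v.1 - 1 := by omega
      rw [h1]
      exact h.2.2
    · refine Or.inr (Or.inr (Or.inr (Or.inl ⟨by omega, by omega, ?_⟩)))
      have h1 : -v.1 = -u.1 - 1 := by omega
      rw [h1]
      exact h.2.2
  · rintro ((h | h | h | h) | (h | h | h | h))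
    · exact Or.inr (Or.inl ⟨by omega, by omega⟩)
    · exact Or.inl (Or.inr (Or.inl ⟨by omega, by omega⟩))
    · refine Or.inl (Or.inr (Or.inr (Or.inr ⟨by omega, by omega, ?_⟩)))
      have h1 : -v.1 - 1 = -u.1 := by omega
      rw [h1]
      exact h.2.2
    · refine Or.inl (Or.inr (Or.inr (Or.inl ⟨by omega, by omega, ?_⟩)))
      have h1 : -u.1 - 1 = -v.1 := by omega
      rw [h1]
      exact h.2.2
    · exact Or.inl (Or.inl ⟨by omega, by omega⟩)
    · exact Or.inr (Or.inr (Or.inl ⟨by omega, by omega⟩))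
    · refine Or.inr (Or.inr (Or.inr (Or.inr ⟨by omega, by omega, ?_⟩)))
      have h1 : -u.1 - 1 = -v.1 := by omega
      rw [h1]
      exact h.2.2
    · refine Or.inr (Or.inr (Or.inr (Or.inl ⟨by omega, by omega, ?_⟩)))
      have h1 : -v.1 - 1 = -u.1 := by omega
      rw [h1]
      exact h.2.2

theorem rx_cn (A : Set Pt) (u v : Pt) :
    L.rx.Cn A u v ↔ L.Cn {w | (-w.1, w.2) ∈ A} (-u.1, u.2) (-v.1, v.2) :=
  cn_equiv (L := L) (L' := L.rx) eX (fun u v => rx_adj u v) A u v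

theorem ry_adj (u v : Pt) : L.ry.Adj u v ↔ L.Adj (u.1, -u.2) (v.1, -v.2) := by
  unfold Adj Adj1 ry
  simp only [Bool.not_eq_eq_eq_not, Bool.not_true, Bool.not_false]
  constructor
  · rintro ((h | h | h | h) | (h | h | h | h))
    · exact Or.inl (Or.inl ⟨by omega, by omega⟩)
    · exact Or.inr (Or.inr (Or.inl ⟨by omega, by omega⟩))
    · refine Or.inr (Or.inr (Or.inr (Or.inr ⟨by omega, by omega, ?_⟩)))
      have h1 : -v.2 = -u.2 - 1 := by omega
      rw [h1]
      exact h.2.2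
    · refine Or.inr (Or.inr (Or.inr (Or.inl ⟨by omega, by omega, ?_⟩)))
      have h1 : -v.2 = -u.2 - 1 := by omega
      rw [h1]
      exact h.2.2
    · exact Or.inr (Or.inl ⟨by omega, by omega⟩)
    · exact Or.inl (Or.inr (Or.inl ⟨by omega, by omega⟩))
    · refine Or.inl (Or.inr (Or.inr (Or.inr ⟨by omega, by omega, ?_⟩)))
      have h1 : -u.2 = -v.2 - 1 := by omega
      rw [h1]
      exact h.2.2
    · refine Or.inl (Or.inr (Or.inr (Or.inl ⟨by omega, by omega, ?_⟩)))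
      have h1 : -u.2 = -v.2 - 1 := by omega
      rw [h1]
      exact h.2.2
  · rintro ((h | h | h | h) | (h | h | h | h))
    · exact Or.inl (Or.inl ⟨by omega, by omega⟩)
    · exact Or.inr (Or.inr (Or.inl ⟨by omega, by omega⟩))
    · refine Or.inr (Or.inr (Or.inr (Or.inr ⟨by omega, by omega, ?_⟩)))
      have h1 : -v.2 - 1 = -u.2 := by omega
      rw [h1]
      exact h.2.2
    · refine Or.inr (Or.inr (Or.inr (Or.inl ⟨by omega, by omega, ?_⟩)))
      have h1 : -v.2 - 1 = -u.2 := by omega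
      rw [h1]
      exact h.2.2
    · exact Or.inr (Or.inl ⟨by omega, by omega⟩)
    · exact Or.inl (Or.inr (Or.inl ⟨by omega, by omega⟩))
    · refine Or.inl (Or.inr (Or.inr (Or.inr ⟨by omega, by omega, ?_⟩)))
      have h1 : -u.2 - 1 = -v.2 := by omega
      rw [h1]
      exact h.2.2
    · refine Or.inl (Or.inr (Or.inr (Or.inl ⟨by omega, by omega, ?_⟩)))
      have h1 : -u.2 - 1 = -v.2 := by omega
      rw [h1]
      exact h.2.2

theorem ry_cn (A : Set Pt) (u v : Pt) :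
    L.ry.Cn A u v ↔ L.Cn {w | (w.1, -w.2) ∈ A} (u.1, -u.2) (v.1, -v.2) :=
  cn_equiv (L := L) (L' := L.ry) eY (fun u v => ry_adj u v) A u v

theorem sw_adj (u v : Pt) : L.sw.Adj u v ↔ L.Adj u v := Iff.rfl

theorem sw_col (c : Bool) (ω : Cfg) : L.sw.col c ω = L.col (!c) fun v => ! ω v := by
  ext v
  simp only [col, st, sw, Set.mem_ofPred_eq]
  cases h : L.typ v with
  | none => simp
  | some b => cases b <;> cases c <;> simp

end Lat

end SC
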