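import Pool.Agent.Lib_MP_e0a489.TA1

/-!
# MP_e0a489, topology 2a: parity of closed walks
-/

set_option autoImplicit false

namespace SC

open Classical

namespace Lat

variable {L : Lat}

/-- the step `p → q` runs between the columns `v.1` and `v.1 + 1`, its left end is above `v` -/
def crs (v p q : Pt) : Prop :=
  (p.1 = v.1 ∧ q.1 = v.1 + 1 ∧ v.2 < p.2) ∨ (q.1 = v.1 ∧ p.1 = v.1 + 1 ∧ v.2 < q.2)

/-- parity of the number of such steps of a walk -/
noncomputable def par (v : Pt) : List Pt → ZMod 2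
  | [] => 0
  | [_] => 0
  | p :: q :: t => (if crs v p q then 1 else 0) + par v (q :: t)

theorem par_append {v p : Pt} {l l' : List Pt} :
    par v (l ++ p :: l') = par v (l ++ [p]) + par v (p :: l') := by
  induction l with
  | nil => simp [par]
  | cons a l ih =>
    cases l with
    | nil => simp [par]
    | cons b t =>
      simp only [List.cons_append, par] at ih ⊢
      rw [ih, add_assoc]

private theorem tb1_tele (f : Pt → ZMod 2) (a : Pt) (l : List Pt) :
    (((a :: l).zip l).map fun e => f e.1 + f e.2).sum =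
      f a + f ((a :: l).getLast (List.cons_ne_nil a l)) := by
  induction l generalizing a with
  | nil =>
    simp only [List.zip_nil_right, List.map_nil, List.sum_nil, List.getLast_singleton]
    generalize f a = x
    revert x; decide
  | cons b t ih =>
    rw [List.zip_cons_cons, List.map_cons, List.sum_cons, ih b, List.getLast_cons_cons]
    generalize f ((b :: t).getLast _) = z
    generalize f a = x
    generalize f b = y
    revert x y z; decide

/-- For a closed walk the number of steps which leave or enter a set is even. -/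
theorem even_boundary (U : Set Pt) {l : List Pt} (h : l.head? = l.getLast?) :
    ((l.zip l.tail).map fun e => if (e.1 ∈ U ↔ e.2 ∈ U) then (0 : ZMod 2) else 1).sum = 0 := by
  cases l with
  | nil => simp
  | cons a l =>
    have h1 := tb1_tele (fun p => if p ∈ U then 1 else 0) a l
    rw [List.tail_cons]
    rw [List.head?_cons, List.getLast?_eq_getLast_of_ne_nil (List.cons_ne_nil a l)] at h
    rw [← Option.some.inj h] at h1
    have h2 : ∀ x : ZMod 2, x + x = 0 := by decide
    rw [h2] at h1
    refine Eq.trans ?_ h1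
    congr 1
    apply List.map_congr_left
    intro e _
    by_cases ha : e.1 ∈ U <;> by_cases hb : e.2 ∈ U <;> simp [ha, hb]
    decide

private theorem tb1_par_sum (v : Pt) (l : List Pt) :
    par v l = ((l.zip l.tail).map fun e => if crs v e.1 e.2 then (1 : ZMod 2) else 0).sum := by
  induction l with
  | nil => simp [par]
  | cons a l ih =>
    cases l with
    | nil => simp [par]
    | cons b t =>
      rw [List.tail_cons] at ih ⊢
      simp only [par, List.zip_cons_cons, List.map_cons, List.sum_cons]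
      rw [ih]

private theorem tb1_mem_zip {l : List Pt} (hl : l.IsChain L.Adj) :
    ∀ e ∈ l.zip l.tail, L.Adj e.1 e.2 ∧ e.1 ∈ l ∧ e.2 ∈ l := by
  induction l with
  | nil => simp
  | cons a l ih =>
    cases l with
    | nil => simp
    | cons b t =>
      intro e he
      rw [List.tail_cons, List.zip_cons_cons, List.mem_cons] at he
      rw [List.isChain_cons_cons] at hl
      rcases he with rfl | he
      · exact ⟨hl.1, by simp, by simp⟩
      · obtain ⟨h1, h2, h3⟩ := ih hl.2 e he
        exact ⟨h1, List.mem_cons_of_mem _ h2, List.mem_cons_of_mem _ h3⟩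

private theorem tb1_two {a b : ZMod 2} (h : a + b = 0) : a = b := by
  revert a b; decide

/-- equality of parities from a stepwise identity -/
private theorem tb1_key {l : List Pt} (hl : l.IsChain L.Adj) (h : l.head? = l.getLast?)
    (U : Set Pt) (v v' : Pt)
    (hk : ∀ p q, L.Adj p q → p ∈ l → q ∈ l →
      (if (p ∈ U ↔ q ∈ U) then (0 : ZMod 2) else 1) =
        (if crs v p q then (1 : ZMod 2) else 0) + (if crs v' p q then (1 : ZMod 2) else 0)) :
    par v l = par v' l := by
  apply tb1_two
  rw [tb1_par_sum, tb1_par_sum, ← List.sum_map_add]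
  refine Eq.trans ?_ (even_boundary U h)
  congr 1
  apply List.map_congr_left
  intro e he
  obtain ⟨h1, h2, h3⟩ := tb1_mem_zip hl e he
  exact (hk e.1 e.2 h1 h2 h3).symm

private theorem tb1_crs_comm {v p q : Pt} : crs v p q ↔ crs v q p := by
  unfold crs; tauto

/-- the geometric fact: steps between two adjacent columns -/
private theorem tb1_geo {v v' p q : Pt} (hvv : L.Adj v v') (hx : v'.1 = v.1 + 1)
    (hpq : L.Adj p q) (hp : p.1 = v.1) (hq : q.1 = v.1 + 1) (hpv : p ≠ v) (hqv : q ≠ v') :
    v.2 < p.2 ↔ v'.2 < q.2 := by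
  obtain ⟨x, y⟩ := v
  obtain ⟨x', y'⟩ := v'
  obtain ⟨p1, p2⟩ := p
  obtain ⟨q1, q2⟩ := q
  simp only at hx hp hq
  subst hp
  subst hx
  subst hq
  have hpy : p2 ≠ y := fun hh => hpv (by rw [hh])
  have hqy : q2 ≠ y' := fun hh => hqv (by rw [hh])
  unfold Adj Adj1 at hvv hpq
  simp only at hvv hpq ⊢
  rcases hvv with (⟨_, h1⟩ | ⟨h1, _⟩ | ⟨_, h1, h2⟩ | ⟨h1, _, _⟩) |
      (⟨h1, _⟩ | ⟨h1, _⟩ | ⟨h1, _, _⟩ | ⟨_, h1, h2⟩) <;>
    rcases hpq with (⟨_, g1⟩ | ⟨g1, _⟩ | ⟨_, g1, g2⟩ | ⟨g1, _, _⟩) |
      (⟨g1, _⟩ | ⟨g1, _⟩ | ⟨g1, _, _⟩ | ⟨_, g1, g2⟩) <;>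
    first
      | omega
      | (constructor <;> intro h3 <;> by_contra h4 <;>
          first
            | omega
            | (have h5 : q2 = y := by omega
               rw [h5, h2] at g2
               exact absurd g2 (by decide))
            | (have h5 : p2 = y' := by omega
               rw [h5, h2] at g2
               exact absurd g2 (by decide)))

private theorem tb1_horiz {l : List Pt} (hl : l.IsChain L.Adj) (h : l.head? = l.getLast?)
    {v v' : Pt} (hv : v ∉ l) (hv' : v' ∉ l) (hvv : L.Adj v v') (hx : v'.1 = v.1 + 1) :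
    par v l = par v' l := by
  apply tb1_key hl h {w | w.1 = v.1 + 1 ∧ v'.2 < w.2} v v'
  intro p q hpq hp hq
  have hpv : p ≠ v := fun hh => hv (hh ▸ hp)
  have hqv : q ≠ v := fun hh => hv (hh ▸ hq)
  have hpv' : p ≠ v' := fun hh => hv' (hh ▸ hp)
  have hqv' : q ≠ v' := fun hh => hv' (hh ▸ hq)
  have hnear := Adj.near hpq
  rw [abs_le, abs_le] at hnear
  simp only [Set.mem_ofPred_eq]
  have key1 : p.1 = v.1 → q.1 = v.1 + 1 → (v.2 < p.2 ↔ v'.2 < q.2) := fun h1 h2 =>
    tb1_geo hvv hx hpq h1 h2 hpv hqv'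
  have key2 : q.1 = v.1 → p.1 = v.1 + 1 → (v.2 < q.2 ↔ v'.2 < p.2) := fun h1 h2 =>
    tb1_geo hvv hx hpq.symm h1 h2 hqv hpv'
  have e1 : ¬ (p.1 = v'.1 ∧ p.2 = v'.2) := fun hh => hpv' (Prod.ext hh.1 hh.2)
  have e2 : ¬ (q.1 = v'.1 ∧ q.2 = v'.2) := fun hh => hqv' (Prod.ext hh.1 hh.2)
  unfold crs
  have h0 : (0 : ZMod 2) = 1 + 1 := by decide
  split_ifs with c1 c2 c3 c3 c2 c3 c3
  · exact h0
  · omega
  · omega
  · simp
  · omega
  · simp
  · simp
  · omega

/-- CLOSED WALK LEMMA: the parity is the same for two adjacent sites off the closed walk.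
Vertical neighbours `(x,y)`, `(x,y+1)`: a step counted for only one of them has its left end at
`(x,y+1)`.  Neighbours `v = (x,y)`, `v' = (x+1,y')`: let `U = {(x+1,z) : z > y'}`.  By
`even_boundary` the number of steps between the columns `x`, `x+1` with right end in `U` plus the
number of steps between the columns `x+1`, `x+2` with left end in `U` is even (a vertical step
leaving `U` would visit `v'`).  The second number is the one of `v'`.  A step between `(x,p)` and
`(x+1,q)`, `(x,p) ≠ v`, `(x+1,q) ≠ v'`, has `p > y` iff `q > y'`, because `|p - q| ≤ 1` and the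
two diagonals of a cell are not both edges. -/
theorem par_adj {l : List Pt} (hl : l.IsChain L.Adj) (h : l.head? = l.getLast?) {v v' : Pt}
    (hv : v ∉ l) (hv' : v' ∉ l) (hvv : L.Adj v v') : par v l = par v' l := by
  have vert : ∀ w w' : Pt, w ∉ l → w' ∉ l → w'.1 = w.1 → w'.2 = w.2 + 1 →
      par w l = par w' l := by
    intro w w' hw hw' h1 h2
    rw [tb1_par_sum, tb1_par_sum]
    congr 1
    apply List.map_congr_left
    intro e he
    obtain ⟨g1, g2, g3⟩ := tb1_mem_zip hl e he
    have e1 : ¬ (e.1.1 = w'.1 ∧ e.1.2 = w'.2) := fun hh => hw' (Prod.ext hh.1 hh.2 ▸ g2)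
    have e2 : ¬ (e.2.1 = w'.1 ∧ e.2.2 = w'.2) := fun hh => hw' (Prod.ext hh.1 hh.2 ▸ g3)
    have : crs w e.1 e.2 ↔ crs w' e.1 e.2 := by
      unfold crs
      omega
    simp only [this]
  have main : ∀ w w' : Pt, w ∉ l → w' ∉ l → L.Adj1 w w' → par w l = par w' l := by
    intro w w' hw hw' h1
    have hadj : L.Adj w w' := Or.inl h1
    rcases h1 with ⟨h2, h3⟩ | ⟨h2, h3⟩ | ⟨h2, h3, h4⟩ | ⟨h2, h3, h4⟩
    · exact tb1_horiz hl h hw hw' hadj h2
    · exact vert w w' hw hw' h2 h3
    · exact tb1_horiz hl h hw hw' hadj h2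
    · exact (tb1_horiz hl h hw' hw hadj.symm (by omega)).symm
  rcases hvv with h1 | h1
  · exact main v v' hv hv' h1
  · exact (main v' v hv' hv h1).symm

/-- the parity is constant on connected sets off the closed walk -/
theorem par_cn {l : List Pt} (hl : l.IsChain L.Adj) (h : l.head? = l.getLast?) {A : Set Pt}
    (hA : ∀ v ∈ A, v ∉ l) {v v' : Pt} (hvv : L.Cn A v v') : par v l = par v' l := by
  obtain ⟨h0, h1⟩ := hvv
  have : par v l = par v' l ∧ v' ∈ A := by
    induction h1 with
    | refl => exact ⟨rfl, h0⟩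
    | tail _ hbc ih =>
      exact ⟨ih.1.trans (par_adj hl h (hA _ ih.2) (hA _ hbc.2) hbc.1), hbc.2⟩
  exact this.1

/-- sites above the walk -/
theorem par_above {l : List Pt} {v : Pt} (h : ∀ w ∈ l, w.2 ≤ v.2) : par v l = 0 := by
  rw [tb1_par_sum]
  apply List.sum_eq_zero
  intro x hx
  rw [List.mem_map] at hx
  obtain ⟨e, he, rfl⟩ := hx
  have h1 : e.1 ∈ l := (List.of_mem_zip (a := e.1) (b := e.2) he).1
  have h2 : e.2 ∈ l := List.mem_of_mem_tail (List.of_mem_zip (a := e.1) (b := e.2) he).2
  have h3 := h _ h1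
  have h4 := h _ h2
  have : ¬ crs v e.1 e.2 := by
    unfold crs
    omega
  simp [this]

/-- sites below a closed walk: all steps between the two columns are counted -/
theorem par_below {l : List Pt} (hl : l.IsChain L.Adj) (hc : l.head? = l.getLast?) {v : Pt}
    (h : ∀ w ∈ l, v.2 < w.2) : par v l = 0 := by
  rw [tb1_par_sum]
  refine Eq.trans ?_ (even_boundary {w | w.1 ≤ v.1} hc)
  congr 1
  apply List.map_congr_left
  intro e he
  obtain ⟨g1, g2, g3⟩ := tb1_mem_zip hl e he
  have h3 := h _ g2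
  have h4 := h _ g3
  have hnear := Adj.near g1
  rw [abs_le, abs_le] at hnear
  simp only [Set.mem_ofPred_eq]
  have : crs v e.1 e.2 ↔ ¬ (e.1.1 ≤ v.1 ↔ e.2.1 ≤ v.1) := by
    unfold crs
    omega
  by_cases h5 : (e.1.1 ≤ v.1 ↔ e.2.1 ≤ v.1)
  · rw [if_pos h5, if_neg (by rw [this]; exact not_not.mpr h5)]
  · rw [if_neg h5, if_pos (this.mpr h5)]

end Lat

end SC
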