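import Pool.Agent.Lib_MP_e0a489.TA2
import Pool.Agent.Lib_MP_e0a489.TB1

/-!
# MP_e0a489, topology 2b: crossing paths
-/

set_option autoImplicit false

namespace SC

open Classical

namespace Lat

variable {L : Lat}

/-- a walk from `u` to `v` -/
private structure TB2_Wk (L : Lat) (u v : Pt) (l : List Pt) : Prop where
  hd : l.head? = some u
  la : l.getLast? = some v
  ch : l.IsChain L.Adj

private theorem TB2_single (u : Pt) : TB2_Wk L u u [u] :=
  ⟨rfl, rfl, List.isChain_singleton u⟩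

private theorem TB2_step {u v : Pt} (h : L.Adj u v) : TB2_Wk L u v [u, v] :=
  ⟨rfl, rfl, List.isChain_pair.2 h⟩

private theorem TB2_glue {u v w : Pt} {l l' : List Pt} (h : TB2_Wk L u v l)
    (h' : TB2_Wk L v w l') : ∃ l'' : List Pt, TB2_Wk L u w l'' ∧
      (∀ x, x ∈ l'' → x ∈ l ∨ x ∈ l') ∧ ∀ z, par z l'' = par z l + par z l' := by
  obtain ⟨m, hm⟩ : ∃ m, l = m ++ [v] := by
    have hne : l ≠ [] := by
      rintro rfl
      exact absurd h.la (by simp)
    refine ⟨l.dropLast, ?_⟩
    have h1 := List.dropLast_append_getLast hne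
    have h2 : l.getLast hne = v := by
      have := h.la
      rw [List.getLast?_eq_some_getLast hne] at this
      exact Option.some.inj this
    rw [h2] at h1
    exact h1.symm
  obtain ⟨m', hm'⟩ : ∃ m', l' = v :: m' := by
    cases l' with
    | nil => exact absurd h'.hd (by simp)
    | cons a t =>
      have := h'.hd
      rw [List.head?_cons] at this
      exact ⟨t, by rw [Option.some.inj this]⟩
  subst hm
  subst hm'
  refine ⟨m ++ v :: m', ⟨?_, ?_, ?_⟩, ?_, fun z => par_append⟩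
  · have := h.hd
    cases m with
    | nil => exact this
    | cons a t => exact this
  · rw [List.getLast?_append_of_ne_nil _ (by simp)]
    exact h'.la
  · rw [List.isChain_split]
    exact ⟨h.ch, h'.ch⟩
  · intro x hx
    rw [List.mem_append] at hx
    rcases hx with hx | hx
    · exact Or.inl (List.mem_append.2 (Or.inl hx))
    · exact Or.inr hx

private theorem TB2_up (x y : ℤ) (n : ℕ) : ∃ l : List Pt, TB2_Wk L (x, y) (x, y + n) l ∧
    (∀ w ∈ l, w.1 = x ∧ y ≤ w.2 ∧ w.2 ≤ y + n) ∧ ∀ z, par z l = 0 := by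
  induction n with
  | zero =>
    refine ⟨[(x, y)], ?_, ?_, fun z => rfl⟩
    · have := TB2_single (L := L) (x, y)
      simpa using this
    · intro w hw
      rw [List.mem_singleton] at hw
      subst hw
      simp
  | succ n ih =>
    obtain ⟨l, h1, h2, h3⟩ := ih
    have h4 : L.Adj (x, y + n) (x, y + ((n + 1 : ℕ) : ℤ)) := by
      have := adj_up (L := L) (x, y + n)
      have e : y + ((n + 1 : ℕ) : ℤ) = y + n + 1 := by push_cast; ring
      rw [e]
      exact this
    obtain ⟨l', g1, g2, g3⟩ := TB2_glue h1 (TB2_step h4)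
    refine ⟨l', g1, ?_, ?_⟩
    · intro w hw
      rcases g2 w hw with h5 | h5
      · have := h2 w h5
        refine ⟨this.1, this.2.1, ?_⟩
        push_cast
        omega
      · rw [List.mem_cons, List.mem_singleton] at h5
        rcases h5 with rfl | rfl
        · refine ⟨rfl, ?_, ?_⟩ <;> push_cast <;> omega
        · refine ⟨rfl, ?_, ?_⟩ <;> push_cast <;> omega
    · intro z
      rw [g3, h3, zero_add]
      have h6 : ¬ crs z (x, y + (n : ℤ)) (x, y + ((n + 1 : ℕ) : ℤ)) := by
        rintro (⟨e1, e2, -⟩ | ⟨e1, e2, -⟩)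
        · simp only at e1 e2
          omega
        · simp only at e1 e2
          omega
      simp only [par, if_neg h6, add_zero]

private theorem TB2_down (x y : ℤ) (n : ℕ) : ∃ l : List Pt, TB2_Wk L (x, y) (x, y - n) l ∧
    (∀ w ∈ l, w.1 = x ∧ y - n ≤ w.2 ∧ w.2 ≤ y) ∧ ∀ z, par z l = 0 := by
  induction n with
  | zero =>
    refine ⟨[(x, y)], ?_, ?_, fun z => rfl⟩
    · have := TB2_single (L := L) (x, y)
      simpa using this
    · intro w hw
      rw [List.mem_singleton] at hw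
      subst hw
      simp
  | succ n ih =>
    obtain ⟨l, h1, h2, h3⟩ := ih
    have h4 : L.Adj (x, y - n) (x, y - ((n + 1 : ℕ) : ℤ)) := by
      have h5 := adj_up (L := L) (x, y - ((n + 1 : ℕ) : ℤ))
      have e : y - ((n + 1 : ℕ) : ℤ) + 1 = y - n := by push_cast; ring
      simp only [e] at h5
      exact h5.symm
    obtain ⟨l', g1, g2, g3⟩ := TB2_glue h1 (TB2_step h4)
    refine ⟨l', g1, ?_, ?_⟩
    · intro w hw
      rcases g2 w hw with h5 | h5
      · have := h2 w h5
        refine ⟨this.1, ?_, this.2.2⟩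
        push_cast
        omega
      · rw [List.mem_cons, List.mem_singleton] at h5
        rcases h5 with rfl | rfl
        · refine ⟨rfl, ?_, ?_⟩ <;> push_cast <;> omega
        · refine ⟨rfl, ?_, ?_⟩ <;> push_cast <;> omega
    · intro z
      rw [g3, h3, zero_add]
      have h6 : ¬ crs z (x, y - (n : ℤ)) (x, y - ((n + 1 : ℕ) : ℤ)) := by
        rintro (⟨e1, e2, -⟩ | ⟨e1, e2, -⟩)
        · simp only at e1 e2
          omega
        · simp only at e1 e2
          omega
      simp only [par, if_neg h6, add_zero]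

private theorem TB2_left (x y : ℤ) (n : ℕ) : ∃ l : List Pt, TB2_Wk L (x, y) (x - n, y) l ∧
    (∀ w ∈ l, x - n ≤ w.1 ∧ w.1 ≤ x ∧ w.2 = y) ∧
    ∀ z : Pt, par z l = if x - n ≤ z.1 ∧ z.1 < x ∧ z.2 < y then 1 else 0 := by
  induction n with
  | zero =>
    refine ⟨[(x, y)], ?_, ?_, fun z => ?_⟩
    · have := TB2_single (L := L) (x, y)
      simpa using this
    · intro w hw
      rw [List.mem_singleton] at hw
      subst hw
      simp
    · rw [if_neg]
      · rfl
      · rintro ⟨h1, h2, -⟩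
        simp only [Nat.cast_zero, sub_zero] at h1
        omega
  | succ n ih =>
    obtain ⟨l, h1, h2, h3⟩ := ih
    have h4 : L.Adj (x - n, y) (x - ((n + 1 : ℕ) : ℤ), y) := by
      have h5 := adj_right (L := L) (x - ((n + 1 : ℕ) : ℤ), y)
      have e : x - ((n + 1 : ℕ) : ℤ) + 1 = x - n := by push_cast; ring
      simp only [e] at h5
      exact h5.symm
    obtain ⟨l', g1, g2, g3⟩ := TB2_glue h1 (TB2_step h4)
    refine ⟨l', g1, ?_, ?_⟩
    · intro w hw
      rcases g2 w hw with h5 | h5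
      · have := h2 w h5
        refine ⟨?_, this.2.1, this.2.2⟩
        push_cast
        omega
      · rw [List.mem_cons, List.mem_singleton] at h5
        rcases h5 with rfl | rfl
        · refine ⟨?_, ?_, rfl⟩ <;> push_cast <;> omega
        · refine ⟨?_, ?_, rfl⟩ <;> push_cast <;> omega
    · intro z
      rw [g3, h3]
      simp only [par, add_zero]
      by_cases hz : z.1 = x - ((n + 1 : ℕ) : ℤ)
      · have hn : ¬ (x - (n : ℤ) ≤ z.1 ∧ z.1 < x ∧ z.2 < y) := by
          rintro ⟨h5, -, -⟩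
          push_cast at hz
          omega
        rw [if_neg hn, zero_add]
        by_cases hy : z.2 < y
        · have hc : crs z (x - (n : ℤ), y) (x - ((n + 1 : ℕ) : ℤ), y) := by
            refine Or.inr ⟨hz.symm, ?_, hy⟩
            simp only
            push_cast at hz
            omega
          rw [if_pos hc, if_pos]
          refine ⟨hz.ge, ?_, hy⟩
          push_cast at hz
          omega
        · have hc : ¬ crs z (x - (n : ℤ), y) (x - ((n + 1 : ℕ) : ℤ), y) := by
            rintro (⟨-, -, e3⟩ | ⟨-, -, e3⟩)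
            · exact hy e3
            · exact hy e3
          rw [if_neg hc, if_neg]
          rintro ⟨-, -, h6⟩
          exact hy h6
      · have hc : ¬ crs z (x - (n : ℤ), y) (x - ((n + 1 : ℕ) : ℤ), y) := by
          rintro (⟨e1, e2, -⟩ | ⟨e1, -, -⟩)
          · simp only at e1 e2
            push_cast at e2
            omega
          · exact hz e1.symm
        rw [if_neg hc, add_zero]
        have hiff : (x - (n : ℤ) ≤ z.1 ∧ z.1 < x ∧ z.2 < y) ↔
            (x - ((n + 1 : ℕ) : ℤ) ≤ z.1 ∧ z.1 < x ∧ z.2 < y) := by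
          push_cast at hz ⊢
          omega
        simp only [hiff]

/-- CROSSING PATHS (left-right against top-bottom).  If `P`, `P'` are disjoint take the closed walk
consisting of a path in `P` from `(a,y₁)` to `(b,y₃)`, then `(b+1,y₃)`, up to `(b+1,d+1)`, left to
`(a-1,d+1)`, down to `(a-1,y₁)`, `(a,y₁)`.  Its parity at the site `(x₂,d)` of `P'` is one (only the
step between `(x₂,d+1)` and `(x₂+1,d+1)` counts), at `(x₄,c)` zero (`par_adj` and `par_below` for
`(x₄,c-1)`), contradiction to `par_cn`. -/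
theorem cross {a b c d : ℤ} {P P' : Set Pt} (hP : L.Con P) (hP' : L.Con P')
    (hPr : P ⊆ rect a b c d) (hPr' : P' ⊆ rect a b c d)
    (h1 : ∃ v ∈ P, v.1 = a) (h2 : ∃ v ∈ P, v.1 = b)
    (h3 : ∃ v ∈ P', v.2 = c) (h4 : ∃ v ∈ P', v.2 = d) : (P ∩ P').Nonempty := by
  by_contra hne
  have hdis : ∀ v ∈ P', v ∉ P := fun v hv hv' => hne ⟨v, hv', hv⟩
  obtain ⟨⟨a', y1⟩, hp1, ha'⟩ := h1
  obtain ⟨⟨b', y3⟩, hp2, hb'⟩ := h2
  obtain ⟨⟨x4, c'⟩, hp3, hc'⟩ := h3
  obtain ⟨⟨x2, d'⟩, hp4, hd'⟩ := h4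
  simp only at ha' hb' hc' hd'
  subst ha'
  subst hb'
  subst hc'
  subst hd'
  -- bounds
  have r1 : (a' ≤ a' ∧ a' ≤ b') ∧ c' ≤ y1 ∧ y1 ≤ d' := hPr hp1
  have r2 : (a' ≤ b' ∧ b' ≤ b') ∧ c' ≤ y3 ∧ y3 ≤ d' := hPr hp2
  have r3 : (a' ≤ x4 ∧ x4 ≤ b') ∧ c' ≤ c' ∧ c' ≤ d' := hPr' hp3
  have r4 : (a' ≤ x2 ∧ x2 ≤ b') ∧ c' ≤ d' ∧ d' ≤ d' := hPr' hp4
  -- the closed walk
  obtain ⟨l0, -, k1, k2, k3, k4⟩ := (hP _ hp1 _ hp2).path
  have w0 : TB2_Wk L (a', y1) (b', y3) l0 := ⟨k1, k2, k4⟩
  have w1 : TB2_Wk L (b', y3) (b' + 1, y3) [(b', y3), (b' + 1, y3)] :=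
    TB2_step (adj_right (b', y3))
  obtain ⟨l2, w2, m2, q2⟩ := TB2_up (L := L) (b' + 1) y3 (d' + 1 - y3).toNat
  have e2 : y3 + ((d' + 1 - y3).toNat : ℤ) = d' + 1 := by omega
  rw [e2] at w2 m2
  obtain ⟨l3, w3, m3, q3⟩ := TB2_left (L := L) (b' + 1) (d' + 1) (b' + 1 - (a' - 1)).toNat
  have e3 : b' + 1 - ((b' + 1 - (a' - 1)).toNat : ℤ) = a' - 1 := by omega
  rw [e3] at w3 m3 q3
  obtain ⟨l4, w4, m4, q4⟩ := TB2_down (L := L) (a' - 1) (d' + 1) (d' + 1 - y1).toNat
  have e4 : d' + 1 - ((d' + 1 - y1).toNat : ℤ) = y1 := by omega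
  rw [e4] at w4 m4
  have w5 : TB2_Wk L (a' - 1, y1) (a', y1) [(a' - 1, y1), (a', y1)] := by
    refine TB2_step ?_
    have := adj_right (L := L) (a' - 1, y1)
    simpa using this
  obtain ⟨l01, w01, m01, q01⟩ := TB2_glue w0 w1
  obtain ⟨l02, w02, m02, q02⟩ := TB2_glue w01 w2
  obtain ⟨l03, w03, m03, q03⟩ := TB2_glue w02 w3
  obtain ⟨l04, w04, m04, q04⟩ := TB2_glue w03 w4
  obtain ⟨l, w, m, q⟩ := TB2_glue w04 w5
  have hcl : l.head? = l.getLast? := by rw [w.hd, w.la]
  -- the sites of the walk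
  have hmem : ∀ v ∈ l, v ∈ P ∨ (c' ≤ v.2 ∧ (v.1 = b' + 1 ∨ v.2 = d' + 1 ∨ v.1 = a' - 1)) := by
    intro v hv
    rcases m v hv with hv | hv
    · rcases m04 v hv with hv | hv
      · rcases m03 v hv with hv | hv
        · rcases m02 v hv with hv | hv
          · rcases m01 v hv with hv | hv
            · exact Or.inl (k3 v hv)
            · rw [List.mem_cons, List.mem_singleton] at hv
              rcases hv with rfl | rfl
              · exact Or.inl hp2
              · exact Or.inr ⟨r2.2.1, Or.inl rfl⟩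
          · have := m2 v hv
            exact Or.inr ⟨r2.2.1.trans this.2.1, Or.inl this.1⟩
        · have := m3 v hv
          refine Or.inr ⟨?_, Or.inr (Or.inl this.2.2)⟩
          omega
      · have := m4 v hv
        exact Or.inr ⟨r1.2.1.trans this.2.1, Or.inr (Or.inr this.1)⟩
    · rw [List.mem_cons, List.mem_singleton] at hv
      rcases hv with rfl | rfl
      · exact Or.inr ⟨r1.2.1, Or.inr (Or.inr rfl)⟩
      · exact Or.inl hp1
  have hoff : ∀ v ∈ P', v ∉ l := by
    intro v hv hvl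
    rcases hmem v hvl with h5 | ⟨-, h5⟩
    · exact hdis v hv h5
    · have h6 : (a' ≤ v.1 ∧ v.1 ≤ b') ∧ c' ≤ v.2 ∧ v.2 ≤ d' := hPr' hv
      omega
  have hlow : ∀ v ∈ l, c' - 1 < v.2 := by
    intro v hv
    rcases hmem v hv with h5 | ⟨h5, -⟩
    · have h6 : (a' ≤ v.1 ∧ v.1 ≤ b') ∧ c' ≤ v.2 ∧ v.2 ≤ d' := hPr h5
      omega
    · omega
  -- parity at the lower site
  have pz : par (x4, c') l = 0 := by
    have h5 : par (x4, c' - 1) l = 0 := par_below w.ch hcl hlow
    rw [← h5]
    refine (par_adj w.ch hcl (fun h => ?_) (hoff _ hp3) ?_).symm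
    · have := hlow _ h
      simp only at this
      omega
    · have := adj_up (L := L) (x4, c' - 1)
      simpa using this
  -- parity at the upper site
  have po : par (x2, d') l = 1 := by
    rw [q, q04, q03, q02, q01, q2, q3, q4]
    have z1 : par (x2, d') l0 = 0 := by
      refine par_above fun v hv => ?_
      have h6 : (a' ≤ v.1 ∧ v.1 ≤ b') ∧ c' ≤ v.2 ∧ v.2 ≤ d' := hPr (k3 v hv)
      exact h6.2.2
    have z2 : par (x2, d') [(b', y3), (b' + 1, y3)] = 0 := by
      refine par_above fun v hv => ?_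
      rw [List.mem_cons, List.mem_singleton] at hv
      rcases hv with rfl | rfl
      · exact r2.2.2
      · exact r2.2.2
    have z3 : par (x2, d') [(a' - 1, y1), (a', y1)] = 0 := by
      refine par_above fun v hv => ?_
      rw [List.mem_cons, List.mem_singleton] at hv
      rcases hv with rfl | rfl
      · exact r1.2.2
      · exact r1.2.2
    rw [z1, z2, z3, if_pos]
    · simp
    · refine ⟨?_, ?_, ?_⟩ <;> simp only [] <;> omega
  have hpar := par_cn w.ch hcl hoff (hP' _ hp3 _ hp4)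
  rw [pz, po] at hpar
  exact absurd hpar (by decide)

end Lat

end SC
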