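import Pool.Agent.Lib_MP_e0a489.TA1

/-!
# MP_e0a489, topology 3a: exactness of cochains of rectangles
-/

set_option autoImplicit false

namespace SC

open Classical

namespace Lat

variable {L : Lat}

/-- Every closed mod 2 cochain of `M` which vanishes on the edges inside `C` is exact. -/
def Exact (L : Lat) (M C : Set Pt) : Prop :=
  ∀ φ : Pt → Pt → ZMod 2, (∀ u v, φ u v = φ v u) →
    (∀ u ∈ M, ∀ v ∈ M, ∀ w ∈ M, L.Adj u v → L.Adj v w → L.Adj u w → φ u v + φ v w = φ u w) →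
    (∀ u ∈ M, ∀ v ∈ M, u ∈ C → v ∈ C → L.Adj u v → φ u v = 0) →
    ∃ ψ : Pt → ZMod 2, ∀ u ∈ M, ∀ v ∈ M, L.Adj u v → φ u v = ψ u + ψ v

theorem Exact.mono {M C C' : Set Pt} (h : L.Exact M C) (hC : C ⊆ C') : L.Exact M C' := by
  intro φ h1 h2 h3
  exact h φ h1 h2 (fun u hu v hv huC hvC => h3 u hu v hv (hC huC) (hC hvC))

private theorem alg0 : ∀ x y : ZMod 2, x = y + (y + x) := by decide

private theorem alg1 : ∀ ab bc ac ad dc : ZMod 2, ab + bc = ac → ad + dc = ac →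
    dc = ad + ab + bc := by decide

private theorem alg2 : ∀ ab bd ad bc cd : ZMod 2, ab + bd = ad → bc + cd = bd →
    cd = ad + ab + bc := by decide

private theorem alg3 : ∀ ab bc ac x y z : ZMod 2, ab + bc = ac → ab = x + y → bc = y + z →
    ac = x + z := by decide

private theorem adj_r (i j : ℤ) : L.Adj (i, j) (i + 1, j) := Or.inl (Or.inl ⟨rfl, rfl⟩)

private theorem adj_u (i j : ℤ) : L.Adj (i, j) (i, j + 1) := Or.inl (Or.inr (Or.inl ⟨rfl, rfl⟩))

private theorem adj_ne {i j : ℤ} (h : L.ne i j = true) : L.Adj (i, j) (i + 1, j + 1) :=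
  Or.inl (Or.inr (Or.inr (Or.inl ⟨rfl, rfl, h⟩)))

private theorem adj_nw {i j : ℤ} (h : L.ne i j = false) : L.Adj (i + 1, j) (i, j + 1) :=
  Or.inl (Or.inr (Or.inr (Or.inr ⟨by simp, rfl, h⟩)))

private theorem adj_sym {u v : Pt} (h : L.Adj u v) : L.Adj v u := Or.symm h

private theorem mem_rect' {a b c d i j : ℤ} :
    ((i, j) : Pt) ∈ rect a b c d ↔ (a ≤ i ∧ i ≤ b) ∧ c ≤ j ∧ j ≤ d := Iff.rfl

/-- the potential of a cochain on a rectangle -/
private noncomputable def pot (φ : Pt → Pt → ZMod 2) (a c : ℤ) (v : Pt) : ZMod 2 :=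
  (∑ k ∈ Finset.Ico a v.1, φ (k, c) (k + 1, c)) + ∑ l ∈ Finset.Ico c v.2, φ (v.1, l) (v.1, l + 1)

private theorem sum_Ico_succ (f : ℤ → ZMod 2) {a i : ℤ} (h : a ≤ i) :
    ∑ k ∈ Finset.Ico a (i + 1), f k = (∑ k ∈ Finset.Ico a i, f k) + f i := by
  have : Finset.Ico a (i + 1) = insert i (Finset.Ico a i) := by
    ext x
    simp only [Finset.mem_Ico, Finset.mem_insert]
    omega
  rw [this, Finset.sum_insert (by simp), add_comm]

private theorem pot_up (φ : Pt → Pt → ZMod 2) {a c i j : ℤ} (h : c ≤ j) :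
    pot φ a c (i, j + 1) = pot φ a c (i, j) + φ (i, j) (i, j + 1) := by
  simp only [pot]
  rw [sum_Ico_succ (fun l => φ (i, l) (i, l + 1)) h, add_assoc]

private theorem pot_row (φ : Pt → Pt → ZMod 2) {a c i : ℤ} (h : a ≤ i) :
    pot φ a c (i + 1, c) = pot φ a c (i, c) + φ (i, c) (i + 1, c) := by
  simp only [pot, Finset.Ico_self, Finset.sum_empty, add_zero]
  exact sum_Ico_succ (fun k => φ (k, c) (k + 1, c)) h

private theorem pot_hor {φ : Pt → Pt → ZMod 2} {a b c d : ℤ} (hs : ∀ u v, φ u v = φ v u)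
    (hc : ∀ u ∈ rect a b c d, ∀ v ∈ rect a b c d, ∀ w ∈ rect a b c d,
      L.Adj u v → L.Adj v w → L.Adj u w → φ u v + φ v w = φ u w) {i : ℤ} (hi : a ≤ i)
    (hi' : i + 1 ≤ b) (n : ℕ) (hn : c + n ≤ d) :
    φ (i, c + n) (i + 1, c + n) = pot φ a c (i, c + n) + pot φ a c (i + 1, c + n) := by
  induction n with
  | zero =>
    simp only [Nat.cast_zero, add_zero]
    rw [pot_row φ hi]
    exact alg0 _ _
  | succ n ih =>
    have hn1 : c + (n : ℤ) + 1 ≤ d := by push_cast at hn; omega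
    have ih1 := ih (by omega)
    have e : c + ((n + 1 : ℕ) : ℤ) = c + n + 1 := by push_cast; ring
    rw [e]
    have hcn : c ≤ c + (n : ℤ) := by omega
    generalize hj : c + (n : ℤ) = j at *
    have hA : ((i, j) : Pt) ∈ rect a b c d := mem_rect'.2 (by omega)
    have hB : ((i + 1, j) : Pt) ∈ rect a b c d := mem_rect'.2 (by omega)
    have hC : ((i + 1, j + 1) : Pt) ∈ rect a b c d := mem_rect'.2 (by omega)
    have hD : ((i, j + 1) : Pt) ∈ rect a b c d := mem_rect'.2 (by omega)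
    rw [pot_up φ hcn, pot_up φ hcn]
    have key : φ (i, j + 1) (i + 1, j + 1) =
        φ (i, j) (i, j + 1) + φ (i, j) (i + 1, j) + φ (i + 1, j) (i + 1, j + 1) := by
      cases hne : L.ne i j with
      | true =>
        exact alg1 _ _ _ _ _
          (hc _ hA _ hB _ hC (adj_r i j) (adj_u (i + 1) j) (adj_ne hne))
          (hc _ hA _ hD _ hC (adj_u i j) (adj_r i (j + 1)) (adj_ne hne))
      | false =>
        rw [hs (i, j + 1) (i + 1, j + 1)]
        exact alg2 _ _ _ _ _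
          (hc _ hA _ hB _ hD (adj_r i j) (adj_nw hne) (adj_u i j))
          (hc _ hB _ hC _ hD (adj_u (i + 1) j) (adj_sym (adj_r i (j + 1))) (adj_nw hne))
    rw [key, ih1]
    ring

private theorem pot_ver (φ : Pt → Pt → ZMod 2) {a c i j : ℤ} (h : c ≤ j) :
    φ (i, j) (i, j + 1) = pot φ a c (i, j) + pot φ a c (i, j + 1) := by
  rw [pot_up φ h]
  exact alg0 _ _

private theorem pot_adj1 {φ : Pt → Pt → ZMod 2} {a b c d : ℤ} (hs : ∀ u v, φ u v = φ v u)
    (hc : ∀ u ∈ rect a b c d, ∀ v ∈ rect a b c d, ∀ w ∈ rect a b c d,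
      L.Adj u v → L.Adj v w → L.Adj u w → φ u v + φ v w = φ u w) {u v : Pt}
    (hu : u ∈ rect a b c d) (hv : v ∈ rect a b c d) (h : L.Adj1 u v) :
    φ u v = pot φ a c u + pot φ a c v := by
  have hh : ∀ i j : ℤ, (a ≤ i ∧ i + 1 ≤ b) → (c ≤ j ∧ j ≤ d) →
      φ (i, j) (i + 1, j) = pot φ a c (i, j) + pot φ a c (i + 1, j) := by
    intro i j h1 h2
    have := pot_hor (L := L) hs hc h1.1 h1.2 (j - c).toNat (by omega)
    have e : c + ((j - c).toNat : ℤ) = j := by omega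
    rwa [e] at this
  obtain ⟨u1, u2⟩ := u
  obtain ⟨v1, v2⟩ := v
  rw [mem_rect'] at hu hv
  rcases h with ⟨h1, h2⟩ | ⟨h1, h2⟩ | ⟨h1, h2, h3⟩ | ⟨h1, h2, h3⟩
  · simp only at h1 h2
    subst h1 h2
    exact hh _ _ ⟨hu.1.1, hv.1.2⟩ hu.2
  · simp only at h1 h2
    subst h1 h2
    exact pot_ver φ hu.2.1
  · simp only at h1 h2 h3
    subst h1 h2
    exact alg3 _ _ _ _ _ _
      (hc (u1, u2) (mem_rect'.2 (by omega)) (u1 + 1, u2) (mem_rect'.2 (by omega))
        (u1 + 1, u2 + 1) (mem_rect'.2 (by omega)) (adj_r u1 u2) (adj_u (u1 + 1) u2) (adj_ne h3))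
      (hh _ _ ⟨hu.1.1, hv.1.2⟩ hu.2) (pot_ver φ hu.2.1)
  · simp only at h1 h2 h3
    subst h2
    obtain rfl : u1 = v1 + 1 := by omega
    refine alg3 _ _ _ _ _ _
      (hc (v1 + 1, u2) (mem_rect'.2 (by omega)) (v1, u2) (mem_rect'.2 (by omega))
        (v1, u2 + 1) (mem_rect'.2 (by omega)) (adj_sym (adj_r v1 u2)) (adj_u v1 u2) (adj_nw h3))
      ?_ (pot_ver φ hu.2.1)
    rw [hs, hh v1 u2 ⟨hv.1.1, hu.1.2⟩ hu.2, add_comm]

/-- Rectangle: `ψ (i,j)` = sum of `φ` along the bottom row from `(a,c)` to `(i,c)` and up the column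
to `(i,j)`.  Vertical edges: by definition.  Horizontal edges in row `j`: induction on `j`, the sum
of `φ` around a unit square is the sum over its two triangles.  Diagonals: one triangle. -/
theorem exact_rect (a b c d : ℤ) (C : Set Pt) : L.Exact (rect a b c d) C := by
  intro φ hs hc _
  refine ⟨pot φ a c, fun u hu v hv h => ?_⟩
  rcases h with h | h
  · exact pot_adj1 hs hc hu hv h
  · rw [hs, pot_adj1 hs hc hv hu h, add_comm]

end Lat

end SC
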