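import Pool.Agent.Lib_MP_e0a489.TE1

/-!
# MP_e0a489: the triangular lattice

Row drawing `TL`: the site `(i, j)` is the point `(i + (j mod 2)/2, (√3/2) j)` of the plane.  Sheared drawing `SL`: the site
`(i, j)` is the point `(i + j/2, (√3/2) j)`.
-/

set_option autoImplicit false

namespace SC

open Classical

/-- triangular lattice, row drawing: a site `(i,j)` with `j` even is adjacent to `(i-1,j+1)`, `(i,j+1)`; with `j` odd
to `(i,j+1)`, `(i+1,j+1)` -/
def TL : Lat := ⟨fun _ j => decide (j % 2 = 1), fun _ => none⟩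

/-- triangular lattice, sheared drawing -/
def SL : Lat := ⟨fun _ _ => false, fun _ => none⟩

/-- from the sheared drawing to the row drawing -/
def shE : Equiv.Perm Pt where
  toFun v := (v.1 + v.2 / 2, v.2)
  invFun v := (v.1 - v.2 / 2, v.2)
  left_inv v := by simp
  right_inv v := by simp

private theorem tl0_ext {L L' : Lat} (h1 : ∀ i j, L.ne i j = L'.ne i j)
    (h2 : ∀ v, L.typ v = L'.typ v) : L = L' := by
  cases L
  cases L'
  have e1 := funext fun i => funext fun j => h1 i j
  have e2 := funext h2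
  simp only at e1 e2
  subst e1
  subst e2
  rfl

private theorem tl0_adj1 (u v : Pt) : SL.Adj1 u v ↔ TL.Adj1 (shE u) (shE v) := by
  obtain ⟨a, b⟩ := u
  obtain ⟨c, d⟩ := v
  simp only [Lat.Adj1, SL, TL, shE, Equiv.coe_fn_mk, decide_eq_true_eq, decide_eq_false_iff_not,
    Bool.false_eq_true, and_false, false_or, and_true]
  omega

theorem tr_shE : Tr TL SL shE := by
  refine ⟨fun u v => ?_, fun v => rfl⟩
  unfold Lat.Adj
  rw [tl0_adj1, tl0_adj1]

theorem TL_per1 : TL.shift (2, 0) = TL := by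
  refine tl0_ext (fun i j => ?_) (fun v => rfl)
  simp [Lat.shift, TL]

theorem TL_per2 : TL.shift (0, 2) = TL := by
  refine tl0_ext (fun i j => ?_) (fun v => rfl)
  simp only [Lat.shift, TL, decide_eq_decide]
  omega

theorem TL_sw : TL.sw = TL := by
  refine tl0_ext (fun i j => rfl) (fun v => rfl)

theorem TL_rx : TL.rx = TL.shift (0, 1) := by
  refine tl0_ext (fun i j => ?_) (fun v => rfl)
  simp only [Lat.shift, Lat.rx, TL, ← decide_not, decide_eq_decide]
  omega

theorem TL_ry : TL.ry = TL := by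
  refine tl0_ext (fun i j => ?_) (fun v => rfl)
  simp only [Lat.ry, TL, ← decide_not, decide_eq_decide]
  omega

private theorem tl0_typ (a b c d : ℤ) (h1 : a % 2 = c % 2) (h2 : b % 2 = d % 2) :
    Z2.typ (a, b) = Z2.typ (c, d) := by
  simp only [Z2, h1, h2]

theorem Z2_per1 : Z2.shift (2, 0) = Z2 := by
  refine tl0_ext (fun i j => ?_) (fun v => ?_)
  · simp only [Lat.shift, Z2, decide_eq_decide]
    omega
  · obtain ⟨a, b⟩ := v
    exact tl0_typ _ _ _ _ (by simp) (by simp)

theorem Z2_per2 : Z2.shift (0, 2) = Z2 := by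
  refine tl0_ext (fun i j => ?_) (fun v => ?_)
  · simp only [Lat.shift, Z2, decide_eq_decide]
    omega
  · obtain ⟨a, b⟩ := v
    exact tl0_typ _ _ _ _ (by simp) (by simp)

theorem Z2_sw : Z2.sw = Z2.shift (1, 1) := by
  refine tl0_ext (fun i j => ?_) (fun v => ?_)
  · simp only [Lat.shift, Lat.sw, Z2, decide_eq_decide]
    omega
  · obtain ⟨a, b⟩ := v
    simp only [Lat.shift, Lat.sw, Z2, Prod.mk_add_mk]
    rcases Int.emod_two_eq_zero_or_one a with h1 | h1 <;>
      rcases Int.emod_two_eq_zero_or_one b with h2 | h2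
    · have e1 : (a + 1) % 2 = 1 := by omega
      have e2 : (b + 1) % 2 = 1 := by omega
      simp [h1, h2, e1, e2]
    · have e1 : (a + 1) % 2 = 1 := by omega
      have e2 : (b + 1) % 2 = 0 := by omega
      simp [h1, h2, e1, e2]
    · have e1 : (a + 1) % 2 = 0 := by omega
      have e2 : (b + 1) % 2 = 1 := by omega
      simp [h1, h2, e1, e2]
    · have e1 : (a + 1) % 2 = 0 := by omega
      have e2 : (b + 1) % 2 = 0 := by omega
      simp [h1, h2, e1, e2]

theorem Z2_rx : Z2.rx = Z2 := by
  refine tl0_ext (fun i j => ?_) (fun v => ?_)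
  · simp only [Lat.rx, Z2, ← decide_not, decide_eq_decide]
    omega
  · obtain ⟨a, b⟩ := v
    exact tl0_typ _ _ _ _ (by simp only []; omega) rfl

theorem Z2_ry : Z2.ry = Z2 := by
  refine tl0_ext (fun i j => ?_) (fun v => ?_)
  · simp only [Lat.ry, Z2, ← decide_not, decide_eq_decide]
    omega
  · obtain ⟨a, b⟩ := v
    exact tl0_typ _ _ _ _ rfl (by simp only []; omega)

theorem Z2_tr : Z2.tr = Z2 := by
  refine tl0_ext (fun i j => ?_) (fun v => ?_)
  · simp only [Lat.tr, Z2, decide_eq_decide]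
    omega
  · obtain ⟨a, b⟩ := v
    simp only [Lat.tr, Z2]
    rcases Int.emod_two_eq_zero_or_one a with h1 | h1 <;>
      rcases Int.emod_two_eq_zero_or_one b with h2 | h2 <;> simp [h1, h2]

end SC
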