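import Mathlib

/-!
# MP_e0a489: natural definitions (bond percolation on `ℤ²`, site percolation on the triangular lattice)
-/

set_option autoImplicit false

open Classical

namespace SCTop

/-! ## Fourier analysis on a finite set of bits, spectral sample -/

/-- Probability of an event under the uniform measure on the configurations on `I`; a configuration is
the set `A ⊆ I` of the open elements. -/
noncomputable def prob (I : Finset (ℤ × ℤ)) (P : Finset (ℤ × ℤ) → Prop) : ℝ :=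
  ((I.powerset.filter P).card : ℝ) / 2 ^ I.card

/-- Fourier coefficient `ĝ(S) = E[g χ_S]`, `χ_S = ∏_{i ∈ S} ω_i`, `ω_i = 1` if `i` is open, `-1` otherwise -/
noncomputable def fhat (I : Finset (ℤ × ℤ)) (g : Finset (ℤ × ℤ) → ℝ) (S : Finset (ℤ × ℤ)) : ℝ :=
  (∑ A ∈ I.powerset, g A * ∏ i ∈ S, (if i ∈ A then (1 : ℝ) else -1)) / 2 ^ I.card

/-- Probability that the spectral sample of `g` has the property `P`. -/
noncomputable def specProb (I : Finset (ℤ × ℤ)) (g : Finset (ℤ × ℤ) → ℝ)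
    (P : Finset (ℤ × ℤ) → Prop) : ℝ :=
  (∑ S ∈ I.powerset.filter P, fhat I g S ^ 2) / ((∑ A ∈ I.powerset, g A ^ 2) / 2 ^ I.card)

/-- sup norm -/
noncomputable def norm (v : ℤ × ℤ) : ℤ := max |v.1| |v.2|

/-! ## Bond percolation on `ℤ²`

The edge with end points `u`, `v` is represented by the point `u + v` (twice its midpoint), a point whose
coordinates have an odd sum.  In these doubled coordinates the vertices of `ℤ²` are the points with
two even coordinates, the vertices of the dual lattice the points with two odd coordinates, and the point of an edge is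
next to its two end points and to the two end points of the dual edge. -/

/-- nearest neighbours -/
def NN (u v : ℤ × ℤ) : Prop := |u.1 - v.1| + |u.2 - v.2| = 1

/-- the edges of `ℤ²` in `[-n, n]²` -/
noncomputable def edges (n : ℕ) : Finset (ℤ × ℤ) :=
  (Finset.Icc (-(2 * n : ℤ)) (2 * n) ×ˢ Finset.Icc (-(2 * n : ℤ)) (2 * n)).filter
    fun e => (e.1 + e.2) % 2 = 1

/-- there is an open path from the left side to the right side of `[-n, n]²` (the set `A` of open edges is a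
subset of `edges n`) -/
def crossing (n : ℕ) (A : Finset (ℤ × ℤ)) : Prop :=
  ∃ u v : ℤ × ℤ, u.1 = -n ∧ |u.2| ≤ n ∧ v.1 = n ∧ |v.2| ≤ n ∧
    Relation.ReflTransGen (fun a b => NN a b ∧ a + b ∈ A) u v

/-- points (in doubled coordinates) used by open arms: vertices and open edges -/
def openPt (A : Finset (ℤ × ℤ)) (v : ℤ × ℤ) : Prop :=
  (v.1 % 2 = 0 ∧ v.2 % 2 = 0) ∨ ((v.1 + v.2) % 2 = 1 ∧ v ∈ A)

/-- points used by closed arms: dual vertices and (dual edges of) closed edges -/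
def closedPt (A : Finset (ℤ × ℤ)) (v : ℤ × ℤ) : Prop :=
  (v.1 % 2 = 1 ∧ v.2 % 2 = 1) ∨ ((v.1 + v.2) % 2 = 1 ∧ v ∉ A)

/-- a path in doubled coordinates inside the annulus between the boxes of radius `r` and `R` -/
structure DPath (r R : ℕ) (γ : List (ℤ × ℤ)) : Prop where
  chain : γ.IsChain NN
  ann : ∀ v ∈ γ, (2 * r : ℤ) ≤ norm v ∧ norm v ≤ 2 * R

/-- an arm: a path of points of type `X` from the boundary of the box of radius `r` to the boundary of the
box of radius `R` -/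
structure DArm (X : ℤ × ℤ → Prop) (r R : ℕ) (γ : List (ℤ × ℤ)) : Prop where
  path : DPath r R γ
  typ : ∀ v ∈ γ, X v
  start : ∃ v, γ.head? = some v ∧ norm v = 2 * r
  fin : ∃ v, γ.getLast? = some v ∧ norm v = 2 * R

/-- Four disjoint arms, open, closed, open, closed, in alternating order: every path in the annulus from
one open arm to the other meets one of the closed arms. -/
def fourArms (r R : ℕ) (A : Finset (ℤ × ℤ)) : Prop :=
  ∃ γ₁ γ₂ γ₃ γ₄ : List (ℤ × ℤ), DArm (openPt A) r R γ₁ ∧ DArm (closedPt A) r R γ₂ ∧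
    DArm (openPt A) r R γ₃ ∧ DArm (closedPt A) r R γ₄ ∧ γ₁.Disjoint γ₃ ∧ γ₂.Disjoint γ₄ ∧
    ∀ δ : List (ℤ × ℤ), DPath r R δ → (∃ v ∈ γ₁, δ.head? = some v) →
      (∃ v ∈ γ₃, δ.getLast? = some v) → ∃ v ∈ δ, v ∈ γ₂ ∨ v ∈ γ₄

/-- four arm probability for integer radii -/
noncomputable def alpha (r R : ℕ) : ℝ := prob (edges R) (fourArms r R)

/-- `α₄(r, R)` for real radii `1 ≤ r ≤ R` (the box of radius `r` contains the same vertices as the box of
radius `⌊r⌋`) -/
noncomputable def alpha4 (r R : ℝ) : ℝ := alpha ⌊r⌋₊ ⌊R⌋₊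

/-- `Φ(a, b) = (b / a) α₄(a, b)` -/
noncomputable def Phi (a b : ℝ) : ℝ := b / a * alpha4 a b

/-- the point of the plane with given doubled coordinates; for an edge this is its midpoint -/
noncomputable def mid (e : ℤ × ℤ) : EuclideanSpace ℝ (Fin 2) := !₂[(e.1 : ℝ) / 2, (e.2 : ℝ) / 2]

/-- an edge as a closed segment of the plane, from one end point to the other (the edge is horizontal if
`e.1` is odd, vertical if `e.1` is even) -/
noncomputable def seg (e : ℤ × ℤ) : Set (EuclideanSpace ℝ (Fin 2)) :=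
  if e.1 % 2 = 1 then segment ℝ (mid (e - (1, 0))) (mid (e + (1, 0)))
  else segment ℝ (mid (e - (0, 1))) (mid (e + (0, 1)))

/-- Euclidean diameter of a set of edges: the diameter of the union of the edges.  (It is at least the
diameter of the set of the midpoints, so the statement below with this diameter contains the one for midpoints.) -/
noncomputable def diam (S : Finset (ℤ × ℤ)) : ℝ := Metric.diam (⋃ e ∈ S, seg e)

/-- the crossing function `g_n` -/
noncomputable def gn (n : ℕ) (A : Finset (ℤ × ℤ)) : ℝ := if crossing n A then 1 else 0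

/-- Q1 for bond percolation on `ℤ²`.  (For `r > n` the number `α₄(r,n)` is not defined by the
problem; the last clause reads it as one.) -/
def Q1Z2 : Prop :=
  ∃ C : ℝ, ∀ n : ℕ, 1 ≤ n → ∀ r r₀ : ℝ, 1 ≤ r → r ≤ r₀ →
    (r ≤ n → specProb (edges n) (gn n) (fun S => (S.card : ℝ) < r ^ 2 * alpha4 1 r ∧ r₀ ≤ diam S) ≤
      C * Phi r n ^ 2 * Phi r r₀ ^ 2) ∧
    (n < r → specProb (edges n) (gn n) (fun S => (S.card : ℝ) < r ^ 2 * alpha4 1 r ∧ r₀ ≤ diam S) ≤
      C * ((n : ℝ) / r) ^ 2 * Phi r r₀ ^ 2)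

/-! ## Site percolation on the triangular lattice

The site `(i, j)` is the point `(i + j/2, (√3/2) j)` of the plane. -/

/-- position in the plane -/
noncomputable def pos (v : ℤ × ℤ) : EuclideanSpace ℝ (Fin 2) :=
  !₂[(v.1 : ℝ) + (v.2 : ℝ) / 2, Real.sqrt 3 / 2 * (v.2 : ℝ)]

/-- the six neighbours -/
def TAdj (u v : ℤ × ℤ) : Prop :=
  v - u = (1, 0) ∨ v - u = (-1, 0) ∨ v - u = (0, 1) ∨ v - u = (0, -1) ∨ v - u = (1, -1) ∨
    v - u = (-1, 1)

/-- the site lies in the square `[-r, r]²` -/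
def inBox (r : ℝ) (v : ℤ × ℤ) : Prop := |pos v 0| ≤ r ∧ |pos v 1| ≤ r

/-- the sites in `[-r, r]²` -/
noncomputable def sites (r : ℝ) : Finset (ℤ × ℤ) :=
  (Finset.Icc (-(2 * ⌈r⌉)) (2 * ⌈r⌉) ×ˢ Finset.Icc (-(2 * ⌈r⌉)) (2 * ⌈r⌉)).filter (inBox r)

/-- there is an open path in `[-n, n]²` from the left side (first site of a row) to the right side (last
site of a row); `A` is the set of open sites -/
def tcrossing (n : ℕ) (A : Finset (ℤ × ℤ)) : Prop :=
  ∃ u v : ℤ × ℤ, u ∈ A ∧ ¬ inBox n (u - (1, 0)) ∧ ¬ inBox n (v + (1, 0)) ∧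
    Relation.ReflTransGen (fun a b => TAdj a b ∧ b ∈ A) u v

/-- boundary of the box of radius `r`: its sites with a neighbour outside -/
def tbd (r : ℝ) (v : ℤ × ℤ) : Prop := inBox r v ∧ ∃ u, TAdj v u ∧ ¬ inBox r u

/-- a path in the annulus between the boundaries of the boxes of radius `r` and `R` -/
structure TPath (r R : ℝ) (γ : List (ℤ × ℤ)) : Prop where
  chain : γ.IsChain TAdj
  ann : ∀ v ∈ γ, inBox R v ∧ (¬ inBox r v ∨ tbd r v)

/-- an arm of sites of type `X` -/
structure TArm (X : ℤ × ℤ → Prop) (r R : ℝ) (γ : List (ℤ × ℤ)) : Prop where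
  path : TPath r R γ
  typ : ∀ v ∈ γ, X v
  start : ∃ v, γ.head? = some v ∧ tbd r v
  fin : ∃ v, γ.getLast? = some v ∧ tbd R v

/-- Four disjoint arms, open, closed, open, closed, in alternating order. -/
def tfourArms (r R : ℝ) (A : Finset (ℤ × ℤ)) : Prop :=
  ∃ γ₁ γ₂ γ₃ γ₄ : List (ℤ × ℤ), TArm (fun v => v ∈ A) r R γ₁ ∧ TArm (fun v => v ∉ A) r R γ₂ ∧
    TArm (fun v => v ∈ A) r R γ₃ ∧ TArm (fun v => v ∉ A) r R γ₄ ∧ γ₁.Disjoint γ₃ ∧
    γ₂.Disjoint γ₄ ∧
    ∀ δ : List (ℤ × ℤ), TPath r R δ → (∃ v ∈ γ₁, δ.head? = some v) →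
      (∃ v ∈ γ₃, δ.getLast? = some v) → ∃ v ∈ δ, v ∈ γ₂ ∨ v ∈ γ₄

/-- `α₄(r, R)` for the triangular lattice, `1 ≤ r ≤ R` -/
noncomputable def talpha4 (r R : ℝ) : ℝ := prob (sites R) (tfourArms r R)

noncomputable def tPhi (a b : ℝ) : ℝ := b / a * talpha4 a b

/-- Euclidean diameter of a set of sites -/
noncomputable def tdiam (S : Finset (ℤ × ℤ)) : ℝ := Metric.diam (pos '' (S : Set (ℤ × ℤ)))

/-- the crossing function -/
noncomputable def tgn (n : ℕ) (A : Finset (ℤ × ℤ)) : ℝ := if tcrossing n A then 1 else 0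

/-- Q1 for site percolation on the triangular lattice. -/
def Q1T : Prop :=
  ∃ C : ℝ, ∀ n : ℕ, 1 ≤ n → ∀ r r₀ : ℝ, 1 ≤ r → r ≤ r₀ →
    (r ≤ n → specProb (sites n) (tgn n)
        (fun S => (S.card : ℝ) < r ^ 2 * talpha4 1 r ∧ r₀ ≤ tdiam S) ≤
      C * tPhi r n ^ 2 * tPhi r r₀ ^ 2) ∧
    (n < r → specProb (sites n) (tgn n)
        (fun S => (S.card : ℝ) < r ^ 2 * talpha4 1 r ∧ r₀ ≤ tdiam S) ≤
      C * ((n : ℝ) / r) ^ 2 * tPhi r r₀ ^ 2)

end SCTop
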