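import Pool.Agent.Lib_MP_e0a489.PA2b
import Pool.Agent.Lib_MP_e0a489.PE1
import Pool.Agent.Lib_MP_e0a489.TPdefs

/-!
# MP_e0a489, module TP 1: dictionary (finite sets of open elements and configurations)
-/

set_option autoImplicit false

namespace SC

open Classical

/-- the open elements of `I`; the element `v` of `I` is represented by the site `e v` -/
noncomputable def opn (I : Finset Pt) (e : Equiv.Perm Pt) (ω : Cfg) : Finset Pt :=
  I.filter fun v => ω (e v) = true

theorem mem_opn {I : Finset Pt} {e : Equiv.Perm Pt} {ω : Cfg} {v : Pt} :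
    v ∈ opn I e ω ↔ v ∈ I ∧ ω (e v) = true := by
  unfold opn
  rw [Finset.mem_filter]

theorem opn_sub (I : Finset Pt) (e : Equiv.Perm Pt) (ω : Cfg) : opn I e ω ⊆ I := by
  intro v hv
  exact (mem_opn.1 hv).1

/-- `opn I e ω` depends only on the sites `e v`, `v ∈ I` -/
theorem opn_dep {α : Type} (I : Finset Pt) (e : Equiv.Perm Pt) (g : Finset Pt → α) :
    Dep (fun ω => g (opn I e ω)) ((I.map e.toEmbedding : Finset Pt) : Set Pt) := by
  intro ω ω' h
  have h1 : opn I e ω = opn I e ω' := by
    unfold opn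
    refine Finset.filter_congr fun v hv => ?_
    rw [h (e v) (by
      rw [Finset.mem_coe, Finset.mem_map]
      exact ⟨v, hv, rfl⟩)]
  show g (opn I e ω) = g (opn I e ω')
  rw [h1]

private theorem TP1_map_one (S : Finset Pt) : S.map (1 : Equiv.Perm Pt).toEmbedding = S := by
  ext v
  rw [Finset.mem_map]
  constructor
  · rintro ⟨w, hw, rfl⟩
    exact hw
  · intro hv
    exact ⟨v, hv, rfl⟩

private theorem TP1_dep1 {α : Type} (I : Finset Pt) (g : Finset Pt → α) :
    Dep (fun ω => g (opn I 1 ω)) (I : Set Pt) := by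
  have h := opn_dep I 1 g
  rw [TP1_map_one] at h
  exact h

/-- average over the subsets of `I` = expectation.  Proof.  First `e = 1`: `ex_eq` (with `F = I`, `ω = fun _ => false`) and the definition of `av`;
`opn I 1 (ovr I S ω) = S` for `S ⊆ I` (`ovr_mem`).  General `e`: `ex_equiv` for `fun ω => g (opn I 1 ω)`; `opn I 1 (fun v => ω (e v)) = opn I e ω`
holds by `rfl`. -/
theorem ex_opn (I : Finset Pt) (e : Equiv.Perm Pt) (g : Finset Pt → ℝ) :
    ex (fun ω => g (opn I e ω)) = (∑ A ∈ I.powerset, g A) / 2 ^ I.card := by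
  have h1 : ex (fun ω => g (opn I 1 ω)) = (∑ A ∈ I.powerset, g A) / 2 ^ I.card := by
    rw [ex_eq (TP1_dep1 I g) (fun _ => false)]
    unfold av
    congr 1
    refine Finset.sum_congr rfl fun S hS => ?_
    have hSI := Finset.mem_powerset.1 hS
    have h2 : opn I 1 (ovr I S fun _ => false) = S := by
      ext v
      rw [mem_opn]
      constructor
      · rintro ⟨hv, h3⟩
        have h4 : ovr I S (fun _ => false) v = true := h3
        rw [ovr_mem hv] at h4
        exact of_decide_eq_true h4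
      · intro hv
        refine ⟨hSI hv, ?_⟩
        show ovr I S (fun _ => false) v = true
        rw [ovr_mem (hSI hv)]
        exact decide_eq_true hv
    show g (opn I 1 (ovr I S fun _ => false)) = g S
    rw [h2]
  have h2 := ex_equiv (g := fun ω => g (opn I 1 ω)) ⟨I, TP1_dep1 I g⟩ e
  rw [h1] at h2
  exact h2

/-- `ex_opn` for the indicator function of `P` (`Finset.sum_boole`) -/
theorem prob_eq (I : Finset Pt) (e : Equiv.Perm Pt) (P : Finset Pt → Prop) :
    SCTop.prob I P = pr (fun ω => P (opn I e ω)) := by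
  have h := ex_opn I e (fun A => if P A then (1 : ℝ) else 0)
  rw [Finset.sum_boole] at h
  unfold SCTop.prob pr
  exact h.symm

/-- Fourier coefficients.  `chi (S.map e) ω = ∏ v ∈ S, (if ω (e v) then 1 else -1)` (`Finset.prod_map`), and for `S ⊆ I` this is
`∏ v ∈ S, (if v ∈ opn I e ω then 1 else -1)`; then `ex_opn` for `fun A => g A * ∏ v ∈ S, (if v ∈ A then 1 else -1)`. -/
theorem fhat_eq (I : Finset Pt) (e : Equiv.Perm Pt) (g : Finset Pt → ℝ) {S : Finset Pt}
    (hS : S ⊆ I) :
    SCTop.fhat I g S = fc (fun ω => g (opn I e ω)) (S.map e.toEmbedding) := by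
  have h := ex_opn I e (fun A => g A * ∏ v ∈ S, (if v ∈ A then (1 : ℝ) else -1))
  unfold SCTop.fhat fc
  rw [← h]
  congr 1
  funext ω
  show g (opn I e ω) * _ = g (opn I e ω) * _
  congr 1
  unfold chi
  rw [Finset.prod_map]
  refine Finset.prod_congr rfl fun v hv => ?_
  show (if v ∈ opn I e ω then (1 : ℝ) else -1) = if ω (e v) then (1 : ℝ) else -1
  by_cases h2 : ω (e v) = true
  · rw [if_pos (mem_opn.2 ⟨hS hv, h2⟩), if_pos h2]
  · rw [if_neg (fun h3 => h2 (mem_opn.1 h3).2), if_neg h2]

theorem specProb_nonneg (I : Finset Pt) (g : Finset Pt → ℝ) (P : Finset Pt → Prop) :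
    0 ≤ SCTop.specProb I g P := by
  unfold SCTop.specProb
  exact div_nonneg (Finset.sum_nonneg fun _ _ => sq_nonneg _)
    (div_nonneg (Finset.sum_nonneg fun _ _ => sq_nonneg _) (by positivity))

/-- `Finset.sum_eq_zero` for the numerator -/
theorem specProb_zero {I : Finset Pt} {g : Finset Pt → ℝ} {P : Finset Pt → Prop}
    (h : ∀ S, S ⊆ I → ¬ P S) : SCTop.specProb I g P = 0 := by
  unfold SCTop.specProb
  rw [Finset.sum_eq_zero, zero_div]
  intro S hS
  rw [Finset.mem_filter, Finset.mem_powerset] at hS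
  exact absurd hS.2 (h S hS.1)

/-- Parseval: by `parseval` (for `G ω = g (opn I 1 ω)`, `F = I`, `Dep G I` by `opn_dep`), `fhat_eq` with `e = 1` and `ex_opn`, the sum of
`fhat I g S ^ 2` over all `S ⊆ I` is the denominator.  (If the denominator is `0` then the quotient is `0`.) -/
theorem specProb_le_one (I : Finset Pt) (g : Finset Pt → ℝ) (P : Finset Pt → Prop) :
    SCTop.specProb I g P ≤ 1 := by
  have h1 := parseval (TP1_dep1 I g) (TP1_dep1 I g)
  have h2 := ex_opn I 1 (fun A => g A ^ 2)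
  have h3 : (∑ A ∈ I.powerset, g A ^ 2) / 2 ^ I.card = ∑ S ∈ I.powerset, SCTop.fhat I g S ^ 2 := by
    rw [← h2]
    have h4 : (fun ω : Cfg => g (opn I 1 ω) ^ 2) = fun ω => g (opn I 1 ω) * g (opn I 1 ω) := by
      funext ω
      ring
    rw [h4, h1]
    refine Finset.sum_congr rfl fun S hS => ?_
    have h5 := fhat_eq I 1 g (Finset.mem_powerset.1 hS)
    rw [TP1_map_one] at h5
    rw [h5]
    ring
  unfold SCTop.specProb
  rw [h3]
  refine div_le_one_of_le₀ ?_ (Finset.sum_nonneg fun _ _ => sq_nonneg _)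
  exact Finset.sum_le_sum_of_subset_of_nonneg (Finset.filter_subset _ _)
    (fun _ _ _ => sq_nonneg _)

/-- Comparison with the Fourier coefficients of the event `Ev`.  The denominator is `pr Ev` (`ex_opn`, `ind ^ 2 = ind`, `hEv`);
numerator: `fhat I _ S = fc (ind Ev) (S.map e)`, the map `S ↦ S.map e` is injective (`Finset.map_injective`) and maps `I.powerset.filter P` into
`F.powerset.filter Q`: `Finset.sum_map`/`Finset.sum_image` and `Finset.sum_le_sum_of_subset_of_nonneg`. -/
theorem specProb_le {I F : Finset Pt} {e : Equiv.Perm Pt} {crs P Q : Finset Pt → Prop}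
    {Ev : Cfg → Prop} {p : ℝ} (hF : ∀ v ∈ I, e v ∈ F) (hEv : ∀ ω, Ev ω ↔ crs (opn I e ω))
    (hPQ : ∀ S, S ⊆ I → P S → Q (S.map e.toEmbedding)) (hp : 0 < p) (hpr : p ≤ pr Ev) :
    SCTop.specProb I (fun A => if crs A then 1 else 0) P ≤
      (∑ S ∈ F.powerset.filter Q, fc (ind Ev) S ^ 2) / p := by
  have hind : (fun ω : Cfg => if crs (opn I e ω) then (1 : ℝ) else 0) = ind Ev := by
    funext ω
    unfold ind
    by_cases h : Ev ω
    · rw [if_pos ((hEv ω).1 h), if_pos h]
    · rw [if_neg (fun h1 => h ((hEv ω).2 h1)), if_neg h]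
  have hden : (∑ A ∈ I.powerset, (if crs A then (1 : ℝ) else 0) ^ 2) / 2 ^ I.card = pr Ev := by
    rw [← ex_opn I e (fun A => (if crs A then (1 : ℝ) else 0) ^ 2)]
    unfold pr
    rw [← hind]
    congr 1
    funext ω
    show (if crs (opn I e ω) then (1 : ℝ) else 0) ^ 2 = if crs (opn I e ω) then (1 : ℝ) else 0
    by_cases h : crs (opn I e ω)
    · rw [if_pos h]; norm_num
    · rw [if_neg h]; norm_num
  have hfh : ∀ S ∈ I.powerset.filter P,
      SCTop.fhat I (fun A => if crs A then (1 : ℝ) else 0) S ^ 2 =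
        fc (ind Ev) (S.map e.toEmbedding) ^ 2 := by
    intro S hS
    rw [Finset.mem_filter, Finset.mem_powerset] at hS
    rw [fhat_eq I e _ hS.1, hind]
  have hnum : ∑ S ∈ I.powerset.filter P, SCTop.fhat I (fun A => if crs A then (1 : ℝ) else 0) S ^ 2 ≤
      ∑ S ∈ F.powerset.filter Q, fc (ind Ev) S ^ 2 := by
    rw [Finset.sum_congr rfl hfh]
    have hinj : Function.Injective fun S : Finset Pt => S.map e.toEmbedding :=
      Finset.map_injective e.toEmbedding
    rw [← Finset.sum_image (f := fun T => fc (ind Ev) T ^ 2) (g := fun S : Finset Pt => S.map e.toEmbedding)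
      (s := I.powerset.filter P) (fun a _ b _ hab => hinj hab)]
    refine Finset.sum_le_sum_of_subset_of_nonneg ?_ (fun _ _ _ => sq_nonneg _)
    intro T hT
    rw [Finset.mem_image] at hT
    obtain ⟨S, hS, rfl⟩ := hT
    rw [Finset.mem_filter, Finset.mem_powerset] at hS
    rw [Finset.mem_filter, Finset.mem_powerset]
    refine ⟨?_, hPQ S hS.1 hS.2⟩
    intro w hw
    rw [Finset.mem_map] at hw
    obtain ⟨v, hv, rfl⟩ := hw
    exact hF v (hS.1 hv)
  unfold SCTop.specProb
  rw [hden]
  exact div_le_div₀ (Finset.sum_nonneg fun _ _ => sq_nonneg _) hnum hp hpr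

end SC
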