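import Pool.Agent.Lib_MP_e0a489.TA1

/-!
# MP_e0a489, module TP 2: lists, runs, truncation of arms
-/

set_option autoImplicit false

namespace SC

open Classical

namespace Lat

variable {L : Lat} {c : Bool} {ω : Cfg}

/-- The sites of a path form a connected set.  Proof: every site of the list is joined to the head inside the set (induction
on the list); then `Cn.symm`, `Cn.trans`. -/
theorem con_list {γ : List Pt} (h : γ.IsChain L.Adj) : L.Con {v | v ∈ γ} := by
  induction γ with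
  | nil =>
    intro u hu
    exact absurd hu List.not_mem_nil
  | cons a l ih =>
    cases l with
    | nil =>
      have e : {v : Pt | v ∈ [a]} = {a} := by
        ext v
        exact List.mem_singleton
      rw [e]
      exact con_singleton a
    | cons b l =>
      rw [List.isChain_cons_cons] at h
      have e : {v : Pt | v ∈ a :: b :: l} = {a} ∪ {v | v ∈ b :: l} := by
        ext v
        exact List.mem_cons
      rw [e]
      exact Con.union_adj (con_singleton a) (ih h.2) (Set.mem_singleton a)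
        (List.mem_cons_self (a := b) (l := l)) h.1

/-- a run of consecutively adjacent sites is connected (`f i` is joined to `f p` inside the set: induction on
`i - p`, `Int.le_induction`) -/
theorem con_run {f : ℤ → Pt} {p q : ℤ} (h : ∀ i, p ≤ i → i < q → L.Adj (f i) (f (i + 1))) :
    L.Con {v | ∃ i, p ≤ i ∧ i ≤ q ∧ f i = v} := by
  have key : ∀ i, p ≤ i → i ≤ q → L.Cn {v | ∃ i, p ≤ i ∧ i ≤ q ∧ f i = v} (f p) (f i) := by
    intro i hi
    induction i, hi using Int.le_induction with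
    | base =>
      intro hq
      exact Cn.refl ⟨p, le_rfl, hq, rfl⟩
    | succ n hn ih =>
      intro hq
      have h1 := ih (by omega)
      exact h1.trans (Cn.of_adj h1.right ⟨n + 1, by omega, hq, rfl⟩ (h n hn (by omega)))
  rintro u ⟨i, hi1, hi2, rfl⟩ v ⟨j, hj1, hj2, rfl⟩
  exact (key i hi1 hi2).symm.trans (key j hj1 hj2)

/-- one more site next to a connected set: `Con.union_adj` with `con_singleton` -/
theorem Con.insert {A : Set Pt} (hA : L.Con A) {u v : Pt} (hu : u ∈ A) (h : L.Adj u v ∨ u = v) :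
    L.Con (A ∪ {v}) := by
  rcases h with h | h
  · exact Con.union_adj hA (con_singleton v) hu (Set.mem_singleton v) h
  · subst h
    have e : A ∪ {u} = A := Set.union_eq_left.2 (Set.singleton_subset_iff.2 hu)
    rw [e]
    exact hA

/-- LAST PART of a path.  `A` (allowed sites), `I` (inner set), a path in `A` from `x` to `p`, `p ∉ I`.  Then there is `s` with a
path from `s` to `p` in `A \ I`, and `s = x` or `s ∈ nb I`; `s` is joined to `x` in `A`.
Proof.  `S = {v | Cn (A \ I) v p}`.  If `x ∈ S` take `s = x`.  Otherwise `Cn.exit` for the path from `p` to `x` (`Cn.symm`) and the set `S` gives `s ∈ S`,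
`t ∈ A`, `t ∉ S`, `Adj s t`; then `t ∈ I` (otherwise `t ∈ S`), so `s ∈ nb I`. -/
theorem Cn.lastPart {A I : Set Pt} {x p : Pt} (h : L.Cn A x p) (hp : p ∉ I) :
    ∃ s, L.Cn (A \ I) s p ∧ (s = x ∨ s ∈ L.nb I) ∧ L.Cn A x s := by
  by_cases hx : L.Cn (A \ I) x p
  · exact ⟨x, hx, Or.inl rfl, Cn.refl h.left⟩
  · have hpS : L.Cn (A \ I) p p := Cn.refl ⟨h.right, hp⟩
    obtain ⟨s, t, h1, h2, h3, h4⟩ := h.symm.exit (S := {v | L.Cn (A \ I) v p}) hpS hx
    have hs : L.Cn (A \ I) s p := h1.right.2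
    have ht : t ∈ I := by
      by_contra ht
      have h5 : t ∈ A \ I := ⟨h3, ht⟩
      exact h4 ((Cn.of_adj h5 hs.left h2.symm).trans hs)
    exact ⟨s, hs, Or.inr ⟨t, ht, h2.symm⟩, h.trans (h1.mono Set.inter_subset_left)⟩

/-- TRUNCATION OF ARMS.  Two clusters of colour `c` crossing `D` from `X` to `Y` give two clusters crossing the smaller
annulus `B \ I`.  Proof.  CLAIM: if `x ∈ X`, `y ∈ Y` and `Cn (D ∩ col) x y` then there are `q ∈ nb I` and `p ∈ B` with a neighbour outside `B`,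
with `Cn ((B \ I) ∩ col) q p` and `Cn (D ∩ col) x q`.  Indeed `x ∈ B`, `y ∉ B`, so `Cn.exit` with `S = B` gives `Cn (D ∩ col ∩ B) x p`, `Adj p u`, `u ∉ B`; `p ∉ I` by `hBI`; now
`Cn.lastPart` (with `A = D ∩ col ∩ B`) gives `q = s`; if `s = x` then `x ∉ I` (`s ∈ A \ I`), so `x ∈ nb I` by `hX`.
The two new arms are not joined in `(B \ I) ∩ col ⊆ D ∩ col`, because this would join `x` and `x'`. -/
theorem Two.trunc {D X Y B I : Set Pt} (hBI : ∀ u ∈ I, ∀ v, L.Adj u v → v ∈ B)
    (hD : B \ I ⊆ D) (hX : ∀ x ∈ X, x ∈ D → x ∈ B ∧ (x ∉ I → x ∈ L.nb I))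
    (hY : ∀ y ∈ Y, y ∉ B) (h : L.Two c D X Y ω) :
    L.Two c (B \ I) (L.nb I) {v | v ∈ B ∧ ∃ u, L.Adj v u ∧ u ∉ B} ω := by
  have claim : ∀ x ∈ X, ∀ y ∈ Y, L.Cn (D ∩ L.col c ω) x y →
      ∃ q ∈ L.nb I, ∃ p ∈ {v | v ∈ B ∧ ∃ u, L.Adj v u ∧ u ∉ B},
        L.Cn ((B \ I) ∩ L.col c ω) q p ∧ L.Cn (D ∩ L.col c ω) x q := by
    intro x hx y hy hxy
    obtain ⟨hxB, hxI⟩ := hX x hx hxy.left.1
    obtain ⟨p, u, h1, h2, _, h4⟩ := hxy.exit (S := B) hxB (hY y hy)
    have hpI : p ∉ I := fun hpI => h4 (hBI p hpI u h2)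
    obtain ⟨s, g1, g2, g3⟩ := Cn.lastPart h1 hpI
    have hs : s ∈ L.nb I := by
      rcases g2 with g2 | g2
      · rw [g2]
        refine hxI ?_
        rw [← g2]
        exact g1.left.2
      · exact g2
    refine ⟨s, hs, p, ⟨h1.right.2, u, h2, h4⟩, g1.mono ?_, g3.mono Set.inter_subset_left⟩
    rintro z ⟨⟨⟨_, z2⟩, z3⟩, z4⟩
    exact ⟨⟨z3, z4⟩, z2⟩
  obtain ⟨x, hx, y, hy, x', hx', y', hy', h1, h2, h3⟩ := h
  obtain ⟨q, hq, p, hp, a1, a2⟩ := claim x hx y hy h1
  obtain ⟨q', hq', p', hp', b1, b2⟩ := claim x' hx' y' hy' h2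
  refine ⟨q, hq, p, hp, q', hq', p', hp', a1, b1, fun h4 => h3 ?_⟩
  have h5 : L.Cn (D ∩ L.col c ω) q q' := by
    refine h4.mono ?_
    rintro z ⟨z1, z2⟩
    exact ⟨hD z1, z2⟩
  exact (a2.trans h5).trans b2.symm

end Lat

end SC
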