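import Pool.Agent.Lib_MP_e0a489.SE3
import Pool.Agent.Lib_MP_e0a489.TB2

/-!
# MP_e0a489, module TP 8: separated event and core configuration give four arms from the origin
-/

set_option autoImplicit false

namespace SC

open Classical

namespace Lat

variable {L : Lat} {ω : Cfg}

/-- In both pairings each outer zone of the colour `c` is reached from one of the two inner zones. -/
theorem Pairs.tgt {c : Bool} {r R : ℤ} (h : L.Pairs c r R ω) {t : ℤ}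
    (ht : t = dc c ∨ t = dc c + 2) :
    ∃ s, (s = dc c ∨ s = dc c + 2) ∧
      L.Arm c (ann r R ∪ Jc c R ∪ Kc c r) (Ks s r) (Je t R) ω := by
  rcases h with ⟨h1, h2⟩ | ⟨h1, h2⟩
  · rcases ht with rfl | rfl
    · exact ⟨_, Or.inl rfl, h1⟩
    · exact ⟨_, Or.inr rfl, h2⟩
  · rcases ht with rfl | rfl
    · exact ⟨_, Or.inr rfl, h2⟩
    · exact ⟨_, Or.inl rfl, h1⟩

private theorem tp8_pos {v : Pt} (hv : v ≠ 0) : 0 < nrm v := by
  unfold nrm
  by_contra hcon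
  have h1 : |v.1| ≤ 0 := le_trans (le_max_left _ _) (not_lt.1 hcon)
  have h2 : |v.2| ≤ 0 := le_trans (le_max_right _ _) (not_lt.1 hcon)
  have h3 : v.1 = 0 := abs_nonpos_iff.1 h1
  have h4 : v.2 = 0 := abs_nonpos_iff.1 h2
  exact hv (Prod.ext h3 h4)

/-- One arm from a neighbour `z` of the origin to `Je t R`, in `ann 0 (2R)`.  `Pairs.tgt` with `r = 2 m` gives `x ∈ Ks s (2m)`, that is `x = rt s (m + 1, y)` with `|y| ≤ (2m)/8` (so `2 |y| ≤ m`), and a path of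
colour `c` from `x` to `e ∈ Je t R`; `hξ` gives the path from `x` to `z`.  All sites are in `ann 0 (2R)` (`Jc_nrm`, `Kc_nrm`; `nrm v = 0` only for `v = 0`). -/
theorem core_arm {m R : ℤ} (hm : 8 ≤ m) (hR : 2 * m ≤ R) {c : Bool} (h : L.Pairs c (2 * m) R ω)
    (hξ : ∀ s y : ℤ, (s = dc c ∨ s = dc c + 2) → 2 * |y| ≤ m → rt s (m + 1, y) ∈ L.col c ω →
      ∃ z, L.Adj 0 z ∧ L.Cn ((bx (m + 1) \ {0}) ∩ L.col c ω) (rt s (m + 1, y)) z)
    {t : ℤ} (ht : t = dc c ∨ t = dc c + 2) :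
    ∃ z e, L.Adj 0 z ∧ e ∈ Je t R ∧ L.Cn (ann 0 (2 * R) ∩ L.col c ω) z e := by
  obtain ⟨s, hs, x, hx, e, he, hxe⟩ := h.tgt ht
  have hxcol : x ∈ L.col c ω := hxe.left.2
  obtain ⟨p, ⟨⟨h1, h2⟩, h3, h4⟩, rfl⟩ := hx
  have e1 : p.1 = m + 1 := by omega
  have hp : p = (m + 1, p.2) := Prod.ext e1 rfl
  have hy : 2 * |p.2| ≤ m := by
    have : |p.2| ≤ 2 * m / 8 := abs_le.2 ⟨h3, h4⟩
    omega
  rw [hp] at hxcol hxe
  obtain ⟨z, hz, hcz⟩ := hξ s p.2 hs hy hxcol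
  refine ⟨z, e, hz, he, ?_⟩
  refine (hcz.mono ?_).symm.trans (hxe.mono ?_)
  · rintro v ⟨⟨hv1, hv2⟩, hv3⟩
    have hb : nrm v ≤ m + 1 := hv1
    exact ⟨⟨tp8_pos hv2, by omega⟩, hv3⟩
  · rintro v ⟨hv1, hv3⟩
    refine ⟨?_, hv3⟩
    rcases hv1 with (hv1 | hv1) | hv1
    · have hb1 : 2 * m < nrm v := hv1.1
      have hb2 : nrm v ≤ R := hv1.2
      exact ⟨by omega, by omega⟩
    · have hb := Jc_nrm (by omega) hv1
      exact ⟨by omega, by omega⟩
    · have hb := Kc_nrm (by omega) hv1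
      exact ⟨by omega, by omega⟩

/-- FOUR ARMS FROM THE ORIGIN.  `core_arm` gives open arms `z₀ - e₀`, `z₂ - e₂` (`e₀ ∈ Je 0 R`: `e₀.1 = 2R`; `e₂ ∈ Je 2 R`: `e₂.1 = -2R`; all are in `rng (2R)`) and closed arms `z₁ - e₁`, `z₃ - e₃` (`e₁.2 = 2R`, `e₃.2 = -2R`; `dc false + 2 = 3`).
`z₀, z₂ ∈ nb (bx 0)`.  They are not joined by an open path in `ann 0 (2R)`: otherwise `P = {v | Cn (ann 0 (2R) ∩ col true) z₀ v}` (`con_cluster`) contains `e₀` and `e₂`, and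
`P' =` closed cluster of `z₁` `∪ {0} ∪` closed cluster of `z₃` is connected and contains `e₁`, `e₃`; `cross` in `rect (-2R) (2R) (-2R) (2R)` gives a common site, which is open and not `0`: contradiction. -/
theorem S4_core {m R : ℤ} (hm : 8 ≤ m) (hR : 2 * m ≤ R) (h : L.S4 (2 * m) R ω)
    (hξ : ∀ (c : Bool) (s y : ℤ), (s = dc c ∨ s = dc c + 2) → 2 * |y| ≤ m →
      rt s (m + 1, y) ∈ L.col c ω →
      ∃ z, L.Adj 0 z ∧ L.Cn ((bx (m + 1) \ {0}) ∩ L.col c ω) (rt s (m + 1, y)) z) :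
    L.TwoA true 0 (2 * R) ω := by
  obtain ⟨z0, e0, hz0, he0, hc0⟩ := core_arm hm hR h.1 (hξ true) (t := 0) (Or.inl rfl)
  obtain ⟨z2, e2, hz2, he2, hc2⟩ := core_arm hm hR h.1 (hξ true) (t := 2) (Or.inr rfl)
  obtain ⟨z1, e1, hz1, he1, hc1⟩ := core_arm hm hR h.2 (hξ false) (t := 1) (Or.inl rfl)
  obtain ⟨z3, e3, hz3, he3, hc3⟩ := core_arm hm hR h.2 (hξ false) (t := 3) (Or.inr rfl)
  rw [Je_eq] at he0 he1 he2 he3
  have n0 := Zn_nrm (by omega) (by omega) he0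
  have n2 := Zn_nrm (by omega) (by omega) he2
  rw [mem_Zn0] at he0
  rw [mem_Zn1] at he1
  rw [mem_Zn2] at he2
  rw [mem_Zn3] at he3
  have hb0 : (0 : Pt) ∈ bx 0 := by
    show nrm 0 ≤ 0
    simp [nrm]
  refine ⟨z0, ⟨0, hb0, hz0⟩, e0, ?_, z2, ⟨0, hb0, hz2⟩, e2, ?_, hc0, hc2, ?_⟩
  · show nrm e0 = 2 * R
    omega
  · show nrm e2 = 2 * R
    omega
  · intro hcon
    have hP : L.Con {v | L.Cn (ann 0 (2 * R) ∩ L.col true ω) z0 v} := con_cluster _ _
    have hQ1 : L.Con {v | L.Cn (ann 0 (2 * R) ∩ L.col false ω) z1 v} := con_cluster _ _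
    have hQ3 : L.Con {v | L.Cn (ann 0 (2 * R) ∩ L.col false ω) z3 v} := con_cluster _ _
    have hz1m : z1 ∈ {v | L.Cn (ann 0 (2 * R) ∩ L.col false ω) z1 v} := Cn.refl hc1.left
    have hz3m : z3 ∈ {v | L.Cn (ann 0 (2 * R) ∩ L.col false ω) z3 v} := Cn.refl hc3.left
    have hC1 : L.Con ({(0 : Pt)} ∪ {v | L.Cn (ann 0 (2 * R) ∩ L.col false ω) z1 v}) :=
      Con.union_adj (con_singleton 0) hQ1 rfl hz1m hz1
    have hC2 : L.Con (({(0 : Pt)} ∪ {v | L.Cn (ann 0 (2 * R) ∩ L.col false ω) z1 v}) ∪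
        {v | L.Cn (ann 0 (2 * R) ∩ L.col false ω) z3 v}) :=
      Con.union_adj hC1 hQ3 (Or.inl rfl) hz3m hz3
    have hrect : ∀ v : Pt, nrm v ≤ 2 * R → v ∈ rect (-(2 * R)) (2 * R) (-(2 * R)) (2 * R) := by
      intro v hv
      unfold nrm at hv
      rw [max_le_iff, abs_le, abs_le] at hv
      exact hv
    obtain ⟨w, hw1, hw2⟩ := cross hP hC2 (a := -(2 * R)) (b := 2 * R) (c := -(2 * R)) (d := 2 * R)
      (fun v hv => hrect v (Cn.right hv).1.2)
      (by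
        rintro v ((hv | hv) | hv)
        · have hv0 : v = 0 := hv
          rw [hv0]
          refine hrect 0 ?_
          have : nrm (0 : Pt) = 0 := by simp [nrm]
          omega
        · exact hrect v (Cn.right hv).1.2
        · exact hrect v (Cn.right hv).1.2)
      ⟨e2, hcon.trans hc2, by omega⟩ ⟨e0, hc0, by omega⟩
      ⟨e3, Or.inr hc3, by omega⟩ ⟨e1, Or.inl (Or.inr hc1), by omega⟩
    have hwo : w ∈ L.col true ω := (Cn.right hw1).2
    have hwa : 0 < nrm w := (Cn.right hw1).1.1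
    have hwt : L.st ω w = true := hwo
    rcases hw2 with (hw2 | hw2) | hw2
    · have hw0 : w = 0 := hw2
      rw [hw0] at hwa
      have : nrm (0 : Pt) = 0 := by simp [nrm]
      omega
    · have hwf : L.st ω w = false := (Cn.right hw2).2
      rw [hwt] at hwf
      exact Bool.noConfusion hwf
    · have hwf : L.st ω w = false := (Cn.right hw2).2
      rw [hwt] at hwf
      exact Bool.noConfusion hwf

end Lat

end SC
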