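import Pool.Agent.Lib_MP_e0a489.TTH4
import Pool.Agent.Lib_MP_e0a489.TTHD

/-!
# MP_e0a489, module TTH 5: bounds for the factors of the local event
-/

set_option autoImplicit false

namespace SC

variable [IfL]

open Classical

variable {L : Lat} {C : ℝ} {R₀ : ℤ}

private theorem tth5_kap {t : ℝ} (ht : 0 ≤ t) : Kap (kt t) := by
  intro v
  exact ⟨(Real.exp_pos _).le, Real.exp_le_one_iff.2 (by linarith)⟩

private theorem tth5_locH (L : Lat) (b : Bool) (H : Set Pt) (r R : ℤ) :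
    Loc (L.TwoH b H r R) := by
  refine XP.loc_of_dep (D := ann r R ∩ H) ?_ (Lat.Two.dep L b _ _ _)
  refine (XP.annAt_finite 0 r R).subset ?_
  rintro v ⟨⟨h1, h2⟩, _⟩
  refine ⟨?_, ?_⟩ <;> simpa using ‹_›

private theorem tth5_al0 (h : HProps L C R₀) {R : ℤ} (hR : R₀ ≤ R) : 0 < al L R₀ R :=
  h.ap.pos _ _ le_rfl hR

private theorem tth5_ratio {ℓ m : ℤ} {e : ℝ} (hm : 0 < m) (h : m ≤ ℓ) (he : 0 ≤ e) :
    1 ≤ ((ℓ : ℝ) / m) ^ e := by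
  apply Real.one_le_rpow _ he
  have : (0 : ℝ) < m := by exact_mod_cast hm
  rw [one_le_div this]
  exact_mod_cast h

/-- `Beyond` implies `0 < s` (`ℓ ^ 2 al ≥ 0`). -/
theorem Beyond.pos {ℓ : ℤ} {s : ℝ} (h : Beyond L R₀ ℓ s) (hal : 0 ≤ al L R₀ ℓ) : 0 < s := by
  unfold Beyond at h
  by_contra hcon
  have h1 : s ≤ 0 := not_lt.1 hcon
  have h2 : 0 ≤ (ℓ : ℝ) ^ 2 * al L R₀ ℓ := by positivity
  nlinarith [mul_nonpos_of_nonpos_of_nonneg h1 h2]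

/-- BULK FACTOR, STATIC.  If `R₀ < k - 1`: `pr2 ≤ pr` (`pr2_le_pr`) and `AlProps.cmp` with `r = r' = R₀`, `R = k - 1`, `R' = k ≤ 4 (k - 1)`.  Otherwise
`max k R₀ ≤ R₀ + 1` and `HProps.small`. -/
theorem atF_static (h : HProps L C R₀) (hR : 16 ≤ R₀) {s : ℝ} (hs : 0 ≤ s) (b : Bool) (y : Pt)
    (k : ℤ) : atF L s b y R₀ (k - 1) ≤ 4096 * C * al L R₀ (max k R₀) := by
  have hC := h.ap.C1
  unfold atF
  split_ifs with hk
  · have h1 : pr2 (kt s) (L.TwoAt b y R₀ (k - 1)) ≤ pr (L.TwoAt b y R₀ (k - 1)) :=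
      pr2_le_pr (TwoAt_loc _ _ _ _ _) (tth5_kap hs)
    have h2 := h.ap.cmp b y R₀ (k - 1) R₀ k le_rfl le_rfl hk.le (by omega) (by omega) (by omega)
    have h3 : max k R₀ = k := max_eq_left (by omega)
    rw [h3]
    have h4 := tth5_al0 h (R := k) (by omega)
    have h5 : 0 ≤ C * al L R₀ k := by positivity
    linarith
  · exact h.small le_rfl (by rcases le_total k R₀ with h' | h'
                             · rw [max_eq_right h']; omega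
                             · rw [max_eq_left h']; omega)

/-- BULK FACTOR beyond the correlation length, for every radius `m` with `ℓ ≤ 4 m` and `16 ≤ m` (the `4` allows `m = k - 1`, `2 k ≥ ℓ`).
If `ℓ ≤ m`: `LBKOK` (if `R₀ < m`; if `m = ℓ = R₀` then `atF = 1 = al L R₀ ℓ` and the ratio is `1`).
If `m < ℓ` and `R₀ < m`: `pr2 ≤ pr ≤ C al L R₀ ℓ` (`cmp` with `R' = ℓ ≤ 4 m`) and `(ℓ / m) ^ (2 + c) ≥ 1`.
If `m < ℓ`, `m ≤ R₀`: `atF = 1 ≤ 4096 C al L R₀ ℓ` (`small`, `ℓ ≤ 4 m ≤ 4 R₀`) and `(ℓ / m) ^ (2 + c) ≥ 1`. -/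
theorem atF_beyond (h : HProps L C R₀) {Cb c : ℝ} (hb : LBKOK L Cb c R₀) (hc : 0 < c)
    (hCb : 0 ≤ Cb) {ℓ m : ℤ} {s : ℝ} (hℓ : R₀ ≤ ℓ) (hB : Beyond L R₀ ℓ s) (b : Bool) (y : Pt)
    (hm : ℓ ≤ 4 * m) (hm1 : 1 ≤ m) :
    atF L s b y R₀ m ≤ (Cb + 4096 * C) * (al L R₀ ℓ * ((ℓ : ℝ) / m) ^ (2 + c)) := by
  have hC := h.ap.C1
  have hR : (16 : ℤ) ≤ R₀ := h.ap.R16
  have hal := tth5_al0 h hℓ
  have hs := Beyond.pos hB hal.le
  have hm0 : (0 : ℝ) < m := by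
    have : (0 : ℤ) < m := by omega
    exact_mod_cast this
  have hl0 : (0 : ℝ) < ℓ := by
    have : (0 : ℤ) < ℓ := by omega
    exact_mod_cast this
  have hrat : 0 ≤ ((ℓ : ℝ) / m) ^ (2 + c) := by positivity
  have hX : 0 ≤ al L R₀ ℓ * ((ℓ : ℝ) / m) ^ (2 + c) := by positivity
  have hCX : 0 ≤ C * (al L R₀ ℓ * ((ℓ : ℝ) / m) ^ (2 + c)) := by positivity
  have hCbX : 0 ≤ Cb * (al L R₀ ℓ * ((ℓ : ℝ) / m) ^ (2 + c)) := by positivity
  -- it suffices to bound by one of the two parts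
  have key1 : ∀ z : ℝ, z ≤ Cb * (al L R₀ ℓ * ((ℓ : ℝ) / m) ^ (2 + c)) →
      z ≤ (Cb + 4096 * C) * (al L R₀ ℓ * ((ℓ : ℝ) / m) ^ (2 + c)) := by
    intro z hz
    calc z ≤ Cb * (al L R₀ ℓ * ((ℓ : ℝ) / m) ^ (2 + c)) := hz
      _ ≤ Cb * (al L R₀ ℓ * ((ℓ : ℝ) / m) ^ (2 + c)) +
          4096 * (C * (al L R₀ ℓ * ((ℓ : ℝ) / m) ^ (2 + c))) := by linarith
      _ = _ := by ring
  have key2 : ∀ z : ℝ, 1 ≤ ((ℓ : ℝ) / m) ^ (2 + c) → z ≤ 4096 * C * al L R₀ ℓ →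
      z ≤ (Cb + 4096 * C) * (al L R₀ ℓ * ((ℓ : ℝ) / m) ^ (2 + c)) := by
    intro z h1 hz
    have h2 : 4096 * C * al L R₀ ℓ ≤ 4096 * C * al L R₀ ℓ * ((ℓ : ℝ) / m) ^ (2 + c) :=
      le_mul_of_one_le_right (by positivity) h1
    calc z ≤ 4096 * C * al L R₀ ℓ := hz
      _ ≤ 4096 * C * al L R₀ ℓ * ((ℓ : ℝ) / m) ^ (2 + c) := h2
      _ = 4096 * (C * (al L R₀ ℓ * ((ℓ : ℝ) / m) ^ (2 + c))) := by ring
      _ ≤ Cb * (al L R₀ ℓ * ((ℓ : ℝ) / m) ^ (2 + c)) +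
          4096 * (C * (al L R₀ ℓ * ((ℓ : ℝ) / m) ^ (2 + c))) := by linarith
      _ = _ := by ring
  rcases le_or_gt ℓ m with hlm | hlm
  · rcases lt_or_ge R₀ m with hRm | hRm
    · apply key1
      unfold atF
      rw [if_pos hRm]
      exact hb ℓ s hℓ hB b y m hlm
    · apply key2
      · exact tth5_ratio (by omega) (by omega) (by linarith)
      · unfold atF
        rw [if_neg (not_lt.2 hRm)]
        exact h.small le_rfl (by omega)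
  · apply key2
    · exact tth5_ratio (by omega) hlm.le (by linarith)
    · unfold atF
      split_ifs with hk
      · have h1 : pr2 (kt s) (L.TwoAt b y R₀ m) ≤ pr (L.TwoAt b y R₀ m) :=
          pr2_le_pr (TwoAt_loc _ _ _ _ _) (tth5_kap hs.le)
        have h2 := h.ap.cmp b y R₀ m R₀ ℓ le_rfl le_rfl hk.le (by omega) (by omega) (by omega)
        have h5 : 0 ≤ C * al L R₀ ℓ := by positivity
        linarith
      · exact h.small le_rfl (by omega)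

/-- HALF PLANE FACTOR, STATIC: `pr2 ≤ pr` and `HProps.half`; if the annulus is empty then `al = 1`, `C ≥ 1`. -/
theorem hfF_static (h : HProps L C R₀) {s : ℝ} (hs : 0 ≤ s) (σ : ℤ) (x : Pt) (b : Bool)
    {H : Set Pt} (hH : HalfLike H) {r R : ℤ} (hr : R₀ ≤ r) :
    hfF ((L.rots σ).shift x) s b H r R ≤ C * (al L r R) ^ ((3 : ℝ) / 4) := by
  have hC := h.ap.C1
  unfold hfF
  split_ifs with hk
  · exact (pr2_le_pr (tth5_locH _ _ _ _ _) (tth5_kap hs)).trans (h.half σ x b H r R hH hr hk.le)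
  · have h1 : al L r R = 1 := by
      unfold al
      rw [if_neg hk]
    rw [h1, Real.one_rpow]
    linarith

/-- HALF PLANE FACTOR beyond the correlation length: `KBHOK`; if `r = R` both sides are `≥ 1`. -/
theorem hfF_beyond {Ch c : ℝ} (hh : KBHOK L Ch c R₀) (hR : 1 ≤ R₀) (hCh : 1 ≤ Ch) {ℓ : ℤ} {s : ℝ}
    (hℓ : R₀ ≤ ℓ) (hB : Beyond L R₀ ℓ s) (σ : ℤ) (x : Pt) (b : Bool)
    {H : Set Pt} (hH : HalfLike H) {r R : ℤ} (hr : ℓ ≤ r) (hrR : r ≤ R) :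
    hfF ((L.rots σ).shift x) s b H r R ≤ Ch * ((r : ℝ) / R) ^ (1 + c) := by
  unfold hfF
  split_ifs with hk
  · exact hh ℓ s hℓ hB σ b x H r R hH hr hrR
  · have h1 : r = R := by omega
    subst h1
    have h2 : (0 : ℝ) < r := by
      have : (0 : ℤ) < r := by omega
      exact_mod_cast this
    rw [div_self h2.ne', Real.one_rpow]
    linarith

/-- the exponents may be decreased (`r / R ≤ 1`) -/
theorem KBHOK.mono {Ch Ch' c c' : ℝ} (hh : KBHOK L Ch c R₀) (hR : 1 ≤ R₀) (hC : Ch ≤ Ch')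
    (h0 : 0 ≤ Ch) (hc : c' ≤ c) (h1 : 0 ≤ 1 + c') : KBHOK L Ch' c' R₀ := by
  intro ℓ t hℓ hB s b x H r R hH hr hrR
  have h2 : (0 : ℝ) < r := by
    have : (0 : ℤ) < r := by omega
    exact_mod_cast this
  have h3 : (0 : ℝ) < R := by
    have : (0 : ℤ) < R := by omega
    exact_mod_cast this
  have h4 : (r : ℝ) / R ≤ 1 := by
    rw [div_le_one h3]
    exact_mod_cast hrR
  have h5 : ((r : ℝ) / R) ^ (1 + c) ≤ ((r : ℝ) / R) ^ (1 + c') :=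
    Real.rpow_le_rpow_of_exponent_ge (by positivity) h4 (by linarith)
  calc _ ≤ Ch * ((r : ℝ) / R) ^ (1 + c) := hh ℓ t hℓ hB s b x H r R hH hr hrR
    _ ≤ Ch' * ((r : ℝ) / R) ^ (1 + c') :=
      mul_le_mul hC h5 (by positivity) (h0.trans hC)

theorem LBKOK.mono {Cb Cb' c c' : ℝ} (hb : LBKOK L Cb c R₀) (hR : 1 ≤ R₀) (hC : Cb ≤ Cb')
    (h0 : 0 ≤ Cb) (hc : c' ≤ c) (h1 : 0 ≤ 2 + c')
    (hal : ∀ ℓ, R₀ ≤ ℓ → 0 ≤ al L R₀ ℓ) : LBKOK L Cb' c' R₀ := by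
  intro ℓ s hℓ hB b y d hd
  have h2 : (0 : ℝ) < ℓ := by
    have : (0 : ℤ) < ℓ := by omega
    exact_mod_cast this
  have h3 : (0 : ℝ) < d := by
    have : (0 : ℤ) < d := by omega
    exact_mod_cast this
  have h4 : (ℓ : ℝ) / d ≤ 1 := by
    rw [div_le_one h3]
    exact_mod_cast hd
  have h5 : ((ℓ : ℝ) / d) ^ (2 + c) ≤ ((ℓ : ℝ) / d) ^ (2 + c') :=
    Real.rpow_le_rpow_of_exponent_ge (by positivity) h4 (by linarith)
  have h6 := hal ℓ hℓ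
  calc _ ≤ Cb * (al L R₀ ℓ * ((ℓ : ℝ) / d) ^ (2 + c)) := hb ℓ s hℓ hB b y d hd
    _ ≤ Cb' * (al L R₀ ℓ * ((ℓ : ℝ) / d) ^ (2 + c')) :=
      mul_le_mul hC (mul_le_mul_of_nonneg_left h5 h6) (by positivity) (h0.trans hC)

end SC
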