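import Pool.Agent.Lib_MP_e0a489.HL3
import Pool.Agent.Lib_MP_e0a489.TP2
import Pool.Agent.Lib_MP_e0a489.TP8
import Pool.Agent.Lib_MP_e0a489.TTH5

/-!
# MP_e0a489, module TP 9: four arm probability down to the innermost radius
-/

set_option autoImplicit false

namespace SC

variable [IfL]

open Classical

/-- Let `ξ` be the core configuration of `hc` for the radius `m`; the event `A` that `ω v = ξ v` for `v ∈ bx m`, `v ≠ 0`, depends on the finite set `bx m` and has positive probability (`pr_pos`).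
`S4 (2m) R` depends on `{v | m < nrm v ∧ nrm v ≤ 2R}` (`S4.dep`), so `pr (S4 ∧ A) = pr S4 * pr A` (`pr_and`), and `S4 ∧ A → TwoA true 0 (2R)` (`S4_core`).
`pr (TwoA true (2m) R) ≤ C pr (S4 (2m) R)`: `sep2` with `k = 1` (`pr2_one`, `pr2_le_pr`, `kz_kap`), if `2m ≥` the constant `R₀` of `sep2`. -/
theorem core_lower {L : Lat} {κ : ℕ → ℝ} (h : RSW L κ) (hc : ∀ m : ℤ, 8 ≤ m → CoreOK L m) :
    ∃ m₀ : ℤ, 8 ≤ m₀ ∧ ∀ m, m₀ ≤ m → ∃ C : ℝ, 0 < C ∧ ∀ R, 2 * m ≤ R →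
      pr (L.TwoA true (2 * m) R) ≤ C * pr (L.TwoA true 0 (2 * R)) := by
  obtain ⟨C₀, R₀, hC₀, hR₀, H⟩ := sep2 κ
  refine ⟨R₀, by omega, ?_⟩
  intro m hm
  obtain ⟨h0, ξ, hξ⟩ := hc m (by omega)
  obtain ⟨F, hF⟩ : ∃ F : Finset Pt, (F : Set Pt) = bx m := by
    have h1 : (bx m).Finite := by
      obtain ⟨G, hG⟩ := exists_annF (-1) m
      refine G.finite_toSet.subset fun v hv => (hG v).2 ?_
      have h2 : nrm v ≤ m := hv
      have h3 : 0 ≤ nrm v := XP.nrm_nonneg' v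
      exact ⟨by omega, h2⟩
    exact ⟨h1.toFinset, h1.coe_toFinset⟩
  have hA : Dep (fun ω : Cfg => ∀ v ∈ bx m, v ≠ 0 → ω v = ξ v) (F : Set Pt) := by
    intro ω ω' h1
    rw [hF] at h1
    apply propext
    constructor
    · intro h2 v hv hv0
      rw [← h1 v hv]
      exact h2 v hv hv0
    · intro h2 v hv hv0
      rw [h1 v hv]
      exact h2 v hv hv0
  have hpos : 0 < pr (fun ω : Cfg => ∀ v ∈ bx m, v ≠ 0 → ω v = ξ v) :=
    lt_of_lt_of_le (by positivity) (pr_pos hA (ω := ξ) (fun v _ _ => rfl))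
  refine ⟨C₀ / pr (fun ω : Cfg => ∀ v ∈ bx m, v ≠ 0 → ω v = ξ v), div_pos hC₀ hpos, ?_⟩
  intro R hR
  have h1 := H L h (fun _ => 1) (fun _ => ⟨zero_le_one, le_refl _⟩) true (2 * m) R (by omega) hR
  rw [pr2_one (Lat.TwoA.loc L true (2 * m) R)] at h1
  have h2 : pr2 (kz (fun _ => 1) (2 * m) R) (L.S4 (2 * m) R) ≤ pr (L.S4 (2 * m) R) :=
    pr2_le_pr (Lat.S4.loc L (2 * m) R) (kz_kap (fun _ => ⟨zero_le_one, le_refl _⟩) _ _)
  have h3 : pr (fun ω => L.S4 (2 * m) R ω ∧ ∀ v ∈ bx m, v ≠ 0 → ω v = ξ v) =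
      pr (L.S4 (2 * m) R) * pr (fun ω : Cfg => ∀ v ∈ bx m, v ≠ 0 → ω v = ξ v) := by
    refine pr_and (Lat.S4.loc L (2 * m) R) ⟨F, hA⟩ (Lat.S4.dep L (by omega) hR) hA ?_
    intro v hv hv'
    rw [hF] at hv'
    have h4 : 2 * m / 2 < nrm v := hv.1
    have h5 : nrm v ≤ m := hv'
    omega
  have h4 : pr (fun ω => L.S4 (2 * m) R ω ∧ ∀ v ∈ bx m, v ≠ 0 → ω v = ξ v) ≤
      pr (L.TwoA true 0 (2 * R)) := by
    refine pr_mono ((Lat.S4.loc L (2 * m) R).and ⟨F, hA⟩) (Lat.TwoA.loc L true 0 (2 * R)) ?_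
    rintro ω ⟨h5, h6⟩
    exact Lat.S4_core (by omega) hR h5 (hξ ω h6)
  rw [h3] at h4
  have h5 : pr (L.S4 (2 * m) R) ≤ pr (L.TwoA true 0 (2 * R)) /
      pr (fun ω : Cfg => ∀ v ∈ bx m, v ≠ 0 → ω v = ξ v) := by
    rw [le_div_iff₀ hpos]
    exact h4
  calc pr (L.TwoA true (2 * m) R) ≤ C₀ * pr2 (kz (fun _ => 1) (2 * m) R) (L.S4 (2 * m) R) := h1
    _ ≤ C₀ * (pr (L.TwoA true 0 (2 * R)) /
      pr (fun ω : Cfg => ∀ v ∈ bx m, v ≠ 0 → ω v = ξ v)) :=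
        mul_le_mul_of_nonneg_left (h2.trans h5) hC₀.le
    _ = _ := by ring

/-- Inclusion of events: four arms from `x₀` to distance `R'` imply four arms from `bx i` to `rng R`.  In `L`, the event `TwoAt true x₀ 0 R'` is
`Two true {v | 0 < nrm (v - x₀) ∧ nrm (v - x₀) ≤ R'} (nb {x₀}) {v | nrm (v - x₀) = R'} ω` (`Tr.two` for `tr_shift`, `Tr.nb`); `Two.trunc` with `B = bx R`, `I = bx i`
(`x₀ ∈ I`; for `i = 0` this means `x₀ = 0`); the new ends have norm `R` (`Adj.near`) and `bx R \ bx i = ann i R`. -/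
theorem twoAt_inner {L : Lat} {x₀ : Pt} {i R R' : ℤ} (hx : nrm x₀ ≤ i) (hi : i ≤ 1) (hR : 2 ≤ R)
    (hR' : R + 2 ≤ R') {ω : Cfg} (h : L.TwoAt true x₀ 0 R' ω) : L.TwoA true i R ω := by
  rw [TwoAt_iff] at h
  have hx0 : 0 ≤ nrm x₀ := XP.nrm_nonneg' x₀
  have key : ∀ v : Pt, nrm (v - x₀) ≤ nrm v + nrm x₀ ∧ nrm v ≤ nrm (v - x₀) + nrm x₀ := by
    intro v
    constructor
    · have h1 := XP.nrm_tri v 0 x₀
      rw [sub_zero, XP.nrm_comm 0 x₀, sub_zero] at h1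
      exact h1
    · have h1 := XP.nrm_add (v - x₀) x₀
      rw [sub_add_cancel] at h1
      exact h1
  have hadj : ∀ u v : Pt, L.Adj u v → nrm u ≤ nrm v + 1 ∧ nrm v ≤ nrm u + 1 := by
    intro u v huv
    have h1 := abs_le.1 (XP.adj_nrm huv 0)
    rw [sub_zero, sub_zero] at h1
    constructor <;> omega
  have ht := Lat.Two.trunc (B := bx R) (I := bx i) (D := {v | 0 < nrm (v - x₀) ∧ nrm (v - x₀) ≤ R'})
    (X := L.nb {v | nrm (v - x₀) ≤ 0}) (Y := {v | nrm (v - x₀) = R'})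
    (fun u hu v huv => by
      have h1 : nrm u ≤ i := hu
      have h2 := (hadj u v huv).2
      show nrm v ≤ R
      omega)
    (fun v hv => by
      have h1 : nrm v ≤ R := hv.1
      have h2 : ¬ nrm v ≤ i := hv.2
      have h3 := key v
      show 0 < nrm (v - x₀) ∧ nrm (v - x₀) ≤ R'
      constructor <;> omega)
    (fun x hxx _ => by
      obtain ⟨u, hu, hux⟩ := hxx
      have h1 : nrm (u - x₀) ≤ 0 := hu
      have h2 := (key u).2
      have h3 := hadj u x hux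
      refine ⟨?_, fun _ => ⟨u, ?_, hux⟩⟩
      · show nrm x ≤ R
        omega
      · show nrm u ≤ i
        omega)
    (fun y hy => by
      have h1 : nrm (y - x₀) = R' := hy
      have h2 := key y
      show ¬ nrm y ≤ R
      omega) h
  obtain ⟨x, hx1, y, hy1, x', hx1', y', hy1', g1, g2, g3⟩ := ht
  have e1 : bx R \ bx i = ann i R := by
    ext v
    constructor
    · rintro ⟨a, b⟩
      exact ⟨not_le.1 b, a⟩
    · rintro ⟨a, b⟩
      exact ⟨b, not_le.2 a⟩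
  rw [e1] at g1 g2 g3
  have e2 : ∀ v : Pt, (v ∈ bx R ∧ ∃ u, L.Adj v u ∧ u ∉ bx R) → v ∈ rng R := by
    rintro v ⟨a, u, b, c⟩
    have h1 : nrm v ≤ R := a
    have h2 : ¬ nrm u ≤ R := c
    have h3 := hadj v u b
    show nrm v = R
    omega
  exact ⟨x, hx1, y, e2 y hy1, x', hx1', y', e2 y' hy1', g1, g2, g3⟩

/-- INNER ESTIMATE.  `R₂` = maximum of 16, `2 m₀` (`core_lower` for `L.shift x₀`, `RSW.shift`) and the constant of `cmp2`.  Given `R₁ ≥ R₂` put `m = (R₁ + 1) / 2`, so `R₁ ≤ 2m ≤ R₁ + 1`.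
For `R > R₁`: `al L R₁ R = pr (TwoA true R₁ R) ≤ C pr (TwoAt true x₀ (2m) (R + 2))` (`cmp2` with `k = 1`, `pr2_one`; `2m < R + 2`), `= C pr ((L.shift x₀).TwoA true (2m) (R + 2))` (`pr_via`, `TwoAt`),
`≤ C' pr ((L.shift x₀).TwoA true 0 (2 (R + 2)))` (`core_lower`), `≤ C' pr (TwoA true i R)` (`pr_via`, `twoAt_inner`, `pr_mono`), `= C' al L i R`.
For `R = R₁`: `al L R₁ R₁ = 1` and `al L i R₁ ≥ al L i (R₁ + 1) ≥ al L R₁ (R₁ + 1) / C' > 0` (`al_props`: `mono`, `pos`; take `R₂ ≥` its `R₀`). -/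
theorem inner_al {L : Lat} {κ : ℕ → ℝ} (h : Fam L κ) {x₀ : Pt} {i : ℤ} (hx : nrm x₀ ≤ i)
    (hi : i ≤ 1) (hc : ∀ m : ℤ, 8 ≤ m → CoreOK (L.shift x₀) m) :
    ∃ R₂ : ℤ, ∀ R₁, R₂ ≤ R₁ → ∃ C : ℝ, 0 < C ∧ ∀ R, R₁ ≤ R → al L R₁ R ≤ C * al L i R := by
  have hx0 : 0 ≤ nrm x₀ := XP.nrm_nonneg' x₀
  obtain ⟨m₀, hm₀, H⟩ := core_lower (h.rsw.shift x₀) hc
  obtain ⟨Cc, Rc, hCc, hRc, Hc⟩ := cmp2 κ
  obtain ⟨Ca, Ra, Ha⟩ := al_props κ
  have hal := Ha L h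
  refine ⟨max (max 16 (2 * m₀)) (max Rc Ra), ?_⟩
  intro R₁ hR₁
  have r1 : 16 ≤ R₁ := (le_max_left _ _).trans ((le_max_left _ _).trans hR₁)
  have r2 : 2 * m₀ ≤ R₁ := (le_max_right _ _).trans ((le_max_left _ _).trans hR₁)
  have r3 : Rc ≤ R₁ := (le_max_left _ _).trans ((le_max_right _ _).trans hR₁)
  have r4 : Ra ≤ R₁ := (le_max_right _ _).trans ((le_max_right _ _).trans hR₁)
  obtain ⟨m, hm1, hm2⟩ : ∃ m : ℤ, R₁ ≤ 2 * m ∧ 2 * m ≤ R₁ + 1 := ⟨(R₁ + 1) / 2, by omega, by omega⟩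
  obtain ⟨C₁, hC₁, H₁⟩ := H m (by omega)
  have hCC : 0 < Cc * C₁ := mul_pos hCc hC₁
  have hloc : ∀ (x : Pt) (r R : ℤ), pr (L.TwoAt true x r R) = pr ((L.shift x).TwoA true r R) :=
    fun x r R => pr_via (Lat.TwoA.loc (L.shift x) true r R) (Equiv.addRight x)
  have main : ∀ R, R₁ < R → al L R₁ R ≤ Cc * C₁ * al L i R := by
    intro R hR
    have a1 := Hc L h.rsw (fun _ => 1) (fun _ => ⟨zero_le_one, le_refl _⟩) true true x₀ R₁ R (2 * m)
      (R + 2) r3 (by omega) hR.le (by omega) (by omega) (by omega) (by omega)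
    rw [pr2_one (Lat.TwoA.loc L true R₁ R), pr2_one (TwoAt_loc L true x₀ (2 * m) (R + 2)),
      hloc] at a1
    have a2 := H₁ (R + 2) (by omega)
    rw [← hloc] at a2
    rw [← hloc] at a1
    have a3 : pr (L.TwoAt true x₀ 0 (2 * (R + 2))) ≤ pr (L.TwoA true i R) := by
      refine pr_mono (TwoAt_loc L true x₀ 0 (2 * (R + 2))) (Lat.TwoA.loc L true i R) ?_
      intro ω hω
      exact twoAt_inner hx hi (by omega) (by omega) hω
    have e1 : al L R₁ R = pr (L.TwoA true R₁ R) := by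
      unfold al
      rw [if_pos hR]
    have e2 : al L i R = pr (L.TwoA true i R) := by
      unfold al
      rw [if_pos (by omega)]
    rw [e1, e2]
    rw [← hloc] at a2
    calc pr (L.TwoA true R₁ R) ≤ Cc * pr (L.TwoAt true x₀ (2 * m) (R + 2)) := a1
      _ ≤ Cc * (C₁ * pr (L.TwoAt true x₀ 0 (2 * (R + 2)))) := mul_le_mul_of_nonneg_left a2 hCc.le
      _ ≤ Cc * (C₁ * pr (L.TwoA true i R)) :=
          mul_le_mul_of_nonneg_left (mul_le_mul_of_nonneg_left a3 hC₁.le) hCc.le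
      _ = _ := by ring
  have b1 : 0 < al L R₁ (R₁ + 1) := hal.pos R₁ (R₁ + 1) r4 (by omega)
  have b2 := main (R₁ + 1) (by omega)
  have b3 : al L i (R₁ + 1) ≤ al L i R₁ := hal.mono i R₁ i (R₁ + 1) (by omega) le_rfl (by omega)
    (by omega)
  refine ⟨max (Cc * C₁) (Cc * C₁ / al L R₁ (R₁ + 1)), lt_max_of_lt_left hCC, ?_⟩
  intro R hR
  rcases lt_or_eq_of_le hR with h1 | h1
  · refine (main R h1).trans (mul_le_mul_of_nonneg_right (le_max_left _ _) ?_)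
    unfold al
    split_ifs
    · exact pr_nonneg _
    · exact zero_le_one
  · rw [← h1]
    have c1 : al L R₁ R₁ = 1 := by
      unfold al
      rw [if_neg (lt_irrefl _)]
    have c2 : al L R₁ (R₁ + 1) ≤ Cc * C₁ * al L i R₁ :=
      b2.trans (mul_le_mul_of_nonneg_left b3 hCC.le)
    have c3 : 1 ≤ Cc * C₁ / al L R₁ (R₁ + 1) * al L i R₁ := by
      rw [div_mul_eq_mul_div, le_div_iff₀ b1, one_mul]
      exact c2
    have c4 : 0 ≤ al L i R₁ := by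
      unfold al
      split_ifs
      · exact pr_nonneg _
      · exact zero_le_one
    rw [c1]
    exact c3.trans (mul_le_mul_of_nonneg_right (le_max_right _ _) c4)

end SC
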