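import Pool.Agent.Lib_MP_e0a489.IfX
import Pool.Agent.Lib_MP_e0a489.TP9

/-!
# MP_e0a489, module TP 10: the properties of `al` used in the final step
-/

set_option autoImplicit false

namespace SC

variable [IfL] [IfX]

open Classical

/-- All constants are collected in `K`; `i` is the innermost radius (`1` for the square lattice, `0` for the triangular
lattice), `R₁` is a fixed large radius. -/
structure AlT (L : Lat) (i R₁ : ℤ) (K : ℝ) : Prop where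
  K1 : 1 ≤ K
  R16 : 16 ≤ R₁
  i0 : 0 ≤ i
  i1 : i ≤ 1
  nonneg : ∀ r R, 0 ≤ al L r R
  le1 : ∀ r R, al L r R ≤ 1
  mono : ∀ r R r' R', 0 ≤ r' → r' ≤ r → r ≤ R → R ≤ R' → al L r' R' ≤ al L r R
  cmp : ∀ r R r' R', R₁ ≤ r → R₁ ≤ r' → r ≤ R → r ≤ 2 * r' → r' ≤ R' → R' ≤ 16 * R →
    al L r R ≤ K * al L r' R'
  low : ∀ r R : ℤ, R₁ ≤ r → r ≤ R → ((r : ℝ) / R) ^ 2 ≤ K * al L r R
  inner : ∀ R, R₁ ≤ R → al L R₁ R ≤ K * al L i R

/-- `TwoAt c 0 r R ω ↔ TwoA c r R ω` (`L.shift 0 = L`, `via (Equiv.addRight 0) ω = ω`) -/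
theorem twoAt_zero (L : Lat) (c : Bool) (r R : ℤ) (ω : Cfg) :
    L.TwoAt c 0 r R ω ↔ L.TwoA c r R ω := by
  have h1 : L.shift 0 = L := by
    cases L with
    | mk ne typ =>
      unfold Lat.shift
      simp
  have h2 : via (Equiv.addRight (0 : Pt)) ω = ω := by
    funext v
    show ω (v + 0) = ω v
    rw [add_zero]
  unfold Lat.TwoAt
  rw [h1, h2]

private theorem tp10_nonneg (L : Lat) (r R : ℤ) : 0 ≤ al L r R := by
  unfold al
  split_ifs
  · exact pr_nonneg _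
  · norm_num

/-- lower bound for annuli of ratio at most `8` -/
private theorem tp10_lo {L : Lat} {C' c : ℝ} {R₀' : ℤ} (h16 : 0 < R₀') (_hc0 : 0 < c)
    (hc : c ≤ 1 / 2)
    (hl : ∀ r R : ℤ, R₀' ≤ r → r ≤ R → ((r : ℝ) / R) ^ (2 - c) ≤ C' * al L r R)
    {r R : ℤ} (h1 : R₀' ≤ r) (h2 : r ≤ R) (h3 : R ≤ 8 * r) : 1 ≤ 64 * C' * al L r R := by
  have hr : (0 : ℝ) < (r : ℝ) := by
    have : 0 < r := by omega
    exact_mod_cast this
  have hR : (0 : ℝ) < (R : ℝ) := by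
    have : 0 < R := by omega
    exact_mod_cast this
  have h3' : (R : ℝ) ≤ 8 * (r : ℝ) := by exact_mod_cast h3
  have h2' : (r : ℝ) ≤ (R : ℝ) := by exact_mod_cast h2
  have q0 : (1 : ℝ) / 8 ≤ (r : ℝ) / R := by
    rw [div_le_div_iff₀ (by norm_num) hR]
    linarith
  have q1 : (r : ℝ) / R ≤ 1 := by
    rw [div_le_one hR]
    exact h2'
  have e1 : ((r : ℝ) / R) ^ (2 : ℝ) ≤ ((r : ℝ) / R) ^ (2 - c) :=
    Real.rpow_le_rpow_of_exponent_ge (div_pos hr hR) q1 (by linarith)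
  have e2 : ((r : ℝ) / R) ^ (2 : ℝ) = ((r : ℝ) / R) ^ (2 : ℕ) := by
    rw [← Real.rpow_natCast]
    norm_num
  have e3 : ((1 : ℝ) / 8) ^ (2 : ℕ) ≤ ((r : ℝ) / R) ^ (2 : ℕ) :=
    pow_le_pow_left₀ (by norm_num) q0 2
  have e4 := hl r R h1 h2
  have e5 : ((1 : ℝ) / 8) ^ (2 : ℕ) = 1 / 64 := by norm_num
  rw [e2] at e1
  rw [e5] at e3
  linarith

/-- Comparison with bounded factors from `AlProps.cmp`, `pos`, `le1` and the lower bound `hl`.
First `R' ≤ 4 R`.  If `r < R`: `al L r R = pr (TwoAt true 0 r R) ≤ C al L r' R'`.  If `r = R`: `al L r R = 1` and `r' ≤ R' ≤ 4 r ≤ 8 r'`, so `al L r' R' ≥ (1/8)^2 / C'` by `hl`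
(`(r'/R')^(2-c) ≥ (1/8)^(2-c) ≥ 1/64`).  General case `R' ≤ 16 R`: if `4 R < r'` then `R' ≤ 16 R < 4 r'`, so `al L r' R' ≥ (1/4)^2 / C'` by `hl`, and `al L r R ≤ 1`.  If `r' ≤ 4 R` put `M = min R' (4 R)`
(`r' ≤ M`) and use the first case twice: `al L r R ≤ K₁ al L r' M`, `al L r' M ≤ K₁ al L r' R'` (`R' ≤ 4 M`). -/
theorem cmp16 {L : Lat} {C C' c : ℝ} {R₀ R₀' R₁ : ℤ} (h : AlProps L C R₀) (hc0 : 0 < c)
    (hc : c ≤ 1 / 2) (hC' : 0 < C')
    (hl : ∀ r R : ℤ, R₀' ≤ r → r ≤ R → ((r : ℝ) / R) ^ (2 - c) ≤ C' * al L r R)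
    (h1 : R₀ ≤ R₁) (h2 : R₀' ≤ R₁) :
    ∃ K : ℝ, 1 ≤ K ∧ ∀ r R r' R', R₁ ≤ r → R₁ ≤ r' → r ≤ R → r ≤ 2 * r' → r' ≤ R' →
      R' ≤ 16 * R → al L r R ≤ K * al L r' R' := by
  have h16 := h.R16
  have hC1 := h.C1
  -- lower bound, thresholds
  have hl' : ∀ r R : ℤ, R₁ ≤ r → r ≤ R → ((r : ℝ) / R) ^ (2 - c) ≤ C' * al L r R :=
    fun r R a b => hl r R (le_trans h2 a) b
  have hlo : ∀ {r R : ℤ}, R₁ ≤ r → r ≤ R → R ≤ 8 * r → 1 ≤ 64 * C' * al L r R :=
    fun a b d => tp10_lo (by omega) hc0 hc hl' a b d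
  set K₁ : ℝ := max C (64 * C') with hK₁
  have k1 : C ≤ K₁ := le_max_left _ _
  have k2 : 64 * C' ≤ K₁ := le_max_right _ _
  have k3 : 1 ≤ K₁ := le_trans hC1 k1
  -- first case
  have first : ∀ r R r' R', R₁ ≤ r → R₁ ≤ r' → r ≤ R → r ≤ 2 * r' → r' ≤ R' → R' ≤ 4 * R →
      al L r R ≤ K₁ * al L r' R' := by
    intro r R r' R' a1 a2 a3 a4 a5 a6
    have n := tp10_nonneg L r' R'
    rcases lt_or_eq_of_le a3 with a | a
    · have e1 : al L r R = pr (L.TwoA true r R) := by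
        unfold al
        rw [if_pos a]
      have e2 : L.TwoAt true 0 r R = L.TwoA true r R :=
        funext fun ω => propext (twoAt_zero L true r R ω)
      have e3 := h.cmp true 0 r R r' R' (by omega) (by omega) a3 a4 a5 a6
      rw [e1, ← e2]
      exact le_trans e3 (mul_le_mul_of_nonneg_right k1 n)
    · have e1 := hlo a2 a5 (by omega)
      have e2 := h.le1 r R
      have e3 := mul_le_mul_of_nonneg_right k2 n
      linarith
  refine ⟨K₁ * K₁, by nlinarith, ?_⟩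
  intro r R r' R' a1 a2 a3 a4 a5 a6
  have n := tp10_nonneg L r' R'
  have k4 : K₁ ≤ K₁ * K₁ := by nlinarith
  rcases lt_or_ge (4 * R) r' with a | a
  · have e1 := hlo a2 a5 (by omega)
    have e2 := h.le1 r R
    have e3 := mul_le_mul_of_nonneg_right (le_trans k2 k4) n
    linarith
  · have b1 := first r R r' (min R' (4 * R)) a1 a2 a3 a4 (le_min a5 a) (min_le_right _ _)
    have b2 : al L r' (min R' (4 * R)) ≤ K₁ * al L r' R' := by
      refine first r' (min R' (4 * R)) r' R' a2 a2 (le_min a5 a) (by omega) a5 ?_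
      rcases le_total R' (4 * R) with d | d
      · rw [min_eq_left d]
        omega
      · rw [min_eq_right d]
        omega
    calc al L r R ≤ K₁ * al L r' (min R' (4 * R)) := b1
      _ ≤ K₁ * (K₁ * al L r' R') := mul_le_mul_of_nonneg_left b2 (by linarith)
      _ = K₁ * K₁ * al L r' R' := by ring

/-- `al_props`, `al_lower` (`(r/R)^2 ≤ (r/R)^(2-c)` as `0 < r/R ≤ 1`: `Real.rpow_le_rpow_of_exponent_ge`, `Real.rpow_natCast`), `cmp16`, `inner_al`; `nonneg` from `pr_nonneg`; `0 ≤ i` because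
`0 ≤ nrm x₀ ≤ i`.  `R₂` = maximum of 16 and all the thresholds, `K` = maximum of `1` and all the constants. -/
theorem alT_exists {L : Lat} {κ : ℕ → ℝ} (h : Fam L κ) {x₀ : Pt} {i : ℤ} (hx : nrm x₀ ≤ i)
    (hi : i ≤ 1) (hc : ∀ m : ℤ, 8 ≤ m → CoreOK (L.shift x₀) m) :
    ∃ R₂ : ℤ, ∀ R₁, R₂ ≤ R₁ → ∃ K : ℝ, AlT L i R₁ K := by
  obtain ⟨C, R₀, hP⟩ := al_props κ
  have hp := hP L h
  obtain ⟨C', c, R₀', hC', hc0, hc1, h16', hl⟩ := al_lower h
  obtain ⟨R₂, hin⟩ := inner_al h hx hi hc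
  refine ⟨max R₀ (max R₀' (max R₂ 16)), fun R₁ hR₁ => ?_⟩
  have t1 : R₀ ≤ R₁ := le_trans (le_max_left _ _) hR₁
  have t2 : R₀' ≤ R₁ := le_trans (le_trans (le_max_left _ _) (le_max_right _ _)) hR₁
  have t3 : R₂ ≤ R₁ :=
    le_trans (le_trans (le_trans (le_max_left _ _) (le_max_right _ _)) (le_max_right _ _)) hR₁
  have t4 : 16 ≤ R₁ :=
    le_trans (le_trans (le_trans (le_max_right _ _) (le_max_right _ _)) (le_max_right _ _)) hR₁
  obtain ⟨C₂, hC₂, hin'⟩ := hin R₁ t3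
  obtain ⟨K, hK, hcmp⟩ := cmp16 hp hc0 hc1 hC' hl t1 t2
  have hn := tp10_nonneg L
  have m1 : K ≤ max K (max C' C₂) := le_max_left _ _
  have m2 : C' ≤ max K (max C' C₂) := le_trans (le_max_left _ _) (le_max_right _ _)
  have m3 : C₂ ≤ max K (max C' C₂) := le_trans (le_max_right _ _) (le_max_right _ _)
  refine ⟨max K (max C' C₂), ?_⟩
  refine
    { K1 := le_trans hK m1
      R16 := t4
      i0 := ?_
      i1 := hi
      nonneg := hn
      le1 := hp.le1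
      mono := hp.mono
      cmp := ?_
      low := ?_
      inner := ?_ }
  · refine le_trans ?_ hx
    unfold nrm
    exact le_trans (abs_nonneg _) (le_max_left _ _)
  · intro r R r' R' a1 a2 a3 a4 a5 a6
    exact le_trans (hcmp r R r' R' a1 a2 a3 a4 a5 a6) (mul_le_mul_of_nonneg_right m1 (hn _ _))
  · intro r R a1 a2
    have hr : (0 : ℝ) < (r : ℝ) := by
      have : 0 < r := by omega
      exact_mod_cast this
    have hR : (0 : ℝ) < (R : ℝ) := by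
      have : 0 < R := by omega
      exact_mod_cast this
    have h2' : (r : ℝ) ≤ (R : ℝ) := by exact_mod_cast a2
    have q1 : (r : ℝ) / R ≤ 1 := by
      rw [div_le_one hR]
      exact h2'
    have e1 : ((r : ℝ) / R) ^ (2 : ℝ) ≤ ((r : ℝ) / R) ^ (2 - c) :=
      Real.rpow_le_rpow_of_exponent_ge (div_pos hr hR) q1 (by linarith)
    have e2 : ((r : ℝ) / R) ^ (2 : ℝ) = ((r : ℝ) / R) ^ (2 : ℕ) := by
      rw [← Real.rpow_natCast]
      norm_num
    rw [e2] at e1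
    have e4 := hl r R (by omega) a2
    exact le_trans (le_trans e1 e4) (mul_le_mul_of_nonneg_right m2 (hn _ _))
  · intro R a1
    exact le_trans (hin' R a1) (mul_le_mul_of_nonneg_right m3 (hn _ _))

end SC
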