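import Pool.Agent.Lib_MP_e0a489.Defs2

/-!
# MP_e0a489, module TP 11: a four arm probability for real radii
-/

set_option autoImplicit false

namespace SC

open Classical

/-- a four arm probability for real radii, comparable with `al` -/
structure Beta (L : Lat) (i : ℤ) (β : ℝ → ℝ → ℝ) : Prop where
  nonneg : ∀ r R, 0 ≤ β r R
  le1 : ∀ r R, β r R ≤ 1
  low : ∀ r R : ℝ, 1 ≤ r → r ≤ R → al L (max (⌊r⌋ - 2) i) (⌊2 * R⌋ + 1) ≤ β r R
  up : ∀ r : ℝ, 5 ≤ r → β 1 r ≤ al L 2 (⌊r⌋ - 2)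

end SC
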