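import Pool.Agent.Lib_MP_e0a489.FI14b

/-!
# MP_e0a489, module TP, assembly 1: a function of real radii comparable with `f`
-/

set_option autoImplicit false

namespace SC

/-- The function `a` of two real radii is comparable with `f`, with the radii below `R₀` replaced by `R₀`. -/
structure CmpR (a : ℝ → ℝ → ℝ) (f : ℤ → ℤ → ℝ) (K : ℝ) (R₀ : ℤ) : Prop where
  K1 : 1 ≤ K
  lo : ∀ r R : ℝ, 1 ≤ r → r ≤ R → f (max ⌊r⌋ R₀) (max ⌊R⌋ R₀) ≤ K * a r R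
  up : ∀ R : ℝ, 1 ≤ R → a 1 R ≤ K * f R₀ (max ⌊R⌋ R₀)

namespace TPA

/-- The level can be changed (`AG.cmp`). -/
theorem CmpR_level {a : ℝ → ℝ → ℝ} {f : ℤ → ℤ → ℝ} {C γ K : ℝ} {R₃ R₂ : ℤ}
    (hA : FI.AG f C γ R₃) (h : CmpR a f K R₂) (h2 : R₃ ≤ R₂) {R₀ : ℤ} (h0 : R₃ ≤ R₀) :
    ∃ K' : ℝ, CmpR a f K' R₀ := by
  have h16 := hA.R16
  have hC := hA.C1
  obtain ⟨M, hM⟩ : ∃ M : ℤ, M = max R₂ R₀ := ⟨_, rfl⟩
  have hM1 : (1 : ℝ) ≤ (M : ℝ) := by exact_mod_cast (show 1 ≤ M by omega)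
  have hcomp : ∀ x y z : ℤ, R₃ ≤ x → R₃ ≤ y → x ≤ M → y ≤ M →
      ((max z x : ℤ) : ℝ) ≤ (M : ℝ) * ((max z y : ℤ) : ℝ) := by
    intro x y z hx hy hxM hyM
    have e : max z x ≤ M * max z y := by
      have h1 : 1 ≤ max z y := by omega
      have h2 : 1 ≤ M := by omega
      rcases le_total z x with hz | hz
      · rw [max_eq_right hz]
        nlinarith
      · rw [max_eq_left hz]
        have h3 : z ≤ max z y := le_max_left _ _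
        nlinarith
    exact_mod_cast e
  have key : ∀ x y : ℤ, R₃ ≤ x → R₃ ≤ y → x ≤ M → y ≤ M → ∀ z w : ℤ,
      f (max z x) (max w x) ≤ C ^ 4 * (M : ℝ) ^ 4 * f (max z y) (max w y) := by
    intro x y hx hy hxM hyM z w
    exact hA.cmp hM1 (by omega) (by omega) (hcomp x y z hx hy hxM hyM)
      (hcomp y x w hy hx hyM hxM)
  have hCM : (1 : ℝ) ≤ C ^ 4 * (M : ℝ) ^ 4 :=
    one_le_mul_of_one_le_of_one_le (one_le_pow₀ hC) (one_le_pow₀ hM1)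
  refine ⟨C ^ 4 * (M : ℝ) ^ 4 * K, ?_, ?_, ?_⟩
  · exact one_le_mul_of_one_le_of_one_le hCM h.K1
  · intro r R h1 h3
    calc f (max ⌊r⌋ R₀) (max ⌊R⌋ R₀) ≤ C ^ 4 * (M : ℝ) ^ 4 * f (max ⌊r⌋ R₂) (max ⌊R⌋ R₂) :=
          key R₀ R₂ h0 h2 (by omega) (by omega) _ _
      _ ≤ C ^ 4 * (M : ℝ) ^ 4 * (K * a r R) :=
          mul_le_mul_of_nonneg_left (h.lo r R h1 h3) (by linarith)
      _ = C ^ 4 * (M : ℝ) ^ 4 * K * a r R := by ring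
  · intro R h1
    have hK : 0 ≤ K := by linarith [h.K1]
    have hk := key R₂ R₀ h2 h0 (by omega) (by omega) 0 ⌊R⌋
    rw [max_eq_right (show (0 : ℤ) ≤ R₂ by omega), max_eq_right (show (0 : ℤ) ≤ R₀ by omega)]
      at hk
    calc a 1 R ≤ K * f R₂ (max ⌊R⌋ R₂) := h.up R h1
      _ ≤ K * (C ^ 4 * (M : ℝ) ^ 4 * f R₀ (max ⌊R⌋ R₀)) := mul_le_mul_of_nonneg_left hk hK
      _ = C ^ 4 * (M : ℝ) ^ 4 * K * f R₀ (max ⌊R⌋ R₀) := by ring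

/-- `r ≤ 2 max ⌊r⌋ R₀` -/
theorem le_two_mul {r : ℝ} {R₀ : ℤ} (h16 : 16 ≤ R₀) :
    r ≤ 2 * ((max ⌊r⌋ R₀ : ℤ) : ℝ) := by
  have h1 : r < ⌊r⌋ + 1 := Int.lt_floor_add_one r
  have h2 : ((⌊r⌋ : ℤ) : ℝ) ≤ ((max ⌊r⌋ R₀ : ℤ) : ℝ) := by exact_mod_cast le_max_left _ _
  have h3 : (1 : ℝ) ≤ ((max ⌊r⌋ R₀ : ℤ) : ℝ) := by
    exact_mod_cast (show 1 ≤ max ⌊r⌋ R₀ by omega)
  linarith

/-- ratio of the truncated radii -/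
theorem ratio_le {r R : ℝ} {R₀ : ℤ} (h16 : 16 ≤ R₀) (h1 : 1 ≤ r) (h2 : r ≤ R) :
    ((max ⌊R⌋ R₀ : ℤ) : ℝ) / ((max ⌊r⌋ R₀ : ℤ) : ℝ) ≤ 2 * (R / r) := by
  have h0 : 0 < r := by linarith
  have h3 := le_two_mul (r := r) h16
  have h4 : (0 : ℝ) < ((max ⌊r⌋ R₀ : ℤ) : ℝ) := by
    exact_mod_cast (show 0 < max ⌊r⌋ R₀ by omega)
  rw [div_le_iff₀ h4]
  have h5 : (R₀ : ℝ) ≤ ((max ⌊r⌋ R₀ : ℤ) : ℝ) := by exact_mod_cast le_max_right _ _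
  have h6 : 1 ≤ R / r := by rw [le_div_iff₀ h0]; linarith
  rcases le_total ⌊R⌋ R₀ with hc | hc
  · rw [max_eq_right hc]
    nlinarith
  · rw [max_eq_left hc]
    have h7 : ((⌊R⌋ : ℤ) : ℝ) ≤ R := Int.floor_le R
    calc ((⌊R⌋ : ℤ) : ℝ) ≤ R := h7
      _ = R / r * r := by field_simp
      _ ≤ R / r * (2 * ((max ⌊r⌋ R₀ : ℤ) : ℝ)) := mul_le_mul_of_nonneg_left h3 (by linarith)
      _ = 2 * (R / r) * ((max ⌊r⌋ R₀ : ℤ) : ℝ) := by ring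

/-- upper comparison for `Φ` -/
theorem CmpR_phi {a : ℝ → ℝ → ℝ} {f : ℤ → ℤ → ℝ} {C γ K : ℝ} {R₀ : ℤ}
    (hA : FI.AG f C γ R₀) (h : CmpR a f K R₀) {r R : ℝ} (h1 : 1 ≤ r) (h2 : r ≤ R) :
    ((max ⌊R⌋ R₀ : ℤ) : ℝ) / ((max ⌊r⌋ R₀ : ℤ) : ℝ) * f (max ⌊r⌋ R₀) (max ⌊R⌋ R₀) ≤
      2 * K * (R / r * a r R) := by
  have h0 : 0 < r := by linarith
  have e1 := ratio_le (R₀ := R₀) hA.R16 h1 h2
  have e2 := h.lo r R h1 h2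
  have e3 := hA.nn (max ⌊r⌋ R₀) (max ⌊R⌋ R₀)
  have e4 : 0 ≤ R / r := by
    apply div_nonneg _ h0.le
    linarith
  calc _ ≤ (2 * (R / r)) * (K * a r R) := mul_le_mul e1 e2 e3 (by linarith)
    _ = 2 * K * (R / r * a r R) := by ring

theorem CmpR_nn {a : ℝ → ℝ → ℝ} {f : ℤ → ℤ → ℝ} {C γ K : ℝ} {R₀ : ℤ}
    (hA : FI.AG f C γ R₀) (h : CmpR a f K R₀) {r R : ℝ} (h1 : 1 ≤ r) (h2 : r ≤ R) :
    0 ≤ a r R := by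
  have e1 := (hA.nn (max ⌊r⌋ R₀) (max ⌊R⌋ R₀)).trans (h.lo r R h1 h2)
  have hK := h.K1
  by_contra hneg
  push Not at hneg
  have := mul_neg_of_pos_of_neg (show 0 < K by linarith) hneg
  linarith

/-- `Φ(r, R) ≥ c > 0` if `R ≤ M r` -/
theorem CmpR_low {a : ℝ → ℝ → ℝ} {f : ℤ → ℤ → ℝ} {C γ K : ℝ} {R₀ : ℤ}
    (hA : FI.AG f C γ R₀) (h : CmpR a f K R₀) {M : ℝ} (hM : 1 ≤ M) :
    ∃ c : ℝ, 0 < c ∧ ∀ r R : ℝ, 1 ≤ r → r ≤ R → R ≤ M * r → c ≤ (R / r * a r R) ^ 2 := by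
  obtain ⟨c', hc', H⟩ := hA.phi_low (K := 2 * M) (by linarith)
  have hK := h.K1
  refine ⟨c' / (2 * K) ^ 2, by positivity, ?_⟩
  intro r R h1 h2 h3
  have h16 := hA.R16
  have e1 := CmpR_phi hA h h1 h2
  have e2 := H (max ⌊r⌋ R₀) (max ⌊R⌋ R₀) (by omega)
    (by have := Int.floor_le_floor h2; omega) ?_
  · have e3 := CmpR_nn hA h h1 h2
    have e4 : 0 ≤ R / r := div_nonneg (by linarith) (by linarith)
    rw [div_le_iff₀ (by positivity)]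
    have e5 : (0 : ℝ) ≤ ((max ⌊R⌋ R₀ : ℤ) : ℝ) / ((max ⌊r⌋ R₀ : ℤ) : ℝ) *
        f (max ⌊r⌋ R₀) (max ⌊R⌋ R₀) := by
      have a1 : (0 : ℝ) ≤ ((max ⌊R⌋ R₀ : ℤ) : ℝ) := by
        exact_mod_cast (show 0 ≤ max ⌊R⌋ R₀ by omega)
      have a2 : (0 : ℝ) ≤ ((max ⌊r⌋ R₀ : ℤ) : ℝ) := by
        exact_mod_cast (show 0 ≤ max ⌊r⌋ R₀ by omega)
      exact mul_nonneg (div_nonneg a1 a2) (hA.nn _ _)
    calc c' ≤ _ := e2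
      _ ≤ (2 * K * (R / r * a r R)) ^ 2 := pow_le_pow_left₀ e5 e1 2
      _ = (R / r * a r R) ^ 2 * (2 * K) ^ 2 := by ring
  · have e6 := le_two_mul (r := r) h16
    have e7 : (R₀ : ℝ) ≤ ((max ⌊r⌋ R₀ : ℤ) : ℝ) := by exact_mod_cast le_max_right _ _
    have e8 : (0 : ℝ) < R₀ := by exact_mod_cast (show 0 < R₀ by omega)
    rcases le_total ⌊R⌋ R₀ with hc | hc
    · rw [max_eq_right hc]
      nlinarith
    · rw [max_eq_left hc]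
      have h7 : ((⌊R⌋ : ℤ) : ℝ) ≤ R := Int.floor_le R
      nlinarith

end TPA

end SC
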