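import Pool.Agent.Lib_MP_e0a489.FI9
import Pool.Agent.Lib_MP_e0a489.TPA1

/-!
# MP_e0a489, module TP, assembly 2: from `spectral_box` to the statement with real radii
-/

set_option autoImplicit false

namespace SC

variable [IfL] [IfX] [IfT]

open Classical

namespace TPA

/-- two sites of the domain have sup distance at most `4 N` -/
theorem dom_nrm {N N' : ℤ} {E : Set Pt} (_h1 : N ≤ 2 * N') (h2 : N' ≤ 2 * N) {u v : Pt}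
    (hu : u ∈ dom N N' E) (hv : v ∈ dom N N' E) : nrm (u - v) ≤ 4 * N := by
  obtain ⟨⟨a1, a2⟩, a3, a4⟩ := hu.1
  obtain ⟨⟨b1, b2⟩, b3, b4⟩ := hv.1
  have e1 : |u.1 - v.1| ≤ 4 * N := abs_le.2 ⟨by omega, by omega⟩
  have e2 : |u.2 - v.2| ≤ 4 * N := abs_le.2 ⟨by omega, by omega⟩
  exact max_le e1 e2

/-- ASSEMBLY with a general radius `ρ = max ⌊r⌋ R₀`, pure inequality: the bound of `spectral_box` is bounded by the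
product of the two `Φ`. -/
theorem rhs_le {a : ℝ → ℝ → ℝ} {f : ℤ → ℤ → ℝ} {C γ K : ℝ} {R₀ : ℤ}
    (hA : FI.AG f C γ R₀) (h : CmpR a f K R₀) {r r₀ : ℝ} (h1 : 1 ≤ r) (h2 : r ≤ r₀) {n N : ℤ}
    (hn : r ≤ n) (hN : n ≤ N) (hN2 : N ≤ 2 * n) (hρ : max ⌊r⌋ R₀ ≤ N) :
    (((N : ℝ) / ((max ⌊r⌋ R₀ : ℤ) : ℝ)) * f (max ⌊r⌋ R₀) N) ^ 2 *
      ((((max ⌊r₀ / 2⌋ (max ⌊r⌋ R₀) : ℤ) : ℝ) / ((max ⌊r⌋ R₀ : ℤ) : ℝ)) *
        f (max ⌊r⌋ R₀) (max ⌊r₀ / 2⌋ (max ⌊r⌋ R₀))) ^ 2 ≤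
      (C ^ 4 * 4 ^ 6 * (2 * K)) ^ 4 * (((n : ℝ) / r * a r n) ^ 2 * (r₀ / r * a r r₀) ^ 2) := by
  have h16 := hA.R16
  have hC := hA.C1
  have hK := h.K1
  have p1 := CmpR_phi hA h h1 hn
  have p2 := CmpR_phi hA h h1 h2
  rw [Int.floor_intCast] at p1
  obtain ⟨ρ, hρd⟩ : ∃ ρ : ℤ, ρ = max ⌊r⌋ R₀ := ⟨_, rfl⟩
  rw [← hρd] at p1 p2 hρ ⊢
  have hρ1 : R₀ ≤ ρ := by omega
  obtain ⟨D, hD⟩ : ∃ D : ℤ, D = max ⌊r₀ / 2⌋ ρ := ⟨_, rfl⟩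
  obtain ⟨D', hD'⟩ : ∃ D' : ℤ, D' = max ⌊r₀⌋ R₀ := ⟨_, rfl⟩
  obtain ⟨M, hM⟩ : ∃ M : ℤ, M = max n R₀ := ⟨_, rfl⟩
  rw [← hD]
  rw [← hD'] at p2
  rw [← hM] at p1
  have f1 : ⌊r⌋ ≤ ⌊r₀⌋ := Int.floor_le_floor h2
  have f2 : ⌊r₀⌋ ≤ 2 * ⌊r₀ / 2⌋ + 1 := by
    have g1 : r₀ / 2 < ⌊r₀ / 2⌋ + 1 := Int.lt_floor_add_one _
    have g2 : ((⌊r₀⌋ : ℤ) : ℝ) ≤ r₀ := Int.floor_le r₀
    have g3 : ((⌊r₀⌋ : ℤ) : ℝ) < ((2 * ⌊r₀ / 2⌋ + 2 : ℤ) : ℝ) := by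
      push_cast
      linarith
    have g4 : ⌊r₀⌋ < 2 * ⌊r₀ / 2⌋ + 2 := by exact_mod_cast g3
    omega
  have f3 : ⌊r₀ / 2⌋ ≤ ⌊r₀⌋ := Int.floor_le_floor (by linarith)
  have f0 : ⌊r⌋ ≤ n := by
    have := Int.floor_le_floor hn
    rwa [Int.floor_intCast] at this
  have q1 : (N : ℝ) / ρ * f ρ N ≤ C ^ 4 * 4 ^ 6 * ((M : ℝ) / ρ * f ρ M) := by
    refine hA.phi (by norm_num) hρ1 hρ1 ?_ ?_ ?_ ?_ (by omega)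
    · exact_mod_cast (show ρ ≤ 4 * ρ by omega)
    · exact_mod_cast (show ρ ≤ 4 * ρ by omega)
    · exact_mod_cast (show M ≤ 4 * N by omega)
    · exact_mod_cast (show N ≤ 4 * M by omega)
  have q2 : (D : ℝ) / ρ * f ρ D ≤ C ^ 4 * 4 ^ 6 * ((D' : ℝ) / ρ * f ρ D') := by
    refine hA.phi (by norm_num) hρ1 hρ1 ?_ ?_ ?_ ?_ (by omega)
    · exact_mod_cast (show ρ ≤ 4 * ρ by omega)
    · exact_mod_cast (show ρ ≤ 4 * ρ by omega)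
    · exact_mod_cast (show D' ≤ 4 * D by omega)
    · exact_mod_cast (show D ≤ 4 * D' by omega)
  have hL : 0 ≤ C ^ 4 * 4 ^ 6 := by positivity
  have s1 : (N : ℝ) / ρ * f ρ N ≤ C ^ 4 * 4 ^ 6 * (2 * K) * ((n : ℝ) / r * a r n) :=
    q1.trans ((mul_le_mul_of_nonneg_left p1 hL).trans (le_of_eq (by ring)))
  have s2 : (D : ℝ) / ρ * f ρ D ≤ C ^ 4 * 4 ^ 6 * (2 * K) * (r₀ / r * a r r₀) :=
    q2.trans ((mul_le_mul_of_nonneg_left p2 hL).trans (le_of_eq (by ring)))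
  have ρ0 : (0 : ℝ) ≤ ρ := by exact_mod_cast (show 0 ≤ ρ by omega)
  have N0 : (0 : ℝ) ≤ N := by exact_mod_cast (show 0 ≤ N by omega)
  have D0 : (0 : ℝ) ≤ D := by exact_mod_cast (show 0 ≤ D by omega)
  have t1 : 0 ≤ (N : ℝ) / ρ * f ρ N := mul_nonneg (div_nonneg N0 ρ0) (hA.nn _ _)
  have t2 : 0 ≤ (D : ℝ) / ρ * f ρ D := mul_nonneg (div_nonneg D0 ρ0) (hA.nn _ _)
  calc _ ≤ (C ^ 4 * 4 ^ 6 * (2 * K) * ((n : ℝ) / r * a r n)) ^ 2 *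
        (C ^ 4 * 4 ^ 6 * (2 * K) * (r₀ / r * a r r₀)) ^ 2 :=
        mul_le_mul (pow_le_pow_left₀ t1 s1 2) (pow_le_pow_left₀ t2 s2 2) (sq_nonneg _)
          (sq_nonneg _)
    _ = _ := by ring

end TPA

/-- ASSEMBLY.  `a` is the four arm probability with real radii, comparable with `al L`; `SP n τ r₀` is the spectral
probability of `|S| < τ`, `diam S ≥ r₀`. -/
theorem tp_assemble {L : Lat} {κ : ℕ → ℝ} (h : Fam L κ) {x₀ : Pt}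
    (hc : ∀ m : ℤ, 8 ≤ m → CoreOK (L.shift x₀) m) {a : ℝ → ℝ → ℝ}
    (ha : ∀ R₁ : ℤ, ∃ R₂ : ℤ, R₁ ≤ R₂ ∧ ∃ K : ℝ, CmpR a (al L) K R₂)
    {N N' : ℕ → ℤ} {E : ℕ → Set Pt}
    (hN : ∀ n : ℕ, 1 ≤ n → (n : ℤ) ≤ N n ∧ N n ≤ 2 * n ∧ N n ≤ 2 * N' n ∧ N' n ≤ 2 * N n ∧
      GoodE L (N n) (E n))
    {F : ℕ → Finset Pt} (hF : ∀ (n : ℕ) (v : Pt), v ∈ F n ↔ v ∈ dom (N n) (N' n) (E n))
    {SP : ℕ → ℝ → ℝ → ℝ} {p : ℝ} (hp : 0 < p)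
    (hSP : ∀ n : ℕ, 1 ≤ n → ∀ τ r₀ : ℝ, SP n τ r₀ ≤
      p⁻¹ * ∑ S ∈ (F n).powerset.filter (fun S => ((S.card : ℝ) ≤ τ) ∧
        ∃ u ∈ S, ∃ v ∈ S, ⌊r₀ / 2⌋ ≤ nrm (u - v)),
        fc (ind (L.Crs (N n) (N' n) (E n))) S ^ 2) :
    ∃ C : ℝ, ∀ n : ℕ, 1 ≤ n → ∀ r r₀ : ℝ, 1 ≤ r → r ≤ r₀ →
      (r ≤ n → SP n (r ^ 2 * a 1 r) r₀ ≤ C * ((n : ℝ) / r * a r n) ^ 2 * (r₀ / r * a r r₀) ^ 2) ∧
      (n < r → SP n (r ^ 2 * a 1 r) r₀ ≤ C * ((n : ℝ) / r) ^ 2 * (r₀ / r * a r r₀) ^ 2) := by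
  obtain ⟨C₀, c₀, γ, R₃, hAF⟩ := FI.al_AF h
  obtain ⟨R₀, h16, h3, hsb⟩ := spectral_box h hc R₃
  obtain ⟨R₂, h2, K₂, hK₂⟩ := ha R₃
  obtain ⟨K, hK⟩ := TPA.CmpR_level hAF.toAG hK₂ h2 (R₀ := R₀) h3
  have hA : FI.AG (al L) C₀ γ R₀ := hAF.toAG.mono_R h3
  have hK1 := hK.K1
  obtain ⟨B, hB0, hB⟩ := hsb (4 * K) (by linarith)
  have hR0 : (16 : ℝ) ≤ R₀ := by exact_mod_cast h16
  obtain ⟨c₁, hc₁, H₁⟩ := TPA.CmpR_low hA hK (M := 18 * R₀) (by linarith)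
  -- the constant
  obtain ⟨L₁, hL₁⟩ : ∃ x : ℝ, x = (C₀ ^ 4 * 4 ^ 6 * (2 * K)) ^ 4 := ⟨_, rfl⟩
  have hC0 := hAF.toAG.C1
  have hL₁0 : 0 ≤ L₁ := by rw [hL₁]; positivity
  have hpi : 0 < p⁻¹ := inv_pos.2 hp
  -- sums
  obtain ⟨Sm, hSm⟩ : ∃ Sm : ℕ → ℝ → ℝ → ℝ, ∀ n τ r₀, Sm n τ r₀ =
      ∑ S ∈ (F n).powerset.filter (fun S => ((S.card : ℝ) ≤ τ) ∧
        ∃ u ∈ S, ∃ v ∈ S, ⌊r₀ / 2⌋ ≤ nrm (u - v)),
        fc (ind (L.Crs (N n) (N' n) (E n))) S ^ 2 := ⟨_, fun _ _ _ => rfl⟩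
  have hSP' : ∀ n : ℕ, 1 ≤ n → ∀ τ r₀ : ℝ, SP n τ r₀ ≤ p⁻¹ * Sm n τ r₀ := by
    intro n hn τ r₀
    rw [hSm]
    exact hSP n hn τ r₀
  have hSm1 : ∀ n τ r₀, Sm n τ r₀ ≤ 1 := by
    intro n τ r₀
    rw [hSm]
    have := FI.small_one (hF n) (fun S : Finset Pt => ((S.card : ℝ) ≤ τ) ∧
        ∃ u ∈ S, ∃ v ∈ S, ⌊r₀ / 2⌋ ≤ nrm (u - v)) (L := L)
    convert this
  have hSm0 : ∀ n : ℕ, 1 ≤ n → ∀ τ r₀ : ℝ, 18 * (n : ℝ) < r₀ → Sm n τ r₀ = 0 := by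
    intro n hn τ r₀ hr
    rw [hSm]
    obtain ⟨g1, g2, g3, g4, g5⟩ := hN n hn
    rw [Finset.filter_eq_empty_iff.2, Finset.sum_empty]
    rintro S hS ⟨-, u, hu, v, hv, huv⟩
    have hS' := Finset.mem_powerset.1 hS
    have e1 := TPA.dom_nrm g3 g4 ((hF n u).1 (hS' hu)) ((hF n v).1 (hS' hv))
    have e2 : r₀ / 2 < ⌊r₀ / 2⌋ + 1 := Int.lt_floor_add_one _
    have e3 : ⌊r₀ / 2⌋ ≤ 8 * (n : ℤ) := by omega
    have e4 : ((⌊r₀ / 2⌋ : ℤ) : ℝ) ≤ 8 * (n : ℝ) := by exact_mod_cast e3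
    have e5 : (1 : ℝ) ≤ n := by exact_mod_cast hn
    linarith
  refine ⟨p⁻¹ * (B * L₁ + c₁⁻¹ * c₁⁻¹ + 18 ^ 2 * c₁⁻¹), ?_⟩
  intro n hn r r₀ h1 hr
  have hn1 : (1 : ℝ) ≤ n := by exact_mod_cast hn
  obtain ⟨g1, g2, g3, g4, g5⟩ := hN n hn
  have hci : 0 < c₁⁻¹ := inv_pos.2 hc₁
  have hBL : 0 ≤ B * L₁ := mul_nonneg hB0.le hL₁0
  have hr0 : 0 < r := by linarith
  obtain ⟨Y, hY⟩ : ∃ Y : ℝ, Y = (r₀ / r * a r r₀) ^ 2 := ⟨_, rfl⟩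
  have hY0 : 0 ≤ Y := by rw [hY]; exact sq_nonneg _
  constructor
  · intro hrn
    obtain ⟨X, hX⟩ : ∃ X : ℝ, X = ((n : ℝ) / r * a r n) ^ 2 := ⟨_, rfl⟩
    have hX0 : 0 ≤ X := by rw [hX]; exact sq_nonneg _
    rw [← hX, ← hY]
    have goal1 : Sm n (r ^ 2 * a 1 r) r₀ ≤
        (B * L₁ + c₁⁻¹ * c₁⁻¹ + 18 ^ 2 * c₁⁻¹) * (X * Y) := by
      by_cases hρ : max ⌊r⌋ R₀ ≤ N n
      · have t1 : r ^ 2 * a 1 r ≤ 4 * K * (((max ⌊r⌋ R₀ : ℤ) : ℝ) ^ 2 *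
            al L R₀ (max ⌊r⌋ R₀)) := by
          have u1 := hK.up r h1
          have u2 := TPA.le_two_mul (r := r) h16
          have u3 : r ^ 2 ≤ (2 * ((max ⌊r⌋ R₀ : ℤ) : ℝ)) ^ 2 := pow_le_pow_left₀ hr0.le u2 2
          have u4 := hA.nn R₀ (max ⌊r⌋ R₀)
          calc r ^ 2 * a 1 r ≤ (2 * ((max ⌊r⌋ R₀ : ℤ) : ℝ)) ^ 2 *
                (K * al L R₀ (max ⌊r⌋ R₀)) :=
                mul_le_mul u3 u1 (TPA.CmpR_nn hA hK le_rfl h1) (sq_nonneg _)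
            _ = _ := by ring
        have t2 := hB (max ⌊r⌋ R₀) ⌊r₀ / 2⌋ (N n) (N' n) (E n) (le_max_right _ _) hρ g3 g4 g5
          (F n) (hF n)
        have t3 : Sm n (r ^ 2 * a 1 r) r₀ ≤
            ∑ S ∈ (F n).powerset.filter (fun S => ((S.card : ℝ) ≤ 4 * K *
              (((max ⌊r⌋ R₀ : ℤ) : ℝ) ^ 2 * al L R₀ (max ⌊r⌋ R₀))) ∧
              ∃ u ∈ S, ∃ v ∈ S, ⌊r₀ / 2⌋ ≤ nrm (u - v)),
              fc (ind (L.Crs (N n) (N' n) (E n))) S ^ 2 := by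
          rw [hSm]
          refine Finset.sum_le_sum_of_subset_of_nonneg ?_ fun S _ _ => sq_nonneg _
          intro S hS
          obtain ⟨hS1, hS2, hS3⟩ := Finset.mem_filter.1 hS
          exact Finset.mem_filter.2 ⟨hS1, hS2.trans t1, hS3⟩
        have t4 := TPA.rhs_le hA hK h1 hr (n := (n : ℤ)) (by exact_mod_cast hrn) g1 g2 hρ
        have t5 : ((((n : ℕ) : ℤ) : ℝ)) = (n : ℝ) := by norm_cast
        rw [t5, ← hX, ← hY, ← hL₁] at t4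
        calc Sm n (r ^ 2 * a 1 r) r₀ ≤ _ := t3
          _ ≤ _ := t2
          _ = B * ((((N n : ℤ) : ℝ) / ((max ⌊r⌋ R₀ : ℤ) : ℝ) * al L (max ⌊r⌋ R₀) (N n)) ^ 2 *
              ((((max ⌊r₀ / 2⌋ (max ⌊r⌋ R₀) : ℤ) : ℝ) / ((max ⌊r⌋ R₀ : ℤ) : ℝ)) *
                al L (max ⌊r⌋ R₀) (max ⌊r₀ / 2⌋ (max ⌊r⌋ R₀))) ^ 2) := by ring
          _ ≤ B * (L₁ * (X * Y)) := mul_le_mul_of_nonneg_left t4 hB0.le
          _ = (B * L₁ + 0 + 0) * (X * Y) := by ring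
          _ ≤ (B * L₁ + c₁⁻¹ * c₁⁻¹ + 18 ^ 2 * c₁⁻¹) * (X * Y) := by
              refine mul_le_mul_of_nonneg_right ?_ (mul_nonneg hX0 hY0)
              have := mul_pos hci hci
              linarith
      · have hρ' : N n < max ⌊r⌋ R₀ := not_le.1 hρ
        have v1 : ⌊r⌋ ≤ (n : ℤ) := by
          have := Int.floor_le_floor (show r ≤ ((n : ℤ) : ℝ) by exact_mod_cast hrn)
          rwa [Int.floor_intCast] at this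
        have v2 : (n : ℤ) < R₀ := by omega
        have v3 : (n : ℝ) ≤ R₀ := by exact_mod_cast v2.le
        by_cases hbig : 18 * (n : ℝ) < r₀
        · rw [hSm0 n hn _ _ hbig]
          positivity
        · have w1 : c₁ ≤ Y := by
            rw [hY]
            refine H₁ r r₀ h1 hr ?_
            push Not at hbig
            nlinarith
          have w2 : c₁ ≤ X := by
            rw [hX]
            refine H₁ r n h1 hrn ?_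
            nlinarith
          have w3 : 1 ≤ c₁⁻¹ * c₁⁻¹ * (X * Y) := by
            have x1 : 1 ≤ c₁⁻¹ * X := by
              rw [inv_mul_eq_div, le_div_iff₀ hc₁]
              linarith
            have x2 : 1 ≤ c₁⁻¹ * Y := by
              rw [inv_mul_eq_div, le_div_iff₀ hc₁]
              linarith
            calc (1 : ℝ) ≤ (c₁⁻¹ * X) * (c₁⁻¹ * Y) := one_le_mul_of_one_le_of_one_le x1 x2
              _ = _ := by ring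
          calc Sm n (r ^ 2 * a 1 r) r₀ ≤ 1 := hSm1 _ _ _
            _ ≤ c₁⁻¹ * c₁⁻¹ * (X * Y) := w3
            _ ≤ (B * L₁ + c₁⁻¹ * c₁⁻¹ + 18 ^ 2 * c₁⁻¹) * (X * Y) := by
              refine mul_le_mul_of_nonneg_right ?_ (mul_nonneg hX0 hY0)
              nlinarith
    calc SP n (r ^ 2 * a 1 r) r₀ ≤ p⁻¹ * Sm n (r ^ 2 * a 1 r) r₀ := hSP' n hn _ _
      _ ≤ p⁻¹ * ((B * L₁ + c₁⁻¹ * c₁⁻¹ + 18 ^ 2 * c₁⁻¹) * (X * Y)) :=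
          mul_le_mul_of_nonneg_left goal1 hpi.le
      _ = _ := by ring
  · intro hrn
    rw [← hY]
    have goal2 : Sm n (r ^ 2 * a 1 r) r₀ ≤
        (B * L₁ + c₁⁻¹ * c₁⁻¹ + 18 ^ 2 * c₁⁻¹) * (((n : ℝ) / r) ^ 2 * Y) := by
      by_cases hbig : 18 * (n : ℝ) < r₀
      · rw [hSm0 n hn _ _ hbig]
        positivity
      · push Not at hbig
        have w1 : c₁ ≤ Y := by
          rw [hY]
          refine H₁ r r₀ h1 hr ?_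
          nlinarith
        have w2 : 1 ≤ 18 * ((n : ℝ) / r) := by
          rw [← mul_div_assoc, le_div_iff₀ hr0]
          linarith
        have w3 : 1 ≤ 18 ^ 2 * c₁⁻¹ * (((n : ℝ) / r) ^ 2 * Y) := by
          have x2 : 1 ≤ c₁⁻¹ * Y := by
            rw [inv_mul_eq_div, le_div_iff₀ hc₁]
            linarith
          have x1 : 1 ≤ (18 * ((n : ℝ) / r)) ^ 2 := one_le_pow₀ w2
          calc (1 : ℝ) ≤ (18 * ((n : ℝ) / r)) ^ 2 * (c₁⁻¹ * Y) :=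
                one_le_mul_of_one_le_of_one_le x1 x2
            _ = _ := by ring
        calc Sm n (r ^ 2 * a 1 r) r₀ ≤ 1 := hSm1 _ _ _
          _ ≤ 18 ^ 2 * c₁⁻¹ * (((n : ℝ) / r) ^ 2 * Y) := w3
          _ ≤ (B * L₁ + c₁⁻¹ * c₁⁻¹ + 18 ^ 2 * c₁⁻¹) * (((n : ℝ) / r) ^ 2 * Y) := by
            refine mul_le_mul_of_nonneg_right ?_ (by positivity)
            nlinarith
    calc SP n (r ^ 2 * a 1 r) r₀ ≤ p⁻¹ * Sm n (r ^ 2 * a 1 r) r₀ := hSP' n hn _ _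
      _ ≤ p⁻¹ * ((B * L₁ + c₁⁻¹ * c₁⁻¹ + 18 ^ 2 * c₁⁻¹) * (((n : ℝ) / r) ^ 2 * Y)) :=
          mul_le_mul_of_nonneg_left goal2 hpi.le
      _ = _ := by ring

end SC
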