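import Pool.Agent.Lib_MP_e0a489.TP1
import Pool.Agent.Lib_MP_e0a489.TP11
import Pool.Agent.Lib_MP_e0a489.TP9
import Pool.Agent.Lib_MP_e0a489.TPA2

/-!
# MP_e0a489, module TP 12: the final inequality from the spectral estimate
-/

set_option autoImplicit false

namespace SC

variable [IfL] [IfX] [IfT]

open Classical

/-- the statement of `spectral_box` for one `R₀` -/
def SpecBox (L : Lat) (R₀ : ℤ) : Prop :=
  ∀ A : ℝ, 0 < A → ∃ C : ℝ, 0 < C ∧ ∀ (r d N N' : ℤ) (E : Set Pt),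
    R₀ ≤ r → r ≤ N → N ≤ 2 * N' → N' ≤ 2 * N → GoodE L N E →
    ∀ F : Finset Pt, (∀ v, v ∈ F ↔ v ∈ dom N N' E) →
    ∑ S ∈ F.powerset.filter (fun S => ((S.card : ℝ) ≤ A * ((r : ℝ) ^ 2 * al L R₀ r)) ∧
        ∃ u ∈ S, ∃ v ∈ S, d ≤ nrm (u - v)),
      fc (ind (L.Crs N N' E)) S ^ 2 ≤
    C * (((N : ℝ) / r) * al L r N) ^ 2 * ((((max d r : ℤ) : ℝ) / r) * al L r (max d r)) ^ 2

/-- A percolation model on finite sets `I n`: the element `v` is the site `e v`, `crs n` is the crossing event, `dm` the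
diameter. -/
structure Model (L : Lat) (I : ℕ → Finset Pt) (crs : ℕ → Finset Pt → Prop) (dm : Finset Pt → ℝ)
    (e : Equiv.Perm Pt) (N N' : ℕ → ℤ) (E : ℕ → Set Pt) (p : ℝ) : Prop where
  p0 : 0 < p
  n1 : ∀ n : ℕ, 1 ≤ n → (n : ℤ) ≤ N n ∧ N n ≤ 2 * n
  n2 : ∀ n : ℕ, 1 ≤ n → N n ≤ 2 * N' n ∧ N' n ≤ 2 * N n
  good : ∀ n : ℕ, 1 ≤ n → GoodE L (N n) (E n)
  sub : ∀ n : ℕ, 1 ≤ n → ∀ v ∈ I n, e v ∈ dom (N n) (N' n) (E n)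
  crs_iff : ∀ n : ℕ, 1 ≤ n → ∀ ω, L.Crs (N n) (N' n) (E n) ω ↔ crs n (opn (I n) e ω)
  pr_ge : ∀ n : ℕ, 1 ≤ n → p ≤ pr (L.Crs (N n) (N' n) (E n))
  dm_le : ∀ (n : ℕ) (S : Finset Pt), 1 ≤ n → S ⊆ I n → dm S ≤ 4 * n
  dm_far : ∀ (S : Finset Pt) (d : ℝ), 1 ≤ d → d ≤ dm S →
    ∃ u ∈ S, ∃ v ∈ S, ⌊d / 2⌋ ≤ nrm (e u - e v)

/-- the left side of Q1 -/
noncomputable def lhs (I : ℕ → Finset Pt) (crs : ℕ → Finset Pt → Prop) (dm : Finset Pt → ℝ)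
    (β : ℝ → ℝ → ℝ) (n : ℕ) (r r₀ : ℝ) : ℝ :=
  SCTop.specProb (I n) (fun A => if crs n A then 1 else 0)
    (fun S => (S.card : ℝ) < r ^ 2 * β 1 r ∧ r₀ ≤ dm S)

variable {L : Lat} {I : ℕ → Finset Pt} {crs : ℕ → Finset Pt → Prop} {dm : Finset Pt → ℝ}
  {e : Equiv.Perm Pt} {N N' : ℕ → ℤ} {E : ℕ → Set Pt} {p : ℝ} {i R₁ : ℤ} {K : ℝ}
  {β : ℝ → ℝ → ℝ}

/-- `β` is comparable with `al L` in the sense of `CmpR` -/
theorem TPA.cmpR_of_beta {f : ℤ → ℤ → ℝ} {C γ : ℝ} {R₃ : ℤ} (hA : FI.AG f C γ R₃) {i : ℤ}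
    (hi0 : 0 ≤ i) (hi : i ≤ 1) {β : ℝ → ℝ → ℝ} (hβ1 : ∀ r R, β r R ≤ 1)
    (hlow : ∀ r R : ℝ, 1 ≤ r → r ≤ R → f (max (⌊r⌋ - 2) i) (⌊2 * R⌋ + 1) ≤ β r R)
    (hup : ∀ r : ℝ, 5 ≤ r → β 1 r ≤ f 2 (⌊r⌋ - 2)) {R₂ : ℤ} (h2 : R₃ ≤ R₂) {D : ℝ}
    (hD : 0 < D) (hin : ∀ R, R₂ ≤ R → f R₂ R ≤ D * f i R) :
    ∃ K : ℝ, CmpR β f K R₂ := by
  have h16 := hA.R16
  have hC := hA.C1
  have hC4 : (1 : ℝ) ≤ C ^ 4 * 4 ^ 4 :=
    one_le_mul_of_one_le_of_one_le (one_le_pow₀ hC) (by norm_num)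
  obtain ⟨M, hM⟩ : ∃ M : ℝ, M = C ^ 4 * 4 ^ 4 := ⟨_, rfl⟩
  rw [← hM] at hC4
  have hM0 : 0 ≤ M := by linarith
  refine ⟨M * (1 + D), ?_, ?_, ?_⟩
  · nlinarith
  · intro r R h1 hrR
    have f1 : ⌊r⌋ ≤ ⌊R⌋ := Int.floor_le_floor hrR
    have f2 : 1 ≤ ⌊r⌋ := Int.le_floor.2 (by exact_mod_cast h1)
    have f3 : 2 * ⌊R⌋ ≤ ⌊2 * R⌋ := by
      refine Int.le_floor.2 ?_
      push_cast
      linarith [Int.floor_le R]
    have f4 : ⌊2 * R⌋ ≤ 2 * ⌊R⌋ + 1 := by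
      have g1 : R < ⌊R⌋ + 1 := Int.lt_floor_add_one _
      have g2 : ((⌊2 * R⌋ : ℤ) : ℝ) ≤ 2 * R := Int.floor_le _
      have g3 : ((⌊2 * R⌋ : ℤ) : ℝ) < ((2 * ⌊R⌋ + 2 : ℤ) : ℝ) := by
        push_cast
        linarith
      have g4 : ⌊2 * R⌋ < 2 * ⌊R⌋ + 2 := by exact_mod_cast g3
      omega
    have hl := hlow r R h1 hrR
    obtain ⟨a, ha⟩ : ∃ a : ℤ, a = max (⌊r⌋ - 2) i := ⟨_, rfl⟩
    obtain ⟨b, hb⟩ : ∃ b : ℤ, b = ⌊2 * R⌋ + 1 := ⟨_, rfl⟩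
    rw [← ha, ← hb] at hl
    have hn : 0 ≤ β r R := (hA.nn _ _).trans hl
    by_cases hc : R₂ ≤ ⌊r⌋ - 2
    · have ha' : a = ⌊r⌋ - 2 := by omega
      have e1 : f (max ⌊r⌋ R₂) (max ⌊R⌋ R₂) ≤ C ^ 4 * 4 ^ 4 * f a b := by
        refine hA.cmp (by norm_num) (by omega) (by omega) ?_ ?_
        · exact_mod_cast (show max ⌊r⌋ R₂ ≤ 4 * a by omega)
        · exact_mod_cast (show b ≤ 4 * max ⌊R⌋ R₂ by omega)
      rw [← hM] at e1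
      calc _ ≤ M * f a b := e1
        _ ≤ M * β r R := mul_le_mul_of_nonneg_left hl hM0
        _ ≤ M * (1 + D) * β r R := by
          refine mul_le_mul_of_nonneg_right ?_ hn
          nlinarith
    · have e1 : f (max ⌊r⌋ R₂) (max ⌊R⌋ R₂) ≤ C ^ 4 * 4 ^ 4 * f R₂ (max b R₂) := by
        refine hA.cmp (by norm_num) (by omega) (by omega) ?_ ?_
        · exact_mod_cast (show max ⌊r⌋ R₂ ≤ 4 * R₂ by omega)
        · exact_mod_cast (show max b R₂ ≤ 4 * max ⌊R⌋ R₂ by omega)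
      rw [← hM] at e1
      have e2 := hin (max b R₂) (le_max_right _ _)
      have e3 : f i (max b R₂) ≤ f a b :=
        hA.mono a b i (max b R₂) hi0 (by omega) (by omega) (le_max_left _ _)
      calc _ ≤ M * f R₂ (max b R₂) := e1
        _ ≤ M * (D * f i (max b R₂)) := mul_le_mul_of_nonneg_left e2 hM0
        _ ≤ M * (D * β r R) :=
          mul_le_mul_of_nonneg_left (mul_le_mul_of_nonneg_left (e3.trans hl) hD.le) hM0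
        _ ≤ M * (1 + D) * β r R := by
          have := mul_nonneg hM0 hn
          nlinarith
  · intro R h1
    have f0 : 0 ≤ f R₂ (max ⌊R⌋ R₂) := hA.nn _ _
    have key : β 1 R ≤ M * f R₂ (max ⌊R⌋ R₂) := by
      by_cases hc : ⌊R⌋ ≤ 2 * R₂
      · have e1 : f R₂ R₂ ≤ C ^ 4 * 4 ^ 4 * f R₂ (max ⌊R⌋ R₂) := by
          refine hA.cmp (by norm_num) (by omega) (by omega) ?_ ?_
          · exact_mod_cast (show R₂ ≤ 4 * R₂ by omega)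
          · exact_mod_cast (show max ⌊R⌋ R₂ ≤ 4 * R₂ by omega)
        rw [hA.one R₂ R₂ le_rfl, ← hM] at e1
        exact (hβ1 1 R).trans e1
      · have hR5 : (5 : ℝ) ≤ R := by
          have g1 : ((⌊R⌋ : ℤ) : ℝ) ≤ R := Int.floor_le R
          have g2 : (5 : ℝ) ≤ ((⌊R⌋ : ℤ) : ℝ) := by exact_mod_cast (show 5 ≤ ⌊R⌋ by omega)
          linarith
        have e1 := hup R hR5
        have e2 : f 2 (⌊R⌋ - 2) ≤ f R₂ (⌊R⌋ - 2) :=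
          hA.mono R₂ (⌊R⌋ - 2) 2 (⌊R⌋ - 2) (by norm_num) (by omega) (by omega) le_rfl
        have e3 : f R₂ (⌊R⌋ - 2) ≤ C ^ 4 * 4 ^ 4 * f R₂ (max ⌊R⌋ R₂) := by
          refine hA.cmp (by norm_num) (by omega) (by omega) ?_ ?_
          · exact_mod_cast (show R₂ ≤ 4 * R₂ by omega)
          · exact_mod_cast (show max ⌊R⌋ R₂ ≤ 4 * (⌊R⌋ - 2) by omega)
        rw [← hM] at e3
        exact e1.trans (e2.trans e3)
    refine key.trans (mul_le_mul_of_nonneg_right ?_ f0)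
    nlinarith

/-- THE FINAL INEQUALITY.  `Beta` and `inner_al` give `CmpR β (al L)` (`TPA.cmpR_of_beta`); `tp_assemble` with
`SP n τ r₀` = spectral probability of `|S| < τ`, `dm S ≥ r₀` (for `r₀ ≥ 1`); `specProb_le` with the images of the sets under
`e`, `dm_far`. -/
theorem tp_main {κ : ℕ → ℝ} (h : Fam L κ) {x₀ : Pt} (hx : nrm x₀ ≤ i) (hi : i ≤ 1)
    (hc : ∀ m : ℤ, 8 ≤ m → CoreOK (L.shift x₀) m)
    (_hS : ∀ R : ℤ, ∃ R₀ : ℤ, R ≤ R₀ ∧ SpecBox L R₀) (hβ : Beta L i β)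
    (hM : Model L I crs dm e N N' E p) :
    ∃ C : ℝ, ∀ n : ℕ, 1 ≤ n → ∀ r r₀ : ℝ, 1 ≤ r → r ≤ r₀ →
      (r ≤ n → lhs I crs dm β n r r₀ ≤ C * ((n : ℝ) / r * β r n) ^ 2 * (r₀ / r * β r r₀) ^ 2) ∧
      (n < r → lhs I crs dm β n r r₀ ≤ C * ((n : ℝ) / r) ^ 2 * (r₀ / r * β r r₀) ^ 2) := by
  have hi0 : 0 ≤ i := le_trans (le_trans (abs_nonneg x₀.1) (le_max_left _ _)) hx
  obtain ⟨C₀, c₀, γ, R₃, hAF⟩ := FI.al_AF h
  obtain ⟨R₂, hin⟩ := inner_al h hx hi hc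
  have hcmp : ∀ R₁ : ℤ, ∃ R₂ : ℤ, R₁ ≤ R₂ ∧ ∃ K : ℝ, CmpR β (al L) K R₂ := by
    intro R₁
    obtain ⟨M, hM⟩ : ∃ M : ℤ, M = max R₁ (max R₂ R₃) := ⟨_, rfl⟩
    obtain ⟨D, hD, hD'⟩ := hin M (by omega)
    exact ⟨M, by omega, TPA.cmpR_of_beta hAF.toAG hi0 hi hβ.le1 hβ.low hβ.up (by omega) hD hD'⟩
  obtain ⟨F, hF⟩ : ∃ F : ℕ → Finset Pt, ∀ (n : ℕ) (v : Pt),
      v ∈ F n ↔ v ∈ dom (N n) (N' n) (E n) := by
    refine ⟨fun n => (Finset.Icc (-N n) (N n) ×ˢ Finset.Icc (-N' n) (N' n)).filter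
      fun v => v ∉ E n, fun n v => ?_⟩
    simp only [Finset.mem_filter, Finset.mem_product, Finset.mem_Icc]
    exact Iff.rfl
  have key := tp_assemble h hc hcmp (N := N) (N' := N') (E := E)
    (fun n hn => ⟨(hM.n1 n hn).1, (hM.n1 n hn).2, (hM.n2 n hn).1, (hM.n2 n hn).2,
      hM.good n hn⟩) hF
    (SP := fun n τ r₀ => if 1 ≤ r₀ then SCTop.specProb (I n) (fun A => if crs n A then 1 else 0)
      (fun S => (S.card : ℝ) < τ ∧ r₀ ≤ dm S) else 0) hM.p0 ?_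
  · obtain ⟨C, hC⟩ := key
    refine ⟨C, fun n hn r r₀ h1 h2 => ?_⟩
    obtain ⟨c1, c2⟩ := hC n hn r r₀ h1 h2
    rw [if_pos (h1.trans h2)] at c1 c2
    exact ⟨c1, c2⟩
  · intro n hn τ r₀
    show (if 1 ≤ r₀ then SCTop.specProb (I n) (fun A => if crs n A then 1 else 0)
      (fun S => (S.card : ℝ) < τ ∧ r₀ ≤ dm S) else 0) ≤ _
    by_cases hr : 1 ≤ r₀
    · rw [if_pos hr]
      have := specProb_le (I := I n) (F := F n) (e := e) (crs := crs n)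
        (P := fun S => (S.card : ℝ) < τ ∧ r₀ ≤ dm S)
        (Q := fun S => ((S.card : ℝ) ≤ τ) ∧ ∃ u ∈ S, ∃ v ∈ S, ⌊r₀ / 2⌋ ≤ nrm (u - v))
        (Ev := L.Crs (N n) (N' n) (E n)) (p := p)
        (fun v hv => (hF n _).2 (hM.sub n hn v hv)) (hM.crs_iff n hn)
        (by
          intro S hS hPS
          obtain ⟨g1, g2⟩ := hPS
          obtain ⟨u, hu, v, hv, huv⟩ := hM.dm_far S r₀ hr g2
          refine ⟨by rw [Finset.card_map]; exact g1.le, e u,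
            Finset.mem_map_of_mem _ hu, e v, Finset.mem_map_of_mem _ hv, huv⟩)
        hM.p0 (hM.pr_ge n hn)
      rw [inv_mul_eq_div]
      convert this
    · rw [if_neg hr]
      exact mul_nonneg (inv_nonneg.2 hM.p0.le) (Finset.sum_nonneg fun _ _ => sq_nonneg _)

end SC
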