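import Pool.Agent.Lib_MP_e0a489.TP3

/-!
# MP_e0a489, module TP 4: four arms whose ends alternate separate each other
-/

set_option autoImplicit false

namespace SC

open Classical

namespace Lat

variable {L : Lat} {a b c d : ℤ} {k : Bool} {ω : Cfg}

/-- Joining two arms through the inner set: `Q ∪ In ∪ Q'` is connected if `Q`, `Q'`, `In` are connected and `Q`, `Q'` contain
neighbours of `In` (`Con.union_adj` twice). -/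
theorem con_arms {In Q Q' : Set Pt} (hIn : L.Con In) (hQ : L.Con Q) (hQ' : L.Con Q')
    (hx : ∃ x ∈ Q, x ∈ L.nb In) (hx' : ∃ x ∈ Q', x ∈ L.nb In) : L.Con (Q ∪ In ∪ Q') := by
  obtain ⟨x, hxQ, u, hu, hux⟩ := hx
  obtain ⟨x', hxQ', u', hu', hux'⟩ := hx'
  exact Con.union_adj (Con.union_adj hQ hIn hxQ hu hux.symm) hQ' (Or.inr hu') hxQ' hux'

/-- SEPARATION.  `Q₁`, `Q₃` have colour `k`, `Q₂`, `Q₄` have colour `!k`, all are connected subsets of the annulus `rect \ In` and contain a neighbour of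
`In` and the boundary site `yᵢ`.
(i) `Q₂ ∩ Q₄ = ∅`: otherwise `P = Q₁ ∪ In ∪ Q₃` (`con_arms`) and `P' = Q₂ ∪ Q₄` (`Con.union`) contradict `Alt` (sites of different colours are different,
`In` is disjoint from the annulus).
(ii) `Q₁ ∩ Q₃ = ∅`: in the same way with `P = Q₁ ∪ Q₃`, `P' = Q₂ ∪ In ∪ Q₄`.
(iii) `P = Q₁ ∪ Δ ∪ Q₃` is connected, `P' = Q₂ ∪ In ∪ Q₄`; the common site is in `Δ` and in `Q₂ ∪ Q₄`. -/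
theorem alt_sep {In : Set Pt} (hIn : L.Con In) (hsub : In ⊆ rect a b c d)
    {Q₁ Q₂ Q₃ Q₄ : Set Pt} {y₁ y₂ y₃ y₄ : Pt} (c₁ : L.Con Q₁) (c₂ : L.Con Q₂) (c₃ : L.Con Q₃)
    (c₄ : L.Con Q₄) (s₁ : Q₁ ⊆ (rect a b c d \ In) ∩ L.col k ω)
    (s₂ : Q₂ ⊆ (rect a b c d \ In) ∩ L.col (!k) ω)
    (s₃ : Q₃ ⊆ (rect a b c d \ In) ∩ L.col k ω)
    (s₄ : Q₄ ⊆ (rect a b c d \ In) ∩ L.col (!k) ω) (x₁ : ∃ x ∈ Q₁, x ∈ L.nb In)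
    (x₂ : ∃ x ∈ Q₂, x ∈ L.nb In) (x₃ : ∃ x ∈ Q₃, x ∈ L.nb In) (x₄ : ∃ x ∈ Q₄, x ∈ L.nb In)
    (m₁ : y₁ ∈ Q₁) (m₂ : y₂ ∈ Q₂) (m₃ : y₃ ∈ Q₃) (m₄ : y₄ ∈ Q₄)
    (h : L.Alt a b c d y₁ y₂ y₃ y₄) :
    (∀ v ∈ Q₂, v ∉ Q₄) ∧ (∀ v ∈ Q₁, v ∉ Q₃) ∧
      ∀ Δ : Set Pt, L.Con Δ → Δ ⊆ rect a b c d \ In → (Δ ∩ Q₁).Nonempty → (Δ ∩ Q₃).Nonempty →
        (Δ ∩ (Q₂ ∪ Q₄)).Nonempty := by
  have hcol : ∀ z : Pt, z ∈ L.col k ω → z ∈ L.col (!k) ω → False := by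
    intro z h₁ h₂
    have e₁ : L.st ω z = k := h₁
    have e₂ : L.st ω z = !k := h₂
    rw [e₁] at e₂
    cases k <;> simp at e₂
  have P₁₃ := con_arms hIn c₁ c₃ x₁ x₃
  have P₂₄ := con_arms hIn c₂ c₄ x₂ x₄
  have r₁₃ : Q₁ ∪ In ∪ Q₃ ⊆ rect a b c d :=
    Set.union_subset (Set.union_subset (fun z hz => (s₁ hz).1.1) hsub) (fun z hz => (s₃ hz).1.1)
  have r₂₄ : Q₂ ∪ In ∪ Q₄ ⊆ rect a b c d :=
    Set.union_subset (Set.union_subset (fun z hz => (s₂ hz).1.1) hsub) (fun z hz => (s₄ hz).1.1)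
  refine ⟨?_, ?_, ?_⟩
  · intro v hv hv'
    obtain ⟨z, hz, hz'⟩ := h (Q₁ ∪ In ∪ Q₃) (Q₂ ∪ Q₄) P₁₃ (Con.union c₂ c₄ ⟨v, hv, hv'⟩) r₁₃
      (Set.union_subset (fun z hz => (s₂ hz).1.1) (fun z hz => (s₄ hz).1.1))
      (Or.inl (Or.inl m₁)) (Or.inr m₃) (Or.inl m₂) (Or.inr m₄)
    rcases hz with (hz | hz) | hz <;> rcases hz' with hz' | hz'
    · exact hcol z (s₁ hz).2 (s₂ hz').2
    · exact hcol z (s₁ hz).2 (s₄ hz').2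
    · exact (s₂ hz').1.2 hz
    · exact (s₄ hz').1.2 hz
    · exact hcol z (s₃ hz).2 (s₂ hz').2
    · exact hcol z (s₃ hz).2 (s₄ hz').2
  · intro v hv hv'
    obtain ⟨z, hz, hz'⟩ := h (Q₁ ∪ Q₃) (Q₂ ∪ In ∪ Q₄) (Con.union c₁ c₃ ⟨v, hv, hv'⟩) P₂₄
      (Set.union_subset (fun z hz => (s₁ hz).1.1) (fun z hz => (s₃ hz).1.1)) r₂₄
      (Or.inl m₁) (Or.inr m₃) (Or.inl (Or.inl m₂)) (Or.inr m₄)
    rcases hz with hz | hz <;> rcases hz' with (hz' | hz') | hz'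
    · exact hcol z (s₁ hz).2 (s₂ hz').2
    · exact (s₁ hz).1.2 hz'
    · exact hcol z (s₁ hz).2 (s₄ hz').2
    · exact hcol z (s₃ hz).2 (s₂ hz').2
    · exact (s₃ hz).1.2 hz'
    · exact hcol z (s₃ hz).2 (s₄ hz').2
  · intro Δ hΔ hΔs hΔ₁ hΔ₃
    obtain ⟨w₁, hw₁, hw₁'⟩ := hΔ₁
    obtain ⟨w₃, hw₃, hw₃'⟩ := hΔ₃
    have hP : L.Con (Q₁ ∪ Δ ∪ Q₃) :=
      Con.union (Con.union c₁ hΔ ⟨w₁, hw₁', hw₁⟩) c₃ ⟨w₃, Or.inr hw₃, hw₃'⟩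
    obtain ⟨z, hz, hz'⟩ := h (Q₁ ∪ Δ ∪ Q₃) (Q₂ ∪ In ∪ Q₄) hP P₂₄
      (Set.union_subset (Set.union_subset (fun z hz => (s₁ hz).1.1) (fun z hz => (hΔs hz).1))
        (fun z hz => (s₃ hz).1.1)) r₂₄
      (Or.inl (Or.inl m₁)) (Or.inr m₃) (Or.inl (Or.inl m₂)) (Or.inr m₄)
    rcases hz with (hz | hz) | hz <;> rcases hz' with (hz' | hz') | hz'
    · exact (hcol z (s₁ hz).2 (s₂ hz').2).elim
    · exact ((s₁ hz).1.2 hz').elim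
    · exact (hcol z (s₁ hz).2 (s₄ hz').2).elim
    · exact ⟨z, hz, Or.inl hz'⟩
    · exact ((hΔs hz).2 hz').elim
    · exact ⟨z, hz, Or.inr hz'⟩
    · exact (hcol z (s₃ hz).2 (s₂ hz').2).elim
    · exact ((s₃ hz).1.2 hz').elim
    · exact (hcol z (s₃ hz).2 (s₄ hz').2).elim

end Lat

end SC
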