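import Pool.Agent.Lib_MP_e0a489.TA2
import Pool.Agent.Lib_MP_e0a489.TP1

/-!
# MP_e0a489, module TP 5: bond percolation, the four arm event of `SCTop` implies `TwoA`
-/

set_option autoImplicit false

namespace SC

open Classical

theorem nn_adj {L : Lat} {u v : Pt} (h : SCTop.NN u v) : L.Adj u v := by
  unfold SCTop.NN at h
  exact Lat.adj_of_nn h

/-- `abs_le`, `max_le_iff`, `Finset.mem_filter`, `Finset.mem_product`, `Finset.mem_Icc` -/
theorem mem_edges {n : ℕ} {e : Pt} :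
    e ∈ SCTop.edges n ↔ nrm e ≤ 2 * n ∧ (e.1 + e.2) % 2 = 1 := by
  unfold SCTop.edges nrm
  rw [Finset.mem_filter, Finset.mem_product, Finset.mem_Icc, Finset.mem_Icc, max_le_iff, abs_le,
    abs_le]

private theorem tp5_ee {c : Bool} {ω : Cfg} {v : Pt} (h1 : v.1 % 2 = 0) (h2 : v.2 % 2 = 0) :
    (v ∈ Z2.col c ω) = (c = true) := by
  unfold Lat.col Lat.st Z2
  simp only [Set.mem_setOf_eq, h1, h2]
  cases c <;> simp

private theorem tp5_oo {c : Bool} {ω : Cfg} {v : Pt} (h1 : v.1 % 2 = 1) (h2 : v.2 % 2 = 1) :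
    (v ∈ Z2.col c ω) = (c = false) := by
  unfold Lat.col Lat.st Z2
  simp only [Set.mem_setOf_eq, h1, h2]
  cases c <;> simp

private theorem tp5_ed {c : Bool} {ω : Cfg} {v : Pt} (h1 : (v.1 + v.2) % 2 = 1) :
    (v ∈ Z2.col c ω) = (ω v = c) := by
  unfold Lat.col Lat.st Z2
  have h2 : ¬ (v.1 % 2 = 0 ∧ v.2 % 2 = 0) := by omega
  have h3 : ¬ (v.1 % 2 = 1 ∧ v.2 % 2 = 1) := by omega
  simp only [Set.mem_setOf_eq]
  rw [if_neg h2, if_neg h3]
  rfl

/-- Two adjacent sites of `Z2` of the same colour are nearest neighbours: a diagonal of `Z2` joins a point with two even coordinates (always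
open) and a point with two odd coordinates (always closed).  (`Adj1`: four cases; `ne i j = true ↔ (i + j) % 2 = 0`.) -/
theorem z2_nn {c : Bool} {ω : Cfg} {u v : Pt} (h : Z2.Adj u v) (hu : u ∈ Z2.col c ω)
    (hv : v ∈ Z2.col c ω) : SCTop.NN u v := by
  have key : ∀ a b : Pt, Z2.Adj1 a b → a ∈ Z2.col c ω → b ∈ Z2.col c ω →
      |a.1 - b.1| + |a.2 - b.2| = 1 := by
    intro a b hab ha hb
    rcases hab with ⟨h1, h2⟩ | ⟨h1, h2⟩ | ⟨h1, h2, h3⟩ | ⟨h1, h2, h3⟩
    · rw [h1, h2]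
      simp
    · rw [h1, h2]
      simp
    · exfalso
      have h4 : (a.1 + a.2) % 2 = 0 := by
        unfold Z2 at h3
        simpa using h3
      rcases Int.emod_two_eq_zero_or_one a.1 with h5 | h5
      · have h6 : a.2 % 2 = 0 := by omega
        have h7 : b.1 % 2 = 1 := by omega
        have h8 : b.2 % 2 = 1 := by omega
        rw [tp5_ee h5 h6] at ha
        rw [tp5_oo h7 h8] at hb
        rw [ha] at hb
        exact absurd hb (by decide)
      · have h6 : a.2 % 2 = 1 := by omega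
        have h7 : b.1 % 2 = 0 := by omega
        have h8 : b.2 % 2 = 0 := by omega
        rw [tp5_oo h5 h6] at ha
        rw [tp5_ee h7 h8] at hb
        rw [ha] at hb
        exact absurd hb (by decide)
    · exfalso
      have h4 : ¬ (b.1 + a.2) % 2 = 0 := by
        unfold Z2 at h3
        simpa using h3
      rcases Int.emod_two_eq_zero_or_one a.1 with h5 | h5
      · have h6 : a.2 % 2 = 0 := by omega
        have h7 : b.1 % 2 = 1 := by omega
        have h8 : b.2 % 2 = 1 := by omega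
        rw [tp5_ee h5 h6] at ha
        rw [tp5_oo h7 h8] at hb
        rw [ha] at hb
        exact absurd hb (by decide)
      · have h6 : a.2 % 2 = 1 := by omega
        have h7 : b.1 % 2 = 0 := by omega
        have h8 : b.2 % 2 = 0 := by omega
        rw [tp5_oo h5 h6] at ha
        rw [tp5_ee h7 h8] at hb
        rw [ha] at hb
        exact absurd hb (by decide)
  unfold SCTop.NN
  rcases h with h | h
  · exact key u v h hu hv
  · have := key v u h hv hu
    rw [abs_sub_comm u.1 v.1, abs_sub_comm u.2 v.2]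
    exact this

/-- `v` is open in `Z2`: both coordinates even, or odd sum and `ω v = true` (then `v ∈ edges R`) -/
theorem openPt_iff {R : ℕ} {ω : Cfg} {v : Pt} (hv : nrm v ≤ 2 * R) :
    SCTop.openPt (opn (SCTop.edges R) 1 ω) v ↔ v ∈ Z2.col true ω := by
  unfold SCTop.openPt
  rw [mem_opn, mem_edges]
  rcases Int.emod_two_eq_zero_or_one v.1 with h1 | h1 <;>
    rcases Int.emod_two_eq_zero_or_one v.2 with h2 | h2
  · rw [tp5_ee h1 h2]
    exact iff_of_true (Or.inl ⟨h1, h2⟩) rfl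
  · have h3 : (v.1 + v.2) % 2 = 1 := by omega
    rw [tp5_ed h3]
    constructor
    · rintro (h4 | ⟨_, _, h4⟩)
      · omega
      · exact h4
    · intro h4
      exact Or.inr ⟨h3, ⟨hv, h3⟩, h4⟩
  · have h3 : (v.1 + v.2) % 2 = 1 := by omega
    rw [tp5_ed h3]
    constructor
    · rintro (h4 | ⟨_, _, h4⟩)
      · omega
      · exact h4
    · intro h4
      exact Or.inr ⟨h3, ⟨hv, h3⟩, h4⟩
  · rw [tp5_oo h1 h2]
    constructor
    · rintro (h4 | ⟨h4, _⟩)
      · omega
      · omega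
    · intro h4
      exact absurd h4 (by decide)

theorem closedPt_iff {R : ℕ} {ω : Cfg} {v : Pt} (hv : nrm v ≤ 2 * R) :
    SCTop.closedPt (opn (SCTop.edges R) 1 ω) v ↔ v ∈ Z2.col false ω := by
  unfold SCTop.closedPt
  rw [mem_opn, mem_edges]
  rcases Int.emod_two_eq_zero_or_one v.1 with h1 | h1 <;>
    rcases Int.emod_two_eq_zero_or_one v.2 with h2 | h2
  · rw [tp5_ee h1 h2]
    constructor
    · rintro (h4 | ⟨h4, _⟩)
      · omega
      · omega
    · intro h4
      exact absurd h4 (by decide)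
  · have h3 : (v.1 + v.2) % 2 = 1 := by omega
    rw [tp5_ed h3]
    constructor
    · rintro (h4 | ⟨_, h4⟩)
      · omega
      · by_contra h5
        exact h4 ⟨⟨hv, h3⟩, by simpa using h5⟩
    · intro h4
      refine Or.inr ⟨h3, fun h5 => ?_⟩
      have h6 := h5.2
      change ω v = true at h6
      rw [h4] at h6
      exact absurd h6 (by decide)
  · have h3 : (v.1 + v.2) % 2 = 1 := by omega
    rw [tp5_ed h3]
    constructor
    · rintro (h4 | ⟨_, h4⟩)
      · omega
      · by_contra h5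
        exact h4 ⟨⟨hv, h3⟩, by simpa using h5⟩
    · intro h4
      refine Or.inr ⟨h3, fun h5 => ?_⟩
      have h6 := h5.2
      change ω v = true at h6
      rw [h4] at h6
      exact absurd h6 (by decide)
  · rw [tp5_oo h1 h2]
    exact iff_of_true (Or.inl ⟨h1, h2⟩) rfl

/-- `Cn.path`; the steps are nearest neighbour steps by `z2_nn` (`List.IsChain` with membership: `List.isChain_iff_getElem` or induction) -/
theorem z2_path {c : Bool} {D : Set Pt} {ω : Cfg} {u v : Pt}
    (h : Z2.Cn (D ∩ Z2.col c ω) u v) :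
    ∃ γ : List Pt, γ.head? = some u ∧ γ.getLast? = some v ∧
      (∀ w ∈ γ, w ∈ D ∧ w ∈ Z2.col c ω) ∧ γ.IsChain SCTop.NN := by
  obtain ⟨l, _, h1, h2, h3, h4⟩ := h.path
  refine ⟨l, h1, h2, fun w hw => h3 w hw, ?_⟩
  rw [List.isChain_iff_getElem] at h4 ⊢
  intro i hi
  exact z2_nn (h4 i hi) (h3 _ (List.getElem_mem _)).2 (h3 _ (List.getElem_mem _)).2

/-- every site of the ring of even radius `2 m` has a neighbour in `bx (2 m - 1)` (the corners have even coordinates, so the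
diagonal of the cell inside the ring ends there) -/
theorem z2_nb {m : ℤ} (hm : 1 ≤ m) {x : Pt} (hx : nrm x = 2 * m) : x ∈ Z2.nb (bx (2 * m - 1)) := by
  obtain ⟨a, b⟩ := x
  unfold nrm at hx
  simp only at hx
  have ha : |a| ≤ 2 * m := hx ▸ le_max_left _ _
  have hb : |b| ≤ 2 * m := hx ▸ le_max_right _ _
  have hor : |a| = 2 * m ∨ |b| = 2 * m := by
    rcases max_choice |a| |b| with h | h
    · left
      rw [← hx, h]
    · right
      rw [← hx, h]
  have hne : ∀ i j : ℤ, Z2.ne i j = decide ((i + j) % 2 = 0) := fun i j => rfl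
  have mk : ∀ c d : ℤ, |c| ≤ 2 * m - 1 → |d| ≤ 2 * m - 1 → Z2.Adj (c, d) (a, b) →
      ((a, b) : Pt) ∈ Z2.nb (bx (2 * m - 1)) := by
    intro c d h1 h2 h3
    refine ⟨(c, d), ?_, h3⟩
    unfold bx nrm
    exact max_le h1 h2
  rw [abs_le] at ha hb
  have hcase : (a = 2 * m ∨ a = -(2 * m) ∨ (-(2 * m - 1) ≤ a ∧ a ≤ 2 * m - 1)) ∧
      (b = 2 * m ∨ b = -(2 * m) ∨ (-(2 * m - 1) ≤ b ∧ b ≤ 2 * m - 1)) := by
    constructor <;> omega
  obtain ⟨ha', hb'⟩ := hcase
  have e1 : |2 * m - 1| ≤ 2 * m - 1 := by rw [abs_le]; omega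
  have e2 : |-(2 * m) + 1| ≤ 2 * m - 1 := by rw [abs_le]; omega
  rcases ha' with ha' | ha' | ha' <;> rcases hb' with hb' | hb' | hb'
  · subst ha'
    subst hb'
    refine mk (2 * m - 1) (2 * m - 1) e1 e1 (Or.inl (Or.inr (Or.inr (Or.inl ⟨?_, ?_, ?_⟩))))
    · simp
    · simp
    · rw [hne]
      simp only [decide_eq_true_eq]
      omega
  · subst ha'
    subst hb'
    refine mk (2 * m - 1) (-(2 * m) + 1) e1 e2 (Or.inr (Or.inr (Or.inr (Or.inr ⟨?_, ?_, ?_⟩))))
    · simp
    · simp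
    · rw [hne]
      simp only [decide_eq_false_iff_not]
      omega
  · subst ha'
    refine mk (2 * m - 1) b e1 (by rw [abs_le]; exact hb') (Or.inl (Or.inl ⟨?_, ?_⟩))
    · simp
    · simp
  · subst ha'
    subst hb'
    refine mk (-(2 * m) + 1) (2 * m - 1) e2 e1 (Or.inl (Or.inr (Or.inr (Or.inr ⟨?_, ?_, ?_⟩))))
    · simp
    · simp
    · rw [hne]
      simp only [decide_eq_false_iff_not]
      omega
  · subst ha'
    subst hb'
    refine mk (-(2 * m) + 1) (-(2 * m) + 1) e2 e2 (Or.inr (Or.inr (Or.inr (Or.inl ⟨?_, ?_, ?_⟩))))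
    · simp
    · simp
    · rw [hne]
      simp only [decide_eq_true_eq]
      omega
  · subst ha'
    refine mk (-(2 * m) + 1) b e2 (by rw [abs_le]; exact hb') (Or.inr (Or.inl ⟨?_, ?_⟩))
    · simp
    · simp
  · subst hb'
    refine mk a (2 * m - 1) (by rw [abs_le]; exact ha') e1 (Or.inl (Or.inr (Or.inl ⟨?_, ?_⟩)))
    · simp
    · simp
  · subst hb'
    refine mk a (-(2 * m) + 1) (by rw [abs_le]; exact ha') e2 (Or.inr (Or.inr (Or.inl ⟨?_, ?_⟩)))
    · simp
    · simp
  · exfalso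
    rcases hor with h | h
    · have := abs_le.2 ha'
      omega
    · have := abs_le.2 hb'
      omega

/-- UPPER INCLUSION.  `x, y` = first and last site of `γ₁`, `x', y'` those of `γ₃`; `Cn.of_path` with `nn_adj`; colours by `openPt_iff`; `x ∈ nb (bx ..)` by `z2_nb`.
Not joined: a path of open sites in the annulus from `x` to `x'` gives by `z2_path` a list `δ`, `DPath m m' δ`, whose sites are open; by the separation property
it contains a site of `γ₂` or `γ₄`, which is closed (`closedPt_iff`): contradiction. -/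
theorem fourArms_twoA {m m' : ℕ} (hm : 1 ≤ m) (hm' : m ≤ m') {ω : Cfg}
    (h : SCTop.fourArms m m' (opn (SCTop.edges m') 1 ω)) :
    Z2.TwoA true (2 * m - 1) (2 * m') ω := by
  obtain ⟨γ₁, γ₂, γ₃, γ₄, a1, a2, a3, a4, -, -, hsep⟩ := h
  have hm1 : (1 : ℤ) ≤ (m : ℤ) := by exact_mod_cast hm
  have arm : ∀ γ : List Pt, SCTop.DArm (SCTop.openPt (opn (SCTop.edges m') 1 ω)) m m' γ →
      ∃ x ∈ Z2.nb (bx (2 * (m : ℤ) - 1)), ∃ y ∈ rng (2 * (m' : ℤ)),
        Z2.Cn (ann (2 * (m : ℤ) - 1) (2 * m') ∩ Z2.col true ω) x y ∧ x ∈ γ := by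
    intro γ a
    obtain ⟨x, hx1, hx2⟩ := a.start
    obtain ⟨y, hy1, hy2⟩ := a.fin
    refine ⟨x, z2_nb hm1 hx2, y, hy2, ?_, List.mem_of_head? hx1⟩
    refine Lat.Cn.of_path hx1 hy1 (fun w hw => ?_) ?_
    · have h1 := a.path.ann w hw
      have h2 := a.typ w hw
      refine ⟨⟨?_, h1.2⟩, ?_⟩
      · have h3 : (2 * m : ℤ) ≤ nrm w := h1.1
        omega
      · exact (openPt_iff h1.2).1 h2
    · exact a.path.chain.imp fun u v huv => nn_adj huv
  obtain ⟨x, hx, y, hy, hxy, hxm⟩ := arm γ₁ a1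
  obtain ⟨x', hx', y', hy', hxy', hxm'⟩ := arm γ₃ a3
  refine ⟨x, hx, y, hy, x', hx', y', hy', hxy, hxy', fun hc => ?_⟩
  obtain ⟨δ, d1, d2, d3, d4⟩ := z2_path hc
  have hδ : SCTop.DPath m m' δ := by
    refine ⟨d4, fun v hv => ?_⟩
    have h1 := (d3 v hv).1
    refine ⟨?_, h1.2⟩
    have h2 : 2 * (m : ℤ) - 1 < nrm v := h1.1
    change (2 * m : ℤ) ≤ nrm v
    omega
  obtain ⟨v, hv, hv2⟩ := hsep δ hδ ⟨x, hxm, d1⟩ ⟨x', hxm', d2⟩
  have h1 := (d3 v hv).1.2
  have h2 := (d3 v hv).2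
  have h3 : v ∈ Z2.col false ω := by
    rcases hv2 with h | h
    · exact (closedPt_iff h1).1 (a2.typ v h)
    · exact (closedPt_iff h1).1 (a4.typ v h)
  have h4 : Z2.st ω v = true := h2
  have h5 : Z2.st ω v = false := h3
  rw [h4] at h5
  exact absurd h5 (by decide)

end SC
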