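import Pool.Agent.Lib_MP_e0a489.Defs2
import Pool.Agent.Lib_MP_e0a489.TP4
import Pool.Agent.Lib_MP_e0a489.TP5

/-!
# MP_e0a489, module TP 6: bond percolation, `alpha m m' = al Z2 (2 m - 1) (2 m')`
-/

set_option autoImplicit false

namespace SC

open Classical

theorem bx_eq_rect (R : ℤ) : bx R = rect (-R) R (-R) R := by
  ext v
  show max |v.1| |v.2| ≤ R ↔ ((-R ≤ v.1 ∧ v.1 ≤ R) ∧ -R ≤ v.2 ∧ v.2 ≤ R)
  rw [max_le_iff, abs_le, abs_le]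

theorem sides_eq {R : ℤ} (hR : 0 ≤ R) : sides (-R) R (-R) R = rng R := by
  ext v
  show (((-R ≤ v.1 ∧ v.1 ≤ R) ∧ -R ≤ v.2 ∧ v.2 ≤ R) ∧
    (v.1 = -R ∨ v.1 = R ∨ v.2 = -R ∨ v.2 = R)) ↔ max |v.1| |v.2| = R
  constructor
  · rintro ⟨⟨h1, h2⟩, h3⟩
    apply le_antisymm
    · rw [max_le_iff, abs_le, abs_le]
      exact ⟨h1, h2⟩
    · rw [le_max_iff, le_abs, le_abs]
      omega
  · intro h
    have h1 : max |v.1| |v.2| ≤ R := h.le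
    have h2 : R ≤ max |v.1| |v.2| := h.ge
    rw [max_le_iff, abs_le, abs_le] at h1
    rw [le_max_iff, le_abs, le_abs] at h2
    refine ⟨h1, ?_⟩
    omega

private theorem tp6_in_list {γ : List Pt} {u v : Pt} (h1 : γ.head? = some u)
    (h2 : γ.getLast? = some v) : u ∈ γ ∧ v ∈ γ :=
  ⟨List.mem_of_head? h1, List.mem_of_getLast? h2⟩

private theorem tp6_con {L : Lat} {γ : List Pt} (h : γ.IsChain SCTop.NN) :
    L.Con {v | v ∈ γ} :=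
  Lat.con_list (h.imp fun _ _ hab => nn_adj hab)

private theorem tp6_start {m : ℤ} {x : Pt} (h1 : x ∈ Z2.nb (bx (2 * m - 1)))
    (h2 : 2 * m - 1 < nrm x) : nrm x = 2 * m := by
  obtain ⟨u, hu, hux⟩ := h1
  have hu' : max |u.1| |u.2| ≤ 2 * m - 1 := hu
  have h3 := hux.near
  have h2' : 2 * m - 1 < max |x.1| |x.2| := h2
  show max |x.1| |x.2| = 2 * m
  rw [max_le_iff, abs_le, abs_le] at hu'
  rw [abs_le, abs_le] at h3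
  have h4 : max |x.1| |x.2| ≤ 2 * m := by
    rw [max_le_iff, abs_le, abs_le]
    omega
  omega

/-- LOWER INCLUSION.  `TwoA` gives two open arms in `ann (2m-1) (2m') = bx (2m') \ bx (2m-1)`, from `x₁, x₃ ∈ nb (bx (2m-1))` to `y₁, y₃ ∈ rng (2m')`, not joined.
`dual4` (rectangle `bx (2m')`, `In = bx (2m-1)` (`con_bx`), `k = true`) gives two closed arms `x₂ - y₂`, `x₄ - y₄` and `Alt`.  Let `γᵢ` be the lists of `z2_path`, `Qᵢ = {v | v ∈ γᵢ}`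
(`con_list`, `nn_adj`); `alt_sep`.  `DArm`: first site `xᵢ ∈ nb (bx (2m-1))`, not in `bx (2m-1)`, so `nrm xᵢ = 2 m` (`Adj.near`); last site in `rng (2m')`; types by `openPt_iff`, `closedPt_iff`;
`List.Disjoint`.  For a path `δ` use `Δ = {v | v ∈ δ}`. -/
theorem twoA_fourArms {m m' : ℕ} (hm : 1 ≤ m) (hm' : m ≤ m') {ω : Cfg}
    (h : Z2.TwoA true (2 * m - 1) (2 * m') ω) :
    SCTop.fourArms m m' (opn (SCTop.edges m') 1 ω) := by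
  obtain ⟨x₁, hx₁, y₁, hy₁, x₃, hx₃, y₃, hy₃, c₁, c₃, hn⟩ := h
  have hm0 : (1 : ℤ) ≤ m := by exact_mod_cast hm
  have hmm : (m : ℤ) ≤ m' := by exact_mod_cast hm'
  have hann : ann (2 * (m : ℤ) - 1) (2 * m') =
      rect (-(2 * (m' : ℤ))) (2 * m') (-(2 * (m' : ℤ))) (2 * m') \ bx (2 * m - 1) := by
    rw [← bx_eq_rect]
    ext v
    show (2 * (m : ℤ) - 1 < nrm v ∧ nrm v ≤ 2 * m') ↔ (nrm v ≤ 2 * m' ∧ ¬ nrm v ≤ 2 * m - 1)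
    omega
  have hside : sides (-(2 * (m' : ℤ))) (2 * m') (-(2 * (m' : ℤ))) (2 * m') = rng (2 * m') :=
    sides_eq (by omega)
  have hIn : Z2.Con (bx (2 * (m : ℤ) - 1)) := Lat.con_bx _
  have hne : (bx (2 * (m : ℤ) - 1)).Nonempty := by
    refine ⟨(0, 0), ?_⟩
    show max |(0 : ℤ)| |(0 : ℤ)| ≤ 2 * m - 1
    rw [abs_zero, max_self]
    omega
  have hsub : bx (2 * (m : ℤ) - 1) ⊆
      rect (-(2 * (m' : ℤ))) (2 * m') (-(2 * (m' : ℤ))) (2 * m') := by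
    rw [← bx_eq_rect]
    intro v hv
    have h1 : nrm v ≤ 2 * m - 1 := hv
    show nrm v ≤ 2 * m'
    omega
  have hs : ∀ v ∈ bx (2 * (m : ℤ) - 1),
      v ∉ sides (-(2 * (m' : ℤ))) (2 * m') (-(2 * (m' : ℤ))) (2 * m') := by
    rw [hside]
    intro v hv hv'
    have h1 : nrm v ≤ 2 * m - 1 := hv
    have h2 : nrm v = 2 * m' := hv'
    omega
  rw [hann] at c₁ c₃ hn
  rw [← hside] at hy₁ hy₃
  obtain ⟨x₂, y₂, x₄, y₄, hx₂, hx₄, hy₂, hy₄, c₂, c₄, hAlt⟩ :=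
    Lat.dual4 (L := Z2) (k := true) (ω := ω) (by omega) (by omega) hIn hne hsub hs hx₁ hx₃ hy₁ hy₃
      c₁ c₃ hn
  rw [hside] at hy₁ hy₃ hy₂ hy₄
  rw [← hann] at c₁ c₂ c₃ c₄
  obtain ⟨γ₁, a₁, b₁, d₁, e₁⟩ := z2_path c₁
  obtain ⟨γ₂, a₂, b₂, d₂, e₂⟩ := z2_path c₂
  obtain ⟨γ₃, a₃, b₃, d₃, e₃⟩ := z2_path c₃
  obtain ⟨γ₄, a₄, b₄, d₄, e₄⟩ := z2_path c₄
  obtain ⟨i₁, j₁⟩ := tp6_in_list a₁ b₁
  obtain ⟨i₂, j₂⟩ := tp6_in_list a₂ b₂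
  obtain ⟨i₃, j₃⟩ := tp6_in_list a₃ b₃
  obtain ⟨i₄, j₄⟩ := tp6_in_list a₄ b₄
  have hsepp := Lat.alt_sep (L := Z2) (k := true) (ω := ω) hIn hsub
    (Q₁ := {v | v ∈ γ₁}) (Q₂ := {v | v ∈ γ₂}) (Q₃ := {v | v ∈ γ₃}) (Q₄ := {v | v ∈ γ₄})
    (tp6_con e₁) (tp6_con e₂) (tp6_con e₃) (tp6_con e₄)
    (fun v hv => ⟨by rw [← hann]; exact (d₁ v hv).1, (d₁ v hv).2⟩)
    (fun v hv => ⟨by rw [← hann]; exact (d₂ v hv).1, (d₂ v hv).2⟩)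
    (fun v hv => ⟨by rw [← hann]; exact (d₃ v hv).1, (d₃ v hv).2⟩)
    (fun v hv => ⟨by rw [← hann]; exact (d₄ v hv).1, (d₄ v hv).2⟩)
    ⟨x₁, i₁, hx₁⟩ ⟨x₂, i₂, hx₂⟩ ⟨x₃, i₃, hx₃⟩ ⟨x₄, i₄, hx₄⟩ j₁ j₂ j₃ j₄ hAlt
  obtain ⟨s1, s2, s3⟩ := hsepp
  have hpath : ∀ {c : Bool} {γ : List Pt}, γ.IsChain SCTop.NN →
      (∀ w ∈ γ, w ∈ ann (2 * (m : ℤ) - 1) (2 * m') ∧ w ∈ Z2.col c ω) → SCTop.DPath m m' γ := by
    intro c γ h1 h2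
    refine ⟨h1, fun v hv => ?_⟩
    have h3 : 2 * (m : ℤ) - 1 < nrm v := (h2 v hv).1.1
    have h4 : nrm v ≤ 2 * m' := (h2 v hv).1.2
    show 2 * (m : ℤ) ≤ nrm v ∧ nrm v ≤ 2 * m'
    omega
  have hop : ∀ {x y : Pt} {γ : List Pt}, γ.head? = some x → γ.getLast? = some y →
      γ.IsChain SCTop.NN → x ∈ Z2.nb (bx (2 * (m : ℤ) - 1)) → y ∈ rng (2 * (m' : ℤ)) →
      (∀ w ∈ γ, w ∈ ann (2 * (m : ℤ) - 1) (2 * m') ∧ w ∈ Z2.col true ω) →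
      SCTop.DArm (SCTop.openPt (opn (SCTop.edges m') 1 ω)) m m' γ := by
    intro x y γ h1 h2 h3 h4 h5 h6
    refine ⟨hpath h3 h6, fun v hv => (openPt_iff (h6 v hv).1.2).2 (h6 v hv).2, ⟨x, h1, ?_⟩,
      ⟨y, h2, h5⟩⟩
    exact tp6_start h4 (h6 x (List.mem_of_head? h1)).1.1
  have hcp : ∀ {x y : Pt} {γ : List Pt}, γ.head? = some x → γ.getLast? = some y →
      γ.IsChain SCTop.NN → x ∈ Z2.nb (bx (2 * (m : ℤ) - 1)) → y ∈ rng (2 * (m' : ℤ)) →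
      (∀ w ∈ γ, w ∈ ann (2 * (m : ℤ) - 1) (2 * m') ∧ w ∈ Z2.col false ω) →
      SCTop.DArm (SCTop.closedPt (opn (SCTop.edges m') 1 ω)) m m' γ := by
    intro x y γ h1 h2 h3 h4 h5 h6
    refine ⟨hpath h3 h6, fun v hv => (closedPt_iff (h6 v hv).1.2).2 (h6 v hv).2, ⟨x, h1, ?_⟩,
      ⟨y, h2, h5⟩⟩
    exact tp6_start h4 (h6 x (List.mem_of_head? h1)).1.1
  refine ⟨γ₁, γ₂, γ₃, γ₄, hop a₁ b₁ e₁ hx₁ hy₁ d₁, hcp a₂ b₂ e₂ hx₂ hy₂ d₂,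
    hop a₃ b₃ e₃ hx₃ hy₃ d₃, hcp a₄ b₄ e₄ hx₄ hy₄ d₄, fun v h1 h2 => s2 v h1 h2,
    fun v h1 h2 => s1 v h1 h2, ?_⟩
  rintro δ hδ ⟨u, hu, hu'⟩ ⟨v, hv, hv'⟩
  obtain ⟨z, hz1, hz2⟩ := s3 {w | w ∈ δ} (tp6_con hδ.chain) (by
      intro w hw
      rw [← hann]
      have h1 := hδ.ann w hw
      have h2 : 2 * (m : ℤ) ≤ nrm w := h1.1
      have h3 : nrm w ≤ 2 * m' := h1.2
      exact ⟨by omega, h3⟩) ⟨u, List.mem_of_head? hu', hu⟩ ⟨v, List.mem_of_getLast? hv', hv⟩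
  exact ⟨z, hz1, hz2⟩

/-- `prob_eq` (with `e = 1`), `fourArms_twoA`, `twoA_fourArms`, definition of `al` (`2 m - 1 < 2 m'`) -/
theorem alpha_eq {m m' : ℕ} (hm : 1 ≤ m) (hm' : m ≤ m') :
    SCTop.alpha m m' = al Z2 (2 * m - 1) (2 * m') := by
  have h1 : (2 * (m : ℤ) - 1) < 2 * (m' : ℤ) := by
    have : (m : ℤ) ≤ m' := by exact_mod_cast hm'
    omega
  unfold SCTop.alpha al
  rw [if_pos h1, prob_eq (SCTop.edges m') 1]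
  congr 1
  funext ω
  exact propext ⟨fourArms_twoA hm hm', twoA_fourArms hm hm'⟩

end SC
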