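import Pool.Agent.Lib_MP_e0a489.TP5

/-!
# MP_e0a489, module TP 7: bond percolation, the crossing event
-/

set_option autoImplicit false

namespace SC

open Classical

private theorem tp7_even {ω : Cfg} {v : Pt} (h1 : v.1 % 2 = 0) (h2 : v.2 % 2 = 0) :
    v ∈ Z2.col true ω := by
  show (Z2.typ v).getD (ω v) = true
  have : Z2.typ v = some true := by
    show (if v.1 % 2 = 0 ∧ v.2 % 2 = 0 then some true
      else if v.1 % 2 = 1 ∧ v.2 % 2 = 1 then some false else none) = some true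
    rw [if_pos ⟨h1, h2⟩]
  rw [this]
  rfl

private theorem tp7_oo {ω : Cfg} {v : Pt} (h1 : v.1 % 2 = 1) (h2 : v.2 % 2 = 1) :
    v ∉ Z2.col true ω := by
  intro h
  have h' : (Z2.typ v).getD (ω v) = true := h
  have : Z2.typ v = some false := by
    show (if v.1 % 2 = 0 ∧ v.2 % 2 = 0 then some true
      else if v.1 % 2 = 1 ∧ v.2 % 2 = 1 then some false else none) = some false
    rw [if_neg (by omega), if_pos ⟨h1, h2⟩]
  rw [this] at h'
  exact Bool.noConfusion h'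

private theorem tp7_odd {ω : Cfg} {v : Pt} (h : (v.1 + v.2) % 2 = 1) :
    v ∈ Z2.col true ω ↔ ω v = true := by
  have : Z2.typ v = none := by
    show (if v.1 % 2 = 0 ∧ v.2 % 2 = 0 then some true
      else if v.1 % 2 = 1 ∧ v.2 % 2 = 1 then some false else none) = none
    rw [if_neg (by omega), if_neg (by omega)]
  show (Z2.typ v).getD (ω v) = true ↔ _
  rw [this]
  rfl

private theorem tp7_nn {u v : Pt} (h : SCTop.NN u v) :
    (v.1 = u.1 + 1 ∧ v.2 = u.2) ∨ (v.1 = u.1 - 1 ∧ v.2 = u.2) ∨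
      (v.1 = u.1 ∧ v.2 = u.2 + 1) ∨ (v.1 = u.1 ∧ v.2 = u.2 - 1) := by
  have h' : |u.1 - v.1| + |u.2 - v.2| = 1 := h
  rcases abs_cases (u.1 - v.1) with ⟨e1, _⟩ | ⟨e1, _⟩ <;>
    rcases abs_cases (u.2 - v.2) with ⟨e2, _⟩ | ⟨e2, _⟩ <;> rw [e1, e2] at h' <;> omega

private theorem tp7_nn' {u v : Pt} (h : (v.1 = u.1 + 1 ∧ v.2 = u.2) ∨
    (v.1 = u.1 - 1 ∧ v.2 = u.2) ∨ (v.1 = u.1 ∧ v.2 = u.2 + 1) ∨ (v.1 = u.1 ∧ v.2 = u.2 - 1)) :
    SCTop.NN u v := by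
  show |u.1 - v.1| + |u.2 - v.2| = 1
  rcases h with ⟨h1, h2⟩ | ⟨h1, h2⟩ | ⟨h1, h2⟩ | ⟨h1, h2⟩ <;> rw [h1, h2]
  · rw [show u.1 - (u.1 + 1) = -1 by ring, show u.2 - u.2 = 0 by ring]; norm_num
  · rw [show u.1 - (u.1 - 1) = 1 by ring, show u.2 - u.2 = 0 by ring]; norm_num
  · rw [show u.2 - (u.2 + 1) = -1 by ring, show u.1 - u.1 = 0 by ring]; norm_num
  · rw [show u.2 - (u.2 - 1) = 1 by ring, show u.1 - u.1 = 0 by ring]; norm_num

private theorem tp7_edge {n : ℕ} {ω : Cfg} {v : Pt} (h1 : -(2 * n : ℤ) ≤ v.1)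
    (h2 : v.1 ≤ 2 * n) (h3 : -(2 * n : ℤ) ≤ v.2) (h4 : v.2 ≤ 2 * n) (h : (v.1 + v.2) % 2 = 1)
    (hω : ω v = true) : v ∈ opn (SCTop.edges n) 1 ω := by
  rw [mem_opn]
  refine ⟨?_, hω⟩
  rw [mem_edges]
  refine ⟨?_, h⟩
  show max |v.1| |v.2| ≤ 2 * n
  exact max_le (abs_le.2 ⟨by linarith, h2⟩) (abs_le.2 ⟨by linarith, h4⟩)

private theorem tp7_edge' {n : ℕ} {ω : Cfg} {v : Pt} (h : v ∈ opn (SCTop.edges n) 1 ω) :
    (-(2 * n : ℤ) ≤ v.1 ∧ v.1 ≤ 2 * n) ∧ (-(2 * n : ℤ) ≤ v.2 ∧ v.2 ≤ 2 * n) ∧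
      (v.1 + v.2) % 2 = 1 ∧ ω v = true := by
  rw [mem_opn, mem_edges] at h
  obtain ⟨⟨h1, h2⟩, h3⟩ := h
  have h1' : max |v.1| |v.2| ≤ 2 * n := h1
  have ha := abs_le.1 ((le_max_left _ _).trans h1')
  have hb := abs_le.1 ((le_max_right _ _).trans h1')
  exact ⟨ha, hb, h2, h3⟩

/-- Doubling a path of vertices: `2 a`, `a + b`, `2 b` are consecutive sites of `Z2`; `a + b ∈ A` is an open edge of `edges n`, so it is in the square, and `2 b` has
coordinates `≤ 2 n + 1` in absolute value, even, so `≤ 2 n`.  Induction along `ReflTransGen`. -/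
theorem crossing_double {n : ℕ} {ω : Cfg} {u v : Pt} (hu1 : |u.1| ≤ n) (hu2 : |u.2| ≤ n)
    (h : Relation.ReflTransGen
      (fun a b => SCTop.NN a b ∧ a + b ∈ opn (SCTop.edges n) 1 ω) u v) :
    Z2.Cn (rect (-(2 * n)) (2 * n) (-(2 * n)) (2 * n) ∩ Z2.col true ω) (u + u) (v + v) := by
  induction h with
  | refl =>
    have ha := abs_le.1 hu1
    have hb := abs_le.1 hu2
    refine ⟨⟨⟨⟨?_, ?_⟩, ?_, ?_⟩, ?_⟩, Relation.ReflTransGen.refl⟩
    · show -(2 * (n : ℤ)) ≤ u.1 + u.1; omega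
    · show u.1 + u.1 ≤ 2 * (n : ℤ); omega
    · show -(2 * (n : ℤ)) ≤ u.2 + u.2; omega
    · show u.2 + u.2 ≤ 2 * (n : ℤ); omega
    · exact tp7_even (by show (u.1 + u.1) % 2 = 0; omega) (by show (u.2 + u.2) % 2 = 0; omega)
  | @tail b c _ hbc ih =>
    obtain ⟨hnn, hop⟩ := hbc
    obtain ⟨h1, h2⟩ := ih
    have he := tp7_edge' hop
    obtain ⟨⟨e1, e2⟩, ⟨e3, e4⟩, e5, e6⟩ := he
    have e1' : -(2 * (n : ℤ)) ≤ b.1 + c.1 := e1
    have e2' : b.1 + c.1 ≤ 2 * (n : ℤ) := e2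
    have e3' : -(2 * (n : ℤ)) ≤ b.2 + c.2 := e3
    have e4' : b.2 + c.2 ≤ 2 * (n : ℤ) := e4
    have hc := tp7_nn hnn
    have s1 : Z2.Adj (b + b) (b + c) := by
      apply nn_adj
      apply tp7_nn'
      show (b.1 + c.1 = b.1 + b.1 + 1 ∧ b.2 + c.2 = b.2 + b.2) ∨
        (b.1 + c.1 = b.1 + b.1 - 1 ∧ b.2 + c.2 = b.2 + b.2) ∨
        (b.1 + c.1 = b.1 + b.1 ∧ b.2 + c.2 = b.2 + b.2 + 1) ∨
        (b.1 + c.1 = b.1 + b.1 ∧ b.2 + c.2 = b.2 + b.2 - 1)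
      omega
    have s2 : Z2.Adj (b + c) (c + c) := by
      apply nn_adj
      apply tp7_nn'
      show (c.1 + c.1 = b.1 + c.1 + 1 ∧ c.2 + c.2 = b.2 + c.2) ∨
        (c.1 + c.1 = b.1 + c.1 - 1 ∧ c.2 + c.2 = b.2 + c.2) ∨
        (c.1 + c.1 = b.1 + c.1 ∧ c.2 + c.2 = b.2 + c.2 + 1) ∨
        (c.1 + c.1 = b.1 + c.1 ∧ c.2 + c.2 = b.2 + c.2 - 1)
      omega
    have m1 : b + c ∈ rect (-(2 * n)) (2 * n) (-(2 * n)) (2 * n) ∩ Z2.col true ω :=
      ⟨⟨⟨e1', e2'⟩, e3', e4'⟩, (tp7_odd e5).2 e6⟩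
    have m2 : c + c ∈ rect (-(2 * n)) (2 * n) (-(2 * n)) (2 * n) ∩ Z2.col true ω := by
      refine ⟨⟨⟨?_, ?_⟩, ?_, ?_⟩, ?_⟩
      · show -(2 * (n : ℤ)) ≤ c.1 + c.1; omega
      · show c.1 + c.1 ≤ 2 * (n : ℤ); omega
      · show -(2 * (n : ℤ)) ≤ c.2 + c.2; omega
      · show c.2 + c.2 ≤ 2 * (n : ℤ); omega
      · exact tp7_even (by show (c.1 + c.1) % 2 = 0; omega) (by show (c.2 + c.2) % 2 = 0; omega)
    exact ⟨h1, (h2.tail ⟨s1, m1⟩).tail ⟨s2, m2⟩⟩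

/-- Halving a path of open sites of `Z2`.  `P w` = for every `b` with `w = b + b` or `NN (b + b) w`: the vertices `u` and `b` are joined by open edges.  `P` is kept along an open path in the
square: the step from `w` to `w'` is a nearest neighbour step (`z2_nn`).  If `w' = b + b` then `NN (b + b) w`, use `P w`.  If `w'` is an edge (odd sum, `w' ∈ edges n`, open) then `w = a + a`
with `NN (a + a) w'`, `w' = a + a'` with `NN a a'` (`a' = w' - a`), and the only `b` with `NN (b + b) w'` are `a` and `a'`; `P w` gives `u - a`, one more step gives `a'`. -/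
theorem crossing_half {n : ℕ} {ω : Cfg} {x w u : Pt}
    (h : Z2.Cn (rect (-(2 * n)) (2 * n) (-(2 * n)) (2 * n) ∩ Z2.col true ω) x w)
    (hx : ∀ b : Pt, (x = b + b ∨ SCTop.NN (b + b) x) → Relation.ReflTransGen
      (fun a b => SCTop.NN a b ∧ a + b ∈ opn (SCTop.edges n) 1 ω) u b) (b : Pt)
    (hb : w = b + b ∨ SCTop.NN (b + b) w) :
    Relation.ReflTransGen (fun a b => SCTop.NN a b ∧ a + b ∈ opn (SCTop.edges n) 1 ω) u b := by
  obtain ⟨hx0, h⟩ := h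
  induction h generalizing b with
  | refl => exact hx b hb
  | @tail w' w hw hww ih =>
    obtain ⟨hadj, hwD⟩ := hww
    have hw'D : w' ∈ rect (-(2 * n)) (2 * n) (-(2 * n)) (2 * n) ∩ Z2.col true ω := by
      rcases Relation.ReflTransGen.cases_tail hw with h0 | ⟨_, _, h2⟩
      · rw [h0]; exact hx0
      · exact h2.2
    have hnn := tp7_nn (z2_nn hadj hw'D.2 hwD.2)
    rcases hb with hb | hb
    · apply ih b
      right
      apply tp7_nn'
      have e1 : w.1 = b.1 + b.1 := by rw [hb]; rfl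
      have e2 : w.2 = b.2 + b.2 := by rw [hb]; rfl
      show (w'.1 = b.1 + b.1 + 1 ∧ w'.2 = b.2 + b.2) ∨
        (w'.1 = b.1 + b.1 - 1 ∧ w'.2 = b.2 + b.2) ∨
        (w'.1 = b.1 + b.1 ∧ w'.2 = b.2 + b.2 + 1) ∨
        (w'.1 = b.1 + b.1 ∧ w'.2 = b.2 + b.2 - 1)
      omega
    · have hb' : (w.1 = b.1 + b.1 + 1 ∧ w.2 = b.2 + b.2) ∨ (w.1 = b.1 + b.1 - 1 ∧ w.2 = b.2 + b.2) ∨
          (w.1 = b.1 + b.1 ∧ w.2 = b.2 + b.2 + 1) ∨ (w.1 = b.1 + b.1 ∧ w.2 = b.2 + b.2 - 1) :=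
        tp7_nn hb
      have hev : w'.1 % 2 = 0 ∧ w'.2 % 2 = 0 := by
        by_contra hcon
        have : w'.1 % 2 = 1 ∧ w'.2 % 2 = 1 := by omega
        exact tp7_oo this.1 this.2 hw'D.2
      obtain ⟨a, ha1, ha2⟩ : ∃ a : Pt, w'.1 = a.1 + a.1 ∧ w'.2 = a.2 + a.2 :=
        ⟨(w'.1 / 2, w'.2 / 2), by show w'.1 = w'.1 / 2 + w'.1 / 2; omega,
          by show w'.2 = w'.2 / 2 + w'.2 / 2; omega⟩
      have hwa : w' = a + a := Prod.ext ha1 ha2
      have hodd : (w.1 + w.2) % 2 = 1 := by omega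
      obtain ⟨⟨⟨r1, r2⟩, r3, r4⟩, hcol⟩ := hwD
      have hop : w ∈ opn (SCTop.edges n) 1 ω :=
        tp7_edge (by exact_mod_cast r1) r2 (by exact_mod_cast r3) r4 hodd ((tp7_odd hodd).1 hcol)
      by_cases hab : a = b
      · subst hab
        exact ih a (Or.inl hwa)
      · have h1 := ih a (Or.inl hwa)
        have hab' : ¬ (a.1 = b.1 ∧ a.2 = b.2) := fun hh => hab (Prod.ext hh.1 hh.2)
        have hsum : a + b = w := by
          refine Prod.ext ?_ ?_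
          · show a.1 + b.1 = w.1; omega
          · show a.2 + b.2 = w.2; omega
        refine h1.tail ⟨?_, ?_⟩
        · apply tp7_nn'
          omega
        · rw [hsum]; exact hop

/-- CROSSING.  From right to left `crossing_double`.  From left to right: the first site `x` of the path has `x.1 = -2n`; if it is `(−2n, 2k)` put `u = (−n, k)`; if it is an
edge `(-2n, 2k+1)` put `u = (-n, k)` (the edge joins `(-n,k)` and `(-n,k+1)`; `(-n, k)` is the other end of no horizontal edge: the `b` with `NN (b + b) x` are `(-n,k)` and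
`(-n,k+1)`), so the hypothesis `hx` of `crossing_half` holds.  Last site `w`, `w.1 = 2n`: either `w = b + b` or `w = b + b + (0,1)` with `b.1 = n`, `|b.2| ≤ n`. -/
theorem crossing_iff (n : ℕ) (ω : Cfg) :
    Z2.Arm true (rect (-(2 * n)) (2 * n) (-(2 * n)) (2 * n)) {v | v.1 = -(2 * n)}
      {v | v.1 = 2 * n} ω ↔ SCTop.crossing n (opn (SCTop.edges n) 1 ω) := by
  constructor
  · rintro ⟨x, hx, y, hy, hc⟩
    have hx1 : x.1 = -(2 * (n : ℤ)) := hx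
    have hy1 : y.1 = 2 * (n : ℤ) := hy
    obtain ⟨⟨⟨⟨r1, r2⟩, r3, r4⟩, hcol⟩, hch⟩ := hc
    have hyD : y ∈ rect (-(2 * n)) (2 * n) (-(2 * n)) (2 * n) ∩ Z2.col true ω := by
      rcases Relation.ReflTransGen.cases_tail hch with h0 | ⟨_, _, h2⟩
      · rw [h0]; exact ⟨⟨⟨r1, r2⟩, r3, r4⟩, hcol⟩
      · exact h2.2
    obtain ⟨⟨⟨q1, q2⟩, q3, q4⟩, hcol'⟩ := hyD
    have r3' : -(2 * (n : ℤ)) ≤ x.2 := r3
    have r4' : x.2 ≤ 2 * (n : ℤ) := r4
    have q3' : -(2 * (n : ℤ)) ≤ y.2 := q3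
    have q4' : y.2 ≤ 2 * (n : ℤ) := q4
    refine ⟨(-(n : ℤ), x.2 / 2), ((n : ℤ), y.2 / 2), rfl, ?_, rfl, ?_, ?_⟩
    · show |x.2 / 2| ≤ (n : ℤ)
      exact abs_le.2 ⟨by omega, by omega⟩
    · show |y.2 / 2| ≤ (n : ℤ)
      exact abs_le.2 ⟨by omega, by omega⟩
    · refine crossing_half (x := x) (w := y) ⟨⟨⟨⟨r1, r2⟩, r3, r4⟩, hcol⟩, hch⟩ ?_ _ ?_
      · intro b hb
        rcases hb with hb | hb
        · have e1 : x.1 = b.1 + b.1 := by rw [hb]; rfl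
          have e2 : x.2 = b.2 + b.2 := by rw [hb]; rfl
          have : ((-(n : ℤ), x.2 / 2) : Pt) = b := by
            refine Prod.ext ?_ ?_
            · show -(n : ℤ) = b.1; omega
            · show x.2 / 2 = b.2; omega
          rw [this]
        · have hb' : (x.1 = b.1 + b.1 + 1 ∧ x.2 = b.2 + b.2) ∨
              (x.1 = b.1 + b.1 - 1 ∧ x.2 = b.2 + b.2) ∨
              (x.1 = b.1 + b.1 ∧ x.2 = b.2 + b.2 + 1) ∨
              (x.1 = b.1 + b.1 ∧ x.2 = b.2 + b.2 - 1) := tp7_nn hb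
          have hodd : (x.1 + x.2) % 2 = 1 := by omega
          have hop : x ∈ opn (SCTop.edges n) 1 ω :=
            tp7_edge (by omega) (by omega) r3' r4' hodd ((tp7_odd hodd).1 hcol)
          by_cases hk : b.2 = x.2 / 2
          · have : ((-(n : ℤ), x.2 / 2) : Pt) = b := by
              refine Prod.ext ?_ ?_
              · show -(n : ℤ) = b.1; omega
              · show x.2 / 2 = b.2; omega
            rw [this]
          · refine Relation.ReflTransGen.single ⟨?_, ?_⟩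
            · apply tp7_nn'
              show (b.1 = -(n : ℤ) + 1 ∧ b.2 = x.2 / 2) ∨ (b.1 = -(n : ℤ) - 1 ∧ b.2 = x.2 / 2) ∨
                (b.1 = -(n : ℤ) ∧ b.2 = x.2 / 2 + 1) ∨ (b.1 = -(n : ℤ) ∧ b.2 = x.2 / 2 - 1)
              omega
            · have : ((-(n : ℤ), x.2 / 2) : Pt) + b = x := by
                refine Prod.ext ?_ ?_
                · show -(n : ℤ) + b.1 = x.1; omega
                · show x.2 / 2 + b.2 = x.2; omega
              rw [this]; exact hop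
      · by_cases hev : y.2 % 2 = 0
        · left
          refine Prod.ext ?_ ?_
          · show y.1 = (n : ℤ) + (n : ℤ); omega
          · show y.2 = y.2 / 2 + y.2 / 2; omega
        · right
          apply tp7_nn'
          show (y.1 = (n : ℤ) + (n : ℤ) + 1 ∧ y.2 = y.2 / 2 + y.2 / 2) ∨
            (y.1 = (n : ℤ) + (n : ℤ) - 1 ∧ y.2 = y.2 / 2 + y.2 / 2) ∨
            (y.1 = (n : ℤ) + (n : ℤ) ∧ y.2 = y.2 / 2 + y.2 / 2 + 1) ∨
            (y.1 = (n : ℤ) + (n : ℤ) ∧ y.2 = y.2 / 2 + y.2 / 2 - 1)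
          omega
  · rintro ⟨u, v, hu1, hu2, hv1, _, hch⟩
    refine ⟨u + u, ?_, v + v, ?_, ?_⟩
    · show u.1 + u.1 = -(2 * (n : ℤ))
      rw [hu1]; ring
    · show v.1 + v.1 = 2 * (n : ℤ)
      rw [hv1]; ring
    · refine crossing_double ?_ hu2 hch
      rw [hu1, abs_neg]
      exact (abs_of_nonneg (by omega)).le

end SC
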