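import Pool.Agent.Lib_MP_e0a489.TP12
import Pool.Agent.Lib_MP_e0a489.TP6
import Pool.Agent.Lib_MP_e0a489.TP7

/-!
# MP_e0a489, module TP 13: bond percolation as a model, diameter
-/

set_option autoImplicit false

namespace SC

variable [IfL] [IfX] [IfT]

open Classical

/-- distance of two midpoints: `sqrt ((a / 2)² + (b / 2)²) ≤ 3 / 4 max |a| |b|` -/
theorem mid_dist (u v : Pt) : dist (SCTop.mid u) (SCTop.mid v) ≤ 3 / 4 * nrm (u - v) := by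
  have h1 : |((u.1 : ℝ) - v.1)| ≤ (nrm (u - v) : ℝ) := by
    have h : |(u - v).1| ≤ nrm (u - v) := le_max_left _ _
    have h2 : ((|(u - v).1| : ℤ) : ℝ) ≤ (nrm (u - v) : ℝ) := by exact_mod_cast h
    have h3 : ((|(u - v).1| : ℤ) : ℝ) = |((u.1 : ℝ) - v.1)| := by
      simp [Int.cast_abs]
    rwa [h3] at h2
  have h2 : |((u.2 : ℝ) - v.2)| ≤ (nrm (u - v) : ℝ) := by
    have h : |(u - v).2| ≤ nrm (u - v) := le_max_right _ _
    have h2 : ((|(u - v).2| : ℤ) : ℝ) ≤ (nrm (u - v) : ℝ) := by exact_mod_cast h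
    have h3 : ((|(u - v).2| : ℤ) : ℝ) = |((u.2 : ℝ) - v.2)| := by
      simp [Int.cast_abs]
    rwa [h3] at h2
  have h0 : (0 : ℝ) ≤ (nrm (u - v) : ℝ) := le_trans (abs_nonneg _) h1
  rw [EuclideanSpace.dist_eq, Real.sqrt_le_left (by positivity), Fin.sum_univ_two]
  have e1 : dist (SCTop.mid u 0) (SCTop.mid v 0) = |((u.1 : ℝ) - v.1)| / 2 := by
    have h : dist (SCTop.mid u 0) (SCTop.mid v 0) = |(u.1 : ℝ) / 2 - (v.1 : ℝ) / 2| := by
      simp [SCTop.mid, Real.dist_eq]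
    rw [h, ← sub_div, abs_div, abs_of_pos (by norm_num : (0 : ℝ) < 2)]
  have e2 : dist (SCTop.mid u 1) (SCTop.mid v 1) = |((u.2 : ℝ) - v.2)| / 2 := by
    have h : dist (SCTop.mid u 1) (SCTop.mid v 1) = |(u.2 : ℝ) / 2 - (v.2 : ℝ) / 2| := by
      simp [SCTop.mid, Real.dist_eq]
    rw [h, ← sub_div, abs_div, abs_of_pos (by norm_num : (0 : ℝ) < 2)]
  rw [e1, e2]
  have a1 := abs_nonneg ((u.1 : ℝ) - v.1)
  have a2 := abs_nonneg ((u.2 : ℝ) - v.2)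
  nlinarith [mul_self_le_mul_self a1 h1, mul_self_le_mul_self a2 h2]

/-- the points of an edge have distance at most `1 / 2` from its midpoint -/
theorem seg_dist {e : Pt} {p : EuclideanSpace ℝ (Fin 2)} (hp : p ∈ SCTop.seg e) :
    dist p (SCTop.mid e) ≤ 1 / 2 := by
  have key : ∀ a : Pt, (a = (1, 0) ∨ a = (0, 1)) → ∀ q ∈ segment ℝ (SCTop.mid (e - a)) (SCTop.mid (e + a)),
      dist q (SCTop.mid e) ≤ 1 / 2 := by
    intro a ha q hq
    have hb : ∀ b : Pt, (b = e - a ∨ b = e + a) → dist (SCTop.mid b) (SCTop.mid e) ≤ 1 / 2 := by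
      intro b hb
      rw [EuclideanSpace.dist_eq, Real.sqrt_le_left (by norm_num), Fin.sum_univ_two]
      rcases ha with rfl | rfl <;> rcases hb with rfl | rfl <;>
        simp [SCTop.mid, Real.dist_eq] <;> ring_nf <;> norm_num
    exact (convex_closedBall (SCTop.mid e) (1 / 2)).segment_subset (hb _ (Or.inl rfl))
      (hb _ (Or.inr rfl)) hq
  unfold SCTop.seg at hp
  split at hp
  · exact key (1, 0) (Or.inl rfl) p hp
  · exact key (0, 1) (Or.inr rfl) p hp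

/-- distance of two points on edges -/
theorem seg_dist2 {u v : Pt} {p q : EuclideanSpace ℝ (Fin 2)} (hp : p ∈ SCTop.seg u)
    (hq : q ∈ SCTop.seg v) : dist p q ≤ 1 + 3 / 4 * nrm (u - v) := by
  have h1 := dist_triangle4 p (SCTop.mid u) (SCTop.mid v) q
  have h2 := seg_dist hp
  have h3 := seg_dist hq
  rw [dist_comm] at h3
  have h4 := mid_dist u v
  linarith

/-- `Metric.diam_le_of_forall_dist_le` with the bound `3 n + 1 ≤ 4 n`: the coordinates of `u - v` are at most `4 n`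
(`mem_edges`), `seg_dist2` -/
theorem z2_dm_le {n : ℕ} (hn : 1 ≤ n) {S : Finset Pt} (hS : S ⊆ SCTop.edges n) :
    SCTop.diam S ≤ 4 * n := by
  refine Metric.diam_le_of_forall_dist_le (by positivity) ?_
  intro p hp q hq
  obtain ⟨u, hu, hp⟩ := Set.mem_iUnion₂.mp hp
  obtain ⟨v, hv, hq⟩ := Set.mem_iUnion₂.mp hq
  refine le_trans (seg_dist2 hp hq) ?_
  have hu' := (mem_edges.mp (hS hu)).1
  have hv' := (mem_edges.mp (hS hv)).1
  have h : nrm (u - v) ≤ 4 * n := by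
    unfold nrm at *
    have a1 := abs_le.mp (le_trans (le_max_left _ _) hu')
    have a2 := abs_le.mp (le_trans (le_max_right _ _) hu')
    have b1 := abs_le.mp (le_trans (le_max_left _ _) hv')
    have b2 := abs_le.mp (le_trans (le_max_right _ _) hv')
    refine max_le (abs_le.mpr ?_) (abs_le.mpr ?_)
    · have e : (u - v).1 = u.1 - v.1 := rfl
      rw [e]
      constructor <;> linarith [a1.1, a1.2, b1.1, b1.2]
    · have e : (u - v).2 = u.2 - v.2 := rfl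
      rw [e]
      constructor <;> linarith [a2.1, a2.2, b2.1, b2.2]
  have h' : (nrm (u - v) : ℝ) ≤ 4 * n := by exact_mod_cast h
  have h1 : (1 : ℝ) ≤ n := by exact_mod_cast hn
  linarith

/-- Otherwise `nrm (u - v) ≤ ⌊d/2⌋ - 1 ≤ d/2 - 1` for all `u, v ∈ S`, so `diam S ≤ 1 + 3/4 (d/2 - 1) < d`
(`Metric.diam_le_of_forall_dist_le`, `seg_dist2`). -/
theorem z2_dm_far {S : Finset Pt} {d : ℝ} (hd : 1 ≤ d) (h : d ≤ SCTop.diam S) :
    ∃ u ∈ S, ∃ v ∈ S, ⌊d / 2⌋ ≤ nrm (u - v) := by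
  by_contra hcon
  push Not at hcon
  have hle : SCTop.diam S ≤ 1 / 4 + 3 / 8 * d := by
    refine Metric.diam_le_of_forall_dist_le (by linarith) ?_
    intro p hp q hq
    obtain ⟨u, hu, hp⟩ := Set.mem_iUnion₂.mp hp
    obtain ⟨v, hv, hq⟩ := Set.mem_iUnion₂.mp hq
    refine le_trans (seg_dist2 hp hq) ?_
    have h1 : nrm (u - v) + 1 ≤ ⌊d / 2⌋ := hcon u hu v hv
    have h2 : (nrm (u - v) : ℝ) + 1 ≤ (⌊d / 2⌋ : ℝ) := by exact_mod_cast h1
    have h3 := Int.floor_le (d / 2)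
    linarith
  linarith

/-- `1 ≤ r ≤ R`: `alpha4 r R = al Z2 (2 ⌊r⌋ - 1) (2 ⌊R⌋)` (`alpha_eq`, `Int.floor_toNat`/`natCast_floor_eq_intFloor`) -/
theorem alpha4_eq {r R : ℝ} (hr : 1 ≤ r) (hrR : r ≤ R) :
    SCTop.alpha4 r R = al Z2 (2 * ⌊r⌋ - 1) (2 * ⌊R⌋) := by
  have h1 : 1 ≤ ⌊r⌋₊ := (Nat.one_le_floor_iff r).mpr hr
  have h2 : ⌊r⌋₊ ≤ ⌊R⌋₊ := Nat.floor_mono hrR
  have e1 : ((⌊r⌋₊ : ℕ) : ℤ) = ⌊r⌋ := Int.natCast_floor_eq_floor (by linarith)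
  have e2 : ((⌊R⌋₊ : ℕ) : ℤ) = ⌊R⌋ := Int.natCast_floor_eq_floor (by linarith)
  rw [SCTop.alpha4, alpha_eq h1 h2, e1, e2]

/-- `nonneg`, `le1`: `prob` is a quotient between `0` and `1` (`prob_eq`, `pr_nonneg`, `pr_le_one`).  `low`, `up`: `alpha4_eq` and `hm` (`max (⌊r⌋ - 2) 1 ≤ 2 ⌊r⌋ - 1 ≤ 2 ⌊R⌋ ≤ ⌊2R⌋ + 1`;
`1 ≤ 2 ≤ ⌊r⌋ - 2 ≤ 2 ⌊r⌋`). -/
theorem beta_z2 (hm : ∀ r R r' R', 0 ≤ r' → r' ≤ r → r ≤ R → R ≤ R' → al Z2 r' R' ≤ al Z2 r R) :
    Beta Z2 1 SCTop.alpha4 := by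
  refine ⟨?_, ?_, ?_, ?_⟩
  · intro r R
    rw [SCTop.alpha4, SCTop.alpha, prob_eq _ 1]
    exact pr_nonneg _
  · intro r R
    rw [SCTop.alpha4, SCTop.alpha, prob_eq _ 1]
    exact pr_le_one _
  · intro r R hr hrR
    rw [alpha4_eq hr hrR]
    have h1 : 1 ≤ ⌊r⌋ := Int.le_floor.mpr (by exact_mod_cast hr)
    have h2 : ⌊r⌋ ≤ ⌊R⌋ := Int.floor_mono hrR
    have h3 : 2 * ⌊R⌋ ≤ ⌊2 * R⌋ := by
      refine Int.le_floor.mpr ?_
      push_cast
      linarith [Int.floor_le R]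
    refine hm _ _ _ _ (le_trans (by norm_num) (le_max_right _ _)) (max_le ?_ ?_) ?_ ?_ <;> linarith
  · intro r hr
    rw [alpha4_eq le_rfl (by linarith)]
    have h1 : 5 ≤ ⌊r⌋ := Int.le_floor.mpr (by exact_mod_cast hr)
    have h2 : (⌊(1 : ℝ)⌋ : ℤ) = 1 := Int.floor_one
    rw [h2]
    refine hm _ _ _ _ ?_ ?_ ?_ ?_ <;> linarith

/-- `dom N N' ∅ = rect`, `rside N ∅ = {v | v.1 = N}`, `crossing_iff`; `mem_edges`; `pr_ge`: the event is `HX true (-2n) (2n) (-2n) (2n)`, `RSW.hx'` with `k = 1` (`4 ≤ 4 n`);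
`z2_dm_le`, `z2_dm_far`. -/
theorem model_z2 {κ : ℕ → ℝ} (h : RSW Z2 κ) :
    Model Z2 SCTop.edges SCTop.crossing SCTop.diam 1 (fun n => 2 * n) (fun n => 2 * n)
      (fun _ => ∅) (κ 1) := by
  have hdom : ∀ n : ℕ, dom (2 * (n : ℤ)) (2 * n) ∅ = rect (-(2 * n)) (2 * n) (-(2 * n)) (2 * n) := by
    intro n
    unfold dom
    rw [Set.sdiff_empty]
  have hrs : ∀ n : ℕ, rside (2 * (n : ℤ)) ∅ = {v : Pt | v.1 = 2 * (n : ℤ)} := by
    intro n
    ext v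
    simp [rside]
  refine ⟨h.pos 1, ?_, ?_, ?_, ?_, ?_, ?_, ?_, ?_⟩
  · intro n hn
    constructor
    · show (n : ℤ) ≤ 2 * n
      linarith
    · exact le_rfl
  · intro n hn
    constructor
    · show (2 * n : ℤ) ≤ 2 * (2 * n)
      linarith
    · show (2 * n : ℤ) ≤ 2 * (2 * n)
      linarith
  · intro n hn e he
    exact absurd he (Set.notMem_empty e)
  · intro n hn v hv
    have h1 := (mem_edges.mp hv).1
    unfold nrm at h1
    have a1 := abs_le.mp (le_trans (le_max_left _ _) h1)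
    have a2 := abs_le.mp (le_trans (le_max_right _ _) h1)
    show v ∈ dom (2 * (n : ℤ)) (2 * n) ∅
    rw [hdom]
    exact ⟨⟨a1.1, a1.2⟩, a2.1, a2.2⟩
  · intro n hn ω
    show Z2.Arm true (dom (2 * (n : ℤ)) (2 * n) ∅) {v | v.1 = -(2 * (n : ℤ))}
      (rside (2 * (n : ℤ)) ∅) ω ↔ _
    rw [hdom, hrs]
    exact crossing_iff n ω
  · intro n hn
    have h1 := h.hx 1 true (4 * (n : ℤ)) (-(2 * n)) (-(2 * n)) le_rfl (by linarith [(by exact_mod_cast hn : (1 : ℤ) ≤ n)])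
    have e1 : -(2 * (n : ℤ)) + ((1 : ℕ) : ℤ) * (4 * (n : ℤ)) = 2 * n := by push_cast; ring
    have e2 : -(2 * (n : ℤ)) + 4 * (n : ℤ) = 2 * n := by ring
    rw [e1, e2] at h1
    refine le_trans h1 (le_of_eq ?_)
    congr 1
    funext ω
    show Z2.HX true (-(2 * (n : ℤ))) (2 * n) (-(2 * n)) (2 * n) ω =
      Z2.Arm true (dom (2 * (n : ℤ)) (2 * n) ∅) {v | v.1 = -(2 * (n : ℤ))}
      (rside (2 * (n : ℤ)) ∅) ω
    rw [hdom, hrs]
    refine propext ⟨?_, ?_⟩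
    · rintro ⟨u, v, hu, hv, hc⟩
      exact ⟨u, hu, v, hv, hc⟩
    · rintro ⟨u, hu, v, hv, hc⟩
      exact ⟨u, v, hu, hv, hc⟩
  · intro n S hn hS
    exact z2_dm_le hn hS
  · intro S d hd hS
    exact z2_dm_far hd hS

end SC
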