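import Pool.Agent.Lib_MP_e0a489.TB5
import Pool.Agent.Lib_MP_e0a489.TD1
import Pool.Agent.Lib_MP_e0a489.TP2

/-!
# MP_e0a489, module TP 3: two open arms are separated by two closed arms (duality in a rectangle)
-/

set_option autoImplicit false

namespace SC

open Classical

/-- the sites on the four sides of a rectangle -/
def sides (a b c d : ℤ) : Set Pt :=
  {v | v ∈ rect a b c d ∧ (v.1 = a ∨ v.1 = b ∨ v.2 = c ∨ v.2 = d)}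

namespace Lat

/-- alternating order of four sites on the boundary of a rectangle, in the form in which it is used -/
def Alt (L : Lat) (a b c d : ℤ) (y₁ y₂ y₃ y₄ : Pt) : Prop :=
  ∀ P P' : Set Pt, L.Con P → L.Con P' → P ⊆ rect a b c d → P' ⊆ rect a b c d → y₁ ∈ P →
    y₃ ∈ P → y₂ ∈ P' → y₄ ∈ P' → (P ∩ P').Nonempty

variable {L : Lat} {a b c d : ℤ} {k : Bool} {ω : Cfg}

theorem Alt.swap {y₁ y₂ y₃ y₄ : Pt} (h : L.Alt a b c d y₁ y₂ y₃ y₄) :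
    L.Alt a b c d y₃ y₂ y₁ y₄ := by
  intro P P' hP hP' hPr hPr' h3 h1 h2 h4
  exact h P P' hP hP' hPr hPr' h1 h3 h2 h4

/-- order `i₁ < i₂ < i₃ < i₄` of the indices (`interlace`) -/
theorem alt_of (hab : a < b) (hcd : c < d) {i₁ i₂ i₃ i₄ : ℤ} (h0 : 0 ≤ i₁) (h12 : i₁ < i₂)
    (h23 : i₂ < i₃) (h34 : i₃ < i₄) (h4 : i₄ < 2 * (b - a) + 2 * (d - c)) :
    L.Alt a b c d (bp a b c d i₁) (bp a b c d i₂) (bp a b c d i₃) (bp a b c d i₄) := by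
  intro P P' hP hP' hPr hPr' m1 m3 m2 m4
  exact interlace hab hcd hP hP' hPr hPr' h0 h12 h23 h34 h4 m1 m3 m2 m4

/-- order `i₄ < i₁ < i₂ < i₃` of the indices (`interlace` with `P` and `P'` exchanged) -/
theorem alt_of' (hab : a < b) (hcd : c < d) {i₁ i₂ i₃ i₄ : ℤ} (h0 : 0 ≤ i₄) (h41 : i₄ < i₁)
    (h12 : i₁ < i₂) (h23 : i₂ < i₃) (h3 : i₃ < 2 * (b - a) + 2 * (d - c)) :
    L.Alt a b c d (bp a b c d i₁) (bp a b c d i₂) (bp a b c d i₃) (bp a b c d i₄) := by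
  intro P P' hP hP' hPr hPr' m1 m3 m2 m4
  rw [Set.inter_comm]
  exact interlace hab hcd hP' hP hPr' hPr h0 h41 h12 h23 h3 m4 m2 m1 m3

/-- Case `i₁ < i₃` of `dual4`.  Let `per = 2 (b - a) + 2 (d - c)`.
(1) `Γ = {bp i : i₁ ≤ i ≤ i₃}` is connected (`con_run`, `bp_adj`), contained in `rect` and in `sides` (`bp_mem`).  `dual_sep` with `M = rect a b c d`
(`exact_rect`), `c = k` gives `z ∈ Γ`, `z ∈ In ∪ cl (!k) (M \ In) In ω`; `z ∉ In` by `hs`.  So `z = bp i₂`, there is `x₂ ∈ nb In` with a path of colour `!k` to `z`.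
`i₂ ≠ i₁` and `i₂ ≠ i₃` because `z` has colour `!k` and `bp i₁`, `bp i₃` have colour `k` (ends of the arms: `Cn.right`).
(2) `Γ' = {bp i : i₃ ≤ i < per} ∪ {bp i : 0 ≤ i ≤ i₁}` is connected (two runs joined by `bp_adj_last`, `Con.union_adj`).  In the same way one gets `x₄` and `z' = bp i₄` with `i₃ < i₄ < per` or
`0 ≤ i₄ < i₁`.  Then `alt_of` or `alt_of'`. -/
theorem dual4_aux (hab : a < b) (hcd : c < d) {In : Set Pt} (hIn : L.Con In) (hne : In.Nonempty)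
    (hsub : In ⊆ rect a b c d) (hs : ∀ v ∈ In, v ∉ sides a b c d) {x₁ x₃ : Pt} {i₁ i₃ : ℤ}
    (hx₁ : x₁ ∈ L.nb In) (hx₃ : x₃ ∈ L.nb In) (h0 : 0 ≤ i₁) (h13 : i₁ < i₃)
    (h3 : i₃ < 2 * (b - a) + 2 * (d - c))
    (h₁ : L.Cn ((rect a b c d \ In) ∩ L.col k ω) x₁ (bp a b c d i₁))
    (h₃ : L.Cn ((rect a b c d \ In) ∩ L.col k ω) x₃ (bp a b c d i₃))
    (hn : ¬ L.Cn ((rect a b c d \ In) ∩ L.col k ω) x₁ x₃) :
    ∃ x₂ y₂ x₄ y₄, x₂ ∈ L.nb In ∧ x₄ ∈ L.nb In ∧ y₂ ∈ sides a b c d ∧ y₄ ∈ sides a b c d ∧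
      L.Cn ((rect a b c d \ In) ∩ L.col (!k) ω) x₂ y₂ ∧
      L.Cn ((rect a b c d \ In) ∩ L.col (!k) ω) x₄ y₄ ∧
      L.Alt a b c d (bp a b c d i₁) y₂ (bp a b c d i₃) y₄ := by
  have key : ∀ Γ : Set Pt, L.Con Γ → Γ ⊆ sides a b c d → bp a b c d i₁ ∈ Γ →
      bp a b c d i₃ ∈ Γ → ∃ z ∈ Γ, ∃ u ∈ L.nb In,
        L.Cn ((rect a b c d \ In) ∩ L.col (!k) ω) u z := by
    intro Γ hΓ hΓs m1 m3
    obtain ⟨z, hzΓ, hz⟩ := dual_sep (fun C _ => exact_rect a b c d C) hIn hne hsub hx₁ hx₃ h₁ h₃ hn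
      hΓ (fun v hv => (hΓs hv).1) m1 m3
    rcases hz with hz | ⟨u, hu, huz⟩
    · exact absurd (hΓs hzΓ) (hs z hz)
    · exact ⟨z, hzΓ, u, hu, huz⟩
  have hcol : ∀ z u : Pt, L.Cn ((rect a b c d \ In) ∩ L.col (!k) ω) u z →
      z ≠ bp a b c d i₁ ∧ z ≠ bp a b c d i₃ := by
    intro z u hz
    have e : L.st ω z = !k := hz.right.2
    have e1 : L.st ω (bp a b c d i₁) = k := h₁.right.2
    have e3 : L.st ω (bp a b c d i₃) = k := h₃.right.2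
    constructor
    · intro h
      rw [h, e1] at e
      cases k <;> simp at e
    · intro h
      rw [h, e3] at e
      cases k <;> simp at e
  have hside : ∀ i, 0 ≤ i → i < 2 * (b - a) + 2 * (d - c) → bp a b c d i ∈ sides a b c d :=
    fun i h h' => bp_mem hab hcd h h'
  obtain ⟨z, hz, x₂, hx₂, hxz⟩ := key {v | ∃ i, i₁ ≤ i ∧ i ≤ i₃ ∧ bp a b c d i = v}
    (con_run fun i h h' => bp_adj hab hcd (by omega) (by omega))
    (by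
      rintro v ⟨i, h, h', rfl⟩
      exact hside i (by omega) (by omega))
    ⟨i₁, le_refl _, h13.le, rfl⟩ ⟨i₃, h13.le, le_refl _, rfl⟩
  obtain ⟨z', hz', x₄, hx₄, hxz'⟩ := key ({v | ∃ i, i₃ ≤ i ∧
      i ≤ 2 * (b - a) + 2 * (d - c) - 1 ∧ bp a b c d i = v} ∪
      {v | ∃ i, 0 ≤ i ∧ i ≤ i₁ ∧ bp a b c d i = v})
    ((con_run fun i h h' => bp_adj hab hcd (by omega) (by omega)).union_adj
      (con_run fun i h h' => bp_adj hab hcd (by omega) (by omega))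
      ⟨2 * (b - a) + 2 * (d - c) - 1, by omega, le_refl _, rfl⟩ ⟨0, le_refl _, h0, rfl⟩
      (bp_adj_last hab hcd))
    (by
      rintro v (⟨i, h, h', rfl⟩ | ⟨i, h, h', rfl⟩)
      · exact hside i (by omega) (by omega)
      · exact hside i (by omega) (by omega))
    (Or.inr ⟨i₁, h0, le_refl _, rfl⟩) (Or.inl ⟨i₃, le_refl _, by omega, rfl⟩)
  obtain ⟨i₂, h12, h23, rfl⟩ := hz
  have hc2 := hcol _ _ hxz
  have h12' : i₁ < i₂ := lt_of_le_of_ne h12 (fun h => hc2.1 (by rw [h]))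
  have h23' : i₂ < i₃ := lt_of_le_of_ne h23 (fun h => hc2.2 (by rw [h]))
  have hc4 := hcol _ _ hxz'
  rcases hz' with ⟨i₄, h34, h4, rfl⟩ | ⟨i₄, h4, h41, rfl⟩
  · have h34' : i₃ < i₄ := lt_of_le_of_ne h34 (fun h => hc4.2 (by rw [h]))
    exact ⟨x₂, _, x₄, _, hx₂, hx₄, hside i₂ (by omega) (by omega), hside i₄ (by omega) (by omega),
      hxz, hxz', alt_of hab hcd h0 h12' h23' h34' (by omega)⟩
  · have h41' : i₄ < i₁ := lt_of_le_of_ne h41 (fun h => hc4.1 (by rw [h]))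
    exact ⟨x₂, _, x₄, _, hx₂, hx₄, hside i₂ (by omega) (by omega), hside i₄ (by omega) (by omega),
      hxz, hxz', alt_of' hab hcd h4 h41' h12' h23' h3⟩

/-- DUALITY WITH ORDER.  `y₁ = bp i₁`, `y₃ = bp i₃` by `bp_surj`; `i₁ ≠ i₃` (otherwise `y₁ = y₃` and the arms are joined); by
`dual4_aux`, exchanging `1` and `3` if `i₃ < i₁` (`Cn.symm`, `Alt.swap`). -/
theorem dual4 (hab : a < b) (hcd : c < d) {In : Set Pt} (hIn : L.Con In) (hne : In.Nonempty)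
    (hsub : In ⊆ rect a b c d) (hs : ∀ v ∈ In, v ∉ sides a b c d) {x₁ x₃ y₁ y₃ : Pt}
    (hx₁ : x₁ ∈ L.nb In) (hx₃ : x₃ ∈ L.nb In) (hy₁ : y₁ ∈ sides a b c d)
    (hy₃ : y₃ ∈ sides a b c d) (h₁ : L.Cn ((rect a b c d \ In) ∩ L.col k ω) x₁ y₁)
    (h₃ : L.Cn ((rect a b c d \ In) ∩ L.col k ω) x₃ y₃)
    (hn : ¬ L.Cn ((rect a b c d \ In) ∩ L.col k ω) x₁ x₃) :
    ∃ x₂ y₂ x₄ y₄, x₂ ∈ L.nb In ∧ x₄ ∈ L.nb In ∧ y₂ ∈ sides a b c d ∧ y₄ ∈ sides a b c d ∧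
      L.Cn ((rect a b c d \ In) ∩ L.col (!k) ω) x₂ y₂ ∧
      L.Cn ((rect a b c d \ In) ∩ L.col (!k) ω) x₄ y₄ ∧ L.Alt a b c d y₁ y₂ y₃ y₄ := by
  obtain ⟨i₁, h1, h1', rfl⟩ := bp_surj hab hcd hy₁.1 hy₁.2
  obtain ⟨i₃, h3, h3', rfl⟩ := bp_surj hab hcd hy₃.1 hy₃.2
  rcases lt_trichotomy i₁ i₃ with h | h | h
  · exact dual4_aux hab hcd hIn hne hsub hs hx₁ hx₃ h1 h h3' h₁ h₃ hn
  · subst h
    exact absurd (h₁.trans h₃.symm) hn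
  · obtain ⟨x₂, y₂, x₄, y₄, e1, e2, e3, e4, e5, e6, e7⟩ :=
      dual4_aux hab hcd hIn hne hsub hs hx₃ hx₁ h3 h h1' h₃ h₁ (fun h' => hn h'.symm)
    exact ⟨x₂, y₂, x₄, y₄, e1, e2, e3, e4, e5, e6, e7.swap⟩

end Lat

end SC
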