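import Pool.Agent.Lib_MP_e0a489.PA2a
import Pool.Agent.Lib_MP_e0a489.TPdefs

/-!
# MP_e0a489, module TP, dictionary: `prob`, `fhat`, `specProb` against `pr`, `fc`
-/

set_option autoImplicit false

open Classical

namespace SC

namespace TPA

/-- the configuration of the open set `A`, in the coordinates `e` -/
noncomputable def cfgE (e : Pt ≃ Pt) (A : Finset Pt) : Cfg := fun v => decide (e.symm v ∈ A)

theorem sum_map (e : Pt ≃ Pt) (I : Finset Pt) (φ : Finset Pt → ℝ) :
    ∑ T ∈ (I.map e.toEmbedding).powerset, φ T = ∑ S ∈ I.powerset, φ (S.map e.toEmbedding) := by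
  symm
  refine Finset.sum_bij (fun S _ => S.map e.toEmbedding) ?_ ?_ ?_ ?_
  · intro S hS
    exact Finset.mem_powerset.2 (Finset.map_subset_map.2 (Finset.mem_powerset.1 hS))
  · intro S _ T _ h
    exact Finset.map_injective _ h
  · intro T hT
    have hT' := Finset.mem_powerset.1 hT
    refine ⟨T.map e.symm.toEmbedding, Finset.mem_powerset.2 ?_, ?_⟩
    · intro v hv
      obtain ⟨w, hw, rfl⟩ := Finset.mem_map.1 hv
      obtain ⟨u, hu, h2⟩ := Finset.mem_map.1 (hT' hw)
      have h3 : e u = w := h2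
      have h4 : e.symm w = u := by rw [← h3]; exact e.symm_apply_apply u
      show e.symm w ∈ I
      rw [h4]
      exact hu
    · ext v
      simp
  · intro S _
    rfl

theorem ovr_map (e : Pt ≃ Pt) {I A : Finset Pt} (hA : A ⊆ I) :
    ovr (I.map e.toEmbedding) (A.map e.toEmbedding) (fun _ => false) = cfgE e A := by
  funext v
  have h1 : v ∈ A.map e.toEmbedding ↔ e.symm v ∈ A := by
    rw [Finset.mem_map_equiv]
  unfold ovr cfgE
  split_ifs with hv
  · exact decide_eq_decide.2 h1
  · have h2 : e.symm v ∉ A := fun h => hv (by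
      rw [Finset.mem_map_equiv]
      exact hA h)
    exact (decide_eq_false h2).symm

/-- expectation as a sum over the open sets -/
theorem ex_sumE (e : Pt ≃ Pt) {I : Finset Pt} {G : Cfg → ℝ}
    (hG : Dep G ((I.map e.toEmbedding : Finset Pt) : Set Pt)) :
    ex G = (∑ A ∈ I.powerset, G (cfgE e A)) / 2 ^ I.card := by
  rw [ex_eq hG (fun _ => false)]
  unfold av
  rw [sum_map, Finset.card_map]
  congr 1
  refine Finset.sum_congr rfl fun A hA => ?_
  rw [ovr_map e (Finset.mem_powerset.1 hA)]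

/-- probabilities -/
theorem prob_eq (e : Pt ≃ Pt) {I : Finset Pt} {P : Finset Pt → Prop} {Ev : Cfg → Prop}
    (hD : Dep Ev ((I.map e.toEmbedding : Finset Pt) : Set Pt))
    (h : ∀ A, A ⊆ I → (P A ↔ Ev (cfgE e A))) : SCTop.prob I P = pr Ev := by
  unfold SCTop.prob pr
  rw [ex_sumE e hD.ind]
  congr 1
  rw [Finset.card_filter]
  push_cast
  refine Finset.sum_congr rfl fun A hA => ?_
  unfold ind
  have := h A (Finset.mem_powerset.1 hA)
  by_cases hp : P A
  · rw [if_pos hp, if_pos (this.1 hp)]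
  · rw [if_neg hp, if_neg (fun hh => hp (this.2 hh))]

/-- comparison of probabilities, one direction -/
theorem prob_le (e : Pt ≃ Pt) {I : Finset Pt} {P : Finset Pt → Prop} {Ev : Cfg → Prop}
    (hD : Dep Ev ((I.map e.toEmbedding : Finset Pt) : Set Pt))
    (h : ∀ A, A ⊆ I → P A → Ev (cfgE e A)) : SCTop.prob I P ≤ pr Ev := by
  unfold SCTop.prob pr
  rw [ex_sumE e hD.ind]
  refine div_le_div_of_nonneg_right ?_ (by positivity)
  rw [Finset.card_filter]
  push_cast
  refine Finset.sum_le_sum fun A hA => ?_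
  unfold ind
  by_cases hp : P A
  · rw [if_pos hp, if_pos (h A (Finset.mem_powerset.1 hA) hp)]
  · rw [if_neg hp]
    split_ifs <;> norm_num

/-- comparison of probabilities, the other direction -/
theorem le_prob (e : Pt ≃ Pt) {I : Finset Pt} {P : Finset Pt → Prop} {Ev : Cfg → Prop}
    (hD : Dep Ev ((I.map e.toEmbedding : Finset Pt) : Set Pt))
    (h : ∀ A, A ⊆ I → Ev (cfgE e A) → P A) : pr Ev ≤ SCTop.prob I P := by
  unfold SCTop.prob pr
  rw [ex_sumE e hD.ind]
  refine div_le_div_of_nonneg_right ?_ (by positivity)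
  rw [Finset.card_filter]
  push_cast
  refine Finset.sum_le_sum fun A hA => ?_
  unfold ind
  by_cases hp : Ev (cfgE e A)
  · rw [if_pos hp, if_pos (h A (Finset.mem_powerset.1 hA) hp)]
  · rw [if_neg hp]
    split_ifs <;> norm_num

theorem chi_map (e : Pt ≃ Pt) (S A : Finset Pt) :
    chi (S.map e.toEmbedding) (cfgE e A) = ∏ i ∈ S, (if i ∈ A then (1 : ℝ) else -1) := by
  unfold chi
  rw [Finset.prod_map]
  refine Finset.prod_congr rfl fun i _ => ?_
  have h1 : cfgE e A (e.toEmbedding i) = decide (i ∈ A) := by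
    unfold cfgE
    have : e.symm (e.toEmbedding i) = i := e.symm_apply_apply i
    rw [this]
  rw [h1]
  by_cases h : i ∈ A
  · simp [h]
  · simp [h]

/-- Fourier coefficients -/
theorem fhat_eq (e : Pt ≃ Pt) {I : Finset Pt} {g : Finset Pt → ℝ} {G : Cfg → ℝ}
    (hG : Dep G ((I.map e.toEmbedding : Finset Pt) : Set Pt))
    (h : ∀ A, A ⊆ I → g A = G (cfgE e A)) {S : Finset Pt} (hS : S ⊆ I) :
    SCTop.fhat I g S = fc G (S.map e.toEmbedding) := by
  have hd : Dep (fun ω => G ω * chi (S.map e.toEmbedding) ω)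
      ((I.map e.toEmbedding : Finset Pt) : Set Pt) := by
    intro ω ω' hw
    show G ω * chi (S.map e.toEmbedding) ω = G ω' * chi (S.map e.toEmbedding) ω'
    rw [hG ω ω' hw]
    congr 1
    unfold chi
    refine Finset.prod_congr rfl fun v hv => ?_
    rw [hw v (Finset.mem_coe.2 (Finset.map_subset_map.2 hS hv))]
  unfold SCTop.fhat fc
  rw [ex_sumE e hd]
  congr 1
  refine Finset.sum_congr rfl fun A hA => ?_
  rw [h A (Finset.mem_powerset.1 hA), chi_map]

/-- The spectral probability is at most a sum of squares of Fourier coefficients. -/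
theorem specProb_le (e : Pt ≃ Pt) {I F : Finset Pt} {P Q : Finset Pt → Prop}
    {cr : Finset Pt → Prop} {Ev : Cfg → Prop}
    (hD : Dep Ev ((I.map e.toEmbedding : Finset Pt) : Set Pt))
    (h : ∀ A, A ⊆ I → (cr A ↔ Ev (cfgE e A))) (hF : I.map e.toEmbedding ⊆ F)
    (hPQ : ∀ S, S ⊆ I → P S → Q (S.map e.toEmbedding)) {p : ℝ} (hp : 0 < p) (hE : p ≤ pr Ev) :
    SCTop.specProb I (fun A => if cr A then 1 else 0) P ≤
      p⁻¹ * ∑ T ∈ F.powerset.filter Q, fc (ind Ev) T ^ 2 := by
  have hg : ∀ A, A ⊆ I → (if cr A then (1 : ℝ) else 0) = ind Ev (cfgE e A) := by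
    intro A hA
    unfold ind
    have := h A hA
    by_cases hp : cr A
    · rw [if_pos hp, if_pos (this.1 hp)]
    · rw [if_neg hp, if_neg (fun hh => hp (this.2 hh))]
  have h2 : (∑ A ∈ I.powerset, (if cr A then (1 : ℝ) else 0) ^ 2) / 2 ^ I.card = pr Ev := by
    unfold pr
    rw [ex_sumE e hD.ind]
    congr 1
    refine Finset.sum_congr rfl fun A hA => ?_
    rw [← hg A (Finset.mem_powerset.1 hA)]
    split_ifs <;> norm_num
  have h1 : ∑ S ∈ I.powerset.filter P,
      SCTop.fhat I (fun A => if cr A then (1 : ℝ) else 0) S ^ 2 ≤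
      ∑ T ∈ F.powerset.filter Q, fc (ind Ev) T ^ 2 := by
    have e1 : ∑ S ∈ I.powerset.filter P,
        SCTop.fhat I (fun A => if cr A then (1 : ℝ) else 0) S ^ 2 =
        ∑ T ∈ (I.powerset.filter P).image (fun S => S.map e.toEmbedding),
          fc (ind Ev) T ^ 2 := by
      rw [Finset.sum_image]
      · refine Finset.sum_congr rfl fun S hS => ?_
        rw [fhat_eq e hD.ind hg (Finset.mem_powerset.1 (Finset.mem_filter.1 hS).1)]
      · intro S _ T _ hST
        exact Finset.map_injective _ hST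
    rw [e1]
    refine Finset.sum_le_sum_of_subset_of_nonneg ?_ fun T _ _ => sq_nonneg _
    intro T hT
    obtain ⟨S, hS, rfl⟩ := Finset.mem_image.1 hT
    obtain ⟨hS1, hS2⟩ := Finset.mem_filter.1 hS
    have hS3 := Finset.mem_powerset.1 hS1
    exact Finset.mem_filter.2 ⟨Finset.mem_powerset.2
      ((Finset.map_subset_map.2 hS3).trans hF), hPQ S hS3 hS2⟩
  have h3 : 0 ≤ ∑ T ∈ F.powerset.filter Q, fc (ind Ev) T ^ 2 :=
    Finset.sum_nonneg fun _ _ => sq_nonneg _
  unfold SCTop.specProb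
  rw [h2, inv_mul_eq_div]
  exact div_le_div₀ h3 h1 hp hE

end TPA

end SC
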