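import Pool.Agent.Lib_MP_e0a489.FI1
import Pool.Agent.Lib_MP_e0a489.TL0
import Pool.Agent.Lib_MP_e0a489.TPdefs

/-!
# MP_e0a489, module TP: distances, the domain of the triangular lattice
-/

set_option autoImplicit false

open Classical

namespace SC

namespace TPA

/-- Two points at sup distance at least `⌊r₀ / 2⌋` in a set of diameter at least `r₀`. -/
theorem diam_ex {pos : Pt → EuclideanSpace ℝ (Fin 2)} {e : Pt → Pt}
    (hd : ∀ u v, dist (pos u) (pos v) ≤ 2 * (nrm (e u - e v) : ℝ)) {S : Finset Pt} {r₀ : ℝ}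
    (h0 : 1 ≤ r₀) (h : r₀ ≤ Metric.diam (pos '' (S : Set Pt))) :
    ∃ u ∈ S, ∃ v ∈ S, ⌊r₀ / 2⌋ ≤ nrm (e u - e v) := by
  by_contra hcon
  push Not at hcon
  rcases S.eq_empty_or_nonempty with he | ⟨w, hw⟩
  · rw [he] at h
    simp only [Finset.coe_empty, Set.image_empty, Metric.diam_empty] at h
    linarith
  · have h1 := hcon w hw w hw
    have h2 : nrm (e w - e w) = 0 := by
      rw [sub_self]
      rfl
    rw [h2] at h1
    have h3 : (1 : ℝ) ≤ ((⌊r₀ / 2⌋ : ℤ) : ℝ) := by exact_mod_cast h1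
    have h4 : ((⌊r₀ / 2⌋ : ℤ) : ℝ) ≤ r₀ / 2 := Int.floor_le _
    have h5 : Metric.diam (pos '' (S : Set Pt)) ≤ r₀ - 2 := by
      refine Metric.diam_le_of_forall_dist_le (by linarith) ?_
      rintro _ ⟨u, hu, rfl⟩ _ ⟨v, hv, rfl⟩
      have h6 := hcon u hu v hv
      have h7 : ((nrm (e u - e v) : ℤ) : ℝ) ≤ ((⌊r₀ / 2⌋ - 1 : ℤ) : ℝ) := by
        exact_mod_cast (show nrm (e u - e v) ≤ ⌊r₀ / 2⌋ - 1 by omega)
      push_cast at h7
      have h8 := hd u v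
      linarith
    linarith

/-- distance of two points of the plane from bounds for the coordinates -/
theorem dist_le {x y : EuclideanSpace ℝ (Fin 2)} {a : ℝ} (ha : 0 ≤ a)
    (h : (x 0 - y 0) ^ 2 + (x 1 - y 1) ^ 2 ≤ a ^ 2) : dist x y ≤ a := by
  rw [EuclideanSpace.dist_eq, Fin.sum_univ_two]
  refine Real.sqrt_le_iff.2 ⟨ha, ?_⟩
  rw [Real.dist_eq, Real.dist_eq, sq_abs, sq_abs]
  exact h

theorem nrm_abs1 (v : Pt) : |(v.1 : ℝ)| ≤ (nrm v : ℝ) := by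
  have : |v.1| ≤ nrm v := le_max_left _ _
  exact_mod_cast this

theorem nrm_abs2 (v : Pt) : |(v.2 : ℝ)| ≤ (nrm v : ℝ) := by
  have : |v.2| ≤ nrm v := le_max_right _ _
  exact_mod_cast this

/-- `Z2`: midpoints of edges -/
theorem mid_dist (u v : Pt) :
    dist (SCTop.mid u) (SCTop.mid v) ≤ 2 * (nrm ((Equiv.refl Pt) u - (Equiv.refl Pt) v) : ℝ) := by
  have h1 := nrm_abs1 (u - v)
  have h2 := nrm_abs2 (u - v)
  have h3 : (0 : ℝ) ≤ (nrm (u - v) : ℝ) := le_trans (abs_nonneg _) h1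
  show dist (SCTop.mid u) (SCTop.mid v) ≤ 2 * (nrm (u - v) : ℝ)
  refine dist_le (by linarith) ?_
  have e1 : SCTop.mid u 0 - SCTop.mid v 0 = ((u - v).1 : ℝ) / 2 := by
    simp [SCTop.mid]
    ring
  have e2 : SCTop.mid u 1 - SCTop.mid v 1 = ((u - v).2 : ℝ) / 2 := by
    simp [SCTop.mid]
    ring
  rw [e1, e2]
  have h4 := abs_le.1 h1
  have h5 := abs_le.1 h2
  nlinarith

/-- triangular lattice: sites -/
theorem pos_dist (u v : Pt) :
    dist (SCTop.pos u) (SCTop.pos v) ≤ 2 * (nrm (shE u - shE v) : ℝ) := by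
  obtain ⟨m, hm⟩ : ∃ m : ℤ, m = nrm (shE u - shE v) := ⟨_, rfl⟩
  rw [← hm]
  have h1 : |(shE u - shE v).1| ≤ m := by rw [hm]; exact le_max_left _ _
  have h2 : |(shE u - shE v).2| ≤ m := by rw [hm]; exact le_max_right _ _
  have h3 : 0 ≤ m := le_trans (abs_nonneg _) h1
  have e1 : (shE u - shE v).1 = (u.1 + u.2 / 2) - (v.1 + v.2 / 2) := rfl
  have e2 : (shE u - shE v).2 = u.2 - v.2 := rfl
  rw [e1] at h1
  rw [e2] at h2
  have h4 := abs_le.1 h1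
  have h5 := abs_le.1 h2
  refine dist_le (by positivity) ?_
  have f1 : SCTop.pos u 0 - SCTop.pos v 0 = ((2 * (u.1 - v.1) + (u.2 - v.2) : ℤ) : ℝ) / 2 := by
    simp [SCTop.pos]
    ring
  have f2 : SCTop.pos u 1 - SCTop.pos v 1 = Real.sqrt 3 / 2 * ((u.2 - v.2 : ℤ) : ℝ) := by
    simp [SCTop.pos]
    ring
  rw [f1, f2]
  have hs : Real.sqrt 3 ^ 2 = 3 := Real.sq_sqrt (by norm_num)
  rcases h3.eq_or_lt with hz | hpos
  · have g1 : u.2 - v.2 = 0 := by omega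
    have g2 : 2 * (u.1 - v.1) + (u.2 - v.2) = 0 := by
      have : u.2 = v.2 := by omega
      rw [this] at h4
      omega
    have g3 : u.1 - v.1 = 0 := by omega
    rw [g1, g3, ← hz]
    norm_num
  · have g1 : |2 * (u.1 - v.1) + (u.2 - v.2)| ≤ 2 * m + 1 := abs_le.2 ⟨by omega, by omega⟩
    have g2 : |u.2 - v.2| ≤ m := abs_le.2 ⟨by omega, by omega⟩
    have k1 : (2 * (u.1 - v.1) + (u.2 - v.2)) ^ 2 ≤ (2 * m + 1) ^ 2 := by
      rw [← sq_abs]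
      exact pow_le_pow_left₀ (abs_nonneg _) g1 2
    have k2 : (u.2 - v.2) ^ 2 ≤ m ^ 2 := by
      rw [← sq_abs]
      exact pow_le_pow_left₀ (abs_nonneg _) g2 2
    have k3 : (2 * (u.1 - v.1) + (u.2 - v.2)) ^ 2 + 3 * (u.2 - v.2) ^ 2 ≤ 16 * m ^ 2 := by
      nlinarith
    have k4 : ((2 * (u.1 - v.1) + (u.2 - v.2) : ℤ) : ℝ) ^ 2 +
        3 * ((u.2 - v.2 : ℤ) : ℝ) ^ 2 ≤ 16 * (m : ℝ) ^ 2 := by exact_mod_cast k3
    calc _ = (((2 * (u.1 - v.1) + (u.2 - v.2) : ℤ) : ℝ) ^ 2 +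
          Real.sqrt 3 ^ 2 * ((u.2 - v.2 : ℤ) : ℝ) ^ 2) / 4 := by ring
      _ = (((2 * (u.1 - v.1) + (u.2 - v.2) : ℤ) : ℝ) ^ 2 +
          3 * ((u.2 - v.2 : ℤ) : ℝ) ^ 2) / 4 := by rw [hs]
      _ ≤ 16 * (m : ℝ) ^ 2 / 4 := div_le_div_of_nonneg_right k4 (by norm_num)
      _ = (2 * (m : ℝ)) ^ 2 := by ring

/-- number of rows of the triangular square -/
theorem tN_bounds (n : ℕ) : (n : ℤ) ≤ ⌊2 * (n : ℝ) / Real.sqrt 3⌋ ∧
    ⌊2 * (n : ℝ) / Real.sqrt 3⌋ ≤ 2 * (n : ℤ) := by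
  have hs0 : 0 < Real.sqrt 3 := Real.sqrt_pos.2 (by norm_num)
  have hs1 : 1 ≤ Real.sqrt 3 := Real.one_le_sqrt.2 (by norm_num)
  have hs2 : Real.sqrt 3 ≤ 2 := by
    rw [Real.sqrt_le_left (by norm_num)]
    norm_num
  have hn : (0 : ℝ) ≤ n := Nat.cast_nonneg n
  constructor
  · refine Int.le_floor.2 ?_
    push_cast
    rw [le_div_iff₀ hs0]
    nlinarith
  · have h1 : ((⌊2 * (n : ℝ) / Real.sqrt 3⌋ : ℤ) : ℝ) ≤ 2 * (n : ℝ) / Real.sqrt 3 := Int.floor_le _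
    have h2 : 2 * (n : ℝ) / Real.sqrt 3 ≤ 2 * n := by
      rw [div_le_iff₀ hs0]
      nlinarith
    exact_mod_cast h1.trans h2

theorem goodE_TL (n : ℕ) : GoodE TL n {v : Pt | v.1 = n ∧ v.2 % 2 = 1} := by
  rintro ⟨i, j⟩ ⟨h1, h2⟩
  simp only at h1 h2
  refine ⟨h1, ?_⟩
  rintro ⟨a, b⟩ hadj hp
  simp only at hp
  subst h1
  show b = j
  simp only [Lat.Adj, Lat.Adj1, TL, decide_eq_true_eq, decide_eq_false_iff_not] at hadj
  omega

/-- the sites of the square are the sites of the domain -/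
theorem mem_sites (n : ℕ) (v : Pt) : v ∈ SCTop.sites n ↔
    shE v ∈ dom n ⌊2 * (n : ℝ) / Real.sqrt 3⌋ {v : Pt | v.1 = n ∧ v.2 % 2 = 1} := by
  obtain ⟨i, j⟩ := v
  have hs0 : 0 < Real.sqrt 3 := Real.sqrt_pos.2 (by norm_num)
  have hs2 : Real.sqrt 3 ^ 2 = 3 := Real.sq_sqrt (by norm_num)
  have e1 : SCTop.pos (i, j) 0 = ((2 * i + j : ℤ) : ℝ) / 2 := by
    simp [SCTop.pos]
    ring
  have e2 : SCTop.pos (i, j) 1 = Real.sqrt 3 / 2 * (j : ℝ) := by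
    simp [SCTop.pos]
  obtain ⟨tn, htn⟩ : ∃ tn : ℤ, tn = ⌊2 * (n : ℝ) / Real.sqrt 3⌋ := ⟨_, rfl⟩
  have hj : |Real.sqrt 3 / 2 * (j : ℝ)| ≤ (n : ℝ) ↔ |j| ≤ tn := by
    rw [htn]
    rw [Int.le_floor, abs_mul, abs_of_pos (by positivity : 0 < Real.sqrt 3 / 2),
      le_div_iff₀ hs0]
    push_cast
    constructor
    · intro h
      nlinarith
    · intro h
      nlinarith
  have hi : |((2 * i + j : ℤ) : ℝ) / 2| ≤ (n : ℝ) ↔ |2 * i + j| ≤ 2 * n := by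
    rw [abs_div, abs_of_pos (by norm_num : (0 : ℝ) < 2), div_le_iff₀ (by norm_num)]
    constructor
    · intro h
      have : ((|2 * i + j| : ℤ) : ℝ) ≤ ((2 * n : ℤ) : ℝ) := by
        push_cast
        push_cast at h
        linarith
      exact_mod_cast this
    · intro h
      have : ((|2 * i + j| : ℤ) : ℝ) ≤ ((2 * n : ℤ) : ℝ) := by exact_mod_cast h
      push_cast at this
      push_cast
      linarith
  have hb := tN_bounds n
  rw [← htn] at hb ⊢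
  have hin : SCTop.inBox n (i, j) ↔ |2 * i + j| ≤ 2 * n ∧ |j| ≤ tn := by
    unfold SCTop.inBox
    rw [e1, e2, hj, hi]
  have hd : shE (i, j) ∈ dom n tn {v : Pt | v.1 = n ∧ v.2 % 2 = 1} ↔ |2 * i + j| ≤ 2 * n ∧ |j| ≤ tn := by
    unfold dom rect
    have f1 : shE (i, j) = (i + j / 2, j) := rfl
    rw [f1]
    simp only [Set.mem_sdiff, Set.mem_ofPred_eq, abs_le]
    omega
  rw [hd, ← hin]
  unfold SCTop.sites
  rw [Finset.mem_filter]
  refine ⟨fun h => h.2, fun h => ⟨?_, h⟩⟩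
  obtain ⟨g1, g2⟩ := hin.1 h
  rw [abs_le] at g1 g2
  rw [Finset.mem_product, Finset.mem_Icc, Finset.mem_Icc, Int.ceil_natCast]
  constructor
  · constructor <;> (simp only; omega)
  · constructor <;> (simp only; omega)


end TPA

end SC
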