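import Pool.Agent.Lib_MP_e0a489.ZT4

/-!
# MP_e0a489, triangular lattice, 5: the box crossing property
-/

set_option autoImplicit false

namespace SC

open Classical

/-- `b ≥ 192`: `zt_pig` for `n = b / 16 ≥ 12` gives a good scale with `2 N ≤ 16 n ≤ b` and `b ≤ 32 n ≤ 32 N`.  `6 (m - a - 1) ≥ m ≥ N`, so `192 k (m - a - 1) ≥ 32 k N ≥ k b`: `zt_long` for `j = 192 k` and `tH_mono`.
`b < 192`: `tl_row`. -/
theorem zt_h (k : ℕ) (hk : 1 ≤ k) {b : ℤ} (hb : 0 ≤ b) :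
    (1 / 2 : ℝ) ^ (1728 * k + 8) ≤ tH (k * b) b := by
  have hk' : (1 : ℤ) ≤ k := by exact_mod_cast hk
  have hkb : 0 ≤ (k : ℤ) * b := by positivity
  by_cases h1 : 192 ≤ b
  · obtain ⟨n, hn⟩ : ∃ n : ℤ, n = b / 16 := ⟨_, rfl⟩
    obtain ⟨N, a, m, h2, h3, h4⟩ := zt_pig (n := n) (by omega)
    have g1 := h4.big
    have g2 := h4.a0
    have g3 := h4.am
    have g4 := h4.Nm
    have h5 := zt_long h4 (192 * k)
    have e1 : 9 * (192 * k) + 8 = 1728 * k + 8 := by ring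
    rw [e1] at h5
    refine h5.trans (tH_mono hkb ?_ (by omega))
    have h6 : b ≤ 192 * (m - a - 1) := by omega
    have h7 : (k : ℤ) * b ≤ k * (192 * (m - a - 1)) := mul_le_mul_of_nonneg_left h6 (by omega)
    push_cast
    have h8 : (192 * (k : ℤ)) * (m - a - 1) = k * (192 * (m - a - 1)) := by ring
    rw [h8]
    omega
  · have h2 : (k : ℤ) * b ≤ k * 191 := mul_le_mul_of_nonneg_left (by omega) (by omega)
    refine le_trans ?_ (tl_row hkb hb)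
    exact pow_le_pow_of_le_one (by norm_num) (by norm_num) (by omega)

/-- Vertical extension.  `n = 2 b / 3`, `s = n / 2`, `t = n - s`.  `tV b n ≥ 1/2` (`tl_rh_v`, `tV_mono`), `tH b t ≥ tH (4 t) t ≥ (1/2) ^ 6920` (`b ≤ 4 t`, `zt_h` for `k = 4`).  Induction on `j`: `pr_glue_vx` for the rows
`[0, q]` and `[q - t, q + s]` with the overlap `[q - t, q]`, `q = n + j s`; `tl_hx`, `tl_vx`. -/
theorem zt_vj {b : ℤ} (hb : 9 ≤ b) (j : ℕ) :
    (1 / 2 : ℝ) ^ (6921 * j + 1) ≤ tV b (2 * b / 3 + j * (2 * b / 3 / 2)) := by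
  obtain ⟨n, hn⟩ : ∃ n : ℤ, n = 2 * b / 3 := ⟨_, rfl⟩
  obtain ⟨s, hs⟩ : ∃ s : ℤ, s = n / 2 := ⟨_, rfl⟩
  obtain ⟨t, ht⟩ : ∃ t : ℤ, t = n - s := ⟨_, rfl⟩
  rw [← hn, ← hs]
  have v1 : 1 / 2 ≤ tV b n :=
    (tl_rh_v (n := n) (by omega)).trans (tV_mono (by omega) (by omega) le_rfl)
  have h1 : (1 / 2 : ℝ) ^ 6920 ≤ tH b t := by
    have h2 := zt_h 4 (by norm_num) (b := t) (by omega)
    have e1 : 1728 * 4 + 8 = 6920 := by norm_num
    rw [e1] at h2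
    refine h2.trans (tH_mono (by omega) ?_ le_rfl)
    push_cast
    omega
  induction j with
  | zero =>
    have e2 : n + ((0 : ℕ) : ℤ) * s = n := by push_cast; ring
    rw [e2]
    simpa using v1
  | succ j ih =>
    obtain ⟨q, hq⟩ : ∃ q : ℤ, q = n + (j : ℤ) * s := ⟨_, rfl⟩
    rw [← hq] at ih
    have hjs : 0 ≤ (j : ℤ) * s := mul_nonneg (by omega) (by omega)
    have e3 : n + ((j + 1 : ℕ) : ℤ) * s = q + s := by push_cast; rw [hq]; ring
    rw [e3]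
    have h3 := pr_glue_vx (L := TL) (a := 0) (b := b) (p := 0) (q := q) (p' := q - t)
      (q' := q + s) (by omega) (by omega) (by omega) (by omega)
    rw [tl_vx, tl_vx, tl_vx, tl_hx] at h3
    have e4 : b - 0 = b := sub_zero b
    have e5 : q - 0 = q := sub_zero q
    have e6 : q + s - (q - t) = n := by omega
    have e7 : q - (q - t) = t := by omega
    have e8 : q + s - 0 = q + s := sub_zero _
    rw [e4, e5, e6, e7, e8] at h3
    refine le_trans ?_ h3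
    have h4 : (1 / 2 : ℝ) ^ (6921 * (j + 1) + 1) =
        (1 / 2 : ℝ) ^ (6921 * j + 1) * (1 / 2) * (1 / 2) ^ 6920 := by
      have e9 : 6921 * (j + 1) + 1 = 6921 * j + 1 + 1 + 6920 := by ring
      rw [e9, pow_add, pow_succ]
    rw [h4]
    have p1 : (0 : ℝ) ≤ (1 / 2 : ℝ) ^ (6921 * j + 1) := pow_nonneg (by norm_num) _
    have p2 : (0 : ℝ) ≤ (1 / 2 : ℝ) ^ 6920 := pow_nonneg (by norm_num) _
    have p3 : (0 : ℝ) ≤ tV b q := p1.trans ih
    have p4 : (0 : ℝ) ≤ tV b q * tV b n := mul_nonneg p3 (le_trans (by norm_num) v1)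
    exact mul_le_mul (mul_le_mul ih v1 (by norm_num) p3) h1 p2 p4

/-- `b ≥ 9`: `zt_vj` for `j = 4 k` (`b ≤ 4 (2 b / 3 / 2)`) and `tV_mono`.  `b < 9`: `tl_row_v`. -/
theorem zt_v (k : ℕ) (hk : 1 ≤ k) {b : ℤ} (hb : 0 ≤ b) :
    (1 / 2 : ℝ) ^ (27684 * k + 8) ≤ tV b (k * b) := by
  have hk' : (1 : ℤ) ≤ k := by exact_mod_cast hk
  have hkb : 0 ≤ (k : ℤ) * b := by positivity
  by_cases h1 : 9 ≤ b
  · obtain ⟨s, hs⟩ : ∃ s : ℤ, s = 2 * b / 3 / 2 := ⟨_, rfl⟩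
    have h2 := zt_vj h1 (4 * k)
    rw [← hs] at h2
    have h3 : (1 / 2 : ℝ) ^ (27684 * k + 8) ≤ (1 / 2 : ℝ) ^ (6921 * (4 * k) + 1) :=
      pow_le_pow_of_le_one (by norm_num) (by norm_num) (by omega)
    refine h3.trans (h2.trans (tV_mono hkb le_rfl ?_))
    have h4 : (k : ℤ) * b ≤ k * (4 * s) := mul_le_mul_of_nonneg_left (by omega) (by omega)
    push_cast
    have h5 : (4 * (k : ℤ)) * s = k * (4 * s) := by ring
    rw [h5]
    omega
  · have h2 : (k : ℤ) * b ≤ k * 8 := mul_le_mul_of_nonneg_left (by omega) (by omega)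
    refine le_trans ?_ (tl_row_v hb hkb)
    exact pow_le_pow_of_le_one (by norm_num) (by norm_num) (by omega)

/-- `κ k = (1/2) ^ (27684 k + 8)`; `tl_hx`, `tl_vx` -/
theorem tl_rsw : ∃ κ : ℕ → ℝ, RSW TL κ := by
  refine ⟨fun k => (1 / 2 : ℝ) ^ (27684 * k + 8), fun k => pow_pos (by norm_num) _, ?_, ?_⟩
  · intro k b n a p hk hn
    rw [tl_hx]
    have e1 : a + (k : ℤ) * n - a = k * n := by ring
    have e2 : p + n - p = n := by ring
    rw [e1, e2]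
    refine le_trans ?_ (zt_h k hk (by omega))
    exact pow_le_pow_of_le_one (by norm_num) (by norm_num) (by omega)
  · intro k b n a p hk hn
    rw [tl_vx]
    have e1 : a + n - a = n := by ring
    have e2 : p + (k : ℤ) * n - p = k * n := by ring
    rw [e1, e2]
    exact zt_v k hk (by omega)

/-- `TL_per1`, `TL_per2`, `TL_sw`, `TL_rx`, `TL_ry` (the shift by `0`: `tl_shift_even`) -/
theorem tl_fam : ∃ κ : ℕ → ℝ, Fam TL κ := by
  obtain ⟨κ, hκ⟩ := tl_rsw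
  have h0 : TL.shift (0, 0) = TL := tl_shift_even (0, 0) rfl
  exact ⟨κ, hκ, TL_per1, TL_per2, ⟨(0, 0), by rw [h0]; exact TL_sw⟩, ⟨(0, 1), TL_rx⟩,
    ⟨(0, 0), by rw [h0]; exact TL_ry⟩⟩

end SC
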