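import Pool.Agent.Lib_MP_e0a489.FI2
import Pool.Agent.Lib_MP_e0a489.ZT5

/-!
# MP_e0a489, module TP, triangular half, 13c: the crossing of the domain has probability bounded below
-/

set_option autoImplicit false

namespace SC

open Classical

/-- a crossing of the full rectangle gives a crossing of the domain -/
theorem crs_of_hx {L : Lat} {N N' : ℤ} {E : Set Pt} (hN : 0 < N) (hE : GoodE L N E) {ω : Cfg}
    (h : L.HX true (-N) N (-N') N' ω) : L.Crs N N' E ω := by
  rw [Lat.crs_iff hN hE ω]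
  obtain ⟨u, v, hu, hv, huv⟩ := h
  refine ⟨u, v, hu, hv, ?_⟩
  have huv' : L.Cn (rect (-N) N (-N') N' ∩ (L.force E).col true ω) u v := by
    refine Lat.Cn.mono huv ?_
    rintro z ⟨h1, h2⟩
    exact ⟨h1, (Lat.force_col L E ω z).1.2 (Or.inr h2)⟩
  exact huv'

private theorem tpc3_finite (a b p q : ℤ) : (rect a b p q).Finite := by
  have h : rect a b p q ⊆ Set.Icc a b ×ˢ Set.Icc p q := by
    rintro v ⟨h1, h2⟩
    exact ⟨h1, h2⟩
  exact ((Set.finite_Icc a b).prod (Set.finite_Icc p q)).subset h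

/-- Triangular lattice: the crossing of the domain `dom N N' E` with `N ≤ 2 N'` has probability at least a constant. -/
theorem tl_crs_pos {N N' : ℤ} {E : Set Pt} (hN : 1 ≤ N) (hN' : N ≤ 2 * N')
    (hE : GoodE TL N E) : (1 / 2 : ℝ) ^ 3464 ≤ pr (TL.Crs N N' E) := by
  have h1 := zt_h 2 (by norm_num) (b := 2 * N') (by omega)
  have h2 : tH (2 * (2 * N')) (2 * N') ≤ tH (2 * N) (2 * N') := tH_mono (by omega) (by omega) le_rfl
  have h3 := tl_hx true (-N) N (-N') N'
  have e1 : N - -N = 2 * N := by ring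
  have e2 : N' - -N' = 2 * N' := by ring
  rw [e1, e2] at h3
  have h4 : pr (TL.HX true (-N) N (-N') N') ≤ pr (TL.Crs N N' E) := by
    refine pr_mono (Lat.HX.loc TL true (-N) N (-N') N') ?_ fun ω h => crs_of_hx (by omega) hE h
    refine Lat.Arm.loc TL true (dom N N' E) _ _ (Set.Finite.subset ?_ Set.sdiff_subset)
    exact (tpc3_finite _ _ _ _)
  have e3 : (1728 * 2 + 8 : ℕ) = 3464 := by norm_num
  rw [e3] at h1
  have h1' : (1 / 2 : ℝ) ^ 3464 ≤ tH (2 * (2 * N')) (2 * N') := by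
    exact_mod_cast h1
  calc (1 / 2 : ℝ) ^ 3464 ≤ tH (2 * (2 * N')) (2 * N') := h1'
    _ ≤ tH (2 * N) (2 * N') := h2
    _ = pr (TL.HX true (-N) N (-N') N') := h3.symm
    _ ≤ pr (TL.Crs N N' E) := h4

end SC
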