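import Pool.Agent.Lib_MP_e0a489.TL0
import Pool.Agent.Lib_MP_e0a489.TPdefs

/-!
# MP_e0a489, module TQ 1: triangular lattice, Euclidean boxes in the row drawing
-/

set_option autoImplicit false

namespace SC

open Classical

/-- Euclidean box in the row drawing: `(2 w.1 + w.2 % 2) / 2` is the first coordinate of the site `w` in the plane, `(√3/2) w.2` the
second one -/
def TB (H J : ℤ) : Set Pt := {w | |2 * w.1 + w.2 % 2| ≤ H ∧ |w.2| ≤ J}

/-- adjacency: same row and distance one, or neighbouring rows and horizontal distance one half.  Unfold `Adj`, `Adj1`, `TL`; `decide_eq_true_eq`; parity of `u.2`; `omega` -/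
theorem TL_adj_iff (u v : Pt) : TL.Adj u v ↔
    (v.2 = u.2 ∧ (v.1 = u.1 + 1 ∨ v.1 = u.1 - 1)) ∨
      ((v.2 = u.2 + 1 ∨ v.2 = u.2 - 1) ∧ (2 * v.1 + v.2 % 2 = 2 * u.1 + u.2 % 2 + 1 ∨
        2 * v.1 + v.2 % 2 = 2 * u.1 + u.2 % 2 - 1)) := by
  obtain ⟨a, b⟩ := u
  obtain ⟨c, d⟩ := v
  simp only [Lat.Adj, Lat.Adj1, TL, decide_eq_true_eq, decide_eq_false_iff_not]
  omega

theorem TB_mono {H J H' J' : ℤ} (h : H ≤ H') (h' : J ≤ J') : TB H J ⊆ TB H' J' := by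
  intro w hw
  exact ⟨hw.1.trans h, hw.2.trans h'⟩

/-- neighbours of the inner box: `TL_adj_iff`, `abs_le`, `omega` -/
theorem TB_nb {H J : ℤ} {w u : Pt} (hw : w ∈ TB (H - 2) (J - 1)) (h : TL.Adj w u) :
    u ∈ TB H J := by
  obtain ⟨a, b⟩ := w
  obtain ⟨c, d⟩ := u
  rw [TL_adj_iff] at h
  simp only [TB, Set.mem_ofPred_eq, abs_le] at hw ⊢
  simp only at h
  omega

/-- a site of the box all of whose neighbours are in the box is in the inner box: use the neighbours `(w.1 ± 1, w.2)` and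
`(w.1, w.2 ± 1)` -/
theorem TB_int {H J : ℤ} {w : Pt} (hw : w ∈ TB H J) (h : ∀ u, TL.Adj w u → u ∈ TB H J) :
    w ∈ TB (H - 2) (J - 1) := by
  obtain ⟨a, b⟩ := w
  have h1 := h (a + 1, b) (by rw [TL_adj_iff]; simp)
  have h2 := h (a - 1, b) (by rw [TL_adj_iff]; simp)
  have h3 := h (a, b + 1) (by
    rw [TL_adj_iff]
    refine Or.inr ⟨Or.inl rfl, ?_⟩
    simp only
    omega)
  have h4 := h (a, b - 1) (by
    rw [TL_adj_iff]
    refine Or.inr ⟨Or.inr rfl, ?_⟩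
    simp only
    omega)
  simp only [TB, Set.mem_ofPred_eq, abs_le] at hw h1 h2 h3 h4 ⊢
  omega

/-- The box is connected: `w` is joined to `(0, w.2)` in its row (`|2 x + w.2 % 2|` decreases to `0` or `1 ≤ H`), and `(0, j)` to `(0, 0)` in the column
(`con_rect`-type induction).  If `J = 0` only the row `0`. -/
theorem TB_con {H J : ℤ} (hH : 0 ≤ H) (hJ : 0 ≤ J) (h : 1 ≤ H ∨ J = 0) : TL.Con (TB H J) := by
  have hz : ∀ (n : ℕ) (j : ℤ), j.natAbs = n → |j| ≤ J →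
      TL.Cn (TB H J) ((0, j) : Pt) ((0, 0) : Pt) := by
    intro n
    induction n with
    | zero =>
      intro j hj _
      have : j = 0 := by omega
      subst this
      refine Lat.Cn.refl ?_
      simp only [TB, Set.mem_ofPred_eq, abs_le]
      omega
    | succ n ih =>
      intro j hj hjJ
      rw [abs_le] at hjJ
      have hm : ((0, j) : Pt) ∈ TB H J := by
        simp only [TB, Set.mem_ofPred_eq, abs_le]
        omega
      rcases lt_or_ge 0 j with hpos | hneg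
      · have h1 := ih (j - 1) (by omega) (by rw [abs_le]; omega)
        refine (Lat.Cn.of_adj hm h1.left ?_).trans h1
        rw [TL_adj_iff]
        refine Or.inr ⟨Or.inr rfl, ?_⟩
        simp only
        omega
      · have h1 := ih (j + 1) (by omega) (by rw [abs_le]; omega)
        refine (Lat.Cn.of_adj hm h1.left ?_).trans h1
        rw [TL_adj_iff]
        refine Or.inr ⟨Or.inl rfl, ?_⟩
        simp only
        omega
  have hx : ∀ (n : ℕ) (x j : ℤ), x.natAbs = n → ((x, j) : Pt) ∈ TB H J →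
      TL.Cn (TB H J) ((x, j) : Pt) ((0, 0) : Pt) := by
    intro n
    induction n with
    | zero =>
      intro x j hx hm
      have : x = 0 := by omega
      subst this
      exact hz _ j rfl hm.2
    | succ n ih =>
      intro x j hx hm
      have hm' := hm
      simp only [TB, Set.mem_ofPred_eq, abs_le] at hm'
      rcases lt_or_ge 0 x with hpos | hneg
      · have h1 := ih (x - 1) j (by omega) (by
          simp only [TB, Set.mem_ofPred_eq, abs_le]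
          omega)
        refine (Lat.Cn.of_adj hm h1.left ?_).trans h1
        rw [TL_adj_iff]
        exact Or.inl ⟨rfl, Or.inr rfl⟩
      · have h1 := ih (x + 1) j (by omega) (by
          simp only [TB, Set.mem_ofPred_eq, abs_le]
          omega)
        refine (Lat.Cn.of_adj hm h1.left ?_).trans h1
        rw [TL_adj_iff]
        exact Or.inl ⟨rfl, Or.inl rfl⟩
  intro u hu v hv
  obtain ⟨a, b⟩ := u
  obtain ⟨c, d⟩ := v
  exact (hx _ a b rfl hu).trans (hx _ c d rfl hv).symm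

/-! ### Dictionary with the sheared coordinates -/

theorem shE_fst (v : Pt) : (shE v).1 = v.1 + v.2 / 2 := rfl

theorem shE_snd (v : Pt) : (shE v).2 = v.2 := rfl

/-- `2 * pos v 0 = 2 v.1 + v.2 = 2 (shE v).1 + (shE v).2 % 2`; `|x| ≤ r ↔ |2x| ≤ ⌊2r⌋` for half integers (`Int.le_floor`); `(√3/2) |j| ≤ r ↔ |j| ≤ 2r/√3` -/
theorem inBox_iff {r : ℝ} {v : Pt} :
    SCTop.inBox r v ↔ shE v ∈ TB ⌊2 * r⌋ ⌊2 * r / Real.sqrt 3⌋ := by
  have h3 : (0 : ℝ) < Real.sqrt 3 := Real.sqrt_pos.2 (by norm_num)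
  have e0 : SCTop.pos v 0 = (v.1 : ℝ) + (v.2 : ℝ) / 2 := rfl
  have e1 : SCTop.pos v 1 = Real.sqrt 3 / 2 * (v.2 : ℝ) := rfl
  have a0 : |SCTop.pos v 0| ≤ r ↔ |2 * (shE v).1 + (shE v).2 % 2| ≤ ⌊2 * r⌋ := by
    have : 2 * (shE v).1 + (shE v).2 % 2 = 2 * v.1 + v.2 := by
      rw [shE_fst, shE_snd]
      omega
    rw [this, Int.le_floor, e0]
    push_cast
    have e2 : |(2 : ℝ) * (v.1 : ℝ) + (v.2 : ℝ)| = 2 * |(v.1 : ℝ) + (v.2 : ℝ) / 2| := by
      rw [← abs_two, ← abs_mul, abs_two]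
      congr 1
      ring
    rw [e2]
    constructor <;> intro h <;> linarith
  have a1 : |SCTop.pos v 1| ≤ r ↔ |(shE v).2| ≤ ⌊2 * r / Real.sqrt 3⌋ := by
    rw [shE_snd, Int.le_floor, e1, le_div_iff₀ h3]
    push_cast
    rw [abs_mul, abs_of_pos (by positivity : (0 : ℝ) < Real.sqrt 3 / 2)]
    constructor <;> intro h <;> nlinarith
  exact and_congr a0 a1

/-- `Int.ceil`: `|v.2| ≤ 2 r / √3 ≤ 2 ⌈r⌉`, `|v.1| ≤ r + |v.2| / 2 ≤ 2 ⌈r⌉` -/
theorem mem_sites {r : ℝ} {v : Pt} : v ∈ SCTop.sites r ↔ SCTop.inBox r v := by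
  unfold SCTop.sites
  rw [Finset.mem_filter, Finset.mem_product, Finset.mem_Icc, Finset.mem_Icc]
  refine ⟨fun h => h.2, fun h => ⟨?_, h⟩⟩
  have h3 : (1 : ℝ) < Real.sqrt 3 := by
    rw [show (1 : ℝ) = Real.sqrt 1 by simp]
    exact Real.sqrt_lt_sqrt (by norm_num) (by norm_num)
  obtain ⟨h0, h1⟩ := h
  have e0 : SCTop.pos v 0 = (v.1 : ℝ) + (v.2 : ℝ) / 2 := rfl
  have e1 : SCTop.pos v 1 = Real.sqrt 3 / 2 * (v.2 : ℝ) := rfl
  rw [e0, abs_le] at h0
  rw [e1, abs_mul, abs_of_pos (by positivity : (0 : ℝ) < Real.sqrt 3 / 2)] at h1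
  have hc : r ≤ ⌈r⌉ := Int.le_ceil r
  have h2 : |(v.2 : ℝ)| ≤ 2 * r := by
    have := abs_nonneg (v.2 : ℝ)
    nlinarith
  rw [abs_le] at h2
  have q1 : (-(2 * ⌈r⌉ : ℤ) : ℝ) ≤ (v.1 : ℝ) := by
    push_cast
    linarith
  have q2 : (v.1 : ℝ) ≤ ((2 * ⌈r⌉ : ℤ) : ℝ) := by
    push_cast
    linarith
  have q3 : (-(2 * ⌈r⌉ : ℤ) : ℝ) ≤ (v.2 : ℝ) := by
    push_cast
    linarith
  have q4 : (v.2 : ℝ) ≤ ((2 * ⌈r⌉ : ℤ) : ℝ) := by
    push_cast
    linarith
  refine ⟨⟨?_, ?_⟩, ⟨?_, ?_⟩⟩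
  · exact_mod_cast q1
  · exact_mod_cast q2
  · exact_mod_cast q3
  · exact_mod_cast q4

/-- the six cases; `TL_adj_iff` -/
theorem TAdj_iff (u v : Pt) : SCTop.TAdj u v ↔ TL.Adj (shE u) (shE v) := by
  obtain ⟨a, b⟩ := u
  obtain ⟨c, d⟩ := v
  rw [TL_adj_iff]
  simp only [SCTop.TAdj, shE_fst, shE_snd, Prod.mk_sub_mk, Prod.mk.injEq]
  omega

/-- `inBox_iff`, `TAdj_iff`, `TB_nb`, `TB_int` -/
theorem tbd_iff {r : ℝ} {v : Pt} : SCTop.tbd r v ↔
    shE v ∈ TB ⌊2 * r⌋ ⌊2 * r / Real.sqrt 3⌋ ∧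
      shE v ∉ TB (⌊2 * r⌋ - 2) (⌊2 * r / Real.sqrt 3⌋ - 1) := by
  unfold SCTop.tbd
  rw [inBox_iff]
  refine and_congr_right fun hv => ⟨?_, ?_⟩
  · rintro ⟨u, hu, hn⟩ hin
    rw [inBox_iff] at hn
    exact hn (TB_nb hin ((TAdj_iff _ _).1 hu))
  · intro hn
    by_contra hcon
    push Not at hcon
    refine hn (TB_int hv fun u hu => ?_)
    have h1 := hcon (shE.symm u) ((TAdj_iff _ _).2 (by rwa [Equiv.apply_symm_apply]))
    rwa [inBox_iff, Equiv.apply_symm_apply] at h1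

end SC
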