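import Pool.Agent.Lib_MP_e0a489.TP3
import Pool.Agent.Lib_MP_e0a489.TQ1

/-!
# MP_e0a489, module TQ 2: the box as a rectangle with twin sites
-/

set_option autoImplicit false

namespace SC

open Classical

/-- bounding rectangle of `TB H J` -/
def TR (H J : ℤ) : Set Pt := rect (-((H + 1) / 2)) (H / 2) (-J) J

/-- the sites of the bounding rectangle outside the box are twins of the neighbouring site of the box in the same row -/
def twn (H : ℤ) (w : Pt) : Pt :=
  if H < 2 * w.1 + w.2 % 2 then (w.1 - 1, w.2)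
  else if 2 * w.1 + w.2 % 2 < -H then (w.1 + 1, w.2) else w

theorem TB_sub_TR (H J : ℤ) : TB H J ⊆ TR H J := by
  rintro ⟨x, y⟩ h
  simp only [TB, TR, rect, Set.mem_setOf_eq, abs_le] at h ⊢
  omega

theorem twn_mem {H J : ℤ} (hH : 1 ≤ H) {w : Pt} (hw : w ∈ TR H J) : twn H w ∈ TB H J := by
  obtain ⟨x, y⟩ := w
  simp only [TR, rect, Set.mem_setOf_eq] at hw
  simp only [TB, Set.mem_setOf_eq, abs_le, twn]
  split_ifs <;> simp only at * <;> omega

theorem twn_id {H J : ℤ} {w : Pt} (hw : w ∈ TB H J) : twn H w = w := by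
  obtain ⟨x, y⟩ := w
  simp only [TB, Set.mem_setOf_eq, abs_le] at hw
  simp only [twn]
  split_ifs <;> first | rfl | omega

/-- `H = 2N`: the twins are `(N, j)`, `j` odd, `twn (N, j) = (N-1, j)`; `H = 2N+1`: the twins are `(-N-1, j)`, `j` even.  Split the `if`s (`split_ifs`), `TL_adj_iff`, `Prod.ext_iff`, `omega` -/
theorem twn_adj {H J : ℤ} (hH : 1 ≤ H) {u v : Pt} (hu : u ∈ TR H J) (hv : v ∈ TR H J)
    (h : TL.Adj u v) : twn H u = twn H v ∨ TL.Adj (twn H u) (twn H v) := by
  obtain ⟨x, y⟩ := u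
  obtain ⟨x', y'⟩ := v
  rw [TL_adj_iff] at h
  rw [TL_adj_iff]
  simp only [TR, rect, Set.mem_setOf_eq] at hu hv
  simp only [twn]
  simp only at h
  split_ifs <;> simp only [Prod.mk.injEq, and_true, true_and] <;> omega

theorem twn_near {H J : ℤ} {w : Pt} (hw : w ∈ TR H J) : twn H w = w ∨ TL.Adj (twn H w) w := by
  obtain ⟨x, y⟩ := w
  rw [TL_adj_iff]
  simp only [TR, rect, Set.mem_setOf_eq] at hw
  simp only [twn]
  split_ifs
  · simp only [Prod.mk.injEq, and_true, true_and]
    omega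
  · simp only [Prod.mk.injEq, and_true, true_and]
    omega
  · left
    rfl

/-- a site on the sides of the bounding rectangle is a boundary site of the box or the twin of one -/
theorem side_bd {H J : ℤ} (hH : 1 ≤ H) {w : Pt}
    (hw : w ∈ sides (-((H + 1) / 2)) (H / 2) (-J) J) : twn H w ∉ TB (H - 2) (J - 1) := by
  obtain ⟨x, y⟩ := w
  simp only [sides, rect, Set.mem_setOf_eq] at hw
  simp only [TB, Set.mem_setOf_eq, abs_le, twn]
  split_ifs <;> simp only at * <;> omega

/-- every boundary site of the box is on the sides or has a twin there -/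
theorem bd_side {H J : ℤ} (hH : 1 ≤ H) {v : Pt} (hv : v ∈ TB H J)
    (h : v ∉ TB (H - 2) (J - 1)) :
    ∃ w, w ∈ sides (-((H + 1) / 2)) (H / 2) (-J) J ∧ twn H w = v := by
  obtain ⟨x, y⟩ := v
  simp only [TB, Set.mem_setOf_eq, abs_le] at hv h
  by_cases hs : x = -((H + 1) / 2) ∨ x = H / 2 ∨ y = -J ∨ y = J
  · refine ⟨(x, y), ?_, ?_⟩
    · simp only [sides, rect, Set.mem_setOf_eq]
      omega
    · simp only [twn]
      split_ifs <;> first | rfl | omega
  · by_cases hp : 0 < 2 * x + y % 2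
    · refine ⟨(x + 1, y), ?_, ?_⟩
      · simp only [sides, rect, Set.mem_setOf_eq]
        omega
      · simp only [twn]
        split_ifs <;> simp only [Prod.mk.injEq, and_true, true_and] <;> omega
    · refine ⟨(x - 1, y), ?_, ?_⟩
      · simp only [sides, rect, Set.mem_setOf_eq]
        omega
      · simp only [twn]
        split_ifs <;> simp only [Prod.mk.injEq, and_true, true_and] <;> omega

/-- Paths in the rectangle for the configuration `ω ∘ twn` are mapped to paths in the box.  Induction along the path with `twn_adj`, `twn_mem`; the inner set `I ⊆ TB H J` is not hit, because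
`twn H w ∈ I` for `w ∉ TB H J` is excluded by `hI` (`twn_near`: `twn H w` has the neighbour `w` outside the box). -/
theorem twn_cn {H J : ℤ} (hH : 1 ≤ H) {I : Set Pt} (hI : I ⊆ TB (H - 2) (J - 1)) {c : Bool}
    {ω : Cfg} {u v : Pt}
    (h : TL.Cn ((TR H J \ I) ∩ TL.col c (fun w => ω (twn H w))) u v) :
    TL.Cn ((TB H J \ I) ∩ TL.col c ω) (twn H u) (twn H v) := by
  have key : ∀ w : Pt, w ∈ (TR H J \ I) ∩ TL.col c (fun w => ω (twn H w)) →
      twn H w ∈ (TB H J \ I) ∩ TL.col c ω := by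
    rintro w ⟨⟨hw, hwI⟩, hc⟩
    refine ⟨⟨twn_mem hH hw, fun hI' => ?_⟩, hc⟩
    rcases twn_near hw with h1 | h1
    · rw [h1] at hI'
      exact hwI hI'
    · have h2 : w ∈ TB H J := TB_nb (hI hI') h1
      rw [twn_id h2] at hI'
      exact hwI hI'
  obtain ⟨hu, h⟩ := h
  induction h with
  | refl => exact Lat.Cn.refl (key u hu)
  | @tail b d hb hd ih =>
    obtain ⟨hadj, hdm⟩ := hd
    have hbm : b ∈ (TR H J \ I) ∩ TL.col c (fun w => ω (twn H w)) :=
      Lat.Cn.right (L := TL) ⟨hu, hb⟩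
    rcases twn_adj hH hbm.1.1 hdm.1.1 hadj with h1 | h1
    · rw [← h1]
      exact ih
    · exact ih.trans (Lat.Cn.of_adj (key b hbm) (key d hdm) h1)

/-- conversely a path in the box is a path in the rectangle for `ω ∘ twn` (`twn_id`, `TB_sub_TR`) -/
theorem cn_twn {H J : ℤ} {I : Set Pt} {c : Bool} {ω : Cfg} {u v : Pt}
    (h : TL.Cn ((TB H J \ I) ∩ TL.col c ω) u v) :
    TL.Cn ((TR H J \ I) ∩ TL.col c (fun w => ω (twn H w))) u v := by
  refine h.mono ?_
  rintro w ⟨⟨hw, hwI⟩, hc⟩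
  refine ⟨⟨TB_sub_TR H J hw, hwI⟩, ?_⟩
  change ω (twn H w) = c
  rw [twn_id hw]
  exact hc

end SC
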