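import Pool.Agent.Lib_MP_e0a489.TP4
import Pool.Agent.Lib_MP_e0a489.TQ2

/-!
# MP_e0a489, module TQ 3: four arms in the Euclidean annulus, row drawing
-/

set_option autoImplicit false

namespace SC

open Classical

/-- an arm of colour `c` in the annulus between the boundaries of the boxes `TB H₁ J₁` and `TB H₂ J₂` -/
structure RArm (H₁ J₁ H₂ J₂ : ℤ) (c : Bool) (ω : Cfg) (γ : List Pt) : Prop where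
  chain : γ.IsChain TL.Adj
  mem : ∀ v ∈ γ, v ∈ TB H₂ J₂ ∧ v ∉ TB (H₁ - 2) (J₁ - 1)
  col : ∀ v ∈ γ, ω v = c
  start : ∃ v, γ.head? = some v ∧ v ∈ TB H₁ J₁
  fin : ∃ v, γ.getLast? = some v ∧ v ∉ TB (H₂ - 2) (J₂ - 1)

/-- four arms in alternating order -/
def RFour (H₁ J₁ H₂ J₂ : ℤ) (ω : Cfg) : Prop :=
  ∃ γ₁ γ₂ γ₃ γ₄ : List Pt, RArm H₁ J₁ H₂ J₂ true ω γ₁ ∧ RArm H₁ J₁ H₂ J₂ false ω γ₂ ∧
    RArm H₁ J₁ H₂ J₂ true ω γ₃ ∧ RArm H₁ J₁ H₂ J₂ false ω γ₄ ∧ γ₁.Disjoint γ₃ ∧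
    γ₂.Disjoint γ₄ ∧
    ∀ δ : List Pt, δ.IsChain TL.Adj → (∀ v ∈ δ, v ∈ TB H₂ J₂ ∧ v ∉ TB (H₁ - 2) (J₁ - 1)) →
      (∃ v ∈ γ₁, δ.head? = some v) → (∃ v ∈ γ₃, δ.getLast? = some v) →
        ∃ v ∈ δ, v ∈ γ₂ ∨ v ∈ γ₄

/-- the event with two open arms only -/
def RTwo (H₁ J₁ H₂ J₂ : ℤ) (ω : Cfg) : Prop :=
  TL.Two true (TB H₂ J₂ \ TB (H₁ - 2) (J₁ - 1)) (TL.nb (TB (H₁ - 2) (J₁ - 1)))
    {v | v ∈ TB H₂ J₂ ∧ ∃ u, TL.Adj v u ∧ u ∉ TB H₂ J₂} ω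

/-- One arm with its end on the side of the bounding rectangle.  `γ` = list of `Cn.path`, `ŷ` a site of the sides with `twn ŷ = y`; the set `{v | v ∈ γ} ∪ {ŷ}` is connected (`con_list`, `Con.insert`,
`twn_near`), contained in the annulus of the rectangle, of colour `c` for `ω ∘ twn`.  (`x ∈ nb (inner box)`, so `x ∈ TB H₁ J₁` by `TB_nb`; `ŷ` is not in the inner box by `side_bd` and `twn_id`.) -/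
theorem arm_list {H₁ J₁ H₂ J₂ : ℤ} (hH : 2 ≤ H₁) (hJ : 1 ≤ J₁) (hH2 : H₁ ≤ H₂) (hJ2 : J₁ ≤ J₂)
    {c : Bool} {ω : Cfg} {x y ŷ : Pt} (hx : x ∈ TL.nb (TB (H₁ - 2) (J₁ - 1)))
    (hy : ŷ ∈ sides (-((H₂ + 1) / 2)) (H₂ / 2) (-J₂) J₂) (hty : twn H₂ ŷ = y)
    (h : TL.Cn ((TB H₂ J₂ \ TB (H₁ - 2) (J₁ - 1)) ∩ TL.col c ω) x y) :
    ∃ γ : List Pt, RArm H₁ J₁ H₂ J₂ c ω γ ∧ γ.head? = some x ∧ γ.getLast? = some y ∧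
      TL.Con ({v | v ∈ γ} ∪ {ŷ}) ∧
      ({v | v ∈ γ} ∪ {ŷ}) ⊆ (TR H₂ J₂ \ TB (H₁ - 2) (J₁ - 1)) ∩
        TL.col c (fun w => ω (twn H₂ w)) := by
  obtain ⟨γ, -, h1, h2, h3, h4⟩ := h.path
  have hyb : twn H₂ ŷ ∉ TB (H₂ - 2) (J₂ - 1) := side_bd (by omega) hy
  have hyR : ŷ ∈ TR H₂ J₂ := hy.1
  have hym : y ∈ γ := List.mem_of_getLast? h2
  have hyI : ŷ ∉ TB (H₁ - 2) (J₁ - 1) := by
    intro hI
    have h5 : ŷ ∈ TB H₂ J₂ := TB_mono (by omega) (by omega) hI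
    rw [twn_id h5] at hyb
    exact hyb (TB_mono (by omega) (by omega) hI)
  refine ⟨γ, ⟨h4, ?_, ?_, ?_, ?_⟩, h1, h2, ?_, ?_⟩
  · intro v hv
    exact (h3 v hv).1
  · intro v hv
    exact (h3 v hv).2
  · obtain ⟨u, hu, hux⟩ := hx
    exact ⟨x, h1, TB_nb hu hux⟩
  · refine ⟨y, h2, ?_⟩
    rw [← hty]
    exact hyb
  · refine Lat.Con.insert (Lat.con_list h4) (u := y) hym ?_
    rcases twn_near hyR with h5 | h5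
    · right
      rw [← hty, h5]
    · left
      rw [← hty]
      exact h5
  · rintro v (hv | hv)
    · have h5 := h3 v hv
      refine ⟨⟨TB_sub_TR H₂ J₂ h5.1.1, h5.1.2⟩, ?_⟩
      change ω (twn H₂ v) = c
      rw [twn_id h5.1.1]
      exact h5.2
    · have hv' : v = ŷ := hv
      subst hv'
      refine ⟨⟨hyR, hyI⟩, ?_⟩
      change ω (twn H₂ v) = c
      rw [hty]
      exact (h3 y hym).2

/-- DUALITY IN THE EUCLIDEAN ANNULUS.  `In = TB (H₁-2) (J₁-1)` (`TB_con`), rectangle `TR H₂ J₂`, configuration `ω' = ω ∘ twn`.  `In` is not on the sides (`side_bd`, `twn_id`).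
The two open arms `x₁ - y₁`, `x₃ - y₃`: `yᵢ` is a boundary site (`TB_nb` contraposed), `bd_side` gives `ŷᵢ` on the sides with `twn ŷᵢ = yᵢ`; in the rectangle `xᵢ` is joined to `ŷᵢ` (`cn_twn`, one more step `twn_near`).  They are not joined in
the rectangle (`twn_cn`, `twn_id`).  `dual4` (`k = true`) gives closed arms `x₂ - ŷ₂`, `x₄ - ŷ₄` for `ω'` and `Alt`; `twn_cn` maps them to closed arms for `ω` (`x₂ ∈ TB` so `twn x₂ = x₂`; the end `twn ŷ₂` is not in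
`TB (H₂-2) (J₂-1)`: `side_bd`).  `arm_list` for all four; `alt_sep` with `Qᵢ = {v | v ∈ γᵢ} ∪ {ŷᵢ}`.  A common site of `δ` (in `TB H₂ J₂`) and `Q₂` is in `γ₂`: if it is `ŷ₂` then `ŷ₂ = twn ŷ₂ = y₂`, the last site of `γ₂`. -/
theorem rtwo_rfour {H₁ J₁ H₂ J₂ : ℤ} (hH : 2 ≤ H₁) (hJ : 1 ≤ J₁) (h3 : 3 ≤ H₁ ∨ J₁ = 1)
    (hH2 : H₁ ≤ H₂) (hJ2 : J₁ ≤ J₂) {ω : Cfg} (h : RTwo H₁ J₁ H₂ J₂ ω) :
    RFour H₁ J₁ H₂ J₂ ω := by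
  obtain ⟨x₁, hx₁, y₁, hy₁, x₃, hx₃, y₃, hy₃, c₁, c₃, hn⟩ := h
  have hII : TB (H₁ - 2) (J₁ - 1) ⊆ TB (H₂ - 2) (J₂ - 1) := TB_mono (by omega) (by omega)
  have hIB : TB (H₁ - 2) (J₁ - 1) ⊆ TB H₂ J₂ := TB_mono (by omega) (by omega)
  have hIn : TL.Con (TB (H₁ - 2) (J₁ - 1)) := TB_con (by omega) (by omega) (by omega)
  have hne : (TB (H₁ - 2) (J₁ - 1)).Nonempty := by
    refine ⟨(0, 0), ?_⟩
    simp only [TB, Set.mem_setOf_eq, abs_le]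
    omega
  have hsub : TB (H₁ - 2) (J₁ - 1) ⊆ rect (-((H₂ + 1) / 2)) (H₂ / 2) (-J₂) J₂ :=
    fun v hv => TB_sub_TR H₂ J₂ (hIB hv)
  have hs : ∀ v ∈ TB (H₁ - 2) (J₁ - 1), v ∉ sides (-((H₂ + 1) / 2)) (H₂ / 2) (-J₂) J₂ := by
    intro v hv hv'
    have h1 : twn H₂ v ∉ TB (H₂ - 2) (J₂ - 1) := side_bd (by omega) hv'
    rw [twn_id (hIB hv)] at h1
    exact h1 (hII hv)
  have hxx : ∀ x ∈ TL.nb (TB (H₁ - 2) (J₁ - 1)), twn H₂ x = x := by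
    rintro x ⟨u, hu, hux⟩
    exact twn_id (TB_mono hH2 hJ2 (TB_nb hu hux))
  have hbd : ∀ y ∈ {v | v ∈ TB H₂ J₂ ∧ ∃ u, TL.Adj v u ∧ u ∉ TB H₂ J₂},
      ∃ w, w ∈ sides (-((H₂ + 1) / 2)) (H₂ / 2) (-J₂) J₂ ∧ twn H₂ w = y := by
    rintro y ⟨hy, u, hyu, hu⟩
    exact bd_side (by omega) hy fun h1 => hu (TB_nb h1 hyu)
  obtain ⟨z₁, hz₁, hzy₁⟩ := hbd y₁ hy₁
  obtain ⟨z₃, hz₃, hzy₃⟩ := hbd y₃ hy₃
  obtain ⟨γ₁, A₁, g₁, l₁, C₁, S₁⟩ := arm_list hH hJ hH2 hJ2 hx₁ hz₁ hzy₁ c₁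
  obtain ⟨γ₃, A₃, g₃, l₃, C₃, S₃⟩ := arm_list hH hJ hH2 hJ2 hx₃ hz₃ hzy₃ c₃
  have e₁ : x₁ ∈ γ₁ := List.mem_of_head? g₁
  have e₃ : x₃ ∈ γ₃ := List.mem_of_head? g₃
  have d₁ : TL.Cn ((TR H₂ J₂ \ TB (H₁ - 2) (J₁ - 1)) ∩ TL.col true (fun w => ω (twn H₂ w)))
      x₁ z₁ := (C₁ x₁ (Or.inl e₁) z₁ (Or.inr rfl)).mono S₁
  have d₃ : TL.Cn ((TR H₂ J₂ \ TB (H₁ - 2) (J₁ - 1)) ∩ TL.col true (fun w => ω (twn H₂ w)))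
      x₃ z₃ := (C₃ x₃ (Or.inl e₃) z₃ (Or.inr rfl)).mono S₃
  have hn' : ¬ TL.Cn ((TR H₂ J₂ \ TB (H₁ - 2) (J₁ - 1)) ∩
      TL.col true (fun w => ω (twn H₂ w))) x₁ x₃ := by
    intro h1
    have h2 := twn_cn (by omega) hII h1
    rw [hxx x₁ hx₁, hxx x₃ hx₃] at h2
    exact hn h2
  obtain ⟨x₂, z₂, x₄, z₄, hx₂, hx₄, hz₂, hz₄, c₂, c₄, halt⟩ :=
    Lat.dual4 (L := TL) (k := true) (ω := fun w => ω (twn H₂ w))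
      (a := -((H₂ + 1) / 2)) (b := H₂ / 2) (c := -J₂) (d := J₂) (by omega) (by omega)
      hIn hne hsub hs hx₁ hx₃ hz₁ hz₃ d₁ d₃ hn'
  have c₂' := twn_cn (J := J₂) (by omega) hII c₂
  have c₄' := twn_cn (J := J₂) (by omega) hII c₄
  rw [hxx x₂ hx₂] at c₂'
  rw [hxx x₄ hx₄] at c₄'
  obtain ⟨γ₂, A₂, g₂, l₂, C₂, S₂⟩ := arm_list hH hJ hH2 hJ2 hx₂ hz₂ rfl c₂'
  obtain ⟨γ₄, A₄, g₄, l₄, C₄, S₄⟩ := arm_list hH hJ hH2 hJ2 hx₄ hz₄ rfl c₄'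
  have e₂ : x₂ ∈ γ₂ := List.mem_of_head? g₂
  have e₄ : x₄ ∈ γ₄ := List.mem_of_head? g₄
  obtain ⟨D₂₄, D₁₃, hsep⟩ := Lat.alt_sep (L := TL) (k := true) (ω := fun w => ω (twn H₂ w))
    hIn hsub C₁ C₂ C₃ C₄ S₁ S₂ S₃ S₄ ⟨x₁, Or.inl e₁, hx₁⟩ ⟨x₂, Or.inl e₂, hx₂⟩
    ⟨x₃, Or.inl e₃, hx₃⟩ ⟨x₄, Or.inl e₄, hx₄⟩ (Or.inr rfl) (Or.inr rfl) (Or.inr rfl)
    (Or.inr rfl) halt
  refine ⟨γ₁, γ₂, γ₃, γ₄, A₁, A₂, A₃, A₄, ?_, ?_, ?_⟩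
  · intro v hv hv'
    exact D₁₃ v (Or.inl hv) (Or.inl hv')
  · intro v hv hv'
    exact D₂₄ v (Or.inl hv) (Or.inl hv')
  · rintro δ hδ hm ⟨v, hv, hδv⟩ ⟨w, hw, hδw⟩
    obtain ⟨z, hz, hz'⟩ := hsep {v | v ∈ δ} (Lat.con_list hδ)
      (fun v hv => ⟨TB_sub_TR H₂ J₂ (hm v hv).1, (hm v hv).2⟩)
      ⟨v, List.mem_of_head? hδv, Or.inl hv⟩ ⟨w, List.mem_of_getLast? hδw, Or.inl hw⟩
    refine ⟨z, hz, ?_⟩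
    have hzz : twn H₂ z = z := twn_id (hm z hz).1
    rcases hz' with (hz' | hz') | (hz' | hz')
    · exact Or.inl hz'
    · left
      have h1 : z = z₂ := hz'
      rw [← h1, hzz] at l₂
      exact List.mem_of_getLast? l₂
    · exact Or.inr hz'
    · right
      have h1 : z = z₄ := hz'
      rw [← h1, hzz] at l₄
      exact List.mem_of_getLast? l₄

end SC
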