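import Pool.Agent.Lib_MP_e0a489.TE3
import Pool.Agent.Lib_MP_e0a489.TP1
import Pool.Agent.Lib_MP_e0a489.TQ3

/-!
# MP_e0a489, module TQ 4: the natural four arm event of the triangular lattice and the index boxes
-/

set_option autoImplicit false

namespace SC

open Classical

/-- `TwoA` in index boxes implies `RTwo`: `Two.trunc` with `D = ann r' R'`, `X = nb (bx r')`, `Y = rng R'`, `B = TB H₂ J₂`, `I = TB (H₁-2) (J₁-1)`: `hBI`, and `x ∈ nb (bx r') ⊆ nb I ⊆ TB H₁ J₁ ⊆ B` by `TB_nb`,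
`TB_mono`; `B \ I ⊆ ann r' R'`; sites of `rng R'` are not in `B ⊆ bx (R' - 1)`. -/
theorem twoA_rtwo {H₁ J₁ H₂ J₂ r' R' : ℤ} (hH2 : H₁ ≤ H₂) (hJ2 : J₁ ≤ J₂)
    (h1 : bx r' ⊆ TB (H₁ - 2) (J₁ - 1)) (h2 : TB H₂ J₂ ⊆ bx (R' - 1)) {ω : Cfg}
    (h : TL.TwoA true r' R' ω) : RTwo H₁ J₁ H₂ J₂ ω := by
  refine Lat.Two.trunc ?_ ?_ ?_ ?_ h
  · intro u hu v huv
    exact TB_mono hH2 hJ2 (TB_nb hu huv)
  · rintro z ⟨hz, hz'⟩
    have h3 : nrm z ≤ R' - 1 := h2 hz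
    refine ⟨?_, by omega⟩
    by_contra h4
    exact hz' (h1 (not_lt.1 h4))
  · rintro x ⟨u, hu, hux⟩ _
    exact ⟨TB_mono hH2 hJ2 (TB_nb (h1 hu) hux), fun _ => ⟨u, h1 hu, hux⟩⟩
  · intro y hy hyB
    have h3 : nrm y ≤ R' - 1 := h2 hyB
    have h4 : nrm y = R' := hy
    omega

/-- `RFour` implies `TwoA` in smaller index boxes.  First `Two true D X Y ω` with `D = TB H₂ J₂ \ TB (H₁-2) (J₁-1)`, `X = TB H₁ J₁`, `Y = (TB (H₂-2) (J₂-1))ᶜ`: the arms `γ₁`, `γ₃` (`Cn.of_path`); not joined, since an open path (`Cn.path`) from the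
head of `γ₁` to the head of `γ₃` contains a site of `γ₂` or `γ₄`, which is closed.  Then `Two.trunc` with `B = bx R'`, `I = bx r'` (`X ⊆ I`; a site of `bx R'` has all neighbours in `bx (R' + 1) ⊆ TB H₂ J₂`, so it is in
`TB (H₂-2) (J₂-1)` by `TB_int`; `bx R' \ bx r' ⊆ D`).  The new ends are in `rng R'` (`Adj.near`). -/
theorem rfour_twoA {H₁ J₁ H₂ J₂ r' R' : ℤ} (hr : r' < R') (h1 : TB H₁ J₁ ⊆ bx r')
    (h2 : bx (R' + 1) ⊆ TB H₂ J₂) {ω : Cfg} (h : RFour H₁ J₁ H₂ J₂ ω) :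
    TL.TwoA true r' R' ω := by
  obtain ⟨γ₁, γ₂, γ₃, γ₄, a1, a2, a3, a4, _, _, hδ⟩ := h
  obtain ⟨x, hx, hxX⟩ := a1.start
  obtain ⟨y, hy, hyY⟩ := a1.fin
  obtain ⟨x', hx', hxX'⟩ := a3.start
  obtain ⟨y', hy', hyY'⟩ := a3.fin
  have hT : TL.Two true (TB H₂ J₂ \ TB (H₁ - 2) (J₁ - 1)) (TB H₁ J₁)
      ((TB (H₂ - 2) (J₂ - 1))ᶜ) ω := by
    refine ⟨x, hxX, y, hyY, x', hxX', y', hyY', ?_, ?_, ?_⟩
    · exact Lat.Cn.of_path hx hy (fun w hw => ⟨a1.mem w hw, a1.col w hw⟩) a1.chain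
    · exact Lat.Cn.of_path hx' hy' (fun w hw => ⟨a3.mem w hw, a3.col w hw⟩) a3.chain
    · intro hc
      obtain ⟨l, _, l2, l3, l4, l5⟩ := hc.path
      obtain ⟨v, hv, hv'⟩ := hδ l l5 (fun w hw => (l4 w hw).1)
        ⟨x, List.mem_of_mem_head? hx, l2⟩ ⟨x', List.mem_of_mem_head? hx', l3⟩
      have h5 : ω v = true := (l4 v hv).2
      rcases hv' with hv' | hv'
      · have h6 := a2.col v hv'
        rw [h5] at h6
        exact absurd h6 (by decide)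
      · have h6 := a4.col v hv'
        rw [h5] at h6
        exact absurd h6 (by decide)
  have hnb : ∀ u v : Pt, TL.Adj u v → nrm v ≤ nrm u + 1 := by
    intro u v huv
    obtain ⟨h3, h4⟩ := Lat.Adj.near huv
    have h5 : |u.1| ≤ nrm u := le_max_left _ _
    have h6 : |u.2| ≤ nrm u := le_max_right _ _
    rw [abs_le] at h3 h4 h5 h6
    show max |v.1| |v.2| ≤ nrm u + 1
    rw [max_le_iff, abs_le, abs_le]
    omega
  have h3 : TL.Two true (bx R' \ bx r') (TL.nb (bx r'))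
      {v | v ∈ bx R' ∧ ∃ u, TL.Adj v u ∧ u ∉ bx R'} ω := by
    refine Lat.Two.trunc ?_ ?_ ?_ ?_ hT
    · intro u hu v huv
      have h4 : nrm u ≤ r' := hu
      have h5 := hnb u v huv
      show nrm v ≤ R'
      omega
    · rintro z ⟨hz, hz'⟩
      have h4 : nrm z ≤ R' := hz
      refine ⟨h2 (show nrm z ≤ R' + 1 by omega), fun h5 => hz' (h1 ?_)⟩
      exact TB_mono (by omega) (by omega) h5
    · intro z hz _
      have h4 : nrm z ≤ r' := h1 hz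
      exact ⟨show nrm z ≤ R' by omega, fun h5 => absurd (h1 hz) h5⟩
    · intro z hz hzB
      have h4 : nrm z ≤ R' := hzB
      refine hz (TB_int (h2 (show nrm z ≤ R' + 1 by omega)) fun u hu => h2 ?_)
      have h5 := hnb z u hu
      show nrm u ≤ R' + 1
      omega
  have e1 : bx R' \ bx r' = ann r' R' := by
    ext z
    constructor
    · rintro ⟨h4, h5⟩
      exact ⟨not_le.1 h5, h4⟩
    · rintro ⟨h4, h5⟩
      exact ⟨h5, not_le.2 h4⟩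
  rw [e1] at h3
  have hY : ∀ v ∈ {v | v ∈ bx R' ∧ ∃ u, TL.Adj v u ∧ u ∉ bx R'}, v ∈ rng R' := by
    rintro v ⟨hv, u, huv, hu⟩
    have h4 : nrm v ≤ R' := hv
    have h5 : ¬ nrm u ≤ R' := hu
    have h6 := hnb v u huv
    show nrm v = R'
    omega
  obtain ⟨a, ha, b, hb, a', ha', b', hb', c1, c2, c3⟩ := h3
  exact ⟨a, ha, b, hY b hb, a', ha', b', hY b' hb', c1, c2, c3⟩

private theorem tq4_srj (γ : List Pt) : ∃ γ' : List Pt, γ'.map shE = γ := by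
  refine ⟨γ.map shE.symm, ?_⟩
  rw [List.map_map]
  have e : (shE ∘ shE.symm : Pt → Pt) = id := by
    funext v
    exact Equiv.apply_symm_apply shE v
  rw [e, List.map_id]

private theorem tq4_path (r R : ℝ) (γ : List Pt) :
    SCTop.TPath r R γ ↔ (γ.map shE).IsChain TL.Adj ∧ ∀ v ∈ γ.map shE,
      v ∈ TB ⌊2 * R⌋ ⌊2 * R / Real.sqrt 3⌋ ∧
        v ∉ TB (⌊2 * r⌋ - 2) (⌊2 * r / Real.sqrt 3⌋ - 1) := by
  have hch : γ.IsChain SCTop.TAdj ↔ (γ.map shE).IsChain TL.Adj := by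
    rw [List.isChain_map]
    have e : SCTop.TAdj = fun a b : Pt => TL.Adj (shE a) (shE b) := by
      funext a b
      exact propext (TAdj_iff a b)
    rw [e]
  have hm : ∀ v : Pt, (SCTop.inBox R v ∧ (¬ SCTop.inBox r v ∨ SCTop.tbd r v)) ↔
      (shE v ∈ TB ⌊2 * R⌋ ⌊2 * R / Real.sqrt 3⌋ ∧
        shE v ∉ TB (⌊2 * r⌋ - 2) (⌊2 * r / Real.sqrt 3⌋ - 1)) := by
    intro v
    rw [inBox_iff, inBox_iff, tbd_iff]
    refine and_congr_right fun _ => ?_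
    constructor
    · rintro (h | h)
      · exact fun h' => h (TB_mono (by omega) (by omega) h')
      · exact h.2
    · intro h
      by_cases h' : shE v ∈ TB ⌊2 * r⌋ ⌊2 * r / Real.sqrt 3⌋
      · exact Or.inr ⟨h', h⟩
      · exact Or.inl h'
  constructor
  · intro h
    refine ⟨hch.1 h.chain, ?_⟩
    intro w hw
    obtain ⟨v, hv, rfl⟩ := List.mem_map.1 hw
    exact (hm v).1 (h.ann v hv)
  · rintro ⟨h1, h2⟩
    exact ⟨hch.2 h1, fun v hv => (hm v).2 (h2 _ (List.mem_map_of_mem hv))⟩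

private theorem tq4_arm (r R : ℝ) (ω : Cfg) (γ : List Pt) (c : Bool) (X : Pt → Prop)
    (hX : ∀ v, SCTop.inBox R v → (X v ↔ ω (shE v) = c)) :
    SCTop.TArm X r R γ ↔ RArm ⌊2 * r⌋ ⌊2 * r / Real.sqrt 3⌋ ⌊2 * R⌋ ⌊2 * R / Real.sqrt 3⌋ c ω
      (γ.map shE) := by
  constructor
  · intro h
    obtain ⟨h1, h2⟩ := (tq4_path r R γ).1 h.path
    refine ⟨h1, h2, ?_, ?_, ?_⟩
    · intro w hw
      obtain ⟨v, hv, rfl⟩ := List.mem_map.1 hw
      exact (hX v (h.path.ann v hv).1).1 (h.typ v hv)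
    · obtain ⟨v, hv, hv'⟩ := h.start
      refine ⟨shE v, ?_, (tbd_iff.1 hv').1⟩
      rw [List.head?_map, hv]
      rfl
    · obtain ⟨v, hv, hv'⟩ := h.fin
      refine ⟨shE v, ?_, (tbd_iff.1 hv').2⟩
      rw [List.getLast?_map, hv]
      rfl
  · intro h
    have hp := (tq4_path r R γ).2 ⟨h.chain, h.mem⟩
    refine ⟨hp, ?_, ?_, ?_⟩
    · intro v hv
      exact (hX v (hp.ann v hv).1).2 (h.col _ (List.mem_map_of_mem hv))
    · obtain ⟨w, hw, hw'⟩ := h.start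
      rw [List.head?_map, Option.map_eq_some_iff] at hw
      obtain ⟨v, hv, rfl⟩ := hw
      exact ⟨v, hv, tbd_iff.2 ⟨hw', (h.mem _ (List.mem_map_of_mem
        (List.mem_of_mem_head? hv))).2⟩⟩
    · obtain ⟨w, hw, hw'⟩ := h.fin
      rw [List.getLast?_map, Option.map_eq_some_iff] at hw
      obtain ⟨v, hv, rfl⟩ := hw
      exact ⟨v, hv, tbd_iff.2 ⟨(h.mem _ (List.mem_map_of_mem
        (List.mem_of_mem_getLast? hv))).1, hw'⟩⟩

/-- TRANSPORT to the sheared coordinates: lists `γ.map shE` and `γ.map shE.symm` (`List.isChain_map`, `List.head?_map`, `List.getLast?_map`, `List.mem_map`), `TAdj_iff`, `inBox_iff`, `tbd_iff`, `TB_mono`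
(`¬ inBox r v ∨ tbd r v` means `shE v ∉ TB (⌊2r⌋ - 2) (⌊2r/√3⌋ - 1)`); `v ∈ opn (sites R) shE ω ↔ inBox R v ∧ ω (shE v) = true` (`mem_opn`, `mem_sites`). -/
theorem tfour_iff (r R : ℝ) (ω : Cfg) :
    SCTop.tfourArms r R (opn (SCTop.sites R) shE ω) ↔
      RFour ⌊2 * r⌋ ⌊2 * r / Real.sqrt 3⌋ ⌊2 * R⌋ ⌊2 * R / Real.sqrt 3⌋ ω := by
  have hX : ∀ v, SCTop.inBox R v → (v ∈ opn (SCTop.sites R) shE ω ↔ ω (shE v) = true) := by
    intro v hv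
    rw [mem_opn, mem_sites]
    exact ⟨fun h => h.2, fun h => ⟨hv, h⟩⟩
  have hX' : ∀ v, SCTop.inBox R v → (v ∉ opn (SCTop.sites R) shE ω ↔ ω (shE v) = false) := by
    intro v hv
    rw [hX v hv]
    exact Bool.not_eq_true _ ▸ Iff.rfl
  have hA := fun γ => tq4_arm r R ω γ true _ hX
  have hB := fun γ => tq4_arm r R ω γ false _ hX'
  have hmem : ∀ (v : Pt) (γ : List Pt), shE v ∈ γ.map shE ↔ v ∈ γ := by
    intro v γ
    constructor
    · intro h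
      obtain ⟨w, hw, e⟩ := List.mem_map.1 h
      rwa [shE.injective e] at hw
    · exact fun h => List.mem_map_of_mem h
  have hdisj : ∀ γ γ' : List Pt, (γ.map shE).Disjoint (γ'.map shE) ↔ γ.Disjoint γ' := by
    intro γ γ'
    constructor
    · intro h v hv hv'
      exact h ((hmem v γ).2 hv) ((hmem v γ').2 hv')
    · intro h w hw hw'
      obtain ⟨v, hv, rfl⟩ := List.mem_map.1 hw
      exact h hv ((hmem v γ').1 hw')
  have hhead : ∀ δ γ : List Pt, (∃ v ∈ γ.map shE, (δ.map shE).head? = some v) ↔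
      ∃ v ∈ γ, δ.head? = some v := by
    intro δ γ
    constructor
    · rintro ⟨w, hw, h⟩
      rw [List.head?_map, Option.map_eq_some_iff] at h
      obtain ⟨v, hv, rfl⟩ := h
      exact ⟨v, (hmem v γ).1 hw, hv⟩
    · rintro ⟨v, hv, h⟩
      refine ⟨shE v, (hmem v γ).2 hv, ?_⟩
      rw [List.head?_map, h]
      rfl
  have hlast : ∀ δ γ : List Pt, (∃ v ∈ γ.map shE, (δ.map shE).getLast? = some v) ↔
      ∃ v ∈ γ, δ.getLast? = some v := by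
    intro δ γ
    constructor
    · rintro ⟨w, hw, h⟩
      rw [List.getLast?_map, Option.map_eq_some_iff] at h
      obtain ⟨v, hv, rfl⟩ := h
      exact ⟨v, (hmem v γ).1 hw, hv⟩
    · rintro ⟨v, hv, h⟩
      refine ⟨shE v, (hmem v γ).2 hv, ?_⟩
      rw [List.getLast?_map, h]
      rfl
  constructor
  · rintro ⟨γ₁, γ₂, γ₃, γ₄, a1, a2, a3, a4, d1, d2, hδ⟩
    refine ⟨γ₁.map shE, γ₂.map shE, γ₃.map shE, γ₄.map shE, (hA γ₁).1 a1, (hB γ₂).1 a2,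
      (hA γ₃).1 a3, (hB γ₄).1 a4, (hdisj _ _).2 d1, (hdisj _ _).2 d2, ?_⟩
    intro δ hc hm h1 h3
    obtain ⟨δ', rfl⟩ := tq4_srj δ
    obtain ⟨v, hv, hv'⟩ := hδ δ' ((tq4_path r R δ').2 ⟨hc, hm⟩) ((hhead δ' γ₁).1 h1)
      ((hlast δ' γ₃).1 h3)
    exact ⟨shE v, (hmem v δ').2 hv, hv'.imp (hmem v γ₂).2 (hmem v γ₄).2⟩
  · rintro ⟨γ₁, γ₂, γ₃, γ₄, a1, a2, a3, a4, d1, d2, hδ⟩
    obtain ⟨γ₁, rfl⟩ := tq4_srj γ₁
    obtain ⟨γ₂, rfl⟩ := tq4_srj γ₂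
    obtain ⟨γ₃, rfl⟩ := tq4_srj γ₃
    obtain ⟨γ₄, rfl⟩ := tq4_srj γ₄
    refine ⟨γ₁, γ₂, γ₃, γ₄, (hA γ₁).2 a1, (hB γ₂).2 a2, (hA γ₃).2 a3, (hB γ₄).2 a4,
      (hdisj _ _).1 d1, (hdisj _ _).1 d2, ?_⟩
    intro δ hp h1 h3
    obtain ⟨hc, hm⟩ := (tq4_path r R δ).1 hp
    obtain ⟨w, hw, hw'⟩ := hδ (δ.map shE) hc hm ((hhead δ γ₁).2 h1) ((hlast δ γ₃).2 h3)
    obtain ⟨v, hv, rfl⟩ := List.mem_map.1 hw
    exact ⟨v, hv, hw'.imp (hmem v γ₂).1 (hmem v γ₄).1⟩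

end SC
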