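import Pool.Agent.Lib_MP_e0a489.HL3
import Pool.Agent.Lib_MP_e0a489.SE4
import Pool.Agent.Lib_MP_e0a489.TP11
import Pool.Agent.Lib_MP_e0a489.TQ4

/-!
# MP_e0a489, module TQ 5: `talpha4` and `al TL`
-/

set_option autoImplicit false

namespace SC

open Classical

/-- `|w.1| ≤ ρ`, `|w.2| ≤ ρ` imply `|2 w.1 + w.2 % 2| ≤ 2 ρ + 1` (and the row `w.2 = 0`) -/
theorem bx_sub_TB {ρ H J : ℤ} (h1 : 2 * ρ + 1 ≤ H) (h2 : ρ ≤ J) : bx ρ ⊆ TB H J := by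
  intro w hw
  have hw' : max |w.1| |w.2| ≤ ρ := hw
  have a1 := abs_le.mp (le_trans (le_max_left _ _) hw')
  have a2 := abs_le.mp (le_trans (le_max_right _ _) hw')
  refine ⟨abs_le.mpr ⟨?_, ?_⟩, abs_le.mpr ⟨?_, ?_⟩⟩ <;> omega

/-- `2 |w.1| ≤ H + 1` -/
theorem TB_sub_bx {ρ H J : ℤ} (h1 : H + 1 ≤ 2 * ρ) (h2 : J ≤ ρ) : TB H J ⊆ bx ρ := by
  intro w hw
  obtain ⟨hw1, hw2⟩ := hw
  have a1 := abs_le.mp hw1
  have a2 := abs_le.mp hw2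
  have h3 : |w.1| ≤ ρ := abs_le.mpr ⟨by omega, by omega⟩
  have h4 : |w.2| ≤ ρ := abs_le.mpr ⟨by omega, by omega⟩
  exact max_le h3 h4

/-- `⌊r⌋ ≤ ⌊2r/√3⌋` (`√3 ≤ 2`), `⌊2r/√3⌋ ≤ ⌊2r⌋`, `2 ⌊r⌋ ≤ ⌊2r⌋ ≤ 2 ⌊r⌋ + 1` -/
theorem floors {r : ℝ} (hr : 0 ≤ r) : ⌊r⌋ ≤ ⌊2 * r / Real.sqrt 3⌋ ∧
    ⌊2 * r / Real.sqrt 3⌋ ≤ ⌊2 * r⌋ ∧ 2 * ⌊r⌋ ≤ ⌊2 * r⌋ ∧ ⌊2 * r⌋ ≤ 2 * ⌊r⌋ + 1 := by
  have hs0 : (0 : ℝ) < Real.sqrt 3 := Real.sqrt_pos.mpr (by norm_num)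
  have hs1 : (1 : ℝ) ≤ Real.sqrt 3 := by
    rw [show (1 : ℝ) = Real.sqrt 1 from Real.sqrt_one.symm]
    exact Real.sqrt_le_sqrt (by norm_num)
  have hs2 : Real.sqrt 3 ≤ 2 := by
    rw [Real.sqrt_le_left (by norm_num)]
    norm_num
  refine ⟨Int.floor_le_floor ?_, Int.floor_le_floor ?_, ?_, ?_⟩
  · rw [le_div_iff₀ hs0]
    nlinarith
  · rw [div_le_iff₀ hs0]
    nlinarith
  · rw [Int.le_floor]
    push_cast
    have := Int.floor_le r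
    linarith
  · have h1 := Int.lt_floor_add_one r
    have h2 : ⌊2 * r⌋ < 2 * ⌊r⌋ + 2 := by
      rw [Int.floor_lt]
      push_cast
      linarith
    omega

/-- if `⌊2r⌋ = 2` then `r < 3/2`, `2r/√3 < √3 < 2` -/
theorem floor_case {r : ℝ} (hr : 1 ≤ r) : 3 ≤ ⌊2 * r⌋ ∨ ⌊2 * r / Real.sqrt 3⌋ = 1 := by
  rcases le_or_gt 3 (2 * r) with h | h
  · left
    rw [Int.le_floor]
    exact_mod_cast h
  · right
    have hs0 : (0 : ℝ) < Real.sqrt 3 := Real.sqrt_pos.mpr (by norm_num)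
    have hs2 : Real.sqrt 3 ≤ 2 := by
      rw [Real.sqrt_le_left (by norm_num)]
      norm_num
    have hs3 : (3 : ℝ) / 2 ≤ Real.sqrt 3 := by
      rw [Real.le_sqrt (by norm_num) (by norm_num)]
      norm_num
    rw [Int.floor_eq_iff]
    constructor
    · push_cast
      rw [le_div_iff₀ hs0]
      linarith
    · push_cast
      rw [div_lt_iff₀ hs0]
      linarith

/-- `prob_eq` with `I = sites R`, `e = shE`; `tfour_iff` -/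
theorem talpha4_eq (r R : ℝ) : SCTop.talpha4 r R = pr (fun ω =>
    RFour ⌊2 * r⌋ ⌊2 * r / Real.sqrt 3⌋ ⌊2 * R⌋ ⌊2 * R / Real.sqrt 3⌋ ω) := by
  unfold SCTop.talpha4
  rw [prob_eq (SCTop.sites R) shE (SCTop.tfourArms r R)]
  congr 1
  funext ω
  exact propext (tfour_iff r R ω)

/-- the event is local: it depends on the finite set `(sites R).map shE` (`opn_dep`, `tfour_iff`) -/
theorem rfour_loc (r R : ℝ) : Loc (fun ω =>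
    RFour ⌊2 * r⌋ ⌊2 * r / Real.sqrt 3⌋ ⌊2 * R⌋ ⌊2 * R / Real.sqrt 3⌋ ω) := by
  have h1 : (fun ω => RFour ⌊2 * r⌋ ⌊2 * r / Real.sqrt 3⌋ ⌊2 * R⌋ ⌊2 * R / Real.sqrt 3⌋ ω) =
      fun ω => SCTop.tfourArms r R (opn (SCTop.sites R) shE ω) :=
    funext fun ω => propext (tfour_iff r R ω).symm
  rw [h1]
  exact ⟨_, opn_dep (SCTop.sites R) shE (SCTop.tfourArms r R)⟩

/-- LOWER BOUND.  `r' = max (⌊r⌋ - 2) 0`, `R' = ⌊2R⌋ + 1`, `r' < R'`, so `al = pr (TwoA true r' R')`; `twoA_rtwo` (`bx r' ⊆ TB (⌊2r⌋-2) (⌊2r/√3⌋-1)`: if `⌊r⌋ ≥ 2` by `bx_sub_TB` and `floors`, if `⌊r⌋ = 1` then `bx 0 = {0}`;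
`TB ⌊2R⌋ .. ⊆ bx ⌊2R⌋` by `TB_sub_bx`), `rtwo_rfour` (`floor_case`), `talpha4_eq`, `pr_mono` (`TwoA.loc`, `rfour_loc`). -/
theorem talpha4_low {r R : ℝ} (hr : 1 ≤ r) (hrR : r ≤ R) :
    al TL (max (⌊r⌋ - 2) 0) (⌊2 * R⌋ + 1) ≤ SCTop.talpha4 r R := by
  obtain ⟨f1, f2, f3, f4⟩ := floors (r := r) (by linarith)
  obtain ⟨g1, g2, g3, g4⟩ := floors (r := R) (by linarith)
  have k1 : 1 ≤ ⌊r⌋ := by
    rw [Int.le_floor]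
    exact_mod_cast hr
  have k2 : ⌊r⌋ ≤ ⌊R⌋ := Int.floor_le_floor hrR
  have k3 : ⌊2 * r⌋ ≤ ⌊2 * R⌋ := Int.floor_le_floor (by linarith)
  have k4 : ⌊2 * r / Real.sqrt 3⌋ ≤ ⌊2 * R / Real.sqrt 3⌋ := by
    apply Int.floor_le_floor
    exact div_le_div_of_nonneg_right (by linarith) (Real.sqrt_nonneg 3)
  have hlt : max (⌊r⌋ - 2) 0 < ⌊2 * R⌋ + 1 := by
    rw [max_lt_iff]
    constructor <;> omega
  rw [talpha4_eq, al, if_pos hlt]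
  refine pr_mono (Lat.TwoA.loc TL true _ _) (rfour_loc r R) fun ω h => ?_
  refine rtwo_rfour (by omega) (by omega) ?_ k3 k4 (twoA_rtwo k3 k4 ?_ ?_ h)
  · exact floor_case hr
  · rcases le_or_gt 2 ⌊r⌋ with h2 | h2
    · rw [max_eq_left (by omega)]
      exact bx_sub_TB (by omega) (by omega)
    · rw [max_eq_right (by omega)]
      intro w hw
      have hw' : max |w.1| |w.2| ≤ 0 := hw
      have a1 := abs_le.mp (le_trans (le_max_left _ _) hw')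
      have a2 := abs_le.mp (le_trans (le_max_right _ _) hw')
      refine ⟨abs_le.mpr ⟨?_, ?_⟩, abs_le.mpr ⟨?_, ?_⟩⟩ <;> omega
  · exact TB_sub_bx (by omega) (by omega)

/-- UPPER BOUND.  `rfour_twoA` with `r' = 2`, `R' = ⌊r⌋ - 2 > 2`: `TB ⌊2 * 1⌋ ⌊2 * 1 / √3⌋ = TB 2 1 ⊆ bx 2`, `bx (⌊r⌋ - 1) ⊆ TB ⌊2r⌋ ⌊2r/√3⌋`. -/
theorem talpha4_up {r : ℝ} (hr : 5 ≤ r) : SCTop.talpha4 1 r ≤ al TL 2 (⌊r⌋ - 2) := by
  obtain ⟨f1, f2, f3, f4⟩ := floors (r := r) (by linarith)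
  obtain ⟨g1, g2, g3, g4⟩ := floors (r := 1) (by norm_num)
  have k1 : 5 ≤ ⌊r⌋ := by
    rw [Int.le_floor]
    exact_mod_cast hr
  have e1 : ⌊2 * (1 : ℝ)⌋ = 2 := by
    rw [Int.floor_eq_iff]
    norm_num
  rw [talpha4_eq, al, if_pos (by omega)]
  refine pr_mono (rfour_loc 1 r) (Lat.TwoA.loc TL true _ _) fun ω h => ?_
  refine rfour_twoA (by omega) ?_ ?_ h
  · exact TB_sub_bx (by omega) (by omega)
  · exact bx_sub_TB (by omega) (by omega)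

theorem beta_tl : Beta TL 0 SCTop.talpha4 := by
  refine ⟨fun r R => ?_, fun r R => ?_, fun r R hr hrR => talpha4_low hr hrR,
    fun r hr => talpha4_up hr⟩
  · rw [talpha4_eq]
    exact pr_nonneg _
  · rw [talpha4_eq]
    exact pr_le_one _

end SC
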