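import Pool.Agent.Lib_MP_e0a489.FI2
import Pool.Agent.Lib_MP_e0a489.TP1
import Pool.Agent.Lib_MP_e0a489.TQ1

/-!
# MP_e0a489, module TQ 6: site percolation on the triangular lattice as a model
-/

set_option autoImplicit false

namespace SC

open Classical

/-- number of rows above the row `0` -/
noncomputable def tN (n : ℕ) : ℤ := ⌊2 * (n : ℝ) / Real.sqrt 3⌋

/-- the missing sites: the odd rows are shorter by one site -/
def tE (n : ℕ) : Set Pt := {v | v.1 = n ∧ v.2 % 2 = 1}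

private theorem tq6_floor (n : ℕ) : ⌊2 * (n : ℝ)⌋ = 2 * (n : ℤ) := by
  rw [Int.floor_eq_iff]
  constructor
  · push_cast
    exact le_refl _
  · push_cast
    linarith

/-- `n ≤ tN n ≤ 2 n` (`√3 ≤ 2`, `1 ≤ √3`) -/
theorem tN_bd (n : ℕ) : (n : ℤ) ≤ tN n ∧ tN n ≤ 2 * n := by
  have hs0 : (0 : ℝ) < Real.sqrt 3 := Real.sqrt_pos.mpr (by norm_num)
  have hs1 : (1 : ℝ) ≤ Real.sqrt 3 := by
    rw [show (1 : ℝ) = Real.sqrt 1 from Real.sqrt_one.symm]
    exact Real.sqrt_le_sqrt (by norm_num)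
  have hs2 : Real.sqrt 3 ≤ 2 := by
    rw [Real.sqrt_le_left (by norm_num)]
    norm_num
  have hn : (0 : ℝ) ≤ n := Nat.cast_nonneg n
  constructor
  · unfold tN
    rw [Int.le_floor, le_div_iff₀ hs0]
    push_cast
    nlinarith
  · rw [← tq6_floor]
    unfold tN
    apply Int.floor_le_floor
    rw [div_le_iff₀ hs0]
    nlinarith

/-- `TL_adj_iff`: a site `(n, j)`, `j` odd, is adjacent in the column `n - 1` only to `(n - 1, j)` -/
theorem good_tE (n : ℕ) : GoodE TL n (tE n) := by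
  intro e he
  obtain ⟨h1, h2⟩ := he
  refine ⟨h1, fun p hp hp1 => ?_⟩
  rw [TL_adj_iff] at hp
  omega

private theorem tq6_dom (n : ℕ) (w : Pt) : w ∈ dom n (tN n) (tE n) ↔
    ((-(n : ℤ) ≤ w.1 ∧ w.1 ≤ n) ∧ -(tN n) ≤ w.2 ∧ w.2 ≤ tN n) ∧ ¬ (w.1 = n ∧ w.2 % 2 = 1) :=
  Iff.rfl

/-- `⌊2 * (n : ℝ)⌋ = 2 n`; even rows `|w.1| ≤ n`, odd rows `-n ≤ w.1 ≤ n - 1` -/
theorem dom_tE (n : ℕ) : dom n (tN n) (tE n) = TB ⌊2 * (n : ℝ)⌋ (tN n) := by
  rw [tq6_floor]
  ext w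
  rw [tq6_dom]
  have h1 : w ∈ TB (2 * (n : ℤ)) (tN n) ↔ |2 * w.1 + w.2 % 2| ≤ 2 * (n : ℤ) ∧ |w.2| ≤ tN n :=
    Iff.rfl
  rw [h1, abs_le, abs_le]
  omega

private theorem tq6_inBox (n : ℕ) (v : Pt) :
    SCTop.inBox (n : ℝ) v ↔ shE v ∈ dom n (tN n) (tE n) := by
  rw [inBox_iff, dom_tE]
  rfl

private theorem tq6_mem (n : ℕ) (ω : Cfg) (v : Pt) : v ∈ opn (SCTop.sites n) shE ω ↔
    shE v ∈ dom n (tN n) (tE n) ∩ TL.col true ω := by
  rw [mem_opn, mem_sites, tq6_inBox]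
  exact Iff.rfl

private theorem tq6_left (n : ℕ) {v : Pt} (hv : shE v ∈ dom n (tN n) (tE n)) :
    ¬ SCTop.inBox (n : ℝ) (v - (1, 0)) ↔ (shE v).1 = -(n : ℤ) := by
  rw [tq6_inBox]
  have e1 : shE (v - (1, 0)) = ((shE v).1 - 1, (shE v).2) := by
    ext
    · rw [shE_fst, shE_fst]
      simp
      ring
    · rw [shE_snd, shE_snd]
      simp
  rw [e1]
  rw [tq6_dom] at hv
  rw [tq6_dom]
  have h2 := hv.1.1.1
  have h3 := hv.1.1.2
  have h4 := hv.1.2
  constructor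
  · intro h
    by_contra hne
    apply h
    exact ⟨⟨⟨by dsimp only; omega, by dsimp only; omega⟩, h4⟩, fun h5 => by
      have := h5.1
      dsimp only at this
      omega⟩
  · intro h h5
    have := h5.1.1.1
    dsimp only at this
    omega

private theorem tq6_right (n : ℕ) {v : Pt} (hv : shE v ∈ dom n (tN n) (tE n)) :
    ¬ SCTop.inBox (n : ℝ) (v + (1, 0)) ↔ shE v ∈ rside n (tE n) := by
  rw [tq6_inBox]
  have e1 : shE (v + (1, 0)) = ((shE v).1 + 1, (shE v).2) := by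
    ext
    · rw [shE_fst, shE_fst]
      simp
      ring
    · rw [shE_snd, shE_snd]
      simp
  rw [e1]
  rw [tq6_dom] at hv
  rw [tq6_dom]
  have h2 := hv.1.1.1
  have h3 := hv.1.1.2
  have h4 := hv.1.2
  have h6 : shE v ∈ rside n (tE n) ↔
      (shE v).1 = (n : ℤ) ∨ ((shE v).1 + 1 = (n : ℤ) ∧ (shE v).2 % 2 = 1) := Iff.rfl
  rw [h6]
  constructor
  · intro h
    by_contra hne
    apply h
    push Not at hne
    refine ⟨⟨⟨by dsimp only; omega, by have := hne.1; dsimp only; omega⟩, h4⟩, fun h5 => ?_⟩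
    exact hne.2 h5.1 h5.2
  · intro h h5
    rcases h with h | h
    · have := h5.1.1.2
      dsimp only at this
      omega
    · exact h5.2 h

/-- CROSSING.  `v ∈ sites n ↔ shE v ∈ dom` (`mem_sites`, `inBox_iff`, `dom_tE`); `A = opn (sites n) shE ω`.  A path in `A` is mapped by `shE` to an open path of `TL` in `dom` (`TAdj_iff`, `Relation.ReflTransGen.lift`-like induction).
First site: for `w = shE u ∈ dom`, `¬ inBox n (u - (1,0))` means `(w.1 - 1, w.2) ∉ dom`, that is `w.1 = -n`; last site: `(w.1 + 1, w.2) ∉ dom` means `w.1 = n` or `(w.1 + 1, w.2) ∈ tE n`, that is `w ∈ rside n (tE n)`.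
(`shE (v + (1, 0)) = shE v + (1, 0)`.) -/
theorem tcrs_iff (n : ℕ) (hn : 1 ≤ n) (ω : Cfg) :
    TL.Crs n (tN n) (tE n) ω ↔ SCTop.tcrossing n (opn (SCTop.sites n) shE ω) := by
  constructor
  · rintro ⟨x, hx, y, hy, hxy⟩
    have hxA := hxy.1
    have hyA := Lat.Cn.right hxy
    refine ⟨shE.symm x, shE.symm y, ?_, ?_, ?_, ?_⟩
    · rw [tq6_mem, Equiv.apply_symm_apply]
      exact hxA
    · rw [tq6_left n (by rw [Equiv.apply_symm_apply]; exact hxA.1), Equiv.apply_symm_apply]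
      exact hx
    · rw [tq6_right n (by rw [Equiv.apply_symm_apply]; exact hyA.1), Equiv.apply_symm_apply]
      exact hy
    · refine Relation.ReflTransGen.lift shE.symm (fun a b hab => ⟨?_, ?_⟩) _ _ hxy.2
      · rw [TAdj_iff, Equiv.apply_symm_apply, Equiv.apply_symm_apply]
        exact hab.1
      · rw [tq6_mem, Equiv.apply_symm_apply]
        exact hab.2
  · rintro ⟨u, v, hu, hul, hvr, huv⟩
    have hlift : TL.Cn (dom n (tN n) (tE n) ∩ TL.col true ω) (shE u) (shE v) := by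
      refine ⟨(tq6_mem n ω u).mp hu, ?_⟩
      refine Relation.ReflTransGen.lift shE (fun a b hab => ⟨?_, ?_⟩) _ _ huv
      · exact (TAdj_iff a b).mp hab.1
      · exact (tq6_mem n ω b).mp hab.2
    refine ⟨shE u, ?_, shE v, ?_, hlift⟩
    · exact (tq6_left n hlift.1.1).mp hul
    · exact (tq6_right n (Lat.Cn.right hlift).1).mp hvr

/-- A horizontal crossing of the rectangle contains a crossing of the domain: let `q` be the first site of the path in the column `n` (`Cn.exit` with `S = {v | v.1 ≤ n - 1}`), `p` the site before.  If `q ∉ tE n` it is in `rside`, otherwise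
`p = (n - 1, q.2)` (`good_tE`) is in `rside`. -/
theorem hx_crs {n : ℕ} (hn : 1 ≤ n) {ω : Cfg} (h : TL.HX true (-n) n (-(tN n)) (tN n) ω) :
    TL.Crs n (tN n) (tE n) ω := by
  obtain ⟨u, v, hu, hv, huv⟩ := h
  obtain ⟨p, q, hp, hpq, hqA, hqS⟩ := Lat.Cn.exit huv
    (S := {v : Pt | v.1 ≤ (n : ℤ) - 1})
    (by
      have : u.1 ≤ (n : ℤ) - 1 := by omega
      exact this)
    (by
      intro h1
      have h2 : v.1 ≤ (n : ℤ) - 1 := h1
      omega)
  have hsub : (rect (-(n : ℤ)) n (-(tN n)) (tN n) ∩ TL.col true ω) ∩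
      {v : Pt | v.1 ≤ (n : ℤ) - 1} ⊆ dom n (tN n) (tE n) ∩ TL.col true ω := by
    rintro w ⟨⟨hw1, hw2⟩, hw3⟩
    have hw3' : w.1 ≤ (n : ℤ) - 1 := hw3
    refine ⟨⟨hw1, fun hE => ?_⟩, hw2⟩
    have := hE.1
    omega
  have hcn := Lat.Cn.mono hp hsub
  have hq1 : ¬ q.1 ≤ (n : ℤ) - 1 := hqS
  have hq2 : q.1 ≤ (n : ℤ) := hqA.1.1.2
  have hqn : q.1 = (n : ℤ) := by omega
  by_cases hqE : q ∈ tE n
  · refine ⟨u, hu, p, ?_, hcn⟩
    have hp1 : p.1 ≤ (n : ℤ) - 1 := (Lat.Cn.right hp).2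
    have hp2 : p.1 = (n : ℤ) - 1 := by
      have h3 := hpq
      rw [TL_adj_iff] at h3
      omega
    have hp3 := (good_tE n q hqE).2 p hpq hp2
    right
    have e1 : ((p.1 + 1, p.2) : Pt) = q := by
      ext
      · show p.1 + 1 = q.1
        omega
      · exact hp3
    rw [e1]
    exact hqE
  · refine ⟨u, hu, q, Or.inl hqn, ?_⟩
    have hqD : q ∈ dom n (tN n) (tE n) ∩ TL.col true ω := ⟨⟨hqA.1, hqE⟩, hqA.2⟩
    exact Lat.Cn.trans hcn (Lat.Cn.of_adj (Lat.Cn.right hcn) hqD hpq)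

private theorem tq6_fin (n : ℕ) : ∃ F : Finset Pt, dom n (tN n) (tE n) ⊆ (F : Set Pt) := by
  refine ⟨Finset.Icc (-(n : ℤ)) n ×ˢ Finset.Icc (-(tN n)) (tN n), fun w hw => ?_⟩
  rw [tq6_dom] at hw
  rw [Finset.mem_coe, Finset.mem_product, Finset.mem_Icc, Finset.mem_Icc]
  exact hw.1

private theorem tq6_dep (n : ℕ) : ∃ F : Finset Pt, Dep (TL.Crs n (tN n) (tE n)) (F : Set Pt) := by
  obtain ⟨F, hF⟩ := tq6_fin n
  exact ⟨F, fun ω ω' h => Lat.Crs.dep TL n (tN n) (tE n) ω ω' fun v hv => h v (hF hv)⟩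

/-- lower bound of the crossing probability.  `n ≥ 2`: `hx_crs`, `RSW.hx'` with `k = 1` (`2 n ≤ 2 tN n`, `4 ≤ 2 tN n`).  `n = 1`: the configuration `fun _ => true` has a crossing, `pr_pos`. -/
theorem tcrs_pr {κ : ℕ → ℝ} (h : RSW TL κ) : ∃ p : ℝ, 0 < p ∧ ∀ n : ℕ, 1 ≤ n →
    p ≤ pr (TL.Crs n (tN n) (tE n)) := by
  obtain ⟨F, hF⟩ := tq6_dep 1
  refine ⟨min (κ 1) ((1 / 2 : ℝ) ^ F.card), lt_min (h.pos 1) (by positivity), fun n hn => ?_⟩
  rcases Nat.lt_or_ge n 2 with h2 | h2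
  · have hn1 : n = 1 := by omega
    subst hn1
    refine (min_le_right _ _).trans (pr_pos hF (ω := fun _ => true) ?_)
    apply hx_crs hn
    have hb := (tN_bd 1).1
    have hmem : ∀ a : ℤ, -1 ≤ a → a ≤ 1 → ((a, 0) : Pt) ∈
        rect (-((1 : ℕ) : ℤ)) ((1 : ℕ) : ℤ) (-(tN 1)) (tN 1) ∩ TL.col true (fun _ => true) := by
      intro a h1 h3
      refine ⟨⟨⟨?_, ?_⟩, ?_, ?_⟩, rfl⟩
      · push_cast
        exact h1
      · push_cast
        exact h3
      · show -(tN 1) ≤ 0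
        push_cast at hb
        omega
      · show (0 : ℤ) ≤ tN 1
        push_cast at hb
        omega
    refine ⟨(-1, 0), (1, 0), by norm_num, by norm_num, ?_⟩
    refine Lat.Cn.trans (Lat.Cn.of_adj (hmem (-1) (by norm_num) (by norm_num))
      (hmem 0 (by norm_num) (by norm_num)) ?_) (Lat.Cn.of_adj
      (hmem 0 (by norm_num) (by norm_num)) (hmem 1 (by norm_num) (by norm_num)) ?_)
    · rw [TL_adj_iff]
      left
      exact ⟨rfl, Or.inl (by norm_num)⟩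
    · rw [TL_adj_iff]
      left
      exact ⟨rfl, Or.inl (by norm_num)⟩
  · refine (min_le_left _ _).trans ?_
    have hb := (tN_bd n).1
    have h2' : (2 : ℤ) ≤ n := by exact_mod_cast h2
    have h3 := h.hx' (k := 1) le_rfl true (a := -(n : ℤ)) (b := n) (p := -(tN n)) (q := tN n)
      (by omega) (by omega) (by push_cast; omega)
    refine h3.trans (pr_mono (Lat.HX.loc TL true _ _ _ _) ?_ fun ω hω => hx_crs hn hω)
    exact tq6_dep n

end SC
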