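import Pool.Agent.Lib_MP_e0a489.TP12
import Pool.Agent.Lib_MP_e0a489.TQ6

/-!
# MP_e0a489, module TQ 7: diameter, triangular lattice
-/

set_option autoImplicit false

namespace SC

variable [IfL] [IfX] [IfT]

open Classical

private theorem tq7_dist (x y : EuclideanSpace ℝ (Fin 2)) :
    dist x y ≤ |x 0 - y 0| + |x 1 - y 1| := by
  rw [EuclideanSpace.dist_eq, Fin.sum_univ_two]
  have h0 : dist (x.ofLp 0) (y.ofLp 0) = |x 0 - y 0| := Real.dist_eq _ _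
  have h1 : dist (x.ofLp 1) (y.ofLp 1) = |x 1 - y 1| := Real.dist_eq _ _
  rw [h0, h1]
  have a0 := abs_nonneg (x 0 - y 0)
  have a1 := abs_nonneg (x 1 - y 1)
  refine Real.sqrt_le_iff.2 ⟨by positivity, ?_⟩
  nlinarith [mul_nonneg a0 a1]

private theorem tq7_pos0 (v : Pt) : SCTop.pos v 0 = (v.1 : ℝ) + (v.2 : ℝ) / 2 := by
  simp [SCTop.pos]

private theorem tq7_pos1 (v : Pt) : SCTop.pos v 1 = Real.sqrt 3 / 2 * (v.2 : ℝ) := by
  simp [SCTop.pos]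

private theorem tq7_nrm (w : Pt) : |(w.1 : ℝ)| ≤ nrm w ∧ |(w.2 : ℝ)| ≤ nrm w := by
  constructor
  · have h : |w.1| ≤ nrm w := le_max_left _ _
    exact_mod_cast h
  · have h : |w.2| ≤ nrm w := le_max_right _ _
    exact_mod_cast h

/-- `2 (pos v 0) = 2 (shE v).1 + (shE v).2 % 2`, `pos v 1 = (√3/2) v.2`; the distance is at most the sum of the absolute values of the coordinates (`EuclideanSpace.dist_eq`, `Fin.sum_univ_two`, `Real.sqrt_le_left`-like);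
with `m = nrm (shE u - shE v)`: first coordinate `≤ m + 1/2`, second `≤ m` (`√3/2 ≤ 1`). -/
theorem pos_dist (u v : Pt) :
    dist (SCTop.pos u) (SCTop.pos v) ≤ 2 * nrm (shE u - shE v) + 1 / 2 := by
  refine (tq7_dist _ _).trans ?_
  rw [tq7_pos0, tq7_pos0, tq7_pos1, tq7_pos1]
  obtain ⟨h1, h2⟩ := tq7_nrm (shE u - shE v)
  have e1 : (shE u - shE v).1 = u.1 + u.2 / 2 - (v.1 + v.2 / 2) := rfl
  have e2 : (shE u - shE v).2 = u.2 - v.2 := rfl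
  rw [e1] at h1
  rw [e2] at h2
  have hu : (2 * (u.2 / 2) + u.2 % 2 : ℤ) = u.2 := by omega
  have hv : (2 * (v.2 / 2) + v.2 % 2 : ℤ) = v.2 := by omega
  have hu' : (2 : ℝ) * ((u.2 / 2 : ℤ) : ℝ) + ((u.2 % 2 : ℤ) : ℝ) = (u.2 : ℝ) := by
    exact_mod_cast hu
  have hv' : (2 : ℝ) * ((v.2 / 2 : ℤ) : ℝ) + ((v.2 % 2 : ℤ) : ℝ) = (v.2 : ℝ) := by
    exact_mod_cast hv
  have hu0 : (0 : ℝ) ≤ ((u.2 % 2 : ℤ) : ℝ) := by
    exact_mod_cast (by omega : (0 : ℤ) ≤ u.2 % 2)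
  have hu1 : ((u.2 % 2 : ℤ) : ℝ) ≤ 1 := by
    exact_mod_cast (by omega : (u.2 % 2 : ℤ) ≤ 1)
  have hv0 : (0 : ℝ) ≤ ((v.2 % 2 : ℤ) : ℝ) := by
    exact_mod_cast (by omega : (0 : ℤ) ≤ v.2 % 2)
  have hv1 : ((v.2 % 2 : ℤ) : ℝ) ≤ 1 := by
    exact_mod_cast (by omega : (v.2 % 2 : ℤ) ≤ 1)
  have a1 : |(u.1 : ℝ) + (u.2 : ℝ) / 2 - ((v.1 : ℝ) + (v.2 : ℝ) / 2)| ≤
      (nrm (shE u - shE v) : ℝ) + 1 / 2 := by
    push_cast at h1
    rw [abs_le] at h1 ⊢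
    constructor <;> linarith [h1.1, h1.2]
  have a2 : |Real.sqrt 3 / 2 * (u.2 : ℝ) - Real.sqrt 3 / 2 * (v.2 : ℝ)| ≤
      (nrm (shE u - shE v) : ℝ) := by
    have e3 : Real.sqrt 3 / 2 * (u.2 : ℝ) - Real.sqrt 3 / 2 * (v.2 : ℝ) =
        Real.sqrt 3 / 2 * ((u.2 - v.2 : ℤ) : ℝ) := by
      push_cast
      ring
    have h3 : Real.sqrt 3 / 2 ≤ 1 := by
      have h4 : Real.sqrt 3 ≤ 2 := by
        rw [Real.sqrt_le_left (by norm_num)]
        norm_num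
      linarith
    have h5 : (0 : ℝ) ≤ Real.sqrt 3 / 2 := by positivity
    rw [e3, abs_mul, abs_of_nonneg h5]
    calc Real.sqrt 3 / 2 * |((u.2 - v.2 : ℤ) : ℝ)| ≤ 1 * |((u.2 - v.2 : ℤ) : ℝ)| :=
          mul_le_mul_of_nonneg_right h3 (abs_nonneg _)
      _ = |((u.2 - v.2 : ℤ) : ℝ)| := one_mul _
      _ ≤ _ := h2
  linarith

/-- coordinates of the difference `≤ 2 n` (`inBox`) -/
theorem tl_dm_le {n : ℕ} {S : Finset Pt} (hS : S ⊆ SCTop.sites n) : SCTop.tdiam S ≤ 4 * n := by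
  have hin : ∀ v ∈ S, |SCTop.pos v 0| ≤ (n : ℝ) ∧ |SCTop.pos v 1| ≤ (n : ℝ) := fun v hv =>
    (Finset.mem_filter.1 (hS hv)).2
  refine Metric.diam_le_of_forall_dist_le (by positivity) ?_
  rintro _ ⟨u, hu, rfl⟩ _ ⟨v, hv, rfl⟩
  obtain ⟨u1, u2⟩ := hin u hu
  obtain ⟨v1, v2⟩ := hin v hv
  refine (tq7_dist _ _).trans ?_
  have h1 := abs_sub (SCTop.pos u 0) (SCTop.pos v 0)
  have h2 := abs_sub (SCTop.pos u 1) (SCTop.pos v 1)
  linarith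

/-- Otherwise `nrm (shE u - shE v) ≤ ⌊d/2⌋ - 1 ≤ d/2 - 1` for all `u, v ∈ S`, so all distances are at most `2 (d/2 - 1) + 1/2 = d - 3/2` (and `S` nonempty gives `0 ≤ nrm`), and `tdiam S ≤ max (d - 3/2) 0 < d`. -/
theorem tl_dm_far {S : Finset Pt} {d : ℝ} (hd : 1 ≤ d) (h : d ≤ SCTop.tdiam S) :
    ∃ u ∈ S, ∃ v ∈ S, ⌊d / 2⌋ ≤ nrm (shE u - shE v) := by
  by_contra hcon
  push Not at hcon
  have key : ∀ u ∈ S, ∀ v ∈ S, (nrm (shE u - shE v) : ℝ) ≤ d / 2 - 1 := by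
    intro u hu v hv
    have h1 : nrm (shE u - shE v) ≤ ⌊d / 2⌋ - 1 := by
      have := hcon u hu v hv
      omega
    have h2 : (nrm (shE u - shE v) : ℝ) ≤ ((⌊d / 2⌋ - 1 : ℤ) : ℝ) := by exact_mod_cast h1
    have h3 : ((⌊d / 2⌋ : ℤ) : ℝ) ≤ d / 2 := Int.floor_le _
    push_cast at h2
    linarith
  rcases S.eq_empty_or_nonempty with rfl | ⟨w, hw⟩
  · have h1 : SCTop.tdiam (∅ : Finset Pt) = 0 := by
      simp [SCTop.tdiam]
    rw [h1] at h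
    linarith
  · have h0 : (0 : ℝ) ≤ (nrm (shE w - shE w) : ℝ) := by
      have h1 : (0 : ℤ) ≤ nrm (shE w - shE w) := le_trans (abs_nonneg _) (le_max_left _ _)
      exact_mod_cast h1
    have h1 := key w hw w hw
    have h2 : SCTop.tdiam S ≤ d - 3 / 2 := by
      refine Metric.diam_le_of_forall_dist_le (by linarith) ?_
      rintro _ ⟨u, hu, rfl⟩ _ ⟨v, hv, rfl⟩
      have h3 := pos_dist u v
      have h4 := key u hu v hv
      linarith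
    linarith

theorem model_tl {κ : ℕ → ℝ} (h : RSW TL κ) : ∃ p : ℝ,
    Model TL (fun n => SCTop.sites n) SCTop.tcrossing SCTop.tdiam shE (fun n => n) tN tE p := by
  obtain ⟨p, hp, hpr⟩ := tcrs_pr h
  refine ⟨p, hp, fun n hn => ⟨le_rfl, by omega⟩, fun n hn => ?_, fun n hn => good_tE n,
    fun n hn v hv => ?_, fun n hn ω => tcrs_iff n hn ω, hpr, fun n S hn hS => tl_dm_le hS,
    fun S d hd h => tl_dm_far hd h⟩
  · have h1 := tN_bd n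
    constructor <;> omega
  · have h1 := inBox_iff.1 (mem_sites.1 hv)
    rw [dom_tE]
    exact h1

end SC
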