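import Pool.Agent.Lib_MP_e0a489.TL0
import Pool.Agent.Lib_MP_e0a489.TTD

/-!
# MP_e0a489: the core configuration of a lattice all of whose sites are fair (triangular lattice)
-/

set_option autoImplicit false

namespace SC

open Classical

private theorem zf_bx {v : Pt} {m : ℤ} : v ∈ bx m ↔ |v.1| ≤ m ∧ |v.2| ≤ m := by
  show max |v.1| |v.2| ≤ m ↔ _
  exact max_le_iff

private theorem zf_o {L : Lat} {m : ℤ} (hm : 8 ≤ m) {B : Set Pt}
    (hB : ∀ v ∈ bx m, v ≠ 0 → |v.2| < |v.1| → v ∈ B) {σ Y : ℤ}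
    (hσ : σ = 1 ∨ σ = -1) (hY : 2 * |Y| ≤ m) (hp : (σ * (m + 1), Y) ∈ B) :
    L.Cn ((bx (m + 1) \ {0}) ∩ B) (σ * (m + 1), Y) (σ, 0) := by
  have hy0 := abs_nonneg Y
  have ab : ∀ x : ℤ, 0 ≤ x → |σ * x| = x := by
    intro x hx
    rcases hσ with rfl | rfl
    · rw [one_mul]
      exact abs_of_nonneg hx
    · rw [show (-1 : ℤ) * x = -x by ring, abs_neg]
      exact abs_of_nonneg hx
  have mem : ∀ x y : ℤ, 1 ≤ x → x ≤ m → |y| < x →
      ((σ * x, y) : Pt) ∈ (bx (m + 1) \ {0}) ∩ B := by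
    intro x y h1 h2 h3
    have hx := ab x (by omega)
    have hne : ((σ * x, y) : Pt) ≠ 0 := by
      intro h
      have h4 : σ * x = 0 := congrArg Prod.fst h
      rw [h4, abs_zero] at hx
      omega
    refine ⟨⟨zf_bx.2 ⟨?_, ?_⟩, hne⟩, hB _ (zf_bx.2 ⟨?_, ?_⟩) hne ?_⟩
    · show |σ * x| ≤ m + 1
      omega
    · show |y| ≤ m + 1
      omega
    · show |σ * x| ≤ m
      omega
    · show |y| ≤ m
      omega
    · show |y| < |σ * x|
      omega
  have s0 : L.Cn ((bx (m + 1) \ {0}) ∩ B) (σ * (m + 1), Y) (σ * m, Y) := by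
    refine Lat.Cn.of_adj ⟨⟨zf_bx.2 ⟨?_, ?_⟩, ?_⟩, hp⟩ (mem m Y (by omega) le_rfl (by omega))
      (Lat.adj_of_nn ?_)
    · show |σ * (m + 1)| ≤ m + 1
      exact (ab (m + 1) (by omega)).le
    · show |Y| ≤ m + 1
      omega
    · intro h
      have h4 : σ * (m + 1) = 0 := congrArg Prod.fst h
      have h5 := ab (m + 1) (by omega)
      rw [h4, abs_zero] at h5
      omega
    · show |σ * (m + 1) - σ * m| + |Y - Y| = 1
      rw [show σ * (m + 1) - σ * m = σ * 1 by ring, ab 1 (by norm_num), sub_self]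
      rfl
  have s1 : L.Cn ((bx (m + 1) \ {0}) ∩ B) (σ * m, Y) (σ * m, 0) := by
    have := (Lat.con_rect (L := L) (σ * m) (σ * m) (-|Y|) |Y|) (σ * m, Y)
      ⟨⟨le_refl _, le_refl _⟩, neg_abs_le Y, le_abs_self Y⟩ (σ * m, 0)
      ⟨⟨le_refl _, le_refl _⟩, by
        show -|Y| ≤ 0
        omega, hy0⟩
    refine this.mono ?_
    rintro ⟨v1, v2⟩ ⟨⟨a1, a2⟩, a3, a4⟩
    have a1' : σ * m ≤ v1 := a1
    have a2' : v1 ≤ σ * m := a2
    have a3' : -|Y| ≤ v2 := a3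
    have a4' : v2 ≤ |Y| := a4
    obtain rfl : v1 = σ * m := le_antisymm a2' a1'
    exact mem m v2 (by omega) le_rfl (lt_of_le_of_lt (abs_le.2 ⟨a3', a4'⟩) (by omega))
  have s2 : L.Cn ((bx (m + 1) \ {0}) ∩ B) (σ * m, 0) (σ, 0) := by
    have := (Lat.con_rect (L := L) (min (σ * m) σ) (max (σ * m) σ) 0 0) (σ * m, 0)
      ⟨⟨min_le_left _ _, le_max_left _ _⟩, le_refl _, le_refl _⟩ (σ, 0)
      ⟨⟨min_le_right _ _, le_max_right _ _⟩, le_refl _, le_refl _⟩
    refine this.mono ?_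
    rintro ⟨v1, v2⟩ ⟨⟨a1, a2⟩, a3, a4⟩
    have a1' : min (σ * m) σ ≤ v1 := a1
    have a2' : v1 ≤ max (σ * m) σ := a2
    have a3' : 0 ≤ v2 := a3
    have a4' : v2 ≤ 0 := a4
    obtain rfl : v2 = 0 := le_antisymm a4' a3'
    have h5 : 1 ≤ σ * v1 ∧ σ * v1 ≤ m ∧ v1 = σ * (σ * v1) := by
      rcases hσ with rfl | rfl
      · refine ⟨?_, ?_, ?_⟩ <;> omega
      · refine ⟨?_, ?_, ?_⟩ <;> omega
    rw [h5.2.2]
    exact mem (σ * v1) 0 h5.1 h5.2.1 (by rw [abs_zero]; omega)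
  exact (s0.trans s1).trans s2

private theorem zf_c {L : Lat} {m : ℤ} (hm : 8 ≤ m) {B : Set Pt}
    (hB : ∀ v ∈ bx m, v ≠ 0 → |v.1| < |v.2| → v ∈ B) {σ Y : ℤ}
    (hσ : σ = 1 ∨ σ = -1) (hY : 2 * |Y| ≤ m) (hp : (Y, σ * (m + 1)) ∈ B) :
    L.Cn ((bx (m + 1) \ {0}) ∩ B) (Y, σ * (m + 1)) (0, σ) := by
  have h := zf_o (L := L.tr) hm (B := {v | (v.2, v.1) ∈ B}) (fun v hv h0 h1 => hB _ ?_ ?_ h1)
    hσ hY hp
  · rw [Lat.tr_cn] at h
    refine h.mono ?_
    rintro ⟨v1, v2⟩ ⟨⟨h1, h2⟩, h3⟩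
    refine ⟨⟨?_, ?_⟩, h3⟩
    · have := zf_bx.1 h1
      exact zf_bx.2 ⟨this.2, this.1⟩
    · intro h4
      apply h2
      have h5 : ((v1, v2) : Pt) = 0 := h4
      have e1 : v1 = 0 := congrArg Prod.fst h5
      have e2 : v2 = 0 := congrArg Prod.snd h5
      rw [e1, e2]
      rfl
  · have := zf_bx.1 hv
    exact zf_bx.2 ⟨this.2, this.1⟩
  · intro h4
    apply h0
    have e1 : v.2 = 0 := congrArg Prod.fst h4
    have e2 : v.1 = 0 := congrArg Prod.snd h4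
    exact Prod.ext e2 e1

/-- the core configuration of a lattice without sites of deterministic colour -/
theorem core_fair {L : Lat} (hL : ∀ v, L.typ v = none) {m : ℤ} (hm : 8 ≤ m) : CoreOK L m := by
  refine ⟨hL 0, fun v => decide (|v.2| < |v.1|), ?_⟩
  intro ω hω c s y hs hy hp
  have hcol : ∀ (v : Pt) (b : Bool), ω v = b → v ∈ L.col b ω := by
    intro v b h
    show (L.typ v).getD (ω v) = b
    rw [hL]
    exact h
  cases c with
  | true =>
    have h1 : ∀ v ∈ bx m, v ≠ 0 → |v.2| < |v.1| → v ∈ L.col true ω := by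
      intro v hv h0 h
      apply hcol
      rw [hω v hv h0]
      exact decide_eq_true h
    have hd : dc true = 0 := rfl
    rw [hd] at hs
    rcases hs with rfl | rfl
    · rw [rt_zero] at hp ⊢
      refine ⟨(1, 0), Lat.adj_of_nn rfl, ?_⟩
      have := zf_o (L := L) hm h1 (σ := 1) (Y := y) (Or.inl rfl) hy (by rw [one_mul]; exact hp)
      rw [one_mul] at this
      exact this
    · rw [show (0 : ℤ) + 2 = 2 by rfl, rt_two] at hp ⊢
      refine ⟨(-1, 0), Lat.adj_of_nn rfl, ?_⟩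
      have e : (-1 : ℤ) * (m + 1) = -(m + 1) := by ring
      have := zf_o (L := L) hm h1 (σ := -1) (Y := -y) (Or.inr rfl) (by rw [abs_neg]; exact hy)
        (by rw [e]; exact hp)
      rw [e] at this
      exact this
  | false =>
    have h1 : ∀ v ∈ bx m, v ≠ 0 → |v.1| < |v.2| → v ∈ L.col false ω := by
      intro v hv h0 h
      apply hcol
      rw [hω v hv h0]
      exact decide_eq_false (by omega)
    have hd : dc false = 1 := rfl
    rw [hd] at hs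
    rcases hs with rfl | rfl
    · rw [rt_one] at hp ⊢
      refine ⟨(0, 1), Lat.adj_of_nn rfl, ?_⟩
      have := zf_c (L := L) hm h1 (σ := 1) (Y := -y) (Or.inl rfl) (by rw [abs_neg]; exact hy)
        (by rw [one_mul]; exact hp)
      rw [one_mul] at this
      exact this
    · rw [show (1 : ℤ) + 2 = 3 by rfl, rt_three] at hp ⊢
      refine ⟨(0, -1), Lat.adj_of_nn rfl, ?_⟩
      have e : (-1 : ℤ) * (m + 1) = -(m + 1) := by ring
      have := zf_c (L := L) hm h1 (σ := -1) (Y := y) (Or.inr rfl) hy (by rw [e]; exact hp)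
      rw [e] at this
      exact this

theorem tl_core (x₀ : Pt) {m : ℤ} (hm : 8 ≤ m) : CoreOK (TL.shift x₀) m :=
  core_fair (fun _ => rfl) hm

end SC
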