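import Pool.Agent.Lib_MP_e0a489.IfI
import Pool.Agent.Lib_MP_e0a489.TQ5
import Pool.Agent.Lib_MP_e0a489.TQ7
import Pool.Agent.Lib_MP_e0a489.ZC2
import Pool.Agent.Lib_MP_e0a489.ZT5

/-!
# MP_e0a489: Q1 for site percolation on the triangular lattice
-/

set_option autoImplicit false

namespace SC

open Classical

theorem spec_tl (R : ℤ) : ∃ R₀ : ℤ, R ≤ R₀ ∧ SpecBox TL R₀ := by
  obtain ⟨κ, hκ⟩ := tl_fam
  obtain ⟨R₀, -, h1, h2⟩ := spectral_box hκ (x₀ := 0) (fun m hm => tl_core 0 hm) R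
  exact ⟨R₀, h1, h2⟩

theorem q1t : SCTop.Q1T := by
  obtain ⟨κ, hκ⟩ := tl_fam
  obtain ⟨p, hp⟩ := model_tl hκ.rsw
  exact tp_main hκ (x₀ := 0) (i := 0) (by decide) (by norm_num) (fun m hm => tl_core 0 hm) spec_tl
    beta_tl hp

end SC
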