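import Pool.Agent.Lib_MP_e0a489.PA2a
import Pool.Agent.Lib_MP_e0a489.TA1

/-!
# MP_e0a489, module ZR, 1: symmetries of the lattice `Z2`
-/

set_option autoImplicit false

namespace SC

open Classical

private theorem zr1_ext {L L' : Lat} (h1 : ∀ i j, L.ne i j = L'.ne i j)
    (h2 : ∀ v, L.typ v = L'.typ v) : L = L' := by
  cases L with
  | mk ne typ =>
    cases L' with
    | mk ne' typ' =>
      have e1 : ne = ne' := funext fun i => funext fun j => h1 i j
      have e2 : typ = typ' := funext fun v => h2 v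
      rw [e1, e2]

theorem z2_rx : Z2.rx = Z2 := by
  refine zr1_ext (fun i j => ?_) (fun v => ?_)
  · show (! decide ((-i - 1 + j) % 2 = 0)) = decide ((i + j) % 2 = 0)
    by_cases h : (i + j) % 2 = 0
    · rw [decide_eq_true h, decide_eq_false (by omega)]
      rfl
    · rw [decide_eq_false h, decide_eq_true (by omega)]
      rfl
  · show (if (-v.1) % 2 = 0 ∧ v.2 % 2 = 0 then some true
      else if (-v.1) % 2 = 1 ∧ v.2 % 2 = 1 then some false else none) =
      (if v.1 % 2 = 0 ∧ v.2 % 2 = 0 then some true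
      else if v.1 % 2 = 1 ∧ v.2 % 2 = 1 then some false else none)
    have e1 : (-v.1) % 2 = 0 ↔ v.1 % 2 = 0 := by omega
    have e2 : (-v.1) % 2 = 1 ↔ v.1 % 2 = 1 := by omega
    simp only [e1, e2]

theorem z2_ry : Z2.ry = Z2 := by
  refine zr1_ext (fun i j => ?_) (fun v => ?_)
  · show (! decide ((i + (-j - 1)) % 2 = 0)) = decide ((i + j) % 2 = 0)
    by_cases h : (i + j) % 2 = 0
    · rw [decide_eq_true h, decide_eq_false (by omega)]
      rfl
    · rw [decide_eq_false h, decide_eq_true (by omega)]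
      rfl
  · show (if v.1 % 2 = 0 ∧ (-v.2) % 2 = 0 then some true
      else if v.1 % 2 = 1 ∧ (-v.2) % 2 = 1 then some false else none) =
      (if v.1 % 2 = 0 ∧ v.2 % 2 = 0 then some true
      else if v.1 % 2 = 1 ∧ v.2 % 2 = 1 then some false else none)
    have e1 : (-v.2) % 2 = 0 ↔ v.2 % 2 = 0 := by omega
    have e2 : (-v.2) % 2 = 1 ↔ v.2 % 2 = 1 := by omega
    simp only [e1, e2]

theorem z2_tr : Z2.tr = Z2 := by
  refine zr1_ext (fun i j => ?_) (fun v => ?_)
  · show decide ((j + i) % 2 = 0) = decide ((i + j) % 2 = 0)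
    rw [add_comm]
  · show (if v.2 % 2 = 0 ∧ v.1 % 2 = 0 then some true
      else if v.2 % 2 = 1 ∧ v.1 % 2 = 1 then some false else none) =
      (if v.1 % 2 = 0 ∧ v.2 % 2 = 0 then some true
      else if v.1 % 2 = 1 ∧ v.2 % 2 = 1 then some false else none)
    have e1 : (v.2 % 2 = 0 ∧ v.1 % 2 = 0) ↔ (v.1 % 2 = 0 ∧ v.2 % 2 = 0) := and_comm
    have e2 : (v.2 % 2 = 1 ∧ v.1 % 2 = 1) ↔ (v.1 % 2 = 1 ∧ v.2 % 2 = 1) := and_comm
    simp only [e1, e2]

/-- the exchange of the colours is a translation -/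
theorem z2_sw : Z2.sw = Z2.shift (1, 1) := by
  refine zr1_ext (fun i j => ?_) (fun v => ?_)
  · show decide ((i + j) % 2 = 0) = decide (((i + 1) + (j + 1)) % 2 = 0)
    by_cases h : (i + j) % 2 = 0
    · rw [decide_eq_true h, decide_eq_true (by omega)]
    · rw [decide_eq_false h, decide_eq_false (by omega)]
  · show (if v.1 % 2 = 0 ∧ v.2 % 2 = 0 then some true
      else if v.1 % 2 = 1 ∧ v.2 % 2 = 1 then some false else none).map Bool.not =
      (if (v.1 + 1) % 2 = 0 ∧ (v.2 + 1) % 2 = 0 then some true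
      else if (v.1 + 1) % 2 = 1 ∧ (v.2 + 1) % 2 = 1 then some false else none)
    by_cases h1 : v.1 % 2 = 0 ∧ v.2 % 2 = 0
    · rw [if_pos h1, if_neg (by omega), if_pos (by omega)]
      rfl
    · by_cases h2 : v.1 % 2 = 1 ∧ v.2 % 2 = 1
      · rw [if_neg h1, if_pos h2, if_pos (by omega)]
        rfl
      · rw [if_neg h1, if_neg h2, if_neg (by omega), if_neg (by omega)]
        rfl

/-- translations by even vectors -/
theorem z2_shift (x : Pt) (h1 : x.1 % 2 = 0) (h2 : x.2 % 2 = 0) : Z2.shift x = Z2 := by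
  refine zr1_ext (fun i j => ?_) (fun v => ?_)
  · show decide (((i + x.1) + (j + x.2)) % 2 = 0) = decide ((i + j) % 2 = 0)
    by_cases h : (i + j) % 2 = 0
    · rw [decide_eq_true h, decide_eq_true (by omega)]
    · rw [decide_eq_false h, decide_eq_false (by omega)]
  · show (if (v.1 + x.1) % 2 = 0 ∧ (v.2 + x.2) % 2 = 0 then some true
      else if (v.1 + x.1) % 2 = 1 ∧ (v.2 + x.2) % 2 = 1 then some false else none) =
      (if v.1 % 2 = 0 ∧ v.2 % 2 = 0 then some true
      else if v.1 % 2 = 1 ∧ v.2 % 2 = 1 then some false else none)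
    have e1 : (v.1 + x.1) % 2 = 0 ↔ v.1 % 2 = 0 := by omega
    have e2 : (v.1 + x.1) % 2 = 1 ↔ v.1 % 2 = 1 := by omega
    have e3 : (v.2 + x.2) % 2 = 0 ↔ v.2 % 2 = 0 := by omega
    have e4 : (v.2 + x.2) % 2 = 1 ↔ v.2 % 2 = 1 := by omega
    simp only [e1, e2, e3, e4]

/-- the vertices of `ℤ²` are always open -/
theorem z2_open {ω : Cfg} {v : Pt} (h1 : v.1 % 2 = 0) (h2 : v.2 % 2 = 0) :
    v ∈ Z2.col true ω := by
  show (Z2.typ v).getD (ω v) = true
  have : Z2.typ v = some true := if_pos ⟨h1, h2⟩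
  rw [this]
  rfl

/-- the faces of `ℤ²` are always closed -/
theorem z2_closed {ω : Cfg} {v : Pt} (h1 : v.1 % 2 = 1) (h2 : v.2 % 2 = 1) :
    v ∈ Z2.col false ω := by
  show (Z2.typ v).getD (ω v) = false
  have : Z2.typ v = some false := by
    show (if v.1 % 2 = 0 ∧ v.2 % 2 = 0 then some true
      else if v.1 % 2 = 1 ∧ v.2 % 2 = 1 then some false else none) = some false
    rw [if_neg (by omega), if_pos ⟨h1, h2⟩]
  rw [this]
  rfl

/-- the edges of `ℤ²` are fair sites -/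
theorem z2_fair {v : Pt} (h : (v.1 + v.2) % 2 = 1) : Z2.typ v = none := by
  show (if v.1 % 2 = 0 ∧ v.2 % 2 = 0 then some true
      else if v.1 % 2 = 1 ∧ v.2 % 2 = 1 then some false else none) = none
  rw [if_neg (by omega), if_neg (by omega)]

/-- a site is not open and closed -/
theorem col_ne {L : Lat} {ω : Cfg} {v : Pt} (h : v ∈ L.col true ω) (h' : v ∈ L.col false ω) :
    False := by
  have e1 : L.st ω v = true := h
  have e2 : L.st ω v = false := h'
  rw [e1] at e2
  exact Bool.noConfusion e2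

/-- the sites of odd parity have only nearest neighbours -/
theorem z2_adj_odd {u v : Pt} (h : Z2.Adj u v) (hu : (u.1 + u.2) % 2 = 1) :
    (v.1 = u.1 ∧ (v.2 = u.2 + 1 ∨ v.2 = u.2 - 1)) ∨
      (v.2 = u.2 ∧ (v.1 = u.1 + 1 ∨ v.1 = u.1 - 1)) := by
  have key : ∀ i j : ℤ, Z2.ne i j = true ↔ (i + j) % 2 = 0 := fun i j => decide_eq_true_iff
  have key' : ∀ i j : ℤ, Z2.ne i j = false ↔ ¬ (i + j) % 2 = 0 := fun i j => decide_eq_false_iff_not
  rcases h with (⟨h1, h2⟩ | ⟨h1, h2⟩ | ⟨h1, h2, h3⟩ | ⟨h1, h2, h3⟩) |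
      (⟨h1, h2⟩ | ⟨h1, h2⟩ | ⟨h1, h2, h3⟩ | ⟨h1, h2, h3⟩)
  · right; omega
  · left; omega
  · rw [key] at h3; omega
  · rw [key'] at h3; omega
  · right; omega
  · left; omega
  · rw [key] at h3; omega
  · rw [key'] at h3; omega

end SC
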