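import Pool.Agent.Lib_MP_e0a489.TE3
import Pool.Agent.Lib_MP_e0a489.ZR1

/-!
# MP_e0a489, module ZR, 2: invariance of the crossing probabilities of `Z2`
-/

set_option autoImplicit false

namespace SC

open Classical

theorem z2_pr_tr_hx (c : Bool) (a b p q : ℤ) :
    pr (Z2.HX c a b p q) = pr (Z2.VX c p q a b) := by
  have h := pr_via (Lat.HX.loc Z2 c a b p q) (Equiv.prodComm ℤ ℤ)
  rw [← h]
  congr 1
  funext ω
  have := tr_hx Z2 c a b p q ω
  rw [z2_tr] at this
  exact propext this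

theorem z2_pr_tr_vx (c : Bool) (a b p q : ℤ) :
    pr (Z2.VX c a b p q) = pr (Z2.HX c p q a b) := (z2_pr_tr_hx c p q a b).symm

/-- translations by even vectors -/
theorem z2_pr_shift_hx (c : Bool) (a b p q x y : ℤ) (hx : x % 2 = 0) (hy : y % 2 = 0) :
    pr (Z2.HX c (a + x) (b + x) (p + y) (q + y)) = pr (Z2.HX c a b p q) := by
  have h := pr_via (Lat.HX.loc Z2 c a b p q) (Equiv.addRight ((x, y) : Pt))
  rw [← h]
  congr 1
  funext ω
  have := shift_hx Z2 (x, y) c a b p q ω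
  rw [z2_shift (x, y) hx hy] at this
  exact propext this.symm

theorem z2_pr_shift_vx (c : Bool) (a b p q x y : ℤ) (hx : x % 2 = 0) (hy : y % 2 = 0) :
    pr (Z2.VX c (a + x) (b + x) (p + y) (q + y)) = pr (Z2.VX c a b p q) := by
  have h := pr_via (Lat.VX.loc Z2 c a b p q) (Equiv.addRight ((x, y) : Pt))
  rw [← h]
  congr 1
  funext ω
  have := shift_vx Z2 (x, y) c a b p q ω
  rw [z2_shift (x, y) hx hy] at this
  exact propext this.symm

/-- exchange of the colours in crossings -/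
theorem sw_hx (L : Lat) (c : Bool) (a b p q : ℤ) (ω : Cfg) :
    L.sw.HX c a b p q (fun v => ! ω v) ↔ L.HX (!c) a b p q ω := by
  have e : L.sw.col c (fun v => ! ω v) = L.col (!c) ω := by
    rw [Lat.sw_col]
    congr 1
    funext v
    exact Bool.not_not _
  constructor
  · rintro ⟨u, v, h1, h2, h3⟩
    rw [e] at h3
    exact ⟨u, v, h1, h2, h3⟩
  · rintro ⟨u, v, h1, h2, h3⟩
    rw [← e] at h3
    exact ⟨u, v, h1, h2, h3⟩

theorem sw_vx (L : Lat) (c : Bool) (a b p q : ℤ) (ω : Cfg) :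
    L.sw.VX c a b p q (fun v => ! ω v) ↔ L.VX (!c) a b p q ω := by
  have e : L.sw.col c (fun v => ! ω v) = L.col (!c) ω := by
    rw [Lat.sw_col]
    congr 1
    funext v
    exact Bool.not_not _
  constructor
  · rintro ⟨u, v, h1, h2, h3⟩
    rw [e] at h3
    exact ⟨u, v, h1, h2, h3⟩
  · rintro ⟨u, v, h1, h2, h3⟩
    rw [← e] at h3
    exact ⟨u, v, h1, h2, h3⟩

/-- the exchange of the colours is the translation by `(1, 1)` -/
theorem z2_pr_sw_hx (c : Bool) (a b p q : ℤ) :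
    pr (Z2.HX (!c) a b p q) = pr (Z2.HX c (a + 1) (b + 1) (p + 1) (q + 1)) := by
  have h1 : pr (Z2.HX (!c) a b p q) = pr (Z2.sw.HX c a b p q) := by
    have h := pr_flip (Lat.HX.loc Z2.sw c a b p q)
    rw [← h]
    congr 1
    funext ω
    exact propext (sw_hx Z2 c a b p q ω).symm
  rw [h1, z2_sw]
  have h := pr_via (Lat.HX.loc (Z2.shift (1, 1)) c a b p q) (Equiv.addRight ((1, 1) : Pt))
  rw [← h]
  congr 1
  funext ω
  exact propext (shift_hx Z2 (1, 1) c a b p q ω)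

theorem z2_pr_sw_vx (c : Bool) (a b p q : ℤ) :
    pr (Z2.VX (!c) a b p q) = pr (Z2.VX c (a + 1) (b + 1) (p + 1) (q + 1)) := by
  rw [z2_pr_tr_vx, z2_pr_sw_hx, z2_pr_tr_hx]

end SC
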