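import Pool.Agent.Lib_MP_e0a489.TD1
import Pool.Agent.Lib_MP_e0a489.ZR2

/-!
# MP_e0a489, module ZR, 3: crossings of even squares have probability at least `1/2`
-/

set_option autoImplicit false

namespace SC

open Classical

/-- paths are mapped to paths by a map which sends adjacent sites to adjacent or equal sites -/
theorem cn_map {L : Lat} {A B : Set Pt} {u v : Pt} (f : Pt → Pt) (h : L.Cn A u v)
    (hf : ∀ x ∈ A, f x ∈ B)
    (hadj : ∀ x ∈ A, ∀ y ∈ A, L.Adj x y → f x = f y ∨ L.Adj (f x) (f y)) :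
    L.Cn B (f u) (f v) := by
  obtain ⟨h0, h1⟩ := h
  have : L.Cn B (f u) (f v) ∧ v ∈ A := by
    induction h1 with
    | refl => exact ⟨Lat.Cn.refl (hf u h0), h0⟩
    | tail _ hbc ih =>
      refine ⟨ih.1.trans ?_, hbc.2⟩
      rcases hadj _ ih.2 _ hbc.2 hbc.1 with e | e
      · rw [e]
        exact Lat.Cn.refl (hf _ hbc.2)
      · exact Lat.Cn.of_adj (hf _ ih.2) (hf _ hbc.2) e
  exact this.1

/-- trimming the dangling edges: an open crossing of the square `[1,n+1]²` gives one of `[0,n]²` -/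
theorem z2_trim {n : ℤ} (hn : n % 2 = 0) (h2 : 2 ≤ n) {ω : Cfg}
    (h : Z2.HX true 1 (n + 1) 1 (n + 1) ω) : Z2.HX true 0 n 0 n ω := by
  obtain ⟨u, v, hu, hv, h3⟩ := h
  have hodd : ∀ w ∈ rect 1 (n + 1) 1 (n + 1) ∩ Z2.col true ω, w.1 % 2 = 1 → w.2 % 2 = 0 := by
    intro w hw h1
    by_contra h4
    exact col_ne hw.2 (z2_closed h1 (by omega))
  have h5 : Z2.Cn (rect 1 (n + 1) 2 n ∩ Z2.col true ω) (u.1, max 2 (min n u.2))
      (v.1, max 2 (min n v.2)) := by
    refine cn_map (fun w => (w.1, max 2 (min n w.2))) h3 ?_ ?_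
    · intro w hw
      have h6 := hodd w hw
      obtain ⟨⟨h7, h8⟩, h9⟩ := hw
      refine ⟨⟨h7, by dsimp only; omega⟩, ?_⟩
      by_cases h10 : 2 ≤ w.2 ∧ w.2 ≤ n
      · have : ((w.1, max 2 (min n w.2)) : Pt) = w := by
          ext
          · rfl
          · dsimp only; omega
        show ((w.1, max 2 (min n w.2)) : Pt) ∈ _
        rw [this]
        exact h9
      · refine z2_open ?_ ?_
        · dsimp only; omega
        · dsimp only; omega
    · have key : ∀ x ∈ rect 1 (n + 1) 1 (n + 1) ∩ Z2.col true ω,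
          ∀ y ∈ rect 1 (n + 1) 1 (n + 1) ∩ Z2.col true ω, Z2.Adj x y →
          ¬ (2 ≤ x.2 ∧ x.2 ≤ n) →
          ((x.1, max 2 (min n x.2)) : Pt) = (y.1, max 2 (min n y.2)) := by
        intro x hx y hy hxy hx2
        have h6 := hodd x hx
        have h6' := hodd y hy
        obtain ⟨⟨h7, h8⟩, h9⟩ := hx
        obtain ⟨⟨h7', h8'⟩, h9'⟩ := hy
        have h10 := z2_adj_odd hxy (by omega)
        ext
        · dsimp only; omega
        · dsimp only; omega
      intro x hx y hy hxy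
      by_cases h6 : 2 ≤ x.2 ∧ x.2 ≤ n
      · by_cases h7 : 2 ≤ y.2 ∧ y.2 ≤ n
        · right
          have e1 : ((x.1, max 2 (min n x.2)) : Pt) = x := by
            ext
            · rfl
            · dsimp only; omega
          have e2 : ((y.1, max 2 (min n y.2)) : Pt) = y := by
            ext
            · rfl
            · dsimp only; omega
          show Z2.Adj (x.1, max 2 (min n x.2)) (y.1, max 2 (min n y.2))
          rw [e1, e2]
          exact hxy
        · left
          exact (key y hy x hx hxy.symm h7).symm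
      · left
        exact key x hx y hy hxy h6
  have hu2 := hodd u h3.left (by omega)
  have hur := h3.left.1
  have e : ((u.1, max 2 (min n u.2)) : Pt) = (1, u.2) := by
    obtain ⟨h7, h8⟩ := hur
    ext
    · exact hu
    · dsimp only; omega
  rw [e] at h5
  have h6 : Z2.HX true 0 (n + 1) 2 n ω := by
    refine ⟨(0, u.2), (v.1, max 2 (min n v.2)), rfl, hv, ?_⟩
    have h7 : Z2.Cn (rect 0 (n + 1) 2 n ∩ Z2.col true ω) (1, u.2)
        (v.1, max 2 (min n v.2)) := by
      refine h5.mono (Set.inter_subset_inter_left _ ?_)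
      rintro w ⟨h8, h9⟩
      exact ⟨by omega, h9⟩
    refine Lat.Cn.trans (Lat.Cn.of_adj ?_ h7.left ?_) h7
    · refine ⟨⟨by dsimp only; omega, h7.left.1.2⟩, z2_open (by dsimp only; omega) hu2⟩
    · exact Lat.adj_right (L := Z2) (0, u.2)
  exact h6.mono le_rfl (by omega) (by omega) (by omega) le_rfl

/-- Even squares. -/
theorem z2_square {n : ℤ} (hn : n % 2 = 0) (h2 : 2 ≤ n) :
    (1 : ℝ) / 2 ≤ pr (Z2.HX true 0 n 0 n) := by
  have h1 : pr (fun ω => ¬ Z2.HX true 0 n 0 n ω) = 1 - pr (Z2.HX true 0 n 0 n) :=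
    pr_not (Lat.HX.loc Z2 true 0 n 0 n)
  have h3 : (fun ω => ¬ Z2.HX true 0 n 0 n ω) = Z2.VX (!true) 0 n 0 n := by
    funext ω
    exact propext (Lat.not_hx (by omega) (by omega) true ω)
  rw [h3, z2_pr_sw_vx, z2_pr_tr_vx] at h1
  have h4 : pr (Z2.HX true (0 + 1) (n + 1) (0 + 1) (n + 1)) ≤ pr (Z2.HX true 0 n 0 n) := by
    refine pr_mono (Lat.HX.loc Z2 true _ _ _ _) (Lat.HX.loc Z2 true _ _ _ _) ?_
    intro ω hω
    rw [zero_add] at hω
    exact z2_trim hn h2 hω
  linarith

theorem z2_square_v {n : ℤ} (hn : n % 2 = 0) (h2 : 2 ≤ n) :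
    (1 : ℝ) / 2 ≤ pr (Z2.VX true 0 n 0 n) := by
  rw [z2_pr_tr_vx]
  exact z2_square hn h2

end SC
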