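import Pool.Agent.Lib_MP_e0a489.FI1
import Pool.Agent.Lib_MP_e0a489.ZR3

/-!
# MP_e0a489, module TP, Z2 half 2 (13c): the crossing of the square has probability at least `1/2`
-/

set_option autoImplicit false

namespace SC

open Classical

/-- without the set `E` the crossing of the domain is a crossing of a rectangle -/
theorem crs_empty (L : Lat) (N N' : ℤ) : L.Crs N N' ∅ = L.HX true (-N) N (-N') N' := by
  funext ω
  refine propext ?_
  constructor
  · rintro ⟨x, hx, y, hy, h⟩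
    refine ⟨x, y, hx, ?_, ?_⟩
    · rcases hy with hy | hy
      · exact hy
      · exact absurd hy (Set.notMem_empty _)
    · rwa [dom, Set.sdiff_empty] at h
  · rintro ⟨x, y, hx, hy, h⟩
    refine ⟨x, hx, y, Or.inl hy, ?_⟩
    rwa [dom, Set.sdiff_empty]

/-- The open crossing of `[-2n, 2n]²` from left to right has probability at least `1/2`. -/
theorem z2_crs_pos (n : ℕ) (hn : 1 ≤ n) :
    (1 : ℝ) / 2 ≤ pr (Z2.Crs (2 * (n : ℤ)) (2 * (n : ℤ)) ∅) := by
  have hn' : (1 : ℤ) ≤ n := by exact_mod_cast hn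
  rw [crs_empty]
  have h1 := z2_pr_shift_hx true 0 (4 * (n : ℤ)) 0 (4 * (n : ℤ)) (-(2 * (n : ℤ)))
    (-(2 * (n : ℤ))) (by omega) (by omega)
  have h2 := z2_square (n := 4 * (n : ℤ)) (by omega) (by omega)
  have e1 : (0 : ℤ) + -(2 * (n : ℤ)) = -(2 * (n : ℤ)) := by ring
  have e2 : 4 * (n : ℤ) + -(2 * (n : ℤ)) = 2 * (n : ℤ) := by ring
  rw [e1, e2] at h1
  rw [h1]
  exact h2

theorem z2_crs_ex : ∃ p : ℝ, 0 < p ∧ ∀ n : ℕ, 1 ≤ n →
    p ≤ pr (Z2.Crs (2 * (n : ℤ)) (2 * (n : ℤ)) ∅) :=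
  ⟨1 / 2, by norm_num, z2_crs_pos⟩

end SC
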