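import Pool.Agent.Lib_MP_e0a489.SH6
import Pool.Agent.Lib_MP_e0a489.TTD
import Pool.Agent.Lib_MP_e0a489.ZR1

/-!
# MP_e0a489, module ZR: the core configuration of `Z2` (centred at a horizontal edge)
-/

set_option autoImplicit false

namespace SC

open Classical

private theorem zc_fair {v : Pt} (h : (v.1 + v.2) % 2 = 0) : (Z2.shift (1, 0)).typ v = none := by
  show Z2.typ (v + (1, 0)) = none
  apply z2_fair
  rw [Prod.fst_add, Prod.snd_add]
  show (v.1 + 1 + (v.2 + 0)) % 2 = 1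
  omega

private theorem zc_open {ω : Cfg} {v : Pt} (h1 : v.1 % 2 = 1) (h2 : v.2 % 2 = 0) :
    v ∈ (Z2.shift (1, 0)).col true ω := by
  have h := z2_open (ω := fun w => ω (w - (1, 0))) (v := v + (1, 0)) (by
    show (v.1 + 1) % 2 = 0
    omega) (by
    show (v.2 + 0) % 2 = 0
    omega)
  have h3 : (Z2.typ (v + (1, 0))).getD (ω (v + (1, 0) - (1, 0))) = true := h
  rw [add_sub_cancel_right] at h3
  exact h3

private theorem zc_closed {ω : Cfg} {v : Pt} (h1 : v.1 % 2 = 0) (h2 : v.2 % 2 = 1) :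
    v ∈ (Z2.shift (1, 0)).col false ω := by
  have h := z2_closed (ω := fun w => ω (w - (1, 0))) (v := v + (1, 0)) (by
    show (v.1 + 1) % 2 = 1
    omega) (by
    show (v.2 + 0) % 2 = 1
    omega)
  have h3 : (Z2.typ (v + (1, 0))).getD (ω (v + (1, 0) - (1, 0))) = false := h
  rw [add_sub_cancel_right] at h3
  exact h3

private theorem zc_col {c : Bool} {ω : Cfg} {v : Pt} (h : (v.1 + v.2) % 2 = 0) (h' : ω v = c) :
    v ∈ (Z2.shift (1, 0)).col c ω := by
  show ((Z2.shift (1, 0)).typ v).getD (ω v) = c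
  rw [zc_fair h]
  exact h'

private theorem zc_bx {v : Pt} {m : ℤ} : v ∈ bx m ↔ |v.1| ≤ m ∧ |v.2| ≤ m := by
  show max |v.1| |v.2| ≤ m ↔ _
  exact max_le_iff

private theorem zc_o {m : ℤ} (hm : 8 ≤ m) {ω : Cfg}
    (hω : ∀ v ∈ bx m, v ≠ 0 → |v.2| < |v.1| → ω v = true) {σ Y : ℤ}
    (hσ : σ = 1 ∨ σ = -1) (hY : 2 * |Y| ≤ m) (hp : (σ * (m + 1), Y) ∈ (Z2.shift (1, 0)).col true ω) :
    (Z2.shift (1, 0)).Cn ((bx (m + 1) \ {0}) ∩ (Z2.shift (1, 0)).col true ω) (σ * (m + 1), Y)
      (σ, 0) := by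
  set A := (bx (m + 1) \ {0}) ∩ (Z2.shift (1, 0)).col true ω with hA
  have mem : ∀ x y : ℤ, 1 ≤ σ * x → σ * x ≤ m → |y| < σ * x → (x % 2 = 1 ∨ y % 2 = 0) →
      ((x, y) : Pt) ∈ A := by
    intro x y h1 h2 h3 h4
    have hx : |x| = σ * x := by
      rcases hσ with rfl | rfl
      · rw [one_mul] at h1 ⊢
        exact abs_of_pos (by omega)
      · rw [show (-1 : ℤ) * x = -x by ring] at h1 ⊢
        exact abs_of_neg (by omega)
    have hne : ((x, y) : Pt) ≠ 0 := by
      intro h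
      have : x = 0 := congrArg Prod.fst h
      rw [this] at h1
      omega
    refine ⟨⟨zc_bx.2 ⟨?_, ?_⟩, hne⟩, ?_⟩
    · show |x| ≤ m + 1
      omega
    · show |y| ≤ m + 1
      omega
    · by_cases h5 : (x + y) % 2 = 0
      · refine zc_col h5 (hω _ (zc_bx.2 ⟨?_, ?_⟩) hne ?_)
        · show |x| ≤ m
          omega
        · show |y| ≤ m
          omega
        · show |y| < |x|
          omega
      · refine zc_open ?_ ?_
        · show x % 2 = 1
          omega
        · show y % 2 = 0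
          omega
  -- from an odd column to the origin
  have fin : ∀ x y : ℤ, 1 ≤ σ * x → σ * x ≤ m → |y| < σ * x → x % 2 = 1 →
      (Z2.shift (1, 0)).Cn A (x, y) (σ, 0) := by
    intro x y h1 h2 h3 h4
    have s1 : (Z2.shift (1, 0)).Cn A (x, y) (x, 0) := by
      have := (Lat.con_rect (L := Z2.shift (1, 0)) x x (-|y|) |y|) (x, y)
        ⟨⟨le_refl x, le_refl x⟩, neg_abs_le y, le_abs_self y⟩ (x, 0)
        ⟨⟨le_refl x, le_refl x⟩, by
          show -|y| ≤ 0
          have := abs_nonneg y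
          omega, abs_nonneg y⟩
      refine this.mono ?_
      rintro ⟨v1, v2⟩ ⟨⟨a1, a2⟩, a3, a4⟩
      have a1' : x ≤ v1 := a1
      have a2' : v1 ≤ x := a2
      have a3' : -|y| ≤ v2 := a3
      have a4' : v2 ≤ |y| := a4
      obtain rfl : v1 = x := le_antisymm a2' a1'
      exact mem v1 v2 h1 h2 (lt_of_le_of_lt (abs_le.2 ⟨a3', a4'⟩) h3) (Or.inl h4)
    have s2 : (Z2.shift (1, 0)).Cn A (x, 0) (σ, 0) := by
      have := (Lat.con_rect (L := Z2.shift (1, 0)) (min x σ) (max x σ) 0 0) (x, 0)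
        ⟨⟨min_le_left _ _, le_max_left _ _⟩, le_refl _, le_refl _⟩ (σ, 0)
        ⟨⟨min_le_right _ _, le_max_right _ _⟩, le_refl _, le_refl _⟩
      refine this.mono ?_
      rintro ⟨v1, v2⟩ ⟨⟨a1, a2⟩, a3, a4⟩
      have a1' : min x σ ≤ v1 := a1
      have a2' : v1 ≤ max x σ := a2
      have a3' : 0 ≤ v2 := a3
      have a4' : v2 ≤ 0 := a4
      obtain rfl : v2 = 0 := le_antisymm a4' a3'
      have h5 : 1 ≤ σ * v1 ∧ σ * v1 ≤ m := by
        rcases hσ with rfl | rfl
        · constructor <;> omega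
        · constructor <;> omega
      exact mem v1 0 h5.1 h5.2 (by rw [abs_zero]; omega) (Or.inr rfl)
    exact s1.trans s2
  have pm : |σ * (m + 1)| = m + 1 := by
    rcases hσ with rfl | rfl
    · rw [one_mul]
      exact abs_of_pos (by omega)
    · rw [show (-1 : ℤ) * (m + 1) = -(m + 1) by ring, abs_neg]
      exact abs_of_pos (by omega)
  have ring0 : ∀ y : ℤ, |y| ≤ m → ((σ * (m + 1), y) : Pt) ∈ bx (m + 1) \ {0} := by
    intro y hy
    refine ⟨zc_bx.2 ⟨?_, ?_⟩, ?_⟩
    · show |σ * (m + 1)| ≤ m + 1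
      omega
    · show |y| ≤ m + 1
      omega
    · intro h
      have h1 : σ * (m + 1) = 0 := congrArg Prod.fst h
      rw [h1, abs_zero] at pm
      omega
  have hpA : ((σ * (m + 1), Y) : Pt) ∈ A := ⟨ring0 Y (by have := abs_nonneg Y; omega), hp⟩
  have hσm : σ * (σ * m) = m ∧ σ * (σ * (m - 1)) = m - 1 := by
    rcases hσ with rfl | rfl
    · constructor <;> ring
    · constructor <;> ring
  -- the case of an even ordinate
  have ev : ∀ y : ℤ, 2 * |y| ≤ m → y % 2 = 0 → ((σ * (m + 1), y) : Pt) ∈ A →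
      (Z2.shift (1, 0)).Cn A (σ * (m + 1), y) (σ, 0) := by
    intro y hy he hA'
    have hy0 := abs_nonneg y
    have m1 : ((σ * m, y) : Pt) ∈ A := mem _ _ (by omega) (by omega) (by omega) (Or.inr he)
    have e1 : (Z2.shift (1, 0)).Cn A (σ * (m + 1), y) (σ * m, y) := by
      refine Lat.Cn.of_adj hA' m1 (Lat.adj_of_nn ?_)
      show |σ * (m + 1) - σ * m| + |y - y| = 1
      rcases hσ with rfl | rfl
      · rw [show (1 : ℤ) * (m + 1) - 1 * m = 1 by ring, sub_self]
        rfl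
      · rw [show (-1 : ℤ) * (m + 1) - -1 * m = -1 by ring, sub_self]
        rfl
    by_cases hmo : m % 2 = 1
    · refine e1.trans (fin _ _ (by omega) (by omega) (by omega) ?_)
      rcases hσ with rfl | rfl
      · omega
      · omega
    · have m2 : ((σ * (m - 1), y) : Pt) ∈ A :=
        mem _ _ (by omega) (by omega) (by omega) (Or.inr he)
      have e2 : (Z2.shift (1, 0)).Cn A (σ * m, y) (σ * (m - 1), y) := by
        refine Lat.Cn.of_adj m1 m2 (Lat.adj_of_nn ?_)
        show |σ * m - σ * (m - 1)| + |y - y| = 1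
        rcases hσ with rfl | rfl
        · rw [show (1 : ℤ) * m - 1 * (m - 1) = 1 by ring, sub_self]
          rfl
        · rw [show (-1 : ℤ) * m - -1 * (m - 1) = -1 by ring, sub_self]
          rfl
      refine (e1.trans e2).trans (fin _ _ (by omega) (by omega) (by omega) ?_)
      rcases hσ with rfl | rfl
      · omega
      · omega
  by_cases he : Y % 2 = 0
  · exact ev Y hY he hpA
  · -- odd ordinate
    have hmo : (σ * (m + 1)) % 2 = 1 := by
      by_contra h
      exact col_ne hp (zc_closed (by show (σ * (m + 1)) % 2 = 0; omega) (by show Y % 2 = 1; omega))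
    obtain ⟨Y', hY1, hY2⟩ : ∃ Y' : ℤ, |Y - Y'| = 1 ∧ |Y'| ≤ |Y| := by
      by_cases h0 : 0 < Y
      · refine ⟨Y - 1, ?_, ?_⟩
        · rw [show Y - (Y - 1) = 1 by ring]
          rfl
        · rw [abs_of_pos h0, abs_of_nonneg (by omega)]
          omega
      · refine ⟨Y + 1, ?_, ?_⟩
        · rw [show Y - (Y + 1) = -1 by ring]
          rfl
        · rw [abs_of_neg (show Y < 0 by omega), abs_of_nonpos (by omega)]
          omega
    have hev : Y' % 2 = 0 := by
      rcases abs_eq (by norm_num : (0 : ℤ) ≤ 1) |>.1 hY1 with h | h <;> omega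
    have hA' : ((σ * (m + 1), Y') : Pt) ∈ A :=
      ⟨ring0 Y' (by have := abs_nonneg Y; omega), zc_open hmo hev⟩
    refine Lat.Cn.trans (Lat.Cn.of_adj hpA hA' (Lat.adj_of_nn ?_)) (ev Y' (by omega) hev hA')
    show |σ * (m + 1) - σ * (m + 1)| + |Y - Y'| = 1
    rw [sub_self, abs_zero, hY1]
    rfl

private theorem zc_c {m : ℤ} (hm : 8 ≤ m) {ω : Cfg}
    (hω : ∀ v ∈ bx m, v ≠ 0 → |v.1| < |v.2| → ω v = false) {σ Y : ℤ}
    (hσ : σ = 1 ∨ σ = -1) (hY : 2 * |Y| ≤ m) (hp : (Y, σ * (m + 1)) ∈ (Z2.shift (1, 0)).col false ω) :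
    (Z2.shift (1, 0)).Cn ((bx (m + 1) \ {0}) ∩ (Z2.shift (1, 0)).col false ω) (Y, σ * (m + 1))
      (0, σ) := by
  set A := (bx (m + 1) \ {0}) ∩ (Z2.shift (1, 0)).col false ω with hA
  have mem : ∀ x y : ℤ, 1 ≤ σ * x → σ * x ≤ m → |y| < σ * x → (x % 2 = 1 ∨ y % 2 = 0) →
      ((y, x) : Pt) ∈ A := by
    intro x y h1 h2 h3 h4
    have hx : |x| = σ * x := by
      rcases hσ with rfl | rfl
      · rw [one_mul] at h1 ⊢
        exact abs_of_pos (by omega)
      · rw [show (-1 : ℤ) * x = -x by ring] at h1 ⊢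
        exact abs_of_neg (by omega)
    have hne : ((y, x) : Pt) ≠ 0 := by
      intro h
      have : x = 0 := congrArg Prod.snd h
      rw [this] at h1
      omega
    refine ⟨⟨zc_bx.2 ⟨?_, ?_⟩, hne⟩, ?_⟩
    · show |y| ≤ m + 1
      omega
    · show |x| ≤ m + 1
      omega
    · by_cases h5 : (y + x) % 2 = 0
      · refine zc_col h5 (hω _ (zc_bx.2 ⟨?_, ?_⟩) hne ?_)
        · show |y| ≤ m
          omega
        · show |x| ≤ m
          omega
        · show |y| < |x|
          omega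
      · refine zc_closed ?_ ?_
        · show y % 2 = 0
          omega
        · show x % 2 = 1
          omega
  -- from an odd column to the origin
  have fin : ∀ x y : ℤ, 1 ≤ σ * x → σ * x ≤ m → |y| < σ * x → x % 2 = 1 →
      (Z2.shift (1, 0)).Cn A (y, x) (0, σ) := by
    intro x y h1 h2 h3 h4
    have s1 : (Z2.shift (1, 0)).Cn A (y, x) (0, x) := by
      have := (Lat.con_rect (L := Z2.shift (1, 0)) (-|y|) |y| x x) (y, x)
        ⟨⟨neg_abs_le y, le_abs_self y⟩, le_refl x, le_refl x⟩ (0, x)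
        ⟨⟨by
          show -|y| ≤ 0
          have := abs_nonneg y
          omega, abs_nonneg y⟩, le_refl x, le_refl x⟩
      refine this.mono ?_
      rintro ⟨v2, v1⟩ ⟨⟨a3, a4⟩, a1, a2⟩
      have a1' : x ≤ v1 := a1
      have a2' : v1 ≤ x := a2
      have a3' : -|y| ≤ v2 := a3
      have a4' : v2 ≤ |y| := a4
      obtain rfl : v1 = x := le_antisymm a2' a1'
      exact mem v1 v2 h1 h2 (lt_of_le_of_lt (abs_le.2 ⟨a3', a4'⟩) h3) (Or.inl h4)
    have s2 : (Z2.shift (1, 0)).Cn A (0, x) (0, σ) := by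
      have := (Lat.con_rect (L := Z2.shift (1, 0)) 0 0 (min x σ) (max x σ)) (0, x)
        ⟨⟨le_refl _, le_refl _⟩, min_le_left _ _, le_max_left _ _⟩ (0, σ)
        ⟨⟨le_refl _, le_refl _⟩, min_le_right _ _, le_max_right _ _⟩
      refine this.mono ?_
      rintro ⟨v2, v1⟩ ⟨⟨a3, a4⟩, a1, a2⟩
      have a1' : min x σ ≤ v1 := a1
      have a2' : v1 ≤ max x σ := a2
      have a3' : 0 ≤ v2 := a3
      have a4' : v2 ≤ 0 := a4
      obtain rfl : v2 = 0 := le_antisymm a4' a3'
      have h5 : 1 ≤ σ * v1 ∧ σ * v1 ≤ m := by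
        rcases hσ with rfl | rfl
        · constructor <;> omega
        · constructor <;> omega
      exact mem v1 0 h5.1 h5.2 (by rw [abs_zero]; omega) (Or.inr rfl)
    exact s1.trans s2
  have pm : |σ * (m + 1)| = m + 1 := by
    rcases hσ with rfl | rfl
    · rw [one_mul]
      exact abs_of_pos (by omega)
    · rw [show (-1 : ℤ) * (m + 1) = -(m + 1) by ring, abs_neg]
      exact abs_of_pos (by omega)
  have ring0 : ∀ y : ℤ, |y| ≤ m → ((y, σ * (m + 1)) : Pt) ∈ bx (m + 1) \ {0} := by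
    intro y hy
    refine ⟨zc_bx.2 ⟨?_, ?_⟩, ?_⟩
    · show |y| ≤ m + 1
      omega
    · show |σ * (m + 1)| ≤ m + 1
      omega
    · intro h
      have h1 : σ * (m + 1) = 0 := congrArg Prod.snd h
      rw [h1, abs_zero] at pm
      omega
  have hpA : ((Y, σ * (m + 1)) : Pt) ∈ A := ⟨ring0 Y (by have := abs_nonneg Y; omega), hp⟩
  have hσm : σ * (σ * m) = m ∧ σ * (σ * (m - 1)) = m - 1 := by
    rcases hσ with rfl | rfl
    · constructor <;> ring
    · constructor <;> ring
  -- the case of an even ordinate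
  have ev : ∀ y : ℤ, 2 * |y| ≤ m → y % 2 = 0 → ((y, σ * (m + 1)) : Pt) ∈ A →
      (Z2.shift (1, 0)).Cn A (y, σ * (m + 1)) (0, σ) := by
    intro y hy he hA'
    have hy0 := abs_nonneg y
    have m1 : ((y, σ * m) : Pt) ∈ A := mem _ _ (by omega) (by omega) (by omega) (Or.inr he)
    have e1 : (Z2.shift (1, 0)).Cn A (y, σ * (m + 1)) (y, σ * m) := by
      refine Lat.Cn.of_adj hA' m1 (Lat.adj_of_nn ?_)
      show |y - y| + |σ * (m + 1) - σ * m| = 1
      rcases hσ with rfl | rfl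
      · rw [show (1 : ℤ) * (m + 1) - 1 * m = 1 by ring, sub_self]
        rfl
      · rw [show (-1 : ℤ) * (m + 1) - -1 * m = -1 by ring, sub_self]
        rfl
    by_cases hmo : m % 2 = 1
    · refine e1.trans (fin _ _ (by omega) (by omega) (by omega) ?_)
      rcases hσ with rfl | rfl
      · omega
      · omega
    · have m2 : ((y, σ * (m - 1)) : Pt) ∈ A :=
        mem _ _ (by omega) (by omega) (by omega) (Or.inr he)
      have e2 : (Z2.shift (1, 0)).Cn A (y, σ * m) (y, σ * (m - 1)) := by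
        refine Lat.Cn.of_adj m1 m2 (Lat.adj_of_nn ?_)
        show |y - y| + |σ * m - σ * (m - 1)| = 1
        rcases hσ with rfl | rfl
        · rw [show (1 : ℤ) * m - 1 * (m - 1) = 1 by ring, sub_self]
          rfl
        · rw [show (-1 : ℤ) * m - -1 * (m - 1) = -1 by ring, sub_self]
          rfl
      refine (e1.trans e2).trans (fin _ _ (by omega) (by omega) (by omega) ?_)
      rcases hσ with rfl | rfl
      · omega
      · omega
  by_cases he : Y % 2 = 0
  · exact ev Y hY he hpA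
  · -- odd ordinate
    have hmo : (σ * (m + 1)) % 2 = 1 := by
      by_contra h
      exact col_ne (zc_open (by show Y % 2 = 1; omega) (by show (σ * (m + 1)) % 2 = 0; omega)) hp
    obtain ⟨Y', hY1, hY2⟩ : ∃ Y' : ℤ, |Y - Y'| = 1 ∧ |Y'| ≤ |Y| := by
      by_cases h0 : 0 < Y
      · refine ⟨Y - 1, ?_, ?_⟩
        · rw [show Y - (Y - 1) = 1 by ring]
          rfl
        · rw [abs_of_pos h0, abs_of_nonneg (by omega)]
          omega
      · refine ⟨Y + 1, ?_, ?_⟩
        · rw [show Y - (Y + 1) = -1 by ring]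
          rfl
        · rw [abs_of_neg (show Y < 0 by omega), abs_of_nonpos (by omega)]
          omega
    have hev : Y' % 2 = 0 := by
      rcases abs_eq (by norm_num : (0 : ℤ) ≤ 1) |>.1 hY1 with h | h <;> omega
    have hA' : ((Y', σ * (m + 1)) : Pt) ∈ A :=
      ⟨ring0 Y' (by have := abs_nonneg Y; omega), zc_closed hev hmo⟩
    refine Lat.Cn.trans (Lat.Cn.of_adj hpA hA' (Lat.adj_of_nn ?_)) (ev Y' (by omega) hev hA')
    show |Y - Y'| + |σ * (m + 1) - σ * (m + 1)| = 1
    rw [sub_self, abs_zero, hY1]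
    rfl

theorem z2_core {m : ℤ} (hm : 8 ≤ m) : CoreOK (Z2.shift (1, 0)) m := by
  refine ⟨zc_fair (v := 0) rfl, fun v => decide (|v.2| < |v.1|), ?_⟩
  intro ω hω c s y hs hy hp
  cases c with
  | true =>
    have h1 : ∀ v ∈ bx m, v ≠ 0 → |v.2| < |v.1| → ω v = true := by
      intro v hv h0 h
      rw [hω v hv h0]
      exact decide_eq_true h
    have hd : dc true = 0 := rfl
    rw [hd] at hs
    rcases hs with rfl | rfl
    · rw [rt_zero] at hp ⊢
      refine ⟨(1, 0), Lat.adj_of_nn rfl, ?_⟩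
      have := zc_o hm h1 (σ := 1) (Y := y) (Or.inl rfl) hy (by rw [one_mul]; exact hp)
      rw [one_mul] at this
      exact this
    · rw [show (0 : ℤ) + 2 = 2 by rfl, rt_two] at hp ⊢
      refine ⟨(-1, 0), Lat.adj_of_nn rfl, ?_⟩
      have e : (-1 : ℤ) * (m + 1) = -(m + 1) := by ring
      have := zc_o hm h1 (σ := -1) (Y := -y) (Or.inr rfl) (by rw [abs_neg]; exact hy)
        (by rw [e]; exact hp)
      rw [e] at this
      exact this
  | false =>
    have h1 : ∀ v ∈ bx m, v ≠ 0 → |v.1| < |v.2| → ω v = false := by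
      intro v hv h0 h
      rw [hω v hv h0]
      exact decide_eq_false (by omega)
    have hd : dc false = 1 := rfl
    rw [hd] at hs
    rcases hs with rfl | rfl
    · rw [rt_one] at hp ⊢
      refine ⟨(0, 1), Lat.adj_of_nn rfl, ?_⟩
      have := zc_c hm h1 (σ := 1) (Y := -y) (Or.inl rfl) (by rw [abs_neg]; exact hy)
        (by rw [one_mul]; exact hp)
      rw [one_mul] at this
      exact this
    · rw [show (1 : ℤ) + 2 = 3 by rfl, rt_three] at hp ⊢
      refine ⟨(0, -1), Lat.adj_of_nn rfl, ?_⟩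
      have e : (-1 : ℤ) * (m + 1) = -(m + 1) := by ring
      have := zc_c hm h1 (σ := -1) (Y := y) (Or.inr rfl) hy (by rw [e]; exact hp)
      rw [e] at this
      exact this

end SC
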