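import Pool.Agent.Lib_MP_e0a489.ZR9

/-!
# MP_e0a489, module ZR, 10: the box crossing property of `Z2`
-/

set_option autoImplicit false

namespace SC

open Classical

/-- Small rectangles.  If all fair sites are open there is a crossing along the row `0` (the sites of the row `0` are vertices or edges of `ℤ²`, never faces).  The probability that the `m + 1` sites of the row
are open is at least `(1/2) ^ (m + 1)` (`pr_pos` for `HX true 0 m 0 0` and the finite set of the sites of `rect 0 m 0 0`, `HX.mono`, `pr_mono`). -/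
theorem zr_row {m n : ℤ} (h0 : 0 ≤ m) (hn : 0 ≤ n) :
    (1 / 2 : ℝ) ^ (m.toNat + 1) ≤ pr (Z2.HX true 0 m 0 n) := by
  have hcol : ∀ i : ℤ, ((i, 0) : Pt) ∈ Z2.col true (fun _ => true) := by
    intro i
    by_cases hi : i % 2 = 0
    · exact z2_open hi rfl
    · show (Z2.typ (i, 0)).getD true = true
      rw [z2_fair (v := ((i, 0) : Pt)) (by dsimp only; omega)]
      rfl
  have hpath : ∀ k : ℕ, (k : ℤ) ≤ m →
      Z2.Cn (rect 0 m 0 0 ∩ Z2.col true (fun _ => true)) (0, 0) ((k : ℤ), 0) := by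
    intro k
    induction k with
    | zero =>
      intro _
      exact Lat.Cn.refl ⟨⟨⟨le_rfl, h0⟩, le_rfl, le_rfl⟩, hcol 0⟩
    | succ k ih =>
      intro hk
      push_cast at hk ⊢
      have h1 := ih (by omega)
      have hmem1 : (((k : ℤ), 0) : Pt) ∈ rect 0 m 0 0 ∩ Z2.col true (fun _ => true) :=
        ⟨⟨⟨by dsimp only; omega, by dsimp only; omega⟩, le_rfl, le_rfl⟩, hcol _⟩
      have hmem2 : (((k : ℤ) + 1, 0) : Pt) ∈ rect 0 m 0 0 ∩ Z2.col true (fun _ => true) :=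
        ⟨⟨⟨by dsimp only; omega, by dsimp only; omega⟩, le_rfl, le_rfl⟩, hcol _⟩
      exact Lat.Cn.trans h1 (Lat.Cn.of_adj hmem1 hmem2 (Lat.adj_right (L := Z2) ((k : ℤ), 0)))
  have hω : Z2.HX true 0 m 0 0 (fun _ => true) := by
    refine ⟨(0, 0), (m, 0), rfl, rfl, ?_⟩
    have h1 := hpath m.toNat (by omega)
    rwa [Int.toNat_of_nonneg h0] at h1
  let F : Finset Pt := (Finset.Icc (0 : ℤ) m).image fun i => (i, 0)
  have hdep : Dep (Z2.HX true 0 m 0 0) (F : Set Pt) := by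
    refine (Lat.HX.dep Z2 true 0 m 0 0).mono ?_
    rintro ⟨x, y⟩ ⟨⟨h1, h2⟩, h3, h4⟩
    dsimp only at h1 h2 h3 h4
    have hy : y = 0 := le_antisymm h4 h3
    subst hy
    exact Finset.mem_coe.2 (Finset.mem_image.2 ⟨x, Finset.mem_Icc.2 ⟨h1, h2⟩, rfl⟩)
  have hcard : F.card = m.toNat + 1 := by
    rw [Finset.card_image_of_injective _ (fun i j h => (Prod.ext_iff.1 h).1), Int.card_Icc]
    omega
  have h5 := pr_pos hdep hω
  rw [hcard] at h5
  refine h5.trans (pr_mono (Lat.HX.loc Z2 true _ _ _ _) (Lat.HX.loc Z2 true _ _ _ _) ?_)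
  intro ω h
  exact h.mono le_rfl h0 le_rfl le_rfl hn

/-- Even rectangles of bounded aspect ratio.  For `n ≥ 4` let `N = 2 (n / 4)` (even, `N ≥ 2`, `2 N ≤ n ≤ 2 N + 3`, so `n ≤ 4 N`); with `j = 4 k` we have `m ≤ k n ≤ 4 k N ≤ (j + 2) N`, so the crossing of
`[0,(j+2)N] × [0,2N]` gives one of `[0,m] × [0,n]` (`HX.mono`), probability at least `(1/2) ^ (32 k)` (`zr_long`).  For `2 ≤ n ≤ 3`: `m ≤ 3 k`, `zr_row`. -/
theorem zr_even (k : ℕ) (hk : 1 ≤ k) {m n : ℤ} (h0 : 0 ≤ m) (hn : 2 ≤ n) (hm : m ≤ k * n) :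
    (1 / 2 : ℝ) ^ (32 * k) ≤ pr (Z2.HX true 0 m 0 n) := by
  have hk' : (1 : ℤ) ≤ k := by exact_mod_cast hk
  by_cases h4 : 4 ≤ n
  · obtain ⟨q, hq⟩ : ∃ q : ℤ, q = n / 4 := ⟨_, rfl⟩
    have hq1 : 1 ≤ q := by omega
    have hq2 : 4 * q ≤ n := by omega
    have hq3 : n ≤ 4 * q + 3 := by omega
    have h5 := zr_long (4 * k) (by omega) (N := 2 * q) (by omega) (by omega)
    have e1 : 8 * (4 * k) = 32 * k := by ring
    rw [e1] at h5
    refine h5.trans (pr_mono (Lat.HX.loc Z2 true _ _ _ _) (Lat.HX.loc Z2 true _ _ _ _) ?_)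
    intro ω h
    refine h.mono le_rfl h0 ?_ le_rfl (by omega)
    have h6 : (k : ℤ) * n ≤ k * (8 * q) := by
      apply mul_le_mul_of_nonneg_left _ (by omega)
      omega
    push_cast
    nlinarith
  · have h5 : m ≤ k * 3 := hm.trans (mul_le_mul_of_nonneg_left (by omega) (by omega))
    refine le_trans ?_ (zr_row h0 (by omega : (0 : ℤ) ≤ n))
    exact pow_le_pow_of_le_one (by norm_num) (by norm_num) (by omega)

/-- All positions.  `a' ≤ a`, `p ≤ p'` the next even numbers (`a - 1 ≤ a'`, `p' ≤ p + 1`): the crossing of `[a',a+kn] × [p',p+n]` gives one of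
`[a,a+kn] × [p,p+n]`; translate by `(a', p')` (`z2_pr_shift_hx`); width `≤ k n + 1 ≤ 2 k (n - 1)`, height `≥ n - 1 ≥ 2`: `zr_even` for `2 k`. -/
theorem zr_open (k : ℕ) (hk : 1 ≤ k) {n a p : ℤ} (hn : 4 ≤ n) :
    (1 / 2 : ℝ) ^ (64 * k) ≤ pr (Z2.HX true a (a + k * n) p (p + n)) := by
  have hk' : (1 : ℤ) ≤ k := by exact_mod_cast hk
  have hkn : 2 * (k : ℤ) + 1 ≤ k * n := by nlinarith
  obtain ⟨a', ha'⟩ : ∃ a' : ℤ, a' = a - a % 2 := ⟨_, rfl⟩
  obtain ⟨p', hp'⟩ : ∃ p' : ℤ, p' = p + p % 2 := ⟨_, rfl⟩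
  have h1 : a' % 2 = 0 := by omega
  have h2 : p' % 2 = 0 := by omega
  have h3 : a' ≤ a := by omega
  have h4 : a ≤ a' + 1 := by omega
  have h5 : p ≤ p' := by omega
  have h6 : p' ≤ p + 1 := by omega
  have h7 : (1 / 2 : ℝ) ^ (32 * (2 * k)) ≤
      pr (Z2.HX true 0 (a + k * n - a') 0 (p + n - p')) := by
    refine zr_even (2 * k) (by omega) (by nlinarith) (by omega) ?_
    have h8 : (2 * k : ℤ) * (n - 1) ≤ (2 * k) * (p + n - p') :=
      mul_le_mul_of_nonneg_left (by omega) (by omega)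
    push_cast
    nlinarith
  rw [← z2_pr_shift_hx true 0 (a + k * n - a') 0 (p + n - p') a' p' h1 h2] at h7
  have e1 : 32 * (2 * k) = 64 * k := by ring
  have e2 : a + k * n - a' + a' = a + k * n := by ring
  have e3 : p + n - p' + p' = p + n := by ring
  rw [e1, e2, e3, zero_add, zero_add] at h7
  refine h7.trans (pr_mono (Lat.HX.loc Z2 true _ _ _ _) (Lat.HX.loc Z2 true _ _ _ _) ?_)
  intro ω h
  exact h.mono h3 (by nlinarith) le_rfl h5 le_rfl

/-- Closed crossings by `z2_pr_sw_hx`, vertical ones by `z2_pr_tr_vx`; `κ k = (1/2) ^ (64 k)`. -/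
theorem z2_rsw : ∃ κ : ℕ → ℝ, RSW Z2 κ := by
  have hh : ∀ (k : ℕ) (b : Bool) (n a p : ℤ), 1 ≤ k → 4 ≤ n →
      (1 / 2 : ℝ) ^ (64 * k) ≤ pr (Z2.HX b a (a + k * n) p (p + n)) := by
    intro k b n a p hk hn
    cases b with
    | true => exact zr_open k hk hn
    | false =>
      have h := z2_pr_sw_hx true a (a + k * n) p (p + n)
      rw [Bool.not_true] at h
      rw [h]
      have h1 := zr_open k hk (a := a + 1) (p := p + 1) hn
      have e1 : a + 1 + k * n = a + k * n + 1 := by ring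
      have e2 : p + 1 + n = p + n + 1 := by ring
      rwa [e1, e2] at h1
  refine ⟨fun k => (1 / 2 : ℝ) ^ (64 * k), fun k => by positivity, hh, ?_⟩
  intro k b n a p hk hn
  rw [z2_pr_tr_vx]
  exact hh k b n p a hk hn

/-- `Fam`: `z2_shift`, `z2_sw`, `z2_rx`, `z2_ry` (with the shift by `0`, `z2_shift 0`) -/
theorem z2_fam : ∃ κ : ℕ → ℝ, Fam Z2 κ := by
  obtain ⟨κ, hκ⟩ := z2_rsw
  have h0 : Z2.shift (0, 0) = Z2 := z2_shift (0, 0) rfl rfl
  exact ⟨κ, hκ, z2_shift (2, 0) rfl rfl, z2_shift (0, 2) rfl rfl, ⟨(1, 1), z2_sw⟩,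
    ⟨(0, 0), by rw [h0]; exact z2_rx⟩, ⟨(0, 0), by rw [h0]; exact z2_ry⟩⟩

end SC
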