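import Pool.Agent.Lib_MP_e0a489.IfI
import Pool.Agent.Lib_MP_e0a489.TP13
import Pool.Agent.Lib_MP_e0a489.ZC1
import Pool.Agent.Lib_MP_e0a489.ZR10

/-!
# MP_e0a489: Q1 for bond percolation on the square lattice
-/

set_option autoImplicit false

namespace SC

open Classical

theorem spec_z2 (R : ℤ) : ∃ R₀ : ℤ, R ≤ R₀ ∧ SpecBox Z2 R₀ := by
  obtain ⟨κ, hκ⟩ := z2_fam
  obtain ⟨R₀, -, h1, h2⟩ := spectral_box hκ (x₀ := (1, 0)) (fun m hm => z2_core hm) R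
  exact ⟨R₀, h1, h2⟩

theorem q1z2 : SCTop.Q1Z2 := by
  obtain ⟨κ, hκ⟩ := z2_fam
  obtain ⟨C₁, R₁, hal⟩ := al_props κ
  exact tp_main hκ (x₀ := (1, 0)) (i := 1) (by decide) le_rfl (fun m hm => z2_core hm) spec_z2
    (beta_z2 (hal Z2 hκ).mono) (model_z2 hκ.rsw)

end SC
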