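import Pool.Agent.Lib_MP_e0a489.IfX
import Pool.Agent.Lib_MP_e0a489.SE9
import Pool.Agent.Lib_MP_e0a489.TT1

/-!
# MP_e0a489, module TT 2: the constants of one lattice
-/

set_option autoImplicit false

namespace SC

variable [IfL] [IfX]

namespace TT

open Classical

/-- All one-time properties and the comparison for constant correlations, with common constants `C`, `c`,
`R₀`. -/
structure TP (L : Lat) (C c : ℝ) (R₀ : ℤ) : Prop where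
  ap : AlProps L C R₀
  c0 : 0 < c
  c1 : c ≤ 1 / 2
  up : ∀ r R : ℤ, R₀ ≤ r → r ≤ R → al L r R ≤ C * ((r : ℝ) / R) ^ (1 + c)
  low : ∀ r R : ℤ, R₀ ≤ r → r ≤ R → ((r : ℝ) / R) ^ (2 - c) ≤ C * al L r R
  cmpt : ∀ t : ℝ, 0 ≤ t → ∀ (b : Bool) (x : Pt) (r R r' R' : ℤ), R₀ ≤ r → R₀ ≤ r' → r ≤ R →
    r ≤ 2 * r' → r' ≤ R' → R' ≤ 4 * R → pr2 (kt t) (L.TwoAt b x r R) ≤ C * be L t r' R'

/-- all fields only concern radii `≥ R₀` -/
theorem AlProps.mono' {L : Lat} {C C' : ℝ} {R₀ R₁ : ℤ} (h : AlProps L C R₀) (hC : C ≤ C')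
    (hR : R₀ ≤ R₁) : AlProps L C' R₁ := by
  obtain ⟨h1, h2, h3, h4, h5, h6, h7⟩ := h
  refine ⟨h1.trans hC, h2.trans hR, fun r R a b => h3 r R (hR.trans a) b, h4, h5, ?_, ?_⟩
  · intro c x r R r' R' a1 a2 a3 a4 a5 a6
    exact (h6 c x r R r' R' (hR.trans a1) (hR.trans a2) a3 a4 a5 a6).trans
      (mul_le_mul_of_nonneg_right hC (h3 r' R' (hR.trans a2) a5).le)
  · intro r ρ R a1 a2 a3
    exact (h7 r ρ R (hR.trans a1) a2 a3).trans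
      (mul_le_mul_of_nonneg_right hC (h3 r R (hR.trans a1) (a2.trans a3)).le)

/-- Comparison for all centres and constant correlations: the proof of `cmp_all` (SE24) for `pr2 (kt t)`: `pr2_twoAt`, `shift_small`
(`L.shift x = L.shift x'`, `nrm x' ≤ 1`), `cmp2` for `L' = L.shift x'` (`RSW.shift`), colours `b`, `true`, centre `-x'`, and
`(L'.shift (-x')) = L` (`shift_shift`, `shift_zero`).  If `r' = R'` the right side is `C` and the left side at most `1` (`C ≥ 1`). -/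
theorem cmpt_ex (κ : ℕ → ℝ) : ∃ (C : ℝ) (R₀ : ℤ), 1 ≤ C ∧ 16 ≤ R₀ ∧ ∀ L : Lat, Fam L κ →
    ∀ t : ℝ, 0 ≤ t → ∀ (b : Bool) (x : Pt) (r R r' R' : ℤ), R₀ ≤ r → R₀ ≤ r' → r ≤ R →
      r ≤ 2 * r' → r' ≤ R' → R' ≤ 4 * R → pr2 (kt t) (L.TwoAt b x r R) ≤ C * be L t r' R' := by
  obtain ⟨C, R₀, hC, hR₀, H⟩ := cmp2_x κ
  refine ⟨max 1 C, R₀, le_max_left _ _, hR₀, ?_⟩
  intro L hL t ht b x r R r' R' h1 h2 h3 h4 h5 h6
  have hk : Kap (kt t) := kt_kap ht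
  unfold be
  split_ifs with h
  · obtain ⟨x', hx', hs⟩ := shift_small hL x
    have hn : nrm (-x') = nrm x' := by
      unfold nrm
      rw [Prod.fst_neg, Prod.snd_neg, abs_neg, abs_neg]
    have key := H (L.shift x') (hL.rsw.shift x') (kt t) (fun v => hk v) b
      true (-x') r R r' R' h1 h2 h3 (by rw [hn]; omega) h4 h h6
    have e : (L.shift x').shift (-x') = L := by
      rw [shift_shift, add_neg_cancel, shift_zero]
    rw [pr2_twoAt (L.shift x'), e] at key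
    rw [pr2_twoAt, hs]
    exact key.trans (mul_le_mul_of_nonneg_right (le_max_right _ _) (pr2_nonneg _ hk))
  · rw [mul_one]
    exact (pr2_le_one (TwoAt_loc _ _ _ _ _) hk).trans (le_max_left _ _)

/-- Common constants: `C` = maximum of `1` and all the constants, `c` = minimum of the exponents of `al_upper` and `al_lower` (`0 < r / R ≤ 1`, so
`(r/R) ^ (1 + c_up) ≤ (r/R) ^ (1 + c)` and `(r/R) ^ (2 - c) ≤ (r/R) ^ (2 - c_low)`), `R₁` = maximum of the radii. -/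
theorem tp_ex {L : Lat} {κ : ℕ → ℝ} (h : Fam L κ) :
    ∃ (C c : ℝ) (R₁ : ℤ), ∀ R₀, R₁ ≤ R₀ → TP L C c R₀ := by
  obtain ⟨C₁, R₁, H₁⟩ := al_props κ
  obtain ⟨C₂, c₂, R₂, a1, a2, a3, a4, a5⟩ := al_upper h
  obtain ⟨C₃, c₃, R₃, b1, b2, b3, b4, b5⟩ := al_lower h
  obtain ⟨C₄, R₄, d1, d2, d3⟩ := cmpt_ex κ
  have hA := H₁ L h
  refine ⟨max (max C₁ C₂) (max C₃ C₄), min c₂ c₃, max (max R₁ R₂) (max R₃ R₄), ?_⟩
  intro R₀ hR₀
  have q1 : C₁ ≤ max (max C₁ C₂) (max C₃ C₄) := (le_max_left _ _).trans (le_max_left _ _)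
  have q2 : C₂ ≤ max (max C₁ C₂) (max C₃ C₄) := (le_max_right _ _).trans (le_max_left _ _)
  have q3 : C₃ ≤ max (max C₁ C₂) (max C₃ C₄) := (le_max_left _ _).trans (le_max_right _ _)
  have q4 : C₄ ≤ max (max C₁ C₂) (max C₃ C₄) := (le_max_right _ _).trans (le_max_right _ _)
  have r1 : R₁ ≤ R₀ := ((le_max_left _ _).trans (le_max_left _ _)).trans hR₀
  have r2 : R₂ ≤ R₀ := ((le_max_right _ _).trans (le_max_left _ _)).trans hR₀
  have r3 : R₃ ≤ R₀ := ((le_max_left _ _).trans (le_max_right _ _)).trans hR₀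
  have r4 : R₄ ≤ R₀ := ((le_max_right _ _).trans (le_max_right _ _)).trans hR₀
  have hA' : AlProps L (max (max C₁ C₂) (max C₃ C₄)) R₀ := AlProps.mono' hA q1 r1
  have frac : ∀ r R : ℤ, R₀ ≤ r → r ≤ R → 0 < (r : ℝ) / R ∧ (r : ℝ) / R ≤ 1 := by
    intro r R h1 h2
    have h16 : (16 : ℤ) ≤ R₀ := hA'.R16
    have hr : (0 : ℝ) < r := by exact_mod_cast (by omega : (0 : ℤ) < r)
    have hRR : (0 : ℝ) < R := by exact_mod_cast (by omega : (0 : ℤ) < R)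
    exact ⟨div_pos hr hRR, (div_le_one hRR).2 (by exact_mod_cast h2)⟩
  refine ⟨hA', lt_min a2 b2, (min_le_left _ _).trans a3, ?_, ?_, ?_⟩
  · intro r R h1 h2
    obtain ⟨f1, f2⟩ := frac r R h1 h2
    have e1 : ((r : ℝ) / R) ^ (1 + c₂) ≤ ((r : ℝ) / R) ^ (1 + min c₂ c₃) :=
      Real.rpow_le_rpow_of_exponent_ge f1 f2 (by linarith [min_le_left c₂ c₃])
    have e2 : 0 ≤ ((r : ℝ) / R) ^ (1 + min c₂ c₃) := Real.rpow_nonneg f1.le _
    calc al L r R ≤ C₂ * ((r : ℝ) / R) ^ (1 + c₂) := a5 r R (r2.trans h1) h2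
      _ ≤ C₂ * ((r : ℝ) / R) ^ (1 + min c₂ c₃) := mul_le_mul_of_nonneg_left e1 a1.le
      _ ≤ _ := mul_le_mul_of_nonneg_right q2 e2
  · intro r R h1 h2
    obtain ⟨f1, f2⟩ := frac r R h1 h2
    have e1 : ((r : ℝ) / R) ^ (2 - min c₂ c₃) ≤ ((r : ℝ) / R) ^ (2 - c₃) :=
      Real.rpow_le_rpow_of_exponent_ge f1 f2 (by linarith [min_le_right c₂ c₃])
    exact e1.trans ((b5 r R (r3.trans h1) h2).trans
      (mul_le_mul_of_nonneg_right q3 (hA'.pos r R h1 h2).le))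
  · intro t ht b x r R r' R' h1 h2 h3 h4 h5 h6
    exact (d3 L h t ht b x r R r' R' (r4.trans h1) (r4.trans h2) h3 h4 h5 h6).trans
      (mul_le_mul_of_nonneg_right q4 (be_nonneg L ht _ _))

/-! ### Consequences -/

variable {L : Lat} {C c : ℝ} {R₀ : ℤ}

/-- `pr (TwoAt b x r R) ≤ C al L r' R'` is `AlProps.cmp`; here the special case of the event `TwoA true`
with changed radii (`al L r R = 1` only if `r = R`, then `R' ≤ 4 R = 4 r`, `r ≤ 2 r'`; use `AlProps.cmp` if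
`r < R` and for `r = R` the bound `1 ≤ C al L r' R'`: `al L r' (2 r)`-type annuli of bounded ratio: apply `AlProps.low`... ).
PROOF for `r = R`: `r' ≤ R' ≤ 4 r ≤ 8 r'`, and `((r' : ℝ) / R') ^ (2 - c) ≤ C * al L r' R'` with
`(r' / R') ≥ 1 / 8`, so `1 ≤ 64 C al L r' R'`. -/
theorem TP.al_cmp (hp : TP L C c R₀) {r R r' R' : ℤ} (h0 : R₀ ≤ r) (h1 : R₀ ≤ r') (h2 : r ≤ R)
    (h3 : r ≤ 2 * r') (h4 : r' ≤ R') (h5 : R' ≤ 4 * R) : al L r R ≤ 64 * C * al L r' R' := by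
  have hC := hp.ap.C1
  have h16 := hp.ap.R16
  have hpos : 0 < al L r' R' := hp.ap.pos r' R' h1 h4
  by_cases h : r < R
  · have e : al L r R = pr (L.TwoAt true 0 r R) := by
      unfold al
      rw [if_pos h]
      congr 1
      funext ω
      exact propext (TwoAt_zero L true r R ω).symm
    have e2 := hp.ap.cmp true 0 r R r' R' h0 h1 h2 h3 h4 h5
    rw [e]
    refine e2.trans ?_
    have e3 : 0 ≤ C * al L r' R' := mul_nonneg (by linarith) hpos.le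
    rw [mul_assoc]
    linarith
  · have hr' : (0 : ℝ) < r' := by exact_mod_cast (by omega : (0 : ℤ) < r')
    have hR' : (0 : ℝ) < R' := by exact_mod_cast (by omega : (0 : ℤ) < R')
    have h8 : (R' : ℝ) ≤ 8 * r' := by exact_mod_cast (by omega : R' ≤ 8 * r')
    have f1 : (1 : ℝ) / 8 ≤ (r' : ℝ) / R' := by
      rw [div_le_div_iff₀ (by norm_num) hR']
      linarith
    have hc0 := hp.c0
    have hc1 := hp.c1
    have f2 : ((1 : ℝ) / 8) ^ (2 - c) ≤ ((r' : ℝ) / R') ^ (2 - c) :=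
      Real.rpow_le_rpow (by norm_num) f1 (by linarith)
    have f3 : ((1 : ℝ) / 8) ^ (2 : ℝ) ≤ ((1 : ℝ) / 8) ^ (2 - c) :=
      Real.rpow_le_rpow_of_exponent_ge (by norm_num) (by norm_num) (by linarith)
    have f4 : ((1 : ℝ) / 8) ^ (2 : ℝ) = 1 / 64 := by
      rw [Real.rpow_two]
      norm_num
    have f5 := hp.low r' R' h1 h4
    have f6 := hp.ap.le1 r R
    rw [mul_assoc]
    linarith

/-- `be L t r R` with changed radii: for `r < R` it is `cmpt` (`b = true`, `x = 0`, `TwoAt_zero`); for `r = R` it is `1` and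
`R' ≤ 8 r'`: `1 ≤ 64 C al L r' R' `; but `be L t r' R'` may be much smaller than `al`, so we need `r < R`. -/
theorem TP.be_cmp (hp : TP L C c R₀) {t : ℝ} (ht : 0 ≤ t) {r R r' R' : ℤ} (h0 : R₀ ≤ r)
    (h1 : R₀ ≤ r') (h2 : r < R) (h3 : r ≤ 2 * r') (h4 : r' ≤ R') (h5 : R' ≤ 4 * R) :
    be L t r R ≤ C * be L t r' R' := by
  have e : be L t r R = pr2 (kt t) (L.TwoAt true 0 r R) := by
    unfold be
    rw [if_pos h2]
    congr 1
    funext ω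
    exact propext (TwoAt_zero L true r R ω).symm
  rw [e]
  exact hp.cmpt t ht true 0 r R r' R' h0 h1 h2.le h3 h4 h5

/-- The function `m ^ 2 α(R₀, m)` grows at least like `m ^ c`:
`C al(R₀,n) ≥ al(R₀,m) al(m,n) ≥ al(R₀,m) C⁻¹ (m/n) ^ (2-c)` (`qmult`, `low`); multiply by `n ^ 2`. -/
theorem TP.growth (hp : TP L C c R₀) {m n : ℤ} (h1 : R₀ ≤ m) (h2 : m ≤ n) :
    ((m : ℝ) ^ 2 * al L R₀ m) * ((n : ℝ) / m) ^ c ≤ C ^ 2 * ((n : ℝ) ^ 2 * al L R₀ n) := by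
  have hC := hp.ap.C1
  have h16 := hp.ap.R16
  have hm : (0 : ℝ) < m := by exact_mod_cast (by omega : (0 : ℤ) < m)
  have hn : (0 : ℝ) < n := by exact_mod_cast (by omega : (0 : ℤ) < n)
  have a1 := hp.ap.qmult R₀ m n le_rfl h1 h2
  have a2 := hp.low m n h1 h2
  have a3 : 0 ≤ al L R₀ m := (hp.ap.pos R₀ m le_rfl h1).le
  have a4 : al L R₀ m * ((m : ℝ) / n) ^ (2 - c) ≤ C ^ 2 * al L R₀ n := by
    calc al L R₀ m * ((m : ℝ) / n) ^ (2 - c) ≤ al L R₀ m * (C * al L m n) :=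
          mul_le_mul_of_nonneg_left a2 a3
      _ = C * (al L R₀ m * al L m n) := by ring
      _ ≤ C * (C * al L R₀ n) := mul_le_mul_of_nonneg_left a1 (by linarith)
      _ = C ^ 2 * al L R₀ n := by ring
  have a5 : ((m : ℝ) / n) ^ (2 - c) = ((m : ℝ) / n) ^ 2 * ((n : ℝ) / m) ^ c := by
    rw [Real.rpow_sub (div_pos hm hn), Real.rpow_two, ← inv_div (n : ℝ) m,
      Real.inv_rpow (div_pos hn hm).le, div_inv_eq_mul]
  rw [a5] at a4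
  have a6 : (n : ℝ) ^ 2 * ((m : ℝ) / n) ^ 2 = (m : ℝ) ^ 2 := by
    rw [← mul_pow, mul_div_cancel₀ _ hn.ne']
  calc ((m : ℝ) ^ 2 * al L R₀ m) * ((n : ℝ) / m) ^ c
      = (n : ℝ) ^ 2 * (al L R₀ m * (((m : ℝ) / n) ^ 2 * ((n : ℝ) / m) ^ c)) := by
        rw [← a6]; ring
    _ ≤ (n : ℝ) ^ 2 * (C ^ 2 * al L R₀ n) := mul_le_mul_of_nonneg_left a4 (sq_nonneg _)
    _ = C ^ 2 * ((n : ℝ) ^ 2 * al L R₀ n) := by ring

/-- `growth` with `m = R₀` (`al L R₀ R₀ = 1`) -/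
theorem TP.growth0 (hp : TP L C c R₀) {n : ℤ} (h : R₀ ≤ n) :
    1 ≤ C ^ 2 * ((n : ℝ) ^ 2 * al L R₀ n) := by
  have h16 := hp.ap.R16
  have hR : (1 : ℝ) ≤ R₀ := by exact_mod_cast (by omega : (1 : ℤ) ≤ R₀)
  have hn : (R₀ : ℝ) ≤ n := by exact_mod_cast h
  have a1 := hp.growth le_rfl h
  have a2 : al L R₀ R₀ = 1 := by
    unfold al
    rw [if_neg (lt_irrefl _)]
  rw [a2, mul_one] at a1
  have a3 : (1 : ℝ) ≤ ((n : ℝ) / R₀) ^ c :=
    Real.one_le_rpow ((one_le_div (by linarith)).2 hn) hp.c0.le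
  have a4 : (1 : ℝ) ≤ (R₀ : ℝ) ^ 2 := one_le_pow₀ hR
  refine le_trans ?_ a1
  nlinarith [mul_le_mul a4 a3 zero_le_one (by linarith)]

/-- `1 ≤ t (ℓ² al)` and `0 ≤ al ≤ 1` -/
theorem TP.beyond_pos (hp : TP L C c R₀) {ℓ : ℤ} {t : ℝ} (h1 : R₀ ≤ ℓ) (h : Beyond L R₀ ℓ t) :
    0 < t ∧ 1 ≤ t * (ℓ : ℝ) ^ 2 := by
  have h16 := hp.ap.R16
  have a1 : 0 < al L R₀ ℓ := hp.ap.pos R₀ ℓ le_rfl h1
  have a2 : al L R₀ ℓ ≤ 1 := hp.ap.le1 _ _
  have a3 : 0 ≤ (ℓ : ℝ) ^ 2 * al L R₀ ℓ := mul_nonneg (sq_nonneg _) a1.le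
  unfold Beyond at h
  have ht : 0 < t := by
    by_contra hc
    have := mul_nonpos_of_nonpos_of_nonneg (not_lt.1 hc) a3
    linarith
  refine ⟨ht, h.trans ?_⟩
  exact mul_le_mul_of_nonneg_left (mul_le_of_le_one_right (sq_nonneg _) a2) ht.le

/-- `growth` (with `(n/m) ^ c ≥ 1`): beyond a larger scale up to the constant `C ^ 2` -/
theorem TP.beyond_up (hp : TP L C c R₀) {ℓ m : ℤ} {t : ℝ} (h1 : R₀ ≤ ℓ) (h2 : ℓ ≤ m)
    (h : Beyond L R₀ ℓ t) : 1 ≤ C ^ 2 * (t * ((m : ℝ) ^ 2 * al L R₀ m)) := by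
  have h16 := hp.ap.R16
  obtain ⟨ht, -⟩ := hp.beyond_pos h1 h
  have hl : (0 : ℝ) < ℓ := by exact_mod_cast (by omega : (0 : ℤ) < ℓ)
  have hm : (ℓ : ℝ) ≤ m := by exact_mod_cast h2
  have a1 := hp.growth h1 h2
  have a2 : (1 : ℝ) ≤ ((m : ℝ) / ℓ) ^ c :=
    Real.one_le_rpow ((one_le_div hl).2 hm) hp.c0.le
  have a3 : 0 ≤ (ℓ : ℝ) ^ 2 * al L R₀ ℓ :=
    mul_nonneg (sq_nonneg _) (hp.ap.pos R₀ ℓ le_rfl h1).le
  have a4 : (ℓ : ℝ) ^ 2 * al L R₀ ℓ ≤ C ^ 2 * ((m : ℝ) ^ 2 * al L R₀ m) :=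
    (le_mul_of_one_le_right a3 a2).trans a1
  unfold Beyond at h
  calc (1 : ℝ) ≤ t * ((ℓ : ℝ) ^ 2 * al L R₀ ℓ) := h
    _ ≤ t * (C ^ 2 * ((m : ℝ) ^ 2 * al L R₀ m)) := mul_le_mul_of_nonneg_left a4 ht.le
    _ = C ^ 2 * (t * ((m : ℝ) ^ 2 * al L R₀ m)) := by ring

/-- The product of the probabilities of two annuli around a ring of radius `ρ`: `al(r, ρ₁) ≤ 64 C al(r, ρ)` if
`ρ ≤ 4 ρ₁`, `al(ρ₂, R) ≤ 64 C al(ρ, R)` if `ρ₂ ≤ 2 ρ` (`al_cmp`), `qmult`. -/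
theorem TP.al_mul (hp : TP L C c R₀) {r ρ₁ ρ ρ₂ R : ℤ} (h0 : R₀ ≤ r) (h1 : r ≤ ρ₁) (h2 : ρ₁ ≤ ρ)
    (h3 : ρ ≤ 4 * ρ₁) (h4 : ρ ≤ ρ₂) (h5 : ρ₂ ≤ 2 * ρ) (h6 : ρ₂ ≤ R) :
    al L r ρ₁ * al L ρ₂ R ≤ (64 * C) ^ 3 * al L r R := by
  have hC := hp.ap.C1
  have h16 := hp.ap.R16
  have b1 : al L r ρ₁ ≤ 64 * C * al L r ρ :=
    hp.al_cmp h0 h0 h1 (by omega) (h1.trans h2) h3
  have b2 : al L ρ₂ R ≤ 64 * C * al L ρ R :=
    hp.al_cmp (by omega) (by omega) h6 h5 (h4.trans h6) (by omega)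
  have b3 := hp.ap.qmult r ρ R h0 (h1.trans h2) (h4.trans h6)
  have p1 : 0 ≤ al L r ρ := (hp.ap.pos r ρ h0 (h1.trans h2)).le
  have p2 : 0 ≤ al L ρ₂ R := (hp.ap.pos ρ₂ R (by omega) h6).le
  have p3 : 0 ≤ al L r R := (hp.ap.pos r R h0 (by omega)).le
  have hC0 : 0 ≤ 64 * C := by linarith
  calc al L r ρ₁ * al L ρ₂ R ≤ (64 * C * al L r ρ) * (64 * C * al L ρ R) :=
        mul_le_mul b1 b2 p2 (mul_nonneg hC0 p1)
    _ = (64 * C) ^ 2 * (al L r ρ * al L ρ R) := by ring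
    _ ≤ (64 * C) ^ 2 * (C * al L r R) := mul_le_mul_of_nonneg_left b3 (by positivity)
    _ ≤ (64 * C) ^ 2 * ((64 * C) * al L r R) := by
        refine mul_le_mul_of_nonneg_left (mul_le_mul_of_nonneg_right (by linarith) p3) (by positivity)
    _ = (64 * C) ^ 3 * al L r R := by ring

end TT

end SC
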