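import Mathlib

/-!
# MP_e0a489, module TTA 1: the bootstrap (real numbers only)
-/

set_option autoImplicit false

namespace SC

/-- BOOTSTRAP.  Put `S = ∑_i 2 ^ (-i c) < ∞` (`= 1 / (1 - 2 ^ (-c))`), `M = max (2 C₀) (C₃) + 1` (so `2 C₀ ≤ M`, `C₃ ≤ M`,
`1 ≤ M`), `Λ ≥ Λ₁`, `Λ ≥ 1` with `C₁ C₂ M S Λ ^ (-c) ≤ 1 / 2` (possible since `Λ ^ (-c) → 0`).
Claim: `F r R ≤ M G r R` for all `r`, `R` with `Λ ℓ ≤ r` (this includes the degenerate pairs `R ≤ r`); strong
induction on `(R - r).toNat`.  If `R ≤ 64 r`: `F ≤ 1 ≤ C₃ G`.  Otherwise use the hypothesis for `(r, R)`: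
for `i < n`, `F r (2^i r) ≤ M G r (2^i r)` (as `2^i r ≤ R / 4 < R`, so `2^i r - r < R - r`) and
`F (8 (2^i r)) R ≤ M G (8 (2^i r)) R` (as `8 (2^i r) > r`, so `R - 8 (2^i r) < R - r`; when both numbers `toNat` are compared, note
`0 < R - r`), so with the product hypothesis (`ρ = 2^i r ≤ R`) every product is at most `M² C₂ G r R`, and
`(ℓ / (2^i r)) ^ c ≤ Λ ^ (-c) 2 ^ (-i c)` because `Λ ℓ ≤ r`.  Hence
`F r R ≤ C₀ G + C₁ M² C₂ G Λ ^ (-c) S ≤ (M / 2) G + (M / 2) G`. -/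
theorem boot_real {C₀ C₁ C₂ C₃ c : ℝ} (Λ₁ : ℤ) (h0 : 0 ≤ C₀) (h1 : 0 ≤ C₁) (h2 : 0 ≤ C₂)
    (h3 : 0 ≤ C₃) (hc : 0 < c) : ∃ (M : ℝ) (Λ : ℤ), 0 < M ∧ 1 ≤ Λ ∧
    ∀ (ℓ : ℤ) (F G : ℤ → ℤ → ℝ), 1 ≤ ℓ →
      (∀ r R, 0 ≤ F r R ∧ F r R ≤ 1) → (∀ r R, ℓ ≤ r → 0 < G r R) →
      (∀ r R, ℓ ≤ r → R ≤ 64 * r → 1 ≤ C₃ * G r R) →
      (∀ r ρ R, ℓ ≤ r → r ≤ ρ → ρ ≤ R → G r ρ * G (8 * ρ) R ≤ C₂ * G r R) →
      (∀ r R, Λ₁ * ℓ ≤ r → ℓ ≤ r → 64 * r < R → ∃ n : ℕ,
        (∀ i : ℕ, i < n → 2 ^ (i + 2) * r ≤ R) ∧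
        F r R ≤ C₀ * G r R + C₁ * ∑ i ∈ Finset.range n,
          ((ℓ : ℝ) / ((2 : ℝ) ^ i * r)) ^ c * (F r (2 ^ i * r) * F (8 * (2 ^ i * r)) R)) →
      ∀ r R, Λ * ℓ ≤ r → F r R ≤ M * G r R := by
  set M : ℝ := max (2 * C₀) C₃ + 1 with hM
  have hM0 : 2 * C₀ ≤ M := by
    have := le_max_left (2 * C₀) C₃
    linarith
  have hM3 : C₃ ≤ M := by
    have := le_max_right (2 * C₀) C₃
    linarith
  have hMpos : 0 < M := by
    have := le_max_right (2 * C₀) C₃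
    linarith
  set q : ℝ := (2 : ℝ) ^ (-c) with hq
  have hq0 : 0 < q := Real.rpow_pos_of_pos (by norm_num) _
  have hq1 : q < 1 := Real.rpow_lt_one_of_one_lt_of_neg (by norm_num) (by linarith)
  set S : ℝ := (1 - q)⁻¹ with hS
  have hS0 : 0 < S := inv_pos.mpr (by linarith)
  -- choice of Λ
  have hlim : Filter.Tendsto (fun x : ℝ => C₁ * C₂ * M * S * x ^ (-c)) Filter.atTop (nhds 0) := by
    have h := (tendsto_rpow_neg_atTop hc).const_mul (C₁ * C₂ * M * S)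
    simpa using h
  have hev : ∀ᶠ x : ℝ in Filter.atTop, C₁ * C₂ * M * S * x ^ (-c) < 1 / 2 :=
    hlim.eventually_lt_const (by norm_num)
  obtain ⟨x₀, hx₀⟩ := Filter.eventually_atTop.mp hev
  set Λ : ℤ := max 1 (max Λ₁ ⌈x₀⌉) with hΛ
  have hΛ1 : 1 ≤ Λ := le_max_left _ _
  have hΛ2 : Λ₁ ≤ Λ := le_trans (le_max_left _ _) (le_max_right _ _)
  have hΛ3 : x₀ ≤ (Λ : ℝ) := by
    have h := le_trans (le_max_right Λ₁ ⌈x₀⌉) (le_max_right (1 : ℤ) (max Λ₁ ⌈x₀⌉))
    exact le_trans (Int.le_ceil x₀) (by exact_mod_cast h)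
  have hΛR : (1 : ℝ) ≤ (Λ : ℝ) := by exact_mod_cast hΛ1
  have hkey : C₁ * C₂ * M * S * (Λ : ℝ) ^ (-c) ≤ 1 / 2 := (hx₀ _ hΛ3).le
  refine ⟨M, Λ, hMpos, hΛ1, ?_⟩
  intro ℓ F G hℓ hF hG hG3 hGG hrec
  have main : ∀ N : ℕ, ∀ r R : ℤ, (R - r).toNat ≤ N → Λ * ℓ ≤ r → F r R ≤ M * G r R := by
    intro N
    induction N using Nat.strong_induction_on with
    | _ N ih =>
      intro r R hN hr
      have hℓr : ℓ ≤ r := by nlinarith
      have hrpos : 0 < r := by linarith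
      have hGr := hG r R hℓr
      by_cases hR : R ≤ 64 * r
      · have h3' := hG3 r R hℓr hR
        calc F r R ≤ 1 := (hF r R).2
          _ ≤ C₃ * G r R := h3'
          _ ≤ M * G r R := mul_le_mul_of_nonneg_right hM3 hGr.le
      · have hR' : 64 * r < R := not_le.mp hR
        have hΛ₁r : Λ₁ * ℓ ≤ r := le_trans (mul_le_mul_of_nonneg_right hΛ2 (by linarith)) hr
        obtain ⟨n, hn, hFle⟩ := hrec r R hΛ₁r hℓr hR'
        have hterm : ∀ i ∈ Finset.range n,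
            ((ℓ : ℝ) / ((2 : ℝ) ^ i * r)) ^ c * (F r (2 ^ i * r) * F (8 * (2 ^ i * r)) R)
              ≤ ((Λ : ℝ) ^ (-c) * (M * M * C₂ * G r R)) * q ^ i := by
          intro i hi
          have hi' := hn i (Finset.mem_range.mp hi)
          have h2i : (1 : ℤ) ≤ 2 ^ i := one_le_pow₀ (by norm_num)
          obtain ⟨ρ, hρ⟩ : ∃ ρ : ℤ, ρ = 2 ^ i * r := ⟨_, rfl⟩
          have hrρ : r ≤ ρ := by rw [hρ]; nlinarith
          have h4ρ : 4 * ρ ≤ R := by
            have : (2 : ℤ) ^ (i + 2) * r = 4 * ρ := by rw [hρ]; ring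
            linarith
          have hρR : ρ ≤ R := by linarith
          have hA : F r ρ ≤ M * G r ρ := by
            refine ih (ρ - r).toNat ?_ r ρ le_rfl hr
            omega
          have hB : F (8 * ρ) R ≤ M * G (8 * ρ) R := by
            refine ih (R - 8 * ρ).toNat ?_ (8 * ρ) R le_rfl (by linarith)
            omega
          have hprod : F r ρ * F (8 * ρ) R ≤ M * M * C₂ * G r R := by
            have h1' : F r ρ * F (8 * ρ) R ≤ (M * G r ρ) * (M * G (8 * ρ) R) :=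
              mul_le_mul hA hB (hF _ _).1 (le_trans (hF _ _).1 hA)
            have h2' := hGG r ρ R hℓr hrρ hρR
            have h3' : (M * M) * (G r ρ * G (8 * ρ) R) ≤ (M * M) * (C₂ * G r R) :=
              mul_le_mul_of_nonneg_left h2' (by positivity)
            calc F r ρ * F (8 * ρ) R ≤ (M * G r ρ) * (M * G (8 * ρ) R) := h1'
              _ = (M * M) * (G r ρ * G (8 * ρ) R) := by ring
              _ ≤ (M * M) * (C₂ * G r R) := h3'
              _ = M * M * C₂ * G r R := by ring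
          have hrR : (0 : ℝ) < (r : ℝ) := by exact_mod_cast hrpos
          have hℓR : (0 : ℝ) < (ℓ : ℝ) := by
            have : (1 : ℝ) ≤ (ℓ : ℝ) := by exact_mod_cast hℓ
            linarith
          have hfac : ((ℓ : ℝ) / ((2 : ℝ) ^ i * r)) ^ c ≤ (Λ : ℝ) ^ (-c) * q ^ i := by
            have hle : (ℓ : ℝ) / ((2 : ℝ) ^ i * r) ≤ ((Λ : ℝ) * 2 ^ i)⁻¹ := by
              rw [div_le_iff₀ (by positivity), inv_mul_eq_div, le_div_iff₀ (by positivity)]
              have hrc : (Λ : ℝ) * ℓ ≤ r := by exact_mod_cast hr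
              have h2p : (0 : ℝ) < (2 : ℝ) ^ i := by positivity
              nlinarith [mul_le_mul_of_nonneg_left hrc h2p.le]
            have h0' : (0 : ℝ) ≤ (ℓ : ℝ) / ((2 : ℝ) ^ i * r) := by positivity
            refine le_trans (Real.rpow_le_rpow h0' hle hc.le) (le_of_eq ?_)
            rw [Real.inv_rpow (by positivity), Real.mul_rpow (by linarith) (by positivity),
              mul_inv, Real.rpow_neg (by linarith), hq, Real.rpow_neg (by norm_num), inv_pow,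
              ← Real.rpow_natCast (2 : ℝ) i, ← Real.rpow_mul (by norm_num), mul_comm (i : ℝ) c,
              Real.rpow_mul (by norm_num), Real.rpow_natCast]
          rw [← hρ]
          have hq' : 0 ≤ (Λ : ℝ) ^ (-c) * q ^ i :=
            mul_nonneg (Real.rpow_nonneg (by linarith) _) (pow_nonneg hq0.le _)
          calc ((ℓ : ℝ) / ((2 : ℝ) ^ i * r)) ^ c * (F r ρ * F (8 * ρ) R)
              ≤ ((Λ : ℝ) ^ (-c) * q ^ i) * (M * M * C₂ * G r R) :=
                mul_le_mul hfac hprod (mul_nonneg (hF _ _).1 (hF _ _).1) hq'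
            _ = ((Λ : ℝ) ^ (-c) * (M * M * C₂ * G r R)) * q ^ i := by ring
        have hsum := Finset.sum_le_sum hterm
        rw [← Finset.mul_sum] at hsum
        have hgeo : ∑ i ∈ Finset.range n, q ^ i ≤ S := by
          rw [hS, ← tsum_geometric_of_lt_one hq0.le hq1]
          exact (summable_geometric_of_lt_one hq0.le hq1).sum_le_tsum (Finset.range n)
            (fun i _ => pow_nonneg hq0.le i)
        have hcoef : 0 ≤ (Λ : ℝ) ^ (-c) * (M * M * C₂ * G r R) := by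
          have : 0 ≤ (Λ : ℝ) ^ (-c) := Real.rpow_nonneg (by linarith) _
          positivity
        have h5 : ∑ i ∈ Finset.range n,
            ((ℓ : ℝ) / ((2 : ℝ) ^ i * r)) ^ c * (F r (2 ^ i * r) * F (8 * (2 ^ i * r)) R)
              ≤ ((Λ : ℝ) ^ (-c) * (M * M * C₂ * G r R)) * S :=
          le_trans hsum (mul_le_mul_of_nonneg_left hgeo hcoef)
        have h6 : C₁ * ∑ i ∈ Finset.range n,
            ((ℓ : ℝ) / ((2 : ℝ) ^ i * r)) ^ c * (F r (2 ^ i * r) * F (8 * (2 ^ i * r)) R)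
              ≤ (M / 2) * G r R := by
          refine le_trans (mul_le_mul_of_nonneg_left h5 h1) ?_
          have h7 : (C₁ * C₂ * M * S * (Λ : ℝ) ^ (-c)) * (M * G r R) ≤ (1 / 2) * (M * G r R) :=
            mul_le_mul_of_nonneg_right hkey (by positivity)
          calc C₁ * (((Λ : ℝ) ^ (-c) * (M * M * C₂ * G r R)) * S)
              = (C₁ * C₂ * M * S * (Λ : ℝ) ^ (-c)) * (M * G r R) := by ring
            _ ≤ (1 / 2) * (M * G r R) := h7
            _ = (M / 2) * G r R := by ring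
        have h8 : C₀ * G r R ≤ (M / 2) * G r R :=
          mul_le_mul_of_nonneg_right (by linarith) hGr.le
        linarith
  intro r R hr
  exact main _ r R le_rfl hr

end SC
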