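import Pool.Agent.Lib_MP_e0a489.TTHD
import Pool.Agent.Lib_MP_e0a489.XP1

/-!
# MP_e0a489, module TTA 2: the graded sets `ttV` and the shells `ttSh`
-/

set_option autoImplicit false

namespace SC

open Classical

variable {Q : Set Pt} {q : ℝ} {r R : ℤ}

private theorem tta2_rect (R : ℤ) (v : Pt) : v ∈ rectF (-R) R (-R) R ↔ nrm v ≤ R := by
  unfold rectF nrm
  rw [Finset.mem_product, Finset.mem_Icc, Finset.mem_Icc, max_le_iff, abs_le, abs_le]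

private theorem tta2_mem {j : ℕ} {v : Pt} : v ∈ ttV Q q r R j ↔ nrm v ≤ R ∧ v ∈ Q ∧
    2 * (r : ℝ) * (2 - q ^ j) < (nrm v : ℝ) ∧ (nrm v : ℝ) ≤ (R : ℝ) / 4 * (1 + q ^ j) := by
  unfold ttV
  rw [Finset.mem_filter, tta2_rect]

private theorem tta2_sh {ρ : ℤ} {v : Pt} :
    v ∈ ttSh Q ρ ↔ v ∈ Q ∧ ρ < nrm v ∧ nrm v ≤ 2 * ρ := by
  unfold ttSh
  rw [Finset.mem_filter, tta2_rect]
  exact ⟨fun h => h.2, fun h => ⟨h.2.2, h⟩⟩

/-- `q ^ (j+1) ≤ q ^ j` -/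
theorem ttV_anti (hq : 0 ≤ q ∧ q ≤ 1) (hr : 0 ≤ r) (hR : 0 ≤ R) (j : ℕ) :
    ttV Q q r R (j + 1) ⊆ ttV Q q r R j := by
  intro v hv
  rw [tta2_mem] at hv ⊢
  obtain ⟨h1, h2, h3, h4⟩ := hv
  have hp : q ^ (j + 1) ≤ q ^ j := pow_le_pow_of_le_one hq.1 hq.2 (Nat.le_succ j)
  have hr' : (0 : ℝ) ≤ r := by exact_mod_cast hr
  have hR' : (0 : ℝ) ≤ R := by exact_mod_cast hR
  refine ⟨h1, h2, ?_, ?_⟩
  · nlinarith
  · nlinarith

/-- `q ^ (j+1) < 1` gives `2 r < nrm v`, `2 nrm v < R` for `j + 1 ≥ 1`. -/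
theorem ttV_mem (hq : 0 ≤ q ∧ q < 1) (hr : 1 ≤ r) (hR : 1 ≤ R) {j : ℕ} {v : Pt}
    (hv : v ∈ ttV Q q r R (j + 1)) : v ∈ Q ∧ 2 * r < nrm v ∧ 2 * nrm v ≤ R := by
  rw [tta2_mem] at hv
  obtain ⟨h1, h2, h3, h4⟩ := hv
  have hp : q ^ (j + 1) < 1 := pow_lt_one₀ hq.1 hq.2 (Nat.succ_ne_zero j)
  have hr' : (1 : ℝ) ≤ r := by exact_mod_cast hr
  have hR' : (1 : ℝ) ≤ R := by exact_mod_cast hR
  refine ⟨h2, ?_, ?_⟩
  · have h5 : (2 * r : ℝ) < nrm v := by nlinarith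
    exact_mod_cast h5
  · have h5 : (2 * nrm v : ℝ) ≤ R := by nlinarith
    exact_mod_cast h5

/-- `2 r (2 - q ^ n) ≤ 4 r`, `R / 4 ≤ (R / 4) (1 + q ^ n)`; in the hypothesis `R / 4` is the integer quotient -/
theorem ttV_sup (hq : 0 ≤ q ∧ q < 1) (hr : 0 ≤ r) (n : ℕ) {v : Pt} (hv : v ∈ Q)
    (h1 : 4 * r < nrm v) (h2 : nrm v ≤ R / 4) : v ∈ ttV Q q r R n := by
  rw [tta2_mem]
  have hp : 0 ≤ q ^ n := pow_nonneg hq.1 n
  have hr' : (0 : ℝ) ≤ r := by exact_mod_cast hr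
  have h3 : 4 * nrm v ≤ R := by omega
  have h4 : 0 ≤ nrm v := XP.nrm_nonneg' v
  have h3' : (4 * nrm v : ℝ) ≤ R := by exact_mod_cast h3
  have h4' : (0 : ℝ) ≤ nrm v := by exact_mod_cast h4
  have h1' : (4 * r : ℝ) < nrm v := by exact_mod_cast h1
  refine ⟨by omega, hv, ?_, ?_⟩
  · nlinarith
  · have hR' : (0 : ℝ) ≤ R := by linarith
    nlinarith

/-- `x - 1 < ⌊x⌋ ≤ x`, `(1 - q) / 8 * q ^ j ≤ 1 / 8` -/
theorem ttR_le (hq : 0 ≤ q ∧ q < 1) {ρ : ℤ} (hρ : 0 ≤ ρ) (j : ℕ) : 8 * ttR q ρ j ≤ ρ := by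
  unfold ttR
  have h1 := Int.floor_le ((1 - q) / 8 * q ^ j * ρ)
  have hρ' : (0 : ℝ) ≤ ρ := by exact_mod_cast hρ
  have hp : 0 ≤ q ^ j := pow_nonneg hq.1 j
  have hp1 : q ^ j ≤ 1 := pow_le_one₀ hq.1 hq.2.le
  have h2 : (1 - q) * q ^ j ≤ 1 := by nlinarith [hq.1, hq.2]
  have h3 : (8 * (⌊(1 - q) / 8 * q ^ j * ρ⌋ : ℤ) : ℝ) ≤ ρ := by nlinarith
  exact_mod_cast h3

theorem ttR_gt (q : ℝ) (ρ : ℤ) (j : ℕ) : (1 - q) / 8 * q ^ j * ρ < ttR q ρ j + 1 :=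
  Int.lt_floor_add_one _

/-- The balls around the sites of the `j + 1`-st set lie in the `j`-th set.  Let `x = nrm v`, `y = nrm z`,
`D = ttR q ρ j ≤ c q ^ j x`, `c = (1 - q) / 8` (as `ρ < x`); `|y - x| ≤ D` (`XP.nrm_tri`).  Lower bound: `a < x` with `a = 2 r (2 - q ^ (j+1))`, so
`y ≥ x (1 - c q ^ j) > a (1 - c q ^ j) ≥ 2 r (2 - q ^ j)` because `a - 2 r (2 - q ^ j) = 2 r q ^ j (1 - q)` and
`a c q ^ j ≤ 4 r c q ^ j ≤ 2 r q ^ j (1 - q)`.  Upper bound: `x ≤ b = (R / 4) (1 + q ^ (j+1)) ≤ R / 2`, so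
`y ≤ x (1 + c q ^ j) ≤ b + (R / 2) c q ^ j ≤ (R / 4) (1 + q ^ j)`.  And `z ∈ rectF (-R) R (-R) R` as `y ≤ R / 2 ≤ R`. -/
theorem ttV_ball (hq : 0 ≤ q ∧ q < 1) (hr : 0 ≤ r) (hR : 0 ≤ R) {j : ℕ} {ρ : ℤ} {v z : Pt}
    (hv : v ∈ ttV Q q r R (j + 1)) (hρ0 : 0 ≤ ρ) (hρ : ρ < nrm v) (hz : z ∈ Q)
    (hz' : nrm (z - v) ≤ ttR q ρ j) : z ∈ ttV Q q r R j := by
  rw [tta2_mem] at hv ⊢
  obtain ⟨h1, h2, h3, h4⟩ := hv
  have e1 : nrm z ≤ nrm (z - v) + nrm v := by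
    have := XP.nrm_add (z - v) v
    rwa [sub_add_cancel] at this
  have e2 : nrm v ≤ nrm (z - v) + nrm z := by
    have := XP.nrm_add (v - z) z
    rwa [sub_add_cancel, XP.nrm_comm] at this
  have hD : ((ttR q ρ j : ℤ) : ℝ) ≤ (1 - q) / 8 * q ^ j * ρ := Int.floor_le _
  obtain ⟨x, hx⟩ : ∃ x : ℝ, x = (nrm v : ℝ) := ⟨_, rfl⟩
  obtain ⟨y, hy⟩ : ∃ y : ℝ, y = (nrm z : ℝ) := ⟨_, rfl⟩
  obtain ⟨p, hp⟩ : ∃ p : ℝ, p = q ^ j := ⟨_, rfl⟩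
  obtain ⟨D, hDD⟩ : ∃ D : ℝ, D = ((ttR q ρ j : ℤ) : ℝ) := ⟨_, rfl⟩
  have hp0 : 0 ≤ p := by rw [hp]; exact pow_nonneg hq.1 j
  have hp1 : p ≤ 1 := by rw [hp]; exact pow_le_one₀ hq.1 hq.2.le
  have hr' : (0 : ℝ) ≤ r := by exact_mod_cast hr
  have hR' : (0 : ℝ) ≤ R := by exact_mod_cast hR
  have hρx : (ρ : ℝ) ≤ x := by rw [hx]; exact_mod_cast hρ.le
  have hρ0' : (0 : ℝ) ≤ ρ := by exact_mod_cast hρ0
  have hx0 : 0 ≤ x := hρ0'.trans hρx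
  rw [← hDD, ← hp] at hD
  have h1q : 0 < 1 - q := by linarith [hq.2]
  have hcp : 0 ≤ (1 - q) / 8 * p := by positivity
  have hcp8 : (1 - q) / 8 * p ≤ 1 / 8 := by nlinarith [hq.1]
  have hD2 : D ≤ (1 - q) / 8 * p * x := hD.trans (mul_le_mul_of_nonneg_left hρx hcp)
  have f1 : y ≤ D + x := by
    rw [hy, hDD, hx]
    have : nrm z ≤ ttR q ρ j + nrm v := by omega
    exact_mod_cast this
  have f2 : x ≤ D + y := by
    rw [hy, hDD, hx]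
    have : nrm v ≤ ttR q ρ j + nrm z := by omega
    exact_mod_cast this
  rw [pow_succ, ← hp, ← hx] at h3 h4
  rw [← hp, ← hy]
  -- lower bound
  have g1 : 2 * (r : ℝ) * (2 - p) < y := by
    have k1 : x * (1 - (1 - q) / 8 * p) ≤ y := by linarith
    have k2 : 2 * (r : ℝ) * (2 - p * q) * (1 - (1 - q) / 8 * p) <
        x * (1 - (1 - q) / 8 * p) := mul_lt_mul_of_pos_right h3 (by linarith)
    have k3 : 0 ≤ (r : ℝ) * (p * (1 - q)) := by positivity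
    have k4 : 0 ≤ (r : ℝ) * (p * (1 - q)) * (p * q) := by
      have := hq.1
      positivity
    nlinarith
  -- upper bound
  have g2 : y ≤ (R : ℝ) / 4 * (1 + p) := by
    have k0 : p * q ≤ 1 := by nlinarith [hq.1, hq.2]
    have k1 : x ≤ (R : ℝ) / 2 := by nlinarith
    have k2 : D ≤ (1 - q) / 8 * p * ((R : ℝ) / 2) := hD2.trans (mul_le_mul_of_nonneg_left k1 hcp)
    have k3 : 0 ≤ (R : ℝ) * (p * (1 - q)) := by positivity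
    nlinarith
  refine ⟨?_, hz, g1, g2⟩
  have g3 : y ≤ (R : ℝ) := by nlinarith
  rw [hy] at g3
  exact_mod_cast g3

/-- DECOMPOSITION INTO SHELLS.  `n` = the least number with `R < 2 ^ (n+2) r` (it exists as `r ≥ 1`).  For
`i < n`: `2 ^ (i+2) r ≤ R`.  Every `v ∈ V` is in the shell `i` with `2 ^ (i+1) r < nrm v ≤ 2 ^ (i+2) r` (`i` = the
least number with `nrm v ≤ 2 ^ (i+2) r`; if `i = 0` use `2 r < nrm v`), and `2 ^ (i+2) r < 2 nrm v ≤ R`, so `i < n`.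
Then `∑_V f ≤ ∑_{i < n} ∑_{V ∩ shell i} f` (`Finset.sum_le_sum_of_subset_of_nonneg` and `Finset.sum_biUnion_le`-type
argument: `V ⊆ ⋃_{i<n} (V ∩ shell i)`; for `f ≥ 0` the sum over a union is at most the sum of the sums). -/
theorem tt_shells (hr : 1 ≤ r) : ∃ n : ℕ, (∀ i : ℕ, i < n → 2 ^ (i + 2) * r ≤ R) ∧
    ∀ (V : Finset Pt) (f : Pt → ℝ), (∀ v, 0 ≤ f v) →
      (∀ v ∈ V, v ∈ Q ∧ 2 * r < nrm v ∧ 2 * nrm v ≤ R) →
      ∑ v ∈ V, f v ≤ ∑ i ∈ Finset.range n,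
        ∑ v ∈ V.filter (fun v => v ∈ ttSh Q (2 ^ (i + 1) * r)), f v := by
  have hex : ∀ x : ℤ, ∃ n : ℕ, x < 2 ^ (n + 2) * r := by
    intro x
    refine ⟨x.toNat, ?_⟩
    have h1 : (x.toNat : ℤ) < 2 ^ x.toNat := by exact_mod_cast Nat.lt_two_pow_self
    have h2 : x ≤ (x.toNat : ℤ) := Int.self_le_toNat x
    rw [pow_add]
    nlinarith
  refine ⟨Nat.find (hex R), fun i hi => not_lt.1 (Nat.find_min (hex R) hi), ?_⟩
  intro V f hf hV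
  have hN := Nat.find_spec (hex R)
  have hsh : ∀ v ∈ V, ∃ i ∈ Finset.range (Nat.find (hex R)), v ∈ ttSh Q (2 ^ (i + 1) * r) := by
    intro v hv
    obtain ⟨a1, a2, a3⟩ := hV v hv
    have hexv : ∃ i : ℕ, nrm v ≤ 2 ^ (i + 2) * r := (hex (nrm v)).imp fun _ h => h.le
    obtain ⟨i, hi1, hi2⟩ : ∃ i : ℕ, nrm v ≤ 2 ^ (i + 2) * r ∧ 2 ^ (i + 1) * r < nrm v := by
      refine ⟨Nat.find hexv, Nat.find_spec hexv, ?_⟩
      rcases Nat.eq_zero_or_pos (Nat.find hexv) with h0 | h0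
      · rw [h0]
        simpa using a2
      · have h1 := Nat.find_min hexv (m := Nat.find hexv - 1) (by omega)
        rw [show Nat.find hexv - 1 + 2 = Nat.find hexv + 1 by omega] at h1
        exact not_le.1 h1
    refine ⟨i, ?_, ?_⟩
    · rw [Finset.mem_range]
      by_contra hc
      have h1 : (2 : ℤ) ^ (Nat.find (hex R) + 2) ≤ 2 ^ (i + 2) :=
        pow_le_pow_right₀ (by norm_num) (by omega)
      have h2 : (2 : ℤ) ^ (i + 2) = 2 * 2 ^ (i + 1) := by ring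
      nlinarith
    · rw [tta2_sh]
      refine ⟨a1, hi2, ?_⟩
      have h2 : (2 : ℤ) ^ (i + 2) = 2 * 2 ^ (i + 1) := by ring
      rw [h2] at hi1
      linarith
  have e : ∑ i ∈ Finset.range (Nat.find (hex R)),
      ∑ v ∈ V.filter (fun v => v ∈ ttSh Q (2 ^ (i + 1) * r)), f v =
      ∑ v ∈ V, ∑ i ∈ Finset.range (Nat.find (hex R)),
        (if v ∈ ttSh Q (2 ^ (i + 1) * r) then f v else 0) := by
    rw [Finset.sum_comm]
    refine Finset.sum_congr rfl fun i _ => ?_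
    rw [Finset.sum_filter]
  rw [e]
  refine Finset.sum_le_sum fun v hv => ?_
  obtain ⟨i, hi, hi'⟩ := hsh v hv
  have h1 := Finset.single_le_sum (s := Finset.range (Nat.find (hex R)))
    (f := fun i : ℕ => if v ∈ ttSh Q (2 ^ (i + 1) * r) then f v else 0)
    (fun k _ => by
      show 0 ≤ (if v ∈ ttSh Q (2 ^ (k + 1) * r) then f v else 0)
      split_ifs
      · exact hf v
      · exact le_refl _) hi
  have h2 : (if v ∈ ttSh Q (2 ^ (i + 1) * r) then f v else 0) = f v := if_pos hi'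
  calc f v = (if v ∈ ttSh Q (2 ^ (i + 1) * r) then f v else 0) := h2.symm
    _ ≤ _ := h1

end SC
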