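import Pool.Agent.Lib_MP_e0a489.SE1
import Pool.Agent.Lib_MP_e0a489.TTHD
import Pool.Agent.Lib_MP_e0a489.XP1

/-!
# MP_e0a489, module TTA 3: the pivotal sites factorize
-/

set_option autoImplicit false

namespace SC

open Classical

variable {Q : Set Pt} {E : ℤ → ℤ → Cfg → Prop} {W : Bool → Pt → ℤ → Cfg → Prop}

private theorem tta3_dep (h : CrE Q E W) (a b : ℤ) :
    Dep (fun ω => a < b → E a b ω) (ann a b ∩ Q) :=
  (h.dep a b).comp (fun P => (a < b → P))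

private theorem tta3_nn (A : Cfg → Prop) (ω : Cfg) : 0 ≤ ind A ω := by
  unfold ind
  split_ifs
  · exact zero_le_one
  · exact le_refl _

private theorem tta3_true (κ : Pt → ℝ) : pr2 κ (fun _ => True) = 1 := by
  have h1 : Dep (ind (fun _ => True)) (∅ : Set Pt) := by
    intro ω ω' _
    rfl
  have h2 : Lf (ind (fun _ => True)) := ⟨∅, by
    intro ω ω' _
    rfl⟩
  unfold pr2
  rw [ex2_one h2 h2 h1 κ (fun v hv => absurd hv (Set.notMem_empty v))]
  have h3 : (fun ω => ind (fun _ => True) ω * ind (fun _ => True) ω) = fun _ : Cfg => (1 : ℝ) := by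
    funext ω
    unfold ind
    rw [if_pos trivial, mul_one]
  rw [h3]
  exact ex_const 1

private theorem tta3_crF (κ : Pt → ℝ) (a b : ℤ) :
    pr2 κ (fun ω => a < b → E a b ω) = crF E κ a b := by
  unfold crF
  by_cases hab : a < b
  · rw [if_pos hab]
    congr 1
    funext ω
    exact propext ⟨fun h => h hab, fun h _ => h⟩
  · rw [if_neg hab]
    have e : (fun ω => a < b → E a b ω) = fun _ => True := by
      funext ω
      exact propext ⟨fun _ => trivial, fun _ h => absurd h hab⟩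
    rw [e]
    exact tta3_true κ

/-- If `v` is pivotal for `E r R` then `E r R` holds for `update ω v true` or for `update ω v false`, hence
(`CrE.mono`) `E r' R'` holds for this configuration, hence (`CrE.dep`, `v ∉ ann r' R'`) for `ω`. -/
theorem CrE.piv_ann (h : CrE Q E W) {r R r' R' : ℤ} {v : Pt} {ω : Cfg} (hr : 0 ≤ r)
    (h1 : r ≤ r') (h2 : r' < R') (h3 : R' ≤ R) (hv : v ∉ ann r' R') (hp : Piv v (E r R) ω) :
    E r' R' ω := by
  have h0 : ∃ b, E r R (Function.update ω v b) := by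
    by_contra hn
    push Not at hn
    exact hp ⟨fun h => absurd h (hn true), fun h => absurd h (hn false)⟩
  obtain ⟨b, hb⟩ := h0
  have h4 := h.mono r R r' R' _ hr h1 h2 h3 hb
  have h5 : E r' R' (Function.update ω v b) = E r' R' ω := by
    refine h.dep r' R' _ _ (fun u hu => ?_)
    have hne : u ≠ v := fun he => hv (he ▸ hu.1)
    rw [Function.update_of_ne hne]
  rw [← h5]
  exact h4

/-- a finite set containing the annulus / the ball (`rectF`), so the events are local -/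
theorem CrE.loc (h : CrE Q E W) (r R : ℤ) : Loc (E r R) := by
  refine ⟨rectF (-R) R (-R) R, (h.dep r R).mono ?_⟩
  rintro z ⟨⟨-, hz⟩, -⟩
  have h1 : |z.1| ≤ nrm z := le_max_left _ _
  have h2 : |z.2| ≤ nrm z := le_max_right _ _
  rw [abs_le] at h1 h2
  unfold rectF
  rw [Finset.mem_coe, Finset.mem_product, Finset.mem_Icc, Finset.mem_Icc]
  exact ⟨⟨by linarith, by linarith⟩, by linarith, by linarith⟩

theorem CrE.locW (h : CrE Q E W) (b : Bool) (v : Pt) (D : ℤ) : Loc (W b v D) := by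
  refine ⟨rectF (v.1 - D) (v.1 + D) (v.2 - D) (v.2 + D), (h.depW b v D).mono ?_⟩
  rintro z ⟨hz, -⟩
  have hz' : nrm (z - v) ≤ D := hz
  have h1 : |z.1 - v.1| ≤ nrm (z - v) := le_max_left _ _
  have h2 : |z.2 - v.2| ≤ nrm (z - v) := le_max_right _ _
  rw [abs_le] at h1 h2
  unfold rectF
  rw [Finset.mem_coe, Finset.mem_product, Finset.mem_Icc, Finset.mem_Icc]
  exact ⟨⟨by linarith, by linarith⟩, by linarith, by linarith⟩

private theorem tta3_loc (h : CrE Q E W) (a b : ℤ) : Loc (fun ω => a < b → E a b ω) := by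
  obtain ⟨F, hF⟩ := h.loc a b
  exact ⟨F, hF.comp (fun P => (a < b → P))⟩

/-- FACTORIZATION.  `Piv v (E r R)` implies `E r ρ` (if `r < ρ`), `E (8 ρ) R` (if `8 ρ < R`) (`piv_ann`) and `W true v D` or
`W false v D` (`CrE.piv`: `r + 1 + D ≤ 2 ρ + 1 ≤ nrm v` as `4 D ≤ ρ`, `nrm v + D ≤ 2 nrm v ≤ R`).  Let
`A ω = (r < ρ → E r ρ ω) ∧ (8 ρ < R → E (8 ρ) R ω)`, `A_b = A ∧ W b v D`.  `ind (Piv v (E r R)) ≤ ind A_true + ind A_false`;
`ex2_mono`, `ex2_add_le`: `pr2 κ (Piv ..) ≤ 2 pr2 κ A_true + 2 pr2 κ A_false`.  The three events depend on the disjoint sets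
`ann r ρ`, `ann (8 ρ) R`, `bxAt v D` (for `z ∈ bxAt v D`: `ρ < 2 ρ - D < nrm z ≤ 4 ρ + D ≤ 8 ρ`; `XP.nrm_tri`), so by
`ex2_mul` (`ind (A ∧ B) = ind A * ind B`) `pr2 κ A_b = crF E κ r ρ * crF E κ (8 ρ) R * pr2 κ (W b v D)`; an event which is
always true has `pr2 = 1` (constant function; `ex2_one` or `ex2_eq`). -/
theorem piv_fac (h : CrE Q E W) {κ : Pt → ℝ} (hκ : ∀ v, 0 ≤ κ v ∧ κ v ≤ 1) {r R ρ D : ℤ}
    {v : Pt} (hr : 1 ≤ r) (hρ : r ≤ ρ) (hv : v ∈ Q) (h1 : 2 * ρ < nrm v) (h2 : nrm v ≤ 4 * ρ)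
    (h3 : 4 * D ≤ ρ) (h4 : 2 * nrm v ≤ R) :
    pr2 κ (Piv v (E r R)) ≤ 2 * (crF E κ r ρ * crF E κ (8 * ρ) R *
      (pr2 κ (W true v D) + pr2 κ (W false v D))) := by
  have hr0 : 0 ≤ r := by linarith
  have hρ1 : 1 ≤ ρ := by linarith
  have hρR : ρ ≤ R := by linarith
  have l1 : Loc (fun ω => r < ρ → E r ρ ω) := tta3_loc h r ρ
  have l2 : Loc (fun ω => 8 * ρ < R → E (8 * ρ) R ω) := tta3_loc h (8 * ρ) R
  have lW : ∀ b, Loc (W b v D) := fun b => h.locW b v D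
  have lA : ∀ b, Loc (fun ω => (r < ρ → E r ρ ω) ∧ ((8 * ρ < R → E (8 * ρ) R ω) ∧ W b v D ω)) :=
    fun b => Loc.and l1 (Loc.and l2 (lW b))
  have lP : Loc (Piv v (E r R)) := by
    obtain ⟨F, hF⟩ := h.loc r R
    exact ⟨F, (hF.piv v).mono Set.sdiff_subset⟩
  -- inclusion
  have hinc : ∀ ω, ind (Piv v (E r R)) ω ≤
      ind (fun ω => (r < ρ → E r ρ ω) ∧ ((8 * ρ < R → E (8 * ρ) R ω) ∧ W true v D ω)) ω +
      ind (fun ω => (r < ρ → E r ρ ω) ∧ ((8 * ρ < R → E (8 * ρ) R ω) ∧ W false v D ω)) ω := by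
    intro ω
    by_cases hp : Piv v (E r R) ω
    · have a1 : r < ρ → E r ρ ω := fun hlt =>
        h.piv_ann hr0 (le_refl _) hlt hρR (fun hm => absurd hm.2 (by omega)) hp
      have a2 : 8 * ρ < R → E (8 * ρ) R ω := fun hlt =>
        h.piv_ann hr0 (by linarith) hlt (le_refl _) (fun hm => absurd hm.1 (by omega)) hp
      obtain ⟨b, hb⟩ := h.piv r R v D ω hr0 hv (by omega) (by omega) (by omega) hp
      have e1 : ind (Piv v (E r R)) ω = 1 := if_pos hp
      rw [e1]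
      cases b with
      | true =>
        have e2 : ind (fun ω => (r < ρ → E r ρ ω) ∧
            ((8 * ρ < R → E (8 * ρ) R ω) ∧ W true v D ω)) ω = 1 := if_pos ⟨a1, a2, hb⟩
        rw [e2]
        have := tta3_nn (fun ω => (r < ρ → E r ρ ω) ∧
            ((8 * ρ < R → E (8 * ρ) R ω) ∧ W false v D ω)) ω
        linarith
      | false =>
        have e2 : ind (fun ω => (r < ρ → E r ρ ω) ∧
            ((8 * ρ < R → E (8 * ρ) R ω) ∧ W false v D ω)) ω = 1 := if_pos ⟨a1, a2, hb⟩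
        rw [e2]
        have := tta3_nn (fun ω => (r < ρ → E r ρ ω) ∧
            ((8 * ρ < R → E (8 * ρ) R ω) ∧ W true v D ω)) ω
        linarith
    · have e1 : ind (Piv v (E r R)) ω = 0 := if_neg hp
      rw [e1]
      exact add_nonneg (tta3_nn _ ω) (tta3_nn _ ω)
  -- factorization
  have hfac : ∀ b, pr2 κ (fun ω => (r < ρ → E r ρ ω) ∧
      ((8 * ρ < R → E (8 * ρ) R ω) ∧ W b v D ω)) =
      crF E κ r ρ * (crF E κ (8 * ρ) R * pr2 κ (W b v D)) := by
    intro b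
    have d1 := tta3_dep h r ρ
    have d2 := tta3_dep h (8 * ρ) R
    have d3 := h.depW b v D
    have d23 : Dep (fun ω => (8 * ρ < R → E (8 * ρ) R ω) ∧ W b v D ω)
        ((ann (8 * ρ) R ∩ Q) ∪ (bxAt v D ∩ Q)) := d2.comp2 d3 And
    have e1 := pr2_and l1 (Loc.and l2 (lW b)) d1 d23 (by
      rintro z ⟨⟨_, hz2⟩, _⟩ (⟨⟨hz3, _⟩, _⟩ | ⟨hz3, _⟩)
      · omega
      · have hz3' : nrm (z - v) ≤ D := hz3
        have h5 := XP.nrm_tri v z 0
        rw [sub_zero, sub_zero, XP.nrm_comm v z] at h5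
        omega) κ
    have e2 := pr2_and l2 (lW b) d2 d3 (by
      rintro z ⟨⟨hz1, _⟩, _⟩ ⟨hz3, _⟩
      have hz3' : nrm (z - v) ≤ D := hz3
      have h5 := XP.nrm_tri z v 0
      rw [sub_zero, sub_zero] at h5
      omega) κ
    rw [e1, e2, tta3_crF, tta3_crF]
  have e1 : pr2 κ (Piv v (E r R)) ≤
      ex2 κ (fun ω => ind (fun ω => (r < ρ → E r ρ ω) ∧
            ((8 * ρ < R → E (8 * ρ) R ω) ∧ W true v D ω)) ω +
          ind (fun ω => (r < ρ → E r ρ ω) ∧
            ((8 * ρ < R → E (8 * ρ) R ω) ∧ W false v D ω)) ω)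
        (fun ω => ind (fun ω => (r < ρ → E r ρ ω) ∧
            ((8 * ρ < R → E (8 * ρ) R ω) ∧ W true v D ω)) ω +
          ind (fun ω => (r < ρ → E r ρ ω) ∧
            ((8 * ρ < R → E (8 * ρ) R ω) ∧ W false v D ω)) ω) := by
    unfold pr2
    exact ex2_mono lP.lf lP.lf ((lA true).lf.add (lA false).lf) ((lA true).lf.add (lA false).lf) κ hκ
      (fun ω => tta3_nn _ ω) (fun ω => tta3_nn _ ω) hinc hinc
  have e2 := ex2_add_le (lA true).lf (lA false).lf κ (fun v => (hκ v).1)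
  have e3 : ∀ b, ex2 κ (ind fun ω => (r < ρ → E r ρ ω) ∧
      ((8 * ρ < R → E (8 * ρ) R ω) ∧ W b v D ω)) (ind fun ω => (r < ρ → E r ρ ω) ∧
      ((8 * ρ < R → E (8 * ρ) R ω) ∧ W b v D ω)) =
      crF E κ r ρ * (crF E κ (8 * ρ) R * pr2 κ (W b v D)) := hfac
  rw [e3 true, e3 false] at e2
  refine (e1.trans e2).trans (le_of_eq ?_)
  ring

end SC
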