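import Pool.Agent.Lib_MP_e0a489.TTHD

/-!
# MP_e0a489, module TTA 4: the sum over the sites of a shell
-/

set_option autoImplicit false

namespace SC

open Classical

/-- `∑_{k=1}^{n} k ^ (ε-1) ≤ n ^ ε / ε`: induction, `ε k ^ (ε-1) ≤ k ^ ε - (k-1) ^ ε` for `k ≥ 1` (Bernoulli:
`((k-1)/k) ^ ε = (1 - 1/k) ^ ε ≤ 1 - ε / k`, `Real.rpow_one_add_le_one_add_mul_self` or concavity). -/
theorem sum_rpow_le {ε : ℝ} (hε : 0 < ε ∧ ε ≤ 1) (n : ℕ) :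
    ∑ k ∈ Finset.range n, ((k : ℝ) + 1) ^ (ε - 1) ≤ (n : ℝ) ^ ε / ε := by
  obtain ⟨h0, h1⟩ := hε
  induction n with
  | zero => simp [Real.zero_rpow h0.ne']
  | succ n ih =>
    rw [Finset.sum_range_succ]
    have hn : (0 : ℝ) < (n : ℝ) + 1 := by positivity
    have hn1 : (n : ℝ) = ((n : ℝ) + 1) * (1 + -(1 / ((n : ℝ) + 1))) := by
      field_simp
      ring
    have hs : (-1 : ℝ) ≤ -(1 / ((n : ℝ) + 1)) := by
      rw [neg_le_neg_iff, div_le_one hn]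
      have : (0 : ℝ) ≤ n := Nat.cast_nonneg n
      linarith
    have hb := rpow_one_add_le_one_add_mul_self hs h0.le h1
    have e1 : (n : ℝ) ^ ε ≤ ((n : ℝ) + 1) ^ ε - ε * ((n : ℝ) + 1) ^ (ε - 1) := by
      have hs0 : (0 : ℝ) ≤ 1 + -(1 / ((n : ℝ) + 1)) := by linarith
      calc (n : ℝ) ^ ε = (((n : ℝ) + 1) * (1 + -(1 / ((n : ℝ) + 1)))) ^ ε := by rw [← hn1]
        _ = ((n : ℝ) + 1) ^ ε * (1 + -(1 / ((n : ℝ) + 1))) ^ ε := Real.mul_rpow hn.le hs0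
        _ ≤ ((n : ℝ) + 1) ^ ε * (1 + ε * -(1 / ((n : ℝ) + 1))) :=
            mul_le_mul_of_nonneg_left hb (Real.rpow_nonneg hn.le _)
        _ = ((n : ℝ) + 1) ^ ε - ε * ((n : ℝ) + 1) ^ (ε - 1) := by
            rw [Real.rpow_sub_one hn.ne']
            ring
    have e2 : ((n : ℝ) + 1) ^ (ε - 1) ≤ (((n : ℝ) + 1) ^ ε - (n : ℝ) ^ ε) / ε := by
      rw [le_div_iff₀ h0]
      linarith
    have e3 : (((n + 1 : ℕ) : ℝ)) ^ ε / ε = (n : ℝ) ^ ε / ε + (((n : ℝ) + 1) ^ ε - (n : ℝ) ^ ε) / ε := by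
      push_cast
      ring
    rw [e3]
    exact add_le_add ih e2

/-- At most `25 ρ ^ 2` sites in the shell: it is contained in a square of side `4 ρ + 1 ≤ 5 ρ`. -/
theorem card_ttSh (Q : Set Pt) {ρ : ℤ} (hρ : 1 ≤ ρ) : ((ttSh Q ρ).card : ℝ) ≤ 25 * (ρ : ℝ) ^ 2 := by
  have h1 : (ttSh Q ρ).card ≤ (rectF (-(2 * ρ)) (2 * ρ) (-(2 * ρ)) (2 * ρ)).card :=
    Finset.card_filter_le _ _
  have h2 : (rectF (-(2 * ρ)) (2 * ρ) (-(2 * ρ)) (2 * ρ)).card =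
      (4 * ρ + 1).toNat * (4 * ρ + 1).toNat := by
    rw [rectF, Finset.card_product, Int.card_Icc]
    congr 2 <;> ring
  have h3 : (((4 * ρ + 1).toNat : ℕ) : ℝ) = 4 * (ρ : ℝ) + 1 := by
    have : (((4 * ρ + 1).toNat : ℕ) : ℤ) = 4 * ρ + 1 := Int.toNat_of_nonneg (by omega)
    exact_mod_cast this
  have h4 : ((ttSh Q ρ).card : ℝ) ≤ (4 * (ρ : ℝ) + 1) * (4 * (ρ : ℝ) + 1) := by
    have h5 : ((ttSh Q ρ).card : ℝ) ≤ (((4 * ρ + 1).toNat * (4 * ρ + 1).toNat : ℕ) : ℝ) := by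
      exact_mod_cast (h2 ▸ h1)
    rw [Nat.cast_mul, h3] at h5
    exact h5
  have hρ' : (1 : ℝ) ≤ ρ := by exact_mod_cast hρ
  nlinarith

/-- Every `v` of the shell has `0 ≤ ht v ≤ 2 ρ`, so the sum is `∑_{h=0}^{2 ρ}` (number of sites of height `h`)
`min (h+1, D) ^ (ε-1)` `≤ 10 ρ (∑_{h < D} (h+1) ^ (ε-1) + ∑_{D ≤ h ≤ 2 ρ} D ^ (ε-1))` `≤ 10 ρ (D ^ ε / ε + (2 ρ + 1) D ^ (ε-1))`
(`sum_rpow_le`) `≤ 10 ρ (ρ D ^ (ε-1) / ε + 3 ρ D ^ (ε-1))` (as `D ≤ ρ`) `≤ (40 / ε) ρ ^ 2 D ^ (ε-1)`.  (For the decomposition by heights: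
`Finset.sum_fiberwise_of_maps_to` with `Finset.Icc 0 (2 ρ)`.) -/
theorem ht_sum {Q : Set Pt} {ht : Pt → ℤ} (h : HtOK Q ht) {ε : ℝ} (hε : 0 < ε ∧ ε ≤ 1) {ρ D : ℤ}
    (hD : 1 ≤ D) (hDρ : D ≤ ρ) :
    ∑ v ∈ ttSh Q ρ, ((min (ht v + 1) D : ℤ) : ℝ) ^ (ε - 1) ≤
      40 / ε * ((ρ : ℝ) ^ 2 * (D : ℝ) ^ (ε - 1)) := by
  obtain ⟨h0, h1⟩ := hε
  have hD0 : (0 : ℝ) < D := by exact_mod_cast (show (0 : ℤ) < D by omega)
  have hρ1 : (1 : ℤ) ≤ ρ := le_trans hD hDρ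
  have hρ1' : (1 : ℝ) ≤ ρ := by exact_mod_cast hρ1
  have hDρ' : (D : ℝ) ≤ ρ := by exact_mod_cast hDρ
  set φ : ℤ → ℝ := fun h => ((min (h + 1) D : ℤ) : ℝ) ^ (ε - 1) with hφ
  have hmaps : ∀ v ∈ ttSh Q ρ, ht v ∈ Finset.Icc (0 : ℤ) (2 * ρ) := by
    intro v hv
    have hv' := (Finset.mem_filter.1 hv).2
    rw [Finset.mem_Icc]
    exact ⟨h.nonneg v hv'.1, le_trans (h.le v hv'.1) hv'.2.2⟩
  have s1 : ∑ v ∈ ttSh Q ρ, φ (ht v) =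
      ∑ k ∈ Finset.Icc (0 : ℤ) (2 * ρ), ∑ v ∈ (ttSh Q ρ).filter (fun v => ht v = k), φ (ht v) :=
    (Finset.sum_fiberwise_of_maps_to hmaps _).symm
  have hφ0 : ∀ k ∈ Finset.Icc (0 : ℤ) (2 * ρ), 0 ≤ φ k := by
    intro k hk
    have hk0 := (Finset.mem_Icc.1 hk).1
    apply Real.rpow_nonneg
    have : (0 : ℤ) ≤ min (k + 1) D := le_min (by omega) (by omega)
    exact_mod_cast this
  have s2 : ∑ v ∈ ttSh Q ρ, φ (ht v) ≤ 10 * (ρ : ℝ) * ∑ k ∈ Finset.Icc (0 : ℤ) (2 * ρ), φ k := by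
    rw [s1, Finset.mul_sum]
    apply Finset.sum_le_sum
    intro k hk
    have e : ∑ v ∈ (ttSh Q ρ).filter (fun v => ht v = k), φ (ht v) =
        (((ttSh Q ρ).filter (fun v => ht v = k)).card : ℝ) * φ k := by
      rw [Finset.sum_congr rfl (g := fun _ => φ k)
        (fun v hv => by rw [(Finset.mem_filter.1 hv).2]), Finset.sum_const, nsmul_eq_mul]
    rw [e]
    exact mul_le_mul_of_nonneg_right (h.card ρ k hρ1) (hφ0 k hk)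
  have s3 : ∑ k ∈ Finset.Icc (0 : ℤ) (2 * ρ), φ k ≤
      ∑ k ∈ (Finset.Icc (0 : ℤ) (2 * ρ)).filter (fun k => k < D), ((k : ℝ) + 1) ^ (ε - 1) +
        (2 * (ρ : ℝ) + 1) * (D : ℝ) ^ (ε - 1) := by
    have e1 : ∑ k ∈ Finset.Icc (0 : ℤ) (2 * ρ), φ k ≤ ∑ k ∈ Finset.Icc (0 : ℤ) (2 * ρ),
        ((if k < D then ((k : ℝ) + 1) ^ (ε - 1) else 0) + (D : ℝ) ^ (ε - 1)) := by
      apply Finset.sum_le_sum
      intro k hk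
      have hD1 : (0 : ℝ) ≤ (D : ℝ) ^ (ε - 1) := Real.rpow_nonneg hD0.le _
      by_cases hkD : k < D
      · rw [if_pos hkD]
        have : min (k + 1) D = k + 1 := min_eq_left (by omega)
        simp only [hφ, this]
        push_cast
        linarith
      · rw [if_neg hkD]
        have : min (k + 1) D = D := min_eq_right (by omega)
        simp only [hφ, this]
        linarith
    rw [Finset.sum_add_distrib, ← Finset.sum_filter, Finset.sum_const, nsmul_eq_mul,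
      Int.card_Icc] at e1
    have e2 : (((2 * ρ + 1 - 0).toNat : ℕ) : ℝ) = 2 * (ρ : ℝ) + 1 := by
      have : (((2 * ρ + 1 - 0).toNat : ℕ) : ℤ) = 2 * ρ + 1 := by
        rw [Int.toNat_of_nonneg (by omega)]
        ring
      exact_mod_cast this
    rw [e2] at e1
    exact e1
  have s4 : ∑ k ∈ (Finset.Icc (0 : ℤ) (2 * ρ)).filter (fun k => k < D), ((k : ℝ) + 1) ^ (ε - 1) ≤
      (D : ℝ) ^ ε / ε := by
    have hDn : ((D.toNat : ℕ) : ℝ) = (D : ℝ) := by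
      have : ((D.toNat : ℕ) : ℤ) = D := Int.toNat_of_nonneg (by omega)
      exact_mod_cast this
    have hsub : (Finset.Icc (0 : ℤ) (2 * ρ)).filter (fun k => k < D) ⊆
        (Finset.range D.toNat).image (fun n : ℕ => (n : ℤ)) := by
      intro k hk
      obtain ⟨hk1, hk2⟩ := Finset.mem_filter.1 hk
      have hk0 := (Finset.mem_Icc.1 hk1).1
      rw [Finset.mem_image]
      refine ⟨k.toNat, ?_, Int.toNat_of_nonneg hk0⟩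
      rw [Finset.mem_range]
      omega
    have e1 := Finset.sum_le_sum_of_subset_of_nonneg (f := fun k : ℤ => ((k : ℝ) + 1) ^ (ε - 1)) hsub
      (by
        intro k hk _
        obtain ⟨n, _, hn⟩ := Finset.mem_image.1 hk
        apply Real.rpow_nonneg
        rw [← hn]
        positivity)
    rw [Finset.sum_image (by
      intro a _ b _ hab
      simpa using hab)] at e1
    have e2 := sum_rpow_le ⟨h0, h1⟩ D.toNat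
    rw [hDn] at e2
    refine le_trans e1 ?_
    simpa using e2
  have s5 : (D : ℝ) ^ ε / ε ≤ (ρ : ℝ) * (D : ℝ) ^ (ε - 1) / ε := by
    apply div_le_div_of_nonneg_right _ h0.le
    have : (D : ℝ) ^ ε = D * (D : ℝ) ^ (ε - 1) := by
      rw [Real.rpow_sub_one hD0.ne']
      field_simp
    rw [this]
    exact mul_le_mul_of_nonneg_right hDρ' (Real.rpow_nonneg hD0.le _)
  have hX : (0 : ℝ) ≤ (D : ℝ) ^ (ε - 1) := Real.rpow_nonneg hD0.le _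
  have s6 : (2 * (ρ : ℝ) + 1) * (D : ℝ) ^ (ε - 1) ≤ 3 * ((ρ : ℝ) * (D : ℝ) ^ (ε - 1) / ε) := by
    have a1 : (2 * (ρ : ℝ) + 1) * (D : ℝ) ^ (ε - 1) ≤ 3 * ((ρ : ℝ) * (D : ℝ) ^ (ε - 1)) := by
      nlinarith
    have a2 : (ρ : ℝ) * (D : ℝ) ^ (ε - 1) ≤ (ρ : ℝ) * (D : ℝ) ^ (ε - 1) / ε := by
      rw [le_div_iff₀ h0]
      have : (0 : ℝ) ≤ (ρ : ℝ) * (D : ℝ) ^ (ε - 1) := by positivity
      nlinarith
    linarith
  have s7 : ∑ k ∈ Finset.Icc (0 : ℤ) (2 * ρ), φ k ≤ 4 * ((ρ : ℝ) * (D : ℝ) ^ (ε - 1) / ε) := by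
    linarith
  calc ∑ v ∈ ttSh Q ρ, φ (ht v) ≤ 10 * (ρ : ℝ) * ∑ k ∈ Finset.Icc (0 : ℤ) (2 * ρ), φ k := s2
    _ ≤ 10 * (ρ : ℝ) * (4 * ((ρ : ℝ) * (D : ℝ) ^ (ε - 1) / ε)) :=
        mul_le_mul_of_nonneg_left s7 (by positivity)
    _ = 40 / ε * ((ρ : ℝ) ^ 2 * (D : ℝ) ^ (ε - 1)) := by ring

/-- CASE `D ≥ 16 ℓ`.  Sum of `LocB` over the shell (`8 D ≤ ρ < nrm v`) and `ht_sum`; `D ^ (-1-ε) D ^ (ε-1) = D ^ (-2)`. -/
theorem shell_a {L : Lat} {R₀ : ℤ} {Q : Set Pt} {W : Bool → Pt → ℤ → Cfg → Prop} {ht : Pt → ℤ}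
    {C₁ C₃ ε : ℝ} (hL : LocB L R₀ Q W ht C₁ C₃ ε) (h : HtOK Q ht) (hε : 0 < ε ∧ ε ≤ 1)
    (hC : 0 ≤ C₁) {ℓ D ρ : ℤ} {s : ℝ} (hR : 1 ≤ R₀) (hℓ : R₀ ≤ ℓ) (hB : Beyond L R₀ ℓ s)
    (hs : s * Real.exp (-(s / 2)) * ((ℓ : ℝ) ^ 2 * al L R₀ ℓ) ≤ C₃) (hD : 16 * ℓ ≤ D)
    (hρ : 8 * D ≤ ρ) (b : Bool) :
    s * Real.exp (-s) * ∑ v ∈ ttSh Q ρ, pr2 (kt s) (W b v D) ≤
      C₁ * (40 / ε) * (Real.exp (-(s / 2)) * (((ℓ : ℝ) / D) ^ ε * ((ρ : ℝ) / D) ^ 2)) := by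
  have hD0 : (0 : ℤ) < D := by omega
  have hD0' : (0 : ℝ) < D := by exact_mod_cast hD0
  rw [Finset.mul_sum]
  have s1 : ∑ v ∈ ttSh Q ρ, s * Real.exp (-s) * pr2 (kt s) (W b v D) ≤
      ∑ v ∈ ttSh Q ρ, C₁ * (Real.exp (-(s / 2)) * (((ℓ : ℝ) / D) ^ ε *
        ((D : ℝ) ^ (-1 - ε) * ((min (ht v + 1) D : ℤ) : ℝ) ^ (ε - 1)))) := by
    apply Finset.sum_le_sum
    intro v hv
    have hv' := (Finset.mem_filter.1 hv).2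
    exact hL ℓ s hℓ hB hs b v D hv'.1 hD (by omega)
  have s2 : ∑ v ∈ ttSh Q ρ, C₁ * (Real.exp (-(s / 2)) * (((ℓ : ℝ) / D) ^ ε *
        ((D : ℝ) ^ (-1 - ε) * ((min (ht v + 1) D : ℤ) : ℝ) ^ (ε - 1)))) =
      (C₁ * (Real.exp (-(s / 2)) * (((ℓ : ℝ) / D) ^ ε * (D : ℝ) ^ (-1 - ε)))) *
        ∑ v ∈ ttSh Q ρ, ((min (ht v + 1) D : ℤ) : ℝ) ^ (ε - 1) := by
    rw [Finset.mul_sum]
    apply Finset.sum_congr rfl
    intro v _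
    ring
  have hl0 : (0 : ℝ) ≤ (ℓ : ℝ) / D := by
    have : (0 : ℝ) ≤ ℓ := by exact_mod_cast (show (0 : ℤ) ≤ ℓ by omega)
    positivity
  have hc : 0 ≤ C₁ * (Real.exp (-(s / 2)) * (((ℓ : ℝ) / D) ^ ε * (D : ℝ) ^ (-1 - ε))) := by
    have := Real.rpow_nonneg hl0 ε
    have := Real.rpow_nonneg hD0'.le (-1 - ε)
    positivity
  have s3 := ht_sum h hε (show (1 : ℤ) ≤ D by omega) (show D ≤ ρ by omega)
  have e1 : (D : ℝ) ^ (-1 - ε) * (D : ℝ) ^ (ε - 1) = ((D : ℝ) ^ 2)⁻¹ := by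
    rw [← Real.rpow_add hD0', show (-1 - ε + (ε - 1) : ℝ) = -((2 : ℕ) : ℝ) by push_cast; ring,
      Real.rpow_neg hD0'.le, Real.rpow_natCast]
  calc ∑ v ∈ ttSh Q ρ, s * Real.exp (-s) * pr2 (kt s) (W b v D)
      ≤ (C₁ * (Real.exp (-(s / 2)) * (((ℓ : ℝ) / D) ^ ε * (D : ℝ) ^ (-1 - ε)))) *
        ∑ v ∈ ttSh Q ρ, ((min (ht v + 1) D : ℤ) : ℝ) ^ (ε - 1) := by rw [← s2]; exact s1
    _ ≤ (C₁ * (Real.exp (-(s / 2)) * (((ℓ : ℝ) / D) ^ ε * (D : ℝ) ^ (-1 - ε)))) *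
        (40 / ε * ((ρ : ℝ) ^ 2 * (D : ℝ) ^ (ε - 1))) := mul_le_mul_of_nonneg_left s3 hc
    _ = C₁ * (40 / ε) * (Real.exp (-(s / 2)) * (((ℓ : ℝ) / D) ^ ε *
        ((ρ : ℝ) ^ 2 * ((D : ℝ) ^ (-1 - ε) * (D : ℝ) ^ (ε - 1))))) := by ring
    _ = C₁ * (40 / ε) * (Real.exp (-(s / 2)) * (((ℓ : ℝ) / D) ^ ε * ((ρ : ℝ) / D) ^ 2)) := by
        rw [e1, div_pow]
        ring

end SC
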