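import Pool.Agent.Lib_MP_e0a489.TTHD

/-!
# MP_e0a489, module TTA 5: the sum over the times (real numbers only)

`q = ttq ε = 2 ^ (-ε/8)`, `c₀ = (1 - q) / 8`, `s = 2 ^ j t`, `D = ttR q ρ j = ⌊c₀ q ^ j ρ⌋`.
-/

set_option autoImplicit false

namespace SC

open Classical

theorem ttq_mem {ε : ℝ} (hε : 0 < ε) : 0 < ttq ε ∧ ttq ε < 1 := by
  unfold ttq
  exact ⟨Real.rpow_pos_of_pos (by norm_num) _,
    Real.rpow_lt_one_of_one_lt_of_neg (by norm_num) (by linarith)⟩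

private theorem tta5_qj (ε : ℝ) (j : ℕ) : ttq ε ^ j = (2 : ℝ) ^ (-(ε / 8) * j) := by
  unfold ttq
  rw [Real.rpow_mul (by norm_num), Real.rpow_natCast]

private theorem tta5_w {t : ℝ} (ht : 0 < t) (j : ℕ) :
    (t / (2 ^ j * t)) ^ ((1 : ℝ) / 2) = (2 : ℝ) ^ (-((j : ℝ) / 2)) := by
  have h1 : t / (2 ^ j * t) = (2 : ℝ) ^ (-(j : ℝ)) := by
    rw [Real.rpow_neg (by norm_num), Real.rpow_natCast]
    field_simp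
  rw [h1, ← Real.rpow_mul (by norm_num)]
  congr 1
  ring

private theorem tta5_floor {ε : ℝ} (ρ : ℤ) (j : ℕ) :
    (1 - ttq ε) / 8 * ttq ε ^ j * ρ < (ttR (ttq ε) ρ j : ℝ) + 1 := by
  unfold ttR
  exact Int.lt_floor_add_one _

private theorem tta5_exp {s : ℝ} (hs : 0 ≤ s) : s ^ 2 * Real.exp (-s) ≤ 1 := by
  have h1 : (1 + s / 4) ^ 4 ≤ Real.exp s := by
    have h2 : Real.exp s = Real.exp (s / 4) ^ 4 := by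
      rw [← Real.exp_nat_mul]
      congr 1
      push_cast
      ring
    rw [h2]
    have h3 := Real.add_one_le_exp (s / 4)
    exact pow_le_pow_left₀ (by positivity) (by linarith) 4
  have h4 : s ^ 2 ≤ (1 + s / 4) ^ 4 := by
    have h5 : s ≤ (1 + s / 4) ^ 2 := by nlinarith [sq_nonneg (1 - s / 4)]
    calc s ^ 2 ≤ ((1 + s / 4) ^ 2) ^ 2 := pow_le_pow_left₀ hs h5 2
      _ = (1 + s / 4) ^ 4 := by ring
  have h6 : s ^ 2 ≤ Real.exp s := le_trans h4 h1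
  rw [Real.exp_neg]
  have h7 := Real.exp_pos s
  rw [← div_eq_mul_inv, div_le_one h7]
  exact h6

/-- CASE `D ≥ 16 ℓ'`.  `t / s = 2 ^ (-j)`.  Since `ε ≤ 1`, `e^{-s/2} ≤ (e^{-s/2}) ^ ε`, so
`e^{-s/2} (ℓ'/D) ^ ε ≤ (e^{-s/2} ℓ' / D) ^ ε ≤ (C₃ ℓ 2^(-j/2) / D) ^ ε`.  As `D ≥ 16`, `D ≥ c₀ q ^ j ρ - 1` gives
`D ≥ c₀ q ^ j ρ / 2`, so `ρ / D ≤ (2 / c₀) q ^ (-j)`.  Total: at most
`C₃ ^ ε (2 / c₀) ^ (2 + ε) (ℓ / ρ) ^ ε 2^(-j ε / 2) q ^ (-j (2 + ε))`, and `2^(-ε/2) q ^ (-(2+ε)) ≤ q` because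
`q ^ (3 + ε) = 2 ^ (-ε (3 + ε) / 8) ≥ 2 ^ (-ε / 2)`. -/
theorem time_a {ε C₃ : ℝ} (hε : 0 < ε ∧ ε ≤ 1) (hC : 0 < C₃) : ∃ C : ℝ, 0 < C ∧
    ∀ (ℓ ℓ' ρ : ℤ) (t : ℝ) (j : ℕ), 1 ≤ ℓ → 1 ≤ ℓ' → 1 ≤ ρ → 0 < t →
      16 * ℓ' ≤ ttR (ttq ε) ρ j →
      Real.exp (-(2 ^ j * t / 2)) * ℓ' ≤ C₃ * (ℓ * (t / (2 ^ j * t)) ^ ((1 : ℝ) / 2)) →
      Real.exp (-(2 ^ j * t / 2)) * (((ℓ' : ℝ) / ttR (ttq ε) ρ j) ^ ε *
        ((ρ : ℝ) / ttR (ttq ε) ρ j) ^ 2) ≤ C * (ttq ε ^ j * ((ℓ : ℝ) / ρ) ^ ε) := by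
  obtain ⟨hq0, hq1⟩ := ttq_mem hε.1
  set q := ttq ε with hq
  have hc0 : 0 < (1 - q) / 8 := by linarith
  set c₀ := (1 - q) / 8 with hc
  have hB : 0 < 2 / c₀ := by positivity
  refine ⟨C₃ ^ ε * ((2 / c₀) ^ ε * (2 / c₀) ^ 2), by positivity, ?_⟩
  intro ℓ ℓ' ρ t j hℓ hℓ' hρ ht hD hw
  rw [tta5_w ht j] at hw
  have hD16 : (16 : ℝ) * ℓ' ≤ (ttR q ρ j : ℝ) := by exact_mod_cast hD
  have hℓr : (1 : ℝ) ≤ ℓ := by exact_mod_cast hℓ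
  have hℓr' : (1 : ℝ) ≤ ℓ' := by exact_mod_cast hℓ'
  have hρr : (1 : ℝ) ≤ ρ := by exact_mod_cast hρ
  set D : ℝ := (ttR q ρ j : ℝ) with hDdef
  have hfl : c₀ * q ^ j * ρ < D + 1 := tta5_floor (ε := ε) ρ j
  have hDpos : 0 < D := by linarith
  have hqj : 0 < q ^ j := pow_pos hq0 j
  set e := Real.exp (-(2 ^ j * t / 2)) with he
  have he0 : 0 < e := Real.exp_pos _
  have he1 : e ≤ 1 := by
    rw [he, ← Real.exp_zero]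
    refine Real.exp_le_exp.2 ?_
    have : (0 : ℝ) < 2 ^ j * t := by positivity
    linarith
  set w : ℝ := (2 : ℝ) ^ (-((j : ℝ) / 2)) with hwd
  have hw0 : 0 < w := Real.rpow_pos_of_pos (by norm_num) _
  have ha : (ρ : ℝ) / D ≤ 2 / c₀ * (q ^ j)⁻¹ := by
    rw [div_le_iff₀ hDpos]
    have h1 : c₀ * q ^ j * ρ ≤ 2 * D := by linarith
    have h2 : 2 / c₀ * (q ^ j)⁻¹ * D = 2 * D / (c₀ * q ^ j) := by
      field_simp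
    rw [h2, le_div_iff₀ (by positivity)]
    linarith
  have ha0 : 0 < (ρ : ℝ) / D := by positivity
  set a := (ρ : ℝ) / D with had
  set A := 2 / c₀ * (q ^ j)⁻¹ with hA
  have hA0 : 0 < A := by positivity
  have hX0 : 0 < (ℓ : ℝ) / ρ := by positivity
  set X := (ℓ : ℝ) / ρ with hX
  have hee : e ≤ e ^ ε := by
    have := Real.rpow_le_rpow_of_exponent_ge he0 he1 hε.2
    rwa [Real.rpow_one] at this
  have s1 : e * ((ℓ' : ℝ) / D) ^ ε ≤ (C₃ * (X * (w * a))) ^ ε := by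
    have h1 : e * ((ℓ' : ℝ) / D) ^ ε ≤ e ^ ε * ((ℓ' : ℝ) / D) ^ ε :=
      mul_le_mul_of_nonneg_right hee (by positivity)
    have h2 : e ^ ε * ((ℓ' : ℝ) / D) ^ ε = (e * ((ℓ' : ℝ) / D)) ^ ε :=
      (Real.mul_rpow he0.le (by positivity)).symm
    have h3 : e * ((ℓ' : ℝ) / D) ≤ C₃ * (X * (w * a)) := by
      have h4 : C₃ * (X * (w * a)) = C₃ * (ℓ * w) / D := by
        rw [hX, had]
        field_simp
      rw [h4, ← mul_div_assoc]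
      exact div_le_div_of_nonneg_right hw hDpos.le
    rw [h2] at h1
    exact le_trans h1 (Real.rpow_le_rpow (by positivity) h3 hε.1.le)
  have s2 : (C₃ * (X * (w * a))) ^ ε ≤ (C₃ * (X * (w * A))) ^ ε := by
    refine Real.rpow_le_rpow (by positivity) ?_ hε.1.le
    gcongr
  have s3 : a ^ 2 ≤ A ^ 2 := pow_le_pow_left₀ ha0.le ha 2
  have s4 : e * (((ℓ' : ℝ) / D) ^ ε * a ^ 2) ≤ (C₃ * (X * (w * A))) ^ ε * A ^ 2 := by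
    rw [← mul_assoc]
    exact mul_le_mul (le_trans s1 s2) s3 (by positivity) (by positivity)
  have s5 : (C₃ * (X * (w * A))) ^ ε * A ^ 2
      = C₃ ^ ε * ((2 / c₀) ^ ε * (2 / c₀) ^ 2) * (X ^ ε * (w ^ ε * ((q ^ j)⁻¹) ^ ε * ((q ^ j)⁻¹) ^ 2)) := by
    rw [Real.mul_rpow hC.le (by positivity), Real.mul_rpow hX0.le (by positivity),
      Real.mul_rpow hw0.le hA0.le, hA, Real.mul_rpow hB.le (by positivity)]
    ring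
  have s6 : w ^ ε * ((q ^ j)⁻¹) ^ ε * ((q ^ j)⁻¹) ^ 2 ≤ q ^ j := by
    have e1 : q ^ j = (2 : ℝ) ^ (-(ε / 8) * j) := tta5_qj ε j
    have e2 : (q ^ j)⁻¹ = (2 : ℝ) ^ ((ε / 8) * j) := by
      rw [e1, ← Real.rpow_neg (by norm_num)]
      congr 1
      ring
    rw [e2, hwd, ← Real.rpow_mul (by norm_num), ← Real.rpow_mul (by norm_num),
      ← Real.rpow_natCast, ← Real.rpow_mul (by norm_num), ← Real.rpow_add (by norm_num),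
      ← Real.rpow_add (by norm_num), e1]
    refine Real.rpow_le_rpow_of_exponent_le (by norm_num) ?_
    push_cast
    have hj : (0 : ℝ) ≤ j := Nat.cast_nonneg j
    have : 0 ≤ ε * j * (1 - ε) := by
      have := hε.1.le
      have h1 : 0 ≤ 1 - ε := by linarith [hε.2]
      positivity
    nlinarith
  calc e * (((ℓ' : ℝ) / D) ^ ε * a ^ 2) ≤ (C₃ * (X * (w * A))) ^ ε * A ^ 2 := s4
    _ = C₃ ^ ε * ((2 / c₀) ^ ε * (2 / c₀) ^ 2) * (X ^ ε * (w ^ ε * ((q ^ j)⁻¹) ^ ε * ((q ^ j)⁻¹) ^ 2)) := s5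
    _ ≤ C₃ ^ ε * ((2 / c₀) ^ ε * (2 / c₀) ^ 2) * (X ^ ε * q ^ j) := by
        refine mul_le_mul_of_nonneg_left ?_ (by positivity)
        exact mul_le_mul_of_nonneg_left s6 (by positivity)
    _ = C₃ ^ ε * ((2 / c₀) ^ ε * (2 / c₀) ^ 2) * (q ^ j * X ^ ε) := by ring

/-- CASE `D < 16 ℓ'`.  `c₀ q ^ j ρ < D + 1 ≤ 16 ℓ' < 17 ℓ'`.
If `ℓ' ≤ 2 ℓ (t / s) ^ (1/2) = 2 ℓ 2^(-j/2)` then `c₀ q ^ j ρ < 34 ℓ 2^(-j/2)`, so `ρ / ℓ < (34 / c₀) (2^(-1/2) / q) ^ j ≤ 34 / c₀`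
(as `q = 2 ^ (-ε/8) ≥ 2^(-1/2)`): impossible if `Λ ≥ 34 / c₀`.
So `ℓ' = R₀` and `q ^ j ρ ≤ K := 17 R₀ / c₀`, `ρ ≤ K 2 ^ (j ε / 8) ≤ K 2 ^ (j / 64)`.  From `t ≥ 1 / ℓ ^ 2 ≥ 1 / ρ ^ 2`: `s ≥ 2 ^ j / ρ ^ 2`.
`s e^{-s} ≤ 1 / s`.  So the left side is at most `25 ρ ^ 2 / s ≤ 25 ρ ^ 4 / 2 ^ j`.  Since `(ℓ / ρ) ^ ε ≥ ρ ^ (-ε) ≥ 1 / ρ`, and
`25 ρ ^ 5 ≤ 25 K ^ 5 2 ^ (5 j / 64) ≤ 25 K ^ 5 2 ^ (j / 2) ≤ 25 K ^ 5 2 ^ j q ^ j`, the claim holds with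
`C = 25 K ^ 5`. -/
theorem time_b {ε : ℝ} {R₀ : ℤ} (hε : 0 < ε ∧ ε ≤ 1 / 8) (hR : 1 ≤ R₀) :
    ∃ (C : ℝ) (Λ : ℤ), 0 < C ∧ 1 ≤ Λ ∧
    ∀ (ℓ ℓ' ρ : ℤ) (t : ℝ) (j : ℕ), R₀ ≤ ℓ → R₀ ≤ ℓ' → Λ * ℓ ≤ ρ → 1 ≤ t * (ℓ : ℝ) ^ 2 →
      ttR (ttq ε) ρ j < 16 * ℓ' →
      (ℓ' = R₀ ∨ (ℓ' : ℝ) ≤ 2 * (ℓ * (t / (2 ^ j * t)) ^ ((1 : ℝ) / 2))) →
      2 ^ j * t * Real.exp (-(2 ^ j * t)) * (25 * (ρ : ℝ) ^ 2) ≤
        C * (ttq ε ^ j * ((ℓ : ℝ) / ρ) ^ ε) := by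
  obtain ⟨hq0, hq1⟩ := ttq_mem hε.1
  set q := ttq ε with hq
  have hc0 : 0 < (1 - q) / 8 := by linarith
  set c₀ := (1 - q) / 8 with hc
  have hRr : (1 : ℝ) ≤ R₀ := by exact_mod_cast hR
  have hK : 0 < 17 * (R₀ : ℝ) / c₀ := by positivity
  have hΛ1 : 1 ≤ ⌈34 / c₀⌉ := by
    have : (0 : ℝ) < 34 / c₀ := by positivity
    exact Int.one_le_ceil_iff.2 this
  refine ⟨25 * (17 * (R₀ : ℝ) / c₀) ^ 5, ⌈34 / c₀⌉, by positivity, hΛ1, ?_⟩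
  set K := 17 * (R₀ : ℝ) / c₀ with hKd
  intro ℓ ℓ' ρ t j hℓ hℓ' hΛ ht hD hor
  have hℓr : (1 : ℝ) ≤ ℓ := by exact_mod_cast le_trans hR hℓ
  have hℓr' : (1 : ℝ) ≤ ℓ' := by exact_mod_cast le_trans hR hℓ'
  have htpos : 0 < t := by
    by_contra hneg
    have : t * (ℓ : ℝ) ^ 2 ≤ 0 := mul_nonpos_of_nonpos_of_nonneg (not_lt.1 hneg) (by positivity)
    linarith
  rw [tta5_w htpos j] at hor
  have hΛr : (34 / c₀) * (ℓ : ℝ) ≤ ρ := by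
    have h1 : (34 / c₀ : ℝ) ≤ (⌈34 / c₀⌉ : ℝ) := Int.le_ceil _
    have h2 : (((⌈34 / c₀⌉ * ℓ : ℤ)) : ℝ) ≤ (ρ : ℝ) := by exact_mod_cast hΛ
    push_cast at h2
    have h3 : (34 / c₀) * (ℓ : ℝ) ≤ (⌈34 / c₀⌉ : ℝ) * ℓ :=
      mul_le_mul_of_nonneg_right h1 (by linarith)
    linarith
  have hℓρ : (ℓ : ℝ) ≤ ρ := by
    have h2 : (((⌈34 / c₀⌉ * ℓ : ℤ)) : ℝ) ≤ (ρ : ℝ) := by exact_mod_cast hΛ
    push_cast at h2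
    have h3 : (1 : ℝ) ≤ (⌈34 / c₀⌉ : ℝ) := by exact_mod_cast hΛ1
    nlinarith
  have hρr : (1 : ℝ) ≤ ρ := le_trans hℓr hℓρ
  have hfl : c₀ * q ^ j * ρ < (ttR q ρ j : ℝ) + 1 := tta5_floor (ε := ε) ρ j
  have hD' : (ttR q ρ j : ℝ) + 1 ≤ 16 * ℓ' := by exact_mod_cast hD
  have hqj : 0 < q ^ j := pow_pos hq0 j
  have hqj1 : q ^ j ≤ 1 := pow_le_one₀ hq0.le hq1.le
  have hj : (0 : ℝ) ≤ j := Nat.cast_nonneg j
  rcases hor with hor | hor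
  · -- `ℓ' = R₀`
    have h1 : q ^ j * ρ ≤ K := by
      rw [hKd, le_div_iff₀ hc0]
      have h2 : (ℓ' : ℝ) = R₀ := by rw [hor]
      nlinarith
    have hs : 0 < 2 ^ j * t := by positivity
    set s := 2 ^ j * t with hsd
    have h2 : s * Real.exp (-s) ≤ 1 / s := by
      rw [le_div_iff₀ hs]
      have := tta5_exp hs.le
      calc s * Real.exp (-s) * s = s ^ 2 * Real.exp (-s) := by ring
        _ ≤ 1 := this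
    have h3 : 1 / s ≤ (ρ : ℝ) ^ 2 / 2 ^ j := by
      rw [div_le_div_iff₀ hs (by positivity)]
      have h4 : (ℓ : ℝ) ^ 2 ≤ (ρ : ℝ) ^ 2 := pow_le_pow_left₀ (by linarith) hℓρ 2
      have h5 : 1 ≤ t * (ρ : ℝ) ^ 2 :=
        le_trans ht (mul_le_mul_of_nonneg_left h4 htpos.le)
      have h6 : (0 : ℝ) < 2 ^ j := by positivity
      calc (1 : ℝ) * 2 ^ j ≤ (t * (ρ : ℝ) ^ 2) * 2 ^ j :=
            mul_le_mul_of_nonneg_right h5 h6.le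
        _ = (ρ : ℝ) ^ 2 * s := by rw [hsd]; ring
    have h4 : s * Real.exp (-s) * (25 * (ρ : ℝ) ^ 2) ≤ 25 * ((ρ : ℝ) ^ 4 / 2 ^ j) := by
      calc s * Real.exp (-s) * (25 * (ρ : ℝ) ^ 2)
          ≤ ((ρ : ℝ) ^ 2 / 2 ^ j) * (25 * (ρ : ℝ) ^ 2) :=
            mul_le_mul_of_nonneg_right (le_trans h2 h3) (by positivity)
        _ = 25 * ((ρ : ℝ) ^ 4 / 2 ^ j) := by ring
    have h5 : 1 / (ρ : ℝ) ≤ ((ℓ : ℝ) / ρ) ^ ε := by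
      have h6 : 1 / (ρ : ℝ) ≤ (ℓ : ℝ) / ρ := div_le_div_of_nonneg_right hℓr (by linarith)
      have h7 : (ℓ : ℝ) / ρ ≤ 1 := (div_le_one (by linarith)).2 hℓρ
      have h8 : (ℓ : ℝ) / ρ ≤ ((ℓ : ℝ) / ρ) ^ ε := by
        have := Real.rpow_le_rpow_of_exponent_ge (by positivity : 0 < (ℓ : ℝ) / ρ) h7
          (by linarith [hε.2] : ε ≤ 1)
        rwa [Real.rpow_one] at this
      linarith
    have h6 : (1 : ℝ) ≤ 2 ^ j * (q ^ j) ^ 6 := by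
      have e1 : q ^ j = (2 : ℝ) ^ (-(ε / 8) * j) := tta5_qj ε j
      have e2 : (2 : ℝ) ^ j * (q ^ j) ^ 6 = (2 : ℝ) ^ ((j : ℝ) + -(ε / 8) * j * 6) := by
        rw [e1, ← Real.rpow_natCast, ← Real.rpow_natCast, ← Real.rpow_mul (by norm_num),
          ← Real.rpow_add (by norm_num)]
        norm_num
      rw [e2]
      refine Real.one_le_rpow (by norm_num) ?_
      have h9 : ε * j ≤ 1 / 8 * j := mul_le_mul_of_nonneg_right hε.2 hj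
      nlinarith
    have h7 : (ρ : ℝ) ^ 5 / 2 ^ j ≤ K ^ 5 * q ^ j := by
      have h8 : (q ^ j * ρ) ^ 5 ≤ K ^ 5 := pow_le_pow_left₀ (by positivity) h1 5
      rw [div_le_iff₀ (by positivity)]
      calc (ρ : ℝ) ^ 5 = (ρ : ℝ) ^ 5 * 1 := by ring
        _ ≤ (ρ : ℝ) ^ 5 * (2 ^ j * (q ^ j) ^ 6) :=
            mul_le_mul_of_nonneg_left h6 (by positivity)
        _ = (q ^ j * ρ) ^ 5 * (q ^ j * 2 ^ j) := by ring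
        _ ≤ K ^ 5 * (q ^ j * 2 ^ j) := mul_le_mul_of_nonneg_right h8 (by positivity)
        _ = K ^ 5 * q ^ j * 2 ^ j := by ring
    calc s * Real.exp (-s) * (25 * (ρ : ℝ) ^ 2) ≤ 25 * ((ρ : ℝ) ^ 4 / 2 ^ j) := h4
      _ = 25 * ((ρ : ℝ) ^ 5 / 2 ^ j) * (1 / ρ) := by
          field_simp
      _ ≤ 25 * (K ^ 5 * q ^ j) * (1 / ρ) := by
          refine mul_le_mul_of_nonneg_right ?_ (by positivity)
          exact mul_le_mul_of_nonneg_left h7 (by norm_num)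
      _ ≤ 25 * (K ^ 5 * q ^ j) * ((ℓ : ℝ) / ρ) ^ ε :=
          mul_le_mul_of_nonneg_left h5 (by positivity)
      _ = 25 * K ^ 5 * (q ^ j * ((ℓ : ℝ) / ρ) ^ ε) := by ring
  · exfalso
    have h1 : (2 : ℝ) ^ (-((j : ℝ) / 2)) ≤ q ^ j := by
      rw [show q ^ j = (2 : ℝ) ^ (-(ε / 8) * j) from tta5_qj ε j]
      refine Real.rpow_le_rpow_of_exponent_le (by norm_num) ?_
      have h9 : ε * j ≤ 1 / 8 * j := mul_le_mul_of_nonneg_right hε.2 hj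
      nlinarith
    have h2 : c₀ * q ^ j * ρ < 32 * ℓ * q ^ j := by
      have h3 : (ℓ : ℝ) * (2 : ℝ) ^ (-((j : ℝ) / 2)) ≤ ℓ * q ^ j :=
        mul_le_mul_of_nonneg_left h1 (by linarith)
      linarith
    have h3 : c₀ * ρ < 32 * ℓ := by
      have h4 : (c₀ * ρ) * q ^ j < (32 * ℓ) * q ^ j := by linarith
      exact lt_of_mul_lt_mul_right h4 hqj.le
    have h4 : 34 * (ℓ : ℝ) ≤ c₀ * ρ := by
      have h5 : c₀ * ((34 / c₀) * (ℓ : ℝ)) ≤ c₀ * ρ := mul_le_mul_of_nonneg_left hΛr hc0.le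
      have h6 : c₀ * ((34 / c₀) * (ℓ : ℝ)) = 34 * ℓ := by
        field_simp
      linarith
    linarith

end SC
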