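import Pool.Agent.Lib_MP_e0a489.TTA3
import Pool.Agent.Lib_MP_e0a489.TTA4
import Pool.Agent.Lib_MP_e0a489.TTA5

/-!
# MP_e0a489, module TTA 6: local events, sum over one shell and all times
-/

set_option autoImplicit false

namespace SC

open Classical

private theorem tta6_al_le (L : Lat) (r R : ℤ) : al L r R ≤ 1 := by
  unfold al
  split_ifs
  · exact pr_le_one _
  · exact le_rfl

private theorem tta6_al_nonneg (L : Lat) (r R : ℤ) : 0 ≤ al L r R := by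
  unfold al
  split_ifs
  · exact pr_nonneg _
  · exact zero_le_one

private theorem tta6_kt {t : ℝ} (ht : 0 ≤ t) (v : Pt) : 0 ≤ kt t v ∧ kt t v ≤ 1 := by
  refine ⟨(Real.exp_pos _).le, ?_⟩
  show Real.exp (-t) ≤ 1
  rw [← Real.exp_zero]
  exact Real.exp_le_exp.2 (by linarith)

private theorem tta6_pr2_le {A : Cfg → Prop} (hA : Loc A) {κ : Pt → ℝ}
    (hκ : ∀ v, 0 ≤ κ v ∧ κ v ≤ 1) : pr2 κ A ≤ 1 := by
  have h := ex2_le_sq hA.lf κ hκ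
  have e : (fun ω => ind A ω ^ 2) = ind A := by
    funext ω
    unfold ind
    split_ifs <;> norm_num
  rw [e] at h
  exact le_trans h (pr_le_one A)

private theorem tta6_R {q : ℝ} (hq : 0 < q ∧ q < 1) {ρ : ℤ} (hρ : 1 ≤ ρ) (j : ℕ) :
    8 * ttR q ρ j ≤ ρ := by
  have h1 : ((ttR q ρ j : ℤ) : ℝ) ≤ (1 - q) / 8 * q ^ j * ρ := by
    unfold ttR
    exact Int.floor_le _
  have h2 : q ^ j ≤ 1 := pow_le_one₀ hq.1.le hq.2.le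
  have h3 : 0 ≤ q ^ j := pow_nonneg hq.1.le j
  have hρ' : (0 : ℝ) ≤ (ρ : ℝ) := by
    have : (1 : ℝ) ≤ (ρ : ℝ) := by exact_mod_cast hρ
    linarith
  have h4 : (1 - q) * q ^ j ≤ 1 := by
    have h5 : (1 - q) * q ^ j ≤ 1 * 1 :=
      mul_le_mul (by linarith [hq.1]) h2 h3 zero_le_one
    linarith
  have h6 : (1 - q) * q ^ j * (ρ : ℝ) ≤ 1 * (ρ : ℝ) := mul_le_mul_of_nonneg_right h4 hρ'
  have h7 : (8 : ℝ) * ((ttR q ρ j : ℤ) : ℝ) ≤ (ρ : ℝ) := by nlinarith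
  exact_mod_cast h7

/-- For `s = 2 ^ j t ≥ t` take `ℓ'` from `ScaleOK`; `D = ttR (ttq ε) ρ j`, `8 D ≤ ρ` (as `D ≤ (1-q)/8 ρ`; prove it from the
definition of `ttR` or use `ttR_le`).
If `16 ℓ' ≤ D`: `shell_a` and `time_a`.  Otherwise every `pr2` is at most `1` (`ex2_le_sq`-type bound: `pr2 κ A ≤ pr A ≤ 1`), there are at
most `25 ρ ^ 2` sites (`card_ttSh`), and `time_b`; `1 ≤ t ℓ ^ 2` because `Beyond` and `al ≤ 1`.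
`C` = maximum of the two constants.  `al L R₀ ℓ ≤ 1` is a probability (`pr_le_one`). -/
theorem shell_time {L : Lat} {R₀ : ℤ} {C₁ C₃ ε : ℝ} (hε : 0 < ε ∧ ε ≤ 1 / 8) (hR : 1 ≤ R₀)
    (hC₁ : 0 < C₁) (hC₃ : 0 < C₃) (hS : ScaleOK L C₃ R₀) : ∃ (C : ℝ) (Λ : ℤ), 0 < C ∧ 1 ≤ Λ ∧
    ∀ (Q : Set Pt) (E : ℤ → ℤ → Cfg → Prop) (W : Bool → Pt → ℤ → Cfg → Prop) (ht : Pt → ℤ),
      CrE Q E W → HtOK Q ht → LocB L R₀ Q W ht C₁ C₃ ε →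
      ∀ (ℓ : ℤ) (t : ℝ), R₀ ≤ ℓ → Beyond L R₀ ℓ t → ∀ (j : ℕ) (b : Bool) (ρ : ℤ), Λ * ℓ ≤ ρ →
        2 ^ j * t * Real.exp (-(2 ^ j * t)) *
          ∑ v ∈ ttSh Q ρ, pr2 (kt (2 ^ j * t)) (W b v (ttR (ttq ε) ρ j)) ≤
            C * (ttq ε ^ j * ((ℓ : ℝ) / ρ) ^ ε) := by
  have hε1 : 0 < ε ∧ ε ≤ 1 := ⟨hε.1, by linarith [hε.2]⟩
  obtain ⟨Ca, hCa, ha⟩ := time_a (ε := ε) (C₃ := C₃) hε1 hC₃
  obtain ⟨Cb, Λ, hCb, hΛ, hb⟩ := time_b (ε := ε) (R₀ := R₀) hε hR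
  have hq := ttq_mem hε.1
  have hK : 0 < C₁ * (40 / ε) := mul_pos hC₁ (div_pos (by norm_num) hε.1)
  refine ⟨C₁ * (40 / ε) * Ca + Cb, Λ, add_pos (mul_pos hK hCa) hCb, hΛ, ?_⟩
  intro Q E W ht hE hH hL ℓ t hℓ hB j b ρ hρ
  have hℓ1 : 1 ≤ ℓ := le_trans hR hℓ
  have hρ1 : 1 ≤ ρ := by nlinarith
  have hal1 := tta6_al_le L R₀ ℓ
  have hal0 := tta6_al_nonneg L R₀ ℓ
  have hℓ0 : (0 : ℝ) ≤ (ℓ : ℝ) ^ 2 := sq_nonneg _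
  have ht0 : 0 < t := by
    by_contra hcon
    have hcon' : t ≤ 0 := not_lt.mp hcon
    have h1 : t * ((ℓ : ℝ) ^ 2 * al L R₀ ℓ) ≤ 0 :=
      mul_nonpos_of_nonpos_of_nonneg hcon' (mul_nonneg hℓ0 hal0)
    have h2 : 1 ≤ t * ((ℓ : ℝ) ^ 2 * al L R₀ ℓ) := hB
    linarith
  have hpw : (1 : ℝ) ≤ 2 ^ j := one_le_pow₀ (by norm_num)
  have hts : t ≤ 2 ^ j * t := by nlinarith
  have hs0 : 0 < 2 ^ j * t := lt_of_lt_of_le ht0 hts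
  obtain ⟨ℓ', h1, h2, h3, h4, h5, h6⟩ := hS ℓ t (2 ^ j * t) hℓ hB hts
  have hℓ'1 : 1 ≤ ℓ' := le_trans hR h1
  have hρp : (0 : ℝ) < (ρ : ℝ) := by exact_mod_cast (lt_of_lt_of_le one_pos hρ1)
  have hℓp : (0 : ℝ) < (ℓ : ℝ) := by exact_mod_cast (lt_of_lt_of_le one_pos hℓ1)
  have hX : 0 ≤ ttq ε ^ j * ((ℓ : ℝ) / ρ) ^ ε :=
    mul_nonneg (pow_nonneg hq.1.le j) (Real.rpow_nonneg (div_pos hℓp hρp).le _)
  have h8 := tta6_R hq hρ1 j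
  by_cases hD : 16 * ℓ' ≤ ttR (ttq ε) ρ j
  · have e1 := shell_a hL hH hε1 hC₁.le hR h1 h3 h4 hD h8 b
    have e2 := ha ℓ ℓ' ρ t j hℓ1 hℓ'1 hρ1 ht0 hD h5
    have e3 := mul_le_mul_of_nonneg_left e2 hK.le
    have e4 : 0 ≤ Cb * (ttq ε ^ j * ((ℓ : ℝ) / ρ) ^ ε) := mul_nonneg hCb.le hX
    calc _ ≤ _ := e1
      _ ≤ _ := e3
      _ ≤ (C₁ * (40 / ε) * Ca + Cb) * (ttq ε ^ j * ((ℓ : ℝ) / ρ) ^ ε) := by
          rw [add_mul, mul_assoc (C₁ * (40 / ε)) Ca]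
          linarith
  · have hD' : ttR (ttq ε) ρ j < 16 * ℓ' := not_le.mp hD
    have f1 : ∑ v ∈ ttSh Q ρ, pr2 (kt (2 ^ j * t)) (W b v (ttR (ttq ε) ρ j)) ≤
        25 * (ρ : ℝ) ^ 2 := by
      refine le_trans ?_ (card_ttSh Q hρ1)
      have f2 : ∑ v ∈ ttSh Q ρ, pr2 (kt (2 ^ j * t)) (W b v (ttR (ttq ε) ρ j)) ≤
          ∑ _v ∈ ttSh Q ρ, (1 : ℝ) := by
        refine Finset.sum_le_sum (fun v _ => ?_)
        exact tta6_pr2_le (hE.locW b v _) (fun w => tta6_kt hs0.le w)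
      rw [Finset.sum_const, nsmul_eq_mul, mul_one] at f2
      exact f2
    have f3 : 0 ≤ 2 ^ j * t * Real.exp (-(2 ^ j * t)) := mul_nonneg hs0.le (Real.exp_pos _).le
    have f4 := mul_le_mul_of_nonneg_left f1 f3
    have f5 : 1 ≤ t * (ℓ : ℝ) ^ 2 := by
      have g1 : 1 ≤ t * ((ℓ : ℝ) ^ 2 * al L R₀ ℓ) := hB
      have g2 : (ℓ : ℝ) ^ 2 * al L R₀ ℓ ≤ (ℓ : ℝ) ^ 2 := by nlinarith
      have g3 : t * ((ℓ : ℝ) ^ 2 * al L R₀ ℓ) ≤ t * (ℓ : ℝ) ^ 2 :=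
        mul_le_mul_of_nonneg_left g2 ht0.le
      linarith
    have f6 := hb ℓ ℓ' ρ t j hℓ h1 hρ f5 hD' h6
    have f7 : 0 ≤ C₁ * (40 / ε) * Ca * (ttq ε ^ j * ((ℓ : ℝ) / ρ) ^ ε) :=
      mul_nonneg (mul_pos hK hCa).le hX
    calc _ ≤ _ := f4
      _ ≤ _ := f6
      _ ≤ (C₁ * (40 / ε) * Ca + Cb) * (ttq ε ^ j * ((ℓ : ℝ) / ρ) ^ ε) := by
          rw [add_mul]
          linarith

end SC
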