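import Pool.Agent.Lib_MP_e0a489.Defs2
import Pool.Agent.Lib_MP_e0a489.PF2

/-!
# MP_e0a489, module TT: graded lags
-/

set_option autoImplicit false

namespace SC

open Classical

theorem kt_mem {t : ℝ} (ht : 0 ≤ t) (v : Pt) : 0 ≤ kt t v ∧ kt t v ≤ 1 := by
  refine ⟨(Real.exp_pos _).le, ?_⟩
  show Real.exp (-t) ≤ 1
  rw [← Real.exp_zero]
  exact Real.exp_le_exp.2 (by linarith)

theorem kon_mem {W : Finset Pt} {e : ℝ} {κ : Pt → ℝ} (he : 0 ≤ e ∧ e ≤ 1)
    (hκ : ∀ v, 0 ≤ κ v ∧ κ v ≤ 1) (v : Pt) : 0 ≤ kon W e κ v ∧ kon W e κ v ≤ 1 := by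
  unfold kon
  split_ifs
  · exact he
  · exact hκ v

/-- the correlations after `j` steps -/
private noncomputable def ttg_k (V : ℕ → Finset Pt) (t : ℝ) : ℕ → Pt → ℝ
  | 0 => kt t
  | j + 1 => kon (V (j + 1)) (Real.exp (-(2 ^ (j + 1) * t))) (ttg_k V t j)

private theorem ttg_on {V : ℕ → Finset Pt} {t : ℝ} {j : ℕ} {v : Pt} (hv : v ∈ V j) :
    ttg_k V t j v = Real.exp (-(2 ^ j * t)) := by
  cases j with
  | zero =>
    show Real.exp (-t) = _
    rw [pow_zero, one_mul]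
  | succ j =>
    show kon (V (j + 1)) _ _ v = _
    unfold kon
    rw [if_pos hv]

private theorem ttg_le {V : ℕ → Finset Pt} {t : ℝ} (ht : 0 ≤ t) (j : ℕ) (v : Pt) :
    0 ≤ ttg_k V t j v ∧ ttg_k V t j v ≤ kt t v := by
  induction j with
  | zero => exact ⟨(kt_mem ht v).1, le_refl _⟩
  | succ j ih =>
    show 0 ≤ kon (V (j + 1)) _ _ v ∧ kon (V (j + 1)) _ _ v ≤ kt t v
    unfold kon
    split_ifs with h
    · refine ⟨(Real.exp_pos _).le, ?_⟩
      show _ ≤ Real.exp (-t)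
      refine Real.exp_le_exp.2 ?_
      have h1 : (1 : ℝ) ≤ 2 ^ (j + 1) := one_le_pow₀ (by norm_num)
      nlinarith
    · exact ih

private theorem ttg_kon {V : ℕ → Finset Pt} (hV : ∀ j, V (j + 1) ⊆ V j) {t : ℝ} (j : ℕ) :
    kon (V (j + 1)) (Real.exp (-(2 ^ j * t))) (ttg_k V t j) = ttg_k V t j := by
  funext v
  unfold kon
  split_ifs with h
  · exact (ttg_on (hV j h)).symm
  · rfl

private theorem ttg_kon_le {V : ℕ → Finset Pt} {t : ℝ} (ht : 0 ≤ t) (j : ℕ) (v : Pt) :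
    ttg_k V t j v ≤ kon (V j) (Real.exp (-(2 ^ j * t))) (kt t) v := by
  unfold kon
  split_ifs with h
  · exact (ttg_on h).le
  · exact (ttg_le ht j v).2

private theorem ttg_lf {g : Cfg → ℝ} (hg : Lf g) (v : Pt) : Lf (dv v g) := by
  obtain ⟨F, hF⟩ := hg
  exact ⟨F, (hF.dv v).mono Set.diff_subset⟩

/-- GRADED LAGS.  The lag is doubled on smaller and smaller sets: at the time `2 ^ j t` (reached on `V j`) it is
doubled on `V (j + 1)`. -/
theorem lag_graded {g : Cfg → ℝ} (hg : Lf g) {V : ℕ → Finset Pt} (hV : ∀ j, V (j + 1) ⊆ V j)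
    {t : ℝ} (ht : 0 ≤ t) (n : ℕ) :
    ex2 (kt t) g g ≤ ex2 (kon (V n) 0 (kt t)) g g +
      ∑ j ∈ Finset.range n, (2 ^ j * t) * ∑ v ∈ V (j + 1), Real.exp (-(2 ^ j * t)) *
        ex2 (kon (V j) (Real.exp (-(2 ^ j * t))) (kt t)) (dv v g) (dv v g) +
      Real.exp (-(2 ^ n * t)) * ex (fun ω => g ω ^ 2) := by
  have key : ∀ n : ℕ, ex2 (kt t) g g ≤ ex2 (ttg_k V t n) g g +
      ∑ j ∈ Finset.range n, (2 ^ j * t) * ∑ v ∈ V (j + 1), Real.exp (-(2 ^ j * t)) *
        ex2 (kon (V j) (Real.exp (-(2 ^ j * t))) (kt t)) (dv v g) (dv v g) := by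
    intro n
    induction n with
    | zero => simp [ttg_k]
    | succ n ih =>
      rw [Finset.sum_range_succ]
      have hs : 0 ≤ 2 ^ n * t := mul_nonneg (by positivity) ht
      have h1 := lag_up hg (V (n + 1)) (κ := ttg_k V t n) (fun v => (ttg_le ht n v).1) hs
      rw [ttg_kon hV n] at h1
      have e1 : (2 : ℝ) * (2 ^ n * t) = 2 ^ (n + 1) * t := by rw [pow_succ]; ring
      rw [e1] at h1
      have h2 : (2 ^ n * t) * ∑ v ∈ V (n + 1), Real.exp (-(2 ^ n * t)) *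
            ex2 (ttg_k V t n) (dv v g) (dv v g) ≤
          (2 ^ n * t) * ∑ v ∈ V (n + 1), Real.exp (-(2 ^ n * t)) *
            ex2 (kon (V n) (Real.exp (-(2 ^ n * t))) (kt t)) (dv v g) (dv v g) := by
        refine mul_le_mul_of_nonneg_left (Finset.sum_le_sum fun v _ => ?_) hs
        exact mul_le_mul_of_nonneg_left (ex2_mono_kappa (ttg_lf hg v)
          (fun v => (ttg_le ht n v).1) (ttg_kon_le ht n)) (Real.exp_pos _).le
      have h3 : ex2 (kon (V (n + 1)) (Real.exp (-(2 ^ (n + 1) * t))) (ttg_k V t n)) g g =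
          ex2 (ttg_k V t (n + 1)) g g := rfl
      rw [h3] at h1
      linarith
  have hs : 0 ≤ 2 ^ n * t := mul_nonneg (by positivity) ht
  have h1 := key n
  have h2 := lag_sum hg (V n) (κ := ttg_k V t n)
    (fun v => ⟨(ttg_le ht n v).1, (ttg_le ht n v).2.trans (kt_mem ht v).2⟩) hs 0
  have e2 : kon (V n) (Real.exp (-(2 ^ n * t))) (ttg_k V t n) = ttg_k V t n := by
    funext v
    unfold kon
    split_ifs with h
    · exact (ttg_on h).symm
    · rfl
  rw [e2] at h2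
  simp only [Finset.range_zero, Finset.sum_empty, add_zero, pow_zero, one_mul] at h2
  have h3 : ex2 (kon (V n) 0 (ttg_k V t n)) g g ≤ ex2 (kon (V n) 0 (kt t)) g g := by
    refine ex2_mono_kappa hg (fun v => ?_) (fun v => ?_)
    · unfold kon
      split_ifs
      · exact le_refl _
      · exact (ttg_le ht n v).1
    · unfold kon
      split_ifs
      · exact le_refl _
      · exact (ttg_le ht n v).2
  linarith

end SC
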