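import Pool.Agent.Lib_MP_e0a489.TTA2
import Pool.Agent.Lib_MP_e0a489.TTA3
import Pool.Agent.Lib_MP_e0a489.TTA5
import Pool.Agent.Lib_MP_e0a489.TTG

/-!
# MP_e0a489, module TTA 7: the inequality for one annulus
-/

set_option autoImplicit false

namespace SC

open Classical

variable {Q : Set Pt} {E : ℤ → ℤ → Cfg → Prop} {W : Bool → Pt → ℤ → Cfg → Prop}

private theorem tta7_ind_nonneg (A : Cfg → Prop) (ω : Cfg) : 0 ≤ ind A ω := by
  unfold ind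
  split_ifs <;> norm_num

private theorem tta7_ind_le {A B : Cfg → Prop} {ω : Cfg} (h : A ω → B ω) :
    ind A ω ≤ ind B ω := by
  unfold ind
  by_cases hA : A ω
  · rw [if_pos hA, if_pos (h hA)]
  · rw [if_neg hA]
    split_ifs <;> norm_num

private theorem tta7_lf_dv {g : Cfg → ℝ} (hg : Lf g) (v : Pt) : Lf (dv v g) := by
  obtain ⟨F, hF⟩ := hg
  exact ⟨F, (hF.dv v).mono Set.sdiff_subset⟩

private theorem tta7_sq (A : Cfg → Prop) : ex (fun ω => ind A ω ^ 2) ≤ 1 := by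
  have h : (fun ω => ind A ω ^ 2) = ind A := by
    funext ω
    unfold ind
    split_ifs <;> norm_num
  rw [h]
  exact pr_le_one A

private theorem tta7_exp {t : ℝ} (ht : 0 ≤ t) (j : ℕ) :
    Real.exp (-(2 ^ j * t)) ≤ Real.exp (-t) := by
  refine Real.exp_le_exp.2 ?_
  have h1 : (1 : ℝ) ≤ 2 ^ j := one_le_pow₀ (by norm_num)
  nlinarith

private theorem tta7_exp1 {t : ℝ} (ht : 0 ≤ t) (j : ℕ) :
    0 ≤ Real.exp (-(2 ^ j * t)) ∧ Real.exp (-(2 ^ j * t)) ≤ 1 := by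
  refine ⟨(Real.exp_pos _).le, ?_⟩
  rw [← Real.exp_zero]
  refine Real.exp_le_exp.2 ?_
  have h1 : (0 : ℝ) ≤ 2 ^ j := by positivity
  nlinarith

private theorem tta7_crF_nonneg {κ : Pt → ℝ} (hκ : ∀ v, 0 ≤ κ v ∧ κ v ≤ 1) (r R : ℤ) :
    0 ≤ crF E κ r R := by
  unfold crF
  split_ifs
  · exact ex2_nonneg κ hκ (tta7_ind_nonneg _) (tta7_ind_nonneg _)
  · norm_num

private theorem tta7_crF_mono (h : CrE Q E W) {κ κ' : Pt → ℝ} (h0 : ∀ v, 0 ≤ κ v)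
    (h1 : ∀ v, κ v ≤ κ' v) (r R : ℤ) : crF E κ r R ≤ crF E κ' r R := by
  unfold crF
  split_ifs
  · exact ex2_mono_kappa (h.loc r R).lf h0 h1
  · exact le_refl _

private theorem tta7_limit {X Y t : ℝ} (ht : 0 < t)
    (h : ∀ m : ℕ, X ≤ Y + Real.exp (-(2 ^ m * t))) : X ≤ Y := by
  have h1 : Filter.Tendsto (fun m : ℕ => Y + Real.exp (-(2 ^ m * t))) Filter.atTop
      (nhds (Y + 0)) := by
    refine Filter.Tendsto.add tendsto_const_nhds ?_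
    refine Real.tendsto_exp_neg_atTop_nhds_zero.comp ?_
    exact Filter.Tendsto.atTop_mul_const ht
      (tendsto_pow_atTop_atTop_of_one_lt (by norm_num : (1 : ℝ) < 2))
  rw [add_zero] at h1
  exact ge_of_tendsto' h1 h

private theorem tta7_geom {q : ℝ} (hq : 0 ≤ q ∧ q < 1) (m : ℕ) :
    ∑ j ∈ Finset.range m, q ^ j ≤ 1 / (1 - q) := by
  have h1 : 0 < 1 - q := by linarith [hq.2]
  have h2 : (∑ j ∈ Finset.range m, q ^ j) * (1 - q) = 1 - q ^ m := by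
    induction m with
    | zero => simp
    | succ m ih =>
      rw [Finset.sum_range_succ, add_mul, ih, pow_succ]
      ring
  rw [le_div_iff₀ h1, h2]
  linarith [pow_nonneg hq.1 m]

/-- FIRST TERM.  `E r R` implies `E (4 r) (R / 4)` (`CrE.mono`), which depends on `ann (4 r) (R / 4) ∩ Q ⊆ V n`
(`ttV_sup`), where the correlation is `0`: `pr2 ≤ pr ^ 2` (`ex2_mono`, `ex2_zero`). -/
theorem tt_first (h : CrE Q E W) {q : ℝ} (hq : 0 ≤ q ∧ q < 1) {r R : ℤ} (hr : 1 ≤ r)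
    (hR : 64 * r < R) {t : ℝ} (ht : 0 ≤ t) (n : ℕ) :
    ex2 (kon (ttV Q q r R n) 0 (kt t)) (ind (E r R)) (ind (E r R)) ≤
      pr (E (4 * r) (R / 4)) ^ 2 := by
  have hκ : ∀ v, 0 ≤ kon (ttV Q q r R n) 0 (kt t) v ∧ kon (ttV Q q r R n) 0 (kt t) v ≤ 1 :=
    kon_mem ⟨le_refl _, zero_le_one⟩ (kt_mem ht)
  have l1 : Lf (ind (E r R)) := (h.loc r R).lf
  have l2 : Lf (ind (E (4 * r) (R / 4))) := (h.loc (4 * r) (R / 4)).lf
  have hm : ∀ ω, ind (E r R) ω ≤ ind (E (4 * r) (R / 4)) ω := fun ω =>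
    tta7_ind_le (h.mono r R (4 * r) (R / 4) ω (by omega) (by omega) (by omega) (by omega))
  refine (ex2_mono l1 l1 l2 l2 _ hκ (tta7_ind_nonneg _) (tta7_ind_nonneg _) hm hm).trans ?_
  rw [ex2_zero l2 l2 (Dep.ind (h.dep (4 * r) (R / 4))) _ (fun v hv => ?_)]
  · unfold pr
    rw [sq]
  · unfold kon
    rw [if_pos (ttV_sup hq (by omega) n hv.2 hv.1.1 hv.1.2)]

/-- ONE SITE.  `κ = kon (V j) e^{-s} (kt t)`, `s = 2 ^ j t`, `ρ = 2 ^ (i+1) r`, `v ∈ V (j+1)` in the shell `ρ < nrm v ≤ 2 ρ`,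
`D = ttR q ρ j`.  `ex2_dv_le` and `piv_fac` (with `ρ / 2 = 2 ^ i r` for `ρ`; `4 D ≤ 2 ^ i r` by `ttR_le`; `2 nrm v ≤ R` by `ttV_mem`).  `κ ≤ kt t`
(`e^{-s} ≤ e^{-t}`), so `crF E κ ≤ crF E (kt t)` (`ex2_mono_kappa`).  `W b v D` depends on `bxAt v D ∩ Q ⊆ V j` (`ttV_ball`),
where `κ = e^{-s} = kt s` (`ex2_congr`). -/
theorem tt_site (h : CrE Q E W) {q : ℝ} (hq : 0 ≤ q ∧ q < 1) {r R : ℤ} (hr : 1 ≤ r)
    (hR : 64 * r < R) {t : ℝ} (ht : 0 ≤ t) (j i : ℕ) {v : Pt} (hv : v ∈ ttV Q q r R (j + 1))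
    (hv' : v ∈ ttSh Q (2 ^ (i + 1) * r)) :
    ex2 (kon (ttV Q q r R j) (Real.exp (-(2 ^ j * t))) (kt t)) (dv v (ind (E r R)))
        (dv v (ind (E r R))) ≤
      1 / 2 * (crF E (kt t) r (2 ^ i * r) * crF E (kt t) (8 * (2 ^ i * r)) R *
        (pr2 (kt (2 ^ j * t)) (W true v (ttR q (2 ^ (i + 1) * r) j)) +
          pr2 (kt (2 ^ j * t)) (W false v (ttR q (2 ^ (i + 1) * r) j)))) := by
  have hκ : ∀ z, 0 ≤ kon (ttV Q q r R j) (Real.exp (-(2 ^ j * t))) (kt t) z ∧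
      kon (ttV Q q r R j) (Real.exp (-(2 ^ j * t))) (kt t) z ≤ 1 :=
    kon_mem (tta7_exp1 ht j) (kt_mem ht)
  have hκt : ∀ z, kon (ttV Q q r R j) (Real.exp (-(2 ^ j * t))) (kt t) z ≤ kt t z := by
    intro z
    unfold kon
    split_ifs
    · exact tta7_exp ht j
    · exact le_refl _
  obtain ⟨κ, hκd⟩ : ∃ κ, κ = kon (ttV Q q r R j) (Real.exp (-(2 ^ j * t))) (kt t) := ⟨_, rfl⟩
  rw [← hκd] at hκ hκt ⊢
  unfold ttSh at hv'
  rw [Finset.mem_filter] at hv'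
  obtain ⟨_, hvQ, hv1, hv2⟩ := hv'
  have hp : (2 : ℤ) ^ (i + 1) * r = 2 * (2 ^ i * r) := by rw [pow_succ]; ring
  have hp1 : (1 : ℤ) ≤ 2 ^ i := one_le_pow₀ (by norm_num)
  have hp2 : r ≤ 2 ^ i * r := by nlinarith
  obtain ⟨_, _, hv3⟩ := ttV_mem hq hr (by omega) hv
  have hD := ttR_le (q := q) hq (ρ := 2 ^ (i + 1) * r) (by rw [hp]; omega) j
  have h1 := ex2_dv_le (h.loc r R) v hκ
  have h2 := piv_fac h hκ (r := r) (R := R) (ρ := 2 ^ i * r) (D := ttR q (2 ^ (i + 1) * r) j)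
    (v := v) hr hp2 hvQ (by rw [hp] at hv1; exact hv1) (by rw [hp] at hv2; omega)
    (by rw [hp] at hD ⊢; omega) hv3
  have hW : ∀ b, pr2 κ (W b v (ttR q (2 ^ (i + 1) * r) j)) =
      pr2 (kt (2 ^ j * t)) (W b v (ttR q (2 ^ (i + 1) * r) j)) := by
    intro b
    have lW : Lf (ind (W b v (ttR q (2 ^ (i + 1) * r) j))) := (h.locW b v _).lf
    refine ex2_congr lW lW (Dep.ind (h.depW b v _)) fun z hz => ?_
    have hz1 := ttV_ball hq (by omega) (by omega) hv (ρ := 2 ^ (i + 1) * r)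
      (by rw [hp]; omega) hv1 hz.2 hz.1
    rw [hκd]
    show kon _ _ _ z = Real.exp (-(2 ^ j * t))
    unfold kon
    rw [if_pos hz1]
  rw [hW, hW] at h2
  have hW0 : ∀ b, 0 ≤ pr2 (kt (2 ^ j * t)) (W b v (ttR q (2 ^ (i + 1) * r) j)) := fun b =>
    ex2_nonneg _ (kt_mem (by positivity)) (tta7_ind_nonneg _) (tta7_ind_nonneg _)
  have hc1 : crF E κ r (2 ^ i * r) ≤ crF E (kt t) r (2 ^ i * r) :=
    tta7_crF_mono h (fun z => (hκ z).1) hκt _ _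
  have hc2 : crF E κ (8 * (2 ^ i * r)) R ≤ crF E (kt t) (8 * (2 ^ i * r)) R :=
    tta7_crF_mono h (fun z => (hκ z).1) hκt _ _
  have hc3 : crF E κ r (2 ^ i * r) * crF E κ (8 * (2 ^ i * r)) R ≤
      crF E (kt t) r (2 ^ i * r) * crF E (kt t) (8 * (2 ^ i * r)) R :=
    mul_le_mul hc1 hc2 (tta7_crF_nonneg hκ _ _) (tta7_crF_nonneg (kt_mem ht) _ _)
  have hc4 := mul_le_mul_of_nonneg_right hc3 (add_nonneg (hW0 true) (hW0 false))
  linarith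

/-- STEP.  `lag_graded` with `V = ttV Q (ttq ε) r R`, for every `m`:
`pr2 (kt t) (E r R) ≤ (tt_first) + ∑_{j<m} 2^j t e^{-2^j t} ∑_{v ∈ V (j+1)} (..) + e^{-2^m t}` (`E[g²] ≤ 1`).  By `tt_shells` (with `n`) and `tt_site` the `j`-th
term is at most `∑_{i<n} crF r (2^i r) crF (8 2^i r) R (1/2) ∑_b 2^j t e^{-2^j t} ∑_{v ∈ ttSh} pr2 (kt (2^j t)) (W b v D)`
(`V ∩ shell ⊆ ttSh`, the terms are nonnegative) `≤ ∑_{i<n} crF crF C q^j (ℓ / (2^(i+1) r)) ^ ε` by the hypothesis `hsh` (`2^(i+1) r ≥ r ≥ Λ ℓ`), and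
`(ℓ / (2^(i+1) r)) ^ ε ≤ (ℓ / (2^i r)) ^ ε`.  `∑_j q^j ≤ 1 / (1 - q)`.  The bound holds for all `m`, and `e^{-2^m t} → 0`. -/
theorem tt_step (h : CrE Q E W) {ε C : ℝ} (hε : 0 < ε) (hC : 0 ≤ C) {ℓ Λ : ℤ} (hℓ : 1 ≤ ℓ)
    {t : ℝ} (ht : 0 < t)
    (hsh : ∀ (j : ℕ) (b : Bool) (ρ : ℤ), Λ * ℓ ≤ ρ → 2 ^ j * t * Real.exp (-(2 ^ j * t)) *
      ∑ v ∈ ttSh Q ρ, pr2 (kt (2 ^ j * t)) (W b v (ttR (ttq ε) ρ j)) ≤
        C * (ttq ε ^ j * ((ℓ : ℝ) / ρ) ^ ε)) {r R : ℤ} (hr : 1 ≤ r) (hr' : Λ * ℓ ≤ r)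
    (hR : 64 * r < R) : ∃ n : ℕ, (∀ i : ℕ, i < n → 2 ^ (i + 2) * r ≤ R) ∧
      pr2 (kt t) (E r R) ≤ pr (E (4 * r) (R / 4)) ^ 2 + C / (1 - ttq ε) *
        ∑ i ∈ Finset.range n, ((ℓ : ℝ) / ((2 : ℝ) ^ i * r)) ^ ε *
          (crF E (kt t) r (2 ^ i * r) * crF E (kt t) (8 * (2 ^ i * r)) R) := by
  obtain ⟨hq0, hq1⟩ := ttq_mem hε
  have hq : 0 ≤ ttq ε ∧ ttq ε < 1 := ⟨hq0.le, hq1⟩
  obtain ⟨n, hn, hshell⟩ := tt_shells (Q := Q) (r := r) (R := R) hr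
  refine ⟨n, hn, ?_⟩
  have lg : Lf (ind (E r R)) := (h.loc r R).lf
  -- abbreviation for the products
  obtain ⟨P, hP⟩ : ∃ P : ℕ → ℝ, ∀ i, P i =
      crF E (kt t) r (2 ^ i * r) * crF E (kt t) (8 * (2 ^ i * r)) R := ⟨_, fun _ => rfl⟩
  have hP0 : ∀ i, 0 ≤ P i := fun i => by
    rw [hP]
    exact mul_nonneg (tta7_crF_nonneg (kt_mem ht.le) _ _) (tta7_crF_nonneg (kt_mem ht.le) _ _)
  have hrw : ∑ i ∈ Finset.range n, ((ℓ : ℝ) / ((2 : ℝ) ^ i * r)) ^ ε *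
      (crF E (kt t) r (2 ^ i * r) * crF E (kt t) (8 * (2 ^ i * r)) R) =
      ∑ i ∈ Finset.range n, ((ℓ : ℝ) / ((2 : ℝ) ^ i * r)) ^ ε * P i :=
    Finset.sum_congr rfl fun i _ => by rw [hP]
  rw [hrw]
  obtain ⟨S, hS⟩ : ∃ S, S = ∑ i ∈ Finset.range n, ((ℓ : ℝ) / ((2 : ℝ) ^ i * r)) ^ ε * P i :=
    ⟨_, rfl⟩
  rw [← hS]
  have hrR : (0 : ℝ) < r := by exact_mod_cast (by omega : (0 : ℤ) < r)
  have hℓR : (0 : ℝ) < ℓ := by exact_mod_cast (by omega : (0 : ℤ) < ℓ)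
  have hS0 : 0 ≤ S := by
    rw [hS]
    refine Finset.sum_nonneg fun i _ => mul_nonneg (Real.rpow_nonneg ?_ _) (hP0 i)
    positivity
  refine tta7_limit ht fun m => ?_
  have hlag := lag_graded lg (V := ttV Q (ttq ε) r R)
    (fun j => ttV_anti ⟨hq.1, hq.2.le⟩ (by omega) (by omega) j) ht.le m
  have hfirst := tt_first h hq hr hR ht.le m
  have hlast : Real.exp (-(2 ^ m * t)) * ex (fun ω => ind (E r R) ω ^ 2) ≤
      Real.exp (-(2 ^ m * t)) := by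
    have h1 := mul_le_mul_of_nonneg_left (tta7_sq (E r R)) (Real.exp_pos (-(2 ^ m * t))).le
    rwa [mul_one] at h1
  have hmid : ∀ j : ℕ, (2 ^ j * t) * ∑ v ∈ ttV Q (ttq ε) r R (j + 1), Real.exp (-(2 ^ j * t)) *
      ex2 (kon (ttV Q (ttq ε) r R j) (Real.exp (-(2 ^ j * t))) (kt t)) (dv v (ind (E r R)))
        (dv v (ind (E r R))) ≤ C * S * ttq ε ^ j := by
    intro j
    have hf0 : ∀ v, 0 ≤ ex2 (kon (ttV Q (ttq ε) r R j) (Real.exp (-(2 ^ j * t))) (kt t))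
        (dv v (ind (E r R))) (dv v (ind (E r R))) := fun v =>
      ex2_self_nonneg (tta7_lf_dv lg v) _ fun z =>
        (kon_mem (tta7_exp1 ht.le j) (kt_mem ht.le) z).1
    have hs1 := hshell (ttV Q (ttq ε) r R (j + 1)) (fun v =>
      ex2 (kon (ttV Q (ttq ε) r R j) (Real.exp (-(2 ^ j * t))) (kt t))
        (dv v (ind (E r R))) (dv v (ind (E r R)))) hf0
      (fun v hv => ttV_mem hq hr (by omega) hv)
    have hc : 0 ≤ 2 ^ j * t * Real.exp (-(2 ^ j * t)) := by positivity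
    have hshl : ∀ i ∈ Finset.range n, 2 ^ j * t * Real.exp (-(2 ^ j * t)) *
        ∑ v ∈ (ttV Q (ttq ε) r R (j + 1)).filter (fun v => v ∈ ttSh Q (2 ^ (i + 1) * r)),
          ex2 (kon (ttV Q (ttq ε) r R j) (Real.exp (-(2 ^ j * t))) (kt t))
            (dv v (ind (E r R))) (dv v (ind (E r R))) ≤
        C * (((ℓ : ℝ) / ((2 : ℝ) ^ i * r)) ^ ε * P i) * ttq ε ^ j := by
      intro i _
      have hW0 : ∀ (b : Bool) (v : Pt),
          0 ≤ pr2 (kt (2 ^ j * t)) (W b v (ttR (ttq ε) (2 ^ (i + 1) * r) j)) := fun b v =>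
        ex2_nonneg _ (kt_mem (by positivity)) (tta7_ind_nonneg _) (tta7_ind_nonneg _)
      have e1 : ∑ v ∈ (ttV Q (ttq ε) r R (j + 1)).filter (fun v => v ∈ ttSh Q (2 ^ (i + 1) * r)),
          ex2 (kon (ttV Q (ttq ε) r R j) (Real.exp (-(2 ^ j * t))) (kt t))
            (dv v (ind (E r R))) (dv v (ind (E r R))) ≤
          1 / 2 * P i * (∑ v ∈ ttSh Q (2 ^ (i + 1) * r),
            pr2 (kt (2 ^ j * t)) (W true v (ttR (ttq ε) (2 ^ (i + 1) * r) j)) +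
          ∑ v ∈ ttSh Q (2 ^ (i + 1) * r),
            pr2 (kt (2 ^ j * t)) (W false v (ttR (ttq ε) (2 ^ (i + 1) * r) j))) := by
        rw [← Finset.sum_add_distrib, Finset.mul_sum]
        refine (Finset.sum_le_sum (g := fun v => 1 / 2 * P i *
          (pr2 (kt (2 ^ j * t)) (W true v (ttR (ttq ε) (2 ^ (i + 1) * r) j)) +
            pr2 (kt (2 ^ j * t)) (W false v (ttR (ttq ε) (2 ^ (i + 1) * r) j))))
          fun v hv => ?_).trans ?_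
        · rw [Finset.mem_filter] at hv
          have h1 := tt_site h hq hr hR ht.le j i hv.1 hv.2
          rw [← hP] at h1
          refine h1.trans (le_of_eq ?_)
          ring
        · refine Finset.sum_le_sum_of_subset_of_nonneg (fun v hv => (Finset.mem_filter.1 hv).2)
            fun v _ _ => ?_
          have h1 := hP0 i
          have h2 := hW0 true v
          have h3 := hW0 false v
          positivity
      have hp1 : (1 : ℤ) ≤ 2 ^ (i + 1) := one_le_pow₀ (by norm_num)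
      have hp2 : r ≤ 2 ^ (i + 1) * r := by nlinarith
      have e2 := hsh j true (2 ^ (i + 1) * r) (hr'.trans hp2)
      have e3 := hsh j false (2 ^ (i + 1) * r) (hr'.trans hp2)
      have e4 : ((ℓ : ℝ) / ((2 ^ (i + 1) * r : ℤ) : ℝ)) ^ ε ≤
          ((ℓ : ℝ) / ((2 : ℝ) ^ i * r)) ^ ε := by
        refine Real.rpow_le_rpow (by push_cast; positivity) ?_ hε.le
        push_cast
        refine div_le_div_of_nonneg_left hℓR.le (by positivity) ?_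
        rw [pow_succ]
        have h1 : (0 : ℝ) < 2 ^ i := by positivity
        nlinarith [mul_pos h1 hrR]
      have e5 : C * (ttq ε ^ j * ((ℓ : ℝ) / ((2 ^ (i + 1) * r : ℤ) : ℝ)) ^ ε) ≤
          C * (ttq ε ^ j * ((ℓ : ℝ) / ((2 : ℝ) ^ i * r)) ^ ε) :=
        mul_le_mul_of_nonneg_left (mul_le_mul_of_nonneg_left e4 (by positivity)) hC
      have e6 := mul_le_mul_of_nonneg_left e1 hc
      refine e6.trans ?_
      have e7 : 2 ^ j * t * Real.exp (-(2 ^ j * t)) * (1 / 2 * P i *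
          (∑ v ∈ ttSh Q (2 ^ (i + 1) * r),
            pr2 (kt (2 ^ j * t)) (W true v (ttR (ttq ε) (2 ^ (i + 1) * r) j)) +
          ∑ v ∈ ttSh Q (2 ^ (i + 1) * r),
            pr2 (kt (2 ^ j * t)) (W false v (ttR (ttq ε) (2 ^ (i + 1) * r) j)))) =
          1 / 2 * P i * (2 ^ j * t * Real.exp (-(2 ^ j * t)) * ∑ v ∈ ttSh Q (2 ^ (i + 1) * r),
            pr2 (kt (2 ^ j * t)) (W true v (ttR (ttq ε) (2 ^ (i + 1) * r) j)) +
          2 ^ j * t * Real.exp (-(2 ^ j * t)) * ∑ v ∈ ttSh Q (2 ^ (i + 1) * r),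
            pr2 (kt (2 ^ j * t)) (W false v (ttR (ttq ε) (2 ^ (i + 1) * r) j))) := by ring
      rw [e7]
      have hPi : 0 ≤ 1 / 2 * P i := by linarith [hP0 i]
      have e8 := mul_le_mul_of_nonneg_left (add_le_add (e2.trans e5) (e3.trans e5)) hPi
      refine e8.trans (le_of_eq ?_)
      ring
    rw [← Finset.mul_sum]
    have e9 : 2 ^ j * t * (Real.exp (-(2 ^ j * t)) * ∑ v ∈ ttV Q (ttq ε) r R (j + 1),
        ex2 (kon (ttV Q (ttq ε) r R j) (Real.exp (-(2 ^ j * t))) (kt t)) (dv v (ind (E r R)))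
          (dv v (ind (E r R)))) ≤ 2 ^ j * t * Real.exp (-(2 ^ j * t)) *
        ∑ i ∈ Finset.range n, ∑ v ∈ (ttV Q (ttq ε) r R (j + 1)).filter
          (fun v => v ∈ ttSh Q (2 ^ (i + 1) * r)),
          ex2 (kon (ttV Q (ttq ε) r R j) (Real.exp (-(2 ^ j * t))) (kt t))
            (dv v (ind (E r R))) (dv v (ind (E r R))) := by
      rw [← mul_assoc]
      exact mul_le_mul_of_nonneg_left hs1 hc
    refine e9.trans ?_
    rw [Finset.mul_sum]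
    refine (Finset.sum_le_sum hshl).trans (le_of_eq ?_)
    rw [← Finset.sum_mul, ← Finset.mul_sum, hS]
  have hsum : ∑ j ∈ Finset.range m, (2 ^ j * t) * ∑ v ∈ ttV Q (ttq ε) r R (j + 1),
      Real.exp (-(2 ^ j * t)) * ex2 (kon (ttV Q (ttq ε) r R j) (Real.exp (-(2 ^ j * t))) (kt t))
        (dv v (ind (E r R))) (dv v (ind (E r R))) ≤ C / (1 - ttq ε) * S := by
    refine (Finset.sum_le_sum fun j _ => hmid j).trans ?_
    rw [← Finset.mul_sum]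
    have h1 := mul_le_mul_of_nonneg_left (tta7_geom hq m) (mul_nonneg hC hS0)
    refine h1.trans (le_of_eq ?_)
    ring
  unfold pr2
  linarith

end SC
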