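import Pool.Agent.Lib_MP_e0a489.TTA1
import Pool.Agent.Lib_MP_e0a489.TTA6
import Pool.Agent.Lib_MP_e0a489.TTA7

/-!
# MP_e0a489, module TTA: the abstract theorem for the half plane and the corner
-/

set_option autoImplicit false

namespace SC

open Classical

private theorem tta9_kt {t : ℝ} (ht : 0 < t) (v : Pt) : 0 ≤ kt t v ∧ kt t v ≤ 1 := by
  refine ⟨(Real.exp_pos _).le, ?_⟩
  show Real.exp (-t) ≤ 1
  rw [← Real.exp_zero]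
  exact Real.exp_le_exp.2 (by linarith)

private theorem tta9_ind (A : Cfg → Prop) (ω : Cfg) : 0 ≤ ind A ω := by
  unfold ind
  split_ifs <;> norm_num

private theorem tta9_pr2 {A : Cfg → Prop} (hA : Loc A) {κ : Pt → ℝ}
    (hκ : ∀ v, 0 ≤ κ v ∧ κ v ≤ 1) : 0 ≤ pr2 κ A ∧ pr2 κ A ≤ 1 := by
  refine ⟨ex2_nonneg κ hκ (tta9_ind _) (tta9_ind _), ?_⟩
  have h := ex2_le_sq hA.lf κ hκ
  have e : (fun ω => ind A ω ^ 2) = ind A := by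
    funext ω
    unfold ind
    split_ifs <;> norm_num
  rw [e] at h
  exact le_trans h (pr_le_one A)

private theorem tta9_pos {L : Lat} {R₀ ℓ : ℤ} {t : ℝ} (hB : Beyond L R₀ ℓ t) : 0 < t := by
  unfold Beyond at hB
  by_contra hneg
  have hal : 0 ≤ al L R₀ ℓ := by
    unfold al
    split_ifs
    · exact pr_nonneg _
    · exact zero_le_one
  have h1 : t * ((ℓ : ℝ) ^ 2 * al L R₀ ℓ) ≤ 0 :=
    mul_nonpos_of_nonpos_of_nonneg (not_lt.1 hneg) (by positivity)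
  linarith

/-- `boot_real` with `F = crF E (kt t)`, `c = ε`, `C₁` (there) `= C / (1 - ttq ε)` from `shell_time` and `tt_step`.
`0 ≤ F ≤ 1` (`pr2 ≤ 1`).  For `r < R` `F r R = pr2 (kt t) (E r R)`; for `r = R` use `pr2 ≤ 1 = F r r`. -/
theorem graded_boot {L : Lat} {R₀ : ℤ} {C₀ C₁ C₂ C₃ C₄ ε : ℝ} (hε : 0 < ε ∧ ε ≤ 1 / 8)
    (hR : 1 ≤ R₀) (h0 : 0 < C₀) (h1 : 0 < C₁) (h2 : 0 < C₂) (h3 : 0 < C₃) (h4 : 0 < C₄)
    (hS : ScaleOK L C₃ R₀) : ∃ (M : ℝ) (Λ : ℤ), 0 < M ∧ 1 ≤ Λ ∧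
    ∀ (Q : Set Pt) (E : ℤ → ℤ → Cfg → Prop) (W : Bool → Pt → ℤ → Cfg → Prop) (ht : Pt → ℤ)
      (G : ℤ → ℤ → ℝ), CrE Q E W → HtOK Q ht → LocB L R₀ Q W ht C₁ C₃ ε →
      (∀ r R, R₀ ≤ r → 0 < G r R) → (∀ r R, R₀ ≤ r → R ≤ 64 * r → 1 ≤ C₄ * G r R) →
      (∀ r ρ R, R₀ ≤ r → r ≤ ρ → ρ ≤ R → G r ρ * G (8 * ρ) R ≤ C₂ * G r R) →
      (∀ r R, R₀ ≤ r → 64 * r < R → pr (E (4 * r) (R / 4)) ^ 2 ≤ C₀ * G r R) →
      ∀ (ℓ : ℤ) (t : ℝ), R₀ ≤ ℓ → Beyond L R₀ ℓ t → ∀ r R : ℤ, Λ * ℓ ≤ r → r ≤ R →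
        pr2 (kt t) (E r R) ≤ M * G r R := by
  obtain ⟨hq0, hq1⟩ := ttq_mem hε.1
  obtain ⟨C, Λ₁, hC, hΛ₁, hsh⟩ := shell_time (L := L) hε hR h1 h3 hS
  have hC' : 0 ≤ C / (1 - ttq ε) := div_nonneg hC.le (by linarith)
  obtain ⟨M, Λ, hM, hΛ, hboot⟩ := boot_real (C₀ := C₀) (C₁ := C / (1 - ttq ε)) (C₂ := C₂)
    (C₃ := C₄) (c := ε) Λ₁ h0.le hC' h2.le h4.le hε.1
  refine ⟨M, Λ, hM, hΛ, ?_⟩
  intro Q E W ht G hE hht hL hG hG1 hG2 hG3 ℓ t hℓ hB r R hr hrR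
  have hℓ1 : 1 ≤ ℓ := le_trans hR hℓ
  have ht0 : 0 < t := tta9_pos hB
  have hκ := tta9_kt ht0
  have hF : ∀ r R : ℤ, 0 ≤ crF E (kt t) r R ∧ crF E (kt t) r R ≤ 1 := by
    intro r R
    unfold crF
    split_ifs
    · exact tta9_pr2 (hE.loc r R) hκ
    · exact ⟨zero_le_one, le_rfl⟩
  have key := hboot ℓ (crF E (kt t)) G hℓ1 hF (fun r R h => hG r R (le_trans hℓ h))
    (fun r R h h' => hG1 r R (le_trans hℓ h) h')
    (fun r ρ R h h' h'' => hG2 r ρ R (le_trans hℓ h) h' h'') (by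
      intro r R h h' h''
      have hr1 : 1 ≤ r := le_trans hℓ1 h'
      obtain ⟨n, hn, hle⟩ := tt_step hE hε.1 hC.le hℓ1 ht0
        (hsh Q E W ht hE hht hL ℓ t hℓ hB) hr1 h h''
      refine ⟨n, hn, ?_⟩
      have hcr : crF E (kt t) r R = pr2 (kt t) (E r R) := by
        unfold crF
        rw [if_pos (by omega)]
      rw [hcr]
      have h5 := hG3 r R (le_trans hℓ h') h''
      linarith) r R hr
  refine le_trans ?_ key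
  unfold crF
  split_ifs
  · exact le_rfl
  · exact (tta9_pr2 (hE.loc r R) hκ).2

end SC
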