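import Pool.Agent.Lib_MP_e0a489.TT2

/-!
# MP_e0a489, module TT, scales: the correlation length of the lag `s`, local factors
-/

set_option autoImplicit false

namespace SC

variable [IfL] [IfX]

namespace TT

open Classical

variable {L : Lat} {C c : ℝ} {R₀ : ℤ}

private theorem tts_al_self (L : Lat) (r : ℤ) : al L r r = 1 := by
  unfold al
  rw [if_neg (lt_irrefl r)]

private theorem tts_pr2_nonneg (L : Lat) (b : Bool) (x : Pt) (r d : ℤ) {s : ℝ} (hs : 0 ≤ s) :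
    0 ≤ pr2 (kt s) (L.TwoAt b x r d) :=
  (sq_nonneg _).trans (pr2_ge_sq (TwoAt_loc L b x r d) (kt_kap hs))

private theorem tts_exp_half {s : ℝ} (hs : 0 ≤ s) : s * Real.exp (-(s / 2)) ≤ 2 := by
  have h1 : s / 2 + 1 ≤ Real.exp (s / 2) := Real.add_one_le_exp _
  have h2 : Real.exp (s / 2) * Real.exp (-(s / 2)) = 1 := by
    rw [← Real.exp_add, add_neg_cancel, Real.exp_zero]
  have h3 : 0 < Real.exp (-(s / 2)) := Real.exp_pos _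
  have h4 : (s / 2 + 1) * Real.exp (-(s / 2)) ≤ 1 :=
    (mul_le_mul_of_nonneg_right h1 h3.le).trans h2.le
  nlinarith

private theorem tts_exp_one (s : ℝ) : s * Real.exp (-s) ≤ 1 := by
  have h1 : s + 1 ≤ Real.exp s := Real.add_one_le_exp _
  have h2 : Real.exp s * Real.exp (-s) = 1 := by
    rw [← Real.exp_add, add_neg_cancel, Real.exp_zero]
  have h3 : 0 < Real.exp (-s) := Real.exp_pos _
  have h4 : (s + 1) * Real.exp (-s) ≤ 1 :=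
    (mul_le_mul_of_nonneg_right h1 h3.le).trans h2.le
  nlinarith

/-- CORRELATION LENGTH of the lag `s ≥ t`.  Let `ℓ'` be the smallest integer `≥ R₀` with `Beyond L R₀ ℓ' s`; `ℓ` is such an integer (`t ≤ s`), so
`ℓ' ≤ ℓ`.  If `ℓ' > R₀` then `s (ℓ'-1) ^ 2 al L R₀ (ℓ'-1) < 1`, `ℓ' ≤ 2 (ℓ'-1)`, `al L R₀ ℓ' ≤ al L R₀ (ℓ'-1)` (`mono`), so `s ℓ' ^ 2 al L R₀ ℓ' ≤ 4`; and
`al L R₀ ℓ ≤ al L R₀ ℓ'`, `1 ≤ t ℓ ^ 2 al L R₀ ℓ ≤ t ℓ ^ 2 al L R₀ ℓ'`, so (multiply the inequality `s ℓ' ^ 2 al L R₀ ℓ' ≤ 4` by `t ℓ ^ 2` and divide by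
`t ℓ ^ 2 al L R₀ ℓ' ≥ 1`) `s ℓ' ^ 2 ≤ 4 t ℓ ^ 2`. -/
theorem scale (hp : TP L C c R₀) {ℓ : ℤ} {t s : ℝ} (hℓ : R₀ ≤ ℓ) (hb : Beyond L R₀ ℓ t)
    (hts : t ≤ s) : ∃ ℓ' : ℤ, R₀ ≤ ℓ' ∧ ℓ' ≤ ℓ ∧ Beyond L R₀ ℓ' s ∧
      (ℓ' = R₀ ∨ (s * ((ℓ' : ℝ) ^ 2 * al L R₀ ℓ') ≤ 4 ∧ s * (ℓ' : ℝ) ^ 2 ≤ 4 * (t * (ℓ : ℝ) ^ 2))) := by
  have ht := hp.beyond_pos hℓ hb
  have hs0 : 0 < s := ht.1.trans_le hts
  have hal0 : 0 < al L R₀ ℓ := hp.ap.pos R₀ ℓ le_rfl hℓ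
  have hbs : Beyond L R₀ ℓ s := by
    unfold Beyond at hb ⊢
    exact hb.trans (mul_le_mul_of_nonneg_right hts (mul_nonneg (sq_nonneg _) hal0.le))
  obtain ⟨ℓ', ⟨h1, h2⟩, h3⟩ := Int.exists_least_of_bdd
    (P := fun n => R₀ ≤ n ∧ Beyond L R₀ n s) ⟨R₀, fun z hz => hz.1⟩ ⟨ℓ, hℓ, hbs⟩
  refine ⟨ℓ', h1, h3 ℓ ⟨hℓ, hbs⟩, h2, ?_⟩
  rcases h1.eq_or_lt with he | hlt
  · exact Or.inl he.symm
  right
  have hR := hp.ap.R16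
  have hnb : ¬ Beyond L R₀ (ℓ' - 1) s := by
    intro h
    have := h3 (ℓ' - 1) ⟨by omega, h⟩
    omega
  unfold Beyond at hnb hb
  push_cast at hnb
  rw [not_le] at hnb
  have hℓ'17 : (17 : ℝ) ≤ ℓ' := by exact_mod_cast (by omega : (17 : ℤ) ≤ ℓ')
  have hal' : 0 < al L R₀ ℓ' := hp.ap.pos R₀ ℓ' le_rfl h1
  have hm1 : al L R₀ ℓ' ≤ al L R₀ (ℓ' - 1) :=
    hp.ap.mono R₀ (ℓ' - 1) R₀ ℓ' (by omega) le_rfl (by omega) (by omega)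
  have hm2 : al L R₀ ℓ ≤ al L R₀ ℓ' :=
    hp.ap.mono R₀ ℓ' R₀ ℓ (by omega) le_rfl h1 (h3 ℓ ⟨hℓ, hbs⟩)
  have hsq : (ℓ' : ℝ) ^ 2 ≤ 4 * ((ℓ' : ℝ) - 1) ^ 2 := by nlinarith
  have e1 : s * ((ℓ' : ℝ) ^ 2 * al L R₀ ℓ') ≤ 4 := by
    have e2 : (ℓ' : ℝ) ^ 2 * al L R₀ ℓ' ≤ 4 * ((ℓ' : ℝ) - 1) ^ 2 * al L R₀ (ℓ' - 1) :=
      mul_le_mul hsq hm1 hal'.le (by positivity)
    have e3 := mul_le_mul_of_nonneg_left e2 hs0.le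
    nlinarith
  refine ⟨e1, ?_⟩
  have e4 : 1 ≤ t * ((ℓ : ℝ) ^ 2 * al L R₀ ℓ') :=
    hb.trans (mul_le_mul_of_nonneg_left (mul_le_mul_of_nonneg_left hm2 (sq_nonneg _)) ht.1.le)
  have e5 : 0 ≤ s * (ℓ' : ℝ) ^ 2 := by positivity
  have e6 : s * (ℓ' : ℝ) ^ 2 * 1 ≤ s * (ℓ' : ℝ) ^ 2 * (t * ((ℓ : ℝ) ^ 2 * al L R₀ ℓ')) :=
    mul_le_mul_of_nonneg_left e4 e5
  have e7 : 0 ≤ t * (ℓ : ℝ) ^ 2 := by have := ht.1; positivity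
  have e8 := mul_le_mul_of_nonneg_right e1 e7
  calc s * (ℓ' : ℝ) ^ 2 ≤ s * (ℓ' : ℝ) ^ 2 * (t * ((ℓ : ℝ) ^ 2 * al L R₀ ℓ')) := by
        rw [mul_one] at e6; exact e6
    _ = s * ((ℓ' : ℝ) ^ 2 * al L R₀ ℓ') * (t * (ℓ : ℝ) ^ 2) := by ring
    _ ≤ 4 * (t * (ℓ : ℝ) ^ 2) := e8

/-- The same with a weight `exp (- s / 2)` and without alternative.  If `ℓ' = R₀`: `al L R₀ R₀ = 1`, `s exp (-s/2) ≤ 1`, and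
`s exp (-s) R₀ ^ 2 ≤ R₀ ^ 2 ≤ R₀ ^ 2 t ℓ ^ 2` (`beyond_pos`); otherwise the exponentials are at most `1` and `R₀ ≥ 1`. -/
theorem scale' (hp : TP L C c R₀) {ℓ : ℤ} {t s : ℝ} (hℓ : R₀ ≤ ℓ) (hb : Beyond L R₀ ℓ t)
    (hts : t ≤ s) : ∃ ℓ' : ℤ, R₀ ≤ ℓ' ∧ ℓ' ≤ ℓ ∧ Beyond L R₀ ℓ' s ∧
      s * Real.exp (-(s / 2)) * ((ℓ' : ℝ) ^ 2 * al L R₀ ℓ') ≤ 4 * (R₀ : ℝ) ^ 2 ∧
      s * Real.exp (-s) * (ℓ' : ℝ) ^ 2 ≤ 4 * (R₀ : ℝ) ^ 2 * (t * (ℓ : ℝ) ^ 2) := by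
  obtain ⟨ℓ', h1, h2, h3, h4⟩ := scale hp hℓ hb hts
  have ht := hp.beyond_pos hℓ hb
  have hs0 : 0 < s := ht.1.trans_le hts
  have hR := hp.ap.R16
  have hR1 : (1 : ℝ) ≤ (R₀ : ℝ) ^ 2 := by
    have : (16 : ℝ) ≤ R₀ := by exact_mod_cast hR
    nlinarith
  refine ⟨ℓ', h1, h2, h3, ?_⟩
  rcases h4 with h4 | ⟨h4, h5⟩
  · subst h4
    have e1 := tts_exp_half hs0.le
    have e2 := tts_exp_one s
    constructor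
    · rw [tts_al_self, mul_one]
      nlinarith
    · have e3 : 0 ≤ s * Real.exp (-s) := by positivity
      have e4 : s * Real.exp (-s) * (ℓ' : ℝ) ^ 2 ≤ 1 * (ℓ' : ℝ) ^ 2 :=
        mul_le_mul_of_nonneg_right e2 (sq_nonneg _)
      have e5 : (ℓ' : ℝ) ^ 2 * 1 ≤ (ℓ' : ℝ) ^ 2 * (t * (ℓ : ℝ) ^ 2) :=
        mul_le_mul_of_nonneg_left ht.2 (sq_nonneg _)
      nlinarith
  · have hal' : 0 < al L R₀ ℓ' := hp.ap.pos R₀ ℓ' le_rfl h1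
    have hE1 : Real.exp (-(s / 2)) ≤ 1 := by
      rw [Real.exp_le_one_iff]; linarith
    have hE2 : Real.exp (-s) ≤ 1 := by
      rw [Real.exp_le_one_iff]; linarith
    constructor
    · have e1 : 0 ≤ s * ((ℓ' : ℝ) ^ 2 * al L R₀ ℓ') := by positivity
      have e2 := mul_le_mul_of_nonneg_right hE1 e1
      calc s * Real.exp (-(s / 2)) * ((ℓ' : ℝ) ^ 2 * al L R₀ ℓ')
          = Real.exp (-(s / 2)) * (s * ((ℓ' : ℝ) ^ 2 * al L R₀ ℓ')) := by ring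
        _ ≤ 1 * (s * ((ℓ' : ℝ) ^ 2 * al L R₀ ℓ')) := e2
        _ ≤ 4 := by rw [one_mul]; exact h4
        _ ≤ 4 * (R₀ : ℝ) ^ 2 := by linarith
    · have e1 : 0 ≤ s * (ℓ' : ℝ) ^ 2 := by positivity
      have e2 := mul_le_mul_of_nonneg_right hE2 e1
      have e3 : 0 ≤ t * (ℓ : ℝ) ^ 2 := by linarith [ht.2]
      calc s * Real.exp (-s) * (ℓ' : ℝ) ^ 2 = Real.exp (-s) * (s * (ℓ' : ℝ) ^ 2) := by ring
        _ ≤ 1 * (s * (ℓ' : ℝ) ^ 2) := e2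
        _ ≤ 4 * (t * (ℓ : ℝ) ^ 2) := by rw [one_mul]; exact h5
        _ ≤ 4 * (R₀ : ℝ) ^ 2 * (t * (ℓ : ℝ) ^ 2) := by nlinarith

/-- LOCAL FACTOR.  `s` beyond the scale `ℓ'`: one-time bound up to `ℓ'`, then `KBOK`.  If `ℓ' = R₀`: `KBOK` with `r = R₀`, `al L R₀ R₀ = 1`, `C ≥ 1`.  If `ℓ' = d`:
`pr2 ≤ pr ≤ C al L R₀ d` (`AlProps.cmp`).  Otherwise `TwoAt b x R₀ d ⊆ TwoAt b x R₀ ℓ' ∧ TwoAt b x ℓ' d` (`TwoAt_mono`), `pr2_and` (`TwoAt_dep`),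
`pr2_le_pr`, `AlProps.cmp`, `KBOK`. -/
theorem loc_bulk (hp : TP L C c R₀) {C₁ c₁ : ℝ} (h1 : 1 ≤ C₁) (hc₁ : 0 ≤ c₁) (hk : KBOK L C₁ c₁ R₀) {ℓ' : ℤ}
    {s : ℝ} (hℓ : R₀ ≤ ℓ') (hb : Beyond L R₀ ℓ' s) (b : Bool) (x : Pt) {d : ℤ} (hd : ℓ' ≤ d) :
    pr2 (kt s) (L.TwoAt b x R₀ d) ≤ C * C₁ * (al L R₀ ℓ' * ((ℓ' : ℝ) / d) ^ (2 + c₁)) := by
  have hC := hp.ap.C1
  have hs := hp.beyond_pos hℓ hb
  have hR := hp.ap.R16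
  have hK := kt_kap hs.1.le
  have hd0 : (0 : ℝ) < d := by exact_mod_cast (by omega : (0 : ℤ) < d)
  have hl0 : (0 : ℝ) < ℓ' := by exact_mod_cast (by omega : (0 : ℤ) < ℓ')
  have hal := hp.ap.pos R₀ ℓ' le_rfl hℓ
  have hpow : 0 ≤ ((ℓ' : ℝ) / d) ^ (2 + c₁) := by positivity
  rcases hd.eq_or_lt with he | hlt
  · subst he
    have e1 := (pr2_le_pr (TwoAt_loc L b x R₀ ℓ') hK).trans
      (hp.ap.cmp b x R₀ ℓ' R₀ ℓ' le_rfl le_rfl hℓ (by omega) hℓ (by omega))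
    rw [div_self hl0.ne', Real.one_rpow, mul_one]
    have e2 : 0 ≤ C * al L R₀ ℓ' := by positivity
    nlinarith
  rcases hℓ.eq_or_lt with he | hlt'
  · have e1 := hk ℓ' s hℓ hb b x ℓ' d le_rfl hd
    have e2 : pr2 (kt s) (L.TwoAt b x R₀ d) = pr2 (kt s) (L.TwoAt b x ℓ' d) := by rw [← he]
    rw [e2]
    have e3 : al L R₀ ℓ' = 1 := by rw [← he]; exact tts_al_self L R₀
    rw [e3, one_mul]
    have e4 : 0 ≤ C₁ * ((ℓ' : ℝ) / d) ^ (2 + c₁) := by positivity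
    nlinarith
  · have e0 : pr2 (kt s) (L.TwoAt b x R₀ d) ≤
        pr2 (kt s) (fun ω => L.TwoAt b x R₀ ℓ' ω ∧ L.TwoAt b x ℓ' d ω) :=
      pr2_mono (TwoAt_loc L b x R₀ d) ((TwoAt_loc L b x R₀ ℓ').and (TwoAt_loc L b x ℓ' d)) hK
        fun ω h => ⟨TwoAt_mono h (by omega) le_rfl hlt' hd, TwoAt_mono h (by omega) hℓ hlt le_rfl⟩
    have e1 : pr2 (kt s) (fun ω => L.TwoAt b x R₀ ℓ' ω ∧ L.TwoAt b x ℓ' d ω) =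
        pr2 (kt s) (L.TwoAt b x R₀ ℓ') * pr2 (kt s) (L.TwoAt b x ℓ' d) :=
      pr2_and (TwoAt_loc L b x R₀ ℓ') (TwoAt_loc L b x ℓ' d) (TwoAt_dep L b x R₀ ℓ')
        (TwoAt_dep L b x ℓ' d) (fun v hv hv' => by
          have h1 : nrm (v - x) ≤ ℓ' := hv.2
          have h2 : ℓ' < nrm (v - x) := hv'.1
          omega) (kt s)
    have e2 := (pr2_le_pr (TwoAt_loc L b x R₀ ℓ') hK).trans
      (hp.ap.cmp b x R₀ ℓ' R₀ ℓ' le_rfl le_rfl hℓ (by omega) hℓ (by omega))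
    have e3 := hk ℓ' s hℓ hb b x ℓ' d le_rfl hd
    rw [e1] at e0
    refine e0.trans ?_
    have e4 := mul_le_mul e2 e3 (tts_pr2_nonneg L b x ℓ' d hs.1.le) (by positivity)
    refine e4.trans (le_of_eq ?_)
    ring

/-- The weighted local factor at the time `s ≥ t`, `d ≥ ℓ`.  `scale'` and `loc_bulk`:
`s e ^ (-s) (al ℓ' ^ 2) (ℓ' / d) ^ c₁ d ^ (-2) ≤ [s e ^ (-s/2) ℓ' ^ 2 al] d ^ (-2) e ^ (-s/2) (ℓ'/d) ^ c₁`, and `e ^ (-s/2) ℓ' ^ c₁ ≤ (e ^ (-s) ℓ' ^ 2) ^ (c₁/2)`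
(`c₁ ≤ 1`) `≤ (4 R₀ ^ 2 ℓ ^ 2 t / s) ^ (c₁/2) ≤ 2 R₀ ℓ ^ c₁ (t/s) ^ (c₁/2)`.  So `C₂ = C C₁ 4 R₀ ^ 2 · 2 R₀` works. -/
theorem loc_time (hp : TP L C c R₀) {C₁ c₁ : ℝ} (h1 : 1 ≤ C₁) (hc₁ : 0 < c₁) (hc₁' : c₁ ≤ 1 / 2)
    (hk : KBOK L C₁ c₁ R₀) : ∃ C₂ : ℝ, 0 < C₂ ∧ ∀ (ℓ d : ℤ) (t s : ℝ), R₀ ≤ ℓ → ℓ ≤ d →
      Beyond L R₀ ℓ t → t ≤ s → ∀ (b : Bool) (x : Pt),
      s * Real.exp (-s) * pr2 (kt s) (L.TwoAt b x R₀ d) ≤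
        C₂ * (((ℓ : ℝ) / d) ^ c₁ / (d : ℝ) ^ 2) * (t / s) ^ (c₁ / 2) := by
  have hC := hp.ap.C1
  have hR := hp.ap.R16
  have hR0 : (16 : ℝ) ≤ R₀ := by exact_mod_cast hR
  refine ⟨C * C₁ * (4 * (R₀ : ℝ) ^ 2) * (4 * (R₀ : ℝ) ^ 2), by positivity, ?_⟩
  intro ℓ d t s hℓ hℓd hb hts b x
  have ht := hp.beyond_pos hℓ hb
  have hs0 : 0 < s := ht.1.trans_le hts
  obtain ⟨ℓ', h1', h2', h3', h4, h5⟩ := scale' hp hℓ hb hts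
  have hloc := loc_bulk hp h1 hc₁.le hk h1' h3' b x (h2'.trans hℓd)
  have hd0 : (0 : ℝ) < d := by exact_mod_cast (by omega : (0 : ℤ) < d)
  have hl0 : (0 : ℝ) < ℓ' := by exact_mod_cast (by omega : (0 : ℤ) < ℓ')
  have hll0 : (0 : ℝ) < ℓ := by exact_mod_cast (by omega : (0 : ℤ) < ℓ)
  have hal := hp.ap.pos R₀ ℓ' le_rfl h1'
  have ht0 := ht.1
  -- the power
  have p1 : ((ℓ' : ℝ) / d) ^ (2 + c₁) = (ℓ' : ℝ) ^ 2 * (1 / (d : ℝ) ^ 2) * ((ℓ' : ℝ) ^ c₁ / (d : ℝ) ^ c₁) := by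
    rw [Real.rpow_add (by positivity), Real.div_rpow hl0.le hd0.le, Real.div_rpow hl0.le hd0.le]
    have e1 : (ℓ' : ℝ) ^ (2 : ℝ) = (ℓ' : ℝ) ^ 2 := by
      rw [← Real.rpow_natCast]; norm_num
    have e2 : (d : ℝ) ^ (2 : ℝ) = (d : ℝ) ^ 2 := by
      rw [← Real.rpow_natCast]; norm_num
    rw [e1, e2]
    ring
  -- `exp (-s/2) ℓ' ^ c₁ ≤ 4 R₀ ^ 2 ℓ ^ c₁ (t / s) ^ (c₁ / 2)`
  have q1 : Real.exp (-(s / 2)) ≤ (Real.exp (-s)) ^ (c₁ / 2) := by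
    rw [← Real.exp_mul]
    refine Real.exp_le_exp.2 ?_
    nlinarith
  have q2 : (ℓ' : ℝ) ^ c₁ = ((ℓ' : ℝ) ^ 2) ^ (c₁ / 2) := by
    rw [← Real.rpow_natCast, ← Real.rpow_mul hl0.le]
    congr 1
    push_cast
    ring
  have q2' : (ℓ : ℝ) ^ c₁ = ((ℓ : ℝ) ^ 2) ^ (c₁ / 2) := by
    rw [← Real.rpow_natCast, ← Real.rpow_mul hll0.le]
    congr 1
    push_cast
    ring
  have q3 : Real.exp (-(s / 2)) * (ℓ' : ℝ) ^ c₁ ≤ (Real.exp (-s) * (ℓ' : ℝ) ^ 2) ^ (c₁ / 2) := by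
    rw [Real.mul_rpow (Real.exp_pos _).le (by positivity), q2]
    exact mul_le_mul_of_nonneg_right q1 (by positivity)
  have q4 : Real.exp (-s) * (ℓ' : ℝ) ^ 2 ≤ 4 * (R₀ : ℝ) ^ 2 * ((ℓ : ℝ) ^ 2 * (t / s)) := by
    have e1 : Real.exp (-s) * (ℓ' : ℝ) ^ 2 = (s * Real.exp (-s) * (ℓ' : ℝ) ^ 2) / s := by
      field_simp
    have e2 : 4 * (R₀ : ℝ) ^ 2 * ((ℓ : ℝ) ^ 2 * (t / s)) =
        (4 * (R₀ : ℝ) ^ 2 * (t * (ℓ : ℝ) ^ 2)) / s := by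
      field_simp
    rw [e1, e2]
    exact div_le_div_of_nonneg_right h5 hs0.le
  have q5 : (Real.exp (-s) * (ℓ' : ℝ) ^ 2) ^ (c₁ / 2) ≤
      4 * (R₀ : ℝ) ^ 2 * ((ℓ : ℝ) ^ c₁ * (t / s) ^ (c₁ / 2)) := by
    have e1 := Real.rpow_le_rpow (by positivity) q4 (by positivity : (0 : ℝ) ≤ c₁ / 2)
    refine e1.trans ?_
    have e0 : (0 : ℝ) ≤ t / s := by positivity
    rw [Real.mul_rpow (x := 4 * (R₀ : ℝ) ^ 2) (y := (ℓ : ℝ) ^ 2 * (t / s)) (by positivity)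
      (by positivity), Real.mul_rpow (x := (ℓ : ℝ) ^ 2) (y := t / s) (by positivity) e0, ← q2']
    refine mul_le_mul_of_nonneg_right ?_ (by positivity)
    have e3 : (1 : ℝ) ≤ 4 * (R₀ : ℝ) ^ 2 := by nlinarith
    calc (4 * (R₀ : ℝ) ^ 2) ^ (c₁ / 2) ≤ (4 * (R₀ : ℝ) ^ 2) ^ (1 : ℝ) :=
          Real.rpow_le_rpow_of_exponent_le e3 (by linarith)
      _ = 4 * (R₀ : ℝ) ^ 2 := Real.rpow_one _
  have q6 := q3.trans q5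
  -- splitting of the exponential
  have r1 : Real.exp (-s) = Real.exp (-(s / 2)) * Real.exp (-(s / 2)) := by
    rw [← Real.exp_add]
    congr 1
    ring
  have w0 : 0 ≤ s * Real.exp (-s) := by positivity
  have w1 := mul_le_mul_of_nonneg_left hloc w0
  refine w1.trans ?_
  have hdc : 0 < (d : ℝ) ^ c₁ := by positivity
  calc s * Real.exp (-s) * (C * C₁ * (al L R₀ ℓ' * ((ℓ' : ℝ) / d) ^ (2 + c₁)))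
      = C * C₁ * (1 / (d : ℝ) ^ 2) * (1 / (d : ℝ) ^ c₁) *
          ((s * Real.exp (-(s / 2)) * ((ℓ' : ℝ) ^ 2 * al L R₀ ℓ')) *
            (Real.exp (-(s / 2)) * (ℓ' : ℝ) ^ c₁)) := by
        rw [p1, r1]
        ring
    _ ≤ C * C₁ * (1 / (d : ℝ) ^ 2) * (1 / (d : ℝ) ^ c₁) *
          ((4 * (R₀ : ℝ) ^ 2) * (4 * (R₀ : ℝ) ^ 2 * ((ℓ : ℝ) ^ c₁ * (t / s) ^ (c₁ / 2)))) := by
        refine mul_le_mul_of_nonneg_left ?_ (by positivity)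
        exact mul_le_mul h4 q6 (by positivity) (by positivity)
    _ = C * C₁ * (4 * (R₀ : ℝ) ^ 2) * (4 * (R₀ : ℝ) ^ 2) * (((ℓ : ℝ) / d) ^ c₁ / (d : ℝ) ^ 2) *
          (t / s) ^ (c₁ / 2) := by
        rw [Real.div_rpow hll0.le hd0.le]
        ring

/-- Sum over the times `s = 2 ^ j t`: `(t / s) ^ (c₁/2) = (2 ^ (-c₁/2)) ^ j`, geometric series. -/
theorem loc_times (hp : TP L C c R₀) {C₁ c₁ : ℝ} (h1 : 1 ≤ C₁) (hc₁ : 0 < c₁) (hc₁' : c₁ ≤ 1 / 2)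
    (hk : KBOK L C₁ c₁ R₀) : ∃ C₃ : ℝ, 0 < C₃ ∧ ∀ (ℓ d : ℤ) (t : ℝ), R₀ ≤ ℓ → ℓ ≤ d →
      Beyond L R₀ ℓ t → ∀ (b : Bool) (x : Pt) (n : ℕ),
      ∑ j ∈ Finset.range n, (2 ^ j * t) * (Real.exp (-(2 ^ j * t)) *
        pr2 (kt (2 ^ j * t)) (L.TwoAt b x R₀ d)) ≤ C₃ * (((ℓ : ℝ) / d) ^ c₁ / (d : ℝ) ^ 2) := by
  obtain ⟨C₂, hC₂, h⟩ := loc_time hp h1 hc₁ hc₁' hk
  have hR := hp.ap.R16
  set q : ℝ := (2 : ℝ) ^ (-(c₁ / 2)) with hq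
  have hq0 : 0 < q := by positivity
  have hq1 : q < 1 := by
    rw [hq]
    exact Real.rpow_lt_one_of_one_lt_of_neg (by norm_num) (by linarith)
  refine ⟨C₂ * (1 - q)⁻¹, mul_pos hC₂ (inv_pos.2 (by linarith)), ?_⟩
  intro ℓ d t hℓ hℓd hb b x n
  have ht := hp.beyond_pos hℓ hb
  have ht0 := ht.1
  have hd0 : (0 : ℝ) < d := by exact_mod_cast (by omega : (0 : ℤ) < d)
  have hll0 : (0 : ℝ) < ℓ := by exact_mod_cast (by omega : (0 : ℤ) < ℓ)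
  have hX : 0 ≤ ((ℓ : ℝ) / d) ^ c₁ / (d : ℝ) ^ 2 := by positivity
  have hterm : ∀ j ∈ Finset.range n, (2 ^ j * t) * (Real.exp (-(2 ^ j * t)) *
      pr2 (kt (2 ^ j * t)) (L.TwoAt b x R₀ d)) ≤
        C₂ * (((ℓ : ℝ) / d) ^ c₁ / (d : ℝ) ^ 2) * q ^ j := by
    intro j _
    have h2 : (1 : ℝ) ≤ 2 ^ j := one_le_pow₀ (by norm_num)
    have h3 := h ℓ d t (2 ^ j * t) hℓ hℓd hb (by nlinarith) b x
    have h4 : (t / (2 ^ j * t)) ^ (c₁ / 2) = q ^ j := by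
      have e1 : t / (2 ^ j * t) = ((2 : ℝ) ^ j)⁻¹ := by
        field_simp
      rw [e1, Real.inv_rpow (by positivity), hq, ← Real.rpow_natCast, ← Real.rpow_natCast,
        ← Real.rpow_mul (by norm_num), ← Real.rpow_mul (by norm_num), ← Real.rpow_neg (by norm_num)]
      congr 1
      ring
    rw [h4] at h3
    refine le_trans (le_of_eq ?_) h3
    ring
  refine (Finset.sum_le_sum hterm).trans ?_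
  rw [← Finset.mul_sum]
  have hs := Summable.sum_le_tsum (Finset.range n) (fun j _ => (pow_pos hq0 j).le)
    (summable_geometric_of_lt_one hq0.le hq1)
  rw [tsum_geometric_of_lt_one hq0.le hq1] at hs
  calc C₂ * (((ℓ : ℝ) / d) ^ c₁ / (d : ℝ) ^ 2) * ∑ j ∈ Finset.range n, q ^ j
      ≤ C₂ * (((ℓ : ℝ) / d) ^ c₁ / (d : ℝ) ^ 2) * (1 - q)⁻¹ :=
        mul_le_mul_of_nonneg_left hs (mul_nonneg hC₂.le hX)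
    _ = C₂ * (1 - q)⁻¹ * (((ℓ : ℝ) / d) ^ c₁ / (d : ℝ) ^ 2) := by ring

end TT

end SC
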