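import Pool.Agent.Lib_MP_e0a489.TTI1
import Pool.Agent.Lib_MP_e0a489.TTS

/-!
# MP_e0a489, module TT (9e), sum of the local factors over the times and the sites
-/

set_option autoImplicit false

namespace SC

variable [IfL] [IfX]

namespace TT

open Classical

variable {L : Lat} {C c : ℝ} {R₀ : ℤ}

/-- `d = ρ / 4` (integer division), `ρ ≥ 8`: `d ≥ ρ / 8`, so `(ℓ / d) ^ c₁ / d ^ 2 ≤ 8 ^ 3 (ℓ / ρ) ^ c₁ / ρ ^ 2 = 8 ^ 3 ℓ ^ c₁ ρ ^ (- 2 - c₁)`. -/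
theorem quarter_le {c₁ : ℝ} (h0 : 0 ≤ c₁) (h1 : c₁ ≤ 1 / 2) {ℓ ρ : ℤ} (hℓ : 1 ≤ ℓ) (hρ : 8 ≤ ρ) :
    ((ℓ : ℝ) / ((ρ / 4 : ℤ) : ℝ)) ^ c₁ / ((ρ / 4 : ℤ) : ℝ) ^ 2 ≤
      8 ^ 3 * ((ℓ : ℝ) ^ c₁ * ((ρ : ℝ) ^ (-2 - c₁))) := by
  have hd : ρ ≤ 8 * (ρ / 4) := by omega
  obtain ⟨d, hd'⟩ : ∃ d : ℤ, d = ρ / 4 := ⟨_, rfl⟩
  rw [← hd'] at hd ⊢
  have hℓ0 : (0 : ℝ) < (ℓ : ℝ) := by exact_mod_cast (by linarith : (0 : ℤ) < ℓ)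
  have hρ0 : (0 : ℝ) < (ρ : ℝ) := by exact_mod_cast (by linarith : (0 : ℤ) < ρ)
  have hd1 : (ρ : ℝ) / 8 ≤ (d : ℝ) := by
    have : (ρ : ℝ) ≤ 8 * (d : ℝ) := by exact_mod_cast hd
    linarith
  have hd0 : (0 : ℝ) < (d : ℝ) := lt_of_lt_of_le (by positivity) hd1
  have e1 : (ℓ : ℝ) / (d : ℝ) ≤ 8 * ((ℓ : ℝ) / (ρ : ℝ)) := by
    rw [div_le_iff₀ hd0]
    have : 8 * ((ℓ : ℝ) / (ρ : ℝ)) * ((ρ : ℝ) / 8) ≤ 8 * ((ℓ : ℝ) / (ρ : ℝ)) * (d : ℝ) :=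
      mul_le_mul_of_nonneg_left hd1 (by positivity)
    have e2 : 8 * ((ℓ : ℝ) / (ρ : ℝ)) * ((ρ : ℝ) / 8) = (ℓ : ℝ) := by field_simp
    linarith
  have e3 : ((ℓ : ℝ) / (d : ℝ)) ^ c₁ ≤ 8 * ((ℓ : ℝ) / (ρ : ℝ)) ^ c₁ := by
    have h3 := Real.rpow_le_rpow (by positivity) e1 h0
    rw [Real.mul_rpow (by norm_num) (by positivity)] at h3
    have h4 : (8 : ℝ) ^ c₁ ≤ 8 := by
      have h5 := Real.rpow_le_rpow_of_exponent_le (by norm_num : (1 : ℝ) ≤ 8) (by linarith : c₁ ≤ 1)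
      rwa [Real.rpow_one] at h5
    exact h3.trans (mul_le_mul_of_nonneg_right h4 (Real.rpow_nonneg (by positivity) _))
  have e4 : ((ρ : ℝ) / 8) ^ 2 ≤ (d : ℝ) ^ 2 := by
    exact pow_le_pow_left₀ (by positivity) hd1 2
  have e5 : (ρ : ℝ) ^ (-2 - c₁) = ((ρ : ℝ) ^ 2)⁻¹ * ((ρ : ℝ) ^ c₁)⁻¹ := by
    have : (-2 - c₁) = (-(2 : ℕ) : ℝ) + -c₁ := by push_cast; ring
    rw [this, Real.rpow_add hρ0, Real.rpow_neg hρ0.le, Real.rpow_neg hρ0.le, Real.rpow_natCast]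
  have e6 : ((ℓ : ℝ) / (ρ : ℝ)) ^ c₁ = (ℓ : ℝ) ^ c₁ * ((ρ : ℝ) ^ c₁)⁻¹ := by
    rw [Real.div_rpow hℓ0.le hρ0.le, div_eq_mul_inv]
  calc ((ℓ : ℝ) / (d : ℝ)) ^ c₁ / (d : ℝ) ^ 2 ≤
        (8 * ((ℓ : ℝ) / (ρ : ℝ)) ^ c₁) / ((ρ : ℝ) / 8) ^ 2 :=
        div_le_div₀ (by positivity) e3 (by positivity) e4
    _ = 8 ^ 3 * ((ℓ : ℝ) ^ c₁ * ((ρ : ℝ) ^ (-2 - c₁))) := by
        rw [e5, e6]
        have : (ρ : ℝ) ^ c₁ ≠ 0 := (Real.rpow_pos_of_pos hρ0 _).ne'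
        field_simp
        try norm_num

/-- Sum over the sites: `sum_nrm` with `g m = m ^ (-2 - c₁)` and `sum_pow_down` with `a = 8 r + 1`: `∑ 8 m m ^ (-2 - c₁) = 8 ∑ m ^ (-1 - c₁) ≤ 8 (8 r) ^ (-c₁) / c₁ ≤ 8 r ^ (-c₁) / c₁`. -/
theorem site_pow {c₁ : ℝ} (h0 : 0 < c₁) (h1 : c₁ ≤ 1 / 2) {ℓ r : ℤ} (hℓ : 1 ≤ ℓ) (hr : 1 ≤ r)
    {W : Finset Pt} (hW : ∀ v ∈ W, 8 * r < nrm v) :
    ∑ v ∈ W, (ℓ : ℝ) ^ c₁ * ((nrm v : ℝ) ^ (-2 - c₁)) ≤ 8 / c₁ * ((ℓ : ℝ) / r) ^ c₁ := by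
  have hℓ0 : (0 : ℝ) < (ℓ : ℝ) := by exact_mod_cast (by linarith : (0 : ℤ) < ℓ)
  have hr0 : (0 : ℝ) < (r : ℝ) := by exact_mod_cast (by linarith : (0 : ℤ) < r)
  rw [← Finset.mul_sum]
  have hb : ∀ v ∈ W, 8 * r + 1 ≤ nrm v ∧ nrm v ≤ ∑ w ∈ W, |nrm w| := by
    intro v hv
    refine ⟨by linarith [hW v hv], ?_⟩
    exact (le_abs_self _).trans (Finset.single_le_sum (f := fun w => |nrm w|)
      (fun w _ => abs_nonneg _) hv)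
  have h2 := sum_nrm (F := W) (a := 8 * r + 1) (b := ∑ w ∈ W, |nrm w|) (by linarith) hb
    (g := fun m => (m : ℝ) ^ (-2 - c₁)) (fun m hm _ => by
      have : (0 : ℝ) ≤ (m : ℝ) := by exact_mod_cast (by linarith : (0 : ℤ) ≤ m)
      exact Real.rpow_nonneg this _)
  have h3 : ∑ m ∈ Finset.Icc (8 * r + 1) (∑ w ∈ W, |nrm w|), 8 * (m : ℝ) * (m : ℝ) ^ (-2 - c₁) =
      8 * ∑ m ∈ Finset.Icc (8 * r + 1) (∑ w ∈ W, |nrm w|), (m : ℝ) ^ (-1 - c₁) := by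
    rw [Finset.mul_sum]
    refine Finset.sum_congr rfl (fun m hm => ?_)
    have hm' := (Finset.mem_Icc.1 hm).1
    have hm0 : (0 : ℝ) < (m : ℝ) := by exact_mod_cast (by linarith : (0 : ℤ) < m)
    have e : (-1 - c₁) = (-2 - c₁) + 1 := by ring
    rw [e, Real.rpow_add hm0, Real.rpow_one]
    ring
  have h4 := sum_pow_down h0 (by linarith : c₁ ≤ 1) (a := 8 * r + 1) (n := ∑ w ∈ W, |nrm w|)
    (by linarith)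
  have e4 : (((8 * r + 1 : ℤ) : ℝ)) - 1 = 8 * (r : ℝ) := by push_cast; ring
  rw [e4] at h4
  have h5 : (8 * (r : ℝ)) ^ (-c₁) ≤ (r : ℝ) ^ (-c₁) := by
    exact Real.rpow_le_rpow_of_nonpos hr0 (by linarith) (by linarith)
  have h6 : (r : ℝ) ^ (-c₁) = ((r : ℝ) ^ c₁)⁻¹ := Real.rpow_neg hr0.le c₁
  have h7 : ∑ v ∈ W, ((nrm v : ℝ) ^ (-2 - c₁)) ≤ 8 * ((r : ℝ) ^ (-c₁) / c₁) := by
    refine h2.trans ?_
    rw [h3]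
    refine mul_le_mul_of_nonneg_left (h4.trans ?_) (by norm_num)
    exact div_le_div_of_nonneg_right h5 h0.le
  calc (ℓ : ℝ) ^ c₁ * ∑ v ∈ W, ((nrm v : ℝ) ^ (-2 - c₁)) ≤
        (ℓ : ℝ) ^ c₁ * (8 * ((r : ℝ) ^ (-c₁) / c₁)) :=
        mul_le_mul_of_nonneg_left h7 (Real.rpow_nonneg hℓ0.le _)
    _ = 8 / c₁ * ((ℓ : ℝ) / r) ^ c₁ := by
        rw [Real.div_rpow hℓ0.le hr0.le, h6]
        ring

/-- local factor of the site `v` at the time `s` -/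
noncomputable def locf (L : Lat) (R₀ : ℤ) (s : ℝ) (v : Pt) : ℝ :=
  2 * pr2 (kt s) (L.TwoAt true v R₀ (nrm v / 4)) + 2 * pr2 (kt s) (L.TwoAt false v R₀ (nrm v / 4))

/-- Exchange the sums; for every site `loc_times` with `d = nrm v / 4 ≥ 2 r ≥ ℓ` for both colours, `quarter_le`, `site_pow`. -/
theorem site_sum (hp : TP L C c R₀) {C₁ c₁ : ℝ} (h1 : 1 ≤ C₁) (hc₁ : 0 < c₁) (hc₁' : c₁ ≤ 1 / 2)
    (hk : KBOK L C₁ c₁ R₀) : ∃ C₅ : ℝ, 0 < C₅ ∧ ∀ (ℓ r : ℤ) (t : ℝ), R₀ ≤ ℓ → ℓ ≤ r →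
      Beyond L R₀ ℓ t → ∀ (W : Finset Pt) (n : ℕ), (∀ v ∈ W, 8 * r < nrm v) →
      ∑ j ∈ Finset.range n, (2 ^ j * t) * ∑ v ∈ W, Real.exp (-(2 ^ j * t)) *
        locf L R₀ (2 ^ j * t) v ≤ C₅ * ((ℓ : ℝ) / r) ^ c₁ := by
  obtain ⟨C₃, h3, H⟩ := loc_times hp h1 hc₁ hc₁' hk
  have h16 : 16 ≤ R₀ := hp.ap.R16
  refine ⟨4 * C₃ * 8 ^ 3 * (8 / c₁), by positivity, ?_⟩
  intro ℓ r t hℓ hr hb W n hW
  have e1 : ∑ j ∈ Finset.range n, (2 ^ j * t) * ∑ v ∈ W, Real.exp (-(2 ^ j * t)) *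
        locf L R₀ (2 ^ j * t) v =
      ∑ v ∈ W, (2 * ∑ j ∈ Finset.range n, (2 ^ j * t) * (Real.exp (-(2 ^ j * t)) *
        pr2 (kt (2 ^ j * t)) (L.TwoAt true v R₀ (nrm v / 4))) +
        2 * ∑ j ∈ Finset.range n, (2 ^ j * t) * (Real.exp (-(2 ^ j * t)) *
        pr2 (kt (2 ^ j * t)) (L.TwoAt false v R₀ (nrm v / 4)))) := by
    rw [Finset.sum_congr rfl (fun j _ => Finset.mul_sum _ _ _), Finset.sum_comm]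
    refine Finset.sum_congr rfl (fun v _ => ?_)
    rw [Finset.mul_sum, Finset.mul_sum, ← Finset.sum_add_distrib]
    refine Finset.sum_congr rfl (fun j _ => ?_)
    unfold locf
    ring
  rw [e1]
  have e2 : ∀ v ∈ W, (2 * ∑ j ∈ Finset.range n, (2 ^ j * t) * (Real.exp (-(2 ^ j * t)) *
        pr2 (kt (2 ^ j * t)) (L.TwoAt true v R₀ (nrm v / 4))) +
        2 * ∑ j ∈ Finset.range n, (2 ^ j * t) * (Real.exp (-(2 ^ j * t)) *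
        pr2 (kt (2 ^ j * t)) (L.TwoAt false v R₀ (nrm v / 4)))) ≤
      4 * C₃ * 8 ^ 3 * ((ℓ : ℝ) ^ c₁ * ((nrm v : ℝ) ^ (-2 - c₁))) := by
    intro v hv
    have hv' := hW v hv
    have hd : ℓ ≤ nrm v / 4 := by omega
    have a1 := H ℓ (nrm v / 4) t hℓ hd hb true v n
    have a2 := H ℓ (nrm v / 4) t hℓ hd hb false v n
    have a3 := quarter_le hc₁.le hc₁' (ℓ := ℓ) (ρ := nrm v) (by linarith) (by linarith)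
    have a4 := mul_le_mul_of_nonneg_left a3 h3.le
    linarith
  refine (Finset.sum_le_sum e2).trans ?_
  rw [← Finset.mul_sum]
  have a5 := site_pow hc₁ hc₁' (ℓ := ℓ) (r := r) (by linarith) (by linarith) hW
  have a6 := mul_le_mul_of_nonneg_left a5 (by positivity : (0 : ℝ) ≤ 4 * C₃ * 8 ^ 3)
  refine a6.trans (le_of_eq ?_)
  ring

end TT

end SC
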