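import Pool.Agent.Lib_MP_e0a489.TTB1
import Pool.Agent.Lib_MP_e0a489.TTG
import Pool.Agent.Lib_MP_e0a489.TTP1

/-!
# MP_e0a489, module TT (9e), one step of the bootstrap
-/

set_option autoImplicit false

namespace SC

variable [IfL] [IfX]

namespace TT

open Classical

variable {L : Lat} {C c : ℝ} {R₀ : ℤ}

/-- With the correlation `0` off `W = {8 r < nrm v ≤ R / 4}`: `kz (kt s) r R = kon W (exp (-s)) 0`. -/
theorem kz_kon {r R : ℤ} {W : Finset Pt} (hW : ∀ v, v ∈ W ↔ 8 * r < nrm v ∧ nrm v ≤ R / 4)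
    (s : ℝ) : kz (kt s) r R = kon W (Real.exp (-s)) fun _ => 0 := by
  funext v
  unfold kz kon kt
  by_cases h : v ∈ W
  · rw [if_pos h, if_neg]
    have := (hW v).1 h
    omega
  · rw [if_neg h, if_pos]
    have h1 : ¬ (8 * r < nrm v ∧ nrm v ≤ R / 4) := fun h2 => h ((hW v).2 h2)
    omega

/-- `ex2 0 f f = (ex f) ^ 2` (`ex2_zero`), and `pr (S4 r R) ≤ pr (TwoA true r R) = al L r R` for `r < R` (`S4_twoAt_x` with `x = 0`, `d = 0`,
`TwoAt_zero`). -/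
theorem S4_zero {r R : ℤ} (hr : 16 ≤ r) (hrR : r < R) (W : Finset Pt) :
    ex2 (kon W 0 fun _ => 0) (ind (L.S4 r R)) (ind (L.S4 r R)) ≤ (al L r R) ^ 2 := by
  have hloc : Loc (L.S4 r R) := Lat.S4.loc L r R
  have hdep : Dep (ind (L.S4 r R)) (Set.univ : Set Pt) := by
    intro ω ω' H
    have e : ω = ω' := funext fun v => H v (Set.mem_univ v)
    rw [e]
  have h1 : ex2 (kon W 0 fun _ => 0) (ind (L.S4 r R)) (ind (L.S4 r R)) =
      ex (ind (L.S4 r R)) * ex (ind (L.S4 r R)) := by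
    refine ex2_zero hloc.lf hloc.lf hdep _ (fun v _ => ?_)
    unfold kon
    split_ifs <;> rfl
  have h2 : pr (L.S4 r R) ≤ al L r R := by
    have e1 : al L r R = pr (L.TwoAt true 0 r R) := by
      unfold al
      rw [if_pos hrR]
      congr 1
      funext ω
      exact propext (TwoAt_zero L true r R ω).symm
    rw [e1]
    refine pr_mono hloc (TwoAt_loc L true 0 r R) (fun ω h => ?_)
    exact S4_twoAt_x h hr (d := 0) (by show max |(0 : ℤ)| |(0 : ℤ)| ≤ 0; simp) (by omega) hrR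
      (by omega)
  have h3 : 0 ≤ pr (L.S4 r R) := pr_nonneg _
  rw [h1, ← pow_two]
  exact pow_le_pow_left₀ h3 h2 2

/-- Pivotal term at the time `s ≥ t` for `v` with `8 r < nrm v ≤ R / 4`, `R₀ ≤ r`: `ex2_dv_le`, then `S4_piv_pr2` for the correlation `k = kon W (e^-s) 0 ≤ kt s ≤ kt t` with
`a = R₀`, `b = nrm v / 4` (`b ≥ 2 r > R₀`), `ρ₁ = nrm v - nrm v / 4 - 1`, `ρ₂ = nrm v + nrm v / 4 < R`; first and last factor: `pr2_twoA_le` with `t`; local factor: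
`pr2_mono_k` with `kt s` (`TwoAt_loc`). -/
theorem piv_term (hR₀ : 16 ≤ R₀) {r R : ℤ} (hr : R₀ ≤ r) {t s : ℝ} (ht : 0 ≤ t) (hts : t ≤ s)
    {W : Finset Pt} {v : Pt} (h8 : 8 * r < nrm v) (h4 : nrm v ≤ R / 4) :
    ex2 (kon W (Real.exp (-s)) fun _ => 0) (dv v (ind (L.S4 r R))) (dv v (ind (L.S4 r R))) ≤
      be L t r (nrm v - nrm v / 4 - 1) * (locf L R₀ s v * be L t (nrm v + nrm v / 4) R) := by
  set k : Pt → ℝ := kon W (Real.exp (-s)) fun _ => 0 with hkdef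
  have hs : 0 ≤ s := ht.trans hts
  have he : 0 ≤ Real.exp (-s) ∧ Real.exp (-s) ≤ 1 :=
    ⟨(Real.exp_pos _).le, (kt_mem hs (0, 0)).2⟩
  have hk : Kap k := fun u => kon_mem he (fun _ => ⟨le_rfl, zero_le_one⟩) u
  have hks : ∀ u, k u ≤ kt s u := by
    intro u
    show kon W (Real.exp (-s)) (fun _ => 0) u ≤ Real.exp (-s)
    unfold kon
    split_ifs
    · exact le_rfl
    · exact he.1
  have hkt : ∀ u, k u ≤ kt t u := fun u => (hks u).trans (kt_anti hts u)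
  have e1 : ex2 k (dv v (ind (L.S4 r R))) (dv v (ind (L.S4 r R))) ≤
      (1 / 4) * pr2 k (Piv v (L.S4 r R)) := ex2_dv_le (Lat.S4.loc L r R) v hk
  have e2 : pr2 k (Piv v (L.S4 r R)) ≤ pr2 k (L.TwoA true r (nrm v - nrm v / 4 - 1)) *
      ((2 * pr2 k (L.TwoAt true v R₀ (nrm v / 4)) + 2 * pr2 k (L.TwoAt false v R₀ (nrm v / 4))) *
        pr2 k (L.TwoA true (nrm v + nrm v / 4) R)) :=
    S4_piv_pr2 hk (by omega) h8 (by omega) (by omega) (by omega) (by omega) (by omega) (by omega)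
      (by omega) (by omega)
  have f1 : pr2 k (L.TwoA true r (nrm v - nrm v / 4 - 1)) ≤
      be L t r (nrm v - nrm v / 4 - 1) := pr2_twoA_le L hk hkt ht _ _
  have f2 : pr2 k (L.TwoA true (nrm v + nrm v / 4) R) ≤ be L t (nrm v + nrm v / 4) R :=
    pr2_twoA_le L hk hkt ht _ _
  have f3 : ∀ b : Bool, pr2 k (L.TwoAt b v R₀ (nrm v / 4)) ≤
      pr2 (kt s) (L.TwoAt b v R₀ (nrm v / 4)) := fun b =>
    pr2_mono_k (TwoAt_loc L b v _ _) (fun u => (hk u).1) hks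
  have g0 : ∀ A : Cfg → Prop, 0 ≤ pr2 k A := fun A => pr2_nonneg A hk
  have f4 : 2 * pr2 k (L.TwoAt true v R₀ (nrm v / 4)) +
      2 * pr2 k (L.TwoAt false v R₀ (nrm v / 4)) ≤ locf L R₀ s v := by
    unfold locf
    linarith [f3 true, f3 false]
  have g1 : 0 ≤ 2 * pr2 k (L.TwoAt true v R₀ (nrm v / 4)) +
      2 * pr2 k (L.TwoAt false v R₀ (nrm v / 4)) := by
    linarith [g0 (L.TwoAt true v R₀ (nrm v / 4)), g0 (L.TwoAt false v R₀ (nrm v / 4))]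
  have g2 : 0 ≤ be L t r (nrm v - nrm v / 4 - 1) := be_nonneg L ht _ _
  have f5 : pr2 k (L.TwoA true r (nrm v - nrm v / 4 - 1)) *
      ((2 * pr2 k (L.TwoAt true v R₀ (nrm v / 4)) + 2 * pr2 k (L.TwoAt false v R₀ (nrm v / 4))) *
        pr2 k (L.TwoA true (nrm v + nrm v / 4) R)) ≤
      be L t r (nrm v - nrm v / 4 - 1) * (locf L R₀ s v * be L t (nrm v + nrm v / 4) R) := by
    refine mul_le_mul f1 ?_ (mul_nonneg g1 (g0 _)) g2
    exact mul_le_mul f4 f2 (g0 _) (g1.trans f4)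
  have g3 : 0 ≤ pr2 k (Piv v (L.S4 r R)) := g0 _
  linarith

/-- ONE STEP.  `be L t r R = pr2 (kt t) (TwoA true r R) ≤ C₁ pr2 (kz (kt t) r R) (S4 r R)` (hypothesis `hs`, from `sep2`), `kz_kon`, `lag_sum` with `κ = 0`, `S4_zero`,
`piv_term`, `ex (f ^ 2) ≤ 1`. -/
theorem bulk_step (hR₀ : 16 ≤ R₀) {C₁ : ℝ} (hC₁ : 0 < C₁) {r R : ℤ} (hr : R₀ ≤ r) (hrR : r < R)
    {t : ℝ} (ht : 0 ≤ t)
    (hs : pr2 (kt t) (L.TwoA true r R) ≤ C₁ * pr2 (kz (kt t) r R) (L.S4 r R))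
    {W : Finset Pt} (hW : ∀ v, v ∈ W ↔ 8 * r < nrm v ∧ nrm v ≤ R / 4) (n : ℕ) :
    be L t r R ≤ C₁ * ((al L r R) ^ 2 +
      ∑ j ∈ Finset.range n, (2 ^ j * t) * ∑ v ∈ W, Real.exp (-(2 ^ j * t)) *
        (be L t r (nrm v - nrm v / 4 - 1) *
          (locf L R₀ (2 ^ j * t) v * be L t (nrm v + nrm v / 4) R)) +
      Real.exp (-(2 ^ n * t))) := by
  have hloc : Loc (L.S4 r R) := Lat.S4.loc L r R
  have h16 : 16 ≤ r := hR₀.trans hr
  have e1 : be L t r R = pr2 (kt t) (L.TwoA true r R) := by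
    unfold be
    rw [if_pos hrR]
  have e2 : pr2 (kz (kt t) r R) (L.S4 r R) =
      ex2 (kon W (Real.exp (-t)) fun _ => 0) (ind (L.S4 r R)) (ind (L.S4 r R)) := by
    rw [kz_kon hW t]
    rfl
  have e3 := lag_sum hloc.lf W (κ := fun _ => 0) (fun _ => ⟨le_rfl, zero_le_one⟩) ht n
  have e4 := S4_zero (L := L) h16 hrR W
  have e5 : ex (fun ω => ind (L.S4 r R) ω ^ 2) ≤ 1 := by
    have h1 : (fun ω => ind (L.S4 r R) ω ^ 2) = ind (L.S4 r R) := by
      funext ω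
      unfold ind
      split_ifs <;> norm_num
    rw [h1]
    exact pr_le_one _
  have e6 : ∑ j ∈ Finset.range n, (2 ^ j * t) * ∑ v ∈ W, Real.exp (-(2 ^ j * t)) *
        ex2 (kon W (Real.exp (-(2 ^ j * t))) fun _ => 0) (dv v (ind (L.S4 r R)))
          (dv v (ind (L.S4 r R))) ≤
      ∑ j ∈ Finset.range n, (2 ^ j * t) * ∑ v ∈ W, Real.exp (-(2 ^ j * t)) *
        (be L t r (nrm v - nrm v / 4 - 1) *
          (locf L R₀ (2 ^ j * t) v * be L t (nrm v + nrm v / 4) R)) := by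
    refine Finset.sum_le_sum fun j _ => ?_
    have h1 : (1 : ℝ) ≤ 2 ^ j := one_le_pow₀ (by norm_num)
    have h2 : t ≤ 2 ^ j * t := by nlinarith
    refine mul_le_mul_of_nonneg_left (Finset.sum_le_sum fun v hv => ?_) (ht.trans h2)
    refine mul_le_mul_of_nonneg_left ?_ (Real.exp_pos _).le
    exact piv_term hR₀ hr ht h2 ((hW v).1 hv).1 ((hW v).1 hv).2
  have e7 : Real.exp (-(2 ^ n * t)) * ex (fun ω => ind (L.S4 r R) ω ^ 2) ≤
      Real.exp (-(2 ^ n * t)) := by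
    have := mul_le_mul_of_nonneg_left e5 (Real.exp_pos (-(2 ^ n * t))).le
    rwa [mul_one] at this
  rw [e1]
  refine hs.trans (mul_le_mul_of_nonneg_left ?_ hC₁.le)
  rw [e2]
  linarith

end TT

end SC
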