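import Pool.Agent.Lib_MP_e0a489.TTB2

/-!
# MP_e0a489, module TT (9e), the bootstrap in the bulk
-/

set_option autoImplicit false

namespace SC

variable [IfL] [IfX]

namespace TT

open Classical

variable {L : Lat} {C c : ℝ} {R₀ : ℤ}

/-- Choice of `Λ`: `A Λ ^ (-c₁) ≤ 1`. -/
theorem exists_lam {A c₁ : ℝ} (hc : 0 < c₁) : ∃ Λ : ℤ, 1 ≤ Λ ∧ ∀ ℓ r : ℤ, 1 ≤ ℓ → Λ * ℓ ≤ r →
    A * ((ℓ : ℝ) / r) ^ c₁ ≤ 1 := by
  set B : ℝ := max A 1 with hBdef
  have hB : 1 ≤ B := le_max_right _ _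
  have hAB : A ≤ B := le_max_left _ _
  set x : ℝ := B ^ c₁⁻¹ with hx
  have hx1 : 1 ≤ x := Real.one_le_rpow hB (inv_nonneg.2 hc.le)
  have hxc : x ^ c₁ = B := Real.rpow_inv_rpow (by linarith) hc.ne'
  have h1 : x ≤ (⌈x⌉ : ℝ) := Int.le_ceil x
  refine ⟨⌈x⌉, ?_, ?_⟩
  · have : (1 : ℝ) ≤ (⌈x⌉ : ℝ) := hx1.trans h1
    exact_mod_cast this
  · intro ℓ r hℓ hr
    have hℓ' : (0 : ℝ) < (ℓ : ℝ) := by exact_mod_cast (by omega : (0 : ℤ) < ℓ)
    have hr1 : (⌈x⌉ : ℝ) * (ℓ : ℝ) ≤ (r : ℝ) := by exact_mod_cast hr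
    have hr2 : x * (ℓ : ℝ) ≤ (r : ℝ) := (mul_le_mul_of_nonneg_right h1 hℓ'.le).trans hr1
    have hx0 : 0 < x := by linarith
    have hr0 : (0 : ℝ) < (r : ℝ) := lt_of_lt_of_le (mul_pos hx0 hℓ') hr2
    have h2 : (ℓ : ℝ) / (r : ℝ) ≤ x⁻¹ := by
      rw [div_le_iff₀ hr0, inv_mul_eq_div, le_div_iff₀ hx0, mul_comm]
      exact hr2
    have h3 : ((ℓ : ℝ) / r) ^ c₁ ≤ B⁻¹ := by
      have := Real.rpow_le_rpow (div_pos hℓ' hr0).le h2 hc.le
      rwa [Real.inv_rpow hx0.le, hxc] at this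
    have h4 : 0 ≤ ((ℓ : ℝ) / r) ^ c₁ := Real.rpow_nonneg (div_pos hℓ' hr0).le _
    have hB0 : 0 < B := by linarith
    calc A * ((ℓ : ℝ) / r) ^ c₁ ≤ B * ((ℓ : ℝ) / r) ^ c₁ := mul_le_mul_of_nonneg_right hAB h4
      _ ≤ B * B⁻¹ := mul_le_mul_of_nonneg_left h3 hB0.le
      _ = 1 := mul_inv_cancel₀ hB0.ne'

/-- Choice of the number of steps: `exp (-(2 ^ n t)) ≤ a`. -/
theorem exists_tail {t a : ℝ} (ht : 0 < t) (ha : 0 < a) : ∃ n : ℕ, Real.exp (-(2 ^ n * t)) ≤ a := by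
  obtain ⟨n, hn⟩ := pow_unbounded_of_one_lt (1 / (a * t)) (by norm_num : (1 : ℝ) < 2)
  refine ⟨n, ?_⟩
  have hat : 0 < a * t := mul_pos ha ht
  have h1 : 1 < 2 ^ n * (a * t) := by
    rw [div_lt_iff₀ hat] at hn
    exact hn
  have h2 : 2 ^ n * t + 1 ≤ Real.exp (2 ^ n * t) := Real.add_one_le_exp _
  have h3 : Real.exp (2 ^ n * t) * Real.exp (-(2 ^ n * t)) = 1 := by
    rw [← Real.exp_add, add_neg_cancel, Real.exp_zero]
  have h4 : 0 < Real.exp (-(2 ^ n * t)) := Real.exp_pos _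
  have h5 : (2 ^ n * t + 1) * Real.exp (-(2 ^ n * t)) ≤ 1 :=
    (mul_le_mul_of_nonneg_right h2 h4.le).trans h3.le
  have h6 : 0 < 2 ^ n * t := by positivity
  have h7 : (2 ^ n * t) * Real.exp (-(2 ^ n * t)) ≤ (2 ^ n * t) * a := by nlinarith
  exact le_of_mul_le_mul_left h7 h6

/-- BOOTSTRAP.  `M = 3 C₁ + 1`, `Λ` from `exists_lam` with `A = M ^ 2 (64 C) ^ 6 C₅`.  Fix `ℓ`, `t`; strong induction on `R - r` (`r ≥ Λ ℓ`).  `r = R`: `be = 1 = al`.
`r < R`: `bulk_step` with `W` from `exists_annF (8 * r) (R / 4)` and `n` from `exists_tail` with `a = (al L r R) ^ 2 > 0`.  For `v ∈ W` (`8 r < nrm v ≤ R / 4`) the induction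
hypothesis for `(r, ρ₁)` and `(ρ₂, R)` (both starting radii `≥ Λ ℓ`) and `al_mul` (with `ρ = nrm v`): the product of the two factors `be` is at most
`M ^ 2 ((64 C) ^ 3 al L r R) ^ 2`.  `hsum`: the double sum is at most `M ^ 2 (64 C) ^ 6 (al L r R) ^ 2 C₅ (ℓ / r) ^ c₁ ≤ (al L r R) ^ 2`.  Total: `3 C₁ (al L r R) ^ 2`. -/
theorem bulk_ind (hp : TP L C c R₀) {C₁ C₅ c₁ : ℝ} (hC₁ : 0 < C₁) (hC₅ : 0 < C₅) (hc₁ : 0 < c₁)
    (hs : ∀ t : ℝ, 0 ≤ t → ∀ r R : ℤ, R₀ ≤ r → r < R →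
      pr2 (kt t) (L.TwoA true r R) ≤ C₁ * pr2 (kz (kt t) r R) (L.S4 r R))
    (hsum : ∀ (ℓ r : ℤ) (t : ℝ), R₀ ≤ ℓ → ℓ ≤ r → Beyond L R₀ ℓ t →
      ∀ (W : Finset Pt) (n : ℕ), (∀ v ∈ W, 8 * r < nrm v) →
      ∑ j ∈ Finset.range n, (2 ^ j * t) * ∑ v ∈ W, Real.exp (-(2 ^ j * t)) *
        locf L R₀ (2 ^ j * t) v ≤ C₅ * ((ℓ : ℝ) / r) ^ c₁) :
    ∃ (M : ℝ) (Λ : ℤ), 1 ≤ M ∧ 1 ≤ Λ ∧ ∀ (ℓ : ℤ) (t : ℝ), R₀ ≤ ℓ → Beyond L R₀ ℓ t →
      ∀ r R : ℤ, Λ * ℓ ≤ r → r ≤ R → be L t r R ≤ M * (al L r R) ^ 2 := by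
  have hC : 1 ≤ C := hp.ap.C1
  have h16 : 16 ≤ R₀ := hp.ap.R16
  obtain ⟨Λ, hΛ, hlam⟩ := exists_lam (A := (3 * C₁ + 1) ^ 2 * (64 * C) ^ 6 * C₅) hc₁
  refine ⟨3 * C₁ + 1, Λ, by linarith, hΛ, ?_⟩
  intro ℓ t hℓ hb
  obtain ⟨ht, -⟩ := hp.beyond_pos hℓ hb
  have hself : ∀ r : ℤ, be L t r r ≤ (3 * C₁ + 1) * (al L r r) ^ 2 := by
    intro r
    unfold be al
    rw [if_neg (lt_irrefl r), if_neg (lt_irrefl r)]
    linarith
  have key : ∀ n : ℕ, ∀ r R : ℤ, Λ * ℓ ≤ r → r ≤ R → R - r ≤ n →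
      be L t r R ≤ (3 * C₁ + 1) * (al L r R) ^ 2 := by
    intro n
    induction n with
    | zero =>
      intro r R _ h2 h3
      have e : R = r := by push_cast at h3; omega
      rw [e]
      exact hself r
    | succ n ih =>
      intro r R h1 h2 h3
      rcases h2.eq_or_lt with e | hrR
      · rw [← e]
        exact hself r
      have hℓr : ℓ ≤ r := by
        have : 1 * ℓ ≤ Λ * ℓ := mul_le_mul_of_nonneg_right hΛ (by omega)
        omega
      have hr : R₀ ≤ r := hℓ.trans hℓr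
      have hal : 0 < al L r R := hp.ap.pos r R hr h2
      obtain ⟨W, hW⟩ := exists_annF (8 * r) (R / 4)
      obtain ⟨m, hm⟩ := exists_tail ht (pow_pos hal 2)
      have hstep := bulk_step h16 hC₁ hr hrR ht.le (hs t ht.le r R hr hrR) hW m
      set D : ℝ := (3 * C₁ + 1) ^ 2 * ((64 * C) ^ 3 * al L r R) ^ 2 with hD
      have hD0 : 0 ≤ D := by positivity
      have hterm : ∀ s : ℝ, 0 ≤ s → ∀ v ∈ W, be L t r (nrm v - nrm v / 4 - 1) *
          (locf L R₀ s v * be L t (nrm v + nrm v / 4) R) ≤ locf L R₀ s v * D := by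
        intro s hs0 v hv
        obtain ⟨w1, w2⟩ := (hW v).1 hv
        have hlocf : 0 ≤ locf L R₀ s v := by
          unfold locf
          have a1 := pr2_nonneg (L.TwoAt true v R₀ (nrm v / 4)) (kt_kap hs0)
          have a2 := pr2_nonneg (L.TwoAt false v R₀ (nrm v / 4)) (kt_kap hs0)
          linarith
        have b1 := ih r (nrm v - nrm v / 4 - 1) h1 (by omega) (by push_cast at h3; omega)
        have b2 := ih (nrm v + nrm v / 4) R (by omega) (by omega) (by push_cast at h3; omega)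
        have c1 := be_nonneg L ht.le r (nrm v - nrm v / 4 - 1)
        have c2 := be_nonneg L ht.le (nrm v + nrm v / 4) R
        have d := hp.al_mul (r := r) (ρ₁ := nrm v - nrm v / 4 - 1) (ρ := nrm v)
          (ρ₂ := nrm v + nrm v / 4) (R := R) hr (by omega) (by omega) (by omega) (by omega)
          (by omega) (by omega)
        have d1 : 0 ≤ al L r (nrm v - nrm v / 4 - 1) := (hp.ap.pos _ _ hr (by omega)).le
        have d2 : 0 ≤ al L (nrm v + nrm v / 4) R := (hp.ap.pos _ _ (by omega) (by omega)).le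
        have e1 : be L t r (nrm v - nrm v / 4 - 1) * be L t (nrm v + nrm v / 4) R ≤ D := by
          calc be L t r (nrm v - nrm v / 4 - 1) * be L t (nrm v + nrm v / 4) R
              ≤ ((3 * C₁ + 1) * (al L r (nrm v - nrm v / 4 - 1)) ^ 2) *
                ((3 * C₁ + 1) * (al L (nrm v + nrm v / 4) R) ^ 2) :=
                mul_le_mul b1 b2 c2 (c1.trans b1)
            _ = (3 * C₁ + 1) ^ 2 *
                (al L r (nrm v - nrm v / 4 - 1) * al L (nrm v + nrm v / 4) R) ^ 2 := by ring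
            _ ≤ D := by
              rw [hD]
              exact mul_le_mul_of_nonneg_left (pow_le_pow_left₀ (mul_nonneg d1 d2) d 2)
                (by positivity)
        calc be L t r (nrm v - nrm v / 4 - 1) *
              (locf L R₀ s v * be L t (nrm v + nrm v / 4) R)
            = locf L R₀ s v *
              (be L t r (nrm v - nrm v / 4 - 1) * be L t (nrm v + nrm v / 4) R) := by ring
          _ ≤ locf L R₀ s v * D := mul_le_mul_of_nonneg_left e1 hlocf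
      have hS : ∑ j ∈ Finset.range m, (2 ^ j * t) * ∑ v ∈ W, Real.exp (-(2 ^ j * t)) *
          (be L t r (nrm v - nrm v / 4 - 1) *
            (locf L R₀ (2 ^ j * t) v * be L t (nrm v + nrm v / 4) R)) ≤
          D * ∑ j ∈ Finset.range m, (2 ^ j * t) * ∑ v ∈ W, Real.exp (-(2 ^ j * t)) *
            locf L R₀ (2 ^ j * t) v := by
        rw [Finset.mul_sum]
        refine Finset.sum_le_sum fun j _ => ?_
        have hj : 0 ≤ 2 ^ j * t := by positivity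
        have e1 : D * ((2 ^ j * t) * ∑ v ∈ W, Real.exp (-(2 ^ j * t)) *
            locf L R₀ (2 ^ j * t) v) = (2 ^ j * t) * ∑ v ∈ W, Real.exp (-(2 ^ j * t)) *
            (locf L R₀ (2 ^ j * t) v * D) := by
          rw [mul_left_comm, Finset.mul_sum]
          congr 1
          refine Finset.sum_congr rfl fun v _ => ?_
          ring
        rw [e1]
        refine mul_le_mul_of_nonneg_left (Finset.sum_le_sum fun v hv => ?_) hj
        exact mul_le_mul_of_nonneg_left (hterm _ hj v hv) (Real.exp_pos _).le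
      have hS2 := hsum ℓ r t hℓ hℓr hb W m (fun v hv => ((hW v).1 hv).1)
      have hS3 := hlam ℓ r (by omega) h1
      have hS4 : D * ∑ j ∈ Finset.range m, (2 ^ j * t) * ∑ v ∈ W, Real.exp (-(2 ^ j * t)) *
            locf L R₀ (2 ^ j * t) v ≤ (al L r R) ^ 2 := by
        calc D * ∑ j ∈ Finset.range m, (2 ^ j * t) * ∑ v ∈ W, Real.exp (-(2 ^ j * t)) *
              locf L R₀ (2 ^ j * t) v ≤ D * (C₅ * ((ℓ : ℝ) / r) ^ c₁) :=
              mul_le_mul_of_nonneg_left hS2 hD0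
          _ = (al L r R) ^ 2 * ((3 * C₁ + 1) ^ 2 * (64 * C) ^ 6 * C₅ * ((ℓ : ℝ) / r) ^ c₁) := by
              rw [hD]
              ring
          _ ≤ (al L r R) ^ 2 * 1 := mul_le_mul_of_nonneg_left hS3 (by positivity)
          _ = (al L r R) ^ 2 := mul_one _
      have hal2 : 0 < (al L r R) ^ 2 := pow_pos hal 2
      have hfin : (al L r R) ^ 2 +
          ∑ j ∈ Finset.range m, (2 ^ j * t) * ∑ v ∈ W, Real.exp (-(2 ^ j * t)) *
            (be L t r (nrm v - nrm v / 4 - 1) *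
              (locf L R₀ (2 ^ j * t) v * be L t (nrm v + nrm v / 4) R)) +
          Real.exp (-(2 ^ m * t)) ≤ 3 * (al L r R) ^ 2 := by linarith [hS.trans hS4]
      calc be L t r R ≤ C₁ * (3 * (al L r R) ^ 2) :=
            hstep.trans (mul_le_mul_of_nonneg_left hfin hC₁.le)
        _ ≤ (3 * C₁ + 1) * (al L r R) ^ 2 := by nlinarith
  intro r R h1 h2
  exact key (R - r).toNat r R h1 h2 (Int.self_le_toNat _)

/-- all centres and colours: `TP.cmpt` -/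
theorem bulk_of_zero (hp : TP L C c R₀) {M : ℝ} {Λ : ℤ} (hM : 1 ≤ M) (hΛ : 1 ≤ Λ)
    (h : ∀ (ℓ : ℤ) (t : ℝ), R₀ ≤ ℓ → Beyond L R₀ ℓ t →
      ∀ r R : ℤ, Λ * ℓ ≤ r → r ≤ R → be L t r R ≤ M * (al L r R) ^ 2) :
    BulkOK L (C * M) Λ R₀ := by
  intro ℓ t hℓ hb c' x r R h1 h2
  have hC : 1 ≤ C := hp.ap.C1
  have h16 : 16 ≤ R₀ := hp.ap.R16
  obtain ⟨ht, -⟩ := hp.beyond_pos hℓ hb
  have hℓr : ℓ ≤ r := by
    have : 1 * ℓ ≤ Λ * ℓ := mul_le_mul_of_nonneg_right hΛ (by omega)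
    omega
  have e1 := hp.cmpt t ht.le c' x r R r R (hℓ.trans hℓr) (hℓ.trans hℓr) h2 (by omega) h2
    (by omega)
  have e2 := h ℓ t hℓ hb r R h1 h2
  calc pr2 (kt t) (L.TwoAt c' x r R) ≤ C * be L t r R := e1
    _ ≤ C * (M * (al L r R) ^ 2) := mul_le_mul_of_nonneg_left e2 (by linarith)
    _ = C * M * (al L r R) ^ 2 := by ring

end TT

end SC
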