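import Pool.Agent.Lib_MP_e0a489.TTB3
import Pool.Agent.Lib_MP_e0a489.TTK9

/-!
# MP_e0a489, module TT (9e): two-time bound beyond the correlation length, bulk
-/

set_option autoImplicit false

namespace SC

variable [IfL] [IfX]

open Classical

open TT

theorem tt_bulk {L : Lat} {κ : ℕ → ℝ} (h : Fam L κ) {x₀ : Pt}
    (hc : ∀ m : ℤ, 8 ≤ m → CoreOK (L.shift x₀) m) :
    ∃ R₁ : ℤ, 16 ≤ R₁ ∧ ∀ R₀ : ℤ, R₁ ≤ R₀ → ∃ (M : ℝ) (Λ : ℤ), 0 < M ∧ 1 ≤ Λ ∧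
      BulkOK L M Λ R₀ := by
  obtain ⟨R1, hR1, h1⟩ := tt_kb h hc
  obtain ⟨C, c, R2, h2⟩ := tp_ex h
  obtain ⟨Cs, R3, hCs, hR3, h3⟩ := sep2 κ
  refine ⟨max R1 (max R2 R3), hR1.trans (le_max_left _ _), fun R₀ hR₀ => ?_⟩
  have r1 : R1 ≤ R₀ := (le_max_left _ _).trans hR₀
  have r2 : R2 ≤ R₀ := ((le_max_left _ _).trans (le_max_right _ _)).trans hR₀
  have r3 : R3 ≤ R₀ := ((le_max_right _ _).trans (le_max_right _ _)).trans hR₀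
  obtain ⟨C₁, c₁, hC₁, hc₁, hc₁', hk⟩ := h1 R₀ r1
  have hp : TP L C c R₀ := h2 R₀ r2
  obtain ⟨C₅, hC₅, h5⟩ := site_sum hp hC₁ hc₁ hc₁' hk
  obtain ⟨M, Λ, hM, hΛ, h6⟩ := bulk_ind hp hCs hC₅ hc₁
    (fun t ht r R hr hrR => h3 L h.rsw (kt t) (kt_kap ht) true r R (by linarith) hrR.le) h5
  have hC : 1 ≤ C := hp.ap.C1
  exact ⟨C * M, Λ, by positivity, hΛ, bulk_of_zero hp hM hΛ h6⟩

end SC
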