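import Pool.Agent.Lib_MP_e0a489.PF1
import Pool.Agent.Lib_MP_e0a489.TD1
import Pool.Agent.Lib_MP_e0a489.TTD
import Pool.Agent.Lib_MP_e0a489.XPD

/-!
# MP_e0a489, module TT, part E 1: the core makes the origin pivotal (deterministic)
-/

set_option autoImplicit false

namespace SC

namespace TTE

open Classical

variable {L : Lat}

/-- the configuration is `ξ` on `bx m` without the origin -/
def Fx (m : ℤ) (ξ : Cfg) (ω : Cfg) : Prop := ∀ v ∈ bx m, v ≠ 0 → ω v = ξ v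

/-- the property of `ξ` in `CoreOK` -/
def CoreAt (L : Lat) (m : ℤ) (ξ : Cfg) : Prop := ∀ ω : Cfg, Fx m ξ ω →
  ∀ (c : Bool) (s y : ℤ), (s = dc c ∨ s = dc c + 2) → 2 * |y| ≤ m →
    rt s (m + 1, y) ∈ L.col c ω →
      ∃ z, L.Adj 0 z ∧ L.Cn ((bx (m + 1) \ {0}) ∩ L.col c ω) (rt s (m + 1, y)) z

/-- definition -/
theorem coreOK_iff {m : ℤ} : CoreOK L m ↔ L.typ 0 = none ∧ ∃ ξ : Cfg, CoreAt L m ξ := by
  exact Iff.rfl

/-- The sites of the inner zones have norm `> r / 2` (`nrm_rt`). -/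
theorem Kc_nrm {c : Bool} {r : ℤ} (hr : 0 ≤ r) {v : Pt} (hv : v ∈ Kc c r) :
    r / 2 < nrm v ∧ nrm v ≤ r := by
  have key : ∀ s : ℤ, v ∈ K s r → r / 2 < nrm v ∧ nrm v ≤ r := by
    rintro s ⟨w, ⟨⟨h1, h2⟩, h3, h4⟩, rfl⟩
    rw [nrm_rt]
    show r / 2 < max |w.1| |w.2| ∧ max |w.1| |w.2| ≤ r
    have h5 : w.1 ≤ max |w.1| |w.2| := (le_abs_self _).trans (le_max_left _ _)
    refine ⟨by omega, ?_⟩
    rw [max_le_iff, abs_le, abs_le]
    omega
  rcases hv with hv | hv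
  · exact key _ hv
  · exact key _ hv

private theorem tte1_upd {c : Bool} {ω : Cfg} {v : Pt} (hv : v ∈ L.col c ω) (h0 : v ≠ 0) :
    v ∈ L.col c (Function.update ω 0 c) := by
  have h1 : L.st ω v = c := hv
  show L.st (Function.update ω 0 c) v = c
  unfold Lat.st at h1 ⊢
  rw [Function.update_of_ne h0]
  exact h1

private theorem tte1_nrm0 : nrm (0 : Pt) = 0 := by
  show max |(0 : ℤ)| |(0 : ℤ)| = 0
  simp

private theorem tte1_rect {r a b p q m : ℤ} (hm : m ≤ r) (ha : a ≤ -r) (hb : r ≤ b)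
    (hp : p ≤ -r) (hq : r ≤ q) {v : Pt} (hv : nrm v ≤ m) : v ∈ rect a b p q := by
  have h2 : max |v.1| |v.2| ≤ m := hv
  rw [max_le_iff, abs_le, abs_le] at h2
  exact ⟨⟨by omega, by omega⟩, by omega, by omega⟩

/-- ONE ARM.  `u = rt s (r / 2 + 1, y)` with `|y| ≤ r / 8`, so `2 |y| ≤ r / 2`; `u` has colour `c` (`h.left`), so `CoreAt` gives a neighbour `z` of the
origin and a connection from `u` to `z` in `(bx (r / 2 + 1) \ {0}) ∩ col c ω`.  The sites of `bx (r / 2 + 1) \ {0}` and of `rect \ bx r ∪ Kc c r` are in the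
rectangle and different from the origin (`Kc_nrm`), so their colour is the same for `Function.update ω 0 c`; the origin has colour `c` for
`Function.update ω 0 c` (`L.typ 0 = none`).  Path: `0`, `z`, `u`, `v`. -/
theorem to_origin {c : Bool} {r a b p q s : ℤ} {ξ ω : Cfg} (hr : 16 ≤ r) (ha : a ≤ -r)
    (hb : r ≤ b) (hp : p ≤ -r) (hq : r ≤ q) (h0 : L.typ 0 = none) (hc : CoreAt L (r / 2) ξ)
    (hω : Fx (r / 2) ξ ω) (hs : s = dc c ∨ s = dc c + 2) {u v : Pt} (hu : u ∈ Ks s r)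
    (h : L.Cn ((rect a b p q \ bx r ∪ Kc c r) ∩ L.col c ω) u v) :
    L.Cn (rect a b p q ∩ L.col c (Function.update ω 0 c)) 0 v := by
  obtain ⟨w, ⟨⟨q1, q2⟩, q3, q4⟩, rfl⟩ := hu
  have hw : w = (r / 2 + 1, w.2) := Prod.ext (by show w.1 = r / 2 + 1; omega) rfl
  have hcol : rt s (r / 2 + 1, w.2) ∈ L.col c ω := by
    rw [← hw]
    exact h.left.2
  have hy : 2 * |w.2| ≤ r / 2 := by
    have h1 : |w.2| ≤ r / 8 := abs_le.2 ⟨q3, q4⟩
    omega
  obtain ⟨z, hz, hc2⟩ := hc ω hω c s w.2 hs hy hcol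
  rw [← hw] at hc2
  have hsub1 : (bx (r / 2 + 1) \ {0}) ∩ L.col c ω ⊆
      rect a b p q ∩ L.col c (Function.update ω 0 c) := by
    rintro v ⟨⟨h1, h2⟩, h3⟩
    exact ⟨tte1_rect (m := r / 2 + 1) (by omega) ha hb hp hq h1, tte1_upd h3 h2⟩
  have hsub2 : (rect a b p q \ bx r ∪ Kc c r) ∩ L.col c ω ⊆
      rect a b p q ∩ L.col c (Function.update ω 0 c) := by
    rintro v ⟨h1 | h1, h3⟩
    · refine ⟨h1.1, tte1_upd h3 ?_⟩
      rintro rfl
      refine h1.2 ?_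
      show nrm (0 : Pt) ≤ r
      rw [tte1_nrm0]
      omega
    · have h4 := Kc_nrm (by omega) h1
      refine ⟨tte1_rect (m := r) le_rfl ha hb hp hq h4.2, tte1_upd h3 ?_⟩
      rintro rfl
      rw [tte1_nrm0] at h4
      omega
  have h00 : (0 : Pt) ∈ rect a b p q ∩ L.col c (Function.update ω 0 c) := by
    refine ⟨tte1_rect (m := r) le_rfl ha hb hp hq (by rw [tte1_nrm0]; omega), ?_⟩
    show L.st (Function.update ω 0 c) 0 = c
    unfold Lat.st
    rw [h0, Function.update_self]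
    rfl
  have hzu := (hc2.mono hsub1).symm
  exact ((Lat.Cn.of_adj h00 hzu.left hz).trans hzu).trans (h.mono hsub2)

private theorem tte1_both {c : Bool} {r a b p q : ℤ} {ξ ω : Cfg} (hr : 16 ≤ r) (ha : a ≤ -r)
    (hb : r ≤ b) (hp : p ≤ -r) (hq : r ≤ q) (h0 : L.typ 0 = none) (hc : CoreAt L (r / 2) ξ)
    (hω : Fx (r / 2) ξ ω) (h : L.SQ c r a b p q ω) :
    ∃ v ∈ sdp c b q, ∃ v' ∈ sdm c a p,
      L.Cn (rect a b p q ∩ L.col c (Function.update ω 0 c)) v' v := by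
  rcases h with ⟨⟨u, hu, v, hv, h1⟩, ⟨u', hu', v', hv', h2⟩⟩ |
    ⟨⟨u', hu', v', hv', h2⟩, ⟨u, hu, v, hv, h1⟩⟩
  · exact ⟨v, hv, v', hv',
      (to_origin hr ha hb hp hq h0 hc hω (Or.inr rfl) hu' h2).symm.trans
        (to_origin hr ha hb hp hq h0 hc hω (Or.inl rfl) hu h1)⟩
  · exact ⟨v, hv, v', hv',
      (to_origin hr ha hb hp hq h0 hc hω (Or.inl rfl) hu' h2).symm.trans
        (to_origin hr ha hb hp hq h0 hc hω (Or.inr rfl) hu h1)⟩

/-- BOTH ARMS: `to_origin` for the two arms of `SQ`; the two ends are on opposite sides. -/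
theorem core_dx {c : Bool} {r a b p q : ℤ} {ξ ω : Cfg} (hr : 16 ≤ r) (ha : a ≤ -r)
    (hb : r ≤ b) (hp : p ≤ -r) (hq : r ≤ q) (h0 : L.typ 0 = none) (hc : CoreAt L (r / 2) ξ)
    (hω : Fx (r / 2) ξ ω) (h : L.SQ c r a b p q ω) :
    L.DX c a b p q (Function.update ω 0 c) := by
  obtain ⟨v, hv, v', hv', h1⟩ := tte1_both hr ha hb hp hq h0 hc hω h
  cases c with
  | true =>
    have e1 : v.1 = b := hv
    have e2 : v'.1 = a := hv'
    exact ⟨v', v, e2, e1, h1⟩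
  | false =>
    have e1 : v.2 = q := hv
    have e2 : v'.2 = p := hv'
    exact ⟨v', v, e2, e1, h1⟩

/-- `core_dx` for both colours; the vertical closed crossing for the configuration with closed origin excludes the horizontal open crossing
(`Lat.hex_not`). -/
theorem core_piv {r a b p q : ℤ} {ξ ω : Cfg} (hr : 16 ≤ r) (ha : a ≤ -r)
    (hb : r ≤ b) (hp : p ≤ -r) (hq : r ≤ q) (h0 : L.typ 0 = none) (hc : CoreAt L (r / 2) ξ)
    (hω : Fx (r / 2) ξ ω) (ht : L.SQ true r a b p q ω) (hf : L.SQ false r a b p q ω) :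
    Piv 0 (L.HX true a b p q) ω := by
  intro hiff
  have h1 : L.HX true a b p q (Function.update ω 0 true) :=
    core_dx hr ha hb hp hq h0 hc hω ht
  have h2 : L.VX (!true) a b p q (Function.update ω 0 false) :=
    core_dx hr ha hb hp hq h0 hc hω hf
  exact Lat.hex_not (hiff.1 h1) h2

end TTE

end SC
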