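import Pool.Agent.Lib_MP_e0a489.SE25
import Pool.Agent.Lib_MP_e0a489.TTE1

/-!
# MP_e0a489, module TT, part E 2: the core at both times
-/

set_option autoImplicit false

namespace SC

namespace TTE

open Classical

variable {L : Lat}

theorem Fx_dep (m : ℤ) (ξ : Cfg) : Dep (Fx m ξ) (bx m \ {0}) := by
  intro ω ω' h
  refine propext ⟨fun H v hv h0 => ?_, fun H v hv h0 => ?_⟩
  · rw [← h v ⟨hv, h0⟩]
    exact H v hv h0
  · rw [h v ⟨hv, h0⟩]
    exact H v hv h0

private theorem tte2_fin (m : ℤ) : (bx m).Finite := by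
  have h : bx m ⊆ Set.Icc (-m) m ×ˢ Set.Icc (-m) m := by
    intro v h1
    have h2 : max |v.1| |v.2| ≤ m := h1
    rw [max_le_iff, abs_le, abs_le] at h2
    exact ⟨h2.1, h2.2⟩
  exact ((Set.finite_Icc _ _).prod (Set.finite_Icc _ _)).subset h

private theorem tte2_dep (m : ℤ) (ξ : Cfg) :
    Dep (Fx m ξ) (((tte2_fin m).toFinset : Finset Pt) : Set Pt) := by
  rw [Set.Finite.coe_toFinset]
  exact (Fx_dep m ξ).mono Set.sdiff_subset

theorem Fx_loc (m : ℤ) (ξ : Cfg) : Loc (Fx m ξ) := ⟨_, tte2_dep m ξ⟩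

/-- A pivotal event is local (`Dep.piv`). -/
theorem Piv_loc {A : Cfg → Prop} (hA : Loc A) (v : Pt) : Loc (Piv v A) := by
  obtain ⟨F, hF⟩ := hA
  exact ⟨F, (hF.piv v).mono Set.sdiff_subset⟩

/-- `pr (Fx m ξ) ≥ 2 ^ (-card F)` for a finite set `F` that contains `bx m` (`ex_eq_av` and `av_ind_pos` with the configuration that is `ξ` on `F`), and
`pr2_ge_sq`. -/
theorem Fx_pr2 (m : ℤ) : ∃ c : ℝ, 0 < c ∧ ∀ (ξ : Cfg) (k : Pt → ℝ), Kap k → c ≤ pr2 k (Fx m ξ) := by
  refine ⟨((1 / 2 : ℝ) ^ (tte2_fin m).toFinset.card) ^ 2, by positivity, fun ξ k hk => ?_⟩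
  have h1 : (1 / 2 : ℝ) ^ (tte2_fin m).toFinset.card ≤ pr (Fx m ξ) :=
    pr_pos (tte2_dep m ξ) (ω := ξ) (fun v _ _ => rfl)
  exact (pow_le_pow_left₀ (by positivity) h1 2).trans (pr2_ge_sq (Fx_loc m ξ) hk)

private theorem tte2_SQ_loc {r a b p q : ℤ} (c : Bool) : Loc (L.SQ c r a b p q) := by
  have hr : (rect a b p q).Finite := by
    have h : rect a b p q ⊆ Set.Icc a b ×ˢ Set.Icc p q := by
      rintro v ⟨h1, h2⟩
      exact ⟨h1, h2⟩
    exact ((Set.finite_Icc _ _).prod (Set.finite_Icc _ _)).subset h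
  have hr2 : ∀ a b p q : ℤ, (rect a b p q).Finite := by
    intro a b p q
    have h : rect a b p q ⊆ Set.Icc a b ×ˢ Set.Icc p q := by
      rintro v ⟨h1, h2⟩
      exact ⟨h1, h2⟩
    exact ((Set.finite_Icc _ _).prod (Set.finite_Icc _ _)).subset h
  have hf : (rect a b p q \ bx r ∪ Kc c r).Finite := by
    refine Set.Finite.union (hr.subset Set.sdiff_subset) ?_
    unfold Kc K
    exact ((hr2 _ _ _ _).image _).union ((hr2 _ _ _ _).image _)
  exact ⟨hf.toFinset, (Lat.SQ.dep L c r a b p q).mono (by rw [Set.Finite.coe_toFinset])⟩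

/-- Independence (`pr2_and`): `Fx (r / 2) ξ` depends on `bx (r / 2)`, the box events on `rect \ bx r ∪ Kc c r` (`SQ.dep`, `Kc_nrm`); `core_piv` and
`pr2_mono`. -/
theorem piv_zero {r a b p q : ℤ} {ξ : Cfg} (hr : 16 ≤ r) (ha : a ≤ -r)
    (hb : r ≤ b) (hp : p ≤ -r) (hq : r ≤ q) (h0 : L.typ 0 = none) (hc : CoreAt L (r / 2) ξ)
    {k : Pt → ℝ} (hk : Kap k) :
    pr2 k (Fx (r / 2) ξ) *
        pr2 k (fun ω => L.SQ true r a b p q ω ∧ L.SQ false r a b p q ω) ≤
      pr2 k (Piv 0 (L.HX true a b p q)) := by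
  have ls : Loc (L.SQ true r a b p q) := tte2_SQ_loc true
  have ls' : Loc (L.SQ false r a b p q) := tte2_SQ_loc false
  have ds : Dep (fun ω => L.SQ true r a b p q ω ∧ L.SQ false r a b p q ω)
      ((rect a b p q \ bx r ∪ Kc true r) ∪ (rect a b p q \ bx r ∪ Kc false r)) := by
    intro ω ω' H
    show (L.SQ true r a b p q ω ∧ L.SQ false r a b p q ω) =
      (L.SQ true r a b p q ω' ∧ L.SQ false r a b p q ω')
    rw [Lat.SQ.dep L true r a b p q ω ω' (fun v hv => H v (Or.inl hv)),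
      Lat.SQ.dep L false r a b p q ω ω' (fun v hv => H v (Or.inr hv))]
  have hdis : ∀ v ∈ bx (r / 2) \ {0},
      v ∉ (rect a b p q \ bx r ∪ Kc true r) ∪ (rect a b p q \ bx r ∪ Kc false r) := by
    rintro v ⟨hv, -⟩
    have hv' : nrm v ≤ r / 2 := hv
    rintro ((h1 | h1) | (h1 | h1))
    · exact h1.2 (show nrm v ≤ r by omega)
    · have := Kc_nrm (by omega) h1
      omega
    · exact h1.2 (show nrm v ≤ r by omega)
    · have := Kc_nrm (by omega) h1
      omega
  rw [← pr2_and (Fx_loc _ ξ) (ls.and ls') (Fx_dep _ ξ) ds hdis k]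
  exact pr2_mono ((Fx_loc _ ξ).and (ls.and ls')) (Piv_loc (Lat.HX.loc L true a b p q) 0) hk
    fun ω hω => core_piv hr ha hb hp hq h0 hc hω.1 hω.2.1 hω.2.2

/-- TRANSPORT.  `(L.shift x).HX true (-N - x.1) (N - x.1) (-N - x.2) (N - x.2) (via (Equiv.addRight x) ω) ↔ L.HX true (-N) N (-N) N ω` (`shift_hx`), and
`via (Equiv.addRight x) (Function.update ω x b) = Function.update (via (Equiv.addRight x) ω) 0 b`; so `x` is pivotal for the crossing iff the origin is pivotal for the
crossing in the shifted lattice, and `pr2_via` (the correlation is constant). -/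
theorem piv_shift (L : Lat) (x : Pt) (N : ℤ) (s : ℝ) :
    pr2 (kt s) (Piv x (L.HX true (-N) N (-N) N)) =
      pr2 (kt s) (Piv 0 ((L.shift x).HX true (-N - x.1) (N - x.1) (-N - x.2) (N - x.2))) := by
  have h1 := pr2_via (Piv_loc (Lat.HX.loc (L.shift x) true (-N - x.1) (N - x.1) (-N - x.2)
    (N - x.2)) 0) (Equiv.addRight x) (kt s)
  have h2 : (fun v => kt s ((Equiv.addRight x) v)) = kt s := rfl
  rw [h2] at h1
  rw [← h1]
  congr 1
  funext ω
  have h3 : ∀ b : Bool, Function.update (via (Equiv.addRight x) ω) 0 b =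
      via (Equiv.addRight x) (Function.update ω x b) := by
    intro b
    funext v
    show Function.update (via (Equiv.addRight x) ω) 0 b v = Function.update ω x b (v + x)
    by_cases hv : v = 0
    · subst hv
      rw [Function.update_self, zero_add, Function.update_self]
    · rw [Function.update_of_ne hv, Function.update_of_ne]
      · rfl
      · intro h
        exact hv (by simpa using h)
  have h4 : ∀ b : Bool, (L.shift x).HX true (-N - x.1) (N - x.1) (-N - x.2) (N - x.2)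
      (Function.update (via (Equiv.addRight x) ω) 0 b) ↔
      L.HX true (-N) N (-N) N (Function.update ω x b) := by
    intro b
    rw [h3, shift_hx, sub_add_cancel, sub_add_cancel, sub_add_cancel, sub_add_cancel]
  unfold Piv
  rw [h4, h4]

end TTE

end SC
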