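import Pool.Agent.Lib_MP_e0a489.SE9
import Pool.Agent.Lib_MP_e0a489.SQ9
import Pool.Agent.Lib_MP_e0a489.TTD
import Pool.Agent.Lib_MP_e0a489.TTG

/-!
# MP_e0a489, module TT, part E 3: the box event at both times
-/

set_option autoImplicit false

namespace SC

variable [IfL]

namespace TTE

open Classical

/-- `sq2` with `R = N / 4`, `glue2` with `ρ = m`, `ρ' = 8 m`, `sep2` for the radii `8 m`, `N / 4`. -/
theorem sq_outer (κ : ℕ → ℝ) : ∃ (C : ℝ) (R₀ : ℤ), 0 < C ∧ 16 ≤ R₀ ∧ ∀ L : Lat, RSW L κ →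
    ∀ k : Pt → ℝ, (∀ v, 0 ≤ k v ∧ k v ≤ 1) → ∀ (x : Pt) (r m N : ℤ), R₀ ≤ r → r ≤ m →
      64 * m ≤ N → 2 * nrm x ≤ N →
      pr2 (kz k r m) (L.S4 r m) * pr2 k (L.TwoA true (8 * m) (N / 4)) ≤
        C * pr2 k (fun ω => L.SQ true r (-N - x.1) (N - x.1) (-N - x.2) (N - x.2) ω ∧
          L.SQ false r (-N - x.1) (N - x.1) (-N - x.2) (N - x.2) ω) := by
  obtain ⟨C1, r1, hC1, hr1, h1⟩ := sq2 κ
  obtain ⟨C2, r2, hC2, hr2, h2⟩ := glue2 κ
  obtain ⟨C3, r3, hC3, hr3, h3⟩ := sep2 κ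
  refine ⟨C3 * (C2 * C1), max r1 (max r2 r3), by positivity, hr1.trans (le_max_left _ _), ?_⟩
  intro L hL k hk x r m N hr hrm hm hx
  have hr1' : r1 ≤ r := (le_max_left _ _).trans hr
  have hr2' : r2 ≤ r := ((le_max_left _ _).trans (le_max_right _ _)).trans hr
  have hr3' : r3 ≤ r := ((le_max_right _ _).trans (le_max_right _ _)).trans hr
  have hm16 : 16 ≤ m := by linarith
  have hx1 : |x.1| ≤ nrm x := le_max_left _ _
  have hx2 : |x.2| ≤ nrm x := le_max_right _ _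
  rw [abs_le] at hx1 hx2
  have hkz : ∀ v, 0 ≤ kz k r (N / 4) v ∧ kz k r (N / 4) v ≤ k v := by
    intro v
    unfold kz
    split_ifs
    · exact ⟨le_refl _, (hk v).1⟩
    · exact ⟨(hk v).1, le_refl _⟩
  have hkz' : ∀ (a b : ℤ) (v : Pt), 0 ≤ kz k a b v ∧ kz k a b v ≤ 1 := by
    intro a b v
    unfold kz
    split_ifs
    · exact ⟨le_refl _, zero_le_one⟩
    · exact hk v
  have e1 := h1 L hL k hk r (N / 4) (-N - x.1) (N - x.1) (-N - x.2) (N - x.2) hr1'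
    (by omega) (by omega) (by omega) (by omega) (by omega) (by omega) (by omega) (by omega)
    (by omega)
  have e2 := h2 L hL k hk r m (8 * m) (N / 4) hr2' hrm (le_refl _) (by omega) (by omega)
  have e3 := h3 L hL k hk true (8 * m) (N / 4) (by omega) (by omega)
  have e4 : pr2 (kz k r (N / 4)) (fun ω => L.SQ true r (-N - x.1) (N - x.1) (-N - x.2) (N - x.2) ω ∧
      L.SQ false r (-N - x.1) (N - x.1) (-N - x.2) (N - x.2) ω) ≤
      pr2 k (fun ω => L.SQ true r (-N - x.1) (N - x.1) (-N - x.2) (N - x.2) ω ∧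
        L.SQ false r (-N - x.1) (N - x.1) (-N - x.2) (N - x.2) ω) :=
    pr2_mono_k (Loc.and (Lat.SQ.loc _ _ _ _ _ _ _) (Lat.SQ.loc _ _ _ _ _ _ _))
      (fun v => (hkz v).1) (fun v => (hkz v).2)
  have p1 : 0 ≤ pr2 (kz k r m) (L.S4 r m) := pr2_nonneg _ (hkz' r m)
  calc pr2 (kz k r m) (L.S4 r m) * pr2 k (L.TwoA true (8 * m) (N / 4))
      ≤ pr2 (kz k r m) (L.S4 r m) * (C3 * pr2 (kz k (8 * m) (N / 4)) (L.S4 (8 * m) (N / 4))) :=
        mul_le_mul_of_nonneg_left e3 p1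
    _ = C3 * (pr2 (kz k r m) (L.S4 r m) * pr2 (kz k (8 * m) (N / 4)) (L.S4 (8 * m) (N / 4))) := by
        ring
    _ ≤ C3 * (C2 * pr2 (kz k r (N / 4)) (L.S4 r (N / 4))) :=
        mul_le_mul_of_nonneg_left e2 hC3.le
    _ ≤ C3 * (C2 * (C1 * pr2 k (fun ω =>
          L.SQ true r (-N - x.1) (N - x.1) (-N - x.2) (N - x.2) ω ∧
          L.SQ false r (-N - x.1) (N - x.1) (-N - x.2) (N - x.2) ω))) := by
        refine mul_le_mul_of_nonneg_left (mul_le_mul_of_nonneg_left (e1.trans ?_) hC2.le) hC3.le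
        exact mul_le_mul_of_nonneg_left e4 hC1.le
    _ = _ := by ring

/-- `shift_small`, `cmp2` with the centre `x'` -/
theorem be_le (κ : ℕ → ℝ) : ∃ (C : ℝ) (R₀ : ℤ), 0 < C ∧ 16 ≤ R₀ ∧ ∀ L : Lat, Fam L κ →
    ∀ (x : Pt) (s : ℝ) (m N : ℤ), 0 ≤ s → R₀ ≤ m → 64 * m ≤ N →
      be L s m N ≤ C * pr2 (kt s) ((L.shift x).TwoA true (8 * m) (N / 4)) := by
  obtain ⟨C, R₀, hC, hR, h⟩ := cmp2 κ
  refine ⟨C, R₀, hC, hR, ?_⟩
  intro L hL x s m N hs hm hN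
  obtain ⟨x', hx', e⟩ := shift_small hL x
  have e1 := h L hL.rsw (kt s) (fun v => kt_mem hs v) true true x' m N (8 * m) (N / 4) hm
    (by omega) (by omega) (by omega) (by omega) (by omega) (by omega)
  have e2 : be L s m N = pr2 (kt s) (L.TwoA true m N) := by
    unfold be
    rw [if_pos (by omega)]
  have e3 : pr2 (kt s) (L.TwoAt true x' (8 * m) (N / 4)) =
      pr2 (kt s) ((L.shift x').TwoA true (8 * m) (N / 4)) :=
    pr2_via (Lat.TwoA.loc (L.shift x') true (8 * m) (N / 4)) (Equiv.addRight x') (kt s)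
  rw [e2, e, ← e3]
  exact e1

end TTE

end SC
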