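import Pool.Agent.Lib_MP_e0a489.Defs2
import Pool.Agent.Lib_MP_e0a489.PF2
import Pool.Agent.Lib_MP_e0a489.SE1
import Pool.Agent.Lib_MP_e0a489.TE3

/-!
# MP_e0a489, module TT, part E 4: energy of the crossing event
-/

set_option autoImplicit false

namespace SC

namespace TTE

open Classical

/-- For an increasing event the derivative of the indicator is half of the indicator of the pivotal event (not only up to the sign). -/
theorem dv_inc {A : Cfg → Prop} (hA : Inc A) (v : Pt) (ω : Cfg) :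
    dv v (ind A) ω = (1 / 2) * ind (Piv v A) ω := by
  have h := hA (Function.update ω v false) (Function.update ω v true) (fun u => by
    by_cases hu : u = v
    · subst hu
      rw [Function.update_self, Function.update_self]
      decide
    · rw [Function.update_of_ne hu, Function.update_of_ne hu])
  unfold dv ind Piv
  by_cases h1 : A (Function.update ω v true) <;> by_cases h2 : A (Function.update ω v false)
  · simp [h1, h2]
  · simp only [h1, h2, if_true, if_false]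
    norm_num
  · exact absurd (h h2) h1
  · simp [h1, h2]

private theorem tte4_loc {A : Cfg → Prop} (lA : Loc A) (v : Pt) : Loc (Piv v A) := by
  obtain ⟨F, hF⟩ := lA
  exact ⟨F, fun ω ω' H => (hF.piv v) ω ω' fun u hu => H u hu.1⟩

/-- `dv_inc` and bilinearity (`ex2_smul_left`, `ex2_comm`) -/
theorem ex2_dv_inc {A : Cfg → Prop} (hA : Inc A) (lA : Loc A) (v : Pt) {k : Pt → ℝ} :
    ex2 k (dv v (ind A)) (dv v (ind A)) = (1 / 4) * pr2 k (Piv v A) := by
  have e : dv v (ind A) = fun ω => (1 / 2 : ℝ) * ind (Piv v A) ω := funext fun ω => dv_inc hA v ω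
  have l1 : Lf (ind (Piv v A)) := (tte4_loc lA v).lf
  have l2 : Lf (fun ω => (1 / 2 : ℝ) * ind (Piv v A) ω) := l1.smul (1 / 2)
  rw [e, ex2_smul_left l1 l2, ex2_comm l1 l2, ex2_smul_left l1 l1]
  unfold pr2
  ring

private theorem tte4_nonneg {τ : ℕ → ℝ} (h0 : 0 ≤ τ 0) (h2 : ∀ i, 2 * τ i ≤ τ (i + 1)) (i : ℕ) :
    0 ≤ τ i := by
  induction i with
  | zero => exact h0
  | succ i ih =>
    have := h2 i
    linarith

private theorem tte4_kap (W : Finset Pt) {t : ℝ} (ht : 0 ≤ t) (v : Pt) :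
    0 ≤ kon W (Real.exp (-t)) (fun _ => 1) v ∧ kon W (Real.exp (-t)) (fun _ => 1) v ≤ 1 := by
  unfold kon
  split_ifs
  · exact ⟨(Real.exp_pos _).le, Real.exp_le_one_iff.2 (by linarith)⟩
  · exact ⟨zero_le_one, le_refl _⟩

/-- ENERGY for a sequence of times with `2 τ i ≤ τ (i + 1)`.  Let `F` be a finite support of `A`, `W = V ∪ F`, `g = ind A`, `e t = ex2 (kon W (exp (-t)) 1) g g`.
`lag_low` with `s = τ i`: `e (2 τ i) + τ i ∑_{v ∈ W} exp (-(2 τ i)) ex2 (kon W (exp (-(2 τ i))) 1) (dv v g) (dv v g) ≤ e (τ i)`; the terms of `W \ V` are nonnegative;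
`ex2_dv_inc`; on the support of `Piv v A` (contained in `F`, `Dep.piv`) the correlation `kon W (exp (-t)) 1` is `kt t` (`pr2_congr`).  `e (τ (i + 1)) ≤ e (2 τ i)`
(`ex2_mono_kappa`).  Sum over `i < n`: `∑ .. ≤ 4 (e (τ 0) - e (τ n)) ≤ 4 ex (g ^ 2) ≤ 4` (`ex2_le_sq`, `ex2_self_nonneg`). -/
theorem energy_inc {A : Cfg → Prop} (hA : Inc A) (lA : Loc A) (V : Finset Pt) {τ : ℕ → ℝ}
    (h0 : 0 ≤ τ 0) (h2 : ∀ i, 2 * τ i ≤ τ (i + 1)) (n : ℕ) :
    ∑ i ∈ Finset.range n, τ i * Real.exp (-(2 * τ i)) *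
      ∑ v ∈ V, pr2 (kt (2 * τ i)) (Piv v A) ≤ 4 := by
  have lA' := lA
  obtain ⟨F, hF⟩ := lA'
  have hτ := tte4_nonneg h0 h2
  have hstep : ∀ i, τ i * Real.exp (-(2 * τ i)) * ∑ v ∈ V, pr2 (kt (2 * τ i)) (Piv v A) +
      4 * ex2 (kon (V ∪ F) (Real.exp (-(τ (i + 1)))) fun _ => 1) (ind A) (ind A) ≤
      4 * ex2 (kon (V ∪ F) (Real.exp (-(τ i))) fun _ => 1) (ind A) (ind A) := by
    intro i
    have h3 := lag_low lA.lf (V ∪ F) (κ := fun _ => 1) (fun _ => zero_le_one) (hτ i)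
    have h4 : ex2 (kon (V ∪ F) (Real.exp (-(τ (i + 1)))) fun _ => 1) (ind A) (ind A) ≤
        ex2 (kon (V ∪ F) (Real.exp (-(2 * τ i))) fun _ => 1) (ind A) (ind A) := by
      refine ex2_mono_kappa lA.lf (fun v => (tte4_kap _ (hτ (i + 1)) v).1) (fun v => ?_)
      unfold kon
      split_ifs
      · exact Real.exp_le_exp.2 (by have := h2 i; linarith)
      · exact le_refl _
    have h5 : ∀ v, pr2 (kt (2 * τ i)) (Piv v A) =
        4 * ex2 (kon (V ∪ F) (Real.exp (-(2 * τ i))) fun _ => 1) (dv v (ind A)) (dv v (ind A)) := by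
      intro v
      rw [ex2_dv_inc hA lA v, pr2_congr (tte4_loc lA v) (hF.piv v)
        (k := kt (2 * τ i)) (k' := kon (V ∪ F) (Real.exp (-(2 * τ i))) fun _ => 1)]
      · ring
      · intro u hu
        unfold kon kt
        rw [if_pos (Finset.mem_union_right _ (Finset.mem_coe.1 hu.1))]
    have h6 : ∑ v ∈ V, pr2 (kt (2 * τ i)) (Piv v A) ≤
        4 * ∑ v ∈ V ∪ F, ex2 (kon (V ∪ F) (Real.exp (-(2 * τ i))) fun _ => 1)
          (dv v (ind A)) (dv v (ind A)) := by
      rw [Finset.mul_sum, Finset.sum_congr rfl fun v _ => h5 v]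
      refine Finset.sum_le_sum_of_subset_of_nonneg Finset.subset_union_left fun v _ _ => ?_
      rw [ex2_dv_inc hA lA v]
      have := pr2_nonneg (Piv v A) (k := kon (V ∪ F) (Real.exp (-(2 * τ i))) fun _ => 1)
        (fun v => tte4_kap _ (by have := hτ i; linarith) v)
      linarith
    rw [← Finset.mul_sum] at h3
    have h7 : 0 ≤ τ i * Real.exp (-(2 * τ i)) := mul_nonneg (hτ i) (Real.exp_pos _).le
    have h8 := mul_le_mul_of_nonneg_left h6 h7
    nlinarith [h3, h4, h8]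
  have key : ∀ n : ℕ, ∑ i ∈ Finset.range n, τ i * Real.exp (-(2 * τ i)) *
      ∑ v ∈ V, pr2 (kt (2 * τ i)) (Piv v A) +
      4 * ex2 (kon (V ∪ F) (Real.exp (-(τ n))) fun _ => 1) (ind A) (ind A) ≤
      4 * ex2 (kon (V ∪ F) (Real.exp (-(τ 0))) fun _ => 1) (ind A) (ind A) := by
    intro n
    induction n with
    | zero => simp
    | succ n ih =>
      rw [Finset.sum_range_succ]
      have := hstep n
      linarith
  have h3 := key n
  have h4 : 0 ≤ ex2 (kon (V ∪ F) (Real.exp (-(τ n))) fun _ => 1) (ind A) (ind A) :=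
    ex2_self_nonneg lA.lf _ fun v => (tte4_kap _ (hτ n) v).1
  have h5 : ex2 (kon (V ∪ F) (Real.exp (-(τ 0))) fun _ => 1) (ind A) (ind A) ≤ 1 :=
    pr2_le_one lA fun v => tte4_kap _ (hτ 0) v
  linarith

/-- `energy_inc` for the crossing (`Lat.HX.mon`, `Lat.HX.loc`) -/
theorem energy_hx (L : Lat) (N : ℤ) (V : Finset Pt) {τ : ℕ → ℝ}
    (h0 : 0 ≤ τ 0) (h2 : ∀ i, 2 * τ i ≤ τ (i + 1)) (n : ℕ) :
    ∑ i ∈ Finset.range n, τ i * Real.exp (-(2 * τ i)) *
      ∑ v ∈ V, pr2 (kt (2 * τ i)) (Piv v (L.HX true (-N) N (-N) N)) ≤ 4 := by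
  exact energy_inc (by simpa [MonC] using Lat.HX.mon L true (-N) N (-N) N)
    (Lat.HX.loc L true (-N) N (-N) N) V h0 h2 n

end TTE

end SC
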