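import Pool.Agent.Lib_MP_e0a489.TTE2
import Pool.Agent.Lib_MP_e0a489.TTE3
import Pool.Agent.Lib_MP_e0a489.TTE4

/-!
# MP_e0a489, module TT, part E 9: lower bound of the probability that a site is pivotal at both times
-/

set_option autoImplicit false

namespace SC

variable [IfL]

open Classical

/-- LOWER BOUND.  `L.shift v = L.shift x₀` by periodicity (`shift_shift`, `shift_even`), so the core configuration exists
(`CoreOK`, radius `R₀ / 2`); `TTE.piv_shift`, `TTE.piv_zero`, `TTE.Fx_pr2`, `TTE.sq_outer`, `TTE.be_le`. -/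
theorem piv_low {L : Lat} {κ : ℕ → ℝ} (h : Fam L κ) {x₀ : Pt}
    (hc : ∀ m : ℤ, 8 ≤ m → CoreOK (L.shift x₀) m) :
    ∃ R₁ : ℤ, 16 ≤ R₁ ∧ ∀ R₀ : ℤ, R₁ ≤ R₀ → ∃ c₂ : ℝ, 0 < c₂ ∧
      ∀ (m N : ℤ) (s : ℝ) (z : Pt), R₀ ≤ m → 64 * m ≤ N → 0 ≤ s →
        2 * nrm ((x₀.1 + 2 * z.1, x₀.2 + 2 * z.2) : Pt) ≤ N →
        c₂ * (pr2 (kz (kt s) R₀ m) ((L.shift (x₀.1 + 2 * z.1, x₀.2 + 2 * z.2)).S4 R₀ m) *
            be L s m N) ≤
          pr2 (kt s) (Piv (x₀.1 + 2 * z.1, x₀.2 + 2 * z.2) (L.HX true (-N) N (-N) N)) := by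
  obtain ⟨C1, r1, hC1, hr1, h1⟩ := TTE.sq_outer κ
  obtain ⟨C2, r2, hC2, hr2, h2⟩ := TTE.be_le κ
  refine ⟨max r1 r2, hr1.trans (le_max_left _ _), ?_⟩
  intro R₀ hR₀
  have hr1' : r1 ≤ R₀ := (le_max_left _ _).trans hR₀
  have hr2' : r2 ≤ R₀ := (le_max_right _ _).trans hR₀
  obtain ⟨c3, hc3, h3⟩ := TTE.Fx_pr2 (R₀ / 2)
  obtain ⟨h0, ξ, hξ⟩ := TTE.coreOK_iff.1 (hc (R₀ / 2) (by omega))
  refine ⟨c3 / (C1 * C2), by positivity, ?_⟩
  intro m N s z hm hN hs hz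
  have hsh : L.shift (x₀.1 + 2 * z.1, x₀.2 + 2 * z.2) = L.shift x₀ := by
    have e := shift_shift L (2 * z.1, 2 * z.2) x₀
    rw [shift_even h z] at e
    rw [e]
    congr 1
    apply Prod.ext
    · show x₀.1 + 2 * z.1 = 2 * z.1 + x₀.1
      ring
    · show x₀.2 + 2 * z.2 = 2 * z.2 + x₀.2
      ring
  generalize hv : ((x₀.1 + 2 * z.1, x₀.2 + 2 * z.2) : Pt) = v at hz hsh ⊢
  have hk : ∀ u, 0 ≤ kt s u ∧ kt s u ≤ 1 := fun u => kt_mem hs u
  have hL : RSW (L.shift v) κ := h.rsw.shift v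
  have hx1 : |v.1| ≤ nrm v := le_max_left _ _
  have hx2 : |v.2| ≤ nrm v := le_max_right _ _
  rw [abs_le] at hx1 hx2
  have e1 := h1 (L.shift v) hL (kt s) hk v R₀ m N hr1' hm hN hz
  have e2 := h2 L h v s m N hs (by linarith) hN
  have e3 := h3 ξ (kt s) hk
  have h0' : (L.shift v).typ 0 = none := by
    rw [hsh]
    exact h0
  have hξ' : TTE.CoreAt (L.shift v) (R₀ / 2) ξ := by
    rw [hsh]
    exact hξ
  have e4 := TTE.piv_zero (L := L.shift v) (r := R₀) (a := -N - v.1) (b := N - v.1)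
    (p := -N - v.2) (q := N - v.2) (by linarith) (by linarith) (by linarith) (by linarith)
    (by linarith) h0' hξ' hk
  rw [← TTE.piv_shift L v N s] at e4
  have p1 : 0 ≤ pr2 (kz (kt s) R₀ m) ((L.shift v).S4 R₀ m) := by
    refine pr2_nonneg _ (fun u => ?_)
    unfold kz
    split_ifs
    · exact ⟨le_refl _, zero_le_one⟩
    · exact hk u
  have p2 : 0 ≤ pr2 (kt s) (fun ω =>
      (L.shift v).SQ true R₀ (-N - v.1) (N - v.1) (-N - v.2) (N - v.2) ω ∧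
        (L.shift v).SQ false R₀ (-N - v.1) (N - v.1) (-N - v.2) (N - v.2) ω) :=
    pr2_nonneg _ hk
  have e5 : pr2 (kz (kt s) R₀ m) ((L.shift v).S4 R₀ m) * be L s m N ≤
      C1 * C2 * pr2 (kt s) (fun ω =>
        (L.shift v).SQ true R₀ (-N - v.1) (N - v.1) (-N - v.2) (N - v.2) ω ∧
          (L.shift v).SQ false R₀ (-N - v.1) (N - v.1) (-N - v.2) (N - v.2) ω) := by
    calc _ ≤ pr2 (kz (kt s) R₀ m) ((L.shift v).S4 R₀ m) *
          (C2 * pr2 (kt s) ((L.shift v).TwoA true (8 * m) (N / 4))) :=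
          mul_le_mul_of_nonneg_left e2 p1
      _ = C2 * (pr2 (kz (kt s) R₀ m) ((L.shift v).S4 R₀ m) *
            pr2 (kt s) ((L.shift v).TwoA true (8 * m) (N / 4))) := by ring
      _ ≤ C2 * (C1 * pr2 (kt s) (fun ω =>
            (L.shift v).SQ true R₀ (-N - v.1) (N - v.1) (-N - v.2) (N - v.2) ω ∧
            (L.shift v).SQ false R₀ (-N - v.1) (N - v.1) (-N - v.2) (N - v.2) ω)) :=
          mul_le_mul_of_nonneg_left e1 hC2.le
      _ = _ := by ring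
  calc c3 / (C1 * C2) * (pr2 (kz (kt s) R₀ m) ((L.shift v).S4 R₀ m) * be L s m N)
      ≤ c3 / (C1 * C2) * (C1 * C2 * pr2 (kt s) (fun ω =>
          (L.shift v).SQ true R₀ (-N - v.1) (N - v.1) (-N - v.2) (N - v.2) ω ∧
          (L.shift v).SQ false R₀ (-N - v.1) (N - v.1) (-N - v.2) (N - v.2) ω)) :=
        mul_le_mul_of_nonneg_left e5 (by positivity)
    _ = c3 * pr2 (kt s) (fun ω =>
          (L.shift v).SQ true R₀ (-N - v.1) (N - v.1) (-N - v.2) (N - v.2) ω ∧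
          (L.shift v).SQ false R₀ (-N - v.1) (N - v.1) (-N - v.2) (N - v.2) ω) := by
        field_simp
    _ ≤ pr2 (kt s) (TTE.Fx (R₀ / 2) ξ) * pr2 (kt s) (fun ω =>
          (L.shift v).SQ true R₀ (-N - v.1) (N - v.1) (-N - v.2) (N - v.2) ω ∧
          (L.shift v).SQ false R₀ (-N - v.1) (N - v.1) (-N - v.2) (N - v.2) ω) :=
        mul_le_mul_of_nonneg_right e3 p2
    _ ≤ _ := e4

/-- ENERGY of the crossing event for a sequence of times with `2 τ i ≤ τ (i + 1)`. -/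
theorem energy_hx (L : Lat) (N : ℤ) (V : Finset Pt) {τ : ℕ → ℝ}
    (h0 : 0 ≤ τ 0) (h2 : ∀ i, 2 * τ i ≤ τ (i + 1)) (n : ℕ) :
    ∑ i ∈ Finset.range n, τ i * Real.exp (-(2 * τ i)) *
      ∑ v ∈ V, pr2 (kt (2 * τ i)) (Piv v (L.HX true (-N) N (-N) N)) ≤ 4 :=
  TTE.energy_hx L N V h0 h2 n

end SC
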