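import Pool.Agent.Lib_MP_e0a489.TTHD
import Pool.Agent.Lib_MP_e0a489.XP1
import Pool.Agent.Lib_MP_e0a489.XP2b

/-!
# MP_e0a489, module TTH 1: smaller annuli with another centre
-/

set_option autoImplicit false

namespace SC

open Classical XP

namespace Lat

variable {L : Lat} {c : Bool} {Q : Set Pt} {ω : Cfg}

/-- CROSSING OF A SMALLER ANNULUS.  Let `d = nrm (y - y')`, `A = annAt y r R ∩ Q ∩ col c ω`, `S = bxAt y' r'`.  `nrm (w - y') ≥ R - d ≥ R' > r'`, so `w ∉ S`.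
Claim: there is `p ∈ nb S`, `p ∉ S`, with `Cn (A \ S) p w` and `Cn A x p`.
(1) `x ∈ S`: `Cn.last` for `Cn A x w`.
(2) `x ∉ S` and `Cn (A \ S) x w`: `p = x`; `x` has a neighbour in `bxAt y r ⊆ S` (as `r + d ≤ r'`).
(3) `x ∉ S` and not `Cn (A \ S) x w`: `Cn.exit` with the set `{z | Cn (A \ S) x z}` gives `q ∈ A`, `q ∈ S`, `Cn A x q`; then `Cn.last` for `Cn A q w`.
Then `nrm (p - y') = r' + 1 ≤ R'` (`adj_nrm`), and `to_rngAt` (`y'`, `R'`) gives `z ∈ rngAt y' R'` with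
`Cn ((A \ S) ∩ {z | nrm (z - y') ≤ R'}) p z`, and this set is contained in `annAt y' r' R' ∩ Q ∩ col c ω`. -/
theorem cross_at {y y' : Pt} {r R r' R' : ℤ} {x w : Pt}
    (h : L.Cn (annAt y r R ∩ Q ∩ L.col c ω) x w) (hx : x ∈ L.nb (bxAt y r)) (hw : w ∈ rngAt y R)
    (h1 : r + nrm (y - y') ≤ r') (h2 : r' < R') (h3 : R' + nrm (y - y') ≤ R) :
    ∃ p ∈ L.nb (bxAt y' r'), ∃ z ∈ rngAt y' R', L.Cn (annAt y' r' R' ∩ Q ∩ L.col c ω) p z ∧
      L.Cn (annAt y r R ∩ Q ∩ L.col c ω) x p := by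
  have hwR : nrm (w - y) = R := hw
  have e1 := nrm_tri w y' y
  rw [nrm_comm y' y] at e1
  have hwS : w ∉ bxAt y' r' := by
    intro hc
    have hc' : nrm (w - y') ≤ r' := hc
    omega
  have key : ∃ p ∈ L.nb (bxAt y' r'), L.Cn ((annAt y r R ∩ Q ∩ L.col c ω) \ bxAt y' r') p w := by
    have key0 : ∀ q ∈ bxAt y' r', L.Cn (annAt y r R ∩ Q ∩ L.col c ω) q w →
        ∃ p ∈ L.nb (bxAt y' r'), L.Cn ((annAt y r R ∩ Q ∩ L.col c ω) \ bxAt y' r') p w := by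
      intro q hq hqw
      obtain ⟨p0, q0, -, h4, h5, h6⟩ := hqw.last hq hwS
      exact ⟨q0, ⟨p0, h4, h5⟩, h6⟩
    by_cases hxS : x ∈ bxAt y' r'
    · exact key0 x hxS h
    · by_cases hxw : L.Cn ((annAt y r R ∩ Q ∩ L.col c ω) \ bxAt y' r') x w
      · obtain ⟨u, hu, hux⟩ := hx
        refine ⟨x, ⟨u, ?_, hux⟩, hxw⟩
        have hu' : nrm (u - y) ≤ r := hu
        have e2 := nrm_tri u y y'
        show nrm (u - y') ≤ r'
        omega
      · obtain ⟨p0, q0, h4, h5, h6, h7⟩ := h.exit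
          (S := {z | L.Cn ((annAt y r R ∩ Q ∩ L.col c ω) \ bxAt y' r') x z})
          (Cn.refl ⟨h.left, hxS⟩) hxw
        have hqS : q0 ∈ bxAt y' r' := by
          by_contra hc
          have h8 : L.Cn ((annAt y r R ∩ Q ∩ L.col c ω) \ bxAt y' r') x p0 := h4.right.2
          exact h7 (h8.trans (Cn.of_adj h8.right ⟨h6, hc⟩ h5))
        have h9 : L.Cn (annAt y r R ∩ Q ∩ L.col c ω) x q0 :=
          (h4.mono (fun z hz => hz.1)).trans (Cn.of_adj h4.right.1 h6 h5)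
        exact key0 q0 hqS (h9.symm.trans h)
  obtain ⟨p, hp, hpw⟩ := key
  have hpn : nrm (p - y') ≤ R' := by
    obtain ⟨u, hu, hup⟩ := hp
    have hu' : nrm (u - y') ≤ r' := hu
    have e3 := abs_le.1 (adj_nrm hup y')
    omega
  have hwn : R' ≤ nrm (w - y') := by omega
  obtain ⟨z, hz, hpz⟩ := to_rngAt (y := y') (R := R') hpw hpn hwn
  refine ⟨p, hp, z, hz, hpz.mono ?_, h.trans (hpw.mono (fun z hz => hz.1)).symm⟩
  rintro v ⟨⟨⟨⟨-, hvQ⟩, hvc⟩, hvS⟩, hvR⟩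
  refine ⟨⟨⟨?_, hvR⟩, hvQ⟩, hvc⟩
  have hvS' : ¬ nrm (v - y') ≤ r' := hvS
  omega

/-- `cross_at` for both paths; if `p` and `p'` were joined in `annAt y' r' R' ∩ Q ⊆ annAt y r R ∩ Q` (triangle inequality) then `x` and `x'`
would be joined. -/
theorem two_sub {y y' : Pt} {r R r' R' : ℤ} (h : L.TwoD Q c y r R ω)
    (h1 : r + nrm (y - y') ≤ r') (h2 : r' < R') (h3 : R' + nrm (y - y') ≤ R) :
    L.TwoD Q c y' r' R' ω := by
  obtain ⟨x, hx, w, hw, x', hx', w', hw', hc, hc', hn⟩ := h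
  obtain ⟨p, hp, z, hz, h4, h5⟩ := cross_at hc hx hw h1 h2 h3
  obtain ⟨p', hp', z', hz', h4', h5'⟩ := cross_at hc' hx' hw' h1 h2 h3
  refine ⟨p, hp, z, hz, p', hp', z', hz', h4, h4', fun h6 => hn ?_⟩
  have h7 : L.Cn (annAt y r R ∩ Q ∩ L.col c ω) p p' := by
    refine h6.mono ?_
    rintro v ⟨⟨⟨hv1, hv2⟩, hvQ⟩, hvc⟩
    have e1 := nrm_tri v y y'
    have e2 := nrm_tri v y' y
    rw [nrm_comm y' y] at e2
    refine ⟨⟨⟨?_, ?_⟩, hvQ⟩, hvc⟩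
    · omega
    · omega
  exact (h5.trans h7).trans h5'.symm

theorem arm_sub {y y' : Pt} {r R r' R' : ℤ}
    (h : L.Arm c (annAt y r R ∩ Q) (L.nb (bxAt y r)) (rngAt y R) ω)
    (h1 : r + nrm (y - y') ≤ r') (h2 : r' < R') (h3 : R' + nrm (y - y') ≤ R) :
    L.Arm c (annAt y' r' R' ∩ Q) (L.nb (bxAt y' r')) (rngAt y' R') ω := by
  obtain ⟨x, hx, w, hw, hc⟩ := h
  obtain ⟨p, hp, z, hz, h4, -⟩ := cross_at hc hx hw h1 h2 h3
  exact ⟨p, hp, z, hz, h4⟩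

/-- `annAt 0 r R = ann r R` etc. (`sub_zero`), commutativity of the intersection -/
theorem twoH_iff_twoD (L : Lat) (c : Bool) (H : Set Pt) (r R : ℤ) (ω : Cfg) :
    L.TwoH c H r R ω ↔ L.TwoD H c 0 r R ω := by
  have e1 : annAt 0 r R = ann r R := by
    ext v
    show r < nrm (v - 0) ∧ nrm (v - 0) ≤ R ↔ r < nrm v ∧ nrm v ≤ R
    rw [sub_zero]
  have e2 : bxAt 0 r = bx r := by
    ext v
    show nrm (v - 0) ≤ r ↔ nrm v ≤ r
    rw [sub_zero]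
  have e3 : rngAt 0 R = rng R := by
    ext v
    show nrm (v - 0) = R ↔ nrm v = R
    rw [sub_zero]
  unfold TwoH TwoD
  rw [e1, e2, e3]

theorem twoQ_iff_arm (L : Lat) (H : Set Pt) (r R : ℤ) (ω : Cfg) :
    L.TwoQ H r R ω ↔ ∀ c : Bool, L.Arm c (annAt 0 r R ∩ H) (L.nb (bxAt 0 r)) (rngAt 0 R) ω := by
  have e1 : annAt 0 r R = ann r R := by
    ext v
    show r < nrm (v - 0) ∧ nrm (v - 0) ≤ R ↔ r < nrm v ∧ nrm v ≤ R
    rw [sub_zero]
  have e2 : bxAt 0 r = bx r := by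
    ext v
    show nrm (v - 0) ≤ r ↔ nrm v ≤ r
    rw [sub_zero]
  have e3 : rngAt 0 R = rng R := by
    ext v
    show nrm (v - 0) = R ↔ nrm v = R
    rw [sub_zero]
  unfold TwoQ
  rw [e1, e2, e3]

/-- `XP.twoAt_iff`: the same event as `TwoAt`; if the annulus is contained in `Q` the domain is the annulus -/
theorem twoAt_of_twoD {y : Pt} {r R : ℤ} (hQ : annAt y r R ⊆ Q) (h : L.TwoD Q c y r R ω) :
    L.TwoAt c y r R ω := by
  rw [twoAt_iff]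
  have e1 : annAt y r R ∩ Q = annAt y r R := Set.inter_eq_left.2 hQ
  unfold TwoD at h
  rwa [e1] at h

end Lat

end SC
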