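import Pool.Agent.Lib_MP_e0a489.TTH1

/-!
# MP_e0a489, module TTH 2: `TwoH` and `TwoQ` as abstract crossing events, pivotal sites
-/

set_option autoImplicit false

namespace SC

open Classical XP

namespace Lat

variable {L : Lat} {c : Bool} {Q : Set Pt} {ω : Cfg}

/-- The domain `annAt v 0 D ∩ Q` is contained in `bxAt v D ∩ Q` (`Two.dep`). -/
theorem locE_dep (L : Lat) (Q : Set Pt) (b : Bool) (v : Pt) (D : ℤ) :
    Dep (L.LocE Q b v D) (bxAt v D ∩ Q) := by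
  intro ω ω' h
  have h1 : L.TwoD Q b v 0 D ω = L.TwoD Q b v 0 D ω' :=
    Two.dep L b (annAt v 0 D ∩ Q) _ _ ω ω' fun u hu => h u ⟨hu.1.2, hu.2⟩
  show (1 ≤ D → L.TwoD Q b v 0 D ω) = (1 ≤ D → L.TwoD Q b v 0 D ω')
  rw [h1]

private theorem TTH2_dom {H : Set Pt} {v : Pt} {r R D : ℤ} (h1 : r + 1 + D ≤ nrm v)
    (h2 : nrm v + D ≤ R) : (ann r R ∩ H) ∩ annAt v 0 D = annAt v 0 D ∩ H := by
  ext z
  constructor
  · rintro ⟨⟨_, a2⟩, a3⟩
    exact ⟨a3, a2⟩
  · rintro ⟨a3, a2⟩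
    have b1 : nrm (z - v) ≤ D := a3.2
    have b2 := nrm_add (z - v) v
    rw [sub_add_cancel] at b2
    have b3 := nrm_tri v z 0
    rw [sub_zero, sub_zero, nrm_comm v z] at b3
    exact ⟨⟨⟨by omega, by omega⟩, a2⟩, a3⟩

private theorem TTH2_in {v x : Pt} {r D : ℤ} (h1 : r + 1 + D ≤ nrm v) (hx : x ∈ L.nb (bx r)) :
    D ≤ nrm (x - v) := by
  obtain ⟨z, hz, ha⟩ := hx
  have b1 : nrm z ≤ r := hz
  have b2 := abs_le.1 (adj_nrm ha 0)
  rw [sub_zero, sub_zero] at b2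
  have b3 := nrm_tri v x 0
  rw [sub_zero, sub_zero, nrm_comm v x] at b3
  omega

private theorem TTH2_out {v y : Pt} {R D : ℤ} (h2 : nrm v + D ≤ R) (hy : y ∈ rng R) :
    D ≤ nrm (y - v) := by
  have b1 : nrm y = R := hy
  have b3 := nrm_tri y v 0
  rw [sub_zero, sub_zero] at b3
  omega

/-- the event for the updated configuration and for `ω` -/
private theorem TTH2_fin {H : Set Pt} {v : Pt} {r R D : ℤ} (h1 : r + 1 + D ≤ nrm v)
    (h2 : nrm v + D ≤ R) {ω₁ : Cfg} (hag : ∀ u, u ≠ v → ω₁ u = ω u)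
    (h : L.Two c ((ann r R ∩ H) ∩ annAt v 0 D) (L.nb (bxAt v 0)) (rngAt v D) ω₁) :
    L.TwoD H c v 0 D ω := by
  rw [TTH2_dom h1 h2] at h
  refine (two_agree (ω₁ := ω₁) fun u hu => hag u ?_).1 h
  rintro rfl
  have b1 : 0 < nrm (u - u) := hu.1.1
  rw [sub_self] at b1
  exact absurd b1 (by decide)

private theorem TTH2_ag {v : Pt} {ω₁ ω₂ : Cfg} (h1 : ∀ u, u ≠ v → ω₁ u = ω u)
    (h2 : ∀ u, u ≠ v → ω₂ u = ω u) : ∀ u, 0 < nrm (u - v) → ω₁ u = ω₂ u := by
  intro u hu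
  have hne : u ≠ v := by
    rintro rfl
    rw [sub_self] at hu
    exact absurd hu (by decide)
  rw [h1 u hne, h2 u hne]

private theorem TTH2_half {H : Set Pt} {v : Pt} {r R D : ℤ} (h1 : r + 1 + D ≤ nrm v)
    (h2 : nrm v + D ≤ R) (hD : 1 ≤ D) {ω₁ ω₂ : Cfg} (ha1 : ∀ u, u ≠ v → ω₁ u = ω u)
    (ha2 : ∀ u, u ≠ v → ω₂ u = ω u) (h : L.TwoH c H r R ω₁) (hn : ¬ L.TwoH c H r R ω₂) :
    L.TwoD H c v 0 D ω := by
  obtain ⟨x, hx, y, hy, x', hx', y', hy', c1, c2, c3⟩ := h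
  have hag := TTH2_ag ha1 ha2
  have hag' : ∀ u, 0 < nrm (u - v) → ω₂ u = ω₁ u := fun u hu => (hag u hu).symm
  by_cases e1 : L.Cn (ann r R ∩ H ∩ L.col c ω₂) x y
  · by_cases e2 : L.Cn (ann r R ∩ H ∩ L.col c ω₂) x' y'
    · by_cases e3 : L.Cn (ann r R ∩ H ∩ L.col c ω₂) x x'
      · refine TTH2_fin h1 h2 ha2 (piv_two (S₁ := {x}) (S₂ := {x'}) (ω₂ := ω₁) (by omega) hag'
          ⟨x, rfl, x', rfl, e3⟩ ?_ ?_ ?_)
        · rintro _ rfl _ rfl
          exact c3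
        · rintro _ rfl
          exact TTH2_in h1 hx
        · rintro _ rfl
          exact TTH2_in h1 hx'
      · exact absurd ⟨x, hx, y, hy, x', hx', y', hy', e1, e2, e3⟩ hn
    · refine TTH2_fin h1 h2 ha1 (piv_two (S₁ := {x'}) (S₂ := {y'}) (ω₂ := ω₂) (by omega) hag
        ⟨x', rfl, y', rfl, c2⟩ ?_ ?_ ?_)
      · rintro _ rfl _ rfl
        exact e2
      · rintro _ rfl
        exact TTH2_in h1 hx'
      · rintro _ rfl
        exact TTH2_out h2 hy'
  · refine TTH2_fin h1 h2 ha1 (piv_two (S₁ := {x}) (S₂ := {y}) (ω₂ := ω₂) (by omega) hag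
      ⟨x, rfl, y, rfl, c1⟩ ?_ ?_ ?_)
    · rintro _ rfl _ rfl
      exact e1
    · rintro _ rfl
      exact TTH2_in h1 hx
    · rintro _ rfl
      exact TTH2_out h2 hy

private theorem TTH2_quart {H : Set Pt} {v : Pt} {r R D : ℤ} (h1 : r + 1 + D ≤ nrm v)
    (h2 : nrm v + D ≤ R) (hD : 1 ≤ D) {ω₁ ω₂ : Cfg} (ha1 : ∀ u, u ≠ v → ω₁ u = ω u)
    (ha2 : ∀ u, u ≠ v → ω₂ u = ω u) (h : L.TwoQ H r R ω₁) (hn : ¬ L.TwoQ H r R ω₂) :
    ∃ b, L.TwoD H b v 0 D ω := by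
  obtain ⟨b, hb⟩ := not_forall.1 hn
  obtain ⟨x, hx, y, hy, c1⟩ := h b
  refine ⟨b, TTH2_fin h1 h2 ha1 (piv_two (S₁ := L.nb (bx r)) (S₂ := rng R) (ω₂ := ω₂) (by omega)
    (TTH2_ag ha1 ha2) ⟨x, hx, y, hy, c1⟩ ?_ (fun u hu => TTH2_in h1 hu)
    (fun u hu => TTH2_out h2 hu))⟩
  intro u hu w hw hc
  exact hb ⟨u, hu, w, hw, hc⟩

private theorem TTH2_upd (ω : Cfg) (v : Pt) (b : Bool) :
    ∀ u, u ≠ v → Function.update ω v b u = ω u := fun _ hu => Function.update_of_ne hu _ _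

/-- HALF PLANE.  `dep`: `Two.dep`.  `mono`: `twoH_iff_twoD`, `two_sub` with `y = y' = 0`.  `depW`: `locE_dep`.
`piv`: let `D ≥ 1` (otherwise `LocE` is trivially true).  Let `ω₁`, `ω₂` be the two configurations `Function.update ω v (true / false)`, `TwoH` true for `ω₁`,
false for `ω₂`; `A_i = ann r R ∩ H ∩ col c ω_i`; `x, y, x', y'` from `TwoH` for `ω₁`.
(a) If `Cn A₂ x y` and `Cn A₂ x' y'`: `TwoH` fails for `ω₂`, so `Cn A₂ x x'`, while `¬ Cn A₁ x x'`: `piv_two` (`ω₁ := ω₂`, `ω₂ := ω₁`, `S₁ = {x}`, `S₂ = {x'}`).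
(b) If `¬ Cn A₂ x y`: `piv_two` with `S₁ = {x}`, `S₂ = {y}` (joined for `ω₁`, not for `ω₂`).  (c) The same if `¬ Cn A₂ x' y'`.
The radii in `piv_two` are `0` and `D`, the centre is `v`: the configurations agree off `v` (`0 < nrm (u - v)` means `u ≠ v`); `nrm (x - v) ≥ nrm v - (r + 1) ≥ D` and
`nrm (y - v) ≥ R - nrm v ≥ D`.  The domain is `(ann r R ∩ H) ∩ annAt v 0 D = annAt v 0 D ∩ H` (`nrm z ≥ nrm v - D ≥ r + 1`, `nrm z ≤ nrm v + D ≤ R`).  It does
not contain `v`, so the event holds for `ω` as well (`Two.dep`). -/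
theorem crE_half (L : Lat) (c : Bool) (H : Set Pt) :
    CrE H (fun r R => L.TwoH c H r R) (L.LocE H) := by
  refine ⟨fun r R => Two.dep L c _ _ _, ?_, fun b v D => locE_dep L H b v D, ?_⟩
  · intro r R r' R' ω _ h2 h3 h4 h5
    have h0 : nrm ((0 : Pt) - 0) = 0 := by rw [sub_self]; decide
    exact (twoH_iff_twoD L c H r' R' ω).2 (two_sub ((twoH_iff_twoD L c H r R ω).1 h5)
      (by rw [h0]; omega) h3 (by rw [h0]; omega))
  · intro r R v D ω _ _ h3 h4 _ hp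
    refine ⟨c, fun hD => ?_⟩
    by_cases e1 : L.TwoH c H r R (Function.update ω v true)
    · by_cases e2 : L.TwoH c H r R (Function.update ω v false)
      · exact absurd (iff_of_true e1 e2) hp
      · exact TTH2_half h3 h4 hD (TTH2_upd ω v true) (TTH2_upd ω v false) e1 e2
    · by_cases e2 : L.TwoH c H r R (Function.update ω v false)
      · exact TTH2_half h3 h4 hD (TTH2_upd ω v false) (TTH2_upd ω v true) e2 e1
      · exact absurd (iff_of_false e1 e2) hp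

/-- CORNER.  As for the half plane (`Arm.dep`, `twoQ_iff_arm`, `arm_sub`).  `piv`: `TwoQ` true for `ω₁`, false for `ω₂`: for some colour `c` the arm exists for `ω₁`
and not for `ω₂`: `piv_two` with `S₁ = nb (bx r)`, `S₂ = rng R`. -/
theorem crE_quart (L : Lat) (H : Set Pt) : CrE H (fun r R => L.TwoQ H r R) (L.LocE H) := by
  refine ⟨?_, ?_, fun b v D => locE_dep L H b v D, ?_⟩
  · intro r R ω ω' h
    show (∀ c : Bool, L.Arm c (ann r R ∩ H) (L.nb (bx r)) (rng R) ω) =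
      ∀ c : Bool, L.Arm c (ann r R ∩ H) (L.nb (bx r)) (rng R) ω'
    exact forall_congr fun b => Arm.dep L b _ _ _ ω ω' h
  · intro r R r' R' ω _ h2 h3 h4 h5
    have h0 : nrm ((0 : Pt) - 0) = 0 := by rw [sub_self]; decide
    exact (twoQ_iff_arm L H r' R' ω).2 fun b => arm_sub ((twoQ_iff_arm L H r R ω).1 h5 b)
      (by rw [h0]; omega) h3 (by rw [h0]; omega)
  · intro r R v D ω _ _ h3 h4 _ hp
    by_cases hD : 1 ≤ D
    · by_cases e1 : L.TwoQ H r R (Function.update ω v true)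
      · by_cases e2 : L.TwoQ H r R (Function.update ω v false)
        · exact absurd (iff_of_true e1 e2) hp
        · obtain ⟨b, hb⟩ := TTH2_quart h3 h4 hD (TTH2_upd ω v true) (TTH2_upd ω v false) e1 e2
          exact ⟨b, fun _ => hb⟩
      · by_cases e2 : L.TwoQ H r R (Function.update ω v false)
        · obtain ⟨b, hb⟩ := TTH2_quart h3 h4 hD (TTH2_upd ω v false) (TTH2_upd ω v true) e2 e1
          exact ⟨b, fun _ => hb⟩
        · exact absurd (iff_of_false e1 e2) hp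
    · exact ⟨true, fun h => absurd h hD⟩

end Lat

/-- `ht v = v.2`; in the shell there are at most `4 ρ + 1 ≤ 10 ρ` sites of a given height (the first coordinate is between `-2 ρ` and `2 ρ`). -/
theorem htOK_half {H : Set Pt} (hH : HalfLike H) : HtOK H (fun v => v.2) := by
  refine ⟨fun v hv => hH.2 hv, fun v _ => (le_abs_self _).trans (abs_nrm v).2, ?_⟩
  intro ρ h hρ
  have h1 : ((ttSh H ρ).filter (fun v => v.2 = h)) ⊆
      Finset.Icc (-(2 * ρ)) (2 * ρ) ×ˢ ({h} : Finset ℤ) := by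
    intro v hv
    rw [Finset.mem_filter] at hv
    have h2 := hv.1
    unfold ttSh rectF at h2
    rw [Finset.mem_filter, Finset.mem_product] at h2
    rw [Finset.mem_product, Finset.mem_singleton]
    exact ⟨h2.1.1, hv.2⟩
  have h2 := Finset.card_le_card h1
  rw [Finset.card_product, Finset.card_singleton, Int.card_Icc, mul_one] at h2
  have h3 : (((ttSh H ρ).filter (fun v => v.2 = h)).card : ℤ) ≤ 10 * ρ := by omega
  exact_mod_cast h3

/-- `ht v = min v.1 v.2`: at most `2 (2 ρ + 1) ≤ 10 ρ` sites -/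
theorem htOK_quart {H : Set Pt} (hH : QuartLike H) : HtOK H (fun v => min v.1 v.2) := by
  refine ⟨fun v hv => le_min (hH.2 hv).1 (hH.2 hv).2,
    fun v _ => (min_le_left _ _).trans ((le_abs_self _).trans (abs_nrm v).1), ?_⟩
  intro ρ h hρ
  have h1 : ((ttSh H ρ).filter (fun v => min v.1 v.2 = h)) ⊆
      (Finset.Icc (-(2 * ρ)) (2 * ρ) ×ˢ ({h} : Finset ℤ)) ∪
        (({h} : Finset ℤ) ×ˢ Finset.Icc (-(2 * ρ)) (2 * ρ)) := by
    intro v hv
    rw [Finset.mem_filter] at hv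
    have h2 := hv.1
    unfold ttSh rectF at h2
    rw [Finset.mem_filter, Finset.mem_product] at h2
    rw [Finset.mem_union, Finset.mem_product, Finset.mem_product, Finset.mem_singleton,
      Finset.mem_singleton]
    have h3 : min v.1 v.2 = h := hv.2
    rcases min_choice v.1 v.2 with h4 | h4
    · exact Or.inr ⟨h4.symm.trans h3, h2.1.2⟩
    · exact Or.inl ⟨h2.1.1, h4.symm.trans h3⟩
  have h2 := (Finset.card_le_card h1).trans (Finset.card_union_le _ _)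
  rw [Finset.card_product, Finset.card_product, Finset.card_singleton, Int.card_Icc, mul_one,
    one_mul] at h2
  have h3 : (((ttSh H ρ).filter (fun v => min v.1 v.2 = h)).card : ℤ) ≤ 10 * ρ := by omega
  exact_mod_cast h3

end SC
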