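import Pool.Agent.Lib_MP_e0a489.SE24
import Pool.Agent.Lib_MP_e0a489.TTH1

/-!
# MP_e0a489, module TTH 3: factorization of the local event in the half plane
-/

set_option autoImplicit false

namespace SC

variable [IfL]

open Classical XP

private theorem tth3_nrm_img (P : ℤ → Prop) (σ : ℤ) (x y : Pt) :
    (rt σ * Equiv.addRight x : Equiv.Perm Pt) '' {v | P (nrm (v - y))} =
      {v | P (nrm (v - rt σ (y + x)))} := by
  have key : ∀ w : Pt, nrm ((rt σ * Equiv.addRight x : Equiv.Perm Pt) w - rt σ (y + x)) =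
      nrm (w - y) := by
    intro w
    rw [rtz_apply, ← rt_lin_sub, nrm_rt]
    congr 1
    abel
  ext v
  constructor
  · rintro ⟨w, hw, rfl⟩
    show P _
    rw [key]
    exact hw
  · intro hv
    refine ⟨(rt σ * Equiv.addRight x : Equiv.Perm Pt).symm v, ?_, Equiv.apply_symm_apply _ v⟩
    show P _
    rw [← key, Equiv.apply_symm_apply]
    exact hv

private theorem tth3_true (κ : Pt → ℝ) : pr2 κ (fun _ => True) = 1 := by
  have h1 : Dep (ind (fun _ => True)) (∅ : Set Pt) := by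
    intro ω ω' _
    rfl
  have h2 : Lf (ind (fun _ => True)) := ⟨∅, by
    intro ω ω' _
    rfl⟩
  unfold pr2
  rw [ex2_one h2 h2 h1 κ (fun v hv => absurd hv (Set.notMem_empty v))]
  have h3 : (fun ω => ind (fun _ => True) ω * ind (fun _ => True) ω) = fun _ : Cfg => (1 : ℝ) := by
    funext ω
    unfold ind
    rw [if_pos trivial, mul_one]
  rw [h3]
  exact ex_const 1

private theorem tth3_imp (κ : Pt → ℝ) (A : Cfg → Prop) (a b : ℤ) :
    pr2 κ (fun ω => a < b → A ω) = if a < b then pr2 κ A else 1 := by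
  by_cases hab : a < b
  · rw [if_pos hab]
    congr 1
    funext ω
    exact propext ⟨fun h => h hab, fun h _ => h⟩
  · rw [if_neg hab]
    have e : (fun ω => a < b → A ω) = fun _ => True := by
      funext ω
      exact propext ⟨fun _ => trivial, fun _ h => absurd h hab⟩
    rw [e]
    exact tth3_true κ

private theorem tth3_kap {t : ℝ} (ht : 0 ≤ t) : Kap (kt t) := by
  intro v
  refine ⟨(Real.exp_pos _).le, ?_⟩
  show Real.exp (-t) ≤ 1
  rw [← Real.exp_zero]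
  exact Real.exp_le_exp.2 (by linarith)

private theorem tth3_bx_finite (y : Pt) (R : ℤ) : (bxAt y R).Finite := by
  refine (Finset.finite_toSet
    (Finset.Icc (y.1 - R) (y.1 + R) ×ˢ Finset.Icc (y.2 - R) (y.2 + R))).subset ?_
  intro v h
  have h1 : |v.1 - y.1| ≤ R := (le_max_left _ _).trans h
  have h2 : |v.2 - y.2| ≤ R := (le_max_right _ _).trans h
  have h3 := abs_le.1 h1
  have h4 := abs_le.1 h2
  simp only [Finset.coe_product, Finset.coe_Icc, Set.mem_prod, Set.mem_Icc]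
  omega

private theorem tth3_twoD_dep (L : Lat) (Q : Set Pt) (c : Bool) (y : Pt) (r R : ℤ) :
    Dep (L.TwoD Q c y r R) (annAt y r R) := by
  intro ω ω' hw
  exact Lat.Two.dep L c (annAt y r R ∩ Q) _ _ ω ω' (fun v hv => hw v hv.1)

private theorem tth3_locE (L : Lat) (Q : Set Pt) (b : Bool) (v : Pt) (D : ℤ) :
    Loc (L.LocE Q b v D) := by
  refine loc_of_dep (annAt_finite v 0 D) ?_
  intro ω ω' hw
  have h := tth3_twoD_dep L Q b v 0 D ω ω' hw
  show (1 ≤ D → L.TwoD Q b v 0 D ω) = (1 ≤ D → L.TwoD Q b v 0 D ω')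
  rw [h]

private theorem tth3_imp_dep {A : Cfg → Prop} {S : Set Pt} (h : Dep A S) (a b : ℤ) :
    Dep (fun ω => a < b → A ω) S := by
  intro ω ω' hw
  show (a < b → A ω) = (a < b → A ω')
  rw [h ω ω' hw]

private theorem tth3_one {L' : Lat} {H : Set Pt} (hH : HalfLike H) {b : Bool} {v : Pt}
    {D r₁ m : ℤ} (hD : 1 ≤ D) (hr : 0 ≤ r₁) (hm : m < v.2) (hmD : m ≤ D) {ω : Cfg}
    (h : L'.LocE H b v D ω) (hrm : r₁ < m) : L'.TwoAt b v r₁ m ω := by
  have h0 : L'.TwoD H b v 0 D ω := h hD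
  have e0 : nrm (v - v) = 0 := by
    rw [sub_self]
    rfl
  have h1 : L'.TwoD H b v r₁ m ω := Lat.two_sub h0 (by omega) hrm (by omega)
  refine Lat.twoAt_of_twoD ?_ h1
  rintro z ⟨_, hz⟩
  refine hH.1 ?_
  show 1 ≤ z.2
  have h2 : |(z - v).2| ≤ nrm (z - v) := (abs_nrm (z - v)).2
  have h3 : (z - v).2 = z.2 - v.2 := rfl
  rw [h3] at h2
  have h4 := (abs_le.1 h2).1
  omega

/-- Let `e = rt σ * Equiv.addRight x` (`tr_rotshift`, `rtz_apply`).  `XP.twoAt_iff` for `(L.rots σ).shift x`, `Tr.two`, `Tr.nb`; the images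
under `e` of `annAt y r R`, `bxAt y r`, `rngAt y R` are the sets around `e y = rt σ (y + x)` (`nrm (e u - e y) = nrm (u - y)`, `rt_lin_sub`, `nrm_rt`).  So
`((L.rots σ).shift x).TwoAt b y r R (via e ω) ↔ L.TwoAt b (rt σ (y + x)) r R ω`, and `pr2_via` (the correlation is constant). -/
theorem pr2_twoAt_rots (L : Lat) (σ : ℤ) (x y : Pt) (b : Bool) (r R : ℤ) (t : ℝ) :
    pr2 (kt t) (((L.rots σ).shift x).TwoAt b y r R) =
      pr2 (kt t) (L.TwoAt b (rt σ (y + x)) r R) := by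
  have hT := tr_rotshift L σ x
  have hloc : Loc (((L.rots σ).shift x).TwoAt b y r R) := twoAt_loc _ b y r R
  have h1 := pr2_via hloc (rt σ * Equiv.addRight x) (kt t)
  have h2 : (fun v => kt t ((rt σ * Equiv.addRight x : Equiv.Perm Pt) v)) = kt t := rfl
  rw [h2] at h1
  rw [← h1]
  congr 1
  funext ω
  refine propext ?_
  show ((L.rots σ).shift x).TwoAt b y r R (via (rt σ * Equiv.addRight x) ω) ↔ _
  rw [twoAt_iff, twoAt_iff, hT.two, hT.nb]
  have e1 : (rt σ * Equiv.addRight x : Equiv.Perm Pt) '' annAt y r R =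
      annAt (rt σ (y + x)) r R := tth3_nrm_img (fun a => r < a ∧ a ≤ R) σ x y
  have e2 : (rt σ * Equiv.addRight x : Equiv.Perm Pt) '' bxAt y r = bxAt (rt σ (y + x)) r :=
    tth3_nrm_img (fun a => a ≤ r) σ x y
  have e3 : (rt σ * Equiv.addRight x : Equiv.Perm Pt) '' rngAt y R = rngAt (rt σ (y + x)) R :=
    tth3_nrm_img (fun a => a = R) σ x y
  rw [e1, e2, e3]

/-- `Tr.two`, `Tr.nb` for `tr_shift L p`, `image_ann0`, `image_bx0`, `image_rng0`, `Set.image_inter`; the image of `{z | z + p ∈ H}` under the translation by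
`p` is `H`; `pr2_via`. -/
theorem pr2_twoD_shift (L : Lat) (p : Pt) (b : Bool) (H : Set Pt) (r R : ℤ) (t : ℝ) :
    pr2 (kt t) (L.TwoD H b p r R) = pr2 (kt t) ((L.shift p).TwoH b {z | z + p ∈ H} r R) := by
  have hT := tr_shift L p
  have hloc : Loc ((L.shift p).TwoH b {z | z + p ∈ H} r R) := by
    refine Lat.Two.loc _ b _ _ _ (Set.Finite.subset (annAt_finite 0 r R) ?_)
    rintro z ⟨hz, _⟩
    show r < nrm (z - 0) ∧ nrm (z - 0) ≤ R
    rw [sub_zero]
    exact hz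
  have h1 := pr2_via hloc (Equiv.addRight p) (kt t)
  have h2 : (fun v => kt t ((Equiv.addRight p : Equiv.Perm Pt) v)) = kt t := rfl
  rw [h2] at h1
  rw [← h1]
  congr 1
  funext ω
  refine propext ?_
  show L.Two b (annAt p r R ∩ H) (L.nb (bxAt p r)) (rngAt p R) ω ↔
    (L.shift p).Two b (ann r R ∩ {z | z + p ∈ H}) ((L.shift p).nb (bx r)) (rng R)
      (via (Equiv.addRight p) ω)
  rw [hT.two, hT.nb, Set.image_inter (Equiv.addRight p : Equiv.Perm Pt).injective, image_ann0,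
    image_bx0, image_rng0]
  have e1 : (Equiv.addRight p : Equiv.Perm Pt) '' {z | z + p ∈ H} = H := by
    ext v
    constructor
    · rintro ⟨w, hw, rfl⟩
      exact hw
    · intro hv
      refine ⟨v - p, ?_, sub_add_cancel v p⟩
      show v - p + p ∈ H
      rw [sub_add_cancel]
      exact hv
  rw [e1]

theorem halfLike_add {H : Set Pt} (hH : HalfLike H) {p : Pt} (hp : p.2 = 0) :
    HalfLike {z | z + p ∈ H} := by
  constructor
  · intro z hz
    refine hH.1 ?_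
    have h1 : 1 ≤ z.2 := hz
    show 1 ≤ z.2 + p.2
    omega
  · intro z hz
    have h1 : 0 ≤ z.2 + p.2 := hH.2 hz
    show 0 ≤ z.2
    omega

/-- FACTORIZATION.  Let `L' = (L.rots σ).shift x`, `p = (v.1, 0)`, `nrm (v - p) = v.2`.  The local event (`1 ≤ D`) implies
(1) `L'.TwoAt b v r₁ m` if `r₁ < m`: `two_sub` (`y = y' = v`) and `twoAt_of_twoD` (`annAt v r₁ m ⊆ {1 ≤ z.2} ⊆ H` because `m < v.2`);
(2) `L'.TwoD H b p m₀ m₁` if `m₀ < m₁`, and `L'.TwoD H b p m₂ R'` if `m₂ < R'`: `two_sub` with `y = v`, `y' = p` (`m₁ ≤ R'`).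
These depend on the disjoint sets `bxAt v m` (for `z` in it: `nrm (z - p) ≤ m + v.2 < 2 v.2 ≤ m₀`), `annAt p m₀ m₁`, `annAt p m₂ R'`
(`m₁ ≤ m₂`).  `pr2_mono`, `pr2_and` (an implication with a false premise is always true and has `pr2 = 1`), `pr2_twoAt_rots`, `pr2_twoD_shift`,
`shift_shift`. -/
theorem locE_fac (L : Lat) (σ : ℤ) (x : Pt) {H : Set Pt} (hH : HalfLike H) (b : Bool) {v : Pt}
    {D r₁ m m₀ m₁ m₂ R' : ℤ} {t : ℝ} (ht : 0 ≤ t) (hv : 0 ≤ v.2) (hD : 1 ≤ D) (hr : 0 ≤ r₁)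
    (hm : m < v.2) (hmD : m ≤ D) (h0 : 2 * v.2 ≤ m₀) (h1 : m₁ ≤ m₂) (h2 : m₀ ≤ m₂)
    (h3 : m₂ ≤ R') (h4 : R' + v.2 ≤ D) :
    pr2 (kt t) (((L.rots σ).shift x).LocE H b v D) ≤ atF L t b (rt σ (v + x)) r₁ m *
      (hfF ((L.rots σ).shift (x + (v.1, 0))) t b {z | z + (v.1, 0) ∈ H} m₀ m₁ *
        hfF ((L.rots σ).shift (x + (v.1, 0))) t b {z | z + (v.1, 0) ∈ H} m₂ R') := by
  set L' : Lat := (L.rots σ).shift x with hL'
  set p : Pt := (v.1, 0) with hp
  have hvp : nrm (v - p) = v.2 := by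
    have e1 : v - p = (v.1 - v.1, v.2 - 0) := rfl
    rw [e1]
    unfold nrm
    show max |v.1 - v.1| |v.2 - 0| = v.2
    rw [sub_self, abs_zero, sub_zero, abs_of_nonneg hv, max_eq_right hv]
  have hk := tth3_kap ht
  -- the three events
  have d1 : Dep (fun ω => r₁ < m → L'.TwoAt b v r₁ m ω) (annAt v r₁ m) :=
    tth3_imp_dep (twoAt_dep L' b v r₁ m) r₁ m
  have d2 : Dep (fun ω => m₀ < m₁ → L'.TwoD H b p m₀ m₁ ω) (annAt p m₀ m₁) :=
    tth3_imp_dep (tth3_twoD_dep L' H b p m₀ m₁) m₀ m₁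
  have d3 : Dep (fun ω => m₂ < R' → L'.TwoD H b p m₂ R' ω) (annAt p m₂ R') :=
    tth3_imp_dep (tth3_twoD_dep L' H b p m₂ R') m₂ R'
  have l1 := loc_of_dep (annAt_finite v r₁ m) d1
  have l2 := loc_of_dep (annAt_finite p m₀ m₁) d2
  have l3 := loc_of_dep (annAt_finite p m₂ R') d3
  have d23 : Dep (fun ω => (m₀ < m₁ → L'.TwoD H b p m₀ m₁ ω) ∧
      (m₂ < R' → L'.TwoD H b p m₂ R' ω)) (annAt p m₀ m₁ ∪ annAt p m₂ R') := by
    intro ω ω' hw
    have g1 := d2 ω ω' (fun v hv => hw v (Or.inl hv))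
    have g2 := d3 ω ω' (fun v hv => hw v (Or.inr hv))
    exact congrArg₂ And g1 g2
  have l23 := loc_of_dep ((annAt_finite p m₀ m₁).union (annAt_finite p m₂ R')) d23
  have dj23 : ∀ z ∈ annAt p m₀ m₁, z ∉ annAt p m₂ R' := by
    rintro z ⟨_, hz1⟩ ⟨hz2, _⟩
    omega
  have dj1 : ∀ z ∈ annAt v r₁ m, z ∉ annAt p m₀ m₁ ∪ annAt p m₂ R' := by
    rintro z ⟨_, hz1⟩ hz
    have h5 := nrm_tri z v p
    rcases hz with hz | hz
    · have h6 : m₀ < nrm (z - p) := hz.1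
      omega
    · have h6 : m₂ < nrm (z - p) := hz.1
      omega
  have l123 : Loc (fun ω => (r₁ < m → L'.TwoAt b v r₁ m ω) ∧
      ((m₀ < m₁ → L'.TwoD H b p m₀ m₁ ω) ∧ (m₂ < R' → L'.TwoD H b p m₂ R' ω))) := by
    refine loc_of_dep ((annAt_finite v r₁ m).union
      ((annAt_finite p m₀ m₁).union (annAt_finite p m₂ R'))) ?_
    intro ω ω' hw
    have g1 := d1 ω ω' (fun v hv => hw v (Or.inl hv))
    have g2 := d23 ω ω' (fun v hv => hw v (Or.inr hv))
    exact congrArg₂ And g1 g2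
  have hsub : ∀ ω, L'.LocE H b v D ω → (r₁ < m → L'.TwoAt b v r₁ m ω) ∧
      ((m₀ < m₁ → L'.TwoD H b p m₀ m₁ ω) ∧ (m₂ < R' → L'.TwoD H b p m₂ R' ω)) := by
    intro ω h
    have h5 : L'.TwoD H b v 0 D ω := h hD
    refine ⟨fun hrm => tth3_one hH hD hr hm hmD h hrm, fun h6 => ?_, fun h6 => ?_⟩
    · exact Lat.two_sub h5 (by omega) h6 (by omega)
    · exact Lat.two_sub h5 (by omega) h6 (by omega)
  have key := pr2_mono (tth3_locE L' H b v D) l123 hk hsub
  rw [pr2_and l1 l23 d1 d23 dj1 (kt t), pr2_and l2 l3 d2 d3 dj23 (kt t), tth3_imp, tth3_imp,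
    tth3_imp, pr2_twoAt_rots, pr2_twoD_shift, pr2_twoD_shift, hL', shift_shift] at key
  exact key

/-- the bulk factor alone (part (1) of `locE_fac`) -/
theorem locE_at (L : Lat) (σ : ℤ) (x : Pt) {H : Set Pt} (hH : HalfLike H) (b : Bool) {v : Pt}
    {D r₁ m : ℤ} {t : ℝ} (ht : 0 ≤ t) (hD : 1 ≤ D) (hr : 0 ≤ r₁) (hm : m < v.2) (hmD : m ≤ D) :
    pr2 (kt t) (((L.rots σ).shift x).LocE H b v D) ≤ atF L t b (rt σ (v + x)) r₁ m := by
  have d1 : Dep (fun ω => r₁ < m → ((L.rots σ).shift x).TwoAt b v r₁ m ω) (annAt v r₁ m) :=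
    tth3_imp_dep (twoAt_dep _ b v r₁ m) r₁ m
  have l1 := loc_of_dep (annAt_finite v r₁ m) d1
  have key := pr2_mono (tth3_locE ((L.rots σ).shift x) H b v D) l1 (tth3_kap ht)
    (fun ω h hrm => tth3_one hH hD hr hm hmD h hrm)
  rw [tth3_imp, pr2_twoAt_rots] at key
  exact key

end SC
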