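import Pool.Agent.Lib_MP_e0a489.SED

/-!
# MP_e0a489, module TTH: definition of `HProps` (static bounds)
-/

set_option autoImplicit false

namespace SC

open Classical

/-- static bounds: four arm probability, half plane, corner (`C`, `R₀` depend only on `κ`) -/
structure HProps (L : Lat) (C : ℝ) (R₀ : ℤ) : Prop where
  ap : AlProps L C R₀
  low : ∀ r R : ℤ, R₀ ≤ r → r ≤ R → ((r : ℝ) / R) ^ 2 ≤ C * al L r R
  half : ∀ (s : ℤ) (x : Pt) (c : Bool) (H : Set Pt) (r R : ℤ), HalfLike H → R₀ ≤ r → r ≤ R →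
    pr (((L.rots s).shift x).TwoH c H r R) ≤ C * (al L r R) ^ ((3 : ℝ) / 4)
  quart : ∀ (s : ℤ) (x : Pt) (H : Set Pt) (r R : ℤ), QuartLike H → R₀ ≤ r → r ≤ R →
    pr (((L.rots s).shift x).TwoQ H r R) ≤ C * (al L r R) ^ ((1 : ℝ) / 2)

end SC
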