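import Pool.Agent.Lib_MP_e0a489.PG1

/-!
# MP_e0a489, exponents 14: variance and block influences for two events that are close to each other
-/

set_option autoImplicit false

namespace SC

namespace XP

open Classical

private theorem xp14_fc_empty (X : Cfg → Prop) : fc (ind X) ∅ = pr X := by
  unfold fc pr chi
  congr 1
  funext ω
  simp

private theorem xp14_ind_sq (X : Cfg → Prop) (ω : Cfg) : ind X ω * ind X ω = ind X ω := by
  unfold ind
  split_ifs <;> norm_num

/-- Parseval for an indicator: `∑ fc X S ^ 2 = pr X`, and the coefficient of `∅` is `pr X`. -/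
theorem var_ind {X : Cfg → Prop} {Q : Finset Pt} (hX : Dep X (Q : Set Pt)) :
    ∑ S ∈ Q.powerset.filter (fun S => S.Nonempty), fc (ind X) S ^ 2 = pr X * (1 - pr X) := by
  have h1 := parseval hX.ind hX.ind
  have h2 : ex (fun ω => ind X ω * ind X ω) = pr X := by
    unfold pr
    congr 1
    funext ω
    exact xp14_ind_sq X ω
  rw [h2] at h1
  have h3 : ∑ S ∈ Q.powerset, fc (ind X) S * fc (ind X) S =
      ∑ S ∈ Q.powerset, fc (ind X) S ^ 2 :=
    Finset.sum_congr rfl fun S _ => (sq _).symm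
  rw [h3, ← Finset.sum_filter_add_sum_filter_not Q.powerset (fun S => S.Nonempty)] at h1
  have h4 : Q.powerset.filter (fun S => ¬ S.Nonempty) = {∅} := by
    ext S
    simp only [Finset.mem_filter, Finset.mem_powerset, Finset.not_nonempty_iff_eq_empty,
      Finset.mem_singleton]
    constructor
    · exact fun h => h.2
    · rintro rfl
      exact ⟨Finset.empty_subset _, rfl⟩
  rw [h4, Finset.sum_singleton, xp14_fc_empty] at h1
  linarith [h1]

/-- Parseval for the difference: `(ind F - ind X) ^ 2 = ind (¬ (F ↔ X))`; `fc_sub`. -/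
theorem dist_ind {F X : Cfg → Prop} {Q : Finset Pt} (hF : Dep F (Q : Set Pt))
    (hX : Dep X (Q : Set Pt)) :
    ∑ S ∈ Q.powerset, (fc (ind F) S - fc (ind X) S) ^ 2 = pr (fun ω => ¬ (F ω ↔ X ω)) := by
  have lF : Lf (ind F) := ⟨Q, hF.ind⟩
  have lX : Lf (ind X) := ⟨Q, hX.ind⟩
  have hd : Dep (fun ω => ind F ω - ind X ω) (Q : Set Pt) := by
    intro ω ω' hw
    show ind F ω - ind X ω = ind F ω' - ind X ω'
    rw [hF.ind ω ω' hw, hX.ind ω ω' hw]
  have h1 := parseval hd hd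
  have h2 : ∑ S ∈ Q.powerset, (fc (ind F) S - fc (ind X) S) ^ 2 =
      ∑ S ∈ Q.powerset, fc (fun ω => ind F ω - ind X ω) S * fc (fun ω => ind F ω - ind X ω) S := by
    refine Finset.sum_congr rfl fun S _ => ?_
    rw [fc_sub lF lX, sq]
  rw [h2, ← h1]
  unfold pr
  congr 1
  funext ω
  by_cases a : F ω <;> by_cases b : X ω <;> simp [ind, a, b]

/-- `X` depends on `Q' ⊆ Q`, `F` on `Q`; the sites of `Q'` are covered by the blocks `B i`; outside the event `J i` a change in the block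
`B i` does not change `F`.  For nonempty `S ⊆ Q'`: `fc F S ^ 2 ≥ fc X S ^ 2 / 2 - (fc F S - fc X S) ^ 2`.  Sum over these `S`:
`∑ fc F S ^ 2 ≥ pr X (1 - pr X) / 2 - ε` (`var_ind`, `dist_ind`).  Every nonempty `S ⊆ Q'` meets a block `B i`, so the left side is at most
`∑ i, ∑_{S ⊆ Q, S meets B i} fc F S ^ 2 ≤ ∑ i, pr (J i)` (`infl_le`). -/
theorem var_blocks {F X : Cfg → Prop} {Q Q' : Finset Pt} (hQ : Q' ⊆ Q) (hF : Dep F (Q : Set Pt))
    (hX : Dep X (Q' : Set Pt)) {ε : ℝ} (hFX : pr (fun ω => ¬ (F ω ↔ X ω)) ≤ ε) {ι : Type}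
    {I : Finset ι} {B : ι → Finset Pt} {J : ι → Cfg → Prop}
    (hcov : ∀ v ∈ Q', ∃ i ∈ I, v ∈ B i) (hJ : ∀ i ∈ I, Loc (J i))
    (hp : ∀ i ∈ I, ∀ ω ω' : Cfg, (∀ v, v ∉ B i → ω v = ω' v) → ¬ J i ω → (F ω ↔ F ω')) :
    pr X * (1 - pr X) / 2 - ε ≤ ∑ i ∈ I, pr (J i) := by
  set 𝒮 := Q'.powerset.filter (fun S => S.Nonempty) with h𝒮
  have hXQ : Dep X (Q : Set Pt) := Dep.mono hX (by exact_mod_cast hQ)
  have hsub : 𝒮 ⊆ Q.powerset := by
    intro S hS
    rw [h𝒮, Finset.mem_filter, Finset.mem_powerset] at hS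
    exact Finset.mem_powerset.2 (hS.1.trans hQ)
  have h1 : ∑ S ∈ 𝒮, fc (ind X) S ^ 2 = pr X * (1 - pr X) := var_ind hX
  have h2 : ∑ S ∈ 𝒮, (fc (ind F) S - fc (ind X) S) ^ 2 ≤ ε := by
    refine le_trans ?_ hFX
    rw [← dist_ind hF hXQ]
    exact Finset.sum_le_sum_of_subset_of_nonneg hsub fun S _ _ => sq_nonneg _
  have h3 : pr X * (1 - pr X) / 2 - ε ≤ ∑ S ∈ 𝒮, fc (ind F) S ^ 2 := by
    have h4 : ∑ S ∈ 𝒮, (fc (ind X) S ^ 2 / 2 - (fc (ind F) S - fc (ind X) S) ^ 2) ≤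
        ∑ S ∈ 𝒮, fc (ind F) S ^ 2 := by
      refine Finset.sum_le_sum fun S _ => ?_
      nlinarith [sq_nonneg (2 * fc (ind F) S - fc (ind X) S)]
    rw [Finset.sum_sub_distrib, ← Finset.sum_div, h1] at h4
    linarith
  refine h3.trans ?_
  calc ∑ S ∈ 𝒮, fc (ind F) S ^ 2
      ≤ ∑ S ∈ 𝒮, ∑ i ∈ I, (if ¬ Disjoint S (B i) then fc (ind F) S ^ 2 else 0) := by
        refine Finset.sum_le_sum fun S hS => ?_
        rw [h𝒮, Finset.mem_filter, Finset.mem_powerset] at hS
        obtain ⟨v, hv⟩ := hS.2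
        obtain ⟨i, hi, hvi⟩ := hcov v (hS.1 hv)
        have hnd : ¬ Disjoint S (B i) := fun h => Finset.disjoint_left.1 h hv hvi
        have h50 : ∀ j ∈ I, (0 : ℝ) ≤ (fun j => (if ¬ Disjoint S (B j) then
            fc (ind F) S ^ 2 else 0 : ℝ)) j := by
          intro j _
          show (0 : ℝ) ≤ if ¬ Disjoint S (B j) then fc (ind F) S ^ 2 else 0
          split_ifs
          · exact le_refl _
          · exact sq_nonneg _
        have h5 : (if ¬ Disjoint S (B i) then fc (ind F) S ^ 2 else 0 : ℝ) ≤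
            ∑ j ∈ I, (if ¬ Disjoint S (B j) then fc (ind F) S ^ 2 else 0 : ℝ) :=
          Finset.single_le_sum h50 hi
        have h6 : (if ¬ Disjoint S (B i) then fc (ind F) S ^ 2 else 0) = fc (ind F) S ^ 2 :=
          if_pos hnd
        calc fc (ind F) S ^ 2 = (if ¬ Disjoint S (B i) then fc (ind F) S ^ 2 else 0) := h6.symm
          _ ≤ _ := h5
    _ = ∑ i ∈ I, ∑ S ∈ 𝒮, (if ¬ Disjoint S (B i) then fc (ind F) S ^ 2 else 0) :=
        Finset.sum_comm
    _ ≤ ∑ i ∈ I, pr (J i) := by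
        refine Finset.sum_le_sum fun i hi => ?_
        have h7 := infl_le hF (hJ i hi) (B i) (hp i hi)
        rw [Finset.sum_filter] at h7
        refine le_trans ?_ h7
        apply Finset.sum_le_sum_of_subset_of_nonneg hsub
        intro S _ _
        split_ifs
        · exact le_refl _
        · exact sq_nonneg _

end XP

end SC
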