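import Pool.Agent.Lib_MP_e0a489.TD1
import Pool.Agent.Lib_MP_e0a489.TE3

/-!
# MP_e0a489, exponents 15: crossings of nearby rectangles (pigeonhole)
-/

set_option autoImplicit false

namespace SC

namespace XP

open Classical

/-- Horizontal open crossing of `[-a, a] × [-b, b]`.  The event `F` (wide and high) and the event `X` (narrow and low) lie between
`E' = HX (a + D, b - D)` and `E = HX (a, b)` (`HX.mono`), so they differ at most on `E ∧ ¬ E'`, an event of probability `pr E - pr E'`. -/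
theorem sandwich (L : Lat) {a b D : ℤ} (ha : 0 ≤ a) (hD : 0 ≤ D) (hb : D ≤ b) :
    pr (fun ω => ¬ (L.HX true (-(a + D)) (a + D) (-b) b ω ↔
        L.HX true (-a) a (-(b - D)) (b - D) ω)) ≤
      pr (L.HX true (-a) a (-b) b) - pr (L.HX true (-(a + D)) (a + D) (-(b - D)) (b - D)) := by
  set F : Cfg → Prop := L.HX true (-(a + D)) (a + D) (-b) b with hF
  set X : Cfg → Prop := L.HX true (-a) a (-(b - D)) (b - D) with hX
  set E : Cfg → Prop := L.HX true (-a) a (-b) b with hE
  set E' : Cfg → Prop := L.HX true (-(a + D)) (a + D) (-(b - D)) (b - D) with hE'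
  have lF : Loc F := Lat.HX.loc L true _ _ _ _
  have lX : Loc X := Lat.HX.loc L true _ _ _ _
  have lE : Loc E := Lat.HX.loc L true _ _ _ _
  have lE' : Loc E' := Lat.HX.loc L true _ _ _ _
  have h1 : ∀ ω, E' ω → F ω := fun ω h =>
    Lat.HX.mono h le_rfl (by omega) le_rfl (by omega) (by omega)
  have h2 : ∀ ω, E' ω → X ω := fun ω h =>
    Lat.HX.mono h (by omega) (by omega) (by omega) le_rfl le_rfl
  have h3 : ∀ ω, F ω → E ω := fun ω h =>
    Lat.HX.mono h (by omega) (by omega) (by omega) le_rfl le_rfl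
  have h4 : ∀ ω, X ω → E ω := fun ω h =>
    Lat.HX.mono h le_rfl (by omega) le_rfl (by omega) (by omega)
  have hset : (fun ω => ¬ (F ω ↔ X ω)) = fun ω => (F ω ∧ ¬ X ω) ∨ (¬ F ω ∧ X ω) := by
    funext ω
    apply propext
    tauto
  have lN : Loc (fun ω => ¬ (F ω ↔ X ω)) := by
    rw [hset]
    exact (lF.and lX.not).or (lF.not.and lX)
  have key : pr (fun ω => ¬ (F ω ↔ X ω)) + pr E' ≤ pr E := by
    unfold pr
    rw [← ex_add lN.lf lE'.lf]
    refine ex_mono (lN.lf.add lE'.lf) lE.lf fun ω => ?_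
    have a1 := h1 ω
    have a2 := h2 ω
    have a3 := h3 ω
    have a4 := h4 ω
    unfold ind
    by_cases hf : F ω <;> by_cases hx : X ω <;> by_cases he : E ω <;> by_cases he' : E' ω <;>
      simp_all
  linarith

/-- Telescoping sum of a sequence of probabilities: some difference is at most `1 / m`. -/
theorem pigeon {m : ℕ} (hm : 1 ≤ m) (f : ℕ → ℝ) (h0 : ∀ j, 0 ≤ f j) (h1 : ∀ j, f j ≤ 1) :
    ∃ j, j < m ∧ f j - f (j + 1) ≤ 1 / m := by
  by_contra hcon
  push Not at hcon
  have hm0 : (0 : ℝ) < m := by exact_mod_cast hm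
  have hs : ∑ j ∈ Finset.range m, (f j - f (j + 1)) = f 0 - f m := Finset.sum_range_sub' f m
  have hlt : ∑ j ∈ Finset.range m, (1 / (m : ℝ)) < ∑ j ∈ Finset.range m, (f j - f (j + 1)) := by
    refine Finset.sum_lt_sum_of_nonempty ⟨0, Finset.mem_range.2 (by omega)⟩ fun j hj => ?_
    exact hcon j (Finset.mem_range.1 hj)
  rw [Finset.sum_const, Finset.card_range, nsmul_eq_mul, mul_one_div_cancel hm0.ne', hs] at hlt
  have e1 := h1 0
  have e2 := h0 m
  linarith

/-- There is a scale `j < m` such that `F` and `X` differ with probability at most `1 / m`: `pigeon` for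
`f j = pr (HX true (a_j, b_j))`, `a_j = N + j D`, `b_j = 2 N - j D`, and `sandwich` (`a_{j+1} = a_j + D`, `b_{j+1} = b_j - D`). -/
theorem good_scale (L : Lat) {N D : ℤ} {m : ℕ} (hm : 1 ≤ m) (hN : 0 ≤ N) (hD : 0 ≤ D)
    (hmD : (m : ℤ) * D ≤ N) :
    ∃ a b : ℤ, N ≤ a ∧ a + D ≤ 2 * N ∧ N ≤ b - D ∧ b ≤ 2 * N ∧
      pr (fun ω => ¬ (L.HX true (-(a + D)) (a + D) (-b) b ω ↔
        L.HX true (-a) a (-(b - D)) (b - D) ω)) ≤ 1 / m := by
  obtain ⟨j, hj, hp⟩ := pigeon hm
    (fun j : ℕ => pr (L.HX true (-(N + j * D)) (N + j * D) (-(2 * N - j * D)) (2 * N - j * D)))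
    (fun j => pr_nonneg _) (fun j => pr_le_one _)
  have hjD : ((j : ℤ) + 1) * D ≤ m * D := by
    refine mul_le_mul_of_nonneg_right ?_ hD
    exact_mod_cast hj
  have hj0 : (0 : ℤ) ≤ (j : ℤ) * D := by positivity
  have hjD' : (j : ℤ) * D + D ≤ N := by nlinarith
  refine ⟨N + j * D, 2 * N - j * D, by linarith, by linarith, by linarith, by linarith, ?_⟩
  refine (sandwich L (a := N + j * D) (b := 2 * N - j * D) (D := D) (by linarith) hD
    (by linarith)).trans ?_
  have e1 : N + ((j + 1 : ℕ) : ℤ) * D = N + j * D + D := by push_cast; ring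
  have e2 : 2 * N - ((j + 1 : ℕ) : ℤ) * D = 2 * N - j * D - D := by push_cast; ring
  simp only [e1, e2] at hp
  exact hp

/-- Crossing probabilities of rectangles with sides between `2 N` and `4 N` are bounded away from `0` and `1`: `RSW.hx'` and, with `not_hx`, `RSW.vx'`
(aspect ratio at most `2`); `pr_not`.  If `p = pr X`, `κ 2 ≤ p` and `κ 2 ≤ 1 - p`, then `(κ 2) ^ 2 ≤ p (1 - p)`. -/
theorem var_lb {L : Lat} {κ : ℕ → ℝ} (h : RSW L κ) {N a b : ℤ} (hN : 4 ≤ N) (ha : N ≤ a)
    (ha' : a ≤ 2 * N) (hb : N ≤ b) (hb' : b ≤ 2 * N) :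
    κ 2 ^ 2 ≤ pr (L.HX true (-a) a (-b) b) * (1 - pr (L.HX true (-a) a (-b) b)) := by
  have hl : Loc (L.HX true (-a) a (-b) b) := Lat.HX.loc L true _ _ _ _
  have h1 : κ 2 ≤ pr (L.HX true (-a) a (-b) b) :=
    h.hx' (k := 2) (by norm_num) true (by omega) (by omega) (by push_cast; omega)
  have h2 : κ 2 ≤ 1 - pr (L.HX true (-a) a (-b) b) := by
    rw [← pr_not hl]
    have e : (fun ω => ¬ L.HX true (-a) a (-b) b ω) = L.VX false (-a) a (-b) b := by
      funext ω
      apply propext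
      have := Lat.not_hx (L := L) (a := -a) (b := a) (p := -b) (q := b) (by omega) (by omega)
        true ω
      simpa using this
    rw [e]
    exact h.vx' (k := 2) (by norm_num) false (by omega) (by omega) (by push_cast; omega)
  have h0 := h.pos 2
  nlinarith

end XP

end SC
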