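import Pool.Agent.Lib_MP_e0a489.TD1
import Pool.Agent.Lib_MP_e0a489.XP1
import Pool.Agent.Lib_MP_e0a489.XP2b

/-!
# MP_e0a489, exponents 3: pivotal boxes for the crossing of a rectangle (bulk, side, corner)
-/

set_option autoImplicit false

namespace SC

namespace XP

open Classical

variable {L : Lat}

/-- `HX` as a connection between two sets (definition) -/
theorem hx_cn {c : Bool} {a b p q : ℤ} {ω : Cfg} (h : L.HX c a b p q ω) :
    ∃ u ∈ {v : Pt | v.1 = a}, ∃ v ∈ {v : Pt | v.1 = b}, L.Cn (rect a b p q ∩ L.col c ω) u v := by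
  obtain ⟨u, v, hu, hv, h⟩ := h
  exact ⟨u, hu, v, hv, h⟩

theorem vx_cn {c : Bool} {a b p q : ℤ} {ω : Cfg} (h : L.VX c a b p q ω) :
    ∃ u ∈ {v : Pt | v.2 = p}, ∃ v ∈ {v : Pt | v.2 = q}, L.Cn (rect a b p q ∩ L.col c ω) u v := by
  obtain ⟨u, v, hu, hv, h⟩ := h
  exact ⟨u, hu, v, hv, h⟩

theorem not_hx_cn {c : Bool} {a b p q : ℤ} {ω : Cfg} (h : ¬ L.HX c a b p q ω) :
    ∀ u ∈ {v : Pt | v.1 = a}, ∀ v ∈ {v : Pt | v.1 = b},
      ¬ L.Cn (rect a b p q ∩ L.col c ω) u v := by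
  intro u hu v hv hc
  exact h ⟨u, v, hu, hv, hc⟩

theorem not_vx_cn {c : Bool} {a b p q : ℤ} {ω : Cfg} (h : ¬ L.VX c a b p q ω) :
    ∀ u ∈ {v : Pt | v.2 = p}, ∀ v ∈ {v : Pt | v.2 = q},
      ¬ L.Cn (rect a b p q ∩ L.col c ω) u v := by
  intro u hu v hv hc
  exact h ⟨u, v, hu, hv, hc⟩

/-- `bx N = rect (-N) N (-N) N` -/
theorem bx_rect (N : ℤ) : bx N = rect (-N) N (-N) N := by
  ext v
  show max |v.1| |v.2| ≤ N ↔ (-N ≤ v.1 ∧ v.1 ≤ N) ∧ -N ≤ v.2 ∧ v.2 ≤ N
  rw [max_le_iff, abs_le, abs_le]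

/-- lower bound for the norm by the first coordinate -/
private theorem le_nrm_fst {v y : Pt} {R : ℤ} (h : R ≤ |v.1 - y.1|) : R ≤ nrm (v - y) :=
  h.trans (abs_nrm (v - y)).1

private theorem le_nrm_snd {v y : Pt} {R : ℤ} (h : R ≤ |v.2 - y.2|) : R ≤ nrm (v - y) :=
  h.trans (abs_nrm (v - y)).2

/-- arm, first coordinate -/
private theorem arm_fst {c : Bool} {Q : Set Pt} {ω₁ ω₂ : Cfg} {y : Pt} {r R N : ℤ} (hrR : r < R)
    (hag : ∀ v, r < nrm (v - y) → ω₁ v = ω₂ v) (hy : y.1 = N ∨ y.1 = -N) (hR : R ≤ 2 * N)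
    (h1 : ∃ u ∈ {v : Pt | v.1 = -N}, ∃ v ∈ {v : Pt | v.1 = N}, L.Cn (Q ∩ L.col c ω₁) u v)
    (h2 : ∀ u ∈ {v : Pt | v.1 = -N}, ∀ v ∈ {v : Pt | v.1 = N}, ¬ L.Cn (Q ∩ L.col c ω₂) u v) :
    L.Arm c (Q ∩ annAt y r R) (L.nb (bxAt y r)) (rngAt y R) ω₁ := by
  rcases hy with hy | hy
  · refine piv_arm hrR hag h1 h2 ?_
    intro v hv
    have hv' : v.1 = -N := hv
    refine le_nrm_fst ?_
    rw [hv', hy]
    have h3 := neg_abs_le (-N - N)
    have h4 := le_abs_self (-N - N)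
    omega
  · refine piv_arm (S₁ := {v : Pt | v.1 = N}) (S₂ := {v : Pt | v.1 = -N}) hrR hag ?_ ?_ ?_
    · obtain ⟨u, hu, v, hv, h⟩ := h1
      exact ⟨v, hv, u, hu, h.symm⟩
    · intro u hu v hv h
      exact h2 v hv u hu h.symm
    · intro v hv
      have hv' : v.1 = N := hv
      refine le_nrm_fst ?_
      rw [hv', hy]
      have h4 := le_abs_self (N - -N)
      omega

/-- arm, second coordinate -/
private theorem arm_snd {c : Bool} {Q : Set Pt} {ω₁ ω₂ : Cfg} {y : Pt} {r R N : ℤ} (hrR : r < R)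
    (hag : ∀ v, r < nrm (v - y) → ω₁ v = ω₂ v) (hy : y.2 = N ∨ y.2 = -N) (hR : R ≤ 2 * N)
    (h1 : ∃ u ∈ {v : Pt | v.2 = -N}, ∃ v ∈ {v : Pt | v.2 = N}, L.Cn (Q ∩ L.col c ω₁) u v)
    (h2 : ∀ u ∈ {v : Pt | v.2 = -N}, ∀ v ∈ {v : Pt | v.2 = N}, ¬ L.Cn (Q ∩ L.col c ω₂) u v) :
    L.Arm c (Q ∩ annAt y r R) (L.nb (bxAt y r)) (rngAt y R) ω₁ := by
  rcases hy with hy | hy
  · refine piv_arm hrR hag h1 h2 ?_
    intro v hv
    have hv' : v.2 = -N := hv
    refine le_nrm_snd ?_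
    rw [hv', hy]
    have h3 := neg_abs_le (-N - N)
    have h4 := le_abs_self (-N - N)
    omega
  · refine piv_arm (S₁ := {v : Pt | v.2 = N}) (S₂ := {v : Pt | v.2 = -N}) hrR hag ?_ ?_ ?_
    · obtain ⟨u, hu, v, hv, h⟩ := h1
      exact ⟨v, hv, u, hu, h.symm⟩
    · intro u hu v hv h
      exact h2 v hv u hu h.symm
    · intro v hv
      have hv' : v.2 = N := hv
      refine le_nrm_snd ?_
      rw [hv', hy]
      have h4 := le_abs_self (N - -N)
      omega

/-- the annulus around a site deep in the rectangle -/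
private theorem rect_annAt {a b p q r R : ℤ} {x : Pt} (ha : a + R ≤ x.1) (hb : x.1 + R ≤ b)
    (hp : p + R ≤ x.2) (hq : x.2 + R ≤ q) : rect a b p q ∩ annAt x r R = annAt x r R := by
  refine Set.inter_eq_right.2 ?_
  rintro v ⟨-, hv⟩
  have h1 := abs_le.1 ((abs_nrm (v - x)).1.trans hv)
  have h2 := abs_le.1 ((abs_nrm (v - x)).2.trans hv)
  rw [Prod.fst_sub] at h1
  rw [Prod.snd_sub] at h2
  exact ⟨⟨by omega, by omega⟩, by omega, by omega⟩

/-- BULK.  The box of radius `R` around `x` is contained in the rectangle.  Colour `true`: `piv_two` for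
`Q = rect a b p q`, `S₁ = {v.1 = a}`, `S₂ = {v.1 = b}` (`hx_cn`, `not_hx_cn`; distance `≥ R` by `abs_nrm`), `Q ∩ annAt x r R = annAt x r R`,
`twoAt_iff`.  For `ω₂`: `two_agree`.  Colour `false`: `VX false` holds for `ω₂` (`not_hx`) and not for `ω₁` (`hex_not`); the same with `ω₁`, `ω₂`
exchanged, `S₁ = {v.2 = p}`, `S₂ = {v.2 = q}`. -/
theorem piv_bulk {a b p q r R : ℤ} {x : Pt} {ω₁ ω₂ : Cfg} (hr : 0 ≤ r) (hrR : r < R)
    (ha : a + R ≤ x.1) (hb : x.1 + R ≤ b) (hp : p + R ≤ x.2) (hq : x.2 + R ≤ q)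
    (hag : ∀ v, r < nrm (v - x) → ω₁ v = ω₂ v) (h1 : L.HX true a b p q ω₁)
    (h2 : ¬ L.HX true a b p q ω₂) (c : Bool) : L.TwoAt c x r R ω₁ ∧ L.TwoAt c x r R ω₂ := by
  have hag' : ∀ v, r < nrm (v - x) → ω₂ v = ω₁ v := fun v hv => (hag v hv).symm
  have hagA : ∀ v ∈ annAt x r R, ω₁ v = ω₂ v := fun v hv => hag v hv.1
  have hi : (L.Two c (annAt x r R) (L.nb (bxAt x r)) (rngAt x R) ω₁ ↔
      L.Two c (annAt x r R) (L.nb (bxAt x r)) (rngAt x R) ω₂) := two_agree hagA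
  rw [twoAt_iff, twoAt_iff]
  cases c with
  | true =>
    have h3 : L.Two true (annAt x r R) (L.nb (bxAt x r)) (rngAt x R) ω₁ := by
      have h4 := piv_two hrR hag (hx_cn h1) (not_hx_cn h2) ?_ ?_
      · rwa [rect_annAt ha hb hp hq] at h4
      · intro v hv
        have hv' : v.1 = a := hv
        refine le_nrm_fst ?_
        rw [hv']
        have h5 := neg_abs_le (a - x.1)
        omega
      · intro v hv
        have hv' : v.1 = b := hv
        refine le_nrm_fst ?_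
        rw [hv']
        have h5 := le_abs_self (b - x.1)
        omega
    exact ⟨h3, hi.1 h3⟩
  | false =>
    have h6 : L.VX false a b p q ω₂ := (Lat.not_hx (by omega) (by omega) true ω₂).1 h2
    have h7 : ¬ L.VX false a b p q ω₁ := fun h => Lat.hex_not h1 h
    have h3 : L.Two false (annAt x r R) (L.nb (bxAt x r)) (rngAt x R) ω₂ := by
      have h4 := piv_two hrR hag' (vx_cn h6) (not_vx_cn h7) ?_ ?_
      · rwa [rect_annAt ha hb hp hq] at h4
      · intro v hv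
        have hv' : v.2 = p := hv
        refine le_nrm_snd ?_
        rw [hv']
        have h5 := neg_abs_le (p - x.2)
        omega
      · intro v hv
        have hv' : v.2 = q := hv
        refine le_nrm_snd ?_
        rw [hv']
        have h5 := le_abs_self (q - x.2)
        omega
    exact ⟨hi.2 h3, h3⟩

/-- coordinates of the centre of a side -/
private theorem rt_side (s t N : ℤ) :
    (s % 2 = 0 → |(rt s (t, -N)).1| = |t|) ∧ (s % 2 ≠ 0 → |(rt s (t, -N)).2| = |t|) := by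
  have e : rt s = rt (s % 4) := rt_mod (by omega)
  have h : s % 4 = 0 ∨ s % 4 = 1 ∨ s % 4 = 2 ∨ s % 4 = 3 := by omega
  rw [e]
  rcases h with h | h | h | h
  · rw [h, rt_zero]
    exact ⟨fun _ => rfl, fun h' => absurd (by omega) h'⟩
  · rw [h, rt_one]
    exact ⟨fun h' => by omega, fun _ => rfl⟩
  · rw [h, rt_two]
    exact ⟨fun _ => abs_neg t, fun h' => absurd (by omega) h'⟩
  · rw [h, rt_three]
    exact ⟨fun h' => by omega, fun _ => abs_neg t⟩

/-- coordinates of a corner -/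
private theorem rt_corner (s N : ℤ) :
    ((rt s (-N, -N)).1 = N ∨ (rt s (-N, -N)).1 = -N) ∧
      ((rt s (-N, -N)).2 = N ∨ (rt s (-N, -N)).2 = -N) := by
  have e : rt s = rt (s % 4) := rt_mod (by omega)
  have h : s % 4 = 0 ∨ s % 4 = 1 ∨ s % 4 = 2 ∨ s % 4 = 3 := by omega
  rw [e]
  rcases h with h | h | h | h
  · rw [h, rt_zero]
    exact ⟨Or.inr rfl, Or.inr rfl⟩
  · rw [h, rt_one]
    exact ⟨Or.inl (neg_neg N), Or.inr rfl⟩
  · rw [h, rt_two]
    exact ⟨Or.inl (neg_neg N), Or.inl (neg_neg N)⟩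
  · rw [h, rt_three]
    exact ⟨Or.inr rfl, Or.inl (neg_neg N)⟩

/-- SIDE number `s` (`0` lower, `1` right, `2` upper, `3` left), centre `y = rt s (t, -N)` on the side.  `s` even: the colour `true` and the
sides `{v.1 = -N}`, `{v.1 = N}`, at distance `≥ N - |t| ≥ R` from `y` (`|y.1| = |t|`).  `s` odd: the colour `false` and the sides `{v.2 = ∓N}`
(`|y.2| = |t|`), exchanging the roles of `ω₁`, `ω₂` as in `piv_bulk`.  `piv_two` with `Q = bx N` (`bx_rect`), `twoH_iff` and `image_half`; `two_agree` for the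
other configuration. -/
theorem piv_half {N r R s t : ℤ} {ω₁ ω₂ : Cfg} (hr : 0 ≤ r) (hrR : r < R) (ht : |t| + R ≤ N)
    (hag : ∀ v, r < nrm (v - rt s (t, -N)) → ω₁ v = ω₂ v)
    (h1 : L.HX true (-N) N (-N) N ω₁) (h2 : ¬ L.HX true (-N) N (-N) N ω₂) :
    ((L.rots s).shift (t, -N)).TwoH (decide (s % 2 = 0)) {v | 0 ≤ v.2} r R
        (via (rt s * Equiv.addRight (t, -N)) ω₁) ∧
      ((L.rots s).shift (t, -N)).TwoH (decide (s % 2 = 0)) {v | 0 ≤ v.2} r R
        (via (rt s * Equiv.addRight (t, -N)) ω₂) := by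
  rw [twoH_iff, twoH_iff, image_half ht, bx_rect]
  obtain ⟨hs1, hs2⟩ := rt_side s t N
  have hN : 0 ≤ N := by
    have := abs_nonneg t
    omega
  have hag' : ∀ v, r < nrm (v - rt s (t, -N)) → ω₂ v = ω₁ v := fun v hv => (hag v hv).symm
  have hagA : ∀ v ∈ rect (-N) N (-N) N ∩ annAt (rt s (t, -N)) r R, ω₁ v = ω₂ v :=
    fun v hv => hag v hv.2.1
  generalize rt s (t, -N) = y at *
  by_cases hs : s % 2 = 0
  · have hy := hs1 hs
    have hy1 := le_abs_self y.1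
    have hy2 := neg_abs_le y.1
    rw [decide_eq_true hs]
    have h3 : L.Two true (rect (-N) N (-N) N ∩ annAt y r R) (L.nb (bxAt y r)) (rngAt y R) ω₁ := by
      refine piv_two hrR hag (hx_cn h1) (not_hx_cn h2) ?_ ?_
      · intro v hv
        have hv' : v.1 = -N := hv
        refine le_nrm_fst ?_
        rw [hv']
        have h5 := neg_abs_le (-N - y.1)
        omega
      · intro v hv
        have hv' : v.1 = N := hv
        refine le_nrm_fst ?_
        rw [hv']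
        have h5 := le_abs_self (N - y.1)
        omega
    exact ⟨h3, (two_agree hagA).1 h3⟩
  · have hy := hs2 hs
    have hy1 := le_abs_self y.2
    have hy2 := neg_abs_le y.2
    rw [decide_eq_false hs]
    have h6 : L.VX false (-N) N (-N) N ω₂ := (Lat.not_hx (by omega) (by omega) true ω₂).1 h2
    have h7 : ¬ L.VX false (-N) N (-N) N ω₁ := fun h => Lat.hex_not h1 h
    have h3 : L.Two false (rect (-N) N (-N) N ∩ annAt y r R) (L.nb (bxAt y r)) (rngAt y R) ω₂ := by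
      refine piv_two hrR hag' (vx_cn h6) (not_vx_cn h7) ?_ ?_
      · intro v hv
        have hv' : v.2 = -N := hv
        refine le_nrm_snd ?_
        rw [hv']
        have h5 := neg_abs_le (-N - y.2)
        omega
      · intro v hv
        have hv' : v.2 = N := hv
        refine le_nrm_snd ?_
        rw [hv']
        have h5 := le_abs_self (N - y.2)
        omega
    exact ⟨(two_agree hagA).2 h3, h3⟩

/-- CORNER number `s` (`0` lower left, `1` lower right, ...), `y = rt s (-N, -N) = (±N, ±N)`.  Colour `true`: `piv_arm` with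
`S₁ = {v.1 = -y.1}` (distance `2 N ≥ R`) and `S₂ = {v.1 = y.1}` (`hx_cn`, possibly reversed).  Colour `false`: `S₁ = {v.2 = -y.2}`,
`S₂ = {v.2 = y.2}`, roles of `ω₁`, `ω₂` exchanged.  `twoQ_iff`, `image_quart`, `arm_agree`. -/
theorem piv_quart {N r R s : ℤ} {ω₁ ω₂ : Cfg} (hr : 0 ≤ r) (hrR : r < R) (hR : R ≤ 2 * N)
    (hag : ∀ v, r < nrm (v - rt s (-N, -N)) → ω₁ v = ω₂ v)
    (h1 : L.HX true (-N) N (-N) N ω₁) (h2 : ¬ L.HX true (-N) N (-N) N ω₂) :
    ((L.rots s).shift (-N, -N)).TwoQ {v | 0 ≤ v.1 ∧ 0 ≤ v.2} r R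
        (via (rt s * Equiv.addRight (-N, -N)) ω₁) ∧
      ((L.rots s).shift (-N, -N)).TwoQ {v | 0 ≤ v.1 ∧ 0 ≤ v.2} r R
        (via (rt s * Equiv.addRight (-N, -N)) ω₂) := by
  rw [twoQ_iff, twoQ_iff, image_quart hR, bx_rect]
  obtain ⟨hy1, hy2⟩ := rt_corner s N
  have hag' : ∀ v, r < nrm (v - rt s (-N, -N)) → ω₂ v = ω₁ v := fun v hv => (hag v hv).symm
  have hagA : ∀ v ∈ rect (-N) N (-N) N ∩ annAt (rt s (-N, -N)) r R, ω₁ v = ω₂ v :=
    fun v hv => hag v hv.2.1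
  generalize rt s (-N, -N) = y at *
  have h3 : L.Arm true (rect (-N) N (-N) N ∩ annAt y r R) (L.nb (bxAt y r)) (rngAt y R) ω₁ :=
    arm_fst hrR hag hy1 hR (hx_cn h1) (not_hx_cn h2)
  have h6 : L.VX false (-N) N (-N) N ω₂ := (Lat.not_hx (by omega) (by omega) true ω₂).1 h2
  have h7 : ¬ L.VX false (-N) N (-N) N ω₁ := fun h => Lat.hex_not h1 h
  have h4 : L.Arm false (rect (-N) N (-N) N ∩ annAt y r R) (L.nb (bxAt y r)) (rngAt y R) ω₂ :=
    arm_snd hrR hag' hy2 hR (vx_cn h6) (not_vx_cn h7)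
  constructor
  · intro c
    cases c with
    | true => exact h3
    | false => exact (arm_agree hagA).2 h4
  · intro c
    cases c with
    | true => exact (arm_agree hagA).1 h3
    | false => exact h4

end XP

end SC
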