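import Pool.Agent.Lib_MP_e0a489.RC2
import Pool.Agent.Lib_MP_e0a489.XPD

/-!
# MP_e0a489, exponents 4: blocks
-/

set_option autoImplicit false

namespace SC

namespace XP

open Classical

theorem mem_rectF {a b p q : ℤ} {v : Pt} :
    v ∈ rectF a b p q ↔ (a ≤ v.1 ∧ v.1 ≤ b) ∧ p ≤ v.2 ∧ v.2 ≤ q := by
  unfold rectF
  rw [Finset.mem_product, Finset.mem_Icc, Finset.mem_Icc]

theorem coe_rectF (a b p q : ℤ) : ((rectF a b p q : Finset Pt) : Set Pt) = rect a b p q := by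
  ext v
  rw [Finset.mem_coe, mem_rectF]
  rfl

theorem coe_blkF (w : ℤ) (z : Pt) : ((blkF w z : Finset Pt) : Set Pt) = blk w z := by
  unfold blkF blk
  exact coe_rectF _ _ _ _

theorem mem_rectF_nrm {M : ℤ} {z : Pt} : z ∈ rectF (-M) M (-M) M ↔ nrm z ≤ M := by
  rw [mem_rectF]
  unfold nrm
  rw [max_le_iff, abs_le, abs_le]

/-- the block number `z` of side `2 r + 1` is the box of radius `r` around its centre -/
theorem blk_bxAt {r : ℤ} (z : Pt) :
    blk (2 * r + 1) z = bxAt (z.1 * (2 * r + 1), z.2 * (2 * r + 1)) r := by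
  have h : (2 * r + 1) / 2 = r := by omega
  ext v
  unfold blk bxAt rect nrm
  rw [h]
  simp only [Set.mem_ofPred_eq, Prod.fst_sub, Prod.snd_sub, max_le_iff, abs_le]
  constructor
  · rintro ⟨⟨h1, h2⟩, h3, h4⟩
    exact ⟨⟨by linarith, by linarith⟩, by linarith, by linarith⟩
  · rintro ⟨⟨h1, h2⟩, h3, h4⟩
    exact ⟨⟨by linarith, by linarith⟩, by linarith, by linarith⟩

private theorem ctr_mem {w : ℤ} (hw0 : 0 < w) (z : Pt) :
    ((z.1 * w, z.2 * w) : Pt) ∈ blkF w z := by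
  have h : 0 ≤ w / 2 := by omega
  unfold blkF
  rw [mem_rectF]
  exact ⟨⟨by simp only; linarith, by simp only; linarith⟩, by simp only; linarith,
    by simp only; linarith⟩

private theorem blkF_disj {w : ℤ} (hw : w % 2 = 1) (hw0 : 0 < w) {z z' : Pt} (h : z ≠ z') :
    Disjoint (blkF w z) (blkF w z') := by
  rw [← Finset.disjoint_coe, coe_blkF, coe_blkF]
  exact blk_disj hw hw0 h

/-- different blocks are disjoint (`blk_disj`) and nonempty -/
theorem blkF_inj {w : ℤ} (hw : w % 2 = 1) (hw0 : 0 < w) : Function.Injective (blkF w) := by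
  intro z z' h
  by_contra hne
  have hd := blkF_disj hw hw0 hne
  have h1 := ctr_mem hw0 z
  have h2 : ((z.1 * w, z.2 * w) : Pt) ∈ blkF w z' := by
    rw [← h]
    exact h1
  exact (Finset.disjoint_left.mp hd) h1 h2

theorem blks_disj {M w : ℤ} (hw : w % 2 = 1) (hw0 : 0 < w) :
    ∀ B ∈ blks M w, ∀ B' ∈ blks M w, B ≠ B' → Disjoint B B' := by
  intro B hB B' hB' hne
  unfold blks at hB hB'
  rw [Finset.mem_image] at hB hB'
  obtain ⟨z, _, rfl⟩ := hB
  obtain ⟨z', _, rfl⟩ := hB'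
  exact blkF_disj hw hw0 (fun e => hne (by rw [e]))

/-- `bx_blk` -/
theorem blks_union {M w : ℤ} (hw : w % 2 = 1) (hw0 : 0 < w) :
    (((blks M w).biUnion id : Finset Pt) : Set Pt) = bx (M * w + w / 2) := by
  ext v
  rw [Finset.mem_coe, Finset.mem_biUnion, bx_blk hw hw0]
  constructor
  · rintro ⟨B, hB, hv⟩
    unfold blks at hB
    rw [Finset.mem_image] at hB
    obtain ⟨z, hz, rfl⟩ := hB
    refine ⟨z, mem_rectF_nrm.mp hz, ?_⟩
    rw [← coe_blkF, Finset.mem_coe]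
    exact hv
  · rintro ⟨z, hz, hv⟩
    refine ⟨blkF w z, ?_, ?_⟩
    · unfold blks
      exact Finset.mem_image_of_mem _ (mem_rectF_nrm.mpr hz)
    · rw [← coe_blkF, Finset.mem_coe] at hv
      exact hv

/-- a site of `bx (M w + w / 2)` belongs to a block -/
theorem exists_blk {M w : ℤ} (hw : w % 2 = 1) (hw0 : 0 < w) {v : Pt} (hv : v ∈ bx (M * w + w / 2)) :
    ∃ z, nrm z ≤ M ∧ v ∈ blkF w z := by
  obtain ⟨z, hz, hvz⟩ := (bx_blk hw hw0 v).mp hv
  refine ⟨z, hz, ?_⟩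
  rw [← Finset.mem_coe, coe_blkF]
  exact hvz

/-- `Finset.sum_image`, `blkF_inj` -/
theorem sum_blks {M w : ℤ} (hw : w % 2 = 1) (hw0 : 0 < w) (f : Finset Pt → ℝ) :
    ∑ B ∈ blks M w, f B = ∑ z ∈ rectF (-M) M (-M) M, f (blkF w z) := by
  unfold blks
  exact Finset.sum_image (fun z _ z' _ h => blkF_inj hw hw0 h)

/-- a function of the block number as a function of the block: `X B = XX (Function.invFun (blkF w) B)` -/
theorem exists_X {w : ℤ} (hw : w % 2 = 1) (hw0 : 0 < w) (XX : Pt → Cfg → ℝ) :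
    ∃ X : Finset Pt → Cfg → ℝ, ∀ z, X (blkF w z) = XX z := by
  refine ⟨fun B => XX (Function.invFun (blkF w) B), fun z => ?_⟩
  have h := Function.leftInverse_invFun (blkF_inj hw hw0) z
  simp only [h]

theorem card_rectF {M : ℤ} (hM : 0 ≤ M) :
    ((rectF (-M) M (-M) M).card : ℝ) = (2 * (M : ℝ) + 1) ^ 2 := by
  unfold rectF
  rw [Finset.card_product, Int.card_Icc]
  have h : (((M + 1 - -M).toNat : ℕ) : ℝ) = 2 * (M : ℝ) + 1 := by
    have h1 : (((M + 1 - -M).toNat : ℕ) : ℤ) = M + 1 - -M := Int.toNat_of_nonneg (by omega)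
    have h2 : (((M + 1 - -M).toNat : ℕ) : ℝ) = (((M + 1 - -M).toNat : ℕ) : ℤ) := by norm_cast
    rw [h2, h1]
    push_cast
    ring
  push_cast
  rw [h]
  ring

/-- the blocks with number `|z| ≤ M / 2`: at least `M ^ 2` of them (`2 (M / 2) + 1 ≥ M`) -/
theorem card_half {M : ℤ} (hM : 0 ≤ M) :
    (M : ℝ) ^ 2 ≤ (((rectF (-M) M (-M) M).filter (fun z => nrm z ≤ M / 2)).card : ℝ) := by
  have hsub : rectF (-(M / 2)) (M / 2) (-(M / 2)) (M / 2) ⊆
      (rectF (-M) M (-M) M).filter (fun z => nrm z ≤ M / 2) := by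
    intro z hz
    rw [Finset.mem_filter]
    have h := mem_rectF_nrm.mp hz
    exact ⟨mem_rectF_nrm.mpr (by omega), h⟩
  have h1 : ((rectF (-(M / 2)) (M / 2) (-(M / 2)) (M / 2)).card : ℝ) ≤
      (((rectF (-M) M (-M) M).filter (fun z => nrm z ≤ M / 2)).card : ℝ) := by
    exact_mod_cast Finset.card_le_card hsub
  refine le_trans ?_ h1
  rw [card_rectF (by omega : (0 : ℤ) ≤ M / 2)]
  have h2 : M ≤ 2 * (M / 2) + 1 := by omega
  have h3 : (M : ℝ) ≤ 2 * ((M / 2 : ℤ) : ℝ) + 1 := by exact_mod_cast h2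
  have h4 : (0 : ℝ) ≤ (M : ℝ) := by exact_mod_cast hM
  exact pow_le_pow_left₀ h4 h3 2

end XP

end SC
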