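import Pool.Agent.Lib_MP_e0a489.SE9
import Pool.Agent.Lib_MP_e0a489.XP14
import Pool.Agent.Lib_MP_e0a489.XP15
import Pool.Agent.Lib_MP_e0a489.XP3
import Pool.Agent.Lib_MP_e0a489.XP4

/-!
# MP_e0a489, exponents 16: a priori lower bound
-/

set_option autoImplicit false

namespace SC

variable [IfL]

namespace XP

open Classical

/-- Blocks of side `w = 2 r + 1`, `D = 2 ρ`, `r ≤ ρ`, `N = m D`, where `m` is so large that `1 / m ≤ (κ 2) ^ 2 / 4`.  `good_scale` gives `a`, `b`, the events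
`F = HX (a + D, b)`, `X = HX (a, b - D)`, `Q' = rectF (-a) a (-(b - D)) (b - D)`.  `M = 2 N / w + 1`, so that `bx (M w + r) ⊇ bx (2 N)`; `I` = the blocks `z`,
`nrm z ≤ M`, that meet `Q'`.  If `z ∈ I`, the centre `x = (z.1 w, z.2 w)` has `|x.1| ≤ a + r`, `|x.2| ≤ b - D + r`, so the box of radius `ρ ≤ D - r` around `x` lies in the
rectangle of `F`: `piv_bulk` (in both directions `F ω, ¬ F ω'` and `¬ F ω, F ω'`; `blk_bxAt`) shows that the hypothesis of `var_blocks` holds for `J z = L.TwoAt true x r ρ`.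
So `(κ 2) ^ 2 / 4 ≤ var_lb / 2 - 1 / m ≤ ∑_{z ∈ I} pr (L.TwoAt true x r ρ)`. -/
theorem apriori_sum {L : Lat} {κ : ℕ → ℝ} (h : RSW L κ) {m : ℕ} (hm : 1 ≤ m)
    (hm' : 1 / (m : ℝ) ≤ κ 2 ^ 2 / 4) {r ρ : ℤ} (hr : 1 ≤ r) (hρ : r < ρ) :
    κ 2 ^ 2 / 4 ≤ ∑ z ∈ rectF (-(2 * (2 * m * ρ) / (2 * r + 1) + 1))
        (2 * (2 * m * ρ) / (2 * r + 1) + 1) (-(2 * (2 * m * ρ) / (2 * r + 1) + 1))
        (2 * (2 * m * ρ) / (2 * r + 1) + 1),
      pr (L.TwoAt true (z.1 * (2 * r + 1), z.2 * (2 * r + 1)) r ρ) := by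
  set N : ℤ := 2 * m * ρ with hN
  set w : ℤ := 2 * r + 1 with hw
  have hm1 : (1 : ℤ) ≤ (m : ℤ) := by exact_mod_cast hm
  have hN4 : 4 ≤ N := by
    rw [hN]
    nlinarith
  obtain ⟨a, b, h1, h2, h3, h4, h5⟩ := good_scale L (N := N) (D := 2 * ρ) hm (by omega) (by omega)
    (by rw [hN]; nlinarith)
  have hX := var_lb h hN4 h1 (by omega : a ≤ 2 * N) h3 (by omega : b - 2 * ρ ≤ 2 * N)
  set M : ℤ := 2 * N / w + 1 with hM
  have hMw : 2 * N ≤ M * w + w / 2 := by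
    have e1 := Int.emod_add_mul_ediv (2 * N) w
    have e2 := Int.emod_lt_of_pos (2 * N) (by omega : 0 < w)
    have e3 : M * w = w * (2 * N / w) + w := by rw [hM]; ring
    omega
  have hQ : (rectF (-a) a (-(b - 2 * ρ)) (b - 2 * ρ)) ⊆
      rectF (-(a + 2 * ρ)) (a + 2 * ρ) (-b) b := by
    intro v hv
    rw [mem_rectF] at hv ⊢
    omega
  have hF : Dep (L.HX true (-(a + 2 * ρ)) (a + 2 * ρ) (-b) b)
      ((rectF (-(a + 2 * ρ)) (a + 2 * ρ) (-b) b : Finset Pt) : Set Pt) := by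
    rw [coe_rectF]
    exact Lat.HX.dep L true _ _ _ _
  have hXd : Dep (L.HX true (-a) a (-(b - 2 * ρ)) (b - 2 * ρ))
      ((rectF (-a) a (-(b - 2 * ρ)) (b - 2 * ρ) : Finset Pt) : Set Pt) := by
    rw [coe_rectF]
    exact Lat.HX.dep L true _ _ _ _
  have hblk : ∀ z v : Pt, v ∈ blkF w z ↔ nrm (v - (z.1 * w, z.2 * w)) ≤ r := by
    intro z v
    rw [← Finset.mem_coe, coe_blkF, hw, blk_bxAt]
    rfl
  obtain ⟨I, hI⟩ : ∃ I : Finset Pt, ∀ z, z ∈ I ↔ (z ∈ rectF (-M) M (-M) M ∧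
      ∃ v ∈ rectF (-a) a (-(b - 2 * ρ)) (b - 2 * ρ), v ∈ blkF w z) :=
    ⟨(rectF (-M) M (-M) M).filter
      (fun z => ∃ v ∈ rectF (-a) a (-(b - 2 * ρ)) (b - 2 * ρ), v ∈ blkF w z),
      fun z => by simp only [Finset.mem_filter]⟩
  have key := var_blocks hQ hF hXd h5 (ι := Pt) (I := I)
    (B := blkF w) (J := fun z => L.TwoAt true (z.1 * w, z.2 * w) r ρ)
    (fun v hv => by
      have hv' : v ∈ bx (M * w + w / 2) := by
        have hv2 := mem_rectF.1 hv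
        have e1 : |v.1| ≤ 2 * N := abs_le.2 ⟨by omega, by omega⟩
        have e2 : |v.2| ≤ 2 * N := abs_le.2 ⟨by omega, by omega⟩
        exact (max_le e1 e2).trans hMw
      obtain ⟨z, hz, hvz⟩ := exists_blk (by omega : w % 2 = 1) (by omega : 0 < w) hv'
      exact ⟨z, (hI z).2 ⟨mem_rectF_nrm.2 hz, v, hv, hvz⟩, hvz⟩)
    (fun z _ => twoAt_loc L true _ r ρ)
    (fun z hz ω ω' hag hJ => by
      obtain ⟨-, v, hv, hvz⟩ := (hI z).1 hz
      have hv2 := mem_rectF.1 hv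
      have hv3 := (hblk z v).1 hvz
      have e1 : |v.1 - z.1 * w| ≤ r := (le_max_left _ _).trans hv3
      have e2 : |v.2 - z.2 * w| ≤ r := (le_max_right _ _).trans hv3
      rw [abs_le] at e1 e2
      have hag' : ∀ u, r < nrm (u - (z.1 * w, z.2 * w)) → ω u = ω' u := by
        intro u hu
        apply hag
        rw [hblk]
        omega
      by_contra hcon
      apply hJ
      by_cases hFω : L.HX true (-(a + 2 * ρ)) (a + 2 * ρ) (-b) b ω
      · have hFω' : ¬ L.HX true (-(a + 2 * ρ)) (a + 2 * ρ) (-b) b ω' := by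
          intro hh
          exact hcon ⟨fun _ => hh, fun _ => hFω⟩
        exact (piv_bulk (x := (z.1 * w, z.2 * w)) (by omega) hρ (by simp only; omega)
          (by simp only; omega) (by simp only; omega) (by simp only; omega) hag' hFω hFω' true).1
      · have hFω' : L.HX true (-(a + 2 * ρ)) (a + 2 * ρ) (-b) b ω' := by
          by_contra hh
          exact hcon ⟨fun h => absurd h hFω, fun h => absurd h hh⟩
        exact (piv_bulk (x := (z.1 * w, z.2 * w)) (by omega) hρ (by simp only; omega)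
          (by simp only; omega) (by simp only; omega) (by simp only; omega)
          (fun u hu => (hag' u hu).symm) hFω' hFω true).2)
  have hle : ∑ z ∈ I, pr (L.TwoAt true (z.1 * w, z.2 * w) r ρ) ≤
      ∑ z ∈ rectF (-M) M (-M) M, pr (L.TwoAt true (z.1 * w, z.2 * w) r ρ) :=
    Finset.sum_le_sum_of_subset_of_nonneg (fun z hz => ((hI z).1 hz).1)
      (fun z _ _ => pr_nonneg _)
  refine le_trans ?_ (key.trans hle)
  linarith

/-- A PRIORI BOUND.  `R = r`: `al = 1`.  For `r < R` apply `apriori_sum` with `ρ = R + r ≤ 2 R` and `m ≥ 4 / (κ 2) ^ 2`: every term is at most `C₁ al L r R` (`AlProps.cmp`: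
`R ≤ 4 ρ`), the number of terms is `(2 M + 1) ^ 2` (`card_rectF`) with `M = 4 m ρ / (2 r + 1) + 1 ≤ 4 m R / r + 1 ≤ 5 m R / r`. -/
theorem apriori (κ : ℕ → ℝ) : ∃ (C : ℝ) (R₀ : ℤ), 0 < C ∧ 16 ≤ R₀ ∧ ∀ L : Lat, Fam L κ →
    ∀ r R : ℤ, R₀ ≤ r → r ≤ R → ((r : ℝ) / R) ^ 2 ≤ C * al L r R := by
  obtain ⟨C₁, R₁, hA⟩ := al_props κ
  obtain ⟨m, hm⟩ := exists_nat_ge (4 / κ 2 ^ 2)
  have hC1 : (1 : ℝ) ≤ max C₁ 1 := le_max_right _ _
  have hCp : (0 : ℝ) < max C₁ 1 := by linarith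
  have hm2 : (0 : ℝ) ≤ 196 * ((m : ℝ) + 1) ^ 2 := mul_nonneg (by norm_num) (sq_nonneg _)
  have hC0 : 0 ≤ 196 * ((m : ℝ) + 1) ^ 2 * max C₁ 1 / κ 2 ^ 2 :=
    div_nonneg (mul_nonneg hm2 hCp.le) (sq_nonneg _)
  refine ⟨196 * ((m : ℝ) + 1) ^ 2 * max C₁ 1 / κ 2 ^ 2 + 1, max R₁ 16, by linarith,
    le_max_right _ _, fun L hL r R hr hrR => ?_⟩
  have hr1 : R₁ ≤ r := (le_max_left _ _).trans hr
  have hr16 : 16 ≤ r := (le_max_right _ _).trans hr
  have hr0 : (0 : ℝ) < r := by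
    have : (0 : ℤ) < r := by omega
    exact_mod_cast this
  have hrR' : (r : ℝ) ≤ R := by exact_mod_cast hrR
  have hR0 : (0 : ℝ) < R := hr0.trans_le hrR'
  have hk : 0 < κ 2 := hL.rsw.pos 2
  rcases hrR.eq_or_lt with rfl | hlt
  · have e1 : al L r r = 1 := by
      unfold al
      rw [if_neg (lt_irrefl r)]
    rw [e1, div_self hr0.ne', mul_one]
    linarith
  · have hA' := hA L hL
    have hm1 : 1 / ((m + 1 : ℕ) : ℝ) ≤ κ 2 ^ 2 / 4 := by
      rw [div_le_iff₀ (by positivity), Nat.cast_add, Nat.cast_one]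
      rw [div_le_iff₀ (by positivity)] at hm
      nlinarith [sq_nonneg (κ 2)]
    have key := apriori_sum hL.rsw (m := m + 1) (by omega) hm1 (r := r) (ρ := R) (by omega) hlt
    set M : ℤ := 2 * (2 * ((m + 1 : ℕ) : ℤ) * R) / (2 * r + 1) + 1 with hM
    have hq0 : 0 ≤ 2 * (2 * ((m + 1 : ℕ) : ℤ) * R) / (2 * r + 1) :=
      Int.ediv_nonneg (mul_nonneg (by norm_num) (mul_nonneg (by positivity) (by omega))) (by omega)
    have hM0 : 0 ≤ M := by omega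
    have hterm : ∀ z ∈ rectF (-M) M (-M) M,
        pr (L.TwoAt true (z.1 * (2 * r + 1), z.2 * (2 * r + 1)) r R) ≤ max C₁ 1 * al L r R := by
      intro z _
      refine (hA'.cmp true _ r R r R hr1 hr1 hrR (by omega) hrR (by omega)).trans ?_
      exact mul_le_mul_of_nonneg_right (le_max_left _ _) (hA'.pos r R hr1 hrR).le
    have hsum := key.trans (Finset.sum_le_card_nsmul _ _ _ hterm)
    rw [nsmul_eq_mul, card_rectF hM0] at hsum
    have hal : 0 < al L r R := hA'.pos r R hr1 hrR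
    have hMr : (2 * (M : ℝ) + 1) * r ≤ 7 * ((m : ℝ) + 1) * R := by
      have e1 : 2 * (2 * ((m + 1 : ℕ) : ℤ) * R) / (2 * r + 1) * (2 * r + 1) ≤
          2 * (2 * ((m + 1 : ℕ) : ℤ) * R) := Int.ediv_mul_le _ (by omega)
      have e2 : (2 * M + 1) * r ≤ 7 * ((m + 1 : ℕ) : ℤ) * R := by
        have e3 : R ≤ ((m + 1 : ℕ) : ℤ) * R := by
          have : (1 : ℤ) ≤ ((m + 1 : ℕ) : ℤ) := by exact_mod_cast Nat.succ_le_succ (Nat.zero_le m)
          nlinarith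
        have e4 : (2 * M + 1) * r = 2 * (2 * (2 * ((m + 1 : ℕ) : ℤ) * R) / (2 * r + 1) * r) + 3 * r := by
          rw [hM]
          ring
        have e5 : 2 * (2 * (2 * ((m + 1 : ℕ) : ℤ) * R) / (2 * r + 1) * r) ≤
            2 * (2 * ((m + 1 : ℕ) : ℤ) * R) := by nlinarith
        rw [e4]
        nlinarith
      exact_mod_cast e2
    have hMr2 : (2 * (M : ℝ) + 1) ^ 2 * r ^ 2 ≤ 49 * ((m : ℝ) + 1) ^ 2 * R ^ 2 := by
      have hMp : 0 ≤ (2 * (M : ℝ) + 1) * r := by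
        have : (0 : ℝ) ≤ M := by exact_mod_cast hM0
        positivity
      have := pow_le_pow_left₀ hMp hMr 2
      calc (2 * (M : ℝ) + 1) ^ 2 * r ^ 2 = ((2 * (M : ℝ) + 1) * r) ^ 2 := by ring
        _ ≤ (7 * ((m : ℝ) + 1) * R) ^ 2 := this
        _ = _ := by ring
    have hfin : κ 2 ^ 2 * r ^ 2 ≤ 196 * ((m : ℝ) + 1) ^ 2 * max C₁ 1 * al L r R * R ^ 2 := by
      have hp : 0 ≤ max C₁ 1 * al L r R := mul_nonneg hCp.le hal.le
      have e1 : κ 2 ^ 2 / 4 * r ^ 2 ≤ (2 * (M : ℝ) + 1) ^ 2 * (max C₁ 1 * al L r R) * r ^ 2 :=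
        mul_le_mul_of_nonneg_right hsum (by positivity)
      have e2 := mul_le_mul_of_nonneg_right hMr2 hp
      nlinarith
    rw [div_pow, div_le_iff₀ (by positivity)]
    have e3 : (r : ℝ) ^ 2 ≤ 196 * ((m : ℝ) + 1) ^ 2 * max C₁ 1 / κ 2 ^ 2 * al L r R * R ^ 2 := by
      have e4 : 196 * ((m : ℝ) + 1) ^ 2 * max C₁ 1 / κ 2 ^ 2 * al L r R * R ^ 2 =
          196 * ((m : ℝ) + 1) ^ 2 * max C₁ 1 * al L r R * R ^ 2 / κ 2 ^ 2 := by ring
      rw [e4, le_div_iff₀ (by positivity)]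
      linarith
    have e5 : 0 ≤ al L r R * (R : ℝ) ^ 2 := by positivity
    nlinarith

end XP

end SC
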