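import Pool.Agent.Lib_MP_e0a489.HP9
import Pool.Agent.Lib_MP_e0a489.TTHE
import Pool.Agent.Lib_MP_e0a489.XP16

/-!
# MP_e0a489, module TTH 4: static bounds
-/

set_option autoImplicit false

namespace SC

variable [IfL]

open Classical

private theorem tth4_one {L : Lat} {r R : ℤ} (h : R ≤ r) : al L r R = 1 := by
  unfold al
  rw [if_neg (not_lt.2 h)]

private theorem tth4_nn {L : Lat} {C : ℝ} {R₀ : ℤ} (h : AlProps L C R₀) {r R : ℤ} (hr : R₀ ≤ r) :
    0 ≤ al L r R := by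
  by_cases hrR : r ≤ R
  · exact (h.pos r R hr hrR).le
  · rw [tth4_one (by linarith)]
    exact zero_le_one

private theorem tth4_up {L : Lat} {C C' : ℝ} {R₀ R₀' : ℤ} (h : AlProps L C R₀) (hC : C ≤ C')
    (hR : R₀ ≤ R₀') : AlProps L C' R₀' where
  C1 := h.C1.trans hC
  R16 := h.R16.trans hR
  pos := fun r R h1 h2 => h.pos r R (hR.trans h1) h2
  le1 := h.le1
  mono := h.mono
  cmp := fun c x r R r' R' h1 h2 h3 h4 h5 h6 =>
    (h.cmp c x r R r' R' (hR.trans h1) (hR.trans h2) h3 h4 h5 h6).trans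
      (mul_le_mul_of_nonneg_right hC (h.pos r' R' (hR.trans h2) h5).le)
  qmult := fun r ρ R h1 h2 h3 =>
    (h.qmult r ρ R (hR.trans h1) h2 h3).trans
      (mul_le_mul_of_nonneg_right hC (h.pos r R (hR.trans h1) (h2.trans h3)).le)

private theorem tth4_pow {y q : ℝ} (hy : 0 < y) (hq : 0 ≤ q) (h : 1 ≤ y * q ^ 4) :
    y ^ ((3 : ℝ) / 4) ≤ y * q := by
  have hs : 0 < y ^ ((1 : ℝ) / 4) := Real.rpow_pos_of_pos hy _
  have e4 : (y ^ ((1 : ℝ) / 4)) ^ 4 = y := by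
    rw [← Real.rpow_natCast, ← Real.rpow_mul hy.le]
    norm_num
  have e3 : (y ^ ((1 : ℝ) / 4)) ^ 3 = y ^ ((3 : ℝ) / 4) := by
    rw [← Real.rpow_natCast, ← Real.rpow_mul hy.le]
    norm_num
  generalize y ^ ((1 : ℝ) / 4) = s at hs e4 e3
  rw [← e3]
  have h1 : 1 ≤ s * q := by
    by_contra hn
    have hn' : s * q < 1 := not_le.1 hn
    have h2 : (s * q) ^ 4 < 1 := pow_lt_one₀ (mul_nonneg hs.le hq) hn' (by norm_num)
    have h3 : (s * q) ^ 4 = y * q ^ 4 := by rw [mul_pow, e4]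
    linarith
  calc s ^ 3 = s ^ 3 * 1 := by ring
    _ ≤ s ^ 3 * (s * q) := mul_le_mul_of_nonneg_left h1 (by positivity)
    _ = s ^ 4 * q := by ring
    _ = y * q := by rw [e4]

/-- `al_props κ`, `XP.apriori κ`, `half_le κ`, `quart_le κ`: maximum of the constants and of the radii.  (`AlProps L C R₀` remains true for larger `C` and
larger `R₀`; write a small lemma.) -/
theorem hprops (κ : ℕ → ℝ) : ∃ (C : ℝ) (R₁ : ℤ), 1 ≤ C ∧ 16 ≤ R₁ ∧ ∀ L : Lat, Fam L κ →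
    ∀ R₀ : ℤ, R₁ ≤ R₀ → HProps L C R₀ := by
  obtain ⟨C1, r1, h1⟩ := al_props κ
  obtain ⟨C2, r2, hC2, hr2, h2⟩ := XP.apriori κ
  obtain ⟨C3, r3, hC3, hr3, h3⟩ := half_le κ
  obtain ⟨C4, r4, hC4, hr4, h4⟩ := quart_le κ
  refine ⟨max 1 (max (max C1 C2) (max C3 C4)), max 16 (max (max r1 r2) (max r3 r4)),
    le_max_left _ _, le_max_left _ _, ?_⟩
  intro L hL R₀ hR₀
  have c1 : C1 ≤ max 1 (max (max C1 C2) (max C3 C4)) :=
    ((le_max_left _ _).trans (le_max_left _ _)).trans (le_max_right _ _)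
  have c2 : C2 ≤ max 1 (max (max C1 C2) (max C3 C4)) :=
    ((le_max_right _ _).trans (le_max_left _ _)).trans (le_max_right _ _)
  have c3 : C3 ≤ max 1 (max (max C1 C2) (max C3 C4)) :=
    ((le_max_left _ _).trans (le_max_right _ _)).trans (le_max_right _ _)
  have c4 : C4 ≤ max 1 (max (max C1 C2) (max C3 C4)) :=
    ((le_max_right _ _).trans (le_max_right _ _)).trans (le_max_right _ _)
  have q1 : r1 ≤ R₀ :=
    (((le_max_left _ _).trans (le_max_left _ _)).trans (le_max_right _ _)).trans hR₀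
  have q2 : r2 ≤ R₀ :=
    (((le_max_right _ _).trans (le_max_left _ _)).trans (le_max_right _ _)).trans hR₀
  have q3 : r3 ≤ R₀ :=
    (((le_max_left _ _).trans (le_max_right _ _)).trans (le_max_right _ _)).trans hR₀
  have q4 : r4 ≤ R₀ :=
    (((le_max_right _ _).trans (le_max_right _ _)).trans (le_max_right _ _)).trans hR₀
  generalize max 1 (max (max C1 C2) (max C3 C4)) = C at c1 c2 c3 c4 ⊢
  have ha := tth4_up (h1 L hL) c1 q1
  refine ⟨ha, ?_, ?_, ?_⟩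
  · intro r R e1 e2
    exact (h2 L hL r R (q2.trans e1) e2).trans
      (mul_le_mul_of_nonneg_right c2 (ha.pos r R e1 e2).le)
  · intro s x c H r R hH e1 e2
    exact (h3 L hL s x c H r R hH (q3.trans e1) e2).trans
      (mul_le_mul_of_nonneg_right c3 (Real.rpow_nonneg (ha.pos r R e1 e2).le _))
  · intro s x H r R hH e1 e2
    exact (h4 L hL s x H r R hH (q4.trans e1) e2).trans
      (mul_le_mul_of_nonneg_right c4 (Real.rpow_nonneg (ha.pos r R e1 e2).le _))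

namespace HProps

variable {L : Lat} {C : ℝ} {R₀ : ℤ}

/-- `R < r` or `R = r`: `al = 1`.  Otherwise `low` with `r / R ≥ 1 / 64`. -/
theorem small (h : HProps L C R₀) {r R : ℤ} (hr : R₀ ≤ r) (hR : R ≤ 64 * r) :
    1 ≤ 4096 * C * al L r R := by
  have hC1 := h.ap.C1
  by_cases hrR : R ≤ r
  · rw [tth4_one hrR]
    linarith
  · have hrR' : r ≤ R := by linarith
    have hr16 := h.ap.R16
    have h1 := h.low r R hr hrR'
    have hr0 : (0 : ℝ) < r := by exact_mod_cast (by linarith : 0 < r)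
    have hR0 : (0 : ℝ) < R := by exact_mod_cast (by linarith : 0 < R)
    have hR64 : (R : ℝ) ≤ 64 * r := by exact_mod_cast hR
    have h2 : (1 : ℝ) / 64 ≤ (r : ℝ) / R := by
      rw [div_le_div_iff₀ (by norm_num) hR0]
      linarith
    have h3 : ((1 : ℝ) / 64) ^ 2 ≤ ((r : ℝ) / R) ^ 2 := pow_le_pow_left₀ (by norm_num) h2 2
    have h4 : ((1 : ℝ) / 64) ^ 2 = 1 / 4096 := by norm_num
    rw [h4] at h3
    linarith

/-- Inner radius.  If `R < r'` the right side is `4096 C al L r' R`, `al L r' R = 1 ≥ al L r R`.  If `r' ≤ R < r` or `R = r`: `small` for `r'` (`R ≤ r ≤ 2 r'`).  If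
`r < R` and `r' ≤ R`: `al L r R = pr (TwoA true r R) = pr (TwoAt true 0 r R)` (`TwoAt_zero`) and `AlProps.cmp` with `R' = R`. -/
theorem inn (h : HProps L C R₀) {r r' R : ℤ} (hr : R₀ ≤ r) (hr' : R₀ ≤ r') (h2 : r ≤ 2 * r') :
    al L r R ≤ 4096 * C * al L r' R := by
  have hC1 := h.ap.C1
  have hr16 := h.ap.R16
  by_cases h3 : R ≤ r'
  · rw [tth4_one h3]
    have := h.ap.le1 r R
    linarith
  · by_cases h4 : R ≤ r
    · exact (h.ap.le1 r R).trans (h.small hr' (by linarith))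
    · have h5 : al L r R = pr (L.TwoAt true 0 r R) := by
        unfold al
        rw [if_pos (by linarith), XP.twoAt_zero]
      have h6 := h.ap.cmp true 0 r R r' R hr hr' (by linarith) h2 (by linarith) (by linarith)
      rw [← h5] at h6
      have h7 := tth4_nn h.ap (R := R) hr'
      nlinarith

/-- Outer radius.  If `R' < r`: `al L r R' = 1`.  If `r ≤ R'` and `R ≤ r`: `R' ≤ 4 r`, `small`.  If `r < R`, `r ≤ R'`: `AlProps.cmp`. -/
theorem out (h : HProps L C R₀) {r R R' : ℤ} (hr : R₀ ≤ r) (h4 : R' ≤ 4 * R) :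
    al L r R ≤ 4096 * C * al L r R' := by
  have hC1 := h.ap.C1
  have hr16 := h.ap.R16
  by_cases h3 : R' ≤ r
  · rw [tth4_one h3]
    have := h.ap.le1 r R
    linarith
  · by_cases h4' : R ≤ r
    · exact (h.ap.le1 r R).trans (h.small hr (by linarith))
    · have h5 : al L r R = pr (L.TwoAt true 0 r R) := by
        unfold al
        rw [if_pos (by linarith), XP.twoAt_zero]
      have h6 := h.ap.cmp true 0 r R r R' hr hr (by linarith) (by linarith) (by linarith) h4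
      rw [← h5] at h6
      have h7 := tth4_nn h.ap (R := R') hr
      nlinarith

/-- `inn` three times (`8 ρ`, `4 ρ`, `2 ρ`, `ρ`) and `AlProps.qmult` -/
theorem qm8 (h : HProps L C R₀) {r ρ R : ℤ} (hr : R₀ ≤ r) (h1 : r ≤ ρ) (h2 : ρ ≤ R) :
    al L r ρ * al L (8 * ρ) R ≤ (4096 * C) ^ 4 * al L r R := by
  have hC1 := h.ap.C1
  have hr16 := h.ap.R16
  have e1 := h.inn (r := 8 * ρ) (r' := 4 * ρ) (R := R) (by linarith) (by linarith) (by linarith)
  have e2 := h.inn (r := 4 * ρ) (r' := 2 * ρ) (R := R) (by linarith) (by linarith) (by linarith)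
  have e3 := h.inn (r := 2 * ρ) (r' := ρ) (R := R) (by linarith) (by linarith) (by linarith)
  have e4 := h.ap.qmult r ρ R hr h1 h2
  have n1 := tth4_nn h.ap (R := ρ) hr
  have n2 := tth4_nn h.ap (R := R) hr
  have hK : 0 ≤ 4096 * C := by linarith
  have e5 : al L (8 * ρ) R ≤ (4096 * C) ^ 3 * al L ρ R := by
    calc al L (8 * ρ) R ≤ 4096 * C * al L (4 * ρ) R := e1
      _ ≤ 4096 * C * (4096 * C * al L (2 * ρ) R) := mul_le_mul_of_nonneg_left e2 hK
      _ ≤ 4096 * C * (4096 * C * (4096 * C * al L ρ R)) :=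
          mul_le_mul_of_nonneg_left (mul_le_mul_of_nonneg_left e3 hK) hK
      _ = _ := by ring
  calc al L r ρ * al L (8 * ρ) R ≤ al L r ρ * ((4096 * C) ^ 3 * al L ρ R) :=
        mul_le_mul_of_nonneg_left e5 n1
    _ = (4096 * C) ^ 3 * (al L r ρ * al L ρ R) := by ring
    _ ≤ (4096 * C) ^ 3 * (C * al L r R) := mul_le_mul_of_nonneg_left e4 (by positivity)
    _ ≤ (4096 * C) ^ 3 * (4096 * C * al L r R) := by
        refine mul_le_mul_of_nonneg_left (mul_le_mul_of_nonneg_right ?_ n2) (by positivity)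
        linarith
    _ = _ := by ring

/-- `inn` twice (`4 r`, `2 r`, `r`), `out` twice (`R / 4`, `4 (R / 4)`, `R`) -/
theorem quarter (h : HProps L C R₀) {r R : ℤ} (hr : R₀ ≤ r) (h1 : 64 * r < R) :
    al L (4 * r) (R / 4) ≤ (4096 * C) ^ 4 * al L r R := by
  have hC1 := h.ap.C1
  have hr16 := h.ap.R16
  have e1 := h.inn (r := 4 * r) (r' := 2 * r) (R := R / 4) (by linarith) (by linarith) (by linarith)
  have e2 := h.inn (r := 2 * r) (r' := r) (R := R / 4) (by linarith) (by linarith) (by linarith)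
  have e3 := h.out (r := r) (R := R / 4) (R' := 4 * (R / 4)) hr (le_refl _)
  have e4 := h.out (r := r) (R := 4 * (R / 4)) (R' := R) hr (by omega)
  have hK : 0 ≤ 4096 * C := by linarith
  calc al L (4 * r) (R / 4) ≤ 4096 * C * al L (2 * r) (R / 4) := e1
    _ ≤ 4096 * C * (4096 * C * al L r (R / 4)) := mul_le_mul_of_nonneg_left e2 hK
    _ ≤ 4096 * C * (4096 * C * (4096 * C * al L r (4 * (R / 4)))) :=
        mul_le_mul_of_nonneg_left (mul_le_mul_of_nonneg_left e3 hK) hK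
    _ ≤ 4096 * C * (4096 * C * (4096 * C * (4096 * C * al L r R))) :=
        mul_le_mul_of_nonneg_left (mul_le_mul_of_nonneg_left
          (mul_le_mul_of_nonneg_left e4 hK) hK) hK
    _ = _ := by ring

/-- PRODUCT.  `u = max h R₀`, `m₀ = max (2 h) R₀ ≤ 2 u`.  `al L m₀ ℓ ≤ K al L u ℓ` (`inn`, `K = 4096 C`), `al L R₀ u * al L u ℓ ≤ C al L R₀ ℓ` (`qmult`; `u ≤ ℓ`),
and `(u / ℓ) ^ 2 ≤ C al L u ℓ` (`low`), so `(al L u ℓ) ^ (-1/4) ≤ C ^ (1/4) (ℓ / u) ^ (1/2)`.  Hence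
`al L R₀ u (al L m₀ ℓ) ^ (3/4) ≤ K ^ (3/4) al L R₀ u al L u ℓ (al L u ℓ) ^ (-1/4) ≤ K ^ (3/4) C C ^ (1/4) al L R₀ ℓ (ℓ / u) ^ (1/2)`, and `K ^ (3/4) C ^ (1/4) ≤ K`. -/
theorem prod (h : HProps L C R₀) {k ℓ : ℤ} (hk : 0 ≤ k) (hkl : 2 * k < ℓ) (hℓ : R₀ ≤ ℓ) :
    al L R₀ (max k R₀) * (al L (max (2 * k) R₀) ℓ) ^ ((3 : ℝ) / 4) ≤
      4096 * C ^ 2 * (al L R₀ ℓ * ((ℓ : ℝ) / (max k R₀ : ℤ)) ^ ((1 : ℝ) / 2)) := by
  have hC1 := h.ap.C1
  have hr16 := h.ap.R16
  have hu0 : R₀ ≤ max k R₀ := le_max_right _ _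
  have huℓ : max k R₀ ≤ ℓ := max_le (by linarith) hℓ
  have hm0 : R₀ ≤ max (2 * k) R₀ := le_max_right _ _
  have hmu : max (2 * k) R₀ ≤ 2 * max k R₀ := by omega
  have e1 := h.inn (R := ℓ) hm0 hu0 hmu
  have e2 := h.low (max k R₀) ℓ hu0 huℓ
  have e3 := h.ap.qmult R₀ (max k R₀) ℓ (le_refl _) hu0 huℓ
  have ha := h.ap.pos (max k R₀) ℓ hu0 huℓ
  have hb := tth4_nn h.ap (R := ℓ) hm0
  have hc := tth4_nn h.ap (R := max k R₀) (le_refl R₀)
  have hu : (0 : ℝ) < ((max k R₀ : ℤ) : ℝ) := by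
    exact_mod_cast (by linarith : 0 < max k R₀)
  have hl : (0 : ℝ) < (ℓ : ℝ) := by exact_mod_cast (by linarith : 0 < ℓ)
  generalize al L (max (2 * k) R₀) ℓ = b at e1 hb ⊢
  generalize al L (max k R₀) ℓ = a at e1 e2 e3 ha ⊢
  generalize al L R₀ (max k R₀) = d at e3 hc ⊢
  generalize al L R₀ ℓ = f at e3 ⊢
  generalize ((max k R₀ : ℤ) : ℝ) = u at e2 hu ⊢
  generalize (ℓ : ℝ) = l at e2 hl ⊢
  have hq : 0 ≤ (l / u) ^ ((1 : ℝ) / 2) := Real.rpow_nonneg (by positivity) _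
  have hq4 : ((l / u) ^ ((1 : ℝ) / 2)) ^ 4 = (l / u) ^ 2 := by
    rw [← Real.rpow_natCast, ← Real.rpow_mul (by positivity)]
    norm_num
  generalize (l / u) ^ ((1 : ℝ) / 2) = q at hq hq4 ⊢
  have hy : 0 < 4096 * C * a := by positivity
  have h1 : 1 ≤ 4096 * C * a * q ^ 4 := by
    rw [hq4]
    have h2 : (u / l) ^ 2 * (l / u) ^ 2 = 1 := by
      field_simp
    have h3 : (u / l) ^ 2 * (l / u) ^ 2 ≤ 4096 * C * a * (l / u) ^ 2 := by
      refine mul_le_mul_of_nonneg_right ?_ (by positivity)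
      nlinarith
    linarith
  have h2 := tth4_pow hy hq h1
  have h3 : b ^ ((3 : ℝ) / 4) ≤ (4096 * C * a) ^ ((3 : ℝ) / 4) :=
    Real.rpow_le_rpow hb e1 (by norm_num)
  calc d * b ^ ((3 : ℝ) / 4) ≤ d * (4096 * C * a * q) :=
        mul_le_mul_of_nonneg_left (h3.trans h2) hc
    _ = 4096 * C * q * (d * a) := by ring
    _ ≤ 4096 * C * q * (C * f) := mul_le_mul_of_nonneg_left e3 (by positivity)
    _ = _ := by ring

end HProps

end SC
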