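import Mathlib

/-!
# MP_e0a489, module TTH 6: three inequalities for real numbers

`ε = c / 4`, `ℓ` = correlation length, `D` = radius of the local event, `k` = height.  Right side:
`T = (ℓ / D) ^ ε (D ^ (-1 - ε) d ^ (ε - 1))`, `d = min (k + 1) D`.
-/

set_option autoImplicit false

namespace SC

private theorem rl6_exp {a : ℝ} (h : 0 < a) : ∃ x, a = Real.exp x :=
  ⟨Real.log a, (Real.exp_log h).symm⟩

private theorem rl6_pow (x c : ℝ) : Real.exp x ^ c = Real.exp (x * c) := (Real.exp_mul x c).symm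

private theorem rl6_div (x z c : ℝ) :
    (Real.exp x / Real.exp z) ^ c = Real.exp ((x - z) * c) := by
  rw [← Real.exp_sub, rl6_pow]

private theorem rl6_two : ∃ L : ℝ, 0 < L ∧ (2 : ℝ) = Real.exp L :=
  ⟨Real.log 2, Real.log_pos (by norm_num), (Real.exp_log (by norm_num)).symm⟩

private theorem rl6_inv (x : ℝ) : 1 / Real.exp x ^ 2 = Real.exp (-2 * x) := by
  rw [← Real.exp_nat_mul, one_div, ← Real.exp_neg]
  congr 1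
  push_cast
  ring

/-- CASE `D ≤ 4 k`.  `m ≥ D / 8`.  `ℓ ^ (-2) (ℓ / m) ^ (2 + c) ≤ 8 ^ (2 + c) D ^ (-2) (ℓ / D) ^ c ≤ 512 D ^ (-2) (ℓ / D) ^ ε` (as `c ≤ 1`, `ε ≤ c`, `ℓ ≤ D`), and
`D ^ (-2) = D ^ (-1 - ε) D ^ (ε - 1) ≤ D ^ (-1 - ε) d ^ (ε - 1)` for every `0 < d ≤ D` (as `ε - 1 < 0`). -/
theorem rl_one {c ℓ D m d : ℝ} (hc : 0 < c ∧ c ≤ 1) (hℓ : 1 ≤ ℓ) (hD : ℓ ≤ D) (hm : D ≤ 8 * m)
    (hd : 0 < d) (hdD : d ≤ D) :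
    1 / ℓ ^ 2 * (ℓ / m) ^ (2 + c) ≤
      512 * ((ℓ / D) ^ (c / 4) * (D ^ (-1 - c / 4) * d ^ (c / 4 - 1))) := by
  obtain ⟨L, hL, h2⟩ := rl6_two
  obtain ⟨x, rfl⟩ := rl6_exp (show 0 < ℓ by linarith)
  obtain ⟨y, rfl⟩ := rl6_exp (show 0 < D by linarith)
  obtain ⟨z, rfl⟩ := rl6_exp (show 0 < m by linarith)
  obtain ⟨w, rfl⟩ := rl6_exp hd
  have e8 : (8 : ℝ) = Real.exp (3 * L) := by
    rw [show (3 : ℝ) * L = ((3 : ℕ) : ℝ) * L by norm_num, Real.exp_nat_mul, ← h2]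
    norm_num
  have e512 : (512 : ℝ) = Real.exp (9 * L) := by
    rw [show (9 : ℝ) * L = ((9 : ℕ) : ℝ) * L by norm_num, Real.exp_nat_mul, ← h2]
    norm_num
  rw [e8, ← Real.exp_add, Real.exp_le_exp] at hm
  rw [Real.exp_le_exp] at hD hdD
  rw [rl6_inv, rl6_div, rl6_div, rl6_pow, rl6_pow, e512, ← Real.exp_add, ← Real.exp_add,
    ← Real.exp_add, ← Real.exp_add, Real.exp_le_exp]
  have a1 : 0 ≤ (2 + c) * (3 * L + z - y) := mul_nonneg (by linarith [hc.1]) (by linarith)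
  have a2 : 0 ≤ (1 - c / 4) * (y - w) := mul_nonneg (by linarith [hc.2]) (by linarith)
  have a3 : 0 ≤ (1 - c) * L := mul_nonneg (by linarith [hc.2]) hL.le
  have a4 : 0 ≤ c * (y - x) := mul_nonneg hc.1.le (by linarith)
  nlinarith [a1, a2, a3, a4]

/-- CASE `ℓ ≤ 2 k`, `4 k ≤ D`, `m = k - 1 ≥ k / 2`.  `ℓ ^ (-2) (ℓ / m) ^ (2 + c) (2 k / (D - k)) ^ (1 + c) ≤ 8 ℓ ^ c k ^ (-2-c) 16 k ^ (1+c) D ^ (-1-c)`
(as `ℓ / m ≤ 2 ℓ / k`, `2 k / (D - k) ≤ 4 k / D`, exponents at most `3` and `2`) `= 128 ℓ ^ c k ^ (-1) D ^ (-1-c)`.  With `ε = c / 4`, `k + 1 ≤ 2 k`: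
`T ≥ ℓ ^ ε D ^ (-1-2ε) (2 k) ^ (ε-1) ≥ (1/2) ℓ ^ ε D ^ (-1-2ε) k ^ (ε-1)`.  The quotient is at most
`256 ℓ ^ (c-ε) k ^ (-ε) D ^ (2ε-c)`, and `k ^ (-ε) ≤ 2 ^ ε ℓ ^ (-ε) ≤ 2 ℓ ^ (-ε)`, so it is at most `512 (ℓ / D) ^ (c - 2 ε) ≤ 512`. -/
theorem rl_two {c ℓ D k m : ℝ} (hc : 0 < c ∧ c ≤ 1) (hℓ : 1 ≤ ℓ) (hk : ℓ ≤ 2 * k)
    (hk1 : 1 ≤ k) (hD : 4 * k ≤ D) (hℓD : ℓ ≤ D) (hm : k ≤ 2 * m) :
    1 / ℓ ^ 2 * ((ℓ / m) ^ (2 + c) * (2 * k / (D - k)) ^ (1 + c)) ≤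
      512 * ((ℓ / D) ^ (c / 4) * (D ^ (-1 - c / 4) * (k + 1) ^ (c / 4 - 1))) := by
  obtain ⟨L, hL, h2⟩ := rl6_two
  obtain ⟨x, rfl⟩ := rl6_exp (show 0 < ℓ by linarith)
  obtain ⟨p, hp⟩ := rl6_exp (show 0 < D - k by linarith)
  obtain ⟨y, rfl⟩ := rl6_exp (show 0 < D by linarith)
  obtain ⟨z, rfl⟩ := rl6_exp (show 0 < m by linarith)
  obtain ⟨q, hq⟩ := rl6_exp (show 0 < k + 1 by linarith)
  have hp1 : Real.exp y ≤ 2 * Real.exp p := by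
    rw [← hp]
    linarith
  have hq1 : Real.exp q ≤ 2 * k := by
    rw [← hq]
    linarith
  rw [hp, hq]
  obtain ⟨κ, rfl⟩ := rl6_exp (show 0 < k by linarith)
  have e512 : (512 : ℝ) = Real.exp (9 * L) := by
    rw [show (9 : ℝ) * L = ((9 : ℕ) : ℝ) * L by norm_num, Real.exp_nat_mul, ← h2]
    norm_num
  have ek : 2 * Real.exp κ = Real.exp (L + κ) := by rw [Real.exp_add, ← h2]
  have ep : 2 * Real.exp p = Real.exp (L + p) := by rw [Real.exp_add, ← h2]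
  have ez : 2 * Real.exp z = Real.exp (L + z) := by rw [Real.exp_add, ← h2]
  rw [ek, Real.exp_le_exp] at hk hq1
  rw [ep, Real.exp_le_exp] at hp1
  rw [ez, Real.exp_le_exp] at hm
  rw [Real.exp_le_exp] at hℓD
  rw [ek, rl6_inv, rl6_div, rl6_div, rl6_div, rl6_pow, rl6_pow, e512, ← Real.exp_add,
    ← Real.exp_add, ← Real.exp_add, ← Real.exp_add, ← Real.exp_add, Real.exp_le_exp]
  have a1 : 0 ≤ (2 + c) * (L + z - κ) := mul_nonneg (by linarith [hc.1]) (by linarith)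
  have a2 : 0 ≤ (1 + c) * (L + p - y) := mul_nonneg (by linarith [hc.1]) (by linarith)
  have a3 : 0 ≤ (1 - c / 4) * (L + κ - q) := mul_nonneg (by linarith [hc.2]) (by linarith)
  have a4 : 0 ≤ c * (y - x) := mul_nonneg hc.1.le (by linarith)
  have a5 : 0 ≤ c * (L + κ - x) := mul_nonneg hc.1.le (by linarith)
  have a6 : 0 ≤ (1 - c) * L := mul_nonneg (by linarith [hc.2]) hL.le
  nlinarith [a1, a2, a3, a4, a5, a6]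

/-- CASE `2 k < ℓ`, `u` = maximum of `k` and `R₀` (so `k + 1 ≤ 2 u`, `k + 1 ≤ ℓ`).  `D - k ≥ D / 2`.
`ℓ ^ (-2) (ℓ / u) ^ (1/2) (ℓ / (D - k)) ^ (1 + c) ≤ ℓ ^ (-2) (2 ℓ / (k+1)) ^ (1/2) 4 ℓ ^ (1+c) D ^ (-1-c) ≤ 8 ℓ ^ (-1/2+c) (k+1) ^ (-1/2) D ^ (-1-c)`.
The quotient by `T = ℓ ^ ε D ^ (-1-2ε) (k+1) ^ (ε-1)` is at most `8 ℓ ^ (-1/2+c-ε) (k+1) ^ (1/2-ε) D ^ (2ε-c) ≤ 8 (ℓ / D) ^ (c-2ε) ≤ 8`. -/
theorem rl_three {c ℓ D k u : ℝ} (hc : 0 < c ∧ c ≤ 1) (hℓ : 1 ≤ ℓ) (hk : 0 ≤ k)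
    (hu : k + 1 ≤ 2 * u) (hkl : k + 1 ≤ ℓ) (hD : 2 * ℓ ≤ D) :
    1 / ℓ ^ 2 * ((ℓ / u) ^ ((1 : ℝ) / 2) * (ℓ / (D - k)) ^ (1 + c)) ≤
      8 * ((ℓ / D) ^ (c / 4) * (D ^ (-1 - c / 4) * (k + 1) ^ (c / 4 - 1))) := by
  obtain ⟨L, hL, h2⟩ := rl6_two
  obtain ⟨x, rfl⟩ := rl6_exp (show 0 < ℓ by linarith)
  obtain ⟨p, hp⟩ := rl6_exp (show 0 < D - k by linarith)
  obtain ⟨y, rfl⟩ := rl6_exp (show 0 < D by linarith)
  obtain ⟨z, rfl⟩ := rl6_exp (show 0 < u by linarith)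
  obtain ⟨q, hq⟩ := rl6_exp (show 0 < k + 1 by linarith)
  have hp1 : Real.exp y ≤ 2 * Real.exp p := by
    rw [← hp]
    linarith
  rw [hq] at hu hkl
  rw [hp, hq]
  have e8 : (8 : ℝ) = Real.exp (3 * L) := by
    rw [show (3 : ℝ) * L = ((3 : ℕ) : ℝ) * L by norm_num, Real.exp_nat_mul, ← h2]
    norm_num
  have ex : 2 * Real.exp x = Real.exp (L + x) := by rw [Real.exp_add, ← h2]
  have ep : 2 * Real.exp p = Real.exp (L + p) := by rw [Real.exp_add, ← h2]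
  have ez : 2 * Real.exp z = Real.exp (L + z) := by rw [Real.exp_add, ← h2]
  rw [ep, Real.exp_le_exp] at hp1
  rw [ez, Real.exp_le_exp] at hu
  rw [ex, Real.exp_le_exp] at hD
  rw [Real.exp_le_exp] at hkl
  rw [rl6_inv, rl6_div, rl6_div, rl6_div, rl6_pow, rl6_pow, e8, ← Real.exp_add,
    ← Real.exp_add, ← Real.exp_add, ← Real.exp_add, ← Real.exp_add, Real.exp_le_exp]
  have a2 : 0 ≤ (1 + c) * (L + p - y) := mul_nonneg (by linarith [hc.1]) (by linarith)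
  have a3 : 0 ≤ (1 / 2 - c / 4) * (x - q) := mul_nonneg (by linarith [hc.2]) (by linarith)
  have a4 : 0 ≤ c * (y - x) := mul_nonneg hc.1.le (by linarith)
  have a6 : 0 ≤ (1 - c) * L := mul_nonneg (by linarith [hc.2]) hL.le
  nlinarith [a2, a3, a4, a6]

end SC
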