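import Pool.Agent.Lib_MP_e0a489.TTH3
import Pool.Agent.Lib_MP_e0a489.TTH5
import Pool.Agent.Lib_MP_e0a489.TTH6

/-!
# MP_e0a489, module TTH 7: the local bound in the half plane
-/

set_option autoImplicit false

namespace SC

variable [IfL]

open Classical

private theorem tth7_fin {s ℓ a C₃ B Q K T X : ℝ} (hs : 0 < s) (hℓ : 0 < ℓ)
    (hB : 0 ≤ B) (hQ : 0 ≤ Q) (hX : X ≤ B * (a * Q))
    (hC : s * Real.exp (-(s / 2)) * (ℓ ^ 2 * a) ≤ C₃) (hC₃ : 0 ≤ C₃)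
    (hK : 1 / ℓ ^ 2 * Q ≤ K * T) :
    s * Real.exp (-s) * X ≤ C₃ * (B * K) * (Real.exp (-(s / 2)) * T) := by
  have e1 : Real.exp (-s) = Real.exp (-(s / 2)) * Real.exp (-(s / 2)) := by
    rw [← Real.exp_add]
    congr 1
    ring
  have hE : 0 < Real.exp (-(s / 2)) := Real.exp_pos _
  have h1 : s * Real.exp (-s) * X ≤ s * Real.exp (-s) * (B * (a * Q)) :=
    mul_le_mul_of_nonneg_left hX (mul_nonneg hs.le (Real.exp_pos _).le)
  have h2 : s * Real.exp (-s) * (B * (a * Q)) = B * Real.exp (-(s / 2)) *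
      ((s * Real.exp (-(s / 2)) * (ℓ ^ 2 * a)) * (1 / ℓ ^ 2 * Q)) := by
    rw [e1]
    field_simp
  have h3 : (s * Real.exp (-(s / 2)) * (ℓ ^ 2 * a)) * (1 / ℓ ^ 2 * Q) ≤ C₃ * (K * T) :=
    mul_le_mul hC hK (mul_nonneg (by positivity) hQ) hC₃
  have h4 : B * Real.exp (-(s / 2)) *
      ((s * Real.exp (-(s / 2)) * (ℓ ^ 2 * a)) * (1 / ℓ ^ 2 * Q)) ≤
      B * Real.exp (-(s / 2)) * (C₃ * (K * T)) :=
    mul_le_mul_of_nonneg_left h3 (mul_nonneg hB hE.le)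
  calc s * Real.exp (-s) * X ≤ s * Real.exp (-s) * (B * (a * Q)) := h1
    _ = B * Real.exp (-(s / 2)) *
      ((s * Real.exp (-(s / 2)) * (ℓ ^ 2 * a)) * (1 / ℓ ^ 2 * Q)) := h2
    _ ≤ B * Real.exp (-(s / 2)) * (C₃ * (K * T)) := h4
    _ = C₃ * (B * K) * (Real.exp (-(s / 2)) * T) := by ring

private theorem tth7_kap {s : ℝ} (hs : 0 < s) : Kap (kt s) := fun _ =>
  ⟨(Real.exp_pos _).le, by
    show Real.exp (-s) ≤ 1
    rw [Real.exp_le_one_iff]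
    linarith⟩

private theorem tth7_hf {L : Lat} {s : ℝ} (hs : 0 < s) (b : Bool) (H : Set Pt) (r R : ℤ) :
    0 ≤ hfF L s b H r R := by
  unfold hfF
  split_ifs
  · exact pr2_nonneg _ (tth7_kap hs)
  · exact zero_le_one

/-- LOCAL BOUND.  `k = v.2`.  Put `A = s e^{-s/2} (ℓ ^ 2 al L R₀ ℓ) ≤ C₃`, so `s e^{-s} al L R₀ ℓ ≤ C₃ e^{-s/2} (1 / ℓ ^ 2)`.
(1) `D ≤ 4 k`: `locE_at` and `atF_beyond` with `r₁ = R₀`, `m = D / 4 - 1 < k` (`m ≥ D / 8`, `ℓ ≤ 4 m` because `D ≥ 16 ℓ ≥ 256`); `rl_one` with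
`d = min (k + 1) D`.
(2) `4 k < D`, `ℓ ≤ 2 k`: `locE_fac` with `r₁ = R₀`, `m = k - 1`, `m₀ = m₁ = m₂ = 2 k`, `R' = D - k` (the first `hfF` is `1`); `atF_beyond` (`ℓ ≤ 4 (k - 1)`,
`k ≥ 8`), `hfF_beyond`, `rl_two`; `min (k + 1) D = k + 1`.
(3) `2 k < ℓ`: `locE_fac` with `r₁ = R₀`, `m = k - 1`, `m₀ = max (2 k) R₀`, `m₁ = m₂ = ℓ`, `R' = D - k`; `atF_static`, `hfF_static`, `hfF_beyond`, `HProps.prod`,
`rl_three` with `u = max k R₀`.
`C₁` = sum of the three constants. -/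
theorem loc_half_bd {L : Lat} {C Cb Ch C₃ c : ℝ} {R₀ : ℤ} (hP : HProps L C R₀) (hR : 16 ≤ R₀)
    (hc : 0 < c ∧ c ≤ 1 / 2) (hC₃ : 0 < C₃) (hb : LBKOK L Cb c R₀) (hh : KBHOK L Ch c R₀)
    (hCb : 0 ≤ Cb) (hCh : 1 ≤ Ch) : ∃ C₁ : ℝ, 0 < C₁ ∧ ∀ (ℓ : ℤ) (s : ℝ), R₀ ≤ ℓ →
    Beyond L R₀ ℓ s → s * Real.exp (-(s / 2)) * ((ℓ : ℝ) ^ 2 * al L R₀ ℓ) ≤ C₃ →
    ∀ (σ : ℤ) (x : Pt) (H : Set Pt) (b : Bool) (v : Pt) (D : ℤ), HalfLike H → 0 ≤ v.2 →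
      16 * ℓ ≤ D → s * Real.exp (-s) * pr2 (kt s) (((L.rots σ).shift x).LocE H b v D) ≤
        C₁ * (Real.exp (-(s / 2)) * (((ℓ : ℝ) / D) ^ (c / 4) * ((D : ℝ) ^ (-1 - c / 4) *
          ((min (v.2 + 1) D : ℤ) : ℝ) ^ (c / 4 - 1)))) := by
  have hC1 : 1 ≤ C := hP.ap.C1
  obtain ⟨B₁, hB₁⟩ : ∃ B : ℝ, B = Cb + 4096 * C := ⟨_, rfl⟩
  obtain ⟨B₂, hB₂⟩ : ∃ B : ℝ, B = (Cb + 4096 * C) * Ch := ⟨_, rfl⟩
  obtain ⟨B₃, hB₃⟩ : ∃ B : ℝ, B = 4096 * C * C * Ch * (4096 * C ^ 2) := ⟨_, rfl⟩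
  have p1 : 0 ≤ B₁ := by rw [hB₁]; positivity
  have p2 : 0 ≤ B₂ := by rw [hB₂]; positivity
  have p3 : 0 < B₃ := by rw [hB₃]; positivity
  refine ⟨C₃ * (B₁ * 512) + C₃ * (B₂ * 512) + C₃ * (B₃ * 8), by positivity, ?_⟩
  intro ℓ s hℓ hB hs3 σ x H b v D hH hv hD
  have hal : 0 < al L R₀ ℓ := hP.ap.pos R₀ ℓ le_rfl hℓ
  have hs : 0 < s := hB.pos hal.le
  obtain ⟨k, hk⟩ : ∃ k : ℤ, k = v.2 := ⟨_, rfl⟩
  rw [← hk] at hv
  rw [← hk]
  have hℓ1 : (1 : ℝ) ≤ (ℓ : ℝ) := by exact_mod_cast (by omega : (1 : ℤ) ≤ ℓ)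
  have hℓ0 : (0 : ℝ) < (ℓ : ℝ) := lt_of_lt_of_le zero_lt_one hℓ1
  have hDr : (ℓ : ℝ) ≤ (D : ℝ) := by exact_mod_cast (by omega : ℓ ≤ D)
  have hD0 : (0 : ℝ) < (D : ℝ) := lt_of_lt_of_le hℓ0 hDr
  have hk0 : (0 : ℝ) ≤ (k : ℝ) := by exact_mod_cast hv
  have hc1 : 0 < c ∧ c ≤ 1 := ⟨hc.1, hc.2.trans (by norm_num)⟩
  obtain ⟨T, hT⟩ : ∃ T : ℝ, T = ((ℓ : ℝ) / D) ^ (c / 4) * ((D : ℝ) ^ (-1 - c / 4) *
      ((min (k + 1) D : ℤ) : ℝ) ^ (c / 4 - 1)) := ⟨_, rfl⟩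
  have hd0 : (0 : ℝ) < ((min (k + 1) D : ℤ) : ℝ) := by
    exact_mod_cast (by omega : (0 : ℤ) < min (k + 1) D)
  have hT0 : 0 ≤ T := by rw [hT]; positivity
  rw [← hT]
  have hET : 0 ≤ Real.exp (-(s / 2)) * T := mul_nonneg (Real.exp_pos _).le hT0
  have q1 : 0 ≤ C₃ * (B₁ * 512) := by positivity
  have q2 : 0 ≤ C₃ * (B₂ * 512) := by positivity
  have q3 : 0 ≤ C₃ * (B₃ * 8) := by positivity
  by_cases hc4 : D ≤ 4 * k
  · -- case 1
    obtain ⟨m, hm⟩ : ∃ m : ℤ, m = D / 4 - 1 := ⟨_, rfl⟩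
    have h1 := locE_at L σ x hH b (v := v) (D := D) (r₁ := R₀) (m := m) (t := s) hs.le (by omega)
      (by omega) (by omega) (by omega)
    have h2 := atF_beyond hP hb hc.1 hCb hℓ hB b (rt σ (v + x)) (m := m) (by omega) (by omega)
    have hm0 : (0 : ℝ) < (m : ℝ) := by exact_mod_cast (by omega : (0 : ℤ) < m)
    have hm8 : (D : ℝ) ≤ 8 * (m : ℝ) := by exact_mod_cast (by omega : D ≤ 8 * m)
    have hdD : ((min (k + 1) D : ℤ) : ℝ) ≤ (D : ℝ) := by exact_mod_cast min_le_right _ _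
    have h3 := rl_one hc1 hℓ1 hDr hm8 hd0 hdD
    rw [← hT] at h3
    have h5 : pr2 (kt s) (((L.rots σ).shift x).LocE H b v D) ≤
        B₁ * (al L R₀ ℓ * ((ℓ : ℝ) / m) ^ (2 + c)) := by
      rw [hB₁]
      exact h1.trans h2
    have h4 := tth7_fin hs hℓ0 p1 (by positivity) h5 hs3 hC₃.le h3
    refine h4.trans (mul_le_mul_of_nonneg_right ?_ hET)
    linarith
  · have hmin : min (k + 1) D = k + 1 := min_eq_left (by omega)
    rw [hmin] at hT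
    push_cast at hT
    have hH' : HalfLike {z : Pt | z + (v.1, 0) ∈ H} := halfLike_add hH rfl
    have hDk : ((D - k : ℤ) : ℝ) = (D : ℝ) - k := by push_cast; ring
    have hDk0 : (0 : ℝ) < (D : ℝ) - k := by
      rw [← hDk]
      exact_mod_cast (by omega : (0 : ℤ) < D - k)
    by_cases hc2 : ℓ ≤ 2 * k
    · -- case 2
      have h1 := locE_fac L σ x hH b (v := v) (D := D) (r₁ := R₀) (m := k - 1) (m₀ := 2 * k)
        (m₁ := 2 * k) (m₂ := 2 * k) (R' := D - k) (t := s) hs.le (by omega) (by omega)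
        (by omega) (by omega) (by omega) (by omega) (by omega) (by omega) (by omega) (by omega)
      have h2 := atF_beyond hP hb hc.1 hCb hℓ hB b (rt σ (v + x)) (m := k - 1) (by omega)
        (by omega)
      have e1 : hfF ((L.rots σ).shift (x + (v.1, 0))) s b {z | z + (v.1, 0) ∈ H} (2 * k)
          (2 * k) = 1 := by
        unfold hfF
        exact if_neg (lt_irrefl _)
      have h3 := hfF_beyond hh (by omega) hCh hℓ hB σ (x + (v.1, 0)) b hH' (r := 2 * k)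
        (R := D - k) (by omega) (by omega)
      have n3 := tth7_hf (L := (L.rots σ).shift (x + (v.1, 0))) hs b
        {z | z + (v.1, 0) ∈ H} (2 * k) (D - k)
      rw [e1, one_mul] at h1
      have hkm : ((k - 1 : ℤ) : ℝ) = (k : ℝ) - 1 := by push_cast; ring
      have hk2 : ((2 * k : ℤ) : ℝ) = 2 * (k : ℝ) := by push_cast; ring
      rw [hkm] at h2
      rw [hk2, hDk] at h3
      have r1 : (ℓ : ℝ) ≤ 2 * (k : ℝ) := by exact_mod_cast hc2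
      have r2 : (8 : ℝ) ≤ (k : ℝ) := by exact_mod_cast (by omega : (8 : ℤ) ≤ k)
      have r3 : 4 * (k : ℝ) ≤ D := by exact_mod_cast (by omega : 4 * k ≤ D)
      have h4 := rl_two (m := (k : ℝ) - 1) hc1 hℓ1 r1 (by linarith) r3 hDr (by linarith)
      rw [← hT] at h4
      have m0 : (0 : ℝ) < (k : ℝ) - 1 := by linarith
      have a0 : 0 ≤ (Cb + 4096 * C) * (al L R₀ ℓ * ((ℓ : ℝ) / (↑k - 1)) ^ (2 + c)) := by
        have := hal.le
        positivity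
      have h5 : pr2 (kt s) (((L.rots σ).shift x).LocE H b v D) ≤
          B₂ * (al L R₀ ℓ * (((ℓ : ℝ) / (↑k - 1)) ^ (2 + c) *
            (2 * ↑k / (↑D - ↑k)) ^ (1 + c))) := by
        refine h1.trans ((mul_le_mul h2 h3 n3 a0).trans (le_of_eq ?_))
        rw [hB₂]
        ring
      have h6 := tth7_fin hs hℓ0 p2 (by positivity) h5 hs3 hC₃.le h4
      refine h6.trans (mul_le_mul_of_nonneg_right ?_ hET)
      linarith
    · -- case 3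
      have h1 := locE_fac L σ x hH b (v := v) (D := D) (r₁ := R₀) (m := k - 1)
        (m₀ := max (2 * k) R₀) (m₁ := ℓ) (m₂ := ℓ) (R' := D - k) (t := s) hs.le (by omega)
        (by omega) (by omega) (by omega) (by omega) (by omega) (by omega) (by omega) (by omega)
        (by omega)
      have h2 := atF_static hP hR hs.le b (rt σ (v + x)) k
      have h3 := hfF_static hP hs.le σ (x + (v.1, 0)) b hH' (r := max (2 * k) R₀) (R := ℓ)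
        (by omega)
      have h4 := hfF_beyond hh (by omega) hCh hℓ hB σ (x + (v.1, 0)) b hH' (r := ℓ)
        (R := D - k) le_rfl (by omega)
      have n3 := tth7_hf (L := (L.rots σ).shift (x + (v.1, 0))) hs b
        {z | z + (v.1, 0) ∈ H} (max (2 * k) R₀) ℓ
      have n4 := tth7_hf (L := (L.rots σ).shift (x + (v.1, 0))) hs b
        {z | z + (v.1, 0) ∈ H} ℓ (D - k)
      have h5 := hP.prod hv (by omega : 2 * k < ℓ) hℓ
      rw [hDk] at h4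
      obtain ⟨u, hu⟩ : ∃ u : ℤ, u = max k R₀ := ⟨_, rfl⟩
      have u0 : (0 : ℝ) < (u : ℝ) := by exact_mod_cast (by omega : (0 : ℤ) < u)
      rw [← hu] at h2 h5
      have ha1 : 0 ≤ al L R₀ u := (hP.ap.pos R₀ u le_rfl (by omega)).le
      have ha2 : 0 ≤ al L (max (2 * k) R₀) ℓ :=
        (hP.ap.pos (max (2 * k) R₀) ℓ (by omega) (by omega)).le
      have r1 : (k : ℝ) + 1 ≤ 2 * (u : ℝ) := by exact_mod_cast (by omega : k + 1 ≤ 2 * u)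
      have r2 : (k : ℝ) + 1 ≤ (ℓ : ℝ) := by exact_mod_cast (by omega : k + 1 ≤ ℓ)
      have r3 : 2 * (ℓ : ℝ) ≤ (D : ℝ) := by exact_mod_cast (by omega : 2 * ℓ ≤ D)
      have h6 := rl_three (u := (u : ℝ)) hc1 hℓ1 hk0 r1 r2 r3
      rw [← hT] at h6
      have b4 : 0 ≤ Ch * ((ℓ : ℝ) / (↑D - ↑k)) ^ (1 + c) := by positivity
      have h7 : pr2 (kt s) (((L.rots σ).shift x).LocE H b v D) ≤
          B₃ * (al L R₀ ℓ * (((ℓ : ℝ) / ↑u) ^ ((1 : ℝ) / 2) *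
            (↑ℓ / (↑D - ↑k)) ^ (1 + c))) := by
        have g1 := mul_le_mul h3 h4 n4 (by positivity)
        have g2 := mul_le_mul h2 g1 (mul_nonneg n3 n4) (by positivity)
        have g3 : 4096 * C * al L R₀ u * (C * al L (max (2 * k) R₀) ℓ ^ ((3 : ℝ) / 4) *
            (Ch * ((ℓ : ℝ) / (↑D - ↑k)) ^ (1 + c))) =
            4096 * C * C * (al L R₀ u * al L (max (2 * k) R₀) ℓ ^ ((3 : ℝ) / 4)) *
              (Ch * ((ℓ : ℝ) / (↑D - ↑k)) ^ (1 + c)) := by ring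
        have g4 : 4096 * C * C * (al L R₀ u * al L (max (2 * k) R₀) ℓ ^ ((3 : ℝ) / 4)) *
              (Ch * ((ℓ : ℝ) / (↑D - ↑k)) ^ (1 + c)) ≤ 4096 * C * C *
              (4096 * C ^ 2 * (al L R₀ ℓ * ((ℓ : ℝ) / (u : ℤ)) ^ ((1 : ℝ) / 2))) *
              (Ch * ((ℓ : ℝ) / (↑D - ↑k)) ^ (1 + c)) :=
          mul_le_mul_of_nonneg_right (mul_le_mul_of_nonneg_left h5 (by positivity)) b4
        refine h1.trans (g2.trans (g3.le.trans (g4.trans (le_of_eq ?_))))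
        rw [hB₃]
        ring
      have h8 := tth7_fin hs hℓ0 p3.le (by positivity) h7 hs3 hC₃.le h6
      refine h8.trans (mul_le_mul_of_nonneg_right ?_ hET)
      linarith

end SC
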