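import Pool.Agent.Lib_MP_e0a489.TTA9
import Pool.Agent.Lib_MP_e0a489.TTH2
import Pool.Agent.Lib_MP_e0a489.TTH7

/-!
# MP_e0a489, module TTH 8: two-time bound for the half plane event
-/

set_option autoImplicit false

namespace SC

variable [IfL]

open Classical

private theorem tth8_pos {L : Lat} {C : ℝ} {R₀ : ℤ} (hP : HProps L C R₀) {r : ℤ} (R : ℤ)
    (hr : R₀ ≤ r) : 0 < al L r R := by
  by_cases h : r ≤ R
  · exact hP.ap.pos r R hr h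
  · unfold al
    rw [if_neg (by omega)]
    exact one_pos

private theorem tth8_pow {K : ℝ} (hK : 0 ≤ K) : (K ^ 4) ^ ((3 : ℝ) / 2) = K ^ 6 := by
  rw [← Real.rpow_natCast K 4, ← Real.rpow_natCast K 6, ← Real.rpow_mul hK]
  norm_num

/-- HALF PLANE.  `graded_boot` with `ε = c / 4`, `C₁` from `loc_half_bd`, `G r R = (al L r R) ^ (3/2)`, `K = 4096 C`, `C₄ = K ^ (3/2)` (`HProps.small`), `C₂ = K ^ 6`
(`HProps.qm8`, `Real.mul_rpow`), `C₀ = C ^ 2 K ^ 6` (`HProps.half` for `(4 r, R / 4)`, squared, and `HProps.quarter`).  For given `σ`, `x`, `c`, `H`: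
`E r R = ((L.rots σ).shift x).TwoH c H r R`, `W = ((L.rots σ).shift x).LocE H`, `ht v = v.2` (`crE_half`, `htOK_half`); `LocB` is `loc_half_bd` (`0 ≤ v.2` for
`v ∈ H`).  `al > 0` for `R₀ ≤ r` (`AlProps.pos`, or `al = 1`). -/
theorem half_of {L : Lat} {C Cb Ch C₃ c : ℝ} {R₀ : ℤ} (hP : HProps L C R₀) (hR : 16 ≤ R₀)
    (hc : 0 < c ∧ c ≤ 1 / 2) (hC₃ : 0 < C₃) (hS : ScaleOK L C₃ R₀) (hb : LBKOK L Cb c R₀)
    (hh : KBHOK L Ch c R₀) (hCb : 0 ≤ Cb) (hCh : 1 ≤ Ch) :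
    ∃ (M : ℝ) (Λ : ℤ), 0 < M ∧ 1 ≤ Λ ∧ HalfOK L M Λ R₀ := by
  obtain ⟨C₁, hC₁, hloc⟩ := loc_half_bd hP hR hc hC₃ hb hh hCb hCh
  have hC1 : 1 ≤ C := hP.ap.C1
  have hC0 : 0 < C := by linarith
  have hK : 0 < 4096 * C := by linarith
  obtain ⟨M, Λ, hM, hΛ, H⟩ := graded_boot (L := L) (R₀ := R₀) (C₀ := C ^ 2 * (4096 * C) ^ 6)
    (C₁ := C₁) (C₂ := (4096 * C) ^ 6) (C₃ := C₃) (C₄ := (4096 * C) ^ ((3 : ℝ) / 2)) (ε := c / 4)
    ⟨by linarith [hc.1], by linarith [hc.2]⟩ (by linarith) (by positivity) hC₁ (by positivity)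
    hC₃ (by positivity) hS
  refine ⟨M, Λ, hM, hΛ, ?_⟩
  intro ℓ t hℓ hB s b x Hs r R hHs hr hrR
  refine H Hs (fun r R => ((L.rots s).shift x).TwoH b Hs r R) (((L.rots s).shift x).LocE Hs)
    (fun v => v.2) (fun r R => (al L r R) ^ ((3 : ℝ) / 2)) (Lat.crE_half _ b Hs)
    (htOK_half hHs) ?_ ?_ ?_ ?_ ?_ ℓ t hℓ hB r R hr hrR
  · intro ℓ' s' hℓ' hB' h3 b' v D hv hD _
    exact hloc ℓ' s' hℓ' hB' h3 s x Hs b' v D hHs (hHs.2 hv) hD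
  · intro r' R' hr'
    exact Real.rpow_pos_of_pos (tth8_pos hP R' hr') _
  · intro r' R' hr' h64
    have h1 := hP.small hr' h64
    have h2 : 0 ≤ al L r' R' := (tth8_pos hP R' hr').le
    show 1 ≤ (4096 * C) ^ ((3 : ℝ) / 2) * (al L r' R') ^ ((3 : ℝ) / 2)
    rw [← Real.mul_rpow hK.le h2]
    exact Real.one_le_rpow h1 (by norm_num)
  · intro r' ρ R' hr' h1 h2
    have h3 := hP.qm8 hr' h1 h2
    have h4 : 0 ≤ al L r' ρ := (tth8_pos hP ρ hr').le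
    have h5 : 0 ≤ al L (8 * ρ) R' := (tth8_pos hP R' (by omega)).le
    have h6 : 0 ≤ al L r' R' := (tth8_pos hP R' hr').le
    show (al L r' ρ) ^ ((3 : ℝ) / 2) * (al L (8 * ρ) R') ^ ((3 : ℝ) / 2) ≤
      (4096 * C) ^ 6 * (al L r' R') ^ ((3 : ℝ) / 2)
    rw [← Real.mul_rpow h4 h5, ← tth8_pow hK.le, ← Real.mul_rpow (by positivity) h6]
    exact Real.rpow_le_rpow (mul_nonneg h4 h5) h3 (by norm_num)
  · intro r' R' hr' h64
    have h1 := hP.half s x b Hs (4 * r') (R' / 4) hHs (by omega) (by omega)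
    have h2 := hP.quarter hr' h64
    have h4 : 0 ≤ al L (4 * r') (R' / 4) := (tth8_pos hP _ (by omega)).le
    have h6 : 0 ≤ al L r' R' := (tth8_pos hP R' hr').le
    have h7 : (0 : ℝ) ≤ pr (((L.rots s).shift x).TwoH b Hs (4 * r') (R' / 4)) := pr_nonneg _
    show pr (((L.rots s).shift x).TwoH b Hs (4 * r') (R' / 4)) ^ 2 ≤
      C ^ 2 * (4096 * C) ^ 6 * (al L r' R') ^ ((3 : ℝ) / 2)
    have h8 : pr (((L.rots s).shift x).TwoH b Hs (4 * r') (R' / 4)) ^ 2 ≤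
        (C * (al L (4 * r') (R' / 4)) ^ ((3 : ℝ) / 4)) ^ 2 := pow_le_pow_left₀ h7 h1 2
    have h9 : ((al L (4 * r') (R' / 4)) ^ ((3 : ℝ) / 4)) ^ 2 =
        (al L (4 * r') (R' / 4)) ^ ((3 : ℝ) / 2) := by
      rw [← Real.rpow_natCast, ← Real.rpow_mul h4]
      norm_num
    have h10 : (al L (4 * r') (R' / 4)) ^ ((3 : ℝ) / 2) ≤
        (4096 * C) ^ 6 * (al L r' R') ^ ((3 : ℝ) / 2) := by
      rw [← tth8_pow hK.le, ← Real.mul_rpow (by positivity) h6]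
      exact Real.rpow_le_rpow h4 h2 (by norm_num)
    calc pr (((L.rots s).shift x).TwoH b Hs (4 * r') (R' / 4)) ^ 2
        ≤ (C * (al L (4 * r') (R' / 4)) ^ ((3 : ℝ) / 4)) ^ 2 := h8
      _ = C ^ 2 * (al L (4 * r') (R' / 4)) ^ ((3 : ℝ) / 2) := by rw [mul_pow, h9]
      _ ≤ C ^ 2 * ((4096 * C) ^ 6 * (al L r' R') ^ ((3 : ℝ) / 2)) :=
          mul_le_mul_of_nonneg_left h10 (by positivity)
      _ = _ := by ring

end SC
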