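import Pool.Agent.Lib_MP_e0a489.TTHD
import Pool.Agent.Lib_MP_e0a489.TTS

/-!
# MP_e0a489, module TTH S: `ScaleOK` and `LBKOK`
-/

set_option autoImplicit false

namespace SC

variable [IfL] [IfX]

open Classical

private theorem tths_exp {s : ℝ} (hs : 0 ≤ s) : s * Real.exp (-(s / 2)) ≤ 1 := by
  have h := Real.quadratic_le_exp_of_nonneg (x := s / 2) (by linarith)
  have hp := Real.exp_pos (s / 2)
  rw [Real.exp_neg, ← div_eq_mul_inv, div_le_one hp]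
  nlinarith [sq_nonneg (s / 2 - 1)]

private theorem tths_sqrt {s : ℝ} (hs : 0 < s) :
    Real.exp (-(s / 2)) * s ^ ((1 : ℝ) / 2) ≤ 1 := by
  have h1 : (Real.exp (-(s / 2)) * s ^ ((1 : ℝ) / 2)) ^ 2 ≤ 1 := by
    have e : (Real.exp (-(s / 2)) * s ^ ((1 : ℝ) / 2)) ^ 2 = Real.exp (-s) * s := by
      rw [mul_pow, ← Real.exp_nat_mul, ← Real.rpow_natCast (s ^ ((1 : ℝ) / 2)) 2,
        ← Real.rpow_mul hs.le]
      congr 1
      · congr 1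
        push_cast
        ring
      · norm_num
    rw [e, Real.exp_neg, mul_comm, ← div_eq_mul_inv, div_le_one (Real.exp_pos s)]
    have := Real.add_one_le_exp s
    linarith
  have h0 : 0 ≤ Real.exp (-(s / 2)) * s ^ ((1 : ℝ) / 2) :=
    mul_nonneg (Real.exp_pos _).le (Real.rpow_nonneg hs.le _)
  nlinarith

/-- `TT.scale` -/
theorem scaleOK_of {L : Lat} {C c : ℝ} {R₀ : ℤ} (hp : TT.TP L C c R₀) :
    ScaleOK L (4 * (R₀ : ℝ) ^ 2) R₀ := by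
  intro ℓ t s hℓ hb hts
  obtain ⟨ℓ', h1, h2, h3, h4⟩ := TT.scale hp hℓ hb hts
  have hR16 : (16 : ℝ) ≤ R₀ := by exact_mod_cast hp.ap.R16
  have hℓ0 : (0 : ℝ) < ℓ := by
    have : (R₀ : ℝ) ≤ ℓ := by exact_mod_cast hℓ
    linarith
  have hℓ'0 : (0 : ℝ) < ℓ' := by
    have : (R₀ : ℝ) ≤ ℓ' := by exact_mod_cast h1
    linarith
  have hal0 : 0 < al L R₀ ℓ := hp.ap.pos R₀ ℓ le_rfl hℓ
  have hal1 : al L R₀ ℓ ≤ 1 := hp.ap.le1 R₀ ℓ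
  have hb' : 1 ≤ t * ((ℓ : ℝ) ^ 2 * al L R₀ ℓ) := hb
  have hprod : 0 < (ℓ : ℝ) ^ 2 * al L R₀ ℓ := by positivity
  have ht : 0 < t := by
    by_contra hcon
    push Not at hcon
    nlinarith
  have hs : 0 < s := lt_of_lt_of_le ht hts
  have htl : 1 ≤ t * (ℓ : ℝ) ^ 2 := by
    have h5 : t * ((ℓ : ℝ) ^ 2 * al L R₀ ℓ) ≤ t * ((ℓ : ℝ) ^ 2 * 1) := by
      refine mul_le_mul_of_nonneg_left ?_ ht.le
      exact mul_le_mul_of_nonneg_left hal1 (by positivity)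
    linarith
  have he1 : Real.exp (-(s / 2)) ≤ 1 := Real.exp_le_one_iff.2 (by linarith)
  have he0 := Real.exp_pos (-(s / 2))
  -- `ℓ (t / s) ^ (1/2)`
  have hX : (ℓ : ℝ) * (t / s) ^ ((1 : ℝ) / 2) = (t * (ℓ : ℝ) ^ 2) ^ ((1 : ℝ) / 2) *
      (1 / s) ^ ((1 : ℝ) / 2) := by
    rw [← Real.mul_rpow (by positivity) (by positivity)]
    have e : t * (ℓ : ℝ) ^ 2 * (1 / s) = (ℓ : ℝ) ^ 2 * (t / s) := by ring
    rw [e, Real.mul_rpow (by positivity) (by positivity)]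
    congr 1
    rw [← Real.rpow_natCast (ℓ : ℝ) 2, ← Real.rpow_mul hℓ0.le]
    norm_num
  have hX1 : (1 / s) ^ ((1 : ℝ) / 2) ≤ (ℓ : ℝ) * (t / s) ^ ((1 : ℝ) / 2) := by
    rw [hX]
    have h5 : (1 : ℝ) ≤ (t * (ℓ : ℝ) ^ 2) ^ ((1 : ℝ) / 2) :=
      Real.one_le_rpow htl (by norm_num)
    have h6 : 0 ≤ (1 / s) ^ ((1 : ℝ) / 2) := Real.rpow_nonneg (by positivity) _
    nlinarith
  have hX0 : 0 ≤ (ℓ : ℝ) * (t / s) ^ ((1 : ℝ) / 2) :=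
    mul_nonneg hℓ0.le (Real.rpow_nonneg (by positivity) _)
  have hbig : s * (ℓ' : ℝ) ^ 2 ≤ 4 * (t * (ℓ : ℝ) ^ 2) →
      (ℓ' : ℝ) ≤ 2 * (ℓ * (t / s) ^ ((1 : ℝ) / 2)) := by
    intro h5
    have h6 : ((ℓ : ℝ) * (t / s) ^ ((1 : ℝ) / 2)) ^ 2 = (ℓ : ℝ) ^ 2 * (t / s) := by
      rw [mul_pow, ← Real.rpow_natCast ((t / s) ^ ((1 : ℝ) / 2)) 2,
        ← Real.rpow_mul (by positivity)]
      norm_num
    have h7 : (ℓ' : ℝ) ^ 2 ≤ (2 * (ℓ * (t / s) ^ ((1 : ℝ) / 2))) ^ 2 := by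
      rw [mul_pow, h6]
      have h8 : (ℓ' : ℝ) ^ 2 = s * (ℓ' : ℝ) ^ 2 / s := by field_simp
      rw [h8, div_le_iff₀ hs]
      have h9 : (2 : ℝ) ^ 2 * ((ℓ : ℝ) ^ 2 * (t / s)) * s = 4 * (t * (ℓ : ℝ) ^ 2) := by
        field_simp
        norm_num
      rw [h9]
      exact h5
    exact le_of_sq_le_sq h7 (by positivity)
  refine ⟨ℓ', h1, h2, h3, ?_, ?_, ?_⟩
  · rcases h4 with h4 | ⟨h4, -⟩
    · subst h4
      have e : al L ℓ' ℓ' = 1 := by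
        unfold al
        rw [if_neg (lt_irrefl _)]
      rw [e, mul_one]
      have h5 := tths_exp hs.le
      have h6 : 0 ≤ (ℓ' : ℝ) ^ 2 := by positivity
      nlinarith
    · have h5 : 0 ≤ (ℓ' : ℝ) ^ 2 * al L R₀ ℓ' :=
        mul_nonneg (by positivity) (hp.ap.pos R₀ ℓ' le_rfl h1).le
      have h6 : s * Real.exp (-(s / 2)) * ((ℓ' : ℝ) ^ 2 * al L R₀ ℓ') ≤
          s * 1 * ((ℓ' : ℝ) ^ 2 * al L R₀ ℓ') := by
        refine mul_le_mul_of_nonneg_right ?_ h5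
        exact mul_le_mul_of_nonneg_left he1 hs.le
      nlinarith
  · have hcR : (1 : ℝ) ≤ 4 * (R₀ : ℝ) ^ 2 := by nlinarith
    rcases h4 with h4 | ⟨-, h4⟩
    · subst h4
      have h5 : Real.exp (-(s / 2)) ≤ (1 / s) ^ ((1 : ℝ) / 2) := by
        have h6 := tths_sqrt hs
        have h7 : (1 / s) ^ ((1 : ℝ) / 2) * s ^ ((1 : ℝ) / 2) = 1 := by
          rw [← Real.mul_rpow (by positivity) hs.le, one_div_mul_cancel hs.ne', Real.one_rpow]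
        have h8 : 0 < s ^ ((1 : ℝ) / 2) := Real.rpow_pos_of_pos hs _
        by_contra hcon
        push Not at hcon
        nlinarith
      have h9 : Real.exp (-(s / 2)) * ℓ' ≤ (ℓ * (t / s) ^ ((1 : ℝ) / 2)) * ℓ' :=
        mul_le_mul_of_nonneg_right (h5.trans hX1) hℓ'0.le
      have h10 : (ℓ' : ℝ) ≤ 4 * (ℓ' : ℝ) ^ 2 := by nlinarith
      calc _ ≤ _ := h9
        _ = (ℓ' : ℝ) * (ℓ * (t / s) ^ ((1 : ℝ) / 2)) := mul_comm _ _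
        _ ≤ _ := mul_le_mul_of_nonneg_right h10 hX0
    · have h5 := hbig h4
      have h6 : Real.exp (-(s / 2)) * ℓ' ≤ 1 * ℓ' := mul_le_mul_of_nonneg_right he1 hℓ'0.le
      have h7 : 2 * ((ℓ : ℝ) * (t / s) ^ ((1 : ℝ) / 2)) ≤
          4 * (R₀ : ℝ) ^ 2 * ((ℓ : ℝ) * (t / s) ^ ((1 : ℝ) / 2)) :=
        mul_le_mul_of_nonneg_right (by nlinarith) hX0
      linarith
  · rcases h4 with h4 | ⟨-, h4⟩
    · exact Or.inl h4
    · exact Or.inr (hbig h4)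

/-- `TT.loc_bulk` -/
theorem lbkok_of {L : Lat} {C c C₁ c₁ : ℝ} {R₀ : ℤ} (hp : TT.TP L C c R₀) (h1 : 1 ≤ C₁)
    (hc₁ : 0 ≤ c₁) (hk : KBOK L C₁ c₁ R₀) : LBKOK L (C * C₁) c₁ R₀ := by
  intro ℓ s hℓ hb b y d hd
  exact TT.loc_bulk hp h1 hc₁ hk hℓ hb b y hd

end SC
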