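import Pool.Agent.Lib_MP_e0a489.SE1
import Pool.Agent.Lib_MP_e0a489.SH6
import Pool.Agent.Lib_MP_e0a489.TTH2

/-!
# MP_e0a489, module TTQ 1: the local events in the corner are local events in a half plane
-/

set_option autoImplicit false

namespace SC

open Classical XP

/-- the half plane above the line `0 × ℤ`... of the points `z` with the image `rt k z`: near the side number `k` of the quarter plane `H` it coincides with `H` -/
def upH (k : ℤ) (H : Set Pt) : Set Pt := {z | 0 ≤ z.2 ∧ (1 ≤ z.2 ∨ rt k z ∈ H)}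

/-- by definition -/
theorem halfLike_upH (k : ℤ) (H : Set Pt) : HalfLike (upH k H) := by
  refine ⟨fun v hv => ?_, fun v hv => hv.1⟩
  have hv' : 1 ≤ v.2 := hv
  exact ⟨by omega, Or.inl hv'⟩

private theorem ttq1_twoD (L : Lat) {Q Q' : Set Pt} (b : Bool) {v : Pt} {D : ℤ}
    (h : ∀ z ∈ bxAt v D, (z ∈ Q ↔ z ∈ Q')) (ω : Cfg) : L.TwoD Q b v 0 D ω ↔ L.TwoD Q' b v 0 D ω := by
  have e : annAt v 0 D ∩ Q = annAt v 0 D ∩ Q' := by
    ext z
    constructor
    · rintro ⟨h1, h2⟩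
      exact ⟨h1, (h z h1.2).1 h2⟩
    · rintro ⟨h1, h2⟩
      exact ⟨h1, (h z h1.2).2 h2⟩
  unfold Lat.TwoD
  rw [e]

/-- DEPENDENCE ON THE DOMAIN only in the ball -/
theorem locE_congr (L : Lat) {Q Q' : Set Pt} (b : Bool) {v : Pt} {D : ℤ}
    (h : ∀ z ∈ bxAt v D, (z ∈ Q ↔ z ∈ Q')) (ω : Cfg) : L.LocE Q b v D ω ↔ L.LocE Q' b v D ω := by
  unfold Lat.LocE
  rw [ttq1_twoD L b h ω]

private theorem ttq1_neg (k : ℤ) (v : Pt) : rt k (rt (-k) v) = v := by
  rw [← rt_add, add_neg_cancel, rt_zero]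

/-- the two descriptions of the same permutation -/
private theorem ttq1_perm (σ k : ℤ) (x z : Pt) :
    (rt (σ + k) * Equiv.addRight (rt (-k) x) : Equiv.Perm Pt) z =
      (rt σ * Equiv.addRight x : Equiv.Perm Pt) (rt k z) := by
  rw [rtz_apply, rtz_apply, rt_add, rt_lin, ttq1_neg]

private theorem ttq1_img (σ k : ℤ) (x : Pt) (A : Set Pt) :
    (rt (σ + k) * Equiv.addRight (rt (-k) x) : Equiv.Perm Pt) '' A =
      (rt σ * Equiv.addRight x : Equiv.Perm Pt) '' (rt k '' A) := by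
  rw [Set.image_image]
  exact Set.image_congr fun z _ => ttq1_perm σ k x z

private theorem ttq1_rtimg (k : ℤ) (z : Pt) (P : ℤ → Prop) :
    rt k '' {u | P (nrm (u - z))} = {u | P (nrm (u - rt k z))} := by
  ext u
  constructor
  · rintro ⟨w, hw, rfl⟩
    show P (nrm (rt k w - rt k z))
    rw [← rt_lin_sub, nrm_rt]
    exact hw
  · intro hu
    refine ⟨(rt k).symm u, ?_, Equiv.apply_symm_apply _ _⟩
    show P (nrm ((rt k).symm u - z))
    rw [← nrm_rt k, rt_lin_sub, Equiv.apply_symm_apply]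
    exact hu

/-- ROTATION.  Let `e = rt σ * Equiv.addRight x` and `e' = rt (σ + k) * Equiv.addRight (rt (-k) x)`; `e' z = rt (σ + k) (z + rt (-k) x) = rt σ (rt k z + x) = e (rt k z)`
(`rt_add`, `rt_lin`).  By `Tr.two`, `Tr.nb` (`tr_rotshift`) both events, for `via e ω` and `via e' ω`, are the same event of `L`: the images under `e` of
`annAt (rt k z) 0 D ∩ rt k '' Q`, `bxAt (rt k z) 0`, `rngAt (rt k z) D` are the images under `e'` of `annAt z 0 D ∩ Q` etc. (`nrm (rt k u - rt k z) = nrm (u - z)`).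
`pr2_via` on both sides. -/
theorem pr2_locE_rot (L : Lat) (σ k : ℤ) (x z : Pt) (Q : Set Pt) (b : Bool) (D : ℤ) (t : ℝ) :
    pr2 (kt t) (((L.rots σ).shift x).LocE (rt k '' Q) b (rt k z) D) =
      pr2 (kt t) (((L.rots (σ + k)).shift (rt (-k) x)).LocE Q b z D) := by
  set e : Equiv.Perm Pt := rt σ * Equiv.addRight x with he
  set e' : Equiv.Perm Pt := rt (σ + k) * Equiv.addRight (rt (-k) x) with he'
  have hT := tr_rotshift L σ x
  have hT' := tr_rotshift L (σ + k) (rt (-k) x)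
  have hloc : ∀ (M : Lat) (Q' : Set Pt) (y : Pt), Loc (M.LocE Q' b y D) := by
    intro M Q' y
    refine loc_of_dep ?_ (Lat.locE_dep M Q' b y D)
    refine Set.Finite.subset (annAt_finite y (-1) D) ?_
    rintro u ⟨hu, _⟩
    have h0 : 0 ≤ nrm (u - y) := nrm_nonneg' _
    exact ⟨by omega, hu⟩
  have h1 := pr2_via (hloc ((L.rots σ).shift x) (rt k '' Q) (rt k z)) e (kt t)
  have h2 := pr2_via (hloc ((L.rots (σ + k)).shift (rt (-k) x)) Q z) e' (kt t)
  have k1 : (fun v => kt t (e v)) = kt t := rfl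
  have k2 : (fun v => kt t (e' v)) = kt t := rfl
  rw [k1] at h1
  rw [k2] at h2
  rw [← h1, ← h2]
  congr 1
  funext ω
  have a1 : ∀ A : Set Pt, e' '' A = e '' (rt k '' A) := fun A => ttq1_img σ k x A
  have i1 : rt k '' (annAt z 0 D ∩ Q) = annAt (rt k z) 0 D ∩ rt k '' Q := by
    rw [Set.image_inter (rt k).injective]
    congr 1
    exact ttq1_rtimg k z (fun m => 0 < m ∧ m ≤ D)
  have i2 : rt k '' bxAt z 0 = bxAt (rt k z) 0 := ttq1_rtimg k z (fun m => m ≤ 0)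
  have i3 : rt k '' rngAt z D = rngAt (rt k z) D := ttq1_rtimg k z (fun m => m = D)
  have key : ((L.rots σ).shift x).TwoD (rt k '' Q) b (rt k z) 0 D (via e ω) ↔
      ((L.rots (σ + k)).shift (rt (-k) x)).TwoD Q b z 0 D (via e' ω) := by
    unfold Lat.TwoD
    rw [Tr.two hT, Tr.two hT', Tr.nb hT, Tr.nb hT', a1, a1, a1, i1, i2, i3]
  unfold Lat.LocE
  exact propext (imp_congr_right fun _ => key)

/-- CORNER.  Let `v ∈ H`, `8 D ≤ nrm v`, `nrm v = max v.1 v.2` (both are `≥ 0`).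
If `v.2 ≤ v.1`: for `z ∈ bxAt v D`, `z.1 ≥ v.1 - D ≥ 1`, so `z ∈ H ↔ z ∈ upH 0 H` (`rt_zero`; if `z.2 ≥ 1` both are true, if `z.2 < 0` both are false); `locE_congr`;
take `σ' = σ`, `x' = x`, `v' = v`.
If `v.1 < v.2`: `v = rt 3 v'` with `v' = (-v.2, v.1)` (`rt_three`), and for `z ∈ bxAt v D`: `z.2 ≥ 1` and `z = rt 3 z'` with `z' = (-z.2, z.1)`, so
`z ∈ H ↔ z' ∈ upH 3 H`, i.e. `z ∈ rt 3 '' upH 3 H`; `locE_congr` and `pr2_locE_rot` with `k = 3`.
(If `nrm v = 0` then `D ≤ 0` and both events are always true; for `D ≥ 1` we have `nrm v ≥ 8`.) -/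
theorem locE_corner (L : Lat) (σ : ℤ) (x : Pt) {H : Set Pt} (hH : QuartLike H) (b : Bool)
    {v : Pt} {D : ℤ} (hv : v ∈ H) (hD : 1 ≤ D) (hD8 : 8 * D ≤ nrm v) (t : ℝ) :
    ∃ (σ' : ℤ) (x' : Pt) (H' : Set Pt) (v' : Pt), HalfLike H' ∧ v'.2 = min v.1 v.2 ∧
      pr2 (kt t) (((L.rots σ).shift x).LocE H b v D) =
        pr2 (kt t) (((L.rots σ').shift x').LocE H' b v' D) := by
  obtain ⟨hv1, hv2⟩ := hH.2 hv
  have hn : nrm v = max v.1 v.2 := by
    unfold nrm
    rw [abs_of_nonneg hv1, abs_of_nonneg hv2]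
  have hz : ∀ z ∈ bxAt v D, v.1 - D ≤ z.1 ∧ v.2 - D ≤ z.2 := by
    intro z hz
    have h1 : nrm (z - v) ≤ D := hz
    obtain ⟨h2, h3⟩ := abs_nrm (z - v)
    have h4 := abs_le.1 (h2.trans h1)
    have h5 := abs_le.1 (h3.trans h1)
    have e1 : (z - v).1 = z.1 - v.1 := rfl
    have e2 : (z - v).2 = z.2 - v.2 := rfl
    rw [e1] at h4
    rw [e2] at h5
    exact ⟨by omega, by omega⟩
  rcases le_or_gt v.2 v.1 with hle | hlt
  · refine ⟨σ, x, upH 0 H, v, halfLike_upH 0 H, (min_eq_right hle).symm, ?_⟩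
    rw [hn, max_eq_left hle] at hD8
    congr 1
    funext ω
    refine propext (locE_congr _ b (fun z hzb => ?_) ω)
    have h1 := (hz z hzb).1
    have hz1 : 1 ≤ z.1 := by omega
    constructor
    · intro hzH
      refine ⟨(hH.2 hzH).2, Or.inr ?_⟩
      rw [rt_zero]
      exact hzH
    · rintro ⟨_, h3 | h3⟩
      · exact hH.1 ⟨hz1, h3⟩
      · rwa [rt_zero] at h3
  · rw [hn, max_eq_right hlt.le] at hD8
    refine ⟨σ + 3, rt (-3) x, upH 3 H, (-v.2, v.1), halfLike_upH 3 H, (min_eq_left hlt.le).symm, ?_⟩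
    rw [← pr2_locE_rot L σ 3 x (-v.2, v.1) (upH 3 H) b D t]
    have e3 : rt 3 ((-v.2, v.1) : Pt) = v := by
      rw [rt_three]
      simp
    rw [e3]
    congr 1
    funext ω
    refine propext (locE_congr _ b (fun z hzb => ?_) ω)
    have h1 := (hz z hzb).2
    have hz2 : 1 ≤ z.2 := by omega
    have e4 : rt 3 ((-z.2, z.1) : Pt) = z := by
      rw [rt_three]
      simp
    constructor
    · intro hzH
      refine ⟨(-z.2, z.1), ⟨(hH.2 hzH).1, Or.inr ?_⟩, e4⟩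
      rw [e4]
      exact hzH
    · rintro ⟨w, ⟨hw1, hw2⟩, hwz⟩
      rw [rt_three] at hwz
      rcases hw2 with hw2 | hw2
      · refine hH.1 ⟨?_, hz2⟩
        rw [← hwz]
        exact hw2
      · rw [rt_three, hwz] at hw2
        exact hw2

end SC
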