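import Pool.Agent.Lib_MP_e0a489.TTH8
import Pool.Agent.Lib_MP_e0a489.TTHS
import Pool.Agent.Lib_MP_e0a489.TTK9
import Pool.Agent.Lib_MP_e0a489.TTQ2

/-!
# MP_e0a489, module TTH: half plane and corner from `KBHOK`
-/

set_option autoImplicit false

namespace SC

variable [IfL] [IfX]

open Classical

/-- All the hypotheses of `half_of` and `quart_of` with common constants. -/
theorem tth_data {L : Lat} {κ : ℕ → ℝ} (h : Fam L κ) {x₀ : Pt}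
    (hc : ∀ m : ℤ, 8 ≤ m → CoreOK (L.shift x₀) m)
    (hk : ∃ R₁ : ℤ, 16 ≤ R₁ ∧ ∀ R₀ : ℤ, R₁ ≤ R₀ → ∃ C c : ℝ, 1 ≤ C ∧ 0 < c ∧ c ≤ 1 / 2 ∧
      KBHOK L C c R₀) :
    ∃ R₁ : ℤ, 16 ≤ R₁ ∧ ∀ R₀ : ℤ, R₁ ≤ R₀ → ∃ C Cb Ch C₃ c : ℝ, HProps L C R₀ ∧
      (0 < c ∧ c ≤ 1 / 2) ∧ 0 < C₃ ∧ ScaleOK L C₃ R₀ ∧ LBKOK L Cb c R₀ ∧ KBHOK L Ch c R₀ ∧
      0 ≤ Cb ∧ 1 ≤ Ch := by
  obtain ⟨R1, hR1, h1⟩ := tt_kb h hc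
  obtain ⟨C, c, R2, h2⟩ := TT.tp_ex h
  obtain ⟨Cp, R3, hCp, hR3, h3⟩ := hprops κ
  obtain ⟨R4, hR4, h4⟩ := hk
  refine ⟨max (max R1 R2) (max R3 R4), hR1.trans ((le_max_left _ _).trans (le_max_left _ _)),
    fun R₀ hR₀ => ?_⟩
  have r1 : R1 ≤ R₀ := ((le_max_left _ _).trans (le_max_left _ _)).trans hR₀
  have r2 : R2 ≤ R₀ := ((le_max_right _ _).trans (le_max_left _ _)).trans hR₀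
  have r3 : R3 ≤ R₀ := ((le_max_left _ _).trans (le_max_right _ _)).trans hR₀
  have r4 : R4 ≤ R₀ := ((le_max_right _ _).trans (le_max_right _ _)).trans hR₀
  obtain ⟨C₁, c₁, hC₁, hc₁, hc₁', hkb⟩ := h1 R₀ r1
  have hp : TT.TP L C c R₀ := h2 R₀ r2
  have hP : HProps L Cp R₀ := h3 L h R₀ r3
  obtain ⟨Ch, ch, hCh, hch, hch', hkh⟩ := h4 R₀ r4
  have hR : 16 ≤ R₀ := hR1.trans r1
  have hR1' : (1 : ℤ) ≤ R₀ := by omega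
  have hC : 1 ≤ C := hp.ap.C1
  have hlb := lbkok_of hp hC₁ hc₁.le hkb
  have hR0 : (0 : ℝ) < R₀ := by
    have : (0 : ℤ) < R₀ := by omega
    exact_mod_cast this
  have hCC : 0 ≤ C * C₁ := by positivity
  refine ⟨Cp, C * C₁, Ch, 4 * (R₀ : ℝ) ^ 2, min c₁ ch, hP, ⟨lt_min hc₁ hch, ?_⟩, by positivity,
    scaleOK_of hp, ?_, ?_, hCC, hCh⟩
  · exact (min_le_left _ _).trans hc₁'
  · have h0 : 0 ≤ 2 + min c₁ ch := by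
      have := lt_min hc₁ hch
      linarith
    exact hlb.mono hR1' le_rfl hCC (min_le_left _ _) h0
      fun ℓ hℓ => (hp.ap.pos R₀ ℓ le_rfl hℓ).le
  · have h0 : 0 ≤ 1 + min c₁ ch := by
      have := lt_min hc₁ hch
      linarith
    exact hkh.mono hR1' le_rfl (by linarith) (min_le_right _ _) h0

theorem tt_half_of {L : Lat} {κ : ℕ → ℝ} (h : Fam L κ) {x₀ : Pt}
    (hc : ∀ m : ℤ, 8 ≤ m → CoreOK (L.shift x₀) m)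
    (hk : ∃ R₁ : ℤ, 16 ≤ R₁ ∧ ∀ R₀ : ℤ, R₁ ≤ R₀ → ∃ C c : ℝ, 1 ≤ C ∧ 0 < c ∧ c ≤ 1 / 2 ∧
      KBHOK L C c R₀) :
    ∃ R₁ : ℤ, 16 ≤ R₁ ∧ ∀ R₀ : ℤ, R₁ ≤ R₀ → ∃ (M : ℝ) (Λ : ℤ), 0 < M ∧ 1 ≤ Λ ∧
      HalfOK L M Λ R₀ := by
  obtain ⟨R1, hR1, h1⟩ := tth_data h hc hk
  refine ⟨R1, hR1, fun R₀ hR₀ => ?_⟩
  obtain ⟨C, Cb, Ch, C₃, c, hP, hc', hC₃, hS, hb, hh, hCb, hCh⟩ := h1 R₀ hR₀
  exact half_of hP (hR1.trans hR₀) hc' hC₃ hS hb hh hCb hCh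

theorem tt_quart_of {L : Lat} {κ : ℕ → ℝ} (h : Fam L κ) {x₀ : Pt}
    (hc : ∀ m : ℤ, 8 ≤ m → CoreOK (L.shift x₀) m)
    (hk : ∃ R₁ : ℤ, 16 ≤ R₁ ∧ ∀ R₀ : ℤ, R₁ ≤ R₀ → ∃ C c : ℝ, 1 ≤ C ∧ 0 < c ∧ c ≤ 1 / 2 ∧
      KBHOK L C c R₀) :
    ∃ R₁ : ℤ, 16 ≤ R₁ ∧ ∀ R₀ : ℤ, R₁ ≤ R₀ → ∃ (M : ℝ) (Λ : ℤ), 0 < M ∧ 1 ≤ Λ ∧
      QuartOK L M Λ R₀ := by
  obtain ⟨R1, hR1, h1⟩ := tth_data h hc hk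
  refine ⟨R1, hR1, fun R₀ hR₀ => ?_⟩
  obtain ⟨C, Cb, Ch, C₃, c, hP, hc', hC₃, hS, hb, hh, hCb, hCh⟩ := h1 R₀ hR₀
  exact quart_of hP (hR1.trans hR₀) hc' hC₃ hS hb hh hCb hCh

end SC
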