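import Pool.Agent.Lib_MP_e0a489.HL2
import Pool.Agent.Lib_MP_e0a489.TTHF

/-!
# MP_e0a489, module TTH (9f): two-time bound beyond the correlation length, half plane
-/

set_option autoImplicit false

namespace SC

variable [IfL] [IfX]

open Classical

/-- `kbh` with `1 ≤ C` -/
theorem kbh_one {L : Lat} {κ : ℕ → ℝ} (h : Fam L κ) {x₀ : Pt}
    (hc : ∀ m : ℤ, 8 ≤ m → CoreOK (L.shift x₀) m) :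
    ∃ R₁ : ℤ, 16 ≤ R₁ ∧ ∀ R₀ : ℤ, R₁ ≤ R₀ → ∃ C c : ℝ, 1 ≤ C ∧ 0 < c ∧ c ≤ 1 / 2 ∧
      KBHOK L C c R₀ := by
  obtain ⟨R₁, hR₁, h1⟩ := kbh h hc
  refine ⟨R₁, hR₁, fun R₀ hR₀ => ?_⟩
  obtain ⟨C, c, hC, hc0, hc1, hk⟩ := h1 R₀ hR₀
  exact ⟨max C 1, c, le_max_right _ _, hc0, hc1,
    hk.mono (by omega) (le_max_left _ _) hC.le le_rfl (by linarith)⟩

theorem tt_half {L : Lat} {κ : ℕ → ℝ} (h : Fam L κ) {x₀ : Pt}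
    (hc : ∀ m : ℤ, 8 ≤ m → CoreOK (L.shift x₀) m) :
    ∃ R₁ : ℤ, 16 ≤ R₁ ∧ ∀ R₀ : ℤ, R₁ ≤ R₀ → ∃ (M : ℝ) (Λ : ℤ), 0 < M ∧ 1 ≤ Λ ∧
      HalfOK L M Λ R₀ :=
  tt_half_of h hc (kbh_one h hc)

end SC
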