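import Pool.Agent.Lib_MP_e0a489.PF2
import Pool.Agent.Lib_MP_e0a489.SE4

/-!
# MP_e0a489, module TT (9a), loss of a small lag for the separated event
-/

set_option autoImplicit false

namespace SC

namespace TT

open Classical

variable {L : Lat}

/-- The zones of `kz`: `G` contains all sites of `bx (2 R)` with `nrm v ≤ 8 r` or `R / 4 < nrm v` (`exists_annF` with `a = -1`, and
`Finset.filter`). -/
theorem exists_zone (r R : ℤ) : ∃ G : Finset Pt, ∀ v, v ∈ G ↔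
    nrm v ≤ 2 * R ∧ (nrm v ≤ 8 * r ∨ R / 4 < nrm v) := by
  obtain ⟨G, hG⟩ := exists_annF (-1) (2 * R)
  refine ⟨G.filter fun v => nrm v ≤ 8 * r ∨ R / 4 < nrm v, fun v => ?_⟩
  rw [Finset.mem_filter, hG]
  have h0 : 0 ≤ nrm v := by
    unfold nrm
    exact le_trans (abs_nonneg _) (le_max_left _ _)
  constructor
  · exact fun h => ⟨h.1.2, h.2⟩
  · exact fun h => ⟨⟨by omega, h.1⟩, h.2⟩

/-- `h = cpr G (S4 r R)` depends only on the sites with `8 r < nrm v ≤ R / 4` (`Lat.S4.dep`: norms in `(r/2, 2R]`; `Dep.av`). -/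
theorem zone_dep {r R : ℤ} (hr : 0 ≤ r) (hR : r ≤ R) {G : Finset Pt}
    (hG : ∀ v, v ∈ G ↔ nrm v ≤ 2 * R ∧ (nrm v ≤ 8 * r ∨ R / 4 < nrm v)) :
    Dep (cpr G (L.S4 r R)) {v | 8 * r < nrm v ∧ nrm v ≤ R / 4} := by
  have h1 : Dep (SC.av G (ind (L.S4 r R)))
      ({v | r / 2 < nrm v ∧ nrm v ≤ 2 * R} \ (G : Set Pt)) :=
    Dep.av (Dep.ind (Lat.S4.dep L hr hR)) G
  refine Dep.mono h1 (fun v hv => ?_)
  have h2 : nrm v ≤ 2 * R := hv.1.2
  have h3 : ¬ (nrm v ≤ 2 * R ∧ (nrm v ≤ 8 * r ∨ R / 4 < nrm v)) :=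
    fun h => hv.2 (Finset.mem_coe.2 ((hG v).2 h))
  show 8 * r < nrm v ∧ nrm v ≤ R / 4
  by_contra h4
  apply h3
  refine ⟨h2, ?_⟩
  by_contra h5
  exact h4 ⟨by omega, by omega⟩

/-- `pr2 (kz k r R) (S4 r R) = ex2 k h h`: `ex2_av` (`kz k r R = 0` on `G`) and `ex2_congr` (`kz k r R = k` on the sites on which `h` depends). -/
theorem zone_ex2 {r R : ℤ} (hr : 0 ≤ r) (hR : r ≤ R) {G : Finset Pt}
    (hG : ∀ v, v ∈ G ↔ nrm v ≤ 2 * R ∧ (nrm v ≤ 8 * r ∨ R / 4 < nrm v)) (k : Pt → ℝ) :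
    pr2 (kz k r R) (L.S4 r R) = ex2 k (cpr G (L.S4 r R)) (cpr G (L.S4 r R)) := by
  have l1 : Lf (ind (L.S4 r R)) := (Lat.S4.loc L r R).lf
  have l2 : Lf (cpr G (L.S4 r R)) := l1.av G
  have h1 : pr2 (kz k r R) (L.S4 r R) =
      ex2 (kz k r R) (cpr G (L.S4 r R)) (cpr G (L.S4 r R)) := by
    refine ex2_av l1 l1 G (kz k r R) (fun v hv => ?_)
    exact if_pos ((hG v).1 hv).2
  rw [h1]
  refine ex2_congr l2 l2 (zone_dep hr hR hG) (fun v hv => ?_)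
  have h2 : 8 * r < nrm v ∧ nrm v ≤ R / 4 := hv
  exact if_neg (fun h => by omega)

/-- Averaging does not increase the square of the derivative: for `v ∉ G`, `dv v h = av G (dv v f)` (`dv_av`), `f = ind (S4 r R)`; with `k₁ = 1` off
`G`, `0` on `G`: `ex ((dv v h)²) = ex2 1 (dv v h) (dv v h)` (`ex2_one`) `= ex2 k₁ (dv v h) (dv v h)` (`ex2_congr`, `dv v h` does not depend on `G`) `= ex2 k₁ (dv v f) (dv v f)`
(`ex2_av`) `≤ ex2 1 (dv v f) (dv v f)` (`ex2_mono_kappa`) `= ex ((dv v f)²) = (1/4) pr (Piv v (S4 r R))` (`abs_dv_ind`).  General statement for a local event. -/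
theorem dv_av_sq {A : Cfg → Prop} (hA : Loc A) {G : Finset Pt} {v : Pt} (hv : v ∉ G) :
    ex (fun ω => dv v (cpr G A) ω ^ 2) ≤ 1 / 4 * pr (Piv v A) := by
  obtain ⟨F, hF⟩ := hA
  have hd : Dep (dv v (ind A)) (F : Set Pt) :=
    Dep.mono (Dep.dv (Dep.ind hF) v) Set.sdiff_subset
  have ld : Lf (dv v (ind A)) := ⟨F, hd⟩
  have e1 : dv v (cpr G A) = SC.av G (dv v (ind A)) := by
    funext ω
    exact dv_av ⟨F, Dep.ind hF⟩ hv ω
  have hk : ∀ u : Pt, 0 ≤ (if u ∈ G then (0 : ℝ) else 1) ∧ (if u ∈ G then (0 : ℝ) else 1) ≤ 1 := by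
    intro u
    split_ifs
    · exact ⟨le_refl _, zero_le_one⟩
    · exact ⟨zero_le_one, le_refl _⟩
  have h1 := ex2_le_sq ld (fun u => if u ∈ G then (0 : ℝ) else 1) hk
  rw [ex2_av ld ld G (fun u => if u ∈ G then (0 : ℝ) else 1) (fun u hu => if_pos hu),
    ex2_one (ld.av G) (ld.av G) (Dep.av hd G) (fun u => if u ∈ G then (0 : ℝ) else 1)
      (fun u hu => if_neg (fun h => hu.2 (Finset.mem_coe.2 h)))] at h1
  have e2 : (fun ω => dv v (cpr G A) ω ^ 2) =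
      fun ω => SC.av G (dv v (ind A)) ω * SC.av G (dv v (ind A)) ω := by
    funext ω
    rw [e1]
    ring
  rw [e2]
  refine le_trans h1 (le_of_eq ?_)
  have e3 : (fun ω => dv v (ind A) ω ^ 2) = fun ω => 1 / 4 * ind (Piv v A) ω := by
    funext ω
    rw [← sq_abs, abs_dv_ind]
    unfold ind
    split_ifs
    · norm_num
    · norm_num
  rw [e3]
  have lp : Lf (ind (Piv v A)) := ⟨F, Dep.ind (Dep.mono (Dep.piv hF v) Set.sdiff_subset)⟩
  exact ex_smul lp (1 / 4)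

/-- LOSS.  `h` as above, `W` the set of the sites with `8 r < nrm v ≤ R / 4`.  `lag_loss` for `h` and `W`: `ex (h²) ≤ ex2 (kon W (e^-s) 1) h h + s ∑_W ex ((dv v h)²)`;
`ex (h²) = ex2 1 h h = pr2 (kz 1 r R) (S4 r R)` (`ex2_one`, `zone_ex2`), `ex2 (kon W (e^-s) 1) h h = ex2 (kt s) h h` (`ex2_congr`, `zone_dep`) `= pr2 (kz (kt s) r R) (S4 r R)`; `dv_av_sq`. -/
theorem S4_loss {r R : ℤ} (hr : 0 ≤ r) (hR : r ≤ R) {s : ℝ} (hs : 0 ≤ s) {W : Finset Pt}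
    (hW : ∀ v, v ∈ W ↔ 8 * r < nrm v ∧ nrm v ≤ R / 4) :
    pr2 (kz (fun _ => 1) r R) (L.S4 r R) ≤ pr2 (kz (kt s) r R) (L.S4 r R) +
      s * ∑ v ∈ W, 1 / 4 * pr (Piv v (L.S4 r R)) := by
  obtain ⟨G, hG⟩ := exists_zone r R
  have l1 : Lf (ind (L.S4 r R)) := (Lat.S4.loc L r R).lf
  have l2 : Lf (cpr G (L.S4 r R)) := l1.av G
  have hd := zone_dep (L := L) hr hR hG
  rw [zone_ex2 hr hR hG, zone_ex2 hr hR hG,
    ex2_one l2 l2 hd (fun _ => (1 : ℝ)) (fun _ _ => rfl)]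
  have h1 := lag_loss l2 W hs
  have e1 : (fun ω => cpr G (L.S4 r R) ω ^ 2) =
      fun ω => cpr G (L.S4 r R) ω * cpr G (L.S4 r R) ω := by
    funext ω
    ring
  rw [e1] at h1
  have e2 : ex2 (kon W (Real.exp (-s)) fun _ => 1) (cpr G (L.S4 r R)) (cpr G (L.S4 r R)) =
      ex2 (kt s) (cpr G (L.S4 r R)) (cpr G (L.S4 r R)) := by
    refine ex2_congr l2 l2 hd (fun v hv => ?_)
    exact if_pos ((hW v).2 hv)
  rw [e2] at h1
  refine le_trans h1 (add_le_add (le_refl _) (mul_le_mul_of_nonneg_left ?_ hs))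
  refine Finset.sum_le_sum (fun v hv => ?_)
  refine dv_av_sq (Lat.S4.loc L r R) (fun hvG => ?_)
  have h2 := (hW v).1 hv
  have h3 := (hG v).1 hvG
  omega

end TT

end SC
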