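import Pool.Agent.Lib_MP_e0a489.PF1
import Pool.Agent.Lib_MP_e0a489.TT2
import Pool.Agent.Lib_MP_e0a489.TTI1

/-!
# MP_e0a489, module TT (9c), a good scale by the energy inequality
-/

set_option autoImplicit false

namespace SC

variable [IfL] [IfX]

namespace TT

open Classical

/-- the critical time of the scale `m` (times `a`) -/
noncomputable def tm (L : Lat) (R₀ : ℤ) (a : ℝ) (m : ℤ) : ℝ := a / ((m : ℝ) ^ 2 * al L R₀ m)

/-- hypothesis: lower bound for the probability that the sites of one class are pivotal at both times -/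
def PivLow (L : Lat) (R₀ : ℤ) (x₀ : Pt) (a c₃ : ℝ) : Prop :=
  ∀ (m N : ℤ) (s : ℝ) (z : Pt), R₀ ≤ m → 64 * m ≤ N → 0 ≤ s →
    s * ((m : ℝ) ^ 2 * al L R₀ m) ≤ a →
    2 * nrm (x₀.1 + 2 * z.1, x₀.2 + 2 * z.2) ≤ N →
    c₃ * (al L R₀ m * be L s m N) ≤
      pr2 (kt s) (Piv (x₀.1 + 2 * z.1, x₀.2 + 2 * z.2) (L.HX true (-N) N (-N) N))

/-- hypothesis: energy inequality -/
def Energy (L : Lat) : Prop :=
  ∀ (N : ℤ) (V : Finset Pt) (τ : ℕ → ℝ) (n : ℕ), 1 ≤ N → 0 ≤ τ 0 → (∀ i, 2 * τ i ≤ τ (i + 1)) →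
    ∑ i ∈ Finset.range n, τ i * (Real.exp (-(2 * τ i)) * ∑ v ∈ V,
      pr2 (kt (2 * τ i)) (Piv v (L.HX true (-N) N (-N) N))) ≤ 4

variable {L : Lat} {C c : ℝ} {R₀ : ℤ}

/-- The scales `m_i = n / B ^ i`: if `R₀ B ^ K ≤ n` and `i ≤ K`, then `R₀ ≤ m_i`, `n / m_i` is between `B ^ i` and `2 B ^ i`, and `B m_{i+1} ≤ m_i`. -/
theorem scales {B n : ℤ} (hB : 64 ≤ B) (hR : 1 ≤ R₀) {K : ℕ} (hn : R₀ * B ^ K ≤ n) {i : ℕ}
    (hi : i ≤ K) : R₀ ≤ n / B ^ i ∧ (n / B ^ i) * B ^ i ≤ n ∧ n ≤ 2 * ((n / B ^ i) * B ^ i) ∧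
      B * (n / B ^ (i + 1)) ≤ n / B ^ i := by
  have hB0 : 0 < B := by omega
  have hBi : 0 < B ^ i := pow_pos hB0 i
  have hBi1 : 0 < B ^ (i + 1) := pow_pos hB0 (i + 1)
  have h1 : R₀ ≤ n / B ^ i := by
    rw [Int.le_ediv_iff_mul_le hBi]
    refine le_trans ?_ hn
    exact mul_le_mul_of_nonneg_left (pow_le_pow_right₀ (by omega) hi) (by omega)
  have h2 : (n / B ^ i) * B ^ i ≤ n := Int.ediv_mul_le n hBi.ne'
  refine ⟨h1, h2, ?_, ?_⟩
  · have h3 : n < (n / B ^ i + 1) * B ^ i := Int.lt_ediv_add_one_mul_self n hBi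
    have h4 : 1 * B ^ i ≤ (n / B ^ i) * B ^ i :=
      mul_le_mul_of_nonneg_right (by omega) hBi.le
    have h5 : (n / B ^ i + 1) * B ^ i = (n / B ^ i) * B ^ i + 1 * B ^ i := by ring
    rw [h5] at h3
    omega
  · rw [Int.le_ediv_iff_mul_le hBi]
    have h3 : (n / B ^ (i + 1)) * B ^ (i + 1) ≤ n := Int.ediv_mul_le n hBi1.ne'
    calc B * (n / B ^ (i + 1)) * B ^ i = (n / B ^ (i + 1)) * B ^ (i + 1) := by ring
      _ ≤ n := h3

private theorem ttk1_pos (hp : TP L C c R₀) {m : ℤ} (h : R₀ ≤ m) :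
    0 < (m : ℝ) ∧ 0 < al L R₀ m ∧ 0 < (m : ℝ) ^ 2 * al L R₀ m := by
  have h16 := hp.ap.R16
  have hm : (0 : ℝ) < (m : ℝ) := by exact_mod_cast (by omega : (0 : ℤ) < m)
  have ha := hp.ap.pos R₀ m le_rfl h
  exact ⟨hm, ha, by positivity⟩

/-- The critical times at least double from one scale to the next one if `B ^ c ≥ 2 C ^ 2` (`TP.growth` with `n / m ≥ B`). -/
theorem tm_double (hp : TP L C c R₀) {a : ℝ} (ha : 0 < a) {B m m' : ℤ} (h1 : R₀ ≤ m')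
    (h2 : B * m' ≤ m) (hB : 1 ≤ B) (hBc : 2 * C ^ 2 ≤ (B : ℝ) ^ c) :
    2 * tm L R₀ a m ≤ tm L R₀ a m' := by
  have h16 := hp.ap.R16
  have hC := hp.ap.C1
  have hm' : m' ≤ m := le_trans (by nlinarith) h2
  obtain ⟨p1, p2, p3⟩ := ttk1_pos hp h1
  obtain ⟨q1, q2, q3⟩ := ttk1_pos hp (h1.trans hm')
  have hg := hp.growth h1 hm'
  have hB0 : (0 : ℝ) ≤ (B : ℝ) := by exact_mod_cast (by omega : (0 : ℤ) ≤ B)
  have hBm : (B : ℝ) ≤ (m : ℝ) / m' := by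
    rw [le_div_iff₀ p1]
    exact_mod_cast h2
  have hpow : 2 * C ^ 2 ≤ ((m : ℝ) / m') ^ c :=
    hBc.trans (Real.rpow_le_rpow hB0 hBm hp.c0.le)
  have h3 : ((m' : ℝ) ^ 2 * al L R₀ m') * (2 * C ^ 2) ≤ C ^ 2 * ((m : ℝ) ^ 2 * al L R₀ m) :=
    le_trans (mul_le_mul_of_nonneg_left hpow p3.le) hg
  have hC2 : 0 < C ^ 2 := by positivity
  have h4 : 2 * ((m' : ℝ) ^ 2 * al L R₀ m') ≤ (m : ℝ) ^ 2 * al L R₀ m := by
    refine le_of_mul_le_mul_left ?_ hC2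
    calc C ^ 2 * (2 * ((m' : ℝ) ^ 2 * al L R₀ m')) = ((m' : ℝ) ^ 2 * al L R₀ m') * (2 * C ^ 2) := by
          ring
      _ ≤ _ := h3
  unfold tm
  rw [mul_div_assoc', div_le_div_iff₀ q3 p3]
  calc 2 * a * ((m' : ℝ) ^ 2 * al L R₀ m') = a * (2 * ((m' : ℝ) ^ 2 * al L R₀ m')) := by ring
    _ ≤ a * ((m : ℝ) ^ 2 * al L R₀ m) := mul_le_mul_of_nonneg_left h4 ha.le

/-- `TP.growth0` -/
theorem tm_le (hp : TP L C c R₀) {a : ℝ} (ha : 0 < a) {m : ℤ} (h1 : R₀ ≤ m) :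
    tm L R₀ a m ≤ a * C ^ 2 := by
  obtain ⟨p1, p2, p3⟩ := ttk1_pos hp h1
  have hg := hp.growth0 h1
  unfold tm
  rw [div_le_iff₀ p3]
  calc a = a * 1 := (mul_one a).symm
    _ ≤ a * (C ^ 2 * ((m : ℝ) ^ 2 * al L R₀ m)) := mul_le_mul_of_nonneg_left hg ha.le
    _ = a * C ^ 2 * ((m : ℝ) ^ 2 * al L R₀ m) := by ring

/-- SUM OVER THE SCALES.  Apply the energy inequality with `N = n`, `V` from `class_card x₀` (at least `n ^ 2 / 16` sites), and a sequence of times with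
`τ i = tm L R₀ a (n / B ^ (i + 1)) / 2` for `i < K` (continue it by doubling: `τ i = 2 ^ (i + 1 - K) τ (K - 1)` for `i ≥ K`; `tm_double`).  For `i < K`, `m = n / B ^ (i + 1)`,
`s = 2 τ i = tm L R₀ a m`: `s m ^ 2 al L R₀ m = a`, `64 m ≤ n`, so every `v ∈ V` has `pr2 (kt s) (Piv v ..) ≥ c₃ al L R₀ m be L s m n`; `exp (-s) ≥ exp (-a C ^ 2)` (`tm_le`).  The
term number `i` is at least `(a / (2 m ^ 2 al)) exp (-a C ^ 2) (n ^ 2 / 16) c₃ al be = C₄⁻¹ 4 (n / m) ^ 2 be` with `C₄ = 128 exp (a C ^ 2) / (a c₃)`. -/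
theorem scale_sum (hp : TP L C c R₀) {x₀ : Pt} {a c₃ : ℝ} (ha : 0 < a) (hc₃ : 0 < c₃)
    (hlow : PivLow L R₀ x₀ a c₃) (hen : Energy L) {B : ℤ} (hB : 64 ≤ B)
    (hBc : 2 * C ^ 2 ≤ (B : ℝ) ^ c) {K : ℕ} {n : ℤ} (hn : R₀ * B ^ K ≤ n) :
    ∑ i ∈ Finset.range K, ((n : ℝ) / ((n / B ^ (i + 1) : ℤ) : ℝ)) ^ 2 *
      be L (tm L R₀ a (n / B ^ (i + 1))) (n / B ^ (i + 1)) n ≤
        128 * Real.exp (a * C ^ 2) / (a * c₃) := by
  have h16 := hp.ap.R16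
  have hC := hp.ap.C1
  rcases Nat.eq_zero_or_pos K with hK0 | hK0
  · rw [hK0, Finset.sum_range_zero]
    positivity
  have hR1 : 1 ≤ R₀ := by omega
  have hsc : ∀ i, i < K → R₀ ≤ n / B ^ (i + 1) ∧ 64 * (n / B ^ (i + 1)) ≤ n := by
    intro i hi
    obtain ⟨h1, h2, -, -⟩ := scales hB hR1 hn (i := i + 1) (by omega)
    refine ⟨h1, le_trans ?_ h2⟩
    rw [mul_comm]
    apply mul_le_mul_of_nonneg_left _ (by omega)
    calc (64 : ℤ) ≤ B := hB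
      _ = B ^ 1 := (pow_one B).symm
      _ ≤ B ^ (i + 1) := pow_le_pow_right₀ (by omega) (by omega)
  have hn16 : 16 ≤ n := by
    have h1 := hsc 0 hK0
    omega
  obtain ⟨V, hV, hVc⟩ := class_card x₀ hn16
  let T : ℕ → ℝ := fun j => tm L R₀ a (n / B ^ (j + 1)) / 2
  let τ : ℕ → ℝ := fun i => 2 ^ (i - min i (K - 1)) * T (min i (K - 1))
  have hT0 : ∀ j, j < K → 0 ≤ T j := by
    intro j hj
    obtain ⟨p1, p2, p3⟩ := ttk1_pos hp (hsc j hj).1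
    show 0 ≤ tm L R₀ a (n / B ^ (j + 1)) / 2
    unfold tm
    positivity
  have hτi : ∀ i, i < K → τ i = T i := by
    intro i hi
    have h1 : min i (K - 1) = i := by omega
    show 2 ^ (i - min i (K - 1)) * T (min i (K - 1)) = T i
    rw [h1, Nat.sub_self, pow_zero, one_mul]
  have hτ0 : 0 ≤ τ 0 := by
    rw [hτi 0 hK0]
    exact hT0 0 hK0
  have hτ2 : ∀ i, 2 * τ i ≤ τ (i + 1) := by
    intro i
    by_cases hi : i + 1 < K
    · rw [hτi i (by omega), hτi (i + 1) hi]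
      show 2 * (tm L R₀ a (n / B ^ (i + 1)) / 2) ≤ tm L R₀ a (n / B ^ (i + 1 + 1)) / 2
      obtain ⟨-, -, -, h4⟩ := scales hB hR1 hn (i := i + 1) (by omega)
      have h5 := tm_double hp ha (hsc (i + 1) hi).1 h4 (by omega) hBc
      linarith
    · have h1 : min i (K - 1) = K - 1 := by omega
      have h2 : min (i + 1) (K - 1) = K - 1 := by omega
      have h3 : i + 1 - (K - 1) = (i - (K - 1)) + 1 := by omega
      show 2 * (2 ^ (i - min i (K - 1)) * T (min i (K - 1))) ≤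
        2 ^ (i + 1 - min (i + 1) (K - 1)) * T (min (i + 1) (K - 1))
      rw [h1, h2, h3, pow_succ]
      apply le_of_eq
      ring
  have hE := hen n V τ K (by omega) hτ0 hτ2
  have hterm : ∀ i ∈ Finset.range K,
      a * c₃ / 32 * Real.exp (-(a * C ^ 2)) * (((n : ℝ) / ((n / B ^ (i + 1) : ℤ) : ℝ)) ^ 2 *
        be L (tm L R₀ a (n / B ^ (i + 1))) (n / B ^ (i + 1)) n) ≤
      τ i * (Real.exp (-(2 * τ i)) * ∑ v ∈ V,
        pr2 (kt (2 * τ i)) (Piv v (L.HX true (-n) n (-n) n))) := by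
    intro i hi
    have hiK := Finset.mem_range.1 hi
    obtain ⟨h1, h2⟩ := hsc i hiK
    have h2τ : 2 * τ i = tm L R₀ a (n / B ^ (i + 1)) := by
      rw [hτi i hiK]
      show 2 * (tm L R₀ a (n / B ^ (i + 1)) / 2) = _
      ring
    obtain ⟨m, hm⟩ : ∃ m : ℤ, m = n / B ^ (i + 1) := ⟨_, rfl⟩
    rw [← hm] at h1 h2 h2τ ⊢
    obtain ⟨p1, p2, p3⟩ := ttk1_pos hp h1
    obtain ⟨s, hs⟩ : ∃ s : ℝ, s = tm L R₀ a m := ⟨_, rfl⟩
    rw [← hs] at h2τ ⊢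
    have hτs : τ i = s / 2 := by linarith
    have hsm : s * ((m : ℝ) ^ 2 * al L R₀ m) = a := by
      rw [hs]
      unfold tm
      exact div_mul_cancel₀ a p3.ne'
    have hs0 : 0 ≤ s := by
      rw [hs]
      unfold tm
      positivity
    have hsC : s ≤ a * C ^ 2 := by
      rw [hs]
      exact tm_le hp ha h1
    have hbe := be_nonneg L hs0 m n
    have hsum : (n : ℝ) ^ 2 / 16 * (c₃ * (al L R₀ m * be L s m n)) ≤
        ∑ v ∈ V, pr2 (kt s) (Piv v (L.HX true (-n) n (-n) n)) := by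
      calc (n : ℝ) ^ 2 / 16 * (c₃ * (al L R₀ m * be L s m n))
          ≤ (V.card : ℝ) * (c₃ * (al L R₀ m * be L s m n)) :=
            mul_le_mul_of_nonneg_right hVc (by positivity)
        _ = ∑ _v ∈ V, c₃ * (al L R₀ m * be L s m n) := by
            rw [Finset.sum_const, nsmul_eq_mul]
        _ ≤ _ := by
            refine Finset.sum_le_sum fun v hv => ?_
            obtain ⟨h3, z, hz⟩ := hV v hv
            have h4 := hlow m n s z h1 h2 hs0 hsm.le (by rw [← hz]; exact h3)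
            rw [← hz] at h4
            exact h4
    rw [h2τ, hτs]
    have hexp : Real.exp (-(a * C ^ 2)) ≤ Real.exp (-s) := Real.exp_le_exp.2 (by linarith)
    have hn0 : (0 : ℝ) < (n : ℝ) := by exact_mod_cast (by omega : (0 : ℤ) < n)
    have hal : (m : ℝ) ^ 2 * al L R₀ m ≠ 0 := p3.ne'
    calc a * c₃ / 32 * Real.exp (-(a * C ^ 2)) * (((n : ℝ) / (m : ℝ)) ^ 2 * be L s m n)
        = s / 2 * (Real.exp (-(a * C ^ 2)) *
            ((n : ℝ) ^ 2 / 16 * (c₃ * (al L R₀ m * be L s m n)))) := by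
          rw [← hsm]
          field_simp
          ring
      _ ≤ s / 2 * (Real.exp (-s) *
            ∑ v ∈ V, pr2 (kt s) (Piv v (L.HX true (-n) n (-n) n))) := by
          apply mul_le_mul_of_nonneg_left _ (by linarith)
          exact mul_le_mul hexp hsum (by positivity) (Real.exp_pos _).le
  have hsum := Finset.sum_le_sum hterm
  rw [← Finset.mul_sum] at hsum
  have h5 := hsum.trans hE
  have hexp : Real.exp (-(a * C ^ 2)) * Real.exp (a * C ^ 2) = 1 := by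
    rw [← Real.exp_add]
    simp
  rw [le_div_iff₀ (by positivity)]
  obtain ⟨S, hS⟩ : ∃ S : ℝ, S = ∑ i ∈ Finset.range K, ((n : ℝ) / ((n / B ^ (i + 1) : ℤ) : ℝ)) ^ 2 *
      be L (tm L R₀ a (n / B ^ (i + 1))) (n / B ^ (i + 1)) n := ⟨_, rfl⟩
  rw [← hS] at h5 ⊢
  have h6 := mul_le_mul_of_nonneg_right h5 (Real.exp_pos (a * C ^ 2)).le
  calc S * (a * c₃) = 32 * (a * c₃ / 32 * (Real.exp (-(a * C ^ 2)) * Real.exp (a * C ^ 2)) * S) := by
        rw [hexp]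
        ring
    _ = 32 * (a * c₃ / 32 * Real.exp (-(a * C ^ 2)) * S * Real.exp (a * C ^ 2)) := by ring
    _ ≤ 32 * (4 * Real.exp (a * C ^ 2)) := by linarith
    _ = 128 * Real.exp (a * C ^ 2) := by ring

/-- GOOD SCALE: one of the `K` terms is at most the `K`-th part of the sum (`Finset.exists_le_of_sum_le` or contradiction), `K ≥ 1`,
`128 exp (a C ^ 2) / (a c₃) ≤ K / 2`. -/
theorem good_scale (hp : TP L C c R₀) {x₀ : Pt} {a c₃ : ℝ} (ha : 0 < a) (hc₃ : 0 < c₃)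
    (hlow : PivLow L R₀ x₀ a c₃) (hen : Energy L) {B : ℤ} (hB : 64 ≤ B)
    (hBc : 2 * C ^ 2 ≤ (B : ℝ) ^ c) {K : ℕ} (hK : 128 * Real.exp (a * C ^ 2) / (a * c₃) ≤ K / 2)
    (hK1 : 1 ≤ K) {n : ℤ} (hn : R₀ * B ^ K ≤ n) :
    ∃ m : ℤ, n ≤ 2 * (m * B ^ K) ∧ 64 * m ≤ n ∧ R₀ ≤ m ∧
      be L (tm L R₀ a m) m n ≤ 1 / 2 * ((m : ℝ) / n) ^ 2 := by
  by_contra hcon
  have h16 := hp.ap.R16
  have hR1 : 1 ≤ R₀ := by omega
  have hsum := scale_sum hp ha hc₃ hlow hen hB hBc hn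
  have hlt : ∀ i ∈ Finset.range K, (1 / 2 : ℝ) <
      ((n : ℝ) / ((n / B ^ (i + 1) : ℤ) : ℝ)) ^ 2 *
      be L (tm L R₀ a (n / B ^ (i + 1))) (n / B ^ (i + 1)) n := by
    intro i hi
    have hiK := Finset.mem_range.1 hi
    obtain ⟨h1, h2, h3, -⟩ := scales hB hR1 hn (i := i + 1) (by omega)
    obtain ⟨m, hm⟩ : ∃ m : ℤ, m = n / B ^ (i + 1) := ⟨_, rfl⟩
    rw [← hm] at h1 h2 h3 ⊢
    have hBK : B ^ (i + 1) ≤ B ^ K := pow_le_pow_right₀ (by omega) (by omega)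
    have h64 : 64 * m ≤ n := by
      refine le_trans ?_ h2
      rw [mul_comm]
      apply mul_le_mul_of_nonneg_left _ (by omega)
      calc (64 : ℤ) ≤ B := hB
        _ = B ^ 1 := (pow_one B).symm
        _ ≤ B ^ (i + 1) := pow_le_pow_right₀ (by omega) (by omega)
    have h4 : n ≤ 2 * (m * B ^ K) := by
      have h5 : m * B ^ (i + 1) ≤ m * B ^ K := mul_le_mul_of_nonneg_left hBK (by omega)
      omega
    have h6 : 1 / 2 * ((m : ℝ) / n) ^ 2 < be L (tm L R₀ a m) m n := by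
      by_contra h7
      exact hcon ⟨m, h4, h64, h1, not_lt.1 h7⟩
    have hm0 : (0 : ℝ) < (m : ℝ) := by exact_mod_cast (by omega : (0 : ℤ) < m)
    have hn0 : (0 : ℝ) < (n : ℝ) := by exact_mod_cast (by omega : (0 : ℤ) < n)
    have h8 : ((n : ℝ) / m) ^ 2 * (1 / 2 * ((m : ℝ) / n) ^ 2) = 1 / 2 := by
      field_simp
    rw [← h8]
    exact mul_lt_mul_of_pos_left h6 (by positivity)
  have hne : (Finset.range K).Nonempty := Finset.nonempty_range_iff.2 (by omega)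
  have h9 := Finset.sum_lt_sum_of_nonempty hne hlt
  rw [Finset.sum_const, Finset.card_range, nsmul_eq_mul] at h9
  linarith

end TT

end SC
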