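import Pool.Agent.Lib_MP_e0a489.TB2
import Pool.Agent.Lib_MP_e0a489.TE3
import Pool.Agent.Lib_MP_e0a489.XPD

/-!
# MP_e0a489, exponents 7: box events and core events (topology)
-/

set_option autoImplicit false

namespace SC

namespace XP

open Classical

variable {L : Lat}

private theorem img_rt7 {s : ℤ} {A B : Set Pt} {f g : Pt → Pt} (h : ∀ v, rt s v = f v)
    (h1 : ∀ v ∈ A, f v ∈ B) (h2 : ∀ v ∈ B, g v ∈ A ∧ f (g v) = v) : rt s '' A = B := by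
  ext v
  constructor
  · rintro ⟨w, hw, rfl⟩
    rw [h w]
    exact h1 w hw
  · intro hv
    obtain ⟨h3, h4⟩ := h2 v hv
    refine ⟨g v, h3, ?_⟩
    rw [h (g v), h4]

/-- the four inner zones in coordinates (`rt_zero`, ..., `rt_three`) -/
theorem K_zero (r : ℤ) : K 0 r = rect (r / 2 + 1) r (-(r / 8)) (r / 8) := by
  exact img_rt7 (f := fun v => v) (g := fun v => v) rt_zero (fun v hv => hv) (fun v hv => ⟨hv, rfl⟩)

theorem K_two (r : ℤ) : K 2 r = rect (-r) (-(r / 2) - 1) (-(r / 8)) (r / 8) := by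
  refine img_rt7 (f := fun v => (-v.1, -v.2)) (g := fun v => (-v.1, -v.2)) rt_two ?_ ?_
  · rintro v ⟨⟨h1, h2⟩, h3, h4⟩
    refine ⟨⟨?_, ?_⟩, ?_, ?_⟩ <;> simp only <;> omega
  · rintro v ⟨⟨h1, h2⟩, h3, h4⟩
    refine ⟨⟨⟨?_, ?_⟩, ?_, ?_⟩, ?_⟩
    · simp only; omega
    · simp only; omega
    · simp only; omega
    · simp only; omega
    · simp

theorem K_one (r : ℤ) : K 1 r = rect (-(r / 8)) (r / 8) (r / 2 + 1) r := by
  refine img_rt7 (f := fun v => (-v.2, v.1)) (g := fun v => (v.2, -v.1)) rt_one ?_ ?_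
  · rintro v ⟨⟨h1, h2⟩, h3, h4⟩
    refine ⟨⟨?_, ?_⟩, ?_, ?_⟩ <;> simp only <;> omega
  · rintro v ⟨⟨h1, h2⟩, h3, h4⟩
    refine ⟨⟨⟨?_, ?_⟩, ?_, ?_⟩, ?_⟩
    · simp only; omega
    · simp only; omega
    · simp only; omega
    · simp only; omega
    · simp

theorem K_three (r : ℤ) : K 3 r = rect (-(r / 8)) (r / 8) (-r) (-(r / 2) - 1) := by
  refine img_rt7 (f := fun v => (v.2, -v.1)) (g := fun v => (-v.2, v.1)) rt_three ?_ ?_
  · rintro v ⟨⟨h1, h2⟩, h3, h4⟩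
    refine ⟨⟨?_, ?_⟩, ?_, ?_⟩ <;> simp only <;> omega
  · rintro v ⟨⟨h1, h2⟩, h3, h4⟩
    refine ⟨⟨⟨?_, ?_⟩, ?_, ?_⟩, ?_⟩
    · simp only; omega
    · simp only; omega
    · simp only; omega
    · simp only; omega
    · simp

theorem Ks_zero (r : ℤ) : Ks 0 r = rect (r / 2 + 1) (r / 2 + 1) (-(r / 8)) (r / 8) := by
  exact img_rt7 (f := fun v => v) (g := fun v => v) rt_zero (fun v hv => hv) (fun v hv => ⟨hv, rfl⟩)

theorem Ks_two (r : ℤ) : Ks 2 r = rect (-(r / 2) - 1) (-(r / 2) - 1) (-(r / 8)) (r / 8) := by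
  refine img_rt7 (f := fun v => (-v.1, -v.2)) (g := fun v => (-v.1, -v.2)) rt_two ?_ ?_
  · rintro v ⟨⟨h1, h2⟩, h3, h4⟩
    refine ⟨⟨?_, ?_⟩, ?_, ?_⟩ <;> simp only <;> omega
  · rintro v ⟨⟨h1, h2⟩, h3, h4⟩
    refine ⟨⟨⟨?_, ?_⟩, ?_, ?_⟩, ?_⟩
    · simp only; omega
    · simp only; omega
    · simp only; omega
    · simp only; omega
    · simp

theorem Ks_one (r : ℤ) : Ks 1 r = rect (-(r / 8)) (r / 8) (r / 2 + 1) (r / 2 + 1) := by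
  refine img_rt7 (f := fun v => (-v.2, v.1)) (g := fun v => (v.2, -v.1)) rt_one ?_ ?_
  · rintro v ⟨⟨h1, h2⟩, h3, h4⟩
    refine ⟨⟨?_, ?_⟩, ?_, ?_⟩ <;> simp only <;> omega
  · rintro v ⟨⟨h1, h2⟩, h3, h4⟩
    refine ⟨⟨⟨?_, ?_⟩, ?_, ?_⟩, ?_⟩
    · simp only; omega
    · simp only; omega
    · simp only; omega
    · simp only; omega
    · simp

theorem Ks_three (r : ℤ) : Ks 3 r = rect (-(r / 8)) (r / 8) (-(r / 2) - 1) (-(r / 2) - 1) := by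
  refine img_rt7 (f := fun v => (v.2, -v.1)) (g := fun v => (-v.2, v.1)) rt_three ?_ ?_
  · rintro v ⟨⟨h1, h2⟩, h3, h4⟩
    refine ⟨⟨?_, ?_⟩, ?_, ?_⟩ <;> simp only <;> omega
  · rintro v ⟨⟨h1, h2⟩, h3, h4⟩
    refine ⟨⟨⟨?_, ?_⟩, ?_, ?_⟩, ?_⟩
    · simp only; omega
    · simp only; omega
    · simp only; omega
    · simp only; omega
    · simp

/-- An arm which starts at the inner side of the right zone `K 0 r` and leaves `bx r` crosses the zone: it contains a site of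
the column `r / 2 + 1` and a site of the column `r`, joined in `K 0 r`.  `Cn.exit` with `S = K 0 r`: `Cn (A ∩ K 0 r) u p`, `Adj p q`, `q ∉ K 0 r`,
`q` in the domain: `q ∉ bx r` or `q ∈ K 2 r`.  The second is impossible (`Adj.near`), in the first case `nrm q ≥ r + 1` and `|q.2| ≤ |p.2| + 1 ≤ r / 8 + 1 ≤ r`,
so `q.1 ≥ r + 1`, `p.1 = r`. -/
theorem arm_zone {r : ℤ} (hr : 16 ≤ r) {Q A : Set Pt} {u v : Pt} (hu : u ∈ K 0 r)
    (h : L.Cn ((Q \ bx r ∪ (K 0 r ∪ K 2 r)) ∩ A) u v) (hv : v ∉ bx r) :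
    ∃ p, p.1 = r ∧ L.Cn (K 0 r ∩ ((Q \ bx r ∪ (K 0 r ∪ K 2 r)) ∩ A)) u p := by
  have hv' : v ∉ K 0 r := by
    intro h3
    rw [K_zero] at h3
    obtain ⟨⟨h4, h5⟩, h6, h7⟩ := h3
    apply hv
    show nrm v ≤ r
    rw [nrm, max_le_iff, abs_le, abs_le]
    omega
  obtain ⟨p, q, hc, ha, hq, hqS⟩ := h.exit hu hv'
  have hp : p ∈ K 0 r := hc.right.2
  have hp0 := hp
  rw [K_zero] at hp
  obtain ⟨⟨h4, h5⟩, h6, h7⟩ := hp
  have hn := ha.near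
  rw [abs_le, abs_le] at hn
  refine ⟨p, ?_, hc.mono (fun x hx => ⟨hx.2, hx.1⟩)⟩
  rcases hq.1 with h8 | h8 | h8
  · have h9 : ¬ nrm q ≤ r := h8.2
    rw [nrm, max_le_iff, abs_le, abs_le] at h9
    omega
  · exact absurd h8 hqS
  · rw [K_two] at h8
    obtain ⟨⟨h10, h11⟩, -, -⟩ := h8
    omega

/-- the same for the left zone -/
theorem arm_zone' {r : ℤ} (hr : 16 ≤ r) {Q A : Set Pt} {u v : Pt} (hu : u ∈ K 2 r)
    (h : L.Cn ((Q \ bx r ∪ (K 0 r ∪ K 2 r)) ∩ A) u v) (hv : v ∉ bx r) :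
    ∃ p, p.1 = -r ∧ L.Cn (K 2 r ∩ ((Q \ bx r ∪ (K 0 r ∪ K 2 r)) ∩ A)) u p := by
  have hv' : v ∉ K 2 r := by
    intro h3
    rw [K_two] at h3
    obtain ⟨⟨h4, h5⟩, h6, h7⟩ := h3
    apply hv
    show nrm v ≤ r
    rw [nrm, max_le_iff, abs_le, abs_le]
    omega
  obtain ⟨p, q, hc, ha, hq, hqS⟩ := h.exit hu hv'
  have hp : p ∈ K 2 r := hc.right.2
  rw [K_two] at hp
  obtain ⟨⟨h4, h5⟩, h6, h7⟩ := hp
  have hn := ha.near
  rw [abs_le, abs_le] at hn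
  refine ⟨p, ?_, hc.mono (fun x hx => ⟨hx.2, hx.1⟩)⟩
  rcases hq.1 with h8 | h8 | h8
  · have h9 : ¬ nrm q ≤ r := h8.2
    rw [nrm, max_le_iff, abs_le, abs_le] at h9
    omega
  · rw [K_zero] at h8
    obtain ⟨⟨h10, h11⟩, -, -⟩ := h8
    omega
  · exact absurd h8 hqS

/-- HORIZONTAL CORE.  All sets below lie in `rect a b p q ∩ col c ω`.  `A₁` = the sites joined to `u` in the domain of the arms (it
contains `v`), `A₂` the same for `u'`, `v'`; `V₀`, `V₂` = connected sets of the vertical crossings of the zones, `S` = connected set of the crossing of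
the strip (`con_cluster` for the witnesses of `hk0`, `hk2`, `hs`).  By `arm_zone` and `cross` in `K 0 r = rect (r/2+1) r (-(r/8)) (r/8)`, `A₁` meets `V₀`; by `arm_zone'` and
`cross` in `K 2 r`, `A₂` meets `V₂`; by `cross` in `rect (-r) r (-(r/8)) (r/8)`, `S` meets `V₀` and `V₂`.  So the union `A₁ ∪ V₀ ∪ S ∪ V₂ ∪ A₂` is connected
(`Con.union`), and it contains a site of the column `a` and a site of the column `b`. -/
theorem core_gen {c : Bool} {r a b p q : ℤ} {ω : Cfg} (hr : 16 ≤ r) (ha : a < -r) (hb : r < b)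
    (hp : p ≤ -r) (hq : r ≤ q) {u v u' v' : Pt} (hu : u ∈ Ks 0 r) (hu' : u' ∈ Ks 2 r)
    (hv : (v.1 = b ∧ v'.1 = a) ∨ (v.1 = a ∧ v'.1 = b))
    (h1 : L.Cn ((rect a b p q \ bx r ∪ (K 0 r ∪ K 2 r)) ∩ L.col c ω) u v)
    (h2 : L.Cn ((rect a b p q \ bx r ∪ (K 0 r ∪ K 2 r)) ∩ L.col c ω) u' v')
    (hs : L.HX c (-r) r (-(r / 8)) (r / 8) ω)
    (hk0 : L.VX c (r / 2 + 1) r (-(r / 8)) (r / 8) ω)
    (hk2 : L.VX c (-r) (-(r / 2) - 1) (-(r / 8)) (r / 8) ω) : L.HX c a b p q ω := by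
  have hT : (rect a b p q \ bx r ∪ (K 0 r ∪ K 2 r)) ∩ L.col c ω ⊆ rect a b p q ∩ L.col c ω := by
    rintro w ⟨h3 | h3 | h3, h4⟩
    · exact ⟨h3.1, h4⟩
    · rw [K_zero] at h3
      obtain ⟨⟨h5, h6⟩, h7, h8⟩ := h3
      exact ⟨⟨⟨by omega, by omega⟩, by omega, by omega⟩, h4⟩
    · rw [K_two] at h3
      obtain ⟨⟨h5, h6⟩, h7, h8⟩ := h3
      exact ⟨⟨⟨by omega, by omega⟩, by omega, by omega⟩, h4⟩
  have huK : u ∈ K 0 r := by
    rw [Ks_zero] at hu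
    obtain ⟨⟨h5, h6⟩, h7, h8⟩ := hu
    rw [K_zero]
    exact ⟨⟨by omega, by omega⟩, by omega, by omega⟩
  have huK' : u' ∈ K 2 r := by
    rw [Ks_two] at hu'
    obtain ⟨⟨h5, h6⟩, h7, h8⟩ := hu'
    rw [K_two]
    exact ⟨⟨by omega, by omega⟩, by omega, by omega⟩
  have hu1 : u.1 = r / 2 + 1 := by
    rw [Ks_zero] at hu
    obtain ⟨⟨h5, h6⟩, -, -⟩ := hu
    omega
  have hu1' : u'.1 = -(r / 2) - 1 := by
    rw [Ks_two] at hu'
    obtain ⟨⟨h5, h6⟩, -, -⟩ := hu'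
    omega
  have out : ∀ w : Pt, (w.1 = a ∨ w.1 = b) → w ∉ bx r := by
    intro w hw h3
    have h4 : nrm w ≤ r := h3
    rw [nrm, max_le_iff, abs_le, abs_le] at h4
    omega
  have hvo : v ∉ bx r := out v (by omega)
  have hvo' : v' ∉ bx r := out v' (by omega)
  obtain ⟨x, hx, hcx⟩ := arm_zone hr huK h1 hvo
  obtain ⟨x', hx', hcx'⟩ := arm_zone' hr huK' h2 hvo'
  obtain ⟨y0, z0, hy0, hz0, hV0⟩ := hk0
  obtain ⟨y2, z2, hy2, hz2, hV2⟩ := hk2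
  obtain ⟨s, t, hs1, ht1, hst⟩ := hs
  have cA1 := Lat.con_cluster (L := L) ((rect a b p q \ bx r ∪ (K 0 r ∪ K 2 r)) ∩ L.col c ω) u
  have cA2 := Lat.con_cluster (L := L) ((rect a b p q \ bx r ∪ (K 0 r ∪ K 2 r)) ∩ L.col c ω) u'
  have cV0 := Lat.con_cluster (L := L) (rect (r / 2 + 1) r (-(r / 8)) (r / 8) ∩ L.col c ω) y0
  have cV2 := Lat.con_cluster (L := L) (rect (-r) (-(r / 2) - 1) (-(r / 8)) (r / 8) ∩ L.col c ω) y2
  have cS := Lat.con_cluster (L := L) (rect (-r) r (-(r / 8)) (r / 8) ∩ L.col c ω) s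
  have m10 : (({w | L.Cn ((rect a b p q \ bx r ∪ (K 0 r ∪ K 2 r)) ∩ L.col c ω) u w}) ∩
      {w | L.Cn (rect (r / 2 + 1) r (-(r / 8)) (r / 8) ∩ L.col c ω) y0 w}).Nonempty := by
    obtain ⟨w, hw1, hw2⟩ := Lat.cross (Lat.con_cluster (L := L) (K 0 r ∩
        ((rect a b p q \ bx r ∪ (K 0 r ∪ K 2 r)) ∩ L.col c ω)) u) cV0
      (fun w hw => by
        have h3 : w ∈ K 0 r := (Lat.Cn.right hw).1
        rw [K_zero] at h3
        exact h3)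
      (fun w hw => (Lat.Cn.right hw).1)
      ⟨u, Lat.Cn.refl hcx.left, hu1⟩ ⟨x, hcx, hx⟩ ⟨y0, Lat.Cn.refl hV0.left, hy0⟩ ⟨z0, hV0, hz0⟩
    exact ⟨w, Lat.Cn.mono hw1 (fun z hz => hz.2), hw2⟩
  have m22 : (({w | L.Cn (rect (-r) (-(r / 2) - 1) (-(r / 8)) (r / 8) ∩ L.col c ω) y2 w}) ∩
      {w | L.Cn ((rect a b p q \ bx r ∪ (K 0 r ∪ K 2 r)) ∩ L.col c ω) u' w}).Nonempty := by
    obtain ⟨w, hw1, hw2⟩ := Lat.cross (Lat.con_cluster (L := L) (K 2 r ∩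
        ((rect a b p q \ bx r ∪ (K 0 r ∪ K 2 r)) ∩ L.col c ω)) u') cV2
      (fun w hw => by
        have h3 : w ∈ K 2 r := (Lat.Cn.right hw).1
        rw [K_two] at h3
        exact h3)
      (fun w hw => (Lat.Cn.right hw).1)
      ⟨x', hcx', hx'⟩ ⟨u', Lat.Cn.refl hcx'.left, hu1'⟩ ⟨y2, Lat.Cn.refl hV2.left, hy2⟩ ⟨z2, hV2, hz2⟩
    exact ⟨w, hw2, Lat.Cn.mono hw1 (fun z hz => hz.2)⟩
  have mS0 : (({w | L.Cn (rect (-r) r (-(r / 8)) (r / 8) ∩ L.col c ω) s w}) ∩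
      {w | L.Cn (rect (r / 2 + 1) r (-(r / 8)) (r / 8) ∩ L.col c ω) y0 w}).Nonempty :=
    Lat.cross cS cV0 (fun w hw => (Lat.Cn.right hw).1)
      (fun w hw => by
        obtain ⟨⟨h5, h6⟩, h7, h8⟩ := (Lat.Cn.right hw).1
        exact ⟨⟨by omega, by omega⟩, by omega, by omega⟩)
      ⟨s, Lat.Cn.refl hst.left, hs1⟩ ⟨t, hst, ht1⟩ ⟨y0, Lat.Cn.refl hV0.left, hy0⟩ ⟨z0, hV0, hz0⟩
  have mS2 : (({w | L.Cn (rect (-r) r (-(r / 8)) (r / 8) ∩ L.col c ω) s w}) ∩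
      {w | L.Cn (rect (-r) (-(r / 2) - 1) (-(r / 8)) (r / 8) ∩ L.col c ω) y2 w}).Nonempty :=
    Lat.cross cS cV2 (fun w hw => (Lat.Cn.right hw).1)
      (fun w hw => by
        obtain ⟨⟨h5, h6⟩, h7, h8⟩ := (Lat.Cn.right hw).1
        exact ⟨⟨by omega, by omega⟩, by omega, by omega⟩)
      ⟨s, Lat.Cn.refl hst.left, hs1⟩ ⟨t, hst, ht1⟩ ⟨y2, Lat.Cn.refl hV2.left, hy2⟩ ⟨z2, hV2, hz2⟩
  have c1 := Lat.Con.union cA1 cV0 m10
  have c2 := Lat.Con.union c1 cS (by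
    obtain ⟨w, hw1, hw2⟩ := mS0
    exact ⟨w, Or.inr hw2, hw1⟩)
  have c3 := Lat.Con.union c2 cV2 (by
    obtain ⟨w, hw1, hw2⟩ := mS2
    exact ⟨w, Or.inr hw1, hw2⟩)
  have c4 := Lat.Con.union c3 cA2 (by
    obtain ⟨w, hw1, hw2⟩ := m22
    exact ⟨w, Or.inr hw1, hw2⟩)
  have hsub : ((((({w | L.Cn ((rect a b p q \ bx r ∪ (K 0 r ∪ K 2 r)) ∩ L.col c ω) u w}) ∪
      {w | L.Cn (rect (r / 2 + 1) r (-(r / 8)) (r / 8) ∩ L.col c ω) y0 w}) ∪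
      {w | L.Cn (rect (-r) r (-(r / 8)) (r / 8) ∩ L.col c ω) s w}) ∪
      {w | L.Cn (rect (-r) (-(r / 2) - 1) (-(r / 8)) (r / 8) ∩ L.col c ω) y2 w}) ∪
      {w | L.Cn ((rect a b p q \ bx r ∪ (K 0 r ∪ K 2 r)) ∩ L.col c ω) u' w}) ⊆
      rect a b p q ∩ L.col c ω := by
    rintro w ((((hw | hw) | hw) | hw) | hw)
    · exact hT (Lat.Cn.right hw)
    · obtain ⟨⟨⟨h5, h6⟩, h7, h8⟩, h9⟩ := Lat.Cn.right hw
      exact ⟨⟨⟨by omega, by omega⟩, by omega, by omega⟩, h9⟩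
    · obtain ⟨⟨⟨h5, h6⟩, h7, h8⟩, h9⟩ := Lat.Cn.right hw
      exact ⟨⟨⟨by omega, by omega⟩, by omega, by omega⟩, h9⟩
    · obtain ⟨⟨⟨h5, h6⟩, h7, h8⟩, h9⟩ := Lat.Cn.right hw
      exact ⟨⟨⟨by omega, by omega⟩, by omega, by omega⟩, h9⟩
    · exact hT (Lat.Cn.right hw)
  have hc : L.Cn (rect a b p q ∩ L.col c ω) v v' :=
    (c4 v (Or.inl (Or.inl (Or.inl (Or.inl h1)))) v' (Or.inr h2)).mono hsub
  rcases hv with ⟨h3, h4⟩ | ⟨h3, h4⟩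
  · exact ⟨v', v, h4, h3, hc.symm⟩
  · exact ⟨v, v', h3, h4, hc⟩

/-- The same in the vertical direction: `core_gen` for the lattice `L.tr` and the configuration `via (Equiv.prodComm ℤ ℤ) ω`
(`tr_hx`, `tr_vx`, `tr_cn`; transposition maps `K 1 r`, `K 3 r` to `K 0 r`, `K 2 r` by `K_zero`, ..., `K_three`). -/
theorem core_gen' {c : Bool} {r a b p q : ℤ} {ω : Cfg} (hr : 16 ≤ r) (hp : p < -r) (hq : r < q)
    (ha : a ≤ -r) (hb : r ≤ b) {u v u' v' : Pt} (hu : u ∈ Ks 1 r) (hu' : u' ∈ Ks 3 r)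
    (hv : (v.2 = q ∧ v'.2 = p) ∨ (v.2 = p ∧ v'.2 = q))
    (h1 : L.Cn ((rect a b p q \ bx r ∪ (K 1 r ∪ K 3 r)) ∩ L.col c ω) u v)
    (h2 : L.Cn ((rect a b p q \ bx r ∪ (K 1 r ∪ K 3 r)) ∩ L.col c ω) u' v')
    (hs : L.VX c (-(r / 8)) (r / 8) (-r) r ω)
    (hk1 : L.HX c (-(r / 8)) (r / 8) (r / 2 + 1) r ω)
    (hk3 : L.HX c (-(r / 8)) (r / 8) (-r) (-(r / 2) - 1) ω) : L.VX c a b p q ω := by
  have key : ∀ x y : Pt, L.Cn ((rect a b p q \ bx r ∪ (K 1 r ∪ K 3 r)) ∩ L.col c ω) x y →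
      L.tr.Cn ((rect p q a b \ bx r ∪ (K 0 r ∪ K 2 r)) ∩
        L.tr.col c (via (Equiv.prodComm ℤ ℤ) ω)) (x.2, x.1) (y.2, y.1) := by
    intro x y h3
    refine ((tr_tr L).cn _ _ _).2 ?_
    show L.Cn _ (x.1, x.2) (y.1, y.2)
    refine Lat.Cn.mono h3 ?_
    rintro w ⟨hw, hwc⟩
    refine ⟨(w.2, w.1), ⟨?_, ?_⟩, rfl⟩
    · rcases hw with h4 | h4 | h4
      · refine Or.inl ⟨⟨h4.1.2, h4.1.1⟩, fun h5 => h4.2 ?_⟩
        have h6 : max |w.2| |w.1| ≤ r := h5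
        show max |w.1| |w.2| ≤ r
        rw [max_comm]
        exact h6
      · refine Or.inr (Or.inl ?_)
        rw [K_one] at h4
        rw [K_zero]
        exact ⟨h4.2, h4.1⟩
      · refine Or.inr (Or.inr ?_)
        rw [K_three] at h4
        rw [K_two]
        exact ⟨h4.2, h4.1⟩
    · show L.tr.st (via (Equiv.prodComm ℤ ℤ) ω) (w.2, w.1) = c
      rw [(tr_tr L).st]
      exact hwc
  refine (tr_hx L c p q a b ω).1 (core_gen (u := (u.2, u.1)) (u' := (u'.2, u'.1))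
    (v := (v.2, v.1)) (v' := (v'.2, v'.1)) hr hp hq ha hb ?_ ?_ hv (key u v h1) (key u' v' h2)
    ((tr_hx L c _ _ _ _ ω).2 hs) ((tr_vx L c _ _ _ _ ω).2 hk1) ((tr_vx L c _ _ _ _ ω).2 hk3))
  · rw [Ks_one] at hu
    rw [Ks_zero]
    exact ⟨hu.2, hu.1⟩
  · rw [Ks_three] at hu'
    rw [Ks_two]
    exact ⟨hu'.2, hu'.1⟩

/-- BOX EVENT and CORE EVENT give the crossing in the direction of the colour (`core_gen`, `core_gen'`). -/
theorem SQ_Co_DX {c : Bool} {r a b p q : ℤ} {ω : Cfg} (hr : 16 ≤ r) (ha : a < -r) (hb : r < b)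
    (hp : p < -r) (hq : r < q) (h : L.SQ c r a b p q ω) (h' : L.Co c r ω) :
    L.DX c a b p q ω := by
  cases c with
  | true =>
    have e0 : dc true = 0 := if_pos rfl
    have eK : Kc true r = K 0 r ∪ K 2 r := by
      unfold Kc
      rw [e0, zero_add]
    have e1 : sdp true b q = {v : Pt | v.1 = b} := if_pos rfl
    have e2 : sdm true a p = {v : Pt | v.1 = a} := if_pos rfl
    have e3 : L.DX true a b p q ω = L.HX true a b p q ω := if_pos rfl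
    have e4 : L.Co true r ω = (L.HX true (-r) r (-(r / 8)) (r / 8) ω ∧
      L.VX true (r / 2 + 1) r (-(r / 8)) (r / 8) ω ∧
      L.VX true (-r) (-(r / 2) - 1) (-(r / 8)) (r / 8) ω) := if_pos rfl
    rw [e4] at h'
    rw [e3]
    unfold Lat.SQ at h
    rw [eK, e0, zero_add, e1, e2] at h
    obtain ⟨hs, hk0, hk2⟩ := h'
    rcases h with ⟨⟨u, hu, v, hv, hc⟩, ⟨u', hu', v', hv', hc'⟩⟩ |
      ⟨⟨u, hu, v, hv, hc⟩, ⟨u', hu', v', hv', hc'⟩⟩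
    · exact core_gen hr ha hb hp.le hq.le hu hu' (Or.inl ⟨hv, hv'⟩) hc hc' hs hk0 hk2
    · exact core_gen hr ha hb hp.le hq.le hu hu' (Or.inr ⟨hv, hv'⟩) hc hc' hs hk0 hk2
  | false =>
    have hf : ¬ (false = true) := Bool.false_ne_true
    have e0 : dc false = 1 := if_neg hf
    have e5 : (1 : ℤ) + 2 = 3 := by norm_num
    have eK : Kc false r = K 1 r ∪ K 3 r := by
      unfold Kc
      rw [e0, e5]
    have e1 : sdp false b q = {v : Pt | v.2 = q} := if_neg hf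
    have e2 : sdm false a p = {v : Pt | v.2 = p} := if_neg hf
    have e3 : L.DX false a b p q ω = L.VX false a b p q ω := if_neg hf
    have e4 : L.Co false r ω = (L.VX false (-(r / 8)) (r / 8) (-r) r ω ∧
      L.HX false (-(r / 8)) (r / 8) (r / 2 + 1) r ω ∧
      L.HX false (-(r / 8)) (r / 8) (-r) (-(r / 2) - 1) ω) := if_neg hf
    rw [e4] at h'
    rw [e3]
    unfold Lat.SQ at h
    rw [eK, e0, e5, e1, e2] at h
    obtain ⟨hs, hk0, hk2⟩ := h'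
    rcases h with ⟨⟨u, hu, v, hv, hc⟩, ⟨u', hu', v', hv', hc'⟩⟩ |
      ⟨⟨u, hu, v, hv, hc⟩, ⟨u', hu', v', hv', hc'⟩⟩
    · exact core_gen' hr hp hq ha.le hb.le hu hu' (Or.inl ⟨hv, hv'⟩) hc hc' hs hk0 hk2
    · exact core_gen' hr hp hq ha.le hb.le hu hu' (Or.inr ⟨hv, hv'⟩) hc hc' hs hk0 hk2

end XP

end SC
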