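import Pool.Agent.Lib_MP_e0a489.TD1
import Pool.Agent.Lib_MP_e0a489.XP7

/-!
# MP_e0a489, exponents 10: box events and core events (probability)
-/

set_option autoImplicit false

namespace SC

namespace XP

open Classical

private theorem xp10_mon_and {c : Bool} {A B : Cfg → Prop} (hA : MonC c A) (hB : MonC c B) :
    MonC c (fun ω => A ω ∧ B ω) := by
  cases c with
  | true =>
    intro ω ω' h1 h2
    exact ⟨hA ω ω' h1 h2.1, hB ω ω' h1 h2.2⟩
  | false =>
    intro ω ω' h1 h2
    exact ⟨hA ω ω' h1 h2.1, hB ω ω' h1 h2.2⟩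

private theorem xp10_mon_or {c : Bool} {A B : Cfg → Prop} (hA : MonC c A) (hB : MonC c B) :
    MonC c (fun ω => A ω ∨ B ω) := by
  cases c with
  | true =>
    intro ω ω' h1 h2
    exact h2.imp (hA ω ω' h1) (hB ω ω' h1)
  | false =>
    intro ω ω' h1 h2
    exact h2.imp (hA ω ω' h1) (hB ω ω' h1)

private theorem xp10_harris {c : Bool} {A B : Cfg → Prop} (lA : Loc A) (lB : Loc B)
    (hA : MonC c A) (hB : MonC c B) : pr A * pr B ≤ pr (fun ω => A ω ∧ B ω) := by
  cases c with
  | true => exact pr_harris lA lB hA hB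
  | false => exact pr_harris_dec lA lB hA hB

private theorem xp10_rect_finite (a b p q : ℤ) : (rect a b p q).Finite := by
  have h : rect a b p q ⊆ Set.Icc a b ×ˢ Set.Icc p q := by
    rintro v ⟨h1, h2⟩
    exact ⟨h1, h2⟩
  exact ((Set.finite_Icc a b).prod (Set.finite_Icc p q)).subset h

private theorem xp10_fin (c : Bool) (r a b p q : ℤ) :
    (rect a b p q \ bx r ∪ Kc c r).Finite := by
  refine Set.Finite.union ((xp10_rect_finite a b p q).subset Set.sdiff_subset) ?_
  unfold Kc K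
  exact ((xp10_rect_finite _ _ _ _).image _).union ((xp10_rect_finite _ _ _ _).image _)

/-- `Arm.mon`; conjunctions and disjunctions of increasing (decreasing) events are increasing (decreasing) -/
theorem SQ_mon (L : Lat) (c : Bool) (r a b p q : ℤ) : MonC c (L.SQ c r a b p q) := by
  exact xp10_mon_or (xp10_mon_and (Lat.Arm.mon L c _ _ _) (Lat.Arm.mon L c _ _ _))
    (xp10_mon_and (Lat.Arm.mon L c _ _ _) (Lat.Arm.mon L c _ _ _))

/-- `Arm.loc`; the domain is contained in `rect a b p q ∪ bx r` -/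
theorem SQ_loc (L : Lat) (c : Bool) (r a b p q : ℤ) : Loc (L.SQ c r a b p q) := by
  have hf := xp10_fin c r a b p q
  exact Loc.or (Loc.and (Lat.Arm.loc L c _ _ _ hf) (Lat.Arm.loc L c _ _ _ hf))
    (Loc.and (Lat.Arm.loc L c _ _ _ hf) (Lat.Arm.loc L c _ _ _ hf))

theorem Co_mon (L : Lat) (c : Bool) (r : ℤ) : MonC c (L.Co c r) := by
  cases c with
  | true =>
    exact xp10_mon_and (c := true) (Lat.HX.mon L true _ _ _ _)
      (xp10_mon_and (Lat.VX.mon L true _ _ _ _) (Lat.VX.mon L true _ _ _ _))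
  | false =>
    exact xp10_mon_and (c := false) (Lat.VX.mon L false _ _ _ _)
      (xp10_mon_and (Lat.HX.mon L false _ _ _ _) (Lat.HX.mon L false _ _ _ _))

private theorem xp10_sub {r a b p q : ℤ} (ha : -r ≤ a) (hb : b ≤ r) (hp : -r ≤ p) (hq : q ≤ r) :
    rect a b p q ⊆ bx r := by
  rintro v ⟨⟨h1, h2⟩, h3, h4⟩
  show max |v.1| |v.2| ≤ r
  rw [max_le_iff, abs_le, abs_le]
  exact ⟨⟨by linarith, by linarith⟩, by linarith, by linarith⟩

private theorem xp10_dep_and {A B : Cfg → Prop} {D : Set Pt} (hA : Dep A D) (hB : Dep B D) :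
    Dep (fun ω => A ω ∧ B ω) D := by
  intro ω ω' h
  show (A ω ∧ B ω) = (A ω' ∧ B ω')
  rw [hA ω ω' h, hB ω ω' h]

/-- `HX.dep`, `VX.dep`; the rectangles lie in `bx r` -/
theorem Co_dep (L : Lat) (c : Bool) {r : ℤ} (hr : 0 ≤ r) : Dep (L.Co c r) (bx r) := by
  cases c with
  | true =>
    exact xp10_dep_and ((Lat.HX.dep L true _ _ _ _).mono
        (xp10_sub (by omega) (by omega) (by omega) (by omega)))
      (xp10_dep_and ((Lat.VX.dep L true _ _ _ _).mono
        (xp10_sub (by omega) (by omega) (by omega) (by omega)))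
        ((Lat.VX.dep L true _ _ _ _).mono
        (xp10_sub (by omega) (by omega) (by omega) (by omega))))
  | false =>
    exact xp10_dep_and ((Lat.VX.dep L false _ _ _ _).mono
        (xp10_sub (by omega) (by omega) (by omega) (by omega)))
      (xp10_dep_and ((Lat.HX.dep L false _ _ _ _).mono
        (xp10_sub (by omega) (by omega) (by omega) (by omega)))
        ((Lat.HX.dep L false _ _ _ _).mono
        (xp10_sub (by omega) (by omega) (by omega) (by omega))))

theorem Co_loc (L : Lat) (c : Bool) (r : ℤ) : Loc (L.Co c r) := by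
  cases c with
  | true =>
    exact Loc.and (Lat.HX.loc L true _ _ _ _)
      (Loc.and (Lat.VX.loc L true _ _ _ _) (Lat.VX.loc L true _ _ _ _))
  | false =>
    exact Loc.and (Lat.VX.loc L false _ _ _ _)
      (Loc.and (Lat.HX.loc L false _ _ _ _) (Lat.HX.loc L false _ _ _ _))

private theorem xp10_three {c : Bool} {A B C : Cfg → Prop} {t : ℝ} (ht : 0 < t) (lA : Loc A)
    (lB : Loc B) (lC : Loc C) (mA : MonC c A) (mB : MonC c B) (mC : MonC c C) (hA : t ≤ pr A)
    (hB : t ≤ pr B) (hC : t ≤ pr C) : t ^ 3 ≤ pr (fun ω => A ω ∧ (B ω ∧ C ω)) := by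
  have h1 := xp10_harris lB lC mB mC
  have h2 := xp10_harris lA (Loc.and lB lC) mA (xp10_mon_and mB mC)
  have h3 : t * t ≤ pr B * pr C := mul_le_mul hB hC ht.le (ht.le.trans hB)
  have h4 : t * (t * t) ≤ pr A * pr (fun ω => B ω ∧ C ω) :=
    mul_le_mul hA (h3.trans h1) (by positivity) (ht.le.trans hA)
  calc t ^ 3 = t * (t * t) := by ring
    _ ≤ _ := h4.trans h2

/-- Three crossings of rectangles of aspect ratio at most `16` (`RSW.hx'`, `RSW.vx'`), Harris (`pr_harris_mon` or twice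
`pr_harris`, `pr_harris_dec`). -/
theorem co_pr {L : Lat} {κ : ℕ → ℝ} (h : RSW L κ) (c : Bool) {r : ℤ} (hr : 64 ≤ r) :
    κ 16 ^ 3 ≤ pr (L.Co c r) := by
  cases c with
  | true =>
    exact xp10_three (c := true) (h.pos 16) (Lat.HX.loc L true _ _ _ _)
      (Lat.VX.loc L true _ _ _ _) (Lat.VX.loc L true _ _ _ _) (Lat.HX.mon L true _ _ _ _)
      (Lat.VX.mon L true _ _ _ _) (Lat.VX.mon L true _ _ _ _)
      (h.hx' (by norm_num) true (by omega) (by omega) (by push_cast; omega))
      (h.vx' (by norm_num) true (by omega) (by omega) (by push_cast; omega))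
      (h.vx' (by norm_num) true (by omega) (by omega) (by push_cast; omega))
  | false =>
    exact xp10_three (c := false) (h.pos 16) (Lat.VX.loc L false _ _ _ _)
      (Lat.HX.loc L false _ _ _ _) (Lat.HX.loc L false _ _ _ _) (Lat.VX.mon L false _ _ _ _)
      (Lat.HX.mon L false _ _ _ _) (Lat.HX.mon L false _ _ _ _)
      (h.vx' (by norm_num) false (by omega) (by omega) (by push_cast; omega))
      (h.hx' (by norm_num) false (by omega) (by omega) (by push_cast; omega))
      (h.hx' (by norm_num) false (by omega) (by omega) (by push_cast; omega))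

private theorem xp10_disj {A B C : Cfg → Prop} (lA : Loc A) (lB : Loc B) (lC : Loc C)
    (h : ∀ ω, ¬ (A ω ∧ B ω)) (hA : ∀ ω, A ω → C ω) (hB : ∀ ω, B ω → C ω) :
    pr A + pr B ≤ pr C := by
  unfold pr
  rw [← ex_add lA.lf lB.lf]
  refine ex_mono (lA.lf.add lB.lf) lC.lf (fun ω => ?_)
  unfold ind
  by_cases h1 : A ω
  · have h2 : ¬ B ω := fun h2 => h ω ⟨h1, h2⟩
    rw [if_pos h1, if_neg h2, if_pos (hA ω h1)]
    norm_num
  · by_cases h2 : B ω
    · rw [if_neg h1, if_pos h2, if_pos (hB ω h2)]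
      norm_num
    · rw [if_neg h1, if_neg h2]
      split_ifs <;> norm_num

/-- CORE INFLUENCE.  Write `f = HX true`, `s = SQ true`, `s' = SQ false`, `u = Co true`, `v = Co false` (events).
(a) `s ∧ u ⊆ f` (`SQ_Co_DX`), so `(f ∨ s) ∧ u = f ∧ u`; `f ∨ s` and `u` are increasing: `P(f ∧ u) ≥ P(f ∨ s) P(u)` (`pr_harris`).
(b) `s' ∧ v ⊆ VX false`, which excludes `f` (`hex_not`), so `f ∧ v = (f ∧ ¬ s') ∧ v`; `f ∧ ¬ s'` is increasing, `v` decreasing:
`P(f ∧ v) ≤ P(f ∧ ¬ s') P(v)` (`pr_harris_neg`).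
(c) `f ∧ ¬ s'` and `s ∧ s'` are disjoint events contained in `f ∨ s`, so `P(f ∨ s) - P(f ∧ ¬ s') ≥ P(s ∧ s')`. -/
theorem core_infl {L : Lat} {r a b p q : ℤ} (hr : 16 ≤ r) (ha : a < -r) (hb : r < b)
    (hp : p < -r) (hq : r < q) (h0 : 0 < pr (L.Co true r)) (h1 : 0 < pr (L.Co false r)) :
    pr (fun ω => L.SQ true r a b p q ω ∧ L.SQ false r a b p q ω) ≤
      pr (fun ω => L.HX true a b p q ω ∧ L.Co true r ω) / pr (L.Co true r) -
        pr (fun ω => L.HX true a b p q ω ∧ L.Co false r ω) / pr (L.Co false r) := by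
  have lf : Loc (L.HX true a b p q) := Lat.HX.loc L true a b p q
  have ls := SQ_loc L true r a b p q
  have ls' := SQ_loc L false r a b p q
  have lu := Co_loc L true r
  have lv := Co_loc L false r
  have mf : Inc (L.HX true a b p q) := Lat.HX.mon L true a b p q
  have ms : Inc (L.SQ true r a b p q) := SQ_mon L true r a b p q
  have ms' : Dec (L.SQ false r a b p q) := SQ_mon L false r a b p q
  have mu : Inc (L.Co true r) := Co_mon L true r
  have mv : Dec (L.Co false r) := Co_mon L false r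
  have mfs : Inc (fun ω => L.HX true a b p q ω ∨ L.SQ true r a b p q ω) := fun ω ω' g1 g2 =>
    g2.imp (mf ω ω' g1) (ms ω ω' g1)
  have mfn : Inc (fun ω => L.HX true a b p q ω ∧ ¬ L.SQ false r a b p q ω) := fun ω ω' g1 g2 =>
    ⟨mf ω ω' g1 g2.1, fun g3 => g2.2 (ms' ω ω' g1 g3)⟩
  -- (a)
  have ea : pr (fun ω => L.HX true a b p q ω ∨ L.SQ true r a b p q ω) * pr (L.Co true r) ≤
      pr (fun ω => L.HX true a b p q ω ∧ L.Co true r ω) := by
    refine le_trans (pr_harris (lf.or ls) lu mfs mu) ?_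
    refine pr_mono ((lf.or ls).and lu) (lf.and lu) (fun ω hω => ?_)
    obtain ⟨hω1, hω2⟩ := hω
    refine ⟨?_, hω2⟩
    rcases hω1 with hω1 | hω1
    · exact hω1
    · have := SQ_Co_DX hr ha hb hp hq hω1 hω2
      unfold Lat.DX at this
      rwa [if_pos rfl] at this
  -- (b)
  have eb : pr (fun ω => L.HX true a b p q ω ∧ L.Co false r ω) ≤
      pr (fun ω => L.HX true a b p q ω ∧ ¬ L.SQ false r a b p q ω) * pr (L.Co false r) := by
    refine le_trans ?_ (pr_harris_neg (lf.and ls'.not) lv mfn mv)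
    refine pr_mono (lf.and lv) ((lf.and ls'.not).and lv) (fun ω hω => ?_)
    refine ⟨⟨hω.1, fun g => ?_⟩, hω.2⟩
    have := SQ_Co_DX hr ha hb hp hq g hω.2
    unfold Lat.DX at this
    rw [if_neg (by decide)] at this
    exact Lat.hex_not hω.1 this
  -- (c)
  have ec : pr (fun ω => L.SQ true r a b p q ω ∧ L.SQ false r a b p q ω) +
      pr (fun ω => L.HX true a b p q ω ∧ ¬ L.SQ false r a b p q ω) ≤
        pr (fun ω => L.HX true a b p q ω ∨ L.SQ true r a b p q ω) := by
    refine xp10_disj (ls.and ls') (lf.and ls'.not) (lf.or ls) ?_ ?_ ?_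
    · rintro ω ⟨g1, g2⟩
      exact g2.2 g1.2
    · intro ω g
      exact Or.inr g.1
    · intro ω g
      exact Or.inl g.1
  have ea' := (le_div_iff₀ h0).2 ea
  have eb' := (div_le_iff₀ h1).2 eb
  linarith

end XP

end SC
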