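import Pool.Agent.Lib_MP_e0a489.XP10

/-!
# MP_e0a489, exponents 11: the centred core functional at a site
-/

set_option autoImplicit false

namespace SC

namespace XP

open Classical

/-- centred functional of the block around `x` -/
noncomputable def Xc (L : Lat) (x : Pt) (r : ℤ) : Cfg → ℝ := fun ω =>
  ind (fun ω => (L.shift x).Co true r (via (Equiv.addRight x) ω)) ω / pr ((L.shift x).Co true r) -
    ind (fun ω => (L.shift x).Co false r (via (Equiv.addRight x) ω)) ω /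
      pr ((L.shift x).Co false r)

/-- The event `A (via (Equiv.addRight x) ω)` depends on the sites `v + x`, `v ∈ D`. -/
theorem dep_via {A : Cfg → Prop} {D : Set Pt} (h : Dep A D) (x : Pt) :
    Dep (fun ω => A (via (Equiv.addRight x) ω)) {v | v - x ∈ D} := by
  intro ω ω' H
  refine h _ _ (fun v hv => H (v + x) ?_)
  show v + x - x ∈ D
  rwa [add_sub_cancel_right]

private theorem xp11_loc_via {A : Cfg → Prop} (h : Loc A) (x : Pt) :
    Loc (fun ω => A (via (Equiv.addRight x) ω)) := by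
  obtain ⟨F, hF⟩ := h
  refine ⟨F.map (Equiv.addRight x).toEmbedding, (dep_via hF x).mono ?_⟩
  intro v hv
  have hv' : v - x ∈ F := by exact_mod_cast hv
  rw [Finset.mem_coe, Finset.mem_map]
  refine ⟨v - x, hv', ?_⟩
  show v - x + x = v
  exact sub_add_cancel v x

/-- `Co_dep`, `dep_via` -/
theorem Xc_dep (L : Lat) (x : Pt) {r : ℤ} (hr : 0 ≤ r) : Dep (Xc L x r) (bxAt x r) := by
  have h1 := (dep_via (Co_dep (L.shift x) true hr) x).ind
  have h2 := (dep_via (Co_dep (L.shift x) false hr) x).ind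
  intro ω ω' H
  unfold Xc
  rw [h1 ω ω' H, h2 ω ω' H]

private theorem xp11_ind_lf (L : Lat) (x : Pt) (r : ℤ) (c : Bool) :
    Lf (ind (fun ω => (L.shift x).Co c r (via (Equiv.addRight x) ω))) :=
  (xp11_loc_via (Co_loc (L.shift x) c r) x).lf

private theorem xp11_eq (L : Lat) (x : Pt) (r : ℤ) : Xc L x r = fun ω =>
    (pr ((L.shift x).Co true r))⁻¹ *
      ind (fun ω => (L.shift x).Co true r (via (Equiv.addRight x) ω)) ω -
    (pr ((L.shift x).Co false r))⁻¹ *
      ind (fun ω => (L.shift x).Co false r (via (Equiv.addRight x) ω)) ω := by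
  funext ω
  unfold Xc
  rw [div_eq_inv_mul, div_eq_inv_mul]

theorem Xc_lf (L : Lat) (x : Pt) (r : ℤ) : Lf (Xc L x r) := by
  rw [xp11_eq]
  exact ((xp11_ind_lf L x r true).smul _).sub ((xp11_ind_lf L x r false).smul _)

private theorem xp11_pos {L : Lat} {κ : ℕ → ℝ} (h : RSW L κ) (x : Pt) {r : ℤ} (hr : 64 ≤ r)
    (c : Bool) : 0 < pr ((L.shift x).Co c r) :=
  lt_of_lt_of_le (pow_pos (h.pos 16) 3) (co_pr (h.shift x) c hr)

private theorem xp11_pr (L : Lat) (x : Pt) (r : ℤ) (c : Bool) :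
    ex (ind (fun ω => (L.shift x).Co c r (via (Equiv.addRight x) ω))) =
      pr ((L.shift x).Co c r) :=
  pr_via (Co_loc (L.shift x) c r) (Equiv.addRight x)

/-- `pr_via`, `Co_loc`, `co_pr` (the probabilities are positive): `1 - 1 = 0` -/
theorem Xc_ex {L : Lat} {κ : ℕ → ℝ} (h : RSW L κ) (x : Pt) {r : ℤ} (hr : 64 ≤ r) :
    ex (Xc L x r) = 0 := by
  rw [xp11_eq, ex_sub ((xp11_ind_lf L x r true).smul _) ((xp11_ind_lf L x r false).smul _),
    ex_smul (xp11_ind_lf L x r true), ex_smul (xp11_ind_lf L x r false), xp11_pr, xp11_pr,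
    inv_mul_cancel₀ (xp11_pos h x hr true).ne', inv_mul_cancel₀ (xp11_pos h x hr false).ne',
    sub_self]

private theorem xp11_sq {A B : Cfg → Prop} {p q : ℝ} (hp : 0 < p) (hq : 0 < q) (ω : Cfg) :
    (ind A ω / p - ind B ω / q) ^ 2 ≤ (p⁻¹) ^ 2 * ind A ω + (q⁻¹) ^ 2 * ind B ω := by
  have h1 : 0 < p⁻¹ := inv_pos.2 hp
  have h2 : 0 < q⁻¹ := inv_pos.2 hq
  unfold ind
  rw [div_eq_mul_inv, div_eq_mul_inv]
  split_ifs <;> nlinarith [mul_pos h1 h2, sq_nonneg (p⁻¹), sq_nonneg (q⁻¹)]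

/-- `(A / p - B / q) ^ 2 ≤ A / p ^ 2 + B / q ^ 2` for indicators `A`, `B` and `p, q > 0`, so the expectation is at most
`1 / p + 1 / q` (`pr_via`), and `p, q ≥ κ 16 ^ 3` (`co_pr` for `L.shift x`, `RSW.shift`). -/
theorem Xc_sq {L : Lat} {κ : ℕ → ℝ} (h : RSW L κ) (x : Pt) {r : ℤ} (hr : 64 ≤ r) :
    ex (fun ω => Xc L x r ω ^ 2) ≤ 2 / κ 16 ^ 3 := by
  have hp := xp11_pos h x hr true
  have hq := xp11_pos h x hr false
  have hp' := co_pr (h.shift x) true hr
  have hq' := co_pr (h.shift x) false hr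
  have hk : 0 < κ 16 ^ 3 := pow_pos (h.pos 16) 3
  have l1 : Lf (fun ω => Xc L x r ω ^ 2) := by
    have e : (fun ω => Xc L x r ω ^ 2) = fun ω => Xc L x r ω * Xc L x r ω := by
      funext ω
      ring
    rw [e]
    exact (Xc_lf L x r).mul (Xc_lf L x r)
  have l2 := (xp11_ind_lf L x r true).smul ((pr ((L.shift x).Co true r))⁻¹ ^ 2)
  have l3 := (xp11_ind_lf L x r false).smul ((pr ((L.shift x).Co false r))⁻¹ ^ 2)
  refine le_trans (ex_mono l1 (l2.add l3) (fun ω => xp11_sq hp hq ω)) ?_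
  rw [ex_add l2 l3, ex_smul (xp11_ind_lf L x r true), ex_smul (xp11_ind_lf L x r false), xp11_pr,
    xp11_pr]
  have e1 : ∀ t : ℝ, 0 < t → κ 16 ^ 3 ≤ t → t⁻¹ ^ 2 * t ≤ (κ 16 ^ 3)⁻¹ := by
    intro t ht hkt
    have e2 : t⁻¹ ^ 2 * t = t⁻¹ := by
      field_simp
    rw [e2]
    exact inv_anti₀ hk hkt
  have g1 := e1 _ hp hp'
  have g2 := e1 _ hq hq'
  have e3 : 2 / κ 16 ^ 3 = (κ 16 ^ 3)⁻¹ + (κ 16 ^ 3)⁻¹ := by
    rw [div_eq_mul_inv]
    ring
  rw [e3]
  exact add_le_add g1 g2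

private theorem xp11_ind_mul (A B : Cfg → Prop) (ω : Cfg) :
    ind A ω * ind B ω = ind (fun ω => A ω ∧ B ω) ω := by
  unfold ind
  by_cases h1 : A ω <;> by_cases h2 : B ω <;> simp [h1, h2]

private theorem xp11_prod {L : Lat} {x : Pt} {r N : ℤ} (c : Bool) :
    ex (fun ω => ind (L.HX true (-N) N (-N) N) ω *
      ind (fun ω => (L.shift x).Co c r (via (Equiv.addRight x) ω)) ω) =
    pr (fun ω => (L.shift x).HX true (-N - x.1) (N - x.1) (-N - x.2) (N - x.2) ω ∧
      (L.shift x).Co c r ω) := by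
  rw [← pr_via (Loc.and (Lat.HX.loc (L.shift x) true _ _ _ _) (Co_loc (L.shift x) c r))
    (Equiv.addRight x)]
  unfold pr
  congr 1
  funext ω
  rw [xp11_ind_mul]
  have h1 : L.HX true (-N) N (-N) N ω ↔
      (L.shift x).HX true (-N - x.1) (N - x.1) (-N - x.2) (N - x.2)
        (via (Equiv.addRight x) ω) := by
    rw [shift_hx, sub_add_cancel, sub_add_cancel, sub_add_cancel, sub_add_cancel]
  by_cases h2 : L.HX true (-N) N (-N) N ω ∧
      (L.shift x).Co c r (via (Equiv.addRight x) ω)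
  · have h3 : (L.shift x).HX true (-N - x.1) (N - x.1) (-N - x.2) (N - x.2)
        (via (Equiv.addRight x) ω) ∧ (L.shift x).Co c r (via (Equiv.addRight x) ω) :=
      ⟨h1.1 h2.1, h2.2⟩
    exact (if_pos h2).trans (if_pos h3).symm
  · have h3 : ¬ ((L.shift x).HX true (-N - x.1) (N - x.1) (-N - x.2) (N - x.2)
        (via (Equiv.addRight x) ω) ∧ (L.shift x).Co c r (via (Equiv.addRight x) ω)) :=
      fun h4 => h2 ⟨h1.2 h4.1, h4.2⟩
    exact (if_neg h2).trans (if_neg h3).symm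

/-- `core_infl` for the lattice `L' = L.shift x` and the rectangle `rect (-N - x.1) (N - x.1) (-N - x.2) (N - x.2)`, transported to `L`:
`L.HX true (-N) N (-N) N ω ↔ L'.HX true (-N - x.1) (N - x.1) (-N - x.2) (N - x.2) (via (Equiv.addRight x) ω)` (`shift_hx`), `ex_via` for the
product.  The expectation of `ind A * (ind U / p - ind V / q)` is `P(A ∧ U) / p - P(A ∧ V) / q`. -/
theorem Xc_infl {L : Lat} {κ : ℕ → ℝ} (h : RSW L κ) {x : Pt} {r N : ℤ} (hr : 64 ≤ r)
    (hx : nrm x + r < N) :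
    pr (fun ω => (L.shift x).SQ true r (-N - x.1) (N - x.1) (-N - x.2) (N - x.2) ω ∧
        (L.shift x).SQ false r (-N - x.1) (N - x.1) (-N - x.2) (N - x.2) ω) ≤
      ex (fun ω => ind (L.HX true (-N) N (-N) N) ω * Xc L x r ω) := by
  have hn : |x.1| ≤ nrm x ∧ |x.2| ≤ nrm x := ⟨le_max_left _ _, le_max_right _ _⟩
  have hn1 := abs_le.1 hn.1
  have hn2 := abs_le.1 hn.2
  have hc := core_infl (L := L.shift x) (r := r) (a := -N - x.1) (b := N - x.1) (p := -N - x.2)
    (q := N - x.2) (by omega) (by omega) (by omega) (by omega) (by omega)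
    (xp11_pos h x hr true) (xp11_pos h x hr false)
  refine le_trans hc (le_of_eq ?_)
  have lf : Lf (ind (L.HX true (-N) N (-N) N)) := (Lat.HX.loc L true _ _ _ _).lf
  have e1 : (fun ω => ind (L.HX true (-N) N (-N) N) ω * Xc L x r ω) = fun ω =>
      (pr ((L.shift x).Co true r))⁻¹ * (ind (L.HX true (-N) N (-N) N) ω *
        ind (fun ω => (L.shift x).Co true r (via (Equiv.addRight x) ω)) ω) -
      (pr ((L.shift x).Co false r))⁻¹ * (ind (L.HX true (-N) N (-N) N) ω *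
        ind (fun ω => (L.shift x).Co false r (via (Equiv.addRight x) ω)) ω) := by
    funext ω
    rw [xp11_eq]
    ring
  rw [e1, ex_sub ((lf.mul (xp11_ind_lf L x r true)).smul _)
    ((lf.mul (xp11_ind_lf L x r false)).smul _), ex_smul (lf.mul (xp11_ind_lf L x r true)),
    ex_smul (lf.mul (xp11_ind_lf L x r false)), xp11_prod, xp11_prod, div_eq_inv_mul,
    div_eq_inv_mul]

end XP

end SC
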