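import Pool.Agent.Lib_MP_e0a489.EX1
import Pool.Agent.Lib_MP_e0a489.PG2
import Pool.Agent.Lib_MP_e0a489.XP4

/-!
# MP_e0a489, exponents 5: exploration from a column
-/

set_option autoImplicit false

namespace SC

namespace XP

open Classical

variable {L : Lat}

/-- A connected set of colour `c` in `M` that meets the source is explored.  Let `s ∈ P ∩ S` and `v ∈ P \ S`.  `Cn.last` for the path
`Cn P s v` and the set `S`: `p ∈ S`, `Adj p q`, `Cn (P \ S) q v`; so `q ∈ L.nb S` and `v ∈ L.cl c (M \ S) S ω`. -/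
theorem Cx_of_path {c : Bool} {M S P : Set Pt} {ω : Cfg} (hP : L.Con P) (hPM : P ⊆ M)
    (hPc : P ⊆ L.col c ω) (hPS : (P ∩ S).Nonempty) : P ⊆ L.Cx c M S ω := by
  intro v hv
  by_cases hvS : v ∈ S
  · exact Or.inl hvS
  · obtain ⟨s, hsP, hsS⟩ := hPS
    obtain ⟨p, q, -, hpS, hpq, hqv⟩ := (hP s hsP v hv).last hsS hvS
    exact Or.inr ⟨q, ⟨p, hpS, hpq⟩, hqv.mono fun z hz => ⟨⟨hPM hz.1, hz.2⟩, hPc hz.1⟩⟩

/-- A path from `{v.1 ≤ x}` to `{x ≤ v.1}` contains a site of the column `x` (`Cn.exit` with `{v.1 < x}`, `Adj.near`). -/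
theorem meets_col {A : Set Pt} {u v : Pt} {x : ℤ} (h : L.Cn A u v) (hu : u.1 ≤ x) (hv : x ≤ v.1) :
    ∃ w, w.1 = x ∧ L.Cn A u w := by
  by_cases hux : u.1 = x
  · exact ⟨u, hux, Lat.Cn.refl h.left⟩
  · have hu' : u ∈ {z : Pt | z.1 < x} := lt_of_le_of_ne hu hux
    have hv' : v ∉ {z : Pt | z.1 < x} := fun hc => absurd (show v.1 < x from hc) (not_lt.2 hv)
    obtain ⟨p, q, hc, ha, hq, hqS⟩ := h.exit hu' hv'
    have h1 : p.1 < x := hc.right.2
    have h2 : ¬ q.1 < x := hqS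
    have h3 := abs_le.1 ha.near.1
    refine ⟨q, by omega, (hc.mono Set.inter_subset_left).trans (Lat.Cn.of_adj hc.right.1 hq ha)⟩

/-- Let `u`, `v` be the ends of the crossing, `P = {z | Cn (rect ∩ col true ω) u z}` (`con_cluster`).  `meets_col`: `P` meets
the column `x`, so `P ⊆ Cx ⊆ Rev` (`Cx_of_path`); the sites of `P` have the same colour in `ω'`. -/
theorem hx_of_rev {a b p q x : ℤ} (hax : a ≤ x) (hxb : x ≤ b) {ω ω' : Cfg}
    (h : ∀ v ∈ L.Rev true (rect a b p q) (rect x x p q) ω, ω v = ω' v)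
    (hω : L.HX true a b p q ω) : L.HX true a b p q ω' := by
  obtain ⟨u, v, hu, hv, hc⟩ := hω
  obtain ⟨w, hw, huw⟩ := meets_col (x := x) hc (by omega) (by omega)
  have hP : L.Con {z | L.Cn (rect a b p q ∩ L.col true ω) u z} := Lat.con_cluster _ u
  have hsub : {z | L.Cn (rect a b p q ∩ L.col true ω) u z} ⊆
      L.Cx true (rect a b p q) (rect x x p q) ω := by
    refine Cx_of_path hP (fun z hz => ?_) (fun z hz => ?_) ⟨w, huw, ?_⟩
    · exact (Lat.Cn.right (show L.Cn _ u z from hz)).1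
    · exact (Lat.Cn.right (show L.Cn _ u z from hz)).2
    · have h1 := huw.right.1
      exact ⟨⟨hw.ge, hw.le⟩, h1.2⟩
  refine ⟨u, v, hu, hv, (hP u (Lat.Cn.refl hc.left) v hc).mono (fun z hz => ?_)⟩
  have h1 : L.Cn (rect a b p q ∩ L.col true ω) u z := hz
  have h2 := h z (Or.inl (hsub hz))
  refine ⟨h1.right.1, ?_⟩
  have h3 : L.st ω z = true := h1.right.2
  show (L.typ z).getD (ω' z) = true
  rw [← h2]
  exact h3

/-- The crossing is determined by the explored sites: `hx_of_rev` in both directions, `Rev_stop`. -/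
theorem hx_stop {a b p q x : ℤ} (hax : a ≤ x) (hxb : x ≤ b) {ω ω' : Cfg}
    (h : ∀ v ∈ L.Rev true (rect a b p q) (rect x x p q) ω, ω v = ω' v) :
    L.HX true a b p q ω ↔ L.HX true a b p q ω' := by
  refine ⟨hx_of_rev hax hxb h, hx_of_rev hax hxb ?_⟩
  have e := Lat.Rev_stop L true (rect a b p q) (rect x x p q) ω ω' h
  rw [e]
  exact fun v hv => (h v hv).symm

/-- the explored sites lie in the domain -/
theorem Rev_sub {c : Bool} {M S : Set Pt} (h : S ⊆ M) (ω : Cfg) : L.Rev c M S ω ⊆ M := by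
  rintro v (hv | hv)
  · exact Lat.Cx_sub h hv
  · exact hv.1

theorem bx_rect5 (N : ℤ) : bx N = rect (-N) N (-N) N := by
  ext v
  constructor
  · intro h
    obtain ⟨h1, h2⟩ := max_le_iff.1 (show nrm v ≤ N from h)
    exact ⟨abs_le.1 h1, abs_le.1 h2⟩
  · intro h
    exact max_le (abs_le.2 h.1) (abs_le.2 h.2)

theorem src_sub {N x : ℤ} (hx : |x| ≤ N) : rect x x (-N) N ⊆ bx N := by
  rw [bx_rect5]
  intro v hv
  have h := abs_le.1 hx
  exact ⟨⟨h.1.trans hv.1.1, hv.1.2.trans h.2⟩, hv.2⟩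

/-- an explored site belongs to a block of `Rb` (`exists_blk`, `Rev_sub`) -/
theorem Rev_blk {M w x : ℤ} (hw : w % 2 = 1) (hw0 : 0 < w) (hx : |x| ≤ M * w + w / 2) {ω : Cfg}
    {v : Pt} (hv : v ∈ L.Rev true (bx (M * w + w / 2))
      (rect x x (-(M * w + w / 2)) (M * w + w / 2)) ω) :
    ∃ B ∈ L.Rb M w x ω, v ∈ B := by
  obtain ⟨z, hz, hvz⟩ := exists_blk hw hw0 (Rev_sub (src_sub hx) ω hv)
  refine ⟨blkF w z, ?_, hvz⟩
  unfold Lat.Rb
  rw [Finset.mem_filter]
  exact ⟨Finset.mem_image_of_mem _ (mem_rectF_nrm.2 hz), v, hvz, hv⟩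

/-- `Rb` is a stopping set: if `ω = ω'` on the blocks of `Rb ω`, then `ω = ω'` on the explored sites (`Rev_blk`), so the explored
sites are the same (`Rev_stop`). -/
theorem Rb_stop {M w x : ℤ} (hw : w % 2 = 1) (hw0 : 0 < w) (hx : |x| ≤ M * w + w / 2) :
    BStop (blks M w) (L.Rb M w x) := by
  refine ⟨fun ω => Finset.filter_subset _ _, fun ω ω' h => ?_⟩
  have e := Lat.Rev_stop L true (bx (M * w + w / 2))
    (rect x x (-(M * w + w / 2)) (M * w + w / 2)) ω ω' (fun v hv => by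
      obtain ⟨B, hB, hvB⟩ := Rev_blk hw hw0 hx hv
      exact h B hB v hvB)
  unfold Lat.Rb
  rw [e]

/-- `Rb` determines the crossing (`hx_stop`, `Rev_blk`; `bx N = rect (-N) N (-N) N`) -/
theorem Rb_hx {M w x : ℤ} (hw : w % 2 = 1) (hw0 : 0 < w) (hx : |x| ≤ M * w + w / 2) {ω ω' : Cfg}
    (h : ∀ B ∈ L.Rb M w x ω, ∀ v ∈ B, ω v = ω' v) :
    ind (L.HX true (-(M * w + w / 2)) (M * w + w / 2) (-(M * w + w / 2)) (M * w + w / 2)) ω' =
      ind (L.HX true (-(M * w + w / 2)) (M * w + w / 2) (-(M * w + w / 2)) (M * w + w / 2)) ω := by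
  have e : L.HX true (-(M * w + w / 2)) (M * w + w / 2) (-(M * w + w / 2)) (M * w + w / 2) ω ↔
      L.HX true (-(M * w + w / 2)) (M * w + w / 2) (-(M * w + w / 2)) (M * w + w / 2) ω' := by
    refine hx_stop (x := x) (by have := (abs_le.1 hx).1; omega) (abs_le.1 hx).2 (fun v hv => ?_)
    rw [← bx_rect5] at hv
    obtain ⟨B, hB, hvB⟩ := Rev_blk hw hw0 hx hv
    exact h B hB v hvB
  unfold ind
  rw [propext e]

/-- The set of explored blocks depends only on the sites of `bx (M w + w / 2)` (if `ω = ω'` there, then `ω = ω'` on the explored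
sites, `Rev_stop`), so the event is local. -/
theorem Rb_dep {M w x : ℤ} (hw : w % 2 = 1) (hw0 : 0 < w) (hx : |x| ≤ M * w + w / 2)
    (B : Finset Pt) : Dep (fun ω => B ∈ L.Rb M w x ω) (bx (M * w + w / 2)) := by
  intro ω ω' h
  have e := Lat.Rev_stop L true (bx (M * w + w / 2))
    (rect x x (-(M * w + w / 2)) (M * w + w / 2)) ω ω' (fun v hv => h v (Rev_sub (src_sub hx) ω hv))
  show (B ∈ L.Rb M w x ω) = (B ∈ L.Rb M w x ω')
  unfold Lat.Rb
  rw [e]

end XP

end SC
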