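import Pool.Agent.Lib_MP_e0a489.TD4
import Pool.Agent.Lib_MP_e0a489.XP1
import Pool.Agent.Lib_MP_e0a489.XP5

/-!
# MP_e0a489, exponents 6: probability that a block is explored
-/

set_option autoImplicit false

namespace SC

namespace XP

open Classical

variable {L : Lat}

/-- If the block number `z` is explored from the column `u w` and `n = |z.1 - u| ≥ 2`, there is an open arm from distance
`≤ w` of the centre `x = (z.1 w, z.2 w)` to distance `≥ (n - 1) w`.  There is `v ∈ blkF w z` in `Cx ∪ bd Q Cx`, `Q = bx N`, `S` = column `u w`;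
so there is `v' ∈ Cx`, `v' = v` or `Adj v' v`, with `nrm (v' - x) ≤ w / 2 + 1 ≤ w`.  `v' ∉ S`, because `|v'.1 - u w| ≥ n w - w > 0`.  So
`v' ∈ L.cl true (Q \ S) S ω`: a path in `(Q \ S) ∩ col true ω` from `u' ∈ L.nb S` to `v'`, and `|u'.1 - u w| ≤ 1` gives
`nrm (u' - x) ≥ n w - 1 ≥ (n - 1) w`. -/
theorem Rb_arm {M w u : ℤ} {z : Pt} {ω : Cfg} (hw : w % 2 = 1) (hw0 : 0 < w)
    (hn : 2 ≤ |z.1 - u|) (h : blkF w z ∈ L.Rb M w (u * w) ω) :
    L.Arm true (bx (M * w + w / 2)) {v | nrm (v - (z.1 * w, z.2 * w)) ≤ w}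
      {v | (|z.1 - u| - 1) * w ≤ nrm (v - (z.1 * w, z.2 * w))} ω := by
  obtain ⟨-, v, hvB, hv⟩ := Finset.mem_filter.1 h
  have hvB' := mem_rectF.1 hvB
  have hvx : nrm (v - (z.1 * w, z.2 * w)) ≤ w / 2 := by
    obtain ⟨⟨h1, h2⟩, h3, h4⟩ := hvB'
    refine max_le (abs_le.2 ⟨?_, ?_⟩) (abs_le.2 ⟨?_, ?_⟩)
    · show -(w / 2) ≤ v.1 - z.1 * w
      linarith
    · show v.1 - z.1 * w ≤ w / 2
      linarith
    · show -(w / 2) ≤ v.2 - z.2 * w
      linarith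
    · show v.2 - z.2 * w ≤ w / 2
      linarith
  have hww : w / 2 + 1 ≤ w := by omega
  have key : ∃ v', v' ∈ L.Cx true (bx (M * w + w / 2))
      (rect (u * w) (u * w) (-(M * w + w / 2)) (M * w + w / 2)) ω ∧
      nrm (v' - (z.1 * w, z.2 * w)) ≤ w := by
    rcases hv with hv | ⟨-, v', hv', hadj⟩
    · exact ⟨v, hv, by omega⟩
    · have h5 := abs_le.1 (adj_nrm hadj (z.1 * w, z.2 * w))
      exact ⟨v', hv', by omega⟩
  obtain ⟨v', hv', hvn⟩ := key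
  have hzu : |z.1 * w - u * w| = |z.1 - u| * w := by
    rw [← sub_mul, abs_mul, abs_of_pos hw0]
  have h6 : |v'.1 - z.1 * w| ≤ w := (abs_nrm (v' - (z.1 * w, z.2 * w))).1.trans hvn
  have h7 : 2 * w ≤ |z.1 - u| * w := mul_le_mul_of_nonneg_right hn hw0.le
  rcases hv' with hS | ⟨u', ⟨s, hs, hsu⟩, hc⟩
  · exfalso
    have h8 : v'.1 = u * w := le_antisymm hS.1.2 hS.1.1
    rw [h8, abs_sub_comm, hzu] at h6
    omega
  · have h8 : s.1 = u * w := le_antisymm hs.1.2 hs.1.1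
    have h9 : |u * w - u'.1| ≤ 1 := by
      rw [← h8]
      exact hsu.near.1
    refine ⟨v', hvn, u', ?_, hc.symm.mono fun y hy => ⟨hy.1.1, hy.2⟩⟩
    have h10 : |u'.1 - z.1 * w| ≤ nrm (u' - (z.1 * w, z.2 * w)) :=
      (abs_nrm (u' - (z.1 * w, z.2 * w))).1
    have h11 : |z.1 * w - u * w| ≤ |z.1 * w - u'.1| + |u'.1 - u * w| := abs_sub_le _ _ _
    rw [abs_sub_comm (z.1 * w) u'.1, abs_sub_comm u'.1 (u * w), hzu] at h11
    show (|z.1 - u| - 1) * w ≤ nrm (u' - (z.1 * w, z.2 * w))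
    have h12 : (|z.1 - u| - 1) * w = |z.1 - u| * w - w := by ring
    rw [h12]
    omega

/-- Probability that the block number `z` is explored from the column `u w`.  Let `C₁`, `c` be the constants of `one_arm'` and
`C = 3 C₁ + 2`, `n = |z.1 - u|`.  For `n ≤ 1` the right side is at least `2 (1/2) ^ c ≥ 1` (`c ≤ 1/2`).  For `n ≥ 2` use `Rb_arm`, `one_arm'` with `r = w`,
`R = (n - 1) w`: at most `C₁ (1 / (n - 1)) ^ c ≤ C₁ (3 / (n + 1)) ^ c ≤ 3 C₁ (1 / (1 + n)) ^ c`.  (`Rb_dep`: the event is local; `bx N` is finite.) -/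
theorem Rb_pr (κ : ℕ → ℝ) : ∃ C c : ℝ, 0 < C ∧ 0 < c ∧ c ≤ 1 / 2 ∧ ∀ L : Lat, RSW L κ →
    ∀ (M w u : ℤ) (z : Pt), w % 2 = 1 → 0 < w → |u| ≤ M →
      pr (fun ω => blkF w z ∈ L.Rb M w (u * w) ω) ≤
        C * (1 / (1 + ((|z.1 - u| : ℤ) : ℝ))) ^ c := by
  obtain ⟨C₁, c, hC₁, hc, hc2, H⟩ := one_arm' κ
  refine ⟨3 * C₁ + 2, c, by positivity, hc, hc2, fun L hL M w u z hw hw0 hu => ?_⟩
  have hn0 : 0 ≤ |z.1 - u| := abs_nonneg _
  have hn0' : (0 : ℝ) ≤ ((|z.1 - u| : ℤ) : ℝ) := by exact_mod_cast hn0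
  have hpos : (0 : ℝ) ≤ (1 / (1 + ((|z.1 - u| : ℤ) : ℝ))) ^ c :=
    Real.rpow_nonneg (by positivity) _
  rcases lt_or_ge |z.1 - u| 2 with hn | hn
  · have h1 : ((|z.1 - u| : ℤ) : ℝ) ≤ 1 := by
      have : |z.1 - u| ≤ 1 := by omega
      exact_mod_cast this
    have h2 : (1 / 2 : ℝ) ≤ 1 / (1 + ((|z.1 - u| : ℤ) : ℝ)) := by
      apply one_div_le_one_div_of_le (by positivity)
      linarith
    have h3 : (1 / 2 : ℝ) ^ c ≤ (1 / (1 + ((|z.1 - u| : ℤ) : ℝ))) ^ c :=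
      Real.rpow_le_rpow (by norm_num) h2 hc.le
    have h4 : (1 / 2 : ℝ) ^ (1 : ℝ) ≤ (1 / 2 : ℝ) ^ c :=
      Real.rpow_le_rpow_of_exponent_ge (by norm_num) (by norm_num) (by linarith)
    rw [Real.rpow_one] at h4
    have h5 := pr_le_one (fun ω => blkF w z ∈ L.Rb M w (u * w) ω)
    have h6 : (0 : ℝ) ≤ 3 * C₁ * (1 / (1 + ((|z.1 - u| : ℤ) : ℝ))) ^ c :=
      mul_nonneg (by positivity) hpos
    nlinarith
  · have hfin : (bx (M * w + w / 2)).Finite := by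
      rw [bx_rect5, ← coe_rectF]
      exact Finset.finite_toSet _
    have hxN : |u * w| ≤ M * w + w / 2 := by
      rw [abs_mul, abs_of_pos hw0]
      have := mul_le_mul_of_nonneg_right hu hw0.le
      omega
    have hloc : Loc (fun ω => blkF w z ∈ L.Rb M w (u * w) ω) := by
      refine ⟨hfin.toFinset, ?_⟩
      rw [Set.Finite.coe_toFinset]
      exact Rb_dep hw hw0 hxN _
    have h1 : pr (fun ω => blkF w z ∈ L.Rb M w (u * w) ω) ≤
        pr (L.Arm true (bx (M * w + w / 2)) {v | nrm (v - (z.1 * w, z.2 * w)) ≤ w}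
          {v | (|z.1 - u| - 1) * w ≤ nrm (v - (z.1 * w, z.2 * w))}) :=
      pr_mono hloc (Lat.Arm.loc L true _ _ _ hfin) fun ω hω => Rb_arm hw hw0 hn hω
    have h2 := H L hL true (z.1 * w, z.2 * w) w ((|z.1 - u| - 1) * w) (bx (M * w + w / 2))
      {v | nrm (v - (z.1 * w, z.2 * w)) ≤ w}
      {v | (|z.1 - u| - 1) * w ≤ nrm (v - (z.1 * w, z.2 * w))} (by omega)
      (by nlinarith) hfin (fun _ hv => hv) (fun _ hv => hv)
    have hwR : (0 : ℝ) < (w : ℝ) := by exact_mod_cast hw0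
    have hnR : (2 : ℝ) ≤ ((|z.1 - u| : ℤ) : ℝ) := by exact_mod_cast hn
    have h3 : ((w : ℝ) / (((|z.1 - u| - 1) * w : ℤ) : ℝ)) ≤
        3 * (1 / (1 + ((|z.1 - u| : ℤ) : ℝ))) := by
      rw [Int.cast_mul, Int.cast_sub, Int.cast_one]
      rw [mul_one_div, div_le_div_iff₀ (mul_pos (by linarith) hwR) (by linarith)]
      nlinarith
    have h4 : ((w : ℝ) / (((|z.1 - u| - 1) * w : ℤ) : ℝ)) ^ c ≤
        (3 * (1 / (1 + ((|z.1 - u| : ℤ) : ℝ)))) ^ c := by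
      refine Real.rpow_le_rpow ?_ h3 hc.le
      rw [Int.cast_mul, Int.cast_sub, Int.cast_one]
      exact div_nonneg hwR.le (mul_nonneg (by linarith) hwR.le)
    have h5 : (3 * (1 / (1 + ((|z.1 - u| : ℤ) : ℝ)))) ^ c =
        3 ^ c * (1 / (1 + ((|z.1 - u| : ℤ) : ℝ))) ^ c :=
      Real.mul_rpow (by norm_num) (by positivity)
    have h6 : (3 : ℝ) ^ c ≤ 3 := by
      calc (3 : ℝ) ^ c ≤ 3 ^ (1 : ℝ) :=
            Real.rpow_le_rpow_of_exponent_le (by norm_num) (by linarith)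
        _ = 3 := Real.rpow_one 3
    calc pr (fun ω => blkF w z ∈ L.Rb M w (u * w) ω)
        ≤ C₁ * ((w : ℝ) / (((|z.1 - u| - 1) * w : ℤ) : ℝ)) ^ c := h1.trans h2
      _ ≤ C₁ * (3 * (1 / (1 + ((|z.1 - u| : ℤ) : ℝ))) ^ c) := by
          refine mul_le_mul_of_nonneg_left ?_ hC₁.le
          rw [h5] at h4
          exact h4.trans (mul_le_mul_of_nonneg_right h6 hpos)
      _ ≤ (3 * C₁ + 2) * (1 / (1 + ((|z.1 - u| : ℤ) : ℝ))) ^ c := by
          have : (0 : ℝ) ≤ 2 * (1 / (1 + ((|z.1 - u| : ℤ) : ℝ))) ^ c :=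
            mul_nonneg (by norm_num) hpos
          nlinarith

end XP

end SC
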