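import Pool.Agent.Lib_MP_e0a489.XP11
import Pool.Agent.Lib_MP_e0a489.XP12
import Pool.Agent.Lib_MP_e0a489.XP6
import Pool.Agent.Lib_MP_e0a489.XP8

/-!
# MP_e0a489, exponents 13: upper bound
-/

set_option autoImplicit false

namespace SC

variable [IfL]

namespace XP

open Classical

/-- FIRST LEVEL INEQUALITY for the blocks of side `w = 2 r + 1`, `N = M w + r`, and the exploration from the column `0`: `level_one` with `𝓑 = blks M w`,
`R = L.Rb M w 0` (`Rb_stop`, `Rb_hx`; `w / 2 = r`), `f = ind (HX true)`, `X` from `exists_X` for `XX z = Xc L (z.1 w, z.2 w) r` if `nrm z ≤ M / 2`, and `XX z = 0` otherwise,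
`V = 2 / κ 16 ^ 3` (`Xc_dep`, `blk_bxAt`, `Xc_ex`, `Xc_sq`).  Sums over `blks` are sums over `z` (`sum_blks`). -/
theorem level_sum {L : Lat} {κ : ℕ → ℝ} (h : RSW L κ) {M r : ℤ} (hr : 64 ≤ r) (hM : 0 ≤ M) :
    ∑ z ∈ (rectF (-M) M (-M) M).filter (fun z => nrm z ≤ M / 2),
        ex (fun ω => ind (L.HX true (-(M * (2 * r + 1) + r)) (M * (2 * r + 1) + r)
          (-(M * (2 * r + 1) + r)) (M * (2 * r + 1) + r)) ω *
            Xc L (z.1 * (2 * r + 1), z.2 * (2 * r + 1)) r ω) ≤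
      Real.sqrt (2 / κ 16 ^ 3 * ∑ z ∈ rectF (-M) M (-M) M,
        pr (fun ω => blkF (2 * r + 1) z ∈ L.Rb M (2 * r + 1) 0 ω)) := by
  have hr0 : 0 ≤ r := by omega
  have hw : (2 * r + 1) % 2 = 1 := by omega
  have hw0 : 0 < 2 * r + 1 := by omega
  have hwr : (2 * r + 1) / 2 = r := by omega
  have hN0 : 0 ≤ M * (2 * r + 1) := mul_nonneg hM hw0.le
  have hx : |(0 : ℤ)| ≤ M * (2 * r + 1) + (2 * r + 1) / 2 := by
    rw [abs_zero, hwr]
    omega
  obtain ⟨X, hX⟩ := exists_X hw hw0 (fun z => if nrm z ≤ M / 2 then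
    Xc L (z.1 * (2 * r + 1), z.2 * (2 * r + 1)) r else fun _ => 0)
  have hV0 : 0 < κ 16 := h.pos 16
  have hblk : ∀ B ∈ blks M (2 * r + 1), ∃ z, B = blkF (2 * r + 1) z := by
    intro B hB
    unfold blks at hB
    rw [Finset.mem_image] at hB
    obtain ⟨z, -, hz⟩ := hB
    exact ⟨z, hz.symm⟩
  have key := level_one (blks_disj (M := M) hw hw0) (Rb_stop (L := L) (M := M) (x := 0) hw hw0 hx)
    (f := ind (L.HX true (-(M * (2 * r + 1) + (2 * r + 1) / 2))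
      (M * (2 * r + 1) + (2 * r + 1) / 2) (-(M * (2 * r + 1) + (2 * r + 1) / 2))
      (M * (2 * r + 1) + (2 * r + 1) / 2)))
    (Lat.HX.loc L true _ _ _ _).lf
    (fun ω => by unfold ind; split_ifs <;> norm_num)
    (fun ω => by unfold ind; split_ifs <;> norm_num)
    (fun ω ω' hωω => Rb_hx hw hw0 hx hωω)
    (X := X) (V := 2 / κ 16 ^ 3)
    (fun B hB => by
      obtain ⟨z, rfl⟩ := hblk B hB
      rw [hX z]
      split_ifs
      · rw [coe_blkF, blk_bxAt]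
        exact Xc_dep L _ hr0
      · intro ω ω' _
        rfl)
    (fun B hB => by
      obtain ⟨z, rfl⟩ := hblk B hB
      rw [hX z]
      split_ifs
      · exact Xc_ex h _ hr
      · exact ex_const 0)
    (fun B hB => by
      obtain ⟨z, rfl⟩ := hblk B hB
      rw [hX z]
      split_ifs
      · exact Xc_sq h _ hr
      · have e : (fun _ : Cfg => ((0 : ℝ)) ^ 2) = fun _ => (0 : ℝ) := by
          funext _
          norm_num
        rw [e, ex_const]
        positivity)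
  rw [hwr] at key
  rw [sum_blks hw hw0, sum_blks hw hw0] at key
  refine le_trans (le_of_eq ?_) key
  rw [Finset.sum_filter]
  refine Finset.sum_congr rfl fun z _ => ?_
  rw [hX z]
  split_ifs
  · rfl
  · have e : (fun ω => ind (L.HX true (-(M * (2 * r + 1) + r)) (M * (2 * r + 1) + r)
        (-(M * (2 * r + 1) + r)) (M * (2 * r + 1) + r)) ω * (fun _ : Cfg => (0 : ℝ)) ω) =
        fun _ => (0 : ℝ) := by
      funext ω
      ring
    rw [e, ex_const]

/-- UPPER BOUND for `N = M (2 r + 1) + r`.  With the constants `C₁` of `box_low`, `C₂`, `c` of `Rb_pr` and `V = 2 / κ 16 ^ 3`: every term of the left side of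
`level_sum` is at least `al L r N / C₁` (`Xc_infl`, `box_low`: `2 nrm x ≤ M w ≤ N`, `nrm x + r < N`, `32 r ≤ N`), there are at least `M ^ 2` terms
(`card_half`); the sum on the right is at most `C₂ 4 (2 M + 1) ^ (2 - c)` (`Rb_pr` with `u = 0`, `sum_blk`).  So
`M ^ 2 al L r N ≤ C₁ sqrt (4 V C₂ (2 M + 1) ^ (2 - c)) ≤ C M ^ (1 - c / 2)`. -/
theorem al_up_M (κ : ℕ → ℝ) : ∃ (C c : ℝ) (R₀ : ℤ), 0 < C ∧ 0 < c ∧ c ≤ 1 / 4 ∧ 64 ≤ R₀ ∧
    ∀ L : Lat, Fam L κ → ∀ r M : ℤ, R₀ ≤ r → 32 ≤ M →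
      al L r (M * (2 * r + 1) + r) ≤ C * (1 / (M : ℝ)) ^ (1 + c) := by
  obtain ⟨C₁, R₁, hC₁, hR₁, H₁⟩ := box_low κ
  obtain ⟨C₂, c, hC₂, hc0, hc1, H₂⟩ := Rb_pr κ
  set V : ℝ := |2 / κ 16 ^ 3| with hV
  have hV0 : 0 ≤ V := abs_nonneg _
  refine ⟨C₁ * (6 * Real.sqrt (V * C₂)) + 1, c / 2, R₁, by positivity, by linarith, by linarith,
    hR₁, ?_⟩
  intro L hL r M hr hM
  have hrsw : RSW L κ := hL.rsw
  have hr64 : 64 ≤ r := le_trans hR₁ hr
  have hw : (2 * r + 1) % 2 = 1 := by omega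
  have hw0 : 0 < 2 * r + 1 := by omega
  have hM0 : 0 ≤ M := by omega
  have hMr : (1 : ℝ) ≤ M := by
    have : (1 : ℤ) ≤ M := by omega
    exact_mod_cast this
  have hMr0 : (0 : ℝ) < M := by linarith
  set N : ℤ := M * (2 * r + 1) + r with hN
  have hMw : 32 * (2 * r + 1) ≤ M * (2 * r + 1) := mul_le_mul_of_nonneg_right hM hw0.le
  have hal0 : 0 ≤ al L r N := by
    unfold al
    split_ifs
    · exact pr_nonneg _
    · norm_num
  -- every term is large
  have hterm : ∀ z ∈ (rectF (-M) M (-M) M).filter (fun z => nrm z ≤ M / 2),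
      al L r N / C₁ ≤ ex (fun ω => ind (L.HX true (-N) N (-N) N) ω *
        Xc L (z.1 * (2 * r + 1), z.2 * (2 * r + 1)) r ω) := by
    intro z hz
    have hz2 : nrm z ≤ M / 2 := (Finset.mem_filter.1 hz).2
    have hn : nrm (z.1 * (2 * r + 1), z.2 * (2 * r + 1)) = nrm z * (2 * r + 1) := by
      unfold nrm
      simp only [abs_mul, abs_of_pos hw0]
      rw [max_mul_of_nonneg _ _ hw0.le]
    have hz3 : 2 * nrm z ≤ M := by omega
    have hz4 : 2 * (nrm z * (2 * r + 1)) ≤ M * (2 * r + 1) := by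
      have := mul_le_mul_of_nonneg_right hz3 hw0.le
      linarith
    have h1 := H₁ L hL (z.1 * (2 * r + 1), z.2 * (2 * r + 1)) r N hr (by omega) (by
      rw [hn]
      omega)
    have h2 := Xc_infl hrsw (x := (z.1 * (2 * r + 1), z.2 * (2 * r + 1))) (N := N) hr64 (by
      rw [hn]
      omega)
    rw [div_le_iff₀ hC₁]
    calc al L r N ≤ _ := h1
      _ ≤ C₁ * _ := mul_le_mul_of_nonneg_left h2 hC₁.le
      _ = _ := mul_comm _ _
  have hlow : (M : ℝ) ^ 2 * (al L r N / C₁) ≤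
      ∑ z ∈ (rectF (-M) M (-M) M).filter (fun z => nrm z ≤ M / 2),
        ex (fun ω => ind (L.HX true (-N) N (-N) N) ω *
          Xc L (z.1 * (2 * r + 1), z.2 * (2 * r + 1)) r ω) := by
    have h1 := Finset.card_nsmul_le_sum _ _ _ hterm
    rw [nsmul_eq_mul] at h1
    refine le_trans (mul_le_mul_of_nonneg_right (card_half hM0) (by positivity)) h1
  have hup : ∑ z ∈ rectF (-M) M (-M) M,
      pr (fun ω => blkF (2 * r + 1) z ∈ L.Rb M (2 * r + 1) 0 ω) ≤
        C₂ * (4 * (2 * (M : ℝ) + 1) ^ (2 - c)) := by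
    have h1 : ∀ z ∈ rectF (-M) M (-M) M,
        pr (fun ω => blkF (2 * r + 1) z ∈ L.Rb M (2 * r + 1) 0 ω) ≤
          C₂ * (1 / (1 + ((|z.1 - 0| : ℤ) : ℝ))) ^ c := by
      intro z _
      have h2 := H₂ L hrsw M (2 * r + 1) 0 z hw hw0 (by rw [abs_zero]; exact hM0)
      rwa [zero_mul] at h2
    refine le_trans (Finset.sum_le_sum h1) ?_
    rw [← Finset.mul_sum]
    exact mul_le_mul_of_nonneg_left (sum_blk hc0.le hc1 hM0) hC₂.le
  have hsum := level_sum (M := M) hrsw hr64 hM0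
  rw [← hN] at hsum
  have hS0 : 0 ≤ ∑ z ∈ rectF (-M) M (-M) M,
      pr (fun ω => blkF (2 * r + 1) z ∈ L.Rb M (2 * r + 1) 0 ω) :=
    Finset.sum_nonneg fun z _ => pr_nonneg _
  have hpow : (2 * (M : ℝ) + 1) ^ (2 - c) ≤ 9 * (M : ℝ) ^ (2 - c) := by
    have h1 : (2 * (M : ℝ) + 1) ^ (2 - c) ≤ (3 * (M : ℝ)) ^ (2 - c) :=
      Real.rpow_le_rpow (by positivity) (by linarith) (by linarith)
    rw [Real.mul_rpow (by norm_num) hMr0.le] at h1
    have h2 : (3 : ℝ) ^ (2 - c) ≤ 9 := by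
      calc (3 : ℝ) ^ (2 - c) ≤ (3 : ℝ) ^ (2 : ℝ) :=
            Real.rpow_le_rpow_of_exponent_le (by norm_num) (by linarith)
        _ = 9 := by norm_num
    exact le_trans h1 (mul_le_mul_of_nonneg_right h2 (by positivity))
  have hsq : Real.sqrt (2 / κ 16 ^ 3 * ∑ z ∈ rectF (-M) M (-M) M,
      pr (fun ω => blkF (2 * r + 1) z ∈ L.Rb M (2 * r + 1) 0 ω)) ≤
        6 * Real.sqrt (V * C₂) * (M : ℝ) ^ (1 - c / 2) := by
    apply Real.sqrt_le_iff.2
    refine ⟨by positivity, ?_⟩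
    have h1 : 2 / κ 16 ^ 3 * ∑ z ∈ rectF (-M) M (-M) M,
        pr (fun ω => blkF (2 * r + 1) z ∈ L.Rb M (2 * r + 1) 0 ω) ≤
          V * (C₂ * (4 * (9 * (M : ℝ) ^ (2 - c)))) := by
      refine le_trans (mul_le_mul_of_nonneg_right (le_abs_self _) hS0) ?_
      refine mul_le_mul_of_nonneg_left (le_trans hup ?_) hV0
      refine mul_le_mul_of_nonneg_left ?_ hC₂.le
      linarith
    have h2 : ((M : ℝ) ^ (1 - c / 2)) ^ 2 = (M : ℝ) ^ (2 - c) := by
      rw [← Real.rpow_natCast, ← Real.rpow_mul hMr0.le]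
      congr 1
      push_cast
      ring
    have h3 : Real.sqrt (V * C₂) ^ 2 = V * C₂ := Real.sq_sqrt (by positivity)
    refine le_trans h1 (le_of_eq ?_)
    rw [mul_pow, mul_pow, h2, h3]
    ring
  have hmain : (M : ℝ) ^ 2 * (al L r N / C₁) ≤
      6 * Real.sqrt (V * C₂) * (M : ℝ) ^ (1 - c / 2) := le_trans hlow (le_trans hsum hsq)
  have hM2 : (0 : ℝ) < (M : ℝ) ^ 2 := by positivity
  have e1 : (1 / (M : ℝ)) ^ (1 + c / 2) * (M : ℝ) ^ 2 = (M : ℝ) ^ (1 - c / 2) := by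
    rw [one_div, Real.inv_rpow hMr0.le, ← Real.rpow_neg hMr0.le, ← Real.rpow_natCast,
      ← Real.rpow_add hMr0]
    congr 1
    push_cast
    ring
  have h5 : al L r N ≤ C₁ * (6 * Real.sqrt (V * C₂)) * (1 / (M : ℝ)) ^ (1 + c / 2) := by
    have h6 : (M : ℝ) ^ 2 * al L r N ≤
        (M : ℝ) ^ 2 * (C₁ * (6 * Real.sqrt (V * C₂)) * (1 / (M : ℝ)) ^ (1 + c / 2)) := by
      have h7 : (M : ℝ) ^ 2 * al L r N = C₁ * ((M : ℝ) ^ 2 * (al L r N / C₁)) := by
        field_simp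
      rw [h7]
      refine le_trans (mul_le_mul_of_nonneg_left hmain hC₁.le) (le_of_eq ?_)
      rw [← e1]
      ring
    exact le_of_mul_le_mul_left h6 hM2
  refine le_trans h5 ?_
  refine mul_le_mul_of_nonneg_right (by linarith) (by positivity)

/-- UPPER BOUND.  If `R < 100 r`: `al ≤ 1 ≤ 100 ^ 2 (r / R) ^ (1 + c)`.  Otherwise `M = (R - r) / (2 r + 1) ≥ 32` (integer part), `N = M (2 r + 1) + r ≤ R`,
`al L r R ≤ al L r N` (`AlProps.mono`), and `M ≥ R / (4 r)`, so `(1 / M) ^ (1 + c) ≤ 16 (r / R) ^ (1 + c)`. -/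
theorem al_up (κ : ℕ → ℝ) : ∃ (C c : ℝ) (R₀ : ℤ), 0 < C ∧ 0 < c ∧ c ≤ 1 / 4 ∧ 64 ≤ R₀ ∧
    ∀ L : Lat, Fam L κ → ∀ r R : ℤ, R₀ ≤ r → r ≤ R →
      al L r R ≤ C * ((r : ℝ) / R) ^ (1 + c) := by
  obtain ⟨C₀, c, R₁, hC₀, hc0, hc1, hR₁, H₁⟩ := al_up_M κ
  obtain ⟨C₃, R₃, H₃⟩ := al_props κ
  refine ⟨100 ^ 2 + 16 * C₀, c, max R₁ R₃, by positivity, hc0, hc1, le_trans hR₁ (le_max_left _ _),
    ?_⟩
  intro L hL r R hr hrR
  have hr1 : R₁ ≤ r := le_trans (le_max_left _ _) hr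
  have hr64 : 64 ≤ r := le_trans hR₁ hr1
  have hP := H₃ L hL
  have hr0 : (0 : ℝ) < r := by
    have : (0 : ℤ) < r := by omega
    exact_mod_cast this
  have hR0 : (0 : ℝ) < R := by
    have : (0 : ℤ) < R := by omega
    exact_mod_cast this
  have hq0 : (0 : ℝ) < (r : ℝ) / R := by positivity
  by_cases hlt : R < 100 * r
  · have h1 : (1 : ℝ) / 100 ≤ (r : ℝ) / R := by
      rw [div_le_div_iff₀ (by norm_num) hR0]
      have : (R : ℝ) ≤ 100 * r := by exact_mod_cast hlt.le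
      linarith
    have h2 : ((1 : ℝ) / 100) ^ (2 : ℝ) ≤ ((r : ℝ) / R) ^ (1 + c) := by
      calc ((1 : ℝ) / 100) ^ (2 : ℝ) ≤ ((1 : ℝ) / 100) ^ (1 + c) :=
            Real.rpow_le_rpow_of_exponent_ge (by norm_num) (by norm_num) (by linarith)
        _ ≤ _ := Real.rpow_le_rpow (by norm_num) h1 (by linarith)
    have h3 : ((1 : ℝ) / 100) ^ (2 : ℝ) = 1 / 100 ^ 2 := by norm_num
    rw [h3] at h2
    have h4 : (1 : ℝ) ≤ 100 ^ 2 * ((r : ℝ) / R) ^ (1 + c) := by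
      have := mul_le_mul_of_nonneg_left h2 (show (0 : ℝ) ≤ 100 ^ 2 by norm_num)
      linarith
    have h5 : 0 ≤ 16 * C₀ * ((r : ℝ) / R) ^ (1 + c) := by positivity
    have h6 := hP.le1 r R
    rw [add_mul]
    linarith
  · have hge : 100 * r ≤ R := not_lt.1 hlt
    have hw0 : 0 < 2 * r + 1 := by omega
    set M : ℤ := (R - r) / (2 * r + 1) with hM
    have hM1 : M * (2 * r + 1) ≤ R - r := Int.ediv_mul_le _ (by omega)
    have hM2 : R - r < (M + 1) * (2 * r + 1) := Int.lt_ediv_add_one_mul_self _ hw0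
    have hM32 : 32 ≤ M := by
      rw [hM]
      apply (Int.le_ediv_iff_mul_le hw0).2
      omega
    have hmono : al L r R ≤ al L r (M * (2 * r + 1) + r) := by
      refine hP.mono r _ r R (by omega) le_rfl ?_ (by omega)
      have : 0 ≤ M * (2 * r + 1) := mul_nonneg (by omega) hw0.le
      omega
    have h1 := H₁ L hL r M hr1 hM32
    have hM0 : (0 : ℝ) < M := by
      have : (0 : ℤ) < M := by omega
      exact_mod_cast this
    have hMlow : R ≤ 4 * r * M := by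
      have h2 : R * (2 * r + 1) ≤ 4 * r * (M * (2 * r + 1)) := by
        have h3 : R - r - (2 * r + 1) < M * (2 * r + 1) := by linarith
        have h4 : 4 * r * (R - r - (2 * r + 1)) ≤ 4 * r * (M * (2 * r + 1)) :=
          mul_le_mul_of_nonneg_left h3.le (by omega)
        nlinarith
      have h5 : R * (2 * r + 1) ≤ (4 * r * M) * (2 * r + 1) := by
        rw [mul_assoc]
        exact h2
      exact le_of_mul_le_mul_right h5 hw0
    have h6 : (1 : ℝ) / M ≤ 4 * ((r : ℝ) / R) := by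
      rw [div_le_iff₀ hM0]
      have h7 : (R : ℝ) ≤ 4 * r * M := by exact_mod_cast hMlow
      have h8 : 4 * ((r : ℝ) / R) * M = (4 * r * M) / R := by ring
      rw [h8, le_div_iff₀ hR0]
      linarith
    have h9 : (1 / (M : ℝ)) ^ (1 + c) ≤ 16 * ((r : ℝ) / R) ^ (1 + c) := by
      calc (1 / (M : ℝ)) ^ (1 + c) ≤ (4 * ((r : ℝ) / R)) ^ (1 + c) :=
            Real.rpow_le_rpow (by positivity) h6 (by linarith)
        _ = (4 : ℝ) ^ (1 + c) * ((r : ℝ) / R) ^ (1 + c) :=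
            Real.mul_rpow (by norm_num) hq0.le
        _ ≤ 16 * ((r : ℝ) / R) ^ (1 + c) := by
            refine mul_le_mul_of_nonneg_right ?_ (by positivity)
            calc (4 : ℝ) ^ (1 + c) ≤ (4 : ℝ) ^ (2 : ℝ) :=
                  Real.rpow_le_rpow_of_exponent_le (by norm_num) (by linarith)
              _ = 16 := by norm_num
    have h10 : C₀ * (1 / (M : ℝ)) ^ (1 + c) ≤ C₀ * (16 * ((r : ℝ) / R) ^ (1 + c)) :=
      mul_le_mul_of_nonneg_left h9 hC₀.le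
    have h11 : 0 ≤ (100 : ℝ) ^ 2 * ((r : ℝ) / R) ^ (1 + c) := by positivity
    calc al L r R ≤ _ := hmono
      _ ≤ _ := h1
      _ ≤ C₀ * (16 * ((r : ℝ) / R) ^ (1 + c)) := h10
      _ ≤ (100 ^ 2 + 16 * C₀) * ((r : ℝ) / R) ^ (1 + c) := by
          rw [add_mul]
          linarith

end XP

end SC
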