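import Pool.Agent.Lib_MP_e0a489.XP3

/-!
# MP_e0a489, exponents 17: the event around a block (bulk, side, corner)

`x = rt s (t, h - N)` is a site of `bx N`, `h` its distance to the nearest side (number `s`), `|t| ≤ N - h`, `N - |t| ≥ h` its distance to
the second nearest side.
-/

set_option autoImplicit false

namespace SC

namespace XP

open Classical

/-- number of the nearest corner -/
def cnr (s t : ℤ) : ℤ := if t ≤ 0 then s else s + 1

/-- four arms around the block in the bulk, two arms in the half plane, two in the quarter plane -/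
def Jb (L : Lat) (N r s t h : ℤ) (ω : Cfg) : Prop :=
  (r < h → L.TwoAt true (rt s (t, h - N)) r h ω) ∧
  (2 * h < N - |t| → ((L.rots s).shift (t, -N)).TwoH (decide (s % 2 = 0)) {v | 0 ≤ v.2} (2 * h)
    (N - |t|) (via (rt s * Equiv.addRight (t, -N)) ω)) ∧
  (2 * (N - |t|) < N → ((L.rots (cnr s t)).shift (-N, -N)).TwoQ {v | 0 ≤ v.1 ∧ 0 ≤ v.2}
    (2 * (N - |t|)) N (via (rt (cnr s t) * Equiv.addRight (-N, -N)) ω))

private theorem nrm_mk (a b : ℤ) : nrm (a, b) = max |a| |b| := rfl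

private theorem cnr_pt (N s t : ℤ) :
    rt (cnr s t) (-N, -N) = rt s (if t ≤ 0 then -N else N, -N) := by
  unfold cnr
  by_cases h : t ≤ 0
  · rw [if_pos h, if_pos h]
  · rw [if_neg h, if_neg h, rt_add, rt_one, neg_neg]

/-- distances between the three centres `x = rt s (t, h - N)`, `y = rt s (t, -N)`, `y' = rt (cnr s t) (-N, -N)`:
`y' = rt s (-N, -N)` for `t ≤ 0` and `y' = rt s (N, -N)` for `t > 0` (`rt_add`, `rt_one`); `rt_lin_sub`, `nrm_rt`. -/
theorem dist_xy (N s t h : ℤ) (hh : 0 ≤ h) :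
    nrm (rt s (t, h - N) - rt s (t, -N)) = h := by
  rw [← rt_lin_sub, nrm_rt, Prod.mk_sub_mk, nrm_mk, sub_self, abs_zero]
  have e : h - N - -N = h := by ring
  rw [e, abs_of_nonneg hh, max_eq_right hh]

theorem dist_xy' {N s t h : ℤ} (hh : 0 ≤ h) (ht : |t| ≤ N - h) :
    nrm (rt s (t, h - N) - rt (cnr s t) (-N, -N)) = N - |t| := by
  rw [cnr_pt, ← rt_lin_sub, nrm_rt, Prod.mk_sub_mk, nrm_mk]
  have e : h - N - -N = h := by ring
  rw [e, abs_of_nonneg hh]
  have h0 := abs_nonneg t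
  by_cases h1 : t ≤ 0
  · rw [if_pos h1]
    rw [abs_of_nonpos h1] at ht h0 ⊢
    rw [abs_of_nonneg (show 0 ≤ t - -N by omega)]
    omega
  · rw [if_neg h1]
    rw [abs_of_pos (show 0 < t by omega)] at ht h0 ⊢
    rw [abs_of_nonpos (show t - N ≤ 0 by omega)]
    omega

theorem dist_yy' {N s t : ℤ} (ht : |t| ≤ N) :
    nrm (rt s (t, -N) - rt (cnr s t) (-N, -N)) = N - |t| := by
  have h := dist_xy' (N := N) (s := s) (t := t) (h := 0) le_rfl (by omega)
  rw [zero_sub] at h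
  exact h

/-- If the box of radius `r ≤ h` around `x = rt s (t, h - N)` is pivotal for the crossing of `bx N`, then `Jb` holds (for both configurations).
Bulk: `piv_bulk` with `R = h` (`nrm x = N - h`, `abs_nrm`).  Side: `piv_half` with the radii `2 h < N - |t|`: off the box of radius `2 h` around `y` the
configurations agree, because `nrm (v - x) ≥ nrm (v - y) - h > h ≥ r` (`nrm_tri`, `dist_xy`).  Corner: `piv_quart` with the radii `2 (N - |t|) < N`:
`nrm (v - x) ≥ nrm (v - y') - (N - |t|) > N - |t| ≥ h ≥ r` (`dist_xy'`). -/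
theorem Jb_piv {L : Lat} {N r s t h : ℤ} {ω₁ ω₂ : Cfg} (hr : 0 ≤ r) (hrh : r ≤ h)
    (ht : |t| ≤ N - h) (hag : ∀ v, r < nrm (v - rt s (t, h - N)) → ω₁ v = ω₂ v)
    (h1 : L.HX true (-N) N (-N) N ω₁) (h2 : ¬ L.HX true (-N) N (-N) N ω₂) :
    Jb L N r s t h ω₁ ∧ Jb L N r s t h ω₂ := by
  have hh : 0 ≤ h := hr.trans hrh
  have ht0 := abs_nonneg t
  have hx : nrm (rt s (t, h - N)) = N - h := by
    rw [nrm_rt, nrm_mk, abs_of_nonpos (by omega : h - N ≤ 0)]
    omega
  have hx1 := abs_le.1 ((abs_nrm (rt s (t, h - N))).1.trans hx.le)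
  have hx2 := abs_le.1 ((abs_nrm (rt s (t, h - N))).2.trans hx.le)
  have hA : r < h → L.TwoAt true (rt s (t, h - N)) r h ω₁ ∧
      L.TwoAt true (rt s (t, h - N)) r h ω₂ := fun hlt =>
    piv_bulk hr hlt (by omega) (by omega) (by omega) (by omega) hag h1 h2 true
  have hB : 2 * h < N - |t| → ((L.rots s).shift (t, -N)).TwoH (decide (s % 2 = 0)) {v | 0 ≤ v.2}
      (2 * h) (N - |t|) (via (rt s * Equiv.addRight (t, -N)) ω₁) ∧
      ((L.rots s).shift (t, -N)).TwoH (decide (s % 2 = 0)) {v | 0 ≤ v.2}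
      (2 * h) (N - |t|) (via (rt s * Equiv.addRight (t, -N)) ω₂) := by
    intro hlt
    refine piv_half (by omega) hlt (by omega) ?_ h1 h2
    intro v hv
    have h3 := nrm_tri v (rt s (t, h - N)) (rt s (t, -N))
    rw [dist_xy N s t h hh] at h3
    exact hag v (by omega)
  have hC : 2 * (N - |t|) < N → ((L.rots (cnr s t)).shift (-N, -N)).TwoQ {v | 0 ≤ v.1 ∧ 0 ≤ v.2}
      (2 * (N - |t|)) N (via (rt (cnr s t) * Equiv.addRight (-N, -N)) ω₁) ∧
      ((L.rots (cnr s t)).shift (-N, -N)).TwoQ {v | 0 ≤ v.1 ∧ 0 ≤ v.2}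
      (2 * (N - |t|)) N (via (rt (cnr s t) * Equiv.addRight (-N, -N)) ω₂) := by
    intro hlt
    refine piv_quart (by omega) hlt (by omega) ?_ h1 h2
    intro v hv
    have h3 := nrm_tri v (rt s (t, h - N)) (rt (cnr s t) (-N, -N))
    rw [dist_xy' (s := s) hh ht] at h3
    exact hag v (by omega)
  exact ⟨⟨fun p => (hA p).1, fun p => (hB p).1, fun p => (hC p).1⟩,
    ⟨fun p => (hA p).2, fun p => (hB p).2, fun p => (hC p).2⟩⟩

private theorem dep_imp {P : Prop} {A : Cfg → Prop} {D : Set Pt} (h : Dep A D) :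
    Dep (fun ω => P → A ω) D :=
  Dep.comp h (fun p => P → p)

private theorem loc_imp {P : Prop} {A : Cfg → Prop} (h : Loc A) : Loc (fun ω => P → A ω) := by
  obtain ⟨F, hF⟩ := h
  exact ⟨F, dep_imp hF⟩

private theorem pr_imp (P : Prop) [Decidable P] (A : Cfg → Prop) :
    pr (fun ω => P → A ω) = if P then pr A else 1 := by
  by_cases h : P
  · rw [if_pos h]
    congr 1
    funext ω
    exact propext ⟨fun hp => hp h, fun hp _ => hp⟩
  · rw [if_neg h]
    have e : ind (fun ω => P → A ω) = fun _ => (1 : ℝ) := by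
      funext ω
      exact if_pos (fun hp => absurd hp h)
    unfold pr
    rw [e, ex_const]

private theorem twoH_loc' (L : Lat) (s : ℤ) (z : Pt) (c : Bool) (H : Set Pt) (r R : ℤ) :
    Loc (fun ω => ((L.rots s).shift z).TwoH c H r R (via (rt s * Equiv.addRight z) ω)) :=
  loc_of_dep (annAt_finite _ _ _) (twoH_dep L s z c H r R)

private theorem twoQ_loc' (L : Lat) (s : ℤ) (z : Pt) (H : Set Pt) (r R : ℤ) :
    Loc (fun ω => ((L.rots s).shift z).TwoQ H r R (via (rt s * Equiv.addRight z) ω)) :=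
  loc_of_dep (annAt_finite _ _ _) (twoQ_dep L s z H r R)

/-- local: `twoAt_loc`, `twoH_dep`, `twoQ_dep`, `annAt_finite`, `loc_of_dep`; an implication with a fixed premise is the event or `True` -/
theorem Jb_loc (L : Lat) (N r s t h : ℤ) : Loc (Jb L N r s t h) := by
  exact (loc_imp (twoAt_loc L true (rt s (t, h - N)) r h)).and
    ((loc_imp (twoH_loc' L s (t, -N) (decide (s % 2 = 0)) {v | 0 ≤ v.2} (2 * h) (N - |t|))).and
      (loc_imp (twoQ_loc' L (cnr s t) (-N, -N) {v | 0 ≤ v.1 ∧ 0 ≤ v.2} (2 * (N - |t|)) N)))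

/-- INDEPENDENCE.  The three annuli are disjoint: a site `v` of the bulk annulus has `nrm (v - x) ≤ h`, so `nrm (v - y) ≤ 2 h` (`dist_xy`) and
`nrm (v - y') ≤ h + (N - |t|) ≤ 2 (N - |t|)` (`dist_xy'`); a site of the side annulus has `nrm (v - y) ≤ N - |t|`, so `nrm (v - y') ≤ 2 (N - |t|)`
(`dist_yy'`).  `pr_and` twice (an implication with a false premise is `True`, of probability `1`); `pr_twoH`, `pr_twoQ`. -/
theorem Jb_pr (L : Lat) {N r s t h : ℤ} (hh : 0 ≤ h) (ht : |t| ≤ N - h) :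
    pr (Jb L N r s t h) ≤ (if r < h then pr (L.TwoAt true (rt s (t, h - N)) r h) else 1) *
      (if 2 * h < N - |t| then pr (((L.rots s).shift (t, -N)).TwoH (decide (s % 2 = 0))
        {v | 0 ≤ v.2} (2 * h) (N - |t|)) else 1) *
      (if 2 * (N - |t|) < N then pr (((L.rots (cnr s t)).shift (-N, -N)).TwoQ
        {v | 0 ≤ v.1 ∧ 0 ≤ v.2} (2 * (N - |t|)) N) else 1) := by
  have lA := loc_imp (P := r < h) (twoAt_loc L true (rt s (t, h - N)) r h)
  have lB := loc_imp (P := 2 * h < N - |t|)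
    (twoH_loc' L s (t, -N) (decide (s % 2 = 0)) {v | 0 ≤ v.2} (2 * h) (N - |t|))
  have lC := loc_imp (P := 2 * (N - |t|) < N)
    (twoQ_loc' L (cnr s t) (-N, -N) {v | 0 ≤ v.1 ∧ 0 ≤ v.2} (2 * (N - |t|)) N)
  have dA := dep_imp (P := r < h) (twoAt_dep L true (rt s (t, h - N)) r h)
  have dB := dep_imp (P := 2 * h < N - |t|)
    (twoH_dep L s (t, -N) (decide (s % 2 = 0)) {v | 0 ≤ v.2} (2 * h) (N - |t|))
  have dC := dep_imp (P := 2 * (N - |t|) < N)
    (twoQ_dep L (cnr s t) (-N, -N) {v | 0 ≤ v.1 ∧ 0 ≤ v.2} (2 * (N - |t|)) N)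
  have e1 := pr_and lB lC dB dC (by
    rintro v ⟨-, hv⟩ ⟨hw, -⟩
    have h3 := nrm_tri v (rt s (t, -N)) (rt (cnr s t) (-N, -N))
    rw [dist_yy' (s := s) (by omega)] at h3
    omega)
  have dBC := Dep.comp2 dB dC (fun p q => p ∧ q)
  have e2 := pr_and lA (lB.and lC) dA dBC (by
    rintro v ⟨-, hv⟩ (⟨hw, -⟩ | ⟨hw, -⟩)
    · have h3 := nrm_tri v (rt s (t, h - N)) (rt s (t, -N))
      rw [dist_xy N s t h hh] at h3
      omega
    · have h3 := nrm_tri v (rt s (t, h - N)) (rt (cnr s t) (-N, -N))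
      rw [dist_xy' (s := s) hh ht] at h3
      omega)
  rw [e1, pr_imp, pr_imp, pr_imp, pr_twoH, pr_twoQ, ← mul_assoc] at e2
  exact e2.le

end XP

end SC
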