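import Pool.Agent.Lib_MP_e0a489.HP9
import Pool.Agent.Lib_MP_e0a489.XP12
import Pool.Agent.Lib_MP_e0a489.XP16
import Pool.Agent.Lib_MP_e0a489.XP17

/-!
# MP_e0a489, exponents 18: bounds of the three factors (`w = 2 r + 1`)
-/

set_option autoImplicit false

namespace SC

variable [IfL]

namespace XP

open Classical

/-- bounded ratio: `apriori` gives `1 / 9 ≤ (r₁ / r₂) ^ 2 ≤ C al L r₁ r₂` -/
theorem al_ratio (κ : ℕ → ℝ) : ∃ (C : ℝ) (R₀ : ℤ), 1 ≤ C ∧ 16 ≤ R₀ ∧ ∀ L : Lat, Fam L κ →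
    ∀ r₁ r₂ : ℤ, R₀ ≤ r₁ → r₁ ≤ r₂ → r₂ ≤ 3 * r₁ → 1 ≤ C * al L r₁ r₂ := by
  obtain ⟨C, R₀, hC, hR, H⟩ := apriori κ
  refine ⟨max (9 * C) 1, R₀, le_max_right _ _, hR, fun L hL r₁ r₂ h1 h2 h3 => ?_⟩
  have h4 := H L hL r₁ r₂ h1 h2
  have hr1 : (0 : ℝ) < (r₁ : ℝ) := by
    have : (0 : ℤ) < r₁ := by omega
    exact_mod_cast this
  have hr2 : (0 : ℝ) < (r₂ : ℝ) := by
    have : (0 : ℤ) < r₂ := by omega
    exact_mod_cast this
  have h3' : (r₂ : ℝ) ≤ 3 * (r₁ : ℝ) := by exact_mod_cast h3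
  have h5 : (1 / 3 : ℝ) ≤ (r₁ : ℝ) / r₂ := by
    rw [le_div_iff₀ hr2]
    linarith
  have h6 : (1 / 3 : ℝ) ^ 2 ≤ ((r₁ : ℝ) / r₂) ^ 2 := pow_le_pow_left₀ (by norm_num) h5 2
  have h7 : 1 ≤ 9 * C * al L r₁ r₂ := by
    have : (1 / 3 : ℝ) ^ 2 = 1 / 9 := by norm_num
    rw [this] at h6
    linarith
  have h8 : 0 < al L r₁ r₂ := by
    by_contra hcon
    have := mul_nonpos_of_nonneg_of_nonpos (by positivity : (0 : ℝ) ≤ 9 * C) (not_lt.1 hcon)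
    linarith
  exact h7.trans (mul_le_mul_of_nonneg_right (le_max_left _ _) h8.le)

/-- comparison of radii: `AlProps.cmp` for `c = true`, `x = 0` (`twoAt_zero`, `al_lt`) -/
theorem al_cmp (κ : ℕ → ℝ) : ∃ (C : ℝ) (R₀ : ℤ), 1 ≤ C ∧ 16 ≤ R₀ ∧ ∀ L : Lat, Fam L κ →
    ∀ r R r' R' : ℤ, R₀ ≤ r → R₀ ≤ r' → r < R → r ≤ 2 * r' → r' ≤ R' → R' ≤ 4 * R →
      al L r R ≤ C * al L r' R' := by
  obtain ⟨C, R₀, H⟩ := al_props κ
  refine ⟨max C 1, max R₀ 16, le_max_right _ _, le_max_right _ _,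
    fun L hL r R r' R' h1 h2 h3 h4 h5 h6 => ?_⟩
  have hA := H L hL
  have hr : R₀ ≤ r := (le_max_left _ _).trans h1
  have hr' : R₀ ≤ r' := (le_max_left _ _).trans h2
  have h7 := hA.cmp true 0 r R r' R' hr hr' h3.le h4 h5 h6
  rw [twoAt_zero] at h7
  rw [al_lt h3]
  exact h7.trans (mul_le_mul_of_nonneg_right (le_max_left _ _) (hA.pos r' R' hr' h5).le)

/-- positivity of the four arm probability -/
private theorem xp18_pos (κ : ℕ → ℝ) : ∃ R₀ : ℤ, 16 ≤ R₀ ∧ ∀ L : Lat, Fam L κ →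
    ∀ r R : ℤ, R₀ ≤ r → r ≤ R → 0 < al L r R := by
  obtain ⟨C, R₀, H⟩ := al_props κ
  exact ⟨max R₀ 16, le_max_right _ _, fun L hL r R h1 h2 =>
    (H L hL).pos r R ((le_max_left _ _).trans h1) h2⟩

/-- `a ≤ C b` gives `a ^ e ≤ C b ^ e` for `0 ≤ e ≤ 1`, `1 ≤ C` -/
private theorem xp18_pow {a b C e : ℝ} (ha : 0 ≤ a) (hb : 0 ≤ b) (hC : 1 ≤ C) (he : 0 ≤ e)
    (he1 : e ≤ 1) (h : a ≤ C * b) : a ^ e ≤ C * b ^ e := by
  have hC0 : 0 ≤ C := by linarith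
  calc a ^ e ≤ (C * b) ^ e := Real.rpow_le_rpow ha h he
    _ = C ^ e * b ^ e := Real.mul_rpow hC0 hb
    _ ≤ C * b ^ e := by
        refine mul_le_mul_of_nonneg_right ?_ (Real.rpow_nonneg hb e)
        calc C ^ e ≤ C ^ (1 : ℝ) := Real.rpow_le_rpow_of_exponent_le hC he1
          _ = C := Real.rpow_one C

/-- the arithmetic of the two cases -/
private theorem xp18_arith {r i j : ℤ} (hr : 1 ≤ r) (hi : 0 ≤ i) (hij : i ≤ j) :
    (i + 1) * (2 * r + 1) ≤ (j + 1) * (2 * r + 1) ∧ r ≤ i * (2 * r + 1) + r ∧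
    2 * (i * (2 * r + 1) + r) ≤ 2 * ((i + 1) * (2 * r + 1)) ∧
    (j + 1) * (2 * r + 1) ≤ 4 * (j * (2 * r + 1) + r) ∧ r ≤ (i + 1) * (2 * r + 1) ∧
    (¬ 2 * (i * (2 * r + 1) + r) < j * (2 * r + 1) + r →
      (j + 1) * (2 * r + 1) ≤ 3 * ((i + 1) * (2 * r + 1))) := by
  have hw : (0 : ℤ) ≤ 2 * r + 1 := by omega
  have e1 : (i + 1) * (2 * r + 1) = i * (2 * r + 1) + 2 * r + 1 := by ring
  have e2 : (j + 1) * (2 * r + 1) = j * (2 * r + 1) + 2 * r + 1 := by ring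
  have hiw : 0 ≤ i * (2 * r + 1) := mul_nonneg hi hw
  have hjw : i * (2 * r + 1) ≤ j * (2 * r + 1) := mul_le_mul_of_nonneg_right hij hw
  refine ⟨by omega, by omega, by omega, by omega, by omega, fun h => ?_⟩
  have h1 : j ≤ 2 * i := by
    by_contra hcon
    have h2 : (2 * i + 1) * (2 * r + 1) ≤ j * (2 * r + 1) :=
      mul_le_mul_of_nonneg_right (by omega) hw
    have h3 : (2 * i + 1) * (2 * r + 1) = 2 * (i * (2 * r + 1)) + 2 * r + 1 := by ring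
    omega
  have h4 : (j + 1) * (2 * r + 1) ≤ (3 * (i + 1)) * (2 * r + 1) :=
    mul_le_mul_of_nonneg_right (by omega) hw
  have h5 : (3 * (i + 1)) * (2 * r + 1) = 3 * ((i + 1) * (2 * r + 1)) := by ring
  omega

/-- BULK.  `i ≥ 1`: `AlProps.cmp` (`(i + 1) w ≤ 4 (i w + r)`).  `i = 0`: the premise is false, `1 ≤ C al L r w` by `al_ratio` (`w ≤ 3 r`). -/
theorem fac_bulk (κ : ℕ → ℝ) : ∃ (C : ℝ) (R₀ : ℤ), 1 ≤ C ∧ 16 ≤ R₀ ∧ ∀ L : Lat, Fam L κ →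
    ∀ (x : Pt) (r i : ℤ), R₀ ≤ r → 0 ≤ i →
      (if r < i * (2 * r + 1) + r then pr (L.TwoAt true x r (i * (2 * r + 1) + r)) else 1) ≤
        C * al L r ((i + 1) * (2 * r + 1)) := by
  obtain ⟨C₁, R₁, H⟩ := al_props κ
  obtain ⟨C₂, R₂, hC₂, hR₂, H₂⟩ := al_ratio κ
  refine ⟨max C₁ C₂, max R₁ R₂, hC₂.trans (le_max_right _ _), hR₂.trans (le_max_right _ _),
    fun L hL x r i hr hi => ?_⟩
  have hA := H L hL
  have hr1 : R₁ ≤ r := (le_max_left _ _).trans hr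
  have hr2 : R₂ ≤ r := (le_max_right _ _).trans hr
  have hr16 : 16 ≤ r := hR₂.trans hr2
  obtain ⟨a1, a2, a3, a4, a5, a6⟩ := xp18_arith (r := r) (i := i) (j := i) (by omega) hi le_rfl
  have hpos := (hA.pos r ((i + 1) * (2 * r + 1)) hr1 a5).le
  split_ifs with h
  · exact (hA.cmp true x r (i * (2 * r + 1) + r) r ((i + 1) * (2 * r + 1)) hr1 hr1 h.le (by omega)
      a5 a4).trans (mul_le_mul_of_nonneg_right (le_max_left _ _) hpos)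
  · have hi0 : i = 0 := by
      by_contra hcon
      have h1 : 1 * (2 * r + 1) ≤ i * (2 * r + 1) :=
        mul_le_mul_of_nonneg_right (by omega) (by omega)
      omega
    subst hi0
    exact (H₂ L hL r ((0 + 1) * (2 * r + 1)) hr2 a5 (by omega)).trans
      (mul_le_mul_of_nonneg_right (le_max_right _ _) hpos)

/-- SIDE.  `h = i w + r`, `h₂ = j w + r`.  If `2 h < h₂`: `half_le` and `al L (2 h) h₂ ≤ C al L ((i+1) w) ((j+1) w)` (`al_cmp`: `2 h ≤ 2 (i+1) w`,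
`(j+1) w ≤ 4 h₂`), `Real.rpow_le_rpow`.  If `h₂ ≤ 2 h` then `j ≤ 2 i`, `(j+1) w ≤ 2 (i+1) w` and `al_ratio` gives `1 ≤ C al`, so `1 ≤ (C al) ^ (3/4)`. -/
theorem fac_side (κ : ℕ → ℝ) : ∃ (C : ℝ) (R₀ : ℤ), 1 ≤ C ∧ 16 ≤ R₀ ∧ ∀ L : Lat, Fam L κ →
    ∀ (s : ℤ) (x : Pt) (c : Bool) (r i j : ℤ), R₀ ≤ r → 0 ≤ i → i ≤ j →
      (if 2 * (i * (2 * r + 1) + r) < j * (2 * r + 1) + r then
        pr (((L.rots s).shift x).TwoH c {v | 0 ≤ v.2} (2 * (i * (2 * r + 1) + r))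
          (j * (2 * r + 1) + r)) else 1) ≤
        C * (al L ((i + 1) * (2 * r + 1)) ((j + 1) * (2 * r + 1))) ^ ((3 : ℝ) / 4) := by
  obtain ⟨C₁, R₁, hC₁, hR₁, H₁⟩ := half_le κ
  obtain ⟨C₂, R₂, hC₂, hR₂, H₂⟩ := al_ratio κ
  obtain ⟨C₃, R₃, hC₃, hR₃, H₃⟩ := al_cmp κ
  obtain ⟨R₄, hR₄, H₄⟩ := xp18_pos κ
  refine ⟨max (C₁ * C₃) C₂, max (max R₁ R₂) (max R₃ R₄), hC₂.trans (le_max_right _ _),
    hR₁.trans ((le_max_left _ _).trans (le_max_left _ _)),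
    fun L hL s x c r i j hr hi hij => ?_⟩
  have hr1 : R₁ ≤ r := ((le_max_left _ _).trans (le_max_left _ _)).trans hr
  have hr2 : R₂ ≤ r := ((le_max_right _ _).trans (le_max_left _ _)).trans hr
  have hr3 : R₃ ≤ r := ((le_max_left _ _).trans (le_max_right _ _)).trans hr
  have hr4 : R₄ ≤ r := ((le_max_right _ _).trans (le_max_right _ _)).trans hr
  obtain ⟨a1, a2, a3, a4, a5, a6⟩ := xp18_arith (r := r) (i := i) (j := j) (by omega) hi hij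
  have hpos : 0 < al L ((i + 1) * (2 * r + 1)) ((j + 1) * (2 * r + 1)) :=
    H₄ L hL _ _ (hr4.trans a5) a1
  have hpw := Real.rpow_nonneg hpos.le ((3 : ℝ) / 4)
  split_ifs with h
  · have h1 := H₁ L hL s x c {v | 0 ≤ v.2} (2 * (i * (2 * r + 1) + r)) (j * (2 * r + 1) + r)
      ⟨fun v hv => le_trans (by norm_num) (show (1 : ℤ) ≤ v.2 from hv), fun v hv => hv⟩
      (by omega) h.le
    have h2 := H₃ L hL (2 * (i * (2 * r + 1) + r)) (j * (2 * r + 1) + r)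
      ((i + 1) * (2 * r + 1)) ((j + 1) * (2 * r + 1)) (by omega) (hr3.trans a5) h a3 a1 a4
    have h3 := xp18_pow (e := (3 : ℝ) / 4) (H₄ L hL (2 * (i * (2 * r + 1) + r))
      (j * (2 * r + 1) + r) (by omega) h.le).le hpos.le hC₃ (by norm_num) (by norm_num) h2
    calc pr (((L.rots s).shift x).TwoH c {v | 0 ≤ v.2} (2 * (i * (2 * r + 1) + r))
          (j * (2 * r + 1) + r)) ≤ C₁ * (al L (2 * (i * (2 * r + 1) + r))
          (j * (2 * r + 1) + r)) ^ ((3 : ℝ) / 4) := h1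
      _ ≤ C₁ * (C₃ * (al L ((i + 1) * (2 * r + 1)) ((j + 1) * (2 * r + 1))) ^ ((3 : ℝ) / 4)) :=
          mul_le_mul_of_nonneg_left h3 hC₁.le
      _ = C₁ * C₃ * (al L ((i + 1) * (2 * r + 1)) ((j + 1) * (2 * r + 1))) ^ ((3 : ℝ) / 4) := by
          ring
      _ ≤ _ := mul_le_mul_of_nonneg_right (le_max_left _ _) hpw
  · have h1 := H₂ L hL _ _ (hr2.trans a5) a1 (a6 h)
    have h2 := xp18_pow (e := (3 : ℝ) / 4) (by norm_num : (0 : ℝ) ≤ 1) hpos.le hC₂ (by norm_num)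
      (by norm_num) h1
    rw [Real.one_rpow] at h2
    exact h2.trans (mul_le_mul_of_nonneg_right (le_max_right _ _) hpw)

/-- CORNER: the same with `quart_le` and the exponent `1/2`. -/
theorem fac_corner (κ : ℕ → ℝ) : ∃ (C : ℝ) (R₀ : ℤ), 1 ≤ C ∧ 16 ≤ R₀ ∧ ∀ L : Lat, Fam L κ →
    ∀ (s : ℤ) (x : Pt) (r j M : ℤ), R₀ ≤ r → 0 ≤ j → j ≤ M →
      (if 2 * (j * (2 * r + 1) + r) < M * (2 * r + 1) + r then
        pr (((L.rots s).shift x).TwoQ {v | 0 ≤ v.1 ∧ 0 ≤ v.2} (2 * (j * (2 * r + 1) + r))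
          (M * (2 * r + 1) + r)) else 1) ≤
        C * (al L ((j + 1) * (2 * r + 1)) ((M + 1) * (2 * r + 1))) ^ ((1 : ℝ) / 2) := by
  obtain ⟨C₁, R₁, hC₁, hR₁, H₁⟩ := quart_le κ
  obtain ⟨C₂, R₂, hC₂, hR₂, H₂⟩ := al_ratio κ
  obtain ⟨C₃, R₃, hC₃, hR₃, H₃⟩ := al_cmp κ
  obtain ⟨R₄, hR₄, H₄⟩ := xp18_pos κ
  refine ⟨max (C₁ * C₃) C₂, max (max R₁ R₂) (max R₃ R₄), hC₂.trans (le_max_right _ _),
    hR₁.trans ((le_max_left _ _).trans (le_max_left _ _)),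
    fun L hL s x r i j hr hi hij => ?_⟩
  have hr1 : R₁ ≤ r := ((le_max_left _ _).trans (le_max_left _ _)).trans hr
  have hr2 : R₂ ≤ r := ((le_max_right _ _).trans (le_max_left _ _)).trans hr
  have hr3 : R₃ ≤ r := ((le_max_left _ _).trans (le_max_right _ _)).trans hr
  have hr4 : R₄ ≤ r := ((le_max_right _ _).trans (le_max_right _ _)).trans hr
  obtain ⟨a1, a2, a3, a4, a5, a6⟩ := xp18_arith (r := r) (i := i) (j := j) (by omega) hi hij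
  have hpos : 0 < al L ((i + 1) * (2 * r + 1)) ((j + 1) * (2 * r + 1)) :=
    H₄ L hL _ _ (hr4.trans a5) a1
  have hpw := Real.rpow_nonneg hpos.le ((1 : ℝ) / 2)
  split_ifs with h
  · have h1 := H₁ L hL s x {v | 0 ≤ v.1 ∧ 0 ≤ v.2} (2 * (i * (2 * r + 1) + r))
      (j * (2 * r + 1) + r)
      ⟨fun v hv => ⟨le_trans (by norm_num) (show (1 : ℤ) ≤ v.1 from hv.1),
        le_trans (by norm_num) (show (1 : ℤ) ≤ v.2 from hv.2)⟩, fun v hv => hv⟩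
      (by omega) h.le
    have h2 := H₃ L hL (2 * (i * (2 * r + 1) + r)) (j * (2 * r + 1) + r)
      ((i + 1) * (2 * r + 1)) ((j + 1) * (2 * r + 1)) (by omega) (hr3.trans a5) h a3 a1 a4
    have h3 := xp18_pow (e := (1 : ℝ) / 2) (H₄ L hL (2 * (i * (2 * r + 1) + r))
      (j * (2 * r + 1) + r) (by omega) h.le).le hpos.le hC₃ (by norm_num) (by norm_num) h2
    calc pr (((L.rots s).shift x).TwoQ {v | 0 ≤ v.1 ∧ 0 ≤ v.2} (2 * (i * (2 * r + 1) + r))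
          (j * (2 * r + 1) + r)) ≤ C₁ * (al L (2 * (i * (2 * r + 1) + r))
          (j * (2 * r + 1) + r)) ^ ((1 : ℝ) / 2) := h1
      _ ≤ C₁ * (C₃ * (al L ((i + 1) * (2 * r + 1)) ((j + 1) * (2 * r + 1))) ^ ((1 : ℝ) / 2)) :=
          mul_le_mul_of_nonneg_left h3 hC₁.le
      _ = C₁ * C₃ * (al L ((i + 1) * (2 * r + 1)) ((j + 1) * (2 * r + 1))) ^ ((1 : ℝ) / 2) := by
          ring
      _ ≤ _ := mul_le_mul_of_nonneg_right (le_max_left _ _) hpw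
  · have h1 := H₂ L hL _ _ (hr2.trans a5) a1 (a6 h)
    have h2 := xp18_pow (e := (1 : ℝ) / 2) (by norm_num : (0 : ℝ) ≤ 1) hpos.le hC₂ (by norm_num)
      (by norm_num) h1
    rw [Real.one_rpow] at h2
    exact h2.trans (mul_le_mul_of_nonneg_right (le_max_right _ _) hpw)

/-- Pure calculation: `x, y, z > 0`, `x y ≤ C u`, `u z ≤ C v` (quasi-multiplicativity), `p ^ 2 ≤ C y`, `q ^ 2 ≤ C z` with `0 < p, q`.  Then
`x y ^ (3/4) z ^ (1/2) = x y z y ^ (-1/4) z ^ (-1/2) ≤ C ^ 2 v (C / p ^ 2) ^ (1/4) (C / q ^ 2) ^ (1/2) = C ^ (11/4) v p ^ (-1/2) q ^ (-1)`, and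
`C ^ (11/4) ≤ C ^ 3` (`C ≥ 1`). -/
theorem comb {x y z u v p q C : ℝ} (hx : 0 < x) (hy : 0 < y) (hz : 0 < z) (hv : 0 < v)
    (hC : 1 ≤ C) (hp : 0 < p) (hq : 0 < q) (h1 : x * y ≤ C * u) (h2 : u * z ≤ C * v)
    (h3 : p ^ 2 ≤ C * y) (h4 : q ^ 2 ≤ C * z) :
    x * y ^ ((3 : ℝ) / 4) * z ^ ((1 : ℝ) / 2) ≤ C ^ 3 * (v * ((1 / p) ^ ((1 : ℝ) / 2) * (1 / q))) := by
  have hC0 : 0 < C := by linarith
  have hp2 : 0 < p ^ ((1 : ℝ) / 2) := Real.rpow_pos_of_pos hp _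
  -- the first factor
  have e1 : p ^ ((1 : ℝ) / 2) ≤ C ^ ((1 : ℝ) / 4) * y ^ ((1 : ℝ) / 4) := by
    have : p ^ ((1 : ℝ) / 2) = (p ^ 2) ^ ((1 : ℝ) / 4) := by
      rw [← Real.rpow_natCast p 2, ← Real.rpow_mul hp.le]
      norm_num
    rw [this, ← Real.mul_rpow hC0.le hy.le]
    exact Real.rpow_le_rpow (by positivity) h3 (by norm_num)
  have e2 : y ^ ((3 : ℝ) / 4) * p ^ ((1 : ℝ) / 2) ≤ C ^ ((1 : ℝ) / 4) * y := by
    have h5 : y ^ ((3 : ℝ) / 4) * y ^ ((1 : ℝ) / 4) = y := by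
      rw [← Real.rpow_add hy]
      norm_num
    calc y ^ ((3 : ℝ) / 4) * p ^ ((1 : ℝ) / 2)
        ≤ y ^ ((3 : ℝ) / 4) * (C ^ ((1 : ℝ) / 4) * y ^ ((1 : ℝ) / 4)) :=
          mul_le_mul_of_nonneg_left e1 (Real.rpow_nonneg hy.le _)
      _ = C ^ ((1 : ℝ) / 4) * (y ^ ((3 : ℝ) / 4) * y ^ ((1 : ℝ) / 4)) := by ring
      _ = C ^ ((1 : ℝ) / 4) * y := by rw [h5]
  -- the second factor
  have e3 : q ≤ C ^ ((1 : ℝ) / 2) * z ^ ((1 : ℝ) / 2) := by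
    have : q = (q ^ 2) ^ ((1 : ℝ) / 2) := by
      rw [← Real.rpow_natCast q 2, ← Real.rpow_mul hq.le]
      norm_num
    rw [this, ← Real.mul_rpow hC0.le hz.le]
    exact Real.rpow_le_rpow (by positivity) h4 (by norm_num)
  have e4 : z ^ ((1 : ℝ) / 2) * q ≤ C ^ ((1 : ℝ) / 2) * z := by
    have h5 : z ^ ((1 : ℝ) / 2) * z ^ ((1 : ℝ) / 2) = z := by
      rw [← Real.rpow_add hz]
      norm_num
    calc z ^ ((1 : ℝ) / 2) * q ≤ z ^ ((1 : ℝ) / 2) * (C ^ ((1 : ℝ) / 2) * z ^ ((1 : ℝ) / 2)) :=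
          mul_le_mul_of_nonneg_left e3 (Real.rpow_nonneg hz.le _)
      _ = C ^ ((1 : ℝ) / 2) * (z ^ ((1 : ℝ) / 2) * z ^ ((1 : ℝ) / 2)) := by ring
      _ = C ^ ((1 : ℝ) / 2) * z := by rw [h5]
  have e5 : C ^ ((1 : ℝ) / 4) * C ^ ((1 : ℝ) / 2) ≤ C := by
    rw [← Real.rpow_add hC0]
    calc C ^ ((1 : ℝ) / 4 + 1 / 2) ≤ C ^ (1 : ℝ) :=
          Real.rpow_le_rpow_of_exponent_le hC (by norm_num)
      _ = C := Real.rpow_one C
  have e6 : x * y * z ≤ C ^ 2 * v := by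
    calc x * y * z ≤ C * u * z := mul_le_mul_of_nonneg_right h1 hz.le
      _ = C * (u * z) := by ring
      _ ≤ C * (C * v) := mul_le_mul_of_nonneg_left h2 hC0.le
      _ = C ^ 2 * v := by ring
  have e7 : (x * y ^ ((3 : ℝ) / 4) * z ^ ((1 : ℝ) / 2)) * (p ^ ((1 : ℝ) / 2) * q) ≤ C ^ 3 * v := by
    calc (x * y ^ ((3 : ℝ) / 4) * z ^ ((1 : ℝ) / 2)) * (p ^ ((1 : ℝ) / 2) * q)
        = x * ((y ^ ((3 : ℝ) / 4) * p ^ ((1 : ℝ) / 2)) * (z ^ ((1 : ℝ) / 2) * q)) := by ring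
      _ ≤ x * ((C ^ ((1 : ℝ) / 4) * y) * (C ^ ((1 : ℝ) / 2) * z)) := by
          refine mul_le_mul_of_nonneg_left (mul_le_mul e2 e4 ?_ ?_) hx.le
          · exact mul_nonneg (Real.rpow_nonneg hz.le _) hq.le
          · exact mul_nonneg (Real.rpow_nonneg hC0.le _) hy.le
      _ = (C ^ ((1 : ℝ) / 4) * C ^ ((1 : ℝ) / 2)) * (x * y * z) := by ring
      _ ≤ C * (C ^ 2 * v) :=
          mul_le_mul e5 e6 (by positivity) hC0.le
      _ = C ^ 3 * v := by ring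
  have e8 : (1 / p) ^ ((1 : ℝ) / 2) = 1 / p ^ ((1 : ℝ) / 2) := by
    rw [Real.div_rpow (by norm_num) hp.le, Real.one_rpow]
  rw [e8]
  have e9 : C ^ 3 * (v * (1 / p ^ ((1 : ℝ) / 2) * (1 / q))) =
      (C ^ 3 * v) / (p ^ ((1 : ℝ) / 2) * q) := by
    field_simp
  rw [e9, le_div_iff₀ (mul_pos hp2 hq)]
  exact e7

/-- BOUND FOR `Jb`.  `N = M w + r`, `h = i w + r`, `N - |t| = j w + r`.  `Jb_pr`, `fac_bulk`, `fac_side`, `fac_corner`, then `comb` with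
`x = al r ((i+1) w)`, `y = al ((i+1) w) ((j+1) w)`, `z = al ((j+1) w) ((M+1) w)`, `u = al r ((j+1) w)`, `v = al r ((M+1) w)` (`AlProps.qmult`, `AlProps.pos`),
`p = (i+1) / (j+1)`, `q = (j+1) / (M+1)` (`apriori`): `p ^ (-1/2) q ^ (-1) = (M+1) (1/(1+i)) ^ (1/2) (1/(1+j)) ^ (1/2)`. -/
theorem Jb_le (κ : ℕ → ℝ) : ∃ (C : ℝ) (R₀ : ℤ), 1 ≤ C ∧ 16 ≤ R₀ ∧ ∀ L : Lat, Fam L κ →
    ∀ (r M i j s t : ℤ), R₀ ≤ r → 0 ≤ i → i ≤ j → j ≤ M → |t| = (M - j) * (2 * r + 1) →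
      pr (Jb L (M * (2 * r + 1) + r) r s t (i * (2 * r + 1) + r)) ≤
        C * (al L r ((M + 1) * (2 * r + 1)) * (((M : ℝ) + 1) *
          ((1 / (1 + (i : ℝ))) ^ ((1 : ℝ) / 2) * (1 / (1 + (j : ℝ))) ^ ((1 : ℝ) / 2)))) := by
  obtain ⟨C₁, R₁, hC₁, hR₁, H₁⟩ := fac_bulk κ
  obtain ⟨C₂, R₂, hC₂, hR₂, H₂⟩ := fac_side κ
  obtain ⟨C₃, R₃, hC₃, hR₃, H₃⟩ := fac_corner κ
  obtain ⟨C₄, R₄, hC₄, hR₄, H₄⟩ := apriori κ
  obtain ⟨C₅, R₅, H₅⟩ := al_props κ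
  have hCm : 1 ≤ max (max C₄ C₅) 1 := le_max_right _ _
  have hC1' : 0 ≤ C₁ := by linarith
  have hC2' : 0 ≤ C₂ := by linarith
  have hC3' : 0 ≤ C₃ := by linarith
  refine ⟨C₁ * C₂ * C₃ * (max (max C₄ C₅) 1) ^ 3, max (max R₁ R₂) (max R₃ (max R₄ R₅)), ?_,
    hR₁.trans ((le_max_left _ _).trans (le_max_left _ _)),
    fun L hL r M i j s t hr hi hij hjM ht => ?_⟩
  · exact one_le_mul_of_one_le_of_one_le
      (one_le_mul_of_one_le_of_one_le (one_le_mul_of_one_le_of_one_le hC₁ hC₂) hC₃)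
      (one_le_pow₀ hCm)
  have hr1 : R₁ ≤ r := ((le_max_left _ _).trans (le_max_left _ _)).trans hr
  have hr2 : R₂ ≤ r := ((le_max_right _ _).trans (le_max_left _ _)).trans hr
  have hr3 : R₃ ≤ r := ((le_max_left _ _).trans (le_max_right _ _)).trans hr
  have hr4 : R₄ ≤ r :=
    (((le_max_left _ _).trans (le_max_right _ _)).trans (le_max_right _ _)).trans hr
  have hr5 : R₅ ≤ r :=
    (((le_max_right _ _).trans (le_max_right _ _)).trans (le_max_right _ _)).trans hr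
  have hr16 : 16 ≤ r := hR₁.trans hr1
  have hA := H₅ L hL
  obtain ⟨a1, a2, a3, a4, a5, a6⟩ := xp18_arith (r := r) (i := i) (j := j) (by omega) hi hij
  obtain ⟨b1, b2, b3, b4, b5, b6⟩ := xp18_arith (r := r) (i := j) (j := M) (by omega)
    (hi.trans hij) hjM
  have hw : (0 : ℤ) ≤ 2 * r + 1 := by omega
  have hN : M * (2 * r + 1) + r - |t| = j * (2 * r + 1) + r := by
    rw [ht]
    ring
  have hht : |t| ≤ M * (2 * r + 1) + r - (i * (2 * r + 1) + r) := by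
    have h1 : i * (2 * r + 1) ≤ j * (2 * r + 1) := mul_le_mul_of_nonneg_right hij hw
    have h2 : (M - j) * (2 * r + 1) = M * (2 * r + 1) - j * (2 * r + 1) := by ring
    rw [ht, h2]
    omega
  have hh0 : 0 ≤ i * (2 * r + 1) + r := by omega
  have key := Jb_pr L (N := M * (2 * r + 1) + r) (r := r) (s := s) (t := t)
    (h := i * (2 * r + 1) + r) hh0 hht
  rw [hN] at key
  have k1 := H₁ L hL (rt s (t, i * (2 * r + 1) + r - (M * (2 * r + 1) + r))) r i hr1 hi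
  have k2 := H₂ L hL s (t, -(M * (2 * r + 1) + r)) (decide (s % 2 = 0)) r i j hr2 hi hij
  have k3 := H₃ L hL (cnr s t) (-(M * (2 * r + 1) + r), -(M * (2 * r + 1) + r)) r j M hr3
    (hi.trans hij) hjM
  have hx : 0 < al L r ((i + 1) * (2 * r + 1)) := hA.pos _ _ hr5 a5
  have hy : 0 < al L ((i + 1) * (2 * r + 1)) ((j + 1) * (2 * r + 1)) :=
    hA.pos _ _ (hr5.trans a5) a1
  have hz : 0 < al L ((j + 1) * (2 * r + 1)) ((M + 1) * (2 * r + 1)) :=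
    hA.pos _ _ (hr5.trans b5) b1
  have hv : 0 < al L r ((M + 1) * (2 * r + 1)) := hA.pos _ _ hr5 (b5.trans b1)
  have hu : 0 < al L r ((j + 1) * (2 * r + 1)) := hA.pos _ _ hr5 b5
  have hy' := Real.rpow_nonneg hy.le ((3 : ℝ) / 4)
  have hz' := Real.rpow_nonneg hz.le ((1 : ℝ) / 2)
  have hi' : (0 : ℝ) ≤ (i : ℝ) := by exact_mod_cast hi
  have hj' : (0 : ℝ) ≤ (j : ℝ) := by exact_mod_cast (hi.trans hij)
  have hM' : (0 : ℝ) ≤ (M : ℝ) := by exact_mod_cast ((hi.trans hij).trans hjM)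
  have hwR : (0 : ℝ) < 2 * (r : ℝ) + 1 := by
    have : (0 : ℤ) < 2 * r + 1 := by omega
    exact_mod_cast this
  have hCle : ∀ {a : ℝ}, 0 ≤ a → C₅ * a ≤ max (max C₄ C₅) 1 * a := fun ha =>
    mul_le_mul_of_nonneg_right ((le_max_right _ _).trans (le_max_left _ _)) ha
  have hCle4 : ∀ {a : ℝ}, 0 ≤ a → C₄ * a ≤ max (max C₄ C₅) 1 * a := fun ha =>
    mul_le_mul_of_nonneg_right ((le_max_left _ _).trans (le_max_left _ _)) ha
  have p1 : (((i : ℝ) + 1) / ((j : ℝ) + 1)) ^ 2 ≤ max (max C₄ C₅) 1 *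
      al L ((i + 1) * (2 * r + 1)) ((j + 1) * (2 * r + 1)) := by
    have h1 := H₄ L hL ((i + 1) * (2 * r + 1)) ((j + 1) * (2 * r + 1)) (hr4.trans a5) a1
    have h2 : ((((i + 1) * (2 * r + 1) : ℤ) : ℝ) / (((j + 1) * (2 * r + 1) : ℤ) : ℝ)) =
        ((i : ℝ) + 1) / ((j : ℝ) + 1) := by
      push_cast
      exact mul_div_mul_right _ _ hwR.ne'
    rw [h2] at h1
    exact h1.trans (hCle4 hy.le)
  have p2 : (((j : ℝ) + 1) / ((M : ℝ) + 1)) ^ 2 ≤ max (max C₄ C₅) 1 *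
      al L ((j + 1) * (2 * r + 1)) ((M + 1) * (2 * r + 1)) := by
    have h1 := H₄ L hL ((j + 1) * (2 * r + 1)) ((M + 1) * (2 * r + 1)) (hr4.trans b5) b1
    have h2 : ((((j + 1) * (2 * r + 1) : ℤ) : ℝ) / (((M + 1) * (2 * r + 1) : ℤ) : ℝ)) =
        ((j : ℝ) + 1) / ((M : ℝ) + 1) := by
      push_cast
      exact mul_div_mul_right _ _ hwR.ne'
    rw [h2] at h1
    exact h1.trans (hCle4 hz.le)
  have q1 := (hA.qmult r ((i + 1) * (2 * r + 1)) ((j + 1) * (2 * r + 1)) hr5 a5 a1).trans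
    (hCle hu.le)
  have q2 := (hA.qmult r ((j + 1) * (2 * r + 1)) ((M + 1) * (2 * r + 1)) hr5 b5 b1).trans
    (hCle hv.le)
  have fin := comb hx hy hz hv hCm (by positivity : 0 < ((i : ℝ) + 1) / ((j : ℝ) + 1))
    (by positivity : 0 < ((j : ℝ) + 1) / ((M : ℝ) + 1)) q1 q2 p1 p2
  have e1 : (1 / (((i : ℝ) + 1) / ((j : ℝ) + 1))) ^ ((1 : ℝ) / 2) *
      (1 / (((j : ℝ) + 1) / ((M : ℝ) + 1))) = ((M : ℝ) + 1) *
          ((1 / (1 + (i : ℝ))) ^ ((1 : ℝ) / 2) * (1 / (1 + (j : ℝ))) ^ ((1 : ℝ) / 2)) := by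
    have hj1 : (0 : ℝ) < (j : ℝ) + 1 := by linarith
    have hi1 : (0 : ℝ) < (i : ℝ) + 1 := by linarith
    have h1 : (1 / (((i : ℝ) + 1) / ((j : ℝ) + 1))) = (1 / (1 + (i : ℝ))) * ((j : ℝ) + 1) := by
      rw [one_div_div, add_comm 1 (i : ℝ)]
      ring
    have h2 : (1 / (((j : ℝ) + 1) / ((M : ℝ) + 1))) = ((M : ℝ) + 1) * (1 / (1 + (j : ℝ))) := by
      rw [one_div_div, add_comm 1 (j : ℝ)]
      ring
    have h3 : ((j : ℝ) + 1) ^ ((1 : ℝ) / 2) * (1 / (1 + (j : ℝ))) =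
        (1 / (1 + (j : ℝ))) ^ ((1 : ℝ) / 2) := by
      rw [add_comm 1 (j : ℝ), Real.div_rpow (by norm_num) hj1.le, Real.one_rpow]
      have h4 : ((j : ℝ) + 1) = ((j : ℝ) + 1) ^ ((1 : ℝ) / 2) * ((j : ℝ) + 1) ^ ((1 : ℝ) / 2) := by
        rw [← Real.rpow_add hj1]
        norm_num
      have h5 : 0 < ((j : ℝ) + 1) ^ ((1 : ℝ) / 2) := Real.rpow_pos_of_pos hj1 _
      rw [mul_one_div, div_eq_div_iff hj1.ne' h5.ne', one_mul]
      exact h4.symm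
    rw [h1, h2, Real.mul_rpow (by positivity) hj1.le, ← h3]
    ring
  rw [e1] at fin
  refine key.trans ?_
  have hB0 : 0 ≤ (if 2 * (i * (2 * r + 1) + r) < j * (2 * r + 1) + r then
      pr (((L.rots s).shift (t, -(M * (2 * r + 1) + r))).TwoH (decide (s % 2 = 0))
        {v | 0 ≤ v.2} (2 * (i * (2 * r + 1) + r)) (j * (2 * r + 1) + r)) else 1) := by
    split_ifs
    · exact pr_nonneg _
    · norm_num
  have hD0 : 0 ≤ (if 2 * (j * (2 * r + 1) + r) < M * (2 * r + 1) + r then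
      pr (((L.rots (cnr s t)).shift (-(M * (2 * r + 1) + r), -(M * (2 * r + 1) + r))).TwoQ
        {v | 0 ≤ v.1 ∧ 0 ≤ v.2} (2 * (j * (2 * r + 1) + r)) (M * (2 * r + 1) + r)) else 1) := by
    split_ifs
    · exact pr_nonneg _
    · norm_num
  refine (mul_le_mul (mul_le_mul k1 k2 hB0 (mul_nonneg hC1' hx.le)) k3 hD0
    (mul_nonneg (mul_nonneg hC1' hx.le) (mul_nonneg hC2' hy'))).trans ?_
  calc C₁ * al L r ((i + 1) * (2 * r + 1)) *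
        (C₂ * al L ((i + 1) * (2 * r + 1)) ((j + 1) * (2 * r + 1)) ^ ((3 : ℝ) / 4)) *
        (C₃ * al L ((j + 1) * (2 * r + 1)) ((M + 1) * (2 * r + 1)) ^ ((1 : ℝ) / 2))
      = C₁ * C₂ * C₃ * (al L r ((i + 1) * (2 * r + 1)) *
        al L ((i + 1) * (2 * r + 1)) ((j + 1) * (2 * r + 1)) ^ ((3 : ℝ) / 4) *
        al L ((j + 1) * (2 * r + 1)) ((M + 1) * (2 * r + 1)) ^ ((1 : ℝ) / 2)) := by ring
    _ ≤ C₁ * C₂ * C₃ * ((max (max C₄ C₅) 1) ^ 3 * (al L r ((M + 1) * (2 * r + 1)) *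
        (((M : ℝ) + 1) * ((1 / (1 + (i : ℝ))) ^ ((1 : ℝ) / 2) *
          (1 / (1 + (j : ℝ))) ^ ((1 : ℝ) / 2))))) :=
        mul_le_mul_of_nonneg_left fin (mul_nonneg (mul_nonneg hC1' hC2') hC3')
    _ = _ := by ring

end XP

end SC
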