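import Pool.Agent.Lib_MP_e0a489.PG4
import Pool.Agent.Lib_MP_e0a489.XP18
import Pool.Agent.Lib_MP_e0a489.XP6
import Pool.Agent.Lib_MP_e0a489.XP8

/-!
# MP_e0a489, exponents 19: sum of the block influences, many pivotal blocks
-/

set_option autoImplicit false

namespace SC

variable [IfL]

namespace XP

open Classical

/-- Every site is `rt s (t, -n)` with `n = nrm z`, `|t| ≤ n` (it lies on one of the four sides of the ring of radius `n`), and `|t|` is the smaller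
absolute value of the coordinates.  (Cases `z.2 = -n`, `z.1 = n`, `z.2 = n`, `z.1 = -n`: `s = 0, 1, 2, 3`.) -/
theorem exists_side (z : Pt) : ∃ s t : ℤ, z = rt s (t, -nrm z) ∧ |t| ≤ nrm z ∧
    ((|z.1| = nrm z ∧ |z.2| = |t|) ∨ (|z.2| = nrm z ∧ |z.1| = |t|)) := by
  obtain ⟨x, y⟩ := z
  have r0 : ∀ a b : ℤ, rt 0 (a, b) = (a, b) := fun a b => rt_zero (a, b)
  have r1 : ∀ a b : ℤ, rt 1 (a, b) = (-b, a) := fun a b => rt_one (a, b)
  have r2 : ∀ a b : ℤ, rt 2 (a, b) = (-a, -b) := fun a b => rt_two (a, b)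
  have r3 : ∀ a b : ℤ, rt 3 (a, b) = (b, -a) := fun a b => rt_three (a, b)
  by_cases h : |x| ≤ |y|
  · have hn : nrm (x, y) = |y| := max_eq_right h
    rw [hn]
    by_cases hy : y ≤ 0
    · refine ⟨0, x, ?_, h, Or.inr ⟨rfl, rfl⟩⟩
      rw [r0, abs_of_nonpos hy, neg_neg]
    · refine ⟨2, -x, ?_, by rw [abs_neg]; exact h, Or.inr ⟨rfl, by rw [abs_neg]⟩⟩
      rw [r2, abs_of_pos (not_le.1 hy), neg_neg, neg_neg]
  · have h' : |y| ≤ |x| := (not_le.1 h).le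
    have hn : nrm (x, y) = |x| := max_eq_left h'
    rw [hn]
    by_cases hx : 0 ≤ x
    · refine ⟨1, y, ?_, h', Or.inl ⟨rfl, rfl⟩⟩
      rw [r1, abs_of_nonneg hx, neg_neg]
    · refine ⟨3, -y, ?_, by rw [abs_neg]; exact h', Or.inl ⟨rfl, by rw [abs_neg]⟩⟩
      rw [r3, abs_of_neg (not_le.1 hx), neg_neg, neg_neg]

/-- `rt s` commutes with multiplication by an integer -/
theorem rt_mul (s k a b : ℤ) : rt s (a * k, b * k) = ((rt s (a, b)).1 * k, (rt s (a, b)).2 * k) := by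
  have h4 : rt s = rt (s % 4) := rt_mod (by omega)
  have h : s % 4 = 0 ∨ s % 4 = 1 ∨ s % 4 = 2 ∨ s % 4 = 3 := by omega
  rw [h4]
  rcases h with h | h | h | h <;> rw [h]
  · rw [rt_zero, rt_zero]
  · rw [rt_one, rt_one]
    simp
  · rw [rt_two, rt_two]
    simp
  · rw [rt_three, rt_three]
    simp

/-- INFLUENCE OF THE BLOCK `z`, `|z| ≤ M`.  `exists_side`: `z = rt s (t₀, -n)`, `n = nrm z`; `i = M - n`, `j = M - |t₀|`, `t = t₀ w`, `h = i w + r`, `N = M w + r`;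
the centre of the block is `rt s (t, h - N)` (`rt_mul`).  `infl_le` with `J = Jb L N r s t h`: if `ω`, `ω'` agree off the block (`blk_bxAt`, `coe_blkF`) and the
crossing holds for exactly one of them, `Jb_piv` gives `Jb ω`.  Then `Jb_le`; `{i, j} = {M - |z.1|, M - |z.2|}`. -/
theorem infl_z (κ : ℕ → ℝ) : ∃ (C : ℝ) (R₀ : ℤ), 1 ≤ C ∧ 16 ≤ R₀ ∧ ∀ L : Lat, Fam L κ →
    ∀ (r M : ℤ) (z : Pt), R₀ ≤ r → nrm z ≤ M → ∀ F : Finset Pt,
      (F : Set Pt) = bx (M * (2 * r + 1) + r) →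
      ∑ S ∈ F.powerset.filter (fun S => ¬ Disjoint S (blkF (2 * r + 1) z)),
        fc (ind (L.HX true (-(M * (2 * r + 1) + r)) (M * (2 * r + 1) + r)
          (-(M * (2 * r + 1) + r)) (M * (2 * r + 1) + r))) S ^ 2 ≤
        C * (al L r ((M + 1) * (2 * r + 1)) * (((M : ℝ) + 1) *
          ((1 / (1 + ((M - |z.1| : ℤ) : ℝ))) ^ ((1 : ℝ) / 2) *
            (1 / (1 + ((M - |z.2| : ℤ) : ℝ))) ^ ((1 : ℝ) / 2)))) := by
  obtain ⟨C, R₀, hC, hR₀, H⟩ := Jb_le κ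
  refine ⟨C, R₀, hC, hR₀, ?_⟩
  intro L hL r M z hr hz F hF
  obtain ⟨s, t₀, hzs, ht₀, hcase⟩ := exists_side z
  have hn0 : 0 ≤ nrm z := le_trans (abs_nonneg _) (le_max_left _ _)
  have ht0 : 0 ≤ |t₀| := abs_nonneg _
  have hr0 : 0 ≤ r := by omega
  set n : ℤ := nrm z with hn
  set w : ℤ := 2 * r + 1 with hw
  have hw0 : 0 < w := by omega
  set N : ℤ := M * w + r with hN
  set i : ℤ := M - n with hi
  set j : ℤ := M - |t₀| with hj
  set h : ℤ := i * w + r with hh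
  have hi0 : 0 ≤ i := by omega
  have hij : i ≤ j := by omega
  have hjM : j ≤ M := by omega
  have htw : |t₀ * w| = (M - j) * w := by
    rw [abs_mul, abs_of_pos hw0, hj]
    ring
  have hhN : h - N = -n * w := by
    rw [hh, hN, hi]
    ring
  have hcen : rt s (t₀ * w, h - N) = (z.1 * w, z.2 * w) := by
    rw [hhN, rt_mul, ← hzs]
  have hrh : r ≤ h := by
    have := mul_nonneg hi0 hw0.le
    omega
  have htN : |t₀ * w| ≤ N - h := by
    have h1 : (M - j) * w ≤ n * w := mul_le_mul_of_nonneg_right (by omega) hw0.le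
    have h2 : N - h = n * w := by
      rw [hh, hN, hi]
      ring
    rw [htw, h2]
    exact h1
  have hdep : Dep (L.HX true (-N) N (-N) N) (F : Set Pt) := by
    have := Lat.HX.dep L true (-N) N (-N) N
    rw [hF, bx_rect5]
    exact this
  have key := infl_le hdep (Jb_loc L N r s (t₀ * w) h) (blkF w z) (fun ω ω' hag hJ => by
    have hag' : ∀ v, r < nrm (v - rt s (t₀ * w, h - N)) → ω v = ω' v := by
      intro v hv
      refine hag v (fun hvB => ?_)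
      have h1 : v ∈ ((blkF w z : Finset Pt) : Set Pt) := hvB
      rw [coe_blkF, hw, blk_bxAt, ← hw, ← hcen] at h1
      have h2 : nrm (v - rt s (t₀ * w, h - N)) ≤ r := h1
      omega
    constructor
    · intro h1
      by_contra h2
      exact hJ (Jb_piv hr0 hrh htN hag' h1 h2).1
    · intro h1
      by_contra h2
      exact hJ (Jb_piv hr0 hrh htN (fun v hv => (hag' v hv).symm) h1 h2).2)
  refine key.trans ?_
  have key2 := H L hL r M i j s (t₀ * w) hr hi0 hij hjM (by rw [htw])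
  refine key2.trans (le_of_eq ?_)
  rcases hcase with ⟨h1, h2⟩ | ⟨h1, h2⟩
  · rw [h1, h2]
  · rw [h1, h2, mul_comm ((1 / (1 + (i : ℝ))) ^ ((1 : ℝ) / 2))]

/-- SUM OF THE INFLUENCES: `sum_blks`, `infl_z` (`F = (blks M w).biUnion id`, `blks_union`, `w / 2 = r`), `sum_bd`. -/
theorem infl_sum (κ : ℕ → ℝ) : ∃ (C : ℝ) (R₀ : ℤ), 1 ≤ C ∧ 16 ≤ R₀ ∧ ∀ L : Lat, Fam L κ →
    ∀ r M : ℤ, R₀ ≤ r → 0 ≤ M →
      ∑ B ∈ blks M (2 * r + 1), ∑ S ∈ ((blks M (2 * r + 1)).biUnion id).powerset.filter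
          (fun S => ¬ Disjoint S B),
        fc (ind (L.HX true (-(M * (2 * r + 1) + r)) (M * (2 * r + 1) + r)
          (-(M * (2 * r + 1) + r)) (M * (2 * r + 1) + r))) S ^ 2 ≤
        C * (((M : ℝ) + 1) ^ 2 * al L r ((M + 1) * (2 * r + 1))) := by
  obtain ⟨C, R₀, hC, hR₀, H⟩ := infl_z κ
  refine ⟨16 * C, R₀, by linarith, hR₀, ?_⟩
  intro L hL r M hr hM
  have hw : (2 * r + 1) % 2 = 1 := by omega
  have hw0 : 0 < 2 * r + 1 := by omega
  have hw2 : (2 * r + 1) / 2 = r := by omega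
  have hF : (((blks M (2 * r + 1)).biUnion id : Finset Pt) : Set Pt) =
      bx (M * (2 * r + 1) + r) := by
    rw [blks_union hw hw0, hw2]
  rw [sum_blks hw hw0]
  have h1 : ∀ z ∈ rectF (-M) M (-M) M,
      ∑ S ∈ ((blks M (2 * r + 1)).biUnion id).powerset.filter
          (fun S => ¬ Disjoint S (blkF (2 * r + 1) z)),
        fc (ind (L.HX true (-(M * (2 * r + 1) + r)) (M * (2 * r + 1) + r)
          (-(M * (2 * r + 1) + r)) (M * (2 * r + 1) + r))) S ^ 2 ≤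
        (C * al L r ((M + 1) * (2 * r + 1))) * (((M : ℝ) + 1) *
          ((1 / (1 + ((M - |z.1| : ℤ) : ℝ))) ^ ((1 : ℝ) / 2) *
            (1 / (1 + ((M - |z.2| : ℤ) : ℝ))) ^ ((1 : ℝ) / 2))) := by
    intro z hz
    refine (H L hL r M z hr (mem_rectF_nrm.1 hz) _ hF).trans (le_of_eq ?_)
    ring
  refine (Finset.sum_le_sum h1).trans ?_
  rw [← Finset.mul_sum]
  have h2 := sum_bd hM
  have hal : 0 ≤ al L r ((M + 1) * (2 * r + 1)) := by
    unfold al
    split_ifs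
    · exact pr_nonneg _
    · exact zero_le_one
  refine (mul_le_mul_of_nonneg_left h2 (mul_nonneg (by linarith) hal)).trans (le_of_eq ?_)
  ring

/-- `δ`: for every block the average over the columns `u w`, `|u| ≤ M`, of the probability to be explored: `Rb_pr`, `sum_col'`, `card = 2 M + 1`. -/
theorem delta_bd (κ : ℕ → ℝ) : ∃ C c : ℝ, 0 < C ∧ 0 < c ∧ c ≤ 1 / 2 ∧ ∀ L : Lat, RSW L κ →
    ∀ r M : ℤ, 1 ≤ r → 0 ≤ M → ∀ B ∈ blks M (2 * r + 1),
      ∑ u ∈ Finset.Icc (-M) M, pr (fun ω => B ∈ L.Rb M (2 * r + 1) (u * (2 * r + 1)) ω) ≤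
        C * (2 * (M : ℝ) + 1) ^ (-c) * (Finset.Icc (-M) M).card := by
  obtain ⟨C, c, hC, hc, hc2, H⟩ := Rb_pr κ
  refine ⟨4 * C, c, by linarith, hc, hc2, ?_⟩
  intro L hL r M hr hM B hB
  have hw : (2 * r + 1) % 2 = 1 := by omega
  have hw0 : 0 < 2 * r + 1 := by omega
  obtain ⟨z, hz, rfl⟩ := Finset.mem_image.1 hB
  have hzM : |z.1| ≤ M := le_trans (le_max_left _ _) (mem_rectF_nrm.1 hz)
  have h1 : ∑ u ∈ Finset.Icc (-M) M,
      pr (fun ω => blkF (2 * r + 1) z ∈ L.Rb M (2 * r + 1) (u * (2 * r + 1)) ω) ≤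
      ∑ u ∈ Finset.Icc (-M) M, C * (1 / (1 + ((|z.1 - u| : ℤ) : ℝ))) ^ c := by
    refine Finset.sum_le_sum fun u hu => ?_
    rw [Finset.mem_Icc] at hu
    exact H L hL M (2 * r + 1) u z hw hw0 (abs_le.2 hu)
  refine h1.trans ?_
  rw [← Finset.mul_sum]
  have h2 := sum_col' hc.le hc2 hzM
  have hMr : (0 : ℝ) ≤ M := by exact_mod_cast hM
  have hcard : ((Finset.Icc (-M) M).card : ℝ) = 2 * (M : ℝ) + 1 := by
    rw [Int.card_Icc]
    have h3 : (((M + 1 - -M).toNat : ℕ) : ℤ) = 2 * M + 1 := by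
      rw [Int.toNat_of_nonneg (by omega)]
      ring
    have h4 : ((((M + 1 - -M).toNat : ℕ) : ℤ) : ℝ) = ((2 * M + 1 : ℤ) : ℝ) := by rw [h3]
    push_cast at h4
    exact h4
  have hpos : (0 : ℝ) < 2 * (M : ℝ) + 1 := by linarith
  refine (mul_le_mul_of_nonneg_left h2 hC.le).trans (le_of_eq ?_)
  rw [hcard, show (1 : ℝ) - c = -c + 1 by ring, Real.rpow_add hpos, Real.rpow_one]
  ring

/-- The variance of the crossing of a square is bounded below: `κ 1 ≤ pr`, `κ 1 ≤ 1 - pr` (`RSW.hx'`, `RSW.vx'`, `not_hx`, `pr_not`). -/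
theorem var_sq {L : Lat} {κ : ℕ → ℝ} (h : RSW L κ) {N : ℤ} (hN : 4 ≤ N) :
    κ 1 ^ 2 ≤ ex (fun ω => ind (L.HX true (-N) N (-N) N) ω ^ 2) -
      ex (ind (L.HX true (-N) N (-N) N)) ^ 2 := by
  have hp : κ 1 ≤ pr (L.HX true (-N) N (-N) N) :=
    h.hx' le_rfl true (by omega) (by omega) (by push_cast; omega)
  have hq : κ 1 ≤ 1 - pr (L.HX true (-N) N (-N) N) := by
    rw [← pr_not (Lat.HX.loc L true (-N) N (-N) N)]
    have e : (fun ω => ¬ L.HX true (-N) N (-N) N ω) = L.VX false (-N) N (-N) N := by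
      funext ω
      exact propext (Lat.not_hx (by omega) (by omega) true ω)
    rw [e]
    exact h.vx' le_rfl false (by omega) (by omega) (by push_cast; omega)
  have e2 : (fun ω => ind (L.HX true (-N) N (-N) N) ω ^ 2) = ind (L.HX true (-N) N (-N) N) := by
    funext ω
    unfold ind
    split_ifs <;> norm_num
  have e3 : ex (ind (L.HX true (-N) N (-N) N)) = pr (L.HX true (-N) N (-N) N) := rfl
  rw [e2, e3]
  have hk := h.pos 1
  nlinarith

/-- MANY PIVOTAL BLOCKS: `many_pivotal` for `𝓑 = blks M w` (`blks_disj`), `U = Finset.Icc (-M) M`, `R u = L.Rb M w (u w)` (`Rb_stop`, `Rb_hx`; `|u w| ≤ M w + r`),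
`δ` from `delta_bd`, and `var_sq`, `infl_sum`. -/
theorem many (κ : ℕ → ℝ) : ∃ (C C' c : ℝ) (R₀ : ℤ), 1 ≤ C ∧ 0 < C' ∧ 0 < c ∧ c ≤ 1 / 2 ∧
    16 ≤ R₀ ∧ ∀ L : Lat, Fam L κ → ∀ r M : ℤ, R₀ ≤ r → 0 ≤ M → ∀ K : ℕ,
      K * (κ 1 ^ 2 - (K : ℝ) ^ 2 * (C' * (2 * (M : ℝ) + 1) ^ (-c))) ≤
        C * (((M : ℝ) + 1) ^ 2 * al L r ((M + 1) * (2 * r + 1))) := by
  obtain ⟨C, R₀, hC, hR₀, H⟩ := infl_sum κ
  obtain ⟨C', c, hC', hc, hc2, H'⟩ := delta_bd κ
  refine ⟨C, C', c, R₀, hC, hC', hc, hc2, hR₀, ?_⟩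
  intro L hL r M hr hM K
  have hw : (2 * r + 1) % 2 = 1 := by omega
  have hw0 : 0 < 2 * r + 1 := by omega
  have hw2 : (2 * r + 1) / 2 = r := by omega
  have hMr : (0 : ℝ) ≤ M := by exact_mod_cast hM
  set N : ℤ := M * (2 * r + 1) + r with hN
  have hMw : 0 ≤ M * (2 * r + 1) := mul_nonneg hM hw0.le
  have hN4 : 4 ≤ N := by omega
  have hu : ∀ u ∈ Finset.Icc (-M) M, |u * (2 * r + 1)| ≤ M * (2 * r + 1) + (2 * r + 1) / 2 := by
    intro u hu
    rw [Finset.mem_Icc] at hu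
    rw [abs_mul, abs_of_pos hw0, hw2]
    have := mul_le_mul_of_nonneg_right (abs_le.2 hu) hw0.le
    omega
  have key := many_pivotal (𝓑 := blks M (2 * r + 1)) (blks_disj hw hw0)
    (U := Finset.Icc (-M) M) ⟨0, by rw [Finset.mem_Icc]; omega⟩
    (R := fun u => L.Rb M (2 * r + 1) (u * (2 * r + 1)))
    (fun u h => Rb_stop hw hw0 (hu u h)) (f := ind (L.HX true (-N) N (-N) N))
    (fun ω => by unfold ind; split_ifs <;> norm_num) (fun ω => by unfold ind; split_ifs <;> norm_num)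
    (by
      have h1 := (Lat.HX.dep L true (-N) N (-N) N).ind
      rw [blks_union hw hw0, hw2, ← hN, bx_rect5]
      exact h1)
    (fun u h ω ω' h' => by
      have h1 := Rb_hx (L := L) hw hw0 (hu u h) (ω := ω) (ω' := ω') h'
      rw [hw2, ← hN] at h1
      exact h1)
    (δ := C' * (2 * (M : ℝ) + 1) ^ (-c)) (by positivity)
    (fun B hB => H' L hL.rsw r M (by omega) hM B hB) K
  refine le_trans ?_ (key.trans (H L hL r M hr hM))
  have hv := var_sq hL.rsw hN4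
  refine mul_le_mul_of_nonneg_left ?_ (Nat.cast_nonneg K)
  linarith

end XP

end SC
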