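import Pool.Agent.Lib_MP_e0a489.EX1
import Pool.Agent.Lib_MP_e0a489.TD1

/-!
# MP_e0a489, module ZR, 4: the leftmost vertical crossing of a rectangle
-/

set_option autoImplicit false

namespace SC

open Classical

/-- LEFTMOST CROSSING.  The closed clusters of `rect 0 a 0 n` attached to the column `-1` are explored,
`C = Cx false (rect (-1) a 0 n) (rect (-1) (-1) 0 n) ω`.  If there is an open vertical crossing, the boundary `Γ` of
`C` seen from the right is an open connected set which crosses the rectangle vertically.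
Proof (same as `hex_or` in TD1.lean, copy it).  Let `S = rect (-1) (-1) 0 n`, `M = rect (-1) (a+1) 0 n`.  `C` is connected
(`Cx_con`), `C ⊆ rect (-1) a 0 n` (`Cx_sub`).  Every `v ∈ C` has `v.1 < a`: otherwise `v ∉ S`, so `v` is joined in
closed sites of `rect (-1) a 0 n \ S` to a site `u` with a neighbour in `S`, `u.1 = 0` (`Adj.near`), so `HX false 0 a 0 n ω`
(this set difference is contained in `rect 0 a 0 n`), contradiction to `hex_not`.  `W` = component of `M \ C` that contains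
the column `a + 1`, `Γ = bd W C`, connected by `con_bd (exact_rect ..)`.  A site `v ∈ Γ` is not in `C ⊇ S` and has a neighbour
`u ∈ C`, `u.1 < a`, so `v ∈ rect 0 a 0 n`; it is open (`bd_col`) and in `Rev`.  Every row `y` with `0 ≤ y ≤ n` contains a site of `Γ`: `Cn.last` for the row
`rect (-1) (a+1) y y` and the set `C`. -/
theorem left_crossing {L : Lat} {a n : ℤ} (ha : 0 ≤ a) (hn : 0 ≤ n) {ω : Cfg}
    (h : L.VX true 0 a 0 n ω) : ∃ Γ : Set Pt, L.Con Γ ∧ Γ ⊆ rect 0 a 0 n ∩ L.col true ω ∧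
      Γ ⊆ L.Rev false (rect (-1) a 0 n) (rect (-1) (-1) 0 n) ω ∧
      (∀ v ∈ Γ, v ∉ L.Cx false (rect (-1) a 0 n) (rect (-1) (-1) 0 n) ω) ∧
      (∃ v ∈ Γ, v.2 = 0) ∧ ∃ v ∈ Γ, v.2 = n := by
  set S : Set Pt := rect (-1) (-1) 0 n with hS
  set M₀ : Set Pt := rect (-1) a 0 n with hM₀
  set M : Set Pt := rect (-1) (a + 1) 0 n with hM
  set C : Set Pt := L.Cx false M₀ S ω with hC
  have hSm : ∀ v : Pt, v ∈ S ↔ (-1 ≤ v.1 ∧ v.1 ≤ -1) ∧ 0 ≤ v.2 ∧ v.2 ≤ n := fun _ => Iff.rfl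
  have hM₀m : ∀ v : Pt, v ∈ M₀ ↔ (-1 ≤ v.1 ∧ v.1 ≤ a) ∧ 0 ≤ v.2 ∧ v.2 ≤ n := fun _ => Iff.rfl
  have hMm : ∀ v : Pt, v ∈ M ↔ (-1 ≤ v.1 ∧ v.1 ≤ a + 1) ∧ 0 ≤ v.2 ∧ v.2 ≤ n := fun _ => Iff.rfl
  have hRm : ∀ v : Pt, v ∈ rect 0 a 0 n ↔ (0 ≤ v.1 ∧ v.1 ≤ a) ∧ 0 ≤ v.2 ∧ v.2 ≤ n :=
    fun _ => Iff.rfl
  have hSM : S ⊆ M₀ := by
    intro v hv
    rw [hSm] at hv
    rw [hM₀m]
    omega
  have hCc : L.Con C := Lat.Cx_con (Lat.con_rect _ _ _ _)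
  have hCM₀ : C ⊆ M₀ := Lat.Cx_sub hSM
  have hCM : C ⊆ M := by
    intro v hv
    have h1 := hCM₀ hv
    rw [hM₀m] at h1
    rw [hMm]
    omega
  have hSR : M₀ \ S ⊆ rect 0 a 0 n := by
    rintro v ⟨h1, h2⟩
    rw [hM₀m] at h1
    rw [hSm] at h2
    rw [hRm]
    omega
  have hCb : ∀ v ∈ C, v.1 < a := by
    intro v hv
    have h0 := hCM₀ hv
    rw [hM₀m] at h0
    rcases hv with hv | hv
    · rw [hSm] at hv
      omega
    · obtain ⟨u, ⟨w, hw, hwu⟩, huv⟩ := hv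
      have h2 := hSR huv.left.1
      rw [hRm] at h2
      rw [hSm] at hw
      have h3 := hwu.near
      rw [abs_le, abs_le] at h3
      by_contra hcon
      refine Lat.hex_not (L := L) (c := false) (a := 0) (b := a) (p := 0) (q := n) (ω := ω)
        ⟨u, v, by omega, by omega, huv.mono (Set.inter_subset_inter_left _ hSR)⟩ h
  have hcol : rect (a + 1) (a + 1) 0 n ⊆ M \ C := by
    intro v hv
    have h1 : (a + 1 ≤ v.1 ∧ v.1 ≤ a + 1) ∧ 0 ≤ v.2 ∧ v.2 ≤ n := hv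
    refine ⟨?_, fun hvC => ?_⟩
    · rw [hMm]
      omega
    · have h2 := hCb v hvC
      omega
  have hm : ∀ y, 0 ≤ y → y ≤ n → ((a + 1, y) : Pt) ∈ rect (a + 1) (a + 1) 0 n :=
    fun y h1 h2 => ⟨⟨le_refl _, le_refl _⟩, h1, h2⟩
  set W : Set Pt := {v | L.Cn (M \ C) (a + 1, 0) v} with hW
  have hWc : L.Comp (M \ C) W := Lat.comp_cluster (hcol (hm 0 (le_refl _) hn))
  have hB : L.Con (L.bd W C) := Lat.con_bd (Lat.exact_rect _ _ _ _ _) hCc hCM hWc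
  have hBR : ∀ v ∈ L.bd W C, v ∈ rect 0 a 0 n ∧ v ∈ M₀ ∧ v ∉ C := by
    rintro v ⟨hv, u, hu, huv⟩
    have h1 := hWc.sub hv
    have h2 := hCb u hu
    have h3 := huv.near
    rw [abs_le, abs_le] at h3
    have h4 : v ∉ S := fun h => h1.2 (Or.inl h)
    have h5 := h1.1
    rw [hSm] at h4
    rw [hMm] at h5
    refine ⟨?_, ?_, h1.2⟩
    · rw [hRm]
      omega
    · rw [hM₀m]
      omega
  have hrow : ∀ y, 0 ≤ y → y ≤ n → ∃ v ∈ L.bd W C, v.2 = y := by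
    intro y hy1 hy2
    have hT : L.Con (rect (-1) (a + 1) y y) := Lat.con_rect _ _ _ _
    have m1 : ((-1, y) : Pt) ∈ rect (-1) (a + 1) y y :=
      ⟨⟨le_refl _, by simp only []; omega⟩, le_refl _, le_refl _⟩
    have m2 : ((a + 1, y) : Pt) ∈ rect (-1) (a + 1) y y :=
      ⟨⟨by simp only []; omega, le_refl _⟩, le_refl _, le_refl _⟩
    have m3 : ((-1, y) : Pt) ∈ C := Or.inl ⟨⟨le_refl _, le_refl _⟩, hy1, hy2⟩
    have m4 : ((a + 1, y) : Pt) ∉ C := (hcol (hm y hy1 hy2)).2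
    obtain ⟨z, w, hz, hzC, hzw, hw⟩ := (hT _ m1 _ m2).last m3 m4
    have hTM : rect (-1) (a + 1) y y \ C ⊆ M \ C := by
      rintro v ⟨hv, hvC⟩
      have h1 : (-1 ≤ v.1 ∧ v.1 ≤ a + 1) ∧ y ≤ v.2 ∧ v.2 ≤ y := hv
      refine ⟨?_, hvC⟩
      rw [hMm]
      omega
    have h2 : L.Cn (M \ C) (a + 1, 0) (a + 1, y) :=
      (Lat.con_rect _ _ _ _ _ (hm 0 (le_refl _) hn) _ (hm y hy1 hy2)).mono hcol
    refine ⟨w, ⟨h2.trans (hw.mono hTM).symm, z, hzC, hzw⟩, ?_⟩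
    have h3 : (-1 ≤ w.1 ∧ w.1 ≤ a + 1) ∧ y ≤ w.2 ∧ w.2 ≤ y := hw.left.1
    omega
  refine ⟨L.bd W C, hB, ?_, ?_, fun v hv => (hBR v hv).2.2, hrow 0 (le_refl _) hn,
    hrow n hn (le_refl _)⟩
  · intro v hv
    exact ⟨(hBR v hv).1, Lat.bd_col (hBR v hv).2.1 hv.2 (hBR v hv).2.2⟩
  · intro v hv
    exact Or.inr ⟨(hBR v hv).2.1, hv.2⟩

end SC
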