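import Pool.Agent.Lib_MP_e0a489.TB2
import Pool.Agent.Lib_MP_e0a489.TE2

/-!
# MP_e0a489, module ZR, 5: the region to the right of a vertical crossing
-/

set_option autoImplicit false

namespace SC

open Classical

/-- the region of `rect (-1) (m+1) 0 h` to the right of `B` -/
def Lat.rgt (L : Lat) (B : Set Pt) (m h : ℤ) : Set Pt :=
  {z | L.Cn (rect (-1) (m + 1) 0 h \ B) (m + 1, 0) z}

variable {L : Lat} {B C : Set Pt} {a m h : ℤ}

/-- A connected set attached to the left side which does not meet `B` is not next to the region on the right.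
Proof.  Let `z ∈ rgt B m h` be in `C` or have a neighbour in `C`.  `rgt B m h` is connected (`con_cluster`), contained in
`rect (-1) (m+1) 0 h \ B` and contains `(m+1, 0)` (not in `B`, because `B ⊆ rect 0 m 0 h`).  So `P = C ∪ rgt B m h` is connected
(`Con.union` or `Con.union_adj`), joins the columns `-1` and `m + 1` in `rect (-1) (m+1) 0 h` and does not meet `B`.  But `B` joins
the rows `0` and `h`: contradiction to `cross`. -/
theorem rgt_avoid (hm : 0 ≤ m) (hh : 0 ≤ h) (hC : L.Con C) (hCr : C ⊆ rect (-1) (m + 1) 0 h)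
    (hC1 : ∃ v ∈ C, v.1 = -1) (hCB : ∀ v ∈ C, v ∉ B) (hB : L.Con B) (hBr : B ⊆ rect 0 m 0 h)
    (b0 : ∃ v ∈ B, v.2 = 0) (b1 : ∃ v ∈ B, v.2 = h) {z : Pt} (hz : z ∈ L.rgt B m h) :
    z ∉ C ∧ z ∉ L.nb C := by
  have hz' : L.Cn (rect (-1) (m + 1) 0 h \ B) (m + 1, 0) z := hz
  have hK : L.Con (L.rgt B m h) := Lat.con_cluster _ _
  have h0 : ((m + 1, 0) : Pt) ∈ L.rgt B m h := Lat.Cn.refl hz'.left
  have key : ¬ L.Con (C ∪ L.rgt B m h) := by
    intro hP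
    have hPr : C ∪ L.rgt B m h ⊆ rect (-1) (m + 1) 0 h := by
      rintro v (hv | hv)
      · exact hCr hv
      · have hv' : L.Cn (rect (-1) (m + 1) 0 h \ B) (m + 1, 0) v := hv
        exact hv'.right.1
    have hBr' : B ⊆ rect (-1) (m + 1) 0 h := by
      intro v hv
      obtain ⟨⟨q1, q2⟩, q3, q4⟩ := hBr hv
      exact ⟨⟨by omega, by omega⟩, q3, q4⟩
    obtain ⟨v, hv, hv1⟩ := hC1
    obtain ⟨w, hw, hwB⟩ := Lat.cross hP hB hPr hBr' ⟨v, Or.inl hv, hv1⟩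
      ⟨(m + 1, 0), Or.inr h0, rfl⟩ b0 b1
    rcases hw with hw | hw
    · exact hCB w hw hwB
    · have hw' : L.Cn (rect (-1) (m + 1) 0 h \ B) (m + 1, 0) w := hw
      exact hw'.right.2 hwB
  constructor
  · intro hzC
    exact key (Lat.Con.union hC hK ⟨z, hzC, hz⟩)
  · rintro ⟨u, hu, hadj⟩
    exact key (Lat.Con.union_adj hC hK hu hz hadj)

/-- the column `m + 1` -/
private theorem ZR5_col {L : Lat} {B : Set Pt} {a m h : ℤ} (hm : 0 ≤ m) (ham : a ≤ m)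
    (hBr : B ⊆ rect 0 a 0 h) {x y : ℤ} (hx : 0 ≤ x ∧ x ≤ h) (hy : 0 ≤ y ∧ y ≤ h) :
    L.Cn (rect (-1) (m + 1) 0 h \ B) (m + 1, x) (m + 1, y) := by
  have h1 : L.Cn (rect (m + 1) (m + 1) 0 h) (m + 1, x) (m + 1, y) :=
    Lat.con_rect (m + 1) (m + 1) 0 h _ ⟨⟨le_refl _, le_refl _⟩, hx⟩ _ ⟨⟨le_refl _, le_refl _⟩, hy⟩
  refine h1.mono ?_
  rintro v ⟨⟨q1, q2⟩, q3⟩
  refine ⟨⟨⟨by omega, q2⟩, q3⟩, ?_⟩
  intro hv
  obtain ⟨⟨r1, r2⟩, -⟩ := hBr hv
  omega

/-- A horizontal crossing contains a path in the region on the right, from a neighbour of `B` to the right side.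
Proof.  Let `u`, `v` be the ends of the crossing, `A = rect 0 m 0 h ∩ col true η`.  The set `{z | Cn A u z}` is connected and
joins the columns `0` and `m`, so it meets `B` (`cross` in `rect 0 m 0 h`) in a site `w`, and `Cn A w v`, `v ∉ B` (`v.1 = m > a`).  By
`Cn.last` (set `B`) there are `p ∈ B`, `q`, `Adj p q`, `Cn (A \ B) q v`.  All sites `z` of the path from `q` to `v` are in `rgt B m h`:
`(m+1, 0)` is joined to `(m+1, v.2)` in the column `m + 1` (`con_rect`), this site is next to `v = (m, v.2)`, and `v` is joined to `z` in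
`A \ B`.  (Write the path in the intersection with `con_cluster`.) -/
theorem rgt_arm (ha : 0 ≤ a) (ham : a < m) (hh : 0 ≤ h) (hB : L.Con B) (hBr : B ⊆ rect 0 a 0 h)
    (b0 : ∃ v ∈ B, v.2 = 0) (b1 : ∃ v ∈ B, v.2 = h) {η : Cfg} (hx : L.HX true 0 m 0 h η) :
    L.Arm true (L.rgt B m h ∩ rect 0 m 0 h) (L.nb B) {v | v.1 = m} η := by
  obtain ⟨u, v, hu, hv, hc⟩ := hx
  have hK : L.Con {z | L.Cn (rect 0 m 0 h ∩ L.col true η) u z} := Lat.con_cluster _ _
  have hBr' : B ⊆ rect 0 m 0 h := by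
    intro z hz
    obtain ⟨⟨q1, q2⟩, q3⟩ := hBr hz
    exact ⟨⟨q1, by omega⟩, q3⟩
  obtain ⟨w, hw, hwB⟩ := Lat.cross (a := 0) (b := m) (c := 0) (d := h) hK hB
    (fun z hz => (Lat.Cn.right hz).1) hBr' ⟨u, Lat.Cn.refl hc.left, hu⟩ ⟨v, hc, hv⟩ b0 b1
  have hwv : L.Cn (rect 0 m 0 h ∩ L.col true η) w v := (Lat.Cn.symm hw).trans hc
  have hvB : v ∉ B := by
    intro hvB
    obtain ⟨⟨q1, q2⟩, -⟩ := hBr hvB
    omega
  obtain ⟨p, q, hpA, hpB, hpq, hqv⟩ := hwv.last (S := B) hwB hvB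
  refine ⟨q, ⟨p, hpB, hpq⟩, v, hv, ?_⟩
  have hK' := Lat.con_cluster (L := L) ((rect 0 m 0 h ∩ L.col true η) \ B) q
  have h1 := hK' q (Lat.Cn.refl hqv.left) v hqv
  refine h1.mono ?_
  intro z hz
  have hz' : L.Cn ((rect 0 m 0 h ∩ L.col true η) \ B) q z := hz
  have hzA := hz'.right
  refine ⟨⟨?_, hzA.1.1⟩, hzA.1.2⟩
  have hvr := hqv.right.1.1
  have h2 : L.Cn (rect (-1) (m + 1) 0 h \ B) (m + 1, 0) (m + 1, v.2) :=
    ZR5_col (by omega) ham.le hBr ⟨le_refl _, hh⟩ hvr.2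
  have h3 : L.Adj (m + 1, v.2) v := by
    have h4 := (Lat.adj_right (L := L) v).symm
    rw [hv] at h4
    exact h4
  have hsub : (rect 0 m 0 h ∩ L.col true η) \ B ⊆ rect (-1) (m + 1) 0 h \ B := by
    rintro y ⟨⟨⟨⟨q1, q2⟩, q3⟩, -⟩, q4⟩
    exact ⟨⟨⟨by omega, by omega⟩, q3⟩, q4⟩
  have h5 : L.Cn (rect (-1) (m + 1) 0 h \ B) v z := (hqv.symm.trans hz').mono hsub
  exact (h2.trans (Lat.Cn.of_adj h2.right h5.left h3)).trans h5

/-- Symmetry.  `e` is a symmetry of `L` (for instance a reflection) which preserves the rectangle and `B` and maps the lower end of the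
column `m + 1` to a site of this column.
Proof.  `Tr.cn` gives `z ∈ rgt ↔ Cn (e '' (rect .. \ B)) (e (m+1,0)) (e z)` and `e '' (rect .. \ B) = rect .. \ B` (`Set.image_sdiff e.injective`); `e (m+1, 0)` is joined to
`(m+1, 0)` in the column `m + 1`, which is disjoint from `B`. -/
theorem rgt_sym {e : Equiv.Perm Pt} (he : Tr L L e) (hm : 0 ≤ m) (hh : 0 ≤ h)
    (hBr : B ⊆ rect 0 m 0 h) (heB : e '' B = B)
    (her : e '' rect (-1) (m + 1) 0 h = rect (-1) (m + 1) 0 h) (he1 : (e (m + 1, 0)).1 = m + 1) :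
    e '' L.rgt B m h = L.rgt B m h := by
  have hR : e '' (rect (-1) (m + 1) 0 h \ B) = rect (-1) (m + 1) 0 h \ B := by
    rw [Set.image_sdiff e.injective, heB, her]
  have hmem : e (m + 1, 0) ∈ rect (-1) (m + 1) 0 h := by
    rw [← her]
    exact ⟨(m + 1, 0), ⟨⟨by show (-1 : ℤ) ≤ m + 1; omega, le_refl _⟩, le_refl _, hh⟩, rfl⟩
  have hcol : L.Cn (rect (-1) (m + 1) 0 h \ B) (m + 1, 0) (e (m + 1, 0)) := by
    have h1 : L.Cn (rect (-1) (m + 1) 0 h \ B) (m + 1, 0) (m + 1, (e (m + 1, 0)).2) :=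
      ZR5_col hm (le_refl m) hBr ⟨le_refl _, hh⟩ hmem.2
    have h2 : ((m + 1, (e (m + 1, 0)).2) : Pt) = e (m + 1, 0) := Prod.ext he1.symm rfl
    rwa [h2] at h1
  ext z
  constructor
  · rintro ⟨w, hw, rfl⟩
    have hw' : L.Cn (rect (-1) (m + 1) 0 h \ B) (m + 1, 0) w := hw
    have h1 := (he.cn _ _ _).1 hw'
    rw [hR] at h1
    exact hcol.trans h1
  · intro hz
    have hz' : L.Cn (rect (-1) (m + 1) 0 h \ B) (m + 1, 0) z := hz
    obtain ⟨w, rfl⟩ := e.surjective z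
    refine ⟨w, ?_, rfl⟩
    have h1 : L.Cn (e '' (rect (-1) (m + 1) 0 h \ B)) (e (m + 1, 0)) (e w) := by
      rw [hR]
      exact hcol.symm.trans hz'
    exact (he.cn _ _ _).2 h1

end SC
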