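import Pool.Agent.Lib_MP_e0a489.TE2

/-!
# MP_e0a489, module ZR, 6: reflections, the event of the RSW lemma (any lattice)
-/

set_option autoImplicit false

namespace SC

open Classical

/-- reflection of the second coordinate, `y ↦ h - y` -/
def rfy (h : ℤ) : Equiv.Perm Pt where
  toFun v := (v.1, h - v.2)
  invFun v := (v.1, h - v.2)
  left_inv v := by simp
  right_inv v := by simp

/-- reflection of the first coordinate, `x ↦ h - x` -/
def rfx (h : ℤ) : Equiv.Perm Pt where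
  toFun v := (h - v.1, v.2)
  invFun v := (h - v.1, v.2)
  left_inv v := by simp
  right_inv v := by simp

/-- `(tr_ry L).trans (tr_shift L.ry (0, -h))`: the map is `v ↦ ryE (v + (0, -h)) = (v.1, h - v.2)` (`Equiv.ext`) -/
theorem tr_rfy (L : Lat) (h : ℤ) : Tr L (L.ry.shift (0, -h)) (rfy h) := by
  have e : rfy h = ryE * Equiv.addRight ((0, -h) : Pt) := by
    refine Equiv.ext (fun v => ?_)
    show ((v.1, h - v.2) : Pt) = (v.1 + 0, -(v.2 + -h))
    rw [add_zero]
    congr 1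
    ring
  rw [e]
  exact (tr_ry L).trans (tr_shift L.ry (0, -h))

/-- `(tr_rx L).trans (tr_shift L.rx (-h, 0))` -/
theorem tr_rfx (L : Lat) (h : ℤ) : Tr L (L.rx.shift (-h, 0)) (rfx h) := by
  have e : rfx h = rxE * Equiv.addRight ((-h, 0) : Pt) := by
    refine Equiv.ext (fun v => ?_)
    show ((h - v.1, v.2) : Pt) = (-(v.1 + -h), v.2 + 0)
    rw [add_zero]
    congr 1
    ring
  rw [e]
  exact (tr_rx L).trans (tr_shift L.rx (-h, 0))

/-- THE EVENT OF THE RSW LEMMA: an open vertical crossing of `[0,a] × [0,n]` that is joined in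
`[0,m] × [0,2n]` to the right side -/
def Lat.XX (L : Lat) (a m n : ℤ) (ω : Cfg) : Prop :=
  ∃ u v w : Pt, u.2 = 0 ∧ v.2 = n ∧ w.1 = m ∧ L.Cn (rect 0 a 0 n ∩ L.col true ω) u v ∧
    L.Cn (rect 0 m 0 (2 * n) ∩ L.col true ω) u w

private theorem zr6_inter (L : Lat) (D : Set Pt) {ω ω' : Cfg} (h : ∀ v ∈ D, ω v = ω' v) :
    D ∩ L.col true ω = D ∩ L.col true ω' := by
  ext v
  constructor
  · rintro ⟨h1, h2⟩
    refine ⟨h1, ?_⟩
    have h3 : L.st ω v = true := h2
    show L.st ω' v = true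
    unfold Lat.st at h3 ⊢
    rw [← h v h1]
    exact h3
  · rintro ⟨h1, h2⟩
    refine ⟨h1, ?_⟩
    have h3 : L.st ω' v = true := h2
    show L.st ω v = true
    unfold Lat.st at h3 ⊢
    rw [h v h1]
    exact h3

private theorem zr6_col {L : Lat} {ω ω' : Cfg} (h : ∀ v, ω v ≤ ω' v) :
    L.col true ω ⊆ L.col true ω' := by
  intro v hv
  have h1 : L.st ω v = true := hv
  show L.st ω' v = true
  have h2 := h v
  unfold Lat.st at h1 ⊢
  cases h3 : L.typ v with
  | none =>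
    rw [h3] at h1
    simp only [Option.getD_none] at h1 ⊢
    rw [h1] at h2
    exact top_le_iff.mp h2
  | some b =>
    rw [h3] at h1
    simpa using h1

/-- if `ω` and `ω'` agree on `rect 0 m 0 (2n) ⊇ rect 0 a 0 n` the two sets of open sites are the same -/
theorem XX.dep (L : Lat) {a m n : ℤ} (ha : a ≤ m) (hn : 0 ≤ n) :
    Dep (L.XX a m n) (rect 0 m 0 (2 * n)) := by
  intro ω ω' h
  have hs : rect 0 a 0 n ⊆ rect 0 m 0 (2 * n) := by
    rintro v ⟨⟨h1, h2⟩, h3, h4⟩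
    exact ⟨⟨h1, by omega⟩, h3, by omega⟩
  unfold Lat.XX
  rw [zr6_inter L (rect 0 m 0 (2 * n)) h, zr6_inter L (rect 0 a 0 n) (fun v hv => h v (hs hv))]

/-- (`rect` is finite, see `HX.loc`) -/
theorem XX.loc (L : Lat) {a m n : ℤ} (ha : a ≤ m) (hn : 0 ≤ n) : Loc (L.XX a m n) := by
  have hf : (rect 0 m 0 (2 * n)).Finite := by
    have h : rect 0 m 0 (2 * n) ⊆ Set.Icc 0 m ×ˢ Set.Icc 0 (2 * n) := by
      rintro v ⟨h1, h2⟩
      exact ⟨h1, h2⟩
    exact ((Set.finite_Icc _ _).prod (Set.finite_Icc _ _)).subset h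
  exact ⟨hf.toFinset, (XX.dep L ha hn).mono (by rw [Set.Finite.coe_toFinset])⟩

/-- more open sites (`st` is increasing in `ω`) -/
theorem XX.inc (L : Lat) (a m n : ℤ) : Inc (L.XX a m n) := by
  rintro ω ω' h ⟨u, v, w, hu, hv, hw, h1, h2⟩
  exact ⟨u, v, w, hu, hv, hw, h1.mono (Set.inter_subset_inter_right _ (zr6_col h)),
    h2.mono (Set.inter_subset_inter_right _ (zr6_col h))⟩

/-- The event seen through a symmetry (`Tr.cn`, `Tr.col`, `Set.image_inter e.injective`). -/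
theorem XX.via {L L' : Lat} {e : Equiv.Perm Pt} (he : Tr L L' e) {a m n : ℤ} {ω : Cfg}
    (h : L'.XX a m n (SC.via e ω)) : ∃ u v w : Pt, u.2 = 0 ∧ v.2 = n ∧ w.1 = m ∧
      L.Cn ((e '' rect 0 a 0 n) ∩ L.col true ω) (e u) (e v) ∧
      L.Cn ((e '' rect 0 m 0 (2 * n)) ∩ L.col true ω) (e u) (e w) := by
  obtain ⟨u, v, w, hu, hv, hw, h1, h2⟩ := h
  refine ⟨u, v, w, hu, hv, hw, ?_, ?_⟩
  · have h3 := (he.cn _ u v).1 h1
    rwa [Set.image_inter e.injective, he.col] at h3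
  · have h3 := (he.cn _ u w).1 h2
    rwa [Set.image_inter e.injective, he.col] at h3

end SC
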