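import Pool.Agent.Lib_MP_e0a489.PD2
import Pool.Agent.Lib_MP_e0a489.ZR4
import Pool.Agent.Lib_MP_e0a489.ZR5
import Pool.Agent.Lib_MP_e0a489.ZR6

/-!
# MP_e0a489, module ZR, 7: the RSW lemma of Bollobás and Riordan

`hL : Tr L L (rfy (2 * n))`: the reflection in the row `n` is a symmetry of the lattice.
-/

set_option autoImplicit false

namespace SC

open Classical

variable {L : Lat} {a m n : ℤ}

private theorem zr7_inv (h : ℤ) (v : Pt) : rfy h (rfy h v) = v := by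
  show ((v.1, h - (h - v.2)) : Pt) = v
  rw [sub_sub_cancel]

private theorem zr7_mem (h : ℤ) (A : Set Pt) (v : Pt) : v ∈ rfy h '' A ↔ rfy h v ∈ A := by
  constructor
  · rintro ⟨w, hw, rfl⟩
    rwa [zr7_inv]
  · intro hv
    exact ⟨rfy h v, hv, zr7_inv h v⟩

private theorem zr7_rect (h x y : ℤ) : rfy h '' rect x y 0 h = rect x y 0 h := by
  ext v
  rw [zr7_mem]
  constructor
  · rintro ⟨⟨h1, h2⟩, h3, h4⟩
    have h3' : 0 ≤ h - v.2 := h3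
    have h4' : h - v.2 ≤ h := h4
    exact ⟨⟨h1, h2⟩, by omega, by omega⟩
  · rintro ⟨⟨h1, h2⟩, h3, h4⟩
    refine ⟨⟨h1, h2⟩, ?_, ?_⟩
    · show 0 ≤ h - v.2
      omega
    · show h - v.2 ≤ h
      omega

private theorem zr7_finite (x y p q : ℤ) : (rect x y p q).Finite := by
  have h : rect x y p q ⊆ Set.Icc x y ×ˢ Set.Icc p q := by
    rintro v ⟨h1, h2⟩
    exact ⟨h1, h2⟩
  exact ((Set.finite_Icc _ _).prod (Set.finite_Icc _ _)).subset h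

/-- THE SYMMETRIC SET.  `Γ` as in `left_crossing`, `e = rfy (2n)`, `B = Γ ∪ e '' Γ`.  `B` is connected (`Tr.con` for `e '' Γ`, the site of `Γ` in the row `n` is fixed
by `e`, `Con.union`), contained in `rect 0 a 0 (2n)`, contains sites of the rows `0` and `2n`, `e '' B = B`. -/
theorem zr_B (hL : Tr L L (rfy (2 * n))) (hn : 0 ≤ n) {Γ : Set Pt} (hΓ : L.Con Γ)
    (hr : Γ ⊆ rect 0 a 0 n) (h0 : ∃ v ∈ Γ, v.2 = 0) (h1 : ∃ v ∈ Γ, v.2 = n) :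
    L.Con (Γ ∪ rfy (2 * n) '' Γ) ∧ Γ ∪ rfy (2 * n) '' Γ ⊆ rect 0 a 0 (2 * n) ∧
      (∃ v ∈ Γ ∪ rfy (2 * n) '' Γ, v.2 = 0) ∧ (∃ v ∈ Γ ∪ rfy (2 * n) '' Γ, v.2 = 2 * n) ∧
      rfy (2 * n) '' (Γ ∪ rfy (2 * n) '' Γ) = Γ ∪ rfy (2 * n) '' Γ := by
  obtain ⟨u, hu, hu0⟩ := h0
  obtain ⟨v, hv, hvn⟩ := h1
  refine ⟨?_, ?_, ⟨u, Or.inl hu, hu0⟩, ?_, ?_⟩
  · refine Lat.Con.union hΓ ((hL.con Γ).1 hΓ) ⟨v, hv, ?_⟩
    rw [zr7_mem]
    have e : rfy (2 * n) v = v := by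
      show ((v.1, 2 * n - v.2) : Pt) = v
      refine Prod.ext rfl ?_
      show 2 * n - v.2 = v.2
      omega
    rwa [e]
  · rintro w (hw | hw)
    · obtain ⟨⟨q1, q2⟩, q3, q4⟩ := hr hw
      exact ⟨⟨q1, q2⟩, q3, by omega⟩
    · rw [zr7_mem] at hw
      obtain ⟨⟨q1, q2⟩, q3, q4⟩ := hr hw
      have q1' : 0 ≤ w.1 := q1
      have q2' : w.1 ≤ a := q2
      have q3' : 0 ≤ 2 * n - w.2 := q3
      have q4' : 2 * n - w.2 ≤ n := q4
      exact ⟨⟨q1', q2'⟩, by omega, by omega⟩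
  · refine ⟨rfy (2 * n) u, Or.inr ⟨u, hu, rfl⟩, ?_⟩
    show 2 * n - u.2 = 2 * n
    omega
  · rw [Set.image_union]
    have e : rfy (2 * n) '' (rfy (2 * n) '' Γ) = Γ := by
      ext w
      rw [zr7_mem, zr7_mem, zr7_inv]
    rw [e, Set.union_comm]

private theorem zr7_dom (hL : Tr L L (rfy (2 * n))) (hm : 0 ≤ m) (hn : 0 ≤ n) {B : Set Pt}
    (hB : B ⊆ rect 0 m 0 (2 * n)) (heB : rfy (2 * n) '' B = B) :
    rfy (2 * n) '' (L.rgt B m (2 * n) ∩ rect 0 m 0 (2 * n)) =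
      L.rgt B m (2 * n) ∩ rect 0 m 0 (2 * n) := by
  rw [Set.image_inter (rfy (2 * n)).injective, zr7_rect,
    rgt_sym hL hm (by omega) hB heB (zr7_rect _ _ _) rfl]

/-- HALF OF THE PROBABILITY.  A crossing of `[0,m] × [0,2n]` gives a path in the region `D` on the right of `B`, starting next to
`Γ` or next to `e '' Γ`; both cases have the same probability by the reflection `e = rfy (2n)`.
Proof.  `rgt_arm` for `B` (`zr_B`; `h = 2n`): `HX true 0 m 0 (2n) η` implies `Arm true D (nb B) Y η`, `D = rgt B m (2n) ∩ rect 0 m 0 (2n)`, `Y = {v | v.1 = m}`; `nb B = nb Γ ∪ nb (e '' Γ)`.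
So `pr (HX) ≤ pr (Arm D (nb Γ) Y) + pr (Arm D (nb (e '' Γ)) Y)` (`pr_mono`, `pr_or_le`; the events are local: `Arm.loc`, `D` is a subset of a finite rectangle).
By `Tr.arm hL`: `Arm D (nb Γ) Y (via e η) ↔ Arm (e '' D) (e '' nb Γ) (e '' Y) η`, `e '' D = D` (`rgt_sym`, `Set.image_inter`), `e '' nb Γ = nb (e '' Γ)` (`Tr.nb`), `e '' Y = Y`; so the
two probabilities are equal (`pr_via`). -/
theorem zr_half (hL : Tr L L (rfy (2 * n))) (ha : 0 ≤ a) (ham : a < m) (hn : 0 ≤ n) {Γ : Set Pt}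
    (hΓ : L.Con Γ) (hr : Γ ⊆ rect 0 a 0 n) (h0 : ∃ v ∈ Γ, v.2 = 0) (h1 : ∃ v ∈ Γ, v.2 = n) :
    1 / 2 * pr (L.HX true 0 m 0 (2 * n)) ≤
      pr (L.Arm true (L.rgt (Γ ∪ rfy (2 * n) '' Γ) m (2 * n) ∩ rect 0 m 0 (2 * n)) (L.nb Γ)
        {v | v.1 = m}) := by
  obtain ⟨b1, b2, b3, b4, b5⟩ := zr_B hL hn hΓ hr h0 h1
  set B : Set Pt := Γ ∪ rfy (2 * n) '' Γ with hB
  have hBm : B ⊆ rect 0 m 0 (2 * n) := by
    intro w hw
    obtain ⟨⟨q1, q2⟩, q3⟩ := b2 hw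
    exact ⟨⟨q1, by omega⟩, q3⟩
  set D : Set Pt := L.rgt B m (2 * n) ∩ rect 0 m 0 (2 * n) with hD
  have hDf : D.Finite := (zr7_finite 0 m 0 (2 * n)).subset Set.inter_subset_right
  have hDe : rfy (2 * n) '' D = D := zr7_dom hL (by omega) hn hBm b5
  have l1 : Loc (L.Arm true D (L.nb Γ) {v | v.1 = m}) := Lat.Arm.loc L true _ _ _ hDf
  have l2 : Loc (L.Arm true D (L.nb (rfy (2 * n) '' Γ)) {v | v.1 = m}) :=
    Lat.Arm.loc L true _ _ _ hDf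
  have l3 : Loc (L.HX true 0 m 0 (2 * n)) := Lat.HX.loc L true _ _ _ _
  have hY : rfy (2 * n) '' {v : Pt | v.1 = m} = {v : Pt | v.1 = m} := by
    ext w
    rw [zr7_mem]
    exact Iff.rfl
  have e1 : pr (L.Arm true D (L.nb (rfy (2 * n) '' Γ)) {v | v.1 = m}) =
      pr (L.Arm true D (L.nb Γ) {v | v.1 = m}) := by
    rw [← pr_via l1 (rfy (2 * n))]
    congr 1
    funext ω
    have h2 := hL.arm true D (L.nb Γ) {v | v.1 = m} ω
    rw [hDe, hL.nb, hY] at h2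
    exact (propext h2).symm
  have e2 : pr (L.HX true 0 m 0 (2 * n)) ≤ pr (L.Arm true D (L.nb Γ) {v | v.1 = m}) +
      pr (L.Arm true D (L.nb (rfy (2 * n) '' Γ)) {v | v.1 = m}) := by
    refine le_trans (pr_mono l3 (l1.or l2) (fun η hη => ?_)) (pr_or_le l1 l2)
    obtain ⟨x, ⟨s, hs, hsx⟩, y, hy, hc⟩ := rgt_arm ha ham (by omega) b1 b2 b3 b4 hη
    rcases hs with hs | hs
    · exact Or.inl ⟨x, ⟨s, hs, hsx⟩, y, hy, hc⟩
    · exact Or.inr ⟨x, ⟨s, hs, hsx⟩, y, hy, hc⟩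
  rw [e1] at e2
  linarith

/-- THE MIXED CONFIGURATION.  `Γ` is open and explored, the region `D` is not explored (`rgt_avoid` with `h = 2n` and `C = Cx ..`, which does not meet `B`:
it does not meet `Γ`; a site `z ∈ C` has `z.2 ≤ n` and the sites of `e '' Γ` have second coordinate `≥ n`, so a common site has `z.2 = n` and is a site of `Γ`).
So in `ζ = mix G R ω η` the sites of `Γ` are open (`mix_col_rev`), the open sites of `D` are those of `η` (`mix_col_new`).  Take `u`, `v` = sites of `Γ` in the rows `0`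
and `n`, `w` = end of the arm: `u` is joined in `Γ` to the neighbour of the start of the arm.  (`C` is connected, contained in `rect (-1) a 0 n`, contains `(-1, 0)`: `Cx_con`, `Cx_sub`, `Cx_sup`.
`Rev = C ∪ bd .. C` and `bd M C ⊆ nb C`.) -/
theorem zr_mix (hL : Tr L L (rfy (2 * n))) (ha : 0 ≤ a) (ham : a < m) (hn : 0 ≤ n) {G : Finset Pt}
    (hG : rect 0 m 0 (2 * n) ⊆ (G : Set Pt)) {ω η : Cfg} {Γ : Set Pt} (hΓ : L.Con Γ)
    (hr : Γ ⊆ rect 0 a 0 n ∩ L.col true ω)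
    (hR : Γ ⊆ L.Rev false (rect (-1) a 0 n) (rect (-1) (-1) 0 n) ω)
    (hC : ∀ v ∈ Γ, v ∉ L.Cx false (rect (-1) a 0 n) (rect (-1) (-1) 0 n) ω)
    (h0 : ∃ v ∈ Γ, v.2 = 0) (h1 : ∃ v ∈ Γ, v.2 = n)
    (hA : L.Arm true (L.rgt (Γ ∪ rfy (2 * n) '' Γ) m (2 * n) ∩ rect 0 m 0 (2 * n)) (L.nb Γ)
      {v | v.1 = m} η) :
    L.XX a m n (mix G (L.Rev false (rect (-1) a 0 n) (rect (-1) (-1) 0 n)) ω η) := by
  obtain ⟨b1, b2, b3, b4, b5⟩ := zr_B hL hn hΓ (fun v hv => (hr hv).1) h0 h1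
  have hBm : Γ ∪ rfy (2 * n) '' Γ ⊆ rect 0 m 0 (2 * n) := by
    intro w hw
    obtain ⟨⟨q1, q2⟩, q3⟩ := b2 hw
    exact ⟨⟨q1, by omega⟩, q3⟩
  have hSM : rect (-1) (-1) 0 n ⊆ rect (-1) a 0 n := by
    rintro v ⟨⟨q1, q2⟩, q3⟩
    exact ⟨⟨q1, by omega⟩, q3⟩
  have hCc : L.Con (L.Cx false (rect (-1) a 0 n) (rect (-1) (-1) 0 n) ω) :=
    Lat.Cx_con (Lat.con_rect _ _ _ _)
  have hCs : L.Cx false (rect (-1) a 0 n) (rect (-1) (-1) 0 n) ω ⊆ rect (-1) a 0 n :=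
    Lat.Cx_sub hSM
  have hCr : L.Cx false (rect (-1) a 0 n) (rect (-1) (-1) 0 n) ω ⊆
      rect (-1) (m + 1) 0 (2 * n) := by
    intro v hv
    obtain ⟨⟨q1, q2⟩, q3, q4⟩ := hCs hv
    exact ⟨⟨q1, by omega⟩, q3, by omega⟩
  have hC1 : ∃ v ∈ L.Cx false (rect (-1) a 0 n) (rect (-1) (-1) 0 n) ω, v.1 = -1 :=
    ⟨(-1, 0), Lat.Cx_sup ⟨⟨le_refl _, le_refl _⟩, le_refl _, hn⟩, rfl⟩
  have hCB : ∀ v ∈ L.Cx false (rect (-1) a 0 n) (rect (-1) (-1) 0 n) ω,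
      v ∉ Γ ∪ rfy (2 * n) '' Γ := by
    rintro v hv (hv2 | hv2)
    · exact hC v hv2 hv
    · rw [zr7_mem] at hv2
      obtain ⟨⟨q1, q2⟩, q3, q4⟩ := (hr hv2).1
      obtain ⟨⟨p1, p2⟩, p3, p4⟩ := hCs hv
      have q4' : 2 * n - v.2 ≤ n := q4
      have e : rfy (2 * n) v = v := by
        show ((v.1, 2 * n - v.2) : Pt) = v
        refine Prod.ext rfl ?_
        show 2 * n - v.2 = v.2
        omega
      rw [e] at hv2
      exact hC v hv2 hv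
  set R : Cfg → Set Pt := L.Rev false (rect (-1) a 0 n) (rect (-1) (-1) 0 n) with hRd
  have hζΓ : Γ ⊆ rect 0 a 0 n ∩ L.col true (mix G R ω η) := fun v hv =>
    ⟨(hr hv).1, (Lat.mix_col_rev (hR hv) true).2 (hr hv).2⟩
  have hζD : (L.rgt (Γ ∪ rfy (2 * n) '' Γ) m (2 * n) ∩ rect 0 m 0 (2 * n)) ∩ L.col true η ⊆
      rect 0 m 0 (2 * n) ∩ L.col true (mix G R ω η) := by
    rintro v ⟨⟨hv1, hv2⟩, hv3⟩
    refine ⟨hv2, (Lat.mix_col_new ?_ (by exact_mod_cast hG hv2) true).2 hv3⟩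
    have h2 := rgt_avoid (by omega) (by omega) hCc hCr hC1 hCB b1 hBm b3 b4 hv1
    rintro (h3 | h3)
    · exact h2.1 h3
    · exact h2.2 h3.2
  have hsub : rect 0 a 0 n ∩ L.col true (mix G R ω η) ⊆
      rect 0 m 0 (2 * n) ∩ L.col true (mix G R ω η) := by
    rintro v ⟨⟨⟨q1, q2⟩, q3, q4⟩, h2⟩
    exact ⟨⟨⟨q1, by omega⟩, q3, by omega⟩, h2⟩
  obtain ⟨u, hu, hu0⟩ := h0
  obtain ⟨v, hv, hvn⟩ := h1
  obtain ⟨x, ⟨s, hs, hsx⟩, y, hy, hc⟩ := hA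
  have hc' := hc.mono hζD
  have hus := (hΓ u hu s hs).mono (hζΓ.trans hsub)
  refine ⟨u, v, y, hu0, hvn, hy, (hΓ u hu v hv).mono hζΓ, ?_⟩
  exact (hus.trans (Lat.Cn.of_adj hus.right hc'.left hsx)).trans hc'

/-- RSW LEMMA.  `resample` (`Rev_stop`) with one event `E' = XX a m n` (`I = Finset.univ` for `Unit`), `E = VX true 0 a 0 n`, `F ω` = the arm event
of `zr_half` for a set `Γ` chosen by `left_crossing` (if `E ω` holds; otherwise `fun _ => True`), `p = ½ pr (HX true 0 m 0 (2n))`, `G` = the sites of `rect 0 m 0 (2n)` (`zr_half`, `zr_mix`).  The conditional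
probabilities are probabilities: `cpr_eq_pr` (`VX.dep`, `XX.dep`, `Dep.mono`). -/
theorem zr_rsw (hL : Tr L L (rfy (2 * n))) (ha : 0 ≤ a) (ham : a < m) (hn : 0 ≤ n) :
    1 / 2 * pr (L.HX true 0 m 0 (2 * n)) * pr (L.VX true 0 a 0 n) ≤ pr (L.XX a m n) := by
  have hlc : ∀ ω : Cfg, L.VX true 0 a 0 n ω → ∃ Γ : Set Pt, L.Con Γ ∧
      Γ ⊆ rect 0 a 0 n ∩ L.col true ω ∧
      Γ ⊆ L.Rev false (rect (-1) a 0 n) (rect (-1) (-1) 0 n) ω ∧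
      (∀ v ∈ Γ, v ∉ L.Cx false (rect (-1) a 0 n) (rect (-1) (-1) 0 n) ω) ∧
      (∃ v ∈ Γ, v.2 = 0) ∧ ∃ v ∈ Γ, v.2 = n := fun ω h => left_crossing ha hn h
  choose! Γ hΓ using hlc
  have hGc : (((zr7_finite 0 m 0 (2 * n)).toFinset : Finset Pt) : Set Pt) =
      rect 0 m 0 (2 * n) := Set.Finite.coe_toFinset _
  have key := resample (L.Rev_stop false (rect (-1) a 0 n) (rect (-1) (-1) 0 n))
    (G := (zr7_finite 0 m 0 (2 * n)).toFinset) (I := (Finset.univ : Finset Unit))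
    (E := L.VX true 0 a 0 n)
    (F := fun ω => L.Arm true (L.rgt (Γ ω ∪ rfy (2 * n) '' Γ ω) m (2 * n) ∩
      rect 0 m 0 (2 * n)) (L.nb (Γ ω)) {v | v.1 = m})
    (E' := fun _ => L.XX a m n) (p := 1 / 2 * pr (L.HX true 0 m 0 (2 * n)))
    (fun ω hω => zr_half hL ha ham hn (hΓ ω hω).1 (fun v hv => ((hΓ ω hω).2.1 hv).1)
      (hΓ ω hω).2.2.2.2.1 (hΓ ω hω).2.2.2.2.2)
    (fun ω _ => (Lat.Arm.dep L true _ _ _).mono (by rw [hGc]; exact Set.inter_subset_right))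
    (fun ω η hω hF => ⟨(), Finset.mem_univ _, zr_mix hL ha ham hn (by rw [hGc])
      (hΓ ω hω).1 (hΓ ω hω).2.1 (hΓ ω hω).2.2.1 (hΓ ω hω).2.2.2.1 (hΓ ω hω).2.2.2.2.1
      (hΓ ω hω).2.2.2.2.2 hF⟩) (fun _ => false)
  have d1 : Dep (L.VX true 0 a 0 n) (((zr7_finite 0 m 0 (2 * n)).toFinset : Finset Pt) : Set Pt) := by
    rw [hGc]
    refine (Lat.VX.dep L true 0 a 0 n).mono ?_
    rintro v ⟨⟨q1, q2⟩, q3, q4⟩
    exact ⟨⟨q1, by omega⟩, q3, by omega⟩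
  have d2 : Dep (L.XX a m n) (((zr7_finite 0 m 0 (2 * n)).toFinset : Finset Pt) : Set Pt) := by
    rw [hGc]
    exact XX.dep L ham.le hn
  rw [cpr_eq_pr d1, Finset.sum_const, Finset.card_univ, Fintype.card_unit, one_smul,
    cpr_eq_pr d2] at key
  exact key

end SC
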