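import Pool.Agent.Lib_MP_e0a489.TB2
import Pool.Agent.Lib_MP_e0a489.TE3
import Pool.Agent.Lib_MP_e0a489.ZR6

/-!
# MP_e0a489, module ZR, 8: gluing crossings (any lattice)
-/

set_option autoImplicit false

namespace SC

open Classical

variable {L : Lat}

open SC.Lat in
private theorem zr8_meet {a b p q : ℤ} {A B : Set Pt} (hA : A ⊆ rect a b p q)
    (hB : B ⊆ rect a b p q) {u v x y : Pt} (hu : u.1 = a) (hv : v.1 = b) (h1 : L.Cn A u v)
    (hx : x.2 = p) (hy : y.2 = q) (h2 : L.Cn B x y) : ∃ z, L.Cn A u z ∧ L.Cn B x z := by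
  obtain ⟨z, hz1, hz2⟩ := cross (L := L) (P := {z | L.Cn A u z}) (P' := {z | L.Cn B x z})
    (con_cluster A u) (con_cluster B x) (fun z hz => hA (Cn.right hz))
    (fun z hz => hB (Cn.right hz)) ⟨u, Cn.refl h1.1, hu⟩ ⟨v, h1, hv⟩ ⟨x, Cn.refl h2.1, hx⟩
    ⟨y, h2, hy⟩
  exact ⟨z, hz1, hz2⟩

private theorem zr8_rect {a b p q a' b' p' q' : ℤ} (h1 : a' ≤ a) (h2 : b ≤ b') (h3 : p' ≤ p)
    (h4 : q ≤ q') : rect a b p q ⊆ rect a' b' p' q' := by
  rintro v ⟨⟨e1, e2⟩, e3, e4⟩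
  exact ⟨⟨h1.trans e1, e2.trans h2⟩, h3.trans e3, e4.trans h4⟩

private theorem zr8_ri {a b p q a' b' p' q' : ℤ} (C : Set Pt) (h1 : a' ≤ a) (h2 : b ≤ b')
    (h3 : p' ≤ p) (h4 : q ≤ q') : rect a b p q ∩ C ⊆ rect a' b' p' q' ∩ C :=
  Set.inter_subset_inter_left _ (zr8_rect h1 h2 h3 h4)

private theorem zr8_loc {A : Cfg → Prop} (hA : Loc A) (e : Equiv.Perm Pt) :
    Loc fun ω => A (via e ω) := by
  obtain ⟨F, hF⟩ := hA
  refine ⟨F.map e.toEmbedding, ?_⟩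
  intro ω ω' h
  apply hF
  intro v hv
  apply h
  rw [Finset.mem_coe, Finset.mem_map]
  exact ⟨v, hv, rfl⟩

/-- Two overlapping horizontal crossings and a vertical crossing of the overlap.
Proof.  `Cn (rect a b p q ∩ col) u v`, `Cn (rect a' b' p q ∩ col) u' v'`, `Cn (rect a' b p q ∩ col) x y`.  The set `{z | Cn (rect a b p q ∩ col) u z}` contains (`Cn.last` or `HX.mono`-like cut) a
crossing of `rect a' b p q`; simplest: by `cross` in `rect a b p q` the clusters of `u` in `rect a b p q ∩ col` and of `x` in `rect a' b p q ∩ col` meet; by `cross` in `rect a' b' p q` the clusters of `u'` and `x`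
meet.  So `u` is joined to `v'` in `rect a b' p q ∩ col` (`Cn.trans`, `Cn.symm`, `Cn.mono`). -/
theorem glue_hx {c : Bool} {a b a' b' p q : ℤ} (h1 : a ≤ a') (h2 : a' ≤ b) (h3 : b ≤ b')
    (hpq : p ≤ q) {ω : Cfg} (hu : L.HX c a b p q ω) (hv : L.HX c a' b' p q ω)
    (hx : L.VX c a' b p q ω) : L.HX c a b' p q ω := by
  obtain ⟨u, v, hu1, hv1, c1⟩ := hu
  obtain ⟨u', v', hu1', hv1', c2⟩ := hv
  obtain ⟨x, y, hx1, hy1, c3⟩ := hx
  have i3 : rect a' b p q ∩ L.col c ω ⊆ rect a b p q :=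
    fun z hz => zr8_rect h1 le_rfl le_rfl le_rfl hz.1
  have i3' : rect a' b p q ∩ L.col c ω ⊆ rect a' b' p q :=
    fun z hz => zr8_rect le_rfl h3 le_rfl le_rfl hz.1
  obtain ⟨z, z1, z2⟩ := zr8_meet (fun z hz => hz.1) i3 hu1 hv1 c1 hx1 hy1 c3
  obtain ⟨w, w1, w2⟩ := zr8_meet (fun z hz => hz.1) i3' hu1' hv1' c2 hx1 hy1 c3
  have m1 := zr8_ri (p := p) (q := q) (L.col c ω) (le_refl a) h3 le_rfl le_rfl
  have m2 := zr8_ri (p := p) (q := q) (L.col c ω) h1 (le_refl b') le_rfl le_rfl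
  have m3 := zr8_ri (p := p) (q := q) (L.col c ω) h1 h3 le_rfl le_rfl
  exact ⟨u, v', hu1, hv1', (z1.mono m1).trans ((z2.symm.mono m3).trans ((w2.mono m3).trans
    ((w1.symm.mono m2).trans (c2.mono m2))))⟩

/-- the transposed statement (`glue_hx` for `L.tr`, `tr_hx`, `tr_vx`) -/
theorem glue_vx {c : Bool} {a b p q p' q' : ℤ} (h1 : p ≤ p') (h2 : p' ≤ q) (h3 : q ≤ q')
    (hab : a ≤ b) {ω : Cfg} (hu : L.VX c a b p q ω) (hv : L.VX c a b p' q' ω)
    (hx : L.HX c a b p' q ω) : L.VX c a b p q' ω := by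
  obtain ⟨u, v, hu1, hv1, c1⟩ := hu
  obtain ⟨u', v', hu1', hv1', c2⟩ := hv
  obtain ⟨x, y, hx1, hy1, c3⟩ := hx
  have i3 : rect a b p' q ∩ L.col c ω ⊆ rect a b p q :=
    fun z hz => zr8_rect le_rfl le_rfl h1 le_rfl hz.1
  have i3' : rect a b p' q ∩ L.col c ω ⊆ rect a b p' q' :=
    fun z hz => zr8_rect le_rfl le_rfl le_rfl h3 hz.1
  obtain ⟨z, z1, z2⟩ := zr8_meet i3 (fun z hz => hz.1) hx1 hy1 c3 hu1 hv1 c1
  obtain ⟨w, w1, w2⟩ := zr8_meet i3' (fun z hz => hz.1) hx1 hy1 c3 hu1' hv1' c2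
  have m1 := zr8_ri (a := a) (b := b) (L.col c ω) le_rfl le_rfl (le_refl p) h3
  have m2 := zr8_ri (a := a) (b := b) (L.col c ω) le_rfl le_rfl h1 (le_refl q')
  have m3 := zr8_ri (a := a) (b := b) (L.col c ω) le_rfl le_rfl h1 h3
  exact ⟨u, v', hu1, hv1', (z2.mono m1).trans ((z1.symm.mono m3).trans ((w1.mono m3).trans
    ((w2.symm.mono m2).trans (c2.mono m2))))⟩

/-- Harris inequality for three events (`pr_harris` twice) -/
theorem harris3 {A B C : Cfg → Prop} (lA : Loc A) (lB : Loc B) (lC : Loc C) (hA : Inc A)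
    (hB : Inc B) (hC : Inc C) : pr A * pr B * pr C ≤ pr (fun ω => A ω ∧ B ω ∧ C ω) := by
  have h1 := pr_harris lA lB hA hB
  have h2 := pr_harris (lA.and lB) lC (fun ω ω' h hω => ⟨hA ω ω' h hω.1, hB ω ω' h hω.2⟩) hC
  have e : (fun ω => (A ω ∧ B ω) ∧ C ω) = fun ω => A ω ∧ B ω ∧ C ω := by
    funext ω
    exact propext and_assoc
  rw [e] at h2
  exact (mul_le_mul_of_nonneg_right h1 (pr_nonneg C)).trans h2

/-- `harris3`, `glue_hx`, `pr_mono` (`HX.loc`, `HX.mon` with `MonC true = Inc`) -/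
theorem pr_glue_hx {a b a' b' p q : ℤ} (h1 : a ≤ a') (h2 : a' ≤ b) (h3 : b ≤ b')
    (hpq : p ≤ q) : pr (L.HX true a b p q) * pr (L.HX true a' b' p q) *
      pr (L.VX true a' b p q) ≤ pr (L.HX true a b' p q) := by
  refine (harris3 (Lat.HX.loc L true a b p q) (Lat.HX.loc L true a' b' p q)
    (Lat.VX.loc L true a' b p q) (Lat.HX.mon L true a b p q) (Lat.HX.mon L true a' b' p q)
    (Lat.VX.mon L true a' b p q)).trans ?_
  exact pr_mono ((Lat.HX.loc L true a b p q).and ((Lat.HX.loc L true a' b' p q).and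
    (Lat.VX.loc L true a' b p q))) (Lat.HX.loc L true a b' p q)
    fun ω hω => glue_hx h1 h2 h3 hpq hω.1 hω.2.1 hω.2.2

theorem pr_glue_vx {a b p q p' q' : ℤ} (h1 : p ≤ p') (h2 : p' ≤ q) (h3 : q ≤ q')
    (hab : a ≤ b) : pr (L.VX true a b p q) * pr (L.VX true a b p' q') *
      pr (L.HX true a b p' q) ≤ pr (L.VX true a b p q') := by
  refine (harris3 (Lat.VX.loc L true a b p q) (Lat.VX.loc L true a b p' q')
    (Lat.HX.loc L true a b p' q) (Lat.VX.mon L true a b p q) (Lat.VX.mon L true a b p' q')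
    (Lat.HX.mon L true a b p' q)).trans ?_
  exact pr_mono ((Lat.VX.loc L true a b p q).and ((Lat.VX.loc L true a b p' q').and
    (Lat.HX.loc L true a b p' q))) (Lat.VX.loc L true a b p q')
    fun ω hω => glue_vx h1 h2 h3 hab hω.1 hω.2.1 hω.2.2

/-- GLUING OF THE RSW EVENTS, deterministic.  The RSW event, its mirror image and a horizontal crossing of the common rectangle `S = [0,a] × [0,n]`.
Proof.  `XX`: `Q₁ = {z | Cn (rect 0 a 0 n ∩ col) u z}` joins the rows `0`, `n` of `S`, and `u` is joined in `rect 0 m 0 (2n)` to a site of the column `m`.  `XX.via he`: `rfx a` maps `rect 0 a 0 n`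
to itself and `rect 0 m 0 (2n)` to `rect (a - m) a 0 (2n)` (`m ≥ a`): `Q₂` = cluster of `rfx a u'` in `rect 0 a 0 n ∩ col` joins the rows `0`, `n`, and `rfx a u'` is joined in `rect (a-m) a 0 (2n)` to a
site of the column `a - m`.  `Q₃` = cluster of the horizontal crossing joins the columns `0` and `a` of `S`.  By `cross` in `S` it meets `Q₁` and `Q₂`. -/
theorem xx_glue {L' : Lat} {a m n : ℤ} (he : Tr L L' (rfx a)) (ha : 0 ≤ a) (ham : a ≤ m)
    (hn : 0 ≤ n) {ω : Cfg} (h1 : L.XX a m n ω) (h2 : L'.XX a m n (via (rfx a) ω))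
    (h3 : L.HX true 0 a 0 n ω) : L.HX true (a - m) m 0 (2 * n) ω := by
  obtain ⟨u, v, w, hu, hv, hw, c1, c2⟩ := h1
  obtain ⟨u', v', w', hu', hv', hw', c3, c4⟩ := XX.via he h2
  obtain ⟨s, t, hs, ht, c5⟩ := h3
  have e1 : rfx a '' rect 0 a 0 n ⊆ rect 0 a 0 n := by
    rintro _ ⟨z, ⟨⟨z1, z2⟩, z3, z4⟩, rfl⟩
    refine ⟨⟨?_, ?_⟩, z3, z4⟩
    · show 0 ≤ a - z.1
      omega
    · show a - z.1 ≤ a
      omega
  have e2 : rfx a '' rect 0 m 0 (2 * n) ⊆ rect (a - m) a 0 (2 * n) := by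
    rintro _ ⟨z, ⟨⟨z1, z2⟩, z3, z4⟩, rfl⟩
    refine ⟨⟨?_, ?_⟩, z3, z4⟩
    · show a - m ≤ a - z.1
      omega
    · show a - z.1 ≤ a
      omega
  have c3' := c3.mono (Set.inter_subset_inter_left _ e1)
  have c4' := c4.mono (Set.inter_subset_inter_left _ e2)
  obtain ⟨z, z1, z2⟩ := zr8_meet (fun z hz => hz.1) (fun z hz => hz.1) hs ht c5 hu hv c1
  obtain ⟨z', z1', z2'⟩ := zr8_meet (x := rfx a u') (y := rfx a v') (fun z hz => hz.1)
    (fun z hz => hz.1) hs ht c5 hu' hv' c3'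
  have m1 : rect 0 a 0 n ∩ L.col true ω ⊆ rect (a - m) m 0 (2 * n) ∩ L.col true ω :=
    zr8_ri _ (by omega) ham le_rfl (by omega)
  have m2 : rect 0 m 0 (2 * n) ∩ L.col true ω ⊆ rect (a - m) m 0 (2 * n) ∩ L.col true ω :=
    zr8_ri _ (by omega) le_rfl le_rfl le_rfl
  have m3 : rect (a - m) a 0 (2 * n) ∩ L.col true ω ⊆
      rect (a - m) m 0 (2 * n) ∩ L.col true ω := zr8_ri _ le_rfl ham le_rfl le_rfl
  refine ⟨rfx a w', w, ?_, hw, (c4'.symm.mono m3).trans ((z2'.mono m1).trans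
    ((z1'.symm.mono m1).trans ((z1.mono m1).trans ((z2.symm.mono m1).trans (c2.mono m2)))))⟩
  show a - w'.1 = a - m
  rw [hw']

/-- `harris3` (`XX.inc`, `via e` is monotone, locality of `fun ω => A (via e ω)`: see `pr_equiv` / `Dep` with the image set), `pr_via`, `xx_glue`, `pr_mono` -/
theorem xx_pr {L' : Lat} {a m n : ℤ} (he : Tr L L' (rfx a)) (ha : 0 ≤ a) (ham : a ≤ m)
    (hn : 0 ≤ n) : pr (L.XX a m n) * pr (L'.XX a m n) * pr (L.HX true 0 a 0 n) ≤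
      pr (L.HX true (a - m) m 0 (2 * n)) := by
  have l1 := XX.loc L (a := a) (m := m) (n := n) ham hn
  have l2 := XX.loc L' (a := a) (m := m) (n := n) ham hn
  have l2' := zr8_loc l2 (rfx a)
  have l3 := Lat.HX.loc L true 0 a 0 n
  have i2 : Inc fun ω => L'.XX a m n (via (rfx a) ω) :=
    fun ω ω' h hω => XX.inc L' a m n _ _ (fun v => h (rfx a v)) hω
  rw [← pr_via l2 (rfx a)]
  refine (harris3 l1 l2' l3 (XX.inc L a m n) i2 (Lat.HX.mon L true 0 a 0 n)).trans ?_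
  exact pr_mono (l1.and (l2'.and l3)) (Lat.HX.loc L true (a - m) m 0 (2 * n))
    fun ω hω => xx_glue he ha ham hn hω.1 hω.2.1 hω.2.2

end SC
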