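import Pool.Agent.Lib_MP_e0a489.ZR3
import Pool.Agent.Lib_MP_e0a489.ZR7
import Pool.Agent.Lib_MP_e0a489.ZR8

/-!
# MP_e0a489, module ZR, 9: long rectangles of `Z2`
-/

set_option autoImplicit false

namespace SC

open Classical

/-- `tr_rfy` / `tr_rfx` and `z2_ry`, `z2_rx`, `z2_shift` -/
theorem z2_tr_rfy {h : ℤ} (hh : h % 2 = 0) : Tr Z2 Z2 (rfy h) := by
  have h1 := tr_rfy Z2 h
  rwa [z2_ry, z2_shift (0, -h) (by norm_num) (by dsimp only; omega)] at h1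

theorem z2_tr_rfx {h : ℤ} (hh : h % 2 = 0) : Tr Z2 Z2 (rfx h) := by
  have h1 := tr_rfx Z2 h
  rwa [z2_rx, z2_shift (-h, 0) (by dsimp only; omega) (by norm_num)] at h1

/-- `h(3N, 2N) ≥ 2⁻⁷`: `pr (XX N (2N) N) ≥ 1/2 * 1/2 * 1/2` (`zr_rsw` with `hL = z2_tr_rfy`, `z2_square` for the square of side `2N`, `z2_square_v` for the square of side `N`), `pr (HX true 0 N 0 N) ≥ 1/2`, `xx_pr` with `L' = Z2`
(`z2_tr_rfx`, `a = N`, `m = 2N`, `n = N`); the rectangle `[-N, 2N] × [0, 2N]` is translated by `(N, 0)` (`z2_pr_shift_hx`). -/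
theorem zr_32 {N : ℤ} (hN : N % 2 = 0) (h2 : 2 ≤ N) :
    (1 / 2 : ℝ) ^ 7 ≤ pr (Z2.HX true 0 (3 * N) 0 (2 * N)) := by
  have h3 := zr_rsw (L := Z2) (a := N) (m := 2 * N) (n := N) (z2_tr_rfy (by omega))
    (by omega) (by omega) (by omega)
  have h4 := z2_square (n := 2 * N) (by omega) (by omega)
  have h5 := z2_square_v hN h2
  have h6 := z2_square hN h2
  have h7 : (1 / 8 : ℝ) ≤ pr (Z2.XX N (2 * N) N) := by
    have h8 : (1 / 2 : ℝ) * (1 / 2) * (1 / 2) ≤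
        1 / 2 * pr (Z2.HX true 0 (2 * N) 0 (2 * N)) * pr (Z2.VX true 0 N 0 N) :=
      mul_le_mul (mul_le_mul_of_nonneg_left h4 (by norm_num)) h5 (by norm_num)
        (mul_nonneg (by norm_num) (pr_nonneg _))
    linarith
  have h9 := xx_pr (L := Z2) (L' := Z2) (a := N) (m := 2 * N) (n := N) (z2_tr_rfx hN)
    (by omega) (by omega) (by omega)
  have h10 : (1 / 8 : ℝ) * (1 / 8) * (1 / 2) ≤
      pr (Z2.XX N (2 * N) N) * pr (Z2.XX N (2 * N) N) * pr (Z2.HX true 0 N 0 N) :=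
    mul_le_mul (mul_le_mul h7 h7 (by norm_num) (pr_nonneg _)) h6 (by norm_num)
      (mul_nonneg (pr_nonneg _) (pr_nonneg _))
  have h11 := z2_pr_shift_hx true (N - 2 * N) (2 * N) 0 (2 * N) N 0 hN (by norm_num)
  have e1 : N - 2 * N + N = 0 := by ring
  have e2 : 2 * N + N = 3 * N := by ring
  rw [e1, e2, add_zero, add_zero] at h11
  rw [h11]
  calc (1 / 2 : ℝ) ^ 7 = 1 / 8 * (1 / 8) * (1 / 2) := by norm_num
    _ ≤ _ := h10.trans h9

/-- Extension.  `pr_glue_hx` for `a = 0`, `b = m`, `a' = m - n`, `b' = m - n + m'`, `p = 0`, `q = n`; translations by `(m - n, 0)` (`m - n` is even), `z2_square_v`. -/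
theorem zr_ext {m m' n : ℤ} (hm : m % 2 = 0) (hn : n % 2 = 0) (h2 : 2 ≤ n) (h3 : n ≤ m)
    (h4 : n ≤ m') : pr (Z2.HX true 0 m 0 n) * pr (Z2.HX true 0 m' 0 n) * (1 / 2) ≤
      pr (Z2.HX true 0 (m - n + m') 0 n) := by
  have h5 := pr_glue_hx (L := Z2) (a := 0) (b := m) (a' := m - n) (b' := m - n + m') (p := 0)
    (q := n) (by omega) (by omega) (by omega) (by omega)
  have h6 := z2_pr_shift_hx true 0 m' 0 n (m - n) 0 (by omega) (by norm_num)
  have h7 := z2_pr_shift_vx true 0 n 0 n (m - n) 0 (by omega) (by norm_num)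
  have e1 : m' + (m - n) = m - n + m' := by ring
  have e2 : n + (m - n) = m := by ring
  rw [zero_add, e1, add_zero, add_zero] at h6
  rw [zero_add, e2, add_zero, add_zero] at h7
  rw [h6, h7] at h5
  have h8 := z2_square_v hn h2
  refine le_trans (mul_le_mul_of_nonneg_left h8 (mul_nonneg (pr_nonneg _) (pr_nonneg _))) h5

/-- Induction on `j` with `zr_ext` for `m = (j + 2) N`, `m' = 3 N`, `n = 2 N` (then `m - n + m' = (j + 3) N`): the constants are `2⁻⁷` for `j = 1` and are multiplied by `2⁻⁸`. -/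
theorem zr_long (j : ℕ) (hj : 1 ≤ j) {N : ℤ} (hN : N % 2 = 0) (h2 : 2 ≤ N) :
    (1 / 2 : ℝ) ^ (8 * j) ≤ pr (Z2.HX true 0 ((j + 2) * N) 0 (2 * N)) := by
  induction j, hj using Nat.le_induction with
  | base =>
    have h3 := zr_32 hN h2
    have e1 : (((1 : ℕ) : ℤ) + 2) * N = 3 * N := by push_cast; ring
    rw [e1]
    refine le_trans ?_ h3
    norm_num
  | succ j hj ih =>
    have h3 := zr_32 hN h2
    have hj' : (1 : ℤ) ≤ (j : ℤ) := by exact_mod_cast hj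
    have e0 : ((j : ℤ) + 2) * N % 2 = 0 := by
      obtain ⟨K, hK⟩ : ∃ K, N = 2 * K := ⟨N / 2, by omega⟩
      have e : ((j : ℤ) + 2) * N = 2 * (((j : ℤ) + 2) * K) := by rw [hK]; ring
      rw [e]
      exact Int.mul_emod_right 2 _
    have h4 := zr_ext (m := ((j : ℤ) + 2) * N) (m' := 3 * N) (n := 2 * N) e0 (by omega) (by omega)
      (by nlinarith) (by omega)
    have e1 : ((j : ℤ) + 2) * N - 2 * N + 3 * N = (((j + 1 : ℕ) : ℤ) + 2) * N := by
      push_cast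
      ring
    rw [e1] at h4
    refine le_trans ?_ h4
    have h5 : (1 / 2 : ℝ) ^ (8 * j) * (1 / 2) ^ 7 ≤
        pr (Z2.HX true 0 (((j : ℤ) + 2) * N) 0 (2 * N)) * pr (Z2.HX true 0 (3 * N) 0 (2 * N)) :=
      mul_le_mul ih h3 (by positivity) (pr_nonneg _)
    calc (1 / 2 : ℝ) ^ (8 * (j + 1)) = (1 / 2 : ℝ) ^ (8 * j) * (1 / 2) ^ 7 * (1 / 2) := by
          rw [mul_add, pow_add]
          ring
      _ ≤ _ := mul_le_mul_of_nonneg_right h5 (by norm_num)

end SC
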