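import Pool.Agent.Lib_MP_e0a489.TD1
import Pool.Agent.Lib_MP_e0a489.TL0
import Pool.Agent.Lib_MP_e0a489.ZR2
import Pool.Agent.Lib_MP_e0a489.ZR6

/-!
# MP_e0a489, triangular lattice, 1: symmetries, invariance of the crossing probabilities
-/

set_option autoImplicit false

namespace SC

open Classical

/-- the row drawing with the parities of the rows exchanged -/
def TO : Lat := TL.shift (0, 1)

private theorem zt1_ext {L L' : Lat} (h1 : ∀ i j, L.ne i j = L'.ne i j)
    (h2 : ∀ v, L.typ v = L'.typ v) : L = L' := by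
  cases L with
  | mk ne typ =>
    cases L' with
    | mk ne' typ' =>
      have e1 : ne = ne' := funext fun i => funext fun j => h1 i j
      have e2 : typ = typ' := funext fun v => h2 v
      rw [e1, e2]

private theorem zt1_shift_hx (L : Lat) (x : Pt) (c : Bool) (a b p q : ℤ) :
    pr (L.HX c (a + x.1) (b + x.1) (p + x.2) (q + x.2)) = pr ((L.shift x).HX c a b p q) := by
  rw [← pr_via (Lat.HX.loc (L.shift x) c a b p q) (Equiv.addRight x)]
  congr 1
  funext ω
  exact propext (shift_hx L x c a b p q ω).symm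

private theorem zt1_shift_vx (L : Lat) (x : Pt) (c : Bool) (a b p q : ℤ) :
    pr (L.VX c (a + x.1) (b + x.1) (p + x.2) (q + x.2)) = pr ((L.shift x).VX c a b p q) := by
  rw [← pr_via (Lat.VX.loc (L.shift x) c a b p q) (Equiv.addRight x)]
  congr 1
  funext ω
  exact propext (shift_vx L x c a b p q ω).symm

private theorem zt1_rx_hx (L : Lat) (c : Bool) (a b p q : ℤ) :
    pr (L.rx.HX c a b p q) = pr (L.HX c (-b) (-a) p q) := by
  rw [← pr_via (Lat.HX.loc L.rx c a b p q) rxE]
  congr 1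
  funext ω
  exact propext (rx_hx L c a b p q ω)

private theorem zt1_rx_vx (L : Lat) (c : Bool) (a b p q : ℤ) :
    pr (L.rx.VX c a b p q) = pr (L.VX c (-b) (-a) p q) := by
  rw [← pr_via (Lat.VX.loc L.rx c a b p q) rxE]
  congr 1
  funext ω
  exact propext (rx_vx L c a b p q ω)

private theorem zt1_sw_hx (L : Lat) (c : Bool) (a b p q : ℤ) :
    pr (L.sw.HX c a b p q) = pr (L.HX (!c) a b p q) := by
  rw [← pr_flip (Lat.HX.loc L.sw c a b p q)]
  congr 1
  funext ω
  exact propext (sw_hx L c a b p q ω)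

private theorem zt1_sw_vx (L : Lat) (c : Bool) (a b p q : ℤ) :
    pr (L.sw.VX c a b p q) = pr (L.VX (!c) a b p q) := by
  rw [← pr_flip (Lat.VX.loc L.sw c a b p q)]
  congr 1
  funext ω
  exact propext (sw_vx L c a b p q ω)

/-- `zr1_ext` (copy it from ZR1.lean): two lattices with the same `ne` and `typ` are equal -/
theorem tl_shift_even (x : Pt) (h : x.2 % 2 = 0) : TL.shift x = TL := by
  refine zt1_ext (fun i j => ?_) (fun v => rfl)
  show decide ((j + x.2) % 2 = 1) = decide (j % 2 = 1)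
  by_cases h1 : j % 2 = 1
  · rw [decide_eq_true h1, decide_eq_true (by omega)]
  · rw [decide_eq_false h1, decide_eq_false (by omega)]

theorem tl_shift_odd (x : Pt) (h : x.2 % 2 = 1) : TL.shift x = TO := by
  refine zt1_ext (fun i j => ?_) (fun v => rfl)
  show decide ((j + x.2) % 2 = 1) = decide ((j + 1) % 2 = 1)
  by_cases h1 : (j + 1) % 2 = 1
  · rw [decide_eq_true h1, decide_eq_true (by omega)]
  · rw [decide_eq_false h1, decide_eq_false (by omega)]

theorem to_shift_even (x : Pt) (h : x.2 % 2 = 0) : TO.shift x = TO := by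
  refine zt1_ext (fun i j => ?_) (fun v => rfl)
  show decide ((j + x.2 + 1) % 2 = 1) = decide ((j + 1) % 2 = 1)
  by_cases h1 : (j + 1) % 2 = 1
  · rw [decide_eq_true h1, decide_eq_true (by omega)]
  · rw [decide_eq_false h1, decide_eq_false (by omega)]

/-- `TO.ry.ne i j = ! TL.ne i (-j - 1 + 1)`, and this is `true` iff `j` is even -/
theorem to_ry : TO.ry = TO := by
  refine zt1_ext (fun i j => ?_) (fun v => rfl)
  show (! decide ((-j - 1 + 1) % 2 = 1)) = decide ((j + 1) % 2 = 1)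
  by_cases h1 : (j + 1) % 2 = 1
  · rw [decide_eq_true h1, decide_eq_false (by omega)]
    rfl
  · rw [decide_eq_false h1, decide_eq_true (by omega)]
    rfl

/-- `tr_rfy`, `TL_ry`, `tl_shift_even` -/
theorem tl_tr_rfy (n : ℤ) : Tr TL TL (rfy (2 * n)) := by
  have h := tr_rfy TL (2 * n)
  rwa [TL_ry, tl_shift_even (0, -(2 * n)) (by show (-(2 * n)) % 2 = 0; omega)] at h

/-- `tr_rfy`, `to_ry`, `to_shift_even` -/
theorem to_tr_rfy (n : ℤ) : Tr TO TO (rfy (2 * n)) := by
  have h := tr_rfy TO (2 * n)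
  rwa [to_ry, to_shift_even (0, -(2 * n)) (by show (-(2 * n)) % 2 = 0; omega)] at h

/-- `tr_rfx`, `TL_rx`, `to_shift_even` -/
theorem tl_tr_rfx (a : ℤ) : Tr TL TO (rfx a) := by
  have h := tr_rfx TL a
  have e : TL.rx = TO := TL_rx
  rwa [e, to_shift_even (-a, 0) (by show (0 : ℤ) % 2 = 0; rfl)] at h

/-- horizontal crossing probability: `a + 1` columns, `b + 1` rows -/
noncomputable def tH (a b : ℤ) : ℝ := pr (TL.HX true 0 a 0 b)

/-- vertical crossing probability -/
noncomputable def tV (a b : ℤ) : ℝ := pr (TL.VX true 0 a 0 b)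

/-- All translations.  Open crossings, `y` even: `shift_hx`, `pr_via` (see `z2_pr_shift_hx` in ZR2.lean) and `tl_shift_even`.  `y` odd: `TL.shift (x, y) = TO = TL.rx`
(`TL_rx`) and `rx_hx`: `pr (TL.rx.HX true 0 a 0 b) = pr (TL.HX true (-a) 0 0 b)`, a translate by an even vector `(-a, 0)`.  Closed crossings: `sw_hx` (ZR2.lean), `TL_sw`, `pr_flip`. -/
theorem tl_hx (c : Bool) (x x' y y' : ℤ) : pr (TL.HX c x x' y y') = tH (x' - x) (y' - y) := by
  have hev : ∀ x x' y y' : ℤ, y % 2 = 0 → pr (TL.HX true x x' y y') = tH (x' - x) (y' - y) := by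
    intro x x' y y' hy
    have h := zt1_shift_hx TL (x, y) true 0 (x' - x) 0 (y' - y)
    rw [tl_shift_even (x, y) hy] at h
    have e1 : (0 : ℤ) + ((x, y) : Pt).1 = x := zero_add x
    have e2 : x' - x + ((x, y) : Pt).1 = x' := sub_add_cancel x' x
    have e3 : (0 : ℤ) + ((x, y) : Pt).2 = y := zero_add y
    have e4 : y' - y + ((x, y) : Pt).2 = y' := sub_add_cancel y' y
    rw [e1, e2, e3, e4] at h
    exact h
  have hop : ∀ x x' y y' : ℤ, pr (TL.HX true x x' y y') = tH (x' - x) (y' - y) := by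
    intro x x' y y'
    rcases Int.emod_two_eq_zero_or_one y with hy | hy
    · exact hev x x' y y' hy
    · have h := zt1_shift_hx TL (x, y) true 0 (x' - x) 0 (y' - y)
      have e0 : TL.shift (x, y) = TL.rx := (tl_shift_odd (x, y) hy).trans TL_rx.symm
      rw [e0, zt1_rx_hx] at h
      have e1 : (0 : ℤ) + ((x, y) : Pt).1 = x := zero_add x
      have e2 : x' - x + ((x, y) : Pt).1 = x' := sub_add_cancel x' x
      have e3 : (0 : ℤ) + ((x, y) : Pt).2 = y := zero_add y
      have e4 : y' - y + ((x, y) : Pt).2 = y' := sub_add_cancel y' y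
      rw [e1, e2, e3, e4, hev _ _ 0 _ rfl] at h
      rw [h]
      congr 1 <;> ring
  cases c with
  | true => exact hop x x' y y'
  | false =>
    have h := zt1_sw_hx TL true x x' y y'
    rw [TL_sw, hop] at h
    exact h.symm

/-- the same proof (`shift_vx`, `rx_vx`, `sw_vx`) -/
theorem tl_vx (c : Bool) (x x' y y' : ℤ) : pr (TL.VX c x x' y y') = tV (x' - x) (y' - y) := by
  have hev : ∀ x x' y y' : ℤ, y % 2 = 0 → pr (TL.VX true x x' y y') = tV (x' - x) (y' - y) := by
    intro x x' y y' hy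
    have h := zt1_shift_vx TL (x, y) true 0 (x' - x) 0 (y' - y)
    rw [tl_shift_even (x, y) hy] at h
    have e1 : (0 : ℤ) + ((x, y) : Pt).1 = x := zero_add x
    have e2 : x' - x + ((x, y) : Pt).1 = x' := sub_add_cancel x' x
    have e3 : (0 : ℤ) + ((x, y) : Pt).2 = y := zero_add y
    have e4 : y' - y + ((x, y) : Pt).2 = y' := sub_add_cancel y' y
    rw [e1, e2, e3, e4] at h
    exact h
  have hop : ∀ x x' y y' : ℤ, pr (TL.VX true x x' y y') = tV (x' - x) (y' - y) := by
    intro x x' y y'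
    rcases Int.emod_two_eq_zero_or_one y with hy | hy
    · exact hev x x' y y' hy
    · have h := zt1_shift_vx TL (x, y) true 0 (x' - x) 0 (y' - y)
      have e0 : TL.shift (x, y) = TL.rx := (tl_shift_odd (x, y) hy).trans TL_rx.symm
      rw [e0, zt1_rx_vx] at h
      have e1 : (0 : ℤ) + ((x, y) : Pt).1 = x := zero_add x
      have e2 : x' - x + ((x, y) : Pt).1 = x' := sub_add_cancel x' x
      have e3 : (0 : ℤ) + ((x, y) : Pt).2 = y := zero_add y
      have e4 : y' - y + ((x, y) : Pt).2 = y' := sub_add_cancel y' y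
      rw [e1, e2, e3, e4, hev _ _ 0 _ rfl] at h
      rw [h]
      congr 1 <;> ring
  cases c with
  | true => exact hop x x' y y'
  | false =>
    have h := zt1_sw_vx TL true x x' y y'
    rw [TL_sw, hop] at h
    exact h.symm

/-- `shift_hx`, `pr_via`, `tl_hx` -/
theorem to_hx (a b : ℤ) : pr (TO.HX true 0 a 0 b) = tH a b := by
  have h := zt1_shift_hx TL (0, 1) true 0 a 0 b
  rw [tl_hx] at h
  have h2 : pr (TO.HX true 0 a 0 b) = _ := h.symm
  rw [h2]
  congr 1 <;> simp

theorem to_vx (a b : ℤ) : pr (TO.VX true 0 a 0 b) = tV a b := by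
  have h := zt1_shift_vx TL (0, 1) true 0 a 0 b
  rw [tl_vx] at h
  have h2 : pr (TO.VX true 0 a 0 b) = _ := h.symm
  rw [h2]
  congr 1 <;> simp

/-- duality (`not_hx`, `pr_not`, `tl_vx` for the colour `false`) -/
theorem tV_eq {a b : ℤ} (ha : 0 ≤ a) (hb : 0 ≤ b) : tV a b = 1 - tH a b := by
  have h1 := pr_not (Lat.HX.loc TL true 0 a 0 b)
  have h2 : (fun ω => ¬ TL.HX true 0 a 0 b ω) = TL.VX false 0 a 0 b := by
    funext ω
    exact propext (Lat.not_hx ha hb true ω)
  rw [h2, tl_vx, sub_zero, sub_zero] at h1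
  exact h1

/-- `HX.mono`, `pr_mono` -/
theorem tH_mono {a b a' b' : ℤ} (h0 : 0 ≤ a') (h : a' ≤ a) (h' : b ≤ b') : tH a b ≤ tH a' b' :=
  pr_mono (Lat.HX.loc _ _ _ _ _ _) (Lat.HX.loc _ _ _ _ _ _) fun _ hω =>
    hω.mono le_rfl h0 h le_rfl h'

/-- `VX.mono`, `pr_mono` -/
theorem tV_mono {a b a' b' : ℤ} (h0 : 0 ≤ b') (h : a ≤ a') (h' : b' ≤ b) : tV a b ≤ tV a' b' :=
  pr_mono (Lat.VX.loc _ _ _ _ _ _) (Lat.VX.loc _ _ _ _ _ _) fun _ hω =>
    hω.mono le_rfl h le_rfl h0 h'

end SC
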