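import Pool.Agent.Lib_MP_e0a489.ZT1

/-!
# MP_e0a489, triangular lattice, 2: the rhombus
-/

set_option autoImplicit false

namespace SC

open Classical

namespace Lat

variable {L : Lat}

/-- the first part of a path up to the level `t` of a Lipschitz function (copy of `te3_cut`) -/
private theorem zt2_cut {A : Set Pt} {u v : Pt} (h : L.Cn A u v) (f : Pt → ℤ)
    (hf : ∀ x y, L.Adj x y → |f x - f y| ≤ 1) (t : ℤ) (hu : f u ≤ t) (hv : t ≤ f v) :
    ∃ w, f w = t ∧ L.Cn (A ∩ {x | f x ≤ t}) u w := by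
  by_cases hv' : f v ≤ t
  · by_cases hA : L.Cn (A ∩ {x | f x ≤ t}) u v
    · exact ⟨v, le_antisymm hv' hv, hA⟩
    · have key : L.Cn (A ∩ {x | f x ≤ t}) u v ∨
          ∃ p q, L.Cn (A ∩ {x | f x ≤ t}) u p ∧ L.Adj p q ∧ q ∈ A ∧ q ∉ {x | f x ≤ t} := by
        obtain ⟨hu', hp⟩ := h
        clear hA hv hv'
        induction hp with
        | refl => exact Or.inl (Cn.refl ⟨hu', hu⟩)
        | @tail x y _ hxy ih =>
          rcases ih with ih | ih
          · by_cases hS : f y ≤ t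
            · refine Or.inl (ih.trans (Cn.of_adj ih.right ⟨hxy.2, hS⟩ hxy.1))
            · exact Or.inr ⟨x, y, ih, hxy.1, hxy.2, hS⟩
          · exact Or.inr ih
      rcases key with key | ⟨p, q, hc, ha, _, hqS⟩
      · exact absurd key hA
      · refine ⟨p, ?_, hc⟩
        have h1 : f p ≤ t := hc.right.2
        have h2 : ¬ f q ≤ t := hqS
        have h3 := abs_le.mp (hf p q ha)
        omega
  · obtain ⟨p, q, hc, ha, _, hqS⟩ := h.exit (S := {x | f x ≤ t}) hu hv'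
    refine ⟨p, ?_, hc⟩
    have h1 : f p ≤ t := hc.right.2
    have h2 : ¬ f q ≤ t := hqS
    have h3 := abs_le.mp (hf p q ha)
    omega

/-- the part of a path between the levels `s` and `t` of a Lipschitz function -/
private theorem zt2_cut2 {A : Set Pt} {u v : Pt} (h : L.Cn A u v) (f : Pt → ℤ)
    (hf : ∀ x y, L.Adj x y → |f x - f y| ≤ 1) (s t : ℤ) (hst : s ≤ t) (hu : f u ≤ s)
    (hv : t ≤ f v) :
    ∃ w z, f w = s ∧ f z = t ∧ L.Cn ((A ∩ {x | f x ≤ t}) ∩ {x | s ≤ f x}) w z := by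
  obtain ⟨z, hz, hc⟩ := zt2_cut h f hf t (hu.trans hst) hv
  obtain ⟨w, hw, hc'⟩ := zt2_cut hc.symm (fun x => - f x)
    (fun x y hxy => by
      have h1 := abs_le.mp (hf x y hxy)
      rw [abs_le]
      constructor <;> omega) (-s) (by show - f z ≤ -s; omega) (by show -s ≤ - f u; omega)
  refine ⟨w, z, by have h1 : - f w = -s := hw; omega, hz, hc'.symm.mono ?_⟩
  rintro x ⟨h1, h2⟩
  refine ⟨h1, ?_⟩
  have h3 : - f x ≤ - s := h2
  show s ≤ f x
  omega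

end Lat

/-- A path from the left of the column `a` to the right of the column `b` contains a crossing.  Same proof as `HX.mono` in TE3.lean (`Cn.last` for `{w | w.1 ≤ a}`, then `Cn.exit` for `{w | w.1 ≤ b}`;
copy the private lemma `te3_cut2`). -/
theorem hx_cut {L : Lat} {c : Bool} {A : Set Pt} {a b p q : ℤ} (hab : a ≤ b) {ω : Cfg}
    {u v : Pt} (h : L.Cn (A ∩ L.col c ω) u v) (hA : ∀ w ∈ A, p ≤ w.2 ∧ w.2 ≤ q)
    (hu : u.1 ≤ a) (hv : b ≤ v.1) : L.HX c a b p q ω := by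
  obtain ⟨w, z, hw, hz, hc⟩ := Lat.zt2_cut2 h (fun x => x.1)
    (fun x y hxy => (Lat.Adj.near hxy).1) a b hab hu hv
  refine ⟨w, z, hw, hz, hc.mono ?_⟩
  rintro x ⟨⟨⟨h1, h2⟩, h3⟩, h4⟩
  exact ⟨⟨⟨h4, h3⟩, hA x h1⟩, h2⟩

theorem sl_tr : SL.tr = SL := by
  rfl

theorem sl_sw : SL.sw = SL := by
  rfl

private theorem sl_vx_hx (n : ℤ) : pr (SL.VX true 0 n 0 n) = pr (SL.HX true 0 n 0 n) := by
  have h := pr_via (Lat.HX.loc SL true 0 n 0 n) (Equiv.prodComm ℤ ℤ)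
  rw [← h]
  congr 1
  funext ω
  have := tr_hx SL true 0 n 0 n ω
  rw [sl_tr] at this
  exact propext this.symm

private theorem sl_vx_sw (n : ℤ) : pr (SL.VX false 0 n 0 n) = pr (SL.VX true 0 n 0 n) := by
  have h := pr_flip (Lat.VX.loc SL true 0 n 0 n)
  rw [← h]
  congr 1
  funext ω
  have := sw_vx SL true 0 n 0 n ω
  rw [sl_sw] at this
  exact propext this.symm

/-- `pr (HX true) = 1 - pr (VX false)` (`not_hx`, `pr_not`), `pr (VX false) = pr (VX true)` (`sw_vx` in ZR2.lean, `sl_sw`, `pr_flip`), `pr (VX true) = pr (HX true)` (`tr_hx`, `sl_tr`, `pr_via`, see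
`z2_pr_tr_hx` in ZR2.lean) -/
theorem sl_half {n : ℤ} (hn : 0 ≤ n) : pr (SL.HX true 0 n 0 n) = 1 / 2 := by
  have h1 := pr_not (Lat.HX.loc SL true 0 n 0 n)
  have h2 : (fun ω => ¬ SL.HX true 0 n 0 n ω) = SL.VX false 0 n 0 n := by
    funext ω
    exact propext (Lat.not_hx hn hn true ω)
  rw [h2, sl_vx_sw, sl_vx_hx] at h1
  linarith

theorem sl_half_v {n : ℤ} (hn : 0 ≤ n) : pr (SL.VX true 0 n 0 n) = 1 / 2 := by
  rw [sl_vx_hx]
  exact sl_half hn

/-- a path of the sheared drawing is a path of the row drawing -/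
private theorem sh_cn {n : ℤ} {η : Cfg} {u v : Pt}
    (h : SL.Cn (rect 0 n 0 n ∩ SL.col true (via shE η)) u v) :
    TL.Cn (shE '' rect 0 n 0 n ∩ TL.col true η) (shE u) (shE v) := by
  have h1 := (tr_shE.cn _ u v).1 h
  rwa [Set.image_inter shE.injective, tr_shE.col] at h1

/-- `SL.HX true 0 n 0 n (via shE η)` implies `TL.HX true (n / 2) n 0 n η`: by `tr_shE` (`Tr.cn`, `Tr.col`, `Set.image_inter`) the path of `SL` is a path of `TL` in `shE '' rect 0 n 0 n`, rows `0` to `n`, from the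
column `u.2 / 2 ≤ n / 2` to the column `n + v.2 / 2 ≥ n`: `hx_cut`.  Then `pr_via`, `pr_mono`, `sl_half`, `tl_hx`. -/
theorem tl_rh_h {n : ℤ} (hn : 0 ≤ n) : 1 / 2 ≤ tH (n - n / 2) n := by
  have e1 := tl_hx true (n / 2) n 0 n
  rw [sub_zero] at e1
  rw [← e1, ← sl_half hn, ← pr_via (Lat.HX.loc SL true 0 n 0 n) shE]
  refine pr_mono ?_ (Lat.HX.loc TL true _ _ _ _) ?_
  · obtain ⟨F, hF⟩ := Lat.HX.loc SL true 0 n 0 n
    refine ⟨F.image shE, fun ω ω' hw => hF _ _ fun v hv => hw _ ?_⟩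
    rw [Finset.coe_image]
    exact Set.mem_image_of_mem _ hv
  · rintro η ⟨u, v, hu, hv, hc⟩
    have hu' : u ∈ rect 0 n 0 n := hc.left.1
    have hv' : v ∈ rect 0 n 0 n := hc.right.1
    refine hx_cut (by omega) (sh_cn hc) ?_ ?_ ?_
    · rintro _ ⟨w, hw, rfl⟩
      exact hw.2
    · show u.1 + u.2 / 2 ≤ n / 2
      have := hu'.2.2
      omega
    · show n ≤ v.1 + v.2 / 2
      have := hv'.2.1
      omega

/-- `SL.VX true 0 n 0 n (via shE η)` implies `TL.VX true 0 (n + n / 2) 0 n η` (`shE '' rect 0 n 0 n ⊆ rect 0 (n + n / 2) 0 n`; `shE` does not change the rows) -/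
theorem tl_rh_v {n : ℤ} (hn : 0 ≤ n) : 1 / 2 ≤ tV (n + n / 2) n := by
  unfold tV
  rw [← sl_half_v hn, ← pr_via (Lat.VX.loc SL true 0 n 0 n) shE]
  refine pr_mono ?_ (Lat.VX.loc TL true _ _ _ _) ?_
  · obtain ⟨F, hF⟩ := Lat.VX.loc SL true 0 n 0 n
    refine ⟨F.image shE, fun ω ω' hw => hF _ _ fun v hv => hw _ ?_⟩
    rw [Finset.coe_image]
    exact Set.mem_image_of_mem _ hv
  · rintro η ⟨u, v, hu, hv, hc⟩
    refine ⟨shE u, shE v, hu, hv, (sh_cn hc).mono ?_⟩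
    rintro _ ⟨⟨w, ⟨⟨h1, h2⟩, h3, h4⟩, rfl⟩, hcol⟩
    refine ⟨⟨⟨?_, ?_⟩, h3, h4⟩, hcol⟩
    · show 0 ≤ w.1 + w.2 / 2
      omega
    · show w.1 + w.2 / 2 ≤ n + n / 2
      omega

end SC
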