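import Pool.Agent.Lib_MP_e0a489.PD2
import Pool.Agent.Lib_MP_e0a489.ZT2

/-!
# MP_e0a489, triangular lattice, 3: the critical width of a height, one more column
-/

set_option autoImplicit false

namespace SC

open Classical

/-- the finite set of the sites of a rectangle -/
private noncomputable def zt3_R (a b p q : ℤ) : Finset Pt := Finset.Icc a b ×ˢ Finset.Icc p q

private theorem zt3_mem {a b p q : ℤ} {v : Pt} : v ∈ zt3_R a b p q ↔ v ∈ rect a b p q := by
  unfold zt3_R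
  rw [Finset.mem_product, Finset.mem_Icc, Finset.mem_Icc]
  exact Iff.rfl

private theorem zt3_sub (a b p q : ℤ) : rect a b p q ⊆ (zt3_R a b p q : Set Pt) :=
  fun _ hv => Finset.mem_coe.2 (zt3_mem.2 hv)

private theorem zt3_st (ω : Cfg) (v : Pt) : TL.st ω v = ω v := rfl

/-- search for the last good width -/
private theorem zt3_find {n : ℤ} (k : ℕ) (h0 : 1 / 2 ≤ tH (n - n / 2) n) :
    1 / 2 ≤ tH (n - n / 2 + k) n ∨ ∃ m : ℤ, n - n / 2 ≤ m ∧ m < n - n / 2 + k ∧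
      1 / 2 ≤ tH m n ∧ tH (m + 1) n < 1 / 2 := by
  induction k with
  | zero =>
    left
    have e : n - n / 2 + ((0 : ℕ) : ℤ) = n - n / 2 := by simp
    rw [e]
    exact h0
  | succ k ih =>
    rcases ih with ih | ⟨m, h1, h2, h3, h4⟩
    · by_cases hk : 1 / 2 ≤ tH (n - n / 2 + ((k + 1 : ℕ) : ℤ)) n
      · exact Or.inl hk
      · refine Or.inr ⟨n - n / 2 + k, by omega, by push_cast; omega, ih, ?_⟩
        have e : n - n / 2 + (k : ℤ) + 1 = n - n / 2 + ((k + 1 : ℕ) : ℤ) := by push_cast; ring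
        rw [e]
        exact not_le.1 hk
    · exact Or.inr ⟨m, h1, by push_cast; omega, h3, h4⟩

/-- The critical width.  Either `1/2 ≤ tH (n + n/2) n`, then `m = n + n/2` (`tV (m+1) n ≥ tV m n ≥ 1/2` by `tV_mono`, `tl_rh_v`); or there is `m` with `n - n/2 ≤ m < n + n/2`, `1/2 ≤ tH m n`,
`tH (m+1) n < 1/2` (start with `tl_rh_h` and increase `m` until the inequality fails: induction on the distance, or `Nat.findGreatest`), then `tV (m+1) n = 1 - tH (m+1) n > 1/2` (`tV_eq`). -/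
theorem tl_a {n : ℤ} (hn : 0 ≤ n) : ∃ m : ℤ, n - n / 2 ≤ m ∧ m ≤ n + n / 2 ∧
    1 / 2 ≤ tH m n ∧ 1 / 2 ≤ tV (m + 1) n := by
  obtain ⟨k, hk⟩ : ∃ k : ℕ, (k : ℤ) = 2 * (n / 2) := ⟨(2 * (n / 2)).toNat, by omega⟩
  rcases zt3_find k (tl_rh_h hn) with h | ⟨m, h1, h2, h3, h4⟩
  · have e : n - n / 2 + (k : ℤ) = n + n / 2 := by omega
    rw [e] at h
    refine ⟨n + n / 2, by omega, le_rfl, h, (tl_rh_v hn).trans ?_⟩
    exact tV_mono hn (by omega) le_rfl
  · refine ⟨m, h1, by omega, h3, ?_⟩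
    rw [tV_eq (by omega) hn]
    linarith

/-- One more column costs a factor `1/2`.  `resample` (PD2.lean) with the constant stopping set `R = fun _ => rect 0 a 0 b`, `G` = the sites of `rect 0 (a+1) 0 b`, `E = HX true 0 a 0 b`,
`E' = HX true 0 (a+1) 0 b`; for `ω ∈ E` choose a crossing with end `w = w(ω)`, `w.1 = a`, and let `F ω` be the event that the site `w + (1, 0)` is open, `p = 1/2 ≤ pr (F ω)` (`pr_pos` for the finite set `{w + (1, 0)}`).
The mixed configuration is `ω` on `rect 0 a 0 b` and `η` at `w + (1, 0)`: the crossing is continued by this site (`adj_right`).  The conditional probabilities are probabilities: `cpr_eq_pr`. -/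
theorem tl_col {a b : ℤ} (ha : 0 ≤ a) (hb : 0 ≤ b) : 1 / 2 * tH a b ≤ tH (a + 1) b := by
  obtain ⟨w, hw⟩ : ∃ w : Cfg → Pt, ∀ ω, TL.HX true 0 a 0 b ω →
      (w ω).1 = a ∧ ∃ u : Pt, u.1 = 0 ∧ TL.Cn (rect 0 a 0 b ∩ TL.col true ω) u (w ω) := by
    refine ⟨fun ω => if h : TL.HX true 0 a 0 b ω then h.choose_spec.choose else 0, fun ω h => ?_⟩
    have h1 := h.choose_spec.choose_spec
    show (dite _ _ _ : Pt).1 = a ∧ ∃ u : Pt, u.1 = 0 ∧
      TL.Cn (rect 0 a 0 b ∩ TL.col true ω) u (dite _ _ _)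
    rw [dif_pos h]
    exact ⟨h1.2.1, h.choose, h1.1, h1.2.2⟩
  have hmemw : ∀ ω, TL.HX true 0 a 0 b ω → w ω ∈ rect 0 a 0 b := by
    intro ω h
    obtain ⟨_, u, _, h2⟩ := hw ω h
    exact h2.right.1
  have hw' : ∀ ω, TL.HX true 0 a 0 b ω →
      ((w ω).1 + 1, (w ω).2) ∈ rect 0 (a + 1) 0 b := by
    intro ω h
    obtain ⟨h1, h2⟩ := hmemw ω h
    have h3 := (hw ω h).1
    refine ⟨⟨?_, ?_⟩, h2⟩
    · show 0 ≤ (w ω).1 + 1
      omega
    · show (w ω).1 + 1 ≤ a + 1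
      omega
  have key := resample (R := fun _ => rect 0 a 0 b) (fun _ _ _ => rfl)
    (G := zt3_R 0 (a + 1) 0 b) (I := ({()} : Finset Unit)) (E := TL.HX true 0 a 0 b)
    (F := fun ω η => η ((w ω).1 + 1, (w ω).2) = true)
    (E' := fun _ => TL.HX true 0 (a + 1) 0 b) (p := 1 / 2)
    (fun ω h => by
      have h1 : Dep (fun η : Cfg => η ((w ω).1 + 1, (w ω).2) = true)
          ((({((w ω).1 + 1, (w ω).2)} : Finset Pt)) : Set Pt) := by
        intro η η' hη
        have h2 := hη ((w ω).1 + 1, (w ω).2) (Finset.mem_coe.2 (Finset.mem_singleton_self _))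
        show (η ((w ω).1 + 1, (w ω).2) = true) = (η' ((w ω).1 + 1, (w ω).2) = true)
        rw [h2]
      have h3 := pr_pos h1 (ω := fun _ => true) rfl
      rw [Finset.card_singleton, pow_one] at h3
      exact h3)
    (fun ω h => by
      intro η η' hη
      have h2 := hη ((w ω).1 + 1, (w ω).2) (zt3_sub _ _ _ _ (hw' ω h))
      show (η ((w ω).1 + 1, (w ω).2) = true) = (η' ((w ω).1 + 1, (w ω).2) = true)
      rw [h2])
    (fun ω η h hη => by
      refine ⟨(), Finset.mem_singleton_self _, ?_⟩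
      obtain ⟨h1, u, h2, h3⟩ := hw ω h
      have hsub : rect 0 a 0 b ∩ TL.col true ω ⊆
          rect 0 (a + 1) 0 b ∩ TL.col true (mix (zt3_R 0 (a + 1) 0 b) (fun _ => rect 0 a 0 b) ω η) := by
        rintro x ⟨hx1, hx2⟩
        refine ⟨⟨⟨hx1.1.1, hx1.1.2.trans (by omega)⟩, hx1.2⟩, ?_⟩
        show mix (zt3_R 0 (a + 1) 0 b) (fun _ => rect 0 a 0 b) ω η x = true
        unfold mix
        rw [if_neg (fun hh => hh.2 hx1)]
        exact hx2
      have hend : (((w ω).1 + 1, (w ω).2) : Pt) ∈ rect 0 (a + 1) 0 b ∩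
          TL.col true (mix (zt3_R 0 (a + 1) 0 b) (fun _ => rect 0 a 0 b) ω η) := by
        refine ⟨hw' ω h, ?_⟩
        show mix (zt3_R 0 (a + 1) 0 b) (fun _ => rect 0 a 0 b) ω η ((w ω).1 + 1, (w ω).2) = true
        unfold mix
        rw [if_pos]
        · exact hη
        · refine ⟨zt3_mem.2 (hw' ω h), fun hh => ?_⟩
          have h4 : (w ω).1 + 1 ≤ a := hh.1.2
          omega
      refine ⟨u, ((w ω).1 + 1, (w ω).2), h2, ?_, (h3.mono hsub).trans
        (Lat.Cn.of_adj (h3.mono hsub).right hend (Lat.adj_right (L := TL) (w ω)))⟩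
      show (w ω).1 + 1 = a + 1
      rw [h1])
    (fun _ => false)
  rw [Finset.sum_singleton] at key
  rw [cpr_eq_pr ((Lat.HX.dep TL true 0 (a + 1) 0 b).mono (zt3_sub _ _ _ _)),
    cpr_eq_pr ((Lat.HX.dep TL true 0 a 0 b).mono fun v hv =>
      zt3_sub _ _ _ _ ⟨⟨hv.1.1, hv.1.2.trans (by omega)⟩, hv.2⟩)] at key
  exact key

/-- all sites of the row `0` are open (`pr_pos` for `HX true 0 a 0 0` and the finite set of its sites, then `tH_mono`) -/
theorem tl_row {a b : ℤ} (ha : 0 ≤ a) (hb : 0 ≤ b) : (1 / 2 : ℝ) ^ (a.toNat + 1) ≤ tH a b := by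
  have hpath : ∀ k : ℕ, (k : ℤ) ≤ a →
      TL.Cn (rect 0 a 0 0 ∩ TL.col true (fun _ => true)) (0, 0) ((k : ℤ), 0) := by
    intro k
    induction k with
    | zero =>
      intro _
      exact Lat.Cn.refl ⟨⟨⟨le_rfl, ha⟩, le_rfl, le_rfl⟩, rfl⟩
    | succ k ih =>
      intro hk
      push_cast at hk ⊢
      have h1 := ih (by omega)
      have hmem1 : (((k : ℤ), 0) : Pt) ∈ rect 0 a 0 0 ∩ TL.col true (fun _ => true) :=
        ⟨⟨⟨by dsimp only; omega, by dsimp only; omega⟩, le_rfl, le_rfl⟩, rfl⟩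
      have hmem2 : (((k : ℤ) + 1, 0) : Pt) ∈ rect 0 a 0 0 ∩ TL.col true (fun _ => true) :=
        ⟨⟨⟨by dsimp only; omega, by dsimp only; omega⟩, le_rfl, le_rfl⟩, rfl⟩
      exact Lat.Cn.trans h1 (Lat.Cn.of_adj hmem1 hmem2 (Lat.adj_right (L := TL) ((k : ℤ), 0)))
  have hω : TL.HX true 0 a 0 0 (fun _ => true) := by
    refine ⟨(0, 0), (a, 0), rfl, rfl, ?_⟩
    have h1 := hpath a.toNat (by omega)
    rwa [Int.toNat_of_nonneg ha] at h1
  have hdep : Dep (TL.HX true 0 a 0 0) ((zt3_R 0 a 0 0 : Finset Pt) : Set Pt) :=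
    (Lat.HX.dep TL true 0 a 0 0).mono (zt3_sub _ _ _ _)
  have hcard : (zt3_R 0 a 0 0).card = a.toNat + 1 := by
    unfold zt3_R
    rw [Finset.card_product, Int.card_Icc, Int.card_Icc]
    have e : ((0 : ℤ) + 1 - 0).toNat = 1 := rfl
    rw [e, mul_one]
    omega
  have h5 := pr_pos hdep hω
  rw [hcard] at h5
  refine h5.trans ?_
  exact tH_mono (a := a) (b := 0) ha le_rfl hb

/-- all sites of the column `0` are open -/
theorem tl_row_v {a b : ℤ} (ha : 0 ≤ a) (hb : 0 ≤ b) : (1 / 2 : ℝ) ^ (b.toNat + 1) ≤ tV a b := by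
  have hpath : ∀ k : ℕ, (k : ℤ) ≤ b →
      TL.Cn (rect 0 0 0 b ∩ TL.col true (fun _ => true)) (0, 0) (0, (k : ℤ)) := by
    intro k
    induction k with
    | zero =>
      intro _
      exact Lat.Cn.refl ⟨⟨⟨le_rfl, le_rfl⟩, le_rfl, hb⟩, rfl⟩
    | succ k ih =>
      intro hk
      push_cast at hk ⊢
      have h1 := ih (by omega)
      have hmem1 : ((0, (k : ℤ)) : Pt) ∈ rect 0 0 0 b ∩ TL.col true (fun _ => true) :=
        ⟨⟨⟨le_rfl, le_rfl⟩, by dsimp only; omega, by dsimp only; omega⟩, rfl⟩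
      have hmem2 : ((0, (k : ℤ) + 1) : Pt) ∈ rect 0 0 0 b ∩ TL.col true (fun _ => true) :=
        ⟨⟨⟨le_rfl, le_rfl⟩, by dsimp only; omega, by dsimp only; omega⟩, rfl⟩
      exact Lat.Cn.trans h1 (Lat.Cn.of_adj hmem1 hmem2 (Lat.adj_up (L := TL) (0, (k : ℤ))))
  have hω : TL.VX true 0 0 0 b (fun _ => true) := by
    refine ⟨(0, 0), (0, b), rfl, rfl, ?_⟩
    have h1 := hpath b.toNat (by omega)
    rwa [Int.toNat_of_nonneg hb] at h1
  have hdep : Dep (TL.VX true 0 0 0 b) ((zt3_R 0 0 0 b : Finset Pt) : Set Pt) :=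
    (Lat.VX.dep TL true 0 0 0 b).mono (zt3_sub _ _ _ _)
  have hcard : (zt3_R 0 0 0 b).card = b.toNat + 1 := by
    unfold zt3_R
    rw [Finset.card_product, Int.card_Icc, Int.card_Icc]
    have e : ((0 : ℤ) + 1 - 0).toNat = 1 := rfl
    rw [e, one_mul]
    omega
  have h5 := pr_pos hdep hω
  rw [hcard] at h5
  refine h5.trans ?_
  exact tV_mono (a := 0) (b := b) hb ha le_rfl

end SC
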