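import Pool.Agent.Lib_MP_e0a489.ZR7
import Pool.Agent.Lib_MP_e0a489.ZR8
import Pool.Agent.Lib_MP_e0a489.ZT3

/-!
# MP_e0a489, triangular lattice, 4: long horizontal crossings at one of four consecutive scales
-/

set_option autoImplicit false

namespace SC

open Classical

/-- the data of a good scale `N`: `S = [0,a] × [0,N]`, `R = [0,m] × [0,2N]` -/
structure Good (N a m : ℤ) : Prop where
  big : 12 ≤ N
  a0 : 0 ≤ a
  am : 3 * a ≤ 2 * m + 3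
  Nm : N ≤ m
  h1 : 1 / 4 ≤ tH a N
  v1 : 1 / 2 ≤ tV a N
  h2 : 1 / 2 ≤ tH m (2 * N)
  v2 : 1 / 2 ≤ tV (m + 1) (2 * N)

private theorem zt4_good {N m m' : ℤ} (hN : 12 ≤ N) (l1 : N - N / 2 ≤ m)
    (p1 : 1 / 2 ≤ tH m N) (q1 : 1 / 2 ≤ tV (m + 1) N)
    (l2 : 2 * N - 2 * N / 2 ≤ m') (p2 : 1 / 2 ≤ tH m' (2 * N))
    (q2 : 1 / 2 ≤ tV (m' + 1) (2 * N)) (h : 3 * m ≤ 2 * m') : Good N (m + 1) m' := by
  have hm : 0 ≤ m := by omega
  refine ⟨hN, by omega, by omega, by omega, ?_, q1, p2, q2⟩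
  have := tl_col hm (by omega : (0 : ℤ) ≤ N)
  linarith

/-- Pigeonhole.  Let `mᵢ` be the number given by `tl_a` for the height `2ⁱ n`, `i = 0, …, 4`.  `m₄ ≥ 8 n` and `m₀ ≤ 3 n / 2`; if `2 mᵢ₊₁ < 3 mᵢ` for `i = 0, 1, 2, 3` then `16 m₄ < 81 m₀` (linear arithmetic), contradiction.  So
`3 mᵢ ≤ 2 mᵢ₊₁` for some `i ≤ 3`; take `N = 2ⁱ n`, `a = mᵢ + 1`, `m = mᵢ₊₁` (`tl_col` for `h1`). -/
theorem zt_pig {n : ℤ} (hn : 12 ≤ n) : ∃ N a m : ℤ, n ≤ N ∧ N ≤ 8 * n ∧ Good N a m := by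
  obtain ⟨m0, l0, u0, p0, q0⟩ := tl_a (n := n) (by omega)
  obtain ⟨m1, l1, u1, p1, q1⟩ := tl_a (n := 2 * n) (by omega)
  obtain ⟨m2, l2, u2, p2, q2⟩ := tl_a (n := 2 * (2 * n)) (by omega)
  obtain ⟨m3, l3, u3, p3, q3⟩ := tl_a (n := 2 * (2 * (2 * n))) (by omega)
  obtain ⟨m4, l4, u4, p4, q4⟩ := tl_a (n := 2 * (2 * (2 * (2 * n)))) (by omega)
  by_cases c0 : 3 * m0 ≤ 2 * m1
  · exact ⟨n, m0 + 1, m1, by omega, by omega, zt4_good hn l0 p0 q0 l1 p1 q1 c0⟩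
  by_cases c1 : 3 * m1 ≤ 2 * m2
  · exact ⟨2 * n, m1 + 1, m2, by omega, by omega,
      zt4_good (by omega) l1 p1 q1 l2 p2 q2 c1⟩
  by_cases c2 : 3 * m2 ≤ 2 * m3
  · exact ⟨2 * (2 * n), m2 + 1, m3, by omega, by omega,
      zt4_good (by omega) l2 p2 q2 l3 p3 q3 c2⟩
  by_cases c3 : 3 * m3 ≤ 2 * m4
  · exact ⟨2 * (2 * (2 * n)), m3 + 1, m4, by omega, by omega,
      zt4_good (by omega) l3 p3 q3 l4 p4 q4 c3⟩
  exfalso
  omega

variable {N a m : ℤ}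

private theorem zt4_lt (h : Good N a m) : a < m := by
  have h1 := h.am
  have h2 := h.Nm
  have h3 := h.big
  omega

/-- `zr_rsw` for `L = TL` (`tl_tr_rfy`) and `L = TO` (`to_tr_rfy`, `to_hx`, `to_vx`) gives `pr (TL.XX a m N) ≥ 1/8`, `pr (TO.XX a m N) ≥ 1/8` (`a < m` because `3 a ≤ 2 m + 3`, `m ≥ 12`).  `xx_pr` with
`tl_tr_rfx a`: `1/8 * 1/8 * 1/4 ≤ pr (TL.HX true (a - m) m 0 (2N)) = tH (2m - a) (2N)` (`tl_hx`). -/
theorem zt_wide (h : Good N a m) : (1 / 2 : ℝ) ^ 8 ≤ tH (2 * m - a) (2 * N) := by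
  have hN : 0 ≤ N := by have := h.big; omega
  have ham := zt4_lt h
  have e1 := zr_rsw (tl_tr_rfy N) h.a0 ham hN
  have e2 := zr_rsw (to_tr_rfy N) h.a0 ham hN
  rw [to_hx, to_vx] at e2
  have f1 : (1 : ℝ) / 2 ≤ pr (TL.HX true 0 m 0 (2 * N)) := h.h2
  have f2 : (1 : ℝ) / 2 ≤ pr (TL.VX true 0 a 0 N) := h.v1
  have f3 : (1 : ℝ) / 4 ≤ pr (TL.HX true 0 a 0 N) := h.h1
  have g2 := h.h2
  have g3 := h.v1
  have x1 : (1 : ℝ) / 8 ≤ pr (TL.XX a m N) := by nlinarith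
  have x2 : (1 : ℝ) / 8 ≤ pr (TO.XX a m N) := by nlinarith
  have key := xx_pr (tl_tr_rfx a) h.a0 ham.le hN
  rw [tl_hx true (a - m) m 0 (2 * N)] at key
  have e3 : m - (a - m) = 2 * m - a := by ring
  rw [e3, sub_zero] at key
  refine le_trans ?_ key
  have y1 : (1 : ℝ) / 64 ≤ pr (TL.XX a m N) * pr (TO.XX a m N) := by nlinarith
  calc (1 / 2 : ℝ) ^ 8 = 1 / 64 * (1 / 4) := by norm_num
    _ ≤ pr (TL.XX a m N) * pr (TO.XX a m N) * pr (TL.HX true 0 a 0 N) :=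
        mul_le_mul y1 f3 (by norm_num) (le_trans (by norm_num) y1)

/-- `pr_glue_hx` for the rectangles `[0,w]` and `[w-m-1, w+m-a-1]` with the overlap `[w-m-1, w]`, `m + 2` columns (`Good.v2`), all with the rows `0, …, 2N`; `tl_hx`, `tl_vx`, `zt_wide`. -/
theorem zt_step (h : Good N a m) {w : ℤ} (hw : m + 1 ≤ w) :
    (1 / 2 : ℝ) ^ 9 * tH w (2 * N) ≤ tH (w + (m - a - 1)) (2 * N) := by
  have hN : 0 ≤ N := by have := h.big; omega
  have ham := zt4_lt h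
  have ha := h.a0
  have key := pr_glue_hx (L := TL) (a := 0) (b := w) (a' := w - m - 1)
    (b' := w + (m - a - 1)) (p := 0) (q := 2 * N) (by omega) (by omega) (by omega) (by omega)
  rw [tl_hx, tl_hx, tl_hx, tl_vx] at key
  have e1 : w + (m - a - 1) - (w - m - 1) = 2 * m - a := by ring
  have e2 : w - (w - m - 1) = m + 1 := by ring
  rw [e1, e2, sub_zero, sub_zero, sub_zero] at key
  refine le_trans ?_ key
  have h1 := zt_wide h
  have h2 := h.v2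
  have h3 : 0 ≤ tH w (2 * N) := pr_nonneg _
  have h4 : (1 / 2 : ℝ) ^ 9 ≤ tH (2 * m - a) (2 * N) * tV (m + 1) (2 * N) := by
    calc (1 / 2 : ℝ) ^ 9 = (1 / 2) ^ 8 * (1 / 2) := by norm_num
      _ ≤ _ := mul_le_mul h1 h2 (by norm_num) (le_trans (by positivity) h1)
  calc (1 / 2 : ℝ) ^ 9 * tH w (2 * N)
      ≤ (tH (2 * m - a) (2 * N) * tV (m + 1) (2 * N)) * tH w (2 * N) :=
        mul_le_mul_of_nonneg_right h4 h3
    _ = tH w (2 * N) * tH (2 * m - a) (2 * N) * tV (m + 1) (2 * N) := by ring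

/-- induction on `j` (`2m - a ≥ m + 1`, `m - a - 1 ≥ 0`) -/
theorem zt_long (h : Good N a m) (j : ℕ) :
    (1 / 2 : ℝ) ^ (9 * j + 8) ≤ tH (2 * m - a + j * (m - a - 1)) (2 * N) := by
  have ham := zt4_lt h
  induction j with
  | zero =>
    have := zt_wide h
    simpa using this
  | succ j ih =>
    have hj : 0 ≤ (j : ℤ) * (m - a - 1) := mul_nonneg (by positivity) (by omega)
    have key := zt_step h (w := 2 * m - a + j * (m - a - 1)) (by omega)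
    have e : 2 * m - a + ((j + 1 : ℕ) : ℤ) * (m - a - 1) =
        2 * m - a + j * (m - a - 1) + (m - a - 1) := by
      push_cast
      ring
    rw [e]
    refine le_trans ?_ key
    calc (1 / 2 : ℝ) ^ (9 * (j + 1) + 8) = (1 / 2) ^ 9 * (1 / 2) ^ (9 * j + 8) := by ring
      _ ≤ _ := mul_le_mul_of_nonneg_left ih (by positivity)

end SC
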